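import Mathlib.CategoryTheory.Category.Init
import Mathlib.Analysis.Normed.Lp.MeasurableSpace
import Mathlib.MeasureTheory.Integral.IntervalIntegral.Basic
import Mathlib.Analysis.SpecialFunctions.SmoothTransition
import Mathlib.Tactic.Monotonicity.Lemmas
import Mathlib.Algebra.Order.Star.Real
import Mathlib.Analysis.Complex.ExponentialBounds
import Mathlib.Topology.Sheaves.Presheaf
import Mathlib.Analysis.Matrix.PosDef
import Mathlib.Analysis.SpecialFunctions.Gaussian.GaussianIntegral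
import Mathlib.MeasureTheory.Integral.Pi
import Mathlib.Analysis.Real.Pi.Bounds
import Mathlib.RingTheory.PiTensorProduct
import Mathlib.Tactic.Polynomial.Basic
import Mathlib.MeasureTheory.Integral.IntervalIntegral.FundThmCalculus
import Mathlib.Analysis.Calculus.FDeriv.Partial
import Mathlib.MeasureTheory.Function.Jacobian
import Mathlib.Analysis.Calculus.ParametricIntervalIntegral
import Mathlib.Topology.TietzeExtension
import Mathlib.Geometry.Manifold.SmoothApprox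
import Mathlib.Analysis.InnerProductSpace.NormDet
import Mathlib.Topology.UniformSpace.Uniformizable

-- ======== part 0: formerly Pool.Agent.MP_20bec2_an.T3.SpecA
section MrgPart0

-- ======== part 0: formerly Pool.Agent.MP_20bec2_an.T3.Defs
section MrgPart0

set_option autoImplicit false
open MeasureTheory Set Filter Matrix

namespace Pool.Agent.MP_20bec2_an.T3
noncomputable section
open Classical

abbrev V := Fin 3 → ℝ
abbrev Mx := Matrix (Fin 3) (Fin 3) ℝ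
abbrev Cu := Fin 3 → ℤ

/-! ## calculus -/

/-- smooth -/
abbrev Sm {E F : Type*} [NormedAddCommGroup E] [NormedSpace ℝ E] [NormedAddCommGroup F]
    [NormedSpace ℝ F] (g : E → F) : Prop := ContDiff ℝ ((⊤ : ℕ∞) : WithTop ℕ∞) g
def SmM (S : V → Mx) : Prop := ∀ i j, Sm fun x => S x i j
def pd (j : Fin 3) (g : V → ℝ) (x : V) : ℝ := fderiv ℝ g x (Pi.single j 1)
def pds : List (Fin 3) → (V → ℝ) → V → ℝ
  | [], g => g
  | j :: l, g => pd j (pds l g)
def hp (h : V) (l : List (Fin 3)) : ℝ := (l.map h).prod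
/-- scaled derivative bounds for the lists that satisfy `P` -/
def CBl (P : List (Fin 3) → Prop) (h : V) (U : Set V) (g : V → ℝ) (B : ℝ) : Prop :=
  ∀ l, P l → ∀ x ∈ U, hp h l * |pds l g x| ≤ B
/-- orders 0..n -/
def CB (n : ℕ) : V → Set V → (V → ℝ) → ℝ → Prop := CBl fun l => l.length ≤ n
/-- orders 1..n -/
def CV (n : ℕ) : V → Set V → (V → ℝ) → ℝ → Prop := CBl fun l => 1 ≤ l.length ∧ l.length ≤ n
/-- orders 1..n with at least one lateral derivative -/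
def CL (n : ℕ) : V → Set V → (V → ℝ) → ℝ → Prop := CBl fun l => l.length ≤ n ∧ ∃ i ∈ l, i ≠ 2
/-- order exactly n -/
def CO (n : ℕ) : V → Set V → (V → ℝ) → ℝ → Prop := CBl fun l => l.length = n
/-- purely lateral lists of length 1..n -/
def LatL (n : ℕ) (l : List (Fin 3)) : Prop := 1 ≤ l.length ∧ l.length ≤ n ∧ ∀ i ∈ l, i ≠ 2
def cv (a : ℝ) : V := fun _ => a
def cm (a : ℝ) : Mx := Matrix.of fun _ _ => a
def e3 : V := Pi.single 2 1
def jm (Z : V → V) (x : V) : Mx := Matrix.of fun i j => pd j (fun y => Z y i) x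
def jac (Z : V → V) (x : V) : ℝ := (jm Z x).det
def dv (F : V → V) (z : V) : ℝ := ∑ i, pd i (fun w => F w i) z
def gram (f : V → V) (z : V) : Mx := (jm f z)ᵀ * jm f z
/-- entrywise bound -/
def EB (A B : Mx) : Prop := ∀ i j, |A i j| ≤ B i j
/-- entrywise bound of the two lateral rows -/
def EB2 (A B : Mx) : Prop := ∀ i j, i ≠ 2 → |A i j| ≤ B i j
def bm (g h k : ℝ) : Mx := !![g, g, h; g, g, h; h, h, k]
def nrm (h : V) (S : Mx) : Mx := Matrix.of fun i j => S i j / (h i * h j)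
def latm (S : Mx) : Mx := Matrix.of fun i j => if i = 2 ∨ j = 2 then 0 else S i j
def dg3 (a b c : ℝ) : Mx := Matrix.diagonal ![a, b, c]
def ipm (A B : Mx) : ℝ := ∑ i, ∑ j, A i j * B i j
def Orth (O : Mx) : Prop := O * Oᵀ = 1 ∧ O.det = 1

/-! ## profiles -/

def st (t : ℝ) : ℝ := Real.smoothTransition t
/-- equal to 1 on [-a,a], zero off (-b,b) -/
def bp (a b t : ℝ) : ℝ := st ((b + t) / (b - a)) * st ((b - t) / (b - a))
/-- integer translates sum to 1, support in [-0.9,0.9] -/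
def pou (t : ℝ) : ℝ := st ((t + 9 / 10) / (4 / 5)) - st ((t - 1 / 10) / (4 / 5))
/-- squares of integer translates sum to 1, support in [-0.9,0.9] -/
def sa (t : ℝ) : ℝ := Real.sin (Real.pi / 2 * st ((t + 9 / 10) / (4 / 5))) *
  Real.cos (Real.pi / 2 * st ((t - 1 / 10) / (4 / 5)))
def kb (t : ℝ) : ℝ := bp (1 / 2) 1 t / ∫ s, bp (1 / 2) 1 s
def mol (h : V) (g : V → ℝ) (x : V) : ℝ := ∫ w : V, (∏ i, kb (w i / h i) / h i) * g (x - w)
def molM (h : V) (S : V → Mx) (x : V) : Mx := Matrix.of fun i j => mol h (fun y => S y i j) x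
def mol1 (h : ℝ) (g : ℝ → ℝ) (s : ℝ) : ℝ := ∫ w, kb (w / h) / h * g (s - w)
/-- cube cut-off in the coordinates `O x` -/
def alh (O : Mx) (D : ℝ) (x : V) : ℝ := ∏ i, sa ((O *ᵥ x) i / D)
def beth (O : Mx) (D : ℝ) (x : V) : ℝ := ∏ i, bp (94 / 100) (95 / 100) ((O *ᵥ x) i / D)
def RX (O : Mx) (D r : ℝ) : Set V := {x | ‖O *ᵥ x‖ ≤ r * D}
def cen (D : ℝ) (g : Cu) : V := fun i => D * g i
def box (D : ℝ) (g : Cu) (r : ℝ) : Set V := {x | ‖x - cen D g‖ ≤ r * D}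
def al (D : ℝ) (g : Cu) (x : V) : ℝ := ∏ i, sa ((x i - cen D g i) / D)
def col (g : Cu) : ℕ := (g 0 % 2).toNat + 2 * (g 1 % 2).toNat + 4 * (g 2 % 2).toNat
def Nbr (r : ℤ) (g g' : Cu) : Prop := ∀ i, |g i - g' i| ≤ r

/-! ## kernel, density, flux -/

def ker (S : Mx) (w : V) : ℝ :=
  Real.exp (-(w ⬝ᵥ (S⁻¹ *ᵥ w)) / 2) / Real.sqrt ((2 * Real.pi) ^ 3 * S.det)
def dens (a : V → ℝ) (Z : V → V) (S : V → Mx) (z : V) : ℝ := ∫ x, a x * ker (S x) (Z x - z)
/-- `dens a (Z+u) (S+B+Bᵀ) = dens a Z S + dv (flux a Z S u B)` -/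
def flux (a : V → ℝ) (Z : V → V) (S : V → Mx) (u : V → V) (B : V → Mx) (z : V) : V := fun i =>
  ∫ t in (0 : ℝ)..1,
    (-dens (fun x => a x * u x i) (fun x => Z x + t • u x) (fun x => S x + t • (B x + (B x)ᵀ)) z +
      ∑ j, pd j (dens (fun x => a x * B x i j) (fun x => Z x + t • u x)
        (fun x => S x + t • (B x + (B x)ᵀ))) z)
def Up (u : ℕ → V → V) (i : ℕ) (x : V) : V := ∑ j ∈ Finset.range i, u j x
def Cv (u : ℕ → V → V) (i : ℕ) (x : V) : Mx := ∑ j ∈ Finset.range i, vecMulVec (u j x) (u j x)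
/-- linear part of the flux of a path of stages -/
def fmain (a : V → ℝ) (Z : V → V) (S : V → Mx) (u : ℕ → V → V) (T : ℕ) (z : V) : V := fun i =>
  -∑ m ∈ Finset.range T,
    dens (fun x => a x * u m x i) (fun x => Z x + Up u m x) (fun x => S x - Cv u m x) z
/-- exact flux of a path of stages -/
def ftot (a : V → ℝ) (Z : V → V) (S : V → Mx) (u : ℕ → V → V) (T : ℕ) (z : V) : V :=
  ∑ m ∈ Finset.range T, flux a (fun x => Z x + Up u m x) (fun x => S x - Cv u m x) (u m)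
    (fun x => -(1 / 2 : ℝ) • vecMulVec (u m x) (u m x)) z
def eps0 : ℝ := 1 / 10 ^ 8
def Rho (ρ : V → ℝ) : Prop := Measurable ρ ∧ ∀ x, |ρ x - 1| ≤ eps0
/-- the covariance is symmetric and comparable with `diag h²` -/
def PD (h : V) (S : Mx) : Prop := Sᵀ = S ∧ ∀ v : V,
  1 / 50 * ∑ i, (h i * v i) ^ 2 ≤ v ⬝ᵥ (S *ᵥ v) ∧ v ⬝ᵥ (S *ᵥ v) ≤ 6 * ∑ i, (h i * v i) ^ 2
/-- global conditions under which `dens a Z S` is smooth -/
def GK (a : V → ℝ) (Z : V → V) (S : V → Mx) : Prop :=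
  Measurable a ∧ Continuous Z ∧ (∀ i j, Continuous fun x => S x i j) ∧
  ∃ c C : ℝ, 0 < c ∧ ∀ x, |a x| ≤ C ∧ (a x ≠ 0 → c * ‖x‖ - C ≤ ‖Z x‖ ∧ (S x)ᵀ = S x ∧
    ∀ v : V, c * (v ⬝ᵥ v) ≤ v ⬝ᵥ (S x *ᵥ v) ∧ v ⬝ᵥ (S x *ᵥ v) ≤ C * (v ⬝ᵥ v))
/-- local conditions: weight of size `A` supported in the bounded convex set `U` -/
structure KL (h : V) (U : Set V) (a : V → ℝ) (A : ℝ) (Z : V → V) (S : V → Mx) : Prop where
  hh : ∀ i, 0 < h i
  cx : Convex ℝ U
  cl : IsCompact U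
  ma : Measurable a
  ba : ∀ x, |a x| ≤ A
  sa : ∀ x, x ∉ U → a x = 0
  dZ : ContDiff ℝ 1 Z
  bZ : ∀ x ∈ U, EB (jm Z x - 1) (cm (1 / 100))
  cS : ∀ i j, Continuous fun x => S x i j
  bS : ∀ x ∈ U, PD h (S x)

/-! ## energy -/

def heat (r b : ℝ) (ρ : V → ℝ) (x : V) : ℝ :=
  ∫ w, ρ (x - w) * ker (dg3 (2 * b * r ^ 2) (2 * b) (2 * b)) w
def enr (r lam : ℝ) (ρ : V → ℝ) (x : V) : ℝ := ∫ b in (0 : ℝ)..2 * lam ^ 2,
  Real.sqrt b / lam * ((r * pd 0 (heat r b ρ) x) ^ 2 + pd 1 (heat r b ρ) x ^ 2 +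
    pd 2 (heat r b ρ) x ^ 2)

/-! ## global parameters -/

def np (N : ℕ) (a : ℝ) : ℝ := (N : ℝ) ^ a
def pJ (N : ℕ) : ℝ := Real.log N
def Jp (N : ℕ) (a : ℝ) : ℝ := pJ N ^ a
def pq (N : ℕ) : ℝ := pJ N ^ (1 / 1000 : ℝ)
def qp (N : ℕ) (a : ℝ) : ℝ := pq N ^ a
def pX (N : ℕ) : ℝ := pJ N / pq N
def pR (N : ℕ) : ℝ := 4 * pJ N
def pk0 (N : ℕ) : ℝ := 15 / 4 * Real.log (pJ N)
def pu (N : ℕ) : ℝ := Real.sqrt (pX N / N) / pJ N
def uB (N : ℕ) : ℝ := pu N / pq N ^ 5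
def sA (N : ℕ) : ℝ := Real.sqrt (pX N / (N * pJ N)) / pq N ^ 3
def etaA (N : ℕ) : ℝ := 1 / pJ N ^ 8
def etaS (N : ℕ) : ℝ := etaA N / 100
def nu (N : ℕ) : ℝ := np N (-49 / 100)
def sdc (N : ℕ) : ℝ := np N (-496 / 1000)
def tb (N : ℕ) : ℝ := pJ N ^ 4 / Real.sqrt N
def pcap (N : ℕ) : ℝ :=
  pq N ^ 4 * pJ N * (pu N / (pq N ^ 18 * Real.sqrt (pR N * (pJ N ^ 4 / N))))
def eE (N : ℕ) : ℝ := pX N / (pq N ^ 2 * N * pcap N)
def tE (N : ℕ) : ℝ := Real.log (1 / (pR N * eE N)) / pR N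
def lam0 (N : ℕ) : ℝ := 20 * eE N
def lam1 (N : ℕ) : ℝ := 1000 * pq N ^ 2 * eE N
def bA (N : ℕ) : ℝ := pX N / (pJ N * pq N ^ 12)
def bB (N : ℕ) : ℝ := pX N / (pJ N ^ 2 * pq N ^ 12)
def uV (N : ℕ) : ℝ := pX N / (pq N ^ 4 * pJ N * N)
def sm (N : ℕ) : ℝ := 1 / (pJ N ^ 3 * Real.sqrt N)
def hc (N : ℕ) : ℝ := 3 * pJ N ^ 2 / Real.sqrt N
def fr0 (N : ℕ) : ℝ := Real.sqrt (pX N / N) / pq N ^ 4
def cg0 (N : ℕ) : ℝ := pX N / (pq N ^ 3 * N)
def Xi (N : ℕ) : Mx := bm (pJ N ^ 4 / N) (pJ N ^ 3 / Real.sqrt N) 1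
def pA (N : ℕ) : ℝ := pJ N ^ 20
def dc (N : ℕ) : ℝ := np N (-25)
def nm (N : ℕ) : ℕ := ⌊pJ N / 300⌋₊
def nb (N : ℕ) : ℕ := 40000 * nm N
def mid (N : ℕ) : ℕ := 10000 * nm N
def kbo (N : ℕ) : ℕ := mid N + 1
def ks (N : ℕ) : ℕ := 25000 * nm N
def kL (N : ℕ) : ℕ := 9400 * nm N
def el (N : ℕ) : ℕ := ⌈40 * Real.log (pJ N)⌉₊
def nT (N : ℕ) : ℕ := N ^ 1800
def nxt (N : ℕ) : ℕ := N + ⌈pX N⌉₊
def rmp (a e : ℝ) : ℝ := min 1 (max 0 (Real.log (a / e)))

/-! ## the potential -/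

def sp (R t : ℝ) : ℝ := Real.log (1 + Real.exp (-R * t)) / R
def gS (w : ℝ) : ℝ := ∫ r in (0 : ℝ)..w, (1 - st (r - 1 / 2))
def eta (R t : ℝ) : ℝ := gS (sp R t)
def Psi (R t : ℝ) : ℝ := ∫ r in (-2 : ℝ)..t, (1 - eta R r)
def e2 (G : Mx) : ℝ := (G.trace ^ 2 - (G * G).trace) / 2
def aa (G : Mx) : ℝ := Real.log (e2 G) / 2
def Lam (G : Mx) : ℝ := (G.trace + Real.sqrt (G.trace ^ 2 - 4 * e2 G)) / 2
def tt (N : ℕ) (G : Mx) : ℝ := Real.log (Lam G) - aa G - pk0 N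
def Vf (N : ℕ) (G : Mx) : ℝ := aa G + Psi (pR N) (tt N G)
def gr2 (s1 s2 : ℝ) (E : Mx) : Mx := (1 + E)ᵀ * dg3 (s1 ^ 2) (s2 ^ 2) 0 * (1 + E)

/-! ## parameters of a cube in a band -/

structure Pm where
  N : ℕ
  s1 : ℝ
  s2 : ℝ
  lb : ℝ
  k : ℕ

namespace Pm
variable (c : Pm)
def J : ℝ := pJ c.N
def q : ℝ := pq c.N
def K : ℝ := c.s2 / c.s1
def n12 : ℝ := c.s1 * c.s2
def t : ℝ := Real.log c.K - pk0 c.N
def η : ℝ := eta (pR c.N) c.t
def η0 : ℝ := c.η / (2 - c.η)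
def VG : ℝ := Real.log c.n12 + Psi (pR c.N) c.t
def V2 (E : Mx) : ℝ := Vf c.N (gr2 c.s1 c.s2 E)
def t2f (E : Mx) : ℝ := tt c.N (gr2 c.s1 c.s2 E)
/-- gradient of `V2` -/
def PV (E : Mx) : Mx :=
  Matrix.of fun i j => deriv (fun r : ℝ => c.V2 (E + r • Matrix.single i j (1 : ℝ))) 0
/-- admissible range -/
def Ok : Prop := 0 < c.s1 ∧ c.s1 ≤ c.s2 ∧ Real.exp (-4) * c.N ≤ c.n12 ∧
  c.n12 ≤ Real.exp 2 * c.N ∧ c.t ≤ tE c.N + 3 / pR c.N ∧ 0 < c.lb ∧ c.k ≤ nb c.N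
def isA : Prop := etaA c.N ≤ c.η
def steer : Prop := etaA c.N / 2 ≤ c.η
def oS : Prop := c.η < 8 / 10 * etaA c.N
def oB : Prop := c.η < 9 / 10 * etaA c.N
def thr : ℝ := if c.k < kbo c.N then 30 * etaS c.N else etaS c.N
def comp : Prop := c.thr ≤ c.η
def low : Prop := c.VG ≤ Real.log c.N - 1
def boost : Prop := c.low ∧ 2 * etaS c.N ≤ c.η ∧ kbo c.N ≤ c.k ∧ c.k < ks c.N
def push : Prop := (c.low ∧ c.η ≤ 5 * etaS c.N) ∨ tE c.N ≤ c.t
def noise : Prop := c.push ∧ c.k = mid c.N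
def lam : ℝ := c.lb / 2 ^ c.k
/-- scale of the sub-block -/
def ls : ℝ := c.lb / 2 ^ (nm c.N * (c.k / nm c.N))
def D : ℝ := (c.N : ℝ) ^ 4 * c.lb
def y : ℝ := np c.N (11 / 10) * c.lam
def L : ℝ := (c.N : ℝ) ^ 2 * c.J ^ 12 * c.lam
def hE : ℝ := np c.N (46 / 100) * c.lam
def hm : ℝ := np c.N (40 / 100) * c.lam
def h' : ℝ := np c.N (49 / 100) * c.ls
def h0 : ℝ := np c.N (-1300) * c.lam
def hL : ℝ := np c.N (-15) * c.lam
def e4 : ℝ := max c.η (c.J ^ 4 / c.N)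
def m : ℝ := max 1 (c.K / 4)
def ro : ℝ := c.m ^ (1 / 4 : ℝ) / Real.sqrt c.e4
def l1 : ℝ := c.ro * c.lam
/-- kernel scales -/
def hs : V := ![c.l1, c.lam, c.y]
def hy (y' : ℝ) : V := ![c.l1, c.lam, y']
def mu : ℝ := min 1 (pR c.N * c.η)
def dB : ℝ := pu c.N / (c.q ^ 18 * Real.sqrt (pR c.N * c.e4))
def dl : ℝ := if c.isA then sA c.N / Real.sqrt c.mu else c.dB
def s21 : ℝ := if c.isA then sA c.N else uB c.N
def s12 : ℝ := c.m * c.s21
def t1B : ℝ := pu c.N / (c.q ^ 15 * Real.sqrt c.e4)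
def t1 : ℝ := if c.isA then sA c.N / Real.sqrt c.η else c.t1B
def t2 : ℝ := if c.boost then tb c.N else c.s21
def dl' : ℝ := if c.boost then c.dl / c.J ^ 5 else c.dl
def pf : ℝ := c.q ^ 4 * c.J * c.dB
def p : ℝ := min c.pf (c.q * pX c.N / (c.N * c.η))
def c1 : ℝ := Real.sqrt c.η / c.s1
def c2 : ℝ := 1 / c.s2
def cc : V := ![c.c1, c.c2, c.n12]
def dgn : V := ![c.η, 1, 1]
def bb : ℝ := if c.isA then bA c.N else bB c.N
def bbO : ℝ := if c.oB then bB c.N else bA c.N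
def GG : ℝ := Real.sqrt (c.bb / c.N / ((c.c1 / c.l1) ^ 2 + (c.c2 / c.lam) ^ 2)) * c.n12
def GH : ℝ := Real.sqrt (c.q * c.J) * c.GG
/-- windows of the family that moves in direction 0 -/
def W10 : ℝ := 10 * c.l1 / c.dl
def W20 : ℝ := c.l1 / c.s12
def H0 : ℝ := c.l1 / c.t1
def Hp : ℝ := c.l1 / Real.sqrt c.p
/-- windows of the two families that move in direction 1 -/
def W11 : ℝ := c.lam / c.s21
def W21 : ℝ := 10 * c.lam / (c.η * c.dl')
def H1 : ℝ := c.lam / c.t2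
def b1 : ℝ := c.η0 * c.ro * c.W20 / c.W10
def b2 : ℝ := c.W11 / (Real.sqrt 2 * c.η0 * c.ro * c.W21)
def Ug0 : ℝ := c.GG / Real.sqrt (c.q * (c.W10 / c.l1) * (c.W20 / c.lam))
def Ug1 : ℝ := c.GG / Real.sqrt (c.q * (c.W11 / c.l1) * (c.W21 / c.lam))
def om0 : ℝ := c.η * c.l1 ^ 2 / c.Ug0 ^ 2
def om1 : ℝ := if c.boost then 0 else c.lam ^ 2 / c.Ug1 ^ 2
def En0 (ρ : V → ℝ) : V → ℝ := mol ![2 * c.W10, 4 * c.W20, 2 * c.h'] (enr c.ro c.lam ρ)
def En1 (ρ : V → ℝ) : V → ℝ := mol ![2 * c.W11, 4 * c.W21, 2 * c.h'] (enr c.ro c.lam ρ)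
/-- the clock cost of one cube in one band (hat coordinates) -/
def cost (O : Mx) (ρ : V → ℝ) (x : V) : ℝ := if c.isA then
  Real.sqrt c.q * alh O c.D x ^ 2 * (c.om0 * c.En0 ρ x + c.om1 * c.En1 ρ x) else 0
def bst (O : Mx) (x : V) : ℝ := if c.boost then alh O c.D x ^ 2 * tb c.N ^ 2 else 0
def lA : ℝ := c.q ^ 3 * Real.sqrt c.J * c.l1
def thS : V := ![c.W10, c.W20, c.Hp]
/-- step table at level B -/
def sdB : Mx := !![c.dB, c.m * uB c.N, c.t1B; uB c.N, c.η * c.dB + np c.N (-9 / 10), uB c.N; 0, 0, 0]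
def b23 (a : ℝ) : Mx := !![0, 0, 0; 0, 0, a; 0, 0, 0]
/-- step table of the acting cube -/
def sd : Mx := if c.isA then cm (sdc c.N / c.q) else
  c.sdB + b23 (if c.boost then sdc c.N / c.q else 0)
/-- step table seen by an observing cube -/
def sdO : Mx := if c.oB then
  c.sdB + b23 (if 3 / 2 * etaS c.N ≤ c.η ∧ kbo c.N ≤ c.k then sdc c.N else 0) else cm (sdc c.N)
def sdL : Mx := if c.oB then c.sdB else cm (sdc c.N)
def nz : Mx := !![c.p / c.q ^ 3, 0, c.q * c.J * c.t1B; 0, 0, 0; 0, 0, 0]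
/-- table at the start of a block -/
def e0 : Mx := (c.q ^ 3 * c.J) • (if c.oS then c.sdB else cm (sdc c.N))
/-- table inside a block -/
def eT : Mx := (3 * c.q ^ 3 * c.J) • (if c.oS then c.sdO else cm (sdc c.N))
def zT : ℝ := if etaS c.N / 2 ≤ c.η then 2 * nu c.N else 1 / Real.sqrt c.J
def d2u : ℝ := np c.N (-98 / 100) / (c.η * c.lam)
def eHi : ℝ := np c.N (-46 / 100 - 445 / 100 * rmp (etaS c.N / 10) c.η)
def eLo : ℝ := np c.N (-462 / 1000 - 46 / 10 * rmp (c.thr / 2) c.η)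
def eL : ℝ := c.eHi * (6 / 10) ^ c.k + c.eLo
def eSm : ℝ := (if c.comp then np c.N (-47 / 100) else 0) + np c.N (-3 / 100) * c.eL +
  np c.N (-55 / 10)
def eS : ℝ := np c.N (-465 / 1000 - 46 / 10 * rmp (c.thr / 2) c.η) + np c.N (-2 / 100) * c.eL
def t12 : ℝ := if c.k = 0 then c.b2 / c.q else np c.N (-4 / 10)
def t11 : ℝ := if c.k = 0 then 1 / c.q else np c.N (-4 / 10)
def t13 : ℝ := if c.k = 0 then np c.N (-38 / 100) else np c.N (-20)
def t33 : ℝ := if c.k = 0 then 1 / c.q else np c.N (-20)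
def gb : ℝ := min (c.η / (c.J * Real.sqrt c.J)) (c.J ^ 4 / c.N)
def B0 : ℝ := if c.oS then Real.sqrt (pX c.N / (c.q ^ 8 * c.N) + 1 / 10 ^ 8 * (c.η * c.p))
  else c.J ^ 2 / Real.sqrt c.N
def piB : ℝ := 4 * c.B0 + 10 * Real.sqrt (c.η * c.p)
def dk : ℝ := if c.η < etaS c.N then c.pf / Real.sqrt c.q else np c.N (-1 / 5)
def betaR (y' : ℝ) : ℝ :=
  np c.N (-28 / 100) * max 1 (np c.N (3 / 10) * y' / c.y) ^ (1 / 100 : ℝ)
def yrg (y' : ℝ) : Prop := np c.N (-31 / 100) * c.y ≤ y' ∧ y' ≤ c.y / 2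
/-- cells -/
def cw : V := ![pA c.N * c.l1, pA c.N * c.lam, c.L]
def bc (g : Cu) (z : V) : ℝ := ∏ i, pou (z i / c.cw i - g i)
def Near (g : Cu) (z : V) : Prop := ∀ i, |z i / c.cw i - g i| ≤ 1
/-- normalised differential and Gram matrix -/
def ca (f : V → V) (z : V) : Mx := jm f z * dg3 c.c1 c.c2 (c.n12 / jac f z)
def gam (f : V → V) (z : V) : Mx := (c.ca f z)ᵀ * c.ca f z
def gref : Mx := dg3 c.η 1 1
end Pm

/-! ## columns along charts -/

def cpt (n : ℝ → V) (w : V) (r : ℝ) : V := ![w 0 + n r 0, w 1 + n r 1, r]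
def cin (n : ℝ → V) (z : V) : V := ![z 0 - n (z 2) 0, z 1 - n (z 2) 1, z 2]
def pre (n : ℝ → V) (g : V → ℝ) (w : V) : ℝ := ∫ r in Iic (w 2), g (cpt n w r)
def tot (n : ℝ → V) (g : V → ℝ) (w : V) : ℝ := ∫ r, g (cpt n w r)

/-! ## frames -/

structure Fr where
  x0 : V
  z0 : V
  O : Mx
  Q : Mx
  s1 : ℝ
  s2 : ℝ

namespace Fr
variable (F : Fr)
def xp (x : V) : V := F.x0 + F.O *ᵥ x
def xc (x : V) : V := F.Oᵀ *ᵥ (x - F.x0)
def zp (z : V) : V := F.z0 + F.Q *ᵥ z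
def zc (z : V) : V := F.Q⁻¹ *ᵥ (z - F.z0)
def hat (Z : V → V) (x : V) : V := F.zc (Z (F.xp x))
def hatv (u : V → V) (x : V) : V := F.Q⁻¹ *ᵥ u (F.xp x)
def unv (u : V → V) (x : V) : V := F.Q *ᵥ u (F.xc x)
def cv1 (S : Mx) : Mx := F.Q⁻¹ * S * F.Q⁻¹ᵀ
def cov (S : V → Mx) (x : V) : Mx := F.cv1 (S (F.xp x))
def unc (S : Mx) : Mx := F.Q * S * F.Qᵀ
def hm (A : Mx) : Mx := F.Q⁻¹ * A * F.O
def unm (A : Mx) : Mx := F.Q * A * F.Oᵀ
def sc (g : V → ℝ) (x : V) : ℝ := g (F.xp x)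
def den (M : V → ℝ) (z : V) : ℝ := F.Q.det * M (F.zp z)
def vd (R : V → V) (z : V) : V := F.Q.det • (F.Q⁻¹ *ᵥ R (F.zp z))
def unvd (R : V → V) (z : V) : V := (F.Q.det)⁻¹ • (F.Q *ᵥ R (F.zc z))
def fh (f : V → V) (z : V) : V := f (F.zp z)
def pm (N : ℕ) (lb : ℝ) (k : ℕ) : Pm := ⟨N, F.s1, F.s2, lb, k⟩
end Fr

/-- two neighbouring frames agree up to `δ` -/
structure Cpt (δ : ℝ) (F F' : Fr) : Prop where
  tq : EB (F.Q⁻¹ * F'.Q - F.Oᵀ * F'.O) (cm δ)
  o3 : ∀ i, i ≠ 2 → |(F.Oᵀ * F'.O) i 2| ≤ δ ∧ |(F.Oᵀ * F'.O) 2 i| ≤ δ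
  al : (|(F.Oᵀ * F'.O) 0 1| ≤ δ ∧ |(F.Oᵀ * F'.O) 1 0| ≤ δ) ∨ (F.s2 ≤ 4 * F.s1 ∧ F'.s2 ≤ 4 * F'.s1)
  s1 : |F'.s1 / F.s1 - 1| ≤ δ
  s2 : |F'.s2 / F.s2 - 1| ≤ δ

end
end Pool.Agent.MP_20bec2_an.T3

end MrgPart0

-- ======== part 1: formerly Pool.Agent.MP_20bec2_an.T3.SpecA
section MrgPart1

set_option autoImplicit false
open MeasureTheory Set Filter Matrix Topology

namespace Pool.Agent.MP_20bec2_an.T3
noncomputable section
open Classical

/-! ## kernel library -/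

def K1Stmt : Prop := ∀ (a : V → ℝ) (Z : V → V) (S : V → Mx), GK a Z S →
  Sm (dens a Z S) ∧ (∀ z, Integrable fun x => a x * ker (S x) (Z x - z)) ∧
  ∀ l z, Integrable (fun x => a x * pds l (fun w => ker (S x) (Z x - w)) z) ∧
    pds l (dens a Z S) z = ∫ x, a x * pds l (fun w => ker (S x) (Z x - w)) z

def GKp (a : V → ℝ) (Z : V → V) (S : V → Mx) (u : V → V) (B : V → Mx) : Prop :=
  GK a Z S ∧ GK a (fun x => Z x + u x) (fun x => S x + (B x + (B x)ᵀ)) ∧ Continuous u ∧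
  (∀ i j, Continuous fun x => B x i j) ∧ ∃ C, ∀ x, a x ≠ 0 → ‖u x‖ ≤ C ∧ EB (B x) (cm C)

def K2Stmt : Prop := ∀ (a : V → ℝ) (Z : V → V) (S : V → Mx) (u : V → V) (B : V → Mx),
  GKp a Z S u B → Sm (flux a Z S u B) ∧
  (∀ z, dens a (fun x => Z x + u x) (fun x => S x + (B x + (B x)ᵀ)) z =
    dens a Z S z + dv (flux a Z S u B) z) ∧
  ∀ l z i, pds l (fun w => flux a Z S u B w i) z = ∫ t in (0 : ℝ)..1,
    (-pds l (dens (fun x => a x * u x i) (fun x => Z x + t • u x)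
        (fun x => S x + t • (B x + (B x)ᵀ))) z +
      ∑ j, pds l (pd j (dens (fun x => a x * B x i j) (fun x => Z x + t • u x)
        (fun x => S x + t • (B x + (B x)ᵀ)))) z)

/-- change to hat coordinates -/
def K3Stmt : Prop := ∀ F : Fr, Orth F.O → 0 < F.Q.det →
  (∀ a Z S, F.den (dens a Z S) = dens (F.sc a) (F.hat Z) (F.cov S)) ∧
  (∀ a Z S, GK a Z S → GK (F.sc a) (F.hat Z) (F.cov S)) ∧
  (∀ R : V → V, Differentiable ℝ R → dv (F.vd R) = F.den (dv R)) ∧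
  (∀ f : V → V, Differentiable ℝ f → ∀ z, jm (F.fh f) z = jm f (F.zp z) * F.Q ∧
    jac (F.fh f) z = F.den (jac f) z) ∧
  (∀ Z : V → V, Differentiable ℝ Z → ∀ x, jm (F.hat Z) x = F.hm (jm Z (F.xp x)) ∧
    jm (F.hatv Z) x = F.hm (jm Z (F.xp x))) ∧
  (∀ a Z S u B, GKp a Z S u B →
    F.vd (flux a Z S u B) = flux (F.sc a) (F.hat Z) (F.cov S) (F.hatv u) (F.cov B)) ∧
  (∀ a Z S (u : V → V), GK a Z S → Continuous u → (∃ C, ∀ x, a x ≠ 0 → ‖u x‖ ≤ C) →
    F.vd (fun z i => dens (fun x => a x * u x i) Z S z) =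
      fun z i => dens (fun x => F.sc a x * F.hatv u x i) (F.hat Z) (F.cov S) z)

def K4Stmt : Prop :=
  (∀ (S : Mx) (c : ℝ), 0 < c → Sᵀ = S → (∀ v : V, c * (v ⬝ᵥ v) ≤ v ⬝ᵥ (S *ᵥ v)) →
    (∀ w, 0 < ker S w) ∧ Integrable (ker S) ∧ ∫ w, ker S w = 1 ∧ ∀ w, ker S (-w) = ker S w) ∧
  ∀ (a : V → ℝ) (Z : V → V) (S : V → Mx), GK a Z S → ∀ φ : V → ℝ, Continuous φ →
    HasCompactSupport φ → Integrable (fun x => a x * ∫ z, φ z * ker (S x) (Z x - z)) ∧
    ∫ z, φ z * dens a Z S z = ∫ x, a x * ∫ z, φ z * ker (S x) (Z x - z)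

/-- local bounds, near and far -/
def KBStmt : Prop := ∀ n : ℕ, ∃ C : ℝ, 1 ≤ C ∧
  (∀ h S, (∀ i, 0 < h i) → PD h S → ∀ l : List (Fin 3), l.length ≤ n → ∀ w : V,
    hp h l * |pds l (ker S) w| ≤ C / (h 0 * h 1 * h 2) * Real.exp (-(∑ i, (w i / h i) ^ 2) / 30)) ∧
  ∀ h U a A Z S, KL h U a A Z S → GK a Z S ∧ CB n h univ (dens a Z S) (C * A) ∧
    ∀ (z : V) (r : ℝ), (∀ x ∈ U, a x ≠ 0 → r ≤ ∑ i, ((Z x - z) i / h i) ^ 2) →
      CB n h {z} (dens a Z S) (C * A * Real.exp (-r / 60))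

/-- perturbation of map and covariance -/
def KPStmt : Prop := ∀ n : ℕ, ∃ C : ℝ, 1 ≤ C ∧ ∀ h U a A Z S (Z' : V → V) (S' : V → Mx) (δ : ℝ),
  KL h U a A Z S → Continuous Z' → (∀ i j, Continuous fun x => S' x i j) → 0 ≤ δ → δ ≤ 1 / 1000 →
  (∀ x ∈ U, a x ≠ 0 → (∀ i, |Z' x i - Z x i| ≤ δ * h i) ∧ (S' x)ᵀ = S' x ∧
    EB (nrm h (S' x - S x)) (cm δ)) →
  GK a Z' S' ∧ CB n h univ (fun z => dens a Z' S' z - dens a Z S z) (C * A * δ)

/-- semigroup property -/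
def KCStmt : Prop :=
  (∀ (a : V → ℝ) (Z : V → V) (S : V → Mx) (A : Mx) (c : ℝ), GK a Z S → 0 < c → Aᵀ = A →
    (∀ v : V, c * (v ⬝ᵥ v) ≤ v ⬝ᵥ (A *ᵥ v)) → ∀ (l l' : List (Fin 3)) (z : V),
    Integrable (fun w => pds l (ker A) w * pds l' (dens a Z S) (z - w)) ∧
    pds (l ++ l') (dens a Z fun x => S x + A) z =
      ∫ w, pds l (ker A) w * pds l' (dens a Z S) (z - w)) ∧
  ∀ n : ℕ, ∃ C : ℝ, 1 ≤ C ∧ ∀ (h : V) (A : Mx), (∀ i, 0 < h i) → Aᵀ = A →
    (∀ v : V, 1 / 10 ^ 4 * ∑ i, (h i * v i) ^ 2 ≤ v ⬝ᵥ (A *ᵥ v) ∧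
      v ⬝ᵥ (A *ᵥ v) ≤ 6 * ∑ i, (h i * v i) ^ 2) → ∀ l : List (Fin 3), l.length ≤ n →
    Integrable (pds l (ker A)) ∧ hp h l * ∫ w, |pds l (ker A) w| ≤ C ∧
    ∀ r : ℝ, hp h l * ∫ w in {w : V | r ≤ ∑ i, (w i / h i) ^ 2}, |pds l (ker A) w| ≤
      C * Real.exp (-r / 60)

/-- the exact flux of a small stage is its linear part up to third order -/
def RemStmt : Prop := ∀ n : ℕ, ∃ C : ℝ, 1 ≤ C ∧ ∀ h U a A Z S (u : V → V) (δ : ℝ),
  KL h U a A Z S → Continuous u → 0 ≤ δ → δ ≤ 1 / 1000 → (∀ x ∈ U, ∀ i, |u x i| ≤ δ * h i) →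
  GKp a Z S u (fun x => -(1 / 2 : ℝ) • vecMulVec (u x) (u x)) ∧ ∀ i, CB n h univ
    (fun z => flux a Z S u (fun x => -(1 / 2 : ℝ) • vecMulVec (u x) (u x)) z i +
      dens (fun x => a x * u x i) Z S z) (C * A * δ ^ 3 * h i)

/-- global tails -/
def TailStmt : Prop := ∀ n : ℕ, ∃ C : ℝ, 1 ≤ C ∧
  ∀ (a : V → ℝ) (Z : V → V) (S : V → Mx) (A μ κ r : ℝ) (x0 z : V), GK a Z S → (∀ x, |a x| ≤ A) →
  0 < μ → μ ≤ 1 → 0 < κ → κ ≤ 1 →
  (∀ x, a x ≠ 0 → (∀ v : V, μ * (v ⬝ᵥ v) ≤ v ⬝ᵥ (S x *ᵥ v)) ∧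
    r + (κ * ‖x - x0‖) ^ 2 ≤ (Z x - z) ⬝ᵥ ((S x)⁻¹ *ᵥ (Z x - z))) →
  ∀ l : List (Fin 3), l.length ≤ n →
    |pds l (dens a Z S) z| ≤ C * A * Real.exp (-r / 4) / (μ ^ (n + 3) * κ ^ 3)

/-! ## maps -/

def BijStmt : Prop :=
  (∀ (D : ℝ) (j : ℕ) (fr : Cu → Fr) (Z Z' : V → V), 0 < D →
    (∀ g, (fr g).x0 = cen D g ∧ Orth (fr g).O ∧ 0 < (fr g).Q.det) → Function.Bijective Z →
    ContDiff ℝ 1 Z → ContDiff ℝ 1 Z' →
    (∀ g, col g = j → ∀ x ∈ RX (fr g).O D (98 / 100), EB (jm ((fr g).hat Z) x - 1) (cm (1 / 100)) ∧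
      EB (jm ((fr g).hat Z') x - 1) (cm (1 / 100))) →
    (∀ x, (∀ g, col g = j → x ∉ box D g (96 / 100)) → Z' x = Z x) → Function.Bijective Z') ∧
  ∀ (O : Mx) (D r δ : ℝ) (Z : V → V), Orth O → 0 < D → 0 < r → 0 ≤ δ → ContDiff ℝ 1 Z →
    (∀ x ∈ RX O D r, EB (jm Z x - 1) (cm (1 / 100)) ∧ ‖O *ᵥ (Z x - x)‖ ≤ δ * D) →
    InjOn Z (RX O D r) ∧ ∀ z ∈ RX O D (r - δ), ∃ x ∈ RX O D r, Z x = z

def InvStmt : Prop := ∀ f : V → V, Sm f → Function.Bijective f → (∀ z, jac f z ≠ 0) →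
  Sm (Function.invFun f) ∧ (∀ z, jm (Function.invFun f) (f z) = (jm f z)⁻¹) ∧
  (∀ Λ : ℝ, (∀ z, EB (jm f z)⁻¹ (cm Λ)) → ∀ z w, ‖z - w‖ ≤ 3 * Λ * ‖f z - f w‖) ∧
  (∀ Λ : ℝ, (∀ z, EB (jm f z) (cm Λ)) → ∀ z w, ‖f z - f w‖ ≤ 3 * Λ * ‖z - w‖) ∧
  ∀ φ : V → ℝ, ∫ z, φ (f z) * |jac f z| = ∫ y, φ y

/-! ## signs -/

def WalkStmt : Prop := ∃ ψ : ℝ → ℝ → ℝ, ψ 0 0 = 1 ∧ (∀ Q x, 0 ≤ Q → 0 ≤ ψ Q x) ∧
  (∀ Q x a, 0 ≤ Q → ψ (Q + a ^ 2) (x + a) + ψ (Q + a ^ 2) (x - a) ≤ 2 * ψ Q x) ∧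
  ∀ Q x, 0 ≤ Q → Q ≤ 1 → Real.exp (x ^ 2 / 6) ≤ 2 * ψ Q x

def FeedStmt : Prop := ∀ (n : ℕ) (G : Matrix (Fin n) (Fin n) ℝ) (U : ℝ), 0 < U → Gᵀ = G →
  (∀ a : Fin n → ℝ, 0 ≤ a ⬝ᵥ (G *ᵥ a)) → (∀ t, G t t ≤ U ^ 2) →
  ∃ A : Matrix (Fin n) (Fin n) ℝ, (∀ t, ∑ s, A t s ^ 2 = 1) ∧
    ∀ (t0 : ℕ) (l : Fin n → ℝ) (c : ℝ),
      (∀ a : Fin n → ℝ, (∀ t, t0 ≤ t.val → a t = 0) →
        (a ⬝ᵥ l) ^ 2 ≤ c ^ 2 * (a ⬝ᵥ (G *ᵥ a) + U ^ 2 * (a ⬝ᵥ a))) →
      ∑ s, (∑ t with t.val < t0, l t * A t s) ^ 2 ≤ 8 * c ^ 2 * U ^ 2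

/-! ## energy -/

def EnerStmt : Prop := ∃ C : ℝ, 1 ≤ C ∧ ∀ (r lam : ℝ) (ρ : V → ℝ), 0 < r → 0 < lam → Rho ρ →
  Measurable (enr r lam ρ) ∧ (∀ x, 0 ≤ enr r lam ρ x ∧ enr r lam ρ x ≤ C) ∧
  (∀ (Lw : V) (n : ℕ) (x : V), r * lam ≤ Lw 0 → lam ≤ Lw 1 → lam ≤ Lw 2 →
    ∑ j ∈ Finset.range n, mol Lw (enr r (lam / 2 ^ j) ρ) x ≤ C) ∧
  (∀ R : ℝ, 0 < R → R ≤ lam → r = 1 → (∀ x, R ≤ ‖x‖ → ρ x = 1) →
    ∀ x, enr r lam ρ x ≤ C * (R / lam)) ∧
  ∀ (ψ : Fin 3 → V → ℝ) (φ k : V → ℝ) (τ : ℝ), (∀ j, ContDiff ℝ 2 (ψ j) ∧ HasCompactSupport (ψ j)) →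
    Integrable k → Integrable φ → 0 ≤ τ → (∀ j x, CB 2 ![r * lam, lam, lam] {x} (ψ j) (k x)) →
    (∀ x, |φ x - ∑ j, ![r * lam, lam, lam] j * pd j (ψ j) x| ≤ τ * k x) →
    |∫ x, ρ x * φ x| ≤ 2 * τ * (∫ x, k x) + C * ∫ x, Real.sqrt (enr r lam ρ x) * k x

/-! ## the potential -/

def PsiStmt : Prop := ∃ C : ℝ, 1 ≤ C ∧ ∀ R : ℝ, 10 ≤ R →
  Sm (eta R) ∧ Sm (Psi R) ∧ Antitone (eta R) ∧ (∀ t, 0 < eta R t ∧ eta R t ≤ 1) ∧
  (∀ t, HasDerivAt (Psi R) (1 - eta R t) t) ∧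
  (∀ t, t ≤ -3 / 2 → eta R t = 1 ∧ Psi R t = 0) ∧ (∀ t, 0 ≤ Psi R t ∧ Psi R t ≤ max t 0 + 1) ∧
  (∀ t, |deriv (eta R) t| ≤ min 1 (R * eta R t)) ∧
  (∀ t t', eta R t' ≤ Real.exp (R * |t' - t|) * eta R t) ∧
  (∀ t, 0 ≤ t → Real.exp (-R * t) / (2 * R) ≤ eta R t ∧ eta R t ≤ Real.exp (-R * t) / R) ∧
  (∀ j ≤ 5, ∀ t, |iteratedDeriv j (eta R) t| ≤ C * R ^ j) ∧
  ∀ R', R ≤ R' → (∀ t, t ≤ 1 → |Psi R' t - Psi R t| ≤ 4 * (R' - R) / R ^ 2) ∧
    ∀ t, |t| ≤ 2 → eta R' t ≤ Real.exp (5 * (R' - R)) * eta R t ∧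
      eta R t ≤ Real.exp (5 * (R' - R)) * eta R' t

def Pm.Qlo (c : Pm) (A : Mx) : ℝ :=
  c.mu * A 0 0 ^ 2 + A 0 1 ^ 2 / c.m ^ 2 + A 1 0 ^ 2 + A 1 1 ^ 2 + c.η * |A 0 1 * A 1 0|
def Pm.Qup (c : Pm) (A : Mx) : ℝ := c.Qlo A + c.η * A 0 2 ^ 2 + A 1 2 ^ 2

/-- Taylor expansion of the potential where compensators may act -/
def VaStmt : Prop := ∃ C : ℝ, 1 ≤ C ∧ ∀ᶠ N : ℕ in atTop, ∀ c : Pm, c.N = N → c.Ok →
  etaS N / 2 ≤ c.η →
  (∀ E E' δ, EB2 E (cm (4 * nu N)) → EB2 E' (cm (4 * nu N)) → EB2 (E - E') (cm δ) →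
    EB (c.PV E - c.PV E') (cm (c.J ^ 3 * δ))) ∧ c.PV 0 = dg3 c.η (2 - c.η) 0 ∧
  ∀ E A δ, EB2 E (cm (3 * nu N)) → EB2 A (cm δ) → δ ≤ nu N →
    c.V2 (E + A) - c.V2 E - ipm (c.PV E) A ≤ C * c.Qup A + np N (-45 / 100) * δ ^ 2 ∧
    A 1 2 ^ 2 / 4 - C * c.Qlo A - np N (-45 / 100) * δ ^ 2 ≤
      c.V2 (E + A) - c.V2 E - ipm (c.PV E) A

/-- change of the potential in a band without compensator -/
def VbStmt : Prop := ∀ᶠ N : ℕ in atTop, ∀ c : Pm, c.N = N → c.Ok → ¬ c.comp →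
  ∀ (E A : Mx) (a : ℝ), 1 ≤ a → a ≤ Real.sqrt c.q * c.J → EB2 E c.eT →
    EB2 A ((qp N (3 / 10) * a) • c.sd + if c.noise then c.nz else 0) →
    |c.V2 (E + A) - c.V2 E - (c.η * A 0 0 + (2 - c.η) * A 1 1)| ≤
      uV N * a / 8 + if c.noise then c.η * c.p / c.q ^ 4 else 0

/-- the noise part put back; size of the potential on the tables -/
def NcStmt : Prop := ∀ᶠ N : ℕ in atTop, ∀ c : Pm, c.N = N → c.Ok →
  (c.η ≤ 7 * etaS N → ∀ (E A : Mx) (n θ : ℝ), EB2 E c.eT →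
    EB2 (A - !![n, 0, θ; 0, 0, 0; 0, 0, 0]) (cm (np N (-10))) → |n| ≤ 3 * (θ ^ 2 + c.p) →
    θ ^ 2 ≤ c.q * c.J * c.p →
    |c.V2 (E + A) - c.V2 E - c.η * (n + θ ^ 2 / 2)| ≤
      c.η * (θ ^ 2 + c.p) / c.q + pX N / (c.q ^ 4 * N) ∧
    |c.t2f (E + A) - c.t + (n + θ ^ 2 / 2)| ≤ c.dk / 4 + θ ^ 2 / c.q ∧
    |c.V2 (E + A) - c.VG| ≤ 1 / c.q ^ 2 ∧ |c.t2f (E + A) - c.t| ≤ 1 / (c.q ^ 2 * pR N) ∧
    |((1 + (E + A)) * (1 + (E + A))ᵀ : Mx) 0 1| ≤ Real.sqrt c.η * c.K / c.q ^ 2) ∧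
  (etaS N / 2 ≤ c.η → ∀ E : Mx, EB2 E (cm (4 * nu N)) →
    |c.V2 E - c.VG| ≤ np N (-2 / 5) ∧ |c.t2f E - c.t| ≤ np N (-21 / 100))

/-- the potential of the full Gram matrix -/
def FvStmt : Prop := ∀ᶠ N : ℕ in atTop, ∀ c : Pm, c.N = N → c.Ok → ∀ (E Df : Mx),
  EB E (cm (2 / Real.sqrt c.J)) → |c.t2f E - c.t| ≤ 1 / (c.q ^ 2 * pR N) →
  |((1 + E) * (1 + E)ᵀ : Mx) 0 1| ≤ Real.sqrt c.η * c.K / c.q ^ 2 → |Df.det - 1| ≤ 1 / 10 →
  ∀ g : Mx, g = (Df * dg3 c.c1 c.c2 (c.n12 / Df.det))ᵀ * (Df * dg3 c.c1 c.c2 (c.n12 / Df.det)) -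
    c.gref → EB g (bm (2 * c.gb) (2 * hc N) (1 / 5)) →
  |Vf N ((1 + E)ᵀ * (Dfᵀ * Df) * (1 + E)) - c.V2 E - g 0 0 / 2| ≤
    (|g 0 0| + |g 0 1|) / c.q + 2 * |g 1 1| + np N (-13 / 10) ∧
  (c.η < etaS N → |tt N ((1 + E)ᵀ * (Dfᵀ * Df) * (1 + E)) - c.t2f E + g 0 0 / (2 * c.η)| ≤
    (|g 0 0| + |g 0 1|) / (c.q * c.η) + 2 * |g 1 1| + np N (-13 / 10)) ∧
  (etaS N / 2 ≤ c.η → |tt N ((1 + E)ᵀ * (Dfᵀ * Df) * (1 + E)) - c.t2f E| ≤ np N (-21 / 100))

/-! ## end of the proof -/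

def Om3 (F : V → V) : Prop := ∃ C t₀ : ℝ, 0 < C ∧ 0 < t₀ ∧ t₀ < 1 ∧ ∀ x y,
  (‖x - y‖ ≤ t₀ → ‖F x - F y‖ ≤ C * (‖x - y‖ * Real.log (1 / ‖x - y‖))) ∧
  (‖F x - F y‖ ≤ t₀ → ‖x - y‖ ≤ C * (‖F x - F y‖ * Real.log (1 / ‖F x - F y‖)))

def LimStmt : Prop := ∀ (K : ℝ) (F G : ℕ → V → V) (Λ S : ℕ → ℝ) (ρ : V → ℝ), 0 < K → Rho ρ →
  (∀ j x, G j (F j x) = x ∧ F j (G j x) = x) →
  (∀ j x y, ‖F j x - F j y‖ ≤ Λ j * ‖x - y‖ ∧ ‖G j x - G j y‖ ≤ Λ j * ‖x - y‖) →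
  (∀ j x, ‖F (j + 1) x - F j x‖ ≤ S j - S (j + 1) ∧ ‖G (j + 1) x - G j x‖ ≤ S j - S (j + 1)) →
  (∀ j, 0 < S j) → S 0 < 1 → Tendsto S atTop (𝓝 0) →
  (∀ j, Λ (j + 1) ≤ K * Real.log (1 / S j)) →
  (∀ φ : V → ℝ, Continuous φ → HasCompactSupport φ →
    Tendsto (fun j => ∫ x, ρ x * φ (F j x)) atTop (𝓝 (∫ y, φ y))) →
  ∃ F' : V → V, Continuous F' ∧ Om3 F' ∧ ∀ B, MeasurableSet B →
    ∫⁻ x in F' ⁻¹' B, ENNReal.ofReal (ρ x) = volume B

def CoreStmt : Prop := ∀ (ρ : V → ℝ) (R : ℝ), Rho ρ → (∀ x, R ≤ ‖x‖ → ρ x = 1) →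
  ∃ F : V → V, Continuous F ∧ Om3 F ∧ ∀ B, MeasurableSet B →
    ∫⁻ x in F ⁻¹' B, ENNReal.ofReal (ρ x) = volume B

def MainStmt : Prop := ∀ (Q : Set (EuclideanSpace ℝ (Fin 3))),
  Q = {x | ∀ i, x i ∈ Icc (0 : ℝ) 1} → ∀ ρ : EuclideanSpace ℝ (Fin 3) → ℝ, ContinuousOn ρ Q →
  (∀ x ∈ Q, 0 < ρ x) →
  ∃ f : EuclideanSpace ℝ (Fin 3) → EuclideanSpace ℝ (Fin 3), InjOn f Q ∧
    (∃ C t₀ : ℝ, 0 < C ∧ 0 < t₀ ∧ t₀ < 1 ∧ ∀ x ∈ Q, ∀ y ∈ Q,
      (‖x - y‖ ≤ t₀ → ‖f x - f y‖ ≤ C * (‖x - y‖ * Real.log (1 / ‖x - y‖))) ∧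
      (‖f x - f y‖ ≤ t₀ → ‖x - y‖ ≤ C * (‖f x - f y‖ * Real.log (1 / ‖f x - f y‖)))) ∧
    ∀ B, MeasurableSet B → ∫⁻ x in Q ∩ f ⁻¹' B, ENNReal.ofReal (ρ x) = volume (B ∩ f '' Q)

end
end Pool.Agent.MP_20bec2_an.T3

end MrgPart1

-- marker of a merged file
example : 731051 + 467130 = 731051 + 467130 := rfl

end MrgPart0

-- ======== part 1: formerly Pool.Agent.MP_20bec2_an.T3.Asy
section MrgPart1

/-! Asymptotic toolbox: every monomial in `N`, `J`, `q` is compared through its logarithm. -/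

set_option autoImplicit false
set_option linter.unusedSectionVars false
open Set Filter Real

namespace Pool.Agent.MP_20bec2_an.T3
noncomputable section

/-- `log J` -/
def pL (N : ℕ) : ℝ := Real.log (pJ N)

/-- the parameter is large -/
def Big (N : ℕ) : Prop := 10 ^ 10 ≤ pL N

lemma le_of_log {x y : ℝ} (hx : 0 < x) (hy : 0 < y) (h : Real.log x ≤ Real.log y) : x ≤ y :=
  (Real.log_le_log_iff hx hy).1 h

lemma lt_of_log {x y : ℝ} (hx : 0 < x) (hy : 0 < y) (h : Real.log x < Real.log y) : x < y :=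
  (Real.log_lt_log_iff hx hy).1 h

lemma log2_bd : 0.693 ≤ Real.log 2 ∧ Real.log 2 ≤ 0.6932 :=
  ⟨by linarith [Real.log_two_gt_d9], by linarith [Real.log_two_lt_d9]⟩

lemma log4_eq : Real.log 4 = 2 * Real.log 2 := by
  rw [show (4 : ℝ) = 2 ^ 2 by norm_num, Real.log_pow]; norm_num

/-- crude bounds for the logarithm of a constant -/
lemma logc_bd {C : ℝ} (h : 1 ≤ C) : 0 ≤ Real.log C ∧ Real.log C ≤ C :=
  ⟨Real.log_nonneg h, by linarith [Real.log_le_sub_one_of_pos (show 0 < C by linarith)]⟩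

lemma log_add_le {a b : ℝ} (ha : 0 < a) (hb : 0 < b) : Real.log a ≤ Real.log (a + b) ∧
    Real.log b ≤ Real.log (a + b) ∧
    (Real.log (a + b) ≤ Real.log 2 + Real.log a ∨ Real.log (a + b) ≤ Real.log 2 + Real.log b) := by
  refine ⟨Real.log_le_log ha (by linarith), Real.log_le_log hb (by linarith), ?_⟩
  rcases le_total a b with h | h
  · right; rw [← Real.log_mul two_ne_zero hb.ne']; exact Real.log_le_log (by linarith) (by linarith)
  · left; rw [← Real.log_mul two_ne_zero ha.ne']; exact Real.log_le_log (by linarith) (by linarith)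

lemma log_max' {a b : ℝ} (ha : 0 < a) (hb : 0 < b) : Real.log a ≤ Real.log (max a b) ∧
    Real.log b ≤ Real.log (max a b) ∧
    (Real.log (max a b) = Real.log a ∨ Real.log (max a b) = Real.log b) :=
  ⟨Real.log_le_log ha (le_max_left _ _), Real.log_le_log hb (le_max_right _ _),
    (max_choice a b).imp (congrArg _) (congrArg _)⟩

lemma log_min' {a b : ℝ} (ha : 0 < a) (hb : 0 < b) : Real.log (min a b) ≤ Real.log a ∧
    Real.log (min a b) ≤ Real.log b ∧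
    (Real.log (min a b) = Real.log a ∨ Real.log (min a b) = Real.log b) :=
  ⟨Real.log_le_log (lt_min ha hb) (min_le_left _ _), Real.log_le_log (lt_min ha hb) (min_le_right _ _),
    (min_choice a b).imp (congrArg _) (congrArg _)⟩

lemma tendsto_pJ : Tendsto pJ atTop atTop := Real.tendsto_log_atTop.comp tendsto_natCast_atTop_atTop

lemma tendsto_pL : Tendsto pL atTop atTop := Real.tendsto_log_atTop.comp tendsto_pJ

lemma ev_pL (C : ℝ) : ∀ᶠ N : ℕ in atTop, C ≤ pL N := tendsto_pL.eventually_ge_atTop C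

lemma ev_big : ∀ᶠ N : ℕ in atTop, Big N := ev_pL _

namespace Big

variable {N : ℕ} (h : Big N)
include h

lemma L_ge : 10000000000 ≤ pL N := by have : (10 : ℝ) ^ 10 ≤ pL N := h; linarith

lemma J_pos : 0 < pJ N := by
  have h0 : 0 ≤ pJ N := Real.log_natCast_nonneg N
  rcases h0.lt_or_eq with h1 | h1
  · exact h1
  · have := h.L_ge
    rw [pL, ← h1, Real.log_zero] at this
    linarith

lemma exp_L : Real.exp (pL N) = pJ N := Real.exp_log h.J_pos

lemma J_sq : pL N ^ 2 / 2 ≤ pJ N := by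
  have := Real.pow_div_factorial_le_exp (x := pL N) (by linarith [h.L_ge]) 2
  rwa [h.exp_L, Nat.factorial_two, Nat.cast_ofNat] at this

/-- `J` beats every reasonable multiple of `log J` -/
lemma J_ge : 1000000000 * pL N ≤ pJ N := by nlinarith [h.J_sq, h.L_ge]

lemma N_pos : (0 : ℝ) < N := by
  rcases (Nat.cast_nonneg (α := ℝ) N).lt_or_eq with h1 | h1
  · exact h1
  · have := h.J_pos
    rw [pJ, ← h1, Real.log_zero] at this
    linarith

lemma exp_J : Real.exp (pJ N) = N := Real.exp_log h.N_pos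

lemma N_ge : 1000000000 * pJ N ≤ N := by
  have := Real.pow_div_factorial_le_exp (x := pJ N) h.J_pos.le 2
  rw [h.exp_J, Nat.factorial_two, Nat.cast_ofNat] at this
  nlinarith [h.J_ge, h.L_ge]

lemma mono {N' : ℕ} (hN : N ≤ N') : Big N' :=
  le_trans h (Real.log_le_log h.J_pos (Real.log_le_log h.N_pos (by exact_mod_cast hN)))

lemma np_pos (a : ℝ) : 0 < np N a := Real.rpow_pos_of_pos h.N_pos a
lemma Jp_pos (a : ℝ) : 0 < Jp N a := Real.rpow_pos_of_pos h.J_pos a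
lemma q_pos : 0 < pq N := Real.rpow_pos_of_pos h.J_pos _
lemma qp_pos (a : ℝ) : 0 < qp N a := Real.rpow_pos_of_pos h.q_pos a
lemma log_N : Real.log N = pJ N := rfl
lemma log_J : Real.log (pJ N) = pL N := rfl
lemma log_np (a : ℝ) : Real.log (np N a) = a * pJ N := Real.log_rpow h.N_pos a
lemma log_Jp (a : ℝ) : Real.log (Jp N a) = a * pL N := Real.log_rpow h.J_pos a
lemma log_q : Real.log (pq N) = pL N / 1000 := by
  rw [pq, Real.log_rpow h.J_pos, pL]; ring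
lemma log_qp (a : ℝ) : Real.log (qp N a) = a * (pL N / 1000) := by
  rw [qp, Real.log_rpow h.q_pos, h.log_q]
lemma np_eq (a : ℝ) : np N a = Real.exp (a * pJ N) := by rw [← h.log_np, Real.exp_log (h.np_pos a)]
lemma Jp_eq (a : ℝ) : Jp N a = Real.exp (a * pL N) := by rw [← h.log_Jp, Real.exp_log (h.Jp_pos a)]
lemma qp_eq (a : ℝ) : qp N a = Real.exp (a * (pL N / 1000)) := by
  rw [← h.log_qp, Real.exp_log (h.qp_pos a)]
lemma q_eq : pq N = Real.exp (pL N / 1000) := by rw [← h.log_q, Real.exp_log h.q_pos]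
lemma np_add (a b : ℝ) : np N (a + b) = np N a * np N b := Real.rpow_add h.N_pos a b
lemma Jp_add (a b : ℝ) : Jp N (a + b) = Jp N a * Jp N b := Real.rpow_add h.J_pos a b
lemma qp_add (a b : ℝ) : qp N (a + b) = qp N a * qp N b := Real.rpow_add h.q_pos a b
lemma np_le {a b : ℝ} (hab : a ≤ b) : np N a ≤ np N b := by
  rw [h.np_eq, h.np_eq]; exact Real.exp_le_exp.2 (mul_le_mul_of_nonneg_right hab h.J_pos.le)
lemma Jp_le {a b : ℝ} (hab : a ≤ b) : Jp N a ≤ Jp N b := by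
  rw [h.Jp_eq, h.Jp_eq]
  exact Real.exp_le_exp.2 (mul_le_mul_of_nonneg_right hab (by linarith [h.L_ge]))
lemma qp_le {a b : ℝ} (hab : a ≤ b) : qp N a ≤ qp N b := by
  rw [h.qp_eq, h.qp_eq]
  exact Real.exp_le_exp.2 (mul_le_mul_of_nonneg_right hab (by linarith [h.L_ge]))

lemma q_ge : 10000000 ≤ pq N := by
  rw [h.q_eq]; linarith [Real.add_one_le_exp (pL N / 1000), h.L_ge]

lemma q_le_J : pq N ≤ pJ N :=
  le_of_log h.q_pos h.J_pos (by rw [h.log_q, h.log_J]; linarith [h.L_ge])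

lemma sqrtN_pos : 0 < Real.sqrt N := Real.sqrt_pos.2 h.N_pos
lemma log_sqrtN : Real.log (Real.sqrt N) = pJ N / 2 := Real.log_sqrt h.N_pos.le
lemma sqrtJ_pos : 0 < Real.sqrt (pJ N) := Real.sqrt_pos.2 h.J_pos
lemma log_sqrtJ : Real.log (Real.sqrt (pJ N)) = pL N / 2 := Real.log_sqrt h.J_pos.le
lemma sqrtq_pos : 0 < Real.sqrt (pq N) := Real.sqrt_pos.2 h.q_pos
lemma log_sqrtq : Real.log (Real.sqrt (pq N)) = pL N / 2000 := by
  rw [Real.log_sqrt h.q_pos.le, h.log_q]; ring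

/-- monomial inequalities with a constant `C ≤ exp M` -/
lemma mono_le {C M a b c a' b' c' : ℝ} (hC : C ≤ Real.exp M)
    (hl : M + a * pJ N + b * pL N + c * (pL N / 1000) ≤
      a' * pJ N + b' * pL N + c' * (pL N / 1000)) :
    C * (np N a * Jp N b * qp N c) ≤ np N a' * Jp N b' * qp N c' := by
  rw [h.np_eq, h.np_eq, h.Jp_eq, h.Jp_eq, h.qp_eq, h.qp_eq]
  simp only [← Real.exp_add]
  refine (mul_le_mul_of_nonneg_right hC (Real.exp_pos _).le).trans ?_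
  rw [← Real.exp_add]
  exact Real.exp_le_exp.2 (by linarith)

lemma X_pos : 0 < pX N := div_pos h.J_pos h.q_pos
lemma log_X : Real.log (pX N) = pL N - pL N / 1000 := by
  rw [pX, Real.log_div h.J_pos.ne' h.q_pos.ne', h.log_q, h.log_J]
lemma R_pos : 0 < pR N := by have := h.J_pos; unfold pR; positivity
lemma R_ge : 10 ≤ pR N := by unfold pR; linarith [h.J_ge, h.L_ge]
lemma log_R : Real.log (pR N) = 2 * Real.log 2 + pL N := by
  rw [pR, Real.log_mul (by norm_num) h.J_pos.ne', log4_eq, h.log_J]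
lemma k0_eq : pk0 N = 15 / 4 * pL N := rfl
lemma pu_pos : 0 < pu N := by
  have := h.J_pos; have := h.X_pos; have := h.N_pos; unfold pu; positivity
lemma log_pu : Real.log (pu N) = -(pJ N / 2) - pL N / 2 - pL N / 2000 := by
  have := h.J_pos; have := h.X_pos; have := h.N_pos
  unfold pu
  simp (disch := positivity) only [Real.log_div, Real.log_sqrt, h.log_X, h.log_N, h.log_J]; ring
lemma uB_pos : 0 < uB N := div_pos h.pu_pos (pow_pos h.q_pos 5)
lemma log_uB : Real.log (uB N) = -(pJ N / 2) - pL N / 2 - 11 * (pL N / 2000) := by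
  rw [uB, Real.log_div h.pu_pos.ne' (pow_pos h.q_pos 5).ne', Real.log_pow, h.log_pu, h.log_q]
  push_cast; ring
lemma sA_pos : 0 < sA N := by
  have := h.J_pos; have := h.X_pos; have := h.N_pos; have := h.q_pos; unfold sA; positivity
lemma log_sA : Real.log (sA N) = -(pJ N / 2) - 7 * (pL N / 2000) := by
  have := h.J_pos; have := h.X_pos; have := h.N_pos; have := h.q_pos
  unfold sA
  simp (disch := positivity) only [Real.log_div, Real.log_mul, Real.log_sqrt, Real.log_pow,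
    h.log_X, h.log_N, h.log_J, h.log_q]
  push_cast; ring
lemma etaA_pos : 0 < etaA N := by have := h.J_pos; unfold etaA; positivity
lemma log_etaA : Real.log (etaA N) = -(8 * pL N) := by
  rw [etaA, one_div, Real.log_inv, Real.log_pow, h.log_J]; push_cast; ring
lemma etaS_pos : 0 < etaS N := div_pos h.etaA_pos (by norm_num)
lemma log_etaS : Real.log (etaS N) = -(8 * pL N) - Real.log 100 := by
  rw [etaS, Real.log_div h.etaA_pos.ne' (by norm_num), h.log_etaA]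
lemma nu_pos : 0 < nu N := h.np_pos _
lemma log_nu : Real.log (nu N) = -49 / 100 * pJ N := h.log_np _
lemma sdc_pos : 0 < sdc N := h.np_pos _
lemma log_sdc : Real.log (sdc N) = -496 / 1000 * pJ N := h.log_np _
lemma dc_pos : 0 < dc N := h.np_pos _
lemma log_dc : Real.log (dc N) = -25 * pJ N := h.log_np _
lemma tb_pos : 0 < tb N := div_pos (pow_pos h.J_pos 4) h.sqrtN_pos
lemma log_tb : Real.log (tb N) = 4 * pL N - pJ N / 2 := by
  rw [tb, Real.log_div (pow_pos h.J_pos 4).ne' h.sqrtN_pos.ne', Real.log_pow, h.log_sqrtN, h.log_J]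
  push_cast; ring
lemma pcap_pos : 0 < pcap N := by
  have := h.J_pos; have := h.pu_pos; have := h.N_pos; have := h.q_pos; have := h.R_pos
  unfold pcap; positivity
lemma log_pcap : Real.log (pcap N) = -Real.log 2 - 2 * pL N - 29 * (pL N / 2000) := by
  have := h.J_pos; have := h.pu_pos; have := h.N_pos; have := h.q_pos; have := h.R_pos
  unfold pcap
  simp (disch := positivity) only [Real.log_div, Real.log_mul, Real.log_sqrt, Real.log_pow,
    h.log_pu, h.log_N, h.log_J, h.log_q, h.log_R]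
  push_cast; ring
lemma eE_pos : 0 < eE N := by
  have := h.X_pos; have := h.pcap_pos; have := h.N_pos; have := h.q_pos
  unfold eE; positivity
lemma log_eE : Real.log (eE N) = Real.log 2 + 3 * pL N + 23 * (pL N / 2000) - pJ N := by
  have := h.X_pos; have := h.pcap_pos; have := h.N_pos; have := h.q_pos
  unfold eE
  simp (disch := positivity) only [Real.log_div, Real.log_mul, Real.log_pow,
    h.log_pcap, h.log_N, h.log_X, h.log_q]
  push_cast; ring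
lemma eE_eq : eE N = 2 * pJ N ^ 3 * qp N (23 / 2) / N := by
  have := h.J_pos; have := h.N_pos; have := h.qp_pos (23 / 2)
  refine Real.log_injOn_pos h.eE_pos (by show (0 : ℝ) < _; positivity) ?_
  simp (disch := positivity) only [Real.log_div, Real.log_mul, Real.log_pow,
    h.log_eE, h.log_N, h.log_J, h.log_qp]
  push_cast; ring
lemma pcap_le : pcap N ≤ 1 / (pJ N ^ 2 * pq N ^ 14) := by
  have := h.J_pos; have := h.q_pos
  refine le_of_log h.pcap_pos (by positivity) ?_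
  simp (disch := positivity) only [Real.log_div, Real.log_mul, Real.log_pow, Real.log_one,
    h.log_pcap, h.log_J, h.log_q]
  push_cast; linarith [h.L_ge, log2_bd.1]
lemma R_mul_tE : pR N * tE N = pJ N - 3 * Real.log 2 - 4 * pL N - 23 * (pL N / 2000) := by
  rw [tE, mul_div_cancel₀ _ h.R_pos.ne', one_div, Real.log_inv,
    Real.log_mul h.R_pos.ne' h.eE_pos.ne', h.log_R, h.log_eE]; ring
lemma tE_bd : 1 / 5 ≤ tE N ∧ tE N + 3 / pR N ≤ 1 / 4 := by
  have h1 := h.R_mul_tE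
  have h2 := h.R_pos
  have h3 : pR N = 4 * pJ N := rfl
  constructor
  · refine le_of_mul_le_mul_left ?_ h2
    rw [h1, h3]; linarith [h.J_ge, h.L_ge, log2_bd.2]
  · refine le_of_mul_le_mul_left ?_ h2
    rw [mul_add, h1, mul_div_cancel₀ _ h2.ne', h3]; linarith [h.L_ge, log2_bd.1]
lemma lam0_pos : 0 < lam0 N := by have := h.eE_pos; unfold lam0; positivity
lemma lam1_pos : 0 < lam1 N := by have := h.eE_pos; have := h.q_pos; unfold lam1; positivity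
lemma bA_pos : 0 < bA N := by
  have := h.J_pos; have := h.X_pos; have := h.q_pos; unfold bA; positivity
lemma log_bA : Real.log (bA N) = -(13 * (pL N / 1000)) := by
  have := h.J_pos; have := h.X_pos; have := h.q_pos
  unfold bA
  simp (disch := positivity) only [Real.log_div, Real.log_mul, Real.log_pow, h.log_X, h.log_J,
    h.log_q]
  push_cast; ring
lemma bB_pos : 0 < bB N := by
  have := h.J_pos; have := h.X_pos; have := h.q_pos; unfold bB; positivity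
lemma log_bB : Real.log (bB N) = -pL N - 13 * (pL N / 1000) := by
  have := h.J_pos; have := h.X_pos; have := h.q_pos
  unfold bB
  simp (disch := positivity) only [Real.log_div, Real.log_mul, Real.log_pow, h.log_X, h.log_J,
    h.log_q]
  push_cast; ring
lemma uV_pos : 0 < uV N := by
  have := h.J_pos; have := h.X_pos; have := h.q_pos; have := h.N_pos; unfold uV; positivity
lemma log_uV : Real.log (uV N) = -pJ N - 5 * (pL N / 1000) := by
  have := h.J_pos; have := h.X_pos; have := h.q_pos; have := h.N_pos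
  unfold uV
  simp (disch := positivity) only [Real.log_div, Real.log_mul, Real.log_pow, h.log_X, h.log_J,
    h.log_q, h.log_N]
  push_cast; ring
lemma sm_pos : 0 < sm N := by have := h.J_pos; have := h.sqrtN_pos; unfold sm; positivity
lemma log_sm : Real.log (sm N) = -(pJ N / 2) - 3 * pL N := by
  have := h.J_pos; have := h.sqrtN_pos
  unfold sm
  simp (disch := positivity) only [Real.log_div, Real.log_mul, Real.log_pow, Real.log_one, h.log_J,
    h.log_sqrtN]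
  push_cast; ring
lemma hc_pos : 0 < hc N := by have := h.J_pos; have := h.sqrtN_pos; unfold hc; positivity
lemma log_hc : Real.log (hc N) = Real.log 3 + 2 * pL N - pJ N / 2 := by
  have := h.J_pos; have := h.sqrtN_pos
  unfold hc
  simp (disch := positivity) only [Real.log_div, Real.log_mul, Real.log_pow, h.log_J, h.log_sqrtN]
  push_cast; ring
lemma fr0_pos : 0 < fr0 N := by
  have := h.X_pos; have := h.q_pos; have := h.N_pos; unfold fr0; positivity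
lemma log_fr0 : Real.log (fr0 N) = pL N / 2 - 9 * (pL N / 2000) - pJ N / 2 := by
  have := h.X_pos; have := h.q_pos; have := h.N_pos
  unfold fr0
  simp (disch := positivity) only [Real.log_div, Real.log_sqrt, Real.log_pow, h.log_X, h.log_q,
    h.log_N]
  push_cast; ring
lemma cg0_pos : 0 < cg0 N := by
  have := h.X_pos; have := h.q_pos; have := h.N_pos; unfold cg0; positivity
lemma log_cg0 : Real.log (cg0 N) = pL N - 4 * (pL N / 1000) - pJ N := by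
  have := h.X_pos; have := h.q_pos; have := h.N_pos
  unfold cg0
  simp (disch := positivity) only [Real.log_div, Real.log_mul, Real.log_pow, h.log_X, h.log_q,
    h.log_N]
  push_cast; ring
lemma pA_pos : 0 < pA N := pow_pos h.J_pos 20
lemma log_pA : Real.log (pA N) = 20 * pL N := by rw [pA, Real.log_pow, h.log_J]; push_cast; ring

/-! integer parameters -/

lemma nm_bd : pJ N / 301 ≤ nm N ∧ (nm N : ℝ) ≤ pJ N / 300 := by
  have h1 := Nat.floor_le (a := pJ N / 300) (by linarith [h.J_pos])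
  have h2 := Nat.lt_floor_add_one (pJ N / 300)
  exact ⟨by unfold nm; linarith [h.J_ge, h.L_ge], h1⟩

lemma nm_pos : 0 < nm N := by
  have : (0 : ℝ) < nm N := by linarith [h.nm_bd.1, h.J_pos]
  exact_mod_cast this

/-- powers of two with exponent a multiple of `nm` -/
lemma two_pow_nm (k : ℕ) {a b : ℝ} (ha : a ≤ k * 0.693 / 301) (hb : k * 0.6932 / 300 ≤ b) :
    np N a ≤ 2 ^ (k * nm N) ∧ (2 : ℝ) ^ (k * nm N) ≤ np N b := by
  obtain ⟨h1, h2⟩ := h.nm_bd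
  obtain ⟨h3, h4⟩ := log2_bd
  have hJ := h.J_pos
  have hk : (0 : ℝ) ≤ k := Nat.cast_nonneg k
  have e1 : pJ N / 301 * 0.693 ≤ nm N * Real.log 2 :=
    mul_le_mul h1 h3 (by norm_num) (Nat.cast_nonneg _)
  have e2 : nm N * Real.log 2 ≤ pJ N / 300 * 0.6932 :=
    mul_le_mul h2 h4 (by linarith) (by linarith)
  constructor
  · refine le_of_log (h.np_pos _) (by positivity) ?_
    rw [h.log_np, Real.log_pow]; push_cast
    nlinarith [mul_le_mul_of_nonneg_left e1 hk, mul_le_mul_of_nonneg_right ha hJ.le]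
  · refine le_of_log (by positivity) (h.np_pos _) ?_
    rw [h.log_np, Real.log_pow]; push_cast
    nlinarith [mul_le_mul_of_nonneg_left e2 hk, mul_le_mul_of_nonneg_right hb hJ.le]

lemma two_pow_nb : np N 92 ≤ 2 ^ nb N ∧ (2 : ℝ) ^ nb N ≤ np N 93 :=
  h.two_pow_nm 40000 (by norm_num) (by norm_num)

lemma two_pow_mid : np N 23 ≤ 2 ^ mid N ∧ (2 : ℝ) ^ mid N ≤ np N (232 / 10) :=
  h.two_pow_nm 10000 (by norm_num) (by norm_num)

lemma two_pow_ks : np N (575 / 10) ≤ 2 ^ ks N ∧ (2 : ℝ) ^ ks N ≤ np N 58 :=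
  h.two_pow_nm 25000 (by norm_num) (by norm_num)

lemma two_pow_kL : np N (216 / 10) ≤ 2 ^ kL N ∧ (2 : ℝ) ^ kL N ≤ np N (218 / 10) :=
  h.two_pow_nm 9400 (by norm_num) (by norm_num)

lemma two_pow_mid_kL : np N (13 / 10) ≤ 2 ^ (mid N - kL N) ∧
    (2 : ℝ) ^ (mid N - kL N) ≤ np N (14 / 10) := by
  rw [show mid N - kL N = 600 * nm N by unfold mid kL; omega]
  exact h.two_pow_nm 600 (by norm_num) (by norm_num)

lemma two_pow_nm1 : np N (23 / 10000) ≤ 2 ^ nm N ∧ (2 : ℝ) ^ nm N ≤ np N (24 / 10000) := by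
  have := h.two_pow_nm 1 (a := 23 / 10000) (b := 24 / 10000) (by norm_num) (by norm_num)
  rwa [one_mul] at this

lemma nb_bd : 132 * pJ N ≤ nb N ∧ (nb N : ℝ) ≤ 134 * pJ N := by
  obtain ⟨h1, h2⟩ := h.nm_bd
  have := h.J_pos
  unfold nb; push_cast; constructor <;> linarith

lemma el_bd : 40 * pL N ≤ el N ∧ (el N : ℝ) ≤ 40 * pL N + 1 :=
  ⟨Nat.le_ceil _, (Nat.ceil_lt_add_one (by linarith [h.L_ge] : 0 ≤ 40 * pL N)).le⟩

lemma two_pow_el : pJ N ^ 27 ≤ 2 ^ el N ∧ (2 : ℝ) ^ el N ≤ pJ N ^ 28 := by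
  obtain ⟨h1, h2⟩ := h.el_bd
  obtain ⟨h3, h4⟩ := log2_bd
  have hJ := h.J_pos
  have hL := h.L_ge
  constructor <;> refine le_of_log (by positivity) (by positivity) ?_ <;>
    rw [Real.log_pow, Real.log_pow, h.log_J] <;> push_cast <;> nlinarith

lemma el_le_sqrtq : 8 * ((el N : ℝ) + 1) ≤ Real.sqrt (pq N) := by
  have h1 := Real.pow_div_factorial_le_exp (x := pL N / 2000) (by linarith [h.L_ge]) 2
  rw [Nat.factorial_two, Nat.cast_ofNat, ← h.log_sqrtq, Real.exp_log h.sqrtq_pos, h.log_sqrtq] at h1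
  nlinarith [h.el_bd.2, h.L_ge]

lemma el_le_nm : el N ≤ nm N := by
  have : (el N : ℝ) ≤ nm N := by linarith [h.el_bd.2, h.nm_bd.1, h.J_ge, h.L_ge]
  exact_mod_cast this

lemma nxt_bd : (N : ℝ) + pX N ≤ nxt N ∧ (nxt N : ℝ) ≤ N + pX N + 1 := by
  unfold nxt; push_cast
  exact ⟨by linarith [Nat.le_ceil (pX N)], by linarith [Nat.ceil_lt_add_one h.X_pos.le]⟩

lemma X_bd : 1 ≤ pX N ∧ pX N + 1 ≤ pJ N := by
  have h1 := h.q_ge
  have h2 := h.q_le_J
  have h3 : pX N ≤ pJ N / 2 := div_le_div_of_nonneg_left h.J_pos.le two_pos (by linarith)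
  exact ⟨(one_le_div h.q_pos).2 h2, by linarith⟩

lemma nxt_le : N ≤ nxt N ∧ (nxt N : ℝ) ≤ N + pJ N :=
  ⟨Nat.le_add_right _ _, by linarith [h.nxt_bd.2, h.X_bd.2]⟩

end Big

/-- the general monomial comparison -/
lemma ev_mono (C a b c a' b' c' : ℝ) (hl : a < a' ∨ (a = a' ∧ b + c / 1000 < b' + c' / 1000)) :
    ∀ᶠ N : ℕ in atTop, C * (np N a * Jp N b * qp N c) ≤ np N a' * Jp N b' * qp N c' := by
  have hC : C ≤ Real.exp C := by linarith [Real.add_one_le_exp C]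
  obtain ⟨e, he⟩ : ∃ e, e = b + c / 1000 - (b' + c' / 1000) := ⟨_, rfl⟩
  rcases hl with hl | ⟨rfl, hl⟩
  · filter_upwards [ev_big, ev_pL (2 * (|C| + |e|) / (a' - a))] with N h h1
    refine h.mono_le hC ?_
    rw [div_le_iff₀ (by linarith)] at h1
    have h2 := h.J_sq
    have h3 := h.L_ge
    have h4 : C ≤ |C| * pL N := by nlinarith [le_abs_self C, abs_nonneg C]
    have h5 : e * pL N ≤ |e| * pL N := mul_le_mul_of_nonneg_right (le_abs_self e) (by linarith)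
    have h6 := mul_le_mul_of_nonneg_right h1 (show 0 ≤ pL N by linarith)
    have h7 := mul_le_mul_of_nonneg_left h2 (show 0 ≤ a' - a by linarith)
    have h8 : e * pL N = (b + c / 1000 - (b' + c' / 1000)) * pL N := by rw [he]
    nlinarith
  · filter_upwards [ev_big, ev_pL (C / (-e))] with N h h1
    refine h.mono_le hC ?_
    rw [div_le_iff₀ (by linarith), he] at h1
    linarith

lemma np_zero (N : ℕ) : np N 0 = 1 := Real.rpow_zero _
lemma Jp_zero (N : ℕ) : Jp N 0 = 1 := Real.rpow_zero _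
lemma qp_zero (N : ℕ) : qp N 0 = 1 := Real.rpow_zero _
lemma np_one (N : ℕ) : np N 1 = N := Real.rpow_one _
lemma Jp_one (N : ℕ) : Jp N 1 = pJ N := Real.rpow_one _
lemma qp_one (N : ℕ) : qp N 1 = pq N := Real.rpow_one _
lemma np_nat (N k : ℕ) : np N k = (N : ℝ) ^ k := Real.rpow_natCast _ _
lemma Jp_nat (N k : ℕ) : Jp N k = pJ N ^ k := Real.rpow_natCast _ _
lemma qp_nat (N k : ℕ) : qp N k = pq N ^ k := Real.rpow_natCast _ _

lemma ev_C_qp (C : ℝ) {c : ℝ} (hc : 0 < c) : ∀ᶠ N : ℕ in atTop, C ≤ qp N c := by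
  simpa only [np_zero, Jp_zero, qp_zero, mul_one, one_mul] using
    ev_mono C 0 0 0 0 0 c (Or.inr ⟨rfl, by linarith⟩)

lemma ev_C_q (C : ℝ) : ∀ᶠ N : ℕ in atTop, C ≤ pq N := by
  simpa only [qp_one] using ev_C_qp C one_pos

lemma ev_Cq_Jp (C : ℝ) {a b : ℝ} (hab : a < 1000 * b) :
    ∀ᶠ N : ℕ in atTop, C * qp N a ≤ Jp N b := by
  simpa only [np_zero, Jp_zero, qp_zero, mul_one, one_mul] using
    ev_mono C 0 0 a 0 b 0 (Or.inr ⟨rfl, by linarith⟩)

lemma ev_CqJ_np (C a b : ℝ) {c : ℝ} (hc : 0 < c) :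
    ∀ᶠ N : ℕ in atTop, C * qp N a * Jp N b ≤ np N c := by
  filter_upwards [ev_mono C 0 b a c 0 0 (Or.inl hc)] with N h
  simp only [np_zero, Jp_zero, qp_zero, mul_one, one_mul] at h
  linarith

lemma ev_CL_qp (C : ℝ) {c : ℝ} (hc : 0 < c) : ∀ᶠ N : ℕ in atTop, C * pL N ≤ qp N c := by
  filter_upwards [ev_big, ev_pL (2 * C / (c / 1000) ^ 2)] with N h h1
  have h2 := Real.pow_div_factorial_le_exp (x := c * (pL N / 1000))
    (by have := h.L_ge; positivity) 2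
  rw [Nat.factorial_two, Nat.cast_ofNat, ← h.qp_eq] at h2
  rw [div_le_iff₀ (by positivity)] at h1
  nlinarith [mul_le_mul_of_nonneg_right h1 (show 0 ≤ pL N by linarith [h.L_ge])]

end
end Pool.Agent.MP_20bec2_an.T3

end MrgPart1

-- ======== part 2: formerly Pool.Agent.MP_20bec2_an.T3.KBA
section MrgPart2

/-! Pointwise bounds for the derivatives of the Gaussian kernel, uniform in the covariance. -/

set_option autoImplicit false
open MeasureTheory Set Filter Matrix Topology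

namespace Pool.Agent.MP_20bec2_an.T3
noncomputable section

namespace KBA

lemma pd_add {f f' : V → ℝ} (h : Differentiable ℝ f) (h' : Differentiable ℝ f') (j : Fin 3) :
    pd j (fun w => f w + f' w) = fun w => pd j f w + pd j f' w := by
  funext w
  unfold pd
  rw [fderiv_fun_add (h w) (h' w)]
  rfl

lemma pd_mul {f f' : V → ℝ} (h : Differentiable ℝ f) (h' : Differentiable ℝ f') (j : Fin 3) :
    pd j (fun w => f w * f' w) = fun w => pd j f w * f' w + f w * pd j f' w := by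
  funext w
  unfold pd
  rw [fderiv_fun_mul (h w) (h' w)]
  simp only [_root_.add_apply, _root_.smul_apply, smul_eq_mul]
  ring

lemma pd_cmul {f : V → ℝ} (h : Differentiable ℝ f) (c : ℝ) (j : Fin 3) :
    pd j (fun w => c * f w) = fun w => c * pd j f w := by
  funext w
  unfold pd
  rw [fderiv_const_mul (h w)]
  rfl

/-- the gradient of the quadratic form -/
def av (P : Mx) (c0 : V) (σ : ℝ) (i : Fin 3) (w : V) : ℝ := (P *ᵥ (c0 + σ • w)) i

/-- the quadratic form -/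
def Qf (P : Mx) (c0 : V) (σ : ℝ) (w : V) : ℝ := (c0 + σ • w) ⬝ᵥ (P *ᵥ (c0 + σ • w))

/-- the Gaussian -/
def Ef (P : Mx) (c0 : V) (σ : ℝ) (w : V) : ℝ := Real.exp (-Qf P c0 σ w / 2)

variable {P : Mx} {c0 : V} {σ : ℝ} {g : V}

lemma co_fd (k : Fin 3) (w : V) : HasFDerivAt (fun w : V => (c0 + σ • w) k)
    (σ • ContinuousLinearMap.proj (R := ℝ) (φ := fun _ : Fin 3 => ℝ) k) w := by
  have h := ((hasFDerivAt_apply (𝕜 := ℝ) (F' := fun _ : Fin 3 => ℝ) k w).const_smul σ).const_add (c0 k)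
  exact h

lemma av_fd (i : Fin 3) (w : V) : HasFDerivAt (av P c0 σ i)
    (∑ k, P i k • σ • ContinuousLinearMap.proj (R := ℝ) (φ := fun _ : Fin 3 => ℝ) k) w := by
  have h := HasFDerivAt.fun_sum (u := Finset.univ)
    fun k _ => (co_fd (c0 := c0) (σ := σ) k w).const_smul (P i k)
  exact h

lemma av_diff (i : Fin 3) : Differentiable ℝ (av P c0 σ i) := fun w => (av_fd i w).differentiableAt

lemma av_pd (i j : Fin 3) : pd j (av P c0 σ i) = fun _ => σ * P i j := by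
  funext w
  unfold pd
  rw [(av_fd i w).fderiv]
  simp [Pi.single_apply, mul_comm]

lemma Qf_fd (w : V) : HasFDerivAt (Qf P c0 σ)
    (∑ i, ((c0 + σ • w) i •
      (∑ k, P i k • σ • ContinuousLinearMap.proj (R := ℝ) (φ := fun _ : Fin 3 => ℝ) k) +
      av P c0 σ i w • σ • ContinuousLinearMap.proj (R := ℝ) (φ := fun _ : Fin 3 => ℝ) i)) w := by
  have h := HasFDerivAt.fun_sum (u := Finset.univ)
    fun i _ => (co_fd (c0 := c0) (σ := σ) i w).mul (av_fd (P := P) (c0 := c0) (σ := σ) i w)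
  exact h

lemma Ef_eq : Ef P c0 σ = fun x => Real.exp ((-Qf P c0 σ) x * 2⁻¹) := by
  funext x
  simp [Ef, div_eq_mul_inv]

lemma Ef_diff : Differentiable ℝ (Ef P c0 σ) := fun w => by
  rw [Ef_eq]
  exact (((Qf_fd (P := P) (c0 := c0) (σ := σ) w).neg).mul_const (2 : ℝ)⁻¹).exp.differentiableAt

lemma Ef_pd (hP : Pᵀ = P) (j : Fin 3) :
    pd j (Ef P c0 σ) = fun w => -σ * (av P c0 σ j w * Ef P c0 σ w) := by
  funext w
  have h := (((Qf_fd (P := P) (c0 := c0) (σ := σ) w).neg).mul_const (2 : ℝ)⁻¹).exp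
  have hs : ∀ a b, P a b = P b a := fun a b => by
    conv_lhs => rw [← hP]
    rfl
  have e2 : ∑ i, (c0 + σ • w) i * P i j = av P c0 σ j w := by
    unfold av mulVec dotProduct
    exact Finset.sum_congr rfl fun i _ => by rw [hs i j, mul_comm]
  unfold pd
  rw [Ef_eq, h.fderiv]
  simp only [_root_.smul_apply, _root_.neg_apply,
    _root_.sum_apply, _root_.add_apply, ContinuousLinearMap.proj_apply,
    smul_eq_mul, Pi.single_apply, mul_ite, mul_one, mul_zero, Finset.sum_ite_eq',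
    Finset.mem_univ, if_true, Finset.sum_add_distrib]
  have e3 : ∑ i, (c0 + σ • w) i * (P i j * σ) = av P c0 σ j w * σ := by
    rw [← e2, Finset.sum_mul]
    exact Finset.sum_congr rfl fun i _ => by ring
  rw [e3]
  ring

/-- polynomials in the gradient times the Gaussian, with degree and size -/
inductive Gd (P : Mx) (c0 : V) (σ : ℝ) (g : V) : ℕ → ℝ → (V → ℝ) → Prop
  | base : Gd P c0 σ g 0 1 (Ef P c0 σ)
  | smul {m : ℕ} {B : ℝ} {f : V → ℝ} (c : ℝ) :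
      Gd P c0 σ g m B f → Gd P c0 σ g m (|c| * B) (fun w => c * f w)
  | mul {m : ℕ} {B : ℝ} {f : V → ℝ} (i : Fin 3) :
      Gd P c0 σ g m B f → Gd P c0 σ g (m + 1) (g i * B) (fun w => av P c0 σ i w * f w)
  | add {m : ℕ} {B B' : ℝ} {f f' : V → ℝ} :
      Gd P c0 σ g m B f → Gd P c0 σ g m B' f' → Gd P c0 σ g m (B + B') (fun w => f w + f' w)
  | mono {m m' : ℕ} {B B' : ℝ} {f : V → ℝ} :
      Gd P c0 σ g m B f → m ≤ m' → B ≤ B' → Gd P c0 σ g m' B' f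

lemma Gd.nonneg (hg : ∀ i, 0 ≤ g i) {m : ℕ} {B : ℝ} {f : V → ℝ} (h : Gd P c0 σ g m B f) :
    0 ≤ B := by
  induction h with
  | base => exact zero_le_one
  | smul c _ ih => exact mul_nonneg (abs_nonneg c) ih
  | mul i _ ih => exact mul_nonneg (hg i) ih
  | add _ _ ih ih' => exact add_nonneg ih ih'
  | mono _ _ h2 ih => exact ih.trans h2

lemma Gd.diff {m : ℕ} {B : ℝ} {f : V → ℝ} (h : Gd P c0 σ g m B f) : Differentiable ℝ f := by
  induction h with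
  | base => exact Ef_diff
  | smul c _ ih => exact ih.const_mul c
  | mul i _ ih => exact (av_diff i).mul ih
  | add _ _ ih ih' => exact ih.add ih'
  | mono _ _ _ ih => exact ih

lemma Gd.bound (hg : ∀ i, 0 ≤ g i) {w : V} {ρ : ℝ} (hρ : 0 ≤ ρ)
    (ha : ∀ i, |av P c0 σ i w| ≤ g i * ρ) {m : ℕ} {B : ℝ} {f : V → ℝ} (h : Gd P c0 σ g m B f) :
    |f w| ≤ B * ((1 + ρ) ^ m * Ef P c0 σ w) := by
  have hE : 0 < Ef P c0 σ w := Real.exp_pos _
  induction h with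
  | base => rw [abs_of_pos hE]; simp
  | smul c _ ih =>
    rw [abs_mul, mul_assoc]
    exact mul_le_mul_of_nonneg_left ih (abs_nonneg c)
  | @mul m B f i h ih =>
    rw [abs_mul]
    have h1 : |av P c0 σ i w| ≤ g i * (1 + ρ) := (ha i).trans
      (mul_le_mul_of_nonneg_left (by linarith) (hg i))
    refine (mul_le_mul h1 ih (abs_nonneg _) (mul_nonneg (hg i) (by linarith))).trans_eq ?_
    ring
  | add _ _ ih ih' =>
    rw [add_mul]
    exact (abs_add_le _ _).trans (add_le_add ih ih')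
  | mono h h1 h2 ih =>
    refine ih.trans (mul_le_mul h2 (mul_le_mul_of_nonneg_right
      (pow_le_pow_right₀ (by linarith) h1) hE.le) (by positivity) ((h.nonneg hg).trans h2))

lemma Gd.pd (hP : Pᵀ = P) (hσ : |σ| ≤ 1) (hg : ∀ i, 0 ≤ g i) (hb : ∀ i j, |P i j| ≤ g i * g j)
    (j : Fin 3) {m : ℕ} {B : ℝ} {f : V → ℝ} (h : Gd P c0 σ g m B f) :
    Gd P c0 σ g (m + 1) ((m + 1) * g j * B) (pd j f) := by
  induction h with
  | base =>
    rw [Ef_pd hP]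
    refine ((Gd.base.mul j).smul (-σ)).mono le_rfl ?_
    rw [abs_neg]
    have := hg j
    push_cast
    nlinarith
  | smul c h ih =>
    rw [pd_cmul h.diff]
    exact (ih.smul c).mono le_rfl (le_of_eq (by ring))
  | @mul m B f i h ih =>
    rw [pd_mul (av_diff i) h.diff, av_pd]
    have h1 := (h.smul (σ * P i j)).mono (m' := m + 1 + 1) (B' := g i * g j * B) (by omega) (by
      refine mul_le_mul_of_nonneg_right ?_ (h.nonneg hg)
      rw [abs_mul]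
      exact (mul_le_mul hσ (hb i j) (abs_nonneg _) zero_le_one).trans_eq (one_mul _))
    exact (h1.add (ih.mul i)).mono le_rfl (le_of_eq (by push_cast; ring))
  | add h h' ih ih' =>
    rw [pd_add h.diff h'.diff]
    exact (ih.add ih').mono le_rfl (le_of_eq (by ring))
  | @mono m m' B B' f h h1 h2 ih =>
    refine ih.mono (by omega) ?_
    have h3 : (m : ℝ) ≤ m' := by exact_mod_cast h1
    exact mul_le_mul (mul_le_mul_of_nonneg_right (by linarith) (hg j)) h2 (h.nonneg hg)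
      (mul_nonneg (by positivity) (hg j))

lemma Gd.pds (hP : Pᵀ = P) (hσ : |σ| ≤ 1) (hg : ∀ i, 0 ≤ g i) (hb : ∀ i j, |P i j| ≤ g i * g j)
    {B : ℝ} {f : V → ℝ} (h : Gd P c0 σ g 0 B f) (l : List (Fin 3)) :
    Gd P c0 σ g l.length (l.length.factorial * hp g l * B) (pds l f) := by
  induction l with
  | nil => simpa [hp, T3.pds] using h
  | cons j l ih =>
    refine (ih.pd hP hσ hg hb j).mono le_rfl (le_of_eq ?_)
    simp only [hp, List.length_cons, Nat.factorial_succ, List.map_cons, List.prod_cons]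
    push_cast
    ring

lemma cs (hP : Pᵀ = P) (h0 : ∀ v : V, 0 ≤ v ⬝ᵥ (P *ᵥ v)) (u v : V) :
    (u ⬝ᵥ (P *ᵥ v)) ^ 2 ≤ (u ⬝ᵥ (P *ᵥ u)) * (v ⬝ᵥ (P *ᵥ v)) := by
  have hs : v ⬝ᵥ (P *ᵥ u) = u ⬝ᵥ (P *ᵥ v) := by
    rw [dotProduct_mulVec, ← mulVec_transpose, hP, dotProduct_comm]
  have h := discrim_le_zero (a := u ⬝ᵥ (P *ᵥ u)) (b := 2 * (u ⬝ᵥ (P *ᵥ v))) (c := v ⬝ᵥ (P *ᵥ v))
    fun t => by
      have := h0 (t • u + v)
      simp only [mulVec_add, mulVec_smul, add_dotProduct, dotProduct_add, smul_dotProduct,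
        dotProduct_smul, smul_eq_mul, hs] at this
      linarith
  unfold discrim at h
  linarith

lemma poly_exp (m : ℕ) {Q : ℝ} (hQ : 0 ≤ Q) :
    (1 + Real.sqrt Q) ^ m * Real.exp (-Q / 2) ≤ 9 * m.factorial * Real.exp (-Q / 4) := by
  have h0 := Real.sqrt_nonneg Q
  have h1 := Real.pow_div_factorial_le_exp (1 + Real.sqrt Q) (by linarith) m
  have hm : (0 : ℝ) < m.factorial := by exact_mod_cast m.factorial_pos
  rw [div_le_iff₀ hm] at h1
  have h2 : 1 + Real.sqrt Q ≤ 2 + Q / 4 := by nlinarith [Real.sq_sqrt hQ, sq_nonneg (Real.sqrt Q - 2)]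
  have h3 : Real.exp 2 ≤ 9 := by
    have := Real.exp_one_lt_d9
    have e : Real.exp 2 = Real.exp 1 * Real.exp 1 := by rw [← Real.exp_add]; norm_num
    nlinarith [Real.exp_pos 1]
  have h4 : Real.exp (1 + Real.sqrt Q) * Real.exp (-Q / 2) ≤ 9 * Real.exp (-Q / 4) := by
    calc _ ≤ Real.exp (2 + Q / 4) * Real.exp (-Q / 2) :=
          mul_le_mul_of_nonneg_right (Real.exp_le_exp.2 h2) (Real.exp_pos _).le
      _ = Real.exp 2 * Real.exp (-Q / 4) := by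
          rw [← Real.exp_add, ← Real.exp_add]; congr 1; ring
      _ ≤ _ := mul_le_mul_of_nonneg_right h3 (Real.exp_pos _).le
  calc _ ≤ Real.exp (1 + Real.sqrt Q) * m.factorial * Real.exp (-Q / 2) :=
        mul_le_mul_of_nonneg_right h1 (Real.exp_pos _).le
    _ = m.factorial * (Real.exp (1 + Real.sqrt Q) * Real.exp (-Q / 2)) := by ring
    _ ≤ m.factorial * (9 * Real.exp (-Q / 4)) := mul_le_mul_of_nonneg_left h4 hm.le
    _ = _ := by ring

lemma hp_nonneg (hg : ∀ i, 0 ≤ g i) (l : List (Fin 3)) : 0 ≤ hp g l :=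
  List.prod_nonneg fun a ha => by
    obtain ⟨i, -, rfl⟩ := List.mem_map.1 ha
    exact hg i

lemma det_le (hb : ∀ i j, |P i j| ≤ g i * g j) (hg : ∀ i, 0 ≤ g i) :
    P.det ≤ 6 * (g 0 * g 1 * g 2) ^ 2 := by
  have k : ∀ a b c d e f : Fin 3, |P a b * P c d * P e f| ≤ g a * g b * (g c * g d) * (g e * g f) :=
    fun a b c d e f => by
      rw [abs_mul, abs_mul]
      exact mul_le_mul (mul_le_mul (hb a b) (hb c d) (abs_nonneg _) (mul_nonneg (hg a) (hg b)))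
        (hb e f) (abs_nonneg _) (mul_nonneg (mul_nonneg (hg a) (hg b)) (mul_nonneg (hg c) (hg d)))
  rw [det_fin_three]
  linarith [abs_le.1 (k 0 0 1 1 2 2), abs_le.1 (k 0 0 1 2 2 1), abs_le.1 (k 0 1 1 0 2 2),
    abs_le.1 (k 0 1 1 2 2 0), abs_le.1 (k 0 2 1 0 2 1), abs_le.1 (k 0 2 1 1 2 0)]

lemma posDef {S : Mx} (hS : Sᵀ = S) (h : ∀ v : V, v ≠ 0 → 0 < v ⬝ᵥ (S *ᵥ v)) : S.PosDef :=
  Matrix.PosDef.of_dotProduct_mulVec_pos (by
    unfold Matrix.IsHermitian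
    rw [conjTranspose_eq_transpose_of_trivial, hS]) fun v hv => by simpa using h v hv

lemma inv_symm {S : Mx} (hS : Sᵀ = S) : S⁻¹ᵀ = S⁻¹ := by rw [transpose_nonsing_inv, hS]

lemma inv_nonneg {S : Mx} (hS : S.PosDef) (v : V) : 0 ≤ v ⬝ᵥ (S⁻¹ *ᵥ v) := by
  simpa using hS.inv.posSemidef.dotProduct_mulVec_nonneg v

/-- the pointwise bound -/
lemma ker_bound {S : Mx} (hS : Sᵀ = S) (hpos : S.PosDef) (hg : ∀ i, 0 ≤ g i)
    (hP : ∀ i, S⁻¹ i i ≤ g i ^ 2) (c0 : V) (hσ : |σ| ≤ 1) {n : ℕ} {l : List (Fin 3)}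
    (hl : l.length ≤ n) (z : V) :
    |pds l (fun w => ker S (c0 + σ • w)) z| ≤ 9 * (n.factorial : ℝ) ^ 2 * hp g l *
      (g 0 * g 1 * g 2) * Real.exp (-((c0 + σ • z) ⬝ᵥ (S⁻¹ *ᵥ (c0 + σ • z))) / 4) := by
  have hs := inv_symm hS
  have h0 := inv_nonneg hpos
  have e1 : ∀ (i : Fin 3) (v : V), Pi.single i 1 ⬝ᵥ (S⁻¹ *ᵥ v) = (S⁻¹ *ᵥ v) i := fun i v => by simp
  have e2 : ∀ i j : Fin 3, (S⁻¹ *ᵥ Pi.single j 1) i = S⁻¹ i j := fun i j => by simp
  have d0 : ∀ i, 0 ≤ S⁻¹ i i := fun i => by rw [← e2, ← e1]; exact h0 _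
  have hb : ∀ i j, |S⁻¹ i j| ≤ g i * g j := fun i j => by
    have := cs hs h0 (Pi.single i 1) (Pi.single j 1)
    rw [e1, e1, e1, e2, e2, e2] at this
    refine abs_le_of_sq_le_sq' ?_ (mul_nonneg (hg i) (hg j)) |> abs_le.2
    rw [mul_pow]
    exact this.trans (mul_le_mul (hP i) (hP j) (d0 j) (sq_nonneg _))
  have hQ : 0 ≤ Qf S⁻¹ c0 σ z := h0 _
  have ha : ∀ i, |av S⁻¹ c0 σ i z| ≤ g i * Real.sqrt (Qf S⁻¹ c0 σ z) := fun i => by
    have := cs hs h0 (Pi.single i 1) (c0 + σ • z)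
    rw [e1, e1, e2] at this
    refine abs_le_of_sq_le_sq' ?_ (mul_nonneg (hg i) (Real.sqrt_nonneg _)) |> abs_le.2
    rw [mul_pow, Real.sq_sqrt hQ]
    exact this.trans (mul_le_mul_of_nonneg_right (hP i) hQ)
  have hd := hpos.det_pos
  have hπ : 6 ≤ (2 * Real.pi) ^ 3 := by
    have h3 : 2 ≤ 2 * Real.pi := by linarith [Real.pi_gt_three]
    exact le_trans (by norm_num) (pow_le_pow_left₀ (by norm_num) h3 3)
  have hc : |(Real.sqrt ((2 * Real.pi) ^ 3 * S.det))⁻¹| ≤ g 0 * g 1 * g 2 := by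
    have g3 : 0 ≤ g 0 * g 1 * g 2 := mul_nonneg (mul_nonneg (hg 0) (hg 1)) (hg 2)
    refine abs_le_of_sq_le_sq' ?_ g3 |> abs_le.2
    have h1 := det_le hb hg
    rw [det_nonsing_inv, Ring.inverse_eq_inv', inv_le_iff_one_le_mul₀ hd] at h1
    rw [inv_pow, Real.sq_sqrt (by positivity), inv_le_iff_one_le_mul₀ (by positivity)]
    nlinarith [mul_nonneg (sq_nonneg (g 0 * g 1 * g 2)) hd.le]
  have e3 : (fun w => ker S (c0 + σ • w)) =
      fun w => (Real.sqrt ((2 * Real.pi) ^ 3 * S.det))⁻¹ * Ef S⁻¹ c0 σ w := by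
    funext w
    unfold ker Ef Qf
    rw [div_eq_inv_mul]
  have h1 := (((Gd.base (P := S⁻¹) (c0 := c0) (σ := σ) (g := g)).smul
    (Real.sqrt ((2 * Real.pi) ^ 3 * S.det))⁻¹).mono le_rfl
      (B' := g 0 * g 1 * g 2) (by rwa [mul_one])).pds hs hσ hg hb l
  rw [e3]
  refine (h1.bound hg (Real.sqrt_nonneg _) ha).trans ?_
  have h2 := poly_exp l.length hQ
  have h3 : (l.length.factorial : ℝ) ≤ n.factorial := by exact_mod_cast Nat.factorial_le hl
  have h4 := hp_nonneg hg l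
  have g3 : 0 ≤ g 0 * g 1 * g 2 := mul_nonneg (mul_nonneg (hg 0) (hg 1)) (hg 2)
  have h5 : (0 : ℝ) ≤ l.length.factorial := Nat.cast_nonneg _
  calc _ ≤ l.length.factorial * hp g l * (g 0 * g 1 * g 2) *
        (9 * l.length.factorial * Real.exp (-Qf S⁻¹ c0 σ z / 4)) :=
        mul_le_mul_of_nonneg_left h2 (by positivity)
    _ = 9 * (l.length.factorial : ℝ) ^ 2 *
        (hp g l * (g 0 * g 1 * g 2) * Real.exp (-Qf S⁻¹ c0 σ z / 4)) := by ring
    _ ≤ 9 * (n.factorial : ℝ) ^ 2 *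
        (hp g l * (g 0 * g 1 * g 2) * Real.exp (-Qf S⁻¹ c0 σ z / 4)) :=
        mul_le_mul_of_nonneg_right (by gcongr) (by positivity)
    _ = _ := by unfold Qf; ring

/-- the bound for `w ↦ ker S (c - w)` -/
lemma ker_bound_sub {S : Mx} (hS : Sᵀ = S) (hpos : S.PosDef) (hg : ∀ i, 0 ≤ g i)
    (hP : ∀ i, S⁻¹ i i ≤ g i ^ 2) (c : V) {n : ℕ} {l : List (Fin 3)} (hl : l.length ≤ n) (z : V) :
    |pds l (fun w => ker S (c - w)) z| ≤ 9 * (n.factorial : ℝ) ^ 2 * hp g l *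
      (g 0 * g 1 * g 2) * Real.exp (-((c - z) ⬝ᵥ (S⁻¹ *ᵥ (c - z))) / 4) := by
  simpa only [neg_smul, one_smul, ← sub_eq_add_neg] using
    ker_bound (σ := -1) hS hpos hg hP c (by simp) hl z

/-- the bound for `ker S` -/
lemma ker_bound_id {S : Mx} (hS : Sᵀ = S) (hpos : S.PosDef) (hg : ∀ i, 0 ≤ g i)
    (hP : ∀ i, S⁻¹ i i ≤ g i ^ 2) {n : ℕ} {l : List (Fin 3)} (hl : l.length ≤ n) (z : V) :
    |pds l (ker S) z| ≤ 9 * (n.factorial : ℝ) ^ 2 * hp g l *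
      (g 0 * g 1 * g 2) * Real.exp (-(z ⬝ᵥ (S⁻¹ *ᵥ z)) / 4) := by
  simpa only [one_smul, zero_add] using ker_bound (σ := 1) hS hpos hg hP 0 (by simp) hl z

/-- diagonal entries of the inverse from a lower bound of the form -/
lemma inv_diag_le {S : Mx} (hpos : S.PosDef) (i : Fin 3) {c : ℝ} (hc : 0 < c)
    (h : ∀ v : V, c * v i ^ 2 ≤ v ⬝ᵥ (S *ᵥ v)) : S⁻¹ i i ≤ c⁻¹ := by
  have hu : IsUnit S.det := hpos.det_pos.ne'.isUnit
  have h1 := h (S⁻¹ *ᵥ Pi.single i 1)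
  rw [mulVec_mulVec, mul_nonsing_inv _ hu, one_mulVec] at h1
  simp only [mulVec_single_one, col_apply, dotProduct_single, mul_one] at h1
  by_contra h2
  rw [not_le] at h2
  have h3 : 1 < c * S⁻¹ i i := by rwa [inv_lt_iff_one_lt_mul₀' hc] at h2
  have h4 : 0 < S⁻¹ i i := lt_trans (inv_pos.2 hc) h2
  nlinarith

/-- the inverse form from below -/
lemma inv_form_ge {S : Mx} (hS : Sᵀ = S) (hpos : S.PosDef) (v w : V) :
    2 * (v ⬝ᵥ w) - v ⬝ᵥ (S *ᵥ v) ≤ w ⬝ᵥ (S⁻¹ *ᵥ w) := by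
  have hu : IsUnit S.det := hpos.det_pos.ne'.isUnit
  have h := inv_nonneg hpos (w - S *ᵥ v)
  have e1 : S⁻¹ *ᵥ (S *ᵥ v) = v := by rw [mulVec_mulVec, nonsing_inv_mul _ hu, one_mulVec]
  have e2 : (S *ᵥ v) ⬝ᵥ (S⁻¹ *ᵥ w) = v ⬝ᵥ w := by
    rw [dotProduct_comm, dotProduct_mulVec, ← mulVec_transpose, hS, mulVec_mulVec,
      mul_nonsing_inv _ hu, one_mulVec, dotProduct_comm]
  rw [mulVec_sub, sub_dotProduct, dotProduct_sub, dotProduct_sub, e1, e2, dotProduct_comm w v,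
    dotProduct_comm (S *ᵥ v) v] at h
  linarith

lemma gauss_int (b z : V) (hb : ∀ i, 0 < b i) :
    Integrable (fun y : V => Real.exp (-∑ i, b i * (y i - z i) ^ 2)) ∧
      ∫ y : V, Real.exp (-∑ i, b i * (y i - z i) ^ 2) = ∏ i, Real.sqrt (Real.pi / b i) := by
  have e : (fun y : V => Real.exp (-∑ i, b i * (y i - z i) ^ 2)) =
      fun y : V => ∏ i, Real.exp (-b i * (y i - z i) ^ 2) := by
    funext y
    rw [← Real.exp_sum, ← Finset.sum_neg_distrib]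
    simp only [neg_mul]
  rw [e]
  refine ⟨?_, ?_⟩
  · exact Integrable.fintype_prod (f := fun i t => Real.exp (-b i * (t - z i) ^ 2))
      (μ := fun _ => volume) fun i => (integrable_exp_neg_mul_sq (hb i)).comp_sub_right (z i)
  · rw [integral_fintype_prod_volume_eq_prod (fun i t => Real.exp (-b i * (t - z i) ^ 2))]
    refine Finset.prod_congr rfl fun i _ => ?_
    rw [integral_sub_right_eq_self (fun t => Real.exp (-b i * t ^ 2)), integral_gaussian]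

end KBA

end
end Pool.Agent.MP_20bec2_an.T3

end MrgPart2

-- ======== part 3: formerly Pool.Agent.MP_20bec2_an.T3.KB
section MrgPart3

/-! Local bounds for the kernel and the density. -/

set_option autoImplicit false
open MeasureTheory Set Filter Matrix Topology

namespace Pool.Agent.MP_20bec2_an.T3
noncomputable section

namespace KB

open KBA

lemma term_le (h v : V) (i : Fin 3) : (h i * v i) ^ 2 ≤ ∑ j, (h j * v j) ^ 2 :=
  Finset.single_le_sum (f := fun j => (h j * v j) ^ 2) (fun _ _ => sq_nonneg _) (Finset.mem_univ i)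

lemma pd_pos {h : V} {S : Mx} (hh : ∀ i, 0 < h i) (hS : PD h S) : S.PosDef :=
  posDef hS.1 fun v hv => by
    obtain ⟨i, hi⟩ := Function.ne_iff.1 hv
    have h1 : 0 < (h i * v i) ^ 2 := sq_pos_of_ne_zero (mul_ne_zero (hh i).ne' hi)
    linarith [term_le h v i, (hS.2 v).1]

lemma pd_diag {h : V} {S : Mx} (hh : ∀ i, 0 < h i) (hS : PD h S) (i : Fin 3) :
    S⁻¹ i i ≤ (8 / h i) ^ 2 := by
  have hi := hh i
  refine (inv_diag_le (pd_pos hh hS) i (c := h i ^ 2 / 50) (by positivity) fun v => ?_).trans ?_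
  · have := term_le h v i
    rw [mul_pow] at this
    linarith [(hS.2 v).1]
  · rw [inv_div, div_pow]
    gcongr
    norm_num

lemma pd_form {h : V} {S : Mx} (hh : ∀ i, 0 < h i) (hS : PD h S) (w : V) :
    (∑ i, (w i / h i) ^ 2) / 6 ≤ w ⬝ᵥ (S⁻¹ *ᵥ w) := by
  have h1 := inv_form_ge hS.1 (pd_pos hh hS) (fun i => w i / (6 * h i ^ 2)) w
  have h2 := (hS.2 fun i => w i / (6 * h i ^ 2)).2
  have e1 : (fun i => w i / (6 * h i ^ 2)) ⬝ᵥ w = (∑ i, (w i / h i) ^ 2) / 6 := by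
    unfold dotProduct
    rw [Finset.sum_div]
    refine Finset.sum_congr rfl fun i _ => ?_
    have := (hh i).ne'
    field_simp
  have e2 : ∑ i, (h i * (w i / (6 * h i ^ 2))) ^ 2 = (∑ i, (w i / h i) ^ 2) / 36 := by
    rw [Finset.sum_div]
    refine Finset.sum_congr rfl fun i _ => ?_
    have := (hh i).ne'
    field_simp
    norm_num
  rw [e1] at h1
  rw [e2] at h2
  linarith

lemma hp_mul {h : V} (hh : ∀ i, 0 < h i) (l : List (Fin 3)) :
    hp h l * hp (fun i => 8 / h i) l = 8 ^ l.length := by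
  induction l with
  | nil => simp [hp]
  | cons j l ih =>
    simp only [hp, List.map_cons, List.prod_cons, List.length_cons] at ih ⊢
    have := (hh j).ne'
    rw [pow_succ, ← ih]
    field_simp

/-- the constant of the pointwise bound -/
def cst (n : ℕ) : ℝ := 9 * (n.factorial : ℝ) ^ 2 * 8 ^ (n + 3)

lemma cst_one (n : ℕ) : 1 ≤ cst n := by
  have hn : (1 : ℝ) ≤ n.factorial := by exact_mod_cast n.factorial_pos
  have h8 : (1 : ℝ) ≤ 8 ^ (n + 3) := one_le_pow₀ (by norm_num)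
  unfold cst
  nlinarith [mul_nonneg (sq_nonneg (n.factorial : ℝ)) (sub_nonneg.2 h8)]

lemma scale {h : V} {S : Mx} (hh : ∀ i, 0 < h i) (hS : PD h S) {n : ℕ} {l : List (Fin 3)}
    (hl : l.length ≤ n) (y : V) {X : ℝ}
    (hX : X ≤ 9 * (n.factorial : ℝ) ^ 2 * hp (fun i => 8 / h i) l * (8 / h 0 * (8 / h 1) * (8 / h 2)) *
      Real.exp (-(y ⬝ᵥ (S⁻¹ *ᵥ y)) / 4)) :
    hp h l * X ≤ cst n / (h 0 * h 1 * h 2) * Real.exp (-(∑ i, (y i / h i) ^ 2) / 30) := by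
  have h0 := hh 0
  have h1 := hh 1
  have h2 := hh 2
  have e1 : Real.exp (-(y ⬝ᵥ (S⁻¹ *ᵥ y)) / 4) ≤ Real.exp (-(∑ i, (y i / h i) ^ 2) / 30) := by
    have := pd_form hh hS y
    have s0 : 0 ≤ ∑ i, (y i / h i) ^ 2 := Finset.sum_nonneg fun _ _ => sq_nonneg _
    exact Real.exp_le_exp.2 (by linarith)
  have e2 : (8 : ℝ) ^ l.length ≤ 8 ^ n := pow_le_pow_right₀ (by norm_num) hl
  calc _ ≤ _ := mul_le_mul_of_nonneg_left hX (hp_nonneg (fun i => (hh i).le) l)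
    _ = 9 * (n.factorial : ℝ) ^ 2 * (hp h l * hp (fun i => 8 / h i) l) *
        (8 / h 0 * (8 / h 1) * (8 / h 2)) * Real.exp (-(y ⬝ᵥ (S⁻¹ *ᵥ y)) / 4) := by ring
    _ ≤ 9 * (n.factorial : ℝ) ^ 2 * 8 ^ n *
        (8 / h 0 * (8 / h 1) * (8 / h 2)) * Real.exp (-(∑ i, (y i / h i) ^ 2) / 30) := by
        rw [hp_mul hh]
        gcongr
    _ = _ := by
        unfold cst
        rw [pow_add]
        field_simp

lemma jm_apply {Z : V → V} {x : V} (hZ : DifferentiableAt ℝ Z x) (i j : Fin 3) :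
    jm Z x i j = fderiv ℝ Z x (Pi.single j 1) i := by
  simp only [jm, pd, of_apply]
  rw [fderiv_apply hZ]
  rfl

lemma fderiv_eq {Z : V → V} {x : V} (hZ : DifferentiableAt ℝ Z x) (v : V) :
    fderiv ℝ Z x v = jm Z x *ᵥ v := by
  funext i
  conv_lhs => rw [pi_eq_sum_univ' v, map_sum]
  simp only [map_smul, Finset.sum_apply, Pi.smul_apply, smul_eq_mul, mulVec, dotProduct,
    jm_apply hZ]
  exact Finset.sum_congr rfl fun j _ => mul_comm _ _

lemma det_eq {Z : V → V} {x : V} (hZ : DifferentiableAt ℝ Z x) :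
    (fderiv ℝ Z x).det = (jm Z x).det := by
  unfold ContinuousLinearMap.det
  rw [← LinearMap.det_toMatrix']
  congr 1
  ext i j
  rw [LinearMap.toMatrix'_apply, jm_apply hZ]
  rfl

lemma det_ge {M : Mx} (h : EB (M - 1) (cm (1 / 100))) : 9 / 10 ≤ M.det := by
  have d : ∀ i, |M i i - 1| ≤ 1 / 100 := fun i => by simpa [cm] using h i i
  have o : ∀ i j, i ≠ j → |M i j| ≤ 1 / 100 := fun i j hij => by
    simpa [cm, one_apply_ne hij] using h i j
  have b : ∀ i j, |M i j| ≤ 101 / 100 := fun i j => by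
    by_cases hij : i = j
    · subst hij
      exact abs_le.2 ⟨by linarith [abs_le.1 (d i)], by linarith [abs_le.1 (d i)]⟩
    · linarith [o i j hij]
  have k : ∀ x y z : ℝ, |x| ≤ 101 / 100 → |y| ≤ 101 / 100 → |z| ≤ 1 / 100 →
      |x * y * z| ≤ 101 / 100 * (101 / 100) * (1 / 100) := fun x y z hx hy hz => by
    rw [abs_mul, abs_mul]
    gcongr
  have d' : ∀ i, 99 / 100 ≤ M i i := fun i => by linarith [(abs_le.1 (d i)).1]
  have d0 : ∀ i, 0 ≤ M i i := fun i => by linarith [d' i]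
  have m : 99 / 100 * (99 / 100) * (99 / 100) ≤ M 0 0 * M 1 1 * M 2 2 :=
    mul_le_mul (mul_le_mul (d' 0) (d' 1) (by norm_num) (d0 0)) (d' 2) (by norm_num)
      (mul_nonneg (d0 0) (d0 1))
  rw [det_fin_three]
  linarith [abs_le.1 (k _ _ _ (b 0 0) (b 1 2) (o 2 1 (by decide))),
    abs_le.1 (k _ _ _ (b 2 2) (b 0 1) (o 1 0 (by decide))),
    abs_le.1 (k _ _ _ (b 0 1) (b 1 2) (o 2 0 (by decide))),
    abs_le.1 (k _ _ _ (b 0 2) (b 1 0) (o 2 1 (by decide))),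
    abs_le.1 (k _ _ _ (b 0 2) (b 1 1) (o 2 0 (by decide)))]

lemma injOn {U : Set V} {Z : V → V} (hU : Convex ℝ U) (hZ : Differentiable ℝ Z)
    (hb : ∀ x ∈ U, EB (jm Z x - 1) (cm (1 / 100))) : InjOn Z U := by
  intro x hx y hy hxy
  have h := Convex.norm_image_sub_le_of_norm_hasFDerivWithin_le (f := fun x => Z x - x)
    (f' := fun x => fderiv ℝ Z x - ContinuousLinearMap.id ℝ V) (C := 3 / 100)
    (fun x _ => ((hZ x).hasFDerivAt.sub (hasFDerivAt_id x)).hasFDerivWithinAt)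
    (fun x hx => ContinuousLinearMap.opNorm_le_bound _ (by norm_num) fun v => by
      refine (pi_norm_le_iff_of_nonneg (by positivity)).2 fun i => ?_
      have e : (fderiv ℝ Z x - ContinuousLinearMap.id ℝ V) v = (jm Z x - 1) *ᵥ v := by
        rw [sub_mulVec, one_mulVec, ← fderiv_eq (hZ x)]
        rfl
      have t : ∀ j, |(jm Z x - 1) i j * v j| ≤ 1 / 100 * ‖v‖ := fun j => by
        rw [abs_mul]
        exact mul_le_mul (hb x hx i j) (norm_le_pi_norm v j) (abs_nonneg _) (by norm_num)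
      rw [e, Real.norm_eq_abs]
      simp only [mulVec, dotProduct, Fin.sum_univ_three]
      exact abs_le.2 ⟨by linarith [abs_le.1 (t 0), abs_le.1 (t 1), abs_le.1 (t 2)],
        by linarith [abs_le.1 (t 0), abs_le.1 (t 1), abs_le.1 (t 2)]⟩) hU hx hy
  rw [hxy, sub_sub_sub_cancel_left, norm_sub_rev] at h
  have : ‖y - x‖ = 0 := le_antisymm (by linarith) (norm_nonneg _)
  exact (sub_eq_zero.1 (norm_eq_zero.1 this)).symm

/-- change of variables -/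
lemma int_comp_le {U : Set V} {Z : V → V} (hU : Convex ℝ U) (hc : IsCompact U)
    (hZ : ContDiff ℝ 1 Z) (hb : ∀ x ∈ U, EB (jm Z x - 1) (cm (1 / 100))) {φ : V → ℝ}
    (φc : Continuous φ) (φ0 : ∀ y, 0 ≤ φ y) (φi : Integrable φ) :
    ∫ x in U, φ (Z x) ≤ 2 * ∫ y, φ y := by
  have hd : Differentiable ℝ Z := hZ.differentiable (by norm_num)
  have hm := hc.measurableSet
  have h1 := integral_image_eq_integral_abs_det_fderiv_smul volume hm
    (fun x _ => (hd x).hasFDerivAt.hasFDerivWithinAt) (injOn hU hd hb) φ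
  have h2 : ∫ y in Z '' U, φ y ≤ ∫ y, φ y := setIntegral_le_integral φi (Eventually.of_forall φ0)
  have c1 : Continuous fun x => φ (Z x) := φc.comp hZ.continuous
  have c2 : Continuous fun x => |(fderiv ℝ Z x).det| • φ (Z x) :=
    (ContinuousLinearMap.continuous_det.comp (hZ.continuous_fderiv (by norm_num))).abs.smul c1
  have h3 : ∫ x in U, φ (Z x) ≤ ∫ x in U, 2 * (|(fderiv ℝ Z x).det| • φ (Z x)) := by
    refine setIntegral_mono_on (c1.continuousOn.integrableOn_compact hc)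
      ((c2.continuousOn.integrableOn_compact hc).const_mul 2) hm fun x hx => ?_
    have := (det_ge (hb x hx)).trans (le_abs_self _)
    rw [det_eq (hd x), smul_eq_mul]
    nlinarith [φ0 (Z x)]
  rw [integral_const_mul, ← h1] at h3
  linarith

lemma gk {h : V} {U : Set V} {a : V → ℝ} {A : ℝ} {Z : V → V} {S : V → Mx} (K : KL h U a A Z S) :
    GK a Z S := by
  obtain ⟨R, hR⟩ := K.cl.isBounded.exists_norm_le
  obtain ⟨m, m0, hm⟩ : ∃ m : ℝ, 0 < m ∧ ∀ i, m ≤ h i ^ 2 := by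
    have h0 := K.hh 0
    have h1 := K.hh 1
    have h2 := K.hh 2
    refine ⟨min (h 0 ^ 2) (min (h 1 ^ 2) (h 2 ^ 2)), by positivity, fun i => ?_⟩
    fin_cases i <;> simp
  have hM : ∀ i, h i ^ 2 ≤ ∑ j, h j ^ 2 := fun i =>
    Finset.single_le_sum (f := fun j => h j ^ 2) (fun _ _ => sq_nonneg _) (Finset.mem_univ i)
  have A0 : 0 ≤ A := (abs_nonneg _).trans (K.ba 0)
  have M0 : 0 ≤ ∑ j, h j ^ 2 := Finset.sum_nonneg fun _ _ => sq_nonneg _
  have R0 : 0 ≤ m / 50 * |R| := by positivity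
  refine ⟨K.ma, K.dZ.continuous, K.cS, m / 50, A + m / 50 * |R| + 6 * ∑ j, h j ^ 2, by positivity,
    fun x => ⟨by linarith [K.ba x], fun hx => ?_⟩⟩
  have hxU : x ∈ U := by
    by_contra hn
    exact hx (K.sa x hn)
  have h1 : m / 50 * ‖x‖ ≤ m / 50 * |R| :=
    mul_le_mul_of_nonneg_left ((hR x hxU).trans (le_abs_self R)) (by positivity)
  refine ⟨by linarith [norm_nonneg (Z x)], (K.bS x hxU).1, fun v => ?_⟩
  obtain ⟨b1, b2⟩ := (K.bS x hxU).2 v
  have l1 : m * (v ⬝ᵥ v) ≤ ∑ i, (h i * v i) ^ 2 := by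
    unfold dotProduct
    rw [Finset.mul_sum]
    refine Finset.sum_le_sum fun i _ => ?_
    rw [mul_pow, ← sq]
    exact mul_le_mul_of_nonneg_right (hm i) (sq_nonneg _)
  have l2 : ∑ i, (h i * v i) ^ 2 ≤ (∑ j, h j ^ 2) * (v ⬝ᵥ v) := by
    unfold dotProduct
    rw [Finset.mul_sum]
    refine Finset.sum_le_sum fun i _ => ?_
    rw [mul_pow, ← sq]
    exact mul_le_mul_of_nonneg_right (hM i) (sq_nonneg _)
  have v0 : 0 ≤ v ⬝ᵥ v := Finset.sum_nonneg fun i _ => mul_self_nonneg _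
  have := mul_nonneg (add_nonneg A0 R0) v0
  exact ⟨by linarith, by linarith⟩

/-- the envelope has integral at most a constant times the volume of the cell -/
lemma env_int {h : V} {U : Set V} {a : V → ℝ} {A : ℝ} {Z : V → V} {S : V → Mx}
    (K : KL h U a A Z S) (z : V) :
    IntegrableOn (fun x => Real.exp (-(∑ i, ((Z x - z) i / h i) ^ 2) / 60)) U ∧
      ∫ x in U, Real.exp (-(∑ i, ((Z x - z) i / h i) ^ 2) / 60) ≤ 8192 * (h 0 * h 1 * h 2) := by
  have e : ∀ y : V, -(∑ i, ((y - z) i / h i) ^ 2) / 60 =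
      -∑ i, (60 * h i ^ 2)⁻¹ * (y i - z i) ^ 2 := fun y => by
    rw [neg_div, Finset.sum_div]
    congr 1
    refine Finset.sum_congr rfl fun i _ => ?_
    have := (K.hh i).ne'
    rw [Pi.sub_apply]
    field_simp
  simp only [e]
  obtain ⟨g1, g2⟩ := gauss_int (fun i => (60 * h i ^ 2)⁻¹) z fun i => by
    have := K.hh i
    positivity
  have φc : Continuous fun y : V => Real.exp (-∑ i, (60 * h i ^ 2)⁻¹ * (y i - z i) ^ 2) := by
    fun_prop
  refine ⟨(φc.comp K.dZ.continuous).continuousOn.integrableOn_compact K.cl, ?_⟩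
  refine (int_comp_le K.cx K.cl K.dZ K.bZ φc (fun _ => (Real.exp_pos _).le) g1).trans ?_
  have e3 : ∀ i, Real.sqrt (Real.pi / (60 * h i ^ 2)⁻¹) ≤ 16 * h i := fun i => by
    have := K.hh i
    refine Real.sqrt_le_iff.2 ⟨by positivity, ?_⟩
    rw [div_inv_eq_mul]
    nlinarith [Real.pi_lt_four, sq_pos_of_pos this]
  have h0 := K.hh 0
  have h1 := K.hh 1
  have h2 := K.hh 2
  rw [g2, Fin.prod_univ_three]
  calc _ ≤ 2 * (16 * h 0 * (16 * h 1) * (16 * h 2)) := by gcongr <;> exact e3 _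
    _ = _ := by ring

lemma far (h1 : K1Stmt) (n : ℕ) {h : V} {U : Set V} {a : V → ℝ} {A : ℝ} {Z : V → V} {S : V → Mx}
    (K : KL h U a A Z S) (z : V) (r : ℝ)
    (hr : ∀ x ∈ U, a x ≠ 0 → r ≤ ∑ i, ((Z x - z) i / h i) ^ 2) {l : List (Fin 3)}
    (hl : l.length ≤ n) :
    hp h l * |pds l (dens a Z S) z| ≤ 8192 * cst n * A * Real.exp (-r / 60) := by
  have A0 : 0 ≤ A := (abs_nonneg _).trans (K.ba 0)
  have p0 := hp_nonneg (fun i => (K.hh i).le) l
  have h0 := K.hh 0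
  have h1' := K.hh 1
  have h2 := K.hh 2
  have c0 : 0 ≤ cst n := zero_le_one.trans (cst_one n)
  obtain ⟨g1, g2⟩ := env_int K z
  have hm := K.cl.measurableSet
  rw [((h1 a Z S (gk K)).2.2 l z).2, ← abs_of_nonneg p0, ← abs_mul, ← integral_const_mul,
    ← Real.norm_eq_abs]
  refine (norm_integral_le_of_norm_le (((integrable_indicator_iff hm).2 g1).const_mul
    (A * (cst n / (h 0 * h 1 * h 2) * Real.exp (-r / 60))))
    (Eventually.of_forall fun x => ?_)).trans ?_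
  · by_cases hx : a x = 0
    · rw [hx, zero_mul, mul_zero, norm_zero]
      exact mul_nonneg (by positivity) (indicator_nonneg (fun _ _ => (Real.exp_pos _).le) x)
    have hxU : x ∈ U := by
      by_contra hn
      exact hx (K.sa x hn)
    have hS := K.bS x hxU
    have hb := scale K.hh hS hl (Z x - z) (ker_bound_sub (g := fun i => 8 / h i) hS.1
      (pd_pos K.hh hS) (fun i => by have := K.hh i; positivity) (pd_diag K.hh hS) (Z x) hl z)
    have e1 : Real.exp (-(∑ i, ((Z x - z) i / h i) ^ 2) / 30) ≤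
        Real.exp (-r / 60) * Real.exp (-(∑ i, ((Z x - z) i / h i) ^ 2) / 60) := by
      rw [← Real.exp_add, Real.exp_le_exp]
      linarith [hr x hxU hx]
    rw [indicator_of_mem hxU, Real.norm_eq_abs, mul_left_comm, abs_mul, abs_mul, abs_of_nonneg p0,
      mul_assoc, mul_assoc]
    exact mul_le_mul (K.ba x) (hb.trans (mul_le_mul_of_nonneg_left e1 (by positivity)))
      (mul_nonneg p0 (abs_nonneg _)) A0
  · rw [integral_const_mul, integral_indicator hm]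
    refine (mul_le_mul_of_nonneg_left g2 (by positivity)).trans_eq ?_
    field_simp

end KB

open KBA KB

theorem kb_ (h1 : K1Stmt) : KBStmt := by
  intro n
  have c1 := cst_one n
  refine ⟨8192 * cst n, by linarith, fun h S hh hS l hl w => ?_, fun h U a A Z S K =>
    ⟨gk K, fun l hl z _ => ?_, fun z r hr l hl x hx => ?_⟩⟩
  · have h0 := hh 0
    have h1 := hh 1
    have h2 := hh 2
    refine (scale hh hS hl w (ker_bound_id (g := fun i => 8 / h i) hS.1 (pd_pos hh hS)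
      (fun i => by have := hh i; positivity) (pd_diag hh hS) hl w)).trans ?_
    gcongr
    linarith
  · simpa using far h1 n K z 0 (fun x _ _ => Finset.sum_nonneg fun _ _ => sq_nonneg _) hl
  · rw [mem_singleton_iff.1 hx]
    exact far h1 n K z r hr hl

end
end Pool.Agent.MP_20bec2_an.T3

end MrgPart3

-- ======== part 4: formerly Pool.Agent.MP_20bec2_an.T3.Final
section MrgPart4

set_option autoImplicit false
open MeasureTheory Set Filter Topology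

namespace Pool.Agent.MP_20bec2_an.T3
noncomputable section

namespace Final

/-- the projection that forgets the last coordinate -/
def pr : V →L[ℝ] V :=
  ContinuousLinearMap.id ℝ V - (ContinuousLinearMap.proj (R := ℝ) (φ := fun _ : Fin 3 => ℝ) 2).smulRight e3

lemma pr_apply (x : V) : pr x = x - x 2 • e3 := rfl

lemma pr_e3 : pr e3 = 0 := by simp [pr_apply, e3]

lemma pr_self (x : V) : pr x + x 2 • e3 = x := by simp [pr_apply]

lemma pr_two (x : V) (t : ℝ) : (pr x + t • e3) 2 = t := by simp [pr_apply, e3]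

lemma pr_ne (x : V) (t : ℝ) {i : Fin 3} (h : i ≠ 2) : (pr x + t • e3) i = x i := by
  simp [pr_apply, e3, Pi.single_eq_of_ne h]

lemma pr_pr (x : V) (t : ℝ) : pr (pr x + t • e3) = pr x := by
  rw [pr_apply (pr x + t • e3), pr_two, add_sub_cancel_right]

/-- the column primitive -/
def cl (w : V → ℝ) (u : V) (s : ℝ) : ℝ := ∫ t in (0 : ℝ)..s, w (pr u + t • e3)

/-- its lateral derivative -/
def cd (w : V → ℝ) (u : V) (s : ℝ) : V →L[ℝ] ℝ :=
  ∫ t in (0 : ℝ)..s, (fderiv ℝ w (pr u + t • e3)).comp pr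

lemma cont_pt : Continuous fun p : V × ℝ => pr p.1 + p.2 • e3 := by fun_prop

lemma cont_d {w : V → ℝ} (h : ContDiff ℝ 1 w) :
    Continuous fun p : V × ℝ => (fderiv ℝ w (pr p.1 + p.2 • e3)).comp pr :=
  ((h.continuous_fderiv one_ne_zero).comp cont_pt).clm_comp continuous_const

lemma cd_cont {w : V → ℝ} (h : ContDiff ℝ 1 w) : Continuous fun p : V × ℝ => cd w p.1 p.2 :=
  intervalIntegral.continuous_parametric_primitive_of_continuous
    (f := fun (u : V) (t : ℝ) => (fderiv ℝ w (pr u + t • e3)).comp pr) (cont_d h)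

lemma cl_du {w : V → ℝ} (h : ContDiff ℝ 1 w) (u : V) (s : ℝ) :
    HasFDerivAt (fun u => cl w u s) (cd w u s) u := by
  have c0 : ∀ x : V, Continuous fun t : ℝ => w (pr x + t • e3) := fun x =>
    (h.continuous.comp cont_pt).comp (Continuous.prodMk_right x)
  obtain ⟨B, hB⟩ := ((isCompact_closedBall u 1).prod
    (isCompact_uIcc (a := 0) (b := s))).exists_bound_of_continuousOn (cont_d h).continuousOn
  exact intervalIntegral.hasFDerivAt_integral_of_dominated_of_fderiv_le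
    (F := fun (x : V) (t : ℝ) => w (pr x + t • e3))
    (F' := fun (x : V) (t : ℝ) => (fderiv ℝ w (pr x + t • e3)).comp pr) (bound := fun _ => B)
    (Metric.closedBall_mem_nhds u one_pos)
    (Eventually.of_forall fun x => (c0 x).aestronglyMeasurable) ((c0 u).intervalIntegrable _ _)
    ((cont_d h).comp (Continuous.prodMk_right u)).aestronglyMeasurable
    (Eventually.of_forall fun t ht x hx => hB (x, t) ⟨hx, uIoc_subset_uIcc ht⟩)
    intervalIntegrable_const (Eventually.of_forall fun t _ x _ =>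
      (h.differentiable one_ne_zero _).hasFDerivAt.comp x (pr.hasFDerivAt.add_const _))

lemma cl_ds {w : V → ℝ} (h : Continuous w) (u : V) (s : ℝ) :
    HasDerivAt (fun s => cl w u s) (w (pr u + s • e3)) s :=
  (((h.comp cont_pt).comp (Continuous.prodMk_right u)).integral_hasStrictDerivAt 0 s).hasDerivAt

lemma cd_e3 {w : V → ℝ} (h : ContDiff ℝ 1 w) (u : V) (s : ℝ) : cd w u s e3 = 0 := by
  have c : Continuous fun t : ℝ => (fderiv ℝ w (pr u + t • e3)).comp pr :=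
    (cont_d h).comp (Continuous.prodMk_right u)
  unfold cd
  rw [ContinuousLinearMap.intervalIntegral_apply (c.intervalIntegrable _ _)]
  simp [pr_e3]

/-- the derivative of the height function -/
def dh (w : V → ℝ) (x : V) : V →L[ℝ] ℝ :=
  cd w x (x 2) + w x • ContinuousLinearMap.proj (R := ℝ) (φ := fun _ : Fin 3 => ℝ) 2

lemma dh_cont {w : V → ℝ} (h : ContDiff ℝ 1 w) : Continuous (dh w) :=
  ((cd_cont h).comp (continuous_id.prodMk (continuous_apply 2))).add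
    (h.continuous.smul continuous_const)

lemma ht_deriv {w : V → ℝ} (h : ContDiff ℝ 1 w) (x : V) :
    HasFDerivAt (fun x : V => cl w x (x 2)) (dh w x) x := by
  have cs : Continuous fun r : ℝ => ContinuousLinearMap.toSpanSingleton ℝ r :=
    continuous_clm_apply.2 fun v => by
      simp only [ContinuousLinearMap.toSpanSingleton_apply]; fun_prop
  have k := hasStrictFDerivAt_uncurry_coprod (𝕜 := ℝ) (u := (x, x 2)) (f := cl w) (f₁ := cd w)
    (f₂ := fun u s => ContinuousLinearMap.toSpanSingleton ℝ (w (pr u + s • e3)))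
    (Eventually.of_forall fun v => cl_du h v.1 v.2)
    (Eventually.of_forall fun v => (cl_ds h.continuous v.1 v.2).hasFDerivAt)
    (cd_cont h).continuousAt (cs.comp (h.continuous.comp cont_pt)).continuousAt
  have k2 : HasFDerivAt (fun x : V => (x, x 2)) ((ContinuousLinearMap.id ℝ V).prod
      (ContinuousLinearMap.proj (R := ℝ) (φ := fun _ : Fin 3 => ℝ) 2)) x :=
    ((ContinuousLinearMap.id ℝ V).prod
      (ContinuousLinearMap.proj (R := ℝ) (φ := fun _ : Fin 3 => ℝ) 2)).hasFDerivAt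
  refine (k.hasFDerivAt.comp x k2).congr_fderiv (ContinuousLinearMap.ext fun v => ?_)
  simp [Function.HasUncurry.uncurry, dh, pr_self, mul_comm]

/-- the triangular map of a density -/
def kn (w : V → ℝ) (x : V) : V := pr x + cl w x (x 2) • e3

lemma kn_deriv {w : V → ℝ} (h : ContDiff ℝ 1 w) (x : V) :
    HasFDerivAt (kn w) (pr + (dh w x).smulRight e3) x :=
  pr.hasFDerivAt.add ((ht_deriv h x).smul_const e3)

lemma kn_det {w : V → ℝ} (h : ContDiff ℝ 1 w) (x : V) : (pr + (dh w x).smulRight e3).det = w x := by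
  have h1 : dh w x (Pi.single 2 1) = w x := by
    have := cd_e3 h x (x 2)
    unfold e3 at this
    simp [dh, this]
  rw [ContinuousLinearMap.det, ← LinearMap.det_toMatrix', Matrix.det_fin_three]
  simp [LinearMap.toMatrix'_apply, pr_apply, e3, h1]

/-- the cube -/
def cube : Set V := {x | ∀ i, x i ∈ Icc (0 : ℝ) 1}

lemma cube_eq : cube = Icc 0 1 := by
  ext x
  simp only [cube, mem_Icc, mem_ofPred_eq, Pi.le_def, forall_and]
  rfl

lemma cube_mem {x : V} (hx : x ∈ cube) {t : ℝ} (ht : t ∈ Icc (0 : ℝ) 1) : pr x + t • e3 ∈ cube := by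
  intro i
  by_cases h : i = 2
  · rw [h, pr_two]; exact ht
  · rw [pr_ne _ _ h]; exact hx i

lemma cl_lower {w : V → ℝ} (hw : Continuous w) {m s t : ℝ} {u : V} (hst : s ≤ t)
    (hm : ∀ v ∈ Icc s t, m ≤ w (pr u + v • e3)) : m * (t - s) ≤ cl w u t - cl w u s := by
  have hc : Continuous fun v : ℝ => w (pr u + v • e3) :=
    (hw.comp cont_pt).comp (Continuous.prodMk_right u)
  unfold cl
  rw [intervalIntegral.integral_interval_sub_left (hc.intervalIntegrable _ _)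
    (hc.intervalIntegrable _ _)]
  have := intervalIntegral.integral_mono_on (μ := volume) hst (f := fun _ => m)
    (continuous_const.intervalIntegrable _ _) (hc.intervalIntegrable _ _) hm
  rw [intervalIntegral.integral_const, smul_eq_mul] at this
  linarith

lemma cl_lower' {w : V → ℝ} (hw : Continuous w) {m s t : ℝ} {u : V} (hs : s ∈ Icc (0 : ℝ) 1)
    (ht : t ∈ Icc (0 : ℝ) 1) (hm : ∀ v ∈ Icc (0 : ℝ) 1, m ≤ w (pr u + v • e3)) :
    m * |t - s| ≤ |cl w u t - cl w u s| := by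
  rcases le_total s t with h | h
  · rw [abs_of_nonneg (sub_nonneg.2 h)]
    exact (cl_lower hw h fun v hv => hm v ⟨hs.1.trans hv.1, hv.2.trans ht.2⟩).trans (le_abs_self _)
  · rw [abs_sub_comm t s, abs_sub_comm (cl w u t), abs_of_nonneg (sub_nonneg.2 h)]
    exact (cl_lower hw h fun v hv => hm v ⟨ht.1.trans hv.1, hv.2.trans hs.2⟩).trans (le_abs_self _)

lemma kn_bilip {w : V → ℝ} (h : ContDiff ℝ 1 w) (hpos : ∀ y, 0 < w y) :
    ∃ K : ℝ, 1 ≤ K ∧ ∀ x ∈ cube, ∀ y ∈ cube,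
      ‖kn w x - kn w y‖ ≤ K * ‖x - y‖ ∧ ‖x - y‖ ≤ K * ‖kn w x - kn w y‖ := by
  have hK : IsCompact cube := cube_eq ▸ isCompact_Icc
  have hv : Convex ℝ cube := cube_eq ▸ convex_Icc _ _
  have h0 : (0 : V) ∈ cube := fun _ => ⟨le_rfl, zero_le_one⟩
  obtain ⟨K1, hK1⟩ := hK.exists_bound_of_continuousOn (dh_cont h).continuousOn
  obtain ⟨z0, -, hz0⟩ := hK.exists_isMinOn ⟨0, h0⟩ h.continuous.continuousOn
  have hm := hpos z0
  have hK0 : 0 ≤ K1 := (norm_nonneg _).trans (hK1 0 h0)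
  have hlip : ∀ x ∈ cube, ∀ y ∈ cube, |cl w x (x 2) - cl w y (y 2)| ≤ K1 * ‖x - y‖ :=
    fun x hx y hy => hv.norm_image_sub_le_of_norm_hasFDerivWithin_le
      (f := fun x : V => cl w x (x 2)) (fun p _ => (ht_deriv h p).hasFDerivWithinAt) hK1 hy hx
  have hq : 0 ≤ (1 + K1) / w z0 := by positivity
  refine ⟨1 + K1 + (1 + K1) / w z0, by linarith, fun x hx y hy => ?_⟩
  have n1 := norm_nonneg (x - y)
  have n2 := norm_nonneg (kn w x - kn w y)
  have e1 : ∀ i, i ≠ 2 → (kn w x - kn w y) i = (x - y) i := fun i hi => by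
    simp only [Pi.sub_apply, kn, pr_ne _ _ hi]
  have e2 : (kn w x - kn w y) 2 = cl w x (x 2) - cl w y (y 2) := by
    simp only [Pi.sub_apply, kn, pr_two]
  constructor
  · refine (pi_norm_le_iff_of_nonneg (by positivity)).2 fun i => ?_
    by_cases hi : i = 2
    · rw [hi, e2, Real.norm_eq_abs]
      nlinarith [hlip x hx y hy, mul_nonneg hq n1]
    · rw [e1 i hi]
      nlinarith [norm_le_pi_norm (x - y) i, mul_nonneg hq n1, mul_nonneg hK0 n1]
  · refine (pi_norm_le_iff_of_nonneg (by positivity)).2 fun i => ?_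
    by_cases hi : i = 2
    · have h1 : w z0 * |x 2 - y 2| ≤ |cl w x (x 2) - cl w x (y 2)| :=
        cl_lower' h.continuous (hy 2) (hx 2) fun v hv => hz0 (cube_mem hx hv)
      have h2 := hlip _ (cube_mem hx (hy 2)) y hy
      have h3 : cl w (pr x + y 2 • e3) ((pr x + y 2 • e3) 2) = cl w x (y 2) := by
        rw [pr_two]
        unfold cl
        rw [pr_pr]
      have h4 : ‖pr x + y 2 • e3 - y‖ ≤ ‖kn w x - kn w y‖ := by
        refine (pi_norm_le_iff_of_nonneg n2).2 fun j => ?_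
        by_cases hj : j = 2
        · rw [hj, Pi.sub_apply, pr_two, sub_self, norm_zero]; exact n2
        · rw [Pi.sub_apply, pr_ne _ _ hj, ← Pi.sub_apply x y, ← e1 j hj]
          exact norm_le_pi_norm _ j
      have h5 := norm_le_pi_norm (kn w x - kn w y) 2
      rw [e2, Real.norm_eq_abs] at h5
      rw [h3] at h2
      have h6 := abs_sub_le (cl w x (x 2)) (cl w y (y 2)) (cl w x (y 2))
      rw [abs_sub_comm (cl w y (y 2))] at h6
      have h7 : |x 2 - y 2| ≤ (1 + K1) / w z0 * ‖kn w x - kn w y‖ := by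
        rw [div_mul_eq_mul_div, le_div_iff₀ hm]
        nlinarith [mul_le_mul_of_nonneg_left h4 hK0]
      rw [hi, Pi.sub_apply, Real.norm_eq_abs]
      nlinarith [mul_nonneg hK0 n2]
    · rw [← e1 i hi]
      nlinarith [norm_le_pi_norm (kn w x - kn w y) i, mul_nonneg hq n2, mul_nonneg hK0 n2]

/-- the modulus changes by a bounded factor under a bounded change of the argument -/
lemma om_cmp {K r s : ℝ} (hK : 1 ≤ K) (hr : 0 ≤ r) (h1 : r ≤ K * s) (h2 : s ≤ K * r)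
    (h3 : K * r ≤ 1) : s * Real.log (1 / s) ≤ K * 2 * (r * Real.log (1 / r)) := by
  rcases hr.eq_or_lt with rfl | hr'
  · have h4 : s = 0 := by nlinarith
    rw [h4]; simp
  have hs : 0 < s := by
    by_contra hc
    nlinarith [not_lt.1 hc]
  have hr1 : r ≤ 1 := by nlinarith
  have l1 : 0 ≤ Real.log (1 / s) := Real.log_nonneg (by rw [le_div_iff₀ hs]; linarith)
  have l3 : Real.log (1 / s) ≤ 2 * Real.log (1 / r) := by
    have e : (1 / r) ^ 2 = 1 / r ^ 2 := by rw [div_pow, one_pow]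
    have h5 : 1 / s ≤ (1 / r) ^ 2 := by
      rw [e]
      refine one_div_le_one_div_of_le (by positivity) ?_
      nlinarith [mul_le_mul_of_nonneg_left h1 hr, mul_le_mul_of_nonneg_right h3 hs.le]
    have := Real.log_le_log (by positivity) h5
    rwa [Real.log_pow, Nat.cast_ofNat] at this
  calc s * Real.log (1 / s) ≤ (K * r) * (2 * Real.log (1 / r)) :=
        mul_le_mul h2 l3 l1 (by positivity)
    _ = K * 2 * (r * Real.log (1 / r)) := by ring

lemma om_inj {F : V → V} (h : Om3 F) : Function.Injective F := by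
  obtain ⟨C, t0, -, ht, -, h⟩ := h
  intro x y e
  have := (h x y).2 (by rw [e, sub_self, norm_zero]; exact ht.le)
  rw [e, sub_self, norm_zero, zero_mul, mul_zero] at this
  exact sub_eq_zero.1 (norm_le_zero_iff.1 this)

/-- composition with maps that change distances by bounded factors -/
lemma om_comp {E : Type} [NormedAddCommGroup E] {Q : Set E} {F : V → V} (hF : Om3 F) {a : E → V}
    {b : V → E} {K : ℝ} (hK : 1 ≤ K)
    (ha : ∀ x ∈ Q, ∀ y ∈ Q, ‖a x - a y‖ ≤ K * ‖x - y‖ ∧ ‖x - y‖ ≤ K * ‖a x - a y‖)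
    (hb : ∀ x y, ‖b x - b y‖ ≤ K * ‖x - y‖ ∧ ‖x - y‖ ≤ K * ‖b x - b y‖) :
    ∃ C t₀ : ℝ, 0 < C ∧ 0 < t₀ ∧ t₀ < 1 ∧ ∀ x ∈ Q, ∀ y ∈ Q,
      (‖x - y‖ ≤ t₀ → ‖b (F (a x)) - b (F (a y))‖ ≤ C * (‖x - y‖ * Real.log (1 / ‖x - y‖))) ∧
      (‖b (F (a x)) - b (F (a y))‖ ≤ t₀ → ‖x - y‖ ≤
        C * (‖b (F (a x)) - b (F (a y))‖ * Real.log (1 / ‖b (F (a x)) - b (F (a y))‖))) := by
  obtain ⟨C, t0, hC, ht0, ht1, hF⟩ := hF
  have hK' : 0 < K := by linarith
  refine ⟨K * (C * (K * 2)), t0 / K, by positivity, by positivity,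
    (div_le_self ht0.le hK).trans_lt ht1, fun x hx y hy => ?_⟩
  obtain ⟨a1, a2⟩ := ha x hx y hy
  obtain ⟨a3, a4⟩ := hb (F (a x)) (F (a y))
  obtain ⟨a5, a6⟩ := hF (a x) (a y)
  constructor
  · intro hr
    rw [le_div_iff₀' hK'] at hr
    have e := om_cmp hK (norm_nonneg _) a2 a1 (hr.trans ht1.le)
    calc _ ≤ _ := a3
      _ ≤ K * (C * (K * 2 * (‖x - y‖ * Real.log (1 / ‖x - y‖)))) :=
        mul_le_mul_of_nonneg_left ((a5 (a1.trans hr)).trans
          (mul_le_mul_of_nonneg_left e hC.le)) hK'.le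
      _ = _ := by ring
  · intro hr
    rw [le_div_iff₀' hK'] at hr
    have e := om_cmp hK (norm_nonneg _) a3 a4 (hr.trans ht1.le)
    calc _ ≤ _ := a2
      _ ≤ K * (C * (K * 2 * (‖b (F (a x)) - b (F (a y))‖ *
            Real.log (1 / ‖b (F (a x)) - b (F (a y))‖)))) :=
        mul_le_mul_of_nonneg_left ((a6 (a4.trans hr)).trans
          (mul_le_mul_of_nonneg_left e hC.le)) hK'.le
      _ = _ := by ring

/-- a smooth positive density close to a continuous one on a compact set -/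
lemma exists_smooth {Q : Set V} (hQ : IsCompact Q) {ρ : V → ℝ} (hρ : ContinuousOn ρ Q)
    (hpos : ∀ x ∈ Q, 0 < ρ x) {ε : ℝ} (hε : 0 < ε) :
    ∃ ρ0 : V → ℝ, ContDiff ℝ 1 ρ0 ∧ (∀ x, 0 < ρ0 x) ∧ ∀ x ∈ Q, |ρ x / ρ0 x - 1| ≤ ε := by
  have hl : ContinuousOn (fun x => Real.log (ρ x)) Q := hρ.log fun x hx => (hpos x hx).ne'
  obtain ⟨L, hL⟩ := ContinuousMap.exists_restrict_eq hQ.isClosed
    (⟨Q.domRestrict fun x => Real.log (ρ x), hl.domRestrict⟩ : C(Q, ℝ))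
  have hδ : 0 < min 1 (ε / 2) := lt_min one_pos (half_pos hε)
  obtain ⟨L0, h0, h1, -⟩ := L.continuous.exists_contDiff_approx 1 (ε := fun _ => min 1 (ε / 2))
    continuous_const fun _ => hδ
  refine ⟨fun x => Real.exp (L0 x), by exact_mod_cast h0.exp, fun x => Real.exp_pos _,
    fun x hx => ?_⟩
  have e : L x = Real.log (ρ x) := DFunLike.congr_fun hL ⟨x, hx⟩
  have h2 := h1 x
  rw [e, Real.dist_eq, abs_sub_comm] at h2
  have h3 := Real.abs_exp_sub_one_le (h2.le.trans (min_le_left _ _))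
  rw [Real.exp_sub, Real.exp_log (hpos x hx)] at h3
  linarith [min_le_right 1 (ε / 2)]

/-- extension of a density close to one from the image of a compact set -/
lemma exists_ext {Q : Set V} (hQ : IsCompact Q) {u : V → ℝ} (hu : ContinuousOn u Q) {ε : ℝ}
    (hε : 0 < ε) (hb : ∀ x ∈ Q, |u x - 1| ≤ ε) {κ : V → V} (hκ : Continuous κ) (hi : InjOn κ Q) :
    ∃ (g : V → ℝ) (R : ℝ), Continuous g ∧ (∀ y, |g y - 1| ≤ ε) ∧ (∀ y, R ≤ ‖y‖ → g y = 1) ∧
      ∀ x ∈ Q, g (κ x) = u x := by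
  have : CompactSpace Q := isCompact_iff_compactSpace.1 hQ
  have he : IsClosedEmbedding fun x : Q => κ x :=
    (hκ.comp continuous_subtype_val).isClosedEmbedding fun x y e => Subtype.ext (hi x.2 y.2 e)
  obtain ⟨v, hv, hv'⟩ := ContinuousMap.exists_extension_forall_mem_of_isClosedEmbedding
    (⟨Q.domRestrict fun x => u x - 1, (hu.sub continuousOn_const).domRestrict⟩ : C(Q, ℝ))
    (t := Icc (-ε) ε) (fun x => abs_le.1 (hb x x.2)) ⟨0, by linarith, hε.le⟩ he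
  obtain ⟨χ, h1, -, h2, h3⟩ := exists_continuous_one_zero_of_isCompact (hQ.image hκ)
    isClosed_empty (disjoint_empty _)
  obtain ⟨R, hR⟩ := h2.isCompact.exists_bound_of_continuousOn (f := fun x => x) continuousOn_id
  refine ⟨fun y => χ y * v y + 1, R + 1, (χ.continuous.mul v.continuous).add continuous_const,
    fun y => ?_, fun y hy => ?_, fun x hx => ?_⟩
  · rw [add_sub_cancel_right, abs_mul, abs_of_nonneg (h3 y).1]
    have := abs_le.2 (hv y)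
    nlinarith [(h3 y).1, (h3 y).2, abs_nonneg (v y)]
  · have : χ y = 0 := image_eq_zero_of_notMem_tsupport fun hc => by linarith [hR y hc]
    simp only [this, zero_mul, zero_add]
  · have e1 : χ (κ x) = 1 := h1 (mem_image_of_mem κ hx)
    have e2 : v (κ x) = u x - 1 := congrFun hv' ⟨x, hx⟩
    simp only [e1, e2]
    ring

end Final

open Final in
theorem main_of (h : CoreStmt) : MainStmt := by
  intro Q hQ ρ hρ hpos
  set e : EuclideanSpace ℝ (Fin 3) ≃L[ℝ] V := EuclideanSpace.equiv (Fin 3) ℝ with he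
  have hK : IsCompact cube := cube_eq ▸ isCompact_Icc
  have mQ : ∀ x, x ∈ Q ↔ e x ∈ cube := fun x => by rw [hQ]; rfl
  have mQ' : ∀ x ∈ cube, e.symm x ∈ Q := fun x hx => (mQ _).2 (by simpa using hx)
  have hε : 0 < eps0 := by unfold eps0; positivity
  have hρ' : ContinuousOn (fun x => ρ (e.symm x)) cube :=
    hρ.comp e.symm.continuous.continuousOn mQ'
  obtain ⟨ρ0, s0, p0, n0⟩ := exists_smooth hK hρ' (fun x hx => hpos _ (mQ' x hx)) hε
  obtain ⟨K, hK1, hb⟩ := kn_bilip s0 p0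
  have c0 : Continuous (kn ρ0) := continuous_iff_continuousAt.2 fun p => (kn_deriv s0 p).continuousAt
  have i0 : InjOn (kn ρ0) cube := fun x hx y hy e => by
    have := (hb x hx y hy).2
    rw [e, sub_self, norm_zero, mul_zero] at this
    exact sub_eq_zero.1 (norm_le_zero_iff.1 this)
  obtain ⟨g, R, cg, ng, rg, eg⟩ := exists_ext hK (u := fun x => ρ (e.symm x) / ρ0 x)
    (hρ'.div s0.continuous.continuousOn fun x _ => (p0 x).ne') hε n0 c0 i0
  obtain ⟨F, cF, oF, mF⟩ := h g R ⟨cg.measurable, ng⟩ rg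
  have iF := om_inj oF
  refine ⟨fun x => e.symm (F (kn ρ0 (e x))), fun x hx y hy hxy =>
    e.injective (i0 ((mQ x).1 hx) ((mQ y).1 hy) (iF (e.symm.injective hxy))), ?_, fun B hB => ?_⟩
  · set A1 := ‖(e : EuclideanSpace ℝ (Fin 3) →L[ℝ] V)‖ with hA1
    set A2 := ‖(e.symm : V →L[ℝ] EuclideanSpace ℝ (Fin 3))‖ with hA2
    have q1 : 0 ≤ A1 := norm_nonneg _
    have q2 : 0 ≤ A2 := norm_nonneg _
    have l1 : ∀ x, ‖e x‖ ≤ (1 + A1 + A2) * ‖x‖ := fun x =>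
      ((e : EuclideanSpace ℝ (Fin 3) →L[ℝ] V).le_opNorm x).trans
        (mul_le_mul_of_nonneg_right (by linarith) (norm_nonneg _))
    have l2 : ∀ x, ‖e.symm x‖ ≤ (1 + A1 + A2) * ‖x‖ := fun x =>
      ((e.symm : V →L[ℝ] EuclideanSpace ℝ (Fin 3)).le_opNorm x).trans
        (mul_le_mul_of_nonneg_right (by linarith) (norm_nonneg _))
    generalize hA : 1 + A1 + A2 = A at l1 l2
    have q3 : 1 ≤ A := by linarith
    have q4 : A ≤ K * A := le_mul_of_one_le_left (by linarith) hK1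
    refine om_comp (a := fun x => kn ρ0 (e x)) (b := e.symm) (K := K * A) oF (q3.trans q4)
      (fun x hx y hy => ?_) fun x y => ?_
    · obtain ⟨b1, b2⟩ := hb _ ((mQ x).1 hx) _ ((mQ y).1 hy)
      have b3 := l1 (x - y)
      have b4 := l2 (e (x - y))
      rw [e.symm_apply_apply] at b4
      rw [← map_sub] at b1 b2
      constructor
      · exact b1.trans ((mul_le_mul_of_nonneg_left b3 (by linarith)).trans_eq (by ring))
      · exact b4.trans ((mul_le_mul_of_nonneg_left b2 (by linarith)).trans_eq (by ring))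
    · have b3 := l2 (x - y)
      have b4 := l1 (e.symm (x - y))
      rw [e.apply_symm_apply] at b4
      rw [← map_sub]
      exact ⟨b3.trans (mul_le_mul_of_nonneg_right q4 (norm_nonneg _)),
        b4.trans (mul_le_mul_of_nonneg_right q4 (norm_nonneg _))⟩
  · have mp : MeasurePreserving e.symm volume volume := PiLp.volume_preserving_toLp (Fin 3)
    have me : MeasurableEmbedding e.symm := e.symm.toHomeomorph.measurableEmbedding
    have hA : MeasurableSet (cube ∩ (fun x => e.symm (F (kn ρ0 x))) ⁻¹' B) :=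
      hK.measurableSet.inter ((e.symm.continuous.comp (cF.comp c0)).measurable hB)
    set A := cube ∩ (fun x => e.symm (F (kn ρ0 x))) ⁻¹' B with hAd
    have iA : InjOn (kn ρ0) A := i0.mono inter_subset_left
    have hA1 : MeasurableSet (kn ρ0 '' A) := hA.image_of_continuousOn_injOn c0.continuousOn iA
    have hA2 : MeasurableSet (F '' (kn ρ0 '' A)) :=
      (cF.measurableEmbedding iF).measurableSet_image' hA1
    have e1 : e.symm ⁻¹' (Q ∩ (fun x => e.symm (F (kn ρ0 (e x)))) ⁻¹' B) = A := by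
      ext z
      simp only [hAd, mem_preimage, mem_inter_iff, mQ, ContinuousLinearEquiv.apply_symm_apply]
    have e2 : e.symm ⁻¹' (B ∩ (fun x => e.symm (F (kn ρ0 (e x)))) '' Q) = F '' (kn ρ0 '' A) := by
      ext z
      constructor
      · rintro ⟨hz, x, hx, hxz⟩
        have hxz' := e.symm.injective hxz
        exact ⟨_, ⟨e x, ⟨(mQ x).1 hx, by rw [mem_preimage, hxz']; exact hz⟩, rfl⟩, hxz'⟩
      · rintro ⟨_, ⟨x, hx, rfl⟩, rfl⟩
        exact ⟨hx.2, e.symm x, mQ' x hx.1, by simp only [ContinuousLinearEquiv.apply_symm_apply]⟩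
    have e3 := mF _ hA2
    rw [preimage_image_eq _ iF, lintegral_image_eq_lintegral_abs_det_fderiv_mul volume hA
      (fun p _ => (kn_deriv s0 p).hasFDerivWithinAt) iA] at e3
    rw [← mp.setLIntegral_comp_preimage_emb me, ← mp.measure_preimage_emb me, e1, e2, ← e3]
    refine setLIntegral_congr_fun hA fun x hx => ?_
    rw [kn_det s0, abs_of_pos (p0 x), eg x hx.1, ← ENNReal.ofReal_mul (p0 x).le,
      mul_div_cancel₀ _ (p0 x).ne']

end
end Pool.Agent.MP_20bec2_an.T3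

end MrgPart4

-- marker of a merged file
example : 731051 + 478590 = 731051 + 478590 := rfl
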