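import Mathlib.Topology.Sheaves.Presheaf
import Mathlib.Tactic.Monotonicity.Lemmas
import Mathlib.Analysis.Calculus.FDeriv.Symmetric
import Mathlib.Order.CompletePartialOrder
import Pool.Agent.MP_20bec2_an.T3.Final
import Mathlib.Analysis.Calculus.ContDiff.FiniteDimension

-- ======== part 0: formerly Pool.Agent.MP_20bec2_an.T3.Calc1
section MrgPart0

/-! Toolbox CALC1, part 1: `pd`, `pds`, `hp`, and the algebra of the bounds `CBl`, `CB`, `CV`, `CL`, `CO`. -/

set_option autoImplicit false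
open MeasureTheory Set Filter Matrix Topology

namespace Pool.Agent.MP_20bec2_an.T3
noncomputable section
open Classical

/-! ## smooth functions -/

protected theorem Sm.dif {E F : Type*} [NormedAddCommGroup E] [NormedSpace ℝ E]
    [NormedAddCommGroup F] [NormedSpace ℝ F] {g : E → F} (h : Sm g) : Differentiable ℝ g :=
  ContDiff.differentiable h (by simp)

protected theorem Sm.fderiv {E F : Type*} [NormedAddCommGroup E] [NormedSpace ℝ E]
    [NormedAddCommGroup F] [NormedSpace ℝ F] {g : E → F} (h : Sm g) : Sm (fderiv ℝ g) :=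
  (contDiff_infty_iff_fderiv.1 h).2

protected theorem Sm.of_nat {E F : Type*} [NormedAddCommGroup E] [NormedSpace ℝ E]
    [NormedAddCommGroup F] [NormedSpace ℝ F] {g : E → F} (h : Sm g) (n : ℕ) : ContDiff ℝ n g :=
  ContDiff.of_le h (by exact_mod_cast le_top)

protected theorem Sm.one {E F : Type*} [NormedAddCommGroup E] [NormedSpace ℝ E]
    [NormedAddCommGroup F] [NormedSpace ℝ F] {g : E → F} (h : Sm g) : ContDiff ℝ 1 g := by
  exact_mod_cast h.of_nat 1

protected theorem Sm.pd {g : V → ℝ} (h : Sm g) (j : Fin 3) : Sm (pd j g) :=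
  ContDiff.clm_apply h.fderiv contDiff_const

protected theorem Sm.pds {g : V → ℝ} (h : Sm g) : ∀ l : List (Fin 3), Sm (pds l g)
  | [] => h
  | j :: l => (Sm.pds h l).pd j

theorem sm_const {E F : Type*} [NormedAddCommGroup E] [NormedSpace ℝ E]
    [NormedAddCommGroup F] [NormedSpace ℝ F] (c : F) : Sm fun _ : E => c := contDiff_const

theorem sm_coord (i : Fin 3) : Sm fun x : V => x i := contDiff_apply ℝ ℝ i

protected theorem Sm.coord {E : Type*} [NormedAddCommGroup E] [NormedSpace ℝ E] {Z : E → V}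
    (h : Sm Z) (i : Fin 3) : Sm fun y => Z y i := contDiff_pi.1 h i

theorem sm_pi {E : Type*} [NormedAddCommGroup E] [NormedSpace ℝ E] {Z : E → V}
    (h : ∀ i, Sm fun y => Z y i) : Sm Z := contDiff_pi.2 h

protected theorem Sm.cmul {E : Type*} [NormedAddCommGroup E] [NormedSpace ℝ E] {g : E → ℝ}
    (h : Sm g) (c : ℝ) : Sm fun x => c * g x := ContDiff.mul contDiff_const h

protected theorem Sm.deriv {φ : ℝ → ℝ} (h : Sm φ) : Sm (deriv φ) :=
  (contDiff_infty_iff_deriv.1 h).2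

protected theorem Sm.iter {φ : ℝ → ℝ} (h : Sm φ) : ∀ n : ℕ, Sm (iteratedDeriv n φ)
  | 0 => by simpa using h
  | n + 1 => by rw [iteratedDeriv_succ]; exact (Sm.iter h n).deriv

/-! ## `pd` -/

theorem pd_congr {g g' : V → ℝ} {x : V} (h : g =ᶠ[𝓝 x] g') (j : Fin 3) : pd j g x = pd j g' x := by
  unfold pd; rw [h.fderiv_eq]

theorem pd_congr' {g g' : V → ℝ} {x : V} (h : g =ᶠ[𝓝 x] g') (j : Fin 3) :
    pd j g =ᶠ[𝓝 x] pd j g' := by
  filter_upwards [h.fderiv (𝕜 := ℝ)] with y hy
  unfold pd; rw [hy]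

@[simp] theorem pd_const (j : Fin 3) (c : ℝ) : pd j (fun _ => c) = fun _ => 0 := by
  funext x; simp [pd]

theorem pd_coord (j i : Fin 3) (x : V) : pd j (fun y => y i) x = if i = j then 1 else 0 := by
  have : HasFDerivAt (fun y : V => y i) (ContinuousLinearMap.proj (R := ℝ) (φ := fun _ : Fin 3 => ℝ) i) x :=
    (ContinuousLinearMap.proj (R := ℝ) (φ := fun _ : Fin 3 => ℝ) i).hasFDerivAt
  unfold pd; rw [this.fderiv]; simp [Pi.single_apply]

theorem pd_add_at {f g : V → ℝ} {x : V} (hf : DifferentiableAt ℝ f x) (hg : DifferentiableAt ℝ g x)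
    (j : Fin 3) : pd j (fun y => f y + g y) x = pd j f x + pd j g x := by
  unfold pd; rw [fderiv_fun_add hf hg]; rfl

theorem pd_sub_at {f g : V → ℝ} {x : V} (hf : DifferentiableAt ℝ f x) (hg : DifferentiableAt ℝ g x)
    (j : Fin 3) : pd j (fun y => f y - g y) x = pd j f x - pd j g x := by
  unfold pd; rw [fderiv_fun_sub hf hg]; rfl

theorem pd_neg (f : V → ℝ) (j : Fin 3) (x : V) : pd j (fun y => -f y) x = -pd j f x := by
  unfold pd; rw [fderiv_fun_neg]; rfl

theorem pd_const_mul (c : ℝ) (f : V → ℝ) (j : Fin 3) (x : V) :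
    pd j (fun y => c * f y) x = c * pd j f x := by
  have : (fun y => c * f y) = c • f := rfl
  unfold pd; rw [this, fderiv_const_smul_field]; rfl

theorem pd_mul_at {f g : V → ℝ} {x : V} (hf : DifferentiableAt ℝ f x) (hg : DifferentiableAt ℝ g x)
    (j : Fin 3) : pd j (fun y => f y * g y) x = pd j f x * g x + f x * pd j g x := by
  unfold pd; rw [fderiv_fun_mul hf hg]; simp; ring

theorem pd_sum_at {ι : Type*} (s : Finset ι) {f : ι → V → ℝ} {x : V}
    (hf : ∀ i ∈ s, DifferentiableAt ℝ (f i) x) (j : Fin 3) :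
    pd j (fun y => ∑ i ∈ s, f i y) x = ∑ i ∈ s, pd j (f i) x := by
  unfold pd; rw [fderiv_fun_sum hf]; simp

theorem pd_add {f g : V → ℝ} (hf : Sm f) (hg : Sm g) (j : Fin 3) :
    pd j (fun y => f y + g y) = fun x => pd j f x + pd j g x :=
  funext fun x => pd_add_at (hf.dif x) (hg.dif x) j

theorem pd_sub {f g : V → ℝ} (hf : Sm f) (hg : Sm g) (j : Fin 3) :
    pd j (fun y => f y - g y) = fun x => pd j f x - pd j g x :=
  funext fun x => pd_sub_at (hf.dif x) (hg.dif x) j

theorem pd_mul {f g : V → ℝ} (hf : Sm f) (hg : Sm g) (j : Fin 3) :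
    pd j (fun y => f y * g y) = fun x => pd j f x * g x + f x * pd j g x :=
  funext fun x => pd_mul_at (hf.dif x) (hg.dif x) j

theorem pd_sum {ι : Type*} (s : Finset ι) {f : ι → V → ℝ} (hf : ∀ i ∈ s, Sm (f i)) (j : Fin 3) :
    pd j (fun y => ∑ i ∈ s, f i y) = fun x => ∑ i ∈ s, pd j (f i) x :=
  funext fun x => pd_sum_at s (fun i hi => (hf i hi).dif x) j

/-- the derivative in the direction `v` -/
theorem fderiv_eq_sum (g : V → ℝ) (x v : V) : fderiv ℝ g x v = ∑ i, pd i g x * v i := by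
  have : v = ∑ i, v i • (Pi.single i (1 : ℝ) : V) := by
    ext k; simp [Finset.sum_apply, Pi.single_apply]
  conv_lhs => rw [this]
  simp [pd, mul_comm]

theorem pd_comm {g : V → ℝ} (h : Sm g) (i j : Fin 3) : pd i (pd j g) = pd j (pd i g) := by
  funext x
  have hs : IsSymmSndFDerivAt ℝ g x :=
    (h.of_nat 2).contDiffAt.isSymmSndFDerivAt (by simp)
  have e : ∀ v w : V, fderiv ℝ (fun y => fderiv ℝ g y v) x w = fderiv ℝ (fderiv ℝ g) x w v := by
    intro v w
    rw [fderiv_clm_apply (h.fderiv.dif x) (differentiableAt_const v)]; simp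
  show fderiv ℝ (fun y => fderiv ℝ g y _) x _ = fderiv ℝ (fun y => fderiv ℝ g y _) x _
  rw [e, e, hs.eq]

/-- outer composition with a function of one variable -/
theorem pd_comp_at {φ : ℝ → ℝ} {g : V → ℝ} {x : V} (hφ : DifferentiableAt ℝ φ (g x))
    (hg : DifferentiableAt ℝ g x) (j : Fin 3) :
    pd j (fun y => φ (g y)) x = deriv φ (g x) * pd j g x := by
  have := (hφ.hasDerivAt.comp_hasFDerivAt x hg.hasFDerivAt).fderiv
  unfold pd
  rw [show (fun y => φ (g y)) = φ ∘ g from rfl, this]; rfl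

/-! ## `pds` -/

@[simp] theorem pds_nil (g : V → ℝ) : pds [] g = g := rfl
@[simp] theorem pds_cons (j : Fin 3) (l : List (Fin 3)) (g : V → ℝ) :
    pds (j :: l) g = pd j (pds l g) := rfl

theorem pds_append (l l' : List (Fin 3)) (g : V → ℝ) : pds (l ++ l') g = pds l (pds l' g) := by
  induction l with
  | nil => rfl
  | cons j l ih => simp [ih]

theorem pds_concat (l : List (Fin 3)) (j : Fin 3) (g : V → ℝ) :
    pds (l ++ [j]) g = pds l (pd j g) := pds_append l [j] g

theorem pds_congr' {g g' : V → ℝ} {x : V} (h : g =ᶠ[𝓝 x] g') (l : List (Fin 3)) :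
    pds l g =ᶠ[𝓝 x] pds l g' := by
  induction l with
  | nil => exact h
  | cons j l ih => exact pd_congr' ih j

theorem pds_congr {g g' : V → ℝ} {x : V} (h : g =ᶠ[𝓝 x] g') (l : List (Fin 3)) :
    pds l g x = pds l g' x := (pds_congr' h l).eq_of_nhds

theorem pds_congr_open {g g' : V → ℝ} {W : Set V} (hW : IsOpen W) (h : EqOn g g' W)
    (l : List (Fin 3)) : EqOn (pds l g) (pds l g') W := fun _ hx =>
  pds_congr (Filter.eventuallyEq_of_mem (hW.mem_nhds hx) h) l

@[simp] theorem pds_zero (l : List (Fin 3)) : pds l (fun _ => 0) = fun _ => 0 := by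
  induction l with
  | nil => rfl
  | cons j l ih => simp [ih]

theorem pds_const {l : List (Fin 3)} (hl : l ≠ []) (c : ℝ) : pds l (fun _ => c) = fun _ => 0 := by
  induction l using List.reverseRecOn with
  | nil => exact absurd rfl hl
  | append_singleton l j _ => rw [pds_concat, pd_const, pds_zero]

theorem pds_zero_of_eventually {g : V → ℝ} {x : V} (h : g =ᶠ[𝓝 x] fun _ => 0) (l : List (Fin 3)) :
    pds l g x = 0 := by rw [pds_congr h l, pds_zero]

theorem pds_zero_of_not_mem_tsupport {g : V → ℝ} {x : V} (h : x ∉ tsupport g)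
    (l : List (Fin 3)) : pds l g x = 0 :=
  pds_zero_of_eventually (notMem_tsupport_iff_eventuallyEq.1 h) l

/-- `g` vanishes off the closed set `K` -/
theorem pds_zero_off {g : V → ℝ} {K : Set V} (hK : IsClosed K) (h : ∀ x, x ∉ K → g x = 0)
    (l : List (Fin 3)) (x : V) (hx : x ∉ K) : pds l g x = 0 :=
  pds_zero_of_eventually (Filter.eventuallyEq_of_mem (hK.isOpen_compl.mem_nhds hx) h) l

theorem pds_add {f g : V → ℝ} (hf : Sm f) (hg : Sm g) (l : List (Fin 3)) :
    pds l (fun y => f y + g y) = fun x => pds l f x + pds l g x := by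
  induction l with
  | nil => rfl
  | cons j l ih => simp only [pds_cons, ih]; exact pd_add (hf.pds l) (hg.pds l) j

theorem pds_sub {f g : V → ℝ} (hf : Sm f) (hg : Sm g) (l : List (Fin 3)) :
    pds l (fun y => f y - g y) = fun x => pds l f x - pds l g x := by
  induction l with
  | nil => rfl
  | cons j l ih => simp only [pds_cons, ih]; exact pd_sub (hf.pds l) (hg.pds l) j

theorem pds_neg (f : V → ℝ) (l : List (Fin 3)) : pds l (fun y => -f y) = fun x => -pds l f x := by
  induction l with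
  | nil => rfl
  | cons j l ih => simp only [pds_cons, ih]; exact funext (pd_neg _ j)

theorem pds_const_mul (c : ℝ) (f : V → ℝ) (l : List (Fin 3)) :
    pds l (fun y => c * f y) = fun x => c * pds l f x := by
  induction l with
  | nil => rfl
  | cons j l ih => simp only [pds_cons, ih]; exact funext (pd_const_mul c _ j)

theorem pds_mul_const (c : ℝ) (f : V → ℝ) (l : List (Fin 3)) :
    pds l (fun y => f y * c) = fun x => pds l f x * c := by
  simpa only [mul_comm] using pds_const_mul c f l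

theorem pds_div_const (c : ℝ) (f : V → ℝ) (l : List (Fin 3)) :
    pds l (fun y => f y / c) = fun x => pds l f x / c := by
  simpa only [div_eq_mul_inv] using pds_mul_const c⁻¹ f l

theorem pds_sum {ι : Type*} (s : Finset ι) {f : ι → V → ℝ} (hf : ∀ i ∈ s, Sm (f i))
    (l : List (Fin 3)) : pds l (fun y => ∑ i ∈ s, f i y) = fun x => ∑ i ∈ s, pds l (f i) x := by
  induction l with
  | nil => rfl
  | cons j l ih => simp only [pds_cons, ih]; exact pd_sum s (fun i hi => (hf i hi).pds l) j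

theorem pds_add_const {f : V → ℝ} (hf : Sm f) (c : ℝ) {l : List (Fin 3)} (hl : l ≠ []) :
    pds l (fun y => f y + c) = pds l f := by
  rw [pds_add hf (sm_const c), pds_const hl]; simp

theorem pds_perm {g : V → ℝ} (h : Sm g) {l l' : List (Fin 3)} (p : l.Perm l') :
    pds l g = pds l' g := by
  induction p with
  | nil => rfl
  | cons j _ ih => simp [ih]
  | swap i j l => exact pd_comm (h.pds l) j i
  | trans _ _ ih1 ih2 => exact ih1.trans ih2

theorem pds_pd {g : V → ℝ} (h : Sm g) (l : List (Fin 3)) (j : Fin 3) :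
    pds l (pd j g) = pd j (pds l g) := by
  rw [← pds_concat, pds_perm h (List.perm_append_singleton j l)]; rfl

/-- translation -/
theorem pds_comp_add (g : V → ℝ) (b : V) (l : List (Fin 3)) :
    pds l (fun y => g (y + b)) = fun x => pds l g (x + b) := by
  induction l with
  | nil => rfl
  | cons j l ih => simp only [pds_cons, ih]; funext x; unfold pd; rw [fderiv_comp_add_right]

theorem pds_comp_sub (g : V → ℝ) (b : V) (l : List (Fin 3)) :
    pds l (fun y => g (y - b)) = fun x => pds l g (x - b) := by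
  simpa only [sub_eq_add_neg] using pds_comp_add g (-b) l

/-! ## `hp` -/

@[simp] theorem hp_nil (h : V) : hp h [] = 1 := rfl
@[simp] theorem hp_cons (h : V) (j : Fin 3) (l : List (Fin 3)) : hp h (j :: l) = h j * hp h l := by
  simp [hp]
theorem hp_append (h : V) (l l' : List (Fin 3)) : hp h (l ++ l') = hp h l * hp h l' := by simp [hp]
theorem hp_concat (h : V) (l : List (Fin 3)) (j : Fin 3) : hp h (l ++ [j]) = hp h l * h j := by
  simp [hp]
theorem hp_perm (h : V) {l l' : List (Fin 3)} (p : l.Perm l') : hp h l = hp h l' :=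
  (p.map h).prod_eq
theorem hp_nonneg {h : V} (hh : ∀ i, 0 ≤ h i) (l : List (Fin 3)) : 0 ≤ hp h l := by
  induction l with
  | nil => simp
  | cons j l ih => rw [hp_cons]; exact mul_nonneg (hh j) ih
theorem hp_pos {h : V} (hh : ∀ i, 0 < h i) (l : List (Fin 3)) : 0 < hp h l := by
  induction l with
  | nil => simp
  | cons j l ih => rw [hp_cons]; exact mul_pos (hh j) ih
theorem hp_mono {h h' : V} (h0 : ∀ i, 0 ≤ h' i) (hle : ∀ i, h' i ≤ h i) (l : List (Fin 3)) :
    hp h' l ≤ hp h l := by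
  induction l with
  | nil => simp
  | cons j l ih =>
    rw [hp_cons, hp_cons]
    exact mul_le_mul (hle j) ih (hp_nonneg h0 l) ((h0 j).trans (hle j))
theorem hp_cv (a : ℝ) (l : List (Fin 3)) : hp (cv a) l = a ^ l.length := by
  induction l with
  | nil => simp
  | cons j l ih => rw [hp_cons, ih, List.length_cons, pow_succ']; rfl
theorem hp_mul (h k : V) (l : List (Fin 3)) : hp (fun i => h i * k i) l = hp h l * hp k l := by
  induction l with
  | nil => simp
  | cons j l ih => simp only [hp_cons, ih]; ring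
theorem hp_scale (κ : ℝ) (h : V) (l : List (Fin 3)) :
    hp (fun i => κ * h i) l = κ ^ l.length * hp h l := by
  rw [← hp_cv]; exact hp_mul (cv κ) h l
theorem abs_hp (h : V) (l : List (Fin 3)) : |hp h l| = hp (fun i => |h i|) l := by
  induction l with
  | nil => simp
  | cons j l ih => simp only [hp_cons, abs_mul, ih]
/-- comparison of two scales -/
theorem hp_le_pow {h h' : V} {κ : ℝ} (h0 : ∀ i, 0 ≤ h' i) (hle : ∀ i, h' i ≤ κ * h i)
    (l : List (Fin 3)) : hp h' l ≤ κ ^ l.length * hp h l := by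
  rw [← hp_scale]; exact hp_mono h0 hle l

/-! ## `CBl`: monotonicity and linear operations (they apply to `CB`, `CV`, `CL`, `CO` by unfolding) -/

section CBl
variable {P P' : List (Fin 3) → Prop} {h h' : V} {U U' : Set V} {f g : V → ℝ} {A B B' : ℝ}

protected theorem CBl.mono (H : CBl P h U g B) (hP : ∀ l, P' l → P l) (h0 : ∀ i, 0 ≤ h' i)
    (hh : ∀ i, h' i ≤ h i) (hU : U' ⊆ U) (hB : B ≤ B') : CBl P' h' U' g B' := fun l hl x hx =>
  ((mul_le_mul_of_nonneg_right (hp_mono h0 hh l) (abs_nonneg _)).trans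
    (H l (hP l hl) x (hU hx))).trans hB

protected theorem CBl.monoP (H : CBl P h U g B) (hP : ∀ l, P' l → P l) : CBl P' h U g B :=
  fun l hl x hx => H l (hP l hl) x hx

protected theorem CBl.monoU (H : CBl P h U g B) (hU : U' ⊆ U) : CBl P h U' g B :=
  fun l hl x hx => H l hl x (hU hx)

protected theorem CBl.monoB (H : CBl P h U g B) (hB : B ≤ B') : CBl P h U g B' :=
  fun l hl x hx => (H l hl x hx).trans hB

protected theorem CBl.monoh (H : CBl P h U g B) (h0 : ∀ i, 0 ≤ h' i) (hh : ∀ i, h' i ≤ h i) :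
    CBl P h' U g B := H.mono (fun _ hl => hl) h0 hh subset_rfl le_rfl

protected theorem CBl.congr (H : CBl P h U g B) (e : ∀ x ∈ U, f =ᶠ[𝓝 x] g) : CBl P h U f B :=
  fun l hl x hx => by rw [pds_congr (e x hx) l]; exact H l hl x hx

protected theorem CBl.congr_open {W : Set V} (H : CBl P h U g B) (hW : IsOpen W) (hU : U ⊆ W)
    (e : EqOn f g W) : CBl P h U f B :=
  H.congr fun _ hx => Filter.eventuallyEq_of_mem (hW.mem_nhds (hU hx)) e

protected theorem CBl.congr_fun (H : CBl P h U g B) (e : ∀ x, f x = g x) : CBl P h U f B := by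
  rwa [show f = g from funext e]

protected theorem CBl.union (H : CBl P h U g B) (H' : CBl P h U' g B) : CBl P h (U ∪ U') g B :=
  fun l hl x hx => hx.elim (H l hl x) (H' l hl x)

theorem cbl_of_local (H : ∀ x ∈ U, CBl P h {x} g B) : CBl P h U g B :=
  fun l hl x hx => H x hx l hl x rfl

theorem cbl_zero (hB : 0 ≤ B) : CBl P h U (fun _ => 0) B := fun l _ x _ => by simpa using hB

/-- `g` vanishes off the closed set `K`: a bound on `U ∩ K` is a bound on `U` -/
protected theorem CBl.extend {K : Set V} (H : CBl P h (U ∩ K) g B) (hK : IsClosed K)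
    (hg : ∀ x, x ∉ K → g x = 0) (hB : 0 ≤ B) : CBl P h U g B := fun l hl x hx => by
  by_cases hk : x ∈ K
  · exact H l hl x ⟨hx, hk⟩
  · rw [pds_zero_off hK hg l x hk]; simpa using hB

protected theorem CBl.add (hh : ∀ i, 0 ≤ h i) (hf : Sm f) (hg : Sm g) (Hf : CBl P h U f A)
    (Hg : CBl P h U g B) : CBl P h U (fun x => f x + g x) (A + B) := fun l hl x hx => by
  rw [pds_add hf hg]
  have := mul_le_mul_of_nonneg_left (abs_add_le (pds l f x) (pds l g x)) (hp_nonneg hh l)
  have h1 := Hf l hl x hx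
  have h2 := Hg l hl x hx
  linarith

protected theorem CBl.neg (Hg : CBl P h U g B) : CBl P h U (fun x => -g x) B := fun l hl x hx => by
  rw [pds_neg]; simpa using Hg l hl x hx

protected theorem CBl.sub (hh : ∀ i, 0 ≤ h i) (hf : Sm f) (hg : Sm g) (Hf : CBl P h U f A)
    (Hg : CBl P h U g B) : CBl P h U (fun x => f x - g x) (A + B) :=
  (CBl.add hh hf (ContDiff.neg hg) Hf Hg.neg).congr_fun fun _ => sub_eq_add_neg _ _

protected theorem CBl.smul (Hg : CBl P h U g B) (c : ℝ) :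
    CBl P h U (fun x => c * g x) (|c| * B) := fun l hl x hx => by
  rw [pds_const_mul]
  have := mul_le_mul_of_nonneg_left (Hg l hl x hx) (abs_nonneg c)
  simp only [abs_mul]; linarith

protected theorem CBl.smul_nonneg (Hg : CBl P h U g B) {c : ℝ} (hc : 0 ≤ c) :
    CBl P h U (fun x => c * g x) (c * B) := by
  simpa only [abs_of_nonneg hc] using Hg.smul c

/-- multiplication by a constant with `|c| ≤ C` -/
protected theorem CBl.smul_le (hh : ∀ i, 0 ≤ h i) (Hg : CBl P h U g B) {c C : ℝ} (hc : |c| ≤ C) :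
    CBl P h U (fun x => c * g x) (C * B) := fun l hl x hx =>
  (Hg.smul c l hl x hx).trans (mul_le_mul_of_nonneg_right hc
    ((mul_nonneg (hp_nonneg hh l) (abs_nonneg _)).trans (Hg l hl x hx)))

protected theorem CBl.div_const (Hg : CBl P h U g B) (c : ℝ) :
    CBl P h U (fun x => g x / c) (B / |c|) := by
  have := Hg.smul c⁻¹
  rw [abs_inv, mul_comm, ← div_eq_mul_inv] at this
  exact this.congr_fun fun x => by rw [div_eq_inv_mul]

protected theorem CBl.sum {ι : Type*} (s : Finset ι) {F : ι → V → ℝ} {C : ι → ℝ}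
    (hh : ∀ i, 0 ≤ h i) (hF : ∀ i ∈ s, Sm (F i)) (H : ∀ i ∈ s, CBl P h U (F i) (C i)) :
    CBl P h U (fun x => ∑ i ∈ s, F i x) (∑ i ∈ s, C i) := fun l hl x hx => by
  rw [pds_sum s hF]
  refine (mul_le_mul_of_nonneg_left (Finset.abs_sum_le_sum_abs _ _) (hp_nonneg hh l)).trans ?_
  rw [Finset.mul_sum]
  exact Finset.sum_le_sum fun i hi => H i hi l hl x hx

protected theorem CBl.sum_card {ι : Type*} (s : Finset ι) {F : ι → V → ℝ}
    (hh : ∀ i, 0 ≤ h i) (hF : ∀ i ∈ s, Sm (F i)) (H : ∀ i ∈ s, CBl P h U (F i) B) :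
    CBl P h U (fun x => ∑ i ∈ s, F i x) (s.card * B) := by
  simpa using CBl.sum s (C := fun _ => B) hh hF H

/-- translation -/
protected theorem CBl.comp_sub (H : CBl P h U g B) (b : V) :
    CBl P h {x | x - b ∈ U} (fun y => g (y - b)) B := fun l hl x hx => by
  rw [pds_comp_sub]; exact H l hl _ hx

protected theorem CBl.comp_add (H : CBl P h U g B) (b : V) :
    CBl P h {x | x + b ∈ U} (fun y => g (y + b)) B := fun l hl x hx => by
  rw [pds_comp_add]; exact H l hl _ hx

/-- unscaled form -/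
protected theorem CBl.le_div (hh : ∀ i, 0 < h i) (H : CBl P h U g B) {l : List (Fin 3)} (hl : P l)
    {x : V} (hx : x ∈ U) : |pds l g x| ≤ B / hp h l := by
  rw [le_div_iff₀' (hp_pos hh l)]; exact H l hl x hx

/-- one more derivative -/
protected theorem CBl.pd (hh : ∀ i, 0 ≤ h i) (H : CBl P h U g B) (j : Fin 3)
    (hP : ∀ l, P' l → P (l ++ [j])) : CBl P' h U (fun x => h j * pd j g x) B := fun l hl x hx => by
  have := H _ (hP l hl) x hx
  rw [pds_concat, hp_concat] at this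
  rw [pds_const_mul]
  simp only [abs_mul, abs_of_nonneg (hh j)]; linarith

protected theorem CBl.pd_div (hh : ∀ i, 0 < h i) (H : CBl P h U g B) (j : Fin 3)
    (hP : ∀ l, P' l → P (l ++ [j])) : CBl P' h U (pd j g) (B / h j) := fun l hl x hx => by
  have := H _ (hP l hl) x hx
  rw [pds_concat, hp_concat] at this
  rw [le_div_iff₀ (hh j)]; linarith

/-- several more derivatives -/
protected theorem CBl.pds (hh : ∀ i, 0 ≤ h i) (H : CBl P h U g B) (m : List (Fin 3))
    (hP : ∀ l, P' l → P (l ++ m)) : CBl P' h U (fun x => hp h m * pds m g x) B := fun l hl x hx => by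
  have := H _ (hP l hl) x hx
  rw [pds_append, hp_append] at this
  rw [pds_const_mul]
  simp only [abs_mul, abs_of_nonneg (hp_nonneg hh m)]; linarith

/-- change of scale with loss -/
protected theorem CBl.rescale {n : ℕ} {κ : ℝ} (hP : ∀ l, P l → l.length ≤ n) (hκ : 1 ≤ κ)
    (hh : ∀ i, 0 ≤ h i) (h0 : ∀ i, 0 ≤ h' i) (hle : ∀ i, h' i ≤ κ * h i) (H : CBl P h U g B) :
    CBl P h' U g (κ ^ n * B) := fun l hl x hx => by
  have h1 := H l hl x hx
  have h2 : 0 ≤ hp h l * |pds l g x| := mul_nonneg (hp_nonneg hh l) (abs_nonneg _)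
  calc hp h' l * |pds l g x| ≤ κ ^ l.length * hp h l * |pds l g x| :=
        mul_le_mul_of_nonneg_right (hp_le_pow h0 hle l) (abs_nonneg _)
    _ = κ ^ l.length * (hp h l * |pds l g x|) := by ring
    _ ≤ κ ^ n * B := mul_le_mul (pow_le_pow_right₀ hκ (hP l hl)) h1 h2 (by positivity)

end CBl

/-! ## relations between `CB`, `CV`, `CL`, `CO` -/

section rel
variable {n m : ℕ} {h h' : V} {U : Set V} {f g : V → ℝ} {A A' B B' : ℝ}

protected theorem CB.of_le (H : CB n h U g B) (hm : m ≤ n) : CB m h U g B :=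
  CBl.monoP H fun _ hl => le_trans hl hm
protected theorem CV.of_le (H : CV n h U g B) (hm : m ≤ n) : CV m h U g B :=
  CBl.monoP H fun _ hl => ⟨hl.1, le_trans hl.2 hm⟩
protected theorem CL.of_le (H : CL n h U g B) (hm : m ≤ n) : CL m h U g B :=
  CBl.monoP H fun _ hl => ⟨le_trans hl.1 hm, hl.2⟩
protected theorem CB.toCV (H : CB n h U g B) : CV n h U g B := CBl.monoP H fun _ hl => hl.2
protected theorem CB.toCL (H : CB n h U g B) : CL n h U g B := CBl.monoP H fun _ hl => hl.1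
protected theorem CB.toCO (H : CB n h U g B) (hm : m ≤ n) : CO m h U g B :=
  CBl.monoP H fun _ hl => le_trans (le_of_eq hl) hm
protected theorem CV.toCL (H : CV n h U g B) : CL n h U g B :=
  CBl.monoP H fun l hl => ⟨by
    obtain ⟨i, hi, -⟩ := hl.2
    exact List.length_pos_of_mem hi, hl.1⟩
protected theorem CV.toCO (H : CV n h U g B) (h1 : 1 ≤ m) (hm : m ≤ n) : CO m h U g B :=
  CBl.monoP H fun _ hl => ⟨le_trans h1 (le_of_eq hl.symm), le_trans (le_of_eq hl) hm⟩
protected theorem CL.toLat (H : CL n h U g B) : CBl (LatL n) h U g B :=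
  CBl.monoP H fun l hl => ⟨hl.2.1, by
    obtain ⟨i, hi⟩ := List.exists_mem_of_length_pos hl.1
    exact ⟨i, hi, hl.2.2 i hi⟩⟩
protected theorem CV.toLat (H : CV n h U g B) : CBl (LatL n) h U g B := H.toCL.toLat
protected theorem CB.val (H : CB n h U g B) {x : V} (hx : x ∈ U) : |g x| ≤ B := by
  simpa using H [] (Nat.zero_le n) x hx
protected theorem CB.nonneg (H : CB n h U g B) {x : V} (hx : x ∈ U) : 0 ≤ B :=
  (abs_nonneg _).trans (H.val hx)
protected theorem CV.toCB (H : CV n h U g B) (hv : ∀ x ∈ U, |g x| ≤ B) : CB n h U g B :=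
  fun l hl x hx => by
    cases l with
    | nil => simpa using hv x hx
    | cons j l => exact H _ ⟨by simp, hl⟩ x hx
protected theorem CV.toCB_max (H : CV n h U g B) (hv : ∀ x ∈ U, |g x| ≤ A) :
    CB n h U g (max A B) :=
  CV.toCB (CBl.monoB H (le_max_right _ _)) fun x hx => (hv x hx).trans (le_max_left _ _)
theorem cb_zero_iff : CB 0 h U g B ↔ ∀ x ∈ U, |g x| ≤ B :=
  ⟨fun H _ hx => H.val hx, fun H l hl x hx => by
    obtain rfl : l = [] := List.length_eq_zero_iff.1 (Nat.le_zero.1 hl)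
    simpa using H x hx⟩
theorem cv_one_iff : CV 1 h U g B ↔ ∀ j, ∀ x ∈ U, h j * |pd j g x| ≤ B :=
  ⟨fun H j x hx => by simpa using H [j] ⟨le_rfl, le_rfl⟩ x hx, fun H l hl x hx => by
    obtain ⟨j, rfl⟩ := List.length_eq_one_iff.1 (le_antisymm hl.2 hl.1)
    simpa using H j x hx⟩
protected theorem CV.pd_le (H : CV n h U g B) (hn : 1 ≤ n) (j : Fin 3) {x : V} (hx : x ∈ U) :
    h j * |pd j g x| ≤ B := cv_one_iff.1 (H.of_le hn) j x hx
protected theorem CB.pd_le (H : CB n h U g B) (hn : 1 ≤ n) (j : Fin 3) {x : V} (hx : x ∈ U) :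
    h j * |pd j g x| ≤ B := H.toCV.pd_le hn j hx
theorem cv_const (c : ℝ) (hB : 0 ≤ B) : CV n h U (fun _ => c) B := fun l hl x _ => by
  rw [pds_const (List.ne_nil_of_length_pos hl.1)]; simpa using hB
theorem cl_const (c : ℝ) (hB : 0 ≤ B) : CL n h U (fun _ => c) B := (cv_const c hB).toCL
theorem cb_const {c : ℝ} (hB : |c| ≤ B) : CB n h U (fun _ => c) B :=
  (cv_const c ((abs_nonneg c).trans hB)).toCB fun _ _ => hB
protected theorem CV.add_const (hg : Sm g) (H : CV n h U g B) (c : ℝ) :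
    CV n h U (fun x => g x + c) B := fun l hl x hx => by
  rw [pds_add_const hg c (List.ne_nil_of_length_pos hl.1)]; exact H l hl x hx
protected theorem CV.sub_const (hg : Sm g) (H : CV n h U g B) (c : ℝ) :
    CV n h U (fun x => g x - c) B := CBl.congr_fun (H.add_const hg (-c)) fun _ => sub_eq_add_neg _ _
protected theorem CV.const_add (hg : Sm g) (H : CV n h U g B) (c : ℝ) :
    CV n h U (fun x => c + g x) B := CBl.congr_fun (H.add_const hg c) fun _ => add_comm _ _
protected theorem CL.add_const (hg : Sm g) (H : CL n h U g B) (c : ℝ) :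
    CL n h U (fun x => g x + c) B := fun l hl x hx => by
  obtain ⟨i, hi, -⟩ := hl.2
  rw [pds_add_const hg c (List.ne_nil_of_mem hi)]; exact H l hl x hx

protected theorem CV.pd (hh : ∀ i, 0 ≤ h i) (H : CV (n + 1) h U g B) (j : Fin 3) :
    CB n h U (fun x => h j * pd j g x) B :=
  CBl.pd hh H j fun l hl => ⟨by simp, by simpa using hl⟩
protected theorem CB.pd (hh : ∀ i, 0 ≤ h i) (H : CB (n + 1) h U g B) (j : Fin 3) :
    CB n h U (fun x => h j * pd j g x) B := H.toCV.pd hh j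
protected theorem CL.pd (hh : ∀ i, 0 ≤ h i) (H : CL (n + 1) h U g B) (j : Fin 3) :
    CL n h U (fun x => h j * pd j g x) B :=
  CBl.pd hh H j fun l hl => ⟨by simpa using hl.1, by
    obtain ⟨i, hi, h2⟩ := hl.2
    exact ⟨i, List.mem_append_left _ hi, h2⟩⟩
protected theorem CL.pd_lat (hh : ∀ i, 0 ≤ h i) (H : CL (n + 1) h U g B) {j : Fin 3} (hj : j ≠ 2) :
    CB n h U (fun x => h j * pd j g x) B :=
  CBl.pd hh H j fun l hl => ⟨by simpa using hl, j, by simp, hj⟩
protected theorem CO.pd (hh : ∀ i, 0 ≤ h i) (H : CO (n + 1) h U g B) (j : Fin 3) :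
    CO n h U (fun x => h j * pd j g x) B :=
  CBl.pd hh H j fun l hl => by simpa using hl
protected theorem CV.pd_div (hh : ∀ i, 0 < h i) (H : CV (n + 1) h U g B) (j : Fin 3) :
    CB n h U (pd j g) (B / h j) :=
  CBl.pd_div hh H j fun l hl => ⟨by simp, by simpa using hl⟩
protected theorem CB.pd_div (hh : ∀ i, 0 < h i) (H : CB (n + 1) h U g B) (j : Fin 3) :
    CB n h U (pd j g) (B / h j) := H.toCV.pd_div hh j
protected theorem CL.pd_div (hh : ∀ i, 0 < h i) (H : CL (n + 1) h U g B) (j : Fin 3) :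
    CL n h U (pd j g) (B / h j) :=
  CBl.pd_div hh H j fun l hl => ⟨by simpa using hl.1, by
    obtain ⟨i, hi, h2⟩ := hl.2
    exact ⟨i, List.mem_append_left _ hi, h2⟩⟩
protected theorem CL.pd_lat_div (hh : ∀ i, 0 < h i) (H : CL (n + 1) h U g B) {j : Fin 3}
    (hj : j ≠ 2) : CB n h U (pd j g) (B / h j) :=
  CBl.pd_div hh H j fun l hl => ⟨by simpa using hl, j, by simp, hj⟩
/-- converse of `CV.pd` -/
theorem cv_of_pd (hh : ∀ i, 0 ≤ h i) (H : ∀ j, CB n h U (fun x => h j * pd j g x) B) :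
    CV (n + 1) h U g B := fun l hl x hx => by
  induction l using List.reverseRecOn with
  | nil => exact absurd hl.1 (by simp)
  | append_singleton l j _ =>
    have := H j l (by simpa using hl.2) x hx
    rw [pds_const_mul] at this
    simp only [abs_mul, abs_of_nonneg (hh j)] at this
    rw [pds_concat, hp_concat]; linarith

protected theorem CB.rescale {κ : ℝ} (hκ : 1 ≤ κ) (hh : ∀ i, 0 ≤ h i) (h0 : ∀ i, 0 ≤ h' i)
    (hle : ∀ i, h' i ≤ κ * h i) (H : CB n h U g B) : CB n h' U g (κ ^ n * B) :=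
  CBl.rescale (fun _ hl => hl) hκ hh h0 hle H
protected theorem CV.rescale {κ : ℝ} (hκ : 1 ≤ κ) (hh : ∀ i, 0 ≤ h i) (h0 : ∀ i, 0 ≤ h' i)
    (hle : ∀ i, h' i ≤ κ * h i) (H : CV n h U g B) : CV n h' U g (κ ^ n * B) :=
  CBl.rescale (fun _ hl => hl.2) hκ hh h0 hle H
protected theorem CL.rescale {κ : ℝ} (hκ : 1 ≤ κ) (hh : ∀ i, 0 ≤ h i) (h0 : ∀ i, 0 ≤ h' i)
    (hle : ∀ i, h' i ≤ κ * h i) (H : CL n h U g B) : CL n h' U g (κ ^ n * B) :=
  CBl.rescale (fun _ hl => hl.1) hκ hh h0 hle H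
/-- on a finer scale the variation gains the ratio of the scales -/
protected theorem CBl.finer {P : List (Fin 3) → Prop} {κ : ℝ} (hP : ∀ l, P l → 1 ≤ l.length)
    (hκ0 : 0 ≤ κ) (hκ : κ ≤ 1) (hh : ∀ i, 0 ≤ h i) (h0 : ∀ i, 0 ≤ h' i)
    (hle : ∀ i, h' i ≤ κ * h i) (H : CBl P h U g B) : CBl P h' U g (κ * B) := fun l hl x hx => by
  have h1 := H l hl x hx
  have h2 : 0 ≤ hp h l * |pds l g x| := mul_nonneg (hp_nonneg hh l) (abs_nonneg _)
  calc hp h' l * |pds l g x| ≤ κ ^ l.length * hp h l * |pds l g x| :=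
        mul_le_mul_of_nonneg_right (hp_le_pow h0 hle l) (abs_nonneg _)
    _ = κ ^ l.length * (hp h l * |pds l g x|) := by ring
    _ ≤ κ * B := mul_le_mul (pow_le_of_le_one hκ0 hκ (by have := hP l hl; omega)) h1 h2 hκ0
protected theorem CV.finer {κ : ℝ} (hκ0 : 0 ≤ κ) (hκ : κ ≤ 1) (hh : ∀ i, 0 ≤ h i)
    (h0 : ∀ i, 0 ≤ h' i) (hle : ∀ i, h' i ≤ κ * h i) (H : CV n h U g B) : CV n h' U g (κ * B) :=
  CBl.finer (fun _ hl => hl.1) hκ0 hκ hh h0 hle H

/-! ## products -/

/-- Leibniz rule as an inequality -/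
theorem pds_mul_le (hh : ∀ i, 0 ≤ h i) (x : V) (M : ℝ) (l : List (Fin 3)) :
    ∀ {f g : V → ℝ}, Sm f → Sm g →
      (∀ l1 l2 : List (Fin 3), (l1 ++ l2).Perm l →
        hp h l1 * |pds l1 f x| * (hp h l2 * |pds l2 g x|) ≤ M) →
      hp h l * |pds l (fun y => f y * g y) x| ≤ 2 ^ l.length * M := by
  induction l using List.reverseRecOn with
  | nil => intro f g _ _ H; simpa [abs_mul] using H [] [] (by simp)
  | append_singleton l j ih =>
    intro f g hf hg H
    have h1 := ih (f := fun y => h j * pd j f y) (g := g) ((hf.pd j).cmul _) hg fun l1 l2 p => by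
      have := H (l1 ++ [j]) l2 (by
        refine List.Perm.trans ?_ (p.append_right [j])
        rw [List.append_assoc, List.append_assoc]
        exact List.Perm.append_left _ List.perm_append_comm)
      rw [pds_concat, hp_concat] at this
      rw [pds_const_mul]
      simp only [abs_mul, abs_of_nonneg (hh j)]; linarith
    have h2 := ih (f := f) (g := fun y => h j * pd j g y) hf ((hg.pd j).cmul _) fun l1 l2 p => by
      have := H l1 (l2 ++ [j]) (by rw [← List.append_assoc]; exact p.append_right [j])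
      rw [pds_concat, hp_concat] at this
      rw [pds_const_mul]
      simp only [abs_mul, abs_of_nonneg (hh j)]; linarith
    have e1 : (fun y => h j * pd j f y * g y) = fun y => h j * (pd j f y * g y) := by
      funext y; ring
    have e2 : (fun y => f y * (h j * pd j g y)) = fun y => h j * (f y * pd j g y) := by
      funext y; ring
    rw [e1, pds_const_mul] at h1
    rw [e2, pds_const_mul] at h2
    simp only [abs_mul, abs_of_nonneg (hh j)] at h1 h2
    rw [pds_concat, hp_concat, pd_mul hf hg, pds_add (ContDiff.mul (hf.pd j) hg) (ContDiff.mul hf (hg.pd j)),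
      List.length_append, List.length_singleton, pow_succ]
    have := mul_le_mul_of_nonneg_left (abs_add_le (pds l (fun y => pd j f y * g y) x)
      (pds l (fun y => f y * pd j g y) x)) (mul_nonneg (hp_nonneg hh l) (hh j))
    linarith

/-- general product rule: every splitting of an admissible list is bounded by `M` -/
theorem cbl_mul {P : List (Fin 3) → Prop} {M : ℝ} (hP : ∀ l, P l → l.length ≤ n)
    (hh : ∀ i, 0 ≤ h i) (hf : Sm f) (hg : Sm g)
    (H : ∀ l1 l2 l : List (Fin 3), P l → (l1 ++ l2).Perm l → ∀ x ∈ U,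
      hp h l1 * |pds l1 f x| * (hp h l2 * |pds l2 g x|) ≤ M) :
    CBl P h U (fun x => f x * g x) (2 ^ n * M) := fun l hl x hx => by
  refine (pds_mul_le hh x M l hf hg fun l1 l2 p => H l1 l2 l hl p x hx).trans ?_
  have h0 : 0 ≤ M := le_trans (mul_nonneg (mul_nonneg (hp_nonneg hh _) (abs_nonneg _))
    (mul_nonneg (hp_nonneg hh _) (abs_nonneg _))) (H l [] l hl (by simp) x hx)
  exact mul_le_mul_of_nonneg_right (pow_le_pow_right₀ one_le_two (hP l hl)) h0

theorem hpa_nonneg (hh : ∀ i, 0 ≤ h i) (l : List (Fin 3)) (g : V → ℝ) (x : V) :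
    0 ≤ hp h l * |pds l g x| := mul_nonneg (hp_nonneg hh l) (abs_nonneg _)

protected theorem CB.mul (hh : ∀ i, 0 ≤ h i) (hf : Sm f) (hg : Sm g) (Hf : CB n h U f A)
    (Hg : CB n h U g B) : CB n h U (fun x => f x * g x) (2 ^ n * A * B) := by
  rw [mul_assoc]
  refine cbl_mul (fun _ hl => hl) hh hf hg fun l1 l2 l hl p x hx => ?_
  have e := p.length_eq
  rw [List.length_append] at e
  exact mul_le_mul (Hf l1 (by show _ ≤ n; omega) x hx) (Hg l2 (by show _ ≤ n; omega) x hx)
    (hpa_nonneg hh _ _ _) (Hf.nonneg hx)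

/-- product rule for a class `P` of lists of length at most `n` such that one part of every splitting
of a list in `P` is in `P` -/
theorem cbl_mul_split {P : List (Fin 3) → Prop} (hP : ∀ l, P l → l.length ≤ n)
    (hS : ∀ l1 l2 l : List (Fin 3), P l → (l1 ++ l2).Perm l → P l1 ∨ P l2)
    (hh : ∀ i, 0 ≤ h i) (hf : Sm f) (hg : Sm g) (Hf : CB n h U f A) (Hf' : CBl P h U f A')
    (Hg : CB n h U g B) (Hg' : CBl P h U g B') :
    CBl P h U (fun x => f x * g x) (2 ^ n * (A' * B + A * B')) := by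
  refine cbl_mul hP hh hf hg fun l1 l2 l hl p x hx => ?_
  have e := p.length_eq
  rw [List.length_append] at e
  have hl' := hP l hl
  have hA := Hf.nonneg hx
  have hB := Hg.nonneg hx
  have hA' : 0 ≤ A' := (hpa_nonneg hh _ _ _).trans (Hf' l hl x hx)
  have hB' : 0 ≤ B' := (hpa_nonneg hh _ _ _).trans (Hg' l hl x hx)
  rcases hS l1 l2 l hl p with h1 | h2
  · have := mul_le_mul (Hf' l1 h1 x hx) (Hg l2 (by show _ ≤ n; omega) x hx) (hpa_nonneg hh _ _ _) hA'
    nlinarith [mul_nonneg hA hB']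
  · have := mul_le_mul (Hf l1 (by show _ ≤ n; omega) x hx) (Hg' l2 h2 x hx) (hpa_nonneg hh _ _ _) hA
    nlinarith [mul_nonneg hA' hB]

protected theorem CV.mul (hh : ∀ i, 0 ≤ h i) (hf : Sm f) (hg : Sm g) (Hf : CB n h U f A)
    (Hf' : CV n h U f A') (Hg : CB n h U g B) (Hg' : CV n h U g B') :
    CV n h U (fun x => f x * g x) (2 ^ n * (A' * B + A * B')) := by
  refine cbl_mul_split (fun _ hl => hl.2) (fun l1 l2 l hl p => ?_) hh hf hg Hf Hf' Hg Hg'
  have e := p.length_eq
  rw [List.length_append] at e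
  omega

protected theorem CL.mul (hh : ∀ i, 0 ≤ h i) (hf : Sm f) (hg : Sm g) (Hf : CB n h U f A)
    (Hf' : CL n h U f A') (Hg : CB n h U g B) (Hg' : CL n h U g B') :
    CL n h U (fun x => f x * g x) (2 ^ n * (A' * B + A * B')) := by
  refine cbl_mul_split (fun _ hl => hl.1) (fun l1 l2 l hl p => ?_) hh hf hg Hf Hf' Hg Hg'
  have e := p.length_eq
  rw [List.length_append] at e
  obtain ⟨hn, i, hi, h2⟩ := hl
  rcases List.mem_append.1 (p.mem_iff.2 hi) with h1 | h1
  · exact Or.inl ⟨by omega, i, h1, h2⟩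
  · exact Or.inr ⟨by omega, i, h1, h2⟩

/-- purely lateral derivatives of a product: only values and lateral bounds are needed -/
theorem lat_mul (hh : ∀ i, 0 ≤ h i) (hf : Sm f) (hg : Sm g) (Hf : ∀ x ∈ U, |f x| ≤ A)
    (Hf' : CBl (LatL n) h U f A') (Hg : ∀ x ∈ U, |g x| ≤ B) (Hg' : CBl (LatL n) h U g B') :
    CBl (LatL n) h U (fun x => f x * g x) (2 ^ n * (A' * B + A * B' + A' * B')) := by
  refine cbl_mul (fun _ hl => hl.2.1) hh hf hg fun l1 l2 l hl p x hx => ?_
  have e := p.length_eq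
  rw [List.length_append] at e
  have hA := (abs_nonneg _).trans (Hf x hx)
  have hB := (abs_nonneg _).trans (Hg x hx)
  have hA' : 0 ≤ A' := (hpa_nonneg hh _ _ _).trans (Hf' l hl x hx)
  have hB' : 0 ≤ B' := (hpa_nonneg hh _ _ _).trans (Hg' l hl x hx)
  obtain ⟨h1, hn, hi⟩ := hl
  have L1 : l1 ≠ [] → LatL n l1 := fun h0 => ⟨List.length_pos_iff.2 h0, by omega,
    fun i hi' => hi i (p.mem_iff.1 (List.mem_append_left _ hi'))⟩
  have L2 : l2 ≠ [] → LatL n l2 := fun h0 => ⟨List.length_pos_iff.2 h0, by omega,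
    fun i hi' => hi i (p.mem_iff.1 (List.mem_append_right _ hi'))⟩
  have p1 := mul_nonneg hA' hB
  have p2 := mul_nonneg hA hB'
  have p3 := mul_nonneg hA' hB'
  by_cases a : l1 = []
  · subst a
    have b : l2 ≠ [] := by rintro rfl; simp at e; omega
    have := mul_le_mul (Hf x hx) (Hg' l2 (L2 b) x hx) (hpa_nonneg hh _ _ _) hA
    simp only [hp_nil, pds_nil, one_mul]; linarith
  · by_cases b : l2 = []
    · subst b
      have := mul_le_mul (Hf' l1 (L1 a) x hx) (Hg x hx) (abs_nonneg _) hA'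
      simp only [hp_nil, pds_nil, one_mul]; linarith
    · have := mul_le_mul (Hf' l1 (L1 a) x hx) (Hg' l2 (L2 b) x hx) (hpa_nonneg hh _ _ _) hA'
      linarith

protected theorem CB.sq (hh : ∀ i, 0 ≤ h i) (hf : Sm f) (Hf : CB n h U f A) :
    CB n h U (fun x => f x ^ 2) (2 ^ n * A ^ 2) :=
  CBl.monoB (CBl.congr_fun (CB.mul hh hf hf Hf Hf) fun _ => sq _) (le_of_eq (by ring))

protected theorem CB.mul3 {k : V → ℝ} {C : ℝ} (hh : ∀ i, 0 ≤ h i) (hf : Sm f) (hg : Sm g)
    (hk : Sm k) (Hf : CB n h U f A) (Hg : CB n h U g B) (Hk : CB n h U k C) :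
    CB n h U (fun x => f x * g x * k x) (4 ^ n * (A * B * C)) :=
  CBl.monoB (CB.mul hh (ContDiff.mul hf hg) hk (CB.mul hh hf hg Hf Hg) Hk)
    (le_of_eq (by rw [show (4 : ℝ) = 2 * 2 by norm_num, mul_pow]; ring))

protected theorem CB.prod {ι : Type*} (s : Finset ι) {F : ι → V → ℝ} {C : ι → ℝ}
    (hh : ∀ i, 0 ≤ h i) (hF : ∀ i ∈ s, Sm (F i)) (H : ∀ i ∈ s, CB n h U (F i) (C i)) :
    CB n h U (fun x => ∏ i ∈ s, F i x) ((2 ^ n) ^ s.card * ∏ i ∈ s, C i) := by
  induction s using Finset.induction_on with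
  | empty => simpa using cb_const (c := 1) (B := 1) (by simp)
  | insert a s ha ih =>
    have h1 := CB.mul hh (hF a (by simp)) (contDiff_prod fun i hi => hF i (by simp [hi]))
      (H a (by simp)) (ih (fun i hi => hF i (by simp [hi])) fun i hi => H i (by simp [hi]))
    refine CBl.monoB (CBl.congr_fun h1 fun x => Finset.prod_insert ha) (le_of_eq ?_)
    rw [Finset.prod_insert ha, Finset.card_insert_of_notMem ha]; ring

protected theorem CB.pow (hh : ∀ i, 0 ≤ h i) (hf : Sm f) (Hf : CB n h U f A) (k : ℕ) :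
    CB n h U (fun x => f x ^ k) ((2 ^ n) ^ k * A ^ k) := by
  simpa using CB.prod (Finset.range k) (F := fun _ => f) (C := fun _ => A) hh (fun _ _ => hf)
    fun _ _ => Hf

end rel

end
end Pool.Agent.MP_20bec2_an.T3

end MrgPart0

-- ======== part 1: formerly Pool.Agent.MP_20bec2_an.T3.Calc1b
section MrgPart1

/-! Toolbox CALC1, part 2: ridge functions, tensor products, mean value, Taylor, `jm`, `jac`, `dv`, `SmM`. -/

set_option autoImplicit false
open MeasureTheory Set Filter Matrix Topology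

namespace Pool.Agent.MP_20bec2_an.T3
noncomputable section
open Classical

/-! ## linear and affine maps -/

/-- the continuous linear map of a matrix -/
def clm (A : Mx) : V →L[ℝ] V := LinearMap.toContinuousLinearMap (Matrix.toLin' A)
@[simp] theorem clm_apply (A : Mx) (v : V) : clm A v = A *ᵥ v := by simp [clm]
theorem clm_det (A : Mx) : (clm A).det = A.det := by
  simp [clm, ContinuousLinearMap.det]

theorem sm_mulVec (A : Mx) : Sm fun x : V => A *ᵥ x := by
  have := (clm A).contDiff (n := ((⊤ : ℕ∞) : WithTop ℕ∞))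
  rwa [show ⇑(clm A) = fun x => A *ᵥ x from funext (clm_apply A)] at this

theorem sm_affine (b : V) (A : Mx) : Sm fun x : V => b + A *ᵥ x :=
  ContDiff.add contDiff_const (sm_mulVec A)

theorem hasFDerivAt_affine (b : V) (A : Mx) (x : V) :
    HasFDerivAt (fun x : V => b + A *ᵥ x) (clm A) x := by
  have := (clm A).hasFDerivAt (x := x)
  rw [show ⇑(clm A) = fun x => A *ᵥ x from funext (clm_apply A)] at this
  exact this.const_add b

theorem sm_dot (a : V) : Sm fun x : V => a ⬝ᵥ x :=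
  ContDiff.sum fun i _ => (sm_coord i).cmul (a i)

theorem pd_dot (a : V) (j : Fin 3) (x : V) : pd j (fun y => a ⬝ᵥ y) x = a j := by
  unfold dotProduct
  rw [pd_sum_at _ fun i _ => ((sm_coord i).cmul (a i)).dif x]
  simp [pd_const_mul, pd_coord]

/-! ## ridge functions and tensor products -/

theorem sm_ridge {φ : ℝ → ℝ} (hφ : Sm φ) (a : V) (b : ℝ) : Sm fun x : V => φ (a ⬝ᵥ x + b) :=
  ContDiff.comp hφ (ContDiff.add (sm_dot a) contDiff_const)

theorem pds_ridge {φ : ℝ → ℝ} (hφ : Sm φ) (a : V) (b : ℝ) (l : List (Fin 3)) :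
    pds l (fun x => φ (a ⬝ᵥ x + b)) = fun x => hp a l * iteratedDeriv l.length φ (a ⬝ᵥ x + b) := by
  induction l with
  | nil => simp
  | cons j l ih =>
    funext x
    have hd : DifferentiableAt ℝ (fun y : V => a ⬝ᵥ y + b) x := ((sm_dot a).dif x).add_const b
    rw [pds_cons, ih, pd_const_mul, pd_comp_at (g := fun y : V => a ⬝ᵥ y + b)
      ((hφ.iter _).dif _) hd, pd_add_at ((sm_dot a).dif x) (differentiableAt_const b), pd_dot,
      pd_const, List.length_cons, iteratedDeriv_succ, hp_cons]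
    ring

section ridge
variable {n : ℕ} {h : V} {U : Set V} {φ : ℝ → ℝ} {M κ : ℝ}

theorem ridge_le (hh : ∀ i, 0 ≤ h i) (hφ : Sm φ) (a : V) (b : ℝ) (ha : ∀ i, |a i| * h i ≤ κ)
    (l : List (Fin 3)) (x : V) : hp h l * |pds l (fun x => φ (a ⬝ᵥ x + b)) x| ≤
      κ ^ l.length * |iteratedDeriv l.length φ (a ⬝ᵥ x + b)| := by
  rw [pds_ridge hφ, abs_mul, ← mul_assoc, abs_hp, ← hp_mul, ← hp_cv]
  exact mul_le_mul_of_nonneg_right (hp_mono (fun i => mul_nonneg (hh i) (abs_nonneg _))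
    (fun i => by rw [mul_comm]; exact ha i) l) (abs_nonneg _)

/-- ridge function, `1 ≤ κ` -/
theorem cbl_ridge {P : List (Fin 3) → Prop} (hP : ∀ l, P l → l.length ≤ n) (hh : ∀ i, 0 ≤ h i)
    (hφ : Sm φ) (a : V) (b : ℝ) (hκ : 1 ≤ κ) (ha : ∀ i, |a i| * h i ≤ κ)
    (hM : ∀ l, P l → ∀ x ∈ U, |iteratedDeriv l.length φ (a ⬝ᵥ x + b)| ≤ M) :
    CBl P h U (fun x => φ (a ⬝ᵥ x + b)) (κ ^ n * M) := fun l hl x hx =>
  (ridge_le hh hφ a b ha l x).trans (mul_le_mul (pow_le_pow_right₀ hκ (hP l hl)) (hM l hl x hx)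
    (abs_nonneg _) (by positivity))

theorem cb_ridge (hh : ∀ i, 0 ≤ h i) (hφ : Sm φ) (a : V) (b : ℝ) (hκ : 1 ≤ κ)
    (ha : ∀ i, |a i| * h i ≤ κ)
    (hM : ∀ j ≤ n, ∀ x ∈ U, |iteratedDeriv j φ (a ⬝ᵥ x + b)| ≤ M) :
    CB n h U (fun x => φ (a ⬝ᵥ x + b)) (κ ^ n * M) :=
  cbl_ridge (fun _ hl => hl) hh hφ a b hκ ha fun _ hl => hM _ hl

theorem cv_ridge (hh : ∀ i, 0 ≤ h i) (hφ : Sm φ) (a : V) (b : ℝ) (hκ : 1 ≤ κ)
    (ha : ∀ i, |a i| * h i ≤ κ)
    (hM : ∀ j, 1 ≤ j → j ≤ n → ∀ x ∈ U, |iteratedDeriv j φ (a ⬝ᵥ x + b)| ≤ M) :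
    CV n h U (fun x => φ (a ⬝ᵥ x + b)) (κ ^ n * M) :=
  cbl_ridge (fun _ hl => hl.2) hh hφ a b hκ ha fun _ hl => hM _ hl.1 hl.2

/-- ridge function that varies slowly, `κ ≤ 1` -/
theorem cv_ridge_small (hh : ∀ i, 0 ≤ h i) (hφ : Sm φ) (a : V) (b : ℝ) (hκ : κ ≤ 1)
    (ha : ∀ i, |a i| * h i ≤ κ)
    (hM : ∀ j, 1 ≤ j → j ≤ n → ∀ x ∈ U, |iteratedDeriv j φ (a ⬝ᵥ x + b)| ≤ M) :
    CV n h U (fun x => φ (a ⬝ᵥ x + b)) (κ * M) := fun l hl x hx => by
  have h0 : 0 ≤ κ := (mul_nonneg (abs_nonneg _) (hh 0)).trans (ha 0)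
  exact (ridge_le hh hφ a b ha l x).trans (mul_le_mul
    (pow_le_of_le_one h0 hκ (by have := hl.1; omega)) (hM _ hl.1 hl.2 x hx) (abs_nonneg _) h0)

theorem coord_eq_ridge (i : Fin 3) (s c : ℝ) (x : V) :
    x i / s - c = (Pi.single i s⁻¹ : V) ⬝ᵥ x + -c := by
  rw [single_dotProduct]; ring

theorem sm_coordfn (hφ : Sm φ) (i : Fin 3) (s c : ℝ) : Sm fun x : V => φ (x i / s - c) := by
  simp only [coord_eq_ridge]; exact sm_ridge hφ _ _

/-- a function of one scaled coordinate, measured on scales with `h i ≤ κ * s` -/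
theorem cb_coordfn (hh : ∀ i, 0 ≤ h i) (hφ : Sm φ) (i : Fin 3) {s : ℝ} (hs : 0 < s) (c : ℝ)
    (hκ : 1 ≤ κ) (ha : h i ≤ κ * s)
    (hM : ∀ j ≤ n, ∀ x ∈ U, |iteratedDeriv j φ (x i / s - c)| ≤ M) :
    CB n h U (fun x => φ (x i / s - c)) (κ ^ n * M) := by
  simp only [coord_eq_ridge] at hM ⊢
  refine cb_ridge hh hφ _ _ hκ (fun k => ?_) hM
  by_cases e : k = i
  · subst e
    rw [Pi.single_eq_same, abs_of_pos (inv_pos.2 hs), inv_mul_le_iff₀ hs]; linarith
  · rw [Pi.single_eq_of_ne e]; simp; linarith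

/-- a function of the vertical coordinate has no lateral derivative -/
theorem cl_vert (hφ : Sm φ) (s c : ℝ) : CL n h U (fun x => φ (x 2 / s - c)) 0 := fun l hl x _ => by
  obtain ⟨i, hi, h2⟩ := hl.2
  simp only [coord_eq_ridge]
  rw [pds_ridge hφ]
  have : hp (Pi.single 2 s⁻¹ : V) l = 0 :=
    List.prod_eq_zero (List.mem_map.2 ⟨i, hi, Pi.single_eq_of_ne h2 _⟩)
  simp [this]

theorem sm_tensor {ψ : Fin 3 → ℝ → ℝ} (hψ : ∀ i, Sm (ψ i)) (s c : V) :
    Sm fun x : V => ∏ i, ψ i (x i / s i - c i) :=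
  contDiff_prod fun i _ => sm_coordfn (hψ i) i _ _

/-- tensor product measured on scales `h ≤ κ s` -/
theorem cb_tensor' {ψ : Fin 3 → ℝ → ℝ} (hh : ∀ i, 0 ≤ h i) (hψ : ∀ i, Sm (ψ i)) {s : V}
    (hs : ∀ i, 0 < s i) (c : V) (hκ : 1 ≤ κ) (ha : ∀ i, h i ≤ κ * s i)
    (hM : ∀ i, ∀ j ≤ n, ∀ t, |iteratedDeriv j (ψ i) t| ≤ M) :
    CB n h U (fun x => ∏ i, ψ i (x i / s i - c i)) ((8 * κ ^ 3) ^ n * M ^ 3) := by
  have := CB.prod (n := n) (U := U) Finset.univ (F := fun i x => ψ i (x i / s i - c i))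
    (C := fun _ => κ ^ n * M) hh (fun i _ => sm_coordfn (hψ i) i _ _)
    fun i _ => cb_coordfn hh (hψ i) i (hs i) _ hκ (ha i) fun j hj x _ => hM i j hj _
  refine CBl.monoB this (le_of_eq ?_)
  simp only [Finset.card_univ, Fintype.card_fin, Finset.prod_const]
  rw [show (8 : ℝ) * κ ^ 3 = (2 * κ) * (2 * κ) * (2 * κ) by ring]
  simp only [mul_pow]
  ring

/-- tensor product on its own scales -/
theorem cb_tensor {ψ : Fin 3 → ℝ → ℝ} (hh : ∀ i, 0 < h i) (hψ : ∀ i, Sm (ψ i)) (c : V)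
    (hM : ∀ i, ∀ j ≤ n, ∀ t, |iteratedDeriv j (ψ i) t| ≤ M) :
    CB n h U (fun x => ∏ i, ψ i (x i / h i - c i)) (8 ^ n * M ^ 3) := by
  simpa using cb_tensor' (U := U) (κ := 1) (fun i => (hh i).le) hψ hh c le_rfl (by simp) hM

/-- product of three ridge functions, for instance in rotated coordinates -/
theorem cb_tensor_ridge {ψ : Fin 3 → ℝ → ℝ} (hh : ∀ i, 0 ≤ h i) (hψ : ∀ i, Sm (ψ i)) (A : Mx)
    (c : V) (hκ : 1 ≤ κ) (ha : ∀ i j, |A i j| * h j ≤ κ)
    (hM : ∀ i, ∀ j ≤ n, ∀ t, |iteratedDeriv j (ψ i) t| ≤ M) :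
    CB n h U (fun x => ∏ i, ψ i ((A *ᵥ x) i + c i)) ((8 * κ ^ 3) ^ n * M ^ 3) := by
  have := CB.prod (n := n) (U := U) Finset.univ (F := fun i x => ψ i (A i ⬝ᵥ x + c i))
    (C := fun _ => κ ^ n * M) hh (fun i _ => sm_ridge (hψ i) _ _)
    fun i _ => cb_ridge hh (hψ i) _ _ hκ (ha i) fun j hj x _ => hM i j hj _
  refine CBl.monoB this (le_of_eq ?_)
  simp only [Finset.card_univ, Fintype.card_fin, Finset.prod_const]
  rw [show (8 : ℝ) * κ ^ 3 = (2 * κ) * (2 * κ) * (2 * κ) by ring]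
  simp only [mul_pow]
  ring

/-- an affine function -/
theorem cv_dot (hh : ∀ i, 0 ≤ h i) (a : V) (b : ℝ) (ha : ∀ i, |a i| * h i ≤ κ) :
    CV n h U (fun x => a ⬝ᵥ x + b) κ := fun l hl x _ => by
  have h0 : 0 ≤ κ := (mul_nonneg (abs_nonneg _) (hh 0)).trans (ha 0)
  induction l using List.reverseRecOn with
  | nil => exact absurd hl.1 (by simp)
  | append_singleton l j _ =>
    have e : pd j (fun x => a ⬝ᵥ x + b) = fun _ => a j := by
      funext y; rw [pd_add_at ((sm_dot a).dif y) (differentiableAt_const b), pd_dot]; simp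
    rw [pds_concat, e]
    cases l with
    | nil => simpa [mul_comm] using ha j
    | cons i l => rw [pds_const (by simp)]; simpa using h0

theorem cv_coord (hh : ∀ i, 0 ≤ h i) (i : Fin 3) : CV n h U (fun x => x i) (h i) := by
  have := cv_dot (n := n) (U := U) (κ := h i) hh (Pi.single i 1) 0 fun k => by
    by_cases e : k = i
    · subst e; simp
    · rw [Pi.single_eq_of_ne e]; simpa using hh i
  exact CBl.congr_fun this fun x => by simp

end ridge

/-! ## mean value and Taylor -/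

theorem hasDerivAt_line {g : V → ℝ} {x v : V} {t : ℝ} (hg : DifferentiableAt ℝ g (x + t • v)) :
    HasDerivAt (fun s : ℝ => g (x + s • v)) (∑ i, pd i g (x + t • v) * v i) t := by
  have h1 : HasDerivAt (fun s : ℝ => x + s • v) v t := by
    simpa using ((hasDerivAt_id t).smul_const v).const_add x
  rw [← fderiv_eq_sum]
  exact hg.hasFDerivAt.comp_hasDerivAt t h1

/-- mean value inequality with one bound for each direction -/
theorem mvt_pd {g : V → ℝ} {U : Set V} (hU : Convex ℝ U) (hg : ∀ y ∈ U, DifferentiableAt ℝ g y)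
    {b : V} (hb : ∀ i, ∀ y ∈ U, |pd i g y| ≤ b i) {x x' : V} (hx : x ∈ U) (hx' : x' ∈ U) :
    |g x - g x'| ≤ ∑ i, b i * |x i - x' i| := by
  have hm : ∀ t ∈ Icc (0 : ℝ) 1, x' + t • (x - x') ∈ U := fun t ht =>
    hU.add_smul_sub_mem hx' hx ht
  have := norm_image_sub_le_of_norm_deriv_le_segment_01'
    (f := fun s : ℝ => g (x' + s • (x - x')))
    (f' := fun t => ∑ i, pd i g (x' + t • (x - x')) * (x - x') i)
    (C := ∑ i, b i * |x i - x' i|)
    (fun t ht => (hasDerivAt_line (hg _ (hm t ht))).hasDerivWithinAt) fun t ht => by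
      rw [Real.norm_eq_abs]
      refine (Finset.abs_sum_le_sum_abs _ _).trans (Finset.sum_le_sum fun i _ => ?_)
      rw [abs_mul]
      exact mul_le_mul_of_nonneg_right (hb i _ (hm t (Ico_subset_Icc_self ht))) (abs_nonneg _)
  simpa using this

section mvt
variable {n : ℕ} {h : V} {U : Set V} {g : V → ℝ} {B : ℝ}

protected theorem CV.mvt_at (hh : ∀ i, 0 < h i) (hU : Convex ℝ U)
    (hg : ∀ y ∈ U, DifferentiableAt ℝ g y) (H : CV n h U g B) (hn : 1 ≤ n) {x x' : V}
    (hx : x ∈ U) (hx' : x' ∈ U) : |g x - g x'| ≤ B * ∑ i, |x i - x' i| / h i := by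
  refine (mvt_pd hU hg (b := fun i => B / h i) (fun i y hy => ?_) hx hx').trans (le_of_eq ?_)
  · rw [le_div_iff₀' (hh i)]; exact H.pd_le hn i hy
  · rw [Finset.mul_sum]; exact Finset.sum_congr rfl fun i _ => by ring

protected theorem CV.mvt (hh : ∀ i, 0 < h i) (hU : Convex ℝ U) (hg : Sm g) (H : CV n h U g B)
    (hn : 1 ≤ n) {x x' : V} (hx : x ∈ U) (hx' : x' ∈ U) :
    |g x - g x'| ≤ B * ∑ i, |x i - x' i| / h i :=
  CV.mvt_at hh hU (fun y _ => hg.dif y) H hn hx hx'

/-- two points at scaled distance at most `r` -/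
protected theorem CV.mvt_box (hh : ∀ i, 0 < h i) (hU : Convex ℝ U) (hg : Sm g) (H : CV n h U g B)
    (hn : 1 ≤ n) {x x' : V} (hx : x ∈ U) (hx' : x' ∈ U) {r : ℝ}
    (hr : ∀ i, |x i - x' i| ≤ r * h i) : |g x - g x'| ≤ 3 * r * B := by
  have hB : 0 ≤ B := (mul_nonneg (hh 0).le (abs_nonneg _)).trans (H.pd_le hn 0 hx)
  have : ∑ i, |x i - x' i| / h i ≤ ∑ _i : Fin 3, r :=
    Finset.sum_le_sum fun i _ => (div_le_iff₀ (hh i)).2 (hr i)
  have h3 : ∑ _i : Fin 3, r = 3 * r := by simp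
  have := mul_le_mul_of_nonneg_left (this.trans_eq h3) hB
  linarith [CV.mvt hh hU hg H hn hx hx']

/-- mean value for higher derivatives -/
protected theorem CV.mvt_pds (hh : ∀ i, 0 < h i) (hU : Convex ℝ U) (hg : Sm g)
    (H : CV (n + 1) h U g B) {l : List (Fin 3)} (hl : l.length ≤ n) {x x' : V} (hx : x ∈ U)
    (hx' : x' ∈ U) : hp h l * |pds l g x - pds l g x'| ≤ B * ∑ i, |x i - x' i| / h i := by
  have H' : CV 1 h U (fun y => hp h l * pds l g y) B :=
    CBl.pds (fun i => (hh i).le) H l fun m hm => ⟨by rw [List.length_append]; have := hm.1; omega,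
      by rw [List.length_append]; have := hm.2; omega⟩
  have := CV.mvt hh hU ((hg.pds l).cmul _) H' le_rfl hx hx'
  rwa [← mul_sub, abs_mul, abs_of_pos (hp_pos hh l)] at this

/-- two points at the same height: only lateral derivatives count -/
theorem lat_mvt (hh : ∀ i, 0 < h i) (hU : Convex ℝ U) (hg : Sm g) (H : CBl (LatL n) h U g B)
    (hn : 1 ≤ n) {x x' : V} (hx : x ∈ U) (hx' : x' ∈ U) (e : x 2 = x' 2) :
    |g x - g x'| ≤ B * (|x 0 - x' 0| / h 0 + |x 1 - x' 1| / h 1) := by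
  have hm : ∀ t ∈ Icc (0 : ℝ) 1, x' + t • (x - x') ∈ U := fun t ht =>
    hU.add_smul_sub_mem hx' hx ht
  have hb : ∀ i, i ≠ 2 → ∀ y ∈ U, |pd i g y| ≤ B / h i := fun i hi y hy => by
    rw [le_div_iff₀' (hh i)]
    simpa using H [i] ⟨le_rfl, hn, by simpa using hi⟩ y hy
  have := norm_image_sub_le_of_norm_deriv_le_segment_01'
    (f := fun s : ℝ => g (x' + s • (x - x')))
    (f' := fun t => ∑ i, pd i g (x' + t • (x - x')) * (x - x') i)
    (C := B * (|x 0 - x' 0| / h 0 + |x 1 - x' 1| / h 1))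
    (fun t ht => (hasDerivAt_line (hg.dif _)).hasDerivWithinAt) fun t ht => by
      have m := hm t (Ico_subset_Icc_self ht)
      rw [Real.norm_eq_abs, Fin.sum_univ_three, Pi.sub_apply x x' 2, e, sub_self, mul_zero, add_zero]
      refine (abs_add_le _ _).trans ?_
      rw [abs_mul, abs_mul]
      have h0 := mul_le_mul_of_nonneg_right (hb 0 (by decide) _ m) (abs_nonneg ((x - x') 0))
      have h1 := mul_le_mul_of_nonneg_right (hb 1 (by decide) _ m) (abs_nonneg ((x - x') 1))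
      refine (add_le_add h0 h1).trans (le_of_eq ?_)
      simp only [Pi.sub_apply]; ring
  simpa using this

/-- Taylor formula of order two -/
protected theorem CO.taylor (hh : ∀ i, 0 < h i) (hU : Convex ℝ U) (hg : Sm g) (H : CO 2 h U g B)
    {x x' : V} (hx : x ∈ U) (hx' : x' ∈ U) :
    |g x' - g x - ∑ i, pd i g x * (x' i - x i)| ≤ B * (∑ i, |x' i - x i| / h i) ^ 2 := by
  set S := ∑ i, |x' i - x i| / h i with hS
  have hB : 0 ≤ B := (hpa_nonneg (fun i => (hh i).le) _ _ _).trans (H [0, 0] rfl x hx)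
  have hsub : segment ℝ x x' ⊆ U := hU.segment_subset hx hx'
  have hG : Sm fun y : V => g y - (fun i => pd i g x) ⬝ᵥ y := ContDiff.sub hg (sm_dot _)
  have key := mvt_pd (convex_segment x x') (fun y _ => hG.dif y) (b := fun i => B * S / h i)
    (fun i y hy => ?_) (right_mem_segment ℝ x x') (left_mem_segment ℝ x x')
  · have e1 : g x' - (fun i => pd i g x) ⬝ᵥ x' - (g x - (fun i => pd i g x) ⬝ᵥ x) =
        g x' - g x - ∑ i, pd i g x * (x' i - x i) := by
      simp only [dotProduct, Fin.sum_univ_three]; ring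
    rw [e1] at key
    refine key.trans (le_of_eq ?_)
    rw [sq, ← mul_assoc, hS, Finset.mul_sum _ _ (B * _)]
    exact Finset.sum_congr rfl fun i _ => by ring
  · rw [pd_sub_at (hg.dif y) ((sm_dot _).dif y), pd_dot, le_div_iff₀' (hh i)]
    have H1 : CV 1 h U (fun y => h i * pd i g y) B :=
      CBl.pd (fun i => (hh i).le) H i fun m hm => by
        rw [List.length_append, le_antisymm hm.2 hm.1]; rfl
    have := CV.mvt hh hU ((hg.pd i).cmul _) H1 le_rfl (hsub hy) hx
    rw [← mul_sub, abs_mul, abs_of_pos (hh i)] at this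
    refine this.trans (mul_le_mul_of_nonneg_left (Finset.sum_le_sum fun k _ => ?_) hB)
    refine div_le_div_of_nonneg_right ?_ (hh k).le
    rw [segment_eq_image'] at hy
    obtain ⟨t, ht, rfl⟩ := hy
    simp only [Pi.add_apply, Pi.smul_apply, Pi.sub_apply, smul_eq_mul, add_sub_cancel_left, abs_mul,
      abs_of_nonneg ht.1]
    exact mul_le_of_le_one_left (abs_nonneg _) ht.2

end mvt

/-! ## `jm`, `jac`, `dv` -/

@[simp] theorem jm_apply (Z : V → V) (x : V) (i j : Fin 3) :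
    jm Z x i j = pd j (fun y => Z y i) x := rfl

theorem dif_coord {Z : V → V} {x : V} (h : DifferentiableAt ℝ Z x) (i : Fin 3) :
    DifferentiableAt ℝ (fun y => Z y i) x := differentiableAt_pi.1 h i

theorem fderiv_eq_jm {Z : V → V} {x : V} (h : DifferentiableAt ℝ Z x) (v : V) :
    fderiv ℝ Z x v = jm Z x *ᵥ v := by
  funext i
  have : fderiv ℝ Z x v i = fderiv ℝ (fun y => Z y i) x v := by rw [fderiv_apply h i]; rfl
  rw [this, fderiv_eq_sum]; rfl

theorem fderiv_eq_clm {Z : V → V} {x : V} (h : DifferentiableAt ℝ Z x) :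
    fderiv ℝ Z x = clm (jm Z x) := by
  refine ContinuousLinearMap.ext fun v => ?_
  rw [fderiv_eq_jm h, clm_apply]

theorem hasFDerivAt_jm {Z : V → V} {x : V} (h : DifferentiableAt ℝ Z x) :
    HasFDerivAt Z (clm (jm Z x)) x := by rw [← fderiv_eq_clm h]; exact h.hasFDerivAt

theorem det_fderiv {Z : V → V} {x : V} (h : DifferentiableAt ℝ Z x) :
    (fderiv ℝ Z x).det = jac Z x := by rw [fderiv_eq_clm h, clm_det]; rfl

theorem jm_of_hasFDerivAt {Z : V → V} {x : V} {A : Mx} (h : HasFDerivAt Z (clm A) x) :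
    jm Z x = A := by
  ext i j
  have := congrFun (fderiv_eq_jm h.differentiableAt (Pi.single j 1)) i
  rw [h.fderiv, clm_apply] at this
  simpa using this.symm

theorem jm_congr {Z Z' : V → V} {x : V} (h : Z =ᶠ[𝓝 x] Z') : jm Z x = jm Z' x := by
  ext i j
  exact pd_congr (h.mono fun y hy => congrFun hy i) j

theorem jac_congr {Z Z' : V → V} {x : V} (h : Z =ᶠ[𝓝 x] Z') : jac Z x = jac Z' x := by
  unfold jac; rw [jm_congr h]

theorem dv_congr {Z Z' : V → V} {x : V} (h : Z =ᶠ[𝓝 x] Z') : dv Z x = dv Z' x :=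
  Finset.sum_congr rfl fun i _ => pd_congr (h.mono fun y hy => congrFun hy i) i

theorem dv_eq_trace (Z : V → V) (x : V) : dv Z x = (jm Z x).trace := rfl

theorem jm_affine (b : V) (A : Mx) (x : V) : jm (fun x => b + A *ᵥ x) x = A :=
  jm_of_hasFDerivAt (hasFDerivAt_affine b A x)

theorem jm_mulVec (A : Mx) (x : V) : jm (fun x => A *ᵥ x) x = A := by
  simpa using jm_affine 0 A x

theorem jm_id (x : V) : jm (fun y => y) x = 1 := by simpa using jm_mulVec 1 x

theorem jm_const (b x : V) : jm (fun _ => b) x = 0 := by ext i j; simp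

theorem jm_add_at {Z Y : V → V} {x : V} (hZ : DifferentiableAt ℝ Z x) (hY : DifferentiableAt ℝ Y x) :
    jm (fun y => Z y + Y y) x = jm Z x + jm Y x := by
  ext i j; exact pd_add_at (dif_coord hZ i) (dif_coord hY i) j

theorem jm_sub_at {Z Y : V → V} {x : V} (hZ : DifferentiableAt ℝ Z x) (hY : DifferentiableAt ℝ Y x) :
    jm (fun y => Z y - Y y) x = jm Z x - jm Y x := by
  ext i j; exact pd_sub_at (dif_coord hZ i) (dif_coord hY i) j

theorem jm_add {Z Y : V → V} (hZ : Sm Z) (hY : Sm Y) (x : V) :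
    jm (fun y => Z y + Y y) x = jm Z x + jm Y x := jm_add_at (hZ.dif x) (hY.dif x)

theorem jm_sub {Z Y : V → V} (hZ : Sm Z) (hY : Sm Y) (x : V) :
    jm (fun y => Z y - Y y) x = jm Z x - jm Y x := jm_sub_at (hZ.dif x) (hY.dif x)

theorem jm_neg (Z : V → V) (x : V) : jm (fun y => -Z y) x = -jm Z x := by
  ext i j; exact pd_neg _ j x

theorem jm_const_smul (c : ℝ) (Z : V → V) (x : V) : jm (fun y => c • Z y) x = c • jm Z x := by
  ext i j; exact pd_const_mul c _ j x

theorem jm_add_const (Z : V → V) (b x : V) : jm (fun y => Z y + b) x = jm Z x := by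
  ext i j
  show fderiv ℝ (fun y => Z y i + b i) x _ = _
  rw [fderiv_add_const]; rfl

theorem jm_id_add {Y : V → V} {x : V} (hY : DifferentiableAt ℝ Y x) :
    jm (fun y => y + Y y) x = 1 + jm Y x := by
  rw [jm_add_at (Z := fun y => y) differentiableAt_id hY, jm_id]

theorem jm_sum_at {ι : Type*} (s : Finset ι) {Z : ι → V → V} {x : V}
    (hZ : ∀ k ∈ s, DifferentiableAt ℝ (Z k) x) :
    jm (fun y => ∑ k ∈ s, Z k y) x = ∑ k ∈ s, jm (Z k) x := by
  ext i j
  simp only [jm_apply, Finset.sum_apply, Matrix.sum_apply]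
  exact pd_sum_at s (fun k hk => dif_coord (hZ k hk) i) j

theorem jm_sum {ι : Type*} (s : Finset ι) {Z : ι → V → V} (hZ : ∀ k ∈ s, Sm (Z k)) (x : V) :
    jm (fun y => ∑ k ∈ s, Z k y) x = ∑ k ∈ s, jm (Z k) x :=
  jm_sum_at s fun k hk => (hZ k hk).dif x

/-- product rule -/
theorem jm_smul_at {f : V → ℝ} {Z : V → V} {x : V} (hf : DifferentiableAt ℝ f x)
    (hZ : DifferentiableAt ℝ Z x) :
    jm (fun y => f y • Z y) x = vecMulVec (Z x) (fun j => pd j f x) + f x • jm Z x := by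
  ext i j
  have := pd_mul_at hf (dif_coord hZ i) j
  simp only [jm_apply, Pi.smul_apply, smul_eq_mul, Matrix.add_apply, vecMulVec_apply,
    Matrix.smul_apply, this]
  ring

theorem jm_smul_const {f : V → ℝ} (v x : V) :
    jm (fun y => f y • v) x = vecMulVec v fun j => pd j f x := by
  ext i j
  simp only [jm_apply, Pi.smul_apply, smul_eq_mul, vecMulVec_apply, mul_comm _ (v i)]
  exact pd_const_mul _ _ j x

/-- chain rule for a scalar function -/
theorem pd_comp {g : V → ℝ} {Z : V → V} {x : V} (hg : DifferentiableAt ℝ g (Z x))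
    (hZ : DifferentiableAt ℝ Z x) (j : Fin 3) :
    pd j (fun y => g (Z y)) x = ∑ i, pd i g (Z x) * jm Z x i j := by
  unfold pd
  rw [show (fun y => g (Z y)) = g ∘ Z from rfl, fderiv_comp x hg hZ]
  simp only [ContinuousLinearMap.comp_apply]
  rw [fderiv_eq_sum, fderiv_eq_jm hZ]
  simp [pd]

theorem jm_comp {Y Z : V → V} {x : V} (hY : DifferentiableAt ℝ Y (Z x))
    (hZ : DifferentiableAt ℝ Z x) : jm (fun y => Y (Z y)) x = jm Y (Z x) * jm Z x := by
  ext i j
  rw [Matrix.mul_apply]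
  exact pd_comp (g := fun w => Y w i) (dif_coord hY i) hZ j

theorem jac_comp {Y Z : V → V} {x : V} (hY : DifferentiableAt ℝ Y (Z x))
    (hZ : DifferentiableAt ℝ Z x) : jac (fun y => Y (Z y)) x = jac Y (Z x) * jac Z x := by
  unfold jac; rw [jm_comp hY hZ, det_mul]

theorem jm_comp_affine {Y : V → V} (b : V) (A : Mx) {x : V}
    (hY : DifferentiableAt ℝ Y (b + A *ᵥ x)) :
    jm (fun y => Y (b + A *ᵥ y)) x = jm Y (b + A *ᵥ x) * A := by
  rw [jm_comp (Z := fun y => b + A *ᵥ y) hY ((sm_affine b A).dif x), jm_affine]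

theorem jm_affine_comp {Z : V → V} (b : V) (A : Mx) {x : V} (hZ : DifferentiableAt ℝ Z x) :
    jm (fun y => b + A *ᵥ Z y) x = A * jm Z x := by
  rw [jm_comp (Y := fun y => b + A *ᵥ y) ((sm_affine b A).dif _) hZ, jm_affine]

theorem jm_mulVec_comp {Z : V → V} (A : Mx) {x : V} (hZ : DifferentiableAt ℝ Z x) :
    jm (fun y => A *ᵥ Z y) x = A * jm Z x := by simpa using jm_affine_comp 0 A hZ

theorem pd_comp_affine {g : V → ℝ} (b : V) (A : Mx) {x : V}
    (hg : DifferentiableAt ℝ g (b + A *ᵥ x)) (j : Fin 3) :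
    pd j (fun y => g (b + A *ᵥ y)) x = ∑ i, pd i g (b + A *ᵥ x) * A i j := by
  rw [pd_comp (Z := fun y => b + A *ᵥ y) hg ((sm_affine b A).dif x), jm_affine]

theorem jac_id (x : V) : jac (fun y => y) x = 1 := by unfold jac; rw [jm_id, det_one]
theorem jac_affine (b : V) (A : Mx) (x : V) : jac (fun x => b + A *ᵥ x) x = A.det := by
  unfold jac; rw [jm_affine]

theorem dv_add_at {Z Y : V → V} {x : V} (hZ : DifferentiableAt ℝ Z x) (hY : DifferentiableAt ℝ Y x) :
    dv (fun y => Z y + Y y) x = dv Z x + dv Y x := by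
  simp only [dv_eq_trace, jm_add_at hZ hY, trace_add]
theorem dv_sub_at {Z Y : V → V} {x : V} (hZ : DifferentiableAt ℝ Z x) (hY : DifferentiableAt ℝ Y x) :
    dv (fun y => Z y - Y y) x = dv Z x - dv Y x := by
  simp only [dv_eq_trace, jm_sub_at hZ hY, trace_sub]
theorem dv_add {Z Y : V → V} (hZ : Sm Z) (hY : Sm Y) (x : V) :
    dv (fun y => Z y + Y y) x = dv Z x + dv Y x := dv_add_at (hZ.dif x) (hY.dif x)
theorem dv_sub {Z Y : V → V} (hZ : Sm Z) (hY : Sm Y) (x : V) :
    dv (fun y => Z y - Y y) x = dv Z x - dv Y x := dv_sub_at (hZ.dif x) (hY.dif x)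
theorem dv_neg (Z : V → V) (x : V) : dv (fun y => -Z y) x = -dv Z x := by
  simp only [dv_eq_trace, jm_neg, trace_neg]
theorem dv_const_smul (c : ℝ) (Z : V → V) (x : V) : dv (fun y => c • Z y) x = c * dv Z x := by
  simp only [dv_eq_trace, jm_const_smul, trace_smul, smul_eq_mul]
theorem dv_const (b x : V) : dv (fun _ => b) x = 0 := by simp [dv]
theorem dv_sum_at {ι : Type*} (s : Finset ι) {Z : ι → V → V} {x : V}
    (hZ : ∀ k ∈ s, DifferentiableAt ℝ (Z k) x) :
    dv (fun y => ∑ k ∈ s, Z k y) x = ∑ k ∈ s, dv (Z k) x := by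
  simp only [dv_eq_trace, jm_sum_at s hZ, trace_sum]
theorem dv_sum {ι : Type*} (s : Finset ι) {Z : ι → V → V} (hZ : ∀ k ∈ s, Sm (Z k)) (x : V) :
    dv (fun y => ∑ k ∈ s, Z k y) x = ∑ k ∈ s, dv (Z k) x := dv_sum_at s fun k hk => (hZ k hk).dif x
/-- product rule -/
theorem dv_smul_at {f : V → ℝ} {Z : V → V} {x : V} (hf : DifferentiableAt ℝ f x)
    (hZ : DifferentiableAt ℝ Z x) :
    dv (fun y => f y • Z y) x = ∑ i, pd i f x * Z x i + f x * dv Z x := by
  unfold dv
  rw [Finset.mul_sum, ← Finset.sum_add_distrib]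
  exact Finset.sum_congr rfl fun i _ => pd_mul_at hf (dif_coord hZ i) i
theorem dv_smul {f : V → ℝ} {Z : V → V} (hf : Sm f) (hZ : Sm Z) (x : V) :
    dv (fun y => f y • Z y) x = ∑ i, pd i f x * Z x i + f x * dv Z x :=
  dv_smul_at (hf.dif x) (hZ.dif x)
/-- divergence after an affine change of frame -/
theorem dv_conj {Y : V → V} (b : V) (A C : Mx) {x : V} (hY : Differentiable ℝ Y) :
    dv (fun y => C *ᵥ Y (b + A *ᵥ y)) x = (A * C * jm Y (b + A *ᵥ x)).trace := by
  rw [dv_eq_trace, jm_mulVec_comp C (Z := fun y => Y (b + A *ᵥ y))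
    ((hY _).comp x ((sm_affine b A).dif x)), jm_comp_affine b A (hY _), ← Matrix.mul_assoc,
    trace_mul_comm, Matrix.mul_assoc]

/-! ## smooth matrix fields -/

theorem smM_const (A : Mx) : SmM fun _ => A := fun _ _ => contDiff_const
protected theorem SmM.add {S T : V → Mx} (hS : SmM S) (hT : SmM T) : SmM fun x => S x + T x :=
  fun i j => ContDiff.add (hS i j) (hT i j)
protected theorem SmM.sub {S T : V → Mx} (hS : SmM S) (hT : SmM T) : SmM fun x => S x - T x :=
  fun i j => ContDiff.sub (hS i j) (hT i j)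
protected theorem SmM.neg {S : V → Mx} (hS : SmM S) : SmM fun x => -S x :=
  fun i j => ContDiff.neg (hS i j)
protected theorem SmM.mul {S T : V → Mx} (hS : SmM S) (hT : SmM T) : SmM fun x => S x * T x :=
  fun i j => ContDiff.sum (s := Finset.univ) fun k _ => ContDiff.mul (hS i k) (hT k j)
protected theorem SmM.transpose {S : V → Mx} (hS : SmM S) : SmM fun x => (S x)ᵀ := fun i j => hS j i
protected theorem SmM.smul {f : V → ℝ} {S : V → Mx} (hf : Sm f) (hS : SmM S) :
    SmM fun x => f x • S x := fun i j => ContDiff.mul hf (hS i j)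
protected theorem SmM.const_smul {S : V → Mx} (hS : SmM S) (c : ℝ) : SmM fun x => c • S x :=
  SmM.smul (sm_const c) hS
protected theorem SmM.sum {ι : Type*} (s : Finset ι) {S : ι → V → Mx} (hS : ∀ k ∈ s, SmM (S k)) :
    SmM fun x => ∑ k ∈ s, S k x := fun i j => by
  simp only [Matrix.sum_apply]; exact ContDiff.sum fun k hk => hS k hk i j
protected theorem SmM.comp {S : V → Mx} {Z : V → V} (hS : SmM S) (hZ : Sm Z) :
    SmM fun x => S (Z x) := fun i j => ContDiff.comp (hS i j) hZ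
protected theorem SmM.mulVec {S : V → Mx} {Z : V → V} (hS : SmM S) (hZ : Sm Z) :
    Sm fun x => S x *ᵥ Z x :=
  sm_pi fun i => ContDiff.sum (s := Finset.univ) fun k _ => ContDiff.mul (hS i k) (hZ.coord k)
protected theorem SmM.det {S : V → Mx} (hS : SmM S) : Sm fun x => (S x).det := by
  simp only [det_fin_three]
  have m : ∀ a b c d e f : Fin 3, Sm fun x => S x a b * S x c d * S x e f := fun a b c d e f =>
    ContDiff.mul (ContDiff.mul (hS a b) (hS c d)) (hS e f)
  exact ContDiff.sub (ContDiff.add (ContDiff.add (ContDiff.sub (ContDiff.sub (m ..) (m ..)) (m ..))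
    (m ..)) (m ..)) (m ..)
protected theorem SmM.trace {S : V → Mx} (hS : SmM S) : Sm fun x => (S x).trace :=
  ContDiff.sum (s := Finset.univ) fun k _ => hS k k
protected theorem SmM.cont {S : V → Mx} (hS : SmM S) (i j : Fin 3) : Continuous fun x => S x i j :=
  (hS i j).continuous
protected theorem SmM.continuous {S : V → Mx} (hS : SmM S) : Continuous S :=
  continuous_matrix hS.cont
theorem smM_vecMulVec {Z Y : V → V} (hZ : Sm Z) (hY : Sm Y) : SmM fun x => vecMulVec (Z x) (Y x) :=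
  fun i j => ContDiff.mul (hZ.coord i) (hY.coord j)
theorem smM_dg3 {a b c : V → ℝ} (ha : Sm a) (hb : Sm b) (hc : Sm c) :
    SmM fun x => dg3 (a x) (b x) (c x) := fun i j => by
  fin_cases i <;> fin_cases j <;> simp [dg3, ha, hb, hc, contDiff_const]
protected theorem Sm.jm {Z : V → V} (hZ : Sm Z) : SmM (jm Z) := fun i j => (hZ.coord i).pd j
protected theorem Sm.jac {Z : V → V} (hZ : Sm Z) : Sm (jac Z) := hZ.jm.det
protected theorem Sm.dv {Z : V → V} (hZ : Sm Z) : Sm (dv Z) := hZ.jm.trace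
protected theorem Sm.gram {Z : V → V} (hZ : Sm Z) : SmM (gram Z) := hZ.jm.transpose.mul hZ.jm
protected theorem Sm.dot {Z Y : V → V} (hZ : Sm Z) (hY : Sm Y) : Sm fun x => Z x ⬝ᵥ Y x :=
  ContDiff.sum (s := Finset.univ) fun k _ => ContDiff.mul (hZ.coord k) (hY.coord k)

/-! ## maps -/

/-- a map whose differential has entries at most `L` is `3 L`-Lipschitz in the sup norm -/
theorem lip_of_jm {Z : V → V} {U : Set V} (hU : Convex ℝ U) (hZ : ∀ y ∈ U, DifferentiableAt ℝ Z y)
    {L : ℝ} (hL : ∀ y ∈ U, EB (jm Z y) (cm L)) {x x' : V} (hx : x ∈ U) (hx' : x' ∈ U) :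
    ‖Z x - Z x'‖ ≤ 3 * L * ‖x - x'‖ := by
  have h0 : 0 ≤ L := (abs_nonneg _).trans (hL x hx 0 0)
  refine (pi_norm_le_iff_of_nonneg (by positivity)).2 fun i => ?_
  refine (mvt_pd hU (fun y hy => dif_coord (hZ y hy) i) (b := cv L) (fun j y hy => hL y hy i j)
    hx hx').trans ?_
  have : ∑ j, cv L j * |x j - x' j| ≤ ∑ _j : Fin 3, L * ‖x - x'‖ :=
    Finset.sum_le_sum fun j _ => mul_le_mul_of_nonneg_left (norm_le_pi_norm (x - x') j) h0
  refine this.trans (le_of_eq ?_)
  simp; ring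

/-- entrywise mean value inequality for maps -/
theorem mvt_jm {Z : V → V} {U : Set V} (hU : Convex ℝ U) (hZ : ∀ y ∈ U, DifferentiableAt ℝ Z y)
    {A E : Mx} (hL : ∀ y ∈ U, EB (jm Z y - A) E) {x x' : V} (hx : x ∈ U) (hx' : x' ∈ U)
    (i : Fin 3) : |(Z x - Z x' - A *ᵥ (x - x')) i| ≤ ∑ j, E i j * |x j - x' j| := by
  have := mvt_pd (g := fun y => Z y i - A i ⬝ᵥ y) hU
    (fun y hy => (dif_coord (hZ y hy) i).sub ((sm_dot _).dif y)) (b := E i) (fun j y hy => by
      rw [pd_sub_at (dif_coord (hZ y hy) i) ((sm_dot _).dif y), pd_dot]; exact hL y hy i j) hx hx'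
  refine le_trans (le_of_eq ?_) this
  congr 1
  simp only [Pi.sub_apply, mulVec, dotProduct_sub]; ring

/-! ## existence of bounds, a smoothness criterion, matrix products -/

/-- a class of differentiable functions closed under `pd` consists of smooth functions -/
theorem sm_of_closed (C : (V → ℝ) → Prop) (h : ∀ g, C g → Differentiable ℝ g ∧ ∀ j, C (pd j g))
    {g : V → ℝ} (hg : C g) : Sm g := by
  have key : ∀ n : ℕ, ∀ g, C g → ContDiff ℝ n g := by
    intro n
    induction n with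
    | zero => intro g hg; exact_mod_cast contDiff_zero.2 (h g hg).1.continuous
    | succ n ih =>
      intro g hg
      push_cast
      refine contDiff_succ_iff_fderiv_apply.2 ⟨(h g hg).1, by simp, fun y => ?_⟩
      simp only [fderiv_eq_sum]
      exact ContDiff.sum fun i _ => (ih _ ((h g hg).2 i)).mul contDiff_const
  exact contDiff_infty.2 fun n => key n g hg

theorem exists_cb {h : V} {U : Set V} (hh : ∀ i, 0 ≤ h i) (hU : IsCompact U) (n : ℕ) :
    ∀ {g : V → ℝ}, Sm g → ∃ C, 0 ≤ C ∧ CB n h U g C := by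
  have h0 : ∀ {g : V → ℝ}, Sm g → ∃ C, 0 ≤ C ∧ ∀ x ∈ U, |g x| ≤ C := fun hg => by
    obtain ⟨C, hC⟩ := hU.exists_bound_of_continuousOn hg.continuous.continuousOn
    exact ⟨max C 0, le_max_right _ _, fun x hx => (hC x hx).trans (le_max_left _ _)⟩
  induction n with
  | zero => intro g hg; obtain ⟨C, h1, h2⟩ := h0 hg; exact ⟨C, h1, cb_zero_iff.2 h2⟩
  | succ n ih =>
    intro g hg
    obtain ⟨A, hA, h2⟩ := h0 hg
    choose C hC0 hC using fun j => ih ((hg.pd j).cmul (h j))
    have : CV (n + 1) h U g (∑ j, C j) := cv_of_pd hh fun j =>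
      CBl.monoB (hC j) (Finset.single_le_sum (fun k _ => hC0 k) (Finset.mem_univ j))
    exact ⟨_, le_max_of_le_left hA, this.toCB_max h2⟩

/-- a smooth function that vanishes off a compact set has global bounds -/
theorem exists_cb_univ {h : V} {K : Set V} (hh : ∀ i, 0 ≤ h i) (hK : IsCompact K) (n : ℕ)
    {g : V → ℝ} (hg : Sm g) (h0 : ∀ x, x ∉ K → g x = 0) : ∃ C, 0 ≤ C ∧ CB n h univ g C := by
  obtain ⟨C, hC, H⟩ := exists_cb hh hK n hg
  exact ⟨C, hC, CBl.extend (CBl.monoU H inter_subset_right) hK.isClosed h0 hC⟩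

section mat
variable {n : ℕ} {h : V} {U : Set V}

/-- entries of a matrix product -/
theorem cb_matmul {S T : V → Mx} {A B : Mx} (hh : ∀ i, 0 ≤ h i) (hS : SmM S) (hT : SmM T)
    (HS : ∀ i j, CB n h U (fun x => S x i j) (A i j)) (HT : ∀ i j, CB n h U (fun x => T x i j) (B i j))
    (i j : Fin 3) : CB n h U (fun x => (S x * T x) i j) (2 ^ n * (A * B) i j) := by
  have := CBl.sum Finset.univ hh (fun k _ => ContDiff.mul (hS i k) (hT k j))
    fun k _ => CB.mul hh (hS i k) (hT k j) (HS i k) (HT k j)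
  refine CBl.monoB this (le_of_eq ?_)
  rw [Matrix.mul_apply, Finset.mul_sum]
  exact Finset.sum_congr rfl fun k _ => by ring

theorem cb_mulVec {S : V → Mx} {Z : V → V} {A : Mx} {b : V} (hh : ∀ i, 0 ≤ h i) (hS : SmM S)
    (hZ : Sm Z) (HS : ∀ i j, CB n h U (fun x => S x i j) (A i j))
    (HZ : ∀ i, CB n h U (fun x => Z x i) (b i)) (i : Fin 3) :
    CB n h U (fun x => (S x *ᵥ Z x) i) (2 ^ n * (A *ᵥ b) i) := by
  have := CBl.sum Finset.univ hh (fun k _ => ContDiff.mul (hS i k) (hZ.coord k))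
    fun k _ => CB.mul hh (hS i k) (hZ.coord k) (HS i k) (HZ k)
  refine CBl.monoB this (le_of_eq ?_)
  simp only [mulVec, dotProduct, Finset.mul_sum]
  exact Finset.sum_congr rfl fun k _ => by ring

/-- constant matrix times a vector field, any class of lists -/
theorem cbl_const_mulVec {P : List (Fin 3) → Prop} {Z : V → V} (A : Mx) {b : V}
    (hh : ∀ i, 0 ≤ h i) (hZ : Sm Z) (HZ : ∀ i, CBl P h U (fun x => Z x i) (b i)) (i : Fin 3) :
    CBl P h U (fun x => (A *ᵥ Z x) i) (∑ k, |A i k| * b k) :=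
  CBl.sum Finset.univ hh (fun k _ => (hZ.coord k).cmul _) fun k _ => (HZ k).smul (A i k)

/-- determinant of a matrix field with entries bounded by `B` -/
theorem cb_det {S : V → Mx} {B : ℝ} (hh : ∀ i, 0 ≤ h i) (hS : SmM S)
    (H : ∀ i j, CB n h U (fun x => S x i j) B) :
    CB n h U (fun x => (S x).det) (6 * (4 ^ n * B ^ 3)) := by
  have m : ∀ a b c d e f : Fin 3, Sm fun x => S x a b * S x c d * S x e f := fun a b c d e f =>
    ContDiff.mul (ContDiff.mul (hS a b) (hS c d)) (hS e f)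
  have M : ∀ a b c d e f : Fin 3,
      CB n h U (fun x => S x a b * S x c d * S x e f) (4 ^ n * (B * B * B)) := fun a b c d e f =>
    CB.mul3 hh (hS a b) (hS c d) (hS e f) (H a b) (H c d) (H e f)
  have s1 := ContDiff.sub (m 0 0 1 1 2 2) (m 0 0 1 2 2 1)
  have s2 := ContDiff.sub s1 (m 0 1 1 0 2 2)
  have s3 := ContDiff.add s2 (m 0 1 1 2 2 0)
  have s4 := ContDiff.add s3 (m 0 2 1 0 2 1)
  have := CBl.sub hh s4 (m 0 2 1 1 2 0) (CBl.add hh s3 (m ..) (CBl.add hh s2 (m ..)
    (CBl.sub hh s1 (m ..) (CBl.sub hh (m ..) (m ..) (M _ _ _ _ _ _) (M _ _ _ _ _ _)) (M _ _ _ _ _ _)) (M _ _ _ _ _ _)) (M _ _ _ _ _ _)) (M _ _ _ _ _ _)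
  refine CBl.monoB (CBl.congr_fun this fun x => det_fin_three _) (le_of_eq (by ring))

/-- entries of the differential -/
theorem cb_jm {Z : V → V} {B : ℝ} (hh : ∀ i, 0 < h i) (i j : Fin 3)
    (H : CV (n + 1) h U (fun x => Z x i) B) : CB n h U (fun x => jm Z x i j) (B / h j) :=
  CV.pd_div hh H j

theorem cb_dv {Z : V → V} {b : V} (hh : ∀ i, 0 < h i) (hZ : Sm Z)
    (H : ∀ i, CV (n + 1) h U (fun x => Z x i) (b i)) : CB n h U (dv Z) (∑ i, b i / h i) :=
  CBl.sum Finset.univ (fun i => (hh i).le) (fun i _ => (hZ.coord i).pd i)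
    fun i _ => CV.pd_div hh (H i) i

end mat

end
end Pool.Agent.MP_20bec2_an.T3

end MrgPart1

-- marker of a merged file
example : 731051 + 23476 = 731051 + 23476 := rfl
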