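import Mathlib.Algebra.Order.Star.Real
import Mathlib.Analysis.SpecialFunctions.Pow.Deriv
import Mathlib.Analysis.Calculus.BumpFunction.FiniteDimension
import Pool.Agent.MP_20bec2_an.T3.Calc1b
import Mathlib.Algebra.Order.Ring.Star

-- ======== part 0: formerly Pool.Agent.MP_20bec2_an.T3.Calc2B
section MrgPart0

-- ======== part 0: formerly Pool.Agent.MP_20bec2_an.T3.Calc2A
section MrgPart0

/-! Basic rules for lists of derivatives, and the general chain rule bound. -/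

set_option autoImplicit false
open MeasureTheory Set Filter Matrix Topology

namespace Pool.Agent.MP_20bec2_an.T3
noncomputable section

/-- derivative in one variable of a function of several variables -/
def pdg {ι : Type} [Fintype ι] [DecidableEq ι] (i : ι) (Φ : (ι → ℝ) → ℝ) (y : ι → ℝ) : ℝ :=
  fderiv ℝ Φ y (Pi.single i 1)

/-- iterated derivative -/
def pdsg {ι : Type} [Fintype ι] [DecidableEq ι] : List ι → ((ι → ℝ) → ℝ) → (ι → ℝ) → ℝ
  | [], Φ => Φ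
  | i :: p, Φ => pdg i (pdsg p Φ)

/-- scaled bounds of the derivatives of order `1..n` of an outer function on `T` -/
def OB {ι : Type} [Fintype ι] [DecidableEq ι] (n : ℕ) (k : ι → ℝ) (T : Set (ι → ℝ))
    (Φ : (ι → ℝ) → ℝ) (M : ℝ) : Prop :=
  ∀ p : List ι, 1 ≤ p.length → p.length ≤ n → ∀ y ∈ T, (p.map k).prod * |pdsg p Φ y| ≤ M

/-- the constant in the chain rule: `m` inner functions, order `n` -/
def cf (m n : ℕ) : ℝ := (((m : ℝ) + 1) * 2 ^ n) ^ n

namespace C2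

section General

variable {ι : Type} [Fintype ι] [DecidableEq ι]

lemma sm_pdg {Φ : (ι → ℝ) → ℝ} (h : Sm Φ) (i : ι) : Sm (pdg i Φ) :=
  (h.fderiv_right (m := ((⊤ : ℕ∞) : WithTop ℕ∞)) (by simp)).clm_apply contDiff_const

lemma sm_pdsg {Φ : (ι → ℝ) → ℝ} (h : Sm Φ) (p : List ι) : Sm (pdsg p Φ) := by
  induction p with
  | nil => exact h
  | cons i p ih => exact sm_pdg ih i

lemma pdsg_snoc (p : List ι) (i : ι) (Φ : (ι → ℝ) → ℝ) : pdsg (p ++ [i]) Φ = pdsg p (pdg i Φ) := by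
  induction p with
  | nil => rfl
  | cons j p ih => simp only [List.cons_append, pdsg, ih]

lemma pdsg_congr {Φ Ψ : (ι → ℝ) → ℝ} {y : ι → ℝ} (h : Φ =ᶠ[𝓝 y] Ψ) (p : List ι) :
    pdsg p Φ =ᶠ[𝓝 y] pdsg p Ψ := by
  induction p with
  | nil => exact h
  | cons i p ih => exact (ih.fderiv (𝕜 := ℝ)).mono fun z hz => by simp only [pdsg, pdg, hz]

lemma clm_eq_sum (L : (ι → ℝ) →L[ℝ] ℝ) (v : ι → ℝ) : L v = ∑ i, v i * L (Pi.single i 1) := by
  conv_lhs => rw [← Finset.univ_sum_single v, map_sum]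
  refine Finset.sum_congr rfl fun i _ => ?_
  rw [← smul_eq_mul, ← map_smul, ← Pi.single_smul, smul_eq_mul, mul_one]

end General

/-- a function that is smooth on an open set agrees near a point with a smooth function -/
lemma exists_sm_near {E : Type} [NormedAddCommGroup E] [NormedSpace ℝ E] [FiniteDimensional ℝ E]
    {O : Set E} (hO : IsOpen O) {Φ : E → ℝ} (h : ContDiffOn ℝ ((⊤ : ℕ∞) : WithTop ℕ∞) Φ O) {y : E}
    (hy : y ∈ O) : ∃ Ψ : E → ℝ, Sm Ψ ∧ Ψ =ᶠ[𝓝 y] Φ := by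
  obtain ⟨r, hr, hb⟩ := Metric.nhds_basis_closedBall.mem_iff.1 (hO.mem_nhds hy)
  let b : ContDiffBump y := ⟨r / 2, r, by linarith, by linarith⟩
  refine ⟨fun z => b z * Φ z, contDiff_iff_contDiffAt.2 fun z => ?_,
    b.eventuallyEq_one.mono fun z hz => by simp [hz]⟩
  by_cases hz : z ∈ O
  · exact b.contDiff.contDiffAt.mul (h.contDiffAt (hO.mem_nhds hz))
  · have : z ∉ tsupport b := by
      rw [b.tsupport_eq]
      exact fun k => hz (hb k)
    refine contDiffAt_const.congr_of_eventuallyEq (f := fun _ => (0 : ℝ)) ?_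
    exact (notMem_tsupport_iff_eventuallyEq.1 this).mono fun w hw => by simp [hw]

lemma pdsg_eq (l : List (Fin 3)) (g : V → ℝ) : pdsg l g = pds l g := by
  induction l with
  | nil => rfl
  | cons i l ih => simp only [pdsg, pds, ih]; rfl

variable {f g : V → ℝ} {h : V} {x : V}

lemma perm_last {l : List (Fin 3)} {j : Fin 3} (hj : j ∈ l) :
    ∃ l', l.Perm (l' ++ [j]) ∧ l'.length + 1 = l.length := by
  have := List.perm_cons_erase hj
  exact ⟨l.erase j, this.trans (List.perm_append_singleton _ _).symm, this.length_eq.symm⟩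

/-- the scaled derivative of the scaled derivative -/
lemma snoc_eq (g : V → ℝ) (hh : ∀ i, 0 ≤ h i) (l : List (Fin 3)) (j : Fin 3) (x : V) :
    hp h l * |pds l (fun y => h j * pd j g y) x| = hp h (l ++ [j]) * |pds (l ++ [j]) g x| := by
  rw [pds_const_mul, pds_concat, hp_concat, abs_mul, abs_of_nonneg (hh j), mul_assoc]

/-- the Leibniz rule, with bounds for the sublists -/
lemma leibniz (hh : ∀ i, 0 ≤ h i) (l : List (Fin 3)) : ∀ {f g : V → ℝ} {A B : ℝ}, Sm f → Sm g →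
    (∀ p, p.Sublist l → hp h p * |pds p f x| ≤ A) → (∀ p, p.Sublist l → hp h p * |pds p g x| ≤ B) →
    hp h l * |pds l (fun y => f y * g y) x| ≤ 2 ^ l.length * (A * B) := by
  induction l using List.reverseRecOn with
  | nil =>
    intro f g A B _ _ h1 h2
    have a := h1 [] List.Sublist.slnil
    have b := h2 [] List.Sublist.slnil
    simp only [hp, List.map_nil, List.prod_nil, one_mul, pds, List.length_nil, pow_zero,
      abs_mul] at a b ⊢
    exact mul_le_mul a b (abs_nonneg _) ((abs_nonneg _).trans a)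
  | append_singleton l j ih =>
    intro f g A B hf hg h1 h2
    have sf : Sm fun y => h j * pd j f y := contDiff_const.mul (Sm.pd hf j)
    have sg : Sm fun y => h j * pd j g y := contDiff_const.mul (Sm.pd hg j)
    have a := ih sf hg (fun p hp' => (snoc_eq f hh p j x).trans_le
      (h1 _ (hp'.append_right _))) fun p hp' => h2 p (hp'.trans (List.sublist_append_left _ _))
    have b := ih hf sg (fun p hp' => h1 p (hp'.trans (List.sublist_append_left _ _)))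
      fun p hp' => (snoc_eq g hh p j x).trans_le (h2 _ (hp'.append_right _))
    rw [← snoc_eq _ hh, pd_mul hf hg]
    have e : (fun y => h j * (pd j f y * g y + f y * pd j g y)) =
        fun y => h j * pd j f y * g y + f y * (h j * pd j g y) := by
      funext y
      ring
    simp only [e, pds_add (sf.mul hg) (hf.mul sg), List.length_append, List.length_singleton,
      pow_succ]
    have := mul_le_mul_of_nonneg_left (abs_add_le (pds l (fun y => h j * pd j f y * g y) x)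
      (pds l (fun y => f y * (h j * pd j g y)) x)) (hp_nonneg hh l)
    linarith

lemma cf_one (m n : ℕ) : 1 ≤ cf m n :=
  one_le_pow₀ (one_le_mul_of_one_le_of_one_le (by simp) (one_le_pow₀ one_le_two))

lemma cf_succ (m n : ℕ) : (m + 1) * (2 ^ n * cf m n) ≤ cf m (n + 1) := by
  unfold cf
  rw [pow_succ _ n, ← mul_assoc, mul_comm]
  gcongr <;> simp

lemma cf_mono (m : ℕ) : Monotone (cf m) := monotone_nat_of_le_succ fun n => by
  refine le_trans ?_ (cf_succ m n)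
  have h1 : (1 : ℝ) ≤ 2 ^ n := one_le_pow₀ one_le_two
  have h2 := cf_one m n
  have h3 : cf m n ≤ 2 ^ n * cf m n := le_mul_of_one_le_left (by linarith) h1
  nlinarith [Nat.cast_nonneg (α := ℝ) m]

section Comp

variable {ι : Type} [Fintype ι] [DecidableEq ι] {G : V → ι → ℝ} {k : ι → ℝ} {D : ℝ}

lemma pd_compg {Φ : (ι → ℝ) → ℝ} (hΦ : Sm Φ) (hG : ∀ i, Sm fun y => G y i) (j : Fin 3) :
    pd j (fun y => Φ (G y)) = fun y => ∑ i, pdg i Φ (G y) * pd j (fun z => G z i) y := by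
  funext y
  have hd : DifferentiableAt ℝ G y := differentiableAt_pi.2 fun i => (hG i).dif y
  simp only [pd, pdg]
  rw [fderiv_fun_comp y (hΦ.dif _) hd, ContinuousLinearMap.comp_apply, clm_eq_sum]
  refine Finset.sum_congr rfl fun i _ => ?_
  rw [mul_comm, fderiv_pi fun i => (hG i).dif y]
  rfl

lemma comp_step (hh : ∀ i, 0 ≤ h i) (hG : ∀ i, Sm fun y => G y i) {Φ : (ι → ℝ) → ℝ} (hΦ : Sm Φ)
    (l : List (Fin 3)) (j : Fin 3) {A B : ι → ℝ}
    (h1 : ∀ i p, p.Sublist l → hp h p * |pds p (fun y => pdg i Φ (G y)) x| ≤ A i)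
    (h2 : ∀ i p, p.Sublist l → hp h (p ++ [j]) * |pds (p ++ [j]) (fun y => G y i) x| ≤ B i) :
    hp h (l ++ [j]) * |pds (l ++ [j]) (fun y => Φ (G y)) x| ≤
      2 ^ l.length * ∑ i, A i * B i := by
  have sG : Sm G := contDiff_pi.2 hG
  have s1 : ∀ i, Sm fun y => pdg i Φ (G y) := fun i => (sm_pdg hΦ i).comp sG
  have s2 : ∀ i, Sm fun y => h j * pd j (fun z => G z i) y := fun i =>
    contDiff_const.mul (Sm.pd (hG i) j)
  rw [← snoc_eq _ hh, pd_compg hΦ hG]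
  have e : (fun y => h j * ∑ i, pdg i Φ (G y) * pd j (fun z => G z i) y) =
      fun y => ∑ i, pdg i Φ (G y) * (h j * pd j (fun z => G z i) y) := by
    funext y
    rw [Finset.mul_sum]
    exact Finset.sum_congr rfl fun i _ => by ring
  rw [e, pds_sum _ fun i _ => (s1 i).mul (s2 i), Finset.mul_sum]
  refine (mul_le_mul_of_nonneg_left (Finset.abs_sum_le_sum_abs _ _) (hp_nonneg hh l)).trans ?_
  rw [Finset.mul_sum]
  exact Finset.sum_le_sum fun i _ => leibniz hh l (s1 i) (s2 i) (h1 i) fun p hp' =>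
    (snoc_eq _ hh p j x).trans_le (h2 i p hp')

lemma comp_all (hh : ∀ i, 0 ≤ h i) (hk : ∀ i, 0 < k i) (hG : ∀ i, Sm fun y => G y i) (hD : 1 ≤ D)
    (n : ℕ) : ∀ (l : List (Fin 3)) (Φ : (ι → ℝ) → ℝ) (M : ℝ), l.length ≤ n → Sm Φ →
    (∀ p : List ι, p.length ≤ n → (p.map k).prod * |pdsg p Φ (G x)| ≤ M) →
    (∀ i p, p.Sublist l → p ≠ [] → hp h p * |pds p (fun y => G y i) x| ≤ D * k i) →
    hp h l * |pds l (fun y => Φ (G y)) x| ≤ cf (Fintype.card ι) n * M * D ^ n := by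
  induction n with
  | zero =>
    intro l Φ M hl _ h1 _
    obtain rfl := List.length_eq_zero_iff.1 (Nat.le_zero.1 hl)
    simpa [hp, pds, pdsg, cf] using h1 [] le_rfl
  | succ n ih =>
    intro l Φ M hl hΦ h1 h2
    have h0 : |Φ (G x)| ≤ M := by simpa [pdsg] using h1 [] (Nat.zero_le _)
    have M0 : 0 ≤ M := (abs_nonneg _).trans h0
    have D1 : 1 ≤ D ^ (n + 1) := one_le_pow₀ hD
    rcases List.eq_nil_or_concat' l with rfl | ⟨l, j, rfl⟩
    · simp only [hp, List.map_nil, List.prod_nil, one_mul, pds]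
      have := cf_one (Fintype.card ι) (n + 1)
      calc |Φ (G x)| ≤ 1 * M * 1 := by linarith
        _ ≤ _ := by gcongr
    have hl' : l.length ≤ n := by simpa using hl
    refine (comp_step hh hG hΦ l j (A := fun i => cf (Fintype.card ι) n * (M / k i) * D ^ n)
      (B := fun i => D * k i) (fun i p hp' => ih p _ _ (hp'.length_le.trans hl') (sm_pdg hΦ i)
        (fun q hq => ?_) fun i q hq => h2 i q (hq.trans (hp'.trans (List.sublist_append_left _ _))))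
      fun i p hp' => h2 i _ (hp'.append_right _) (by simp)).trans ?_
    · rw [le_div_iff₀ (hk i), ← pdsg_snoc, mul_right_comm]
      simpa using h1 (q ++ [i]) (by simpa using hq)
    · have e : ∀ i, cf (Fintype.card ι) n * (M / k i) * D ^ n * (D * k i) =
          cf (Fintype.card ι) n * (M * D ^ (n + 1)) := fun i => by
        have := (hk i).ne'
        field_simp
        ring
      simp only [e, Finset.sum_const, Finset.card_univ, nsmul_eq_mul]
      have c1 := cf_one (Fintype.card ι) n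
      calc _ = (Fintype.card ι : ℝ) * (2 ^ l.length * cf (Fintype.card ι) n) * (M * D ^ (n + 1)) := by
            ring
        _ ≤ ((Fintype.card ι : ℝ) + 1) * (2 ^ n * cf (Fintype.card ι) n) * (M * D ^ (n + 1)) := by
            gcongr <;> simp
        _ ≤ cf (Fintype.card ι) (n + 1) * (M * D ^ (n + 1)) := by
            gcongr
            exact cf_succ _ _
        _ = _ := by ring

/-- the general chain rule bound; the innermost derivative is treated separately -/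
lemma comp_gen (hh : ∀ i, 0 ≤ h i) (hk : ∀ i, 0 < k i) (hG : ∀ i, Sm fun y => G y i) (hD : 1 ≤ D)
    {n : ℕ} {l : List (Fin 3)} (hl : l.length ≤ n) (j : Fin 3) {Φ : (ι → ℝ) → ℝ} (hΦ : Sm Φ)
    {M d : ι → ℝ} (h1 : ∀ i (p : List ι), p.length ≤ n →
      ((p ++ [i]).map k).prod * |pdsg (p ++ [i]) Φ (G x)| ≤ M i)
    (h2 : ∀ i p, p.Sublist l → p ≠ [] → hp h p * |pds p (fun y => G y i) x| ≤ D * k i)
    (h3 : ∀ i p, p.Sublist l → hp h (p ++ [j]) * |pds (p ++ [j]) (fun y => G y i) x| ≤ d i * k i) :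
    hp h (l ++ [j]) * |pds (l ++ [j]) (fun y => Φ (G y)) x| ≤
      2 ^ n * cf (Fintype.card ι) n * D ^ n * ∑ i, M i * d i := by
  have M0 : ∀ i, 0 ≤ M i := fun i => le_trans (by
    simp only [List.nil_append, List.map_cons, List.map_nil, List.prod_cons, List.prod_nil]
    have := hk i
    positivity) (h1 i [] (Nat.zero_le _))
  have d0 : ∀ i, 0 ≤ d i := fun i => nonneg_of_mul_nonneg_left (le_trans
    (mul_nonneg (hp_nonneg hh _) (abs_nonneg _)) (h3 i [] (List.nil_sublist _))) (hk i)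
  refine (comp_step hh hG hΦ l j (A := fun i => cf (Fintype.card ι) n * (M i / k i) * D ^ n)
    (fun i p hp' => comp_all hh hk hG hD n p _ _ (hp'.length_le.trans hl) (sm_pdg hΦ i)
      (fun q hq => ?_) fun i q hq => h2 i q (hq.trans hp')) h3).trans ?_
  · rw [le_div_iff₀ (hk i), ← pdsg_snoc, mul_right_comm]
    simpa using h1 i q hq
  · have e : ∀ i, cf (Fintype.card ι) n * (M i / k i) * D ^ n * (d i * k i) =
        cf (Fintype.card ι) n * D ^ n * (M i * d i) := fun i => by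
      have := (hk i).ne'
      field_simp
    simp only [e, ← Finset.mul_sum]
    have c1 := cf_one (Fintype.card ι) n
    have s0 : 0 ≤ ∑ i, M i * d i := Finset.sum_nonneg fun i _ => mul_nonneg (M0 i) (d0 i)
    have h2 : (2 : ℝ) ^ l.length ≤ 2 ^ n := pow_le_pow_right₀ one_le_two hl
    calc _ ≤ 2 ^ n * (cf (Fintype.card ι) n * D ^ n * ∑ i, M i * d i) := by gcongr
      _ = _ := by ring

end Comp

end C2

end
end Pool.Agent.MP_20bec2_an.T3

end MrgPart0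

-- ======== part 1: formerly Pool.Agent.MP_20bec2_an.T3.Calc2B
section MrgPart1

/-! Bounds for compositions, products of locally smooth functions, affine changes. -/

set_option autoImplicit false
open MeasureTheory Set Filter Matrix Topology

namespace Pool.Agent.MP_20bec2_an.T3
noncomputable section

open C2

/-- near every point of `U` the function agrees with a smooth function -/
def SmN {E : Type} [NormedAddCommGroup E] [NormedSpace ℝ E] (U : Set E) (g : E → ℝ) : Prop :=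
  ∀ x ∈ U, ∃ g' : E → ℝ, Sm g' ∧ g' =ᶠ[𝓝 x] g

section SmN

variable {E F : Type} [NormedAddCommGroup E] [NormedSpace ℝ E] [NormedAddCommGroup F]
  [NormedSpace ℝ F] {U U' : Set E} {f g : E → ℝ}

lemma SmN.of_sm (hg : Sm g) (U : Set E) : SmN U g := fun _ _ => ⟨g, hg, EventuallyEq.rfl⟩

lemma SmN.of_open [FiniteDimensional ℝ E] {O : Set E} (hO : IsOpen O)
    (hg : ContDiffOn ℝ ((⊤ : ℕ∞) : WithTop ℕ∞) g O) (hU : U ⊆ O) : SmN U g :=
  fun _ hx => exists_sm_near hO hg (hU hx)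

lemma SmN.mono (hg : SmN U g) (hU : U' ⊆ U) : SmN U' g := fun x hx => hg x (hU hx)

lemma SmN.contDiffAt (hg : SmN U g) {x : E} (hx : x ∈ U) :
    ContDiffAt ℝ ((⊤ : ℕ∞) : WithTop ℕ∞) g x := by
  obtain ⟨g', h1, h2⟩ := hg x hx
  exact h1.contDiffAt.congr_of_eventuallyEq h2.symm

lemma SmN.mul (hf : SmN U f) (hg : SmN U g) : SmN U fun x => f x * g x := fun x hx => by
  obtain ⟨f', h1, h2⟩ := hf x hx
  obtain ⟨g', h3, h4⟩ := hg x hx
  exact ⟨fun x => f' x * g' x, h1.mul h3, h2.mul h4⟩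

lemma SmN.add (hf : SmN U f) (hg : SmN U g) : SmN U fun x => f x + g x := fun x hx => by
  obtain ⟨f', h1, h2⟩ := hf x hx
  obtain ⟨g', h3, h4⟩ := hg x hx
  exact ⟨fun x => f' x + g' x, h1.add h3, h2.add h4⟩

lemma SmN.sub (hf : SmN U f) (hg : SmN U g) : SmN U fun x => f x - g x := fun x hx => by
  obtain ⟨f', h1, h2⟩ := hf x hx
  obtain ⟨g', h3, h4⟩ := hg x hx
  exact ⟨fun x => f' x - g' x, h1.sub h3, h2.sub h4⟩

lemma SmN.comp_sm {T : Set F} {Φ : F → ℝ} {G : E → F} (hΦ : SmN T Φ) (hG : Sm G)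
    (hT : MapsTo G U T) : SmN U fun x => Φ (G x) := fun x hx => by
  obtain ⟨Ψ, h1, h2⟩ := hΦ _ (hT hx)
  exact ⟨fun y => Ψ (G y), h1.comp hG, hG.continuous.continuousAt.eventually h2⟩

lemma SmN.comp1 {I : Set ℝ} {φ : ℝ → ℝ} (hφ : SmN I φ) (hg : SmN U g) (hI : MapsTo g U I) :
    SmN U fun x => φ (g x) := fun x hx => by
  obtain ⟨g', h1, h2⟩ := hg x hx
  obtain ⟨ψ, h3, h4⟩ := hφ _ (hI hx)
  rw [← h2.eq_of_nhds] at h4
  refine ⟨fun y => ψ (g' y), h3.comp h1, ?_⟩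
  filter_upwards [h1.continuous.continuousAt.eventually h4, h2] with y k1 k2
  rw [k1, k2]

lemma SmN.pi {ι : Type} [Fintype ι] {G : E → ι → ℝ} (hG : ∀ i, SmN U fun y => G y i) {x : E}
    (hx : x ∈ U) : ∃ G' : E → ι → ℝ, (∀ i, Sm fun y => G' y i) ∧ G' =ᶠ[𝓝 x] G := by
  choose G' h1 h2 using fun i => hG i x hx
  exact ⟨fun y i => G' i y, h1, (eventually_all.2 h2).mono fun y hy => funext hy⟩

lemma SmN.comp_pi {ι : Type} [Fintype ι] {T : Set (ι → ℝ)} {Φ : (ι → ℝ) → ℝ} {G : E → ι → ℝ}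
    (hΦ : SmN T Φ) (hG : ∀ i, SmN U fun y => G y i) (hT : MapsTo G U T) :
    SmN U fun x => Φ (G x) := fun x hx => by
  obtain ⟨G', h1, h2⟩ := SmN.pi hG hx
  obtain ⟨Ψ, h3, h4⟩ := hΦ _ (hT hx)
  have sG : Sm G' := contDiff_pi.2 h1
  rw [← h2.eq_of_nhds] at h4
  refine ⟨fun y => Ψ (G' y), h3.comp sG, ?_⟩
  filter_upwards [sG.continuous.continuousAt.eventually h4, h2] with y k1 k2
  rw [k1, k2]

lemma smN_inv : SmN {t : ℝ | t ≠ 0} fun t => t⁻¹ :=
  SmN.of_open isOpen_ne (contDiffOn_inv ℝ) subset_rfl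

lemma smN_rpow (r : ℝ) : SmN (Ioi (0 : ℝ)) fun t => t ^ r :=
  SmN.of_open isOpen_Ioi (fun _ ht =>
    (Real.contDiffAt_rpow_const_of_ne (ne_of_gt ht)).contDiffWithinAt) subset_rfl

lemma smN_sqrt : SmN (Ioi (0 : ℝ)) Real.sqrt := by
  simpa only [← Real.sqrt_eq_rpow] using smN_rpow (1 / 2)

lemma smN_log : SmN {t : ℝ | t ≠ 0} Real.log :=
  SmN.of_open isOpen_ne Real.contDiffOn_log subset_rfl

end SmN

variable {f g : V → ℝ} {h : V} {x : V} {U : Set V} {n : ℕ} {A B A' B' : ℝ}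

lemma SmN.pds (hg : SmN U g) (l : List (Fin 3)) : SmN U (pds l g) := fun x hx => by
  obtain ⟨g', h1, h2⟩ := hg x hx
  exact ⟨T3.pds l g', Sm.pds h1 l, pds_congr' h2 l⟩

lemma SmN.pd (hg : SmN U g) (j : Fin 3) : SmN U (pd j g) := hg.pds [j]

lemma SmN.perm (hg : SmN U g) (hx : x ∈ U) {l l' : List (Fin 3)} (hl : l.Perm l') :
    T3.pds l g x = T3.pds l' g x := by
  obtain ⟨g', h1, h2⟩ := hg x hx
  rw [← (pds_congr' h2 l).eq_of_nhds, ← (pds_congr' h2 l').eq_of_nhds, pds_perm h1 hl]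

/-- the bounds are local -/
lemma CBl.of_near {P : List (Fin 3) → Prop}
    (H : ∀ x ∈ U, ∃ g' : V → ℝ, g' =ᶠ[𝓝 x] g ∧ CBl P h {x} g' B) : CBl P h U g B := by
  intro l hl x hx
  obtain ⟨g', h1, h2⟩ := H x hx
  rw [← (pds_congr' h1 l).eq_of_nhds]
  exact h2 l hl x rfl

/-! ### products -/

lemma C2.mul_snoc (hh : ∀ i, 0 ≤ h i) (hf : SmN U f) (hg : SmN U g) (hx : x ∈ U) (l : List (Fin 3))
    (j : Fin 3) (h1 : ∀ p, p.Sublist l → hp h p * |pds p f x| ≤ A)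
    (h2 : ∀ p, p.Sublist l → hp h p * |pds p g x| ≤ B)
    (h3 : ∀ p, p.Sublist l → hp h (p ++ [j]) * |pds (p ++ [j]) f x| ≤ A')
    (h4 : ∀ p, p.Sublist l → hp h (p ++ [j]) * |pds (p ++ [j]) g x| ≤ B') :
    hp h (l ++ [j]) * |pds (l ++ [j]) (fun y => f y * g y) x| ≤
      2 ^ l.length * (A' * B + A * B') := by
  obtain ⟨f', sf, ef⟩ := hf x hx
  obtain ⟨g', sg, eg⟩ := hg x hx
  simp only [← fun p => (pds_congr' ef p).eq_of_nhds] at h1 h3
  simp only [← fun p => (pds_congr' eg p).eq_of_nhds] at h2 h4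
  rw [← (pds_congr' (g := fun y => f' y * g' y) (g' := fun y => f y * g y) (ef.mul eg) _).eq_of_nhds]
  have sf' : Sm fun y => h j * pd j f' y := contDiff_const.mul (Sm.pd sf j)
  have sg' : Sm fun y => h j * pd j g' y := contDiff_const.mul (Sm.pd sg j)
  have a := leibniz hh l sf' sg (fun p hp' => (snoc_eq _ hh p j x).trans_le (h3 p hp')) h2
  have b := leibniz hh l sf sg' h1 fun p hp' => (snoc_eq _ hh p j x).trans_le (h4 p hp')
  rw [← snoc_eq _ hh, pd_mul sf sg]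
  have e : (fun y => h j * (pd j f' y * g' y + f' y * pd j g' y)) =
      fun y => h j * pd j f' y * g' y + f' y * (h j * pd j g' y) := by
    funext y
    ring
  simp only [e, pds_add (sf'.mul sg) (sf.mul sg')]
  have := mul_le_mul_of_nonneg_left (abs_add_le (pds l (fun y => h j * pd j f' y * g' y) x)
    (pds l (fun y => f' y * (h j * pd j g' y)) x)) (hp_nonneg hh l)
  linarith

lemma CB.mulN (hh : ∀ i, 0 ≤ h i) (hf : SmN U f) (hg : SmN U g) (h1 : CB n h U f A)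
    (h2 : CB n h U g B) : CB n h U (fun y => f y * g y) (2 ^ n * (A * B)) := by
  intro l hl x hx
  have AB : 0 ≤ A * B :=
    mul_nonneg ((abs_nonneg _).trans (h1.val hx)) ((abs_nonneg _).trans (h2.val hx))
  obtain ⟨f', sf, ef⟩ := hf x hx
  obtain ⟨g', sg, eg⟩ := hg x hx
  rw [← (pds_congr' (g := fun y => f' y * g' y) (g' := fun y => f y * g y) (ef.mul eg) _).eq_of_nhds]
  refine (leibniz (A := A) (B := B) hh l sf sg (fun p hp' => ?_) fun p hp' => ?_).trans ?_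
  · rw [(pds_congr' ef p).eq_of_nhds]
    exact h1 p (hp'.length_le.trans hl) x hx
  · rw [(pds_congr' eg p).eq_of_nhds]
    exact h2 p (hp'.length_le.trans hl) x hx
  · exact mul_le_mul_of_nonneg_right (pow_le_pow_right₀ one_le_two hl) AB

lemma C2.mul_last (hh : ∀ i, 0 ≤ h i) (hf : SmN U f) (hg : SmN U g) (h1 : CB n h U f A)
    (h2 : CB n h U g B) (hx : x ∈ U) {l : List (Fin 3)} (hl : l.length ≤ n) {j : Fin 3}
    (hj : j ∈ l) (h3 : ∀ p, p.length < n → hp h (p ++ [j]) * |pds (p ++ [j]) f x| ≤ A')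
    (h4 : ∀ p, p.length < n → hp h (p ++ [j]) * |pds (p ++ [j]) g x| ≤ B') :
    hp h l * |pds l (fun y => f y * g y) x| ≤ 2 ^ n * (A' * B + A * B') := by
  obtain ⟨l', e, e'⟩ := perm_last hj
  have a0 := (abs_nonneg _).trans (h1.val hx)
  have b0 := (abs_nonneg _).trans (h2.val hx)
  have a1 := (mul_nonneg (hp_nonneg hh _) (abs_nonneg _)).trans (h3 [] (by simp; omega))
  have b1 := (mul_nonneg (hp_nonneg hh _) (abs_nonneg _)).trans (h4 [] (by simp; omega))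
  rw [hp_perm h e, (hf.mul hg).perm hx e]
  refine (C2.mul_snoc hh hf hg hx l' j (fun p hp' => h1 p (by have := hp'.length_le; change _ ≤ _; omega) x hx)
    (fun p hp' => h2 p (by have := hp'.length_le; change _ ≤ _; omega) x hx)
    (fun p hp' => h3 p (by have := hp'.length_le; omega))
    fun p hp' => h4 p (by have := hp'.length_le; omega)).trans ?_
  exact mul_le_mul_of_nonneg_right (pow_le_pow_right₀ one_le_two (by omega)) (by positivity)

lemma CV.mulN (hh : ∀ i, 0 ≤ h i) (hf : SmN U f) (hg : SmN U g) (h1 : CB n h U f A)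
    (h2 : CB n h U g B) (h3 : CV n h U f A') (h4 : CV n h U g B') :
    CV n h U (fun y => f y * g y) (2 ^ n * (A' * B + A * B')) := by
  rintro l ⟨l1, l2⟩ x hx
  obtain ⟨j, hj⟩ := List.exists_mem_of_length_pos l1
  exact C2.mul_last hh hf hg h1 h2 hx l2 hj (fun p hp' => h3 _ ⟨by simp, by simpa using hp'⟩ x hx)
    fun p hp' => h4 _ ⟨by simp, by simpa using hp'⟩ x hx

lemma CL.mulN (hh : ∀ i, 0 ≤ h i) (hf : SmN U f) (hg : SmN U g) (h1 : CB n h U f A)
    (h2 : CB n h U g B) (h3 : CL n h U f A') (h4 : CL n h U g B') :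
    CL n h U (fun y => f y * g y) (2 ^ n * (A' * B + A * B')) := by
  rintro l ⟨l2, j, hj, j2⟩ x hx
  exact C2.mul_last hh hf hg h1 h2 hx l2 hj
    (fun p hp' => h3 _ ⟨by simpa using hp', j, by simp, j2⟩ x hx)
    fun p hp' => h4 _ ⟨by simpa using hp', j, by simp, j2⟩ x hx

/-! ### several inner functions -/

section Comp

variable {ι : Type} [Fintype ι] [DecidableEq ι] {G : V → ι → ℝ} {k : ι → ℝ} {T : Set (ι → ℝ)}
  {Φ : (ι → ℝ) → ℝ} {d dL M : ℝ}

/-- the chain rule bound for a list that contains `j` -/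
lemma C2.comp_last (hh : ∀ i, 0 ≤ h i) (hk : ∀ i, 0 < k i) (hG : ∀ i, SmN U fun y => G y i)
    (hΦ : SmN T Φ) (hT : MapsTo G U T) (hx : x ∈ U) {l : List (Fin 3)} (hl : l.length ≤ n)
    {j : Fin 3} (hj : j ∈ l) {M e : ι → ℝ} (h1 : ∀ i (p : List ι), p.length < n →
      ((p ++ [i]).map k).prod * |pdsg (p ++ [i]) Φ (G x)| ≤ M i)
    (h2 : ∀ i, CV n h U (fun y => G y i) (d * k i))
    (h3 : ∀ i p, p.length < n → hp h (p ++ [j]) * |pds (p ++ [j]) (fun y => G y i) x| ≤ e i * k i) :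
    hp h l * |pds l (fun y => Φ (G y)) x| ≤
      2 ^ (n - 1) * cf (Fintype.card ι) (n - 1) * max 1 d ^ (n - 1) * ∑ i, M i * e i := by
  obtain ⟨l', e1, e2⟩ := perm_last hj
  rw [hp_perm h e1, (hΦ.comp_pi hG hT).perm hx e1]
  obtain ⟨G', s1, s2⟩ := SmN.pi hG hx
  obtain ⟨Ψ, s3, s4⟩ := hΦ _ (hT hx)
  have sG : Sm G' := contDiff_pi.2 s1
  have e3 : ∀ i p, pds p (fun y => G' y i) x = pds p (fun y => G y i) x := fun i p =>
    (pds_congr' (s2.mono fun y hy => congrFun hy i) p).eq_of_nhds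
  have e4 : (fun y => Ψ (G' y)) =ᶠ[𝓝 x] fun y => Φ (G y) := by
    rw [← s2.eq_of_nhds] at s4
    filter_upwards [sG.continuous.continuousAt.eventually s4, s2] with y k1 k2
    rw [k1, k2]
  rw [← (pds_congr' e4 _).eq_of_nhds]
  refine comp_gen hh hk s1 (le_max_left 1 d) (by omega) j s3 (fun i p hp' => ?_)
    (fun i p hp' hn => ?_) fun i p hp' => ?_
  · rw [s2.eq_of_nhds, (pdsg_congr s4 _).eq_of_nhds]
    exact h1 i p (by omega)
  · rw [e3]
    have := hp'.length_le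
    exact (h2 i p ⟨List.length_pos_iff.2 hn, by omega⟩ x hx).trans
      (mul_le_mul_of_nonneg_right (le_max_right _ _) (hk i).le)
  · rw [e3]
    have := hp'.length_le
    exact h3 i p (by omega)

lemma C2.cf_pred (m : ℕ) {n : ℕ} (hn : 1 ≤ n) : (m + 1) * (2 ^ (n - 1) * cf m (n - 1)) ≤ cf m n := by
  have := cf_succ m (n - 1)
  rwa [Nat.sub_add_cancel hn] at this

lemma C2.comp_unif [Nonempty ι] (hh : ∀ i, 0 ≤ h i) (hk : ∀ i, 0 < k i)
    (hG : ∀ i, SmN U fun y => G y i) (hΦ : SmN T Φ) (hT : MapsTo G U T) (hx : x ∈ U)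
    {l : List (Fin 3)} (hl : l.length ≤ n) {j : Fin 3} (hj : j ∈ l) (h1 : OB n k T Φ M)
    (h2 : ∀ i, CV n h U (fun y => G y i) (d * k i))
    (h3 : ∀ i p, p.length < n → hp h (p ++ [j]) * |pds (p ++ [j]) (fun y => G y i) x| ≤ dL * k i) :
    hp h l * |pds l (fun y => Φ (G y)) x| ≤
      cf (Fintype.card ι) n * M * dL * max 1 d ^ (n - 1) := by
  have hn : 1 ≤ n := (List.length_pos_of_mem hj).trans_le hl
  obtain ⟨i⟩ := ‹Nonempty ι›
  have M0 : 0 ≤ M := le_trans (mul_nonneg (by simpa using (hk i).le) (abs_nonneg _))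
    (h1 [i] le_rfl hn _ (hT hx))
  have d0 : 0 ≤ dL := nonneg_of_mul_nonneg_left
    ((mul_nonneg (hp_nonneg hh _) (abs_nonneg _)).trans (h3 i [] hn)) (hk i)
  refine (C2.comp_last hh hk hG hΦ hT hx hl hj (M := fun _ => M) (e := fun _ => dL)
    (fun i p hp' => h1 _ (by simp) (by simpa using hp') _ (hT hx)) h2 h3).trans ?_
  simp only [Finset.sum_const, Finset.card_univ, nsmul_eq_mul]
  have c1 := cf_one (Fintype.card ι) (n - 1)
  calc _ = Fintype.card ι * (2 ^ (n - 1) * cf (Fintype.card ι) (n - 1)) *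
        (M * dL * max 1 d ^ (n - 1)) := by ring
    _ ≤ cf (Fintype.card ι) n * (M * dL * max 1 d ^ (n - 1)) := by
        refine mul_le_mul_of_nonneg_right (le_trans ?_ (C2.cf_pred _ hn)) (by positivity)
        gcongr
        simp
    _ = _ := by ring

theorem CV.comp_pi [Nonempty ι] (hh : ∀ i, 0 ≤ h i) (hk : ∀ i, 0 < k i)
    (hG : ∀ i, SmN U fun y => G y i) (hΦ : SmN T Φ) (hT : MapsTo G U T) (h1 : OB n k T Φ M)
    (h2 : ∀ i, CV n h U (fun y => G y i) (d * k i)) :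
    CV n h U (fun y => Φ (G y)) (cf (Fintype.card ι) n * M * d * max 1 d ^ (n - 1)) := by
  rintro l ⟨l1, l2⟩ x hx
  obtain ⟨j, hj⟩ := List.exists_mem_of_length_pos l1
  exact C2.comp_unif hh hk hG hΦ hT hx l2 hj h1 h2 fun i p hp' =>
    h2 i _ ⟨by simp, by simpa using hp'⟩ x hx

theorem CL.comp_pi [Nonempty ι] (hh : ∀ i, 0 ≤ h i) (hk : ∀ i, 0 < k i)
    (hG : ∀ i, SmN U fun y => G y i) (hΦ : SmN T Φ) (hT : MapsTo G U T) (h1 : OB n k T Φ M)
    (h2 : ∀ i, CV n h U (fun y => G y i) (d * k i))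
    (h3 : ∀ i, CL n h U (fun y => G y i) (dL * k i)) :
    CL n h U (fun y => Φ (G y)) (cf (Fintype.card ι) n * M * dL * max 1 d ^ (n - 1)) := by
  rintro l ⟨l2, j, hj, j2⟩ x hx
  exact C2.comp_unif hh hk hG hΦ hT hx l2 hj h1 h2 fun i p hp' =>
    h3 i _ ⟨by simpa using hp', j, by simp, j2⟩ x hx

theorem CB.comp_pi [Nonempty ι] (hh : ∀ i, 0 ≤ h i) (hk : ∀ i, 0 < k i)
    (hG : ∀ i, SmN U fun y => G y i) (hΦ : SmN T Φ) (hT : MapsTo G U T) (h1 : OB n k T Φ M)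
    (h0 : ∀ y ∈ T, |Φ y| ≤ M) (h2 : ∀ i, CV n h U (fun y => G y i) (d * k i)) :
    CB n h U (fun y => Φ (G y)) (cf (Fintype.card ι) n * M * max 1 d ^ n) := by
  have D1 : ∀ m, 1 ≤ max 1 d ^ m := fun m => one_le_pow₀ (le_max_left _ _)
  have c1 := cf_one (Fintype.card ι) n
  intro l hl x hx
  have a0 := h0 _ (hT hx)
  have M0 := (abs_nonneg _).trans a0
  rcases l with _ | ⟨i, l⟩
  · simp only [hp, List.map_nil, List.prod_nil, one_mul, pds]
    calc |Φ (G x)| ≤ 1 * M * 1 := by linarith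
      _ ≤ _ := by gcongr; exact D1 n
  · refine (CV.comp_pi hh hk hG hΦ hT h1 h2 _ ⟨by simp, hl⟩ x hx).trans ?_
    obtain ⟨m, rfl⟩ : ∃ m, n = m + 1 := ⟨n - 1, by change _ ≤ _ at hl; simp at hl; omega⟩
    rw [Nat.add_sub_cancel, pow_succ', mul_assoc _ d]
    have := D1 m
    gcongr
    exact le_max_right _ _

/-- lateral derivatives, with bounds for each inner function -/
theorem CL.comp_pi' (hh : ∀ i, 0 ≤ h i) (hk : ∀ i, 0 < k i) (hG : ∀ i, SmN U fun y => G y i)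
    (hΦ : SmN T Φ) (hT : MapsTo G U T) {M e : ι → ℝ} (h1 : ∀ i (p : List ι), p.length < n →
      ∀ y ∈ T, ((p ++ [i]).map k).prod * |pdsg (p ++ [i]) Φ y| ≤ M i)
    (h2 : ∀ i, CV n h U (fun y => G y i) (d * k i))
    (h3 : ∀ i, CL n h U (fun y => G y i) (e i * k i)) :
    CL n h U (fun y => Φ (G y))
      (2 ^ (n - 1) * cf (Fintype.card ι) (n - 1) * max 1 d ^ (n - 1) * ∑ i, M i * e i) := by
  rintro l ⟨l2, j, hj, j2⟩ x hx
  exact C2.comp_last hh hk hG hΦ hT hx l2 hj (fun i p hp' => h1 i p hp' _ (hT hx)) h2 fun i p hp' =>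
    h3 i _ ⟨by simpa using hp', j, by simp, j2⟩ x hx

/-- all derivatives, with bounds for each inner function -/
theorem CV.comp_pi' (hh : ∀ i, 0 ≤ h i) (hk : ∀ i, 0 < k i) (hG : ∀ i, SmN U fun y => G y i)
    (hΦ : SmN T Φ) (hT : MapsTo G U T) {M e : ι → ℝ} (h1 : ∀ i (p : List ι), p.length < n →
      ∀ y ∈ T, ((p ++ [i]).map k).prod * |pdsg (p ++ [i]) Φ y| ≤ M i)
    (h2 : ∀ i, e i ≤ d) (h3 : ∀ i, CV n h U (fun y => G y i) (e i * k i)) :
    CV n h U (fun y => Φ (G y))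
      (2 ^ (n - 1) * cf (Fintype.card ι) (n - 1) * max 1 d ^ (n - 1) * ∑ i, M i * e i) := by
  rintro l ⟨l1, l2⟩ x hx
  obtain ⟨j, hj⟩ := List.exists_mem_of_length_pos l1
  exact C2.comp_last hh hk hG hΦ hT hx l2 hj (fun i p hp' => h1 i p hp' _ (hT hx))
    (fun i => CBl.monoB (h3 i) (mul_le_mul_of_nonneg_right (h2 i) (hk i).le)) fun i p hp' =>
    h3 i _ ⟨by simp, by simpa using hp'⟩ x hx

end Comp

/-! ### inner maps of the space -/

section Map

variable {S : V → V} {k : V} {T : Set V} {d δ BL : ℝ}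

lemma CV.ob (H : CV n k T g B) : OB n k T g B := fun p p1 p2 y hy => by
  rw [pdsg_eq]
  exact H p ⟨p1, p2⟩ y hy

theorem CV.comp_map (hh : ∀ i, 0 ≤ h i) (hk : ∀ i, 0 < k i) (hS : ∀ i, SmN U fun y => S y i)
    (hg : SmN T g) (hT : MapsTo S U T) (h1 : CV n k T g B)
    (h2 : ∀ i, CV n h U (fun y => S y i) (d * k i)) :
    CV n h U (fun y => g (S y)) (cf 3 n * B * d * max 1 d ^ (n - 1)) :=
  CV.comp_pi hh hk hS hg hT h1.ob h2

theorem CB.comp_map (hh : ∀ i, 0 ≤ h i) (hk : ∀ i, 0 < k i) (hS : ∀ i, SmN U fun y => S y i)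
    (hg : SmN T g) (hT : MapsTo S U T) (h1 : CB n k T g B)
    (h2 : ∀ i, CV n h U (fun y => S y i) (d * k i)) :
    CB n h U (fun y => g (S y)) (cf 3 n * B * max 1 d ^ n) :=
  CB.comp_pi hh hk hS hg hT h1.toCV.ob (fun _ hy => h1.val hy) h2

/-- the lateral derivatives of the third component are small -/
theorem CL.comp_map (hh : ∀ i, 0 ≤ h i) (hk : ∀ i, 0 < k i) (hS : ∀ i, SmN U fun y => S y i)
    (hg : SmN T g) (hT : MapsTo S U T) (h1 : CV n k T g B) (hL : CL n k T g BL)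
    (h2 : ∀ i, CV n h U (fun y => S y i) (d * k i)) (h3 : CL n h U (fun y => S y 2) (δ * k 2)) :
    CL n h U (fun y => g (S y))
      (2 ^ (n - 1) * cf 3 (n - 1) * max 1 d ^ (n - 1) * (2 * d * BL + δ * B)) := by
  refine CBl.monoB (CL.comp_pi' hh hk hS hg hT (M := ![BL, BL, B]) (e := ![d, d, δ])
    (fun i p hp' y hy => ?_) h2 fun i => ?_) (le_of_eq ?_)
  · rw [pdsg_eq]
    fin_cases i
    · exact hL _ ⟨by simpa using hp', 0, by simp, by simp⟩ y hy
    · exact hL _ ⟨by simpa using hp', 1, by simp, by simp⟩ y hy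
    · exact h1 _ ⟨by simp, by simpa using hp'⟩ y hy
  · fin_cases i
    exacts [(h2 0).toCL, (h2 1).toCL, h3]
  · simp only [Fin.sum_univ_three, Fintype.card_fin, cons_val_zero, cons_val_one, cons_val]
    ring

end Map

/-! ### affine changes -/

section Affine

variable {b k : V} {Q : Mx} {T : Set V} {κ δ BL : ℝ}

lemma C2.sm_affine (b : V) (Q : Mx) : Sm fun x : V => b + Q *ᵥ x :=
  contDiff_const.add (LinearMap.toContinuousLinearMap Q.mulVecLin).contDiff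

lemma C2.pd_affine (hg : Sm g) (b : V) (Q : Mx) (j : Fin 3) :
    pd j (fun x => g (b + Q *ᵥ x)) = fun x => ∑ i, Q i j * pd i g (b + Q *ᵥ x) := by
  rw [pd_compg (G := fun x => b + Q *ᵥ x) hg (contDiff_pi.1 (C2.sm_affine b Q))]
  funext x
  refine Finset.sum_congr rfl fun i _ => ?_
  have : HasFDerivAt (fun z : V => (b + Q *ᵥ z) i)
      ((ContinuousLinearMap.proj i).comp (LinearMap.toContinuousLinearMap Q.mulVecLin)) x :=
    (((ContinuousLinearMap.proj i).comp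
      (LinearMap.toContinuousLinearMap Q.mulVecLin)).hasFDerivAt).const_add (b i)
  rw [mul_comm, pd, this.fderiv]
  simp [pdg, pd]

lemma C2.affine_step (hk : ∀ i, 0 ≤ k i) (hh : ∀ i, 0 ≤ h i) (hg : Sm g) (l : List (Fin 3))
    (j : Fin 3) {e M : V} (hQ : ∀ i, |Q i j| * h j ≤ e i * k i) (he : ∀ i, 0 ≤ e i)
    (H : ∀ i, hp h l * |pds l (fun y => k i * pd i g (b + Q *ᵥ y)) x| ≤ M i) :
    hp h (l ++ [j]) * |pds (l ++ [j]) (fun y => g (b + Q *ᵥ y)) x| ≤ ∑ i, e i * M i := by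
  have s : ∀ i, Sm fun y => pd i g (b + Q *ᵥ y) := fun i => (Sm.pd hg i).comp (C2.sm_affine b Q)
  rw [pds_concat, C2.pd_affine hg, pds_sum _ fun i _ => contDiff_const.mul (s i), hp_concat]
  refine (mul_le_mul_of_nonneg_left (Finset.abs_sum_le_sum_abs _ _)
    (mul_nonneg (hp_nonneg hh l) (hh j))).trans ?_
  rw [Finset.mul_sum]
  refine Finset.sum_le_sum fun i _ => le_trans ?_ (mul_le_mul_of_nonneg_left (H i) (he i))
  simp only [pds_const_mul, abs_mul, abs_of_nonneg (hk i)]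
  have := mul_le_mul_of_nonneg_right (hQ i)
    (mul_nonneg (hp_nonneg hh l) (abs_nonneg (pds l (fun y => pd i g (b + Q *ᵥ y)) x)))
  linarith

lemma C2.affine_all (hk : ∀ i, 0 ≤ k i) (hh : ∀ i, 0 ≤ h i) (hκ : 0 ≤ κ)
    (hQ : ∀ i j, |Q i j| * h j ≤ κ * k i) (l : List (Fin 3)) : ∀ {g : V → ℝ} {B : ℝ}, Sm g →
    (∀ p : List (Fin 3), p.length = l.length → hp k p * |pds p g (b + Q *ᵥ x)| ≤ B) →
    hp h l * |pds l (fun y => g (b + Q *ᵥ y)) x| ≤ (3 * κ) ^ l.length * B := by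
  induction l using List.reverseRecOn with
  | nil =>
    intro g B _ H
    simpa [hp, pds] using H [] rfl
  | append_singleton l j ih =>
    intro g B hg H
    refine (C2.affine_step hk hh hg l j (e := fun _ => κ) (M := fun _ => (3 * κ) ^ l.length * B)
      (fun i => hQ i j) (fun _ => hκ) fun i => ih (g := fun y => k i * pd i g y)
        (contDiff_const.mul (Sm.pd hg i)) fun p hp' => ?_).trans (le_of_eq ?_)
    · rw [snoc_eq _ hk]
      exact H _ (by simp [hp'])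
    · simp [pow_succ]
      ring

lemma C2.affine_near (hk : ∀ i, 0 ≤ k i) (hh : ∀ i, 0 ≤ h i) (hκ : 0 ≤ κ)
    (hQ : ∀ i j, |Q i j| * h j ≤ κ * k i) (hg : SmN T g) (hx : b + Q *ᵥ x ∈ T) (l : List (Fin 3))
    (H : ∀ p : List (Fin 3), p.length = l.length → hp k p * |pds p g (b + Q *ᵥ x)| ≤ B) :
    hp h l * |pds l (fun y => g (b + Q *ᵥ y)) x| ≤ (3 * κ) ^ l.length * B := by
  obtain ⟨g', s, e⟩ := hg _ hx
  rw [← (pds_congr' (g := fun y => g' (b + Q *ᵥ y))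
    ((C2.sm_affine b Q).continuous.continuousAt.eventually e) l).eq_of_nhds]
  exact C2.affine_all hk hh hκ hQ l s fun p hp' => by rw [(pds_congr' e p).eq_of_nhds]; exact H p hp'

theorem CO.affine (hk : ∀ i, 0 ≤ k i) (hh : ∀ i, 0 ≤ h i) (hκ : 0 ≤ κ)
    (hQ : ∀ i j, |Q i j| * h j ≤ κ * k i) (hg : SmN T g) (hT : ∀ x ∈ U, b + Q *ᵥ x ∈ T)
    (H : CO n k T g B) : CO n h U (fun y => g (b + Q *ᵥ y)) ((3 * κ) ^ n * B) := by
  rintro l rfl x hx
  exact C2.affine_near hk hh hκ hQ hg (hT x hx) l fun p hp' => H p hp' _ (hT x hx)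

lemma C2.affine_le (hk : ∀ i, 0 ≤ k i) (hh : ∀ i, 0 ≤ h i) (hκ : 1 / 3 ≤ κ)
    (hQ : ∀ i j, |Q i j| * h j ≤ κ * k i) (hg : SmN T g) (hx : b + Q *ᵥ x ∈ T) {l : List (Fin 3)}
    (hl : l.length ≤ n)
    (H : ∀ p : List (Fin 3), p.length = l.length → hp k p * |pds p g (b + Q *ᵥ x)| ≤ B) :
    hp h l * |pds l (fun y => g (b + Q *ᵥ y)) x| ≤ (3 * κ) ^ n * B :=
  (C2.affine_near hk hh (by linarith) hQ hg hx l H).trans (mul_le_mul_of_nonneg_right
    (pow_le_pow_right₀ (by linarith) hl)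
    ((mul_nonneg (hp_nonneg hk _) (abs_nonneg _)).trans (H l rfl)))

theorem CB.affine (hk : ∀ i, 0 ≤ k i) (hh : ∀ i, 0 ≤ h i) (hκ : 1 / 3 ≤ κ)
    (hQ : ∀ i j, |Q i j| * h j ≤ κ * k i) (hg : SmN T g) (hT : ∀ x ∈ U, b + Q *ᵥ x ∈ T)
    (H : CB n k T g B) : CB n h U (fun y => g (b + Q *ᵥ y)) ((3 * κ) ^ n * B) :=
  fun _ hl x hx => C2.affine_le hk hh hκ hQ hg (hT x hx) hl fun p hp' =>
    H p (hp'.trans_le hl) _ (hT x hx)

theorem CV.affine (hk : ∀ i, 0 ≤ k i) (hh : ∀ i, 0 ≤ h i) (hκ : 1 / 3 ≤ κ)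
    (hQ : ∀ i j, |Q i j| * h j ≤ κ * k i) (hg : SmN T g) (hT : ∀ x ∈ U, b + Q *ᵥ x ∈ T)
    (H : CV n k T g B) : CV n h U (fun y => g (b + Q *ᵥ y)) ((3 * κ) ^ n * B) :=
  fun _ hl x hx => C2.affine_le hk hh hκ hQ hg (hT x hx) hl.2 fun p hp' =>
    H p ⟨hl.1.trans hp'.ge, hp'.trans_le hl.2⟩ _ (hT x hx)

/-- small coefficients: the first derivative gains the factor `3 κ` -/
theorem CV.affine_small (hk : ∀ i, 0 ≤ k i) (hh : ∀ i, 0 ≤ h i) (hκ : 0 ≤ κ) (hκ' : κ ≤ 1 / 3)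
    (hQ : ∀ i j, |Q i j| * h j ≤ κ * k i) (hg : SmN T g) (hT : ∀ x ∈ U, b + Q *ᵥ x ∈ T)
    (H : CV n k T g B) : CV n h U (fun y => g (b + Q *ᵥ y)) (3 * κ * B) := by
  rintro l ⟨l1, l2⟩ x hx
  refine (C2.affine_near hk hh hκ hQ hg (hT x hx) l fun p hp' =>
    H p ⟨l1.trans hp'.ge, hp'.trans_le l2⟩ _ (hT x hx)).trans (mul_le_mul_of_nonneg_right ?_
    ((mul_nonneg (hp_nonneg hk _) (abs_nonneg _)).trans (H l ⟨l1, l2⟩ _ (hT x hx))))
  simpa using pow_le_pow_of_le_one (a := 3 * κ) (by linarith) (by linarith) l1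

theorem CL.affine (hk : ∀ i, 0 ≤ k i) (hh : ∀ i, 0 ≤ h i) (hκ : 1 / 3 ≤ κ) (hδ : 0 ≤ δ)
    (hQ : ∀ i j, |Q i j| * h j ≤ κ * k i) (hQ' : ∀ j, j ≠ 2 → |Q 2 j| * h j ≤ δ * k 2)
    (hg : SmN T g) (hT : ∀ x ∈ U, b + Q *ᵥ x ∈ T) (H : CV n k T g B) (HL : CL n k T g BL) :
    CL n h U (fun y => g (b + Q *ᵥ y)) ((3 * κ) ^ n * (BL + δ * B)) := by
  rintro l ⟨l2, j, hj, j2⟩ x hx
  obtain ⟨l', e1, e2⟩ := perm_last hj
  rw [hp_perm h e1, (hg.comp_sm (C2.sm_affine b Q) hT).perm hx e1]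
  obtain ⟨g', s, e⟩ := hg _ (hT x hx)
  rw [← (pds_congr' (g := fun y => g' (b + Q *ᵥ y))
    ((C2.sm_affine b Q).continuous.continuousAt.eventually e) _).eq_of_nhds]
  have B0 : 0 ≤ B := (mul_nonneg (hp_nonneg hk _) (abs_nonneg _)).trans
    (H [0] ⟨le_rfl, by simp; omega⟩ _ (hT x hx))
  have L0 : 0 ≤ BL := (mul_nonneg (hp_nonneg hk _) (abs_nonneg _)).trans
    (HL [0] ⟨by simp; omega, 0, by simp, by simp⟩ _ (hT x hx))
  refine (C2.affine_step hk hh s l' j (e := ![κ, κ, δ])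
    (M := fun i => (3 * κ) ^ l'.length * ![BL, BL, B] i) (fun i => ?_) (fun i => ?_) fun i =>
      C2.affine_all hk hh (by linarith) hQ l' (g := fun y => k i * pd i g' y)
        (contDiff_const.mul (Sm.pd s i)) fun p hp' => ?_).trans ?_
  · fin_cases i
    exacts [hQ 0 j, hQ 1 j, hQ' j j2]
  · fin_cases i
    exacts [(by linarith : 0 ≤ κ), (by linarith : 0 ≤ κ), hδ]
  · rw [snoc_eq _ hk, (pds_congr' e _).eq_of_nhds]
    have : (p ++ [i]).length ≤ n := by simp; omega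
    fin_cases i
    · exact HL _ ⟨this, 0, by simp, by simp⟩ _ (hT x hx)
    · exact HL _ ⟨this, 1, by simp, by simp⟩ _ (hT x hx)
    · exact H _ ⟨by simp, this⟩ _ (hT x hx)
  · simp only [Fin.sum_univ_three, cons_val_zero, cons_val_one, cons_val]
    have h1 : (3 * κ) ^ (l'.length + 1) ≤ (3 * κ) ^ n := pow_le_pow_right₀ (by linarith) (by omega)
    have h2 : 0 ≤ (3 * κ) ^ l'.length := pow_nonneg (by linarith) _
    have h3 := mul_nonneg hδ B0
    refine le_trans ?_ (mul_le_mul_of_nonneg_right h1 (add_nonneg L0 h3))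
    rw [pow_succ]
    nlinarith [mul_nonneg h2 L0, mul_nonneg h2 h3]

end Affine

end
end Pool.Agent.MP_20bec2_an.T3

end MrgPart1

-- marker of a merged file
example : 731051 + 106275 = 731051 + 106275 := rfl

end MrgPart0

-- ======== part 1: formerly Pool.Agent.MP_20bec2_an.T3.Calc2C
section MrgPart1

/-! Outer composition with functions of one variable. -/

set_option autoImplicit false
open MeasureTheory Set Filter Matrix Topology

namespace Pool.Agent.MP_20bec2_an.T3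
noncomputable section

/-- scaled bounds of the derivatives of order `1..n` of a function of one variable on `I` -/
def OB1 (n : ℕ) (κ : ℝ) (I : Set ℝ) (φ : ℝ → ℝ) (M : ℝ) : Prop :=
  ∀ j, 1 ≤ j → j ≤ n → ∀ t ∈ I, κ ^ j * |iteratedDeriv j φ t| ≤ M

variable {f g : V → ℝ} {h : V} {U : Set V} {n : ℕ} {I : Set ℝ} {φ : ℝ → ℝ}
  {κ M d dL a b r A : ℝ}

namespace C2

lemma pdsg_unit (hφ : Sm φ) (p : List Unit) :
    pdsg p (fun y : Unit → ℝ => φ (y ())) = fun y => iteratedDeriv p.length φ (y ()) := by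
  induction p with
  | nil => simp [pdsg]
  | cons i p ih =>
    funext y
    have : HasFDerivAt (fun y : Unit → ℝ => iteratedDeriv p.length φ (y ())) _ y :=
      HasDerivAt.comp_hasFDerivAt (f := fun y : Unit → ℝ => y ()) y
        ((hφ.iter p.length).dif (y ())).hasDerivAt (hasFDerivAt_apply (𝕜 := ℝ) () y)
    simp only [pdsg, ih, pdg, this.fderiv, List.length_cons, iteratedDeriv_succ]
    simp

lemma smN_unit (hφ : SmN I φ) : SmN {y : Unit → ℝ | y () ∈ I} fun y => φ (y ()) :=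
  hφ.comp_sm (contDiff_apply ℝ ℝ ()) fun _ hy => hy

lemma ob_unit (hφ : SmN I φ) (H : OB1 n κ I φ M) :
    OB n (fun _ => κ) {y : Unit → ℝ | y () ∈ I} (fun y => φ (y ())) M := by
  intro p p1 p2 y hy
  obtain ⟨ψ, s, e⟩ := hφ _ hy
  have e' : (fun y : Unit → ℝ => ψ (y ())) =ᶠ[𝓝 y] fun y => φ (y ()) :=
    (continuous_apply ()).continuousAt.eventually e
  rw [← (pdsg_congr e' p).eq_of_nhds, pdsg_unit s]
  simp only [e.iteratedDeriv_eq, List.map_const', List.prod_replicate]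
  exact H _ p1 p2 _ hy

lemma desc_le (r : ℝ) (j : ℕ) : |(descPochhammer ℝ j).eval r| ≤ (|r| + j) ^ j := by
  induction j with
  | zero => simp
  | succ j ih =>
    rw [descPochhammer_succ_eval, abs_mul, pow_succ]
    have : |r - j| ≤ |r| + (j + 1 : ℕ) := by
      refine (abs_sub _ _).trans ?_
      rw [Nat.abs_cast]
      push_cast
      linarith
    refine mul_le_mul (ih.trans ?_) this (abs_nonneg _) (by positivity)
    gcongr
    simp

lemma desc_le' (r : ℝ) {j n : ℕ} (h1 : 1 ≤ j) (h2 : j ≤ n) :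
    |(descPochhammer ℝ j).eval r| ≤ (|r| + n) ^ n := by
  have a : (1 : ℝ) ≤ n := by exact_mod_cast h1.trans h2
  refine (desc_le r j).trans (le_trans ?_ (pow_le_pow_right₀ (by linarith [abs_nonneg r]) h2))
  gcongr

lemma one_le_pow_abs (r : ℝ) (n : ℕ) : 1 ≤ (|r| + n) ^ n := by
  rcases Nat.eq_zero_or_pos n with rfl | hn
  · simp
  · have a : (1 : ℝ) ≤ n := by exact_mod_cast hn
    exact one_le_pow₀ (by linarith [abs_nonneg r])

end C2

open C2

/-! ### the general rules -/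

theorem CV.comp1s (hh : ∀ i, 0 ≤ h i) (hκ : 0 < κ) (hg : SmN U g) (hφ : SmN I φ)
    (hI : MapsTo g U I) (h1 : OB1 n κ I φ M) (h2 : CV n h U g (d * κ)) :
    CV n h U (fun x => φ (g x)) (cf 1 n * M * d * max 1 d ^ (n - 1)) :=
  CV.comp_pi (G := fun x _ => g x) hh (fun _ => hκ) (fun _ => hg) (smN_unit hφ) hI (ob_unit hφ h1)
    fun _ => h2

theorem CL.comp1s (hh : ∀ i, 0 ≤ h i) (hκ : 0 < κ) (hg : SmN U g) (hφ : SmN I φ)
    (hI : MapsTo g U I) (h1 : OB1 n κ I φ M) (h2 : CV n h U g (d * κ))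
    (h3 : CL n h U g (dL * κ)) :
    CL n h U (fun x => φ (g x)) (cf 1 n * M * dL * max 1 d ^ (n - 1)) :=
  CL.comp_pi (G := fun x _ => g x) hh (fun _ => hκ) (fun _ => hg) (smN_unit hφ) hI (ob_unit hφ h1)
    (fun _ => h2) fun _ => h3

theorem CB.comp1s (hh : ∀ i, 0 ≤ h i) (hκ : 0 < κ) (hg : SmN U g) (hφ : SmN I φ)
    (hI : MapsTo g U I) (h1 : OB1 n κ I φ M) (h0 : ∀ t ∈ I, |φ t| ≤ M)
    (h2 : CV n h U g (d * κ)) : CB n h U (fun x => φ (g x)) (cf 1 n * M * max 1 d ^ n) :=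
  CB.comp_pi (G := fun x _ => g x) hh (fun _ => hκ) (fun _ => hg) (smN_unit hφ) hI (ob_unit hφ h1)
    (fun _ hy => h0 _ hy) fun _ => h2

lemma OB1.of_le (H : ∀ j, 1 ≤ j → j ≤ n → ∀ t ∈ I, |iteratedDeriv j φ t| ≤ M) : OB1 n 1 I φ M :=
  fun j j1 j2 t ht => by simpa using H j j1 j2 t ht

theorem CV.comp1 (hh : ∀ i, 0 ≤ h i) (hg : SmN U g) (hφ : SmN I φ) (hI : MapsTo g U I)
    (h1 : ∀ j, 1 ≤ j → j ≤ n → ∀ t ∈ I, |iteratedDeriv j φ t| ≤ M) (h2 : CV n h U g d)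
    (hd : d ≤ 1) : CV n h U (fun x => φ (g x)) (cf 1 n * M * d) := by
  simpa [max_eq_left hd] using CV.comp1s (d := d) hh one_pos hg hφ hI (OB1.of_le h1) (by simpa)

theorem CV.comp1' (hh : ∀ i, 0 ≤ h i) (hg : SmN U g) (hφ : SmN I φ) (hI : MapsTo g U I)
    (h1 : ∀ j, 1 ≤ j → j ≤ n → ∀ t ∈ I, |iteratedDeriv j φ t| ≤ M) (h2 : CV n h U g d)
    (hd : 1 ≤ d) : CV n h U (fun x => φ (g x)) (cf 1 n * M * d ^ n) := by
  rcases Nat.eq_zero_or_pos n with rfl | hn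
  · exact fun l hl => absurd (hl.1.trans hl.2) (by simp)
  have := CV.comp1s (d := d) hh one_pos hg hφ hI (OB1.of_le h1) (by simpa)
  rwa [max_eq_right hd, mul_assoc _ d, ← pow_succ', Nat.sub_add_cancel hn] at this

theorem CL.comp1 (hh : ∀ i, 0 ≤ h i) (hg : SmN U g) (hφ : SmN I φ) (hI : MapsTo g U I)
    (h1 : ∀ j, 1 ≤ j → j ≤ n → ∀ t ∈ I, |iteratedDeriv j φ t| ≤ M) (h2 : CV n h U g d)
    (hd : d ≤ 1) (h3 : CL n h U g dL) : CL n h U (fun x => φ (g x)) (cf 1 n * M * dL) := by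
  simpa [max_eq_left hd] using
    CL.comp1s (d := d) (dL := dL) hh one_pos hg hφ hI (OB1.of_le h1) (by simpa) (by simpa)

theorem CL.comp1' (hh : ∀ i, 0 ≤ h i) (hg : SmN U g) (hφ : SmN I φ) (hI : MapsTo g U I)
    (h1 : ∀ j, 1 ≤ j → j ≤ n → ∀ t ∈ I, |iteratedDeriv j φ t| ≤ M) (h2 : CV n h U g d)
    (hd : 1 ≤ d) (h3 : CL n h U g dL) :
    CL n h U (fun x => φ (g x)) (cf 1 n * M * dL * d ^ (n - 1)) := by
  simpa [max_eq_right hd] using
    CL.comp1s (d := d) (dL := dL) hh one_pos hg hφ hI (OB1.of_le h1) (by simpa) (by simpa)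

theorem CB.comp1 (hh : ∀ i, 0 ≤ h i) (hg : SmN U g) (hφ : SmN I φ) (hI : MapsTo g U I)
    (h1 : ∀ j ≤ n, ∀ t ∈ I, |iteratedDeriv j φ t| ≤ M) (h2 : CV n h U g d) :
    CB n h U (fun x => φ (g x)) (cf 1 n * M * max 1 d ^ n) :=
  CB.comp1s hh one_pos hg hφ hI (OB1.of_le fun j _ => h1 j)
    (fun t ht => by simpa using h1 0 (Nat.zero_le _) t ht) (by simpa)

/-! ### the outer functions that occur -/

lemma ob1_inv (ha : 0 < a) (n : ℕ) : OB1 n a {t | a ≤ |t|} (fun t => t⁻¹) (n.factorial / a) := by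
  intro j _ j2 t ht
  have t0 : 0 < |t| := ha.trans_le ht
  have e : |iteratedDeriv j (fun t : ℝ => t⁻¹) t| = j.factorial / |t| ^ (j + 1) := by
    rw [iteratedDeriv_eq_iterate, iter_deriv_inv, show -1 - (j : ℤ) = -((j + 1 : ℕ) : ℤ) by omega,
      _root_.zpow_neg, _root_.zpow_natCast]
    simp [abs_mul, abs_inv, div_eq_mul_inv]
  have h1 : a ^ (j + 1) ≤ |t| ^ (j + 1) := pow_le_pow_left₀ ha.le ht _
  have h2 : (j.factorial : ℝ) ≤ n.factorial := by exact_mod_cast Nat.factorial_le j2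
  rw [e]
  calc _ ≤ a ^ j * (n.factorial / a ^ (j + 1)) := by gcongr
    _ = _ := by rw [pow_succ]; field_simp

lemma ob1_log (ha : 0 < a) (n : ℕ) : OB1 n a {t | a ≤ |t|} Real.log n.factorial := by
  intro j j1 j2 t ht
  obtain ⟨j, rfl⟩ := Nat.exists_eq_add_of_le' j1
  have h2 : (j.factorial : ℝ) ≤ n.factorial := by exact_mod_cast Nat.factorial_le (by omega)
  rw [iteratedDeriv_succ', Real.deriv_log']
  rcases Nat.eq_zero_or_pos j with rfl | hj
  · have t0 : 0 < |t| := ha.trans_le ht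
    simp only [zero_add, pow_one, iteratedDeriv_zero, abs_inv]
    refine le_trans ?_ h2
    simpa [← div_eq_mul_inv, div_le_one t0] using ht
  · have := ob1_inv ha j j hj le_rfl t ht
    rw [le_div_iff₀ ha] at this
    rw [pow_succ]
    exact le_trans (le_of_eq (by ring)) (this.trans h2)

lemma ob1_rpow (ha : 0 < a) (r T : ℝ) (n : ℕ) :
    OB1 n a {t | a ≤ t ∧ t ^ r ≤ T} (fun t => t ^ r) ((|r| + n) ^ n * T) := by
  rintro j j1 j2 t ⟨t1, t2⟩
  have t0 : 0 < t := ha.trans_le t1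
  have h1 : a ^ j ≤ t ^ j := pow_le_pow_left₀ ha.le t1 _
  have h2 := Real.rpow_pos_of_pos t0 r
  rw [iteratedDeriv_eq_iterate, Real.iter_deriv_rpow_const, abs_mul, Real.rpow_sub t0,
    Real.rpow_natCast, abs_of_pos (a := t ^ r / t ^ j) (by positivity)]
  calc _ ≤ t ^ j * ((|r| + n) ^ n * (t ^ r / t ^ j)) := by gcongr; exact desc_le' r j1 j2
    _ = (|r| + n) ^ n * t ^ r := by field_simp
    _ ≤ _ := by gcongr

lemma ob1_rpow_le_one (ha : 0 < a) (hr : r ≤ 1) (n : ℕ) :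
    OB1 n a (Ici a) (fun t => t ^ r) ((|r| + n) ^ n * a ^ r) := by
  rintro j j1 j2 t t1
  have t0 : 0 < t := ha.trans_le t1
  have j3 : (1 : ℝ) ≤ j := by exact_mod_cast j1
  have h1 : t ^ (r - j) ≤ a ^ (r - j) := Real.rpow_le_rpow_of_nonpos ha t1 (by linarith)
  rw [iteratedDeriv_eq_iterate, Real.iter_deriv_rpow_const, abs_mul,
    abs_of_pos (Real.rpow_pos_of_pos t0 _)]
  calc _ ≤ a ^ j * ((|r| + n) ^ n * a ^ (r - j)) := by gcongr; exact desc_le' r j1 j2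
    _ = _ := by
      rw [Real.rpow_sub ha, Real.rpow_natCast]
      field_simp

lemma ob1_sqrt (ha : 0 < a) (n : ℕ) : OB1 n a (Ici a) Real.sqrt ((n + 1) ^ n * Real.sqrt a) := by
  intro j j1 j2 t ht
  have := ob1_rpow_le_one ha (r := 1 / 2) (by norm_num) n j j1 j2 t ht
  simp only [← Real.sqrt_eq_rpow] at this
  refine this.trans ?_
  rw [abs_of_pos (by norm_num), add_comm]
  gcongr
  norm_num

lemma ob1_exp (b : ℝ) (n : ℕ) : OB1 n 1 (Iic b) Real.exp (Real.exp b) := fun j _ _ t ht => by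
  rw [iteratedDeriv_eq_iterate, Real.iter_deriv_exp, one_pow, one_mul, abs_of_pos (Real.exp_pos _)]
  exact Real.exp_le_exp.2 ht

lemma smN_inv' (ha : 0 < a) : SmN {t : ℝ | a ≤ |t|} fun t => t⁻¹ :=
  smN_inv.mono fun _ ht => abs_pos.1 (ha.trans_le ht)

lemma smN_log' (ha : 0 < a) : SmN {t : ℝ | a ≤ |t|} Real.log :=
  smN_log.mono fun _ ht => abs_pos.1 (ha.trans_le ht)

lemma smN_rpow' (ha : 0 < a) (r T : ℝ) : SmN {t : ℝ | a ≤ t ∧ t ^ r ≤ T} fun t => t ^ r :=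
  (smN_rpow r).mono fun _ ht => ha.trans_le ht.1

lemma SmN.inv (hg : SmN U g) (h0 : ∀ x ∈ U, g x ≠ 0) : SmN U fun x => (g x)⁻¹ :=
  smN_inv.comp1 hg h0

lemma SmN.div (hf : SmN U f) (hg : SmN U g) (h0 : ∀ x ∈ U, g x ≠ 0) :
    SmN U fun x => f x / g x := by
  simpa only [div_eq_mul_inv] using hf.mul (hg.inv h0)

lemma SmN.sqrt (hg : SmN U g) (h0 : ∀ x ∈ U, 0 < g x) : SmN U fun x => Real.sqrt (g x) :=
  smN_sqrt.comp1 hg h0

lemma SmN.rpow (hg : SmN U g) (h0 : ∀ x ∈ U, 0 < g x) (r : ℝ) : SmN U fun x => g x ^ r :=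
  (smN_rpow r).comp1 hg h0

lemma SmN.log (hg : SmN U g) (h0 : ∀ x ∈ U, g x ≠ 0) : SmN U fun x => Real.log (g x) :=
  smN_log.comp1 hg h0

theorem CV.inv (hh : ∀ i, 0 ≤ h i) (ha : 0 < a) (hg : SmN U g) (h1 : ∀ x ∈ U, a ≤ |g x|)
    (h2 : CV n h U g (d * a)) :
    CV n h U (fun x => (g x)⁻¹) (cf 1 n * (n.factorial / a) * d * max 1 d ^ (n - 1)) :=
  CV.comp1s hh ha hg (smN_inv' ha) h1 (ob1_inv ha n) h2

theorem CL.inv (hh : ∀ i, 0 ≤ h i) (ha : 0 < a) (hg : SmN U g) (h1 : ∀ x ∈ U, a ≤ |g x|)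
    (h2 : CV n h U g (d * a)) (h3 : CL n h U g (dL * a)) :
    CL n h U (fun x => (g x)⁻¹) (cf 1 n * (n.factorial / a) * dL * max 1 d ^ (n - 1)) :=
  CL.comp1s hh ha hg (smN_inv' ha) h1 (ob1_inv ha n) h2 h3

theorem CB.inv (hh : ∀ i, 0 ≤ h i) (ha : 0 < a) (hg : SmN U g) (h1 : ∀ x ∈ U, a ≤ |g x|)
    (h2 : CV n h U g (d * a)) :
    CB n h U (fun x => (g x)⁻¹) (cf 1 n * (n.factorial / a) * max 1 d ^ n) :=
  CB.comp1s hh ha hg (smN_inv' ha) h1 (ob1_inv ha n) (fun t ht => by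
    have h3 : (1 : ℝ) ≤ n.factorial := by exact_mod_cast n.factorial_pos
    rw [abs_inv, ← one_div]
    exact div_le_div₀ (by linarith) h3 ha ht) h2

theorem CB.div (hh : ∀ i, 0 ≤ h i) (ha : 0 < a) (hf : SmN U f) (hg : SmN U g)
    (h1 : ∀ x ∈ U, a ≤ |g x|) (h0 : CB n h U f A) (h2 : CV n h U g (d * a)) :
    CB n h U (fun x => f x / g x) (2 ^ n * (A * (cf 1 n * (n.factorial / a) * max 1 d ^ n))) := by
  simpa only [div_eq_mul_inv] using CB.mulN hh hf
    (hg.inv fun x hx => abs_pos.1 (ha.trans_le (h1 x hx))) h0 (CB.inv hh ha hg h1 h2)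

theorem CV.div {A' : ℝ} (hh : ∀ i, 0 ≤ h i) (ha : 0 < a) (hf : SmN U f) (hg : SmN U g)
    (h1 : ∀ x ∈ U, a ≤ |g x|) (h0 : CB n h U f A) (h0' : CV n h U f A')
    (h2 : CV n h U g (d * a)) :
    CV n h U (fun x => f x / g x) (2 ^ n * (A' * (cf 1 n * (n.factorial / a) * max 1 d ^ n) +
      A * (cf 1 n * (n.factorial / a) * d * max 1 d ^ (n - 1)))) := by
  simpa only [div_eq_mul_inv] using CV.mulN hh hf
    (hg.inv fun x hx => abs_pos.1 (ha.trans_le (h1 x hx))) h0 (CB.inv hh ha hg h1 h2) h0'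
    (CV.inv hh ha hg h1 h2)

theorem CL.div {A' : ℝ} (hh : ∀ i, 0 ≤ h i) (ha : 0 < a) (hf : SmN U f) (hg : SmN U g)
    (h1 : ∀ x ∈ U, a ≤ |g x|) (h0 : CB n h U f A) (h0' : CL n h U f A')
    (h2 : CV n h U g (d * a)) (h3 : CL n h U g (dL * a)) :
    CL n h U (fun x => f x / g x) (2 ^ n * (A' * (cf 1 n * (n.factorial / a) * max 1 d ^ n) +
      A * (cf 1 n * (n.factorial / a) * dL * max 1 d ^ (n - 1)))) := by
  simpa only [div_eq_mul_inv] using CL.mulN hh hf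
    (hg.inv fun x hx => abs_pos.1 (ha.trans_le (h1 x hx))) h0 (CB.inv hh ha hg h1 h2) h0'
    (CL.inv hh ha hg h1 h2 h3)

theorem CV.sqrt (hh : ∀ i, 0 ≤ h i) (ha : 0 < a) (hg : SmN U g) (h1 : ∀ x ∈ U, a ≤ g x)
    (h2 : CV n h U g (d * a)) : CV n h U (fun x => Real.sqrt (g x))
      (cf 1 n * ((n + 1) ^ n * Real.sqrt a) * d * max 1 d ^ (n - 1)) :=
  CV.comp1s hh ha hg (smN_sqrt.mono fun _ ht => ha.trans_le ht) h1 (ob1_sqrt ha n) h2

theorem CL.sqrt (hh : ∀ i, 0 ≤ h i) (ha : 0 < a) (hg : SmN U g) (h1 : ∀ x ∈ U, a ≤ g x)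
    (h2 : CV n h U g (d * a)) (h3 : CL n h U g (dL * a)) : CL n h U (fun x => Real.sqrt (g x))
      (cf 1 n * ((n + 1) ^ n * Real.sqrt a) * dL * max 1 d ^ (n - 1)) :=
  CL.comp1s hh ha hg (smN_sqrt.mono fun _ ht => ha.trans_le ht) h1 (ob1_sqrt ha n) h2 h3

theorem CB.sqrt (hh : ∀ i, 0 ≤ h i) (ha : 0 < a) (hg : SmN U g) (h1 : ∀ x ∈ U, g x ∈ Icc a b)
    (h2 : CV n h U g (d * a)) : CB n h U (fun x => Real.sqrt (g x))
      (cf 1 n * ((n + 1) ^ n * Real.sqrt b) * max 1 d ^ n) := by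
  have p : (1 : ℝ) ≤ (n + 1) ^ n := one_le_pow₀ (by simp)
  refine CB.comp1s hh ha hg (smN_sqrt.mono fun _ ht => ha.trans_le ht.1) h1
    (fun j j1 j2 t ht => (ob1_sqrt ha n j j1 j2 t ht.1).trans ?_) (fun t ht => ?_) h2
  · gcongr
    exact ht.1.trans ht.2
  · rw [abs_of_nonneg (Real.sqrt_nonneg _)]
    exact (Real.sqrt_le_sqrt ht.2).trans (le_mul_of_one_le_left (Real.sqrt_nonneg _) p)

theorem CV.rpow {T : ℝ} (hh : ∀ i, 0 ≤ h i) (ha : 0 < a) (hg : SmN U g)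
    (h1 : ∀ x ∈ U, a ≤ g x ∧ g x ^ r ≤ T) (h2 : CV n h U g (d * a)) :
    CV n h U (fun x => g x ^ r) (cf 1 n * ((|r| + n) ^ n * T) * d * max 1 d ^ (n - 1)) :=
  CV.comp1s hh ha hg (smN_rpow' ha r T) h1 (ob1_rpow ha r T n) h2

theorem CL.rpow {T : ℝ} (hh : ∀ i, 0 ≤ h i) (ha : 0 < a) (hg : SmN U g)
    (h1 : ∀ x ∈ U, a ≤ g x ∧ g x ^ r ≤ T) (h2 : CV n h U g (d * a)) (h3 : CL n h U g (dL * a)) :
    CL n h U (fun x => g x ^ r) (cf 1 n * ((|r| + n) ^ n * T) * dL * max 1 d ^ (n - 1)) :=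
  CL.comp1s hh ha hg (smN_rpow' ha r T) h1 (ob1_rpow ha r T n) h2 h3

theorem CB.rpow {T : ℝ} (hh : ∀ i, 0 ≤ h i) (ha : 0 < a) (hg : SmN U g)
    (h1 : ∀ x ∈ U, a ≤ g x ∧ g x ^ r ≤ T) (h2 : CV n h U g (d * a)) :
    CB n h U (fun x => g x ^ r) (cf 1 n * ((|r| + n) ^ n * T) * max 1 d ^ n) :=
  CB.comp1s hh ha hg (smN_rpow' ha r T) h1 (ob1_rpow ha r T n)
    (fun t ht => by
      have := Real.rpow_pos_of_pos (ha.trans_le ht.1) r
      rw [abs_of_pos this]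
      exact ht.2.trans (le_mul_of_one_le_left (this.le.trans ht.2) (one_le_pow_abs r n))) h2

theorem CV.log (hh : ∀ i, 0 ≤ h i) (ha : 0 < a) (hg : SmN U g) (h1 : ∀ x ∈ U, a ≤ |g x|)
    (h2 : CV n h U g (d * a)) :
    CV n h U (fun x => Real.log (g x)) (cf 1 n * n.factorial * d * max 1 d ^ (n - 1)) :=
  CV.comp1s hh ha hg (smN_log' ha) h1 (ob1_log ha n) h2

theorem CL.log (hh : ∀ i, 0 ≤ h i) (ha : 0 < a) (hg : SmN U g) (h1 : ∀ x ∈ U, a ≤ |g x|)
    (h2 : CV n h U g (d * a)) (h3 : CL n h U g (dL * a)) :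
    CL n h U (fun x => Real.log (g x)) (cf 1 n * n.factorial * dL * max 1 d ^ (n - 1)) :=
  CL.comp1s hh ha hg (smN_log' ha) h1 (ob1_log ha n) h2 h3

theorem CV.exp (hh : ∀ i, 0 ≤ h i) (hg : SmN U g) (h1 : ∀ x ∈ U, g x ≤ b) (h2 : CV n h U g d) :
    CV n h U (fun x => Real.exp (g x)) (cf 1 n * Real.exp b * d * max 1 d ^ (n - 1)) :=
  CV.comp1s hh one_pos hg (SmN.of_sm Real.contDiff_exp (Iic b)) h1 (ob1_exp b n) (by simpa)

theorem CL.exp (hh : ∀ i, 0 ≤ h i) (hg : SmN U g) (h1 : ∀ x ∈ U, g x ≤ b) (h2 : CV n h U g d)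
    (h3 : CL n h U g dL) :
    CL n h U (fun x => Real.exp (g x)) (cf 1 n * Real.exp b * dL * max 1 d ^ (n - 1)) :=
  CL.comp1s hh one_pos hg (SmN.of_sm Real.contDiff_exp (Iic b)) h1 (ob1_exp b n) (by simpa) (by simpa)

theorem CB.exp (hh : ∀ i, 0 ≤ h i) (hg : SmN U g) (h1 : ∀ x ∈ U, g x ≤ b) (h2 : CV n h U g d) :
    CB n h U (fun x => Real.exp (g x)) (cf 1 n * Real.exp b * max 1 d ^ n) :=
  CB.comp1s hh one_pos hg (SmN.of_sm Real.contDiff_exp (Iic b)) h1 (ob1_exp b n)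
    (fun t ht => by rw [abs_of_pos (Real.exp_pos _)]; exact Real.exp_le_exp.2 ht) (by simpa)

/-! ### sums of locally smooth functions -/

theorem CBl.addN {P : List (Fin 3) → Prop} {B : ℝ} (hh : ∀ i, 0 ≤ h i) (hf : SmN U f)
    (hg : SmN U g) (h1 : CBl P h U f A) (h2 : CBl P h U g B) :
    CBl P h U (fun x => f x + g x) (A + B) := by
  refine CBl.of_near fun x hx => ?_
  obtain ⟨f', sf, ef⟩ := hf x hx
  obtain ⟨g', sg, eg⟩ := hg x hx
  refine ⟨fun y => f' y + g' y, ef.add eg, CBl.add hh sf sg ?_ ?_⟩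
  · exact (h1.monoU (singleton_subset_iff.2 hx)).congr fun y hy => hy ▸ ef
  · exact (h2.monoU (singleton_subset_iff.2 hx)).congr fun y hy => hy ▸ eg

theorem CBl.subN {P : List (Fin 3) → Prop} {B : ℝ} (hh : ∀ i, 0 ≤ h i) (hf : SmN U f)
    (hg : SmN U g) (h1 : CBl P h U f A) (h2 : CBl P h U g B) :
    CBl P h U (fun x => f x - g x) (A + B) := by
  refine CBl.of_near fun x hx => ?_
  obtain ⟨f', sf, ef⟩ := hf x hx
  obtain ⟨g', sg, eg⟩ := hg x hx
  refine ⟨fun y => f' y - g' y, ef.sub eg, CBl.sub hh sf sg ?_ ?_⟩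
  · exact (h1.monoU (singleton_subset_iff.2 hx)).congr fun y hy => hy ▸ ef
  · exact (h2.monoU (singleton_subset_iff.2 hx)).congr fun y hy => hy ▸ eg

/-- numerical values of the constant -/
lemma cf_le (m : ℕ) (hm : m ≤ 3) (hn : n ≤ 7) : cf m n ≤ 2 ^ 63 := by
  refine (cf_mono m hn).trans ?_
  have : (m : ℝ) ≤ 3 := by exact_mod_cast hm
  calc cf m 7 = (((m : ℝ) + 1) * 2 ^ 7) ^ 7 := rfl
    _ ≤ ((3 + 1) * 2 ^ 7) ^ 7 := by gcongr
    _ = _ := by norm_num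

end
end Pool.Agent.MP_20bec2_an.T3

end MrgPart1

-- marker of a merged file
example : 731051 + 729168 = 731051 + 729168 := rfl
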