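import Mathlib.Tactic.Monotonicity.Lemmas
import Mathlib.Analysis.Calculus.ParametricIntegral
import Mathlib.Analysis.Matrix.Order
import Mathlib.Analysis.SpecialFunctions.Gaussian.GaussianIntegral
import Mathlib.MeasureTheory.Integral.Pi
import Mathlib.Analysis.Real.Pi.Bounds
import Mathlib.LinearAlgebra.Matrix.AbsoluteValue
import Mathlib.RingTheory.PiTensorProduct
import Mathlib.MeasureTheory.Order.Group.Lattice
import Mathlib.Tactic.Polynomial.Basic
import Mathlib.Topology.Compactness.DeltaGeneratedSpace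
import Pool.Agent.MP_20bec2_an.T3.Final

-- ======== part 0: formerly Pool.Agent.MP_20bec2_an.T3.K1
section MrgPart0

set_option autoImplicit false
open MeasureTheory Set Filter Matrix Topology

namespace Pool.Agent.MP_20bec2_an.T3
noncomputable section
open Classical

namespace K1

/-- polynomials in the entries of a matrix and a vector -/
inductive Pol : (Mx → V → ℝ) → Prop
  | cst (r : ℝ) : Pol fun _ _ => r
  | ent (i j : Fin 3) : Pol fun M _ => M i j
  | crd (i : Fin 3) : Pol fun _ v => v i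
  | add {p q : Mx → V → ℝ} : Pol p → Pol q → Pol fun M v => p M v + q M v
  | mul {p q : Mx → V → ℝ} : Pol p → Pol q → Pol fun M v => p M v * q M v

/-- the linear form with given coefficients -/
def gr (d : V) : V →L[ℝ] ℝ := ∑ j, d j • ContinuousLinearMap.proj (R := ℝ) (φ := fun _ => ℝ) j

lemma gr_apply (d v : V) : gr d v = ∑ j, d j * v j := by simp [gr]

lemma gr_single (d : V) (j : Fin 3) : gr d (Pi.single j 1) = d j := by
  simp [gr_apply, Pi.single_apply]

lemma norm_gr (d : V) : ‖gr d‖ ≤ ∑ j, |d j| :=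
  ContinuousLinearMap.opNorm_le_bound _ (by positivity) fun v => by
    rw [gr_apply, Finset.sum_mul]
    refine (norm_sum_le _ _).trans (Finset.sum_le_sum fun j _ => ?_)
    rw [norm_mul]
    exact mul_le_mul_of_nonneg_left (norm_le_pi_norm v j) (norm_nonneg _)

lemma Pol.meas {p : Mx → V → ℝ} (h : Pol p) {α : Type} [MeasurableSpace α] {M : α → Mx}
    {v : α → V} (hM : ∀ i j, Measurable fun x => M x i j) (hv : ∀ i, Measurable fun x => v x i) :
    Measurable fun x => p (M x) (v x) := by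
  induction h with
  | cst r => exact measurable_const
  | ent i j => exact hM i j
  | crd i => exact hv i
  | add _ _ h1 h2 => exact h1.add h2
  | mul _ _ h1 h2 => exact h1.mul h2

lemma Pol.grow {p : Mx → V → ℝ} (h : Pol p) (B : ℝ) : ∃ (C : ℝ) (n : ℕ), 0 ≤ C ∧
    ∀ M v, (∀ i j, |M i j| ≤ B) → |p M v| ≤ C * (1 + ‖v‖) ^ n := by
  induction h with
  | cst r => exact ⟨|r|, 0, abs_nonneg _, fun _ _ _ => by simp⟩
  | ent i j => exact ⟨|B|, 0, abs_nonneg _, fun M _ h => by simpa using (h i j).trans (le_abs_self B)⟩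
  | crd i =>
    refine ⟨1, 1, zero_le_one, fun _ v _ => ?_⟩
    have := norm_le_pi_norm v i
    rw [Real.norm_eq_abs] at this
    linarith
  | add _ _ h1 h2 =>
    obtain ⟨C, n, c, h1⟩ := h1
    obtain ⟨C', n', c', h2⟩ := h2
    refine ⟨C + C', n + n', by positivity, fun M v h => (abs_add_le _ _).trans ?_⟩
    have t : 1 ≤ 1 + ‖v‖ := by linarith [norm_nonneg v]
    rw [add_mul]
    exact add_le_add ((h1 M v h).trans (by gcongr; omega)) ((h2 M v h).trans (by gcongr; omega))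
  | mul _ _ h1 h2 =>
    obtain ⟨C, n, c, h1⟩ := h1
    obtain ⟨C', n', c', h2⟩ := h2
    refine ⟨C * C', n + n', by positivity, fun M v h => ?_⟩
    rw [abs_mul, pow_add, mul_mul_mul_comm]
    exact mul_le_mul (h1 M v h) (h2 M v h) (abs_nonneg _) (by positivity)

lemma Pol.der {p : Mx → V → ℝ} (h : Pol p) : ∃ p' : Fin 3 → Mx → V → ℝ, (∀ j, Pol (p' j)) ∧
    ∀ M v, HasFDerivAt (p M) (gr fun j => p' j M v) v := by
  induction h with
  | cst r =>
    refine ⟨fun _ _ _ => 0, fun _ => .cst 0, fun M v => ?_⟩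
    exact (hasFDerivAt_const r v).congr_fderiv (by simp [gr])
  | ent i j =>
    refine ⟨fun _ _ _ => 0, fun _ => .cst 0, fun M v => ?_⟩
    exact (hasFDerivAt_const (M i j) v).congr_fderiv (by simp [gr])
  | crd i =>
    refine ⟨fun j _ _ => if i = j then 1 else 0, fun _ => .cst _, fun M v => ?_⟩
    refine (hasFDerivAt_apply (𝕜 := ℝ) i v).congr_fderiv (ContinuousLinearMap.ext fun w => ?_)
    simp [gr_apply]
  | add _ _ h1 h2 =>
    obtain ⟨a, a1, a2⟩ := h1
    obtain ⟨b, b1, b2⟩ := h2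
    refine ⟨fun j M v => a j M v + b j M v, fun j => .add (a1 j) (b1 j), fun M v => ?_⟩
    refine ((a2 M v).add (b2 M v)).congr_fderiv (ContinuousLinearMap.ext fun w => ?_)
    simp [gr_apply, add_mul, Finset.sum_add_distrib]
  | @mul p q hp hq h1 h2 =>
    obtain ⟨a, a1, a2⟩ := h1
    obtain ⟨b, b1, b2⟩ := h2
    refine ⟨fun j M v => p M v * b j M v + q M v * a j M v,
      fun j => .add (.mul hp (b1 j)) (.mul hq (a1 j)), fun M v => ?_⟩
    refine ((a2 M v).mul (b2 M v)).congr_fderiv (ContinuousLinearMap.ext fun w => ?_)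
    simp [gr_apply, Fin.sum_univ_three]
    ring

/-- the exponent -/
def qf (M : Mx) (v : V) : ℝ := -(v ⬝ᵥ (M *ᵥ v)) / 2

lemma pol_qf : Pol qf := by
  have r : ∀ i, Pol fun M v => v i * (M i 0 * v 0 + M i 1 * v 1 + M i 2 * v 2) := fun i =>
    .mul (.crd i) (.add (.add (.mul (.ent i 0) (.crd 0)) (.mul (.ent i 1) (.crd 1)))
      (.mul (.ent i 2) (.crd 2)))
  convert Pol.mul (.cst (-1 / 2)) (.add (.add (r 0) (r 1)) (r 2)) using 1
  funext M v
  simp only [qf, dotProduct, mulVec, Fin.sum_univ_three]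
  ring

/-- a polynomial times the Gaussian -/
def gs (p : Mx → V → ℝ) (M : Mx) (v : V) : ℝ := p M v * Real.exp (qf M v)

def kap (S : Mx) : ℝ := (Real.sqrt ((2 * Real.pi) ^ 3 * S.det))⁻¹

lemma ker_eq (S : Mx) (w : V) : ker S w = kap S * gs (fun _ _ => 1) S⁻¹ w := by
  simp only [ker, kap, gs, qf, one_mul]
  rw [div_eq_inv_mul]

lemma gs_der {p : Mx → V → ℝ} (h : Pol p) : ∃ p' : Fin 3 → Mx → V → ℝ, (∀ j, Pol (p' j)) ∧
    ∀ (κ : ℝ) M y w, HasFDerivAt (fun w => κ * gs p M (y - w))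
      (gr fun j => κ * gs (p' j) M (y - w)) w := by
  obtain ⟨a, a1, a2⟩ := h.der
  obtain ⟨b, b1, b2⟩ := pol_qf.der
  refine ⟨fun j M v => -1 * (a j M v + p M v * b j M v),
    fun j => .mul (.cst _) (.add (a1 j) (.mul h (b1 j))), fun κ M y w => ?_⟩
  have h1 := (((a2 M (y - w)).mul (b2 M (y - w)).exp).comp w
    ((hasFDerivAt_id w).const_sub y)).const_mul κ
  refine HasFDerivAt.congr_fderiv h1 (ContinuousLinearMap.ext fun u => ?_)
  simp [gr_apply, Fin.sum_univ_three, gs]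
  ring

lemma sq_le (v : V) : ‖v‖ ^ 2 ≤ v ⬝ᵥ v := by
  have h0 : 0 ≤ v ⬝ᵥ v := Finset.sum_nonneg fun i _ => mul_self_nonneg _
  have : ‖v‖ ≤ Real.sqrt (v ⬝ᵥ v) := (pi_norm_le_iff_of_nonneg (Real.sqrt_nonneg _)).2 fun i =>
    Real.abs_le_sqrt (by
      rw [sq]
      exact Finset.single_le_sum (f := fun i => v i * v i) (fun i _ => mul_self_nonneg _)
        (Finset.mem_univ i))
  calc ‖v‖ ^ 2 ≤ Real.sqrt (v ⬝ᵥ v) ^ 2 := by gcongr
    _ = _ := Real.sq_sqrt h0

lemma posDef {S : Mx} {c : ℝ} (hc : 0 < c) (hS : Sᵀ = S)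
    (h : ∀ v : V, c * (v ⬝ᵥ v) ≤ v ⬝ᵥ (S *ᵥ v)) : S.PosDef :=
  PosDef.of_dotProduct_mulVec_pos (by simpa [IsHermitian] using hS) fun v hv => by
    have h1 := sq_le v
    have h2 : 0 < ‖v‖ := norm_pos_iff.2 hv
    exact lt_of_lt_of_le (mul_pos hc (lt_of_lt_of_le (by positivity) h1)) (h v)

lemma mul_inv_vec {S : Mx} (h : S.PosDef) (v : V) : S *ᵥ (S⁻¹ *ᵥ v) = v := by
  rw [mulVec_mulVec, mul_nonsing_inv _ (isUnit_iff_ne_zero.2 h.det_pos.ne'), one_mulVec]

lemma inv_ent {S : Mx} {c : ℝ} (hc : 0 < c) (hS : Sᵀ = S)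
    (h : ∀ v : V, c * (v ⬝ᵥ v) ≤ v ⬝ᵥ (S *ᵥ v)) (i j : Fin 3) : |S⁻¹ i j| ≤ 1 / c := by
  have h1 := h (S⁻¹ *ᵥ Pi.single j 1)
  rw [mul_inv_vec (posDef hc hS h), dotProduct_single, mul_one] at h1
  have h2 := sq_le (S⁻¹ *ᵥ Pi.single j 1)
  have h3 := norm_le_pi_norm (S⁻¹ *ᵥ Pi.single j 1) j
  have h4 := norm_le_pi_norm (S⁻¹ *ᵥ Pi.single j 1) i
  rw [show (S⁻¹ *ᵥ Pi.single j 1) i = S⁻¹ i j by simp, Real.norm_eq_abs] at h4
  have h5 := le_abs_self ((S⁻¹ *ᵥ Pi.single j 1) j)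
  rw [Real.norm_eq_abs] at h3
  generalize ‖S⁻¹ *ᵥ Pi.single j (1 : ℝ)‖ = t at *
  refine h4.trans ?_
  rw [le_div_iff₀ hc]
  by_contra hn
  have : 0 < t := by nlinarith
  nlinarith

lemma inv_low {S : Mx} {c C : ℝ} (hc : 0 < c) (hS : Sᵀ = S)
    (h : ∀ v : V, c * (v ⬝ᵥ v) ≤ v ⬝ᵥ (S *ᵥ v) ∧ v ⬝ᵥ (S *ᵥ v) ≤ C * (v ⬝ᵥ v)) (v : V) :
    c / (9 * C ^ 2 + 1) * ‖v‖ ^ 2 ≤ v ⬝ᵥ (S⁻¹ *ᵥ v) := by
  have hP := posDef hc hS fun v => (h v).1
  have hd : ∀ i, S i i ≤ C := fun i => by simpa using (h (Pi.single i 1)).2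
  have he : ∀ i j, |S i j| ≤ C := fun i j => by
    have hs : S j i = S i j := congrFun (congrFun hS i) j
    have h1 := hP.posSemidef.dotProduct_mulVec_nonneg (Pi.single i 1 + Pi.single j 1)
    have h2 := hP.posSemidef.dotProduct_mulVec_nonneg (Pi.single i 1 - Pi.single j 1)
    simp [mulVec_add, mulVec_sub] at h1 h2
    rw [abs_le]
    constructor <;> linarith [hd i, hd j]
  have c0 : 0 ≤ C := (abs_nonneg _).trans (he 0 0)
  obtain ⟨u, rfl⟩ : ∃ u, v = S *ᵥ u := ⟨_, (mul_inv_vec hP v).symm⟩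
  rw [mulVec_mulVec, nonsing_inv_mul _ (isUnit_iff_ne_zero.2 hP.det_pos.ne'), one_mulVec,
    dotProduct_comm]
  have h1 : ‖S *ᵥ u‖ ≤ 3 * C * ‖u‖ := (pi_norm_le_iff_of_nonneg (by positivity)).2 fun i => by
    have t : ∀ j, |S i j * u j| ≤ C * ‖u‖ := fun j => by
      rw [abs_mul]
      exact mul_le_mul (he i j) (norm_le_pi_norm u j) (abs_nonneg _) c0
    simp only [mulVec, dotProduct, Fin.sum_univ_three, Real.norm_eq_abs]
    have := abs_add_three (S i 0 * u 0) (S i 1 * u 1) (S i 2 * u 2)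
    linarith [t 0, t 1, t 2]
  have h2 : ‖S *ᵥ u‖ ^ 2 ≤ (9 * C ^ 2 + 1) * ‖u‖ ^ 2 := by
    calc _ ≤ (3 * C * ‖u‖) ^ 2 := by gcongr
      _ ≤ _ := by nlinarith [sq_nonneg ‖u‖]
  calc _ ≤ c / (9 * C ^ 2 + 1) * ((9 * C ^ 2 + 1) * ‖u‖ ^ 2) := by gcongr
    _ = c * ‖u‖ ^ 2 := by field_simp
    _ ≤ c * (u ⬝ᵥ u) := by gcongr; exact sq_le u
    _ ≤ _ := (h u).1

lemma kap_le {S : Mx} {B : ℝ} (h : ∀ i j, |S⁻¹ i j| ≤ B) : |kap S| ≤ Real.sqrt (6 * B ^ 3) := by
  have h1 : |S⁻¹.det| ≤ 6 * B ^ 3 := by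
    simpa [Nat.factorial] using det_le (A := S⁻¹) (abv := AbsoluteValue.abs) (x := B) h
  rw [det_nonsing_inv, Ring.inverse_eq_inv'] at h1
  rw [kap, abs_of_nonneg (by positivity), ← Real.sqrt_inv, mul_inv]
  refine Real.sqrt_le_sqrt ((le_abs_self _).trans ?_)
  have h2 : 1 ≤ (2 * Real.pi) ^ 3 := one_le_pow₀ (by linarith [Real.pi_gt_three])
  rw [abs_mul, abs_of_nonneg (by positivity)]
  exact (mul_le_of_le_one_left (abs_nonneg _) (inv_le_one_of_one_le₀ h2)).trans h1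

lemma pow_exp (n : ℕ) {b : ℝ} (hb : 0 < b) {t : ℝ} (ht : 0 ≤ t) :
    (1 + t) ^ n * Real.exp (-(b * t ^ 2)) ≤ Real.exp (n ^ 2 / (4 * b)) := by
  have h1 : (1 + t) ^ n ≤ Real.exp (n * t) := by
    rw [Real.exp_nat_mul]
    gcongr
    linarith [Real.add_one_le_exp t]
  refine (mul_le_mul_of_nonneg_right h1 (Real.exp_pos _).le).trans ?_
  rw [← Real.exp_add, Real.exp_le_exp, le_div_iff₀ (by positivity)]
  nlinarith [sq_nonneg (n - 2 * b * t)]

variable {a : V → ℝ} {Z : V → V} {S : V → Mx} {p : Mx → V → ℝ}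

/-- the integrand -/
def tm (a : V → ℝ) (Z : V → V) (S : V → Mx) (p : Mx → V → ℝ) (z x : V) : ℝ :=
  a x * kap (S x) * gs p (S x)⁻¹ (Z x - z)

lemma bound (h : GK a Z S) (hp : Pol p) (R : ℝ) : ∃ K : ℝ, ∀ x z, ‖z‖ ≤ R →
    |tm a Z S p z x| ≤ K * (1 + ‖x‖) ^ (-4 : ℝ) := by
  obtain ⟨-, -, -, c, C, hc, h⟩ := h
  obtain ⟨D, n, hD, hg⟩ := hp.grow (1 / c)
  have c0 : 0 ≤ C := (abs_nonneg _).trans (h 0).1
  set b := c / (9 * C ^ 2 + 1) / 2 with hb
  have b0 : 0 < b := by positivity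
  refine ⟨C * Real.sqrt (6 * (1 / c) ^ 3) * (D * (Real.exp (((n + 4 : ℕ) : ℝ) ^ 2 / (4 * b)) *
    (1 + (C + |R| + 1) / c) ^ 4)), fun x z hz => ?_⟩
  by_cases h0 : a x = 0
  · rw [tm, h0, zero_mul, zero_mul, abs_zero]
    positivity
  obtain ⟨h1, h2, h3⟩ := (h x).2 h0
  have e := inv_ent hc h2 fun v => (h3 v).1
  have t0 := norm_nonneg (Z x - z)
  have k1 : Real.exp (qf (S x)⁻¹ (Z x - z)) ≤ Real.exp (-(b * ‖Z x - z‖ ^ 2)) := by
    have := inv_low hc h2 h3 (Z x - z)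
    rw [Real.exp_le_exp, qf, hb]
    linarith
  have k2 : 1 + ‖x‖ ≤ (1 + (C + |R| + 1) / c) * (1 + ‖Z x - z‖) := by
    have h4 : ‖Z x‖ ≤ ‖Z x - z‖ + ‖z‖ := norm_le_norm_sub_add _ _
    have h5 : ‖x‖ ≤ (C + |R| + 1) / c * (1 + ‖Z x - z‖) := by
      rw [div_mul_eq_mul_div, le_div_iff₀ hc]
      nlinarith [le_abs_self R, abs_nonneg R]
    nlinarith
  have k3 := pow_exp (n + 4) b0 t0
  have k4 : (1 + ‖Z x - z‖) ^ n * Real.exp (-(b * ‖Z x - z‖ ^ 2)) ≤
      Real.exp (((n + 4 : ℕ) : ℝ) ^ 2 / (4 * b)) * (1 + (C + |R| + 1) / c) ^ 4 *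
        (1 + ‖x‖) ^ (-4 : ℝ) := by
    rw [Real.rpow_neg (by positivity), ← div_eq_mul_inv, le_div_iff₀ (by positivity),
      show (4 : ℝ) = (4 : ℕ) by norm_num, Real.rpow_natCast]
    calc _ ≤ (1 + ‖Z x - z‖) ^ n * Real.exp (-(b * ‖Z x - z‖ ^ 2)) *
          ((1 + (C + |R| + 1) / c) * (1 + ‖Z x - z‖)) ^ 4 := by gcongr
      _ = (1 + ‖Z x - z‖) ^ (n + 4) * Real.exp (-(b * ‖Z x - z‖ ^ 2)) *
          (1 + (C + |R| + 1) / c) ^ 4 := by ring
      _ ≤ _ := by
        gcongr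
        simpa using k3
  rw [tm, gs, abs_mul, abs_mul, abs_mul, Real.abs_exp]
  calc _ ≤ C * Real.sqrt (6 * (1 / c) ^ 3) * (D * (1 + ‖Z x - z‖) ^ n *
        Real.exp (-(b * ‖Z x - z‖ ^ 2))) := by
        gcongr
        · exact (h x).1
        · exact kap_le e
        · exact hg _ _ e
    _ = C * Real.sqrt (6 * (1 / c) ^ 3) * (D * ((1 + ‖Z x - z‖) ^ n *
        Real.exp (-(b * ‖Z x - z‖ ^ 2)))) := by ring
    _ ≤ C * Real.sqrt (6 * (1 / c) ^ 3) * (D * (Real.exp (((n + 4 : ℕ) : ℝ) ^ 2 / (4 * b)) *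
        (1 + (C + |R| + 1) / c) ^ 4 * (1 + ‖x‖) ^ (-4 : ℝ))) := by gcongr
    _ = _ := by ring

lemma meas2 (h : GK a Z S) (hp : Pol p) : Measurable fun y : V × V => tm a Z S p y.1 y.2 := by
  obtain ⟨h1, h2, h3, -⟩ := h
  have hS : Continuous S := continuous_matrix h3
  have hM : ∀ i j, Measurable fun y : V × V => (S y.2)⁻¹ i j := fun i j => by
    simp only [inv_def, Ring.inverse_eq_inv', Matrix.smul_apply, smul_eq_mul]
    exact ((hS.matrix_det.measurable.inv).mul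
      (hS.matrix_adjugate.matrix_elem i j).measurable).comp measurable_snd
  have hv : ∀ i, Measurable fun y : V × V => (Z y.2 - y.1) i := fun i => by fun_prop
  have hk : Measurable fun x => kap (S x) :=
    (Real.continuous_sqrt.comp (continuous_const.mul hS.matrix_det)).measurable.inv
  exact ((h1.mul hk).comp measurable_snd).mul ((hp.meas hM hv).mul (pol_qf.meas hM hv).exp)

lemma int4 : Integrable fun x : V => (1 + ‖x‖) ^ (-4 : ℝ) :=
  integrable_one_add_norm (by simp; norm_num)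

lemma meas1 (h : GK a Z S) (hp : Pol p) (z : V) : Measurable (tm a Z S p z) :=
  (meas2 h hp).comp measurable_prodMk_left

lemma integ (h : GK a Z S) (hp : Pol p) (z : V) : Integrable (tm a Z S p z) := by
  obtain ⟨K, hK⟩ := bound h hp ‖z‖
  exact (int4.const_mul K).mono' (meas1 h hp z).aestronglyMeasurable
    (ae_of_all _ fun x => hK x z le_rfl)

lemma der_abs {F : V → V → ℝ} {F' : Fin 3 → V → V → ℝ} {K : Fin 3 → ℝ} {z : V}
    (h1 : ∀ w, Integrable (F w)) (h2 : ∀ j, Integrable (F' j z))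
    (h3 : ∀ j x w, ‖w‖ ≤ ‖z‖ + 1 → |F' j w x| ≤ K j * (1 + ‖x‖) ^ (-4 : ℝ))
    (h4 : ∀ x w, HasFDerivAt (fun w => F w x) (gr fun j => F' j w x) w) :
    HasFDerivAt (fun z => ∫ x, F z x) (gr fun j => ∫ x, F' j z x) z := by
  have i1 := fun j : Fin 3 => Integrable.smul_const (β := V →L[ℝ] ℝ) (h2 j)
    (ContinuousLinearMap.proj j)
  have i2 := integrable_finsetSum Finset.univ fun j _ => i1 j
  have i3 : ∀ x, ∀ w ∈ Metric.ball z 1, ‖gr fun j => F' j w x‖ ≤
      (∑ j, K j) * (1 + ‖x‖) ^ (-4 : ℝ) := fun x w hw => (norm_gr _).trans (by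
    rw [Finset.sum_mul]
    exact Finset.sum_le_sum fun j _ => h3 j x w (norm_le_norm_add_const_of_dist_le
      (Metric.mem_ball.1 hw).le))
  refine (hasFDerivAt_integral_of_dominated_of_fderiv_le (μ := volume) (F := F)
    (F' := fun w x => gr fun j => F' j w x) (Metric.ball_mem_nhds z one_pos)
    (Eventually.of_forall fun w => (h1 w).aestronglyMeasurable) (h1 z) i2.aestronglyMeasurable
    (ae_of_all _ i3) (int4.const_mul _) (ae_of_all _ fun x w _ => h4 x w)).congr_fderiv ?_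
  simp only [gr]
  rw [integral_finsetSum _ fun j _ => i1 j]
  simp only [integral_smul_const]

lemma der_int (h : GK a Z S) (hp : Pol p) {p' : Fin 3 → Mx → V → ℝ} (h1 : ∀ j, Pol (p' j))
    (h2 : ∀ (κ : ℝ) M y w, HasFDerivAt (fun w => κ * gs p M (y - w))
      (gr fun j => κ * gs (p' j) M (y - w)) w) (z : V) :
    HasFDerivAt (fun z => ∫ x, tm a Z S p z x) (gr fun j => ∫ x, tm a Z S (p' j) z x) z := by
  choose K hK using fun j => bound h (h1 j) (‖z‖ + 1)
  exact der_abs (integ h hp) (fun j => integ h (h1 j) z) hK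
    fun x w => h2 (a x * kap (S x)) (S x)⁻¹ (Z x) w

lemma smooth (h : GK a Z S) (n : ℕ) : ∀ p, Pol p → ContDiff ℝ n fun z => ∫ x, tm a Z S p z x := by
  induction n with
  | zero =>
    intro p hp
    obtain ⟨p', h1, h2⟩ := gs_der hp
    exact contDiff_zero.2 (Differentiable.continuous (𝕜 := ℝ) fun z =>
      (der_int h hp h1 h2 z).differentiableAt)
  | succ n ih =>
    intro p hp
    obtain ⟨p', h1, h2⟩ := gs_der hp
    rw [Nat.cast_succ, contDiff_succ_iff_fderiv]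
    refine ⟨fun z => (der_int h hp h1 h2 z).differentiableAt, by simp, ?_⟩
    rw [funext fun z => (der_int h hp h1 h2 z).fderiv]
    exact ContDiff.sum fun j _ => (ih _ (h1 j)).smul contDiff_const

lemma pds_eq (h : GK a Z S) (l : List (Fin 3)) : ∃ p, Pol p ∧
    (∀ (κ : ℝ) M y, pds l (fun w => κ * gs (fun _ _ => 1) M (y - w)) =
      fun w => κ * gs p M (y - w)) ∧
    pds l (fun z => ∫ x, tm a Z S (fun _ _ => 1) z x) = fun z => ∫ x, tm a Z S p z x := by
  induction l with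
  | nil => exact ⟨_, .cst 1, fun _ _ _ => rfl, rfl⟩
  | cons j l ih =>
    obtain ⟨p, hp, e1, e2⟩ := ih
    obtain ⟨p', h1, h2⟩ := gs_der hp
    refine ⟨p' j, h1 j, fun κ M y => funext fun w => ?_, funext fun z => ?_⟩
    · rw [pds, e1, pd, (h2 κ M y w).fderiv, gr_single]
    · rw [pds, e2, pd, (der_int h hp h1 h2 z).fderiv, gr_single]

lemma tm_one (z x : V) : a x * ker (S x) (Z x - z) = tm a Z S (fun _ _ => 1) z x := by
  rw [ker_eq, tm, mul_assoc]

end K1

open K1 in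
theorem k1 : K1Stmt := by
  intro a Z S h
  have e : dens a Z S = fun z => ∫ x, tm a Z S (fun _ _ => 1) z x := by
    funext z
    simp only [dens, tm_one]
  refine ⟨?_, fun z => ?_, fun l z => ?_⟩
  · rw [e]
    exact contDiff_infty.2 fun n => smooth h n _ (.cst 1)
  · simp only [tm_one]
    exact integ h (.cst 1) z
  · obtain ⟨p, hp, e1, e2⟩ := pds_eq h l
    have e3 : (fun x => a x * pds l (fun w => ker (S x) (Z x - w)) z) = tm a Z S p z := by
      funext x
      simp only [ker_eq, e1, tm, mul_assoc]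
    rw [e3, e, e2]
    exact ⟨integ h hp z, rfl⟩

end
end Pool.Agent.MP_20bec2_an.T3

end MrgPart0

-- ======== part 1: formerly Pool.Agent.MP_20bec2_an.T3.K2a
section MrgPart1

/-! Gaussian integrals over a general parameter space and their derivatives. -/

set_option autoImplicit false
open MeasureTheory Set Filter Matrix Topology

namespace Pool.Agent.MP_20bec2_an.T3.K2P
noncomputable section

/-- the covector with the given coordinates -/
def cov (c : Fin 3 → ℝ) : V →L[ℝ] ℝ := ∑ j, c j • (ContinuousLinearMap.proj j : V →L[ℝ] ℝ)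

lemma cov_ap (c v : V) : cov c v = ∑ j, c j * v j := by
  simp [cov]

lemma cont_cov : Continuous cov :=
  continuous_finsetSum _ fun j _ => (continuous_apply j).smul continuous_const

lemma cov_single (c : V) (j : Fin 3) : cov c (Pi.single j 1) = c j := by
  rw [cov_ap, Finset.sum_eq_single j] <;> simp +contextual [Pi.single_apply]

lemma norm_cov (c : V) : ‖cov c‖ ≤ ∑ j, |c j| := by
  refine ContinuousLinearMap.opNorm_le_bound _ (by positivity) fun v => ?_
  rw [cov_ap, Finset.sum_mul]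
  refine (norm_sum_le _ _).trans (Finset.sum_le_sum fun j _ => ?_)
  rw [norm_mul]
  exact mul_le_mul_of_nonneg_left (norm_le_pi_norm v j) (norm_nonneg _)

lemma hasc {f g : V → ℝ} {L : V →L[ℝ] ℝ} {c z : V} (h : HasFDerivAt f L z) (e : ∀ v, g v = f v)
    (e' : ∀ v, ∑ j, c j * v j = L v) : HasFDerivAt g (cov c) z := by
  have h1 : g = f := funext e
  have h2 : cov c = L := ContinuousLinearMap.ext fun v => (cov_ap c v).trans (e' v)
  rw [h1, h2]
  exact h

lemma pd_of {f : V → ℝ} {c z : V} (h : HasFDerivAt f (cov c) z) (j : Fin 3) : pd j f z = c j := by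
  rw [pd, h.fderiv, cov_single]

lemma has_cov {f : V → ℝ} {z : V} (h : DifferentiableAt ℝ f z) :
    HasFDerivAt f (cov fun j => pd j f z) z := by
  refine hasc h.hasFDerivAt (fun _ => rfl) fun v => ?_
  conv_rhs => rw [← Finset.univ_sum_single v, map_sum]
  refine Finset.sum_congr rfl fun j _ => ?_
  have : (Pi.single j (v j) : V) = v j • (Pi.single j 1 : V) := by
    rw [← Pi.single_smul, smul_eq_mul, mul_one]
  rw [this, map_smul, pd, smul_eq_mul, mul_comm]

/-- a tower of coordinate derivatives -/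
def Tw (F : List (Fin 3) → V → ℝ) : Prop :=
  ∀ l z, HasFDerivAt (F l) (cov fun j => F (j :: l) z) z

lemma Tw.pds {F : List (Fin 3) → V → ℝ} (h : Tw F) (l : List (Fin 3)) : pds l (F []) = F l := by
  induction l with
  | nil => rfl
  | cons j l ih =>
    funext z
    rw [T3.pds, ih, pd_of (h l z)]

lemma Tw.sm {F : List (Fin 3) → V → ℝ} (h : Tw F) (l : List (Fin 3)) : Sm (F l) := by
  refine contDiff_infty.2 fun n => ?_
  induction n generalizing l with
  | zero => exact contDiff_zero.2 (continuous_iff_continuousAt.2 fun z => (h l z).continuousAt)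
  | succ n ih =>
    rw [Nat.cast_succ]
    refine contDiff_succ_iff_hasFDerivAt.2 ⟨_, ?_, h l⟩
    exact ContDiff.sum fun j _ => (ih (j :: l)).smul contDiff_const

lemma Tw.comb {F : List (Fin 3) → V → ℝ} {G : Fin 3 → List (Fin 3) → V → ℝ} (h : Tw F)
    (h' : ∀ j, Tw (G j)) : Tw fun l z => -F l z + ∑ j, G j l z := fun l z => by
  refine hasc ((h l z).neg.add (HasFDerivAt.fun_sum fun j (_ : j ∈ Finset.univ) => h' j l z))
    (fun _ => rfl) fun v => ?_
  simp only [cov_ap, _root_.add_apply, _root_.neg_apply, Fin.sum_univ_three]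
  ring

/-- polynomials in the entries of a matrix and of a vector -/
inductive Pl : (Mx → V → ℝ) → Prop
  | c (a : ℝ) : Pl fun _ _ => a
  | m (i j : Fin 3) : Pl fun P _ => P i j
  | x (i : Fin 3) : Pl fun _ v => v i
  | add {f g : Mx → V → ℝ} : Pl f → Pl g → Pl fun P v => f P v + g P v
  | mul {f g : Mx → V → ℝ} : Pl f → Pl g → Pl fun P v => f P v * g P v

lemma Pl.der {g : Mx → V → ℝ} (h : Pl g) : ∃ g' : Fin 3 → Mx → V → ℝ, (∀ j, Pl (g' j)) ∧
    ∀ P v, HasFDerivAt (g P) (cov fun j => g' j P v) v := by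
  induction h with
  | c a =>
    refine ⟨fun _ _ _ => 0, fun _ => Pl.c 0, fun P v => ?_⟩
    exact hasc (hasFDerivAt_const a v) (fun _ => rfl) fun w => by simp
  | m i j =>
    refine ⟨fun _ _ _ => 0, fun _ => Pl.c 0, fun P v => ?_⟩
    exact hasc (hasFDerivAt_const (P i j) v) (fun _ => rfl) fun w => by simp
  | x i =>
    refine ⟨fun j _ _ => (Pi.single i 1 : V) j, fun _ => Pl.c _, fun P v => ?_⟩
    refine hasc (hasFDerivAt_apply (𝕜 := ℝ) i v) (fun _ => rfl) fun w => ?_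
    rw [Finset.sum_eq_single i] <;> simp +contextual [Pi.single_apply]
  | add _ _ hf hg =>
    obtain ⟨f', a, b⟩ := hf
    obtain ⟨g', c, d⟩ := hg
    refine ⟨fun j P v => f' j P v + g' j P v, fun j => (a j).add (c j), fun P v => ?_⟩
    refine hasc ((b P v).add (d P v)) (fun _ => rfl) fun w => ?_
    simp only [cov_ap, _root_.add_apply, Fin.sum_univ_three]
    ring
  | @mul f g hf0 hg0 hf hg =>
    obtain ⟨f', a, b⟩ := hf
    obtain ⟨g', c, d⟩ := hg
    refine ⟨fun j P v => f P v * g' j P v + g P v * f' j P v,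
      fun j => (hf0.mul (c j)).add (hg0.mul (a j)), fun P v => ?_⟩
    refine hasc ((b P v).mul (d P v)) (fun _ => rfl) fun w => ?_
    simp only [cov_ap, _root_.add_apply, _root_.smul_apply, Fin.sum_univ_three, smul_eq_mul]
    ring

lemma Pl.pd {g : Mx → V → ℝ} (h : Pl g) (j : Fin 3) : Pl fun P v => pd j (g P) v := by
  obtain ⟨g', a, b⟩ := h.der
  convert a j using 3 with P v
  exact pd_of (b P v) j

lemma Pl.diff {g : Mx → V → ℝ} (h : Pl g) (P : Mx) : Differentiable ℝ (g P) := fun v => by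
  obtain ⟨g', -, b⟩ := h.der
  exact (b P v).differentiableAt

lemma Pl.meas {Ω : Type} [MeasurableSpace Ω] {g : Mx → V → ℝ} (h : Pl g) {P : Ω → Mx} {Y : Ω → V}
    (hP : ∀ i j, Measurable fun ω => P ω i j) (hY : ∀ i, Measurable fun ω => Y ω i) :
    Measurable fun ω => g (P ω) (Y ω) := by
  induction h with
  | c a => exact measurable_const
  | m i j => exact hP i j
  | x i => exact hY i
  | add _ _ hf hg => exact hf.add hg
  | mul _ _ hf hg => exact hf.mul hg

lemma Pl.bound {g : Mx → V → ℝ} (h : Pl g) (K : ℝ) : ∃ C n : ℝ, 0 ≤ C ∧ 0 ≤ n ∧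
    ∀ (P : Mx) (v : V), (∀ i j, |P i j| ≤ K) → |g P v| ≤ C * Real.exp (n * ‖v‖) := by
  induction h with
  | c a => exact ⟨|a|, 0, abs_nonneg a, le_rfl, fun P v _ => by simp⟩
  | m i j =>
    exact ⟨|K|, 0, abs_nonneg K, le_rfl, fun P v hP => by
      simpa using (hP i j).trans (le_abs_self K)⟩
  | x i =>
    refine ⟨1, 1, zero_le_one, zero_le_one, fun P v _ => ?_⟩
    have h1 : |v i| ≤ ‖v‖ := norm_le_pi_norm v i
    have h2 := Real.add_one_le_exp ‖v‖
    rw [one_mul, one_mul]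
    linarith
  | add _ _ hf hg =>
    obtain ⟨C, n, hC, hn, a⟩ := hf
    obtain ⟨C', n', hC', hn', b⟩ := hg
    refine ⟨C + C', n + n', by positivity, by positivity, fun P v hP => ?_⟩
    have h1 : Real.exp (n * ‖v‖) ≤ Real.exp ((n + n') * ‖v‖) := by
      gcongr; linarith
    have h2 : Real.exp (n' * ‖v‖) ≤ Real.exp ((n + n') * ‖v‖) := by
      gcongr; linarith
    have h3 := mul_le_mul_of_nonneg_left h1 hC
    have h4 := mul_le_mul_of_nonneg_left h2 hC'
    refine (abs_add_le _ _).trans ?_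
    linarith [a P v hP, b P v hP]
  | mul _ _ hf hg =>
    obtain ⟨C, n, hC, hn, a⟩ := hf
    obtain ⟨C', n', hC', hn', b⟩ := hg
    refine ⟨C * C', n + n', by positivity, by positivity, fun P v hP => ?_⟩
    rw [abs_mul, add_mul, Real.exp_add, mul_mul_mul_comm]
    exact mul_le_mul (a P v hP) (b P v hP) (abs_nonneg _) (by positivity)

lemma pl_q : Pl fun P v => v ⬝ᵥ (P *ᵥ v) := by
  have h : ∀ i j, Pl fun (P : Mx) (v : V) => v i * (P i j * v j) := fun i j =>
    (Pl.x i).mul ((Pl.m i j).mul (Pl.x j))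
  convert ((((h 0 0).add (h 0 1)).add (h 0 2)).add (((h 1 0).add (h 1 1)).add (h 1 2))).add
    (((h 2 0).add (h 2 1)).add (h 2 2)) using 3 with P v
  simp only [dotProduct, mulVec, Fin.sum_univ_three]
  ring

/-- half the gradient of the quadratic form -/
def hg (j : Fin 3) (P : Mx) (v : V) : ℝ := ∑ i, (P j i + P i j) / 2 * v i

lemma pl_hg (j : Fin 3) : Pl (hg j) := by
  have h : ∀ i, Pl fun (P : Mx) (v : V) => (P j i + P i j) * (1 / 2) * v i := fun i =>
    (((Pl.m j i).add (Pl.m i j)).mul (Pl.c _)).mul (Pl.x i)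
  convert ((h 0).add (h 1)).add (h 2) using 3 with P v
  simp only [hg, Fin.sum_univ_three]
  ring

lemma has_q (P : Mx) (v : V) :
    HasFDerivAt (fun v : V => v ⬝ᵥ (P *ᵥ v)) (cov fun j => 2 * hg j P v) v := by
  have h : ∀ i j, HasFDerivAt (fun v : V => v i * (P i j * v j)) _ v := fun i j =>
    (hasFDerivAt_apply (𝕜 := ℝ) i v).mul ((hasFDerivAt_apply (𝕜 := ℝ) j v).const_mul (P i j))
  refine hasc (HasFDerivAt.fun_sum fun i (_ : i ∈ Finset.univ) =>
    HasFDerivAt.fun_sum fun j (_ : j ∈ Finset.univ) => h i j) (fun v => ?_) fun w => ?_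
  · simp only [dotProduct, mulVec, Finset.mul_sum]
  · simp only [hg, Fin.sum_univ_three, _root_.add_apply, _root_.smul_apply, smul_eq_mul,
      ContinuousLinearMap.proj_apply]
    ring

/-- polynomial times Gaussian -/
def E (g : Mx → V → ℝ) (P : Mx) (v : V) : ℝ := g P v * Real.exp (-(v ⬝ᵥ (P *ᵥ v)) / 2)

/-- the polynomial of the derivative of `z ↦ E g P (y - z)` -/
def D (j : Fin 3) (g : Mx → V → ℝ) (P : Mx) (v : V) : ℝ := -pd j (g P) v + g P v * hg j P v

def Ds : List (Fin 3) → (Mx → V → ℝ) → Mx → V → ℝ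
  | [], g => g
  | j :: l, g => D j (Ds l g)

lemma Pl.D {g : Mx → V → ℝ} (h : Pl g) (j : Fin 3) : Pl (D j g) := by
  convert ((Pl.c (-1)).mul (h.pd j)).add (h.mul (pl_hg j)) using 3 with P v
  rw [K2P.D, neg_one_mul]

lemma Pl.Ds {g : Mx → V → ℝ} (h : Pl g) (l : List (Fin 3)) : Pl (Ds l g) := by
  induction l with
  | nil => exact h
  | cons j l ih => exact ih.D j

lemma has_E {g : Mx → V → ℝ} (h : Pl g) (P : Mx) (y z : V) :
    HasFDerivAt (fun z => E g P (y - z)) (cov fun j => E (D j g) P (y - z)) z := by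
  have h1 := (has_cov (h.diff P (y - z))).mul
    (((has_q P (y - z)).neg.mul_const (1 / 2 : ℝ)).exp)
  have h2 := h1.comp z ((hasFDerivAt_id z).const_sub y)
  refine hasc h2 (fun z => ?_) fun w => ?_
  · simp only [E, Function.comp, Pi.mul_apply, Pi.neg_apply]
    congr 2
    ring
  · have e : -((y - z) ⬝ᵥ (P *ᵥ (y - z))) * (1 / 2) = -((y - z) ⬝ᵥ (P *ᵥ (y - z))) / 2 := by ring
    simp only [cov_ap, E, D, ContinuousLinearMap.comp_apply, _root_.add_apply,
      _root_.smul_apply, _root_.neg_apply, ContinuousLinearMap.id_apply, smul_eq_mul,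
      Fin.sum_univ_three, Pi.neg_apply, e]
    ring

lemma bound_E {g : Mx → V → ℝ} (h : Pl g) {c : ℝ} (hc : 0 < c) (K : ℝ) : ∃ C : ℝ, 0 ≤ C ∧
    ∀ (P : Mx) (v : V), (∀ i j, |P i j| ≤ K) → (∀ v : V, c * ‖v‖ ^ 2 ≤ v ⬝ᵥ (P *ᵥ v)) →
      |E g P v| ≤ C * Real.exp (-‖v‖) := by
  obtain ⟨C, n, hC, hn, b⟩ := h.bound K
  refine ⟨C * Real.exp ((n + 1) ^ 2 / (2 * c)), by positivity, fun P v h1 h2 => ?_⟩
  rw [E, abs_mul, abs_of_pos (Real.exp_pos _)]
  refine (mul_le_mul_of_nonneg_right (b P v h1) (Real.exp_pos _).le).trans ?_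
  rw [mul_assoc, mul_assoc, ← Real.exp_add, ← Real.exp_add]
  refine mul_le_mul_of_nonneg_left (Real.exp_le_exp.2 ?_) hC
  have h3 := h2 v
  have h4 : (n + 1) * ‖v‖ - c * ‖v‖ ^ 2 / 2 ≤ (n + 1) ^ 2 / (2 * c) := by
    rw [le_div_iff₀ (by positivity)]
    nlinarith [sq_nonneg (n + 1 - c * ‖v‖)]
  linarith

variable {Ω : Type} [MeasurableSpace Ω] {μ : Measure Ω} {w : Ω → ℝ} {P : Ω → Mx} {Y : Ω → V}

/-- admissible data -/
structure Ad (μ : Measure Ω) (w : Ω → ℝ) (P : Ω → Mx) (Y : Ω → V) : Prop where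
  mw : Measurable w
  mP : ∀ i j, Measurable fun ω => P ω i j
  mY : ∀ i, Measurable fun ω => Y ω i
  bd : ∃ c K : ℝ, 0 < c ∧ ∀ᵐ ω ∂μ, w ω ≠ 0 →
    (∀ i j, |P ω i j| ≤ K) ∧ ∀ v : V, c * ‖v‖ ^ 2 ≤ v ⬝ᵥ (P ω *ᵥ v)
  int : Integrable (fun ω => |w ω| * Real.exp (-‖Y ω‖)) μ

/-- the Gaussian integral -/
def GI (μ : Measure Ω) (w : Ω → ℝ) (P : Ω → Mx) (Y : Ω → V) (g : Mx → V → ℝ) (z : V) : ℝ :=
  ∫ ω, w ω * E g (P ω) (Y ω - z) ∂μ

lemma Ad.meas (h : Ad μ w P Y) {g : Mx → V → ℝ} (hg : Pl g) (z : V) :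
    Measurable fun ω => w ω * E g (P ω) (Y ω - z) := by
  have hY : ∀ i, Measurable fun ω => (Y ω - z) i := fun i => (h.mY i).sub_const (z i)
  exact h.mw.mul ((hg.meas h.mP hY).mul ((pl_q.meas h.mP hY).neg.div_const 2).exp)

lemma Ad.dom (h : Ad μ w P Y) {g : Mx → V → ℝ} (hg : Pl g) (R : ℝ) : ∃ C : ℝ, ∀ᵐ ω ∂μ,
    ∀ z : V, ‖z‖ ≤ R → |w ω * E g (P ω) (Y ω - z)| ≤ C * (|w ω| * Real.exp (-‖Y ω‖)) := by
  obtain ⟨c, K, hc, hb⟩ := h.bd
  obtain ⟨C, hC, b⟩ := bound_E hg hc K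
  refine ⟨C * Real.exp R, hb.mono fun ω hω z hz => ?_⟩
  by_cases h0 : w ω = 0
  · simp [h0]
  · have h1 := b (P ω) (Y ω - z) (hω h0).1 (hω h0).2
    have h2 : Real.exp (-‖Y ω - z‖) ≤ Real.exp R * Real.exp (-‖Y ω‖) := by
      rw [← Real.exp_add]
      refine Real.exp_le_exp.2 ?_
      linarith [norm_sub_norm_le (Y ω) z]
    rw [abs_mul]
    calc _ ≤ |w ω| * (C * (Real.exp R * Real.exp (-‖Y ω‖))) :=
        mul_le_mul_of_nonneg_left (h1.trans (mul_le_mul_of_nonneg_left h2 hC)) (abs_nonneg _)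
      _ = _ := by ring

lemma Ad.integrable (h : Ad μ w P Y) {g : Mx → V → ℝ} (hg : Pl g) (z : V) :
    Integrable (fun ω => w ω * E g (P ω) (Y ω - z)) μ := by
  obtain ⟨C, hC⟩ := h.dom hg ‖z‖
  exact (h.int.const_mul C).mono' (h.meas hg z).aestronglyMeasurable
    (hC.mono fun ω hω => hω z le_rfl)

lemma Ad.has (h : Ad μ w P Y) {g : Mx → V → ℝ} (hg : Pl g) (z : V) :
    HasFDerivAt (GI μ w P Y g) (cov fun j => GI μ w P Y (D j g) z) z := by
  choose C hC using fun j => h.dom (hg.D j) (‖z‖ + 1)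
  have h2 : ∀ᵐ ω ∂μ, ∀ z' ∈ Metric.ball z 1,
      ‖cov fun j => w ω * E (D j g) (P ω) (Y ω - z')‖ ≤
        ∑ j, C j * (|w ω| * Real.exp (-‖Y ω‖)) := by
    filter_upwards [ae_all_iff.2 hC] with ω hω z' hz'
    refine (norm_cov _).trans (Finset.sum_le_sum fun j _ => hω j z' ?_)
    have := norm_sub_norm_le z' z
    rw [Metric.mem_ball, dist_eq_norm] at hz'
    linarith
  have h3 : Integrable (fun ω => ∑ j, C j * (|w ω| * Real.exp (-‖Y ω‖))) μ :=
    integrable_finsetSum _ fun j _ => h.int.const_mul _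
  have h1 : Integrable (fun ω => cov fun j => w ω * E (D j g) (P ω) (Y ω - z)) μ :=
    h3.mono' (cont_cov.comp_aestronglyMeasurable
      (measurable_pi_iff.2 fun j => h.meas (hg.D j) z).aestronglyMeasurable)
      (h2.mono fun ω hω => hω z (Metric.mem_ball_self one_pos))
  have h4 : ∀ᵐ ω ∂μ, ∀ z' ∈ Metric.ball z 1, HasFDerivAt (fun z => w ω * E g (P ω) (Y ω - z))
      (cov fun j => w ω * E (D j g) (P ω) (Y ω - z')) z' := Eventually.of_forall fun ω z' _ => by
    refine hasc ((has_E hg (P ω) (Y ω) z').const_mul (w ω)) (fun _ => rfl) fun v => ?_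
    simp only [cov_ap, _root_.smul_apply, smul_eq_mul, Fin.sum_univ_three]
    ring
  have h5 := hasFDerivAt_integral_of_dominated_of_fderiv_le (𝕜 := ℝ) (μ := μ)
    (F := fun z ω => w ω * E g (P ω) (Y ω - z))
    (F' := fun z ω => cov fun j => w ω * E (D j g) (P ω) (Y ω - z))
    (Metric.ball_mem_nhds z one_pos)
    (Eventually.of_forall fun z => (h.meas hg z).aestronglyMeasurable) (h.integrable hg z)
    h1.aestronglyMeasurable h2 h3 h4
  refine hasc h5 (fun _ => rfl) fun v => ?_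
  rw [ContinuousLinearMap.integral_apply h1]
  simp only [cov_ap]
  rw [integral_finsetSum _ fun j _ => (h.integrable (hg.D j) z).mul_const _]
  exact Finset.sum_congr rfl fun j _ => (integral_mul_const _ _).symm

lemma Ad.tw (h : Ad μ w P Y) {g : Mx → V → ℝ} (hg : Pl g) : Tw fun l => GI μ w P Y (Ds l g) :=
  fun l z => h.has (hg.Ds l) z

lemma Ad.pds (h : Ad μ w P Y) {g : Mx → V → ℝ} (hg : Pl g) (l : List (Fin 3)) :
    pds l (GI μ w P Y g) = GI μ w P Y (Ds l g) := (h.tw hg).pds l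

end
end Pool.Agent.MP_20bec2_an.T3.K2P

end MrgPart1

-- ======== part 2: formerly Pool.Agent.MP_20bec2_an.T3.K2
section MrgPart2

/-! The flux identity: heat equation for the Gaussian kernel along a segment. -/

set_option autoImplicit false
open MeasureTheory Set Filter Matrix Topology

namespace Pool.Agent.MP_20bec2_an.T3
noncomputable section

namespace K2P

lemma has_det (S M : Mx) (t : ℝ) (h : (S + t • M).det ≠ 0) :
    HasDerivAt (fun s : ℝ => (S + s • M).det)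
      ((S + t • M).det * ∑ i, ∑ j, (S + t • M)⁻¹ j i * M i j) t := by
  have e : ∀ i j, HasDerivAt (fun s : ℝ => (S + s • M) i j) (M i j) t := fun i j => by
    simpa using ((hasDerivAt_id t).mul_const (M i j)).const_add (S i j)
  have h1 := ((((((e 0 0).mul (e 1 1)).mul (e 2 2)).sub (((e 0 0).mul (e 1 2)).mul (e 2 1))).sub
    (((e 0 1).mul (e 1 0)).mul (e 2 2))).add (((e 0 1).mul (e 1 2)).mul (e 2 0))).add
    (((e 0 2).mul (e 1 0)).mul (e 2 1)) |>.sub (((e 0 2).mul (e 1 1)).mul (e 2 0))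
  have h2 : ∀ i j, (S + t • M).det * (S + t • M)⁻¹ i j = (S + t • M).adjugate i j := fun i j => by
    rw [inv_def, Ring.inverse_eq_inv', Matrix.smul_apply, smul_eq_mul, mul_inv_cancel_left₀ h]
  refine (h1.congr_of_eventuallyEq (Eventually.of_forall fun s => det_fin_three _)).congr_deriv ?_
  simp only [Finset.mul_sum, ← mul_assoc, h2, Pi.mul_apply]
  generalize S + t • M = A
  simp [adjugate_fin_three, Fin.sum_univ_three]
  ring

lemma has_inv (S M : Mx) (t : ℝ) (h : (S + t • M).det ≠ 0) (i j : Fin 3) :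
    HasDerivAt (fun s : ℝ => (S + s • M)⁻¹ i j)
      (-((S + t • M)⁻¹ * M * (S + t • M)⁻¹) i j) t := by
  have c1 : Continuous fun s : ℝ => S + s • M := by fun_prop
  have c2 : ContinuousAt (fun s : ℝ => (S + s • M)⁻¹) t :=
    ContinuousAt.comp (f := fun s : ℝ => S + s • M) (continuousAt_matrix_inv _ (by
      rw [Ring.inverse_eq_inv']
      exact continuousAt_inv₀ h)) c1.continuousAt
  have c3 : Continuous fun A : Mx => -(A * M * (S + t • M)⁻¹) i j := by fun_prop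
  have c4 : ∀ᶠ s in 𝓝 t, (S + s • M).det ≠ 0 := c1.matrix_det.continuousAt.eventually_ne h
  rw [hasDerivAt_iff_tendsto_slope]
  refine ((c3.continuousAt.tendsto.comp c2).mono_left nhdsWithin_le_nhds).congr' ?_
  filter_upwards [nhdsWithin_le_nhds c4, self_mem_nhdsWithin] with s hs hst
  have e1 := nonsing_inv_mul _ (isUnit_iff_ne_zero.2 hs)
  have e2 := mul_nonsing_inv _ (isUnit_iff_ne_zero.2 h)
  have e3 : (S + s • M)⁻¹ - (S + t • M)⁻¹ =
      -((s - t) • ((S + s • M)⁻¹ * M * (S + t • M)⁻¹)) := by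
    have e4 : (s - t) • M = (S + s • M) - (S + t • M) := by rw [sub_smul]; abel
    rw [← smul_mul_assoc, ← mul_smul_comm, e4, mul_sub, sub_mul, e1, mul_assoc, e2, one_mul,
      mul_one, neg_sub]
  have e5 := congrFun (congrFun e3 i) j
  rw [Matrix.sub_apply, Matrix.neg_apply, Matrix.smul_apply, smul_eq_mul] at e5
  rw [slope_def_field, e5, Function.comp_apply]
  field_simp [sub_ne_zero.2 hst]

/-- the constant polynomial -/
def o1 : Mx → V → ℝ := fun _ _ => 1

lemma pl1 : Pl o1 := Pl.c 1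

lemma D1 (j : Fin 3) : D j o1 = hg j := by
  funext P v
  have : pd j (o1 P) v = 0 := pd_of (c := 0) (hasc (hasFDerivAt_const (1 : ℝ) v) (fun _ => rfl)
    fun w => by simp) j
  rw [D, this, o1]
  ring

lemma D2 (i j : Fin 3) (P : Mx) (v : V) :
    D i (D j o1) P v = -((P j i + P i j) / 2) + hg j P v * hg i P v := by
  have : HasFDerivAt (hg j P) (cov fun i => (P j i + P i j) / 2) v :=
    hasc (cov fun i => (P j i + P i j) / 2).hasFDerivAt (fun w => (cov_ap _ w).symm)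
      fun w => (cov_ap _ w).symm
  rw [D1, D, pd_of this i]

lemma ker_E (S : Mx) (w : V) : ker S w = K1.kap S * E o1 S⁻¹ w := K1.ker_eq S w

lemma has_ker (S B : Mx) (y u : V) (t : ℝ) (hs : (S + t • (B + Bᵀ))ᵀ = S + t • (B + Bᵀ))
    (h : 0 < (S + t • (B + Bᵀ)).det) :
    HasDerivAt (fun s : ℝ => ker (S + s • (B + Bᵀ)) (y + s • u))
      (∑ i, (-(u i * K1.kap (S + t • (B + Bᵀ)) * E (D i o1) (S + t • (B + Bᵀ))⁻¹ (y + t • u)) +
        ∑ j, B i j * K1.kap (S + t • (B + Bᵀ)) *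
          E (D i (D j o1)) (S + t • (B + Bᵀ))⁻¹ (y + t • u))) t := by
  have ev : ∀ i, HasDerivAt (fun s : ℝ => (y + s • u) i) (u i) t := fun i => by
    simpa using ((hasDerivAt_id t).mul_const (u i)).const_add (y i)
  have hq := HasDerivAt.fun_sum fun i (_ : i ∈ Finset.univ) =>
    HasDerivAt.fun_sum fun j (_ : j ∈ Finset.univ) =>
      (ev i).fun_mul ((has_inv S (B + Bᵀ) t h.ne' i j).fun_mul (ev j))
  have eq : ∀ (P : Mx) (v : V), v ⬝ᵥ (P *ᵥ v) = ∑ i, ∑ j, v i * (P i j * v j) := fun P v => by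
    simp only [dotProduct, mulVec, Finset.mul_sum]
  have h0 : 0 < (2 * Real.pi) ^ 3 * (S + t • (B + Bᵀ)).det := by positivity
  have hk := Real.sqrt_pos.2 h0
  have h1 := ((hq.fun_neg.div_const 2).exp).fun_div
    (((has_det S (B + Bᵀ) t h.ne').const_mul ((2 * Real.pi) ^ 3)).sqrt h0.ne') hk.ne'
  refine (h1.congr_of_eventuallyEq (Eventually.of_forall fun s => by
    simp only [ker, eq])).congr_deriv ?_
  have hP : ∀ i k, (S + t • (B + Bᵀ))⁻¹ i k = (S + t • (B + Bᵀ))⁻¹ k i := fun i k => by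
    rw [← transpose_apply (S + t • (B + Bᵀ))⁻¹, transpose_nonsing_inv, hs]
  simp only [E, D2, K1.kap, ← eq]
  simp only [D1]
  rw [← mul_assoc ((2 * Real.pi) ^ 3)]
  have h2 := Real.sq_sqrt h0.le
  generalize (2 * Real.pi) ^ 3 * (S + t • (B + Bᵀ)).det = X at *
  generalize (S + t • (B + Bᵀ))⁻¹ = P at *
  generalize y + t • u = v
  generalize Real.exp (-(v ⬝ᵥ (P *ᵥ v)) / 2) = e
  generalize Real.sqrt X = k at *
  subst h2
  simp only [hg, Fin.sum_univ_three, Matrix.mul_apply, Matrix.add_apply, transpose_apply,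
    hP 1 0, hP 2 0, hP 2 1]
  field_simp
  ring

variable (Z : V → V) (S : V → Mx) (u : V → V) (B : V → Mx)

def St (ω : ℝ × V) : Mx := S ω.2 + ω.1 • (B ω.2 + (B ω.2)ᵀ)
def Zt (ω : ℝ × V) : V := Z ω.2 + ω.1 • u ω.2
def Pt (ω : ℝ × V) : Mx := (St S B ω)⁻¹
def Wt (b : V → ℝ) (ω : ℝ × V) : ℝ := b ω.2 * K1.kap (St S B ω)
/-- the integral at a fixed time -/
def G1 (b : V → ℝ) (t : ℝ) : (Mx → V → ℝ) → V → ℝ :=
  GI volume (fun x => Wt S B b (t, x)) (fun x => Pt S B (t, x)) fun x => Zt Z u (t, x)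
/-- the integral over time and space -/
def G2 (b : V → ℝ) : (Mx → V → ℝ) → V → ℝ :=
  GI (((volume : Measure ℝ).restrict (Ioc 0 1)).prod volume) (Wt S B b) (Pt S B) (Zt Z u)
/-- weights subordinate to `a` -/
def Wg (a b : V → ℝ) : Prop := Measurable b ∧ (∃ C, ∀ x, |b x| ≤ C) ∧ ∀ x, b x ≠ 0 → a x ≠ 0

lemma dens_eq (b : V → ℝ) (t : ℝ) :
    dens b (fun x => Z x + t • u x) (fun x => S x + t • (B x + (B x)ᵀ)) = G1 Z S u B b t o1 := by
  funext z
  simp only [dens, G1, GI, ker_E, Wt, Pt, St, Zt, mul_assoc]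

variable {Z S u B} {a b : V → ℝ}

lemma seg (h : GKp a Z S u B) : ∃ c C : ℝ, 0 < c ∧ ∀ t ∈ Icc (0 : ℝ) 1, ∀ x, a x ≠ 0 →
    c * ‖x‖ - C ≤ ‖Zt Z u (t, x)‖ ∧ (St S B (t, x))ᵀ = St S B (t, x) ∧ ∀ v : V,
      c * (v ⬝ᵥ v) ≤ v ⬝ᵥ (St S B (t, x) *ᵥ v) ∧ v ⬝ᵥ (St S B (t, x) *ᵥ v) ≤ C * (v ⬝ᵥ v) := by
  obtain ⟨⟨-, -, -, c, C, hc, h1⟩, ⟨-, -, -, c', C', hc', h2⟩, -, -, C₂, h3⟩ := h
  refine ⟨min c c', |C| + |C'| + |C₂|, lt_min hc hc', fun t ht x hx => ⟨?_, ?_, fun v => ?_⟩⟩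
  · have a1 := ((h1 x).2 hx).1
    have a2 : ‖t • u x‖ ≤ |C₂| := by
      rw [norm_smul, Real.norm_of_nonneg ht.1]
      exact (mul_le_of_le_one_left (norm_nonneg _) ht.2).trans ((h3 x hx).1.trans (le_abs_self _))
    have a3 := norm_sub_le (Z x + t • u x) (t • u x)
    rw [add_sub_cancel_right] at a3
    have a4 := mul_le_mul_of_nonneg_right (min_le_left c c') (norm_nonneg x)
    show _ ≤ ‖Z x + t • u x‖
    linarith [le_abs_self C, abs_nonneg C']
  · simp only [St, transpose_add, transpose_smul, transpose_transpose, ((h1 x).2 hx).2.1,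
      add_comm (B x)ᵀ]
  · have a1 := ((h1 x).2 hx).2.2 v
    have a2 := ((h2 x).2 hx).2.2 v
    have a0 : 0 ≤ v ⬝ᵥ v := Finset.sum_nonneg fun i _ => mul_self_nonneg _
    have e : v ⬝ᵥ (St S B (t, x) *ᵥ v) = (1 - t) * (v ⬝ᵥ (S x *ᵥ v)) +
        t * (v ⬝ᵥ ((S x + (B x + (B x)ᵀ)) *ᵥ v)) := by
      rw [St, add_mulVec, add_mulVec (S x), smul_mulVec, dotProduct_add, dotProduct_add,
        dotProduct_smul, smul_eq_mul]
      ring
    have b1 := mul_le_mul_of_nonneg_right (min_le_left c c') a0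
    have b2 := mul_le_mul_of_nonneg_right (min_le_right c c') a0
    have b3 : C * (v ⬝ᵥ v) ≤ (|C| + |C'| + |C₂|) * (v ⬝ᵥ v) := mul_le_mul_of_nonneg_right
      (by linarith [le_abs_self C, abs_nonneg C', abs_nonneg C₂]) a0
    have b4 : C' * (v ⬝ᵥ v) ≤ (|C| + |C'| + |C₂|) * (v ⬝ᵥ v) := mul_le_mul_of_nonneg_right
      (by linarith [le_abs_self C', abs_nonneg C, abs_nonneg C₂]) a0
    have t1 : 0 ≤ 1 - t := sub_nonneg.2 ht.2
    rw [e]
    constructor
    · nlinarith [mul_le_mul_of_nonneg_left (b1.trans a1.1) t1,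
        mul_le_mul_of_nonneg_left (b2.trans a2.1) ht.1]
    · nlinarith [mul_le_mul_of_nonneg_left (a1.2.trans b3) t1,
        mul_le_mul_of_nonneg_left (a2.2.trans b4) ht.1]

lemma exp_le {c s : ℝ} (hc : 0 < c) (hs : 0 ≤ s) :
    Real.exp (-(c * s)) ≤ (1 + 4 / c) ^ 4 * (1 + s) ^ (-4 : ℝ) := by
  rw [Real.rpow_neg (by positivity), ← div_eq_mul_inv, le_div_iff₀ (by positivity),
    show (4 : ℝ) = (4 : ℕ) by norm_num, Real.rpow_natCast, Real.exp_neg,
    inv_mul_le_iff₀ (Real.exp_pos _)]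
  have h1 : 1 + s ≤ Real.exp (c * s / 4) * (1 + 4 / c) := by
    have h2 := Real.add_one_le_exp (c * s / 4)
    have h3 : (c * s / 4 + 1) * (1 + 4 / c) = 1 + s + (c * s / 4 + 4 / c) := by
      field_simp
      ring
    have h4 : 0 ≤ c * s / 4 + 4 / c := by positivity
    nlinarith [mul_le_mul_of_nonneg_right h2 (by positivity : 0 ≤ 1 + 4 / c)]
  calc _ ≤ (Real.exp (c * s / 4) * (1 + 4 / c)) ^ 4 := by gcongr
    _ = _ := by
      rw [mul_pow, ← Real.exp_nat_mul]
      congr 2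
      push_cast
      ring

lemma ptw (h : GKp a Z S u B) (hb : Wg a b) : ∃ c K A : ℝ, 0 < c ∧ ∀ t ∈ Icc (0 : ℝ) 1, ∀ x,
    (Wt S B b (t, x) ≠ 0 → (∀ i j, |Pt S B (t, x) i j| ≤ K) ∧
      ∀ v : V, c * ‖v‖ ^ 2 ≤ v ⬝ᵥ (Pt S B (t, x) *ᵥ v)) ∧
    |Wt S B b (t, x)| * Real.exp (-‖Zt Z u (t, x)‖) ≤ A * (1 + ‖x‖) ^ (-4 : ℝ) := by
  obtain ⟨c, C, hc, h1⟩ := seg h
  obtain ⟨-, ⟨C', h2⟩, h3⟩ := hb
  have c0 : 0 ≤ C' := (abs_nonneg _).trans (h2 0)
  refine ⟨c / (9 * C ^ 2 + 1), 1 / c,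
    C' * Real.sqrt (6 * (1 / c) ^ 3) * (Real.exp C * (1 + 4 / c) ^ 4), by positivity,
    fun t ht x => ?_⟩
  by_cases h0 : b x = 0
  · refine ⟨fun e => (e (by simp [Wt, h0])).elim, ?_⟩
    rw [Wt, h0, zero_mul, abs_zero, zero_mul]
    positivity
  obtain ⟨a1, a2, a3⟩ := h1 t ht x (h3 x h0)
  have e := K1.inv_ent hc a2 fun v => (a3 v).1
  refine ⟨fun _ => ⟨e, K1.inv_low hc a2 a3⟩, ?_⟩
  have b1 : Real.exp (-‖Zt Z u (t, x)‖) ≤ Real.exp C * Real.exp (-(c * ‖x‖)) := by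
    rw [← Real.exp_add, Real.exp_le_exp]
    linarith
  have b2 := b1.trans (mul_le_mul_of_nonneg_left (exp_le hc (norm_nonneg x)) (Real.exp_pos _).le)
  rw [Wt, abs_mul]
  calc _ ≤ C' * Real.sqrt (6 * (1 / c) ^ 3) *
        (Real.exp C * ((1 + 4 / c) ^ 4 * (1 + ‖x‖) ^ (-4 : ℝ))) :=
      mul_le_mul (mul_le_mul (h2 x) (K1.kap_le e) (abs_nonneg _) c0) b2 (Real.exp_pos _).le
        (by positivity)
    _ = _ := by ring

lemma meas (h : GKp a Z S u B) (hb : Wg a b) : Measurable (Wt S B b) ∧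
    (∀ i j, Measurable fun ω => Pt S B ω i j) ∧ Continuous (Zt Z u) := by
  obtain ⟨⟨-, hZ, hS, -⟩, -, hu, hB, -⟩ := h
  have cS : Continuous S := continuous_matrix hS
  have cB : Continuous B := continuous_matrix hB
  have c1 : Continuous (St S B) := (cS.comp continuous_snd).add (continuous_fst.smul
    ((cB.comp continuous_snd).add (cB.comp continuous_snd).matrix_transpose))
  refine ⟨(hb.1.comp measurable_snd).mul
    (Real.continuous_sqrt.comp (continuous_const.mul c1.matrix_det)).measurable.inv,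
    fun i j => ?_, (hZ.comp continuous_snd).add (continuous_fst.smul (hu.comp continuous_snd))⟩
  simp only [Pt, inv_def, Ring.inverse_eq_inv', Matrix.smul_apply, smul_eq_mul]
  exact c1.matrix_det.measurable.inv.mul (c1.matrix_adjugate.matrix_elem i j).measurable

lemma ad1 (h : GKp a Z S u B) (hb : Wg a b) {t : ℝ} (ht : t ∈ Icc (0 : ℝ) 1) :
    Ad volume (fun x => Wt S B b (t, x)) (fun x => Pt S B (t, x)) fun x => Zt Z u (t, x) := by
  obtain ⟨m1, m2, m3⟩ := meas h hb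
  obtain ⟨c, K, A, hc, h1⟩ := ptw h hb
  have n1 := m1.comp (measurable_prodMk_left (x := t))
  have n3 := m3.measurable.comp (measurable_prodMk_left (x := t))
  refine ⟨n1, fun i j => (m2 i j).comp measurable_prodMk_left,
    fun i => (measurable_pi_apply i).comp n3, ⟨c, K, hc, ae_of_all _ fun x => (h1 t ht x).1⟩,
    (K1.int4.const_mul A).mono' (n1.abs.mul n3.norm.neg.exp).aestronglyMeasurable
      (ae_of_all _ fun x => ?_)⟩
  rw [Real.norm_of_nonneg (by positivity)]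
  exact (h1 t ht x).2

lemma ad2 (h : GKp a Z S u B) (hb : Wg a b) :
    Ad (((volume : Measure ℝ).restrict (Ioc 0 1)).prod volume) (Wt S B b) (Pt S B) (Zt Z u) := by
  obtain ⟨m1, m2, m3⟩ := meas h hb
  obtain ⟨c, K, A, hc, h1⟩ := ptw h hb
  have ae : ∀ᵐ ω ∂((volume : Measure ℝ).restrict (Ioc 0 1)).prod (volume : Measure V),
      ω.1 ∈ Ioc (0 : ℝ) 1 :=
    Measure.quasiMeasurePreserving_fst.ae (ae_restrict_mem measurableSet_Ioc)
  refine ⟨m1, m2, fun i => (measurable_pi_apply i).comp m3.measurable,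
    ⟨c, K, hc, ae.mono fun ω hω => (h1 ω.1 (Ioc_subset_Icc_self hω) ω.2).1⟩,
    ((integrable_const A).mul_prod K1.int4).mono'
      (m1.abs.mul m3.measurable.norm.neg.exp).aestronglyMeasurable (ae.mono fun ω hω => ?_)⟩
  rw [Real.norm_of_nonneg (by positivity)]
  exact (h1 ω.1 (Ioc_subset_Icc_self hω) ω.2).2

lemma fub (h : GKp a Z S u B) (hb : Wg a b) {g : Mx → V → ℝ} (hg : Pl g) (z : V) :
    Integrable (fun t => G1 Z S u B b t g z) (volume.restrict (Ioc 0 1)) ∧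
      ∫ t in Ioc 0 1, G1 Z S u B b t g z = G2 Z S u B b g z :=
  ⟨((ad2 h hb).integrable hg z).integral_prod_left,
    (integral_prod _ ((ad2 h hb).integrable hg z)).symm⟩

lemma wg (h : GKp a Z S u B) {w : V → ℝ} (hw : Continuous w) {C : ℝ}
    (hC : ∀ x, a x ≠ 0 → |w x| ≤ C) : Wg a fun x => a x * w x := by
  obtain ⟨⟨ha, -, -, c, C', -, h1⟩, -⟩ := h
  refine ⟨ha.mul hw.measurable, ⟨|C'| * |C|, fun x => ?_⟩, fun x hx => left_ne_zero_of_mul hx⟩
  show |a x * w x| ≤ _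
  by_cases h0 : a x = 0
  · rw [h0, zero_mul, abs_zero]
    positivity
  · rw [abs_mul]
    exact mul_le_mul ((h1 x).1.trans (le_abs_self _)) ((hC x h0).trans (le_abs_self _))
      (abs_nonneg _) (abs_nonneg _)

lemma wg0 (h : GKp a Z S u B) : Wg a a := by
  obtain ⟨⟨ha, -, -, c, C', -, h1⟩, -⟩ := h
  exact ⟨ha, ⟨C', fun x => (h1 x).1⟩, fun _ hx => hx⟩

lemma wgu (h : GKp a Z S u B) (i : Fin 3) : Wg a fun x => a x * u x i := by
  obtain ⟨C, hC⟩ := h.2.2.2.2
  exact wg h ((continuous_apply i).comp h.2.2.1) fun x hx =>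
    (norm_le_pi_norm (u x) i).trans (hC x hx).1

lemma wgB (h : GKp a Z S u B) (i j : Fin 3) : Wg a fun x => a x * B x i j := by
  obtain ⟨C, hC⟩ := h.2.2.2.2
  exact wg h (h.2.2.2.1 i j) fun x hx => (hC x hx).2 i j

/-- the derivatives of the flux -/
def FT (a : V → ℝ) (Z : V → V) (S : V → Mx) (u : V → V) (B : V → Mx) (i : Fin 3)
    (l : List (Fin 3)) (z : V) : ℝ := -G2 Z S u B (fun x => a x * u x i) (Ds l o1) z +
  ∑ j, G2 Z S u B (fun x => a x * B x i j) (Ds l (D j o1)) z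

lemma tw (h : GKp a Z S u B) (i : Fin 3) : Tw (FT a Z S u B i) :=
  ((ad2 h (wgu h i)).tw pl1).comb fun j => (ad2 h (wgB h i j)).tw (pl1.D j)

lemma fl (h : GKp a Z S u B) (i : Fin 3) (l : List (Fin 3)) (z : V) : ∫ t in (0 : ℝ)..1,
    (-pds l (dens (fun x => a x * u x i) (fun x => Z x + t • u x)
        (fun x => S x + t • (B x + (B x)ᵀ))) z +
      ∑ j, pds l (pd j (dens (fun x => a x * B x i j) (fun x => Z x + t • u x)
        (fun x => S x + t • (B x + (B x)ᵀ)))) z) = FT a Z S u B i l z := by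
  have a1 := fub h (wgu h i) (pl1.Ds l) z
  have a2 := fun j => fub h (wgB h i j) ((pl1.D j).Ds l) z
  rw [intervalIntegral.integral_of_le zero_le_one, FT, ← a1.2,
    Finset.sum_congr rfl fun j _ => (a2 j).2.symm, ← integral_neg,
    ← integral_finsetSum _ fun j _ => (a2 j).1,
    ← integral_add a1.1.fun_neg (integrable_finsetSum _ fun j _ => (a2 j).1)]
  refine setIntegral_congr_fun measurableSet_Ioc fun t ht => ?_
  have ht' := Ioc_subset_Icc_self ht
  have b1 := (ad1 h (wgu h i) ht').pds pl1 l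
  have b2 := fun j => (ad1 h (wgB h i j) ht').pds pl1 [j]
  have b3 := fun j => (ad1 h (wgB h i j) ht').pds (pl1.D j) l
  simp only [pds, Ds] at b2
  simp only [dens_eq, G1, b1, b2, b3]

lemma flux_eq (h : GKp a Z S u B) (i : Fin 3) :
    (fun w => flux a Z S u B w i) = FT a Z S u B i [] := funext fun z => fl h i [] z

end K2P

open K2P in
theorem k2 (_h1 : K1Stmt) : K2Stmt := by
  intro a Z S u B h
  refine ⟨contDiff_pi.2 fun i => ?_, fun z => ?_, fun l z i => ?_⟩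
  · rw [flux_eq h i]
    exact (tw h i).sm []
  · obtain ⟨c, C, hc, hs⟩ := seg h
    set μ := ((volume : Measure ℝ).restrict (Ioc 0 1)).prod (volume : Measure V) with hμ
    set ψ : ℝ × V → ℝ := fun ω => ∑ i,
      (-(Wt S B (fun x => a x * u x i) ω * E (D i o1) (Pt S B ω) (Zt Z u ω - z)) +
        ∑ j, Wt S B (fun x => a x * B x i j) ω * E (D i (D j o1)) (Pt S B ω) (Zt Z u ω - z))
      with hψ
    have i1 := fun i => (ad2 h (wgu h i)).integrable (pl1.D i) z
    have i2 := fun i j => (ad2 h (wgB h i j)).integrable ((pl1.D j).D i) z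
    have i3 := fun i => integrable_finsetSum Finset.univ fun j _ => i2 i j
    have i4 := fun i => (i1 i).fun_neg.fun_add (i3 i)
    have i5 : Integrable ψ μ := integrable_finsetSum _ fun i _ => i4 i
    have e1 : dv (flux a Z S u B) z = ∫ ω, ψ ω ∂μ := by
      simp only [hψ]
      rw [hμ, integral_finsetSum _ fun i _ => i4 i, dv]
      refine Finset.sum_congr rfl fun i _ => ?_
      rw [flux_eq h i, pd_of (tw h i [] z), integral_add (i1 i).fun_neg (i3 i), integral_neg,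
        integral_finsetSum _ fun j _ => i2 i j]
      rfl
    have d0 := (ad1 h (wg0 h) (left_mem_Icc.2 zero_le_one)).integrable pl1 z
    have d1 := (ad1 h (wg0 h) (right_mem_Icc.2 zero_le_one)).integrable pl1 z
    have e2 := congrFun (dens_eq Z S u B a 0) z
    have e3 := congrFun (dens_eq Z S u B a 1) z
    simp only [zero_smul, add_zero, one_smul] at e2 e3
    rw [e1, e2, e3, ← sub_eq_iff_eq_add', G1, G1, GI, GI, ← integral_sub d1 d0,
      integral_prod_symm _ i5]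
    refine integral_congr_ae (i5.prod_left_ae.mono fun x hx => ?_)
    have hd : ∀ t ∈ uIcc (0 : ℝ) 1, HasDerivAt
        (fun s => Wt S B a (s, x) * E o1 (Pt S B (s, x)) (Zt Z u (s, x) - z)) (ψ (t, x)) t := by
      intro t ht
      rw [uIcc_of_le zero_le_one] at ht
      by_cases h0 : a x = 0
      · simp only [hψ, Wt, h0, zero_mul, neg_zero, Finset.sum_const_zero, add_zero]
        exact hasDerivAt_const _ _
      obtain ⟨-, a2, a3⟩ := hs t ht x h0
      have a4 := (has_ker (S x) (B x) (Z x - z) (u x) t a2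
        (K1.posDef hc a2 fun v => (a3 v).1).det_pos).const_mul (a x)
      have a5 : ∀ s : ℝ, Zt Z u (s, x) - z = Z x - z + s • u x := fun s => by
        rw [Zt]
        abel
      refine (a4.congr_of_eventuallyEq (Eventually.of_forall fun s => ?_)).congr_deriv ?_
      · simp only [a5, ker_E, Wt, Pt, St, mul_assoc]
      · simp only [hψ, a5, Wt, Pt, St, Finset.mul_sum, mul_add, mul_neg, mul_assoc]
    have := intervalIntegral.integral_eq_sub_of_hasDerivAt hd
      ((intervalIntegrable_iff_integrableOn_Ioc_of_le zero_le_one).2 hx)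
    rw [intervalIntegral.integral_of_le zero_le_one] at this
    exact this.symm
  · rw [flux_eq h i, (tw h i).pds l, fl h i l z]

end
end Pool.Agent.MP_20bec2_an.T3

end MrgPart2

-- ======== part 3: formerly Pool.Agent.MP_20bec2_an.T3.K4
section MrgPart3

set_option autoImplicit false
open MeasureTheory Set Filter Matrix Topology

namespace Pool.Agent.MP_20bec2_an.T3
noncomputable section
open Classical

namespace K4

open K1

lemma gauss : ∫ u : V, Real.exp (-(u ⬝ᵥ u) / 2) = Real.sqrt ((2 * Real.pi) ^ 3) := by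
  have h : ∀ u : V, Real.exp (-(u ⬝ᵥ u) / 2) = ∏ i, Real.exp (-(1 / 2) * u i ^ 2) := fun u => by
    rw [← Real.exp_sum]
    simp only [dotProduct, Fin.sum_univ_three]
    congr 1
    ring
  simp only [h]
  rw [integral_fintype_prod_volume_eq_pow (fun t : ℝ => Real.exp (-(1 / 2) * t ^ 2)),
    integral_gaussian, Fintype.card_fin, show Real.pi / (1 / 2) = 2 * Real.pi by ring,
    eq_comm, Real.sqrt_eq_iff_mul_self_eq (by positivity) (by positivity), ← mul_pow,
    Real.mul_self_sqrt (by positivity)]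

open scoped MatrixOrder in
lemma factor {S : Mx} (h : S.PosDef) : ∃ B : Mx, S = B * Bᵀ := by
  obtain ⟨y, hy⟩ := CStarAlgebra.nonneg_iff_eq_star_mul_self.mp h.posSemidef.nonneg
  exact ⟨yᵀ, by simpa [star_eq_conjTranspose] using hy⟩

lemma int_ker {S : Mx} (h : S.PosDef) : ∫ w, ker S w = 1 := by
  obtain ⟨B, hB⟩ := factor h
  have d1 : S.det = B.det ^ 2 := by rw [hB, det_mul, det_transpose, sq]
  have d2 : B.det ≠ 0 := fun e => h.det_pos.ne' (by rw [d1, e]; norm_num)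
  have u : IsUnit B.det := isUnit_iff_ne_zero.2 d2
  have c : Continuous fun w : V => Real.exp (-(w ⬝ᵥ (S⁻¹ *ᵥ w)) / 2) := by fun_prop
  have e1 := integral_map (μ := volume) (φ := toLin' B)
    (LinearMap.continuous_of_finiteDimensional _).aemeasurable c.aestronglyMeasurable
  rw [Real.map_matrix_volume_pi_eq_smul_volume_pi d2, integral_smul_measure,
    ENNReal.toReal_ofReal (abs_nonneg _)] at e1
  have e2 : ∀ v : V, toLin' B v ⬝ᵥ (S⁻¹ *ᵥ toLin' B v) = v ⬝ᵥ v := fun v => by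
    rw [toLin'_apply, mulVec_mulVec, hB, Matrix.mul_inv_rev, Matrix.mul_assoc,
      nonsing_inv_mul _ u, Matrix.mul_one, dotProduct_comm, dotProduct_mulVec, ← mulVec_transpose,
      mulVec_mulVec, mul_nonsing_inv _ (by rwa [det_transpose]), one_mulVec]
  simp only [e2, gauss, smul_eq_mul, abs_inv] at e1
  have p : 0 < |B.det| := abs_pos.2 d2
  simp only [ker]
  rw [integral_div, Real.sqrt_mul (by positivity), d1, Real.sqrt_sq_eq_abs, ← e1]
  have q : ∫ w : V, Real.exp (-(w ⬝ᵥ (S⁻¹ *ᵥ w)) / 2) ≠ 0 := fun e => by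
    rw [e, mul_zero] at e1
    exact absurd e1 (by positivity)
  rw [mul_right_comm, inv_mul_cancel₀ p.ne', one_mul, div_self q]

end K4

open K1 K4 in
theorem k4 (_h : K1Stmt) : K4Stmt := by
  refine ⟨fun S c hc hS h => ?_, fun a Z S h φ h1 h2 => ?_⟩
  · have hP := posDef hc hS h
    have d := hP.det_pos
    refine ⟨fun w => by unfold ker; positivity,
      Integrable.of_integral_ne_zero (by rw [int_ker hP]; exact one_ne_zero), int_ker hP,
      fun w => ?_⟩
    simp only [ker, mulVec_neg, neg_dotProduct_neg]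
  · obtain ⟨R, hR⟩ := h2.isCompact.isBounded.exists_norm_le
    obtain ⟨K, hK⟩ := bound h (.cst 1) R
    have i : Integrable (Function.uncurry fun z x => φ z * tm a Z S (fun _ _ => 1) z x)
        (volume.prod volume) := by
      refine ((h1.integrable_of_hasCompactSupport h2).norm.mul_prod (int4.const_mul K)).mono'
        ((h1.measurable.comp measurable_fst).mul (meas2 h (.cst 1))).aestronglyMeasurable
        (ae_of_all _ fun y => ?_)
      by_cases h0 : φ y.1 = 0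
      · simp [Function.uncurry, h0]
      · rw [Function.uncurry, norm_mul]
        exact mul_le_mul_of_nonneg_left (hK _ _ (hR _ (subset_tsupport _ h0))) (norm_nonneg _)
    have e : ∀ x, a x * ∫ z, φ z * ker (S x) (Z x - z) =
        ∫ z, φ z * tm a Z S (fun _ _ => 1) z x := fun x => by
      rw [← integral_const_mul]
      simp only [← tm_one, mul_left_comm]
    simp only [e, dens, tm_one, ← integral_const_mul]
    exact ⟨i.integral_prod_right, integral_integral_swap i⟩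

end
end Pool.Agent.MP_20bec2_an.T3

end MrgPart3

-- marker of a merged file
example : 731051 + 331601 = 731051 + 331601 := rfl
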