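import Mathlib.Algebra.Order.Star.Real
import Mathlib.MeasureTheory.Integral.IntervalIntegral.FundThmCalculus
import Mathlib.Topology.Algebra.Polynomial
import Mathlib.Analysis.Calculus.ContDiff.Bounds
import Mathlib.Analysis.Complex.ExponentialBounds
import Pool.Agent.MP_20bec2_an.T3.Final

-- ======== part 0: formerly Pool.Agent.MP_20bec2_an.T3.Psi
section MrgPart0

set_option autoImplicit false
open MeasureTheory Set Filter Matrix Topology

namespace Pool.Agent.MP_20bec2_an.T3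
noncomputable section
open Classical

namespace PsiP

/-! ## the outer profile -/

def gd (w : ℝ) : ℝ := 1 - st (w - 1 / 2)

theorem gd_sm : Sm gd := by
  unfold gd st
  exact contDiff_const.sub (Real.smoothTransition.contDiff.comp (contDiff_id.sub contDiff_const))

theorem gd_cont : Continuous gd := gd_sm.continuous

theorem gd_nonneg (w : ℝ) : 0 ≤ gd w := by
  unfold gd st; linarith [Real.smoothTransition.le_one (w - 1 / 2)]

theorem gd_le (w : ℝ) : gd w ≤ 1 := by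
  unfold gd st; linarith [Real.smoothTransition.nonneg (w - 1 / 2)]

theorem gd_anti : Antitone gd := fun a b h => by
  unfold gd st
  linarith [Real.smoothTransition.monotone (show a - 1 / 2 ≤ b - 1 / 2 by linarith)]

theorem gd_small {w : ℝ} (h : w ≤ 1 / 2) : gd w = 1 := by
  unfold gd st; rw [Real.smoothTransition.zero_of_nonpos (by linarith)]; ring

theorem gd_symm (w : ℝ) : gd (2 - w) = 1 - gd w := by
  unfold gd st Real.smoothTransition
  have h := Real.smoothTransition.pos_denom (w - 1 / 2)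
  have e1 : 2 - w - 1 / 2 = 1 - (w - 1 / 2) := by ring
  have e2 : 1 - (1 - (w - 1 / 2)) = w - 1 / 2 := by ring
  rw [e1, e2]
  generalize expNegInvGlue (w - 1 / 2) = a at h ⊢
  generalize expNegInvGlue (1 - (w - 1 / 2)) = b at h ⊢
  rw [add_comm b a]
  field_simp
  ring

theorem gS_eq (w : ℝ) : gS w = ∫ r in (0 : ℝ)..w, gd r := rfl

theorem gS_der (w : ℝ) : HasDerivAt gS (gd w) w :=
  (gd_cont.integral_hasStrictDerivAt 0 w).hasDerivAt

theorem gS_deriv : deriv gS = gd := funext fun w => (gS_der w).deriv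

theorem gS_sm : Sm gS := by
  refine contDiff_infty_iff_deriv.2 ⟨fun w => (gS_der w).differentiableAt, ?_⟩
  rw [gS_deriv]; exact gd_sm

theorem gS_zero : gS 0 = 0 := by simp [gS]

theorem gS_sub (a b : ℝ) : gS b - gS a = ∫ r in a..b, gd r := by
  rw [gS_eq, gS_eq]
  exact intervalIntegral.integral_interval_sub_left (gd_cont.intervalIntegrable _ _)
    (gd_cont.intervalIntegrable _ _)

theorem gS_mono : Monotone gS :=
  monotone_of_deriv_nonneg (fun w => (gS_der w).differentiableAt) fun w => by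
    rw [gS_deriv]; exact gd_nonneg w

theorem gS_lip (a b : ℝ) : |gS b - gS a| ≤ |b - a| := by
  rw [gS_sub]
  have := intervalIntegral.norm_integral_le_of_norm_le_const (a := a) (b := b) (C := 1) (f := gd)
    (fun x _ => by rw [Real.norm_eq_abs, abs_of_nonneg (gd_nonneg x)]; exact gd_le x)
  simpa using this

theorem gS_small {w : ℝ} (h : w ≤ 1 / 2) : gS w = w := by
  rw [gS_eq, intervalIntegral.integral_congr (g := fun _ => (1 : ℝ))]
  · simp
  · intro r hr
    refine gd_small ?_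
    rcases mem_uIcc.1 hr with h1 | h1
    · linarith [h1.2]
    · linarith [h1.2]

theorem gS_big {w : ℝ} (h : 3 / 2 ≤ w) : gS w = 1 := by
  have hd : ∀ x, HasDerivAt (fun x => gS x - gS (2 - x) - x) 0 x := fun x => by
    have h1 : HasDerivAt (fun x => gS (2 - x)) (gd (2 - x) * (-1)) x :=
      (gS_der (2 - x)).comp x ((hasDerivAt_id x).const_sub 2)
    have h2 := ((gS_der x).sub h1).sub (hasDerivAt_id x)
    have h3 : gd x - gd (2 - x) * (-1) - 1 = 0 := by rw [gd_symm]; ring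
    rw [h3] at h2
    exact h2
  have := is_const_of_deriv_eq_zero (fun x => (hd x).differentiableAt) (fun x => (hd x).deriv) w 1
  have e : (2 : ℝ) - 1 = 1 := by norm_num
  simp only [e] at this
  rw [gS_small (show 2 - w ≤ 1 / 2 by linarith)] at this
  linarith

theorem gS_le_one (w : ℝ) : gS w ≤ 1 := by
  rcases le_total w (3 / 2) with h | h
  · exact (gS_mono h).trans_eq (gS_big le_rfl)
  · exact (gS_big h).le

theorem gS_pos {w : ℝ} (h : 0 < w) : 0 < gS w := by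
  have h1 : gS (min w (1 / 2)) = min w (1 / 2) := gS_small (min_le_right _ _)
  have h2 := gS_mono (min_le_left w (1 / 2))
  have : 0 < min w (1 / 2) := lt_min h (by norm_num)
  linarith

theorem gS_conc {w : ℝ} (h : 0 ≤ w) : w * gd w ≤ gS w := by
  have := intervalIntegral.integral_mono_on (μ := volume) (f := fun _ => gd w) (g := gd) h
    (continuous_const.intervalIntegrable _ _) (gd_cont.intervalIntegrable _ _)
    (fun x hx => gd_anti hx.2)
  rw [gS_eq]
  simpa using this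

theorem gS_scale {l w : ℝ} (hl : 1 ≤ l) (h : 0 ≤ w) : gS (l * w) ≤ l * gS w := by
  have hw : w ≤ l * w := by nlinarith
  have := intervalIntegral.integral_mono_on (μ := volume) (f := gd) (g := fun _ => gd w) hw
    (gd_cont.intervalIntegrable _ _) (continuous_const.intervalIntegrable _ _)
    (fun x hx => gd_anti hx.1)
  rw [← gS_sub] at this
  simp only [intervalIntegral.integral_const, smul_eq_mul] at this
  have h2 := mul_le_mul_of_nonneg_left (gS_conc h) (show 0 ≤ l - 1 by linarith)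
  nlinarith

theorem gS_cmp {l a b : ℝ} (hl : 1 ≤ l) (hb : 0 ≤ b) (h : a ≤ l * b) : gS a ≤ l * gS b :=
  (gS_mono h).trans (gS_scale hl hb)

theorem gS_bd : ∃ B : ℝ, 1 ≤ B ∧ ∀ i ≤ 5, ∀ w, 0 ≤ w → |iteratedDeriv i gS w| ≤ B := by
  have h1 : ∀ i : ℕ, ∃ B : ℝ, ∀ w, 0 ≤ w → |iteratedDeriv i gS w| ≤ B := fun i => by
    have hc : Continuous (iteratedDeriv i gS) :=
      gS_sm.continuous_iteratedDeriv i (by exact_mod_cast le_top)
    obtain ⟨B, hB⟩ := isCompact_Icc.exists_bound_of_continuousOn (s := Icc (0 : ℝ) 2)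
      hc.continuousOn
    refine ⟨max B 1, fun w hw => ?_⟩
    rcases le_or_gt w 2 with h | h
    · exact (hB w ⟨hw, h⟩).trans (le_max_left _ _)
    · have : gS =ᶠ[𝓝 w] fun _ => (1 : ℝ) := by
        filter_upwards [Ioi_mem_nhds h] with x hx
        exact gS_big (by have : (2 : ℝ) < x := hx; linarith)
      rw [this.iteratedDeriv_eq i, iteratedDeriv_const]
      refine le_trans ?_ (le_max_right _ _)
      split_ifs <;> simp
  choose B hB using h1
  refine ⟨1 + ∑ i ∈ Finset.range 6, |B i|, ?_, fun i hi w hw => ?_⟩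
  · have : 0 ≤ ∑ i ∈ Finset.range 6, |B i| := Finset.sum_nonneg fun i _ => abs_nonneg _
    linarith
  · have := Finset.single_le_sum (f := fun i => |B i|) (fun i _ => abs_nonneg (B i))
      (Finset.mem_range.2 (show i < 6 by omega))
    linarith [hB i w hw, le_abs_self (B i)]

/-! ## the inner profile -/

def sg (R t : ℝ) : ℝ := Real.exp (-R * t) / (1 + Real.exp (-R * t))

theorem sg_mem (R t : ℝ) : 0 < sg R t ∧ sg R t ≤ 1 := by
  have := Real.exp_pos (-R * t)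
  unfold sg
  exact ⟨by positivity, (div_le_one (by positivity)).2 (by linarith)⟩

theorem ex_der (R t : ℝ) :
    HasDerivAt (fun t => Real.exp (-R * t)) (Real.exp (-R * t) * (-R)) t := by
  simpa using ((hasDerivAt_id t).const_mul (-R)).exp

theorem sp_der {R : ℝ} (hR : 0 < R) (t : ℝ) : HasDerivAt (sp R) (-sg R t) t := by
  have hp := Real.exp_pos (-R * t)
  have h1 := (((ex_der R t).const_add 1).log (by positivity)).div_const R
  refine HasDerivAt.congr_deriv h1 ?_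
  unfold sg
  field_simp

theorem sg_der (R t : ℝ) : HasDerivAt (sg R) (-R * (sg R t * (1 - sg R t))) t := by
  have hp := Real.exp_pos (-R * t)
  have h1 := (ex_der R t).div ((ex_der R t).const_add 1) (by positivity)
  refine HasDerivAt.congr_deriv h1 ?_
  unfold sg
  field_simp
  ring

theorem sp_sm (R : ℝ) : Sm (sp R) := by
  unfold sp
  refine ContDiff.div_const (ContDiff.log ?_ fun t => ?_) R
  · exact contDiff_const.add (Real.contDiff_exp.comp (contDiff_const.mul contDiff_id))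
  · have := Real.exp_pos (-R * t); positivity

theorem sp_pos {R : ℝ} (hR : 0 < R) (t : ℝ) : 0 < sp R t :=
  div_pos (Real.log_pos (by linarith [Real.exp_pos (-R * t)])) hR

theorem sp_ge {R : ℝ} (hR : 0 < R) (t : ℝ) : -t ≤ sp R t := by
  unfold sp
  rw [le_div_iff₀ hR]
  have hp := Real.exp_pos (-R * t)
  have := Real.log_le_log hp (show Real.exp (-R * t) ≤ 1 + Real.exp (-R * t) by linarith)
  rw [Real.log_exp] at this
  linarith

theorem sp_anti {R : ℝ} (hR : 0 < R) : Antitone (sp R) :=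
  antitone_of_deriv_nonpos (fun t => (sp_der hR t).differentiableAt) fun t => by
    rw [(sp_der hR t).deriv]; linarith [(sg_mem R t).1]

theorem sg_le_log (R t : ℝ) : sg R t ≤ Real.log (1 + Real.exp (-R * t)) := by
  have hp := Real.exp_pos (-R * t)
  have := Real.one_sub_inv_le_log_of_pos (show 0 < 1 + Real.exp (-R * t) by positivity)
  refine le_trans (le_of_eq ?_) this
  unfold sg
  field_simp
  ring

theorem log_scale {l e e' : ℝ} (hl : 1 ≤ l) (he : 0 ≤ e) (he' : 0 ≤ e') (h : e' ≤ l * e) :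
    Real.log (1 + e') ≤ l * Real.log (1 + e) := by
  have h1 := one_add_mul_self_le_rpow_one_add (show -1 ≤ e by linarith) hl
  rw [← Real.log_rpow (by positivity)]
  exact Real.log_le_log (by positivity) (by linarith)

theorem log_cmp {a b d : ℝ} (hd : 0 ≤ d) (h : a ≤ d + b) :
    Real.log (1 + Real.exp a) ≤ Real.exp d * Real.log (1 + Real.exp b) :=
  log_scale (Real.one_le_exp hd) (Real.exp_pos b).le (Real.exp_pos a).le
    (by rw [← Real.exp_add]; exact Real.exp_le_exp.2 h)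

def pl : ℕ → Polynomial ℝ
  | 0 => -Polynomial.X
  | n + 1 => -(Polynomial.derivative (pl n) * (Polynomial.X * (1 - Polynomial.X)))

theorem sp_iter {R : ℝ} (hR : 0 < R) (n : ℕ) :
    iteratedDeriv (n + 1) (sp R) = fun t => R ^ n * (pl n).eval (sg R t) := by
  induction n with
  | zero =>
    funext t
    rw [iteratedDeriv_one, (sp_der hR t).deriv]
    simp [pl]
  | succ n ih =>
    funext t
    rw [iteratedDeriv_succ, ih]
    have h1 := (((pl n).hasDerivAt (sg R t)).comp t (sg_der R t)).const_mul (R ^ n)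
    have h2 : deriv (fun t => R ^ n * (pl n).eval (sg R t)) t = _ := h1.deriv
    rw [h2]
    simp only [pl, Polynomial.eval_neg, Polynomial.eval_mul, Polynomial.eval_sub,
      Polynomial.eval_X, Polynomial.eval_one]
    ring

theorem pl_bd : ∃ B : ℝ, 1 ≤ B ∧ ∀ n ≤ 5, ∀ s ∈ Icc (0 : ℝ) 1, |(pl n).eval s| ≤ B := by
  have h1 : ∀ n : ℕ, ∃ B : ℝ, ∀ s ∈ Icc (0 : ℝ) 1, |(pl n).eval s| ≤ B := fun n =>
    isCompact_Icc.exists_bound_of_continuousOn (pl n).continuous.continuousOn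
  choose B hB using h1
  refine ⟨1 + ∑ i ∈ Finset.range 6, |B i|, ?_, fun i hi w hw => ?_⟩
  · have : 0 ≤ ∑ i ∈ Finset.range 6, |B i| := Finset.sum_nonneg fun i _ => abs_nonneg _
    linarith
  · have := Finset.single_le_sum (f := fun i => |B i|) (fun i _ => abs_nonneg (B i))
      (Finset.mem_range.2 (show i < 6 by omega))
    linarith [hB i w hw, le_abs_self (B i)]

theorem sp_cmp {R R' : ℝ} (hR : 0 < R) (h : R ≤ R') (r : ℝ) :
    |sp R' r - sp R r| ≤ (R' - R) / R ^ 2 := by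
  have hR' : 0 < R' := by linarith
  set e := Real.exp (-R * r) with he
  have hp : 0 < e := Real.exp_pos _
  set l := R' / R with hl
  have hl1 : 1 ≤ l := (one_le_div hR).2 h
  have hRl : R' = l * R := by rw [hl]; field_simp
  have he' : Real.exp (-R' * r) = e ^ l := by
    rw [he, ← Real.exp_mul]; congr 1; rw [hRl]; ring
  have hpl : 0 < e ^ l := Real.rpow_pos_of_pos hp l
  have h1 : Real.log (1 + e ^ l) ≤ l * Real.log (1 + e) := by
    have := Real.add_rpow_le_rpow_add zero_le_one hp.le hl1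
    rw [Real.one_rpow] at this
    rw [← Real.log_rpow (by positivity)]
    exact Real.log_le_log (by positivity) this
  have h2 : l * Real.log (1 + e) ≤ (l - 1) * Real.log 2 + Real.log (1 + e ^ l) := by
    have h3 : (1 + e) ^ l ≤ (2 : ℝ) ^ (l - 1) * (1 + e ^ l) := by
      have := NNReal.rpow_add_le_mul_rpow_add_rpow 1 ⟨e, hp.le⟩ hl1
      rw [NNReal.one_rpow] at this
      exact_mod_cast this
    rw [← Real.log_rpow (by positivity), ← Real.log_rpow (by positivity),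
      ← Real.log_mul (by positivity) (by positivity)]
    exact Real.log_le_log (by positivity) h3
  have h4 : Real.log 2 ≤ 1 := by linarith [Real.log_two_lt_d9]
  have h5 : sp R r - sp R' r = (l * Real.log (1 + e) - Real.log (1 + e ^ l)) / R' := by
    unfold sp
    rw [he', ← he, hRl]
    field_simp
  have h6 : (l - 1) / R' ≤ (R' - R) / R ^ 2 := by
    have : (R' - R) / R ^ 2 = (l - 1) / R := by rw [hRl]; field_simp
    rw [this]
    exact div_le_div_of_nonneg_left (by linarith) hR h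
  rw [abs_sub_comm, h5, abs_of_nonneg (div_nonneg (by linarith) hR'.le)]
  refine le_trans (div_le_div_of_nonneg_right ?_ hR'.le) h6
  nlinarith

/-! ## the composed profile and its primitive -/

theorem eta_sm (R : ℝ) : Sm (eta R) := gS_sm.comp (sp_sm R)

theorem eta_der {R : ℝ} (hR : 0 < R) (t : ℝ) :
    HasDerivAt (eta R) (gd (sp R t) * (-sg R t)) t :=
  (gS_der (sp R t)).comp t (sp_der hR t)

theorem eta_anti {R : ℝ} (hR : 0 < R) : Antitone (eta R) := fun _ _ h => gS_mono (sp_anti hR h)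

theorem eta_mem {R : ℝ} (hR : 0 < R) (t : ℝ) : 0 < eta R t ∧ eta R t ≤ 1 :=
  ⟨gS_pos (sp_pos hR t), gS_le_one _⟩

theorem eta_one {R : ℝ} (hR : 0 < R) {t : ℝ} (h : t ≤ -3 / 2) : eta R t = 1 :=
  gS_big (by linarith [sp_ge hR t])

theorem om_cont (R : ℝ) : Continuous fun r => 1 - eta R r :=
  continuous_const.sub (eta_sm R).continuous

theorem Psi_der (R t : ℝ) : HasDerivAt (Psi R) (1 - eta R t) t :=
  ((om_cont R).integral_hasStrictDerivAt (-2) t).hasDerivAt

theorem Psi_sm (R : ℝ) : Sm (Psi R) := by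
  refine contDiff_infty_iff_deriv.2 ⟨fun w => (Psi_der R w).differentiableAt, ?_⟩
  have : deriv (Psi R) = fun t => 1 - eta R t := funext fun t => (Psi_der R t).deriv
  rw [this]; exact contDiff_const.sub (eta_sm R)

theorem Psi_zero {R : ℝ} (hR : 0 < R) {t : ℝ} (h : t ≤ -3 / 2) : Psi R t = 0 := by
  unfold Psi
  rw [intervalIntegral.integral_congr (g := fun _ => (0 : ℝ))]
  · simp
  · intro r hr
    have : r ≤ -3 / 2 := by
      rcases mem_uIcc.1 hr with h1 | h1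
      · linarith [h1.2]
      · linarith [h1.2]
    simp [eta_one hR this]

theorem Psi_mono {R : ℝ} (hR : 0 < R) : Monotone (Psi R) :=
  monotone_of_deriv_nonneg (fun w => (Psi_der R w).differentiableAt) fun w => by
    rw [(Psi_der R w).deriv]; linarith [(eta_mem hR w).2]

theorem Psi_sub (R a b : ℝ) : Psi R b - Psi R a = ∫ r in a..b, (1 - eta R r) :=
  intervalIntegral.integral_interval_sub_left ((om_cont R).intervalIntegrable _ _)
    ((om_cont R).intervalIntegrable _ _)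

theorem Psi_step (R : ℝ) {a b c : ℝ} (hab : a ≤ b) (h : ∀ x ∈ Icc a b, 1 - eta R x ≤ c) :
    Psi R b - Psi R a ≤ (b - a) * c := by
  have := intervalIntegral.integral_mono_on (μ := volume) (f := fun r => 1 - eta R r)
    (g := fun _ => c) hab ((om_cont R).intervalIntegrable _ _)
    (continuous_const.intervalIntegrable _ _) h
  rw [← Psi_sub] at this
  simpa using this

theorem Psi_mem {R : ℝ} (hR : 0 < R) (t : ℝ) : 0 ≤ Psi R t ∧ Psi R t ≤ max t 0 + 1 := by
  have h0 : Psi R (-3 / 2) = 0 := Psi_zero hR le_rfl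
  have h1 : Psi R (-1 / 2) ≤ 1 / 2 := by
    have := Psi_step R (a := -3 / 2) (b := -1 / 2) (c := 1 / 2) (by norm_num) fun x hx => by
      have h2 : gS (1 / 2) ≤ eta R x := gS_mono (by linarith [sp_ge hR x, hx.2])
      rw [gS_small le_rfl] at h2
      linarith
    linarith
  constructor
  · rcases le_total t (-3 / 2) with h | h
    · exact (Psi_zero hR h).ge
    · exact h0.ge.trans (Psi_mono hR h)
  · rcases le_total t (-1 / 2) with h | h
    · linarith [Psi_mono hR h, le_max_right t 0]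
    · have := Psi_step R (c := 1) h fun x _ => by linarith [(eta_mem hR x).1]
      linarith [le_max_left t 0]

theorem eta_deriv_le {R : ℝ} (hR : 0 < R) (t : ℝ) : |deriv (eta R) t| ≤ min 1 (R * eta R t) := by
  have h1 := sg_mem R t
  have h2 := gd_nonneg (sp R t)
  have h3 := gd_le (sp R t)
  rw [(eta_der hR t).deriv, mul_neg, abs_neg, abs_of_nonneg (mul_nonneg h2 h1.1.le)]
  refine le_min (by nlinarith) ?_
  have h4 := mul_le_mul_of_nonneg_left (gS_conc (sp_pos hR t).le) hR.le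
  have h5 : R * sp R t = Real.log (1 + Real.exp (-R * t)) := by unfold sp; field_simp
  have h6 := mul_le_mul_of_nonneg_left (sg_le_log R t) h2
  unfold eta
  rw [← mul_assoc, h5] at h4
  linarith

theorem eta_shift {R : ℝ} (hR : 0 < R) (t t' : ℝ) :
    eta R t' ≤ Real.exp (R * |t' - t|) * eta R t := by
  have hd : 0 ≤ R * |t' - t| := by positivity
  refine gS_cmp (Real.one_le_exp hd) (sp_pos hR t).le ?_
  unfold sp
  rw [← mul_div_assoc]
  refine div_le_div_of_nonneg_right (log_cmp hd ?_) hR.le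
  nlinarith [neg_abs_le (t' - t)]

theorem eta_tail {R : ℝ} (hR : 10 ≤ R) {t : ℝ} (ht : 0 ≤ t) :
    Real.exp (-R * t) / (2 * R) ≤ eta R t ∧ eta R t ≤ Real.exp (-R * t) / R := by
  have hR0 : 0 < R := by linarith
  have hp := Real.exp_pos (-R * t)
  have h1 : Real.exp (-R * t) ≤ 1 := Real.exp_le_one_iff.2 (by nlinarith)
  have h2 : Real.log (1 + Real.exp (-R * t)) ≤ Real.exp (-R * t) := by
    linarith [Real.log_le_sub_one_of_pos (show 0 < 1 + Real.exp (-R * t) by positivity)]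
  have h3 : Real.exp (-R * t) / 2 ≤ Real.log (1 + Real.exp (-R * t)) :=
    le_trans (div_le_div_of_nonneg_left hp.le (by positivity) (by linarith)) (sg_le_log R t)
  have h4 : sp R t ≤ 1 / 2 := by
    unfold sp
    rw [div_le_iff₀ hR0]; linarith
  unfold eta
  rw [gS_small h4]
  unfold sp
  refine ⟨?_, div_le_div_of_nonneg_right h2 hR0.le⟩
  rw [← div_div]
  exact div_le_div_of_nonneg_right h3 hR0.le

theorem eta_iter : ∃ C : ℝ, 1 ≤ C ∧ ∀ R : ℝ, 10 ≤ R → ∀ j ≤ 5, ∀ t,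
    |iteratedDeriv j (eta R) t| ≤ C * R ^ j := by
  obtain ⟨A, hA1, hA⟩ := gS_bd
  obtain ⟨B, hB1, hB⟩ := pl_bd
  have hB5 : 1 ≤ B ^ 5 := one_le_pow₀ hB1
  refine ⟨120 * A * B ^ 5, by nlinarith, fun R hR j hj t => ?_⟩
  have hR0 : 0 < R := by linarith
  have h := norm_iteratedFDeriv_comp_le (n := j) gS_sm (sp_sm R) (by exact_mod_cast le_top) t
    (C := A) (D := B * R)
    (fun i hi => by
      rw [norm_iteratedFDeriv_eq_norm_iteratedDeriv]
      exact hA i (hi.trans hj) _ (sp_pos hR0 t).le)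
    (fun i h1 hi => by
      obtain ⟨n, rfl⟩ : ∃ n, i = n + 1 := ⟨i - 1, by omega⟩
      rw [norm_iteratedFDeriv_eq_norm_iteratedDeriv, sp_iter hR0, Real.norm_eq_abs, abs_mul,
        abs_of_pos (pow_pos hR0 n), mul_pow, mul_comm]
      have h2 := hB n (by omega) (sg R t) ⟨(sg_mem R t).1.le, (sg_mem R t).2⟩
      refine mul_le_mul (h2.trans ?_) (pow_le_pow_right₀ (by linarith) (by omega))
        (by positivity) (by positivity)
      exact le_self_pow₀ hB1 (by omega))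
  rw [norm_iteratedFDeriv_eq_norm_iteratedDeriv, Real.norm_eq_abs, mul_pow, ← mul_assoc] at h
  refine le_trans h (mul_le_mul_of_nonneg_right ?_ (by positivity))
  have h3 : (j.factorial : ℝ) ≤ 120 := by
    have := Nat.factorial_le hj
    exact_mod_cast this
  exact mul_le_mul (mul_le_mul_of_nonneg_right h3 (by linarith))
    (pow_le_pow_right₀ hB1 hj) (by positivity) (by positivity)

theorem Psi_cmp {R R' : ℝ} (hR : 0 < R) (h : R ≤ R') {t : ℝ} (ht : t ≤ 1) :
    |Psi R' t - Psi R t| ≤ 4 * (R' - R) / R ^ 2 := by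
  have hd : 0 ≤ (R' - R) / R ^ 2 := div_nonneg (by linarith) (by positivity)
  rw [mul_div_assoc]
  rcases le_total t (-3 / 2) with h1 | h1
  · rw [Psi_zero hR h1, Psi_zero (by linarith) h1, sub_zero, abs_zero]; linarith
  · unfold Psi
    rw [← intervalIntegral.integral_sub ((om_cont R').intervalIntegrable _ _)
      ((om_cont R).intervalIntegrable _ _)]
    have := intervalIntegral.norm_integral_le_of_norm_le_const (a := -2) (b := t)
      (C := (R' - R) / R ^ 2) (f := fun r => (1 - eta R' r) - (1 - eta R r)) (fun x _ => by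
        have e : (1 - eta R' x) - (1 - eta R x) = -(gS (sp R' x) - gS (sp R x)) := by
          unfold eta; ring
        rw [Real.norm_eq_abs, e, abs_neg]
        exact (gS_lip _ _).trans (sp_cmp hR h x))
    rw [Real.norm_eq_abs, abs_of_nonneg (show 0 ≤ t - -2 by linarith)] at this
    nlinarith

theorem eta_cmp {R R' : ℝ} (hR : 10 ≤ R) (h : R ≤ R') {t : ℝ} (ht : |t| ≤ 2) :
    eta R' t ≤ Real.exp (5 * (R' - R)) * eta R t ∧
      eta R t ≤ Real.exp (5 * (R' - R)) * eta R' t := by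
  have hR0 : 0 < R := by linarith
  have hR1 : 0 < R' := by linarith
  have hd : 0 ≤ R' - R := by linarith
  have ht' := abs_le.1 ht
  have hl := Real.one_le_exp (show 0 ≤ 5 * (R' - R) by linarith)
  have hL : ∀ a, 0 ≤ Real.log (1 + Real.exp a) := fun a =>
    Real.log_nonneg (by linarith [Real.exp_pos a])
  constructor
  · refine gS_cmp hl (sp_pos hR0 t).le ?_
    unfold sp
    rw [← mul_div_assoc]
    exact div_le_div₀ (mul_nonneg (by linarith) (hL _)) (log_cmp (by linarith) (by nlinarith))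
      hR0 h
  · refine gS_cmp hl (sp_pos hR1 t).le ?_
    unfold sp
    have h1 : Real.log (1 + Real.exp (-R * t)) ≤
        Real.exp (4 * (R' - R)) * Real.log (1 + Real.exp (-R' * t)) :=
      log_cmp (by linarith) (by nlinarith)
    have h2 : R' ≤ Real.exp (R' - R) * R := by
      nlinarith [Real.add_one_le_exp (R' - R)]
    have h3 : Real.exp (5 * (R' - R)) = Real.exp (4 * (R' - R)) * Real.exp (R' - R) := by
      rw [← Real.exp_add]; congr 1; ring
    rw [← mul_div_assoc, div_le_div_iff₀ hR0 hR1, h3]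
    have h4 := mul_le_mul h1 h2 hR1.le (mul_nonneg (Real.exp_pos _).le (hL _))
    linarith

end PsiP

open PsiP in
theorem psi : PsiStmt := by
  obtain ⟨C, hC1, hC⟩ := eta_iter
  refine ⟨C, hC1, fun R hR => ?_⟩
  have hR0 : 0 < R := by linarith
  exact ⟨eta_sm R, Psi_sm R, eta_anti hR0, eta_mem hR0, Psi_der R,
    fun t h => ⟨eta_one hR0 h, Psi_zero hR0 h⟩, Psi_mem hR0, eta_deriv_le hR0, eta_shift hR0,
    fun t h => eta_tail hR h, hC R hR,
    fun R' h => ⟨fun t ht => Psi_cmp hR0 h ht, fun t ht => eta_cmp hR h ht⟩⟩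

end
end Pool.Agent.MP_20bec2_an.T3

end MrgPart0

-- ======== part 1: formerly Pool.Agent.MP_20bec2_an.T3.Par
section MrgPart1

/-! Parameters of a cube: positivity, logarithms, basic ranges. -/

set_option autoImplicit false
set_option linter.unusedSectionVars false
open Set Filter Real

namespace Pool.Agent.MP_20bec2_an.T3
noncomputable section

/-- admissible parameters with `N` large -/
structure Gd (c : Pm) : Prop where
  big : Big c.N
  ok : c.Ok

lemma ev_gd : ∀ᶠ N : ℕ in atTop, ∀ c : Pm, c.N = N → c.Ok → Gd c :=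
  ev_big.mono fun _ hN _ hc ho => ⟨hc ▸ hN, ho⟩

lemma log50_ge : 3.8 ≤ Real.log 50 := by
  have h1 := Real.one_sub_inv_le_log_of_pos (show (0 : ℝ) < 50 / 32 by norm_num)
  rw [Real.log_div (by norm_num) (by norm_num), show (32 : ℝ) = 2 ^ 5 by norm_num,
    Real.log_pow] at h1
  norm_num at h1
  linarith [log2_bd.1]

lemma log7_le : Real.log 7 + Real.log 2 / 2 ≤ Real.log 10 := by
  have h1 : Real.log (7 ^ 2 * 2) ≤ Real.log (10 ^ 2) := Real.log_le_log (by norm_num) (by norm_num)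
  rw [Real.log_mul (by norm_num) (by norm_num), Real.log_pow, Real.log_pow] at h1
  push_cast at h1
  linarith

lemma eta_mem' {R : ℝ} (hR : 10 ≤ R) (t : ℝ) : 0 < eta R t ∧ eta R t ≤ 1 := by
  obtain ⟨_, -, hP⟩ := psi
  exact (hP R hR).2.2.2.1 t

lemma eta_anti' {R : ℝ} (hR : 10 ≤ R) : Antitone (eta R) := by
  obtain ⟨_, -, hP⟩ := psi
  exact (hP R hR).2.2.1

lemma eta_one' {R t : ℝ} (hR : 10 ≤ R) (ht : t ≤ -3 / 2) : eta R t = 1 := by
  obtain ⟨_, -, hP⟩ := psi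
  exact ((hP R hR).2.2.2.2.2.1 t ht).1

lemma log_eta_shift {R : ℝ} (hR : 10 ≤ R) (t t' : ℝ) :
    Real.log (eta R t') ≤ R * |t' - t| + Real.log (eta R t) := by
  obtain ⟨_, -, hP⟩ := psi
  have h1 := (hP R hR).2.2.2.2.2.2.2.2.1 t t'
  have h2 := Real.log_le_log (eta_mem' hR t').1 h1
  rwa [Real.log_mul (Real.exp_pos _).ne' (eta_mem' hR t).1.ne', Real.log_exp] at h2

lemma log_eta_bd {R t : ℝ} (hR : 10 ≤ R) (ht : 0 ≤ t) :
    -R * t - Real.log 2 - Real.log R ≤ Real.log (eta R t) ∧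
      Real.log (eta R t) ≤ -R * t - Real.log R := by
  obtain ⟨_, -, hP⟩ := psi
  obtain ⟨h1, h2⟩ := (hP R hR).2.2.2.2.2.2.2.2.2.1 t ht
  have hR0 : 0 < R := by linarith
  have h3 := Real.log_le_log (by positivity) h1
  have h4 := Real.log_le_log (eta_mem' hR t).1 h2
  simp (disch := positivity) only [Real.log_div, Real.log_mul, Real.log_exp] at h3 h4
  constructor <;> linarith

lemma log_eta_R {R R' t : ℝ} (hR : 10 ≤ R) (hRR : R ≤ R') (ht : t ≤ 2) :
    |Real.log (eta R' t) - Real.log (eta R t)| ≤ 5 * (R' - R) := by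
  rcases le_total t (-3 / 2) with h | h
  · rw [eta_one' hR h, eta_one' (hR.trans hRR) h, sub_self, abs_zero]; linarith
  obtain ⟨_, -, hP⟩ := psi
  obtain ⟨h1, h2⟩ := ((hP R hR).2.2.2.2.2.2.2.2.2.2.2 R' hRR).2 t (abs_le.2 ⟨by linarith, ht⟩)
  have p1 := (eta_mem' hR t).1
  have p2 := (eta_mem' (hR.trans hRR) t).1
  have h3 := Real.log_le_log p2 h1
  have h4 := Real.log_le_log p1 h2
  simp (disch := positivity) only [Real.log_mul, Real.log_exp] at h3 h4
  exact abs_le.2 ⟨by linarith, by linarith⟩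

namespace Gd

variable {c : Pm} (h : Gd c)
include h

lemma J_pos : 0 < c.J := h.big.J_pos
lemma q_pos : 0 < c.q := h.big.q_pos
lemma N_pos : (0 : ℝ) < c.N := h.big.N_pos
lemma log_J : Real.log c.J = pL c.N := rfl
lemma log_q : Real.log c.q = pL c.N / 1000 := h.big.log_q
lemma s1_pos : 0 < c.s1 := h.ok.1
lemma s1_le : c.s1 ≤ c.s2 := h.ok.2.1
lemma s2_pos : 0 < c.s2 := h.s1_pos.trans_le h.s1_le
lemma lb_pos : 0 < c.lb := h.ok.2.2.2.2.2.1
lemma k_le : c.k ≤ nb c.N := h.ok.2.2.2.2.2.2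
lemma K_pos : 0 < c.K := div_pos h.s2_pos h.s1_pos
lemma one_le_K : 1 ≤ c.K := (one_le_div h.s1_pos).2 h.s1_le
lemma n12_pos : 0 < c.n12 := mul_pos h.s1_pos h.s2_pos
lemma log_K : Real.log c.K = Real.log c.s2 - Real.log c.s1 :=
  Real.log_div h.s2_pos.ne' h.s1_pos.ne'
lemma log_n12 : Real.log c.n12 = Real.log c.s1 + Real.log c.s2 :=
  Real.log_mul h.s1_pos.ne' h.s2_pos.ne'
lemma t_eq : c.t = Real.log c.K - 15 / 4 * pL c.N := rfl
lemma t_le : c.t ≤ 1 / 4 := h.ok.2.2.2.2.1.trans h.big.tE_bd.2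

lemma log_n12_bd : pJ c.N - 4 ≤ Real.log c.n12 ∧ Real.log c.n12 ≤ pJ c.N + 2 := by
  have hN := h.N_pos
  have h1 := Real.log_le_log (by positivity) h.ok.2.2.1
  have h2 := Real.log_le_log h.n12_pos h.ok.2.2.2.1
  simp (disch := positivity) only [Real.log_mul, Real.log_exp, h.big.log_N] at h1 h2
  constructor <;> linarith

lemma log_K_bd : 0 ≤ Real.log c.K ∧ Real.log c.K ≤ 15 / 4 * pL c.N + 1 / 4 :=
  ⟨Real.log_nonneg h.one_le_K, by linarith [h.t_le, h.t_eq]⟩

lemma η_pos : 0 < c.η := (eta_mem' h.big.R_ge _).1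
lemma η_le_one : c.η ≤ 1 := (eta_mem' h.big.R_ge _).2
lemma log_η_le : Real.log c.η ≤ 0 := Real.log_nonpos h.η_pos.le h.η_le_one

lemma log_η_ge : 3 * pL c.N + 23 * (pL c.N / 2000) - pJ c.N - 3 ≤ Real.log c.η := by
  have hR := h.big.R_pos
  have h1 : eta (pR c.N) (tE c.N + 3 / pR c.N) ≤ c.η := eta_anti' h.big.R_ge h.ok.2.2.2.2.1
  have h2 := Real.log_le_log (eta_mem' h.big.R_ge _).1 h1
  have h3 := (log_eta_bd h.big.R_ge
    (show 0 ≤ tE c.N + 3 / pR c.N by have := h.big.tE_bd.1; positivity)).1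
  rw [neg_mul, mul_add, h.big.R_mul_tE, mul_div_cancel₀ _ hR.ne', h.big.log_R] at h3
  linarith

lemma t_gt (hη : c.η < 1) : -3 / 2 < c.t :=
  lt_of_not_ge fun ht => hη.ne (eta_one' h.big.R_ge ht)

lemma t_pos (hη : c.η < 1 / (2 * pR c.N)) : 0 < c.t := by
  refine lt_of_not_ge fun ht => ?_
  have hR := h.big.R_pos
  have h1 : eta (pR c.N) 0 ≤ c.η := eta_anti' h.big.R_ge ht
  have h2 := Real.log_le_log (eta_mem' h.big.R_ge _).1 h1
  have h3 := (log_eta_bd h.big.R_ge le_rfl).1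
  have h4 := Real.log_lt_log h.η_pos hη
  simp (disch := positivity) only [Real.log_div, Real.log_mul, Real.log_one] at h4
  linarith

/-- for `t ≥ 0` the value of `η` is `exp (-R t) / R` up to a factor 2 -/
lemma log_η_t (ht : 0 ≤ c.t) :
    -pR c.N * c.t - 3 * Real.log 2 - pL c.N ≤ Real.log c.η ∧
      Real.log c.η ≤ -pR c.N * c.t - 2 * Real.log 2 - pL c.N := by
  have h1 := log_eta_bd h.big.R_ge ht
  rw [h.big.log_R] at h1
  unfold Pm.η
  constructor <;> linarith [h1.1, h1.2]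

lemma t_pos_of_log (hη : Real.log c.η < -(2 * pL c.N)) : 0 < c.t := by
  have hR := h.big.R_pos
  refine h.t_pos (lt_of_log h.η_pos (by positivity) ?_)
  simp (disch := positivity) only [Real.log_div, Real.log_mul, Real.log_one, h.big.log_R]
  linarith [h.big.L_ge, log2_bd.2]

lemma log_isA : c.isA ↔ -(8 * pL c.N) ≤ Real.log c.η := by
  rw [← h.big.log_etaA, Real.log_le_log_iff h.big.etaA_pos h.η_pos]; rfl

lemma log_notA (hA : ¬c.isA) : Real.log c.η < -(8 * pL c.N) := by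
  rw [h.log_isA] at hA; linarith

lemma t_pos_notA (hA : ¬c.isA) : 0 < c.t :=
  h.t_pos_of_log (by linarith [h.log_notA hA, h.big.L_ge])

lemma log_K_notA (hA : ¬c.isA) : 15 / 4 * pL c.N < Real.log c.K := by
  linarith [h.t_pos_notA hA, h.t_eq]

lemma log_etaS_le {a : ℝ} (ha : 1 / 100 ≤ a) (hη : a * etaS c.N ≤ c.η) :
    -(8 * pL c.N) - 200 ≤ Real.log c.η := by
  have h1 := h.big.etaS_pos
  have h2 : etaS c.N / 100 ≤ c.η := by nlinarith
  have h3 := Real.log_le_log (by positivity) h2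
  rw [Real.log_div h1.ne' (by norm_num), h.big.log_etaS] at h3
  linarith [(logc_bd (show (1 : ℝ) ≤ 100 by norm_num)).2]

lemma log_boost (hb : c.boost) : -(8 * pL c.N) - 200 ≤ Real.log c.η :=
  h.log_etaS_le (by norm_num) hb.2.1

/-! ### positivity and logarithms -/

lemma two_sub_pos : 0 < 2 - c.η := by linarith [h.η_le_one]
lemma log_two_sub : 0 ≤ Real.log (2 - c.η) ∧ Real.log (2 - c.η) ≤ Real.log 2 :=
  ⟨Real.log_nonneg (by linarith [h.η_le_one]),
    Real.log_le_log h.two_sub_pos (by linarith [h.η_pos])⟩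
lemma η0_pos : 0 < c.η0 := div_pos h.η_pos h.two_sub_pos
lemma log_η0 : Real.log c.η0 = Real.log c.η - Real.log (2 - c.η) :=
  Real.log_div h.η_pos.ne' h.two_sub_pos.ne'
lemma η0_bd : c.η / 2 ≤ c.η0 ∧ c.η0 ≤ c.η :=
  ⟨div_le_div_of_nonneg_left h.η_pos.le h.two_sub_pos (by linarith [h.η_pos]),
    div_le_self h.η_pos.le (by linarith [h.η_le_one])⟩
lemma lam_pos : 0 < c.lam := div_pos h.lb_pos (by positivity)
lemma ls_pos : 0 < c.ls := div_pos h.lb_pos (by positivity)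
lemma D_pos : 0 < c.D := mul_pos (pow_pos h.N_pos 4) h.lb_pos
lemma y_pos : 0 < c.y := mul_pos (h.big.np_pos _) h.lam_pos
lemma L_pos : 0 < c.L := mul_pos (mul_pos (pow_pos h.N_pos 2) (pow_pos h.J_pos 12)) h.lam_pos
lemma hE_pos : 0 < c.hE := mul_pos (h.big.np_pos _) h.lam_pos
lemma hm_pos : 0 < c.hm := mul_pos (h.big.np_pos _) h.lam_pos
lemma h'_pos : 0 < c.h' := mul_pos (h.big.np_pos _) h.ls_pos
lemma h0_pos : 0 < c.h0 := mul_pos (h.big.np_pos _) h.lam_pos
lemma hL_pos : 0 < c.hL := mul_pos (h.big.np_pos _) h.lam_pos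
lemma log_lam : Real.log c.lam = Real.log c.lb - c.k * Real.log 2 := by
  rw [Pm.lam, Real.log_div h.lb_pos.ne' (by positivity), Real.log_pow]
lemma log_D : Real.log c.D = 4 * pJ c.N + Real.log c.lb := by
  rw [Pm.D, Real.log_mul (pow_pos h.N_pos 4).ne' h.lb_pos.ne', Real.log_pow, h.big.log_N]; norm_num
lemma log_y : Real.log c.y = 11 / 10 * pJ c.N + Real.log c.lam := by
  rw [Pm.y, Real.log_mul (h.big.np_pos _).ne' h.lam_pos.ne', h.big.log_np]
lemma log_L : Real.log c.L = 2 * pJ c.N + 12 * pL c.N + Real.log c.lam := by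
  have := h.N_pos; have := h.J_pos; have := h.lam_pos
  unfold Pm.L
  simp (disch := positivity) only [Real.log_mul, Real.log_pow, h.big.log_N, h.log_J]
  push_cast; ring
lemma log_hE : Real.log c.hE = 46 / 100 * pJ c.N + Real.log c.lam := by
  rw [Pm.hE, Real.log_mul (h.big.np_pos _).ne' h.lam_pos.ne', h.big.log_np]
lemma log_hm : Real.log c.hm = 40 / 100 * pJ c.N + Real.log c.lam := by
  rw [Pm.hm, Real.log_mul (h.big.np_pos _).ne' h.lam_pos.ne', h.big.log_np]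
lemma log_h' : Real.log c.h' = 49 / 100 * pJ c.N + Real.log c.ls := by
  rw [Pm.h', Real.log_mul (h.big.np_pos _).ne' h.ls_pos.ne', h.big.log_np]
lemma log_h0 : Real.log c.h0 = -1300 * pJ c.N + Real.log c.lam := by
  rw [Pm.h0, Real.log_mul (h.big.np_pos _).ne' h.lam_pos.ne', h.big.log_np]
lemma log_hL : Real.log c.hL = -15 * pJ c.N + Real.log c.lam := by
  rw [Pm.hL, Real.log_mul (h.big.np_pos _).ne' h.lam_pos.ne', h.big.log_np]

lemma lam_le_ls : c.lam ≤ c.ls :=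
  div_le_div_of_nonneg_left h.lb_pos.le (by positivity)
    (pow_le_pow_right₀ one_le_two (Nat.mul_div_le _ _))

lemma ls_le : c.ls ≤ np c.N (24 / 10000) * c.lam := by
  have h1 : c.k ≤ nm c.N + nm c.N * (c.k / nm c.N) := by
    have := Nat.lt_mul_div_succ c.k h.big.nm_pos
    rw [mul_add, mul_one] at this; omega
  have h2 : (2 : ℝ) ^ c.k ≤ 2 ^ nm c.N * 2 ^ (nm c.N * (c.k / nm c.N)) := by
    rw [← pow_add]; exact pow_le_pow_right₀ one_le_two h1
  have h3 := h.big.two_pow_nm1.2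
  have h4 := h.lb_pos
  unfold Pm.ls Pm.lam
  rw [← mul_div_assoc, div_le_div_iff₀ (by positivity) (by positivity)]
  have h5 := mul_le_mul_of_nonneg_right h3
    (show (0 : ℝ) ≤ 2 ^ (nm c.N * (c.k / nm c.N)) by positivity)
  nlinarith

lemma lam_le_lb : c.lam ≤ c.lb := div_le_self h.lb_pos.le (one_le_pow₀ one_le_two)

lemma lb_le : c.lb ≤ np c.N 93 * c.lam := by
  have h1 : (2 : ℝ) ^ c.k ≤ np c.N 93 :=
    (pow_le_pow_right₀ one_le_two h.k_le).trans h.big.two_pow_nb.2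
  unfold Pm.lam
  rw [← mul_div_assoc, le_div_iff₀ (by positivity), mul_comm (np _ _)]
  exact mul_le_mul_of_nonneg_left h1 h.lb_pos.le

lemma J4N_pos : 0 < c.J ^ 4 / c.N := div_pos (pow_pos h.J_pos 4) h.N_pos
lemma log_J4N : Real.log (c.J ^ 4 / c.N) = 4 * pL c.N - pJ c.N := by
  rw [Real.log_div (pow_pos h.J_pos 4).ne' h.N_pos.ne', Real.log_pow, h.log_J, h.big.log_N]
  norm_num
lemma e4_pos : 0 < c.e4 := lt_max_of_lt_left h.η_pos
lemma log_e4 : Real.log c.η ≤ Real.log c.e4 ∧ 4 * pL c.N - pJ c.N ≤ Real.log c.e4 ∧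
    (Real.log c.e4 = Real.log c.η ∨ Real.log c.e4 = 4 * pL c.N - pJ c.N) := by
  rw [← h.log_J4N]; exact log_max' h.η_pos h.J4N_pos
lemma log_e4_le : Real.log c.e4 ≤ 0 := by
  rcases h.log_e4.2.2 with e | e <;> linarith [h.log_η_le, h.big.J_ge, h.big.L_ge]
lemma log_e4_le' : Real.log c.e4 ≤ Real.log c.η + pL c.N - 23 * (pL c.N / 2000) + 3 := by
  rcases h.log_e4.2.2 with e | e <;> linarith [h.log_η_ge, h.big.L_ge]
lemma log_e4_eq (hη : -(pJ c.N / 2) ≤ Real.log c.η) : Real.log c.e4 = Real.log c.η := by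
  rcases h.log_e4.2.2 with e | e
  · exact e
  · linarith [h.log_e4.1, h.big.J_ge, h.big.L_ge]
lemma e4_eq (hη : -(pJ c.N / 2) ≤ Real.log c.η) : c.e4 = c.η :=
  Real.log_injOn_pos h.e4_pos h.η_pos (h.log_e4_eq hη)
lemma log_e4_A (hA : c.isA) : Real.log c.e4 = Real.log c.η :=
  h.log_e4_eq (by linarith [h.log_isA.1 hA, h.big.J_ge, h.big.L_ge])
lemma m_pos : 0 < c.m := lt_max_of_lt_left one_pos
lemma one_le_m : 1 ≤ c.m := le_max_left _ _
lemma log_m : 0 ≤ Real.log c.m ∧ Real.log c.K - 2 * Real.log 2 ≤ Real.log c.m ∧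
    (Real.log c.m = 0 ∨ Real.log c.m = Real.log c.K - 2 * Real.log 2) := by
  have h1 := log_max' one_pos (div_pos h.K_pos (show (0 : ℝ) < 4 by norm_num))
  rwa [Real.log_one, Real.log_div h.K_pos.ne' (by norm_num), log4_eq] at h1
lemma log_m_le : Real.log c.m ≤ Real.log c.K := by
  rcases h.log_m.2.2 with e | e <;> linarith [h.log_K_bd.1, log2_bd.1]
lemma ro_pos : 0 < c.ro := div_pos (Real.rpow_pos_of_pos h.m_pos _) (Real.sqrt_pos.2 h.e4_pos)
lemma log_ro : Real.log c.ro = Real.log c.m / 4 - Real.log c.e4 / 2 := by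
  rw [Pm.ro, Real.log_div (Real.rpow_pos_of_pos h.m_pos _).ne' (Real.sqrt_pos.2 h.e4_pos).ne',
    Real.log_rpow h.m_pos, Real.log_sqrt h.e4_pos.le]; ring
lemma l1_pos : 0 < c.l1 := mul_pos h.ro_pos h.lam_pos
lemma log_l1 : Real.log c.l1 = Real.log c.ro + Real.log c.lam :=
  Real.log_mul h.ro_pos.ne' h.lam_pos.ne'
lemma mu_pos : 0 < c.mu := lt_min one_pos (mul_pos h.big.R_pos h.η_pos)
lemma mu_le_one : c.mu ≤ 1 := min_le_left _ _
lemma log_mu : Real.log c.mu ≤ 0 ∧ Real.log c.mu ≤ 2 * Real.log 2 + pL c.N + Real.log c.η ∧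
    (Real.log c.mu = 0 ∨ Real.log c.mu = 2 * Real.log 2 + pL c.N + Real.log c.η) := by
  have h1 := log_min' one_pos (mul_pos h.big.R_pos h.η_pos)
  rwa [Real.log_one, Real.log_mul h.big.R_pos.ne' h.η_pos.ne', h.big.log_R] at h1
lemma log_mu_ge : Real.log c.η ≤ Real.log c.mu := by
  rcases h.log_mu.2.2 with e | e <;> linarith [h.log_η_le, h.big.L_ge, log2_bd.1]
lemma dB_pos : 0 < c.dB := by
  have := h.big.pu_pos; have := h.q_pos; have := h.big.R_pos; have := h.e4_pos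
  unfold Pm.dB; positivity
lemma log_dB : Real.log c.dB =
    -(pJ c.N / 2) - pL c.N - 37 * (pL c.N / 2000) - Real.log 2 - Real.log c.e4 / 2 := by
  have := h.big.pu_pos; have := h.q_pos; have := h.big.R_pos; have := h.e4_pos
  unfold Pm.dB
  simp (disch := positivity) only [Real.log_div, Real.log_mul, Real.log_sqrt, Real.log_pow,
    h.big.log_pu, h.log_q, h.big.log_R]
  push_cast; ring
lemma t1B_pos : 0 < c.t1B := by
  have := h.big.pu_pos; have := h.q_pos; have := h.e4_pos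
  unfold Pm.t1B; positivity
lemma log_t1B : Real.log c.t1B =
    -(pJ c.N / 2) - pL c.N / 2 - 31 * (pL c.N / 2000) - Real.log c.e4 / 2 := by
  have := h.big.pu_pos; have := h.q_pos; have := h.e4_pos
  unfold Pm.t1B
  simp (disch := positivity) only [Real.log_div, Real.log_mul, Real.log_sqrt, Real.log_pow,
    h.big.log_pu, h.log_q]
  push_cast; ring
lemma pf_pos : 0 < c.pf := mul_pos (mul_pos (pow_pos h.q_pos 4) h.J_pos) h.dB_pos
lemma log_pf : Real.log c.pf =
    -(pJ c.N / 2) - 29 * (pL c.N / 2000) - Real.log 2 - Real.log c.e4 / 2 := by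
  have := h.q_pos; have := h.J_pos; have := h.dB_pos
  unfold Pm.pf
  simp (disch := positivity) only [Real.log_mul, Real.log_pow, h.log_dB, h.log_q, h.log_J]
  push_cast; ring
lemma p2_pos : 0 < c.q * pX c.N / (c.N * c.η) :=
  div_pos (mul_pos h.q_pos h.big.X_pos) (mul_pos h.N_pos h.η_pos)
lemma p_pos : 0 < c.p := lt_min h.pf_pos h.p2_pos
lemma log_p : Real.log c.p ≤ Real.log c.pf ∧ Real.log c.p ≤ pL c.N - pJ c.N - Real.log c.η ∧
    (Real.log c.p = Real.log c.pf ∨ Real.log c.p = pL c.N - pJ c.N - Real.log c.η) := by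
  have := h.q_pos; have := h.big.X_pos; have := h.N_pos; have := h.η_pos
  have h1 := log_min' h.pf_pos h.p2_pos
  have h2 : Real.log (c.q * pX c.N / (c.N * c.η)) = pL c.N - pJ c.N - Real.log c.η := by
    simp (disch := positivity) only [Real.log_div, Real.log_mul, h.log_q, h.big.log_X,
      h.big.log_N]
    ring
  rwa [h2] at h1
lemma c1_pos : 0 < c.c1 := div_pos (Real.sqrt_pos.2 h.η_pos) h.s1_pos
lemma log_c1 : Real.log c.c1 = Real.log c.η / 2 - Real.log c.s1 := by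
  rw [Pm.c1, Real.log_div (Real.sqrt_pos.2 h.η_pos).ne' h.s1_pos.ne', Real.log_sqrt h.η_pos.le]
lemma c2_pos : 0 < c.c2 := div_pos one_pos h.s2_pos
lemma log_c2 : Real.log c.c2 = -Real.log c.s2 := by rw [Pm.c2, one_div, Real.log_inv]
lemma gb_pos : 0 < c.gb :=
  lt_min (div_pos h.η_pos (mul_pos h.J_pos (Real.sqrt_pos.2 h.J_pos))) h.J4N_pos
lemma log_gb : Real.log c.gb ≤ Real.log c.η - 3 / 2 * pL c.N ∧
    Real.log c.gb ≤ 4 * pL c.N - pJ c.N ∧
    (Real.log c.gb = Real.log c.η - 3 / 2 * pL c.N ∨ Real.log c.gb = 4 * pL c.N - pJ c.N) := by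
  have := h.J_pos; have := h.η_pos
  have h1 := log_min' (div_pos h.η_pos (mul_pos h.J_pos (Real.sqrt_pos.2 h.J_pos))) h.J4N_pos
  have h2 : Real.log (c.η / (c.J * √c.J)) = Real.log c.η - 3 / 2 * pL c.N := by
    simp (disch := positivity) only [Real.log_div, Real.log_mul, Real.log_sqrt, h.log_J]; ring
  rwa [h2, h.log_J4N] at h1
lemma lA_pos : 0 < c.lA :=
  mul_pos (mul_pos (pow_pos h.q_pos 3) (Real.sqrt_pos.2 h.J_pos)) h.l1_pos
lemma log_lA : Real.log c.lA = 3 * (pL c.N / 1000) + pL c.N / 2 + Real.log c.l1 := by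
  have := h.q_pos; have := h.J_pos; have := h.l1_pos
  unfold Pm.lA
  simp (disch := positivity) only [Real.log_mul, Real.log_pow, Real.log_sqrt, h.log_q, h.log_J]
  push_cast; ring
lemma d2u_pos : 0 < c.d2u := div_pos (h.big.np_pos _) (mul_pos h.η_pos h.lam_pos)
lemma log_d2u : Real.log c.d2u = -98 / 100 * pJ c.N - Real.log c.η - Real.log c.lam := by
  rw [Pm.d2u, Real.log_div (h.big.np_pos _).ne' (mul_pos h.η_pos h.lam_pos).ne',
    Real.log_mul h.η_pos.ne' h.lam_pos.ne', h.big.log_np]; ring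
lemma thr_pos : 0 < c.thr := by
  have := h.big.etaS_pos; unfold Pm.thr; split_ifs <;> positivity
lemma thr_bd : etaS c.N ≤ c.thr ∧ c.thr ≤ 30 * etaS c.N := by
  have := h.big.etaS_pos; unfold Pm.thr; split_ifs <;> constructor <;> linarith
lemma zT_pos : 0 < c.zT := by
  have := h.big.nu_pos; have := h.J_pos; unfold Pm.zT; split_ifs <;> positivity
lemma dk_pos : 0 < c.dk := by
  have := h.big.np_pos (-1 / 5); have := h.q_pos; have := h.pf_pos
  unfold Pm.dk; split_ifs <;> positivity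
lemma B0_pos : 0 < c.B0 := by
  have := h.big.X_pos; have := h.q_pos; have := h.N_pos; have := h.η_pos; have := h.p_pos
  have := h.J_pos
  unfold Pm.B0; split_ifs <;> positivity
lemma piB_pos : 0 < c.piB := by
  have := h.B0_pos; unfold Pm.piB; positivity
lemma eHi_pos : 0 < c.eHi := h.big.np_pos _
lemma eLo_pos : 0 < c.eLo := h.big.np_pos _
lemma eL_pos : 0 < c.eL := by
  have := h.eHi_pos; have := h.eLo_pos; unfold Pm.eL; positivity
lemma eS_pos : 0 < c.eS := add_pos (h.big.np_pos _) (mul_pos (h.big.np_pos _) h.eL_pos)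
lemma eSm_pos : 0 < c.eSm := by
  have := h.big.np_pos (-47 / 100); have := h.big.np_pos (-3 / 100)
  have := h.big.np_pos (-55 / 10); have := h.eL_pos
  unfold Pm.eSm; split_ifs <;> positivity
lemma hs_pos (i : Fin 3) : 0 < c.hs i := by
  fin_cases i
  exacts [h.l1_pos, h.lam_pos, h.y_pos]
lemma cw_pos (i : Fin 3) : 0 < c.cw i := by
  fin_cases i
  exacts [mul_pos h.big.pA_pos h.l1_pos, mul_pos h.big.pA_pos h.lam_pos, h.L_pos]
lemma cc_pos (i : Fin 3) : 0 < c.cc i := by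
  fin_cases i
  exacts [h.c1_pos, h.c2_pos, h.n12_pos]

/-! ### basic ranges -/

lemma eE_le_η : eE c.N / 50 ≤ c.η := by
  refine le_of_log (div_pos h.big.eE_pos (by norm_num)) h.η_pos ?_
  rw [Real.log_div h.big.eE_pos.ne' (by norm_num), h.big.log_eE]
  linarith [h.log_η_ge, log50_ge, log2_bd.2]

lemma η_ge : c.J ^ 3 * c.q ^ 11 / (30 * c.N) ≤ c.η := by
  have := h.J_pos; have := h.q_pos; have := h.N_pos
  refine le_of_log (by positivity) h.η_pos ?_
  simp (disch := positivity) only [Real.log_div, Real.log_mul, Real.log_pow, h.log_q, h.log_J,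
    h.big.log_N]
  push_cast
  linarith [h.log_η_ge, h.big.L_ge, (logc_bd (show (1 : ℝ) ≤ 30 by norm_num)).1]

lemma K_le : c.K ≤ 2 * Jp c.N (15 / 4) := by
  have := h.big.Jp_pos (15 / 4)
  refine le_of_log h.K_pos (by positivity) ?_
  rw [Real.log_mul two_ne_zero this.ne', h.big.log_Jp]
  linarith [h.log_K_bd.2, log2_bd.1]

lemma K_ge (hη : c.η < 1) : Jp c.N (37 / 10) ≤ c.K :=
  le_of_log (h.big.Jp_pos _) h.K_pos (by
    rw [h.big.log_Jp]; linarith [h.t_gt hη, h.t_eq, h.big.L_ge])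

lemma K_ge_notA (hA : ¬c.isA) : Jp c.N (15 / 4) ≤ c.K :=
  le_of_log (h.big.Jp_pos _) h.K_pos (by rw [h.big.log_Jp]; linarith [h.log_K_notA hA])

lemma log_s1_ge : pJ c.N / 2 - 15 / 8 * pL c.N - 3 ≤ Real.log c.s1 := by
  linarith [h.log_K, h.log_n12, h.log_n12_bd.1, h.log_K_bd.2]

lemma log_s2_le : Real.log c.s2 ≤ pJ c.N / 2 + 15 / 8 * pL c.N + 2 := by
  linarith [h.log_K, h.log_n12, h.log_n12_bd.2, h.log_K_bd.2]

lemma s1_ge : √c.N / c.J ^ 2 ≤ c.s1 := by
  have := h.J_pos; have := h.N_pos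
  refine le_of_log (by positivity) h.s1_pos ?_
  simp (disch := positivity) only [Real.log_div, Real.log_sqrt, Real.log_pow, h.log_J, h.big.log_N]
  push_cast
  linarith [h.log_s1_ge, h.big.L_ge]

lemma s2_le : c.s2 ≤ √c.N * c.J ^ 2 := by
  have := h.J_pos; have := h.N_pos
  refine le_of_log h.s2_pos (by positivity) ?_
  simp (disch := positivity) only [Real.log_mul, Real.log_sqrt, Real.log_pow, h.log_J, h.big.log_N]
  push_cast
  linarith [h.log_s2_le, h.big.L_ge]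

lemma log_ro_bd : 0 ≤ Real.log c.ro ∧ Real.log c.ro ≤ pJ c.N / 2 - pL c.N := by
  have h1 := h.log_ro
  constructor
  · linarith [h.log_m.1, h.log_e4_le]
  · linarith [h.log_m_le, h.log_K_bd.2, h.log_e4.2.1, h.big.L_ge]

lemma one_le_ro : 1 ≤ c.ro := le_of_log one_pos h.ro_pos (by rw [Real.log_one]; exact h.log_ro_bd.1)

lemma ro_le : c.ro ≤ √c.N :=
  le_of_log h.ro_pos h.big.sqrtN_pos (by
    rw [h.big.log_sqrtN]; linarith [h.log_ro_bd.2, h.big.L_ge])

lemma lam_le_l1 : c.lam ≤ c.l1 := le_mul_of_one_le_left h.lam_pos.le h.one_le_ro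

lemma η_le_e4 : c.η ≤ c.e4 := le_max_left _ _
lemma e4_le_one : c.e4 ≤ 1 :=
  le_of_log h.e4_pos one_pos (by rw [Real.log_one]; exact h.log_e4_le)

lemma e4_le : c.e4 ≤ c.J / c.q ^ 11 * c.η := by
  have := h.J_pos; have := h.q_pos; have := h.η_pos
  refine le_of_log h.e4_pos (by positivity) ?_
  simp (disch := positivity) only [Real.log_div, Real.log_mul, Real.log_pow, h.log_q, h.log_J]
  push_cast
  linarith [h.log_e4_le', h.big.L_ge]

lemma η_le_mu : c.η ≤ c.mu := le_of_log h.η_pos h.mu_pos h.log_mu_ge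

lemma dB_le : c.dB ≤ 1 / (c.J ^ 3 * c.q ^ 18) := by
  have := h.J_pos; have := h.q_pos
  refine le_of_log h.dB_pos (by positivity) ?_
  simp (disch := positivity) only [Real.log_div, Real.log_mul, Real.log_pow, Real.log_one,
    h.log_q, h.log_J, h.log_dB]
  push_cast
  linarith [h.log_e4.2.1, h.big.L_ge, log2_bd.1]

lemma pf_le : c.pf ≤ pcap c.N :=
  le_of_log h.pf_pos h.big.pcap_pos (by
    rw [h.log_pf, h.big.log_pcap]; linarith [h.log_e4.2.1])

lemma p_le_pf : c.p ≤ c.pf := min_le_left _ _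

lemma log_ηpf_ge : pL c.N - 3 * (pL c.N / 1000) - pJ c.N - 3.7 ≤ Real.log c.η + Real.log c.pf := by
  have h1 := h.log_pf
  rcases h.log_e4.2.2 with e | e <;>
    linarith [h.log_η_ge, h.log_e4.2.1, h.big.L_ge, log2_bd.2]

lemma log_ηp_ge : pL c.N - 3 * (pL c.N / 1000) - pJ c.N - 3.7 ≤ Real.log c.η + Real.log c.p := by
  rcases h.log_p.2.2 with e | e <;> linarith [h.log_ηpf_ge, h.big.L_ge]

lemma ηp_ge : pX c.N / (50 * c.q ^ 2 * c.N) ≤ c.η * c.p := by
  have := h.big.X_pos; have := h.q_pos; have := h.N_pos; have := h.η_pos; have := h.p_pos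
  refine le_of_log (by positivity) (by positivity) ?_
  simp (disch := positivity) only [Real.log_div, Real.log_mul, Real.log_pow, h.log_q,
    h.big.log_X, h.big.log_N]
  push_cast
  linarith [h.log_ηp_ge, log50_ge]

lemma ηp_le : c.η * c.p ≤ c.q * pX c.N / c.N := by
  have h1 : c.p ≤ c.q * pX c.N / (c.N * c.η) := min_le_right _ _
  rw [le_div_iff₀ (mul_pos h.N_pos h.η_pos)] at h1
  rw [le_div_iff₀ h.N_pos]; linarith

lemma ηpf_ge : pX c.N / (50 * c.q ^ 2 * c.N) ≤ c.η * c.pf :=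
  h.ηp_ge.trans (mul_le_mul_of_nonneg_left h.p_le_pf h.η_pos.le)

lemma comp_of_isA (hA : c.isA) : c.comp := by
  have h1 := h.thr_bd.2
  have h2 := h.big.etaA_pos
  have h3 : etaA c.N ≤ c.η := hA
  have h4 : etaS c.N = etaA c.N / 100 := rfl
  show c.thr ≤ c.η
  linarith

end Gd

end
end Pool.Agent.MP_20bec2_an.T3

end MrgPart1

-- ======== part 2: formerly Pool.Agent.MP_20bec2_an.T3.Par2
section MrgPart2

/-! Parameters that depend on the flags; windows, gains and tables. -/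

set_option autoImplicit false
set_option linter.unusedSectionVars false
open Set Filter Real

namespace Pool.Agent.MP_20bec2_an.T3
noncomputable section

lemma log10_bd : 0 ≤ Real.log 10 ∧ Real.log 10 ≤ 10 := logc_bd (by norm_num)

namespace Gd

variable {c : Pm} (h : Gd c)
include h

lemma dl_pos : 0 < c.dl := by
  have := h.big.sA_pos; have := h.mu_pos; have := h.dB_pos
  unfold Pm.dl; split_ifs <;> positivity
lemma s21_pos : 0 < c.s21 := by
  have := h.big.sA_pos; have := h.big.uB_pos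
  unfold Pm.s21; split_ifs <;> positivity
lemma s12_pos : 0 < c.s12 := mul_pos h.m_pos h.s21_pos
lemma t1_pos : 0 < c.t1 := by
  have := h.big.sA_pos; have := h.η_pos; have := h.t1B_pos
  unfold Pm.t1; split_ifs <;> positivity
lemma t2_pos : 0 < c.t2 := by
  have := h.big.tb_pos; have := h.s21_pos
  unfold Pm.t2; split_ifs <;> positivity
lemma dl'_pos : 0 < c.dl' := by
  have := h.dl_pos; have := h.J_pos
  unfold Pm.dl'; split_ifs <;> positivity
lemma bb_pos : 0 < c.bb := by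
  have := h.big.bA_pos; have := h.big.bB_pos
  unfold Pm.bb; split_ifs <;> positivity
lemma bbO_pos : 0 < c.bbO := by
  have := h.big.bA_pos; have := h.big.bB_pos
  unfold Pm.bbO; split_ifs <;> positivity
lemma GG_pos : 0 < c.GG := by
  have := h.bb_pos; have := h.N_pos; have := h.c1_pos; have := h.l1_pos; have := h.c2_pos
  have := h.lam_pos; have := h.n12_pos
  unfold Pm.GG; positivity
lemma GH_pos : 0 < c.GH := mul_pos (Real.sqrt_pos.2 (mul_pos h.q_pos h.J_pos)) h.GG_pos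
lemma W10_pos : 0 < c.W10 := div_pos (mul_pos (by norm_num) h.l1_pos) h.dl_pos
lemma W20_pos : 0 < c.W20 := div_pos h.l1_pos h.s12_pos
lemma H0_pos : 0 < c.H0 := div_pos h.l1_pos h.t1_pos
lemma Hp_pos : 0 < c.Hp := div_pos h.l1_pos (Real.sqrt_pos.2 h.p_pos)
lemma W11_pos : 0 < c.W11 := div_pos h.lam_pos h.s21_pos
lemma W21_pos : 0 < c.W21 :=
  div_pos (mul_pos (by norm_num) h.lam_pos) (mul_pos h.η_pos h.dl'_pos)
lemma H1_pos : 0 < c.H1 := div_pos h.lam_pos h.t2_pos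
lemma b1_pos : 0 < c.b1 := div_pos (mul_pos (mul_pos h.η0_pos h.ro_pos) h.W20_pos) h.W10_pos
lemma b2_pos : 0 < c.b2 := by
  have := h.W11_pos; have := h.η0_pos; have := h.ro_pos; have := h.W21_pos
  unfold Pm.b2; positivity
lemma Ug0_pos : 0 < c.Ug0 := by
  have := h.GG_pos; have := h.q_pos; have := h.W10_pos; have := h.l1_pos; have := h.W20_pos
  have := h.lam_pos
  unfold Pm.Ug0; positivity
lemma Ug1_pos : 0 < c.Ug1 := by
  have := h.GG_pos; have := h.q_pos; have := h.W11_pos; have := h.l1_pos; have := h.W21_pos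
  have := h.lam_pos
  unfold Pm.Ug1; positivity
lemma om0_pos : 0 < c.om0 := div_pos (mul_pos h.η_pos (pow_pos h.l1_pos 2)) (pow_pos h.Ug0_pos 2)
lemma om1_nonneg : 0 ≤ c.om1 := by unfold Pm.om1; split_ifs <;> positivity
lemma t11_pos : 0 < c.t11 := by
  have := h.q_pos; have := h.big.np_pos (-4 / 10); unfold Pm.t11; split_ifs <;> positivity
lemma t12_pos : 0 < c.t12 := by
  have := h.q_pos; have := h.big.np_pos (-4 / 10); have := h.b2_pos
  unfold Pm.t12; split_ifs <;> positivity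
lemma t13_pos : 0 < c.t13 := by
  have := h.big.np_pos (-38 / 100); have := h.big.np_pos (-20)
  unfold Pm.t13; split_ifs <;> positivity
lemma t33_pos : 0 < c.t33 := by
  have := h.q_pos; have := h.big.np_pos (-20); unfold Pm.t33; split_ifs <;> positivity
lemma thS_pos (i : Fin 3) : 0 < c.thS i := by
  fin_cases i
  exacts [h.W10_pos, h.W20_pos, h.Hp_pos]

/-- logarithms of the flagged steps at level A -/
lemma log_A (hA : c.isA) :
    Real.log c.dl = -(pJ c.N / 2) - 7 * (pL c.N / 2000) - Real.log c.mu / 2 ∧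
    Real.log c.s21 = -(pJ c.N / 2) - 7 * (pL c.N / 2000) ∧
    Real.log c.t1 = -(pJ c.N / 2) - 7 * (pL c.N / 2000) - Real.log c.η / 2 ∧
    Real.log c.bb = -(13 * (pL c.N / 1000)) ∧ Real.log c.e4 = Real.log c.η ∧
    -(8 * pL c.N) ≤ Real.log c.η := by
  have := h.big.sA_pos; have := h.mu_pos; have := h.η_pos
  unfold Pm.dl Pm.s21 Pm.t1 Pm.bb
  simp (disch := positivity) only [if_pos hA, Real.log_div, Real.log_sqrt, h.big.log_sA,
    h.big.log_bA, h.log_e4_A hA, true_and]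
  exact h.log_isA.1 hA

/-- logarithms of the flagged steps at level B -/
lemma log_B (hA : ¬c.isA) :
    Real.log c.dl =
      -(pJ c.N / 2) - pL c.N - 37 * (pL c.N / 2000) - Real.log 2 - Real.log c.e4 / 2 ∧
    Real.log c.s21 = -(pJ c.N / 2) - pL c.N / 2 - 11 * (pL c.N / 2000) ∧
    Real.log c.t1 = -(pJ c.N / 2) - pL c.N / 2 - 31 * (pL c.N / 2000) - Real.log c.e4 / 2 ∧
    Real.log c.bb = -pL c.N - 13 * (pL c.N / 1000) ∧ 15 / 4 * pL c.N < Real.log c.K ∧
    Real.log c.η < -(8 * pL c.N) := by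
  unfold Pm.dl Pm.s21 Pm.t1 Pm.bb
  simp only [if_neg hA, h.log_dB, h.big.log_uB, h.log_t1B, h.big.log_bB, true_and]
  exact ⟨h.log_K_notA hA, h.log_notA hA⟩

lemma log_bst (hb : c.boost) : Real.log c.t2 = 4 * pL c.N - pJ c.N / 2 ∧
    Real.log c.dl' = Real.log c.dl - 5 * pL c.N ∧ Real.log c.e4 = Real.log c.η ∧
    -(8 * pL c.N) - 200 ≤ Real.log c.η := by
  have := h.dl_pos; have := h.J_pos
  refine ⟨by rw [Pm.t2, if_pos hb, h.big.log_tb], ?_,
    h.log_e4_eq (by linarith [h.log_boost hb, h.big.J_ge, h.big.L_ge]), h.log_boost hb⟩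
  rw [Pm.dl', if_pos hb]
  simp (disch := positivity) only [Real.log_div, Real.log_pow, h.log_J]
  norm_num

lemma log_nbst (hb : ¬c.boost) : Real.log c.t2 = Real.log c.s21 ∧ Real.log c.dl' = Real.log c.dl :=
  ⟨by rw [Pm.t2, if_neg hb], by rw [Pm.dl', if_neg hb]⟩

lemma log_dl' : Real.log c.dl - 5 * pL c.N ≤ Real.log c.dl' ∧ Real.log c.dl' ≤ Real.log c.dl := by
  by_cases hb : c.boost
  · constructor <;> linarith [(h.log_bst hb).2.1, h.big.L_ge]
  · constructor <;> linarith [(h.log_nbst hb).2, h.big.L_ge]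

lemma log_s12 : Real.log c.s12 = Real.log c.m + Real.log c.s21 :=
  Real.log_mul h.m_pos.ne' h.s21_pos.ne'
lemma log_W10 : Real.log c.W10 = Real.log 10 + Real.log c.ro + Real.log c.lam - Real.log c.dl := by
  have := h.l1_pos; have := h.dl_pos
  unfold Pm.W10
  simp (disch := positivity) only [Real.log_div, Real.log_mul, h.log_l1]; ring
lemma log_W20 :
    Real.log c.W20 = Real.log c.ro + Real.log c.lam - Real.log c.m - Real.log c.s21 := by
  rw [Pm.W20, Real.log_div h.l1_pos.ne' h.s12_pos.ne', h.log_l1, h.log_s12]; ring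
lemma log_H0 : Real.log c.H0 = Real.log c.ro + Real.log c.lam - Real.log c.t1 := by
  rw [Pm.H0, Real.log_div h.l1_pos.ne' h.t1_pos.ne', h.log_l1]
lemma log_Hp : Real.log c.Hp = Real.log c.ro + Real.log c.lam - Real.log c.p / 2 := by
  rw [Pm.Hp, Real.log_div h.l1_pos.ne' (Real.sqrt_pos.2 h.p_pos).ne', h.log_l1,
    Real.log_sqrt h.p_pos.le]
lemma log_W11 : Real.log c.W11 = Real.log c.lam - Real.log c.s21 :=
  Real.log_div h.lam_pos.ne' h.s21_pos.ne'
lemma log_W21 : Real.log c.W21 = Real.log 10 + Real.log c.lam - Real.log c.η - Real.log c.dl' := by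
  have := h.lam_pos; have := h.dl'_pos; have := h.η_pos
  unfold Pm.W21
  simp (disch := positivity) only [Real.log_div, Real.log_mul]; ring
lemma log_H1 : Real.log c.H1 = Real.log c.lam - Real.log c.t2 :=
  Real.log_div h.lam_pos.ne' h.t2_pos.ne'
lemma log_b1 : Real.log c.b1 = Real.log c.η - Real.log (2 - c.η) + Real.log c.ro + Real.log c.dl -
    Real.log 10 - Real.log c.m - Real.log c.s21 := by
  have := h.η0_pos; have := h.ro_pos; have := h.W10_pos; have := h.W20_pos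
  unfold Pm.b1
  simp (disch := positivity) only [Real.log_div, Real.log_mul, h.log_η0, h.log_W10, h.log_W20]
  ring
lemma log_b2 : Real.log c.b2 = Real.log (2 - c.η) + Real.log c.dl' - Real.log 10 - Real.log 2 / 2 -
    Real.log c.ro - Real.log c.s21 := by
  have := h.η0_pos; have := h.ro_pos; have := h.W11_pos; have := h.W21_pos
  unfold Pm.b2
  simp (disch := positivity) only [Real.log_div, Real.log_mul, Real.log_sqrt, h.log_η0, h.log_W11,
    h.log_W21]
  ring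

/-- `S` is the logarithm of `lam² ((c1/l1)² + (c2/lam)²)` -/
lemma log_GG : ∃ S : ℝ, Real.log c.GG =
      Real.log c.lam + (Real.log c.bb - pJ c.N - S) / 2 + Real.log c.n12 ∧
    Real.log c.η - 2 * Real.log c.s1 - 2 * Real.log c.ro ≤ S ∧ -(2 * Real.log c.s2) ≤ S ∧
    (S ≤ Real.log 2 + (Real.log c.η - 2 * Real.log c.s1 - 2 * Real.log c.ro) ∨
      S ≤ Real.log 2 - 2 * Real.log c.s2) := by
  have := h.bb_pos; have := h.N_pos; have := h.c1_pos; have := h.l1_pos; have := h.c2_pos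
  have := h.lam_pos; have := h.n12_pos
  have h1 := log_add_le (show 0 < (c.c1 / c.l1) ^ 2 by positivity)
    (show 0 < (c.c2 / c.lam) ^ 2 by positivity)
  simp (disch := positivity) only [Real.log_div, Real.log_pow, h.log_c1, h.log_c2, h.log_l1] at h1
  push_cast at h1
  refine ⟨Real.log ((c.c1 / c.l1) ^ 2 + (c.c2 / c.lam) ^ 2) + 2 * Real.log c.lam, ?_,
    by linarith [h1.1], by linarith [h1.2.1], h1.2.2.imp (fun _ => by linarith) fun _ => by linarith⟩
  unfold Pm.GG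
  simp (disch := positivity) only [Real.log_div, Real.log_mul, Real.log_sqrt, h.big.log_N]
  ring
lemma log_GH : Real.log c.GH = (pL c.N / 1000 + pL c.N) / 2 + Real.log c.GG := by
  have := h.q_pos; have := h.J_pos; have := h.GG_pos
  unfold Pm.GH
  simp (disch := positivity) only [Real.log_mul, Real.log_sqrt, h.log_q, h.log_J]
lemma log_Ug0 : Real.log c.Ug0 = Real.log c.GG - (pL c.N / 1000 + Real.log 10 - Real.log c.dl +
    Real.log c.ro - Real.log c.m - Real.log c.s21) / 2 := by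
  have := h.GG_pos; have := h.q_pos; have := h.W10_pos; have := h.l1_pos; have := h.W20_pos
  have := h.lam_pos
  unfold Pm.Ug0
  simp (disch := positivity) only [Real.log_div, Real.log_mul, Real.log_sqrt, h.log_q, h.log_W10,
    h.log_W20, h.log_l1]
  ring
lemma log_Ug1 : Real.log c.Ug1 = Real.log c.GG - (pL c.N / 1000 + Real.log 10 - Real.log c.dl' -
    Real.log c.ro - Real.log c.η - Real.log c.s21) / 2 := by
  have := h.GG_pos; have := h.q_pos; have := h.W11_pos; have := h.l1_pos; have := h.W21_pos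
  have := h.lam_pos
  unfold Pm.Ug1
  simp (disch := positivity) only [Real.log_div, Real.log_mul, Real.log_sqrt, h.log_q, h.log_W11,
    h.log_W21, h.log_l1]
  ring
lemma log_om0 : Real.log c.om0 =
    Real.log c.η + 2 * Real.log c.ro + 2 * Real.log c.lam - 2 * Real.log c.Ug0 := by
  have := h.η_pos; have := h.l1_pos; have := h.Ug0_pos
  unfold Pm.om0
  simp (disch := positivity) only [Real.log_div, Real.log_mul, Real.log_pow, h.log_l1]
  push_cast; ring
lemma log_om1' : Real.log (c.lam ^ 2 / c.Ug1 ^ 2) = 2 * Real.log c.lam - 2 * Real.log c.Ug1 := by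
  have := h.lam_pos; have := h.Ug1_pos
  simp (disch := positivity) only [Real.log_div, Real.log_pow]
  push_cast; ring

/-! ### the inequalities -/

lemma b1_le : c.b1 ≤ 1 / 10 := by
  refine le_of_log h.b1_pos (by norm_num) ?_
  rw [one_div, Real.log_inv, h.log_b1, h.log_ro]
  have := h.log_two_sub.1; have := h.log_m.1; have := h.log_mu_ge; have := h.log_e4.1
  have := h.big.L_ge; have := log2_bd.1
  by_cases hA : c.isA
  · obtain ⟨a1, a2, -, -, a5, -⟩ := h.log_A hA; linarith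
  · obtain ⟨a1, a2, -, -, -, -⟩ := h.log_B hA; linarith

lemma b2_le : c.b2 ≤ 1 / 7 := by
  refine le_of_log h.b2_pos (by norm_num) ?_
  rw [one_div, Real.log_inv, h.log_b2, h.log_ro]
  have := h.log_two_sub.2; have := h.log_m.1; have := h.log_mu_ge; have := h.log_dl'.2
  have := h.big.L_ge; have := log2_bd.1; have := log7_le
  by_cases hA : c.isA
  · obtain ⟨a1, a2, -, -, a5, -⟩ := h.log_A hA; linarith
  · obtain ⟨a1, a2, -, -, -, -⟩ := h.log_B hA; linarith

lemma log_b2_ge : -(13 / 2 * pL c.N) ≤ Real.log c.b2 := by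
  rw [h.log_b2, h.log_ro]
  have := h.log_two_sub.1; have := h.log_m_le; have := h.log_mu.2.1; have := h.log_dl'.1
  have := h.big.L_ge; have := log2_bd.2; have := log10_bd.2; have := h.log_K_bd.2
  by_cases hA : c.isA
  · obtain ⟨a1, a2, -, -, a5, -⟩ := h.log_A hA; linarith
  · obtain ⟨a1, a2, -, -, -, -⟩ := h.log_B hA; linarith

lemma b2_ge : 1 / c.J ^ 7 ≤ c.b2 := by
  have := h.J_pos
  refine le_of_log (by positivity) h.b2_pos ?_
  rw [one_div, Real.log_inv, Real.log_pow, h.log_J]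
  push_cast; linarith [h.log_b2_ge, h.big.L_ge]

lemma b2_ge' : 1 / c.J ^ 9 ≤ c.b2 := by
  have := h.J_pos
  refine le_of_log (by positivity) h.b2_pos ?_
  rw [one_div, Real.log_inv, Real.log_pow, h.log_J]
  push_cast; linarith [h.log_b2_ge, h.big.L_ge]

lemma log_bb_bd : -pL c.N - 13 * (pL c.N / 1000) ≤ Real.log c.bb ∧
    Real.log c.bb ≤ -(13 * (pL c.N / 1000)) := by
  have := h.big.L_ge
  by_cases hA : c.isA
  · constructor <;> linarith [(h.log_A hA).2.2.2.1]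
  · constructor <;> linarith [(h.log_B hA).2.2.2.1]

lemma log_GG_bd : pJ c.N - 5 / 2 * pL c.N + Real.log c.lam ≤ Real.log c.GG ∧
    Real.log c.GG ≤ pJ c.N + 15 / 8 * pL c.N + Real.log c.lam := by
  obtain ⟨S, e, h1, h2, h3⟩ := h.log_GG
  have := h.log_bb_bd.1; have := h.log_bb_bd.2; have := h.log_n12_bd.1; have := h.log_n12_bd.2
  have := h.log_s1_ge; have := h.log_s2_le; have := h.log_η_le; have := h.log_ro_bd.1
  have := h.log_K; have := h.log_K_bd.1; have := h.big.L_ge; have := log2_bd.2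
  constructor
  · rcases h3 with h3 | h3 <;> linarith
  · linarith

lemma GG_ge : c.N / c.J ^ 3 * c.lam ≤ c.GG := by
  have := h.J_pos; have := h.N_pos; have := h.lam_pos
  refine le_of_log (by positivity) h.GG_pos ?_
  simp (disch := positivity) only [Real.log_div, Real.log_mul, Real.log_pow, h.log_J, h.big.log_N]
  push_cast; linarith [h.log_GG_bd.1, h.big.L_ge]

lemma GG_le : c.GG ≤ c.N * c.J ^ 2 * c.lam := by
  have := h.J_pos; have := h.N_pos; have := h.lam_pos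
  refine le_of_log h.GG_pos (by positivity) ?_
  simp (disch := positivity) only [Real.log_mul, Real.log_pow, h.log_J, h.big.log_N]
  push_cast; linarith [h.log_GG_bd.2, h.big.L_ge]

/-- all windows in logarithmic form: `u = log (W / lam) - J / 2` lies between `-5 L` and
`7 L - log η / 2` -/
lemma log_win : ∀ W ∈ [c.W10, c.W20, c.H0, c.Hp, c.W11, c.W21, c.H1],
    Real.log c.lam + pJ c.N / 2 - 5 * pL c.N ≤ Real.log W ∧
    Real.log W ≤ Real.log c.lam + pJ c.N / 2 + 7 * pL c.N - Real.log c.η / 2 := by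
  have := h.log_W10; have := h.log_W20; have := h.log_H0; have := h.log_Hp; have := h.log_W11
  have := h.log_W21; have := h.log_H1; have := h.log_ro; have := h.log_m.1; have := h.log_m_le
  have := h.log_K_bd.2; have := h.log_η_le; have := h.log_e4.1; have := h.log_e4_le
  have := h.log_e4_le'; have := h.log_mu.1; have := h.log_mu_ge; have := h.log_p.2.1
  have := h.log_ηp_ge; have := h.log_dl'.1; have := h.log_dl'.2; have := h.big.L_ge
  have := log2_bd.1; have := log2_bd.2; have := log10_bd.1; have := log10_bd.2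
  have := h.log_mu.2.1
  simp only [List.forall_mem_cons, List.not_mem_nil, false_imp_iff, implies_true, and_true]
  by_cases hA : c.isA
  · obtain ⟨a1, a2, a3, -, a5, a6⟩ := h.log_A hA
    refine ⟨⟨?_, ?_⟩, ⟨?_, ?_⟩, ⟨?_, ?_⟩, ⟨?_, ?_⟩, ⟨?_, ?_⟩, ⟨?_, ?_⟩, ?_⟩
    any_goals linarith
    by_cases hb : c.boost
    · constructor <;> linarith [(h.log_bst hb).1]
    · constructor <;> linarith [(h.log_nbst hb).1]
  · obtain ⟨a1, a2, a3, -, a5, a6⟩ := h.log_B hA
    refine ⟨⟨?_, ?_⟩, ⟨?_, ?_⟩, ⟨?_, ?_⟩, ⟨?_, ?_⟩, ⟨?_, ?_⟩, ⟨?_, ?_⟩, ?_⟩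
    any_goals linarith
    by_cases hb : c.boost
    · constructor <;> linarith [(h.log_bst hb).1]
    · constructor <;> linarith [(h.log_nbst hb).1]

lemma win_pos : ∀ W ∈ [c.W10, c.W20, c.H0, c.Hp, c.W11, c.W21, c.H1], 0 < W := by
  simp only [List.forall_mem_cons, List.not_mem_nil, false_imp_iff, implies_true, and_true]
  exact ⟨h.W10_pos, h.W20_pos, h.H0_pos, h.Hp_pos, h.W11_pos, h.W21_pos, h.H1_pos⟩

/-- use as `h.win c.W10 (by simp)` -/
lemma win : ∀ W ∈ [c.W10, c.W20, c.H0, c.Hp, c.W11, c.W21, c.H1],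
    np c.N (499 / 1000) * c.lam ≤ W ∧ W ≤ np c.N (1001 / 1000) * c.lam ∧
    (etaS c.N / 40 ≤ c.η → W ≤ np c.N (501 / 1000) * c.lam) := by
  intro W hW
  have h1 := h.log_win W hW
  have h2 := h.win_pos W hW
  have h3 : ∀ a, Real.log (np c.N a * c.lam) = a * pJ c.N + Real.log c.lam := fun a => by
    rw [Real.log_mul (h.big.np_pos a).ne' h.lam_pos.ne', h.big.log_np]
  have h4 : ∀ a, 0 < np c.N a * c.lam := fun a => mul_pos (h.big.np_pos a) h.lam_pos
  have := h.big.J_ge; have := h.big.L_ge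
  refine ⟨le_of_log (h4 _) h2 ?_, le_of_log h2 (h4 _) ?_, fun hη => le_of_log h2 (h4 _) ?_⟩
  · rw [h3]; linarith [h1.1]
  · rw [h3]; linarith [h1.2, h.log_η_ge]
  · have := h.log_etaS_le (a := 1 / 40) (by norm_num) (by linarith)
    rw [h3]; linarith [h1.2]

/-- the sheet's form -/
lemma win' : ∀ W ∈ [c.W10, c.W20, c.H0, c.Hp, c.W11, c.W21, c.H1],
    np c.N (497 / 1000) * c.lam ≤ W ∧ W ≤ np c.N (101 / 100) * c.lam ∧
    (etaS c.N / 40 ≤ c.η → W ≤ np c.N (505 / 1000) * c.lam) := by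
  intro W hW
  obtain ⟨h1, h2, h3⟩ := h.win W hW
  have h4 : ∀ {a b : ℝ}, a ≤ b → np c.N a * c.lam ≤ np c.N b * c.lam := fun hab =>
    mul_le_mul_of_nonneg_right (h.big.np_le hab) h.lam_pos.le
  exact ⟨(h4 (by norm_num)).trans h1, h2.trans (h4 (by norm_num)),
    fun hη => (h3 hη).trans (h4 (by norm_num))⟩

/-- margins at level B -/
lemma log_Ug_B (hA : ¬c.isA) : Real.log c.H0 + pL c.N / 2 ≤ Real.log c.Ug0 ∧
    Real.log c.H1 + pL c.N / 20 ≤ Real.log c.Ug1 := by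
  obtain ⟨S, e, -, -, h3⟩ := h.log_GG
  obtain ⟨a1, a2, a3, a4, a5, a6⟩ := h.log_B hA
  have := h.log_Ug0; have := h.log_Ug1; have := h.log_H0; have := h.log_H1; have := h.log_ro
  have := h.log_m.2.1; have := h.log_m_le; have := h.log_K; have := h.log_n12
  have := h.log_n12_bd.1; have := h.log_K_bd.2; have := h.log_e4_le; have := h.log_e4_le'
  have := h.big.L_ge; have := log2_bd.1; have := log2_bd.2; have := log10_bd.2
  have hS : S ≤ Real.log 2 - 2 * Real.log c.s2 := by rcases h3 with h3 | h3 <;> linarith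
  refine ⟨by linarith, ?_⟩
  by_cases hb : c.boost
  · obtain ⟨b1, b2, b3, -⟩ := h.log_bst hb; linarith
  · obtain ⟨b1, b2⟩ := h.log_nbst hb; linarith

lemma H0_le_Ug0 (hA : ¬c.isA) : c.H0 ≤ c.Ug0 :=
  le_of_log h.H0_pos h.Ug0_pos (by linarith [(h.log_Ug_B hA).1, h.big.L_ge])

lemma H1_le_Ug1 (hA : ¬c.isA) : c.H1 ≤ c.Ug1 :=
  le_of_log h.H1_pos h.Ug1_pos (by linarith [(h.log_Ug_B hA).2, h.big.L_ge])

/-- gains at level A -/
lemma log_Ug_A (hA : c.isA) :
    Real.log c.om0 ≤ 21 * (pL c.N / 1000) + 15 / 16 * pL c.N - pJ c.N + 40 ∧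
    2 * Real.log c.lam - 2 * Real.log c.Ug1 ≤
      21 * (pL c.N / 1000) + 15 / 16 * pL c.N - pJ c.N + 40 + (Real.log c.dl - Real.log c.dl') := by
  obtain ⟨S, e, -, -, h3⟩ := h.log_GG
  obtain ⟨a1, a2, a3, a4, a5, a6⟩ := h.log_A hA
  have := h.log_Ug0; have := h.log_Ug1; have := h.log_om0; have := h.log_ro
  have := h.log_m.1; have := h.log_m.2.1; have := h.log_m_le; have := h.log_K; have := h.log_n12
  have := h.log_n12_bd.1; have := h.log_K_bd.1; have := h.log_K_bd.2; have := h.log_η_le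
  have := h.log_mu.1; have := h.log_mu.2.1
  have := h.big.L_ge; have := log2_bd.1; have := log2_bd.2; have := log10_bd.2
  constructor <;> rcases h3 with h3 | h3 <;> linarith

lemma log_omB : Real.log (c.q ^ 22 * Jp c.N (15 / 16) / c.N) =
    22 * (pL c.N / 1000) + 15 / 16 * pL c.N - pJ c.N := by
  have := h.q_pos; have := h.big.Jp_pos (15 / 16); have := h.N_pos
  simp (disch := positivity) only [Real.log_div, Real.log_mul, Real.log_pow, h.log_q,
    h.big.log_Jp, h.big.log_N]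
  push_cast; ring

lemma omB_pos : 0 < c.q ^ 22 * Jp c.N (15 / 16) / c.N :=
  div_pos (mul_pos (pow_pos h.q_pos _) (h.big.Jp_pos _)) h.N_pos

lemma om0_le (hA : c.isA) : c.om0 ≤ c.q ^ 22 * Jp c.N (15 / 16) / c.N :=
  le_of_log h.om0_pos h.omB_pos (by rw [h.log_omB]; linarith [(h.log_Ug_A hA).1, h.big.L_ge])

lemma om1_le (hA : c.isA) : c.om1 ≤ c.q ^ 22 * Jp c.N (15 / 16) / c.N := by
  unfold Pm.om1
  split_ifs with hb
  · exact h.omB_pos.le
  · refine le_of_log (div_pos (pow_pos h.lam_pos 2) (pow_pos h.Ug1_pos 2)) h.omB_pos ?_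
    rw [h.log_omB, h.log_om1']
    linarith [(h.log_Ug_A hA).2, (h.log_nbst hb).2, h.big.L_ge]

/-- lower bounds of the gains, any level -/
lemma log_Ug_ge : Real.log c.lam + pJ c.N / 2 - pL c.N / 2 ≤ Real.log c.Ug0 ∧
    Real.log c.lam + pJ c.N / 2 - 4 * pL c.N ≤ Real.log c.Ug1 ∧
    Real.log c.H0 ≤ pL c.N / 2 + Real.log c.Ug0 ∧ Real.log c.H1 ≤ pL c.N / 2 + Real.log c.Ug1 := by
  have := h.log_H0; have := h.log_H1; have := h.log_ro; have := h.log_m.1; have := h.big.L_ge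
  by_cases hA : c.isA
  · obtain ⟨a1, a2, a3, a4, a5, a6⟩ := h.log_A hA
    obtain ⟨u1, u2⟩ := h.log_Ug_A hA
    have := h.log_om0; have := h.log_dl'.1
    refine ⟨by linarith, by linarith, by linarith, ?_⟩
    by_cases hb : c.boost
    · obtain ⟨b1, b2, b3, -⟩ := h.log_bst hb; linarith
    · obtain ⟨b1, b2⟩ := h.log_nbst hb; linarith
  · obtain ⟨a1, a2, a3, a4, a5, a6⟩ := h.log_B hA
    obtain ⟨u1, u2⟩ := h.log_Ug_B hA
    refine ⟨by linarith, ?_, by linarith, by linarith⟩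
    by_cases hb : c.boost
    · obtain ⟨b1, b2, b3, -⟩ := h.log_bst hb; linarith
    · obtain ⟨b1, b2⟩ := h.log_nbst hb; linarith

lemma Ug0_ge : np c.N (499 / 1000) * c.lam ≤ c.Ug0 :=
  le_of_log (mul_pos (h.big.np_pos _) h.lam_pos) h.Ug0_pos (by
    rw [Real.log_mul (h.big.np_pos _).ne' h.lam_pos.ne', h.big.log_np]
    linarith [h.log_Ug_ge.1, h.big.J_ge, h.big.L_ge])

lemma Ug1_ge : np c.N (499 / 1000) * c.lam ≤ c.Ug1 :=
  le_of_log (mul_pos (h.big.np_pos _) h.lam_pos) h.Ug1_pos (by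
    rw [Real.log_mul (h.big.np_pos _).ne' h.lam_pos.ne', h.big.log_np]
    linarith [h.log_Ug_ge.2.1, h.big.J_ge, h.big.L_ge])

lemma H0_le : c.H0 ≤ c.J ^ 10 * c.Ug0 :=
  le_of_log h.H0_pos (mul_pos (pow_pos h.J_pos _) h.Ug0_pos) (by
    rw [Real.log_mul (pow_pos h.J_pos _).ne' h.Ug0_pos.ne', Real.log_pow, h.log_J]
    push_cast; linarith [h.log_Ug_ge.2.2.1, h.big.L_ge])

lemma H1_le : c.H1 ≤ c.J ^ 10 * c.Ug1 :=
  le_of_log h.H1_pos (mul_pos (pow_pos h.J_pos _) h.Ug1_pos) (by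
    rw [Real.log_mul (pow_pos h.J_pos _).ne' h.Ug1_pos.ne', Real.log_pow, h.log_J]
    push_cast; linarith [h.log_Ug_ge.2.2.2, h.big.L_ge])

/-- holds without the flag -/
lemma om1_tb : c.lam ^ 2 / c.Ug1 ^ 2 ≤ tb c.N ^ 2 :=
  le_of_log (div_pos (pow_pos h.lam_pos 2) (pow_pos h.Ug1_pos 2)) (pow_pos h.big.tb_pos 2) (by
    rw [h.log_om1', Real.log_pow, h.big.log_tb]
    push_cast; linarith [h.log_Ug_ge.2.1])

/-! ### tables -/

lemma sdB_aux {a : ℝ} (h1 : c.dB ≤ a) (h2 : c.m * uB c.N ≤ a) (h3 : c.t1B ≤ a)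
    (h4 : np c.N (-9 / 10) ≤ a) (i j : Fin 3) : 0 ≤ c.sdB i j ∧ c.sdB i j ≤ 2 * a := by
  have p1 := h.dB_pos; have p2 := h.big.uB_pos; have p3 := h.t1B_pos; have p4 := h.m_pos
  have p5 := h.big.np_pos (-9 / 10); have p6 := h.η_pos
  have h5 : uB c.N ≤ c.m * uB c.N := le_mul_of_one_le_left p2.le h.one_le_m
  have h6 : c.η * c.dB ≤ c.dB := mul_le_of_le_one_left p1.le h.η_le_one
  have e1 : 0 ≤ c.dB ∧ c.dB ≤ 2 * a := ⟨p1.le, by linarith⟩
  have e2 : 0 ≤ c.m * uB c.N ∧ c.m * uB c.N ≤ 2 * a := ⟨by positivity, by linarith⟩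
  have e3 : 0 ≤ c.t1B ∧ c.t1B ≤ 2 * a := ⟨p3.le, by linarith⟩
  have e4 : 0 ≤ uB c.N ∧ uB c.N ≤ 2 * a := ⟨p2.le, by linarith⟩
  have e5 : 0 ≤ c.η * c.dB + np c.N (-9 / 10) ∧ c.η * c.dB + np c.N (-9 / 10) ≤ 2 * a :=
    ⟨by positivity, by linarith⟩
  have e6 : (0 : ℝ) ≤ 0 ∧ 0 ≤ 2 * a := ⟨le_rfl, by linarith⟩
  fin_cases i <;> fin_cases j
  exacts [e1, e2, e3, e4, e5, e4, e6, e6, e6]

lemma sdB_bd (i j : Fin 3) : 0 ≤ c.sdB i j ∧ c.sdB i j ≤ 2 * (Jp c.N (-5 / 2) * qp c.N (-15)) ∧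
    (etaS c.N / 40 ≤ c.η → c.sdB i j ≤ 2 * np c.N (-499 / 1000)) := by
  have := h.log_dB; have := h.log_t1B; have := h.big.log_uB; have := h.log_m_le
  have := h.log_K_bd.2; have := h.log_e4.1; have := h.log_e4.2.1; have := h.big.L_ge
  have := h.big.J_ge; have := log2_bd.1
  have pm := mul_pos h.m_pos h.big.uB_pos
  have lm := Real.log_mul h.m_pos.ne' h.big.uB_pos.ne'
  have p1 := mul_pos (h.big.Jp_pos (-5 / 2)) (h.big.qp_pos (-15))
  have l1 := Real.log_mul (h.big.Jp_pos (-5 / 2)).ne' (h.big.qp_pos (-15)).ne'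
  rw [h.big.log_Jp, h.big.log_qp] at l1
  have l2 := h.big.log_np (-9 / 10)
  have h1 := h.sdB_aux (le_of_log h.dB_pos p1 (by linarith)) (le_of_log pm p1 (by linarith))
    (le_of_log h.t1B_pos p1 (by linarith)) (le_of_log (h.big.np_pos _) p1 (by linarith)) i j
  refine ⟨h1.1, h1.2, fun hη => ?_⟩
  have := h.log_etaS_le (a := 1 / 40) (by norm_num) (by linarith)
  have p2 := h.big.np_pos (-499 / 1000)
  have l3 := h.big.log_np (-499 / 1000)
  exact (h.sdB_aux (le_of_log h.dB_pos p2 (by linarith)) (le_of_log pm p2 (by linarith))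
    (le_of_log h.t1B_pos p2 (by linarith)) (le_of_log (h.big.np_pos _) p2 (by linarith)) i j).2

omit h in
lemma b23_bd {a : ℝ} (ha : 0 ≤ a) (i j : Fin 3) : 0 ≤ Pm.b23 a i j ∧ Pm.b23 a i j ≤ a := by
  have e1 : (0 : ℝ) ≤ 0 ∧ 0 ≤ a := ⟨le_rfl, ha⟩
  have e2 : 0 ≤ a ∧ a ≤ a := ⟨ha, le_rfl⟩
  fin_cases i <;> fin_cases j
  exacts [e1, e1, e1, e1, e1, e2, e1, e1, e1]

lemma two_np_le : 2 * np c.N (-499 / 1000) ≤ sdc c.N / c.q := by
  have := h.big.np_pos (-499 / 1000); have := h.big.sdc_pos; have := h.q_pos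
  refine le_of_log (by positivity) (by positivity) ?_
  simp (disch := positivity) only [Real.log_div, Real.log_mul, h.big.log_np, h.big.log_sdc, h.log_q]
  linarith [h.big.L_ge, h.big.J_ge, log2_bd.2]

lemma sdc_div_le : sdc c.N / c.q ≤ sdc c.N :=
  div_le_self h.big.sdc_pos.le (by linarith [h.big.q_ge, show c.q = pq c.N from rfl])

lemma sdc_le : sdc c.N ≤ Jp c.N (-5 / 2) * qp c.N (-15) := by
  have := h.big.Jp_pos (-5 / 2); have := h.big.qp_pos (-15)
  refine le_of_log h.big.sdc_pos (by positivity) ?_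
  simp (disch := positivity) only [Real.log_mul, h.big.log_Jp, h.big.log_qp, h.big.log_sdc]
  linarith [h.big.L_ge, h.big.J_ge]

lemma sd_bd (i j : Fin 3) : 0 ≤ c.sd i j ∧ c.sd i j ≤ 3 * (Jp c.N (-5 / 2) * qp c.N (-15)) ∧
    (etaS c.N / 40 ≤ c.η → c.sd i j ≤ 2 * (sdc c.N / c.q)) := by
  have p1 := div_pos h.big.sdc_pos h.q_pos
  have := h.two_np_le; have := h.sdc_div_le; have := h.sdc_le
  obtain ⟨s1, s2, s3⟩ := h.sdB_bd i j
  unfold Pm.sd
  split_ifs
  · show 0 ≤ sdc c.N / c.q ∧ sdc c.N / c.q ≤ _ ∧ (_ → sdc c.N / c.q ≤ _)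
    exact ⟨p1.le, by linarith, fun _ => by linarith⟩
  · obtain ⟨b1, b2⟩ := b23_bd p1.le i j
    rw [Matrix.add_apply]
    exact ⟨by linarith, by linarith, fun hη => by linarith [s3 hη]⟩
  · obtain ⟨b1, b2⟩ := b23_bd le_rfl i j
    rw [Matrix.add_apply]
    exact ⟨by linarith, by linarith, fun hη => by linarith [s3 hη]⟩

lemma sdO_bd (i j : Fin 3) : 0 ≤ c.sdO i j ∧ c.sdO i j ≤ 3 * (Jp c.N (-5 / 2) * qp c.N (-15)) ∧
    (etaS c.N / 40 ≤ c.η → c.sdO i j ≤ 2 * sdc c.N) ∧ c.sdL i j ≤ c.sdO i j ∧ 0 ≤ c.sdL i j := by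
  have p1 := h.big.sdc_pos
  have := h.two_np_le; have := h.sdc_div_le; have := h.sdc_le
  obtain ⟨s1, s2, s3⟩ := h.sdB_bd i j
  unfold Pm.sdO Pm.sdL
  split_ifs
  · obtain ⟨b1, b2⟩ := b23_bd p1.le i j
    rw [Matrix.add_apply]
    exact ⟨by linarith, by linarith, fun hη => by linarith [s3 hη], by linarith, s1⟩
  · obtain ⟨b1, b2⟩ := b23_bd le_rfl i j
    rw [Matrix.add_apply]
    exact ⟨by linarith, by linarith, fun hη => by linarith [s3 hη], by linarith, s1⟩
  · show 0 ≤ sdc c.N ∧ sdc c.N ≤ _ ∧ (_ → sdc c.N ≤ _) ∧ sdc c.N ≤ sdc c.N ∧ 0 ≤ sdc c.N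
    exact ⟨p1.le, by linarith, fun _ => by linarith, le_rfl, p1.le⟩

lemma oB_of_oS (hS : c.oS) : c.oB := by
  have h1 : c.η < 8 / 10 * etaA c.N := hS
  have := h.big.etaA_pos
  show c.η < 9 / 10 * etaA c.N
  linarith

lemma notA_of_oB (hB : c.oB) : ¬c.isA := by
  have h1 : c.η < 9 / 10 * etaA c.N := hB
  have := h.big.etaA_pos
  show ¬etaA c.N ≤ c.η
  linarith

lemma e0_bd (i j : Fin 3) : 0 ≤ c.e0 i j ∧ 3 * c.e0 i j ≤ c.eT i j := by
  have p1 := h.big.sdc_pos
  have p2 : 0 < c.q ^ 3 * c.J := mul_pos (pow_pos h.q_pos 3) h.J_pos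
  obtain ⟨s1, -, -⟩ := h.sdB_bd i j
  obtain ⟨-, -, -, o4, -⟩ := h.sdO_bd i j
  unfold Pm.e0 Pm.eT
  simp only [Matrix.smul_apply, smul_eq_mul]
  split_ifs with hS
  · rw [Pm.sdL, if_pos (h.oB_of_oS hS)] at o4
    exact ⟨by positivity, by nlinarith⟩
  · show 0 ≤ _ * sdc c.N ∧ 3 * (_ * sdc c.N) ≤ _ * sdc c.N
    exact ⟨by positivity, by linarith⟩

lemma eT_bd (i j : Fin 3) : 0 ≤ c.eT i j ∧ c.eT i j ≤ Jp c.N (-3 / 2) * qp c.N (-11) ∧
    (etaS c.N / 40 ≤ c.η → c.eT i j ≤ np c.N (-495 / 1000)) := by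
  have p1 := h.big.sdc_pos; have := h.q_pos; have := h.J_pos
  have := h.big.Jp_pos (-5 / 2); have := h.big.qp_pos (-15)
  have := h.big.Jp_pos (-3 / 2); have := h.big.qp_pos (-11)
  have p2 : 0 < 3 * c.q ^ 3 * c.J := by positivity
  have := h.sdc_le
  obtain ⟨o1, o2, o3, -, -⟩ := h.sdO_bd i j
  have k1 : 3 * c.q ^ 3 * c.J * (3 * (Jp c.N (-5 / 2) * qp c.N (-15))) ≤
      Jp c.N (-3 / 2) * qp c.N (-11) := by
    refine le_of_log (by positivity) (by positivity) ?_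
    simp (disch := positivity) only [Real.log_mul, Real.log_pow, h.big.log_Jp, h.big.log_qp,
      h.log_q, h.log_J]
    push_cast; linarith [h.big.L_ge, (logc_bd (show (1 : ℝ) ≤ 3 by norm_num)).2]
  have k2 : 3 * c.q ^ 3 * c.J * (2 * sdc c.N) ≤ np c.N (-495 / 1000) := by
    refine le_of_log (by positivity) (h.big.np_pos _) ?_
    simp (disch := positivity) only [Real.log_mul, Real.log_pow, h.big.log_np, h.big.log_sdc,
      h.log_q, h.log_J]
    push_cast
    linarith [h.big.L_ge, h.big.J_ge, (logc_bd (show (1 : ℝ) ≤ 3 by norm_num)).2, log2_bd.2]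
  unfold Pm.eT
  simp only [Matrix.smul_apply, smul_eq_mul]
  split_ifs with hS
  · exact ⟨by positivity, (mul_le_mul_of_nonneg_left o2 p2.le).trans k1,
      fun hη => (mul_le_mul_of_nonneg_left (o3 hη) p2.le).trans k2⟩
  · show 0 ≤ _ * sdc c.N ∧ _ * sdc c.N ≤ _ ∧ (_ → _ * sdc c.N ≤ _)
    exact ⟨by positivity, (mul_le_mul_of_nonneg_left (by linarith) p2.le).trans k1,
      fun _ => (mul_le_mul_of_nonneg_left (by linarith) p2.le).trans k2⟩

lemma eT_le_nu (hη : etaS c.N / 2 ≤ c.η) : EB c.eT (cm (nu c.N)) := fun i j => by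
  obtain ⟨h1, -, h3⟩ := h.eT_bd i j
  rw [abs_of_nonneg h1]
  exact (h3 (by linarith [h.big.etaS_pos])).trans (h.big.np_le (by norm_num))

lemma e0_le_nu (hη : etaS c.N / 2 ≤ c.η) : EB c.e0 (cm (nu c.N)) := fun i j => by
  obtain ⟨h1, h2⟩ := h.e0_bd i j
  have h3 := h.eT_le_nu hη i j
  rw [abs_of_nonneg h1]
  linarith [le_abs_self (c.eT i j)]

lemma eT_le_zT (i j : Fin 3) : 2 * c.eT i j ≤ c.zT := by
  unfold Pm.zT
  split_ifs with hη
  · have h3 : |c.eT i j| ≤ nu c.N := h.eT_le_nu hη i j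
    linarith [le_abs_self (c.eT i j)]
  · have := h.big.Jp_pos (-3 / 2); have := h.big.qp_pos (-11); have := h.J_pos
    have k : 2 * (Jp c.N (-3 / 2) * qp c.N (-11)) ≤ 1 / √c.J := by
      refine le_of_log (by positivity) (by positivity) ?_
      simp (disch := positivity) only [Real.log_div, Real.log_mul, Real.log_sqrt, Real.log_one,
        h.big.log_Jp, h.big.log_qp, h.log_J]
      linarith [h.big.L_ge, log2_bd.2]
    linarith [(h.eT_bd i j).2.1]

end Gd

end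
end Pool.Agent.MP_20bec2_an.T3

end MrgPart2

-- ======== part 3: formerly Pool.Agent.MP_20bec2_an.T3.Par3
section MrgPart3

/-! Comparison of the parameters of two neighbouring cubes or of two consecutive levels. -/

set_option autoImplicit false
set_option linter.unusedSectionVars false
open Set Filter Real

namespace Pool.Agent.MP_20bec2_an.T3
noncomputable section

lemma abs_log_sub_le {x y d : ℝ} (hx : 0 < x) (hy : 0 < y) (h : |y / x - 1| ≤ d) (hd : d ≤ 1 / 10) :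
    |Real.log y - Real.log x| ≤ 6 / 5 * d := by
  obtain ⟨h1, h2⟩ := abs_le.1 h
  have p := div_pos hy hx
  rw [← Real.log_div hy.ne' hx.ne']
  have h3 := Real.log_le_sub_one_of_pos p
  have h4 := Real.one_sub_inv_le_log_of_pos p
  have h5 : (y / x)⁻¹ ≤ 1 + 6 / 5 * d := by
    rw [inv_le_comm₀ p (by linarith), inv_le_iff_one_le_mul₀ (by linarith)]
    nlinarith
  exact abs_le.2 ⟨by linarith, by linarith⟩

lemma abs_div_sub_one_le {x y e : ℝ} (hx : 0 < x) (hy : 0 < y) (h : |Real.log y - Real.log x| ≤ e)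
    (he : e ≤ 1 / 10) : |y / x - 1| ≤ 10 / 9 * e := by
  obtain ⟨h1, h2⟩ := abs_le.1 h
  have p := div_pos hy hx
  rw [← Real.log_div hy.ne' hx.ne'] at h1 h2
  have h3 := Real.log_le_sub_one_of_pos p
  have h4 := Real.one_sub_inv_le_log_of_pos p
  have h5 : (1 - e) * (y / x) ≤ 1 := by
    rw [← le_div_iff₀ p, one_div]; linarith
  exact abs_le.2 ⟨by linarith, by nlinarith⟩

lemma le_exp_mul_of_log {x y e : ℝ} (hx : 0 < x) (hy : 0 < y) (h : Real.log y ≤ e + Real.log x) :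
    y ≤ Real.exp e * x :=
  le_of_log hy (by positivity) (by rwa [Real.log_mul (Real.exp_pos _).ne' hx.ne', Real.log_exp])

lemma log_add_le_of {a b a' b' e : ℝ} (ha : 0 < a) (hb : 0 < b) (ha' : 0 < a') (hb' : 0 < b')
    (h1 : Real.log a' ≤ e + Real.log a) (h2 : Real.log b' ≤ e + Real.log b) :
    Real.log (a' + b') ≤ e + Real.log (a + b) := by
  have h3 := le_exp_mul_of_log ha ha' h1
  have h4 := le_exp_mul_of_log hb hb' h2
  have h5 := Real.log_le_log (add_pos ha' hb') (show a' + b' ≤ Real.exp e * (a + b) by linarith)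
  rwa [Real.log_mul (Real.exp_pos _).ne' (add_pos ha hb).ne', Real.log_exp] at h5

lemma log_add_cl {a b a' b' k e : ℝ} (ha : 0 < a) (hb : 0 < b) (ha' : 0 < a') (hb' : 0 < b')
    (h1 : |Real.log a' - Real.log a - k| ≤ e) (h2 : |Real.log b' - Real.log b - k| ≤ e) :
    |Real.log (a' + b') - Real.log (a + b) - k| ≤ e := by
  obtain ⟨h3, h4⟩ := abs_le.1 h1
  obtain ⟨h5, h6⟩ := abs_le.1 h2
  have h7 := log_add_le_of (e := k + e) ha hb ha' hb' (by linarith) (by linarith)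
  have h8 := log_add_le_of (e := -k + e) ha' hb' ha hb (by linarith) (by linarith)
  exact abs_le.2 ⟨by linarith, by linarith⟩

lemma max_cl {x a b x' a' b' e : ℝ} (h : a ≤ x ∧ b ≤ x ∧ (x = a ∨ x = b))
    (h' : a' ≤ x' ∧ b' ≤ x' ∧ (x' = a' ∨ x' = b')) (ha : |a' - a| ≤ e) (hb : |b' - b| ≤ e) :
    |x' - x| ≤ e := by
  obtain ⟨h1, h2, h3⟩ := h
  obtain ⟨h4, h5, h6⟩ := h'
  obtain ⟨h7, h8⟩ := abs_le.1 ha
  obtain ⟨h9, h10⟩ := abs_le.1 hb
  rcases h3 with h3 | h3 <;> rcases h6 with h6 | h6 <;> exact abs_le.2 ⟨by linarith, by linarith⟩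

lemma min_cl {x a b x' a' b' e : ℝ} (h : x ≤ a ∧ x ≤ b ∧ (x = a ∨ x = b))
    (h' : x' ≤ a' ∧ x' ≤ b' ∧ (x' = a' ∨ x' = b')) (ha : |a' - a| ≤ e) (hb : |b' - b| ≤ e) :
    |x' - x| ≤ e := by
  obtain ⟨h1, h2, h3⟩ := h
  obtain ⟨h4, h5, h6⟩ := h'
  obtain ⟨h7, h8⟩ := abs_le.1 ha
  obtain ⟨h9, h10⟩ := abs_le.1 hb
  rcases h3 with h3 | h3 <;> rcases h6 with h6 | h6 <;> exact abs_le.2 ⟨by linarith, by linarith⟩

lemma rmp_mem (a e : ℝ) : 0 ≤ rmp a e ∧ rmp a e ≤ 1 :=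
  ⟨le_min zero_le_one (le_max_left _ _), min_le_left _ _⟩

lemma rmp_cl {a e a' e' : ℝ} :
    |rmp a' e' - rmp a e| ≤ |Real.log (a' / e') - Real.log (a / e)| := by
  unfold rmp
  refine (abs_min_sub_min_le_max _ _ _ _).trans (max_le (by simp) ?_)
  exact (abs_max_sub_max_le_max _ _ _ _).trans (max_le (by simp) le_rfl)

/-- two close sets of parameters -/
structure Cp (d : ℝ) (c c' : Pm) : Prop where
  g : Gd c
  g' : Gd c'
  hd : d ≤ 1 / (c.q ^ 2 * pR c.N)
  s1 : |c'.s1 / c.s1 - 1| ≤ d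
  s2 : |c'.s2 / c.s2 - 1| ≤ d
  n1 : c.N ≤ c'.N
  n2 : (c'.N : ℝ) ≤ c.N + c.J

/-- the size of all logarithmic changes -/
def cpe (d : ℝ) (c c' : Pm) : ℝ := 3 * pR c.N * d + 35 * (((c'.N : ℝ) - c.N) / c.N)

namespace Cp

variable {d : ℝ} {c c' : Pm} (h : Cp d c c')
include h

lemma d_nonneg : 0 ≤ d := (abs_nonneg _).trans h.s1

lemma Rd_le : pR c.N * d ≤ 1 / c.q ^ 2 := by
  have h1 := h.hd
  have := h.g.q_pos; have := h.g.big.R_pos
  rw [le_div_iff₀ (by positivity)] at h1 ⊢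
  linarith

lemma q_inv : 1 / c.q ^ 2 ≤ 1 / c.q / 10000000 ∧ 1 / c.q ≤ 1 / 10000000 := by
  have h1 : 10000000 ≤ c.q := h.g.big.q_ge
  constructor
  · rw [div_div]; exact one_div_le_one_div_of_le (by positivity) (by nlinarith)
  · exact one_div_le_one_div_of_le (by norm_num) h1

lemma dN_bd : 0 ≤ ((c'.N : ℝ) - c.N) / c.N ∧ ((c'.N : ℝ) - c.N) / c.N ≤ c.J / c.N :=
  ⟨div_nonneg (sub_nonneg.2 (Nat.cast_le.2 h.n1)) h.g.N_pos.le,
    div_le_div_of_nonneg_right (by linarith [h.n2]) h.g.N_pos.le⟩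

lemma JN_le : 1000 * c.J * (c.J / c.N) ≤ 1 / c.q ^ 2 := by
  have := h.g.J_pos; have := h.g.q_pos; have := h.g.N_pos
  refine le_of_log (by positivity) (by positivity) ?_
  simp (disch := positivity) only [Real.log_div, Real.log_mul, Real.log_pow, Real.log_one,
    h.g.log_q, h.g.log_J, h.g.big.log_N]
  push_cast
  linarith [h.g.big.L_ge, h.g.big.J_ge, (logc_bd (show (1 : ℝ) ≤ 1000 by norm_num)).2]

lemma J_ge : 1000000000 ≤ c.J := by
  have : c.J = pJ c.N := rfl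
  linarith [h.g.big.L_ge, h.g.big.J_ge]

lemma cpe_nonneg : 0 ≤ cpe d c c' := by
  have := h.d_nonneg; have := h.g.big.R_pos; have := h.dN_bd.1
  unfold cpe; positivity

lemma cpe_le' : cpe d c c' ≤ 3 * pR c.N * d + 35 * (c.J / c.N) := by
  unfold cpe; linarith [h.dN_bd.2]

lemma cpe_le : cpe d c c' ≤ 4 / c.q ^ 2 := by
  have h1 := h.JN_le
  have h2 := div_pos h.g.J_pos h.g.N_pos
  have h3 : 4 / c.q ^ 2 = 4 * (1 / c.q ^ 2) := by ring
  nlinarith [h.cpe_le', h.Rd_le, h.J_ge]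

lemma cpe_le_q : 1000 * cpe d c c' ≤ 1 / c.q := by
  have h3 : 4 / c.q ^ 2 = 4 * (1 / c.q ^ 2) := by ring
  have := one_div_pos.2 h.g.q_pos
  linarith [h.cpe_le, h.q_inv.1]

lemma d_le : 30 * d ≤ cpe d c c' := by
  unfold cpe
  nlinarith [h.g.big.R_ge, h.d_nonneg, h.dN_bd.1]

lemma dJ : 0 ≤ pJ c'.N - pJ c.N ∧ pJ c'.N - pJ c.N ≤ ((c'.N : ℝ) - c.N) / c.N := by
  have p := h.g.N_pos; have p' := h.g'.N_pos
  have h1 := Real.log_le_sub_one_of_pos (div_pos p' p)
  rw [Real.log_div p'.ne' p.ne'] at h1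
  refine ⟨sub_nonneg.2 (Real.log_le_log p (Nat.cast_le.2 h.n1)), ?_⟩
  rw [sub_div, div_self p.ne']; exact h1

lemma dL : 0 ≤ pL c'.N - pL c.N ∧ pJ c.N * (pL c'.N - pL c.N) ≤ pJ c'.N - pJ c.N := by
  have p := h.g.big.J_pos; have p' := h.g'.big.J_pos
  have h1 := Real.log_le_sub_one_of_pos (div_pos p' p)
  rw [Real.log_div p'.ne' p.ne'] at h1
  refine ⟨sub_nonneg.2 (Real.log_le_log p (by linarith [h.dJ.1])), ?_⟩
  have h2 := mul_le_mul_of_nonneg_left h1 p.le
  rwa [mul_sub (pJ c.N) (_ / _), mul_div_cancel₀ _ p.ne', mul_one] at h2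

lemma dJ_le : 35 * (pJ c'.N - pJ c.N) ≤ cpe d c c' := by
  have := h.d_nonneg; have := h.g.big.R_pos
  have : 0 ≤ 3 * pR c.N * d := by positivity
  unfold cpe; linarith [h.dJ.2]

lemma dL_le : 1000 * (pL c'.N - pL c.N) ≤ cpe d c c' := by
  have : c.J = pJ c.N := rfl
  nlinarith [h.dL.1, h.dL.2, h.dJ_le, h.J_ge, h.dJ.1]

lemma cl_s : |Real.log c'.s1 - Real.log c.s1| ≤ 6 / 5 * d ∧
    |Real.log c'.s2 - Real.log c.s2| ≤ 6 / 5 * d := by
  have hd : d ≤ 1 / 10 := by linarith [h.d_le, h.cpe_le_q, h.q_inv.2]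
  exact ⟨abs_log_sub_le h.g.s1_pos h.g'.s1_pos h.s1 hd, abs_log_sub_le h.g.s2_pos h.g'.s2_pos h.s2 hd⟩

lemma cl_K : |Real.log c'.K - Real.log c.K| ≤ 12 / 5 * d := by
  obtain ⟨h1, h2⟩ := abs_le.1 h.cl_s.1
  obtain ⟨h3, h4⟩ := abs_le.1 h.cl_s.2
  rw [h.g.log_K, h.g'.log_K]
  exact abs_le.2 ⟨by linarith, by linarith⟩

lemma cl_n12 : |Real.log c'.n12 - Real.log c.n12| ≤ 12 / 5 * d := by
  obtain ⟨h1, h2⟩ := abs_le.1 h.cl_s.1
  obtain ⟨h3, h4⟩ := abs_le.1 h.cl_s.2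
  rw [h.g.log_n12, h.g'.log_n12]
  exact abs_le.2 ⟨by linarith, by linarith⟩

lemma cl_t : |c'.t - c.t| ≤ 12 / 5 * d + 15 / 4 * (pL c'.N - pL c.N) := by
  obtain ⟨h1, h2⟩ := abs_le.1 h.cl_K
  rw [h.g.t_eq, h.g'.t_eq]
  exact abs_le.2 ⟨by linarith [h.dL.1], by linarith [h.dL.1]⟩

lemma cl_η : |Real.log c'.η - Real.log c.η| ≤ cpe d c c' := by
  have hR := h.g.big.R_ge
  have e : pR c.N = 4 * pJ c.N := rfl
  have e' : pR c'.N = 4 * pJ c'.N := rfl
  obtain ⟨h1, h2⟩ := abs_le.1 (log_eta_R (R' := pR c'.N) (t := c'.t) hR (by linarith [h.dJ.1])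
    (by linarith [h.g'.t_le]))
  have h3 := log_eta_shift hR c.t c'.t
  have h4 := log_eta_shift hR c'.t c.t
  rw [abs_sub_comm] at h4
  have h5 := mul_le_mul_of_nonneg_left h.cl_t h.g.big.R_pos.le
  have h6 : pR c.N * (pL c'.N - pL c.N) ≤ 4 * (pJ c'.N - pJ c.N) := by
    rw [e]; linarith [h.dL.2]
  have h7 := mul_nonneg h.g.big.R_pos.le h.d_nonneg
  have := h.dJ.2
  unfold Pm.η cpe
  exact abs_le.2 ⟨by linarith, by linarith⟩

/-- from logarithms to ratios -/
lemma ratio {x y : ℝ} (hx : 0 < x) (hy : 0 < y) (hl : |Real.log y - Real.log x| ≤ 100 * cpe d c c') :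
    |y / x - 1| ≤ 1 / c.q ∧ y ≤ (1 + 1 / c.q) * x ∧ x ≤ (1 + 1 / c.q) * y ∧
      y ≤ 2 * x ∧ x ≤ 2 * y := by
  have h1 := h.cpe_le_q; have h2 := h.q_inv.2; have h0 := h.cpe_nonneg
  have h3 := abs_div_sub_one_le hx hy hl (by linarith)
  have h4 := abs_div_sub_one_le hy hx ((abs_sub_comm _ _).trans_le hl) (by linarith)
  have h5 : y ≤ (1 + 1 / c.q) * x := by
    rw [← div_le_iff₀ hx]; linarith [(abs_le.1 h3).2]
  have h6 : x ≤ (1 + 1 / c.q) * y := by
    rw [← div_le_iff₀ hy]; linarith [(abs_le.1 h4).2]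
  exact ⟨by linarith, h5, h6, by nlinarith, by nlinarith⟩

lemma η_ratio : |c'.η / c.η - 1| ≤ 4 * pR c.N * d + 40 * (((c'.N : ℝ) - c.N) / c.N) := by
  have h1 := abs_div_sub_one_le h.g.η_pos h.g'.η_pos h.cl_η
    (by linarith [h.cpe_le_q, h.q_inv.2])
  have h7 := mul_nonneg h.g.big.R_pos.le h.d_nonneg
  unfold cpe at h1
  linarith [h.dN_bd.1]

lemma η_ratio' : |c'.η / c.η - 1| ≤ 30 * pR c.N * d + 50 * (c.J / c.N) := by
  have h7 := mul_nonneg h.g.big.R_pos.le h.d_nonneg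
  linarith [h.η_ratio, h.dN_bd.1, h.dN_bd.2]

lemma η_sub : |c'.η - c.η| ≤ 2 * cpe d c c' * c.η := by
  have h1 := abs_div_sub_one_le h.g.η_pos h.g'.η_pos h.cl_η
    (by linarith [h.cpe_le_q, h.q_inv.2])
  have p := h.g.η_pos
  rw [div_sub_one p.ne', abs_div, abs_of_pos p, div_le_iff₀ p] at h1
  nlinarith [h.cpe_nonneg]

lemma cl_two_sub : |Real.log (2 - c'.η) - Real.log (2 - c.η)| ≤ 3 * cpe d c c' := by
  have p := h.g.two_sub_pos
  have h0 := h.cpe_nonneg
  have h1 : |(2 - c'.η) / (2 - c.η) - 1| ≤ 2 * cpe d c c' := by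
    rw [div_sub_one p.ne', abs_div, abs_of_pos p, div_le_iff₀ p,
      show 2 - c'.η - (2 - c.η) = -(c'.η - c.η) by ring, abs_neg]
    nlinarith [h.η_sub, h.g.η_le_one]
  linarith [abs_log_sub_le p h.g'.two_sub_pos h1 (by linarith [h.cpe_le_q, h.q_inv.2])]

lemma cl_e4 : |Real.log c'.e4 - Real.log c.e4| ≤ cpe d c c' :=
  max_cl h.g.log_e4 h.g'.log_e4 h.cl_η (abs_le.2
    ⟨by linarith [h.dL.1, h.dJ_le, h.cpe_nonneg], by linarith [h.dL_le, h.dJ.1, h.cpe_nonneg]⟩)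

lemma cl_m : |Real.log c'.m - Real.log c.m| ≤ 12 / 5 * d :=
  max_cl h.g.log_m h.g'.log_m (by simp only [sub_self, abs_zero]; linarith [h.d_nonneg])
    (by rw [sub_sub_sub_cancel_right]; exact h.cl_K)

lemma cl_mu : |Real.log c'.mu - Real.log c.mu| ≤ 2 * cpe d c c' := by
  obtain ⟨h1, h2⟩ := abs_le.1 h.cl_η
  exact min_cl h.g.log_mu h.g'.log_mu (by simp only [sub_self, abs_zero]; linarith) (abs_le.2
    ⟨by linarith [h.dL.1], by linarith [h.dL_le]⟩)

lemma cl_gb : |Real.log c'.gb - Real.log c.gb| ≤ 2 * cpe d c c' := by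
  obtain ⟨h1, h2⟩ := abs_le.1 h.cl_η
  exact min_cl h.g.log_gb h.g'.log_gb (abs_le.2 ⟨by linarith [h.dL_le], by linarith [h.dL.1]⟩)
    (abs_le.2 ⟨by linarith [h.dL.1, h.dJ_le], by linarith [h.dL_le, h.dJ.1]⟩)

lemma cl_main : |Real.log c'.ro - Real.log c.ro| ≤ cpe d c c' ∧
    |Real.log c'.dB - Real.log c.dB| ≤ cpe d c c' ∧
    |Real.log c'.t1B - Real.log c.t1B| ≤ cpe d c c' ∧
    |Real.log c'.pf - Real.log c.pf| ≤ cpe d c c' ∧
    |Real.log c'.c1 - Real.log c.c1| ≤ cpe d c c' ∧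
    |Real.log c'.c2 - Real.log c.c2| ≤ cpe d c c' ∧
    |Real.log c'.η0 - Real.log c.η0| ≤ 4 * cpe d c c' := by
  obtain ⟨h1, h2⟩ := abs_le.1 h.cl_η
  obtain ⟨h3, h4⟩ := abs_le.1 h.cl_e4
  obtain ⟨h5, h6⟩ := abs_le.1 h.cl_m
  obtain ⟨h7, h8⟩ := abs_le.1 h.cl_s.1
  obtain ⟨h9, h10⟩ := abs_le.1 h.cl_s.2
  obtain ⟨h11, h12⟩ := abs_le.1 h.cl_two_sub
  have := h.d_le; have := h.dJ.1; have := h.dJ_le; have := h.dL.1; have := h.dL_le
  rw [h.g.log_ro, h.g'.log_ro, h.g.log_dB, h.g'.log_dB, h.g.log_t1B, h.g'.log_t1B, h.g.log_pf,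
    h.g'.log_pf, h.g.log_c1, h.g'.log_c1, h.g.log_c2, h.g'.log_c2, h.g.log_η0, h.g'.log_η0]
  refine ⟨?_, ?_, ?_, ?_, ?_, ?_, ?_⟩ <;> exact abs_le.2 ⟨by linarith, by linarith⟩

lemma cl_ro : |Real.log c'.ro - Real.log c.ro| ≤ cpe d c c' := h.cl_main.1
lemma cl_dB : |Real.log c'.dB - Real.log c.dB| ≤ cpe d c c' := h.cl_main.2.1
lemma cl_t1B : |Real.log c'.t1B - Real.log c.t1B| ≤ cpe d c c' := h.cl_main.2.2.1
lemma cl_pf : |Real.log c'.pf - Real.log c.pf| ≤ cpe d c c' := h.cl_main.2.2.2.1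
lemma cl_c1 : |Real.log c'.c1 - Real.log c.c1| ≤ cpe d c c' := h.cl_main.2.2.2.2.1
lemma cl_c2 : |Real.log c'.c2 - Real.log c.c2| ≤ cpe d c c' := h.cl_main.2.2.2.2.2.1
lemma cl_η0 : |Real.log c'.η0 - Real.log c.η0| ≤ 4 * cpe d c c' := h.cl_main.2.2.2.2.2.2

lemma cl_p : |Real.log c'.p - Real.log c.p| ≤ 2 * cpe d c c' := by
  obtain ⟨h1, h2⟩ := abs_le.1 h.cl_η
  exact min_cl h.g.log_p h.g'.log_p (h.cl_pf.trans (by linarith))
    (abs_le.2 ⟨by linarith [h.dL.1, h.dJ_le], by linarith [h.dL_le, h.dJ.1]⟩)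

/-- ratios of the parameters that do not depend on a flag; use as `h.ratios Pm.ro (by simp)` -/
lemma ratios : ∀ X ∈ [Pm.s1, Pm.s2, Pm.K, Pm.n12, Pm.η, Pm.η0, Pm.e4, Pm.m, Pm.ro, Pm.mu, Pm.dB,
      Pm.t1B, Pm.pf, Pm.p, Pm.gb, Pm.c1, Pm.c2, Pm.J, Pm.q],
    |X c' / X c - 1| ≤ 1 / c.q ∧ X c' ≤ (1 + 1 / c.q) * X c ∧ X c ≤ (1 + 1 / c.q) * X c' ∧
      X c' ≤ 2 * X c ∧ X c ≤ 2 * X c' := by
  have h0 := h.cpe_nonneg; have h1 := h.d_le; have := h.dL.1; have := h.dL_le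
  simp only [List.forall_mem_cons, List.not_mem_nil, false_imp_iff, implies_true, and_true]
  exact ⟨h.ratio h.g.s1_pos h.g'.s1_pos (by linarith [h.cl_s.1]),
    h.ratio h.g.s2_pos h.g'.s2_pos (by linarith [h.cl_s.2]),
    h.ratio h.g.K_pos h.g'.K_pos (by linarith [h.cl_K]),
    h.ratio h.g.n12_pos h.g'.n12_pos (by linarith [h.cl_n12]),
    h.ratio h.g.η_pos h.g'.η_pos (by linarith [h.cl_η]),
    h.ratio h.g.η0_pos h.g'.η0_pos (by linarith [h.cl_η0]),
    h.ratio h.g.e4_pos h.g'.e4_pos (by linarith [h.cl_e4]),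
    h.ratio h.g.m_pos h.g'.m_pos (by linarith [h.cl_m]),
    h.ratio h.g.ro_pos h.g'.ro_pos (by linarith [h.cl_ro]),
    h.ratio h.g.mu_pos h.g'.mu_pos (by linarith [h.cl_mu]),
    h.ratio h.g.dB_pos h.g'.dB_pos (by linarith [h.cl_dB]),
    h.ratio h.g.t1B_pos h.g'.t1B_pos (by linarith [h.cl_t1B]),
    h.ratio h.g.pf_pos h.g'.pf_pos (by linarith [h.cl_pf]),
    h.ratio h.g.p_pos h.g'.p_pos (by linarith [h.cl_p]),
    h.ratio h.g.gb_pos h.g'.gb_pos (by linarith [h.cl_gb]),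
    h.ratio h.g.c1_pos h.g'.c1_pos (by linarith [h.cl_c1]),
    h.ratio h.g.c2_pos h.g'.c2_pos (by linarith [h.cl_c2]),
    h.ratio h.g.J_pos h.g'.J_pos (by
      rw [h.g.log_J, h.g'.log_J]; exact abs_le.2 ⟨by linarith, by linarith⟩),
    h.ratio h.g.q_pos h.g'.q_pos (by
      rw [h.g.log_q, h.g'.log_q]; exact abs_le.2 ⟨by linarith, by linarith⟩)⟩

/-- monomials of the two levels -/
lemma cl_mono (a b e : ℝ) : |(a * pJ c'.N + b * pL c'.N + e) - (a * pJ c.N + b * pL c.N + e)| ≤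
    (|a| + |b|) * (cpe d c c' / 35) := by
  have h1 : |a * (pJ c'.N - pJ c.N)| ≤ |a| * (cpe d c c' / 35) := by
    rw [abs_mul, abs_of_nonneg h.dJ.1]
    exact mul_le_mul_of_nonneg_left (by linarith [h.dJ_le]) (abs_nonneg _)
  have h2 : |b * (pL c'.N - pL c.N)| ≤ |b| * (cpe d c c' / 35) := by
    rw [abs_mul, abs_of_nonneg h.dL.1]
    exact mul_le_mul_of_nonneg_left (by linarith [h.dL_le, h.cpe_nonneg]) (abs_nonneg _)
  obtain ⟨h3, h4⟩ := abs_le.1 h1
  obtain ⟨h5, h6⟩ := abs_le.1 h2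
  exact abs_le.2 ⟨by linarith, by linarith⟩

/-! ### the energy tables -/

lemma cl_np {a b r r' : ℝ} (ha : |a| ≤ 1) (hb : 0 ≤ b) (hb' : b ≤ 46 / 10) (hr : 0 ≤ r' ∧ r' ≤ 1)
    (hrr : |r' - r| ≤ 101 / 100 * cpe d c c') :
    |Real.log (np c'.N (a - b * r')) - Real.log (np c.N (a - b * r))| ≤ 5 * c.J * cpe d c c' := by
  rw [h.g.big.log_np, h.g'.big.log_np]
  have e : c.J = pJ c.N := rfl
  have h0 := h.cpe_nonneg; have hJ := h.J_ge
  have h1 : |(a - b * r') * (pJ c'.N - pJ c.N)| ≤ 6 * (cpe d c c' / 35) := by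
    rw [abs_mul, abs_of_nonneg h.dJ.1]
    obtain ⟨a1, a2⟩ := abs_le.1 ha
    refine mul_le_mul (abs_le.2 ⟨by nlinarith [hr.1, hr.2], by nlinarith [hr.1, hr.2]⟩)
      (by linarith [h.dJ_le]) h.dJ.1 (by norm_num)
  have h2 : |b * (r' - r) * c.J| ≤ 46 / 10 * (101 / 100 * cpe d c c') * c.J := by
    rw [abs_mul, abs_mul, abs_of_nonneg hb, abs_of_pos h.g.J_pos]
    exact mul_le_mul_of_nonneg_right (mul_le_mul hb' hrr (abs_nonneg _) (by norm_num)) h.g.J_pos.le
  obtain ⟨h3, h4⟩ := abs_le.1 h1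
  obtain ⟨h5, h6⟩ := abs_le.1 h2
  have h7 : 1000000000 * cpe d c c' ≤ c.J * cpe d c c' := mul_le_mul_of_nonneg_right hJ h0
  rw [← e] at *
  exact abs_le.2 ⟨by linarith, by linarith⟩

lemma cl_rmp {a a' : ℝ} (ha : 0 < a) (ha' : 0 < a')
    (e : Real.log a' - Real.log a = -(8 * (pL c'.N - pL c.N))) :
    |rmp a' c'.η - rmp a c.η| ≤ 101 / 100 * cpe d c c' := by
  refine rmp_cl.trans ?_
  obtain ⟨h1, h2⟩ := abs_le.1 h.cl_η
  rw [Real.log_div ha.ne' h.g.η_pos.ne', Real.log_div ha'.ne' h.g'.η_pos.ne']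
  exact abs_le.2 ⟨by linarith [h.dL_le], by linarith [h.dL.1]⟩

lemma cl_thr (hs : c.k < kbo c.N ↔ c'.k < kbo c'.N) :
    Real.log (c'.thr / 2) - Real.log (c.thr / 2) = -(8 * (pL c'.N - pL c.N)) := by
  have := h.g.big.etaS_pos; have := h.g'.big.etaS_pos
  unfold Pm.thr
  by_cases hk : c.k < kbo c.N
  · rw [if_pos hk, if_pos (hs.1 hk)]
    simp (disch := positivity) only [Real.log_div, Real.log_mul, h.g.big.log_etaS,
      h.g'.big.log_etaS]
    ring
  · rw [if_neg hk, if_neg fun h' => hk (hs.2 h')]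
    simp (disch := positivity) only [Real.log_div, h.g.big.log_etaS, h.g'.big.log_etaS]
    ring

lemma cl_eHi : |Real.log c'.eHi - Real.log c.eHi| ≤ 5 * c.J * cpe d c c' := by
  have := h.g.big.etaS_pos; have := h.g'.big.etaS_pos
  refine h.cl_np (by norm_num [abs_le]) (by norm_num) (by norm_num) (rmp_mem _ _)
    (h.cl_rmp (by positivity) (by positivity) ?_)
  simp (disch := positivity) only [Real.log_div, h.g.big.log_etaS, h.g'.big.log_etaS]
  ring

lemma cl_eLo (hs : c.k < kbo c.N ↔ c'.k < kbo c'.N) :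
    |Real.log c'.eLo - Real.log c.eLo| ≤ 5 * c.J * cpe d c c' :=
  h.cl_np (by norm_num [abs_le]) (by norm_num) (by norm_num) (rmp_mem _ _)
    (h.cl_rmp (half_pos h.g.thr_pos) (half_pos h.g'.thr_pos) (h.cl_thr hs))

lemma cl_eL (hk : c'.k = c.k) (hs : c.k < kbo c.N ↔ c'.k < kbo c'.N) :
    |Real.log c'.eL - Real.log c.eL| ≤ 5 * c.J * cpe d c c' := by
  have p : (0 : ℝ) < (6 / 10) ^ c.k := by positivity
  have h1 := log_add_cl (k := 0) (e := 5 * c.J * cpe d c c') (mul_pos h.g.eHi_pos p) h.g.eLo_pos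
    (mul_pos h.g'.eHi_pos p) h.g'.eLo_pos (by
      rw [Real.log_mul h.g.eHi_pos.ne' p.ne', Real.log_mul h.g'.eHi_pos.ne' p.ne', sub_zero,
        add_sub_add_right_eq_sub]; exact h.cl_eHi) (by rw [sub_zero]; exact h.cl_eLo hs)
  rw [sub_zero] at h1
  unfold Pm.eL
  rw [hk]; exact h1

lemma cl_eS (hk : c'.k = c.k) (hs : c.k < kbo c.N ↔ c'.k < kbo c'.N) :
    |Real.log c'.eS - Real.log c.eS| ≤ 6 * c.J * cpe d c c' := by
  have h0 := h.cpe_nonneg
  have h7 : 1000000000 * cpe d c c' ≤ c.J * cpe d c c' := mul_le_mul_of_nonneg_right h.J_ge h0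
  have h2 := h.cl_np (a := -465 / 1000) (b := 46 / 10) (by norm_num [abs_le]) (by norm_num) le_rfl
    (rmp_mem _ _) (h.cl_rmp (half_pos h.g.thr_pos) (half_pos h.g'.thr_pos) (h.cl_thr hs))
  obtain ⟨h3, h4⟩ := abs_le.1 (h.cl_eL hk hs)
  have h1 := log_add_cl (k := 0) (e := 6 * c.J * cpe d c c') (h.g.big.np_pos _)
    (mul_pos (h.g.big.np_pos (-2 / 100)) h.g.eL_pos) (h.g'.big.np_pos _)
    (mul_pos (h.g'.big.np_pos (-2 / 100)) h.g'.eL_pos) (by rw [sub_zero]; exact h2.trans (by linarith))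
    (by
      rw [Real.log_mul (h.g.big.np_pos _).ne' h.g.eL_pos.ne',
        Real.log_mul (h.g'.big.np_pos _).ne' h.g'.eL_pos.ne', h.g.big.log_np, h.g'.big.log_np]
      exact abs_le.2 ⟨by linarith [h.dJ_le], by linarith [h.dJ.1]⟩)
  rw [sub_zero] at h1
  exact h1

/-- in general the energy tables change by a tiny power of `N` -/
lemma ratio_np {x y : ℝ} (hx : 0 < x) (hy : 0 < y)
    (hl : |Real.log y - Real.log x| ≤ 6 * c.J * cpe d c c') :
    y ≤ np c.N (1 / 10000) * x ∧ x ≤ np c.N (1 / 10000) * y := by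
  obtain ⟨h1, h2⟩ := abs_le.1 hl
  have p := h.g.big.np_pos (1 / 10000)
  have e : c.J = pJ c.N := rfl
  have h3 : c.J * cpe d c c' ≤ c.J * (1 / 1000000) :=
    mul_le_mul_of_nonneg_left (by linarith [h.cpe_le_q, h.q_inv.2]) h.g.J_pos.le
  have := h.g.J_pos
  constructor
  · refine le_of_log hy (mul_pos p hx) ?_
    rw [Real.log_mul p.ne' hx.ne', h.g.big.log_np]; linarith
  · refine le_of_log hx (mul_pos p hy) ?_
    rw [Real.log_mul p.ne' hy.ne', h.g.big.log_np]; linarith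

/-- for `d ≤ 1 / (200 J²)` they change by a factor 2 -/
lemma ratio_two (hd : d ≤ 1 / (200 * c.J ^ 2)) {x y : ℝ} (hx : 0 < x) (hy : 0 < y)
    (hl : |Real.log y - Real.log x| ≤ 6 * c.J * cpe d c c') : y ≤ 2 * x ∧ x ≤ 2 * y := by
  obtain ⟨h1, h2⟩ := abs_le.1 hl
  have hJ := h.g.J_pos
  have e : pR c.N = 4 * c.J := rfl
  rw [le_div_iff₀ (by positivity)] at hd
  have h3 := mul_le_mul_of_nonneg_left h.cpe_le' hJ.le
  rw [e] at h3
  have h4 := h.JN_le; have h5 := h.q_inv.1; have h6 := h.q_inv.2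
  have h7 : 6 * c.J * cpe d c c' ≤ Real.log 2 := by nlinarith [log2_bd.1]
  constructor
  · refine le_of_log hy (by positivity) ?_
    rw [Real.log_mul two_ne_zero hx.ne']; linarith
  · refine le_of_log hx (by positivity) ?_
    rw [Real.log_mul two_ne_zero hy.ne']; linarith

/-! ### parameters with agreeing flags -/

lemma cl_flagA (hA : c.isA ↔ c'.isA) : |Real.log c'.dl - Real.log c.dl| ≤ 2 * cpe d c c' ∧
    |Real.log c'.s21 - Real.log c.s21| ≤ cpe d c c' / 35 ∧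
    |Real.log c'.t1 - Real.log c.t1| ≤ cpe d c c' ∧
    |Real.log c'.bb - Real.log c.bb| ≤ cpe d c c' / 35 := by
  obtain ⟨h1, h2⟩ := abs_le.1 h.cl_η
  obtain ⟨h3, h4⟩ := abs_le.1 h.cl_e4
  obtain ⟨h5, h6⟩ := abs_le.1 h.cl_mu
  have := h.dJ.1; have := h.dJ_le; have := h.dL.1; have := h.dL_le
  by_cases a : c.isA
  · obtain ⟨a1, a2, a3, a4, -, -⟩ := h.g.log_A a
    obtain ⟨b1, b2, b3, b4, -, -⟩ := h.g'.log_A (hA.1 a)
    refine ⟨?_, ?_, ?_, ?_⟩ <;> exact abs_le.2 ⟨by linarith, by linarith⟩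
  · obtain ⟨a1, a2, a3, a4, -, -⟩ := h.g.log_B a
    obtain ⟨b1, b2, b3, b4, -, -⟩ := h.g'.log_B fun h' => a (hA.2 h')
    refine ⟨?_, ?_, ?_, ?_⟩ <;> exact abs_le.2 ⟨by linarith, by linarith⟩

lemma cl_flagB (hA : c.isA ↔ c'.isA) (hb : c.boost ↔ c'.boost) :
    |Real.log c'.dl' - Real.log c.dl'| ≤ 3 * cpe d c c' ∧
    |Real.log c'.t2 - Real.log c.t2| ≤ cpe d c c' / 35 := by
  obtain ⟨h1, h2⟩ := abs_le.1 (h.cl_flagA hA).1
  obtain ⟨h3, h4⟩ := abs_le.1 (h.cl_flagA hA).2.1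
  have := h.dJ.1; have := h.dJ_le; have := h.dL.1; have := h.dL_le
  by_cases a : c.boost
  · obtain ⟨a1, a2, -⟩ := h.g.log_bst a
    obtain ⟨b1, b2, -⟩ := h.g'.log_bst (hb.1 a)
    constructor <;> exact abs_le.2 ⟨by linarith, by linarith⟩
  · obtain ⟨a1, a2⟩ := h.g.log_nbst a
    obtain ⟨b1, b2⟩ := h.g'.log_nbst fun h' => a (hb.2 h')
    constructor <;> exact abs_le.2 ⟨by linarith, by linarith⟩

lemma cl_GG (hA : c.isA ↔ c'.isA) :
    |Real.log c'.GG - Real.log c.GG - (Real.log c'.lam - Real.log c.lam)| ≤ 3 * cpe d c c' := by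
  have e : ∀ {c : Pm}, Gd c → Real.log c.GG = (Real.log c.bb - pJ c.N -
      Real.log ((c.c1 / c.l1) ^ 2 + (c.c2 / c.lam) ^ 2)) / 2 + Real.log c.n12 ∧
      Real.log ((c.c1 / c.l1) ^ 2) = 2 * (Real.log c.c1 - Real.log c.ro - Real.log c.lam) ∧
      Real.log ((c.c2 / c.lam) ^ 2) = 2 * (Real.log c.c2 - Real.log c.lam) := fun {c} g => by
    have := g.bb_pos; have := g.N_pos; have := g.c1_pos; have := g.l1_pos; have := g.c2_pos
    have := g.lam_pos; have := g.n12_pos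
    unfold Pm.GG
    simp (disch := positivity) only [Real.log_div, Real.log_mul, Real.log_sqrt, Real.log_pow,
      g.big.log_N, g.log_l1, true_and]
    push_cast
    constructor <;> ring
  obtain ⟨a1, a2, a3⟩ := e h.g
  obtain ⟨b1, b2, b3⟩ := e h.g'
  obtain ⟨h1, h2⟩ := abs_le.1 h.cl_c1
  obtain ⟨h3, h4⟩ := abs_le.1 h.cl_c2
  obtain ⟨h5, h6⟩ := abs_le.1 h.cl_ro
  obtain ⟨h7, h8⟩ := abs_le.1 h.cl_n12
  obtain ⟨h9, h10⟩ := abs_le.1 (h.cl_flagA hA).2.2.2
  obtain ⟨h11, h12⟩ := abs_le.1 (log_add_cl (k := -(2 * (Real.log c'.lam - Real.log c.lam)))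
    (e := 4 * cpe d c c') (pow_pos (div_pos h.g.c1_pos h.g.l1_pos) 2)
    (pow_pos (div_pos h.g.c2_pos h.g.lam_pos) 2) (pow_pos (div_pos h.g'.c1_pos h.g'.l1_pos) 2)
    (pow_pos (div_pos h.g'.c2_pos h.g'.lam_pos) 2) (abs_le.2 ⟨by linarith, by linarith⟩)
    (abs_le.2 ⟨by linarith, by linarith⟩))
  have := h.dJ.1; have := h.dJ_le; have := h.d_le
  exact abs_le.2 ⟨by linarith, by linarith⟩

/-- lengths with agreeing flags, relative to `lam` -/
lemma cl_len (hA : c.isA ↔ c'.isA) (hb : c.boost ↔ c'.boost) :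
    ∀ X ∈ [Pm.l1, Pm.lA, Pm.W10, Pm.W20, Pm.H0, Pm.Hp, Pm.W11, Pm.W21, Pm.H1, Pm.GG, Pm.GH, Pm.Ug0,
      Pm.Ug1],
    |Real.log (X c') - Real.log (X c) - (Real.log c'.lam - Real.log c.lam)| ≤ 10 * cpe d c c' := by
  obtain ⟨h1, h2⟩ := abs_le.1 h.cl_η
  obtain ⟨h3, h4⟩ := abs_le.1 h.cl_ro
  obtain ⟨h5, h6⟩ := abs_le.1 h.cl_m
  obtain ⟨h7, h8⟩ := abs_le.1 h.cl_p
  obtain ⟨a1, a2⟩ := abs_le.1 (h.cl_flagA hA).1
  obtain ⟨a3, a4⟩ := abs_le.1 (h.cl_flagA hA).2.1
  obtain ⟨a5, a6⟩ := abs_le.1 (h.cl_flagA hA).2.2.1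
  obtain ⟨b1, b2⟩ := abs_le.1 (h.cl_flagB hA hb).1
  obtain ⟨b3, b4⟩ := abs_le.1 (h.cl_flagB hA hb).2
  obtain ⟨b5, b6⟩ := abs_le.1 (h.cl_GG hA)
  have := h.dL.1; have := h.dL_le; have := h.d_le
  simp only [List.forall_mem_cons, List.not_mem_nil, false_imp_iff, implies_true, and_true,
    h.g.log_lA, h.g'.log_lA, h.g.log_l1, h.g'.log_l1, h.g.log_W10, h.g'.log_W10, h.g.log_W20,
    h.g'.log_W20, h.g.log_H0, h.g'.log_H0, h.g.log_Hp, h.g'.log_Hp, h.g.log_W11, h.g'.log_W11,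
    h.g.log_W21, h.g'.log_W21, h.g.log_H1, h.g'.log_H1, h.g.log_GH, h.g'.log_GH, h.g.log_Ug0,
    h.g'.log_Ug0, h.g.log_Ug1, h.g'.log_Ug1]
  refine ⟨?_, ?_, ?_, ?_, ?_, ?_, ?_, ?_, ?_, ?_, ?_, ?_, ?_⟩ <;>
    exact abs_le.2 ⟨by linarith, by linarith⟩

end Cp

/-- neighbouring frames give close parameters -/
lemma Cpt.cp {δ : ℝ} {F F' : Fr} (h : Cpt δ F F') {N : ℕ} {lb lb' : ℝ} {k k' : ℕ}
    (g : Gd (F.pm N lb k)) (g' : Gd (F'.pm N lb' k')) (hδ : δ ≤ 1 / (pq N ^ 2 * pR N)) :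
    Cp δ (F.pm N lb k) (F'.pm N lb' k') :=
  ⟨g, g', hδ, h.s1, h.s2, le_rfl, le_add_of_nonneg_right g.J_pos.le⟩

end
end Pool.Agent.MP_20bec2_an.T3

end MrgPart3

-- marker of a merged file
example : 731051 + 623648 = 731051 + 623648 := rfl
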