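import Mathlib.Topology.Sheaves.Presheaf
import Mathlib.Algebra.Order.Star.Real
import Mathlib.Analysis.Matrix.PosDef
import Mathlib.Analysis.SpecialFunctions.Gaussian.GaussianIntegral
import Mathlib.MeasureTheory.Integral.Pi
import Mathlib.Analysis.Real.Pi.Bounds
import Mathlib.LinearAlgebra.Matrix.AbsoluteValue
import Mathlib.RingTheory.PiTensorProduct
import Pool.Agent.MP_20bec2_an.T3.Final
import Mathlib.Tactic.Monotonicity.Lemmas
import Mathlib.Data.Set.Finite.List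
import Mathlib.Algebra.Ring.IsFormallyReal
import Mathlib.Tactic.Polynomial.Basic
import Mathlib.Analysis.SpecialFunctions.Integrals.Basic

-- ======== part 0: formerly Pool.Agent.MP_20bec2_an.T3.KCa
section MrgPart0

/-! Derivatives of the Gaussian kernel: form, measurability, bounds. -/

set_option autoImplicit false
open MeasureTheory Set Filter Matrix Topology

namespace Pool.Agent.MP_20bec2_an.T3
noncomputable section
open Classical

namespace KCP

/-- Polynomial functions of a matrix and a vector. -/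
inductive Pl : (Mx → V → ℝ) → Prop
  | c (r : ℝ) : Pl fun _ _ => r
  | t (i j : Fin 3) : Pl fun T _ => T i j
  | w (i : Fin 3) : Pl fun _ u => u i
  | add {p q : Mx → V → ℝ} : Pl p → Pl q → Pl fun T u => p T u + q T u
  | mul {p q : Mx → V → ℝ} : Pl p → Pl q → Pl fun T u => p T u * q T u

lemma Pl.sum3 {p : Fin 3 → Mx → V → ℝ} (h : ∀ i, Pl (p i)) : Pl fun T u => ∑ i, p i T u := by
  simp only [Fin.sum_univ_three]
  exact ((h 0).add (h 1)).add (h 2)

lemma pd_add {f g : V → ℝ} {x : V} (j : Fin 3) (hf : DifferentiableAt ℝ f x)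
    (hg : DifferentiableAt ℝ g x) : pd j (fun w => f w + g w) x = pd j f x + pd j g x := by
  simp [pd, fderiv_fun_add hf hg]

lemma pd_mul {f g : V → ℝ} {x : V} (j : Fin 3) (hf : DifferentiableAt ℝ f x)
    (hg : DifferentiableAt ℝ g x) :
    pd j (fun w => f w * g w) x = pd j f x * g x + f x * pd j g x := by
  simp [pd, fderiv_fun_mul hf hg]
  ring

lemma pd_const (j : Fin 3) (r : ℝ) (x : V) : pd j (fun _ => r) x = 0 := by simp [pd]

lemma pd_exp {f : V → ℝ} {x : V} (j : Fin 3) (hf : DifferentiableAt ℝ f x) :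
    pd j (fun w => Real.exp (f w)) x = Real.exp (f x) * pd j f x := by
  rw [pd, hf.hasFDerivAt.exp.fderiv]
  simp [pd]

/-- The rescaled vector. -/
def sc (h w : V) : V := fun i => w i / h i

lemma Pl.der {p : Mx → V → ℝ} (hp : Pl p) (j : Fin 3) : ∃ p', Pl p' ∧ ∀ (T : Mx) (h : V),
    (∀ i, h i ≠ 0) → Differentiable ℝ (fun w => p T (sc h w)) ∧
      ∀ w, h j * pd j (fun w => p T (sc h w)) w = p' T (sc h w) := by
  induction hp with
  | c r => exact ⟨_, .c 0, fun T h _ => ⟨by fun_prop, fun w => by rw [pd_const, mul_zero]⟩⟩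
  | t i k => exact ⟨_, .c 0, fun T h _ => ⟨by fun_prop, fun w => by rw [pd_const, mul_zero]⟩⟩
  | w i =>
    refine ⟨_, .c (if i = j then 1 else 0), fun T h hh => ⟨by unfold sc; fun_prop, fun w => ?_⟩⟩
    have e := ((hasFDerivAt_apply (𝕜 := ℝ) i w).mul_const (h i)⁻¹).fderiv
    simp only [sc, pd, div_eq_mul_inv, e]
    by_cases k : i = j
    · subst k
      simp [hh i]
    · simp [k]
  | add _ _ h1 h2 =>
    obtain ⟨p', a1, a2⟩ := h1
    obtain ⟨q', b1, b2⟩ := h2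
    refine ⟨_, a1.add b1, fun T h hh => ⟨(a2 T h hh).1.add (b2 T h hh).1, fun w => ?_⟩⟩
    rw [pd_add j ((a2 T h hh).1 w) ((b2 T h hh).1 w), mul_add, (a2 T h hh).2, (b2 T h hh).2]
  | mul hp hq h1 h2 =>
    obtain ⟨p', a1, a2⟩ := h1
    obtain ⟨q', b1, b2⟩ := h2
    refine ⟨_, (a1.mul hq).add (hp.mul b1),
      fun T h hh => ⟨(a2 T h hh).1.mul (b2 T h hh).1, fun w => ?_⟩⟩
    rw [pd_mul j ((a2 T h hh).1 w) ((b2 T h hh).1 w), ← (a2 T h hh).2, ← (b2 T h hh).2]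
    ring

/-- The rescaled inverse. -/
def nT (h : V) (S : Mx) : Mx := Matrix.of fun i j => h i * h j * S⁻¹ i j

/-- The exponent. -/
def qf (T : Mx) (u : V) : ℝ := -(1 / 2) * ∑ i, u i * ∑ j, T i j * u j

lemma pl_qf : Pl qf :=
  (Pl.c _).mul (Pl.sum3 fun i => (Pl.w i).mul (Pl.sum3 fun j => (Pl.t i j).mul (Pl.w j)))

lemma ker_eq {h : V} (hh : ∀ i, h i ≠ 0) (S : Mx) : ker S = fun w =>
    Real.exp (qf (nT h S) (sc h w)) * (Real.sqrt ((2 * Real.pi) ^ 3 * S.det))⁻¹ := by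
  funext w
  rw [ker, div_eq_mul_inv]
  congr 2
  have h0 := hh 0
  have h1 := hh 1
  have h2 := hh 2
  simp only [qf, nT, sc, dotProduct, mulVec, Fin.sum_univ_three, of_apply]
  field_simp

lemma hp_ne {h : V} (hh : ∀ i, h i ≠ 0) (l : List (Fin 3)) : hp h l ≠ 0 := by
  induction l with
  | nil => simp [hp]
  | cons j l ih => simpa [hp, hh j] using ih

lemma hp_pos {h : V} (hh : ∀ i, 0 < h i) (l : List (Fin 3)) : 0 < hp h l := by
  induction l with
  | nil => simp [hp]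
  | cons j l ih => exact mul_pos (hh j) ih

lemma form (l : List (Fin 3)) : ∃ p, Pl p ∧ ∀ (S : Mx) (h : V), (∀ i, h i ≠ 0) →
    ∀ w, hp h l * pds l (ker S) w = p (nT h S) (sc h w) * ker S w := by
  induction l with
  | nil => exact ⟨_, .c 1, fun S h _ w => by simp [hp, pds]⟩
  | cons j l ih =>
    obtain ⟨p, a, b⟩ := ih
    obtain ⟨p', a1, a2⟩ := a.der j
    obtain ⟨q', b1, b2⟩ := pl_qf.der j
    refine ⟨_, a1.add (a.mul b1), fun S h hh w => ?_⟩
    have e : pds l (ker S) = fun w => (hp h l)⁻¹ * (p (nT h S) (sc h w) * ker S w) :=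
      funext fun w => by rw [← b S h hh, inv_mul_cancel_left₀ (hp_ne hh l)]
    have d1 := (a2 (nT h S) h hh).1 w
    have d2 := (b2 (nT h S) h hh).1 w
    have d3 : DifferentiableAt ℝ (ker S) w := by
      rw [ker_eq hh]
      exact d2.exp.mul_const _
    have k : h j * pd j (ker S) w = q' (nT h S) (sc h w) * ker S w := by
      rw [ker_eq hh, pd_mul j d2.exp (by fun_prop), pd_exp j d2, pd_const, ← (b2 _ h hh).2]
      ring
    have n := hp_ne hh l
    show h j * hp h l * pd j (pds l (ker S)) w = _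
    rw [e, pd_mul j (differentiableAt_const _) (d1.fun_mul d3), pd_mul j d1 d3, pd_const,
      ← (a2 _ h hh).2, add_mul, mul_assoc (p _ _), ← k]
    field_simp
    ring

lemma Pl.meas {α : Type} [MeasurableSpace α] {p : Mx → V → ℝ} (hp : Pl p) {T : α → Mx}
    {u : α → V} (hT : ∀ i j, Measurable fun s => T s i j) (hu : Measurable u) :
    Measurable fun s => p (T s) (u s) := by
  induction hp with
  | c r => exact measurable_const
  | t i j => exact hT i j
  | w i => exact (measurable_pi_apply i).comp hu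
  | add _ _ h1 h2 => exact h1.add h2
  | mul _ _ h1 h2 => exact h1.mul h2

lemma hp_one (l : List (Fin 3)) : hp (cv 1) l = 1 := by
  induction l with
  | nil => rfl
  | cons j l ih => exact (one_mul _).trans ih

lemma sc_one (w : V) : sc (cv 1) w = w := funext fun _ => div_one _

lemma meas_pds {α : Type} [TopologicalSpace α] [MeasurableSpace α] [OpensMeasurableSpace α]
    {S : α → Mx} (hS : Continuous S) {u : α → V} (hu : Measurable u) (l : List (Fin 3)) :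
    Measurable fun s => pds l (ker (S s)) (u s) := by
  obtain ⟨p, a, b⟩ := form l
  have h1 : ∀ i, cv 1 i ≠ 0 := fun _ => one_ne_zero
  have hT : ∀ i j, Measurable fun s => nT (cv 1) (S s) i j := fun i j => by
    simp only [nT, of_apply, Matrix.inv_def, Ring.inverse_eq_inv, Matrix.smul_apply, smul_eq_mul]
    exact (hS.matrix_det.measurable.inv.mul
      (hS.matrix_adjugate.matrix_elem i j).measurable).const_mul _
  have e : (fun s => pds l (ker (S s)) (u s)) = fun s => p (nT (cv 1) (S s)) (u s) *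
      (Real.exp (qf (nT (cv 1) (S s)) (u s)) * (Real.sqrt ((2 * Real.pi) ^ 3 * (S s).det))⁻¹) :=
    funext fun s => by
      have := b (S s) _ h1 (u s)
      rw [hp_one, one_mul, sc_one] at this
      rw [this, ker_eq h1]
      simp only [sc_one]
  rw [e]
  exact (a.meas hT hu).mul ((pl_qf.meas hT hu).exp.mul
    (hS.matrix_det.measurable.const_mul _).sqrt.inv)

/-- The square of the Euclidean norm. -/
def E (u : V) : ℝ := ∑ i, u i ^ 2

lemma E_nonneg (u : V) : 0 ≤ E u := Finset.sum_nonneg fun _ _ => sq_nonneg _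

lemma le_E (u : V) (i : Fin 3) : u i ^ 2 ≤ E u :=
  Finset.single_le_sum (f := fun i => u i ^ 2) (fun _ _ => sq_nonneg _) (Finset.mem_univ i)

lemma Pl.bd {p : Mx → V → ℝ} (hp : Pl p) (B : ℝ) : ∀ ε : ℝ, 0 < ε → ∃ K, 0 ≤ K ∧
    ∀ (T : Mx) (u : V), (∀ i j, |T i j| ≤ B) → |p T u| ≤ K * Real.exp (ε * E u) := by
  have one : ∀ ε : ℝ, 0 < ε → ∀ u, 1 ≤ Real.exp (ε * E u) := fun ε h u =>
    Real.one_le_exp (mul_nonneg h.le (E_nonneg u))
  induction hp with
  | c r => exact fun ε h => ⟨|r|, abs_nonneg r, fun _ u _ =>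
      le_mul_of_one_le_right (abs_nonneg r) (one ε h u)⟩
  | t i j => exact fun ε h => ⟨|B|, abs_nonneg B, fun _ u k =>
      ((k i j).trans (le_abs_self B)).trans (le_mul_of_one_le_right (abs_nonneg B) (one ε h u))⟩
  | w i =>
    refine fun ε h => ⟨1 + ε⁻¹, by positivity, fun _ u _ => ?_⟩
    have h1 := le_E u i
    have h2 := Real.add_one_le_exp (ε * E u)
    have h3 : |u i| ≤ 1 + u i ^ 2 := by nlinarith [sq_abs (u i), sq_nonneg (|u i| - 1)]
    have h4 : (1 + ε⁻¹) * (ε * E u + 1) = ε * E u + 1 + E u + ε⁻¹ := by field_simp; ring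
    have h5 := mul_nonneg h.le (E_nonneg u)
    have h6 := inv_pos.2 h
    exact le_trans (by linarith) (mul_le_mul_of_nonneg_left h2 (by positivity))
  | add _ _ h1 h2 =>
    intro ε h
    obtain ⟨K, a, b⟩ := h1 ε h
    obtain ⟨K', a', b'⟩ := h2 ε h
    refine ⟨K + K', by positivity, fun T u k => (abs_add_le _ _).trans ?_⟩
    rw [add_mul]
    exact add_le_add (b T u k) (b' T u k)
  | mul _ _ h1 h2 =>
    intro ε h
    obtain ⟨K, a, b⟩ := h1 _ (half_pos h)
    obtain ⟨K', a', b'⟩ := h2 _ (half_pos h)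
    refine ⟨K * K', by positivity, fun T u k => ?_⟩
    rw [abs_mul]
    refine (mul_le_mul (b T u k) (b' T u k) (abs_nonneg _) (by positivity)).trans_eq ?_
    rw [mul_mul_mul_comm, ← Real.exp_add]
    congr 2
    ring

lemma dot_symm {S : Mx} (hs : Sᵀ = S) (u v : V) : u ⬝ᵥ (S *ᵥ v) = v ⬝ᵥ (S *ᵥ u) := by
  rw [dotProduct_mulVec, ← mulVec_transpose, hs, dotProduct_comm]

section Inv

variable {h : V} {S : Mx} {c C : ℝ}

lemma posDef (hh : ∀ i, 0 < h i) (hc : 0 < c) (hs : Sᵀ = S)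
    (hl : ∀ v : V, c * ∑ i, (h i * v i) ^ 2 ≤ v ⬝ᵥ (S *ᵥ v)) : S.PosDef := by
  refine Matrix.PosDef.of_dotProduct_mulVec_pos hs fun v hv => lt_of_lt_of_le ?_ (hl v)
  obtain ⟨i, hi⟩ := Function.ne_iff.1 hv
  exact mul_pos hc (lt_of_lt_of_le (sq_pos_of_ne_zero (mul_ne_zero (hh i).ne' hi))
    (le_E (fun i => h i * v i) i))

lemma inv_low (hh : ∀ i, 0 < h i) (hC : 0 < C) (hs : Sᵀ = S) (hd : S.det ≠ 0)
    (hl : ∀ v : V, 0 ≤ v ⬝ᵥ (S *ᵥ v)) (hu : ∀ v : V, v ⬝ᵥ (S *ᵥ v) ≤ C * ∑ i, (h i * v i) ^ 2)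
    (w : V) : C⁻¹ * E (sc h w) ≤ w ⬝ᵥ (S⁻¹ *ᵥ w) := by
  set v := S⁻¹ *ᵥ w with hv
  set u : V := fun i => w i / (C * h i ^ 2) with hu'
  have e : S *ᵥ v = w := by rw [hv, mulVec_mulVec, mul_nonsing_inv _ hd.isUnit, one_mulVec]
  have k := hl (v - u)
  rw [mulVec_sub, dotProduct_sub, sub_dotProduct, sub_dotProduct, dot_symm hs v u, e,
    dotProduct_comm v w] at k
  have h0 := hh 0
  have h1 := hh 1
  have h2 := hh 2
  have e1 : u ⬝ᵥ w = C⁻¹ * E (sc h w) := by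
    simp only [hu', E, sc, dotProduct, Fin.sum_univ_three]
    field_simp
  have e2 : C * ∑ i, (h i * u i) ^ 2 = C⁻¹ * E (sc h w) := by
    simp only [hu', E, sc, Fin.sum_univ_three]
    field_simp
  linarith [hu u]

lemma nT_le (hc : 0 < c) (hd : S.det ≠ 0)
    (hl : ∀ v : V, c * ∑ i, (h i * v i) ^ 2 ≤ v ⬝ᵥ (S *ᵥ v)) (i j : Fin 3) :
    |nT h S i j| ≤ c⁻¹ := by
  have k := hl (S⁻¹ *ᵥ Pi.single j 1)
  rw [mulVec_mulVec, mul_nonsing_inv _ hd.isUnit, one_mulVec, dotProduct_single, mul_one] at k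
  have k' : ∀ i, c * (h i * S⁻¹ i j) ^ 2 ≤ S⁻¹ j j := fun i => by
    have := (mul_le_mul_of_nonneg_left
      (le_E (fun i => h i * (S⁻¹ *ᵥ Pi.single j 1) i) i) hc.le).trans k
    simpa using this
  have a := k' i
  have b := k' j
  have t0 : 0 ≤ S⁻¹ j j := le_trans (by positivity) a
  have b' : c * (h j ^ 2 * S⁻¹ j j) ≤ 1 := by
    rcases t0.eq_or_lt with z | z
    · rw [← z]; simp
    · exact le_of_mul_le_mul_right (by nlinarith) z
  rw [← one_div, le_div_iff₀ hc, ← abs_of_pos hc, ← abs_mul, ← sq_le_one_iff_abs_le_one]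
  have := mul_le_mul_of_nonneg_left a (mul_nonneg hc.le (sq_nonneg (h j)))
  simp only [nT, of_apply]
  nlinarith

lemma det_nT (h : V) (S : Mx) : (nT h S).det = (h 0 * h 1 * h 2) ^ 2 * S.det⁻¹ := by
  have : nT h S = diagonal h * S⁻¹ * diagonal h := by
    ext i j
    simp only [nT, of_apply, mul_diagonal, diagonal_mul]
    ring
  rw [this, det_mul, det_mul, det_diagonal, det_nonsing_inv, Ring.inverse_eq_inv,
    Fin.prod_univ_three]
  ring

end Inv

lemma gb (l : List (Fin 3)) {c C ε : ℝ} (hc : 0 < c) (hC : 0 < C) (hε : 0 < ε) :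
    ∃ K, 0 ≤ K ∧ ∀ (h : V) (S : Mx), (∀ i, 0 < h i) → Sᵀ = S →
      (∀ v : V, c * ∑ i, (h i * v i) ^ 2 ≤ v ⬝ᵥ (S *ᵥ v) ∧
        v ⬝ᵥ (S *ᵥ v) ≤ C * ∑ i, (h i * v i) ^ 2) → ∀ w, hp h l * |pds l (ker S) w| ≤
          K / (h 0 * h 1 * h 2) * Real.exp (-(C⁻¹ / 2 - ε) * E (sc h w)) := by
  obtain ⟨p, a, b⟩ := form l
  obtain ⟨K, k0, k⟩ := a.bd c⁻¹ ε hε
  refine ⟨K * Real.sqrt (6 * c⁻¹ ^ 3), by positivity, fun h S hh hs hb w => ?_⟩
  have hd := (posDef hh hc hs fun v => (hb v).1).det_pos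
  have hn := nT_le hc hd.ne' fun v => (hb v).1
  have hH : 0 < h 0 * h 1 * h 2 := mul_pos (mul_pos (hh 0) (hh 1)) (hh 2)
  have d1 : (h 0 * h 1 * h 2) ^ 2 * S.det⁻¹ ≤ 6 * c⁻¹ ^ 3 := by
    have := Matrix.det_le (abv := AbsoluteValue.abs) hn
    rw [det_nT] at this
    refine (le_abs_self _).trans (this.trans_eq ?_)
    simp [Nat.factorial]
  have d2 : (Real.sqrt ((2 * Real.pi) ^ 3 * S.det))⁻¹ ≤
      Real.sqrt (6 * c⁻¹ ^ 3) / (h 0 * h 1 * h 2) := by
    rw [le_div_iff₀ hH, ← Real.sqrt_inv, ← Real.sqrt_sq hH.le, ← Real.sqrt_mul (by positivity)]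
    refine Real.sqrt_le_sqrt (le_trans ?_ d1)
    rw [mul_comm]
    gcongr
    exact le_mul_of_one_le_left hd.le (one_le_pow₀ (by linarith [Real.pi_gt_three]))
  have d3 := inv_low hh hC hs hd.ne' (fun v => le_trans (by positivity) (hb v).1)
    (fun v => (hb v).2) w
  have d4 : |ker S w| ≤ Real.exp (-(C⁻¹ / 2) * E (sc h w)) *
      (Real.sqrt (6 * c⁻¹ ^ 3) / (h 0 * h 1 * h 2)) := by
    rw [ker, abs_of_nonneg (by positivity), div_eq_mul_inv]
    exact mul_le_mul (Real.exp_le_exp.2 (by linarith)) d2 (by positivity) (by positivity)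
  rw [← abs_of_pos (hp_pos hh l), ← abs_mul, b S h (fun i => (hh i).ne') w, abs_mul]
  refine (mul_le_mul (k _ _ hn) d4 (abs_nonneg _) (by positivity)).trans_eq ?_
  rw [show -(C⁻¹ / 2 - ε) * E (sc h w) = ε * E (sc h w) + -(C⁻¹ / 2) * E (sc h w) by ring,
    Real.exp_add]
  ring

lemma gauss {h : V} (hh : ∀ i, 0 < h i) {k : ℝ} (hk : 0 < k) :
    Integrable (fun w => Real.exp (-k * E (sc h w))) ∧
      ∫ w, Real.exp (-k * E (sc h w)) = Real.sqrt (Real.pi / k) ^ 3 * (h 0 * h 1 * h 2) := by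
  have e : (fun w => Real.exp (-k * E (sc h w))) =
      fun w : V => ∏ i, Real.exp (-(k / h i ^ 2) * w i ^ 2) := funext fun w => by
    rw [← Real.exp_sum, E, Finset.mul_sum]
    refine congrArg _ (Finset.sum_congr rfl fun i _ => ?_)
    rw [sc]
    ring
  rw [e]
  refine ⟨Integrable.fintype_prod (f := fun i x => Real.exp (-(k / h i ^ 2) * x ^ 2))
    fun i => integrable_exp_neg_mul_sq (by have := hh i; positivity), ?_⟩
  rw [integral_fintype_prod_volume_eq_prod fun i x => Real.exp (-(k / h i ^ 2) * x ^ 2)]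
  have : ∀ i, ∫ x : ℝ, Real.exp (-(k / h i ^ 2) * x ^ 2) = Real.sqrt (Real.pi / k) * h i :=
    fun i => by
      rw [integral_gaussian, div_div_eq_mul_div, mul_div_right_comm,
        Real.sqrt_mul' _ (sq_nonneg _), Real.sqrt_sq (hh i).le]
  simp only [this, Fin.prod_univ_three]
  ring

end KCP

end
end Pool.Agent.MP_20bec2_an.T3

end MrgPart0

-- ======== part 1: formerly Pool.Agent.MP_20bec2_an.T3.KC
section MrgPart1

/-! The semigroup property of the kernel. -/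

set_option autoImplicit false
open MeasureTheory Set Filter Matrix Topology

namespace Pool.Agent.MP_20bec2_an.T3
noncomputable section
open Classical

namespace KCP

lemma part2 (n : ℕ) : ∃ C : ℝ, 1 ≤ C ∧ ∀ (h : V) (A : Mx), (∀ i, 0 < h i) → Aᵀ = A →
    (∀ v : V, 1 / 10 ^ 4 * ∑ i, (h i * v i) ^ 2 ≤ v ⬝ᵥ (A *ᵥ v) ∧
      v ⬝ᵥ (A *ᵥ v) ≤ 6 * ∑ i, (h i * v i) ^ 2) → ∀ l : List (Fin 3), l.length ≤ n →
    Integrable (pds l (ker A)) ∧ hp h l * ∫ w, |pds l (ker A) w| ≤ C ∧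
    ∀ r : ℝ, hp h l * ∫ w in {w : V | r ≤ ∑ i, (w i / h i) ^ 2}, |pds l (ker A) w| ≤
      C * Real.exp (-r / 60) := by
  choose K k0 k using fun l => gb l (c := 1 / 10 ^ 4) (C := 6) (ε := 1 / 60) (by norm_num)
    (by norm_num) (by norm_num)
  obtain ⟨M, hM⟩ := ((List.finite_length_le (Fin 3) n).image K).bddAbove
  set G := Real.sqrt (Real.pi / (1 / 20)) ^ 3 with hG
  have G0 : 0 ≤ G := by positivity
  refine ⟨1 + |M| * G, by linarith [mul_nonneg (abs_nonneg M) G0], fun h A hh hs hb l hl => ?_⟩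
  have hH : 0 < h 0 * h 1 * h 2 := mul_pos (mul_pos (hh 0) (hh 1)) (hh 2)
  have kl := k0 l
  obtain ⟨g1, g2⟩ := gauss hh (k := 1 / 20) (by norm_num)
  have b : ∀ r w, r ≤ E (sc h w) → hp h l * |pds l (ker A) w| ≤
      K l / (h 0 * h 1 * h 2) * Real.exp (-r / 60) * Real.exp (-(1 / 20) * E (sc h w)) := by
    intro r w hr
    rw [mul_assoc, ← Real.exp_add]
    refine (k l h A hh hs hb w).trans (mul_le_mul_of_nonneg_left (Real.exp_le_exp.2 ?_)
      (by positivity))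
    linarith
  have p := hp_pos hh l
  have i1 : Integrable (pds l (ker A)) :=
    ((g1.const_mul _).const_mul (hp h l)⁻¹).mono'
      (meas_pds continuous_const measurable_id l).aestronglyMeasurable
      (Eventually.of_forall fun w => (le_inv_mul_iff₀ p).2 (b 0 w (E_nonneg _)))
  have i3 : ∀ r : ℝ, hp h l * ∫ w in {w : V | r ≤ ∑ i, (w i / h i) ^ 2}, |pds l (ker A) w| ≤
      (1 + |M| * G) * Real.exp (-r / 60) := by
    intro r
    rw [← integral_const_mul]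
    have ms : MeasurableSet {w : V | r ≤ ∑ i, (w i / h i) ^ 2} :=
      measurableSet_le measurable_const (by fun_prop)
    refine (setIntegral_mono_on (i1.abs.const_mul _).integrableOn (g1.const_mul _).integrableOn
      ms fun w hw => b r w hw).trans
      ((setIntegral_le_integral (g1.const_mul _)
        (Eventually.of_forall fun w => by positivity)).trans ?_)
    rw [integral_const_mul, g2]
    have e : K l / (h 0 * h 1 * h 2) * Real.exp (-r / 60) * (G * (h 0 * h 1 * h 2)) =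
        K l * G * Real.exp (-r / 60) := by
      generalize h 0 * h 1 * h 2 = H at hH
      field_simp
    have : K l ≤ |M| := (hM ⟨l, hl, rfl⟩).trans (le_abs_self M)
    rw [e]
    gcongr
    nlinarith
  refine ⟨i1, ?_, i3⟩
  have := i3 0
  rwa [eq_univ_of_forall (s := {w : V | 0 ≤ ∑ i, (w i / h i) ^ 2}) fun w => E_nonneg (sc h w),
    Measure.restrict_univ, neg_zero, zero_div, Real.exp_zero, mul_one] at this

lemma E_eq (v : V) : E v = v ⬝ᵥ v := by simp [E, dotProduct, pow_two]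

lemma sum_one (v : V) : ∑ i, (cv 1 i * v i) ^ 2 = v ⬝ᵥ v := by simp [cv, dotProduct, pow_two]

lemma up (A : Mx) : ∃ C : ℝ, 0 < C ∧ ∀ v : V, v ⬝ᵥ (A *ᵥ v) ≤ C * (v ⬝ᵥ v) := by
  refine ⟨∑ i, ∑ j, |A i j| + 1, by positivity, fun v => ?_⟩
  rw [← E_eq, add_mul, Finset.sum_mul]
  refine le_trans (Finset.sum_le_sum fun i _ => ?_) (le_add_of_nonneg_right ?_)
  · rw [mulVec, dotProduct, Finset.mul_sum, Finset.sum_mul]
    refine Finset.sum_le_sum fun j _ => (le_abs_self _).trans ?_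
    rw [mul_left_comm, abs_mul]
    refine mul_le_mul_of_nonneg_left (abs_le.2 ⟨?_, ?_⟩) (abs_nonneg _) <;>
      nlinarith [le_E v i, le_E v j, sq_nonneg (v i + v j), sq_nonneg (v i - v j)]
  · linarith [E_nonneg v]

/-- Symmetric and positive. -/
def Gd (A : Mx) : Prop := Aᵀ = A ∧ ∃ c : ℝ, 0 < c ∧ ∀ v : V, c * (v ⬝ᵥ v) ≤ v ⬝ᵥ (A *ᵥ v)

lemma dd (v : V) : 0 ≤ v ⬝ᵥ v := E_eq v ▸ E_nonneg v

lemma Gd.nonneg {A : Mx} (h : Gd A) (v : V) : 0 ≤ v ⬝ᵥ (A *ᵥ v) := by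
  obtain ⟨-, c, hc, k⟩ := h
  exact (mul_nonneg hc.le (dd v)).trans (k v)

lemma Gd.det {A : Mx} (h : Gd A) : 0 < A.det := by
  obtain ⟨hs, c, hc, k⟩ := h
  exact (posDef (h := cv 1) (fun _ => one_pos) hc hs fun v => by rw [sum_one]; exact k v).det_pos

lemma Gd.add {A S : Mx} (h : Gd A) (h' : Gd S) : Gd (A + S) := by
  obtain ⟨hs, c, hc, k⟩ := h
  refine ⟨by rw [transpose_add, hs, h'.1], c, hc, fun v => ?_⟩
  rw [add_mulVec, dotProduct_add]
  linarith [k v, h'.nonneg v]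

lemma Gd.inv {A : Mx} (h : Gd A) : Gd A⁻¹ := by
  obtain ⟨C, hC, k⟩ := up A
  refine ⟨by rw [transpose_nonsing_inv, h.1], C⁻¹, inv_pos.2 hC, fun v => ?_⟩
  have := inv_low (h := cv 1) (fun _ => one_pos) hC h.1 h.det.ne' h.nonneg
    (fun v => by rw [sum_one]; exact k v) v
  rwa [sc_one, E_eq] at this

lemma gb1 (l : List (Fin 3)) {c C : ℝ} (hc : 0 < c) (hC : 0 < C) :
    ∃ K, 0 ≤ K ∧ ∀ S : Mx, Sᵀ = S → (∀ v : V, c * (v ⬝ᵥ v) ≤ v ⬝ᵥ (S *ᵥ v) ∧
      v ⬝ᵥ (S *ᵥ v) ≤ C * (v ⬝ᵥ v)) → ∀ w, |pds l (ker S) w| ≤ K * Real.exp (-(C⁻¹ / 4) * E w) := by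
  obtain ⟨K, k0, k⟩ := gb l hc hC (ε := C⁻¹ / 4) (by positivity)
  refine ⟨K, k0, fun S hs hb w => ?_⟩
  have := k (cv 1) S (fun _ => one_pos) hs (fun v => by rw [sum_one]; exact hb v) w
  rw [hp_one, sc_one, show C⁻¹ / 2 - C⁻¹ / 4 = C⁻¹ / 4 by ring] at this
  simpa [cv] using this

lemma Gd.bd {A : Mx} (h : Gd A) (l : List (Fin 3)) :
    ∃ K k : ℝ, 0 ≤ K ∧ 0 < k ∧ ∀ w, |pds l (ker A) w| ≤ K * Real.exp (-k * E w) := by
  obtain ⟨hs, c, hc, k⟩ := h
  obtain ⟨C, hC, k'⟩ := up A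
  obtain ⟨K, k0, b⟩ := gb1 l hc hC
  exact ⟨K, _, k0, by positivity, b A hs fun v => ⟨k v, k' v⟩⟩

lemma ker_sub (S : Mx) (u v : V) : ker S (u - v) = ker S (v - u) := by
  rw [← neg_sub v u, ker, ker, mulVec_neg, dotProduct_neg, neg_dotProduct, neg_neg]

lemma pds_sub (l : List (Fin 3)) (g : V → ℝ) (p : V) :
    pds l (fun v => g (v - p)) = fun v => pds l g (v - p) := by
  induction l with
  | nil => rfl
  | cons j l ih =>
    funext v
    simp only [pds, ih, pd, fderiv_comp_sub]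

lemma pds_ker (l : List (Fin 3)) (S : Mx) (p z : V) :
    pds l (fun v => ker S (p - v)) z = pds l (ker S) (z - p) := by
  simp only [ker_sub S p, pds_sub]

lemma pds_append (l l' : List (Fin 3)) (g : V → ℝ) : pds (l ++ l') g = pds l (pds l' g) := by
  induction l with
  | nil => rfl
  | cons j l ih => simp only [List.cons_append, pds, ih]

lemma semi (h4 : K4Stmt) {A S : Mx} (hA : Gd A) (hS : Gd S) (y : V) :
    ∫ w, ker A w * ker S (w - y) = ker (S + A) y := by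
  have hP := hA.inv.add hS.inv
  obtain ⟨hs, c, hc, k⟩ := hP.inv
  have hR := hS.add hA
  set P := A⁻¹ + S⁻¹ with hP'
  set u := (S + A)⁻¹ *ᵥ y with hu
  have a1 := hA.det
  have a2 := hS.det
  have a3 := hP.det
  have a4 := hR.det
  have e0 : y = S *ᵥ u + A *ᵥ u := by
    rw [← add_mulVec, hu, mulVec_mulVec, mul_nonsing_inv _ a4.ne'.isUnit, one_mulVec]
  have e1 : A⁻¹ *ᵥ (A *ᵥ u) = u := by
    rw [mulVec_mulVec, nonsing_inv_mul _ a1.ne'.isUnit, one_mulVec]
  have e2 : S⁻¹ *ᵥ (S *ᵥ u) = u := by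
    rw [mulVec_mulVec, nonsing_inv_mul _ a2.ne'.isUnit, one_mulVec]
  have e3 : A.det * S.det = (S + A).det * P⁻¹.det := by
    have : A * P * S = S + A := by
      rw [hP', mul_add, mul_nonsing_inv _ a1.ne'.isUnit, add_mul, one_mul, mul_assoc,
        nonsing_inv_mul _ a2.ne'.isUnit, mul_one]
    rw [← this, det_mul, det_mul, det_nonsing_inv, Ring.inverse_eq_inv]
    field_simp
  have key : ∀ e, ker A (A *ᵥ u + e) * ker S (A *ᵥ u + e - y) = ker (S + A) y * ker P⁻¹ e := by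
    intro e
    have f : A *ᵥ u + e - y = e - S *ᵥ u := by
      rw [congrArg (A *ᵥ u + e - ·) e0]
      abel
    simp only [ker]
    rw [f, div_mul_div_comm, div_mul_div_comm, ← Real.exp_add, ← Real.exp_add,
      ← Real.sqrt_mul (by positivity), ← Real.sqrt_mul (by positivity), mul_mul_mul_comm, e3,
      mul_mul_mul_comm, nonsing_inv_nonsing_inv _ a3.ne'.isUnit, ← hu]
    congr 2
    rw [mulVec_add, mulVec_sub, e1, e2, hP', add_mulVec, dotProduct_add, dotProduct_add,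
      dotProduct_sub, add_dotProduct, add_dotProduct, sub_dotProduct, sub_dotProduct,
      dot_symm hA.inv.1 (A *ᵥ u) e, dot_symm hS.inv.1 (S *ᵥ u) e, e1, e2]
    nth_rewrite 1 [e0]
    rw [add_dotProduct]
    ring
  rw [← integral_add_left_eq_self _ (A *ᵥ u)]
  simp only [key]
  rw [integral_const_mul, (h4.1 _ c hc hs k).2.2.1, mul_one]

lemma gk_id {A S : Mx} (hA : Gd A) (hS : Gd S) (l : List (Fin 3)) :
    GK (pds l (ker A)) (fun x => x) fun _ => S := by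
  obtain ⟨K, k, k0, k1, b⟩ := hA.bd l
  obtain ⟨hs, c, hc, k2⟩ := hS
  obtain ⟨C, hC, k3⟩ := up S
  refine ⟨meas_pds continuous_const measurable_id l, continuous_id, fun _ _ => continuous_const,
    min c 1, K + C, lt_min hc one_pos, fun x => ⟨?_, fun _ => ⟨?_, hs, fun v => ⟨?_, ?_⟩⟩⟩⟩
  · have : Real.exp (-k * E x) ≤ 1 := Real.exp_le_one_iff.2 (by nlinarith [E_nonneg x])
    nlinarith [b x]
  · nlinarith [min_le_right c 1, norm_nonneg x]
  · exact (mul_le_mul_of_nonneg_right (min_le_left c 1) (dd v)).trans (k2 v)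
  · nlinarith [k3 v, dd v]

lemma k1' (h1 : K1Stmt) {a : V → ℝ} {Z : V → V} {S : V → Mx} (h : GK a Z S) (l : List (Fin 3))
    (z : V) : pds l (dens a Z S) z = ∫ x, a x * pds l (ker (S x)) (z - Z x) := by
  simp only [((h1 a Z S h).2.2 l z).2, pds_ker]

lemma conv (h1 : K1Stmt) (h4 : K4Stmt) {A S : Mx} (hA : Gd A) (hS : Gd S) (l l' : List (Fin 3))
    (y : V) : pds (l ++ l') (ker (S + A)) y = ∫ w, pds l (ker A) w * pds l' (ker S) (y - w) := by
  have e1 : ker (S + A) = dens (pds [] (ker A)) (fun x => x) fun _ => S :=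
    funext fun y => (semi h4 hA hS y).symm
  have e2 : pds l' (ker (S + A)) = dens (pds l' (ker S)) (fun x => x) fun _ => A := by
    funext y
    rw [e1, k1' h1 (gk_id hA hS []), ← integral_sub_left_eq_self _ volume y]
    simp only [dens, pds, sub_sub_cancel, ker_sub A y, mul_comm]
  rw [pds_append, e2, k1' h1 (gk_id hS hA l'), ← integral_sub_left_eq_self _ volume y]
  simp only [sub_sub_cancel, mul_comm]

lemma E_le (x : V) : E x ≤ 3 * ‖x‖ ^ 2 := by
  have : ∀ i, x i ^ 2 ≤ ‖x‖ ^ 2 := fun i =>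
    sq_le_sq' (neg_le_of_abs_le (norm_le_pi_norm x i)) (le_of_abs_le (norm_le_pi_norm x i))
  rw [E, Fin.sum_univ_three]
  linarith [this 0, this 1, this 2]

lemma norm_le_E (x : V) : ‖x‖ ^ 2 ≤ E x := by
  rw [← Real.le_sqrt (norm_nonneg x) (E_nonneg x)]
  exact (pi_norm_le_iff_of_nonneg (Real.sqrt_nonneg _)).2 fun i => Real.abs_le_sqrt (le_E x i)

lemma E_tri (y w : V) : E y ≤ 2 * E (y - w) + 2 * E w := by
  simp only [E, Fin.sum_univ_three, Pi.sub_apply]
  nlinarith [sq_nonneg (y 0 - 2 * w 0), sq_nonneg (y 1 - 2 * w 1), sq_nonneg (y 2 - 2 * w 2)]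

lemma joint {a : V → ℝ} {Z : V → V} {S : V → Mx} {A : Mx} (h : GK a Z S) (hA : Gd A)
    (l l' : List (Fin 3)) (z : V) : Integrable (fun s : V × V =>
      pds l (ker A) s.1 * (a s.2 * pds l' (ker (S s.2)) (z - s.1 - Z s.2))) (volume.prod volume) := by
  obtain ⟨ma, cZ, cS, c, C, hc, b⟩ := h
  obtain ⟨K, k, k0, k1, b1⟩ := hA.bd l
  obtain ⟨K', k2, b2⟩ := gb1 l' hc (C := |C| + 1) (by positivity)
  set m := min k ((|C| + 1)⁻¹ / 4) with hm
  have m0 : 0 < m := lt_min k1 (by positivity)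
  have g : ∀ k : ℝ, 0 < k → Integrable fun w => Real.exp (-k * E w) := fun k hk => by
    simpa only [sc_one] using (gauss (h := cv 1) (fun _ => one_pos) hk).1
  refine (((g (m / 2) (by positivity)).mul_prod (g (m * c ^ 2 / 24) (by positivity))).const_mul
    (K * (|C| * K') * Real.exp (m * (‖z‖ + C) ^ 2 / 4))).mono' ?_ (Eventually.of_forall ?_)
  · exact ((meas_pds continuous_const measurable_fst l).mul ((ma.comp measurable_snd).mul
      (meas_pds ((continuous_matrix cS).comp continuous_snd) (by fun_prop) l'))).aestronglyMeasurable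
  rintro ⟨w, x⟩
  by_cases hx : a x = 0
  · simp only [hx, zero_mul, mul_zero, norm_zero]
    positivity
  obtain ⟨c1, c2, c3⟩ := (b x).2 hx
  have c4 := b2 (S x) c2 (fun v => ⟨(c3 v).1, (c3 v).2.trans
    (mul_le_mul_of_nonneg_right (by linarith [le_abs_self C]) (dd v))⟩) (z - w - Z x)
  rw [Real.norm_eq_abs, abs_mul, abs_mul]
  refine (mul_le_mul (b1 w) (mul_le_mul ((b x).1.trans (le_abs_self C)) c4 (abs_nonneg _)
    (abs_nonneg _)) (by positivity) (by positivity)).trans ?_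
  rw [← mul_assoc |C|, mul_mul_mul_comm, mul_assoc (K * _), ← Real.exp_add, ← Real.exp_add,
    ← Real.exp_add]
  refine mul_le_mul_of_nonneg_left (Real.exp_le_exp.2 ?_) (by positivity)
  have t1 := E_tri (z - Z x) w
  rw [sub_right_comm] at t1
  have t2 := norm_le_E (z - Z x)
  have t3 := E_le x
  have t4 : c * ‖x‖ ≤ ‖z - Z x‖ + (‖z‖ + C) := by
    have := norm_sub_norm_le (Z x) z
    rw [norm_sub_rev] at this
    linarith
  have t5 : (c * ‖x‖) ^ 2 ≤ 2 * ‖z - Z x‖ ^ 2 + 2 * (‖z‖ + C) ^ 2 := by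
    have := pow_le_pow_left₀ (by positivity) t4 2
    nlinarith [sq_nonneg (‖z - Z x‖ - (‖z‖ + C))]
  have t6 : c ^ 2 * E x ≤ 12 * E (z - w - Z x) + 12 * E w + 6 * (‖z‖ + C) ^ 2 := by
    nlinarith [mul_le_mul_of_nonneg_left t3 (sq_nonneg c)]
  have t7 := mul_le_mul_of_nonneg_right (min_le_left k ((|C| + 1)⁻¹ / 4)) (E_nonneg w)
  have t8 := mul_le_mul_of_nonneg_right (min_le_right k ((|C| + 1)⁻¹ / 4))
    (E_nonneg (z - w - Z x))
  have t9 := mul_le_mul_of_nonneg_left t6 m0.le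
  have t10 := mul_nonneg m0.le (E_nonneg (z - w - Z x))
  rw [← hm] at t7 t8
  nlinarith

lemma gk_add {a : V → ℝ} {Z : V → V} {S : V → Mx} {A : Mx} (h : GK a Z S) (hA : Gd A) :
    GK a Z fun x => S x + A := by
  obtain ⟨ma, cZ, cS, c, C, hc, b⟩ := h
  obtain ⟨C', hC, k⟩ := up A
  refine ⟨ma, cZ, fun i j => (cS i j).add continuous_const, c, C + C', hc,
    fun x => ⟨by linarith [(b x).1], fun hx => ?_⟩⟩
  obtain ⟨c1, c2, c3⟩ := (b x).2 hx
  refine ⟨by linarith, by rw [transpose_add, c2, hA.1], fun v => ?_⟩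
  rw [add_mulVec, dotProduct_add]
  exact ⟨by linarith [(c3 v).1, hA.nonneg v], by linarith [(c3 v).2, k v]⟩

end KCP

open KCP in
theorem kc (h1 : K1Stmt) (h4 : K4Stmt) : KCStmt := by
  refine ⟨fun a Z S A c h hc hs hb l l' z => ?_, part2⟩
  have hA : Gd A := ⟨hs, c, hc, hb⟩
  have j := joint h hA l l' z
  have e : ∀ w, pds l (ker A) w * pds l' (dens a Z S) (z - w) =
      ∫ x, pds l (ker A) w * (a x * pds l' (ker (S x)) (z - w - Z x)) := fun w => by
    rw [k1' h1 h, integral_const_mul]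
  simp only [e]
  refine ⟨j.integral_prod_left, ?_⟩
  rw [k1' h1 (gk_add h hA), integral_integral_swap j]
  refine integral_congr_ae (Eventually.of_forall fun x => ?_)
  by_cases hx : a x = 0
  · simp [hx]
  obtain ⟨-, -, -, c', C, hc', b⟩ := h
  obtain ⟨-, c2, c3⟩ := (b x).2 hx
  simp only [conv h1 h4 hA ⟨c2, c', hc', fun v => (c3 v).1⟩, ← integral_const_mul,
    mul_left_comm (a x), sub_right_comm z (Z x)]

end
end Pool.Agent.MP_20bec2_an.T3

end MrgPart1

-- ======== part 2: formerly Pool.Agent.MP_20bec2_an.T3.KP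
section MrgPart2

-- ======== part 0: formerly Pool.Agent.MP_20bec2_an.T3.KPa
section MrgPart0

/-! Pointwise bounds for the derivatives of the kernel, for a wide class of covariances. -/

set_option autoImplicit false
open MeasureTheory Set Filter Matrix Topology

namespace Pool.Agent.MP_20bec2_an.T3
noncomputable section
open Classical

namespace KPa

/-- a scaled directional derivative -/
def Dr (j : Fin 3) (a : ℝ) (g : V → ℝ) (w : V) (r : ℝ) : Prop :=
  ∃ L : V →L[ℝ] ℝ, HasFDerivAt g L w ∧ a * L (Pi.single j 1) = r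

variable {j : Fin 3} {a r r' : ℝ} {f g : V → ℝ} {w : V}

lemma Dr.pd (h : Dr j a g w r) : a * pd j g w = r := by
  obtain ⟨L, h1, h2⟩ := h
  rw [T3.pd, h1.fderiv, h2]

lemma Dr.congr (h : Dr j a g w r) (e : r = r') : Dr j a g w r' := e ▸ h

lemma Dr.const (c : ℝ) : Dr j a (fun _ => c) w 0 := ⟨0, hasFDerivAt_const c w, by simp⟩

lemma Dr.add (h : Dr j a f w r) (h' : Dr j a g w r') : Dr j a (fun w => f w + g w) w (r + r') := by
  obtain ⟨L, h1, rfl⟩ := h
  obtain ⟨L', h2, rfl⟩ := h'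
  exact ⟨L + L', h1.add h2, by simp [mul_add]⟩

lemma Dr.mul (h : Dr j a f w r) (h' : Dr j a g w r') :
    Dr j a (fun w => f w * g w) w (r * g w + f w * r') := by
  obtain ⟨L, h1, rfl⟩ := h
  obtain ⟨L', h2, rfl⟩ := h'
  exact ⟨_, h1.mul h2, by simp; ring⟩

lemma Dr.exp (h : Dr j a f w r) : Dr j a (fun w => Real.exp (f w)) w (Real.exp (f w) * r) := by
  obtain ⟨L, h1, rfl⟩ := h
  exact ⟨_, h1.exp, by simp; ring⟩

lemma Dr.coord (y : V) (i : Fin 3) :
    Dr j a (fun w => (y - w) i) w (-(a * (Pi.single j 1 : V) i)) :=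
  ⟨-ContinuousLinearMap.proj i, (hasFDerivAt_apply i w).const_sub (y i), by simp⟩

lemma Dr.lin (P : Mx) (y : V) (i : Fin 3) :
    Dr j a (fun w => (P *ᵥ (y - w)) i) w (-(a * P i j)) := by
  have h := (((Dr.const (j := j) (a := a) (w := w) (P i 0)).mul (Dr.coord y 0)).add
    ((Dr.const (P i 1)).mul (Dr.coord y 1))).add ((Dr.const (P i 2)).mul (Dr.coord y 2))
  simp only [mulVec, dotProduct, Fin.sum_univ_three]
  refine h.congr ?_
  fin_cases j <;> simp <;> ring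

lemma Dr.ker {S : Mx} (hS : Sᵀ = S) (y : V) :
    Dr j a (fun w => ker S (y - w)) w (a * (S⁻¹ *ᵥ (y - w)) j * ker S (y - w)) := by
  have hP : ∀ i k, S⁻¹ i k = S⁻¹ k i := fun i k => by
    rw [← transpose_apply S⁻¹, transpose_nonsing_inv, hS]
  have h := ((((Dr.coord (j := j) (a := a) (w := w) y 0).mul (Dr.lin S⁻¹ y 0)).add
    ((Dr.coord y 1).mul (Dr.lin S⁻¹ y 1))).add ((Dr.coord y 2).mul (Dr.lin S⁻¹ y 2))).mul
      (Dr.const (-1 / 2))
  have h2 := h.exp.mul (Dr.const (Real.sqrt ((2 * Real.pi) ^ 3 * S.det))⁻¹)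
  have e : ∀ v : V, T3.ker S v = Real.exp ((v 0 * (S⁻¹ *ᵥ v) 0 + v 1 * (S⁻¹ *ᵥ v) 1 +
      v 2 * (S⁻¹ *ᵥ v) 2) * (-1 / 2)) * (Real.sqrt ((2 * Real.pi) ^ 3 * S.det))⁻¹ := fun v => by
    rw [T3.ker, div_eq_mul_inv, dotProduct, Fin.sum_univ_three]
    congr 2
    ring
  simp only [e]
  refine h2.congr ?_
  generalize Real.exp _ = E
  generalize (Real.sqrt ((2 * Real.pi) ^ 3 * S.det))⁻¹ = c
  have h01 := hP 1 0
  have h02 := hP 2 0
  have h12 := hP 2 1
  generalize y - w = v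
  fin_cases j <;> simp [mulVec, dotProduct, Fin.sum_univ_three, h01, h02, h12] <;> ring

/-- polynomials in a vector and a matrix -/
inductive Pl : (V → Mx → ℝ) → Prop
  | c (r : ℝ) : Pl fun _ _ => r
  | m (i : Fin 3) : Pl fun m _ => m i
  | p (i k : Fin 3) : Pl fun _ p => p i k
  | add {f g : V → Mx → ℝ} : Pl f → Pl g → Pl fun m p => f m p + g m p
  | mul {f g : V → Mx → ℝ} : Pl f → Pl g → Pl fun m p => f m p * g m p

lemma Pl.grow {G : V → Mx → ℝ} (h : Pl G) : ∃ (C : ℝ) (d : ℕ), 0 ≤ C ∧ ∀ (m : V) (p : Mx) (ρ : ℝ),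
    1 ≤ ρ → (∀ i, |m i| ≤ ρ) → (∀ i k, |p i k| ≤ ρ) → |G m p| ≤ C * ρ ^ d := by
  induction h with
  | c r => exact ⟨|r|, 0, abs_nonneg _, fun _ _ _ _ _ _ => by simp⟩
  | m i => exact ⟨1, 1, zero_le_one, fun _ _ _ _ h _ => by simpa using h i⟩
  | p i k => exact ⟨1, 1, zero_le_one, fun _ _ _ _ _ h => by simpa using h i k⟩
  | add _ _ i1 i2 =>
    obtain ⟨C, d, h1, h2⟩ := i1
    obtain ⟨C', d', h3, h4⟩ := i2
    refine ⟨C + C', d + d', by linarith, fun m p ρ h5 h6 h7 => (abs_add_le _ _).trans ?_⟩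
    have h8 := mul_le_mul_of_nonneg_left (pow_le_pow_right₀ h5 (Nat.le_add_right d d')) h1
    have h9 := mul_le_mul_of_nonneg_left (pow_le_pow_right₀ h5 (Nat.le_add_left d' d)) h3
    linarith [h2 m p ρ h5 h6 h7, h4 m p ρ h5 h6 h7]
  | mul _ _ i1 i2 =>
    obtain ⟨C, d, h1, h2⟩ := i1
    obtain ⟨C', d', h3, h4⟩ := i2
    refine ⟨C * C', d + d', by positivity, fun m p ρ h5 h6 h7 => ?_⟩
    rw [abs_mul, pow_add, mul_mul_mul_comm]
    exact mul_le_mul (h2 m p ρ h5 h6 h7) (h4 m p ρ h5 h6 h7) (abs_nonneg _) (by positivity)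

lemma Pl.der {G : V → Mx → ℝ} (h : Pl G) (j : Fin 3) : ∃ G', Pl G' ∧
    ∀ (a : ℝ) (p : Mx) (M : V → V) (w : V), (∀ i, Dr j a (fun w => M w i) w (-p i j)) →
      Dr j a (fun w => G (M w) p) w (G' (M w) p) := by
  induction h with
  | c r => exact ⟨_, Pl.c 0, fun _ _ _ _ _ => Dr.const r⟩
  | m i => exact ⟨_, (Pl.c (-1)).mul (Pl.p i j), fun _ _ _ _ h => (h i).congr (by ring)⟩
  | p i k => exact ⟨_, Pl.c 0, fun _ p _ _ _ => Dr.const (p i k)⟩
  | add _ _ i1 i2 =>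
    obtain ⟨F, h1, h2⟩ := i1
    obtain ⟨F', h3, h4⟩ := i2
    exact ⟨_, h1.add h3, fun a p M w h => (h2 a p M w h).add (h4 a p M w h)⟩
  | mul k1 k2 i1 i2 =>
    obtain ⟨F, h1, h2⟩ := i1
    obtain ⟨F', h3, h4⟩ := i2
    exact ⟨_, (h1.mul k2).add (k1.mul h3), fun a p M w h => (h2 a p M w h).mul (h4 a p M w h)⟩

lemma hp_cons (h : V) (j : Fin 3) (l : List (Fin 3)) : hp h (j :: l) = h j * hp h l := by
  simp [hp]

lemma hp_snoc (h : V) (j : Fin 3) (l : List (Fin 3)) : hp h (l ++ [j]) = hp h l * h j := by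
  simp [hp]

lemma hp_pos {h : V} (hh : ∀ i, 0 < h i) (l : List (Fin 3)) : 0 < hp h l := by
  induction l with
  | nil => simp [hp]
  | cons j l ih => rw [hp_cons]; exact mul_pos (hh j) ih

lemma form (l : List (Fin 3)) : ∃ G, Pl G ∧ ∀ (h : V) (S : Mx) (y : V), (∀ i, 0 < h i) → Sᵀ = S →
    pds l (fun w => ker S (y - w)) = fun w => (hp h l)⁻¹ *
      (G (fun i => h i * (S⁻¹ *ᵥ (y - w)) i) (Matrix.of fun i k => h i * h k * S⁻¹ i k) *
        ker S (y - w)) := by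
  induction l with
  | nil => exact ⟨_, Pl.c 1, fun h S y _ _ => by funext w; simp [pds, hp]⟩
  | cons j l ih =>
    obtain ⟨G, h1, h2⟩ := ih
    obtain ⟨G', h3, h4⟩ := h1.der j
    refine ⟨_, h3.add (h1.mul (Pl.m j)), fun h S y hh hS => ?_⟩
    funext w
    have h5 := ((Dr.const (hp h l)⁻¹).mul ((h4 (h j) (Matrix.of fun i k => h i * h k * S⁻¹ i k)
      (fun w i => h i * (S⁻¹ *ᵥ (y - w)) i) w fun i =>
        ((Dr.const (h i)).mul (Dr.lin S⁻¹ y i)).congr (by simp; ring)).mul (Dr.ker hS y))).pd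
    rw [pds, h2 h S y hh hS, hp_cons, mul_inv, mul_assoc, eq_inv_mul_iff_mul_eq₀ (hh j).ne', h5]
    ring

/-- a wider class of covariances -/
def Wide (h : V) (S : Mx) : Prop := Sᵀ = S ∧ ∀ v : V,
  1 / 100 * ∑ i, (h i * v i) ^ 2 ≤ v ⬝ᵥ (S *ᵥ v) ∧ v ⬝ᵥ (S *ᵥ v) ≤ 7 * ∑ i, (h i * v i) ^ 2

variable {h : V} {S : Mx}

lemma Wide.inv (W : Wide h S) (hh : ∀ i, 0 < h i) (w : V) : S *ᵥ (S⁻¹ *ᵥ w) = w := by
  have h1 : S.det ≠ 0 := fun h2 => by
    obtain ⟨v, h3, h4⟩ := exists_mulVec_eq_zero_iff.2 h2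
    have h5 := (W.2 v).1
    rw [h4, dotProduct_zero] at h5
    refine h3 (funext fun i => ?_)
    have h6 := Finset.single_le_sum (f := fun i => (h i * v i) ^ 2) (fun _ _ => sq_nonneg _)
      (Finset.mem_univ i)
    have h7 : h i * v i = 0 := pow_eq_zero_iff (two_ne_zero) |>.1
      (le_antisymm (by linarith) (sq_nonneg _))
    exact (mul_eq_zero.1 h7).resolve_left (hh i).ne'
  rw [mulVec_mulVec, mul_nonsing_inv _ (isUnit_iff_ne_zero.2 h1), one_mulVec]

lemma Wide.mb (W : Wide h S) (hh : ∀ i, 0 < h i) (w : V) (i : Fin 3) :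
    (h i * (S⁻¹ *ᵥ w) i) ^ 2 ≤ 10 ^ 4 * ∑ i, (w i / h i) ^ 2 := by
  have h1 := (W.2 (S⁻¹ *ᵥ w)).1
  rw [W.inv hh] at h1
  generalize S⁻¹ *ᵥ w = v at h1 ⊢
  have h2 : v ⬝ᵥ w ≤ ∑ i, ((h i * v i) ^ 2 / 200 + 50 * (w i / h i) ^ 2) :=
    Finset.sum_le_sum fun i _ => by
      have e : v i * w i = h i * v i * (w i / h i) := by field_simp [(hh i).ne']
      rw [e]
      nlinarith [sq_nonneg (h i * v i / 10 - 10 * (w i / h i))]
  rw [Finset.sum_add_distrib, ← Finset.sum_div, ← Finset.mul_sum] at h2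
  have h6 := Finset.single_le_sum (f := fun i => (h i * v i) ^ 2) (fun _ _ => sq_nonneg _)
    (Finset.mem_univ i)
  linarith

lemma Wide.pb (W : Wide h S) (hh : ∀ i, 0 < h i) (i k : Fin 3) : |h i * h k * S⁻¹ i k| ≤ 100 := by
  have h1 := W.mb hh (Pi.single k (h k)) i
  have h2 : ∑ i, ((Pi.single k (h k) : V) i / h i) ^ 2 = 1 := by
    rw [Finset.sum_eq_single k (fun b _ hb => by simp [hb]) (by simp)]
    simp [(hh k).ne']
  have h3 : h i * (S⁻¹ *ᵥ Pi.single k (h k)) i = h i * h k * S⁻¹ i k := by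
    simp
    ring
  rw [h2, h3] at h1
  exact abs_le_of_sq_le_sq (by linarith) (by norm_num)

lemma Wide.ql (W : Wide h S) (hh : ∀ i, 0 < h i) (w : V) :
    (∑ i, (w i / h i) ^ 2) / 7 ≤ w ⬝ᵥ (S⁻¹ *ᵥ w) := by
  obtain ⟨y, hy⟩ : ∃ y : V, y = fun i => w i / (7 * h i ^ 2) := ⟨_, rfl⟩
  have h1 := W.inv hh w
  have h2 := (W.2 (y - S⁻¹ *ᵥ w)).1
  have h3 := (W.2 y).2
  have h4 : (S⁻¹ *ᵥ w) ⬝ᵥ (S *ᵥ y) = y ⬝ᵥ w := by
    rw [dotProduct_mulVec, ← mulVec_transpose, W.1, h1, dotProduct_comm]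
  have h5 : 0 ≤ ∑ i, (h i * (y - S⁻¹ *ᵥ w) i) ^ 2 := Finset.sum_nonneg fun _ _ => sq_nonneg _
  rw [mulVec_sub, sub_dotProduct, dotProduct_sub, dotProduct_sub, h4, h1] at h2
  have h6 : y ⬝ᵥ w = (∑ i, (w i / h i) ^ 2) / 7 := by
    rw [Finset.sum_div]
    exact Finset.sum_congr rfl fun i _ => by rw [hy]; field_simp [(hh i).ne']
  have h7 : 7 * ∑ i, (h i * y i) ^ 2 = (∑ i, (w i / h i) ^ 2) / 7 := by
    rw [Finset.sum_div, Finset.mul_sum]
    exact Finset.sum_congr rfl fun i _ => by rw [hy]; field_simp [(hh i).ne']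
  rw [dotProduct_comm w]
  linarith

lemma Wide.db (W : Wide h S) (hh : ∀ i, 0 < h i) :
    (Real.sqrt ((2 * Real.pi) ^ 3 * S.det))⁻¹ ≤ 3000 / (h 0 * h 1 * h 2) := by
  have h0 : 0 < h 0 * h 1 * h 2 := mul_pos (mul_pos (hh 0) (hh 1)) (hh 2)
  rcases le_or_gt S.det 0 with h1 | h1
  · rw [Real.sqrt_eq_zero'.2 (mul_nonpos_of_nonneg_of_nonpos (by positivity) h1), _root_.inv_zero]
    positivity
  have t3 : ∀ a b c : ℝ, |a| ≤ 100 → |b| ≤ 100 → |c| ≤ 100 → |a * b * c| ≤ 100 * 100 * 100 :=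
    fun a b c ha hb hc => by
      rw [abs_mul, abs_mul]
      gcongr
  have h2 : (h 0 * h 1 * h 2) ^ 2 * S⁻¹.det ≤ 6 * 10 ^ 6 := by
    have p := W.pb hh
    have a1 := abs_le.1 (t3 _ _ _ (p 0 0) (p 1 1) (p 2 2))
    have a2 := abs_le.1 (t3 _ _ _ (p 0 0) (p 1 2) (p 2 1))
    have a3 := abs_le.1 (t3 _ _ _ (p 0 1) (p 1 0) (p 2 2))
    have a4 := abs_le.1 (t3 _ _ _ (p 0 1) (p 1 2) (p 2 0))
    have a5 := abs_le.1 (t3 _ _ _ (p 0 2) (p 1 0) (p 2 1))
    have a6 := abs_le.1 (t3 _ _ _ (p 0 2) (p 1 1) (p 2 0))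
    rw [det_fin_three]
    linarith [a1.2, a2.1, a3.1, a4.2, a5.2, a6.1]
  rw [det_nonsing_inv, Ring.inverse_eq_inv', ← div_eq_mul_inv, div_le_iff₀ h1] at h2
  have h3 : (1 : ℝ) ≤ (2 * Real.pi) ^ 3 := one_le_pow₀ (by linarith [Real.pi_gt_three])
  rw [inv_le_comm₀ (Real.sqrt_pos.2 (by positivity)) (by positivity), inv_div]
  refine Real.le_sqrt_of_sq_le ?_
  rw [div_pow]
  nlinarith

lemma unif {P : List (Fin 3) → ℝ → Prop} (h1 : ∀ l, ∃ C, P l C)
    (h2 : ∀ l C C', C ≤ C' → P l C → P l C') (n : ℕ) :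
    ∃ C : ℝ, 1 ≤ C ∧ ∀ l, l.length ≤ n → P l C := by
  choose c hc using h1
  obtain ⟨C, hC⟩ := ((List.finite_length_le (Fin 3) n).image c).bddAbove
  exact ⟨max 1 C, le_max_left _ _, fun l hl =>
    h2 l _ _ ((hC ⟨l, hl, rfl⟩).trans (le_max_right _ _)) (hc l)⟩

/-- the pointwise bound -/
lemma kerb (l : List (Fin 3)) : ∃ C : ℝ, 0 ≤ C ∧ ∀ (h : V) (S : Mx) (y z : V), (∀ i, 0 < h i) →
    Wide h S → hp h l * |pds l (fun w => ker S (y - w)) z| ≤
      C / (h 0 * h 1 * h 2) * Real.exp (-(∑ i, ((y - z) i / h i) ^ 2) / 30) := by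
  obtain ⟨G, h1, h2⟩ := form l
  obtain ⟨C, d, h3, h4⟩ := h1.grow
  refine ⟨3000 * (C * (3000 ^ d * d.factorial * Real.exp (1 / 30))), by positivity,
    fun h S y z hh W => ?_⟩
  have h5 := hp_pos hh l
  rw [h2 h S y hh W.1]
  simp only
  generalize y - z = w
  have h6 := W.ql hh w
  have h7 := W.mb hh w
  have h8 : 0 ≤ ∑ i, (w i / h i) ^ 2 := Finset.sum_nonneg fun _ _ => sq_nonneg _
  generalize ∑ i, (w i / h i) ^ 2 = s at h6 h7 h8 ⊢
  have h9 := h4 (fun i => h i * (S⁻¹ *ᵥ w) i) (Matrix.of fun i k => h i * h k * S⁻¹ i k)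
    (100 * (1 + s)) (by linarith)
    (fun i => abs_le_of_sq_le_sq ((h7 i).trans (by nlinarith)) (by linarith))
    fun i k => (W.pb hh i k).trans (by linarith)
  have h10 : (100 * (1 + s)) ^ d ≤
      3000 ^ d * d.factorial * Real.exp (1 / 30) * Real.exp (s / 30) := by
    have h11 := Real.pow_div_factorial_le_exp ((1 + s) / 30) (by linarith) d
    rw [div_le_iff₀ (by positivity), add_div, Real.exp_add] at h11
    calc (100 * (1 + s)) ^ d = 3000 ^ d * ((1 + s) / 30) ^ d := by rw [← mul_pow]; congr 1; ring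
      _ ≤ 3000 ^ d * (Real.exp (1 / 30) * Real.exp (s / 30) * d.factorial) := by
        rw [add_div]
        gcongr
      _ = _ := by ring
  have h11 : |ker S w| ≤ Real.exp (-s / 14) * (3000 / (h 0 * h 1 * h 2)) := by
    rw [ker, abs_of_nonneg (by positivity), div_eq_mul_inv]
    exact mul_le_mul (Real.exp_le_exp.2 (by linarith)) (W.db hh) (by positivity) (by positivity)
  have h12 : Real.exp (s / 30) * Real.exp (-s / 14) ≤ Real.exp (-s / 30) := by
    rw [← Real.exp_add]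
    exact Real.exp_le_exp.2 (by linarith)
  have h0 : 0 < h 0 * h 1 * h 2 := mul_pos (mul_pos (hh 0) (hh 1)) (hh 2)
  rw [abs_mul, abs_of_pos (inv_pos.2 h5), ← mul_assoc, mul_inv_cancel₀ h5.ne', one_mul, abs_mul]
  calc _ ≤ C * (3000 ^ d * d.factorial * Real.exp (1 / 30) * Real.exp (s / 30)) *
        (Real.exp (-s / 14) * (3000 / (h 0 * h 1 * h 2))) :=
        mul_le_mul (h9.trans (mul_le_mul_of_nonneg_left h10 h3)) h11 (abs_nonneg _) (by positivity)
    _ = 3000 * (C * (3000 ^ d * d.factorial * Real.exp (1 / 30))) / (h 0 * h 1 * h 2) *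
        (Real.exp (s / 30) * Real.exp (-s / 14)) := by ring
    _ ≤ _ := mul_le_mul_of_nonneg_left h12 (by positivity)

end KPa

end
end Pool.Agent.MP_20bec2_an.T3

end MrgPart0

-- ======== part 1: formerly Pool.Agent.MP_20bec2_an.T3.KPb
section MrgPart1

/-! Bounds for densities along a segment of maps and covariances. -/

set_option autoImplicit false
open MeasureTheory Set Filter Matrix Topology

namespace Pool.Agent.MP_20bec2_an.T3
noncomputable section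
open Classical

namespace KPb

open KPa

lemma sm_pd {g : V → ℝ} (h : Sm g) (j : Fin 3) : Sm (pd j g) :=
  (h.fderiv_right (m := ((⊤ : ℕ∞) : WithTop ℕ∞)) (by exact_mod_cast le_top)).clm_apply
    contDiff_const

lemma sm_pds {g : V → ℝ} (h : Sm g) (l : List (Fin 3)) : Sm (pds l g) := by
  induction l with
  | nil => exact h
  | cons j l ih => exact sm_pd ih j

lemma pds_snoc (g : V → ℝ) (j : Fin 3) (l : List (Fin 3)) : pds (l ++ [j]) g = pds l (pd j g) := by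
  induction l with
  | nil => rfl
  | cons k l ih => rw [List.cons_append, pds, ih, pds]

lemma pds_add {f g : V → ℝ} (hf : Sm f) (hg : Sm g) (l : List (Fin 3)) :
    pds l (fun z => f z + g z) = fun z => pds l f z + pds l g z := by
  induction l with
  | nil => rfl
  | cons j l ih =>
    funext z
    rw [pds, ih, pd, fderiv_fun_add ((sm_pds hf l).differentiable (by simp) z)
      ((sm_pds hg l).differentiable (by simp) z)]
    rfl

lemma pds_mul {f : V → ℝ} (hf : Sm f) (c : ℝ) (l : List (Fin 3)) :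
    pds l (fun z => c * f z) = fun z => c * pds l f z := by
  induction l with
  | nil => rfl
  | cons j l ih =>
    funext z
    rw [pds, ih, pd, fderiv_const_mul ((sm_pds hf l).differentiable (by simp) z)]
    rfl

/-- the envelope has a bounded integral -/
structure Env (C0 : ℝ) (h : V) (U : Set V) (Z : V → V) : Prop where
  hh : ∀ i, 0 < h i
  cl : IsCompact U
  ev : ∀ z, ∃ g : V → ℝ, Integrable g ∧ (∀ x, 0 ≤ g x) ∧ ∫ x, g x ≤ C0 ∧ ∀ x ∈ U,
    (h 0 * h 1 * h 2)⁻¹ * Real.exp (-(∑ i, ((Z x - z) i / h i) ^ 2) / 60) ≤ g x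

lemma ker_diag {h : V} (hh : ∀ i, 0 < h i) (w : V) :
    Real.sqrt ((2 * Real.pi) ^ 3 * 27000) * ker (diagonal fun i => 30 * h i ^ 2) w =
      (h 0 * h 1 * h 2)⁻¹ * Real.exp (-(∑ i, (w i / h i) ^ 2) / 60) := by
  have h0 : 0 < h 0 * h 1 * h 2 := mul_pos (mul_pos (hh 0) (hh 1)) (hh 2)
  have e1 : (diagonal fun i => 30 * h i ^ 2 : Mx)⁻¹ = diagonal fun i => (30 * h i ^ 2)⁻¹ :=
    inv_eq_right_inv (by
      rw [diagonal_mul_diagonal, ← diagonal_one]
      congr 1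
      funext i
      exact mul_inv_cancel₀ (by have := hh i; positivity))
  have e2 : w ⬝ᵥ ((diagonal fun i => (30 * h i ^ 2)⁻¹ : Mx) *ᵥ w) = (∑ i, (w i / h i) ^ 2) / 30 := by
    rw [Finset.sum_div]
    exact Finset.sum_congr rfl fun i _ => by rw [mulVec_diagonal]; field_simp [(hh i).ne']
  have e3 : (2 * Real.pi) ^ 3 * (diagonal fun i => 30 * h i ^ 2 : Mx).det =
      (2 * Real.pi) ^ 3 * 27000 * (h 0 * h 1 * h 2) ^ 2 := by
    rw [det_diagonal, Fin.prod_univ_three]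
    ring
  have h1 : 0 < Real.sqrt ((2 * Real.pi) ^ 3 * 27000) := Real.sqrt_pos.2 (by positivity)
  rw [ker, e1, e2, e3, Real.sqrt_mul' _ (sq_nonneg (h 0 * h 1 * h 2)), Real.sqrt_sq h0.le,
    show -((∑ i, (w i / h i) ^ 2) / 30) / 2 = -(∑ i, (w i / h i) ^ 2) / 60 by ring]
  field_simp

lemma env (h1 : K1Stmt) (hB : KBStmt) : ∃ C0 : ℝ, ∀ h U a A Z S, KL h U a A Z S → Env C0 h U Z := by
  obtain ⟨C, -, -, hC⟩ := hB 0
  refine ⟨Real.sqrt ((2 * Real.pi) ^ 3 * 27000) * C, fun h U a A Z S K => ⟨K.hh, K.cl, fun z => ?_⟩⟩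
  have K' : KL (fun i => 3 * h i) U (U.indicator fun _ => 1) 1 Z
      (fun _ => diagonal fun i => 30 * h i ^ 2) :=
    ⟨fun i => by have := K.hh i; positivity, K.cx, K.cl,
      measurable_const.indicator K.cl.measurableSet,
      fun x => by by_cases hx : x ∈ U <;> simp [hx], fun x hx => indicator_of_notMem hx _, K.dZ,
      K.bZ, fun _ _ => continuous_const, fun _ _ => ⟨diagonal_transpose _, fun v => by
        simp only [dotProduct, mulVec_diagonal, Fin.sum_univ_three]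
        constructor <;>
          nlinarith [sq_nonneg (h 0 * v 0), sq_nonneg (h 1 * v 1), sq_nonneg (h 2 * v 2)]⟩⟩
  obtain ⟨g1, g2, -⟩ := hC _ _ _ _ _ _ K'
  have g3 := g2 [] le_rfl z (mem_univ _)
  simp only [hp, List.map_nil, List.prod_nil, one_mul, mul_one, pds] at g3
  refine ⟨fun x => Real.sqrt ((2 * Real.pi) ^ 3 * 27000) * (U.indicator (fun _ => (1 : ℝ)) x *
    ker (diagonal fun i => 30 * h i ^ 2) (Z x - z)), ((h1 _ _ _ g1).2.1 z).const_mul _,
    fun x => mul_nonneg (Real.sqrt_nonneg _) (mul_nonneg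
      (indicator_nonneg (fun _ _ => zero_le_one) x) (by unfold ker; positivity)), ?_,
    fun x hx => ?_⟩
  · rw [integral_const_mul]
    exact mul_le_mul_of_nonneg_left ((le_abs_self _).trans g3) (Real.sqrt_nonneg _)
  · simp only [indicator_of_mem hx, one_mul]
    exact (ker_diag K.hh _).ge

/-- weight, map and covariance near the reference map `Z` -/
structure Adm (h : V) (U : Set V) (Z : V → V) (b : V → ℝ) (Bd : ℝ) (Z1 : V → V) (S1 : V → Mx) :
    Prop where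
  mb : Measurable b
  bb : ∀ x, |b x| ≤ Bd
  cZ : Continuous Z1
  cS : ∀ i j, Continuous fun x => S1 x i j
  loc : ∀ x, b x ≠ 0 → x ∈ U ∧ (∀ i, |Z1 x i - Z x i| ≤ h i) ∧ Wide h (S1 x)

variable {C0 : ℝ} {h : V} {U : Set V} {Z Z1 Z2 u : V → V} {b : V → ℝ} {Bd δ β : ℝ}
  {S1 S2 B : V → Mx}

lemma Adm.nn (A : Adm h U Z b Bd Z1 S1) : 0 ≤ Bd := (abs_nonneg _).trans (A.bb 0)

lemma Adm.gk (E : Env C0 h U Z) (A : Adm h U Z b Bd Z1 S1) : GK b Z1 S1 := by
  obtain ⟨R, hR⟩ := E.cl.isBounded.exists_norm_le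
  obtain ⟨c, c0, c1⟩ : ∃ c : ℝ, 0 < c ∧ ∀ i, c ≤ h i ^ 2 :=
    ⟨min (min (h 0 ^ 2) (h 1 ^ 2)) (h 2 ^ 2),
      lt_min (lt_min (pow_pos (E.hh 0) 2) (pow_pos (E.hh 1) 2)) (pow_pos (E.hh 2) 2), fun i => by
        fin_cases i
        exacts [(min_le_left _ _).trans (min_le_left _ _),
          (min_le_left _ _).trans (min_le_right _ _), min_le_right _ _]⟩
  have h0 := A.nn
  have h1 : 0 ≤ c / 100 * |R| := by positivity
  have h2 : ∀ i, h i ^ 2 ≤ ∑ i, h i ^ 2 := fun i =>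
    Finset.single_le_sum (f := fun i => h i ^ 2) (fun _ _ => sq_nonneg _) (Finset.mem_univ i)
  have h3 : 0 ≤ ∑ i, h i ^ 2 := Finset.sum_nonneg fun _ _ => sq_nonneg _
  refine ⟨A.mb, A.cZ, A.cS, c / 100, Bd + c / 100 * |R| + 7 * ∑ i, h i ^ 2, by positivity,
    fun x => ⟨by linarith [A.bb x], fun hx => ?_⟩⟩
  obtain ⟨a1, -, a2⟩ := A.loc x hx
  have a3 : c / 100 * ‖x‖ ≤ c / 100 * |R| :=
    mul_le_mul_of_nonneg_left ((hR x a1).trans (le_abs_self _)) (by positivity)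
  refine ⟨by linarith [norm_nonneg (Z1 x)], a2.1, fun v => ?_⟩
  have a4 : c * (v ⬝ᵥ v) ≤ ∑ i, (h i * v i) ^ 2 := by
    rw [dotProduct, Finset.mul_sum]
    exact Finset.sum_le_sum fun i _ => by nlinarith [c1 i, sq_nonneg (v i)]
  have a5 : ∑ i, (h i * v i) ^ 2 ≤ (∑ i, h i ^ 2) * (v ⬝ᵥ v) := by
    rw [dotProduct, Finset.mul_sum]
    exact Finset.sum_le_sum fun i _ => by nlinarith [h2 i, sq_nonneg (v i)]
  have a6 : 0 ≤ v ⬝ᵥ v := Finset.sum_nonneg fun _ _ => mul_self_nonneg _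
  have a7 := mul_nonneg (add_nonneg h0 h1) a6
  exact ⟨by linarith [(a2.2 v).1], by linarith [(a2.2 v).2]⟩

lemma Adm.wt (A : Adm h U Z b Bd Z1 S1) {w : V → ℝ} (hw : Continuous w) {κ : ℝ} (h0 : 0 ≤ κ)
    (h1 : ∀ x, b x ≠ 0 → |w x| ≤ κ) : Adm h U Z (fun x => b x * w x) (Bd * κ) Z1 S1 :=
  ⟨A.mb.mul hw.measurable, fun x => by
    by_cases hx : b x = 0
    · simpa [hx] using mul_nonneg A.nn h0
    · rw [abs_mul]
      exact mul_le_mul (A.bb x) (h1 x hx) (abs_nonneg _) A.nn,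
    A.cZ, A.cS, fun x hx => A.loc x (left_ne_zero_of_mul hx)⟩

/-- the uniform bound -/
def DBp (C0 C : ℝ) (n : ℕ) : Prop := ∀ l : List (Fin 3), l.length ≤ n →
  ∀ h U Z b Bd Z1 S1 z, Env C0 h U Z → Adm h U Z b Bd Z1 S1 →
    hp h l * |pds l (dens b Z1 S1) z| ≤ C * Bd

lemma db (h1 : K1Stmt) (C0 : ℝ) (n : ℕ) : ∃ C : ℝ, 1 ≤ C ∧ DBp C0 C n := by
  refine unif (fun l => ?_) (fun l C C' hC H h U Z b Bd Z1 S1 z E A =>
    (H h U Z b Bd Z1 S1 z E A).trans (mul_le_mul_of_nonneg_right hC A.nn)) n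
  obtain ⟨C, hC, hk⟩ := kerb l
  refine ⟨C * Real.exp (1 / 10) * C0, fun h U Z b Bd Z1 S1 z E A => ?_⟩
  obtain ⟨g, g1, g2, g3, g4⟩ := E.ev z
  have h0 := hp_pos E.hh l
  have h2 := A.nn
  have h3 : 0 < h 0 * h 1 * h 2 := mul_pos (mul_pos (E.hh 0) (E.hh 1)) (E.hh 2)
  rw [((h1 _ _ _ (A.gk E)).2.2 l z).2, ← abs_of_pos h0, ← abs_mul, ← integral_const_mul]
  rw [← Real.norm_eq_abs]
  refine (norm_integral_le_of_norm_le (g1.const_mul (C * Real.exp (1 / 10) * Bd))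
    (Eventually.of_forall fun x => ?_)).trans ?_
  · by_cases hx : b x = 0
    · simpa [hx] using mul_nonneg (by positivity : 0 ≤ C * Real.exp (1 / 10) * Bd) (g2 x)
    obtain ⟨a1, a2, a3⟩ := A.loc x hx
    have a4 := hk h (S1 x) (Z1 x) z E.hh a3
    have a5 : ∑ i, ((Z x - z) i / h i) ^ 2 ≤ ∑ i, (2 * ((Z1 x - z) i / h i) ^ 2 + 2) :=
      Finset.sum_le_sum fun i _ => by
        have a6 : |(Z1 x i - Z x i) / h i| ≤ 1 := by
          rw [abs_div, abs_of_pos (E.hh i), div_le_one (E.hh i)]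
          exact a2 i
        have a7 : (Z x - z) i / h i = (Z1 x - z) i / h i - (Z1 x i - Z x i) / h i := by
          simp only [Pi.sub_apply]
          ring
        rw [a7]
        nlinarith [abs_le.1 a6, sq_nonneg ((Z1 x - z) i / h i + (Z1 x i - Z x i) / h i)]
    rw [Finset.sum_add_distrib, ← Finset.mul_sum] at a5
    simp only [Finset.sum_const, Finset.card_univ, Fintype.card_fin, nsmul_eq_mul,
      Nat.cast_ofNat] at a5
    have a6 : Real.exp (-(∑ i, ((Z1 x - z) i / h i) ^ 2) / 30) ≤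
        Real.exp (1 / 10) * Real.exp (-(∑ i, ((Z x - z) i / h i) ^ 2) / 60) := by
      rw [← Real.exp_add]
      exact Real.exp_le_exp.2 (by linarith)
    rw [Real.norm_eq_abs, mul_left_comm, abs_mul, abs_mul, abs_of_pos h0]
    calc _ ≤ Bd * (C / (h 0 * h 1 * h 2) * (Real.exp (1 / 10) *
          Real.exp (-(∑ i, ((Z x - z) i / h i) ^ 2) / 60))) :=
          mul_le_mul (A.bb x) (a4.trans (mul_le_mul_of_nonneg_left a6 (by positivity)))
            (by positivity) h2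
      _ = C * Real.exp (1 / 10) * Bd * ((h 0 * h 1 * h 2)⁻¹ *
          Real.exp (-(∑ i, ((Z x - z) i / h i) ^ 2) / 60)) := by ring
      _ ≤ _ := mul_le_mul_of_nonneg_left (g4 x a1) (by positivity)
  · rw [integral_const_mul]
    linarith [mul_le_mul_of_nonneg_left g3 (by positivity : 0 ≤ C * Real.exp (1 / 10) * Bd)]

/-- a segment of admissible data -/
structure Pth (h : V) (U : Set V) (Z : V → V) (b : V → ℝ) (Bd : ℝ) (Z1 : V → V) (S1 : V → Mx)
    (u : V → V) (B : V → Mx) (δ β : ℝ) : Prop where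
  a0 : Adm h U Z b Bd Z1 S1
  a1 : Adm h U Z b Bd (fun x => Z1 x + u x) fun x => S1 x + (B x + (B x)ᵀ)
  cu : Continuous u
  cB : ∀ i j, Continuous fun x => B x i j
  δ0 : 0 ≤ δ
  β0 : 0 ≤ β
  su : ∀ x, b x ≠ 0 → ∀ i, |u x i| ≤ δ * h i
  sB : ∀ x, b x ≠ 0 → ∀ i j, |B x i j| ≤ β * (h i * h j)

lemma Pth.gkp (E : Env C0 h U Z) (P : Pth h U Z b Bd Z1 S1 u B δ β) : GKp b Z1 S1 u B := by
  have h1 : ∀ i, h i ≤ ∑ i, h i := fun i =>
    Finset.single_le_sum (fun i _ => (E.hh i).le) (Finset.mem_univ i)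
  have h2 : 0 ≤ ∑ i, h i := (E.hh 0).le.trans (h1 0)
  have h3 := mul_nonneg P.δ0 h2
  have h4 := mul_nonneg P.β0 (mul_nonneg h2 h2)
  refine ⟨P.a0.gk E, P.a1.gk E, P.cu, P.cB, δ * ∑ i, h i + β * ((∑ i, h i) * ∑ i, h i),
    fun x hx => ⟨(pi_norm_le_iff_of_nonneg (by linarith)).2 fun i => ?_, fun i j => ?_⟩⟩
  · linarith [P.su x hx i, mul_le_mul_of_nonneg_left (h1 i) P.δ0, Real.norm_eq_abs (u x i)]
  · have := mul_le_mul_of_nonneg_left (mul_le_mul (h1 i) (h1 j) (E.hh j).le h2) P.β0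
    simp only [cm, of_apply]
    linarith [P.sB x hx i j]

lemma Pth.at (P : Pth h U Z b Bd Z1 S1 u B δ β) {t : ℝ} (ht : t ∈ Icc (0 : ℝ) 1) :
    Adm h U Z b Bd (fun x => Z1 x + t • u x) fun x => S1 x + t • (B x + (B x)ᵀ) := by
  refine ⟨P.a0.mb, P.a0.bb, P.a0.cZ.add (P.cu.const_smul t), fun i j => ?_, fun x hx => ?_⟩
  · exact (P.a0.cS i j).add (((P.cB i j).add (P.cB j i)).const_smul t)
  obtain ⟨a1, a2, a3⟩ := P.a0.loc x hx
  obtain ⟨-, a4, a5⟩ := P.a1.loc x hx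
  obtain ⟨t0, t1⟩ := ht
  refine ⟨a1, fun i => ?_, ?_, fun v => ?_⟩
  · have a6 := abs_le.1 (a2 i)
    have a7 := abs_le.1 (a4 i)
    simp only [Pi.add_apply, Pi.smul_apply, smul_eq_mul] at a7 ⊢
    exact abs_le.2 ⟨by nlinarith [a6.1, a7.1], by nlinarith [a6.2, a7.2]⟩
  · rw [transpose_add, a3.1, transpose_smul, transpose_add, transpose_transpose, add_comm (B x)ᵀ]
  · have a6 := a3.2 v
    have a7 := a5.2 v
    rw [add_mulVec, dotProduct_add] at a7 ⊢
    rw [smul_mulVec, dotProduct_smul, smul_eq_mul]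
    exact ⟨by nlinarith [a6.1, a7.1], by nlinarith [a6.2, a7.2]⟩

lemma Pth.wt (P : Pth h U Z b Bd Z1 S1 u B δ β) {w : V → ℝ} (hw : Continuous w) {κ : ℝ}
    (h0 : 0 ≤ κ) (h1 : ∀ x, b x ≠ 0 → |w x| ≤ κ) :
    Pth h U Z (fun x => b x * w x) (Bd * κ) Z1 S1 u B δ β :=
  ⟨P.a0.wt hw h0 h1, P.a1.wt hw h0 h1, P.cu, P.cB, P.δ0, P.β0,
    fun x hx => P.su x (left_ne_zero_of_mul hx), fun x hx => P.sB x (left_ne_zero_of_mul hx)⟩

/-- a piece of the segment -/
lemma Pth.sub (P : Pth h U Z b Bd Z1 S1 u B δ β) (s : ℝ) {Z3 : V → V} {S3 : V → Mx}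
    (A2 : Adm h U Z b Bd Z2 S2) (A3 : Adm h U Z b Bd Z3 S3) (e1 : ∀ x, Z3 x = Z2 x + s • u x)
    (e2 : ∀ x, S3 x = S2 x + s • (B x + (B x)ᵀ)) :
    Pth h U Z b Bd Z2 S2 (fun x => s • u x) (fun x => s • B x) (|s| * δ) (|s| * β) ∧
      dens b Z3 S3 = dens b (fun x => Z2 x + s • u x) fun x => S2 x + (s • B x + (s • B x)ᵀ) := by
  obtain rfl : Z3 = fun x => Z2 x + s • u x := funext e1
  obtain rfl : S3 = fun x => S2 x + (s • B x + (s • B x)ᵀ) :=
    funext fun x => by rw [e2, transpose_smul, smul_add]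
  refine ⟨⟨A2, A3, P.cu.const_smul s, fun i j => (P.cB i j).const_smul s,
    mul_nonneg (abs_nonneg _) P.δ0, mul_nonneg (abs_nonneg _) P.β0, fun x hx i => ?_,
    fun x hx i j => ?_⟩, rfl⟩
  · rw [Pi.smul_apply, smul_eq_mul, abs_mul, mul_assoc]
    exact mul_le_mul_of_nonneg_left (P.su x hx i) (abs_nonneg _)
  · rw [Matrix.smul_apply, smul_eq_mul, abs_mul, mul_assoc]
    exact mul_le_mul_of_nonneg_left (P.sB x hx i j) (abs_nonneg _)

end KPb

end
end Pool.Agent.MP_20bec2_an.T3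

end MrgPart1

-- ======== part 2: formerly Pool.Agent.MP_20bec2_an.T3.KPc
section MrgPart2

/-! First and second order expansion along a segment. -/

set_option autoImplicit false
open MeasureTheory Set Filter Matrix Topology

namespace Pool.Agent.MP_20bec2_an.T3
noncomputable section
open Classical

namespace KPc

open KPa KPb

/-- derivatives of the density at time `t` -/
def FF (b : V → ℝ) (Z1 : V → V) (S1 : V → Mx) (u : V → V) (B : V → Mx) (l : List (Fin 3)) (z : V)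
    (t : ℝ) : ℝ :=
  pds l (dens b (fun x => Z1 x + t • u x) fun x => S1 x + t • (B x + (B x)ᵀ)) z

variable {C0 C : ℝ} {n : ℕ} {h : V} {U : Set V} {Z Z1 u : V → V} {b : V → ℝ} {Bd δ β : ℝ}
  {S1 B : V → Mx} {l : List (Fin 3)}

lemma FF_zero (z : V) : FF b Z1 S1 u B l z 0 = pds l (dens b Z1 S1) z := by simp [FF]

lemma cui (P : Pth h U Z b Bd Z1 S1 u B δ β) (i : Fin 3) : Continuous fun x => u x i :=
  (continuous_apply i).comp P.cu

lemma wu (E : Env C0 h U Z) (P : Pth h U Z b Bd Z1 S1 u B δ β) (i : Fin 3) :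
    Pth h U Z (fun x => b x * u x i) (Bd * (δ * h i)) Z1 S1 u B δ β :=
  P.wt (cui P i) (mul_nonneg P.δ0 (E.hh i).le) fun x hx => P.su x hx i

lemma wB (E : Env C0 h U Z) (P : Pth h U Z b Bd Z1 S1 u B δ β) (i j : Fin 3) :
    Pth h U Z (fun x => b x * B x i j) (Bd * (β * (h i * h j))) Z1 S1 u B δ β :=
  P.wt (P.cB i j) (mul_nonneg P.β0 (mul_pos (E.hh i) (E.hh j)).le) fun x hx => P.sB x hx i j

lemma fluxf (h2 : K2Stmt) (E : Env C0 h U Z) (P : Pth h U Z b Bd Z1 S1 u B δ β) (z : V)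
    (i : Fin 3) : pds l (fun w => flux b Z1 S1 u B w i) z = ∫ t in (0 : ℝ)..1,
      (-FF (fun x => b x * u x i) Z1 S1 u B l z t +
        ∑ j, FF (fun x => b x * B x i j) Z1 S1 u B (l ++ [j]) z t) := by
  rw [(h2 _ _ _ _ _ (P.gkp E)).2.2 l z i]
  simp only [FF, pds_snoc]

lemma diff (h1 : K1Stmt) (h2 : K2Stmt) (E : Env C0 h U Z) (P : Pth h U Z b Bd Z1 S1 u B δ β)
    (z : V) : pds l (dens b (fun x => Z1 x + u x) fun x => S1 x + (B x + (B x)ᵀ)) z =
      pds l (dens b Z1 S1) z + ∑ i, pds (l ++ [i]) (fun w => flux b Z1 S1 u B w i) z := by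
  obtain ⟨a1, a2, -⟩ := h2 _ _ _ _ _ (P.gkp E)
  have a3 : ∀ i, Sm (pd i fun w => flux b Z1 S1 u B w i) := fun i =>
    sm_pd (contDiff_pi.1 a1 i) i
  rw [funext a2]
  simp only [dv, Fin.sum_univ_three, pds_snoc]
  rw [pds_add (h1 _ _ _ (P.a0.gk E)).1 (((a3 0).add (a3 1)).add (a3 2)),
    pds_add ((a3 0).add (a3 1)) (a3 2), pds_add (a3 0) (a3 1)]

lemma cancel {H a x y : ℝ} (ha : 0 < a) (h : H * a * x ≤ y * a) : H * x ≤ y :=
  le_of_mul_le_mul_right (by linarith) ha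

lemma int_le {f : ℝ → ℝ} {H ε : ℝ} (hH : 0 < H) (h : ∀ t ∈ Icc (0 : ℝ) 1, H * |f t| ≤ ε) :
    H * |∫ t in (0 : ℝ)..1, f t| ≤ ε := by
  have := intervalIntegral.norm_integral_le_of_norm_le_const (a := 0) (b := 1) (f := f)
    (C := ε / H) fun t ht => by
      rw [uIoc_of_le zero_le_one] at ht
      rw [Real.norm_eq_abs, le_div_iff₀' hH]
      exact h t ⟨ht.1.le, ht.2⟩
  rwa [sub_zero, abs_one, mul_one, Real.norm_eq_abs, le_div_iff₀' hH] at this

lemma sum3 {H ε : ℝ} (hH : 0 < H) {f : Fin 3 → ℝ} (h : ∀ j, H * |f j| ≤ ε) :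
    H * |∑ j, f j| ≤ 3 * ε := by
  have h1 := mul_le_mul_of_nonneg_left (Finset.abs_sum_le_sum_abs f Finset.univ) hH.le
  rw [Fin.sum_univ_three (fun j => |f j|)] at h1
  linarith [h 0, h 1, h 2]

lemma add2 {H x y ε ε' : ℝ} (hH : 0 < H) (h : H * |x| ≤ ε) (h' : H * |y| ≤ ε') :
    H * |x + y| ≤ ε + ε' := by
  linarith [mul_le_mul_of_nonneg_left (abs_add_le x y) hH.le]

lemma bterm (D : DBp C0 C (n + 1)) (E : Env C0 h U Z) (P : Pth h U Z b Bd Z1 S1 u B δ β)
    (hl : l.length ≤ n) (z : V) (i : Fin 3) {t : ℝ} (ht : t ∈ Icc (0 : ℝ) 1) :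
    hp h l * |∑ j, FF (fun x => b x * B x i j) Z1 S1 u B (l ++ [j]) z t| ≤
      3 * (C * Bd * β * h i) :=
  sum3 (hp_pos E.hh l) fun j => cancel (E.hh j) (by
    have := D (l ++ [j]) (by simpa using hl) _ _ _ _ _ _ _ z E ((wB E P i j).at ht)
    rw [hp_snoc] at this
    exact this.trans_eq (by ring))

lemma fb (h2 : K2Stmt) (D : DBp C0 C (n + 1)) (E : Env C0 h U Z)
    (P : Pth h U Z b Bd Z1 S1 u B δ β) (hl : l.length ≤ n) (z : V) (i : Fin 3) :
    hp h l * |pds l (fun w => flux b Z1 S1 u B w i) z| ≤ C * Bd * (δ + 3 * β) * h i := by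
  rw [fluxf h2 E P]
  refine int_le (hp_pos E.hh l) fun t ht => ?_
  have h3 := D l (by omega) _ _ _ _ _ _ _ z E ((wu E P i).at ht)
  rw [← abs_neg] at h3
  exact (add2 (hp_pos E.hh l) h3 (bterm D E P hl z i ht)).trans_eq (by ring)

/-- first order -/
lemma pl (h1 : K1Stmt) (h2 : K2Stmt) (D : DBp C0 C (n + 2)) (E : Env C0 h U Z)
    (P : Pth h U Z b Bd Z1 S1 u B δ β) (hl : l.length ≤ n) (z : V) :
    hp h l * |pds l (dens b (fun x => Z1 x + u x) fun x => S1 x + (B x + (B x)ᵀ)) z -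
      pds l (dens b Z1 S1) z| ≤ 3 * (C * Bd * (δ + 3 * β)) := by
  rw [diff h1 h2 E P, add_sub_cancel_left]
  refine sum3 (hp_pos E.hh l) fun i => cancel (E.hh i) ?_
  rw [← hp_snoc]
  exact fb h2 D E P (by simpa using hl) z i

lemma lip (h1 : K1Stmt) (h2 : K2Stmt) (D : DBp C0 C (n + 2)) (E : Env C0 h U Z)
    (P : Pth h U Z b Bd Z1 S1 u B δ β) (hl : l.length ≤ n) (z : V) {t t' : ℝ}
    (ht : t ∈ Icc (0 : ℝ) 1) (ht' : t' ∈ Icc (0 : ℝ) 1) :
    hp h l * |FF b Z1 S1 u B l z t' - FF b Z1 S1 u B l z t| ≤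
      3 * (C * Bd * (δ + 3 * β)) * |t' - t| := by
  obtain ⟨P', e⟩ := P.sub (t' - t) (P.at ht) (P.at ht') (fun x => by rw [sub_smul]; abel)
    fun x => by rw [sub_smul]; abel
  rw [FF, FF, e]
  exact (pl h1 h2 D E P' hl z).trans_eq (by ring)

lemma cont (h1 : K1Stmt) (h2 : K2Stmt) (E : Env C0 h U Z) (P : Pth h U Z b Bd Z1 S1 u B δ β)
    (l : List (Fin 3)) (z : V) : ContinuousOn (FF b Z1 S1 u B l z) (Icc 0 1) := by
  obtain ⟨C, -, D⟩ := db h1 C0 (l.length + 2)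
  refine (LipschitzOnWith.of_dist_le' (K := 3 * (C * Bd * (δ + 3 * β)) / hp h l)
    fun t' ht' t ht => ?_).continuousOn
  rw [Real.dist_eq, Real.dist_eq, div_mul_eq_mul_div, le_div_iff₀' (hp_pos E.hh l)]
  exact lip h1 h2 D E P le_rfl z ht ht'

/-- the flux is compared with the integral of a continuous function -/
lemma close (h1 : K1Stmt) (h2 : K2Stmt) (E : Env C0 h U Z) (P : Pth h U Z b Bd Z1 S1 u B δ β)
    (z : V) (i : Fin 3) {g : ℝ → ℝ} (hg : Continuous g) {ε : ℝ}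
    (H : ∀ t ∈ Icc (0 : ℝ) 1, hp h l * |-FF (fun x => b x * u x i) Z1 S1 u B l z t +
      ∑ j, FF (fun x => b x * B x i j) Z1 S1 u B (l ++ [j]) z t - g t| ≤ ε) :
    hp h l * |pds l (fun w => flux b Z1 S1 u B w i) z - ∫ t in (0 : ℝ)..1, g t| ≤ ε := by
  rw [fluxf h2 E P, ← intervalIntegral.integral_sub _ (hg.intervalIntegrable _ _)]
  · exact int_le (hp_pos E.hh l) H
  · refine ContinuousOn.intervalIntegrable ?_
    rw [uIcc_of_le zero_le_one]
    exact (cont h1 h2 E (wu E P i) l z).neg.add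
      (continuousOn_finsetSum _ fun j _ => cont h1 h2 E (wB E P i j) _ z)

/-- the leading part of the flux -/
lemma so (h1 : K1Stmt) (h2 : K2Stmt) (D : DBp C0 C (n + 2)) (hC : 0 ≤ C) (E : Env C0 h U Z)
    (P : Pth h U Z b Bd Z1 S1 u B δ β) (hl : l.length ≤ n) (z : V) (i : Fin 3) :
    hp h l * |pds l (fun w => flux b Z1 S1 u B w i) z +
      pds l (dens (fun x => b x * u x i) Z1 S1) z| ≤
      C * Bd * (3 * δ * (δ + 3 * β) + 3 * β) * h i := by
  have h3 := close (l := l) h1 h2 E P z i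
    (continuous_const (y := -pds l (dens (fun x => b x * u x i) Z1 S1) z))
    (ε := C * Bd * (3 * δ * (δ + 3 * β) + 3 * β) * h i) fun t ht => by
      have h4 := lip h1 h2 D E (wu E P i) hl z (left_mem_Icc.2 zero_le_one) ht
      have h5 := bterm (fun l hl => D l (hl.trans (Nat.le_succ _))) E P hl z i ht
      have h6 : 0 ≤ 3 * (C * (Bd * (δ * h i)) * (δ + 3 * β)) := by
        have := P.a0.nn
        have := P.δ0
        have := P.β0
        have := E.hh i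
        positivity
      rw [FF_zero, sub_zero, abs_of_nonneg ht.1, ← abs_neg] at h4
      have h7 := add2 (hp_pos E.hh l) (h4.trans (mul_le_of_le_one_right h6 ht.2)) h5
      convert h7 using 2
      · congr 1
        ring
      · ring
  simpa using h3

/-- small symmetric perturbations stay in the wide class -/
lemma wide {S A : Mx} (hS : PD h S) (hA : Aᵀ = A) {ε : ℝ} (hε : ε ≤ 1 / 500)
    (h1 : ∀ i j, |A i j| ≤ ε * (h i * h j)) (hh : ∀ i, 0 < h i) : Wide h (S + A) := by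
  refine ⟨by rw [transpose_add, hS.1, hA], fun v => ?_⟩
  have h0 : 0 ≤ ε := nonneg_of_mul_nonneg_left ((abs_nonneg _).trans (h1 0 0))
    (mul_pos (hh 0) (hh 0))
  have h2 : ∀ i j, |v i * (A i j * v j)| ≤ 1 / 1000 * ((h i * v i) ^ 2 + (h j * v j) ^ 2) :=
    fun i j => by
      have h3 : |v i * (A i j * v j)| ≤ 1 / 500 * (|h i * v i| * |h j * v j|) := by
        rw [abs_mul, abs_mul, abs_mul, abs_mul, abs_of_pos (hh i), abs_of_pos (hh j)]
        have h4 := (h1 i j).trans (mul_le_mul_of_nonneg_right hε (mul_pos (hh i) (hh j)).le)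
        linarith [mul_le_mul_of_nonneg_left h4 (mul_nonneg (abs_nonneg (v i)) (abs_nonneg (v j)))]
      nlinarith [sq_nonneg (|h i * v i| - |h j * v j|), sq_abs (h i * v i), sq_abs (h j * v j)]
  have h3 := hS.2 v
  rw [add_mulVec, dotProduct_add]
  generalize v ⬝ᵥ (S *ᵥ v) = q at h3
  simp only [dotProduct, mulVec, Fin.sum_univ_three, mul_add] at h3 ⊢
  have a := fun i j => abs_le.1 (h2 i j)
  have s := fun i => sq_nonneg (h i * v i)
  constructor
  · linarith [(a 0 0).1, (a 0 1).1, (a 0 2).1, (a 1 0).1, (a 1 1).1, (a 1 2).1, (a 2 0).1,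
      (a 2 1).1, (a 2 2).1, s 0, s 1, s 2, h3.1]
  · linarith [(a 0 0).2, (a 0 1).2, (a 0 2).2, (a 1 0).2, (a 1 1).2, (a 1 2).2, (a 2 0).2,
      (a 2 1).2, (a 2 2).2, s 0, s 1, s 2, h3.2]

/-- the segment that starts at local data -/
lemma start {a : V → ℝ} {A : ℝ} {S : V → Mx} (K : KL h U a A Z S) (hu : Continuous u)
    (hB : ∀ i j, Continuous fun x => B x i j) (δ0 : 0 ≤ δ) (δ1 : δ ≤ 1) (β0 : 0 ≤ β)
    (β1 : β ≤ 1 / 1000) (su : ∀ x ∈ U, a x ≠ 0 → ∀ i, |u x i| ≤ δ * h i)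
    (sB : ∀ x ∈ U, a x ≠ 0 → ∀ i j, |B x i j| ≤ β * (h i * h j)) :
    Pth h U Z a A Z S u B δ β := by
  have hU : ∀ x, a x ≠ 0 → x ∈ U := fun x hx => by_contra fun h => hx (K.sa x h)
  refine ⟨⟨K.ma, K.ba, K.dZ.continuous, K.cS, fun x hx => ⟨hU x hx, fun i => ?_, ?_⟩⟩,
    ⟨K.ma, K.ba, K.dZ.continuous.add hu, fun i j => (K.cS i j).add ((hB i j).add (hB j i)),
      fun x hx => ⟨hU x hx, fun i => ?_, ?_⟩⟩, hu, hB, δ0, β0, fun x hx => su x (hU x hx) hx,
    fun x hx => sB x (hU x hx) hx⟩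
  · simpa using (K.hh i).le
  · simpa using wide (A := 0) (ε := 0) (K.bS x (hU x hx)) (by simp) (by norm_num) (by simp) K.hh
  · simpa using (su x (hU x hx) hx i).trans (mul_le_of_le_one_left (K.hh i).le δ1)
  · refine wide (ε := 2 * β) (K.bS x (hU x hx))
      (by rw [transpose_add, transpose_transpose, add_comm]) (by linarith) (fun i j => ?_) K.hh
    have h1 := sB x (hU x hx) hx i j
    have h2 := sB x (hU x hx) hx j i
    rw [Matrix.add_apply, transpose_apply]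
    linarith [abs_add_le (B x i j) (B x j i)]

end KPc

end
end Pool.Agent.MP_20bec2_an.T3

end MrgPart2

-- ======== part 3: formerly Pool.Agent.MP_20bec2_an.T3.KP
section MrgPart3

/-! Perturbation of map and covariance. -/

set_option autoImplicit false
open MeasureTheory Set Filter Matrix Topology

namespace Pool.Agent.MP_20bec2_an.T3
noncomputable section
open Classical KPa KPb KPc

theorem kp' (h1 : K1Stmt) (h2 : K2Stmt) (hB : KBStmt) : KPStmt := fun n => by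
  obtain ⟨C0, hE⟩ := env h1 hB
  obtain ⟨C, hC, D⟩ := db h1 C0 (n + 2)
  refine ⟨8 * C, by linarith, fun h U a A Z S Z' S' δ K cZ cS δ0 δ1 H => ?_⟩
  have E := hE _ _ _ _ _ _ K
  have hU : ∀ x, a x ≠ 0 → x ∈ U := fun x hx => by_contra fun h => hx (K.sa x h)
  have P : Pth h U Z a A Z S (fun x => Z' x - Z x) (fun x => (1 / 2 : ℝ) • (S' x - S x)) δ
      (δ / 2) :=
    start K (cZ.sub K.dZ.continuous) (fun i j => ((cS i j).sub (K.cS i j)).const_smul (1 / 2 : ℝ))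
      δ0 (by linarith) (by linarith) (by linarith) (fun x hx ha i => (H x hx ha).1 i)
      fun x hx ha i j => by
        have h3 := (H x hx ha).2.2 i j
        have h4 := mul_pos (K.hh i) (K.hh j)
        simp only [nrm, cm, of_apply] at h3
        rw [abs_div, abs_of_pos h4, div_le_iff₀ h4] at h3
        rw [Matrix.smul_apply, smul_eq_mul, abs_mul, abs_of_pos (by norm_num : (0 : ℝ) < 1 / 2)]
        linarith
  have e : ∀ x, a x ≠ 0 → S x + ((1 / 2 : ℝ) • (S' x - S x) + ((1 / 2 : ℝ) • (S' x - S x))ᵀ) =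
      S' x := fun x hx => by
    rw [transpose_smul, transpose_sub, (H x (hU x hx) hx).2.1, (K.bS x (hU x hx)).1, ← add_smul]
    norm_num
  have A' : Adm h U Z a A Z' S' := ⟨K.ma, K.ba, cZ, cS, fun x hx => by
    have := P.a1.loc x hx
    rwa [e x hx, add_sub_cancel] at this⟩
  have e2 : dens a Z' S' = dens a (fun x => Z x + (Z' x - Z x))
      fun x => S x + ((1 / 2 : ℝ) • (S' x - S x) + ((1 / 2 : ℝ) • (S' x - S x))ᵀ) := by
    funext z
    refine integral_congr_ae (Eventually.of_forall fun x => ?_)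
    by_cases hx : a x = 0
    · simp only [hx, zero_mul]
    · simp only [e x hx, add_sub_cancel]
  refine ⟨A'.gk E, fun l hl z _ => ?_⟩
  have s1 := (h1 _ _ _ (A'.gk E)).1
  have s2 := (h1 _ _ _ (P.a0.gk E)).1
  have h3 := pl h1 h2 D E P hl z
  have h4 : 0 ≤ C * A * δ := mul_nonneg (mul_nonneg (by linarith) P.a0.nn) δ0
  have e3 : (fun z => dens a Z' S' z - dens a Z S z) =
      fun z => dens a Z' S' z + -1 * dens a Z S z := funext fun _ => by ring
  rw [← e2] at h3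
  rw [e3, pds_add s1 (contDiff_const.mul s2), pds_mul s2]
  simp only [neg_one_mul, ← sub_eq_add_neg]
  linarith

end
end Pool.Agent.MP_20bec2_an.T3

end MrgPart3

-- marker of a merged file
example : 731051 + 721067 = 731051 + 721067 := rfl

end MrgPart2

-- ======== part 3: formerly Pool.Agent.MP_20bec2_an.T3.Rem
section MrgPart3

/-! The exact flux of a small stage is its linear part up to third order. -/

set_option autoImplicit false
open MeasureTheory Set Filter Matrix Topology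

namespace Pool.Agent.MP_20bec2_an.T3
noncomputable section
open Classical KPa KPb KPc

namespace Rem

lemma lin {b b' : V → ℝ} {Z : V → V} {S : V → Mx} (hs : Sm (dens b Z S)) (c : ℝ)
    (e : ∀ x, b' x = c * b x) (l : List (Fin 3)) (z : V) :
    pds l (dens b' Z S) z = c * pds l (dens b Z S) z := by
  have : dens b' Z S = fun z => c * dens b Z S z := funext fun z => by
    simp only [dens, e, mul_assoc, integral_const_mul]
  rw [this, pds_mul hs]

lemma core (h1 : K1Stmt) (h2 : K2Stmt) {C0 C : ℝ} {n : ℕ} {h : V} {U : Set V} {Z Z1 u : V → V}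
    {a : V → ℝ} {A δ : ℝ} {S1 B : V → Mx} {l : List (Fin 3)} (D : DBp C0 C (n + 1 + 2))
    (hC : 0 ≤ C) (E : Env C0 h U Z) (P : Pth h U Z a A Z1 S1 u B δ (δ ^ 2)) (δ1 : δ ≤ 1)
    (eB : ∀ x i j, B x i j = -(1 / 2) * (u x i * u x j)) (hl : l.length ≤ n) (z : V) (i : Fin 3) :
    hp h l * |pds l (fun w => flux a Z1 S1 u B w i) z +
      pds l (dens (fun x => a x * u x i) Z1 S1) z| ≤ 81 * (C * A * δ ^ 3 * h i) := by
  obtain ⟨Y, hY⟩ : ∃ Y : Fin 3 → ℝ, ∀ j,
      Y j = pds (l ++ [j]) (dens (fun x => a x * u x i * u x j) Z1 S1) z := ⟨_, fun _ => rfl⟩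
  have δ0 := P.δ0
  have hA := P.a0.nn
  have hi := E.hh i
  have hH := hp_pos E.hh l
  have sY : ∀ j, Sm (dens (fun x => a x * u x i * u x j) Z1 S1) := fun j =>
    (h1 _ _ _ ((wu E (wu E P i) j).a0.gk E)).1
  have hj : ∀ j, (l ++ [j]).length ≤ n + 1 := fun j => by simpa using hl
  have h3 := close (l := l) h1 h2 E P z i
    (g := fun t => -pds l (dens (fun x => a x * u x i) Z1 S1) z + (t - 1 / 2) * ∑ j, Y j)
    (by fun_prop) (ε := 81 * (C * A * δ ^ 3 * h i)) fun t ht => by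
      obtain ⟨P', e⟩ := (wu E P i).sub t (wu E P i).a0 ((wu E P i).at ht) (fun _ => rfl)
        fun _ => rfl
      have t1 : |t| ≤ 1 := abs_le.2 ⟨by linarith [ht.1], ht.2⟩
      have t0 := abs_nonneg t
      have b1 : ∀ j, hp h l * |pds (l ++ [j]) (fun w => flux (fun x => a x * u x i) Z1 S1
          (fun x => t • u x) (fun x => t • B x) w j) z + t * Y j| ≤
          15 * (C * A * δ ^ 3 * h i) := fun j => cancel (E.hh j) (by
        have b2 := so h1 h2 (fun l hl => D l (hl.trans (le_refl _))) hC E P' (hj j) z j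
        rw [lin (sY j) t (fun x => by simp only [Pi.smul_apply, smul_eq_mul]; ring), ← hY,
          hp_snoc] at b2
        have b3 : |t| * δ ≤ δ := mul_le_of_le_one_left δ0 t1
        have b4 : |t| * δ ^ 2 ≤ δ ^ 2 := mul_le_of_le_one_left (sq_nonneg _) t1
        have b5 : δ ^ 2 ≤ δ := by nlinarith
        have b6 : |t| * δ * (|t| * δ + 3 * (|t| * δ ^ 2)) ≤ δ * (4 * δ) :=
          mul_le_mul b3 (by linarith) (by positivity) δ0
        have b7 : 3 * (|t| * δ) * (|t| * δ + 3 * (|t| * δ ^ 2)) + 3 * (|t| * δ ^ 2) ≤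
            15 * δ ^ 2 := by linarith
        have b8 := mul_le_mul_of_nonneg_right (mul_le_mul_of_nonneg_left b7
          (by positivity : 0 ≤ C * (A * (δ * h i)))) (E.hh j).le
        exact (b2.trans b8).trans_eq (by ring))
      have b2 : ∀ j, hp h l * |FF (fun x => a x * B x i j) Z1 S1 u B (l ++ [j]) z t +
          1 / 2 * Y j| ≤ 12 * (C * A * δ ^ 3 * h i) := fun j => cancel (E.hh j) (by
        have b3 := lip h1 h2 D E (wB E P i j) (hj j) z (left_mem_Icc.2 zero_le_one) ht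
        rw [FF_zero, lin (sY j) (-(1 / 2)) (fun x => by rw [eB]; ring), ← hY, hp_snoc, neg_mul,
          sub_neg_eq_add, sub_zero] at b3
        have b4 : (δ + 3 * δ ^ 2) * |t| ≤ 4 * δ * 1 :=
          mul_le_mul (by nlinarith) t1 t0 (by linarith)
        have b5 := E.hh j
        have b6 := mul_le_mul_of_nonneg_left b4
          (by positivity : 0 ≤ 3 * (C * (A * (δ ^ 2 * (h i * h j)))))
        linarith)
      have b3 := sum3 hH b1
      rw [← abs_neg] at b3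
      have b4 := add2 hH b3 (sum3 hH b2)
      rw [FF, e, diff h1 h2 E P']
      convert b4 using 2
      · congr 1
        simp only [Fin.sum_univ_three]
        ring
      · ring
  have h4 : ∫ t in (0 : ℝ)..1, (-pds l (dens (fun x => a x * u x i) Z1 S1) z +
      (t - 1 / 2) * ∑ j, Y j) = -pds l (dens (fun x => a x * u x i) Z1 S1) z := by
    rw [intervalIntegral.integral_add (by simp) (Continuous.intervalIntegrable (by fun_prop) _ _),
      intervalIntegral.integral_mul_const, intervalIntegral.integral_sub (by simp) (by simp)]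
    norm_num [integral_id]
  rwa [h4, sub_neg_eq_add] at h3

end Rem

theorem rem (h1 : K1Stmt) (h2 : K2Stmt) (hB : KBStmt) : RemStmt := fun n => by
  obtain ⟨C0, hE⟩ := env h1 hB
  obtain ⟨C, hC, D⟩ := db h1 C0 (n + 1 + 2)
  refine ⟨100 * C, by linarith, fun h U a A Z S u δ K cu δ0 δ1 H => ?_⟩
  have E := hE _ _ _ _ _ _ K
  have ci : ∀ i, Continuous fun x => u x i := fun i => (continuous_apply i).comp cu
  have eB : ∀ x i j, (-(1 / 2 : ℝ) • vecMulVec (u x) (u x)) i j = -(1 / 2) * (u x i * u x j) :=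
    fun x i j => rfl
  have δ2 : δ ^ 2 ≤ δ / 1000 := by nlinarith
  have P : Pth h U Z a A Z S u (fun x => -(1 / 2 : ℝ) • vecMulVec (u x) (u x)) δ (δ ^ 2) :=
    start K cu (fun i j => continuous_const.mul ((ci i).mul (ci j))) δ0 (by linarith)
      (sq_nonneg _) (by linarith) (fun x hx _ => H x hx) fun x hx _ i j => by
        have h3 := mul_le_mul (H x hx i) (H x hx j) (abs_nonneg _) (mul_nonneg δ0 (K.hh i).le)
        rw [eB, abs_mul, abs_mul, abs_neg, abs_of_pos (by norm_num : (0 : ℝ) < 1 / 2)]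
        nlinarith [mul_nonneg (abs_nonneg (u x i)) (abs_nonneg (u x j))]
  refine ⟨P.gkp E, fun i l hl z _ => ?_⟩
  have h3 := Rem.core h1 h2 D (by linarith) E P (by linarith) eB hl z i
  have h4 : 0 ≤ C * A * δ ^ 3 * h i := by
    have := P.a0.nn
    have := K.hh i
    positivity
  rw [pds_add (contDiff_pi.1 (h2 _ _ _ _ _ (P.gkp E)).1 i) (h1 _ _ _ ((wu E P i).a0.gk E)).1]
  linarith

end
end Pool.Agent.MP_20bec2_an.T3

end MrgPart3

-- marker of a merged file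
example : 731051 + 41457 = 731051 + 41457 := rfl
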