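import Mathlib.Algebra.Order.Star.Real
import Pool.Agent.MP_20bec2_an.T3.Final

/-! Real-variable estimates for the row FV. -/

set_option autoImplicit false
open MeasureTheory Set Filter Matrix Topology

namespace Pool.Agent.MP_20bec2_an.T3
namespace FvP
noncomputable section

/-- larger root of the quadratic with trace `T` and determinant `e` -/
def lf (T e : ℝ) : ℝ := (T + Real.sqrt (T ^ 2 - 4 * e)) / 2

lemma lf_scale {s : ℝ} (hs : 0 ≤ s) (T e : ℝ) : lf (s * T) (s ^ 2 * e) = s * lf T e := by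
  unfold lf
  have : (s * T) ^ 2 - 4 * (s ^ 2 * e) = s ^ 2 * (T ^ 2 - 4 * e) := by ring
  rw [this, Real.sqrt_mul (sq_nonneg s), Real.sqrt_sq hs]
  ring

lemma lf_ge (T e : ℝ) : T / 2 ≤ lf T e := by
  unfold lf
  have := Real.sqrt_nonneg (T ^ 2 - 4 * e)
  linarith

lemma lf_root {T e : ℝ} (h : 4 * e ≤ T ^ 2) : lf T e ^ 2 - T * lf T e + e = 0 := by
  unfold lf
  have := Real.sq_sqrt (show 0 ≤ T ^ 2 - 4 * e by linarith)
  nlinarith

lemma lf_big {T e : ℝ} (hT : 97 / 100 ≤ T) (he : e ≤ 1 / 1000) : 96 / 100 ≤ lf T e := by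
  unfold lf
  have : 96 / 100 ≤ Real.sqrt (T ^ 2 - 4 * e) := Real.le_sqrt_of_sq_le (by nlinarith)
  linarith

lemma abs_log_sub {a b m : ℝ} (hm : 0 < m) (ha : m ≤ a) (hb : m ≤ b) :
    |Real.log a - Real.log b| ≤ |a - b| / m := by
  have key : ∀ x y : ℝ, m ≤ x → m ≤ y → Real.log x - Real.log y ≤ |x - y| / m := by
    intro x y hx hy
    have hy0 : 0 < y := hm.trans_le hy
    have hx0 : 0 < x := hm.trans_le hx
    rw [← Real.log_div hx0.ne' hy0.ne']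
    have h1 := Real.log_le_sub_one_of_pos (div_pos hx0 hy0)
    have h2 : x / y - 1 = (x - y) / y := by field_simp
    have h3 : (x - y) / y ≤ |x - y| / y := div_le_div_of_nonneg_right (le_abs_self _) hy0.le
    have h4 : |x - y| / y ≤ |x - y| / m := div_le_div_of_nonneg_left (abs_nonneg _) hm hy
    linarith
  rw [abs_le]
  have h1 := key a b ha hb
  have h2 := key b a hb ha
  rw [abs_sub_comm b a] at h2
  constructor <;> linarith

lemma abs_log_sub' {a b m s : ℝ} (hs : 0 < s) (hm : 0 < m) (ha : m ≤ a) (hb : m ≤ b) :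
    |Real.log (s * a) - Real.log (s * b)| ≤ |a - b| / m := by
  rw [Real.log_mul hs.ne' (hm.trans_le ha).ne', Real.log_mul hs.ne' (hm.trans_le hb).ne',
    add_sub_add_left_eq_sub]
  exact abs_log_sub hm ha hb

lemma abs_sqrt_sub (a b : ℝ) : |Real.sqrt a - Real.sqrt b| ≤ Real.sqrt |a - b| := by
  have key : ∀ x y : ℝ, Real.sqrt x - Real.sqrt y ≤ Real.sqrt |x - y| := by
    intro x y
    have h1 := Real.sqrt_nonneg y
    have h2 := Real.sqrt_nonneg |x - y|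
    have h3 : y ≤ Real.sqrt y ^ 2 := by
      rcases le_total 0 y with h | h
      · rw [Real.sq_sqrt h]
      · nlinarith
    have h4 := Real.sq_sqrt (abs_nonneg (x - y))
    have h5 := le_abs_self (x - y)
    have : Real.sqrt x ≤ Real.sqrt y + Real.sqrt |x - y| :=
      Real.sqrt_le_iff.2 ⟨by positivity, by nlinarith [mul_nonneg h1 h2]⟩
    linarith
  rw [abs_le]
  have h1 := key a b
  have h2 := key b a
  rw [abs_sub_comm b a] at h2
  constructor <;> linarith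

lemma log_lin {x : ℝ} (hx : |x| ≤ 1 / 100) : |Real.log (1 + x) - x| ≤ 2 * x ^ 2 := by
  obtain ⟨h1, h2⟩ := abs_le.1 hx
  have hp : 0 < 1 + x := by linarith
  have a1 := Real.log_le_sub_one_of_pos hp
  have a2 := Real.one_sub_inv_le_log_of_pos hp
  have a3 : x - 2 * x ^ 2 ≤ 1 - (1 + x)⁻¹ := by
    have : (1 + x)⁻¹ ≤ 1 - x + 2 * x ^ 2 := by
      rw [inv_le_iff_one_le_mul₀ hp]
      nlinarith [sq_nonneg x]
    linarith
  rw [abs_le]
  constructor <;> nlinarith [sq_nonneg x]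

lemma abs_mul_le {a b x y : ℝ} (ha : |a| ≤ x) (hb : |b| ≤ y) : |a * b| ≤ x * y := by
  rw [abs_mul]
  exact mul_le_mul ha hb (abs_nonneg _) ((abs_nonneg _).trans ha)

lemma ab {a b x y : ℝ} (h1 : |a| ≤ x) (h2 : |b| ≤ y) : |a + b| ≤ x + y :=
  (abs_add_le _ _).trans (add_le_add h1 h2)

lemma coreA {α β γ σ Dm δ ε u : ℝ} (hα : |α| ≤ δ) (hβ : |β| ≤ δ) (hγ : |γ| ≤ δ) (hσ : |σ| ≤ ε)
    (hε : ε ≤ δ) (hδ : δ ≤ 1 / 1000) (hD : 97 / 100 ≤ Dm) (hu : 0 < u) :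
    |Real.log (u * (((1 + α) * (1 + γ) - β ^ 2) * Dm + σ)) / 2 - Real.log (u * Dm) / 2 - α / 2| ≤
      6 / 10 * |γ| + 2 * α ^ 2 + β ^ 2 + ε := by
  have hD0 : 0 < Dm := by linarith
  have hε0 : 0 ≤ ε := (abs_nonneg _).trans hσ
  set r := γ + α * γ - β ^ 2 + σ / Dm with hr
  have e1 : u * (((1 + α) * (1 + γ) - β ^ 2) * Dm + σ) = u * Dm * (1 + (α + r)) := by
    rw [hr]; field_simp; ring
  have b1 : |σ / Dm| ≤ 104 / 100 * ε := by
    rw [abs_div, abs_of_pos hD0, div_le_iff₀ hD0]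
    nlinarith
  have b2 : |α * γ| ≤ 1 / 1000 * |γ| := abs_mul_le (hα.trans hδ) le_rfl
  have b3 : β ^ 2 ≤ 1 / 1000 * δ := by
    have := abs_mul_le (hβ.trans hδ) hβ
    rw [← sq, abs_of_nonneg (sq_nonneg β)] at this
    exact this
  have b4 : |r| ≤ 1001 / 1000 * |γ| + β ^ 2 + 104 / 100 * ε := by
    have h1 := abs_le.1 b1
    have h2 := abs_le.1 b2
    have h3 := le_abs_self γ
    have h4 := neg_abs_le γ
    have h5 := sq_nonneg β
    rw [abs_le]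
    constructor <;> linarith [h1.1, h1.2, h2.1, h2.2]
  have b5 : |r| ≤ 1 / 400 := by linarith
  have b6 : |α + r| ≤ 1 / 100 := (abs_add_le _ _).trans (by linarith)
  have hp : 0 < 1 + (α + r) := by linarith [(abs_le.1 b6).1]
  rw [e1, Real.log_mul (mul_pos hu hD0).ne' hp.ne']
  have l1 := abs_le.1 (log_lin b6)
  have l2 : (α + r) ^ 2 ≤ 2 * α ^ 2 + 2 * r ^ 2 := by nlinarith [sq_nonneg (α - r)]
  have l3 : r ^ 2 ≤ 1 / 400 * |r| := by
    have := abs_mul_le b5 (le_refl |r|)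
    rw [← sq, abs_of_nonneg (sq_nonneg r)] at this
    exact this
  have h3 := le_abs_self r
  have h4 := neg_abs_le r
  have h5 := abs_nonneg γ
  have h6 := sq_nonneg β
  rw [abs_le]
  constructor <;> linarith [l1.1, l1.2]

lemma coreC {α β γ σ τ A B D δ k s : ℝ} (hs0 : 0 < s) (hα : |α| ≤ δ) (hβ : |β| ≤ δ) (hγ : |γ| ≤ δ)
    (hσ : |σ| ≤ δ) (hτ : |τ| ≤ δ) (hδ : δ ≤ 1 / 1000) (hA : |A - 1| ≤ 1 / 100)
    (hB : |B - 1| ≤ 1 / 100) (hD : |D| ≤ 1 / 100) (hk : 0 < k) (hk1 : k ≤ 1) :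
    |Real.log (lf (s * (k ^ 2 * (1 + α) * A + (1 + γ) * B + 2 * k * β * D + τ))
        (s ^ 2 * (k ^ 2 * (((1 + α) * (1 + γ) - β ^ 2) * (A * B - D ^ 2) + σ)))) -
      Real.log (lf (s * (k ^ 2 * A + B)) (s ^ 2 * (k ^ 2 * (A * B - D ^ 2))))| ≤ 9 * Real.sqrt δ := by
  rw [lf_scale hs0.le, lf_scale hs0.le]
  have hδ0 : 0 ≤ δ := (abs_nonneg _).trans hα
  obtain ⟨A1, A2⟩ := abs_le.1 hA
  obtain ⟨B1, B2⟩ := abs_le.1 hB
  have hA' : |A| ≤ 101 / 100 := abs_le.2 ⟨by linarith, by linarith⟩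
  have hB' : |B| ≤ 101 / 100 := abs_le.2 ⟨by linarith, by linarith⟩
  have hk' : |k| ≤ 1 := abs_le.2 ⟨by linarith, hk1⟩
  have hk2 : |k ^ 2| ≤ 1 := by rw [abs_of_nonneg (sq_nonneg k)]; nlinarith
  set T2 := k ^ 2 * A + B with hT2
  set T3 := k ^ 2 * (1 + α) * A + (1 + γ) * B + 2 * k * β * D + τ with hT3
  set e2 := k ^ 2 * (A * B - D ^ 2) with he2
  set e3 := k ^ 2 * (((1 + α) * (1 + γ) - β ^ 2) * (A * B - D ^ 2) + σ) with he3
  have t1 : |T3 - T2| ≤ 4 * δ := by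
    have e : T3 - T2 = k ^ 2 * α * A + γ * B + 2 * (k * β * D) + τ := by rw [hT2, hT3]; ring
    have c1 := abs_le.1 (abs_mul_le (abs_mul_le hk2 hα) hA')
    have c2 := abs_le.1 (abs_mul_le hγ hB')
    have c3 := abs_le.1 (abs_mul_le (abs_mul_le hk' hβ) hD)
    have c4 := abs_le.1 hτ
    rw [e, abs_le]
    constructor <;> linarith [c1.1, c1.2, c2.1, c2.2, c3.1, c3.2, c4.1, c4.2]
  have t2 : 99 / 100 ≤ T2 ∧ T2 ≤ 202 / 100 := by
    have c1 := abs_le.1 (abs_mul_le hk2 hA')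
    have c2 : 0 ≤ k ^ 2 * A := mul_nonneg (sq_nonneg k) (by linarith)
    constructor <;> linarith [c1.2]
  have t3 : |e3 - e2| ≤ 4 * δ := by
    have e : e3 - e2 = k ^ 2 * ((α + γ + α * γ - β * β) * (A * B - D * D) + σ) := by
      rw [he2, he3]; ring
    have c1 := abs_le.1 (abs_mul_le (hα.trans hδ) hγ)
    have c2 := abs_le.1 (abs_mul_le (hβ.trans hδ) hβ)
    have c3 := abs_le.1 (abs_mul_le hA' hB')
    have c4 := abs_le.1 (abs_mul_le hD hD)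
    have a1 := abs_le.1 hα
    have a2 := abs_le.1 hγ
    have c5 : |α + γ + α * γ - β * β| ≤ 201 / 100 * δ :=
      abs_le.2 ⟨by linarith [c1.1, c2.2, a1.1, a2.1], by linarith [c1.2, c2.1, a1.2, a2.2]⟩
    have c6 : |A * B - D * D| ≤ 103 / 100 :=
      abs_le.2 ⟨by linarith [c3.1, c4.2], by linarith [c3.2, c4.1]⟩
    have c7 := abs_mul_le c5 c6
    have c8 : |(α + γ + α * γ - β * β) * (A * B - D * D) + σ| ≤ 4 * δ :=
      (abs_add_le _ _).trans (by linarith)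
    have := abs_mul_le hk2 c8
    rw [e]; linarith
  obtain ⟨t1a, t1b⟩ := abs_le.1 t1
  have t4 : |(T3 ^ 2 - 4 * e3) - (T2 ^ 2 - 4 * e2)| ≤ 36 * δ := by
    have e : (T3 ^ 2 - 4 * e3) - (T2 ^ 2 - 4 * e2) = (T3 - T2) * (T3 + T2) - 4 * (e3 - e2) := by
      ring
    have c1 : |T3 + T2| ≤ 5 := abs_le.2 ⟨by linarith [t2.1], by linarith [t2.2]⟩
    have c2 := abs_le.1 (abs_mul_le t1 c1)
    have c3 := abs_le.1 t3
    rw [e, abs_le]
    constructor <;> linarith [c2.1, c2.2, c3.1, c3.2]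
  have s0 := Real.sqrt_nonneg δ
  have s1 := Real.sq_sqrt hδ0
  have s2 : δ ≤ 1 / 10 * Real.sqrt δ := by
    have : Real.sqrt δ ≤ 1 / 10 := Real.sqrt_le_iff.2 ⟨by norm_num, by linarith⟩
    nlinarith
  have t5 : |Real.sqrt (T3 ^ 2 - 4 * e3) - Real.sqrt (T2 ^ 2 - 4 * e2)| ≤ 6 * Real.sqrt δ :=
    (abs_sqrt_sub _ _).trans (Real.sqrt_le_iff.2 ⟨by positivity, by nlinarith⟩)
  have t6 : |lf T3 e3 - lf T2 e2| ≤ 4 * Real.sqrt δ := by
    unfold lf
    have c1 := abs_le.1 t5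
    rw [abs_le]
    constructor <;> linarith [c1.1, c1.2]
  have g2 := lf_ge T2 e2
  have g3 := lf_ge T3 e3
  have := abs_log_sub' (m := 49 / 100) (a := lf T3 e3) (b := lf T2 e2) hs0 (by norm_num)
    (by linarith [t2.1]) (by linarith [t2.1])
  have h2 : |lf T3 e3 - lf T2 e2| / (49 / 100) ≤ 9 * Real.sqrt δ := by
    rw [div_le_iff₀ (by norm_num)]; linarith
  linarith

lemma wB {α β γ σ τ A B D ε m u : ℝ} (hα : |α| ≤ 1 / 1000)
    (hσ : |σ| ≤ ε) (hτ : |τ| ≤ ε) (hA : |A| ≤ 101 / 100) (hB : |B| ≤ 101 / 100)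
    (hD : D ^ 2 ≤ 1 / 10000) (hu0 : 0 ≤ u) (hu : u ≤ 1 / 10000) :
    |u * ((1 + α) * A * (2 * m + τ) + β ^ 2 * (A * B) + (α + γ + α * γ - β ^ 2) * D ^ 2 - σ)| ≤
      1 / 1000 * (|m| + ε + β ^ 2 + |γ|) + |α| * (u * D ^ 2) := by
  have e : u * ((1 + α) * A * (2 * m + τ) + β ^ 2 * (A * B) +
      (α + γ + α * γ - β ^ 2) * D ^ 2 - σ) = u * ((1 + α) * A * (2 * m + τ) + β ^ 2 * (A * B) +
      ((1 + α) * γ + -β ^ 2) * D ^ 2 + -σ) + α * (u * D ^ 2) := by ring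
  have hb0 := sq_nonneg β
  have hd0 := sq_nonneg D
  have hε : 0 ≤ ε := (abs_nonneg _).trans hσ
  have m0 := abs_nonneg m
  have g0 := abs_nonneg γ
  have hα1 : |1 + α| ≤ 1 + 1 / 1000 := ab abs_one.le hα
  have d0 : |2 * m| ≤ 2 * |m| := by rw [abs_mul, abs_two]
  have d2 := abs_mul_le (abs_mul_le hα1 hA) (ab d0 hτ)
  have d3 := abs_mul_le (abs_of_nonneg hb0).le (abs_mul_le hA hB)
  have d4 := abs_mul_le hα1 (le_refl |γ|)
  have d5 : |-β ^ 2| ≤ β ^ 2 := by rw [abs_neg, abs_of_nonneg hb0]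
  have d6 := abs_mul_le (ab d4 d5) ((abs_of_nonneg hd0).le.trans hD)
  have d7 : |-σ| ≤ ε := by rwa [abs_neg]
  have d8 := abs_mul_le ((abs_of_nonneg hu0).le.trans hu) (ab (ab (ab d2 d3) d6) d7)
  have d9 := abs_mul_le (le_refl |α|) (abs_of_nonneg (mul_nonneg hu0 hd0)).le
  rw [e]
  refine (ab d8 d9).trans ?_
  linarith

lemma rootB {x2 x3 a a' b b' v w s : ℝ} (q2 : (x2 - a) * (x2 - b) = v)
    (q3 : (x3 - a') * (x3 - b') = w + v) (p2 : 95 / 100 ≤ x2 - a) (p3 : 95 / 100 ≤ x3 - a')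
    (v0 : 0 ≤ v) (v1 : v ≤ 1 / 10000) (hs : |a' - a| ≤ s) :
    |x3 - x2| ≤ 1002 / 1000 * |b' - b| + 11 / 10 * |w| + 2 * (s * v) := by
  have y0 : 0 ≤ x2 - b := by
    by_contra hc
    have := mul_neg_of_pos_of_neg (show 0 < x2 - a by linarith) (not_le.1 hc)
    linarith
  have y1 : x2 - b ≤ 11 / 10 * v := by
    have := mul_le_mul_of_nonneg_right p2 y0
    linarith
  have hy : |x2 - b| ≤ 11 / 10 * v := by rwa [abs_of_nonneg y0]
  have key : (x3 - a') * ((x3 - b') - (x2 - b)) =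
      w + (a' - a) * (x2 - b) + -(x3 - x2) * (x2 - b) := by linear_combination q3 - q2
  have w2 := abs_mul_le hs hy
  have w3 := abs_mul_le (abs_neg (x3 - x2)).le (hy.trans (show _ ≤ (1 / 1000 : ℝ) by linarith))
  have w4 : 95 / 100 * |(x3 - b') - (x2 - b)| ≤ |(x3 - a') * ((x3 - b') - (x2 - b))| := by
    rw [abs_mul, abs_of_pos (show 0 < x3 - a' by linarith)]
    exact mul_le_mul_of_nonneg_right p3 (abs_nonneg _)
  have w5 := ab (ab (le_refl |w|) w2) w3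
  rw [← key] at w5
  have w6 := ab (le_refl |b' - b|) (le_refl |(x3 - b') - (x2 - b)|)
  rw [show b' - b + ((x3 - b') - (x2 - b)) = x3 - x2 by ring] at w6
  have s0 : 0 ≤ s * v := mul_nonneg ((abs_nonneg _).trans hs) v0
  have := abs_nonneg w
  have := abs_nonneg (b' - b)
  linarith

lemma coreB {α β γ σ τ A B D δ ε k s : ℝ} (hs0 : 0 < s) (hα : |α| ≤ δ) (hβ : |β| ≤ δ) (hγ : |γ| ≤ δ)
    (hσ : |σ| ≤ ε) (hτ : |τ| ≤ ε) (hε : ε ≤ δ) (hδ : δ ≤ 1 / 1000) (hA : |A - 1| ≤ 1 / 100)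
    (hB : |B - 1| ≤ 1 / 100) (hD : |D| ≤ 1 / 100) (hk : 0 < k) (hk1 : k ≤ 1 / 100) :
    |Real.log (lf (s * (k ^ 2 * (1 + α) * A + (1 + γ) * B + 2 * k * β * D + τ))
        (s ^ 2 * (k ^ 2 * (((1 + α) * (1 + γ) - β ^ 2) * (A * B - D ^ 2) + σ)))) -
      Real.log (lf (s * (k ^ 2 * A + B)) (s ^ 2 * (k ^ 2 * (A * B - D ^ 2))))| ≤
      12 / 10 * |γ| + 3 * |k * β * D| + 2 * ε + β ^ 2 + 2 * (|α| * (k * D) ^ 2) := by
  rw [lf_scale hs0.le, lf_scale hs0.le]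
  have hε0 : 0 ≤ ε := (abs_nonneg _).trans hσ
  have hε1 : ε ≤ 1 / 1000 := hε.trans hδ
  replace hα := hα.trans hδ
  replace hβ := hβ.trans hδ
  replace hγ := hγ.trans hδ
  clear hε hδ
  obtain ⟨A1, A2⟩ := abs_le.1 hA
  obtain ⟨B1, B2⟩ := abs_le.1 hB
  have hA' : |A| ≤ 101 / 100 := abs_le.2 ⟨by linarith, by linarith⟩
  have hB' : |B| ≤ 101 / 100 := abs_le.2 ⟨by linarith, by linarith⟩
  have hk' : |k| ≤ 1 / 100 := abs_le.2 ⟨by linarith, hk1⟩
  have hu0 : 0 ≤ k ^ 2 := sq_nonneg k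
  have hu1 : k ^ 2 ≤ 1 / 10000 := by nlinarith
  have hk2 : |k ^ 2| ≤ 1 / 10000 := by rw [abs_of_nonneg hu0]; exact hu1
  have hα1 : |1 + α| ≤ 1 + 1 / 1000 := ab abs_one.le hα
  have hγ1 : |1 + γ| ≤ 1 + 1 / 1000 := ab abs_one.le hγ
  have hb0 := sq_nonneg β
  have hb1 : |-β ^ 2| ≤ 1 / 1000 * (1 / 1000) := by
    rw [abs_neg, sq]; exact abs_mul_le hβ hβ
  have hd0 := sq_nonneg D
  have hd2 : |-D ^ 2| ≤ 1 / 100 * (1 / 100) := by
    rw [abs_neg, sq]; exact abs_mul_le hD hD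
  have hd1 : D ^ 2 ≤ 1 / 10000 := by linarith only [(abs_le.1 hd2).1]
  have hm := abs_mul_le (abs_mul_le hk' hβ) hD
  have w1 := wB (β := β) (γ := γ) (m := k * β * D) hα hσ hτ hA' hB' hd1 hu0 hu1
  rw [show k ^ 2 * (1 + α) * A + (1 + γ) * B + 2 * k * β * D + τ =
    k ^ 2 * (1 + α) * A + ((1 + γ) * B + 2 * (k * β * D) + τ) by ring,
    show (k * D) ^ 2 = k ^ 2 * D ^ 2 by ring]
  generalize k * β * D = m at *
  generalize k ^ 2 = u at *
  have hDm := ab (abs_mul_le hA' hB') hd2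
  have hρ := ab (abs_mul_le hα1 hγ1) hb1
  rw [← sub_eq_add_neg] at hDm hρ
  have b2 : u * (A * B - D ^ 2) ≤ 1 / 1000 := by
    linarith only [(abs_le.1 (abs_mul_le hk2 hDm)).2]
  have b3 : u * (((1 + α) * (1 + γ) - β ^ 2) * (A * B - D ^ 2) + σ) ≤ 1 / 1000 := by
    linarith only [(abs_le.1 (abs_mul_le hk2 (ab (abs_mul_le hρ hDm) (hσ.trans hε1)))).2]
  have uA0 : 0 ≤ u * A := mul_nonneg hu0 (by linarith only [A1])
  have uA1 : u * A ≤ 1 / 1000 := by linarith only [(abs_le.1 (abs_mul_le hk2 hA')).2]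
  have A'0 : 0 ≤ u * (1 + α) * A :=
    mul_nonneg (mul_nonneg hu0 (by linarith only [(abs_le.1 hα).1])) (by linarith only [A1])
  have A'1 : u * (1 + α) * A ≤ 1 / 1000 := by
    linarith only [(abs_le.1 (abs_mul_le (abs_mul_le hk2 hα1) hA')).2]
  have d0 : |2 * m| ≤ 2 * |m| := by rw [abs_mul, abs_two]
  have dB := ab (ab (abs_mul_le (le_refl |γ|) hB') d0) hτ
  rw [show γ * B + 2 * m + τ = (1 + γ) * B + 2 * m + τ - B by ring] at dB
  have hs := abs_mul_le (abs_mul_le hk2 (le_refl |α|)) hA'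
  rw [show u * α * A = u * (1 + α) * A - u * A by ring] at hs
  have T2 : 97 / 100 ≤ u * A + B := by linarith only [uA0, B1]
  have T3 : 97 / 100 ≤ u * (1 + α) * A + ((1 + γ) * B + 2 * m + τ) := by
    linarith only [(abs_le.1 dB).1, A'0, B1, hγ, hm, hε1]
  have L2 := lf_big T2 b2
  have L3 := lf_big T3 b3
  have r2 := lf_root (show 4 * (u * (A * B - D ^ 2)) ≤ (u * A + B) ^ 2 by
    linarith only [b2, pow_le_pow_left₀ (by norm_num) T2 2])
  have r3 := lf_root (show 4 * (u * (((1 + α) * (1 + γ) - β ^ 2) * (A * B - D ^ 2) + σ)) ≤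
      (u * (1 + α) * A + ((1 + γ) * B + 2 * m + τ)) ^ 2 by
    linarith only [b3, pow_le_pow_left₀ (by norm_num) T3 2])
  generalize lf (u * A + B) (u * (A * B - D ^ 2)) = x2 at *
  generalize lf (u * (1 + α) * A + ((1 + γ) * B + 2 * m + τ))
    (u * (((1 + α) * (1 + γ) - β ^ 2) * (A * B - D ^ 2) + σ)) = x3 at *
  have ud0 : 0 ≤ u * D ^ 2 := mul_nonneg hu0 hd0
  have ud1 : u * D ^ 2 ≤ 1 / 10000 * (1 / 10000) := mul_le_mul hu1 hd1 hd0 (by norm_num)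
  have k1 := rootB (x2 := x2) (x3 := x3) (a := u * A) (a' := u * (1 + α) * A) (b := B)
    (b' := (1 + γ) * B + 2 * m + τ) (v := u * D ^ 2)
    (w := u * ((1 + α) * A * (2 * m + τ) + β ^ 2 * (A * B) +
      (α + γ + α * γ - β ^ 2) * D ^ 2 - σ)) (by linear_combination r2) (by linear_combination r3)
    (by linarith only [L2, uA1]) (by linarith only [L3, A'1]) ud0 (by linarith only [ud1]) hs
  refine (abs_log_sub' (m := 96 / 100) hs0 (by norm_num) L3 L2).trans ?_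
  rw [div_le_iff₀ (by norm_num)]
  have au0 : 0 ≤ |α| * (u * D ^ 2) := mul_nonneg (abs_nonneg _) ud0
  linarith only [k1, w1, dB, au0, abs_nonneg γ, abs_nonneg m, hε0, hb0]

lemma div_bd {x V s t : ℝ} (hx : |x| ≤ 3 * V ^ 2) (hV : 1 ≤ V) (hs : V ≤ s) (ht : V ≤ t) :
    |x / (s * t)| ≤ 3 := by
  have h0 : 0 < s * t := mul_pos (by linarith) (by linarith)
  have h1 : V * V ≤ s * t := mul_le_mul hs ht (by linarith) (by linarith)
  rw [abs_div, abs_of_pos h0, div_le_iff₀ h0]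
  linarith

/-- the terms that involve the third row are small -/
lemma small {a b c d e f A B C D E F V s1 s2 : ℝ} (ha : |a| ≤ 101 / 100) (hb : |b| ≤ 101 / 100)
    (hc : |c| ≤ 3 / 2) (hd : |d| ≤ 1 / 1000) (he : |e| ≤ 11 / 10 * V) (hf : |f| ≤ 11 / 10 * V)
    (hA : |A| ≤ 101 / 100) (hB : |B| ≤ 101 / 100) (hC : |C| ≤ 101 / 100) (hD : |D| ≤ 1 / 100)
    (hE : |E| ≤ 1 / 100) (hF : |F| ≤ 1 / 100) (hV : 1 ≤ V) (h1 : V ≤ s1) (h2 : s1 ≤ s2) :
    |(a * c - e * e) / (s2 * s2) * (A * C - E * E) + (b * c - f * f) / (s1 * s1) * (B * C - F * F) +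
      2 * (s2 * (d * f - b * e) * (D * F - B * E)) + 2 * (s1 * (d * e - a * f) * (D * E - A * F)) +
      2 * ((e * f - c * d) / (s1 * s2) * (E * F - C * D))| ≤ 8 * (s2 * V) ∧
    |c / (s2 * s2) * C + 2 * (s1 * (s1 / s2) * e * E) + 2 * (s1 * f * F)| ≤ 8 * (s2 * V) := by
  have sb : ∀ {x y p q : ℝ}, |x| ≤ p → |y| ≤ q → |x - y| ≤ p + q := fun h h' =>
    (abs_sub _ _).trans (add_le_add h h')
  have two : ∀ {x p : ℝ}, |x| ≤ p → |2 * x| ≤ 2 * p := fun h => abs_mul_le abs_two.le h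
  have V2 : 1 ≤ V ^ 2 := one_le_pow₀ hV
  have h3 : V ≤ s2 := h1.trans h2
  have s20 : 0 < s2 := by linarith
  have s10 : 0 < s1 := by linarith
  have sV : 1 ≤ s2 * V := one_le_mul_of_one_le_of_one_le (by linarith) hV
  have a2 : |s2| ≤ s2 := (abs_of_pos s20).le
  have a1 : |s1| ≤ s2 := (abs_of_pos s10).le.trans h2
  have t1 := div_bd ((sb (abs_mul_le ha hc) (abs_mul_le he he)).trans (by linarith)) hV h3 h3
  have t2 := div_bd ((sb (abs_mul_le hb hc) (abs_mul_le hf hf)).trans (by linarith)) hV h1 h1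
  have t3 := div_bd ((sb (abs_mul_le he hf) (abs_mul_le hc hd)).trans (by linarith)) hV h1 h3
  have t4 := div_bd (hc.trans (by linarith)) hV h3 h3
  have t5 : |s1 / s2| ≤ 1 := by
    rw [abs_of_pos (div_pos s10 s20)]; exact (div_le_one s20).2 h2
  refine ⟨(ab (ab (ab (ab (abs_mul_le t1 (sb (abs_mul_le hA hC) (abs_mul_le hE hE)))
    (abs_mul_le t2 (sb (abs_mul_le hB hC) (abs_mul_le hF hF))))
    (two (abs_mul_le (abs_mul_le a2 (sb (abs_mul_le hd hf) (abs_mul_le hb he)))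
      (sb (abs_mul_le hD hF) (abs_mul_le hB hE)))))
    (two (abs_mul_le (abs_mul_le a1 (sb (abs_mul_le hd he) (abs_mul_le ha hf)))
      (sb (abs_mul_le hD hE) (abs_mul_le hA hF)))))
    (two (abs_mul_le t3 (sb (abs_mul_le hE hF) (abs_mul_le hC hD))))).trans (by linarith),
    (ab (ab (abs_mul_le t4 hC) (two (abs_mul_le (abs_mul_le (abs_mul_le a1 t5) he) hE)))
      (two (abs_mul_le (abs_mul_le a1 hf) hF))).trans (by linarith)⟩

end
end FvP
end Pool.Agent.MP_20bec2_an.T3
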