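import Mathlib.Algebra.Order.Star.Real
import Pool.Agent.MP_20bec2_an.T3.Final

-- ======== part 0: formerly Pool.Agent.MP_20bec2_an.T3.NcA
section MrgPart0

/-! The potential in terms of the two lateral rows. -/

set_option autoImplicit false
open Set Filter Matrix

namespace Pool.Agent.MP_20bec2_an.T3
noncomputable section
namespace NcP

def ra (F : Mx) : ℝ := F 0 0 ^ 2 + F 0 1 ^ 2 + F 0 2 ^ 2
def rb (F : Mx) : ℝ := F 1 0 ^ 2 + F 1 1 ^ 2 + F 1 2 ^ 2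
def rg (F : Mx) : ℝ := F 0 0 * F 1 0 + F 0 1 * F 1 1 + F 0 2 * F 1 2
def Lt (K a b g : ℝ) : ℝ :=
  (a / K ^ 2 + b + Real.sqrt ((b - a / K ^ 2) ^ 2 + 4 * (g / K) ^ 2)) / 2

lemma tr_gr (s1 s2 : ℝ) (E : Mx) :
    (gr2 s1 s2 E).trace = s1 ^ 2 * ra (1 + E) + s2 ^ 2 * rb (1 + E) := by
  unfold gr2
  generalize 1 + E = F
  simp [dg3, Matrix.trace, Matrix.mul_apply, Fin.sum_univ_three, Matrix.diagonal, ra, rb]
  ring

lemma e2_gr (s1 s2 : ℝ) (E : Mx) :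
    e2 (gr2 s1 s2 E) = (s1 * s2) ^ 2 * (ra (1 + E) * rb (1 + E) - rg (1 + E) ^ 2) := by
  unfold e2
  rw [tr_gr]
  unfold gr2
  generalize 1 + E = F
  simp [dg3, Matrix.trace, Matrix.mul_apply, Fin.sum_univ_three, Matrix.diagonal, ra, rb, rg]
  ring

lemma lam_gr {s1 s2 : ℝ} (h2 : 0 < s2) (E : Mx) :
    Lam (gr2 s1 s2 E) = s2 ^ 2 * Lt (s2 / s1) (ra (1 + E)) (rb (1 + E)) (rg (1 + E)) := by
  unfold Lam Lt
  rw [e2_gr, tr_gr]
  generalize ra (1 + E) = a, rb (1 + E) = b, rg (1 + E) = g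
  have e : (s1 ^ 2 * a + s2 ^ 2 * b) ^ 2 - 4 * ((s1 * s2) ^ 2 * (a * b - g ^ 2)) =
      (s2 ^ 2) ^ 2 * ((b - a / (s2 / s1) ^ 2) ^ 2 + 4 * (g / (s2 / s1)) ^ 2) := by
    field_simp
    ring
  rw [e, Real.sqrt_mul (by positivity), Real.sqrt_sq (by positivity)]
  field_simp

/-- half the logarithm of the area factor -/
def alp (E : Mx) : ℝ := Real.log (ra (1 + E) * rb (1 + E) - rg (1 + E) ^ 2) / 2
/-- logarithm of the top eigenvalue factor -/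
def bet (K : ℝ) (E : Mx) : ℝ := Real.log (Lt K (ra (1 + E)) (rb (1 + E)) (rg (1 + E)))

lemma aa_gr {s1 s2 : ℝ} (h1 : 0 < s1) (h2 : 0 < s2) {E : Mx}
    (hD : 0 < ra (1 + E) * rb (1 + E) - rg (1 + E) ^ 2) :
    aa (gr2 s1 s2 E) = Real.log (s1 * s2) + alp E := by
  unfold aa alp
  rw [e2_gr, Real.log_mul (by positivity) hD.ne', Real.log_pow]
  push_cast
  ring

lemma t2f_eq (c : Pm) (h1 : 0 < c.s1) (h2 : 0 < c.s2) {E : Mx}
    (hD : 0 < ra (1 + E) * rb (1 + E) - rg (1 + E) ^ 2)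
    (hL : 0 < Lt c.K (ra (1 + E)) (rb (1 + E)) (rg (1 + E))) :
    c.t2f E = c.t + (bet c.K E - alp E) ∧
      c.V2 E = c.VG + alp E + (Psi (pR c.N) (c.t2f E) - Psi (pR c.N) c.t) := by
  constructor
  · unfold Pm.t2f tt Pm.t bet
    unfold Pm.K at hL ⊢
    rw [aa_gr h1 h2 hD, lam_gr h2, Real.log_mul (by positivity) hL.ne', Real.log_pow,
      Real.log_mul h1.ne' h2.ne', Real.log_div h2.ne' h1.ne']
    push_cast
    ring
  · unfold Pm.V2 Vf Pm.VG Pm.t2f Pm.n12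
    rw [aa_gr h1 h2 hD]
    ring

lemma log_near {x : ℝ} (h : |x| ≤ 1 / 2) : |Real.log (1 + x) - x| ≤ 2 * x ^ 2 := by
  obtain ⟨h1, h2⟩ := abs_le.1 h
  have hp : 0 < 1 + x := by linarith
  have a1 := Real.log_le_sub_one_of_pos hp
  have a2 := Real.one_sub_inv_le_log_of_pos hp
  have a3 : x - 2 * x ^ 2 ≤ 1 - (1 + x)⁻¹ := by
    rw [show 1 - (1 + x)⁻¹ = x / (1 + x) by field_simp; ring, le_div_iff₀ hp]
    nlinarith [sq_nonneg x]
  rw [abs_le]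
  constructor <;> nlinarith [sq_nonneg x]

lemma log_lip {a b : ℝ} (ha : 1 / 2 ≤ a) (hb : 1 / 2 ≤ b) :
    |Real.log a - Real.log b| ≤ 2 * |a - b| := by
  have k : ∀ x y : ℝ, 1 / 2 ≤ x → 1 / 2 ≤ y → Real.log x - Real.log y ≤ 2 * |x - y| := by
    intro x y hx hy
    rw [← Real.log_div (by linarith) (by linarith)]
    refine (Real.log_le_sub_one_of_pos (by positivity)).trans ?_
    rw [div_sub_one (by linarith), div_le_iff₀ (by linarith)]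
    nlinarith [le_abs_self (x - y), abs_nonneg (x - y)]
  rw [abs_le]
  have := k b a hb ha
  rw [abs_sub_comm] at this
  exact ⟨by linarith, k a b ha hb⟩

lemma log_one {a : ℝ} (ha : 1 / 2 ≤ a) : |Real.log a| ≤ 2 * |a - 1| := by
  simpa using log_lip ha (b := 1) (by norm_num)

/-- second order form -/
lemma log_diff {a a' : ℝ} (ha : |a - 1| ≤ 1 / 100) (hd : |a' - a| ≤ 1 / 100) :
    |Real.log a' - Real.log a - (a' - a)| ≤ 2 * |a' - a| * |a - 1| + 8 * (a' - a) ^ 2 := by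
  obtain ⟨h1, h2⟩ := abs_le.1 ha
  obtain ⟨h3, h4⟩ := abs_le.1 hd
  have hp : 0 < a := by linarith
  have e : Real.log a' - Real.log a = Real.log (1 + (a' - a) / a) := by
    rw [← Real.log_div (by linarith) hp.ne']
    congr 1
    field_simp
    ring
  have b1 : |(a' - a) / a| ≤ 2 * |a' - a| := by
    rw [abs_div, abs_of_pos hp, div_le_iff₀ hp]
    nlinarith [abs_nonneg (a' - a)]
  have b2 := log_near (x := (a' - a) / a) (by linarith)
  have b3 : ((a' - a) / a) ^ 2 ≤ 4 * (a' - a) ^ 2 := by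
    rw [← sq_abs, ← sq_abs (a' - a)]
    nlinarith [abs_nonneg ((a' - a) / a), abs_nonneg (a' - a)]
  have b4 : |(a' - a) / a - (a' - a)| ≤ 2 * |a' - a| * |a - 1| := by
    rw [show (a' - a) / a - (a' - a) = -((a' - a) / a * (a - 1)) by field_simp; ring, abs_neg,
      abs_mul]
    exact mul_le_mul_of_nonneg_right b1 (abs_nonneg _)
  rw [e]
  have := abs_sub_le (Real.log (1 + (a' - a) / a)) ((a' - a) / a) (a' - a)
  linarith

/-- any ratio of scales -/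
lemma lt_any {K a b g δ : ℝ} (hK : 1 ≤ K) (ha : |a - 1| ≤ δ) (hb : |b - 1| ≤ δ) (hg : |g| ≤ δ) :
    |Lt K a b g - 1| ≤ 2 * δ := by
  obtain ⟨h1, h2⟩ := abs_le.1 ha
  obtain ⟨h3, h4⟩ := abs_le.1 hb
  have hA : a / K ^ 2 ≤ 1 + δ := by
    rw [div_le_iff₀ (by positivity)]
    nlinarith [abs_nonneg g, one_le_pow₀ (n := 2) hK]
  have hc : |g / K| ≤ δ := by
    rw [abs_div, abs_of_pos (by linarith : 0 < K), div_le_iff₀ (by linarith)]
    nlinarith [abs_nonneg g]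
  unfold Lt
  generalize a / K ^ 2 = A at hA
  generalize g / K = c at hc
  have l1 : b - A ≤ Real.sqrt ((b - A) ^ 2 + 4 * c ^ 2) :=
    Real.le_sqrt_of_sq_le (by nlinarith [sq_nonneg c])
  have l2 : Real.sqrt ((b - A) ^ 2 + 4 * c ^ 2) ≤ |b - A| + 2 * |c| := by
    refine Real.sqrt_le_iff.2 ⟨by positivity, ?_⟩
    rw [← sq_abs (b - A), ← sq_abs c]
    nlinarith [abs_nonneg (b - A), abs_nonneg c]
  rw [abs_le]
  constructor
  · linarith
  · rcases abs_cases (b - A) with h | h <;> linarith [h.1]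

/-- large ratio of scales -/
lemma lt_big {K a b g : ℝ} (hK : 10 ≤ K) (ha : |a - 1| ≤ 1 / 100) (hb : |b - 1| ≤ 1 / 100) :
    b ≤ Lt K a b g ∧ Real.log (Lt K a b g) - Real.log b ≤ 11 / 10 * (g / K) ^ 2 := by
  obtain ⟨h1, h2⟩ := abs_le.1 ha
  obtain ⟨h3, h4⟩ := abs_le.1 hb
  have hA : a / K ^ 2 ≤ 2 / 100 := by
    rw [div_le_iff₀ (by positivity)]
    nlinarith
  unfold Lt
  generalize a / K ^ 2 = A at hA
  generalize g / K = c
  have l1 : b - A ≤ Real.sqrt ((b - A) ^ 2 + 4 * c ^ 2) :=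
    Real.le_sqrt_of_sq_le (by nlinarith [sq_nonneg c])
  have l2 : Real.sqrt ((b - A) ^ 2 + 4 * c ^ 2) ≤ b - A + 21 / 10 * c ^ 2 := by
    refine Real.sqrt_le_iff.2 ⟨by nlinarith [sq_nonneg c], ?_⟩
    nlinarith [sq_nonneg c, sq_nonneg (c ^ 2)]
  refine ⟨by linarith, ?_⟩
  rw [← Real.log_div (by linarith) (by linarith)]
  refine (Real.log_le_sub_one_of_pos (div_pos (by linarith) (by linarith))).trans ?_
  rw [div_sub_one (by linarith), div_le_iff₀ (by linarith)]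
  nlinarith [sq_nonneg c]

lemma area {a b g : ℝ} (ha : |a - 1| ≤ 1 / 100) (hb : |b - 1| ≤ 1 / 100) (hg : |g| ≤ 1 / 100) :
    0 < a * b - g ^ 2 ∧
      |Real.log (a * b - g ^ 2) / 2 - Real.log a / 2 - Real.log b / 2| ≤ g ^ 2 := by
  obtain ⟨h1, h2⟩ := abs_le.1 ha
  obtain ⟨h3, h4⟩ := abs_le.1 hb
  have h5 : g ^ 2 ≤ 1 / 10000 := by
    rw [← sq_abs]; nlinarith [abs_nonneg g]
  have h6 : 98 / 100 ≤ a * b := by nlinarith
  have := log_lip (a := a * b - g ^ 2) (b := a * b) (by linarith) (by linarith)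
  rw [Real.log_mul (by linarith) (by linarith), show a * b - g ^ 2 - a * b = -g ^ 2 by ring,
    abs_neg, abs_of_nonneg (sq_nonneg g)] at this
  refine ⟨by linarith, ?_⟩
  rw [abs_le] at this ⊢
  constructor <;> linarith [this.1, this.2]

/-- mean value form for the potential -/
lemma psi_mv {P e : ℝ → ℝ} (hP : ∀ t, HasDerivAt P (1 - e t) t) {t r η M x y : ℝ}
    (he : ∀ z, |z - t| ≤ r → |e z - η| ≤ M) (hx : |x - t| ≤ r) (hy : |y - t| ≤ r) :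
    |P x - P y - (1 - η) * (x - y)| ≤ M * |x - y| := by
  have hm : ∀ z, |z - t| ≤ r ↔ z ∈ Icc (t - r) (t + r) := fun z => by
    rw [abs_le, mem_Icc]
    constructor <;> intro h <;> constructor <;> linarith [h.1, h.2]
  have := (convex_Icc (t - r) (t + r)).norm_image_sub_le_of_norm_hasDerivWithin_le
    (f := fun z => P z - (1 - η) * z) (f' := fun z => 1 - e z - (1 - η)) (C := M)
    (fun z _ => by
      have := ((hP z).sub ((hasDerivAt_id z).const_mul (1 - η))).hasDerivWithinAt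
        (s := Icc (t - r) (t + r))
      rw [mul_one] at this
      exact this)
    (fun z hz => by
      rw [Real.norm_eq_abs, show 1 - e z - (1 - η) = -(e z - η) by ring, abs_neg]
      exact he z ((hm z).2 hz)) ((hm y).1 hy) ((hm x).1 hx)
  rw [Real.norm_eq_abs, Real.norm_eq_abs] at this
  convert this using 2
  ring

lemma psi_lip {P e : ℝ → ℝ} (hP : ∀ t, HasDerivAt P (1 - e t) t) (he : ∀ t, 0 < e t ∧ e t ≤ 1)
    (x y : ℝ) : |P x - P y| ≤ |x - y| := by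
  have := psi_mv hP (t := y) (r := |x - y|) (η := 1) (M := 1) (x := x) (y := y)
    (fun z _ => by rw [abs_le]; constructor <;> linarith [(he z).1, (he z).2]) le_rfl (by simp)
  simpa using this

end NcP
end
end Pool.Agent.MP_20bec2_an.T3

end MrgPart0

-- ======== part 1: formerly Pool.Agent.MP_20bec2_an.T3.NcB
section MrgPart1

/-! Numerical part of the estimate with the noise put back. -/

set_option autoImplicit false
open Set Filter Matrix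

namespace Pool.Agent.MP_20bec2_an.T3
noncomputable section
namespace NcP

/-- the sizes that are used -/
structure Sz (i ε η ω κ p T U σ δ K θ n : ℝ) : Prop where
  i0 : 0 < i
  i1 : i ≤ 1 / 10 ^ 6
  e1 : ε ≤ i ^ 2 / 1000
  h0 : 0 < η
  w0 : 0 < ω
  k1 : κ ≤ ε * i
  p0 : 0 ≤ p
  p1 : p * i ≤ κ
  p2 : p ≤ ε
  t1 : θ ^ 2 ≤ ε
  n1 : |n| ≤ 3 * (θ ^ 2 + p)
  T0 : 0 ≤ T
  T1 : T ^ 2 ≤ U * i
  U1 : U ≤ κ
  U2 : η * U ≤ ω ^ 2 / 100
  s0 : 0 ≤ σ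
  s1 : σ ^ 2 ≤ κ
  s2 : |θ| * σ ≤ ω
  s3 : T * σ ≤ ω
  K0 : 150 ≤ K
  K1 : K ^ 2 * ω ^ 2 ≤ κ
  K2 : η * K ^ 2 ≤ 1 / 1000
  d0 : 0 ≤ δ
  d1 : δ ≤ ω ^ 2 / 1000

/-- the tables -/
structure Tb (ω κ T σ δ K θ n : ℝ) (E A : Mx) : Prop where
  e00 : |E 0 0| ≤ 3 * κ
  e01 : |E 0 1| ≤ 3 / 4 * K * ω
  e02 : |E 0 2| ≤ T
  e10 : |E 1 0| ≤ 3 * ω
  e11 : |E 1 1| ≤ 4 * κ
  e12 : |E 1 2| ≤ 3 * ω + σ
  a00 : |A 0 0 - n| ≤ δ
  a01 : |A 0 1| ≤ δ
  a02 : |A 0 2 - θ| ≤ δ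
  a10 : |A 1 0| ≤ δ
  a11 : |A 1 1| ≤ δ
  a12 : |A 1 2| ≤ δ

lemma sq_pert {x d B δ : ℝ} (hx : |x| ≤ B) (hd : |d| ≤ δ) (hδ : δ ≤ 1) :
    |(x + d) ^ 2 - x ^ 2| ≤ (2 * B + 1) * δ := by
  rw [show (x + d) ^ 2 - x ^ 2 = (2 * x + d) * d by ring, abs_mul]
  refine mul_le_mul ?_ hd (abs_nonneg _) (by linarith [abs_nonneg x])
  have := abs_add_le (2 * x) d
  rw [abs_mul, abs_two] at this
  linarith

lemma sq_of {x B : ℝ} (hx : |x| ≤ B) : x ^ 2 ≤ B ^ 2 := by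
  rw [← sq_abs]; exact pow_le_pow_left₀ (abs_nonneg x) hx 2

lemma mul_of {x y B C : ℝ} (hx : |x| ≤ B) (hy : |y| ≤ C) : |x * y| ≤ B * C := by
  rw [abs_mul]; exact mul_le_mul hx hy (abs_nonneg _) ((abs_nonneg _).trans hx)

variable {i ε η ω κ p T U σ δ K θ n : ℝ} {E A : Mx}

lemma Sz.small (h : Sz i ε η ω κ p T U σ δ K θ n) :
    0 ≤ ε ∧ ε ≤ i / 10 ^ 9 ∧ ε ≤ 1 / 10 ^ 15 ∧ 0 < κ ∧ κ ≤ ε / 10 ^ 6 ∧ ω ^ 2 ≤ κ / 22500 ∧
      ω ≤ 1 / 10 ^ 6 ∧ T ≤ 1 / 10 ^ 6 ∧ σ ≤ 1 / 10 ^ 6 ∧ |θ| ≤ 1 / 10 ^ 6 ∧ K * ω ≤ 1 / 10 ^ 6 ∧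
      δ ≤ ω / 1000 ∧ 0 ≤ U ∧ T ^ 2 ≤ κ ∧ η ≤ 1 := by
  have a0 : 0 ≤ ε := (sq_nonneg θ).trans h.t1
  have := h.i0
  have := h.i1
  have := h.w0
  have := h.K0
  have a1 : ε ≤ i / 10 ^ 9 := by nlinarith [h.e1]
  have a2 : ε ≤ 1 / 10 ^ 15 := by linarith
  have hK : 22500 ≤ K ^ 2 := by nlinarith
  have a3 : ω ^ 2 * 22500 ≤ κ := by nlinarith [h.K1, sq_nonneg ω]
  have a4 : 0 < κ := by nlinarith
  have a5 : κ ≤ ε / 10 ^ 6 := by nlinarith [h.k1]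
  have a6 : 0 ≤ U := by
    by_contra hU
    nlinarith [h.T1, sq_nonneg T, mul_pos (neg_pos.2 (not_le.1 hU)) h.i0]
  have a7 : T ^ 2 ≤ κ := by nlinarith [h.T1, h.U1]
  have sq : ∀ x : ℝ, x ^ 2 ≤ 1 / 10 ^ 12 → x ≤ 1 / 10 ^ 6 := fun x hx => by nlinarith
  have a8 : ω ≤ 1 / 10 ^ 6 := sq _ (by linarith)
  refine ⟨a0, a1, a2, a4, a5, by linarith, a8, sq _ (by linarith), sq _ (by linarith [h.s1]),
    sq _ (by rw [sq_abs]; linarith [h.t1]), sq _ (by rw [mul_pow]; linarith [h.K1]),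
    by nlinarith [h.d1], a6, a7, by nlinarith [h.K2, h.h0]⟩

lemma add_of {x y B C : ℝ} (hx : |x| ≤ B) (hy : |y| ≤ C) : |x + y| ≤ B + C :=
  (abs_add_le _ _).trans (add_le_add hx hy)

lemma ra_eq (E : Mx) : ra (1 + E) = (1 + E 0 0) ^ 2 + E 0 1 ^ 2 + E 0 2 ^ 2 := by
  simp [ra]

lemma rb_eq (E : Mx) : rb (1 + E) = E 1 0 ^ 2 + (1 + E 1 1) ^ 2 + E 1 2 ^ 2 := by
  simp [rb]

lemma rg_eq (E : Mx) :
    rg (1 + E) = (1 + E 0 0) * E 1 0 + E 0 1 * (1 + E 1 1) + E 0 2 * E 1 2 := by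
  simp [rg]

lemma row1 (h : Sz i ε η ω κ p T U σ δ K θ n) (b : Tb ω κ T σ δ K θ n E A) :
    |ra (1 + E) - 1| ≤ 10 * κ := by
  obtain ⟨a0, a1, a2, a4, a5, a3, a8, aT, aσ, aθ, aK, aδ, a6, a7, a9⟩ := h.small
  have c1 := sq_of b.e00
  have c2 := sq_of b.e01
  have c3 := sq_of b.e02
  have c4 := abs_le.1 b.e00
  have c5 := h.K1
  have c6 : κ * κ ≤ κ * (1 / 100) := mul_le_mul_of_nonneg_left (by linarith) a4.le
  rw [ra_eq, abs_le]
  constructor <;> linarith [sq_nonneg (E 0 0), sq_nonneg (E 0 1), sq_nonneg (E 0 2), c4.1, c4.2]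

lemma row2 (h : Sz i ε η ω κ p T U σ δ K θ n) (b : Tb ω κ T σ δ K θ n E A) :
    |rb (1 + E) - 1| ≤ 12 * κ := by
  obtain ⟨a0, a1, a2, a4, a5, a3, a8, aT, aσ, aθ, aK, aδ, a6, a7, a9⟩ := h.small
  have c1 := sq_of b.e10
  have c2 := sq_of b.e11
  have c3 := sq_of b.e12
  have c4 := abs_le.1 b.e11
  have c5 := h.s1
  have c6 : κ * κ ≤ κ * (1 / 100) := mul_le_mul_of_nonneg_left (by linarith) a4.le
  rw [rb_eq, abs_le]
  constructor <;> linarith [sq_nonneg (E 1 0), sq_nonneg (E 1 1), sq_nonneg (E 1 2),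
    sq_nonneg (3 * ω - σ), c4.1, c4.2]

lemma row3 (h : Sz i ε η ω κ p T U σ δ K θ n) (b : Tb ω κ T σ δ K θ n E A) :
    |rb (1 + (E + A)) - rb (1 + E)| ≤ 10 * δ := by
  obtain ⟨a0, a1, a2, a4, a5, a3, a8, aT, aσ, aθ, aK, aδ, a6, a7, a9⟩ := h.small
  have d0 := h.d0
  have hδ : δ ≤ 1 := by linarith
  have c1 := abs_le.1 (sq_pert (b.e10.trans (by linarith : _ ≤ (1 : ℝ))) b.a10 hδ)
  have c2 := abs_le.1 (sq_pert ((add_of abs_one.le b.e11).trans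
    (by linarith : _ ≤ (3 / 2 : ℝ))) b.a11 hδ)
  have c3 := abs_le.1 (sq_pert (b.e12.trans (by linarith : _ ≤ (1 : ℝ))) b.a12 hδ)
  simp only [rb_eq, Matrix.add_apply]
  rw [abs_le]
  constructor <;> linarith [c1.1, c1.2, c2.1, c2.2, c3.1, c3.2]

lemma row4 (h : Sz i ε η ω κ p T U σ δ K θ n) (b : Tb ω κ T σ δ K θ n E A) :
    |rg (1 + (E + A))| ≤ 4 / 5 * K * ω := by
  obtain ⟨a0, a1, a2, a4, a5, a3, a8, aT, aσ, aθ, aK, aδ, a6, a7, a9⟩ := h.small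
  have w0 := h.w0
  have d0 := h.d0
  have hn : |n| ≤ 6 * ε := by linarith [h.n1, h.t1, h.p2]
  have c1 := mul_of ((add_of (add_of (add_of abs_one.le b.e00) hn) b.a00).trans
    (by linarith : _ ≤ (101 / 100 : ℝ))) ((add_of b.e10 b.a10).trans
    (by linarith : _ ≤ 301 / 100 * ω))
  have c2 := mul_of (add_of b.e01 b.a01) ((add_of (add_of abs_one.le b.e11) b.a11).trans
    (by linarith : _ ≤ (101 / 100 : ℝ)))
  have c3 := mul_of (add_of (add_of b.e02 (le_refl |θ|)) b.a02) (add_of b.e12 b.a12)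
  have c4 := mul_le_mul (by linarith : T + |θ| + δ ≤ 1 / 100)
    (by linarith : 3 * ω + δ ≤ 4 * ω) (by linarith) (by norm_num)
  have c5 : 150 * ω ≤ K * ω := mul_le_mul_of_nonneg_right h.K0 w0.le
  have c6 : δ * σ ≤ δ * 1 := mul_le_mul_of_nonneg_left (by linarith) d0
  simp only [rg_eq, Matrix.add_apply]
  rw [show (1 + (E 0 0 + A 0 0)) * (E 1 0 + A 1 0) + (E 0 1 + A 0 1) * (1 + (E 1 1 + A 1 1)) +
    (E 0 2 + A 0 2) * (E 1 2 + A 1 2) = (1 + E 0 0 + n + (A 0 0 - n)) * (E 1 0 + A 1 0) +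
    (E 0 1 + A 0 1) * (1 + E 1 1 + A 1 1) + (E 0 2 + θ + (A 0 2 - θ)) * (E 1 2 + A 1 2) by ring]
  refine (add_of (add_of c1 c2) c3).trans ?_
  linarith [h.s2, h.s3]

lemma row5 (h : Sz i ε η ω κ p T U σ δ K θ n) (b : Tb ω κ T σ δ K θ n E A) :
    |(ra (1 + (E + A)) - ra (1 + E)) / 2 - (n + θ ^ 2 / 2)| ≤
      (θ ^ 2 + p) * i / 8 + (5 / 2 * U + 10 * δ) := by
  obtain ⟨a0, a1, a2, a4, a5, a3, a8, aT, aσ, aθ, aK, aδ, a6, a7, a9⟩ := h.small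
  have d0 := h.d0
  have hδ : δ ≤ 1 := by linarith
  have hn : |n| ≤ 6 * ε := by linarith [h.n1, h.t1, h.p2]
  have c1 := abs_le.1 (sq_pert ((add_of (add_of abs_one.le b.e00) hn).trans
    (by linarith : _ ≤ (2 : ℝ))) b.a00 hδ)
  have c2 := abs_le.1 (sq_pert (b.e01.trans (by linarith : _ ≤ (1 : ℝ))) b.a01 hδ)
  have c3 := abs_le.1 (sq_pert ((add_of b.e02 aθ).trans (by linarith : _ ≤ (1 : ℝ))) b.a02 hδ)
  have c4 := abs_le.1 (mul_of h.n1 b.e00)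
  have c5 := abs_le.1 (mul_of h.n1 hn)
  have c6 := abs_le.1 (mul_of b.e02 (le_refl |θ|))
  have c7 : T * |θ| ≤ θ ^ 2 * i / 10 + 5 / 2 * U := by
    refine le_of_mul_le_mul_left ?_ h.i0
    rw [← sq_abs θ]
    linarith [sq_nonneg (i * |θ| - 5 * T), h.T1]
  have P0 : 0 ≤ θ ^ 2 + p := by linarith [sq_nonneg θ, h.p0]
  have c8 : (θ ^ 2 + p) * κ ≤ (θ ^ 2 + p) * (i / 1000) :=
    mul_le_mul_of_nonneg_left (by linarith [h.i0]) P0
  have c9 : (θ ^ 2 + p) * ε ≤ (θ ^ 2 + p) * (i / 1000) :=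
    mul_le_mul_of_nonneg_left (by linarith [h.i0]) P0
  have c10 : 0 ≤ p * i := mul_nonneg h.p0 h.i0.le
  have c11 : 0 ≤ θ ^ 2 * i := mul_nonneg (sq_nonneg θ) h.i0.le
  have c12 := mul_self_nonneg n
  simp only [ra_eq, Matrix.add_apply]
  rw [abs_le]
  constructor <;> linarith [c1.1, c1.2, c2.1, c2.2, c3.1, c3.2, c4.1, c4.2, c5.2, c6.1, c6.2]

lemma Sz.zero (h : Sz i ε η ω κ p T U σ δ K θ n) : Sz i ε η ω κ p T U σ δ K 0 0 :=
  { h with
    t1 := by simpa using h.small.1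
    n1 := by simpa using h.p0
    s2 := by simpa using h.w0.le }

lemma Tb.zero (b : Tb ω κ T σ δ K θ n E A) (d0 : 0 ≤ δ) : Tb ω κ T σ δ K 0 0 E 0 :=
  { b with
    a00 := by simpa using d0
    a01 := by simpa using d0
    a02 := by simpa using d0
    a10 := by simpa using d0
    a11 := by simpa using d0
    a12 := by simpa using d0 }

lemma logs (h : Sz i ε η ω κ p T U σ δ K θ n) (b : Tb ω κ T σ δ K θ n E A) :
    (0 < ra (1 + (E + A)) * rb (1 + (E + A)) - rg (1 + (E + A)) ^ 2 ∧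
      0 < Lt K (ra (1 + (E + A))) (rb (1 + (E + A))) (rg (1 + (E + A)))) ∧
    |alp E| ≤ 23 * κ ∧ |bet K (E + A)| ≤ 27 * κ ∧ |bet K (E + A) - bet K E| ≤ 73 / 100 * ω ^ 2 ∧
    |alp (E + A) - alp E - (n + θ ^ 2 / 2)| ≤
      (θ ^ 2 + p) * i / 4 + (5 * U + 40 * δ + 2 * (K ^ 2 * ω ^ 2)) := by
  obtain ⟨a0, a1, a2, a4, a5, a3, a8, aT, aσ, aθ, aK, aδ, a6, a7, a9⟩ := h.small
  have r1 := row1 h b
  have r2 := row2 h b
  have r3 := row3 h b
  have r4 := row4 h b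
  have r5 := row5 h b
  have r6 := row4 h.zero (b.zero h.d0)
  rw [add_zero] at r6
  unfold alp bet
  generalize ra (1 + E) = a, rb (1 + E) = b0, rg (1 + E) = g, ra (1 + (E + A)) = a',
    rb (1 + (E + A)) = b', rg (1 + (E + A)) = g' at r1 r2 r3 r4 r5 r6
  have d0 := h.d0
  have d1 := h.d1
  have K0 := h.K0
  have K1 := h.K1
  have U1 := h.U1
  have P0 : 0 ≤ θ ^ 2 + p := by linarith [sq_nonneg θ, h.p0]
  have P1 : θ ^ 2 + p ≤ 2 * ε := by linarith [h.t1, h.p2]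
  have P2 : (θ ^ 2 + p) * i ≤ (θ ^ 2 + p) * 1 := mul_le_mul_of_nonneg_left (by linarith [h.i1]) P0
  have hd : |a' - a| ≤ 8 * (θ ^ 2 + p) + (5 * U + 20 * δ) := by
    have c1 := abs_le.1 r5
    have c2 := abs_le.1 h.n1
    rw [abs_le]
    constructor <;> linarith [c1.1, c1.2, c2.1, c2.2, sq_nonneg θ, h.p0]
  have hb' : |b' - 1| ≤ 13 * κ := by
    have := abs_sub_le b' b0 1
    linarith
  have ha' : |a' - 1| ≤ 1 / 100 := by
    have := abs_sub_le a' a 1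
    linarith
  have g2 : ∀ x : ℝ, |x| ≤ 4 / 5 * K * ω →
      x ^ 2 ≤ K ^ 2 * ω ^ 2 ∧ (x / K) ^ 2 ≤ 16 / 25 * ω ^ 2 := fun x hx => by
    have := sq_of hx
    refine ⟨by linarith [mul_nonneg (sq_nonneg K) (sq_nonneg ω)], ?_⟩
    rw [div_pow, div_le_iff₀ (by positivity)]
    linarith
  obtain ⟨g3, g4⟩ := g2 g r6
  obtain ⟨g5, g6⟩ := g2 g' r4
  obtain ⟨D1, D2⟩ := area (a := a) (b := b0) (g := g) (by linarith) (by linarith) (by linarith)
  obtain ⟨D3, D4⟩ := area (a := a') (b := b') (g := g') ha' (by linarith) (by linarith)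
  obtain ⟨L1, L2⟩ := lt_big (K := K) (a := a) (b := b0) (g := g) (by linarith) (by linarith)
    (by linarith)
  obtain ⟨L3, L4⟩ := lt_big (K := K) (a := a') (b := b') (g := g') (by linarith) ha' (by linarith)
  have hb0 : 1 / 2 ≤ b0 := by linarith [(abs_le.1 r2).1]
  have hb1 : 1 / 2 ≤ b' := by linarith [(abs_le.1 hb').1]
  have ha0 : 1 / 2 ≤ a := by linarith [(abs_le.1 r1).1]
  have L5 := Real.log_le_log (by linarith) L1
  have L6 := Real.log_le_log (by linarith) L3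
  have l1 := abs_le.1 ((log_one ha0).trans (mul_le_mul_of_nonneg_left r1 zero_le_two))
  have l2 := abs_le.1 ((log_one hb0).trans (mul_le_mul_of_nonneg_left r2 zero_le_two))
  have l3 := abs_le.1 ((log_one hb1).trans (mul_le_mul_of_nonneg_left hb' zero_le_two))
  have l4 := abs_le.1 ((log_lip hb1 hb0).trans (mul_le_mul_of_nonneg_left r3 zero_le_two))
  have l5 := log_diff (a := a) (a' := a') (by linarith) (by linarith)
  have l6 : 2 * |a' - a| * |a - 1| + 8 * (a' - a) ^ 2 ≤ |a' - a| * (i / 1000) := by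
    rw [← sq_abs (a' - a)]
    have := mul_le_mul_of_nonneg_left
      (by linarith [h.i0] : 2 * |a - 1| + 8 * |a' - a| ≤ i / 1000) (abs_nonneg (a' - a))
    linarith
  have l7 := mul_le_mul_of_nonneg_right hd (by linarith [h.i0] : 0 ≤ i / 1000)
  have l8 : (5 * U + 20 * δ) * i ≤ (5 * U + 20 * δ) * 1 :=
    mul_le_mul_of_nonneg_left (by linarith [h.i1]) (by linarith)
  have l9 := abs_le.1 (l5.trans (l6.trans l7))
  have l10 := mul_nonneg P0 h.i0.le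
  rw [abs_le] at D2 D4 r5
  refine ⟨⟨D3, by linarith⟩, ?_, ?_, ?_, ?_⟩ <;> rw [abs_le] <;> constructor <;>
    linarith [l1.1, l1.2, l2.1, l2.2, l3.1, l3.2, l4.1, l4.2, l9.1, l9.2, D2.1, D2.2, D4.1, D4.2,
      r5.1, r5.2, sq_nonneg ω]

lemma core (h : Sz i ε η ω κ p T U σ δ K θ n) (b : Tb ω κ T σ δ K θ n E A) {P e : ℝ → ℝ} {t : ℝ}
    (hP : ∀ t, HasDerivAt P (1 - e t) t) (he0 : ∀ t, 0 < e t ∧ e t ≤ 1)
    (he : ∀ z, |z - t| ≤ 100 * ε → |e z - η| ≤ 2 * η * i ^ 2) :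
    |alp (E + A) - alp E + (P (t + (bet K (E + A) - alp (E + A))) - P (t + (bet K E - alp E))) -
      η * (n + θ ^ 2 / 2)| ≤ η * (θ ^ 2 + p) * i + ω ^ 2 ∧
    |bet K (E + A) - alp (E + A) + (n + θ ^ 2 / 2)| ≤ 100 * κ + θ ^ 2 * i ∧
    |alp (E + A) + (P (t + (bet K (E + A) - alp (E + A))) - P t)| ≤ 100 * ε ∧
    |bet K (E + A) - alp (E + A)| ≤ 100 * ε := by
  obtain ⟨a0, a1, a2, a4, a5, a3, a8, aT, aσ, aθ, aK, aδ, a6, a7, a9⟩ := h.small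
  obtain ⟨-, l1, l2, l3, l4⟩ := logs h b
  generalize alp E = α, alp (E + A) = α', bet K E = β, bet K (E + A) = β' at l1 l2 l3 l4
  have d0 := h.d0
  have d1 := h.d1
  have K1 := h.K1
  have U1 := h.U1
  have h0 := h.h0
  have p1 := h.p1
  have P0 : 0 ≤ θ ^ 2 + p := by linarith [sq_nonneg θ, h.p0]
  have P1 : θ ^ 2 + p ≤ 2 * ε := by linarith [h.t1, h.p2]
  have P2 : (θ ^ 2 + p) * i ≤ (θ ^ 2 + p) * 1 := mul_le_mul_of_nonneg_left (by linarith [h.i1]) P0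
  have P3 : 0 ≤ θ ^ 2 * i := mul_nonneg (sq_nonneg θ) h.i0.le
  have P4 : 0 ≤ p * i := mul_nonneg h.p0 h.i0.le
  have hM : |n + θ ^ 2 / 2| ≤ 4 * (θ ^ 2 + p) := by
    have c2 := abs_le.1 h.n1
    rw [abs_le]
    constructor <;> linarith [c2.1, c2.2, sq_nonneg θ, h.p0]
  have S1 : η * (5 * U + 40 * δ + 2 * (K ^ 2 * ω ^ 2)) ≤ ω ^ 2 / 10 := by
    have c1 : η * δ ≤ 1 * δ := mul_le_mul_of_nonneg_right a9 d0
    have c2 := mul_le_mul_of_nonneg_right h.K2 (sq_nonneg ω)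
    linarith [h.U2, sq_nonneg ω]
  have S2 : 5 * U + 40 * δ + 2 * (K ^ 2 * ω ^ 2) ≤ 8 * κ := by linarith
  generalize 5 * U + 40 * δ + 2 * (K ^ 2 * ω ^ 2) = S at l4 S1 S2
  generalize n + θ ^ 2 / 2 = M at l4 hM
  have m1 := abs_le.1 l1
  have m2 := abs_le.1 l2
  have m3 := abs_le.1 l3
  have m4 := abs_le.1 l4
  have m5 := abs_le.1 hM
  have t1 : |β' - α'| ≤ 20 * ε := by
    rw [abs_le]
    constructor <;> linarith [m1.1, m1.2, m2.1, m2.2, m4.1, m4.2, m5.1, m5.2]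
  have t2 : |β - α| ≤ 100 * ε := by
    rw [abs_le]
    constructor <;> linarith [m1.1, m1.2, m2.1, m2.2, m3.1, m3.2]
  refine ⟨?_, ?_, ?_, by linarith⟩
  · have c1 := psi_mv hP he (x := t + (β' - α')) (y := t + (β - α))
      (by rw [add_sub_cancel_left]; linarith) (by rw [add_sub_cancel_left]; exact t2)
    have c2 : |t + (β' - α') - (t + (β - α))| ≤ 5 * (θ ^ 2 + p) + S + ω ^ 2 := by
      rw [abs_le]
      constructor <;> linarith [m3.1, m3.2, m4.1, m4.2, m5.1, m5.2, sq_nonneg ω]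
    have i0 := h.i0
    have i1 := h.i1
    have c3 := abs_le.1 (c1.trans (mul_le_mul_of_nonneg_left c2 (by positivity)))
    have c4 := abs_le.1 (mul_of (abs_of_pos h0).le l4)
    have c5 := abs_le.1 (mul_of (x := 1 - η) (B := 1)
      (by rw [abs_le]; constructor <;> linarith) l3)
    have c6 : η * (θ ^ 2 + p) * i * i ≤ η * (θ ^ 2 + p) * i * (1 / 100) :=
      mul_le_mul_of_nonneg_left (by linarith) (by positivity)
    have c7 : i ^ 2 * (η * S + η * ω ^ 2) ≤ 1 / 100 * (2 * ω ^ 2) := by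
      have c8 : η * ω ^ 2 ≤ 1 * ω ^ 2 := mul_le_mul_of_nonneg_right a9 (sq_nonneg ω)
      refine (mul_le_mul_of_nonneg_left
        (by linarith [sq_nonneg ω] : _ ≤ 2 * ω ^ 2) (sq_nonneg i)).trans ?_
      exact mul_le_mul_of_nonneg_right (by nlinarith) (by positivity)
    have c9 : 0 ≤ η * (θ ^ 2 + p) * i := by positivity
    rw [abs_le]
    constructor <;> linarith [c3.1, c3.2, c4.1, c4.2, c5.1, c5.2, sq_nonneg ω]
  · rw [abs_le]
    constructor <;> linarith [m1.1, m1.2, m2.1, m2.2, m4.1, m4.2]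
  · have c1 := psi_lip hP he0 (t + (β' - α')) t
    rw [add_sub_cancel_left] at c1
    have c2 := abs_le.1 (c1.trans t1)
    rw [abs_le]
    constructor <;> linarith [m1.1, m1.2, m4.1, m4.2, m5.1, m5.2, c2.1, c2.2]

end NcP
end
end Pool.Agent.MP_20bec2_an.T3

end MrgPart1

-- marker of a merged file
example : 731051 + 650794 = 731051 + 650794 := rfl
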