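import Pool.Agent.MP_20bec2_an.T3.Final
import Pool.Agent.MP_20bec2_an.T3.NcB
import Pool.Agent.MP_20bec2_an.T3.FvA
import Pool.Agent.MP_20bec2_an.T3.Par3

-- ======== part 0: formerly Pool.Agent.MP_20bec2_an.T3.DefsB
section MrgPart0

set_option autoImplicit false
open MeasureTheory Set Filter Matrix

namespace Pool.Agent.MP_20bec2_an.T3
noncomputable section
open Classical

/-! ## the map `f` in hat coordinates -/

def Xj (N : ℕ) : Mx := bm (pJ N ^ 4 / N) (pJ N ^ 3 / Real.sqrt N) (pJ N)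
/-- bound of the entries `(i, 2)` at the start of a block -/
def Pm.B1 (c : Pm) : ℝ := Real.sqrt (pX c.N / (c.q ^ 8 * c.N) + 1 / 10 ^ 8 * (c.η * c.p)) +
  c.J ^ 2 / Real.sqrt c.N * (min 1 (c.η / (85 / 100 * etaA c.N))) ^ c.J
def Pm.pi1 (c : Pm) : ℝ := 4 * c.B1 + 10 * Real.sqrt (c.η * c.p)

def Pm.DI (c : Pm) (f : V → V) (z : V) (d : ℝ) : Prop :=
  ∀ a b i, c.hs i * |pd i (fun w => c.gam f w a b) z| ≤ d * Xj c.N a b
def Pm.GB (c : Pm) (f : V → V) (z : V) (t : ℝ) : Prop :=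
  EB (c.gam f z - c.gref) (t • bm c.gb (hc c.N) (1 / 10))
/-- bounds of a density -/
def Pm.MB (c : Pm) (e t : ℝ) (M : V → ℝ) (U : Set V) : Prop :=
  (∀ z ∈ U, |M z - 1| ≤ e) ∧ CB 2 c.hs U M (t * c.q) ∧ CL 2 c.hs U M (t * np c.N (-26 / 100))
/-- bounds of a small flux -/
def Pm.RB (c : Pm) (R : V → V) (U : Set V) : Prop :=
  (∀ i, i ≠ 2 → CB 3 c.hs U (fun z => R z i) (np c.N (-10) * c.lam)) ∧
  CB 3 c.hs U (fun z => R z 2) (c.q * c.y) ∧ CL 3 c.hs U (fun z => R z 2) (np c.N (-1 / 4) * c.y)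
def Th (f f' : V → V) (z' z : V) : Mx := (jm f z')⁻¹ * jm f' z

structure FP where
  dl : ℝ
  dv : ℝ
  eg : ℝ
  eh : ℝ
  ek : ℝ
  th : ℝ
  t3 : ℝ
  df : ℝ

/-- `f'` at the new position `z` against `f` at the old position `z'` of the same target point -/
structure FRel (c : Pm) (f f' : V → V) (z' z : V) (P : FP) : Prop where
  mt : f' z = f z'
  dl : ∀ i, i ≠ 2 → |z i - z' i| ≤ P.dl * c.hs i
  dv : |z 2 - z' 2| ≤ P.dv * c.y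
  dg : EB (c.gam f' z - c.gam f z') (bm P.eg P.eh P.ek)
  th : ∀ a b, ¬ (a = 2 ∧ b = 2) → |(Th f f' z' z - 1) a b| * c.hs b ≤ P.th * c.hs a
  t3 : |Th f f' z' z 2 2 - 1| ≤ P.t3
  df : ∀ d, 0 ≤ d → c.DI f z' d → ∀ a b i, c.hs i * |pd i (fun w => c.gam f' w a b) z -
    ∑ j, pd j (fun w => c.gam f w a b) z' * Th f f' z' z j i| ≤ (1 + d) * P.df * Xj c.N a b

/-- main step, level `t` -/
def FPm (N : ℕ) (A π t : ℝ) : FP :=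
  ⟨t * np N (-2 / 5), t * np N (-1 / 20), t * (A * (π + A) + 1 / (N * pJ N ^ 6)),
    t * (A + 1 / (Real.sqrt N * pJ N ^ 4)), t * np N (-1 / 20), t * np N (-1 / 20),
    t * np N (-1 / 20), t / pq N ^ 3⟩
/-- small step -/
def FPs (N : ℕ) : FP :=
  ⟨np N (-2 / 5), qp N (7 / 5), np N (-21 / 20), np N (-11 / 20), np N (-1 / 10), np N (-1 / 10),
    1 / 10 ^ 6, np N (-1 / 100)⟩
def Pm.LA (c : Pm) : Mx :=
  !![c.η * c.p / 1000, c.η * c.p / 1000, 9 * Real.sqrt (c.η * c.p);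
    c.η * c.p / 1000, pX c.N / (qp c.N (18 / 5) * c.N), 9 * Real.sqrt (c.η * c.p);
    9 * Real.sqrt (c.η * c.p), 9 * Real.sqrt (c.η * c.p), np c.N (-1 / 20)]
def E00 : Mx := dg3 1 0 0
def E02 : Mx := !![0, 0, 1; 0, 0, 0; 0, 0, 0]
/-- long slide -/
structure LRel (c : Pm) (f f' : V → V) (z' z : V) (Y : ℝ) : Prop where
  mt : f' z = f z'
  dl : ∀ i, i ≠ 2 → |z i - z' i| ≤ np c.N (-39 / 100) * c.hs i
  dv : |z 2 - z' 2| ≤ np c.N (21 / 10) * c.lam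
  dg : EB (c.gam f' z - c.gam f z' - (c.η * Y) • E00) ((9 / 10 : ℝ) • c.LA)
  df : ∀ d, 0 ≤ d → c.DI f z' d → c.DI f' z (np c.N 10 * (1 + d))

/-- steering charts -/
def Pm.ChB (c : Pm) (ch : Cu → ℝ → V) : Prop := (c.steer ∨ ch = 0) ∧ ∀ g, Sm (ch g) ∧
  ∀ i, i ≠ 2 → ∀ s, (|s / c.L - g 2| ≤ 1 → |ch g s i| ≤ c.cw i / 100) ∧
    |deriv (fun r => ch g r i) s| ≤ np c.N (-19 / 10) ∧
    c.dgn i * |deriv (fun r => ch g r i) s| * c.n12 / c.cc i ≤ 2 * hc c.N ∧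
    c.dgn i * |iteratedDeriv 2 (fun r => ch g r i) s| * c.n12 / c.cc i ≤ c.q * Xj c.N 0 2 / c.y ∧
    c.dgn i * |iteratedDeriv 3 (fun r => ch g r i) s| * c.n12 / c.cc i ≤
      c.q ^ 2 * Xj c.N 0 2 / (np c.N (-3 / 100) * c.y ^ 2)
def Pm.PiF (c : Pm) (ch : Cu → ℝ → V) (f : V → V) (z : V) (π : ℝ) : Prop :=
  ∀ g, c.Near g z → ∀ i, i ≠ 2 →
    |c.gam f z i 2 + c.dgn i * deriv (fun r => ch g r i) (z 2) * c.n12 / (jac f z * c.cc i)| ≤ π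
def Pm.cf (c : Pm) (g : Cu) (F : V → V) (i : Fin 3) (z : V) : ℝ := c.bc g z * F z i
/-- envelope of the column integrals at one point -/
def Pm.Env (c : Pm) (ch : Cu → ℝ → V) (F : V → V) (z : V) (a : ℝ) : Prop :=
  ∀ g, c.Near g z → ∀ i, i ≠ 2 →
    CBl (LatL 2) c.hs {cin (ch g) z} (pre (ch g) (c.cf g F i)) (c.hs i * c.GG * a) ∧
    CBl (LatL 2) c.hs {cin (ch g) z} (tot (ch g) (c.cf g F i)) (c.hs i * c.GG * a)
/-- uniform bounds of the main flux -/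
structure Pm.FB (c : Pm) (O : Mx) (ch : Cu → ℝ → V) (F : V → V) : Prop where
  sm : Sm F
  f2 : ∀ z, F z 2 = 0
  cb : ∀ i, i ≠ 2 → CB 3 c.hs univ (fun z => F z i) (np c.N (-28 / 100) * c.hs i)
  far : ∀ i, i ≠ 2 → CB 3 c.hs (RX O c.D (935 / 1000))ᶜ (fun z => F z i) (Real.exp (-c.N) * c.hs i)
  pb : ∀ g i, i ≠ 2 → CBl (LatL 3) c.hs univ (pre (ch g) (c.cf g F i)) (c.hs i * c.GH) ∧
    CBl (LatL 3) c.hs univ (tot (ch g) (c.cf g F i)) (c.hs i * c.GH) ∧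
    ∀ w, |pre (ch g) (c.cf g F i) w| ≤ pA c.N * c.hs i * c.GH ∧
      |tot (ch g) (c.cf g F i) w| ≤ pA c.N * c.hs i * c.GH
def cutF (O : Mx) (D : ℝ) (F : V → V) (z : V) : V := beth O D z • F z
/-- the equaliser potential -/
def Pm.PqS (c : Pm) (O : Mx) (P : V → ℝ) : Prop := Sm P ∧
  (∀ x ∈ RX O c.D (99 / 100), |P x| ≤ Real.sqrt c.q * c.lA ∧ -(7 / 10) ≤ pd 0 P x ∧ pd 0 P x ≤ 10 ∧
    |pd 1 P x| ≤ c.q ^ 4 * c.J * c.m * uB c.N ∧ |pd 2 P x| ≤ c.q ^ 4 * c.J * c.t1B) ∧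
  CO 2 (cv 1) (RX O c.D (99 / 100)) P (Real.sqrt c.q / c.lA + c.q * c.d2u) ∧
  CB 4 (cv c.lam) (RX O c.D (99 / 100)) P ((c.N : ℝ) ^ 2 * c.lam)

/-! ## one cube, one colour: data, hypotheses, conclusions -/

structure MD where
  c : Pm
  O : Mx
  ρ : V → ℝ
  Z : V → V
  E : V → Mx
  S : V → Mx
  C : V → Mx
  Dl : V → Mx
  Db : V → Mx
  yL : ℝ
  ch : Cu → ℝ → V
  th : V → ℝ
  Pq : V → ℝ
  T : Finset Cu
  w : Cu → ℝ
  px : Cu → V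
  pz : Cu → V
  pl : Cu → V

namespace MD
variable (d : MD)
def R (r : ℝ) : Set V := RX d.O d.c.D r
def α (x : V) : ℝ := alh d.O d.c.D x
def SR (y' : ℝ) (x : V) : Mx := d.S x - d.Dl x - (d.c.y ^ 2 - y' ^ 2) • d.Db x
def SL (x : V) : Mx := d.S x - (d.c.y ^ 2 - d.yL ^ 2) • d.Db x
def dN (dth dY : V → ℝ) (x : V) : Mx := dth x • E02 +
  (1 / 4 * pd 0 d.Pq x * ((d.th x + dth x) ^ 2 - d.th x ^ 2 - dY x)) • E00

structure In : Prop where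
  ok : d.c.Ok
  ort : Orth d.O
  rho : Rho d.ρ
  sZ : Sm d.Z
  sS : SmM d.S ∧ ∀ x, (d.S x)ᵀ = d.S x
  sC : SmM d.C ∧ ∀ x, (d.C x)ᵀ = d.C x
  sE : ∀ i j, Continuous fun x => d.E x i j
  sD : (∀ i j, Continuous fun x => d.Dl x i j) ∧ (∀ i j, Continuous fun x => d.Db x i j) ∧
    ∀ x, (d.Dl x)ᵀ = d.Dl x ∧ (d.Db x)ᵀ = d.Db x
  zb : ∀ x ∈ d.R (99 / 100), EB (jm d.Z x - 1) (cm d.c.zT) ∧ ‖d.O *ᵥ (d.Z x - x)‖ ≤ d.c.D / 1000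
  eb : ∀ x ∈ d.R (99 / 100), EB2 (d.E x) d.c.eT
  el : d.c.comp → ∀ x ∈ d.R (99 / 100), ∀ x' ∈ d.R (99 / 100),
    EB2 (d.E x - d.E x') (cm (np d.c.N (-97 / 100) * ‖x - x'‖ / d.c.lam))
  sb : ∀ x ∈ d.R (99 / 100), ∃ a, 0 ≤ a ∧ a ≤ 1 - d.α x ^ 2 ∧
    EB (nrm d.c.hs (d.S x) - dg3 (1 / 4 - 3 / 16 * a) (1 / 4 - 3 / 16 * a) 1)
      (bm (1 / Real.sqrt d.c.q) (np d.c.N (-15)) (np d.c.N (-15)))
  sv : ∀ i j, CV 1 (cv d.c.hE) (d.R (99 / 100)) (fun x => nrm d.c.hs (d.S x) i j) (np d.c.N (-2 / 5))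
  cb : ∀ x ∈ d.R (99 / 100), EB (nrm d.c.hs (d.C x) - dg3 (3 / 16) (3 / 16) 0)
    !![3 * d.c.t11, 3 * d.c.t12, 0; 3 * d.c.t12, 3 * d.c.t11, 0; 0, 0, 0]
  cv4 : ∀ i j, CV 4 (cv d.c.hE) (d.R (99 / 100)) (fun x => nrm d.c.hs (d.C x) i j) (2 * d.c.eL) ∧
    CV 7 (cv d.c.hm) (d.R (99 / 100)) (fun x => nrm d.c.hs (d.C x) i j) (d.c.q * d.c.eL)
  db : ∀ x ∈ d.R (99 / 100), EB (d.Db x - dg3 0 0 1) (cm (np d.c.N (-20))) ∧
    EB (nrm d.c.hs (d.Dl x) - dg3 (1 / 32) (1 / 32) 0) (cm (np d.c.N (-20)))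
  yl : np d.c.N (-3 / 2) * d.c.y ≤ d.yL ∧ d.yL ≤ d.c.y
  chb : d.c.ChB d.ch
  ns : Sm d.th ∧ Sm d.Pq ∧ (d.c.noise → d.c.PqS d.O d.Pq ∧ CB 4 d.c.thS (d.R (99 / 100)) d.th
    (qp d.c.N (2 / 5) * Real.sqrt (d.c.J * d.c.p)))
  wt : (∀ s ∈ d.T, 1 ≤ d.w s) ∧ ∑ s ∈ d.T, d.w s ≤ Real.exp (qp d.c.N (1 / 10) * d.c.J)

structure Out (u : ℕ → V → V) (xs : Cu → ℝ) (dth dY : V → ℝ) : Prop where
  sm : ∀ i, Sm (u i)
  supp : ∀ i x, x ∉ d.R (93 / 100) → u i x = 0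
  lat : ∀ i x, u i x 2 = 0
  sz : ∀ i x j, |u i x j| ≤ np d.c.N (-690) * d.c.hs j
  path : ∀ i ≤ nT d.c.N, ∀ x, (∀ j, |Up u i x j| ≤ Real.sqrt (d.c.q * d.c.J) * d.c.hs j) ∧
    EB (jm (Up u i) x) (cm (1 / Real.sqrt d.c.J))
  led : (∀ s, 0 ≤ xs s) ∧
    ∑ s ∈ d.T, d.w s * Real.exp (xs s / 6) ≤ Real.sqrt d.c.q * ∑ s ∈ d.T, d.w s
  dE : ∀ s ∈ d.T, ∀ x ∈ d.R (99 / 100), ‖x - d.px s‖ ≤ d.c.h0 →
    EB2 (jm (Up u (nT d.c.N)) x - d.dN dth dY x)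
      ((qp d.c.N (3 / 10) * (1 + xs s)) • d.c.sd + if d.c.noise then d.c.nz else 0)
  d2 : (∀ i, CO 2 (cv 1) univ (fun x => Up u (nT d.c.N) x i) (d.c.d2u / d.c.q)) ∧
    ∀ i j, CO 1 (cv 1) univ (fun x => d.dN dth dY x i j) (d.c.d2u / d.c.q)
  vv : ∀ s ∈ d.T, ∀ x ∈ d.R (99 / 100), ‖x - d.px s‖ ≤ d.c.h0 →
    d.c.V2 (d.E x + (jm (Up u (nT d.c.N)) x - d.dN dth dY x)) - d.c.V2 (d.E x) ≤
      uV d.c.N / 2 * (1 + xs s) + d.c.cost d.O d.ρ x + d.c.q * d.c.bst d.O x +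
        (if d.c.noise then d.c.η * d.c.p / d.c.q ^ 3 else 0) ∧
    -(uV d.c.N / 2 * (1 + xs s)) + d.c.bst d.O x / 100 -
        (if d.c.noise then d.c.η * d.c.p / d.c.q ^ 3 else 0) ≤
      d.c.V2 (d.E x + (jm (Up u (nT d.c.N)) x - d.dN dth dY x)) - d.c.V2 (d.E x)
  cov : ∀ i j, CB 4 (cv d.c.hE) (d.R (99 / 100))
    (fun x => nrm d.c.hs (Cv u (nT d.c.N) x - d.α x ^ 2 • d.C x) i j) d.c.eSm
  ns : Sm dth ∧ Sm dY ∧ (∀ x, x ∉ d.R (93 / 100) → dth x = 0 ∧ dY x = 0) ∧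
    (¬ d.c.noise → dth = 0 ∧ dY = 0) ∧ (d.c.noise →
      CB 4 d.c.thS univ dth (qp d.c.N (3 / 10) * Real.sqrt (d.c.J * d.c.p)) ∧
      ∀ x, (8 / 100 * d.α x ^ 2 - np d.c.N (-5)) * d.c.p ≤ dY x ∧
        dY x ≤ (11 / 100 * d.α x ^ 2 + np d.c.N (-5)) * d.c.p)
  fb : d.c.FB d.O d.ch (fmain d.ρ d.Z d.S u (nT d.c.N))
  env : ∀ s ∈ d.T, ∀ z, ‖z - d.pz s‖ ≤ d.c.h0 →
    d.c.Env d.ch (fmain d.ρ d.Z d.S u (nT d.c.N)) z (Real.sqrt (1 + xs s))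
  ri : ∀ y', d.c.yrg y' → ∀ i, i ≠ 2 → ∀ z, y' / d.c.y * d.c.hs i *
    |pd i (dv (fmain d.ρ d.Z (d.SR y') u (nT d.c.N))) z| ≤ np d.c.N (-285 / 1000)
  li : ¬ d.c.comp → ∀ s ∈ d.T, ∀ s' ∈ d.T, ∀ (z : V) (τ : ℝ), ‖z - d.pl s‖ ≤ d.c.hL →
    ‖z + τ • e3 - d.pl s'‖ ≤ d.c.hL → ∀ i, i ≠ 2 →
    d.c.hs i * |∫ r in (0 : ℝ)..τ, pd i (dv (fmain d.ρ d.Z d.SL u (nT d.c.N))) (z + r • e3)| ≤
      d.c.GG * (Real.sqrt (1 + xs s) + Real.sqrt (1 + xs s'))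
end MD

/-! ## blocks -/

def Dd (N : ℕ) (lb : ℝ) : ℝ := (N : ℝ) ^ 4 * lb

structure FrOk (N : ℕ) (lb : ℝ) (fr : Cu → Fr) : Prop where
  pos : Real.exp (-(N : ℝ) ^ 2) ≤ lb ∧ lb ≤ (N : ℝ) ^ 110
  fx : ∀ g, (fr g).x0 = cen (Dd N lb) g ∧ Orth (fr g).O ∧ 0 < (fr g).Q.det ∧
    EB (fr g).Q (cm (Real.exp ((N : ℝ) ^ 2))) ∧ EB (fr g).Q⁻¹ (cm (Real.exp ((N : ℝ) ^ 2))) ∧
    ((fr g).pm N lb 0).Ok
  cp : ∀ g g', Nbr 3 g g' → Cpt (dc N) (fr g) (fr g')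

structure Geo (N : ℕ) (lb : ℝ) (fr : Cu → Fr) (Z0 : V → V) : Prop extends FrOk N lb fr where
  z0 : ∀ g, (fr g).z0 = Z0 (fr g).x0
  sm : Sm Z0
  bij : Function.Bijective Z0
  nr : ∀ g, ∀ x ∈ RX (fr g).O (Dd N lb) (12 / 5), EB (jm ((fr g).hat Z0) x - 1) (cm (1 / 100)) ∧
    ‖(fr g).O *ᵥ ((fr g).hat Z0 x - x)‖ ≤ Dd N lb / 2000

/-- the credit of a block -/
def Cred (ρ : V → ℝ) (N : ℕ) (lb : ℝ) (F : Fr) (γ : V → V) : Prop :=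
  Sm γ ∧ (∀ x, x ∉ RX F.O (Dd N lb) (92 / 100) → γ x = 0) ∧ (¬ (F.pm N lb 0).isA → γ = 0) ∧
  (∀ i, CO 2 (cv 1) univ (fun x => γ x i) (np N (-7 / 5) / (lb / 2 ^ nb N))) ∧
  ∀ x, γ x 2 = 0 ∧ ‖γ x‖ ≤ np N (-9 / 20) * lb ∧ EB (jm γ x) (cm (np N (-94 / 100))) ∧
    (F.pm N lb 0).η * jm γ x 0 0 + (2 - (F.pm N lb 0).η) * jm γ x 1 1 ≤
      -∑ k ∈ Finset.range (nb N), (F.pm N lb k).cost F.O (F.sc ρ) x + pX N / (pq N ^ 3 * N) ∧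
    -(Jp N (5 / 2) / N) ≤ (F.pm N lb 0).η * jm γ x 0 0 + (2 - (F.pm N lb 0).η) * jm γ x 1 1

def gl (fr : Cu → Fr) (γ : Cu → V → V) (x : V) : V := ∑ᶠ g, (fr g).unv (γ g) x
def Gm (Zs Z f : V → V) (x : V) : Mx := (jm Zs x)ᵀ * gram f (Z x) * jm Zs x
def Bar (N : ℕ) (G : Mx) : Prop :=
  Vf N G + lam0 N * max (tt N G) 0 ≤ Real.log N + 1 ∧
  Real.log N - 2 ≤ Vf N G - lam1 N * max (tt N G) 0 ∧ tt N G ≤ tE N + 1 / pR N

structure Bk where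
  N : ℕ
  lb : ℝ
  fr : Cu → Fr
  gc : Cu → V → V
  Z0 : V → V
  f0 : V → V
  Hp0 : Cu → V → V

structure St where
  Zs : V → V
  Zn : V → V
  Sg : V → Mx
  S0 : V → Mx
  f : V → V
  zt : ℕ → V → V
  ft : ℕ → V → V
  xs : ℕ → Cu → ℝ
  Nth : V → Mx
  Neq : V → Mx
  Yv : V → ℝ
  Af : V → ℝ
  ab : V → ℝ
  Pv : V → V
  nf : Cu → Fr
  ngc : Cu → V → V

def cnt (k r : ℕ) : ℕ := 9 * k + r
def tm (k r : ℕ) : ℕ := 8 * k + (r - 1)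
def ph (j k r : ℕ) : ℝ := 2 - 2 / 2 ^ (k - j) + r / 9 / 2 ^ (k - j)
def La (xs : ℕ → Cu → ℝ) (a b : ℕ) (s : Cu) : ℝ := ∑ m ∈ Finset.Ico a b, (1 + xs m s)
def SA (N : ℕ) (b0 : ℝ) (xs : ℕ → Cu → ℝ) (a b : ℕ) (s : Cu) : ℝ :=
  ∑ m ∈ Finset.Ico a b, Real.sqrt (b0 * (1 + xs m s) / N)
/-- time `(k, r)` is after the start of band `j` -/
def aft (j k r : ℕ) : Prop := j < k ∨ (k = j ∧ 1 ≤ r)
/-- number of noise colours done -/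
def nzn (N k r : ℕ) : ℕ := if k < mid N then 0 else if k = mid N then r - 1 else 8

namespace Bk
variable (B : Bk)
def D : ℝ := Dd B.N B.lb
def c (g : Cu) (k : ℕ) : Pm := (B.fr g).pm B.N B.lb k
def R (g : Cu) (r : ℝ) : Set V := RX (B.fr g).O B.D r
def bx (g : Cu) (r : ℝ) : Set V := box B.D g r
def Zt : V → V := gl B.fr B.gc
def Zs0 (x : V) : V := B.Z0 x - B.Zt x
def Z (s : St) (x : V) : V := s.Zs x + B.Zt x + s.Zn x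
def hsp : ℝ := np B.N (-1500) * B.lb
def NS (s : Cu) (x : V) : Prop := ‖x - cen B.hsp s‖ ≤ B.hsp
def sites (g : Cu) (r : ℝ) : Finset Cu := Fintype.piFinset fun i =>
  Finset.Icc ⌈(cen B.D g i - r * B.D) / B.hsp⌉ ⌊(cen B.D g i + r * B.D) / B.hsp⌋
def pushN (g : Cu) : Prop := ∃ g', Nbr 2 g g' ∧ (B.c g' 0).push
def deep (g : Cu) : Prop := (B.c g 0).η ≤ 7 * etaS B.N
def E0 (g : Cu) (x : V) : Mx := (B.fr g).hm (jm B.Zs0 x) - 1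
def Eh (s : St) (g : Cu) (x : V) : Mx := (B.fr g).hm (jm s.Zs x - s.Nth x - s.Neq x) - 1
def costm (ρ : V → ℝ) (m : ℕ) (x : V) : ℝ := ∑ᶠ g, if col g = m % 8 then
  (B.c g (m / 8)).cost (B.fr g).O ((B.fr g).sc ρ) ((B.fr g).xc x) else 0
def bstm (m : ℕ) (x : V) : ℝ := ∑ᶠ g, if col g = m % 8 then
  (B.c g (m / 8)).bst (B.fr g).O ((B.fr g).xc x) else 0
/-- weighted sum of matrices given in the frames -/
def ws (A : Cu → V → Mx) (x : V) : Mx := ∑ᶠ g, al B.D g x ^ 2 • (B.fr g).unc (A g x)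
def Db : V → Mx := B.ws fun _ _ => dg3 0 0 1
def Dl (k : ℕ) : V → Mx := B.ws fun g _ => dg3 ((B.c g k).l1 ^ 2 / 32) ((B.c g k).lam ^ 2 / 32) 0
/-- the refined covariance -/
def Rf (k : ℕ) (S : V → Mx) : V → Mx :=
  B.ws fun g x => latm ((B.fr g).cv1 (S x)) + dg3 0 0 ((B.c g k).y ^ 2)
def yk (k : ℕ) : ℝ := (B.c 0 k).y
def SR (k r : ℕ) (S : V → Mx) (y' : ℝ) (x : V) : Mx :=
  (if r = 0 then B.Rf k S x else S x) - B.Dl k x - (B.yk k ^ 2 - y' ^ 2) • B.Db x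
def SL (k r : ℕ) (S : V → Mx) (x : V) : Mx :=
  S x - ((if r = 0 then 4 else 1) * B.yk k ^ 2 - 4 * B.yk (mid B.N) ^ 2) • B.Db x
/-- planned covariance of cube `g` at the global point `x` -/
def Cp (k : ℕ) (S0 : V → Mx) (g : Cu) (x : V) : Mx :=
  latm ((B.fr g).cv1 (molM (cv (B.c g k).hm) S0 x)) -
    dg3 ((B.c g k).l1 ^ 2 / 16) ((B.c g k).lam ^ 2 / 16) 0
def nS (k : ℕ) (S : V → Mx) (g : Cu) (x : V) : Mx := nrm (B.c g k).hs ((B.fr g).cov S x)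
def lab (f : V → V) (x : V) : V := Function.invFun f (B.f0 (B.Z0 x))
def oh (g : Cu) (f : V → V) (x : V) : V := (B.fr g).zc (B.lab f x)
def ga (g : Cu) (f : V → V) (x : V) : Mx := (B.c g 0).gam ((B.fr g).fh f) (B.oh g f x)
def piO (g : Cu) (xs : ℕ → Cu → ℝ) (m : ℕ) (s : Cu) : ℝ := if (B.c g 0).oS then (B.c g 0).pi1 else
  (if m / 8 < el B.N then fr0 B.N else 0) +
    pq B.N * SA B.N (bA B.N) xs (8 * (m / 8 - el B.N)) m s + (10 * el B.N + 10) * sm B.N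
def SG (g : Cu) (xs : ℕ → Cu → ℝ) (a b : ℕ) (s : Cu) : ℝ := ∑ m ∈ Finset.Ico a b,
  pq B.N * Real.sqrt ((B.c g 0).bbO * (1 + xs m s) / B.N) *
    (B.piO g xs m s + Real.sqrt ((B.c g 0).bbO * (1 + xs m s) / B.N))
def dd (g : Cu) (k : ℕ) : ℝ := (6 / 10) ^ k + 1 / Real.sqrt (pq B.N) +
  if B.pushN g ∧ mid B.N < k then np B.N 11 * (6 / 10) ^ (k - mid B.N) else 0
def N' : ℕ := nxt B.N
def lb' : ℝ := B.lb / 2 ^ nb B.N
def Pq (Pv : V → V) (g : Cu) (x : V) : ℝ := ((B.fr g).Oᵀ *ᵥ Pv ((B.fr g).xp x)) 0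

/-- everything about a block except the barrier -/
structure Ok0 (ρ : V → ℝ) : Prop where
  geo : Geo B.N B.lb B.fr B.Z0
  cred : ∀ g, Cred ρ B.N B.lb (B.fr g) (B.gc g)
  e0 : ∀ g, ∀ x ∈ B.bx g 1, EB2 (B.E0 g x) (B.c g 0).e0 ∧ EB (B.E0 g x) (cm ((B.c g 0).zT / 4))
  g0 : ∀ g, ∀ x ∈ B.bx g 1,
    EB (B.ga g B.f0 x - (B.c g 0).gref) (bm (cg0 B.N) (B.c g 0).B1 (1 / pJ B.N))
  hp : ∀ g, (B.c g 0).steer → ContinuousOn (B.Hp0 g) (B.R g (98 / 100)) ∧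
    ∀ z ∈ B.R g (98 / 100), ∀ i, i ≠ 2 →
      |(B.c g 0).gam ((B.fr g).fh B.f0) z i 2 - B.Hp0 g z i| ≤ fr0 B.N ∧
      ∀ z' ∈ B.R g (98 / 100), |B.Hp0 g z i - B.Hp0 g z' i| ≤
        1 / (2 * pJ B.N ^ 24 * Real.sqrt B.N) *
          (|z 0 - z' 0| / (B.c g 0).l1 + |z 1 - z' 1| / (B.c g 0).lam) +
        Xj B.N 0 2 * |z 2 - z' 2| / (B.c g 0).y

structure Ok (ρ : V → ℝ) : Prop extends B.Ok0 ρ where
  bar : ∀ x, Bar B.N (Gm B.Zs0 B.Z0 B.f0 x)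

/-- data made at the start of the band `mid` -/
structure PushD (Zm : V → V) (Af ab : V → ℝ) (Pv : V → V) : Prop where
  sm : Sm Pv
  off : ∀ g, ¬ B.pushN g → ∀ z ∈ B.R g (11 / 10), Af ((B.fr g).zp z) = 0
  pqs : ∀ g, B.deep g → (B.c g (mid B.N)).PqS (B.fr g).O (B.Pq Pv g) ∧
    ∀ i, CO 1 (cv 1) (B.R g (99 / 100)) (fun x => Pv ((B.fr g).xp x) i) B.N
  af : ∀ g, B.deep g → ∀ z ∈ B.R g (11 / 10),
    0 ≤ Af ((B.fr g).zp z) ∧ Af ((B.fr g).zp z) ≤ 9 * (B.c g 0).p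
  ab : ∀ g, B.deep g → ∀ x ∈ B.R g (99 / 100),
    0 ≤ ab ((B.fr g).xp x) ∧ ab ((B.fr g).xp x) ≤ 6 / 10 * (B.c g 0).p ∧
    ((∀ g', al B.D g' ((B.fr g).xp x) ≠ 0 → (B.c g' 0).push) →
      4 / 10 * (B.c g 0).p ≤ ab ((B.fr g).xp x)) ∧
    ∀ z ∈ B.R g (11 / 10), (∀ i, i ≠ 2 → |z i - (B.fr g).hat Zm x i| ≤
        3 * pq B.N * Real.sqrt (pJ B.N) * (B.c g (mid B.N)).hs i) →
      |z 2 - (B.fr g).hat Zm x 2| ≤ (B.N : ℝ) ^ 3 * (B.c g (mid B.N)).lam →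
      |Af ((B.fr g).zp z) - (B.c g 0).p * pd 0 (B.Pq Pv g) x - ab ((B.fr g).xp x)| ≤
        (B.c g 0).p / pq B.N

/-- data made at the start of the band `ks` -/
structure Prep (ρ : V → ℝ) (s : St) : Prop where
  fo : FrOk B.N' B.lb' s.nf
  cred : ∀ g, Cred ρ B.N' B.lb' (s.nf g) (s.ngc g)
  zn : s.Zn = gl s.nf s.ngc
  fq : ∀ g, (s.nf g).Q = jm (fun x => s.zt (ks B.N) x - B.Zt x) (s.nf g).x0 * (s.nf g).O ∧
    ∃ σ : ℝ, σ ^ 2 ≤ (s.nf g).s1 ^ 2 / 4 ∧ (s.nf g).Qᵀ * gram (s.ft (ks B.N - el B.N))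
      (Function.invFun (s.ft (ks B.N - el B.N)) (s.ft (ks B.N) (s.zt (ks B.N) (s.nf g).x0))) *
      (s.nf g).Q = dg3 ((s.nf g).s1 ^ 2) ((s.nf g).s2 ^ 2) (σ ^ 2)
  zb : ∀ g, ∀ x ∈ B.bx g 1, EB ((B.fr g).hm (jm s.Zn x)) (cm (np B.N (-9 / 10))) ∧
    ‖(B.fr g).Q⁻¹ *ᵥ s.Zn x‖ ≤ np B.N (-25) * (B.c g (ks B.N)).lam

structure IL (k r : ℕ) (s : St) : Prop where
  nn : ∀ m i, 0 ≤ s.xs m i
  led : ∀ g, ∑ i ∈ B.sites g 1, Real.exp (∑ m ∈ Finset.range (tm k r), s.xs m i / 6) ≤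
    np B.N 5000 * pq B.N ^ tm k r

structure IZ (k r : ℕ) (s : St) : Prop where
  sm : Sm s.Zs ∧ Sm s.Zn ∧ ∀ j ≤ k, Sm (s.zt j)
  bij : Function.Bijective (B.Z s)
  n0 : ¬ aft (ks B.N) k r → s.Zn = 0
  zk : s.zt 0 = B.Z0 ∧ (r = 0 → s.zt k = B.Z s)
  e : ∀ g, ∀ x ∈ B.bx g 1, ∀ i, B.NS i x →
    EB2 (B.Eh s g x - B.E0 g x) ((Real.sqrt (pq B.N) * La s.xs 0 (tm k r) i) • (B.c g k).sdO +
      if B.deep g then (2 * nzn B.N k r : ℝ) • (B.c g 0).nz else 0) ∧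
    ∀ j, |(B.Eh s g x - B.E0 g x) 2 j| ≤ cnt k r * np B.N (-20)
  el : ks B.N ≤ k → ∀ g, ∀ x ∈ B.bx g 1, ∀ i, B.NS i x →
    EB2 ((B.fr g).hm (jm s.Zs x - jm (fun w => s.zt (ks B.N) w - B.Zt w) x))
      ((Real.sqrt (pq B.N) * La s.xs (8 * ks B.N) (tm k r) i) • (B.c g k).sdL) ∧
    ∀ j, |(B.fr g).hm (jm s.Zs x - jm (fun w => s.zt (ks B.N) w - B.Zt w) x) 2 j| ≤
      cnt k r * np B.N (-20)
  ek : ks B.N ≤ k → ∀ g i, CO 2 (cv 1) (B.R g 1)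
    (fun x => (B.fr g).hat (fun w => s.zt (ks B.N) w - B.Zt w) x i) (B.c g (ks B.N)).d2u
  dz : ∀ j ≤ k, ∀ g, ∀ x ∈ B.bx g 1, ∀ i, |((B.fr g).Q⁻¹ *ᵥ (B.Z s x - s.zt j x)) i| ≤
    pq B.N * Real.sqrt (pJ B.N) * (B.c g j).hs i * ph j k r
  d2 : ∀ g i, CO 2 (cv 1) (B.R g 1) (fun x => (B.fr g).hat s.Zs x i)
    ((B.c g k).d2u * (1 / 2 ^ k + (9 + r) / 9000))
  dn : ∀ g i j, CO 1 (cv 1) (B.R g 1)
    (fun x => (B.fr g).hm (s.Nth ((B.fr g).xp x) + s.Neq ((B.fr g).xp x)) i j)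
    ((B.c g (mid B.N)).d2u * nzn B.N k r / 100)

structure IV (ρ : V → ℝ) (k r : ℕ) (s : St) : Prop where
  vv : ∀ g, ∀ x ∈ B.bx g 1, ∀ i, B.NS i x →
    (B.c g 0).V2 (B.Eh s g x) - (B.c g 0).V2 (B.E0 g x) ≤ uV B.N * La s.xs 0 (tm k r) i +
      ∑ m ∈ Finset.range (tm k r), (B.costm ρ m x + pq B.N * B.bstm m x) +
      (if B.pushN g then 2 * nzn B.N k r * ((B.c g 0).η * (B.c g 0).p / pq B.N ^ 3) else 0) ∧
    -(uV B.N * La s.xs 0 (tm k r) i) + ∑ m ∈ Finset.range (tm k r), B.bstm m x / 100 -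
      (if B.pushN g then 2 * nzn B.N k r * ((B.c g 0).η * (B.c g 0).p / pq B.N ^ 3) else 0) ≤
      (B.c g 0).V2 (B.Eh s g x) - (B.c g 0).V2 (B.E0 g x)

structure IP (k r : ℕ) (s : St) : Prop where
  sm : SmM s.Nth ∧ SmM s.Neq
  z0 : nzn B.N k r = 0 → s.Nth = 0 ∧ s.Neq = 0 ∧ s.Yv = 0
  psh : aft (mid B.N) k r → B.PushD (s.zt (mid B.N)) s.Af s.ab s.Pv
  off : ∀ g, ¬ B.pushN g → ∀ x ∈ B.bx g 1, s.Nth x = 0 ∧ s.Neq x = 0 ∧ s.Yv x = 0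
  th : ∀ g, B.deep g → ∀ i j, CB 4 (B.c g (mid B.N)).thS (B.R g 1)
    (fun x => (B.fr g).hm (s.Nth ((B.fr g).xp x)) i j)
    (nzn B.N k r / 8 * (qp B.N (2 / 5) * Real.sqrt (pJ B.N * (B.c g 0).p)))
  nq : ∀ g, B.deep g → ∀ x ∈ B.bx g (98 / 100),
    EB ((B.fr g).hm (s.Nth x) - (B.fr g).hm (s.Nth x) 0 2 • E02) (cm (nzn B.N k r * np B.N (-15))) ∧
    EB ((B.fr g).hm (s.Neq x) - (1 / 4 * pd 0 (B.Pq s.Pv g) ((B.fr g).xc x) *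
      ((B.fr g).hm (s.Nth x) 0 2 ^ 2 - s.Yv x)) • E00) (cm (nzn B.N k r * np B.N (-15)))
  yv : ∀ g, B.deep g → ∀ x ∈ B.bx g 1,
    (B.c g 0).p * (79 / 1000 * (∑ᶠ g', if col g' < nzn B.N k r ∧ (B.c g' 0).push then
      al B.D g' x ^ 2 else 0) - nzn B.N k r * np B.N (-4)) ≤ s.Yv x ∧
    s.Yv x ≤ (B.c g 0).p * (111 / 1000 * (∑ᶠ g', if col g' < nzn B.N k r ∧ (B.c g' 0).push then
      al B.D g' x ^ 2 else 0) + nzn B.N k r * np B.N (-4))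

/-- a covariance at the start of band `k`, vertical entry `v`, tolerances times `t` -/
structure SB (k : ℕ) (S : V → Mx) (v t a b : ℝ) : Prop where
  sm : SmM S ∧ ∀ x, (S x)ᵀ = S x
  bd : ∀ g, ∀ x ∈ B.R g (1 - k / B.N), EB (B.nS k S g x - dg3 (1 / 4) (1 / 4) v)
    !![t * (B.c g k).t11, t * (B.c g k).t12, a; t * (B.c g k).t12, t * (B.c g k).t11, a; a, a, b]
  osc : ∀ g, ∀ x ∈ B.R g (1 - k / B.N), ∀ x' ∈ B.R g (1 - k / B.N),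
    EB (B.nS k S g x - B.nS k S g x') (cm (t * np B.N (-39 / 100)))
  cv : ∀ g i j, CV 4 (cv (B.c g k).hE) (B.R g (1 - k / B.N)) (fun x => B.nS k S g x i j)
    (t * (B.c g k).eL)

structure IS (k r : ℕ) (s : St) : Prop where
  sm : SmM s.Sg ∧ ∀ x, (s.Sg x)ᵀ = s.Sg x
  pre : r = 0 → B.SB k s.Sg 4 1 (B.c 0 k).t13 (B.c 0 k).t33
  post : 1 ≤ r → B.SB k s.S0 1 (101 / 100) (np B.N (-22)) (np B.N (-22))
  post3 : 1 ≤ r → ∀ g i, CV 4 (cv (B.c g k).hE) (B.R g (1 - k / B.N))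
    (fun x => B.nS k s.S0 g x i 2) (np B.N (-20))
  err : 1 ≤ r → ∀ g i j, CB 4 (cv (B.c g k).hE) (B.R g 1)
    (fun x => B.nS k (fun w => s.S0 w - s.Sg w -
      B.ws (fun g' w' => if col g' < r - 1 then B.Cp k s.S0 g' w' else 0) w) g x i j)
    ((r - 1 : ℕ) * (B.c g k).eS)
  row : 1 ≤ r → ∀ g, ∀ x ∈ B.R g 1, ∀ i,
    |B.nS k (fun w => s.S0 w - s.Sg w) g x i 2| ≤ (r - 1 : ℕ) * np B.N (-22)

structure IR (ρ : V → ℝ) (k r : ℕ) (s : St) : Prop where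
  ri : ∀ g y', (B.c g k).yrg y' → ∀ z ∈ B.R g (985 / 1000 - (k + 1) / B.N), y' / B.yk k * Real.sqrt
    (((B.c g k).l1 * pd 0 ((B.fr g).den (dens ρ (B.Z s) (B.SR k r s.Sg y'))) z) ^ 2 +
      ((B.c g k).lam * pd 1 ((B.fr g).den (dens ρ (B.Z s) (B.SR k r s.Sg y'))) z) ^ 2) ≤
    (B.c g k).betaR y' * (1 + r / 2000)
  li : kL B.N ≤ k → ¬ aft (mid B.N) k r → ∀ g, B.deep g → ∀ i, i ≠ 2 →
    ∀ x ∈ B.bx g (97 / 100), ∀ x' ∈ B.bx g (97 / 100), ∀ a a', B.NS a x → B.NS a' x' →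
    ∀ τ : ℝ, |τ| ≤ 10 * (B.N : ℝ) ^ 2 * (B.c g (mid B.N)).lam →
    (B.fr g).zc (B.Z0 x') = (B.fr g).zc (B.Z0 x) + τ • e3 →
    (B.c g 0).cc i / (B.c g 0).n12 * |∫ t in (0 : ℝ)..τ,
      pd i ((B.fr g).den (dens ρ (B.Z s) (B.SL k r s.Sg))) ((B.fr g).zc (B.Z0 x) + t • e3)| ≤
    (cnt k r + 1) * np B.N (-3 / 5) + Real.sqrt (pq B.N) *
      (SA B.N (bB B.N) s.xs (8 * kL B.N) (tm k r) a + SA B.N (bB B.N) s.xs (8 * kL B.N) (tm k r) a')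

/-- the long slide lies between the start of band `j` and now, near cube `g` -/
def crs (g : Cu) (j k r : ℕ) : Prop := j ≤ mid B.N ∧ aft (mid B.N) k r ∧ B.pushN g

structure IG (k r : ℕ) (f : V → V) (ft : ℕ → V → V) (xs : ℕ → Cu → ℝ) (Af : V → ℝ) : Prop where
  rel : ∀ j ≤ k, ∀ g, ∀ x ∈ B.bx g 1, ∀ i, B.NS i x →
    EB (B.ga g f x - B.ga g (ft j) x -
      if B.crs g j k r then ((B.c g 0).η * Af (B.lab (ft (mid B.N)) x)) • E00 else 0)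
    (bm (B.SG g xs (8 * j) (tm k r) i + (cnt k r - 9 * j : ℕ) / (B.N * pJ B.N ^ 4))
      (pq B.N * SA B.N (B.c g 0).bbO xs (8 * j) (tm k r) i + (cnt k r - 9 * j : ℕ) * sm B.N)
      ((cnt k r - 9 * j : ℕ) * np B.N (-1 / 25)) + if B.crs g j k r then (B.c g 0).LA else 0)
  th : ∀ j ≤ k, ∀ g, ¬ B.crs g j k r → ∀ x ∈ B.bx g 1, ∀ a b, ¬ (a = 2 ∧ b = 2) →
    |(Th ((B.fr g).fh (ft j)) ((B.fr g).fh f) (B.oh g (ft j) x) (B.oh g f x) - 1) a b| *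
      (B.c g 0).hs b ≤ (cnt k r - 9 * j : ℕ) * np B.N (-9 / 200) *
        (1 + 1 / 10 ^ 5) ^ (cnt k r - 9 * j) * (B.c g 0).hs a
  di : ∀ g, ∀ x ∈ B.bx g 1, (B.c g k).DI ((B.fr g).fh f) (B.oh g f x) ((1 + r / 100) *
    (B.dd g k + if B.pushN g ∧ k = mid B.N ∧ 1 ≤ r then np B.N 11 else 0)) ∧
    ∀ j ≤ k, (B.c g j).DI ((B.fr g).fh (ft j)) (B.oh g (ft j) x) (B.dd g j)
  dl : ∀ j ≤ k, ∀ g, ∀ x ∈ B.bx g 1,
    (∀ i, i ≠ 2 → |B.oh g f x i - B.oh g (ft j) x i| ≤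
      np B.N (-3 / 10) * (B.c g j).hs i * ph j k r) ∧
    |B.oh g f x 2 - B.oh g (ft j) x 2| ≤ pq B.N ^ 2 * B.yk j * ph j k r +
      if B.crs g j k r then 2 * np B.N (21 / 10) * (B.c g (mid B.N)).lam else 0

structure IF (ρ : V → ℝ) (k r : ℕ) (s : St) : Prop where
  smf : Sm s.f ∧ Function.Bijective s.f ∧ ∀ z, jac s.f z = dens ρ (B.Z s) s.Sg z
  sn : ∀ j ≤ k, Sm (s.ft j) ∧ Function.Bijective (s.ft j) ∧
    ∀ g, (B.c g j).MB (2 * eps0) 1 (jac ((B.fr g).fh (s.ft j))) (B.R g (98 / 100))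
  fk : s.ft 0 = B.f0 ∧ (r = 0 → s.ft k = s.f)
  ig : B.IG k r s.f s.ft s.xs s.Af

/-- the invariant at time `(k, r)`: `r = 0` before the start of band `k`, `r = 1 + j` after `j` colours -/
structure Inv (ρ : V → ℝ) (k r : ℕ) (s : St) : Prop where
  il : B.IL k r s
  iz : B.IZ k r s
  iv : B.IV ρ k r s
  ip : B.IP k r s
  is : B.IS k r s
  ir : B.IR ρ k r s
  iF : B.IF ρ k r s
  iq : aft (ks B.N) k r → B.Prep ρ s

/-- the next block -/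
def next (s : St) (H : Cu → V → V) : Bk :=
  ⟨B.N', B.lb', fun g => { s.nf g with z0 := B.Z s (s.nf g).x0 }, s.ngc, B.Z s, s.f, H⟩
/-- the state at the start of the next block -/
def nst (s : St) : St :=
  ⟨fun x => s.Zs x + B.Zt x, 0, s.Sg, s.Sg, s.f, fun _ => B.Z s, fun _ => s.f, 0, 0, 0, 0, 0, 0, 0,
    s.nf, s.ngc⟩

/-- conditions on map and covariance for the kernel lemmas; `hv` is the vertical scale -/
structure KS (k : ℕ) (Z : V → V) (S : V → Mx) (hv : ℝ) : Prop where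
  sm : Sm Z
  bij : Function.Bijective Z
  cS : ∀ i j, Continuous fun x => S x i j
  hvb : np B.N (-2) * B.yk k ≤ hv ∧ hv ≤ B.yk k
  bd : ∀ g, ∀ x ∈ B.R g (99 / 100),
    EB (jm ((B.fr g).hat Z) x - 1) (cm (3 / Real.sqrt (pJ B.N))) ∧
    ‖(B.fr g).O *ᵥ ((B.fr g).hat Z x - x)‖ ≤ B.D / 900 ∧ PD ((B.c g k).hy hv) ((B.fr g).cov S x)
/-- local oscillation of a covariance -/
def Osc (k : ℕ) (S : V → Mx) (hv : ℝ) : Prop := ∀ g, ∀ x ∈ B.R g (99 / 100),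
  ∀ x' ∈ B.R g (99 / 100), ‖x - x'‖ ≤ (B.N : ℝ) ^ 3 * (B.c g k).lam →
  EB (nrm ((B.c g k).hy hv) ((B.fr g).cov S x - (B.fr g).cov S x')) (cm (np B.N (-37 / 100)))

/-- data of cube `g` at time `(k, r)` -/
def md (ρ : V → ℝ) (k r : ℕ) (s : St) (ch : Cu → Cu → ℝ → V) (g : Cu) : MD where
  c := B.c g k
  O := (B.fr g).O
  ρ := (B.fr g).sc ρ
  Z := (B.fr g).hat (B.Z s)
  E := fun x => B.Eh s g ((B.fr g).xp x)
  S := (B.fr g).cov s.Sg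
  C := fun x => B.Cp k s.S0 g ((B.fr g).xp x)
  Dl := (B.fr g).cov (B.Dl k)
  Db := (B.fr g).cov B.Db
  yL := if kL B.N ≤ k ∧ k < mid B.N then 2 * B.yk (mid B.N) else B.yk k
  ch := ch g
  th := if (B.c g k).noise then fun x => (B.fr g).hm (s.Nth ((B.fr g).xp x)) 0 2 else 0
  Pq := if (B.c g k).noise then B.Pq s.Pv g else 0
  T := B.sites g (98 / 100)
  w := fun i => Real.exp (∑ m ∈ Finset.range (tm k r), s.xs m i / 6)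
  px := fun i => (B.fr g).xc (cen B.hsp i)
  pz := fun i => B.oh g s.f (cen B.hsp i)
  pl := fun i => (B.fr g).zc (B.Z0 (cen B.hsp i))

/-- outputs of all cubes -/
structure MO where
  u : Cu → ℕ → V → V
  xs : Cu → Cu → ℝ
  dth : Cu → V → ℝ
  dY : Cu → V → ℝ

def ug (j : ℕ) (u : Cu → ℕ → V → V) (m : ℕ) (x : V) : V :=
  ∑ᶠ g, if col g = j then (B.fr g).unv (u g m) x else 0
def glF (j : ℕ) (F : Cu → V → V) (z : V) : V :=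
  ∑ᶠ g, if col g = j then (B.fr g).unvd (cutF (B.fr g).O B.D (F g)) z else 0
def mF (ρ : V → ℝ) (Z : V → V) (S : V → Mx) (u : Cu → ℕ → V → V) (g : Cu) : V → V :=
  fmain ((B.fr g).sc ρ) ((B.fr g).hat Z) ((B.fr g).cov S) (u g) (nT B.N)

/-- the state after colour `r - 1` of band `k` -/
def stp (ρ : V → ℝ) (k r : ℕ) (s : St) (ch : Cu → Cu → ℝ → V) (o : MO) (f' : V → V) : St :=
  { s with
    Zs := fun x => s.Zs x + Up (B.ug (r - 1) o.u) (nT B.N) x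
    Sg := fun x => s.Sg x - Cv (B.ug (r - 1) o.u) (nT B.N) x
    f := f'
    xs := Function.update s.xs (tm k r) fun i =>
      ∑ᶠ g, if col g = r - 1 ∧ i ∈ B.sites g (98 / 100) then o.xs g i else 0
    Nth := fun x => s.Nth x + ∑ᶠ g, if col g = r - 1 then
      (B.fr g).unm (o.dth g ((B.fr g).xc x) • E02) else 0
    Neq := fun x => s.Neq x + ∑ᶠ g, if col g = r - 1 then
      (B.fr g).unm ((B.md ρ k r s ch g).dN (o.dth g) (o.dY g) ((B.fr g).xc x) -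
        o.dth g ((B.fr g).xc x) • E02) else 0
    Yv := fun x => s.Yv x + ∑ᶠ g, if col g = r - 1 then o.dY g ((B.fr g).xc x) else 0 }

/-- hypotheses shared by the rows of a colour step -/
structure MH (ρ : V → ℝ) (k r : ℕ) (s : St) (ch : Cu → Cu → ℝ → V) (o : MO) : Prop where
  rho : Rho ρ
  ok : B.Ok ρ
  hk : k < nb B.N
  hr : 1 ≤ r ∧ r ≤ 8
  inv : B.Inv ρ k r s
  mi : ∀ g, col g = r - 1 → (B.md ρ k r s ch g).In
  mo : ∀ g, col g = r - 1 → (B.md ρ k r s ch g).Out (o.u g) (o.xs g) (o.dth g) (o.dY g)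

/-- steering residual of a steered cube -/
def piS (g : Cu) (xs : ℕ → Cu → ℝ) (k r : ℕ) (i : Cu) : ℝ :=
  (if k < el B.N then fr0 B.N else 0) +
    pq B.N * SA B.N (B.c g 0).bbO xs (8 * (k - el B.N)) (tm k r) i + (10 * el B.N + 10) * sm B.N
def ChOk (k r : ℕ) (s : St) (ch : Cu → Cu → ℝ → V) : Prop := ∀ g, (B.c g k).ChB (ch g) ∧
  ∀ x ∈ B.bx g (99 / 100), ∀ i, B.NS i x → B.oh g s.f x ∈ B.R g (96 / 100) →
    (B.c g k).PiF (ch g) ((B.fr g).fh s.f) (B.oh g s.f x)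
      (if (B.c g 0).steer then B.piS g s.xs k r i else (B.c g 0).pi1)

/-- the matrix whose symmetric part refines the covariance -/
def Bm (k : ℕ) (S : V → Mx) : V → Mx := B.ws fun g x =>
  !![0, 0, 0; 0, 0, 0; -(B.fr g).cv1 (S x) 2 0, -(B.fr g).cv1 (S x) 2 1,
    ((B.c g k).y ^ 2 - (B.fr g).cv1 (S x) 2 2) / 2]
/-- the state after the start of band `k` -/
def sta (k : ℕ) (s : St) (nf : Cu → Fr) (ngc : Cu → V → V) (f' : V → V) (Af ab : V → ℝ)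
    (Pv : V → V) : St :=
  { s with
    Zn := if k = ks B.N then gl nf ngc else s.Zn
    nf := if k = ks B.N then nf else s.nf
    ngc := if k = ks B.N then ngc else s.ngc
    Sg := B.Rf k s.Sg
    S0 := B.Rf k s.Sg
    f := f'
    Af := if k = mid B.N then Af else s.Af
    ab := if k = mid B.N then ab else s.ab
    Pv := if k = mid B.N then Pv else s.Pv }
/-- the state at the end of band `k` -/
def sen (k : ℕ) (s : St) : St :=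
  { s with zt := Function.update s.zt (k + 1) (B.Z s), ft := Function.update s.ft (k + 1) s.f }
end Bk

namespace Bk
variable (B : Bk)
/-- new position of the target point that sits at `z'` -/
def nw (g : Cu) (f f' : V → V) (z' : V) : V :=
  (B.fr g).zc (Function.invFun f' (f ((B.fr g).zp z')))
/-- output of the long slide -/
structure LO (f Zm f1 : V → V) (Af ab : V → ℝ) (Pv : V → V) : Prop where
  sm : Sm f1 ∧ Function.Bijective f1 ∧ ∀ z, jac f1 z = jac f z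
  pd : B.PushD Zm Af ab Pv
  off : ∀ g, ¬ B.pushN g → ∀ z ∈ B.R g (11 / 10), f1 ((B.fr g).zp z) = f ((B.fr g).zp z)
  rel : ∀ g, B.pushN g → ∀ z' ∈ B.R g (105 / 100), LRel (B.c g (mid B.N)) ((B.fr g).fh f)
    ((B.fr g).fh f1) z' (B.nw g f f1 z') (Af ((B.fr g).zp z'))
/-- the part of the invariant about `Z` and the covariance -/
structure Pre (ρ : V → ℝ) (k r : ℕ) (s : St) : Prop where
  il : B.IL k r s
  iz : B.IZ k r s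
  ip : B.IP k r s
  is : B.IS k r s
  iq : aft (ks B.N) k r → B.Prep ρ s
def H0 (ρ : V → ℝ) (k r : ℕ) (s : St) : Prop :=
  Rho ρ ∧ B.Ok ρ ∧ k < nb B.N ∧ B.Inv ρ k r s
/-- small lateral stages of the cubes of colour `j` -/
def UH (k j : ℕ) (u : Cu → ℕ → V → V) : Prop := ∀ g, col g = j → ∀ m, Sm (u g m) ∧ ∀ x,
  (x ∉ B.R g (93 / 100) → u g m x = 0) ∧ u g m x 2 = 0 ∧
  ∀ i, |u g m x i| ≤ np B.N (-690) * (B.c g k).hs i
/-- kernel conditions along the path of stages -/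
def PK (k j : ℕ) (Z : V → V) (S : V → Mx) (u : Cu → ℕ → V → V) (hv : ℝ) : Prop :=
  ∀ m < nT B.N, ∀ t ∈ Icc (0 : ℝ) 1,
    B.KS k (fun x => Z x + Up (B.ug j u) m x + t • B.ug j u m x)
      (fun x => S x - Cv (B.ug j u) m x - t • vecMulVec (B.ug j u m x) (B.ug j u m x)) hv
def MBs (k : ℕ) (e t : ℝ) (M : V → ℝ) : Prop :=
  ∀ g, (B.c g k).MB e t ((B.fr g).den M) (B.R g (98 / 100))
/-- refinement flux at the start of band `k` -/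
def rfl' (ρ : V → ℝ) (k : ℕ) (s s' : St) : V → V :=
  flux ρ (B.Z s) s.Sg (fun x => s'.Zn x - s.Zn x) (B.Bm k s.Sg)
end Bk

/-- the facts about one point over one block -/
structure BF (c : Pm) (v v' t t' g ϑ : ℝ) (pN bN aP aB : Prop) : Prop where
  pn : pN → (c.VG ≤ Real.log c.N - 1 + 1 / c.q ∧ c.η ≤ 6 * etaS c.N) ∨
    tE c.N - 1 / (c.q * pR c.N) ≤ c.t
  bn : bN → c.VG ≤ Real.log c.N - 1 + 1 / c.q
  ap : (c.VG ≤ Real.log c.N - 1 - 1 / c.q ∧ c.η ≤ 4 * etaS c.N) ∨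
    tE c.N + 1 / (c.q * pR c.N) ≤ c.t → aP
  pp : aP → pN
  ab : c.VG ≤ Real.log c.N - 1 - 1 / c.q → 3 * etaS c.N ≤ c.η → aB
  z0 : ¬ pN → g = 0 ∧ ϑ = 0
  tb : 0 ≤ ϑ ∧ ϑ ≤ c.q * c.J * c.p
  gb : ϑ / 4 - c.p / 400 ≤ g ∧ g ≤ 4 * ϑ + 6 * c.p ∧ (aP → ϑ / 4 + c.p / 200 ≤ g)
  up : v' - v ≤ c.η * g + (if pN then c.η * (ϑ / Real.sqrt c.q + c.p / 500) else 0) +
    pX c.N / (c.q ^ 2 * c.N) + if bN then c.J ^ 10 / c.N else 0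
  lo : c.η * g - (if pN then c.η * (ϑ / Real.sqrt c.q + c.p / 500) else 0) -
    pX c.N / (c.q ^ 2 * c.N) - (if 4 / 10 * etaA c.N ≤ c.η then c.J ^ 3 / c.N else 0) +
    (if aB then c.J ^ 8 / c.N else 0) ≤ v' - v
  dt : |t' - t + g| ≤ c.dk + ϑ / Real.sqrt c.q + if pN then c.p / 1000 else 0
  cr : |c.VG - v| ≤ 1 / c.q ∧ |c.t - t| ≤ 1 / (c.q * pR c.N)

/-- one counted step of `f` -/
def FPc (N : ℕ) (A π : ℝ) : FP :=
  ⟨np N (-7 / 20), qp N (8 / 5), pq N * (A * (π + A)) + 1 / (N * pJ N ^ 5),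
    pq N * A + sm N / 2, np N (-9 / 200), np N (-47 / 1000), 5 / 10 ^ 6, 1 / pq N⟩
def FP.up (N : ℕ) (P : FP) : FP :=
  ⟨100 * P.dl + np N (-15), 100 * P.dv + np N (-15), 100 * P.eg + np N (-15),
    100 * P.eh + np N (-15), 100 * P.ek + np N (-15), 100 * P.th + np N (-15), P.t3 + np N (-15),
    10 ^ 4 * P.df + np N (-10)⟩
def FP.cmp (P P' : FP) : FP :=
  ⟨P.dl + P'.dl, P.dv + P'.dv, P.eg + P'.eg, P.eh + P'.eh, P.ek + P'.ek, 2 * (P.th + P'.th),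
    P.t3 + P'.t3 + P.t3 * P'.t3 + 2 * (P.th * P'.th), 4 * (P.df + P'.df)⟩
def FP.Le (P P' : FP) : Prop := P.dl ≤ P'.dl ∧ P.dv ≤ P'.dv ∧ P.eg ≤ P'.eg ∧ P.eh ≤ P'.eh ∧
  P.ek ≤ P'.ek ∧ P.th ≤ P'.th ∧ P.t3 ≤ P'.t3 ∧ P.df ≤ P'.df
def FP.Sml (P : FP) : Prop := 0 ≤ P.th ∧ P.th ≤ 1 / 100 ∧ 0 ≤ P.t3 ∧ P.t3 ≤ 1 / 100 ∧
  0 ≤ P.df ∧ P.df ≤ 1 / 100
def FP.Bd (N : ℕ) (P : FP) : Prop := (⟨0, 0, 0, 0, 0, 0, 0, 0⟩ : FP).Le P ∧
  P.Le ⟨N, N, 1, 1, 1, 1 / 100, 1 / 100, 1 / 100⟩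
def nbrs (g : Cu) (r : ℤ) : Finset Cu := Fintype.piFinset fun i => Finset.Icc (g i - r) (g i + r)

end
end Pool.Agent.MP_20bec2_an.T3

end MrgPart0

-- ======== part 1: formerly Pool.Agent.MP_20bec2_an.T3.SpecB
section MrgPart1

set_option autoImplicit false
open MeasureTheory Set Filter Matrix Topology

namespace Pool.Agent.MP_20bec2_an.T3
noncomputable section
open Classical

/-- for all large `N` and all blocks with this `N` -/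
def EvB (P : Bk → Prop) : Prop := ∀ᶠ N : ℕ in atTop, ∀ B : Bk, B.N = N → P B
/-- for all large `N` and all admissible parameters with this `N` -/
def EvC (P : Pm → Prop) : Prop := ∀ᶠ N : ℕ in atTop, ∀ c : Pm, c.N = N → c.Ok → P c
def Bk.G (B : Bk) : Prop := Geo B.N B.lb B.fr B.Z0
def Dif (f : V → V) : Prop := Sm f ∧ Function.Bijective f ∧ ∀ z, 0 < jac f z

/-! ## 1. one cube -/

def MiniStmt : Prop := ∀ᶠ N : ℕ in atTop, ∀ d : MD, d.c.N = N → d.c.k < nb N → d.In →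
  ∃ u xs dth dY, d.Out u xs dth dY

def CreditStmt : Prop := ∀ᶠ N : ℕ in atTop, ∀ (ρ : V → ℝ) (lb : ℝ) (F : Fr), Rho ρ → Orth F.O →
  (F.pm N lb 0).Ok → ∃ γ, Cred ρ N lb F γ

def ChartStmt : Prop := EvC fun c => ∀ (O : Mx) (M : V → ℝ) (H : V → V), Orth O → c.steer → Sm M →
  c.MB (3 * eps0) 2 M (RX O c.D (97 / 100)) →
  (∀ z ∈ RX O c.D (97 / 100), ∀ i, i ≠ 2 → |H z i| ≤ hc c.N ∧ ∀ z' ∈ RX O c.D (97 / 100),
    |H z i - H z' i| ≤ 1 / (c.J ^ 24 * Real.sqrt c.N) *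
      (|z 0 - z' 0| / c.l1 + |z 1 - z' 1| / c.lam) + 2 * Xj c.N 0 2 * |z 2 - z' 2| / c.y) →
  ∃ ch, c.ChB ch ∧ ∀ z ∈ RX O c.D (96 / 100), ∀ g, c.Near g z → ∀ i, i ≠ 2 →
    |c.dgn i * deriv (fun r => ch g r i) (z 2) * c.n12 / (M z * c.cc i) + H z i| ≤ sm c.N / 2

/-- slides along one coordinate direction -/
def SlideStmt : Prop := ∀ (i : Fin 3) (M a : V → ℝ), Sm M → Sm a → (∀ z, 0 < M z) →
  (∀ z, 0 < M z + pd i a z) →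
  (∀ z, ∃ r : ℝ, ∀ t, r ≤ |t| → a (z + t • (Pi.single i 1 : V)) = 0) →
  ∃ σ : V → ℝ, Sm σ ∧ Function.Bijective (fun z => z + σ z • (Pi.single i 1 : V)) ∧
    (∀ z, ∫ t in (0 : ℝ)..σ z, M (z + t • (Pi.single i 1 : V)) = a z) ∧
    (∀ z j, M (z + σ z • (Pi.single i 1 : V)) * pd j σ z = pd j a z -
      ∫ t in (0 : ℝ)..σ z, pd j M (z + t • (Pi.single i 1 : V))) ∧
    ∀ f : V → V, Sm f → (∀ z, jac f z = M z) →
      ∀ z, jac (fun w => f (w + σ w • (Pi.single i 1 : V))) z = M z + pd i a z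

def FcompStmt : Prop := EvC fun c => ∀ (f f1 f2 : V → V) (z0 z1 z2 : V) (P P' : FP),
  jac f z0 ≠ 0 → jac f1 z1 ≠ 0 → P.Sml → P'.Sml → FRel c f f1 z0 z1 P → FRel c f1 f2 z1 z2 P' →
  FRel c f f2 z0 z2 (P.cmp P') ∧ ∀ d, 0 ≤ d → c.DI f z0 d →
    c.DI f1 z1 (d * (1 + 3 * P.th + P.t3) + (1 + d) * P.df)

/-- the main step of `f` in one cube -/
def FmainStmt : Prop := EvC fun c => ∀ (O : Mx) (f : V → V) (ch : Cu → ℝ → V) (F : V → V),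
  Orth O → Sm f → (∀ z, 0 < jac f z) → c.MB (2 * eps0) 1 (jac f) (RX O c.D (97 / 100)) →
  c.ChB ch → c.FB O ch F →
  ∃ S : V → V, Sm S ∧ Function.Bijective S ∧ (∀ z, z ∉ RX O c.D (955 / 1000) → S z = z) ∧
    (∀ z, jac (f ∘ S) z = jac f z + dv (cutF O c.D F) z) ∧
    (∀ z, ‖S z - z‖ ≤ np c.N (11 / 10) * c.lam) ∧
    ∀ z (a π : ℝ), 1 ≤ a → a ≤ Real.sqrt (c.q * c.J) → 0 ≤ π → π ≤ 3 * hc c.N →
      S z ∈ RX O c.D (96 / 100) → c.GB f (S z) 2 → c.Env ch F (S z) a → c.PiF ch f (S z) π →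
      FRel c f (f ∘ S) (S z) z (FPm c.N (Real.sqrt (c.bb / c.N) * a) π (qp c.N (2 / 5)))

/-- change of frame for the relation -/
def FtrStmt : Prop := ∀ᶠ N : ℕ in atTop, ∀ (F F' : Fr) (lb : ℝ) (k : ℕ) (f f' : V → V) (p' p : V)
  (P : FP), Orth F.O → Orth F'.O → 0 < F.Q.det → 0 < F'.Q.det → Cpt (dc N) F F' →
  (F.pm N lb k).Ok → (F'.pm N lb k).Ok → Sm f → Sm f' → P.Bd N →
  |jac (F'.fh f) (F'.zc p') - 1| ≤ 1 / 10 → |jac (F'.fh f') (F'.zc p) - 1| ≤ 1 / 10 →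
  CB 1 (F'.pm N lb k).hs {F'.zc p'} (jac (F'.fh f)) (100 * pq N) →
  CB 1 (F'.pm N lb k).hs {F'.zc p} (jac (F'.fh f')) (100 * pq N) →
  EB ((F'.pm N lb k).gam (F'.fh f) (F'.zc p')) (cm 10) →
  FRel (F'.pm N lb k) (F'.fh f) (F'.fh f') (F'.zc p') (F'.zc p) P →
  FRel (F.pm N lb k) (F.fh f) (F.fh f') (F.zc p') (F.zc p) (P.up N)

/-! ## 2. global steps of `f` -/

/-- main step, all cubes of one colour -/
def FmgStmt : Prop := EvB fun B => ∀ (k j : ℕ) (f : V → V) (ch : Cu → Cu → ℝ → V)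
  (F : Cu → V → V), B.G → k ≤ nb B.N → Dif f → B.MBs k (2 * eps0) 1 (jac f) →
  (∀ g, col g = j → (B.c g k).ChB (ch g) ∧ (B.c g k).FB (B.fr g).O (ch g) (F g)) →
  ∃ f', Dif f' ∧ Sm (B.glF j F) ∧ (∀ z, jac f' z = jac f z + dv (B.glF j F) z) ∧
    B.MBs k (3 * eps0) 2 (jac f') ∧ ∀ g, ∀ z' ∈ B.R g (105 / 100),
    ‖B.nw g f f' z' - z'‖ ≤ np B.N (6 / 5) * (B.c g k).lam ∧
    ∀ A π : ℝ, 0 ≤ A → A ≤ 1 / pJ B.N → 0 ≤ π → π ≤ 1 / pJ B.N →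
      (∀ g', col g' = j → (B.fr g').zc ((B.fr g).zp z') ∈ B.R g' (96 / 100) → ∃ a π' : ℝ,
        1 ≤ a ∧ a ≤ Real.sqrt (pq B.N * pJ B.N) ∧ 0 ≤ π' ∧ π' ≤ 3 * hc B.N ∧
        Real.sqrt ((B.c g' k).bb / B.N) * a ≤ 2 * A ∧ π' ≤ 2 * π ∧
        (B.c g' k).GB ((B.fr g').fh f) ((B.fr g').zc ((B.fr g).zp z')) 2 ∧
        (B.c g' k).Env (ch g') (F g') ((B.fr g').zc ((B.fr g).zp z')) a ∧
        (B.c g' k).PiF (ch g') ((B.fr g').fh f) ((B.fr g').zc ((B.fr g).zp z')) π') →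
      FRel (B.c g k) ((B.fr g).fh f) ((B.fr g).fh f') z' (B.nw g f f' z') (FPm B.N A π (pq B.N))

/-- absorption of a small flux -/
def GabsStmt : Prop := EvB fun B => ∀ (k : ℕ) (f R : V → V), B.G → k ≤ nb B.N → Dif f → Sm R →
  B.MBs k (3 * eps0) 2 (jac f) →
  (∀ g, ∀ z ∈ B.R g (98 / 100), |(B.fr g).den (fun w => jac f w + dv R w) z - 1| ≤ 3 * eps0 ∧
    (B.c g k).GB ((B.fr g).fh f) z (3 / 2)) →
  (∀ g, (B.c g k).RB ((B.fr g).vd R) (B.R g (98 / 100))) →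
  ∃ f', Dif f' ∧ (∀ z, jac f' z = jac f z + dv R z) ∧ ∀ g, ∀ z' ∈ B.R g (105 / 100),
    FRel (B.c g k) ((B.fr g).fh f) ((B.fr g).fh f') z' (B.nw g f f' z') (FPs B.N)

/-- the long slide -/
def FlongStmt : Prop := EvB fun B => ∀ (f Zm : V → V), B.G → Dif f → Sm Zm →
  B.MBs (mid B.N) (2 * eps0) 1 (jac f) →
  (∀ g, B.deep g → (∀ z ∈ B.R g (98 / 100), (B.c g (mid B.N)).GB ((B.fr g).fh f) z 1 ∧
      (∀ i, i ≠ 2 → |(B.c g 0).gam ((B.fr g).fh f) z i 2| ≤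
        Real.sqrt ((B.c g 0).η * (B.c g 0).p) / 8000) ∧
      |(B.c g 0).gam ((B.fr g).fh f) z 2 2 - 1| ≤ 2 / pJ B.N) ∧
    (∀ z ∈ B.R g (96 / 100), ∀ τ : ℝ, |τ| ≤ 10 * (B.N : ℝ) ^ 2 * (B.c g (mid B.N)).lam →
      ∀ i, i ≠ 2 → (B.c g 0).cc i / (B.c g 0).n12 *
        |∫ t in (0 : ℝ)..τ, pd i (jac ((B.fr g).fh f)) (z + t • e3)| ≤
        3 * Real.sqrt (pX B.N / B.N) / pq B.N ^ 5) ∧
    (∀ x ∈ B.R g 1, EB2 (jm ((B.fr g).hat Zm) x - 1) (B.c g (mid B.N)).eT ∧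
      EB (jm ((B.fr g).hat Zm) x - 1) (cm (1 / Real.sqrt (pJ B.N))) ∧
      ‖(B.fr g).O *ᵥ ((B.fr g).hat Zm x - x)‖ ≤ B.D / 1000) ∧
    ∀ i, CO 2 (cv 1) (B.R g 1) (fun x => (B.fr g).hat Zm x i) (B.c g (mid B.N)).d2u) →
  ∃ f1 Af ab Pv, B.LO f Zm f1 Af ab Pv

/-- the record after one counted step -/
def FupStmt : Prop := EvB fun B => ∀ (k r : ℕ) (f f' : V → V) (ft : ℕ → V → V)
  (xs xs' : ℕ → Cu → ℝ) (Af Af' : V → ℝ), B.G → k < nb B.N → r ≤ 8 →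
  (∀ m i, 0 ≤ xs' m i) → (∀ m < tm k r, xs' m = xs m) → (aft (mid B.N) k r → Af' = Af) →
  (∀ g, ∀ x ∈ B.bx g 1, |jac ((B.fr g).fh f) (B.oh g f x) - 1| ≤ 1 / 10 ∧
    ∀ j ≤ k, |jac ((B.fr g).fh (ft j)) (B.oh g (ft j) x) - 1| ≤ 1 / 10) →
  B.IG k r f ft xs Af →
  (∀ g, ∀ x ∈ B.bx g 1, ∀ i, B.NS i x →
    if k = mid B.N ∧ r = 0 ∧ B.pushN g then ft k = f ∧ ∃ f1 : V → V,
      |jac ((B.fr g).fh f1) (B.oh g f1 x) - 1| ≤ 1 / 10 ∧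
      LRel (B.c g k) ((B.fr g).fh f) ((B.fr g).fh f1) (B.oh g f x) (B.oh g f1 x) (Af' (B.lab f x)) ∧
      FRel (B.c g k) ((B.fr g).fh f1) ((B.fr g).fh f') (B.oh g f1 x) (B.oh g f' x) (FPc B.N 0 0)
    else FRel (B.c g k) ((B.fr g).fh f) ((B.fr g).fh f') (B.oh g f x) (B.oh g f' x)
      (if r = 0 then FPc B.N 0 0 else
        FPc B.N (Real.sqrt ((B.c g 0).bbO * (1 + xs' (tm k r) i) / B.N))
          (B.piO g xs' (tm k r) i))) →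
  B.IG k (r + 1) f' ft xs' Af'

/-- positions of labels -/
def SurjStmt : Prop := EvB fun B => ∀ f : V → V, B.G → Function.Bijective B.f0 →
  Function.Bijective f →
  (∀ g, ∀ x ∈ B.bx g 1, ‖B.oh g f x - (B.fr g).zc (B.Z0 x)‖ ≤ (B.N : ℝ) ^ 3 * B.lb) →
  ∀ g, Function.Bijective (B.oh g f) ∧ ∀ x (r : ℝ), 0 ≤ r → r ≤ 11 / 10 →
    (x ∈ B.bx g r → B.oh g f x ∈ B.R g (r + 1 / 500) ∧
      ‖B.oh g f x - (B.fr g).zc (B.Z0 x)‖ ≤ 2 * (B.N : ℝ) ^ 3 * B.lb) ∧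
    (B.oh g f x ∈ B.R g r → x ∈ B.bx g (r + 1 / 500))

/-- ledger sums -/
def LedgStmt : Prop := EvB fun B => ∀ (k r : ℕ) (s : St), FrOk B.N B.lb B.fr → k < nb B.N → r ≤ 9 →
  B.IL k r s → ∀ i a b, b ≤ tm k r →
  La s.xs a b i ≤ qp B.N (1 / 5) * pJ B.N ∧
  (∀ b0, 0 ≤ b0 → SA B.N b0 s.xs a b i ≤
    Real.sqrt (b0 * (b - a : ℕ) * (qp B.N (1 / 5) * pJ B.N) / B.N)) ∧
  ∀ g, B.SG g s.xs a b i ≤ pX B.N / (qp B.N (7 / 2) * B.N) ∧ B.piO g s.xs b i ≤ 2 * hc B.N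

/-- what the record says about `f` at the labels -/
def LabF (B : Bk) (k : ℕ) (f : V → V) : Prop := Dif f ∧
  (∀ g, ∀ x ∈ B.bx g 1, ‖B.oh g f x - (B.fr g).zc (B.Z0 x)‖ ≤ np B.N (23 / 10) * B.lb ∧
    (B.c g k).GB ((B.fr g).fh f) (B.oh g f x) 1 ∧
    (∀ i, i ≠ 2 → |B.ga g f x i 2| ≤ hc B.N ∧
      ((B.c g 0).oB → |B.ga g f x i 2| ≤ (B.c g 0).pi1)) ∧
    |B.ga g f x 0 0 - (B.c g 0).η| ≤ 2 * cg0 B.N + 10 * ((B.c g 0).η * (B.c g 0).p) ∧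
    |B.ga g f x 0 1| ≤ 2 * cg0 B.N + (B.c g 0).η * (B.c g 0).p / 1000 ∧
    |B.ga g f x 1 1 - 1| ≤ 2 * cg0 B.N ∧
    |jac ((B.fr g).fh f) (B.oh g f x) - 1| ≤ 1 / 100 ∧
    ∀ x' ∈ B.bx g 1, ‖B.oh g f x - B.oh g f x'‖ ≤ (B.N : ℝ) ^ 3 * ‖x - x'‖)
def LabStmt : Prop := EvB fun B => ∀ (ρ : V → ℝ) (k r : ℕ) (s : St), B.Ok0 ρ → k < nb B.N → r ≤ 9 →
  B.IL k r s → (aft (mid B.N) k r → B.PushD (s.zt (mid B.N)) s.Af s.ab s.Pv) → B.IF ρ k r s →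
  B.MBs k (2 * eps0) 1 (jac s.f) → LabF B k s.f ∧ ∀ j ≤ k, (mid B.N < j → LabF B k (s.ft j)) ∧
    Dif (s.ft j) ∧ ∀ g, ∀ x ∈ B.bx g 1,
      ‖B.oh g (s.ft j) x - (B.fr g).zc (B.Z0 x)‖ ≤ np B.N (23 / 10) * B.lb ∧
      |jac ((B.fr g).fh (s.ft j)) (B.oh g (s.ft j) x) - 1| ≤ 1 / 100 ∧
      (¬ B.pushN g → ∀ i, i ≠ 2 → |B.ga g (s.ft j) x i 2| ≤ hc B.N)

/-- steering charts exist -/
def PredStmt : Prop := EvB fun B => ∀ (ρ : V → ℝ) (k r : ℕ) (s : St), B.H0 ρ k r s → 1 ≤ r → r ≤ 8 →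
  ∃ ch, B.ChOk k r s ch

/-! ## 3. derived facts on `Z`, the covariance and the density -/

def Bij2Stmt : Prop := EvB fun B => ∀ Z W : V → V, B.G → Function.Bijective Z → Sm Z → Sm W →
  (∀ g, ∀ x ∈ B.bx g 1, EB ((B.fr g).hm (jm Z x) - 1) (cm (1 / 200)) ∧
    EB ((B.fr g).hm (jm W x)) (cm (1 / 1000)) ∧ ‖(B.fr g).Q⁻¹ *ᵥ W x‖ ≤ B.lb) →
  Function.Bijective fun x => Z x + W x

/-- the potential seen from two frames -/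
def VtrStmt : Prop := ∀ᶠ N : ℕ in atTop, ∀ (F F' : Fr) (lb : ℝ) (A : Mx), Orth F.O → Orth F'.O →
  0 < F.Q.det → 0 < F'.Q.det → Cpt (dc N) F F' → (F.pm N lb 0).Ok → (F'.pm N lb 0).Ok →
  EB (F.hm A - 1) (cm (1 / 100)) →
  |(F.pm N lb 0).V2 (F.hm A - 1) - (F'.pm N lb 0).V2 (F'.hm A - 1)| ≤ np N (-15) ∧
  |(F.pm N lb 0).VG - (F'.pm N lb 0).VG| ≤ np N (-15) ∧
  |(F.pm N lb 0).t - (F'.pm N lb 0).t| ≤ np N (-15)

def ZtStmt : Prop := EvB fun B => ∀ ρ : V → ℝ, B.G → (∀ g, Cred ρ B.N B.lb (B.fr g) (B.gc g)) →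
  Sm B.Zt ∧ ∀ g, (∀ i, CO 2 (cv 1) (B.R g (11 / 10)) (fun x => (B.fr g).hatv B.Zt x i)
    (np B.N (-139 / 100) / B.lb')) ∧ ∀ x ∈ B.bx g (11 / 10),
    EB ((B.fr g).hm (jm B.Zt x)) (cm (np B.N (-93 / 100))) ∧
    ‖(B.fr g).Q⁻¹ *ᵥ B.Zt x‖ ≤ np B.N (-44 / 100) * B.lb ∧
    ((B.c g 0).η < 95 / 100 * etaA B.N → B.Zt x = 0 ∧ jm B.Zt x = 0 ∧ ∀ m, B.costm ρ m x = 0) ∧
    (B.c g 0).η * (B.fr g).hm (jm B.Zt x) 0 0 + (2 - (B.c g 0).η) * (B.fr g).hm (jm B.Zt x) 1 1 ≤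
      -∑ m ∈ Finset.range (8 * nb B.N), B.costm ρ m x + 9 * (pX B.N / (pq B.N ^ 3 * B.N)) ∧
    -(9 * (Jp B.N (5 / 2) / B.N)) ≤
      (B.c g 0).η * (B.fr g).hm (jm B.Zt x) 0 0 + (2 - (B.c g 0).η) * (B.fr g).hm (jm B.Zt x) 1 1

def ZderStmt : Prop := EvB fun B => ∀ (ρ : V → ℝ) (k r : ℕ) (s : St), B.Ok0 ρ → k < nb B.N → r ≤ 9 →
  B.IL k r s → B.IZ k r s → B.IP k r s → (aft (ks B.N) k r → B.Prep ρ s) →
  Sm (B.Z s) ∧ ∀ g, ∀ x ∈ B.bx g 1, EB2 (B.Eh s g x) (B.c g k).eT ∧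
    EB (B.Eh s g x) (cm ((B.c g k).zT / 2)) ∧
    EB ((B.fr g).hm (jm s.Zs x) - 1) (cm (9 / 10 * (B.c g k).zT)) ∧
    EB ((B.fr g).hm (jm (B.Z s) x) - 1) (cm (B.c g k).zT) ∧
    ‖(B.fr g).Q⁻¹ *ᵥ (B.Z s x - B.Z0 x)‖ ≤ np B.N (6 / 5) * B.lb ∧
    ‖(B.fr g).O *ᵥ ((B.fr g).zc (B.Z s x) - (B.fr g).xc x)‖ ≤ B.D / 1000

/-- covariance during a band -/
def SderStmt : Prop := EvB fun B => ∀ (k r : ℕ) (s : St), FrOk B.N B.lb B.fr → k < nb B.N →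
  1 ≤ r → r ≤ 9 → B.IS k r s → ∀ g,
  (∀ x ∈ B.R g (995 / 1000), EB (B.nS k s.Sg g x -
      dg3 (1 / 4 - 3 / 16 * ∑ᶠ g', if col g' < r - 1 then al B.D g' ((B.fr g).xp x) ^ 2 else 0)
        (1 / 4 - 3 / 16 * ∑ᶠ g', if col g' < r - 1 then al B.D g' ((B.fr g).xp x) ^ 2 else 0) 1)
      (bm (1 / Real.sqrt (pq B.N)) (np B.N (-15)) (np B.N (-15))) ∧
    EB (nrm (B.c g k).hs (B.Cp k s.S0 g ((B.fr g).xp x)) - dg3 (3 / 16) (3 / 16) 0)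
      !![3 * (B.c g k).t11, 3 * (B.c g k).t12, 0; 3 * (B.c g k).t12, 3 * (B.c g k).t11, 0; 0, 0, 0] ∧
    EB ((B.fr g).cov B.Db x - dg3 0 0 1) (cm (np B.N (-20))) ∧
    EB (nrm (B.c g k).hs ((B.fr g).cov (B.Dl k) x) - dg3 (1 / 32) (1 / 32) 0) (cm (np B.N (-20)))) ∧
  (∀ i j, CV 1 (cv (B.c g k).hE) (B.R g (995 / 1000)) (fun x => B.nS k s.Sg g x i j)
      (np B.N (-2 / 5)) ∧
    CV 4 (cv (B.c g k).hE) (B.R g (995 / 1000))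
      (fun x => nrm (B.c g k).hs (B.Cp k s.S0 g ((B.fr g).xp x)) i j) (2 * (B.c g k).eL) ∧
    CV 7 (cv (B.c g k).hm) (B.R g (995 / 1000))
      (fun x => nrm (B.c g k).hs (B.Cp k s.S0 g ((B.fr g).xp x)) i j) (pq B.N * (B.c g k).eL)) ∧
  B.Osc k s.Sg (B.yk k) ∧ SmM B.Db ∧ SmM (B.Dl k) ∧ SmM (B.Cp k s.S0 g) ∧
  ∀ x, (B.Db x)ᵀ = B.Db x ∧ (B.Dl k x)ᵀ = B.Dl k x ∧ (B.Cp k s.S0 g x)ᵀ = B.Cp k s.S0 g x

def KsdStmt : Prop := EvB fun B => ∀ (ρ : V → ℝ) (k r : ℕ) (s : St), B.Ok0 ρ → k < nb B.N → r ≤ 9 →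
  B.Pre ρ k r s → B.KS k (B.Z s) s.Sg (B.yk k) ∧ B.Osc k s.Sg (B.yk k) ∧
  (∀ y', (B.c 0 k).yrg y' → B.KS k (B.Z s) (B.SR k r s.Sg y') y') ∧
  (kL B.N ≤ k → k < mid B.N → B.KS k (B.Z s) (B.SL k r s.Sg) (2 * B.yk (mid B.N)))

/-- near part, far part and crude bound of a density -/
def KgStmt : Prop := EvB fun B => ∀ (k : ℕ) (Z : V → V) (S : V → Mx) (hv : ℝ), B.G → k ≤ nb B.N →
  B.KS k Z S hv → ∀ (b : V → ℝ) (A : ℝ), Measurable b → (∀ x, |b x| ≤ A) → GK b Z S ∧ ∀ g,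
    GK b ((B.fr g).hat Z) ((B.fr g).cov S) ∧
    KL ((B.c g k).hy hv) (B.R g (99 / 100)) (indicator (B.R g (99 / 100)) b) A ((B.fr g).hat Z)
      ((B.fr g).cov S) ∧
    CB 6 ((B.c g k).hy hv) (B.R g (985 / 1000))
      (dens (indicator (B.R g (99 / 100))ᶜ b) ((B.fr g).hat Z) ((B.fr g).cov S))
      (A * Real.exp (-(B.N : ℝ) ^ 3)) ∧
    CB 6 ((B.c g k).hy hv) univ (dens b ((B.fr g).hat Z) ((B.fr g).cov S))
      (A * Real.exp (100 * (B.N : ℝ) ^ 2))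

def Mbd1Stmt : Prop := EvB fun B => ∀ (ρ : V → ℝ) (k : ℕ) (Z : V → V) (S : V → Mx), Rho ρ → B.G →
  k ≤ nb B.N → B.KS k Z S (B.yk k) → B.Osc k S (B.yk k) → ∀ g,
  (∀ z ∈ B.R g (98 / 100), |(B.fr g).den (dens ρ Z S) z - 1| ≤ 2 * eps0) ∧
  CB 4 (B.c g k).hs (B.R g (98 / 100)) ((B.fr g).den (dens ρ Z S)) (pq B.N)

/-- comparison of two densities whose covariances differ by a constant up to `δ` -/
def ConvStmt : Prop := EvB fun B => ∀ (ρ : V → ℝ) (k0 k : ℕ) (Z Z' : V → V) (S S' : V → Mx)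
  (hv hv' δ : ℝ) (g : Cu) (A : Mx) (z : V), Rho ρ → B.G → k0 ≤ nb B.N → k ≤ nb B.N →
  B.KS k0 Z S hv → B.KS k Z' S' hv' → 0 ≤ δ → δ ≤ 1 / 1000 → Aᵀ = A →
  (A = 0 ∨ ∀ v : V, 1 / 10 ^ 4 * ∑ i, ((B.c g k).hy hv' i * v i) ^ 2 ≤ v ⬝ᵥ (A *ᵥ v) ∧
    v ⬝ᵥ (A *ᵥ v) ≤ 6 * ∑ i, ((B.c g k).hy hv' i * v i) ^ 2) →
  (∀ x ∈ B.R g (99 / 100), (∀ i, |((B.fr g).hat Z' x - (B.fr g).hat Z x) i| ≤
      δ * (B.c g k).hy hv' i) ∧
    EB (nrm ((B.c g k).hy hv') ((B.fr g).cov S' x - (B.fr g).cov S x - A)) (cm δ)) →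
  z ∈ B.R g (985 / 1000 - 1 / (2 * B.N)) →
  (A = 0 → CB 4 ((B.c g k).hy hv') {z}
    (fun w => (B.fr g).den (dens ρ Z' S') w - (B.fr g).den (dens ρ Z S) w)
    (pq B.N * δ + Real.exp (-(B.N : ℝ)))) ∧
  (A ≠ 0 → ∀ (v : V) (b : ℝ), v 2 = 0 → (∀ i, |v i| ≤ (B.c g k).hs i) →
    (∀ w, ‖w - z‖ ≤ np B.N (5 / 2) * B.lb →
      |∑ i, v i * pd i ((B.fr g).den (dens ρ Z S)) w| ≤ b) →
    |∑ i, v i * pd i ((B.fr g).den (dens ρ Z' S')) z| ≤ b + pq B.N * δ + Real.exp (-(B.N : ℝ)) ∧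
    CB 3 ((B.c g k).hy hv') {z} (fun w => ∑ i, v i * pd i ((B.fr g).den (dens ρ Z' S')) w)
      (pq B.N * (b + δ) + Real.exp (-(B.N : ℝ))))

/-- bounds of the density during a band -/
def MbiStmt : Prop := EvB fun B => ∀ (ρ : V → ℝ) (k r : ℕ) (s : St), Rho ρ → B.Ok0 ρ → k < nb B.N →
  1 ≤ r → r ≤ 9 → B.Pre ρ k r s → B.IR ρ k r s →
  B.MBs k (2 * eps0) 1 (dens ρ (B.Z s) s.Sg) ∧ ∀ g, CL 2 (B.c g k).hs (B.R g (98 / 100))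
    ((B.fr g).den (dens ρ (B.Z s) s.Sg)) (np B.N (-27 / 100))

/-- the exact flux of the stages of one colour -/
def StgStmt : Prop := EvB fun B => ∀ (ρ : V → ℝ) (k j : ℕ) (Z : V → V) (S : V → Mx) (hv : ℝ)
  (u : Cu → ℕ → V → V), Rho ρ → B.G → k ≤ nb B.N → B.UH k j u → B.PK k j Z S u hv →
  Sm (ftot ρ Z S (B.ug j u) (nT B.N)) ∧
  (∀ z, dens ρ (fun x => Z x + Up (B.ug j u) (nT B.N) x)
    (fun x => S x - Cv (B.ug j u) (nT B.N) x) z =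
      dens ρ Z S z + dv (ftot ρ Z S (B.ug j u) (nT B.N)) z) ∧
  (∀ g, col g = j → Sm (B.mF ρ Z S u g) ∧
    CB 3 ((B.c g k).hy hv) univ (dv (B.mF ρ Z S u g)) (pq B.N) ∧ (∀ z, B.mF ρ Z S u g z 2 = 0) ∧
    ∀ i, CB 4 ((B.c g k).hy hv) (B.R g (935 / 1000))ᶜ (fun z => B.mF ρ Z S u g z i)
      (Real.exp (-(B.N : ℝ)) * (B.c g k).lam)) ∧
  ∀ g i, CB 4 ((B.c g k).hy hv) (B.R g (985 / 1000))
    (fun z => (B.fr g).vd (fun w => ftot ρ Z S (B.ug j u) (nT B.N) w -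
      ∑ g' ∈ (nbrs g 2).filter (fun g' => col g' = j), (B.fr g').unvd (B.mF ρ Z S u g') w) z i)
    (np B.N (-200) * (B.c g k).lam)

/-! ## 4. one colour -/

def MinStmt : Prop := EvB fun B => ∀ (ρ : V → ℝ) (k r : ℕ) (s : St) (ch : Cu → Cu → ℝ → V),
  B.H0 ρ k r s → 1 ≤ r → r ≤ 8 → (∀ g, (B.c g k).ChB (ch g)) →
  ∀ g, col g = r - 1 → (B.md ρ k r s ch g).In

/-- shape of the rows of a colour step -/
def MRow (P : (B : Bk) → (V → ℝ) → ℕ → ℕ → St → Prop) : Prop := EvB fun B =>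
  ∀ (ρ : V → ℝ) (k r : ℕ) (s : St) (ch : Cu → Cu → ℝ → V) (o : Bk.MO) (f' : V → V),
  B.MH ρ k r s ch o → P B ρ k (r + 1) (B.stp ρ k r s ch o f')
def MlStmt : Prop := MRow fun B _ k r s => B.IL k r s
def MzStmt : Prop := MRow fun B _ k r s => B.IZ k r s
def MvStmt : Prop := MRow fun B ρ k r s => B.IV ρ k r s
def MpStmt : Prop := MRow fun B _ k r s => B.IP k r s
def MsStmt : Prop := MRow fun B _ k r s => B.IS k r s
def MrStmt : Prop := MRow fun B ρ k r s => B.IR ρ k r s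

def PksStmt : Prop := EvB fun B => ∀ (ρ : V → ℝ) (k r : ℕ) (s : St) (ch : Cu → Cu → ℝ → V)
  (o : Bk.MO), B.MH ρ k r s ch o → B.UH k (r - 1) o.u ∧
  B.PK k (r - 1) (B.Z s) s.Sg o.u (B.yk k) ∧
  (∀ y', (B.c 0 k).yrg y' → B.PK k (r - 1) (B.Z s) (B.SR k r s.Sg y') o.u y') ∧
  (kL B.N ≤ k → k < mid B.N →
    B.PK k (r - 1) (B.Z s) (B.SL k r s.Sg) o.u (2 * B.yk (mid B.N)))

/-- what is left after the main step -/
def LeftStmt : Prop := EvB fun B => ∀ (ρ : V → ℝ) (k r : ℕ) (s : St) (ch : Cu → Cu → ℝ → V)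
  (o : Bk.MO) (f' : V → V), B.MH ρ k r s ch o → ∃ R : V → V, Sm R ∧
  (∀ z, dens ρ (B.Z (B.stp ρ k r s ch o f')) (B.stp ρ k r s ch o f').Sg z =
    dens ρ (B.Z s) s.Sg z + dv (B.glF (r - 1) (B.mF ρ (B.Z s) s.Sg o.u)) z + dv R z) ∧
  ∀ g, (B.c g k).RB ((B.fr g).vd R) (B.R g (98 / 100))

def MfStmt : Prop := EvB fun B => ∀ (ρ : V → ℝ) (k r : ℕ) (s : St) (ch : Cu → Cu → ℝ → V)
  (o : Bk.MO), B.MH ρ k r s ch o → B.ChOk k r s ch →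
  ∃ f', B.IF ρ k (r + 1) (B.stp ρ k r s ch o f')

def MstepStmt : Prop := EvB fun B => ∀ (ρ : V → ℝ) (k r : ℕ) (s : St), B.H0 ρ k r s → 1 ≤ r →
  r ≤ 8 → ∃ s', B.Inv ρ k (r + 1) s'

/-! ## 5. start and end of a band -/

def PrepStmt : Prop := EvB fun B => ∀ (ρ : V → ℝ) (s : St), B.H0 ρ (ks B.N) 0 s →
  ∃ nf ngc, ∀ f' Af ab Pv, B.Prep ρ (B.sta (ks B.N) s nf ngc f' Af ab Pv)

def BlStmt : Prop := EvB fun B => ∀ (ρ : V → ℝ) (s : St), B.H0 ρ (mid B.N) 0 s →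
  ∃ f1 Af ab Pv, B.LO s.f (s.zt (mid B.N)) f1 Af ab Pv

/-- hypotheses shared by the rows of the start of a band -/
def Bk.BH (B : Bk) (ρ : V → ℝ) (k : ℕ) (s : St) (nf : Cu → Fr) (ngc : Cu → V → V) (f1 : V → V)
    (Af ab : V → ℝ) (Pv : V → V) : Prop :=
  B.H0 ρ k 0 s ∧ (k = ks B.N → ∀ f', B.Prep ρ (B.sta k s nf ngc f' Af ab Pv)) ∧
  (k = mid B.N → B.LO s.f (s.zt k) f1 Af ab Pv) ∧ (k ≠ mid B.N → f1 = s.f)
def BRow (P : (B : Bk) → (V → ℝ) → ℕ → St → St → Prop) : Prop := EvB fun B =>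
  ∀ ρ k s nf ngc f1 Af ab Pv f', B.BH ρ k s nf ngc f1 Af ab Pv →
    P B ρ k s (B.sta k s nf ngc f' Af ab Pv)
def BzStmt : Prop := BRow fun B ρ k _ s' =>
  B.IL k 1 s' ∧ B.IZ k 1 s' ∧ B.IV ρ k 1 s' ∧ B.IP k 1 s' ∧ (aft (ks B.N) k 1 → B.Prep ρ s')
def BsStmt : Prop := BRow fun B _ k _ s' => B.IS k 1 s'
def BiStmt : Prop := BRow fun B ρ k _ s' => B.IR ρ k 1 s'
def BrStmt : Prop := BRow fun B ρ k s s' => Sm (B.rfl' ρ k s s') ∧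
  (∀ z, dens ρ (B.Z s') s'.Sg z = dens ρ (B.Z s) s.Sg z + dv (B.rfl' ρ k s s') z) ∧
  ∀ g, (B.c g k).RB ((B.fr g).vd (B.rfl' ρ k s s')) (B.R g (98 / 100))
def BfStmt : Prop := EvB fun B => ∀ ρ k s nf ngc f1 Af ab Pv, B.BH ρ k s nf ngc f1 Af ab Pv →
  ∃ f', B.IF ρ k 1 (B.sta k s nf ngc f' Af ab Pv)
def BstartStmt : Prop := EvB fun B => ∀ (ρ : V → ℝ) (k : ℕ) (s : St), B.H0 ρ k 0 s →
  ∃ s', B.Inv ρ k 1 s'

/-- covariance at the end of a band (also for the last band) -/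
def EsStmt : Prop := EvB fun B => ∀ (k : ℕ) (s : St), FrOk B.N B.lb B.fr → k < nb B.N →
  B.IS k 9 s → B.SB (k + 1) s.Sg 4 1 (np B.N (-20)) (np B.N (-20))
def ERow (P : (B : Bk) → (V → ℝ) → ℕ → St → Prop) : Prop := EvB fun B =>
  ∀ ρ k s, B.H0 ρ k 9 s → k + 1 < nb B.N → P B ρ (k + 1) (B.sen k s)
def EzStmt : Prop := ERow fun B ρ k s' =>
  B.IL k 0 s' ∧ B.IZ k 0 s' ∧ B.IV ρ k 0 s' ∧ B.IP k 0 s' ∧ (aft (ks B.N) k 0 → B.Prep ρ s')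
def ErStmt : Prop := ERow fun B ρ k s' => B.IR ρ k 0 s'
def EfStmt : Prop := ERow fun B ρ k s' => B.IF ρ k 0 s'
def RunStmt : Prop := EvB fun B => ∀ (ρ : V → ℝ) (s : St), B.H0 ρ 0 0 s →
  ∃ s', B.Inv ρ (nb B.N - 1) 9 s'

/-! ## 6. change of block -/

def ChangeStmt : Prop := EvB fun B => ∀ (ρ : V → ℝ) (s : St), B.H0 ρ (nb B.N - 1) 9 s →
  ∃ H, (B.next s H).Ok0 ρ ∧ (B.next s H).Inv ρ 0 0 (B.nst s)

def BarrStmt : Prop := EvC fun c => ∀ (G G' : Mx) (g ϑ : ℝ) (pN bN aP aB : Prop),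
  BF c (Vf c.N G) (Vf c.N G') (tt c.N G) (tt c.N G') g ϑ pN bN aP aB → Bar c.N G →
  Bar (nxt c.N) G'

/-- the point with the same image one block earlier -/
def LinkStmt : Prop := EvB fun B => ∀ (ρ : V → ℝ) (s : St), B.H0 ρ (nb B.N - 1) 9 s → ∀ x,
  ∃ x', s.f (B.Z s x) = B.f0 (B.Z0 x') ∧ ‖x - x'‖ ≤ (B.N : ℝ) ^ 3 * B.lb

def BlockStmt : Prop := EvB fun B => ∀ (ρ : V → ℝ) (s : St), B.H0 ρ (nb B.N - 1) 9 s →
  ∀ g, ∀ x ∈ B.bx g (1 / 2), ∃ (a ϑ : ℝ) (bN aP aB : Prop),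
    BF (B.c g 0) (Vf B.N (Gm B.Zs0 B.Z0 B.f0 x))
      (Vf B.N (Gm (fun w => s.Zs w + B.Zt w) (B.Z s) s.f x)) (tt B.N (Gm B.Zs0 B.Z0 B.f0 x))
      (tt B.N (Gm (fun w => s.Zs w + B.Zt w) (B.Z s) s.f x)) a ϑ (B.pushN g) bN aP aB

/-- a block at its start -/
def Bk.Sta (B : Bk) (ρ : V → ℝ) : Prop := B.Ok ρ ∧ ∃ s, B.Inv ρ 0 0 s
def Bk.F (B : Bk) (x : V) : V := B.f0 (B.Z0 x)

def CycleStmt : Prop := EvB fun B => ∀ ρ : V → ℝ, Rho ρ → B.Sta ρ →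
  ∃ B' : Bk, B'.N = nxt B.N ∧ B'.lb = B.lb / 2 ^ nb B.N ∧ B'.Sta ρ ∧
    ∀ x, ∃ x', B'.F x = B.F x' ∧ ‖x - x'‖ ≤ (B.N : ℝ) ^ 3 * B.lb

def LipStmt : Prop := EvB fun B => ∀ ρ : V → ℝ, B.Sta ρ → Function.Bijective B.F ∧
  ∀ x y, ‖B.F x - B.F y‖ ≤ 1000 * B.N * ‖x - y‖ ∧ ‖x - y‖ ≤ 1000 * B.N * ‖B.F x - B.F y‖

def PushStmt : Prop := EvB fun B => ∀ ρ : V → ℝ, Rho ρ → B.Sta ρ →
  ∀ (φ : V → ℝ) (Rr δ ε : ℝ), Continuous φ → 0 ≤ Rr → 0 ≤ ε → (∀ y, Rr < ‖y‖ → φ y = 0) →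
  (B.N : ℝ) ^ 6 * B.lb ≤ δ → (∀ y y', ‖y - y'‖ ≤ δ → |φ y - φ y'| ≤ ε) →
  |(∫ x, ρ x * φ (B.F x)) - ∫ y, φ y| ≤ ε * (2 * (Rr + δ)) ^ 3 + Real.exp (-(B.N : ℝ)) * ∫ y, |φ y|

def InitStmt : Prop := ∀ (ρ : V → ℝ) (R : ℝ), Rho ρ → (∀ x, R ≤ ‖x‖ → ρ x = 1) →
  ∀ᶠ N : ℕ in atTop, ∃ B : Bk, B.N = N ∧ B.lb = (N : ℝ) ^ 110 ∧ B.Sta ρ

end
end Pool.Agent.MP_20bec2_an.T3

end MrgPart1

-- ======== part 2: formerly Pool.Agent.MP_20bec2_an.T3.Vtr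
section MrgPart2

/-! Row VTR: the potential seen from two frames. -/

set_option autoImplicit false
open Set Filter Matrix

namespace Pool.Agent.MP_20bec2_an.T3
noncomputable section
namespace VtrP
open NcP FvP

lemma mn {a a' b b' M ε : ℝ} (ha : |a - a'| ≤ ε) (hb : |b - b'| ≤ ε) (hA : |a'| ≤ M)
    (hB : |b'| ≤ M) (hε : ε ≤ 1) : |a * b - a' * b'| ≤ (2 * M + 1) * ε := by
  have h0 := (abs_nonneg _).trans ha
  rw [show a * b - a' * b' = (a - a') * (b - b') + a' * (b - b') + b' * (a - a') by ring]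
  have := ab (ab (abs_mul_le ha hb) (abs_mul_le hA hb)) (abs_mul_le hB ha)
  nlinarith

/-- scalar product of two rows -/
def ip (W : Mx) (i k : Fin 3) : ℝ := W i 0 * W k 0 + W i 1 * W k 1 + W i 2 * W k 2
/-- area factor -/
def ar (W : Mx) : ℝ := ip W 0 0 * ip W 1 1 - ip W 0 1 * ip W 0 1

lemma ip_eq (W : Mx) (i k : Fin 3) : ip W i k = (W * Wᵀ) i k := by
  simp [ip, Matrix.mul_apply, Fin.sum_univ_three]

lemma ip_nn (W : Mx) (i : Fin 3) : 0 ≤ ip W i i :=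
  add_nonneg (add_nonneg (mul_self_nonneg _) (mul_self_nonneg _)) (mul_self_nonneg _)

lemma ipn {W X : Mx} {ε : ℝ} (h : EB2 (W - X) (cm ε)) (hX : EB2 X (cm 3)) (hε : ε ≤ 1)
    {i k : Fin 3} (hi : i ≠ 2) (hk : k ≠ 2) :
    |ip W i k - ip X i k| ≤ 21 * ε ∧ |ip X i k| ≤ 27 := by
  have a := fun j => mn (h i j hi) (h k j hk) (hX i j hi) (hX k j hk) hε
  have b := fun j => abs_mul_le (hX i j hi) (hX k j hk)
  simp only [cm, Matrix.of_apply] at a b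
  constructor
  · refine le_trans (le_of_eq ?_) ((ab (ab (a 0) (a 1)) (a 2)).trans (by linarith))
    congr 1; unfold ip; ring
  · exact (ab (ab (b 0) (b 1)) (b 2)).trans (by linarith)

lemma arn {W X : Mx} {ε : ℝ} (h : EB2 (W - X) (cm ε)) (hX : EB2 X (cm 3)) (hε : 21 * ε ≤ 1) :
    |ar W - ar X| ≤ 2310 * ε := by
  have h0 : 0 ≤ ε := (abs_nonneg _).trans (h 0 0 (by decide))
  have a := ipn h hX (by linarith) (i := 0) (k := 0) (by decide) (by decide)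
  have b := ipn h hX (by linarith) (i := 1) (k := 1) (by decide) (by decide)
  have g := ipn h hX (by linarith) (i := 0) (k := 1) (by decide) (by decide)
  have h1 := abs_le.1 (mn a.1 b.1 a.2 b.2 hε)
  have h2 := abs_le.1 (mn g.1 g.1 g.2 g.2 hε)
  unfold ar
  rw [abs_le]
  constructor <;> linarith [h1.1, h1.2, h2.1, h2.2]

lemma eb_mul {A B : Mx} {a b : ℝ} (hA : EB A (cm a)) (hB : EB B (cm b)) :
    EB (A * B) (cm (3 * (a * b))) := fun i j => by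
  have k := fun l => abs_mul_le (hA i l) (hB l j)
  simp only [cm, Matrix.of_apply] at k ⊢
  rw [Matrix.mul_apply, Fin.sum_univ_three]
  exact (ab (ab (k 0) (k 1)) (k 2)).trans (by linarith)

lemma col_eq {O : Mx} (hO : Oᵀ * O = 1) (i k : Fin 3) :
    O 0 i * O 0 k + O 1 i * O 1 k + O 2 i * O 2 k = if i = k then 1 else 0 := by
  have := congrFun (congrFun hO i) k
  simpa [Matrix.mul_apply, Fin.sum_univ_three, Matrix.one_apply] using this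

lemma eb_one {O : Mx} (hO : Oᵀ * O = 1) : EB Oᵀ (cm 1) := fun i j => by
  have := col_eq hO i i
  rw [if_pos rfl] at this
  change |O j i| ≤ 1
  rw [abs_le_one_iff_mul_self_le_one]
  fin_cases j <;> simp only [Fin.zero_eta, Fin.mk_one, Fin.reduceFinMk] <;>
    nlinarith [mul_self_nonneg (O 0 i), mul_self_nonneg (O 1 i), mul_self_nonneg (O 2 i)]

lemma approx {T O W P : Mx} {δ : ℝ} (hO : Oᵀ * O = 1) (hT : EB (T - O) (cm δ)) (h : T * W = P)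
    (hP : EB P (cm 2)) (hδ : δ ≤ 1 / 100) : EB (W - Oᵀ * P) (cm (60 * δ)) := by
  have h0 : 0 ≤ δ := (abs_nonneg _).trans (hT 0 0)
  have hB := eb_mul (eb_one hO) hT
  have hU := eb_mul (eb_one hO) hP
  have e : W - Oᵀ * P = -(Oᵀ * (T - O) * W) := by
    rw [← h, Matrix.mul_sub, Matrix.sub_mul, hO, Matrix.one_mul, Matrix.mul_assoc, neg_sub]
  generalize Oᵀ * (T - O) = B at hB e
  generalize Oᵀ * P = U at hU e
  intro i j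
  have k : ∀ i, |W i j - U i j| ≤ 3 * δ * (|W 0 j| + |W 1 j| + |W 2 j|) := fun i => by
    have k := fun l => abs_mul_le (hB i l) (le_refl |W l j|)
    simp only [cm, Matrix.of_apply] at k
    rw [← Matrix.sub_apply, e, Matrix.neg_apply, abs_neg, Matrix.mul_apply, Fin.sum_univ_three]
    exact (ab (ab (k 0) (k 1)) (k 2)).trans (by linarith)
  have l : ∀ i, |W i j| ≤ 6 + 3 * δ * (|W 0 j| + |W 1 j| + |W 2 j|) := fun i => by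
    have h1 := ab (hU i j) (k i)
    simp only [cm, Matrix.of_apply, add_sub_cancel] at h1
    linarith
  have m : |W 0 j| + |W 1 j| + |W 2 j| ≤ 20 := by
    nlinarith [l 0, l 1, l 2, abs_nonneg (W 0 j), abs_nonneg (W 1 j), abs_nonneg (W 2 j)]
  exact (k i).trans (by simp only [cm, Matrix.of_apply]; nlinarith)

lemma sh {x u m : ℝ} (hu : 0 ≤ u ∧ u ≤ m) (hx : 1 / 2 ≤ x ∧ x ≤ 2) : 0 ≤ u * x ∧ u * x ≤ 2 * m := by
  constructor <;> nlinarith [hu.1, hu.2, hx.1, hx.2]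

lemma sqs {x δ : ℝ} (hδ : δ ≤ 1 / 10) (hx : |x| ≤ δ) : 0 ≤ x * x ∧ x * x ≤ δ / 10 :=
  ⟨mul_self_nonneg x, by nlinarith [abs_mul_abs_self x, abs_nonneg x]⟩

lemma ar1 {a b g : ℝ} (ha : |a - 1| ≤ 21 * (1 / 100)) (hb : |b - 1| ≤ 21 * (1 / 100))
    (hg : |g| ≤ 21 * (1 / 100)) : 1 / 2 ≤ a * b - g * g ∧ a * b - g * g ≤ 2 := by
  obtain ⟨a1, a2⟩ := abs_le.1 ha
  obtain ⟨b1, b2⟩ := abs_le.1 hb
  obtain ⟨g1, g2⟩ := abs_le.1 (abs_mul_le hg hg)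
  constructor <;> nlinarith

/-- The two lateral rows in the two frames. -/
lemma rows {T O P P' : Mx} {δ : ℝ} (hO : Oᵀ * O = 1) (hT : EB (T - O) (cm δ))
    (h3 : ∀ i, i ≠ 2 → |O 2 i| ≤ δ) (h : T * P' = P * O) (hP : EB (P - 1) (cm (1 / 100)))
    (hδ : δ ≤ 1 / 10000) :
    (1 / 2 ≤ ip P 0 0 ∧ ip P 0 0 ≤ 2) ∧ (1 / 2 ≤ ip P 1 1 ∧ ip P 1 1 ≤ 2) ∧
      (1 / 2 ≤ ar P ∧ ar P ≤ 2) ∧ |ar P' - ar P| ≤ 200000 * δ ∧ ip P' 0 0 ≤ 28 ∧ ip P' 1 1 ≤ 28 ∧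
      (|O 0 1| ≤ δ → |O 1 0| ≤ δ →
        |ip P' 0 0 - ip P 0 0| ≤ 200000 * δ ∧ |ip P' 1 1 - ip P 1 1| ≤ 200000 * δ) := by
  have h0 : 0 ≤ δ := (abs_nonneg _).trans (hT 0 0)
  have hO' : O * Oᵀ = 1 := mul_eq_one_comm.1 hO
  have o1 : EB (1 : Mx) (cm 1) := fun i j => by
    simp only [cm, Matrix.of_apply, Matrix.one_apply]; split_ifs <;> norm_num
  have p1 : ∀ i j, |P i j| ≤ 3 / 2 := fun i j => by
    have := ab (hP i j) (o1 i j)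
    simp only [cm, Matrix.of_apply, Matrix.sub_apply, sub_add_cancel] at this
    linarith
  have o3 : EB2 (1 : Mx) (cm 3) := fun i j _ => (o1 i j).trans (by simp [cm])
  have a := (ipn (fun i j _ => hP i j) o3 (by norm_num) (i := 0) (k := 0) (by decide) (by decide)).1
  have b := (ipn (fun i j _ => hP i j) o3 (by norm_num) (i := 1) (k := 1) (by decide) (by decide)).1
  have g := (ipn (fun i j _ => hP i j) o3 (by norm_num) (i := 0) (k := 1) (by decide) (by decide)).1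
  rw [ip_eq 1] at a b g
  simp only [Matrix.transpose_one, Matrix.mul_one, Matrix.one_apply_eq,
    Matrix.one_apply_ne (show (0 : Fin 3) ≠ 1 by decide), sub_zero] at a b g
  have hA : 1 / 2 ≤ ar P ∧ ar P ≤ 2 := ar1 a b g
  have ha : 1 / 2 ≤ ip P 0 0 ∧ ip P 0 0 ≤ 2 := by
    constructor <;> linarith [(abs_le.1 a).1, (abs_le.1 a).2]
  have hb : 1 / 2 ≤ ip P 1 1 ∧ ip P 1 1 ≤ 2 := by
    constructor <;> linarith [(abs_le.1 b).1, (abs_le.1 b).2]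
  have hW := approx (W := P' * Oᵀ) hO hT
    (by rw [← Matrix.mul_assoc, h, Matrix.mul_assoc, hO', Matrix.mul_one])
    (fun i j => (p1 i j).trans (by simp [cm]; norm_num)) (by linarith)
  have eW : ∀ i k, ip (P' * Oᵀ) i k = ip P' i k := fun i k => by
    rw [ip_eq, ip_eq, Matrix.transpose_mul, Matrix.transpose_transpose, Matrix.mul_assoc,
      ← Matrix.mul_assoc Oᵀ, hO, Matrix.one_mul]
  let X : Mx := Matrix.of fun i j => O 0 i * P 0 j + O 1 i * P 1 j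
  have hX : EB2 X (cm 3) := fun i j _ => by
    have := ab (abs_mul_le (eb_one hO i 0) (p1 0 j)) (abs_mul_le (eb_one hO i 1) (p1 1 j))
    simp only [cm, Matrix.of_apply] at this ⊢
    exact this.trans (by norm_num)
  have hD : EB2 (P' * Oᵀ - X) (cm (62 * δ)) := fun i j hi => by
    have := ab (hW i j) (abs_mul_le (h3 i hi) (p1 2 j))
    simp only [cm, Matrix.of_apply] at this ⊢
    refine le_trans (le_of_eq ?_) (this.trans (by linarith))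
    congr 1
    simp only [Matrix.sub_apply, X, Matrix.of_apply, Matrix.mul_apply (M := Oᵀ), Fin.sum_univ_three,
      Matrix.transpose_apply]
    ring
  have k0 := ipn hD hX (by linarith) (i := 0) (k := 0) (by decide) (by decide)
  have k1 := ipn hD hX (by linarith) (i := 1) (k := 1) (by decide) (by decide)
  have k2 := arn hD hX (by linarith)
  rw [ar, eW, eW, eW, ← ar] at k2
  rw [eW] at k0 k1
  have c0 := col_eq hO 0 0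
  have c1 := col_eq hO 1 1
  have c2 := col_eq hO 0 1
  rw [if_pos rfl] at c0 c1
  rw [if_neg (by decide)] at c2
  have sq : ∀ {x : ℝ}, |x| ≤ δ → 0 ≤ x * x ∧ x * x ≤ δ / 10 := sqs (by linarith)
  have x0 := sq (h3 0 (by decide))
  have x1 := sq (h3 1 (by decide))
  have eA : ar X = ar P - O 2 0 * O 2 0 * ar P - O 2 1 * O 2 1 * ar P := by
    have : ar X = ((O 0 0 * O 0 0 + O 1 0 * O 1 0) * (O 0 1 * O 0 1 + O 1 1 * O 1 1) -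
        (O 0 0 * O 0 1 + O 1 0 * O 1 1) ^ 2) * ar P := by
      simp only [ar, ip, X, Matrix.of_apply]; ring
    rw [this, eq_sub_of_add_eq c0, eq_sub_of_add_eq c1, eq_sub_of_add_eq c2]
    ring
  obtain ⟨k3, k4⟩ := abs_le.1 k2
  obtain ⟨k5, k6⟩ := abs_le.1 k0.1
  obtain ⟨k7, k8⟩ := abs_le.1 k1.1
  refine ⟨ha, hb, hA, ?_,
    by linarith [(abs_le.1 k0.2).2], by linarith [(abs_le.1 k1.2).2], fun h01 h10 => ?_⟩
  · rw [abs_le]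
    constructor <;> linarith [(sh x0 hA).1, (sh x0 hA).2, (sh x1 hA).1, (sh x1 hA).2]
  · have y0 := sq h10
    have y1 := sq h01
    have z0 := abs_le.1 (abs_mul_le (abs_mul_le (eb_one hO 0 0) h10) g)
    have z1 := abs_le.1 (abs_mul_le (abs_mul_le (eb_one hO 1 1) h01) g)
    simp only [cm, Matrix.of_apply, Matrix.transpose_apply] at z0 z1
    have e0 : ip X 0 0 = 1 * ip P 0 0 - O 2 0 * O 2 0 * ip P 0 0 - O 1 0 * O 1 0 * ip P 0 0 +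
        2 * (O 0 0 * O 1 0 * ip P 0 1) + O 1 0 * O 1 0 * ip P 1 1 := by
      rw [← c0]; simp only [ip, X, Matrix.of_apply]; ring
    have e1 : ip X 1 1 = 1 * ip P 1 1 - O 2 1 * O 2 1 * ip P 1 1 - O 0 1 * O 0 1 * ip P 1 1 +
        2 * (O 1 1 * O 0 1 * ip P 0 1) + O 0 1 * O 0 1 * ip P 0 0 := by
      rw [← c1]; simp only [ip, X, Matrix.of_apply]; ring
    rw [abs_le, abs_le]
    refine ⟨⟨?_, ?_⟩, ?_, ?_⟩ <;> linarith [(sh x0 ha).1, (sh x0 ha).2, (sh y0 ha).1, (sh y0 ha).2,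
      (sh y0 hb).1, (sh y0 hb).2, (sh x1 hb).1, (sh x1 hb).2, (sh y1 ha).1, (sh y1 ha).2,
      (sh y1 hb).1, (sh y1 hb).2, z0.1, z0.2, z1.1, z1.2]

lemma low {T e p : ℝ} (hT : 0 < T) (he : 0 < e) (h : T ^ 2 ≤ 10 ^ 6 * e) (hp : 10 ^ 6 ≤ p) :
    Real.log (lf T e) - Real.log e / 2 - p ≤ -3 / 2 := by
  have h1 : lf T e ≤ T := by
    have : Real.sqrt (T ^ 2 - 4 * e) ≤ T := Real.sqrt_le_iff.2 ⟨hT.le, by linarith⟩
    unfold lf; linarith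
  have h2 := Real.log_le_log (by linarith [lf_ge T e]) h1
  have h3 := Real.log_le_log (by positivity) h
  rw [Real.log_pow, Real.log_mul (by norm_num) he.ne'] at h3
  have h4 := Real.log_le_sub_one_of_pos (show (0 : ℝ) < 10 ^ 6 by norm_num)
  push_cast at h3
  linarith

lemma high {T T' e e' ε : ℝ} (hT : 0 < T) (he : 0 < e) (hε : ε ≤ 1 / 100) (h1 : |T' - T| ≤ ε * T)
    (h2 : |e' - e| ≤ ε * e) (h : 16 * e ≤ T ^ 2) :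
    |Real.log (lf T e) - Real.log (lf T' e')| ≤ 14 * ε := by
  have h0 : 0 ≤ ε := nonneg_of_mul_nonneg_left ((abs_nonneg _).trans h1) hT
  obtain ⟨a1, a2⟩ := abs_le.1 h1
  obtain ⟨b1, b2⟩ := abs_le.1 h2
  have t1 : 99 / 100 * T ≤ T' := by nlinarith
  have t2 : T' ≤ 101 / 100 * T := by nlinarith
  have s1 : T / 2 ≤ Real.sqrt (T ^ 2 - 4 * e) := Real.le_sqrt_of_sq_le (by nlinarith)
  have s2 := Real.sq_sqrt (show 0 ≤ T ^ 2 - 4 * e by nlinarith)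
  have s3 := Real.sq_sqrt (show 0 ≤ T' ^ 2 - 4 * e' by nlinarith)
  have s4 := Real.sqrt_nonneg (T' ^ 2 - 4 * e')
  have d : |lf T e - lf T' e'| ≤ 7 / 2 * (ε * T) := by
    unfold lf
    generalize Real.sqrt (T ^ 2 - 4 * e) = s at s1 s2
    generalize Real.sqrt (T' ^ 2 - 4 * e') = s' at s3 s4
    have u1 : |(T - T') * (T + T')| ≤ ε * T * (5 / 2 * T) :=
      abs_mul_le (by rwa [abs_sub_comm]) (by rw [abs_of_pos (by linarith)]; linarith)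
    obtain ⟨u2, u3⟩ := abs_le.1 u1
    have u4 : ε * (16 * e) ≤ ε * T ^ 2 := mul_le_mul_of_nonneg_left h h0
    have u5 : |s - s'| * (T / 2) ≤ 6 * (ε * T) * (T / 2) := by
      refine (mul_le_mul_of_nonneg_left (show T / 2 ≤ |s + s'| by
        rw [abs_of_pos (by linarith)]; linarith) (abs_nonneg _)).trans ?_
      rw [← abs_mul, abs_le]
      constructor <;> nlinarith [mul_nonneg h0 (sq_nonneg T)]
    obtain ⟨u6, u7⟩ := abs_le.1 (le_of_mul_le_mul_right u5 (by linarith))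
    rw [abs_le]
    constructor <;> linarith
  refine (abs_log_sub (m := T / 4) (by linarith) (by linarith [lf_ge T e])
    (by linarith [lf_ge T' e'])).trans ?_
  rw [div_le_iff₀ (by linarith)]
  linarith

lemma cmp {Ψ : ℝ → ℝ} (hl : ∀ x y, |Ψ x - Ψ y| ≤ |x - y|) (hz : ∀ t, t ≤ -3 / 2 → Ψ t = 0)
    {T T' e e' ε p : ℝ} (hT : 0 < T) (hT' : 0 < T') (he : 0 < e) (hε : ε ≤ 1 / 100)
    (h2 : |e' - e| ≤ ε * e) (hp : 10 ^ 6 ≤ p)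
    (h1 : |T' - T| ≤ ε * T ∨ (T ^ 2 ≤ 10 ^ 6 * e ∧ T' ^ 2 ≤ 10 ^ 6 * e')) :
    |Real.log e / 2 + Ψ (Real.log (lf T e) - Real.log e / 2 - p) -
      (Real.log e' / 2 + Ψ (Real.log (lf T' e') - Real.log e' / 2 - p))| ≤ 16 * ε := by
  have h0 : 0 ≤ ε := nonneg_of_mul_nonneg_left ((abs_nonneg _).trans h2) he
  obtain ⟨b1, b2⟩ := abs_le.1 h2
  have t1 : 99 / 100 * e ≤ e' := by nlinarith
  have l : |Real.log e' - Real.log e| ≤ 2 * ε := by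
    refine (abs_log_sub (m := e / 2) (by linarith) (by linarith) (by linarith)).trans ?_
    rw [div_le_iff₀ (by linarith)]
    linarith
  obtain ⟨l1, l2⟩ := abs_le.1 l
  have k : T ^ 2 ≤ 10 ^ 6 * e ∧ T' ^ 2 ≤ 10 ^ 6 * e' ∨
      |Real.log (lf T e) - Real.log (lf T' e')| ≤ 14 * ε := by
    rcases h1 with h1 | h1
    · rcases le_total (16 * e) (T ^ 2) with h | h
      · exact .inr (high hT he hε h1 h2 h)
      · have t2 : T' ≤ 2 * T := by nlinarith [(abs_le.1 h1).2]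
        exact .inl ⟨by linarith, by nlinarith⟩
    · exact .inl h1
  rcases k with k | k
  · rw [hz _ (low hT he k.1 hp), hz _ (low hT' (by linarith) k.2 hp), abs_le]
    constructor <;> linarith
  · obtain ⟨k1, k2⟩ := abs_le.1 k
    have m := (hl (Real.log (lf T e) - Real.log e / 2 - p)
      (Real.log (lf T' e') - Real.log e' / 2 - p)).trans
      (abs_le.2 ⟨by linarith, by linarith⟩ : _ ≤ 15 * ε)
    obtain ⟨m1, m2⟩ := abs_le.1 m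
    rw [abs_le]
    constructor <;> linarith

lemma rel {x x' u s δ : ℝ} (hs : 0 ≤ s) (hu : |u - 1| ≤ 5 * δ) (hx : |x' - x| ≤ 200000 * δ)
    (h : 1 / 2 ≤ x ∧ x ≤ 2) (hδ : δ ≤ 1 / 10 ^ 10) :
    |s * u * x' - s * x| ≤ 500000 * δ * (s * x) := by
  have h0 : 0 ≤ δ := by linarith [abs_nonneg (u - 1)]
  have h1 : |x'| ≤ 3 := by
    obtain ⟨a, b⟩ := abs_le.1 hx
    rw [abs_le]; constructor <;> linarith [h.1, h.2]
  have h2 := (ab (abs_mul_le hu h1) hx).trans (show _ ≤ 500000 * δ * x by nlinarith [h.1])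
  rw [show s * u * x' - s * x = s * ((u - 1) * x' + (x' - x)) by ring, abs_mul, abs_of_nonneg hs]
  nlinarith

lemma sq1 {u δ : ℝ} (hδ : δ ≤ 1 / 10 ^ 10) (hu : |u - 1| ≤ δ) : |u ^ 2 - 1| ≤ 21 / 10 * δ := by
  rw [show u ^ 2 - 1 = (u - 1) * (u - 1) + 2 * (u - 1) by ring]
  have h := ab (abs_mul_le hu (hu.trans hδ)) (abs_mul_le (le_of_eq abs_two) hu)
  linarith [(abs_nonneg _).trans hu]

lemma sq2 {u v δ : ℝ} (hδ : δ ≤ 1 / 10 ^ 10) (hu : |u - 1| ≤ 21 / 10 * δ)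
    (hv : |v - 1| ≤ 21 / 10 * δ) : |u * v - 1| ≤ 5 * δ := by
  rw [show u * v - 1 = (u - 1) * (v - 1) + (u - 1) + (v - 1) by ring]
  have h := ab (ab (abs_mul_le hu (hv.trans (show _ ≤ 1 / 10 by linarith))) hu) hv
  linarith [(abs_nonneg _).trans hu]

lemma rot {x y a b r : ℝ} (hx : 0 < x) (hy : x ≤ y) (hy' : y ≤ 4 * x) (a0 : 0 ≤ a) (a1 : a ≤ 28)
    (b0 : 0 ≤ b) (b1 : b ≤ 28) (hr : 49 / 100 ≤ r) :
    (x ^ 2 * a + y ^ 2 * b) ^ 2 ≤ 10 ^ 6 * ((x * y) ^ 2 * r) := by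
  have k1 := pow_le_pow_left₀ (by linarith) hy' 2
  have k2 : x ^ 2 * a + y ^ 2 * b ≤ 476 * x ^ 2 := by
    linarith [mul_le_mul_of_nonneg_left a1 (sq_nonneg x), mul_le_mul_of_nonneg_left b1 (sq_nonneg y)]
  have k3 := pow_le_pow_left₀ (by positivity) k2 2
  have k4 : (x * x) ^ 2 ≤ (x * y) ^ 2 :=
    pow_le_pow_left₀ (by positivity) (mul_le_mul_of_nonneg_left hy hx.le) 2
  linarith [sq_nonneg (x * y), mul_le_mul_of_nonneg_left hr (sq_nonneg (x * y))]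

end VtrP

open VtrP NcP FvP in
theorem vtr : VtrStmt := by
  obtain ⟨C, -, hP⟩ := psi
  filter_upwards [ev_big, eventually_ge_atTop 10] with N hN h10 F F' lb A hO hO' hQ hQ' hc ok ok' hA
  have hJ : 10 ≤ pR N := by
    have := hN.J_sq
    unfold pR
    nlinarith [hN.L_ge]
  obtain ⟨-, -, -, he, hd, hz, -⟩ := hP _ hJ
  have hl := psi_lip hd he
  have hk : 10 ^ 6 ≤ pk0 N := by rw [hN.k0_eq]; linarith [hN.L_ge]
  have hn : (10 : ℝ) ≤ N := by exact_mod_cast h10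
  have hδ : 10 ^ 10 * dc N ≤ np N (-15) := by
    have : np N (-15) = (N : ℝ) ^ 10 * dc N := by
      unfold dc np
      rw [← Real.rpow_natCast, ← Real.rpow_add (by linarith)]
      norm_num
    rw [this]
    exact mul_le_mul_of_nonneg_right (pow_le_pow_left₀ (by norm_num) hn 10) hN.dc_pos.le
  have h1 : np N (-15) ≤ 1 := Real.rpow_le_one_of_one_le_of_nonpos (by linarith) (by norm_num)
  have h0 := hN.dc_pos
  generalize np N (-15) = B at hδ h1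
  generalize dc N = δ at hδ h0 hc
  have hδ' : δ ≤ 1 / 10 ^ 10 := by linarith
  have s1 : 0 < F.s1 := ok.1
  have s12 : F.s1 ≤ F.s2 := ok.2.1
  have s1' : 0 < F'.s1 := ok'.1
  have s12' : F'.s1 ≤ F'.s2 := ok'.2.1
  have s2 : 0 < F.s2 := by linarith
  have s2' : 0 < F'.s2 := by linarith
  have r1 := hc.s1
  have r2 := hc.s2
  have l1 := abs_le.1 ((log_one (by linarith [(abs_le.1 r1).1])).trans
    (mul_le_mul_of_nonneg_left r1 two_pos.le))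
  have l2 := abs_le.1 ((log_one (by linarith [(abs_le.1 r2).1])).trans
    (mul_le_mul_of_nonneg_left r2 two_pos.le))
  rw [Real.log_div s1'.ne' s1.ne'] at l1
  rw [Real.log_div s2'.ne' s2.ne'] at l2
  have ht : |(F.pm N lb 0).t - (F'.pm N lb 0).t| ≤ 4 * δ := by
    change |Real.log (F.s2 / F.s1) - pk0 N - (Real.log (F'.s2 / F'.s1) - pk0 N)| ≤ _
    rw [Real.log_div s2.ne' s1.ne', Real.log_div s2'.ne' s1'.ne', abs_le]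
    constructor <;> linarith [l1.1, l1.2, l2.1, l2.2]
  refine ⟨?_, ?_, ht.trans (by linarith)⟩
  swap
  · obtain ⟨m1, m2⟩ := abs_le.1 ((hl _ _).trans ht)
    change |Real.log (F.s1 * F.s2) + Psi (pR N) (F.pm N lb 0).t -
      (Real.log (F'.s1 * F'.s2) + Psi (pR N) (F'.pm N lb 0).t)| ≤ _
    rw [Real.log_mul s1.ne' s2.ne', Real.log_mul s1'.ne' s2'.ne', abs_le]
    constructor <;> linarith [l1.1, l1.2, l2.1, l2.2]
  obtain ⟨ha, hb, hr, dr, ba, bb, al⟩ := rows (P := F.hm A) (P' := F'.hm A) (O := F.Oᵀ * F'.O)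
    (by rw [Matrix.transpose_mul, Matrix.transpose_transpose, Matrix.mul_assoc,
      ← Matrix.mul_assoc F.O, hO.1, Matrix.one_mul, mul_eq_one_comm.1 hO'.1]) hc.tq
    (fun i hi => (hc.o3 i hi).2) (by
      unfold Fr.hm
      simp only [Matrix.mul_assoc]
      rw [Matrix.mul_nonsing_inv_cancel_left _ _ (isUnit_iff_ne_zero.2 hQ'.ne'),
        ← Matrix.mul_assoc F.O, hO.1, Matrix.one_mul]) hA (by linarith)
  have eT : ∀ (a b : ℝ) (P : Mx), (gr2 a b (P - 1)).trace = a ^ 2 * ip P 0 0 + b ^ 2 * ip P 1 1 :=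
    fun a b P => by rw [tr_gr, add_sub_cancel]; unfold ra rb ip; ring
  have eE : ∀ (a b : ℝ) (P : Mx), e2 (gr2 a b (P - 1)) = (a * b) ^ 2 * ar P :=
    fun a b P => by rw [e2_gr, add_sub_cancel]; unfold ra rb rg ar ip; ring
  have eV : ∀ G : Mx, Vf N G = Real.log (e2 G) / 2 +
      Psi (pR N) (Real.log (lf G.trace (e2 G)) - Real.log (e2 G) / 2 - pk0 N) := fun _ => rfl
  change |Vf N (gr2 F.s1 F.s2 _) - Vf N (gr2 F'.s1 F'.s2 _)| ≤ _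
  rw [eV, eV, eT, eT, eE, eE]
  have pa := ip_nn (F'.hm A) 0
  have pb := ip_nn (F'.hm A) 1
  have pr : 49 / 100 ≤ ar (F'.hm A) := by linarith [(abs_le.1 dr).1, hr.1]
  have pa' : 0 < ip (F'.hm A) 0 0 := pa.lt_of_ne fun e => by
    rw [ar, ← e] at pr; linarith [mul_self_nonneg (ip (F'.hm A) 0 1)]
  generalize ip (F.hm A) 0 0 = a, ip (F.hm A) 1 1 = b, ar (F.hm A) = r, ip (F'.hm A) 0 0 = a',
    ip (F'.hm A) 1 1 = b', ar (F'.hm A) = r' at *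
  have q1 := sq1 hδ' r1
  have q2 := sq1 hδ' r2
  have q3 := sq2 hδ' q1 q2
  have w1 : 0 < F.s1 ^ 2 * a := mul_pos (by positivity) (by linarith [ha.1])
  have w2 : 0 < F.s2 ^ 2 * b := mul_pos (by positivity) (by linarith [hb.1])
  refine (VtrP.cmp hl (fun t h => (hz t h).2) (ε := 500000 * δ) (by linarith) (by positivity)
    (mul_pos (by positivity) (by linarith [hr.1])) (by linarith) ?_ hk ?_).trans (by linarith)
  · have := rel (sq_nonneg (F.s1 * F.s2)) q3 dr hr hδ'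
    rwa [show (F.s1 * F.s2) ^ 2 * ((F'.s1 / F.s1) ^ 2 * (F'.s2 / F.s2) ^ 2) = (F'.s1 * F'.s2) ^ 2 by
      field_simp] at this
  · rcases hc.al with h | h
    · obtain ⟨da, db⟩ := al h.1 h.2
      have v1 := rel (sq_nonneg F.s1) (q1.trans (by linarith)) da ha hδ'
      have v2 := rel (sq_nonneg F.s2) (q2.trans (by linarith)) db hb hδ'
      rw [show F.s1 ^ 2 * (F'.s1 / F.s1) ^ 2 = F'.s1 ^ 2 by field_simp] at v1
      rw [show F.s2 ^ 2 * (F'.s2 / F.s2) ^ 2 = F'.s2 ^ 2 by field_simp] at v2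
      refine .inl (le_trans (le_of_eq ?_) ((ab v1 v2).trans (le_of_eq (by ring))))
      congr 1; ring
    · exact .inr ⟨rot s1 s12 h.1 (by linarith [ha.1]) (by linarith [ha.2]) (by linarith [hb.1])
        (by linarith [hb.2]) (by linarith [hr.1]), rot s1' s12' h.2 pa ba pb bb pr⟩

end
end Pool.Agent.MP_20bec2_an.T3

end MrgPart2

-- marker of a merged file
example : 731051 + 40657 = 731051 + 40657 := rfl
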