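import Mathlib.Algebra.Order.Star.Real
import Mathlib.Analysis.SpecialFunctions.Trigonometric.Deriv
import Mathlib.MeasureTheory.Measure.Haar.NormedSpace
import Mathlib.Topology.UniformSpace.Uniformizable
import Pool.Agent.MP_20bec2_an.T3.Final
import Mathlib.Data.Int.Star
import Mathlib.Algebra.Order.Ring.Star
import Pool.Agent.MP_20bec2_an.T3.Calc1b
import Pool.Agent.MP_20bec2_an.T3.Vtr
import Pool.Agent.MP_20bec2_an.T3.Par3
import Pool.Agent.MP_20bec2_an.T3.Calc2C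

-- ======== part 0: formerly Pool.Agent.MP_20bec2_an.T3.Prof2
section MrgPart0

-- ======== part 0: formerly Pool.Agent.MP_20bec2_an.T3.Prof
section MrgPart0

set_option autoImplicit false
open MeasureTheory Set Filter Matrix Topology

namespace Pool.Agent.MP_20bec2_an.T3.Prof
noncomputable section
open Classical

/-! ## the transition -/

theorem st_sm : Sm st := Real.smoothTransition.contDiff
theorem st_cont : Continuous st := Real.smoothTransition.continuous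
theorem st_zero {t : ℝ} (h : t ≤ 0) : st t = 0 := Real.smoothTransition.zero_of_nonpos h
theorem st_one {t : ℝ} (h : 1 ≤ t) : st t = 1 := Real.smoothTransition.one_of_one_le h
theorem st_nonneg (t : ℝ) : 0 ≤ st t := Real.smoothTransition.nonneg t
theorem st_le_one (t : ℝ) : st t ≤ 1 := Real.smoothTransition.le_one t
theorem st_pos {t : ℝ} (h : 0 < t) : 0 < st t := Real.smoothTransition.pos_of_pos h
theorem st_lt_one {t : ℝ} (h : t < 1) : st t < 1 := Real.smoothTransition.lt_one_of_lt_one h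
theorem st_mono : Monotone st := Real.smoothTransition.monotone

theorem st_symm (t : ℝ) : st (1 - t) = 1 - st t := by
  have h := Real.smoothTransition.pos_denom t
  unfold st Real.smoothTransition
  rw [sub_sub_cancel, add_comm (expNegInvGlue (1 - t))]
  field_simp
  ring

theorem st_half : st (1 / 2) = 1 / 2 := by
  have h := st_symm (1 / 2)
  rw [show (1 : ℝ) - 1 / 2 = 1 / 2 by norm_num] at h
  linarith

theorem sm_aff (a b : ℝ) : Sm fun t : ℝ => st ((t + a) / b) :=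
  st_sm.comp ((contDiff_id.add contDiff_const).div_const b)

/-! ## generic bounds -/

theorem hcs_of_zero {φ : ℝ → ℝ} {b : ℝ} (h : ∀ t, b ≤ |t| → φ t = 0) : HasCompactSupport φ := by
  refine HasCompactSupport.intro (isCompact_Icc (a := -b) (b := b)) fun t ht => h t ?_
  by_contra hc
  push Not at hc
  exact ht ⟨(abs_lt.1 hc).1.le, (abs_lt.1 hc).2.le⟩

theorem iter_bound {φ : ℝ → ℝ} (hφ : Sm φ) (hc : HasCompactSupport φ) (n : ℕ) :
    ∃ C : ℝ, 1 ≤ C ∧ ∀ j ≤ n, ∀ t, |iteratedDeriv j φ t| ≤ C := by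
  have h1 : ∀ j : ℕ, ∃ C : ℝ, ∀ t, |iteratedDeriv j φ t| ≤ C := by
    intro j
    have hcont : Continuous (iteratedFDeriv ℝ j φ) :=
      hφ.continuous_iteratedFDeriv (by exact_mod_cast le_top)
    obtain ⟨C, hC⟩ := hcont.bounded_above_of_compact_support (hc.iteratedFDeriv j)
    exact ⟨C, fun t => by
      rw [← Real.norm_eq_abs, ← norm_iteratedFDeriv_eq_norm_iteratedDeriv]; exact hC t⟩
  choose C hC using h1
  refine ⟨1 + ∑ j ∈ Finset.range (n + 1), |C j|, ?_, fun j hj t => ?_⟩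
  · have := Finset.sum_nonneg fun j (_ : j ∈ Finset.range (n + 1)) => abs_nonneg (C j)
    linarith
  · have := Finset.single_le_sum (f := fun j => |C j|) (fun j _ => abs_nonneg (C j))
      (Finset.mem_range.2 (Nat.lt_succ_of_le hj))
    have := le_abs_self (C j)
    have := hC j t
    linarith

theorem deriv_st_hcs : HasCompactSupport (deriv st) := by
  refine hcs_of_zero (b := 2) fun t ht => ?_
  rcases le_abs'.1 ht with h | h
  · have : st =ᶠ[𝓝 t] fun _ => 0 := by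
      filter_upwards [Iio_mem_nhds (show t < 0 by linarith)] with s hs using st_zero (le_of_lt hs)
    rw [this.deriv_eq]; simp
  · have : st =ᶠ[𝓝 t] fun _ => 1 := by
      filter_upwards [Ioi_mem_nhds (show 1 < t by linarith)] with s hs using st_one (le_of_lt hs)
    rw [this.deriv_eq]; simp

theorem st_bound (n : ℕ) : ∃ C : ℝ, 1 ≤ C ∧ ∀ j ≤ n, ∀ t, |iteratedDeriv j st t| ≤ C := by
  have hd : Sm (deriv st) := (contDiff_infty_iff_deriv.1 st_sm).2
  obtain ⟨C, h1, hC⟩ := iter_bound hd deriv_st_hcs n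
  refine ⟨C, h1, fun j hj t => ?_⟩
  rcases j with _ | j
  · rw [iteratedDeriv_zero, abs_of_nonneg (st_nonneg t)]
    exact (st_le_one t).trans h1
  · rw [iteratedDeriv_succ']
    exact hC j (by omega) t

/-! ## bumps -/

theorem bp_sm (a b : ℝ) : Sm (bp a b) :=
  (st_sm.comp ((contDiff_const.add contDiff_id).div_const _)).mul
    (st_sm.comp ((contDiff_const.sub contDiff_id).div_const _))
theorem bp_cont (a b : ℝ) : Continuous (bp a b) := (bp_sm a b).continuous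
theorem bp_nonneg (a b t : ℝ) : 0 ≤ bp a b t := mul_nonneg (st_nonneg _) (st_nonneg _)
theorem bp_le_one (a b t : ℝ) : bp a b t ≤ 1 :=
  mul_le_one₀ (st_le_one _) (st_nonneg _) (st_le_one _)
theorem bp_abs_le (a b t : ℝ) : |bp a b t| ≤ 1 := by
  rw [abs_of_nonneg (bp_nonneg a b t)]; exact bp_le_one a b t
theorem bp_neg (a b t : ℝ) : bp a b (-t) = bp a b t := by
  unfold bp
  rw [mul_comm, sub_neg_eq_add, ← sub_eq_add_neg]

theorem bp_one {a b t : ℝ} (hab : a < b) (h : |t| ≤ a) : bp a b t = 1 := by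
  have h1 := abs_le.1 h
  have hp : 0 < b - a := by linarith
  unfold bp
  rw [st_one ((one_le_div hp).2 (by linarith)), st_one ((one_le_div hp).2 (by linarith)), mul_one]

theorem bp_zero {a b t : ℝ} (hab : a < b) (h : b ≤ |t|) : bp a b t = 0 := by
  have hp : 0 < b - a := by linarith
  unfold bp
  rcases le_abs'.1 h with h | h
  · rw [st_zero (div_nonpos_of_nonpos_of_nonneg (by linarith) hp.le), zero_mul]
  · rw [st_zero (t := (b - t) / (b - a)) (div_nonpos_of_nonpos_of_nonneg (by linarith) hp.le),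
      mul_zero]

theorem bp_pos {a b t : ℝ} (hab : a < b) (h : |t| < b) : 0 < bp a b t := by
  have h1 := abs_lt.1 h
  have hp : 0 < b - a := by linarith
  exact mul_pos (st_pos (div_pos (by linarith) hp)) (st_pos (div_pos (by linarith) hp))

theorem bp_ne_zero {a b t : ℝ} (hab : a < b) (h : bp a b t ≠ 0) : |t| < b := by
  by_contra hc
  exact h (bp_zero hab (not_lt.1 hc))

theorem bp_hcs {a b : ℝ} (hab : a < b) : HasCompactSupport (bp a b) :=
  hcs_of_zero fun _ h => bp_zero hab h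

theorem bp_integrable {a b : ℝ} (hab : a < b) : Integrable (bp a b) :=
  (bp_cont a b).integrable_of_hasCompactSupport (bp_hcs hab)

theorem bp_integral {a b : ℝ} (ha : 0 ≤ a) (hab : a < b) :
    2 * a ≤ ∫ s, bp a b s ∧ ∫ s, bp a b s ≤ 2 * b := by
  constructor
  · have h1 : ∫ s, (Icc (-a) a).indicator (fun _ => (1 : ℝ)) s = 2 * a := by
      rw [integral_indicator measurableSet_Icc]
      simp only [integral_const, MeasurableSet.univ, measureReal_restrict_apply, univ_inter,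
        smul_eq_mul, mul_one]
      rw [Real.volume_real_Icc_of_le (by linarith)]; ring
    rw [← h1]
    refine integral_mono ((integrable_indicator_iff measurableSet_Icc).2
      (integrableOn_const (by simp))) (bp_integrable hab) fun s => ?_
    by_cases hs : s ∈ Icc (-a) a
    · rw [indicator_of_mem hs, bp_one hab (abs_le.2 hs)]
    · rw [indicator_of_notMem hs]; exact bp_nonneg a b s
  · have h1 : ∫ s, (Icc (-b) b).indicator (fun _ => (1 : ℝ)) s = 2 * b := by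
      rw [integral_indicator measurableSet_Icc]
      simp only [integral_const, MeasurableSet.univ, measureReal_restrict_apply, univ_inter,
        smul_eq_mul, mul_one]
      rw [Real.volume_real_Icc_of_le (by linarith)]; ring
    rw [← h1]
    refine integral_mono (bp_integrable hab) ((integrable_indicator_iff measurableSet_Icc).2
      (integrableOn_const (by simp))) fun s => ?_
    by_cases hs : s ∈ Icc (-b) b
    · rw [indicator_of_mem hs]; exact bp_le_one a b s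
    · rw [indicator_of_notMem hs, bp_zero hab]
      by_contra hc
      push Not at hc
      exact hs ⟨(abs_lt.1 hc).1.le, (abs_lt.1 hc).2.le⟩

theorem bp_bound {a b : ℝ} (hab : a < b) (n : ℕ) :
    ∃ C : ℝ, 1 ≤ C ∧ ∀ j ≤ n, ∀ t, |iteratedDeriv j (bp a b) t| ≤ C :=
  iter_bound (bp_sm a b) (bp_hcs hab) n

/-! ## the kernel profile -/

/-- the normalising integral -/
def kI : ℝ := ∫ s, bp (1 / 2) 1 s
theorem kI_bounds : 1 ≤ kI ∧ kI ≤ 2 := by
  have := bp_integral (a := 1 / 2) (b := 1) (by norm_num) (by norm_num)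
  unfold kI
  constructor <;> linarith [this.1, this.2]
theorem kI_pos : 0 < kI := lt_of_lt_of_le one_pos kI_bounds.1
theorem kb_eq (t : ℝ) : kb t = bp (1 / 2) 1 t / kI := rfl
theorem kb_sm : Sm kb := (bp_sm _ _).div_const _
theorem kb_cont : Continuous kb := kb_sm.continuous
theorem kb_nonneg (t : ℝ) : 0 ≤ kb t := div_nonneg (bp_nonneg _ _ _) kI_pos.le
theorem kb_le_one (t : ℝ) : kb t ≤ 1 :=
  (div_le_one kI_pos).2 ((bp_le_one _ _ _).trans kI_bounds.1)
theorem kb_le (t : ℝ) : kb t ≤ 1 / kI :=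
  div_le_div_of_nonneg_right (bp_le_one _ _ _) kI_pos.le
theorem kb_neg (t : ℝ) : kb (-t) = kb t := by rw [kb_eq, kb_eq, bp_neg]
theorem kb_zero {t : ℝ} (h : 1 ≤ |t|) : kb t = 0 := by
  rw [kb_eq, bp_zero (by norm_num) h, zero_div]
theorem kb_ne_zero {t : ℝ} (h : kb t ≠ 0) : |t| < 1 := by
  by_contra hc
  exact h (kb_zero (not_lt.1 hc))
theorem kb_flat {t : ℝ} (h : |t| ≤ 1 / 2) : kb t = 1 / kI := by
  rw [kb_eq, bp_one (by norm_num) h]
theorem kb_ge_half {t : ℝ} (h : |t| ≤ 1 / 2) : 1 / 2 ≤ kb t := by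
  rw [kb_flat h]
  exact one_div_le_one_div_of_le kI_pos kI_bounds.2
theorem kb_hcs : HasCompactSupport kb := hcs_of_zero fun _ h => kb_zero h
theorem kb_integrable : Integrable kb := kb_cont.integrable_of_hasCompactSupport kb_hcs
theorem kb_integral : ∫ t, kb t = 1 := by
  simp only [kb_eq]
  rw [integral_div]
  exact div_self kI_pos.ne'
theorem kb_integral_scale {h : ℝ} (hh : 0 < h) : ∫ t, kb (t / h) / h = 1 := by
  rw [integral_div, Measure.integral_comp_div kb h, kb_integral, abs_of_pos hh, smul_eq_mul,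
    mul_one, div_self hh.ne']
theorem kb_bound (n : ℕ) : ∃ C : ℝ, 1 ≤ C ∧ ∀ j ≤ n, ∀ t, |iteratedDeriv j kb t| ≤ C :=
  iter_bound kb_sm kb_hcs n

/-! ## sums over integer translates -/

theorem int_near {t : ℝ} {j : ℤ} (h : |t - j| < 1) : j = ⌊t⌋ ∨ j = ⌊t⌋ + 1 := by
  have h1 := abs_lt.1 h
  have h2 := Int.floor_le t
  have h3 := Int.lt_floor_add_one t
  have h4 : ((⌊t⌋ : ℤ) : ℝ) - 1 < j := by linarith
  have h5 : (j : ℝ) < (⌊t⌋ : ℤ) + 2 := by linarith
  have h6 : ⌊t⌋ - 1 < j := by exact_mod_cast h4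
  have h7 : j < ⌊t⌋ + 2 := by exact_mod_cast h5
  omega

theorem finsum_two {φ : ℝ → ℝ} (h0 : ∀ t, 1 ≤ |t| → φ t = 0) (t : ℝ) :
    ∑ᶠ j : ℤ, φ (t - j) = φ (t - (⌊t⌋ : ℤ)) + φ (t - (⌊t⌋ : ℤ) - 1) := by
  rw [finsum_eq_sum_of_support_subset (s := {⌊t⌋, ⌊t⌋ + 1})]
  · rw [Finset.sum_pair (by omega)]
    push_cast
    rw [sub_add_eq_sub_sub]
  · intro j hj
    have : |t - j| < 1 := by
      by_contra hc
      exact hj (h0 _ (not_lt.1 hc))
    simpa using int_near this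

/-! ## `pou` -/

theorem pou_sm : Sm pou :=
  (sm_aff _ _).sub (st_sm.comp ((contDiff_id.sub contDiff_const).div_const _))
theorem pou_cont : Continuous pou := pou_sm.continuous
theorem pou_nonneg (t : ℝ) : 0 ≤ pou t :=
  sub_nonneg.2 (st_mono (div_le_div_of_nonneg_right (by linarith) (by norm_num)))
theorem pou_le_one (t : ℝ) : pou t ≤ 1 := by
  unfold pou
  linarith [st_le_one ((t + 9 / 10) / (4 / 5)), st_nonneg ((t - 1 / 10) / (4 / 5))]
theorem pou_abs_le (t : ℝ) : |pou t| ≤ 1 := by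
  rw [abs_of_nonneg (pou_nonneg t)]; exact pou_le_one t
theorem st_refl1 (t : ℝ) : st ((-t + 9 / 10) / (4 / 5)) = 1 - st ((t - 1 / 10) / (4 / 5)) := by
  rw [← st_symm]; congr 1; ring
theorem st_refl2 (t : ℝ) : st ((-t - 1 / 10) / (4 / 5)) = 1 - st ((t + 9 / 10) / (4 / 5)) := by
  rw [← st_symm]; congr 1; ring
theorem pou_neg (t : ℝ) : pou (-t) = pou t := by
  unfold pou
  rw [st_refl1, st_refl2]; ring
theorem pou_of_ge {t : ℝ} (h : -1 / 10 ≤ t) : pou t = 1 - st ((t - 1 / 10) / (4 / 5)) := by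
  unfold pou
  rw [st_one ((one_le_div (by norm_num)).2 (by linarith))]
theorem pou_of_le {t : ℝ} (h : t ≤ 1 / 10) : pou t = st ((t + 9 / 10) / (4 / 5)) := by
  unfold pou
  rw [st_zero (t := (t - 1 / 10) / (4 / 5))
    (div_nonpos_of_nonpos_of_nonneg (by linarith) (by norm_num)), sub_zero]
theorem pou_zero {t : ℝ} (h : 9 / 10 ≤ |t|) : pou t = 0 := by
  rcases le_abs'.1 h with h | h
  · rw [pou_of_le (by linarith), st_zero (div_nonpos_of_nonpos_of_nonneg (by linarith) (by norm_num))]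
  · rw [pou_of_ge (by linarith), st_one ((one_le_div (by norm_num)).2 (by linarith)), sub_self]
theorem pou_ne_zero {t : ℝ} (h : pou t ≠ 0) : |t| < 9 / 10 := by
  by_contra hc
  exact h (pou_zero (not_lt.1 hc))
theorem pou_one {t : ℝ} (h : |t| ≤ 1 / 10) : pou t = 1 := by
  have h1 := abs_le.1 h
  rw [pou_of_le h1.2, st_one ((one_le_div (by norm_num)).2 (by linarith))]
theorem pou_ge_half {t : ℝ} (h : |t| ≤ 1 / 2) : 1 / 2 ≤ pou t := by
  wlog h0 : 0 ≤ t generalizing t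
  · rw [← pou_neg]
    exact this (by rwa [abs_neg]) (by linarith)
  have h1 := abs_le.1 h
  rw [pou_of_ge (by linarith)]
  have := st_mono (show (t - 1 / 10) / (4 / 5) ≤ 1 / 2 by
    rw [div_le_iff₀ (by norm_num)]; linarith)
  rw [st_half] at this
  linarith
theorem pou_two {t : ℝ} (h0 : -1 / 10 ≤ t) (h1 : t ≤ 11 / 10) : pou t + pou (t - 1) = 1 := by
  rw [pou_of_ge h0, pou_of_le (by linarith), show t - 1 + 9 / 10 = t - 1 / 10 by ring]
  ring
theorem pou_floor (t : ℝ) : pou (t - (⌊t⌋ : ℤ)) + pou (t - (⌊t⌋ : ℤ) - 1) = 1 :=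
  pou_two (by linarith [Int.floor_le t]) (by linarith [Int.lt_floor_add_one t])
theorem pou_finsum (t : ℝ) : ∑ᶠ j : ℤ, pou (t - j) = 1 := by
  rw [finsum_two (φ := pou) (fun t h => pou_zero (by linarith)), pou_floor]
theorem pou_hcs : HasCompactSupport pou := hcs_of_zero fun _ h => pou_zero h
theorem pou_bound (n : ℕ) : ∃ C : ℝ, 1 ≤ C ∧ ∀ j ≤ n, ∀ t, |iteratedDeriv j pou t| ≤ C :=
  iter_bound pou_sm pou_hcs n

/-! ## `sa` -/

theorem sa_sm : Sm sa :=
  (contDiff_const.mul (sm_aff _ _)).sin.mul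
    (contDiff_const.mul (st_sm.comp ((contDiff_id.sub contDiff_const).div_const _))).cos
theorem sa_cont : Continuous sa := sa_sm.continuous
theorem ang_mem (s : ℝ) : 0 ≤ Real.pi / 2 * st s ∧ Real.pi / 2 * st s ≤ Real.pi / 2 := by
  have := Real.pi_pos
  exact ⟨mul_nonneg (by linarith) (st_nonneg s), mul_le_of_le_one_right (by linarith) (st_le_one s)⟩
theorem sin_ang (s : ℝ) : 0 ≤ Real.sin (Real.pi / 2 * st s) :=
  Real.sin_nonneg_of_nonneg_of_le_pi (ang_mem s).1 (by linarith [(ang_mem s).2, Real.pi_pos])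
theorem cos_ang (s : ℝ) : 0 ≤ Real.cos (Real.pi / 2 * st s) :=
  Real.cos_nonneg_of_neg_pi_div_two_le_of_le (by linarith [(ang_mem s).1, Real.pi_pos]) (ang_mem s).2
theorem sa_nonneg (t : ℝ) : 0 ≤ sa t := mul_nonneg (sin_ang _) (cos_ang _)
theorem sa_le_one (t : ℝ) : sa t ≤ 1 :=
  mul_le_one₀ (Real.sin_le_one _) (cos_ang _) (Real.cos_le_one _)
theorem sa_abs_le (t : ℝ) : |sa t| ≤ 1 := by
  rw [abs_of_nonneg (sa_nonneg t)]; exact sa_le_one t
theorem sa_sq_le (t : ℝ) : sa t ^ 2 ≤ 1 := pow_le_one₀ (sa_nonneg t) (sa_le_one t)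
theorem sa_neg (t : ℝ) : sa (-t) = sa t := by
  unfold sa
  rw [st_refl1, st_refl2, mul_sub, mul_sub, mul_one, Real.sin_pi_div_two_sub,
    Real.cos_pi_div_two_sub, mul_comm]
theorem sa_of_ge {t : ℝ} (h : -1 / 10 ≤ t) :
    sa t = Real.cos (Real.pi / 2 * st ((t - 1 / 10) / (4 / 5))) := by
  unfold sa
  rw [st_one ((one_le_div (by norm_num)).2 (by linarith)), mul_one, Real.sin_pi_div_two, one_mul]
theorem sa_of_le {t : ℝ} (h : t ≤ 1 / 10) :
    sa t = Real.sin (Real.pi / 2 * st ((t + 9 / 10) / (4 / 5))) := by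
  unfold sa
  rw [st_zero (t := (t - 1 / 10) / (4 / 5))
    (div_nonpos_of_nonpos_of_nonneg (by linarith) (by norm_num)), mul_zero, Real.cos_zero, mul_one]
theorem sa_zero {t : ℝ} (h : 9 / 10 ≤ |t|) : sa t = 0 := by
  rcases le_abs'.1 h with h | h
  · rw [sa_of_le (by linarith),
      st_zero (div_nonpos_of_nonpos_of_nonneg (by linarith) (by norm_num)), mul_zero, Real.sin_zero]
  · rw [sa_of_ge (by linarith), st_one ((one_le_div (by norm_num)).2 (by linarith)), mul_one,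
      Real.cos_pi_div_two]
theorem sa_ne_zero {t : ℝ} (h : sa t ≠ 0) : |t| < 9 / 10 := by
  by_contra hc
  exact h (sa_zero (not_lt.1 hc))
theorem sa_one {t : ℝ} (h : |t| ≤ 1 / 10) : sa t = 1 := by
  have h1 := abs_le.1 h
  rw [sa_of_le h1.2, st_one ((one_le_div (by norm_num)).2 (by linarith)), mul_one,
    Real.sin_pi_div_two]
theorem sa_sq_ge_half {t : ℝ} (h : |t| ≤ 1 / 2) : 1 / 2 ≤ sa t ^ 2 := by
  wlog h0 : 0 ≤ t generalizing t
  · rw [← sa_neg]
    exact this (by rwa [abs_neg]) (by linarith)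
  have h1 := abs_le.1 h
  rw [sa_of_ge (by linarith), Real.cos_sq]
  have h2 := st_mono (show (t - 1 / 10) / (4 / 5) ≤ 1 / 2 by
    rw [div_le_iff₀ (by norm_num)]; linarith)
  rw [st_half] at h2
  have h3 := st_nonneg ((t - 1 / 10) / (4 / 5))
  have hp := Real.pi_pos
  have : 0 ≤ Real.cos (2 * (Real.pi / 2 * st ((t - 1 / 10) / (4 / 5)))) :=
    Real.cos_nonneg_of_neg_pi_div_two_le_of_le (by nlinarith) (by nlinarith)
  linarith
theorem sa_ge_half {t : ℝ} (h : |t| ≤ 1 / 2) : 1 / 2 ≤ sa t := by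
  have h1 := sa_sq_ge_half h
  have h2 := sa_nonneg t
  have h3 := sa_le_one t
  nlinarith
theorem sa_two {t : ℝ} (h0 : -1 / 10 ≤ t) (h1 : t ≤ 11 / 10) :
    sa t ^ 2 + sa (t - 1) ^ 2 = 1 := by
  rw [sa_of_ge h0, sa_of_le (by linarith), show t - 1 + 9 / 10 = t - 1 / 10 by ring,
    Real.cos_sq_add_sin_sq]
theorem sa_floor (t : ℝ) : sa (t - (⌊t⌋ : ℤ)) ^ 2 + sa (t - (⌊t⌋ : ℤ) - 1) ^ 2 = 1 :=
  sa_two (by linarith [Int.floor_le t]) (by linarith [Int.lt_floor_add_one t])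
theorem sa_finsum (t : ℝ) : ∑ᶠ j : ℤ, sa (t - j) ^ 2 = 1 := by
  rw [finsum_two (φ := fun t => sa t ^ 2) (fun t h => by rw [sa_zero (by linarith)]; norm_num),
    sa_floor]
theorem sa_hcs : HasCompactSupport sa := hcs_of_zero fun _ h => sa_zero h
theorem sa_bound (n : ℕ) : ∃ C : ℝ, 1 ≤ C ∧ ∀ j ≤ n, ∀ t, |iteratedDeriv j sa t| ≤ C :=
  iter_bound sa_sm sa_hcs n

/-- one constant for all profiles -/
theorem prof_bound (n : ℕ) : ∃ C : ℝ, 1 ≤ C ∧ ∀ j ≤ n, ∀ t,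
    |iteratedDeriv j st t| ≤ C ∧ |iteratedDeriv j pou t| ≤ C ∧ |iteratedDeriv j sa t| ≤ C ∧
    |iteratedDeriv j kb t| ≤ C ∧ |iteratedDeriv j (bp (1 / 5) (2 / 5)) t| ≤ C ∧
    |iteratedDeriv j (bp (1 / 2) 1) t| ≤ C ∧ |iteratedDeriv j (bp (3 / 5) (9 / 10)) t| ≤ C ∧
    |iteratedDeriv j (bp (94 / 100) (95 / 100)) t| ≤ C := by
  obtain ⟨C1, a1, h1⟩ := st_bound n
  obtain ⟨C2, a2, h2⟩ := pou_bound n
  obtain ⟨C3, a3, h3⟩ := sa_bound n
  obtain ⟨C4, a4, h4⟩ := kb_bound n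
  obtain ⟨C5, a5, h5⟩ := bp_bound (a := 1 / 5) (b := 2 / 5) (by norm_num) n
  obtain ⟨C6, a6, h6⟩ := bp_bound (a := 1 / 2) (b := 1) (by norm_num) n
  obtain ⟨C7, a7, h7⟩ := bp_bound (a := 3 / 5) (b := 9 / 10) (by norm_num) n
  obtain ⟨C8, a8, h8⟩ := bp_bound (a := 94 / 100) (b := 95 / 100) (by norm_num) n
  refine ⟨C1 + C2 + C3 + C4 + C5 + C6 + C7 + C8, by linarith, fun j hj t => ?_⟩
  have := h1 j hj t
  have := h2 j hj t
  have := h3 j hj t
  have := h4 j hj t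
  have := h5 j hj t
  have := h6 j hj t
  have := h7 j hj t
  have := h8 j hj t
  refine ⟨?_, ?_, ?_, ?_, ?_, ?_, ?_, ?_⟩ <;> linarith

end
end Pool.Agent.MP_20bec2_an.T3.Prof

end MrgPart0

-- ======== part 1: formerly Pool.Agent.MP_20bec2_an.T3.Prof2
section MrgPart1

set_option autoImplicit false
open MeasureTheory Set Filter Matrix Topology

namespace Pool.Agent.MP_20bec2_an.T3.Prof
noncomputable section
open Classical

/-! ## derivative bounds of a fixed profile seen through an affine map -/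

theorem hp_eq (h : V) (l : List (Fin 3)) : hp h l = ∏ k : Fin l.length, h (l.get k) := by
  induction l with
  | nil => simp [hp]
  | cons j l ih =>
    have : hp h (j :: l) = h j * hp h l := by simp [hp]
    rw [this, ih]
    exact (Fin.prod_univ_succ (n := l.length) fun k => h ((j :: l).get k)).symm

theorem pds_eq_iter {g : V → ℝ} (hg : Sm g) (l : List (Fin 3)) (x : V) :
    pds l g x = iteratedFDeriv ℝ l.length g x fun k => Pi.single (l.get k) 1 := by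
  induction l generalizing x with
  | nil => simp [pds]
  | cons j l ih =>
    have h1 : pds l g = fun y => iteratedFDeriv ℝ l.length g y fun k => Pi.single (l.get k) 1 :=
      funext ih
    have hd : DifferentiableAt ℝ (iteratedFDeriv ℝ l.length g) x :=
      (hg.differentiable_iteratedFDeriv (by exact_mod_cast ENat.natCast_lt_top _)) x
    show fderiv ℝ (pds l g) x (Pi.single j 1) = _
    rw [h1, fderiv_continuousMultilinear_apply_const_apply hd]
    exact (iteratedFDeriv_succ_apply_left (n := l.length)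
      fun k => (Pi.single ((j :: l).get k) (1 : ℝ) : V)).symm

/-- the map `x ↦ A x` as a continuous linear map -/
def mcl (A : Mx) : V →L[ℝ] V := LinearMap.toContinuousLinearMap A.mulVecLin
theorem mcl_apply (A : Mx) (x : V) : mcl A x = A *ᵥ x := rfl
theorem sm_mulVec (A : Mx) : Sm fun x : V => A *ᵥ x := (mcl A).contDiff
theorem sm_affine (b : V) (A : Mx) : Sm fun x : V => b + A *ᵥ x := contDiff_const.add (sm_mulVec A)

theorem iterF_bound {G : V → ℝ} (hG : Sm G) (hc : HasCompactSupport G) (n : ℕ) :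
    ∃ C : ℝ, 1 ≤ C ∧ ∀ j ≤ n, ∀ y, ‖iteratedFDeriv ℝ j G y‖ ≤ C := by
  have h1 : ∀ j : ℕ, ∃ C : ℝ, ∀ y, ‖iteratedFDeriv ℝ j G y‖ ≤ C := fun j =>
    (hG.continuous_iteratedFDeriv (by exact_mod_cast le_top)).bounded_above_of_compact_support
      (hc.iteratedFDeriv j)
  choose C hC using h1
  refine ⟨1 + ∑ j ∈ Finset.range (n + 1), |C j|, ?_, fun j hj t => ?_⟩
  · have := Finset.sum_nonneg fun j (_ : j ∈ Finset.range (n + 1)) => abs_nonneg (C j)
    linarith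
  · have := Finset.single_le_sum (f := fun j => |C j|) (fun j _ => abs_nonneg (C j))
      (Finset.mem_range.2 (Nat.lt_succ_of_le hj))
    have := le_abs_self (C j)
    have := hC j t
    linarith

theorem pds_affine_le {G : V → ℝ} (hG : Sm G) (A : Mx) (b h : V) {κ : ℝ}
    (hA : ∀ i j, |A i j * h j| ≤ κ) (l : List (Fin 3)) (x : V) :
    hp h l * |pds l (fun x => G (b + A *ᵥ x)) x| ≤
      ‖iteratedFDeriv ℝ l.length G (b + A *ᵥ x)‖ * κ ^ l.length := by
  have hκ : 0 ≤ κ := (abs_nonneg _).trans (hA 0 0)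
  have hG' : Sm fun z => G (b + z) := hG.comp (contDiff_const.add contDiff_id)
  have e : (fun x => G (b + A *ᵥ x)) = (fun z => G (b + z)) ∘ mcl A := rfl
  have hs : Sm fun x => G (b + A *ᵥ x) := hG.comp (sm_affine b A)
  rw [pds_eq_iter hs, e,
    (mcl A).iteratedFDeriv_comp_right hG' x (by exact_mod_cast le_top),
    ContinuousMultilinearMap.compContinuousLinearMap_apply, iteratedFDeriv_comp_add_left,
    mcl_apply, hp_eq]
  refine (mul_le_mul_of_nonneg_right (le_abs_self _) (abs_nonneg _)).trans ?_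
  rw [← abs_mul, ← smul_eq_mul, ← ContinuousMultilinearMap.map_smul_univ, ← Real.norm_eq_abs]
  refine (ContinuousMultilinearMap.le_opNorm _ _).trans
    (mul_le_mul_of_nonneg_left ?_ (norm_nonneg _))
  have : ∀ k : Fin l.length, ‖h (l.get k) • mcl A (Pi.single (l.get k) (1 : ℝ))‖ ≤ κ := by
    intro k
    refine (pi_norm_le_iff_of_nonneg hκ).2 fun i => ?_
    have := hA i (l.get k)
    simpa [mcl_apply, mul_comm] using this
  calc _ ≤ ∏ _k : Fin l.length, κ := Finset.prod_le_prod (fun _ _ => norm_nonneg _) fun k _ => this k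
    _ = _ := by simp

/-- a fixed smooth compactly supported function seen through any affine map of scale `h` -/
theorem cb_lin {G : V → ℝ} (hG : Sm G) (hc : HasCompactSupport G) (n : ℕ) :
    ∃ C : ℝ, 1 ≤ C ∧ ∀ (A : Mx) (b h : V) (κ : ℝ), 1 ≤ κ → (∀ i j, |A i j * h j| ≤ κ) →
      CB n h univ (fun x => G (b + A *ᵥ x)) (C * κ ^ n) := by
  obtain ⟨C, h1, hC⟩ := iterF_bound hG hc n
  refine ⟨C, h1, fun A b h κ hκ hA l hl x _ => (pds_affine_le hG A b h hA l x).trans ?_⟩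
  exact mul_le_mul (hC _ hl _) (pow_le_pow_right₀ hκ hl) (by positivity) (by linarith)

/-- small scales: the derivatives of order at least one are of size `κ` -/
theorem cv_lin {G : V → ℝ} (hG : Sm G) (hc : HasCompactSupport G) (n : ℕ) :
    ∃ C : ℝ, 1 ≤ C ∧ ∀ (A : Mx) (b h : V) (κ : ℝ), κ ≤ 1 → (∀ i j, |A i j * h j| ≤ κ) →
      CV n h univ (fun x => G (b + A *ᵥ x)) (C * κ) := by
  obtain ⟨C, h1, hC⟩ := iterF_bound hG hc n
  refine ⟨C, h1, fun A b h κ hκ hA l hl x _ => (pds_affine_le hG A b h hA l x).trans ?_⟩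
  have h0 : 0 ≤ κ := (abs_nonneg _).trans (hA 0 0)
  refine mul_le_mul (hC _ hl.2 _) ?_ (by positivity) (by linarith)
  exact pow_le_of_le_one h0 hκ (by have := hl.1; omega)

/-- tensor product of one-dimensional profiles -/
def tp (φ : Fin 3 → ℝ → ℝ) (y : V) : ℝ := ∏ i, φ i (y i)

theorem tp_sm {φ : Fin 3 → ℝ → ℝ} (h : ∀ i, Sm (φ i)) : Sm (tp φ) :=
  contDiff_prod fun i _ => (h i).comp (contDiff_apply ℝ ℝ i)

theorem tp_hcs {φ : Fin 3 → ℝ → ℝ} {b : ℝ} (h : ∀ i t, b ≤ |t| → φ i t = 0) :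
    HasCompactSupport (tp φ) := by
  refine HasCompactSupport.intro (isCompact_closedBall (0 : V) |b|) fun y hy => ?_
  rw [mem_closedBall_zero_iff, pi_norm_le_iff_of_nonneg (abs_nonneg b)] at hy
  push Not at hy
  obtain ⟨i, hi⟩ := hy
  exact Finset.prod_eq_zero (Finset.mem_univ i) (h i _ ((le_abs_self b).trans hi.le))

theorem diag_scale (h : V) (i j : Fin 3) : |(diagonal fun i => (h i)⁻¹ : Mx) i j * h j| ≤ 1 := by
  by_cases hij : i = j
  · subst hij
    rw [diagonal_apply_eq]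
    by_cases h0 : h i = 0
    · simp [h0]
    · rw [inv_mul_cancel₀ h0, abs_one]
  · rw [diagonal_apply_ne _ hij]; simp

/-- tensor products at the scales `h` -/
theorem cb_tp {φ : Fin 3 → ℝ → ℝ} {b : ℝ} (hs : ∀ i, Sm (φ i)) (h0 : ∀ i t, b ≤ |t| → φ i t = 0)
    (n : ℕ) : ∃ C : ℝ, 1 ≤ C ∧ ∀ h c : V, CB n h univ (fun x => ∏ i, φ i (x i / h i - c i)) C := by
  obtain ⟨C, h1, hC⟩ := cb_lin (tp_sm hs) (tp_hcs h0) n
  refine ⟨C, h1, fun h c => ?_⟩
  have := hC (diagonal fun i => (h i)⁻¹) (-c) h 1 le_rfl (diag_scale h)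
  rw [one_pow, mul_one] at this
  have e : (fun x : V => ∏ i, φ i (x i / h i - c i)) =
      fun x => tp φ (-c + (diagonal fun i => (h i)⁻¹ : Mx) *ᵥ x) := by
    funext x
    refine Finset.prod_congr rfl fun i _ => ?_
    simp only [Pi.add_apply, Pi.neg_apply, mulVec_diagonal]
    congr 1
    rw [div_eq_inv_mul]; ring
  rwa [e]

/-! ## orthogonal matrices -/

theorem orth_mul_t {O : Mx} (h : Orth O) : O * Oᵀ = 1 := h.1
theorem orth_t_mul {O : Mx} (h : Orth O) : Oᵀ * O = 1 := mul_eq_one_comm.1 h.1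
theorem orth_one : Orth 1 := ⟨by simp, by simp⟩
theorem orth_t {O : Mx} (h : Orth O) : Orth Oᵀ :=
  ⟨by rw [transpose_transpose, orth_t_mul h], by rw [det_transpose, h.2]⟩
theorem orth_mul {O P : Mx} (h : Orth O) (h' : Orth P) : Orth (O * P) :=
  ⟨by rw [transpose_mul, Matrix.mul_assoc, ← Matrix.mul_assoc P, h'.1, Matrix.one_mul, h.1],
    by rw [det_mul, h.2, h'.2, mul_one]⟩
theorem orth_inv {O : Mx} (h : Orth O) : O⁻¹ = Oᵀ := inv_eq_right_inv h.1
theorem orth_row {O : Mx} (h : Orth O) (i : Fin 3) : ∑ j, O i j ^ 2 = 1 := by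
  have := congrFun (congrFun h.1 i) i
  simpa [mul_apply, sq] using this
theorem orth_col {O : Mx} (h : Orth O) (j : Fin 3) : ∑ i, O i j ^ 2 = 1 := orth_row (orth_t h) j
theorem orth_abs_le {O : Mx} (h : Orth O) (i j : Fin 3) : |O i j| ≤ 1 := by
  have h1 := Finset.single_le_sum (f := fun j => O i j ^ 2) (fun j _ => sq_nonneg _)
    (Finset.mem_univ j)
  rw [orth_row h i] at h1
  exact (sq_le_one_iff_abs_le_one _).1 h1
theorem orth_eb {O : Mx} (h : Orth O) : EB O (cm 1) := fun i j => orth_abs_le h i j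
theorem orth_mulVec_t {O : Mx} (h : Orth O) (v : V) : O *ᵥ (Oᵀ *ᵥ v) = v := by
  rw [mulVec_mulVec, h.1, one_mulVec]
theorem orth_t_mulVec {O : Mx} (h : Orth O) (v : V) : Oᵀ *ᵥ (O *ᵥ v) = v := by
  rw [mulVec_mulVec, orth_t_mul h, one_mulVec]
theorem orth_dot {O : Mx} (h : Orth O) (v w : V) : (O *ᵥ v) ⬝ᵥ (O *ᵥ w) = v ⬝ᵥ w := by
  rw [dotProduct_mulVec, ← mulVec_transpose, orth_t_mulVec h]

theorem abs_le_norm (v : V) (i : Fin 3) : |v i| ≤ ‖v‖ := norm_le_pi_norm v i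
theorem norm_le_of {v : V} {a : ℝ} (h : ∀ i, |v i| ≤ a) : ‖v‖ ≤ a :=
  (pi_norm_le_iff_of_nonneg ((abs_nonneg _).trans (h 0))).2 h
theorem norm_le_iff {v : V} {a : ℝ} : ‖v‖ ≤ a ↔ ∀ i, |v i| ≤ a :=
  ⟨fun h i => (abs_le_norm v i).trans h, norm_le_of⟩

theorem norm_mulVec_le {A : Mx} {a : ℝ} (h : EB A (cm a)) (v : V) : ‖A *ᵥ v‖ ≤ 3 * a * ‖v‖ := by
  refine norm_le_of fun i => ?_
  have ha : 0 ≤ a := (abs_nonneg _).trans (h 0 0)
  calc |(A *ᵥ v) i| = |∑ j, A i j * v j| := rfl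
    _ ≤ ∑ j, |A i j * v j| := Finset.abs_sum_le_sum_abs _ _
    _ ≤ ∑ _j : Fin 3, a * ‖v‖ := Finset.sum_le_sum fun j _ => by
        rw [abs_mul]
        exact mul_le_mul (h i j) (abs_le_norm v j) (abs_nonneg _) ha
    _ = _ := by simp; ring
theorem orth_norm_le {O : Mx} (h : Orth O) (v : V) : ‖O *ᵥ v‖ ≤ 3 * ‖v‖ := by
  simpa using norm_mulVec_le (orth_eb h) v
theorem orth_norm_ge {O : Mx} (h : Orth O) (v : V) : ‖v‖ ≤ 3 * ‖O *ᵥ v‖ := by
  have := orth_norm_le (orth_t h) (O *ᵥ v)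
  rwa [orth_t_mulVec h] at this
/-- the sharper constant `2 ≥ √3` -/
theorem orth_norm_le_two {O : Mx} (h : Orth O) (v : V) : ‖O *ᵥ v‖ ≤ 2 * ‖v‖ := by
  refine norm_le_of fun i => ?_
  have h1 : (O *ᵥ v) i ^ 2 ≤ (∑ j, O i j ^ 2) * ∑ j, v j ^ 2 :=
    Finset.sum_mul_sq_le_sq_mul_sq Finset.univ (fun j => O i j) v
  have h2 : ∑ j, v j ^ 2 ≤ ∑ _j : Fin 3, ‖v‖ ^ 2 := Finset.sum_le_sum fun j _ => by
    rw [← sq_abs]
    exact pow_le_pow_left₀ (abs_nonneg _) (abs_le_norm v j) 2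
  rw [orth_row h, one_mul] at h1
  simp only [Finset.sum_const, Finset.card_univ, Fintype.card_fin, nsmul_eq_mul] at h2
  refine abs_le_of_sq_le_sq' ?_ (by positivity) |> abs_le.2
  push_cast at h2
  nlinarith [sq_nonneg ‖v‖]

/-! ## frames -/

section frames
variable {F : Fr}
theorem xp_xc (h : Orth F.O) (x : V) : F.xp (F.xc x) = x := by
  simp only [Fr.xp, Fr.xc, orth_mulVec_t h]; abel
theorem xc_xp (h : Orth F.O) (x : V) : F.xc (F.xp x) = x := by
  simp only [Fr.xp, Fr.xc, add_sub_cancel_left, orth_t_mulVec h]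
theorem q_inv (h : F.Q.det ≠ 0) : F.Q * F.Q⁻¹ = 1 := mul_nonsing_inv _ h.isUnit
theorem inv_q (h : F.Q.det ≠ 0) : F.Q⁻¹ * F.Q = 1 := nonsing_inv_mul _ h.isUnit
theorem q_inv_vec (h : F.Q.det ≠ 0) (v : V) : F.Q *ᵥ (F.Q⁻¹ *ᵥ v) = v := by
  rw [mulVec_mulVec, q_inv h, one_mulVec]
theorem inv_q_vec (h : F.Q.det ≠ 0) (v : V) : F.Q⁻¹ *ᵥ (F.Q *ᵥ v) = v := by
  rw [mulVec_mulVec, inv_q h, one_mulVec]
theorem zp_zc (h : F.Q.det ≠ 0) (z : V) : F.zp (F.zc z) = z := by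
  simp only [Fr.zp, Fr.zc, q_inv_vec h]; abel
theorem zc_zp (h : F.Q.det ≠ 0) (z : V) : F.zc (F.zp z) = z := by
  simp only [Fr.zp, Fr.zc, add_sub_cancel_left, inv_q_vec h]
theorem hm_unm (h : Orth F.O) (hQ : F.Q.det ≠ 0) (A : Mx) : F.hm (F.unm A) = A := by
  simp only [Fr.hm, Fr.unm]
  rw [← Matrix.mul_assoc, ← Matrix.mul_assoc, inv_q hQ, Matrix.one_mul, Matrix.mul_assoc,
    orth_t_mul h, Matrix.mul_one]
theorem unm_hm (h : Orth F.O) (hQ : F.Q.det ≠ 0) (A : Mx) : F.unm (F.hm A) = A := by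
  simp only [Fr.hm, Fr.unm]
  rw [← Matrix.mul_assoc, ← Matrix.mul_assoc, q_inv hQ, Matrix.one_mul, Matrix.mul_assoc,
    h.1, Matrix.mul_one]
theorem cv1_unc (hQ : F.Q.det ≠ 0) (S : Mx) : F.cv1 (F.unc S) = S := by
  simp only [Fr.cv1, Fr.unc]
  rw [← Matrix.mul_assoc, ← Matrix.mul_assoc, inv_q hQ, Matrix.one_mul, Matrix.mul_assoc,
    ← transpose_mul, inv_q hQ, transpose_one, Matrix.mul_one]
theorem unc_cv1 (hQ : F.Q.det ≠ 0) (S : Mx) : F.unc (F.cv1 S) = S := by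
  simp only [Fr.cv1, Fr.unc]
  rw [← Matrix.mul_assoc, ← Matrix.mul_assoc, q_inv hQ, Matrix.one_mul, Matrix.mul_assoc,
    ← transpose_mul, q_inv hQ, transpose_one, Matrix.mul_one]
theorem hatv_unv (h : Orth F.O) (hQ : F.Q.det ≠ 0) (u : V → V) : F.hatv (F.unv u) = u := by
  funext x
  simp only [Fr.hatv, Fr.unv, inv_q_vec hQ, xc_xp h]
theorem unv_hatv (h : Orth F.O) (hQ : F.Q.det ≠ 0) (u : V → V) : F.unv (F.hatv u) = u := by
  funext x
  simp only [Fr.hatv, Fr.unv, q_inv_vec hQ, xp_xc h]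
theorem vd_unvd (hQ : F.Q.det ≠ 0) (R : V → V) : F.vd (F.unvd R) = R := by
  funext z
  simp only [Fr.vd, Fr.unvd, mulVec_smul, inv_q_vec hQ, zc_zp hQ, smul_smul, mul_inv_cancel₀ hQ,
    one_smul]
theorem unvd_vd (hQ : F.Q.det ≠ 0) (R : V → V) : F.unvd (F.vd R) = R := by
  funext z
  simp only [Fr.vd, Fr.unvd, mulVec_smul, q_inv_vec hQ, zp_zc hQ, smul_smul, inv_mul_cancel₀ hQ,
    one_smul]
theorem zp_hat (hQ : F.Q.det ≠ 0) (Z : V → V) (x : V) : F.zp (F.hat Z x) = Z (F.xp x) :=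
  zp_zc hQ _
theorem hat_add (Z u : V → V) (x : V) :
    F.hat (fun y => Z y + u y) x = F.hat Z x + F.hatv u x := by
  simp only [Fr.hat, Fr.hatv, Fr.zc, ← mulVec_add]
  congr 1; abel
theorem cv1_add (S T : Mx) : F.cv1 (S + T) = F.cv1 S + F.cv1 T := by
  simp only [Fr.cv1, Matrix.mul_add, Matrix.add_mul]
theorem cv1_sub (S T : Mx) : F.cv1 (S - T) = F.cv1 S - F.cv1 T := by
  simp only [Fr.cv1, Matrix.mul_sub, Matrix.sub_mul]
theorem cv1_vecMulVec (u v : V) :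
    F.cv1 (vecMulVec u v) = vecMulVec (F.Q⁻¹ *ᵥ u) (F.Q⁻¹ *ᵥ v) := by
  simp only [Fr.cv1]
  rw [mul_vecMulVec, vecMulVec_mul, vecMul_transpose]
theorem unc_vecMulVec (u v : V) :
    F.unc (vecMulVec u v) = vecMulVec (F.Q *ᵥ u) (F.Q *ᵥ v) := by
  simp only [Fr.unc]
  rw [mul_vecMulVec, vecMulVec_mul, vecMul_transpose]
theorem xp_sm (F : Fr) : Sm F.xp := sm_affine _ _
theorem zp_sm (F : Fr) : Sm F.zp := sm_affine _ _
theorem xc_sm (F : Fr) : Sm F.xc := (sm_mulVec _).comp (contDiff_id.sub contDiff_const)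
theorem zc_sm (F : Fr) : Sm F.zc := (sm_mulVec _).comp (contDiff_id.sub contDiff_const)
theorem hat_sm (F : Fr) {Z : V → V} (h : Sm Z) : Sm (F.hat Z) := (zc_sm F).comp (h.comp (xp_sm F))
theorem hatv_sm (F : Fr) {u : V → V} (h : Sm u) : Sm (F.hatv u) :=
  (sm_mulVec _).comp (h.comp (xp_sm F))
theorem unv_sm (F : Fr) {u : V → V} (h : Sm u) : Sm (F.unv u) :=
  (sm_mulVec _).comp (h.comp (xc_sm F))
theorem vd_sm (F : Fr) {R : V → V} (h : Sm R) : Sm (F.vd R) :=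
  ((sm_mulVec _).comp (h.comp (zp_sm F))).const_smul _
theorem unvd_sm (F : Fr) {R : V → V} (h : Sm R) : Sm (F.unvd R) :=
  ((sm_mulVec _).comp (h.comp (zc_sm F))).const_smul _
theorem xp_sub (F : Fr) (x y : V) : F.xp x - F.xp y = F.O *ᵥ (x - y) := by
  simp only [Fr.xp, mulVec_sub]; abel
theorem xc_sub (F : Fr) (x y : V) : F.xc x - F.xc y = F.Oᵀ *ᵥ (x - y) := by
  simp only [Fr.xc, ← mulVec_sub]; congr 1; abel
theorem zp_sub (F : Fr) (x y : V) : F.zp x - F.zp y = F.Q *ᵥ (x - y) := by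
  simp only [Fr.zp, mulVec_sub]; abel
theorem zc_sub (F : Fr) (x y : V) : F.zc x - F.zc y = F.Q⁻¹ *ᵥ (x - y) := by
  simp only [Fr.zc, ← mulVec_sub]; congr 1; abel
theorem xp_bij (h : Orth F.O) : Function.Bijective F.xp :=
  Function.bijective_iff_has_inverse.2 ⟨F.xc, xc_xp h, xp_xc h⟩
theorem zp_bij (h : F.Q.det ≠ 0) : Function.Bijective F.zp :=
  Function.bijective_iff_has_inverse.2 ⟨F.zc, zc_zp h, zp_zc h⟩
end frames

end
end Pool.Agent.MP_20bec2_an.T3.Prof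

end MrgPart1

-- marker of a merged file
example : 731051 + 753050 = 731051 + 753050 := rfl

end MrgPart0

-- ======== part 1: formerly Pool.Agent.MP_20bec2_an.T3.Prof3
section MrgPart1

set_option autoImplicit false
open MeasureTheory Set Filter Matrix Topology

namespace Pool.Agent.MP_20bec2_an.T3.Prof
noncomputable section
open Classical

/-! ## the eight lattice points next to a point -/

/-- lattice points at distance less than one from `u` lie in this set -/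
def nbs (u : V) : Finset Cu := Fintype.piFinset fun i => {⌊u i⌋, ⌊u i⌋ + 1}

theorem mem_nbs {u : V} {g : Cu} : g ∈ nbs u ↔ ∀ i, g i = ⌊u i⌋ ∨ g i = ⌊u i⌋ + 1 := by
  simp [nbs, Fintype.mem_piFinset]

theorem mem_nbs_of_lt {u : V} {g : Cu} (h : ∀ i, |u i - g i| < 1) : g ∈ nbs u :=
  mem_nbs.2 fun i => int_near (h i)

theorem abs_le_of_mem_nbs {u : V} {g : Cu} (h : g ∈ nbs u) (i : Fin 3) : |u i - g i| ≤ 1 := by
  have h2 := Int.floor_le (u i)
  have h3 := Int.lt_floor_add_one (u i)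
  rcases mem_nbs.1 h i with e | e <;> rw [e, abs_le] <;> push_cast <;> constructor <;> linarith

theorem card_nbs (u : V) : (nbs u).card = 8 := by
  unfold nbs
  rw [Fintype.card_piFinset]
  have : ∀ i : Fin 3, ({⌊u i⌋, ⌊u i⌋ + 1} : Finset ℤ).card = 2 := fun i =>
    Finset.card_pair (by omega)
  simp [this]

theorem sum_nbs_tp (φ : Fin 3 → ℝ → ℝ) (u : V) :
    ∑ g ∈ nbs u, ∏ i, φ i (u i - g i) =
      ∏ i, (φ i (u i - (⌊u i⌋ : ℤ)) + φ i (u i - (⌊u i⌋ : ℤ) - 1)) := by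
  unfold nbs
  rw [← Finset.prod_univ_sum (fun i => ({⌊u i⌋, ⌊u i⌋ + 1} : Finset ℤ))
    (fun i (j : ℤ) => φ i (u i - j))]
  refine Finset.prod_congr rfl fun i _ => ?_
  rw [Finset.sum_pair (by omega)]
  push_cast
  rw [sub_add_eq_sub_sub]

theorem finsum_nbs {E : Type*} [AddCommMonoid E] {φ : Cu → E} {u : V}
    (h : ∀ g, φ g ≠ 0 → ∀ i, |u i - g i| < 1) : ∑ᶠ g, φ g = ∑ g ∈ nbs u, φ g :=
  finsum_eq_sum_of_support_subset _ fun g hg => mem_nbs_of_lt (h g hg)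

theorem finsum_tp {φ : Fin 3 → ℝ → ℝ} (h0 : ∀ i t, 1 ≤ |t| → φ i t = 0) (u : V) :
    ∑ᶠ g : Cu, ∏ i, φ i (u i - g i) =
      ∏ i, (φ i (u i - (⌊u i⌋ : ℤ)) + φ i (u i - (⌊u i⌋ : ℤ) - 1)) := by
  rw [finsum_nbs (u := u), sum_nbs_tp]
  intro g hg i
  by_contra hc
  exact hg (Finset.prod_eq_zero (Finset.mem_univ i) (h0 i _ (not_lt.1 hc)))

/-! ## boxes -/

theorem mem_box {D r : ℝ} {g : Cu} {x : V} : x ∈ box D g r ↔ ∀ i, |x i - D * g i| ≤ r * D :=
  norm_le_iff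

theorem sub_div_eq {D : ℝ} (hD : D ≠ 0) (a b : ℝ) : (a - D * b) / D = a / D - b := by
  field_simp

theorem mem_box' {D r : ℝ} (hD : 0 < D) {g : Cu} {x : V} :
    x ∈ box D g r ↔ ∀ i, |x i / D - g i| ≤ r := by
  rw [mem_box]
  refine forall_congr' fun i => ?_
  rw [← sub_div_eq hD.ne', abs_div, abs_of_pos hD, div_le_iff₀ hD]

theorem box_mono {D r r' : ℝ} (hD : 0 ≤ D) (h : r ≤ r') (g : Cu) : box D g r ⊆ box D g r' :=
  fun _ hx => le_trans hx (mul_le_mul_of_nonneg_right h hD)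

theorem box_eq (D r : ℝ) (g : Cu) : box D g r = Metric.closedBall (cen D g) (r * D) := by
  ext x
  rw [mem_closedBall_iff_norm]; rfl
theorem box_closed (D r : ℝ) (g : Cu) : IsClosed (box D g r) := by
  rw [box_eq]; exact Metric.isClosed_closedBall
theorem box_compact (D r : ℝ) (g : Cu) : IsCompact (box D g r) := by
  rw [box_eq]; exact isCompact_closedBall _ _
theorem box_convex (D r : ℝ) (g : Cu) : Convex ℝ (box D g r) := by
  rw [box_eq]; exact convex_closedBall _ _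
theorem cen_mem_box {D r : ℝ} (hD : 0 ≤ D) (hr : 0 ≤ r) (g : Cu) : cen D g ∈ box D g r := by
  rw [box_eq]; exact Metric.mem_closedBall_self (mul_nonneg hr hD)
theorem box_nhds {D r r' : ℝ} (hD : 0 < D) (h : r < r') {g : Cu} {x : V} (hx : x ∈ box D g r) :
    box D g r' ∈ 𝓝 x := by
  rw [box_eq] at hx ⊢
  exact Metric.closedBall_mem_nhds_of_mem
    (lt_of_le_of_lt hx (mul_lt_mul_of_pos_right h hD))
theorem box_add {D r : ℝ} {g : Cu} {x y : V} {s : ℝ} (hx : x ∈ box D g r)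
    (h : ‖y - x‖ ≤ s * D) : y ∈ box D g (r + s) := by
  have h1 : ‖y - cen D g‖ ≤ ‖y - x‖ + ‖x - cen D g‖ := norm_sub_le_norm_sub_add_norm_sub _ _ _
  have h2 : ‖x - cen D g‖ ≤ r * D := hx
  show ‖y - cen D g‖ ≤ (r + s) * D
  linarith

theorem exists_box {D : ℝ} (hD : 0 < D) (x : V) : ∃ g, x ∈ box D g (1 / 2) :=
  ⟨fun i => round (x i / D), (mem_box' hD).2 fun i => abs_sub_round (x i / D)⟩

theorem box_near {D r r' : ℝ} (hD : 0 < D) {g g' : Cu} {x : V} (h : x ∈ box D g r)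
    (h' : x ∈ box D g' r') (i : Fin 3) : |(g i : ℝ) - g' i| ≤ r + r' := by
  have h1 := abs_le.1 ((mem_box' hD).1 h i)
  have h2 := abs_le.1 ((mem_box' hD).1 h' i)
  rw [abs_le]
  constructor <;> linarith

theorem box_nbr {D r r' : ℝ} (hD : 0 < D) {m : ℤ} (hm : r + r' < m + 1) {g g' : Cu} {x : V}
    (h : x ∈ box D g r) (h' : x ∈ box D g' r') : Nbr m g g' := by
  intro i
  have h1 : |(g i : ℝ) - g' i| < m + 1 := (box_near hD h h' i).trans_lt hm
  have h2 : |g i - g' i| < m + 1 := by exact_mod_cast h1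
  omega

theorem box_of_nbr {D r : ℝ} (hD : 0 < D) {m : ℤ} {g g' : Cu} (h : Nbr m g g') :
    box D g r ⊆ box D g' (r + m) := by
  intro x hx
  refine (mem_box' hD).2 fun i => ?_
  have h1 := abs_le.1 ((mem_box' hD).1 hx i)
  have h2 : |(g i : ℝ) - g' i| ≤ m := by exact_mod_cast h i
  have h3 := abs_le.1 h2
  rw [abs_le]
  constructor <;> linarith

theorem box_mem_nbs {D r : ℝ} (hD : 0 < D) (hr : r < 1) {g : Cu} {x : V} (h : x ∈ box D g r) :
    g ∈ nbs fun i => x i / D :=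
  mem_nbs_of_lt fun i => ((mem_box' hD).1 h i).trans_lt hr

theorem mem_box_of_nbs {D : ℝ} (hD : 0 < D) {g : Cu} {x : V} (h : g ∈ nbs fun i => x i / D) :
    x ∈ box D g 1 := (mem_box' hD).2 (abs_le_of_mem_nbs h)

theorem nbr_refl {m : ℤ} (hm : 0 ≤ m) (g : Cu) : Nbr m g g := fun i => by simpa using hm
theorem nbr_symm {m : ℤ} {g g' : Cu} (h : Nbr m g g') : Nbr m g' g := fun i => by
  rw [abs_sub_comm]; exact h i
theorem nbr_trans {m m' : ℤ} {g g' g'' : Cu} (h : Nbr m g g') (h' : Nbr m' g' g'') :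
    Nbr (m + m') g g'' := fun i => (abs_sub_le _ _ _).trans (add_le_add (h i) (h' i))
theorem nbr_mono {m m' : ℤ} (hm : m ≤ m') {g g' : Cu} (h : Nbr m g g') : Nbr m' g g' :=
  fun i => (h i).trans hm
theorem nbr_finite (m : ℤ) (g : Cu) : {g' | Nbr m g g'}.Finite := by
  refine (Fintype.piFinset fun i => Finset.Icc (g i - m) (g i + m)).finite_toSet.subset ?_
  intro g' hg'
  simp only [Finset.mem_coe, Fintype.mem_piFinset, Finset.mem_Icc]
  intro i
  have := abs_le.1 (hg' i)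
  constructor <;> linarith
theorem cen_sub_le {D : ℝ} (hD : 0 ≤ D) {m : ℤ} {g g' : Cu} (h : Nbr m g g') :
    ‖cen D g - cen D g'‖ ≤ m * D := by
  refine norm_le_of fun i => ?_
  have h2 : |(g i : ℝ) - g' i| ≤ m := by exact_mod_cast h i
  show |D * g i - D * g' i| ≤ m * D
  rw [← mul_sub, abs_mul, abs_of_nonneg hD, mul_comm]
  exact mul_le_mul_of_nonneg_right h2 hD

/-! ## colours -/

theorem col_lt (g : Cu) : col g < 8 := by
  unfold col
  omega

theorem col_eq_iff {g g' : Cu} : col g = col g' ↔ ∀ i, g i % 2 = g' i % 2 := by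
  unfold col
  rw [Fin.forall_fin_succ, Fin.forall_fin_two]
  show _ ↔ g 0 % 2 = g' 0 % 2 ∧ g 1 % 2 = g' 1 % 2 ∧ g 2 % 2 = g' 2 % 2
  omega

theorem col_far {g g' : Cu} (h : col g = col g') (hne : g ≠ g') : ∃ i, 2 ≤ |g i - g' i| := by
  obtain ⟨i, hi⟩ := Function.ne_iff.1 hne
  have := col_eq_iff.1 h i
  refine ⟨i, ?_⟩
  rcases le_total 0 (g i - g' i) with h0 | h0
  · rw [abs_of_nonneg h0]; omega
  · rw [abs_of_nonpos h0]; omega

theorem col_eq_of_nbr {g g' : Cu} (h : col g = col g') (hn : Nbr 1 g g') : g = g' := by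
  by_contra hne
  obtain ⟨i, hi⟩ := col_far h hne
  have := hn i
  omega

theorem col_box_unique {D r r' : ℝ} (hD : 0 < D) (hr : r + r' < 2) {g g' : Cu}
    (h : col g = col g') {x : V} (hx : x ∈ box D g r) (hx' : x ∈ box D g' r') : g = g' :=
  col_eq_of_nbr h (box_nbr hD (by push_cast; linarith) hx hx')

/-! ## rotated boxes -/

theorem mem_RX {O : Mx} {D r : ℝ} {x : V} : x ∈ RX O D r ↔ ∀ i, |(O *ᵥ x) i| ≤ r * D :=
  norm_le_iff
theorem mem_RX' {O : Mx} {D r : ℝ} (hD : 0 < D) {x : V} :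
    x ∈ RX O D r ↔ ∀ i, |(O *ᵥ x) i / D| ≤ r := by
  rw [mem_RX]
  refine forall_congr' fun i => ?_
  rw [abs_div, abs_of_pos hD, div_le_iff₀ hD]
theorem RX_eq (O : Mx) (D r : ℝ) : RX O D r = mcl O ⁻¹' Metric.closedBall 0 (r * D) := by
  ext x
  rw [mem_preimage, mem_closedBall_zero_iff]; rfl
theorem RX_mono (O : Mx) {D r r' : ℝ} (hD : 0 ≤ D) (h : r ≤ r') : RX O D r ⊆ RX O D r' :=
  fun _ hx => le_trans hx (mul_le_mul_of_nonneg_right h hD)
theorem RX_closed (O : Mx) (D r : ℝ) : IsClosed (RX O D r) := by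
  rw [RX_eq]; exact Metric.isClosed_closedBall.preimage (mcl O).continuous
theorem RX_measurable (O : Mx) (D r : ℝ) : MeasurableSet (RX O D r) :=
  (RX_closed O D r).measurableSet
theorem RX_convex (O : Mx) (D r : ℝ) : Convex ℝ (RX O D r) := by
  rw [RX_eq]; exact (convex_closedBall _ _).linear_preimage (mcl O).toLinearMap
theorem RX_norm {O : Mx} (h : Orth O) {D r : ℝ} {x : V} (hx : x ∈ RX O D r) :
    ‖x‖ ≤ 2 * (r * D) := by
  have h1 := orth_norm_le_two (orth_t h) (O *ᵥ x)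
  rw [orth_t_mulVec h] at h1
  have h2 : ‖O *ᵥ x‖ ≤ r * D := hx
  linarith
theorem RX_of_norm {O : Mx} (h : Orth O) {D r : ℝ} {x : V} (hx : 2 * ‖x‖ ≤ r * D) :
    x ∈ RX O D r := (orth_norm_le_two h x).trans hx
theorem RX_compact {O : Mx} (h : Orth O) (D r : ℝ) : IsCompact (RX O D r) :=
  (isCompact_closedBall (0 : V) (2 * (r * D))).of_isClosed_subset (RX_closed O D r)
    fun _ hx => mem_closedBall_zero_iff.2 (RX_norm h hx)
theorem zero_mem_RX (O : Mx) {D r : ℝ} (hD : 0 ≤ D) (hr : 0 ≤ r) : (0 : V) ∈ RX O D r := by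
  show ‖O *ᵥ (0 : V)‖ ≤ r * D
  rw [mulVec_zero, norm_zero]; positivity
theorem RX_nhds {O : Mx} {D r r' : ℝ} (hD : 0 < D) (h : r < r') {x : V} (hx : x ∈ RX O D r) :
    RX O D r' ∈ 𝓝 x := by
  rw [RX_eq] at hx ⊢
  exact (mcl O).continuous.continuousAt.preimage_mem_nhds
    (Metric.closedBall_mem_nhds_of_mem (lt_of_le_of_lt hx (mul_lt_mul_of_pos_right h hD)))
theorem RX_add {O : Mx} (h : Orth O) {D r s : ℝ} {x y : V} (hx : x ∈ RX O D r)
    (hy : 2 * ‖y - x‖ ≤ s * D) : y ∈ RX O D (r + s) := by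
  have h1 : O *ᵥ y = O *ᵥ x + O *ᵥ (y - x) := by rw [← mulVec_add]; congr 1; abel
  have h2 : ‖O *ᵥ x‖ ≤ r * D := hx
  have h3 := orth_norm_le_two h (y - x)
  have h4 := norm_add_le (O *ᵥ x) (O *ᵥ (y - x))
  show ‖O *ᵥ y‖ ≤ (r + s) * D
  rw [h1]; linarith

theorem xc_mem_RX {F : Fr} (h : Orth F.O) {D r : ℝ} {g : Cu} (h0 : F.x0 = cen D g) {x : V} :
    F.xc x ∈ RX F.O D r ↔ x ∈ box D g r := by
  show ‖F.O *ᵥ (F.Oᵀ *ᵥ (x - F.x0))‖ ≤ r * D ↔ _
  rw [orth_mulVec_t h, h0]; rfl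
theorem xp_mem_box {F : Fr} {D r : ℝ} {g : Cu} (h0 : F.x0 = cen D g) {x : V} :
    F.xp x ∈ box D g r ↔ x ∈ RX F.O D r := by
  show ‖F.x0 + F.O *ᵥ x - cen D g‖ ≤ r * D ↔ _
  rw [h0, add_sub_cancel_left]; rfl

/-! ## cut-offs of the cubes -/

theorem prod_ne_zero {f : Fin 3 → ℝ} (h : ∏ i, f i ≠ 0) (i : Fin 3) : f i ≠ 0 :=
  fun h0 => h (Finset.prod_eq_zero (Finset.mem_univ i) h0)

theorem alh_sm (O : Mx) (D : ℝ) : Sm (alh O D) :=
  contDiff_prod fun i _ => sa_sm.comp (((contDiff_apply ℝ ℝ i).comp (sm_mulVec O)).div_const D)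
theorem alh_nonneg (O : Mx) (D : ℝ) (x : V) : 0 ≤ alh O D x :=
  Finset.prod_nonneg fun _ _ => sa_nonneg _
theorem alh_le_one (O : Mx) (D : ℝ) (x : V) : alh O D x ≤ 1 :=
  Finset.prod_le_one (fun _ _ => sa_nonneg _) fun _ _ => sa_le_one _
theorem alh_abs_le (O : Mx) (D : ℝ) (x : V) : |alh O D x| ≤ 1 := by
  rw [abs_of_nonneg (alh_nonneg O D x)]; exact alh_le_one O D x
theorem alh_sq_le (O : Mx) (D : ℝ) (x : V) : alh O D x ^ 2 ≤ 1 :=
  pow_le_one₀ (alh_nonneg O D x) (alh_le_one O D x)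
theorem alh_supp {O : Mx} {D : ℝ} (hD : 0 < D) {x : V} (h : alh O D x ≠ 0) :
    x ∈ RX O D (9 / 10) := (mem_RX' hD).2 fun i => (sa_ne_zero (prod_ne_zero h i)).le
theorem alh_zero {O : Mx} {D : ℝ} (hD : 0 < D) {x : V} (h : x ∉ RX O D (9 / 10)) :
    alh O D x = 0 := by
  by_contra hc
  exact h (alh_supp hD hc)
theorem alh_one {O : Mx} {D : ℝ} (hD : 0 < D) {x : V} (h : x ∈ RX O D (1 / 10)) :
    alh O D x = 1 := Finset.prod_eq_one fun i _ => sa_one ((mem_RX' hD).1 h i)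
theorem alh_sq_ge {O : Mx} {D : ℝ} (hD : 0 < D) {x : V} (h : x ∈ RX O D (1 / 2)) :
    1 / 8 ≤ alh O D x ^ 2 := by
  unfold alh
  rw [← Finset.prod_pow]
  calc (1 / 8 : ℝ) = ∏ _i : Fin 3, (1 / 2 : ℝ) := by simp; norm_num
    _ ≤ _ := Finset.prod_le_prod (fun _ _ => by norm_num)
        fun i _ => sa_sq_ge_half ((mem_RX' hD).1 h i)
theorem alh_hcs {O : Mx} (h : Orth O) {D : ℝ} (hD : 0 < D) : HasCompactSupport (alh O D) :=
  HasCompactSupport.intro (RX_compact h D (9 / 10)) fun _ hx => alh_zero hD hx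

theorem beth_sm (O : Mx) (D : ℝ) : Sm (beth O D) :=
  contDiff_prod fun i _ =>
    (bp_sm _ _).comp (((contDiff_apply ℝ ℝ i).comp (sm_mulVec O)).div_const D)
theorem beth_nonneg (O : Mx) (D : ℝ) (x : V) : 0 ≤ beth O D x :=
  Finset.prod_nonneg fun _ _ => bp_nonneg _ _ _
theorem beth_le_one (O : Mx) (D : ℝ) (x : V) : beth O D x ≤ 1 :=
  Finset.prod_le_one (fun _ _ => bp_nonneg _ _ _) fun _ _ => bp_le_one _ _ _
theorem beth_abs_le (O : Mx) (D : ℝ) (x : V) : |beth O D x| ≤ 1 := by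
  rw [abs_of_nonneg (beth_nonneg O D x)]; exact beth_le_one O D x
theorem beth_supp {O : Mx} {D : ℝ} (hD : 0 < D) {x : V} (h : beth O D x ≠ 0) :
    x ∈ RX O D (95 / 100) :=
  (mem_RX' hD).2 fun i => (bp_ne_zero (by norm_num) (prod_ne_zero h i)).le
theorem beth_zero {O : Mx} {D : ℝ} (hD : 0 < D) {x : V} (h : x ∉ RX O D (95 / 100)) :
    beth O D x = 0 := by
  by_contra hc
  exact h (beth_supp hD hc)
theorem beth_one {O : Mx} {D : ℝ} (hD : 0 < D) {x : V} (h : x ∈ RX O D (94 / 100)) :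
    beth O D x = 1 := Finset.prod_eq_one fun i _ => bp_one (by norm_num) ((mem_RX' hD).1 h i)
theorem beth_hcs {O : Mx} (h : Orth O) {D : ℝ} (hD : 0 < D) : HasCompactSupport (beth O D) :=
  HasCompactSupport.intro (RX_compact h D (95 / 100)) fun _ hx => beth_zero hD hx
theorem beth_mul_alh {O : Mx} {D : ℝ} (hD : 0 < D) (x : V) :
    beth O D x * alh O D x = alh O D x := by
  by_cases h : alh O D x = 0
  · rw [h, mul_zero]
  · rw [beth_one hD (RX_mono O hD.le (by norm_num) (alh_supp hD h)), one_mul]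

theorem al_eq {D : ℝ} (hD : D ≠ 0) (g : Cu) (x : V) : al D g x = ∏ i, sa (x i / D - g i) :=
  Finset.prod_congr rfl fun i _ => by rw [← sub_div_eq hD]; rfl
theorem al_eq_alh {O : Mx} (h : Orth O) (D : ℝ) (g : Cu) (x : V) :
    al D g x = alh O D (Oᵀ *ᵥ (x - cen D g)) := by
  unfold alh
  rw [orth_mulVec_t h]; rfl
theorem al_eq_xc {F : Fr} (h : Orth F.O) {D : ℝ} {g : Cu} (h0 : F.x0 = cen D g) (x : V) :
    al D g x = alh F.O D (F.xc x) := by
  rw [al_eq_alh h, ← h0]; rfl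
theorem al_xp {F : Fr} {D : ℝ} {g : Cu} (h0 : F.x0 = cen D g) (x : V) :
    al D g (F.xp x) = alh F.O D x := by
  refine Finset.prod_congr rfl fun i _ => ?_
  simp only [Fr.xp, h0, Pi.add_apply, add_sub_cancel_left]
theorem sc_al {F : Fr} {D : ℝ} {g : Cu} (h0 : F.x0 = cen D g) : F.sc (al D g) = alh F.O D :=
  funext (al_xp h0)
theorem al_sm (D : ℝ) (g : Cu) : Sm (al D g) :=
  contDiff_prod fun i _ => sa_sm.comp (((contDiff_apply ℝ ℝ i).sub contDiff_const).div_const D)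
theorem al_nonneg (D : ℝ) (g : Cu) (x : V) : 0 ≤ al D g x :=
  Finset.prod_nonneg fun _ _ => sa_nonneg _
theorem al_le_one (D : ℝ) (g : Cu) (x : V) : al D g x ≤ 1 :=
  Finset.prod_le_one (fun _ _ => sa_nonneg _) fun _ _ => sa_le_one _
theorem al_supp {D : ℝ} (hD : 0 < D) {g : Cu} {x : V} (h : al D g x ≠ 0) :
    x ∈ box D g (9 / 10) := by
  rw [al_eq hD.ne'] at h
  exact (mem_box' hD).2 fun i => (sa_ne_zero (prod_ne_zero h i)).le
theorem al_zero {D : ℝ} (hD : 0 < D) {g : Cu} {x : V} (h : x ∉ box D g (9 / 10)) :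
    al D g x = 0 := by
  by_contra hc
  exact h (al_supp hD hc)
theorem al_sq_ge {D : ℝ} (hD : 0 < D) {g : Cu} {x : V} (h : x ∈ box D g (1 / 2)) :
    1 / 8 ≤ al D g x ^ 2 := by
  rw [al_eq_alh orth_one]
  refine alh_sq_ge hD ?_
  show ‖(1 : Mx) *ᵥ ((1 : Mx)ᵀ *ᵥ (x - cen D g))‖ ≤ _
  rw [orth_mulVec_t orth_one]; exact h
theorem al_sum {D : ℝ} (hD : D ≠ 0) (x : V) :
    ∑ g ∈ nbs fun i => x i / D, al D g x ^ 2 = 1 := by
  simp only [al_eq hD, ← Finset.prod_pow]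
  rw [sum_nbs_tp (fun _ t => sa t ^ 2) fun i => x i / D]
  exact Finset.prod_eq_one fun i _ => sa_floor _
theorem al_finsum {D : ℝ} (hD : D ≠ 0) (x : V) : ∑ᶠ g, al D g x ^ 2 = 1 := by
  simp only [al_eq hD, ← Finset.prod_pow]
  rw [finsum_tp (φ := fun _ t => sa t ^ 2)
    (fun _ t h => by rw [sa_zero (by linarith)]; norm_num) fun i => x i / D]
  exact Finset.prod_eq_one fun i _ => sa_floor _
theorem al_fin {D : ℝ} (hD : 0 < D) (x : V) : (Function.support fun g => al D g x).Finite :=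
  (nbs fun i => x i / D).finite_toSet.subset fun _ hg => box_mem_nbs hD (by norm_num) (al_supp hD hg)

/-- a tensor product in the coordinates `O x / D`, at any scales `h ≤ κ D` -/
theorem cb_rot {φ : Fin 3 → ℝ → ℝ} {b : ℝ} (hs : ∀ i, Sm (φ i)) (h0 : ∀ i t, b ≤ |t| → φ i t = 0)
    (n : ℕ) : ∃ C : ℝ, 1 ≤ C ∧ ∀ (O : Mx) (D : ℝ), Orth O → 0 < D →
      CB n (cv D) univ (fun x => ∏ i, φ i ((O *ᵥ x) i / D)) C ∧
      ∀ (h : V) (κ : ℝ), κ ≤ 1 → (∀ i, |h i| ≤ κ * D) →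
        CB n h univ (fun x => ∏ i, φ i ((O *ᵥ x) i / D)) C ∧
        CV n h univ (fun x => ∏ i, φ i ((O *ᵥ x) i / D)) (C * κ) := by
  obtain ⟨C, h1, hC⟩ := cb_lin (tp_sm hs) (tp_hcs h0) n
  obtain ⟨C', h1', hC'⟩ := cv_lin (tp_sm hs) (tp_hcs h0) n
  refine ⟨C + C', by linarith, fun O D hO hD => ?_⟩
  have e : (fun x : V => ∏ i, φ i ((O *ᵥ x) i / D)) = fun x => tp φ (0 + (D⁻¹ • O) *ᵥ x) := by
    funext x
    refine Finset.prod_congr rfl fun i _ => ?_
    rw [zero_add, smul_mulVec, Pi.smul_apply, smul_eq_mul, div_eq_inv_mul]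
  have key : ∀ (h : V) (κ : ℝ), (∀ i, |h i| ≤ κ * D) → ∀ i j, |(D⁻¹ • O) i j * h j| ≤ κ := by
    intro h κ hh i j
    rw [Matrix.smul_apply, smul_eq_mul, abs_mul, abs_mul, abs_of_pos (inv_pos.2 hD)]
    calc D⁻¹ * |O i j| * |h j| ≤ D⁻¹ * 1 * (κ * D) :=
          mul_le_mul (mul_le_mul_of_nonneg_left (orth_abs_le hO i j) (inv_pos.2 hD).le) (hh j)
            (abs_nonneg _) (by positivity)
      _ = κ := by field_simp
  have main : ∀ (h : V), (∀ i, |h i| ≤ 1 * D) →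
      CB n h univ (fun x => ∏ i, φ i ((O *ᵥ x) i / D)) (C + C') := by
    intro h hh l hl x hx
    have := hC (D⁻¹ • O) 0 h 1 le_rfl (key h 1 hh) l hl x hx
    rw [one_pow, mul_one, ← e] at this
    linarith
  refine ⟨main _ fun i => by rw [one_mul]; exact (abs_of_pos hD).le, fun h κ hκ hh => ⟨main h fun i =>
    (hh i).trans (mul_le_mul_of_nonneg_right hκ hD.le), fun l hl x hx => ?_⟩⟩
  have := hC' (D⁻¹ • O) 0 h κ hκ (key h κ hh) l hl x hx
  rw [← e] at this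
  have hκ0 : 0 ≤ κ := (abs_nonneg _).trans (key h κ hh 0 0)
  nlinarith

theorem sa_sq_zero {t : ℝ} (h : 9 / 10 ≤ |t|) : sa t ^ 2 = 0 := by rw [sa_zero h]; norm_num

/-- bounds of `alh`, its square and `beth` at the scale `D` and at smaller scales -/
theorem cb_cut (n : ℕ) : ∃ C : ℝ, 1 ≤ C ∧ ∀ (O : Mx) (D : ℝ), Orth O → 0 < D →
    (CB n (cv D) univ (alh O D) C ∧ CB n (cv D) univ (fun x => alh O D x ^ 2) C ∧
      CB n (cv D) univ (beth O D) C) ∧
    ∀ (h : V) (κ : ℝ), κ ≤ 1 → (∀ i, |h i| ≤ κ * D) →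
      (CB n h univ (alh O D) C ∧ CB n h univ (fun x => alh O D x ^ 2) C ∧
        CB n h univ (beth O D) C) ∧
      CV n h univ (alh O D) (C * κ) ∧ CV n h univ (fun x => alh O D x ^ 2) (C * κ) ∧
        CV n h univ (beth O D) (C * κ) := by
  obtain ⟨C1, a1, h1⟩ := cb_rot (φ := fun _ => sa) (fun _ => sa_sm) (fun _ _ h => sa_zero h) n
  obtain ⟨C2, a2, h2⟩ := cb_rot (φ := fun _ t => sa t ^ 2) (fun _ => sa_sm.pow 2)
    (fun _ _ h => sa_sq_zero h) n
  obtain ⟨C3, a3, h3⟩ := cb_rot (φ := fun _ => bp (94 / 100) (95 / 100)) (fun _ => bp_sm _ _)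
    (fun _ _ h => bp_zero (by norm_num) h) n
  refine ⟨C1 + C2 + C3, by linarith, fun O D hO hD => ?_⟩
  have e : (fun x => alh O D x ^ 2) = fun x => ∏ i, sa ((O *ᵥ x) i / D) ^ 2 := by
    funext x
    rw [Finset.prod_pow]; rfl
  obtain ⟨p1, q1⟩ := h1 O D hO hD
  obtain ⟨p2, q2⟩ := h2 O D hO hD
  obtain ⟨p3, q3⟩ := h3 O D hO hD
  rw [e]
  refine ⟨⟨fun l hl x hx => (p1 l hl x hx).trans (by linarith),
    fun l hl x hx => (p2 l hl x hx).trans (by linarith),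
    fun l hl x hx => (p3 l hl x hx).trans (by linarith)⟩, fun h κ hκ hh => ?_⟩
  have hκ0 : 0 ≤ κ := by
    have := (abs_nonneg _).trans (hh 0)
    exact nonneg_of_mul_nonneg_left this hD
  exact ⟨⟨fun l hl x hx => ((q1 h κ hκ hh).1 l hl x hx).trans (by linarith),
    fun l hl x hx => ((q2 h κ hκ hh).1 l hl x hx).trans (by linarith),
    fun l hl x hx => ((q3 h κ hκ hh).1 l hl x hx).trans (by linarith)⟩,
    fun l hl x hx => ((q1 h κ hκ hh).2 l hl x hx).trans (by nlinarith),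
    fun l hl x hx => ((q2 h κ hκ hh).2 l hl x hx).trans (by nlinarith),
    fun l hl x hx => ((q3 h κ hκ hh).2 l hl x hx).trans (by nlinarith)⟩

theorem cb_alh (n : ℕ) : ∃ C : ℝ, 1 ≤ C ∧ ∀ (O : Mx) (D : ℝ), Orth O → 0 < D →
    CB n (cv D) univ (alh O D) C := by
  obtain ⟨C, h1, h⟩ := cb_cut n
  exact ⟨C, h1, fun O D hO hD => (h O D hO hD).1.1⟩
theorem cb_beth (n : ℕ) : ∃ C : ℝ, 1 ≤ C ∧ ∀ (O : Mx) (D : ℝ), Orth O → 0 < D →
    CB n (cv D) univ (beth O D) C := by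
  obtain ⟨C, h1, h⟩ := cb_cut n
  exact ⟨C, h1, fun O D hO hD => (h O D hO hD).1.2.2⟩
theorem cb_al (n : ℕ) : ∃ C : ℝ, 1 ≤ C ∧ ∀ (D : ℝ) (g : Cu), D ≠ 0 →
    CB n (cv D) univ (al D g) C ∧ CB n (cv D) univ (fun x => al D g x ^ 2) C := by
  obtain ⟨C1, a1, h1⟩ := cb_tp (φ := fun _ => sa) (fun _ => sa_sm) (fun _ _ h => sa_zero h) n
  obtain ⟨C2, a2, h2⟩ := cb_tp (φ := fun _ t => sa t ^ 2) (fun _ => sa_sm.pow 2)
    (fun _ _ h => sa_sq_zero h) n
  refine ⟨C1 + C2, by linarith, fun D g hD => ?_⟩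
  have e1 : al D g = fun x => ∏ i, sa (x i / cv D i - g i) := funext (al_eq hD g)
  have e2 : (fun x => al D g x ^ 2) = fun x => ∏ i, sa (x i / cv D i - g i) ^ 2 := by
    funext x
    rw [Finset.prod_pow, e1]
  rw [e2]
  refine ⟨fun l hl x hx => ?_, fun l hl x hx => (h2 _ _ l hl x hx).trans (by linarith)⟩
  rw [e1]
  exact (h1 _ _ l hl x hx).trans (by linarith)

/-! ## cells -/

theorem bc_sm (c : Pm) (g : Cu) : Sm (c.bc g) :=
  contDiff_prod fun i _ => pou_sm.comp (((contDiff_apply ℝ ℝ i).div_const _).sub contDiff_const)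
theorem bc_nonneg (c : Pm) (g : Cu) (z : V) : 0 ≤ c.bc g z :=
  Finset.prod_nonneg fun _ _ => pou_nonneg _
theorem bc_le_one (c : Pm) (g : Cu) (z : V) : c.bc g z ≤ 1 :=
  Finset.prod_le_one (fun _ _ => pou_nonneg _) fun _ _ => pou_le_one _
theorem bc_supp {c : Pm} {g : Cu} {z : V} (h : c.bc g z ≠ 0) (i : Fin 3) :
    |z i / c.cw i - g i| < 9 / 10 := pou_ne_zero (prod_ne_zero h i)
theorem bc_near {c : Pm} {g : Cu} {z : V} (h : c.bc g z ≠ 0) : c.Near g z :=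
  fun i => (bc_supp h i).le.trans (by norm_num)
theorem bc_zero {c : Pm} {g : Cu} {z : V} {i : Fin 3} (h : 9 / 10 ≤ |z i / c.cw i - g i|) :
    c.bc g z = 0 := Finset.prod_eq_zero (Finset.mem_univ i) (pou_zero h)
theorem bc_ge {c : Pm} {g : Cu} {z : V} (h : ∀ i, |z i / c.cw i - g i| ≤ 1 / 2) :
    1 / 8 ≤ c.bc g z :=
  calc (1 / 8 : ℝ) = ∏ _i : Fin 3, (1 / 2 : ℝ) := by simp; norm_num
    _ ≤ _ := Finset.prod_le_prod (fun _ _ => by norm_num) fun i _ => pou_ge_half (h i)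
theorem bc_sum (c : Pm) (z : V) : ∑ g ∈ nbs fun i => z i / c.cw i, c.bc g z = 1 := by
  unfold Pm.bc
  rw [sum_nbs_tp (fun _ => pou) fun i => z i / c.cw i]
  exact Finset.prod_eq_one fun i _ => pou_floor _
theorem bc_finsum (c : Pm) (z : V) : ∑ᶠ g, c.bc g z = 1 := by
  unfold Pm.bc
  rw [finsum_tp (φ := fun _ => pou) (fun _ t h => pou_zero (by linarith)) fun i => z i / c.cw i]
  exact Finset.prod_eq_one fun i _ => pou_floor _
theorem bc_mem_nbs {c : Pm} {g : Cu} {z : V} (h : c.bc g z ≠ 0) :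
    g ∈ nbs fun i => z i / c.cw i := mem_nbs_of_lt fun i => (bc_supp h i).trans (by norm_num)
theorem near_of_mem_nbs {c : Pm} {g : Cu} {z : V} (h : g ∈ nbs fun i => z i / c.cw i) :
    c.Near g z := abs_le_of_mem_nbs h
theorem bc_fin (c : Pm) (z : V) : (Function.support fun g => c.bc g z).Finite :=
  (nbs fun i => z i / c.cw i).finite_toSet.subset fun _ hg => bc_mem_nbs hg
theorem exists_cell (c : Pm) (z : V) : ∃ g : Cu, ∀ i, |z i / c.cw i - g i| ≤ 1 / 2 :=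
  ⟨fun i => round (z i / c.cw i), fun _ => abs_sub_round _⟩
theorem near_dist {c : Pm} (hc : ∀ i, 0 < c.cw i) {g : Cu} {z z' : V} (h : c.Near g z)
    (h' : c.Near g z') (i : Fin 3) : |z i - z' i| ≤ 2 * c.cw i := by
  have h1 := abs_le.1 (h i)
  have h2 := abs_le.1 (h' i)
  have h3 : |z i / c.cw i - z' i / c.cw i| ≤ 2 := by
    rw [abs_le]; constructor <;> linarith
  rwa [← sub_div, abs_div, abs_of_pos (hc i), div_le_iff₀ (hc i)] at h3
theorem bc_hcs {c : Pm} (hc : ∀ i, 0 < c.cw i) (g : Cu) : HasCompactSupport (c.bc g) := by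
  refine HasCompactSupport.intro (isCompact_Icc (a := fun i => (g i - 1) * c.cw i)
    (b := fun i => (g i + 1) * c.cw i)) fun z hz => ?_
  by_contra h0
  refine hz ⟨fun i => ?_, fun i => ?_⟩
  · have := (abs_le.1 (bc_near h0 i)).1
    exact (le_div_iff₀ (hc i)).1 (by linarith)
  · have := (abs_le.1 (bc_near h0 i)).2
    exact (div_le_iff₀ (hc i)).1 (by linarith)
theorem cb_bc (n : ℕ) : ∃ C : ℝ, 1 ≤ C ∧ ∀ (c : Pm) (g : Cu), CB n c.cw univ (c.bc g) C := by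
  obtain ⟨C, h1, h⟩ := cb_tp (φ := fun _ => pou) (fun _ => pou_sm) (fun _ _ h => pou_zero h) n
  exact ⟨C, h1, fun c g => h c.cw fun i => g i⟩

end
end Pool.Agent.MP_20bec2_an.T3.Prof

end MrgPart1

-- ======== part 2: formerly Pool.Agent.MP_20bec2_an.T3.Glue
section MrgPart2

/-! Toolbox GLUE: sums over the lattice of functions supported in cells or boxes. -/

set_option autoImplicit false
open MeasureTheory Set Filter Matrix Topology

namespace Pool.Agent.MP_20bec2_an.T3.Glue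
noncomputable section
open Classical Prof

/-- the cell of index `g`, widths `h`, relative radius `r` -/
def cell (h : V) (g : Cu) (r : ℝ) : Set V := {x | ∀ i, |x i / h i - g i| ≤ r}
/-- the eight indices next to `x` -/
def nb8 (h x : V) : Finset Cu := nbs fun i => x i / h i
/-- `φ g` vanishes off the cell `g` -/
def Sup {E : Type*} [Zero E] (h : V) (r : ℝ) (φ : Cu → V → E) : Prop :=
  ∀ g x, x ∉ cell h g r → φ g x = 0
/-- only the colour `j` is present -/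
def Col {E : Type*} [Zero E] (j : ℕ) (φ : Cu → V → E) : Prop := ∀ g x, col g ≠ j → φ g x = 0

theorem cell_cv {D : ℝ} (hD : 0 < D) (g : Cu) (r : ℝ) : cell (cv D) g r = box D g r := by
  ext x
  exact (mem_box' hD).symm
theorem near_iff (c : Pm) (g : Cu) (z : V) : c.Near g z ↔ z ∈ cell c.cw g 1 := Iff.rfl
theorem cell_closed (h : V) (g : Cu) (r : ℝ) : IsClosed (cell h g r) := by
  simp only [cell, ofPred_forall]
  exact isClosed_iInter fun i => isClosed_le (by fun_prop) continuous_const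
theorem cell_mono (h : V) (g : Cu) {r r' : ℝ} (hr : r ≤ r') : cell h g r ⊆ cell h g r' :=
  fun _ hx i => (hx i).trans hr
theorem cell_nhds {h : V} {g : Cu} {r r' : ℝ} (hr : r < r') {x : V} (hx : x ∈ cell h g r) :
    cell h g r' ∈ 𝓝 x := by
  have : ∀ i, ∀ᶠ y in 𝓝 x, |y i / h i - g i| ≤ r' := fun i =>
    (Filter.Tendsto.eventually_lt_const (lt_of_le_of_lt (hx i) hr)
      (by fun_prop : Continuous fun y : V => |y i / h i - g i|).continuousAt).mono fun _ => le_of_lt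
  exact eventually_all.2 this
theorem cell_convex (h : V) (g : Cu) (r : ℝ) : Convex ℝ (cell h g r) := by
  intro x hx y hy a b ha hb hab i
  have h1 := abs_le.1 (hx i)
  have h2 := abs_le.1 (hy i)
  have e : (a • x + b • y) i / h i - g i = a * (x i / h i - g i) + b * (y i / h i - g i) := by
    simp only [Pi.add_apply, Pi.smul_apply, smul_eq_mul]
    linear_combination (g i : ℝ) * hab
  rw [e, abs_le]
  constructor <;> nlinarith
theorem cell_compact {h : V} (hh : ∀ i, 0 < h i) (g : Cu) (r : ℝ) : IsCompact (cell h g r) := by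
  refine (isCompact_Icc (a := fun i => (g i - r) * h i)
    (b := fun i => (g i + r) * h i)).of_isClosed_subset (cell_closed h g r) fun z hz => ?_
  refine ⟨fun i => ?_, fun i => ?_⟩
  · have := (abs_le.1 (hz i)).1
    exact (le_div_iff₀ (hh i)).1 (by linarith)
  · have := (abs_le.1 (hz i)).2
    exact (div_le_iff₀ (hh i)).1 (by linarith)
theorem card_nb8 (h x : V) : (nb8 h x).card = 8 := card_nbs _
theorem mem_nb8 {h x : V} {g : Cu} {r : ℝ} (hr : r < 1) (hx : x ∈ cell h g r) : g ∈ nb8 h x :=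
  mem_nbs_of_lt fun i => (hx i).trans_lt hr
theorem cell_of_nb8 {h x : V} {g : Cu} (hg : g ∈ nb8 h x) : x ∈ cell h g 1 := abs_le_of_mem_nbs hg
theorem cell_nbr {h x : V} {g g' : Cu} {r r' : ℝ} {m : ℤ} (hm : r + r' < m + 1)
    (hx : x ∈ cell h g r) (hx' : x ∈ cell h g' r') : Nbr m g g' := by
  intro i
  have h1 := abs_le.1 (hx i)
  have h2 := abs_le.1 (hx' i)
  have h3 : |(g i : ℝ) - g' i| < m + 1 := by
    rw [abs_lt]; constructor <;> linarith
  have h4 : |g i - g' i| < m + 1 := by exact_mod_cast h3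
  omega
theorem col_cell_unique {h x : V} {g g' : Cu} {r r' : ℝ} (hr : r + r' < 2) (hc : col g = col g')
    (hx : x ∈ cell h g r) (hx' : x ∈ cell h g' r') : g = g' :=
  col_eq_of_nbr hc (cell_nbr (by push_cast; linarith) hx hx')

/-- near `x` only the eight cells next to `x` are met -/
theorem ev_off (h : V) {r : ℝ} (hr : r < 1) (x : V) :
    ∀ᶠ y in 𝓝 x, ∀ g, y ∈ cell h g r → g ∈ nb8 h x := by
  have : ∀ i, ∀ᶠ y in 𝓝 x, |y i / h i - x i / h i| < 1 - r := fun i =>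
    Filter.Tendsto.eventually_lt_const (by simpa using hr)
      (by fun_prop : Continuous fun y : V => |y i / h i - x i / h i|).continuousAt
  filter_upwards [eventually_all.2 this] with y hy g hg
  refine mem_nbs_of_lt fun i => ?_
  have h1 := abs_lt.1 (hy i)
  have h2 := abs_le.1 (hg i)
  rw [abs_lt]
  constructor <;> linarith

/-- near a point outside all cells of a family no cell of the family is met -/
theorem ev_out (h : V) {r : ℝ} (hr : r < 1) (p : Cu → Prop) {x : V}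
    (hx : ∀ g, p g → x ∉ cell h g r) : ∀ᶠ y in 𝓝 x, ∀ g, p g → y ∉ cell h g r := by
  have h1 : ∀ᶠ y in 𝓝 x, ∀ g ∈ nb8 h x, p g → y ∉ cell h g r :=
    (eventually_all_finset _).2 fun g _ => by
      by_cases hp : p g
      · filter_upwards [(cell_closed h g r).isOpen_compl.mem_nhds (hx g hp)] with y hy _ using hy
      · exact Eventually.of_forall fun y hq => absurd hq hp
  filter_upwards [h1, ev_off h hr x] with y hy hy' g hg hc using hy g (hy' g hc) hg hc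

/-! ## building `Sup` and `Col` -/

section basic
variable {E E' : Type*} [Zero E] [Zero E'] {h : V} {r r' : ℝ} {φ : Cu → V → E} {j : ℕ}

theorem sup_box {D : ℝ} (hD : 0 < D) (H : ∀ g x, x ∉ box D g r → φ g x = 0) : Sup (cv D) r φ :=
  fun g x hx => H g x (by rwa [cell_cv hD] at hx)
theorem Sup.box {D : ℝ} (hD : 0 < D) (H : Sup (cv D) r φ) (g : Cu) (x : V) (hx : x ∉ box D g r) :
    φ g x = 0 := H g x (by rwa [cell_cv hD])
theorem sup_of_ne (H : ∀ g x, φ g x ≠ 0 → x ∈ cell h g r) : Sup h r φ := fun g x hx => by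
  by_contra hc
  exact hx (H g x hc)
theorem Sup.mem (H : Sup h r φ) {g : Cu} {x : V} (hx : φ g x ≠ 0) : x ∈ cell h g r := by
  by_contra hc
  exact hx (H g x hc)
theorem Sup.mono (H : Sup h r φ) (hr : r ≤ r') : Sup h r' φ :=
  fun g x hx => H g x fun hc => hx (cell_mono h g hr hc)
theorem Sup.map (H : Sup h r φ) {ψ : Cu → V → E'} (hT : ∀ g x, φ g x = 0 → ψ g x = 0) :
    Sup h r ψ := fun g x hx => hT g x (H g x hx)
theorem Sup.ite (H : Sup h r φ) (p : Cu → Prop) [DecidablePred p] :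
    Sup h r fun g x => if p g then φ g x else 0 :=
  H.map fun g x h0 => by rw [h0, ite_self]
theorem col_ite (j : ℕ) (φ : Cu → V → E) [∀ g, Decidable (col g = j)] :
    Col j fun g x => if col g = j then φ g x else 0 := fun _ _ hg => if_neg hg
theorem Col.map (H : Col j φ) {ψ : Cu → V → E'} (hT : ∀ g x, φ g x = 0 → ψ g x = 0) : Col j ψ :=
  fun g x hx => hT g x (H g x hx)
theorem Col.eq (H : Col j φ) {g : Cu} {x : V} (hx : φ g x ≠ 0) : col g = j := by
  by_contra hc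
  exact hx (H g x hc)
theorem Sup.ev_zero (H : Sup h r φ) {g : Cu} {x : V} (hx : x ∉ cell h g r) :
    φ g =ᶠ[𝓝 x] fun _ => 0 :=
  Filter.eventuallyEq_of_mem ((cell_closed h g r).isOpen_compl.mem_nhds hx) fun y hy => H g y hy
theorem Sup.fin (H : Sup h r φ) (hr : r < 1) (x : V) : (Function.support fun g => φ g x).Finite :=
  (nb8 h x).finite_toSet.subset fun _ hg => mem_nb8 hr (H.mem hg)
theorem Sup.locFin (H : Sup h r φ) (hr : r < 1) : LocallyFinite fun g => Function.support (φ g) :=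
  fun x => ⟨_, ev_off h hr x, (nb8 h x).finite_toSet.subset fun g ⟨_, hy, hy'⟩ => hy' g (H.mem hy)⟩
end basic

theorem sup_al {D : ℝ} (hD : 0 < D) : Sup (cv D) (9 / 10) (al D) :=
  sup_box hD fun _ _ hx => al_zero hD hx
theorem sup_al_sq {D : ℝ} (hD : 0 < D) : Sup (cv D) (9 / 10) fun g x => al D g x ^ 2 :=
  (sup_al hD).map fun g x h0 => by rw [h0]; norm_num
theorem sup_bc (c : Pm) : Sup c.cw (9 / 10) c.bc := sup_of_ne fun _ _ hx i => (bc_supp hx i).le

/-- functions given in the hat coordinates of frames centred at the cubes -/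
theorem sup_xc {E : Type*} [Zero E] {D r : ℝ} (hD : 0 < D) {fr : Cu → Fr}
    (hf : ∀ g, (fr g).x0 = cen D g ∧ Orth (fr g).O) {ψ : Cu → V → E}
    (H : ∀ g x, x ∉ RX (fr g).O D r → ψ g x = 0) : Sup (cv D) r fun g x => ψ g ((fr g).xc x) :=
  sup_box hD fun g _ hx => H g _ fun hc => hx ((xc_mem_RX (hf g).2 (hf g).1).1 hc)

/-! ## the sum -/

section sums
variable {E : Type*} [AddCommMonoid E] {h : V} {r r' : ℝ} {φ ψ : Cu → V → E} {j : ℕ}

theorem Sup.eq_sum (H : Sup h r φ) (hr : r < 1) (x : V) :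
    ∑ᶠ g, φ g x = ∑ g ∈ nb8 h x, φ g x :=
  finsum_eq_sum_of_support_subset _ fun _ hg => mem_nb8 hr (H.mem hg)
theorem Sup.ev (H : Sup h r φ) (hr : r < 1) (x : V) :
    (fun y => ∑ᶠ g, φ g y) =ᶠ[𝓝 x] fun y => ∑ g ∈ nb8 h x, φ g y := by
  filter_upwards [ev_off h hr x] with y hy
  exact finsum_eq_sum_of_support_subset _ fun g hg => hy g (H.mem hg)
theorem Sup.add (H : Sup h r φ) (H' : Sup h r ψ) : Sup h r fun g x => φ g x + ψ g x :=
  fun g x hx => by simp only [H g x hx, H' g x hx, add_zero]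
theorem Sup.finsum_add (H : Sup h r φ) (H' : Sup h r ψ) (hr : r < 1) (x : V) :
    ∑ᶠ g, (φ g x + ψ g x) = ∑ᶠ g, φ g x + ∑ᶠ g, ψ g x :=
  finsum_add_distrib (H.fin hr x) (H'.fin hr x)
theorem Sup.map_finsum {E' : Type*} [AddCommMonoid E'] (H : Sup h r φ) (hr : r < 1) (T : E →+ E')
    (x : V) : T (∑ᶠ g, φ g x) = ∑ᶠ g, T (φ g x) := T.map_finsum (H.fin hr x)
theorem finsum_col (j : ℕ) (f : Cu → E) :
    ∑ᶠ (g) (_ : col g = j), f g = ∑ᶠ g, if col g = j then f g else 0 :=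
  finsum_congr fun _ => finsum_eq_if
theorem Sup.sum_col (H : Sup h r φ) (hr : r < 1) (x : V) :
    ∑ j ∈ Finset.range 8, ∑ᶠ g, (if col g = j then φ g x else 0) = ∑ᶠ g, φ g x := by
  have e : ∀ j, ∑ᶠ g, (if col g = j then φ g x else 0) =
      ∑ g ∈ nb8 h x, if col g = j then φ g x else 0 := fun j =>
    (H.ite fun g => col g = j).eq_sum hr x
  simp only [e]
  rw [H.eq_sum hr, Finset.sum_comm]
  refine Finset.sum_congr rfl fun g _ => ?_
  rw [Finset.sum_ite_eq, if_pos (Finset.mem_range.2 (col_lt g))]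

/-- one colour: in a cell of that colour the sum is the term of the cell -/
theorem Sup.one_eq (H : Sup h r φ) (hc : Col j φ) {g : Cu} (hg : col g = j) (hr : r + r' < 2)
    {x : V} (hx : x ∈ cell h g r') : ∑ᶠ g', φ g' x = φ g x := by
  refine finsum_eq_single _ g fun g' hne => ?_
  by_contra h0
  exact hne (col_cell_unique hr ((hc.eq h0).trans hg.symm) (H.mem h0) hx)
theorem Sup.one_ev (H : Sup h r φ) (hc : Col j φ) {g : Cu} (hg : col g = j) (hr : r + r' < 2)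
    {x : V} (hx : x ∈ cell h g r') : (fun y => ∑ᶠ g', φ g' y) =ᶠ[𝓝 x] φ g := by
  filter_upwards [cell_nhds (r' := (2 - r + r') / 2) (by linarith) hx] with y hy
  exact H.one_eq hc hg (by linarith) hy
theorem Sup.one_zero (H : Sup h r φ) (hc : Col j φ) {x : V}
    (hx : ∀ g, col g = j → x ∉ cell h g r) : ∑ᶠ g, φ g x = 0 :=
  finsum_eq_zero_of_forall_eq_zero fun g => by
    by_contra h0
    exact hx g (hc.eq h0) (H.mem h0)
theorem Sup.one_zero_ev (H : Sup h r φ) (hc : Col j φ) (hr : r < 1) {x : V}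
    (hx : ∀ g, col g = j → x ∉ cell h g r) : (fun y => ∑ᶠ g, φ g y) =ᶠ[𝓝 x] fun _ => 0 := by
  filter_upwards [ev_out h hr _ hx] with y hy using H.one_zero hc hy
theorem Sup.one_cases (H : Sup h r φ) (hc : Col j φ) (hr : r < 1) (x : V) :
    (∃ g, col g = j ∧ x ∈ cell h g r ∧ (fun y => ∑ᶠ g', φ g' y) =ᶠ[𝓝 x] φ g) ∨
    ((∀ g, col g = j → x ∉ cell h g r) ∧ (fun y => ∑ᶠ g, φ g y) =ᶠ[𝓝 x] fun _ => 0) := by
  by_cases hx : ∃ g, col g = j ∧ x ∈ cell h g r
  · obtain ⟨g, hg, hx⟩ := hx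
    exact Or.inl ⟨g, hg, hx, H.one_ev hc hg (by linarith) hx⟩
  · push Not at hx
    exact Or.inr ⟨hx, H.one_zero_ev hc hr hx⟩
theorem Sup.zero_ev (H : Sup h r φ) (hr : r < 1) {x : V} (p : Cu → Prop)
    (hp : ∀ g, ¬ p g → ∀ y, φ g y = 0) (hx : ∀ g, p g → x ∉ cell h g r) :
    (fun y => ∑ᶠ g, φ g y) =ᶠ[𝓝 x] fun _ => 0 := by
  filter_upwards [ev_out h hr p hx] with y hy
  refine finsum_eq_zero_of_forall_eq_zero fun g => ?_
  by_cases hg : p g
  · exact H g y (hy g hg)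
  · exact hp g hg y
end sums

/-! ## regularity -/

section reg
variable {E : Type*} [NormedAddCommGroup E] [NormedSpace ℝ E] {h : V} {r : ℝ} {φ : Cu → V → E}
  {j : ℕ}

theorem Sup.contDiff (H : Sup h r φ) (hr : r < 1) {n : WithTop ℕ∞} (hs : ∀ g, ContDiff ℝ n (φ g)) :
    ContDiff ℝ n fun x => ∑ᶠ g, φ g x :=
  contDiff_iff_contDiffAt.2 fun x =>
    (ContDiff.sum fun g _ => hs g).contDiffAt.congr_of_eventuallyEq (H.ev hr x)
theorem Sup.sm (H : Sup h r φ) (hr : r < 1) (hs : ∀ g, Sm (φ g)) : Sm fun x => ∑ᶠ g, φ g x :=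
  H.contDiff hr hs
theorem Sup.differentiable (H : Sup h r φ) (hr : r < 1) (hs : ∀ g, Differentiable ℝ (φ g)) :
    Differentiable ℝ fun x => ∑ᶠ g, φ g x := fun x =>
  (DifferentiableAt.fun_sum fun g _ => hs g x).congr_of_eventuallyEq (H.ev hr x)
theorem Sup.fderiv (H : Sup h r φ) : Sup h r fun g => fderiv ℝ (φ g) := fun g x hx => by
  show _root_.fderiv ℝ (φ g) x = 0
  rw [(H.ev_zero hx).fderiv_eq]; simp
theorem Sup.fderiv_finsum (H : Sup h r φ) (hr : r < 1) (x : V)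
    (hs : ∀ g, DifferentiableAt ℝ (φ g) x) :
    _root_.fderiv ℝ (fun y => ∑ᶠ g, φ g y) x = ∑ᶠ g, _root_.fderiv ℝ (φ g) x := by
  rw [(H.ev hr x).fderiv_eq, fderiv_fun_sum fun g _ => hs g, H.fderiv.eq_sum hr]
omit [NormedSpace ℝ E] in
theorem Sup.norm_le (H : Sup h r φ) (hr : r < 1) {x : V} {B : ℝ} (hB : 0 ≤ B)
    (hb : ∀ g, x ∈ cell h g r → ‖φ g x‖ ≤ B) : ‖∑ᶠ g, φ g x‖ ≤ 8 * B := by
  rw [H.eq_sum hr]
  refine (norm_sum_le _ _).trans ((Finset.sum_le_card_nsmul _ _ B fun g _ => ?_).trans ?_)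
  · by_cases hx : x ∈ cell h g r
    · exact hb g hx
    · rw [H g x hx, norm_zero]; exact hB
  · rw [card_nb8]; simp
omit [NormedSpace ℝ E] in
theorem Sup.one_norm_le (H : Sup h r φ) (hc : Col j φ) (hr : r < 1) {x : V} {B : ℝ} (hB : 0 ≤ B)
    (hb : ∀ g, col g = j → x ∈ cell h g r → ‖φ g x‖ ≤ B) : ‖∑ᶠ g, φ g x‖ ≤ B := by
  rcases H.one_cases hc hr x with ⟨g, hg, hx, e⟩ | ⟨-, e⟩
  · rw [e.eq_of_nhds]; exact hb g hg hx
  · rw [e.eq_of_nhds, norm_zero]; exact hB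
end reg

theorem Sup.continuous {E : Type*} [AddCommMonoid E] [TopologicalSpace E] [ContinuousAdd E]
    {h : V} {r : ℝ} {φ : Cu → V → E} (H : Sup h r φ) (hr : r < 1) (hs : ∀ g, Continuous (φ g)) :
    Continuous fun x => ∑ᶠ g, φ g x := continuous_finsum hs (H.locFin hr)

section scalar
variable {h : V} {r : ℝ} {φ : Cu → V → ℝ} {j : ℕ}

theorem Sup.measurable (H : Sup h r φ) (hr : r < 1) (hs : ∀ g, Measurable (φ g)) :
    Measurable fun x => ∑ᶠ g, φ g x := by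
  have e : (fun x => ∑ᶠ g, φ g x) = fun x => ∑' g, φ g x :=
    funext fun x => (tsum_eq_finsum (H.fin hr x)).symm
  rw [e]
  exact Measurable.tsum hs
theorem Sup.pds (H : Sup h r φ) (l : List (Fin 3)) : Sup h r fun g => pds l (φ g) :=
  fun _ _ hx => pds_zero_of_eventually (H.ev_zero hx) l
theorem Sup.pd (H : Sup h r φ) (i : Fin 3) : Sup h r fun g => pd i (φ g) := H.pds [i]
theorem Sup.pds_sum (H : Sup h r φ) (hr : r < 1) (hs : ∀ g, Sm (φ g)) (l : List (Fin 3)) (x : V) :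
    T3.pds l (fun y => ∑ᶠ g, φ g y) x = ∑ g ∈ nb8 h x, T3.pds l (φ g) x := by
  rw [pds_congr (H.ev hr x), T3.pds_sum _ fun g _ => hs g]
theorem Sup.pds_finsum (H : Sup h r φ) (hr : r < 1) (hs : ∀ g, Sm (φ g)) (l : List (Fin 3))
    (x : V) : T3.pds l (fun y => ∑ᶠ g, φ g y) x = ∑ᶠ g, T3.pds l (φ g) x := by
  rw [H.pds_sum hr hs, (H.pds l).eq_sum hr]
theorem Sup.pd_finsum (H : Sup h r φ) (hr : r < 1) (i : Fin 3) (x : V)
    (hs : ∀ g, DifferentiableAt ℝ (φ g) x) :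
    T3.pd i (fun y => ∑ᶠ g, φ g y) x = ∑ᶠ g, T3.pd i (φ g) x := by
  rw [pd_congr (H.ev hr x), pd_sum_at _ fun g _ => hs g, (H.pd i).eq_sum hr]
theorem Sup.abs_le (H : Sup h r φ) (hr : r < 1) {x : V} {B : ℝ} (hB : 0 ≤ B)
    (hb : ∀ g, x ∈ cell h g r → |φ g x| ≤ B) : |∑ᶠ g, φ g x| ≤ 8 * B := H.norm_le hr hB hb
theorem Sup.nonneg (hb : ∀ g x, 0 ≤ φ g x) (x : V) : 0 ≤ ∑ᶠ g, φ g x :=
  finsum_nonneg fun g => hb g x
theorem Sup.le_finsum (H : Sup h r φ) (hr : r < 1) {x : V} (hb : ∀ g, 0 ≤ φ g x) (g : Cu) :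
    φ g x ≤ ∑ᶠ g, φ g x := single_le_finsum g (H.fin hr x) hb
theorem Sup.mul (H : Sup h r φ) (ψ : Cu → V → ℝ) : Sup h r fun g x => φ g x * ψ g x :=
  H.map fun g x h0 => by rw [h0, zero_mul]
theorem Sup.mul_left (H : Sup h r φ) (ψ : Cu → V → ℝ) : Sup h r fun g x => ψ g x * φ g x :=
  H.map fun g x h0 => by rw [h0, mul_zero]
theorem Sup.smul {E : Type*} [AddCommMonoid E] [Module ℝ E] (H : Sup h r φ) (ψ : Cu → V → E) :
    Sup h r fun g x => φ g x • ψ g x := H.map fun g x h0 => by rw [h0, zero_smul]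

/-- bounds of the sum: a factor eight -/
theorem Sup.cbl (H : Sup h r φ) (hr : r < 1) (hs : ∀ g, Sm (φ g)) {P : List (Fin 3) → Prop}
    {k : V} (hk : ∀ i, 0 ≤ k i) {U : Set V} {B : ℝ} (hB : 0 ≤ B)
    (hb : ∀ g, CBl P k (U ∩ cell h g r) (φ g) B) : CBl P k U (fun x => ∑ᶠ g, φ g x) (8 * B) := by
  refine cbl_of_local fun x hx => ?_
  have h1 := CBl.sum_card (nb8 h x) (U := {x}) hk (fun g _ => hs g) fun g _ =>
    ((hb g).extend (cell_closed h g r) (H g) hB).monoU (singleton_subset_iff.2 hx)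
  rw [card_nb8] at h1
  exact CBl.congr (by exact_mod_cast h1) fun y hy => by rw [hy]; exact H.ev hr x
/-- one colour: no loss, no smoothness needed -/
theorem Sup.one_cbl (H : Sup h r φ) (hc : Col j φ) (hr : r < 1) {P : List (Fin 3) → Prop}
    {k : V} {U : Set V} {B : ℝ} (hB : 0 ≤ B)
    (hb : ∀ g, col g = j → CBl P k (U ∩ cell h g r) (φ g) B) :
    CBl P k U (fun x => ∑ᶠ g, φ g x) B := by
  intro l hl x hU
  rcases H.one_cases hc hr x with ⟨g, hg, hx, e⟩ | ⟨-, e⟩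
  · rw [pds_congr e]; exact hb g hg l hl x ⟨hU, hx⟩
  · rw [pds_zero_of_eventually e]; simpa using hB
end scalar

section vec
variable {h : V} {r r' : ℝ} {φ : Cu → V → V} {j : ℕ}

theorem Sup.coord (H : Sup h r φ) (i : Fin 3) : Sup h r fun g x => φ g x i :=
  H.map fun g x h0 => by rw [h0]; rfl
theorem Col.coord (H : Col j φ) (i : Fin 3) : Col j fun g x => φ g x i :=
  H.map fun g x h0 => by rw [h0]; rfl
theorem Sup.apply (H : Sup h r φ) (hr : r < 1) (x : V) (i : Fin 3) :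
    (∑ᶠ g, φ g x) i = ∑ᶠ g, φ g x i := by
  rw [H.eq_sum hr, (H.coord i).eq_sum hr, Finset.sum_apply]
theorem Sup.apply' (H : Sup h r φ) (hr : r < 1) (i : Fin 3) :
    (fun x => (∑ᶠ g, φ g x) i) = fun x => ∑ᶠ g, φ g x i := funext fun x => H.apply hr x i
theorem Sup.mulVec (H : Sup h r φ) (hr : r < 1) (A : Mx) (x : V) :
    A *ᵥ ∑ᶠ g, φ g x = ∑ᶠ g, A *ᵥ φ g x := H.map_finsum hr A.mulVecLin.toAddMonoidHom x
theorem Sup.measurableV (H : Sup h r φ) (hr : r < 1) (hs : ∀ g, Measurable (φ g)) :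
    Measurable fun x => ∑ᶠ g, φ g x :=
  measurable_pi_lambda _ fun i => by
    rw [H.apply' hr]
    exact (H.coord i).measurable hr fun g => (measurable_pi_apply i).comp (hs g)
theorem jm_ev {Z Z' : V → V} {x : V} (e : Z =ᶠ[𝓝 x] Z') : jm Z x = jm Z' x := by
  ext i k
  exact pd_congr (e.mono fun _ hy => congrFun hy i) k
theorem dv_ev {Z Z' : V → V} {x : V} (e : Z =ᶠ[𝓝 x] Z') : dv Z x = dv Z' x :=
  Finset.sum_congr rfl fun i _ => pd_congr (e.mono fun _ hy => congrFun hy i) i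
theorem jm_zero (x : V) : jm (fun _ => 0) x = 0 := by
  ext i k
  simp [jm]
theorem dv_zero (x : V) : dv (fun _ => 0) x = 0 := by simp [dv]
theorem Sup.jm (H : Sup h r φ) : Sup h r fun g => jm (φ g) := fun g x hx => by
  show T3.jm (φ g) x = 0
  rw [jm_ev (H.ev_zero hx), jm_zero]
theorem Sup.dv (H : Sup h r φ) : Sup h r fun g => dv (φ g) := fun g x hx => by
  show T3.dv (φ g) x = 0
  rw [dv_ev (H.ev_zero hx), dv_zero]
theorem Sup.jm_sum (H : Sup h r φ) (hr : r < 1) (x : V) (hs : ∀ g, DifferentiableAt ℝ (φ g) x) :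
    T3.jm (fun y => ∑ᶠ g, φ g y) x = ∑ g ∈ nb8 h x, T3.jm (φ g) x := by
  rw [jm_ev (H.ev hr x)]
  ext i k
  simp only [T3.jm, of_apply, Finset.sum_apply, Matrix.sum_apply]
  exact pd_sum_at _ (fun g _ => differentiableAt_pi.1 (hs g) i) k
theorem Sup.jm_finsum (H : Sup h r φ) (hr : r < 1) (x : V) (hs : ∀ g, DifferentiableAt ℝ (φ g) x) :
    T3.jm (fun y => ∑ᶠ g, φ g y) x = ∑ᶠ g, T3.jm (φ g) x := by
  rw [H.jm_sum hr x hs, H.jm.eq_sum hr]
theorem Sup.dv_sum (H : Sup h r φ) (hr : r < 1) (x : V) (hs : ∀ g, DifferentiableAt ℝ (φ g) x) :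
    T3.dv (fun y => ∑ᶠ g, φ g y) x = ∑ g ∈ nb8 h x, T3.dv (φ g) x := by
  rw [dv_ev (H.ev hr x)]
  simp only [T3.dv, Finset.sum_apply]
  rw [Finset.sum_comm]
  exact Finset.sum_congr rfl fun i _ => pd_sum_at _ (fun g _ => differentiableAt_pi.1 (hs g) i) i
theorem Sup.dv_finsum (H : Sup h r φ) (hr : r < 1) (x : V) (hs : ∀ g, DifferentiableAt ℝ (φ g) x) :
    T3.dv (fun y => ∑ᶠ g, φ g y) x = ∑ᶠ g, T3.dv (φ g) x := by
  rw [H.dv_sum hr x hs, H.dv.eq_sum hr]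
theorem Sup.one_jm (H : Sup h r φ) (hc : Col j φ) {g : Cu} (hg : col g = j) (hr : r + r' < 2)
    {x : V} (hx : x ∈ cell h g r') : T3.jm (fun y => ∑ᶠ g', φ g' y) x = T3.jm (φ g) x :=
  jm_ev (H.one_ev hc hg hr hx)
theorem Sup.one_jm_zero (H : Sup h r φ) (hc : Col j φ) (hr : r < 1) {x : V}
    (hx : ∀ g, col g = j → x ∉ cell h g r) : T3.jm (fun y => ∑ᶠ g, φ g y) x = 0 := by
  rw [jm_ev (H.one_zero_ev hc hr hx), jm_zero]
end vec

section mat
variable {h : V} {r : ℝ} {φ : Cu → V → Mx} {j : ℕ}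

theorem Sup.entry (H : Sup h r φ) (i k : Fin 3) : Sup h r fun g x => φ g x i k :=
  H.map fun g x h0 => by rw [h0]; rfl
theorem Col.entry (H : Col j φ) (i k : Fin 3) : Col j fun g x => φ g x i k :=
  H.map fun g x h0 => by rw [h0]; rfl
theorem Sup.applyM (H : Sup h r φ) (hr : r < 1) (x : V) (i k : Fin 3) :
    (∑ᶠ g, φ g x) i k = ∑ᶠ g, φ g x i k := by
  rw [H.eq_sum hr, (H.entry i k).eq_sum hr, Matrix.sum_apply]
theorem Sup.applyM' (H : Sup h r φ) (hr : r < 1) (i k : Fin 3) :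
    (fun x => (∑ᶠ g, φ g x) i k) = fun x => ∑ᶠ g, φ g x i k := funext fun x => H.applyM hr x i k
theorem Sup.smM (H : Sup h r φ) (hr : r < 1) (hs : ∀ g, SmM (φ g)) :
    SmM fun x => ∑ᶠ g, φ g x := fun i k => by
  rw [H.applyM' hr]
  exact (H.entry i k).sm hr fun g => hs g i k
theorem Sup.contM (H : Sup h r φ) (hr : r < 1) (hs : ∀ g i k, Continuous fun x => φ g x i k)
    (i k : Fin 3) : Continuous fun x => (∑ᶠ g, φ g x) i k := by
  rw [H.applyM' hr]
  exact (H.entry i k).continuous hr fun g => hs g i k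
theorem Sup.eb (H : Sup h r φ) (hr : r < 1) {x : V} {B : Mx} (hB : ∀ i k, 0 ≤ B i k)
    (hb : ∀ g, x ∈ cell h g r → EB (φ g x) B) : EB (∑ᶠ g, φ g x) ((8 : ℝ) • B) := fun i k => by
  rw [H.applyM hr]
  exact (H.entry i k).abs_le hr (hB i k) fun g hx => hb g hx i k
theorem Sup.symm (H : Sup h r φ) (hr : r < 1) {x : V} (hb : ∀ g, (φ g x)ᵀ = φ g x) :
    (∑ᶠ g, φ g x)ᵀ = ∑ᶠ g, φ g x := by
  rw [H.eq_sum hr, transpose_sum]
  exact Finset.sum_congr rfl fun g _ => hb g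
end mat

/-! ## averages with the weights of a partition of unity -/

section avg
variable {h : V} {r : ℝ} {w : Cu → V → ℝ} {x : V}

theorem Sup.avg_norm {E : Type*} [NormedAddCommGroup E] [NormedSpace ℝ E] (H : Sup h r w)
    (hr : r < 1) (h0 : ∀ g, 0 ≤ w g x) (h1 : ∑ᶠ g, w g x = 1) {v : Cu → E} {c : E} {B : ℝ}
    (hb : ∀ g, w g x ≠ 0 → ‖v g - c‖ ≤ B) : ‖∑ᶠ g, w g x • v g - c‖ ≤ B := by
  have e := (H.smul fun g _ => v g).eq_sum hr x
  rw [H.eq_sum hr] at h1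
  have e2 : ∑ g ∈ nb8 h x, w g x • v g - c = ∑ g ∈ nb8 h x, w g x • (v g - c) := by
    simp only [smul_sub, Finset.sum_sub_distrib, ← Finset.sum_smul, h1, one_smul]
  rw [e, e2]
  calc _ ≤ ∑ g ∈ nb8 h x, ‖w g x • (v g - c)‖ := norm_sum_le _ _
    _ ≤ ∑ g ∈ nb8 h x, w g x * B := Finset.sum_le_sum fun g _ => by
        rw [norm_smul, Real.norm_eq_abs, abs_of_nonneg (h0 g)]
        by_cases hw : w g x = 0
        · simp [hw]
        · exact mul_le_mul_of_nonneg_left (hb g hw) (h0 g)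
    _ = B := by rw [← Finset.sum_mul, h1, one_mul]
theorem Sup.avg_abs (H : Sup h r w) (hr : r < 1) (h0 : ∀ g, 0 ≤ w g x) (h1 : ∑ᶠ g, w g x = 1)
    {v : Cu → ℝ} {c B : ℝ} (hb : ∀ g, w g x ≠ 0 → |v g - c| ≤ B) :
    |∑ᶠ g, w g x * v g - c| ≤ B := by
  simpa only [smul_eq_mul, Real.norm_eq_abs] using H.avg_norm (v := v) (c := c) hr h0 h1 hb
theorem Sup.avg_le (H : Sup h r w) (hr : r < 1) (h0 : ∀ g, 0 ≤ w g x) (h1 : ∑ᶠ g, w g x = 1)
    {v : Cu → ℝ} {B : ℝ} (hb : ∀ g, w g x ≠ 0 → v g ≤ B) : ∑ᶠ g, w g x * v g ≤ B := by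
  rw [(H.mul fun g _ => v g).eq_sum hr x]
  rw [H.eq_sum hr] at h1
  calc _ ≤ ∑ g ∈ nb8 h x, w g x * B := Finset.sum_le_sum fun g _ => by
        by_cases hw : w g x = 0
        · simp [hw]
        · exact mul_le_mul_of_nonneg_left (hb g hw) (h0 g)
    _ = B := by rw [← Finset.sum_mul, h1, one_mul]
theorem Sup.le_avg (H : Sup h r w) (hr : r < 1) (h0 : ∀ g, 0 ≤ w g x) (h1 : ∑ᶠ g, w g x = 1)
    {v : Cu → ℝ} {B : ℝ} (hb : ∀ g, w g x ≠ 0 → B ≤ v g) : B ≤ ∑ᶠ g, w g x * v g := by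
  rw [(H.mul fun g _ => v g).eq_sum hr x]
  rw [H.eq_sum hr] at h1
  calc B = ∑ g ∈ nb8 h x, w g x * B := by rw [← Finset.sum_mul, h1, one_mul]
    _ ≤ _ := Finset.sum_le_sum fun g _ => by
        by_cases hw : w g x = 0
        · simp [hw]
        · exact mul_le_mul_of_nonneg_left (hb g hw) (h0 g)
theorem Sup.avg_const {E : Type*} [AddCommGroup E] [Module ℝ E] (H : Sup h r w) (hr : r < 1)
    (h1 : ∑ᶠ g, w g x = 1) (c : E) : ∑ᶠ g, w g x • c = c := by
  rw [(H.smul fun _ _ => c).eq_sum hr x, ← Finset.sum_smul, ← H.eq_sum hr, h1, one_smul]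
theorem Sup.avg_eb (H : Sup h r w) (hr : r < 1) (h0 : ∀ g, 0 ≤ w g x) (h1 : ∑ᶠ g, w g x = 1)
    {v : Cu → Mx} {c B : Mx} (hb : ∀ g, w g x ≠ 0 → EB (v g - c) B) :
    EB (∑ᶠ g, w g x • v g - c) B := fun i k => by
  rw [Matrix.sub_apply, (H.smul fun g _ => v g).applyM hr x]
  exact H.avg_abs hr h0 h1 fun g hg => hb g hg i k
end avg

/-! ## the same statements for boxes -/

section boxes
variable {D r r' : ℝ} {j : ℕ}

theorem box_ev {E : Type*} [AddCommMonoid E] {φ : Cu → V → E} (hD : 0 < D) (hr : r < 1)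
    (H : ∀ g x, x ∉ box D g r → φ g x = 0) (x : V) :
    (fun y => ∑ᶠ g, φ g y) =ᶠ[𝓝 x] fun y => ∑ g ∈ nb8 (cv D) x, φ g y := (sup_box hD H).ev hr x
theorem box_sm {E : Type*} [NormedAddCommGroup E] [NormedSpace ℝ E] {φ : Cu → V → E} (hD : 0 < D)
    (hr : r < 1) (H : ∀ g x, x ∉ box D g r → φ g x = 0) (hs : ∀ g, Sm (φ g)) :
    Sm fun x => ∑ᶠ g, φ g x := (sup_box hD H).sm hr hs
theorem box_one_ev {E : Type*} [AddCommMonoid E] {φ : Cu → V → E} (hD : 0 < D) (hr : r + r' < 2)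
    (H : ∀ g x, x ∉ box D g r → φ g x = 0) {g : Cu} (hg : col g = j) {x : V}
    (hx : x ∈ box D g r') :
    (fun y => ∑ᶠ g', if col g' = j then φ g' y else 0) =ᶠ[𝓝 x] φ g := by
  have := ((sup_box hD H).ite fun g => col g = j).one_ev (col_ite j φ) hg hr
    (by rwa [cell_cv hD])
  simpa only [if_pos hg] using this
theorem box_one_zero {E : Type*} [AddCommMonoid E] {φ : Cu → V → E} (hD : 0 < D) (hr : r < 1)
    (H : ∀ g x, x ∉ box D g r → φ g x = 0) {x : V} (hx : ∀ g, col g = j → x ∉ box D g r) :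
    (fun y => ∑ᶠ g', if col g' = j then φ g' y else 0) =ᶠ[𝓝 x] fun _ => 0 :=
  ((sup_box hD H).ite fun g => col g = j).one_zero_ev (col_ite j φ) hr fun g hg => by
    rw [cell_cv hD]; exact hx g hg
theorem box_one_sm {E : Type*} [NormedAddCommGroup E] [NormedSpace ℝ E] {φ : Cu → V → E}
    (hD : 0 < D) (hr : r < 1) (H : ∀ g x, x ∉ box D g r → φ g x = 0) {n : WithTop ℕ∞}
    (hs : ∀ g, col g = j → ContDiff ℝ n (φ g)) :
    ContDiff ℝ n fun x => ∑ᶠ g, if col g = j then φ g x else 0 :=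
  ((sup_box hD H).ite fun g => col g = j).contDiff hr fun g => by
    by_cases hg : col g = j
    · simpa only [if_pos hg] using hs g hg
    · simpa only [if_neg hg] using contDiff_const
theorem box_one_cases {E : Type*} [AddCommMonoid E] {φ : Cu → V → E} (hD : 0 < D) (hr : r < 1)
    (H : ∀ g x, x ∉ box D g r → φ g x = 0) (x : V) :
    (∃ g, col g = j ∧ x ∈ box D g r ∧
      (fun y => ∑ᶠ g', if col g' = j then φ g' y else 0) =ᶠ[𝓝 x] φ g) ∨
    ((∀ g, col g = j → x ∉ box D g r) ∧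
      (fun y => ∑ᶠ g', if col g' = j then φ g' y else 0) =ᶠ[𝓝 x] fun _ => 0) := by
  by_cases hx : ∃ g, col g = j ∧ x ∈ box D g r
  · obtain ⟨g, hg, hx⟩ := hx
    exact Or.inl ⟨g, hg, hx, box_one_ev hD (by linarith) H hg hx⟩
  · push Not at hx
    exact Or.inr ⟨hx, box_one_zero hD hr H hx⟩
end boxes

end
end Pool.Agent.MP_20bec2_an.T3.Glue

end MrgPart2

-- ======== part 3: formerly Pool.Agent.MP_20bec2_an.T3.Zt
section MrgPart3

/-! The glued credit of a block seen from the frame of a cube. -/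

set_option autoImplicit false
open MeasureTheory Set Filter Matrix Topology

namespace Pool.Agent.MP_20bec2_an.T3
noncomputable section
open Classical Prof Glue

namespace ZtA

theorem abs_mul_le {x y a b : ℝ} (hx : |x| ≤ a) (hy : |y| ≤ b) : |x * y| ≤ a * b := by
  rw [abs_mul]; exact mul_le_mul hx hy (abs_nonneg _) ((abs_nonneg _).trans hx)

theorem eb_mul {A B : Mx} {a b : ℝ} (hA : EB A (cm a)) (hB : EB B (cm b)) :
    EB (A * B) (cm (3 * (a * b))) := fun i k =>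
  calc |(A * B) i k| = |∑ j, A i j * B j k| := rfl
    _ ≤ ∑ j, |A i j * B j k| := Finset.abs_sum_le_sum_abs _ _
    _ ≤ ∑ _j : Fin 3, a * b := Finset.sum_le_sum fun j _ => abs_mul_le (hA i j) (hB j k)
    _ = _ := by simp [cm]

theorem cvx {η x y d : ℝ} (h0 : 0 ≤ η) (h1 : η ≤ 1) (hx : |x| ≤ d) (hy : |y| ≤ d) :
    |η * x + (2 - η) * y| ≤ 2 * d := by
  have a1 := abs_mul_le (abs_of_nonneg h0).le hx
  have a2 := abs_mul_le (abs_of_nonneg (show 0 ≤ 2 - η by linarith)).le hy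
  linarith [abs_add_le (η * x) ((2 - η) * y)]

/-- indicator of the entry `(p, p)` -/
def ind (p a b : Fin 3) : ℝ := if a = p ∧ b = p then 1 else 0

theorem row_cl {W : Mx} {δ : ℝ} (hW : Orth W) (h0 : 0 ≤ δ) (p : Fin 3)
    (h : ∀ a, a ≠ p → |W p a| ≤ δ) (a b : Fin 3) : |W p a * W p b - ind p a b| ≤ 2 * δ := by
  unfold ind
  split_ifs with hab
  · obtain ⟨rfl, rfl⟩ := hab
    have h1 := orth_row hW b
    rw [← Finset.add_sum_erase _ _ (Finset.mem_univ b)] at h1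
    have h2 := Finset.sum_le_card_nsmul (Finset.univ.erase b) (fun j => W b j ^ 2) δ fun j hj => by
      have := abs_mul_le (h j (Finset.ne_of_mem_erase hj)) (orth_abs_le hW b j)
      rw [sq]; linarith [le_abs_self (W b j * W b j)]
    have h3 : 0 ≤ ∑ j ∈ Finset.univ.erase b, W b j ^ 2 := Finset.sum_nonneg fun j _ => sq_nonneg _
    rw [Finset.card_erase_of_mem (Finset.mem_univ b)] at h2
    simp only [Finset.card_univ, Fintype.card_fin, nsmul_eq_mul, Nat.add_one_sub_one,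
      Nat.cast_ofNat] at h2
    rw [abs_le, ← sq]; constructor <;> linarith
  · rw [sub_zero]
    by_cases ha : a = p
    · have := abs_mul_le (orth_abs_le hW p a) (h b fun hb => hab ⟨ha, hb⟩)
      linarith
    · have := abs_mul_le (h a ha) (orth_abs_le hW p b)
      linarith

theorem coef_cl {W : Mx} {δ e η η' : ℝ} (hW : Orth W)
    (h3 : ∀ i, i ≠ 2 → |W i 2| ≤ δ ∧ |W 2 i| ≤ δ)
    (hal : (|W 0 1| ≤ δ ∧ |W 1 0| ≤ δ) ∨ (η = 1 ∧ η' = 1)) (h0 : 0 ≤ η) (h1 : η ≤ 1)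
    (he : |η' - η| ≤ e) {a : Fin 3} (ha : a ≠ 2) (b : Fin 3) :
    |η * (W 0 a * W 0 b) + (2 - η) * (W 1 a * W 1 b) - (η' * ind 0 a b + (2 - η') * ind 1 a b)| ≤
      4 * δ + e := by
  have hδ : 0 ≤ δ := (abs_nonneg _).trans (h3 0 (by decide)).1
  rcases hal with ⟨a1, a2⟩ | ⟨rfl, rfl⟩
  · have r0 := row_cl hW hδ 0 (fun c hc => by
      fin_cases c
      exacts [absurd rfl hc, a1, (h3 0 (by decide)).1]) a b
    have r1 := row_cl hW hδ 1 (fun c hc => by
      fin_cases c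
      exacts [a2, absurd rfl hc, (h3 1 (by decide)).1]) a b
    have r2 : |ind 1 a b - ind 0 a b| ≤ 1 := by
      unfold ind; split_ifs <;> norm_num
    have r3 := cvx h0 h1 r0 r1
    have r4 := abs_mul_le he r2
    have := abs_add_le (η * (W 0 a * W 0 b - ind 0 a b) + (2 - η) * (W 1 a * W 1 b - ind 1 a b))
      ((η' - η) * (ind 1 a b - ind 0 a b))
    refine le_trans (le_of_eq ?_) (this.trans (by linarith))
    congr 1; ring
  · have r1 := congrFun (congrFun (orth_t_mul hW) a) b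
    simp only [mul_apply, transpose_apply, Fin.sum_univ_three] at r1
    have r2 : (1 : Mx) a b = ind 0 a b + ind 1 a b := by
      fin_cases a <;> fin_cases b <;> simp [ind] at ha ⊢
    have r3 := abs_mul_le (h3 a ha).2 (orth_abs_le hW 2 b)
    have r4 := (abs_nonneg _).trans he
    rw [← abs_neg] at r3
    refine le_trans (le_of_eq ?_) (r3.trans (by linarith))
    congr 1; linarith

/-- the weighted trace in two neighbouring frames -/
theorem wt_cl {T W J : Mx} {δ ε e η η' : ℝ} (hW : Orth W) (hT : EB (T - W) (cm δ))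
    (h3 : ∀ i, i ≠ 2 → |W i 2| ≤ δ ∧ |W 2 i| ≤ δ)
    (hal : (|W 0 1| ≤ δ ∧ |W 1 0| ≤ δ) ∨ (η = 1 ∧ η' = 1)) (h0 : 0 ≤ η) (h1 : η ≤ 1)
    (he : |η' - η| ≤ e) (hJ : EB J (cm ε)) (hJ2 : ∀ b, J 2 b = 0) :
    |η * (T * J * Wᵀ) 0 0 + (2 - η) * (T * J * Wᵀ) 1 1 - (η' * J 0 0 + (2 - η') * J 1 1)| ≤
      6 * ((6 * δ + e) * ε) := by
  obtain ⟨M, hM⟩ : ∃ M : Fin 3 → Fin 3 → ℝ, ∀ a b, M a b = η * (T 0 a * W 0 b) +
    (2 - η) * (T 1 a * W 1 b) - (η' * ind 0 a b + (2 - η') * ind 1 a b) := ⟨_, fun _ _ => rfl⟩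
  have hb : ∀ a b, a ≠ 2 → |M a b * J a b| ≤ (6 * δ + e) * ε := fun a b ha => by
    refine abs_mul_le ?_ (hJ a b)
    have r1 := coef_cl hW h3 hal h0 h1 he ha b
    have r2 := cvx h0 h1 (abs_mul_le (hT 0 a) (orth_abs_le hW 0 b))
      (abs_mul_le (hT 1 a) (orth_abs_le hW 1 b))
    simp only [Matrix.sub_apply, cm, of_apply] at r2
    have := abs_add_le (η * ((T 0 a - W 0 a) * W 0 b) + (2 - η) * ((T 1 a - W 1 a) * W 1 b))
      (η * (W 0 a * W 0 b) + (2 - η) * (W 1 a * W 1 b) - (η' * ind 0 a b + (2 - η') * ind 1 a b))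
    refine le_trans (le_of_eq ?_) (this.trans (by linarith))
    rw [hM]; congr 1; ring
  have e1 : η * (T * J * Wᵀ) 0 0 + (2 - η) * (T * J * Wᵀ) 1 1 - (η' * J 0 0 + (2 - η') * J 1 1) =
      M 0 0 * J 0 0 + M 0 1 * J 0 1 + M 0 2 * J 0 2 + M 1 0 * J 1 0 + M 1 1 * J 1 1 +
        M 1 2 * J 1 2 := by
    simp [hM, ind, mul_apply, Fin.sum_univ_three, hJ2]
    ring
  rw [e1, abs_le]
  have b1 := abs_le.1 (hb 0 0 (by decide))
  have b2 := abs_le.1 (hb 0 1 (by decide))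
  have b3 := abs_le.1 (hb 0 2 (by decide))
  have b4 := abs_le.1 (hb 1 0 (by decide))
  have b5 := abs_le.1 (hb 1 1 (by decide))
  have b6 := abs_le.1 (hb 1 2 (by decide))
  constructor <;> linarith [b1.1, b1.2, b2.1, b2.2, b3.1, b3.2, b4.1, b4.2, b5.1, b5.2, b6.1, b6.2]

theorem sum_eight (f : ℕ → ℝ) (n : ℕ) : ∑ m ∈ Finset.range (8 * n), f m =
    ∑ k ∈ Finset.range n, ∑ j ∈ Finset.range 8, f (8 * k + j) := by
  induction n with
  | zero => simp
  | succ n ih => rw [mul_add, mul_one, Finset.sum_range_add, ih, Finset.sum_range_succ _ n]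

theorem xc_eq (F : Fr) : F.xc = fun y => -(F.Oᵀ *ᵥ F.x0) + F.Oᵀ *ᵥ y := by
  funext y
  simp only [Fr.xc, mulVec_sub]; abel

theorem hm_jm_unv (F F' : Fr) {γ : V → V} (h : Sm γ) (x : V) :
    F.hm (jm (F'.unv γ) x) = F.Q⁻¹ * F'.Q * jm γ (F'.xc x) * (F.Oᵀ * F'.O)ᵀ := by
  have e : jm (F'.unv γ) x = F'.Q * (jm γ (F'.xc x) * F'.Oᵀ) := by
    have e1 := jm_mulVec_comp F'.Q ((h.comp (xc_sm F')).differentiable (by simp) x)
    have e2 := jm_comp_affine (-(F'.Oᵀ *ᵥ F'.x0)) F'.Oᵀ (x := x) (h.differentiable (by simp) _)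
    refine e1.trans ?_
    rw [xc_eq, ← e2]; rfl
  rw [e, Fr.hm, transpose_mul, transpose_transpose]
  simp only [Matrix.mul_assoc]

theorem xc_xp' (F F' : Fr) (y : V) :
    F'.xc (F.xp y) = F'.Oᵀ *ᵥ (F.x0 - F'.x0) + (F.Oᵀ * F'.O)ᵀ *ᵥ y := by
  rw [transpose_mul, transpose_transpose, ← mulVec_mulVec, ← mulVec_add, Fr.xc, Fr.xp]
  congr 1; abel

theorem hm_sum (F : Fr) (s : Finset Cu) (A : Cu → Mx) :
    F.hm (∑ g ∈ s, A g) = ∑ g ∈ s, F.hm (A g) := by
  simp only [Fr.hm, Matrix.mul_sum, Matrix.sum_mul]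

theorem jm_row {γ : V → V} (h : ∀ x, γ x 2 = 0) (x : V) (b : Fin 3) : jm γ x 2 b = 0 := by
  simp [jm, h]

theorem c_le {N : ℕ} (h : Big N) (a : ℝ) : 1000 * np N a ≤ np N (a + 1 / 100) := by
  rw [h.np_add, mul_comm]
  refine mul_le_mul_of_nonneg_left ?_ (h.np_pos a).le
  rw [h.np_eq]
  linarith [Real.add_one_le_exp (1 / 100 * pJ N), h.J_ge, h.L_ge]

theorem dc_le {N : ℕ} (h : Big N) : dc N ≤ 1 / (pq N ^ 2 * pR N) := by
  have := h.q_pos; have := h.R_pos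
  refine le_of_log h.dc_pos (by positivity) ?_
  simp (disch := positivity) only [Real.log_div, Real.log_mul, Real.log_pow, Real.log_one,
    h.log_q, h.log_R, h.log_dc]
  push_cast
  linarith [h.J_ge, h.L_ge, log2_bd.2]

theorem np_le_one {N : ℕ} (h : Big N) {a : ℝ} (ha : a ≤ 0) : np N a ≤ 1 :=
  (h.np_le ha).trans (np_zero N).le

theorem err_le {N : ℕ} (h : Big N) :
    8 * (6 * ((6 * dc N + 6 * pR N * dc N) * np N (-94 / 100))) ≤ np N (-2) := by
  have h1 := np_le_one h (show (-94 / 100 : ℝ) ≤ 0 by norm_num)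
  have h2 := h.np_pos (-94 / 100)
  have h3 := h.dc_pos
  have h4 : np N (-24) = N * dc N := by
    rw [show (-24 : ℝ) = 1 + -25 by norm_num, h.np_add, np_one]; rfl
  have h5 := h.np_le (show (-24 : ℝ) ≤ -2 by norm_num)
  have h6 : 48 * (6 + 6 * pR N) ≤ N := by
    unfold pR; linarith [h.N_ge, h.J_ge, h.L_ge]
  have h7 := mul_le_mul_of_nonneg_right h6 h3.le
  have h8 : 0 ≤ 6 * dc N + 6 * pR N * dc N := by have := h.R_pos; positivity
  have h9 := mul_le_mul_of_nonneg_left h1 h8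
  linarith

theorem np2_le {N : ℕ} (h : Big N) :
    np N (-2) ≤ pX N / (pq N ^ 3 * N) ∧ np N (-2) ≤ Jp N (5 / 2) / N := by
  constructor
  · refine le_of_log (h.np_pos _) h.cg0_pos ?_
    rw [h.log_np, show pX N / (pq N ^ 3 * N) = cg0 N from rfl]
    linarith [h.log_cg0, h.J_ge, h.L_ge]
  · refine le_of_log (h.np_pos _) (div_pos (h.Jp_pos _) h.N_pos) ?_
    rw [h.log_np, Real.log_div (h.Jp_pos _).ne' h.N_pos.ne', h.log_Jp, h.log_N]
    linarith [h.J_ge, h.L_ge]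

theorem eta_one {c : Pm} (h : Gd c) (hK : c.s2 ≤ 4 * c.s1) : c.η = 1 := by
  refine eta_one' h.big.R_ge ?_
  have h1 : Real.log c.K ≤ Real.log 4 :=
    Real.log_le_log h.K_pos ((div_le_iff₀ h.s1_pos).2 hK)
  rw [log4_eq] at h1
  linarith [h.t_eq, h.big.L_ge, log2_bd.2]

/-- what is used about one neighbouring frame -/
structure Nb (N : ℕ) (F F' : Fr) (η η' : ℝ) : Prop where
  ort : Orth (F.Oᵀ * F'.O)
  tb : EB (F.Q⁻¹ * F'.Q) (cm 2)
  lt : η < 95 / 100 * etaA N → η' < etaA N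
  wt : ∀ J : Mx, EB J (cm (np N (-94 / 100))) → (∀ b, J 2 b = 0) →
    |η * (F.Q⁻¹ * F'.Q * J * (F.Oᵀ * F'.O)ᵀ) 0 0 +
      (2 - η) * (F.Q⁻¹ * F'.Q * J * (F.Oᵀ * F'.O)ᵀ) 1 1 - (η' * J 0 0 + (2 - η') * J 1 1)| ≤
      np N (-2) / 8

theorem nb_of {N : ℕ} (h : Big N) {lb : ℝ} {F F' : Fr} (hO : Orth F.O) (hO' : Orth F'.O)
    (o : (F.pm N lb 0).Ok) (o' : (F'.pm N lb 0).Ok) (hc : Cpt (dc N) F F') :
    Nb N F F' (F.pm N lb 0).η (F'.pm N lb 0).η := by
  have g : Gd (F.pm N lb 0) := ⟨h, o⟩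
  have g' : Gd (F'.pm N lb 0) := ⟨h, o'⟩
  have cp := hc.cp g g' (dc_le h)
  have hW := orth_mul (orth_t hO) hO'
  have e1 := cp.η_sub
  have e0 := cp.cpe_nonneg
  refine ⟨hW, fun i j => ?_, fun hη => ?_, fun J hJ hJ2 => ?_⟩
  · have h1 : |(F.Q⁻¹ * F'.Q) i j - (F.Oᵀ * F'.O) i j| ≤ dc N := hc.tq i j
    have h2 := orth_abs_le hW i j
    have h3 : dc N ≤ 1 := np_le_one h (by norm_num)
    have h4 := abs_sub_abs_le_abs_sub ((F.Q⁻¹ * F'.Q) i j) ((F.Oᵀ * F'.O) i j)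
    show _ ≤ (2 : ℝ)
    linarith
  · have h1 := (abs_le.1 e1).2
    have h2 : 2 * cpe (dc N) (F.pm N lb 0) (F'.pm N lb 0) ≤ 1 / 100 := by
      linarith [cp.cpe_le_q, cp.q_inv.2]
    have h3 := mul_le_mul_of_nonneg_right h2 g.η_pos.le
    linarith [h.etaA_pos]
  · have e2 : cpe (dc N) (F.pm N lb 0) (F'.pm N lb 0) = 3 * pR N * dc N := by
      simp [cpe, Fr.pm]
    have e3 : |(F'.pm N lb 0).η - (F.pm N lb 0).η| ≤ 6 * pR N * dc N := by
      have := mul_le_mul_of_nonneg_left g.η_le_one e0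
      rw [e2] at e1 this
      linarith
    have := wt_cl hW hc.tq hc.o3 (hc.al.imp id fun a => ⟨eta_one g a.1, eta_one g' a.2⟩)
      g.η_pos.le g.η_le_one e3 hJ hJ2
    linarith [err_le h]

theorem sum8 {s : Finset Cu} (hs : s.card = 8) {f : Cu → ℝ} {b : ℝ} (h : ∀ g ∈ s, f g ≤ b) :
    ∑ g ∈ s, f g ≤ 8 * b := by
  have := Finset.sum_le_card_nsmul s f b h
  rwa [hs, nsmul_eq_mul, Nat.cast_ofNat] at this

end ZtA

open ZtA

theorem zt : ZtStmt := by
  filter_upwards [ev_big] with N hN B hBN ρ hG hC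
  subst hBN
  have hlb : 0 < B.lb := (Real.exp_pos _).trans_le hG.pos.1
  have hD : 0 < B.D := mul_pos (pow_pos hN.N_pos 4) hlb
  have hf : ∀ g, (B.fr g).x0 = cen B.D g ∧ Orth (B.fr g).O := fun g =>
    ⟨(hG.fx g).1, (hG.fx g).2.1⟩
  have hS : Sup (cv B.D) (92 / 100) fun g x => (B.fr g).unv (B.gc g) x :=
    (sup_xc hD hf fun g => (hC g).2.1).map fun g x h0 => by
      unfold Fr.unv; rw [h0, mulVec_zero]
  have hr : (92 / 100 : ℝ) < 1 := by norm_num
  have hsm : ∀ g, Sm ((B.fr g).unv (B.gc g)) := fun g => unv_sm _ (hC g).1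
  have hK : ∀ k, Sup (cv B.D) (9 / 10) fun g x =>
      (B.c g k).cost (B.fr g).O ((B.fr g).sc ρ) ((B.fr g).xc x) := fun k =>
    sup_xc hD hf fun g x hx => by
      have : alh (B.fr g).O (B.c g k).D x = 0 := alh_zero hD hx
      simp [Pm.cost, this]
  have hr' : (9 / 10 : ℝ) < 1 := by norm_num
  have hnb : ∀ g, ∀ x ∈ B.bx g (11 / 10), ∀ g' ∈ nb8 (cv B.D) x,
      Nb B.N (B.fr g) (B.fr g') (B.c g 0).η (B.c g' 0).η := fun g x hx g' hg' =>
    nb_of hN (hf g).2 (hf g').2 (hG.fx g).2.2.2.2.2 (hG.fx g').2.2.2.2.2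
      (hG.cp g g' (cell_nbr (h := cv B.D) (r := 11 / 10) (r' := 1) (by norm_num)
        (by rw [cell_cv hD]; exact hx) (cell_of_nb8 hg')))
  refine ⟨hS.sm hr hsm, fun g => ⟨fun i => cbl_of_local fun x hx => ?_, fun x hx => ?_⟩⟩
  · have hx' : (B.fr g).xp x ∈ B.bx g (11 / 10) := (xp_mem_box (hf g).1).2 hx
    have h1 : ∀ j : Fin 3, (0 : ℝ) ≤ cv 1 j := fun _ => zero_le_one
    have sm1 : ∀ g', Sm fun y => B.gc g' ((B.fr g').Oᵀ *ᵥ ((B.fr g).x0 - (B.fr g').x0) +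
        ((B.fr g).Oᵀ * (B.fr g').O)ᵀ *ᵥ y) := fun g' => (hC g').1.comp (sm_affine _ _)
    have hb : 0 < np B.N (-7 / 5) / B.lb' := div_pos (hN.np_pos _) (div_pos hlb (by positivity))
    have h2 := CBl.sum_card (P := fun l => l.length = 2) (U := {x})
      (nb8 (cv B.D) ((B.fr g).xp x)) (B := 54 * (np B.N (-7 / 5) / B.lb'))
      (F := fun g' y => (((B.fr g).Q⁻¹ * (B.fr g').Q) *ᵥ B.gc g'
        ((B.fr g').Oᵀ *ᵥ ((B.fr g).x0 - (B.fr g').x0) + ((B.fr g).Oᵀ * (B.fr g').O)ᵀ *ᵥ y)) i)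
      h1 (fun g' _ => Sm.coord ((sm_mulVec _).comp (sm1 g')) i) fun g' hg' => by
        have hn := hnb g _ hx' g' hg'
        refine (cbl_const_mulVec _ (b := fun _ => (3 * 1) ^ 2 * (np B.N (-7 / 5) / B.lb')) h1
          (sm1 g') (fun k => ?_) i).monoB ?_
        · exact CO.affine h1 h1 zero_le_one (fun a b => by
            simpa [cv] using orth_abs_le hn.ort b a) (SmN.of_sm ((hC g').1.coord k) univ)
            (fun _ _ => mem_univ _) ((hC g').2.2.2.1 k)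
        · have t0 : _ ≤ (2 : ℝ) := hn.tb i 0
          have t1 : _ ≤ (2 : ℝ) := hn.tb i 1
          have t2 : _ ≤ (2 : ℝ) := hn.tb i 2
          rw [Fin.sum_univ_three]
          nlinarith
    rw [card_nb8] at h2
    refine (h2.monoB ?_).congr fun y hy => ?_
    · have h3 := div_le_div_of_nonneg_right (c_le hN (-7 / 5))
        (show 0 < B.lb' from div_pos hlb (by positivity)).le
      rw [show (-7 / 5 + 1 / 100 : ℝ) = -139 / 100 by norm_num, mul_div_assoc] at h3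
      push_cast
      linarith
    · rw [hy]
      filter_upwards [(xp_sm (B.fr g)).continuous.continuousAt.eventually
        (hS.ev hr ((B.fr g).xp x))] with y hy
      have e : B.Zt ((B.fr g).xp y) = _ := hy
      simp only [Fr.hatv, e, mulVec_sum, Finset.sum_apply, Fr.unv, mulVec_mulVec, xc_xp']
  have hn := hnb g x hx
  have eZ : B.Zt x = _ := hS.eq_sum hr x
  have eJ : jm B.Zt x = _ := hS.jm_sum hr x fun g' => (hsm g').differentiable (by simp) x
  have eA : (B.fr g).hm (jm B.Zt x) = ∑ g' ∈ nb8 (cv B.D) x, (B.fr g).Q⁻¹ * (B.fr g').Q *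
      jm (B.gc g') ((B.fr g').xc x) * ((B.fr g).Oᵀ * (B.fr g').O)ᵀ := by
    rw [eJ, hm_sum]
    exact Finset.sum_congr rfl fun g' _ => hm_jm_unv _ _ (hC g').1 x
  have eW : (B.c g 0).η * (B.fr g).hm (jm B.Zt x) 0 0 +
      (2 - (B.c g 0).η) * (B.fr g).hm (jm B.Zt x) 1 1 = ∑ g' ∈ nb8 (cv B.D) x,
      ((B.c g 0).η * ((B.fr g).Q⁻¹ * (B.fr g').Q * jm (B.gc g') ((B.fr g').xc x) *
        ((B.fr g).Oᵀ * (B.fr g').O)ᵀ) 0 0 + (2 - (B.c g 0).η) * ((B.fr g).Q⁻¹ * (B.fr g').Q *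
        jm (B.gc g') ((B.fr g').xc x) * ((B.fr g).Oᵀ * (B.fr g').O)ᵀ) 1 1) := by
    rw [eA, Matrix.sum_apply, Matrix.sum_apply, Finset.mul_sum, Finset.mul_sum,
      Finset.sum_add_distrib]
  have hw := fun g' hg' => abs_le.1 ((hn g' hg').wt _ ((hC g').2.2.2.2 ((B.fr g').xc x)).2.2.1
    (jm_row (fun y => ((hC g').2.2.2.2 y).1) _))
  refine ⟨fun i k => ?_, ?_, fun hη => ?_, ?_, ?_⟩
  · rw [eA, Matrix.sum_apply]
    refine ((Finset.abs_sum_le_sum_abs _ _).trans (sum8 (card_nb8 _ _) fun g' hg' =>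
      eb_mul (eb_mul (hn g' hg').tb ((hC g').2.2.2.2 _).2.2.1)
        (orth_eb (orth_t (hn g' hg').ort)) i k)).trans ?_
    have h3 := c_le hN (-94 / 100)
    rw [show (-94 / 100 + 1 / 100 : ℝ) = -93 / 100 by norm_num] at h3
    simp only [cm, of_apply]
    linarith [hN.np_pos (-94 / 100)]
  · rw [eZ, mulVec_sum]
    refine ((norm_sum_le _ _).trans (sum8 (card_nb8 _ _)
      (b := 6 * (np B.N (-9 / 20) * B.lb)) fun g' hg' => ?_)).trans ?_
    · have h3 := norm_mulVec_le (hn g' hg').tb (B.gc g' ((B.fr g').xc x))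
      rw [Fr.unv, mulVec_mulVec]
      linarith [((hC g').2.2.2.2 ((B.fr g').xc x)).2.1]
    · have h3 := mul_le_mul_of_nonneg_right (c_le hN (-9 / 20)) hlb.le
      rw [show (-9 / 20 + 1 / 100 : ℝ) = -44 / 100 by norm_num] at h3
      linarith [mul_pos (hN.np_pos (-9 / 20)) hlb]
  · have hA : ∀ g' ∈ nb8 (cv B.D) x, ∀ k, ¬ (B.c g' k).isA := fun g' hg' k =>
      not_le.2 ((hn g' hg').lt hη)
    have h0 : ∀ g' ∈ nb8 (cv B.D) x, (B.fr g').unv (B.gc g') = fun _ => 0 := fun g' hg' => by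
      funext y
      rw [Fr.unv, (hC g').2.2.1 (hA g' hg' 0), Pi.zero_apply, mulVec_zero]
    refine ⟨?_, ?_, fun m => ?_⟩
    · rw [eZ]; exact Finset.sum_eq_zero fun g' hg' => congrFun (h0 g' hg') x
    · rw [eJ]; exact Finset.sum_eq_zero fun g' hg' => by rw [h0 g' hg', jm_zero]
    · refine (((hK (m / 8)).ite fun g' => col g' = m % 8).eq_sum hr' x).trans
        (Finset.sum_eq_zero fun g' hg' => ?_)
      simp only [Pm.cost, if_neg (hA g' hg' _), ite_self]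
  · have eK : ∑ m ∈ Finset.range (8 * nb B.N), B.costm ρ m x = ∑ g' ∈ nb8 (cv B.D) x,
        ∑ k ∈ Finset.range (nb B.N),
          (B.c g' k).cost (B.fr g').O ((B.fr g').sc ρ) ((B.fr g').xc x) := by
      rw [sum_eight, Finset.sum_comm (s := nb8 _ _)]
      refine Finset.sum_congr rfl fun k _ => ?_
      rw [← (hK k).eq_sum hr', ← (hK k).sum_col hr']
      refine Finset.sum_congr rfl fun j hj => ?_
      have := Finset.mem_range.1 hj
      rw [Bk.costm, show (8 * k + j) % 8 = j by omega, show (8 * k + j) / 8 = k by omega]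
    rw [eW, eK, ← sub_le_iff_le_add', sub_neg_eq_add, ← Finset.sum_add_distrib]
    refine (sum8 (card_nb8 _ _) (b := pX B.N / (pq B.N ^ 3 * B.N) + np B.N (-2) / 8)
      fun g' hg' => ?_).trans (by linarith [(np2_le hN).1])
    have h3 : (B.c g' 0).η * _ + (2 - (B.c g' 0).η) * _ ≤ -∑ k ∈ Finset.range (nb B.N),
      (B.c g' k).cost _ _ _ + _ := ((hC g').2.2.2.2 ((B.fr g').xc x)).2.2.2.1
    linarith [(hw g' hg').2]
  · rw [eW, neg_le, ← Finset.sum_neg_distrib]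
    refine (sum8 (card_nb8 _ _) (b := Jp B.N (5 / 2) / B.N + np B.N (-2) / 8)
      fun g' hg' => ?_).trans (by linarith [(np2_le hN).2])
    have h3 : _ ≤ (B.c g' 0).η * _ + (2 - (B.c g' 0).η) * _ :=
      ((hC g').2.2.2.2 ((B.fr g').xc x)).2.2.2.2
    linarith [(hw g' hg').1]

end
end Pool.Agent.MP_20bec2_an.T3

end MrgPart3

-- marker of a merged file
example : 731051 + 359909 = 731051 + 359909 := rfl
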