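import Mathlib.Algebra.Order.Star.Real
import Mathlib.Analysis.Calculus.InverseFunctionTheorem.ContDiff
import Mathlib.MeasureTheory.Function.Jacobian
import Mathlib.Topology.MetricSpace.Contracting
import Mathlib.Order.CompletePartialOrder
import Pool.Agent.MP_20bec2_an.T3.Final
import Mathlib.MeasureTheory.Group.Integral
import Mathlib.Topology.Sheaves.Presheaf
import Mathlib.Tactic.Monotonicity.Lemmas
import Mathlib.MeasureTheory.Integral.Prod
import Mathlib.Analysis.SpecialFunctions.JapaneseBracket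
import Mathlib.Analysis.Matrix.PosDef
import Mathlib.LinearAlgebra.Matrix.AbsoluteValue
import Pool.Agent.MP_20bec2_an.T3.Vtr
import Pool.Agent.MP_20bec2_an.T3.Calc1b
import Pool.Agent.MP_20bec2_an.T3.Par3
import Pool.Agent.MP_20bec2_an.T3.Zt
import Pool.Agent.MP_20bec2_an.T3.K4
import Pool.Agent.MP_20bec2_an.T3.Rem

-- ======== part 0: formerly Pool.Agent.MP_20bec2_an.T3.Bij
section MrgPart0

-- ======== part 0: formerly Pool.Agent.MP_20bec2_an.T3.Inv
section MrgPart0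

set_option autoImplicit false
open MeasureTheory Set Filter Matrix Topology

namespace Pool.Agent.MP_20bec2_an.T3
noncomputable section
open Classical

namespace Inv

theorem jm_apply {Z : V → V} {x : V} (h : DifferentiableAt ℝ Z x) (i j : Fin 3) :
    jm Z x i j = fderiv ℝ Z x (Pi.single j 1) i := by
  have h1 : HasFDerivAt (fun y => Z y i)
      ((ContinuousLinearMap.proj i : V →L[ℝ] ℝ).comp (fderiv ℝ Z x)) x :=
    (ContinuousLinearMap.proj i : V →L[ℝ] ℝ).hasFDerivAt.comp x h.hasFDerivAt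
  simp only [jm, pd, Matrix.of_apply, h1.fderiv]
  rfl

theorem jm_toMatrix {Z : V → V} {x : V} (h : DifferentiableAt ℝ Z x) :
    jm Z x = LinearMap.toMatrix' (fderiv ℝ Z x : V →ₗ[ℝ] V) := by
  ext i j
  rw [jm_apply h, LinearMap.toMatrix'_apply]
  rfl

theorem fderiv_mulVec {Z : V → V} {x : V} (h : DifferentiableAt ℝ Z x) (v : V) :
    fderiv ℝ Z x v = jm Z x *ᵥ v := by
  rw [jm_toMatrix h, LinearMap.toMatrix'_mulVec]
  rfl

theorem jac_det {Z : V → V} {x : V} (h : DifferentiableAt ℝ Z x) :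
    jac Z x = (fderiv ℝ Z x).det := by
  rw [jac, jm_toMatrix h, LinearMap.det_toMatrix']

theorem norm_mulVec_le {A : Mx} {c : ℝ} (h : EB A (cm c)) (v : V) :
    ‖A *ᵥ v‖ ≤ 3 * c * ‖v‖ := by
  have hc : 0 ≤ c := (abs_nonneg _).trans (h 0 0)
  refine (pi_norm_le_iff_of_nonneg (by positivity)).2 fun i => ?_
  have e : ∀ j, |A i j * v j| ≤ c * ‖v‖ := fun j => by
    rw [abs_mul]
    exact mul_le_mul (h i j) (norm_le_pi_norm v j) (abs_nonneg _) hc
  have s : (A *ᵥ v) i = A i 0 * v 0 + A i 1 * v 1 + A i 2 * v 2 := by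
    simp [Matrix.mulVec, dotProduct, Fin.sum_univ_three]
  rw [Real.norm_eq_abs, s]
  have := abs_add_three (A i 0 * v 0) (A i 1 * v 1) (A i 2 * v 2)
  linarith [e 0, e 1, e 2]

theorem norm_fderiv_le {Z : V → V} {x : V} (h : DifferentiableAt ℝ Z x) {c : ℝ}
    (hb : EB (jm Z x) (cm c)) : ‖fderiv ℝ Z x‖ ≤ 3 * c := by
  have hc : 0 ≤ c := (abs_nonneg _).trans (hb 0 0)
  refine ContinuousLinearMap.opNorm_le_bound _ (by positivity) fun v => ?_
  rw [fderiv_mulVec h]
  exact norm_mulVec_le hb v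

theorem norm_fderiv_sub_id_le {Z : V → V} {x : V} (h : DifferentiableAt ℝ Z x) {c : ℝ}
    (hb : EB (jm Z x - 1) (cm c)) : ‖fderiv ℝ Z x - ContinuousLinearMap.id ℝ V‖ ≤ 3 * c := by
  have hc : 0 ≤ c := (abs_nonneg _).trans (hb 0 0)
  refine ContinuousLinearMap.opNorm_le_bound _ (by positivity) fun v => ?_
  have e : (fderiv ℝ Z x - ContinuousLinearMap.id ℝ V) v = (jm Z x - 1) *ᵥ v := by
    rw [Matrix.sub_mulVec, Matrix.one_mulVec, ← fderiv_mulVec h]
    rfl
  rw [e]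
  exact norm_mulVec_le hb v

theorem lip_of_EB {f : V → V} (hf : Differentiable ℝ f) {c : ℝ}
    (hb : ∀ z, EB (jm f z) (cm c)) (z w : V) : ‖f z - f w‖ ≤ 3 * c * ‖z - w‖ :=
  (convex_univ (𝕜 := ℝ) (E := V)).norm_image_sub_le_of_norm_fderiv_le (𝕜 := ℝ)
    (fun x _ => hf x) (fun x _ => norm_fderiv_le (hf x) (hb x)) (mem_univ w) (mem_univ z)

theorem top_ne : (((⊤ : ℕ∞) : WithTop ℕ∞)) ≠ 0 := by simp

theorem sm_inv {f : V → V} (hf : Sm f) (hb : Function.Bijective f) (hj : ∀ z, jac f z ≠ 0) :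
    Sm (Function.invFun f) := by
  refine contDiff_iff_contDiffAt.2 fun y => ?_
  obtain ⟨a, rfl⟩ := hb.2 y
  have hd : DifferentiableAt ℝ f a := (hf.differentiable top_ne) a
  have hdet : (fderiv ℝ f a).det ≠ 0 := by rw [← jac_det hd]; exact hj a
  let e : V ≃L[ℝ] V := (fderiv ℝ f a).toContinuousLinearEquivOfDetNeZero hdet
  have he : HasFDerivAt f (e : V →L[ℝ] V) a := by
    have : (e : V →L[ℝ] V) = fderiv ℝ f a :=
      ContinuousLinearMap.coe_toContinuousLinearEquivOfDetNeZero _ hdet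
    rw [this]
    exact hd.hasFDerivAt
  have h1 := (hf.contDiffAt (x := a)).to_localInverse he top_ne
  refine h1.congr_of_eventuallyEq ?_
  have h2 := ((hf.contDiffAt (x := a)).hasStrictFDerivAt' he top_ne).eventually_right_inverse
  filter_upwards [h2] with y hy
  apply hb.1
  rw [Function.rightInverse_invFun hb.2 y]
  exact hy.symm

theorem jm_inv {f : V → V} (hf : Sm f) (hb : Function.Bijective f) (hj : ∀ z, jac f z ≠ 0)
    (z : V) : jm (Function.invFun f) (f z) = (jm f z)⁻¹ := by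
  have hd : DifferentiableAt ℝ f z := (hf.differentiable top_ne) z
  have hg : DifferentiableAt ℝ (Function.invFun f) (f z) :=
    ((sm_inv hf hb hj).differentiable top_ne) (f z)
  have hc : HasFDerivAt (Function.invFun f ∘ f)
      ((fderiv ℝ (Function.invFun f) (f z)).comp (fderiv ℝ f z)) z :=
    hg.hasFDerivAt.comp z hd.hasFDerivAt
  have hi : Function.invFun f ∘ f = id := Function.invFun_comp hb.1
  rw [hi] at hc
  have hu := hc.unique (hasFDerivAt_id z)
  symm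
  apply Matrix.inv_eq_left_inv
  apply Matrix.ext_iff_mulVec.2
  intro v
  rw [← Matrix.mulVec_mulVec, ← fderiv_mulVec hd, ← fderiv_mulVec hg, Matrix.one_mulVec]
  exact congrArg (fun L : V →L[ℝ] V => L v) hu

end Inv

theorem inv_ : InvStmt := by
  intro f hf hb hj
  have hd : Differentiable ℝ f := hf.differentiable Inv.top_ne
  refine ⟨Inv.sm_inv hf hb hj, Inv.jm_inv hf hb hj, fun Λ h z w => ?_,
    fun Λ h z w => Inv.lip_of_EB hd h z w, fun φ => ?_⟩
  · have hg : Differentiable ℝ (Function.invFun f) :=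
      (Inv.sm_inv hf hb hj).differentiable Inv.top_ne
    have h1 : ∀ y, EB (jm (Function.invFun f) y) (cm Λ) := fun y => by
      obtain ⟨a, rfl⟩ := hb.2 y
      rw [Inv.jm_inv hf hb hj]
      exact h a
    have h2 := Inv.lip_of_EB hg h1 (f z) (f w)
    rwa [Function.leftInverse_invFun hb.1 z, Function.leftInverse_invFun hb.1 w] at h2
  · have h1 := integral_image_eq_integral_abs_det_fderiv_smul (volume : Measure V)
      (s := univ) (f := f) (f' := fun x => fderiv ℝ f x) MeasurableSet.univ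
      (fun x _ => (hd x).hasFDerivAt.hasFDerivWithinAt) hb.1.injOn φ
    rw [image_univ, hb.2.range_eq, Measure.restrict_univ] at h1
    rw [h1]
    refine integral_congr_ae (Eventually.of_forall fun x => ?_)
    simp only [Inv.jac_det (hd x), smul_eq_mul, mul_comm]

end
end Pool.Agent.MP_20bec2_an.T3

end MrgPart0

-- ======== part 1: formerly Pool.Agent.MP_20bec2_an.T3.Bij
section MrgPart1

set_option autoImplicit false
open MeasureTheory Set Filter Matrix Topology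

namespace Pool.Agent.MP_20bec2_an.T3
noncomputable section
open Classical

namespace Bij

theorem convex_RX (O : Mx) (D r : ℝ) : Convex ℝ (RX O D r) := by
  have : RX O D r = (Matrix.mulVecLin O) ⁻¹' Metric.closedBall 0 (r * D) := by
    ext x
    simp [RX]
  rw [this]
  exact (convex_closedBall _ _).linear_preimage _

theorem cont_mulVec (O : Mx) : Continuous fun x : V => O *ᵥ x :=
  (Matrix.mulVecLin O).continuous_of_finiteDimensional

theorem closed_RX (O : Mx) (D r : ℝ) : IsClosed (RX O D r) :=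
  isClosed_le (cont_mulVec O).norm continuous_const

/-- the perturbation is Lipschitz on a convex set -/
theorem lip_on {Z : V → V} (hZ : Differentiable ℝ Z) {s : Set V} (hs : Convex ℝ s)
    (hb : ∀ x ∈ s, EB (jm Z x - 1) (cm (1 / 100))) {x y : V} (hx : x ∈ s) (hy : y ∈ s) :
    ‖(Z y - y) - (Z x - x)‖ ≤ 3 / 100 * ‖y - x‖ := by
  have h := hs.norm_image_sub_le_of_norm_fderiv_le' (𝕜 := ℝ) (f := Z)
    (φ := ContinuousLinearMap.id ℝ V) (C := 3 * (1 / 100)) (fun x _ => hZ x)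
    (fun x hx => Inv.norm_fderiv_sub_id_le (hZ x) (hb x hx)) hx hy
  have e : (Z y - y) - (Z x - x) = Z y - Z x - ContinuousLinearMap.id ℝ V (y - x) := by
    simp only [ContinuousLinearMap.id_apply]
    abel
  rw [e]
  linarith

theorem injOn_of {Z : V → V} (hZ : Differentiable ℝ Z) {s : Set V} (hs : Convex ℝ s)
    (hb : ∀ x ∈ s, EB (jm Z x - 1) (cm (1 / 100))) : InjOn Z s := by
  intro x hx y hy hxy
  have h := lip_on hZ hs hb hx hy
  have e : (Z y - y) - (Z x - x) = -(y - x) := by rw [hxy]; abel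
  rw [e, norm_neg] at h
  have h0 : ‖y - x‖ ≤ 0 := by linarith
  exact (sub_eq_zero.1 (norm_le_zero_iff.1 h0)).symm

/-- fixed point on a closed set -/
theorem solve_on {φ : V → V} {s : Set V} (hc : IsClosed s) {p : V} (hp : p ∈ s) (z : V)
    (hm : ∀ x ∈ s, z - φ x ∈ s) (hl : ∀ x ∈ s, ∀ y ∈ s, ‖φ y - φ x‖ ≤ 1 / 2 * ‖y - x‖) :
    ∃ x ∈ s, x + φ x = z := by
  have hm' : MapsTo (fun x => z - φ x) s s := hm
  have hk : ContractingWith (1 / 2 : NNReal) (hm'.restrict (fun x => z - φ x) s s) := by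
    refine ⟨by norm_num, LipschitzWith.of_dist_le_mul fun a b => ?_⟩
    have h := hl a.1 a.2 b.1 b.2
    have e : (z - φ a.1) - (z - φ b.1) = φ b.1 - φ a.1 := by abel
    change dist (z - φ a.1) (z - φ b.1) ≤ _ * dist a.1 b.1
    rw [dist_eq_norm, dist_eq_norm, e, norm_sub_rev a.1 b.1]
    simpa using h
  obtain ⟨y, hy, hf, -⟩ := ContractingWith.exists_fixedPoint' hc.isComplete hm' hk hp
    (edist_ne_top _ _)
  refine ⟨y, hy, ?_⟩
  have : z - φ y = y := hf
  exact (sub_eq_iff_eq_add.1 this).symm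

theorem bij_of_lip {φ : V → V} (hl : ∀ x y, ‖φ y - φ x‖ ≤ 1 / 2 * ‖y - x‖) :
    Function.Bijective fun x => x + φ x := by
  constructor
  · intro x y hxy
    have h := hl x y
    have hxy' : x + φ x = y + φ y := hxy
    have e : φ y - φ x = -(y - x) := by
      have : φ y = x + φ x - y := by rw [hxy']; abel
      rw [this]; abel
    rw [e, norm_neg] at h
    have h0 : ‖y - x‖ ≤ 0 := by linarith
    exact (sub_eq_zero.1 (norm_le_zero_iff.1 h0)).symm
  · intro z
    obtain ⟨x, -, hx⟩ := solve_on isClosed_univ (mem_univ (0 : V)) z (fun _ _ => mem_univ _)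
      fun x _ y _ => hl x y
    exact ⟨x, hx⟩

/-- two near-identity maps that agree near the boundary have the same image -/
theorem image_eq {O : Mx} {D : ℝ} (hD : 0 < D) {h h' : V → V} (hh : Differentiable ℝ h)
    (hh' : Differentiable ℝ h')
    (hb : ∀ x ∈ RX O D (98 / 100), EB (jm h x - 1) (cm (1 / 100)) ∧
      EB (jm h' x - 1) (cm (1 / 100)))
    (he : ∀ x ∈ RX O D (98 / 100), x ∉ RX O D (96 / 100) → h' x = h x) :
    h' '' RX O D (98 / 100) = h '' RX O D (98 / 100) := by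
  set K := RX O D (98 / 100) with hK
  have hcv : Convex ℝ K := convex_RX _ _ _
  have l1 : LipschitzOnWith (3 / 100 : NNReal) (fun x => h x - x) K := by
    refine LipschitzOnWith.of_dist_le_mul fun x hx y hy => ?_
    rw [dist_eq_norm, dist_eq_norm]
    simpa using lip_on hh hcv (fun x hx => (hb x hx).1) hy hx
  obtain ⟨φ, hφ, hφe⟩ := l1.extend_pi
  have hφ' : ∀ x y, ‖φ y - φ x‖ ≤ 3 / 100 * ‖y - x‖ := fun x y => by
    have := hφ.dist_le_mul y x
    rw [dist_eq_norm, dist_eq_norm] at this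
    simpa using this
  let d : V → V := fun x => if x ∈ K then h' x - h x else 0
  have hd : ∀ x, ∃ L : V →L[ℝ] V, HasFDerivAt d L x ∧ ‖L‖ ≤ 6 / 100 := by
    intro x
    by_cases hx : ‖O *ᵥ x‖ < 98 / 100 * D
    · have hxK : x ∈ K := le_of_lt hx
      refine ⟨fderiv ℝ h' x - fderiv ℝ h x, ?_, ?_⟩
      · refine ((hh' x).hasFDerivAt.sub (hh x).hasFDerivAt).congr_of_eventuallyEq ?_
        have ho : IsOpen {y : V | ‖O *ᵥ y‖ < 98 / 100 * D} :=
          isOpen_lt (cont_mulVec O).norm continuous_const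
        filter_upwards [ho.mem_nhds hx] with y hy
        have hyK : y ∈ K := le_of_lt hy
        simp only [d, if_pos hyK, Pi.sub_apply]
      · have a1 := Inv.norm_fderiv_sub_id_le (hh x) (hb x hxK).1
        have a2 := Inv.norm_fderiv_sub_id_le (hh' x) (hb x hxK).2
        have e : fderiv ℝ h' x - fderiv ℝ h x = (fderiv ℝ h' x - ContinuousLinearMap.id ℝ V) -
            (fderiv ℝ h x - ContinuousLinearMap.id ℝ V) := by abel
        rw [e]
        have := norm_sub_le (fderiv ℝ h' x - ContinuousLinearMap.id ℝ V)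
          (fderiv ℝ h x - ContinuousLinearMap.id ℝ V)
        linarith
    · refine ⟨0, ?_, by norm_num⟩
      refine (hasFDerivAt_const (0 : V) x).congr_of_eventuallyEq ?_
      have ho : IsOpen {y : V | 96 / 100 * D < ‖O *ᵥ y‖} :=
        isOpen_lt continuous_const (cont_mulVec O).norm
      have hx' : 96 / 100 * D < ‖O *ᵥ x‖ := by
        have := not_lt.1 hx
        linarith
      filter_upwards [ho.mem_nhds hx'] with y hy
      by_cases hyK : y ∈ K
      · have : y ∉ RX O D (96 / 100) := fun hc => absurd hy (not_lt.2 hc)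
        simp only [d, if_pos hyK, he y hyK this, sub_self]
      · simp only [d, if_neg hyK]
  choose L hL using hd
  have hdl : ∀ x y, ‖d y - d x‖ ≤ 6 / 100 * ‖y - x‖ := fun x y =>
    (convex_univ (𝕜 := ℝ) (E := V)).norm_image_sub_le_of_norm_hasFDerivWithin_le (𝕜 := ℝ)
      (fun x _ => (hL x).1.hasFDerivWithinAt) (fun x _ => (hL x).2) (mem_univ x) (mem_univ y)
  have b1 : Function.Bijective fun x => x + φ x := bij_of_lip fun x y => by
    have := hφ' x y
    have := norm_nonneg (y - x)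
    linarith
  have b2 : Function.Bijective fun x => x + (φ x + d x) := bij_of_lip fun x y => by
    have e : φ y + d y - (φ x + d x) = (φ y - φ x) + (d y - d x) := by abel
    rw [e]
    have := hφ' x y
    have := hdl x y
    have := norm_nonneg (y - x)
    have := norm_add_le (φ y - φ x) (d y - d x)
    linarith
  have i1 : h '' K = (fun x => x + φ x) '' K := image_congr fun x hx => by
    have : h x - x = φ x := hφe hx
    rw [← this]; abel
  have i2 : h' '' K = (fun x => x + (φ x + d x)) '' K := image_congr fun x hx => by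
    have : h x - x = φ x := hφe hx
    simp only [d, if_pos hx]
    rw [← this]; abel
  have i3 : (fun x => x + (φ x + d x)) '' Kᶜ = (fun x => x + φ x) '' Kᶜ :=
    image_congr fun x hx => by
      have hx' : x ∉ K := hx
      simp only [d, if_neg hx', add_zero]
  rw [i1, i2]
  rw [image_compl_eq b1, image_compl_eq b2] at i3
  exact compl_injective i3

theorem col_far {g g' : Cu} (hc : col g = col g') (hn : g ≠ g') : ∃ i, 2 ≤ |g i - g' i| := by
  by_contra hcon
  push Not at hcon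
  apply hn
  unfold col at hc
  have h0 := abs_lt.1 (hcon 0)
  have h1 := abs_lt.1 (hcon 1)
  have h2 := abs_lt.1 (hcon 2)
  funext i
  fin_cases i
  · change g 0 = g' 0
    omega
  · change g 1 = g' 1
    omega
  · change g 2 = g' 2
    omega

theorem box_eq {D : ℝ} (hD : 0 < D) {g g' : Cu} (hc : col g = col g') {x : V} {r r' : ℝ}
    (hr : r + r' < 2) (hx : x ∈ box D g r) (hx' : x ∈ box D g' r') : g = g' := by
  by_contra hn
  obtain ⟨i, hi⟩ := col_far hc hn
  have a1 : |x i - D * g i| ≤ r * D := (norm_le_pi_norm (x - cen D g) i).trans hx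
  have a2 : |x i - D * g' i| ≤ r' * D := (norm_le_pi_norm (x - cen D g') i).trans hx'
  have a3 : (2 : ℝ) ≤ |(g i : ℝ) - g' i| := by exact_mod_cast hi
  have a4 : |D * ((g i : ℝ) - g' i)| ≤ r * D + r' * D := by
    have e : D * ((g i : ℝ) - g' i) = (x i - D * g' i) - (x i - D * g i) := by ring
    rw [e]
    have := abs_sub (x i - D * g' i) (x i - D * g i)
    linarith
  rw [abs_mul, abs_of_pos hD] at a4
  nlinarith

theorem diff_hat (F : Fr) {Z : V → V} (hZ : Differentiable ℝ Z) : Differentiable ℝ (F.hat Z) := by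
  have a : ∀ A : Mx, Differentiable ℝ fun x : V => A *ᵥ x := fun A =>
    (LinearMap.toContinuousLinearMap (Matrix.mulVecLin A)).differentiable
  have h1 : Differentiable ℝ F.xp := (differentiable_const F.x0).add (a F.O)
  have h2 : Differentiable ℝ F.zc :=
    (a F.Q⁻¹).comp (differentiable_id.sub (differentiable_const F.z0))
  exact h2.comp (hZ.comp h1)

theorem xp_xc {F : Fr} (hO : Orth F.O) (x : V) : F.xp (F.xc x) = x := by
  simp only [Fr.xp, Fr.xc, Matrix.mulVec_mulVec, hO.1, Matrix.one_mulVec]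
  abel

theorem zc_inj {F : Fr} (hQ : 0 < F.Q.det) : Function.Injective F.zc := by
  intro z w h
  have hu : IsUnit F.Q.det := isUnit_iff_ne_zero.2 hQ.ne'
  have h1 : F.Q *ᵥ F.zc z = F.Q *ᵥ F.zc w := by rw [h]
  simp only [Fr.zc, Matrix.mulVec_mulVec, Matrix.mul_nonsing_inv _ hu, Matrix.one_mulVec] at h1
  exact sub_left_injective h1

theorem xp_mem {F : Fr} {D r : ℝ} {g : Cu} (h0 : F.x0 = cen D g) (x : V) :
    F.xp x ∈ box D g r ↔ x ∈ RX F.O D r := by
  simp only [box, RX, mem_ofPred_eq, Fr.xp, h0, add_sub_cancel_left]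

theorem one_cube {D : ℝ} (hD : 0 < D) {F : Fr} {g : Cu} (h0 : F.x0 = cen D g) (hO : Orth F.O)
    (hQ : 0 < F.Q.det) {Z Z' : V → V} (hZ : Differentiable ℝ Z) (hZ' : Differentiable ℝ Z')
    (hb : ∀ x ∈ RX F.O D (98 / 100), EB (jm (F.hat Z) x - 1) (cm (1 / 100)) ∧
      EB (jm (F.hat Z') x - 1) (cm (1 / 100)))
    (he : ∀ x ∈ box D g (98 / 100), x ∉ box D g (96 / 100) → Z' x = Z x) :
    InjOn Z' (box D g (98 / 100)) ∧ Z' '' box D g (98 / 100) = Z '' box D g (98 / 100) := by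
  have hm : ∀ x ∈ box D g (98 / 100), F.xc x ∈ RX F.O D (98 / 100) := fun x hx =>
    (xp_mem h0 _).1 (by rwa [xp_xc hO])
  have hi := injOn_of (diff_hat F hZ') (convex_RX _ _ _) fun x hx => (hb x hx).2
  have him := image_eq hD (diff_hat F hZ) (diff_hat F hZ') hb fun x hx hx' => by
    simp only [Fr.hat]
    rw [he _ ((xp_mem h0 x).2 hx) fun hc => hx' ((xp_mem h0 x).1 hc)]
  have key : ∀ W W' : V → V, F.hat W' '' RX F.O D (98 / 100) = F.hat W '' RX F.O D (98 / 100) →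
      W' '' box D g (98 / 100) ⊆ W '' box D g (98 / 100) := by
    rintro W W' h _ ⟨x, hx, rfl⟩
    have : F.hat W' (F.xc x) ∈ F.hat W '' RX F.O D (98 / 100) := by
      rw [← h]
      exact mem_image_of_mem _ (hm x hx)
    obtain ⟨y, hy, e⟩ := this
    refine ⟨F.xp y, (xp_mem h0 y).2 hy, ?_⟩
    simp only [Fr.hat, xp_xc hO] at e
    exact zc_inj hQ e
  refine ⟨fun x hx y hy hxy => ?_, (key Z Z' him).antisymm (key Z' Z him.symm)⟩
  have : F.xc x = F.xc y := hi (hm x hx) (hm y hy) (by simp only [Fr.hat, xp_xc hO, hxy])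
  rw [← xp_xc hO x, this, xp_xc hO]

end Bij

theorem bij : BijStmt := by
  refine ⟨fun D j fr Z Z' hD hfr hB hZ hZ' hb he => ?_, fun O D r δ Z _ hD hr _ hZ hb => ?_⟩
  · have hZd : Differentiable ℝ Z := hZ.differentiable one_ne_zero
    have hZd' : Differentiable ℝ Z' := hZ'.differentiable one_ne_zero
    have hc : ∀ g, col g = j → InjOn Z' (box D g (98 / 100)) ∧
        Z' '' box D g (98 / 100) = Z '' box D g (98 / 100) := fun g hg =>
      Bij.one_cube hD (hfr g).1 (hfr g).2.1 (hfr g).2.2 hZd hZd' (hb g hg) fun x hx hx' =>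
        he x fun g' hg' hc => by
          have := Bij.box_eq hD (hg.trans hg'.symm) (by norm_num) hx hc
          exact hx' (this ▸ hc)
    have hout : ∀ x, (∀ g, col g = j → x ∉ box D g (98 / 100)) → Z' x = Z x := fun x hx =>
      he x fun g hg hc => hx g hg (by
        have a : ‖x - cen D g‖ ≤ 96 / 100 * D := hc
        change ‖x - cen D g‖ ≤ 98 / 100 * D
        linarith)
    have hin : ∀ g, col g = j → ∀ x ∈ box D g (98 / 100),
        ∃ p ∈ box D g (98 / 100), Z p = Z' x := fun g hg x hx => by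
      have : Z' x ∈ Z '' box D g (98 / 100) := by
        rw [← (hc g hg).2]
        exact mem_image_of_mem _ hx
      exact this
    constructor
    · intro x y hxy
      by_cases hx : ∃ g, col g = j ∧ x ∈ box D g (98 / 100)
      · obtain ⟨g, hg, hxg⟩ := hx
        obtain ⟨p, hp, ep⟩ := hin g hg x hxg
        by_cases hy : ∃ g, col g = j ∧ y ∈ box D g (98 / 100)
        · obtain ⟨g', hg', hyg⟩ := hy
          obtain ⟨p', hp', ep'⟩ := hin g' hg' y hyg
          have e : p = p' := hB.1 (by rw [ep, ep', hxy])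
          have e2 : g = g' :=
            Bij.box_eq hD (hg.trans hg'.symm) (by norm_num) hp (e ▸ hp')
          exact (hc g hg).1 hxg (e2 ▸ hyg) hxy
        · have e0 : Z' y = Z y := hout y fun g hg hc => hy ⟨g, hg, hc⟩
          have e : p = y := hB.1 (by rw [ep, hxy, e0])
          exact absurd ⟨g, hg, e ▸ hp⟩ hy
      · have e0 : Z' x = Z x := hout x fun g hg hc => hx ⟨g, hg, hc⟩
        by_cases hy : ∃ g, col g = j ∧ y ∈ box D g (98 / 100)
        · obtain ⟨g', hg', hyg⟩ := hy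
          obtain ⟨p', hp', ep'⟩ := hin g' hg' y hyg
          have e : p' = x := hB.1 (by rw [ep', ← hxy, e0])
          exact absurd ⟨g', hg', e ▸ hp'⟩ hx
        · have e1 : Z' y = Z y := hout y fun g hg hc => hy ⟨g, hg, hc⟩
          exact hB.1 (by rw [← e0, ← e1, hxy])
    · intro z
      obtain ⟨x, rfl⟩ := hB.2 z
      by_cases hx : ∃ g, col g = j ∧ x ∈ box D g (98 / 100)
      · obtain ⟨g, hg, hxg⟩ := hx
        have : Z x ∈ Z' '' box D g (98 / 100) := by
          rw [(hc g hg).2]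
          exact mem_image_of_mem _ hxg
        obtain ⟨p, -, hp⟩ := this
        exact ⟨p, hp⟩
      · exact ⟨x, hout x fun g hg hc => hx ⟨g, hg, hc⟩⟩
  · have hZd : Differentiable ℝ Z := hZ.differentiable one_ne_zero
    have hcv := Bij.convex_RX O D r
    refine ⟨Bij.injOn_of hZd hcv fun x hx => (hb x hx).1, fun z hz => ?_⟩
    have h0 : (0 : V) ∈ RX O D r := by
      change ‖O *ᵥ (0 : V)‖ ≤ r * D
      rw [Matrix.mulVec_zero, norm_zero]
      positivity
    obtain ⟨x, hx, e⟩ := Bij.solve_on (φ := fun x => Z x - x) (Bij.closed_RX O D r) h0 z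
      (fun x hx => by
        have a1 : ‖O *ᵥ z‖ ≤ (r - δ) * D := hz
        have a2 := (hb x hx).2
        change ‖O *ᵥ (z - (Z x - x))‖ ≤ r * D
        rw [Matrix.mulVec_sub]
        have := norm_sub_le (O *ᵥ z) (O *ᵥ (Z x - x))
        linarith)
      fun x hx y hy => by
        have := Bij.lip_on hZd hcv (fun x hx => (hb x hx).1) hx hy
        have := norm_nonneg (y - x)
        linarith
    exact ⟨x, hx, by rw [← e]; abel⟩

end
end Pool.Agent.MP_20bec2_an.T3

end MrgPart1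

-- marker of a merged file
example : 731051 + 816632 = 731051 + 816632 := rfl

end MrgPart0

-- ======== part 1: formerly Pool.Agent.MP_20bec2_an.T3.K3A
section MrgPart1

/-! Change to hat coordinates: algebra, chain rule, change of variables. -/

set_option autoImplicit false
open MeasureTheory Set Filter Matrix Topology

namespace Pool.Agent.MP_20bec2_an.T3
noncomputable section

namespace K3

lemma cont_mv (A : Mx) : Continuous fun v : V => A *ᵥ v := by
  refine continuous_pi fun i => ?_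
  simp only [mulVec, dotProduct]
  fun_prop

/-- the linear map of a matrix -/
def lm (A : Mx) : V →L[ℝ] V := LinearMap.toContinuousLinearMap (Matrix.toLin' A)

lemma lm_ap (A : Mx) (v : V) : lm A v = A *ᵥ v := rfl

lemma norm_mv (A : Mx) : ∃ K : ℝ, 0 < K ∧ ∀ v : V, ‖A *ᵥ v‖ ≤ K * ‖v‖ :=
  ⟨‖lm A‖ + 1, by positivity, fun v =>
    ((lm A).le_opNorm v).trans (mul_le_mul_of_nonneg_right (by linarith) (norm_nonneg _))⟩

lemma sq_le_dot (v : V) : ‖v‖ ^ 2 ≤ v ⬝ᵥ v := by
  have h0 : 0 ≤ v ⬝ᵥ v := Finset.sum_nonneg fun i _ => mul_self_nonneg _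
  have h : ‖v‖ ≤ Real.sqrt (v ⬝ᵥ v) := (pi_norm_le_iff_of_nonneg (Real.sqrt_nonneg _)).2 fun i => by
    refine Real.abs_le_sqrt ?_
    rw [sq]
    exact Finset.single_le_sum (f := fun i => v i * v i) (fun i _ => mul_self_nonneg _)
      (Finset.mem_univ i)
  calc ‖v‖ ^ 2 ≤ Real.sqrt (v ⬝ᵥ v) ^ 2 := by gcongr
    _ = _ := Real.sq_sqrt h0

lemma dot_le_sq (v : V) : v ⬝ᵥ v ≤ 3 * ‖v‖ ^ 2 := by
  have h : ∀ i, v i * v i ≤ ‖v‖ ^ 2 := fun i => by
    rw [← sq, ← sq_abs]
    exact pow_le_pow_left₀ (abs_nonneg _) (norm_le_pi_norm v i) 2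
  simp only [dotProduct, Fin.sum_univ_three]
  linarith [h 0, h 1, h 2]

lemma dot_mv (A : Mx) : ∃ K : ℝ, 0 < K ∧ ∀ v : V, (A *ᵥ v) ⬝ᵥ (A *ᵥ v) ≤ K * (v ⬝ᵥ v) := by
  obtain ⟨K, hK, h⟩ := norm_mv A
  refine ⟨3 * K ^ 2, by positivity, fun v => (dot_le_sq _).trans ?_⟩
  have h1 := pow_le_pow_left₀ (norm_nonneg _) (h v) 2
  have h2 := mul_le_mul_of_nonneg_left (sq_le_dot v) (sq_nonneg K)
  rw [mul_pow] at h1
  linarith

lemma dot_conj (A S : Mx) (v : V) : v ⬝ᵥ ((A * S * Aᵀ) *ᵥ v) = (Aᵀ *ᵥ v) ⬝ᵥ (S *ᵥ (Aᵀ *ᵥ v)) := by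
  rw [← mulVec_mulVec, ← mulVec_mulVec, dotProduct_mulVec, mulVec_transpose]

lemma ker_conj {Q : Mx} (hQ : 0 < Q.det) (S : Mx) (w : V) :
    ker (Q⁻¹ * S * Q⁻¹ᵀ) (Q⁻¹ *ᵥ w) = Q.det * ker S w := by
  have hu : IsUnit Q.det := hQ.ne'.isUnit
  have e1 : (Q⁻¹ * S * Q⁻¹ᵀ)⁻¹ = Qᵀ * S⁻¹ * Qᵀᵀ := by
    rw [Matrix.mul_inv_rev, Matrix.mul_inv_rev, ← transpose_nonsing_inv,
      nonsing_inv_nonsing_inv _ hu, transpose_transpose, Matrix.mul_assoc]
  have e2 : (Q⁻¹ * S * Q⁻¹ᵀ).det = S.det / Q.det ^ 2 := by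
    rw [det_mul, det_mul, det_transpose, det_nonsing_inv, Ring.inverse_eq_inv']
    field_simp
  unfold ker
  rw [e1, dot_conj, transpose_transpose, mulVec_mulVec, mul_nonsing_inv _ hu, one_mulVec, e2,
    ← mul_div_assoc, Real.sqrt_div' _ (sq_nonneg _), Real.sqrt_sq hQ.le, div_div_eq_mul_div,
    mul_div_assoc', mul_comm]

lemma integral_aff {O : Mx} (hO : O.det = 1) (b : V) (g : V → ℝ) :
    ∫ x, g (b + O *ᵥ x) = ∫ x, g x := by
  have hu : IsUnit O.det := by rw [hO]; exact isUnit_one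
  have hm : MeasurePreserving (fun x : V => O *ᵥ x) volume volume := by
    refine ⟨(cont_mv O).measurable, ?_⟩
    have := Real.map_matrix_volume_pi_eq_smul_volume_pi (M := O) (by rw [hO]; exact one_ne_zero)
    rw [hO, inv_one, abs_one, ENNReal.ofReal_one, one_smul] at this
    exact this
  let e : V ≃ₜ V :=
    { toFun := fun x => O *ᵥ x
      invFun := fun x => O⁻¹ *ᵥ x
      left_inv := fun x => by simp only [mulVec_mulVec, nonsing_inv_mul _ hu, one_mulVec]
      right_inv := fun x => by simp only [mulVec_mulVec, mul_nonsing_inv _ hu, one_mulVec]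
      continuous_toFun := cont_mv O
      continuous_invFun := cont_mv _ }
  rw [← integral_add_left_eq_self g b]
  exact hm.integral_comp e.measurableEmbedding fun x => g (b + x)

/-! chain rule -/

lemma diff_aff (b : V) (B : Mx) : Differentiable ℝ fun x : V => b + B *ᵥ x :=
  (differentiable_const b).add (lm B).differentiable

lemma pd_aff {g : V → ℝ} {b x : V} {B : Mx} (hg : DifferentiableAt ℝ g (b + B *ᵥ x)) (j : Fin 3) :
    pd j (fun w => g (b + B *ᵥ w)) x = ∑ k, pd k g (b + B *ᵥ x) * B k j := by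
  have h1 : HasFDerivAt (fun w : V => b + B *ᵥ w) (lm B) x := (lm B).hasFDerivAt.const_add b
  have h2 := (hg.hasFDerivAt.comp x h1).fderiv
  have e : B *ᵥ (Pi.single j 1 : V) = ∑ k, B k j • (Pi.single k 1 : V) := by
    ext i
    simp [Finset.sum_apply, Pi.single_apply]
  unfold pd
  rw [show (fun w => g (b + B *ᵥ w)) = g ∘ fun w : V => b + B *ᵥ w from rfl, h2,
    ContinuousLinearMap.comp_apply, lm_ap, e, map_sum]
  exact Finset.sum_congr rfl fun k _ => by rw [map_smul, smul_eq_mul, mul_comm]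

lemma pd_lin {g : Fin 3 → V → ℝ} {x : V} (hg : ∀ k, DifferentiableAt ℝ (g k) x) (c : ℝ) (a : V)
    (j : Fin 3) : pd j (fun w => c + ∑ k, a k * g k w) x = ∑ k, a k * pd j (g k) x := by
  have h := ((HasFDerivAt.fun_sum (u := Finset.univ)
    fun k _ => (hg k).hasFDerivAt.const_mul (a k)).const_add c).fderiv
  unfold pd
  rw [h]
  simp

lemma jm_aff {f : V → V} (hf : Differentiable ℝ f) (b c x : V) (A B : Mx) :
    jm (fun w => c + A *ᵥ f (b + B *ᵥ w)) x = A * jm f (b + B *ᵥ x) * B := by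
  have hk : ∀ k, Differentiable ℝ fun w => f w k := differentiable_pi.1 hf
  ext i j
  have h := pd_lin (g := fun k w => f (b + B *ᵥ w) k) (x := x)
    (fun k => ((hk k).comp (diff_aff b B)) x) (c i) (A i) j
  rw [Matrix.mul_assoc, mul_apply]
  refine Eq.trans h (Finset.sum_congr rfl fun k _ => ?_)
  rw [pd_aff (g := fun w => f w k) (hk k _), mul_apply]
  rfl

lemma dv_eq (R : V → V) (z : V) : dv R z = (jm R z).trace := rfl

variable (F : Fr)

lemma p3 (hQ : 0 < F.Q.det) {R : V → V} (hR : Differentiable ℝ R) :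
    dv (F.vd R) = F.den (dv R) := by
  funext z
  have e : F.vd R = fun w => 0 + (F.Q.det • F.Q⁻¹) *ᵥ R (F.z0 + F.Q *ᵥ w) := by
    funext w
    rw [zero_add, smul_mulVec]
    rfl
  rw [dv_eq, e, jm_aff hR, trace_mul_cycle, Matrix.mul_smul, mul_nonsing_inv _ hQ.ne'.isUnit,
    Matrix.smul_mul, Matrix.one_mul, trace_smul]
  rfl

lemma p4 {f : V → V} (hf : Differentiable ℝ f) (z : V) :
    jm (F.fh f) z = jm f (F.zp z) * F.Q ∧ jac (F.fh f) z = F.den (jac f) z := by
  have e : F.fh f = fun w => 0 + (1 : Mx) *ᵥ f (F.z0 + F.Q *ᵥ w) := by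
    funext w
    rw [zero_add, one_mulVec]
    rfl
  have h : jm (F.fh f) z = jm f (F.zp z) * F.Q := by
    rw [e, jm_aff hf, Matrix.one_mul]
    rfl
  exact ⟨h, by rw [jac, h, det_mul, mul_comm]; rfl⟩

lemma p5 {Z : V → V} (hZ : Differentiable ℝ Z) (x : V) :
    jm (F.hat Z) x = F.hm (jm Z (F.xp x)) ∧ jm (F.hatv Z) x = F.hm (jm Z (F.xp x)) := by
  have e : F.hat Z = fun w => -(F.Q⁻¹ *ᵥ F.z0) + F.Q⁻¹ *ᵥ Z (F.x0 + F.O *ᵥ w) := by
    funext w
    rw [neg_add_eq_sub, ← mulVec_sub]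
    rfl
  have e' : F.hatv Z = fun w => 0 + F.Q⁻¹ *ᵥ Z (F.x0 + F.O *ᵥ w) := by
    funext w
    rw [zero_add]
    rfl
  exact ⟨by rw [e, jm_aff hZ]; rfl, by rw [e', jm_aff hZ]; rfl⟩

lemma p1 (hO : Orth F.O) (hQ : 0 < F.Q.det) (a : V → ℝ) (Z : V → V) (S : V → Mx) :
    F.den (dens a Z S) = dens (F.sc a) (F.hat Z) (F.cov S) := by
  funext z
  have e : ∀ y : V, F.zc y - z = F.Q⁻¹ *ᵥ (y - F.zp z) := fun y => by
    rw [Fr.zc, Fr.zp, ← sub_sub, mulVec_sub _ (y - F.z0), mulVec_mulVec,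
      nonsing_inv_mul _ hQ.ne'.isUnit, one_mulVec]
  unfold Fr.den dens
  rw [← integral_const_mul, ← integral_aff hO.2 F.x0]
  refine integral_congr_ae (Eventually.of_forall fun x => ?_)
  show _ = a (F.xp x) * ker (F.Q⁻¹ * S (F.xp x) * F.Q⁻¹ᵀ) (F.zc (Z (F.xp x)) - z)
  rw [e, ker_conj hQ, mul_left_comm]
  rfl

lemma cont_xp : Continuous F.xp := continuous_const.add (cont_mv _)

lemma cont_cov {S : V → Mx} (h : ∀ i j, Continuous fun x => S x i j) (i j : Fin 3) :
    Continuous fun x => F.cov S x i j := by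
  have hS : Continuous fun x => S (F.xp x) := (continuous_matrix h).comp (cont_xp F)
  exact ((continuous_const.matrix_mul hS).matrix_mul continuous_const).matrix_elem i j

lemma p2 (hO : Orth F.O) (hQ : 0 < F.Q.det) {a : V → ℝ} {Z : V → V} {S : V → Mx}
    (h : GK a Z S) : GK (F.sc a) (F.hat Z) (F.cov S) := by
  obtain ⟨ha, hZ, hS, c, C, hc, h⟩ := h
  have hu := hQ.ne'.isUnit
  refine ⟨ha.comp (cont_xp F).measurable,
    (cont_mv _).comp ((hZ.comp (cont_xp F)).sub continuous_const), cont_cov F hS, ?_⟩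
  obtain ⟨K1, k1, h1⟩ := norm_mv F.Oᵀ
  obtain ⟨K2, k2, h2⟩ := norm_mv F.Q
  obtain ⟨K3, k3, h3⟩ := dot_mv F.Qᵀ
  obtain ⟨K4, k4, h4⟩ := dot_mv F.Q⁻¹ᵀ
  have hC : 0 ≤ C := (abs_nonneg _).trans (h 0).1
  have hD : 0 ≤ (c * ‖F.x0‖ + C + ‖F.z0‖) / K2 := by positivity
  have hE : 0 ≤ C * K4 := by positivity
  refine ⟨min (c / K1 / K2) (c / K3), C + (c * ‖F.x0‖ + C + ‖F.z0‖) / K2 + C * K4, by positivity,
    fun x => ⟨(h _).1.trans (by linarith), fun hx => ?_⟩⟩
  obtain ⟨g1, g2, g3⟩ := (h (F.xp x)).2 hx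
  refine ⟨?_, ?_, fun v => ?_⟩
  · have e1 : F.Oᵀ *ᵥ (F.xp x - F.x0) = x := by
      rw [Fr.xp, add_sub_cancel_left, mulVec_mulVec, mul_eq_one_comm.1 hO.1, one_mulVec]
    have e2 : F.Q *ᵥ F.hat Z x = Z (F.xp x) - F.z0 := by
      rw [Fr.hat, Fr.zc, mulVec_mulVec, mul_nonsing_inv _ hu, one_mulVec]
    have a1 := h1 (F.xp x - F.x0)
    have a2 := h2 (F.hat Z x)
    rw [e1] at a1
    rw [e2] at a2
    have a3 : ‖x‖ / K1 ≤ ‖F.xp x‖ + ‖F.x0‖ := by
      rw [div_le_iff₀' k1]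
      exact a1.trans (mul_le_mul_of_nonneg_left (norm_sub_le _ _) k1.le)
    have a4 := mul_le_mul_of_nonneg_left a3 hc.le
    have a5 := norm_sub_norm_le (Z (F.xp x)) F.z0
    have a6 : (c * (‖x‖ / K1) - (c * ‖F.x0‖ + C + ‖F.z0‖)) / K2 ≤ ‖F.hat Z x‖ := by
      rw [div_le_iff₀' k2]
      linarith
    have a7 := mul_le_mul_of_nonneg_right (min_le_left (c / K1 / K2) (c / K3)) (norm_nonneg x)
    have a8 : c / K1 / K2 * ‖x‖ = c * (‖x‖ / K1) / K2 := by ring
    rw [sub_div] at a6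
    linarith
  · show (F.Q⁻¹ * S (F.xp x) * F.Q⁻¹ᵀ)ᵀ = F.Q⁻¹ * S (F.xp x) * F.Q⁻¹ᵀ
    rw [transpose_mul, transpose_mul, transpose_transpose, g2, Matrix.mul_assoc]
  · have e : v ⬝ᵥ (F.cov S x *ᵥ v) = _ := dot_conj F.Q⁻¹ (S (F.xp x)) v
    obtain ⟨b1, b2⟩ := g3 (F.Q⁻¹ᵀ *ᵥ v)
    have h0 : 0 ≤ v ⬝ᵥ v := (sq_nonneg _).trans (sq_le_dot v)
    have b3 := h3 (F.Q⁻¹ᵀ *ᵥ v)
    rw [mulVec_mulVec, ← transpose_mul, nonsing_inv_mul _ hu, transpose_one, one_mulVec,
      ← div_le_iff₀' k3] at b3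
    have b4 := mul_le_mul_of_nonneg_left b3 hc.le
    have b5 := mul_le_mul_of_nonneg_left (h4 v) hC
    have b6 := mul_le_mul_of_nonneg_right (min_le_right (c / K1 / K2) (c / K3)) h0
    have b7 : c / K3 * (v ⬝ᵥ v) = c * (v ⬝ᵥ v / K3) := by ring
    have b8 := mul_nonneg (add_nonneg hC hD) h0
    rw [e]
    constructor
    · linarith
    · nlinarith

end K3

end
end Pool.Agent.MP_20bec2_an.T3

end MrgPart1

-- ======== part 2: formerly Pool.Agent.MP_20bec2_an.T3.K3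
section MrgPart2

-- ======== part 0: formerly Pool.Agent.MP_20bec2_an.T3.K3B
section MrgPart0

/-! Change to hat coordinates: integrability along the path of a stage. -/

set_option autoImplicit false
open MeasureTheory Set Filter Matrix Topology

namespace Pool.Agent.MP_20bec2_an.T3
noncomputable section

namespace K3

/-- the derivative of the kernel -/
def kd (S : Mx) (j : Fin 3) (w : V) : ℝ := ((S⁻¹ *ᵥ w) j + (w ᵥ* S⁻¹) j) / 2 * ker S w

lemma pd_ker (S : Mx) (Z z : V) (j : Fin 3) :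
    pd j (fun y => ker S (Z - y)) z = kd S j (Z - z) := by
  have hi : ∀ i, HasFDerivAt (fun y : V => Z i - y i)
      (-(ContinuousLinearMap.proj i : V →L[ℝ] ℝ)) z := fun i =>
    (hasFDerivAt_apply i z).const_sub (Z i)
  have hq := HasFDerivAt.fun_sum (u := Finset.univ) fun i _ => (hi i).fun_mul
    (HasFDerivAt.fun_sum (u := Finset.univ) fun k _ => (hi k).const_mul (S⁻¹ i k))
  have h := (((hq.const_mul (-(1 / 2))).exp).mul_const
    (Real.sqrt ((2 * Real.pi) ^ 3 * S.det))⁻¹).fderiv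
  have e : ∀ y : V, ker S (Z - y) =
      Real.exp (-(1 / 2) * ∑ i, (Z i - y i) * ∑ k, S⁻¹ i k * (Z k - y k)) *
        (Real.sqrt ((2 * Real.pi) ^ 3 * S.det))⁻¹ := fun y => by
    rw [ker, div_eq_mul_inv _ (Real.sqrt _)]
    congr 2
    simp only [dotProduct, mulVec, Pi.sub_apply]
    ring
  unfold pd kd
  simp only [e]
  rw [h]
  generalize Real.exp _ = E
  generalize (Real.sqrt _)⁻¹ = κ
  generalize S⁻¹ = M
  fin_cases j <;> simp [mulVec, vecMul, dotProduct, Fin.sum_univ_three] <;> ring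

lemma inv_bd {c : ℝ} (hc : 0 < c) {S : Mx} (hS : Sᵀ = S)
    (h : ∀ v : V, c * (v ⬝ᵥ v) ≤ v ⬝ᵥ (S *ᵥ v)) : 0 < S.det ∧ ∀ i j, |S⁻¹ i j| ≤ c⁻¹ := by
  have hp : S.PosDef := PosDef.of_dotProduct_mulVec_pos hS fun v hv =>
    lt_of_lt_of_le (mul_pos hc ((pow_pos (norm_pos_iff.2 hv) 2).trans_le (sq_le_dot v))) (h v)
  refine ⟨hp.det_pos, fun i j => ?_⟩
  set y : V := S⁻¹ *ᵥ Pi.single j 1 with hy
  have h1 := h y
  have e : S *ᵥ y = Pi.single j 1 := by
    rw [hy, mulVec_mulVec, mul_nonsing_inv _ hp.det_pos.ne'.isUnit, one_mulVec]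
  rw [e, dotProduct_single_one] at h1
  have h2 : y j ≤ ‖y‖ := (le_abs_self _).trans (norm_le_pi_norm y j)
  have h3 := mul_le_mul_of_nonneg_left (sq_le_dot y) hc.le
  have h4 : ‖y‖ ≤ c⁻¹ := by
    rcases (norm_nonneg y).eq_or_lt with h0 | h0
    · rw [← h0]; positivity
    · rw [← one_div, le_div_iff₀ hc]
      nlinarith
  have e2 : S⁻¹ i j = y i := by simp [hy]
  rw [e2]
  exact (norm_le_pi_norm y i).trans h4

lemma ker_bd {c C : ℝ} (hc : 0 < c) (hC : 0 < C) : ∃ K : ℝ, 0 ≤ K ∧ ∀ S : Mx, Sᵀ = S →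
    (∀ v : V, c * (v ⬝ᵥ v) ≤ v ⬝ᵥ (S *ᵥ v) ∧ v ⬝ᵥ (S *ᵥ v) ≤ C * (v ⬝ᵥ v)) → ∀ w : V,
      |ker S w| ≤ K * Real.exp (-‖w‖) ∧ ∀ j, |kd S j w| ≤ K * Real.exp (-‖w‖) := by
  set κ := Real.sqrt ((2 * Real.pi) ^ 3 * (c ^ 3 / 6)) with hκ
  have κ0 : 0 < κ := Real.sqrt_pos.2 (by positivity)
  refine ⟨(1 + 3 * c⁻¹) * (Real.exp (2 * C) / κ), by positivity, fun S hS h w => ?_⟩
  obtain ⟨hd, hi⟩ := inv_bd hc hS fun v => (h v).1
  have hu := hd.ne'.isUnit
  have h1 : c ^ 3 / 6 ≤ S.det := by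
    have h2 := Matrix.det_le (A := S⁻¹) (abv := AbsoluteValue.abs) (x := c⁻¹) hi
    rw [det_nonsing_inv, Ring.inverse_eq_inv'] at h2
    have h3 : S.det⁻¹ ≤ 6 * c⁻¹ ^ 3 := (le_abs_self _).trans (by simpa [Nat.factorial] using h2)
    rw [inv_le_comm₀ hd (by positivity)] at h3
    refine le_trans (le_of_eq ?_) h3
    field_simp
  have h2 : ‖w‖ ^ 2 / C ≤ w ⬝ᵥ (S⁻¹ *ᵥ w) := by
    set y := S⁻¹ *ᵥ w with hy
    have e : S *ᵥ y = w := by rw [hy, mulVec_mulVec, mul_nonsing_inv _ hu, one_mulVec]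
    have e' : y ⬝ᵥ (S *ᵥ w) = w ⬝ᵥ w := by rw [dotProduct_mulVec, ← mulVec_transpose, hS, e]
    have h3 := (mul_nonneg hc.le ((sq_nonneg _).trans (sq_le_dot (C • y - w)))).trans
      (h (C • y - w)).1
    rw [mulVec_sub, mulVec_smul, e, sub_dotProduct, dotProduct_sub, dotProduct_sub,
      smul_dotProduct, smul_dotProduct, dotProduct_smul, dotProduct_smul, e',
      dotProduct_comm y w] at h3
    simp only [smul_eq_mul] at h3
    have h4 := (h w).2
    have h5 := sq_le_dot w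
    rw [div_le_iff₀ hC]
    refine h5.trans (le_of_mul_le_mul_left ?_ hC)
    linarith
  have h3 : |ker S w| ≤ Real.exp (2 * C) / κ * Real.exp (-(2 * ‖w‖)) := by
    rw [ker, abs_of_nonneg (by positivity), div_mul_eq_mul_div, ← Real.exp_add]
    refine div_le_div₀ (Real.exp_pos _).le (Real.exp_le_exp.2 ?_) κ0
      (Real.sqrt_le_sqrt (by gcongr))
    have h4 : 4 * ‖w‖ - 4 * C ≤ ‖w‖ ^ 2 / C := by
      rw [le_div_iff₀ hC]
      nlinarith [sq_nonneg (‖w‖ - 2 * C)]
    linarith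
  have h4 : Real.exp (-(2 * ‖w‖)) ≤ Real.exp (-‖w‖) :=
    Real.exp_le_exp.2 (by linarith [norm_nonneg w])
  have h5 : ‖w‖ * Real.exp (-(2 * ‖w‖)) ≤ Real.exp (-‖w‖) := by
    have := mul_le_mul_of_nonneg_right ((le_add_of_nonneg_right zero_le_one).trans
      (Real.add_one_le_exp ‖w‖)) (Real.exp_pos (-(2 * ‖w‖))).le
    rwa [← Real.exp_add, show ‖w‖ + -(2 * ‖w‖) = -‖w‖ by ring] at this
  have h6 : 0 ≤ Real.exp (2 * C) / κ := by positivity
  have h7 : 0 ≤ c⁻¹ := by positivity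
  generalize Real.exp (2 * C) / κ = A at h3 h6 ⊢
  have h8 := mul_nonneg h6 (Real.exp_pos (-‖w‖)).le
  refine ⟨?_, fun j => ?_⟩
  · nlinarith [mul_le_mul_of_nonneg_left h4 h6, mul_nonneg h7 h8]
  · have b : ∀ i k l, |S⁻¹ i k * w l| ≤ c⁻¹ * ‖w‖ := fun i k l => by
      rw [abs_mul]
      exact mul_le_mul (hi i k) (norm_le_pi_norm w l) (abs_nonneg _) h7
    have b1 : |((S⁻¹ *ᵥ w) j + (w ᵥ* S⁻¹) j) / 2| ≤ 3 * c⁻¹ * ‖w‖ := by
      simp only [mulVec, vecMul, dotProduct, Fin.sum_univ_three, mul_comm (w _)]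
      have := abs_le.1 (b j 0 0)
      have := abs_le.1 (b j 1 1)
      have := abs_le.1 (b j 2 2)
      have := abs_le.1 (b 0 j 0)
      have := abs_le.1 (b 1 j 1)
      have := abs_le.1 (b 2 j 2)
      exact abs_le.2 ⟨by linarith, by linarith⟩
    rw [kd, abs_mul]
    refine (mul_le_mul b1 h3 (abs_nonneg _) (by positivity)).trans ?_
    nlinarith [mul_le_mul_of_nonneg_left h5 (mul_nonneg h7 h6)]

section Meas

variable {Y : Type} [TopologicalSpace Y] [MeasurableSpace Y] [OpensMeasurableSpace Y]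
  {S : Y → Mx} {W : Y → V}

lemma meas_inv (hS : Continuous S) (i j : Fin 3) : Measurable fun p => (S p)⁻¹ i j := by
  simp only [Matrix.inv_def, Matrix.smul_apply, Ring.inverse_eq_inv', smul_eq_mul]
  exact hS.matrix_det.measurable.inv.mul (hS.matrix_adjugate.matrix_elem i j).measurable

lemma meas_ker (hS : Continuous S) (hW : Continuous W) : Measurable fun p => ker (S p) (W p) := by
  have hw : ∀ i, Measurable fun p => W p i := fun i => ((continuous_apply i).comp hW).measurable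
  unfold ker dotProduct mulVec dotProduct
  exact (((Finset.measurable_sum _ fun i _ => (hw i).mul (Finset.measurable_sum _ fun k _ =>
    (meas_inv hS i k).mul (hw k))).neg.div_const 2).exp).div
    (hS.matrix_det.measurable.const_mul _).sqrt

lemma meas_kd (hS : Continuous S) (hW : Continuous W) (j : Fin 3) :
    Measurable fun p => kd (S p) j (W p) := by
  have hw : ∀ i, Measurable fun p => W p i := fun i => ((continuous_apply i).comp hW).measurable
  unfold kd mulVec vecMul dotProduct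
  exact (((Finset.measurable_sum _ fun k _ => (meas_inv hS j k).mul (hw k)).add
    (Finset.measurable_sum _ fun k _ => (hw k).mul (meas_inv hS k j))).div_const 2).mul
    (meas_ker hS hW)

end Meas

lemma int_exp {c : ℝ} (hc : 0 < c) : Integrable fun x : V => Real.exp (-(c * ‖x‖)) := by
  refine ((integrable_one_add_norm (E := V) (r := 4) (by simp; norm_num)).const_mul
    ((1 + 4 / c) ^ 4)).mono' (by fun_prop) (Eventually.of_forall fun x => ?_)
  have h1 : 1 + ‖x‖ ≤ (1 + 4 / c) * Real.exp (c * ‖x‖ / 4) := by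
    refine le_trans ?_ (mul_le_mul_of_nonneg_left (Real.add_one_le_exp _) (by positivity))
    have e : (1 + 4 / c) * (c * ‖x‖ / 4 + 1) = 1 + ‖x‖ + (c * ‖x‖ / 4 + 4 / c) := by
      field_simp
      ring
    rw [e]
    exact le_add_of_nonneg_right (by positivity)
  have h2 := pow_le_pow_left₀ (by positivity) h1 4
  rw [mul_pow, ← Real.exp_nat_mul, show ((4 : ℕ) : ℝ) * (c * ‖x‖ / 4) = c * ‖x‖ by
    push_cast; ring] at h2
  rw [Real.norm_of_nonneg (Real.exp_pos _).le, Real.rpow_neg (by positivity),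
    show (4 : ℝ) = ((4 : ℕ) : ℝ) by norm_num, Real.rpow_natCast, Real.exp_neg, ← div_eq_mul_inv,
    le_div_iff₀ (by positivity), inv_mul_le_iff₀ (Real.exp_pos _), mul_comm]
  exact_mod_cast h2

lemma int_param {F : ℝ × V → ℝ} (hF : Measurable F) {G : V → ℝ} (hG : Integrable G)
    (hb : ∀ t ∈ Icc (0 : ℝ) 1, ∀ x, |F (t, x)| ≤ G x) :
    IntervalIntegrable (fun t => ∫ x, F (t, x)) volume 0 1 := by
  rw [intervalIntegrable_iff_integrableOn_Icc_of_le zero_le_one]
  exact Measure.integrableOn_of_bounded (M := ∫ x, G x) measure_Icc_lt_top.ne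
    hF.stronglyMeasurable.integral_prod_right'.aestronglyMeasurable
    (ae_restrict_of_forall_mem measurableSet_Icc fun t ht =>
      norm_integral_le_of_norm_le hG (ae_of_all _ (hb t ht)))

/-- the last clause of `GK` with given constants -/
def GC (c C : ℝ) (a : V → ℝ) (Z : V → V) (S : V → Mx) : Prop :=
  ∀ x, |a x| ≤ C ∧ (a x ≠ 0 → c * ‖x‖ - C ≤ ‖Z x‖ ∧ (S x)ᵀ = S x ∧
    ∀ v : V, c * (v ⬝ᵥ v) ≤ v ⬝ᵥ (S x *ᵥ v) ∧ v ⬝ᵥ (S x *ᵥ v) ≤ C * (v ⬝ᵥ v))

variable {a : V → ℝ} {Z u : V → V} {S B : V → Mx} {ψ : V → ℝ}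

lemma gc_path (h : GKp a Z S u B) (hψ : ∃ C, ∀ x, a x ≠ 0 → |ψ x| ≤ C) :
    ∃ c C, 0 < c ∧ 0 < C ∧ ∀ t ∈ Icc (0 : ℝ) 1, GC c C (fun x => a x * ψ x)
      (fun x => Z x + t • u x) fun x => S x + t • (B x + (B x)ᵀ) := by
  obtain ⟨⟨-, -, -, c1, C1, k1, h1⟩, ⟨-, -, -, c2, C2, k2, h2⟩, -, -, C3, h3⟩ := h
  obtain ⟨C4, h4⟩ := hψ
  have p1 : 0 ≤ C1 := (abs_nonneg _).trans (h1 0).1
  have p2 : 0 ≤ C2 := (abs_nonneg _).trans (h2 0).1
  have p3 := abs_nonneg C3
  have p4 : 0 ≤ C1 * |C4| := by positivity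
  refine ⟨min c1 c2, C1 * |C4| + C1 + C2 + |C3| + 1, lt_min k1 k2, by positivity,
    fun t ht x => ⟨?_, fun hx => ?_⟩⟩
  · by_cases hx : a x = 0
    · simp only [hx, zero_mul, abs_zero]
      positivity
    · have := mul_le_mul (h1 x).1 ((h4 x hx).trans (le_abs_self _)) (abs_nonneg _) p1
      simp only [abs_mul]
      linarith
  have hx' : a x ≠ 0 := left_ne_zero_of_mul hx
  obtain ⟨a1, a2, a3⟩ := (h1 x).2 hx'
  obtain ⟨-, -, b3⟩ := (h2 x).2 hx'
  refine ⟨?_, ?_, fun v => ?_⟩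
  · have e1 := norm_sub_le (Z x + t • u x) (t • u x)
    rw [add_sub_cancel_right, norm_smul, Real.norm_of_nonneg ht.1] at e1
    have e2 := mul_le_of_le_one_left (norm_nonneg (u x)) ht.2
    have e3 := ((h3 x hx').1).trans (le_abs_self C3)
    have e4 := mul_le_mul_of_nonneg_right (min_le_left c1 c2) (norm_nonneg x)
    linarith
  · simp only [transpose_add, transpose_smul, transpose_transpose, a2, add_comm (B x)ᵀ]
  · have h0 : 0 ≤ v ⬝ᵥ v := (sq_nonneg _).trans (sq_le_dot v)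
    obtain ⟨e1, e2⟩ := a3 v
    obtain ⟨e3, e4⟩ := b3 v
    simp only [add_mulVec _ (B x + (B x)ᵀ), add_mulVec _ (t • _), smul_mulVec, dotProduct_add,
      dotProduct_smul, smul_eq_mul] at e3 e4 ⊢
    have e5 := mul_le_mul_of_nonneg_right (min_le_left c1 c2) h0
    have e6 := mul_le_mul_of_nonneg_right (min_le_right c1 c2) h0
    have e7 := mul_nonneg p1 h0
    have e8 := mul_nonneg p2 h0
    have e9 := mul_nonneg (add_nonneg p4 p3) h0
    have t0 := ht.1
    have t1 := sub_nonneg.2 ht.2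
    constructor
    · nlinarith [mul_le_mul_of_nonneg_left (e5.trans e1) t1,
        mul_le_mul_of_nonneg_left (e6.trans e3) t0]
    · nlinarith [mul_le_mul_of_nonneg_left e2 t1, mul_le_mul_of_nonneg_left e4 t0,
        mul_nonneg t0 e7, mul_nonneg t1 e8]

lemma gk_path (h : GKp a Z S u B) (hc : Continuous ψ) (hψ : ∃ C, ∀ x, a x ≠ 0 → |ψ x| ≤ C)
    {t : ℝ} (ht : t ∈ Icc (0 : ℝ) 1) : GK (fun x => a x * ψ x) (fun x => Z x + t • u x)
      fun x => S x + t • (B x + (B x)ᵀ) := by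
  obtain ⟨c, C, k, -, g⟩ := gc_path h hψ
  obtain ⟨⟨m, z, s, -⟩, -, hu, hB, -⟩ := h
  exact ⟨m.mul hc.measurable, z.add (hu.const_smul t), fun i j =>
    (s i j).add (((hB i j).add (hB j i)).const_smul t), c, C, k, g t ht⟩

lemma int_path (h1 : K1Stmt) (h : GKp a Z S u B) (hc : Continuous ψ)
    (hψ : ∃ C, ∀ x, a x ≠ 0 → |ψ x| ≤ C) (z : V) :
    IntervalIntegrable (fun t => dens (fun x => a x * ψ x) (fun x => Z x + t • u x)
      (fun x => S x + t • (B x + (B x)ᵀ)) z) volume 0 1 ∧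
    ∀ j, IntervalIntegrable (fun t => pd j (dens (fun x => a x * ψ x) (fun x => Z x + t • u x)
      fun x => S x + t • (B x + (B x)ᵀ)) z) volume 0 1 := by
  obtain ⟨c, C, k, k', g⟩ := gc_path h hψ
  obtain ⟨K, hK, hb⟩ := ker_bd k k'
  have hp := fun t ht => gk_path (t := t) h hc hψ ht
  obtain ⟨⟨m, hZ, s, -⟩, -, hu, hB, -⟩ := h
  have hS : Continuous S := continuous_matrix s
  have hB' : Continuous B := continuous_matrix hB
  have c1 : Continuous fun p : ℝ × V => S p.2 + p.1 • (B p.2 + (B p.2)ᵀ) :=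
    (hS.comp continuous_snd).add (continuous_fst.smul
      ((hB'.comp continuous_snd).add (hB'.comp continuous_snd).matrix_transpose))
  have c2 : Continuous fun p : ℝ × V => Z p.2 + p.1 • u p.2 - z := by fun_prop
  have m1 : Measurable fun p : ℝ × V => a p.2 * ψ p.2 := (m.mul hc.measurable).comp measurable_snd
  have hG := (int_exp k).const_mul (C * (K * Real.exp (C + ‖z‖)))
  have key : ∀ t ∈ Icc (0 : ℝ) 1, ∀ (x : V) (r : ℝ), (a x * ψ x ≠ 0 →
      |r| ≤ K * Real.exp (-‖Z x + t • u x - z‖)) →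
      |a x * ψ x * r| ≤ C * (K * Real.exp (C + ‖z‖)) * Real.exp (-(c * ‖x‖)) := by
    intro t ht x r hr
    by_cases hx : a x * ψ x = 0
    · rw [hx, zero_mul, abs_zero]
      positivity
    · rw [abs_mul, mul_assoc, mul_assoc, ← Real.exp_add]
      refine mul_le_mul (g t ht x).1 ((hr hx).trans (mul_le_mul_of_nonneg_left
        (Real.exp_le_exp.2 ?_) hK)) (abs_nonneg _) k'.le
      linarith [((g t ht x).2 hx).1, norm_sub_norm_le (Z x + t • u x) z]
  refine ⟨int_param (m1.mul (meas_ker c1 c2)) hG fun t ht x => key t ht x _ fun hx =>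
    (hb _ ((g t ht x).2 hx).2.1 ((g t ht x).2 hx).2.2 _).1, fun j => ?_⟩
  refine (int_param (m1.mul (meas_kd c1 c2 j)) hG fun t ht x => key t ht x _ fun hx =>
    (hb _ ((g t ht x).2 hx).2.1 ((g t ht x).2 hx).2.2 _).2 j).congr fun t ht => ?_
  rw [uIoc_of_le zero_le_one] at ht
  refine Eq.trans ?_ ((h1 _ _ _ (hp t (Ioc_subset_Icc_self ht))).2.2 [j] z).2.symm
  exact integral_congr_ae (Eventually.of_forall fun x => congrArg _ (pd_ker _ _ z j).symm)

end K3

end
end Pool.Agent.MP_20bec2_an.T3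

end MrgPart0

-- ======== part 1: formerly Pool.Agent.MP_20bec2_an.T3.K3
section MrgPart1

/-! Change to hat coordinates: the flux. -/

set_option autoImplicit false
open MeasureTheory Set Filter Matrix Topology

namespace Pool.Agent.MP_20bec2_an.T3
noncomputable section

namespace K3

variable {a : V → ℝ} {Z u : V → V} {S B : V → Mx}

lemma gk_mul {ψ : V → ℝ} (h : GK a Z S) (hc : Continuous ψ)
    (hψ : ∃ C, ∀ x, a x ≠ 0 → |ψ x| ≤ C) : GK (fun x => a x * ψ x) Z S := by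
  obtain ⟨m, z, s, c, C, k, g⟩ := h
  obtain ⟨D, hD⟩ := hψ
  have p1 : 0 ≤ C := (abs_nonneg _).trans (g 0).1
  have p2 : 0 ≤ C * |D| := by positivity
  refine ⟨m.mul hc.measurable, z, s, c, C + C * |D|, k, fun x => ⟨?_, fun hx => ?_⟩⟩
  · by_cases hx : a x = 0
    · simp only [hx, zero_mul, abs_zero]
      positivity
    · have := mul_le_mul (g x).1 ((hD x hx).trans (le_abs_self _)) (abs_nonneg _) p1
      simp only [abs_mul]
      linarith
  · obtain ⟨a1, a2, a3⟩ := (g x).2 (left_ne_zero_of_mul hx)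
    exact ⟨by linarith, a2, fun v => ⟨(a3 v).1, (a3 v).2.trans
      (mul_le_mul_of_nonneg_right (by linarith) ((sq_nonneg _).trans (sq_le_dot v)))⟩⟩

lemma dens_lin (h1 : K1Stmt) {ι : Type} [Fintype ι] {ψ : ι → V → ℝ}
    (h : ∀ k, GK (fun x => a x * ψ k x) Z S) (A : ι → ℝ) (z : V) :
    dens (fun x => a x * ∑ k, A k * ψ k x) Z S z =
      ∑ k, A k * dens (fun x => a x * ψ k x) Z S z := by
  unfold dens
  simp_rw [← integral_const_mul]
  rw [← integral_finsetSum _ fun k _ => ((h1 _ _ _ (h k)).2.1 z).const_mul (A k)]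
  refine integral_congr_ae (Eventually.of_forall fun x => ?_)
  simp only [Finset.mul_sum, Finset.sum_mul]
  exact Finset.sum_congr rfl fun k _ => by ring

variable (F : Fr)

lemma p7 (h1 : K1Stmt) (hO : Orth F.O) (hQ : 0 < F.Q.det)
    (h : ∀ k, GK (fun x => a x * u x k) Z S) (z : V) (i : Fin 3) :
    F.Q.det * ∑ k, F.Q⁻¹ i k * dens (fun x => a x * u x k) Z S (F.zp z) =
      dens (fun x => F.sc a x * F.hatv u x i) (F.hat Z) (F.cov S) z := by
  refine Eq.trans ?_ (congrFun (p1 F hO hQ (fun x => a x * ∑ k, F.Q⁻¹ i k * u x k) Z S) z)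
  rw [Fr.den, dens_lin h1 h]

lemma p8 (h1 : K1Stmt) (hO : Orth F.O) (hQ : 0 < F.Q.det)
    (h : ∀ k l, GK (fun x => a x * B x k l) Z S) (z : V) (i : Fin 3) :
    F.Q.det * ∑ k, F.Q⁻¹ i k * ∑ l, pd l (dens (fun x => a x * B x k l) Z S) (F.zp z) =
      ∑ j, pd j (dens (fun x => F.sc a x * F.cov B x i j) (F.hat Z) (F.cov S)) z := by
  have hd : ∀ k l, Differentiable ℝ (dens (fun x => a x * B x k l) Z S) := fun k l =>
    (h1 _ _ _ (h k l)).1.differentiable (by simp)
  set R : V → V := fun w l => 0 + ∑ k, F.Q⁻¹ i k * dens (fun x => a x * B x k l) Z S w with hR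
  have d : Differentiable ℝ R := differentiable_pi.2 fun l =>
    (differentiable_const _).add (Differentiable.fun_sum fun k _ => (hd k l).const_mul _)
  have e : ∀ j, dens (fun x => F.sc a x * F.cov B x i j) (F.hat Z) (F.cov S) =
      fun w => F.vd R w j := fun j => by
    have e1 : (fun x => F.sc a x * F.cov B x i j) = F.sc fun x => a x *
        ∑ p : Fin 3 × Fin 3, (F.Q⁻¹ i p.1 * F.Q⁻¹ j p.2) * B x p.1 p.2 := by
      funext x
      simp only [Fr.sc, Fr.cov, Fr.cv1, mul_apply, transpose_apply, Fintype.sum_prod_type,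
        Fin.sum_univ_three]
      ring
    funext w
    rw [e1, ← p1 F hO hQ, Fr.den, dens_lin h1 fun p : Fin 3 × Fin 3 => h p.1 p.2]
    simp only [Fr.vd, hR, Pi.smul_apply, smul_eq_mul, mulVec, dotProduct, Fintype.sum_prod_type,
      Fin.sum_univ_three]
    ring
  simp only [e]
  refine Eq.trans ?_ (congrFun (p3 F hQ d) z).symm
  rw [Fr.den, dv]
  simp only [hR, pd_lin (fun k => hd k _ _), Finset.mul_sum]
  rw [Finset.sum_comm]

lemma p6 (h1 : K1Stmt) (hO : Orth F.O) (hQ : 0 < F.Q.det) (h : GKp a Z S u B) :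
    F.vd (flux a Z S u B) = flux (F.sc a) (F.hat Z) (F.cov S) (F.hatv u) (F.cov B) := by
  obtain ⟨C, hC⟩ := h.2.2.2.2
  have c1 : ∀ k, Continuous fun x => u x k := fun k => (continuous_apply k).comp h.2.2.1
  have b1 : ∀ k, ∃ C, ∀ x, a x ≠ 0 → |u x k| ≤ C := fun k =>
    ⟨C, fun x hx => (norm_le_pi_norm (u x) k).trans (hC x hx).1⟩
  have b2 : ∀ k l, ∃ C, ∀ x, a x ≠ 0 → |B x k l| ≤ C := fun k l =>
    ⟨C, fun x hx => (hC x hx).2 k l⟩
  have e1 : ∀ t : ℝ, (fun x => F.hat Z x + t • F.hatv u x) = F.hat fun x => Z x + t • u x :=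
    fun t => by
      funext x
      simp only [Fr.hat, Fr.hatv, Fr.zc]
      rw [← mulVec_smul, ← mulVec_add, add_sub_right_comm]
  have e2 : ∀ t : ℝ, (fun x => F.cov S x + t • (F.cov B x + (F.cov B x)ᵀ)) =
      F.cov fun x => S x + t • (B x + (B x)ᵀ) := fun t => by
    funext x
    simp only [Fr.cov, Fr.cv1, transpose_mul, transpose_transpose, Matrix.mul_add, Matrix.add_mul,
      Matrix.mul_smul, Matrix.smul_mul, Matrix.mul_assoc]
  funext z i
  have i1 := fun k => ((int_path h1 h (c1 k) (b1 k) (F.zp z)).1.neg.add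
    (IntervalIntegrable.sum Finset.univ fun l _ =>
      (int_path h1 h (h.2.2.2.1 k l) (b2 k l) (F.zp z)).2 l)).const_mul (F.Q⁻¹ i k)
  show F.Q.det * ∑ k, F.Q⁻¹ i k * flux a Z S u B (F.zp z) k = _
  unfold flux
  simp only [e1, e2, ← intervalIntegral.integral_const_mul]
  rw [← intervalIntegral.integral_finsetSum fun k _ => by
    simpa only [Pi.neg_apply, Finset.sum_apply] using i1 k, ← intervalIntegral.integral_const_mul]
  refine intervalIntegral.integral_congr fun t ht => ?_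
  rw [uIcc_of_le zero_le_one] at ht
  rw [← p7 F h1 hO hQ fun k => gk_path h (c1 k) (b1 k) ht,
    ← p8 F h1 hO hQ fun k l => gk_path h (h.2.2.2.1 k l) (b2 k l) ht]
  simp only [Fin.sum_univ_three]
  ring

end K3

open K3 in
theorem k3 (h1 : K1Stmt) (h2 : K2Stmt) : K3Stmt := fun F hO hQ =>
  have _ := h2
  ⟨p1 F hO hQ, fun _ _ _ h => p2 F hO hQ h, fun _ h => p3 F hQ h, fun _ h => p4 F h,
    fun _ h => p5 F h, fun _ _ _ _ _ h => p6 F h1 hO hQ h, fun _ _ _ u h hu ⟨C, hC⟩ =>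
      funext fun z => funext fun i => p7 F h1 hO hQ (fun k => gk_mul h
        ((continuous_apply k).comp hu) ⟨C, fun x hx => (norm_le_pi_norm (u x) k).trans (hC x hx)⟩)
        z i⟩

end
end Pool.Agent.MP_20bec2_an.T3

end MrgPart1

-- marker of a merged file
example : 731051 + 352363 = 731051 + 352363 := rfl

end MrgPart2

-- ======== part 3: formerly Pool.Agent.MP_20bec2_an.T3.Conv
section MrgPart3

/-! Row CONV: two densities whose covariances differ by a constant matrix up to a small error. -/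

set_option autoImplicit false
open MeasureTheory Set Filter Matrix Topology

namespace Pool.Agent.MP_20bec2_an.T3
noncomputable section
open Classical

namespace ConvP

/-- derivative in the direction `v` -/
def Dv (v : V) (G : V → ℝ) (w : V) : ℝ := ∑ i, v i * pd i G w

lemma sm_Dv (v : V) {G : V → ℝ} (hG : Sm G) : Sm (Dv v G) :=
  ContDiff.sum fun i _ => (hG.pd i).cmul (v i)

lemma Dv_add (v : V) {F G : V → ℝ} (hF : Sm F) (hG : Sm G) (w : V) :
    Dv v (fun x => F x + G x) w = Dv v F w + Dv v G w := by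
  simp only [Dv, pd_add hF hG, mul_add, Finset.sum_add_distrib]

lemma Dv_sub (v : V) {F G : V → ℝ} (hF : Sm F) (hG : Sm G) (w : V) :
    Dv v (fun x => F x - G x) w = Dv v F w - Dv v G w := by
  simp only [Dv, pd_sub hF hG, mul_sub, Finset.sum_sub_distrib]

lemma cb_Dv {n : ℕ} {h v : V} {U : Set V} {G : V → ℝ} {B κ : ℝ} (hh : ∀ i, 0 < h i)
    (hv : ∀ i, |v i| ≤ κ * h i) (hG : Sm G) (H : CB (n + 1) h U G B) :
    CB n h U (Dv v G) (3 * (κ * B)) := by
  have h0 : ∀ i, 0 ≤ h i := fun i => (hh i).le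
  have h1 := CBl.sum_card (P := fun l => l.length ≤ n) (h := h) (U := U) (B := κ * B) Finset.univ
    (F := fun i x => v i / h i * (h i * pd i G x)) h0
    (fun i _ => ((hG.pd i).cmul _).cmul _)
    (fun i _ => CBl.smul_le h0 (H.pd h0 i) (by
      rw [abs_div, abs_of_pos (hh i), div_le_iff₀ (hh i)]; exact hv i))
  simp only [Finset.card_univ, Fintype.card_fin, Nat.cast_ofNat] at h1
  refine CBl.congr_fun h1 fun x => Finset.sum_congr rfl fun i _ => ?_
  field_simp [(hh i).ne']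

lemma gk_ind {b : V → ℝ} {Z : V → V} {S : V → Mx} (h : GK b Z S) {U : Set V}
    (hU : MeasurableSet U) : GK (indicator U b) Z S := by
  obtain ⟨h1, h2, h3, c, C, hc, h4⟩ := h
  refine ⟨h1.indicator hU, h2, h3, c, C, hc, fun x => ?_⟩
  by_cases hx : x ∈ U
  · rw [indicator_of_mem hx]; exact h4 x
  · rw [indicator_of_notMem hx]
    exact ⟨by simpa using (abs_nonneg _).trans (h4 x).1, fun h => absurd rfl h⟩

lemma split {b : V → ℝ} {Z : V → V} {S : V → Mx} (h : GK b Z S) {U : Set V}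
    (hU : MeasurableSet U) :
    dens b Z S = fun z => dens (indicator U b) Z S z + dens (indicator Uᶜ b) Z S z := by
  funext z
  unfold dens
  rw [← integral_add ((k1 _ _ _ (gk_ind h hU)).2.1 z) ((k1 _ _ _ (gk_ind h hU.compl)).2.1 z)]
  refine integral_congr_ae (Eventually.of_forall fun x => ?_)
  by_cases hx : x ∈ U <;> simp [hx]

lemma coer {h : V} (hh : ∀ i, 0 < h i) {A : Mx}
    (hA : ∀ v : V, 1 / 10 ^ 4 * ∑ i, (h i * v i) ^ 2 ≤ v ⬝ᵥ (A *ᵥ v)) :
    ∃ c : ℝ, 0 < c ∧ ∀ v : V, c * (v ⬝ᵥ v) ≤ v ⬝ᵥ (A *ᵥ v) := by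
  obtain ⟨m, hm, hle⟩ : ∃ m : ℝ, 0 < m ∧ ∀ i, m ≤ h i :=
    ⟨min (h 0) (min (h 1) (h 2)), lt_min (hh 0) (lt_min (hh 1) (hh 2)), fun i => by
      fin_cases i
      · exact min_le_left _ _
      · exact (min_le_right _ _).trans (min_le_left _ _)
      · exact (min_le_right _ _).trans (min_le_right _ _)⟩
  refine ⟨1 / 10 ^ 4 * m ^ 2, by positivity, fun v => le_trans ?_ (hA v)⟩
  rw [mul_assoc]
  refine mul_le_mul_of_nonneg_left ?_ (by norm_num)
  rw [dotProduct, Finset.mul_sum]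
  refine Finset.sum_le_sum fun i _ => ?_
  rw [mul_pow, ← sq]
  exact mul_le_mul_of_nonneg_right (pow_le_pow_left₀ hm.le (hle i) 2) (sq_nonneg _)

/-- derivatives of `Dv` of the convolved density -/
lemma conv_eq {a : V → ℝ} {Z : V → V} {S : V → Mx} {A : Mx} {c : ℝ} (hK : GK a Z S)
    (hc : 0 < c) (hA : Aᵀ = A) (hAc : ∀ v : V, c * (v ⬝ᵥ v) ≤ v ⬝ᵥ (A *ᵥ v))
    (hs : Sm (dens a Z fun x => S x + A)) (v : V) (l : List (Fin 3)) (z : V) :
    pds l (Dv v (dens a Z fun x => S x + A)) z =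
      ∫ w, pds l (ker A) w * Dv v (dens a Z S) (z - w) := by
  have H := fun i => (kc k1 (k4 k1)).1 a Z S A c hK hc hA hAc l [i] z
  have e : pds l (Dv v (dens a Z fun x => S x + A)) z =
      ∑ i, v i * pds (l ++ [i]) (dens a Z fun x => S x + A) z := by
    have := pds_sum Finset.univ (f := fun i x => v i * pd i (dens a Z fun x => S x + A) x)
      (fun i _ => (hs.pd i).cmul (v i)) l
    refine (congrFun this z).trans (Finset.sum_congr rfl fun i _ => ?_)
    rw [pds_const_mul, pds_concat]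
  rw [e]
  simp only [fun i => (H i).2, ← integral_const_mul]
  rw [← integral_finsetSum _ fun i _ => ((H i).1.const_mul (v i))]
  refine integral_congr_ae (Eventually.of_forall fun w => ?_)
  simp only [Dv, Finset.mul_sum, pds_cons, pds_nil]
  exact Finset.sum_congr rfl fun i _ => by ring

lemma int_bd {k G : V → ℝ} (hk : Integrable k) {T : Set V} (hT : MeasurableSet T) {β M : ℝ}
    (hβ : 0 ≤ β) (h1 : ∀ w, w ∉ T → |G w| ≤ β) (h2 : ∀ w, |G w| ≤ M) :
    |∫ w, k w * G w| ≤ β * (∫ w, |k w|) + M * ∫ w in T, |k w| := by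
  have i1 : Integrable fun w => β * |k w| := hk.abs.const_mul β
  have i2 : Integrable fun w => M * indicator T (fun w => |k w|) w :=
    (hk.abs.indicator hT).const_mul M
  rw [← integral_indicator hT, ← integral_const_mul, ← integral_const_mul, ← integral_add i1 i2,
    ← Real.norm_eq_abs]
  refine norm_integral_le_of_norm_le (i1.add i2) (Eventually.of_forall fun w => ?_)
  rw [Real.norm_eq_abs, abs_mul]
  have := abs_nonneg (k w)
  by_cases hw : w ∈ T
  · rw [indicator_of_mem hw]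
    nlinarith [mul_le_mul_of_nonneg_left (h2 w) this, mul_nonneg hβ this]
  · rw [indicator_of_notMem hw]
    nlinarith [mul_le_mul_of_nonneg_left (h1 w hw) this]

lemma meas_T (h : V) (r : ℝ) : MeasurableSet {w : V | r ≤ ∑ i, (w i / h i) ^ 2} :=
  (isClosed_le continuous_const (by fun_prop)).measurableSet

/-- the statement in hat coordinates, with all scales abstract -/
lemma core : ∃ C : ℝ, 1 ≤ C ∧ ∀ (b : V → ℝ) (Z Z' : V → V) (S S' : V → Mx) (h h0 : V)
    (U W : Set V) (κ ε M δ r ρ0 : ℝ) (A : Mx) (z : V), (∀ i, 0 < h0 i) → 1 ≤ κ →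
    (∀ i, h i ≤ κ * h0 i) → GK b Z S → GK b Z' S' → KL h U (indicator U b) 2 Z' S' →
    CB 4 h0 W (dens (indicator Uᶜ b) Z S) ε → CB 4 h W (dens (indicator Uᶜ b) Z' S') ε →
    CB 1 h0 univ (dens (indicator U b) Z S) M → 0 ≤ δ → δ ≤ 1 / 1000 → Aᵀ = A →
    (∀ x ∈ U, (S x)ᵀ = S x ∧ (∀ i, |(Z' x - Z x) i| ≤ δ * h i) ∧
      EB (nrm h (S' x - S x - A)) (cm δ)) →
    (∀ w : V, ‖w‖ ≤ ρ0 → z - w ∈ W) → 0 ≤ ρ0 →
    (∀ w : V, ∑ i, (w i / h i) ^ 2 < r → ‖w‖ ≤ ρ0) →
    (A = 0 → CB 4 h {z} (fun w => dens b Z' S' w - dens b Z S w) (C * δ + (ε + κ ^ 4 * ε))) ∧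
    ((∀ v : V, 1 / 10 ^ 4 * ∑ i, (h i * v i) ^ 2 ≤ v ⬝ᵥ (A *ᵥ v) ∧
      v ⬝ᵥ (A *ᵥ v) ≤ 6 * ∑ i, (h i * v i) ^ 2) → ∀ (v : V) (β : ℝ), (∀ i, |v i| ≤ h i) →
      (∀ w, ‖w - z‖ ≤ ρ0 → |Dv v (dens b Z S) w| ≤ β) → 0 ≤ β ∧
      |Dv v (dens b Z' S') z| ≤
        β + C * δ + (3 * ε + 3 * (κ * ε) + 3 * (κ * M) * (C * Real.exp (-r / 60))) ∧
      CB 3 h {z} (Dv v (dens b Z' S'))
        (C * (β + δ) + (3 * ε + C * (3 * (κ * ε)) + 3 * (κ * M) * (C * Real.exp (-r / 60))))) := by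
  obtain ⟨C1, hC1, hP⟩ := kp' k1 (k2 k1) (kb_ k1) 4
  obtain ⟨C2, hC2, hK⟩ := (kc k1 (k4 k1)).2 3
  refine ⟨6 * C1 + C2, by linarith, ?_⟩
  intro b Z Z' S S' h h0 U W κ ε M δ r ρ0 A z hh0 hκ hle gk gk' kl far far' cr hδ0 hδ1 hA hx hW
    hρ hr
  have hh := kl.hh
  have hh' : ∀ i, 0 ≤ h i := fun i => (hh i).le
  have hU : MeasurableSet U := kl.cl.isClosed.measurableSet
  have hz : z ∈ W := by simpa using hW 0 (by simpa using hρ)
  have hzW : ({z} : Set V) ⊆ W := singleton_subset_iff.2 hz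
  have hε : 0 ≤ ε := far.nonneg hz
  have hM : 0 ≤ M := cr.nonneg (mem_univ z)
  obtain ⟨gc, err⟩ := hP h U _ 2 Z' S' Z (fun x => S x + A) δ kl gk.2.1
    (fun i j => (gk.2.2.1 i j).add continuous_const) hδ0 hδ1 (fun x hxU _ => by
      obtain ⟨e1, e2, e3⟩ := hx x hxU
      refine ⟨fun i => by rw [abs_sub_comm]; exact e2 i, by rw [transpose_add, e1, hA],
        fun i j => ?_⟩
      have e4 : nrm h (S x + A - S' x) i j = -nrm h (S' x - S x - A) i j := by
        simp only [nrm, of_apply, Matrix.sub_apply, Matrix.add_apply]; ring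
      rw [e4, abs_neg]; exact e3 i j)
  have sn := (k1 _ _ _ (gk_ind gk hU)).1
  have sf := (k1 _ _ _ (gk_ind gk hU.compl)).1
  have sn' := (k1 _ _ _ (gk_ind gk' hU)).1
  have sf' := (k1 _ _ _ (gk_ind gk' hU.compl)).1
  have sc := (k1 _ _ _ gc).1
  have se := ContDiff.sub sc sn'
  have e := split gk hU
  have e' := split gk' hU
  have err' : CB 4 h {z} _ _ := CBl.monoU err (subset_univ _)
  have hδ2 : C1 * 2 * δ ≤ (6 * C1 + C2) * δ := mul_le_mul_of_nonneg_right (by linarith) hδ0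
  constructor
  · rintro rfl
    simp only [add_zero] at err' se
    have f1 : CB 4 h {z} _ _ := CBl.monoU far' hzW
    have f2 : CB 4 h {z} _ _ := CBl.monoU (far.rescale hκ (fun i => (hh0 i).le) hh' hle) hzW
    have f3 := CBl.sub hh' (ContDiff.sub sf' sf) se (CBl.sub hh' sf' sf f1 f2) err'
    refine CBl.monoB (CBl.congr_fun f3 fun w => ?_) (by linarith)
    rw [e, e']; ring
  · intro hAb v β hv hβ
    have hβ0 : 0 ≤ β := (abs_nonneg _).trans (hβ z (by simpa using hρ))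
    refine ⟨hβ0, ?_⟩
    obtain ⟨c, hc, hAc⟩ := coer hh fun v => (hAb v).1
    have hv0 : ∀ i, |v i| ≤ κ * h0 i := fun i => (hv i).trans (hle i)
    have hv1 : ∀ i, |v i| ≤ 1 * h i := fun i => by rw [one_mul]; exact hv i
    have d1 : CB 3 h {z} _ _ := cb_Dv hh hv1 se err'
    have d2 : CB 3 h {z} _ _ := cb_Dv hh hv1 sf' (CBl.monoU far' hzW)
    have d3 : CB 3 h0 W _ _ := cb_Dv hh0 hv0 sf far
    have d4 : CB 0 h0 univ _ _ := cb_Dv hh0 hv0 sn cr
    have hβ1 : 0 ≤ β + 3 * (κ * ε) := by positivity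
    have hM1 : 0 ≤ 3 * (κ * M) := by positivity
    have near : ∀ w : V, w ∉ {w : V | r ≤ ∑ i, (w i / h i) ^ 2} →
        |Dv v (dens (indicator U b) Z S) (z - w)| ≤ β + 3 * (κ * ε) := fun w hw => by
      have h1 := hr w (not_le.1 hw)
      have h2 := hβ (z - w) (by simpa using h1)
      have h3 := d3.val (hW w h1)
      rw [e, Dv_add v sn sf] at h2
      rw [abs_le] at h2 h3 ⊢
      constructor <;> linarith [h2.1, h2.2, h3.1, h3.2]
    have main : ∀ l : List (Fin 3), l.length ≤ 3 →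
        hp h l * |pds l (Dv v (dens (indicator U b) Z fun x => S x + A)) z| ≤
          (β + 3 * (κ * ε)) * (hp h l * ∫ w, |pds l (ker A) w|) +
            3 * (κ * M) * (C2 * Real.exp (-r / 60)) := fun l hl => by
      obtain ⟨i1, -, i3⟩ := hK h A hh hA hAb l hl
      rw [conv_eq (gk_ind gk hU) hc hA hAc sc]
      have h1 := mul_le_mul_of_nonneg_left
        (int_bd i1 (meas_T h r) hβ1 near fun w => d4.val (mem_univ (z - w))) (hp_nonneg hh' l)
      have h2 := mul_le_mul_of_nonneg_left (i3 r) hM1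
      linarith
    have ed : ∀ w, Dv v (dens b Z' S') w =
        (Dv v (dens (indicator U b) Z fun x => S x + A) w -
          Dv v (fun y => dens (indicator U b) Z (fun x => S x + A) y -
            dens (indicator U b) Z' S' y) w) + Dv v (dens (indicator Uᶜ b) Z' S') w := fun w => by
      rw [e', Dv_add v sn' sf', Dv_sub v sc sn']; ring
    have hE := Real.exp_pos (-r / 60)
    have t1 : 3 * (κ * M) * (C2 * Real.exp (-r / 60)) ≤
        3 * (κ * M) * ((6 * C1 + C2) * Real.exp (-r / 60)) :=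
      mul_le_mul_of_nonneg_left (mul_le_mul_of_nonneg_right (by linarith) hE.le) hM1
    have t2 : 0 ≤ C2 * δ := by positivity
    constructor
    · obtain ⟨k0, -, k2, -⟩ := (k4 k1).1 A c hc hA hAc
      have h1 := main [] (by simp)
      simp only [hp_nil, pds_nil, one_mul, fun w => abs_of_pos (k0 w), k2, mul_one] at h1
      have h2 := d1.val (mem_singleton z)
      have h3 := d2.val (mem_singleton z)
      rw [ed]
      rw [abs_le] at h1 h2 h3 ⊢
      constructor <;> linarith [h1.1, h1.2, h2.1, h2.2, h3.1, h3.2]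
    · have h1 : CB 3 h {z} (Dv v (dens (indicator U b) Z fun x => S x + A))
          ((β + 3 * (κ * ε)) * C2 + 3 * (κ * M) * (C2 * Real.exp (-r / 60))) := by
        rintro l hl x rfl
        have := mul_le_mul_of_nonneg_left (hK h A hh hA hAb l hl).2.1 hβ1
        linarith [main l hl]
      have h2 := CBl.add hh' (ContDiff.sub (sm_Dv v sc) (sm_Dv v se)) (sm_Dv v sf')
        (CBl.sub hh' (sm_Dv v sc) (sm_Dv v se) h1 d1) d2
      refine CBl.monoB (CBl.congr_fun h2 ed) ?_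
      have t3 : 0 ≤ C1 * (β + 3 * (κ * ε)) := by positivity
      linarith

/-- comparison of the kernel scales -/
lemma scales {c c0 : Pm} (g : Gd c) (g0 : Gd c0) (eN : c0.N = c.N) (el : c0.lb = c.lb)
    (er : c0.ro = c.ro) {hv hv' : ℝ} (h1 : np c.N (-2) * c0.y ≤ hv)
    (h3 : hv' ≤ c.y) : (∀ i, 0 < c0.hy hv i) ∧ (∀ i, c.hy hv' i ≤ np c.N 95 * c0.hy hv i) ∧
    ∀ i, c.hy hv' i ≤ np c.N (11 / 10) * c.lb := by
  have b := g.big
  have p0 : 0 < hv := (mul_pos (b.np_pos _) g0.y_pos).trans_le h1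
  have l1 : c.lam ≤ np c.N 93 * c0.lam := by
    have := g0.lb_le
    rw [eN, el] at this
    exact g.lam_le_lb.trans this
  have l2 : c.lam ≤ np c.N 95 * c0.lam :=
    l1.trans (mul_le_mul_of_nonneg_right (b.np_le (by norm_num)) g0.lam_pos.le)
  have n1 : 1 ≤ np c.N (11 / 10) := by rw [← np_zero c.N]; exact b.np_le (by norm_num)
  have n2 : c.ro ≤ np c.N (11 / 10) := by
    refine g.ro_le.trans ?_
    rw [Real.sqrt_eq_rpow]
    exact b.np_le (a := 1 / 2) (by norm_num)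
  refine ⟨fun i => ?_, fun i => ?_, fun i => ?_⟩
  · fin_cases i
    exacts [g0.l1_pos, g0.lam_pos, p0]
  · fin_cases i
    · show c.ro * c.lam ≤ np c.N 95 * (c0.ro * c0.lam)
      rw [er]
      linarith [mul_le_mul_of_nonneg_left l2 g.ro_pos.le]
    · exact l2
    · show hv' ≤ np c.N 95 * hv
      have e1 : np c.N 95 * np c.N (-2) = np c.N 93 := by rw [← b.np_add]; norm_num
      have e2 : c0.y = np c.N (11 / 10) * c0.lam := by rw [Pm.y, eN]
      have e3 : c.y = np c.N (11 / 10) * c.lam := rfl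
      have h4 := mul_le_mul_of_nonneg_left h1 (b.np_pos 95).le
      have h5 := mul_le_mul_of_nonneg_left l1 (b.np_pos (11 / 10)).le
      rw [← mul_assoc, e1, e2] at h4
      linarith
  · fin_cases i
    · exact mul_le_mul n2 g.lam_le_lb g.lam_pos.le (b.np_pos _).le
    · exact g.lam_le_lb.trans (le_mul_of_one_le_left g.lb_pos.le n1)
    · exact h3.trans (mul_le_mul_of_nonneg_left g.lam_le_lb (b.np_pos _).le)

lemma np_big {N : ℕ} (b : Big N) {a : ℝ} (ha : 1 / 2 ≤ a) : 60000 ≤ np N a := by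
  rw [b.np_eq]
  have h1 := mul_le_mul_of_nonneg_right ha b.J_pos.le
  linarith [Real.add_one_le_exp (a * pJ N), b.J_ge, b.L_ge]

/-- the exponentially small terms -/
lemma junk {N : ℕ} (b : Big N) {C : ℝ} (hC : 1 ≤ C) (hq : C ≤ pq N) :
    C * (np N 95 ^ 4 * (2 * Real.exp (-(N : ℝ) ^ 3))) ≤ Real.exp (-(N : ℝ)) / 12 ∧
    np N 95 * (2 * Real.exp (100 * (N : ℝ) ^ 2)) * (C * Real.exp (-np N (14 / 5) / 60)) ≤
      Real.exp (-(N : ℝ)) / 12 := by
  have hJ := b.J_pos
  have hN : (1000 : ℝ) ≤ N := by linarith [b.N_ge, b.J_ge, b.L_ge]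
  have hJN : pJ N ≤ N := by linarith [b.N_ge]
  have c1 : C ≤ Real.exp N := by linarith [b.q_le_J, Real.add_one_le_exp (N : ℝ)]
  have c2 : (24 : ℝ) ≤ Real.exp N := by linarith [Real.add_one_le_exp (N : ℝ)]
  have c3 : np N 95 ≤ Real.exp (95 * N) := by
    rw [b.np_eq]; exact Real.exp_le_exp.2 (by linarith)
  have c4 : np N 95 ^ 4 ≤ Real.exp (380 * N) := by
    refine (pow_le_pow_left₀ (b.np_pos _).le c3 4).trans_eq ?_
    rw [← Real.exp_nat_mul]; congr 1; push_cast; ring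
  have c5 : 60000 * (N : ℝ) ^ 2 ≤ np N (14 / 5) := by
    have e : np N (14 / 5) = np N (4 / 5) * (N : ℝ) ^ 2 := by
      rw [← np_nat, ← b.np_add]; norm_num
    rw [e]
    exact mul_le_mul_of_nonneg_right (np_big b (by norm_num)) (sq_nonneg _)
  have p := b.np_pos 95
  have N2 : 1000 * (N : ℝ) ≤ (N : ℝ) ^ 2 := by nlinarith
  have N3 : (N : ℝ) ^ 2 ≤ (N : ℝ) ^ 3 := by nlinarith
  constructor
  · rw [le_div_iff₀ (by norm_num)]
    calc C * (np N 95 ^ 4 * (2 * Real.exp (-(N : ℝ) ^ 3))) * 12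
        = 24 * (C * (np N 95 ^ 4 * Real.exp (-(N : ℝ) ^ 3))) := by ring
      _ ≤ Real.exp N * (Real.exp N * (Real.exp (380 * N) * Real.exp (-(N : ℝ) ^ 3))) := by gcongr
      _ ≤ _ := by
        simp only [← Real.exp_add]
        exact Real.exp_le_exp.2 (by linarith)
  · rw [le_div_iff₀ (by norm_num)]
    calc np N 95 * (2 * Real.exp (100 * (N : ℝ) ^ 2)) * (C * Real.exp (-np N (14 / 5) / 60)) * 12
        = 24 * (C * (np N 95 * (Real.exp (100 * (N : ℝ) ^ 2) *
            Real.exp (-np N (14 / 5) / 60)))) := by ring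
      _ ≤ Real.exp N * (Real.exp N * (Real.exp (95 * N) * (Real.exp (100 * (N : ℝ) ^ 2) *
            Real.exp (-np N (14 / 5) / 60)))) := by gcongr
      _ ≤ _ := by
        simp only [← Real.exp_add]
        exact Real.exp_le_exp.2 (by linarith)

lemma gd_of {B : Bk} (b : Big B.N) (hG : B.G) (g : Cu) {k : ℕ} (hk : k ≤ nb B.N) :
    Gd (B.c g k) := by
  obtain ⟨h1, h2, h3, h4, h5, h6, -⟩ := (hG.fx g).2.2.2.2.2
  exact ⟨b, h1, h2, h3, h4, h5, h6, hk⟩

end ConvP

open ConvP in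
theorem conv (hKg : KgStmt) : ConvStmt := by
  obtain ⟨C, hC, hcore⟩ := core
  filter_upwards [hKg, ev_big, ev_C_q C] with N hK b hq B hN
  subst hN
  replace hK := hK B rfl
  intro ρ k0 k Z Z' S S' hv hv' δ g A z hρ hG hk0 hk ks ks' hδ0 hδ1 hA hAb hx hz
  have g0 := gd_of b hG g hk0
  have g1 := gd_of b hG g hk
  have hO := (hG.fx g).2.1
  have hlb : 0 < B.lb := g1.lb_pos
  have hNp := b.N_pos
  obtain ⟨s1, s2, s3⟩ := scales g1 g0 rfl rfl rfl ks.hvb.1 ks'.hvb.2
  have k3' := (k3 k1 (k2 k1) (B.fr g) hO (hG.fx g).2.2.1).1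
  have mb : Measurable ((B.fr g).sc ρ) := hρ.1.comp (by unfold Fr.xp; fun_prop)
  have bb : ∀ x, |(B.fr g).sc ρ x| ≤ 2 := fun x => by
    have := hρ.2 ((B.fr g).xp x)
    unfold eps0 at this
    rw [abs_le] at this ⊢
    unfold Fr.sc
    constructor <;> linarith [this.1, this.2]
  obtain ⟨gk, kl0, far, -⟩ := (hK k0 Z S hv hG hk0 ks _ 2 mb bb).2 g
  obtain ⟨gk', kl, far', -⟩ := (hK k Z' S' hv' hG hk ks' _ 2 mb bb).2 g
  obtain ⟨-, -, -, cr⟩ := (hK k0 Z S hv hG hk0 ks _ 2 kl0.ma kl0.ba).2 g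
  have hκ : 1 ≤ np B.N 95 := by rw [← np_zero B.N]; exact b.np_le (by norm_num)
  have hρ0 : 0 ≤ np B.N (5 / 2) * B.lb := (mul_pos (b.np_pos _) hlb).le
  have hW : ∀ w : V, ‖w‖ ≤ np B.N (5 / 2) * B.lb → z - w ∈ B.R g (985 / 1000) := fun w hw => by
    have h1 : ‖(B.fr g).O *ᵥ z‖ ≤ (985 / 1000 - 1 / (2 * B.N)) * ((B.N : ℝ) ^ 4 * B.lb) := hz
    show ‖(B.fr g).O *ᵥ (z - w)‖ ≤ 985 / 1000 * ((B.N : ℝ) ^ 4 * B.lb)
    have h2 := Prof.orth_norm_le hO w
    have h3 : np B.N (1 / 2) * np B.N (5 / 2) = (B.N : ℝ) ^ 3 := by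
      rw [← b.np_add, ← np_nat]; norm_num
    have h4 := mul_le_mul_of_nonneg_right (np_big b (a := 1 / 2) le_rfl) hρ0
    have h5 : 1 / (2 * B.N : ℝ) * ((B.N : ℝ) ^ 4 * B.lb) = (B.N : ℝ) ^ 3 * B.lb / 2 := by
      field_simp
    rw [← mul_assoc (np B.N (1 / 2)), h3] at h4
    rw [sub_mul, h5] at h1
    rw [mulVec_sub]
    linarith [norm_sub_le ((B.fr g).O *ᵥ z) ((B.fr g).O *ᵥ w)]
  have hr : ∀ w : V, ∑ i, (w i / (B.c g k).hy hv' i) ^ 2 < np B.N (14 / 5) →
      ‖w‖ ≤ np B.N (5 / 2) * B.lb := fun w hw => by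
    refine Prof.norm_le_of fun i => ?_
    have h1 := Finset.single_le_sum (f := fun i => (w i / (B.c g k).hy hv' i) ^ 2)
      (fun _ _ => sq_nonneg _) (Finset.mem_univ i)
    have e1 : np B.N (14 / 5) = np B.N (7 / 5) ^ 2 := by rw [sq, ← b.np_add]; norm_num
    have e2 : np B.N (5 / 2) = np B.N (7 / 5) * np B.N (11 / 10) := by
      rw [← b.np_add]; norm_num
    have h2 : |w i / (B.c g k).hy hv' i| ≤ np B.N (7 / 5) :=
      abs_le_of_sq_le_sq' (by linarith) (b.np_pos _).le |> abs_le.2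
    rw [abs_div, abs_of_pos (kl.hh i), div_le_iff₀ (kl.hh i)] at h2
    rw [e2, mul_assoc]
    exact h2.trans (mul_le_mul_of_nonneg_left (s3 i) (b.np_pos _).le)
  obtain ⟨c1, c2⟩ := hcore _ _ _ _ _ _ _ _ _ _ _ _ δ _ _ A z s1 hκ s2 gk gk' kl
    (far.of_le (by norm_num)) (far'.of_le (by norm_num)) (cr.of_le (by norm_num)) hδ0 hδ1 hA
    (fun x hxU => ⟨(ks.bd g x hxU).2.2.1, hx x hxU⟩) hW hρ0 hr
  obtain ⟨j1, j2⟩ := junk b hC hq
  have hε : 0 ≤ 2 * Real.exp (-(B.N : ℝ) ^ 3) := by positivity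
  have u1 := le_mul_of_one_le_left hε hκ
  have u2 := mul_le_mul_of_nonneg_right (le_self_pow₀ hκ (show 4 ≠ 0 by norm_num)) hε
  have u3 := le_mul_of_one_le_left (hε.trans (u1.trans u2)) hC
  have u4 := mul_le_mul_of_nonneg_left u2 (zero_le_one.trans hC)
  have u5 := mul_le_mul_of_nonneg_right hq hδ0
  have hE := Real.exp_pos (-(B.N : ℝ))
  rw [k3', k3']
  refine ⟨fun h0 => CBl.monoB (c1 h0) (by linarith), fun h0 v β hv2 hvs hβ => ?_⟩
  have hv' : ∀ i, |v i| ≤ (B.c g k).hy hv' i := fun i => by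
    fin_cases i
    · exact hvs 0
    · exact hvs 1
    · show |v 2| ≤ _
      rw [hv2, abs_zero]; exact (kl.hh 2).le
  obtain ⟨b0, d1, d2⟩ := c2 (hAb.resolve_left h0) v β hv' hβ
  have u6 := mul_le_mul_of_nonneg_right hq (add_nonneg b0 hδ0)
  exact ⟨le_trans d1 (by linarith), CBl.monoB d2 (by linarith)⟩

end
end Pool.Agent.MP_20bec2_an.T3

end MrgPart3

-- marker of a merged file
example : 731051 + 85967 = 731051 + 85967 := rfl
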