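import Mathlib.Topology.Sheaves.Presheaf
import Mathlib.Tactic.Monotonicity.Lemmas
import Mathlib.Algebra.Order.Star.Real
import Mathlib.Analysis.Calculus.ContDiff.Convolution
import Mathlib.Analysis.Calculus.FDeriv.Symmetric
import Mathlib.Analysis.Calculus.LineDeriv.IntegrationByParts
import Mathlib.MeasureTheory.Integral.Pi
import Mathlib.Data.Set.Finite.List
import Mathlib.RingTheory.PiTensorProduct
import Mathlib.Order.CompletePartialOrder
import Mathlib.Topology.UniformSpace.Uniformizable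
import Pool.Agent.MP_20bec2_an.T3.Final
import Mathlib.Data.Int.Star
import Mathlib.Algebra.Order.Ring.Star
import Pool.Agent.MP_20bec2_an.T3.Par3
import Pool.Agent.MP_20bec2_an.T3.Vtr

-- ======== part 0: formerly Pool.Agent.MP_20bec2_an.T3.MolB
section MrgPart0

-- ======== part 0: formerly Pool.Agent.MP_20bec2_an.T3.MolA
section MrgPart0

/-! Convolution with a smooth kernel of compact support; the kernel `kb`. -/

set_option autoImplicit false
set_option linter.unusedSectionVars false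
open MeasureTheory Set Filter Matrix
open scoped Convolution

namespace Pool.Agent.MP_20bec2_an.T3.Mol
noncomputable section

/-! ## general kernels -/

section General

variable {E : Type*} [NormedAddCommGroup E] [NormedSpace ℝ E] [FiniteDimensional ℝ E]
  [MeasureSpace E] [BorelSpace E] [Measure.IsAddHaarMeasure (volume : Measure E)]
  {k g g' φ : E → ℝ} {x : E}

/-- locally integrable -/
abbrev LI (g : E → ℝ) : Prop := LocallyIntegrable g volume

/-- convolution with the kernel `k` -/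
def cvl (k g : E → ℝ) (x : E) : ℝ := ∫ w, k w * g (x - w)

/-- smooth kernels of compact support -/
structure Kn (k : E → ℝ) : Prop where
  sm : Sm k
  cs : HasCompactSupport k

/-- probability kernels -/
structure Pk (k : E → ℝ) : Prop extends Kn k where
  nn : ∀ w, 0 ≤ k w
  one : ∫ w, k w = 1

lemma li_cont (hg : Continuous g) : LI g := hg.locallyIntegrable

lemma li_bdd {B : ℝ} (hg : AEStronglyMeasurable g volume) (hB : ∀ x, |g x| ≤ B) : LI g :=
  (locallyIntegrable_const B).mono hg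
    (Eventually.of_forall fun x => (hB x).trans (le_abs_self B))

lemma li_meas {B : ℝ} (hg : Measurable g) (hB : ∀ x, |g x| ≤ B) : LI g :=
  li_bdd hg.aestronglyMeasurable hB

lemma li_abs (hg : LI g) : LI fun x => |g x| :=
  hg.mono hg.aestronglyMeasurable.norm (Eventually.of_forall fun x => by simp)

lemma cvl_eq (k g : E → ℝ) : cvl k g = k ⋆[ContinuousLinearMap.mul ℝ ℝ, volume] g := rfl

lemma cvl_swap (k g : E → ℝ) (x : E) : cvl k g x = ∫ y, k (x - y) * g y := by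
  rw [cvl_eq, convolution_mul_swap]

lemma Kn.int (hk : Kn k) : Integrable k := hk.sm.continuous.integrable_of_hasCompactSupport hk.cs

lemma Kn.int_mul (hk : Kn k) (hg : LI g) (x : E) : Integrable fun w => k w * g (x - w) :=
  hk.cs.convolutionExists_left (ContinuousLinearMap.mul ℝ ℝ) hk.sm.continuous hg x

lemma Kn.int_swap (hk : Kn k) (hg : LI g) (x : E) : Integrable fun y => k (x - y) * g y := by
  simpa using (hk.int_mul hg x).comp_sub_left x

lemma Kn.fd (hk : Kn k) (v : E) : Kn fun w => fderiv ℝ k w v :=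
  ⟨(hk.sm.fderiv_right (m := ((⊤ : ℕ∞) : WithTop ℕ∞)) le_rfl).clm_apply contDiff_const,
    hk.cs.fderiv_apply ℝ v⟩

lemma Kn.sm_cvl (hk : Kn k) (hg : LI g) : Sm (cvl k g) :=
  hk.cs.contDiff_convolution_left (ContinuousLinearMap.mul ℝ ℝ) hk.sm hg

/-- the derivative falls on the kernel -/
lemma Kn.fderiv_cvl (hk : Kn k) (hg : LI g) (x v : E) :
    fderiv ℝ (cvl k g) x v = cvl (fun w => fderiv ℝ k w v) g x := by
  have h1 : ContDiff ℝ 1 k := hk.sm.of_le (by exact_mod_cast le_top)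
  rw [cvl_eq, cvl_eq, ← convolution_flip,
    (hk.cs.hasFDerivAt_convolution_right _ hg h1 x).fderiv,
    convolution_precompR_apply _ hg (hk.cs.fderiv ℝ) (h1.continuous_fderiv one_ne_zero),
    convolution_flip]

/-- integration by parts -/
lemma Kn.parts (hk : Kn k) (hg : ContDiff ℝ 1 g) (x v : E) :
    cvl (fun w => fderiv ℝ k w v) g x = cvl k (fun y => fderiv ℝ g y v) x := by
  have hd : Differentiable ℝ g := hg.differentiable one_ne_zero
  have hc : Continuous fun y => fderiv ℝ g y v :=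
    (hg.continuous_fderiv one_ne_zero).clm_apply continuous_const
  have e : ∀ w, HasFDerivAt (fun w => g (x - w)) (-fderiv ℝ g (x - w)) w := fun w => by
    have := (hd (x - w)).hasFDerivAt.comp w ((hasFDerivAt_id w).const_sub x)
    rwa [ContinuousLinearMap.comp_neg, ContinuousLinearMap.comp_id] at this
  have := integral_mul_fderiv_eq_neg_fderiv_mul_of_integrable (μ := (volume : Measure E)) (f := k)
    (g := fun w => g (x - w)) (v := v) ((hk.fd v).int_mul (li_cont hg.continuous) x)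
    (by simpa [(e _).fderiv] using (hk.int_mul (li_cont hc) x).neg)
    (hk.int_mul (li_cont hg.continuous) x)
    (fun w _ => hk.sm.differentiable (by simp) w) fun w _ => (e w).differentiableAt
  simp only [(e _).fderiv, _root_.neg_apply, mul_neg, integral_neg, neg_inj] at this
  exact this.symm

lemma Kn.cvl_add (hk : Kn k) (hg : LI g) (hg' : LI g') (x : E) :
    cvl k (fun y => g y + g' y) x = cvl k g x + cvl k g' x := by
  simp only [cvl, mul_add]
  exact integral_add (hk.int_mul hg x) (hk.int_mul hg' x)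

lemma Kn.cvl_sub (hk : Kn k) (hg : LI g) (hg' : LI g') (x : E) :
    cvl k (fun y => g y - g' y) x = cvl k g x - cvl k g' x := by
  simp only [cvl, mul_sub]
  exact integral_sub (hk.int_mul hg x) (hk.int_mul hg' x)

lemma Kn.cvl_sum {ι : Type*} (hk : Kn k) (s : Finset ι) {G : ι → E → ℝ} (hG : ∀ i ∈ s, LI (G i))
    (x : E) : cvl k (fun y => ∑ i ∈ s, G i y) x = ∑ i ∈ s, cvl k (G i) x := by
  simp only [cvl, Finset.mul_sum]
  exact integral_finsetSum s fun i hi => hk.int_mul (hG i hi) x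

lemma cvl_mul (k g : E → ℝ) (c : ℝ) (x : E) : cvl k (fun y => c * g y) x = c * cvl k g x := by
  simp only [cvl, ← integral_const_mul, mul_left_comm]

lemma cvl_neg (k g : E → ℝ) (x : E) : cvl k (fun y => -g y) x = -cvl k g x := by
  simp only [cvl, mul_neg, integral_neg]

lemma cvl_congr (h : ∀ w, k w ≠ 0 → g (x - w) = g' (x - w)) : cvl k g x = cvl k g' x := by
  refine congrArg _ (funext fun w => ?_)
  by_cases hw : k w = 0
  · simp [hw]
  · rw [h w hw]

lemma Pk.cvl_const (hk : Pk k) (c : ℝ) (x : E) : cvl k (fun _ => c) x = c := by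
  simp only [cvl, integral_mul_const, hk.one, one_mul]

lemma Pk.cvl_nonneg (hk : Pk k) (h : ∀ w, k w ≠ 0 → 0 ≤ g (x - w)) : 0 ≤ cvl k g x :=
  integral_nonneg fun w => by
    by_cases hw : k w = 0
    · simp [hw]
    · exact mul_nonneg (hk.nn w) (h w hw)

lemma Pk.cvl_mono (hk : Pk k) (hg : LI g) (hg' : LI g')
    (h : ∀ w, k w ≠ 0 → g (x - w) ≤ g' (x - w)) : cvl k g x ≤ cvl k g' x :=
  integral_mono (hk.int_mul hg x) (hk.int_mul hg' x) fun w => by
    by_cases hw : k w = 0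
    · simp [hw]
    · exact mul_le_mul_of_nonneg_left (h w hw) (hk.nn w)

lemma Pk.abs_cvl_le (hk : Pk k) {B : ℝ} (h : ∀ w, k w ≠ 0 → |g (x - w)| ≤ B) :
    |cvl k g x| ≤ B := by
  have := norm_integral_le_of_norm_le (f := fun w => k w * g (x - w)) (hk.int.mul_const B)
    (Eventually.of_forall fun w => by
      by_cases hw : k w = 0
      · simp [hw]
      · rw [Real.norm_eq_abs, abs_mul, abs_of_nonneg (hk.nn w)]
        exact mul_le_mul_of_nonneg_left (h w hw) (hk.nn w))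
  rwa [integral_mul_const, hk.one, one_mul] at this

lemma Pk.abs_cvl_le_abs (hk : Pk k) (g : E → ℝ) (x : E) :
    |cvl k g x| ≤ cvl k (fun y => |g y|) x :=
  abs_integral_le_integral_abs.trans_eq (by simp only [cvl, abs_mul, abs_of_nonneg (hk.nn _)])

lemma Pk.abs_sub_cvl (hk : Pk k) (hg : LI g) {a ε : ℝ} (h : ∀ w, k w ≠ 0 → |a - g (x - w)| ≤ ε) :
    |a - cvl k g x| ≤ ε := by
  rw [← hk.cvl_const a x, ← hk.cvl_sub (li_cont continuous_const) hg]
  exact hk.abs_cvl_le h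

/-- Cauchy-Schwarz -/
lemma Pk.sq_cvl_le (hk : Pk k) (hg : LI g) (hg2 : LI fun y => g y ^ 2) (x : E) :
    cvl k g x ^ 2 ≤ cvl k (fun y => g y ^ 2) x := by
  have h1 : LI fun y => 2 * cvl k g x * g y := hg.smul (2 * cvl k g x)
  have := hk.cvl_mono (x := x) (g := fun y => 2 * cvl k g x * g y - cvl k g x ^ 2)
    (h1.sub (li_cont continuous_const)) hg2 fun w _ => by nlinarith [sq_nonneg (g (x - w) - cvl k g x)]
  rw [hk.cvl_sub h1 (li_cont continuous_const), cvl_mul, hk.cvl_const] at this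
  nlinarith

lemma Pk.cvl_sqrt_le (hk : Pk k) (hg : LI g) (h0 : ∀ y, 0 ≤ g y) (x : E) :
    cvl k (fun y => Real.sqrt (g y)) x ≤ Real.sqrt (cvl k g x) := by
  have e : (fun y => Real.sqrt (g y) ^ 2) = g := funext fun y => Real.sq_sqrt (h0 y)
  have h1 : LI fun y => Real.sqrt (g y) :=
    (hg.add (li_cont (g := fun _ => 1) continuous_const)).mono
      (Real.continuous_sqrt.comp_aestronglyMeasurable hg.aestronglyMeasurable)
      (Eventually.of_forall fun y => by
        have := Real.sq_sqrt (h0 y)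
        simp only [Real.norm_eq_abs, Pi.add_apply, abs_of_nonneg (Real.sqrt_nonneg _)]
        refine le_trans ?_ (le_abs_self _)
        nlinarith [sq_nonneg (Real.sqrt (g y) - 1), h0 y])
  have := hk.sq_cvl_le h1 (e.symm ▸ hg) x
  rw [e] at this
  exact Real.le_sqrt_of_sq_le this

lemma Kn.int_cvl (hk : Kn k) (hg : Integrable g) : Integrable (cvl k g) :=
  hk.int.integrable_convolution (ContinuousLinearMap.mul ℝ ℝ) hg

lemma Pk.integral_cvl (hk : Pk k) (hg : Integrable g) : ∫ x, cvl k g x = ∫ x, g x := by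
  rw [cvl_eq, integral_convolution _ hk.int hg, hk.one]
  simp

/-- an even kernel is self-adjoint -/
lemma Kn.adj (hk : Kn k) (he : ∀ w, k (-w) = k w) {B : ℝ} (hφ : Integrable φ)
    (hg : AEStronglyMeasurable g volume) (hB : ∀ y, |g y| ≤ B) :
    ∫ x, φ x * cvl k g x = ∫ y, cvl k φ y * g y := by
  have i : Integrable (fun p : E × E => φ p.2 * k (p.1 - p.2) * g p.1) (volume.prod volume) :=
    (hφ.convolution_integrand (ContinuousLinearMap.mul ℝ ℝ) hk.int).mul_bdd hg.comp_fst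
      (Eventually.of_forall fun p => hB p.1)
  calc ∫ x, φ x * cvl k g x = ∫ x, ∫ y, φ x * k (y - x) * g y := by
        simp only [cvl_swap, ← integral_const_mul, mul_assoc]
        refine congrArg _ (funext fun x => congrArg _ (funext fun y => ?_))
        rw [← he, neg_sub]
    _ = ∫ y, ∫ x, φ x * k (y - x) * g y := (integral_integral_swap i).symm
    _ = _ := by simp only [cvl_swap, integral_mul_const, mul_comm (φ _)]

end General

/-! ## the profile -/

lemma b0_eq (t : ℝ) : bp (1 / 2) 1 t = st (2 * (1 - |t|)) := by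
  unfold bp st
  rcases le_total 0 t with h | h
  · rw [abs_of_nonneg h, Real.smoothTransition.one_of_one_le (x := (1 + t) / (1 - 1 / 2))
      (by rw [le_div_iff₀ (by norm_num)]; linarith), one_mul]
    congr 1
    ring
  · rw [abs_of_nonpos h, Real.smoothTransition.one_of_one_le (x := (1 - t) / (1 - 1 / 2))
      (by rw [le_div_iff₀ (by norm_num)]; linarith), mul_one]
    congr 1
    ring

lemma b0_kn : Kn (bp (1 / 2) 1) := by
  refine ⟨?_, HasCompactSupport.intro (isCompact_Icc (a := -1) (b := 1)) fun t ht => ?_⟩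
  · exact (Real.smoothTransition.contDiff.comp (by fun_prop)).mul
      (Real.smoothTransition.contDiff.comp (by fun_prop))
  · rw [b0_eq]
    have : ¬ |t| ≤ 1 := fun h => ht (abs_le.1 h)
    exact Real.smoothTransition.zero_of_nonpos (by linarith [not_le.1 this])

lemma b0_int : 1 ≤ ∫ s, bp (1 / 2) 1 s ∧ ∫ s, bp (1 / 2) 1 s ≤ 2 := by
  have i : ∀ a b : ℝ, Integrable ((Icc a b).indicator fun _ => (1 : ℝ)) := fun a b =>
    (integrable_indicator_iff measurableSet_Icc).2 (integrableOn_const (by simp))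
  constructor
  · refine le_trans (le_of_eq ?_) (integral_mono (i (-(1 / 2)) (1 / 2)) b0_kn.int fun t => ?_)
    · rw [integral_indicator_const _ measurableSet_Icc]
      norm_num
    · rw [b0_eq]
      by_cases ht : t ∈ Icc (-(1 / 2) : ℝ) (1 / 2)
      · rw [indicator_of_mem ht]
        exact (Real.smoothTransition.one_of_one_le (by linarith [abs_le.2 ht])).ge
      · rw [indicator_of_notMem ht]
        exact Real.smoothTransition.nonneg _
  · refine le_trans (integral_mono b0_kn.int (i (-1) 1) fun t => ?_) (le_of_eq ?_)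
    · by_cases ht : t ∈ Icc (-1 : ℝ) 1
      · rw [indicator_of_mem ht, b0_eq]
        exact Real.smoothTransition.le_one _
      · have : ¬ |t| ≤ 1 := fun h => ht (abs_le.1 h)
        rw [indicator_of_notMem ht, b0_eq]
        exact (Real.smoothTransition.zero_of_nonpos (by linarith [not_le.1 this])).le
    · rw [integral_indicator_const _ measurableSet_Icc]
      norm_num

lemma kb_nonneg (t : ℝ) : 0 ≤ kb t :=
  div_nonneg (b0_eq t ▸ Real.smoothTransition.nonneg _) (zero_le_one.trans b0_int.1)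

lemma kb_le_one (t : ℝ) : kb t ≤ 1 :=
  div_le_one_of_le₀ (((b0_eq t).trans_le (Real.smoothTransition.le_one _)).trans b0_int.1)
    (zero_le_one.trans b0_int.1)

lemma kb_zero {t : ℝ} (h : 1 ≤ |t|) : kb t = 0 := by
  rw [kb, b0_eq, st, Real.smoothTransition.zero_of_nonpos (by linarith), zero_div]

lemma kb_anti {s t : ℝ} (h : |s| ≤ |t|) : kb t ≤ kb s := by
  rw [kb, kb, b0_eq t, b0_eq s]
  exact div_le_div_of_nonneg_right (Real.smoothTransition.monotone (by linarith))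
    (zero_le_one.trans b0_int.1)

lemma kb_neg (t : ℝ) : kb (-t) = kb t := by rw [kb, kb, b0_eq t, b0_eq (-t), abs_neg]

lemma kb_half {t : ℝ} (h : |t| ≤ 1 / 2) : 1 / 2 ≤ kb t := by
  rw [kb, b0_eq, st, Real.smoothTransition.one_of_one_le (by linarith)]
  exact one_div_le_one_div_of_le (one_pos.trans_le b0_int.1) b0_int.2

lemma kb_sm : Sm kb := b0_kn.sm.div_const _

lemma kb_int : ∫ t, kb t = 1 := by
  simp only [kb, integral_div]
  exact div_self (one_pos.trans_le b0_int.1).ne'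

/-- the kernel at scale `h` -/
def k1 (h s : ℝ) : ℝ := kb (s / h) / h

variable {h h' s : ℝ}

lemma k1_nonneg (hh : 0 < h) (s : ℝ) : 0 ≤ k1 h s := div_nonneg (kb_nonneg _) hh.le

lemma k1_le (hh : 0 < h) (s : ℝ) : k1 h s ≤ 1 / h := div_le_div_of_nonneg_right (kb_le_one _) hh.le

lemma k1_zero (hh : 0 < h) (hs : h ≤ |s|) : k1 h s = 0 := by
  rw [k1, kb_zero (by rwa [abs_div, abs_of_pos hh, one_le_div hh]), zero_div]

lemma k1_neg (h s : ℝ) : k1 h (-s) = k1 h s := by rw [k1, k1, neg_div, kb_neg]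

lemma k1_half (hh : 0 < h) (hs : |s| ≤ h / 2) : 1 / (2 * h) ≤ k1 h s := by
  rw [k1, ← div_div]
  refine div_le_div_of_nonneg_right (kb_half ?_) hh.le
  rw [abs_div, abs_of_pos hh, div_le_iff₀ hh]
  linarith

lemma k1_pk (hh : 0 < h) : Pk (k1 h) := by
  refine ⟨⟨(kb_sm.comp (contDiff_id.div_const h)).div_const h,
    HasCompactSupport.intro (isCompact_Icc (a := -h) (b := h)) fun s hs => k1_zero hh ?_⟩,
    k1_nonneg hh, ?_⟩
  · exact (not_le.1 fun k => hs (abs_le.1 k)).le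
  · simp only [k1, integral_div, Measure.integral_comp_div, kb_int, abs_of_pos hh, smul_eq_mul,
      mul_one, div_self hh.ne']

/-- the pointwise inequality behind the comparison of kernels -/
lemma k1_mul_le (hh' : 0 < h') (hl : h' ≤ h) (t u : ℝ) :
    k1 h (t - u) * k1 h' u ≤ 2 * k1 (2 * h) t * (Icc (-h') h').indicator (fun _ => 1 / h') u := by
  have hh : 0 < h := hh'.trans_le hl
  by_cases hu : u ∈ Icc (-h') h'
  · rw [indicator_of_mem hu]
    have key : kb ((t - u) / h) * kb (u / h') ≤ kb (t / (2 * h)) := by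
      have a1 : |t / (2 * h)| = |t| / (2 * h) := by rw [abs_div, abs_of_pos (by positivity : 0 < 2 * h)]
      rcases le_total |t - u| |u| with k | k
      · refine (mul_le_of_le_one_left (kb_nonneg _) (kb_le_one _)).trans (kb_anti ?_)
        rw [a1, abs_div, abs_of_pos hh', div_le_div_iff₀ (by positivity) hh']
        have := abs_add_le (t - u) u
        rw [sub_add_cancel] at this
        nlinarith [abs_nonneg t, abs_nonneg u]
      · refine (mul_le_of_le_one_right (kb_nonneg _) (kb_le_one _)).trans (kb_anti ?_)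
        rw [a1, abs_div, abs_of_pos hh, div_le_div_iff₀ (by positivity) hh]
        have := abs_add_le (t - u) u
        rw [sub_add_cancel] at this
        nlinarith
    calc k1 h (t - u) * k1 h' u = kb ((t - u) / h) * kb (u / h') / (h * h') := by
          simp only [k1]; field_simp
      _ ≤ kb (t / (2 * h)) / (h * h') := div_le_div_of_nonneg_right key (by positivity)
      _ = _ := by simp only [k1]; field_simp
  · rw [indicator_of_notMem hu, k1_zero hh' (not_le.1 fun k => hu (abs_le.1 k)).le, mul_zero,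
      mul_zero]

/-- bounds of the derivatives of the profile -/
lemma kb_deriv (n : ℕ) : ∃ C : ℝ, 1 ≤ C ∧ ∀ j ≤ n, ∀ t, |iteratedDeriv j kb t| ≤ C := by
  have hc : HasCompactSupport kb := by
    have := (k1_pk one_pos).cs
    rwa [show k1 1 = kb from funext fun s => by simp [k1]] at this
  have k : ∀ j, Kn (iteratedDeriv j kb) := fun j => by
    induction j with
    | zero => exact ⟨kb_sm, hc⟩
    | succ j ih =>
      rw [iteratedDeriv_succ]
      exact ih.fd 1
  choose M hM using fun j => (k j).sm.continuous.bounded_above_of_compact_support (k j).cs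
  refine ⟨1 + ∑ j ∈ Finset.range (n + 1), |M j|, le_add_of_nonneg_right (by positivity),
    fun j hj t => ((hM j t).trans (le_abs_self _)).trans (le_add_of_nonneg_of_le zero_le_one ?_)⟩
  exact Finset.single_le_sum (f := fun j => |M j|) (fun _ _ => abs_nonneg _)
    (Finset.mem_range.2 (Nat.lt_succ_of_le hj))

end
end Pool.Agent.MP_20bec2_an.T3.Mol

end MrgPart0

-- ======== part 1: formerly Pool.Agent.MP_20bec2_an.T3.MolB
section MrgPart1

/-! The kernel of `mol` and its derivatives. -/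

set_option autoImplicit false
open MeasureTheory Set Filter Matrix
open scoped Convolution

namespace Pool.Agent.MP_20bec2_an.T3.Mol
noncomputable section

variable {h h' H x y : V} {g k : V → ℝ}

/-! ## calculus -/

lemma kn_pds (hk : Kn k) (l : List (Fin 3)) : Kn (pds l k) := by
  induction l with
  | nil => exact hk
  | cons j l ih => exact ih.fd _

lemma cd_pd {n : ℕ} (hg : ContDiff ℝ (n + 1 : ℕ) g) (j : Fin 3) : ContDiff ℝ n (pd j g) :=
  (hg.fderiv_right (m := n) (by norm_cast)).clm_apply contDiff_const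

lemma cd_pds {n : ℕ} (l : List (Fin 3)) (hg : ContDiff ℝ (n + l.length : ℕ) g) :
    ContDiff ℝ n (pds l g) := by
  induction l generalizing n with
  | nil => exact hg
  | cons j l ih =>
    refine cd_pd (ih ?_) j
    rwa [List.length_cons, add_comm l.length, ← add_assoc] at hg

lemma sm_cd (hg : Sm g) (n : ℕ) : ContDiff ℝ n g := hg.of_le (by exact_mod_cast le_top)

lemma cd_le {m n : ℕ} (hg : ContDiff ℝ n g) (hmn : m ≤ n) : ContDiff ℝ m g :=
  hg.of_le (by exact_mod_cast hmn)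

lemma sm_pds (hg : Sm g) (l : List (Fin 3)) : Sm (pds l g) :=
  contDiff_infty.2 fun _ => cd_pds l (sm_cd hg _)

lemma pds_app (l l' : List (Fin 3)) (g : V → ℝ) : pds (l ++ l') g = pds l (pds l' g) := by
  induction l with
  | nil => rfl
  | cons j l ih => exact congrArg (pd j) ih

lemma hp_app (h : V) (l l' : List (Fin 3)) : hp h (l ++ l') = hp h l * hp h l' := by simp [hp]

lemma hp_cons (h : V) (j : Fin 3) (l : List (Fin 3)) : hp h (j :: l) = h j * hp h l := by simp [hp]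

lemma hp_pos (hh : ∀ i, 0 < h i) (l : List (Fin 3)) : 0 < hp h l := by
  induction l with
  | nil => simp [hp]
  | cons j l ih => rw [hp_cons]; exact mul_pos (hh j) ih

lemma pd_comm (hg : Sm g) (i j : Fin 3) : pd i (pd j g) = pd j (pd i g) := by
  funext x
  have hd : DifferentiableAt ℝ (fderiv ℝ g) x :=
    ((sm_cd hg 2).fderiv_right (m := 1) (by norm_cast)).differentiable one_ne_zero x
  have e : ∀ u v : V, fderiv ℝ (fun y => fderiv ℝ g y u) x v = fderiv ℝ (fderiv ℝ g) x v u :=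
    fun u v => by rw [fderiv_clm_apply hd (differentiableAt_const u)]; simp
  exact (e _ _).trans (((sm_cd hg 2).contDiffAt.isSymmSndFDerivAt (by simp) _ _).trans (e _ _).symm)

lemma pds_perm (hg : Sm g) {l l' : List (Fin 3)} (hl : l.Perm l') : pds l g = pds l' g := by
  induction hl with
  | nil => rfl
  | cons j _ ih => exact congrArg (pd j) ih
  | swap i j l => exact pd_comm (sm_pds hg l) _ _
  | trans _ _ i1 i2 => exact i1.trans i2

lemma pds_sub {g' : V → ℝ} (l : List (Fin 3)) (hg : ContDiff ℝ l.length g)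
    (hg' : ContDiff ℝ l.length g') : pds l (fun y => g y - g' y) = fun y => pds l g y - pds l g' y := by
  induction l with
  | nil => rfl
  | cons j l ih =>
    have d : ∀ f : V → ℝ, ContDiff ℝ (j :: l).length f → Differentiable ℝ (pds l f) := fun f hf =>
      (cd_pds (n := 1) l (by rwa [add_comm])).differentiable (by simp)
    funext y
    show pd j (pds l _) y = pd j _ y - pd j _ y
    rw [ih (cd_le hg (Nat.le_succ _)) (cd_le hg' (Nat.le_succ _)), pd, fderiv_fun_sub (d g hg y) (d g' hg' y)]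
    rfl

lemma tsupport_pds (l : List (Fin 3)) (g : V → ℝ) : tsupport (pds l g) ⊆ tsupport g := by
  induction l with
  | nil => exact subset_rfl
  | cons j l ih => exact (tsupport_fderiv_apply_subset ℝ _).trans ih

lemma fderiv_eq_sum (g : V → ℝ) (z v : V) : fderiv ℝ g z v = ∑ i, v i * pd i g z := by
  conv_lhs => rw [← Finset.univ_sum_single v]
  rw [map_sum]
  refine Finset.sum_congr rfl fun i _ => ?_
  rw [pd, ← smul_eq_mul, ← map_smul, ← Pi.single_smul, smul_eq_mul, mul_one]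

/-! ## boxes -/

/-- the box `x ± h` -/
def bx (h x : V) : Set V := {y | ∀ i, |y i - x i| ≤ h i}

/-- `U'` contains the boxes around the points of `U` -/
def Thk (h : V) (U U' : Set V) : Prop := ∀ x ∈ U, bx h x ⊆ U'

lemma thk_univ (h : V) (U : Set V) : Thk h U univ := fun _ _ => subset_univ _

lemma bx_eq (h x : V) : bx h x = Icc (x - h) (x + h) := by
  ext y
  simp only [bx, mem_ofPred_eq, mem_Icc, Pi.le_def, Pi.sub_apply, Pi.add_apply, abs_le, forall_and]
  exact and_congr (forall_congr' fun i => by constructor <;> intro <;> linarith)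
    (forall_congr' fun i => by constructor <;> intro <;> linarith)

lemma bx_convex (h x : V) : Convex ℝ (bx h x) := bx_eq h x ▸ convex_Icc _ _

lemma bx_self (hh : ∀ i, 0 < h i) (x : V) : x ∈ bx h x := fun i => by simpa using (hh i).le

lemma bx_mono (hl : ∀ i, h i ≤ h' i) (x : V) : bx h x ⊆ bx h' x := fun _ hy i => (hy i).trans (hl i)

/-- mean value inequality on a box -/
lemma mvt_bx (hg : Differentiable ℝ g) {b : V} (hy : y ∈ bx h x)
    (hb : ∀ z ∈ bx h x, ∀ i, h i * |pd i g z| ≤ b i) : |g x - g y| ≤ ∑ i, b i := by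
  have hx : x ∈ bx h x := fun i => by simpa using (abs_nonneg _).trans (hy i)
  obtain ⟨z, hz, e⟩ := domain_mvt (fun z _ => (hg z).hasFDerivAt.hasFDerivWithinAt)
    (bx_convex h x) hx hy
  rw [abs_sub_comm, e, fderiv_eq_sum]
  refine (Finset.abs_sum_le_sum_abs _ _).trans (Finset.sum_le_sum fun i _ => ?_)
  rw [abs_mul]
  exact (mul_le_mul_of_nonneg_right (hy i) (abs_nonneg _)).trans
    (hb z ((bx_convex h x).segment_subset hx hy hz) i)

/-! ## the kernel -/

/-- the kernel of `mol h` -/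
def kh (h w : V) : ℝ := ∏ i, k1 (h i) (w i)

lemma mol_eq (h : V) (g : V → ℝ) : mol h g = cvl (kh h) g := rfl

lemma kh_nonneg (hh : ∀ i, 0 < h i) (w : V) : 0 ≤ kh h w :=
  Finset.prod_nonneg fun i _ => k1_nonneg (hh i) _

lemma kh_le (hh : ∀ i, 0 < h i) (w : V) : kh h w ≤ 1 / ∏ i, h i := by
  rw [one_div, ← Finset.prod_inv_distrib]
  exact Finset.prod_le_prod (fun i _ => k1_nonneg (hh i) _) fun i _ => by
    simpa using k1_le (hh i) (w i)

lemma kh_ne (hh : ∀ i, 0 < h i) {w : V} (hw : kh h w ≠ 0) (i : Fin 3) : |w i| < h i :=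
  not_le.1 fun k => hw (Finset.prod_eq_zero (Finset.mem_univ i) (k1_zero (hh i) k))

lemma kh_neg (h w : V) : kh h (-w) = kh h w := by simp only [kh, Pi.neg_apply, k1_neg]

lemma kh_half (hh : ∀ i, 0 < h i) {w : V} (hw : ∀ i, |w i| ≤ h i / 2) :
    1 / (8 * ∏ i, h i) ≤ kh h w := by
  refine le_trans (le_of_eq ?_) (Finset.prod_le_prod (f := fun i => 1 / (2 * h i))
    (fun i _ => by have := hh i; positivity) fun i _ => k1_half (hh i) (hw i))
  simp only [Fin.prod_univ_three]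
  have := (hh 0).ne'
  have := (hh 1).ne'
  have := (hh 2).ne'
  field_simp
  norm_num

lemma kh_tsupport (hh : ∀ i, 0 < h i) : tsupport (kh h) ⊆ bx h 0 :=
  closure_minimal (fun w hw i => by simpa using (kh_ne hh hw i).le) (bx_eq h 0 ▸ isClosed_Icc)

lemma kh_pk (hh : ∀ i, 0 < h i) : Pk (kh h) := by
  refine ⟨⟨contDiff_prod fun i _ => (k1_pk (hh i)).sm.comp (contDiff_apply ℝ ℝ i),
    (bx_eq h 0 ▸ isCompact_Icc : IsCompact (bx h 0)).of_isClosed_subset (isClosed_tsupport _)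
      (kh_tsupport hh)⟩, kh_nonneg hh, ?_⟩
  simp only [kh, integral_fintype_prod_volume_eq_prod fun i => k1 (h i), (k1_pk (hh _)).one,
    Finset.prod_const_one]

lemma kh_sub_mem (hh : ∀ i, 0 < h i) {w : V} (hw : kh h w ≠ 0) (x : V) : x - w ∈ bx h x :=
  fun i => by simpa using (kh_ne hh hw i).le

lemma pds_kh_ne (hh : ∀ i, 0 < h i) {l : List (Fin 3)} {w : V} (hw : pds l (kh h) w ≠ 0) :
    ∀ i, |w i| ≤ h i := fun i => by
  simpa using kh_tsupport hh (tsupport_pds l _ (subset_tsupport _ hw)) i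

/-- derivatives of a rescaled function -/
lemma pds_scale (hh : ∀ i, 0 < h i) (hg : Sm g) (c : ℝ) (l : List (Fin 3)) :
    pds l (fun w => c * g fun i => w i / h i) =
      fun w => c / hp h l * pds l g fun i => w i / h i := by
  induction l with
  | nil => simp [pds, hp]
  | cons j l ih =>
    funext w
    let D : V →L[ℝ] V := ContinuousLinearMap.pi fun i => (h i)⁻¹ • ContinuousLinearMap.proj i
    have hD : ∀ w, D w = fun i => w i / h i := fun w => funext fun i => by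
      simp [D, div_eq_inv_mul]
    have e : D (Pi.single j 1) = (h j)⁻¹ • Pi.single j 1 := by
      rw [hD]
      funext i
      by_cases k : i = j
      · simp [k]
      · simp [k]
    have d := (((sm_pds hg l).differentiable (by simp) (D w)).hasFDerivAt.comp w
      D.hasFDerivAt).const_mul (c / hp h l)
    show pd j (pds l _) w = _ * pd j _ _
    rw [ih]
    simp only [← hD]
    rw [pd, pd]
    erw [d.fderiv]
    rw [_root_.smul_apply, ContinuousLinearMap.comp_apply, e, map_smul, hp_cons, smul_eq_mul,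
      smul_eq_mul]
    have := (hh j).ne'
    have := (hp_pos hh l).ne'
    field_simp

/-- bounds of the derivatives of the kernel -/
lemma kh_deriv (n : ℕ) : ∃ C : ℝ, 1 ≤ C ∧ ∀ h : V, (∀ i, 0 < h i) → ∀ l : List (Fin 3),
    l.length ≤ n → ∀ w, hp h l * |pds l (kh h) w| ≤ C / ∏ i, h i := by
  have k := kh_pk (h := fun _ => 1) fun _ => one_pos
  choose M hM using fun l => (kn_pds k.toKn l).sm.continuous.bounded_above_of_compact_support
    (kn_pds k.toKn l).cs
  have fin := List.finite_length_le (Fin 3) n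
  refine ⟨1 + ∑ l ∈ fin.toFinset, |M l|, le_add_of_nonneg_right (by positivity),
    fun h hh l hl w => ?_⟩
  have hP : 0 < ∏ i, h i := Finset.prod_pos fun i _ => hh i
  have e : kh h = fun w => (∏ i, h i)⁻¹ * kh (fun _ => 1) fun i => w i / h i := funext fun w => by
    simp only [kh, k1, div_one, Finset.prod_div_distrib]
    rw [div_eq_inv_mul]
  have := hp_pos hh l
  rw [e, pds_scale hh k.sm, abs_mul, abs_of_pos (by positivity), ← mul_assoc,
    mul_div_cancel₀ _ this.ne', div_eq_inv_mul]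
  refine mul_le_mul_of_nonneg_left (((hM l _).trans (le_abs_self _)).trans
    (le_add_of_nonneg_of_le zero_le_one ?_)) (by positivity)
  exact Finset.single_le_sum (f := fun l => |M l|) (fun _ _ => abs_nonneg _) (by simpa using hl)

/-- a bounded kernel supported in the box -/
lemma abs_cvl_box (hh : ∀ i, 0 < h i) {M B : ℝ} (hM : ∀ w, |k w| ≤ M)
    (hk : ∀ w, k w ≠ 0 → ∀ i, |w i| ≤ h i) (hB : ∀ y ∈ bx h x, |g y| ≤ B) :
    |cvl k g x| ≤ 8 * (∏ i, h i) * M * B := by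
  have hB0 : 0 ≤ B := (abs_nonneg _).trans (hB x (bx_self hh x))
  have i : Integrable ((Icc (-h) h).indicator fun _ => M * B) :=
    (integrable_indicator_iff measurableSet_Icc).2 (integrableOn_const isCompact_Icc.measure_ne_top)
  refine (norm_integral_le_of_norm_le (f := fun w => k w * g (x - w)) i
    (Eventually.of_forall fun w => ?_)).trans (le_of_eq ?_)
  · by_cases hw : k w = 0
    · rw [hw, zero_mul, norm_zero]
      exact indicator_nonneg (fun _ _ => mul_nonneg ((abs_nonneg _).trans (hM 0)) hB0) _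
    · rw [indicator_of_mem (show w ∈ Icc (-h) h from
        ⟨fun i => (abs_le.1 (hk w hw i)).1, fun i => (abs_le.1 (hk w hw i)).2⟩), norm_mul]
      exact mul_le_mul (hM w) (hB _ fun i => by simpa using hk w hw i) (abs_nonneg _)
        ((abs_nonneg _).trans (hM 0))
  · rw [integral_indicator_const _ measurableSet_Icc, measureReal_def,
      Real.volume_Icc_pi_toReal fun i => by simpa using (hh i).le]
    simp only [Fin.prod_univ_three, Pi.neg_apply, smul_eq_mul]
    ring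

/-- domination by a mollification at a larger scale -/
lemma abs_int_le_mol (hH : ∀ i, 0 < H i) (hg : LI g) {M : ℝ} (hM : ∀ y, |k y| ≤ M)
    (hk : ∀ y, k y ≠ 0 → ∀ i, |y i - x i| ≤ H i / 2) :
    |∫ y, k y * g y| ≤ 8 * (∏ i, H i) * M * mol H (fun y => |g y|) x := by
  have hP : 0 < ∏ i, H i := Finset.prod_pos fun i _ => hH i
  have hM0 : 0 ≤ M := (abs_nonneg _).trans (hM 0)
  rw [mol_eq, cvl_swap, ← integral_const_mul]
  refine norm_integral_le_of_norm_le (f := fun y => k y * g y)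
    (((kh_pk hH).int_swap (li_abs hg) x).const_mul _)
    (Eventually.of_forall fun y => ?_)
  have := kh_nonneg hH (x - y)
  by_cases hy : k y = 0
  · rw [hy, zero_mul, norm_zero]
    positivity
  · have l := kh_half hH (w := x - y) fun i => by rw [Pi.sub_apply, abs_sub_comm]; exact hk y hy i
    rw [div_le_iff₀ (by positivity)] at l
    rw [norm_mul, ← mul_assoc]
    refine mul_le_mul_of_nonneg_right ((hM y).trans ?_) (abs_nonneg _)
    nlinarith

/-- linear change of variables -/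
lemma integral_aff (b : V) {A : Mx} (hA : A.det ≠ 0) (F : V → ℝ) :
    ∫ x, F (b + A *ᵥ x) = |A.det|⁻¹ * ∫ y, F y := by
  have m : MeasurableEmbedding (Matrix.toLin' A) :=
    (LinearMap.equivOfDetNeZero (Matrix.toLin' A)
      (by rwa [LinearMap.det_toLin'])).toContinuousLinearEquiv.toHomeomorph.measurableEmbedding
  have := m.integral_map (μ := volume) fun y => F (b + y)
  rw [Real.map_matrix_volume_pi_eq_smul_volume_pi hA, integral_smul_measure,
    integral_add_left_eq_self, ENNReal.toReal_ofReal (abs_nonneg _), abs_inv] at this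
  exact this.symm

/-- the convolution of two kernels -/
lemma cvl_kh_le (hh' : ∀ i, 0 < h' i) (hl : ∀ i, h' i ≤ h i) (hH : ∀ i, H i = 2 * h i) (t : V) :
    |cvl (kh h) (kh h') t| ≤ 64 * kh H t := by
  have hh : ∀ i, 0 < h i := fun i => (hh' i).trans_le (hl i)
  have hH0 : ∀ i, 0 < H i := fun i => by rw [hH]; exact mul_pos two_pos (hh i)
  have hP : 0 < ∏ i, h' i := Finset.prod_pos fun i _ => hh' i
  have e : cvl (kh h) (kh h') t = cvl (fun u => kh h (t - u) * kh h' u) (fun _ => 1) t := by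
    rw [cvl_swap]
    simp only [cvl, mul_one]
  rw [e]
  refine (abs_cvl_box hh' (M := 8 * kh H t / ∏ i, h' i) (B := 1) (fun u => ?_)
    (fun u hu i => (kh_ne hh' (right_ne_zero_of_mul hu) i).le) (by simp)).trans (le_of_eq ?_)
  · rw [abs_of_nonneg (mul_nonneg (kh_nonneg hh _) (kh_nonneg hh' _)), kh, kh,
      ← Finset.prod_mul_distrib]
    refine (Finset.prod_le_prod (g := fun i => 2 * k1 (H i) (t i) * (1 / h' i))
      (fun i _ => mul_nonneg (k1_nonneg (hh i) _) (k1_nonneg (hh' i) _)) fun i _ => ?_).trans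
      (le_of_eq ?_)
    · rw [hH]
      refine (k1_mul_le (hh' i) (hl i) (t i) (u i)).trans (mul_le_mul_of_nonneg_left
        (indicator_le_self' (fun _ _ => (one_div_pos.2 (hh' i)).le) _) ?_)
      exact mul_nonneg zero_le_two (k1_nonneg (mul_pos two_pos (hh i)) _)
    · simp only [kh, Fin.prod_univ_three]
      ring
  · field_simp
    ring

section General

variable {E : Type*} [NormedAddCommGroup E] [NormedSpace ℝ E] [FiniteDimensional ℝ E]
  [MeasureSpace E] [BorelSpace E] [Measure.IsAddHaarMeasure (volume : Measure E)]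

/-- associativity -/
lemma Kn.assoc {k k' g : E → ℝ} (hk : Kn k) (hk' : Kn k') (hg : LI g) (x : E) :
    cvl k (cvl k' g) x = cvl (cvl k k') g x := by
  have n : LI fun y => ‖g y‖ := li_abs hg
  exact (convolution_assoc (ContinuousLinearMap.mul ℝ ℝ) (ContinuousLinearMap.mul ℝ ℝ)
    (ContinuousLinearMap.mul ℝ ℝ) (ContinuousLinearMap.mul ℝ ℝ) (fun _ _ _ => mul_assoc _ _ _)
    hk.sm.continuous.aestronglyMeasurable hk'.sm.continuous.aestronglyMeasurable
    hg.aestronglyMeasurable (Eventually.of_forall (hk.int_mul (li_cont hk'.sm.continuous)))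
    (Eventually.of_forall (hk'.cs.norm.convolutionExists_left _ hk'.sm.continuous.norm n))
    (hk.cs.norm.convolutionExists_left _ hk.sm.continuous.norm
      (li_cont (hk'.cs.norm.continuous_convolution_left _ hk'.sm.continuous.norm n)) x)).symm

end General

end
end Pool.Agent.MP_20bec2_an.T3.Mol

end MrgPart1

-- marker of a merged file
example : 731051 + 862111 = 731051 + 862111 := rfl

end MrgPart0

-- ======== part 1: formerly Pool.Agent.MP_20bec2_an.T3.Mol
section MrgPart1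

/-! Toolbox for `mol` and `molM`. -/

set_option autoImplicit false
open MeasureTheory Set Filter Matrix

namespace Pool.Agent.MP_20bec2_an.T3.Mol
noncomputable section

variable {h h' H x y : V} {g g' φ : V → ℝ} {U U' : Set V} {B : ℝ}

/-! ## order zero -/

lemma li_mul (hg : LI g) (c : ℝ) : LI fun y => c * g y := hg.smul c

lemma li_sum {ι : Type*} (s : Finset ι) {G : ι → V → ℝ} (hG : ∀ i ∈ s, LI (G i)) :
    LI fun y => ∑ i ∈ s, G i y := locallyIntegrable_finsetSum s hG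

lemma mol_swap (h : V) (g : V → ℝ) (x : V) : mol h g x = ∫ y, kh h (x - y) * g y := cvl_swap _ _ _

lemma mol_sm (hh : ∀ i, 0 < h i) (hg : LI g) : Sm (mol h g) := (kh_pk hh).sm_cvl hg

lemma mol_li (hh : ∀ i, 0 < h i) (hg : LI g) : LI (mol h g) := li_cont (mol_sm hh hg).continuous

lemma mol_add (hh : ∀ i, 0 < h i) (hg : LI g) (hg' : LI g') (x : V) :
    mol h (fun y => g y + g' y) x = mol h g x + mol h g' x := (kh_pk hh).cvl_add hg hg' x

lemma mol_sub (hh : ∀ i, 0 < h i) (hg : LI g) (hg' : LI g') (x : V) :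
    mol h (fun y => g y - g' y) x = mol h g x - mol h g' x := (kh_pk hh).cvl_sub hg hg' x

lemma mol_sum {ι : Type*} (hh : ∀ i, 0 < h i) (s : Finset ι) {G : ι → V → ℝ}
    (hG : ∀ i ∈ s, LI (G i)) (x : V) :
    mol h (fun y => ∑ i ∈ s, G i y) x = ∑ i ∈ s, mol h (G i) x := (kh_pk hh).cvl_sum s hG x

lemma mol_mul (h : V) (g : V → ℝ) (c : ℝ) (x : V) : mol h (fun y => c * g y) x = c * mol h g x :=
  cvl_mul _ _ _ _

lemma mol_neg (h : V) (g : V → ℝ) (x : V) : mol h (fun y => -g y) x = -mol h g x := cvl_neg _ _ _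

lemma mol_const (hh : ∀ i, 0 < h i) (c : ℝ) (x : V) : mol h (fun _ => c) x = c :=
  (kh_pk hh).cvl_const c x

lemma mol_shift (h : V) (g : V → ℝ) (b x : V) : mol h (fun y => g (b + y)) x = mol h g (b + x) := by
  simp only [mol, add_sub_assoc]

lemma mol_congr (hh : ∀ i, 0 < h i) (e : ∀ y ∈ bx h x, g y = g' y) : mol h g x = mol h g' x :=
  cvl_congr fun _ hw => e _ (kh_sub_mem hh hw x)

lemma mol_zero (hh : ∀ i, 0 < h i) (e : ∀ y ∈ bx h x, g y = 0) : mol h g x = 0 :=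
  (mol_congr hh e).trans (mol_const hh 0 x)

lemma mol_nonneg (hh : ∀ i, 0 < h i) (h0 : ∀ y ∈ bx h x, 0 ≤ g y) : 0 ≤ mol h g x :=
  (kh_pk hh).cvl_nonneg fun _ hw => h0 _ (kh_sub_mem hh hw x)

lemma mol_mono (hh : ∀ i, 0 < h i) (hg : LI g) (hg' : LI g') (hl : ∀ y ∈ bx h x, g y ≤ g' y) :
    mol h g x ≤ mol h g' x := (kh_pk hh).cvl_mono hg hg' fun _ hw => hl _ (kh_sub_mem hh hw x)

lemma mol_le (hh : ∀ i, 0 < h i) (hg : LI g) (hl : ∀ y ∈ bx h x, g y ≤ B) : mol h g x ≤ B :=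
  (mol_mono hh hg (li_cont continuous_const) hl).trans_eq (mol_const hh B x)

lemma le_mol (hh : ∀ i, 0 < h i) (hg : LI g) (hl : ∀ y ∈ bx h x, B ≤ g y) : B ≤ mol h g x :=
  (mol_const hh B x).symm.trans_le (mol_mono hh (li_cont continuous_const) hg hl)

lemma abs_mol_le (hh : ∀ i, 0 < h i) (hB : ∀ y ∈ bx h x, |g y| ≤ B) : |mol h g x| ≤ B :=
  (kh_pk hh).abs_cvl_le fun _ hw => hB _ (kh_sub_mem hh hw x)

lemma abs_mol_le_mol (hh : ∀ i, 0 < h i) (g : V → ℝ) (x : V) :
    |mol h g x| ≤ mol h (fun y => |g y|) x := (kh_pk hh).abs_cvl_le_abs g x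

/-- distance to a number from the oscillation on the box -/
lemma abs_sub_mol (hh : ∀ i, 0 < h i) (hg : LI g) {a ε : ℝ} (hB : ∀ y ∈ bx h x, |a - g y| ≤ ε) :
    |a - mol h g x| ≤ ε := (kh_pk hh).abs_sub_cvl hg fun _ hw => hB _ (kh_sub_mem hh hw x)

lemma sq_mol_le (hh : ∀ i, 0 < h i) (hg : LI g) (hg2 : LI fun y => g y ^ 2) (x : V) :
    mol h g x ^ 2 ≤ mol h (fun y => g y ^ 2) x := (kh_pk hh).sq_cvl_le hg hg2 x

lemma mol_sqrt_le (hh : ∀ i, 0 < h i) (hg : LI g) (h0 : ∀ y, 0 ≤ g y) (x : V) :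
    mol h (fun y => Real.sqrt (g y)) x ≤ Real.sqrt (mol h g x) := (kh_pk hh).cvl_sqrt_le hg h0 x

lemma mol_int (hh : ∀ i, 0 < h i) (hg : Integrable g) : Integrable (mol h g) :=
  (kh_pk hh).int_cvl hg

lemma integral_mol (hh : ∀ i, 0 < h i) (hg : Integrable g) : ∫ x, mol h g x = ∫ x, g x :=
  (kh_pk hh).integral_cvl hg

lemma mol_adj (hh : ∀ i, 0 < h i) (hφ : Integrable φ) (hg : AEStronglyMeasurable g volume)
    (hB : ∀ y, |g y| ≤ B) : ∫ x, φ x * mol h g x = ∫ y, mol h φ y * g y :=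
  (kh_pk hh).adj (kh_neg h) hφ hg hB

/-! ## derivatives -/

/-- all derivatives on the kernel -/
lemma pds_mol_ker (hh : ∀ i, 0 < h i) (hg : LI g) (l : List (Fin 3)) :
    pds l (mol h g) = cvl (pds l (kh h)) g := by
  induction l with
  | nil => rfl
  | cons j l ih =>
    funext x
    show pd j (pds l _) x = _
    rw [ih]
    exact (kn_pds (kh_pk hh).toKn l).fderiv_cvl hg x _

/-- all derivatives on the function -/
lemma pds_mol (hh : ∀ i, 0 < h i) (l : List (Fin 3)) (hg : ContDiff ℝ l.length g) :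
    pds l (mol h g) = mol h (pds l g) := by
  induction l with
  | nil => rfl
  | cons j l ih =>
    have c : ContDiff ℝ (1 : ℕ) (pds l g) := cd_pds l (by rwa [add_comm])
    funext x
    show pd j (pds l _) x = _
    rw [ih (cd_le hg (Nat.le_succ _))]
    exact ((kh_pk hh).fderiv_cvl (li_cont c.continuous) x _).trans ((kh_pk hh).parts c x _)

lemma li_pds (l : List (Fin 3)) (hg : ContDiff ℝ l.length g) : LI (pds l g) :=
  li_cont (cd_pds (n := 0) l (by rwa [zero_add])).continuous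

/-- mixed form -/
lemma pds_mol_mix (hh : ∀ i, 0 < h i) (l l' : List (Fin 3)) (hg : ContDiff ℝ l'.length g) :
    pds (l ++ l') (mol h g) = cvl (pds l (kh h)) (pds l' g) := by
  rw [pds_app, pds_mol hh l' hg, pds_mol_ker hh (li_pds l' hg)]

/-- bounds on `U'` pass to the mollification on `U` -/
lemma cbl_mol {P : List (Fin 3) → Prop} {n : ℕ} (hh : ∀ i, 0 < h i) (hh' : ∀ i, 0 < h' i)
    (hg : ContDiff ℝ n g) (hP : ∀ l, P l → l.length ≤ n) (hU : Thk h U U') (hB : CBl P h' U' g B) :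
    CBl P h' U (mol h g) B := fun l hl x hx => by
  rw [pds_mol hh l (cd_le hg (hP l hl)), ← abs_of_pos (hp_pos hh' l), ← abs_mul, ← mol_mul]
  refine abs_mol_le hh fun y hy => ?_
  rw [abs_mul, abs_of_pos (hp_pos hh' l)]
  exact hB l hl y (hU x hx hy)

lemma cbl_mol_sm {P : List (Fin 3) → Prop} (hh : ∀ i, 0 < h i) (hh' : ∀ i, 0 < h' i) (hg : Sm g)
    (hU : Thk h U U') (hB : CBl P h' U' g B) : CBl P h' U (mol h g) B := fun l hl =>
  cbl_mol (P := fun l' => l' = l) hh hh' (sm_cd hg l.length) (fun _ e => (e ▸ le_rfl)) hU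
    (fun _ e => e ▸ hB l hl) l rfl

/-- the error from first derivatives at the scale `h'` -/
lemma abs_sub_mol_cv (hh : ∀ i, 0 < h i) (hh' : ∀ i, 0 < h' i) (hg : Differentiable ℝ g)
    (hB : ∀ y ∈ bx h x, ∀ i, h' i * |pd i g y| ≤ B) : |g x - mol h g x| ≤ (∑ i, h i / h' i) * B := by
  refine abs_sub_mol hh (li_cont hg.continuous) fun y hy => ?_
  rw [Finset.sum_mul]
  refine mvt_bx hg hy fun z hz i => ?_
  have := hh' i
  calc h i * |pd i g z| = h i / h' i * (h' i * |pd i g z|) := by field_simp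
    _ ≤ _ := mul_le_mul_of_nonneg_left (hB z hz i) (div_pos (hh i) this).le

lemma sub_mol_cv (hh : ∀ i, 0 < h i) (hh' : ∀ i, 0 < h' i) (hg : Differentiable ℝ g)
    (hU : Thk h U U') (hB : CV 1 h' U' g B) (hx : x ∈ U) :
    |g x - mol h g x| ≤ (∑ i, h i / h' i) * B :=
  abs_sub_mol_cv hh hh' hg fun y hy i => by
    simpa [hp, pds] using hB [i] ⟨le_rfl, le_rfl⟩ y (hU x hx hy)

/-- the error with its derivatives, from one more derivative -/
lemma cbl_sub_mol {P Q : List (Fin 3) → Prop} {n : ℕ} (hh : ∀ i, 0 < h i) (hh' : ∀ i, 0 < h' i)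
    (hg : ContDiff ℝ (n + 1 : ℕ) g) (hP : ∀ l, P l → l.length ≤ n ∧ ∀ i, Q (i :: l))
    (hU : Thk h U U') (hB : CBl Q h' U' g B) :
    CBl P h' U (fun y => g y - mol h g y) ((∑ i, h i / h' i) * B) := fun l hl x hx => by
  have c : ContDiff ℝ l.length g := cd_le hg ((hP l hl).1.trans (Nat.le_succ _))
  have d : Differentiable ℝ (pds l g) :=
    (cd_pds (n := 1) l (cd_le hg (by have := (hP l hl).1; omega))).differentiable (by simp)
  have p := hp_pos hh' l
  rw [pds_sub l c (sm_cd (mol_sm hh (li_cont hg.continuous)) _), pds_mol hh l c, mul_comm,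
    ← le_div_iff₀ p, mul_div_assoc]
  refine abs_sub_mol_cv hh hh' d fun y hy i => ?_
  rw [le_div_iff₀ p, mul_right_comm, ← hp_cons]
  exact hB _ ((hP l hl).2 i) y (hU x hx hy)

lemma cb_sub_mol {n : ℕ} (hh : ∀ i, 0 < h i) (hh' : ∀ i, 0 < h' i) (hg : ContDiff ℝ (n + 1 : ℕ) g)
    (hU : Thk h U U') (hB : CV (n + 1) h' U' g B) :
    CB n h' U (fun y => g y - mol h g y) ((∑ i, h i / h' i) * B) :=
  cbl_sub_mol hh hh' hg (fun _ hl => ⟨hl, fun _ => ⟨Nat.succ_pos _, Nat.succ_le_succ hl⟩⟩) hU hB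

/-- gain of derivatives -/
theorem mol_gain (n : ℕ) : ∃ C : ℝ, 1 ≤ C ∧ ∀ (h : V) (g : V → ℝ) (B : ℝ), (∀ i, 0 < h i) →
    (LI g → ∀ l : List (Fin 3), l.length ≤ n → ∀ x, (∀ y ∈ bx h x, |g y| ≤ B) →
      hp h l * |pds l (mol h g) x| ≤ C * B) ∧
    (∀ (l l' : List (Fin 3)) (c : ℝ) (x : V), 0 ≤ c → l.length ≤ n → ContDiff ℝ l'.length g →
      (∀ y ∈ bx h x, c * |pds l' g y| ≤ B) → hp h l * c * |pds (l ++ l') (mol h g) x| ≤ C * B) ∧
    (∀ U U', LI g → Thk h U U' → (∀ y ∈ U', |g y| ≤ B) → CB n h U (mol h g) (C * B)) ∧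
    (∀ U U', ContDiff ℝ 1 g → Thk h U U' → CV 1 h U' g B → CV n h U (mol h g) (C * B)) ∧
    (∀ U U', ContDiff ℝ 1 g → Thk h U U' → CL 1 h U' g B → CL n h U (mol h g) (C * B)) ∧
    ∀ (H x y : V), LI g → (∀ i, |y i - x i| + h i ≤ H i / 2) → ∀ l : List (Fin 3), l.length ≤ n →
      hp h l * |pds l (mol h g) y| ≤ C * ((∏ i, H i) / ∏ i, h i) * mol H (fun z => |g z|) x := by
  obtain ⟨C, hC, hk⟩ := kh_deriv n
  have A : ∀ (h : V) (g : V → ℝ) (B : ℝ), (∀ i, 0 < h i) → LI g → ∀ l : List (Fin 3),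
      l.length ≤ n → ∀ x, (∀ y ∈ bx h x, |g y| ≤ B) → hp h l * |pds l (mol h g) x| ≤ 8 * C * B := by
    intro h g B hh hg l hl x hB
    have p := hp_pos hh l
    have hP : 0 < ∏ i, h i := Finset.prod_pos fun i _ => hh i
    rw [pds_mol_ker hh hg, mul_comm, ← le_div_iff₀ p]
    refine (abs_cvl_box hh (M := C / (∏ i, h i) / hp h l) (fun w => ?_)
      (fun w hw => pds_kh_ne hh hw) hB).trans (le_of_eq (by field_simp))
    rw [le_div_iff₀ p, mul_comm]
    exact hk h hh l hl w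
  have M : ∀ (h : V) (g : V → ℝ) (B : ℝ), (∀ i, 0 < h i) → ∀ (l l' : List (Fin 3)) (c : ℝ) (x : V),
      0 ≤ c → l.length ≤ n → ContDiff ℝ l'.length g → (∀ y ∈ bx h x, c * |pds l' g y| ≤ B) →
      hp h l * c * |pds (l ++ l') (mol h g) x| ≤ 8 * C * B := by
    intro h g B hh l l' c x hc hl hg hB
    have := A h (fun y => c * pds l' g y) B hh (li_mul (li_pds l' hg) c) l hl x fun y hy => by
      rw [abs_mul, abs_of_nonneg hc]
      exact hB y hy
    rwa [pds_mol_ker hh (li_mul (li_pds l' hg) c), cvl_mul, abs_mul, abs_of_nonneg hc, ← mul_assoc,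
      ← pds_mol_mix hh l l' hg] at this
  have L : ∀ (h : V) (g : V → ℝ) (B : ℝ), (∀ i, 0 < h i) → ContDiff ℝ 1 g →
      ∀ (l : List (Fin 3)) (i : Fin 3) (x : V), l.length ≤ n → i ∈ l →
      (∀ y ∈ bx h x, hp h [i] * |pds [i] g y| ≤ B) → hp h l * |pds l (mol h g) x| ≤ 8 * C * B := by
    intro h g B hh hg l i x hl hi hB
    have p : l.Perm (l.erase i ++ [i]) :=
      (List.perm_cons_erase hi).trans (List.perm_append_singleton _ _).symm
    have := M h g B hh (l.erase i) [i] _ x (hp_pos hh [i]).le (List.length_erase_le.trans hl) hg hB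
    rwa [← hp_app, ← pds_perm (mol_sm hh (li_cont hg.continuous)) p, hp,
      ← (p.map h).prod_eq] at this
  refine ⟨8 * C, by linarith, fun h g B hh => ⟨A h g B hh, M h g B hh,
    fun U U' hg hU hB l hl x hx => A h g B hh hg l hl x fun y hy => hB y (hU x hx hy),
    fun U U' hg hU hB l hl x hx => ?_, fun U U' hg hU hB l hl x hx => ?_,
    fun H x y hg hH l hl => ?_⟩⟩
  · obtain ⟨i, hi⟩ := List.exists_mem_of_length_pos hl.1
    exact L h g B hh hg l i x hl.2 hi fun y hy => hB [i] ⟨le_rfl, le_rfl⟩ y (hU x hx hy)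
  · obtain ⟨i, hi, hi'⟩ := hl.2
    exact L h g B hh hg l i x hl.1 hi fun y hy =>
      hB [i] ⟨le_rfl, i, List.mem_singleton_self i, hi'⟩ y (hU x hx hy)
  · have p := hp_pos hh l
    have hP : 0 < ∏ i, h i := Finset.prod_pos fun i _ => hh i
    have hH0 : ∀ i, 0 < H i := fun i => by linarith [hH i, hh i, abs_nonneg (y i - x i)]
    rw [pds_mol_ker hh hg, cvl_swap, mul_comm, ← le_div_iff₀ p]
    refine (abs_int_le_mol (x := x) hH0 hg (M := C / (∏ i, h i) / hp h l) (fun w => ?_)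
      fun w hw i => ?_).trans (le_of_eq (by field_simp))
    · rw [le_div_iff₀ p, mul_comm]
      exact hk h hh l hl _
    · have := pds_kh_ne hh hw i
      rw [Pi.sub_apply, abs_sub_comm] at this
      linarith [hH i, abs_sub_le (w i) (y i) (x i)]

theorem cb_mol (n : ℕ) : ∃ C : ℝ, 1 ≤ C ∧ ∀ (h : V) (g : V → ℝ) (B : ℝ), (∀ i, 0 < h i) → LI g →
    (∀ y, |g y| ≤ B) → CB n h univ (mol h g) (C * B) :=
  let ⟨C, hC, k⟩ := mol_gain n
  ⟨C, hC, fun h g B hh hg hB => (k h g B hh).2.2.1 univ univ hg (thk_univ _ _) fun y _ => hB y⟩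

/-! ## comparison of kernels and affine maps -/

lemma mol_le_mol (hh : ∀ i, 0 < h i) (hg : LI g) (hH : ∀ i, |y i - x i| + h i ≤ H i / 2) :
    |mol h g y| ≤ 8 * ((∏ i, H i) / ∏ i, h i) * mol H (fun z => |g z|) x := by
  have hH0 : ∀ i, 0 < H i := fun i => by linarith [hH i, hh i, abs_nonneg (y i - x i)]
  rw [mol_swap]
  refine (abs_int_le_mol (x := x) hH0 hg (M := 1 / ∏ i, h i)
    (fun w => (abs_of_nonneg (kh_nonneg hh _)).trans_le (kh_le hh _)) fun w hw i => ?_).trans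
    (le_of_eq (by ring))
  have := kh_ne hh hw i
  rw [Pi.sub_apply, abs_sub_comm] at this
  linarith [hH i, abs_sub_le (w i) (y i) (x i)]

lemma abs_mol_mol_le (hh' : ∀ i, 0 < h' i) (hl : ∀ i, h' i ≤ h i) (hH : ∀ i, H i = 2 * h i)
    (hg : LI g) (x : V) : |mol h (mol h' g) x| ≤ 64 * mol H (fun z => |g z|) x := by
  have hh : ∀ i, 0 < h i := fun i => (hh' i).trans_le (hl i)
  have hH0 : ∀ i, 0 < H i := fun i => by rw [hH]; exact mul_pos two_pos (hh i)
  rw [mol_eq, mol_eq, mol_eq, (kh_pk hh).assoc (kh_pk hh').toKn hg, cvl, cvl, ← integral_const_mul]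
  refine norm_integral_le_of_norm_le (f := fun w => cvl (kh h) (kh h') w * g (x - w))
    (((kh_pk hH0).int_mul (li_abs hg) x).const_mul _) (Eventually.of_forall fun w => ?_)
  rw [norm_mul, ← mul_assoc]
  exact mul_le_mul_of_nonneg_right (cvl_kh_le hh' hl hH w) (abs_nonneg _)

lemma mol_mol_le (hh' : ∀ i, 0 < h' i) (hl : ∀ i, h' i ≤ h i) (hH : ∀ i, H i = 2 * h i)
    (hg : LI g) (h0 : ∀ y, 0 ≤ g y) (x : V) : mol h (mol h' g) x ≤ 64 * mol H g x := by
  simpa only [abs_of_nonneg (h0 _)] using (le_abs_self _).trans (abs_mol_mol_le hh' hl hH hg x)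

/-- mollification of a function composed with an affine map -/
lemma mol_aff (h : V) (g : V → ℝ) (b : V) {A : Mx} (hA : A.det ≠ 0) (x : V) :
    mol h (fun y => g (b + A *ᵥ y)) x = |A.det|⁻¹ * ∫ z, kh h (x - A⁻¹ *ᵥ (z - b)) * g z := by
  rw [mol_swap, ← integral_aff b hA]
  simp only [add_sub_cancel_left, mulVec_mulVec, nonsing_inv_mul A hA.isUnit, one_mulVec]

lemma mol_aff_le (hh : ∀ i, 0 < h i) (hH0 : ∀ i, 0 < H i) (hg : LI g) (b : V) {A : Mx}
    (hA : A.det ≠ 0) (hH : ∀ i, |(b + A *ᵥ x) i - y i| + ∑ j, |A i j| * h j ≤ H i / 2) :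
    |mol h (fun z => g (b + A *ᵥ z)) x| ≤
      8 * ((∏ i, H i) / ((∏ i, h i) * |A.det|)) * mol H (fun z => |g z|) y := by
  rw [mol_aff h g b hA, abs_mul, abs_inv, abs_abs]
  refine (mul_le_mul_of_nonneg_left (abs_int_le_mol (x := y) hH0 hg (M := 1 / ∏ i, h i)
    (fun w => (abs_of_nonneg (kh_nonneg hh _)).trans_le (kh_le hh _)) fun w hw i => ?_)
    (by positivity)).trans (le_of_eq (by ring))
  have e : (b + A *ᵥ x) i - w i = (A *ᵥ (x - A⁻¹ *ᵥ (w - b))) i := by
    rw [mulVec_sub, mulVec_mulVec, mul_nonsing_inv A hA.isUnit, one_mulVec]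
    simp only [Pi.add_apply, Pi.sub_apply]
    ring
  have l : |(b + A *ᵥ x) i - w i| ≤ ∑ j, |A i j| * h j := by
    rw [e]
    refine (Finset.abs_sum_le_sum_abs (fun j => A i j * (x - A⁻¹ *ᵥ (w - b)) j) Finset.univ).trans
      (Finset.sum_le_sum fun j _ => ?_)
    rw [abs_mul]
    exact mul_le_mul_of_nonneg_left (kh_ne hh hw j).le (abs_nonneg _)
  rw [abs_sub_comm] at l
  linarith [hH i, abs_sub_le (w i) ((b + A *ᵥ x) i) (y i)]

/-! ## matrices -/

variable {S S' : V → Mx}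

lemma molM_apply (h : V) (S : V → Mx) (x : V) (i j : Fin 3) :
    molM h S x i j = mol h (fun y => S y i j) x := rfl

lemma molM_sm (hh : ∀ i, 0 < h i) (hS : ∀ i j, LI fun y => S y i j) : SmM (molM h S) :=
  fun i j => mol_sm hh (hS i j)

lemma molM_const (hh : ∀ i, 0 < h i) (A : Mx) (x : V) : molM h (fun _ => A) x = A :=
  Matrix.ext fun _ _ => mol_const hh _ x

lemma molM_congr (hh : ∀ i, 0 < h i) (e : ∀ y ∈ bx h x, S y = S' y) : molM h S x = molM h S' x :=
  Matrix.ext fun i j => mol_congr (g := fun y => S y i j) (g' := fun y => S' y i j) hh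
    fun y hy => by rw [e y hy]

lemma molM_add (hh : ∀ i, 0 < h i) (hS : ∀ i j, LI fun y => S y i j)
    (hS' : ∀ i j, LI fun y => S' y i j) (x : V) :
    molM h (fun y => S y + S' y) x = molM h S x + molM h S' x :=
  Matrix.ext fun i j => mol_add hh (hS i j) (hS' i j) x

lemma molM_sub (hh : ∀ i, 0 < h i) (hS : ∀ i j, LI fun y => S y i j)
    (hS' : ∀ i j, LI fun y => S' y i j) (x : V) :
    molM h (fun y => S y - S' y) x = molM h S x - molM h S' x :=
  Matrix.ext fun i j => mol_sub hh (hS i j) (hS' i j) x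

lemma molM_smul (h : V) (S : V → Mx) (c : ℝ) (x : V) :
    molM h (fun y => c • S y) x = c • molM h S x :=
  Matrix.ext fun i j => mol_mul h (fun y => S y i j) c x

lemma molM_transpose (h : V) (S : V → Mx) (x : V) : molM h (fun y => (S y)ᵀ) x = (molM h S x)ᵀ :=
  rfl

lemma molM_symm (hh : ∀ i, 0 < h i) (e : ∀ y ∈ bx h x, (S y)ᵀ = S y) :
    (molM h S x)ᵀ = molM h S x := (molM_transpose h S x).symm.trans (molM_congr hh e)

lemma molM_mul_left (hh : ∀ i, 0 < h i) (hS : ∀ i j, LI fun y => S y i j) (A : Mx) (x : V) :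
    molM h (fun y => A * S y) x = A * molM h S x := Matrix.ext fun i j => by
  simp only [molM_apply, Matrix.mul_apply]
  rw [mol_sum hh _ fun k _ => li_mul (hS k j) (A i k)]
  exact Finset.sum_congr rfl fun k _ => mol_mul h _ _ x

lemma molM_mul_right (hh : ∀ i, 0 < h i) (hS : ∀ i j, LI fun y => S y i j) (A : Mx) (x : V) :
    molM h (fun y => S y * A) x = molM h S x * A := by
  have := molM_mul_left (S := fun y => (S y)ᵀ) hh (fun i j => hS j i) Aᵀ x
  rw [molM_transpose, ← transpose_mul] at this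
  simp only [← transpose_mul] at this
  exact transpose_injective ((molM_transpose h _ x).symm.trans this)

lemma molM_eb (hh : ∀ i, 0 < h i) {A : Mx} (hB : ∀ y ∈ bx h x, EB (S y) A) : EB (molM h S x) A :=
  fun i j => abs_mol_le hh fun y hy => hB y hy i j

lemma molM_eb2 (hh : ∀ i, 0 < h i) {A : Mx} (hB : ∀ y ∈ bx h x, EB2 (S y) A) :
    EB2 (molM h S x) A := fun i j hi => abs_mol_le hh fun y hy => hB y hy i j hi

lemma molM_sub_eb (hh : ∀ i, 0 < h i) (hS : ∀ i j, LI fun y => S y i j) {A E : Mx}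
    (hB : ∀ y ∈ bx h x, EB (A - S y) E) : EB (A - molM h S x) E :=
  fun i j => abs_sub_mol hh (hS i j) fun y hy => hB y hy i j

lemma li_quad (hS : ∀ i j, LI fun y => S y i j) (u v : V) : LI fun y => u ⬝ᵥ (S y *ᵥ v) := by
  simp only [dotProduct, mulVec, mul_comm _ (v _)]
  exact li_sum _ fun i _ => li_mul (li_sum _ fun j _ => li_mul (hS i j) (v j)) (u i)

lemma molM_quad (hh : ∀ i, 0 < h i) (hS : ∀ i j, LI fun y => S y i j) (u v x : V) :
    u ⬝ᵥ (molM h S x *ᵥ v) = mol h (fun y => u ⬝ᵥ (S y *ᵥ v)) x := by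
  simp only [dotProduct, mulVec, mul_comm _ (v _)]
  rw [mol_sum hh _ fun i _ => li_mul (li_sum _ fun j _ => li_mul (hS i j) (v j)) (u i)]
  refine Finset.sum_congr rfl fun i _ => ?_
  rw [mol_mul, mol_sum hh _ fun j _ => li_mul (hS i j) (v j)]
  simp only [mol_mul, molM_apply]

lemma molM_pd (hh : ∀ i, 0 < h i) (hS : ∀ i j, LI fun y => S y i j)
    (hB : ∀ y ∈ bx h x, PD h' (S y)) : PD h' (molM h S x) :=
  ⟨molM_symm hh fun y hy => (hB y hy).1, fun v => by
    rw [molM_quad hh hS]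
    exact ⟨le_mol hh (li_quad hS v v) fun y hy => ((hB y hy).2 v).1,
      mol_le hh (li_quad hS v v) fun y hy => ((hB y hy).2 v).2⟩⟩

end
end Pool.Agent.MP_20bec2_an.T3.Mol

end MrgPart1

-- ======== part 2: formerly Pool.Agent.MP_20bec2_an.T3.Par4
section MrgPart2

/-! `B1`, `pi1`, the flags of one cube, and the flags of neighbouring cubes. -/

set_option autoImplicit false
set_option linter.unusedSectionVars false
open Set Filter Real

namespace Pool.Agent.MP_20bec2_an.T3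
noncomputable section

namespace Big
variable {N : ℕ} (h : Big N)
include h

lemma fr0_eq : fr0 N = √(pX N / (pq N ^ 8 * N)) := by
  have := h.q_pos
  rw [fr0, mul_comm, ← div_div, Real.sqrt_div' _ (show 0 ≤ pq N ^ 8 by positivity),
    show pq N ^ 8 = (pq N ^ 4) ^ 2 by ring, Real.sqrt_sq (by positivity)]

lemma qX_eq : pq N * pX N = pJ N := mul_div_cancel₀ _ h.q_pos.ne'

lemma etaA_eq : etaA N = 100 * etaS N := by unfold etaS; ring

lemma log100_bd : 0 ≤ Real.log 100 ∧ Real.log 100 ≤ 100 := logc_bd (by norm_num)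

lemma eE_le_etaS : 1000 * eE N ≤ etaS N := by
  have := h.eE_pos
  refine le_of_log (by positivity) h.etaS_pos ?_
  rw [Real.log_mul (by norm_num) this.ne', h.log_eE, h.log_etaS]
  linarith [h.L_ge, h.J_ge, log2_bd.2, h.log100_bd.2, (logc_bd (show (1 : ℝ) ≤ 1000 by norm_num)).2]

lemma bB_le_bA : bB N ≤ bA N :=
  le_of_log h.bB_pos h.bA_pos (by rw [h.log_bA, h.log_bB]; linarith [h.L_ge])

lemma bA_le : bA N ≤ 1 := by
  refine le_of_log h.bA_pos one_pos ?_
  rw [h.log_bA, Real.log_one]; linarith [h.L_ge]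

lemma dc_le : dc N ≤ 1 / (pq N ^ 2 * pR N) := by
  have := h.q_pos; have := h.R_pos
  refine le_of_log h.dc_pos (by positivity) ?_
  simp (disch := positivity) only [Real.log_div, Real.log_mul, Real.log_pow, Real.log_one,
    h.log_q, h.log_R, h.log_dc]
  push_cast
  linarith [h.L_ge, h.J_ge, log2_bd.2]

lemma dc_le' : dc N ≤ 1 / (200 * pJ N ^ 2) := by
  have := h.J_pos
  refine le_of_log h.dc_pos (by positivity) ?_
  simp (disch := positivity) only [Real.log_div, Real.log_mul, Real.log_pow, Real.log_one,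
    h.log_J, h.log_dc]
  push_cast
  linarith [h.L_ge, h.J_ge, (logc_bd (show (1 : ℝ) ≤ 200 by norm_num)).2]

lemma mid_lt : mid N < kbo N ∧ kbo N < ks N ∧ ks N < nb N ∧ kL N < mid N := by
  have := h.nm_pos
  unfold kbo ks nb kL mid
  omega

lemma tm_le {k r : ℕ} (hk : k < nb N) (hr : r ≤ 9) : (tm k r : ℝ) ≤ 1072 * pJ N := by
  have h1 : tm k r ≤ 8 * nb N := by unfold tm; omega
  have h2 : (tm k r : ℝ) ≤ 8 * nb N := by exact_mod_cast h1
  linarith [h.nb_bd.2]

lemma cnt_le {k r : ℕ} (hk : k < nb N) (hr : r ≤ 9) : (cnt k r : ℝ) ≤ 1206 * pJ N := by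
  have h1 : cnt k r ≤ 9 * nb N := by unfold cnt; omega
  have h2 : (cnt k r : ℝ) ≤ 9 * nb N := by exact_mod_cast h1
  linarith [h.nb_bd.2]

lemma hc_eq : hc N = 3 * (pJ N ^ 2 / √N) := by unfold hc; ring

lemma sqrtJN_le : 1000 * √(pJ N / N) ≤ pJ N ^ 2 / √N := by
  have := h.J_pos; have := h.N_pos
  refine le_of_log (by positivity) (by positivity) ?_
  simp (disch := positivity) only [Real.log_div, Real.log_mul, Real.log_pow, Real.log_sqrt,
    h.log_J, h.log_N]
  push_cast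
  linarith [h.L_ge, (logc_bd (show (1 : ℝ) ≤ 1000 by norm_num)).2]

lemma fr0_le : 1000 * fr0 N ≤ √(pJ N / N) := by
  have := h.J_pos; have := h.N_pos; have := h.fr0_pos
  refine le_of_log (by positivity) (by positivity) ?_
  simp (disch := positivity) only [Real.log_div, Real.log_mul, Real.log_sqrt, h.log_J, h.log_N,
    h.log_fr0]
  linarith [h.L_ge, (logc_bd (show (1 : ℝ) ≤ 1000 by norm_num)).2]

lemma hc_le : 1000 * hc N ≤ 1 / pJ N := by
  have := h.J_pos; have := h.hc_pos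
  refine le_of_log (by positivity) (by positivity) ?_
  simp (disch := positivity) only [Real.log_div, Real.log_mul, Real.log_one, h.log_J, h.log_hc]
  linarith [h.L_ge, h.J_ge, (logc_bd (show (1 : ℝ) ≤ 1000 by norm_num)).2,
    (logc_bd (show (1 : ℝ) ≤ 3 by norm_num)).2]

/-- the slack term of the steering residual -/
lemma el_sm_le : (10 * (el N : ℝ) + 10) * sm N ≤ fr0 N / pJ N ^ 3 := by
  have := h.J_pos; have := h.fr0_pos; have := h.sm_pos; have := h.sqrtq_pos
  refine (mul_le_mul_of_nonneg_right (show _ ≤ 2 * √(pq N) by linarith [h.el_le_sqrtq])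
    h.sm_pos.le).trans (le_of_log (by positivity) (by positivity) ?_)
  simp (disch := positivity) only [Real.log_div, Real.log_mul, Real.log_pow, h.log_J, h.log_fr0,
    h.log_sm, h.log_sqrtq]
  push_cast
  linarith [h.L_ge, log2_bd.2]

end Big

/-- `η` in units of `etaA` -/
def Pm.ζ (c : Pm) : ℝ := c.η / etaA c.N

namespace Gd
variable {c : Pm} (h : Gd c)
include h

lemma ζ_pos : 0 < c.ζ := div_pos h.η_pos h.big.etaA_pos
lemma η_eq : c.η = c.ζ * etaA c.N := (div_mul_cancel₀ _ h.big.etaA_pos.ne').symm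
lemma log_ζ : Real.log c.ζ = Real.log c.η + 8 * pL c.N := by
  rw [Pm.ζ, Real.log_div h.η_pos.ne' h.big.etaA_pos.ne', h.big.log_etaA]; ring
lemma A_le (a : ℝ) : a * etaA c.N ≤ c.η ↔ a ≤ c.ζ := (le_div_iff₀ h.big.etaA_pos).symm
lemma le_A (a : ℝ) : c.η ≤ a * etaA c.N ↔ c.ζ ≤ a := (div_le_iff₀ h.big.etaA_pos).symm
lemma lt_A (a : ℝ) : c.η < a * etaA c.N ↔ c.ζ < a := (div_lt_iff₀ h.big.etaA_pos).symm
lemma S_le (a : ℝ) : a * etaS c.N ≤ c.η ↔ a / 100 ≤ c.ζ := by
  rw [← h.A_le, etaS]; ring_nf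
lemma le_S (a : ℝ) : c.η ≤ a * etaS c.N ↔ c.ζ ≤ a / 100 := by
  rw [← h.le_A, etaS]; ring_nf
lemma lt_S (a : ℝ) : c.η < a * etaS c.N ↔ c.ζ < a / 100 := by
  rw [← h.lt_A, etaS]; ring_nf
lemma isA_iff : c.isA ↔ 1 ≤ c.ζ := by rw [← h.A_le, one_mul]; rfl
lemma steer_iff : c.steer ↔ 1 / 2 ≤ c.ζ := by rw [← h.A_le, Pm.steer]; ring_nf
lemma oS_iff : c.oS ↔ c.ζ < 8 / 10 := h.lt_A _
lemma oB_iff : c.oB ↔ c.ζ < 9 / 10 := h.lt_A _

lemma η_le_eE (ht : tE c.N ≤ c.t) : c.η ≤ eE c.N := by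
  have h1 : c.η ≤ eta (pR c.N) (tE c.N) := eta_anti' h.big.R_ge ht
  refine h1.trans (le_of_log (eta_mem' h.big.R_ge _).1 h.big.eE_pos ?_)
  have h2 := (log_eta_bd h.big.R_ge (show 0 ≤ tE c.N by linarith [h.big.tE_bd.1])).2
  rw [neg_mul, h.big.R_mul_tE, h.big.log_R] at h2
  rw [h.big.log_eE]; linarith

lemma push_η (hp : c.push) : c.η ≤ 5 * etaS c.N := by
  rcases hp with hp | hp
  · exact hp.2
  · linarith [h.η_le_eE hp, h.big.eE_le_etaS, h.big.eE_pos]

lemma push_ζ (hp : c.push) : c.ζ ≤ 5 / 100 := (h.le_S 5).1 (h.push_η hp)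
lemma boost_ζ (hb : c.boost) : 2 / 100 ≤ c.ζ := (h.S_le 2).1 hb.2.1
lemma comp_ζ (hc : c.comp) : 1 / 100 ≤ c.ζ :=
  (h.S_le 1).1 (by rw [one_mul]; exact h.thr_bd.1.trans hc)
lemma comp_ζ' (hk : c.k < kbo c.N) : c.comp ↔ 30 / 100 ≤ c.ζ := by
  rw [← h.S_le, Pm.comp, Pm.thr, if_pos hk]
lemma comp_ζ'' (hk : kbo c.N ≤ c.k) : c.comp ↔ 1 / 100 ≤ c.ζ := by
  rw [← h.S_le, Pm.comp, Pm.thr, if_neg (not_lt.2 hk), one_mul]

lemma steer_of_isA (hA : c.isA) : c.steer := h.steer_iff.2 (by linarith [h.isA_iff.1 hA])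
lemma steer_of_notS (hS : ¬c.oS) : c.steer :=
  h.steer_iff.2 (by linarith [not_lt.1 (mt h.oS_iff.2 hS)])
lemma oS_of_notsteer (hS : ¬c.steer) : c.oS := by_contra fun e => hS (h.steer_of_notS e)
/-- a deep cube -/
lemma deep_flags (hd : c.η ≤ 7 * etaS c.N) :
    c.oS ∧ c.oB ∧ ¬c.steer ∧ ¬c.isA ∧ (c.k < kbo c.N → ¬c.comp) := by
  have h1 := (h.le_S 7).1 hd
  exact ⟨h.oS_iff.2 (by linarith), h.oB_iff.2 (by linarith),
    fun e => by linarith [h.steer_iff.1 e], fun e => by linarith [h.isA_iff.1 e],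
    fun hk e => by linarith [(h.comp_ζ' hk).1 e]⟩
lemma notcomp_of_noise (hn : c.noise) : ¬c.comp :=
  (h.deep_flags (by linarith [h.push_η hn.1, h.big.etaS_pos])).2.2.2.2
    (by rw [hn.2]; exact h.big.mid_lt.1)
lemma notboost_of_noise (hn : c.noise) : ¬c.boost := fun e => by
  have h1 := e.2.2.1
  have h2 := h.big.mid_lt.1
  rw [hn.2] at h1; omega

lemma bb_bd : bB c.N ≤ c.bb ∧ c.bb ≤ bA c.N := by
  unfold Pm.bb; split_ifs
  exacts [⟨h.big.bB_le_bA, le_rfl⟩, ⟨le_rfl, h.big.bB_le_bA⟩]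
lemma bbO_bd : bB c.N ≤ c.bbO ∧ c.bbO ≤ bA c.N := by
  unfold Pm.bbO; split_ifs
  exacts [⟨le_rfl, h.big.bB_le_bA⟩, ⟨h.big.bB_le_bA, le_rfl⟩]
omit h in
lemma bbO_oB (hB : c.oB) : c.bbO = bB c.N := if_pos hB
omit h in
lemma bb_notA (hA : ¬c.isA) : c.bb = bB c.N := if_neg hA

lemma gb_ge : Jp c.N (3 / 2) / c.N ≤ c.gb := by
  have := h.N_pos; have := h.big.Jp_pos (3 / 2)
  refine le_of_log (by positivity) h.gb_pos ?_
  rw [Real.log_div this.ne' h.N_pos.ne', h.big.log_Jp, h.big.log_N]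
  rcases h.log_gb.2.2 with e | e <;> linarith [h.log_η_ge, h.big.L_ge]

/-- the envelope constant in normalised units -/
lemma cc_GG (i : Fin 3) (hi : i ≠ 2) : c.cc i * c.GG / (c.n12 * c.hs i) ≤ √(c.bb / c.N) := by
  have p1 := div_pos h.c1_pos h.l1_pos
  have p2 := div_pos h.c2_pos h.lam_pos
  have p3 := div_pos h.bb_pos h.N_pos
  have key : ∀ a : ℝ, 0 < a → a ^ 2 ≤ (c.c1 / c.l1) ^ 2 + (c.c2 / c.lam) ^ 2 →
      a * √(c.bb / c.N / ((c.c1 / c.l1) ^ 2 + (c.c2 / c.lam) ^ 2)) ≤ √(c.bb / c.N) := fun a ha e => by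
    rw [← Real.sqrt_sq ha.le, ← Real.sqrt_mul (by positivity)]
    refine Real.sqrt_le_sqrt ?_
    rw [← mul_div_assoc, div_le_iff₀ (by positivity), mul_comm]
    exact mul_le_mul_of_nonneg_left e p3.le
  have e : ∀ a b : ℝ, a * c.GG / (c.n12 * b) =
      a / b * √(c.bb / c.N / ((c.c1 / c.l1) ^ 2 + (c.c2 / c.lam) ^ 2)) := fun a b => by
    have := h.n12_pos.ne'
    rw [Pm.GG, mul_comm c.n12, ← mul_assoc, mul_div_mul_right _ _ this]; ring
  rw [e]
  fin_cases i
  · exact key _ p1 (le_add_of_nonneg_right (by positivity))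
  · exact key _ p2 (le_add_of_nonneg_left (by positivity))
  · exact absurd rfl hi

/-! `B1` and `pi1` -/

lemma ηp_pos : 0 < c.η * c.p := mul_pos h.η_pos h.p_pos
lemma sηp_pos : 0 < √(c.η * c.p) := Real.sqrt_pos.2 h.ηp_pos
lemma sηp_le : √(c.η * c.p) ≤ √(c.J / c.N) :=
  Real.sqrt_le_sqrt (h.ηp_le.trans_eq (congrArg (· / (c.N : ℝ)) h.big.qX_eq))

lemma fr0_le_sηp : fr0 c.N ≤ 8 * √(c.η * c.p) / c.q ^ 3 := by
  have := h.η_pos; have := h.p_pos; have := h.q_pos
  refine le_of_log h.big.fr0_pos (by positivity) ?_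
  simp (disch := positivity) only [Real.log_div, Real.log_mul, Real.log_pow, Real.log_sqrt,
    h.log_q, h.big.log_fr0]
  rw [show (8 : ℝ) = 2 ^ 3 by norm_num, Real.log_pow]
  push_cast
  linarith [h.log_ηp_ge, log2_bd.1]

lemma fr0_le_sηp' : 10 ^ 20 * fr0 c.N ≤ √(c.η * c.p) := by
  have h1 := h.fr0_le_sηp
  have h2 : (10000000 : ℝ) ^ 3 ≤ c.q ^ 3 := pow_le_pow_left₀ (by norm_num) h.big.q_ge 3
  rw [le_div_iff₀ (pow_pos h.q_pos 3)] at h1
  nlinarith [h.big.fr0_pos]

/-- the two terms of `B1` -/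
lemma B1_aux : ∃ u v : ℝ, c.B1 = u + c.J ^ 2 / √c.N * v ∧ fr0 c.N ≤ u ∧
    √(c.η * c.p) / 10 ^ 4 ≤ u ∧ u ≤ fr0 c.N + √(c.η * c.p) / 10 ^ 4 ∧ 0 < v ∧ v ≤ 1 ∧
    Real.log v = c.J * Real.log (min 1 (c.ζ / (85 / 100))) := by
  have p1 := h.ηp_pos; have p2 := h.big.fr0_pos; have p3 := h.sηp_pos; have p4 := h.ζ_pos
  have e1 : pX c.N / (c.q ^ 8 * c.N) = fr0 c.N ^ 2 := by
    have := h.big.X_pos; have := h.q_pos; have := h.N_pos
    rw [h.big.fr0_eq, Real.sq_sqrt (by change 0 ≤ pX c.N / (c.q ^ 8 * c.N); positivity)]; rfl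
  have e2 : 1 / 10 ^ 8 * (c.η * c.p) = (√(c.η * c.p) / 10 ^ 4) ^ 2 := by
    rw [div_pow, Real.sq_sqrt p1.le]; ring
  have e3 : c.η / (85 / 100 * etaA c.N) = c.ζ / (85 / 100) := by rw [Pm.ζ, div_div, mul_comm]
  have p5 : 0 < min 1 (c.ζ / (85 / 100)) := lt_min one_pos (by positivity)
  refine ⟨_, _, rfl, ?_, ?_, ?_, ?_, ?_, ?_⟩
  · rw [e1, e2]; exact Real.le_sqrt_of_sq_le (le_add_of_nonneg_right (by positivity))
  · rw [e1, e2]; exact Real.le_sqrt_of_sq_le (le_add_of_nonneg_left (by positivity))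
  · rw [e1, e2]
    exact Real.sqrt_le_iff.2 ⟨by positivity, by nlinarith [mul_pos p2 p3]⟩
  · rw [e3]; exact Real.rpow_pos_of_pos p5 _
  · rw [e3]; exact Real.rpow_le_one p5.le (min_le_left _ _) h.J_pos.le
  · rw [e3]; exact Real.log_rpow p5 _

lemma J2N_pos : 0 < c.J ^ 2 / √c.N := div_pos (pow_pos h.J_pos 2) h.big.sqrtN_pos

lemma B1_ge : fr0 c.N ≤ c.B1 ∧ √(c.η * c.p) / 10 ^ 4 ≤ c.B1 := by
  obtain ⟨u, v, e, h1, h2, -, h3, -⟩ := h.B1_aux
  have := mul_pos h.J2N_pos h3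
  constructor <;> linarith

lemma B1_pos : 0 < c.B1 := h.big.fr0_pos.trans_le h.B1_ge.1
lemma pi1_ge : 4 * fr0 c.N ≤ c.pi1 ∧ 10 * √(c.η * c.p) ≤ c.pi1 ∧ 4 * c.B1 ≤ c.pi1 := by
  have := h.B1_ge.1; have := h.sηp_pos; have := h.B1_pos
  unfold Pm.pi1
  exact ⟨by linarith, by linarith, by linarith⟩
lemma pi1_pos : 0 < c.pi1 := by linarith [h.pi1_ge.1, h.big.fr0_pos]

lemma B1_le : c.B1 ≤ 101 / 100 * (c.J ^ 2 / √c.N) := by
  obtain ⟨u, v, e, -, -, h1, -, h2, -⟩ := h.B1_aux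
  have h3 := mul_le_of_le_one_right h.J2N_pos.le h2
  have h4 : 1000 * √(c.J / c.N) ≤ c.J ^ 2 / √c.N := h.big.sqrtJN_le
  have h5 : 1000 * fr0 c.N ≤ √(c.J / c.N) := h.big.fr0_le
  linarith [h.sηp_le, h.J2N_pos]

lemma pi1_le : c.pi1 ≤ 5 * (c.J ^ 2 / √c.N) := by
  have h4 : 1000 * √(c.J / c.N) ≤ c.J ^ 2 / √c.N := h.big.sqrtJN_le
  unfold Pm.pi1
  linarith [h.sηp_le, h.J2N_pos, h.B1_le]

lemma B1_le_hc : 2 * c.B1 ≤ hc c.N := by
  have : hc c.N = 3 * (c.J ^ 2 / √c.N) := h.big.hc_eq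
  linarith [h.B1_le, h.J2N_pos]

lemma pi1_le_hc : c.pi1 ≤ 2 * hc c.N := by
  have : hc c.N = 3 * (c.J ^ 2 / √c.N) := h.big.hc_eq
  linarith [h.pi1_le, h.J2N_pos]

lemma B1_ge_of (hη : 85 / 100 * etaA c.N ≤ c.η) : c.J ^ 2 / √c.N ≤ c.B1 := by
  have := h.big.etaA_pos
  rw [Pm.B1, min_eq_left ((one_le_div (by positivity)).2 hη), Real.one_rpow, mul_one]
  exact le_add_of_nonneg_left (Real.sqrt_nonneg _)

lemma B1_notB (hB : ¬c.oB) : c.J ^ 2 / √c.N ≤ c.B1 :=
  h.B1_ge_of ((h.A_le _).2 (by linarith [not_lt.1 (mt h.oB_iff.2 hB)]))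

/-- below `0.82 etaA` the second term of `B1` is negligible -/
lemma B1_low (hη : c.ζ ≤ 82 / 100) : c.B1 ≤ 2 * fr0 c.N + √(c.η * c.p) / 10 ^ 4 := by
  obtain ⟨u, v, e, -, -, h1, h2, -, h3⟩ := h.B1_aux
  have p4 := h.ζ_pos; have := h.J_pos; have := h.big.sqrtN_pos
  have h4 : Real.log (min 1 (c.ζ / (85 / 100))) ≤ -(3 / 100) :=
    (Real.log_le_sub_one_of_pos (lt_min one_pos (by positivity))).trans
      (by linarith [min_le_right 1 (c.ζ / (85 / 100))])
  have h5 : c.J ^ 2 / √c.N * v ≤ fr0 c.N := by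
    refine le_of_log (by positivity) h.big.fr0_pos ?_
    simp (disch := positivity) only [Real.log_div, Real.log_mul, Real.log_pow, h.log_J,
      h.big.log_sqrtN, h.big.log_fr0, h3]
    have h6 := mul_le_mul_of_nonneg_left h4 h.J_pos.le
    have : c.J = pJ c.N := rfl
    push_cast
    linarith [h.big.L_ge, h.big.J_ge]
  linarith

lemma B1_oS (hS : c.oS) : c.B1 ≤ 101 / 10 ^ 6 * √(c.η * c.p) := by
  linarith [h.B1_low (by linarith [h.oS_iff.1 hS]), h.fr0_le_sηp', h.sηp_pos]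

lemma pi1_oS (hS : c.oS) : c.pi1 ≤ 11 * √(c.η * c.p) ∧ c.pi1 ≤ 11 * √(c.J / c.N) := by
  have := h.B1_oS hS; have := h.sηp_pos; have := h.sηp_le
  unfold Pm.pi1
  constructor <;> linarith

end Gd

lemma b23_mono {a b : ℝ} (e : a ≤ b) (i j : Fin 3) : Pm.b23 a i j ≤ Pm.b23 b i j := by
  have e0 : (0 : ℝ) ≤ 0 := le_rfl
  fin_cases i <;> fin_cases j
  exacts [e0, e0, e0, e0, e0, e, e0, e0, e0]

/-! ## flags of two close cubes -/

/-- the values of `η / etaA` agree up to one part in a thousand -/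
structure Nb (c c' : Pm) : Prop where
  g : Gd c
  g' : Gd c'
  le : c'.ζ ≤ 1001 / 1000 * c.ζ
  ge : c.ζ ≤ 1001 / 1000 * c'.ζ

lemma Cp.cl_ζ {d : ℝ} {c c' : Pm} (h : Cp d c c') :
    |Real.log c'.ζ - Real.log c.ζ| ≤ 101 / 100 * cpe d c c' := by
  obtain ⟨h1, h2⟩ := abs_le.1 h.cl_η
  rw [h.g.log_ζ, h.g'.log_ζ]
  exact abs_le.2 ⟨by linarith [h.dL.1, h.cpe_nonneg], by linarith [h.dL_le, h.cpe_nonneg]⟩

lemma Cp.ζ_le {d : ℝ} {c c' : Pm} (h : Cp d c c') :
    c'.ζ ≤ (1 + 1 / 10 ^ 7) * c.ζ ∧ c.ζ ≤ (1 + 1 / 10 ^ 7) * c'.ζ := by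
  obtain ⟨-, h1, h2, -⟩ := h.ratio h.g.ζ_pos h.g'.ζ_pos
    (h.cl_ζ.trans (by linarith [h.cpe_nonneg]))
  have := h.q_inv.2
  constructor <;> nlinarith [h.g.ζ_pos, h.g'.ζ_pos]

lemma Cp.nb {d : ℝ} {c c' : Pm} (h : Cp d c c') : Nb c c' :=
  ⟨h.g, h.g', by linarith [h.ζ_le.1, h.g.ζ_pos], by linarith [h.ζ_le.2, h.g'.ζ_pos]⟩

lemma Cp.nb2 {d d' : ℝ} {c c' c'' : Pm} (h : Cp d c c') (h' : Cp d' c' c'') : Nb c c'' :=
  ⟨h.g, h'.g', by linarith [h.ζ_le.1, h'.ζ_le.1, h.g.ζ_pos],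
    by linarith [h.ζ_le.2, h'.ζ_le.2, h'.g'.ζ_pos]⟩

namespace Nb
variable {c c' : Pm} (h : Nb c c')
include h

lemma symm : Nb c' c := ⟨h.g', h.g, h.ge, h.le⟩

lemma le_A {a b : ℝ} (hab : 1001 / 1000 * a ≤ b) (e : c.η ≤ a * etaA c.N) : c'.η ≤ b * etaA c'.N :=
  (h.g'.le_A b).2 (by linarith [(h.g.le_A a).1 e, h.le])
lemma lt_A {a b : ℝ} (hab : 1001 / 1000 * a ≤ b) (e : c.η < a * etaA c.N) : c'.η < b * etaA c'.N :=
  (h.g'.lt_A b).2 (by linarith [(h.g.lt_A a).1 e, h.le])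
lemma A_le {a b : ℝ} (hab : 1001 / 1000 * b ≤ a) (e : a * etaA c.N ≤ c.η) : b * etaA c'.N ≤ c'.η :=
  (h.g'.A_le b).2 (by linarith [(h.g.A_le a).1 e, h.ge])
lemma le_S {a b : ℝ} (hab : 1001 / 1000 * a ≤ b) (e : c.η ≤ a * etaS c.N) : c'.η ≤ b * etaS c'.N :=
  (h.g'.le_S b).2 (by linarith [(h.g.le_S a).1 e, h.le])
lemma lt_S {a b : ℝ} (hab : 1001 / 1000 * a ≤ b) (e : c.η < a * etaS c.N) : c'.η < b * etaS c'.N :=
  (h.g'.lt_S b).2 (by linarith [(h.g.lt_S a).1 e, h.le])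
lemma S_le {a b : ℝ} (hab : 1001 / 1000 * b ≤ a) (e : a * etaS c.N ≤ c.η) : b * etaS c'.N ≤ c'.η :=
  (h.g'.S_le b).2 (by linarith [(h.g.S_le a).1 e, h.ge])

lemma notB_of_isA (e : c'.isA) : ¬c.oB := fun e' => by
  linarith [h.g'.isA_iff.1 e, h.g.oB_iff.1 e', h.le]
lemma notA_of_oB (e : c.oB) : ¬c'.isA := fun e' => h.notB_of_isA e' e
lemma notA_of_lt (e : c.η < 95 / 100 * etaA c.N) : ¬c'.isA := fun e' => by
  linarith [h.g'.isA_iff.1 e', (h.g.lt_A _).1 e, h.le]
lemma steer_of_isA (e : c'.isA) : c.steer :=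
  h.g.steer_iff.2 (by linarith [h.g'.isA_iff.1 e, h.le])
lemma oB_of_oS (e : c.oS) : c'.oB := h.g'.oB_iff.2 (by linarith [h.g.oS_iff.1 e, h.le])
lemma steer_of_notS (e : ¬c.oS) : c'.steer :=
  h.g'.steer_iff.2 (by linarith [not_lt.1 (mt h.g.oS_iff.2 e), h.ge])
lemma oS_of_notsteer (e : ¬c'.steer) : c.oS := by_contra fun e' => e (h.steer_of_notS e')
lemma η_of_boost (e : c'.boost) : 3 / 2 * etaS c.N ≤ c.η :=
  (h.g.S_le _).2 (by linarith [h.g'.boost_ζ e, h.le])
lemma η_of_comp (e : c'.comp) : etaS c.N / 2 ≤ c.η := by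
  have := (h.g.S_le (1 / 2)).2 (by linarith [h.g'.comp_ζ e, h.le])
  linarith
lemma η_of_push (e : c'.push) : c.η ≤ 6 * etaS c.N :=
  (h.g.le_S _).2 (by linarith [h.g'.push_ζ e, h.ge])
lemma deep_of_push (e : c'.push) : c.η ≤ 7 * etaS c.N := by
  linarith [h.η_of_push e, h.g.big.etaS_pos]
lemma notpush_of_steer (e : c.steer) : ¬c'.push := fun e' =>
  (h.g.deep_flags (h.deep_of_push e')).2.2.1 e
/-- the neighbours of a deep cube -/
lemma deep_flags (hd : c.η ≤ 7 * etaS c.N) :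
    c'.oS ∧ c'.oB ∧ ¬c'.steer ∧ ¬c'.isA ∧ (c'.k < kbo c'.N → ¬c'.comp) := by
  have h1 := (h.g.le_S 7).1 hd
  have h2 := h.le
  exact ⟨h.g'.oS_iff.2 (by linarith), h.g'.oB_iff.2 (by linarith),
    fun e => by linarith [h.g'.steer_iff.1 e], fun e => by linarith [h.g'.isA_iff.1 e],
    fun hk e => by linarith [(h.g'.comp_ζ' hk).1 e]⟩

lemma bb_le_bbO (hN : c'.N = c.N) : c'.bb ≤ c.bbO := by
  by_cases e : c'.isA
  · rw [Pm.bbO, if_neg (h.notB_of_isA e), ← hN]; exact h.g'.bb_bd.2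
  · rw [Gd.bb_notA e, hN]; exact h.g.bbO_bd.1

end Nb

namespace Cp
variable {d : ℝ} {c c' : Pm} (h : Cp d c c')
include h

lemma η_eq_one (e : c'.s2 ≤ 4 * c'.s1) : c'.η = 1 := by
  by_contra e'
  have h1 := h.g'.K_ge (lt_of_le_of_ne h.g'.η_le_one e')
  have h2 : c'.K ≤ 4 := (div_le_iff₀ h.g'.s1_pos).2 e
  have h3 := Real.log_le_log (h.g'.big.Jp_pos _) (h1.trans h2)
  rw [h.g'.big.log_Jp, log4_eq] at h3
  linarith [h.g'.big.L_ge, log2_bd.2]

lemma cl_sηp : |Real.log √(c'.η * c'.p) - Real.log √(c.η * c.p)| ≤ 2 * cpe d c c' := by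
  obtain ⟨h1, h2⟩ := abs_le.1 h.cl_η
  obtain ⟨h3, h4⟩ := abs_le.1 h.cl_p
  rw [Real.log_sqrt h.g.ηp_pos.le, Real.log_sqrt h.g'.ηp_pos.le,
    Real.log_mul h.g.η_pos.ne' h.g.p_pos.ne', Real.log_mul h.g'.η_pos.ne' h.g'.p_pos.ne']
  exact abs_le.2 ⟨by linarith [h.cpe_nonneg], by linarith [h.cpe_nonneg]⟩

lemma cl_B1 : |Real.log c'.B1 - Real.log c.B1| ≤ 2 * c.J * cpe d c c' := by
  have e0 := h.cpe_nonneg
  have hJ := h.J_ge
  have e1 : 1000000000 * cpe d c c' ≤ c.J * cpe d c c' := mul_le_mul_of_nonneg_right hJ e0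
  have k : ∀ {c : Pm}, Gd c → ∃ x y z m : ℝ, 0 < x ∧ 0 < y ∧ 0 < z ∧ c.B1 = √(x + y) + z ∧
      Real.log x = pL c.N - 9 * (pL c.N / 1000) - pJ c.N ∧
      Real.log y = Real.log (1 / 10 ^ 8) + Real.log c.η + Real.log c.p ∧
      Real.log z = 2 * pL c.N - pJ c.N / 2 + pJ c.N * m ∧ -pJ c.N ≤ m ∧
      (m ≤ 0 ∧ m ≤ Real.log c.ζ - Real.log (85 / 100) ∧
        (m = 0 ∨ m = Real.log c.ζ - Real.log (85 / 100))) := by
    intro c g
    have := g.big.X_pos; have := g.q_pos; have := g.N_pos; have := g.η_pos; have := g.p_pos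
    have := g.big.etaA_pos; have := g.J_pos; have := g.ζ_pos
    have p4 : 0 < c.η / (85 / 100 * etaA c.N) := by positivity
    have p5 := lt_min one_pos p4
    have l := log_min' one_pos p4
    have l2 : Real.log (c.η / (85 / 100 * etaA c.N)) = Real.log c.ζ - Real.log (85 / 100) := by
      rw [← Real.log_div g.ζ_pos.ne' (by norm_num), Pm.ζ, div_div c.η, mul_comm]
    rw [Real.log_one, l2] at l
    refine ⟨_, _, _, _, by positivity, by positivity,
      mul_pos g.J2N_pos (Real.rpow_pos_of_pos p5 _), rfl, ?_, ?_, ?_, ?_, l⟩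
    · simp (disch := positivity) only [Real.log_div, Real.log_mul, Real.log_pow, g.big.log_X,
        g.log_q, g.big.log_N]
      push_cast; ring
    · rw [Real.log_mul (by norm_num) g.ηp_pos.ne', Real.log_mul g.η_pos.ne' g.p_pos.ne', add_assoc]
    · rw [Real.log_mul g.J2N_pos.ne' (Real.rpow_pos_of_pos p5 _).ne', Real.log_rpow p5,
        Real.log_div (by positivity) g.big.sqrtN_pos.ne', Real.log_pow, g.log_J, g.big.log_sqrtN,
        Nat.cast_ofNat]
      rfl
    · have : Real.log (85 / 100) ≤ 0 := Real.log_nonpos (by norm_num) (by norm_num)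
      rcases l.2.2 with e | e <;> linarith [g.log_ζ, g.log_η_ge, g.big.L_ge, g.big.J_pos]
  obtain ⟨x, y, z, m, p1, p2, p3, e, l1, l2, l3, -, l5⟩ := k h.g
  obtain ⟨x', y', z', m', p1', p2', p3', e', l1', l2', l3', l4', l5'⟩ := k h.g'
  obtain ⟨a1, a2⟩ := abs_le.1 (min_cl l5 l5' (e := 101 / 100 * cpe d c c') (by simp; positivity)
    (by rw [sub_sub_sub_cancel_right]; exact h.cl_ζ))
  obtain ⟨h1, h2⟩ := abs_le.1 h.cl_η
  obtain ⟨h3, h4⟩ := abs_le.1 h.cl_p
  have d1 := h.dJ.1; have d2 := h.dJ_le; have d3 := h.dL.1; have d4 := h.dL_le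
  have eJ : c.J = pJ c.N := rfl
  have d5 : cpe d c c' ≤ 1 := by linarith [h.cpe_le_q, h.q_inv.2]
  obtain ⟨b1, b2⟩ := abs_le.1 (log_add_cl (k := 0) (e := 3 * cpe d c c') p1 p2 p1' p2'
    (abs_le.2 ⟨by linarith, by linarith⟩) (abs_le.2 ⟨by linarith, by linarith⟩))
  have f1 := mul_le_mul_of_nonneg_left a1 h.g.big.J_pos.le
  have f2 := mul_le_mul_of_nonneg_left a2 h.g.big.J_pos.le
  have f3 := mul_nonpos_of_nonneg_of_nonpos d1 l5'.1
  have f4 := mul_le_mul_of_nonneg_left (show -(2 * pJ c.N) ≤ m' by linarith) d1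
  have f5 := mul_le_mul_of_nonneg_left d2 h.g.big.J_pos.le
  rw [eJ] at e1 ⊢
  have := log_add_cl (k := 0) (e := 2 * pJ c.N * cpe d c c') (Real.sqrt_pos.2 (add_pos p1 p2)) p3
    (Real.sqrt_pos.2 (add_pos p1' p2')) p3'
    (by rw [Real.log_sqrt (add_pos p1 p2).le, Real.log_sqrt (add_pos p1' p2').le]
        exact abs_le.2 ⟨by linarith, by linarith⟩)
    (abs_le.2 ⟨by linarith, by linarith⟩)
  rwa [sub_zero, ← e, ← e'] at this

lemma cl_pi1 : |Real.log c'.pi1 - Real.log c.pi1| ≤ 2 * c.J * cpe d c c' := by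
  have e1 : 1000000000 * cpe d c c' ≤ c.J * cpe d c c' :=
    mul_le_mul_of_nonneg_right h.J_ge h.cpe_nonneg
  obtain ⟨h1, h2⟩ := abs_le.1 h.cl_B1
  obtain ⟨h3, h4⟩ := abs_le.1 h.cl_sηp
  have := h.g.B1_pos; have := h.g'.B1_pos; have := h.g.sηp_pos; have := h.g'.sηp_pos
  have := h.cpe_nonneg
  have := log_add_cl (k := 0) (e := 2 * c.J * cpe d c c') (a := 4 * c.B1) (b := 10 * √(c.η * c.p))
    (a' := 4 * c'.B1) (b' := 10 * √(c'.η * c'.p)) (by positivity) (by positivity) (by positivity)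
    (by positivity)
    (by simp (disch := positivity) only [Real.log_mul]; exact abs_le.2 ⟨by linarith, by linarith⟩)
    (by simp (disch := positivity) only [Real.log_mul (x := 10)]
        exact abs_le.2 ⟨by linarith, by linarith⟩)
  rwa [sub_zero] at this

lemma B1_two (hd : d ≤ 1 / (200 * c.J ^ 2)) : c'.B1 ≤ 2 * c.B1 ∧ c.B1 ≤ 2 * c'.B1 :=
  h.ratio_two hd h.g.B1_pos h.g'.B1_pos
    (h.cl_B1.trans (by nlinarith [mul_nonneg h.g.J_pos.le h.cpe_nonneg]))

lemma pi1_two (hd : d ≤ 1 / (200 * c.J ^ 2)) : c'.pi1 ≤ 2 * c.pi1 ∧ c.pi1 ≤ 2 * c'.pi1 :=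
  h.ratio_two hd h.g.pi1_pos h.g'.pi1_pos
    (h.cl_pi1.trans (by nlinarith [mul_nonneg h.g.J_pos.le h.cpe_nonneg]))

/-- the level B tables of two cubes with the same `N` -/
lemma sdB_le (hN : c'.N = c.N) (i j : Fin 3) : c'.sdB i j ≤ 101 / 100 * c.sdB i j := by
  have q := h.q_inv.2
  have r : ∀ X ∈ [Pm.η, Pm.m, Pm.dB, Pm.t1B], 0 < X c → X c' ≤ 1001 / 1000 * X c := by
    intro X hX p
    have := (h.ratios X (by
      simp only [List.mem_cons, List.not_mem_nil, or_false] at hX ⊢; tauto)).2.1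
    nlinarith
  have r1 := r Pm.η (by simp) h.g.η_pos
  have r2 := r Pm.m (by simp) h.g.m_pos
  have r3 := r Pm.dB (by simp) h.g.dB_pos
  have r4 := r Pm.t1B (by simp) h.g.t1B_pos
  have p1 := h.g.dB_pos; have p2 := h.g.big.uB_pos; have p3 := h.g.t1B_pos; have p4 := h.g.m_pos
  have p5 := h.g.big.np_pos (-9 / 10); have p6 := h.g.η_pos
  have e1 : c'.dB ≤ 101 / 100 * c.dB := by linarith
  have e2 : c'.m * uB c'.N ≤ 101 / 100 * (c.m * uB c.N) := by rw [hN]; nlinarith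
  have e3 : c'.t1B ≤ 101 / 100 * c.t1B := by linarith
  have e4 : uB c'.N ≤ 101 / 100 * uB c.N := by rw [hN]; linarith
  have e5 : c'.η * c'.dB + np c'.N (-9 / 10) ≤ 101 / 100 * (c.η * c.dB + np c.N (-9 / 10)) := by
    have := mul_le_mul r1 r3 h.g'.dB_pos.le (by positivity)
    rw [hN]; nlinarith [mul_pos p6 p1]
  have e6 : (0 : ℝ) ≤ 101 / 100 * 0 := by norm_num
  fin_cases i <;> fin_cases j
  exacts [e1, e2, e3, e4, e5, e4, e6, e6, e6]

/-- the table of an acting cube `c'` against the table of an observing cube `c` -/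
lemma sd_le_sdO (hN : c'.N = c.N) (hk : c'.k = c.k) (i j : Fin 3) :
    c'.sd i j ≤ 101 / 100 * c.sdO i j ∧ (ks c.N ≤ c.k → c'.sd i j ≤ 101 / 100 * c.sdL i j) := by
  have p1 := h.g.big.sdc_pos
  have p2 : 2 * (sdc c'.N / c'.q) ≤ sdc c.N := by
    have : 10000000 ≤ c'.q := h.g'.big.q_ge
    rw [hN, ← mul_div_assoc, div_le_iff₀ h.g'.q_pos]; nlinarith
  by_cases hB : c.oB
  · have s := h.sdB_le hN i j
    have s0 := (h.g.sdB_bd i j).1
    rw [Pm.sd, if_neg (h.nb.notA_of_oB hB), Pm.sdO, Pm.sdL, if_pos hB, if_pos hB, Matrix.add_apply,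
      Matrix.add_apply]
    by_cases hb : c'.boost
    · rw [if_pos hb, if_pos ⟨h.nb.η_of_boost hb, by rw [← hN, ← hk]; exact hb.2.2.1⟩]
      refine ⟨?_, fun e => absurd hb.2.2.2 (by rw [hN, hk]; exact not_lt.2 e)⟩
      have := b23_mono (show sdc c'.N / c'.q ≤ sdc c.N by
        linarith [div_pos h.g'.big.sdc_pos h.g'.q_pos]) i j
      linarith [(Gd.b23_bd p1.le i j).1]
    · have := (Gd.b23_bd le_rfl i j).2
      rw [if_neg hb]
      refine ⟨?_, fun _ => by linarith⟩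
      split_ifs
      · linarith [(Gd.b23_bd p1.le i j).1]
      · linarith [(Gd.b23_bd le_rfl i j).1]
  · have e : etaS c'.N / 40 ≤ c'.η := by
      have := (h.g'.S_le (1 / 40)).2 (by linarith [not_lt.1 (mt h.g.oB_iff.2 hB), h.nb.ge])
      linarith
    have := (h.g'.sd_bd i j).2.2 e
    rw [Pm.sdO, Pm.sdL, if_neg hB, if_neg hB]
    show _ ≤ 101 / 100 * sdc c.N ∧ (_ → _ ≤ 101 / 100 * sdc c.N)
    exact ⟨by linarith, fun _ => by linarith⟩

lemma nz_le (hN : c'.N = c.N) (i j : Fin 3) : 0 ≤ c'.nz i j ∧ c'.nz i j ≤ 101 / 100 * c.nz i j := by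
  have q := h.q_inv.2
  have r1 := (h.ratios Pm.p (by simp)).2.1
  have r2 := (h.ratios Pm.t1B (by simp)).2.1
  have eq : c'.q = c.q := congrArg pq hN
  have eJ : c'.J = c.J := congrArg pJ hN
  have p1 := h.g.p_pos; have p2 := h.g.t1B_pos; have p3 := h.g.q_pos; have p4 := h.g.J_pos
  have p5 := h.g'.p_pos; have p6 := h.g'.t1B_pos
  have e1 : 0 ≤ c'.p / c'.q ^ 3 ∧ c'.p / c'.q ^ 3 ≤ 101 / 100 * (c.p / c.q ^ 3) := by
    rw [eq, ← mul_div_assoc]
    exact ⟨by positivity, div_le_div_of_nonneg_right (by nlinarith) (by positivity)⟩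
  have e2 : 0 ≤ c'.q * c'.J * c'.t1B ∧
      c'.q * c'.J * c'.t1B ≤ 101 / 100 * (c.q * c.J * c.t1B) := by
    rw [eq, eJ, mul_left_comm]
    exact ⟨by positivity, mul_le_mul_of_nonneg_left (by nlinarith) (by positivity)⟩
  have e3 : (0 : ℝ) ≤ 0 ∧ (0 : ℝ) ≤ 101 / 100 * 0 := by norm_num
  fin_cases i <;> fin_cases j
  exacts [e1, e3, e2, e3, e3, e3, e3, e3, e3]

end Cp

/-! ## cubes of a block -/

lemma Nbr.refl' {r : ℤ} (hr : 0 ≤ r) (g : Cu) : Nbr r g g := fun i => by simpa using hr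
lemma Nbr.symm {r : ℤ} {g g' : Cu} (h : Nbr r g g') : Nbr r g' g :=
  fun i => by rw [abs_sub_comm]; exact h i
lemma Nbr.mono {r r' : ℤ} {g g' : Cu} (h : Nbr r g g') (hr : r ≤ r') : Nbr r' g g' :=
  fun i => (h i).trans hr
lemma Nbr.trans {r r' : ℤ} {g g' g'' : Cu} (h : Nbr r g g') (h' : Nbr r' g' g'') :
    Nbr (r + r') g g'' := fun i => (abs_sub_le _ _ _).trans (add_le_add (h i) (h' i))

namespace FrOk
variable {N : ℕ} {lb : ℝ} {fr : Cu → Fr} (h : FrOk N lb fr) (hb : Big N)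
include h hb

lemma gd (g : Cu) {k : ℕ} (hk : k ≤ nb N) : Gd ((fr g).pm N lb k) :=
  let ⟨a1, a2, a3, a4, a5, a6, _⟩ := (h.fx g).2.2.2.2.2
  ⟨hb, a1, a2, a3, a4, a5, a6, hk⟩
lemma gd0 (g : Cu) : Gd ((fr g).pm N lb 0) := h.gd hb g (Nat.zero_le _)
lemma cpk {g g' : Cu} (n : Nbr 3 g g') {k k' : ℕ} (hk : k ≤ nb N) (hk' : k' ≤ nb N) :
    Cp (dc N) ((fr g).pm N lb k) ((fr g').pm N lb k') :=
  (h.cp g g' n).cp (h.gd hb g hk) (h.gd hb g' hk') hb.dc_le
lemma nbk {g g' : Cu} (n : Nbr 3 g g') {k k' : ℕ} (hk : k ≤ nb N) (hk' : k' ≤ nb N) :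
    Nb ((fr g).pm N lb k) ((fr g').pm N lb k') := (h.cpk hb n hk hk').nb
end FrOk

namespace Bk
variable {B : Bk} (h : FrOk B.N B.lb B.fr) (hb : Big B.N)
include h hb

lemma gd (g : Cu) {k : ℕ} (hk : k ≤ nb B.N) : Gd (B.c g k) := h.gd hb g hk
lemma gd0 (g : Cu) : Gd (B.c g 0) := h.gd0 hb g
lemma cpk {g g' : Cu} (n : Nbr 3 g g') {k k' : ℕ} (hk : k ≤ nb B.N) (hk' : k' ≤ nb B.N) :
    T3.Cp (dc B.N) (B.c g k) (B.c g' k') := h.cpk hb n hk hk'
lemma nbk {g g' : Cu} (n : Nbr 3 g g') {k k' : ℕ} (hk : k ≤ nb B.N) (hk' : k' ≤ nb B.N) :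
    Nb (B.c g k) (B.c g' k') := h.nbk hb n hk hk'
lemma nb0 {g g' : Cu} (n : Nbr 3 g g') : Nb (B.c g 0) (B.c g' 0) :=
  h.nbk hb n (Nat.zero_le _) (Nat.zero_le _)

/-- `pushN` makes the cube and its neighbours deep -/
lemma pushN_η {g g' : Cu} (p : B.pushN g) (n : Nbr 3 g g') : (B.c g' 0).η ≤ 6 * etaS B.N :=
  let ⟨_, n1, p1⟩ := p
  ((cpk h hb n.symm (Nat.zero_le _) (Nat.zero_le _)).nb2
    (cpk h hb (n1.mono (by norm_num)) (Nat.zero_le _) (Nat.zero_le _))).η_of_push p1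
lemma pushN_deep' {g g' : Cu} (p : B.pushN g) (n : Nbr 3 g g') : B.deep g' :=
  (pushN_η h hb p n).trans (by linarith [hb.etaS_pos])
lemma pushN_deep {g : Cu} (p : B.pushN g) : B.deep g :=
  pushN_deep' h hb p (Nbr.refl' (by norm_num) g)
lemma push_deep {g g' : Cu} (n : Nbr 3 g g') {k : ℕ} (p : (B.c g' k).push) : B.deep g :=
  (nb0 h hb n).deep_of_push p
lemma noise_deep {g g' : Cu} (n : Nbr 3 g g') {k : ℕ} (p : (B.c g' k).noise) : B.deep g :=
  push_deep h hb n p.1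
lemma deep_flags {g g' : Cu} (d : B.deep g) (n : Nbr 3 g g') {k : ℕ} (hk : k ≤ nb B.N) :
    (B.c g' k).oS ∧ (B.c g' k).oB ∧ ¬(B.c g' k).steer ∧ ¬(B.c g' k).isA ∧
      (k < kbo B.N → ¬(B.c g' k).comp) := (nbk h hb n (Nat.zero_le _) hk).deep_flags d
lemma not_pushN_of_steer {g : Cu} (s : (B.c g 0).steer) : ¬B.pushN g := fun p =>
  ((gd0 h hb g).deep_flags (pushN_deep h hb p)).2.2.1 s
lemma not_pushN_of_notS {g : Cu} (s : ¬(B.c g 0).oS) : ¬B.pushN g :=
  not_pushN_of_steer h hb ((gd0 h hb g).steer_of_notS s)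
lemma pi1_two {g g' : Cu} (n : Nbr 3 g g') : (B.c g' 0).pi1 ≤ 2 * (B.c g 0).pi1 :=
  ((cpk h hb n (Nat.zero_le _) (Nat.zero_le _)).pi1_two hb.dc_le').1
lemma sd_le {g g' : Cu} (n : Nbr 3 g g') {k : ℕ} (hk : k ≤ nb B.N) (i j : Fin 3) :
    (B.c g' k).sd i j ≤ 101 / 100 * (B.c g k).sdO i j ∧
      (ks B.N ≤ k → (B.c g' k).sd i j ≤ 101 / 100 * (B.c g k).sdL i j) :=
  (cpk h hb n hk hk).sd_le_sdO rfl rfl i j
lemma bb_le {g g' : Cu} (n : Nbr 3 g g') (k : ℕ) : (B.c g' k).bb ≤ (B.c g 0).bbO :=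
  (nb0 h hb n).bb_le_bbO rfl
end Bk

end
end Pool.Agent.MP_20bec2_an.T3

end MrgPart2

-- marker of a merged file
example : 731051 + 418299 = 731051 + 418299 := rfl
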