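import Pool.Agent.MP_20bec2_an.T3.Vtr
import Pool.Agent.MP_20bec2_an.T3.Conv
import Pool.Agent.MP_20bec2_an.T3.Zt
import Pool.Agent.MP_20bec2_an.T3.Calc1b
import Pool.Agent.MP_20bec2_an.T3.Par4
import Pool.Agent.MP_20bec2_an.T3.Calc2C

-- ======== part 0: formerly Pool.Agent.MP_20bec2_an.T3.Geo
section MrgPart0

set_option autoImplicit false
open MeasureTheory Set Filter Matrix Topology

namespace Pool.Agent.MP_20bec2_an.T3
noncomputable section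
open Classical

namespace GeoP
open Prof

/-! ## rotations in the sup norm -/

theorem row_abs {O : Mx} (h : Orth O) (i : Fin 3) : ∑ j, |O i j| ≤ 7 / 4 := by
  have h1 := orth_row h i
  simp only [Fin.sum_univ_three] at h1 ⊢
  have a0 := sq_abs (O i 0)
  have a1 := sq_abs (O i 1)
  have a2 := sq_abs (O i 2)
  nlinarith [sq_nonneg (|O i 0| - 7 / 12), sq_nonneg (|O i 1| - 7 / 12),
    sq_nonneg (|O i 2| - 7 / 12)]

theorem norm_mv_row {A : Mx} {a : ℝ} (h : ∀ i, ∑ j, |A i j| ≤ a) (v : V) : ‖A *ᵥ v‖ ≤ a * ‖v‖ := by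
  refine norm_le_of fun i => ?_
  calc |(A *ᵥ v) i| = |∑ j, A i j * v j| := rfl
    _ ≤ ∑ j, |A i j * v j| := Finset.abs_sum_le_sum_abs _ _
    _ ≤ ∑ j, |A i j| * ‖v‖ := Finset.sum_le_sum fun j _ => by
        rw [abs_mul]
        exact mul_le_mul_of_nonneg_left (abs_le_norm v j) (abs_nonneg _)
    _ = (∑ j, |A i j|) * ‖v‖ := (Finset.sum_mul _ _ _).symm
    _ ≤ a * ‖v‖ := mul_le_mul_of_nonneg_right (h i) (norm_nonneg _)

theorem norm_orth {O : Mx} (h : Orth O) (v : V) : ‖O *ᵥ v‖ ≤ 7 / 4 * ‖v‖ :=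
  norm_mv_row (row_abs h) v

theorem norm_orth' {O : Mx} (h : Orth O) (v : V) : ‖v‖ ≤ 7 / 4 * ‖O *ᵥ v‖ := by
  have := norm_orth (orth_t h) (O *ᵥ v)
  rwa [orth_t_mulVec h] at this

/-! ## entrywise bounds -/

theorem eb_mono {A : Mx} {a b : ℝ} (h : EB A (cm a)) (hab : a ≤ b) : EB A (cm b) :=
  fun i j => (h i j).trans hab

theorem eb_nonneg {A : Mx} {a : ℝ} (h : EB A (cm a)) : 0 ≤ a := (abs_nonneg _).trans (h 0 0)

theorem eb_add {A B : Mx} {a b : ℝ} (h : EB A (cm a)) (h' : EB B (cm b)) :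
    EB (A + B) (cm (a + b)) := fun i j =>
  (abs_add_le (A i j) (B i j)).trans (add_le_add (h i j) (h' i j))

theorem eb_neg {A : Mx} {a : ℝ} (h : EB A (cm a)) : EB (-A) (cm a) := fun i j => by
  rw [Matrix.neg_apply, abs_neg]
  exact h i j

theorem eb_t {A : Mx} {a : ℝ} (h : EB A (cm a)) : EB Aᵀ (cm a) := fun i j => h j i

theorem eb_mul_row {A B : Mx} {a b : ℝ} (h : ∀ i, ∑ j, |A i j| ≤ a) (h' : EB B (cm b)) :
    EB (A * B) (cm (a * b)) := fun i k => by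
  have hb := eb_nonneg h'
  calc |(A * B) i k| = |∑ j, A i j * B j k| := rfl
    _ ≤ ∑ j, |A i j * B j k| := Finset.abs_sum_le_sum_abs _ _
    _ ≤ ∑ j, |A i j| * b := Finset.sum_le_sum fun j _ => by
        rw [abs_mul]
        exact mul_le_mul_of_nonneg_left (h' j k) (abs_nonneg _)
    _ = (∑ j, |A i j|) * b := (Finset.sum_mul _ _ _).symm
    _ ≤ a * b := mul_le_mul_of_nonneg_right (h i) hb

theorem eb_mul_col {A B : Mx} {a b : ℝ} (h : EB A (cm a)) (h' : ∀ k, ∑ j, |B j k| ≤ b) :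
    EB (A * B) (cm (b * a)) := by
  have := eb_t (eb_mul_row (A := Bᵀ) h' (eb_t h))
  rwa [← Matrix.transpose_mul, Matrix.transpose_transpose] at this

theorem row_of_eb {A : Mx} {a : ℝ} (h : EB A (cm a)) (i : Fin 3) : ∑ j, |A i j| ≤ 3 * a := by
  have h0 : |A i 0| ≤ a := h i 0
  have h1 : |A i 1| ≤ a := h i 1
  have h2 : |A i 2| ≤ a := h i 2
  simp only [Fin.sum_univ_three]
  linarith

theorem eb_mul {A B : Mx} {a b : ℝ} (h : EB A (cm a)) (h' : EB B (cm b)) :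
    EB (A * B) (cm (3 * a * b)) := eb_mul_row (row_of_eb h) h'

theorem eb_orth_mul {O A : Mx} {a : ℝ} (h : Orth O) (h' : EB A (cm a)) :
    EB (O * A) (cm (7 / 4 * a)) := eb_mul_row (row_abs h) h'

theorem eb_mul_orth {O A : Mx} {a : ℝ} (h : Orth O) (h' : EB A (cm a)) :
    EB (A * O) (cm (7 / 4 * a)) := eb_mul_col h' fun k => row_abs (orth_t h) k

theorem abs3 {a b c e : ℝ} (ha : |a| ≤ e) (hb : |b| ≤ e) (hc : |c| ≤ e) (he : e ≤ 1) :
    |a * b| ≤ e * e ∧ |a * b * c| ≤ e * e := by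
  have e0 : 0 ≤ e := (abs_nonneg _).trans ha
  have h1 : |a * b| ≤ e * e := by
    rw [abs_mul]
    exact mul_le_mul ha hb (abs_nonneg _) e0
  refine ⟨h1, ?_⟩
  rw [abs_mul]
  calc |a * b| * |c| ≤ e * e * 1 :=
        mul_le_mul h1 (hc.trans he) (abs_nonneg _) (mul_nonneg e0 e0)
    _ = e * e := mul_one _

/-- determinant near the identity -/
theorem det_near {E : Mx} {e : ℝ} (h : EB E (cm e)) (he : e ≤ 1 / 12) :
    |(1 + E).det - 1| ≤ 4 * e := by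
  have e0 := eb_nonneg h
  have e1 : e ≤ 1 := by linarith
  have H : ∀ i j, |E i j| ≤ e := h
  have ex : (1 + E).det - 1 = E 0 0 + E 1 1 + E 2 2 + (E 0 0 * E 1 1 + E 0 0 * E 2 2 +
      E 1 1 * E 2 2 - E 0 1 * E 1 0 - E 0 2 * E 2 0 - E 1 2 * E 2 1) + (E 0 0 * E 1 1 * E 2 2 -
      E 0 0 * E 1 2 * E 2 1 - E 0 1 * E 1 0 * E 2 2 + E 0 1 * E 1 2 * E 2 0 +
      E 0 2 * E 1 0 * E 2 1 - E 0 2 * E 1 1 * E 2 0) := by
    simp [Matrix.det_fin_three]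
    ring
  have p1 := abs3 (H 0 0) (H 1 1) (H 2 2) e1
  have p2 := abs3 (H 0 0) (H 2 2) (H 2 2) e1
  have p3 := abs3 (H 1 1) (H 2 2) (H 2 2) e1
  have p4 := abs3 (H 0 1) (H 1 0) (H 2 2) e1
  have p5 := abs3 (H 0 2) (H 2 0) (H 2 2) e1
  have p6 := abs3 (H 1 2) (H 2 1) (H 2 2) e1
  have p7 := abs3 (H 0 0) (H 1 2) (H 2 1) e1
  have p8 := abs3 (H 0 1) (H 1 2) (H 2 0) e1
  have p9 := abs3 (H 0 2) (H 1 0) (H 2 1) e1
  have p10 := abs3 (H 0 2) (H 1 1) (H 2 0) e1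
  have ee : 12 * (e * e) ≤ e := by nlinarith
  have q0 := abs_le.1 (H 0 0)
  have q1 := abs_le.1 (H 1 1)
  have q2 := abs_le.1 (H 2 2)
  simp only [abs_le] at p1 p2 p3 p4 p5 p6 p7 p8 p9 p10
  rw [ex, abs_le]
  constructor <;> linarith [p1.1.1, p1.1.2, p1.2.1, p1.2.2, p2.1.1, p2.1.2, p3.1.1, p3.1.2, p4.1.1,
    p4.1.2, p4.2.1, p4.2.2, p5.1.1, p5.1.2, p6.1.1, p6.1.2, p7.2.1, p7.2.2, p8.2.1, p8.2.2, p9.2.1,
    p9.2.2, p10.2.1, p10.2.2, q0.1, q0.2, q1.1, q1.2, q2.1, q2.2]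

/-! ## change of frame: `T = F.Q⁻¹ * F'.Q`, `P = F.Oᵀ * F'.O` -/

section change
variable {F F' : Fr} {δ : ℝ}

theorem P_orth (h : Orth F.O) (h' : Orth F'.O) : Orth (F.Oᵀ * F'.O) := orth_mul (orth_t h) h'

theorem P_t : (F.Oᵀ * F'.O)ᵀ = F'.Oᵀ * F.O := by
  rw [Matrix.transpose_mul, Matrix.transpose_transpose]

theorem T_inv (hQ : F.Q.det ≠ 0) (hQ' : F'.Q.det ≠ 0) : (F.Q⁻¹ * F'.Q) * (F'.Q⁻¹ * F.Q) = 1 := by
  rw [Matrix.mul_assoc, ← Matrix.mul_assoc F'.Q, q_inv hQ', Matrix.one_mul, inv_q hQ]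

theorem T_inv' (hQ : F.Q.det ≠ 0) (hQ' : F'.Q.det ≠ 0) : (F.Q⁻¹ * F'.Q)⁻¹ = F'.Q⁻¹ * F.Q :=
  Matrix.inv_eq_right_inv (T_inv hQ hQ')

theorem T_vec (hQ' : F'.Q.det ≠ 0) (v : V) :
    F.Q⁻¹ *ᵥ v = (F.Q⁻¹ * F'.Q) *ᵥ (F'.Q⁻¹ *ᵥ v) := by
  rw [← Matrix.mulVec_mulVec, q_inv_vec hQ']

theorem zc_chg (hQ' : F'.Q.det ≠ 0) (a b : V) :
    F.zc a - F.zc b = (F.Q⁻¹ * F'.Q) *ᵥ (F'.zc a - F'.zc b) := by
  rw [zc_sub, zc_sub, T_vec hQ']

theorem xc_chg (h' : Orth F'.O) (a b : V) :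
    F.xc a - F.xc b = (F.Oᵀ * F'.O) *ᵥ (F'.xc a - F'.xc b) := by
  rw [xc_sub, xc_sub, ← Matrix.mulVec_mulVec, orth_mulVec_t h']

theorem hm_chg (h' : Orth F'.O) (hQ' : F'.Q.det ≠ 0) (A : Mx) :
    F.hm A = (F.Q⁻¹ * F'.Q) * F'.hm A * (F'.Oᵀ * F.O) := by
  have e : (F.Q⁻¹ * F'.Q) * F'.hm A * (F'.Oᵀ * F.O) =
      F.Q⁻¹ * (F'.Q * F'.Q⁻¹) * A * (F'.O * F'.Oᵀ) * F.O := by
    simp only [Fr.hm, Matrix.mul_assoc]
  rw [e, q_inv hQ', h'.1, Matrix.mul_one, Matrix.mul_one, Fr.hm]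

theorem hm_unm' (A : Mx) : F.hm (F'.unm A) = (F.Q⁻¹ * F'.Q) * A * (F'.Oᵀ * F.O) := by
  simp only [Fr.hm, Fr.unm, Matrix.mul_assoc]

theorem cv1_unc' (S : Mx) : F.cv1 (F'.unc S) = (F.Q⁻¹ * F'.Q) * S * (F.Q⁻¹ * F'.Q)ᵀ := by
  simp only [Fr.cv1, Fr.unc, Matrix.mul_assoc, Matrix.transpose_mul]

theorem cv1_chg (hQ' : F'.Q.det ≠ 0) (S : Mx) :
    F.cv1 S = (F.Q⁻¹ * F'.Q) * F'.cv1 S * (F.Q⁻¹ * F'.Q)ᵀ := by
  rw [← cv1_unc', unc_cv1 hQ']

theorem T_det_eq : (F.Q⁻¹ * F'.Q).det = F'.Q.det / F.Q.det := by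
  rw [Matrix.det_mul, Matrix.det_nonsing_inv, Ring.inverse_eq_inv', div_eq_inv_mul]

theorem cpt_nonneg (c : Cpt δ F F') : 0 ≤ δ := eb_nonneg c.tq

theorem T_split : F.Q⁻¹ * F'.Q = F.Oᵀ * F'.O + (F.Q⁻¹ * F'.Q - F.Oᵀ * F'.O) := by abel

theorem T_eb (h : Orth F.O) (h' : Orth F'.O) (c : Cpt δ F F') :
    EB (F.Q⁻¹ * F'.Q) (cm (1 + δ)) := by
  rw [T_split]
  exact eb_add (orth_eb (P_orth h h')) c.tq

theorem T_row (h : Orth F.O) (h' : Orth F'.O) (c : Cpt δ F F') (i : Fin 3) :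
    ∑ j, |(F.Q⁻¹ * F'.Q) i j| ≤ 7 / 4 + 3 * δ := by
  refine le_trans (Finset.sum_le_sum fun j _ => ?_) ((Finset.sum_add_distrib).le.trans
    (add_le_add (row_abs (P_orth h h') i) (row_of_eb c.tq i)))
  rw [T_split]
  simpa using abs_add_le ((F.Oᵀ * F'.O) i j) ((F.Q⁻¹ * F'.Q - F.Oᵀ * F'.O) i j)

theorem T_col (h : Orth F.O) (h' : Orth F'.O) (c : Cpt δ F F') (j : Fin 3) :
    ∑ i, |(F.Q⁻¹ * F'.Q) i j| ≤ 7 / 4 + 3 * δ := by
  refine le_trans (Finset.sum_le_sum fun i _ => ?_) ((Finset.sum_add_distrib).le.trans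
    (add_le_add (row_abs (orth_t (P_orth h h')) j) (row_of_eb (eb_t c.tq) j)))
  rw [T_split]
  simpa using abs_add_le ((F.Oᵀ * F'.O) i j) ((F.Q⁻¹ * F'.Q - F.Oᵀ * F'.O) i j)

theorem T_norm (h : Orth F.O) (h' : Orth F'.O) (c : Cpt δ F F') (hδ : δ ≤ 1 / 12) (v : V) :
    ‖(F.Q⁻¹ * F'.Q) *ᵥ v‖ ≤ 2 * ‖v‖ :=
  norm_mv_row (fun i => (T_row h h' c i).trans (by linarith)) v

/-- vectors measured in two neighbouring frames -/
theorem vec_le (h : Orth F.O) (h' : Orth F'.O) (hQ' : F'.Q.det ≠ 0) (c : Cpt δ F F')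
    (hδ : δ ≤ 1 / 12) (v : V) : ‖F.Q⁻¹ *ᵥ v‖ ≤ 2 * ‖F'.Q⁻¹ *ᵥ v‖ := by
  rw [T_vec (F := F) hQ']
  exact T_norm h h' c hδ _

theorem zc_le (h : Orth F.O) (h' : Orth F'.O) (hQ' : F'.Q.det ≠ 0) (c : Cpt δ F F')
    (hδ : δ ≤ 1 / 12) (a b : V) : ‖F.zc a - F.zc b‖ ≤ 2 * ‖F'.zc a - F'.zc b‖ := by
  rw [zc_sub, zc_sub]
  exact vec_le h h' hQ' c hδ _

theorem T_e3 (c : Cpt δ F F') {i : Fin 3} (hi : i ≠ 2) :
    |(F.Q⁻¹ * F'.Q) i 2| ≤ 2 * δ ∧ |(F.Q⁻¹ * F'.Q) 2 i| ≤ 2 * δ := by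
  have a : |(F.Q⁻¹ * F'.Q) i 2 - (F.Oᵀ * F'.O) i 2| ≤ δ := c.tq i 2
  have b : |(F.Q⁻¹ * F'.Q) 2 i - (F.Oᵀ * F'.O) 2 i| ≤ δ := c.tq 2 i
  have d := c.o3 i hi
  simp only [abs_le] at a b d ⊢
  refine ⟨⟨?_, ?_⟩, ?_, ?_⟩ <;> linarith [a.1, a.2, b.1, b.2, d.1.1, d.1.2, d.2.1, d.2.2]

theorem P22 (h : Orth F.O) (h' : Orth F'.O) (c : Cpt δ F F') :
    1 - 2 * δ ^ 2 ≤ |(F.Oᵀ * F'.O) 2 2| ∧ |(F.Oᵀ * F'.O) 2 2| ≤ 1 := by
  have h1 := orth_row (P_orth h h') 2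
  have h2 := orth_abs_le (P_orth h h') 2 2
  have a := sq_le_sq' (abs_le.1 (c.o3 0 (by decide)).2).1 (abs_le.1 (c.o3 0 (by decide)).2).2
  have b := sq_le_sq' (abs_le.1 (c.o3 1 (by decide)).2).1 (abs_le.1 (c.o3 1 (by decide)).2).2
  simp only [Fin.sum_univ_three] at h1
  have e := sq_abs ((F.Oᵀ * F'.O) 2 2)
  refine ⟨?_, h2⟩
  nlinarith [abs_nonneg ((F.Oᵀ * F'.O) 2 2)]

theorem T22 (h : Orth F.O) (h' : Orth F'.O) (c : Cpt δ F F') :
    1 - 2 * δ ^ 2 - δ ≤ |(F.Q⁻¹ * F'.Q) 2 2| ∧ |(F.Q⁻¹ * F'.Q) 2 2| ≤ 1 + δ := by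
  have a : |(F.Q⁻¹ * F'.Q) 2 2 - (F.Oᵀ * F'.O) 2 2| ≤ δ := c.tq 2 2
  have b := abs_sub_abs_le_abs_sub ((F.Oᵀ * F'.O) 2 2) ((F.Q⁻¹ * F'.Q) 2 2)
  rw [abs_sub_comm] at a
  exact ⟨by linarith [(P22 h h' c).1], T_eb h h' c 2 2⟩

theorem T_det (h : Orth F.O) (h' : Orth F'.O) (c : Cpt δ F F') (hδ : δ ≤ 1 / 21) :
    |(F.Q⁻¹ * F'.Q).det - 1| ≤ 7 * δ := by
  have hP := P_orth h h'
  have e : F.Q⁻¹ * F'.Q =
      (F.Oᵀ * F'.O) * (1 + (F.Oᵀ * F'.O)ᵀ * (F.Q⁻¹ * F'.Q - F.Oᵀ * F'.O)) := by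
    rw [Matrix.mul_add, Matrix.mul_one, ← Matrix.mul_assoc _ (F.Oᵀ * F'.O)ᵀ, hP.1, Matrix.one_mul]
    abel
  have := det_near (eb_orth_mul (orth_t hP) c.tq) (by linarith)
  rw [e, Matrix.det_mul, hP.2, one_mul]
  linarith

theorem det_ratio (h : Orth F.O) (h' : Orth F'.O) (c : Cpt δ F F') (hδ : δ ≤ 1 / 21) :
    |F'.Q.det / F.Q.det - 1| ≤ 7 * δ := by
  rw [← T_det_eq]
  exact T_det h h' c hδ

theorem hm_le (h : Orth F.O) (h' : Orth F'.O) (hQ' : F'.Q.det ≠ 0) (c : Cpt δ F F')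
    (hδ : δ ≤ 1 / 12) {A : Mx} {a : ℝ} (hA : EB (F'.hm A) (cm a)) :
    EB (F.hm A) (cm (7 / 2 * a)) := by
  rw [hm_chg h' hQ']
  refine eb_mono (eb_mul_orth (P_orth h' h)
    (eb_mul_row (a := 2) (fun i => (T_row h h' c i).trans (by linarith)) hA)) (le_of_eq ?_)
  ring

theorem hm_near (h : Orth F.O) (h' : Orth F'.O) (hQ' : F'.Q.det ≠ 0) (c : Cpt δ F F')
    (hδ : δ ≤ 1 / 12) {A : Mx} {a : ℝ} (hA : EB (F'.hm A - 1) (cm a)) :
    EB (F.hm A - 1) (cm (7 / 2 * a + 7 / 4 * δ)) := by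
  have hP := (P_orth h h').1
  rw [P_t] at hP
  have e : F.hm A - 1 = (F.Q⁻¹ * F'.Q) * (F'.hm A - 1) * (F'.Oᵀ * F.O) +
      (F.Q⁻¹ * F'.Q - F.Oᵀ * F'.O) * (F'.Oᵀ * F.O) := by
    rw [hm_chg h' hQ', Matrix.mul_sub, Matrix.sub_mul, Matrix.sub_mul, hP, Matrix.mul_one]
    abel
  rw [e]
  refine eb_mono (eb_add (eb_mul_orth (P_orth h' h)
    (eb_mul_row (a := 2) (fun i => (T_row h h' c i).trans (by linarith)) hA))
    (eb_mul_orth (P_orth h' h) c.tq)) (le_of_eq ?_)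
  ring

end change

theorem dc_pos {N : ℕ} (hN : 1 ≤ N) : 0 < dc N :=
  Real.rpow_pos_of_pos (by exact_mod_cast hN) _

theorem dc_le {N : ℕ} (hN : 2 ≤ N) : dc N ≤ 1 / 10 ^ 7 := by
  have h2 : (2 : ℝ) ≤ N := by exact_mod_cast hN
  have h : (N : ℝ) ^ (-25 : ℝ) ≤ (2 : ℝ) ^ (-25 : ℝ) :=
    Real.rpow_le_rpow_of_nonpos (by norm_num) h2 (by norm_num)
  have e : (2 : ℝ) ^ (-25 : ℝ) = 1 / 2 ^ 25 := by
    rw [Real.rpow_neg (by norm_num), show (25 : ℝ) = (25 : ℕ) by norm_num, Real.rpow_natCast,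
      one_div]
  unfold dc np
  rw [e] at h
  exact h.trans (by norm_num)

/-! ## maps close to the identity -/

theorem bilip {h : V → V} (hd : Differentiable ℝ h) {s : Set V} (hs : Convex ℝ s)
    (hb : ∀ x ∈ s, EB (jm h x - 1) (cm (1 / 100))) {x y : V} (hx : x ∈ s) (hy : y ∈ s) :
    97 / 100 * ‖y - x‖ ≤ ‖h y - h x‖ ∧ ‖h y - h x‖ ≤ 103 / 100 * ‖y - x‖ := by
  have k := Bij.lip_on hd hs hb hx hy
  have e1 : y - x = (h y - h x) - ((h y - y) - (h x - x)) := by abel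
  have e2 : h y - h x = (y - x) + ((h y - y) - (h x - x)) := by abel
  have a1 := norm_sub_le (h y - h x) ((h y - y) - (h x - x))
  have a2 := norm_add_le (y - x) ((h y - y) - (h x - x))
  rw [← e1] at a1
  rw [← e2] at a2
  constructor <;> linarith

/-- local solution of `h x = z` -/
theorem loc_solve {h : V → V} (hd : Differentiable ℝ h) {p z : V} {ρ : ℝ}
    (hb : ∀ x ∈ Metric.closedBall p ρ, EB (jm h x - 1) (cm (1 / 100)))
    (hz : ‖z - h p‖ ≤ 97 / 100 * ρ) : ∃ x, ‖x - p‖ ≤ ρ ∧ h x = z := by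
  have hρ : 0 ≤ ρ := by linarith [norm_nonneg (z - h p)]
  have hp : p ∈ Metric.closedBall p ρ := Metric.mem_closedBall_self hρ
  have hc := convex_closedBall p ρ
  obtain ⟨x, hx, e⟩ := Bij.solve_on (φ := fun x => h x - x) Metric.isClosed_closedBall hp z
    (fun x hx => by
      have k := Bij.lip_on hd hc hb hp hx
      have a : ‖x - p‖ ≤ ρ := mem_closedBall_iff_norm.1 hx
      have e : z - (h x - x) - p = (z - h p) - ((h x - x) - (h p - p)) := by abel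
      rw [mem_closedBall_iff_norm, e]
      refine (norm_sub_le _ _).trans ?_
      linarith)
    (fun x hx y hy => (Bij.lip_on hd hc hb hx hy).trans
      (mul_le_mul_of_nonneg_right (by norm_num) (norm_nonneg _)))
  refine ⟨x, mem_closedBall_iff_norm.1 hx, ?_⟩
  rw [← e]
  abel

/-! ## the frames of a block -/

section frames
variable {N : ℕ} {lb : ℝ} {fr : Cu → Fr}

theorem lb_pos (G : FrOk N lb fr) : 0 < lb := (Real.exp_pos _).trans_le G.pos.1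

theorem D_pos (G : FrOk N lb fr) (hN : 1 ≤ N) : 0 < Dd N lb :=
  mul_pos (pow_pos (by exact_mod_cast hN) 4) (lb_pos G)

theorem x0_eq (G : FrOk N lb fr) (g : Cu) : (fr g).x0 = cen (Dd N lb) g := (G.fx g).1
theorem orth (G : FrOk N lb fr) (g : Cu) : Orth (fr g).O := (G.fx g).2.1
theorem det_pos (G : FrOk N lb fr) (g : Cu) : 0 < (fr g).Q.det := (G.fx g).2.2.1
theorem det_ne (G : FrOk N lb fr) (g : Cu) : (fr g).Q.det ≠ 0 := (det_pos G g).ne'

theorem xc_mem (G : FrOk N lb fr) {g : Cu} {r : ℝ} {x : V} :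
    (fr g).xc x ∈ RX (fr g).O (Dd N lb) r ↔ x ∈ box (Dd N lb) g r :=
  xc_mem_RX (orth G g) (x0_eq G g)

theorem xp_mem (G : FrOk N lb fr) {g : Cu} {r : ℝ} {x : V} :
    (fr g).xp x ∈ box (Dd N lb) g r ↔ x ∈ RX (fr g).O (Dd N lb) r := xp_mem_box (x0_eq G g)

theorem zc_bij (G : FrOk N lb fr) (g : Cu) : Function.Bijective (fr g).zc :=
  Function.bijective_iff_has_inverse.2 ⟨(fr g).zp, zp_zc (det_ne G g), zc_zp (det_ne G g)⟩

/-- two boxes with a common point have compatible frames -/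
theorem cpt_of_box (G : FrOk N lb fr) (hN : 1 ≤ N) {g g' : Cu} {r r' : ℝ} (hr : r + r' < 4)
    {x : V} (hx : x ∈ box (Dd N lb) g r) (hx' : x ∈ box (Dd N lb) g' r') :
    Cpt (dc N) (fr g) (fr g') :=
  G.cp g g' (box_nbr (D_pos G hN) (m := 3) (by push_cast; linarith) hx hx')

theorem nbr_vec (G : FrOk N lb fr) (hN : 2 ≤ N) {g g' : Cu} (h : Nbr 3 g g') (v : V) :
    ‖(fr g).Q⁻¹ *ᵥ v‖ ≤ 2 * ‖(fr g').Q⁻¹ *ᵥ v‖ :=
  vec_le (orth G g) (orth G g') (det_ne G g') (G.cp g g' h) ((dc_le hN).trans (by norm_num)) v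

theorem nbr_zc (G : FrOk N lb fr) (hN : 2 ≤ N) {g g' : Cu} (h : Nbr 3 g g') (a b : V) :
    ‖(fr g).zc a - (fr g).zc b‖ ≤ 2 * ‖(fr g').zc a - (fr g').zc b‖ :=
  zc_le (orth G g) (orth G g') (det_ne G g') (G.cp g g' h) ((dc_le hN).trans (by norm_num)) a b

end frames

/-! ## the map `Z0` -/

section geo
variable {N : ℕ} {lb : ℝ} {fr : Cu → Fr} {Z0 : V → V}

theorem hat_xc {F : Fr} (h : Orth F.O) (Z : V → V) (x : V) : F.hat Z (F.xc x) = F.zc (Z x) := by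
  rw [Fr.hat, xp_xc h]

/-- displacement in the frame of a cube -/
theorem disp (G : Geo N lb fr Z0) (hN : 1 ≤ N) {g : Cu} {r : ℝ} (hr : r ≤ 12 / 5) {x : V}
    (hx : x ∈ box (Dd N lb) g r) :
    ‖(fr g).O *ᵥ ((fr g).zc (Z0 x) - (fr g).xc x)‖ ≤ Dd N lb / 2000 := by
  have h := (G.nr g _ (RX_mono _ (D_pos G.toFrOk hN).le hr ((xc_mem G.toFrOk).2 hx))).2
  rwa [hat_xc (orth G.toFrOk g)] at h

theorem fwd (G : Geo N lb fr Z0) (hN : 1 ≤ N) {g : Cu} {r : ℝ} (hr : r ≤ 12 / 5) {x : V}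
    (hx : x ∈ box (Dd N lb) g r) :
    (fr g).zc (Z0 x) ∈ RX (fr g).O (Dd N lb) (r + 1 / 2000) := by
  have h := disp G hN hr hx
  have h1 : ‖(fr g).O *ᵥ (fr g).xc x‖ ≤ r * Dd N lb := (xc_mem G.toFrOk).2 hx
  have e : (fr g).O *ᵥ (fr g).zc (Z0 x) =
      (fr g).O *ᵥ (fr g).xc x + (fr g).O *ᵥ ((fr g).zc (Z0 x) - (fr g).xc x) := by
    rw [← Matrix.mulVec_add]
    congr 1
    abel
  show ‖(fr g).O *ᵥ (fr g).zc (Z0 x)‖ ≤ (r + 1 / 2000) * Dd N lb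
  rw [e]
  refine (norm_add_le _ _).trans ?_
  linarith

theorem bwd (G : Geo N lb fr Z0) (hN : 1 ≤ N) {g : Cu} {r : ℝ} (h0 : 0 ≤ r)
    (hr : r + 1 / 2000 ≤ 12 / 5) {z : V} (hz : z ∈ RX (fr g).O (Dd N lb) r) :
    ∃ x ∈ box (Dd N lb) g (r + 1 / 2000), Z0 x = (fr g).zp z := by
  have hD := D_pos G.toFrOk hN
  obtain ⟨y, hy, e⟩ := (bij.2 (fr g).O (Dd N lb) (r + 1 / 2000) (1 / 2000) ((fr g).hat Z0)
    (orth G.toFrOk g) hD (by linarith) (by norm_num) ((hat_sm _ G.sm).of_le (by simp))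
    (fun x hx => by
      have h := G.nr g x (RX_mono _ hD.le hr hx)
      exact ⟨h.1, by linarith [h.2]⟩)).2 z (by rwa [add_sub_cancel_right])
  exact ⟨(fr g).xp y, (xp_mem G.toFrOk).2 hy, by rw [← e, zp_hat (det_ne G.toFrOk g)]⟩

/-- the converse of `fwd` -/
theorem back (G : Geo N lb fr Z0) (hN : 1 ≤ N) {g : Cu} {r : ℝ} (h0 : 0 ≤ r)
    (hr : r + 1 / 2000 ≤ 12 / 5) {x : V} (hz : (fr g).zc (Z0 x) ∈ RX (fr g).O (Dd N lb) r) :
    x ∈ box (Dd N lb) g (r + 1 / 2000) := by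
  obtain ⟨y, hy, e⟩ := bwd G hN h0 hr hz
  rw [zp_zc (det_ne G.toFrOk g)] at e
  rwa [← G.bij.1 e]

theorem img_sub (G : Geo N lb fr Z0) (hN : 1 ≤ N) (g : Cu) {r : ℝ} (h0 : 0 ≤ r) (hr : r ≤ 239 / 100) :
    (fr g).zp '' RX (fr g).O (Dd N lb) r ⊆ Z0 '' box (Dd N lb) g (r + 1 / 1000) := by
  rintro _ ⟨z, hz, rfl⟩
  obtain ⟨x, hx, e⟩ := bwd G hN h0 (by linarith) hz
  exact ⟨x, box_mono (D_pos G.toFrOk hN).le (by linarith) g hx, e⟩

theorem sub_img (G : Geo N lb fr Z0) (hN : 1 ≤ N) (g : Cu) {r : ℝ} (hr : r ≤ 12 / 5) :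
    Z0 '' box (Dd N lb) g r ⊆ (fr g).zp '' RX (fr g).O (Dd N lb) (r + 1 / 2000) := by
  rintro _ ⟨x, hx, rfl⟩
  exact ⟨_, fwd G hN hr hx, zp_zc (det_ne G.toFrOk g) _⟩

/-- every target point is in the core of some cube -/
theorem cover (G : Geo N lb fr Z0) (hN : 1 ≤ N) (p : V) :
    ∃ g, (fr g).zc p ∈ RX (fr g).O (Dd N lb) (1 / 2 + 1 / 2000) := by
  obtain ⟨x, rfl⟩ := G.bij.2 p
  obtain ⟨g, hg⟩ := exists_box (D_pos G.toFrOk hN) x
  exact ⟨g, fwd G hN (by norm_num) hg⟩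

/-- a target point seen by two cubes -/
theorem two_box (G : Geo N lb fr Z0) (hN : 1 ≤ N) {g g' : Cu} {r r' : ℝ} (h0 : 0 ≤ r)
    (h0' : 0 ≤ r') (hr : r ≤ 239 / 100) (hr' : r' ≤ 239 / 100) {p : V}
    (hp : (fr g).zc p ∈ RX (fr g).O (Dd N lb) r) (hp' : (fr g').zc p ∈ RX (fr g').O (Dd N lb) r') :
    ∃ x, Z0 x = p ∧ x ∈ box (Dd N lb) g (r + 1 / 2000) ∧ x ∈ box (Dd N lb) g' (r' + 1 / 2000) := by
  obtain ⟨x, rfl⟩ := G.bij.2 p
  exact ⟨x, rfl, back G hN h0 (by linarith) hp, back G hN h0' (by linarith) hp'⟩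

theorem nbr_of (G : Geo N lb fr Z0) (hN : 1 ≤ N) {g g' : Cu} {r r' : ℝ} (h0 : 0 ≤ r)
    (h0' : 0 ≤ r') (hr : r ≤ 239 / 100) (hr' : r' ≤ 239 / 100) {m : ℤ}
    (hm : r + r' + 1 / 1000 < m + 1) {p : V}
    (hp : (fr g).zc p ∈ RX (fr g).O (Dd N lb) r) (hp' : (fr g').zc p ∈ RX (fr g').O (Dd N lb) r') :
    Nbr m g g' := by
  obtain ⟨x, -, a, b⟩ := two_box G hN h0 h0' hr hr' hp hp'
  exact box_nbr (D_pos G.toFrOk hN) (by linarith) a b

/-- the target regions of one colour are disjoint -/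
theorem col_unique (G : Geo N lb fr Z0) (hN : 1 ≤ N) {g g' : Cu} {r r' : ℝ} (h0 : 0 ≤ r)
    (h0' : 0 ≤ r') (hm : r + r' + 1 / 1000 < 2) (hc : col g = col g') {p : V}
    (hp : (fr g).zc p ∈ RX (fr g).O (Dd N lb) r) (hp' : (fr g').zc p ∈ RX (fr g').O (Dd N lb) r') :
    g = g' :=
  col_eq_of_nbr hc (nbr_of G hN h0 h0' (by linarith) (by linarith) (by push_cast; linarith) hp hp')

/-- a point of a neighbouring region, seen from `g'` -/
theorem see (G : Geo N lb fr Z0) (hN : 1 ≤ N) {g g' : Cu} {m : ℤ} (h : Nbr m g g') {r : ℝ}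
    (h0 : 0 ≤ r) (hm0 : 0 ≤ m) (hr : r + m ≤ 239 / 100) {p : V}
    (hp : (fr g).zc p ∈ RX (fr g).O (Dd N lb) r) :
    (fr g').zc p ∈ RX (fr g').O (Dd N lb) (r + m + 1 / 1000) := by
  have hD := D_pos G.toFrOk hN
  have hm : (0 : ℝ) ≤ m := by exact_mod_cast hm0
  obtain ⟨x, rfl⟩ := G.bij.2 p
  have a := box_of_nbr hD h (back G hN h0 (by linarith) hp)
  exact RX_mono _ hD.le (by linarith) (fwd G hN (by linarith) a)

/-- `Z0` is bi-Lipschitz in the frame of a cube -/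
theorem lip_hat (G : Geo N lb fr Z0) {g : Cu} {x y : V} (hx : x ∈ box (Dd N lb) g (12 / 5))
    (hy : y ∈ box (Dd N lb) g (12 / 5)) :
    97 / 100 * ‖(fr g).xc y - (fr g).xc x‖ ≤ ‖(fr g).zc (Z0 y) - (fr g).zc (Z0 x)‖ ∧
    ‖(fr g).zc (Z0 y) - (fr g).zc (Z0 x)‖ ≤ 103 / 100 * ‖(fr g).xc y - (fr g).xc x‖ := by
  have h := bilip ((hat_sm (fr g) G.sm).differentiable Inv.top_ne) (RX_convex _ _ _)
    (fun x hx => (G.nr g x hx).1) ((xc_mem G.toFrOk).2 hx) ((xc_mem G.toFrOk).2 hy)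
  rwa [hat_xc (orth G.toFrOk g), hat_xc (orth G.toFrOk g)] at h

theorem lip (G : Geo N lb fr Z0) {g : Cu} {x y : V} (hx : x ∈ box (Dd N lb) g (12 / 5))
    (hy : y ∈ box (Dd N lb) g (12 / 5)) :
    ‖y - x‖ ≤ 2 * ‖(fr g).zc (Z0 y) - (fr g).zc (Z0 x)‖ ∧
    ‖(fr g).zc (Z0 y) - (fr g).zc (Z0 x)‖ ≤ 2 * ‖y - x‖ := by
  have h := lip_hat G hx hy
  have a := norm_orth (orth_t (orth G.toFrOk g)) (y - x)
  have b := norm_orth' (orth_t (orth G.toFrOk g)) (y - x)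
  rw [xc_sub] at h
  constructor <;> linarith [h.1, h.2, norm_nonneg (y - x),
    norm_nonneg ((fr g).zc (Z0 y) - (fr g).zc (Z0 x))]

/-- the differential of `Z0` in the frame of a cube -/
theorem hm_Z0 (G : Geo N lb fr Z0) {g : Cu} {x : V} (hx : x ∈ box (Dd N lb) g (12 / 5)) :
    EB ((fr g).hm (jm Z0 x) - 1) (cm (1 / 100)) := by
  have h := (G.nr g _ ((xc_mem G.toFrOk).2 hx)).1
  rwa [(K3.p5 (fr g) (G.sm.differentiable Inv.top_ne) _).1, xp_xc (orth G.toFrOk g)] at h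

end geo

end GeoP
end
end Pool.Agent.MP_20bec2_an.T3

end MrgPart0

-- ======== part 1: formerly Pool.Agent.MP_20bec2_an.T3.FtrA
section MrgPart1

/-! Row FTR, part 1: nearly block diagonal matrices and derivatives of sandwiches. -/

set_option autoImplicit false
open Set Filter Matrix Topology

namespace Pool.Agent.MP_20bec2_an.T3.Ftr
noncomputable section

def Bd (A : Mx) (a : ℝ) : Prop := ∀ i j, |A i j| ≤ a

section
variable {A B C G : Mx} {a b k e m : ℝ}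

lemma Bd.nn (h : Bd A a) : 0 ≤ a := (abs_nonneg _).trans (h 0 0)
lemma Bd.mono (h : Bd A a) (hb : a ≤ b) : Bd A b := fun i j => (h i j).trans hb
lemma Bd.tr (h : Bd A a) : Bd Aᵀ a := fun i j => h j i
lemma Bd.add (h : Bd A a) (h' : Bd B b) : Bd (A + B) (a + b) := fun i j =>
  (abs_add_le _ _).trans (add_le_add (h i j) (h' i j))
lemma Bd.sub (h : Bd A a) (h' : Bd B b) : Bd (A - B) (a + b) := fun i j =>
  (abs_sub _ _).trans (add_le_add (h i j) (h' i j))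
lemma abs_mul_le {x y p q : ℝ} (h : |x| ≤ p) (h' : |y| ≤ q) : |x * y| ≤ p * q := by
  rw [abs_mul]; exact mul_le_mul h h' (abs_nonneg _) ((abs_nonneg _).trans h)
lemma Bd.mul (h : Bd A a) (h' : Bd B b) : Bd (A * B) (3 * a * b) := fun i j => by
  rw [mul_apply, Fin.sum_univ_three]
  linarith [abs_add_three (A i 0 * B 0 j) (A i 1 * B 1 j) (A i 2 * B 2 j),
    abs_mul_le (h i 0) (h' 0 j), abs_mul_le (h i 1) (h' 1 j), abs_mul_le (h i 2) (h' 2 j)]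

lemma abs_sum_le {x t : V} {W : ℝ} (h : ∀ l, |x l| ≤ W) (ht : ∑ l, |t l| ≤ k) :
    |∑ l, t l * x l| ≤ k * W := by
  have hW : 0 ≤ W := (abs_nonneg _).trans (h 0)
  refine (Finset.abs_sum_le_sum_abs _ _).trans (le_trans ?_ (mul_le_mul_of_nonneg_right ht hW))
  rw [Finset.sum_mul]
  exact Finset.sum_le_sum fun l _ => abs_mul_le le_rfl (h l)

lemma two {x y p q g : ℝ} (hp : |p| ≤ g) (hq : |q| ≤ g) (h : |x| + |y| ≤ k) :
    |x * p + y * q| ≤ k * g := by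
  have := mul_le_mul_of_nonneg_right h ((abs_nonneg _).trans hp)
  linarith [abs_add_le (x * p) (y * q), abs_mul_le (le_refl |x|) hp, abs_mul_le (le_refl |y|) hq]

/-- nearly block diagonal -/
structure Blk (k e : ℝ) (A : Mx) : Prop where
  col : ∀ b, b ≠ 2 → |A 0 b| + |A 1 b| ≤ k
  row : ∀ a, a ≠ 2 → |A a 0| + |A a 1| ≤ k
  d : |A 2 2| ≤ k
  off : ∀ a, a ≠ 2 → |A a 2| ≤ e ∧ |A 2 a| ≤ e

lemma Blk.tr (h : Blk k e A) : Blk k e Aᵀ := ⟨h.row, h.col, h.d, fun a ha => (h.off a ha).symm⟩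
lemma Blk.nn (h : Blk k e A) : 0 ≤ e := (abs_nonneg _).trans (h.off 0 (by decide)).1
lemma Blk.cs (h : Blk k e A) (i : Fin 3) : ∑ l, |A l i| ≤ k + 2 * e := by
  rw [Fin.sum_univ_three]
  by_cases hi : i = 2
  · subst hi
    linarith [h.d, (h.off 0 (by decide)).1, (h.off 1 (by decide)).1]
  · linarith [h.col i hi, (h.off i hi).2, h.nn]

def b0 (A : Mx) : Mx := !![A 0 0, A 0 1, 0; A 1 0, A 1 1, 0; 0, 0, A 2 2]
def um (A : Mx) (M : ℝ) : Mx :=
  !![A 0 0, A 0 1, A 0 2 * M⁻¹; A 1 0, A 1 1, A 1 2 * M⁻¹; A 2 0 * M, A 2 1 * M, A 2 2]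

lemma b0_tr (A : Mx) : b0 Aᵀ = (b0 A)ᵀ := by
  ext i j; fin_cases i <;> fin_cases j <;> rfl
lemma um_one (A : Mx) : um A 1 = A := by
  ext i j; fin_cases i <;> fin_cases j <;> simp [um]

lemma Blk.bd0 (h : Blk k e A) : Bd (b0 A) k := by
  have h0 := h.col 0 (by decide); have h1 := h.col 1 (by decide); have := h.d
  have := abs_nonneg (A 0 0); have := abs_nonneg (A 1 0); have := abs_nonneg (A 0 1)
  have := abs_nonneg (A 1 1)
  intro i j
  fin_cases i <;> fin_cases j <;> simp [b0] <;> linarith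

lemma off_bd {p q : ℝ} (h : Blk k e A) (hp : |p| ≤ a) (hq : |q| ≤ a) :
    Bd !![0, 0, A 0 2 * p; 0, 0, A 1 2 * p; A 2 0 * q, A 2 1 * q, 0] (e * a) := by
  have h0 := h.off 0 (by decide); have h1 := h.off 1 (by decide)
  have z : |(0 : ℝ)| ≤ e * a := by
    rw [abs_zero]; exact mul_nonneg h.nn ((abs_nonneg _).trans hp)
  intro i j
  fin_cases i <;> fin_cases j
  exacts [z, z, abs_mul_le h0.1 hp, z, z, abs_mul_le h1.1 hp, abs_mul_le h0.2 hq,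
    abs_mul_le h1.2 hq, z]

lemma inv_bd {M : ℝ} (hM : |M - 1| ≤ 1 / 10) : 0 < M ∧ |M| ≤ 2 ∧ |M⁻¹| ≤ 5 / 4 := by
  obtain ⟨h1, h2⟩ := abs_le.1 hM
  have h0 : 0 < M := by linarith
  refine ⟨h0, by rw [abs_of_pos h0]; linarith, ?_⟩
  rw [abs_of_pos (inv_pos.2 h0), inv_le_comm₀ h0 (by norm_num)]
  norm_num; linarith

lemma Blk.um_sub (h : Blk k e A) {M : ℝ} (hM : |M - 1| ≤ 1 / 10) : Bd (um A M - b0 A) (e * 2) := by
  have : um A M - b0 A = !![0, 0, A 0 2 * M⁻¹; 0, 0, A 1 2 * M⁻¹; A 2 0 * M, A 2 1 * M, 0] := by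
    ext i j; fin_cases i <;> fin_cases j <;> simp [um, b0]
  rw [this]
  exact off_bd h ((inv_bd hM).2.2.trans (by norm_num)) (inv_bd hM).2.1

lemma Blk.um_bd (h : Blk k e A) {M : ℝ} (hM : |M - 1| ≤ 1 / 10) : Bd (um A M) (e * 2 + k) := by
  simpa only [sub_add_cancel] using (h.um_sub hM).add h.bd0

lemma Blk.left (h : Blk k e A) {W : Mx} (hW : ∀ j, W 1 j = W 0 j) (hG : EB G W) (i j : Fin 3) :
    |(b0 A * G) i j| ≤ k * W i j := by
  have h1 := hG 1 j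
  rw [hW] at h1
  rw [mul_apply, Fin.sum_univ_three]
  fin_cases i
  · simpa [b0] using two (hG 0 j) h1 (h.row 0 (by decide))
  · simpa [b0, hW] using two (hG 0 j) h1 (h.row 1 (by decide))
  · simpa [b0] using abs_mul_le h.d (hG 2 j)

lemma sand0 (h : Blk k e A) (h' : Blk k e C) {W : Mx} (hW : ∀ j, W 1 j = W 0 j)
    (hW' : ∀ j, W j 1 = W j 0) (hG : EB G W) (i j : Fin 3) :
    |(b0 A * G * b0 C) i j| ≤ k ^ 2 * W i j := by
  have := h'.tr.left (G := (b0 A * G)ᵀ) (W := (k • W)ᵀ) (fun j => congrArg (k * ·) (hW' j))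
    (fun i j => h.left hW hG j i) j i
  rw [b0_tr, ← transpose_mul, transpose_apply] at this
  refine this.trans (le_of_eq ?_)
  simp only [transpose_apply, Matrix.smul_apply, smul_eq_mul]; ring

lemma sand_err {A' C' : Mx} (hA : Bd (A' - A) e) (hC : Bd (C' - C) e) (h0 : Bd A 6) (h1 : Bd C' 7)
    (hG : Bd G m) : Bd (A' * G * C' - A * G * C) (117 * e * m) := by
  have : A' * G * C' - A * G * C = (A' - A) * G * C' + A * G * (C' - C) := by noncomm_ring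
  rw [this]
  exact (((hA.mul hG).mul h1).add ((h0.mul hG).mul hC)).mono (le_of_eq (by ring))

lemma Blk.err (h : Blk 6 e A) (he : e ≤ 1 / 20) {M : ℝ} (hM : |M - 1| ≤ 1 / 10) (hG : Bd G m) :
    Bd ((um A M)ᵀ * G * um A M - (b0 A)ᵀ * G * b0 A) (234 * e * m) :=
  (sand_err (h.um_sub hM).tr (h.um_sub hM) h.bd0.tr ((h.um_bd hM).mono (by linarith)) hG).mono
    (le_of_eq (by ring))

/-! ## scaled matrices -/

def sc (u v : V) (A : Mx) : Mx := Matrix.of fun a b => A a b * v b / u a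

lemma sc_mul {u v w : V} (hv : ∀ i, 0 < v i) : sc u w (A * B) = sc u v A * sc v w B := by
  ext i j
  simp only [sc, of_apply, mul_apply, Finset.sum_mul, Finset.sum_div]
  refine Finset.sum_congr rfl fun l _ => ?_
  have := hv l
  field_simp

lemma abs_sc {u v : V} (hu : ∀ i, 0 < u i) (hv : ∀ i, 0 < v i) (i j : Fin 3) :
    |sc u v A i j| ≤ a ↔ |A i j| * v j ≤ a * u i := by
  simp only [sc, of_apply, abs_div, abs_mul, abs_of_pos (hu i), abs_of_pos (hv j)]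
  exact div_le_iff₀ (hu i)

lemma vm {u v x : V} {W : ℝ} (hu : ∀ i, 0 < u i) (hv : ∀ i, 0 < v i) (hx : ∀ l, u l * |x l| ≤ W)
    {i : Fin 3} (h : ∑ l, |sc u v A l i| ≤ k) : v i * |(x ᵥ* A) i| ≤ k * W := by
  have := abs_sum_le (x := fun l => u l * x l) (fun l => by
    rw [abs_mul, abs_of_pos (hu l)]; exact hx l) h
  refine le_of_eq_of_le ?_ this
  rw [← abs_of_pos (hv i), ← abs_mul]
  congr 1
  simp only [sc, of_apply, vecMul, dotProduct, Finset.mul_sum]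
  refine Finset.sum_congr rfl fun l _ => ?_
  have := hu l
  field_simp

def gm (u : V) (J : Mx) (M : ℝ) : Mx :=
  (J * dg3 (u 0) (u 1) (u 2 / M))ᵀ * (J * dg3 (u 0) (u 1) (u 2 / M))

lemma gm_mul {u : V} (v : V) (hu : ∀ i, 0 < u i) (J S : Mx) {M : ℝ} (hM : M ≠ 0) :
    gm v (J * S) M = (um (sc u v S) M)ᵀ * gm u J M * um (sc u v S) M := by
  have : S * dg3 (v 0) (v 1) (v 2 / M) = dg3 (u 0) (u 1) (u 2 / M) * um (sc u v S) M := by
    have := hu 0; have := hu 1; have := hu 2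
    ext i j
    rw [dg3, dg3, mul_diagonal, diagonal_mul]
    fin_cases i <;> fin_cases j <;> simp [um, sc] <;> field_simp
  rw [gm, gm, Matrix.mul_assoc J S, this, ← Matrix.mul_assoc J, transpose_mul]
  simp only [Matrix.mul_assoc]

/-- close to an orthogonal matrix that is block diagonal up to `x` -/
structure Nr (x : ℝ) (rot : Prop) (A : Mx) : Prop where
  all : Bd A (1 + x)
  off : ∀ a, a ≠ 2 → |A a 2| ≤ x ∧ |A 2 a| ≤ x
  al : (|A 0 1| ≤ x ∧ |A 1 0| ≤ x) ∨ rot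

lemma Nr.blk {x L r : ℝ} {rot : Prop} {u v : V} (h : Nr x rot A) (hu : ∀ i, 0 < u i)
    (hv : ∀ i, 0 < v i) (hL : ∀ a b, v b ≤ L * u a) (hx : x ≤ 1 / 100) (he : x * L ≤ e)
    (he' : e ≤ 1 / 20) (h0 : v 0 ≤ 11 / 10 * u 0) (h1 : v 1 ≤ 11 / 10 * u 1) (h2 : v 2 ≤ r * u 2)
    (hr : rot → v 0 ≤ r * u 1 ∧ v 1 ≤ 11 / 10 * u 0) (hr1 : 11 / 10 ≤ r)
    (hk : 101 / 100 * (11 / 10 + r) ≤ k) : Blk k e (sc u v A) := by
  have big : ∀ i j t, v j ≤ t * u i → |sc u v A i j| ≤ 101 / 100 * t := fun i j t ht =>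
    (abs_sc hu hv i j).2 (by
      rw [mul_assoc]
      exact mul_le_mul ((h.all i j).trans (by linarith)) ht (hv j).le (by norm_num))
  have sml : ∀ i j, |A i j| ≤ x → |sc u v A i j| ≤ e := fun i j ht =>
    (abs_sc hu hv i j).2 ((mul_le_mul ht (hL i j) (hv j).le ((abs_nonneg _).trans ht)).trans (by
      rw [← mul_assoc]; exact mul_le_mul_of_nonneg_right he (hu i).le))
  have a0 := big 0 0 _ h0
  have a1 := big 1 1 _ h1
  have a2 : |sc u v A 0 1| ≤ 101 / 100 * (11 / 10) ∧ |sc u v A 1 0| ≤ 101 / 100 * r := by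
    rcases h.al with h' | h'
    · exact ⟨by linarith [sml _ _ h'.1], by linarith [sml _ _ h'.2]⟩
    · exact ⟨big _ _ _ (hr h').2, big _ _ _ (hr h').1⟩
  refine ⟨fun b hb => ?_, fun b hb => ?_, by linarith [big 2 2 _ h2], fun b hb =>
    ⟨sml _ _ (h.off b hb).1, sml _ _ (h.off b hb).2⟩⟩ <;> fin_cases b <;>
    simp only [Fin.zero_eta, Fin.mk_one, Fin.reduceFinMk] at hb ⊢ <;>
    first | exact absurd rfl hb | linarith [a2.1, a2.2]

lemma nr_of {O : Mx} {x y : ℝ} {rot : Prop} (hO : Orth O) (h : Bd (A - O) y)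
    (o3 : ∀ i, i ≠ 2 → |O i 2| ≤ x ∧ |O 2 i| ≤ x) (al : (|O 0 1| ≤ x ∧ |O 1 0| ≤ x) ∨ rot) :
    Nr (x + y) rot A := by
  have key : ∀ i j t, |O i j| ≤ t → |A i j| ≤ t + y := fun i j t ht => by
    have h1 : |A i j - O i j| ≤ y := h i j
    linarith [abs_sub_abs_le_abs_sub (A i j) (O i j)]
  have hx : 0 ≤ x := (abs_nonneg _).trans (o3 0 (by decide)).1
  exact ⟨fun i j => by linarith [key i j 1 (Prof.orth_abs_le hO i j)],
    fun a ha => ⟨key _ _ _ (o3 a ha).1, key _ _ _ (o3 a ha).2⟩,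
    al.imp_left fun h => ⟨key _ _ _ h.1, key _ _ _ h.2⟩⟩

lemma inv_near {O S T : Mx} {y : ℝ} (hO : Orth O) (h : Bd (T - O) y) (hy : y ≤ 1 / 100)
    (e : S * T = 1) : Bd (S - Oᵀ) (12 * y) := by
  have e1 : Oᵀ - S = S * ((T - O) * Oᵀ) := by
    rw [Matrix.sub_mul, hO.1, Matrix.mul_sub, ← Matrix.mul_assoc, e, Matrix.one_mul, Matrix.mul_one]
  have h1 : Bd ((T - O) * Oᵀ) (3 * y * 1) := h.mul (Bd.tr (Prof.orth_abs_le hO))
  have h2 : ∀ i j, |(S - Oᵀ) i j| ≤ (∑ l, |S i l|) * (3 * y * 1) := fun i j => by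
    rw [Matrix.sub_apply, abs_sub_comm, ← Matrix.sub_apply, e1, mul_apply]
    exact abs_sum_le (fun l => h1 l j) le_rfl
  intro i j
  have h3 : ∀ l, |S i l| ≤ 1 + (∑ l, |S i l|) * (3 * y * 1) := fun l => by
    have h0 : |S i l - O l i| ≤ _ := h2 i l
    linarith [abs_sub_abs_le_abs_sub (S i l) (O l i), Prof.orth_abs_le hO l i]
  have h4 : 0 ≤ ∑ l, |S i l| := Finset.sum_nonneg fun _ _ => abs_nonneg _
  have h5 : ∑ l, |S i l| ≤ 4 := by
    have := Fin.sum_univ_three fun l => |S i l|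
    nlinarith [h3 0, h3 1, h3 2]
  nlinarith [h2 i j, h.nn]

lemma det_le {O : Mx} (hO : Orth O) (h : Bd (A - O) (1 / 50)) : A.det ≤ 2 := by
  have h1 : Bd ((A - O) * Oᵀ) (3 * (1 / 50) * 1) := h.mul (Bd.tr (Prof.orth_abs_le hO))
  have e : A.det = ((A - O) * Oᵀ + 1).det := by
    rw [Matrix.sub_mul, hO.1, sub_add_cancel, det_mul, det_transpose, hO.2, mul_one]
  set E := (A - O) * Oᵀ
  have d : ∀ i, |(E + 1) i i| ≤ 11 / 10 := fun i => by
    rw [Matrix.add_apply, one_apply_eq]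
    linarith [abs_add_le (E i i) 1, h1 i i, abs_one (α := ℝ)]
  have o : ∀ i j, i ≠ j → |(E + 1) i j| ≤ 1 / 10 := fun i j hij => by
    rw [Matrix.add_apply, one_apply_ne hij, add_zero]
    linarith [h1 i j]
  rw [e, det_fin_three]
  linarith [abs_le.1 (abs_mul_le (abs_mul_le (d 0) (d 1)) (d 2)),
    abs_le.1 (abs_mul_le (abs_mul_le (d 0) (o 1 2 (by decide))) (o 2 1 (by decide))),
    abs_le.1 (abs_mul_le (abs_mul_le (o 0 1 (by decide)) (o 1 0 (by decide))) (d 2)),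
    abs_le.1 (abs_mul_le (abs_mul_le (o 0 1 (by decide)) (o 1 2 (by decide))) (o 2 0 (by decide))),
    abs_le.1 (abs_mul_le (abs_mul_le (o 0 2 (by decide)) (o 1 0 (by decide))) (o 2 1 (by decide))),
    abs_le.1 (abs_mul_le (abs_mul_le (o 0 2 (by decide)) (d 1)) (o 2 0 (by decide)))]

end

/-! ## derivatives of matrix functions -/

def Dm (k : Fin 3) (G : V → Mx) (x : V) : Mx := Matrix.of fun a b => pd k (fun w => G w a b) x
def DifM (G : V → Mx) (x : V) : Prop := ∀ a b, DifferentiableAt ℝ (fun w => G w a b) x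

variable {G H : V → Mx} {x : V}

lemma DifM.tr (h : DifM G x) : DifM (fun w => (G w)ᵀ) x := fun a b => h b a
lemma DifM.mul (h : DifM G x) (h' : DifM H x) : DifM (fun w => G w * H w) x := fun a b =>
  DifferentiableAt.fun_sum (u := Finset.univ) fun l _ => (h a l).mul (h' l b)
lemma Dm_mul (h : DifM G x) (h' : DifM H x) (k : Fin 3) :
    Dm k (fun w => G w * H w) x = Dm k G x * H x + G x * Dm k H x := by
  ext a b
  simp only [Dm, of_apply, mul_apply, Matrix.add_apply, ← Finset.sum_add_distrib]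
  exact (pd_sum_at _ (fun l _ => (h a l).fun_mul (h' l b)) k).trans
    (Finset.sum_congr rfl fun l _ => pd_mul_at (h a l) (h' l b) k)
lemma Dm_congr (e : G =ᶠ[𝓝 x] H) (k : Fin 3) : Dm k G x = Dm k H x := by
  ext a b
  exact pd_congr (e.mono fun w hw => congrFun (congrFun hw a) b) k

lemma dif_gm {J : V → Mx} {M : V → ℝ} (u : V) (hJ : SmM J) (hM : Sm M) (h0 : M x ≠ 0) :
    DifM (fun w => gm u (J w) (M w)) x := by
  have h1 : DifM (fun w => dg3 (u 0) (u 1) (u 2 / M w)) x := fun a b => by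
    have : DifferentiableAt ℝ (fun w => u 2 / M w) x := ((hM.dif x).fun_inv h0).const_mul _
    fin_cases a <;> fin_cases b <;> simp [dg3, this]
  have h2 := DifM.mul (G := J) (fun a b => (hJ a b).dif x) h1
  exact h2.tr.mul h2

lemma dif_um {M : V → ℝ} (A : Mx) (hM : DifferentiableAt ℝ M x) (h0 : M x ≠ 0) :
    DifM (fun w => um A (M w)) x := fun a b => by
  have h1 := hM.fun_inv h0
  fin_cases a <;> fin_cases b
  exacts [differentiableAt_const _, differentiableAt_const _, h1.const_mul _,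
    differentiableAt_const _, differentiableAt_const _, h1.const_mul _, hM.const_mul _,
    hM.const_mul _, differentiableAt_const _]

lemma Dm_um {M : V → ℝ} {A : Mx} {κ e h μ : ℝ} (hA : Blk κ e A) (hM : DifferentiableAt ℝ M x)
    (h1 : |M x - 1| ≤ 1 / 10) (hh : 0 < h) {k : Fin 3} (hμ : h * |pd k M x| ≤ μ) :
    Bd (h • Dm k (fun w => um A (M w)) x) (e * (2 * μ)) := by
  obtain ⟨p0, -, p2⟩ := inv_bd h1
  have e1 : pd k (fun w => (M w)⁻¹) x = -((M x)⁻¹ * (M x)⁻¹) * pd k M x := by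
    rw [pd_comp_at (φ := fun t => t⁻¹) (differentiableAt_inv p0.ne') hM, deriv_inv, ← sq, inv_pow]
  have e2 : h • Dm k (fun w => um A (M w)) x =
      !![0, 0, A 0 2 * (h * pd k (fun w => (M w)⁻¹) x); 0, 0, A 1 2 * (h * pd k (fun w => (M w)⁻¹) x);
        A 2 0 * (h * pd k M x), A 2 1 * (h * pd k M x), 0] := by
    ext a b
    fin_cases a <;> fin_cases b <;> simp [Dm, um, pd_const_mul] <;> ring
  have h2 : |h * pd k M x| ≤ μ := by rwa [abs_mul, abs_of_pos hh]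
  rw [e2]
  refine off_bd hA ?_ (by linarith [abs_nonneg (h * pd k M x)])
  rw [e1, mul_left_comm, neg_mul, abs_neg]
  exact (abs_mul_le (abs_mul_le p2 p2) h2).trans (by linarith [abs_nonneg (h * pd k M x)])

lemma dsand {M : V → ℝ} {A : Mx} {e h μ m m1 : ℝ} (hA : Blk 6 e A) (he : e ≤ 1 / 20)
    (hM : DifferentiableAt ℝ M x) (h1 : |M x - 1| ≤ 1 / 10) (hh : 0 < h) {k : Fin 3}
    (hμ : h * |pd k M x| ≤ μ) (hG : DifM G x) (b : Bd (G x) m) (b1 : Bd (h • Dm k G x) m1)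
    (eq : H =ᶠ[𝓝 x] fun w => (um A (M w))ᵀ * G w * um A (M w)) :
    Bd (h • Dm k H x - (b0 A)ᵀ * (h • Dm k G x) * b0 A) (234 * e * m1 + 252 * e * μ * m) := by
  have d := dif_um A hM (inv_bd h1).1.ne'
  have u7 : Bd (um A (M x)) 7 := (hA.um_bd h1).mono (by linarith)
  have dU := Dm_um hA hM h1 hh hμ
  rw [Dm_congr eq, Dm_mul (d.tr.mul hG) d, Dm_mul d.tr hG]
  refine fun i j => le_of_eq_of_le ?_ ((((hA.err he h1 b1).add ((dU.tr.mul b).mul u7)).add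
    ((u7.tr.mul b).mul dU)).mono (le_of_eq (by ring)) i j)
  refine congrArg (fun X : Mx => |X i j|) ?_
  have : Dm k (fun w => (um A (M w))ᵀ) x = (Dm k (fun w => um A (M w)) x)ᵀ := rfl
  simp only [this, transpose_smul, Matrix.smul_mul, Matrix.mul_smul, Matrix.add_mul, smul_add]
  abel

end
end Pool.Agent.MP_20bec2_an.T3.Ftr

end MrgPart1

-- ======== part 2: formerly Pool.Agent.MP_20bec2_an.T3.MsA
section MrgPart2

/-! Tools for the rows on the covariance: scaled change of frame, mollification in a frame. -/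

set_option autoImplicit false
set_option linter.unusedSectionVars false
open MeasureTheory Set Filter Matrix Topology

namespace Pool.Agent.MP_20bec2_an.T3
noncomputable section
open Classical
namespace MsP
open Prof Glue GeoP Ftr

lemma big_np {N : ℕ} (h : Big N) {C a b : ℝ} (hC : C ≤ 10 ^ 15) (hab : a + 1 / 1000 ≤ b) :
    C * np N a ≤ np N b := by
  have h2 : (10 : ℝ) ^ 15 ≤ np N (1 / 1000) := by
    rw [h.np_eq]
    linarith [Real.add_one_le_exp (1 / 1000 * pJ N), h.J_ge, h.L_ge]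
  calc C * np N a ≤ np N (1 / 1000) * np N a :=
        mul_le_mul_of_nonneg_right (hC.trans h2) (h.np_pos a).le
    _ = np N (a + 1 / 1000) := by rw [h.np_add, mul_comm]
    _ ≤ np N b := h.np_le hab

lemma np_le_one {N : ℕ} (h : Big N) {a : ℝ} (ha : a ≤ 0) : np N a ≤ 1 :=
  (h.np_le ha).trans_eq (np_zero _)

lemma N_two {N : ℕ} (h : Big N) : 2 ≤ N := by
  have : (2 : ℝ) ≤ N := by linarith [h.N_ge, h.J_ge, h.L_ge]
  exact_mod_cast this

/-! ## the scaled covariance as a linear map -/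

def nL (F : Fr) (h : V) : Mx →ₗ[ℝ] Mx where
  toFun M := nrm h (F.cv1 M)
  map_add' M M' := by
    ext i j
    simp only [nrm, cv1_add, Matrix.of_apply, Matrix.add_apply, add_div]
  map_smul' c M := by
    ext i j
    simp only [nrm, Fr.cv1, Matrix.mul_smul, Matrix.smul_mul, Matrix.of_apply, Matrix.smul_apply,
      smul_eq_mul, RingHom.id_apply, mul_div_assoc]

lemma nL_apply (F : Fr) (h : V) (M : Mx) : nL F h M = nrm h (F.cv1 M) := rfl

lemma nS_eq (B : Bk) (k : ℕ) (S : V → Mx) (g : Cu) (x : V) :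
    B.nS k S g x = nL (B.fr g) (B.c g k).hs (S ((B.fr g).xp x)) := rfl

lemma smM_nrm {S : V → Mx} (hS : SmM S) (h : V) : SmM fun x => nrm h (S x) :=
  fun i j => (hS i j).div_const _

lemma smM_cv1 {S : V → Mx} (hS : SmM S) (F : Fr) : SmM fun x => F.cv1 (S x) :=
  ((smM_const _).mul hS).mul (smM_const _)

lemma smM_unc {S : V → Mx} (hS : SmM S) (F : Fr) : SmM fun x => F.unc (S x) :=
  ((smM_const _).mul hS).mul (smM_const _)

lemma smM_nL {S : V → Mx} (hS : SmM S) (F : Fr) (h : V) : SmM fun x => nL F h (S x) :=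
  smM_nrm (smM_cv1 hS F) h

lemma smM_latm {S : V → Mx} (hS : SmM S) : SmM fun x => latm (S x) := fun i j => by
  by_cases h : i = 2 ∨ j = 2
  · simp only [latm, Matrix.of_apply, if_pos h]; exact sm_const _
  · simp only [latm, Matrix.of_apply, if_neg h]; exact hS i j

lemma smM_nS (B : Bk) (k : ℕ) {S : V → Mx} (hS : SmM S) (g : Cu) : SmM (B.nS k S g) :=
  smM_nL (hS.comp (xp_sm _)) _ _

lemma nL_symm (F : Fr) (h : V) {M : Mx} (e : Mᵀ = M) (i j : Fin 3) :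
    nL F h M i j = nL F h M j i := by
  have : (F.cv1 M)ᵀ = F.cv1 M := by
    rw [Fr.cv1, transpose_mul, transpose_mul, transpose_transpose, e, Matrix.mul_assoc]
  have e2 := congrFun (congrFun this i) j
  rw [transpose_apply] at e2
  simp only [nL_apply, nrm, Matrix.of_apply, e2, mul_comm]

lemma nrm_sub (h : V) (M M' : Mx) : nrm h (M - M') = nrm h M - nrm h M' := by
  ext i j
  simp only [nrm, Matrix.of_apply, Matrix.sub_apply, sub_div]

lemma nrm_latm (h : V) (M : Mx) : nrm h (latm M) = latm (nrm h M) := by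
  ext i j
  simp only [nrm, latm, Matrix.of_apply]
  split_ifs <;> simp

lemma nrm_sand {h h' : V} (p : ∀ i, 0 < h i) (p' : ∀ i, 0 < h' i) (T M : Mx) :
    nrm h (T * M * Tᵀ) = sc h h' T * nrm h' M * (sc h h' T)ᵀ := by
  ext i j
  simp only [nrm, sc, Matrix.mul_apply, Matrix.of_apply, Matrix.transpose_apply, Finset.sum_mul,
    Finset.sum_div]
  refine Finset.sum_congr rfl fun b _ => Finset.sum_congr rfl fun a _ => ?_
  have := (p' a).ne'; have := (p' b).ne'; have := (p i).ne'; have := (p j).ne'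
  field_simp

/-- the scaled transition matrix -/
def tr (F F' : Fr) (h h' : V) : Mx := sc h h' (F.Q⁻¹ * F'.Q)

lemma nL_unc (F F' : Fr) {h h' : V} (p : ∀ i, 0 < h i) (p' : ∀ i, 0 < h' i) (M : Mx) :
    nL F h (F'.unc M) = tr F F' h h' * nrm h' M * (tr F F' h h')ᵀ := by
  rw [nL_apply, cv1_unc', nrm_sand p p', tr]

lemma nL_chg (F : Fr) {F' : Fr} (hQ : F'.Q.det ≠ 0) {h h' : V} (p : ∀ i, 0 < h i)
    (p' : ∀ i, 0 < h' i) (M : Mx) :
    nL F h M = tr F F' h h' * nL F' h' M * (tr F F' h h')ᵀ := by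
  rw [nL_apply, cv1_chg hQ, nrm_sand p p', tr, nL_apply]

/-- nearly orthogonal, nearly block diagonal -/
structure Ne (ε : ℝ) (A : Mx) : Prop where
  all : ∀ a b, |A a b| ≤ 2
  off : ∀ a, a ≠ 2 → |A a 2| ≤ ε ∧ |A 2 a| ≤ ε
  ort : ∀ a b, |(1 - A * Aᵀ) a b| ≤ ε

lemma Ne.nn {ε : ℝ} {A : Mx} (h : Ne ε A) : 0 ≤ ε := (abs_nonneg _).trans (h.ort 0 0)

lemma Ne.four {ε : ℝ} {A : Mx} (h : Ne ε A) (i j a b : Fin 3) : |A i a * A j b| ≤ 4 := by
  rw [abs_mul]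
  nlinarith [h.all i a, h.all j b, abs_nonneg (A i a), abs_nonneg (A j b)]

/-- a mixed product is small -/
lemma Ne.mix {ε : ℝ} {A : Mx} (h : Ne ε A) {i j a b : Fin 3}
    (e : (i = 2 ∧ a ≠ 2) ∨ (i ≠ 2 ∧ a = 2) ∨ (j = 2 ∧ b ≠ 2) ∨ (j ≠ 2 ∧ b = 2)) :
    |A i a * A j b| ≤ 2 * ε := by
  have h1 := h.all i a; have h2 := h.all j b
  have h3 := abs_nonneg (A i a); have h4 := abs_nonneg (A j b)
  rw [abs_mul]
  rcases e with ⟨rfl, e⟩ | ⟨e, rfl⟩ | ⟨rfl, e⟩ | ⟨e, rfl⟩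
  · nlinarith [(h.off a e).2]
  · nlinarith [(h.off i e).1]
  · nlinarith [(h.off b e).2]
  · nlinarith [(h.off j e).1]

lemma ne_of {A P : Mx} {e ε : ℝ} (hP : Orth P) (h : EB (A - P) (cm e)) (he : e ≤ 1)
    (o : ∀ a, a ≠ 2 → |P a 2| ≤ e ∧ |P 2 a| ≤ e) (hε : 9 * e ≤ ε) : Ne ε A := by
  have e0 := eb_nonneg h
  have h1 : ∀ a b, |A a b| ≤ |P a b| + e := fun a b => by
    have := h a b
    simp only [Matrix.sub_apply, cm, Matrix.of_apply] at this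
    linarith [abs_sub_abs_le_abs_sub (A a b) (P a b)]
  have h2 : ∀ a b, |A a b| ≤ 2 := fun a b => by linarith [h1 a b, orth_abs_le hP a b]
  refine ⟨h2, fun a ha => ⟨by linarith [h1 a 2, (o a ha).1], by linarith [h1 2 a, (o a ha).2]⟩,
    fun a b => ?_⟩
  have e1 : 1 - A * Aᵀ = -((A - P) * Aᵀ + P * (A - P)ᵀ) := by
    rw [← orth_mul_t hP, transpose_sub, Matrix.sub_mul, Matrix.mul_sub]; abel
  have e2 : EB Aᵀ (cm 2) := fun a b => h2 b a
  have := eb_neg (eb_add (eb_mul h e2) (eb_mul (orth_eb hP) (eb_t h))) a b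
  rw [e1]
  simp only [cm, Matrix.of_apply] at this
  linarith

lemma hs_bd {c : Pm} (g : Gd c) (i : Fin 3) :
    c.lam ≤ c.hs i ∧ c.hs i ≤ np c.N (11 / 10) * c.lam := by
  have h1 : 1 ≤ np c.N (11 / 10) := (np_zero _).symm.trans_le (g.big.np_le (by norm_num))
  have h3 : c.ro ≤ np c.N (11 / 10) := le_of_log g.ro_pos (g.big.np_pos _) (by
    rw [g.big.log_np]; linarith [g.log_ro_bd.2, g.big.L_ge, g.big.J_pos])
  have := g.lam_pos.le
  fin_cases i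
  exacts [⟨g.lam_le_l1, mul_le_mul_of_nonneg_right h3 this⟩,
    ⟨le_rfl, le_mul_of_one_le_left this h1⟩, ⟨le_mul_of_one_le_left this h1, le_rfl⟩]

lemma rot {c : Pm} (g : Gd c) (h : c.s2 ≤ 4 * c.s1) : c.l1 = c.lam := by
  have hK : c.K ≤ 4 := (div_le_iff₀ g.s1_pos).2 h
  have h1 : c.η = 1 := eta_one' g.big.R_ge (by
    have := Real.log_le_log g.K_pos hK
    linarith [g.t_eq, log4_eq, log2_bd.2, g.big.L_ge])
  have h2 : c.e4 = 1 := le_antisymm g.e4_le_one (h1 ▸ g.η_le_e4)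
  have h3 : c.m = 1 := max_eq_left (by linarith)
  rw [Pm.l1, Pm.ro, h2, h3]; simp

lemma one_ent {t p r δ L : ℝ} (h : |t - p| ≤ δ) (r0 : 0 ≤ r) (r1 : r ≤ L) (L1 : 1 ≤ L)
    (e : (|p| ≤ 1 ∧ |r - 1| ≤ δ * L) ∨ |p| ≤ δ) : |t * r - p| ≤ 2 * (δ * L) := by
  have d0 : 0 ≤ δ := (abs_nonneg _).trans h
  have e1 : t * r - p = (t - p) * r + p * (r - 1) := by ring
  have e2 : |(t - p) * r| ≤ δ * L := by
    rw [abs_mul, abs_of_nonneg r0]; exact mul_le_mul h r1 r0 d0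
  have e3 : |p * (r - 1)| ≤ δ * L := by
    rw [abs_mul]
    rcases e with ⟨e, e'⟩ | e
    · nlinarith [abs_nonneg p, abs_nonneg (r - 1)]
    · exact mul_le_mul e (abs_le.2 ⟨by linarith, by linarith⟩) (abs_nonneg _) d0
  rw [e1]
  linarith [abs_add_le ((t - p) * r) (p * (r - 1))]

lemma fin3 : ∀ a : Fin 3, a = 0 ∨ a = 1 ∨ a = 2 := by decide
lemma hs0 (c : Pm) : c.hs 0 = c.l1 := rfl
lemma hs1 (c : Pm) : c.hs 1 = c.lam := rfl
lemma hs2 (c : Pm) : c.hs 2 = c.y := rfl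

lemma ne_sc {N : ℕ} {c c' : Pm} {T P : Mx} (cp : Cp (dc N) c c') (hN : c.N = N) (hN' : c'.N = N)
    (hl : c'.lam = c.lam) (hP : Orth P) (tq : EB (T - P) (cm (dc N)))
    (o3 : ∀ i, i ≠ 2 → |P i 2| ≤ dc N ∧ |P 2 i| ≤ dc N)
    (al : (|P 0 1| ≤ dc N ∧ |P 1 0| ≤ dc N) ∨ (c.s2 ≤ 4 * c.s1 ∧ c'.s2 ≤ 4 * c'.s1)) :
    Ne (np N (-47 / 2)) (sc c.hs c'.hs T) := by
  have g := cp.g
  have g' := cp.g'
  have b : Big N := hN ▸ g.big
  have hy : c'.y = c.y := by rw [Pm.y, Pm.y, hl, hN, hN']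
  have d0 := b.dc_pos
  have L1 : 1 ≤ np N (11 / 10) := (np_zero _).symm.trans_le (b.np_le (by norm_num))
  have e1 : dc N * np N (11 / 10) = np N (-239 / 10) := by
    rw [dc, ← b.np_add]; norm_num
  have e2 : 18 * np N (-239 / 10) ≤ np N (-47 / 2) := big_np b (by norm_num) (by norm_num)
  have e3 : np N (-47 / 2) ≤ 1 := np_le_one b (by norm_num)
  have e4 : dc N ≤ dc N * np N (11 / 10) := le_mul_of_one_le_right d0.le L1
  have r1 : |c'.l1 / c.l1 - 1| ≤ dc N * np N (11 / 10) := by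
    have h1 := cp.cl_ro
    have h2 : cpe (dc N) c c' = 12 * pJ N * dc N := by
      rw [cpe, pR, hN, hN', sub_self]; ring
    have h3 : 24 * pJ N ≤ np N (11 / 10) := by
      have : 24 * np N 1 ≤ np N (11 / 10) := big_np b (by norm_num) (by norm_num)
      rw [np_one] at this
      linarith [b.N_ge, b.J_pos]
    have h4 : c'.l1 / c.l1 = Real.exp (Real.log c'.ro - Real.log c.ro) := by
      rw [Real.exp_sub, Real.exp_log g.ro_pos, Real.exp_log g'.ro_pos, Pm.l1, Pm.l1, hl,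
        mul_div_mul_right _ _ g.lam_pos.ne']
    have h5 : cpe (dc N) c c' ≤ 1 := by linarith [cp.cpe_le_q, cp.q_inv.2]
    have h6 := Real.abs_exp_sub_one_le (h1.trans h5)
    have h7 := mul_le_mul_of_nonneg_left h3 d0.le
    rw [h4]
    linarith
  have one : ∀ x : ℝ, 0 < x → |x / x - 1| ≤ dc N * np N (11 / 10) := fun x hx => by
    rw [div_self hx.ne', sub_self, abs_zero]; positivity
  have key : ∀ a b, |c'.hs b / c.hs a - 1| ≤ dc N * np N (11 / 10) ∨ |P a b| ≤ dc N := by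
    intro a b
    rcases fin3 a with rfl | rfl | rfl <;> rcases fin3 b with rfl | rfl | rfl <;>
      simp only [hs0, hs1, hs2, hl, hy]
    · exact Or.inl r1
    · exact al.symm.imp (fun h => by rw [rot g h.1]; exact one _ g.lam_pos) And.left
    · exact Or.inr (o3 0 (by decide)).1
    · exact al.symm.imp (fun h => by rw [rot g' h.2, hl]; exact one _ g.lam_pos) And.right
    · exact Or.inl (one _ g.lam_pos)
    · exact Or.inr (o3 1 (by decide)).1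
    · exact Or.inr (o3 0 (by decide)).2
    · exact Or.inr (o3 1 (by decide)).2
    · exact Or.inl (one _ g.y_pos)
  refine ne_of (e := 2 * (dc N * np N (11 / 10))) hP (fun a b => ?_) (by linarith)
    (fun a ha => ⟨by linarith [(o3 a ha).1], by linarith [(o3 a ha).2]⟩) (by linarith)
  have p := g.hs_pos a
  have p' := g'.hs_pos b
  have q1 := (hs_bd g' b).2
  have q2 := mul_le_mul_of_nonneg_left (hs_bd g a).1 (zero_le_one.trans L1)
  rw [hN', hl] at q1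
  simp only [sc, cm, Matrix.sub_apply, Matrix.of_apply]
  rw [mul_div_assoc]
  exact one_ent (tq a b) (by positivity) ((div_le_iff₀ p).2 (q1.trans q2)) L1
    ((key a b).imp_left fun h => ⟨orth_abs_le hP a b, h⟩)

lemma ne_tr {N k : ℕ} {lb : ℝ} {F F' : Fr} (hO : Orth F.O) (hO' : Orth F'.O)
    (C : Cpt (dc N) F F') (g : Gd (F.pm N lb k)) (g' : Gd (F'.pm N lb k)) :
    Ne (np N (-47 / 2)) (tr F F' (F.pm N lb k).hs (F'.pm N lb k).hs) :=
  ne_sc (C.cp g g' (Big.dc_le g.big)) rfl rfl rfl (P_orth hO hO') C.tq C.o3 C.al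

/-- a matrix field between two constant matrices -/
lemma cbl_sand {P : List (Fin 3) → Prop} {h : V} {U : Set V} (hh : ∀ i, 0 ≤ h i) {W : V → Mx}
    (hW : SmM W) (A : Mx) {β κ : ℝ} (h0 : 0 ≤ κ * β) (i j : Fin 3)
    (H : ∀ a b, (∀ x, W x a b = 0) ∨ (|A i a * A j b| ≤ κ ∧ CBl P h U (fun x => W x a b) β)) :
    CBl P h U (fun x => (A * W x * Aᵀ) i j) (9 * (κ * β)) := by
  have := CBl.sum_card (P := P) (h := h) (U := U) (B := κ * β) (Finset.univ : Finset (Fin 3 × Fin 3))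
    (F := fun p x => A i p.1 * A j p.2 * W x p.1 p.2) hh (fun p _ => (hW p.1 p.2).cmul _)
    (fun p _ => by
      rcases H p.1 p.2 with e | ⟨e, e'⟩
      · exact (cbl_zero h0).congr_fun fun x => by rw [e, mul_zero]
      · exact e'.smul_le hh e)
  refine (this.congr_fun fun x => ?_).monoB (by simp)
  rw [Fintype.sum_prod_type_right]
  simp only [Matrix.mul_apply, Matrix.transpose_apply, Finset.sum_mul]
  exact Finset.sum_congr rfl fun b _ => Finset.sum_congr rfl fun a _ => by ring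

/-! ## mollification seen from a frame -/

/-- derivatives along the columns of `O` -/
def dx (O : Mx) : List (Fin 3) → (V → ℝ) → V → ℝ
  | [], G => G
  | j :: l, G => fun y => ∑ i, O i j * pd i (dx O l G) y

lemma dx_sm (O : Mx) {G : V → ℝ} (hG : Sm G) : ∀ l, Sm (dx O l G)
  | [] => hG
  | _ :: l => ContDiff.sum fun i _ => ((dx_sm O hG l).pd i).cmul _

lemma pds_xp (F : Fr) {G : V → ℝ} (hG : Sm G) :
    ∀ l, pds l (fun x => G (F.xp x)) = fun x => dx F.O l G (F.xp x)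
  | [] => rfl
  | j :: l => by
    rw [pds, pds_xp F hG l]
    exact C2.pd_affine (dx_sm F.O hG l) F.x0 F.O j

lemma dx_mol (O : Mx) {m : V} (hm : ∀ i, 0 < m i) {G : V → ℝ} (hG : Sm G) :
    ∀ l, dx O l (mol m G) = mol m (dx O l G)
  | [] => rfl
  | j :: l => by
    funext y
    have s := dx_sm O hG l
    rw [dx, dx, dx_mol O hm hG l, Mol.mol_sum hm _ fun i _ =>
      Mol.li_cont ((s.pd i).cmul _).continuous]
    refine Finset.sum_congr rfl fun i _ => ?_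
    rw [Mol.mol_mul]
    exact congrArg _ (congrFun (Mol.pds_mol hm [i] (s.of_nat 1)) y)

section
variable {F : Fr} {m h : V} {G : V → ℝ} {U U' : Set V} {β κ : ℝ}

lemma mol_sm (hm : ∀ i, 0 < m i) (hG : Sm G) : Sm (mol m G) :=
  Mol.mol_sm hm (Mol.li_cont hG.continuous)

lemma pds_mol_xp (hO : Orth F.O) (hm : ∀ i, 0 < m i) (hG : Sm G) (l : List (Fin 3)) (x : V) :
    pds l (fun x => mol m G (F.xp x)) x =
      mol m (fun y => pds l (fun x => G (F.xp x)) (F.xc y)) (F.xp x) := by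
  rw [pds_xp F (mol_sm hm hG), dx_mol _ hm hG, pds_xp F hG]
  simp only [xp_xc hO]

lemma cbl_mol_xp {P : List (Fin 3) → Prop} (hO : Orth F.O) (hm : ∀ i, 0 < m i)
    (hh : ∀ i, 0 ≤ h i) (hG : Sm G) (hU : ∀ x ∈ U, ∀ y ∈ Mol.bx m (F.xp x), F.xc y ∈ U')
    (H : CBl P h U' (fun x => G (F.xp x)) β) : CBl P h U (fun x => mol m G (F.xp x)) β := by
  intro l hl x hx
  have p := hp_nonneg hh l
  rw [pds_mol_xp hO hm hG, ← abs_of_nonneg p, ← abs_mul, ← Mol.mol_mul]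
  refine Mol.abs_mol_le hm fun y hy => ?_
  rw [abs_mul, abs_of_nonneg p]
  exact H l hl _ (hU x hx y hy)

lemma cb_sub_mol_xp {n : ℕ} (hO : Orth F.O) (hm : ∀ i, 0 < m i) (hh : ∀ i, 0 < h i) (hG : Sm G)
    (cx : Convex ℝ U') (hU : ∀ x ∈ U, x ∈ U' ∧ ∀ y ∈ Mol.bx m (F.xp x), F.xc y ∈ U' ∧
      ∑ i, |x i - F.xc y i| / h i ≤ κ) (hβ : 0 ≤ β)
    (H : CV (n + 1) h U' (fun x => G (F.xp x)) β) :
    CB n h U (fun x => G (F.xp x) - mol m G (F.xp x)) (β * κ) := by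
  intro l hl x hx
  have p := hp_nonneg (fun i => (hh i).le) l
  have s : Sm fun x => G (F.xp x) := hG.comp (xp_sm F)
  have s' : Sm fun x => mol m G (F.xp x) := (mol_sm hm hG).comp (xp_sm F)
  rw [pds_sub s s']
  simp only
  rw [pds_mol_xp hO hm hG, ← abs_of_nonneg p, ← abs_mul, mul_sub, ← Mol.mol_mul]
  refine Mol.abs_sub_mol hm (Mol.li_cont (Sm.cmul ((s.pds l).comp (xc_sm F)) _).continuous)
    fun y hy => ?_
  rw [← mul_sub, abs_mul, abs_of_nonneg p]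
  obtain ⟨h1, h2⟩ := hU x hx
  exact (H.mvt_pds hh cx s hl h1 (h2 y hy).1).trans (mul_le_mul_of_nonneg_left (h2 y hy).2 hβ)

lemma nL_mol (F : Fr) (h : V) (hm : ∀ i, 0 < m i) {S : V → Mx} (hS : SmM S) (w : V) (a b : Fin 3) :
    nL F h (molM m S w) a b = mol m (fun y => nL F h (S y) a b) w := by
  have l1 : ∀ i j, Mol.LI fun y => S y i j := fun i j => Mol.li_cont (hS.cont i j)
  have l2 : ∀ i j, Mol.LI fun y => (F.Q⁻¹ * S y) i j := fun i j =>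
    Mol.li_cont (((smM_const _).mul hS).cont i j)
  simp only [nL_apply, nrm, Matrix.of_apply, Fr.cv1]
  rw [← Mol.molM_mul_left hm l1, ← Mol.molM_mul_right hm l2, Mol.molM_apply, div_eq_inv_mul,
    ← Mol.mol_mul]
  simp only [div_eq_inv_mul]
end

/-- the cut-offs of all cubes seen from one frame -/
lemma cb_al_xp : ∃ C : ℝ, 1 ≤ C ∧ ∀ (F : Fr) (D a : ℝ) (g : Cu), Orth F.O → 0 ≤ a → a ≤ D →
    0 < D → CB 4 (cv a) univ (fun x => al D g (F.xp x) ^ 2) C := by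
  obtain ⟨C, h1, h2⟩ := cb_al 4
  refine ⟨(3 * 1) ^ 4 * C, by linarith, fun F D a g hO a0 a1 hD => ?_⟩
  have h3 : CB 4 (cv a) univ (fun x => al D g x ^ 2) C :=
    (h2 D g hD.ne').2.monoh (fun _ => a0) fun _ => a1
  exact CB.affine (b := F.x0) (Q := F.O) (fun _ => a0) (fun _ => a0) (by norm_num)
    (fun i j => mul_le_mul_of_nonneg_right (orth_abs_le hO i j) a0)
    (SmN.of_sm ((al_sm D g).pow 2) _) (fun _ _ => mem_univ _) h3

lemma xc_xp' (F F' : Fr) (y : V) :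
    F'.xc (F.xp y) = F'.Oᵀ *ᵥ (F.x0 - F'.x0) + (F'.Oᵀ * F.O) *ᵥ y := by
  rw [← mulVec_mulVec, ← mulVec_add, Fr.xc, Fr.xp]
  congr 1; abel

/-- isotropic bounds pass from one frame to another -/
lemma cb_chg {F F' : Fr} (hO : Orth F.O) (hO' : Orth F'.O) {a β : ℝ} (a0 : 0 ≤ a) {G : V → ℝ}
    (hG : Sm G) {U U' : Set V} (hU : ∀ x ∈ U, F'.xc (F.xp x) ∈ U') (H : CB 4 (cv a) U' G β) :
    CB 4 (cv a) U (fun x => G (F'.xc (F.xp x))) (81 * β) := by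
  have := CB.affine (b := F'.Oᵀ *ᵥ (F.x0 - F'.x0)) (Q := F'.Oᵀ * F.O) (κ := 1) (U := U)
    (h := cv a) (fun _ => a0) (fun _ => a0) (by norm_num)
    (fun i j => mul_le_mul_of_nonneg_right (orth_abs_le (P_orth hO' hO) i j) a0)
    (SmN.of_sm hG _) (fun x hx => xc_xp' F F' x ▸ hU x hx) H
  exact (this.congr_fun fun x => by rw [xc_xp']).monoB (by norm_num)

/-! ## weighted sums -/

section
variable {B : Bk} (G : FrOk B.N B.lb B.fr) (hb : Big B.N)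
include G hb

lemma Dp : 0 < B.D := D_pos G (by linarith [N_two hb])

lemma sup_ws (A : Cu → V → Mx) :
    Sup (cv B.D) (9 / 10) fun g x => al B.D g x ^ 2 • (B.fr g).unc (A g x) :=
  (sup_al_sq (Dp G hb)).smul _

lemma smM_ws {A : Cu → V → Mx} (hA : ∀ g, SmM (A g)) : SmM (B.ws A) :=
  (sup_ws G hb A).smM (by norm_num) fun g =>
    SmM.smul ((al_sm _ _).pow 2) (smM_unc (hA g) _)

lemma smM_mol {k : ℕ} (hk : k ≤ nb B.N) {S : V → Mx} (hS : SmM S) (g : Cu) :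
    SmM (molM (cv (B.c g k).hm) S) :=
  Mol.molM_sm (fun _ => (Bk.gd G hb g hk).hm_pos) fun i j => Mol.li_cont (hS.cont i j)

lemma smM_Cp {k : ℕ} (hk : k ≤ nb B.N) {S : V → Mx} (hS : SmM S) (g : Cu) : SmM (B.Cp k S g) :=
  (smM_latm (smM_cv1 (smM_mol G hb hk hS g) _)).sub (smM_const _)

lemma ne_box {k : ℕ} (hk : k ≤ nb B.N) {g g' : Cu} (n : Nbr 3 g g') :
    Ne (np B.N (-47 / 2)) (tr (B.fr g) (B.fr g') (B.c g k).hs (B.c g' k).hs) :=
  ne_tr (orth G g) (orth G g') (G.cp g g' n) (Bk.gd G hb g hk) (Bk.gd G hb g' hk)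

lemma nbr3 {g g' : Cu} {w : V} (h : w ∈ box B.D g 1) (h' : w ∈ box B.D g' 1) : Nbr 3 g g' :=
  box_nbr (Dp G hb) (by norm_num) h h'
end

end MsP
end
end Pool.Agent.MP_20bec2_an.T3

end MrgPart2

-- ======== part 3: formerly Pool.Agent.MP_20bec2_an.T3.CrA
section MrgPart3

/-! Matrix facts for the change of block: old frame against new frame in the kernel scales. -/

set_option autoImplicit false
open MeasureTheory Set Filter Matrix

namespace Pool.Agent.MP_20bec2_an.T3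
noncomputable section
open Classical

namespace Cr
open GeoP

/-- a matrix in the scales `k` (source) and `k'` (target) -/
def scl (k' k : V) (W : Mx) : Mx := Matrix.of fun a i => W a i * k i / k' a

lemma nrm_conj {k k' : V} (hk : ∀ i, 0 < k i) (hk' : ∀ i, 0 < k' i) (W M : Mx) :
    nrm k' (W * M * Wᵀ) = scl k' k W * nrm k M * (scl k' k W)ᵀ := by
  ext a b
  have := (hk 0).ne'; have := (hk 1).ne'; have := (hk 2).ne'
  have := (hk' a).ne'; have := (hk' b).ne'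
  simp only [nrm, scl, Matrix.mul_apply, transpose_apply, of_apply, Fin.sum_univ_three]
  field_simp

lemma nrm_sub (k : V) (A B : Mx) : nrm k (A - B) = nrm k A - nrm k B := by
  ext a b
  simp only [nrm, of_apply, Matrix.sub_apply, sub_div]

lemma nrm_dg (k : V) (a b c : ℝ) :
    nrm k (dg3 a b c) = dg3 (a / k 0 ^ 2) (b / k 1 ^ 2) (c / k 2 ^ 2) := by
  ext i j
  fin_cases i <;> fin_cases j <;> simp [nrm, dg3, sq]

lemma dg_sub (a b c a' b' c' : ℝ) : dg3 a b c - dg3 a' b' c' = dg3 (a - a') (b - b') (c - c') := by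
  ext i j
  fin_cases i <;> fin_cases j <;> simp [dg3]

lemma dg_smul (t a b c : ℝ) : t • dg3 a b c = dg3 (t * a) (t * b) (t * c) := by
  ext i j
  fin_cases i <;> fin_cases j <;> simp [dg3]

lemma eb_sub {A B : Mx} {a b : ℝ} (h : EB A (cm a)) (h' : EB B (cm b)) :
    EB (A - B) (cm (a + b)) := by
  rw [sub_eq_add_neg]; exact eb_add h (eb_neg h')

lemma quad_le {E : Mx} {e : ℝ} (h : EB E (cm e)) (u : V) :
    |u ⬝ᵥ (E *ᵥ u)| ≤ 3 * e * ∑ i, u i ^ 2 := by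
  have e0 := eb_nonneg h
  have h1 : ∀ i j, |u i * (E i j * u j)| ≤ e * ((u i ^ 2 + u j ^ 2) / 2) := fun i j => by
    have a : |E i j| ≤ e := h i j
    rw [abs_mul, abs_mul, mul_left_comm]
    refine mul_le_mul a ?_ (by positivity) e0
    nlinarith [sq_nonneg (|u i| - |u j|), sq_abs (u i), sq_abs (u j)]
  simp only [dotProduct, mulVec, Fin.sum_univ_three, mul_add]
  rw [abs_le]
  constructor <;>
    linarith [abs_le.1 (h1 0 0), abs_le.1 (h1 0 1), abs_le.1 (h1 0 2), abs_le.1 (h1 1 0),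
      abs_le.1 (h1 1 1), abs_le.1 (h1 1 2), abs_le.1 (h1 2 0), abs_le.1 (h1 2 1), abs_le.1 (h1 2 2)]

/-- a matrix near a positive diagonal matrix, as a quadratic form -/
lemma pd_of {h : V} (hh : ∀ i, 0 < h i) {S : Mx} {a c e m M : ℝ}
    (H : EB (nrm h S - dg3 a a c) (cm e)) (ha : m + 3 * e ≤ a ∧ a + 3 * e ≤ M)
    (hc : m + 3 * e ≤ c ∧ c + 3 * e ≤ M) (v : V) :
    m * ∑ i, (h i * v i) ^ 2 ≤ v ⬝ᵥ (S *ᵥ v) ∧ v ⬝ᵥ (S *ᵥ v) ≤ M * ∑ i, (h i * v i) ^ 2 := by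
  have h1 := abs_le.1 (quad_le H fun i => h i * v i)
  have e1 : (fun i => h i * v i) ⬝ᵥ ((nrm h S - dg3 a a c) *ᵥ fun i => h i * v i) =
      v ⬝ᵥ (S *ᵥ v) - (a * (h 0 * v 0) ^ 2 + a * (h 1 * v 1) ^ 2 + c * (h 2 * v 2) ^ 2) := by
    have := (hh 0).ne'; have := (hh 1).ne'; have := (hh 2).ne'
    simp [dotProduct, mulVec, Fin.sum_univ_three, nrm, dg3]
    field_simp
    ring
  rw [e1] at h1
  simp only [Fin.sum_univ_three] at h1 ⊢
  have p0 := sq_nonneg (h 0 * v 0); have p1 := sq_nonneg (h 1 * v 1)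
  have p2 := sq_nonneg (h 2 * v 2)
  constructor
  · nlinarith [mul_le_mul_of_nonneg_right ha.1 p0, mul_le_mul_of_nonneg_right ha.1 p1,
      mul_le_mul_of_nonneg_right hc.1 p2]
  · nlinarith [mul_le_mul_of_nonneg_right ha.2 p0, mul_le_mul_of_nonneg_right ha.2 p1,
      mul_le_mul_of_nonneg_right hc.2 p2]

lemma conj_dg (P : Mx) (α β γ : ℝ) (a b : Fin 3) : (P * dg3 α β γ * Pᵀ) a b =
    α * (P a 0 * P b 0) + β * (P a 1 * P b 1) + γ * (P a 2 * P b 2) := by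
  simp [Matrix.mul_apply, Fin.sum_univ_three, dg3, diagonal_apply]
  ring

lemma conj_diag (P E : Mx) (a : Fin 3) : (P * E * Pᵀ) a a = P a ⬝ᵥ (E *ᵥ P a) := by
  simp only [Matrix.mul_apply, transpose_apply, dotProduct, mulVec, Fin.sum_univ_three]
  ring

lemma sand {P E : Mx} {e : ℝ} (hP : EB P (cm 2)) (hE : EB E (cm e)) :
    EB (P * E * Pᵀ) (cm (36 * e)) :=
  eb_mono (eb_mul (eb_mul hP hE) (eb_t hP)) (le_of_eq (by ring))

lemma conj_split (P X D : Mx) : P * X * Pᵀ - D = P * (X - D) * Pᵀ + (P * D * Pᵀ - D) := by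
  rw [Matrix.mul_sub, Matrix.sub_mul]; abel

/-- almost orthogonal and almost block diagonal -/
structure Pk (e : ℝ) (P : Mx) : Prop where
  r0 : |P 0 0 ^ 2 + P 0 1 ^ 2 - 1| ≤ e
  r1 : |P 1 0 ^ 2 + P 1 1 ^ 2 - 1| ≤ e
  r01 : |P 0 0 * P 1 0 + P 0 1 * P 1 1| ≤ e
  r2 : |P 2 2 ^ 2 - 1| ≤ e
  o02 : |P 0 2| ≤ e
  o12 : |P 1 2| ≤ e
  o20 : |P 2 0| ≤ e
  o21 : |P 2 1| ≤ e

lemma abs_two {x : ℝ} (h : x ^ 2 ≤ 4) : |x| ≤ 2 := abs_le_of_sq_le_sq' (by linarith) (by norm_num)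
  |> abs_le.2

lemma Pk.eb {e : ℝ} {P : Mx} (h : Pk e P) (he : e ≤ 1) : EB P (cm 2) := by
  have a0 := (abs_le.1 h.r0).2; have a1 := (abs_le.1 h.r1).2; have a2 := (abs_le.1 h.r2).2
  intro i j
  show |P i j| ≤ 2
  fin_cases i <;> fin_cases j
  · exact abs_two (show P 0 0 ^ 2 ≤ 4 by nlinarith [sq_nonneg (P 0 1)])
  · exact abs_two (show P 0 1 ^ 2 ≤ 4 by nlinarith [sq_nonneg (P 0 0)])
  · exact h.o02.trans (by linarith)
  · exact abs_two (show P 1 0 ^ 2 ≤ 4 by nlinarith [sq_nonneg (P 1 1)])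
  · exact abs_two (show P 1 1 ^ 2 ≤ 4 by nlinarith [sq_nonneg (P 1 0)])
  · exact h.o12.trans (by linarith)
  · exact h.o20.trans (by linarith)
  · exact h.o21.trans (by linarith)
  · exact abs_two (show P 2 2 ^ 2 ≤ 4 by linarith)

lemma amul {x y p q : ℝ} (h : |x| ≤ p) (h' : |y| ≤ q) : |x * y| ≤ p * q := by
  rw [abs_mul]; exact mul_le_mul h h' (abs_nonneg _) ((abs_nonneg _).trans h)

/-- two descriptions of one covariance force the change of frame to be almost orthogonal -/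
lemma pk_of {P X : Mx} (hX : EB (X - dg3 (1 / 4) (1 / 4) 4) (cm (1 / 10 ^ 9)))
    (hY : EB (P * X * Pᵀ - dg3 (1 / 4) (1 / 4) 4) (cm (1 / 10 ^ 7)))
    (o02 : |P 0 2| ≤ 1 / 10 ^ 7) (o12 : |P 1 2| ≤ 1 / 10 ^ 7) (o20 : |P 2 0| ≤ 1 / 10 ^ 7)
    (o21 : |P 2 1| ≤ 1 / 10 ^ 7) : Pk (1 / 10 ^ 6) P := by
  have row : ∀ a, P a 0 ^ 2 + P a 1 ^ 2 + 15 * P a 2 ^ 2 ≤ 5 * dg3 (1 / 4) (1 / 4) 4 a a + 1 := by
    intro a
    have h1 : |(P * X * Pᵀ - dg3 (1 / 4) (1 / 4) 4) a a| ≤ 1 / 10 ^ 7 := hY a a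
    have h2 := quad_le hX (P a)
    rw [conj_split, Matrix.add_apply, Matrix.sub_apply, conj_dg, conj_diag] at h1
    rw [Fin.sum_univ_three] at h2
    have d : 0 ≤ dg3 (1 / 4 : ℝ) (1 / 4) 4 a a := by fin_cases a <;> simp [dg3]
    nlinarith [(abs_le.1 h1).2, (abs_le.1 h2).1, sq_nonneg (P a 0), sq_nonneg (P a 1),
      sq_nonneg (P a 2)]
  have w0 := row 0; have w1 := row 1; have w2 := row 2
  simp only [dg3, diagonal_apply_eq, cons_val_zero, cons_val_one, cons_val] at w0 w1 w2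
  have hP : EB P (cm 2) := fun i j => by
    show |P i j| ≤ 2
    fin_cases i <;> fin_cases j
    · exact abs_two (show P 0 0 ^ 2 ≤ 4 by nlinarith [sq_nonneg (P 0 1), sq_nonneg (P 0 2)])
    · exact abs_two (show P 0 1 ^ 2 ≤ 4 by nlinarith [sq_nonneg (P 0 0), sq_nonneg (P 0 2)])
    · exact o02.trans (by norm_num)
    · exact abs_two (show P 1 0 ^ 2 ≤ 4 by nlinarith [sq_nonneg (P 1 1), sq_nonneg (P 1 2)])
    · exact abs_two (show P 1 1 ^ 2 ≤ 4 by nlinarith [sq_nonneg (P 1 0), sq_nonneg (P 1 2)])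
    · exact o12.trans (by norm_num)
    · exact o20.trans (by norm_num)
    · exact o21.trans (by norm_num)
    · exact abs_two (show P 2 2 ^ 2 ≤ 4 by nlinarith [sq_nonneg (P 2 0), sq_nonneg (P 2 1)])
  have hD : EB (P * dg3 (1 / 4) (1 / 4) 4 * Pᵀ - dg3 (1 / 4) (1 / 4) 4)
      (cm (1 / 10 ^ 7 + 36 * (1 / 10 ^ 9))) := by
    have := eb_sub hY (sand hP hX)
    rwa [conj_split, add_sub_cancel_left] at this
  have k : ∀ a b, |1 / 4 * (P a 0 * P b 0) + 1 / 4 * (P a 1 * P b 1) + 4 * (P a 2 * P b 2) -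
      dg3 (1 / 4) (1 / 4) 4 a b| ≤ 1 / 10 ^ 7 + 36 * (1 / 10 ^ 9) := fun a b => by
    rw [← conj_dg]; exact hD a b
  have k0 := abs_le.1 (k 0 0); have k1 := abs_le.1 (k 1 1); have k2 := abs_le.1 (k 2 2)
  have k3 := abs_le.1 (k 0 1)
  simp only [dg3, diagonal_apply_eq, cons_val_zero, cons_val_one, cons_val, ne_eq, zero_ne_one,
    not_false_eq_true, diagonal_apply_ne] at k0 k1 k2 k3
  have m0 := abs_le.1 (amul o02 o02); have m1 := abs_le.1 (amul o12 o12)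
  have m2 := abs_le.1 (amul o02 o12); have m3 := abs_le.1 (amul o20 o20)
  have m4 := abs_le.1 (amul o21 o21)
  exact ⟨abs_le.2 ⟨by nlinarith, by nlinarith⟩, abs_le.2 ⟨by nlinarith, by nlinarith⟩,
    abs_le.2 ⟨by nlinarith, by nlinarith⟩, abs_le.2 ⟨by nlinarith, by nlinarith⟩,
    o02.trans (by norm_num), o12.trans (by norm_num), o20.trans (by norm_num),
    o21.trans (by norm_num)⟩

/-- conjugation of a matrix near `diag (α, α, γ)` -/
lemma Pk.conj {e d α γ : ℝ} {P X : Mx} (h : Pk e P) (he : e ≤ 1) (hα : |α| ≤ 1) (hγ : |γ| ≤ 1)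
    (hX : EB (X - dg3 α α γ) (cm d)) : EB (P * X * Pᵀ - dg3 α α γ) (cm (36 * d + 6 * e)) := by
  have hP := h.eb he
  have b : ∀ i j, |P i j| ≤ 2 := hP
  have e0 : 0 ≤ e := (abs_nonneg _).trans h.r0
  rw [conj_split]
  refine eb_add (sand hP hX) fun i j => ?_
  show |(P * dg3 α α γ * Pᵀ - dg3 α α γ) i j| ≤ 6 * e
  have key : ∀ x y : ℝ, |x| ≤ 4 * e → |y| ≤ 2 * e → |α * x + γ * y| ≤ 6 * e := fun x y hx hy =>
    (abs_add_le _ _).trans (by linarith [amul hα hx, amul hγ hy])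
  have two : ∀ x y : ℝ, |x| ≤ 2 * e → |y| ≤ 2 * e → |x + y| ≤ 4 * e := fun x y hx hy =>
    (abs_add_le _ _).trans (by linarith)
  have l : ∀ {x : ℝ} (i j : Fin 3), |x| ≤ e → |P i j * x| ≤ 2 * e := fun i j hx => amul (b i j) hx
  have r : ∀ {x : ℝ} (i j : Fin 3), |x| ≤ e → |x * P i j| ≤ 2 * e := fun i j hx => by
    rw [mul_comm]; exact l i j hx
  rw [Matrix.sub_apply, conj_dg]
  fin_cases i <;> fin_cases j
  · convert key _ _ (h.r0.trans (by linarith)) (l 0 2 h.o02) using 2; simp [dg3]; ring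
  · convert key _ _ (h.r01.trans (by linarith)) (l 0 2 h.o12) using 2; simp [dg3]; ring
  · convert key _ _ (two _ _ (l 0 0 h.o20) (l 0 1 h.o21)) (r 2 2 h.o02) using 2; simp [dg3]; ring
  · convert key _ _ (h.r01.trans (by linarith)) (l 0 2 h.o12) using 2; simp [dg3]; ring
  · convert key _ _ (h.r1.trans (by linarith)) (l 1 2 h.o12) using 2; simp [dg3]; ring
  · convert key _ _ (two _ _ (l 1 0 h.o20) (l 1 1 h.o21)) (r 2 2 h.o12) using 2; simp [dg3]; ring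
  · convert key _ _ (two _ _ (l 0 0 h.o20) (l 0 1 h.o21)) (r 2 2 h.o02) using 2; simp [dg3]; ring
  · convert key _ _ (two _ _ (l 1 0 h.o20) (l 1 1 h.o21)) (r 2 2 h.o12) using 2; simp [dg3]; ring
  · convert key _ _ (two _ _ (l 2 0 h.o20) (l 2 1 h.o21)) (h.r2.trans (by linarith)) using 2
    simp [dg3]; ring

/-- the inverse of the lateral block does not stretch -/
lemma Pk.lat {P : Mx} (h : Pk (1 / 10 ^ 6) P) (u v : ℝ) : u ^ 2 + v ^ 2 ≤
    (1 + 1 / 10 ^ 5) * ((P 0 0 * u + P 0 1 * v) ^ 2 + (P 1 0 * u + P 1 1 * v) ^ 2) := by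
  obtain ⟨a1, a2⟩ := abs_le.1 h.r0
  obtain ⟨b1, b2⟩ := abs_le.1 h.r1
  have c := h.r01
  generalize P 0 0 = a at *
  generalize P 0 1 = b at *
  generalize P 1 0 = c' at *
  generalize P 1 1 = d at *
  obtain ⟨p, hp⟩ : ∃ p, p = a * u + b * v := ⟨_, rfl⟩
  obtain ⟨q, hq⟩ : ∃ q, q = c' * u + d * v := ⟨_, rfl⟩
  have e1 : (a * d - b * c') ^ 2 * (u ^ 2 + v ^ 2) = (c' ^ 2 + d ^ 2) * p ^ 2 +
      (a ^ 2 + b ^ 2) * q ^ 2 - 2 * ((a * c' + b * d) * (p * q)) := by rw [hp, hq]; ring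
  have e2 : (a * d - b * c') ^ 2 = (a ^ 2 + b ^ 2) * (c' ^ 2 + d ^ 2) -
      (a * c' + b * d) * (a * c' + b * d) := by ring
  have h1 : |p * q| ≤ (p ^ 2 + q ^ 2) / 2 :=
    abs_le.2 ⟨by nlinarith [sq_nonneg (p + q)], by nlinarith [sq_nonneg (p - q)]⟩
  have h2 := (abs_le.1 (amul c h1)).1
  have h3 := (abs_le.1 (amul c c)).2
  have h4 : (1 - 1 / 10 ^ 6) * (1 - 1 / 10 ^ 6) ≤ (a ^ 2 + b ^ 2) * (c' ^ 2 + d ^ 2) :=
    mul_le_mul (by linarith) (by linarith) (by norm_num) (by positivity)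
  have h5 : 1 - 3 / 10 ^ 6 ≤ (a * d - b * c') ^ 2 := by rw [e2]; linarith
  have h6 := mul_le_mul_of_nonneg_right h5 (show 0 ≤ u ^ 2 + v ^ 2 by positivity)
  have h7 := mul_le_mul_of_nonneg_right (show c' ^ 2 + d ^ 2 ≤ 1 + 1 / 10 ^ 6 by linarith)
    (sq_nonneg p)
  have h8 := mul_le_mul_of_nonneg_right (show a ^ 2 + b ^ 2 ≤ 1 + 1 / 10 ^ 6 by linarith)
    (sq_nonneg q)
  rw [← hp, ← hq]
  nlinarith [sq_nonneg p, sq_nonneg q]

/-- the reduced covariance in the finer vertical scale -/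
lemma comb {h k : V} {y μ a e e' : ℝ} (hk : ∀ i, 0 < k i) (hh : ∀ i, 0 < h i)
    (hl : ∀ i, i ≠ 2 → k i = h i) (h1 : ∀ i, h i ≤ μ * k i) (h2 : ∀ i, y ≤ μ * k i) (hy : 0 ≤ y)
    (ha : |a| ≤ 4 * y ^ 2) (he : 0 ≤ e) {X X' L L' B B' : Mx}
    (hX : EB (nrm h X - nrm h X') (bm e e' e')) (hL : EB (nrm h L - nrm h L') (cm (4 * e')))
    (hB : EB (B - B') (cm e')) :
    EB (nrm k (X - L - a • B) - nrm k (X' - L' - a • B')) (cm (e + 9 * μ ^ 2 * e')) := by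
  intro i j
  have e0 := eb_nonneg hB
  have pk := mul_pos (hk i) (hk j)
  have ph := mul_pos (hh i) (hh j)
  have μ0 : 0 ≤ μ := nonneg_of_mul_nonneg_left ((hh i).le.trans (h1 i)) (hk i)
  have r1 : h i * h j ≤ μ ^ 2 * (k i * k j) := by
    have := mul_le_mul (h1 i) (h1 j) (hh j).le (mul_nonneg μ0 (hk i).le)
    linarith
  have r2 : y ^ 2 ≤ μ ^ 2 * (k i * k j) := by
    have := mul_le_mul (h2 i) (h2 j) hy (mul_nonneg μ0 (hk i).le)
    linarith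
  have un : ∀ {A A' : Mx} {t : ℝ}, |(nrm h A - nrm h A') i j| ≤ t →
      |A i j - A' i j| ≤ t * (h i * h j) := fun H => by
    simp only [nrm, Matrix.sub_apply, of_apply] at H
    rwa [← sub_div, abs_div, abs_of_pos ph, div_le_iff₀ ph] at H
  have b1 : |X i j - X' i j| ≤ (e + μ ^ 2 * e') * (k i * k j) := by
    have t := un (hX i j)
    have t1 : 0 ≤ μ ^ 2 * e' * (k i * k j) := by positivity
    have t2 : e' * (h i * h j) ≤ (e + μ ^ 2 * e') * (k i * k j) := by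
      nlinarith [mul_le_mul_of_nonneg_left r1 e0, mul_nonneg he pk.le]
    by_cases hi : i = 2
    · refine t.trans (le_trans (le_of_eq ?_) t2)
      subst hi; fin_cases j <;> simp [bm]
    by_cases hj : j = 2
    · refine t.trans (le_trans (le_of_eq ?_) t2)
      subst hj; fin_cases i <;> simp [bm]
    have t3 : bm e e' e' i j = e := by
      fin_cases i <;> fin_cases j <;> simp_all [bm]
    rw [t3, ← hl i hi, ← hl j hj] at t
    linarith
  have b2 : |L i j - L' i j| ≤ 4 * e' * (μ ^ 2 * (k i * k j)) :=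
    (un (hL i j)).trans (mul_le_mul_of_nonneg_left r1 (show (0 : ℝ) ≤ 4 * e' by positivity))
  have b3 : |a * (B i j - B' i j)| ≤ 4 * (μ ^ 2 * (k i * k j)) * e' :=
    amul (ha.trans (by linarith)) (hB i j)
  show |(nrm k (X - L - a • B) - nrm k (X' - L' - a • B')) i j| ≤ e + 9 * μ ^ 2 * e'
  simp only [nrm, Matrix.sub_apply, of_apply, Matrix.smul_apply, smul_eq_mul]
  rw [← sub_div, abs_div, abs_of_pos pk, div_le_iff₀ pk, abs_le]
  constructor <;> linarith [abs_le.1 b1, abs_le.1 b2, abs_le.1 b3]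

lemma sqrt_le_dir {x y β : ℝ} (h : ∀ a b : ℝ, a ^ 2 + b ^ 2 = 1 → |a * x + b * y| ≤ β) :
    √(x ^ 2 + y ^ 2) ≤ β := by
  have s0 : 0 ≤ x ^ 2 + y ^ 2 := by positivity
  rcases (Real.sqrt_nonneg (x ^ 2 + y ^ 2)).eq_or_lt with e | e
  · rw [← e]; exact (abs_nonneg _).trans (h 1 0 (by norm_num))
  · have e1 := Real.sq_sqrt s0
    generalize √(x ^ 2 + y ^ 2) = r at *
    have h1 := h (x / r) (y / r) (by field_simp; linarith)
    have e2 : x / r * x + y / r * y = r := by field_simp; linarith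
    rw [e2] at h1
    exact (le_abs_self _).trans h1

lemma dir_le_sqrt {a b x y t : ℝ} (h : a ^ 2 + b ^ 2 ≤ t ^ 2) (ht : 0 ≤ t) :
    |a * x + b * y| ≤ t * √(x ^ 2 + y ^ 2) := by
  have s0 : 0 ≤ x ^ 2 + y ^ 2 := by positivity
  refine abs_le.2 (abs_le_of_sq_le_sq' ?_ (by positivity))
  rw [mul_pow, Real.sq_sqrt s0]
  nlinarith [sq_nonneg (a * y - b * x), mul_le_mul_of_nonneg_right h s0]

end Cr

end
end Pool.Agent.MP_20bec2_an.T3

end MrgPart3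

-- marker of a merged file
example : 731051 + 748123 = 731051 + 748123 := rfl
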