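import Pool.Agent.MP_20bec2_an.T3.Final
import Pool.Agent.MP_20bec2_an.T3.K4
import Pool.Agent.MP_20bec2_an.T3.Conv
import Pool.Agent.MP_20bec2_an.T3.Rem
import Pool.Agent.MP_20bec2_an.T3.Calc1b
import Pool.Agent.MP_20bec2_an.T3.Calc2C
import Pool.Agent.MP_20bec2_an.T3.Zt
import Pool.Agent.MP_20bec2_an.T3.Vtr
import Pool.Agent.MP_20bec2_an.T3.Par3
import Pool.Agent.MP_20bec2_an.T3.CrA

-- ======== part 0: formerly Pool.Agent.MP_20bec2_an.T3.Tail
section MrgPart0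

/-! Global tails of the density. -/

set_option autoImplicit false
open MeasureTheory Set Filter Matrix Topology

namespace Pool.Agent.MP_20bec2_an.T3
noncomputable section

namespace Tail

lemma hp_const (t : ℝ) (l : List (Fin 3)) : hp (fun _ => t) l = t ^ l.length := by
  simp [hp]

lemma sum_sq_le (y : V) : ∑ i, y i ^ 2 ≤ 3 * ‖y‖ ^ 2 := by
  have h : ∀ i, y i ^ 2 ≤ ‖y‖ ^ 2 := fun i => by
    rw [← sq_abs]
    exact pow_le_pow_left₀ (abs_nonneg _) (norm_le_pi_norm y i) 2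
  rw [Fin.sum_univ_three]
  linarith [h 0, h 1, h 2]

lemma sq_le_dot (v : V) (i : Fin 3) : v i ^ 2 ≤ v ⬝ᵥ v := by
  unfold dotProduct
  rw [sq]
  exact Finset.single_le_sum (f := fun j => v j * v j) (fun j _ => mul_self_nonneg _)
    (Finset.mem_univ i)

lemma dot_pos {v : V} (hv : v ≠ 0) : 0 < v ⬝ᵥ v := by
  obtain ⟨i, hi⟩ := Function.ne_iff.1 hv
  exact lt_of_lt_of_le (sq_pos_of_ne_zero hi) (sq_le_dot v i)

end Tail

open KBA Tail

theorem tail (h1 : K1Stmt) : TailStmt := by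
  intro n
  have hn : (1 : ℝ) ≤ n.factorial := by exact_mod_cast n.factorial_pos
  refine ⟨343 * (9 * (n.factorial : ℝ) ^ 2), by nlinarith, ?_⟩
  intro a Z S A μ κ r x0 z hG hA μ0 μ1 κ0 _ hS l hl
  obtain ⟨-, -, -, c, C, -, hC⟩ := id hG
  have A0 : 0 ≤ A := (abs_nonneg _).trans (hA 0)
  have i1 : 1 ≤ μ⁻¹ := (one_le_inv₀ μ0).2 μ1
  obtain ⟨g1, g2⟩ := gauss_int (fun _ => κ ^ 2 / 12) x0 fun _ => by positivity
  rw [((h1 a Z S hG).2.2 l z).2, ← Real.norm_eq_abs]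
  refine (norm_integral_le_of_norm_le (g1.const_mul
    (A * (9 * (n.factorial : ℝ) ^ 2 * μ⁻¹ ^ (n + 3) * Real.exp (-r / 4))))
    (Eventually.of_forall fun x => ?_)).trans ?_
  · by_cases hx : a x = 0
    · rw [hx, zero_mul, norm_zero]
      positivity
    obtain ⟨s1, s2⟩ := hS x hx
    have sy := ((hC x).2 hx).2.1
    have hpos : (S x).PosDef := posDef sy fun v hv => (mul_pos μ0 (dot_pos hv)).trans_le (s1 v)
    have hb := ker_bound_sub (g := fun _ => μ⁻¹) sy hpos (fun _ => by positivity)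
      (fun i => (inv_diag_le hpos i μ0 fun v =>
        (mul_le_mul_of_nonneg_left (sq_le_dot v i) μ0.le).trans (s1 v)).trans (by nlinarith))
      (Z x) hl z
    rw [hp_const] at hb
    have e1 : Real.exp (-((Z x - z) ⬝ᵥ ((S x)⁻¹ *ᵥ (Z x - z))) / 4) ≤
        Real.exp (-r / 4) * Real.exp (-∑ i, κ ^ 2 / 12 * (x i - x0 i) ^ 2) := by
      rw [← Real.exp_add, Real.exp_le_exp, ← Finset.mul_sum]
      have := mul_le_mul_of_nonneg_left (sum_sq_le (x - x0)) (sq_nonneg κ)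
      simp only [Pi.sub_apply] at this
      nlinarith
    have e2 : μ⁻¹ ^ l.length * (μ⁻¹ * μ⁻¹ * μ⁻¹) ≤ μ⁻¹ ^ (n + 3) := by
      rw [show μ⁻¹ ^ l.length * (μ⁻¹ * μ⁻¹ * μ⁻¹) = μ⁻¹ ^ (l.length + 3) by ring]
      exact pow_le_pow_right₀ i1 (by omega)
    rw [Real.norm_eq_abs, abs_mul, mul_assoc]
    refine mul_le_mul (hA x) (hb.trans ?_) (abs_nonneg _) A0
    calc _ = 9 * (n.factorial : ℝ) ^ 2 * (μ⁻¹ ^ l.length * (μ⁻¹ * μ⁻¹ * μ⁻¹)) *
          Real.exp (-((Z x - z) ⬝ᵥ ((S x)⁻¹ *ᵥ (Z x - z))) / 4) := by ring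
      _ ≤ 9 * (n.factorial : ℝ) ^ 2 * μ⁻¹ ^ (n + 3) *
          (Real.exp (-r / 4) * Real.exp (-∑ i, κ ^ 2 / 12 * (x i - x0 i) ^ 2)) := by gcongr
      _ = _ := by ring
  · rw [integral_const_mul, g2]
    have e3 : Real.sqrt (Real.pi / (κ ^ 2 / 12)) ≤ 7 / κ := by
      refine Real.sqrt_le_iff.2 ⟨by positivity, ?_⟩
      rw [div_pow, div_div_eq_mul_div]
      gcongr
      linarith [Real.pi_lt_four]
    have e4 : ∏ _i : Fin 3, Real.sqrt (Real.pi / (κ ^ 2 / 12)) ≤ (7 / κ) ^ 3 := by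
      rw [Finset.prod_const, Finset.card_univ, Fintype.card_fin]
      exact pow_le_pow_left₀ (Real.sqrt_nonneg _) e3 3
    refine (mul_le_mul_of_nonneg_left e4 (by positivity)).trans_eq ?_
    rw [inv_pow]
    field_simp
    norm_num

end
end Pool.Agent.MP_20bec2_an.T3

end MrgPart0

-- ======== part 1: formerly Pool.Agent.MP_20bec2_an.T3.StgA
section MrgPart1

/-! Row STG, general part: linearity of the flux in the weight, a path of small stages with a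
local weight, transport of bounds between two frames. -/

set_option autoImplicit false
open MeasureTheory Set Filter Matrix Topology

namespace Pool.Agent.MP_20bec2_an.T3
noncomputable section
open Classical

namespace Stg

variable {a a' b : V → ℝ} {Z Z' u u' : V → V} {S S' B B' : V → Mx}

theorem dens_congr (h : ∀ x, a x = a' x ∧ (a x ≠ 0 → Z x = Z' x ∧ S x = S' x)) :
    dens a Z S = dens a' Z' S' := by
  funext z
  refine integral_congr_ae (Eventually.of_forall fun x => ?_)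
  by_cases hx : a x = 0
  · simp only [← (h x).1, hx, zero_mul]
  · simp only [← (h x).1, ((h x).2 hx).1, ((h x).2 hx).2]

theorem flux_congr (h : ∀ x, a x ≠ 0 → u x = u' x ∧ B x = B' x) :
    flux a Z S u B = flux a Z S u' B' := by
  have e : ∀ (t : ℝ) (ψ ψ' : V → ℝ), (∀ x, a x ≠ 0 → ψ x = ψ' x) →
      dens (fun x => a x * ψ x) (fun x => Z x + t • u x) (fun x => S x + t • (B x + (B x)ᵀ)) =
      dens (fun x => a x * ψ' x) (fun x => Z x + t • u' x)
        (fun x => S x + t • (B' x + (B' x)ᵀ)) := fun t ψ ψ' hψ => dens_congr fun x => by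
    by_cases hx : a x = 0
    · simp [hx]
    · simp [hψ x hx, (h x hx).1, (h x hx).2]
  funext z i
  unfold flux
  refine intervalIntegral.integral_congr fun t _ => ?_
  simp only [e t (fun x => u x i) (fun x => u' x i) fun x hx => by rw [(h x hx).1],
    fun j => e t (fun x => B x i j) (fun x => B' x i j) fun x hx => by rw [(h x hx).2]]

theorem dens_add (ha : GK a Z S) (hb : GK b Z S) :
    dens (fun x => a x + b x) Z S = fun z => dens a Z S z + dens b Z S z := by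
  funext z
  simp only [dens, add_mul]
  exact integral_add ((k1 a Z S ha).2.1 z) ((k1 b Z S hb).2.1 z)

theorem dens_zero (h : ∀ x, a x = 0) : dens a Z S = fun _ => 0 := by
  funext z
  simp [dens, h]

theorem gkp_parts (h : GKp a Z S u B) : (∀ k, Continuous fun x => u x k) ∧
    (∀ k, ∃ C, ∀ x, a x ≠ 0 → |u x k| ≤ C) ∧ ∀ k l, ∃ C, ∀ x, a x ≠ 0 → |B x k l| ≤ C :=
  let ⟨C, hC⟩ := h.2.2.2.2
  ⟨fun k => (continuous_apply k).comp h.2.2.1,
    fun k => ⟨C, fun x hx => (norm_le_pi_norm (u x) k).trans (hC x hx).1⟩,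
    fun k l => ⟨C, fun x hx => (hC x hx).2 k l⟩⟩

theorem flux_add (ha : GKp a Z S u B) (hb : GKp b Z S u B) (z : V) :
    flux (fun x => a x + b x) Z S u B z = flux a Z S u B z + flux b Z S u B z := by
  obtain ⟨c1, a1, a2⟩ := gkp_parts ha
  obtain ⟨-, b1, b2⟩ := gkp_parts hb
  funext i
  have i1 := (K3.int_path k1 ha (c1 i) (a1 i) z).1.neg.add
    (IntervalIntegrable.sum Finset.univ fun l _ =>
      (K3.int_path k1 ha (ha.2.2.2.1 i l) (a2 i l) z).2 l)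
  have i2 := (K3.int_path k1 hb (c1 i) (b1 i) z).1.neg.add
    (IntervalIntegrable.sum Finset.univ fun l _ =>
      (K3.int_path k1 hb (hb.2.2.2.1 i l) (b2 i l) z).2 l)
  rw [Pi.add_apply]
  unfold flux
  rw [← intervalIntegral.integral_add (by simpa only [Pi.neg_apply, Finset.sum_apply] using i1)
    (by simpa only [Pi.neg_apply, Finset.sum_apply] using i2)]
  refine intervalIntegral.integral_congr fun t ht => ?_
  rw [uIcc_of_le zero_le_one] at ht
  have g1 := fun l => K3.gk_path ha (ha.2.2.2.1 i l) (a2 i l) ht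
  have g2 := fun l => K3.gk_path hb (hb.2.2.2.1 i l) (b2 i l) ht
  simp only [add_mul, dens_add (K3.gk_path ha (c1 i) (a1 i) ht) (K3.gk_path hb (c1 i) (b1 i) ht),
    fun l => dens_add (g1 l) (g2 l), fun l => pd_add (k1 _ _ _ (g1 l)).1 (k1 _ _ _ (g2 l)).1 l,
    Finset.sum_add_distrib]
  ring

/-- bounded measurable weights -/
def Wt (b : V → ℝ) : Prop := Measurable b ∧ ∃ C, ∀ x, |b x| ≤ C

theorem Wt.add (ha : Wt a) (hb : Wt b) : Wt fun x => a x + b x :=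
  let ⟨C, hC⟩ := ha.2
  let ⟨C', hC'⟩ := hb.2
  ⟨ha.1.add hb.1, C + C', fun x => (abs_add_le _ _).trans (add_le_add (hC x) (hC' x))⟩

theorem wt_sum {ι : Type} {w : ι → V → ℝ} (s : Finset ι) (h : ∀ k, Wt (w k)) :
    Wt fun x => ∑ k ∈ s, w k x := by
  induction s using Finset.induction_on with
  | empty => exact ⟨by simp, 0, by simp⟩
  | insert k s hk ih => simpa only [Finset.sum_insert hk] using (h k).add ih

theorem flux_sum {ι : Type} {w : ι → V → ℝ} (H : ∀ b, Wt b → GKp b Z S u B) (hb : Wt b)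
    (s : Finset ι) (h : ∀ k, Wt (w k)) (z : V) :
    flux (fun x => b x + ∑ k ∈ s, w k x) Z S u B z =
      flux b Z S u B z + ∑ k ∈ s, flux (w k) Z S u B z := by
  induction s using Finset.induction_on with
  | empty => simp
  | insert k s hk ih =>
    simp only [Finset.sum_insert hk]
    have e : (fun x => b x + (w k x + ∑ k ∈ s, w k x)) =
        fun x => (b x + ∑ k ∈ s, w k x) + w k x := funext fun x => by ring
    rw [e, flux_add (H _ (hb.add (wt_sum s h))) (H _ (h k)), ih]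
    abel

/-- bound of the flux from bounds along the path -/
theorem flux_cb {n : ℕ} {h : V} {U : Set V} {A1 A2 : ℝ} (hh : ∀ i, 0 < h i)
    (H : GKp a Z S u B) (i : Fin 3)
    (h1 : ∀ t ∈ Icc (0 : ℝ) 1, CB n h U (dens (fun x => a x * u x i) (fun x => Z x + t • u x)
      fun x => S x + t • (B x + (B x)ᵀ)) A1)
    (h2 : ∀ t ∈ Icc (0 : ℝ) 1, ∀ j, CB (n + 1) h U (dens (fun x => a x * B x i j)
      (fun x => Z x + t • u x) fun x => S x + t • (B x + (B x)ᵀ)) A2) :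
    CB n h U (fun z => flux a Z S u B z i) (A1 + ∑ j, A2 / h j) := by
  intro l hl z hz
  have hp0 := hp_pos hh l
  rw [(k2 k1 a Z S u B H).2.2 l z i, ← le_div_iff₀' hp0]
  have := intervalIntegral.norm_integral_le_of_norm_le_const (a := 0) (b := 1)
    (C := (A1 + ∑ j, A2 / h j) / hp h l)
    (f := fun t => -pds l (dens (fun x => a x * u x i) (fun x => Z x + t • u x)
        (fun x => S x + t • (B x + (B x)ᵀ))) z +
      ∑ j, pds l (pd j (dens (fun x => a x * B x i j) (fun x => Z x + t • u x)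
        (fun x => S x + t • (B x + (B x)ᵀ)))) z) fun t ht => by
    rw [uIoc_of_le zero_le_one] at ht
    have ht' : t ∈ Icc (0 : ℝ) 1 := Ioc_subset_Icc_self ht
    rw [Real.norm_eq_abs, add_div, Finset.sum_div]
    refine (abs_add_le _ _).trans (add_le_add ?_ ((Finset.abs_sum_le_sum_abs _ _).trans
      (Finset.sum_le_sum fun j _ => ?_)))
    · rw [abs_neg]
      exact CBl.le_div hh (h1 t ht') hl hz
    · exact CBl.le_div hh ((h2 t ht' j).pd_div hh j) hl hz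
  simpa using this

/-- the matrix of a stage -/
def Bq (u : V → V) (x : V) : Mx := -(1 / 2 : ℝ) • vecMulVec (u x) (u x)

theorem Bq_add (u : V → V) (x : V) : Bq u x + (Bq u x)ᵀ = -vecMulVec (u x) (u x) := by
  ext i j
  simp only [Bq, Matrix.add_apply, transpose_apply, Matrix.smul_apply, vecMulVec_apply,
    Matrix.neg_apply, smul_eq_mul]
  ring

/-- a path of small stages with a local weight -/
structure Loc (h : V) (U : Set V) (a : V → ℝ) (A δ : ℝ) (T : ℕ) (Z : ℕ → V → V) (S : ℕ → V → Mx)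
    (u : ℕ → V → V) : Prop where
  kl : ∀ m ≤ T, KL h U a A (Z m) (S m)
  cu : ∀ m, Continuous (u m)
  d0 : 0 ≤ δ
  d1 : δ ≤ 1 / 1000
  bu : ∀ m x i, |u m x i| ≤ δ * h i
  sZ : ∀ m, ∀ x ∈ U, Z (m + 1) x = Z m x + u m x
  sS : ∀ m, ∀ x ∈ U, S (m + 1) x = S m x - vecMulVec (u m x) (u m x)

/-- the linear part -/
def lin (a : V → ℝ) (T : ℕ) (Z : ℕ → V → V) (S : ℕ → V → Mx) (u : ℕ → V → V) (z : V) : V :=
  fun i => -∑ m ∈ Finset.range T, dens (fun x => a x * u m x i) (Z m) (S m) z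
/-- the exact flux minus the linear part -/
def rm (a : V → ℝ) (T : ℕ) (Z : ℕ → V → V) (S : ℕ → V → Mx) (u : ℕ → V → V) (z : V) : V :=
  ∑ m ∈ Finset.range T, flux a (Z m) (S m) (u m) (Bq (u m)) z - lin a T Z S u z

theorem loc_main : ∃ C : ℝ, 1 ≤ C ∧ ∀ (h : V) (U : Set V) (a : V → ℝ) (A δ : ℝ) (T : ℕ)
    (Z : ℕ → V → V) (S : ℕ → V → Mx) (u : ℕ → V → V), Loc h U a A δ T Z S u →
    Sm (lin a T Z S u) ∧ Sm (rm a T Z S u) ∧
    (∀ i, CB 4 h univ (fun z => rm a T Z S u z i) (T * (C * A * δ ^ 3 * h i))) ∧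
    CB 3 h univ (dv (lin a T Z S u)) (2 * (C * A) + 3 * (T * (C * A * δ ^ 3))) ∧
    ∀ (z : V) (r : ℝ), (∀ m < T, ∀ x ∈ U, u m x ≠ 0 → r ≤ ∑ i, ((Z m x - z) i / h i) ^ 2) →
      ∀ i, CB 4 h {z} (fun w => lin a T Z S u w i)
        (T * (C * (A * (δ * h i)) * Real.exp (-r / 60))) := by
  obtain ⟨C1, hC1, H1⟩ := kb_ k1 4
  obtain ⟨C2, hC2, H2⟩ := rem k1 (k2 k1) (kb_ k1) 4
  refine ⟨C1 + C2, by linarith, fun h U a A δ T Z S u L => ?_⟩
  have K0 := L.kl 0 (Nat.zero_le _)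
  have hh := K0.hh
  have hh' : ∀ i, 0 ≤ h i := fun i => (hh i).le
  have hA : 0 ≤ A := (abs_nonneg _).trans (K0.ba 0)
  have d0 := L.d0
  have ku : ∀ m ≤ T, ∀ i, KL h U (fun x => a x * u m x i) (A * (δ * h i)) (Z m) (S m) :=
    fun m hm i =>
      let K := L.kl m hm
      ⟨K.hh, K.cx, K.cl, K.ma.mul ((continuous_apply i).comp (L.cu m)).measurable,
        fun x => by
          rw [abs_mul]
          exact mul_le_mul (K.ba x) (L.bu m x i) (abs_nonneg _) hA,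
        fun x hx => by rw [K.sa x hx, zero_mul], K.dZ, K.bZ, K.cS, K.bS⟩
  have lt : ∀ m ∈ Finset.range T, m ≤ T := fun m hm => (Finset.mem_range.1 hm).le
  have su : ∀ m ∈ Finset.range T, ∀ i, Sm (dens (fun x => a x * u m x i) (Z m) (S m)) :=
    fun m hm i => (k1 _ _ _ (H1.2 _ _ _ _ _ _ (ku m (lt m hm) i)).1).1
  have R := fun m (hm : m ∈ Finset.range T) => H2 h U a A (Z m) (S m) (u m) δ (L.kl m (lt m hm))
    (L.cu m) L.d0 L.d1 fun x _ => L.bu m x
  have sf : ∀ m ∈ Finset.range T, Sm (flux a (Z m) (S m) (u m) (Bq (u m))) := fun m hm =>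
    (k2 k1 _ _ _ _ _ (R m hm).1).1
  have s1 : Sm (lin a T Z S u) := sm_pi fun i => (ContDiff.sum fun m hm => su m hm i).neg
  have s0 : Sm fun z => ∑ m ∈ Finset.range T, flux a (Z m) (S m) (u m) (Bq (u m)) z :=
    ContDiff.sum sf
  have s2 : Sm (rm a T Z S u) := s0.sub s1
  have b2 : ∀ i, CB 4 h univ (fun z => rm a T Z S u z i) (T * ((C1 + C2) * A * δ ^ 3 * h i)) := by
    intro i
    have := CBl.sum_card (Finset.range T) hh'
      (fun m hm => ((sf m hm).coord i).add (su m hm i)) fun m hm => (R m hm).2 i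
    refine (this.congr_fun fun z => ?_).monoB ?_
    · simp only [rm, lin, Pi.sub_apply, Finset.sum_apply, sub_neg_eq_add, Finset.sum_add_distrib]
    · rw [Finset.card_range]
      have := hh' i
      gcongr
      linarith
  have sd : ∀ m ≤ T, Sm (dens a (Z m) (S m)) := fun m hm =>
    (k1 _ _ _ (H1.2 _ _ _ _ _ _ (L.kl m hm)).1).1
  have tel : ∀ z, dv (fun z => ∑ m ∈ Finset.range T, flux a (Z m) (S m) (u m) (Bq (u m)) z) z =
      dens a (Z T) (S T) z - dens a (Z 0) (S 0) z := by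
    intro z
    rw [dv_sum _ sf, ← Finset.sum_range_sub fun m => dens a (Z m) (S m) z]
    refine Finset.sum_congr rfl fun m hm => ?_
    have e := (k2 k1 _ _ _ _ _ (R m hm).1).2.1 z
    have e' : dens a (Z (m + 1)) (S (m + 1)) = dens a (fun x => Z m x + u m x)
        fun x => S m x + (Bq (u m) x + (Bq (u m) x)ᵀ) := dens_congr fun x => ⟨rfl, fun hx => by
      have hU : x ∈ U := by_contra fun hU => hx (K0.sa x hU)
      rw [L.sZ m x hU, L.sS m x hU, Bq_add, sub_eq_add_neg]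
      exact ⟨rfl, rfl⟩⟩
    rw [e']
    exact (sub_eq_of_eq_add' e).symm
  refine ⟨s1, s2, b2, ?_, fun z r hr i => ?_⟩
  · have c1 := ((H1.2 _ _ _ _ _ _ (L.kl T le_rfl)).2.1.of_le (by norm_num : 3 ≤ 4)).sub hh'
      (sd T le_rfl) (sd 0 (Nat.zero_le _)) ((H1.2 _ _ _ _ _ _ K0).2.1.of_le (by norm_num : 3 ≤ 4))
    have c2 := cb_dv hh s2 fun i => (b2 i).toCV
    refine ((CBl.sub hh' ((sd T le_rfl).sub (sd 0 (Nat.zero_le _))) s2.dv c1 c2).congr_fun
      fun z => ?_).monoB ?_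
    · rw [← tel, ← dv_sub s0 s2]
      congr 1
      funext w
      simp only [rm, sub_sub_cancel]
    · have e : ∀ i, T * ((C1 + C2) * A * δ ^ 3 * h i) / h i = T * ((C1 + C2) * A * δ ^ 3) :=
        fun i => by have := (hh i).ne'; field_simp
      simp only [e, Finset.sum_const, Finset.card_univ, Fintype.card_fin, nsmul_eq_mul]
      have : C1 * A ≤ (C1 + C2) * A := by gcongr; linarith
      push_cast
      linarith
  · have := (CBl.sum_card (Finset.range T) hh' (fun m hm => su m hm i) fun m hm =>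
      (H1.2 _ _ _ _ _ _ (ku m (lt m hm) i)).2.2 z r fun x hx h0 =>
        hr m (Finset.mem_range.1 hm) x hx fun e => h0 (by rw [e]; simp)).neg
    refine this.monoB ?_
    rw [Finset.card_range]
    have := hh' i
    gcongr
    linarith

/-- transport of a flux from the frame `F'` to the frame `F` -/
theorem transport {F F' : Fr}
    (e1 : EB (F.Q⁻¹ * F'.Q) (cm 2)) (e2 : EB (F'.Q⁻¹ * F.Q) (cm 2)) {h k : V} {κ β : ℝ}
    (hh : ∀ i, 0 ≤ h i) (hk : ∀ i, 0 ≤ k i) (hκ : 1 ≤ κ) (hle : ∀ i j, h j ≤ κ * k i) {R : V → V}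
    (hR : Sm R) (H : ∀ i, CB 4 k univ (fun z => R z i) β) (i : Fin 3) :
    CB 4 h univ (fun z => F.vd (F'.unvd R) z i) (288 * ((6 * κ) ^ 4 * β)) := by
  have hβ : 0 ≤ β := (H 0).nonneg (mem_univ 0)
  have a1 : ∀ i, CB 4 h univ
      (fun z => R (F'.Q⁻¹ *ᵥ (F.z0 - F'.z0) + (F'.Q⁻¹ * F.Q) *ᵥ z) i) ((3 * (2 * κ)) ^ 4 * β) :=
    fun i => CB.affine (g := fun z => R z i) hk hh (by linarith) (fun i j => by
      have := mul_le_mul (e2 i j) (hle i j) (hh j) (by simp [cm])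
      simp only [cm, of_apply] at this
      linarith) (SmN.of_sm (hR.coord i) univ) (fun _ _ => mem_univ _) (H i)
  have a2 := cbl_const_mulVec (F.Q⁻¹ * F'.Q) hh (hR.comp (sm_affine _ _)) a1 i
  have d : |F.Q.det * F'.Q.det⁻¹| ≤ 48 := by
    have h1 : (F'.Q⁻¹ * F.Q).det = F.Q.det * F'.Q.det⁻¹ := by
      rw [det_mul, det_nonsing_inv, Ring.inverse_eq_inv', mul_comm]
    have h2 := Matrix.det_le (abv := AbsoluteValue.abs) (A := F'.Q⁻¹ * F.Q) (x := 2) e2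
    rw [h1] at h2
    norm_num [Nat.factorial] at h2 ⊢
    exact h2
  refine ((a2.smul_le hh d).congr_fun fun z => ?_).monoB ?_
  · have e : F'.zc (F.zp z) = F'.Q⁻¹ *ᵥ (F.z0 - F'.z0) + (F'.Q⁻¹ * F.Q) *ᵥ z := by
      simp only [Fr.zc, Fr.zp, ← mulVec_mulVec, ← mulVec_add]
      congr 1
      abel
    simp only [Fr.vd, Fr.unvd, e, mulVec_smul, mulVec_mulVec, Pi.smul_apply, smul_eq_mul,
      Function.comp_apply, mul_assoc]
  · have : ∑ j, |(F.Q⁻¹ * F'.Q) i j| * ((3 * (2 * κ)) ^ 4 * β) ≤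
        ∑ _j : Fin 3, 2 * ((3 * (2 * κ)) ^ 4 * β) := Finset.sum_le_sum fun j _ =>
      mul_le_mul_of_nonneg_right (e1 i j) (by positivity)
    simp only [Finset.sum_const, Finset.card_univ, Fintype.card_fin, nsmul_eq_mul] at this
    have e : (3 * (2 * κ)) ^ 4 = (6 * κ) ^ 4 := by ring
    rw [e] at this ⊢
    push_cast at this
    linarith

end Stg

end
end Pool.Agent.MP_20bec2_an.T3

end MrgPart1

-- ======== part 2: formerly Pool.Agent.MP_20bec2_an.T3.Left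
section MrgPart2

-- ======== part 0: formerly Pool.Agent.MP_20bec2_an.T3.Kg
section MrgPart0

/-! Near part, far part and crude bound of a density. -/

set_option autoImplicit false
open MeasureTheory Set Filter Matrix Topology

namespace Pool.Agent.MP_20bec2_an.T3
noncomputable section

namespace Kg

open Prof

lemma dot_nn (v : V) : 0 ≤ v ⬝ᵥ v := (sq_nonneg _).trans (K3.sq_le_dot v)

lemma dot_eb {A : Mx} {E : ℝ} (h : EB A (cm E)) (v : V) :
    (A *ᵥ v) ⬝ᵥ (A *ᵥ v) ≤ 27 * E ^ 2 * (v ⬝ᵥ v) := by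
  have h1 := pow_le_pow_left₀ (norm_nonneg _) (norm_mulVec_le h v) 2
  have h2 := mul_le_mul_of_nonneg_left (K3.sq_le_dot v) (sq_nonneg E)
  have h3 := K3.dot_le_sq (A *ᵥ v)
  nlinarith

lemma eb_t {A : Mx} {E : ℝ} (h : EB A (cm E)) : EB Aᵀ (cm E) := fun i j => h j i

lemma eb_inv {A : Mx} {c : ℝ} (h : ∀ w : V, ‖w‖ ≤ c * ‖A *ᵥ w‖) :
    A.det ≠ 0 ∧ EB A⁻¹ (cm c) := by
  have hu : IsUnit A := mulVec_injective_iff_isUnit.1 fun v w e => by
    have := h (v - w)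
    rw [mulVec_sub, show A *ᵥ v = A *ᵥ w from e, sub_self, norm_zero, mul_zero] at this
    exact sub_eq_zero.1 (norm_le_zero_iff.1 this)
  have hd := (isUnit_iff_isUnit_det A).1 hu
  refine ⟨hd.ne_zero, fun i j => ?_⟩
  have h1 := h (A⁻¹ *ᵥ Pi.single j 1)
  rw [mulVec_mulVec, mul_nonsing_inv _ hd, one_mulVec, Pi.norm_single, norm_one, mul_one] at h1
  have h2 := abs_le_norm (A⁻¹ *ᵥ Pi.single j 1) i
  rw [mulVec_single_one] at h2 h1
  exact h2.trans h1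

/-- the quadratic form of the kernel does not depend on the frame -/
lemma form_eq {F : Fr} (hQ : F.Q.det ≠ 0) (S : Mx) (u : V) :
    (F.Q⁻¹ *ᵥ u) ⬝ᵥ ((F.cv1 S)⁻¹ *ᵥ (F.Q⁻¹ *ᵥ u)) = u ⬝ᵥ (S⁻¹ *ᵥ u) := by
  have e1 : (F.cv1 S)⁻¹ = F.Qᵀ * S⁻¹ * F.Qᵀᵀ := by
    rw [Fr.cv1, Matrix.mul_inv_rev, Matrix.mul_inv_rev, ← transpose_nonsing_inv,
      nonsing_inv_nonsing_inv _ hQ.isUnit, transpose_transpose, Matrix.mul_assoc]
  rw [e1, K3.dot_conj, transpose_transpose, q_inv_vec hQ]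

lemma zc_sub' {F : Fr} (hQ : F.Q.det ≠ 0) (y z : V) : F.zc y - z = F.Q⁻¹ *ᵥ (y - F.zp z) := by
  rw [← zc_sub, zc_zp hQ]

lemma hp_le {h : V} {H : ℝ} (h0 : ∀ i, 0 ≤ h i) (h1 : ∀ i, h i ≤ H) (l : List (Fin 3)) :
    hp h l ≤ H ^ l.length := by
  induction l with
  | nil => simp [hp]
  | cons j l ih =>
    simp only [hp, List.map_cons, List.prod_cons, List.length_cons] at ih ⊢
    rw [pow_succ']
    exact mul_le_mul (h1 j) ih (KBA.hp_nonneg h0 l) ((h0 j).trans (h1 j))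

/-- the setting without the parameters -/
structure Se (fr : Cu → Fr) (D E lo hi : ℝ) (h : Cu → V) (Z : V → V) (S : V → Mx) : Prop where
  hD : 0 < D
  hE : 0 < E
  lo0 : 0 < lo
  fx : ∀ g, (fr g).x0 = cen D g ∧ Orth (fr g).O ∧ 0 < (fr g).Q.det ∧ EB (fr g).Q (cm E) ∧
    EB (fr g).Q⁻¹ (cm E)
  hb : ∀ g i, lo ≤ h g i ∧ h g i ≤ hi
  sm : Sm Z
  bj : Function.Bijective Z
  cS : ∀ i j, Continuous fun x => S x i j
  bd : ∀ g, ∀ x ∈ RX (fr g).O D (99 / 100), EB (jm ((fr g).hat Z) x - 1) (cm (1 / 100)) ∧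
    ‖(fr g).O *ᵥ ((fr g).hat Z x - x)‖ ≤ D / 900 ∧ PD (h g) ((fr g).cov S x)

namespace Se
variable {fr : Cu → Fr} {D E lo hi : ℝ} {h : Cu → V} {Z : V → V} {S : V → Mx}
  (H : Se fr D E lo hi h Z S)
include H

lemma hh (g : Cu) (i : Fin 3) : 0 < h g i := H.lo0.trans_le (H.hb g i).1
lemma hi0 : 0 < hi := (H.hh 0 0).trans_le (H.hb 0 0).2
lemma dZ : Differentiable ℝ Z := H.sm.differentiable Inv.top_ne

lemma loc (X : V) : ∃ g, (fr g).xc X ∈ RX (fr g).O D (1 / 2) ∧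
    (fr g).xc X ∈ RX (fr g).O D (99 / 100) ∧ PD (h g) ((fr g).cv1 (S X)) := by
  obtain ⟨g, hg⟩ := exists_box H.hD X
  have h1 := (xc_mem_RX (H.fx g).2.1 (H.fx g).1).2 hg
  have h2 := RX_mono _ H.hD.le (show (1 / 2 : ℝ) ≤ 99 / 100 by norm_num) h1
  have h3 := (H.bd g _ h2).2.2
  rw [Fr.cov, xp_xc (H.fx g).2.1] at h3
  exact ⟨g, h1, h2, h3⟩

lemma Sbd (X : V) : (S X)ᵀ = S X ∧ ∀ v : V, lo ^ 2 / (1350 * E ^ 2) * (v ⬝ᵥ v) ≤ v ⬝ᵥ (S X *ᵥ v) ∧
    v ⬝ᵥ (S X *ᵥ v) ≤ 162 * hi ^ 2 * E ^ 2 * (v ⬝ᵥ v) := by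
  obtain ⟨g, -, -, hP⟩ := H.loc X
  obtain ⟨-, -, hQ, b1, b2⟩ := H.fx g
  have e := unc_cv1 hQ.ne' (S X)
  rw [Fr.unc] at e
  refine ⟨?_, fun v => ?_⟩
  · rw [← e, transpose_mul, transpose_mul, transpose_transpose, hP.1, Matrix.mul_assoc]
  rw [← e, K3.dot_conj]
  obtain ⟨p1, p2⟩ := hP.2 ((fr g).Qᵀ *ᵥ v)
  have a1 := dot_eb (eb_t b1) v
  have a2 := dot_eb (eb_t b2) ((fr g).Qᵀ *ᵥ v)
  rw [mulVec_mulVec, ← transpose_mul, q_inv hQ.ne', transpose_one, one_mulVec] at a2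
  set w := (fr g).Qᵀ *ᵥ v
  have s1 : lo ^ 2 * (w ⬝ᵥ w) ≤ ∑ i, (h g i * w i) ^ 2 := by
    rw [dotProduct, Finset.mul_sum]
    refine Finset.sum_le_sum fun i _ => ?_
    rw [mul_pow, ← sq]
    exact mul_le_mul_of_nonneg_right (pow_le_pow_left₀ H.lo0.le (H.hb g i).1 2) (sq_nonneg _)
  have s2 : ∑ i, (h g i * w i) ^ 2 ≤ hi ^ 2 * (w ⬝ᵥ w) := by
    rw [dotProduct, Finset.mul_sum]
    refine Finset.sum_le_sum fun i _ => ?_
    rw [mul_pow, ← sq]
    exact mul_le_mul_of_nonneg_right (pow_le_pow_left₀ (H.hh g i).le (H.hb g i).2 2) (sq_nonneg _)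
  have hE := H.hE
  constructor
  · rw [div_mul_eq_mul_div, div_le_iff₀ (by positivity)]
    have a3 := mul_le_mul_of_nonneg_left a2 (sq_nonneg lo)
    have a4 := mul_le_mul_of_nonneg_left (s1.trans ((le_div_iff₀' (by norm_num)).2 p1))
      (sq_nonneg E)
    nlinarith
  · have a3 := mul_le_mul_of_nonneg_left a1 (sq_nonneg hi)
    nlinarith

lemma lip (X X' : V) : ‖X - X'‖ ≤ 36 * E * ‖Z X - Z X'‖ := by
  have hE := H.hE
  have key : ∀ X, jac Z X ≠ 0 ∧ EB (jm Z X)⁻¹ (cm (12 * E)) := fun X => by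
    obtain ⟨g, -, hx, -⟩ := H.loc X
    obtain ⟨-, hO, hQ, -, b2⟩ := H.fx g
    have hM := (H.bd g _ hx).1
    rw [(K3.p5 (fr g) H.dZ _).1, xp_xc hO] at hM
    refine eb_inv fun w => ?_
    have a1 := norm_mulVec_le hM ((fr g).Oᵀ *ᵥ w)
    rw [sub_mulVec, one_mulVec, Fr.hm, ← mulVec_mulVec, ← mulVec_mulVec, orth_mulVec_t hO] at a1
    have a2 := norm_mulVec_le b2 (jm Z X *ᵥ w)
    have a3 := orth_norm_ge (orth_t hO) w
    have a4 := norm_sub_norm_le ((fr g).Oᵀ *ᵥ w) ((fr g).Q⁻¹ *ᵥ (jm Z X *ᵥ w))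
    rw [norm_sub_rev] at a4
    have a5 := mul_nonneg hE.le (norm_nonneg (jm Z X *ᵥ w))
    linarith
  have := (inv_ Z H.sm H.bj fun X => (key X).1).2.2.1 _ (fun X => (key X).2) X X'
  linarith

lemma gk {b : V → ℝ} {A : ℝ} (mb : Measurable b) (hb : ∀ x, |b x| ≤ A) : GK b Z S := by
  have hE := H.hE
  have := H.lo0
  have hA : 0 ≤ A := (abs_nonneg _).trans (hb 0)
  have h1 : 0 ≤ 162 * hi ^ 2 * E ^ 2 := by positivity
  have h2 := norm_nonneg (Z 0)
  refine ⟨mb, H.sm.continuous, H.cS, min (1 / (36 * E)) (lo ^ 2 / (1350 * E ^ 2)),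
    A + ‖Z 0‖ + 162 * hi ^ 2 * E ^ 2, by positivity, fun x => ⟨by linarith [hb x],
      fun _ => ⟨?_, (H.Sbd x).1, fun v => ⟨?_, ?_⟩⟩⟩⟩
  · have a1 := H.lip x 0
    rw [sub_zero, ← div_le_iff₀' (by positivity)] at a1
    have a2 := mul_le_mul_of_nonneg_right
      (min_le_left (1 / (36 * E)) (lo ^ 2 / (1350 * E ^ 2))) (norm_nonneg x)
    rw [one_div_mul_eq_div] at a2
    linarith [norm_sub_le (Z x) (Z 0)]
  · exact (mul_le_mul_of_nonneg_right (min_le_right _ _) (dot_nn v)).trans ((H.Sbd x).2 v).1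
  · exact ((H.Sbd x).2 v).2.trans (mul_le_mul_of_nonneg_right (by linarith) (dot_nn v))

lemma gkh (g : Cu) {b : V → ℝ} {A : ℝ} (mb : Measurable b) (hb : ∀ x, |b x| ≤ A) :
    GK b ((fr g).hat Z) ((fr g).cov S) := by
  have := K3.p2 (fr g) (H.fx g).2.1 (H.fx g).2.2.1
    (H.gk (mb.comp (xc_sm (fr g)).continuous.measurable) fun x => hb _)
  rwa [show (fr g).sc (b ∘ (fr g).xc) = b from
    funext fun x => congrArg b (xc_xp (H.fx g).2.1 x)] at this

/-- lower bounds of the quadratic form between two points -/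
lemma form (X X1 : V) :
    ‖X - X1‖ ^ 2 ≤ 6 * (108 * hi * E ^ 2) ^ 2 * ((Z X - Z X1) ⬝ᵥ ((S X)⁻¹ *ᵥ (Z X - Z X1))) ∧
    (7 / 1800 * D < ‖X - X1‖ →
      D ^ 2 ≤ 2160000 * hi ^ 2 * ((Z X - Z X1) ⬝ᵥ ((S X)⁻¹ *ᵥ (Z X - Z X1)))) := by
  obtain ⟨g, hx0, hx, hP⟩ := H.loc X
  obtain ⟨-, hO, hQ, b1, -⟩ := H.fx g
  have hE := H.hE
  have hD := H.hD
  have hi0 := H.hi0
  rw [← form_eq hQ.ne']
  set w := (fr g).Q⁻¹ *ᵥ (Z X - Z X1) with hw
  have a1 : w ⬝ᵥ w ≤ 6 * hi ^ 2 * (w ⬝ᵥ (((fr g).cv1 (S X))⁻¹ *ᵥ w)) := by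
    have a := KB.pd_form (H.hh g) hP w
    have b : w ⬝ᵥ w ≤ hi ^ 2 * ∑ i, (w i / h g i) ^ 2 := by
      rw [dotProduct, Finset.mul_sum]
      refine Finset.sum_le_sum fun i _ => ?_
      have := H.hh g i
      rw [div_pow, ← mul_div_assoc, le_div_iff₀ (by positivity), ← sq, mul_comm]
      exact mul_le_mul_of_nonneg_right (pow_le_pow_left₀ this.le (H.hb g i).2 2) (sq_nonneg _)
    have c := mul_le_mul_of_nonneg_left a (sq_nonneg hi)
    linarith
  constructor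
  · have a2 := norm_mulVec_le b1 w
    rw [hw, q_inv_vec hQ.ne', ← hw] at a2
    have a3 : ‖X - X1‖ ≤ 108 * E ^ 2 * ‖w‖ := by
      have := mul_le_mul_of_nonneg_left a2 hE.le
      linarith [H.lip X X1]
    have a4 := pow_le_pow_left₀ (norm_nonneg _) a3 2
    have a5 := mul_le_mul_of_nonneg_left ((K3.sq_le_dot w).trans a1) (sq_nonneg (108 * E ^ 2))
    rw [mul_pow] at a4
    linarith
  · intro hf
    have a2 : D / 600 ≤ ‖(fr g).O *ᵥ w‖ := by
      by_contra hc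
      rw [not_le] at hc
      have e1 : (fr g).hat Z ((fr g).xc X) - (fr g).zc (Z X1) = w := by
        rw [Fr.hat, xp_xc hO, zc_sub]
      have c1 := (H.bd g _ hx).2.1
      have c2 : (fr g).zc (Z X1) ∈ RX (fr g).O D (99 / 100 - 1 / 900) := by
        have e : (fr g).O *ᵥ (fr g).zc (Z X1) = (fr g).O *ᵥ (fr g).xc X +
            (fr g).O *ᵥ ((fr g).hat Z ((fr g).xc X) - (fr g).xc X) - (fr g).O *ᵥ w := by
          rw [← mulVec_add, ← mulVec_sub, ← e1]
          congr 1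
          abel
        show ‖_‖ ≤ _
        rw [e]
        refine ((norm_sub_le _ _).trans (add_le_add_left (norm_add_le _ _) _)).trans ?_
        have : ‖(fr g).O *ᵥ (fr g).xc X‖ ≤ 1 / 2 * D := hx0
        linarith
      obtain ⟨x2, m2, e2⟩ := (bij.2 (fr g).O D (99 / 100) (1 / 900) ((fr g).hat Z) hO hD
        (by norm_num) (by norm_num) ((hat_sm _ H.sm).of_le (by exact_mod_cast le_top))
        fun x hx => ⟨(H.bd g x hx).1, by linarith [(H.bd g x hx).2.1]⟩).2 _ c2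
      have e3 : (fr g).xp x2 = X1 := H.bj.1 (Bij.zc_inj hQ e2)
      have c3 := (H.bd g _ m2).2.1
      have e4 : X - X1 = (fr g).O *ᵥ w - (fr g).O *ᵥ ((fr g).hat Z ((fr g).xc X) - (fr g).xc X) +
          (fr g).O *ᵥ ((fr g).hat Z x2 - x2) := by
        rw [← mulVec_sub, ← mulVec_add, ← e1, ← e2]
        conv_lhs => rw [← xp_xc hO X, ← e3, xp_sub]
        congr 1
        abel
      have c4 := (norm_add_le _ _).trans (add_le_add (norm_sub_le ((fr g).O *ᵥ w)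
        ((fr g).O *ᵥ ((fr g).hat Z ((fr g).xc X) - (fr g).xc X))) c3)
      rw [← e4] at c4
      linarith
    have a3 := pow_le_pow_left₀ (by positivity) a2 2
    have a4 := K3.sq_le_dot ((fr g).O *ᵥ w)
    rw [orth_dot hO] at a4
    linarith

/-- hypotheses of the tail lemma in the frame `g` -/
lemma hyp (g : Cu) {μ κ : ℝ} (hμ : μ ≤ lo ^ 2 / (36450 * E ^ 4)) (κ0 : 0 ≤ κ)
    (hκ : κ * (1200 * hi * E ^ 2) ≤ 1) (x x1 : V) :
    (∀ v : V, μ * (v ⬝ᵥ v) ≤ v ⬝ᵥ ((fr g).cov S x *ᵥ v)) ∧ ∀ r : ℝ,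
      (r = 0 ∨ (r = D ^ 2 / (4320000 * hi ^ 2) ∧ 7 / 1800 * D < ‖(fr g).O *ᵥ (x - x1)‖)) →
      r + (κ * ‖x - x1‖) ^ 2 ≤ ((fr g).hat Z x - (fr g).hat Z x1) ⬝ᵥ
        (((fr g).cov S x)⁻¹ *ᵥ ((fr g).hat Z x - (fr g).hat Z x1)) := by
  obtain ⟨-, hO, hQ, b1, -⟩ := H.fx g
  have hE := H.hE
  have hi0 := H.hi0
  refine ⟨fun v => ?_, fun r hr => ?_⟩
  · rw [show v ⬝ᵥ ((fr g).cov S x *ᵥ v) = _ from K3.dot_conj (fr g).Q⁻¹ (S ((fr g).xp x)) v]
    refine (mul_le_mul_of_nonneg_right hμ (dot_nn v)).trans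
      (le_trans ?_ ((H.Sbd _).2 _).1)
    have a2 := dot_eb (eb_t b1) ((fr g).Q⁻¹ᵀ *ᵥ v)
    rw [mulVec_mulVec, ← transpose_mul, inv_q hQ.ne', transpose_one, one_mulVec] at a2
    refine (mul_le_mul_of_nonneg_left a2 (by positivity)).trans_eq ?_
    field_simp
    ring
  · rw [Fr.hat, Fr.hat, zc_sub, Fr.cov, form_eq hQ.ne']
    obtain ⟨f1, f2⟩ := H.form ((fr g).xp x) ((fr g).xp x1)
    rw [xp_sub] at f1 f2
    set q := (Z ((fr g).xp x) - Z ((fr g).xp x1)) ⬝ᵥ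
      ((S ((fr g).xp x))⁻¹ *ᵥ (Z ((fr g).xp x) - Z ((fr g).xp x1)))
    have q0 : 0 ≤ q := nonneg_of_mul_nonneg_right ((sq_nonneg _).trans f1) (by positivity)
    have a1 := pow_le_pow_left₀ (norm_nonneg _) (orth_norm_ge hO (x - x1)) 2
    have a2 := pow_le_pow_left₀ (by positivity) hκ 2
    have a3 : (κ * ‖x - x1‖) ^ 2 ≤ q / 2 := by
      have c1 : ‖x - x1‖ ^ 2 ≤ (1200 * hi * E ^ 2) ^ 2 * (q / 2) := by
        have := mul_nonneg (sq_nonneg (hi * E ^ 2)) q0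
        nlinarith
      have c2 := mul_le_mul_of_nonneg_left c1 (sq_nonneg κ)
      have c3 := mul_le_mul_of_nonneg_right a2 q0
      nlinarith
    rcases hr with rfl | ⟨rfl, hr⟩
    · linarith
    · have := f2 hr
      have c1 : D ^ 2 / (4320000 * hi ^ 2) ≤ q / 2 := by
        rw [div_le_iff₀ (by positivity)]
        linarith
      linarith

lemma kl (g : Cu) {b : V → ℝ} {A : ℝ} (mb : Measurable b) (hb : ∀ x, |b x| ≤ A) :
    KL (h g) (RX (fr g).O D (99 / 100)) (indicator (RX (fr g).O D (99 / 100)) b) A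
      ((fr g).hat Z) ((fr g).cov S) :=
  ⟨H.hh g, RX_convex _ _ _, RX_compact (H.fx g).2.1 _ _, mb.indicator (RX_measurable _ _ _),
    fun x => (norm_indicator_le_norm_self b x).trans (hb x), fun _ hx => indicator_of_notMem hx _,
    (hat_sm _ H.sm).of_le (by exact_mod_cast le_top), fun x hx => (H.bd g x hx).1,
    K3.cont_cov _ H.cS, fun x hx => (H.bd g x hx).2.2⟩

lemma pre (g : Cu) (z : V) : ∃ x1, (fr g).hat Z x1 = z := by
  obtain ⟨X, e⟩ := H.bj.2 ((fr g).zp z)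
  exact ⟨(fr g).xc X, by rw [Fr.hat, xp_xc (H.fx g).2.1, e, zc_zp (H.fx g).2.2.1.ne']⟩

lemma pre' (g : Cu) {z : V} (hz : z ∈ RX (fr g).O D (985 / 1000)) :
    ∃ x1, (fr g).hat Z x1 = z ∧ ∀ x, x ∉ RX (fr g).O D (99 / 100) →
      7 / 1800 * D < ‖(fr g).O *ᵥ (x - x1)‖ := by
  have hD := H.hD
  have s := RX_mono (fr g).O hD.le (show (985 / 1000 + 1 / 900 : ℝ) ≤ 99 / 100 by norm_num)
  obtain ⟨x1, m, e⟩ := (bij.2 (fr g).O D (985 / 1000 + 1 / 900) (1 / 900) ((fr g).hat Z)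
    (H.fx g).2.1 hD (by norm_num) (by norm_num) ((hat_sm _ H.sm).of_le (by exact_mod_cast le_top))
    fun x hx => ⟨(H.bd g x (s hx)).1, by linarith [(H.bd g x (s hx)).2.1]⟩).2 z
      (by rwa [add_sub_cancel_right])
  refine ⟨x1, e, fun x hx => ?_⟩
  have h1 : 99 / 100 * D < ‖(fr g).O *ᵥ x‖ := not_le.1 hx
  have h2 : ‖(fr g).O *ᵥ x1‖ ≤ (985 / 1000 + 1 / 900) * D := m
  have h3 := norm_sub_norm_le ((fr g).O *ᵥ x) ((fr g).O *ᵥ x1)
  rw [mulVec_sub]
  linarith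

end Se

/-! ## the parameters -/

lemma gd {B : Bk} (hN : Big B.N) (h : FrOk B.N B.lb B.fr) {k : ℕ} (hk : k ≤ nb B.N) (g : Cu) :
    Gd (B.c g k) :=
  let o := (h.fx g).2.2.2.2.2
  ⟨hN, o.1, o.2.1, o.2.2.1, o.2.2.2.1, o.2.2.2.2.1, o.2.2.2.2.2.1, hk⟩

lemma se {B : Bk} (hN : Big B.N) (h : FrOk B.N B.lb B.fr) {k : ℕ} (hk : k ≤ nb B.N) {Z : V → V}
    {S : V → Mx} {hv : ℝ} (K : B.KS k Z S hv) :
    Se B.fr B.D (Real.exp ((B.N : ℝ) ^ 2)) (np B.N (-94) * B.lb) (B.yk k)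
      (fun g => (B.c g k).hy hv) Z S := by
  have G := gd hN h hk
  have l0 : 0 < B.lb := (G 0).lb_pos
  refine ⟨(G 0).D_pos, Real.exp_pos _, mul_pos (hN.np_pos _) l0, fun g => ?_, fun g i => ?_, K.sm,
    K.bij, K.cS, fun g x hx => ⟨fun i j => ((K.bd g x hx).1 i j).trans ?_, (K.bd g x hx).2⟩⟩
  · obtain ⟨a, b, c, d, e, -⟩ := h.fx g
    exact ⟨a, b, c, d, e⟩
  · have a0 := (G g).lam_pos
    have a1 : ∀ a : ℝ, -1 ≤ a → np B.N (-94) * B.lb ≤ np B.N a * (B.c g k).lam := fun a ha => by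
      refine (mul_le_mul_of_nonneg_left (G g).lb_le (hN.np_pos _).le).trans ?_
      rw [← mul_assoc]
      refine mul_le_mul_of_nonneg_right ?_ a0.le
      exact (hN.np_add _ _).symm.trans_le (hN.np_le (by linarith))
    have a2 : ∀ a : ℝ, a ≤ 11 / 10 → np B.N a * (B.c g k).lam ≤ B.yk k := fun a ha =>
      mul_le_mul_of_nonneg_right (hN.np_le ha) a0.le
    have a3 := a1 0 (by norm_num)
    have a4 := a2 0 (by norm_num)
    rw [np_zero, one_mul] at a3 a4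
    fin_cases i
    · refine ⟨a3.trans (G g).lam_le_l1, le_trans ?_ (a2 (1 / 2) (by norm_num))⟩
      exact mul_le_mul_of_nonneg_right ((G g).ro_le.trans_eq (Real.sqrt_eq_rpow _)) a0.le
    · exact ⟨a3, a4⟩
    · refine ⟨(a1 (-2 + 11 / 10) (by norm_num)).trans (le_trans ?_ K.hvb.1), K.hvb.2⟩
      rw [hN.np_add, mul_assoc]
      rfl
  · have h1 : 300 ≤ Real.sqrt (pJ B.N) := Real.le_sqrt_of_sq_le (by linarith [hN.J_ge, hN.L_ge])
    show 3 / Real.sqrt (pJ B.N) ≤ 1 / 100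
    rw [div_le_iff₀ (by linarith)]
    linarith

lemma yk_le {B : Bk} (hN : Big B.N) (h : FrOk B.N B.lb B.fr) {k : ℕ} (hk : k ≤ nb B.N) :
    B.yk k ≤ Real.exp (112 * pJ B.N) ∧ (B.N : ℝ) ^ 5 * B.yk k ^ 2 ≤ B.D ^ 2 := by
  have G := gd hN h hk 0
  have a : ∀ a : ℝ, 11 / 10 ≤ a → B.yk k ≤ np B.N a * B.lb := fun a ha =>
    mul_le_mul (hN.np_le ha) G.lam_le_lb G.lam_pos.le (hN.np_pos _).le
  constructor
  · refine (a 2 (by norm_num)).trans
      ((mul_le_mul_of_nonneg_left h.pos.2 (hN.np_pos _).le).trans_eq ?_)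
    rw [← np_nat, ← hN.np_add, hN.np_eq]
    norm_num
  · have b := pow_le_pow_left₀ G.y_pos.le (a (3 / 2) (by norm_num)) 2
    have e : np B.N (3 / 2) ^ 2 = (B.N : ℝ) ^ 3 := by
      rw [sq, ← hN.np_add, ← np_nat]
      norm_num
    rw [mul_pow, e] at b
    refine (mul_le_mul_of_nonneg_left b (pow_pos hN.N_pos 5).le).trans_eq ?_
    rw [Bk.D, Dd]
    ring

/-- the tail bound in the frame `g` -/
lemma tl {C : ℝ} {B : Bk} (hN : Big B.N) (h : FrOk B.N B.lb B.fr) {k : ℕ} (hk : k ≤ nb B.N)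
    {Z : V → V} {S : V → Mx} {hv : ℝ} (K : B.KS k Z S hv) (hC : C ≤ B.N)
    (hT : ∀ (a : V → ℝ) (Z : V → V) (S : V → Mx) (A μ κ r : ℝ) (x0 z : V), GK a Z S →
      (∀ x, |a x| ≤ A) → 0 < μ → μ ≤ 1 → 0 < κ → κ ≤ 1 →
      (∀ x, a x ≠ 0 → (∀ v : V, μ * (v ⬝ᵥ v) ≤ v ⬝ᵥ (S x *ᵥ v)) ∧
        r + (κ * ‖x - x0‖) ^ 2 ≤ (Z x - z) ⬝ᵥ ((S x)⁻¹ *ᵥ (Z x - z))) →
      ∀ l : List (Fin 3), l.length ≤ 6 →
        |pds l (dens a Z S) z| ≤ C * A * Real.exp (-r / 4) / (μ ^ (6 + 3) * κ ^ 3))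
    (g : Cu) {a : V → ℝ} {A : ℝ} (ma : Measurable a) (ha : ∀ x, |a x| ≤ A) (x1 : V) (r : ℝ)
    (hr : ∀ x, a x ≠ 0 → r = 0 ∨ (r = B.D ^ 2 / (4320000 * B.yk k ^ 2) ∧
      7 / 1800 * B.D < ‖(B.fr g).O *ᵥ (x - x1)‖)) (l : List (Fin 3)) (hl : l.length ≤ 6) :
    hp ((B.c g k).hy hv) l * |pds l (dens a ((B.fr g).hat Z) ((B.fr g).cov S)) ((B.fr g).hat Z x1)| ≤
      A * Real.exp (73 * (B.N : ℝ) ^ 2 - r / 4) := by
  have H := se hN h hk K
  have hJ := hN.J_pos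
  have hn := hN.N_pos
  have n1 : 1000000000 * pJ B.N ≤ (B.N : ℝ) ^ 2 := by nlinarith [hN.N_ge, hN.J_ge, hN.L_ge]
  have j1 : 100000 ≤ pJ B.N := by linarith [hN.J_ge, hN.L_ge]
  have hA : 0 ≤ A := (abs_nonneg _).trans (ha 0)
  have c1 : (36450 : ℝ) ≤ Real.exp (pJ B.N) := by linarith [Real.add_one_le_exp (pJ B.N)]
  have hμ : Real.exp (-7 * (B.N : ℝ) ^ 2) ≤
      (np B.N (-94) * B.lb) ^ 2 / (36450 * Real.exp ((B.N : ℝ) ^ 2) ^ 4) := by
    rw [le_div_iff₀ (by positivity)]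
    have b1 := pow_le_pow_left₀ (mul_pos (hN.np_pos _) (Real.exp_pos _)).le
      (mul_le_mul_of_nonneg_left h.pos.1 (hN.np_pos (-94)).le) 2
    refine le_trans ?_ b1
    refine (mul_le_mul_of_nonneg_left (mul_le_mul_of_nonneg_right c1 (by positivity))
      (Real.exp_pos _).le).trans ?_
    rw [hN.np_eq, ← Real.exp_add, ← Real.exp_nat_mul, ← Real.exp_nat_mul, ← Real.exp_add,
      ← Real.exp_add, Real.exp_le_exp]
    push_cast
    linarith
  have hκ : Real.exp (-3 * (B.N : ℝ) ^ 2) * (1200 * B.yk k * Real.exp ((B.N : ℝ) ^ 2) ^ 2) ≤ 1 := by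
    have b1 : 1200 * B.yk k ≤ Real.exp (pJ B.N) * Real.exp (112 * pJ B.N) :=
      mul_le_mul (by linarith) (yk_le hN h hk).1 H.hi0.le (Real.exp_pos _).le
    refine (mul_le_mul_of_nonneg_left (mul_le_mul_of_nonneg_right b1 (by positivity))
      (Real.exp_pos _).le).trans ?_
    rw [← Real.exp_nat_mul, ← Real.exp_add, ← Real.exp_add, ← Real.exp_add, Real.exp_le_one_iff]
    push_cast
    linarith
  have t := hT a _ _ A _ _ r x1 _ (H.gkh g ma ha) ha (Real.exp_pos _)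
    (Real.exp_le_one_iff.2 (by nlinarith)) (Real.exp_pos _) (Real.exp_le_one_iff.2 (by nlinarith))
    (fun x hx => (H.hyp g hμ (Real.exp_pos _).le hκ x x1).imp id fun u => u r (hr x hx)) l hl
  have p : hp ((B.c g k).hy hv) l ≤ Real.exp (112 * pJ B.N) ^ 6 :=
    (hp_le (fun i => (H.hh g i).le) (fun i => (H.hb g i).2.trans (yk_le hN h hk).1) l).trans
      (pow_le_pow_right₀ (Real.one_le_exp (by positivity)) hl)
  rw [← hN.exp_J] at hC
  refine (mul_le_mul p (t.trans (div_le_div_of_nonneg_right (mul_le_mul_of_nonneg_right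
    (mul_le_mul_of_nonneg_right hC hA) (Real.exp_pos _).le) (by positivity))) (abs_nonneg _)
    (by positivity)).trans ?_
  rw [mul_comm (Real.exp (pJ B.N)), mul_assoc, mul_div_assoc, mul_left_comm]
  refine mul_le_mul_of_nonneg_left ?_ hA
  rw [← Real.exp_nat_mul, ← Real.exp_nat_mul, ← Real.exp_nat_mul, ← Real.exp_add, ← Real.exp_add,
    ← Real.exp_sub, ← Real.exp_add, Real.exp_le_exp]
  push_cast
  linarith

end Kg

open Kg Prof in
theorem kg : KgStmt := by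
  obtain ⟨C, -, hT⟩ := tail k1 6
  filter_upwards [ev_big, tendsto_natCast_atTop_atTop.eventually_ge_atTop C] with N hN hC
  rintro B rfl k Z S hv hG hk K b A mb hb
  have h := hG.toFrOk
  have H := se hN h hk K
  have hA : 0 ≤ A := (abs_nonneg _).trans (hb 0)
  have hn : (10 : ℝ) ^ 9 ≤ B.N := by linarith [hN.N_ge, hN.J_ge, hN.L_ge]
  refine ⟨H.gk mb hb, fun g => ⟨H.gkh g mb hb, H.kl g mb hb, fun l hl z hz => ?_,
    fun l hl z _ => ?_⟩⟩
  · obtain ⟨x1, rfl, hx⟩ := H.pre' g hz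
    refine (tl hN h hk K hC hT g (mb.indicator (RX_measurable _ _ _).compl)
      (fun x => (norm_indicator_le_norm_self b x).trans (hb x)) x1 _
      (fun x h0 => .inr ⟨rfl, hx x (mem_of_indicator_ne_zero h0)⟩) l hl).trans
      (mul_le_mul_of_nonneg_left (Real.exp_le_exp.2 ?_) hA)
    have y0 := H.hi0
    have a1 : (B.N : ℝ) ^ 5 / 4320000 ≤ B.D ^ 2 / (4320000 * B.yk k ^ 2) := by
      rw [div_le_div_iff₀ (by norm_num) (by positivity)]
      linarith [(yk_le hN h hk).2]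
    have a2 : (B.N : ℝ) ^ 2 * 10 ^ 9 ≤ B.N ^ 2 * B.N := by gcongr
    have a3 : (B.N : ℝ) ^ 3 * (10 ^ 9) ^ 2 ≤ B.N ^ 3 * B.N ^ 2 := by gcongr
    nlinarith [sq_nonneg (B.N : ℝ)]
  · obtain ⟨x1, rfl⟩ := H.pre g z
    refine (tl hN h hk K hC hT g mb hb x1 0 (fun _ _ => .inl rfl) l hl).trans
      (mul_le_mul_of_nonneg_left (Real.exp_le_exp.2 ?_) hA)
    nlinarith [sq_nonneg (B.N : ℝ)]

end
end Pool.Agent.MP_20bec2_an.T3

end MrgPart0

-- ======== part 1: formerly Pool.Agent.MP_20bec2_an.T3.StgB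
section MrgPart1

/-! Row STG, the stages of one colour in a block: basic facts and the acting cubes. -/

set_option autoImplicit false
open MeasureTheory Set Filter Matrix Topology

namespace Pool.Agent.MP_20bec2_an.T3
noncomputable section
open Classical

namespace Stg
open Prof

/-- the kernel facts for one block -/
def KgB (B : Bk) : Prop := ∀ (k : ℕ) (Z : V → V) (S : V → Mx) (hv : ℝ), B.G → k ≤ nb B.N →
  B.KS k Z S hv → ∀ (b : V → ℝ) (A : ℝ), Measurable b → (∀ x, |b x| ≤ A) → GK b Z S ∧ ∀ g,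
    GK b ((B.fr g).hat Z) ((B.fr g).cov S) ∧
    KL ((B.c g k).hy hv) (B.R g (99 / 100)) (indicator (B.R g (99 / 100)) b) A ((B.fr g).hat Z)
      ((B.fr g).cov S) ∧
    CB 6 ((B.c g k).hy hv) (B.R g (985 / 1000))
      (dens (indicator (B.R g (99 / 100))ᶜ b) ((B.fr g).hat Z) ((B.fr g).cov S))
      (A * Real.exp (-(B.N : ℝ) ^ 3)) ∧
    CB 6 ((B.c g k).hy hv) univ (dens b ((B.fr g).hat Z) ((B.fr g).cov S))
      (A * Real.exp (100 * (B.N : ℝ) ^ 2))

theorem Loc.path {h : V} {U : Set V} {a : V → ℝ} {A δ : ℝ} {T : ℕ} {Z : ℕ → V → V}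
    {S : ℕ → V → Mx} {u : ℕ → V → V} (L : Loc h U a A δ T Z S u) (m : ℕ) {x : V} (hx : x ∈ U) :
    Z m x = Z 0 x + Up u m x ∧ S m x = S 0 x - Cv u m x := by
  induction m with
  | zero => simp [Up, Cv]
  | succ m ih =>
    rw [L.sZ m x hx, L.sS m x hx, ih.1, ih.2]
    simp only [Up, Cv, Finset.sum_range_succ]
    exact ⟨add_assoc _ _ _, sub_sub _ _ _⟩

theorem cov_Bq (F : Fr) (u : V → V) : F.cov (Bq u) = Bq (F.hatv u) := by
  funext x
  simp only [Fr.cov, Bq, Fr.hatv, ← cv1_vecMulVec]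
  simp only [Fr.cv1, Matrix.mul_smul, Matrix.smul_mul]

theorem eb_Bq {u : V → V} {x : V} {M : ℝ} (h : ‖u x‖ ≤ M) : EB (Bq u x) (cm (M ^ 2)) := by
  intro i j
  have h1 := mul_le_mul ((abs_le_norm _ i).trans h) ((abs_le_norm _ j).trans h) (abs_nonneg _)
    ((norm_nonneg _).trans h)
  have h2 := mul_nonneg (abs_nonneg (u x i)) (abs_nonneg (u x j))
  simp only [Bq, Matrix.smul_apply, vecMulVec_apply, smul_eq_mul, cm, of_apply, abs_mul, abs_neg]
  rw [abs_of_pos (by norm_num : (0 : ℝ) < 1 / 2)]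
  linarith

theorem cont_Bq {u : V → V} (h : Continuous u) (i j : Fin 3) : Continuous fun x => Bq u x i j := by
  simp only [Bq, Matrix.smul_apply, vecMulVec_apply, smul_eq_mul]
  fun_prop

/-- the hypotheses of the row -/
structure Hy (B : Bk) (ρ : V → ℝ) (k j : ℕ) (Z : V → V) (S : V → Mx) (hv : ℝ)
    (u : Cu → ℕ → V → V) : Prop where
  big : Big B.N
  kg : KgB B
  rho : Rho ρ
  geo : B.G
  hk : k ≤ nb B.N
  uh : B.UH k j u
  pk : B.PK k j Z S u hv

/-- the map along the path -/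
def Zm (Z : V → V) (U : ℕ → V → V) (m : ℕ) (x : V) : V := Z x + Up U m x
/-- the covariance along the path -/
def Sx (S : V → Mx) (U : ℕ → V → V) (m : ℕ) (x : V) : Mx := S x - Cv U m x

theorem Zm_succ (Z : V → V) (U : ℕ → V → V) (m : ℕ) :
    Zm Z U (m + 1) = fun x => Zm Z U m x + U m x := by
  funext x
  simp only [Zm, Up, Finset.sum_range_succ, add_assoc]

theorem Sx_succ (S : V → Mx) (U : ℕ → V → V) (m : ℕ) :
    Sx S U (m + 1) = fun x => Sx S U m x - vecMulVec (U m x) (U m x) := by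
  funext x
  simp only [Sx, Cv, Finset.sum_range_succ, sub_sub]

namespace Hy
variable {B : Bk} {ρ : V → ℝ} {k j : ℕ} {Z : V → V} {S : V → Mx} {hv : ℝ} {u : Cu → ℕ → V → V}
  (H : Hy B ρ k j Z S hv u)
include H

theorem gd (g : Cu) : Gd (B.c g k) :=
  let o := (H.geo.fx g).2.2.2.2.2
  ⟨H.big, o.1, o.2.1, o.2.2.1, o.2.2.2.1, o.2.2.2.2.1, o.2.2.2.2.2.1, H.hk⟩

theorem D0 : 0 < B.D := (H.gd 0).D_pos
theorem N9 : (10 : ℝ) ^ 9 ≤ B.N := by linarith [H.big.N_ge, H.big.J_ge, H.big.L_ge]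
theorem x0 (g : Cu) : (B.fr g).x0 = cen B.D g := (H.geo.fx g).1
theorem hO (g : Cu) : Orth (B.fr g).O := (H.geo.fx g).2.1
theorem hQ (g : Cu) : 0 < (B.fr g).Q.det := (H.geo.fx g).2.2.1
theorem rb (x : V) : |ρ x| ≤ 2 := by
  have := abs_le.1 (H.rho.2 x)
  unfold eps0 at this
  rw [abs_le]
  constructor <;> linarith [this.1, this.2]

theorem T0 : 0 < nT B.N := pow_pos (by exact_mod_cast H.big.N_pos) _

theorem kt {m : ℕ} (hm : m < nT B.N) {t : ℝ} (ht : t ∈ Icc (0 : ℝ) 1) :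
    B.KS k (fun x => Zm Z (B.ug j u) m x + t • B.ug j u m x)
      (fun x => Sx S (B.ug j u) m x - t • vecMulVec (B.ug j u m x) (B.ug j u m x)) hv :=
  H.pk m hm t ht

theorem ks {m : ℕ} (hm : m ≤ nT B.N) : B.KS k (Zm Z (B.ug j u) m) (Sx S (B.ug j u) m) hv := by
  rcases hm.lt_or_eq with h | h
  · simpa only [zero_smul, add_zero, sub_zero] using H.kt h ⟨le_rfl, zero_le_one⟩
  · obtain ⟨m, rfl⟩ := Nat.exists_eq_succ_of_ne_zero (h ▸ H.T0.ne' : m ≠ 0)
    rw [Nat.succ_eq_add_one, Zm_succ, Sx_succ]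
    simpa only [one_smul] using H.kt (m := m) (by omega) ⟨zero_le_one, le_rfl⟩

theorem hb (g : Cu) (i : Fin 3) : B.lb / 2 ^ k / B.N ≤ (B.c g k).hy hv i ∧
    (B.c g k).hy hv i ≤ (B.N : ℝ) ^ 2 * (B.lb / 2 ^ k) := by
  have G := H.gd g
  have a0 : 0 < B.lb / 2 ^ k := G.lam_pos
  have n := H.N9
  have K := (H.ks (Nat.zero_le _)).hvb
  have a1 : B.lb / 2 ^ k / B.N ≤ B.lb / 2 ^ k := div_le_self a0.le (by linarith)
  have a2 : ∀ a : ℝ, a ≤ 2 → np B.N a * (B.lb / 2 ^ k) ≤ (B.N : ℝ) ^ 2 * (B.lb / 2 ^ k) :=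
    fun a ha => mul_le_mul_of_nonneg_right
      ((H.big.np_le (ha.trans_eq (by norm_num))).trans_eq (np_nat _ 2)) a0.le
  have a4 := a2 0 (by norm_num)
  rw [np_zero, one_mul] at a4
  fin_cases i
  · refine ⟨a1.trans G.lam_le_l1, le_trans ?_ (a2 (1 / 2) (by norm_num))⟩
    exact mul_le_mul_of_nonneg_right (G.ro_le.trans_eq (Real.sqrt_eq_rpow _)) a0.le
  · exact ⟨a1, a4⟩
  · refine ⟨le_trans ?_ K.1, K.2.trans (a2 (11 / 10) (by norm_num))⟩
    show _ ≤ np B.N (-2) * (np B.N (11 / 10) * (B.lb / 2 ^ k))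
    rw [← mul_assoc, ← H.big.np_add, div_eq_inv_mul]
    refine mul_le_mul_of_nonneg_right (le_trans ?_ (H.big.np_le (a := -1) (by norm_num))) a0.le
    exact (Real.rpow_neg_one _).symm.le

theorem hh (g : Cu) (i : Fin 3) : 0 < (B.c g k).hy hv i :=
  (div_pos (H.gd g).lam_pos H.big.N_pos).trans_le (H.hb g i).1

theorem dl : np B.N (-690) = ((B.N : ℝ) ^ 690)⁻¹ := by
  rw [← np_nat, np, np, ← Real.rpow_neg H.big.N_pos.le]
  norm_num

theorem d1 : np B.N (-690) ≤ 1 / 1000 := by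
  have n := H.N9
  rw [H.dl, one_div]
  exact inv_anti₀ (by norm_num) (le_trans (by linarith) (le_self_pow₀ (by linarith) (by norm_num)))

theorem bu {g : Cu} (hg : col g = j) (m : ℕ) (x : V) (i : Fin 3) :
    |u g m x i| ≤ np B.N (-690) * (B.c g k).hy hv i := by
  have h := (H.uh g hg m).2 x
  fin_cases i
  · exact h.2.2 0
  · exact h.2.2 1
  · exact (abs_eq_zero.2 h.2.1).le.trans (mul_pos (H.big.np_pos _) (H.hh g 2)).le

theorem sup (m : ℕ) : Glue.Sup (cv B.D) (93 / 100)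
    fun g x => if col g = j then (B.fr g).unv (u g m) x else 0 :=
  Glue.sup_box H.D0 fun g x hx => by
    split_ifs with hg
    · rw [Fr.unv, ((H.uh g hg m).2 _).1 fun hc => hx ((xc_mem_RX (H.hO g) (H.x0 g)).1 hc),
        mulVec_zero]
    · rfl

theorem Usm (m : ℕ) : Sm (B.ug j u m) := (H.sup m).sm (by norm_num) fun g => by
  by_cases hg : col g = j
  · simpa only [if_pos hg] using unv_sm _ (H.uh g hg m).1
  · simpa only [if_neg hg] using contDiff_const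

theorem Uloc {g : Cu} (hg : col g = j) (m : ℕ) {x : V} (hx : x ∈ B.R g (99 / 100)) :
    (B.fr g).hatv (B.ug j u m) x = u g m x := by
  have e := (H.sup m).one_eq (Glue.col_ite j fun g => (B.fr g).unv (u g m)) hg
    (r' := 99 / 100) (by norm_num) (x := (B.fr g).xp x)
    (by rw [Glue.cell_cv H.D0]; exact (xp_mem_box (H.x0 g)).2 hx)
  rw [Fr.hatv, Bk.ug, e, if_pos hg, Fr.unv, xc_xp (H.hO g), inv_q_vec (H.hQ g).ne']

theorem Uzero (m : ℕ) {x : V} (hx : ∀ g, col g = j → x ∉ box B.D g (93 / 100)) :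
    B.ug j u m x = 0 :=
  (H.sup m).one_zero (Glue.col_ite j fun g => (B.fr g).unv (u g m))
    fun g hg => by rw [Glue.cell_cv H.D0]; exact hx g hg

theorem Ubd (m : ℕ) (x : V) :
    ‖B.ug j u m x‖ ≤ 3 * Real.exp ((B.N : ℝ) ^ 2) * ((B.N : ℝ) ^ 2 * (B.lb / 2 ^ k)) := by
  have a0 : 0 < B.lb / 2 ^ k := (H.gd 0).lam_pos
  refine (H.sup m).one_norm_le (Glue.col_ite j fun g => (B.fr g).unv (u g m)) (by norm_num)
    (by positivity) fun g hg _ => ?_
  simp only [if_pos hg]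
  refine (norm_mulVec_le (H.geo.fx g).2.2.2.1 _).trans (mul_le_mul_of_nonneg_left
    (norm_le_of fun i => (H.bu hg m _ i).trans ?_) (by positivity))
  exact (mul_le_of_le_one_left (H.hh g i).le (by linarith [H.d1])).trans (H.hb g i).2

theorem gkp {m : ℕ} (hm : m < nT B.N) (b : V → ℝ) (hb : Wt b) :
    GKp b (Zm Z (B.ug j u) m) (Sx S (B.ug j u) m) (B.ug j u m) (Bq (B.ug j u m)) := by
  obtain ⟨mb, A, hA⟩ := hb
  have c := (H.Usm m).continuous
  refine ⟨(H.kg k _ _ hv H.geo H.hk (H.ks hm.le) b A mb hA).1, ?_, c, cont_Bq c,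
    max _ _, fun x _ => ⟨(H.Ubd m x).trans (le_max_left _ _),
      fun i i' => (eb_Bq (H.Ubd m x) i i').trans (le_max_right _ _)⟩⟩
  have := (H.kg k _ _ hv H.geo H.hk (H.ks hm) b A mb hA).1
  rw [Zm_succ, Sx_succ] at this
  simpa only [Bq_add, ← sub_eq_add_neg] using this

theorem wt : Wt ρ := ⟨H.rho.1, 2, H.rb⟩

theorem part1 : Sm (ftot ρ Z S (B.ug j u) (nT B.N)) ∧
    ∀ z, dens ρ (fun x => Z x + Up (B.ug j u) (nT B.N) x)
      (fun x => S x - Cv (B.ug j u) (nT B.N) x) z =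
        dens ρ Z S z + dv (ftot ρ Z S (B.ug j u) (nT B.N)) z := by
  have K := fun m (hm : m ∈ Finset.range (nT B.N)) =>
    k2 k1 _ _ _ _ _ (H.gkp (Finset.mem_range.1 hm) ρ H.wt)
  refine ⟨ContDiff.sum fun m hm => (K m hm).1, fun z => ?_⟩
  have e1 : dv (ftot ρ Z S (B.ug j u) (nT B.N)) z = _ := dv_sum _ (fun m hm => (K m hm).1) z
  have e2 := Finset.sum_range_sub (fun m => dens ρ (Zm Z (B.ug j u) m) (Sx S (B.ug j u) m) z)
    (nT B.N)
  have e3 : Zm Z (B.ug j u) 0 = Z := funext fun x => by simp [Zm, Up]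
  have e4 : Sx S (B.ug j u) 0 = S := funext fun x => by simp [Sx, Cv]
  rw [e3, e4] at e2
  rw [e1]
  refine (eq_add_of_sub_eq' e2.symm).trans ?_
  congr 1
  refine Finset.sum_congr rfl fun m hm => ?_
  have e := (K m hm).2.1 z
  simp only [Bq_add, ← sub_eq_add_neg] at e
  rw [Zm_succ, Sx_succ, e, add_sub_cancel_left]

/-- the local path of the cube `g` -/
theorem loc {g : Cu} (hg : col g = j) :
    Loc ((B.c g k).hy hv) (B.R g (99 / 100)) (indicator (B.R g (99 / 100)) ((B.fr g).sc ρ)) 2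
      (np B.N (-690)) (nT B.N) (fun m => (B.fr g).hat (Zm Z (B.ug j u) m))
      (fun m => (B.fr g).cov (Sx S (B.ug j u) m)) (u g) where
  kl m hm := ((H.kg k _ _ hv H.geo H.hk (H.ks hm) _ 2
    (H.rho.1.comp (xp_sm _).continuous.measurable) fun _ => H.rb _).2 g).2.1
  cu m := (H.uh g hg m).1.continuous
  d0 := (H.big.np_pos _).le
  d1 := H.d1
  bu := H.bu hg
  sZ m x hx := by rw [Zm_succ, hat_add, H.Uloc hg m hx]
  sS m x hx := by
    rw [Sx_succ, Fr.cov, cv1_sub, cv1_vecMulVec, ← H.Uloc hg m hx]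
    rfl

theorem mF_eq {g : Cu} (hg : col g = j) : B.mF ρ Z S u g =
    lin (indicator (B.R g (99 / 100)) ((B.fr g).sc ρ)) (nT B.N)
      (fun m => (B.fr g).hat (Zm Z (B.ug j u) m)) (fun m => (B.fr g).cov (Sx S (B.ug j u) m))
      (u g) := by
  have e3 : Zm Z (B.ug j u) 0 = Z := funext fun x => by simp [Zm, Up]
  have e4 : Sx S (B.ug j u) 0 = S := funext fun x => by simp [Sx, Cv]
  funext z i
  simp only [Bk.mF, fmain, lin]
  congr 1
  refine Finset.sum_congr rfl fun m _ => congrFun (dens_congr fun x => ?_) z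
  by_cases hx : x ∈ B.R g (99 / 100)
  · have := (H.loc hg).path m hx
    simp only [e3, e4] at this
    exact ⟨by rw [indicator_of_mem hx], fun _ => ⟨this.1.symm, this.2.symm⟩⟩
  · have : u g m x = 0 := ((H.uh g hg m).2 x).1 fun hc =>
      hx (RX_mono _ H.D0.le (by norm_num) hc)
    simp [this]

theorem far {g : Cu} (hg : col g = j) {z : V} (hz : z ∉ B.R g (935 / 1000)) {m : ℕ}
    (hm : m < nT B.N) {x : V} (hx : x ∈ B.R g (99 / 100)) (h0 : u g m x ≠ 0) :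
    (B.N : ℝ) ^ 4 / 90000 ≤
      ∑ i, (((B.fr g).hat (Zm Z (B.ug j u) m) x - z) i / (B.c g k).hy hv i) ^ 2 := by
  have a1 : ‖(B.fr g).O *ᵥ x‖ ≤ 93 / 100 * B.D :=
    by_contra fun hc => h0 (((H.uh g hg m).2 x).1 hc)
  have a2 := ((H.ks hm.le).bd g x hx).2.1
  have a3 : 935 / 1000 * B.D < ‖(B.fr g).O *ᵥ z‖ := not_le.1 hz
  set w := (B.fr g).hat (Zm Z (B.ug j u) m) x - z with hw
  have e : (B.fr g).O *ᵥ z = (B.fr g).O *ᵥ x +
      (B.fr g).O *ᵥ ((B.fr g).hat (Zm Z (B.ug j u) m) x - x) - (B.fr g).O *ᵥ w := by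
    rw [← mulVec_add, ← mulVec_sub, hw]
    congr 1
    abel
  have a4 := (norm_sub_le _ _).trans (add_le_add_left (norm_add_le ((B.fr g).O *ᵥ x)
    ((B.fr g).O *ᵥ ((B.fr g).hat (Zm Z (B.ug j u) m) x - x))) ‖(B.fr g).O *ᵥ w‖)
  rw [← e] at a4
  have D0 := H.D0
  have a5 := (pow_le_pow_left₀ (by positivity)
    (show B.D / 300 ≤ ‖(B.fr g).O *ᵥ w‖ by linarith) 2).trans (K3.sq_le_dot _)
  rw [orth_dot (H.hO g)] at a5
  have l0 : 0 < B.lb := (H.gd g).lb_pos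
  have n := H.big.N_pos
  have b : w ⬝ᵥ w ≤ ((B.N : ℝ) ^ 2 * B.lb) ^ 2 * ∑ i, (w i / (B.c g k).hy hv i) ^ 2 := by
    rw [dotProduct, Finset.mul_sum]
    refine Finset.sum_le_sum fun i _ => ?_
    have := H.hh g i
    rw [div_pow, ← mul_div_assoc, le_div_iff₀ (by positivity), ← sq, mul_comm]
    exact mul_le_mul_of_nonneg_right (pow_le_pow_left₀ this.le ((H.hb g i).2.trans
      (mul_le_mul_of_nonneg_left (H.gd g).lam_le_lb (by positivity))) 2) (sq_nonneg _)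
  refine le_of_mul_le_mul_left (le_trans (le_of_eq ?_) (a5.trans b)) (by positivity)
  rw [Bk.D, Dd]
  ring

end Hy

end Stg

end
end Pool.Agent.MP_20bec2_an.T3

end MrgPart1

-- ======== part 2: formerly Pool.Agent.MP_20bec2_an.T3.Stg
section MrgPart2

/-! Row STG: the exact flux of the stages of one colour. -/

set_option autoImplicit false
open MeasureTheory Set Filter Matrix Topology

namespace Pool.Agent.MP_20bec2_an.T3
noncomputable section
open Classical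

namespace Stg
open Prof

theorem pw {n : ℝ} (hn : 0 ≤ n) (k : ℕ) : n ^ k ≤ Real.exp (k * n) := by
  rw [Real.exp_nat_mul]
  exact pow_le_pow_left₀ hn (by linarith [Real.add_one_le_exp n]) k

theorem num0 {n : ℝ} (hn : 10 ^ 9 ≤ n) : n ^ 1800 * (n ^ 690)⁻¹ ^ 3 = (n ^ 270)⁻¹ := by
  have : n ≠ 0 := by linarith
  field_simp

theorem num2 {n C h l : ℝ} (hn : 10 ^ 9 ≤ n) (hC : C ≤ n) (h0 : 0 ≤ h) (hl : 0 ≤ l)
    (h1 : h ≤ n ^ 2 * l) :
    n ^ 1800 * (C * (2 * ((n ^ 690)⁻¹ * h)) * Real.exp (-(n ^ 4 / 90000) / 60)) ≤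
      Real.exp (-n) * l := by
  have n0 : 0 < n := by linarith
  have a1 : (n ^ 690)⁻¹ ≤ 1 := inv_le_one_of_one_le₀ (one_le_pow₀ (by linarith))
  have a2 : n * (10 ^ 9) ^ 3 ≤ n * n ^ 3 := by gcongr
  calc _ ≤ n ^ 1800 * (n * (n * (1 * (n ^ 2 * l))) * Real.exp (-(n ^ 4 / 90000) / 60)) := by
        gcongr
        linarith
    _ = n ^ 1804 * Real.exp (-(n ^ 4 / 90000) / 60) * l := by ring
    _ ≤ Real.exp ((1804 : ℕ) * n) * Real.exp (-(n ^ 4 / 90000) / 60) * l := by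
        gcongr
        exact pw n0.le _
    _ ≤ _ := by
        rw [← Real.exp_add]
        gcongr
        push_cast
        linarith

theorem num3 {n C c l : ℝ} (hn : 10 ^ 9 ≤ n) (C0 : 0 ≤ C) (hC : C ≤ n) (hc : c ≤ 125)
    (hl : 0 ≤ l) :
    c * (288 * ((6 * n ^ 3) ^ 4 * (n ^ 1800 * (C * 2 * (n ^ 690)⁻¹ ^ 3 * (n ^ 2 * l))))) ≤
      (n ^ 200)⁻¹ * l / 2 := by
  have n0 : 0 < n := by linarith
  calc _ ≤ 125 * (288 * ((6 * n ^ 3) ^ 4 *
        (n ^ 1800 * (n * 2 * (n ^ 690)⁻¹ ^ 3 * (n ^ 2 * l))))) := by gcongr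
    _ = 186624000 * n ^ 15 * (n ^ 1800 * (n ^ 690)⁻¹ ^ 3) * l / 2 := by ring
    _ ≤ n * n ^ 69 * (n ^ 270)⁻¹ * l / 2 := by
        rw [num0 hn]
        gcongr
        · linarith
        · linarith
        · norm_num
    _ = _ := by field_simp

theorem num4 {n l : ℝ} {h : V} (hn : 10 ^ 9 ≤ n) (hl : 0 < l) (h1 : ∀ j, l / n ≤ h j) :
    n ^ 1800 * (252 * (3 * Real.exp (n ^ 2) * (3 * Real.exp (n ^ 2) * (n ^ 2 * l))) *
      Real.exp (-n ^ 3) + ∑ j, 252 * (3 * Real.exp (n ^ 2) *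
        (3 * Real.exp (n ^ 2) * (n ^ 2 * l))) ^ 2 * Real.exp (-n ^ 3) / h j) ≤
      (n ^ 200)⁻¹ * l / 2 := by
  have n0 : 0 < n := by linarith
  have n1 : 1 ≤ n := by linarith
  have E1 : 1 ≤ Real.exp (n ^ 2) := Real.one_le_exp (by positivity)
  have a2 : n ^ 2 * 10 ^ 9 ≤ n ^ 2 * n := by gcongr
  have a3 : n * 10 ^ 9 ≤ n * n := by gcongr
  have a4 : n ^ 2006 * (Real.exp (n ^ 2) ^ 4 * Real.exp (-n ^ 3)) ≤ 1 := by
    refine (mul_le_mul_of_nonneg_right (pw n0.le _) (by positivity)).trans ?_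
    rw [← Real.exp_nat_mul, ← Real.exp_add, ← Real.exp_add, Real.exp_le_one_iff]
    push_cast
    nlinarith
  set E := Real.exp (n ^ 2)
  set F := Real.exp (-n ^ 3)
  have F0 : 0 < F := Real.exp_pos _
  calc _ ≤ n ^ 1800 * (252 * (3 * E ^ 2 * (3 * E ^ 2 * (n ^ 5 * l))) * F +
        ∑ _j : Fin 3, 252 * (3 * E * (3 * E * (n ^ 2 * l))) ^ 2 * F / (l / n)) := by
        gcongr with j
        · exact le_self_pow₀ E1 two_ne_zero
        · exact le_self_pow₀ E1 two_ne_zero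
        · norm_num
        · exact h1 j
    _ = 127008 * n ^ 2005 * (E ^ 4 * F) * ((n ^ 200)⁻¹ * l / 2) := by
        simp only [Finset.sum_const, Finset.card_univ, Fintype.card_fin, nsmul_eq_mul]
        push_cast
        field_simp
        ring
    _ ≤ n * n ^ 2005 * (E ^ 4 * F) * ((n ^ 200)⁻¹ * l / 2) := by
        gcongr
        linarith
    _ ≤ _ := by
        rw [← pow_succ']
        exact mul_le_of_le_one_left (by positivity) a4

theorem card_nbrs (g : Cu) : (nbrs g 2).card = 125 := by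
  have e : ∀ i, (Finset.Icc (g i - 2) (g i + 2)).card = 5 := fun i => by
    rw [Int.card_Icc]
    omega
  simp only [nbrs, Fintype.card_piFinset, e]
  simp

theorem mem_nbrs {g g' : Cu} : g' ∈ nbrs g 2 ↔ Nbr 2 g g' := by
  simp only [nbrs, Fintype.mem_piFinset, Finset.mem_Icc, Nbr, abs_le]
  exact forall_congr' fun i => by omega

theorem vd_split (F : Fr) {ι κ : Type} {s : Finset ι} {t : Finset κ} {R : ι → V → V}
    {R' : κ → V → V} {G : V → V} (h : ∀ w, G w = ∑ k ∈ s, R k w + ∑ k ∈ t, R' k w) (z : V)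
    (i : Fin 3) : F.vd G z i = ∑ k ∈ s, F.vd (R k) z i + ∑ k ∈ t, F.vd (R' k) z i := by
  simp only [Fr.vd, h, mulVec_add, mulVec_sum, smul_add, Finset.smul_sum, Pi.add_apply,
    Finset.sum_apply]

/-- the conclusions of the local lemma -/
def LM (C : ℝ) : Prop := ∀ (h : V) (U : Set V) (a : V → ℝ) (A δ : ℝ) (T : ℕ)
    (Z : ℕ → V → V) (S : ℕ → V → Mx) (u : ℕ → V → V), Loc h U a A δ T Z S u →
    Sm (lin a T Z S u) ∧ Sm (rm a T Z S u) ∧
    (∀ i, CB 4 h univ (fun z => rm a T Z S u z i) (T * (C * A * δ ^ 3 * h i))) ∧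
    CB 3 h univ (dv (lin a T Z S u)) (2 * (C * A) + 3 * (T * (C * A * δ ^ 3))) ∧
    ∀ (z : V) (r : ℝ), (∀ m < T, ∀ x ∈ U, u m x ≠ 0 → r ≤ ∑ i, ((Z m x - z) i / h i) ^ 2) →
      ∀ i, CB 4 h {z} (fun w => lin a T Z S u w i)
        (T * (C * (A * (δ * h i)) * Real.exp (-r / 60)))

namespace Hy
variable {B : Bk} {ρ : V → ℝ} {k j : ℕ} {Z : V → V} {S : V → Mx} {hv : ℝ} {u : Cu → ℕ → V → V}
  (H : Hy B ρ k j Z S hv u)
include H

omit H in
theorem Tc : (nT B.N : ℝ) = (B.N : ℝ) ^ 1800 := Nat.cast_pow _ _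

theorem CN {C : ℝ} (C0 : 1 ≤ C) (hC : 10 * C ≤ pq B.N) : C ≤ B.N := by
  linarith [H.big.q_le_J, H.big.N_ge, H.big.J_pos]

theorem part2 {C : ℝ} (C0 : 1 ≤ C) (hC : 10 * C ≤ pq B.N) (hL : LM C) {g : Cu} (hg : col g = j) :
    Sm (B.mF ρ Z S u g) ∧
    CB 3 ((B.c g k).hy hv) univ (dv (B.mF ρ Z S u g)) (pq B.N) ∧ (∀ z, B.mF ρ Z S u g z 2 = 0) ∧
    ∀ i, CB 4 ((B.c g k).hy hv) (B.R g (935 / 1000))ᶜ (fun z => B.mF ρ Z S u g z i)
      (Real.exp (-(B.N : ℝ)) * (B.c g k).lam) := by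
  obtain ⟨s1, -, -, b1, b2⟩ := hL _ _ _ _ _ _ _ _ _ (H.loc hg)
  rw [← H.mF_eq hg] at s1 b1 b2
  refine ⟨s1, b1.monoB ?_, fun z => ?_, fun i => cbl_of_local fun z hz =>
    (b2 z _ (fun m hm x hx h0 => H.far hg hz hm hx h0) i).monoB ?_⟩
  · have n := H.N9
    have a1 : ((B.N : ℝ) ^ 270)⁻¹ ≤ 1 := inv_le_one_of_one_le₀ (one_le_pow₀ (by linarith))
    rw [← num0 n] at a1
    have a2 := mul_le_mul_of_nonneg_left a1 (zero_le_one.trans C0)
    rw [Tc, H.dl]
    linarith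
  · simp only [Bk.mF, fmain, neg_eq_zero]
    refine Finset.sum_eq_zero fun m _ => congrFun (dens_zero fun x => ?_) z
    rw [((H.uh g hg m).2 x).2.1, mul_zero]
  · rw [Tc, H.dl]
    exact num2 H.N9 (H.CN C0 hC) (H.hh g i).le (H.gd g).lam_pos.le (H.hb g i).2

omit H in
theorem wt_ind {ρ : V → ℝ} (h : Wt ρ) (D : ℝ) (g : Cu) : Wt (indicator (box D g (99 / 100)) ρ) :=
  let ⟨C, hC⟩ := h.2
  ⟨h.1.indicator (box_closed _ _ _).measurableSet, C,
    fun x => (norm_indicator_le_norm_self ρ x).trans (hC x)⟩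

/-- the part of the flux that comes from the cube `g` -/
theorem near {g : Cu} (hg : col g = j) (w : V) :
    ∑ m ∈ Finset.range (nT B.N), flux (indicator (box B.D g (99 / 100)) ρ) (Zm Z (B.ug j u) m)
      (Sx S (B.ug j u) m) (B.ug j u m) (Bq (B.ug j u m)) w =
    (B.fr g).unvd (rm (indicator (B.R g (99 / 100)) ((B.fr g).sc ρ)) (nT B.N)
      (fun m => (B.fr g).hat (Zm Z (B.ug j u) m)) (fun m => (B.fr g).cov (Sx S (B.ug j u) m))
      (u g)) w + (B.fr g).unvd (B.mF ρ Z S u g) w := by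
  have e1 : (B.fr g).sc (indicator (box B.D g (99 / 100)) ρ) =
      indicator (B.R g (99 / 100)) ((B.fr g).sc ρ) := by
    funext x
    by_cases hx : x ∈ B.R g (99 / 100)
    · rw [indicator_of_mem hx, Fr.sc, indicator_of_mem ((xp_mem_box (H.x0 g)).2 hx), Fr.sc]
    · rw [indicator_of_notMem hx, Fr.sc,
        indicator_of_notMem fun hc => hx ((xp_mem_box (H.x0 g)).1 hc)]
  rw [H.mF_eq hg]
  simp only [Fr.unvd, ← smul_add, ← mulVec_add, rm, sub_add_cancel, mulVec_sum, Finset.smul_sum]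
  refine Finset.sum_congr rfl fun m hm => ?_
  have e2 := K3.p6 _ k1 (H.hO g) (H.hQ g) (H.gkp (Finset.mem_range.1 hm) _ (wt_ind H.wt B.D g))
  rw [e1, cov_Bq, flux_congr (u := (B.fr g).hatv (B.ug j u m)) (u' := u g m) (B' := Bq (u g m))
    (a := indicator (B.R g (99 / 100)) ((B.fr g).sc ρ)) fun x hx => by
      have := H.Uloc hg m (mem_of_indicator_ne_zero hx)
      exact ⟨this, by rw [Bq, this, Bq]⟩] at e2
  rw [← e2]
  exact (congrFun (unvd_vd (H.hQ g).ne' _) w).symm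

theorem eb2 {g g' : Cu} (h : Nbr 2 g g') : EB ((B.fr g).Q⁻¹ * (B.fr g').Q) (cm 2) := by
  intro a b
  have h1 := (H.geo.cp g g' (nbr_mono (by norm_num) h)).tq a b
  have h2 := orth_abs_le (orth_mul (orth_t (H.hO g)) (H.hO g')) a b
  have h3 : dc B.N ≤ 1 := (H.big.np_le (by norm_num)).trans_eq (np_zero _)
  have h4 := abs_sub_abs_le_abs_sub (((B.fr g).Q⁻¹ * (B.fr g').Q) a b)
    (((B.fr g).Oᵀ * (B.fr g').O) a b)
  simp only [cm, of_apply, Matrix.sub_apply] at h1 ⊢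
  linarith

/-- the part of the flux that comes from far away -/
theorem rest (g : Cu) {b : V → ℝ} (mb : Measurable b) (bb : ∀ x, |b x| ≤ 252) {m : ℕ}
    (hm : m < nT B.N) (h0 : ∀ x ∈ box B.D g (99 / 100), b x = 0 ∨ B.ug j u m x = 0) (i : Fin 3) :
    CB 4 ((B.c g k).hy hv) (B.R g (985 / 1000)) (fun z => (B.fr g).vd
      (flux b (Zm Z (B.ug j u) m) (Sx S (B.ug j u) m) (B.ug j u m) (Bq (B.ug j u m))) z i)
      (252 * (3 * Real.exp ((B.N : ℝ) ^ 2) * (3 * Real.exp ((B.N : ℝ) ^ 2) *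
        ((B.N : ℝ) ^ 2 * (B.lb / 2 ^ k)))) * Real.exp (-(B.N : ℝ) ^ 3) +
      ∑ l, 252 * (3 * Real.exp ((B.N : ℝ) ^ 2) * (3 * Real.exp ((B.N : ℝ) ^ 2) *
        ((B.N : ℝ) ^ 2 * (B.lb / 2 ^ k)))) ^ 2 * Real.exp (-(B.N : ℝ) ^ 3) /
          (B.c g k).hy hv l) := by
  have G := H.gkp hm b ⟨mb, _, bb⟩
  rw [K3.p6 _ k1 (H.hO g) (H.hQ g) G, cov_Bq]
  set M := 3 * Real.exp ((B.N : ℝ) ^ 2) * (3 * Real.exp ((B.N : ℝ) ^ 2) *
    ((B.N : ℝ) ^ 2 * (B.lb / 2 ^ k)))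
  set v := (B.fr g).hatv (B.ug j u m) with hv'
  have vb : ∀ x, ‖v x‖ ≤ M := fun x => (norm_mulVec_le (H.geo.fx g).2.2.2.2.1 _).trans
    (mul_le_mul_of_nonneg_left (H.Ubd m _) (by positivity))
  have vc : Continuous v := (hatv_sm _ (H.Usm m)).continuous
  have ma : Measurable ((B.fr g).sc b) := mb.comp (xp_sm _).continuous.measurable
  have eZ : ∀ t : ℝ, (B.fr g).hat (fun x => Zm Z (B.ug j u) m x + t • B.ug j u m x) =
      fun x => (B.fr g).hat (Zm Z (B.ug j u) m) x + t • v x := fun t => funext fun x => by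
    rw [hat_add, hv', Fr.hatv, Fr.hatv, mulVec_smul]
  have eS : ∀ t : ℝ, (B.fr g).cov
      (fun x => Sx S (B.ug j u) m x - t • vecMulVec (B.ug j u m x) (B.ug j u m x)) =
      fun x => (B.fr g).cov (Sx S (B.ug j u) m) x + t • (Bq v x + (Bq v x)ᵀ) :=
    fun t => funext fun x => by
      rw [Bq_add, Fr.cov, cv1_sub, hv', Fr.hatv, ← cv1_vecMulVec, smul_neg, ← sub_eq_add_neg]
      simp only [Fr.cv1, Fr.cov, Matrix.mul_smul, Matrix.smul_mul]
  have key : ∀ (ψ : V → ℝ) (A : ℝ), Continuous ψ → (∀ x, |ψ x| ≤ A) → (∀ x, v x = 0 → ψ x = 0) →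
      ∀ t ∈ Icc (0 : ℝ) 1, CB 6 ((B.c g k).hy hv) (B.R g (985 / 1000))
        (dens (fun x => (B.fr g).sc b x * ψ x)
          (fun x => (B.fr g).hat (Zm Z (B.ug j u) m) x + t • v x)
          fun x => (B.fr g).cov (Sx S (B.ug j u) m) x + t • (Bq v x + (Bq v x)ᵀ))
        (252 * A * Real.exp (-(B.N : ℝ) ^ 3)) := by
    intro ψ A c1 c2 c3 t ht
    have := ((H.kg k _ _ hv H.geo H.hk (H.kt hm ht) (fun x => (B.fr g).sc b x * ψ x) (252 * A)
      (ma.mul c1.measurable) fun x => by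
        rw [abs_mul]
        exact mul_le_mul (bb _) (c2 x) (abs_nonneg _) (by norm_num)).2 g).2.2.1
    rwa [eZ, eS, (indicator_eq_self (s := (B.R g (99 / 100))ᶜ)
      (f := fun x => (B.fr g).sc b x * ψ x)).2 fun x hx hc => hx ?_] at this
    show (B.fr g).sc b x * ψ x = 0
    rcases h0 _ ((xp_mem_box (H.x0 g)).2 hc) with e | e
    · rw [Fr.sc, e, zero_mul]
    · rw [c3 x (by rw [hv', Fr.hatv, e, mulVec_zero]), mul_zero]
  have gk := fun (t : ℝ) (ht : t ∈ Icc (0 : ℝ) 1) =>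
    ((H.kg k _ _ hv H.geo H.hk (H.kt hm ht) _ 252 ma fun x => bb _).2 g).1
  refine flux_cb (H.hh g) ⟨?_, ?_, vc, cont_Bq vc, max _ _, fun x _ =>
    ⟨(vb x).trans (le_max_left _ _), fun a a' => (eb_Bq (vb x) a a').trans (le_max_right _ _)⟩⟩ i
    (fun t ht => (key _ M ((continuous_apply i).comp vc) (fun x => (abs_le_norm _ i).trans (vb x))
      (fun x e => by rw [Function.comp_apply, e]; rfl) t ht).of_le (by norm_num))
    fun t ht l => (key _ (M ^ 2) (cont_Bq vc i l) (fun x => eb_Bq (vb x) i l)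
      (fun x e => by simp [Bq, e]) t ht).of_le (by norm_num)
  · simpa only [zero_smul, add_zero, sub_zero] using gk 0 ⟨le_rfl, zero_le_one⟩
  · have := gk 1 ⟨zero_le_one, le_rfl⟩
    rw [eZ, eS] at this
    simpa only [one_smul] using this

theorem part3 {C : ℝ} (C0 : 1 ≤ C) (hC : 10 * C ≤ pq B.N) (hL : LM C) (g : Cu) (i : Fin 3) :
    CB 4 ((B.c g k).hy hv) (B.R g (985 / 1000))
    (fun z => (B.fr g).vd (fun w => ftot ρ Z S (B.ug j u) (nT B.N) w -
      ∑ g' ∈ (nbrs g 2).filter (fun g' => col g' = j), (B.fr g').unvd (B.mF ρ Z S u g') w) z i)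
    (np B.N (-200) * (B.c g k).lam) := by
  set act := (nbrs g 2).filter (fun g' => col g' = j) with hact
  have ac : (act.card : ℝ) ≤ 125 := by
    exact_mod_cast (Finset.card_filter_le _ _).trans_eq (card_nbrs g)
  have am : ∀ g' ∈ act, Nbr 2 g g' ∧ col g' = j := fun g' h =>
    (Finset.mem_filter.1 h).imp mem_nbrs.1 id
  have wi := fun g' => wt_ind H.wt B.D g'
  set b : V → ℝ := fun x => ρ x - ∑ g' ∈ act, indicator (box B.D g' (99 / 100)) ρ x with hb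
  have mb : Measurable b := H.rho.1.sub (wt_sum act wi).1
  have bb : ∀ x, |b x| ≤ 252 := fun x => by
    have h1 := (Finset.abs_sum_le_sum_abs _ act).trans (Finset.sum_le_card_nsmul _ _ 2 fun g' _ =>
      (norm_indicator_le_norm_self (s := box B.D g' (99 / 100)) ρ x).trans (H.rb x))
    rw [nsmul_eq_mul] at h1
    linarith [abs_sub (ρ x) (∑ g' ∈ act, indicator (box B.D g' (99 / 100)) ρ x), H.rb x]
  have h0 : ∀ m, ∀ x ∈ box B.D g (99 / 100), b x = 0 ∨ B.ug j u m x = 0 := fun m x hx => by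
    by_cases hc : ∀ g', col g' = j → x ∉ box B.D g' (93 / 100)
    · exact .inr (H.Uzero m hc)
    push Not at hc
    obtain ⟨g', c1, c2⟩ := hc
    have c3 := box_mono H.D0.le (show (93 / 100 : ℝ) ≤ 99 / 100 by norm_num) g' c2
    refine .inl (sub_eq_zero.2 ?_)
    rw [Finset.sum_eq_single_of_mem g' (Finset.mem_filter.2
      ⟨mem_nbrs.2 (box_nbr H.D0 (by norm_num) hx c2), c1⟩) fun g'' h1 h2 =>
        indicator_of_notMem (fun c4 => h2 (col_box_unique H.D0 (by norm_num)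
          ((am g'' h1).2.trans c1.symm) c4 c3)) _, indicator_of_mem c3]
  have L := fun g' (h : g' ∈ act) => hL _ _ _ _ _ _ _ _ _ (H.loc (am g' h).2)
  have l0 : 0 < B.lb / 2 ^ k := (H.gd g).lam_pos
  have n := H.N9
  have hh' : ∀ g i, 0 ≤ (B.c g k).hy hv i := fun g i => (H.hh g i).le
  have s1 := fun m (hm : m ∈ Finset.range (nT B.N)) => (vd_sm (B.fr g)
      (k2 k1 _ _ _ _ _ (H.gkp (Finset.mem_range.1 hm) b ⟨mb, _, bb⟩)).1).coord i
  have c1 := CBl.sum_card (Finset.range (nT B.N)) (hh' g) s1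
    fun m hm => H.rest g mb bb (Finset.mem_range.1 hm) (h0 m) i
  have s2 := fun g' (h : g' ∈ act) => (vd_sm (B.fr g) (unvd_sm (B.fr g') (L g' h).2.1)).coord i
  have c2 := CBl.sum_card act (hh' g) s2 fun g' h => transport (κ := (B.N : ℝ) ^ 3)
    (β := nT B.N * (C * 2 * np B.N (-690) ^ 3 * ((B.N : ℝ) ^ 2 * (B.lb / 2 ^ k))))
    (H.eb2 (am g' h).1) (H.eb2 (nbr_symm (am g' h).1)) (hh' g) (hh' g')
    (one_le_pow₀ (by linarith))
    (fun a a' => (H.hb g a').2.trans (le_trans (le_of_eq (by field_simp))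
      (mul_le_mul_of_nonneg_left (H.hb g' a).1 (by positivity)))) (L g' h).2.1
    (fun a => ((L g' h).2.2.1 a).monoB (by
      have := H.big.np_pos (-690)
      gcongr
      exact (H.hb g' a).2)) i
  refine ((CBl.add (hh' g) (ContDiff.sum s1) (ContDiff.sum s2) c1
    (c2.monoU (subset_univ _))).congr_fun fun z => vd_split _ (fun w => ?_) z i).monoB ?_
  · have e : ρ = fun x => b x + ∑ g' ∈ act, indicator (box B.D g' (99 / 100)) ρ x :=
      funext fun x => (sub_add_cancel _ _).symm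
    have e1 : ftot ρ Z S (B.ug j u) (nT B.N) w = _ := Finset.sum_congr rfl fun m hm =>
      (congrArg (fun r => flux r _ _ _ _ w) e).trans
        (flux_sum (H.gkp (Finset.mem_range.1 hm)) ⟨mb, _, bb⟩ act wi w)
    rw [e1, Finset.sum_add_distrib, Finset.sum_comm,
      Finset.sum_congr rfl fun g' h => H.near (am g' h).2 w, Finset.sum_add_distrib]
    abel
  · have e : np B.N (-200) = ((B.N : ℝ) ^ 200)⁻¹ := by
      rw [← np_nat, np, np, ← Real.rpow_neg H.big.N_pos.le]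
      norm_num
    rw [Finset.card_range, Tc, H.dl, e]
    exact (add_le_add (num4 n l0 fun a => (H.hb g a).1)
      (num3 n (by linarith) (H.CN C0 hC) ac l0.le)).trans_eq (add_halves _)

end Hy

end Stg

open Stg in
theorem stg (h : KgStmt) : StgStmt := by
  obtain ⟨C, C0, hL⟩ := loc_main
  filter_upwards [h, ev_big, ev_pL (10000 * C)] with N h hN hC
  rintro B rfl ρ k j Z S hv u h1 h2 h3 h4 h5
  have H : Hy B ρ k j Z S hv u := ⟨hN, h B rfl, h1, h2, h3, h4, h5⟩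
  have hq : 10 * C ≤ pq B.N := by
    rw [hN.q_eq]
    linarith [Real.add_one_le_exp (pL B.N / 1000)]
  exact ⟨H.part1.1, H.part1.2, fun g hg => H.part2 C0 hq hL hg, H.part3 C0 hq hL⟩

end
end Pool.Agent.MP_20bec2_an.T3

end MrgPart2

-- ======== part 3: formerly Pool.Agent.MP_20bec2_an.T3.Left
section MrgPart3

/-! Row LEFT: what is left of the exact flux after the cut main fluxes are removed. -/

set_option autoImplicit false
open MeasureTheory Set Filter Matrix Topology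

namespace Pool.Agent.MP_20bec2_an.T3
noncomputable section
open Classical

namespace Lft
open Prof

lemma cutF_sm (O : Mx) (D : ℝ) {F : V → V} (h : Sm F) : Sm (cutF O D F) := (beth_sm O D).smul h

/-- near a point seen in the frame `g` the glued flux is a finite sum -/
lemma gl_ev {B : Bk} (G : B.G) (n1 : 1 ≤ B.N) (j : ℕ) (F : Cu → V → V) (g : Cu) {p : V}
    (hp : (B.fr g).zc p ∈ B.R g (98 / 100)) :
    B.glF j F =ᶠ[𝓝 p] fun w => ∑ g' ∈ (nbrs g 2).filter (fun g' => col g' = j),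
      (B.fr g').unvd (cutF (B.fr g').O B.D (F g')) w := by
  have hD : 0 < B.D := GeoP.D_pos G.toFrOk n1
  filter_upwards [(zc_sm (B.fr g)).continuous.continuousAt.preimage_mem_nhds
    (RX_nhds hD (r' := 1) (by norm_num) hp)] with w hw
  rw [Bk.glF, Finset.sum_filter]
  refine finsum_eq_sum_of_support_subset _ fun g' hg' => Finset.mem_coe.2 (Stg.mem_nbrs.2
    (GeoP.nbr_of G n1 (r := 1) (r' := 95 / 100) (by norm_num) (by norm_num) (by norm_num)
      (by norm_num) (by norm_num) hw (beth_supp hD fun h0 => hg' ?_)))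
  simp only [Fr.unvd, cutF, h0, zero_smul, mulVec_zero, smul_zero, ite_self]

lemma gl_sm {B : Bk} (G : B.G) (n1 : 1 ≤ B.N) {j : ℕ} {F : Cu → V → V}
    (h : ∀ g, col g = j → Sm (F g)) : Sm (B.glF j F) :=
  contDiff_iff_contDiffAt.2 fun p => by
    obtain ⟨g, hg⟩ := GeoP.cover G n1 p
    exact (ContDiff.sum fun g' hg' => unvd_sm _
      (cutF_sm _ _ (h g' (Finset.mem_filter.1 hg').2))).contDiffAt.congr_of_eventuallyEq
      (gl_ev G n1 j F g (RX_mono _ (GeoP.D_pos G.toFrOk n1).le (by norm_num) hg))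

/-- the part removed by the cut -/
lemma cut_cb {O : Mx} {D C β : ℝ} (hD : 0 < D) {h : V} (hh : ∀ i, 0 ≤ h i) (hβ : 0 ≤ β)
    (hC : CB 4 h univ (beth O D) C) {F : V → V} (hF : Sm F)
    (hb : ∀ i, CB 4 h (RX O D (935 / 1000))ᶜ (fun z => F z i) β) (i : Fin 3) :
    CB 4 h univ (fun z => (F z - cutF O D F z) i) ((1 + 16 * C) * β) := by
  have C0 : 0 ≤ C := hC.nonneg (mem_univ 0)
  rw [← union_compl_self (RX O D (935 / 1000))]
  refine CBl.union ((cbl_zero (by positivity)).congr fun x hx => ?_) ?_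
  · filter_upwards [RX_nhds hD (r' := 94 / 100) (by norm_num) hx] with y hy
    rw [cutF, beth_one hD hy, one_smul, sub_self]
    rfl
  · exact (CBl.sub hh (hF.coord i) ((beth_sm O D).mul (hF.coord i)) (hb i)
      (CB.mul hh (beth_sm O D) (hF.coord i) (hC.monoU (subset_univ _)) (hb i))).monoB
      (le_of_eq (by ring))

lemma num {N : ℕ} (b : Big N) {C c l : ℝ} (C0 : 0 ≤ C) (hC : 1 + 16 * C ≤ N) (hc : c ≤ 125)
    (hl : 0 ≤ l) : np N (-200) * l +
      c * (288 * ((6 * (N : ℝ) ^ 3) ^ 4 * ((1 + 16 * C) * (Real.exp (-(N : ℝ)) * l)))) ≤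
      np N (-10) * l := by
  have n9 : (10 : ℝ) ^ 9 ≤ N := by linarith [b.N_ge, b.J_ge, b.L_ge]
  have n0 := b.N_pos
  have a1 : (N : ℝ) ^ 14 * Real.exp (-(N : ℝ)) ≤ np N (-11) := by
    rw [← np_nat, b.np_eq, b.np_eq, ← Real.exp_add]
    refine Real.exp_le_exp.2 ?_
    push_cast
    linarith [b.N_ge, b.J_pos]
  have a2 : 2 * np N (-11) ≤ np N (-10) := by
    rw [show (-10 : ℝ) = (1 : ℕ) + -11 by norm_num, b.np_add, np_nat, pow_one]
    exact mul_le_mul_of_nonneg_right (by linarith) (b.np_pos _).le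
  have a3 : np N (-200) ≤ np N (-11) := b.np_le (by norm_num)
  calc _ ≤ np N (-11) * l +
        125 * (288 * ((6 * (N : ℝ) ^ 3) ^ 4 * (N * (Real.exp (-(N : ℝ)) * l)))) := by gcongr
    _ = np N (-11) * l + 46656000 * (N : ℝ) ^ 13 * Real.exp (-(N : ℝ)) * l := by ring
    _ ≤ np N (-11) * l + N * (N : ℝ) ^ 13 * Real.exp (-(N : ℝ)) * l := by
        gcongr
        linarith
    _ ≤ np N (-11) * l + np N (-11) * l := by
        rw [← pow_succ']
        gcongr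
    _ ≤ _ := by nlinarith [mul_le_mul_of_nonneg_right a2 hl]

lemma rb {c : Pm} (G : Gd c) {R : V → V} {U : Set V}
    (h : ∀ i, CB 4 c.hs U (fun z => R z i) (np c.N (-10) * c.lam)) : c.RB R U := by
  have b := G.big
  have l0 := G.lam_pos.le
  refine ⟨fun i _ => (h i).of_le (by norm_num), ((h 2).of_le (by norm_num)).monoB ?_,
    ((h 2).of_le (by norm_num)).toCL.monoB ?_⟩
  · refine (mul_le_mul_of_nonneg_right (b.np_le (b := 11 / 10) (by norm_num)) l0).trans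
      (le_mul_of_one_le_left G.y_pos.le ?_)
    linarith [b.q_ge, show c.q = pq c.N from rfl]
  · rw [Pm.y, ← mul_assoc, ← b.np_add]
    exact mul_le_mul_of_nonneg_right (b.np_le (by norm_num)) l0

end Lft

open Lft Prof in
theorem left (hP : PksStmt) (hS : StgStmt) : LeftStmt := by
  obtain ⟨C, C1, hC⟩ := cb_cut 4
  filter_upwards [hP, hS, kg, ev_big, ev_pL (17 * C)] with N hP hS hK hN hCN
  rintro B rfl ρ k r s ch o f' M
  obtain ⟨U, P, -⟩ := hP B rfl ρ k r s ch o M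
  have G : B.G := M.ok.geo
  obtain ⟨s1, e1, s2, b3⟩ := hS B rfl ρ k (r - 1) _ _ _ o.u M.rho G M.hk.le U P
  have H : Stg.Hy B ρ k (r - 1) (B.Z s) s.Sg (B.yk k) o.u :=
    ⟨hN, hK B rfl, M.rho, G, M.hk.le, U, P⟩
  have n := H.N9
  have n1 : 1 ≤ B.N := by
    have : (1 : ℝ) ≤ B.N := by linarith
    exact_mod_cast this
  set F := B.mF ρ (B.Z s) s.Sg o.u
  set T := ftot ρ (B.Z s) s.Sg (B.ug (r - 1) o.u) (nT B.N)
  have s3 : Sm (B.glF (r - 1) F) := gl_sm G n1 fun g hg => (s2 g hg).1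
  refine ⟨fun w => T w - B.glF (r - 1) F w, s1.sub s3, fun z => ?_, fun g => rb (H.gd g) fun i => ?_⟩
  · have e : B.Z (B.stp ρ k r s ch o f') =
        fun x => B.Z s x + Up (B.ug (r - 1) o.u) (nT B.N) x := funext fun x => by
      simp only [Bk.Z, Bk.stp]
      abel
    rw [e, dv_sub s1 s3]
    exact (e1 z).trans (by ring)
  · set act := (nbrs g 2).filter (fun g' => col g' = r - 1)
    have ac : (act.card : ℝ) ≤ 125 := by
      exact_mod_cast (Finset.card_filter_le _ _).trans_eq (Stg.card_nbrs g)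
    have am : ∀ g' ∈ act, Nbr 2 g g' ∧ col g' = r - 1 := fun g' h =>
      (Finset.mem_filter.1 h).imp Stg.mem_nbrs.1 id
    have l0 : 0 < B.lb / 2 ^ k := (H.gd g).lam_pos
    have hh : ∀ g i, 0 ≤ (B.c g k).hy (B.yk k) i := fun g i => (H.hh g i).le
    have sF := fun g' (h : g' ∈ act) => (s2 g' (am g' h).2).1
    have sR := fun g' (h : g' ∈ act) => (sF g' h).sub (cutF_sm (B.fr g').O B.D (sF g' h))
    have hD : ∀ g i, |(B.c g k).hy (B.yk k) i| ≤ 1 * B.D := fun g i => by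
      rw [abs_of_nonneg (hh g i), one_mul]
      exact (H.hb g i).2.trans (mul_le_mul (pow_le_pow_right₀ (by linarith) (by norm_num))
        (H.gd g).lam_le_lb l0.le (by positivity))
    have s4 := fun g' (h : g' ∈ act) => (vd_sm (B.fr g) (unvd_sm (B.fr g') (sR g' h))).coord i
    have c2 := CBl.sum_card act (hh g) s4 fun g' h => Stg.transport (κ := (B.N : ℝ) ^ 3)
      (β := (1 + 16 * C) * (Real.exp (-(B.N : ℝ)) * (B.lb / 2 ^ k)))
      (H.eb2 (am g' h).1) (H.eb2 (nbr_symm (am g' h).1)) (hh g) (hh g')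
      (one_le_pow₀ (by linarith))
      (fun a a' => (H.hb g a').2.trans (le_trans (le_of_eq (by field_simp))
        (mul_le_mul_of_nonneg_left (H.hb g' a).1 (by positivity)))) (sR g' h)
      (cut_cb H.D0 (hh g') (by positivity)
        ((hC _ _ (H.hO g') H.D0).2 _ 1 le_rfl (hD g')).1.2.2 (sF g' h) (s2 g' (am g' h).2).2.2.2) i
    refine ((CBl.add (hh g) ((vd_sm _ (s1.sub (ContDiff.sum fun g' h =>
      unvd_sm _ (sF g' h)))).coord i) (ContDiff.sum s4)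
      ((b3 g i).monoU (RX_mono _ H.D0.le (by norm_num))) (c2.monoU (subset_univ _))).congr
      fun z hz => ?_).monoB (num hN (by linarith)
        (by linarith [hN.N_ge, hN.J_ge, hN.L_ge]) ac l0.le)
    filter_upwards [(zp_sm (B.fr g)).continuous.continuousAt.eventually (gl_ev G n1 (r - 1) F g
      (p := (B.fr g).zp z) (by rwa [zc_zp (H.hQ g).ne']))] with w hw
    simp only [Fr.vd, hw, Fr.unvd, mulVec_sub, smul_sub, mulVec_sum, Finset.smul_sum, Pi.sub_apply,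
      Finset.sum_apply, Finset.sum_sub_distrib]
    ring

end
end Pool.Agent.MP_20bec2_an.T3

end MrgPart3

-- marker of a merged file
example : 731051 + 282032 = 731051 + 282032 := rfl

end MrgPart2

-- marker of a merged file
example : 731051 + 282032 = 731051 + 282032 := rfl
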