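import Pool.Agent.MP_20bec2_an.T3.Conv
import Pool.Agent.MP_20bec2_an.T3.Left
import Pool.Agent.MP_20bec2_an.T3.CrA
import Pool.Agent.MP_20bec2_an.T3.Zt
import Pool.Agent.MP_20bec2_an.T3.Par4

/-! Row BI: the records about the density after the start of a band. -/

set_option autoImplicit false
open MeasureTheory Set Filter Matrix Topology

namespace Pool.Agent.MP_20bec2_an.T3
noncomputable section
open Classical

namespace BiP
open Prof ConvP

/-! ## matrices -/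

lemma cv1_smul (F : Fr) (a : ℝ) (S : Mx) : F.cv1 (a • S) = a • F.cv1 S := by
  simp only [Fr.cv1, Matrix.mul_smul, Matrix.smul_mul]

lemma cv_ws (B : Bk) (hD : 0 < B.D) (F : Fr) (A : Cu → V → Mx) (X : V) :
    F.cv1 (B.ws A X) =
      ∑ g ∈ Glue.nb8 (cv B.D) X, al B.D g X ^ 2 • F.cv1 ((B.fr g).unc (A g X)) := by
  have e := ((Glue.sup_al_sq hD).smul fun g x => (B.fr g).unc (A g x)).eq_sum (by norm_num) X
  rw [Bk.ws, e]
  simp only [Fr.cv1, Matrix.mul_sum, Matrix.sum_mul, Matrix.mul_smul, Matrix.smul_mul]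

lemma nrm_le {h : V} {X : Mx} {e m : ℝ} (hm : 0 < m) (hh : ∀ i, m ≤ h i) (hX : EB X (cm e)) :
    EB (nrm h X) (cm (e / m ^ 2)) := fun i j => by
  have h1 := mul_le_mul (hh i) (hh j) hm.le (hm.le.trans (hh i))
  have h2 : 0 < m * m := mul_pos hm hm
  show |X i j / (h i * h j)| ≤ e / m ^ 2
  rw [abs_div, abs_of_pos (h2.trans_le h1), sq]
  exact div_le_div₀ (GeoP.eb_nonneg hX) (hX i j) h2 h1

lemma unnrm {h : V} {y : ℝ} (h0 : ∀ i, 0 < h i) (hy : ∀ i, h i ≤ y) {X Dm : Mx} {i j : Fin 3}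
    {a : ℝ} (H : |(nrm h X - Dm) i j| ≤ a) : |X i j - Dm i j * (h i * h j)| ≤ a * y ^ 2 := by
  have p := mul_pos (h0 i) (h0 j)
  have e : X i j - Dm i j * (h i * h j) = (nrm h X - Dm) i j * (h i * h j) := by
    simp only [nrm, of_apply, Matrix.sub_apply]
    field_simp [(h0 i).ne', (h0 j).ne']
  rw [e, abs_mul, abs_of_pos p, sq]
  exact mul_le_mul H (mul_le_mul (hy i) (hy j) (h0 j).le ((h0 i).le.trans (hy i))) p.le
    ((abs_nonneg _).trans H)

lemma eb_smul {X : Mx} {e a b : ℝ} (hX : EB X (cm e)) (ha : |a| ≤ b) : EB (a • X) (cm (b * e)) :=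
  fun i j => by
    rw [Matrix.smul_apply, smul_eq_mul, abs_mul]
    exact mul_le_mul ha (hX i j) (abs_nonneg _) ((abs_nonneg _).trans ha)

/-! ## parameters -/

lemma hs_le {c : Pm} (g : Gd c) (i : Fin 3) : c.hs i ≤ c.y := by
  have b := g.big
  have n1 : 1 ≤ np c.N (11 / 10) := by rw [← np_zero c.N]; exact b.np_le (by norm_num)
  have n2 : c.ro ≤ np c.N (11 / 10) := by
    refine g.ro_le.trans ?_
    rw [Real.sqrt_eq_rpow]
    exact b.np_le (a := 1 / 2) (by norm_num)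
  fin_cases i
  exacts [mul_le_mul_of_nonneg_right n2 g.lam_pos.le, le_mul_of_one_le_left g.lam_pos.le n1, le_rfl]

lemma hy_ge {c : Pm} (g : Gd c) {hv : ℝ} (h : np c.N (-2) * c.y ≤ hv) (i : Fin 3) :
    np c.N (-2) * c.y ≤ c.hy hv i := by
  have b := g.big
  have n1 : np c.N (-2) * c.y ≤ c.lam := by
    rw [Pm.y, ← mul_assoc, ← b.np_add]
    refine mul_le_of_le_one_left g.lam_pos.le ?_
    rw [← np_zero c.N]; exact b.np_le (by norm_num)
  fin_cases i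
  exacts [n1.trans g.lam_le_l1, n1, h]

lemma lam_le_hy {c : Pm} (g : Gd c) (hv : ℝ) {i : Fin 3} (hi : i ≠ 2) : c.lam ≤ c.hy hv i := by
  fin_cases i
  exacts [g.lam_le_l1, le_rfl, absurd rfl hi]

lemma cc_le {c : Pm} (g : Gd c) {i : Fin 3} (hi : i ≠ 2) : c.cc i / c.n12 ≤ np c.N (-7 / 5) := by
  have b := g.big
  refine le_of_log (div_pos (g.cc_pos i) g.n12_pos) (b.np_pos _) ?_
  rw [Real.log_div (g.cc_pos i).ne' g.n12_pos.ne', b.log_np]
  have h1 := Real.log_le_log g.s1_pos g.s1_le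
  have h2 : Real.log (c.cc i) ≤ -Real.log c.s1 := by
    fin_cases i
    · show Real.log c.c1 ≤ _
      linarith [g.log_c1, g.log_η_le]
    · show Real.log c.c2 ≤ _
      linarith [g.log_c2]
    · exact absurd rfl hi
  linarith [g.log_s1_ge, g.log_n12_bd.1, b.J_ge, b.L_ge]

lemma np_small {N : ℕ} (b : Big N) {a a' : ℝ} (h : a + 1 / 2 ≤ a') : 60000 * np N a ≤ np N a' := by
  have e : np N a' = np N (a' - a) * np N a := by rw [← b.np_add]; congr 1; ring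
  rw [e]
  exact mul_le_mul_of_nonneg_right (np_big b (by linarith)) (b.np_pos a).le

lemma q_np {N : ℕ} (b : Big N) {a a' : ℝ} (h : a + 1 / 100 ≤ a') :
    100 * pq N * np N a ≤ np N a' := by
  have := b.q_pos
  have := b.np_pos a
  refine le_of_log (by positivity) (b.np_pos _) ?_
  rw [Real.log_mul (by positivity) (by positivity), Real.log_mul (by positivity) (by positivity),
    b.log_q, b.log_np, b.log_np]
  have := mul_le_mul_of_nonneg_right h b.J_pos.le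
  linarith [b.log100_bd.2, b.J_ge, b.L_ge]

lemma eps_le {N : ℕ} (b : Big N) : pq N * np N (-15) + Real.exp (-(N : ℝ)) ≤ np N (-14) := by
  have h1 := q_np b (a := -15) (a' := -14) (by norm_num)
  have h2 := np_small b (a := -15) (a' := -14) (by norm_num)
  have h3 : Real.exp (-(N : ℝ)) ≤ np N (-15) := by
    rw [b.np_eq]; exact Real.exp_le_exp.2 (by linarith [b.N_ge, b.J_pos])
  linarith [b.np_pos (-14)]

lemma beta_ge {c : Pm} (g : Gd c) (y : ℝ) : np c.N (-28 / 100) ≤ c.betaR y :=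
  le_mul_of_one_le_right (g.big.np_pos _).le (Real.one_le_rpow (le_max_left _ _) (by norm_num))

lemma N_big {N : ℕ} (b : Big N) : (1000000 : ℝ) ≤ N := by linarith [b.N_ge, b.J_ge, b.L_ge]

lemma N_two {N : ℕ} (b : Big N) : 2 ≤ N := by
  have : (2 : ℝ) ≤ N := by linarith [N_big b]
  exact_mod_cast this

lemma reg_le {N : ℕ} (b : Big N) (k : ℝ) (hk : 0 ≤ k) :
    985 / 1000 - (k + 1) / N ≤ 985 / 1000 - 1 / (2 * (N : ℝ)) := by
  have := b.N_pos
  have : 1 / (2 * (N : ℝ)) ≤ (k + 1) / N := by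
    rw [div_le_div_iff₀ (by positivity) this]; nlinarith
  linarith

/-! ## the refined covariance -/

lemma rf_err {B : Bk} (b : Big B.N) (G : FrOk B.N B.lb B.fr) {k : ℕ} (hk : k ≤ nb B.N)
    {S : V → Mx} {a : ℝ} (H : B.SB k S 4 1 a a) (g : Cu) {x : V} (hx : x ∈ B.R g (99 / 100)) :
    EB ((B.fr g).cov (B.Rf k S) x - (B.fr g).cov S x + (3 * B.yk k ^ 2) • (B.fr g).cov B.Db x)
      (cm (4 * (a * B.yk k ^ 2))) := by
  have h2 := N_two b
  have hD : 0 < B.D := GeoP.D_pos G (by omega)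
  have hX : (B.fr g).xp x ∈ box B.D g (99 / 100) := (GeoP.xp_mem G).2 hx
  simp only [Fr.cov]
  generalize (B.fr g).xp x = X at hX
  have s1 : ∑ g' ∈ Glue.nb8 (cv B.D) X, al B.D g' X ^ 2 = 1 := al_sum hD.ne' X
  have e : (B.fr g).cv1 (B.Rf k S X) - (B.fr g).cv1 (S X) +
      (3 * B.yk k ^ 2) • (B.fr g).cv1 (B.Db X) = ∑ g' ∈ Glue.nb8 (cv B.D) X, al B.D g' X ^ 2 •
        (((B.fr g).Q⁻¹ * (B.fr g').Q) * (latm ((B.fr g').cv1 (S X)) + dg3 0 0 (B.yk k ^ 2) -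
          (B.fr g').cv1 (S X) + (3 * B.yk k ^ 2) • dg3 0 0 1) *
          ((B.fr g).Q⁻¹ * (B.fr g').Q)ᵀ) := by
    rw [Bk.Rf, Bk.Db, cv_ws B hD, cv_ws B hD, ← one_smul ℝ ((B.fr g).cv1 (S X)), ← s1,
      Finset.sum_smul, Finset.smul_sum, ← Finset.sum_sub_distrib, ← Finset.sum_add_distrib]
    refine Finset.sum_congr rfl fun g' _ => ?_
    rw [GeoP.cv1_unc', GeoP.cv1_unc', GeoP.cv1_chg (F := B.fr g) (GeoP.det_ne G g') (S X),
      smul_comm, ← smul_sub, ← smul_add]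
    simp only [Matrix.mul_add, Matrix.add_mul, Matrix.mul_sub, Matrix.sub_mul, Matrix.mul_smul,
      Matrix.smul_mul]
    rfl
  rw [e]
  intro i j
  rw [Matrix.sum_apply]
  refine (Finset.abs_sum_le_sum_abs _ _).trans ?_
  have s2 : ∑ g' ∈ Glue.nb8 (cv B.D) X, al B.D g' X ^ 2 * (4 * (a * B.yk k ^ 2)) =
      4 * (a * B.yk k ^ 2) := by rw [← Finset.sum_mul, s1, one_mul]
  refine le_trans (Finset.sum_le_sum fun g' _ => ?_) s2.le
  rw [Matrix.smul_apply, smul_eq_mul, abs_mul, abs_of_nonneg (sq_nonneg _)]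
  by_cases h0 : al B.D g' X = 0
  · simp [h0]
  refine mul_le_mul_of_nonneg_left ?_ (sq_nonneg _)
  have hX' := al_supp hD h0
  have cp := GeoP.cpt_of_box G (by omega) (by norm_num) hX hX'
  have d := GeoP.dc_le h2
  have row : ∀ i, ∑ j, |((B.fr g).Q⁻¹ * (B.fr g').Q) i j| ≤ 2 := fun i =>
    (GeoP.T_row (GeoP.orth G g) (GeoP.orth G g') cp i).trans (by linarith)
  have gd := Bk.gd G b g' hk
  have hk' : (k : ℝ) / B.N ≤ 1 / 10 := by
    have : (k : ℝ) ≤ nb B.N := by exact_mod_cast hk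
    rw [div_le_iff₀ b.N_pos]; linarith [b.nb_bd.2, b.N_ge, b.J_pos]
  have bd := H.bd g' _ (RX_mono _ hD.le (by linarith) ((GeoP.xc_mem G).2 hX'))
  simp only [Bk.nS, Fr.cov, xp_xc (GeoP.orth G g')] at bd
  have u := fun i j (h : |(nrm (B.c g' k).hs ((B.fr g').cv1 (S X)) - dg3 (1 / 4) (1 / 4) 4) i j| ≤ a) =>
    unnrm gd.hs_pos (hs_le gd) h
  have u02 := u 0 2 (bd 0 2)
  have u12 := u 1 2 (bd 1 2)
  have u20 := u 2 0 (bd 2 0)
  have u21 := u 2 1 (bd 2 1)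
  have u22 := u 2 2 (bd 2 2)
  have ey : (B.c g' k).y = B.yk k := rfl
  have eh : (B.c g' k).hs 2 = B.yk k := rfl
  rw [ey] at u02 u12 u20 u21 u22
  rw [eh] at u22
  have p : 0 ≤ a * B.yk k ^ 2 := (abs_nonneg _).trans u02
  have E : EB (latm ((B.fr g').cv1 (S X)) + dg3 0 0 (B.yk k ^ 2) - (B.fr g').cv1 (S X) +
      (3 * B.yk k ^ 2) • dg3 0 0 1) (cm (a * B.yk k ^ 2)) := by
    generalize (B.fr g').cv1 (S X) = C at u02 u12 u20 u21 u22
    simp [dg3] at u02 u12 u20 u21 u22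
    intro i j
    fin_cases i <;> fin_cases j <;> simp [latm, dg3, cm, p, u02, u12, u20, u21]
    rw [abs_le] at u22 ⊢
    constructor <;> linarith [u22.1, u22.2]
  exact GeoP.eb_mono (b := 4 * (a * B.yk k ^ 2))
    (GeoP.eb_mul_col (B := ((B.fr g).Q⁻¹ * (B.fr g').Q)ᵀ) (GeoP.eb_mul_row row E) row)
    (by linarith) i j

/-! ## densities -/

lemma rho_hat {ρ : V → ℝ} (hρ : Rho ρ) (F : Fr) : Measurable (F.sc ρ) ∧ ∀ x, |F.sc ρ x| ≤ 2 :=
  ⟨hρ.1.comp (xp_sm F).continuous.measurable, fun x => by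
    have := hρ.2 (F.xp x)
    unfold eps0 at this
    rw [abs_le] at this ⊢
    unfold Fr.sc
    constructor <;> linarith [this.1, this.2]⟩

/-- smoothness and the crude bound -/
lemma crude : EvB fun B => ∀ (ρ : V → ℝ) (k : ℕ) (Z : V → V) (S : V → Mx) (hv : ℝ), Rho ρ → B.G →
    k ≤ nb B.N → B.KS k Z S hv → ∀ g, Sm ((B.fr g).den (dens ρ Z S)) ∧
      CB 4 ((B.c g k).hy hv) (B.R g (985 / 1000)) ((B.fr g).den (dens ρ Z S)) (pq B.N) := by
  obtain ⟨C, -, -, hB⟩ := kb_ k1 4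
  filter_upwards [kg, ev_C_q (C * 2 + 2)] with N hK hq B hN
  subst hN
  intro ρ k Z S hv hρ hG hk ks g
  obtain ⟨mb, bb⟩ := rho_hat hρ (B.fr g)
  obtain ⟨gk, kl, far, -⟩ := (hK B rfl k Z S hv hG hk ks _ 2 mb bb).2 g
  have hU := kl.cl.isClosed.measurableSet
  rw [(k3 k1 (k2 k1) (B.fr g) (hG.fx g).2.1 (hG.fx g).2.2.1).1]
  refine ⟨(k1 _ _ _ gk).1, ?_⟩
  rw [split gk hU]
  have h1 : Real.exp (-(B.N : ℝ) ^ 3) ≤ 1 := Real.exp_le_one_iff.2 (by simp)
  exact CBl.monoB (CBl.add (fun i => (kl.hh i).le) (k1 _ _ _ (gk_ind gk hU)).1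
    (k1 _ _ _ (gk_ind gk hU.compl)).1 (CBl.monoU (hB _ _ _ _ _ _ kl).2.1 (subset_univ _))
    (far.of_le (by norm_num))) (by linarith)

/-- `conv` with absolute errors -/
lemma conv2 : EvB fun B => ∀ (ρ : V → ℝ) (k0 k : ℕ) (Z Z' : V → V) (S S' : V → Mx)
    (hv hv' : ℝ) (g : Cu) (A : Mx) (z : V), Rho ρ → B.G → k0 ≤ nb B.N → k ≤ nb B.N →
    B.KS k0 Z S hv → B.KS k Z' S' hv' → Aᵀ = A →
    (A = 0 ∨ ∀ v : V, 1 / 10 ^ 4 * ∑ i, ((B.c g k).hy hv' i * v i) ^ 2 ≤ v ⬝ᵥ (A *ᵥ v) ∧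
      v ⬝ᵥ (A *ᵥ v) ≤ 6 * ∑ i, ((B.c g k).hy hv' i * v i) ^ 2) →
    (∀ x ∈ B.R g (99 / 100), ‖(B.fr g).Q⁻¹ *ᵥ (Z' ((B.fr g).xp x) - Z ((B.fr g).xp x))‖ ≤
        np B.N (-25) * (B.c g k).lam ∧
      EB ((B.fr g).cov S' x - (B.fr g).cov S x - A) (cm (100 * (np B.N (-20) * B.yk k ^ 2)))) →
    z ∈ B.R g (985 / 1000 - 1 / (2 * B.N)) →
    (A = 0 → ∀ i, (B.c g k).hy hv' i * |pd i ((B.fr g).den (dens ρ Z' S')) z -
      pd i ((B.fr g).den (dens ρ Z S)) z| ≤ np B.N (-14)) ∧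
    (A ≠ 0 → ∀ (v : V) (b : ℝ), v 2 = 0 → (∀ i, |v i| ≤ (B.c g k).hs i) →
      (∀ w, ‖w - z‖ ≤ np B.N (5 / 2) * B.lb →
        |∑ i, v i * pd i ((B.fr g).den (dens ρ Z S)) w| ≤ b) →
      |∑ i, v i * pd i ((B.fr g).den (dens ρ Z' S')) z| ≤ b + np B.N (-14)) := by
  filter_upwards [conv kg, crude, ev_big] with N hC hS b B hN
  subst hN
  intro ρ k0 k Z Z' S S' hv hv' g A z hρ hG hk0 hk ks ks' hA hAb hx hz
  have gd := Bk.gd hG.toFrOk b g hk
  have hy := hy_ge gd ks'.hvb.1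
  have py : 0 < B.yk k := gd.y_pos
  have pm : 0 < np B.N (-2) * B.yk k := mul_pos (b.np_pos _) py
  have d1 : np B.N (-15) ≤ 1 / 1000 := by
    have := np_small b (a := -15) (a' := 0) (by norm_num)
    rw [np_zero] at this; linarith
  have d2 : np B.N (-25) * (B.c g k).lam ≤ np B.N (-15) * (np B.N (-2) * B.yk k) := by
    show _ ≤ np B.N (-15) * (np B.N (-2) * (np B.N (11 / 10) * (B.c g k).lam))
    rw [← mul_assoc, ← mul_assoc, ← b.np_add, ← b.np_add]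
    exact mul_le_mul_of_nonneg_right (b.np_le (by norm_num)) gd.lam_pos.le
  have d3 : 100 * (np B.N (-20) * B.yk k ^ 2) / (np B.N (-2) * B.yk k) ^ 2 ≤ np B.N (-15) := by
    have e : np B.N (-20) = np B.N (-16) * np B.N (-2) ^ 2 := by
      rw [sq, ← b.np_add, ← b.np_add]; norm_num
    have := b.np_pos (-2)
    have e2 : 100 * (np B.N (-20) * B.yk k ^ 2) / (np B.N (-2) * B.yk k) ^ 2 =
        100 * np B.N (-16) := by
      rw [e]; field_simp
    rw [e2]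
    linarith [np_small b (a := -16) (a' := -15) (by norm_num), b.np_pos (-16)]
  obtain ⟨c1, c2⟩ := hC B rfl ρ k0 k Z Z' S S' hv hv' (np B.N (-15)) g A z hρ hG hk0 hk ks ks'
    (b.np_pos _).le d1 hA hAb (fun x hxU => ⟨fun i => by
      have h1 := (hx x hxU).1
      rw [← zc_sub] at h1
      exact (abs_le_norm _ i).trans (h1.trans (d2.trans
        (mul_le_mul_of_nonneg_left (hy i) (b.np_pos _).le))),
      GeoP.eb_mono (nrm_le pm hy (hx x hxU).2) d3⟩) hz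
  refine ⟨fun h0 i => ?_, fun h0 v β h1 h2 h3 => ?_⟩
  · have := (c1 h0).pd_le (by norm_num) i (mem_singleton z)
    rw [pd_sub (hS B rfl ρ k Z' S' hv' hρ hG hk ks' g).1
      (hS B rfl ρ k0 Z S hv hρ hG hk0 ks g).1] at this
    exact this.trans (eps_le b)
  · linarith [(c2 h0 v β h1 h2 h3).1, eps_le b]

lemma sqrt_add {a b a' b' e : ℝ} (ha : |a' - a| ≤ e) (hb : |b' - b| ≤ e) :
    Real.sqrt (a' ^ 2 + b' ^ 2) ≤ Real.sqrt (a ^ 2 + b ^ 2) + 2 * e := by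
  have e0 : 0 ≤ e := (abs_nonneg _).trans ha
  have s0 := Real.sqrt_nonneg (a ^ 2 + b ^ 2)
  have s1 := Real.sq_sqrt (show 0 ≤ a ^ 2 + b ^ 2 by positivity)
  have s2 : |a| ≤ Real.sqrt (a ^ 2 + b ^ 2) := Real.abs_le_sqrt (by nlinarith [sq_nonneg b])
  have s3 : |b| ≤ Real.sqrt (a ^ 2 + b ^ 2) := Real.abs_le_sqrt (by nlinarith [sq_nonneg a])
  have key : ∀ {a a' : ℝ}, |a' - a| ≤ e → a' ^ 2 ≤ a ^ 2 + 2 * (|a| * e) + e ^ 2 := by
    intro a a' h
    have h1 : |a'| ≤ |a| + e := by linarith [abs_sub_abs_le_abs_sub a' a]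
    have h2 := pow_le_pow_left₀ (abs_nonneg _) h1 2
    rw [sq_abs, add_sq, sq_abs] at h2
    linarith
  refine Real.sqrt_le_iff.2 ⟨by positivity, ?_⟩
  nlinarith [key ha, key hb, mul_le_mul_of_nonneg_right s2 e0, mul_le_mul_of_nonneg_right s3 e0,
    sq_nonneg e]

/-- the vertical segments of the record stay in the good region -/
lemma seg {B : Bk} (b : Big B.N) (G : B.G) {g : Cu} {x : V} (hx : x ∈ B.bx g (97 / 100)) {τ t : ℝ}
    (hτ : |τ| ≤ 10 * (B.N : ℝ) ^ 2 * (B.c g (mid B.N)).lam) (ht : t ∈ uIoc 0 τ) :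
    (B.fr g).zc (B.Z0 x) + t • e3 ∈ B.R g (985 / 1000 - 1 / (2 * B.N)) := by
  have h2 := N_two b
  have hN := N_big b
  have hD : 0 < B.D := GeoP.D_pos G.toFrOk (by omega)
  have gd := Bk.gd G.toFrOk b g (k := mid B.N) (by have := b.mid_lt; omega)
  have h1 : |t| ≤ |τ| := by
    have := abs_sub_left_of_mem_uIcc (uIoc_subset_uIcc ht)
    simpa using this
  have h3 : ‖t • e3‖ ≤ |t| := norm_le_of fun i => by
    fin_cases i <;> simp [e3]
  have h4 : (B.c g (mid B.N)).lam ≤ B.lb := gd.lam_le_lb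
  have h5 : 0 < B.lb := gd.lb_pos
  have h6 : 10 * (B.N : ℝ) ^ 2 * (B.c g (mid B.N)).lam ≤ 10 * (B.N : ℝ) ^ 2 * B.lb :=
    mul_le_mul_of_nonneg_left h4 (by positivity)
  have h7 : 20000 * ((B.N : ℝ) ^ 2 * B.lb) ≤ (B.N : ℝ) ^ 2 * ((B.N : ℝ) ^ 2 * B.lb) :=
    mul_le_mul_of_nonneg_right (by nlinarith) (by positivity)
  have h8 : 1 / (2 * (B.N : ℝ)) ≤ 1 / 1000 := one_div_le_one_div_of_le (by norm_num) (by linarith)
  refine RX_mono _ hD.le (by linarith) (RX_add (s := 1 / 1000) (GeoP.orth G.toFrOk g)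
    (GeoP.fwd G (by omega) (by norm_num) hx) ?_)
  rw [add_sub_cancel_left]
  show _ ≤ 1 / 1000 * ((B.N : ℝ) ^ 4 * B.lb)
  linarith

lemma int_le {f : ℝ → ℝ} {τ e : ℝ} (h : ∀ t ∈ uIoc 0 τ, |f t| ≤ e) :
    |∫ t in (0 : ℝ)..τ, f t| ≤ e * |τ| := by
  simpa using intervalIntegral.norm_integral_le_of_norm_le_const (a := 0) (b := τ) (f := f) h

lemma cont_seg {M : V → ℝ} (h : Sm M) (i : Fin 3) (z : V) :
    Continuous fun t : ℝ => pd i M (z + t • e3) := (h.pd i).continuous.comp (by fun_prop)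

/-- size of a segment integral of a function bounded by `e / lam` -/
lemma seg_small {B : Bk} (b : Big B.N) (G : B.G) {g : Cu} {i : Fin 3} (hi : i ≠ 2) {k : ℕ}
    (hk : k ≤ nb B.N) {f : ℝ → ℝ} {τ e κ hv : ℝ} (he : 0 ≤ e)
    (hτ : |τ| ≤ 10 * (B.N : ℝ) ^ 2 * (B.c g (mid B.N)).lam)
    (hκ : (B.c g (mid B.N)).lam ≤ κ * (B.c g k).lam)
    (h : ∀ t ∈ uIoc 0 τ, (B.c g k).hy hv i * |f t| ≤ e) :
    (B.c g 0).cc i / (B.c g 0).n12 * |∫ t in (0 : ℝ)..τ, f t| ≤ 10 * (e * κ) * np B.N (3 / 5) := by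
  have gd := Bk.gd G.toFrOk b g hk
  have g0 := Bk.gd0 G.toFrOk b g
  have pl := gd.lam_pos
  have h1 := int_le (e := e / (B.c g k).lam) fun t ht => by
    rw [le_div_iff₀' pl]
    exact (mul_le_mul_of_nonneg_right (lam_le_hy gd hv hi) (abs_nonneg _)).trans (h t ht)
  have h2 : e / (B.c g k).lam * |τ| ≤
      e / (B.c g k).lam * (10 * (B.N : ℝ) ^ 2 * (κ * (B.c g k).lam)) :=
    mul_le_mul_of_nonneg_left (hτ.trans (mul_le_mul_of_nonneg_left hκ (by positivity)))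
      (by positivity)
  have e1 : np B.N (3 / 5) = np B.N (-7 / 5) * (B.N : ℝ) ^ 2 := by
    rw [← np_nat, ← b.np_add]; norm_num
  refine (mul_le_mul (cc_le g0 hi) (h1.trans h2) (abs_nonneg _) (b.np_pos _).le).trans_eq ?_
  rw [e1]
  show np B.N (-7 / 5) * _ = _
  field_simp

end BiP

open BiP in
theorem bi (hz : BzStmt) (hs : BsStmt) (hk : KsdStmt) : BiStmt := by
  filter_upwards [hz, hs, hk, conv2, crude, ev_big] with N hz hs hk hC hS b B hN
  subst hN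
  intro ρ k s nf ngc f1 Af ab Pv f' H
  obtain ⟨il, iz, -, ip, iq⟩ := hz B rfl ρ k s nf ngc f1 Af ab Pv f' H
  have is := hs B rfl ρ k s nf ngc f1 Af ab Pv f' H
  obtain ⟨⟨hρ, ok, hkn, inv⟩, hp, -, -⟩ := H
  have G : B.G := ok.geo
  have K0 := hk B rfl ρ k 0 s ok.toOk0 hkn (by norm_num) ⟨inv.il, inv.iz, inv.ip, inv.is, inv.iq⟩
  have K1 := hk B rfl ρ k 1 _ ok.toOk0 hkn (by norm_num) ⟨il, iz, ip, is, iq⟩
  have hD : 0 < B.D := GeoP.D_pos G.toFrOk (by have := N_two b; omega)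
  have dZ : ∀ g, ∀ x ∈ B.R g (99 / 100), ‖(B.fr g).Q⁻¹ *ᵥ
      (B.Z (B.sta k s nf ngc f' Af ab Pv) ((B.fr g).xp x) - B.Z s ((B.fr g).xp x))‖ ≤
      np B.N (-25) * (B.c g k).lam := fun g x hx => by
    have e : B.Z (B.sta k s nf ngc f' Af ab Pv) ((B.fr g).xp x) - B.Z s ((B.fr g).xp x) =
        (B.sta k s nf ngc f' Af ab Pv).Zn ((B.fr g).xp x) - s.Zn ((B.fr g).xp x) :=
      add_sub_add_left_eq_sub _ _ _
    rw [e]
    by_cases h : k = ks B.N
    · rw [inv.iz.n0 (by unfold aft; omega), Pi.zero_apply, sub_zero]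
      have := ((hp h f').zb g _ (Prof.box_mono hD.le (by norm_num) g
        ((GeoP.xp_mem G.toFrOk).2 hx))).2
      rwa [← h] at this
    · have e2 : (B.sta k s nf ngc f' Af ab Pv).Zn = s.Zn := if_neg h
      rw [e2, sub_self, mulVec_zero, norm_zero]
      exact (mul_pos (b.np_pos _) (Bk.gd G.toFrOk b g hkn.le).lam_pos).le
  have p20 : 0 ≤ np B.N (-20) * B.yk k ^ 2 := mul_nonneg (b.np_pos _).le (sq_nonneg _)
  constructor
  · intro g y hy z hz
    have gd := Bk.gd G.toFrOk b g hkn.le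
    have e : B.SR k 1 (B.sta k s nf ngc f' Af ab Pv).Sg y = B.SR k 0 s.Sg y := rfl
    have c := (hC B rfl ρ k k _ _ _ _ y y g 0 z hρ G hkn.le hkn.le (K0.2.2.1 y hy) (K1.2.2.1 y hy)
      transpose_zero (Or.inl rfl) (fun x hx => ⟨dZ g x hx, fun i j => by
        rw [e, sub_self, sub_zero, Matrix.zero_apply, abs_zero]
        exact mul_nonneg (by norm_num) p20⟩)
      (Prof.RX_mono _ hD.le (reg_le b k (Nat.cast_nonneg k)) hz)).1 rfl
    have c0 := c 0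
    have c1 := c 1
    have r := inv.ir.ri g y hy z hz
    change (B.c g k).l1 * _ ≤ _ at c0
    change (B.c g k).lam * _ ≤ _ at c1
    rw [← abs_of_pos gd.l1_pos, ← abs_mul, mul_sub] at c0
    rw [← abs_of_pos gd.lam_pos, ← abs_mul, mul_sub] at c1
    have py : 0 < B.yk k := gd.y_pos
    have y0 : 0 ≤ y / B.yk k :=
      div_nonneg ((mul_pos (b.np_pos _) gd.y_pos).le.trans hy.1) py.le
    have y1 : y / B.yk k ≤ 1 / 2 := by
      rw [div_le_iff₀ py]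
      have : y ≤ B.yk k / 2 := hy.2
      linarith
    have h1 := mul_le_mul_of_nonneg_left (sqrt_add c0 c1) y0
    have h2 := mul_le_mul_of_nonneg_right y1 (b.np_pos (-14)).le
    have h3 : np B.N (-28 / 100) ≤ _ := beta_ge gd y
    have h4 := np_small b (a := -14) (a' := -28 / 100) (by norm_num)
    push_cast at r ⊢
    linarith [b.np_pos (-14)]
  · intro hL hm g hg i hi x hx x' hx' a a' ha ha' τ hτ hzz
    have hlt := b.mid_lt
    have km : k < mid B.N := by unfold aft at hm; omega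
    have k0 : k ≠ 0 := by have := b.nm_pos; unfold kL at hL; omega
    have sb := inv.is.pre rfl
    rw [show (B.c 0 k).t13 = np B.N (-20) from if_neg k0,
      show (B.c 0 k).t33 = np B.N (-20) from if_neg k0] at sb
    have r := inv.ir.li hL (by unfold aft; omega) g hg i hi x hx x' hx' a a' ha ha' τ hτ hzz
    have s0 := (hS B rfl ρ k _ _ _ hρ G hkn.le (K0.2.2.2 hL km) g).1
    have s1 := (hS B rfl ρ k _ _ _ hρ G hkn.le (K1.2.2.2 hL km) g).1
    have c := seg_small b G hi hkn.le (κ := 1) (b.np_pos (-14)).le hτ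
      (by rw [one_mul]
          exact div_le_div_of_nonneg_left (GeoP.lb_pos G.toFrOk).le (by positivity)
            (pow_le_pow_right₀ one_le_two km.le))
      fun t ht => (hC B rfl ρ k k _ _ _ _ _ _ g 0 _ hρ G hkn.le hkn.le (K0.2.2.2 hL km)
        (K1.2.2.2 hL km) transpose_zero (Or.inl rfl) (fun x hx => ⟨dZ g x hx, by
          refine GeoP.eb_mono (a := 4 * (np B.N (-20) * B.yk k ^ 2)) ?_ (by linarith)
          convert rf_err b G.toFrOk hkn.le sb g hx using 1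
          simp only [Fr.cov, Bk.SL, Bk.sta, Prof.cv1_sub, cv1_smul, if_true, one_ne_zero, if_false]
          module⟩) (seg b G hx hτ ht)).1 rfl i
    rw [intervalIntegral.integral_sub ((cont_seg s1 i _).intervalIntegrable _ _)
      ((cont_seg s0 i _).intervalIntegrable _ _)] at c
    have g0 := Bk.gd0 G.toFrOk b g
    have h1 := mul_le_mul_of_nonneg_left (abs_sub_abs_le_abs_sub
      (∫ t in (0 : ℝ)..τ, pd i ((B.fr g).den (dens ρ (B.Z (B.sta k s nf ngc f' Af ab Pv))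
        (B.SL k 1 (B.sta k s nf ngc f' Af ab Pv).Sg))) ((B.fr g).zc (B.Z0 x) + t • e3))
      (∫ t in (0 : ℝ)..τ, pd i ((B.fr g).den (dens ρ (B.Z s) (B.SL k 0 s.Sg)))
        ((B.fr g).zc (B.Z0 x) + t • e3))) (div_pos (g0.cc_pos i) g0.n12_pos).le
    have e1 : np B.N (-14) * np B.N (3 / 5) = np B.N (-67 / 5) := by rw [← b.np_add]; norm_num
    have h2 := np_small b (a := -67 / 5) (a' := -3 / 5) (by norm_num)
    have e2 : (cnt k 1 : ℝ) = cnt k 0 + 1 := by unfold cnt; push_cast; ring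
    have e3 : tm k 1 = tm k 0 := rfl
    have e4 : (B.sta k s nf ngc f' Af ab Pv).xs = s.xs := rfl
    rw [e2, e3, e4]
    linarith [b.np_pos (-67 / 5)]

end
end Pool.Agent.MP_20bec2_an.T3
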