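import Pool.Agent.MP_20bec2_an.T3.FvA
import Pool.Agent.MP_20bec2_an.T3.Final
import Pool.Agent.MP_20bec2_an.T3.Par3

-- ======== part 0: formerly Pool.Agent.MP_20bec2_an.T3.FvB
section MrgPart0

/-! Matrix identities for the row FV and the three basic estimates. -/

set_option autoImplicit false
set_option linter.unnecessarySeqFocus false
open MeasureTheory Set Filter Matrix Topology

namespace Pool.Agent.MP_20bec2_an.T3
namespace FvP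
noncomputable section

lemma cyc (Γ P : Mx) : (Pᵀ * Γ * P).trace = (Γ * (P * Pᵀ)).trace ∧
    e2 (Pᵀ * Γ * P) = e2 (Γ * (P * Pᵀ)) := by
  have h1 : (Pᵀ * Γ * P).trace = (Γ * (P * Pᵀ)).trace := by
    rw [Matrix.mul_assoc, Matrix.trace_mul_comm, Matrix.mul_assoc]
  refine ⟨h1, ?_⟩
  unfold e2
  rw [h1, show Pᵀ * Γ * P * (Pᵀ * Γ * P) = Pᵀ * (Γ * (P * Pᵀ) * Γ * P) by
    simp only [Matrix.mul_assoc], Matrix.trace_mul_comm Pᵀ]
  simp only [Matrix.mul_assoc]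

lemma expand {Γ M : Mx} (hΓ : Γᵀ = Γ) (hM : Mᵀ = M) :
    (Γ * M).trace = Γ 0 0 * M 0 0 + Γ 1 1 * M 1 1 + 2 * (Γ 0 1 * M 0 1) +
      (Γ 2 2 * M 2 2 + 2 * (Γ 0 2 * M 0 2) + 2 * (Γ 1 2 * M 1 2)) ∧
    e2 (Γ * M) = (Γ 0 0 * Γ 1 1 - Γ 0 1 ^ 2) * (M 0 0 * M 1 1 - M 0 1 ^ 2) +
      ((Γ 0 0 * Γ 2 2 - Γ 0 2 * Γ 0 2) * (M 0 0 * M 2 2 - M 0 2 * M 0 2) +
      (Γ 1 1 * Γ 2 2 - Γ 1 2 * Γ 1 2) * (M 1 1 * M 2 2 - M 1 2 * M 1 2) +
      2 * ((Γ 0 1 * Γ 1 2 - Γ 1 1 * Γ 0 2) * (M 0 1 * M 1 2 - M 1 1 * M 0 2)) +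
      2 * ((Γ 0 1 * Γ 0 2 - Γ 0 0 * Γ 1 2) * (M 0 1 * M 0 2 - M 0 0 * M 1 2)) +
      2 * ((Γ 0 2 * Γ 1 2 - Γ 2 2 * Γ 0 1) * (M 0 2 * M 1 2 - M 2 2 * M 0 1))) := by
  have s : ∀ {X : Mx}, Xᵀ = X → ∀ i j, X j i = X i j := fun h i j =>
    congrFun (congrFun h i) j
  simp only [e2, Matrix.trace, Matrix.diag_apply, Matrix.mul_apply, Fin.sum_univ_three,
    s hΓ 0 1, s hΓ 0 2, s hΓ 1 2, s hM 0 1, s hM 0 2, s hM 1 2]
  constructor <;> ring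

lemma gramE {E : Mx} (hE : EB E (cm (1 / 1000))) (i j : Fin 3) :
    |((1 + E) * (1 + E)ᵀ - 1 : Mx) i j| ≤ 1 / 100 := by
  have e : ((1 + E) * (1 + E)ᵀ - 1 : Mx) = E + Eᵀ + E * Eᵀ := by
    simp only [Matrix.transpose_add, Matrix.transpose_one, mul_add, add_mul, one_mul, mul_one]
    abel
  have h : ∀ i j, |E i j| ≤ 1 / 1000 := hE
  rw [e]
  simp only [Matrix.add_apply, Matrix.transpose_apply, Matrix.mul_apply, Fin.sum_univ_three]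
  refine (ab (ab (h _ _) (h _ _)) (ab (ab (abs_mul_le (h _ _) (h _ _)) (abs_mul_le (h _ _) (h _ _)))
    (abs_mul_le (h _ _) (h _ _)))).trans (by norm_num)

/-- the three estimates for the change of `aa` and of `log Lam` -/
lemma est {E Γ : Mx} {s1 s2 α β γ c e f V δ ε : ℝ} (hE : EB E (cm (1 / 1000))) (hΓ : Γᵀ = Γ)
    (h00 : Γ 0 0 = (1 + α) * s1 ^ 2) (h11 : Γ 1 1 = (1 + γ) * s2 ^ 2)
    (h01 : Γ 0 1 = β * (s1 * s2)) (h22 : Γ 2 2 = c / (s1 * s2) ^ 2) (h02 : Γ 0 2 = e / s2)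
    (h12 : Γ 1 2 = f / s1) (hα : |α| ≤ δ) (hβ : |β| ≤ δ) (hγ : |γ| ≤ δ) (hc : |c| ≤ 3 / 2)
    (he : |e| ≤ 11 / 10 * V) (hf : |f| ≤ 11 / 10 * V) (hV : 1 ≤ V) (h1 : V ≤ s1) (h2 : s1 ≤ s2)
    (hε : 8 * (s2 * V) / (s1 * s2) ^ 2 ≤ ε) (hεδ : ε ≤ δ) (hδ : δ ≤ 1 / 1000) :
    |aa ((1 + E)ᵀ * Γ * (1 + E)) - aa (gr2 s1 s2 E) - α / 2| ≤
      6 / 10 * |γ| + 2 * α ^ 2 + β ^ 2 + ε ∧
    |Real.log (Lam ((1 + E)ᵀ * Γ * (1 + E))) - Real.log (Lam (gr2 s1 s2 E))| ≤ 9 * Real.sqrt δ ∧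
    (s1 / s2 ≤ 1 / 100 →
      |Real.log (Lam ((1 + E)ᵀ * Γ * (1 + E))) - Real.log (Lam (gr2 s1 s2 E))| ≤
        12 / 10 * |γ| + 3 * |s1 / s2 * β * ((1 + E) * (1 + E)ᵀ : Mx) 0 1| + 2 * ε + β ^ 2 +
          2 * (|α| * (s1 / s2 * ((1 + E) * (1 + E)ᵀ : Mx) 0 1) ^ 2)) := by
  have s10 : 0 < s1 := by linarith
  have s20 : 0 < s2 := by linarith
  have hM := gramE hE
  have hMs : ((1 + E) * (1 + E)ᵀ : Mx)ᵀ = (1 + E) * (1 + E)ᵀ := by
    rw [Matrix.transpose_mul, Matrix.transpose_transpose]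
  obtain ⟨c1, c2⟩ := cyc Γ (1 + E)
  obtain ⟨c3, c4⟩ := cyc (dg3 (s1 ^ 2) (s2 ^ 2) 0) (1 + E)
  obtain ⟨x1, x2⟩ := expand hΓ hMs
  obtain ⟨x3, x4⟩ := expand (Γ := dg3 (s1 ^ 2) (s2 ^ 2) 0) (Matrix.diagonal_transpose _) hMs
  have eL : ∀ G : Mx, Lam G = lf G.trace (e2 G) := fun _ => rfl
  unfold aa gr2
  rw [eL, eL, c1, c2, c3, c4, x1, x2, x3, x4, h00, h11, h01, h22, h02, h12]
  generalize ((1 + E) * (1 + E)ᵀ : Mx) = M at *
  have hA : |M 0 0 - 1| ≤ 1 / 100 := by simpa using hM 0 0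
  have hB : |M 1 1 - 1| ≤ 1 / 100 := by simpa using hM 1 1
  have hC : |M 2 2 - 1| ≤ 1 / 100 := by simpa using hM 2 2
  have hD : |M 0 1| ≤ 1 / 100 := by simpa using hM 0 1
  have hE' : |M 0 2| ≤ 1 / 100 := by simpa using hM 0 2
  have hF : |M 1 2| ≤ 1 / 100 := by simpa using hM 1 2
  have up : ∀ {x : ℝ}, |x - 1| ≤ 1 / 100 → |x| ≤ 101 / 100 := fun h =>
    abs_le.2 ⟨by linarith [(abs_le.1 h).1], by linarith [(abs_le.1 h).2]⟩
  obtain ⟨m1, m2⟩ := small (a := 1 + α) (b := 1 + γ) (d := β)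
    ((ab abs_one.le (hα.trans hδ)).trans (by norm_num))
    ((ab abs_one.le (hγ.trans hδ)).trans (by norm_num)) hc (hβ.trans hδ) he hf (up hA) (up hB)
    (up hC) hD hE' hF hV h1 h2
  have n0 : 0 < (s1 * s2) ^ 2 := by positivity
  have dv : ∀ {x : ℝ}, |x| ≤ 8 * (s2 * V) → |x / (s1 * s2) ^ 2| ≤ ε := fun h => by
    rw [abs_div, abs_of_pos n0]
    exact (div_le_div_of_nonneg_right h n0.le).trans hε
  have hσ := dv m1
  have hτ := dv m2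
  have hDm : 97 / 100 ≤ M 0 0 * M 1 1 - M 0 1 ^ 2 := by
    have a1 := (abs_le.1 hA).1
    have a2 := (abs_le.1 hB).1
    have a3 := (abs_le.1 (abs_mul_le hD hD)).2
    have a4 : 99 / 100 * (99 / 100) ≤ M 0 0 * M 1 1 :=
      mul_le_mul (by linarith) (by linarith) (by norm_num) (by linarith)
    linarith
  have k0 : 0 < s1 / s2 := div_pos s10 s20
  have r1 := coreA hα hβ hγ hσ hεδ hδ hDm n0
  have r2 := coreC (s := s2 ^ 2) (by positivity) hα hβ hγ (hσ.trans hεδ) (hτ.trans hεδ) hδ hA hB hD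
    k0 ((div_le_one s20).2 h2)
  have r3 := coreB (s := s2 ^ 2) (by positivity) hα hβ hγ hσ hτ hεδ hδ hA hB hD k0
  simp only [dg3, Matrix.diagonal_apply_eq, Matrix.cons_val_zero, Matrix.cons_val_one,
    Matrix.cons_val, Matrix.diagonal_apply_ne _ (show (0 : Fin 3) ≠ 1 by decide),
    Matrix.diagonal_apply_ne _ (show (0 : Fin 3) ≠ 2 by decide),
    Matrix.diagonal_apply_ne _ (show (1 : Fin 3) ≠ 2 by decide)]
  refine ⟨?_, ?_, fun hk => ?_⟩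
  · convert r1 using 5 <;> field_simp <;> ring
  · convert r2 using 5 <;> field_simp <;> ring
  · convert r3 hk using 5 <;> field_simp <;> ring

end
end FvP
end Pool.Agent.MP_20bec2_an.T3

end MrgPart0

-- ======== part 1: formerly Pool.Agent.MP_20bec2_an.T3.VbA
section MrgPart1

/-! The potential `V2` in closed form, and its increments. -/

set_option autoImplicit false
open Set Filter Matrix

namespace Pool.Agent.MP_20bec2_an.T3
noncomputable section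

namespace VbA

/-- squared length of row 0 of `1 + E` -/
def al (E : Mx) : ℝ := (1 + E 0 0) ^ 2 + E 0 1 ^ 2 + E 0 2 ^ 2
/-- squared length of row 1 of `1 + E` -/
def be (E : Mx) : ℝ := E 1 0 ^ 2 + (1 + E 1 1) ^ 2 + E 1 2 ^ 2
/-- inner product of the two rows -/
def ga (E : Mx) : ℝ := (1 + E 0 0) * E 1 0 + E 0 1 * (1 + E 1 1) + E 0 2 * E 1 2
/-- Gram determinant of the two rows -/
def DD (E : Mx) : ℝ := al E * be E - ga E ^ 2
/-- the larger eigenvalue, normalised -/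
def la (c : Pm) (E : Mx) : ℝ := Lam (gr2 c.s1 c.s2 E) / c.s2 ^ 2

lemma trace_eq (s1 s2 : ℝ) (E : Mx) : (gr2 s1 s2 E).trace = s1 ^ 2 * al E + s2 ^ 2 * be E := by
  simp [gr2, dg3, al, be, Matrix.trace, Matrix.mul_apply, Fin.sum_univ_three, Matrix.diagonal,
    Matrix.one_apply]
  ring

lemma e2_eq (s1 s2 : ℝ) (E : Mx) : e2 (gr2 s1 s2 E) = s1 ^ 2 * s2 ^ 2 * DD E := by
  rw [e2, trace_eq]
  simp [gr2, dg3, al, be, ga, DD, Matrix.trace, Matrix.mul_apply, Fin.sum_univ_three,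
    Matrix.diagonal, Matrix.one_apply]
  ring

lemma la_eq (c : Pm) (_h1 : 0 < c.s1) (h2 : 0 < c.s2) (E : Mx) :
    (la c E - al E / c.K ^ 2) * (la c E - be E) = ga E ^ 2 / c.K ^ 2 ∧
      al E / c.K ^ 2 + be E ≤ 2 * la c E := by
  have h0 : 0 ≤ (c.s1 ^ 2 * al E + c.s2 ^ 2 * be E) ^ 2 - 4 * (c.s1 ^ 2 * c.s2 ^ 2 * DD E) := by
    have : (c.s1 ^ 2 * al E + c.s2 ^ 2 * be E) ^ 2 - 4 * (c.s1 ^ 2 * c.s2 ^ 2 * DD E) =
        (c.s1 ^ 2 * al E - c.s2 ^ 2 * be E) ^ 2 + 4 * (c.s1 * c.s2 * ga E) ^ 2 := by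
      unfold DD; ring
    rw [this]; positivity
  have h3 := Real.sq_sqrt h0
  have h4 := Real.sqrt_nonneg
    ((c.s1 ^ 2 * al E + c.s2 ^ 2 * be E) ^ 2 - 4 * (c.s1 ^ 2 * c.s2 ^ 2 * DD E))
  unfold la Lam Pm.K
  rw [trace_eq, e2_eq]
  generalize Real.sqrt _ = r at h3 h4
  constructor
  · field_simp
    unfold DD at h3
    linear_combination h3
  · have : al E / (c.s2 / c.s1) ^ 2 + be E = (c.s1 ^ 2 * al E + c.s2 ^ 2 * be E) / c.s2 ^ 2 := by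
      field_simp
    rw [this, ← mul_div_assoc]
    gcongr
    linarith

lemma t2f_eq (c : Pm) (h1 : 0 < c.s1) (h2 : 0 < c.s2) {E : Mx} (hD : 0 < DD E) (hl : 0 < la c E) :
    c.t2f E = c.t + (Real.log (la c E) - Real.log (DD E) / 2) ∧
      aa (gr2 c.s1 c.s2 E) = Real.log c.n12 + Real.log (DD E) / 2 := by
  have e1 : aa (gr2 c.s1 c.s2 E) = Real.log c.s1 + Real.log c.s2 + Real.log (DD E) / 2 := by
    rw [aa, e2_eq, Real.log_mul (by positivity) hD.ne', Real.log_mul (by positivity)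
      (by positivity), Real.log_pow, Real.log_pow]
    push_cast
    ring
  have e3 : Lam (gr2 c.s1 c.s2 E) = c.s2 ^ 2 * la c E := by unfold la; field_simp
  refine ⟨?_, by rw [e1, Pm.n12, Real.log_mul h1.ne' h2.ne']⟩
  rw [Pm.t2f, tt, e1, e3, Real.log_mul (by positivity) hl.ne', Real.log_pow, Pm.t, Pm.K,
    Real.log_div h2.ne' h1.ne']
  push_cast
  ring

/-- closed form of the potential -/
lemma V2_eq (c : Pm) (h1 : 0 < c.s1) (h2 : 0 < c.s2) {E : Mx} (hD : 0 < DD E) (hl : 0 < la c E) :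
    c.V2 E = Real.log c.n12 + Real.log (DD E) / 2 +
      Psi (pR c.N) (c.t + (Real.log (la c E) - Real.log (DD E) / 2)) := by
  obtain ⟨e1, e2⟩ := t2f_eq c h1 h2 hD hl
  rw [← e1, ← e2]
  rfl

lemma mb {a b A B : ℝ} (h1 : |a| ≤ A) (h2 : |b| ≤ B) : |a * b| ≤ A * B := by
  rw [abs_mul]
  exact mul_le_mul h1 h2 (abs_nonneg _) ((abs_nonneg _).trans h1)

lemma ab {a b A B : ℝ} (h1 : |a| ≤ A) (h2 : |b| ≤ B) : |a + b| ≤ A + B :=
  (abs_add_le _ _).trans (add_le_add h1 h2)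

/-- mean value theorem, in both orders -/
lemma mvt {f f' : ℝ → ℝ} {I : Set ℝ} (hI : I.OrdConnected) (h : ∀ x ∈ I, HasDerivAt f (f' x) x)
    {a b : ℝ} (ha : a ∈ I) (hb : b ∈ I) : ∃ x ∈ I, f b - f a = f' x * (b - a) := by
  have key : ∀ a b : ℝ, a ∈ I → b ∈ I → a < b → ∃ x ∈ I, f b - f a = f' x * (b - a) := by
    intro a b ha hb hab
    obtain ⟨x, hx, e⟩ := exists_hasDerivAt_eq_slope f f' hab
      (fun x hx => (h x (hI.out ha hb hx)).continuousAt.continuousWithinAt)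
      (fun x hx => h x (hI.out ha hb (Ioo_subset_Icc_self hx)))
    refine ⟨x, hI.out ha hb (Ioo_subset_Icc_self hx), ?_⟩
    rw [e, div_mul_cancel₀ _ (sub_pos.2 hab).ne']
  rcases lt_trichotomy a b with h1 | rfl | h1
  · exact key a b ha hb h1
  · exact ⟨a, ha, by simp⟩
  · obtain ⟨x, hx, e⟩ := key b a hb ha h1
    exact ⟨x, hx, by linarith⟩

lemma logd {y y' δ : ℝ} (h1 : |y - 1| ≤ δ) (h2 : |y' - 1| ≤ δ) (h3 : δ ≤ 1 / 2) :
    |Real.log y' - Real.log y - (y' - y)| ≤ 2 * δ * |y' - y| := by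
  have a1 := abs_le.1 h1
  have a2 := abs_le.1 h2
  obtain ⟨x, hx, e⟩ := mvt (f := Real.log) (f' := fun x => x⁻¹) (I := Icc (1 - δ) (1 + δ))
    ordConnected_Icc (fun x hx => Real.hasDerivAt_log (by linarith [hx.1])) (a := y) (b := y')
    ⟨by linarith, by linarith⟩ ⟨by linarith, by linarith⟩
  have x0 : 0 < x := by linarith [hx.1]
  rw [e, show x⁻¹ * (y' - y) - (y' - y) = (x⁻¹ - 1) * (y' - y) by ring]
  refine mb ?_ le_rfl
  have a3 : x⁻¹ - 1 = (1 - x) * x⁻¹ := by field_simp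
  have a4 : x⁻¹ ≤ 2 := by rw [inv_le_comm₀ x0 (by norm_num)]; linarith [hx.1]
  rw [a3, mul_comm 2 δ]
  exact mb (abs_le.2 ⟨by linarith [hx.2], by linarith [hx.1]⟩)
    (by rw [abs_of_pos (by positivity)]; exact a4)

lemma log1 {y δ : ℝ} (h1 : |y - 1| ≤ δ) (h3 : δ ≤ 1 / 2) : |Real.log y| ≤ 2 * δ := by
  have h0 : 0 ≤ δ := (abs_nonneg _).trans h1
  have h := logd (y := 1) (y' := y) (by simpa) h1 h3
  rw [Real.log_one, sub_zero] at h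
  have h4 : 2 * δ * |y - 1| ≤ 1 * δ := mul_le_mul (by linarith) h1 (abs_nonneg _) zero_le_one
  have := ab h h1
  rw [sub_add_cancel] at this
  linarith

/-- the table of the two lateral rows -/
def Tb (E : Mx) (e0 e1 e2 u s : ℝ) : Prop :=
  |E 0 0| ≤ e0 ∧ |E 0 1| ≤ e1 ∧ |E 0 2| ≤ e2 ∧ |E 1 0| ≤ u ∧ |E 1 1| ≤ s ∧ |E 1 2| ≤ u

lemma pt {E : Mx} {e0 e1 e2 u s : ℝ} (h : Tb E e0 e1 e2 u s) (h0 : e0 ≤ 1 / 10 ^ 4) (h1 : s ≤ e0)
    (h2 : e1 ^ 2 ≤ e0) (h3 : e2 ^ 2 ≤ e0) (h4 : u ≤ e1) :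
    |al E - 1| ≤ 5 * e0 ∧ |be E - 1| ≤ 3 * s + 2 * u ^ 2 ∧ |ga E| ≤ 5 * e1 := by
  obtain ⟨a0, a1, a2, a3, a4, a5⟩ := h
  have p0 := (abs_nonneg _).trans a0
  have p1 := (abs_nonneg _).trans a1
  have p2 := (abs_nonneg _).trans a2
  have p3 := (abs_nonneg _).trans a3
  have p4 := (abs_nonneg _).trans a4
  have b0 : |1 + E 0 0| ≤ 2 := (ab (le_of_eq abs_one) a0).trans (by linarith)
  have b1 : |1 + E 1 1| ≤ 2 := (ab (le_of_eq abs_one) a4).trans (by linarith)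
  have b2 : e2 ≤ 1 := by nlinarith
  refine ⟨?_, ?_, ?_⟩
  · rw [show al E - 1 = E 0 0 * (1 + (1 + E 0 0)) + E 0 1 * E 0 1 + E 0 2 * E 0 2 by
      unfold al; ring]
    refine (ab (ab (mb a0 (ab (le_of_eq abs_one) b0)) (mb a1 a1)) (mb a2 a2)).trans ?_
    nlinarith
  · rw [show be E - 1 = E 1 1 * (1 + (1 + E 1 1)) + E 1 0 * E 1 0 + E 1 2 * E 1 2 by
      unfold be; ring]
    refine (ab (ab (mb a4 (ab (le_of_eq abs_one) b1)) (mb a3 a3)) (mb a5 a5)).trans ?_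
    nlinarith
  · refine (ab (ab (mb b0 a3) (mb a1 b1)) (mb a2 a5)).trans ?_
    nlinarith

lemma df {E A : Mx} {e0 e1 e2 u s a0 a1 a2 b a3 : ℝ} (h : Tb E e0 e1 e2 u s)
    (h' : Tb (E + A) e0 e1 e2 u s) (hA : Tb A a0 a1 a2 b a3) (h0 : e0 ≤ 1) (h1 : s ≤ 1) :
    |al (E + A) - al E - 2 * A 0 0| ≤ 2 * (e0 * a0 + e1 * a1 + e2 * a2) ∧
    |be (E + A) - be E - 2 * A 1 1| ≤ 2 * (s * a3) + 4 * (u * b) ∧
    |ga (E + A) - ga E| ≤ 2 * b + u * a0 + 2 * a1 + e1 * a3 + u * a2 + e2 * b := by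
  obtain ⟨x0, x1, x2, x3, x4, x5⟩ := h
  obtain ⟨y0, y1, y2, y3, y4, y5⟩ := h'
  obtain ⟨z0, z1, z2, z3, z4, z5⟩ := hA
  have b0 : |1 + (E + A) 0 0| ≤ 2 := (ab (le_of_eq abs_one) y0).trans (by linarith)
  have b1 : |1 + (E + A) 1 1| ≤ 2 := (ab (le_of_eq abs_one) y4).trans (by linarith)
  refine ⟨?_, ?_, ?_⟩
  · rw [show al (E + A) - al E - 2 * A 0 0 = (E 0 0 + (E + A) 0 0) * A 0 0 +
      (E 0 1 + (E + A) 0 1) * A 0 1 + (E 0 2 + (E + A) 0 2) * A 0 2 by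
      simp only [al, Matrix.add_apply]; ring]
    exact (ab (ab (mb (ab x0 y0) z0) (mb (ab x1 y1) z1)) (mb (ab x2 y2) z2)).trans_eq (by ring)
  · rw [show be (E + A) - be E - 2 * A 1 1 = (E 1 0 + (E + A) 1 0) * A 1 0 +
      (E 1 1 + (E + A) 1 1) * A 1 1 + (E 1 2 + (E + A) 1 2) * A 1 2 by
      simp only [be, Matrix.add_apply]; ring]
    exact (ab (ab (mb (ab x3 y3) z3) (mb (ab x4 y4) z4)) (mb (ab x5 y5) z5)).trans_eq (by ring)
  · rw [show ga (E + A) - ga E = (1 + (E + A) 0 0) * A 1 0 + E 1 0 * A 0 0 +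
      (1 + (E + A) 1 1) * A 0 1 + E 0 1 * A 1 1 + (E + A) 1 2 * A 0 2 + E 0 2 * A 1 2 by
      simp only [ga, Matrix.add_apply]; ring]
    exact ab (ab (ab (ab (ab (mb b0 z3) (mb x3 z0)) (mb b1 z1)) (mb x1 z4)) (mb y5 z2)) (mb x2 z5)

/-- the larger root -/
lemma root {α β g l κ δ : ℝ} (h1 : (l - α * κ) * (l - β) = g * κ) (h2 : α * κ + β ≤ 2 * l)
    (h3 : |α - 1| ≤ 1 / 10) (h4 : |β - 1| ≤ 1 / 10) (k0 : 0 ≤ κ) (k1 : κ ≤ 1 / 10) (g0 : 0 ≤ g)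
    (g1 : g * κ ≤ δ) : 1 / 2 ≤ l - α * κ ∧ 0 ≤ l - β ∧ l - β ≤ 2 * δ := by
  have a1 := abs_le.1 h3
  have a2 := abs_le.1 h4
  have a3 : α * κ ≤ 11 / 10 * (1 / 10) := mul_le_mul (by linarith) k1 k0 (by norm_num)
  have a4 : 0 < l - α * κ := by linarith
  have a5 : 0 ≤ l - β := by
    by_contra h
    nlinarith [mul_nonneg g0 k0, mul_pos a4 (show 0 < β - l by linarith)]
  have a6 : 1 / 2 ≤ l - α * κ := by linarith
  exact ⟨a6, a5, by nlinarith [mul_le_mul_of_nonneg_right a6 a5]⟩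

lemma droot {α β g l α' β' g' l' κ δ x y : ℝ} (h1 : (l - α * κ) * (l - β) = g * κ)
    (h1' : (l' - α' * κ) * (l' - β') = g' * κ) (h2 : 1 / 2 ≤ l' - α' * κ) (h3 : 0 ≤ l - β)
    (h4 : l - β ≤ δ) (h5 : |(g' - g) * κ| ≤ x) (h6 : |β' - β - (α' - α) * κ| ≤ y) :
    |l' - β' - (l - β)| ≤ 2 * (x + δ * y) := by
  have e : (l' - β' - (l - β)) * (l' - α' * κ + (l - β)) =
      (g' - g) * κ + -(l - β) * (β' - β - (α' - α) * κ) := by linear_combination h1' - h1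
  have h7 : |-(l - β)| ≤ δ := by rwa [abs_neg, abs_of_nonneg h3]
  have h8 := ab h5 (mb h7 h6)
  rw [← e, abs_mul, abs_of_nonneg (show 0 ≤ l' - α' * κ + (l - β) by linarith)] at h8
  nlinarith [abs_nonneg (l' - β' - (l - β))]

/-- the hypotheses on the two tables -/
structure Hy (R κ η e0 e1 e2 u s a0 a1 a2 b a3 : ℝ) : Prop where
  R1 : 1 ≤ R
  Re : R * e0 ≤ 1 / 10 ^ 4
  k0 : 0 ≤ κ
  k1 : κ ≤ 1 / 100
  n0 : 0 ≤ η
  nk : η ≤ κ
  se : s ≤ e0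
  h1 : e1 ^ 2 ≤ e0
  h2 : e2 ^ 2 ≤ e0
  ue : u ≤ e1
  a30 : a3 ≤ a0
  e1a : e1 * a1 ≤ a0
  e2a : e2 * a2 ≤ a0
  ua0 : u * a0 ≤ b
  ua2 : u * a2 ≤ a1
  ea3 : e1 * a3 ≤ a1
  ba : b ≤ a1
  ka : e1 * a1 * κ ≤ u * b
  ke : e1 ^ 2 * κ ≤ u ^ 2

section core

variable {R κ η e0 e1 e2 u s a0 a1 a2 b a3 l l' : ℝ} {E A : Mx}

lemma Tb.nn (h : Tb E e0 e1 e2 u s) : 0 ≤ e0 ∧ 0 ≤ e1 ∧ 0 ≤ e2 ∧ 0 ≤ u ∧ 0 ≤ s :=
  ⟨(abs_nonneg _).trans h.1, (abs_nonneg _).trans h.2.1, (abs_nonneg _).trans h.2.2.1,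
    (abs_nonneg _).trans h.2.2.2.1, (abs_nonneg _).trans h.2.2.2.2.1⟩

lemma Hy.e0_le (H : Hy R κ η e0 e1 e2 u s a0 a1 a2 b a3) (h : 0 ≤ e0) : e0 ≤ 1 / 10 ^ 4 := by
  nlinarith [H.R1, H.Re]

lemma one (H : Hy R κ η e0 e1 e2 u s a0 a1 a2 b a3) (h : Tb E e0 e1 e2 u s)
    (q1 : (l - al E * κ) * (l - be E) = ga E ^ 2 * κ) (q2 : al E * κ + be E ≤ 2 * l) :
    |al E - 1| ≤ 5 * e0 ∧ |be E - 1| ≤ 5 * e0 ∧ |ga E| ≤ 5 * e1 ∧ |DD E - 1| ≤ 40 * e0 ∧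
      1 / 2 ≤ l - al E * κ ∧ 0 ≤ l - be E ∧ l - be E ≤ 50 * u ^ 2 ∧
      |l - 1| ≤ 3 * s + 52 * u ^ 2 ∧ u ^ 2 ≤ e0 := by
  obtain ⟨p0, p1, p2, p3, p4⟩ := h.nn
  have p5 := H.e0_le p0
  obtain ⟨c1, c2, c3⟩ := pt h p5 H.se H.h1 H.h2 H.ue
  have c4 : u ^ 2 ≤ e0 := (pow_le_pow_left₀ p3 H.ue 2).trans H.h1
  have c5 : |be E - 1| ≤ 5 * e0 := by linarith [H.se]
  have c6 : ga E ^ 2 ≤ 25 * e1 ^ 2 := by
    have := (le_abs_self _).trans (mb c3 c3)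
    linarith
  obtain ⟨c7, c8, c9⟩ := root (δ := 25 * u ^ 2) q1 q2 (by linarith) (by linarith) H.k0
    (by linarith [H.k1]) (sq_nonneg _)
    (by linarith [mul_le_mul_of_nonneg_right c6 H.k0, H.ke])
  refine ⟨c1, c5, c3, ?_, c7, c8, by linarith, ?_, c4⟩
  · have d1 := abs_le.1 (mb c1 c5)
    have d2 := abs_le.1 c1
    have d3 := abs_le.1 c5
    have d4 : e0 * e0 ≤ 1 / 10 ^ 4 * e0 := mul_le_mul_of_nonneg_right p5 p0
    have d5 := sq_nonneg (ga E)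
    have d6 := H.h1
    unfold DD
    exact abs_le.2 ⟨by linarith, by linarith⟩
  · have d2 := abs_le.1 c2
    exact abs_le.2 ⟨by linarith, by linarith⟩

lemma two (H : Hy R κ η e0 e1 e2 u s a0 a1 a2 b a3) (h : Tb E e0 e1 e2 u s)
    (h' : Tb (E + A) e0 e1 e2 u s) (hA : Tb A a0 a1 a2 b a3)
    (g : |ga E| ≤ 5 * e1) (g' : |ga (E + A)| ≤ 5 * e1) :
    |al (E + A) - al E - 2 * A 0 0| ≤ 2 * (e0 * a0 + e1 * a1 + e2 * a2) ∧
    |be (E + A) - be E - 2 * A 1 1| ≤ 2 * (s * a3) + 4 * (u * b) ∧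
    |ga (E + A) ^ 2 - ga E ^ 2| ≤ 80 * (e1 * a1) ∧ |al (E + A) - al E| ≤ 7 * a0 ∧
    |be (E + A) - be E| ≤ 3 * a3 + 4 * (u * b) ∧ u * b ≤ a0 := by
  obtain ⟨p0, p1, p2, p3, p4⟩ := h.nn
  obtain ⟨r0, r1, r2, r3, r4⟩ := hA.nn
  have p5 := H.e0_le p0
  obtain ⟨c1, c2, c3⟩ := df h h' hA (by linarith) (by linarith [H.se])
  have b2 : e2 ≤ 1 := by nlinarith [H.h2]
  have c4 : |ga (E + A) - ga E| ≤ 8 * a1 := by
    have := mul_le_mul_of_nonneg_right b2 r3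
    linarith [H.ua0, H.ua2, H.ea3, H.ba]
  have c5 : e0 * a0 ≤ 1 / 10 ^ 4 * a0 := mul_le_mul_of_nonneg_right p5 r0
  have c6 : s * a3 ≤ 1 / 10 ^ 4 * a3 := mul_le_mul_of_nonneg_right (H.se.trans p5) r4
  refine ⟨c1, c2, ?_, ?_, ?_, (mul_le_mul H.ue H.ba r3 p1).trans H.e1a⟩
  · rw [show ga (E + A) ^ 2 - ga E ^ 2 = (ga (E + A) + ga E) * (ga (E + A) - ga E) by ring]
    exact (mb (ab g' g) c4).trans_eq (by ring)
  · have d1 := abs_le.1 c1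
    have d2 := abs_le.1 hA.1
    exact abs_le.2 ⟨by linarith [H.e1a, H.e2a], by linarith [H.e1a, H.e2a]⟩
  · have d1 := abs_le.1 c2
    have d2 := abs_le.1 hA.2.2.2.2.1
    exact abs_le.2 ⟨by linarith, by linarith⟩

lemma x1 (H : Hy R κ η e0 e1 e2 u s a0 a1 a2 b a3) (h : Tb E e0 e1 e2 u s)
    (h' : Tb (E + A) e0 e1 e2 u s) (hA : Tb A a0 a1 a2 b a3)
    (q1 : (l - al E * κ) * (l - be E) = ga E ^ 2 * κ) (q2 : al E * κ + be E ≤ 2 * l)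
    (q1' : (l' - al (E + A) * κ) * (l' - be (E + A)) = ga (E + A) ^ 2 * κ)
    (q2' : al (E + A) * κ + be (E + A) ≤ 2 * l') :
    |Real.log l' - Real.log l - 2 * A 1 1| ≤ 20 * (s * a3) + 2000 * (u * b) := by
  obtain ⟨p0, p1, p2, p3, p4⟩ := h.nn
  obtain ⟨r0, r1, r2, r3, r4⟩ := hA.nn
  have p5 := H.e0_le p0
  obtain ⟨-, -, g, -, -, c2, c3, c4, c5⟩ := one H h q1 q2
  obtain ⟨-, -, g', -, c1', -, -, c4', -⟩ := one H h' q1' q2'
  obtain ⟨-, d2, d3, d4, d5, d6⟩ := two H h h' hA g g'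
  have k : |κ| ≤ κ := (abs_of_nonneg H.k0).le
  have f1 : |be (E + A) - be E - (al (E + A) - al E) * κ| ≤ 8 * a0 := by
    have f2 := abs_le.1 (mb d4 (k.trans H.k1))
    have f3 := abs_le.1 d5
    exact abs_le.2 ⟨by linarith [H.a30], by linarith [H.a30]⟩
  have f2 := droot (x := 80 * (u * b)) q1 q1' c1' c2 c3
    ((mb d3 k).trans (by linarith [H.ka])) f1
  have f3 : u * (u * a0) ≤ u * b := mul_le_mul_of_nonneg_left H.ua0 p3
  have f4 : |l' - be (E + A) - (l - be E)| ≤ 960 * (u * b) := f2.trans (by linarith)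
  have f5 : |l' - l| ≤ 3 * a3 + 964 * (u * b) := by
    have f6 := abs_le.1 f4
    have f7 := abs_le.1 d5
    exact abs_le.2 ⟨by linarith, by linarith⟩
  have f6 := logd c4 c4' (by linarith [H.se])
  have f7 : 2 * (3 * s + 52 * u ^ 2) * |l' - l| ≤
      2 * (3 * s + 52 * u ^ 2) * (3 * a3 + 964 * (u * b)) :=
    mul_le_mul_of_nonneg_left f5 (by positivity)
  have ub : 0 ≤ u * b := by positivity
  have f8 : s * (u * b) ≤ 1 / 10 ^ 4 * (u * b) := mul_le_mul_of_nonneg_right (H.se.trans p5) ub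
  have f9 : u ^ 2 * (u * b) ≤ 1 / 10 ^ 4 * (u * b) := mul_le_mul_of_nonneg_right (c5.trans p5) ub
  have f10 : u ^ 2 * a3 ≤ u ^ 2 * a0 := mul_le_mul_of_nonneg_left H.a30 (sq_nonneg u)
  have f11 := abs_le.1 f6
  have f12 := abs_le.1 f4
  have f13 := abs_le.1 d2
  exact abs_le.2 ⟨by linarith, by linarith⟩

lemma x2 (H : Hy R κ η e0 e1 e2 u s a0 a1 a2 b a3) (h : Tb E e0 e1 e2 u s)
    (h' : Tb (E + A) e0 e1 e2 u s) (hA : Tb A a0 a1 a2 b a3)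
    (q1 : (l - al E * κ) * (l - be E) = ga E ^ 2 * κ) (q2 : al E * κ + be E ≤ 2 * l)
    (q1' : (l' - al (E + A) * κ) * (l' - be (E + A)) = ga (E + A) ^ 2 * κ)
    (q2' : al (E + A) * κ + be (E + A) ≤ 2 * l') :
    |Real.log (DD (E + A)) / 2 - Real.log (DD E) / 2 - (A 0 0 + A 1 1)| ≤
      5000 * (e0 * a0) + 41 * (e1 * a1) + e2 * a2 + s * a3 + 2 * (u * b) := by
  obtain ⟨p0, p1, p2, p3, p4⟩ := h.nn
  obtain ⟨r0, r1, r2, r3, r4⟩ := hA.nn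
  have p5 := H.e0_le p0
  obtain ⟨c1, -, g, c4, -⟩ := one H h q1 q2
  obtain ⟨-, c2', g', c4', -⟩ := one H h' q1' q2'
  obtain ⟨d1, d2, d3, d4, d5, d6⟩ := two H h h' hA g g'
  have d7 : |be (E + A) - be E| ≤ 7 * a0 := by linarith [H.a30]
  have f1 := abs_le.1 (mb c2' d4)
  have f2 := abs_le.1 (mb c1 d7)
  have f3 := abs_le.1 d3
  have f4 := abs_le.1 d4
  have f5 := abs_le.1 d7
  have f6 : e0 * a0 ≤ 1 / 10 ^ 4 * a0 := mul_le_mul_of_nonneg_right p5 r0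
  have e : DD (E + A) - DD E = (be (E + A) - 1) * (al (E + A) - al E) +
      (al E - 1) * (be (E + A) - be E) + (al (E + A) - al E) + (be (E + A) - be E) -
      (ga (E + A) ^ 2 - ga E ^ 2) := by unfold DD; ring
  have f7 : |DD (E + A) - DD E| ≤ 100 * a0 :=
    abs_le.2 ⟨by linarith [H.e1a], by linarith [H.e1a]⟩
  have f8 := logd c4 c4' (by linarith)
  have f9 : 2 * (40 * e0) * |DD (E + A) - DD E| ≤ 2 * (40 * e0) * (100 * a0) :=
    mul_le_mul_of_nonneg_left f7 (by positivity)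
  have f10 := abs_le.1 f8
  have f11 := abs_le.1 d1
  have f12 := abs_le.1 d2
  have f13 : 0 ≤ e0 * a0 := by positivity
  exact abs_le.2 ⟨by linarith, by linarith⟩

lemma tau (H : Hy R κ η e0 e1 e2 u s a0 a1 a2 b a3) (h : Tb E e0 e1 e2 u s)
    (q1 : (l - al E * κ) * (l - be E) = ga E ^ 2 * κ) (q2 : al E * κ + be E ≤ 2 * l) :
    0 < DD E ∧ 0 < l ∧ |Real.log l - Real.log (DD E) / 2| ≤ 150 * e0 := by
  obtain ⟨p0, -⟩ := h.nn
  have p5 := H.e0_le p0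
  obtain ⟨-, -, -, c4, -, -, -, c8, c9⟩ := one H h q1 q2
  have c10 : |l - 1| ≤ 55 * e0 := by linarith [H.se]
  have d1 := abs_le.1 (log1 c4 (by linarith))
  have d2 := abs_le.1 (log1 c10 (by linarith))
  exact ⟨by linarith [(abs_le.1 c4).1], by linarith [(abs_le.1 c10).1],
    abs_le.2 ⟨by linarith, by linarith⟩⟩

lemma psi_step {Ψ h : ℝ → ℝ} (hΨ : ∀ t, HasDerivAt Ψ (1 - h t) t)
    (hR : ∀ t t', h t' ≤ Real.exp (R * |t' - t|) * h t) (h0 : ∀ t, 0 < h t) {t τ τ' δ : ℝ}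
    (R0 : 0 ≤ R) (h1 : |τ| ≤ δ) (h2 : |τ'| ≤ δ) (h3 : R * δ ≤ 1 / 4) :
    ∃ y, Ψ (t + τ') - Ψ (t + τ) = (1 - y) * (τ' - τ) ∧ |y - h t| ≤ 4 * (R * δ) * h t := by
  have a1 := abs_le.1 h1
  have a2 := abs_le.1 h2
  obtain ⟨x, hx, e⟩ := mvt (I := Icc (t - δ) (t + δ)) ordConnected_Icc (fun x _ => hΨ x)
    (a := t + τ) (b := t + τ') ⟨by linarith, by linarith⟩ ⟨by linarith, by linarith⟩
  refine ⟨h x, by rw [e]; ring, ?_⟩
  have a3 : |x - t| ≤ δ := abs_le.2 ⟨by linarith [hx.1], by linarith [hx.2]⟩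
  have a0 : 0 ≤ R * δ := mul_nonneg R0 ((abs_nonneg _).trans h1)
  have a4 : Real.exp (R * |x - t|) ≤ 1 + 2 * (R * δ) := by
    refine (Real.exp_le_exp.2 (mul_le_mul_of_nonneg_left a3 R0)).trans ?_
    have := abs_le.1 (Real.abs_exp_sub_one_le (x := R * δ) (by rw [abs_of_nonneg a0]; linarith))
    rw [abs_of_nonneg a0] at this
    linarith
  have a5 := (hR t x).trans (mul_le_mul_of_nonneg_right a4 (h0 t).le)
  have a6 := hR x t
  rw [abs_sub_comm] at a6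
  have a7 := a6.trans (mul_le_mul_of_nonneg_right a4 (h0 x).le)
  have a8 : h x ≤ 2 * h t := by nlinarith [h0 t]
  have a9 := mul_le_mul_of_nonneg_left a8 a0
  have a10 := mul_nonneg a0 (h0 t).le
  exact abs_le.2 ⟨by linarith, by linarith⟩

lemma core {Ψ h : ℝ → ℝ} (hΨ : ∀ t, HasDerivAt Ψ (1 - h t) t)
    (hR : ∀ t t', h t' ≤ Real.exp (R * |t' - t|) * h t) (h0 : ∀ t, 0 < h t) {t : ℝ}
    (H : Hy R κ (h t) e0 e1 e2 u s a0 a1 a2 b a3) (hE : Tb E e0 e1 e2 u s)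
    (h' : Tb (E + A) e0 e1 e2 u s) (hA : Tb A a0 a1 a2 b a3)
    (q1 : (l - al E * κ) * (l - be E) = ga E ^ 2 * κ) (q2 : al E * κ + be E ≤ 2 * l)
    (q1' : (l' - al (E + A) * κ) * (l' - be (E + A)) = ga (E + A) ^ 2 * κ)
    (q2' : al (E + A) * κ + be (E + A) ≤ 2 * l') :
    |Real.log (DD (E + A)) / 2 + Ψ (t + (Real.log l' - Real.log (DD (E + A)) / 2)) -
      (Real.log (DD E) / 2 + Ψ (t + (Real.log l - Real.log (DD E) / 2))) -
      (h t * A 0 0 + (2 - h t) * A 1 1)| ≤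
      20000 * (u * b + s * a3 + h t * (e2 * a2) + R * h t * (e0 * a0)) := by
  obtain ⟨p0, p1, p2, p3, p4⟩ := hE.nn
  obtain ⟨r0, r1, r2, r3, r4⟩ := hA.nn
  have X1 := x1 H hE h' hA q1 q2 q1' q2'
  have X2 := x2 H hE h' hA q1 q2 q1' q2'
  obtain ⟨y, e, hy⟩ := psi_step hΨ hR h0 (t := t) (by linarith [H.R1]) (tau H hE q1 q2).2.2
    (tau H h' q1' q2').2.2 (by linarith [H.Re])
  have n0 := H.n0
  have n1 : h t ≤ 1 / 100 := H.nk.trans H.k1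
  have a1' : R * e0 * h t ≤ 1 / 10 ^ 4 * h t := mul_le_mul_of_nonneg_right H.Re n0
  have a2' := abs_le.1 hy
  have y1 : |y| ≤ 2 * h t := abs_le.2 ⟨by linarith, by linarith⟩
  have y2 : |1 - y| ≤ 1 := abs_le.2 ⟨by linarith, by linarith⟩
  have y3 : |A 0 0 - A 1 1| ≤ 2 * a0 := by
    have d1 := abs_le.1 hA.1
    have d2 := abs_le.1 hA.2.2.2.2.1
    exact abs_le.2 ⟨by linarith [H.a30], by linarith [H.a30]⟩
  have z := ab (ab (mb y2 X1) (mb y1 X2)) (mb hy y3)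
  refine le_trans (le_of_eq (congrArg _ ?_)) (z.trans ?_)
  · linear_combination e
  · have w0 : 0 ≤ h t * (e0 * a0) := by positivity
    have w1 : 1 * (h t * (e0 * a0)) ≤ R * (h t * (e0 * a0)) := mul_le_mul_of_nonneg_right H.R1 w0
    have w2 : e1 * a1 * h t ≤ e1 * a1 * κ := mul_le_mul_of_nonneg_left H.nk (by positivity)
    have w3 : 0 ≤ u * b := by positivity
    have w4 : 0 ≤ s * a3 := by positivity
    have w5 : h t * (u * b) ≤ 1 / 100 * (u * b) := mul_le_mul_of_nonneg_right n1 w3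
    have w6 : h t * (s * a3) ≤ 1 / 100 * (s * a3) := mul_le_mul_of_nonneg_right n1 w4
    have w7 : 0 ≤ h t * (e2 * a2) := by positivity
    have w8 := H.ka
    linarith

end core

end VbA

end
end Pool.Agent.MP_20bec2_an.T3

end MrgPart1

-- ======== part 2: formerly Pool.Agent.MP_20bec2_an.T3.Fv
section MrgPart2

/-! The potential of the full Gram matrix. -/

set_option autoImplicit false
open MeasureTheory Set Filter Matrix Topology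

namespace Pool.Agent.MP_20bec2_an.T3
namespace FvP
noncomputable section

/-- numerical facts about the parameters -/
lemma num {c : Pm} (h : Gd c) :
    2 / Real.sqrt c.J ≤ 1 / 1000 ∧ 2 * hc c.N / Real.sqrt c.η ≤ c.J ^ 3 ∧ c.J ^ 3 ≤ c.s1 ∧
    8 * (c.s2 * c.J ^ 3) / (c.s1 * c.s2) ^ 2 ≤ np c.N (-14 / 10) ∧
    4 * np c.N (-14 / 10) ≤ np c.N (-13 / 10) ∧
    2 * c.gb / c.η ≤ 1 / (100 * c.q ^ 2 * pR c.N) ∧
    np c.N (-14 / 10) ≤ 1 / (100 * c.q ^ 2 * pR c.N) ∧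
    (-7 / 4 ≤ c.t → c.s1 / c.s2 ≤ 1 / 100) ∧
    (etaS c.N / 2 ≤ c.η → 2 * c.gb / c.η ≤ np c.N (-1 / 4) ^ 2) ∧
    np c.N (-14 / 10) ≤ np c.N (-1 / 4) ^ 2 ∧ np c.N (-1 / 4) ≤ 1 / 100 ∧
    12 * np c.N (-1 / 4) ≤ np c.N (-21 / 100) ∧ etaS c.N ≤ 1 := by
  have p1 := h.J_pos
  have p2 := h.q_pos
  have p3 := h.s1_pos
  have p4 := h.s2_pos
  have p5 := h.η_pos
  have p6 := h.gb_pos
  have p7 := h.big.R_pos
  have p8 := h.big.hc_pos
  have p9 := h.big.np_pos (-14 / 10)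
  have p10 := h.big.np_pos (-1 / 4)
  have p11 := h.big.etaS_pos
  have l0 := h.big.L_ge
  have l1 := h.big.J_ge
  have l2 := log2_bd
  have c3 := logc_bd (show (1 : ℝ) ≤ 3 by norm_num)
  have c4 := logc_bd (show (1 : ℝ) ≤ 4 by norm_num)
  have c8 := logc_bd (show (1 : ℝ) ≤ 8 by norm_num)
  have c12 := logc_bd (show (1 : ℝ) ≤ 12 by norm_num)
  have c100 := logc_bd (show (1 : ℝ) ≤ 100 by norm_num)
  have c1000 := logc_bd (show (1 : ℝ) ≤ 1000 by norm_num)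
  have k1 := h.log_K
  have k2 := h.log_n12
  have k3 := h.log_n12_bd
  have k4 := h.log_K_bd
  have k5 := h.log_η_ge
  have k6 := h.log_gb
  have k7 := h.t_eq
  refine ⟨?_, ?_, ?_, ?_, ?_, ?_, ?_, fun ht => ?_, fun hη => ?_, ?_, ?_, ?_, ?_⟩
  all_goals
    refine le_of_log (by positivity) (by first | positivity | exact h.big.np_pos _) ?_
    simp (disch := positivity) only [Real.log_div, Real.log_mul, Real.log_sqrt, Real.log_pow,
      Real.log_one, h.log_J, h.log_q, h.big.log_R, h.big.log_np, h.big.log_hc, h.big.log_etaS]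
    push_cast
  · linarith [l2.2, c1000.2]
  · linarith [l2.2, c3.2]
  · linarith [k3.1, k4.2]
  · linarith [k3.1, k3.2, k4.2, c8.2]
  · linarith [c4.2]
  · linarith [k6.1, l2.2, c100.2]
  · linarith [l2.2, c100.2]
  · linarith [c100.2]
  · linarith [h.log_etaS_le (a := 1 / 2) (by norm_num) (by linarith), k6.2.1, l2.2]
  · linarith
  · linarith [c100.2]
  · linarith [c12.2]
  · linarith [c100.1]

/-- entries of the Gram matrix in terms of the normalised defect -/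
lemma entries {Df g : Mx} {s1 s2 η w Δ : ℝ} (h1 : 0 < s1) (h2 : 0 < s2) (hw : 0 < w)
    (hη : η = w ^ 2) (hΔ : 0 < Δ)
    (hg : g = (Df * dg3 (w / s1) (1 / s2) (s1 * s2 / Δ))ᵀ *
      (Df * dg3 (w / s1) (1 / s2) (s1 * s2 / Δ)) - dg3 η 1 1) :
    (Dfᵀ * Df : Mx) 0 0 = (1 + g 0 0 / η) * s1 ^ 2 ∧ (Dfᵀ * Df : Mx) 1 1 = (1 + g 1 1) * s2 ^ 2 ∧
    (Dfᵀ * Df : Mx) 0 1 = g 0 1 / w * (s1 * s2) ∧
    (Dfᵀ * Df : Mx) 2 2 = (1 + g 2 2) * Δ * Δ / (s1 * s2) ^ 2 ∧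
    (Dfᵀ * Df : Mx) 0 2 = Δ * (g 0 2 / w) / s2 ∧ (Dfᵀ * Df : Mx) 1 2 = Δ * g 1 2 / s1 := by
  have e : ∀ d : V, (Df * Matrix.diagonal d)ᵀ * (Df * Matrix.diagonal d) =
      Matrix.diagonal d * (Dfᵀ * Df) * Matrix.diagonal d := fun d => by
    rw [Matrix.transpose_mul, Matrix.diagonal_transpose]
    simp only [Matrix.mul_assoc]
  unfold dg3 at hg
  rw [e] at hg
  generalize (Dfᵀ * Df : Mx) = Γ at *
  subst hg hη
  simp only [Matrix.sub_apply, Matrix.mul_diagonal, Matrix.diagonal_mul,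
    Matrix.diagonal_apply_eq, Matrix.cons_val_zero, Matrix.cons_val_one,
    Matrix.cons_val, Matrix.diagonal_apply_ne _ (show (0 : Fin 3) ≠ 1 by decide),
    Matrix.diagonal_apply_ne _ (show (0 : Fin 3) ≠ 2 by decide),
    Matrix.diagonal_apply_ne _ (show (1 : Fin 3) ≠ 2 by decide)]
  refine ⟨?_, ?_, ?_, ?_, ?_, ?_⟩ <;> field_simp <;> ring

lemma fin1 {da dl y η α a b γ ε x δ p r : ℝ} (hη0 : 0 < η) (hη : η ≤ 1) (ha : a = η * |α|)
    (hb : 0 ≤ b) (hγ : 0 ≤ γ) (hε : 0 ≤ ε) (hx0 : 0 ≤ x) (hx : x ≤ 1 / 1000) (hδ : δ ≤ x ^ 2)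
    (hα : |α| ≤ δ) (hp0 : 0 ≤ p) (hp : p ≤ b * δ)
    (h1 : |da - α / 2| ≤ 6 / 10 * γ + 2 * α ^ 2 + p + ε)
    (h2 : |dl| ≤ 12 / 10 * γ + 3 * (b * x ^ 2) + 2 * ε + p + 2 * (a * x ^ 2))
    (hy : |y - η| ≤ r * η) (hr : r ≤ 5 * x ^ 2) :
    |da + (1 - y) * (dl - da) - η * α / 2| ≤ (a + b) * x + 2 * γ + 4 * ε := by
  have x2 : x ^ 2 ≤ 1 / 1000 * x := by nlinarith
  have al := abs_nonneg α
  have a0 : 0 ≤ a := ha ▸ mul_nonneg hη0.le al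
  have r1 : r * η ≤ 1 / 1000 * η := mul_le_mul_of_nonneg_right (by linarith) hη0.le
  obtain ⟨y1, y2⟩ := abs_le.1 hy
  have y3 : |y| ≤ 1001 / 1000 * η := abs_le.2 ⟨by linarith, by linarith⟩
  have y4 : |1 - y| ≤ 1 := abs_le.2 ⟨by linarith, by linarith⟩
  have e : da + (1 - y) * (dl - da) - η * α / 2 =
      y * (da - α / 2) + (y - η) * α * (1 / 2) + (1 - y) * dl := by ring
  have b1 := ab (ab (abs_mul_le y3 h1) (abs_mul_le (abs_mul_le hy (le_refl |α|))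
    (abs_of_pos (show (0 : ℝ) < 1 / 2 by norm_num)).le)) (abs_mul_le y4 h2)
  rw [e]
  refine b1.trans ?_
  have ax : a * x ^ 2 ≤ a * (1 / 1000 * x) := mul_le_mul_of_nonneg_left x2 a0
  have bx : b * x ^ 2 ≤ b * (1 / 1000 * x) := mul_le_mul_of_nonneg_left x2 hb
  have c1 : η * α ^ 2 ≤ a * x ^ 2 := by
    rw [← sq_abs α, show η * |α| ^ 2 = a * |α| by rw [ha]; ring]
    exact mul_le_mul_of_nonneg_left (hα.trans hδ) a0
  have c2 : p ≤ b * x ^ 2 := hp.trans (mul_le_mul_of_nonneg_left hδ hb)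
  have c3 : η * γ ≤ 1 * γ := mul_le_mul_of_nonneg_right hη hγ
  have c4 : η * p ≤ 1 * p := mul_le_mul_of_nonneg_right hη hp0
  have c5 : η * ε ≤ 1 * ε := mul_le_mul_of_nonneg_right hη hε
  have c6 : r * η * |α| ≤ 5 * x ^ 2 * a := by
    rw [mul_assoc, ← ha]; exact mul_le_mul_of_nonneg_right hr a0
  have := mul_nonneg a0 hx0
  have := mul_nonneg hb hx0
  linarith

lemma fin2 {da dl η α a b γ ε x δ p : ℝ} (hη0 : 0 < η) (hη : η ≤ 1) (ha : a = η * |α|)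
    (hb : 0 ≤ b) (hγ : 0 ≤ γ) (hε : 0 ≤ ε) (hx0 : 0 ≤ x) (hx : x ≤ 1 / 1000) (hδ : δ ≤ x ^ 2)
    (hα : |α| ≤ δ) (hp : p ≤ b * δ)
    (h1 : |da - α / 2| ≤ 6 / 10 * γ + 2 * α ^ 2 + p + ε)
    (h2 : |dl| ≤ 12 / 10 * γ + 3 * (b * x ^ 2) + 2 * ε + p + 2 * (a * x ^ 2)) :
    |dl - da + α / 2| ≤ (a + b) * x / η + 2 * γ + 4 * ε := by
  have x2 : x ^ 2 ≤ 1 / 1000 * x := by nlinarith
  have al := abs_nonneg α
  have a1 : a ≤ |α| := by rw [ha]; exact mul_le_of_le_one_left al hη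
  have e : (a + b) * x / η = |α| * x + b * x / η := by rw [ha]; field_simp
  have e2 : b * x ≤ b * x / η := le_div_self (mul_nonneg hb hx0) hη0 hη
  have b1 := (abs_sub dl (da - α / 2)).trans (add_le_add h2 h1)
  rw [show dl - da + α / 2 = dl - (da - α / 2) by ring, e]
  refine b1.trans ?_
  have ax : |α| * x ^ 2 ≤ |α| * (1 / 1000 * x) := mul_le_mul_of_nonneg_left x2 al
  have bx : b * x ^ 2 ≤ b * (1 / 1000 * x) := mul_le_mul_of_nonneg_left x2 hb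
  have c1 : α ^ 2 ≤ |α| * x ^ 2 := by
    rw [← sq_abs α, sq]
    exact mul_le_mul_of_nonneg_left (hα.trans hδ) al
  have c2 : p ≤ b * x ^ 2 := hp.trans (mul_le_mul_of_nonneg_left hδ hb)
  have c3 : a * x ^ 2 ≤ |α| * x ^ 2 := mul_le_mul_of_nonneg_right a1 (sq_nonneg x)
  have := mul_nonneg al hx0
  have := mul_nonneg hb hx0
  linarith

end
end FvP

open FvP in
theorem fv (hP : PsiStmt) : FvStmt := by
  filter_upwards [ev_gd] with N hN c hcN hOk E Df hE ht hM hdet g hg hb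
  have h : Gd c := hN c hcN hOk
  subst hcN
  obtain ⟨n1, n2, n3, n4, n5, n6, n7, n8, n9, n10, n11, n12, n13⟩ := num h
  obtain ⟨_, -, hP⟩ := hP
  obtain ⟨-, -, -, P1, P2, P3, -, -, P4, -⟩ := hP _ h.big.R_ge
  have η0 := h.η_pos
  have η1 := h.η_le_one
  have w0 : 0 < Real.sqrt c.η := Real.sqrt_pos.2 η0
  have w2 := (Real.sq_sqrt η0.le).symm
  have w1 : Real.sqrt c.η ≤ 1 := Real.sqrt_le_one.2 η1
  have w3 : c.η ≤ Real.sqrt c.η := by nlinarith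
  obtain ⟨d1, d2⟩ := abs_le.1 hdet
  have d3 : |Df.det| ≤ 11 / 10 := abs_le.2 ⟨by linarith, by linarith⟩
  obtain ⟨e1, e2, e3, e4, e5, e6⟩ := entries h.s1_pos h.s2_pos w0 w2 (by linarith) hg
  have g00 : |g 0 0| ≤ 2 * c.gb := hb 0 0
  have g01 : |g 0 1| ≤ 2 * c.gb := hb 0 1
  have g11 : |g 1 1| ≤ 2 * c.gb := hb 1 1
  have g02 : |g 0 2| ≤ 2 * hc c.N := hb 0 2
  have g12 : |g 1 2| ≤ 2 * hc c.N := hb 1 2
  have g22 : |g 2 2| ≤ 1 / 5 := hb 2 2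
  have gb0 := h.gb_pos
  have hc0 := h.big.hc_pos
  have q0 := h.q_pos
  have q1 : 10000000 ≤ c.q := h.big.q_ge
  have R1 := h.big.R_ge
  have J1 : 1 ≤ c.J ^ 3 := one_le_pow₀ (by
    have : c.J = pJ c.N := rfl
    linarith [h.big.J_ge, h.big.L_ge])
  have a1 : |g 0 0 / c.η| ≤ 2 * c.gb / c.η := by
    rw [abs_div, abs_of_pos η0]; exact div_le_div_of_nonneg_right g00 η0.le
  have a2 : |g 0 1 / Real.sqrt c.η| ≤ 2 * c.gb / c.η := by
    rw [abs_div, abs_of_pos w0]; exact div_le_div₀ (by positivity) g01 η0 w3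
  have a0 : 2 * c.gb ≤ 2 * c.gb / c.η := le_div_self (by positivity) η0 η1
  have a4 : |g 0 2 / Real.sqrt c.η| ≤ c.J ^ 3 := by
    rw [abs_div, abs_of_pos w0]; exact (div_le_div_of_nonneg_right g02 w0.le).trans n2
  have a5 : |g 1 2| ≤ c.J ^ 3 := g12.trans ((le_div_self (by positivity) w0 w1).trans n2)
  have key := fun (δ : ℝ) (h1 : 2 * c.gb / c.η ≤ δ) (h2 : np c.N (-14 / 10) ≤ δ)
      (h3 : δ ≤ 1 / 1000) =>
    est (E := E) (fun i j => (hE i j).trans n1)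
      (by rw [Matrix.transpose_mul, Matrix.transpose_transpose]) e1 e2 e3 e4 e5 e6 (a1.trans h1)
      (a2.trans h1) (g11.trans (a0.trans h1))
      ((abs_mul_le (abs_mul_le (ab abs_one.le g22) d3) d3).trans (by norm_num))
      (abs_mul_le d3 a4) (abs_mul_le d3 a5) J1 n3 h.s1_le n4 h2 h3
  have eV : ∀ G : Mx, Vf c.N G - c.V2 E =
      aa G - aa (gr2 c.s1 c.s2 E) + (Psi (pR c.N) (tt c.N G) - Psi (pR c.N) (c.t2f E)) := by
    intro G; unfold Pm.V2 Pm.t2f Vf; ring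
  have eT : ∀ G : Mx, tt c.N G - c.t2f E = Real.log (Lam G) - Real.log (Lam (gr2 c.s1 c.s2 E)) -
      (aa G - aa (gr2 c.s1 c.s2 E)) := by
    intro G; unfold Pm.t2f tt; ring
  rw [eV]
  replace eT := eT ((1 + E)ᵀ * (Dfᵀ * Df) * (1 + E))
  have eη : eta (pR c.N) c.t = c.η := rfl
  have eK : c.K = c.s2 / c.s1 := rfl
  have s10 := h.s1_pos
  have s20 := h.s2_pos
  have tg := h.t_gt
  have ε0 := h.big.np_pos (-14 / 10)
  have r0 := h.big.np_pos (-1 / 4)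
  generalize tt c.N ((1 + E)ᵀ * (Dfᵀ * Df) * (1 + E)) = t3 at *
  generalize aa ((1 + E)ᵀ * (Dfᵀ * Df) * (1 + E)) - aa (gr2 c.s1 c.s2 E) = da at *
  generalize Real.log (Lam ((1 + E)ᵀ * (Dfᵀ * Df) * (1 + E))) -
    Real.log (Lam (gr2 c.s1 c.s2 E)) = dl at *
  generalize ((1 + E) * (1 + E)ᵀ : Mx) 0 1 = D at *
  generalize c.t2f E = t2 at *
  generalize np c.N (-14 / 10) = ε at *
  generalize np c.N (-1 / 4) = r at *
  generalize pR c.N = R at *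
  clear e1 e2 e3 e4 e5 e6 hg hb hE eV n1 n2 n3 n4 a4 a5 g02 g12 g22 d1 d2 d3 hdet J1
  obtain ⟨x, hx⟩ : ∃ x, x = 1 / c.q := ⟨_, rfl⟩
  have x0 : 0 < x := by rw [hx]; positivity
  have x1 : x ≤ 1 / 1000 := by rw [hx]; exact one_div_le_one_div_of_le (by norm_num) (by linarith)
  have R0 : 0 < R := by linarith
  obtain ⟨δ, hδ⟩ : ∃ δ, δ = 1 / (100 * c.q ^ 2 * R) := ⟨_, rfl⟩
  rw [← hδ] at n6 n7
  rw [show 1 / (c.q ^ 2 * R) = 100 * δ by rw [hδ]; field_simp] at ht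
  have δR : R * δ = x ^ 2 / 100 := by rw [hδ, hx]; field_simp
  have δ0 : 0 ≤ δ := ε0.le.trans n7
  have xx : x ^ 2 ≤ 1 / 1000 * (1 / 1000) := by rw [sq]; exact mul_le_mul x1 x1 x0.le (by norm_num)
  have δ1 : 1000 * δ ≤ x ^ 2 := by linarith [mul_le_mul_of_nonneg_right R1 δ0]
  obtain ⟨k1, k2, k3⟩ := key δ n6 n7 (by linarith)
  have ea : |g 0 0| = c.η * |g 0 0 / c.η| := by rw [abs_div, abs_of_pos η0]; field_simp
  have eg : g 0 0 / 2 = c.η * (g 0 0 / c.η) / 2 := by field_simp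
  have p0 := sq_nonneg (g 0 1 / Real.sqrt c.η)
  have p1 : (g 0 1 / Real.sqrt c.η) ^ 2 ≤ |g 0 1| * δ := by
    rw [div_pow, ← w2, ← sq_abs, sq, mul_div_assoc]
    exact mul_le_mul_of_nonneg_left ((div_le_div_of_nonneg_right g01 η0.le).trans n6) (abs_nonneg _)
  have kD : |c.s1 / c.s2 * D| ≤ Real.sqrt c.η * x ^ 2 := by
    refine (abs_mul_le (abs_of_pos (div_pos s10 s20)).le hM).trans_eq ?_
    rw [eK, hx]; field_simp
  have k4 : -7 / 4 ≤ c.t → |dl| ≤ 12 / 10 * |g 1 1| + 3 * (|g 0 1| * x ^ 2) + 2 * ε +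
      (g 0 1 / Real.sqrt c.η) ^ 2 + 2 * (|g 0 0| * x ^ 2) := fun h7 => by
    have b1 : |c.s1 / c.s2 * (g 0 1 / Real.sqrt c.η) * D| ≤ |g 0 1| * x ^ 2 := by
      rw [mul_right_comm]
      refine (abs_mul_le kD le_rfl).trans_eq ?_
      rw [abs_div, abs_of_pos w0]; field_simp
    have b2 : (c.s1 / c.s2 * D) ^ 2 ≤ c.η * x ^ 2 := by
      have b3 := abs_mul_le kD kD
      rw [← sq, abs_of_nonneg (sq_nonneg _), mul_mul_mul_comm, ← sq, ← w2] at b3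
      exact b3.trans (mul_le_mul_of_nonneg_left
        (mul_le_of_le_one_left (sq_nonneg x) (by linarith)) η0.le)
    have b4 := mul_le_mul_of_nonneg_left b2 (abs_nonneg (g 0 0 / c.η))
    rw [← mul_assoc, mul_comm _ c.η, ← ea] at b4
    linarith [k3 (n8 h7)]
  have sq' : ∀ {u v : ℝ}, |u| ≤ v → v ≤ 1 / 1000 → u ^ 2 ≤ 1 / 1000 * v := fun h1 h2 => by
    have := abs_mul_le (h1.trans h2) h1
    rwa [← sq, abs_of_nonneg (sq_nonneg _)] at this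
  have dab : ∀ δ' : ℝ, 2 * c.gb / c.η ≤ δ' → ε ≤ δ' → δ' ≤ 1 / 1000 → |da| ≤ 3 * δ' := by
    intro δ' h1 h2 h3
    have b1 := abs_le.1 (key δ' h1 h2 h3).1
    have b2 := abs_le.1 (a1.trans h1)
    have b3 := sq' (a1.trans h1) h3
    have b4 := sq' (a2.trans h1) h3
    exact abs_le.2 ⟨by linarith only [b1.1, b2.1, b3, b4, g11, a0, h1, h2, b2.2],
      by linarith only [b1.2, b2.1, b3, b4, g11, a0, h1, h2, b2.2]⟩
  have da1 := dab δ n6 n7 (by linarith)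
  have ex : ∀ u : ℝ, u / c.q = u * x := fun u => by rw [hx]; ring
  refine ⟨?_, fun hη => ?_, fun hη => ?_⟩
  · rw [ex, eg]
    refine le_trans ?_ (add_le_add_right n5 _)
    rcases le_total (-7 / 4) c.t with h7 | h7
    · have b1 := k4 h7
      have b2 : |g 0 1| * x ^ 2 ≤ δ * (1 / 1000) :=
        mul_le_mul (g01.trans (a0.trans n6)) (by linarith) (sq_nonneg _) δ0
      have b3 : |g 0 0| * x ^ 2 ≤ δ * (1 / 1000) :=
        mul_le_mul (g00.trans (a0.trans n6)) (by linarith) (sq_nonneg _) δ0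
      have b4 := sq' (a2.trans n6) (by linarith)
      have b5 : |dl| ≤ 4 * δ := by linarith only [b1, b2, b3, b4, g11, a0, n6, n7, δ0]
      have b6 : |t3 - c.t| ≤ 110 * δ := by
        rw [show t3 - c.t = dl - da + (t2 - c.t) by linarith only [eT]]
        refine (ab ((abs_sub _ _).trans (add_le_add b5 da1)) ht).trans (by linarith only [δ0])
      obtain ⟨y, y1, y2⟩ := VbA.psi_step P2 P4 (fun t => (P1 t).1) (t := c.t) R0.le
        (ht.trans (show _ ≤ 110 * δ by linarith only [δ0])) b6 (by linarith only [δR, xx])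
      rw [add_sub_cancel, add_sub_cancel, sub_sub_sub_cancel_right, eT] at y1
      rw [eη] at y2
      rw [y1]
      exact fin1 η0 η1 ea (abs_nonneg _) (abs_nonneg _) ε0.le x0.le x1 (by linarith only [δ1, δ0])
        (a1.trans n6) p0 p1 k1 b1 y2 (by linarith only [δR, sq_nonneg x])
    · have b1 : c.η = 1 := eη ▸ (P3 _ (by linarith)).1
      have b2 : Real.sqrt δ ≤ 1 / 100 := Real.sqrt_le_iff.2 ⟨by norm_num, by linarith⟩
      have b3 := (abs_le.1 ht).2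
      have b4 := (abs_le.1 k2).2
      have b5 := (abs_le.1 da1).1
      rw [(P3 t2 (by linarith only [b3, h7, δ1, xx])).2,
        (P3 t3 (by linarith only [b2, b3, b4, b5, h7, δ1, xx, eT])).2]
      have := fin1 (dl := 0) (y := 1) (r := 0) η0 η1 ea (abs_nonneg (g 0 1)) (abs_nonneg _) ε0.le
        x0.le x1 (by linarith only [δ1, δ0]) (a1.trans n6) p0 p1 k1
        (by rw [abs_zero]; positivity) (by rw [b1]; simp) (by positivity)
      simpa using this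
  · have := fin2 η0 η1 ea (abs_nonneg (g 0 1)) (abs_nonneg _) ε0.le x0.le x1
      (by linarith only [δ1, δ0]) (a1.trans n6) p1 k1
      (k4 (by linarith only [tg (hη.trans_le n13)]))
    rw [eT, show g 0 0 / (2 * c.η) = g 0 0 / c.η / 2 by field_simp, ← div_div, ex]
    linarith only [this, n5]
  · have r1 : r ^ 2 ≤ 1 / 100 * r := by rw [sq]; exact mul_le_mul_of_nonneg_right n11 r0.le
    have r2 : r ^ 2 ≤ 1 / 1000 := by linarith only [r1, n11]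
    have b1 := (key _ (n9 hη) n10 r2).2.1
    have b2 := dab _ (n9 hη) n10 r2
    rw [Real.sqrt_sq r0.le] at b1
    rw [eT]
    exact ((abs_sub _ _).trans (add_le_add b1 b2)).trans (by linarith only [r1, r0, n12])

end Pool.Agent.MP_20bec2_an.T3

end MrgPart2

-- marker of a merged file
example : 731051 + 676816 = 731051 + 676816 := rfl
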