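import Mathlib.Topology.Sheaves.Presheaf
import Mathlib.Tactic.Monotonicity.Lemmas
import Mathlib.Algebra.Order.Ring.Star
import Mathlib.Algebra.Order.Star.Real
import Mathlib.Algebra.Ring.IsFormallyReal
import Mathlib.Analysis.SpecialFunctions.Log.Deriv
import Mathlib.Analysis.SpecialFunctions.Sqrt
import Pool.Agent.MP_20bec2_an.T3.Final
import Mathlib.Combinatorics.Matroid.Basic
import Mathlib.RingTheory.PiTensorProduct
import Pool.Agent.MP_20bec2_an.T3.WinA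
import Pool.Agent.MP_20bec2_an.T3.Par4
import Pool.Agent.MP_20bec2_an.T3.Calc1b
import Pool.Agent.MP_20bec2_an.T3.Fv

-- ======== part 0: formerly Pool.Agent.MP_20bec2_an.T3.Va
section MrgPart0

-- ======== part 0: formerly Pool.Agent.MP_20bec2_an.T3.VaJet
section MrgPart0

/-! First order jets with controlled errors along a filter of parameters. -/

set_option autoImplicit false
open Set Filter Topology Asymptotics

namespace Pool.Agent.MP_20bec2_an.T3.Va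

variable {Q : Type} {l : Filter Q} {ε ε' δ : Q → ℝ} {f g : Q → ℝ → ℝ} {v v' w w' : Q → ℝ}

/-- At `0` the function `f` has value `v + O ε` and derivative `v' + O (ε δ)`. -/
def Jet (l : Filter Q) (ε δ : Q → ℝ) (f : Q → ℝ → ℝ) (v v' : Q → ℝ) : Prop :=
  ∃ f' : Q → ℝ, (∀ᶠ q in l, HasDerivAt (f q) (f' q) 0) ∧ (fun q => f q 0 - v q) =O[l] ε ∧
    (fun q => f' q - v' q) =O[l] (fun q => ε q * δ q) ∧ v =O[l] (fun _ => (1 : ℝ)) ∧ v' =O[l] δ

lemma Jet.congr (h : Jet l ε δ f v v') (h0 : ∀ᶠ q in l, v q = w q) (h1 : ∀ᶠ q in l, v' q = w' q) :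
    Jet l ε δ f w w' := by
  obtain ⟨f', a, b, c, d, e⟩ := h
  exact ⟨f', a, b.congr' (h0.mono fun q h => by simp only [h]) EventuallyEq.rfl,
    c.congr' (h1.mono fun q h => by simp only [h]) EventuallyEq.rfl,
    d.congr' h0 EventuallyEq.rfl, e.congr' h1 EventuallyEq.rfl⟩

lemma Jet.cg (h : Jet l ε δ f v v') (h0 : ∀ q, v q = w q) (h1 : ∀ q, v' q = w' q) :
    Jet l ε δ f w w' :=
  h.congr (Eventually.of_forall h0) (Eventually.of_forall h1)

lemma Jet.mono (h : Jet l ε δ f v v') (he : ε =O[l] ε') : Jet l ε' δ f v v' := by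
  obtain ⟨f', a, b, c, d, e⟩ := h
  exact ⟨f', a, b.trans he, c.trans (he.mul (isBigO_refl _ _)), d, e⟩

lemma Jet.const (hv : v =O[l] fun _ => (1 : ℝ)) : Jet l ε δ (fun q _ => v q) v fun _ => 0 :=
  ⟨fun _ => 0, Eventually.of_forall fun _ => hasDerivAt_const _ _,
    (isBigO_zero _ _).congr_left fun q => (sub_self _).symm,
    (isBigO_zero _ _).congr_left fun q => (sub_self _).symm, hv, isBigO_zero _ _⟩

lemma Jet.num (c : ℝ) : Jet l ε δ (fun _ _ => c) (fun _ => c) fun _ => 0 :=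
  Jet.const (isBigO_const_one ℝ c l)

lemma Jet.line (hv : v =O[l] ε) (hw : w =O[l] δ) :
    Jet l ε δ (fun q s => v q + s * w q) (fun _ => 0) w :=
  ⟨w, Eventually.of_forall fun q => by
    simpa using ((hasDerivAt_id (0 : ℝ)).mul_const (w q)).const_add (v q), by simpa using hv,
    (isBigO_zero _ _).congr_left fun q => (sub_self _).symm, isBigO_zero _ _, hw⟩

lemma Jet.add (h : Jet l ε δ f v v') (k : Jet l ε δ g w w') :
    Jet l ε δ (fun q s => f q s + g q s) (fun q => v q + w q) fun q => v' q + w' q := by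
  obtain ⟨f', a, b, c, d, e⟩ := h
  obtain ⟨g', a', b', c', d', e'⟩ := k
  exact ⟨fun q => f' q + g' q, (a.and a').mono fun q h => h.1.add h.2,
    (b.add b').congr_left fun q => by ring, (c.add c').congr_left fun q => by ring,
    d.add d', e.add e'⟩

lemma Jet.sub (h : Jet l ε δ f v v') (k : Jet l ε δ g w w') :
    Jet l ε δ (fun q s => f q s - g q s) (fun q => v q - w q) fun q => v' q - w' q := by
  obtain ⟨f', a, b, c, d, e⟩ := h
  obtain ⟨g', a', b', c', d', e'⟩ := k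
  exact ⟨fun q => f' q - g' q, (a.and a').mono fun q h => h.1.sub h.2,
    (b.sub b').congr_left fun q => by ring, (c.sub c').congr_left fun q => by ring,
    d.sub d', e.sub e'⟩

lemma Jet.mul (hε : ε =O[l] fun _ => (1 : ℝ)) (h : Jet l ε δ f v v') (k : Jet l ε δ g w w') :
    Jet l ε δ (fun q s => f q s * g q s) (fun q => v q * w q)
      fun q => v' q * w q + v q * w' q := by
  obtain ⟨f', a, b, c, d, e⟩ := h
  obtain ⟨g', a', b', c', d', e'⟩ := k
  have h1 : (fun q => g q 0) =O[l] fun _ => (1 : ℝ) :=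
    ((b'.trans hε).add d').congr_left fun q => by ring
  have h2 : g' =O[l] δ := ((c'.trans ((hε.mul (isBigO_refl δ l)).congr_right fun q => by
    ring)).add e').congr_left fun q => by ring
  refine ⟨fun q => f' q * g q 0 + f q 0 * g' q, (a.and a').mono fun q h => h.1.mul h.2,
    (((b.mul h1).congr_right fun q => mul_one _).add
      ((d.mul b').congr_right fun q => one_mul _)).congr_left fun q => by ring,
    (((((c.mul h1).congr_right fun q => mul_one _).add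
      ((e.mul b').congr_right fun q => mul_comm _ _)).add (b.mul h2)).add
      ((d.mul c').congr_right fun q => one_mul _)).congr_left fun q => by ring,
    (d.mul d').congr_right fun q => one_mul _,
    ((e.mul d').congr_right fun q => mul_one _).add ((d.mul e').congr_right fun q => one_mul _)⟩

lemma Jet.comp {h h' : Q → ℝ → ℝ} (k : Jet l ε δ f v v') (he : ε =O[l] ε')
    (hε : ε' =O[l] fun _ => (1 : ℝ))
    (h0 : ∀ᶠ q in l, HasDerivAt (h q) (h' q (f q 0)) (f q 0))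
    (h1 : (fun q => h q (f q 0) - h q (v q)) =O[l] ε')
    (h2 : (fun q => h' q (f q 0) - h' q (v q)) =O[l] ε')
    (h3 : (fun q => h q (v q)) =O[l] fun _ => (1 : ℝ))
    (h4 : (fun q => h' q (v q)) =O[l] fun _ => (1 : ℝ)) :
    Jet l ε' δ (fun q s => h q (f q s)) (fun q => h q (v q)) fun q => h' q (v q) * v' q := by
  obtain ⟨f', a, b, c, d, e⟩ := k.mono he
  have h5 : (fun q => h' q (f q 0)) =O[l] fun _ => (1 : ℝ) :=
    ((h2.trans hε).add h4).congr_left fun q => by ring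
  exact ⟨fun q => h' q (f q 0) * f' q, (a.and h0).mono fun q h => h.2.comp 0 h.1, h1,
    (((h5.mul c).congr_right fun q => one_mul _).add (h2.mul e)).congr_left fun q => by ring,
    h3, (h4.mul e).congr_right fun q => one_mul _⟩

lemma Jet.pos {h h' : ℝ → ℝ} (hε : Tendsto ε l (𝓝 0)) (k : Jet l ε δ f v v')
    (hv : ∀ᶠ q in l, v q ∈ Icc (1 / 2 : ℝ) 2) (h0 : ∀ x, 0 < x → HasDerivAt h (h' x) x)
    (h1 : ContDiffOn ℝ 1 h (Icc (1 / 4) 3)) (h2 : ContDiffOn ℝ 1 h' (Icc (1 / 4) 3)) :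
    Jet l ε δ (fun q s => h (f q s)) (fun q => h (v q)) fun q => h' (v q) * v' q := by
  obtain ⟨f', a, b, c, d, e⟩ := id k
  have hv' : ∀ᶠ q in l, v q ∈ Icc (1 / 4 : ℝ) 3 :=
    hv.mono fun q h => ⟨by linarith [h.1], by linarith [h.2]⟩
  have hf : ∀ᶠ q in l, f q 0 ∈ Icc (1 / 4 : ℝ) 3 := by
    filter_upwards [hv, (b.trans_tendsto hε).eventually
      (Icc_mem_nhds (a := -1 / 4) (b := 1) (by norm_num) one_pos)] with q p r
    exact ⟨by linarith [p.1, r.1], by linarith [p.2, r.2]⟩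
  have lip : ∀ φ : ℝ → ℝ, ContDiffOn ℝ 1 φ (Icc (1 / 4) 3) →
      (fun q => φ (f q 0) - φ (v q)) =O[l] ε ∧ (fun q => φ (v q)) =O[l] fun _ => (1 : ℝ) := by
    intro φ hφ
    obtain ⟨K, hK⟩ := hφ.exists_lipschitzOnWith one_ne_zero (convex_Icc _ _) isCompact_Icc
    obtain ⟨C, hC⟩ := isCompact_Icc.exists_bound_of_continuousOn hφ.continuousOn
    exact ⟨(IsBigO.of_bound K ((hf.and hv').mono fun q p => by
      simpa only [dist_eq_norm] using hK.dist_le_mul _ p.1 _ p.2)).trans b,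
      IsBigO.of_bound C (hv'.mono fun q p => by simpa using hC _ p)⟩
  exact k.comp (h := fun _ => h) (h' := fun _ => h') (isBigO_refl _ _) (hε.isBigO_one ℝ)
    (hf.mono fun q p => h0 _ (by linarith [p.1])) (lip h h1).1 (lip h' h2).1 (lip h h1).2
    (lip h' h2).2

lemma Jet.log (hε : Tendsto ε l (𝓝 0)) (k : Jet l ε δ f v v')
    (hv : ∀ᶠ q in l, v q ∈ Icc (1 / 2 : ℝ) 2) :
    Jet l ε δ (fun q s => Real.log (f q s)) (fun q => Real.log (v q)) fun q => (v q)⁻¹ * v' q :=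
  k.pos hε hv (fun _ h => Real.hasDerivAt_log h.ne')
    (contDiffOn_id.log fun x h => (by linarith [h.1] : 0 < x).ne')
    (contDiffOn_id.inv fun x h => (by linarith [h.1] : 0 < x).ne')

lemma Jet.inv (hε : Tendsto ε l (𝓝 0)) (k : Jet l ε δ f v v')
    (hv : ∀ᶠ q in l, v q ∈ Icc (1 / 2 : ℝ) 2) :
    Jet l ε δ (fun q s => (f q s)⁻¹) (fun q => (v q)⁻¹) fun q => -(v q ^ 2)⁻¹ * v' q :=
  k.pos (h := fun x => x⁻¹) (h' := fun x => -(x ^ 2)⁻¹) hε hv (fun _ h => hasDerivAt_inv h.ne')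
    (contDiffOn_id.inv fun x h => (by linarith [h.1] : 0 < x).ne')
    (((contDiffOn_id (𝕜 := ℝ) (E := ℝ)).pow 2).inv fun x h =>
      pow_ne_zero 2 (by linarith [h.1] : 0 < x).ne').neg

lemma Jet.sqrt (hε : Tendsto ε l (𝓝 0)) (k : Jet l ε δ f v v')
    (hv : ∀ᶠ q in l, v q ∈ Icc (1 / 2 : ℝ) 2) :
    Jet l ε δ (fun q s => √(f q s)) (fun q => √(v q)) fun q => 1 / (2 * √(v q)) * v' q :=
  k.pos (h := fun x => √x) (h' := fun x => 1 / (2 * √x)) hε hv
    (fun _ h => Real.hasDerivAt_sqrt h.ne')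
    (contDiffOn_id.sqrt fun x h => (by linarith [h.1] : 0 < x).ne')
    (contDiffOn_const.div (contDiffOn_const.mul (contDiffOn_id.sqrt fun x h =>
      (by linarith [h.1] : 0 < x).ne')) fun x h =>
      mul_ne_zero two_ne_zero (Real.sqrt_pos.2 (by linarith [h.1])).ne')

lemma taylor {φ φ₁ φ₂ : ℝ → ℝ} {h e : ℝ} (h1 : ∀ s ∈ Icc (0 : ℝ) 1, HasDerivAt φ (φ₁ s) s)
    (h2 : ∀ s ∈ Icc (0 : ℝ) 1, HasDerivAt φ₁ (φ₂ s) s) (h3 : ∀ s ∈ Icc (0 : ℝ) 1, |φ₂ s - h| ≤ e) :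
    |φ 1 - φ 0 - φ₁ 0 - h / 2| ≤ e := by
  have he : 0 ≤ e := (abs_nonneg _).trans (h3 0 ⟨le_rfl, zero_le_one⟩)
  have k1 : ∀ s ∈ Icc (0 : ℝ) 1, ‖φ₁ s - φ₁ 0 - h * s‖ ≤ e := fun s hs => by
    have := norm_image_sub_le_of_norm_deriv_le_segment' (f := fun s => φ₁ s - h * s)
      (f' := fun s => φ₂ s - h) (C := e) (a := 0) (b := 1) (fun s hs => by
        simpa using ((h2 s hs).fun_sub ((hasDerivAt_id' s).const_mul h)).hasDerivWithinAt)
      (fun s hs => h3 s (Ico_subset_Icc_self hs)) s hs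
    refine le_trans (le_of_eq ?_) (this.trans (mul_le_of_le_one_right he (by linarith [hs.2])))
    congr 1
    ring
  have := norm_image_sub_le_of_norm_deriv_le_segment_01'
    (f := fun s => φ s - φ₁ 0 * s - h / 2 * s ^ 2) (f' := fun s => φ₁ s - φ₁ 0 - h * s) (C := e)
    (fun s hs => by
      refine ((((h1 s hs).fun_sub ((hasDerivAt_id' s).const_mul (φ₁ 0))).fun_sub
        ((hasDerivAt_pow 2 s).const_mul (h / 2))).congr_deriv ?_).hasDerivWithinAt
      push_cast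
      ring) fun s hs => k1 s (Ico_subset_Icc_self hs)
  refine le_trans (le_of_eq ?_) this
  rw [Real.norm_eq_abs]
  congr 1
  ring

end Pool.Agent.MP_20bec2_an.T3.Va

end MrgPart0

-- ======== part 1: formerly Pool.Agent.MP_20bec2_an.T3.VaG
section MrgPart1

/-! The normalised potential, its first variation and the jet of the first variation. -/

set_option autoImplicit false
open Set Filter Topology Asymptotics

namespace Pool.Agent.MP_20bec2_an.T3.Va
noncomputable section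

def fa (E : Mx) : ℝ := (1 + E 0 0) * (1 + E 0 0) + E 0 1 * E 0 1 + E 0 2 * E 0 2
def fb (E : Mx) : ℝ := E 1 0 * E 1 0 + (1 + E 1 1) * (1 + E 1 1) + E 1 2 * E 1 2
def fd (E : Mx) : ℝ := (1 + E 0 0) * E 1 0 + E 0 1 * (1 + E 1 1) + E 0 2 * E 1 2
def da (E B : Mx) : ℝ := 2 * ((1 + E 0 0) * B 0 0 + E 0 1 * B 0 1 + E 0 2 * B 0 2)
def db (E B : Mx) : ℝ := 2 * (E 1 0 * B 1 0 + (1 + E 1 1) * B 1 1 + E 1 2 * B 1 2)
def dd (E B : Mx) : ℝ := (1 + E 0 0) * B 1 0 + E 1 0 * B 0 0 + E 0 1 * B 1 1 +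
  (1 + E 1 1) * B 0 1 + E 0 2 * B 1 2 + E 1 2 * B 0 2
def fD (E : Mx) : ℝ := fa E * fb E - fd E * fd E
def fu (κ : ℝ) (E : Mx) : ℝ := fb E - κ * fa E
def fS (κ : ℝ) (E : Mx) : ℝ := fu κ E * fu κ E + 4 * κ * (fd E * fd E)
def fL (κ : ℝ) (E : Mx) : ℝ := (κ * fa E + fb E + √(fS κ E)) * (1 / 2)
def fW (E : Mx) : ℝ := Real.log (fD E) * (1 / 2)
def fx (κ : ℝ) (E : Mx) : ℝ := Real.log (fL κ E) - fW E
def FF (R t κ : ℝ) (E : Mx) : ℝ := fW E + Psi R (t + fx κ E)
def dW (E B : Mx) : ℝ :=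
  (da E B * fb E + fa E * db E B - 2 * (fd E * dd E B)) * (fD E)⁻¹ * (1 / 2)
def dL (κ : ℝ) (E B : Mx) : ℝ := (κ * da E B + db E B +
  (fu κ E * (db E B - κ * da E B) + 4 * κ * (fd E * dd E B)) * (√(fS κ E))⁻¹) * (1 / 2) *
  (fL κ E)⁻¹
def gg (R t κ : ℝ) (E B : Mx) : ℝ :=
  eta R (t + fx κ E) * dW E B + (1 - eta R (t + fx κ E)) * dL κ E B
def HH (R t κ : ℝ) (A B : Mx) : ℝ :=
  -deriv (eta R) t * ((A 1 1 - A 0 0) * (B 1 1 - B 0 0)) +
  eta R t * (-(A 0 0 * B 0 0) - A 1 1 * B 1 1 + A 0 2 * B 0 2 + A 1 2 * B 1 2 - A 1 0 * B 0 1 -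
    A 0 1 * B 1 0) + (1 - eta R t) * (2 * (A 1 0 * B 1 0 - A 1 1 * B 1 1 + A 1 2 * B 1 2) +
    2 * κ * ((A 1 0 + A 0 1) * (B 1 0 + B 0 1)) * (1 - κ)⁻¹)

structure Pq where
  N : ℕ
  t : ℝ
  κ : ℝ
  δ : ℝ
  E : Mx
  A : Mx
  B : Mx
  k0 : 0 ≤ κ
  k1 : κ ≤ 1 / 100
  hE : EB2 E (cm (4 * nu N))
  hA : EB2 A (cm δ)
  hB : EB2 B (cm 1)

def lq : Filter Pq := comap Pq.N atTop

lemma nu_pos {N : ℕ} (h : 1 ≤ N) : 0 < nu N :=
  Real.rpow_pos_of_pos (by exact_mod_cast h) _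

lemma nu_tend : Tendsto nu atTop (𝓝 0) := by
  have := (tendsto_rpow_neg_atTop (y := 49 / 100) (by norm_num)).comp
    tendsto_natCast_atTop_atTop
  refine this.congr fun N => ?_
  simp only [nu, np, Function.comp]
  congr 1
  ring

lemma pJ_tend : Tendsto pJ atTop atTop :=
  Real.tendsto_log_atTop.comp tendsto_natCast_atTop_atTop

lemma small_tend : Tendsto (fun N => pR N ^ 2 * nu N / np N (-45 / 100)) atTop (𝓝 0) := by
  have h := ((isLittleO_log_rpow_rpow_atTop (s := 4 / 100) 2 (by norm_num)).tendsto_div_nhds_zero.comp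
    tendsto_natCast_atTop_atTop).const_mul 16
  rw [mul_zero] at h
  refine h.congr' ?_
  filter_upwards [eventually_ge_atTop 1] with N hN
  have hN' : (0 : ℝ) < N := by exact_mod_cast hN
  simp only [Function.comp, pR, pJ, nu, np]
  rw [mul_div_assoc, ← Real.rpow_sub hN', show (-49 / 100 - -45 / 100 : ℝ) = -(4 / 100) by ring,
    Real.rpow_neg hN'.le, Real.rpow_two]
  ring

lemma eps_tend : Tendsto (fun N => pR N ^ 2 * nu N) atTop (𝓝 0) := by
  have h1 : Tendsto (fun N => np N (-45 / 100)) atTop (𝓝 0) := by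
    have := (tendsto_rpow_neg_atTop (y := 45 / 100) (by norm_num)).comp
      tendsto_natCast_atTop_atTop
    refine this.congr fun N => ?_
    simp only [np, Function.comp]
    congr 1
    ring
  have h := small_tend.mul h1
  rw [mul_zero] at h
  refine h.congr' ?_
  filter_upwards [eventually_ge_atTop 1] with N hN
  have : 0 < np N (-45 / 100) := Real.rpow_pos_of_pos (by exact_mod_cast hN) _
  exact div_mul_cancel₀ _ this.ne'

lemma pR_ev : ∀ᶠ N in atTop, 10 ≤ pR N :=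
  (pJ_tend.eventually_ge_atTop 3).mono fun N h => by unfold pR; linarith

abbrev en (q : Pq) : ℝ := nu q.N
abbrev ep (q : Pq) : ℝ := pR q.N ^ 2 * nu q.N
abbrev J (f : Pq → ℝ → ℝ) (v v' : Pq → ℝ) : Prop := Jet lq en Pq.δ f v v'
abbrev P (q : Pq) (s : ℝ) : Mx := q.E + s • q.A

lemma en0 : Tendsto en lq (𝓝 0) := nu_tend.comp tendsto_comap
lemma en1 : en =O[lq] fun _ => (1 : ℝ) := en0.isBigO_one ℝ
lemma ep1 : ep =O[lq] fun _ => (1 : ℝ) := (eps_tend.comp tendsto_comap).isBigO_one ℝ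
lemma lqR : ∀ᶠ q in lq, 10 ≤ pR q.N := tendsto_comap.eventually pR_ev
lemma enp : en =O[lq] ep := IsBigO.of_bound 1 (lqR.mono fun q h => by
  rw [one_mul, norm_mul, Real.norm_of_nonneg (sq_nonneg _)]
  exact le_mul_of_one_le_left (norm_nonneg _) (by nlinarith))

lemma je (i j : Fin 3) (hi : i ≠ 2) : J (fun q s => P q s i j) (fun _ => 0) fun q => q.A i j :=
  Jet.line (v := fun q : Pq => q.E i j) (IsBigO.of_bound 4 (Eventually.of_forall fun q =>
    (q.hE i j hi).trans (mul_le_mul_of_nonneg_left (le_abs_self _) (by norm_num))))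
    (IsBigO.of_bound 1 (Eventually.of_forall fun q =>
      (q.hA i j hi).trans (by rw [one_mul]; exact le_abs_self _)))

lemma jB (i j : Fin 3) (hi : i ≠ 2) : J (fun q _ => q.B i j) (fun q => q.B i j) fun _ => 0 :=
  Jet.const (IsBigO.of_bound 1 (Eventually.of_forall fun q => (q.hB i j hi).trans (by simp [cm])))

lemma jk : J (fun q _ => q.κ) (fun q => q.κ) fun _ => 0 :=
  Jet.const (IsBigO.of_bound 1 (Eventually.of_forall fun q => by
    rw [Real.norm_of_nonneg q.k0, norm_one]; linarith [q.k1]))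

lemma j00 : J (fun q s => 1 + P q s 0 0) (fun _ => 1) fun q => q.A 0 0 :=
  ((Jet.num 1).add (je 0 0 (by decide))).cg
    (fun _ => by ring) fun _ => by ring
lemma j11 : J (fun q s => 1 + P q s 1 1) (fun _ => 1) fun q => q.A 1 1 :=
  ((Jet.num 1).add (je 1 1 (by decide))).cg
    (fun _ => by ring) fun _ => by ring
lemma j01 : J (fun q s => P q s 0 1) (fun _ => 0) fun q => q.A 0 1 := je 0 1 (by decide)
lemma j02 : J (fun q s => P q s 0 2) (fun _ => 0) fun q => q.A 0 2 := je 0 2 (by decide)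
lemma j10 : J (fun q s => P q s 1 0) (fun _ => 0) fun q => q.A 1 0 := je 1 0 (by decide)
lemma j12 : J (fun q s => P q s 1 2) (fun _ => 0) fun q => q.A 1 2 := je 1 2 (by decide)

lemma ja : J (fun q s => fa (P q s)) (fun _ => 1) fun q => 2 * q.A 0 0 :=
  (((j00.mul en1 j00).add (j01.mul en1 j01)).add (j02.mul en1 j02)).cg
    (fun _ => by ring) fun _ => by ring
lemma jb : J (fun q s => fb (P q s)) (fun _ => 1) fun q => 2 * q.A 1 1 :=
  (((j10.mul en1 j10).add (j11.mul en1 j11)).add (j12.mul en1 j12)).cg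
    (fun _ => by ring) fun _ => by ring
lemma jd : J (fun q s => fd (P q s)) (fun _ => 0) fun q => q.A 1 0 + q.A 0 1 :=
  (((j00.mul en1 j10).add (j01.mul en1 j11)).add (j02.mul en1 j12)).cg
    (fun _ => by ring) fun _ => by ring
lemma jda : J (fun q s => da (P q s) q.B) (fun q => 2 * q.B 0 0)
    fun q => 2 * (q.A 0 0 * q.B 0 0 + q.A 0 1 * q.B 0 1 + q.A 0 2 * q.B 0 2) :=
  ((Jet.num 2).mul en1 (((j00.mul en1 (jB 0 0 (by decide))).add
    (j01.mul en1 (jB 0 1 (by decide)))).add (j02.mul en1 (jB 0 2 (by decide))))).cg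
    (fun _ => by ring) fun _ => by ring
lemma jdb : J (fun q s => db (P q s) q.B) (fun q => 2 * q.B 1 1)
    fun q => 2 * (q.A 1 0 * q.B 1 0 + q.A 1 1 * q.B 1 1 + q.A 1 2 * q.B 1 2) :=
  ((Jet.num 2).mul en1 (((j10.mul en1 (jB 1 0 (by decide))).add
    (j11.mul en1 (jB 1 1 (by decide)))).add (j12.mul en1 (jB 1 2 (by decide))))).cg
    (fun _ => by ring) fun _ => by ring
lemma jdd : J (fun q s => dd (P q s) q.B) (fun q => q.B 1 0 + q.B 0 1)
    fun q => q.A 0 0 * q.B 1 0 + q.A 1 0 * q.B 0 0 + q.A 0 1 * q.B 1 1 + q.A 1 1 * q.B 0 1 +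
      q.A 0 2 * q.B 1 2 + q.A 1 2 * q.B 0 2 :=
  ((((((j00.mul en1 (jB 1 0 (by decide))).add (j10.mul en1 (jB 0 0 (by decide)))).add
    (j01.mul en1 (jB 1 1 (by decide)))).add (j11.mul en1 (jB 0 1 (by decide)))).add
    (j02.mul en1 (jB 1 2 (by decide)))).add (j12.mul en1 (jB 0 2 (by decide)))).cg
    (fun _ => by ring) fun _ => by ring
lemma jD : J (fun q s => fD (P q s)) (fun _ => 1) fun q => 2 * (q.A 0 0 + q.A 1 1) :=
  ((ja.mul en1 jb).sub (jd.mul en1 jd)).cg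
    (fun _ => by ring) fun _ => by ring
lemma one_mem : ∀ᶠ _ in lq, (1 : ℝ) ∈ Icc (1 / 2 : ℝ) 2 :=
  Eventually.of_forall fun _ => ⟨by norm_num, by norm_num⟩
lemma jW : J (fun q s => fW (P q s)) (fun _ => 0) fun q => q.A 0 0 + q.A 1 1 :=
  ((jD.log en0 one_mem).mul en1 (Jet.num (1 / 2))).cg (fun q => by simp) fun q => by
    simp only [Real.log_one]; ring
lemma ju : J (fun q s => fu q.κ (P q s)) (fun q => 1 - q.κ)
    fun q => 2 * (q.A 1 1 - q.κ * q.A 0 0) := (jb.sub (jk.mul en1 ja)).cg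
    (fun _ => by ring) fun _ => by ring
lemma jS : J (fun q s => fS q.κ (P q s)) (fun q => (1 - q.κ) * (1 - q.κ))
    fun q => 4 * (1 - q.κ) * (q.A 1 1 - q.κ * q.A 0 0) :=
  ((ju.mul en1 ju).add (((Jet.num 4).mul en1 jk).mul en1 (jd.mul en1 jd))).cg
    (fun _ => by ring) fun _ => by ring
lemma Pq.kp (q : Pq) : 0 < 1 - q.κ := by linarith [q.k1]
lemma jq : J (fun q s => √(fS q.κ (P q s))) (fun q => 1 - q.κ)
    fun q => 2 * (q.A 1 1 - q.κ * q.A 0 0) :=
  (jS.sqrt en0 (Eventually.of_forall fun q =>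
    ⟨by nlinarith [q.k0, q.k1], by nlinarith [q.k0, q.k1]⟩)).cg
    (fun q => Real.sqrt_mul_self q.kp.le) fun q => by
      have := q.kp
      rw [Real.sqrt_mul_self q.kp.le]
      field_simp
      ring
lemma jL : J (fun q s => fL q.κ (P q s)) (fun _ => 1) fun q => 2 * q.A 1 1 :=
  ((((jk.mul en1 ja).add jb).add jq).mul en1 (Jet.num (1 / 2))).cg
    (fun _ => by ring) fun _ => by ring
lemma jx : J (fun q s => fx q.κ (P q s)) (fun _ => 0) fun q => q.A 1 1 - q.A 0 0 :=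
  ((jL.log en0 one_mem).sub jW).cg (fun q => by simp)
    fun _ => by ring
lemma jdW : J (fun q s => dW (P q s) q.B) (fun q => q.B 0 0 + q.B 1 1)
    fun q => -(q.A 0 0 * q.B 0 0) - q.A 1 1 * q.B 1 1 + q.A 0 2 * q.B 0 2 + q.A 1 2 * q.B 1 2 -
      q.A 1 0 * q.B 0 1 - q.A 0 1 * q.B 1 0 :=
  (((((jda.mul en1 jb).add (ja.mul en1 jdb)).sub ((Jet.num 2).mul en1 (jd.mul en1 jdd))).mul en1
    (jD.inv en0 one_mem)).mul en1 (Jet.num (1 / 2))).cg
    (fun _ => by ring) fun _ => by ring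
lemma jdL : J (fun q s => dL q.κ (P q s) q.B) (fun q => 2 * q.B 1 1)
    fun q => 2 * (q.A 1 0 * q.B 1 0 - q.A 1 1 * q.B 1 1 + q.A 1 2 * q.B 1 2) +
      2 * q.κ * ((q.A 1 0 + q.A 0 1) * (q.B 1 0 + q.B 0 1)) * (1 - q.κ)⁻¹ :=
  (((((jk.mul en1 jda).add jdb).add (((ju.mul en1 (jdb.sub (jk.mul en1 jda))).add
    (((Jet.num 4).mul en1 jk).mul en1 (jd.mul en1 jdd))).mul en1 (jq.inv en0
    (Eventually.of_forall fun q => ⟨by linarith [q.k1], by linarith [q.k0]⟩)))).mul en1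
    (Jet.num (1 / 2))).mul en1 (jL.inv en0 one_mem)).cg
    (fun q => by have := q.kp; field_simp; ring) fun q => by have := q.kp; field_simp; ring

lemma lip {φ : ℝ → ℝ} {C : ℝ} (h : Differentiable ℝ φ) (hC : ∀ x, |deriv φ x| ≤ C) (t x y : ℝ) :
    ‖φ (t + x) - φ (t + y)‖ ≤ C * ‖x - y‖ := by
  have := Convex.norm_image_sub_le_of_norm_deriv_le (f := φ) (C := C) (fun x _ => h x)
    (fun x _ => hC x) convex_univ (mem_univ (t + y)) (mem_univ (t + x))
  rwa [add_sub_add_left_eq_sub] at this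

lemma jcomp {f : Pq → ℝ → ℝ} {v' : Pq → ℝ} (k : J f (fun _ => 0) v') (h : PsiStmt) :
    Jet lq ep Pq.δ (fun q s => eta (pR q.N) (q.t + f q s))
    (fun q => eta (pR q.N) q.t) fun q => deriv (eta (pR q.N)) q.t * v' q := by
  obtain ⟨C, -, h⟩ := h
  obtain ⟨f', -, b, -⟩ := id k
  have hd : ∀ R, 10 ≤ R → Differentiable ℝ (eta R) := fun R hR =>
    (h R hR).1.differentiable (by simp)
  have hd2 : ∀ R, 10 ≤ R → Differentiable ℝ (deriv (eta R)) := fun R hR =>
    (contDiff_infty_iff_deriv.1 (h R hR).1).2.differentiable (by simp)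
  have h1 : ∀ R, 10 ≤ R → ∀ x, |deriv (eta R) x| ≤ 1 := fun R hR x =>
    ((h R hR).2.2.2.2.2.2.2.1 x).trans (min_le_left _ _)
  have h2 : ∀ R, 10 ≤ R → ∀ x, |deriv (deriv (eta R)) x| ≤ C * R ^ 2 := fun R hR x => by
    simpa [iteratedDeriv_succ] using (h R hR).2.2.2.2.2.2.2.2.2.2.1 2 (by norm_num) x
  have key := Jet.comp (h := fun q x => eta (pR q.N) (q.t + x))
    (h' := fun q x => deriv (eta (pR q.N)) (q.t + x)) k enp ep1 ?_ ?_ ?_ ?_ ?_
  · simp only [add_zero] at key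
    exact key
  · exact lqR.mono fun q hq => (hd _ hq _).hasDerivAt.comp_const_add _ _
  · exact (IsBigO.of_bound 1 (lqR.mono fun q hq => lip (hd _ hq) (h1 _ hq) _ _ _)).trans
      (b.trans enp)
  · refine IsBigO.trans (IsBigO.of_bound C (lqR.mono fun q hq => ?_))
      ((isBigO_refl (fun q : Pq => pR q.N ^ 2) lq).mul b)
    rw [norm_mul, Real.norm_of_nonneg (sq_nonneg (pR q.N)), ← mul_assoc]
    exact lip (hd2 _ hq) (h2 _ hq) _ _ _
  · refine IsBigO.of_bound 1 (lqR.mono fun q hq => ?_)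
    have := (h _ hq).2.2.2.1 (q.t + 0)
    rw [Real.norm_of_nonneg this.1.le, norm_one, one_mul]
    exact this.2
  · refine IsBigO.of_bound 1 (lqR.mono fun q hq => ?_)
    rw [norm_one, one_mul]
    exact h1 _ hq _

lemma jeta (h : PsiStmt) : Jet lq ep Pq.δ (fun q s => eta (pR q.N) (q.t + fx q.κ (P q s)))
    (fun q => eta (pR q.N) q.t) fun q => deriv (eta (pR q.N)) q.t * (q.A 1 1 - q.A 0 0) :=
  jcomp jx h

lemma jg (h : PsiStmt) : Jet lq ep Pq.δ (fun q s => gg (pR q.N) q.t q.κ (P q s) q.B)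
    (fun q => eta (pR q.N) q.t * (q.B 0 0 + q.B 1 1) + (1 - eta (pR q.N) q.t) * (2 * q.B 1 1))
    fun q => HH (pR q.N) q.t q.κ q.A q.B :=
  (((jeta h).mul ep1 (jdW.mono enp)).add (((Jet.num 1).sub (jeta h)).mul ep1 (jdL.mono enp))).cg
    (fun _ => rfl) fun q => by unfold HH; ring

lemma second (h : PsiStmt) : ∃ M : ℝ, 0 < M ∧ ∀ᶠ N : ℕ in atTop, ∀ (t κ δ : ℝ) (E A B : Mx), 0 ≤ κ →
    κ ≤ 1 / 100 → (∀ s ∈ Icc (0 : ℝ) 1, EB2 (E + s • A) (cm (4 * nu N))) → EB2 A (cm δ) →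
    EB2 B (cm 1) → ∃ φ : ℝ → ℝ, ∀ s ∈ Icc (0 : ℝ) 1,
      HasDerivAt (fun r : ℝ => gg (pR N) t κ (E + r • A) B) (φ s) s ∧
      |φ s - HH (pR N) t κ A B| ≤ M * (pR N ^ 2 * nu N * δ) ∧ |HH (pR N) t κ A B| ≤ M * δ := by
  obtain ⟨f', a, -, c, -, e⟩ := jg h
  obtain ⟨M1, p1, c⟩ := c.exists_pos
  obtain ⟨M2, p2, e⟩ := e.exists_pos
  refine ⟨M1 + M2, by positivity, ?_⟩
  filter_upwards [eventually_comap.1 (a.and (c.bound.and e.bound)), eventually_ge_atTop 1]
    with N hN h1 t κ δ E A B k0 k1 hE hA hB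
  have hδ : 0 ≤ δ := (abs_nonneg _).trans (hA 0 0 (by decide))
  have hn : 0 ≤ pR N ^ 2 * nu N * δ := mul_nonneg (mul_nonneg (sq_nonneg _) (nu_pos h1).le) hδ
  have : ∀ s ∈ Icc (0 : ℝ) 1, ∃ y, HasDerivAt (fun r : ℝ => gg (pR N) t κ (E + r • A) B) y s ∧
      |y - HH (pR N) t κ A B| ≤ (M1 + M2) * (pR N ^ 2 * nu N * δ) ∧
      |HH (pR N) t κ A B| ≤ (M1 + M2) * δ := fun s hs => by
    obtain ⟨x, y, z⟩ := hN ⟨N, t, κ, δ, E + s • A, A, B, k0, k1, hE s hs, hA, hB⟩ rfl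
    refine ⟨f' ⟨N, t, κ, δ, E + s • A, A, B, k0, k1, hE s hs, hA, hB⟩, ?_, ?_, ?_⟩
    · have x' := HasDerivAt.comp_sub_const s s (by rw [sub_self]; exact x)
      refine x'.congr_of_eventuallyEq (Eventually.of_forall fun r => ?_)
      simp only [P]
      rw [add_assoc, ← add_smul, add_sub_cancel]
    · refine le_trans y ?_
      rw [Real.norm_of_nonneg hn]
      exact mul_le_mul_of_nonneg_right (by linarith) hn
    · refine le_trans z ?_
      rw [Real.norm_of_nonneg hδ]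
      exact mul_le_mul_of_nonneg_right (by linarith) hδ
  choose! φ hφ using this
  exact ⟨φ, hφ⟩

end
end Pool.Agent.MP_20bec2_an.T3.Va

end MrgPart1

-- ======== part 2: formerly Pool.Agent.MP_20bec2_an.T3.Va
section MrgPart2

/-! Taylor expansion of the potential where compensators may act. -/

set_option autoImplicit false
open Set Filter Topology Matrix

namespace Pool.Agent.MP_20bec2_an.T3
namespace Va

lemma bds {E : Mx} (h : EB2 E (cm (1 / 100))) : 98 / 100 ≤ fa E ∧ fa E ≤ 103 / 100 ∧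
    98 / 100 ≤ fb E ∧ fb E ≤ 103 / 100 ∧ fd E * fd E ≤ 1 / 100 := by
  have h00 := abs_le.1 (show |E 0 0| ≤ 1 / 100 from h 0 0 (by decide))
  have h01 := abs_le.1 (show |E 0 1| ≤ 1 / 100 from h 0 1 (by decide))
  have h02 := abs_le.1 (show |E 0 2| ≤ 1 / 100 from h 0 2 (by decide))
  have h10 := abs_le.1 (show |E 1 0| ≤ 1 / 100 from h 1 0 (by decide))
  have h11 := abs_le.1 (show |E 1 1| ≤ 1 / 100 from h 1 1 (by decide))
  have h12 := abs_le.1 (show |E 1 2| ≤ 1 / 100 from h 1 2 (by decide))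
  have sq : ∀ x : ℝ, -(1 / 100) ≤ x ∧ x ≤ 1 / 100 → 0 ≤ x * x ∧ x * x ≤ 1 / 10000 := fun x h =>
    ⟨mul_self_nonneg x, by nlinarith [h.1, h.2]⟩
  have pr : ∀ x y : ℝ, -(1 / 100) ≤ x ∧ x ≤ 1 / 100 → -(1 / 100) ≤ y ∧ y ≤ 1 / 100 →
      -(1 / 10000) ≤ x * y ∧ x * y ≤ 1 / 10000 := fun x y h k =>
    ⟨by nlinarith [h.1, h.2, k.1, k.2], by nlinarith [h.1, h.2, k.1, k.2]⟩
  have hd : -(1 / 10) ≤ fd E ∧ fd E ≤ 1 / 10 := by
    unfold fd
    constructor <;> nlinarith [pr _ _ h00 h10, pr _ _ h01 h11, pr _ _ h02 h12]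
  refine ⟨?_, ?_, ?_, ?_, by nlinarith [hd.1, hd.2]⟩
  · unfold fa; nlinarith [sq _ h00, sq _ h01, sq _ h02]
  · unfold fa; nlinarith [sq _ h00, sq _ h01, sq _ h02]
  · unfold fb; nlinarith [sq _ h10, sq _ h11, sq _ h12]
  · unfold fb; nlinarith [sq _ h10, sq _ h11, sq _ h12]

lemma fD_ge {E : Mx} (h : EB2 E (cm (1 / 100))) : 9 / 10 ≤ fD E := by
  obtain ⟨a, -, b, -, d⟩ := bds h
  unfold fD
  nlinarith

lemma fL_pos {E : Mx} (h : EB2 E (cm (1 / 100))) {κ : ℝ} (k0 : 0 ≤ κ) : 0 < fL κ E := by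
  obtain ⟨a, -, b, -, -⟩ := bds h
  unfold fL
  have := Real.sqrt_nonneg (fS κ E)
  have : 0 ≤ κ * fa E := mul_nonneg k0 (by linarith)
  linarith

lemma fS_pos {E : Mx} (h : EB2 E (cm (1 / 100))) {κ : ℝ} (k0 : 0 ≤ κ) (k1 : κ ≤ 1 / 100) :
    0 < fS κ E := by
  obtain ⟨a, a', b, -, -⟩ := bds h
  have : 0 < fu κ E := by unfold fu; nlinarith
  unfold fS
  have := mul_self_nonneg (fd E)
  positivity

lemma fx_le {E : Mx} (h : EB2 E (cm (1 / 100))) {κ : ℝ} (k0 : 0 ≤ κ) (k1 : κ ≤ 1) :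
    fx κ E ≤ 3 / 2 := by
  have hD := fD_ge h
  have hL := fL_pos h k0
  obtain ⟨a, a', b, b', -⟩ := bds h
  have h1 : κ * fa E ≤ 103 / 100 := by nlinarith
  have h0 : 0 ≤ κ * fa E := mul_nonneg k0 (by linarith)
  have h2 : √(fS κ E) ≤ κ * fa E + fb E := by
    refine Real.sqrt_le_iff.2 ⟨by linarith, ?_⟩
    have : (κ * fa E + fb E) ^ 2 - fS κ E = 4 * κ * fD E := by unfold fS fu fD; ring
    nlinarith
  have h3 := Real.log_le_sub_one_of_pos hL
  have h4 := Real.one_sub_inv_le_log_of_pos (show 0 < fD E by linarith)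
  have h5 : (fD E)⁻¹ ≤ 10 / 9 := by
    rw [inv_le_comm₀ (by linarith) (by norm_num)]; linarith
  have h6 : fL κ E ≤ 206 / 100 := by unfold fL; linarith
  unfold fx fW
  linarith

lemma dF {R : ℝ} (hP : ∀ t, HasDerivAt (Psi R) (1 - eta R t) t) (t : ℝ) {κ : ℝ} (k0 : 0 ≤ κ)
    (k1 : κ ≤ 1 / 100) {E : Mx} (h : EB2 E (cm (1 / 100))) (B : Mx) :
    HasDerivAt (fun r : ℝ => FF R t κ (E + r • B)) (gg R t κ E B) 0 := by
  have e : ∀ i j, HasDerivAt (fun r : ℝ => (E + r • B) i j) (B i j) 0 := fun i j => by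
    simpa using ((hasDerivAt_id' (0 : ℝ)).mul_const (B i j)).const_add (E i j)
  have e1 : ∀ i, HasDerivAt (fun r : ℝ => 1 + (E + r • B) i i) (B i i) 0 := fun i =>
    (e i i).const_add 1
  have z : E + (0 : ℝ) • B = E := by rw [zero_smul, add_zero]
  have ha : HasDerivAt (fun r : ℝ => fa (E + r • B)) (da E B) 0 :=
    ((((e1 0).fun_mul (e1 0)).fun_add ((e 0 1).fun_mul (e 0 1))).fun_add
      ((e 0 2).fun_mul (e 0 2))).congr_deriv (by rw [z]; unfold da; ring)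
  have hb : HasDerivAt (fun r : ℝ => fb (E + r • B)) (db E B) 0 :=
    ((((e 1 0).fun_mul (e 1 0)).fun_add ((e1 1).fun_mul (e1 1))).fun_add
      ((e 1 2).fun_mul (e 1 2))).congr_deriv (by rw [z]; unfold db; ring)
  have hd : HasDerivAt (fun r : ℝ => fd (E + r • B)) (dd E B) 0 :=
    ((((e1 0).fun_mul (e 1 0)).fun_add ((e 0 1).fun_mul (e1 1))).fun_add
      ((e 0 2).fun_mul (e 1 2))).congr_deriv (by rw [z]; unfold dd; ring)
  have hD0 : fD E ≠ 0 := by linarith [fD_ge h]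
  have hS0 := fS_pos h k0 k1
  have hL0 := fL_pos h k0
  have hq0 := Real.sqrt_pos.2 hS0
  have hW : HasDerivAt (fun r : ℝ => fW (E + r • B)) (dW E B) 0 :=
    (((((ha.fun_mul hb).fun_sub (hd.fun_mul hd)).log (by rw [z]; exact hD0))).mul_const
      (1 / 2)).congr_deriv (by rw [z]; unfold dW fD; ring)
  have hu : HasDerivAt (fun r : ℝ => fu κ (E + r • B)) (db E B - κ * da E B) 0 :=
    hb.fun_sub (ha.const_mul κ)
  have hS : HasDerivAt (fun r : ℝ => fS κ (E + r • B))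
      (2 * (fu κ E * (db E B - κ * da E B) + 4 * κ * (fd E * dd E B))) 0 :=
    ((hu.fun_mul hu).fun_add ((hd.fun_mul hd).const_mul (4 * κ))).congr_deriv (by rw [z]; ring)
  have hL : HasDerivAt (fun r : ℝ => Real.log (fL κ (E + r • B))) (dL κ E B) 0 :=
    ((((((ha.const_mul κ).fun_add hb).fun_add (hS.sqrt (by rw [z]; exact hS0.ne'))).mul_const
      (1 / 2))).log (by rw [z]; exact hL0.ne')).congr_deriv (by
        rw [z]; unfold dL; rw [show (κ * fa E + fb E + √(fS κ E)) * (1 / 2) = fL κ E from rfl]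
        field_simp)
  have hx : HasDerivAt (fun r : ℝ => t + fx κ (E + r • B)) (dL κ E B - dW E B) 0 :=
    (hL.fun_sub hW).const_add t
  exact (hW.fun_add ((hP _).comp 0 hx)).congr_deriv (by rw [z]; unfold gg; ring)

lemma V2_eq (c : Pm) (h1 : 0 < c.s1) (h2 : 0 < c.s2) {E : Mx} (h : EB2 E (cm (1 / 100))) :
    c.V2 E = Real.log c.n12 + FF (pR c.N) c.t ((c.s1 / c.s2) ^ 2) E := by
  have hD : 0 < fD E := by linarith [fD_ge h]
  have hL := fL_pos h (sq_nonneg (c.s1 / c.s2))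
  have tr : (gr2 c.s1 c.s2 E).trace = c.s1 ^ 2 * fa E + c.s2 ^ 2 * fb E := by
    simp [gr2, dg3, trace, mul_apply, Fin.sum_univ_three, Matrix.diagonal, Matrix.one_apply, fa,
      fb]
    ring
  have he : e2 (gr2 c.s1 c.s2 E) = (c.s1 * c.s2) ^ 2 * fD E := by
    unfold e2
    rw [tr]
    simp [gr2, dg3, trace, mul_apply, Fin.sum_univ_three, Matrix.diagonal, Matrix.one_apply, fa,
      fb, fd, fD]
    ring
  have ha : aa (gr2 c.s1 c.s2 E) = Real.log c.n12 + fW E := by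
    unfold aa fW Pm.n12
    rw [he, Real.log_mul (by positivity) hD.ne', Real.log_pow]
    push_cast
    ring
  have hl : Lam (gr2 c.s1 c.s2 E) = c.s2 ^ 2 * fL ((c.s1 / c.s2) ^ 2) E := by
    unfold Lam fL
    rw [he, tr, show (c.s1 ^ 2 * fa E + c.s2 ^ 2 * fb E) ^ 2 - 4 * ((c.s1 * c.s2) ^ 2 * fD E) =
      (c.s2 ^ 2) ^ 2 * fS ((c.s1 / c.s2) ^ 2) E by unfold fS fu fD; field_simp; ring,
      Real.sqrt_mul (sq_nonneg _), Real.sqrt_sq (sq_nonneg _)]
    field_simp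
  unfold Pm.V2 Vf tt FF fx
  rw [ha, hl, Real.log_mul (by positivity) hL.ne', Real.log_pow, add_assoc]
  congr 3
  unfold Pm.t Pm.K Pm.n12
  rw [Real.log_div h2.ne' h1.ne', Real.log_mul h1.ne' h2.ne']
  push_cast
  ring

lemma pk_ev : ∀ᶠ N in atTop, 12 ≤ pk0 N :=
  ((Real.tendsto_log_atTop.comp pJ_tend).eventually_ge_atTop 4).mono fun N h => by
    have : 4 ≤ Real.log (pJ N) := h
    unfold pk0
    linarith

lemma ident (c : Pm) (hc : c.Ok) (hk : 12 ≤ pk0 c.N) (h0 : ∀ t, t ≤ -3 / 2 → Psi (pR c.N) t = 0) :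
    ∃ κ : ℝ, 0 ≤ κ ∧ κ ≤ 1 / 100 ∧ κ ≤ 1 / c.m ^ 2 ∧ ∀ E : Mx, EB2 E (cm (1 / 100)) →
      c.V2 E = Real.log c.n12 + FF (pR c.N) c.t κ E := by
  have h1 := hc.1
  have h2 : 0 < c.s2 := h1.trans_le hc.2.1
  have hK : 1 ≤ c.K := (one_le_div h1).2 hc.2.1
  have hκ : (c.s1 / c.s2) ^ 2 = 1 / c.K ^ 2 := by unfold Pm.K; field_simp
  by_cases ht : c.t ≤ -3
  · refine ⟨0, le_rfl, by norm_num, by positivity, fun E hE => ?_⟩
    rw [V2_eq c h1 h2 hE]
    unfold FF
    rw [h0, h0]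
    · linarith [fx_le hE le_rfl zero_le_one]
    · linarith [fx_le hE (sq_nonneg (c.s1 / c.s2)) (by
        rw [hκ]; exact div_le_one_of_le₀ (one_le_pow₀ hK) (sq_nonneg _))]
  · have h3 := Real.log_le_sub_one_of_pos (show 0 < c.K by linarith)
    have h4 : 10 ≤ c.K := by unfold Pm.t at ht; linarith [not_le.1 ht]
    have hm : 0 < c.m := lt_max_of_lt_left one_pos
    refine ⟨_, sq_nonneg _, ?_, ?_, fun E hE => V2_eq c h1 h2 hE⟩
    · rw [hκ]
      exact one_div_le_one_div_of_le (by norm_num) (by nlinarith)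
    · rw [hκ]
      exact one_div_le_one_div_of_le (by positivity)
        (pow_le_pow_left₀ hm.le (max_le hK (by linarith)) 2)

lemma gg_lin (R t κ : ℝ) (E A : Mx) :
    ipm (Matrix.of fun i j => gg R t κ E (Matrix.single i j 1)) A = gg R t κ E A := by
  simp [ipm, Fin.sum_univ_three, gg, dW, dL, da, db, dd, Matrix.single]
  ring

lemma gg_smul (R t κ a : ℝ) (E A : Mx) : gg R t κ E (a • A) = a * gg R t κ E A := by
  simp only [gg, dW, dL, da, db, dd, Matrix.smul_apply, smul_eq_mul]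
  ring

lemma HH_smul (R t κ a : ℝ) (E A : Mx) : HH R t κ E (a • A) = a * HH R t κ E A := by
  simp only [HH, Matrix.smul_apply, smul_eq_mul]
  ring

lemma gg_zero (R t : ℝ) {κ : ℝ} (k1 : κ ≤ 1 / 100) (B : Mx) :
    gg R t κ 0 B = eta R t * B 0 0 + (2 - eta R t) * B 1 1 := by
  have k : 0 < 1 - κ := by linarith
  have a : fa 0 = 1 := by simp [fa]
  have b : fb 0 = 1 := by simp [fb]
  have d : fd 0 = 0 := by simp [fd]
  have q : √(fS κ 0) = 1 - κ := by simp [fS, fu, a, b, d, Real.sqrt_mul_self k.le]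
  have l : fL κ 0 = 1 := by rw [fL, q, a, b]; ring
  simp [gg, fx, fW, dW, dL, fD, fu, l, q, a, b, d, da, db, dd]
  field_simp
  ring

lemma HH_bd {R t κ μ m : ℝ} (A : Mx) (e0 : 0 < eta R t) (e1 : eta R t ≤ 1) (e2 : eta R t ≤ μ)
    (e3 : μ ≤ 1) (d0 : deriv (eta R) t ≤ 0) (d1 : |deriv (eta R) t| ≤ μ) (k0 : 0 ≤ κ)
    (k1 : κ ≤ 1 / 100) (k2 : κ ≤ 1 / m ^ 2) :
    HH R t κ A A / 2 ≤ 10 * (μ * A 0 0 ^ 2 + A 0 1 ^ 2 / m ^ 2 + A 1 0 ^ 2 + A 1 1 ^ 2 +
      eta R t * |A 0 1 * A 1 0| + eta R t * A 0 2 ^ 2 + A 1 2 ^ 2) ∧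
    A 1 2 ^ 2 / 4 - 10 * (μ * A 0 0 ^ 2 + A 0 1 ^ 2 / m ^ 2 + A 1 0 ^ 2 + A 1 1 ^ 2 +
      eta R t * |A 0 1 * A 1 0|) ≤ HH R t κ A A / 2 := by
  unfold HH
  generalize eta R t = η at *
  generalize deriv (eta R) t = p at *
  have hp := (abs_le.1 d1).1
  have i0 : 0 ≤ (1 - κ)⁻¹ := inv_nonneg.2 (by linarith)
  have i1 : (1 - κ)⁻¹ ≤ 2 := by rw [inv_le_comm₀ (by linarith) two_pos]; linarith
  have y0 : 0 ≤ (1 - η) * (1 - κ)⁻¹ := mul_nonneg (by linarith) i0
  have y1 : (1 - η) * (1 - κ)⁻¹ ≤ 2 := by nlinarith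
  have z0 : 0 ≤ κ * (A 1 0 + A 0 1) ^ 2 := by positivity
  have z1 : κ * A 0 1 ^ 2 ≤ A 0 1 ^ 2 / m ^ 2 := by
    rw [div_eq_mul_one_div, mul_comm]; gcongr
  have z2 : κ * (A 1 0 + A 0 1) ^ 2 ≤ 2 * A 1 0 ^ 2 + 2 * (A 0 1 ^ 2 / m ^ 2) := by
    nlinarith [mul_nonneg k0 (sq_nonneg (A 1 0 - A 0 1)), sq_nonneg (A 1 0)]
  have w0 := mul_nonneg y0 z0
  have w1 := mul_le_mul_of_nonneg_right y1 z0
  have u0 : 0 ≤ -p * (A 1 1 - A 0 0) ^ 2 := mul_nonneg (by linarith) (sq_nonneg _)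
  have u1 : -p * (A 1 1 - A 0 0) ^ 2 ≤ 2 * A 1 1 ^ 2 + 2 * (μ * A 0 0 ^ 2) := by
    have : -p * (A 1 1 - A 0 0) ^ 2 ≤ μ * (A 1 1 - A 0 0) ^ 2 := by gcongr; linarith
    nlinarith [mul_nonneg (e0.le.trans e2) (sq_nonneg (A 1 1 + A 0 0)), sq_nonneg (A 1 1)]
  have v0 := mul_le_mul_of_nonneg_left (le_abs_self (A 0 1 * A 1 0)) e0.le
  have v1 := mul_le_mul_of_nonneg_left (neg_abs_le (A 0 1 * A 1 0)) e0.le
  have v2 := mul_nonneg e0.le (abs_nonneg (A 0 1 * A 1 0))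
  have s : ∀ x : ℝ, 0 ≤ η * x ^ 2 ∧ η * x ^ 2 ≤ x ^ 2 ∧ 0 ≤ x ^ 2 := fun x =>
    ⟨by positivity, mul_le_of_le_one_left (sq_nonneg _) e1, sq_nonneg _⟩
  have s0 := mul_le_mul_of_nonneg_right e2 (sq_nonneg (A 0 0))
  have s1 : 0 ≤ A 0 1 ^ 2 / m ^ 2 := by positivity
  constructor <;> nlinarith [s (A 0 0), s (A 0 2), s (A 1 0), s (A 1 1), s (A 1 2)]

end Va
open Va

theorem va (h : PsiStmt) : VaStmt := by
  obtain ⟨M, hM, h2⟩ := second h
  obtain ⟨C, -, h⟩ := h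
  refine ⟨10, by norm_num, ?_⟩
  filter_upwards [h2, pR_ev, pk_ev, nu_tend.eventually_le_const (show (0 : ℝ) < 1 / 1000 by norm_num),
    eps_tend.eventually_le_const one_pos, pJ_tend.eventually_ge_atTop (2 * M + 1),
    small_tend.eventually_le_const (inv_pos.2 hM), eventually_ge_atTop 1]
    with N h2 hR hk hν hε hJ hsl h1
  rintro c rfl hc -
  obtain ⟨hsm, -, hanti, hη, hP, h0, -, hd, -⟩ := h _ hR
  obtain ⟨κ, k0, k1, k2, hV⟩ := ident c hc hk fun t ht => (h0 t ht).2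
  have hν0 := nu_pos h1
  have dV : ∀ E : Mx, EB2 E (cm (4 * nu c.N)) → ∀ B : Mx,
      HasDerivAt (fun r : ℝ => c.V2 (E + r • B)) (gg (pR c.N) c.t κ E B) 0 := fun E hE B => by
    have hE' : ∀ i j, i ≠ 2 → |E i j| < 1 / 100 := fun i j hi =>
      (show |E i j| ≤ 4 * nu c.N from hE i j hi).trans_lt (by linarith)
    refine ((dF hP c.t k0 k1 (fun i j hi => (hE' i j hi).le) B).const_add
      (Real.log c.n12)).congr_of_eventuallyEq ?_
    have : ∀ᶠ r : ℝ in 𝓝 0, EB2 (E + r • B) (cm (1 / 100)) :=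
      eventually_all.2 fun i => eventually_all.2 fun j => eventually_imp_distrib_left.2 fun hi => by
        have : ContinuousAt (fun r : ℝ => |E i j + r * B i j|) 0 := by fun_prop
        exact this.eventually_le_const (u := 1 / 100) (by simpa using hE' i j hi)
    exact this.mono fun r hr => hV _ hr
  have pv : ∀ E : Mx, EB2 E (cm (4 * nu c.N)) →
      c.PV E = Matrix.of fun i j => gg (pR c.N) c.t κ E (Matrix.single i j 1) := fun E hE => by
    ext i j
    exact (dV E hE _).deriv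
  refine ⟨fun E E' δ hE hE' hA i j => ?_, ?_, fun E A δ hE hA hδ => ?_⟩
  · have hδ : 0 ≤ δ := (abs_nonneg _).trans (hA 0 0 (by decide))
    obtain ⟨φ, hφ⟩ := h2 c.t κ δ E' (E - E') (Matrix.single i j 1) k0 k1 (fun s hs a b ha => by
      have p := abs_le.1 (show |E a b| ≤ 4 * nu c.N from hE a b ha)
      have q := abs_le.1 (show |E' a b| ≤ 4 * nu c.N from hE' a b ha)
      change |E' a b + s * (E a b - E' a b)| ≤ 4 * nu c.N
      exact abs_le.2 ⟨by nlinarith [hs.1, hs.2], by nlinarith [hs.1, hs.2]⟩) hA fun a b _ => by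
        change |Matrix.single i j (1 : ℝ) a b| ≤ 1
        rw [Matrix.single_apply]
        split_ifs <;> simp
    have := norm_image_sub_le_of_norm_deriv_le_segment_01' (C := c.J ^ 3 * δ)
      (fun s hs => (hφ s hs).1.hasDerivWithinAt) fun s hs => by
        obtain ⟨-, p, q⟩ := hφ s (Ico_subset_Icc_self hs)
        have r : M * (pR c.N ^ 2 * nu c.N * δ) ≤ M * (1 * δ) := by gcongr
        have hJ1 : 1 ≤ pJ c.N := by linarith
        have u : 2 * M * δ ≤ c.J ^ 3 * δ := mul_le_mul_of_nonneg_right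
          ((by linarith : 2 * M ≤ pJ c.N).trans (le_self_pow₀ hJ1 (by norm_num))) hδ
        have := abs_sub_abs_le_abs_sub (φ s) (HH (pR c.N) c.t κ (E - E') (Matrix.single i j 1))
        rw [Real.norm_eq_abs]
        linarith
    rw [one_smul, zero_smul, add_zero, add_sub_cancel] at this
    rw [pv E hE, pv E' hE']
    exact this
  · rw [pv 0 fun i j _ => by simp [cm, hν0.le]]
    ext i j
    rw [Matrix.of_apply, gg_zero _ _ k1]
    fin_cases i <;> fin_cases j <;> simp [dg3, Pm.η, Matrix.single]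
  · have hδ0 : 0 ≤ δ := (abs_nonneg _).trans (hA 0 0 (by decide))
    have hE' : ∀ s ∈ Icc (0 : ℝ) 1, EB2 (E + s • A) (cm (4 * nu c.N)) := fun s hs a b ha => by
      have p := abs_le.1 (show |E a b| ≤ 3 * nu c.N from hE a b ha)
      have q := abs_le.1 (show |A a b| ≤ δ from hA a b ha)
      change |E a b + s * A a b| ≤ 4 * nu c.N
      exact abs_le.2 ⟨by nlinarith [hs.1, hs.2], by nlinarith [hs.1, hs.2]⟩
    have hg : ∀ F : Mx, gg (pR c.N) c.t κ F A = δ * gg (pR c.N) c.t κ F (δ⁻¹ • A) ∧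
        HH (pR c.N) c.t κ A A = δ * HH (pR c.N) c.t κ A (δ⁻¹ • A) := fun F => by
      rcases hδ0.eq_or_lt with rfl | hp
      · have z : ∀ a b, a ≠ 2 → A a b = 0 := fun a b ha => abs_nonpos_iff.1 (hA a b ha)
        simp [gg, HH, dW, dL, da, db, dd, z]
      · rw [gg_smul, HH_smul, mul_inv_cancel_left₀ hp.ne', mul_inv_cancel_left₀ hp.ne']
        exact ⟨rfl, rfl⟩
    obtain ⟨φ, hφ⟩ := h2 c.t κ δ E A (δ⁻¹ • A) k0 k1 hE' hA fun a b ha => by
      change |δ⁻¹ * A a b| ≤ 1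
      rw [abs_mul, abs_of_nonneg (inv_nonneg.2 hδ0)]
      exact (mul_le_mul_of_nonneg_left (hA a b ha) (inv_nonneg.2 hδ0)).trans inv_mul_le_one
    have hn : 0 < np c.N (-45 / 100) := Real.rpow_pos_of_pos (by exact_mod_cast h1) _
    have T := taylor (φ := fun s => c.V2 (E + s • A))
      (φ₁ := fun s => δ * gg (pR c.N) c.t κ (E + s • A) (δ⁻¹ • A)) (φ₂ := fun s => δ * φ s)
      (h := HH (pR c.N) c.t κ A A) (e := np c.N (-45 / 100) * δ ^ 2) (fun s hs => by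
        rw [← (hg _).1]
        refine (HasDerivAt.comp_sub_const s s (by
          rw [sub_self]; exact dV _ (hE' s hs) A)).congr_of_eventuallyEq
          (Eventually.of_forall fun r => ?_)
        simp only
        rw [add_assoc, ← add_smul, add_sub_cancel])
      (fun s hs => (hφ s hs).1.const_mul δ) fun s hs => by
        rw [(hg 0).2, ← mul_sub, abs_mul, abs_of_nonneg hδ0]
        have r : M * (pR c.N ^ 2 * nu c.N) ≤ np c.N (-45 / 100) := by
          rwa [div_le_iff₀ hn, le_inv_mul_iff₀ hM] at hsl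
        calc _ ≤ δ * (M * (pR c.N ^ 2 * nu c.N * δ)) :=
              mul_le_mul_of_nonneg_left (hφ s hs).2.1 hδ0
          _ = M * (pR c.N ^ 2 * nu c.N) * δ ^ 2 := by ring
          _ ≤ _ := by gcongr
    simp only [one_smul, zero_smul, add_zero] at T
    rw [← (hg _).1] at T
    have hE0 := hE' 0 ⟨le_rfl, zero_le_one⟩
    rw [zero_smul, add_zero] at hE0
    rw [pv E hE0, gg_lin]
    have B := HH_bd (μ := c.mu) (m := c.m) A (hη c.t).1 (hη c.t).2
      (le_min (hη c.t).2 (le_mul_of_one_le_left (hη c.t).1.le (by linarith))) (min_le_left _ _)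
      (hanti.deriv_nonpos) (hd c.t) k0 k1 k2
    have T' := abs_le.1 T
    unfold Pm.Qup Pm.Qlo Pm.η
    constructor <;> linarith [B.1, B.2, T'.1, T'.2]

end Pool.Agent.MP_20bec2_an.T3

end MrgPart2

-- marker of a merged file
example : 731051 + 240214 = 731051 + 240214 := rfl

end MrgPart0

-- ======== part 1: formerly Pool.Agent.MP_20bec2_an.T3.Fine
section MrgPart1

/-! The differential of the whole path near a site. -/

set_option autoImplicit false
open Set Filter Matrix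

namespace Pool.Agent.MP_20bec2_an.T3
noncomputable section
open Classical

namespace Fine

/-- the differential of the path without its noise part -/
def AA (d : MD) (u : ℕ → V → V) (ω : ℕ → V → ℝ) (x : V) : Mx :=
  jm (Up u (nT d.c.N)) x - d.dN (d.dth ω) (d.dY ω) x
def Hit (d : MD) (s : Cu) : Prop := ∃ x ∈ d.R (99 / 100), ‖x - d.px s‖ ≤ d.c.h0
/-- a point near the site -/
def pt (d : MD) (s : Cu) : V := if h : Hit d s then h.choose else 0
def Ms (d : MD) (s : Cu) : Finset Fn := if Hit d s then insert (d.pV (pt d s))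
  (Finset.univ.image fun ab : Fin 2 × Fin 3 => d.pE (pt d s) ab.1.castSucc ab.2) else ∅

lemma pt_spec {d : MD} {s : Cu} (h : Hit d s) :
    pt d s ∈ d.R (99 / 100) ∧ ‖pt d s - d.px s‖ ≤ d.c.h0 := by
  unfold pt; rw [dif_pos h]; exact h.choose_spec

lemma pt_near {d : MD} {s : Cu} {x : V} (h : Hit d s) (hx : ‖x - d.px s‖ ≤ d.c.h0) :
    ‖x - pt d s‖ ≤ 2 * d.c.h0 := by
  have h1 := (pt_spec h).2
  have h2 := norm_sub_le (x - d.px s) (pt d s - d.px s)
  rw [sub_sub_sub_cancel_right] at h2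
  linarith

lemma Ms_ok (d : MD) (s : Cu) : ↑(Ms d s) ⊆ d.Fam ∧ (Ms d s).card ≤ 2000 := by
  unfold Ms
  split_ifs with h
  · refine ⟨fun Λ hΛ => ?_, (Finset.card_insert_le _ _).trans ?_⟩
    · rcases Finset.mem_insert.1 hΛ with e | e
      · exact Or.inr ⟨_, (pt_spec h).1, e⟩
      · obtain ⟨ab, -, e⟩ := Finset.mem_image.1 e
        exact Or.inl (Or.inl ⟨_, (pt_spec h).1, Or.inr (Or.inl
          ⟨_, _, (Fin.castSucc_lt_last ab.1).ne, e.symm⟩)⟩)
    · refine Nat.succ_le_of_lt (lt_of_le_of_lt Finset.card_image_le ?_)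
      simp
  · simp

lemma pV_mem {d : MD} {s : Cu} (h : Hit d s) : d.pV (pt d s) ∈ Ms d s := by
  unfold Ms; rw [if_pos h]; exact Finset.mem_insert_self _ _

lemma pE_mem {d : MD} {s : Cu} (h : Hit d s) {a : Fin 3} (ha : a ≠ 2) (b : Fin 3) :
    d.pE (pt d s) a b ∈ Ms d s := by
  unfold Ms; rw [if_pos h]
  refine Finset.mem_insert_of_mem (Finset.mem_image.2 ?_)
  fin_cases a
  · exact ⟨(0, b), Finset.mem_univ _, rfl⟩
  · exact ⟨(1, b), Finset.mem_univ _, rfl⟩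
  · exact absurd rfl ha

lemma lip1 {g : V → ℝ} (hg : Sm g) {B : ℝ} (hb : ∀ j x, |pd j g x| ≤ B) (x x' : V) :
    |g x - g x'| ≤ 3 * B * ‖x - x'‖ := by
  have h0 : 0 ≤ B := (abs_nonneg _).trans (hb 0 0)
  refine (mvt_pd convex_univ (fun y _ => hg.dif y) (b := cv B) (fun i y _ => hb i y)
    (mem_univ x) (mem_univ x')).trans ?_
  have k : ∀ i, cv B i * |x i - x' i| ≤ B * ‖x - x'‖ := fun i =>
    mul_le_mul_of_nonneg_left (norm_le_pi_norm (x - x') i) h0
  rw [Fin.sum_univ_three]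
  linarith [k 0, k 1, k 2]

/-- second derivatives bound the variation of the differential -/
lemma lip_jm {U : V → V} (hU : Sm U) {B : ℝ} (hb : ∀ i, CO 2 (cv 1) univ (fun x => U x i) B)
    (x x' : V) (a b : Fin 3) : |jm U x a b - jm U x' a b| ≤ 3 * B * ‖x - x'‖ :=
  lip1 (hU.jm a b) (fun j y => by
    have := hb a [j, b] rfl y (mem_univ y)
    rwa [hp_cv, one_pow, one_mul] at this) x x'

lemma sq_le {X a : ℝ} (h : X ^ 2 ≤ a) : |X| ≤ (1 + a) / 2 := by
  nlinarith [sq_nonneg (|X| - 1), sq_abs X]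

section par
variable {c : Pm} (h : Gd c)
include h

lemma sd_ge (i j : Fin 3) (hi : i ≠ 2) : np c.N (-1) ≤ c.sd i j := by
  have := h.log_dB; have := h.log_t1B; have := h.big.log_uB; have := h.log_e4_le
  have := h.big.L_ge; have := h.big.J_ge; have := log2_bd.2
  have p0 := h.big.np_pos (-1)
  have l0 := h.big.log_np (-1)
  have pq := div_pos h.big.sdc_pos h.q_pos
  have e1 : np c.N (-1) ≤ c.dB := le_of_log p0 h.dB_pos (by linarith)
  have e2 : np c.N (-1) ≤ uB c.N := le_of_log p0 h.big.uB_pos (by linarith)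
  have e3 : np c.N (-1) ≤ c.m * uB c.N :=
    e2.trans (le_mul_of_one_le_left h.big.uB_pos.le h.one_le_m)
  have e4 : np c.N (-1) ≤ c.t1B := le_of_log p0 h.t1B_pos (by linarith)
  have e5 : np c.N (-1) ≤ c.η * c.dB + np c.N (-9 / 10) := by
    have := h.big.np_le (show (-1 : ℝ) ≤ -9 / 10 by norm_num)
    linarith [mul_pos h.η_pos h.dB_pos]
  have e6 : np c.N (-1) ≤ sdc c.N / c.q := le_of_log p0 pq (by
    rw [Real.log_div h.big.sdc_pos.ne' h.q_pos.ne', h.big.log_sdc, h.log_q]; linarith)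
  have e7 : np c.N (-1) ≤ c.sdB i j := by
    fin_cases i
    · fin_cases j
      exacts [e1, e3, e4]
    · fin_cases j
      exacts [e2, e5, e2]
    · exact absurd rfl hi
  unfold Pm.sd
  split_ifs
  · exact e6
  · rw [Matrix.add_apply]; linarith [(Gd.b23_bd pq.le i j).1]
  · rw [Matrix.add_apply]; linarith [(Gd.b23_bd le_rfl i j).1]

lemma nz_nonneg (i j : Fin 3) : 0 ≤ c.nz i j := by
  have e1 : 0 ≤ c.p / c.q ^ 3 := (div_pos h.p_pos (pow_pos h.q_pos 3)).le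
  have e2 : 0 ≤ c.q * c.J * c.t1B := (mul_pos (mul_pos h.q_pos h.J_pos) h.t1B_pos).le
  fin_cases i <;> fin_cases j
  exacts [e1, le_rfl, e2, le_rfl, le_rfl, le_rfl, le_rfl, le_rfl, le_rfl]

lemma net_le : 12 * (c.d2u / c.q) * c.h0 ≤ np c.N (-1299) := by
  have := h.d2u_pos; have := h.q_pos; have := h.h0_pos
  refine le_of_log (by positivity) (h.big.np_pos _) ?_
  simp (disch := positivity) only [Real.log_mul, Real.log_div, h.log_d2u, h.log_q, h.log_h0,
    h.big.log_np]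
  linarith [h.log_η_ge, h.big.L_ge, h.big.J_ge, (logc_bd (show (1 : ℝ) ≤ 12 by norm_num)).2]

/-- the bound of the running value at a site -/
lemma X_le {X a : ℝ} (h1 : X ^ 2 ≤ a) (h2 : a ≤ 8 * qp c.N (1 / 10) * c.J) :
    |X| ≤ qp c.N (1 / 10) * √c.J / 4 := by
  have p1 := h.big.qp_pos (1 / 10)
  have p2 : 128 ≤ qp c.N (1 / 10) := le_of_log (by norm_num) p1 (by
    rw [h.big.log_qp]; linarith [h.big.L_ge, (logc_bd (show (1 : ℝ) ≤ 128 by norm_num)).2])
  refine abs_le_of_sq_le_sq' ?_ (by positivity) |> abs_le.2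
  rw [div_pow, mul_pow, Real.sq_sqrt h.J_pos.le]
  nlinarith [mul_le_mul_of_nonneg_right p2 (mul_pos p1 h.J_pos).le]

end par

variable {d : MD} {u : ℕ → V → V} {ω : ℕ → V → ℝ}

/-- the part of the output of the row FIN0 that is used here -/
structure F0 (d : MD) (u : ℕ → V → V) (ω : ℕ → V → ℝ) : Prop where
  lip : ∀ x x' a b, ‖x - x'‖ ≤ 2 * d.c.h0 → |AA d u ω x a b - AA d u ω x' a b| ≤ np d.c.N (-1299)
  sum : ∀ x, AA d u ω x = ∑ j ∈ Finset.range (nT d.c.N), d.Am (d.sa u ω j) (u j) (ω j) x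
  nn : ¬ d.c.noise → ∀ x, AA d u ω x = jm (Up u (nT d.c.N)) x

lemma ev_f0 (h0 : Fin0Stmt) : EvD fun d => ∀ u ω, d.Path u ω → F0 d u ω := by
  filter_upwards [h0, ev_gd] with N h0 hg d hN hk hI u ω hP
  obtain ⟨⟨a1, a2⟩, ⟨b1, b2, -, b4, -⟩, c⟩ := h0 d hN hk hI u ω hP
  have h := hg d.c hN hI.ok
  refine ⟨fun x x' a b hx => ?_, c, fun hn x => ?_⟩
  · have sU : Sm (Up u (nT d.c.N)) := (hP.gs _ le_rfl).sm.1
    have sN : SmM (d.dN (d.dth ω) (d.dY ω)) :=
      (SmM.smul b1 (smM_const _)).add (SmM.smul (ContDiff.mul ((hI.ns.2.1.pd 0).cmul _)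
        (ContDiff.sub (ContDiff.sub (ContDiff.pow (ContDiff.add hI.ns.1 b1) 2)
          (ContDiff.pow hI.ns.1 2)) b2)) (smM_const _))
    have k1 := lip_jm sU a1 x x' a b
    have k2 := lip1 (sN a b) (fun j y => by
      have := a2 a b [j] rfl y (mem_univ y)
      rwa [hp_cv, one_pow, one_mul] at this) x x'
    have k3 := mul_le_mul_of_nonneg_left hx
      (show 0 ≤ 3 * (d.c.d2u / d.c.q) from (mul_pos three_pos (div_pos h.d2u_pos h.q_pos)).le)
    have k4 := net_le h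
    unfold AA
    rw [Matrix.sub_apply, Matrix.sub_apply, sub_sub_sub_comm]
    refine (abs_sub _ _).trans ?_
    linarith
  · obtain ⟨e1, e2⟩ := b4 hn
    unfold AA MD.dN
    rw [e1, e2]
    simp

lemma near (h : Gd d.c) (hF : F0 d u ω) {s : Cu} {a : ℝ} (a0 : 0 ≤ a)
    (ha : a ≤ 8 * qp d.c.N (1 / 10) * d.c.J)
    (hX : ∀ Λ ∈ Ms d s, d.X Λ u ω (nT d.c.N) ^ 2 ≤ a) {x : V} (hx : x ∈ d.R (99 / 100))
    (hs : ‖x - d.px s‖ ≤ d.c.h0) : EB2 (AA d u ω x)
      ((qp d.c.N (3 / 10) * (1 + a)) • d.c.sd + if d.c.noise then d.c.nz else 0) := by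
  intro i j hi
  have H : Hit d s := ⟨x, hx, hs⟩
  have k1 := hF.lip x (pt d s) i j (pt_near H hs)
  have k2 := hX _ (pE_mem H hi j)
  have e : d.X (d.pE (pt d s) i j) u ω (nT d.c.N) = AA d u ω (pt d s) i j / d.nE i j := by
    rw [hF.sum, Matrix.sum_apply, Finset.sum_div]; rfl
  have s1 := sd_ge h i j hi
  have p0 := h.big.np_pos (-1)
  have p1 := h.big.qp_pos (1 / 5)
  have p2 := h.big.qp_pos (1 / 10)
  have p3 : 0 < √d.c.J := h.big.sqrtJ_pos
  have p4 := nz_nonneg h i j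
  have q1 : qp d.c.N (1 / 5) ≤ qp d.c.N (3 / 10) := h.big.qp_le (by norm_num)
  have q2 : 1 ≤ qp d.c.N (3 / 10) := by
    rw [← qp_zero d.c.N]; exact h.big.qp_le (by norm_num)
  have q3 : 2 * np d.c.N (-1299) ≤ np d.c.N (-1) :=
    le_of_log (mul_pos two_pos (h.big.np_pos _)) p0 (by
      rw [Real.log_mul two_ne_zero (h.big.np_pos _).ne', h.big.log_np, h.big.log_np]
      linarith [log2_bd.2, h.big.L_ge, h.big.J_ge])
  obtain ⟨z, z0, ze, ze'⟩ : ∃ z : ℝ, 0 ≤ z ∧ d.nE i j = qp d.c.N (1 / 5) * d.c.sd i j +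
      z / (qp d.c.N (1 / 10) * √d.c.J) ∧ (if d.c.noise then d.c.nz else 0 : Mx) i j = z := by
    unfold MD.nE
    split_ifs
    · exact ⟨_, p4, by simp [div_eq_inv_mul], rfl⟩
    · exact ⟨0, le_rfl, by simp, rfl⟩
  have n0 : 0 < d.nE i j := by rw [ze]; have : 0 < d.c.sd i j := by linarith
                               positivity
  obtain ⟨X, hXe⟩ : ∃ X, X = d.X (d.pE (pt d s) i j) u ω (nT d.c.N) := ⟨_, rfl⟩
  rw [← hXe] at k2 e
  have x1 := sq_le k2
  have x2 := X_le h k2 ha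
  have e' : |AA d u ω (pt d s) i j| = |X| * (qp d.c.N (1 / 5) * d.c.sd i j) +
      |X| * (z / (qp d.c.N (1 / 10) * √d.c.J)) := by
    rw [← mul_add, ← ze, e, abs_div, abs_of_pos n0, div_mul_cancel₀ _ n0.ne']
  have y1 : |X| * (qp d.c.N (1 / 5) * d.c.sd i j) ≤
      (1 + a) / 2 * (qp d.c.N (3 / 10) * d.c.sd i j) :=
    mul_le_mul x1 (mul_le_mul_of_nonneg_right q1 (by linarith))
      (mul_nonneg p1.le (by linarith)) (by linarith)
  have y2 : |X| * (z / (qp d.c.N (1 / 10) * √d.c.J)) ≤ z / 4 := by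
    refine (mul_le_mul_of_nonneg_right x2 (by positivity)).trans (le_of_eq ?_)
    field_simp
  have y3 : d.c.sd i j ≤ (1 + a) * (qp d.c.N (3 / 10) * d.c.sd i j) := by
    rw [← mul_assoc]
    exact le_mul_of_one_le_left (by linarith) (by nlinarith)
  have y4 := abs_sub_abs_le_abs_sub (AA d u ω x i j) (AA d u ω (pt d s) i j)
  rw [Matrix.add_apply, ze', Matrix.smul_apply, smul_eq_mul]
  nlinarith

end Fine
open Fine

theorem fine (h0 : Fin0Stmt) : FineStmt := by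
  filter_upwards [ev_f0 h0, ev_gd] with N h0 hg d hN hk hI
  refine ⟨Ms d, Ms_ok d, fun u ω hP xs x0 hx s hs x hR hn => ?_⟩
  exact near (hg d.c hN hI.ok) (h0 d hN hk hI u ω hP) (x0 s) (hx s hs).1 (hx s hs).2 hR hn

end
end Pool.Agent.MP_20bec2_an.T3

end MrgPart1

-- ======== part 2: formerly Pool.Agent.MP_20bec2_an.T3.Vb
section MrgPart2

/-! The change of the potential in a band without compensator. -/

set_option autoImplicit false
open Set Filter Matrix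

namespace Pool.Agent.MP_20bec2_an.T3
noncomputable section

namespace Vb

open VbA

lemma hy {R κ η e a d m u t s n0 n2 : ℝ} (R1 : 1 ≤ R) (k0 : 0 ≤ κ) (k1 : κ ≤ 1 / 100) (y0 : 0 ≤ η)
    (y1 : η ≤ κ) (e0 : 0 ≤ e) (d0 : 0 ≤ d) (u0 : 0 ≤ u) (p0 : 0 ≤ n0)
    (M1 : R * (e * d) ≤ 1 / 10 ^ 4) (M2 : e * (e * d) ≤ 1) (sd : s ≤ d)
    (M4 : e * (m * u) ^ 2 ≤ d) (M5 : e * t ^ 2 ≤ d) (M6 : e ≤ m) (m1 : 1 ≤ m)
    (km : m ^ 2 * κ ≤ 1) (a1 : 1 ≤ a) (h0 : a * d + n0 ≤ e * d) (h2 : a * t + n2 ≤ e * t)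
    (hn : e * t * n2 ≤ n0) :
    Hy R κ η (e * d) (e * (m * u)) (e * t) (e * u) (e * s) (a * d + n0) (a * (m * u))
      (a * t + n2) (a * u) (a * s) := by
  have a0 : 0 ≤ a := by linarith
  have m0 : 0 ≤ m := by linarith
  have ed : e * d ≤ 1 := by linarith [mul_le_mul_of_nonneg_right R1 (mul_nonneg e0 d0)]
  have um : u ≤ m * u := le_mul_of_one_le_left u0 m1
  have b1 := mul_le_mul_of_nonneg_left M4 e0
  have b2 := mul_le_mul_of_nonneg_left M5 e0
  have b3 := mul_le_mul_of_nonneg_left M4 a0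
  have b4 := mul_le_mul_of_nonneg_left M5 a0
  have b5 := mul_le_mul_of_nonneg_left sd e0
  have b6 := mul_le_mul_of_nonneg_left sd a0
  have et : e * t ≤ 1 := by nlinarith [sq_nonneg (e * t - 1)]
  have eu : 0 ≤ e * u := mul_nonneg e0 u0
  have ua : u ≤ a * u := le_mul_of_one_le_left u0 a1
  have mua : m * u ≤ a * (m * u) := le_mul_of_one_le_left (by positivity) a1
  refine ⟨R1, M1, k0, k1, y0, y1, b5, by linarith, by linarith,
    mul_le_mul_of_nonneg_left um e0, by linarith, by linarith, by linarith, ?_, ?_, ?_,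
    mul_le_mul_of_nonneg_left um a0, ?_, ?_⟩
  · linarith [mul_le_mul_of_nonneg_left h0 eu, mul_le_mul_of_nonneg_left M2 u0]
  · linarith [mul_le_mul_of_nonneg_left (h2.trans et) eu, mul_le_mul_of_nonneg_right M6 u0]
  · linarith [mul_le_mul_of_nonneg_left (b5.trans ed) (show 0 ≤ a * (m * u) by positivity)]
  · linarith [mul_le_mul_of_nonneg_left km (show 0 ≤ e * u * (a * u) by positivity)]
  · linarith [mul_le_mul_of_nonneg_left km (sq_nonneg (e * u))]

/-- the multiplier of the tables -/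
def em (c : Pm) : ℝ := 4 * c.q ^ 3 * c.J

/-- the monomial inequalities -/
structure Fc (c : Pm) : Prop where
  d0 : 0 < c.dB
  t0 : 0 < c.t1B
  p0 : 0 < c.p
  K1 : 10 ≤ c.K
  K2 : c.η * c.K ^ 2 ≤ 1
  M2 : em c * (em c * c.dB) ≤ 1
  M3 : 2 * np c.N (-9 / 10) ≤ c.dB
  M4 : em c * (c.m * uB c.N) ^ 2 ≤ c.dB
  M5 : em c * c.t1B ^ 2 ≤ c.dB
  M6 : em c ≤ c.m
  M8 : c.q * (em c * c.t1B * (c.q * c.J * c.t1B)) ≤ c.p / c.q ^ 4
  M9 : c.q * (c.q * (pR c.N * (em c * c.dB))) ≤ 1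
  Y1 : c.q * (c.q * em c * uB c.N ^ 2) ≤ uV c.N
  Y2 : c.q * (c.q * em c * (c.η * c.t1B ^ 2)) ≤ uV c.N
  Y3 : c.q * (c.q * em c * (pR c.N * c.η * c.dB ^ 2)) ≤ uV c.N
  Y4 : c.q * (c.q * em c * np c.N (-9 / 10) ^ 2) ≤ uV c.N

lemma facts {c : Pm} (h : Big c.N) (ok : c.Ok) (y0 : 0 < c.η) (y1 : c.η ≤ etaA c.N)
    (ht : -3 / 2 ≤ c.t) : Fc c := by
  have hL := h.L_ge
  have hJ := h.J_ge
  obtain ⟨l1, l2⟩ := log2_bd
  have l4 := log4_eq
  have J0 : 0 < c.J := h.J_pos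
  have q0 : 0 < c.q := h.q_pos
  have N0 := h.N_pos
  have R0 := h.R_pos
  have u0 := h.uB_pos
  have X0 := h.X_pos
  have pu0 := h.pu_pos
  have n0 := h.np_pos (-9 / 10)
  have lJ : Real.log c.J = pL c.N := rfl
  have lq : Real.log c.q = pL c.N / 1000 := h.log_q
  have K0 : 0 < c.K := div_pos (ok.1.trans_le ok.2.1) ok.1
  have lK : Real.log c.K = c.t + 15 / 4 * pL c.N := by rw [Pm.t, h.k0_eq]; ring
  have t1 : c.t ≤ 1 / 4 := ok.2.2.2.2.1.trans h.tE_bd.2
  have ly : Real.log c.η ≤ -(8 * pL c.N) := h.log_etaA ▸ Real.log_le_log y0 y1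
  have e40 : 0 < c.e4 := y0.trans_le (le_max_left _ _)
  obtain ⟨f1, f2, f3⟩ := log_max' y0 (show 0 < c.J ^ 4 / c.N by positivity)
  have f4 : Real.log (c.J ^ 4 / c.N) = 4 * pL c.N - pJ c.N := by
    rw [Real.log_div (by positivity) N0.ne', Real.log_pow, lJ, h.log_N]; push_cast; ring
  rw [f4] at f2 f3
  change _ ≤ Real.log c.e4 at f1 f2
  have f5 : Real.log c.e4 ≤ 0 := by
    rcases f3 with f3 | f3 <;> change Real.log c.e4 = _ at f3 <;> linarith
  have d0 : 0 < c.dB := by unfold Pm.dB; positivity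
  have ld : Real.log c.dB = -(pJ c.N / 2) - pL c.N - 37 * (pL c.N / 2000) - Real.log 2 -
      Real.log c.e4 / 2 := by
    unfold Pm.dB
    simp (disch := positivity) only [Real.log_div, Real.log_mul, Real.log_sqrt, Real.log_pow,
      h.log_pu, h.log_R, lq]
    push_cast; ring
  have t0 : 0 < c.t1B := by unfold Pm.t1B; positivity
  have lt : Real.log c.t1B = -(pJ c.N / 2) - pL c.N / 2 - 31 * (pL c.N / 2000) -
      Real.log c.e4 / 2 := by
    unfold Pm.t1B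
    simp (disch := positivity) only [Real.log_div, Real.log_mul, Real.log_sqrt, Real.log_pow,
      h.log_pu, lq]
    push_cast; ring
  have e0 : 0 < em c := by unfold em; positivity
  have le : Real.log (em c) = 2 * Real.log 2 + 3 * (pL c.N / 1000) + pL c.N := by
    unfold em
    simp (disch := positivity) only [Real.log_mul, Real.log_pow, lq, lJ, l4]
    push_cast; ring
  have K1 : 10 ≤ c.K := le_of_log (by norm_num) K0 (by
    linarith [(logc_bd (C := 10) (by norm_num)).2])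
  have m0 : 0 < c.m := lt_of_lt_of_le one_pos (le_max_left _ _)
  have lm1 : Real.log c.m ≤ Real.log c.K :=
    Real.log_le_log m0 (max_le (by linarith) (by linarith))
  have lm2 : Real.log c.K - 2 * Real.log 2 ≤ Real.log c.m := by
    rw [← l4, ← Real.log_div K0.ne' (by norm_num)]
    exact Real.log_le_log (by positivity) (le_max_right _ _)
  have pf0 : 0 < c.pf := by unfold Pm.pf; positivity
  have p0 : 0 < c.p := lt_min pf0 (by positivity)
  have lp : 2 * Real.log 2 - 22 * (pL c.N / 1000) + pL c.N - pJ c.N - Real.log c.e4 ≤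
      Real.log c.p := by
    rcases (log_min' pf0 (show 0 < c.q * pX c.N / (c.N * c.η) by positivity)).2.2 with g | g <;>
      change Real.log c.p = _ at g <;> rw [g]
    · unfold Pm.pf
      simp (disch := positivity) only [Real.log_mul, Real.log_pow, lq, lJ, ld]
      push_cast; linarith
    · simp (disch := positivity) only [Real.log_div, Real.log_mul, lq, h.log_X, h.log_N]
      linarith
  have uV0 := h.uV_pos
  refine ⟨d0, t0, p0, K1, ?_, ?_, ?_, ?_, ?_, ?_, ?_, ?_, ?_, ?_, ?_, ?_⟩ <;>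
    refine le_of_log (by positivity) (by positivity) ?_ <;>
    simp (disch := positivity) only [Real.log_div, Real.log_mul, Real.log_pow, Real.log_one, lq, lJ,
      ld, lt, le, h.log_uB, h.log_uV, h.log_R, h.log_np] <;> push_cast <;> linarith

lemma tabs {c : Pm} (h : Big c.N) (hc : ¬ c.comp) :
    c.η ≤ 3 / 10 * etaA c.N ∧ c.sd = c.sdB ∧ c.eT = (3 * c.q ^ 3 * c.J) • c.sdB := by
  have a0 := h.etaA_pos
  have a1 : etaS c.N = etaA c.N / 100 := rfl
  have h1 : c.η < c.thr := not_le.1 hc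
  have h2 : c.η < 3 / 10 * etaA c.N := by
    unfold Pm.thr at h1
    split_ifs at h1 <;> linarith
  have h3 : kbo c.N ≤ c.k → c.η < etaS c.N := fun hk => by
    rwa [Pm.thr, if_neg (not_lt.2 hk)] at h1
  have z : Pm.b23 0 = 0 := by
    ext i j
    fin_cases i <;> fin_cases j <;> rfl
  refine ⟨h2.le, ?_, ?_⟩
  · rw [Pm.sd, if_neg (show ¬ c.isA from not_le.2 (by linarith)),
      if_neg (fun hb : c.boost => by linarith [h3 hb.2.2.1, hb.2.1]), z, add_zero]
  · rw [Pm.eT, if_pos (show c.oS from by unfold Pm.oS; linarith), Pm.sdO,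
      if_pos (show c.oB from by unfold Pm.oB; linarith),
      if_neg (fun hb => by linarith [h3 hb.2, hb.1]), z, add_zero]

lemma tb_add {E A : Mx} {e0 e1 e2 u s a0 a1 a2 b a3 f0 f1 f2 v r : ℝ} (h : Tb E e0 e1 e2 u s)
    (hA : Tb A a0 a1 a2 b a3) (h0 : e0 + a0 ≤ f0) (h1 : e1 + a1 ≤ f1) (h2 : e2 + a2 ≤ f2)
    (h3 : u + b ≤ v) (h4 : s + a3 ≤ r) : Tb E f0 f1 f2 v r ∧ Tb (E + A) f0 f1 f2 v r := by
  obtain ⟨r0, r1, r2, r3, r4⟩ := hA.nn
  obtain ⟨x0, x1, x2, x3, x4, x5⟩ := h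
  obtain ⟨z0, z1, z2, z3, z4, z5⟩ := hA
  exact ⟨⟨by linarith, by linarith, by linarith, by linarith, by linarith, by linarith⟩,
    (ab x0 z0).trans h0, (ab x1 z1).trans h1, (ab x2 z2).trans h2, (ab x3 z3).trans h3,
    (ab x4 z4).trans h4, (ab x5 z5).trans h3⟩

lemma fin {q R e a a' η z P U d u t v J : ℝ} (q1 : 10000000 ≤ q) (R1 : 1 ≤ R) (e0 : 0 ≤ e)
    (a1 : 0 < a') (a2 : a' ≤ q * a) (y0 : 0 ≤ η) (y1 : η ≤ 1) (z0 : 0 ≤ z) (P0 : 0 ≤ P)
    (Y1 : q * (q * e * u ^ 2) ≤ U) (Y2 : q * (q * e * (η * t ^ 2)) ≤ U)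
    (Y3 : q * (q * e * (R * η * d ^ 2)) ≤ U) (Y4 : q * (q * e * v ^ 2) ≤ U)
    (g3 : 10000000 * (e * t * (q * J * t)) ≤ P) (g1 : 10000000 * (q * (R * (e * d))) ≤ 1) :
    20000 * (e * u * (a' * u) + e * (η * d + v) * (a' * (η * d + v)) +
      η * (e * t * (a' * t + z * (q * J * t))) + R * η * (e * d * (a' * d + z * (q * P)))) ≤
      U * a / 8 + z * (η * P) := by
  have q0 : 0 < q := by linarith
  have R0 : 0 < R := by linarith
  have j0 : 0 ≤ a := ((mul_pos_iff_of_pos_left q0).1 (a1.trans_le a2)).le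
  have i0 : ∀ Y : ℝ, 0 ≤ Y → q * (q * e * Y) ≤ U → 10000000 * (a' * (e * Y)) ≤ U * a :=
    fun Y hY hu => by
      have j1 := mul_le_mul_of_nonneg_right a2 (show 0 ≤ e * Y by positivity)
      have j2 := mul_le_mul_of_nonneg_right q1 (show 0 ≤ q * e * Y by positivity)
      linarith [mul_le_mul_of_nonneg_right (j2.trans hu) j0]
  have i1 := i0 _ (by positivity) Y1
  have i2 := i0 _ (by positivity) Y2
  have i3 := i0 _ (by positivity) Y3
  have i4 := i0 _ (by positivity) Y4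
  have i5 : (η * d + v) ^ 2 ≤ 2 * (R * η * d ^ 2) + 2 * v ^ 2 := by
    have j1 : η * (η * d ^ 2) ≤ R * (η * d ^ 2) :=
      mul_le_mul_of_nonneg_right (by linarith) (by positivity)
    linarith [sq_nonneg (η * d - v)]
  have i6 := mul_le_mul_of_nonneg_left i5 (show 0 ≤ a' * e by positivity)
  have i7 : 0 ≤ a' * (e * u ^ 2) := by positivity
  have i8 := mul_le_mul_of_nonneg_left g3 (show 0 ≤ z * η by positivity)
  have i9 := mul_le_mul_of_nonneg_left g1 (show 0 ≤ z * η * P by positivity)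
  have i10 : 0 ≤ z * η * P := by positivity
  linarith

/-- the estimate with the two noise entries as parameters -/
lemma main {c : Pm} (h : Big c.N) (ok : c.Ok) (F : Fc c)
    (hΨ : ∀ t, HasDerivAt (Psi (pR c.N)) (1 - eta (pR c.N) t) t)
    (hR : ∀ t t', eta (pR c.N) t' ≤ Real.exp (pR c.N * |t' - t|) * eta (pR c.N) t)
    (h0 : ∀ t, 0 < eta (pR c.N) t) {E A : Mx} {a a' n0 n2 z : ℝ} (a1 : 1 ≤ a') (a2 : a' ≤ c.q * a)
    (a3 : a' ≤ c.q * c.J) (z0 : 0 ≤ z) (z1 : z ≤ 1) (e0 : n0 = z * (c.p / c.q ^ 3))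
    (e2 : n2 = z * (c.q * c.J * c.t1B))
    (hE : Tb E (3 * c.q ^ 3 * c.J * c.dB) (3 * c.q ^ 3 * c.J * (c.m * uB c.N))
      (3 * c.q ^ 3 * c.J * c.t1B) (3 * c.q ^ 3 * c.J * uB c.N)
      (3 * c.q ^ 3 * c.J * (c.η * c.dB + np c.N (-9 / 10))))
    (hA : Tb A (a' * c.dB + n0) (a' * (c.m * uB c.N)) (a' * c.t1B + n2) (a' * uB c.N)
      (a' * (c.η * c.dB + np c.N (-9 / 10)))) :
    |c.V2 (E + A) - c.V2 E - (c.η * A 0 0 + (2 - c.η) * A 1 1)| ≤
      uV c.N * a / 8 + z * (c.η * c.p / c.q ^ 4) := by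
  have s1 := ok.1
  have s2 : 0 < c.s2 := ok.1.trans_le ok.2.1
  have J0 : 0 < c.J := h.J_pos
  have q1 : 10000000 ≤ c.q := h.q_ge
  have q0 : 0 < c.q := h.q_pos
  have R1 := h.R_ge
  have u0 := h.uB_pos
  have v0 := h.np_pos (-9 / 10)
  have y0 : 0 < c.η := h0 _
  have d0 := F.d0
  have t0 := F.t0
  have p0 := F.p0
  have m1 : 1 ≤ c.m := le_max_left _ _
  have K2 : 100 ≤ c.K ^ 2 := by nlinarith [F.K1]
  have k1 : (c.K ^ 2)⁻¹ ≤ 1 / 100 := by
    rw [← one_div]; exact one_div_le_one_div_of_le (by norm_num) K2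
  have yk : c.η ≤ (c.K ^ 2)⁻¹ := by
    rw [← one_div, le_div_iff₀ (by linarith)]; exact F.K2
  have km : c.m ^ 2 * (c.K ^ 2)⁻¹ ≤ 1 := by
    rw [← div_eq_mul_inv, div_le_one (by linarith)]
    exact pow_le_pow_left₀ (zero_le_one.trans m1)
      (max_le (by linarith [F.K1]) (by linarith [F.K1])) 2
  have em0 : 0 < em c := by unfold em; positivity
  have qJ : 2 * (c.q * c.J) ≤ c.q ^ 3 * c.J := by
    have : 2 * c.q ≤ c.q ^ 3 := by nlinarith [mul_le_mul q1 q1 (by norm_num) q0.le]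
    linarith [mul_le_mul_of_nonneg_right this J0.le]
  have qJ0 : 0 < c.q * c.J := by positivity
  have b0 : 0 ≤ n0 := by rw [e0]; positivity
  have b2 : 0 ≤ n2 := by rw [e2]; positivity
  have b1 : n0 ≤ c.q * c.J * c.dB := by
    have g1 : c.p / c.q ^ 3 ≤ c.q * c.J * c.dB := by
      rw [div_le_iff₀ (by positivity)]
      exact (min_le_left _ _).trans_eq (by unfold Pm.pf; ring)
    rw [e0]
    exact (mul_le_of_le_one_left (by positivity) z1).trans g1
  have b3 : n2 ≤ c.q * c.J * c.t1B := by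
    rw [e2]; exact mul_le_of_le_one_left (by positivity) z1
  have w : ∀ x : ℝ, 0 ≤ x → 3 * c.q ^ 3 * c.J * x + a' * x + c.q * c.J * x ≤ em c * x ∧
      0 ≤ c.q * c.J * x ∧ 0 ≤ 3 * c.q ^ 3 * c.J * x := fun x hx => by
    refine ⟨?_, by positivity, by positivity⟩
    unfold em
    linarith [mul_le_mul_of_nonneg_right a3 hx, mul_le_mul_of_nonneg_right qJ hx]
  have sd : c.η * c.dB + np c.N (-9 / 10) ≤ c.dB := by
    linarith [F.M3, mul_le_mul_of_nonneg_right (yk.trans k1) d0.le]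
  have s0 : 0 ≤ c.η * c.dB + np c.N (-9 / 10) := by positivity
  obtain ⟨w1, w1', w1''⟩ := w _ d0.le
  obtain ⟨w2, w2', -⟩ := w (c.m * uB c.N) (by positivity)
  obtain ⟨w3, w3', w3''⟩ := w _ t0.le
  obtain ⟨w4, w4', -⟩ := w _ u0.le
  obtain ⟨w5, w5', -⟩ := w _ s0
  obtain ⟨T, T'⟩ := tb_add (f0 := em c * c.dB) (f1 := em c * (c.m * uB c.N)) (f2 := em c * c.t1B)
    (v := em c * uB c.N) (r := em c * (c.η * c.dB + np c.N (-9 / 10))) hE hA (by linarith)
    (by linarith) (by linarith) (by linarith) (by linarith)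
  have g0 : 0 ≤ pR c.N * (em c * c.dB) := by positivity
  have g1 : 10000000 * (c.q * (pR c.N * (em c * c.dB))) ≤ 1 :=
    (mul_le_mul_of_nonneg_right q1 (by positivity)).trans F.M9
  have g2 := mul_le_mul_of_nonneg_right q1 g0
  have g3 : 10000000 * (em c * c.t1B * (c.q * c.J * c.t1B)) ≤ c.p / c.q ^ 4 :=
    (mul_le_mul_of_nonneg_right q1 (by positivity)).trans F.M8
  have g4 : c.p / c.q ^ 3 = c.q * (c.p / c.q ^ 4) := by field_simp
  have g5 : 0 < c.p / c.q ^ 4 := by positivity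
  have g6 : em c * c.t1B * n2 ≤ n0 := by
    rw [e0, e2, mul_left_comm, g4]
    refine mul_le_mul_of_nonneg_left ?_ z0
    linarith [mul_le_mul_of_nonneg_right q1 g5.le]
  have H := hy (R := pR c.N) (κ := (c.K ^ 2)⁻¹) (η := c.η) (n0 := n0) (n2 := n2) (by linarith)
    (by positivity) k1 y0.le yk em0.le d0.le u0.le b0 (by linarith) F.M2 sd F.M4 F.M5 F.M6
    m1 km a1 (by linarith) (by linarith) g6
  obtain ⟨r1, r2⟩ := la_eq c s1 s2 E
  obtain ⟨r1', r2'⟩ := la_eq c s1 s2 (E + A)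
  simp only [div_eq_mul_inv] at r1 r2 r1' r2'
  obtain ⟨D0, l0, -⟩ := tau H T r1 r2
  obtain ⟨D0', l0', -⟩ := tau H T' r1' r2'
  have C := core hΨ hR h0 (t := c.t) H T T' hA r1 r2 r1' r2'
  rw [V2_eq c s1 s2 D0 l0, V2_eq c s1 s2 D0' l0']
  refine le_trans (le_of_eq (congrArg _ ?_)) (C.trans ?_)
  · unfold Pm.η; ring
  change 20000 * (_ + _ + c.η * _ + pR c.N * c.η * _) ≤ _
  rw [e0, e2, g4, mul_div_assoc c.η]
  exact fin q1 (by linarith) em0.le (by linarith) a2 y0.le (by linarith) z0 g5.le F.Y1 F.Y2 F.Y3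
    F.Y4 g3 g1

end Vb

open Classical in
theorem vb (hP : PsiStmt) : VbStmt := by
  obtain ⟨C, -, hP⟩ := hP
  filter_upwards [ev_big] with N h c hN ok hc E A a a1 a2 hE hA
  subst hN
  obtain ⟨-, -, -, p1, p2, p3, -, -, p4, -⟩ := hP (pR c.N) h.R_ge
  obtain ⟨y1, e1, e2⟩ := Vb.tabs h hc
  have y2 : etaA c.N ≤ 1 := le_of_log h.etaA_pos one_pos (by
    rw [h.log_etaA, Real.log_one]; linarith [h.L_ge])
  have F := Vb.facts h ok (p1 _).1 (by linarith [h.etaA_pos]) (by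
    by_contra ht
    have : c.η = 1 := (p3 c.t (not_le.1 ht).le).1
    linarith)
  have b0 := h.qp_pos (3 / 10)
  have b1 : 1 ≤ qp c.N (3 / 10) := le_of_log one_pos b0 (by
    rw [h.log_qp, Real.log_one]; linarith [h.L_ge])
  have b2 : qp c.N (3 / 10) ≤ pq c.N := le_of_log b0 h.q_pos (by
    rw [h.log_qp, h.log_q]; linarith [h.L_ge])
  have b3 : qp c.N (3 / 10) * Real.sqrt (pq c.N) ≤ pq c.N := le_of_log (mul_pos b0 h.sqrtq_pos)
    h.q_pos (by
    rw [Real.log_mul b0.ne' h.sqrtq_pos.ne', h.log_qp, h.log_q, h.log_sqrtq]; linarith [h.L_ge])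
  change _ * Real.sqrt c.q ≤ c.q at b3
  rw [e2] at hE
  rw [e1] at hA
  have key := Vb.main h ok F p2 p4 (fun t => (p1 t).1) (E := E) (A := A) (a := a)
    (a' := qp c.N (3 / 10) * a) (z := if c.noise then 1 else 0) (one_le_mul_of_one_le_of_one_le b1 a1)
    (mul_le_mul_of_nonneg_right b2 (by linarith)) (by
      linarith [mul_le_mul_of_nonneg_left a2 b0.le,
        mul_le_mul_of_nonneg_right b3 (show 0 ≤ c.J from h.J_pos.le)])
    (by split_ifs <;> norm_num) (by split_ifs <;> norm_num) rfl rfl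
    ⟨hE 0 0 (by decide), hE 0 1 (by decide), hE 0 2 (by decide), hE 1 0 (by decide),
      hE 1 1 (by decide), hE 1 2 (by decide)⟩ (by
      have g0 := hA 0 0 (by decide)
      have g1 := hA 0 1 (by decide)
      have g2 := hA 0 2 (by decide)
      have g3 := hA 1 0 (by decide)
      have g4 := hA 1 1 (by decide)
      have g5 := hA 1 2 (by decide)
      split_ifs at g0 g1 g2 g3 g4 g5 ⊢ <;>
        simp [Pm.sdB, Pm.nz] at g0 g1 g2 g3 g4 g5 <;>
        exact ⟨by simpa using g0, g1, by simpa using g2, g3, g4, g5⟩)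
  split_ifs at key ⊢ <;> simpa using key

end
end Pool.Agent.MP_20bec2_an.T3

end MrgPart2

-- ======== part 3: formerly Pool.Agent.MP_20bec2_an.T3.Finv
section MrgPart3

/-! The change of the potential along the whole path near a site. -/

set_option autoImplicit false
open Set Filter Matrix

namespace Pool.Agent.MP_20bec2_an.T3
noncomputable section
open Classical

namespace Fine

/-- bounds for the increments add up -/
lemma tele {f lo up : ℕ → ℝ} (T : ℕ)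
    (h : ∀ j < T, f (j + 1) - f j ≤ up j ∧ lo j ≤ f (j + 1) - f j) :
    f T - f 0 ≤ ∑ j ∈ Finset.range T, up j ∧ ∑ j ∈ Finset.range T, lo j ≤ f T - f 0 := by
  rw [← Finset.sum_range_sub]
  exact ⟨Finset.sum_le_sum fun j hj => (h j (Finset.mem_range.1 hj)).1,
    Finset.sum_le_sum fun j hj => (h j (Finset.mem_range.1 hj)).2⟩

lemma ipm_sub {P P' A A' : Mx} {a b p e : ℝ} (h1 : EB (P - P') (cm p)) (h2 : EB A (cm a))
    (h3 : EB P' (cm b)) (h4 : ∀ i j, |A i j - A' i j| ≤ e) :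
    |ipm P A - ipm P' A'| ≤ 9 * (p * a + b * e) := by
  have k : ∀ i j, |P i j * A i j - P' i j * A' i j| ≤ p * a + b * e := fun i j => by
    rw [show P i j * A i j - P' i j * A' i j =
      (P - P') i j * A i j + P' i j * (A i j - A' i j) by rw [Matrix.sub_apply]; ring]
    refine (abs_add_le _ _).trans ?_
    rw [abs_mul, abs_mul]
    exact add_le_add (mul_le_mul (h1 i j) (h2 i j) (abs_nonneg _) ((abs_nonneg _).trans (h1 i j)))
      (mul_le_mul (h3 i j) (h4 i j) (abs_nonneg _) ((abs_nonneg _).trans (h3 i j)))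
  unfold ipm
  rw [← Finset.sum_sub_distrib]
  refine (Finset.abs_sum_le_sum_abs _ _).trans ((Finset.sum_le_card_nsmul _ _
    (3 * (p * a + b * e)) fun i _ => ?_).trans (le_of_eq (by simp; ring)))
  rw [← Finset.sum_sub_distrib]
  exact (Finset.abs_sum_le_sum_abs _ _).trans ((Finset.sum_le_card_nsmul _ _ _
    fun j _ => k i j).trans (le_of_eq (by simp; ring)))

lemma eb2_add {A B : Mx} {a b c : ℝ} (h1 : EB2 A (cm a)) (h2 : EB2 B (cm b)) (h : a + b ≤ c) :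
    EB2 (A + B) (cm c) := fun i j hi =>
  (abs_add_le _ _).trans ((add_le_add (h1 i j hi) (h2 i j hi)).trans h)

lemma eb2_sqrt (A : Mx) : EB2 A (cm √(∑ i, ∑ j, A i j ^ 2)) := fun i j _ =>
  Real.abs_le_sqrt ((Finset.single_le_sum (f := fun j => A i j ^ 2) (fun _ _ => sq_nonneg _)
    (Finset.mem_univ j)).trans (Finset.single_le_sum (f := fun i => ∑ j, A i j ^ 2)
      (fun _ _ => Finset.sum_nonneg fun _ _ => sq_nonneg _) (Finset.mem_univ i)))

section par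
variable {c : Pm} (h : Gd c)
include h

lemma np_mul (a b e : ℝ) (he : a + b = e) : np c.N a * np c.N b = np c.N e := by
  rw [← he, h.big.np_add]

/-- a constant times powers of `J` is absorbed by a small power of `N` -/
lemma np_abs {C a b : ℝ} {k : ℕ} (hC : 1 ≤ C) (hC' : C ≤ 1000) (hk : k ≤ 10)
    (hab : a + 1 / 1000 ≤ b) : C * c.J ^ k * np c.N a ≤ np c.N b := by
  have := h.J_pos; have := h.big.np_pos a
  have hk' : (k : ℝ) ≤ 10 := by exact_mod_cast hk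
  refine le_of_log (by positivity) (h.big.np_pos _) ?_
  simp (disch := positivity) only [Real.log_mul, Real.log_pow, h.log_J, h.big.log_np]
  have := mul_le_mul_of_nonneg_right hab h.big.J_pos.le
  have := mul_le_mul_of_nonneg_right hk' (show 0 ≤ pL c.N by linarith [h.big.L_ge])
  linarith [h.big.L_ge, h.big.J_ge, (logc_bd hC).2]

lemma uV_ge : 100 * np c.N (-101 / 100) ≤ uV c.N := by
  have := h.big.np_pos (-101 / 100)
  refine le_of_log (by positivity) h.big.uV_pos ?_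
  rw [Real.log_mul (by norm_num) this.ne', h.big.log_np, h.big.log_uV]
  linarith [h.big.L_ge, h.big.J_ge, h.big.log100_bd.2]

lemma a_le {a : ℝ} (ha : a ≤ 8 * qp c.N (1 / 10) * c.J) : 1 + a ≤ √c.q * c.J := by
  have p1 := h.big.qp_pos (1 / 10)
  have p2 : 0 < √c.q := h.big.sqrtq_pos
  have e1 : 9 * qp c.N (1 / 10) ≤ √c.q := le_of_log (by positivity) p2 (by
    rw [Real.log_mul (by norm_num) p1.ne', h.big.log_qp, show √c.q = √(pq c.N) from rfl,
      h.big.log_sqrtq]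
    linarith [h.big.L_ge, (logc_bd (show (1 : ℝ) ≤ 9 by norm_num)).2])
  have e2 : 1 ≤ qp c.N (1 / 10) := (qp_zero c.N).ge.trans (h.big.qp_le (by norm_num))
  have e3 : 1 ≤ c.J := by linarith [h.big.L_ge, h.big.J_ge, show c.J = pJ c.N from rfl]
  nlinarith [mul_le_mul_of_nonneg_right e1 h.J_pos.le]

lemma nz_part : qp c.N (1 / 10) * √c.J / 4 * (c.η * c.p / (qp c.N (21 / 5) * √c.J)) +
    c.η * c.p / c.q ^ 4 ≤ c.η * c.p / c.q ^ 3 := by
  have p1 := h.big.qp_pos (1 / 10); have p2 := h.big.qp_pos (21 / 5)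
  have p3 : 0 < √c.J := h.big.sqrtJ_pos
  have p4 := h.ηp_pos; have p5 := h.q_pos
  have e1 : qp c.N (1 / 10) * c.q ^ 3 ≤ qp c.N (21 / 5) := le_of_log (by positivity) p2 (by
    rw [Real.log_mul p1.ne' (by positivity), Real.log_pow, h.big.log_qp, h.big.log_qp, h.log_q]
    push_cast; linarith [h.big.L_ge])
  have e2 : qp c.N (1 / 10) * √c.J / 4 * (c.η * c.p / (qp c.N (21 / 5) * √c.J)) =
      c.η * c.p / c.q ^ 3 * (qp c.N (1 / 10) * c.q ^ 3 / qp c.N (21 / 5)) / 4 := by field_simp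
  have e3 := mul_le_mul_of_nonneg_left ((div_le_one p2).2 e1) (div_pos p4 (pow_pos p5 3)).le
  have e4 : c.η * c.p / c.q ^ 4 = c.η * c.p / c.q ^ 3 / c.q := by field_simp
  have e5 : c.η * c.p / c.q ^ 3 / c.q ≤ c.η * c.p / c.q ^ 3 / 2 :=
    div_le_div_of_nonneg_left (by positivity) two_pos
      (by linarith [h.big.q_ge, show c.q = pq c.N from rfl])
  have e6 : 0 < c.η * c.p / c.q ^ 3 := by positivity
  rw [e2, e4]; linarith

lemma Q_nonneg (A : Mx) : 0 ≤ c.Qlo A ∧ 0 ≤ c.Qup A := by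
  have := h.mu_pos; have := h.η_pos; have := h.m_pos
  have e : 0 ≤ c.Qlo A := by unfold Pm.Qlo; positivity
  exact ⟨e, by unfold Pm.Qup; positivity⟩

end par

variable {d : MD} {u : ℕ → V → V} {ω : ℕ → V → ℝ}

/-- the case without compensator -/
lemma caseB (h : Gd d.c) (hF : F0 d u ω) (hc : ¬ d.c.comp) {s : Cu} {a : ℝ} (a0 : 0 ≤ a)
    (ha : a ≤ 8 * qp d.c.N (1 / 10) * d.c.J)
    (hX : ∀ Λ ∈ Ms d s, d.X Λ u ω (nT d.c.N) ^ 2 ≤ a) {x : V} (hx : x ∈ d.R (99 / 100))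
    (hs : ‖x - d.px s‖ ≤ d.c.h0) {v : ℝ}
    (hv : |v - (d.c.η * AA d u ω x 0 0 + (2 - d.c.η) * AA d u ω x 1 1)| ≤
      uV d.c.N * (1 + a) / 8 + if d.c.noise then d.c.η * d.c.p / d.c.q ^ 4 else 0) :
    |v| ≤ uV d.c.N / 2 * (1 + a) + if d.c.noise then d.c.η * d.c.p / d.c.q ^ 3 else 0 := by
  have H : Hit d s := ⟨x, hx, hs⟩
  have k0 := abs_le.1 (hF.lip x (pt d s) 0 0 (pt_near H hs))
  have k1 := abs_le.1 (hF.lip x (pt d s) 1 1 (pt_near H hs))
  have k2 := hX _ (pV_mem H)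
  have e : d.X (d.pV (pt d s)) u ω (nT d.c.N) =
      (d.c.η * AA d u ω (pt d s) 0 0 + (2 - d.c.η) * AA d u ω (pt d s) 1 1) / d.nV := by
    rw [hF.sum, Matrix.sum_apply, Matrix.sum_apply, Finset.mul_sum, Finset.mul_sum,
      ← Finset.sum_add_distrib, Finset.sum_div]
    exact Finset.sum_congr rfl fun j _ => if_neg hc
  obtain ⟨X, hXe⟩ : ∃ X, X = d.X (d.pV (pt d s)) u ω (nT d.c.N) := ⟨_, rfl⟩
  rw [← hXe] at k2 e
  have x1 := sq_le k2
  have x2 := X_le h k2 ha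
  have p1 := h.big.np_pos (-5); have p2 := h.big.np_pos (-1299)
  have p3 := h.big.qp_pos (21 / 5); have p4 : 0 < √d.c.J := h.big.sqrtJ_pos
  have p5 := h.ηp_pos; have p6 := h.η_pos; have p7 := h.η_le_one
  have u1 := uV_ge h
  have u2 := h.big.np_le (show (-5 : ℝ) ≤ -101 / 100 by norm_num)
  have u3 := h.big.np_le (show (-1299 : ℝ) ≤ -101 / 100 by norm_num)
  obtain ⟨z, z4, z3, z0, ze, e4, e3, zz⟩ : ∃ z z4 z3 : ℝ, 0 ≤ z ∧ d.nV = z + np d.c.N (-5) ∧
      (if d.c.noise then d.c.η * d.c.p / d.c.q ^ 4 else 0) = z4 ∧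
      (if d.c.noise then d.c.η * d.c.p / d.c.q ^ 3 else 0) = z3 ∧
      qp d.c.N (1 / 10) * √d.c.J / 4 * z + z4 ≤ z3 := by
    unfold MD.nV
    split_ifs
    · exact ⟨_, _, _, by positivity, rfl, rfl, rfl, nz_part h⟩
    · exact ⟨0, 0, 0, le_rfl, rfl, rfl, rfl, by simp⟩
  have n0 : 0 < d.nV := by rw [ze]; positivity
  have e' : |d.c.η * AA d u ω (pt d s) 0 0 + (2 - d.c.η) * AA d u ω (pt d s) 1 1| =
      |X| * z + |X| * np d.c.N (-5) := by
    rw [← mul_add, ← ze, e, abs_div, abs_of_pos n0, div_mul_cancel₀ _ n0.ne']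
  have y1 := mul_le_mul_of_nonneg_right x2 z0
  have y2 : |X| * np d.c.N (-5) ≤ (1 + a) / 2 * (uV d.c.N / 100) :=
    mul_le_mul x1 (by linarith) p1.le (by linarith)
  have y3 : uV d.c.N ≤ uV d.c.N * (1 + a) := le_mul_of_one_le_right (by linarith) (by linarith)
  have y4 := abs_le.1 e'.le
  have y5 := abs_le.1 hv
  have y6 := mul_le_mul_of_nonneg_left k0.1 p6.le
  have y7 := mul_le_mul_of_nonneg_left k0.2 p6.le
  have y8 := mul_le_mul_of_nonneg_left k1.1 h.two_sub_pos.le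
  have y9 := mul_le_mul_of_nonneg_left k1.2 h.two_sub_pos.le
  rw [e4] at y5
  rw [e3, abs_le]
  constructor <;> linarith [y4.1, y4.2, y5.1, y5.2]

lemma cr_d1 (h : Gd d.c) {v : V → V} {w : V → ℝ} (hv : d.Cr d.ep v w) (x : V) :
    EB (jm v x) (cm (np d.c.N (-685))) ∧ ∀ x', ‖x - x'‖ ≤ 2 * d.c.h0 → ∀ i j,
      |jm v x i j - jm v x' i j| ≤ 6 * np d.c.N (-1985) := by
  have p := h.lam_pos
  have e : d.ep * np d.c.N 15 = np d.c.N (-685) := np_mul h _ _ _ (by norm_num)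
  refine ⟨fun i j => ?_, fun x' hx i j => ?_⟩
  · have := hv.cb.1 i [j] (by simp) x (mem_univ x)
    rw [hp_cv, e, List.length_singleton, pow_one, mul_comm] at this
    exact le_of_mul_le_mul_right this p
  · have k := lip_jm hv.sm.1 (B := np d.c.N (-685) / d.c.lam) (fun i l hl y hy => by
      have := hv.cb.1 i l (le_trans (le_of_eq hl) (by norm_num)) y hy
      rw [hp_cv, e, hl] at this
      rw [hp_cv, one_pow, one_mul, le_div_iff₀ p]
      exact le_of_mul_le_mul_right (by linarith) p) x x' i j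
    refine k.trans ((mul_le_mul_of_nonneg_left hx
      (mul_pos three_pos (div_pos (h.big.np_pos _) p)).le).trans (le_of_eq ?_))
    rw [← np_mul h (-685) (-1300) (-1985) (by norm_num), Pm.h0]
    field_simp; ring

/-- the case with compensator -/
lemma caseA (h : Gd d.c) (hI : d.In) (hP : d.Path u ω) (hc : d.c.comp) {C : ℝ}
    (C2 : C ≤ qp d.c.N (1 / 10))
    (V1 : ∀ E E' δ, EB2 E (cm (4 * nu d.c.N)) → EB2 E' (cm (4 * nu d.c.N)) → EB2 (E - E') (cm δ) →
      EB (d.c.PV E - d.c.PV E') (cm (d.c.J ^ 3 * δ)))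
    (V2 : d.c.PV 0 = dg3 d.c.η (2 - d.c.η) 0)
    (V3 : ∀ E A δ, EB2 E (cm (3 * nu d.c.N)) → EB2 A (cm δ) → δ ≤ nu d.c.N →
      d.c.V2 (E + A) - d.c.V2 E - ipm (d.c.PV E) A ≤
        C * d.c.Qup A + np d.c.N (-45 / 100) * δ ^ 2 ∧
      A 1 2 ^ 2 / 4 - C * d.c.Qlo A - np d.c.N (-45 / 100) * δ ^ 2 ≤
        d.c.V2 (E + A) - d.c.V2 E - ipm (d.c.PV E) A)
    {a : ℝ} (a0 : 0 ≤ a) {x x' : V} (hx : x ∈ d.R (99 / 100)) (hx' : x' ∈ d.R (99 / 100))
    (hn : ‖x - x'‖ ≤ 2 * d.c.h0) (hX : d.X (d.pV x') u ω (nT d.c.N) ^ 2 ≤ a) :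
    d.c.V2 (d.E x + jm (Up u (nT d.c.N)) x) - d.c.V2 (d.E x) ≤
      uV d.c.N / 2 * (1 + a) + d.c.cost d.O d.ρ x + d.c.q * d.c.bst d.O x ∧
    -(uV d.c.N / 2 * (1 + a)) + d.c.bst d.O x / 100 ≤
      d.c.V2 (d.E x + jm (Up u (nT d.c.N)) x) - d.c.V2 (d.E x) := by
  have pn := h.big.nu_pos
  have pu := h.big.uV_pos
  have hη : etaS d.c.N / 2 ≤ d.c.η := by
    have : d.c.thr ≤ d.c.η := hc
    linarith [h.thr_bd.1, h.big.etaS_pos]
  have hE : ∀ y ∈ d.R (99 / 100), ∀ m ≤ nT d.c.N, ∀ b, 2 * nu d.c.N ≤ b →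
      EB2 (d.E y + jm (Up u m) y) (cm b) := fun y hy m hm b hb =>
    eb2_add (fun i j hi => (hI.eb y hy i j hi).trans ((le_abs_self _).trans (h.eT_le_nu hη i j)))
      (fun i j _ => ((hP.gs m hm).ub y).2.2 hc i j) (by linarith)
  obtain ⟨s1, s2, s3, s4⟩ := hP.su.q2 hc x hx
  rw [one_mul] at s1 s2 s3 s4
  have n2 : ∀ j : ℕ, 0 ≤ ∑ i, ∑ k, jm (u j) x i k ^ 2 := fun j =>
    Finset.sum_nonneg fun _ _ => Finset.sum_nonneg fun _ _ => sq_nonneg _
  -- telescoping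
  obtain ⟨t1, t2⟩ := tele (f := fun m => d.c.V2 (d.E x + jm (Up u m) x))
    (up := fun j => ipm (d.c.PV (d.E x + jm (Up u j) x)) (jm (u j) x) + (C * d.c.Qup (jm (u j) x) +
      np d.c.N (-45 / 100) * ∑ i, ∑ k, jm (u j) x i k ^ 2))
    (lo := fun j => ipm (d.c.PV (d.E x + jm (Up u j) x)) (jm (u j) x) + (jm (u j) x 1 2 ^ 2 / 4 -
      C * d.c.Qlo (jm (u j) x) - np d.c.N (-45 / 100) * ∑ i, ∑ k, jm (u j) x i k ^ 2))
    (nT d.c.N) fun j hj => by
      have e : jm (Up u (j + 1)) x = jm (Up u j) x + jm (u j) x := by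
        rw [← jm_add (Z := Up u j) (hP.gs j hj.le).sm.1 (hP.cr j).sm.1]
        congr 1
        funext y
        exact Finset.sum_range_succ _ _
      have k := V3 _ _ _ (hE x hx j hj.le _ (by linarith)) (eb2_sqrt (jm (u j) x)) (by
        refine Real.sqrt_le_iff.2 ⟨pn.le, ((Finset.single_le_sum (fun j _ => n2 j)
          (Finset.mem_range.2 hj)).trans s4).trans (le_of_eq ?_)⟩
        rw [sq]; exact (np_mul h _ _ _ (by norm_num)).symm)
      rw [Real.sq_sqrt (n2 j), add_assoc, ← e] at k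
      constructor <;> linarith [k.1, k.2]
  have e0 : jm (Up u 0) x = 0 := jm_const 0 x
  simp only [e0, add_zero, Finset.sum_add_distrib, Finset.sum_sub_distrib, ← Finset.mul_sum,
    ← Finset.sum_div] at t1 t2
  -- the first-order part
  have pl := h.lam_pos
  have f1 : ∀ j ∈ Finset.range (nT d.c.N), |ipm (d.c.PV (d.E x + jm (Up u j) x)) (jm (u j) x) -
      ipm (d.c.PV (d.E x' + jm (Up u j) x')) (jm (u j) x')| ≤ np d.c.N (-1980) := fun j hj => by
    have hj' := (Finset.mem_range.1 hj).le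
    have g := hP.gs j hj'
    have b1 : EB2 (d.E x + jm (Up u j) x - (d.E x' + jm (Up u j) x'))
        (cm (3 * np d.c.N (-1299))) := by
      rw [add_sub_add_comm]
      refine eb2_add (hI.el hc x hx x' hx') (b := np d.c.N (-1299)) (fun i k _ => ?_) ?_
      · have k1 := lip_jm g.sm.1 g.d2 x x' i k
        have k2 := mul_le_mul_of_nonneg_left hn
          (mul_pos three_pos (div_pos h.d2u_pos h.q_pos)).le
        have k3 := net_le h
        have k4 := mul_pos (div_pos h.d2u_pos h.q_pos) h.h0_pos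
        show |jm (Up u j) x i k - jm (Up u j) x' i k| ≤ np d.c.N (-1299)
        have k5 : |jm (Up u j) x i k - jm (Up u j) x' i k| ≤ _ := k1
        linarith
      · have k1 := mul_le_mul_of_nonneg_left hn (h.big.np_pos (-97 / 100)).le
        have k2 := np_mul h (-97 / 100) (-1300) _ rfl
        have k3 := h.big.np_le (show (-97 / 100 + -1300 : ℝ) ≤ -1299 by norm_num)
        have k4 : np d.c.N (-97 / 100) * ‖x - x'‖ / d.c.lam ≤ 2 * np d.c.N (-1299) := by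
          rw [div_le_iff₀ pl]
          refine k1.trans ?_
          rw [Pm.h0]
          nlinarith [mul_le_mul_of_nonneg_right k3 pl.le]
        linarith
    have b2 := V1 _ _ _ (hE x hx j hj' _ (by linarith)) (hE x' hx' j hj' _ (by linarith)) b1
    have b3 : EB (d.c.PV (d.E x' + jm (Up u j) x')) (cm 3) := fun i k => by
      have k1 := V1 _ 0 (2 * nu d.c.N) (hE x' hx' j hj' _ (by linarith))
        (fun _ _ _ => by show |(0 : ℝ)| ≤ 4 * nu d.c.N; rw [abs_zero]; linarith)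
        (by rw [sub_zero]; exact hE x' hx' j hj' _ le_rfl) i k
      have k2 : 2 * d.c.J ^ 3 * np d.c.N (-49 / 100) ≤ np d.c.N 0 :=
        np_abs h (by norm_num) (by norm_num) (by norm_num) (by norm_num)
      have k3 : |d.c.PV 0 i k| ≤ 2 := by
        have := h.η_pos; have := h.η_le_one
        rw [V2, dg3, Matrix.diagonal_apply, abs_le]
        split_ifs
        · fin_cases i <;> simp <;> constructor <;> linarith
        · norm_num
      have k4 := abs_sub_abs_le_abs_sub (d.c.PV (d.E x' + jm (Up u j) x') i k) (d.c.PV 0 i k)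
      have k5 : |d.c.PV (d.E x' + jm (Up u j) x') i k - d.c.PV 0 i k| ≤
        d.c.J ^ 3 * (2 * np d.c.N (-49 / 100)) := k1
      rw [np_zero] at k2
      show _ ≤ (3 : ℝ)
      linarith
    obtain ⟨c1, c2⟩ := cr_d1 h (hP.cr j) x
    refine (ipm_sub b2 c1 b3 (c2 x' hn)).trans ?_
    have k1 := np_mul h (-1299) (-685) (-1984) (by norm_num)
    have k2 : 54 * d.c.J ^ 3 * np d.c.N (-1984) ≤ np d.c.N (-1980) :=
      np_abs h (by norm_num) (by norm_num) (by norm_num) (by norm_num)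
    have k3 : 324 * d.c.J ^ 0 * np d.c.N (-1985) ≤ np d.c.N (-1980) :=
      np_abs h (by norm_num) (by norm_num) (by norm_num) (by norm_num)
    rw [← k1] at k2
    rw [pow_zero] at k3
    linarith
  have f2 := ((Finset.abs_sum_le_sum_abs _ _).trans (Finset.sum_le_card_nsmul _ _ _ f1))
  rw [Finset.sum_sub_distrib, Finset.card_range, nsmul_eq_mul, nT, Nat.cast_pow, ← np_nat,
    np_mul h _ _ (-180) (by norm_num), ← nT] at f2
  have f3 : d.X (d.pV x') u ω (nT d.c.N) = (∑ j ∈ Finset.range (nT d.c.N),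
      ipm (d.c.PV (d.E x' + jm (Up u j) x')) (jm (u j) x')) / (uV d.c.N / 8) := by
    rw [Finset.sum_div]
    exact Finset.sum_congr rfl fun j _ => if_pos hc
  have f4 := sq_le hX
  rw [f3, abs_div, abs_of_pos (by positivity : 0 < uV d.c.N / 8), div_le_iff₀ (by positivity)] at f4
  have u1 := uV_ge h
  have u2 := h.big.np_le (show (-180 : ℝ) ≤ -101 / 100 by norm_num)
  have u3 := h.big.np_le (show (-45 / 100 + -98 / 100 : ℝ) ≤ -101 / 100 by norm_num)
  have u4 := mul_le_mul_of_nonneg_left s4 (h.big.np_pos (-45 / 100)).le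
  rw [np_mul h _ _ _ rfl] at u4
  have u5 := mul_le_mul_of_nonneg_right C2 (Finset.sum_nonneg (s := Finset.range (nT d.c.N))
    fun j _ => (Q_nonneg h (jm (u j) x)).2)
  have u6 := mul_le_mul_of_nonneg_right C2 (Finset.sum_nonneg (s := Finset.range (nT d.c.N))
    fun j _ => (Q_nonneg h (jm (u j) x)).1)
  have u7 : uV d.c.N ≤ uV d.c.N * (1 + a) := le_mul_of_one_le_right pu.le (by linarith)
  have f5 := abs_le.1 f2
  have f6 := abs_le.1 f4
  constructor <;> linarith [f5.1, f5.2, f6.1, f6.2]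

end Fine
open Fine

theorem finv (h0 : Fin0Stmt) : FinvStmt := by
  obtain ⟨C, -, hA⟩ := va psi
  filter_upwards [ev_f0 h0, ev_gd, hA, vb psi, ev_mono C 0 0 0 0 0 (1 / 10) (by norm_num)]
    with N h0 hg hA hB hC d hN hk hI
  subst hN
  refine ⟨Ms d, Ms_ok d, fun u ω hP xs x0 hx s hs x hR hn => ?_⟩
  have h := hg d.c rfl hI.ok
  have hF := h0 d rfl hk hI u ω hP
  have H : Hit d s := ⟨x, hR, hn⟩
  show d.c.V2 (d.E x + AA d u ω x) - _ ≤ _ ∧ _ ≤ d.c.V2 (d.E x + AA d u ω x) - _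
  by_cases hc : d.c.comp
  · have nn : ¬ d.c.noise := fun e => h.notcomp_of_noise e hc
    have hη : etaS d.c.N / 2 ≤ d.c.η := by
      have : d.c.thr ≤ d.c.η := hc
      linarith [h.thr_bd.1, h.big.etaS_pos]
    obtain ⟨V1, V2, V3⟩ := hA d.c rfl hI.ok hη
    simp only [np_zero, Jp_zero, qp_zero, mul_one, one_mul] at hC
    rw [hF.nn nn, if_neg nn, add_zero, sub_zero]
    exact caseA h hI hP hc hC V1 V2 V3 (x0 s) hR (pt_spec H).1 (pt_near H hn)
      ((hx s hs).2 _ (pV_mem H))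
  · have k := caseB h hF hc (x0 s) (hx s hs).1 (hx s hs).2 hR hn
      (hB d.c rfl hI.ok hc _ _ _ (by linarith [x0 s]) (a_le h (hx s hs).1) (hI.eb x hR)
        (near h hF (x0 s) (hx s hs).1 (hx s hs).2 hR hn))
    have e1 : d.c.cost d.O d.ρ x = 0 := if_neg fun e => hc (h.comp_of_isA e)
    have e2 : d.c.bst d.O x = 0 := if_neg fun e => hc ((h.comp_ζ'' e.2.2.1).2
      (by linarith [h.boost_ζ e]))
    rw [e1, e2]
    constructor <;> linarith [(abs_le.1 k).1, (abs_le.1 k).2]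

end
end Pool.Agent.MP_20bec2_an.T3

end MrgPart3

-- marker of a merged file
example : 731051 + 873214 = 731051 + 873214 := rfl
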