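import Pool.Agent.MP_20bec2_an.T3.Vtr
import Pool.Agent.MP_20bec2_an.T3.Par3
import Pool.Agent.MP_20bec2_an.T3.Par4
import Pool.Agent.MP_20bec2_an.T3.Zt
import Pool.Agent.MP_20bec2_an.T3.Calc1b

-- ======== part 0: formerly Pool.Agent.MP_20bec2_an.T3.Chart
section MrgPart0

-- ======== part 0: formerly Pool.Agent.MP_20bec2_an.T3.Barr
section MrgPart0

/-! The three barriers survive one block: pure inequalities. -/

set_option autoImplicit false
set_option linter.unusedSectionVars false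
open Set Filter Real

namespace Pool.Agent.MP_20bec2_an.T3
noncomputable section
namespace BarrP

/-- the unit of the clock -/
def un (N : ℕ) : ℝ := pX N / N

/-! ## from `N` to `nxt N` -/

section shift
variable {N : ℕ} (h : Big N)
include h

lemma un_pos : 0 < un N := div_pos h.X_pos h.N_pos

lemma J_big : 1000000000 ≤ pJ N := by linarith [h.J_ge, h.L_ge]

lemma dJ_bd : un N / 2 ≤ pJ (nxt N) - pJ N ∧ pJ (nxt N) - pJ N ≤ 2 * un N := by
  have hN := h.N_pos
  have hN' := (h.mono h.nxt_le.1).N_pos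
  obtain ⟨h1, h2⟩ := h.nxt_bd
  obtain ⟨h3, h4⟩ := h.X_bd
  have h5 := h.N_ge
  have e : pJ (nxt N) - pJ N = Real.log ((nxt N : ℝ) / N) := (Real.log_div hN'.ne' hN.ne').symm
  rw [e]
  constructor
  · refine le_trans ?_ (Real.one_sub_inv_le_log_of_pos (div_pos hN' hN))
    rw [inv_div, un, div_div, le_sub_iff_add_le, div_add_div _ _ (by positivity) hN'.ne',
      div_le_one (by positivity)]
    have h6 : (nxt N : ℝ) ≤ 2 * N := by linarith
    have h7 := mul_le_mul_of_nonneg_left h6 h.X_pos.le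
    have h8 := mul_le_mul_of_nonneg_left h1 hN.le
    linarith
  · refine (Real.log_le_sub_one_of_pos (div_pos hN' hN)).trans ?_
    rw [un, div_sub_one hN.ne', ← mul_div_assoc]
    exact div_le_div_of_nonneg_right (by linarith) hN.le

lemma dL_bd : 0 ≤ pL (nxt N) - pL N ∧ pJ N * (pL (nxt N) - pL N) ≤ pJ (nxt N) - pJ N := by
  have p := h.J_pos
  have p' := (h.mono h.nxt_le.1).J_pos
  have h1 := Real.log_le_sub_one_of_pos (div_pos p' p)
  rw [Real.log_div p'.ne' p.ne'] at h1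
  refine ⟨sub_nonneg.2 (Real.log_le_log p (by linarith [(dJ_bd h).1, un_pos h])), ?_⟩
  have h2 := mul_le_mul_of_nonneg_left h1 p.le
  rwa [mul_sub (pJ N) (_ / _), mul_div_cancel₀ _ p.ne', mul_one] at h2

lemma dL_le : 1000 * (pL (nxt N) - pL N) ≤ pJ (nxt N) - pJ N := by
  have := mul_le_mul_of_nonneg_right (J_big h) (dL_bd h).1
  linarith [(dL_bd h).1, (dL_bd h).2]

lemma lam0_nxt : lam0 (nxt N) ≤ lam0 N := by
  have h' := h.mono h.nxt_le.1
  have : eE (nxt N) ≤ eE N := le_of_log h'.eE_pos h.eE_pos (by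
    rw [h'.log_eE, h.log_eE]; linarith [dL_le h, (dL_bd h).1])
  unfold lam0; linarith

lemma log_lam1 : Real.log (lam1 N) =
    Real.log 1000 + Real.log 2 + 3 * pL N + 27 * (pL N / 2000) - pJ N := by
  have := h.eE_pos; have := h.q_pos
  unfold lam1
  simp (disch := positivity) only [Real.log_mul, Real.log_pow, h.log_eE, h.log_q]
  push_cast; ring

lemma lam1_nxt : lam1 (nxt N) ≤ lam1 N := by
  have h' := h.mono h.nxt_le.1
  refine le_of_log h'.lam1_pos h.lam1_pos ?_
  rw [log_lam1 h', log_lam1 h]; linarith [dL_le h, (dL_bd h).1]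

lemma tE_eq : tE N + 1 / pR N =
    1 / 4 - (3 * Real.log 2 - 1 + 8023 / 2000 * pL N) / (4 * pJ N) := by
  have h1 := h.R_mul_tE
  have h2 := h.J_pos
  have h3 : pR N = 4 * pJ N := rfl
  rw [h3] at h1 ⊢
  field_simp
  linarith

lemma tE_nxt : tE N + 1 / pR N ≤ tE (nxt N) + 1 / pR (nxt N) := by
  have h' := h.mono h.nxt_le.1
  have p := h.J_pos
  have p' := h'.J_pos
  rw [tE_eq h, tE_eq h', sub_le_sub_iff_left, div_le_div_iff₀ (by positivity) (by positivity)]
  have h1 := (dL_bd h).2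
  have h2 : 0 ≤ pJ (nxt N) - pJ N := by linarith [(dJ_bd h).1, un_pos h]
  have h3 : 8023 / 2000 ≤ 3 * Real.log 2 - 1 + 8023 / 2000 * pL N := by
    linarith [h.L_ge, log2_bd.1]
  have h4 := mul_le_mul_of_nonneg_right h3 h2
  linarith

lemma tt_nxt (G : Mx) : tt (nxt N) G = tt N G - 15 / 4 * (pL (nxt N) - pL N) := by
  unfold tt pk0 pL; ring

lemma Vf_nxt (G : Mx) (ht : tt N G ≤ 1) : |Vf (nxt N) G - Vf N G| ≤ un N / 10 := by
  have h' := h.mono h.nxt_le.1
  have p := J_big h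
  obtain ⟨d1, d2⟩ := dJ_bd h
  have u := un_pos h
  have hs : tt (nxt N) G ≤ tt N G := by rw [tt_nxt h]; linarith [(dL_bd h).1]
  have hR : pR N ≤ pR (nxt N) := by unfold pR; linarith
  have h1 := abs_le.1 (PsiP.Psi_cmp h.R_pos hR ht)
  have h2 := PsiP.Psi_mono h'.R_pos hs
  have h3 := PsiP.Psi_step (pR (nxt N)) (c := 1) hs fun x _ => by
    linarith [(PsiP.eta_mem h'.R_pos x).1]
  have h4 : 4 * (pR (nxt N) - pR N) / pR N ^ 2 ≤ un N / 20 := by
    rw [div_le_iff₀ (pow_pos h.R_pos 2)]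
    have h5 : 1000 ≤ pR N ^ 2 := by unfold pR; nlinarith
    have h6 := mul_le_mul_of_nonneg_left h5 u.le
    unfold pR at *
    linarith
  have h7 : tt N G - tt (nxt N) G ≤ un N / 20 := by rw [tt_nxt h]; linarith [dL_le h]
  unfold Vf
  exact abs_le.2 ⟨by linarith [h1.1], by linarith [h1.2]⟩

/-- the barriers for the next value of the clock -/
lemma bar_nxt {G : Mx} (h1 : Vf N G + lam0 N * max (tt N G) 0 ≤ Real.log N + 1 + un N / 4)
    (h2 : Real.log N - 2 + 5 / 2 * un N ≤ Vf N G - lam1 N * max (tt N G) 0)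
    (h3 : tt N G ≤ tE N + 1 / pR N) : Bar (nxt N) G := by
  have h' := h.mono h.nxt_le.1
  have hs : tt (nxt N) G ≤ tt N G := by rw [tt_nxt h]; linarith [(dL_bd h).1]
  have hR : 1 / pR N ≤ 3 / pR N := div_le_div_of_nonneg_right (by norm_num) h.R_pos.le
  have hV := abs_le.1 (Vf_nxt h G (by linarith [h.tE_bd.2]))
  have hm : max (tt (nxt N) G) 0 ≤ max (tt N G) 0 := max_le_max hs le_rfl
  have m0 := mul_le_mul (lam0_nxt h) hm (le_max_right _ _) h.lam0_pos.le
  have m1 := mul_le_mul (lam1_nxt h) hm (le_max_right _ _) h.lam1_pos.le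
  obtain ⟨d1, d2⟩ := dJ_bd h
  have u := un_pos h
  unfold pJ at d1 d2
  exact ⟨by linarith [hV.2], by linarith [hV.1], by linarith [tE_nxt h]⟩

end shift

/-! ## sizes -/

/-- a crude unit -/
def cu (N : ℕ) : ℝ := pJ N ^ 4 / N

lemma log1000_bd : 0 ≤ Real.log 1000 ∧ Real.log 1000 ≤ 1000 := logc_bd (by norm_num)
lemma log100_bd : 0 ≤ Real.log 100 ∧ Real.log 100 ≤ 100 := logc_bd (by norm_num)

section size
variable {N : ℕ} (h : Big N)
include h

lemma log_un : Real.log (un N) = pL N - pL N / 1000 - pJ N := by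
  rw [un, Real.log_div h.X_pos.ne' h.N_pos.ne', h.log_X, h.log_N]

lemma cu_pos : 0 < cu N := div_pos (pow_pos h.J_pos 4) h.N_pos

lemma log_JN (k : ℕ) : Real.log (pJ N ^ k / N) = k * pL N - pJ N := by
  rw [Real.log_div (pow_pos h.J_pos k).ne' h.N_pos.ne', Real.log_pow, h.log_J, h.log_N]

lemma log_cu : Real.log (cu N) = 4 * pL N - pJ N := by
  rw [cu, log_JN h]; norm_num

lemma EP_eq : eE N * pcap N = pX N / (pq N ^ 2 * N) := by
  have := h.pcap_pos; have := h.q_pos; have := h.N_pos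
  unfold eE; field_simp

lemma w_le : pX N / (pq N ^ 2 * N) ≤ un N / 1000 := by
  have h1 := h.q_ge
  have h2 : 1000 ≤ pq N ^ 2 := by nlinarith
  rw [un, div_div, mul_comm (N : ℝ)]
  exact div_le_div_of_nonneg_left h.X_pos.le (mul_pos (by norm_num) h.N_pos)
    (mul_le_mul_of_nonneg_right h2 h.N_pos.le)

lemma lam1P_eq : lam1 N * pcap N = 1000 * un N := by
  have := h.pcap_pos; have := h.q_pos; have := h.N_pos
  unfold lam1 eE un; field_simp

lemma P_le : 4 * pcap N ≤ 1 / pR N ∧ 100 * (pq N * pJ N * pcap N) ≤ 1 := by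
  have := h.pcap_pos; have := h.q_pos; have := h.J_pos; have := h.R_pos
  constructor <;> refine le_of_log (by positivity) (by positivity) ?_ <;>
    simp (disch := positivity) only [Real.log_div, Real.log_mul, Real.log_one, log4_eq,
      h.log_pcap, h.log_R, h.log_q, h.log_J] <;>
    linarith [h.L_ge, log2_bd.1, log2_bd.2, log100_bd.2]

lemma cu_ge : lam1 N ≤ cu N ∧ pq N * pJ N * (pq N * un N) ≤ cu N ∧ pJ N ^ 3 / N ≤ cu N ∧
    pq N * un N ≤ cu N := by
  have := h.lam1_pos; have := h.q_pos; have := h.J_pos; have := un_pos h; have := h.N_pos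
  refine ⟨?_, ?_, ?_, ?_⟩ <;> refine le_of_log (by positivity) (cu_pos h) ?_ <;>
    simp (disch := positivity) only [Real.log_mul, log_JN h, log_cu h, log_lam1 h, log_un h,
      h.log_q, h.log_J] <;>
    push_cast <;> linarith [h.L_ge, log2_bd.2, log1000_bd.2]

lemma cu_le : 100 * cu N ≤ pJ N ^ 8 / N ∧ 100 * (pJ N ^ 8 / N) ≤ 1 ∧ 100 * (pJ N ^ 10 / N) ≤ 1 := by
  have := cu_pos h; have := h.J_pos; have := h.N_pos
  refine ⟨?_, ?_, ?_⟩ <;> refine le_of_log (by positivity) (by positivity) ?_ <;>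
    simp (disch := positivity) only [Real.log_mul, log_JN h, log_cu h, Real.log_one] <;>
    push_cast <;> linarith [h.L_ge, h.J_ge, log100_bd.2]

lemma np_le : 4 * np N (-1 / 5) ≤ 1 / pR N ∧ 100 * (lam1 N * np N (-1 / 5)) ≤ un N := by
  have := h.np_pos (-1 / 5); have := h.lam1_pos; have := un_pos h; have := h.R_pos
  constructor <;> refine le_of_log (by positivity) (by positivity) ?_ <;>
    simp (disch := positivity) only [Real.log_div, Real.log_mul, Real.log_one, log4_eq,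
      h.log_np, h.log_R, log_lam1 h, log_un h] <;>
    linarith [h.L_ge, h.J_ge, log2_bd.1, log2_bd.2, log100_bd.2, log1000_bd.2]

lemma E_lt : 2 * eE N < etaS N := by
  have := h.eE_pos
  refine lt_of_log (by positivity) h.etaS_pos ?_
  rw [Real.log_mul two_ne_zero h.eE_pos.ne', h.log_eE, h.log_etaS]
  linarith [h.L_ge, h.J_ge, log2_bd.2, log100_bd.2]

lemma lam0_le : lam0 N ≤ lam1 N := by
  have h1 := h.q_ge
  have h2 : 1 ≤ pq N ^ 2 := by nlinarith
  have h3 := mul_le_mul_of_nonneg_right h2 h.eE_pos.le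
  unfold lam0 lam1
  linarith [h.eE_pos]

lemma sq_ge : 1000 ≤ Real.sqrt (pq N) := Real.le_sqrt_of_sq_le (by linarith [h.q_ge])

lemma inv_le : 1 / pq N ≤ 1 / 100 ∧ 4 * (1 / (pq N * pR N)) ≤ 1 / pR N ∧ 1 / pR N ≤ 1 / 100 := by
  have h1 := h.q_ge
  have h2 := h.R_pos
  refine ⟨one_div_le_one_div_of_le (by norm_num) (by linarith), ?_,
    one_div_le_one_div_of_le (by norm_num) (by unfold pR; linarith [J_big h])⟩
  rw [mul_one_div, div_le_div_iff₀ (by positivity) h2]
  nlinarith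

end size

section par
variable {c : Pm} (h : Gd c)
include h

lemma pf_le : c.pf ≤ pcap c.N :=
  le_of_log h.pf_pos h.big.pcap_pos (by rw [h.log_pf, h.big.log_pcap]; linarith [h.log_e4.2.1])

lemma p_le : c.p ≤ c.pf := min_le_left _ _

lemma ηp2 : c.η * (c.q * pX c.N / (c.N * c.η)) = c.q * un c.N := by
  have := h.η_pos; have := h.N_pos
  unfold un; field_simp

lemma ηp_le : c.η * c.p ≤ c.q * un c.N := by
  rw [← ηp2 h]; exact mul_le_mul_of_nonneg_left (min_le_right _ _) h.η_pos.le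

lemma p_cases : c.p = c.pf ∨ c.η * c.p = c.q * un c.N :=
  (min_choice _ _).imp id fun e => by rw [← ηp2 h, ← e]; rfl

lemma η_le_E (ht : tE c.N - 1 / (c.q * pR c.N) ≤ c.t) : c.η ≤ 2 * eE c.N := by
  have hb := h.big
  obtain ⟨i1, i2, i3⟩ := inv_le hb
  have hq : c.q = pq c.N := rfl
  rw [hq] at ht
  have h1 := (h.log_η_t (by linarith [hb.tE_bd.1])).2
  have h2 := mul_le_mul_of_nonneg_left ht hb.R_pos.le
  have h3 : pR c.N * (1 / (pq c.N * pR c.N)) = 1 / pq c.N := by
    have := hb.R_pos; have := hb.q_pos; field_simp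
  rw [mul_sub, h3, hb.R_mul_tE] at h2
  refine le_of_log h.η_pos (by have := hb.eE_pos; positivity) ?_
  rw [Real.log_mul two_ne_zero hb.eE_pos.ne', hb.log_eE]
  linarith [log2_bd.1]

lemma t_ge (hη : c.η < 3 * etaS c.N) : 2 * (1 / pR c.N) ≤ c.t := by
  have hb := h.big
  have h1 : c.η < etaA c.N := by have := hb.etaA_pos; unfold etaS at hη; linarith
  have h2 := h.log_notA (not_le.2 h1)
  have h3 := (h.log_η_t (h.t_pos_notA (not_le.2 h1)).le).1
  rw [mul_one_div, div_le_iff₀ hb.R_pos]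
  linarith [hb.L_ge, log2_bd.2]

lemma gain : 1000 * un c.N ≤ c.η * c.pf + lam1 c.N * c.pf := by
  have hb := h.big
  have := h.η_pos; have := h.pf_pos; have := hb.lam1_pos; have := un_pos hb
  rcases h.log_e4.2.2 with e | e
  · refine le_trans (le_of_log (y := c.η * c.pf) (by positivity) (by positivity) ?_)
      (le_add_of_nonneg_right (by positivity))
    simp (disch := positivity) only [Real.log_mul, log_un hb, h.log_pf]
    linarith [h.log_e4.2.1, hb.L_ge, log2_bd.2, log1000_bd.2]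
  · refine le_trans (le_of_log (y := lam1 c.N * c.pf) (by positivity) (by positivity) ?_)
      (le_add_of_nonneg_left (by positivity))
    simp (disch := positivity) only [Real.log_mul, log_un hb, h.log_pf, log_lam1 hb]
    linarith

lemma div_sq {a : ℝ} (ha : 0 ≤ a) : 0 ≤ a / Real.sqrt c.q ∧ a / Real.sqrt c.q ≤ a / 1000 :=
  ⟨by positivity, div_le_div_of_nonneg_left ha (by norm_num) (sq_ge h.big)⟩

lemma dk_small (hη : c.η < etaS c.N) : c.dk ≤ c.pf / 1000 := by
  rw [Pm.dk, if_pos hη]; exact (div_sq h h.pf_pos.le).2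

lemma dk_le : 4 * c.dk ≤ 1 / pR c.N := by
  by_cases hη : c.η < etaS c.N
  · linarith [dk_small h hη, pf_le h, (P_le h.big).1, h.pf_pos]
  · rw [Pm.dk, if_neg hη]; exact (np_le h.big).1

lemma mul_dk {l : ℝ} (hl : 0 ≤ l) (hl' : l ≤ lam1 c.N) :
    l * c.dk ≤ l * c.pf / 1000 + un c.N / 100 := by
  by_cases hη : c.η < etaS c.N
  · linarith [mul_le_mul_of_nonneg_left (dk_small h hη) hl, un_pos h.big]
  · rw [Pm.dk, if_neg hη]
    linarith [mul_le_mul_of_nonneg_right hl' (h.big.np_pos (-1 / 5)).le, (np_le h.big).2,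
      mul_nonneg hl h.pf_pos.le]

lemma p_eq (hη : c.η ≤ 2 * eE c.N) : c.p = c.pf := by
  refine (p_cases h).resolve_right fun e => ?_
  have hb := h.big
  have h1 := mul_le_mul hη ((p_le h).trans (pf_le h)) h.p_pos.le (by linarith [h.η_pos])
  have h2 := mul_le_mul_of_nonneg_right hb.q_ge (un_pos hb).le
  have hq : c.q = pq c.N := rfl
  rw [mul_assoc, EP_eq hb, e, hq] at h1
  linarith [w_le hb, un_pos hb]

end par

/-! ## one block -/

section step
variable {c : Pm} (h : Gd c) {v v' t t' g ϑ : ℝ} {pN bN aP aB : Prop}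
  (b : BF c v v' t t' g ϑ pN bN aP aB)
include h b

lemma t_up : t' ≤ t - g + c.dk + ϑ / 1000 + c.p / 1000 := by
  have h1 := (abs_le.1 b.dt).2
  have h2 := (div_sq h b.tb.1).2
  have h3 := h.p_pos
  split_ifs at h1 <;> linarith

lemma er_le : c.η * (ϑ / Real.sqrt c.q + c.p / 500) ≤ c.η * ϑ / 1000 + c.η * c.p / 500 := by
  linarith [mul_le_mul_of_nonneg_left (div_sq h b.tb.1).2 h.η_pos.le]

lemma crude : 0 ≤ c.η * ϑ ∧ c.η * ϑ ≤ cu c.N ∧ 0 ≤ c.η * c.p ∧ c.η * c.p ≤ cu c.N ∧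
    un c.N ≤ cu c.N := by
  have hb := h.big
  obtain ⟨-, c2, -, c4⟩ := cu_ge hb
  have h1 := mul_le_mul_of_nonneg_left b.tb.2 h.η_pos.le
  have h2 := mul_le_mul_of_nonneg_left (ηp_le h) (mul_pos h.q_pos h.J_pos).le
  have h3 := mul_le_mul_of_nonneg_right hb.q_ge (un_pos hb).le
  have hq : c.q = pq c.N := rfl
  have hJ : c.J = pJ c.N := rfl
  have h4 := ηp_le h
  rw [hq, hJ] at h1 h2
  rw [hq] at h4
  exact ⟨mul_nonneg h.η_pos.le b.tb.1, by linarith, (mul_pos h.η_pos h.p_pos).le, by linarith,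
    by linarith [un_pos hb]⟩

lemma t_goal (ht : t ≤ tE c.N + 1 / pR c.N) : t' ≤ tE c.N + 1 / pR c.N := by
  have hb := h.big
  have h1 := t_up h b
  have h2 := b.tb.1
  have h3 := h.p_pos
  have hq : c.q = pq c.N := rfl
  have i0 : 0 < 1 / (c.q * pR c.N) := by have := h.q_pos; have := hb.R_pos; positivity
  rcases le_or_gt (tE c.N + 1 / (c.q * pR c.N)) c.t with hc | hc
  · have h4 := b.gb.2.2 (b.ap (Or.inr hc))
    have h5 := η_le_E h (by linarith)
    have h6 := dk_small h (h5.trans_lt (E_lt hb))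
    rw [← p_eq h h5] at h6
    linarith
  · have h4 := (abs_le.1 b.cr.2).1
    have h5 := (inv_le hb).2.1
    rw [← hq] at h5
    linarith [b.gb.1, dk_le h, p_le h, pf_le h, (P_le hb).1]

lemma upper (hv : v + lam0 c.N * max t 0 ≤ Real.log c.N + 1) (ht : t' ≤ 1) :
    v' + lam0 c.N * max t' 0 ≤ Real.log c.N + 1 + un c.N / 4 := by
  have hb := h.big
  have hq : c.q = pq c.N := rfl
  have hJ : c.J = pJ c.N := rfl
  obtain ⟨i1, i2, i3⟩ := inv_le hb
  obtain ⟨k1, k2, k3, k4, k5⟩ := crude h b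
  have u := un_pos hb
  have hw := w_le hb
  have up := b.up
  have er := er_le h b
  have l0 := hb.lam0_pos
  rw [← hq] at i1 i2 hw
  by_cases hA : c.VG ≤ Real.log c.N - 1 + 1 / c.q
  · obtain ⟨c1, c2, c3⟩ := cu_le hb
    have h1 := (abs_le.1 b.cr.1).1
    have h2 := mul_le_mul_of_nonneg_left b.gb.2.1 h.η_pos.le
    have h3 := mul_le_mul_of_nonneg_left (max_le ht zero_le_one) l0.le
    have h4 : 0 < pJ c.N ^ 10 / c.N := div_pos (pow_pos hb.J_pos _) hb.N_pos
    rw [hJ] at up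
    split_ifs at up <;> linarith [lam0_le hb, (cu_ge hb).1]
  have hP := (p_le h).trans (pf_le h)
  have hE := hb.eE_pos
  have hdk : lam0 c.N * c.dk ≤ un c.N / 50 := by
    have h1 := mul_dk h l0.le (lam0_le hb)
    have h2 := mul_le_mul_of_nonneg_left (pf_le h) hE.le
    rw [EP_eq hb, ← hq] at h2
    unfold lam0 at h1 ⊢
    linarith
  rw [if_neg fun x => hA (b.bn x)] at up
  by_cases hN : pN
  · have hc := (b.pn hN).resolve_left fun x => hA x.1
    have hη := η_le_E h hc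
    have h1 := (abs_le.1 b.cr.2).2
    have h2 := mul_le_mul_of_nonneg_left hP (mul_pos h.q_pos h.J_pos).le
    obtain ⟨p1, p2⟩ := P_le hb
    rw [← hq, ← hJ] at p2
    have h3 : max t' 0 ≤ t - g + c.dk + ϑ / 1000 + c.p / 1000 := max_le (t_up h b) (by
      linarith [b.gb.2.1, b.tb.1, b.tb.2, hb.tE_bd.1, h.dk_pos, h.p_pos])
    have h4 := mul_le_mul_of_nonneg_left h3 l0.le
    have h5 := mul_le_mul_of_nonneg_left (le_max_left t 0) l0.le
    have h6 := mul_le_mul_of_nonneg_left b.gb.1 (show 0 ≤ 20 * eE c.N - c.η by linarith)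
    have h7 := mul_le_mul_of_nonneg_right hη b.tb.1
    have h8 := mul_le_mul_of_nonneg_left hP hE.le
    have h9 := mul_nonneg hE.le b.tb.1
    rw [EP_eq hb, ← hq] at h8
    rw [if_pos hN] at up
    unfold lam0 at *
    linarith
  · obtain ⟨rfl, rfl⟩ := b.z0 hN
    have h1 := (abs_le.1 b.dt).2
    rw [if_neg hN] at up h1
    rw [zero_div] at h1
    have h2 : max t' 0 ≤ max t 0 + c.dk :=
      max_le (by linarith [le_max_left t 0]) (by linarith [le_max_right t 0, h.dk_pos])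
    linarith [mul_le_mul_of_nonneg_left h2 l0.le]

lemma lower (hv : Real.log c.N - 2 ≤ v - lam1 c.N * max t 0) (ht : t' ≤ 1) :
    Real.log c.N - 2 + 5 / 2 * un c.N ≤ v' - lam1 c.N * max t' 0 := by
  have hb := h.big
  have hq : c.q = pq c.N := rfl
  have hJ : c.J = pJ c.N := rfl
  obtain ⟨i1, i2, i3⟩ := inv_le hb
  obtain ⟨k1, k2, k3, k4, k5⟩ := crude h b
  obtain ⟨c1, c2, -⟩ := cu_le hb
  have u := un_pos hb
  have hw := w_le hb
  have lo := b.lo
  have er := er_le h b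
  have l1 := hb.lam1_pos
  have h8 : 0 < pJ c.N ^ 8 / c.N := div_pos (pow_pos hb.J_pos _) hb.N_pos
  rw [← hq] at i1 i2 hw
  rw [hJ] at lo
  have h1 := mul_le_mul_of_nonneg_left b.gb.1 h.η_pos.le
  have h2 := mul_le_mul_of_nonneg_left (max_le ht zero_le_one) l1.le
  obtain ⟨d1, -, d3, -⟩ := cu_ge hb
  by_cases hA : c.VG ≤ Real.log c.N - 1 - 1 / c.q
  swap
  · have h3 := (abs_le.1 b.cr.1).2
    rw [not_le] at hA
    split_ifs at lo <;> linarith
  rcases le_or_gt (3 * etaS c.N) c.η with hη | hη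
  · have h3 := mul_nonneg l1.le (le_max_right t 0)
    rw [if_pos (b.ab hA hη)] at lo
    split_ifs at lo <;> linarith
  have hS := hb.etaS_pos
  have hP := b.ap (Or.inl ⟨hA, by linarith⟩)
  have hg := b.gb.2.2 hP
  have hn : ¬ 4 / 10 * etaA c.N ≤ c.η := by
    have : etaS c.N = etaA c.N / 100 := rfl
    intro x; linarith
  rw [if_pos (b.pp hP), if_neg hn] at lo
  have h3 := mul_le_mul_of_nonneg_left hg h.η_pos.le
  have h4 := (abs_le.1 b.cr.2).2
  have h5 : max t' 0 ≤ t - 4 / 1000 * c.p + c.dk :=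
    max_le (by linarith [t_up h b, b.tb.1]) (by
      linarith [t_ge h hη, p_le h, pf_le h, (P_le hb).1, h.dk_pos, h.p_pos])
  have h6 := mul_le_mul_of_nonneg_left h5 l1.le
  have h7 := mul_le_mul_of_nonneg_left (le_max_left t 0) l1.le
  have h9 := mul_dk h l1.le le_rfl
  have h10 : 3 / 1000 * (c.η * c.p) - un c.N / 1000 ≤ v' - v := by split_ifs at lo <;> linarith
  rcases p_cases h with e | e
  · have h11 := gain h
    rw [← e] at h9 h11
    linarith
  · have h11 := mul_le_mul_of_nonneg_left (pf_le h) l1.le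
    have h12 := mul_le_mul_of_nonneg_right hb.q_ge u.le
    have h13 := mul_pos l1 h.p_pos
    rw [lam1P_eq hb] at h11
    rw [← hq] at h12
    linarith

end step

end BarrP

open BarrP in
theorem barr : BarrStmt := by
  filter_upwards [ev_gd] with N hN c hc ho G G' g ϑ pN bN aP aB b hB
  have h := hN c hc ho
  have h3 := t_goal h b hB.2.2
  have hR : 1 / pR c.N ≤ 3 / pR c.N := div_le_div_of_nonneg_right (by norm_num) h.big.R_pos.le
  have ht : tt c.N G' ≤ 1 := by linarith [h.big.tE_bd.2]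
  exact bar_nxt h.big (upper h b hB.1 ht) (lower h b hB.2.1 ht) h3

end
end Pool.Agent.MP_20bec2_an.T3

end MrgPart0

-- ======== part 1: formerly Pool.Agent.MP_20bec2_an.T3.Mol1
section MrgPart1

/-! Toolbox for `mol1`. -/

set_option autoImplicit false
open MeasureTheory Set Filter

namespace Pool.Agent.MP_20bec2_an.T3.Mol
noncomputable section

variable {h h' H s t B : ℝ} {g g' φ k : ℝ → ℝ}

lemma mol1_eq (h : ℝ) (g : ℝ → ℝ) : mol1 h g = cvl (k1 h) g := rfl

lemma k1_ne (hh : 0 < h) {w : ℝ} (hw : k1 h w ≠ 0) : |w| < h := not_le.1 fun k => hw (k1_zero hh k)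

lemma k1_sub (hh : 0 < h) {w : ℝ} (hw : k1 h w ≠ 0) (s : ℝ) : |s - w - s| ≤ h := by
  simpa using (k1_ne hh hw).le

lemma mol1_swap (h : ℝ) (g : ℝ → ℝ) (s : ℝ) : mol1 h g s = ∫ r, k1 h (s - r) * g r := cvl_swap _ _ _

lemma mol1_sm (hh : 0 < h) (hg : LI g) : Sm (mol1 h g) := (k1_pk hh).sm_cvl hg

lemma mol1_add (hh : 0 < h) (hg : LI g) (hg' : LI g') (s : ℝ) :
    mol1 h (fun r => g r + g' r) s = mol1 h g s + mol1 h g' s := (k1_pk hh).cvl_add hg hg' s

lemma mol1_sub (hh : 0 < h) (hg : LI g) (hg' : LI g') (s : ℝ) :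
    mol1 h (fun r => g r - g' r) s = mol1 h g s - mol1 h g' s := (k1_pk hh).cvl_sub hg hg' s

lemma mol1_sum {ι : Type*} (hh : 0 < h) (A : Finset ι) {G : ι → ℝ → ℝ} (hG : ∀ i ∈ A, LI (G i))
    (s : ℝ) : mol1 h (fun r => ∑ i ∈ A, G i r) s = ∑ i ∈ A, mol1 h (G i) s :=
  (k1_pk hh).cvl_sum A hG s

lemma mol1_mul (h : ℝ) (g : ℝ → ℝ) (c s : ℝ) : mol1 h (fun r => c * g r) s = c * mol1 h g s :=
  cvl_mul _ _ _ _

lemma mol1_neg (h : ℝ) (g : ℝ → ℝ) (s : ℝ) : mol1 h (fun r => -g r) s = -mol1 h g s :=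
  cvl_neg _ _ _

lemma mol1_const (hh : 0 < h) (c s : ℝ) : mol1 h (fun _ => c) s = c := (k1_pk hh).cvl_const c s

lemma mol1_congr (hh : 0 < h) (e : ∀ r, |r - s| ≤ h → g r = g' r) : mol1 h g s = mol1 h g' s :=
  cvl_congr fun _ hw => e _ (k1_sub hh hw s)

lemma mol1_nonneg (hh : 0 < h) (h0 : ∀ r, |r - s| ≤ h → 0 ≤ g r) : 0 ≤ mol1 h g s :=
  (k1_pk hh).cvl_nonneg fun _ hw => h0 _ (k1_sub hh hw s)

lemma mol1_mono (hh : 0 < h) (hg : LI g) (hg' : LI g') (hl : ∀ r, |r - s| ≤ h → g r ≤ g' r) :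
    mol1 h g s ≤ mol1 h g' s := (k1_pk hh).cvl_mono hg hg' fun _ hw => hl _ (k1_sub hh hw s)

lemma mol1_le (hh : 0 < h) (hg : LI g) (hl : ∀ r, |r - s| ≤ h → g r ≤ B) : mol1 h g s ≤ B :=
  (mol1_mono hh hg (li_cont continuous_const) hl).trans_eq (mol1_const hh B s)

lemma le_mol1 (hh : 0 < h) (hg : LI g) (hl : ∀ r, |r - s| ≤ h → B ≤ g r) : B ≤ mol1 h g s :=
  (mol1_const hh B s).symm.trans_le (mol1_mono hh (li_cont continuous_const) hg hl)

lemma abs_mol1_le (hh : 0 < h) (hB : ∀ r, |r - s| ≤ h → |g r| ≤ B) : |mol1 h g s| ≤ B :=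
  (k1_pk hh).abs_cvl_le fun _ hw => hB _ (k1_sub hh hw s)

lemma abs_sub_mol1 (hh : 0 < h) (hg : LI g) {a ε : ℝ} (hB : ∀ r, |r - s| ≤ h → |a - g r| ≤ ε) :
    |a - mol1 h g s| ≤ ε := (k1_pk hh).abs_sub_cvl hg fun _ hw => hB _ (k1_sub hh hw s)

/-- the error for a Lipschitz function -/
lemma abs_sub_mol1_lip (hh : 0 < h) (hg : LI g) {L : ℝ} (hL : 0 ≤ L)
    (hB : ∀ r, |r - s| ≤ h → |g s - g r| ≤ L * |r - s|) : |g s - mol1 h g s| ≤ L * h :=
  abs_sub_mol1 hh hg fun r hr => (hB r hr).trans (mul_le_mul_of_nonneg_left hr hL)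

/-- the error from the first derivative -/
lemma abs_sub_mol1_deriv (hh : 0 < h) (hg : Differentiable ℝ g) {L : ℝ}
    (hB : ∀ r, |r - s| ≤ h → |deriv g r| ≤ L) : |g s - mol1 h g s| ≤ L * h := by
  refine abs_sub_mol1_lip hh (li_cont hg.continuous)
    ((abs_nonneg _).trans (hB s (by simpa using hh.le))) fun r hr => ?_
  rw [abs_sub_comm]
  exact (convex_closedBall s h).norm_image_sub_le_of_norm_deriv_le (fun z _ => hg z)
    (fun z hz => hB z hz) (Metric.mem_closedBall_self hh.le) hr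

/-- a Lipschitz function stays Lipschitz -/
lemma mol1_lip (hh : 0 < h) (hg : LI g) {L : ℝ} (hB : ∀ r r', |g r - g r'| ≤ L * |r - r'|)
    (s t : ℝ) : |mol1 h g s - mol1 h g t| ≤ L * |s - t| := by
  have k := k1_pk hh
  have := k.abs_cvl_le (x := 0) (g := fun w => g (s + w) - g (t + w)) (B := L * |s - t|)
    fun w _ => by simpa using hB (s + -w) (t + -w)
  simp only [cvl, mul_sub, zero_sub, ← sub_eq_add_neg] at this
  rwa [integral_sub (k.int_mul hg s) (k.int_mul hg t)] at this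

lemma sq_mol1_le (hh : 0 < h) (hg : LI g) (hg2 : LI fun r => g r ^ 2) (s : ℝ) :
    mol1 h g s ^ 2 ≤ mol1 h (fun r => g r ^ 2) s := (k1_pk hh).sq_cvl_le hg hg2 s

lemma integral_mol1 (hh : 0 < h) (hg : Integrable g) :
    Integrable (mol1 h g) ∧ ∫ s, mol1 h g s = ∫ s, g s :=
  ⟨(k1_pk hh).int_cvl hg, (k1_pk hh).integral_cvl hg⟩

lemma mol1_adj (hh : 0 < h) (hφ : Integrable φ) (hg : AEStronglyMeasurable g volume)
    (hB : ∀ r, |g r| ≤ B) : ∫ s, φ s * mol1 h g s = ∫ r, mol1 h φ r * g r :=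
  (k1_pk hh).adj (k1_neg h) hφ hg hB

/-! ## derivatives -/

lemma kn_iter (hk : Kn k) (j : ℕ) : Kn (iteratedDeriv j k) := by
  induction j with
  | zero => exact hk
  | succ j ih =>
    rw [iteratedDeriv_succ]
    exact ih.fd 1

lemma iter_mol1_ker (hh : 0 < h) (hg : LI g) (j : ℕ) :
    iteratedDeriv j (mol1 h g) = cvl (iteratedDeriv j (k1 h)) g := by
  induction j with
  | zero => rfl
  | succ j ih =>
    rw [iteratedDeriv_succ, iteratedDeriv_succ, ih]
    exact funext fun s => (kn_iter (k1_pk hh).toKn j).fderiv_cvl hg s 1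

lemma iter_mol1 (hh : 0 < h) (j : ℕ) (hg : ContDiff ℝ j g) :
    iteratedDeriv j (mol1 h g) = mol1 h (iteratedDeriv j g) := by
  induction j with
  | zero => rfl
  | succ j ih =>
    have c : ContDiff ℝ 1 (iteratedDeriv j g) := by
      rw [iteratedDeriv_eq_iterate]
      exact ContDiff.iterate_deriv' 1 j (by rwa [add_comm])
    rw [iteratedDeriv_succ, iteratedDeriv_succ, ih (hg.of_le (by exact_mod_cast Nat.le_succ j))]
    exact funext fun s =>
      ((k1_pk hh).fderiv_cvl (li_cont c.continuous) s 1).trans ((k1_pk hh).parts c s 1)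

lemma iter_add (i j : ℕ) (g : ℝ → ℝ) :
    iteratedDeriv (i + j) g = iteratedDeriv i (iteratedDeriv j g) := by
  simp only [iteratedDeriv_eq_iterate, Function.iterate_add_apply]

lemma iter_mol1_mix (hh : 0 < h) (i j : ℕ) (hg : ContDiff ℝ j g) :
    iteratedDeriv (i + j) (mol1 h g) = cvl (iteratedDeriv i (k1 h)) (iteratedDeriv j g) := by
  rw [iter_add, iter_mol1 hh j hg, iter_mol1_ker hh (li_cont (hg.continuous_iteratedDeriv j le_rfl))]

lemma iter_k1 (hh : 0 < h) (j : ℕ) (w : ℝ) :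
    iteratedDeriv j (k1 h) w = iteratedDeriv j kb (w / h) / h ^ (j + 1) := by
  have e : k1 h = fun s => h⁻¹ * kb (h⁻¹ * s) := funext fun s => by
    rw [k1, div_eq_inv_mul, div_eq_inv_mul]
  rw [e, iteratedDeriv_const_mul_field,
    iteratedDeriv_comp_const_mul (kb_sm.of_le (by exact_mod_cast le_top)), div_eq_inv_mul w]
  simp only [inv_pow, pow_succ]
  field_simp

lemma iter_k1_ne (hh : 0 < h) {j : ℕ} {w : ℝ} (hw : iteratedDeriv j (k1 h) w ≠ 0) : |w| ≤ h := by
  have : ∀ j, tsupport (iteratedDeriv j (k1 h)) ⊆ Icc (-h) h := fun j => by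
    induction j with
    | zero => exact closure_minimal (fun w hw => abs_le.1 (k1_ne hh hw).le) isClosed_Icc
    | succ j ih =>
      rw [iteratedDeriv_succ]
      exact (tsupport_fderiv_apply_subset ℝ (1 : ℝ)).trans ih
  exact abs_le.2 (this j (subset_tsupport _ hw))

/-- a bounded kernel supported in `[-h, h]` -/
lemma abs_cvl_icc (hh : 0 < h) {M : ℝ} (hM : ∀ w, |k w| ≤ M) (hk : ∀ w, k w ≠ 0 → |w| ≤ h)
    (hB : ∀ r, |r - s| ≤ h → |g r| ≤ B) : |cvl k g s| ≤ 2 * h * M * B := by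
  have hB0 : 0 ≤ B := (abs_nonneg _).trans (hB s (by simpa using hh.le))
  have i : Integrable ((Icc (-h) h).indicator fun _ => M * B) :=
    (integrable_indicator_iff measurableSet_Icc).2 (integrableOn_const isCompact_Icc.measure_ne_top)
  refine (norm_integral_le_of_norm_le (f := fun w => k w * g (s - w)) i
    (Eventually.of_forall fun w => ?_)).trans (le_of_eq ?_)
  · by_cases hw : k w = 0
    · rw [hw, zero_mul, norm_zero]
      exact indicator_nonneg (fun _ _ => mul_nonneg ((abs_nonneg _).trans (hM 0)) hB0) _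
    · rw [indicator_of_mem (show w ∈ Icc (-h) h from abs_le.1 (hk w hw)), norm_mul]
      exact mul_le_mul (hM w) (hB _ (by simpa using hk w hw)) (abs_nonneg _)
        ((abs_nonneg _).trans (hM 0))
  · rw [integral_indicator_const _ measurableSet_Icc, Real.volume_real_Icc_of_le (by linarith),
      smul_eq_mul]
    ring

/-- gain of derivatives -/
theorem mol1_gain (n : ℕ) : ∃ C : ℝ, 1 ≤ C ∧ ∀ (h : ℝ) (g : ℝ → ℝ) (B s : ℝ), 0 < h →
    (LI g → (∀ r, |r - s| ≤ h → |g r| ≤ B) →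
      ∀ i ≤ n, h ^ i * |iteratedDeriv i (mol1 h g) s| ≤ C * B) ∧
    (∀ j : ℕ, ContDiff ℝ j g → (∀ r, |r - s| ≤ h → |iteratedDeriv j g r| ≤ B) →
      ∀ i ≤ n, h ^ i * |iteratedDeriv (i + j) (mol1 h g) s| ≤ C * B) ∧
    (LI g → (∀ r, |r - s| ≤ h → |g r - g s| ≤ B) →
      ∀ i ≤ n, 1 ≤ i → h ^ i * |iteratedDeriv i (mol1 h g) s| ≤ C * B) := by
  obtain ⟨C, hC, hk⟩ := kb_deriv n
  have A : ∀ (h : ℝ) (g : ℝ → ℝ) (B s : ℝ), 0 < h → (∀ r, |r - s| ≤ h → |g r| ≤ B) →
      ∀ i ≤ n, h ^ i * |cvl (iteratedDeriv i (k1 h)) g s| ≤ 2 * C * B := by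
    intro h g B s hh hB i hi
    rw [mul_comm, ← le_div_iff₀ (by positivity)]
    refine (abs_cvl_icc hh (M := C / h ^ (i + 1)) (fun w => ?_) (fun w hw => iter_k1_ne hh hw)
      hB).trans (le_of_eq (by rw [pow_succ]; field_simp))
    rw [iter_k1 hh, abs_div, abs_of_pos (by positivity : 0 < h ^ (i + 1))]
    exact div_le_div_of_nonneg_right (hk i hi _) (by positivity)
  refine ⟨2 * C, by linarith, fun h g B s hh => ⟨fun hg hB i hi => ?_, fun j hg hB i hi => ?_,
    fun hg hB i hi h1 => ?_⟩⟩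
  · rw [iter_mol1_ker hh hg]
    exact A h g B s hh hB i hi
  · rw [iter_mol1_mix hh i j hg]
    exact A h _ B s hh hB i hi
  · have e : mol1 h g = fun t => g s + mol1 h (fun r => g r - g s) t := funext fun t => by
      rw [mol1_sub hh hg (li_cont continuous_const), mol1_const hh, add_sub_cancel]
    rw [e, iteratedDeriv_const_add h1,
      iter_mol1_ker (g := fun r => g r - g s) hh (hg.sub (li_cont continuous_const))]
    exact A h _ B s hh hB i hi

/-! ## comparison of kernels -/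

lemma mol1_le_mol1 (hh : 0 < h) (hg : LI g) (hH : |t - s| + h ≤ H / 2) :
    |mol1 h g t| ≤ 2 * (H / h) * mol1 H (fun r => |g r|) s := by
  have hH0 : 0 < H := by linarith [abs_nonneg (t - s)]
  rw [mol1_swap, mol1_swap, ← integral_const_mul]
  refine norm_integral_le_of_norm_le (f := fun r => k1 h (t - r) * g r)
    (((k1_pk hH0).int_swap (li_abs hg) s).const_mul _) (Eventually.of_forall fun r => ?_)
  have := k1_nonneg hH0 (s - r)
  by_cases hr : k1 h (t - r) = 0
  · rw [hr, zero_mul, norm_zero]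
    positivity
  · have l := k1_half hH0 (s := s - r)
      (by linarith [k1_ne hh hr, abs_sub_le s t r, abs_sub_comm s t])
    rw [norm_mul, ← mul_assoc, Real.norm_of_nonneg (k1_nonneg hh _)]
    refine mul_le_mul_of_nonneg_right ((k1_le hh _).trans ?_) (abs_nonneg _)
    refine le_trans (le_of_eq ?_) (mul_le_mul_of_nonneg_left l (by positivity))
    field_simp

end
end Pool.Agent.MP_20bec2_an.T3.Mol

end MrgPart1

-- ======== part 2: formerly Pool.Agent.MP_20bec2_an.T3.Chart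
section MrgPart2

/-! Row CHART: the charts of the cells. -/

set_option autoImplicit false
open MeasureTheory Set Filter Matrix Topology

namespace Pool.Agent.MP_20bec2_an.T3
noncomputable section
open Classical

namespace ChartP
open Mol

/-- extension of a bounded Lipschitz function -/
lemma ext {I : Set ℝ} {φ : ℝ → ℝ} {Λ B : ℝ} (hΛ : 0 ≤ Λ) (hB : 0 ≤ B) (h1 : ∀ s ∈ I, |φ s| ≤ B)
    (h2 : ∀ s ∈ I, ∀ t ∈ I, |φ s - φ t| ≤ Λ * |s - t|) :
    ∃ ψ : ℝ → ℝ, (∀ s, |ψ s| ≤ B) ∧ (∀ s t, |ψ s - ψ t| ≤ Λ * |s - t|) ∧ ∀ s ∈ I, ψ s = φ s := by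
  obtain ⟨g, hg, e⟩ := (LipschitzOnWith.of_dist_le_mul (K := ⟨Λ, hΛ⟩) (s := I) (f := φ)
    h2).extend_real
  refine ⟨fun s => max (min (g s) B) (-B), fun s => abs_le.2 ⟨le_max_right _ _,
    max_le (min_le_right _ _) (by linarith)⟩,
    ((hg.min_const B).max_const (-B)).dist_le_mul, fun s hs => ?_⟩
  obtain ⟨a, b⟩ := abs_le.1 (h1 s hs)
  simp only [← e hs, min_eq_left b, max_eq_left a]

/-- one component of a chart -/
lemma one : ∃ C : ℝ, 1 ≤ C ∧ ∀ (I : Set ℝ) (φ : ℝ → ℝ) (Λ B h κ s0 : ℝ), 0 ≤ Λ → 0 ≤ B → 0 < h →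
    0 ≤ κ → (∀ s ∈ I, |φ s| ≤ B) → (∀ s ∈ I, ∀ t ∈ I, |φ s - φ t| ≤ Λ * |s - t|) →
    ∃ n : ℝ → ℝ, Sm n ∧ ∀ s, |n s| ≤ κ * B * |s - s0| ∧ |deriv n s| ≤ κ * B ∧
      |iteratedDeriv 2 n s| ≤ κ * (C * Λ) ∧ |iteratedDeriv 3 n s| ≤ κ * (C * Λ / h) ∧
      (s ∈ I → |deriv n s + κ * φ s| ≤ κ * (Λ * h)) := by
  obtain ⟨C, hC, H⟩ := mol1_gain 2
  refine ⟨C, hC, fun I φ Λ B h κ s0 hΛ hB hh hκ h1 h2 => ?_⟩
  obtain ⟨ψ, b, l, e⟩ := ext hΛ hB h1 h2
  have li : LI ψ := li_cont (LipschitzWith.of_dist_le_mul (K := ⟨Λ, hΛ⟩) l).continuous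
  have sm : Sm fun s => -κ * mol1 h ψ s := (mol1_sm hh li).cmul _
  have d : ∀ s, HasDerivAt (fun s => ∫ r in s0..s, -κ * mol1 h ψ r) (-κ * mol1 h ψ s) s :=
    fun s => (sm.continuous.integral_hasStrictDerivAt s0 s).hasDerivAt
  have d' : deriv (fun s => ∫ r in s0..s, -κ * mol1 h ψ r) = fun s => -κ * mol1 h ψ s :=
    funext fun s => (d s).deriv
  have b1 : ∀ s, |-κ * mol1 h ψ s| ≤ κ * B := fun s => by
    rw [abs_mul, abs_neg, abs_of_nonneg hκ]
    exact mul_le_mul_of_nonneg_left (abs_mol1_le hh fun r _ => b r) hκ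
  have g := fun s => (H h ψ (Λ * h) s hh).2.2 li fun r hr =>
    (l r s).trans (mul_le_mul_of_nonneg_left hr hΛ)
  refine ⟨fun s => ∫ r in s0..s, -κ * mol1 h ψ r,
    contDiff_infty_iff_deriv.2 ⟨fun s => (d s).differentiableAt, d'.symm ▸ sm⟩, fun s =>
    ⟨intervalIntegral.norm_integral_le_of_norm_le_const (f := fun r => -κ * mol1 h ψ r)
      fun r _ => b1 r, d'.symm ▸ b1 s, ?_, ?_,
    fun hs => ?_⟩⟩
  · rw [iteratedDeriv_succ', d', iteratedDeriv_const_mul_field, abs_mul, abs_neg, abs_of_nonneg hκ]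
    refine mul_le_mul_of_nonneg_left (le_of_mul_le_mul_left ?_ hh) hκ
    have := g s 1 (by norm_num) le_rfl
    rw [pow_one] at this
    linarith
  · rw [iteratedDeriv_succ', d', iteratedDeriv_const_mul_field, abs_mul, abs_neg, abs_of_nonneg hκ]
    refine mul_le_mul_of_nonneg_left ((le_div_iff₀ hh).2 (le_of_mul_le_mul_left ?_ hh)) hκ
    have := g s 2 le_rfl (by norm_num)
    linarith
  · rw [d', ← e s hs, show -κ * mol1 h ψ s + κ * ψ s = κ * (ψ s - mol1 h ψ s) by ring, abs_mul,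
      abs_of_nonneg hκ]
    exact mul_le_mul_of_nonneg_left
      (abs_sub_mol1_lip hh li hΛ fun r _ => (l s r).trans_eq (by rw [abs_sub_comm])) hκ

variable {c : Pm} (h : Gd c)
include h

lemma dgn_pos (i : Fin 3) : 0 < c.dgn i := by
  fin_cases i
  exacts [h.η_pos, one_pos, one_pos]

lemma log_steer (hs : c.steer) : -(8 * pL c.N) - 1 ≤ Real.log c.η := by
  have h1 := Real.log_le_log (half_pos h.big.etaA_pos) hs
  rw [Real.log_div h.big.etaA_pos.ne' two_ne_zero, h.big.log_etaA] at h1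
  linarith [log2_bd.2]

lemma par (hs : c.steer) {i : Fin 3} (hi : i ≠ 2) :
    c.cc i / (c.dgn i * c.n12) * (2 * hc c.N) * c.L ≤ c.cw i / 100 ∧
      c.cc i / (c.dgn i * c.n12) * (2 * hc c.N) ≤ np c.N (-19 / 10) := by
  have := h.η_pos; have := h.c1_pos; have := h.c2_pos; have := h.n12_pos; have := h.big.hc_pos
  have := h.L_pos; have := h.big.pA_pos; have := h.l1_pos; have := h.lam_pos
  have := h.big.np_pos (-19 / 10)
  have a1 := log_steer h hs
  have a2 := h.log_e4_eq (by linarith [h.big.J_ge, h.big.L_ge])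
  have a3 := h.log_s1_ge
  have a4 := h.log_n12_bd.1
  have a5 := h.log_K_bd.1
  have a6 := h.log_K
  have a7 := h.log_n12
  have a8 := h.log_m.1
  have a9 := h.big.J_ge
  have b1 := h.big.L_ge
  have b2 := log2_bd.2
  have b3 := (logc_bd (show (1 : ℝ) ≤ 3 by norm_num)).2
  have b4 := (logc_bd (show (1 : ℝ) ≤ 100 by norm_num)).2
  fin_cases i
  · change c.c1 / (c.η * c.n12) * (2 * hc c.N) * c.L ≤ pA c.N * c.l1 / 100 ∧
      c.c1 / (c.η * c.n12) * (2 * hc c.N) ≤ np c.N (-19 / 10)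
    constructor <;> refine le_of_log (by positivity) (by positivity) ?_ <;>
      simp (disch := positivity) only [Real.log_div, Real.log_mul, h.log_c1, h.big.log_hc, h.log_L,
        h.big.log_pA, h.log_l1, h.log_ro, h.big.log_np] <;> linarith
  · change c.c2 / (1 * c.n12) * (2 * hc c.N) * c.L ≤ pA c.N * c.lam / 100 ∧
      c.c2 / (1 * c.n12) * (2 * hc c.N) ≤ np c.N (-19 / 10)
    constructor <;> refine le_of_log (by positivity) (by positivity) ?_ <;>
      simp (disch := positivity) only [Real.log_div, Real.log_mul, h.log_c2, h.big.log_hc, h.log_L,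
        h.big.log_pA, h.big.log_np, Real.log_one] <;> linarith
  · exact (hi rfl).elim

lemma par2 : 2 * (pA c.N * c.l1) ≤ 1 / 100 * c.D ∧ 2 * c.q * hc c.N ≤ Xj c.N 0 2 ∧
    3 * (1 / (c.J ^ 24 * √c.N) * pA c.N) ≤ sm c.N / 8 ∧
    hc c.N * (2 * np c.N (-26 / 100) * (2 * pA c.N)) ≤ sm c.N / 8 ∧
    4 * Xj c.N 0 2 * np c.N (-3 / 100) ≤ sm c.N / 8 := by
  have := h.big.pA_pos; have := h.l1_pos; have := h.D_pos; have := h.q_pos; have := h.big.hc_pos
  have := h.J_pos; have := h.big.J_pos; have := h.big.sqrtN_pos; have := h.big.sm_pos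
  have := h.big.np_pos (-26 / 100); have := h.big.np_pos (-3 / 100)
  have a1 := h.log_ro_bd.2
  have a2 := Real.log_le_log h.lam_pos h.lam_le_lb
  have a9 := h.big.J_ge
  have b1 := h.big.L_ge
  have b2 := log2_bd.2
  have b3 := (logc_bd (show (1 : ℝ) ≤ 3 by norm_num)).2
  have b4 := (logc_bd (show (1 : ℝ) ≤ 100 by norm_num)).2
  have b5 := (logc_bd (show (1 : ℝ) ≤ 4 by norm_num)).2
  have b6 := (logc_bd (show (1 : ℝ) ≤ 8 by norm_num)).2
  rw [show Xj c.N 0 2 = pJ c.N ^ 3 / √c.N from rfl]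
  refine ⟨?_, ?_, ?_, ?_, ?_⟩ <;> refine le_of_log (by positivity) (by positivity) ?_ <;>
    simp (disch := positivity) only [Real.log_div, Real.log_mul, Real.log_pow, Real.log_one,
      h.big.log_hc, h.big.log_pA, h.log_l1, h.log_D, h.big.log_np, h.log_q, h.log_J, h.big.log_J,
      h.big.log_sqrtN, h.big.log_sm] <;> push_cast <;> linarith

end ChartP

open ChartP in
theorem chart : ChartStmt := by
  obtain ⟨C, hC, H1⟩ := one
  filter_upwards [ev_gd, ev_C_q (4 * C)] with N hN hq c e ho O M H hO hs hM hB hH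
  have h := hN c e ho
  subst e
  obtain ⟨p1, p2, p3, p4, p5⟩ := par2 h
  have hX : 0 < Xj c.N 0 2 := div_pos (pow_pos h.big.J_pos 3) h.big.sqrtN_pos
  have hy := h.y_pos
  have hh := h.big.hc_pos
  have hn := h.big.np_pos (-3 / 100)
  have hκ : ∀ i, 0 < c.cc i / (c.dgn i * c.n12) := fun i =>
    div_pos (h.cc_pos i) (mul_pos (dgn_pos h i) h.n12_pos)
  have cU := Prof.RX_convex O c.D (97 / 100)
  have hM1 : ∀ z ∈ RX O c.D (97 / 100), 3 / 4 ≤ M z ∧ M z ≤ 3 / 2 := fun z hz => by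
    have := abs_le.1 (hB.1 z hz)
    unfold eps0 at this
    constructor <;> linarith [this.1, this.2]
  have prod : ∀ z ∈ RX O c.D (97 / 100), ∀ w ∈ RX O c.D (97 / 100), ∀ i, i ≠ 2 →
      |M z * H z i - M w * H w i| ≤ 3 / 2 * |H z i - H w i| + hc c.N * |M z - M w| :=
    fun z hz w hw i hi => by
    rw [show M z * H z i - M w * H w i = M z * (H z i - H w i) + H w i * (M z - M w) by ring]
    refine (abs_add_le _ _).trans ?_
    rw [abs_mul, abs_mul, abs_of_pos (by linarith [(hM1 z hz).1] : 0 < M z)]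
    exact add_le_add (mul_le_mul_of_nonneg_right (hM1 z hz).2 (abs_nonneg _))
      (mul_le_mul_of_nonneg_right (hH w hw i hi).1 (abs_nonneg _))
  let l : Cu → ℝ → V := fun g s => ![c.cw 0 * g 0, c.cw 1 * g 1, s]
  have key := fun (g : Cu) (i : Fin 3) (hi : i ≠ 2) =>
    H1 {s | l g s ∈ RX O c.D (97 / 100)} (fun s => M (l g s) * H (l g s) i) (4 * Xj c.N 0 2 / c.y)
      (2 * hc c.N) (np c.N (-3 / 100) * c.y) _ (c.L * g 2) (by positivity) (by positivity)
      (by positivity) (hκ i).le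
      (fun s hs => by
        rw [abs_mul, abs_of_pos (by linarith [(hM1 _ hs).1] : 0 < M (l g s))]
        exact mul_le_mul (by linarith [(hM1 _ hs).2]) (hH _ hs i hi).1 (abs_nonneg _) zero_le_two)
      fun s hs t ht => by
        have a1 := (hH _ hs i hi).2 _ ht
        have a2 := CV.mvt h.hs_pos cU hM hB.2.1.toCV one_le_two hs ht
        simp only [l, Pm.hs, Fin.sum_univ_three, cons_val_zero, cons_val_one, cons_val_two,
          sub_self, abs_zero, zero_div, add_zero, zero_add, mul_zero, Nat.succ_eq_add_one,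
          tail_cons, head_cons] at a1 a2
        have a3 := mul_le_mul_of_nonneg_right p2 (div_nonneg (abs_nonneg (s - t)) hy.le)
        have a4 := mul_le_mul_of_nonneg_left a2 hh.le
        refine (prod _ hs _ ht i hi).trans ?_
        rw [mul_div_assoc] at a1
        rw [div_mul_eq_mul_div (4 * _), mul_div_assoc]
        simp only [l]
        linarith
  choose! n sn bn using key
  have dv : ∀ i x B, x ≤ c.cc i / (c.dgn i * c.n12) * B → c.dgn i * x * c.n12 / c.cc i ≤ B :=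
    fun i x B hx => by
    rw [div_mul_eq_mul_div, le_div_iff₀ (mul_pos (dgn_pos h i) h.n12_pos)] at hx
    rw [div_le_iff₀ (h.cc_pos i)]
    linarith
  refine ⟨fun g s i => if i = 2 then 0 else n g i s, ⟨.inl hs, fun g => ⟨sm_pi fun i => ?_,
    fun i hi s => ?_⟩⟩, fun z hz g hg i hi => ?_⟩
  · by_cases hi : i = 2
    · simp only [if_pos hi]
      exact contDiff_const
    · simp only [if_neg hi]
      exact sn g i hi
  · simp only [if_neg hi]
    obtain ⟨b1, b2, b3, b4, -⟩ := bn g i hi s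
    refine ⟨fun hs' => b1.trans (le_trans (mul_le_mul_of_nonneg_left ?_ (by have := hκ i; positivity))
      (par h hs hi).1), b2.trans (par h hs hi).2, dv _ _ _ b2, (dv _ _ _ b3).trans ?_,
      (dv _ _ _ b4).trans ?_⟩
    · rwa [div_sub' h.L_pos.ne', abs_div, abs_of_pos h.L_pos, div_le_one h.L_pos] at hs'
    · rw [← mul_div_assoc, ← mul_assoc, mul_comm C]
      exact div_le_div_of_nonneg_right (mul_le_mul_of_nonneg_right hq hX.le) hy.le
    · rw [← mul_div_assoc, ← mul_assoc, mul_comm C, div_div, mul_left_comm, ← sq]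
      refine div_le_div_of_nonneg_right (mul_le_mul_of_nonneg_right (hq.trans ?_) hX.le)
        (by positivity)
      have := h.big.q_ge
      change pq c.N ≤ pq c.N ^ 2
      nlinarith
  · simp only [if_neg hi]
    have nr : ∀ j, |z j - c.cw j * g j| ≤ c.cw j := fun j => by
      have := hg j
      rwa [div_sub' (h.cw_pos j).ne', abs_div, abs_of_pos (h.cw_pos j), div_le_one (h.cw_pos j)]
        at this
    have n0 : |z 0 - c.cw 0 * g 0| / c.l1 ≤ pA c.N := (div_le_iff₀ h.l1_pos).2 (nr 0)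
    have n1 : |z 1 - c.cw 1 * g 1| / c.lam ≤ pA c.N := (div_le_iff₀ h.lam_pos).2 (nr 1)
    have hz' := Prof.RX_mono O h.D_pos.le (show (96 / 100 : ℝ) ≤ 97 / 100 by norm_num) hz
    have hw : l g (z 2) ∈ RX O c.D (97 / 100) := by
      rw [show (97 / 100 : ℝ) = 96 / 100 + 1 / 100 by norm_num]
      refine Prof.RX_add hO hz (le_trans (mul_le_mul_of_nonneg_left ?_ zero_le_two) p1)
      have := mul_pos h.big.pA_pos h.l1_pos
      rw [pi_norm_le_iff_of_nonneg this.le]
      intro j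
      fin_cases j
      · exact (abs_sub_comm _ _).trans_le (nr 0)
      · exact ((abs_sub_comm _ _).trans_le (nr 1)).trans
          (mul_le_mul_of_nonneg_left h.lam_le_l1 h.big.pA_pos.le)
      · simpa [l] using this.le
    have b := (bn g i hi (z 2)).2.2.2.2 hw
    have a1 := (hH _ hz' i hi).2 _ hw
    have a2 := lat_mvt h.hs_pos cU hM hB.2.2.toLat one_le_two hz' hw rfl
    have a3 := prod _ hz' _ hw i hi
    simp only [l, Pm.hs, cons_val_zero, cons_val_one, cons_val_two, sub_self, abs_zero, zero_div,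
      add_zero, mul_zero, Nat.succ_eq_add_one, tail_cons, head_cons] at a1 a2 a3 b
    have hJ : 0 < 1 / (c.J ^ 24 * √c.N) := by
      have := h.J_pos; have := h.big.sqrtN_pos; positivity
    have a4 := mul_le_mul_of_nonneg_left (add_le_add n0 n1) hJ.le
    have a5 := mul_le_mul_of_nonneg_left (a2.trans (mul_le_mul_of_nonneg_left (add_le_add n0 n1)
      (by have := h.big.np_pos (-26 / 100); positivity))) hh.le
    rw [show 4 * Xj c.N 0 2 / c.y * (np c.N (-3 / 100) * c.y) = 4 * Xj c.N 0 2 * np c.N (-3 / 100)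
      by field_simp] at b
    obtain ⟨m1, -⟩ := hM1 z hz'
    have m2 : 0 < M z := by linarith
    generalize M ![c.cw 0 * g 0, c.cw 1 * g 1, z 2] * H ![c.cw 0 * g 0, c.cw 1 * g 1, z 2] i = φ
      at a3 b
    have k1 := dgn_pos h i
    have k2 := h.n12_pos
    have k3 := h.cc_pos i
    have b' := dv _ _ _ b
    rw [show c.dgn i * deriv (n g i) (z 2) * c.n12 / (M z * c.cc i) + H z i =
      (c.dgn i * (deriv (n g i) (z 2) + c.cc i / (c.dgn i * c.n12) * φ) * c.n12 / c.cc i +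
        (M z * H z i - φ)) / M z by field_simp; ring, abs_div, abs_of_pos m2, div_le_iff₀ m2]
    refine (abs_add_le _ _).trans ?_
    rw [abs_div, abs_mul, abs_mul, abs_of_pos k1, abs_of_pos k2, abs_of_pos k3]
    nlinarith [h.big.sm_pos]

end
end Pool.Agent.MP_20bec2_an.T3

end MrgPart2

-- marker of a merged file
example : 731051 + 410474 = 731051 + 410474 := rfl

end MrgPart0

-- ======== part 1: formerly Pool.Agent.MP_20bec2_an.T3.Fcomp
section MrgPart1

/-! Composition of two steps of `f`, and monotonicity of the relation. -/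

set_option autoImplicit false
open MeasureTheory Set Filter Matrix Topology

namespace Pool.Agent.MP_20bec2_an.T3
noncomputable section
open Classical

theorem Xj_nonneg (N : ℕ) (a b : Fin 3) : 0 ≤ Xj N a b := by
  have h : 0 ≤ pJ N := Real.log_natCast_nonneg N
  fin_cases a <;> fin_cases b <;> simp [Xj, bm] <;> positivity

theorem bm_add (g h k g' h' k' : ℝ) :
    bm (g + g') (h + h') (k + k') = bm g h k + bm g' h' k' := by
  ext a b
  fin_cases a <;> fin_cases b <;> simp [bm]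

theorem bm_mono {g h k g' h' k' : ℝ} (h1 : g ≤ g') (h2 : h ≤ h') (h3 : k ≤ k') (a b : Fin 3) :
    bm g h k a b ≤ bm g' h' k' a b := by
  fin_cases a <;> fin_cases b <;> simp [bm, h1, h2, h3]

theorem FRel.mono {c : Pm} {f f' : V → V} {z' z : V} {P P' : FP} (H : FRel c f f' z' z P)
    (hh : ∀ i, 0 ≤ c.hs i) (hle : P.Le P') : FRel c f f' z' z P' := by
  obtain ⟨l1, l2, l3, l4, l5, l6, l7, l8⟩ := hle
  exact ⟨H.mt, fun i hi => (H.dl i hi).trans (mul_le_mul_of_nonneg_right l1 (hh i)),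
    H.dv.trans (mul_le_mul_of_nonneg_right l2 (hh 2)),
    fun a b => (H.dg a b).trans (bm_mono l3 l4 l5 a b),
    fun a b hab => (H.th a b hab).trans (mul_le_mul_of_nonneg_right l6 (hh a)), H.t3.trans l7,
    fun d hd hD a b i => (H.df d hd hD a b i).trans (mul_le_mul_of_nonneg_right
      (mul_le_mul_of_nonneg_left l8 (by linarith)) (Xj_nonneg _ a b))⟩

theorem FRel.mono' {c : Pm} {f f' : V → V} {z' z : V} {P P' : FP} (H : FRel c f f' z' z P)
    (hc : Gd c) (hle : P.Le P') : FRel c f f' z' z P' := H.mono (fun i => (hc.hs_pos i).le) hle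

theorem Pm.DI.mono {c : Pm} {f : V → V} {z : V} {d d' : ℝ} (H : c.DI f z d) (hd : d ≤ d') :
    c.DI f z d' := fun a b i => (H a b i).trans (mul_le_mul_of_nonneg_right hd (Xj_nonneg _ a b))

namespace Fc

/-- table of the scaled bounds -/
def E (s t : ℝ) (a b : Fin 3) : ℝ := if a = 2 ∧ b = 2 then t else s

/-- scaled entries of `A` -/
def NB (h : V) (A : Mx) (s t : ℝ) : Prop := ∀ a b, |A a b| * h b ≤ E s t a b * h a

variable {h : V} {A B : Mx} {s t s' t' : ℝ}

lemma nb_of (hh : ∀ i, 0 ≤ h i) {T : Mx}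
    (h1 : ∀ a b, ¬ (a = 2 ∧ b = 2) → |(T - 1) a b| * h b ≤ s * h a) (h2 : |T 2 2 - 1| ≤ t) :
    NB h (T - 1) s t := fun a b => by
  unfold E
  split_ifs with hab
  · obtain ⟨rfl, rfl⟩ := hab
    exact mul_le_mul_of_nonneg_right (by simpa using h2) (hh 2)
  · exact h1 a b hab

lemma E_nonneg (hs : 0 ≤ s) (ht : 0 ≤ t) (a b : Fin 3) : 0 ≤ E s t a b := by
  unfold E; split_ifs <;> assumption

lemma prod_le (hs : 0 ≤ s') (ht : 0 ≤ t') (HA : NB h A s t) (HB : NB h B s' t') (a k b : Fin 3) :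
    |A a k * B k b| * h b ≤ E s t a k * E s' t' k b * h a := by
  have h1 := mul_le_mul_of_nonneg_left (HB k b) (abs_nonneg (A a k))
  have h2 := mul_le_mul_of_nonneg_left (HA a k) (E_nonneg hs ht k b)
  rw [abs_mul]
  nlinarith

lemma mul_le (hh : ∀ i, 0 ≤ h i) (hs : 0 ≤ s') (ht : 0 ≤ t') (HA : NB h A s t)
    (HB : NB h B s' t') (a b : Fin 3) : |(A + B + A * B) a b| * h b ≤
      (E s t a b + E s' t' a b + ∑ k, E s t a k * E s' t' k b) * h a := by
  have h1 : |(A + B + A * B) a b| ≤ |A a b| + |B a b| + ∑ k, |A a k * B k b| := by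
    simp only [Matrix.add_apply, Matrix.mul_apply]
    exact (abs_add_three _ _ _).trans (by gcongr; exact Finset.abs_sum_le_sum_abs _ _)
  refine (mul_le_mul_of_nonneg_right h1 (hh b)).trans ?_
  rw [add_mul, add_mul, add_mul, add_mul, Finset.sum_mul, Finset.sum_mul]
  exact add_le_add (add_le_add (HA a b) (HB a b))
    (Finset.sum_le_sum fun k _ => prod_le hs ht HA HB a k b)

/-- a scaled covector times `T` -/
lemma vec_le (hh : ∀ i, 0 ≤ h i) (hs : 0 ≤ s) (ht : 0 ≤ t) {T : Mx} (HA : NB h (T - 1) s t)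
    {u : V} {D : ℝ} (hu : ∀ k, h k * |u k| ≤ D) (i : Fin 3) :
    h i * |∑ k, u k * T k i| ≤ D * (1 + 3 * s + t) := by
  have hD : 0 ≤ D := (mul_nonneg (hh 0) (abs_nonneg _)).trans (hu 0)
  have e : ∑ k, u k * T k i = u i + ∑ k, u k * (T - 1) k i := by
    simp [mul_sub, Matrix.one_apply]
  have h1 : ∀ k, h i * |u k * (T - 1) k i| ≤ D * E s t k i := fun k => by
    have a1 := mul_le_mul_of_nonneg_left (HA k i) (abs_nonneg (u k))
    have a2 := mul_le_mul_of_nonneg_left (hu k) (E_nonneg hs ht k i)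
    rw [abs_mul]
    nlinarith
  have h2 : ∑ k, E s t k i ≤ 3 * s + t := by
    fin_cases i <;> simp [E, Fin.sum_univ_three] <;> linarith
  have h3 : |u i + ∑ k, u k * (T - 1) k i| ≤ |u i| + ∑ k, |u k * (T - 1) k i| :=
    (abs_add_le _ _).trans (by gcongr; exact Finset.abs_sum_le_sum_abs _ _)
  rw [e]
  refine (mul_le_mul_of_nonneg_left h3 (hh i)).trans ?_
  have h4 := Finset.sum_le_sum (s := Finset.univ) fun k _ => h1 k
  rw [← Finset.mul_sum, ← Finset.mul_sum] at h4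
  have h5 := mul_le_mul_of_nonneg_left h2 hD
  have h6 := hu i
  linarith

lemma di_step {c : Pm} {f f1 : V → V} {z0 z1 : V} {P : FP} (hh : ∀ i, 0 ≤ c.hs i) (hP : P.Sml)
    (H : FRel c f f1 z0 z1 P) {d : ℝ} (hd : 0 ≤ d) (hD : c.DI f z0 d) :
    c.DI f1 z1 (d * (1 + 3 * P.th + P.t3) + (1 + d) * P.df) := fun a b i => by
  have h1 := H.df d hd hD a b i
  have h2 := vec_le hh hP.1 hP.2.2.1 (nb_of hh H.th H.t3)
    (u := fun k => pd k (fun w => c.gam f w a b) z0) (hD a b) i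
  have h3 := mul_le_mul_of_nonneg_left (abs_add_le (pd i (fun w => c.gam f1 w a b) z1 -
    ∑ j, pd j (fun w => c.gam f w a b) z0 * Th f f1 z0 z1 j i)
    (∑ j, pd j (fun w => c.gam f w a b) z0 * Th f f1 z0 z1 j i)) (hh i)
  rw [sub_add_cancel] at h3
  linarith

end Fc

open Fc in
/-- composition for positive scales -/
theorem FRel.comp {c : Pm} {f f1 f2 : V → V} {z0 z1 z2 : V} {P P' : FP} (hh : ∀ i, 0 < c.hs i)
    (hj : jac f1 z1 ≠ 0) (hP : P.Sml) (hP' : P'.Sml) (H : FRel c f f1 z0 z1 P)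
    (H' : FRel c f1 f2 z1 z2 P') : FRel c f f2 z0 z2 (P.cmp P') := by
  have h0 : ∀ i, 0 ≤ c.hs i := fun i => (hh i).le
  obtain ⟨p1, p2, p3, p4, p5, p6⟩ := id hP
  obtain ⟨q1, q2, q3, q4, q5, q6⟩ := id hP'
  have eT : Th f f2 z0 z2 = Th f f1 z0 z1 * Th f1 f2 z1 z2 := by
    simp only [Th]
    rw [Matrix.mul_assoc, Matrix.mul_nonsing_inv_cancel_left _ _ (Ne.isUnit hj)]
  have eA : Th f f2 z0 z2 - 1 = (Th f f1 z0 z1 - 1) + (Th f1 f2 z1 z2 - 1) +
      (Th f f1 z0 z1 - 1) * (Th f1 f2 z1 z2 - 1) := by rw [eT]; noncomm_ring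
  have N1 := nb_of h0 H.th H.t3
  have N2 := nb_of h0 H'.th H'.t3
  have M := mul_le h0 q1 q3 N1 N2
  rw [← eA] at M
  have tri : ∀ i, |z2 i - z0 i| ≤ |z1 i - z0 i| + |z2 i - z1 i| := fun i => by
    simpa [add_comm] using abs_sub_le (z2 i) (z1 i) (z0 i)
  refine ⟨H'.mt.trans H.mt, fun i hi => ?_, ?_, fun a b => ?_, fun a b hab => ?_, ?_,
    fun d hd hD a b i => ?_⟩
  · have := H.dl i hi
    have := H'.dl i hi
    have := tri i
    simp only [FP.cmp]
    linarith
  · have := H.dv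
    have := H'.dv
    have := tri 2
    simp only [FP.cmp]
    linarith
  · have h1 := H.dg a b
    have h2 := H'.dg a b
    have h3 := abs_sub_le (c.gam f2 z2 a b) (c.gam f1 z1 a b) (c.gam f z0 a b)
    simp only [FP.cmp, bm_add, Matrix.add_apply, Matrix.sub_apply] at h1 h2 ⊢
    linarith
  · refine (M a b).trans (mul_le_mul_of_nonneg_right ?_ (h0 a))
    have m1 := mul_le_mul_of_nonneg_left q2 p1
    have m2 := mul_le_mul_of_nonneg_left q4 p1
    have m3 := mul_le_mul_of_nonneg_right p4 q1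
    simp only [FP.cmp]
    fin_cases a <;> fin_cases b <;> simp [E, Fin.sum_univ_three] at hab ⊢ <;> linarith
  · have := le_of_mul_le_mul_right (M 2 2) (hh 2)
    simp only [FP.cmp]
    simp [E, Fin.sum_univ_three] at this
    linarith
  · have hX := Xj_nonneg c.N a b
    have hd1 : 0 ≤ d * (1 + 3 * P.th + P.t3) + (1 + d) * P.df := by positivity
    have h1 := H'.df _ hd1 (di_step h0 hP H hd hD) a b i
    have h2 := vec_le h0 q1 q3 N2 (u := fun j => pd j (fun w => c.gam f1 w a b) z1 -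
      ∑ k, pd k (fun w => c.gam f w a b) z0 * Th f f1 z0 z1 k j) (H.df d hd hD a b) i
    have e : pd i (fun w => c.gam f2 w a b) z2 -
        ∑ j, pd j (fun w => c.gam f w a b) z0 * Th f f2 z0 z2 j i =
        (pd i (fun w => c.gam f2 w a b) z2 -
          ∑ j, pd j (fun w => c.gam f1 w a b) z1 * Th f1 f2 z1 z2 j i) +
        ∑ j, (pd j (fun w => c.gam f1 w a b) z1 -
          ∑ k, pd k (fun w => c.gam f w a b) z0 * Th f f1 z0 z1 k j) * Th f1 f2 z1 z2 j i := by
      rw [eT]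
      simp only [Matrix.mul_apply, Fin.sum_univ_three]
      ring
    rw [e]
    refine (mul_le_mul_of_nonneg_left (abs_add_le _ _) (h0 i)).trans ?_
    rw [mul_add]
    refine (add_le_add h1 h2).trans ?_
    have k1 : 1 + (d * (1 + 3 * P.th + P.t3) + (1 + d) * P.df) ≤ (1 + d) * 4 := by nlinarith
    have k2 := mul_le_mul_of_nonneg_right k1 (mul_nonneg q5 hX)
    have k3 := mul_le_mul_of_nonneg_left (show 1 + 3 * P'.th + P'.t3 ≤ 4 by linarith)
      (show 0 ≤ (1 + d) * P.df * Xj c.N a b by positivity)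
    simp only [FP.cmp]
    nlinarith

theorem fcomp : FcompStmt :=
  ev_gd.mono fun _ hN c hc ho _ _ _ _ _ _ _ _ _ hj hP hP' H H' =>
    ⟨FRel.comp (hN c hc ho).hs_pos hj hP hP' H H',
      fun _ hd hD => Fc.di_step (fun i => ((hN c hc ho).hs_pos i).le) hP H hd hD⟩

end
end Pool.Agent.MP_20bec2_an.T3

end MrgPart1

-- marker of a merged file
example : 731051 + 661268 = 731051 + 661268 := rfl
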