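import Mathlib.Order.BourbakiWitt
import Mathlib.Order.CompletePartialOrder
import Pool.Agent.MP_20bec2_an.T3.Final
import Pool.Agent.MP_20bec2_an.T3.Vtr
import Pool.Agent.MP_20bec2_an.T3.Par4
import Pool.Agent.MP_20bec2_an.T3.Calc1b
import Pool.Agent.MP_20bec2_an.T3.Zt

-- ======== part 0: formerly Pool.Agent.MP_20bec2_an.T3.DefsM
section MrgPart0

set_option autoImplicit false
open MeasureTheory Set Filter Matrix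

namespace Pool.Agent.MP_20bec2_an.T3
noncomputable section
open Classical

/-! ## states, functionals, paths -/

structure Sa where
  U : V → V
  C : V → Mx
  Θ : V → ℝ

abbrev Fn := Sa → (V → V) → (V → ℝ) → ℝ
def nrep (N : ℕ) : ℕ := N ^ 1310
def nr (N : ℕ) : ℕ := N ^ 400
def nsig (N : ℕ) : ℕ := N ^ 30
def nsg (N : ℕ) : ℝ := (N : ℝ) ^ 90
/-- lateral lists of length at most `n` -/
def LL : ℕ → Finset (List (Fin 3))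
  | 0 => {[]}
  | n + 1 => LL n ∪ (LL n).biUnion fun l => {0 :: l, 1 :: l}

/-- integral along the part `I` of a column -/
def colI (n : ℝ → V) (I : Set ℝ) (g : V → ℝ) (w : V) : ℝ := ∫ r in I, g (cpt n w r)
def env (h w : V) : ℝ := Real.exp (-(∑ i, (w i / h i) ^ 2) / 30) / (h 0 * h 1 * h 2)
def lat2 (h w : V) : ℝ := (w 0 / h 0) ^ 2 + (w 1 / h 1) ^ 2

namespace MD
variable (d : MD)
def sa (u : ℕ → V → V) (ω : ℕ → V → ℝ) (m : ℕ) : Sa :=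
  ⟨Up u m, Cv u m, fun x => d.th x + ∑ j ∈ Finset.range m, ω j x⟩
/-- running value of a functional -/
def X (Λ : Fn) (u : ℕ → V → V) (ω : ℕ → V → ℝ) (m : ℕ) : ℝ :=
  ∑ j ∈ Finset.range m, Λ (d.sa u ω j) (u j) (ω j)
/-- linear flux of one displacement -/
def Fv (S : V → Mx) (s : Sa) (v : V → V) (z : V) : V := fun i =>
  -dens (fun x => d.ρ x * v x i) (fun x => d.Z x + s.U x) (fun x => S x - s.C x) z
def Am (s : Sa) (v : V → V) (ω : V → ℝ) (x : V) : Mx :=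
  jm v x - ω x • E02 - (1 / 2 * pd 0 d.Pq x * s.Θ x * ω x) • E00
def nE : Mx := qp d.c.N (1 / 5) • d.c.sd +
  if d.c.noise then (1 / (qp d.c.N (1 / 10) * Real.sqrt d.c.J)) • d.c.nz else 0
def nV : ℝ := (if d.c.noise then d.c.η * d.c.p / (qp d.c.N (21 / 5) * Real.sqrt d.c.J) else 0) +
  np d.c.N (-5)
def pU (x : V) (j : Fin 3) : Fn := fun _ v _ => v x j / (qp d.c.N (3 / 10) * d.c.hs j)
def pE (x : V) (a b : Fin 3) : Fn := fun s v ω => d.Am s v ω x a b / d.nE a b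
def pV (x : V) : Fn := fun s v ω =>
  if d.c.comp then ipm (d.c.PV (d.E x + jm s.U x)) (jm v x) / (uV d.c.N / 8)
  else (d.c.η * d.Am s v ω x 0 0 + (2 - d.c.η) * d.Am s v ω x 1 1) / d.nV
def pD (x : V) (l : List (Fin 3)) (i : Fin 3) : Fn := fun _ v _ =>
  pds l (fun w => v w i) x / (d.c.d2u / (qp d.c.N (13 / 10) * Real.sqrt d.c.J))
def pT (x : V) (l : List (Fin 3)) : Fn := fun _ _ ω =>
  hp d.c.thS l * pds l ω x / (qp d.c.N (1 / 10) * Real.sqrt d.c.p)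
def kB (z : V) (l : List (Fin 3)) (i : Fin 3) : Fn := fun s v _ =>
  hp d.c.hs l * pds l (fun w => d.Fv d.S s v w i) z / (np d.c.N (-285 / 1000) * d.c.hs i)
def kR (y' : ℝ) (z : V) (i : Fin 3) : Fn := fun s v _ =>
  y' / d.c.y * d.c.hs i * pd i (dv (d.Fv (d.SR y') s v)) z / np d.c.N (-29 / 100)
def kV (z : V) (i : Fin 3) : Fn := fun s v _ =>
  d.c.hs i * pd i (dv (d.Fv d.SL s v)) z / d.c.q
def wl (l : List (Fin 3)) : ℝ := if l = [] then pA d.c.N else 1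
def kP (g : Cu) (w : V) (l : List (Fin 3)) (i : Fin 3) : Fn := fun s v _ =>
  hp d.c.hs l * pds l (pre (d.ch g) (d.c.cf g (d.Fv d.S s v) i)) w /
    (d.c.hs i * (d.c.GG / 2) * d.wl l)
def kT (g : Cu) (w : V) (l : List (Fin 3)) (i : Fin 3) : Fn := fun s v _ =>
  hp d.c.hs l * pds l (tot (d.ch g) (d.c.cf g (d.Fv d.S s v) i)) w /
    (d.c.hs i * (d.c.GG / 2) * d.wl l)
def kL (z : V) (l : List (Fin 3)) : Fn := fun s v _ =>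
  hp d.c.hs l * pds l (pre 0 (dv (d.Fv d.SL s v))) z / (d.c.GG / 2)
/-- point functionals with a crude bound -/
def FamP : Set Fn := {Λ | ∃ x ∈ d.R (99 / 100), (∃ j, Λ = d.pU x j) ∨
  (∃ a b, a ≠ 2 ∧ Λ = d.pE x a b) ∨ (∃ l i, l.length = 2 ∧ Λ = d.pD x l i) ∨
  ∃ l, l.length ≤ 4 ∧ Λ = d.pT x l}
def FamV : Set Fn := {Λ | ∃ x ∈ d.R (99 / 100), Λ = d.pV x}
/-- kernel functionals at a point whose coordinate 1 is `a` -/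
def FamO (a : ℝ) : Set Fn := {Λ | ∃ (z : V) (i : Fin 3), z 1 = a ∧ i ≠ 2 ∧
  ((∃ l, l.length ≤ 3 ∧ Λ = d.kB z l i) ∨ (∃ y', d.c.yrg y' ∧ Λ = d.kR y' z i) ∨
    (¬ d.c.comp ∧ Λ = d.kV z i))}
/-- column functionals cut at the height `ζ` -/
def FamH (a ζ : ℝ) : Set Fn := {Λ | ∃ w : V, w 1 = a ∧
  ((∃ g, ∃ l ∈ LL 3, ∃ i, i ≠ 2 ∧ ((w 2 = ζ ∧ Λ = d.kP g w l i) ∨
      (ζ = 10 * d.c.D ∧ Λ = d.kT g w l i))) ∨
    (¬ d.c.comp ∧ w 2 = ζ ∧ ∃ l ∈ LL 2, l ≠ [] ∧ Λ = d.kL w l))}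
def FamK : Set Fn := {Λ | ∃ a, Λ ∈ d.FamO a ∨ ∃ ζ, Λ ∈ d.FamH a ζ}
def FamC : Set Fn := d.FamP ∪ d.FamK
def Fam : Set Fn := d.FamC ∪ d.FamV

/-- a good state -/
structure Gs (s : Sa) : Prop where
  sm : Sm s.U ∧ SmM s.C ∧ Sm s.Θ
  sup : ∀ x, (x ∉ d.R (93 / 100) → s.U x = 0 ∧ s.C x = 0) ∧ s.U x 2 = 0 ∧ (s.C x)ᵀ = s.C x ∧
    ∀ i, s.C x 2 i = 0
  ub : ∀ x, (∀ j, |s.U x j| ≤ Real.sqrt (d.c.q * d.c.J) * d.c.hs j) ∧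
    EB (jm s.U x) (cm (1 / Real.sqrt d.c.J)) ∧ (d.c.comp → EB (jm s.U x) (cm (nu d.c.N)))
  d2 : ∀ i, CO 2 (cv 1) univ (fun x => s.U x i) (d.c.d2u / d.c.q)
  cb : ∃ τ : ℝ, 0 ≤ τ ∧ τ ≤ 1 ∧ ∀ x ∈ d.R (99 / 100),
    EB (nrm d.c.hs (s.C x - (τ * d.α x ^ 2) • d.C x)) (cm (2 * d.c.eSm))
  th : d.c.noise → CB 4 d.c.thS (d.R (99 / 100)) s.Θ
    (2 * qp d.c.N (2 / 5) * Real.sqrt (d.c.J * d.c.p))
/-- a state close to another one -/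
structure Cl (s s' : Sa) : Prop where
  sm : Sm s'.U ∧ SmM s'.C ∧ Sm s'.Θ
  sup : ∀ x, (x ∉ d.R (93 / 100) → s'.U x = 0 ∧ s'.C x = 0) ∧ (s'.C x)ᵀ = s'.C x
  cl : ∀ x, ‖s'.U x - s.U x‖ ≤ np d.c.N (-270) * d.c.lam ∧
    EB (jm s'.U x - jm s.U x) (cm (np d.c.N (-270))) ∧
    EB (s'.C x - s.C x) (cm (np d.c.N (-270) * d.c.lam ^ 2)) ∧ |s'.Θ x - s.Θ x| ≤ np d.c.N (-270)
def Gw (s : Sa) : Prop := ∃ s0, d.Gs s0 ∧ d.Cl s0 s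
/-- a displacement of size `e` with its increment of the noise -/
structure Cr (e : ℝ) (v : V → V) (ω : V → ℝ) : Prop where
  sm : Sm v ∧ Sm ω
  sup : ∀ x, (x ∉ d.R (93 / 100) → v x = 0 ∧ ω x = 0) ∧ v x 2 = 0
  nn : ¬ d.c.noise → ω = 0
  sz : ∀ x i, |v x i| ≤ e * d.c.q * d.c.hs i
  cb : (∀ i, CB 4 (cv d.c.lam) univ (fun x => v x i) (e * np d.c.N 15 * d.c.lam)) ∧
    CB 5 (cv d.c.lam) univ ω (e * np d.c.N 15)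
def ep : ℝ := np d.c.N (-700)
/-- sums over a finite family that do not depend on signs; `t` is the total weight -/
structure Sums {ι : Type} (T : Finset ι) (v : ι → V → V) (ω : ι → V → ℝ) (t : ℝ) : Prop where
  cov : ∀ i j, CB 4 (cv d.c.hE) (d.R (99 / 100)) (fun x => nrm d.c.hs
    (∑ a ∈ T, vecMulVec (v a x) (v a x) - (t * d.α x ^ 2) • d.C x) i j) (t * d.c.eSm)
  yy : d.c.noise → (∀ x, t * ((8 / 100 * d.α x ^ 2 - np d.c.N (-5)) * d.c.p) ≤ ∑ a ∈ T, ω a x ^ 2 ∧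
    ∑ a ∈ T, ω a x ^ 2 ≤ t * ((11 / 100 * d.α x ^ 2 + np d.c.N (-5)) * d.c.p)) ∧
    CB 1 d.c.thS univ (fun x => ∑ a ∈ T, ω a x ^ 2) (t * (d.c.q * d.c.p))
  q2 : d.c.comp → ∀ x ∈ d.R (99 / 100),
    qp d.c.N (1 / 10) * ∑ a ∈ T, d.c.Qup (jm (v a) x) ≤
      t * (uV d.c.N / 8 + d.c.cost d.O d.ρ x + d.c.q * d.c.bst d.O x) ∧
    qp d.c.N (1 / 10) * ∑ a ∈ T, d.c.Qlo (jm (v a) x) ≤ t * (uV d.c.N / 8) ∧
    t * (d.c.bst d.O x / 25 - uV d.c.N / 8) ≤ ∑ a ∈ T, jm (v a) x 1 2 ^ 2 ∧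
    ∑ a ∈ T, ∑ i, ∑ j, jm (v a) x i j ^ 2 ≤ t * np d.c.N (-98 / 100)
/-- the candidates of one round -/
structure RC (s : Sa) (v : ℕ → V → V) (ω : ℕ → V → ℝ) : Prop where
  cr : ∀ m, d.Cr d.ep (v m) (ω m)
  su : d.Sums (Finset.range (nr d.c.N)) v ω (1 / nrep d.c.N)
  var : ∀ Λ ∈ d.Fam, ∑ m ∈ Finset.range (nr d.c.N), Λ s (v m) (ω m) ^ 2 ≤ 1 / (4 * nrep d.c.N)
/-- the whole path -/
structure Path (u : ℕ → V → V) (ω : ℕ → V → ℝ) : Prop where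
  cr : ∀ m, d.Cr d.ep (u m) (ω m)
  su : d.Sums (Finset.range (nT d.c.N)) u ω 1
  gs : ∀ m ≤ nT d.c.N, d.Gs (d.sa u ω m)
  cru : ∀ m ≤ nT d.c.N, ∀ Λ ∈ d.FamC, |d.X Λ u ω m| ≤ 2 * qp d.c.N (1 / 10) * Real.sqrt d.c.J
def dth (ω : ℕ → V → ℝ) (x : V) : ℝ := ∑ j ∈ Finset.range (nT d.c.N), ω j x
def dY (ω : ℕ → V → ℝ) (x : V) : ℝ := ∑ j ∈ Finset.range (nT d.c.N), ω j x ^ 2

/-! ## windows -/

/-- lateral average of the energy over a rectangle -/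
def eav (a0 a1 W0 W1 s : ℝ) : ℝ := (∫ x0 in (a0 - W0)..(a0 + W0), ∫ x1 in (a1 - W1)..(a1 + W1),
  enr d.c.ro d.c.lam d.ρ ![x0, x1, s]) / (4 * W0 * W1)
structure Win (Ψ Ψm : V → V) (ce W : V) : Prop where
  sm : Sm Ψm ∧ ∀ x, Ψm x 2 = 0
  sup : ∀ x, (Ψm x ≠ 0 → x ∈ d.R (93 / 100) ∧ ∀ i, |x i - ce i| ≤ W i) ∧
    (Ψ x ≠ 0 → |x 0 - ce 0| ≤ W 0 ∧ |x 1 - ce 1| ≤ np d.c.N (9 / 100) * W 1 ∧ |x 2 - ce 2| ≤ W 2)
  wd : d.c.l1 ≤ W 0 ∧ d.c.lam ≤ W 1 ∧ 0 < W 2 ∧ W 0 ≤ np d.c.N (101 / 100) * d.c.lam ∧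
    W 1 ≤ np d.c.N (101 / 100) * d.c.lam ∧ W 2 ≤ np d.c.N (51 / 100) * d.c.lam ∧
    (d.c.comp → W 0 ≤ np d.c.N (51 / 100) * d.c.lam ∧ W 1 ≤ np d.c.N (51 / 100) * d.c.lam)
  nc : ¬ d.c.comp → Ψ = Ψm
  am : ∀ x i, |Ψm x i| ≤ qp d.c.N (1 / 100) * d.c.hs i ∧
    |Ψ x i - Ψm x i| ≤ np d.c.N (-47 / 100) * d.c.hs i
  bB : ¬ d.c.isA → W 0 / d.c.l1 * (W 1 / d.c.lam) * W 2 ^ 2 ≤ d.c.GG ^ 2 / qp d.c.N (9 / 10)
  bA : d.c.isA → (∀ i, CB 2 ![d.c.l1, d.c.lam, d.c.lam] univ (fun x => Ψm x i)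
      (qp d.c.N (1 / 100) * d.c.hs i) ∧
      ∀ j x, j ≠ 2 → d.c.hs j * |pd j (fun w => Ψm w i) x| ≤ np d.c.N (-2 / 5) * d.c.hs i) ∧
    W 0 / d.c.l1 * (W 1 / d.c.lam) * ((∫ s in (ce 2 - W 2)..(ce 2 + W 2),
      Real.sqrt (d.eav (ce 0) (ce 1) (W 0) (W 1) s)) + W 2 / d.c.J ^ 15) ^ 2 ≤
      d.c.GG ^ 2 / qp d.c.N (9 / 10)
/-- windows with disjoint closed supports -/
structure Swp {ι : Type} (T : Finset ι) (Ψ Ψm : ι → V → V) (om : ι → V → ℝ) (ce W : ι → V) :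
    Prop where
  cr : ∀ t ∈ T, d.Cr 1 (Ψ t) (om t)
  win : ∀ t ∈ T, d.Win (Ψ t) (Ψm t) (ce t) (W t)
  dis : ∃ Bx : ι → Set V, (∀ t ∈ T, IsClosed (Bx t) ∧ ∀ x, x ∉ Bx t →
    Ψ t x = 0 ∧ Ψm t x = 0 ∧ om t x = 0) ∧ ∀ t ∈ T, ∀ t' ∈ T, t ≠ t' → Disjoint (Bx t) (Bx t')
  card : (T.card : ℝ) ≤ (d.c.N : ℝ) ^ 303
def nearS {ι : Type} (T : Finset ι) (Ψm : ι → V → V) (a : ℝ) : Prop :=
  ∃ t ∈ T, ∃ x, Ψm t x ≠ 0 ∧ |d.Z x 1 - a| ≤ d.c.J ^ 22 * d.c.lam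
/-- the system of all windows of a round; `sw` names the sweep -/
structure WS (s : Sa) {ι κ : Type} (T : Finset ι) (sw : ι → κ) (Ψ Ψm : ι → V → V)
    (om : ι → V → ℝ) (ce W : ι → V) : Prop where
  swp : ∀ k, d.Swp (T.filter fun t => sw t = k) Ψ Ψm om ce W
  ns : ((T.image sw).card : ℝ) ≤ np d.c.N (9 / 100) * nsg d.c.N
  nn : ∀ a, (((T.image sw).filter fun k =>
    d.nearS (T.filter fun t => sw t = k) Ψm a).card : ℝ) ≤ 100 * nsg d.c.N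
  su : d.Sums T Ψ om (nsg d.c.N)
  var : ∀ Λ ∈ d.FamP ∪ d.FamV, ∑ t ∈ T, Λ s (Ψ t) (om t) ^ 2 ≤ nsg d.c.N / 4

/-- cells that matter -/
def cells : Finset Cu := Fintype.piFinset fun i =>
  Finset.Icc (-⌈4 * d.c.D / d.c.cw i⌉) ⌈4 * d.c.D / d.c.cw i⌉
def sq2 (l : List (Fin 3)) (i : Fin 3) (G : V → ℝ) : ℝ :=
  (∫ w : ℝ × ℝ, (hp d.c.hs l * pds l G ![w.1, w.2, 0]) ^ 2) / (d.c.hs i ^ 2 * (d.c.l1 * d.c.lam))
/-- the square of the Hilbert norm -/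
def Hn (s : Sa) (v : V → V) : ℝ :=
  ∑ g ∈ d.cells, ∑ i ∈ ({0, 1} : Finset (Fin 3)), ∑ l ∈ LL 5,
    d.sq2 l i (tot (d.ch g) (d.c.cf g (d.Fv d.S s v) i)) / d.wl l ^ 2 +
  if d.c.comp then 0 else ∑ i ∈ ({0, 1} : Finset (Fin 3)), ∑ l ∈ (LL 5).filter (2 ≤ ·.length),
    d.sq2 l i (tot 0 fun z => d.Fv d.SL s v z i)
def U2 : ℝ := d.c.GG ^ 2 / qp d.c.N (4 / 5)
end MD

/-! ## the explicit patterns -/

def f0 (t : ℝ) : ℝ := bp (1 / 5) (2 / 5) t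
def f1 (t : ℝ) : ℝ := deriv f0 t
def I0 : ℝ := ∫ t, f0 t ^ 2
def I1 : ℝ := ∫ t, f1 t ^ 2
abbrev Wi := Fin 3 × Cu

structure PT where
  r : Fin 3 → V → ℝ
  τ : Fin 3 → ℤ → ℤ → ℝ → ℝ
  Pt : V → Mx

namespace MD
variable (d : MD)
def W1 (φ : Fin 3) : ℝ := if φ = 0 then d.c.W10 else d.c.W11
def W2 (φ : Fin 3) : ℝ := if φ = 0 then d.c.W20 else d.c.W21
def vs (φ : Fin 3) : ℝ := ![0, 1, -1] φ
def ca (φ : Fin 3) : ℝ := if φ = 0 then d.c.l1 * d.c.W20 / Real.sqrt (I0 ^ 2 * I1)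
  else d.c.lam * d.c.W11 / (d.c.η0 * Real.sqrt (2 * I0 ^ 2 * I1))
def nz0 (φ : Fin 3) : Prop := d.c.noise ∧ φ = 0
def Hh (φ : Fin 3) : ℝ := if φ = 0 then
  (if d.c.noise then Real.sqrt (3 / 16 * (I1 / I0) / (95 / 1000)) * d.c.Hp else d.c.H0) else d.c.H1
def Ug (φ : Fin 3) : ℝ := if φ = 0 then d.c.Ug0 else d.c.Ug1
def En (φ : Fin 3) : V → ℝ := if φ = 0 then d.c.En0 d.ρ else d.c.En1 d.ρ
def ns : ℝ := nsig d.c.N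
def c0 (φ : Fin 3) (k0 : ℤ) : ℝ := d.W1 φ * (k0 / d.ns)
def c1 (φ : Fin 3) (k0 k1 : ℤ) : ℝ := d.W2 φ * (k1 / d.ns - vs φ * (k0 / d.ns))
def mm : ℕ := ⌈np d.c.N (8 / 100)⌉₊
def bw (φ : Fin 3) : ℝ := d.mm * d.W2 φ / 4
def P0 : Mx := dg3 d.c.η (2 - d.c.η) 0
variable (p : PT) (s : Sa)
def Ph (t : Wi) (x : V) : ℝ := d.ca t.1 * d.α x * p.r t.1 x * f0 (x 0 / d.W1 t.1 - t.2 0 / d.ns) *
  f0 (x 1 / d.W2 t.1 + vs t.1 * (x 0 / d.W1 t.1) - t.2 1 / d.ns)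
def ph (t : Wi) (x : V) : ℝ := p.τ t.1 (t.2 0) (t.2 1) (x 2) - t.2 2 / d.ns
def ze (x : V) : ℝ := d.Pq x * s.Θ x / (2 * d.Hh 0)
def prof (t : Wi) (x : V) : ℝ := if d.nz0 t.1 then
  Real.sqrt (1 - I1 / I0 * d.ze s x ^ 2) * f0 (d.ph p t x) + d.ze s x * f1 (d.ph p t x)
  else f0 (d.ph p t x)
def Pm' (t : Wi) (x : V) : V :=
  ![pd 1 (d.Ph p t) x * d.prof p s t x, -d.c.η0 * pd 0 (d.Ph p t) x * d.prof p s t x, 0]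
def om (t : Wi) (x : V) : ℝ :=
  if d.nz0 t.1 then pd 1 (d.Ph p t) x * f1 (d.ph p t x) / d.Hh 0 else 0
def wc (t : Wi) (x : V) : ℝ := ipm (p.Pt x - d.P0) (jm (d.Pm' p s t) x) / (2 - d.c.η)
/-- the compensator -/
def Gc (t : Wi) (x : V) : ℝ := if d.c.comp then -∫ r in Iic (x 1), (d.wc p s t ![x 0, r, x 2] -
  (∫ r', d.wc p s t ![x 0, r', x 2]) * (kb ((r - d.c1 t.1 (t.2 0) (t.2 1)) / d.bw t.1) / d.bw t.1))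
  else 0
def Ps (t : Wi) (x : V) : V := d.Pm' p s t x + ![0, d.Gc p s t x, 0]
def lo (t : Wi) : ℝ := Function.invFun (p.τ t.1 (t.2 0) (t.2 1)) (t.2 2 / d.ns - 1 / 2)
def hi (t : Wi) : ℝ := Function.invFun (p.τ t.1 (t.2 0) (t.2 1)) (t.2 2 / d.ns + 1 / 2)
def ce (t : Wi) : V := ![d.c0 t.1 (t.2 0), d.c1 t.1 (t.2 0) (t.2 1), (d.lo p t + d.hi p t) / 2]
def Wd (t : Wi) : V := ![d.W1 t.1 / 2, d.W2 t.1, (d.hi p t - d.lo p t) / 2]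
def TT : Finset Wi := Finset.univ ×ˢ Fintype.piFinset fun _ =>
  Finset.Icc (-(d.c.N : ℤ) ^ 130) ((d.c.N : ℤ) ^ 130)
def swp (t : Wi) : Fin 3 × Cu × ℤ := (t.1, fun i => t.2 i % (nsig d.c.N : ℤ),
  if d.c.comp then ⌊d.Z (d.ce p t) 1 / (d.W2 t.1 / 2)⌋ % (2 * d.mm : ℤ) else 0)

/-- amplitudes -/
def AmpOk (r : Fin 3 → V → ℝ) : Prop := (∀ φ, Sm (r φ) ∧
    (∀ x ∈ d.R (95 / 100), 1 / 5 ≤ r φ x ∧ r φ x ≤ 1 / 2) ∧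
    CV 4 (cv d.c.hE) (d.R (95 / 100)) (r φ) (d.c.J ^ 16 * d.c.eL) ∧
    CV 7 (cv d.c.hm) (d.R (95 / 100)) (r φ) (d.c.J ^ 16 * d.c.eL)) ∧
  ∀ x ∈ d.R (95 / 100),
    r 0 x ^ 2 + d.c.b2 ^ 2 * (r 1 x ^ 2 + r 2 x ^ 2) = nrm d.c.hs (d.C x) 0 0 ∧
    d.c.b1 ^ 2 * r 0 x ^ 2 + (r 1 x ^ 2 + r 2 x ^ 2) = nrm d.c.hs (d.C x) 1 1 ∧
    -(d.c.b2 / Real.sqrt 2) * (r 1 x ^ 2 - r 2 x ^ 2) = nrm d.c.hs (d.C x) 0 1 ∧
    18 / 100 ≤ r 0 x ^ 2 ∧ r 0 x ^ 2 ≤ 19 / 100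
/-- clocks -/
def ClkOk (τ : Fin 3 → ℤ → ℤ → ℝ → ℝ) : Prop := ∀ φ k0 k1, Sm (τ φ k0 k1) ∧ τ φ k0 k1 0 = 0 ∧
  Function.Bijective (τ φ k0 k1) ∧ (¬ d.c.isA → ∀ a, τ φ k0 k1 a = a / d.Hh φ) ∧
  (∀ a, 1 / d.Hh φ ≤ deriv (τ φ k0 k1) a ∧ deriv (τ φ k0 k1) a ≤ np d.c.N (-498 / 1000) / d.c.lam ∧
    ∀ j ≤ 4, |iteratedDeriv (j + 2) (τ φ k0 k1) a| ≤
      np d.c.N (-985 / 1000) / d.c.lam ^ 2 * (np d.c.N (-48 / 100) / d.c.lam) ^ j) ∧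
  (d.c.isA → (∀ x : V, |x 0 - d.c0 φ k0| ≤ d.W1 φ / 2 → |x 1 - d.c1 φ k0 k1| ≤ d.W2 φ →
      deriv (τ φ k0 k1) (x 2) ^ 2 ≤ 1 / d.Hh φ ^ 2 + qp d.c.N (1 / 10) * d.En φ x / d.Ug φ ^ 2) ∧
    ∀ a b, a ≤ b → τ φ k0 k1 b - τ φ k0 k1 a ≤ 1 → ∫ r in a..b,
      Real.sqrt (d.eav (d.c0 φ k0) (d.c1 φ k0 k1) (d.W1 φ / 2) (d.W2 φ) r) ≤
        qp d.c.N (1 / 100) * d.Ug φ)
/-- mollified gradient of the potential -/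
def PtOk (Pt : V → Mx) : Prop := d.c.comp → SmM Pt ∧
  (∀ x ∈ d.R (95 / 100), EB2 (Pt x - d.P0) (cm (np d.c.N (-485 / 1000))) ∧
    EB2 (d.c.PV (d.E x + jm s.U x) - Pt x) (cm (np d.c.N (-507 / 1000)))) ∧
  ∀ i j, i ≠ 2 → CV 5 (cv d.c.hE) (d.R (95 / 100)) (fun x => Pt x i j) (np d.c.N (-1 / 2))
def POk : Prop := d.AmpOk p.r ∧ d.ClkOk p.τ ∧ d.PtOk s p.Pt
/-- sharp table for the differential of the main part; `a` is the speed of the clock -/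
def tab (φ : Fin 3) (a : ℝ) : Mx := if φ = 0 then
  !![d.c.dl, d.c.s12, if d.c.noise then 0 else d.c.l1 * a;
    d.c.η * d.c.dl ^ 2 / d.c.s12, d.c.η * d.c.dl, d.c.η * d.c.dl / d.c.s12 * (d.c.l1 * a); 0, 0, 0]
  else !![d.c.dl', d.c.η * d.c.dl' ^ 2 / d.c.s21, d.c.dl' / d.c.s21 * (d.c.lam * a);
    d.c.s21, d.c.η * d.c.dl', d.c.lam * a; 0, 0, 0]
def ter : ℝ := if etaS d.c.N / 40 ≤ d.c.η then np d.c.N (-85 / 100) else np d.c.N (-2)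
/-- remainder table of the noise -/
def tnz : Mx := (1 / (qp d.c.N (1 / 2) * Real.sqrt d.c.J)) •
  (d.c.nz + !![0, d.c.s12, 0; d.c.s21, d.c.η * d.c.dl, d.c.s21; 0, 0, 0])
/-- bounds for the main part of a window -/
structure Der (t : Wi) : Prop where
  cr : d.Cr 1 (d.Pm' p s t) (d.om p t)
  sup : ∀ x, x ∉ d.R (9 / 10) ∨ 2 / 5 < |x 0 / d.W1 t.1 - t.2 0 / d.ns| ∨
    2 / 5 < |x 1 / d.W2 t.1 + vs t.1 * (x 0 / d.W1 t.1) - t.2 1 / d.ns| ∨ 2 / 5 < |d.ph p t x| →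
    d.Pm' p s t x = 0 ∧ d.om p t x = 0
  am : ∀ x i, |d.Pm' p s t x i| ≤ qp d.c.N (1 / 100) * d.c.hs i
  tb : ∀ x, EB2 (d.Am s (d.Pm' p s t) (d.om p t) x) ((qp d.c.N (1 / 100) * |d.α x|) •
    d.tab t.1 (deriv (p.τ t.1 (t.2 0) (t.2 1)) (x 2)) + cm d.ter + if d.nz0 t.1 then d.tnz else 0)
  dv : ∀ x, |d.c.η * d.Am s (d.Pm' p s t) (d.om p t) x 0 0 +
    (2 - d.c.η) * d.Am s (d.Pm' p s t) (d.om p t) x 1 1| ≤ if d.nz0 t.1 then d.nV / 10 else 0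
  d2 : ∀ i, CO 2 (cv 1) univ (fun x => d.Pm' p s t x i) (d.c.d2u / (d.c.q ^ 2 * Real.sqrt d.c.J))
  th : CB 4 d.c.thS univ (d.om p t) (qp d.c.N (1 / 100) * Real.sqrt d.c.p)
  cp : d.c.comp → ∀ i, CB 4 (cv d.c.hE) univ (fun x => d.Pm' p s t x i)
      (qp d.c.N (1 / 100) * d.c.hs i) ∧
    ∀ j, CB 4 (cv d.c.hE) univ (pd j fun x => d.Pm' p s t x i) (np d.c.N (-495 / 1000))
/-- bounds for the compensator of a window -/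
structure Cmp (t : Wi) : Prop where
  sm : Sm (d.Gc p s t)
  sup : ∀ x, x ∉ d.R (91 / 100) ∨ 2 / 5 < |x 0 / d.W1 t.1 - t.2 0 / d.ns| ∨
    d.bw t.1 < |x 1 - d.c1 t.1 (t.2 0) (t.2 1)| ∨ 2 / 5 < |d.ph p t x| → d.Gc p s t x = 0
  z0 : d.Pm' p s t = 0 → d.Gc p s t = 0
  cb : CB 4 (cv d.c.hE) univ (d.Gc p s t) (np d.c.N (-472 / 1000) * d.c.lam)
  d1 : ∀ j x, |pd j (d.Gc p s t) x| ≤ np d.c.N (-94 / 100)
  d2 : CO 2 (cv 1) univ (d.Gc p s t) (np d.c.N (-13 / 10) / d.c.lam)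
  fo : d.c.comp → ∀ x ∈ d.R (99 / 100),
    |ipm (d.c.PV (d.E x + jm s.U x)) (jm (d.Ps p s t) x)| ≤
      if d.W2 t.1 < |x 1 - d.c1 t.1 (t.2 0) (t.2 1)| then np d.c.N (-105 / 100)
      else np d.c.N (-1001 / 1000)
end MD

end
end Pool.Agent.MP_20bec2_an.T3

end MrgPart0

-- ======== part 1: formerly Pool.Agent.MP_20bec2_an.T3.SpecM
section MrgPart1

set_option autoImplicit false
open MeasureTheory Set Filter Matrix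

namespace Pool.Agent.MP_20bec2_an.T3
noncomputable section
open Classical

/-- for all large `N` and all data of one cube -/
def EvD (P : MD → Prop) : Prop :=
  ∀ᶠ N : ℕ in atTop, ∀ d : MD, d.c.N = N → d.c.k < nb N → d.In → P d

/-! ## general tools -/

def Feed2Stmt : Prop := ∀ (ι : Type) (T : Finset ι) (G : ι → ι → ℝ) (U : ℝ) (key : ι → ℝ), 0 < U →
  (∀ t t', G t t' = G t' t) → (∀ a : ι → ℝ, 0 ≤ ∑ t ∈ T, ∑ t' ∈ T, a t * a t' * G t t') →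
  (∀ t ∈ T, G t t ≤ U ^ 2) → ∃ A : ι → ι → ℝ, (∀ t ∈ T, ∑ s ∈ T, A t s ^ 2 = 1) ∧
    (∀ l : ι → ℝ, ∑ s ∈ T, (∑ t ∈ T, A t s * l t) ^ 2 ≤ 8 * ∑ t ∈ T, l t ^ 2) ∧
    ∀ (κ : ℝ) (l : ι → ℝ) (c : ℝ), 0 ≤ c → (∀ a : ι → ℝ, (∀ t ∈ T, κ < key t → a t = 0) →
      (∑ t ∈ T, a t * l t) ^ 2 ≤
        c * (∑ t ∈ T, ∑ t' ∈ T, a t * a t' * G t t' + U ^ 2 * ∑ t ∈ T, a t ^ 2)) →
      ∑ s ∈ T, (∑ t ∈ T with key t ≤ κ, A t s * l t) ^ 2 ≤ 8 * c * U ^ 2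

/-- Riemann sums of translates -/
def AvgStmt : Prop := ∀ g : ℝ → ℝ, Sm g → (∀ t, 1 ≤ |t| → g t = 0) → ∃ C : ℝ, ∀ n : ℕ, 0 < n →
  Sm (fun a : ℝ => ∑ᶠ k : ℤ, g (a - k / n)) ∧ ∀ j ≤ 6, ∀ a : ℝ,
    |iteratedDeriv j (fun a : ℝ => (∑ᶠ k : ℤ, g (a - k / n)) - n * ∫ t, g t) a| ≤ C

/-- nets -/
def NetStmt : Prop := ∀ (K : Set V) (r δ : ℝ), 0 < δ → 0 ≤ r → (∀ x ∈ K, ‖x‖ ≤ r) →
  ∃ I : Finset V, ↑I ⊆ K ∧ (I.card : ℝ) ≤ (2 * r / δ + 3) ^ 3 ∧ ∀ x ∈ K, ∃ y ∈ I, ‖x - y‖ ≤ δ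

/-- two-dimensional Sobolev bound -/
def SobStmt : Prop := ∃ C : ℝ, 1 ≤ C ∧ ∀ (h : V) (G : V → ℝ), (∀ i, 0 < h i) → Sm G →
  (∀ l ∈ LL 2, Integrable fun w : ℝ × ℝ => pds l G ![w.1, w.2, 0] ^ 2) → ∀ a b : ℝ,
    G ![a, b, 0] ^ 2 ≤ C * ∑ l ∈ LL 2,
      (∫ w : ℝ × ℝ, (hp h l * pds l G ![w.1, w.2, 0]) ^ 2) / (h 0 * h 1)

/-- every derivative is bounded -/
def BdD (b : V → ℝ) : Prop := ∀ l, ∃ B, ∀ z, |pds l b z| ≤ B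
/-- smooth, every derivative is dominated by an integrable function of the height -/
def ColD (g : V → ℝ) : Prop := Sm g ∧ ∀ l, ∃ φ : ℝ → ℝ, Integrable φ ∧ ∀ z, |pds l g z| ≤ φ (z 2)

/-- kernels of column integrals -/
def ColkStmt : Prop := ∃ C : ℝ, 1 ≤ C ∧ ∀ (h : V) (n : ℝ → V) (κ : ℝ), (∀ i, 0 < h i) → Sm n →
  (∀ i, i ≠ 2 → (∀ r, |deriv (fun r => n r i) r| ≤ κ) ∧ κ * h 2 ≤ h i / 100) → κ ≤ 1 / 1000 →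
  (∀ (b : V → ℝ) (Bc : ℝ) (I : Set ℝ), Sm b → BdD b → CB 6 h univ b Bc → MeasurableSet I →
    (∀ U a A Z S, KL h U a A Z S → ColD (fun z => b z * dens a Z S z) ∧
      Sm (colI n I fun z => b z * dens a Z S z) ∧
      Sm (pre n fun z => b z * dens a Z S z) ∧
      (∀ w, pd 2 (pre n fun z => b z * dens a Z S z) w =
        b (cpt n w (w 2)) * dens a Z S (cpt n w (w 2))) ∧ ∀ l ∈ LL 6,
      pds l (pre n fun z => b z * dens a Z S z) = pre n (pds l fun z => b z * dens a Z S z) ∧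
      pds l (colI n I fun z => b z * dens a Z S z) = colI n I (pds l fun z => b z * dens a Z S z) ∧
      ∀ w, Integrable (fun r => pds l (fun z => b z * dens a Z S z) (cpt n w r)) ∧
      Integrable (fun x => a x * pds l (colI n I fun z => b z * ker (S x) (Z x - z)) w) ∧
      pds l (colI n I fun z => b z * dens a Z S z) w =
        ∫ x, a x * pds l (colI n I fun z => b z * ker (S x) (Z x - z)) w) ∧
    ∀ S v, PD h S → ∀ l ∈ LL 6, ∀ w,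
      hp h l * |pds l (colI n I fun z => b z * ker S (v - z)) w| ≤
        C * Bc * colI n I (indicator (tsupport b) fun z => env h (v - z)) w) ∧
  (∀ (I : Set ℝ) (v w : V) (e : ℝ), 0 ≤ e → (∀ r ∈ I, e ≤ |r - v 2|) →
    colI n I (fun z => env h (v - z)) w ≤ C / (h 0 * h 1) *
      Real.exp (-lat2 h (cin n v - w) / 60) * Real.exp (-(e / h 2) ^ 2 / 60)) ∧
  (∀ g : V → ℝ, Integrable g → Integrable (fun w : ℝ × ℝ => tot n g ![w.1, w.2, 0]) ∧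
    ∫ w : ℝ × ℝ, tot n g ![w.1, w.2, 0] = ∫ z, g z) ∧
  (∀ v, Integrable (fun z => env h (v - z)) ∧ ∫ z, env h (v - z) ≤ C) ∧
  ∀ (U : Set V) (Z : V → V) (w : V) (a b : ℝ), Convex ℝ U → IsCompact U → ContDiff ℝ 1 Z →
    (∀ x ∈ U, EB (jm Z x - 1) (cm (1 / 100))) → a ≤ b →
    ∫ x in U, env h (Z x - w) ≤ C ∧ (∀ s : ℝ, ∫ x : ℝ × ℝ in {x | ![x.1, x.2, s] ∈ U},
      Real.exp (-lat2 h (cin n (Z ![x.1, x.2, s]) - w) / 240) ≤ C * (h 0 * h 1)) ∧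
    ∫ x in U ∩ {x | x 2 ∈ Icc a b}, Real.exp (-lat2 h (cin n (Z x) - w) / 240) ≤
      C * (h 0 * h 1) * (b - a)

/-! ## kernels along the path -/

def KlsStmt : Prop := EvD fun d => ∀ s, d.Gw s →
  (∀ x ∈ d.R (99 / 100), EB (jm (fun w => d.Z w + s.U w) x - 1) (cm (3 / Real.sqrt d.c.J)) ∧
    ‖d.O *ᵥ (d.Z x + s.U x - x)‖ ≤ d.c.D / 900 ∧
    ∀ i, |s.U x i| ≤ 2 * Real.sqrt (d.c.q * d.c.J) * d.c.hs i) ∧
  ∀ (a : V → ℝ) (A : ℝ), Measurable a → (∀ x, |a x| ≤ A) → (∀ x, x ∉ d.R (93 / 100) → a x = 0) →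
    KL d.c.hs (d.R (99 / 100)) a A (fun x => d.Z x + s.U x) (fun x => d.S x - s.C x) ∧
    (∀ y', d.c.yrg y' → KL (d.c.hy y') (d.R (99 / 100)) a A (fun x => d.Z x + s.U x)
      (fun x => d.SR y' x - s.C x)) ∧
    KL (d.c.hy d.yL) (d.R (99 / 100)) a A (fun x => d.Z x + s.U x) (fun x => d.SL x - s.C x)

def LinStmt : Prop := EvD fun d => ∀ s, d.Gw s → ∀ Λ ∈ d.Fam, ∀ (ι : Type) (T : Finset ι)
  (c : ι → ℝ) (v : ι → V → V) (ω : ι → V → ℝ), (∀ t ∈ T, ∃ e, d.Cr e (v t) (ω t)) →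
  Λ s (fun x => ∑ t ∈ T, c t • v t x) (fun x => ∑ t ∈ T, c t * ω t x) =
    ∑ t ∈ T, c t * Λ s (v t) (ω t)

def StabStmt : Prop := EvD fun d => ∀ s s' v ω, d.Gs s → d.Cl s s' → d.Cr d.ep v ω →
  ∀ Λ ∈ d.Fam, |Λ s' v ω - Λ s v ω| ≤ np d.c.N (-860)

/-- shape of the net rows -/
def NetRow (F : MD → Set Fn) : Prop := EvD fun d => ∃ I : Finset Fn, ↑I ⊆ F d ∧
  (I.card : ℝ) ≤ (d.c.N : ℝ) ^ 20000 ∧ ∀ u ω, ∀ m ≤ nT d.c.N, ∀ b : ℝ, 0 ≤ b →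
    (∀ j, d.Cr d.ep (u j) (ω j)) → (∀ j < m, d.Gw (d.sa u ω j)) →
    (∀ Λ ∈ I, |d.X Λ u ω m| ≤ b) → ∀ Λ ∈ F d, |d.X Λ u ω m| ≤ b + 1
def NetpStmt : Prop := NetRow fun d => d.FamP
def NetoStmt : Prop := NetRow fun d => {Λ | ∃ a, Λ ∈ d.FamO a}
def NethStmt : Prop := NetRow fun d => {Λ | ∃ a ζ, Λ ∈ d.FamH a ζ}

def GoodStmt : Prop := EvD fun d => ∀ u ω, ∀ m ≤ nT d.c.N, (∀ j, d.Cr d.ep (u j) (ω j)) →
  (∀ Λ ∈ d.FamP, |d.X Λ u ω m| ≤ 2 * qp d.c.N (1 / 10) * Real.sqrt d.c.J) →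
  (∃ τ : ℝ, 0 ≤ τ ∧ τ ≤ 1 ∧ ∀ x ∈ d.R (99 / 100),
    EB (nrm d.c.hs (Cv u m x - (τ * d.α x ^ 2) • d.C x)) (cm (2 * d.c.eSm))) →
  (∀ x, ∑ j ∈ Finset.range m, ω j x ^ 2 ≤ d.c.p) → d.Gs (d.sa u ω m)

def RcStmt : Prop := EvD fun d => ∀ s, d.Gs s → ∃ v ω, d.RC s v ω

/-- choice of the signs -/
def RunmStmt : Prop := EvD fun d => ∀ (ι : Type) (T : Finset ι) (Λ : ι → Fn) (W : ι → ℝ),
  (∀ i ∈ T, Λ i ∈ d.Fam ∧ 0 ≤ W i) → ∃ u ω, d.Path u ω ∧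
    ∑ i ∈ T, W i * Real.exp (d.X (Λ i) u ω (nT d.c.N) ^ 2 / 6) ≤ 4 * ∑ i ∈ T, W i

/-! ## from the path to the output -/

def Fin0Stmt : Prop := EvD fun d => ∀ u ω, d.Path u ω →
  ((∀ i, CO 2 (cv 1) univ (fun x => Up u (nT d.c.N) x i) (d.c.d2u / d.c.q)) ∧
    ∀ i j, CO 1 (cv 1) univ (fun x => d.dN (d.dth ω) (d.dY ω) x i j) (d.c.d2u / d.c.q)) ∧
  (Sm (d.dth ω) ∧ Sm (d.dY ω) ∧ (∀ x, x ∉ d.R (93 / 100) → d.dth ω x = 0 ∧ d.dY ω x = 0) ∧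
    (¬ d.c.noise → d.dth ω = 0 ∧ d.dY ω = 0) ∧ (d.c.noise →
      CB 4 d.c.thS univ (d.dth ω) (qp d.c.N (3 / 10) * Real.sqrt (d.c.J * d.c.p)))) ∧
  ∀ x, jm (Up u (nT d.c.N)) x - d.dN (d.dth ω) (d.dY ω) x =
    ∑ j ∈ Finset.range (nT d.c.N), d.Am (d.sa u ω j) (u j) (ω j) x

def FinfStmt : Prop := EvD fun d => ∀ u ω, d.Path u ω →
  d.c.FB d.O d.ch (fmain d.ρ d.Z d.S u (nT d.c.N)) ∧
  ∀ y', d.c.yrg y' → ∀ i, i ≠ 2 → ∀ z, y' / d.c.y * d.c.hs i *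
    |pd i (dv (fmain d.ρ d.Z (d.SR y') u (nT d.c.N))) z| ≤ np d.c.N (-285 / 1000)

/-- shape of the rows with functionals at the sites -/
def FinRow (P : (d : MD) → (ℕ → V → V) → (ℕ → V → ℝ) → (Cu → ℝ) → Prop) : Prop := EvD fun d =>
  ∃ Ms : Cu → Finset Fn, (∀ s, ↑(Ms s) ⊆ d.Fam ∧ (Ms s).card ≤ 2000) ∧ ∀ u ω, d.Path u ω →
    ∀ xs : Cu → ℝ, (∀ s, 0 ≤ xs s) → (∀ s ∈ d.T, xs s ≤ 8 * qp d.c.N (1 / 10) * d.c.J ∧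
      ∀ Λ ∈ Ms s, d.X Λ u ω (nT d.c.N) ^ 2 ≤ xs s) → P d u ω xs
def FineStmt : Prop := FinRow fun d u ω xs =>
  ∀ s ∈ d.T, ∀ x ∈ d.R (99 / 100), ‖x - d.px s‖ ≤ d.c.h0 →
    EB2 (jm (Up u (nT d.c.N)) x - d.dN (d.dth ω) (d.dY ω) x)
      ((qp d.c.N (3 / 10) * (1 + xs s)) • d.c.sd + if d.c.noise then d.c.nz else 0)
def FinvStmt : Prop := FinRow fun d u ω xs =>
  ∀ s ∈ d.T, ∀ x ∈ d.R (99 / 100), ‖x - d.px s‖ ≤ d.c.h0 →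
    d.c.V2 (d.E x + (jm (Up u (nT d.c.N)) x - d.dN (d.dth ω) (d.dY ω) x)) - d.c.V2 (d.E x) ≤
      uV d.c.N / 2 * (1 + xs s) + d.c.cost d.O d.ρ x + d.c.q * d.c.bst d.O x +
        (if d.c.noise then d.c.η * d.c.p / d.c.q ^ 3 else 0) ∧
    -(uV d.c.N / 2 * (1 + xs s)) + d.c.bst d.O x / 100 -
        (if d.c.noise then d.c.η * d.c.p / d.c.q ^ 3 else 0) ≤
      d.c.V2 (d.E x + (jm (Up u (nT d.c.N)) x - d.dN (d.dth ω) (d.dY ω) x)) - d.c.V2 (d.E x)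
def FinnStmt : Prop := FinRow fun d u _ xs => ∀ s ∈ d.T, ∀ z, ‖z - d.pz s‖ ≤ d.c.h0 →
  d.c.Env d.ch (fmain d.ρ d.Z d.S u (nT d.c.N)) z (Real.sqrt (1 + xs s))
def FinlStmt : Prop := FinRow fun d u _ xs =>
  ¬ d.c.comp → ∀ s ∈ d.T, ∀ s' ∈ d.T, ∀ (z : V) (τ : ℝ), ‖z - d.pl s‖ ≤ d.c.hL →
    ‖z + τ • e3 - d.pl s'‖ ≤ d.c.hL → ∀ i, i ≠ 2 →
    d.c.hs i * |∫ r in (0 : ℝ)..τ, pd i (dv (fmain d.ρ d.Z d.SL u (nT d.c.N))) (z + r • e3)| ≤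
      d.c.GG * (Real.sqrt (1 + xs s) + Real.sqrt (1 + xs s'))

/-! ## variances of the kernel functionals in one sweep -/

/-- shape of the rows about one sweep -/
def SwRow (P : (d : MD) → Sa → (ι : Type) → Finset ι → (ι → V → V) → (ι → V → V) →
    (ι → V → ℝ) → (ι → V) → Prop) : Prop := EvD fun d => ∀ s, d.Gs s →
  ∀ (ι : Type) (T : Finset ι) Ψ Ψm om ce W, d.Swp T Ψ Ψm om ce W → P d s ι T Ψ Ψm om ce
def HnStmt : Prop := SwRow fun d s ι T Ψ _ _ _ => ∃ G : ι → ι → ℝ, (∀ t t', G t t' = G t' t) ∧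
  ∀ a : ι → ℝ, 0 ≤ d.Hn s (fun x => ∑ t ∈ T, a t • Ψ t x) ∧
    ∑ t ∈ T, ∑ t' ∈ T, a t * a t' * G t t' = d.Hn s (fun x => ∑ t ∈ T, a t • Ψ t x)
def GbStmt : Prop := EvD fun d => ∀ s Ψ Ψm om ce W, d.Gs s → d.Cr 1 Ψ om → d.Win Ψ Ψm ce W →
  (¬ d.c.isA → d.Hn s Ψ ≤ d.U2) ∧ d.Hn s (fun x => Ψ x - Ψm x) ≤ d.U2 / 4 ∧
  d.Hn s Ψ ≤ 2 * d.Hn s Ψm + 2 * d.Hn s (fun x => Ψ x - Ψm x)
def GaStmt : Prop := EvD fun d => ∀ s Ψ Ψm om ce W, d.Gs s → d.Cr 1 Ψ om → d.Win Ψ Ψm ce W →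
  d.c.isA → d.Hn s Ψm ≤ d.U2 / 4
def DomStmt : Prop := SwRow fun d s ι T Ψ _ om ce => ∀ a ζ, ∀ Λ ∈ d.FamH a ζ, ∀ c : ι → ℝ,
  (∀ t ∈ T, ζ - d.c.J * d.c.y < d.Z (ce t) 2 → c t = 0) →
  (∑ t ∈ T, c t * Λ s (Ψ t) (om t)) ^ 2 ≤ qp d.c.N (1 / 10) / d.c.GG ^ 2 *
    (d.Hn s (fun x => ∑ t ∈ T, c t • Ψ t x) + d.U2 * ∑ t ∈ T, c t ^ 2)
def OpoStmt : Prop := SwRow fun d s _ T Ψ Ψm om _ => ∀ a, ∀ Λ ∈ d.FamO a,
  ∑ t ∈ T, Λ s (Ψ t) (om t) ^ 2 ≤ if d.nearS T Ψm a then 1 / 10 ^ 4 else np d.c.N (-11 / 100)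
def OphStmt : Prop := SwRow fun d s _ T Ψ Ψm om ce => ∀ a ζ, ∀ Λ ∈ d.FamH a ζ,
  ∑ t ∈ T with ζ - d.c.J * d.c.y < d.Z (ce t) 2, Λ s (Ψ t) (om t) ^ 2 ≤ np d.c.N (-1 / 10) ∧
  (¬ d.nearS T Ψm a → ∑ t ∈ T, Λ s (Ψ t) (om t) ^ 2 ≤ np d.c.N (-11 / 100))
def KvarStmt : Prop := SwRow fun d s ι T Ψ Ψm om _ => ∃ A : ι → ι → ℝ,
  (∀ t ∈ T, ∑ t' ∈ T, A t t' ^ 2 = 1) ∧ ∀ a Λ, (Λ ∈ d.FamO a ∨ ∃ ζ, Λ ∈ d.FamH a ζ) →
    ∑ t' ∈ T, (∑ t ∈ T, A t t' * Λ s (Ψ t) (om t)) ^ 2 ≤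
      if d.nearS T Ψm a then 1 / 1000 else np d.c.N (-1 / 10)
def MixStmt : Prop := EvD fun d => ∀ s, d.Gs s → ∀ (ι κ : Type) (T : Finset ι) (sw : ι → κ)
  Ψ Ψm om ce W, d.WS s T sw Ψ Ψm om ce W → ∃ v ω, d.RC s v ω

/-! ## the patterns -/

def AmpStmt : Prop := EvD fun d => ∃ r, d.AmpOk r
def ClkStmt : Prop := EvD fun d => ∃ τ, d.ClkOk τ
def PtlStmt : Prop := EvD fun d => ∀ s, d.Gs s → ∃ Pt, d.PtOk s Pt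
/-- shape of the rows about the explicit patterns -/
def PRow (P : MD → PT → Sa → Prop) : Prop := EvD fun d => ∀ p s, d.Gs s → d.POk p s → P d p s
def DeraStmt : Prop := PRow fun d p s => ∀ t, ¬ d.nz0 t.1 → d.Der p s t
def DerbStmt : Prop := PRow fun d p s => ∀ t, d.nz0 t.1 → d.Der p s t
def CmpStmt : Prop := PRow fun d p s => ∀ t, d.Der p s t → d.Cmp p s t
/-- shape of the rows that use the bounds of all windows -/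
def QRow (P : MD → PT → Sa → Prop) : Prop := PRow fun d p s =>
  (∀ t, d.Der p s t ∧ d.Cmp p s t) → P d p s
def WinStmt : Prop := QRow fun d p s => ∀ t, d.Cr 1 (d.Ps p s t) (d.om p t) ∧
  d.Win (d.Ps p s t) (d.Pm' p s t) (d.ce p t) (d.Wd p t)
def ClsStmt : Prop := QRow fun d p s =>
  (∀ k, (((d.TT.filter fun t => d.swp p t = k).card : ℝ) ≤ (d.c.N : ℝ) ^ 303) ∧
    ∃ Bx : Wi → Set V, (∀ t, IsClosed (Bx t) ∧ ∀ x, x ∉ Bx t →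
      d.Ps p s t x = 0 ∧ d.Pm' p s t x = 0 ∧ d.om p t x = 0) ∧
      ∀ t t', d.swp p t = k → d.swp p t' = k → t ≠ t' → Disjoint (Bx t) (Bx t')) ∧
  ((d.TT.image (d.swp p)).card : ℝ) ≤ np d.c.N (9 / 100) * nsg d.c.N ∧
  (∀ a, (((d.TT.image (d.swp p)).filter fun k =>
    d.nearS (d.TT.filter fun t => d.swp p t = k) (d.Pm' p s) a).card : ℝ) ≤ 100 * nsg d.c.N) ∧
  (∀ t, t ∉ d.TT → d.Ps p s t = 0 ∧ d.Pm' p s t = 0 ∧ d.om p t = 0) ∧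
  ∀ x, ((d.TT.filter fun t => |x 0 / d.W1 t.1 - t.2 0 / d.ns| ≤ 9 / 20 ∧
      |x 1 - d.c1 t.1 (t.2 0) (t.2 1)| ≤ d.W2 t.1 ∧ |d.ph p t x| ≤ 9 / 20).card : ℝ) ≤
      9 * nsg d.c.N ∧
    ((d.TT.filter fun t => |x 0 / d.W1 t.1 - t.2 0 / d.ns| ≤ 9 / 20 ∧
      |x 1 - d.c1 t.1 (t.2 0) (t.2 1)| ≤ 2 * d.bw t.1 ∧ |d.ph p t x| ≤ 9 / 20).card : ℝ) ≤
      np d.c.N (9 / 100) * nsg d.c.N
def CovStmt : Prop := QRow fun d p s => ∀ i j, CB 4 (cv d.c.hE) (d.R (99 / 100))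
  (fun x => nrm d.c.hs (∑ a ∈ d.TT, vecMulVec (d.Ps p s a x) (d.Ps p s a x) -
    (nsg d.c.N * d.α x ^ 2) • d.C x) i j) (nsg d.c.N * d.c.eSm)
def YqStmt : Prop := QRow fun d p s => (d.c.noise →
    (∀ x, nsg d.c.N * ((8 / 100 * d.α x ^ 2 - np d.c.N (-5)) * d.c.p) ≤ ∑ a ∈ d.TT, d.om p a x ^ 2 ∧
      ∑ a ∈ d.TT, d.om p a x ^ 2 ≤ nsg d.c.N * ((11 / 100 * d.α x ^ 2 + np d.c.N (-5)) * d.c.p)) ∧
    CB 1 d.c.thS univ (fun x => ∑ a ∈ d.TT, d.om p a x ^ 2) (nsg d.c.N * (d.c.q * d.c.p))) ∧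
  (d.c.comp → ∀ x ∈ d.R (99 / 100), nsg d.c.N * (d.c.bst d.O x / 25 - uV d.c.N / 8) ≤
    ∑ a ∈ d.TT, jm (d.Ps p s a) x 1 2 ^ 2)
def PvStmt : Prop := QRow fun d p s =>
  (∀ Λ ∈ d.FamP ∪ d.FamV, ∑ t ∈ d.TT, Λ s (d.Ps p s t) (d.om p t) ^ 2 ≤ nsg d.c.N / 4) ∧
  (d.c.comp → ∀ x ∈ d.R (99 / 100),
    qp d.c.N (1 / 10) * ∑ a ∈ d.TT, d.c.Qup (jm (d.Ps p s a) x) ≤
      nsg d.c.N * (uV d.c.N / 8 + d.c.cost d.O d.ρ x + d.c.q * d.c.bst d.O x) ∧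
    qp d.c.N (1 / 10) * ∑ a ∈ d.TT, d.c.Qlo (jm (d.Ps p s a) x) ≤ nsg d.c.N * (uV d.c.N / 8) ∧
    ∑ a ∈ d.TT, ∑ i, ∑ j, jm (d.Ps p s a) x i j ^ 2 ≤ nsg d.c.N * np d.c.N (-98 / 100))

end
end Pool.Agent.MP_20bec2_an.T3

end MrgPart1

-- ======== part 2: formerly Pool.Agent.MP_20bec2_an.T3.WinA
section MrgPart2

/-! Geometry of one window: widths, clock, supports. -/

set_option autoImplicit false
set_option linter.unusedSectionVars false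
open MeasureTheory Set Filter Matrix

namespace Pool.Agent.MP_20bec2_an.T3.Win
noncomputable section
open Classical

/-- standing facts: large parameter, admissible clocks -/
structure Cx (d : MD) (p : PT) : Prop where
  g : Gd d.c
  kap : Real.sqrt (3 / 16 * (I1 / I0) / (95 / 1000)) ≤ pL d.c.N
  ck : d.ClkOk p.τ

lemma ev_cx {P : MD → PT → Sa → Prop} (H : ∀ d p s, Cx d p → d.In → d.Gs s → d.POk p s → P d p s) :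
    PRow P :=
  (ev_gd.and (ev_pL (Real.sqrt (3 / 16 * (I1 / I0) / (95 / 1000))))).mono
    fun _ hN d hd _ hi p s hs hp => H d p s ⟨hN.1 _ hd hi.ok, hd ▸ hN.2, hp.2.1⟩ hi hs hp

lemma vs_le (φ : Fin 3) : |MD.vs φ| ≤ 1 := by
  fin_cases φ <;> simp [MD.vs]

lemma log_H {c : Pm} (h : Gd c) :
    Real.log c.H0 ≤ Real.log c.lam + pJ c.N / 2 + 2 * pL c.N ∧
    Real.log c.Hp ≤ Real.log c.lam + pJ c.N / 2 + 2 * pL c.N ∧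
    Real.log c.H1 ≤ Real.log c.lam + pJ c.N / 2 + 2 * pL c.N ∧
    (¬ c.isA → pL c.N + Real.log c.Hp ≤ Real.log c.H0) ∧
    Real.log 2 + Real.log c.l1 ≤ Real.log c.W10 ∧ Real.log 2 + Real.log c.l1 ≤ Real.log c.W11 ∧
    (c.isA → Real.log c.l1 ≤ Real.log c.lam + 5 * pL c.N) := by
  have := h.log_W10; have := h.log_H0; have := h.log_Hp; have := h.log_W11
  have := h.log_H1; have := h.log_ro; have := h.log_m.1; have := h.log_m_le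
  have := h.log_K_bd.2; have := h.log_η_le; have := h.log_e4.1; have := h.log_e4.2.1
  have := h.log_mu_ge; have := h.log_l1; have := h.log_ro_bd.2
  have := h.log_ηp_ge; have := h.big.L_ge; have := h.big.J_ge
  have := log2_bd.1; have := log2_bd.2; have := log10_bd.1
  by_cases hA : c.isA
  · obtain ⟨a1, a2, a3, -, a5, a6⟩ := h.log_A hA
    refine ⟨?_, ?_, ?_, fun e => absurd hA e, ?_, ?_, fun _ => ?_⟩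
    any_goals linarith
    by_cases hb : c.boost
    · linarith [(h.log_bst hb).1]
    · linarith [(h.log_nbst hb).1]
  · obtain ⟨a1, a2, a3, -, a5, a6⟩ := h.log_B hA
    refine ⟨?_, ?_, ?_, fun _ => ?_, ?_, ?_, fun e => absurd e hA⟩
    any_goals linarith
    by_cases hb : c.boost
    · linarith [(h.log_bst hb).1]
    · linarith [(h.log_nbst hb).1]

lemma log_npl {c : Pm} (h : Gd c) (a : ℝ) :
    Real.log (np c.N a * c.lam) = a * pJ c.N + Real.log c.lam := by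
  rw [Real.log_mul (h.big.np_pos a).ne' h.lam_pos.ne', h.big.log_np]

lemma npl_pos {c : Pm} (h : Gd c) (a : ℝ) : 0 < np c.N a * c.lam :=
  mul_pos (h.big.np_pos a) h.lam_pos

lemma npl_le {c : Pm} (h : Gd c) {a b : ℝ} (e : a ≤ b) : np c.N a * c.lam ≤ np c.N b * c.lam :=
  mul_le_mul_of_nonneg_right (h.big.np_le e) h.lam_pos.le

/-- a gap in the exponent absorbs a constant -/
lemma np_gap {N : ℕ} (h : Big N) {a b C : ℝ} (hC : C ≤ 1000) (e : a + 1 / 1000 ≤ b) :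
    C * np N a ≤ np N b := by
  have h1 : (1000 : ℝ) ≤ np N (1 / 1000) := by
    rw [h.np_eq]
    linarith [Real.add_one_le_exp (1 / 1000 * pJ N), h.J_ge, h.L_ge]
  have h2 := h.np_le e
  rw [h.np_add] at h2
  nlinarith [h.np_pos a]

lemma one_le_np {N : ℕ} (h : Big N) {a : ℝ} (e : 0 ≤ a) : 1 ≤ np N a := by
  simpa [np] using h.np_le e

lemma comp_η {c : Pm} (h : Gd c) (hc : c.comp) : etaS c.N ≤ c.η := h.thr_bd.1.trans hc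

namespace Cx
variable {d : MD} {p : PT} (h : Cx d p)
include h

lemma W_bd (φ : Fin 3) : ∀ W ∈ [d.W1 φ, d.W2 φ],
    np d.c.N (499 / 1000) * d.c.lam ≤ W ∧ W ≤ np d.c.N (1001 / 1000) * d.c.lam ∧
    (d.c.comp → W ≤ np d.c.N (501 / 1000) * d.c.lam) := by
  intro W hW
  have h1 := h.g.win W (by
    simp only [MD.W1, MD.W2, List.mem_cons, List.not_mem_nil, or_false] at hW ⊢
    split_ifs at hW <;> tauto)
  exact ⟨h1.1, h1.2.1, fun hc => h1.2.2 (by linarith [comp_η h.g hc, h.g.big.etaS_pos])⟩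

lemma W1_pos (φ : Fin 3) : 0 < d.W1 φ := (npl_pos h.g _).trans_le (h.W_bd φ _ (by simp)).1
lemma W2_pos (φ : Fin 3) : 0 < d.W2 φ := (npl_pos h.g _).trans_le (h.W_bd φ _ (by simp)).1

lemma l1_le (φ : Fin 3) : d.c.l1 ≤ d.W1 φ / 2 := by
  have h1 := h.g.l1_pos
  have : 2 * d.c.l1 ≤ d.W1 φ := by
    refine le_of_log (by positivity) (h.W1_pos φ) ?_
    rw [Real.log_mul two_ne_zero h1.ne', MD.W1]
    split_ifs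
    exacts [(log_H h.g).2.2.2.2.1, (log_H h.g).2.2.2.2.2.1]
  linarith

lemma Hh_pos (φ : Fin 3) : 0 < d.Hh φ := by
  by_cases h0 : φ = 0
  · by_cases hn : d.c.noise
    · refine lt_of_le_of_ne ?_ fun e => ?_
      · rw [MD.Hh, if_pos h0, if_pos hn]
        exact mul_nonneg (Real.sqrt_nonneg _) h.g.Hp_pos.le
      · obtain ⟨-, -, h1, h2, -⟩ := h.ck φ 0 0
        have h3 := h2 fun hA => h.g.notcomp_of_noise hn (h.g.comp_of_isA hA)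
        exact zero_ne_one (h1.1 (by rw [h3, h3, ← e, div_zero, div_zero]))
    · rw [MD.Hh, if_pos h0, if_neg hn]; exact h.g.H0_pos
  · rw [MD.Hh, if_neg h0]; exact h.g.H1_pos

lemma kap_le : Real.sqrt (3 / 16 * (I1 / I0) / (95 / 1000)) * d.c.Hp ≤ d.c.J * d.c.Hp :=
  mul_le_mul_of_nonneg_right (h.kap.trans (by
    show _ ≤ pJ _
    linarith [h.g.big.J_ge, h.g.big.L_ge])) h.g.Hp_pos.le

lemma Hh_le (φ : Fin 3) : d.Hh φ ≤ np d.c.N (501 / 1000) * d.c.lam := by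
  obtain ⟨a1, a2, a3, -⟩ := log_H h.g
  have := h.g.big.J_ge; have := h.g.big.L_ge
  unfold MD.Hh
  split_ifs
  · refine h.kap_le.trans (le_of_log (mul_pos h.g.J_pos h.g.Hp_pos) (npl_pos h.g _) ?_)
    rw [log_npl h.g, Real.log_mul h.g.J_pos.ne' h.g.Hp_pos.ne', h.g.log_J]; linarith
  · exact le_of_log h.g.H0_pos (npl_pos h.g _) (by rw [log_npl h.g]; linarith)
  · exact le_of_log h.g.H1_pos (npl_pos h.g _) (by rw [log_npl h.g]; linarith)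

lemma Hh_B (hA : ¬ d.c.isA) (φ : Fin 3) : d.Hh φ ≤ d.Ug φ := by
  unfold MD.Hh MD.Ug
  split_ifs
  · refine h.kap_le.trans (le_trans ?_ (h.g.H0_le_Ug0 hA))
    refine le_of_log (mul_pos h.g.J_pos h.g.Hp_pos) h.g.H0_pos ?_
    rw [Real.log_mul h.g.J_pos.ne' h.g.Hp_pos.ne', h.g.log_J]
    exact (log_H h.g).2.2.2.1 hA
  exacts [h.g.H0_le_Ug0 hA, h.g.H1_le_Ug1 hA]

lemma Hh_A (hA : d.c.isA) (φ : Fin 3) : d.Hh φ ≤ d.c.J ^ 10 * d.Ug φ := by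
  unfold MD.Hh MD.Ug
  rw [if_neg fun hn => h.g.notcomp_of_noise hn (h.g.comp_of_isA hA)]
  split_ifs
  exacts [h.g.H0_le, h.g.H1_le]

lemma Ug_pos (φ : Fin 3) : 0 < d.Ug φ := by
  unfold MD.Ug
  split_ifs
  exacts [h.g.Ug0_pos, h.g.Ug1_pos]

lemma Ug_sq (φ : Fin 3) :
    d.W1 φ / d.c.l1 * (d.W2 φ / d.c.lam) * d.Ug φ ^ 2 = d.c.GG ^ 2 / d.c.q := by
  have e : d.Ug φ = d.c.GG / Real.sqrt (d.c.q * (d.W1 φ / d.c.l1) * (d.W2 φ / d.c.lam)) := by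
    unfold MD.Ug MD.W1 MD.W2
    split_ifs <;> rfl
  have := h.W1_pos φ; have := h.W2_pos φ; have := h.g.l1_pos; have := h.g.lam_pos
  have := h.g.q_pos
  rw [e, div_pow, Real.sq_sqrt (by positivity)]
  field_simp

lemma ns_eq : d.ns = (d.c.N : ℝ) ^ 30 := by simp [MD.ns, nsig]
lemma N_ge : (1000 : ℝ) ≤ d.c.N := by linarith [h.g.big.N_ge, h.g.big.J_ge, h.g.big.L_ge]
lemma ns_pos : 0 < d.ns := by rw [h.ns_eq]; exact pow_pos h.g.N_pos _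

lemma mm_bd : (1000 : ℝ) ≤ d.mm ∧ (d.mm : ℝ) ≤ 2 * np d.c.N (8 / 100) := by
  have h1 := np_gap h.g.big (a := 0) (b := 8 / 100) le_rfl (by norm_num)
  have h2 : np d.c.N 0 = 1 := by simp [np]
  have h3 := Nat.le_ceil (np d.c.N (8 / 100))
  have h4 := Nat.ceil_lt_add_one (h.g.big.np_pos (8 / 100)).le
  unfold MD.mm
  constructor <;> linarith

lemma W2_le_bw (φ : Fin 3) : d.W2 φ ≤ d.bw φ := by
  have := h.W2_pos φ; have := h.mm_bd.1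
  unfold MD.bw; nlinarith

/-! ### the clock -/

lemma τ_lo (φ : Fin 3) (k0 k1 : ℤ) {a b : ℝ} (e : a ≤ b) :
    1 / d.Hh φ * (b - a) ≤ p.τ φ k0 k1 b - p.τ φ k0 k1 a :=
  mul_sub_le_image_sub_of_le_deriv (h.ck φ k0 k1).1.dif
    (fun x => ((h.ck φ k0 k1).2.2.2.2.1 x).1) e

lemma τ_hi (φ : Fin 3) (k0 k1 : ℤ) {a b : ℝ} (e : a ≤ b) :
    p.τ φ k0 k1 b - p.τ φ k0 k1 a ≤ np d.c.N (-498 / 1000) / d.c.lam * (b - a) :=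
  image_sub_le_mul_sub_of_deriv_le (h.ck φ k0 k1).1.dif
    (fun x => ((h.ck φ k0 k1).2.2.2.2.1 x).2.1) e

lemma τ_mono (φ : Fin 3) (k0 k1 : ℤ) : StrictMono (p.τ φ k0 k1) := fun a b e => by
  have h1 := h.τ_lo φ k0 k1 e.le
  have h2 : 0 < 1 / d.Hh φ * (b - a) := mul_pos (one_div_pos.2 (h.Hh_pos φ)) (sub_pos.2 e)
  linarith

lemma τ_abs (φ : Fin 3) (k0 k1 : ℤ) (a : ℝ) :
    |p.τ φ k0 k1 a| ≤ np d.c.N (-498 / 1000) / d.c.lam * |a| := by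
  have h0 := (h.ck φ k0 k1).2.1
  rcases le_total 0 a with e | e
  · have h1 := h.τ_hi φ k0 k1 e
    have h2 := (h.τ_mono φ k0 k1).monotone e
    rw [h0] at h1 h2
    rw [abs_of_nonneg e, abs_of_nonneg h2]; linarith
  · have h1 := h.τ_hi φ k0 k1 e
    have h2 := (h.τ_mono φ k0 k1).monotone e
    rw [h0] at h1 h2
    rw [abs_of_nonpos e, abs_of_nonpos h2]; linarith

lemma τlo (t : Wi) : p.τ t.1 (t.2 0) (t.2 1) (d.lo p t) = t.2 2 / d.ns - 1 / 2 :=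
  Function.invFun_eq ((h.ck _ _ _).2.2.1.2 _)

lemma τhi (t : Wi) : p.τ t.1 (t.2 0) (t.2 1) (d.hi p t) = t.2 2 / d.ns + 1 / 2 :=
  Function.invFun_eq ((h.ck _ _ _).2.2.1.2 _)

lemma lo_lt (t : Wi) : d.lo p t < d.hi p t :=
  (h.τ_mono t.1 (t.2 0) (t.2 1)).lt_iff_lt.1 (by rw [h.τlo, h.τhi]; linarith)

lemma len_le (t : Wi) : d.hi p t - d.lo p t ≤ d.Hh t.1 := by
  have h1 := h.τ_lo t.1 (t.2 0) (t.2 1) (h.lo_lt t).le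
  rw [h.τlo, h.τhi, one_div, inv_mul_le_iff₀ (h.Hh_pos _)] at h1
  linarith

lemma in2 (t : Wi) {x : V} (e : |d.ph p t x| ≤ 1 / 2) : |x 2 - d.ce p t 2| ≤ d.Wd p t 2 := by
  obtain ⟨e1, e2⟩ := abs_le.1 e
  unfold MD.ph at e1 e2
  have h1 : d.lo p t ≤ x 2 :=
    (h.τ_mono t.1 (t.2 0) (t.2 1)).le_iff_le.1 (by rw [h.τlo]; linarith)
  have h2 : x 2 ≤ d.hi p t :=
    (h.τ_mono t.1 (t.2 0) (t.2 1)).le_iff_le.1 (by rw [h.τhi]; linarith)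
  show |x 2 - (d.lo p t + d.hi p t) / 2| ≤ (d.hi p t - d.lo p t) / 2
  exact abs_le.2 ⟨by linarith, by linarith⟩

lemma in0 (t : Wi) {x : V} (e : |x 0 / d.W1 t.1 - t.2 0 / d.ns| ≤ 1 / 2) :
    |x 0 - d.ce p t 0| ≤ d.Wd p t 0 := by
  have h1 := h.W1_pos t.1
  show |x 0 - d.W1 t.1 * (t.2 0 / d.ns)| ≤ d.W1 t.1 / 2
  rw [show x 0 - d.W1 t.1 * (t.2 0 / d.ns) = d.W1 t.1 * (x 0 / d.W1 t.1 - t.2 0 / d.ns) by
    field_simp, abs_mul, abs_of_pos h1]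
  nlinarith

lemma in1 (t : Wi) {x : V} (e : |x 0 / d.W1 t.1 - t.2 0 / d.ns| ≤ 1 / 2)
    (e' : |x 1 / d.W2 t.1 + MD.vs t.1 * (x 0 / d.W1 t.1) - t.2 1 / d.ns| ≤ 1 / 2) :
    |x 1 - d.c1 t.1 (t.2 0) (t.2 1)| ≤ d.W2 t.1 := by
  have h1 := h.W2_pos t.1
  have h2 : |MD.vs t.1 * (x 0 / d.W1 t.1 - t.2 0 / d.ns)| ≤ 1 / 2 := by
    rw [abs_mul]
    nlinarith [vs_le t.1, abs_nonneg (x 0 / d.W1 t.1 - t.2 0 / d.ns)]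
  rw [show x 1 - d.c1 t.1 (t.2 0) (t.2 1) = d.W2 t.1 *
    ((x 1 / d.W2 t.1 + MD.vs t.1 * (x 0 / d.W1 t.1) - t.2 1 / d.ns) -
      MD.vs t.1 * (x 0 / d.W1 t.1 - t.2 0 / d.ns)) by unfold MD.c1; field_simp; ring, abs_mul,
    abs_of_pos h1]
  nlinarith [abs_sub (x 1 / d.W2 t.1 + MD.vs t.1 * (x 0 / d.W1 t.1) - t.2 1 / d.ns)
    (MD.vs t.1 * (x 0 / d.W1 t.1 - t.2 0 / d.ns))]

end Cx

variable {d : MD} {p : PT} {s : Sa} {t : Wi}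

/-- where the main part or the noise is not zero -/
lemma sup_m (H : d.Der p s t) {x : V} (e : ¬ (d.Pm' p s t x = 0 ∧ d.om p t x = 0)) :
    x ∈ d.R (9 / 10) ∧ |x 0 / d.W1 t.1 - t.2 0 / d.ns| ≤ 2 / 5 ∧
    |x 1 / d.W2 t.1 + MD.vs t.1 * (x 0 / d.W1 t.1) - t.2 1 / d.ns| ≤ 2 / 5 ∧
    |d.ph p t x| ≤ 2 / 5 := by
  have h1 := mt (H.sup x) e
  push Not at h1
  exact h1

/-- where the compensator is not zero -/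
lemma sup_g (H : d.Cmp p s t) {x : V} (e : d.Gc p s t x ≠ 0) :
    x ∈ d.R (91 / 100) ∧ |x 0 / d.W1 t.1 - t.2 0 / d.ns| ≤ 2 / 5 ∧
    |x 1 - d.c1 t.1 (t.2 0) (t.2 1)| ≤ d.bw t.1 ∧ |d.ph p t x| ≤ 2 / 5 := by
  have h1 := mt (H.sup x) e
  push Not at h1
  exact h1

lemma ps_eq {x : V} (e : d.Gc p s t x = 0) : d.Ps p s t x = d.Pm' p s t x := by
  rw [MD.Ps, e]
  ext i
  fin_cases i <;> simp

lemma gc_nc (hc : ¬ d.c.comp) (x : V) : d.Gc p s t x = 0 := if_neg hc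

lemma ps_0 (x : V) : d.Ps p s t x 0 = d.Pm' p s t x 0 := by simp [MD.Ps]
lemma ps_1 (x : V) : d.Ps p s t x 1 = d.Pm' p s t x 1 + d.Gc p s t x := by simp [MD.Ps]
lemma ps_2 (x : V) : d.Ps p s t x 2 = d.Pm' p s t x 2 := by simp [MD.Ps]

end
end Pool.Agent.MP_20bec2_an.T3.Win

end MrgPart2

-- marker of a merged file
example : 731051 + 758424 = 731051 + 758424 := rfl
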