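import Pool.Agent.MP_20bec2_an.T3.CrA
import Pool.Agent.MP_20bec2_an.T3.Vtr
import Pool.Agent.MP_20bec2_an.T3.WinA
import Pool.Agent.MP_20bec2_an.T3.Calc1b
import Pool.Agent.MP_20bec2_an.T3.Par3
import Mathlib.MeasureTheory.Integral.IntegralEqImproper
import Pool.Agent.MP_20bec2_an.T3.Par4
import Pool.Agent.MP_20bec2_an.T3.Zt

-- ======== part 0: formerly Pool.Agent.MP_20bec2_an.T3.SpecC
section MrgPart0

-- ======== part 0: formerly Pool.Agent.MP_20bec2_an.T3.Surj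
section MrgPart0

set_option autoImplicit false
open MeasureTheory Set Filter Matrix Topology

namespace Pool.Agent.MP_20bec2_an.T3
noncomputable section
open Classical

namespace GeoP
open Prof

theorem invFun_bij {f : V → V} (hf : Function.Bijective f) :
    Function.Bijective (Function.invFun f) :=
  Function.bijective_iff_has_inverse.2
    ⟨f, Function.rightInverse_invFun hf.2, Function.leftInverse_invFun hf.1⟩

/-- a map `L` that is `ε`-close to `Z0` in all frames has the same geometry -/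
theorem near_geo {N : ℕ} {lb : ℝ} {fr : Cu → Fr} {Z0 L : V → V} (G : Geo N lb fr Z0) (hN : 2 ≤ N)
    {ε : ℝ} (hε : ε ≤ Dd N lb / 4000)
    (H : ∀ g, ∀ x ∈ box (Dd N lb) g (1 / 2), ‖(fr g).zc (L x) - (fr g).zc (Z0 x)‖ ≤ ε)
    (g : Cu) (x : V) {r : ℝ} (h0 : 0 ≤ r) (hr : r ≤ 239 / 100) :
    (x ∈ box (Dd N lb) g r → (fr g).zc (L x) ∈ RX (fr g).O (Dd N lb) (r + 1 / 500) ∧
      ‖(fr g).zc (L x) - (fr g).zc (Z0 x)‖ ≤ 2 * ε) ∧
    ((fr g).zc (L x) ∈ RX (fr g).O (Dd N lb) r → x ∈ box (Dd N lb) g (r + 1 / 500)) := by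
  have h1 : 1 ≤ N := by omega
  have hD := D_pos G.toFrOk h1
  obtain ⟨g', hg'⟩ := exists_box hD x
  have e' := H g' x hg'
  refine ⟨fun hx => ?_, fun hz => ?_⟩
  · have n3 : Nbr 3 g g' := box_nbr hD (by push_cast; linarith) hx hg'
    have a := (nbr_zc G.toFrOk hN n3 (L x) (Z0 x)).trans
      (mul_le_mul_of_nonneg_left e' (by norm_num))
    refine ⟨?_, a⟩
    have b := RX_add (orth G.toFrOk g) (s := 1 / 1000) (y := (fr g).zc (L x))
      (fwd G h1 (by linarith) hx) (by linarith)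
    exact RX_mono _ hD.le (by linarith) b
  · obtain ⟨y, hy⟩ := G.bij.2 (L x)
    rw [← hy] at hz e'
    have a := back G h1 h0 (by linarith) hz
    have b := RX_add (orth G.toFrOk g') (s := 1 / 1000) (y := (fr g').zc (Z0 y))
      (fwd G h1 (by norm_num) hg') (by linarith)
    have c := back G h1 (by norm_num) (by norm_num) b
    have d := (lip G (box_mono hD.le (by norm_num) g' hg') (box_mono hD.le (by norm_num) g' c)).1
    have e := box_add (s := 1 / 1000) (y := x) a (by rw [norm_sub_rev]; linarith)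
    exact box_mono hD.le (by linarith) g e

end GeoP

theorem surj : SurjStmt := by
  filter_upwards [eventually_ge_atTop 4000] with N hN B hB f G h0 hf H g
  have G' : Geo B.N B.lb B.fr B.Z0 := G
  rw [← hB] at hN
  have hl := GeoP.lb_pos G'.toFrOk
  have hD := GeoP.D_pos G'.toFrOk (by omega)
  have hN' : (4000 : ℝ) ≤ B.N := by exact_mod_cast hN
  have hε : (B.N : ℝ) ^ 3 * B.lb ≤ Dd B.N B.lb / 4000 := by
    have : 0 ≤ (B.N : ℝ) ^ 3 * B.lb := by positivity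
    have e : Dd B.N B.lb = B.N * ((B.N : ℝ) ^ 3 * B.lb) := by
      unfold Dd
      ring
    rw [e]
    nlinarith
  refine ⟨(GeoP.zc_bij G'.toFrOk g).comp ((GeoP.invFun_bij hf).comp (h0.comp G'.bij)),
    fun x r r0 r1 => ?_⟩
  have k := GeoP.near_geo (L := B.lab f) G' (by omega) hε
    (fun g x hx => H g x (Prof.box_mono hD.le (by norm_num) g hx)) g x r0 (by linarith)
  rw [mul_assoc]
  exact k

end
end Pool.Agent.MP_20bec2_an.T3

end MrgPart0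

-- ======== part 1: formerly Pool.Agent.MP_20bec2_an.T3.SpecC
section MrgPart1

set_option autoImplicit false
open MeasureTheory Set Filter Matrix

namespace Pool.Agent.MP_20bec2_an.T3
noncomputable section
open Classical

/-- old frame against new frame: `T = Q⁻¹ Q'`, `Ω = Oᵀ O'`, `h` bounds the entries `(i, 2)` of `gam` -/
structure TF (c : Pm) (s1 s2 : ℝ) (T Ω : Mx) (h : ℝ) : Prop where
  ort : Orth Ω
  ls : |Real.log (s1 / c.s1)| ≤ 1 / (c.q ^ 2 * pR c.N) ∧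
    |Real.log (s2 / c.s2)| ≤ 1 / (c.q ^ 2 * pR c.N)
  det : |T.det - 1| ≤ 5 / Real.sqrt c.J ∧ EB T (cm 2) ∧ EB T⁻¹ (cm 2)
  c2 : ∀ i, i ≠ 2 → c.dgn i * |T i 2| * c.n12 ≤ (3 * h + np c.N (-1)) * c.cc i ∧
    |T i 2| * c.y ≤ np c.N (-4 / 5) * c.hs i ∧ |T⁻¹ i 2| * c.y ≤ np c.N (-4 / 5) * c.hs i
  hi : etaS c.N / 2 ≤ c.η → |Real.log (s1 / c.s1)| ≤ np c.N (-2 / 5) ∧
    |Real.log (s2 / c.s2)| ≤ np c.N (-2 / 5) ∧ EB (T - Ω) (cm (np c.N (-45 / 100))) ∧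
    EB (T⁻¹ - Ωᵀ) (cm (np c.N (-45 / 100))) ∧
    (∀ i, i ≠ 2 → |Ω i 2| ≤ np c.N (-2 / 5) ∧ |Ω 2 i| ≤ np c.N (-2 / 5)) ∧
    ((|Ω 0 1| ≤ np c.N (-2 / 5) ∧ |Ω 1 0| ≤ np c.N (-2 / 5)) ∨ (c.s2 ≤ 4 * c.s1 ∧ s2 ≤ 4 * s1))
  lo : c.η < etaS c.N / 2 → (∀ M ∈ ({T, T⁻¹} : Set Mx),
      |(|M 0 0| - 1)| ≤ 1 / (c.q ^ 2 * pR c.N) ∧ |(|M 1 1| - 1)| ≤ 1 / (c.q ^ 2 * pR c.N) ∧
      |(|M 2 2| - 1)| ≤ 3 / Real.sqrt c.J ∧ |M 0 1| ≤ c.q ^ 4 * c.J * c.m * uB c.N ∧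
      |M 1 0| ≤ uB c.N / c.J ∧ |M 2 0| ≤ 3 / Real.sqrt c.J ∧ |M 2 1| ≤ 3 / Real.sqrt c.J) ∧
    EB (Ω - dg3 (Ω 0 0) (Ω 1 1) (Ω 2 2))
      !![0, c.q ^ 4 * c.J * uB c.N, 3 * Real.sqrt (c.q * c.J * c.p);
        c.q ^ 4 * c.J * uB c.N, 0, c.q ^ 4 * c.J * uB c.N;
        3 * Real.sqrt (c.q * c.J * c.p), c.q ^ 4 * c.J * uB c.N, 0]

/-- ordered diagonalisation -/
def SvdStmt : Prop := ∀ G : Mx, Gᵀ = G → (∀ v : V, v ≠ 0 → 0 < v ⬝ᵥ (G *ᵥ v)) →
  ∃ (O : Mx) (a b c : ℝ), Orth O ∧ 0 < c ∧ c ≤ a ∧ a ≤ b ∧ Oᵀ * G * O = dg3 (a ^ 2) (b ^ 2) (c ^ 2)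

def TfStmt : Prop := EvC fun c => ∀ (E Df Ω g : Mx) (s1 s2 σ h : ℝ), Orth Ω → 0 ≤ σ → σ ≤ s1 →
  s1 ≤ s2 → EB E (cm c.zT) →
  (c.η < etaS c.N / 2 → ∃ (Et : Mx) (n θ : ℝ), EB2 Et c.eT ∧
    EB2 (E - Et - !![n, 0, θ; 0, 0, 0; 0, 0, 0]) (cm (np c.N (-10))) ∧ |n| ≤ 3 * (θ ^ 2 + c.p) ∧
    θ ^ 2 ≤ c.q * c.J * c.p) →
  |Df.det - 1| ≤ 1 / 100 →
  g = (Df * dg3 c.c1 c.c2 (c.n12 / Df.det))ᵀ * (Df * dg3 c.c1 c.c2 (c.n12 / Df.det)) - c.gref →
  |g 0 0| ≤ 2 * cg0 c.N + 10 * (c.η * c.p) → |g 0 1| ≤ 2 * cg0 c.N + c.η * c.p / 1000 →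
  |g 1 1| ≤ 2 * cg0 c.N → EB g (bm c.gb h (1 / 10)) → h ≤ hc c.N → (c.oB → h ≤ c.pi1) →
  ((1 + E) * Ω)ᵀ * (Dfᵀ * Df) * ((1 + E) * Ω) = dg3 (s1 ^ 2) (s2 ^ 2) (σ ^ 2) →
  TF c s1 s2 ((1 + E) * Ω) Ω h ∧ 0 < s1 ∧ σ ^ 2 ≤ s1 ^ 2 / 4

/-- a frame made at the start of the band `ks` -/
def Bk.Fq (B : Bk) (s : St) (F : Fr) : Prop := Orth F.O ∧ 0 < F.s1 ∧ F.s1 ≤ F.s2 ∧
  F.Q = jm (fun x => s.zt (ks B.N) x - B.Zt x) F.x0 * F.O ∧
  ∃ σ : ℝ, σ ^ 2 ≤ F.s1 ^ 2 / 4 ∧ F.Qᵀ * gram (s.ft (ks B.N - el B.N))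
    (Function.invFun (s.ft (ks B.N - el B.N)) (s.ft (ks B.N) (s.zt (ks B.N) F.x0))) * F.Q =
    dg3 (F.s1 ^ 2) (F.s2 ^ 2) (σ ^ 2)

/-- bound of the entries `(i, 2)` late in a block -/
def Pm.hL2 (c : Pm) : ℝ := if c.oB then 2 * c.B1 + 9 * Real.sqrt (c.η * c.p) else hc c.N

def TfbStmt : Prop := EvB fun B => ∀ (ρ : V → ℝ) (k r : ℕ) (s : St), B.H0 ρ k r s → ks B.N ≤ k →
  (r = 0 ∨ r = 9) → ∀ g, (∀ x ∈ B.bx g (9 / 10), ∃ F : Fr, F.x0 = x ∧ B.Fq s F) ∧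
  ∀ F : Fr, B.Fq s F → F.x0 ∈ B.bx g (9 / 10) → (F.pm B.N' B.lb' 0).Ok ∧ 0 < F.Q.det ∧
    TF (B.c g 0) F.s1 F.s2 ((B.fr g).Q⁻¹ * F.Q) ((B.fr g).Oᵀ * F.O) (B.c g 0).hL2 ∧
    ∃ x' ∈ B.bx g (95 / 100), B.lab (s.ft (ks B.N)) x' = s.zt (ks B.N) F.x0 ∧
      ‖x' - F.x0‖ ≤ (B.N : ℝ) ^ 3 * B.lb ∧
      ∀ i, i ≠ 2 → |B.ga g (s.ft (ks B.N - el B.N)) x' i 2| ≤ (B.c g 0).hL2

def CptStmt : Prop := EvB fun B => ∀ (ρ : V → ℝ) (s : St), B.H0 ρ (ks B.N) 0 s →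
  ∀ F F' : Fr, B.Fq s F → B.Fq s F' → ‖F.x0 - F'.x0‖ ≤ 3 * Dd B.N' B.lb' → Cpt (dc B.N') F F'

/-- shape of the rows of the change of block -/
def CRow (P : (B' : Bk) → (V → ℝ) → St → Prop) : Prop := EvB fun B =>
  ∀ ρ s H, B.H0 ρ (nb B.N - 1) 9 s → P (B.next s H) ρ (B.nst s)
def CgeoStmt : Prop := CRow fun B ρ _ => B.G ∧ (∀ g, Cred ρ B.N B.lb (B.fr g) (B.gc g)) ∧
  ∀ g, ∀ x ∈ B.bx g 1, EB2 (B.E0 g x) (B.c g 0).e0 ∧ EB (B.E0 g x) (cm ((B.c g 0).zT / 4))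
def Cg0Stmt : Prop := CRow fun B _ _ => ∀ g, ∀ x ∈ B.bx g 1,
  EB (B.ga g B.f0 x - (B.c g 0).gref) (bm (cg0 B.N) (B.c g 0).B1 (1 / pJ B.N))
def CdiStmt : Prop := CRow fun B _ _ => ∀ g, ∀ x ∈ B.bx g 1,
  (B.c g 0).DI ((B.fr g).fh B.f0) (B.oh g B.f0 x) 1
def ChpStmt : Prop := EvB fun B => ∀ ρ s, B.H0 ρ (nb B.N - 1) 9 s → ∃ H : Cu → V → V, ∀ g,
  ((B.next s H).c g 0).steer → ContinuousOn (H g) ((B.next s H).R g (98 / 100)) ∧
    ∀ z ∈ (B.next s H).R g (98 / 100), ∀ i, i ≠ 2 →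
      |((B.next s H).c g 0).gam (((B.next s H).fr g).fh s.f) z i 2 - H g z i| ≤ fr0 B.N' ∧
      ∀ z' ∈ (B.next s H).R g (98 / 100), |H g z i - H g z' i| ≤
        1 / (2 * pJ B.N' ^ 24 * Real.sqrt B.N') *
          (|z 0 - z' 0| / ((B.next s H).c g 0).l1 + |z 1 - z' 1| / ((B.next s H).c g 0).lam) +
        Xj B.N' 0 2 * |z 2 - z' 2| / ((B.next s H).c g 0).y
def CzStmt : Prop := CRow fun B ρ s => B.IL 0 0 s ∧ B.IZ 0 0 s ∧ B.IV ρ 0 0 s ∧ B.IP 0 0 s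
def CsStmt : Prop := CRow fun B _ s => B.IS 0 0 s
def CrStmt : Prop := CRow fun B ρ s => B.Ok0 ρ → B.Pre ρ 0 0 s → B.IR ρ 0 0 s
def CfStmt : Prop := CRow fun B ρ s => B.Ok0 ρ → B.Pre ρ 0 0 s → B.IF ρ 0 0 s

end
end Pool.Agent.MP_20bec2_an.T3

end MrgPart1

-- marker of a merged file
example : 731051 + 384241 = 731051 + 384241 := rfl

end MrgPart0

-- ======== part 1: formerly Pool.Agent.MP_20bec2_an.T3.Rc
section MrgPart1

-- ======== part 0: formerly Pool.Agent.MP_20bec2_an.T3.Change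
section MrgPart0

/-! Assembly of the change of block. -/

set_option autoImplicit false
open MeasureTheory Set Filter Matrix

namespace Pool.Agent.MP_20bec2_an.T3
noncomputable section
open Classical

theorem change (hgeo : CgeoStmt) (hg0 : Cg0Stmt) (_hdi : CdiStmt) (hhp : ChpStmt) (hz : CzStmt)
    (hs : CsStmt) (hr : CrStmt) (hf : CfStmt) : ChangeStmt := by
  filter_upwards [hgeo, hg0, hhp, hz, hs, hr, hf] with N hgeo hg0 hhp hz hs hr hf B hB ρ s h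
  obtain ⟨H, hH⟩ := hhp B hB ρ s h
  obtain ⟨a1, a2, a3⟩ := hgeo B hB ρ s H h
  obtain ⟨b1, b2, b3, b4⟩ := hz B hB ρ s H h
  have ok : (B.next s H).Ok0 ρ := ⟨a1, a2, a3, hg0 B hB ρ s H h, hH⟩
  have na : aft (ks (B.next s H).N) 0 0 → (B.next s H).Prep ρ (B.nst s) := fun c => by
    rcases c with c | c
    · exact absurd c (Nat.not_lt_zero _)
    · exact absurd c.2 (by norm_num)
  have is := hs B hB ρ s H h
  have pre : (B.next s H).Pre ρ 0 0 (B.nst s) := ⟨b1, b2, b4, is, na⟩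
  exact ⟨H, ok, b1, b2, b3, b4, is, hr B hB ρ s H h ok pre, hf B hB ρ s H h ok pre, na⟩

end
end Pool.Agent.MP_20bec2_an.T3

end MrgPart0

-- ======== part 1: formerly Pool.Agent.MP_20bec2_an.T3.Avg
section MrgPart1

/-! Riemann sums of translates of a bump. -/

set_option autoImplicit false
open MeasureTheory Set Filter Matrix Topology

namespace Pool.Agent.MP_20bec2_an.T3
noncomputable section
open Classical

namespace Avg

/-- Riemann sum with decreasing nodes of step `1 / n` -/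
lemma riem {h : ℝ → ℝ} (hh : Sm h) {L : ℝ} (hL : ∀ t, |deriv h t| ≤ L) {n : ℝ} (hn : 0 < n)
    (b : ℝ) (M : ℕ) :
    |∑ m ∈ Finset.range M, h (b - m / n) - n * ∫ t in (b - M / n)..b, h t| ≤ M * (L / n) := by
  have hi : ∀ u v : ℝ, IntervalIntegrable h volume u v := fun u v =>
    hh.continuous.intervalIntegrable u v
  have lip : ∀ u v, |h u - h v| ≤ L * |u - v| := fun u v =>
    convex_univ.norm_image_sub_le_of_norm_deriv_le (𝕜 := ℝ) (fun x _ => hh.dif x)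
      (fun x _ => hL x) (mem_univ v) (mem_univ u)
  have L0 : 0 ≤ L := (abs_nonneg _).trans (hL 0)
  induction M with
  | zero => simp
  | succ M ih =>
    have e : b - M / n - (b - (M + 1 : ℕ) / n) = 1 / n := by push_cast; ring
    have h1 : |∫ t in (b - (M + 1 : ℕ) / n)..(b - M / n), (h (b - M / n) - h t)| ≤
        L / n * |b - M / n - (b - (M + 1 : ℕ) / n)| := by
      rw [← Real.norm_eq_abs]
      refine intervalIntegral.norm_integral_le_of_norm_le_const fun t ht => (lip _ _).trans ?_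
      rw [uIoc_of_le (by have := one_div_pos.2 hn; linarith)] at ht
      rw [abs_of_nonneg (by linarith [ht.2]), div_eq_mul_one_div L]
      exact mul_le_mul_of_nonneg_left (by linarith [ht.1]) L0
    rw [intervalIntegral.integral_sub intervalIntegrable_const (hi _ _),
      intervalIntegral.integral_const, e, abs_of_pos (one_div_pos.2 hn), smul_eq_mul] at h1
    have h2 := mul_le_mul_of_nonneg_left h1 hn.le
    rw [← abs_of_pos hn, ← abs_mul, abs_of_pos hn, mul_sub, ← mul_assoc, mul_one_div_cancel hn.ne',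
      one_mul, mul_left_comm, mul_one_div_cancel hn.ne', mul_one] at h2
    rw [Finset.sum_range_succ, ← intervalIntegral.integral_add_adjacent_intervals
      (hi _ (b - M / n)) (hi _ _)]
    have h3 := abs_add_le (∑ m ∈ Finset.range M, h (b - m / n) - n * ∫ t in (b - M / n)..b, h t)
      (h (b - M / n) - n * ∫ t in (b - (M + 1 : ℕ) / n)..(b - M / n), h t)
    refine le_trans (le_of_eq ?_) (h3.trans ((add_le_add ih h2).trans (le_of_eq ?_)))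
    · congr 1; ring
    · push_cast; ring

variable {g : ℝ → ℝ}

lemma iter_zero (h0 : ∀ t, 1 ≤ |t| → g t = 0) (j : ℕ) {t : ℝ} (ht : 1 < |t|) :
    iteratedDeriv j g t = 0 := by
  have : g =ᶠ[𝓝 t] fun _ => 0 := by
    filter_upwards [(isOpen_lt continuous_const continuous_abs).mem_nhds ht] with s hs
    exact h0 s (le_of_lt hs)
  rw [this.iteratedDeriv_eq j]
  simp

lemma bdd (hg : Sm g) (h0 : ∀ t, 1 ≤ |t| → g t = 0) (j : ℕ) :
    ∃ L, ∀ t, |iteratedDeriv j g t| ≤ L := by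
  obtain ⟨C, hC⟩ := (isCompact_Icc (a := (-1 : ℝ)) (b := 1)).exists_bound_of_continuousOn
    (hg.iter j).continuous.continuousOn
  refine ⟨max C 0, fun t => ?_⟩
  by_cases ht : 1 < |t|
  · rw [iter_zero h0 j ht]; simp
  · exact (hC t (abs_le.1 (not_lt.1 ht))).trans (le_max_left _ _)

/-- near `a0` the sum has `4 n + 1` terms -/
lemma loc (h0 : ∀ t, 1 ≤ |t| → g t = 0) {n : ℕ} (hn : 0 < n) (a0 : ℝ) :
    ∃ c : ℝ, 2 ≤ a0 - c ∧ a0 - c - (4 * n + 1 : ℕ) / n ≤ -2 ∧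
      (fun a : ℝ => ∑ᶠ k : ℤ, g (a - k / n)) =ᶠ[𝓝 a0]
        fun a => ∑ m ∈ Finset.range (4 * n + 1), g (a - (c + m / n)) := by
  have hn' : (0 : ℝ) < n := Nat.cast_pos.2 hn
  obtain ⟨k0, hk⟩ : ∃ k0 : ℤ, k0 = ⌊n * (a0 - 2)⌋ := ⟨_, rfl⟩
  have a1 : (k0 : ℝ) ≤ n * (a0 - 2) := hk ▸ Int.floor_le _
  have a2 : n * (a0 - 2) < k0 + 1 := hk ▸ Int.lt_floor_add_one _
  refine ⟨k0 / n, ?_, ?_, ?_⟩
  · have : (k0 : ℝ) / n ≤ a0 - 2 := by rw [div_le_iff₀ hn']; linarith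
    linarith
  · have : a0 + 2 ≤ ((k0 : ℝ) + (4 * n + 1 : ℕ)) / n := by
      rw [le_div_iff₀ hn']; push_cast; linarith
    rw [add_div] at this
    linarith
  · filter_upwards [Ioo_mem_nhds (sub_one_lt a0) (lt_add_one a0)] with a ha
    rw [finsum_eq_sum_of_support_subset
      (s := (Finset.range (4 * n + 1)).image fun m : ℕ => k0 + m), Finset.sum_image]
    · refine Finset.sum_congr rfl fun m _ => ?_
      push_cast
      rw [add_div]
    · intro x _ y _ hxy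
      simpa using hxy
    · intro k hk
      have h1 : |a - k / n| < 1 := not_le.1 fun h => hk (h0 _ h)
      rw [abs_lt] at h1
      have h2 : a0 - 2 < k / n := by linarith [ha.1]
      have h3 : (k : ℝ) / n < a0 + 2 := by linarith [ha.2]
      rw [lt_div_iff₀ hn'] at h2
      rw [div_lt_iff₀ hn'] at h3
      have h4 : k0 ≤ k := by exact_mod_cast (show (k0 : ℝ) ≤ k by linarith)
      have h5 : k < k0 + (4 * n + 1) := by
        exact_mod_cast (show (k : ℝ) < k0 + (4 * n + 1) by linarith)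
      exact Finset.mem_coe.2 (Finset.mem_image.2
        ⟨(k - k0).toNat, Finset.mem_range.2 (by omega), by omega⟩)

end Avg

open Avg in
theorem avg : AvgStmt := by
  intro g hg h0
  choose L hL using bdd hg h0
  have L0 : ∀ j, 0 ≤ L j := fun j => (abs_nonneg _).trans (hL j 0)
  have sm : ∀ c : ℝ, Sm fun a : ℝ => g (a - c) := fun c =>
    hg.comp (contDiff_id.sub contDiff_const)
  refine ⟨5 * ∑ j ∈ Finset.range 8, L j, fun n hn => ⟨contDiff_iff_contDiffAt.2 fun a => ?_,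
    fun j hj a => ?_⟩⟩
  · obtain ⟨c, -, -, h⟩ := loc h0 hn a
    exact (ContDiff.sum fun m _ => sm _).contDiffAt.congr_of_eventuallyEq h
  · obtain ⟨c, c1, c2, h⟩ := loc h0 hn a
    have hn' : (0 : ℝ) < n := Nat.cast_pos.2 hn
    have h1 := riem (hg.iter j) (L := L (j + 1))
      (fun t => by rw [← iteratedDeriv_succ]; exact hL _ t) hn' (a - c) (4 * n + 1)
    have h2 : ((4 * n + 1 : ℕ) : ℝ) * (L (j + 1) / n) ≤ 5 * ∑ j ∈ Finset.range 8, L j := by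
      have b1 : L (j + 1) ≤ ∑ j ∈ Finset.range 8, L j :=
        Finset.single_le_sum (fun k _ => L0 k) (Finset.mem_range.2 (by omega))
      have b2 : ((4 * n + 1 : ℕ) : ℝ) ≤ 5 * n := by exact_mod_cast (by omega)
      have b3 := mul_le_mul_of_nonneg_right b2 (div_nonneg (L0 (j + 1)) hn'.le)
      rw [mul_assoc, mul_div_cancel₀ _ hn'.ne'] at b3
      linarith
    refine le_trans (le_of_eq ?_) (h1.trans h2)
    have h3 : (fun a : ℝ => ∑ᶠ k : ℤ, g (a - k / n) - n * ∫ t, g t) =ᶠ[𝓝 a]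
        fun a => ∑ m ∈ Finset.range (4 * n + 1), g (a - (c + m / n)) - n * ∫ t, g t :=
      h.mono fun x hx => congrArg (· - n * ∫ t, g t) hx
    rw [h3.iteratedDeriv_eq j, iteratedDeriv_fun_sub
      ((Sm.of_nat (ContDiff.sum fun m _ => sm _) j).contDiffAt) contDiffAt_const,
      iteratedDeriv_fun_sum fun m _ => ((sm _).of_nat j).contDiffAt]
    simp only [iteratedDeriv_comp_sub_const]
    simp only [sub_add_eq_sub_sub]
    congr 2
    cases j with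
    | zero =>
      simp only [iteratedDeriv_zero]
      rw [intervalIntegral.integral_eq_integral_of_support_subset fun t ht => ?_]
      have := abs_lt.1 (not_le.1 fun h => ht (h0 t h))
      exact ⟨by linarith [this.1], by linarith [this.2]⟩
    | succ j =>
      rw [iteratedDeriv_succ (f := g), intervalIntegral.integral_deriv_eq_sub
        (fun x _ => (hg.iter j).dif x) ((hg.iter j).deriv.continuous.intervalIntegrable _ _),
        iter_zero h0 j (lt_abs.2 (Or.inl (by linarith))),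
        iter_zero h0 j (lt_abs.2 (Or.inr (by linarith)))]
      simp [iteratedDeriv_const]

end
end Pool.Agent.MP_20bec2_an.T3

end MrgPart1

-- ======== part 2: formerly Pool.Agent.MP_20bec2_an.T3.Mini
section MrgPart2

/-! One cube, one colour: the output from the path. -/

set_option autoImplicit false
open MeasureTheory Set Filter Matrix

namespace Pool.Agent.MP_20bec2_an.T3
noncomputable section
open Classical

theorem mini_max {ι : Type} (M : Finset ι) (f : ι → ℝ) : ∃ x : ℝ, 0 ≤ x ∧ (∀ i ∈ M, f i ≤ x) ∧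
    Real.exp (x / 6) ≤ 1 + ∑ i ∈ M, Real.exp (f i / 6) := by
  induction M using Finset.induction_on with
  | empty => exact ⟨0, le_rfl, by simp, by simp⟩
  | insert a M ha ih =>
    obtain ⟨x, h0, h1, h2⟩ := ih
    have h3 : 0 ≤ ∑ i ∈ M, Real.exp (f i / 6) := Finset.sum_nonneg fun _ _ => (Real.exp_pos _).le
    refine ⟨max x (f a), h0.trans (le_max_left _ _), fun i hi => ?_, ?_⟩
    · rcases Finset.mem_insert.1 hi with rfl | hi
      · exact le_max_right _ _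
      · exact (h1 i hi).trans (le_max_left _ _)
    · rw [Finset.sum_insert ha]
      rcases max_choice x (f a) with e | e <;> rw [e]
      · linarith [Real.exp_pos (f a / 6)]
      · linarith

theorem mini_num {N : ℕ} (h : Big N) : 32001 ≤ Real.sqrt (pq N) ∧
    np N (-700) * pq N ≤ np N (-690) ∧ 3 * Real.log 32001 ≤ qp N (1 / 10) * pJ N := by
  have h1 := h.L_ge
  have h2 := h.J_ge
  obtain ⟨-, h4⟩ := logc_bd (show (1 : ℝ) ≤ 32001 by norm_num)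
  have p1 := h.np_pos (-700)
  have p2 := h.q_pos
  have p3 : 1 ≤ qp N (1 / 10) := (qp_zero N).symm.trans_le (h.qp_le (by norm_num))
  refine ⟨le_of_log (by norm_num) h.sqrtq_pos ?_, le_of_log (by positivity) (h.np_pos _) ?_, ?_⟩
  · rw [h.log_sqrtq]
    linarith
  · rw [Real.log_mul p1.ne' p2.ne', h.log_np, h.log_np, h.log_q]
    linarith
  · nlinarith

theorem mini (hrun : RunmStmt) (h0 : Fin0Stmt) (hf : FinfStmt) (he : FineStmt) (hv : FinvStmt)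
    (hn : FinnStmt) (hl : FinlStmt) : MiniStmt := by
  filter_upwards [hrun, h0, hf, he, hv, hn, hl, ev_gd] with N hrun h0 hf he hv hn hl hgd d h1 h2 h3
  have h2' : d.c.k < nb N := h2
  have gd := hgd d.c h1 h3.ok
  obtain ⟨n1, n2, n3⟩ := mini_num gd.big
  obtain ⟨M1, a1, b1⟩ := he d h1 h2 h3
  obtain ⟨M2, a2, b2⟩ := hv d h1 h2 h3
  obtain ⟨M3, a3, b3⟩ := hn d h1 h2 h3
  obtain ⟨M4, a4, b4⟩ := hl d h1 h2 h3
  obtain ⟨M, hM⟩ : ∃ M : Cu → Finset Fn, ∀ s, M s = (M1 s ∪ M2 s) ∪ (M3 s ∪ M4 s) := ⟨_, fun _ => rfl⟩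
  have m1 : ∀ s, ∀ Λ ∈ M s, Λ ∈ d.Fam := fun s Λ h => by
    simp only [hM, Finset.mem_union] at h
    rcases h with (h | h) | h | h
    exacts [(a1 s).1 h, (a2 s).1 h, (a3 s).1 h, (a4 s).1 h]
  have m2 : ∀ s, ((M s).card : ℝ) ≤ 8000 := fun s => by
    have := Finset.card_union_le (M1 s ∪ M2 s) (M3 s ∪ M4 s)
    have := Finset.card_union_le (M1 s) (M2 s)
    have := Finset.card_union_le (M3 s) (M4 s)
    have := (a1 s).2
    have := (a2 s).2
    have := (a3 s).2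
    have := (a4 s).2
    have : (M s).card ≤ 8000 := by rw [hM]; omega
    exact_mod_cast this
  have w0 : ∀ s ∈ d.T, 0 ≤ d.w s := fun s hs => zero_le_one.trans (h3.wt.1 s hs)
  obtain ⟨u, ω, hp, hs⟩ := hrun d h1 h2 h3 (Σ _ : Cu, Fn) (d.T.sigma M) (fun i => i.2)
    (fun i => d.w i.1) fun i hi =>
      ⟨m1 _ _ (Finset.mem_sigma.1 hi).2, w0 _ (Finset.mem_sigma.1 hi).1⟩
  choose xs x0 x1 x2 using fun s => mini_max (M s) fun Λ => d.X Λ u ω (nT d.c.N) ^ 2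
  rw [Finset.sum_sigma, Finset.sum_sigma] at hs
  have l1 : ∑ s ∈ d.T, ∑ _Λ ∈ M s, d.w s ≤ 8000 * ∑ s ∈ d.T, d.w s := by
    rw [Finset.mul_sum]
    refine Finset.sum_le_sum fun s hs => ?_
    rw [Finset.sum_const, nsmul_eq_mul]
    exact mul_le_mul_of_nonneg_right (m2 s) (w0 s hs)
  have l2 : ∑ s ∈ d.T, d.w s * Real.exp (xs s / 6) ≤ 32001 * ∑ s ∈ d.T, d.w s := by
    have : ∑ s ∈ d.T, d.w s * Real.exp (xs s / 6) ≤ ∑ s ∈ d.T, (d.w s +
        ∑ Λ ∈ M s, d.w s * Real.exp (d.X Λ u ω (nT d.c.N) ^ 2 / 6)) :=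
      Finset.sum_le_sum fun s hs => by
        rw [← Finset.mul_sum, ← mul_one_add]
        exact mul_le_mul_of_nonneg_left (x2 s) (w0 s hs)
    rw [Finset.sum_add_distrib] at this
    linarith
  have l3 : ∀ s ∈ d.T, xs s ≤ 8 * qp d.c.N (1 / 10) * d.c.J := fun s hs => by
    have e1 : d.w s * Real.exp (xs s / 6) ≤ ∑ s ∈ d.T, d.w s * Real.exp (xs s / 6) :=
      Finset.single_le_sum (f := fun s => d.w s * Real.exp (xs s / 6))
        (fun s hs => mul_nonneg (w0 s hs) (Real.exp_pos _).le) hs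
    have e2 : Real.exp (xs s / 6) ≤ d.w s * Real.exp (xs s / 6) :=
      le_mul_of_one_le_left (Real.exp_pos _).le (h3.wt.1 s hs)
    have e3 : Real.exp (xs s / 6) ≤ Real.exp (Real.log 32001 + qp d.c.N (1 / 10) * d.c.J) := by
      rw [Real.exp_add, Real.exp_log (by norm_num)]
      linarith [h3.wt.2]
    have e4 := Real.exp_le_exp.1 e3
    have e5 : d.c.J = pJ d.c.N := rfl
    rw [e5] at e4 ⊢
    linarith
  have f1 : ∀ s ∈ d.T, ∀ Λ ∈ M s, d.X Λ u ω (nT d.c.N) ^ 2 ≤ xs s := fun s _ => x1 s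
  simp only [hM, Finset.mem_union] at f1
  obtain ⟨z1, ⟨z2, z3, z4, z5, z6⟩, -⟩ := h0 d h1 h2 h3 u ω hp
  obtain ⟨z7, z8⟩ := hf d h1 h2 h3 u ω hp
  refine ⟨u, xs, d.dth ω, d.dY ω, fun i => (hp.cr i).sm.1, fun i x hx => (((hp.cr i).sup x).1 hx).1,
    fun i x => ((hp.cr i).sup x).2, fun i x j => ((hp.cr i).sz x j).trans
      (mul_le_mul_of_nonneg_right n2 (gd.hs_pos j).le),
    fun i hi x => ⟨((hp.gs i hi).ub x).1, ((hp.gs i hi).ub x).2.1⟩,
    ⟨x0, l2.trans (mul_le_mul_of_nonneg_right n1 (Finset.sum_nonneg w0))⟩,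
    b1 u ω hp xs x0 fun s hs => ⟨l3 s hs, fun Λ h => f1 s hs Λ (Or.inl (Or.inl h))⟩, z1,
    b2 u ω hp xs x0 fun s hs => ⟨l3 s hs, fun Λ h => f1 s hs Λ (Or.inl (Or.inr h))⟩,
    fun i j => ?_, ⟨z2, z3, z4, z5, fun hz => ⟨z6 hz, fun x => ?_⟩⟩, z7,
    b3 u ω hp xs x0 fun s hs => ⟨l3 s hs, fun Λ h => f1 s hs Λ (Or.inr (Or.inl h))⟩, z8,
    b4 u ω hp xs x0 fun s hs => ⟨l3 s hs, fun Λ h => f1 s hs Λ (Or.inr (Or.inr h))⟩⟩
  · have := hp.su.cov i j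
    simp only [one_mul] at this
    exact this
  · have := (hp.su.yy hz).1 x
    simp only [one_mul] at this
    exact this

end
end Pool.Agent.MP_20bec2_an.T3

end MrgPart2

-- ======== part 3: formerly Pool.Agent.MP_20bec2_an.T3.Rc
section MrgPart3

/-! The candidates of one round, from the rows about the explicit patterns. -/

set_option autoImplicit false
open MeasureTheory Set Filter Matrix

namespace Pool.Agent.MP_20bec2_an.T3
noncomputable section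
open Classical

theorem rc (hamp : AmpStmt) (hclk : ClkStmt) (hptl : PtlStmt) (hda : DeraStmt) (hdb : DerbStmt)
    (hcmp : CmpStmt) (hwin : WinStmt) (hcls : ClsStmt) (hcov : CovStmt) (hyq : YqStmt)
    (hpv : PvStmt) (hmix : MixStmt) : RcStmt := by
  filter_upwards [hamp, hclk, hptl, hda, hdb, hcmp, hwin, hcls, hcov, hyq, hpv, hmix] with N hamp
    hclk hptl hda hdb hcmp hwin hcls hcov hyq hpv hmix d h1 h2 h3 s hs
  obtain ⟨r, hr⟩ := hamp d h1 h2 h3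
  obtain ⟨τ, hτ⟩ := hclk d h1 h2 h3
  obtain ⟨Pt, hP⟩ := hptl d h1 h2 h3 s hs
  have ok : d.POk ⟨r, τ, Pt⟩ s := ⟨hr, hτ, hP⟩
  generalize (⟨r, τ, Pt⟩ : PT) = p at ok
  have der : ∀ t, d.Der p s t := fun t => by
    by_cases e : d.nz0 t.1
    · exact hdb d h1 h2 h3 p s hs ok t e
    · exact hda d h1 h2 h3 p s hs ok t e
  have dc : ∀ t, d.Der p s t ∧ d.Cmp p s t := fun t =>
    ⟨der t, hcmp d h1 h2 h3 p s hs ok t (der t)⟩
  have win := hwin d h1 h2 h3 p s hs ok dc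
  obtain ⟨c1, c2, c3, -, -⟩ := hcls d h1 h2 h3 p s hs ok dc
  obtain ⟨y1, y2⟩ := hyq d h1 h2 h3 p s hs ok dc
  obtain ⟨v1, v2⟩ := hpv d h1 h2 h3 p s hs ok dc
  refine hmix d h1 h2 h3 s hs _ _ d.TT (d.swp p) (d.Ps p s) (d.Pm' p s) (d.om p) (d.ce p) (d.Wd p)
    ⟨fun k => ⟨fun t _ => (win t).1, fun t _ => (win t).2, ?_, ?_⟩, ?_, fun a => ?_,
      ⟨hcov d h1 h2 h3 p s hs ok dc, y1, fun hc x hx =>
        ⟨(v2 hc x hx).1, (v2 hc x hx).2.1, y2 hc x hx, (v2 hc x hx).2.2⟩⟩, v1⟩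
  · obtain ⟨Bx, b1, b2⟩ := (c1 k).2
    exact ⟨Bx, fun t _ => b1 t, fun t ht t' ht' =>
      b2 t t' (by simp only [Finset.mem_filter] at ht; exact ht.2)
        (by simp only [Finset.mem_filter] at ht'; exact ht'.2)⟩
  · exact le_of_eq_of_le (congrArg (fun S : Finset _ => (S.card : ℝ))
      (Finset.ext fun t => by simp only [Finset.mem_filter])) (c1 k).1
  · exact le_of_eq_of_le (congrArg (fun S : Finset _ => (S.card : ℝ))
      (Finset.ext fun t => by simp only [Finset.mem_image])) c2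
  · refine le_of_eq_of_le (congrArg (fun S : Finset _ => (S.card : ℝ))
      (Finset.ext fun k => ?_)) (c3 a)
    simp only [Finset.mem_filter, Finset.mem_image]
    exact and_congr Iff.rfl (iff_of_eq (congrArg (fun S => d.nearS S (d.Pm' p s) a)
      (Finset.ext fun t => by simp only [Finset.mem_filter])))

end
end Pool.Agent.MP_20bec2_an.T3

end MrgPart3

-- marker of a merged file
example : 731051 + 379437 = 731051 + 379437 := rfl

end MrgPart1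

-- ======== part 2: formerly Pool.Agent.MP_20bec2_an.T3.Yq
section MrgPart2

-- ======== part 0: formerly Pool.Agent.MP_20bec2_an.T3.YqA
section MrgPart0

/-! Row YQ, part 1: the profile, sums over the lattice, inequalities between numbers. -/

set_option autoImplicit false
open MeasureTheory Set Filter Matrix Topology

namespace Pool.Agent.MP_20bec2_an.T3
noncomputable section
open Classical

namespace Yq

lemma f0_sm : Sm f0 := Prof.bp_sm _ _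
lemma f1_sm : Sm f1 := f0_sm.deriv
lemma f0_zero {t : ℝ} (h : 2 / 5 ≤ |t|) : f0 t = 0 := Prof.bp_zero (by norm_num) h
lemma f1_zero {t : ℝ} (h : 2 / 5 < |t|) : f1 t = 0 := by
  have : f0 =ᶠ[𝓝 t] fun _ => 0 := by
    filter_upwards [(isOpen_lt continuous_const continuous_abs).mem_nhds h] with s hs
    exact f0_zero (le_of_lt hs)
  rw [f1, this.deriv_eq]; simp
lemma f0_der (t : ℝ) : HasDerivAt f0 (f1 t) t := (f0_sm.dif t).hasDerivAt
lemma f0_abs (t : ℝ) : |f0 t| ≤ 1 := Prof.bp_abs_le _ _ _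

lemma intg {g : ℝ → ℝ} (hg : Continuous g) (h0 : ∀ t, 1 ≤ |t| → g t = 0) : Integrable g :=
  hg.integrable_of_hasCompactSupport (Prof.hcs_of_zero h0)

lemma z00 (t : ℝ) (h : 1 ≤ |t|) : f0 t ^ 2 = 0 := by rw [f0_zero (by linarith)]; norm_num
lemma z11 (t : ℝ) (h : 1 ≤ |t|) : f1 t ^ 2 = 0 := by rw [f1_zero (by linarith)]; norm_num
lemma z01 (t : ℝ) (h : 1 ≤ |t|) : f0 t * f1 t = 0 := by rw [f0_zero (by linarith), zero_mul]

lemma I0_pos : 0 < I0 :=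
  (f0_sm.continuous.pow 2).integral_pos_of_hasCompactSupport_nonneg_nonzero (x := 0)
    (Prof.hcs_of_zero z00) (fun _ => sq_nonneg _) (by
      show f0 0 ^ 2 ≠ 0
      rw [f0, Prof.bp_one (by norm_num) (by norm_num)]; norm_num)

lemma I0_le : I0 ≤ 4 / 5 := by
  have h1 := (Prof.bp_integral (a := 1 / 5) (b := 2 / 5) (by norm_num) (by norm_num)).2
  have h2 : I0 ≤ ∫ s, bp (1 / 5) (2 / 5) s :=
    integral_mono (intg (f0_sm.continuous.pow 2) z00) (Prof.bp_integrable (by norm_num)) fun t => by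
      have a1 := Prof.bp_nonneg (1 / 5) (2 / 5) t
      have a2 := Prof.bp_le_one (1 / 5) (2 / 5) t
      show bp (1 / 5) (2 / 5) t ^ 2 ≤ bp (1 / 5) (2 / 5) t
      nlinarith
  linarith

lemma I1_ge : 5 ≤ I1 := by
  have c1 := f1_sm.continuous
  have h1 : ∫ t in (1 / 5 : ℝ)..2 / 5, f1 t = -1 := by
    rw [intervalIntegral.integral_eq_sub_of_hasDerivAt (fun t _ => f0_der t)
      (c1.intervalIntegrable _ _), f0_zero (le_abs_self _), f0,
      Prof.bp_one (by norm_num) (by rw [abs_of_pos]; norm_num)]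
    norm_num
  have h2 : ∫ t in (1 / 5 : ℝ)..2 / 5, (-10 * f1 t - 25) ≤ ∫ t in (1 / 5 : ℝ)..2 / 5, f1 t ^ 2 :=
    intervalIntegral.integral_mono_on (by norm_num)
      (Continuous.intervalIntegrable (by fun_prop) _ _) ((c1.pow 2).intervalIntegrable _ _)
      fun t _ => by nlinarith [sq_nonneg (f1 t + 5)]
  rw [intervalIntegral.integral_sub (Continuous.intervalIntegrable (by fun_prop) _ _)
      intervalIntegrable_const,
    intervalIntegral.integral_const_mul, h1, intervalIntegral.integral_const] at h2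
  have h3 : ∫ t in (1 / 5 : ℝ)..2 / 5, f1 t ^ 2 ≤ I1 := by
    rw [intervalIntegral.integral_of_le (by norm_num)]
    exact setIntegral_le_integral (intg (c1.pow 2) z11) (Eventually.of_forall fun _ => sq_nonneg _)
  norm_num at h2
  linarith

lemma I01 : ∫ t, f0 t * f1 t = 0 :=
  integral_eq_zero_of_hasDerivAt_of_integrable (f := fun t => f0 t ^ 2 / 2)
    (fun t => (((f0_der t).pow 2).div_const 2).congr_deriv (by simp; ring))
    (intg (f0_sm.continuous.mul f1_sm.continuous) z01)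
    ((intg (f0_sm.continuous.pow 2) z00).div_const 2)

lemma f1_bd : ∃ F : ℝ, 1 ≤ F ∧ ∀ t, |f1 t| ≤ F := by
  obtain ⟨C, h1, h2⟩ := Prof.bp_bound (a := 1 / 5) (b := 2 / 5) (by norm_num) 1
  exact ⟨C, h1, fun t => by have := h2 1 le_rfl t; rwa [iteratedDeriv_one] at this⟩

/-- the range of the indices -/
def II (N : ℕ) : Finset ℤ := Finset.Icc (-(N : ℤ) ^ 130) ((N : ℤ) ^ 130)

lemma ev_sum {g : ℝ → ℝ} (hg : Sm g) (h0 : ∀ t, 1 ≤ |t| → g t = 0) {ε : ℝ} (hε : 0 < ε) :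
    ∀ᶠ N : ℕ in atTop, ∀ a : ℝ, |a| ≤ (N : ℝ) ^ 99 →
      |∑ k ∈ II N, g (a - k / (nsig N : ℝ)) - nsig N * ∫ t, g t| ≤ ε * nsig N := by
  obtain ⟨C, hC⟩ := avg g hg h0
  filter_upwards [eventually_ge_atTop 2,
    tendsto_natCast_atTop_atTop.eventually_ge_atTop (C / ε)] with N h2 h3 a ha
  have hN : (2 : ℝ) ≤ N := by exact_mod_cast h2
  have e : (nsig N : ℝ) = (N : ℝ) ^ 30 := by rw [nsig]; push_cast; rfl
  have h4 := (hC (nsig N) (pow_pos (by omega) _)).2 0 (by norm_num) a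
  rw [iteratedDeriv_zero, finsum_eq_sum_of_support_subset (s := II N)] at h4
  · refine h4.trans ?_
    rw [div_le_iff₀' hε] at h3
    rw [e]
    exact h3.trans (mul_le_mul_of_nonneg_left (le_self_pow₀ (by linarith) (by norm_num)) hε.le)
  · intro k hk
    have h5 : |a - k / (nsig N : ℝ)| < 1 := not_le.1 fun h => hk (h0 _ h)
    have p : (0 : ℝ) < (N : ℝ) ^ 30 := by positivity
    have h6 : |(k : ℝ) / (N : ℝ) ^ 30| ≤ (N : ℝ) ^ 100 := by
      have h7 : (1 : ℝ) ≤ (N : ℝ) ^ 99 := one_le_pow₀ (by linarith)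
      have h8 := abs_sub_abs_le_abs_sub ((k : ℝ) / (N : ℝ) ^ 30) a
      rw [abs_sub_comm, ← e] at h8
      rw [← e, pow_succ]
      nlinarith
    rw [abs_div, abs_of_pos p, div_le_iff₀ p, ← pow_add] at h6
    have h9 : |k| ≤ (N : ℤ) ^ 130 := by exact_mod_cast h6
    exact Finset.mem_coe.2 (Finset.mem_Icc.2 (abs_le.1 h9))

def S0 (N : ℕ) (a : ℝ) : ℝ := ∑ k ∈ II N, f0 (a - k / (nsig N : ℝ)) ^ 2
def S1 (N : ℕ) (a : ℝ) : ℝ := ∑ k ∈ II N, f1 (a - k / (nsig N : ℝ)) ^ 2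
def S01 (N : ℕ) (a : ℝ) : ℝ := ∑ k ∈ II N, f0 (a - k / (nsig N : ℝ)) * f1 (a - k / (nsig N : ℝ))

/-- the three lattice sums are close to the integrals -/
def Lat (N : ℕ) : Prop := ∀ a : ℝ, |a| ≤ (N : ℝ) ^ 99 →
  (99 / 100 * (nsig N * I0) ≤ S0 N a ∧ S0 N a ≤ 101 / 100 * (nsig N * I0)) ∧
  (99 / 100 * (nsig N * I1) ≤ S1 N a ∧ S1 N a ≤ 101 / 100 * (nsig N * I1)) ∧
  |S01 N a| ≤ nsig N * I0 / 100

lemma ev_lat : ∀ᶠ N : ℕ in atTop, Lat N := by
  have p0 := I0_pos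
  have p1 := I1_ge
  filter_upwards [ev_sum (f0_sm.pow 2) z00 (ε := I0 / 100) (by positivity),
    ev_sum (f1_sm.pow 2) z11 (ε := I1 / 100) (by positivity),
    ev_sum (f0_sm.mul f1_sm) z01 (ε := I0 / 100) (by positivity)] with N h0 h1 h2 a ha
  have a0 : |S0 N a - nsig N * I0| ≤ I0 / 100 * nsig N := h0 a ha
  have a1 : |S1 N a - nsig N * I1| ≤ I1 / 100 * nsig N := h1 a ha
  have a2 : |S01 N a - nsig N * ∫ t, f0 t * f1 t| ≤ I0 / 100 * nsig N := h2 a ha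
  rw [I01, mul_zero, sub_zero] at a2
  rw [abs_le] at a0 a1
  exact ⟨⟨by linarith [a0.1], by linarith [a0.2]⟩, ⟨by linarith [a1.1], by linarith [a1.2]⟩,
    by linarith⟩

lemma sum_TT (d : MD) (φ : Fin 3) (F : Wi → ℝ) (H : ℤ → ℤ → ℤ → ℝ) (h0 : ∀ t, t.1 ≠ φ → F t = 0)
    (h1 : ∀ k : Cu, F (φ, k) = H (k 0) (k 1) (k 2)) :
    ∑ t ∈ d.TT, F t = ∑ a ∈ II d.c.N, ∑ b ∈ II d.c.N, ∑ c ∈ II d.c.N, H a b c := by
  rw [MD.TT, Finset.sum_product, Finset.sum_eq_single φ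
    (fun ψ _ h => Finset.sum_eq_zero fun k _ => h0 (ψ, k) h) (fun h => absurd (Finset.mem_univ φ) h),
    ← Finset.sum_product', ← Finset.sum_product' (f := fun (z : ℤ × ℤ) c => H z.1 z.2 c)]
  refine Finset.sum_nbij' (fun k => ((k 0, k 1), k 2)) (fun z => ![z.1.1, z.1.2, z.2]) ?_ ?_ ?_ ?_
    fun k _ => h1 k
  · intro k hk
    have := Fintype.mem_piFinset.1 hk
    exact Finset.mem_product.2 ⟨Finset.mem_product.2 ⟨this 0, this 1⟩, this 2⟩
  · intro z hz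
    obtain ⟨h2, h3⟩ := Finset.mem_product.1 hz
    obtain ⟨h4, h5⟩ := Finset.mem_product.1 h2
    refine Fintype.mem_piFinset.2 fun i => ?_
    fin_cases i
    exacts [h4, h5, h3]
  · intro k _
    funext i
    fin_cases i <;> rfl
  · intro z _
    rfl

lemma tri {I : Finset ℤ} {W : ℤ → ℤ → ℝ} {Z : ℤ → ℤ → ℤ → ℝ} {z z' : ℝ} (hW : ∀ a b, 0 ≤ W a b)
    (hZ : ∀ a b, z ≤ ∑ c ∈ I, Z a b c ∧ ∑ c ∈ I, Z a b c ≤ z') :
    (∑ a ∈ I, ∑ b ∈ I, W a b) * z ≤ ∑ a ∈ I, ∑ b ∈ I, ∑ c ∈ I, W a b * Z a b c ∧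
    ∑ a ∈ I, ∑ b ∈ I, ∑ c ∈ I, W a b * Z a b c ≤ (∑ a ∈ I, ∑ b ∈ I, W a b) * z' := by
  simp only [Finset.sum_mul, ← Finset.mul_sum]
  constructor <;> refine Finset.sum_le_sum fun a _ => Finset.sum_le_sum fun b _ =>
    mul_le_mul_of_nonneg_left ?_ (hW a b)
  exacts [(hZ a b).1, (hZ a b).2]

lemma sum_card {ι : Type} (T : Finset ι) (P : ι → Prop) [DecidablePred P] (F : ι → ℝ) {B M : ℝ}
    (hB : 0 ≤ B) (h0 : ∀ t, ¬ P t → F t = 0) (h1 : ∀ t, F t ≤ B) (hM : ((T.filter P).card : ℝ) ≤ M) :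
    ∑ t ∈ T, F t ≤ M * B := by
  rw [← Finset.sum_filter_of_ne (p := P) fun t _ h => by_contra fun h' => h (h0 t h')]
  refine (Finset.sum_le_card_nsmul _ _ B fun t _ => h1 t).trans ?_
  rw [nsmul_eq_mul]
  exact mul_le_mul_of_nonneg_right hM hB

/-- the sum of the squares of the noise, in numbers -/
lemma num_a {n W p G A X Y T κ e α : ℝ} (hn : 0 < n) (hW : 0 < W) (hp : 0 < p)
    (hκ : κ = W ^ 2 * p * (38 / 75) / (I0 * I1 ^ 2))
    (hX : 99 / 100 * (n * I0) ≤ X ∧ X ≤ 101 / 100 * (n * I0)) (hY0 : 0 ≤ Y)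
    (hY : 19 / 20 * (G / W) ^ 2 * (99 / 100 * (n * I1)) - 19 * A ^ 2 * (101 / 100 * (n * I0)) ≤ Y ∧
      Y ≤ 21 / 20 * (G / W) ^ 2 * (101 / 100 * (n * I1)) + 21 * A ^ 2 * (101 / 100 * (n * I0)))
    (hT : κ * (X * Y) * (99 / 100 * (n * I1)) ≤ T ∧ T ≤ κ * (X * Y) * (101 / 100 * (n * I1)))
    (hG : 18 / 100 * α ^ 2 ≤ G ^ 2 ∧ G ^ 2 ≤ 19 / 100 * α ^ 2) (hA : 11 * (W * A) ^ 2 ≤ e) :
    n ^ 3 * ((8 / 100 * α ^ 2 - e) * p) ≤ T ∧ T ≤ n ^ 3 * ((11 / 100 * α ^ 2 + e) * p) := by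
  have p0 := I0_pos
  have p1 : 0 < I1 := by linarith [I1_ge]
  obtain ⟨x, hx⟩ : ∃ x, x = X / (n * I0) := ⟨_, rfl⟩
  obtain ⟨y, hy⟩ : ∃ y, y = Y * W ^ 2 / (n * I1) := ⟨_, rfl⟩
  have e1 : κ * (X * Y) * (n * I1) = n ^ 3 * p * (38 / 75 * (x * y)) := by
    rw [hκ, hx, hy]; field_simp
  have x1 : 99 / 100 ≤ x := by rw [hx, le_div_iff₀ (by positivity)]; exact hX.1
  have x2 : x ≤ 101 / 100 := by rw [hx, div_le_iff₀ (by positivity)]; exact hX.2
  have y0 : 0 ≤ y := by rw [hy]; positivity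
  have e2 : (G / W) ^ 2 * W ^ 2 = G ^ 2 := by field_simp
  have h01 : (W * A) ^ 2 * (n * I0) ≤ (W * A) ^ 2 * (n * I1) :=
    mul_le_mul_of_nonneg_left (mul_le_mul_of_nonneg_left (by linarith [I0_le, I1_ge]) hn.le)
      (sq_nonneg _)
  have y1 : 19 / 20 * (99 / 100) * G ^ 2 - 19 * (101 / 100) * (W * A) ^ 2 ≤ y := by
    rw [hy, le_div_iff₀ (by positivity), ← e2]
    nlinarith [mul_le_mul_of_nonneg_right hY.1 (sq_nonneg W)]
  have y2 : y ≤ 21 / 20 * (101 / 100) * G ^ 2 + 21 * (101 / 100) * (W * A) ^ 2 := by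
    rw [hy, div_le_iff₀ (by positivity), ← e2]
    nlinarith [mul_le_mul_of_nonneg_right hY.2 (sq_nonneg W)]
  have k1 := mul_le_mul_of_nonneg_right x1 y0
  have k2 := mul_le_mul_of_nonneg_right x2 y0
  have q : 0 < n ^ 3 * p := by positivity
  have s1 := sq_nonneg α
  have s2 := sq_nonneg (W * A)
  have l1 := mul_le_mul_of_nonneg_left
    (show 8 / 100 * α ^ 2 - e ≤ 99 / 100 * (38 / 75 * (x * y)) by linarith [hG.1]) q.le
  have l2 := mul_le_mul_of_nonneg_left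
    (show 101 / 100 * (38 / 75 * (x * y)) ≤ 11 / 100 * α ^ 2 + e by linarith [hG.2]) q.le
  constructor <;> linarith [hT.1, hT.2]

/-- the sum of the squares of the boost, in numbers -/
lemma num_b {n κ G b W T α X0 X1 Y0 Y1 X Y : ℝ} (hn : 0 < n) (hκ : κ = b ^ 2 / (2 * I0 ^ 2 * I1))
    (hG : α ^ 2 / 25 ≤ G ^ 2) (hW : W = X1 * Y0 + X0 * Y1 + 2 * (X * Y))
    (h0 : 99 / 100 * (n * I0) ≤ X0) (h1 : 99 / 100 * (n * I1) ≤ X1)
    (h2 : 99 / 100 * (n * I0) ≤ Y0) (h3 : 99 / 100 * (n * I1) ≤ Y1)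
    (h4 : |X| ≤ n * I0 / 100) (h5 : |Y| ≤ n * I0 / 100)
    (hT : κ * G ^ 2 * W * (99 / 100 * (n * I1)) ≤ T) :
    n ^ 3 * (α ^ 2 * b ^ 2 / 25) ≤ T / 2 := by
  have p0 := I0_pos
  have p1 := I1_ge
  have p2 := I0_le
  have u0 : 0 < n * I0 := by positivity
  have u1 : n * I0 ≤ n * I1 := mul_le_mul_of_nonneg_left (by linarith) hn.le
  have k1 := mul_le_mul h1 h2 (by positivity) (by linarith)
  have k2 := mul_le_mul h0 h3 (by linarith) (by linarith)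
  have k3 := mul_le_mul h4 (h5.trans (show _ ≤ n * I1 / 100 by linarith)) (abs_nonneg _)
    (by positivity)
  rw [← abs_mul] at k3
  have k4 : n * I0 * (n * I1) ≤ W := by
    have := mul_pos u0 (u0.trans_le u1)
    linarith [neg_abs_le (X * Y)]
  have k5 : κ * (α ^ 2 / 25) * (n * I0 * (n * I1)) ≤ κ * G ^ 2 * W := by
    have : 0 ≤ κ := by rw [hκ]; positivity
    exact mul_le_mul (mul_le_mul_of_nonneg_left hG this) k4 (by positivity) (by positivity)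
  have k6 := mul_le_mul_of_nonneg_right k5 (show 0 ≤ 99 / 100 * (n * I1) by positivity)
  have e : κ * (α ^ 2 / 25) * (n * I0 * (n * I1)) * (99 / 100 * (n * I1)) =
      n ^ 3 * (α ^ 2 * b ^ 2 / 25) * (99 / 200 * (I1 / I0)) := by
    rw [hκ]; field_simp; ring
  have k7 : 2 ≤ 99 / 200 * (I1 / I0) := by
    have : 5 ≤ I1 / I0 := by rw [le_div_iff₀ p0]; linarith
    linarith
  have k8 := mul_le_mul_of_nonneg_left k7
    (show 0 ≤ n ^ 3 * (α ^ 2 * b ^ 2 / 25) by positivity)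
  linarith

end Yq

end
end Pool.Agent.MP_20bec2_an.T3

end MrgPart0

-- ======== part 1: formerly Pool.Agent.MP_20bec2_an.T3.Yq
section MrgPart1

/-! Row YQ: the sum of the squares of the noise and of the boost. -/

set_option autoImplicit false
open MeasureTheory Set Filter Matrix Topology

namespace Pool.Agent.MP_20bec2_an.T3
noncomputable section
open Classical

namespace Yq

/-! ## derivatives of the pattern -/

def UU (w c : ℝ) (y : V) : ℝ := y 0 / w - c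
def VV (w w' ς c : ℝ) (y : V) : ℝ := y 1 / w' + ς * (y 0 / w) - c

lemma UU_sm (w c : ℝ) : Sm (UU w c) := ((sm_coord 0).div_const w).sub contDiff_const
lemma VV_sm (w w' ς c : ℝ) : Sm (VV w w' ς c) :=
  (((sm_coord 1).div_const w').add (Sm.cmul ((sm_coord 0).div_const w) ς)).sub contDiff_const

lemma pd_cd (j i : Fin 3) (w : ℝ) (x : V) :
    pd j (fun y => y i / w) x = (if i = j then 1 else 0) / w := by
  rw [← pd_coord j i x]; exact congrFun (pds_div_const w (fun y => y i) [j]) x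

lemma pd_UU (w c : ℝ) (j : Fin 3) (x : V) : pd j (UU w c) x = (if 0 = j then 1 else 0) / w := by
  unfold UU
  rw [pd_sub_at (Sm.dif ((sm_coord 0).div_const w) x) (differentiableAt_const _), pd_cd, pd_const,
    sub_zero]

lemma pd_VV (w w' ς c : ℝ) (j : Fin 3) (x : V) : pd j (VV w w' ς c) x =
    (if 1 = j then 1 else 0) / w' + ς * ((if 0 = j then 1 else 0) / w) := by
  have h0 : Sm fun y : V => ς * (y 0 / w) := Sm.cmul ((sm_coord 0).div_const w) ς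
  have h1 : Sm fun y : V => y 1 / w' := (sm_coord 1).div_const w'
  unfold VV
  rw [pd_sub_at (Sm.dif (h1.add h0) x) (differentiableAt_const _), pd_add_at (h1.dif x) (h0.dif x),
    pd_const_mul, pd_cd, pd_cd, pd_const, sub_zero]

lemma smc {φ : ℝ → ℝ} {U : V → ℝ} (hφ : Sm φ) (hU : Sm U) : Sm fun y => φ (U y) := hφ.comp hU

lemma pd_f {φ : ℝ → ℝ} {U : V → ℝ} (hφ : Sm φ) (hU : Sm U) (j : Fin 3) (x : V) :
    pd j (fun y => φ (U y)) x = deriv φ (U x) * pd j U x := pd_comp_at (hφ.dif _) (hU.dif x) j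

lemma pd_ff {φ ψ : ℝ → ℝ} {U W : V → ℝ} (hφ : Sm φ) (hψ : Sm ψ) (hU : Sm U) (hW : Sm W)
    (j : Fin 3) (x : V) : pd j (fun y => φ (U y) * ψ (W y)) x =
      deriv φ (U x) * pd j U x * ψ (W x) + φ (U x) * (deriv ψ (W x) * pd j W x) := by
  rw [pd_mul_at ((smc hφ hU).dif x) ((smc hψ hW).dif x), pd_f hφ hU, pd_f hψ hW]

lemma pd_Phi (c : ℝ) {G U W : V → ℝ} (hG : Sm G) (hU : Sm U) (hW : Sm W) (j : Fin 3) (x : V) :
    pd j (fun y => c * (G y * (f0 (U y) * f0 (W y)))) x =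
      c * (pd j G x * (f0 (U x) * f0 (W x)) +
        G x * (f1 (U x) * pd j U x * f0 (W x) + f0 (U x) * (f1 (W x) * pd j W x))) := by
  rw [pd_const_mul, pd_mul_at (hG.dif x) (Sm.dif ((smc f0_sm hU).mul (smc f0_sm hW)) x),
    pd_ff f0_sm f0_sm hU hW]
  rfl

lemma pd_two (k : ℝ) {A G P Q T : V → ℝ} (hA : Sm A) (hG : Sm G) (hP : Sm P) (hQ : Sm Q)
    (hT : Sm T) (x : V) (p2 : pd 2 P x = 0) (q2 : pd 2 Q x = 0) :
    pd 2 (fun y => k * ((A y * P y + G y * Q y) * T y)) x =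
      k * (G x * Q x * pd 2 T x) +
        k * ((pd 2 A x * P x + pd 2 G x * Q x) * T x + A x * P x * pd 2 T x) := by
  rw [pd_const_mul, pd_mul_at (Sm.dif ((hA.mul hP).add (hG.mul hQ)) x) (hT.dif x),
    pd_add_at (Sm.dif (hA.mul hP) x) (Sm.dif (hG.mul hQ) x), pd_mul_at (hA.dif x) (hP.dif x),
    pd_mul_at (hG.dif x) (hQ.dif x), p2, q2]
  ring

lemma num_c {k a g b P Q T0 T1 τ A G B Q' F L : ℝ} (hk : 0 ≤ k) (h1 : |a| ≤ A) (h2 : |g| ≤ G)
    (h3 : |b| ≤ B) (h4 : |P| ≤ 1) (h5 : |Q| ≤ Q') (h6 : |T0| ≤ 1) (h7 : |T1| ≤ F) (h8 : |τ| ≤ L) :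
    |-k * ((a * P + g * Q) * T0 + b * P * (T1 * τ))| ≤ k * A + k * (G * Q') + k * (B * (F * L)) := by
  have m : ∀ {x y X Y : ℝ}, |x| ≤ X → |y| ≤ Y → |x * y| ≤ X * Y := fun hx hy => by
    rw [abs_mul]; exact mul_le_mul hx hy (abs_nonneg _) ((abs_nonneg _).trans hx)
  have e1 := m ((abs_add_le _ _).trans (add_le_add (m h1 h4) (m h2 h5))) h6
  have e2 := m (show |-k| ≤ k by rw [abs_neg, abs_of_nonneg hk])
    ((abs_add_le _ _).trans (add_le_add e1 (m (m h3 h4) (m h7 h8))))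
  linarith

variable {d : MD} {p : PT} {s : Sa}

def uu (d : MD) (t : Wi) : V → ℝ := UU (d.W1 t.1) (t.2 0 / d.ns)
def vv (d : MD) (t : Wi) : V → ℝ := VV (d.W1 t.1) (d.W2 t.1) (MD.vs t.1) (t.2 1 / d.ns)
def GG (d : MD) (p : PT) (φ : Fin 3) (y : V) : ℝ := d.α y * p.r φ y

lemma uu_sm (d : MD) (t : Wi) : Sm (uu d t) := UU_sm _ _
lemma vv_sm (d : MD) (t : Wi) : Sm (vv d t) := VV_sm _ _ _ _
lemma GG_sm (ha : d.AmpOk p.r) (φ : Fin 3) : Sm (GG d p φ) :=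
  (Prof.alh_sm _ _).mul (ha.1 φ).1

lemma pd_Ph (ha : d.AmpOk p.r) (t : Wi) (j : Fin 3) (x : V) : pd j (d.Ph p t) x =
    d.ca t.1 * (pd j (GG d p t.1) x * (f0 (uu d t x) * f0 (vv d t x)) + GG d p t.1 x *
      (f1 (uu d t x) * pd j (uu d t) x * f0 (vv d t x) +
        f0 (uu d t x) * (f1 (vv d t x) * pd j (vv d t) x))) := by
  rw [← pd_Phi _ (GG_sm ha _) (uu_sm d t) (vv_sm d t)]
  congr 1
  funext y
  simp only [MD.Ph, GG, uu, vv, UU, VV]
  ring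

lemma ph_sm (hc : d.ClkOk p.τ) (t : Wi) : Sm (d.ph p t) :=
  ((hc _ _ _).1.comp (sm_coord 2)).sub contDiff_const

lemma pd_ph (hc : d.ClkOk p.τ) (t : Wi) (x : V) :
    pd 2 (d.ph p t) x = deriv (p.τ t.1 (t.2 0) (t.2 1)) (x 2) := by
  unfold MD.ph
  rw [pd_sub_at ((smc (hc _ _ _).1 (sm_coord 2)).dif x) (differentiableAt_const _), pd_const,
    pd_f (hc _ _ _).1 (sm_coord 2), pd_coord]
  simp

/-! ## supports -/

def KK (d : MD) (p : PT) (t : Wi) (w : ℝ) : Set V :=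
  {y | |uu d t y| ≤ 2 / 5 ∧ |y 1 - d.c1 t.1 (t.2 0) (t.2 1)| ≤ w ∧ |d.ph p t y| ≤ 2 / 5}

lemma KK_closed (hc : d.ClkOk p.τ) (t : Wi) (w : ℝ) : IsClosed (KK d p t w) :=
  (isClosed_le (UU_sm _ _).continuous.abs continuous_const).inter
    ((isClosed_le ((continuous_apply 1).sub continuous_const).abs continuous_const).inter
      (isClosed_le (ph_sm hc t).continuous.abs continuous_const))

lemma vs_le (φ : Fin 3) : |MD.vs φ| ≤ 1 := by fin_cases φ <;> simp [MD.vs]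

lemma W_ge (g : Gd d.c) (φ : Fin 3) : d.c.lam ≤ d.W1 φ ∧ d.c.lam ≤ d.W2 φ := by
  have h1 : d.c.lam ≤ np d.c.N (499 / 1000) * d.c.lam :=
    le_mul_of_one_le_left g.lam_pos.le (by rw [← np_zero d.c.N]; exact g.big.np_le (by norm_num))
  unfold MD.W1 MD.W2
  split_ifs
  · exact ⟨h1.trans (g.win _ (by simp)).1, h1.trans (g.win _ (by simp)).1⟩
  · exact ⟨h1.trans (g.win _ (by simp)).1, h1.trans (g.win _ (by simp)).1⟩

lemma off_KK (g : Gd d.c) {t : Wi} {w : ℝ} (hw : d.W2 t.1 ≤ w) {y : V} (hy : y ∉ KK d p t w) :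
    2 / 5 < |uu d t y| ∨ 2 / 5 < |vv d t y| ∨ 2 / 5 < |d.ph p t y| := by
  by_contra h
  push Not at h
  have p2 := g.lam_pos.trans_le (W_ge g t.1).2
  refine hy ⟨h.1, ?_, h.2.2⟩
  have e : y 1 - d.c1 t.1 (t.2 0) (t.2 1) = d.W2 t.1 * (vv d t y - MD.vs t.1 * uu d t y) := by
    simp only [MD.c1, uu, vv, UU, VV]
    field_simp
    ring
  have h1 : |MD.vs t.1 * uu d t y| ≤ 1 * (2 / 5) := by
    rw [abs_mul]; exact mul_le_mul (vs_le _) h.1 (abs_nonneg _) zero_le_one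
  have h2 := abs_sub (vv d t y) (MD.vs t.1 * uu d t y)
  rw [e, abs_mul, abs_of_pos p2]
  exact (mul_le_of_le_one_right p2.le (by linarith [h.2.1])).trans hw

/-- the smoothness of the sum of squares -/
lemma part_cb (g : Gd d.c) (hc : d.ClkOk p.τ) (hd : ∀ t, d.Der p s t)
    (hn : ∀ x, ((d.TT.filter fun t => |x 0 / d.W1 t.1 - t.2 0 / d.ns| ≤ 9 / 20 ∧
      |x 1 - d.c1 t.1 (t.2 0) (t.2 1)| ≤ d.W2 t.1 ∧ |d.ph p t x| ≤ 9 / 20).card : ℝ) ≤
      9 * nsg d.c.N) :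
    CB 1 d.c.thS univ (fun x => ∑ a ∈ d.TT, d.om p a x ^ 2) (nsg d.c.N * (d.c.q * d.c.p)) := by
  intro l hl x _
  have hh : ∀ i, 0 ≤ d.c.thS i := fun i => (g.thS_pos i).le
  have sm : ∀ t, Sm (d.om p t) := fun t => (hd t).cr.sm.2
  have q1 := g.big.qp_pos (1 / 100)
  have q2 := g.p_pos
  have q3 := g.N_pos
  simp only [sq]
  rw [pds_sum _ fun t _ => (sm t).mul (sm t)]
  refine (mul_le_mul_of_nonneg_left (Finset.abs_sum_le_sum_abs _ _) (hp_nonneg hh l)).trans ?_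
  rw [Finset.mul_sum]
  refine (sum_card _ _ _ (by positivity) (fun t ht => ?_) (fun t =>
    CB.mul hh (sm t) (sm t) ((hd t).th.of_le (by norm_num)) ((hd t).th.of_le (by norm_num)) l hl x
      trivial) (hn x)).trans ?_
  · rw [pds_zero_off (KK_closed hc t (d.W2 t.1)) (fun y hy => ?_) l x fun hx =>
      ht ⟨hx.1.trans (by norm_num), hx.2.1, hx.2.2.trans (by norm_num)⟩, abs_zero, mul_zero]
    rw [((hd t).sup y (Or.inr (off_KK g le_rfl hy))).2, mul_zero]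
  · have e : √d.c.p * √d.c.p = d.c.p := Real.mul_self_sqrt q2.le
    have k : 18 * (qp d.c.N (1 / 100) * qp d.c.N (1 / 100)) ≤ d.c.q := by
      refine le_of_log (by positivity) g.q_pos ?_
      simp (disch := positivity) only [Real.log_mul, g.big.log_qp, g.log_q]
      linarith [g.big.L_ge, (logc_bd (show (1 : ℝ) ≤ 18 by norm_num)).2]
    have n0 : 0 ≤ nsg d.c.N := by unfold nsg; positivity
    calc _ = nsg d.c.N * (18 * (qp d.c.N (1 / 100) * qp d.c.N (1 / 100)) * (√d.c.p * √d.c.p)) := by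
          ring
      _ ≤ _ := by rw [e]; gcongr

/-! ## ranges -/

lemma Hh_nonneg (g : Gd d.c) (φ : Fin 3) : 0 ≤ d.Hh φ := by
  have := g.Hp_pos; have := g.H0_pos; have := g.H1_pos
  unfold MD.Hh; split_ifs <;> positivity

lemma tau_bd (g : Gd d.c) (hc : d.ClkOk p.τ) (φ : Fin 3) (a b : ℤ) (r : ℝ) :
    |deriv (p.τ φ a b) r| ≤ np d.c.N (-498 / 1000) / d.c.lam := by
  obtain ⟨h1, h2, -⟩ := (hc φ a b).2.2.2.2.1 r
  rwa [abs_of_nonneg ((one_div_nonneg.2 (Hh_nonneg g φ)).trans h1)]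

lemma range (g : Gd d.c) (hi : d.In) (hc : d.ClkOk p.τ) {x : V} (hx : x ∈ d.R (9 / 10))
    (φ : Fin 3) : |x 0 / d.W1 φ| ≤ (d.c.N : ℝ) ^ 99 ∧
      |x 1 / d.W2 φ + MD.vs φ * (x 0 / d.W1 φ)| ≤ (d.c.N : ℝ) ^ 99 ∧
      ∀ a b, |p.τ φ a b (x 2)| ≤ (d.c.N : ℝ) ^ 99 := by
  have pl := g.lam_pos
  have hN : (2 : ℝ) ≤ d.c.N := by linarith [g.big.N_ge, g.big.J_ge, g.big.L_ge]
  have h1 : d.c.D ≤ (d.c.N : ℝ) ^ 97 * d.c.lam := by
    have := g.lb_le
    rw [show (93 : ℝ) = (93 : ℕ) by norm_num, np_nat] at this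
    calc d.c.D ≤ (d.c.N : ℝ) ^ 4 * ((d.c.N : ℝ) ^ 93 * d.c.lam) :=
          mul_le_mul_of_nonneg_left this (by positivity)
      _ = _ := by ring
  have h2 : ∀ i, |x i| ≤ 2 * (d.c.N : ℝ) ^ 97 * d.c.lam := fun i => by
    linarith [Prof.abs_le_norm x i, Prof.RX_norm hi.ort hx, g.D_pos]
  have h3 : ∀ i w, d.c.lam ≤ w → |x i / w| ≤ 2 * (d.c.N : ℝ) ^ 97 := fun i w hw => by
    rw [abs_div, abs_of_pos (pl.trans_le hw), div_le_iff₀ (pl.trans_le hw)]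
    exact (h2 i).trans (mul_le_mul_of_nonneg_left hw (by positivity))
  have h4 : 4 * (d.c.N : ℝ) ^ 97 ≤ (d.c.N : ℝ) ^ 99 := by
    rw [show 99 = 2 + 97 by rfl, pow_add]
    exact mul_le_mul_of_nonneg_right (by nlinarith) (by positivity)
  have h5 : (0 : ℝ) ≤ (d.c.N : ℝ) ^ 97 := by positivity
  have a0 := h3 0 _ (W_ge g φ).1
  have a1 := h3 1 _ (W_ge g φ).2
  refine ⟨by linarith, ?_, fun a b => ?_⟩
  · have h6 : |MD.vs φ * (x 0 / d.W1 φ)| ≤ 1 * (2 * (d.c.N : ℝ) ^ 97) := by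
      rw [abs_mul]; exact mul_le_mul (vs_le _) a0 (abs_nonneg _) zero_le_one
    linarith [abs_add_le (x 1 / d.W2 φ) (MD.vs φ * (x 0 / d.W1 φ))]
  · have h7 : np d.c.N (-498 / 1000) ≤ 1 := by
      rw [← np_zero d.c.N]; exact g.big.np_le (by norm_num)
    have h6 : |p.τ φ a b (x 2) - p.τ φ a b 0| ≤ 1 / d.c.lam * |x 2 - 0| :=
      convex_univ.norm_image_sub_le_of_norm_deriv_le (𝕜 := ℝ) (fun r _ => (hc φ a b).1.dif r)
        (fun r _ => (tau_bd g hc φ a b r).trans (div_le_div_of_nonneg_right h7 pl.le))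
        (mem_univ _) (mem_univ _)
    have h8 := h3 2 _ le_rfl
    rw [abs_div, abs_of_pos pl] at h8
    rw [(hc φ a b).2.1, sub_zero, sub_zero, one_div_mul_eq_div] at h6
    linarith

lemma eL_le (g : Gd d.c) : d.c.J ^ 16 * d.c.eL ≤ np d.c.N (-455 / 1000) ∧
    (d.c.noise → d.c.J ^ 16 * d.c.eL ≤ np d.c.N (-35 / 10)) := by
  have pJ := g.J_pos
  have key : ∀ a b : ℝ, b + 1 / 1000 ≤ a → d.c.eL ≤ 2 * np d.c.N b →
      d.c.J ^ 16 * d.c.eL ≤ np d.c.N a := fun a b hab h => by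
    have := g.big.np_pos b
    refine (mul_le_mul_of_nonneg_left h (by positivity)).trans (le_of_log (by positivity)
      (g.big.np_pos a) ?_)
    simp (disch := positivity) only [Real.log_mul, Real.log_pow, g.big.log_np, g.log_J]
    push_cast
    nlinarith [g.big.L_ge, g.big.J_ge, log2_bd.2, mul_le_mul_of_nonneg_right hab g.big.J_pos.le]
  have h1 : d.c.eHi ≤ np d.c.N (-46 / 100) :=
    g.big.np_le (by linarith [(rmp_mem (etaS d.c.N / 10) d.c.η).1])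
  have p1 := g.eHi_pos
  refine ⟨key _ (-46 / 100) (by norm_num) ?_, fun hn => key _ (-5) (by norm_num) ?_⟩
  · have h2 : d.c.eLo ≤ np d.c.N (-46 / 100) :=
      g.big.np_le (by linarith [(rmp_mem (d.c.thr / 2) d.c.η).1])
    have h3 : d.c.eHi * (6 / 10) ^ d.c.k ≤ d.c.eHi :=
      mul_le_of_le_one_right p1.le (pow_le_one₀ (by norm_num) (by norm_num))
    unfold Pm.eL; linarith
  · have h2 : rmp (d.c.thr / 2) d.c.η = 1 := by
      refine min_eq_left (le_max_of_le_right ?_)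
      rw [Real.le_log_iff_exp_le (div_pos (half_pos g.thr_pos) g.η_pos), le_div_iff₀ g.η_pos,
        Pm.thr, if_pos (by rw [hn.2]; exact g.big.mid_lt.1)]
      nlinarith [g.push_η hn.1, Real.exp_one_lt_d9, g.η_pos]
    have h3 : d.c.eLo ≤ np d.c.N (-5) := g.big.np_le (by rw [h2]; norm_num)
    have h4 : (6 / 10 : ℝ) ^ d.c.k ≤ np d.c.N (-5) := by
      have h5 := (g.big.two_pow_nm 5000 (a := 5) (b := 12) (by norm_num) (by norm_num)).1
      rw [hn.2, show mid d.c.N = 2 * (5000 * nm d.c.N) by unfold mid; ring, pow_mul]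
      refine (pow_le_pow_left₀ (by norm_num) (show ((6 : ℝ) / 10) ^ 2 ≤ 2⁻¹ by norm_num) _).trans ?_
      rw [inv_pow, np, Real.rpow_neg g.N_pos.le]
      exact inv_anti₀ (g.big.np_pos 5) h5
    have h6 : d.c.eHi ≤ 1 := h1.trans (by rw [← np_zero d.c.N]; exact g.big.np_le (by norm_num))
    have h7 : d.c.eHi * (6 / 10) ^ d.c.k ≤ (6 / 10) ^ d.c.k :=
      mul_le_of_le_one_left (by positivity) h6
    unfold Pm.eL; linarith

/-- the property of `q` that bounds the variation of the amplitude -/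
def Amp (N : ℕ) : Prop := ∀ (d : MD) (p : PT), d.c.N = N → Gd d.c → d.In → d.AmpOk p.r →
  ∀ φ a, -35 / 10 ≤ a → a ≤ 0 → d.c.J ^ 16 * d.c.eL ≤ np N a →
    CV 2 (cv d.c.hE) (d.R (95 / 100)) (GG d p φ) (pq N * np N a)

lemma ev_amp : ∀ᶠ N : ℕ in atTop, Amp N := by
  obtain ⟨C, h1, hC⟩ := Prof.cb_cut 2
  filter_upwards [ev_C_q (8 * C)] with N hq d p hN g hi ha φ a a1 a2 he
  subst hN
  have e1 : np d.c.N a ≤ 1 := by rw [← np_zero d.c.N]; exact g.big.np_le a2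
  have p1 := g.big.np_pos a
  have e2 : d.c.hE ≤ np d.c.N a * d.c.D := by
    refine le_of_log g.hE_pos (mul_pos p1 g.D_pos) ?_
    rw [Real.log_mul p1.ne' g.D_pos.ne', g.log_hE, g.log_D, g.big.log_np]
    nlinarith [Real.log_le_log g.lam_pos g.lam_le_lb, g.big.J_pos]
  obtain ⟨⟨b1, -⟩, b2, -⟩ := (hC d.O d.c.D hi.ort g.D_pos).2 (cv d.c.hE) _ e1
    fun _ => (abs_of_pos g.hE_pos).trans_le e2
  obtain ⟨r1, r2, r3, -⟩ := ha.1 φ
  have r4 : CV 2 (cv d.c.hE) (d.R (95 / 100)) (p.r φ) (np d.c.N a) :=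
    CBl.monoB (r3.of_le (by norm_num)) he
  have r5 : CB 2 (cv d.c.hE) (d.R (95 / 100)) (p.r φ) 1 :=
    CV.toCB (CBl.monoB r4 e1) fun x hx => abs_le.2 ⟨by linarith [(r2 x hx).1], by linarith [(r2 x hx).2]⟩
  exact CBl.monoB (CV.mul (fun _ => g.hE_pos.le) (Prof.alh_sm _ _) r1
    (CBl.monoU b1 (subset_univ _)) (CBl.monoU b2 (subset_univ _)) r5 r4) (by nlinarith)

lemma nsg_eq (N : ℕ) : nsg N = (nsig N : ℝ) ^ 3 := by rw [nsg, nsig]; push_cast; ring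

lemma ns_pos (g : Gd d.c) : (0 : ℝ) < nsig d.c.N := by
  have := g.N_pos
  rw [nsig]; push_cast; positivity

lemma R_sub (g : Gd d.c) {x : V} (hx : x ∈ d.R (9 / 10)) : x ∈ d.R (95 / 100) :=
  Prof.RX_mono _ g.D_pos.le (by norm_num) hx

/-! ## the noise -/

lemma part_a (g : Gd d.c) (hi : d.In) (hl : Lat d.c.N) (hm : Amp d.c.N) (ha : d.AmpOk p.r)
    (hc : d.ClkOk p.τ) (hd : ∀ t, d.Der p s t) (hn : d.c.noise) (x : V) :
    nsg d.c.N * ((8 / 100 * d.α x ^ 2 - np d.c.N (-5)) * d.c.p) ≤ ∑ a ∈ d.TT, d.om p a x ^ 2 ∧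
      ∑ a ∈ d.TT, d.om p a x ^ 2 ≤ nsg d.c.N * ((11 / 100 * d.α x ^ 2 + np d.c.N (-5)) * d.c.p) := by
  have pp := g.p_pos
  have pn := ns_pos g
  have p5 := g.big.np_pos (-5)
  rw [nsg_eq]
  by_cases hx : x ∈ d.R (9 / 10)
  swap
  · have h0 : d.α x = 0 := Prof.alh_zero g.D_pos hx
    rw [Finset.sum_eq_zero fun t _ => by rw [((hd t).sup x (Or.inl hx)).2]; norm_num, h0]
    have : 0 ≤ (nsig d.c.N : ℝ) ^ 3 * (np d.c.N (-5) * d.c.p) := by positivity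
    constructor <;> linarith
  obtain ⟨r0, r1, r2⟩ := range g hi hc hx 0
  obtain ⟨u, hu⟩ : ∃ u, u = x 0 / d.W1 0 := ⟨_, rfl⟩
  obtain ⟨v, hv⟩ : ∃ v, v = x 1 / d.W2 0 + MD.vs 0 * (x 0 / d.W1 0) := ⟨_, rfl⟩
  obtain ⟨A, hA⟩ : ∃ A, A = pd 1 (GG d p 0) x := ⟨_, rfl⟩
  obtain ⟨κ, hκ⟩ : ∃ κ, κ = d.ca 0 ^ 2 / d.Hh 0 ^ 2 := ⟨_, rfl⟩
  rw [← hu] at r0
  rw [← hv] at r1
  have k0 : 0 ≤ κ := by rw [hκ]; positivity
  have p0 := I0_pos
  have p1 : 0 < I1 := by linarith [I1_ge]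
  have pw := g.W20_pos
  have h1 := tri (I := II d.c.N) (W := fun a b => κ * (f0 (u - a / (nsig d.c.N : ℝ)) ^ 2 *
    (A * f0 (v - b / (nsig d.c.N : ℝ)) + GG d p 0 x / d.c.W20 * f1 (v - b / (nsig d.c.N : ℝ))) ^ 2))
    (Z := fun a b c => f1 (p.τ 0 a b (x 2) - c / (nsig d.c.N : ℝ)) ^ 2) (fun _ _ => by positivity)
    fun a b => (hl _ (r2 a b)).2.1
  rw [← sum_TT d 0 (fun t => d.om p t x ^ 2) _ (fun t ht => by
      rw [MD.om, if_neg fun h => ht h.2]; norm_num) (fun k => by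
      rw [MD.om, if_pos ⟨hn, rfl⟩, pd_Ph ha, uu, vv, pd_UU, pd_VV, hκ, hu, hv, hA]
      simp only [UU, VV, MD.ph, MD.ns, show d.W2 0 = d.c.W20 from if_pos rfl]
      simp
      ring)] at h1
  simp only [← Finset.mul_sum, ← Finset.sum_mul] at h1
  refine num_a (G := GG d p 0 x) (A := A) pn pw pp ?_ (hl u r0).1
    (Finset.sum_nonneg fun _ _ => sq_nonneg _) ?_ h1 ?_ ?_
  · have := g.l1_pos
    rw [hκ, MD.ca, MD.Hh, if_pos rfl, if_pos rfl, if_pos hn, Pm.Hp]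
    simp (disch := positivity) only [div_pow, mul_pow, Real.sq_sqrt]
    field_simp
    ring
  · obtain ⟨⟨a1, a2⟩, ⟨a3, a4⟩, -⟩ := hl v r1
    have b1 := sq_nonneg A
    have b2 := sq_nonneg (GG d p 0 x / d.c.W20)
    constructor
    · refine le_trans (b := 19 / 20 * (GG d p 0 x / d.c.W20) ^ 2 * S1 d.c.N v -
        19 * A ^ 2 * S0 d.c.N v) (by gcongr) ?_
      rw [S0, S1, Finset.mul_sum, Finset.mul_sum, ← Finset.sum_sub_distrib]
      exact Finset.sum_le_sum fun b _ => by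
        nlinarith [sq_nonneg (A * f0 (v - b / (nsig d.c.N : ℝ)) +
          GG d p 0 x / d.c.W20 * f1 (v - b / (nsig d.c.N : ℝ)) / 20)]
    · refine le_trans (b := 21 / 20 * (GG d p 0 x / d.c.W20) ^ 2 * S1 d.c.N v +
        21 * A ^ 2 * S0 d.c.N v) ?_ (by gcongr)
      rw [S0, S1, Finset.mul_sum, Finset.mul_sum, ← Finset.sum_add_distrib]
      exact Finset.sum_le_sum fun b _ => by
        nlinarith [sq_nonneg (A * f0 (v - b / (nsig d.c.N : ℝ)) -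
          GG d p 0 x / d.c.W20 * f1 (v - b / (nsig d.c.N : ℝ)) / 20)]
  · obtain ⟨-, -, -, a1, a2⟩ := ha.2 x (R_sub g hx)
    rw [GG, mul_pow]
    constructor <;> nlinarith [sq_nonneg (d.α x)]
  · have a1 : d.c.hE * |A| ≤ pq d.c.N * np d.c.N (-35 / 10) := hA ▸
      (hm d p rfl g hi ha 0 _ le_rfl (by norm_num) ((eL_le g).2 hn)).pd_le (by norm_num) 1
        (R_sub g hx)
    have a2 : d.c.W20 ≤ np d.c.N (541 / 1000) * d.c.hE := by
      rw [Pm.hE, ← mul_assoc, ← g.big.np_add]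
      exact (g.win _ (by simp)).2.1.trans_eq (by norm_num)
    have c1 := g.big.np_pos (541 / 1000)
    have c2 := g.big.np_pos (-35 / 10)
    have c3 := g.big.q_pos
    have a3 : |d.c.W20 * A| ≤ np d.c.N (541 / 1000) * (pq d.c.N * np d.c.N (-35 / 10)) := by
      rw [abs_mul, abs_of_pos pw]
      refine (mul_le_mul_of_nonneg_right a2 (abs_nonneg _)).trans ?_
      rw [mul_assoc]
      exact mul_le_mul_of_nonneg_left a1 c1.le
    rw [← sq_abs]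
    refine (mul_le_mul_of_nonneg_left (pow_le_pow_left₀ (abs_nonneg _) a3 2) (by norm_num)).trans
      (le_of_log (by positivity) p5 ?_)
    simp (disch := positivity) only [Real.log_mul, Real.log_pow, g.big.log_np, g.big.log_q]
    push_cast
    linarith [g.big.L_ge, g.big.J_ge, (logc_bd (show (1 : ℝ) ≤ 11 by norm_num)).2]

/-! ## the boost -/

def PP (d : MD) (t : Wi) (y : V) : ℝ := f0 (uu d t y) * f0 (vv d t y)
def QQ (d : MD) (t : Wi) (y : V) : ℝ := 1 / d.W1 t.1 *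
  (f1 (uu d t y) * f0 (vv d t y) + MD.vs t.1 * (f0 (uu d t y) * f1 (vv d t y)))

lemma ff_sm {φ ψ : ℝ → ℝ} (hφ : Sm φ) (hψ : Sm ψ) (t : Wi) :
    Sm fun y => φ (uu d t y) * ψ (vv d t y) := (smc hφ (uu_sm d t)).mul (smc hψ (vv_sm d t))

lemma ff_two {φ ψ : ℝ → ℝ} (hφ : Sm φ) (hψ : Sm ψ) (t : Wi) (x : V) :
    pd 2 (fun y => φ (uu d t y) * ψ (vv d t y)) x = 0 := by
  rw [pd_ff hφ hψ (uu_sm d t) (vv_sm d t), uu, vv, pd_UU, pd_VV]
  simp

/-- the main part of the entry `(1, 2)` -/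
def am (d : MD) (p : PT) (t : Wi) (x : V) : ℝ := -(d.c.η0 * d.ca t.1) * (GG d p t.1 x * QQ d t x *
  (f1 (d.ph p t x) * deriv (p.τ t.1 (t.2 0) (t.2 1)) (x 2)))

lemma jm_eq (ha : d.AmpOk p.r) (hc : d.ClkOk p.τ) {t : Wi} (hd : d.Der p s t ∧ d.Cmp p s t)
    (ht : ¬ d.nz0 t.1) (x : V) : jm (d.Ps p s t) x 1 2 - am d p t x = -(d.c.η0 * d.ca t.1) *
      ((pd 2 (pd 0 (GG d p t.1)) x * PP d t x + pd 2 (GG d p t.1) x * QQ d t x) * f0 (d.ph p t x) +
        pd 0 (GG d p t.1) x * PP d t x *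
          (f1 (d.ph p t x) * deriv (p.τ t.1 (t.2 0) (t.2 1)) (x 2))) + pd 2 (d.Gc p s t) x := by
  have s1 := ff_sm f1_sm f0_sm (d := d) t
  have s2 := Sm.cmul (ff_sm f0_sm f1_sm (d := d) t) (MD.vs t.1)
  have e1 : jm (d.Ps p s t) x 1 2 = pd 2 (fun y => d.Pm' p s t y 1 + d.Gc p s t y) x := rfl
  have e2 : (fun y => d.Pm' p s t y 1) = fun y => -(d.c.η0 * d.ca t.1) *
      ((pd 0 (GG d p t.1) y * PP d t y + GG d p t.1 y * QQ d t y) * f0 (d.ph p t y)) := by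
    funext y
    show -d.c.η0 * pd 0 (d.Ph p t) y * d.prof p s t y = _
    rw [MD.prof, if_neg ht, pd_Ph ha, PP, QQ, uu, vv, pd_UU, pd_VV]
    simp
    ring
  have e3 : pd 2 (QQ d t) x = 0 := by
    unfold QQ
    rw [pd_const_mul, pd_add_at (s1.dif x) (s2.dif x), pd_const_mul, ff_two f1_sm f0_sm,
      ff_two f0_sm f1_sm]
    simp
  rw [e1, pd_add_at ((hd.1.cr.sm.1.coord 1).dif x) (hd.2.sm.dif x), e2,
    pd_two _ ((GG_sm ha _).pd 0) (GG_sm ha _) (P := PP d t) (Q := QQ d t) (ff_sm f0_sm f0_sm t)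
      (Sm.cmul (s1.add s2) _) (smc f0_sm (ph_sm hc t)) x (ff_two f0_sm f0_sm t x) e3,
    pd_f f0_sm (ph_sm hc t), pd_ph hc, am, f1]
  ring

lemma bw_ge (g : Gd d.c) (φ : Fin 3) : d.W2 φ ≤ 2 * d.bw φ := by
  have h1 : (2 : ℝ) ≤ np d.c.N (8 / 100) := le_of_log two_pos (g.big.np_pos _) (by
    rw [g.big.log_np]; linarith [g.big.L_ge, g.big.J_ge, log2_bd.2])
  have h2 : (2 : ℝ) ≤ d.mm := h1.trans (Nat.le_ceil _)
  have h3 := g.lam_pos.trans_le (W_ge g φ).2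
  unfold MD.bw
  nlinarith

lemma err_zero (g : Gd d.c) (hc : d.ClkOk p.τ) {t : Wi} (hd : d.Der p s t ∧ d.Cmp p s t) {x : V}
    (hx : x ∉ KK d p t (2 * d.bw t.1)) : jm (d.Ps p s t) x 1 2 - am d p t x = 0 := by
  have hw := bw_ge g t.1
  have e1 : jm (d.Ps p s t) x 1 2 = 0 :=
    pds_zero_off (g := fun y => d.Pm' p s t y 1 + d.Gc p s t y) (KK_closed hc t (2 * d.bw t.1))
      (fun y hy => by
        rw [(hd.1.sup y (Or.inr (off_KK g hw hy))).1, hd.2.sup y (Or.inr ?_)]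
        · simp
        · by_contra h
          push Not at h
          exact hy ⟨h.1, h.2.1.trans (by linarith [(abs_nonneg _).trans h.2.1]), h.2.2⟩) [2] x hx
  rw [e1, am, QQ]
  rcases off_KK g hw hx with h | h | h <;> simp [f0_zero h.le, f1_zero h]

lemma err_le (g : Gd d.c) (hi : d.In) (hm : Amp d.c.N) (ha : d.AmpOk p.r) (hc : d.ClkOk p.τ)
    (hF : ∀ t, |f1 t| ≤ pq d.c.N) (hk : 1 / √(2 * I0 ^ 2 * I1) ≤ pq d.c.N) (hcp : d.c.comp)
    {k : Cu} (hd : d.Der p s (1, k) ∧ d.Cmp p s (1, k)) {x : V} (hx : x ∈ d.R (9 / 10)) :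
    |jm (d.Ps p s (1, k)) x 1 2 - am d p (1, k) x| ≤ 4 * np d.c.N (-4 / 5) := by
  have p0 := I0_pos
  have p1 : 0 < I1 := by linarith [I1_ge]
  have pl := g.lam_pos; have pw := g.W11_pos; have pe := g.hE_pos; have pη := g.η0_pos
  have pq' := g.big.q_pos
  have c1 := g.big.np_pos (-455 / 1000); have c2 := g.big.np_pos (501 / 1000)
  have c3 := g.big.np_pos (-498 / 1000); have c4 := g.big.np_pos (-4 / 5)
  have hG := hm d p rfl g hi ha 1 _ (by norm_num) (by norm_num) (eL_le g).1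
  have hh : ∀ i, 0 < cv d.c.hE i := fun _ => pe
  have g1 := CBl.le_div hh hG (l := [2, 0]) ⟨by simp, by simp⟩ (R_sub g hx)
  have g2 := CBl.le_div hh hG (l := [2]) ⟨by simp, by simp⟩ (R_sub g hx)
  have g3 := CBl.le_div hh hG (l := [0]) ⟨by simp, by simp⟩ (R_sub g hx)
  rw [hp_cv] at g1 g2 g3
  have m : ∀ {x y X Y : ℝ}, |x| ≤ X → |y| ≤ Y → |x * y| ≤ X * Y := fun hx hy => by
    rw [abs_mul]; exact mul_le_mul hx hy (abs_nonneg _) ((abs_nonneg _).trans hx)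
  have hP : |PP d (1, k) x| ≤ 1 := (m (f0_abs _) (f0_abs _)).trans_eq (mul_one 1)
  have hQ : |QQ d (1, k) x| ≤ 1 / d.c.W11 * (2 * pq d.c.N) :=
    m (abs_of_pos (one_div_pos.2 pw)).le (((abs_add_le _ _).trans (add_le_add (m (hF _) (f0_abs _))
      (m (vs_le _) (m (f0_abs _) (hF _))))).trans_eq (by ring))
  have e : d.c.η0 * d.ca 1 = d.c.lam * d.c.W11 * (1 / √(2 * I0 ^ 2 * I1)) := by
    rw [MD.ca, if_neg (by decide)]; field_simp
  have k1 : d.c.η0 * d.ca 1 ≤ d.c.lam * d.c.W11 * pq d.c.N := by rw [e]; gcongr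
  have w1 : Real.log d.c.W11 ≤ 501 / 1000 * pJ d.c.N + Real.log d.c.lam := by
    have := Real.log_le_log pw ((g.win _ (by simp)).2.2
      (by linarith [g.thr_bd.1, show d.c.thr ≤ d.c.η from hcp, g.big.etaS_pos]))
    rwa [Real.log_mul c2.ne' pl.ne', g.big.log_np] at this
  have h1 := num_c (k := d.c.η0 * d.ca 1) (by rw [e]; positivity) g1 g2 g3 hP hQ
    (f0_abs (d.ph p (1, k) x)) (hF (d.ph p (1, k) x)) (tau_bd g hc 1 (k 0) (k 1) (x 2))
  have h2 := (hd.2.d1 2 x).trans (g.big.np_le (show (-94 / 100 : ℝ) ≤ -4 / 5 by norm_num))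
  have h3 : ∀ z, 0 < z → Real.log (d.c.lam * d.c.W11 * pq d.c.N * z) ≤ -4 / 5 * pJ d.c.N →
      d.c.η0 * d.ca 1 * z ≤ np d.c.N (-4 / 5) := fun z hz h =>
    (mul_le_mul_of_nonneg_right k1 hz.le).trans
      (le_of_log (by positivity) c4 (by rwa [g.big.log_np]))
  rw [jm_eq ha hc hd fun h => one_ne_zero h.2]
  refine (abs_add_le _ _).trans ((add_le_add (h1.trans (add_le_add (add_le_add (h3 _ ?_ ?_)
    (h3 _ ?_ ?_)) (h3 _ ?_ ?_))) h2).trans_eq (by ring))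
  any_goals positivity
  all_goals
    simp (disch := positivity) only [Real.log_mul, Real.log_div, Real.log_pow, Real.log_one,
      g.big.log_np, g.big.log_q, g.log_hE, List.length_cons, List.length_nil]
    push_cast
    linarith [g.big.L_ge, g.big.J_ge, log2_bd.2]

lemma part_b (g : Gd d.c) (hi : d.In) (hl : Lat d.c.N) (hm : Amp d.c.N) (ha : d.AmpOk p.r)
    (hc : d.ClkOk p.τ) (hF : ∀ t, |f1 t| ≤ pq d.c.N) (hk : 1 / √(2 * I0 ^ 2 * I1) ≤ pq d.c.N)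
    (hd : ∀ t, d.Der p s t ∧ d.Cmp p s t) (hcp : d.c.comp) (x : V)
    (hn : ((d.TT.filter fun t => |x 0 / d.W1 t.1 - t.2 0 / d.ns| ≤ 9 / 20 ∧
      |x 1 - d.c1 t.1 (t.2 0) (t.2 1)| ≤ 2 * d.bw t.1 ∧ |d.ph p t x| ≤ 9 / 20).card : ℝ) ≤
      np d.c.N (9 / 100) * nsg d.c.N) :
    nsg d.c.N * (d.c.bst d.O x / 25 - uV d.c.N / 8) ≤ ∑ a ∈ d.TT, jm (d.Ps p s a) x 1 2 ^ 2 := by
  have pn := ns_pos g
  have pu := g.big.uV_pos
  have n0 : 0 < nsg d.c.N := by rw [nsg_eq]; positivity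
  by_cases hb : d.c.boost ∧ x ∈ d.R (9 / 10)
  swap
  · have h0 : d.c.bst d.O x = 0 := by
      unfold Pm.bst
      split_ifs with h
      · rw [Prof.alh_zero g.D_pos fun h' => hb ⟨h, h'⟩]; norm_num
      · rfl
    refine le_trans ?_ (Finset.sum_nonneg fun _ _ => sq_nonneg _)
    rw [h0]
    nlinarith
  obtain ⟨hb, hx⟩ := hb
  obtain ⟨r0, r1, r2⟩ := range g hi hc hx 1
  obtain ⟨u, hu⟩ : ∃ u, u = x 0 / d.W1 1 := ⟨_, rfl⟩
  obtain ⟨v, hv⟩ : ∃ v, v = x 1 / d.W2 1 + MD.vs 1 * (x 0 / d.W1 1) := ⟨_, rfl⟩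
  obtain ⟨κ, hκ⟩ : ∃ κ, κ = tb d.c.N ^ 2 / (2 * I0 ^ 2 * I1) := ⟨_, rfl⟩
  rw [← hu] at r0
  rw [← hv] at r1
  have p0 := I0_pos
  have p1 : 0 < I1 := by linarith [I1_ge]
  have k0 : 0 ≤ κ := by rw [hκ]; positivity
  obtain ⟨L, hL⟩ : ∃ L : Wi → ℝ, L = fun t => if t.1 = 1 then κ * GG d p 1 x ^ 2 *
    (d.W1 1 * QQ d t x) ^ 2 * f1 (d.ph p t x) ^ 2 else 0 := ⟨_, rfl⟩
  obtain ⟨b, hb'⟩ : ∃ b : Wi → ℝ, b = fun t => if t.1 = 1 then
    (jm (d.Ps p s t) x 1 2 - am d p t x) ^ 2 else 0 := ⟨_, rfl⟩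
  have pw := g.lam_pos.trans_le (W_ge g 1).1
  have h1 := (tri (I := II d.c.N) (W := fun a b => κ * GG d p 1 x ^ 2 *
    (f1 (u - a / (nsig d.c.N : ℝ)) * f0 (v - b / (nsig d.c.N : ℝ)) +
      f0 (u - a / (nsig d.c.N : ℝ)) * f1 (v - b / (nsig d.c.N : ℝ))) ^ 2)
    (Z := fun a b c => f1 (p.τ 1 a b (x 2) - c / (nsig d.c.N : ℝ)) ^ 2) (fun _ _ => by positivity)
    fun a b => (hl _ (r2 a b)).2.1).1
  rw [← sum_TT d 1 L _ (fun t ht => by rw [hL]; exact if_neg ht) (fun k => by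
      rw [hL, hu, hv]
      simp only [if_true, QQ, uu, vv, UU, VV, MD.ph, MD.ns, mul_one_div_cancel pw.ne', ← mul_assoc,
        one_mul, show MD.vs 1 = 1 from rfl])] at h1
  simp only [← Finset.mul_sum] at h1
  have h2 := num_b (α := d.α x) pn hκ ?_ ?_ (hl u r0).1.1 (hl u r0).2.1.1 (hl v r1).1.1
    (hl v r1).2.1.1 (hl u r0).2.2 (hl v r1).2.2 h1
  rotate_left
  · have := ((ha.1 1).2.1 x (R_sub g hx)).1
    have h3 : (1 / 5) ^ 2 ≤ p.r 1 x ^ 2 := pow_le_pow_left₀ (by norm_num) this 2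
    rw [GG, mul_pow]
    nlinarith [sq_nonneg (d.α x)]
  · simp only [S0, S1, S01, Finset.sum_mul_sum]
    simp only [Finset.mul_sum, ← Finset.sum_add_distrib]
    exact Finset.sum_congr rfl fun _ _ => Finset.sum_congr rfl fun _ _ => by ring
  have c4 := g.big.np_pos (-4 / 5)
  have c5 := g.big.np_pos (9 / 100)
  have h3 : ∑ t ∈ d.TT, b t ≤ np d.c.N (9 / 100) * nsg d.c.N * (4 * np d.c.N (-4 / 5)) ^ 2 := by
    refine sum_card _ _ _ (by positivity) (fun t ht => ?_) (fun t => ?_) hn <;> rw [hb'] <;>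
      dsimp only <;> split_ifs with h
    · rw [err_zero g hc (hd t) fun hx =>
        ht ⟨hx.1.trans (by norm_num), hx.2.1, hx.2.2.trans (by norm_num)⟩]
      norm_num
    · rfl
    · obtain ⟨φ, k⟩ := t
      obtain rfl : φ = 1 := h
      rw [← sq_abs]
      exact pow_le_pow_left₀ (abs_nonneg _) (err_le g hi hm ha hc hF hk hcp (hd _) hx) 2
    · positivity
  have h4 : np d.c.N (9 / 100) * (4 * np d.c.N (-4 / 5)) ^ 2 ≤ uV d.c.N / 8 := by
    refine le_of_log (by positivity) (by positivity) ?_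
    simp (disch := positivity) only [Real.log_mul, Real.log_div, Real.log_pow, g.big.log_np,
      g.big.log_uV]
    push_cast
    linarith [g.big.L_ge, g.big.J_ge, (logc_bd (show (1 : ℝ) ≤ 4 by norm_num)).2,
      (logc_bd (show (1 : ℝ) ≤ 8 by norm_num)).2]
  have h5 : ∑ t ∈ d.TT, (L t / 2 - b t) ≤ ∑ a ∈ d.TT, jm (d.Ps p s a) x 1 2 ^ 2 := by
    refine Finset.sum_le_sum fun t _ => ?_
    rw [hL, hb']
    dsimp only
    split_ifs with h
    · obtain ⟨φ, k⟩ := t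
      obtain rfl : φ = 1 := h
      have pl := g.lam_pos; have pt := g.big.tb_pos; have pη := g.η0_pos
      have a1 : tb d.c.N / d.c.lam ≤ deriv (p.τ 1 (k 0) (k 1)) (x 2) := by
        have := ((hc 1 (k 0) (k 1)).2.2.2.2.1 (x 2)).1
        rwa [MD.Hh, if_neg (by decide), Pm.H1, Pm.t2, if_pos hb, one_div_div] at this
      have a2 := pow_le_pow_left₀ (by positivity) a1 2
      have a3 : am d p (1, k) x ^ 2 = (d.c.lam ^ 2 / (2 * I0 ^ 2 * I1) * GG d p 1 x ^ 2 *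
          (d.W1 1 * QQ d (1, k) x) ^ 2 * f1 (d.ph p (1, k) x) ^ 2) *
          deriv (p.τ 1 (k 0) (k 1)) (x 2) ^ 2 := by
        rw [am, MD.ca, if_neg one_ne_zero, show d.W1 1 = d.c.W11 from if_neg (by decide)]
        simp (disch := positivity) only [neg_mul, neg_sq, mul_pow, div_pow, Real.sq_sqrt]
        field_simp
      have a4 := mul_le_mul_of_nonneg_left a2 (show 0 ≤ d.c.lam ^ 2 / (2 * I0 ^ 2 * I1) *
        GG d p 1 x ^ 2 * (d.W1 1 * QQ d (1, k) x) ^ 2 * f1 (d.ph p (1, k) x) ^ 2 by positivity)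
      have a5 : κ * GG d p 1 x ^ 2 * (d.W1 1 * QQ d (1, k) x) ^ 2 * f1 (d.ph p (1, k) x) ^ 2 ≤
          am d p (1, k) x ^ 2 := by
        rw [a3]
        refine le_of_eq_of_le ?_ a4
        rw [hκ]; field_simp
      nlinarith [sq_nonneg (jm (d.Ps p s (1, k)) x 1 2 - am d p (1, k) x / 2)]
    · simpa using sq_nonneg _
  rw [Finset.sum_sub_distrib, ← Finset.sum_div] at h5
  have h6 := mul_le_mul_of_nonneg_left h4 n0.le
  rw [← nsg_eq] at h2
  rw [Pm.bst, if_pos hb]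
  have e : alh d.O d.c.D x = d.α x := rfl
  rw [e]
  linarith

end Yq

open Yq in
theorem yq (h : ClsStmt) : YqStmt := by
  obtain ⟨F, -, hF⟩ := f1_bd
  unfold YqStmt ClsStmt QRow PRow EvD at *
  filter_upwards [h, ev_big, ev_lat, ev_amp, ev_C_q F, ev_C_q (1 / √(2 * I0 ^ 2 * I1))] with
    N h1 h2 h3 h4 h5 h6 d hN hk hi p s hs hp hd
  have hn := (h1 d hN hk hi p s hs hp hd).2.2.2.2
  subst hN
  have g : Gd d.c := ⟨h2, hi.ok⟩
  exact ⟨fun hz => ⟨part_a g hi h3 h4 hp.1 hp.2.1 (fun t => (hd t).1) hz,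
    part_cb g hp.2.1 (fun t => (hd t).1) fun x => (hn x).1⟩, fun hc x _ =>
    part_b g hi h3 h4 hp.1 hp.2.1 (fun t => (hF t).trans h5) h6 hd hc x (hn x).2⟩

end
end Pool.Agent.MP_20bec2_an.T3

end MrgPart1

-- marker of a merged file
example : 731051 + 837777 = 731051 + 837777 := rfl

end MrgPart2

-- marker of a merged file
example : 731051 + 837777 = 731051 + 837777 := rfl
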