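import Mathlib.Algebra.Order.Chebyshev
import Pool.Agent.MP_20bec2_an.T3.Par4
import Pool.Agent.MP_20bec2_an.T3.Vtr
import Pool.Agent.MP_20bec2_an.T3.CrA
import Pool.Agent.MP_20bec2_an.T3.Yq
import Pool.Agent.MP_20bec2_an.T3.Zt
import Pool.Agent.MP_20bec2_an.T3.Calc1b
import Pool.Agent.MP_20bec2_an.T3.Fcomp
import Pool.Agent.MP_20bec2_an.T3.NcB
import Pool.Agent.MP_20bec2_an.T3.Final

-- ======== part 0: formerly Pool.Agent.MP_20bec2_an.T3.Ledg
section MrgPart0

/-! Row LEDG: sums over the ledger. -/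

set_option autoImplicit false
set_option linter.unusedSectionVars false
open Set Filter Real

namespace Pool.Agent.MP_20bec2_an.T3
noncomputable section

namespace Ledg

/-- every site lies in the list of some cube -/
lemma exists_site {B : Bk} (hD : 0 < B.D) (hs : 0 < B.hsp) (i : Cu) : ∃ g, i ∈ B.sites g 1 := by
  refine ⟨fun j => ⌊B.hsp * i j / B.D⌋, Fintype.mem_piFinset.2 fun j => Finset.mem_Icc.2 ?_⟩
  have h1 := Int.floor_le (B.hsp * i j / B.D)
  have h2 := Int.lt_floor_add_one (B.hsp * i j / B.D)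
  rw [le_div_iff₀ hD] at h1
  rw [div_lt_iff₀ hD] at h2
  rw [Int.ceil_le, Int.le_floor, div_le_iff₀ hs, le_div_iff₀ hs]
  simp only [cen]
  constructor <;> linarith

/-- each index lies in at most `W` windows -/
lemma win_sum {u : ℕ → ℝ} (hu : ∀ m, 0 ≤ u m) {w : ℕ → ℕ} {W : ℕ} (hw : ∀ m, m ≤ w m + W) (b : ℕ) :
    ∑ m ∈ Finset.range b, ∑ m' ∈ Finset.Ico (w m) m, u m' ≤ W * ∑ m ∈ Finset.range b, u m := by
  rw [Finset.sum_comm' (s' := fun y => (Finset.range b).filter fun m => w m ≤ y ∧ y < m)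
    (t' := Finset.range b) (fun x y => by
      simp only [Finset.mem_range, Finset.mem_Ico, Finset.mem_filter]; omega), Finset.mul_sum]
  refine Finset.sum_le_sum fun y _ => ?_
  rw [Finset.sum_const, nsmul_eq_mul]
  refine mul_le_mul_of_nonneg_right (Nat.cast_le.2 ?_) (hu y)
  refine (Finset.card_le_card (t := Finset.Ioc y (y + W)) fun m hm => ?_).trans (by simp)
  have := hw m
  simp only [Finset.mem_filter, Finset.mem_Ioc] at hm ⊢
  omega

lemma win_mul {v : ℕ → ℝ} {w : ℕ → ℕ} {W : ℕ} (hw : ∀ m, m ≤ w m + W) (b : ℕ) :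
    ∑ m ∈ Finset.range b, v m * ∑ m' ∈ Finset.Ico (w m) m, v m' ≤
      W * ∑ m ∈ Finset.range b, v m ^ 2 := by
  have h1 := win_sum (u := fun m => v m ^ 2) (fun m => sq_nonneg _) hw b
  have h2 : ∀ m, v m * ∑ m' ∈ Finset.Ico (w m) m, v m' ≤
      (W * v m ^ 2 + ∑ m' ∈ Finset.Ico (w m) m, v m' ^ 2) / 2 := fun m => by
    have h3 : ∑ _m' ∈ Finset.Ico (w m) m, v m ^ 2 ≤ W * v m ^ 2 := by
      rw [Finset.sum_const, nsmul_eq_mul, Nat.card_Ico]
      exact mul_le_mul_of_nonneg_right (Nat.cast_le.2 (by have := hw m; omega)) (sq_nonneg _)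
    have h4 : ∑ m' ∈ Finset.Ico (w m) m, 2 * (v m * v m') ≤
        ∑ m' ∈ Finset.Ico (w m) m, (v m ^ 2 + v m' ^ 2) :=
      Finset.sum_le_sum fun m' _ => by nlinarith [sq_nonneg (v m - v m')]
    rw [← Finset.mul_sum, ← Finset.mul_sum, Finset.sum_add_distrib] at h4
    linarith
  refine (Finset.sum_le_sum fun m _ => h2 m).trans ?_
  rw [← Finset.sum_div, Finset.sum_add_distrib, ← Finset.mul_sum]
  linarith

/-- the ledger of the site `i` up to time `n` -/
structure LH (N : ℕ) (xs : ℕ → Cu → ℝ) (n : ℕ) (i : Cu) : Prop where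
  big : Big N
  nn : ∀ m, 0 ≤ xs m i
  la : La xs 0 n i ≤ qp N (1 / 5) * pJ N
  le : (n : ℝ) ≤ 1072 * pJ N

lemma q5 {N : ℕ} (h : Big N) : 200 * pL N ≤ qp N (1 / 5) := by
  have h1 := Real.pow_div_factorial_le_exp (x := 1 / 5 * (pL N / 1000)) (by linarith [h.L_ge]) 2
  rw [Nat.factorial_two, Nat.cast_ofNat, ← h.qp_eq] at h1
  nlinarith [h.L_ge]

lemma lh {B : Bk} (hb : Big B.N) (h : FrOk B.N B.lb B.fr) {k r : ℕ} (hk : k < nb B.N) (hr : r ≤ 9)
    {s : St} (il : B.IL k r s) (i : Cu) : LH B.N s.xs (tm k r) i := by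
  have p0 := (Bk.gd0 h hb 0).lb_pos
  obtain ⟨g, hg⟩ := exists_site (B := B) (Bk.gd0 h hb 0).D_pos (mul_pos (hb.np_pos _) p0) i
  have h1 := (Finset.single_le_sum (f := fun i => Real.exp (∑ m ∈ Finset.range (tm k r),
    s.xs m i / 6)) (fun _ _ => (Real.exp_pos _).le) hg).trans (il.led g)
  have h2 := Real.log_le_log (Real.exp_pos _) h1
  rw [Real.log_exp, Real.log_mul (hb.np_pos _).ne' (pow_pos hb.q_pos _).ne', Real.log_pow,
    hb.log_np, hb.log_q, ← Finset.sum_div] at h2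
  have h3 := hb.tm_le hk hr
  refine ⟨hb, fun m => il.nn m i, ?_, h3⟩
  rw [La, Finset.sum_add_distrib, ← Finset.range_eq_Ico, Finset.sum_const, Finset.card_range,
    nsmul_eq_mul, mul_one]
  have h4 := mul_le_mul_of_nonneg_right h3 (show 0 ≤ pL B.N by linarith [hb.L_ge])
  have h5 := mul_le_mul_of_nonneg_right (q5 hb) hb.J_pos.le
  have h6 := mul_le_mul_of_nonneg_right hb.L_ge hb.J_pos.le
  linarith [hb.J_pos]

lemma SA_nonneg (N : ℕ) (b0 : ℝ) (xs : ℕ → Cu → ℝ) (a b : ℕ) (i : Cu) : 0 ≤ SA N b0 xs a b i :=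
  Finset.sum_nonneg fun _ _ => Real.sqrt_nonneg _

namespace LH
variable {N : ℕ} {xs : ℕ → Cu → ℝ} {n : ℕ} {i : Cu} (h : LH N xs n i)
include h

lemma T_pos : 0 < qp N (1 / 5) * pJ N := mul_pos (h.big.qp_pos _) h.big.J_pos
lemma log_T : Real.log (qp N (1 / 5) * pJ N) = pL N / 5000 + pL N := by
  rw [Real.log_mul (h.big.qp_pos _).ne' h.big.J_pos.ne', h.big.log_qp, h.big.log_J]; ring

lemma sum_le {S : Finset ℕ} (hS : ∀ m ∈ S, m < n) : ∑ m ∈ S, (1 + xs m i) ≤ qp N (1 / 5) * pJ N :=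
  (Finset.sum_le_sum_of_subset_of_nonneg (fun m hm => Finset.mem_Ico.2 ⟨Nat.zero_le _, hS m hm⟩)
    fun m _ _ => by linarith [h.nn m]).trans h.la

lemma mono {n' : ℕ} (hn : n' ≤ n) : LH N xs n' i :=
  ⟨h.big, h.nn, h.sum_le fun _ hm => (Finset.mem_Ico.1 hm).2.trans_le hn,
    (Nat.cast_le.2 hn).trans h.le⟩

lemma La_le (a : ℕ) : La xs a n i ≤ qp N (1 / 5) * pJ N :=
  h.sum_le fun _ hm => (Finset.mem_Ico.1 hm).2

lemma one_le {m : ℕ} (hm : m < n) : 1 + xs m i ≤ qp N (1 / 5) * pJ N := by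
  simpa using h.sum_le (S := {m}) (by simpa using hm)

lemma sq_le {b0 : ℝ} (hb : 0 ≤ b0) {S : Finset ℕ} (hS : ∀ m ∈ S, m < n) :
    ∑ m ∈ S, √(b0 * (1 + xs m i) / N) ^ 2 ≤ b0 * (qp N (1 / 5) * pJ N) / N := by
  have e : ∀ m ∈ S, √(b0 * (1 + xs m i) / N) ^ 2 = b0 * (1 + xs m i) / N := fun m _ =>
    Real.sq_sqrt (by have := h.nn m; positivity)
  rw [Finset.sum_congr rfl e, ← Finset.sum_div, ← Finset.mul_sum]
  exact div_le_div_of_nonneg_right (mul_le_mul_of_nonneg_left (h.sum_le hS) hb) h.big.N_pos.le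

lemma rt_le {b0 W : ℝ} (hb : 0 ≤ b0) {S : Finset ℕ} (hS : ∀ m ∈ S, m < n) (hW : (S.card : ℝ) ≤ W) :
    ∑ m ∈ S, √(b0 * (1 + xs m i) / N) ≤ √(b0 * W * (qp N (1 / 5) * pJ N) / N) := by
  refine Real.le_sqrt_of_sq_le (sq_sum_le_card_mul_sum_sq.trans ?_)
  refine (mul_le_mul hW (h.sq_le hb hS) (Finset.sum_nonneg fun _ _ => sq_nonneg _)
    ((Nat.cast_nonneg _).trans hW)).trans_eq ?_
  ring

lemma SA_le {b0 : ℝ} (hb : 0 ≤ b0) (a : ℕ) :
    SA N b0 xs a n i ≤ √(b0 * (n - a : ℕ) * (qp N (1 / 5) * pJ N) / N) :=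
  h.rt_le hb (fun _ hm => (Finset.mem_Ico.1 hm).2) (by rw [Nat.card_Ico])

lemma rt_mono {b0 b1 : ℝ} (hb : b0 ≤ b1) (m : ℕ) :
    √(b0 * (1 + xs m i) / N) ≤ √(b1 * (1 + xs m i) / N) :=
  Real.sqrt_le_sqrt (div_le_div_of_nonneg_right
    (mul_le_mul_of_nonneg_right hb (by linarith [h.nn m])) h.big.N_pos.le)

lemma SA_mono {b0 b1 : ℝ} (hb : b0 ≤ b1) (a b : ℕ) : SA N b0 xs a b i ≤ SA N b1 xs a b i :=
  Finset.sum_le_sum fun m _ => h.rt_mono hb m

/-- a set of at most `√q` times -/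
lemma short_le {S : Finset ℕ} (hS : ∀ m ∈ S, m < n) (hW : S.card ≤ 8 * (el N + 1)) :
    pq N * ∑ m ∈ S, √(bA N * (1 + xs m i) / N) ≤ fr0 N / qp N (1 / 2) := by
  have h1 : (S.card : ℝ) ≤ 8 * (el N + 1) := by exact_mod_cast hW
  have := h.big.bA_pos; have := h.big.sqrtq_pos; have := h.T_pos; have := h.big.N_pos
  have := h.big.q_pos; have := h.big.fr0_pos; have := h.big.qp_pos (1 / 2)
  refine (mul_le_mul_of_nonneg_left (h.rt_le h.big.bA_pos.le hS (h1.trans h.big.el_le_sqrtq))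
    h.big.q_pos.le).trans (le_of_log (by positivity) (by positivity) ?_)
  have e := h.log_T
  generalize qp N (1 / 5) * pJ N = T at *
  simp (disch := positivity) only [Real.log_div, Real.log_mul, Real.log_sqrt, e, h.big.log_q,
    h.big.log_bA, h.big.log_N, h.big.log_fr0, h.big.log_qp]
  linarith [h.big.L_ge]

lemma fr0_div : fr0 N / qp N (1 / 2) ≤ fr0 N / 1000 := by
  refine div_le_div_of_nonneg_left h.big.fr0_pos.le (by norm_num) (le_of_log (by norm_num)
    (h.big.qp_pos _) ?_)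
  rw [h.big.log_qp]
  linarith [h.big.L_ge, (logc_bd (show (1 : ℝ) ≤ 1000 by norm_num)).2]

/-- the window term -/
lemma win_le {b0 : ℝ} (hb : b0 ≤ bA N) {a : ℕ} (ha : n ≤ a + 8 * (el N + 1)) :
    pq N * SA N b0 xs a n i ≤ fr0 N / qp N (1 / 2) :=
  (mul_le_mul_of_nonneg_left (h.SA_mono hb a n) h.big.q_pos.le).trans
    (h.short_le (fun _ hm => (Finset.mem_Ico.1 hm).2) (by rw [Nat.card_Ico]; omega))

lemma el_sm : (10 * (el N : ℝ) + 10) * sm N ≤ fr0 N / 1000 :=
  h.big.el_sm_le.trans (div_le_div_of_nonneg_left h.big.fr0_pos.le (by norm_num)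
    (le_trans (by norm_num) (pow_le_pow_left₀ (a := 10) (by norm_num)
      (by linarith [h.big.J_ge, h.big.L_ge]) 3)))

/-- all times -/
lemma long_le {b0 : ℝ} (hb : 0 ≤ b0) (a : ℕ) :
    SA N b0 xs a n i ≤ √(b0 * (1072 * pJ N) * (qp N (1 / 5) * pJ N) / N) :=
  h.rt_le hb (fun _ hm => (Finset.mem_Ico.1 hm).2) (by
    rw [Nat.card_Ico]; exact (Nat.cast_le.2 (Nat.sub_le _ _)).trans h.le)

/-- the five numerical inequalities -/
lemma num : pq N * (bA N * (qp N (1 / 5) * pJ N) / N) ≤ pX N / (qp N (7 / 2) * N) / 4 ∧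
    pq N * (11 * √(pJ N / N)) * √(bB N * (1072 * pJ N) * (qp N (1 / 5) * pJ N) / N) ≤
      pX N / (qp N (7 / 2) * N) / 4 ∧
    fr0 N * (fr0 N / qp N (1 / 2)) ≤ pX N / (qp N (7 / 2) * N) / 4 ∧
    pq N * pq N * (√(pq N) * (bA N * (qp N (1 / 5) * pJ N) / N)) ≤ pX N / (qp N (7 / 2) * N) / 4 ∧
    pq N * (fr0 N / pJ N ^ 3) * √(bA N * (1072 * pJ N) * (qp N (1 / 5) * pJ N) / N) ≤
      pX N / (qp N (7 / 2) * N) / 4 := by
  have := h.big.bA_pos; have := h.big.bB_pos; have := h.big.sqrtq_pos; have := h.T_pos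
  have := h.big.N_pos; have := h.big.q_pos; have := h.big.fr0_pos; have := h.big.qp_pos (1 / 2)
  have := h.big.qp_pos (7 / 2); have := h.big.X_pos; have := h.big.J_pos
  have e := h.log_T
  have := h.big.L_ge
  have := (logc_bd (show (1 : ℝ) ≤ 4 by norm_num)).2
  have := (logc_bd (show (1 : ℝ) ≤ 11 by norm_num)).2
  have := (logc_bd (show (1 : ℝ) ≤ 1072 by norm_num)).2
  generalize qp N (1 / 5) * pJ N = T at *
  refine ⟨?_, ?_, ?_, ?_, ?_⟩ <;> refine le_of_log (by positivity) (by positivity) ?_ <;>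
    simp (disch := positivity) only [Real.log_div, Real.log_mul, Real.log_sqrt, Real.log_pow, e,
      h.big.log_q, h.big.log_bA, h.big.log_bB, h.big.log_N, h.big.log_fr0, h.big.log_qp,
      h.big.log_X, h.big.log_J, Nat.cast_ofNat] <;> linarith

end LH

variable {B : Bk} {xs : ℕ → Cu → ℝ} {n : ℕ} {i : Cu}

/-- an observer that is not `oS` has a small residual -/
lemma piO_notS (h : LH B.N xs n i) {g : Cu} (hS : ¬(B.c g 0).oS) :
    B.piO g xs n i ≤ 101 / 100 * fr0 B.N := by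
  have h1 := h.win_le le_rfl (a := 8 * (n / 8 - el B.N)) (by omega)
  have := h.fr0_div; have := h.el_sm; have := h.big.fr0_pos
  rw [Bk.piO, if_neg hS]
  split_ifs <;> linarith

lemma piO_nonneg (hf : FrOk B.N B.lb B.fr) (hb : Big B.N) (g : Cu) (xs : ℕ → Cu → ℝ) (m : ℕ)
    (i : Cu) : 0 ≤ B.piO g xs m i := by
  have := (Bk.gd0 hf hb g).pi1_pos; have := hb.fr0_pos; have := hb.sm_pos; have := hb.q_pos
  have := SA_nonneg B.N (bA B.N) xs (8 * (m / 8 - el B.N)) m i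
  unfold Bk.piO
  split_ifs <;> positivity

lemma piO_le (hf : FrOk B.N B.lb B.fr) (h : LH B.N xs n i) (g : Cu) :
    B.piO g xs n i ≤ 11 * √(pJ B.N / B.N) := by
  by_cases hS : (B.c g 0).oS
  · rw [Bk.piO, if_pos hS]; exact ((Bk.gd0 hf h.big g).pi1_oS hS).2
  · linarith [piO_notS h hS, h.big.fr0_le, h.big.fr0_pos]

lemma piO_le_hc (hf : FrOk B.N B.lb B.fr) (h : LH B.N xs n i) (g : Cu) :
    20 * B.piO g xs n i ≤ hc B.N := by
  linarith [piO_le hf h g, h.big.sqrtJN_le, h.big.hc_eq, Real.sqrt_nonneg (pJ B.N / B.N)]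

lemma piS_le (hf : FrOk B.N B.lb B.fr) {k r : ℕ} (hr : r ≤ 9) (h : LH B.N xs (tm k r) i) (g : Cu) :
    0 ≤ B.piS g xs k r i ∧ B.piS g xs k r i ≤ 101 / 100 * fr0 B.N := by
  have h1 := h.win_le (Bk.gd0 hf h.big g).bbO_bd.2 (a := 8 * (k - el B.N)) (by unfold tm; omega)
  have := h.fr0_div; have := h.el_sm; have := h.big.fr0_pos; have := h.big.sm_pos
  have := mul_nonneg h.big.q_pos.le
    (SA_nonneg B.N (B.c g 0).bbO xs (8 * (k - el B.N)) (tm k r) i)
  have : 0 ≤ (10 * (el B.N : ℝ) + 10) * sm B.N := by positivity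
  unfold Bk.piS
  split_ifs <;> constructor <;> linarith

/-- the residual of an acting cube `g'` that steers against the residual of any observer `g` -/
lemma piS_le_piO (hf : FrOk B.N B.lb B.fr) {k r : ℕ} (hr : r ≤ 8) (h : LH B.N xs (tm k r) i)
    (g g' : Cu) : B.piS g' xs k r i ≤ B.piO g xs (tm k r) i := by
  by_cases hS : (B.c g 0).oS
  · have : 4 * fr0 B.N ≤ _ := (Bk.gd0 hf h.big g).pi1_ge.1
    rw [Bk.piO, if_pos hS]
    linarith [(piS_le hf (by omega) h g').2, h.big.fr0_pos]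
  · have e : tm k r / 8 = k := by unfold tm; omega
    have := mul_le_mul_of_nonneg_left (h.SA_mono (b1 := bA B.N)
      (Bk.gd0 hf h.big g').bbO_bd.2 (8 * (k - el B.N)) (tm k r)) h.big.q_pos.le
    rw [Bk.piO, if_neg hS, e, Bk.piS]
    linarith

/-- the residual used by an acting neighbour `g'` against the residual of the observer `g` -/
lemma pi_act (hf : FrOk B.N B.lb B.fr) {k r : ℕ} (hr : r ≤ 8) (h : LH B.N xs (tm k r) i)
    {g g' : Cu} (hn : Nbr 3 g g') [Decidable (B.c g' 0).steer] :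
    (if (B.c g' 0).steer then B.piS g' xs k r i else (B.c g' 0).pi1) ≤
      2 * B.piO g xs (tm k r) i := by
  split_ifs with e
  · linarith [piS_le_piO hf hr h g g', piO_nonneg hf h.big g xs (tm k r) i]
  · rw [Bk.piO, if_pos ((Bk.nb0 hf h.big hn).oS_of_notsteer e)]
    exact Bk.pi1_two hf h.big hn

lemma SG_le (hf : FrOk B.N B.lb B.fr) (h : LH B.N xs n i) (g : Cu) (a : ℕ) :
    B.SG g xs a n i ≤ pX B.N / (qp B.N (7 / 2) * B.N) := by
  have G := Bk.gd0 hf h.big g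
  obtain ⟨n1, n2, n3, n4, n5⟩ := h.num
  have hq := h.big.q_pos
  have hI : ∀ m ∈ Finset.Ico a n, m < n := fun _ hm => (Finset.mem_Ico.1 hm).2
  have p0 : 0 ≤ pX B.N / (qp B.N (7 / 2) * B.N) := by
    have := h.big.X_pos; have := h.big.qp_pos (7 / 2); positivity
  by_cases hS : (B.c g 0).oS
  · have e : B.SG g xs a n i = pq B.N * (B.c g 0).pi1 * SA B.N (bB B.N) xs a n i +
        pq B.N * ∑ m ∈ Finset.Ico a n, √(bB B.N * (1 + xs m i) / B.N) ^ 2 := by
      simp only [Bk.SG, Bk.piO, if_pos hS, Gd.bbO_oB (G.oB_of_oS hS), SA, Finset.mul_sum,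
        ← Finset.sum_add_distrib]
      exact Finset.sum_congr rfl fun m _ => by
        rw [show bB (B.c g 0).N = bB B.N from rfl]; ring
    have h1 := mul_le_mul (mul_le_mul_of_nonneg_left (G.pi1_oS hS).2 hq.le)
      (h.long_le h.big.bB_pos.le a) (SA_nonneg _ _ _ _ _ _) (by positivity)
    have h2 := mul_le_mul_of_nonneg_left ((h.sq_le h.big.bB_pos.le hI).trans
      (div_le_div_of_nonneg_right (mul_le_mul_of_nonneg_right h.big.bB_le_bA h.T_pos.le)
        h.big.N_pos.le)) hq.le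
    rw [e]
    exact (add_le_add (h1.trans n2) (h2.trans n1)).trans (by linarith)
  · obtain ⟨v, hv⟩ : ∃ v : ℕ → ℝ, v = fun m => √(bA B.N * (1 + xs m i) / B.N) := ⟨_, rfl⟩
    have v0 : ∀ m, 0 ≤ v m := fun m => by rw [hv]; exact Real.sqrt_nonneg _
    have e : B.SG g xs a n i ≤ ∑ m ∈ Finset.range n, pq B.N * v m *
        ((if m / 8 < el B.N then fr0 B.N else 0) +
          pq B.N * ∑ m' ∈ Finset.Ico (8 * (m / 8 - el B.N)) m, v m' + fr0 B.N / pJ B.N ^ 3 + v m) := by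
      have f0 := h.big.fr0_pos; have := h.big.J_pos
      refine (Finset.sum_le_sum fun m _ => ?_).trans (Finset.sum_le_sum_of_subset_of_nonneg
        (fun m hm => Finset.mem_range.2 (hI m hm)) fun m _ _ => ?_)
      · have h1 : √((B.c g 0).bbO * (1 + xs m i) / B.N) ≤ v m := by
          rw [hv]; exact h.rt_mono G.bbO_bd.2 m
        have h2 := piO_nonneg hf h.big g xs m i
        refine mul_le_mul (mul_le_mul_of_nonneg_left h1 hq.le) (add_le_add ?_ h1) (by positivity)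
          (mul_nonneg hq.le (v0 m))
        rw [Bk.piO, if_neg hS, hv]
        exact add_le_add le_rfl h.big.el_sm_le
      · have := v0 m
        have := Finset.sum_nonneg fun m' (_ : m' ∈ Finset.Ico (8 * (m / 8 - el B.N)) m) => v0 m'
        split_ifs <;> positivity
    have hR : ∀ m ∈ Finset.range n, m < n := fun _ => Finset.mem_range.1
    have s1 : pq B.N * ∑ m ∈ (Finset.range n).filter fun m => m / 8 < el B.N, v m ≤
        fr0 B.N / qp B.N (1 / 2) := by
      rw [hv]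
      refine h.short_le (fun m hm => hR m (Finset.mem_filter.1 hm).1) ?_
      refine (Finset.card_le_card (t := Finset.range (8 * (el B.N + 1))) fun m hm => ?_).trans
        (Finset.card_range _).le
      have := (Finset.mem_filter.1 hm).2
      rw [Finset.mem_range]; omega
    have s2 : ∑ m ∈ Finset.range n, v m ^ 2 ≤ bA B.N * (qp B.N (1 / 5) * pJ B.N) / B.N := by
      rw [hv]; exact h.sq_le h.big.bA_pos.le hR
    have s3 := (win_mul (v := v) (w := fun m => 8 * (m / 8 - el B.N)) (W := 8 * (el B.N + 1))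
      (fun m => by omega) n).trans (mul_le_mul (by push_cast; exact h.big.el_le_sqrtq) s2
        (Finset.sum_nonneg fun _ _ => sq_nonneg _) h.big.sqrtq_pos.le)
    have s4 : ∑ m ∈ Finset.range n, v m ≤
        √(bA B.N * (1072 * pJ B.N) * (qp B.N (1 / 5) * pJ B.N) / B.N) := by
      rw [hv, Finset.range_eq_Ico]; exact h.long_le h.big.bA_pos.le 0
    have e2 : ∑ m ∈ Finset.range n, pq B.N * v m * ((if m / 8 < el B.N then fr0 B.N else 0) +
          pq B.N * ∑ m' ∈ Finset.Ico (8 * (m / 8 - el B.N)) m, v m' + fr0 B.N / pJ B.N ^ 3 + v m) =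
        fr0 B.N * (pq B.N * ∑ m ∈ (Finset.range n).filter fun m => m / 8 < el B.N, v m) +
        pq B.N * pq B.N * ∑ m ∈ Finset.range n,
          v m * ∑ m' ∈ Finset.Ico (8 * (m / 8 - el B.N)) m, v m' +
        pq B.N * (fr0 B.N / pJ B.N ^ 3) * ∑ m ∈ Finset.range n, v m +
        pq B.N * ∑ m ∈ Finset.range n, v m ^ 2 := by
      rw [Finset.sum_filter, Finset.mul_sum, Finset.mul_sum, Finset.mul_sum, Finset.mul_sum,
        Finset.mul_sum, ← Finset.sum_add_distrib, ← Finset.sum_add_distrib,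
        ← Finset.sum_add_distrib]
      exact Finset.sum_congr rfl fun m _ => by split_ifs <;> ring
    have f0 := h.big.fr0_pos; have := h.big.J_pos
    have t1 := mul_le_mul_of_nonneg_left s1 f0.le
    have t2 := mul_le_mul_of_nonneg_left s2 hq.le
    have t3 := mul_le_mul_of_nonneg_left s3 (mul_pos hq hq).le
    have t4 := mul_le_mul_of_nonneg_left s4 (show 0 ≤ pq B.N * (fr0 B.N / pJ B.N ^ 3) by positivity)
    linarith

end Ledg

theorem ledg : LedgStmt := by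
  filter_upwards [ev_big] with N hN B hB k r s hf hk hr il i a b hb
  subst hB
  have h := (Ledg.lh hN hf hk hr il i).mono hb
  exact ⟨h.La_le a, fun b0 h0 => h.SA_le h0 a, fun g => ⟨Ledg.SG_le hf h g a,
    by linarith [Ledg.piO_le_hc hf h g, hN.hc_pos]⟩⟩

end
end Pool.Agent.MP_20bec2_an.T3

end MrgPart0

-- ======== part 1: formerly Pool.Agent.MP_20bec2_an.T3.Bf
section MrgPart1

-- ======== part 0: formerly Pool.Agent.MP_20bec2_an.T3.Bl
section MrgPart0

/-! The hypotheses of the long slide hold at the start of the band `mid`. -/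

set_option autoImplicit false
open MeasureTheory Set Filter Matrix Topology

namespace Pool.Agent.MP_20bec2_an.T3
noncomputable section
open Classical

namespace Bl

section num
variable {N : ℕ} (h : Big N)
include h

omit h in
lemma lc {C : ℝ} (h1 : 1 ≤ C) (h2 : C ≤ 2000) : Real.log C ≤ 2000 := (logc_bd h1).2.trans h2

lemma n1 : pq N * √(bB N * (1072 * pJ N) * (qp N (1 / 5) * pJ N) / N) ≤ fr0 N ∧
    √(pq N) * √(bB N * (1072 * pJ N) * (qp N (1 / 5) * pJ N) / N) ≤ √(pX N / N) / pq N ^ 5 := by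
  have := h.J_pos; have := h.q_pos; have := h.N_pos; have := h.bB_pos; have := h.qp_pos (1 / 5)
  have := h.X_pos; have := h.fr0_pos
  constructor <;> refine le_of_log (by positivity) (by positivity) ?_ <;>
    simp (disch := positivity) only [Real.log_div, Real.log_mul, Real.log_pow, Real.log_sqrt,
      h.log_J, h.log_N, h.log_q, h.log_qp, h.log_bB, h.log_fr0, h.log_X] <;>
    push_cast <;> linarith [h.L_ge, lc (show (1 : ℝ) ≤ 1072 by norm_num) (by norm_num)]

lemma n2 : 1206 * pJ N * sm N ≤ fr0 N ∧ 1206 * pJ N * np N (-1 / 25) ≤ 1 / pJ N ∧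
    1207 * pJ N * np N (-3 / 5) ≤ √(pX N / N) / pq N ^ 5 ∧ 2 * nu N ≤ 1 / √(pJ N) := by
  have := h.J_pos; have := h.q_pos; have := h.N_pos; have := h.sm_pos; have := h.nu_pos
  have := h.X_pos; have := h.fr0_pos; have := h.np_pos (-1 / 25); have := h.np_pos (-3 / 5)
  refine ⟨?_, ?_, ?_, ?_⟩ <;> refine le_of_log (by positivity) (by positivity) ?_ <;>
    simp (disch := positivity) only [Real.log_div, Real.log_mul, Real.log_pow, Real.log_sqrt,
      h.log_J, h.log_N, h.log_q, h.log_np, h.log_sm, h.log_fr0, h.log_X, h.log_nu,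
      Real.log_one] <;>
    push_cast <;> linarith [h.L_ge, h.J_ge, lc (show (1 : ℝ) ≤ 1206 by norm_num) (by norm_num),
      lc (show (1 : ℝ) ≤ 1207 by norm_num) (by norm_num), log2_bd.2]

lemma N_ge : (10000 : ℝ) ≤ N := by linarith [h.N_ge, h.J_ge, h.L_ge]
lemma one_le : 1 ≤ N := by exact_mod_cast (show (1 : ℝ) ≤ N by linarith [N_ge h])
lemma two_le : 2 ≤ N := by exact_mod_cast (show (2 : ℝ) ≤ N by linarith [N_ge h])

end num

lemma zT_le {c : Pm} (h : Gd c) : c.zT ≤ 1 / √(pJ c.N) := by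
  unfold Pm.zT
  split_ifs
  exacts [(n2 h.big).2.2.2, le_rfl]

lemma jac_fh (F : Fr) {f : V → V} (hf : Sm f) : jac (F.fh f) = F.den (jac f) :=
  funext fun z => (K3.p4 F hf.dif z).2

variable {B : Bk} {ρ : V → ℝ} {k : ℕ} {s : St}

lemma site (hN : Big B.N) (hG : B.G) (x : V) : ∃ i, B.NS i x := by
  have p : 0 < B.hsp := mul_pos (hN.np_pos _) (GeoP.lb_pos hG.toFrOk)
  obtain ⟨i, hi⟩ := Prof.exists_box p x
  exact ⟨i, le_trans hi (by linarith)⟩

lemma D_pos (hN : Big B.N) (hG : B.G) : 0 < B.D := GeoP.D_pos hG.toFrOk (one_le hN)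

lemma bx_mono (hN : Big B.N) (hG : B.G) {g : Cu} {r r' : ℝ} (h : r ≤ r') {x : V}
    (hx : x ∈ B.bx g r) : x ∈ B.bx g r' := Prof.box_mono (D_pos hN hG).le h g hx

lemma R_mono (hN : Big B.N) (hG : B.G) {g : Cu} {r r' : ℝ} (h : r ≤ r') {x : V}
    (hx : x ∈ B.R g r) : x ∈ B.R g r' := Prof.RX_mono _ (D_pos hN hG).le h hx

lemma mbs (h : B.IF ρ k 0 s) : B.MBs k (2 * eps0) 1 (jac s.f) := fun g => by
  have := (h.sn k le_rfl).2.2 g
  rwa [h.fk.2 rfl, jac_fh _ h.smf.1] at this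

lemma f0_bij {r : ℕ} (h : B.IF ρ k r s) : Function.Bijective B.f0 :=
  h.fk.1 ▸ (h.sn 0 (Nat.zero_le _)).2.1

lemma not_aft {j : ℕ} (h : k ≤ j) : ¬ aft j k 0 := by
  unfold aft
  omega

lemma np_lb (hN : Big B.N) (hG : B.G) {a : ℝ} (ha : a ≤ 29 / 10) :
    2 * (np B.N a * B.lb) ≤ (B.N : ℝ) ^ 3 * B.lb := by
  rw [← mul_assoc]
  refine mul_le_mul_of_nonneg_right (le_of_log (by have := hN.np_pos a; positivity)
    (pow_pos hN.N_pos 3) ?_) (GeoP.lb_pos hG.toFrOk).le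
  rw [Real.log_mul two_ne_zero (hN.np_pos a).ne', hN.log_np, Real.log_pow, hN.log_N]
  push_cast
  nlinarith [hN.J_ge, hN.L_ge, log2_bd.2]

lemma cube_le (hN : Big B.N) (hG : B.G) : 10000 * ((B.N : ℝ) ^ 3 * B.lb) ≤ B.D := by
  have e : B.D = B.N * ((B.N : ℝ) ^ 3 * B.lb) := by
    rw [Bk.D, Dd]
    ring
  rw [e]
  exact mul_le_mul_of_nonneg_right (N_ge hN)
    (mul_pos (pow_pos hN.N_pos 3) (GeoP.lb_pos hG.toFrOk)).le

lemma lab_near (hN : Big B.N) (hG : B.G) {f : V → V} (L : LabF B k f) (g : Cu) (x : V)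
    (hx : x ∈ B.bx g 1) : ‖B.oh g f x - (B.fr g).zc (B.Z0 x)‖ ≤ (B.N : ℝ) ^ 3 * B.lb := by
  have := mul_pos (hN.np_pos (23 / 10)) (GeoP.lb_pos hG.toFrOk)
  linarith [(L.2 g x hx).1, np_lb hN hG (show (23 / 10 : ℝ) ≤ 29 / 10 by norm_num)]

/-- the column entries of the Gram matrix before the long slide -/
lemma gam_bd (hN : Big B.N) (ho : B.Ok0 ρ) (hk : k < nb B.N) (hm : k ≤ mid B.N) (il : B.IL k 0 s)
    (h : B.IF ρ k 0 s) {g : Cu} (d : B.deep g) {x : V} (hx : x ∈ B.bx g 1) :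
    (∀ i, i ≠ 2 → |B.ga g s.f x i 2| ≤ √((B.c g 0).η * (B.c g 0).p) / 8000) ∧
      |B.ga g s.f x 2 2 - 1| ≤ 2 / pJ B.N := by
  have hG : B.G := ho.geo
  have G := Bk.gd0 hG.toFrOk hN g
  obtain ⟨a, ha⟩ := site hN hG x
  have r := h.ig.rel 0 (Nat.zero_le _) g x hx a ha
  have nc : ¬ B.crs g 0 k 0 := fun c => not_aft hm c.2.1
  rw [if_neg nc, if_neg nc, h.fk.1, sub_zero, add_zero, Pm.bbO, if_pos (G.deep_flags d).2.1] at r
  rw [show (B.c g 0).N = B.N from rfl] at r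
  have g0 := ho.g0 g x hx
  have c1 : ((cnt k 0 - 9 * 0 : ℕ) : ℝ) ≤ 1206 * pJ B.N := hN.cnt_le hk (by norm_num)
  have c2 := mul_le_mul_of_nonneg_left
    ((Ledg.lh hN hG.toFrOk hk (by norm_num) il a).long_le hN.bB_pos.le (8 * 0)) hN.q_pos.le
  have c3 := mul_le_mul_of_nonneg_right c1 hN.sm_pos.le
  have c4 := mul_le_mul_of_nonneg_right c1 (hN.np_pos (-1 / 25)).le
  have c5 := G.B1_oS (G.deep_flags d).1
  have c6 : 10 ^ 20 * fr0 B.N ≤ _ := G.fr0_le_sηp'
  obtain ⟨m1, m2, -⟩ := n2 hN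
  have m3 := (n1 hN).1
  have tri : ∀ u v w : ℝ, |u - w| ≤ |u - v| + |v - w| := abs_sub_le
  refine ⟨fun i hi => ?_, ?_⟩
  · have r1 := r i 2
    have g1 := g0 i 2
    have e1 : (B.c g 0).gref i 2 = 0 := diagonal_apply_ne _ hi
    have e2 : ∀ u v w : ℝ, bm u v w i 2 = v := fun u v w => by
      fin_cases i
      exacts [rfl, rfl, absurd rfl hi]
    rw [Matrix.sub_apply, e2] at r1 g1
    rw [e1] at g1
    have := tri (B.ga g s.f x i 2) (B.ga g B.f0 x i 2) 0
    rw [sub_zero] at this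
    linarith [hN.fr0_pos]
  · have r1 : |B.ga g s.f x 2 2 - B.ga g B.f0 x 2 2| ≤ _ * np B.N (-1 / 25) := r 2 2
    have g1 : |B.ga g B.f0 x 2 2 - 1| ≤ 1 / pJ B.N := g0 2 2
    have := tri (B.ga g s.f x 2 2) (B.ga g B.f0 x 2 2) 1
    rw [show 2 / pJ B.N = 1 / pJ B.N + 1 / pJ B.N by ring]
    linarith

/-- the column integrals -/
lemma li_bd (hN : Big B.N) (hG : B.G) (h : B.Inv ρ (mid B.N) 0 s) {g : Cu} (d : B.deep g) {z : V}
    (hz : z ∈ B.R g (96 / 100)) {τ : ℝ}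
    (hτ : |τ| ≤ 10 * (B.N : ℝ) ^ 2 * (B.c g (mid B.N)).lam) {i : Fin 3} (hi : i ≠ 2) :
    (B.c g 0).cc i / (B.c g 0).n12 *
      |∫ t in (0 : ℝ)..τ, pd i (jac ((B.fr g).fh s.f)) (z + t • e3)| ≤
      3 * √(pX B.N / B.N) / pq B.N ^ 5 := by
  have hk : mid B.N < nb B.N := by have := hN.mid_lt; omega
  have hN1 := N_ge hN
  have l0 := GeoP.lb_pos hG.toFrOk
  have hz' : z + τ • e3 ∈ B.R g (96 / 100 + 1 / 200) := by
    refine Prof.RX_add (GeoP.orth hG.toFrOk g) hz ?_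
    rw [add_sub_cancel_left, norm_smul, e3, Pi.norm_single, norm_one, mul_one, Real.norm_eq_abs]
    have a1 := mul_le_mul_of_nonneg_left (Bk.gd hG.toFrOk hN g hk.le).lam_le_lb
      (show 0 ≤ 10 * (B.N : ℝ) ^ 2 by positivity)
    have a2 : 10000 * ((B.N : ℝ) ^ 2 * B.lb) ≤ (B.N : ℝ) ^ 3 * B.lb := by
      rw [show (B.N : ℝ) ^ 3 * B.lb = B.N * ((B.N : ℝ) ^ 2 * B.lb) by ring]
      exact mul_le_mul_of_nonneg_right hN1 (by positivity)
    have a3 : (B.c g (mid B.N)).lb = B.lb := rfl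
    rw [a3] at a1
    linarith [cube_le hN hG, D_pos hN hG]
  obtain ⟨x, hx, ex⟩ := GeoP.bwd hG (one_le hN) (by norm_num) (by norm_num) hz
  obtain ⟨x', hx', ex'⟩ := GeoP.bwd hG (one_le hN) (by norm_num) (by norm_num) hz'
  have hQ := GeoP.det_ne hG.toFrOk g
  obtain ⟨a, ha⟩ := site hN hG x
  obtain ⟨a', ha'⟩ := site hN hG x'
  have r := h.ir.li hN.mid_lt.2.2.2.le (not_aft le_rfl) g d i hi x (bx_mono hN hG (by norm_num) hx)
    x' (bx_mono hN hG (by norm_num) hx') a a' ha ha' τ hτ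
    (by rw [ex, ex', Prof.zc_zp hQ, Prof.zc_zp hQ])
  have e : B.SL (mid B.N) 0 s.Sg = s.Sg := funext fun w => by simp [Bk.SL]
  rw [e, ex, Prof.zc_zp hQ, ← funext h.iF.smf.2.2, ← jac_fh _ h.iF.smf.1] at r
  have c := fun b => mul_le_mul_of_nonneg_left ((Ledg.lh hN hG.toFrOk hk (by norm_num) h.il
    b).long_le hN.bB_pos.le (8 * kL B.N)) hN.sqrtq_pos.le
  have c1 := mul_le_mul_of_nonneg_right (show (cnt (mid B.N) 0 : ℝ) + 1 ≤ 1207 * pJ B.N by
    linarith [hN.cnt_le hk (show 0 ≤ 9 by norm_num), hN.J_ge, hN.L_ge]) (hN.np_pos (-3 / 5)).le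
  rw [mul_add] at r
  rw [mul_div_assoc]
  linarith [c a, c a', (n1 hN).2, (n2 hN).2.2.1]

end Bl

open Bl in
theorem bl (hf : FlongStmt) (hl : LabStmt) (hz : ZderStmt) : BlStmt := by
  filter_upwards [ev_big, hf, hl, hz, surj, zt] with N hN hf hl hz hs ht B hB ρ s H
  subst hB
  obtain ⟨-, ho, hk, h⟩ := H
  have hG : B.G := ho.geo
  have F := hG.toFrOk
  have M := mbs h.iF
  have L := (hl B rfl ρ _ 0 s ho.toOk0 hk (by norm_num) h.il (fun a => absurd a (not_aft le_rfl))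
    h.iF M).1
  have S := hs B rfl s.f hG (f0_bij h.iF) L.1.2.1 (lab_near hN hG L)
  have na : ¬ aft (ks B.N) (mid B.N) 0 := not_aft (by have := hN.mid_lt; omega)
  obtain ⟨sZ, Z⟩ := hz B rfl ρ _ 0 s ho.toOk0 hk (by norm_num) h.il h.iz h.ip fun a => absurd a na
  obtain ⟨sT, T⟩ := ht B rfl ρ hG ho.cred
  obtain ⟨p1, p2, -⟩ := h.ip.z0 (by simp [nzn])
  have eZ : B.Z s = fun x => s.Zs x + B.Zt x := funext fun x => by simp [Bk.Z, h.iz.n0 na]
  rw [h.iz.zk.2 rfl]
  refine hf B rfl s.f (B.Z s) hG L.1 sZ M fun g d => ?_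
  have G := Bk.gd F hN g hk.le
  have hη : (B.c g 0).η < 95 / 100 * etaA B.N := by
    have : (B.c g 0).η ≤ 7 * etaS B.N := d
    linarith [hN.etaA_eq, hN.etaS_pos]
  refine ⟨fun z hz => ?_, fun z hz τ hτ i hi => li_bd hN hG h d hz hτ hi, fun x hx => ?_,
    fun i => ?_⟩
  · obtain ⟨x, rfl⟩ := (S g).1.2 z
    have hx := bx_mono hN hG (show _ ≤ (1 : ℝ) by norm_num)
      (((S g).2 x _ (by norm_num) (by norm_num)).2 hz)
    exact ⟨(L.2 g x hx).2.1, gam_bd hN ho.toOk0 hk le_rfl h.il h.iF d hx⟩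
  · have hx' := (GeoP.xp_mem F).2 hx
    obtain ⟨z1, -, -, z2, -, z3⟩ := Z g _ hx'
    have t := (((T g).2 _ (bx_mono hN hG (by norm_num) hx')).2.2.1 hη).2.1
    rw [(K3.p5 _ sZ.dif x).1]
    rw [Prof.xc_xp (GeoP.orth F g)] at z3
    refine ⟨?_, GeoP.eb_mono z2 (zT_le G), z3⟩
    rw [eZ, jm_add h.iz.sm.1 sT, t]
    simpa [Bk.Eh, p1, p2] using z1
  · refine ((h.iz.d2 g i).congr fun x hx => ?_).monoB ?_
    · filter_upwards [Prof.RX_nhds (D_pos hN hG) (show (1 : ℝ) < 11 / 10 by norm_num) hx] with w hw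
      rw [Fr.hat, Fr.hat, eZ]
      simp only [(((T g).2 _ ((GeoP.xp_mem F).2 hw)).2.2.1 hη).1, add_zero]
    · refine mul_le_of_le_one_right G.d2u_pos.le ?_
      have a : (2 : ℝ) ^ 1 ≤ 2 ^ mid B.N :=
        pow_le_pow_right₀ (by norm_num) (by have := hN.mid_lt; omega)
      have := one_div_le_one_div_of_le (by norm_num) a
      push_cast
      linarith

end
end Pool.Agent.MP_20bec2_an.T3

end MrgPart0

-- ======== part 1: formerly Pool.Agent.MP_20bec2_an.T3.Bf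
section MrgPart1

/-! The map `f` after the start of a band. -/

set_option autoImplicit false
open MeasureTheory Set Filter Matrix Topology

namespace Pool.Agent.MP_20bec2_an.T3
noncomputable section
open Classical

namespace Bf
open Bl

lemma gam_ev (c : Pm) {f f1 : V → V} {z : V} (e : f1 =ᶠ[𝓝 z] f) : c.gam f1 =ᶠ[𝓝 z] c.gam f :=
  e.eventuallyEq_nhds.mono fun w hw => by simp only [Pm.gam, Pm.ca, jm_congr hw, jac_congr hw]

lemma frel_congr {c : Pm} {f f1 f' : V → V} {z' z : V} {P : FP} (e : f1 =ᶠ[𝓝 z'] f)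
    (H : FRel c f1 f' z' z P) : FRel c f f' z' z P := by
  have e1 : Th f f' z' z = Th f1 f' z' z := by rw [Th, Th, jm_congr e]
  have e2 : ∀ a b j, pd j (fun w => c.gam f w a b) z' = pd j (fun w => c.gam f1 w a b) z' :=
    fun a b j => pd_congr ((gam_ev c e).mono fun w hw => by simp only [hw]) j
  refine ⟨H.mt.trans e.self_of_nhds, H.dl, H.dv, (gam_ev c e).self_of_nhds ▸ H.dg, e1 ▸ H.th,
    e1 ▸ H.t3, fun d hd hD a b i => ?_⟩
  simp only [e1, e2]
  exact H.df d hd (fun a b i => e2 a b i ▸ hD a b i) a b i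

lemma fps_le {N : ℕ} (h : Big N) : (FPs N).Le (FPc N 0 0) := by
  have := h.J_pos; have := h.q_pos; have := h.N_pos; have := h.sm_pos
  refine ⟨h.np_le (by norm_num), h.qp_le (by norm_num), ?_, ?_, h.np_le (by norm_num),
    h.np_le (by norm_num), by norm_num [FPs, FPc], ?_⟩ <;>
  simp only [FPs, FPc, mul_zero, zero_add] <;>
  refine le_of_log (h.np_pos _) (by positivity) ?_ <;>
  simp (disch := positivity) only [Real.log_div, Real.log_mul, Real.log_pow, h.log_J, h.log_N,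
    h.log_q, h.log_np, h.log_sm, Real.log_one] <;>
  push_cast <;> linarith [h.L_ge, h.J_ge, log2_bd.2]

lemma mb_mono {c : Pm} (h : Gd c) {M : V → ℝ} {U : Set V} (H : c.MB (2 * eps0) 1 M U) :
    c.MB (3 * eps0) 2 M U :=
  ⟨fun z hz => (H.1 z hz).trans (by unfold eps0; norm_num), H.2.1.monoB (by linarith [h.q_pos]),
    H.2.2.monoB (by linarith [h.big.np_pos (-26 / 100)])⟩

lemma disp {c : Pm} (h : Gd c) {f f' : V → V} {z' z : V} {Y : ℝ} (H : LRel c f f' z' z Y) :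
    ‖z - z'‖ ≤ np c.N (23 / 10) * c.lb := by
  have a : ∀ a : ℝ, a ≤ 23 / 10 → np c.N a * c.lam ≤ np c.N (23 / 10) * c.lb := fun a ha =>
    mul_le_mul (h.big.np_le ha) h.lam_le_lb h.lam_pos.le (h.big.np_pos _).le
  have b : np c.N (-39 / 100) ≤ 1 := (h.big.np_le (by norm_num)).trans_eq (np_zero _)
  refine Prof.norm_le_of fun i => ?_
  fin_cases i
  · refine (H.dl 0 (by decide)).trans ((mul_le_of_le_one_left h.l1_pos.le b).trans
      (le_trans ?_ (a (1 / 2) (by norm_num))))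
    exact mul_le_mul_of_nonneg_right (h.ro_le.trans_eq (Real.sqrt_eq_rpow _)) h.lam_pos.le
  · exact (H.dl 1 (by decide)).trans (a _ (by norm_num))
  · exact H.dv.trans (a _ (by norm_num))

lemma gb_mono {c : Pm} {f : V → V} {z : V} (H : c.GB f z 1) : c.GB f z (3 / 2) :=
  fun a b => by
    have := H a b
    rw [one_smul] at this
    rw [Matrix.smul_apply, smul_eq_mul]
    linarith [abs_nonneg ((c.gam f z - c.gref) a b)]

lemma gb_num {c : Pm} (h : Gd c) : 100 * (c.J / c.N) ≤ c.gb ∧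
    pX c.N / (qp c.N (18 / 5) * c.N) ≤ c.J / c.N ∧ np c.N (-1 / 20) ≤ 1 / 20 := by
  have := h.J_pos; have := h.N_pos; have := h.big.X_pos; have := h.big.qp_pos (18 / 5)
  have := h.big.Jp_pos (3 / 2)
  refine ⟨le_trans ?_ h.gb_ge, ?_, ?_⟩ <;>
  refine le_of_log (by first | positivity | exact h.big.np_pos _) (by positivity) ?_ <;>
  simp (disch := positivity) only [Real.log_div, Real.log_mul, h.log_J, h.big.log_N, h.big.log_qp,
    h.big.log_np, h.big.log_Jp, h.big.log_X, Real.log_one] <;>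
  linarith [h.big.L_ge, h.big.J_ge, lc (show (1 : ℝ) ≤ 100 by norm_num) (by norm_num),
    lc (show (1 : ℝ) ≤ 20 by norm_num) (by norm_num)]

lemma gb_slide {c : Pm} (h : Gd c) {f f' : V → V} {z' z : V} {Y : ℝ} (H : LRel c f f' z' z Y)
    (h0 : 0 ≤ Y) (h1 : Y ≤ 9 * c.p) (G : c.GB f z' 1) : c.GB f' z (3 / 2) := fun a b => by
  obtain ⟨n1, n2, n3⟩ := gb_num h
  have n4 : c.η * c.p ≤ c.J / c.N := h.ηp_le.trans_eq (congrArg (· / (c.N : ℝ)) h.big.qX_eq)
  have n5 : 1000 * √(c.J / c.N) ≤ c.J ^ 2 / √c.N := h.big.sqrtJN_le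
  have n6 : hc c.N = 3 * (c.J ^ 2 / √c.N) := h.big.hc_eq
  have n7 := h.sηp_le
  have n8 := h.sηp_pos
  have n9 := h.ηp_pos
  have y0 := mul_nonneg h.η_pos.le h0
  have y1 := mul_le_mul_of_nonneg_left h1 h.η_pos.le
  have g := abs_le.1 (G a b)
  have d := abs_le.1 (H.dg a b)
  rw [abs_le]
  fin_cases a <;> fin_cases b <;>
    simp only [Matrix.sub_apply, Matrix.smul_apply, smul_eq_mul, bm, Pm.LA, E00, dg3, of_apply,
      cons_val', cons_val_zero, cons_val_one, cons_val_two, cons_val_fin_one, Fin.zero_eta,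
      Fin.mk_one, Fin.reduceFinMk, diagonal_apply, Fin.reduceEq, if_true, if_false, head_cons,
      tail_cons, head_fin_const, empty_val', Nat.succ_eq_add_one, Nat.reduceAdd] at g d ⊢ <;>
    constructor <;> linarith [g.1, g.2, d.1, d.2]

variable {B : Bk} {k : ℕ}

lemma jac_all (hN : Big B.N) (hG : B.G) {t : ℝ} {M : V → ℝ} (h : B.MBs k (2 * eps0) t M) {g : Cu}
    {z : V} (hz : z ∈ B.R g (11 / 10)) : |(B.fr g).den M z - 1| ≤ 1 / 10 := by
  have F := hG.toFrOk
  obtain ⟨g', hp⟩ := GeoP.cover hG (one_le hN) ((B.fr g).zp z)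
  have n := GeoP.nbr_of hG (one_le hN) (g := g') (g' := g) (r' := 11 / 10) (m := 3) (by norm_num)
    (by norm_num) (by norm_num) (by norm_num) (by norm_num) hp
    (by rw [Prof.zc_zp (GeoP.det_ne F g)]; exact hz)
  have d := GeoP.dc_le (two_le hN)
  have a := abs_le.1 (GeoP.det_ratio (GeoP.orth F g') (GeoP.orth F g) (F.cp g' g n)
    (d.trans (by norm_num)))
  have b := abs_le.1 ((h g').1 _ (R_mono hN hG (by norm_num) hp))
  rw [Fr.den, Prof.zp_zc (GeoP.det_ne F g')] at b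
  have e : (B.fr g).den M z = (B.fr g).Q.det / (B.fr g').Q.det *
      ((B.fr g').Q.det * M ((B.fr g).zp z)) := by
    rw [← mul_assoc, div_mul_cancel₀ _ (GeoP.det_ne F g'), Fr.den]
  unfold eps0 at b
  rw [e, abs_le]
  constructor <;> nlinarith [a.1, a.2, b.1, b.2]

lemma nw_oh (hG : B.G) {f : V → V} (hf : Function.Surjective f) (f' : V → V) (g : Cu) (x : V) :
    B.nw g f f' (B.oh g f x) = B.oh g f' x := by
  rw [Bk.nw, Bk.oh, Prof.zp_zc (GeoP.det_ne hG.toFrOk g), Bk.lab,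
    Function.rightInverse_invFun hf]
  rfl

end Bf

open Bl Bf in
theorem bf (hz : BzStmt) (hs : BsStmt) (hi : BiStmt) (hr : BrStmt) (hm : MbiStmt) (hg : GabsStmt)
    (hu : FupStmt) (hl : LabStmt) : BfStmt := by
  filter_upwards [ev_big, hz, hs, hi, hr, hm, hg, hu, hl, surj] with N hN hz hs hi hr hm hg hu hl
    hS B hB ρ k s nf ngc f1 Af ab Pv H
  subst hB
  obtain ⟨z1, z2, -, z3, z4⟩ := hz B rfl ρ k s nf ngc f1 Af ab Pv f1 H
  replace hs := hs B rfl ρ k s nf ngc f1 Af ab Pv f1 H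
  replace hi := hi B rfl ρ k s nf ngc f1 Af ab Pv f1 H
  obtain ⟨r1, r2, r3⟩ := hr B rfl ρ k s nf ngc f1 Af ab Pv f1 H
  obtain ⟨⟨hρ, ho, hk, h⟩, -, hlo, hne⟩ := H
  have hG : B.G := ho.geo
  have F := hG.toFrOk
  have G := fun g => Bk.gd F hN g hk.le
  have M1 := (hm B rfl ρ k 1 _ hρ ho.toOk0 hk le_rfl (by norm_num) ⟨z1, z2, z3, hs, z4⟩ hi).1
  have M := mbs h.iF
  obtain ⟨L, L2⟩ := hl B rfl ρ k 0 s ho.toOk0 hk (by norm_num) h.il h.ip.psh h.iF M
  have bf := L.1.2.1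
  have S := hS B rfl s.f hG (f0_bij h.iF) bf (lab_near hN hG L)
  have S0 : ∀ g, ∀ x ∈ B.bx g 1, B.oh g s.f x ∈ B.R g (1 + 1 / 500) := fun g x hx =>
    (((S g).2 x 1 (by norm_num) (by norm_num)).1 hx).1
  have A1 : Sm f1 ∧ Function.Bijective f1 ∧ ∀ z, jac f1 z = jac s.f z := by
    by_cases e : k = mid B.N
    · exact (hlo e).sm
    · rw [hne e]
      exact ⟨L.1.1, bf, fun _ => rfl⟩
  have eJ : jac f1 = jac s.f := funext A1.2.2
  have A3 : ∀ g, k = mid B.N → B.pushN g → ∀ x ∈ B.bx g 1, LRel (B.c g k) ((B.fr g).fh s.f)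
      ((B.fr g).fh f1) (B.oh g s.f x) (B.oh g f1 x) (Af (B.lab s.f x)) ∧
      0 ≤ Af (B.lab s.f x) ∧ Af (B.lab s.f x) ≤ 9 * (B.c g 0).p := fun g e p x hx => by
    have a := (hlo e).rel g p _ (R_mono hN hG (by norm_num) (S0 g x hx))
    have b := (hlo e).pd.af g (Bk.pushN_deep F hN p) _ (R_mono hN hG (by norm_num) (S0 g x hx))
    have e' : (B.fr g).zp (B.oh g s.f x) = B.lab s.f x := Prof.zp_zc (GeoP.det_ne F g) _
    rw [nw_oh hG bf.2, e', ← e] at a
    exact ⟨a, e' ▸ b⟩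
  have A4 : ∀ g, ¬ (k = mid B.N ∧ B.pushN g) → ∀ x ∈ B.bx g 1, B.oh g f1 x = B.oh g s.f x ∧
      (B.fr g).fh f1 =ᶠ[𝓝 (B.oh g s.f x)] (B.fr g).fh s.f := fun g c x hx => by
    have a : (B.fr g).fh f1 =ᶠ[𝓝 (B.oh g s.f x)] (B.fr g).fh s.f := by
      by_cases e : k = mid B.N
      · filter_upwards [Prof.RX_nhds (D_pos hN hG) (show _ < (11 / 10 : ℝ) by norm_num)
          (S0 g x hx)] with w hw
        exact (hlo e).off g (fun p => c ⟨e, p⟩) w hw
      · rw [hne e]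
    refine ⟨?_, a⟩
    have b : f1 ((B.fr g).zp (B.oh g s.f x)) = s.f ((B.fr g).zp (B.oh g s.f x)) := a.self_of_nhds
    rw [← nw_oh hG bf.2 f1, Bk.nw, ← b, Function.leftInverse_invFun A1.2.1.1,
      Prof.zc_zp (GeoP.det_ne F g)]
  have S1 := hS B rfl f1 hG (f0_bij h.iF) A1.2.1 fun g x hx => by
    by_cases c : k = mid B.N ∧ B.pushN g
    · have a : _ ≤ np B.N (23 / 10) * B.lb := disp (G g) (A3 g c.1 c.2 x hx).1
      linarith [norm_sub_le_norm_sub_add_norm_sub (B.oh g f1 x) (B.oh g s.f x)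
        ((B.fr g).zc (B.Z0 x)), (L.2 g x hx).1,
        np_lb hN hG (show (23 / 10 : ℝ) ≤ 29 / 10 by norm_num)]
    · exact (A4 g c x hx).1 ▸ lab_near hN hG L g x hx
  have S2 : ∀ g, ∀ x ∈ B.bx g 1, B.oh g f1 x ∈ B.R g (105 / 100) := fun g x hx =>
    R_mono hN hG (by norm_num) (((S1 g).2 x 1 (by norm_num) (by norm_num)).1 hx).1
  have eD : ∀ w, jac f1 w + dv (B.rfl' ρ k s (B.sta k s nf ngc f1 Af ab Pv)) w = _ := fun w => by
    rw [A1.2.2, h.iF.smf.2.2, ← r2]
  obtain ⟨f', D', J', Rl⟩ := hg B rfl k f1 _ hG hk.le ⟨A1.1, A1.2.1, eJ ▸ L.1.2.2⟩ r1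
    (fun g => eJ ▸ mb_mono (G g) (M g)) (fun g z hz => ⟨by
      rw [funext eD]
      exact (mb_mono (G g) (M1 g)).1 z hz, by
      obtain ⟨x, rfl⟩ := (S1 g).1.2 z
      have hx := bx_mono hN hG (show _ ≤ (1 : ℝ) by norm_num)
        (((S1 g).2 x _ (by norm_num) (by norm_num)).2 hz)
      by_cases c : k = mid B.N ∧ B.pushN g
      · obtain ⟨a1, a2, a3⟩ := A3 g c.1 c.2 x hx
        exact gb_slide (G g) a1 a2 a3 (L.2 g x hx).2.1
      · obtain ⟨a1, a2⟩ := A4 g c x hx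
        rw [a1, Pm.GB, (gam_ev _ a2).self_of_nhds]
        exact gb_mono (L.2 g x hx).2.1⟩) r3
  have R1 : ∀ g, ∀ x ∈ B.bx g 1, FRel (B.c g k) ((B.fr g).fh f1) ((B.fr g).fh f') (B.oh g f1 x)
      (B.oh g f' x) (FPc B.N 0 0) := fun g x hx => by
    have a := Rl g _ (S2 g x hx)
    rw [nw_oh hG A1.2.1.2] at a
    exact a.mono' (G g) (fps_le hN)
  refine ⟨f', ⟨D'.1, D'.2.1, fun z => (J' z).trans (eD z)⟩, h.iF.sn,
    ⟨h.iF.fk.1, fun e => absurd e one_ne_zero⟩, ?_⟩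
  refine hu B rfl k 0 s.f f' s.ft s.xs s.xs s.Af (if k = mid B.N then Af else s.Af) hG hk
    (by norm_num) h.il.nn (fun _ _ => rfl) (fun a => if_neg fun e => not_aft e.le a)
    (fun g x hx => ⟨(L.2 g x hx).2.2.2.2.2.2.1.trans (by norm_num), fun j hj =>
      ((L2 j hj).2.2 g x hx).2.1.trans (by norm_num)⟩) h.iF.ig fun g x hx i _ => ?_
  by_cases c : k = mid B.N ∧ B.pushN g
  · rw [if_pos ⟨c.1, rfl, c.2⟩, if_pos c.1]
    refine ⟨h.iF.fk.2 rfl, f1, ?_, (A3 g c.1 c.2 x hx).1, R1 g x hx⟩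
    rw [jac_fh _ A1.1, eJ]
    exact jac_all hN hG M (R_mono hN hG (by norm_num) (S2 g x hx))
  · rw [if_neg fun e => c ⟨e.1, e.2.2⟩, if_pos rfl]
    obtain ⟨a1, a2⟩ := A4 g c x hx
    exact frel_congr a2 (a1 ▸ R1 g x hx)

end
end Pool.Agent.MP_20bec2_an.T3

end MrgPart1

-- marker of a merged file
example : 731051 + 709862 = 731051 + 709862 := rfl

end MrgPart1

-- ======== part 2: formerly Pool.Agent.MP_20bec2_an.T3.Nc
section MrgPart2

/-! The noise part put back; size of the potential on the tables. -/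

set_option autoImplicit false
set_option linter.unusedSectionVars false
open Set Filter Matrix

namespace Pool.Agent.MP_20bec2_an.T3
noncomputable section
open Classical
namespace NcP

lemma small_tab {K δ : ℝ} {E : Mx} (hK : 1 ≤ K) (hδ : δ ≤ 1 / 1000) (hE : EB2 E (cm δ)) :
    (0 < ra (1 + E) * rb (1 + E) - rg (1 + E) ^ 2 ∧
      0 < Lt K (ra (1 + E)) (rb (1 + E)) (rg (1 + E))) ∧ |alp E| ≤ 9 * δ ∧ |bet K E| ≤ 12 * δ := by
  have e0 : ∀ j, |E 0 j| ≤ δ := fun j => hE 0 j (by decide)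
  have e1 : ∀ j, |E 1 j| ≤ δ := fun j => hE 1 j (by decide)
  have d0 : 0 ≤ δ := (abs_nonneg _).trans (e0 0)
  have dd : δ * δ ≤ δ * (1 / 1000) := mul_le_mul_of_nonneg_left hδ d0
  have r1 : |ra (1 + E) - 1| ≤ 3 * δ := by
    rw [ra_eq, abs_le]
    constructor <;> linarith [sq_nonneg (E 0 0), sq_nonneg (E 0 1), sq_nonneg (E 0 2),
      sq_of (e0 0), sq_of (e0 1), sq_of (e0 2), (abs_le.1 (e0 0)).1, (abs_le.1 (e0 0)).2]
  have r2 : |rb (1 + E) - 1| ≤ 3 * δ := by
    rw [rb_eq, abs_le]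
    constructor <;> linarith [sq_nonneg (E 1 0), sq_nonneg (E 1 1), sq_nonneg (E 1 2),
      sq_of (e1 0), sq_of (e1 1), sq_of (e1 2), (abs_le.1 (e1 1)).1, (abs_le.1 (e1 1)).2]
  have r3 : |rg (1 + E)| ≤ 3 * δ := by
    rw [rg_eq]
    refine (add_of (add_of (mul_of (add_of abs_one.le (e0 0)) (e1 0))
      (mul_of (e0 1) (add_of abs_one.le (e1 1)))) (mul_of (e0 2) (e1 2))).trans ?_
    linarith
  unfold alp bet
  generalize ra (1 + E) = a, rb (1 + E) = b, rg (1 + E) = g at r1 r2 r3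
  obtain ⟨D1, D2⟩ := area (a := a) (b := b) (g := g) (by linarith) (by linarith) (by linarith)
  have L1 := lt_any hK r1 r2 r3
  have L2 : 1 / 2 ≤ Lt K a b g := by linarith [(abs_le.1 L1).1]
  have l1 := abs_le.1 ((log_one (by linarith [(abs_le.1 r1).1])).trans
    (mul_le_mul_of_nonneg_left r1 zero_le_two))
  have l2 := abs_le.1 ((log_one (by linarith [(abs_le.1 r2).1])).trans
    (mul_le_mul_of_nonneg_left r2 zero_le_two))
  have l3 := sq_of r3
  refine ⟨⟨D1, by linarith⟩, ?_, by linarith [log_one L2]⟩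
  rw [abs_le] at D2 ⊢
  constructor <;> linarith [l1.1, l1.2, l2.1, l2.2, D2.1, D2.2]

lemma eta_near {e : ℝ → ℝ} {R t z y : ℝ} (hR : 0 < R) (h0 : ∀ t, 0 < e t)
    (h : ∀ t t', e t' ≤ Real.exp (R * |t' - t|) * e t) (hz : R * |z - t| ≤ y) (hy : y ≤ 1) :
    |e z - e t| ≤ 2 * e t * y := by
  have y0 : 0 ≤ y := (by positivity : 0 ≤ R * |z - t|).trans hz
  have e1 : Real.exp (R * |z - t|) ≤ 1 + 2 * y := by
    have := Real.abs_exp_sub_one_le (x := y) (by rwa [abs_of_nonneg y0])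
    rw [abs_of_nonneg y0] at this
    linarith [Real.exp_le_exp.2 hz, (abs_le.1 this).2]
  have a1 := (h t z).trans (mul_le_mul_of_nonneg_right e1 (h0 t).le)
  have a2 := h z t
  rw [abs_sub_comm] at a2
  have a3 := a2.trans (mul_le_mul_of_nonneg_right e1 (h0 z).le)
  have a4 := mul_nonneg (h0 t).le y0
  rw [abs_le]
  refine ⟨?_, by linarith⟩
  rcases le_total (e z) (e t) with c | c
  · linarith [mul_le_mul_of_nonneg_right c y0]
  · linarith

/-- logarithms of the parameters at level B -/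
structure Lg (c : Pm) : Prop where
  big : Big c.N
  h0 : 0 < c.η
  K0 : 0 < c.K
  e0 : 0 < c.e4
  h1 : -pJ c.N + 3 * pL c.N - 3 ≤ Real.log c.η
  h2 : Real.log c.η ≤ Real.log c.e4
  e1 : 4 * pL c.N - pJ c.N ≤ Real.log c.e4
  e2 : Real.log c.e4 ≤ -(8 * pL c.N)
  K1 : 15 / 4 * pL c.N ≤ Real.log c.K
  K2 : Real.log c.K ≤ 15 / 4 * pL c.N + 1 / 4

lemma lg_of (hP : PsiStmt) (c : Pm) (h : Big c.N) (ok : c.Ok) (hη : c.η ≤ 7 * etaS c.N) :
    Lg c := by
  obtain ⟨C, -, hP⟩ := hP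
  obtain ⟨-, -, anti, e0, -, -, -, -, -, eb, -⟩ := hP (pR c.N) h.R_ge
  obtain ⟨s1, s2, -, -, ht, -⟩ := ok
  have h0 : 0 < c.η := (e0 _).1
  have R0 := h.R_pos
  have L := h.L_ge
  have J := h.J_ge
  have l2 := log2_bd
  have hA : Real.log c.η ≤ -(8 * pL c.N) := by
    rw [← h.log_etaA]
    refine Real.log_le_log h0 ?_
    unfold etaS at hη
    linarith [h.etaA_pos]
  have low : ∀ t, 0 ≤ t → -(pR c.N * t) - 3 * Real.log 2 - pL c.N ≤ Real.log (eta (pR c.N) t) :=
    fun t ht => by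
      have := Real.log_le_log (by positivity) (eb t ht).1
      rw [Real.log_div (by positivity) (by positivity), Real.log_exp,
        Real.log_mul (by positivity) (by positivity), h.log_R] at this
      linarith
  have t0 : 0 ≤ c.t := by
    by_contra hn
    have := (low 0 le_rfl).trans (Real.log_le_log (e0 0).1 (anti (not_le.1 hn).le))
    unfold Pm.η at hA
    linarith
  have J4 : 0 < c.J ^ 4 / c.N := div_pos (pow_pos h.J_pos 4) h.N_pos
  have J5 : Real.log (c.J ^ 4 / c.N) = 4 * pL c.N - pJ c.N := by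
    unfold Pm.J
    rw [Real.log_div (pow_pos h.J_pos 4).ne' h.N_pos.ne', Real.log_pow, h.log_J, h.log_N]
    push_cast
    ring
  obtain ⟨m1, m2, m3⟩ := log_max' h0 J4
  have tK : c.t = Real.log c.K - 15 / 4 * pL c.N := rfl
  refine ⟨h, h0, div_pos (by linarith) s1, lt_max_of_lt_left h0, ?_, m1, J5 ▸ m2, ?_, by linarith,
    by linarith [h.tE_bd.2]⟩
  · have a1 := low c.t t0
    have a2 := mul_le_mul_of_nonneg_left ht R0.le
    rw [mul_add, h.R_mul_tE, mul_div_cancel₀ _ R0.ne'] at a2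
    unfold Pm.η
    linarith
  · unfold Pm.e4
    rcases m3 with m | m <;> rw [m] <;> linarith

def ka (c : Pm) : ℝ := c.q ^ 3 * c.J * c.dB
def om (c : Pm) : ℝ := c.q ^ 3 * c.J * uB c.N
def tT (c : Pm) : ℝ := 3 * c.q ^ 3 * c.J * c.t1B
def sg (c : Pm) : ℝ := 3 * c.q ^ 3 * c.J * sdc c.N
def ep (c : Pm) : ℝ := 1 / (100 * (c.q ^ 2 * pR c.N))

namespace Lg
variable {c : Pm} (g : Lg c)
include g

lemma pos : 0 < ka c ∧ 0 < om c ∧ 0 < tT c ∧ 0 < sg c ∧ 0 < ep c := by
  have h := g.big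
  have := h.J_pos; have := h.q_pos; have := h.pu_pos; have := h.R_pos; have := g.e0
  have := h.uB_pos; have := h.sdc_pos
  unfold ka om tT sg ep Pm.dB Pm.t1B Pm.q Pm.J
  refine ⟨?_, ?_, ?_, ?_, ?_⟩ <;> positivity

lemma lgs : Real.log (ka c) = -(pJ c.N / 2) - 31 * (pL c.N / 2000) - Real.log 2 -
      Real.log c.e4 / 2 ∧
    Real.log (om c) = -(pJ c.N / 2) + pL c.N / 2 - 5 * (pL c.N / 2000) ∧
    Real.log (tT c) = Real.log 3 - pJ c.N / 2 + pL c.N / 2 - 25 * (pL c.N / 2000) -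
      Real.log c.e4 / 2 ∧
    Real.log (sg c) = Real.log 3 + 3 * (pL c.N / 1000) + pL c.N - 496 / 1000 * pJ c.N ∧
    Real.log (ep c) = -Real.log 100 - 2 * (pL c.N / 1000) - 2 * Real.log 2 - pL c.N := by
  have h := g.big
  have := h.J_pos; have := h.q_pos; have := h.pu_pos; have := h.R_pos; have := g.e0
  have := h.uB_pos; have := h.sdc_pos
  unfold ka om tT sg ep Pm.dB Pm.t1B Pm.q Pm.J
  simp (disch := positivity) only [Real.log_div, Real.log_mul, Real.log_sqrt, Real.log_pow,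
    Real.log_one, h.log_pu, h.log_J, h.log_q, h.log_R, h.log_uB, h.log_sdc]
  push_cast
  refine ⟨?_, ?_, ?_, ?_, ?_⟩ <;> ring

lemma pf_eq : c.pf = c.q * ka c := by
  unfold Pm.pf ka
  ring

lemma om_sq : om c ^ 2 = pX c.N / (c.q ^ 4 * c.N) := by
  have h := g.big
  have := h.J_pos; have := h.q_pos; have := h.N_pos; have := h.X_pos
  unfold om uB pu Pm.q Pm.J
  rw [mul_pow, div_pow, div_pow, Real.sq_sqrt (by positivity)]
  field_simp

lemma cst : 0 ≤ Real.log 3 ∧ Real.log 3 ≤ 3 ∧ 0 ≤ Real.log 100 ∧ Real.log 100 ≤ 100 ∧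
    Real.log 1000 ≤ 1000 :=
  ⟨(logc_bd (by norm_num)).1, (logc_bd (by norm_num)).2, (logc_bd (by norm_num)).1,
    (logc_bd (by norm_num)).2, (logc_bd (by norm_num)).2⟩

lemma sz {θ n : ℝ} (hn : |n| ≤ 3 * (θ ^ 2 + c.p)) (hθ : θ ^ 2 ≤ c.q * c.J * c.p) (F : Prop)
    [Decidable F] (hF : F → etaS c.N ≤ c.η) :
    Sz (1 / c.q) (ep c) c.η (om c) (ka c) c.p (tT c) (c.q * tT c ^ 2) (if F then sg c else 0)
      (np c.N (-10)) c.K θ n := by
  have h := g.big
  obtain ⟨p1, p2, p3, p4, p5⟩ := g.pos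
  obtain ⟨l1, l2, l3, l4, l5⟩ := g.lgs
  obtain ⟨c1, c2, c3, c4, c5⟩ := g.cst
  obtain ⟨-, h0, K0, e0, h1, h2, e1, e2, K1, K2⟩ := id g
  have J0 : 0 < c.J := h.J_pos
  have q0 : 0 < c.q := h.q_pos
  have q1 : 10000000 ≤ c.q := h.q_ge
  have lq : Real.log c.q = pL c.N / 1000 := h.log_q
  have lJ : Real.log c.J = pL c.N := h.log_J
  have N0 := h.N_pos
  have X0 := h.X_pos
  have L := h.L_ge
  have J := h.J_ge
  have l2' := log2_bd
  have d0 := h.np_pos (-10)
  have pp : c.p ≤ c.q * ka c := g.pf_eq ▸ min_le_left _ _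
  have p0 : 0 ≤ c.p := le_min (g.pf_eq ▸ by positivity) (by positivity)
  have k2 : c.q * c.J * (c.q * ka c) ≤ ep c := le_of_log (by positivity) p5 (by
    simp (disch := positivity) only [Real.log_mul, lq, lJ]
    linarith)
  have k3 : c.q * ka c ≤ ep c := le_of_log (by positivity) p5 (by
    simp (disch := positivity) only [Real.log_mul, lq]
    linarith)
  have hS : F → -(8 * pL c.N) - 100 ≤ Real.log c.η := fun f => by
    have := Real.log_le_log h.etaS_pos (hF f)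
    rw [h.log_etaS] at this
    linarith
  refine ⟨by positivity, ?_, ?_, h0, p2, ?_, p0, ?_, pp.trans k3,
    hθ.trans ((mul_le_mul_of_nonneg_left pp (by positivity)).trans k2), hn, p3.le, ?_, ?_, ?_, ?_,
    ?_, ?_, ?_, ?_, ?_, ?_, d0.le, ?_⟩
  · exact one_div_le_one_div_of_le (by norm_num) (by linarith)
  · unfold ep
    rw [div_pow, one_pow, div_div]
    refine one_div_le_one_div_of_le (by positivity) ?_
    linarith [mul_le_mul_of_nonneg_left h.R_ge (sq_nonneg c.q)]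
  · rw [mul_one_div, le_div_iff₀ q0]
    linarith
  · rw [mul_one_div, div_le_iff₀ q0]
    linarith
  · rw [mul_one_div, mul_div_cancel_left₀ _ q0.ne']
  · refine le_of_log (by positivity) p1 ?_
    simp (disch := positivity) only [Real.log_mul, Real.log_pow, lq]
    push_cast
    linarith
  · refine le_of_log (by positivity) (by positivity) ?_
    simp (disch := positivity) only [Real.log_mul, Real.log_div, Real.log_pow, lq]
    push_cast
    linarith
  · split_ifs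
    · exact p4.le
    · exact le_rfl
  · split_ifs
    · refine le_of_log (by positivity) p1 ?_
      rw [Real.log_pow]
      push_cast
      linarith
    · simpa using p1.le
  · split_ifs with f
    · refine (pow_le_pow_iff_left₀ (by positivity) p2.le two_ne_zero).1 ?_
      rw [mul_pow, sq_abs]
      refine (mul_le_mul_of_nonneg_right (hθ.trans (mul_le_mul_of_nonneg_left (min_le_right _ _)
        (by positivity))) (sq_nonneg _)).trans (le_of_log (by positivity) (by positivity) ?_)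
      simp (disch := positivity) only [Real.log_mul, Real.log_div, Real.log_pow, lq, lJ, h.log_X,
        h.log_N]
      push_cast
      linarith [hS f]
    · simpa using p2.le
  · split_ifs with f
    · refine le_of_log (by positivity) p2 ?_
      rw [Real.log_mul p3.ne' p4.ne']
      linarith [hS f]
    · simpa using p2.le
  · refine le_of_log (by norm_num) K0 ?_
    linarith [(logc_bd (C := 150) (by norm_num)).2]
  · refine le_of_log (by positivity) p1 ?_
    simp (disch := positivity) only [Real.log_mul, Real.log_pow]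
    push_cast
    linarith
  · refine le_of_log (by positivity) (by positivity) ?_
    simp (disch := positivity) only [Real.log_mul, Real.log_div, Real.log_pow, Real.log_one]
    push_cast
    linarith
  · refine le_of_log d0 (by positivity) ?_
    simp (disch := positivity) only [Real.log_div, Real.log_pow, h.log_np]
    push_cast
    linarith

lemma tb (hη : c.η ≤ 7 * etaS c.N) {E A : Mx} {n θ : ℝ} (hE : EB2 E c.eT)
    (hA : EB2 (A - !![n, 0, θ; 0, 0, 0; 0, 0, 0]) (cm (np c.N (-10)))) :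
    Tb (om c) (ka c) (tT c) (if 3 / 2 * etaS c.N ≤ c.η ∧ kbo c.N ≤ c.k then sg c else 0)
      (np c.N (-10)) c.K θ n E A := by
  have h := g.big
  have hA0 := h.etaA_pos
  have oS : c.oS := by unfold Pm.oS; unfold etaS at hη; linarith
  have oB : c.oB := by unfold Pm.oB; unfold etaS at hη; linarith
  obtain ⟨p1, p2, p3, p4, p5⟩ := g.pos
  obtain ⟨l1, -⟩ := g.lgs
  obtain ⟨c1, c2, -⟩ := g.cst
  obtain ⟨-, h0, K0, e0, h1, h2, e1, e2, K1, K2⟩ := id g
  have L := h.L_ge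
  have J := h.J_ge
  have hm : c.m = c.K / 4 := max_eq_right (by
    have : 4 ≤ c.K := le_of_log (by norm_num) K0
      (by linarith [(logc_bd (C := 4) (by norm_num)).2])
    linarith)
  have z1 : 3 * c.q ^ 3 * c.J * np c.N (-9 / 10) ≤ ka c := by
    have := h.J_pos; have := h.q_pos; have := h.np_pos (-9 / 10)
    unfold Pm.q Pm.J
    refine le_of_log (by positivity) p1 ?_
    simp (disch := positivity) only [Real.log_mul, Real.log_pow, h.log_q, h.log_J, h.log_np]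
    push_cast
    linarith [log2_bd.2]
  have z2 : c.η * ka c ≤ 1 * ka c := mul_le_mul_of_nonneg_right
    (le_of_log h0 one_pos (by rw [Real.log_one]; linarith)) p1.le
  unfold Pm.eT Pm.sdO at hE
  rw [if_pos oS, if_pos oB] at hE
  have e := fun i j hi => hE i j hi
  have a := fun i j hi => hA i j hi
  have e00 := e 0 0 (by decide)
  have e01 := e 0 1 (by decide)
  have e02 := e 0 2 (by decide)
  have e10 := e 1 0 (by decide)
  have e11 := e 1 1 (by decide)
  have e12 := e 1 2 (by decide)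
  simp [Pm.sdB, Pm.b23, hm] at e00 e01 e02 e10 e11
  refine ⟨?_, ?_, ?_, ?_, ?_, ?_, by simpa [cm] using a 0 0 (by decide),
    by simpa [cm] using a 0 1 (by decide), by simpa [cm] using a 0 2 (by decide),
    by simpa [cm] using a 1 0 (by decide), by simpa [cm] using a 1 1 (by decide),
    by simpa [cm] using a 1 2 (by decide)⟩
  · unfold ka; linarith
  · unfold om; linarith
  · exact e02
  · unfold om; linarith
  · unfold ka at z1 z2 ⊢; linarith
  · split_ifs at e12 ⊢ <;> simp [Pm.sdB, Pm.b23] at e12 <;> unfold om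
    · unfold sg; linarith
    · linarith

lemma fin : 400 * ka c ≤ c.dk ∧ om c ≤ Real.sqrt c.η / c.q ^ 2 := by
  have h := g.big
  obtain ⟨p1, p2, -⟩ := g.pos
  obtain ⟨l1, l2, -⟩ := g.lgs
  obtain ⟨-, -, -, c4, -⟩ := g.cst
  obtain ⟨-, h0, K0, e0, h1, h2, e1, e2, K1, K2⟩ := id g
  have q0 : 0 < c.q := h.q_pos
  have lq : Real.log c.q = pL c.N / 1000 := h.log_q
  have L := h.L_ge
  have J := h.J_ge
  have c5 := (logc_bd (C := 400) (by norm_num)).2
  constructor
  · unfold Pm.dk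
    split_ifs with f
    · rw [g.pf_eq]
      refine le_of_log (by positivity) (by positivity) ?_
      simp (disch := positivity) only [Real.log_mul, Real.log_div, Real.log_sqrt, lq]
      linarith
    · refine le_of_log (by positivity) (h.np_pos _) ?_
      have := Real.log_le_log h.etaS_pos (not_lt.1 f)
      rw [h.log_etaS] at this
      rw [Real.log_mul (by norm_num) p1.ne', h.log_np]
      linarith [log2_bd.1]
  · refine le_of_log p2 (by positivity) ?_
    simp (disch := positivity) only [Real.log_div, Real.log_sqrt, Real.log_pow, lq]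
    push_cast
    linarith

end Lg

end NcP

open NcP in
theorem nc (hP : PsiStmt) : NcStmt := by
  filter_upwards [ev_big] with N h c hN ok
  subst hN
  obtain ⟨C, -, hQ⟩ := id hP
  obtain ⟨-, -, -, e0, der, -, -, -, cmp, -⟩ := hQ (pR c.N) h.R_ge
  have s1 := ok.1
  have s2 : 0 < c.s2 := s1.trans_le ok.2.1
  refine ⟨fun hη E A n θ hE hA hn hθ => ?_, fun _ E hE => ?_⟩
  · have g := lg_of hP c h ok hη
    have z := g.sz hn hθ (3 / 2 * etaS c.N ≤ c.η ∧ kbo c.N ≤ c.k)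
      fun f => by linarith [f.1, h.etaS_pos]
    have b := g.tb hη hE hA
    have q0 : 0 < c.q := h.q_pos
    have q1 : 10000000 ≤ c.q := h.q_ge
    have R0 := h.R_pos
    have ee : 100 * ep c = 1 / (c.q ^ 2 * pR c.N) := by unfold ep; field_simp
    obtain ⟨r1, r2, r3, r4⟩ := core z b (t := c.t) der e0 fun y hy => by
      refine eta_near R0 (fun t => (e0 t).1) cmp ?_ (pow_le_one₀ z.i0.le (by linarith [z.i1]))
      refine (mul_le_mul_of_nonneg_left hy R0.le).trans (le_of_eq ?_)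
      rw [ee]
      field_simp
    obtain ⟨D1, D2⟩ := (logs z b).1
    obtain ⟨D3, D4⟩ := (logs z.zero (b.zero z.d0)).1
    rw [add_zero] at D3 D4
    obtain ⟨u1, u2⟩ := t2f_eq c s1 s2 D1 D2
    obtain ⟨u3, u4⟩ := t2f_eq c s1 s2 D3 D4
    rw [u2, u4, u1, u3]
    refine ⟨?_, ?_, ?_, ?_, ?_⟩
    · rw [← g.om_sq, div_eq_mul_one_div _ c.q]
      convert r1 using 2
      ring
    · rw [add_sub_cancel_left, div_eq_mul_one_div (θ ^ 2) c.q]
      linarith [g.fin.1]
    · rw [add_assoc, add_sub_cancel_left]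
      refine r3.trans (ee ▸ one_div_le_one_div_of_le (by positivity) ?_)
      exact le_mul_of_one_le_right (sq_nonneg _) (by linarith [h.R_ge])
    · rw [add_sub_cancel_left, ← ee]
      exact r4
    · have e : ((1 + (E + A)) * (1 + (E + A))ᵀ : Mx) 0 1 = rg (1 + (E + A)) := by
        generalize 1 + (E + A) = F
        simp [Matrix.mul_apply, Fin.sum_univ_three, rg]
      rw [e, mul_div_right_comm]
      refine (row4 z b).trans ?_
      have := mul_le_mul_of_nonneg_right g.fin.2 g.K0.le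
      have := mul_pos g.K0 z.w0
      linarith
  · have n0 := h.nu_pos
    have L := h.L_ge
    have J := h.J_ge
    have n1 : 200 * nu c.N ≤ np c.N (-2 / 5) := le_of_log (by positivity) (h.np_pos _) (by
      rw [Real.log_mul (by norm_num) n0.ne', h.log_nu, h.log_np]
      linarith [(logc_bd (C := 200) (by norm_num)).2])
    have n2 : 4000 * nu c.N ≤ 1 := le_of_log (by positivity) one_pos (by
      rw [Real.log_mul (by norm_num) n0.ne', h.log_nu, Real.log_one]
      linarith [(logc_bd (C := 4000) (by norm_num)).2])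
    have n3 := h.np_le (a := -2 / 5) (b := -21 / 100) (by norm_num)
    obtain ⟨⟨D1, D2⟩, r1, r2⟩ := small_tab (K := c.K) ((one_le_div s1).2 ok.2.1) (by linarith) hE
    obtain ⟨u1, u2⟩ := t2f_eq c s1 s2 D1 D2
    have r3 : |c.t2f E - c.t| ≤ 84 * nu c.N := by
      rw [u1, add_sub_cancel_left]
      linarith [abs_sub (bet c.K E) (alp E)]
    refine ⟨?_, by linarith⟩
    rw [u2, add_assoc, add_sub_cancel_left]
    linarith [abs_add_le (alp E) (Psi (pR c.N) (c.t2f E) - Psi (pR c.N) c.t),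
      psi_lip der e0 (c.t2f E) c.t]

end
end Pool.Agent.MP_20bec2_an.T3

end MrgPart2

-- marker of a merged file
example : 731051 + 283837 = 731051 + 283837 := rfl
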