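import Pool.Agent.MP_20bec2_an.T3.Vtr
import Pool.Agent.MP_20bec2_an.T3.Par4
import Pool.Agent.MP_20bec2_an.T3.Nc
import Pool.Agent.MP_20bec2_an.T3.Fv
import Pool.Agent.MP_20bec2_an.T3.Finv
import Pool.Agent.MP_20bec2_an.T3.Zt
import Pool.Agent.MP_20bec2_an.T3.CrA
import Pool.Agent.MP_20bec2_an.T3.Conv

-- ======== part 0: formerly Pool.Agent.MP_20bec2_an.T3.BlockA
section MrgPart0

/-! Row BLOCK, part A: the potential at one point. -/

set_option autoImplicit false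
set_option linter.unusedSectionVars false
open Set Filter Matrix

namespace Pool.Agent.MP_20bec2_an.T3
noncomputable section

namespace BlockP

section num
variable {c : Pm} (h : Gd c)
include h

lemma L1000 : 0 ≤ Real.log 1000 ∧ Real.log 1000 ≤ 1000 := logc_bd (by norm_num)

lemma zT_le : c.zT ≤ 1 / Real.sqrt c.J := by
  have := h.big.sqrtJ_pos; have := h.big.nu_pos
  unfold Pm.zT
  split_ifs
  · refine le_of_log (by positivity) (one_div_pos.2 h.big.sqrtJ_pos) ?_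
    rw [Real.log_mul (by norm_num) this.ne', h.big.log_nu, one_div, Real.log_inv,
      show c.J = pJ c.N from rfl, h.big.log_sqrtJ]
    linarith [h.big.L_ge, h.big.J_ge, log2_bd.2]
  · exact le_rfl

omit h in
lemma zT_hi (e : etaS c.N / 2 ≤ c.η) : c.zT = 2 * nu c.N := if_pos e

lemma np93_le : 10 * np c.N (-93 / 100) ≤ nu c.N ∧ 2 * nu c.N ≤ c.zT := by
  have := h.big.np_pos (-93 / 100); have := h.big.nu_pos
  constructor
  · refine le_of_log (by positivity) h.big.nu_pos ?_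
    rw [Real.log_mul (by norm_num) (by positivity), h.big.log_np, h.big.log_nu]
    linarith [h.big.L_ge, h.big.J_ge, log10_bd.2]
  · unfold Pm.zT
    split_ifs
    · exact le_rfl
    · refine le_of_log (by positivity) (one_div_pos.2 h.big.sqrtJ_pos) ?_
      rw [Real.log_mul (by norm_num) this.ne', h.big.log_nu, one_div, Real.log_inv,
        show c.J = pJ c.N from rfl, h.big.log_sqrtJ]
      linarith [h.big.L_ge, h.big.J_ge, log2_bd.2]

lemma hi_num : np c.N (-2 / 5) ≤ 1 / c.q ^ 2 ∧ np c.N (-21 / 100) ≤ 1 / (c.q ^ 2 * pR c.N) ∧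
    1000 * np c.N (-21 / 100) ≤ np c.N (-1 / 5) ∧ 1000 * nu c.N ≤ 1 ∧
    np c.N (-13 / 10) ≤ cg0 c.N ∧ 1000 * np c.N (-15) ≤ np c.N (-10) ∧
    np c.N (-15) ≤ 1 / (c.q * pR c.N) ∧ 1000 * np c.N (-4) ≤ 1 / c.q ∧
    1000 * cg0 c.N ≤ pX c.N / (c.q ^ 2 * c.N) ∧ 1000 * cg0 c.N ≤ 1 / c.q ^ 2 ∧
    1000 * (pX c.N / (c.q ^ 4 * c.N)) ≤ cg0 c.N ∧ cg0 c.N ≤ c.gb := by
  have := h.q_pos; have := h.big.R_pos; have := h.big.nu_pos; have := h.big.cg0_pos
  have := h.big.X_pos; have := h.N_pos; have := h.big.Jp_pos (3 / 2)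
  have := h.big.np_pos (-2 / 5); have := h.big.np_pos (-21 / 100); have := h.big.np_pos (-1 / 5)
  have := h.big.np_pos (-13 / 10); have := h.big.np_pos (-15); have := h.big.np_pos (-10)
  have := h.big.np_pos (-4)
  have := h.big.L_ge; have := h.big.J_ge; have := log2_bd.2; have := (L1000 h).2
  refine ⟨?_, ?_, ?_, ?_, ?_, ?_, ?_, ?_, ?_, ?_, ?_, le_trans ?_ h.gb_ge⟩ <;>
    refine le_of_log (by positivity) (by positivity) ?_ <;>
    simp (disch := positivity) only [Real.log_div, Real.log_mul, Real.log_pow, Real.log_one,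
      h.log_q, h.big.log_R, h.big.log_np, h.big.log_nu, h.big.log_cg0, h.big.log_X, h.big.log_N,
      h.big.log_Jp, Nat.cast_ofNat] <;> linarith

lemma nu_le (e : etaS c.N ≤ c.η) : 9 * nu c.N ≤ Real.sqrt c.η * c.K / c.q ^ 2 ∧
    1000 * c.p ≤ np c.N (-1 / 5) := by
  have := h.q_pos; have := h.big.nu_pos; have := h.η_pos; have := h.K_pos; have := h.p_pos
  have := h.log_etaS_le (a := 1) (by norm_num) (by linarith)
  have := h.big.L_ge; have := h.big.J_ge; have := (L1000 h).2; have := h.log_K_bd.1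
  have := h.log_p.2.1; have := (logc_bd (show (1 : ℝ) ≤ 9 by norm_num)).2
  constructor <;> refine le_of_log (by positivity) (by first | positivity | exact h.big.np_pos _) ?_ <;>
    simp (disch := positivity) only [Real.log_div, Real.log_mul, Real.log_pow, Real.log_sqrt,
      h.log_q, h.big.log_np, h.big.log_nu, Nat.cast_ofNat] <;> linarith

lemma dk_lo (e : c.η < etaS c.N) : 1000 * (cg0 c.N / c.η) ≤ c.dk := by
  have := h.q_pos; have := h.η_pos; have := h.pf_pos; have := h.big.cg0_pos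
  rw [Pm.dk, if_pos e]
  refine le_of_log (by positivity) (by positivity) ?_
  simp (disch := positivity) only [Real.log_div, Real.log_mul, Real.log_sqrt, h.log_q,
    h.big.log_cg0]
  linarith [h.log_ηpf_ge, h.big.L_ge, (L1000 h).2]

omit h in
lemma dk_hi (e : etaS c.N ≤ c.η) : c.dk = np c.N (-1 / 5) := if_neg (not_lt.2 e)

lemma dk_le : c.dk ≤ 1 / (c.q * pR c.N) := by
  have := h.q_pos; have := h.big.R_pos; have := h.pf_pos; have := h.big.np_pos (-1 / 5)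
  have := Real.log_le_log h.pf_pos h.pf_le
  rw [h.big.log_pcap] at this
  unfold Pm.dk
  split_ifs <;> refine le_of_log (by positivity) (by positivity) ?_ <;>
    simp (disch := positivity) only [Real.log_div, Real.log_mul, Real.log_sqrt, Real.log_one,
      h.log_q, h.big.log_R, h.big.log_np] <;> linarith [h.big.L_ge, h.big.J_ge, log2_bd.1, log2_bd.2]

lemma q_inv : 0 < 1 / c.q ∧ 1 / c.q ≤ 1 / 10000000 :=
  ⟨one_div_pos.2 h.q_pos, one_div_le_one_div_of_le (by norm_num) h.big.q_ge⟩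

lemma div_q {a : ℝ} (ha : 0 ≤ a) : 0 ≤ a / c.q ∧ a / c.q ≤ a / 10000000 :=
  ⟨div_nonneg ha h.q_pos.le, div_le_div_of_nonneg_left ha (by norm_num) h.big.q_ge⟩

end num

/-- what is known about the full deviation `E` -/
structure Tab (c : Pm) (E : Mx) (u θ : ℝ) : Prop where
  eb : EB E (cm (2 / Real.sqrt c.J))
  v : |c.V2 E - c.VG| ≤ 1 / c.q ^ 2
  t : |c.t2f E - c.t| ≤ 1 / (c.q ^ 2 * pR c.N)
  o : |((1 + E) * (1 + E)ᵀ : Mx) 0 1| ≤ Real.sqrt c.η * c.K / c.q ^ 2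
  tk : |c.t2f E - c.t + u| ≤ c.dk / 4 + θ ^ 2 / c.q

lemma off01 {E : Mx} {a : ℝ} (h : EB2 E (cm (4 * a))) (ha : 1000 * a ≤ 1) :
    |((1 + E) * (1 + E)ᵀ : Mx) 0 1| ≤ 9 * a := by
  have b : ∀ i j, i ≠ 2 → |E i j| ≤ 4 * a := h
  have m : ∀ i j k l, i ≠ 2 → k ≠ 2 → |E i j * E k l| ≤ 4 * a * (4 * a) := fun i j k l hi hk => by
    rw [abs_mul]; exact mul_le_mul (b i j hi) (b k l hk) (abs_nonneg _)
      ((abs_nonneg _).trans (b i j hi))
  have e : ((1 + E) * (1 + E)ᵀ : Mx) 0 1 =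
      E 1 0 + E 0 1 + E 0 0 * E 1 0 + E 0 1 * E 1 1 + E 0 2 * E 1 2 := by
    simp [Matrix.mul_apply, Fin.sum_univ_three]; ring
  have a0 : 0 ≤ a := by linarith [abs_nonneg (E 0 0), b 0 0 (by decide)]
  have h1 := abs_le.1 (b 1 0 (by decide)); have h2 := abs_le.1 (b 0 1 (by decide))
  have h3 := abs_le.1 (m 0 0 1 0 (by decide) (by decide))
  have h4 := abs_le.1 (m 0 1 1 1 (by decide) (by decide))
  have h5 := abs_le.1 (m 0 2 1 2 (by decide) (by decide))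
  rw [e]
  exact abs_le.2 ⟨by nlinarith, by nlinarith⟩

lemma eb_J {c : Pm} (h : Gd c) {E : Mx} (e : EB E (cm (2 * c.zT))) :
    EB E (cm (2 / Real.sqrt c.J)) := fun i j => (e i j).trans (by
  have := zT_le h
  show 2 * c.zT ≤ 2 / Real.sqrt c.J
  rw [show 2 / Real.sqrt c.J = 2 * (1 / Real.sqrt c.J) by ring]; linarith)

/-- with the noise part -/
lemma tabP : EvC fun c => c.η ≤ 7 * etaS c.N → ∀ (E A : Mx) (n θ : ℝ), EB2 E c.eT →
    EB (E + A) (cm (2 * c.zT)) → EB2 (A - !![n, 0, θ; 0, 0, 0; 0, 0, 0]) (cm (np c.N (-10))) →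
    |n| ≤ 3 * (θ ^ 2 + c.p) → θ ^ 2 ≤ c.q * c.J * c.p → Tab c (E + A) (n + θ ^ 2 / 2) θ ∧
      |c.V2 (E + A) - c.V2 E - c.η * (n + θ ^ 2 / 2)| ≤
        c.η * (θ ^ 2 + c.p) / c.q + cg0 c.N / 1000 := by
  filter_upwards [nc psi, ev_gd] with N hnc hg c hN ok hη E A n θ h1 h2 h3 h4 h5
  have h := hg c hN ok
  subst hN
  obtain ⟨a1, a2, a3, a4, a5⟩ := (hnc c rfl ok).1 hη E A n θ h1 h3 h4 h5
  exact ⟨⟨eb_J h h2, a3, a4, a5, a2⟩, by linarith [(hi_num h).2.2.2.2.2.2.2.2.2.2.1]⟩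

/-- without the noise part -/
lemma tab0 : EvC fun c => ∀ E : Mx, (c.η < etaS c.N → EB2 E c.eT) → EB E (cm (2 * c.zT)) →
    Tab c E 0 0 := by
  filter_upwards [nc psi, tabP, ev_gd] with N hnc hP hg c hN ok E h1 h2
  have h := hg c hN ok
  have hS := h.big.etaS_pos
  rcases lt_or_ge c.η (etaS c.N) with e | e
  · have := (hP c hN ok (by linarith) E 0 0 0 (h1 e) (by rwa [add_zero]) (fun i j _ => by
      have : (0 - !![0, 0, 0; 0, 0, 0; 0, 0, 0] : Mx) = 0 := by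
        ext a b; fin_cases a <;> fin_cases b <;> simp
      rw [this]; exact (abs_zero.trans_le (h.big.np_pos _).le))
      (by have := h.p_pos; rw [abs_zero]; positivity)
      (by have := h.p_pos; have := h.q_pos; have := h.J_pos; norm_num; positivity)).1
    simpa using this
  · subst hN
    have e2 : EB2 E (cm (4 * nu c.N)) := fun i j _ => (h2 i j).trans_eq (by
      show 2 * c.zT = 4 * nu c.N
      rw [zT_hi (by linarith)]; ring)
    obtain ⟨a1, a2⟩ := (hnc c rfl ok).2 (by linarith) E e2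
    obtain ⟨n1, n2, n3, n4, -⟩ := hi_num h
    refine ⟨eb_J h h2, a1.trans n1, a2.trans n2, (off01 e2 n4).trans (nu_le h e).1, ?_⟩
    rw [dk_hi e, add_zero]
    norm_num
    linarith [h.big.np_pos (-21 / 100)]

/-- the potential of the full Gram matrix at one end of the block -/
lemma fvT : EvC fun c => ∀ (E Df g : Mx) (u θ Af p' : ℝ), Tab c E u θ → |Df.det - 1| ≤ 1 / 10 →
    g = (Df * dg3 c.c1 c.c2 (c.n12 / Df.det))ᵀ * (Df * dg3 c.c1 c.c2 (c.n12 / Df.det)) - c.gref →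
    EB g (bm (2 * c.gb) (2 * hc c.N) (1 / 5)) → 0 ≤ Af → Af ≤ 9 * p' → p' ≤ c.p →
    |g 0 0 - c.η * Af| ≤ 2 * cg0 c.N + c.η * p' / 1000 →
    |g 0 1| ≤ 2 * cg0 c.N + c.η * p' / 1000 → |g 1 1| ≤ 2 * cg0 c.N →
    |Vf c.N ((1 + E)ᵀ * (Dfᵀ * Df) * (1 + E)) - c.V2 E - c.η * Af / 2| ≤
      7 * cg0 c.N + c.η * p' / 1500 ∧
    |tt c.N ((1 + E)ᵀ * (Dfᵀ * Df) * (1 + E)) - c.t + u + Af / 2| ≤
      c.dk / 2 + θ ^ 2 / c.q + p' / 1500 := by
  filter_upwards [fv psi, ev_gd] with N hfv hg c hN ok E Df g u θ Af p' T h1 h2 h3 a0 a1 a2 g0 g1 g2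
  have h := hg c hN ok
  subst hN
  obtain ⟨f1, f2, f3⟩ := hfv c rfl ok E Df T.eb T.t T.o h1 g h2 h3
  obtain ⟨-, -, n3, -, n5, -⟩ := hi_num h
  have pη := h.η_pos; have pc := h.big.cg0_pos
  have p0 : 0 ≤ p' := by linarith
  have e0 : 0 ≤ c.η * p' := mul_nonneg pη.le p0
  have e1 : c.η * Af ≤ 9 * (c.η * p') := by nlinarith
  have e2 : 0 ≤ c.η * Af := mul_nonneg pη.le a0
  obtain ⟨g3, g4⟩ := abs_le.1 g0
  have b0 : |g 0 0| + |g 0 1| ≤ 4 * cg0 c.N + 10 * (c.η * p') := by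
    have : |g 0 0| ≤ 2 * cg0 c.N + c.η * p' / 1000 + 9 * (c.η * p') :=
      abs_le.2 ⟨by linarith, by linarith⟩
    linarith
  have b1 := (div_le_div_of_nonneg_right b0 h.q_pos.le).trans (div_q h (by positivity)).2
  obtain ⟨t1, t2⟩ := abs_le.1 T.tk
  constructor
  · obtain ⟨f4, f5⟩ := abs_le.1 f1
    exact abs_le.2 ⟨by linarith, by linarith⟩
  rcases lt_or_ge c.η (etaS c.N) with e | e
  · obtain ⟨f4, f5⟩ := abs_le.1 (f2 e)
    have d1 := dk_lo h e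
    have d2 : cg0 c.N ≤ cg0 c.N / c.η := by
      rw [le_div_iff₀ pη]; exact mul_le_of_le_one_right pc.le h.η_le_one
    have d3 : (|g 0 0| + |g 0 1|) / (c.q * c.η) ≤ (4 * (cg0 c.N / c.η) + 10 * p') / 10000000 := by
      rw [← div_div, div_le_iff₀ pη]
      refine b1.trans_eq ?_
      field_simp
    have d4 : |g 0 0 / (2 * c.η) - Af / 2| ≤ cg0 c.N / c.η + p' / 2000 := by
      rw [show g 0 0 / (2 * c.η) - Af / 2 = (g 0 0 - c.η * Af) / (2 * c.η) by field_simp, abs_div,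
        abs_of_pos (show 0 < 2 * c.η by positivity), div_le_iff₀ (by positivity)]
      refine g0.trans_eq ?_
      field_simp; ring
    obtain ⟨d5, d6⟩ := abs_le.1 d4
    exact abs_le.2 ⟨by linarith, by linarith⟩
  · obtain ⟨f4, f5⟩ := abs_le.1 (f3 (by linarith [h.big.etaS_pos]))
    have d1 := (nu_le h e).2
    have d2 := dk_hi e
    have := h.big.np_pos (-21 / 100)
    exact abs_le.2 ⟨by linarith, by linarith⟩

lemma ipm_le {P A : Mx} {a b : ℝ} (hP : EB P (cm a)) (hA : EB A (cm b)) : |ipm P A| ≤ 9 * (a * b) := by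
  have m : ∀ i j, |P i j * A i j| ≤ a * b := fun i j => by
    rw [abs_mul]; exact mul_le_mul (hP i j) (hA i j) (abs_nonneg _) ((abs_nonneg _).trans (hP i j))
  refine (Finset.abs_sum_le_sum_abs _ _).trans ((Finset.sum_le_sum fun i _ =>
    (Finset.abs_sum_le_sum_abs _ _).trans (Finset.sum_le_sum fun j _ => m i j)).trans_eq ?_)
  simp; ring

lemma Q_le {c : Pm} (h : Gd c) {A : Mx} {b : ℝ} (hA : EB A (cm b)) :
    c.Qlo A ≤ 5 * b ^ 2 ∧ c.Qup A ≤ 7 * b ^ 2 := by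
  have s : ∀ i j, A i j ^ 2 ≤ b ^ 2 := fun i j => sq_le_sq' (abs_le.1 (hA i j)).1 (abs_le.1 (hA i j)).2
  have m : |A 0 1 * A 1 0| ≤ b ^ 2 := by
    rw [abs_mul, sq]
    exact mul_le_mul (hA 0 1) (hA 1 0) (abs_nonneg _) ((abs_nonneg _).trans (hA 0 1))
  have a1 := mul_le_of_le_one_left (sq_nonneg (A 0 0)) h.mu_le_one
  have a2 := div_le_self (sq_nonneg (A 0 1)) (one_le_pow₀ (n := 2) h.one_le_m)
  have a3 := mul_le_of_le_one_left (abs_nonneg (A 0 1 * A 1 0)) h.η_le_one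
  have a4 := mul_le_of_le_one_left (sq_nonneg (A 0 2)) h.η_le_one
  have e : c.Qlo A ≤ 5 * b ^ 2 := by unfold Pm.Qlo; linarith [s 0 0, s 0 1, s 1 0, s 1 1]
  exact ⟨e, by unfold Pm.Qup; linarith [s 0 2, s 1 2]⟩

/-- the credit field put back -/
lemma midA : EvC fun c => etaS c.N / 2 ≤ c.η → ∀ E A : Mx, EB E (cm (nu c.N)) →
    EB A (cm (np c.N (-93 / 100))) →
    |c.V2 (E + A) - c.V2 E - (c.η * A 0 0 + (2 - c.η) * A 1 1)| ≤ cg0 c.N := by
  obtain ⟨C, hC, hva⟩ := va psi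
  filter_upwards [hva, ev_gd, ev_C_q C] with N hva hg hq c hN ok hη E A h1 h2
  have h := hg c hN ok
  subst hN
  obtain ⟨v1, v2, v3⟩ := hva c rfl ok hη
  have pν := h.big.nu_pos
  have pδ := h.big.np_pos (-93 / 100)
  have m : ∀ a, nu c.N ≤ a → EB2 E (cm a) := fun a ha i j _ => (h1 i j).trans ha
  obtain ⟨w1, w2⟩ := v3 E A _ (m _ (by linarith)) (fun i j _ => h2 i j)
    (by linarith [(np93_le h).1])
  have w3 := ipm_le (v1 E 0 _ (m _ (by linarith)) (fun i j _ => by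
    show |(0 : ℝ)| ≤ 4 * nu c.N
    rw [abs_zero]; positivity) (by rw [sub_zero]; exact m _ le_rfl)) h2
  have e : ipm (c.PV E - c.PV 0) A = ipm (c.PV E) A - (c.η * A 0 0 + (2 - c.η) * A 1 1) := by
    rw [v2]
    simp [ipm, dg3, Fin.sum_univ_three]; ring
  rw [e] at w3
  obtain ⟨q1, q2⟩ := Q_le h h2
  have hC0 : 0 ≤ C := by linarith
  have q3 := (mul_le_mul_of_nonneg_left q1 hC0).trans (mul_le_mul_of_nonneg_right hq (by positivity))
  have q4 := (mul_le_mul_of_nonneg_left q2 hC0).trans (mul_le_mul_of_nonneg_right hq (by positivity))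
  have n : 1000 * (pq c.N * np c.N (-93 / 100) ^ 2) ≤ cg0 c.N ∧
      1000 * (np c.N (-45 / 100) * np c.N (-93 / 100) ^ 2) ≤ cg0 c.N ∧
      1000 * (c.J ^ 3 * nu c.N * np c.N (-93 / 100)) ≤ cg0 c.N := by
    have := h.big.q_pos; have := h.big.np_pos (-45 / 100); have := h.J_pos
    refine ⟨?_, ?_, ?_⟩ <;> refine le_of_log (by positivity) h.big.cg0_pos ?_ <;>
      simp (disch := positivity) only [Real.log_mul, Real.log_pow, h.big.log_q, h.big.log_np,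
        h.big.log_nu, h.big.log_cg0, h.log_J, Nat.cast_ofNat] <;>
      linarith [h.big.L_ge, h.big.J_ge, (L1000 h).2]
  obtain ⟨w4, w5⟩ := abs_le.1 w3
  have := sq_nonneg (A 1 2); have := h.big.cg0_pos
  exact abs_le.2 ⟨by linarith [n.1, n.2.1, n.2.2], by linarith [n.1, n.2.1, n.2.2]⟩

/-- the gain of the long slide, the noise and the equaliser together -/
lemma gain {p P Y Af ab s e : ℝ} (hp : 0 ≤ p) (he : e ≤ p / 10000) (P1 : -(7 / 10) ≤ P) (P2 : P ≤ 10)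
    (Y1 : -e ≤ Y) (Y2 : Y ≤ 112 / 1000 * p) (s0 : 0 ≤ s) (A0 : 0 ≤ Af) (A1 : Af ≤ 9 * p)
    (b0 : 0 ≤ ab) (hA : |Af - p * P - ab| ≤ e) :
    |1 / 4 * P * (s - Y)| ≤ 3 * (s + p) ∧ s / 4 - p / 400 ≤ Af / 2 + (1 / 4 * P * (s - Y) + s / 2) ∧
    Af / 2 + (1 / 4 * P * (s - Y) + s / 2) ≤ 4 * s + 6 * p ∧
    (78 / 1000 * p ≤ Y → 4 / 10 * p ≤ ab →
      s / 4 + p / 200 ≤ Af / 2 + (1 / 4 * P * (s - Y) + s / 2)) := by
  obtain ⟨a1, a2⟩ := abs_le.1 hA
  have s1 := mul_le_mul_of_nonneg_right P1 s0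
  have s2 := mul_le_mul_of_nonneg_right P2 s0
  have s3 := mul_le_mul_of_nonneg_right P1 hp
  have s4 := mul_le_mul_of_nonneg_right P2 hp
  rcases le_total 0 P with h | h
  · have y1 := mul_le_mul_of_nonneg_left (show -(p / 10000) ≤ Y by linarith) h
    have y2 := mul_le_mul_of_nonneg_left Y2 h
    have y3 := mul_nonneg h hp
    exact ⟨abs_le.2 ⟨by linarith, by linarith⟩, by linarith, by linarith, fun _ _ => by linarith⟩
  · have y1 := mul_le_mul_of_nonpos_left (show -(p / 10000) ≤ Y by linarith) h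
    have y2 := mul_le_mul_of_nonpos_left Y2 h
    refine ⟨abs_le.2 ⟨by linarith, by linarith⟩, by linarith, by linarith, fun y b => ?_⟩
    have y3 := mul_le_mul_of_nonpos_left y h
    rcases le_total P (-(38 / 100)) with h' | h'
    · have := mul_le_mul_of_nonneg_right h' hp
      linarith
    · have := mul_le_mul_of_nonneg_right h' hp
      have := mul_nonpos_of_nonpos_of_nonneg h hp
      linarith

/-- conjugation with an orthogonal matrix -/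
lemma conj {O : Mx} (h : Orth O) (N : ℕ) (G : Mx) :
    Vf N (Oᵀ * G * O) = Vf N G ∧ tt N (Oᵀ * G * O) = tt N G := by
  have e1 : ∀ G : Mx, (Oᵀ * G * O).trace = G.trace := fun G => by
    rw [Matrix.trace_mul_cycle, h.1, Matrix.one_mul]
  have e2' : (Oᵀ * G * O * (Oᵀ * G * O)).trace = (G * G).trace := by
    rw [← e1 (G * G)]
    congr 1
    calc _ = Oᵀ * G * (O * Oᵀ) * G * O := by simp only [Matrix.mul_assoc]
      _ = _ := by rw [h.1, Matrix.mul_one, Matrix.mul_assoc Oᵀ]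
  simp only [Vf, tt, aa, Lam, e2, e1, e2', and_self]

end BlockP

end
end Pool.Agent.MP_20bec2_an.T3

end MrgPart0

-- ======== part 1: formerly Pool.Agent.MP_20bec2_an.T3.Block
section MrgPart1

-- ======== part 0: formerly Pool.Agent.MP_20bec2_an.T3.BlockB
section MrgPart0

/-! Row BLOCK, part B: what the records say at one point. -/

set_option autoImplicit false
set_option linter.unusedSectionVars false
open Set Filter Matrix

namespace Pool.Agent.MP_20bec2_an.T3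
noncomputable section
open Classical Prof Glue

namespace BlockP

/-- the weight of a family of cubes at a point -/
lemma wt {D : ℝ} (hD : 0 < D) (x : V) (P : Cu → Prop) [DecidablePred P] :
    0 ≤ ∑ᶠ g, (if P g then al D g x ^ 2 else 0) ∧ ∑ᶠ g, (if P g then al D g x ^ 2 else 0) ≤ 1 ∧
    ((∀ g, al D g x ≠ 0 → P g) → ∑ᶠ g, (if P g then al D g x ^ 2 else 0) = 1) ∧
    ((∀ g, al D g x ≠ 0 → ¬P g) → ∑ᶠ g, (if P g then al D g x ^ 2 else 0) = 0) := by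
  have e : ∑ g ∈ nb8 (cv D) x, al D g x ^ 2 = 1 := al_sum hD.ne' x
  rw [((sup_al_sq hD).ite P).eq_sum (by norm_num) x]
  refine ⟨Finset.sum_nonneg fun g _ => ?_, (Finset.sum_le_sum fun g _ => ?_).trans e.le,
    fun h => (Finset.sum_congr rfl fun g _ => ?_).trans e, fun h => Finset.sum_eq_zero fun g _ => ?_⟩
  · split_ifs <;> positivity
  · split_ifs
    · exact le_rfl
    · positivity
  · by_cases a : al D g x = 0
    · simp [a]
    · rw [if_pos (h g a)]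
  · by_cases a : al D g x = 0
    · simp [a]
    · rw [if_neg (h g a)]

variable {B : Bk}

lemma nbr1 (hD : 0 < B.D) {g g' : Cu} {x : V} (hx : x ∈ B.bx g (1 / 2)) (h : al B.D g' x ≠ 0) :
    Nbr 1 g g' := box_nbr hD (by norm_num) hx (al_supp hD h)

lemma bst_sum (hf : FrOk B.N B.lb B.fr) (hD : 0 < B.D) (x : V) (n : ℕ) :
    ∑ m ∈ Finset.range (8 * n), B.bstm m x = (∑ k ∈ Finset.range n,
      ∑ᶠ g, (if (B.c g k).boost then al B.D g x ^ 2 else 0)) * tb B.N ^ 2 := by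
  rw [ZtA.sum_eight, Finset.sum_mul]
  refine Finset.sum_congr rfl fun k _ => ?_
  have hS := (sup_al_sq hD).ite fun g => (B.c g k).boost
  have e : ∀ g x, (B.c g k).bst (B.fr g).O ((B.fr g).xc x) =
      (if (B.c g k).boost then al B.D g x ^ 2 else 0) * tb B.N ^ 2 := fun g x => by
    rw [ite_mul, zero_mul, al_eq_xc (D := B.D) (hf.fx g).2.1 (hf.fx g).1]; rfl
  have hK := hS.mul fun _ _ => tb B.N ^ 2
  rw [hS.eq_sum (by norm_num), Finset.sum_mul, ← hK.eq_sum (by norm_num), ← hK.sum_col (by norm_num)]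
  refine Finset.sum_congr rfl fun j hj => ?_
  have := Finset.mem_range.1 hj
  rw [Bk.bstm, show (8 * k + j) % 8 = j by omega, show (8 * k + j) / 8 = k by omega]
  simp only [e]

/-- the boost over a whole block -/
lemma boost (hf : FrOk B.N B.lb B.fr) (hN : Big B.N) {g : Cu} {x : V} (hx : x ∈ B.bx g (1 / 2)) :
    pq B.N * ∑ m ∈ Finset.range (8 * nb B.N), B.bstm m x ≤
      (if ∃ g', Nbr 1 g g' ∧ (B.c g' 0).low then pJ B.N ^ 10 / B.N else 0) ∧
    (if ∀ g', Nbr 1 g g' → (B.c g' 0).low ∧ 2 * etaS B.N ≤ (B.c g' 0).η then pJ B.N ^ 8 / B.N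
      else 0) ≤ (∑ m ∈ Finset.range (8 * nb B.N), B.bstm m x) / 100 := by
  have hD : 0 < B.D := (Bk.gd0 hf hN 0).D_pos
  have w := fun k => wt hD x fun g => (B.c g k).boost
  have e : tb B.N ^ 2 = pJ B.N ^ 8 / B.N := by
    rw [tb, div_pow, Real.sq_sqrt hN.N_pos.le]; ring
  have hJ := hN.J_pos
  have p0 : 0 < pJ B.N ^ 8 / B.N := div_pos (pow_pos hJ 8) hN.N_pos
  rw [bst_sum hf hD, e]
  constructor <;> split_ifs with h
  · have h1 : ∑ k ∈ Finset.range (nb B.N), _ ≤ ∑ _k ∈ Finset.range (nb B.N), (1 : ℝ) :=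
      Finset.sum_le_sum fun k _ => (w k).2.1
    rw [Finset.sum_const, Finset.card_range, nsmul_eq_mul, mul_one] at h1
    have h2 : 134 * pq B.N ≤ pJ B.N := by
      have := hN.q_pos
      refine le_of_log (by positivity) hJ ?_
      rw [Real.log_mul (by norm_num) this.ne', hN.log_q, hN.log_J]
      linarith [hN.L_ge, (logc_bd (show (1 : ℝ) ≤ 134 by norm_num)).2]
    rw [show pJ B.N ^ 10 / B.N = pJ B.N * pJ B.N * (pJ B.N ^ 8 / B.N) by ring, ← mul_assoc]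
    refine mul_le_mul_of_nonneg_right ?_ p0.le
    nlinarith [mul_le_mul_of_nonneg_left (h1.trans hN.nb_bd.2) hN.q_pos.le]
  · rw [Finset.sum_eq_zero fun k _ => (w k).2.2.2 fun g' a b => h ⟨g', nbr1 hD hx a, b.1⟩]
    simp
  · obtain ⟨m1, m2, m3, -⟩ := hN.mid_lt
    have h1 : ∑ _k ∈ Finset.Ico (kbo B.N) (ks B.N), (1 : ℝ) ≤ ∑ k ∈ Finset.range (nb B.N),
        ∑ᶠ g, (if (B.c g k).boost then al B.D g x ^ 2 else 0) :=
      (Finset.sum_congr rfl fun k hk => ((w k).2.2.1 fun g' a => ⟨(h g' (nbr1 hD hx a)).1,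
        (h g' (nbr1 hD hx a)).2, Finset.mem_Ico.1 hk⟩).symm).trans_le
      (Finset.sum_le_sum_of_subset_of_nonneg (fun k hk => Finset.mem_range.2
        ((Finset.mem_Ico.1 hk).2.trans m3)) fun k _ _ => (w k).1)
    rw [Finset.sum_const, Nat.card_Ico, nsmul_eq_mul, mul_one] at h1
    have h2 : 100 ≤ ks B.N - kbo B.N := by
      have := hN.nm_pos
      unfold ks kbo mid; omega
    have h3 : (100 : ℝ) ≤ (ks B.N - kbo B.N : ℕ) := by exact_mod_cast h2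
    nlinarith
  · exact div_nonneg (mul_nonneg (Finset.sum_nonneg fun k _ => (w k).1) p0.le) (by norm_num)

lemma Gm_hat {F : Fr} (hQ : F.Q.det ≠ 0) {f : V → V} (hf : Differentiable ℝ f) (Zs Z : V → V)
    (x : V) : (1 + (F.hm (jm Zs x) - 1))ᵀ * ((jm (F.fh f) (F.zc (Z x)))ᵀ *
      jm (F.fh f) (F.zc (Z x))) * (1 + (F.hm (jm Zs x) - 1)) = F.Oᵀ * Gm Zs Z f x * F.O := by
  have e : jm (F.fh f) (F.zc (Z x)) * F.hm (jm Zs x) = jm f (Z x) * jm Zs x * F.O := by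
    rw [(K3.p4 F hf _).1, zp_zc hQ, Fr.hm, Matrix.mul_assoc, ← Matrix.mul_assoc F.Q,
      ← Matrix.mul_assoc F.Q, Prof.q_inv hQ, Matrix.one_mul, Matrix.mul_assoc]
  rw [add_sub_cancel, ← Matrix.mul_assoc, ← transpose_mul, Matrix.mul_assoc, e]
  simp only [Gm, gram, transpose_mul, Matrix.mul_assoc]

/-- one end of the block -/
lemma endV : EvB fun B => FrOk B.N B.lb B.fr → ∀ (g : Cu) (f Zs Z : V → V) (x x' : V)
    (u θ Af p' : ℝ), Sm f → B.lab f x' = Z x → Tab (B.c g 0) ((B.fr g).hm (jm Zs x) - 1) u θ →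
    |jac ((B.fr g).fh f) (B.oh g f x') - 1| ≤ 1 / 100 →
    EB (B.ga g f x' - (B.c g 0).gref) (bm (B.c g 0).gb (hc B.N) (1 / 10)) → 0 ≤ Af → Af ≤ 9 * p' →
    p' ≤ (B.c g 0).p →
    |(B.ga g f x' - (B.c g 0).gref) 0 0 - (B.c g 0).η * Af| ≤
      2 * cg0 B.N + (B.c g 0).η * p' / 1000 →
    |(B.ga g f x' - (B.c g 0).gref) 0 1| ≤ 2 * cg0 B.N + (B.c g 0).η * p' / 1000 →
    |(B.ga g f x' - (B.c g 0).gref) 1 1| ≤ 2 * cg0 B.N →
    |Vf B.N (Gm Zs Z f x) - (B.c g 0).V2 ((B.fr g).hm (jm Zs x) - 1) - (B.c g 0).η * Af / 2| ≤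
      7 * cg0 B.N + (B.c g 0).η * p' / 1500 ∧
    |tt B.N (Gm Zs Z f x) - (B.c g 0).t + u + Af / 2| ≤
      (B.c g 0).dk / 2 + θ ^ 2 / pq B.N + p' / 1500 := by
  filter_upwards [fvT, ev_big] with N hv hN B hB hf g f Zs Z x x' u θ Af p' sf hl T hj hg a0 a1 a2
    g0 g1 g2
  subst hB
  have G := Bk.gd0 hf hN g
  have e : B.oh g f x' = (B.fr g).zc (Z x) := congrArg _ hl
  have := hv (B.c g 0) rfl G.ok _ (jm ((B.fr g).fh f) ((B.fr g).zc (Z x))) _ u θ Af p' T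
    (by rw [← e]; exact hj.trans (by norm_num)) (by rw [← e]; rfl) (fun i j => (hg i j).trans (by
      have a : (B.c g 0).gb ≤ 2 * (B.c g 0).gb := by linarith [G.gb_pos]
      have b : hc B.N ≤ 2 * hc B.N := by linarith [hN.hc_pos]
      have c : (1 / 10 : ℝ) ≤ 1 / 5 := by norm_num
      fin_cases i <;> fin_cases j
      exacts [a, a, b, a, a, b, b, b, c])) a0 a1 a2 g0 g1 g2
  obtain ⟨c1, c2⟩ := conj (hf.fx g).2.1 B.N (Gm Zs Z f x)
  rw [Gm_hat (hf.fx g).2.2.1.ne' (sf.differentiable (by simp))] at this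
  rw [← c1, ← c2]
  exact this

lemma exists_NS (hf : FrOk B.N B.lb B.fr) (hN : Big B.N) (x : V) : ∃ i, B.NS i x := by
  have p : 0 < B.hsp := mul_pos (hN.np_pos _) (Bk.gd0 hf hN 0).lb_pos
  obtain ⟨i, hi⟩ := exists_box p x
  exact ⟨i, le_trans hi (by linarith)⟩

lemma led_num {N : ℕ} (h : Big N) : 4 * (pX N / (qp N (7 / 2) * N)) ≤ cg0 N ∧
    4 * (1206 * pJ N / (N * pJ N ^ 4)) ≤ cg0 N ∧ 4 * (pX N / (qp N (18 / 5) * N)) ≤ cg0 N ∧
    uV N * (qp N (1 / 5) * pJ N) ≤ cg0 N ∧ 10 * (Jp N (5 / 2) / N) ≤ pJ N ^ 3 / N ∧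
    1000 * (N : ℝ) ^ 3 ≤ (N : ℝ) ^ 4 ∧ 1000 * np N (23 / 10) ≤ (N : ℝ) ^ 4 ∧
    2 * np N (-3 / 10) ≤ pq N * Real.sqrt (pJ N) ∧
    10 * (pq N ^ 2 * np N (11 / 10)) ≤ (N : ℝ) ^ 3 ∧ 10 * np N (21 / 10) ≤ (N : ℝ) ^ 3 ∧
    10 * (pq N * Real.sqrt (pJ N) * np N (11 / 10)) ≤ (N : ℝ) ^ 3 ∧ qp N (2 / 5) ^ 2 ≤ pq N := by
  have := h.X_pos; have := h.N_pos; have := h.J_pos; have := h.q_pos; have := h.cg0_pos
  have := h.uV_pos; have := h.qp_pos (7 / 2); have := h.qp_pos (18 / 5); have := h.qp_pos (1 / 5)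
  have := h.qp_pos (2 / 5); have := h.Jp_pos (5 / 2); have := h.np_pos (23 / 10)
  have := h.np_pos (-3 / 10); have := h.np_pos (11 / 10); have := h.np_pos (21 / 10)
  have := h.L_ge; have := h.J_ge; have := log2_bd.2; have := log10_bd.2
  have := (logc_bd (show (1 : ℝ) ≤ 4 by norm_num)).2
  have := (logc_bd (show (1 : ℝ) ≤ 1206 by norm_num)).2
  have := (logc_bd (show (1 : ℝ) ≤ 1000 by norm_num)).2
  refine ⟨?_, ?_, ?_, ?_, ?_, ?_, ?_, ?_, ?_, ?_, ?_, ?_⟩ <;>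
    refine le_of_log (by positivity) (by positivity) ?_ <;>
    simp (disch := positivity) only [Real.log_div, Real.log_mul, Real.log_pow, Real.log_sqrt,
      h.log_q, h.log_np, h.log_cg0, h.log_X, h.log_N, h.log_Jp, h.log_qp, h.log_J, h.log_uV,
      Nat.cast_ofNat] <;> linarith

/-- the lateral entries of the Gram matrix at the end of a band after `mid` -/
lemma rel0 (hf : FrOk B.N B.lb B.fr) (hN : Big B.N) {k : ℕ} (hk : k < nb B.N) (hm : mid B.N < k)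
    {s : St} (il : B.IL k 9 s) (ig : B.IG k 9 s.f s.ft s.xs s.Af) (f0 : s.ft 0 = B.f0) {g : Cu}
    {x : V} (hx : x ∈ B.bx g 1) {b d : ℝ} (g0 : EB (B.ga g B.f0 x - (B.c g 0).gref) (bm (cg0 B.N) b d)) :
    |(B.ga g s.f x - (B.c g 0).gref) 0 0 - (B.c g 0).η *
      if B.pushN g then s.Af (B.lab (s.ft (mid B.N)) x) else 0| ≤
      2 * cg0 B.N + (B.c g 0).η * (if B.pushN g then (B.c g 0).p else 0) / 1000 ∧
    |(B.ga g s.f x - (B.c g 0).gref) 0 1| ≤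
      2 * cg0 B.N + (B.c g 0).η * (if B.pushN g then (B.c g 0).p else 0) / 1000 ∧
    |(B.ga g s.f x - (B.c g 0).gref) 1 1| ≤ 2 * cg0 B.N := by
  obtain ⟨i, hi⟩ := exists_NS hf hN x
  have r := ig.rel 0 (Nat.zero_le _) g x hx i hi
  obtain ⟨n1, n2, n3, -⟩ := led_num hN
  have s1 := Ledg.SG_le hf (Ledg.lh hN hf hk le_rfl il i) g (8 * 0)
  have s2 : ((cnt k 9 - 9 * 0 : ℕ) : ℝ) / (B.N * pJ B.N ^ 4) ≤ 1206 * pJ B.N / (B.N * pJ B.N ^ 4) :=
    div_le_div_of_nonneg_right (hN.cnt_le hk le_rfl) (by have := hN.J_pos; positivity)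
  have e : B.crs g 0 k 9 ↔ B.pushN g := ⟨fun h => h.2.2, fun h => ⟨Nat.zero_le _, .inl hm, h⟩⟩
  have a1 : _ ≤ cg0 B.N := g0 0 0
  have a2 : _ ≤ cg0 B.N := g0 0 1
  have a3 : _ ≤ cg0 B.N := g0 1 1
  have r1 := r 0 0
  have r2 := r 0 1
  have r3 := r 1 1
  rw [f0] at r1 r2 r3
  have pc := hN.cg0_pos
  by_cases h : B.pushN g
  · rw [if_pos (e.2 h), if_pos (e.2 h)] at r1 r2 r3
    rw [if_pos h, if_pos h]
    simp only [Matrix.sub_apply, Matrix.add_apply, Matrix.smul_apply, smul_eq_mul, abs_le] at *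
    have b1 : E00 0 0 = 1 := rfl
    have b2 : E00 0 1 = 0 := rfl
    have b3 : E00 1 1 = 0 := rfl
    have b4 : (B.c g 0).LA 0 0 = (B.c g 0).η * (B.c g 0).p / 1000 := rfl
    have b5 : (B.c g 0).LA 0 1 = (B.c g 0).η * (B.c g 0).p / 1000 := rfl
    have b6 : (B.c g 0).LA 1 1 = pX B.N / (qp B.N (18 / 5) * B.N) := rfl
    have b7 : ∀ a b c : ℝ, bm a b c 0 0 = a ∧ bm a b c 0 1 = a ∧ bm a b c 1 1 = a :=
      fun _ _ _ => ⟨rfl, rfl, rfl⟩
    rw [b1, b4, (b7 _ _ _).1] at r1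
    rw [b2, b5, (b7 _ _ _).2.1] at r2
    rw [b3, b6, (b7 _ _ _).2.2] at r3
    exact ⟨⟨by linarith, by linarith⟩, ⟨by linarith, by linarith⟩, by linarith, by linarith⟩
  · rw [if_neg (mt e.1 h), if_neg (mt e.1 h), sub_zero, add_zero] at r1 r2 r3
    rw [if_neg h, if_neg h]
    simp only [Matrix.sub_apply, abs_le] at *
    have b7 : ∀ a b c : ℝ, bm a b c 0 0 = a ∧ bm a b c 0 1 = a ∧ bm a b c 1 1 = a :=
      fun _ _ _ => ⟨rfl, rfl, rfl⟩
    rw [(b7 _ _ _).1] at r1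
    rw [(b7 _ _ _).2.1] at r2
    rw [(b7 _ _ _).2.2] at r3
    exact ⟨⟨by linarith, by linarith⟩, ⟨by linarith, by linarith⟩, by linarith, by linarith⟩

lemma ph_le (j k : ℕ) : ph j k 9 ≤ 2 := by
  have : (0 : ℝ) < 1 / 2 ^ (k - j) := by positivity
  have e : ph j k 9 = 2 - 1 / 2 ^ (k - j) := by unfold ph; push_cast; ring
  linarith

/-- the label at the band `mid` is close to the image of `x` at that time -/
lemma near_mid (hf : FrOk B.N B.lb B.fr) (hN : Big B.N) {k : ℕ} (hm : mid B.N < k) {s : St}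
    (iz : B.IZ k 9 s) (ig : B.IG k 9 s.f s.ft s.xs s.Af) {g : Cu} {x x' : V} (hx : x ∈ B.bx g 1)
    (hx' : x' ∈ B.bx g 1) (hl : B.lab s.f x' = B.Z s x) :
    (∀ i, i ≠ 2 → |B.oh g (s.ft (mid B.N)) x' i -
      (B.fr g).hat (s.zt (mid B.N)) ((B.fr g).xc x) i| ≤
      3 * pq B.N * Real.sqrt (pJ B.N) * (B.c g (mid B.N)).hs i) ∧
    |B.oh g (s.ft (mid B.N)) x' 2 - (B.fr g).hat (s.zt (mid B.N)) ((B.fr g).xc x) 2| ≤
      (B.N : ℝ) ^ 3 * (B.c g (mid B.N)).lam := by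
  obtain ⟨m1, m2, m3, -⟩ := hN.mid_lt
  have G := Bk.gd hf hN g (show mid B.N ≤ nb B.N by omega)
  obtain ⟨d1, d2⟩ := ig.dl _ hm.le g x' hx'
  have d3 := iz.dz _ hm.le g x hx
  obtain ⟨-, -, -, -, -, -, -, n1, n2, n3, n4, -⟩ := led_num hN
  have e : ∀ i, ((B.fr g).Q⁻¹ *ᵥ (B.Z s x - s.zt (mid B.N) x)) i =
      B.oh g s.f x' i - (B.fr g).hat (s.zt (mid B.N)) ((B.fr g).xc x) i := fun i => by
    rw [GeoP.hat_xc (hf.fx g).2.1, Bk.oh, hl, Fr.zc, Fr.zc, ← Pi.sub_apply (_ *ᵥ _), ← mulVec_sub,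
      sub_sub_sub_cancel_right]
  have p := ph_le (mid B.N) k
  have pq' := mul_pos hN.q_pos hN.sqrtJ_pos
  have a : ∀ i, |B.oh g s.f x' i - (B.fr g).hat (s.zt (mid B.N)) ((B.fr g).xc x) i| ≤
      pq B.N * Real.sqrt (pJ B.N) * (B.c g (mid B.N)).hs i * 2 := fun i => by
    rw [← e]
    exact (d3 i).trans (mul_le_mul_of_nonneg_left p (mul_pos pq' (G.hs_pos i)).le)
  refine ⟨fun i hi => ?_, ?_⟩
  · obtain ⟨a1, a2⟩ := abs_le.1 (a i)
    obtain ⟨a3, a4⟩ := abs_le.1 ((d1 i hi).trans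
      (mul_le_mul_of_nonneg_left p (mul_pos (hN.np_pos _) (G.hs_pos i)).le))
    have := mul_le_mul_of_nonneg_right n1 (G.hs_pos i).le
    exact abs_le.2 ⟨by linarith, by linarith⟩
  · have e1 : (B.c g (mid B.N)).hs 2 = np B.N (11 / 10) * (B.c g (mid B.N)).lam := rfl
    have e2 : B.yk (mid B.N) = np B.N (11 / 10) * (B.c g (mid B.N)).lam := rfl
    have pl := G.lam_pos
    have a0 := a 2
    have p1 := hN.np_pos (11 / 10); have p2 := hN.np_pos (21 / 10); have p3 := hN.q_pos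
    rw [e1] at a0
    rw [e2] at d2
    obtain ⟨a1, a2⟩ := abs_le.1 a0
    obtain ⟨a3, a4⟩ := abs_le.1 (d2.trans (add_le_add (mul_le_mul_of_nonneg_left p (by positivity))
      (show _ ≤ 2 * np B.N (21 / 10) * (B.c g (mid B.N)).lam by
        split_ifs
        · exact le_rfl
        · positivity)))
    have := mul_le_mul_of_nonneg_right n2 pl.le
    have := mul_le_mul_of_nonneg_right n3 pl.le
    have := mul_le_mul_of_nonneg_right n4 pl.le
    have : 0 < (B.N : ℝ) ^ 3 * (B.c g (mid B.N)).lam := mul_pos (pow_pos hN.N_pos 3) pl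
    exact abs_le.2 ⟨by linarith, by linarith⟩

/-- the flags of the cube and of its neighbours -/
lemma flags : EvB fun B => FrOk B.N B.lb B.fr → ∀ g,
    (B.pushN g → ((B.c g 0).VG ≤ Real.log B.N - 1 + 1 / pq B.N ∧ (B.c g 0).η ≤ 6 * etaS B.N) ∨
      tE B.N - 1 / (pq B.N * pR B.N) ≤ (B.c g 0).t) ∧
    ((∃ g', Nbr 1 g g' ∧ (B.c g' 0).low) → (B.c g 0).VG ≤ Real.log B.N - 1 + 1 / pq B.N) ∧
    (((B.c g 0).VG ≤ Real.log B.N - 1 - 1 / pq B.N ∧ (B.c g 0).η ≤ 4 * etaS B.N) ∨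
      tE B.N + 1 / (pq B.N * pR B.N) ≤ (B.c g 0).t → ∀ g', Nbr 1 g g' → (B.c g' 0).push) ∧
    ((B.c g 0).VG ≤ Real.log B.N - 1 - 1 / pq B.N → 3 * etaS B.N ≤ (B.c g 0).η →
      ∀ g', Nbr 1 g g' → (B.c g' 0).low ∧ 2 * etaS B.N ≤ (B.c g' 0).η) := by
  filter_upwards [vtr, ev_big] with N hv hN B hB hf g
  subst hB
  have n1 : np B.N (-15) ≤ 1 / (pq B.N * pR B.N) := (hi_num (Bk.gd0 hf hN g)).2.2.2.2.2.2.1
  have n2 : 1 / (pq B.N * pR B.N) ≤ 1 / pq B.N :=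
    one_div_le_one_div_of_le hN.q_pos (le_mul_of_one_le_right hN.q_pos.le (by linarith [hN.R_ge]))
  have v : ∀ g', Nbr 2 g g' → |(B.c g 0).VG - (B.c g' 0).VG| ≤ np B.N (-15) ∧
      |(B.c g 0).t - (B.c g' 0).t| ≤ np B.N (-15) := fun g' n =>
    (hv (B.fr g) (B.fr g') B.lb ((B.fr g).unm 1) (hf.fx g).2.1 (hf.fx g').2.1 (hf.fx g).2.2.1
      (hf.fx g').2.2.1 (hf.cp g g' (n.mono (by norm_num))) (hf.fx g).2.2.2.2.2 (hf.fx g').2.2.2.2.2
      fun i j => by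
        rw [hm_unm (hf.fx g).2.1 (hf.fx g).2.2.1.ne', sub_self]
        exact abs_zero.trans_le (show (0 : ℝ) ≤ 1 / 100 by norm_num)).2
  have lw : ∀ g', (B.c g' 0).low ↔ (B.c g' 0).VG ≤ Real.log B.N - 1 := fun _ => Iff.rfl
  have m : ∀ {g'}, Nbr 1 g g' → Nbr 2 g g' := fun n => n.mono (by norm_num)
  refine ⟨fun p => ?_, fun ⟨g', n, l⟩ => ?_, fun h g' n => ?_, fun h1 h2 g' n => ⟨?_, ?_⟩⟩
  · have e := Bk.pushN_η hf hN p (Nbr.refl' (by norm_num) g)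
    obtain ⟨g', n, p | p⟩ := p
    · exact .inl ⟨by linarith [(abs_le.1 (v g' n).1).2, (lw g').1 p.1], e⟩
    · have : tE B.N ≤ (B.c g' 0).t := p
      exact .inr (by linarith [(abs_le.1 (v g' n).2).1])
  · linarith [(abs_le.1 (v g' (m n)).1).2, (lw g').1 l]
  · rcases h with h | h
    · exact .inl ⟨(lw g').2 (by linarith [(abs_le.1 (v g' (m n)).1).1, h.1]),
        (Bk.nb0 hf hN (n.mono (by norm_num))).le_S (by norm_num) h.2⟩
    · exact .inr (show tE B.N ≤ _ by linarith [(abs_le.1 (v g' (m n)).2).2])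
  · exact (lw g').2 (by linarith [(abs_le.1 (v g' (m n)).1).1])
  · exact (Bk.nb0 hf hN (n.mono (by norm_num))).S_le (by norm_num) h2

end BlockP

end
end Pool.Agent.MP_20bec2_an.T3

end MrgPart0

-- ======== part 1: formerly Pool.Agent.MP_20bec2_an.T3.Block
section MrgPart1

/-! Row BLOCK: the facts about one point over one block. -/

set_option autoImplicit false
set_option linter.unusedSectionVars false
open Set Filter Matrix

namespace Pool.Agent.MP_20bec2_an.T3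
noncomputable section
open Classical Prof Glue

namespace BlockP

variable {B : Bk}

/-- noise, equaliser and long slide at one point -/
lemma noise (hG : B.G) (hN : Big B.N) {k : ℕ} (hm : mid B.N < k) {s : St} (iz : B.IZ k 9 s)
    (ip : B.IP k 9 s) (ig : B.IG k 9 s.f s.ft s.xs s.Af) {g : Cu} (hp : B.pushN g) {x x' : V}
    (hx : x ∈ B.bx g (1 / 2)) (hx' : x' ∈ B.bx g 1) (hl : B.lab s.f x' = B.Z s x)
    (hd : ‖B.oh g (s.ft (mid B.N)) x' - (B.fr g).zc (B.Z0 x')‖ ≤ np B.N (23 / 10) * B.lb) :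
    ∃ n θ Af : ℝ, Af = s.Af (B.lab (s.ft (mid B.N)) x') ∧ 0 ≤ Af ∧ Af ≤ 9 * (B.c g 0).p ∧
      EB2 ((B.fr g).hm (s.Nth x) + (B.fr g).hm (s.Neq x) - !![n, 0, θ; 0, 0, 0; 0, 0, 0])
        (cm (np B.N (-10))) ∧ |n| ≤ 3 * (θ ^ 2 + (B.c g 0).p) ∧
      θ ^ 2 ≤ pq B.N * pJ B.N * (B.c g 0).p ∧
      θ ^ 2 / 4 - (B.c g 0).p / 400 ≤ Af / 2 + (n + θ ^ 2 / 2) ∧
      Af / 2 + (n + θ ^ 2 / 2) ≤ 4 * θ ^ 2 + 6 * (B.c g 0).p ∧
      ((∀ g', Nbr 1 g g' → (B.c g' 0).push) →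
        θ ^ 2 / 4 + (B.c g 0).p / 200 ≤ Af / 2 + (n + θ ^ 2 / 2)) := by
  have hf := hG.toFrOk
  have G := Bk.gd0 hf hN g
  have hD : 0 < B.D := G.D_pos
  have hO := (hf.fx g).2.1
  have hde := Bk.pushN_deep hf hN hp
  have pd' := ip.psh (.inl hm)
  have bx : ∀ r, 1 / 2 ≤ r → x ∈ B.bx g r := fun r hr => box_mono hD.le hr g hx
  have rx : ∀ r, 1 / 2 ≤ r → (B.fr g).xc x ∈ B.R g r := fun r hr => (GeoP.xc_mem hf).2 (bx r hr)
  have nz : nzn B.N k 9 = 8 := by unfold nzn; rw [if_neg (by omega), if_neg (by omega)]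
  have hz : B.oh g (s.ft (mid B.N)) x' ∈ B.R g (11 / 10) := by
    refine RX_mono _ hD.le (by norm_num) (RX_add (s := 1 / 100) hO
      (GeoP.fwd hG (by exact_mod_cast hN.N_pos) (by norm_num) hx') ?_)
    have := mul_le_mul_of_nonneg_right (led_num hN).2.2.2.2.2.2.1 G.lb_pos.le
    have e : B.D = (B.N : ℝ) ^ 4 * (B.c g 0).lb := rfl
    have e' : B.lb = (B.c g 0).lb := rfl
    have := mul_pos (hN.np_pos (23 / 10)) G.lb_pos
    rw [e'] at hd
    linarith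
  have ez : (B.fr g).zp (B.oh g (s.ft (mid B.N)) x') = B.lab (s.ft (mid B.N)) x' :=
    zp_zc (hf.fx g).2.2.1.ne' _
  obtain ⟨a0, a1⟩ := pd'.af g hde _ hz
  obtain ⟨b0, -, b1, b2⟩ := pd'.ab g hde _ (rx _ (by norm_num))
  obtain ⟨m1, m2⟩ := near_mid hf hN hm iz ig (bx 1 (by norm_num)) hx' hl
  have b3 := b2 _ hz m1 m2
  rw [xp_xc hO] at b0 b1 b3
  rw [ez] at a0 a1 b3
  obtain ⟨-, P1, P2, -⟩ := (pd'.pqs g hde).1.2.1 _ (rx _ (by norm_num))
  obtain ⟨y1, y2⟩ := ip.yv g hde x (bx 1 (by norm_num))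
  obtain ⟨q1, q2⟩ := ip.nq g hde x (bx _ (by norm_num))
  have th := ip.th g hde 0 2 [] (by simp) _ (rx 1 (by norm_num))
  rw [nz] at y1 y2 q1 q2 th
  obtain ⟨w0, w1, w2, -⟩ := wt hD x fun g' => col g' < 8 ∧ (B.c g' 0).push
  obtain ⟨-, -, -, -, -, n1, -, n2, -⟩ := hi_num G
  obtain ⟨n3, n4⟩ := q_inv G
  have pp := G.p_pos
  have n5 : 8 * np B.N (-4) ≤ 1 / pq B.N := by
    have : 1000 * np B.N (-4) ≤ 1 / pq B.N := n2
    linarith [hN.np_pos (-4)]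
  have n6 : 1 / pq B.N ≤ 1 / 10000000 := n4
  have e1 : (B.c g 0).p / pq B.N = (B.c g 0).p * (1 / pq B.N) := by ring
  push_cast at y1 y2 q1 q2
  obtain ⟨g1, g2, g3, g4⟩ := gain (e := (B.c g 0).p / pq B.N) (Y := s.Yv x)
    (s := (B.fr g).hm (s.Nth x) 0 2 ^ 2) pp.le (by rw [e1]; nlinarith) P1 P2
    (by rw [e1]; nlinarith) (by nlinarith) (sq_nonneg _) a0 a1 b0 b3
  refine ⟨_, _, _, rfl, a0, a1, fun i j _ => ?_, g1, ?_, g2, g3, fun h => g4 ?_ (b1 fun g' a =>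
    h g' (nbr1 hD hx a))⟩
  · have e : ∀ n θ : ℝ, (!![n, 0, θ; 0, 0, 0; 0, 0, 0] : Mx) = θ • E02 + n • E00 := fun n θ => by
      ext a b; fin_cases a <;> fin_cases b <;> simp [E02, E00, dg3]
    rw [e, add_sub_add_comm, Matrix.add_apply]
    refine (abs_add_le _ _).trans ((add_le_add (q1 i j) (q2 i j)).trans ?_)
    have : 1000 * np B.N (-15) ≤ np B.N (-10) := n1
    show 8 * np B.N (-15) + 8 * np B.N (-15) ≤ np B.N (-10)
    linarith [hN.np_pos (-15)]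
  · have t1 : |(B.fr g).hm (s.Nth x) 0 2| ≤ qp B.N (2 / 5) * Real.sqrt (pJ B.N * (B.c g 0).p) := by
      simpa [T3.hp, pds, xp_xc hO] using th
    have t2 := sq_le_sq' (abs_le.1 t1).1 (abs_le.1 t1).2
    have p2 := mul_pos hN.J_pos pp
    rw [mul_pow, Real.sq_sqrt p2.le] at t2
    rw [mul_assoc]
    exact t2.trans (mul_le_mul_of_nonneg_right (led_num hN).2.2.2.2.2.2.2.2.2.2.2 p2.le)
  · rw [w2 fun g' a => ⟨col_lt g', h g' (nbr1 hD hx a)⟩] at y1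
    nlinarith

lemma hm_split (F : Fr) (A A' M M' : Mx) :
    F.hm (A + A') - 1 = F.hm (A - M - M') - 1 + (F.hm M + F.hm M') + F.hm A' ∧
      F.hm (A + A') - 1 = F.hm A - 1 + F.hm A' := by
  simp only [Fr.hm, Matrix.mul_add, Matrix.add_mul, Matrix.mul_sub, Matrix.sub_mul]
  constructor <;> abel

lemma hm_zero (F : Fr) : F.hm 0 = 0 := by simp [Fr.hm]

end BlockP

open BlockP

theorem block (hL : LinkStmt) (hLab : LabStmt) (hZ : ZderStmt) (hM : MbiStmt) : BlockStmt := by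
  filter_upwards [ev_big, hL, hLab, hZ, hM, zt, tab0, tabP, midA, endV, flags]
    with N hN hL hLab hZ hM hzt h0 hP hA hE hF B hB ρ s H g x hx
  subst hB
  obtain ⟨x', hl, hd⟩ := hL B rfl ρ s H x
  obtain ⟨hρ, ok, hk, inv⟩ := H
  obtain ⟨m1, m2, m3, -⟩ := hN.mid_lt
  have m4 : mid B.N < nb B.N - 1 := by omega
  have m5 : tm (nb B.N - 1) 9 = 8 * nb B.N := by unfold tm; omega
  have nz : nzn B.N (nb B.N - 1) 9 = 8 := by
    unfold nzn; rw [if_neg (by omega), if_neg (by omega)]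
  generalize nb B.N - 1 = k at *
  have hf := ok.geo.toFrOk
  have G := Bk.gd0 hf hN g
  have Gk := Bk.gd hf hN g hk.le
  have hD : 0 < B.D := G.D_pos
  have bx : ∀ r, 1 / 2 ≤ r → x ∈ B.bx g r := fun r hr => box_mono hD.le hr g hx
  have x1 := bx 1 (by norm_num)
  obtain ⟨-, -, -, n1, n2, n3, -⟩ := led_num hN
  have hx' : x' ∈ B.bx g 1 := by
    refine box_mono hD.le (by norm_num) g (box_add (s := 1 / 2) hx ?_)
    have := mul_le_mul_of_nonneg_right n3 G.lb_pos.le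
    have e : B.D = (B.N : ℝ) ^ 4 * (B.c g 0).lb := rfl
    have e' : B.lb = (B.c g 0).lb := rfl
    rw [norm_sub_rev, e'] at hd
    linarith
  have mb := (hM B rfl ρ k 9 s hρ ok.toOk0 hk (by norm_num) le_rfl
    ⟨inv.il, inv.iz, inv.ip, inv.is, inv.iq⟩ inv.ir).1
  rw [← funext inv.iF.smf.2.2] at mb
  obtain ⟨lab, lab'⟩ := hLab B rfl ρ k 9 s ok.toOk0 hk le_rfl inv.il inv.ip.psh inv.iF mb
  obtain ⟨z1, z2, z3, -⟩ := (hZ B rfl ρ k 9 s ok.toOk0 hk le_rfl inv.il inv.iz inv.ip inv.iq).2 g x x1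
  obtain ⟨sZt, hzt⟩ := hzt B rfl ρ ok.geo ok.cred
  obtain ⟨t1, -, t2, t3, t4⟩ := (hzt g).2 x (bx _ (by norm_num))
  obtain ⟨f1, f2, f3, f4⟩ := hF B rfl hf g
  obtain ⟨b1, b2⟩ := boost hf hN hx
  obtain ⟨-, -, -, -, -, -, -, -, n4, n5, -, n6⟩ := hi_num G
  have pc := hN.cg0_pos
  have pz := G.zT_pos
  -- the start of the block
  have f0 := inv.iF.fk.1
  obtain ⟨-, d0, l0⟩ := lab' 0 (Nat.zero_le _)
  rw [f0] at d0 l0
  have g0 := ok.g0 g x x1
  have T0 : Tab (B.c g 0) (B.E0 g x) 0 0 := h0 _ rfl G.ok _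
    (fun _ i j hi => ((ok.e0 g x x1).1 i j hi).trans (by linarith [G.e0_bd i j]))
    (GeoP.eb_mono (ok.e0 g x x1).2 (by linarith))
  obtain ⟨s1, s2⟩ := hE B rfl hf g B.f0 B.Zs0 B.Z0 x x 0 0 0 0 d0.1
    (Function.leftInverse_invFun d0.2.1.1 _) T0 (l0 g x x1).2.1
    (fun i j => (g0 i j).trans (by
      have a : cg0 B.N ≤ (B.c g 0).gb := n6
      have b : (B.c g 0).B1 ≤ hc B.N := by
        have : 2 * (B.c g 0).B1 ≤ hc B.N := G.B1_le_hc
        linarith [G.B1_pos]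
      have c : 1 / pJ B.N ≤ 1 / 10 :=
        one_div_le_one_div_of_le (by norm_num) (by linarith [hN.J_ge, hN.L_ge])
      fin_cases i <;> fin_cases j
      exacts [a, a, b, a, a, b, b, b, c])) le_rfl (by norm_num) G.p_pos.le
    (by have : _ ≤ cg0 B.N := g0 0 0
        rw [mul_zero, sub_zero]; linarith)
    (by have : _ ≤ cg0 B.N := g0 0 1
        rw [mul_zero]; linarith)
    (by have : _ ≤ cg0 B.N := g0 1 1
        linarith)
  change |_ - (B.c g 0).V2 (B.E0 g x) - _| ≤ _ at s1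
  norm_num at s1 s2
  have cr : |(B.c g 0).VG - Vf B.N (Gm B.Zs0 B.Z0 B.f0 x)| ≤ 1 / (B.c g 0).q ∧
      |(B.c g 0).t - tt B.N (Gm B.Zs0 B.Z0 B.f0 x)| ≤ 1 / ((B.c g 0).q * pR (B.c g 0).N) := by
    have a : 1000 * cg0 B.N ≤ 1 / (B.c g 0).q ^ 2 := n5
    have b : 1 / (B.c g 0).q ^ 2 = 1 / (B.c g 0).q / (B.c g 0).q := by rw [div_div, sq]
    have c := (div_q G (q_inv G).1.le).2
    obtain ⟨v1, v2⟩ := abs_le.1 T0.v
    obtain ⟨v3, v4⟩ := abs_le.1 s1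
    rw [abs_sub_comm _ (tt _ _)]
    exact ⟨abs_le.2 ⟨by linarith, by linarith⟩, by linarith [dk_le G, G.dk_pos]⟩
  obtain ⟨s3, s4⟩ := abs_le.1 s1
  obtain ⟨s5, s6⟩ := abs_le.1 s2
  -- the moves
  obtain ⟨i, hi⟩ := exists_NS hf hN x
  obtain ⟨v1, v2⟩ := inv.iv.vv g x x1 i hi
  have v3 := (mul_le_mul_of_nonneg_left ((Ledg.lh hN hf hk le_rfl inv.il i).La_le 0)
    hN.uV_pos.le).trans n1
  rw [nz, m5] at v1 v2
  rw [m5] at v3
  rw [Finset.sum_add_distrib, ← Finset.mul_sum] at v1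
  rw [← Finset.sum_div] at v2
  -- the end of the block
  have hl' : B.lab s.f x' = B.Z s x := by
    rw [Bk.lab, ← hl]; exact Function.leftInverse_invFun lab.1.2.1.1 _
  obtain ⟨-, l1, -, -, -, -, l2, -⟩ := lab.2 g x' hx'
  have l3 : EB (B.ga g s.f x' - (B.c g 0).gref) (bm (B.c g 0).gb (hc B.N) (1 / 10)) := by
    have := l1
    rwa [Pm.GB, one_smul] at this
  obtain ⟨r1, r2, r3⟩ := rel0 hf hN hk m4 inv.il inv.iF.ig f0 hx' (ok.g0 g x' hx')
  obtain ⟨e1, e2⟩ := hm_split (B.fr g) (jm s.Zs x) (jm B.Zt x) (s.Nth x) (s.Neq x)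
  have eb : EB ((B.fr g).hm (jm s.Zs x + jm B.Zt x) - 1) (cm (2 * (B.c g 0).zT)) := by
    have a : 10 * np B.N (-93 / 100) ≤ nu B.N := (np93_le G).1
    have b : 2 * nu B.N ≤ (B.c g 0).zT := (np93_le G).2
    have c : (B.c g k).zT = (B.c g 0).zT := rfl
    rw [e2]
    exact GeoP.eb_mono (GeoP.eb_add z3 t1) (by linarith [hN.nu_pos])
  have hE' := fun u θ Af p' => hE B rfl hf g s.f (fun w => s.Zs w + B.Zt w) (B.Z s) x x' u θ Af p'
    lab.1.1 hl'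
  rw [jm_add inv.iz.sm.1 sZt] at hE'
  change _ = B.Eh s g x + _ + _ at e1
  have n7 : 1000 * cg0 B.N ≤ pX B.N / (pq B.N ^ 2 * B.N) := n4
  have pS := hN.etaS_pos
  have eA := hN.etaA_eq
  by_cases hp : B.pushN g
  · have hη : (B.c g 0).η ≤ 7 * etaS B.N := Bk.pushN_deep hf hN hp
    obtain ⟨-, t5, t6⟩ := t2 (by linarith)
    obtain ⟨-, -, lm⟩ := lab' _ m4.le
    obtain ⟨n, θ, Af, rfl, a0, a1, a2, a3, a4, a5, a6, a7⟩ := noise ok.geo hN m4 inv.iz inv.ip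
      inv.iF.ig hp hx hx' hl' (lm g x' hx').1
    rw [t5, hm_zero, add_zero, add_zero] at e1
    rw [t5, add_zero, e1] at eb hE'
    obtain ⟨T, u1⟩ := hP (B.c g k) rfl Gk.ok hη _ _ n θ z1 eb a2 a3 a4
    rw [if_pos hp, if_pos hp] at r1
    rw [if_pos hp] at r2 v1 v2
    obtain ⟨w1, w2⟩ := hE' _ _ _ _ ⟨T.eb, T.v, T.t, T.o, T.tk⟩ l2 l3 a0 a1 le_rfl r1 r2 r3
    change |(B.c g 0).V2 _ - (B.c g 0).V2 _ - (B.c g 0).η * _| ≤
      (B.c g 0).η * (_ + (B.c g 0).p) / pq B.N + cg0 B.N / 1000 at u1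
    rw [Finset.sum_eq_zero fun m _ => t6 m] at v1
    have pη := G.η_pos; have pp := G.p_pos
    have q1 : θ ^ 2 / pq B.N ≤ θ ^ 2 / Real.sqrt (pq B.N) :=
      div_le_div_of_nonneg_left (sq_nonneg _) hN.sqrtq_pos (Real.sqrt_le_iff.2
        ⟨hN.q_pos.le, by nlinarith [hN.q_ge]⟩)
    have q2 := mul_le_mul_of_nonneg_left q1 pη.le
    have q3 : (B.c g 0).η * (B.c g 0).p / pq B.N ≤ _ := (div_q G G.ηp_pos.le).2
    have q4 : (B.c g 0).η * (B.c g 0).p / pq B.N ^ 3 ≤ (B.c g 0).η * (B.c g 0).p / pq B.N :=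
      div_le_div_of_nonneg_left G.ηp_pos.le hN.q_pos
        (le_self_pow₀ (by linarith [hN.q_ge]) (by norm_num))
    have q5 : (B.c g 0).η * (θ ^ 2 + (B.c g 0).p) / pq B.N =
        (B.c g 0).η * (θ ^ 2 / pq B.N) + (B.c g 0).η * (B.c g 0).p / pq B.N := by ring
    have q6 : (0 : ℝ) ≤ if 4 / 10 * etaA B.N ≤ (B.c g 0).η then pJ B.N ^ 3 / B.N else 0 := by
      have := hN.J_pos
      split_ifs <;> positivity
    obtain ⟨u2, u3⟩ := abs_le.1 u1
    obtain ⟨w3, w4⟩ := abs_le.1 w1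
    obtain ⟨w5, w6⟩ := abs_le.1 w2
    have := G.ηp_pos
    push_cast at v1 v2
    refine ⟨_, θ ^ 2, _, _, _, f1, f2, f3, fun _ => hp, f4, fun h => absurd hp h, ⟨sq_nonneg _, a4⟩,
      ⟨a5, a6, a7⟩, ?_, ?_, ?_, cr⟩
    · rw [if_pos hp]
      change Vf B.N _ - Vf B.N _ ≤ _ + _ * (_ / Real.sqrt (pq B.N) + _) +
        pX B.N / (pq B.N ^ 2 * B.N) + if _ then pJ B.N ^ 10 / B.N else 0
      linarith
    · rw [if_pos hp]
      change _ - _ * (_ / Real.sqrt (pq B.N) + _) - pX B.N / (pq B.N ^ 2 * B.N) -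
        (if 4 / 10 * etaA B.N ≤ _ then pJ B.N ^ 3 / B.N else 0) +
        (if _ then pJ B.N ^ 8 / B.N else 0) ≤ Vf B.N _ - Vf B.N _
      linarith
    · rw [if_pos hp]
      change _ ≤ _ + _ / Real.sqrt (pq B.N) + _
      exact abs_le.2 ⟨by linarith, by linarith⟩
  · obtain ⟨o1, o2, -⟩ := inv.ip.off g hp x x1
    rw [o1, o2, hm_zero, add_zero, add_zero] at e1
    rw [if_neg hp, if_neg hp] at r1
    rw [if_neg hp] at r2 v1 v2
    have T : Tab (B.c g k) _ 0 0 := h0 _ rfl Gk.ok _ (fun h => by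
      have h' : (B.c g 0).η < etaS B.N := h
      rw [e1, (t2 (by linarith)).2.1, hm_zero, add_zero]; exact z1) eb
    obtain ⟨w1, w2⟩ := hE' _ _ _ _ ⟨T.eb, T.v, T.t, T.o, T.tk⟩ l2 l3 le_rfl (by norm_num)
      G.p_pos.le r1 r2 r3
    norm_num at w1 w2
    obtain ⟨w3, w4⟩ := abs_le.1 w1
    obtain ⟨w5, w6⟩ := abs_le.1 w2
    have key : (B.c g 0).V2 ((B.fr g).hm (jm s.Zs x + jm B.Zt x) - 1) - (B.c g 0).V2 (B.Eh s g x) ≤
        -∑ m ∈ Finset.range (8 * nb B.N), B.costm ρ m x + 10 * cg0 B.N ∧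
        -(if 4 / 10 * etaA B.N ≤ (B.c g 0).η then pJ B.N ^ 3 / B.N else 0) - cg0 B.N ≤
        (B.c g 0).V2 ((B.fr g).hm (jm s.Zs x + jm B.Zt x) - 1) - (B.c g 0).V2 (B.Eh s g x) := by
      rw [e1]
      rcases lt_or_ge (B.c g 0).η (95 / 100 * etaA B.N) with h | h
      · obtain ⟨-, t5, t6⟩ := t2 h
        have : (0 : ℝ) ≤ if 4 / 10 * etaA B.N ≤ (B.c g 0).η then pJ B.N ^ 3 / B.N else 0 := by
          have := hN.J_pos
          split_ifs <;> positivity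
        rw [t5, hm_zero, add_zero, Finset.sum_eq_zero fun m _ => t6 m]
        constructor <;> linarith
      · have h1 : etaS B.N / 2 ≤ (B.c g 0).η := by linarith
        have h2 : (B.c g k).zT = 2 * nu B.N := zT_hi (c := B.c g 0) h1
        obtain ⟨a1, a2⟩ := abs_le.1 (show _ ≤ cg0 B.N from hA (B.c g 0) rfl G.ok h1 _ _
          (GeoP.eb_mono z2 (show _ ≤ nu B.N by linarith)) t1)
        have : 0 ≤ Jp B.N (5 / 2) / B.N := div_nonneg (hN.Jp_pos _).le hN.N_pos.le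
        have : pX B.N / (pq B.N ^ 3 * B.N) = cg0 B.N := rfl
        rw [if_pos (by linarith)]
        constructor <;> linarith
    have pp := G.p_pos
    refine ⟨0, 0, _, _, _, f1, f2, f3, fun h => ⟨g, Nbr.refl' (by norm_num) g,
      h g (Nbr.refl' (by norm_num) g)⟩, f4, fun _ => ⟨rfl, rfl⟩, ⟨le_rfl, ?_⟩,
      ⟨by linarith, by linarith, fun h => absurd ⟨g, Nbr.refl' (by norm_num) g,
        h g (Nbr.refl' (by norm_num) g)⟩ hp⟩, ?_, ?_, ?_, cr⟩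
    · have := G.q_pos; have := G.J_pos; positivity
    · rw [if_neg hp]
      change Vf B.N _ - Vf B.N _ ≤ _ + _ + pX B.N / (pq B.N ^ 2 * B.N) +
        if _ then pJ B.N ^ 10 / B.N else 0
      linarith [key.1]
    · rw [if_neg hp]
      change _ - _ - pX B.N / (pq B.N ^ 2 * B.N) -
        (if 4 / 10 * etaA B.N ≤ _ then pJ B.N ^ 3 / B.N else 0) +
        (if _ then pJ B.N ^ 8 / B.N else 0) ≤ Vf B.N _ - Vf B.N _
      linarith [key.2]
    · rw [if_neg hp, zero_div]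
      exact abs_le.2 ⟨by linarith, by linarith⟩

end
end Pool.Agent.MP_20bec2_an.T3

end MrgPart1

-- marker of a merged file
example : 731051 + 57608 = 731051 + 57608 := rfl

end MrgPart1

-- marker of a merged file
example : 731051 + 57608 = 731051 + 57608 := rfl
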