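import Pool.Agent.MP_20bec2_an.T3.BrC

/-! Row BR: the refinement flux at the start of a band. -/

set_option autoImplicit false
open MeasureTheory Set Filter Matrix Topology

namespace Pool.Agent.MP_20bec2_an.T3
noncomputable section
open Classical Prof GeoP

namespace Br

lemma sym_bd {P : Mx} {h : V} {d e β lam : ℝ} (l0 : 0 < lam) (hl : ∀ i, lam ≤ h i) (e0 : 0 ≤ e)
    (hd : d * h 2 ≤ e * lam) (H : EB P (Bb d e (h 2) h))
    (h1 : |P 2 2 - β * h 2 ^ 2| ≤ e * (h 2 * h 2)) (i j : Fin 3) :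
    |(P + Pᵀ) i j - 2 * β * h 2 ^ 2 * dg3 0 0 1 i j| ≤ 30 * e * (h i * h j) := by
  have hh : ∀ i, 0 < h i := fun i => l0.trans_le (hl i)
  have a : ∀ i j, i ≠ 2 → |P i j| ≤ 10 * e * (h i * h j) := fun i j hi => by
    have := H i j
    simp only [Bb, of_apply, if_neg hi] at this
    linarith [mul_le_mul_of_nonneg_right (hd.trans (mul_le_mul_of_nonneg_left (hl i) e0)) (hh j).le]
  have b : ∀ j, j ≠ 2 → |P 2 j| ≤ 20 * e * (h 2 * h j) := fun j hj => by
    simpa only [Bb, of_apply, if_true, if_neg hj] using H 2 j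
  have p := mul_nonneg e0 (mul_pos (hh i) (hh j)).le
  rw [Matrix.add_apply, transpose_apply]
  by_cases hi : i = 2
  · subst hi
    by_cases hj : j = 2
    · subst hj
      rw [show dg3 0 0 1 2 2 = 1 from rfl]
      exact abs_le.2 ⟨by linarith [abs_le.1 h1], by linarith [abs_le.1 h1]⟩
    · rw [show dg3 0 0 1 2 j = 0 from diagonal_apply_ne _ (Ne.symm hj), mul_zero, sub_zero]
      linarith [abs_add_le (P 2 j) (P j 2), a j 2 hj, b j hj]
  · rw [show dg3 0 0 1 i j = 0 by fin_cases i <;> fin_cases j <;> simp [dg3] at hi ⊢, mul_zero,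
      sub_zero]
    by_cases hj : j = 2
    · subst hj
      linarith [abs_add_le (P i 2) (P 2 i), a i 2 hi, b i hi]
    · linarith [abs_add_le (P i j) (P j i), a i j hi, a j i hj]

variable {B : Bk} {k : ℕ} {Z u : V → V} {S : V → Mx}

lemma HS.bij (H : HS B k S) {S' : V → Mx} {hv t : ℝ} (K : B.KS k Z S' hv) (su : Sm u)
    (ub : ∀ g, ∀ x ∈ B.bx g 1, EB ((B.fr g).hm (jm u x)) (cm (np B.N (-9 / 10))) ∧
      ‖(B.fr g).Q⁻¹ *ᵥ u x‖ ≤ np B.N (-25) * (B.c 0 k).lam) (ht : t ∈ Icc (0 : ℝ) 1) :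
    Function.Bijective fun x => Z x + t • u x := by
  have b := H.big
  have l0 := (H.gd 0).lam_pos
  have dZ := K.sm.differentiable Inv.top_ne
  have t1 : |t| ≤ 1 := abs_le.2 ⟨by linarith [ht.1], ht.2⟩
  have hJ : 3 / Real.sqrt (pJ B.N) ≤ 1 / 1000 := by
    rw [div_le_iff₀ b.sqrtJ_pos]
    linarith [Real.le_sqrt_of_sq_le (show (3000 : ℝ) ^ 2 ≤ pJ B.N by linarith [b.J_ge, b.L_ge])]
  refine bij_add (ε := (B.c 0 k).lam) H.D0 ?_
    (fun g => ⟨x0_eq H.fo g, orth H.fo g, det_pos H.fo g⟩) K.bij dZ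
    ((su.const_smul t).differentiable Inv.top_ne) fun g x hx => ⟨?_, ?_, ?_⟩
  · have h1 : (B.c 0 k).lam ≤ B.lb := (H.gd 0).lam_le_lb
    have h2 : (2 : ℝ) ^ 4 ≤ (B.N : ℝ) ^ 4 := pow_le_pow_left₀ (by norm_num) (by linarith [H.N9]) 4
    show _ ≤ (B.N : ℝ) ^ 4 * B.lb
    nlinarith
  · obtain ⟨g', hg'⟩ := exists_box H.D0 x
    have a := (K.bd g' _ (RX_mono _ H.D0.le (by norm_num) ((xc_mem H.fo).2 hg'))).1
    rw [(K3.p5 _ dZ _).1, xp_xc (orth H.fo g')] at a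
    have d1 := dc_le H.N2
    exact eb_mono (hm_near (orth H.fo g) (orth H.fo g') (det_ne H.fo g')
      (H.fo.cp g g' (box_nbr H.D0 (by norm_num) hx hg')) (by linarith) a) (by linarith)
  · have e : jm (fun x => t • u x) x = t • jm u x := by
      ext i j
      exact pd_const_mul ..
    rw [e, Fr.hm, Matrix.mul_smul, Matrix.smul_mul]
    exact eb_mono (BiP.eb_smul (ub g x hx).1 t1) (by linarith [H.np_sm (a := -9 / 10) (by norm_num)])
  · rw [mulVec_smul, norm_smul, Real.norm_eq_abs]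
    have := mul_le_mul t1 (ub g x hx).2 (norm_nonneg _) zero_le_one
    linarith [mul_le_mul_of_nonneg_right (H.np_sm (a := -25) (by norm_num)) l0.le]

/-- the vertical entry of `Bm` is almost constant -/
lemma HS.vert (H : HS B k S) (H' : B.SB k (B.Rf k S) 1 (101 / 100) (np B.N (-22)) (np B.N (-22)))
    (g : Cu) : ∃ β : ℝ, -2 ≤ β ∧ β ≤ -1 ∧ ∀ x ∈ B.R g (99 / 100),
      |(B.fr g).cov (B.Bm k S) x 2 2 - β * B.yk k ^ 2| ≤ np B.N (-38 / 100) * (B.yk k * B.yk k) := by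
  have z0 := H.sub g (zero_mem_RX _ H.D0.le (by norm_num))
  have hh := (H.gd g).hs_pos
  have p := mul_pos H.y0 H.y0
  have a : |B.nS k S g 0 2 2 - 4| ≤ 1 := (ent hh (H.sb.bd g 0 z0)).2.2.trans H.t33_le
  refine ⟨(1 - B.nS k S g 0 2 2) / 2, by linarith [abs_le.1 a], by linarith [abs_le.1 a],
    fun x hx => ?_⟩
  have a1 : |(B.fr g).cov (B.Rf k S) x 2 2 / (B.yk k * B.yk k) - 1| ≤ np B.N (-22) :=
    (ent hh (H'.bd g x (H.sub g hx))).2.2
  have a2 : |(B.fr g).cov S x 2 2 / (B.yk k * B.yk k) - B.nS k S g 0 2 2| ≤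
      1 * np B.N (-39 / 100) := H.sb.osc g x (H.sub g hx) 0 z0 2 2
  have e := congrFun (congrFun (congrFun (cov_path (S := S) (D := B.Bm k S) (B.fr g) 1) x) 2) 2
  simp only [one_smul, ← rf_eq H.D0 (det_ne H.fo) (H.sb.sm.2 _), Matrix.add_apply,
    transpose_apply] at e
  rw [div_sub' p.ne', abs_div, abs_of_pos p, div_le_iff₀ p] at a1 a2
  have c1 := mul_le_mul_of_nonneg_right (H.big.np_le (show (-22 : ℝ) ≤ -38 / 100 by norm_num)) p.le
  have c2 := mul_le_mul_of_nonneg_right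
    (H.big.np_le (show (-39 / 100 : ℝ) ≤ -38 / 100 by norm_num)) p.le
  exact abs_le.2 ⟨by linarith [abs_le.1 a1, abs_le.1 a2], by linarith [abs_le.1 a1, abs_le.1 a2]⟩

lemma core : EvB fun B => ∀ (ρ : V → ℝ) (k : ℕ) (Z u : V → V) (S : V → Mx), Rho ρ → B.G →
    HS B k S → Sm u → (∀ g, ∀ x ∈ B.bx g 1, EB ((B.fr g).hm (jm u x)) (cm (np B.N (-9 / 10))) ∧
      ‖(B.fr g).Q⁻¹ *ᵥ u x‖ ≤ np B.N (-25) * (B.c 0 k).lam) →
    B.KS k Z S (B.yk k) → B.KS k (fun x => Z x + u x) (B.Rf k S) (B.yk k) →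
    B.KS k Z (B.SR k 0 S (B.yk k / 2)) (B.yk k / 2) →
    B.SB k (B.Rf k S) 1 (101 / 100) (np B.N (-22)) (np B.N (-22)) →
    (∀ g, ∀ x ∈ B.R g (995 / 1000), EB ((B.fr g).cov B.Db x - dg3 0 0 1) (cm (np B.N (-20))) ∧
      EB (nrm (B.c g k).hs ((B.fr g).cov (B.Dl k) x) - dg3 (1 / 32) (1 / 32) 0)
        (cm (np B.N (-20)))) →
    (∀ g, ∀ z ∈ B.R g (985 / 1000 - (k + 1) / B.N), ∀ i, i ≠ 2 → |(B.c g k).hs i *
      pd i ((B.fr g).den (dens ρ Z (B.SR k 0 S (B.yk k / 2)))) z| ≤ 2 * np B.N (-277 / 1000)) →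
    Sm (flux ρ Z S u (B.Bm k S)) ∧ (∀ z, dens ρ (fun x => Z x + u x) (B.Rf k S) z =
      dens ρ Z S z + dv (flux ρ Z S u (B.Bm k S)) z) ∧
    ∀ g, (B.c g k).RB ((B.fr g).vd (flux ρ Z S u (B.Bm k S))) (B.R g (98 / 100)) := by
  filter_upwards [wt, conv kg, kg] with N hW hC hK B hN
  subst hN
  intro ρ k Z u S hρ G H su ub K0 K1 K2 sb hD hR
  have b := H.big
  have hk := H.hk.le
  have y0 := H.y0
  have eR : B.Rf k S = fun x => S x + (B.Bm k S x + (B.Bm k S x)ᵀ) :=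
    funext fun x => rf_eq H.D0 (det_ne H.fo) (H.sb.sm.2 x)
  have Kt := fun t ht => ks_path (D := B.Bm k S) K0 (by simpa only [one_smul, ← eR] using K1) su
    H.cB ht (H.bij K0 su ub (t := t) ht)
  have P : HP B ρ k Z u S := ⟨H, su, fun g x hx => (ub g x hx).2, fun t ht g w w0 m h1 h2 h3 h4 => by
    simpa only [hat_path, cov_path] using hW B rfl ρ k _ _ g w w0 m hρ G hk (Kt t ht) h1 h2 h3 h4⟩
  have bρ : ∀ x, |ρ x| ≤ 2 := fun x => by
    have := abs_le.1 (hρ.2 x)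
    unfold eps0 at this
    exact abs_le.2 ⟨by linarith, by linarith⟩
  have gp : GKp ρ Z S u (B.Bm k S) := by
    have a1 := H.globv H.one_eb P.ub
    have a2 := H.glob H.one_eb
    simp only [one_mulVec, Matrix.one_mul, transpose_one, Matrix.mul_one] at a1 a2
    exact ⟨(hK B rfl k _ _ _ G hk K0 ρ 2 hρ.1 bρ).1, eR ▸ (hK B rfl k _ _ _ G hk K1 ρ 2 hρ.1 bρ).1,
      su.continuous, H.cB, _, fun x _ => ⟨(a1 x).trans (le_max_left _ _),
        eb_mono (a2 x) (le_max_right _ _)⟩⟩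
  refine ⟨(k2 k1 _ _ _ _ _ gp).1, eR ▸ (k2 k1 _ _ _ _ _ gp).2.1, fun g => ?_⟩
  obtain ⟨k31, k32, -, -, -, k36, -⟩ := k3 k1 (k2 k1) (B.fr g) (orth H.fo g) (det_pos H.fo g)
  obtain ⟨β, b1, b2, hβ⟩ := H.vert sb g
  rw [k36 _ _ _ _ _ gp]
  refine P.rb g (abs_le.2 ⟨b1, by linarith⟩) hβ fun t ht => ?_
  rw [← hat_path, ← cov_path, ← k31]
  have G' := H.gd g
  have hh := G'.hs_pos
  have e0 := b.np_pos (-38 / 100)
  have e1 := H.np_sm (a := -38 / 100) (by norm_num)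
  have e2 := b.np_le (show (-20 : ℝ) ≤ -38 / 100 by norm_num)
  have sm : Sm ((B.fr g).den (dens ρ (fun x => Z x + t • u x)
      fun x => S x + t • (B.Bm k S x + (B.Bm k S x)ᵀ))) := by
    rw [k31]
    exact (k1 _ _ _ (k32 _ _ _ (hK B rfl k _ _ _ G hk (Kt t ht) ρ 2 hρ.1 bρ).1)).1
  refine cl_of_pd (fun i => (hh i).le) sm fun j hj => cbl_of_local fun z hz => ?_
  have c := (hC B rfl ρ k k _ _ _ _ _ _ (32 * np B.N (-38 / 100)) g
    (Ac (B.c g k).hs (3 / 4 - 2 * β * (1 - t))) z hρ G hk hk K2 (Kt t ht) (by linarith) (by linarith)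
    (diagonal_transpose _) (Or.inr (Ac_form (by nlinarith [ht.2]) (by nlinarith [ht.1, ht.2])))
    (fun x hx => ⟨fun i => ?_, ?_⟩) (RX_mono _ H.D0.le ?_ hz)).2 (Ac_ne (hh 0))
    (Pi.single j ((B.c g k).hs j)) (2 * np B.N (-277 / 1000)) (Pi.single_eq_of_ne hj.symm _)
    (fun i => ?_) fun w hw => ?_
  · refine CBl.monoB (c.2.congr_fun fun x => by simp [Pi.single_apply]) ?_
    have h1 : Real.exp (-(B.N : ℝ)) ≤ np B.N (-277 / 1000) := by
      rw [b.np_eq]; exact Real.exp_le_exp.2 (by linarith [b.N_ge, b.J_pos])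
    have h2 := mul_le_mul_of_nonneg_left
      (b.np_le (show (-38 / 100 : ℝ) ≤ -277 / 1000 by norm_num)) b.q_pos.le
    linarith [mul_le_mul_of_nonneg_right b.q_ge (b.np_pos (-277 / 1000)).le,
      b.np_pos (-277 / 1000)]
  · rw [hat_path, add_sub_cancel_left, Pi.smul_apply, smul_eq_mul]
    have h1 := Ftr.abs_mul_le (abs_le.2 ⟨by linarith [ht.1], ht.2⟩ : |t| ≤ 1)
      ((abs_le_norm _ i).trans (P.ub g _ (H.bx_of hx)))
    have h2 := mul_le_mul (b.np_le (show (-25 : ℝ) ≤ -38 / 100 by norm_num)) (H.hs_bd g i).1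
      G'.lam_pos.le e0.le
    rw [show (B.c g k).hy (B.yk k) = (B.c g k).hs from rfl]
    rw [show (B.c 0 k).lam = (B.c g k).lam from rfl] at h1
    exact h1.trans (by linarith [mul_pos e0 (hh i)])
  · obtain ⟨d1, d2⟩ := hD g x (RX_mono _ H.D0.le (by norm_num) hx)
    have := diff_bd (Dl := (B.fr g).cov (B.Dl k) x) (Db := (B.fr g).cov B.Db x) hh ht
      (sym_bd G'.lam_pos (fun i => (H.hs_bd g i).1) e0.le (H.np_y g (by norm_num))
        (H.loc (H.bx_of hx)) (hβ x hx)) (eb_mono d2 e2) fun i j => by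
      have h1 := (H.np_y g (a := -20) (b := -10) (by norm_num)).trans
        (mul_le_mul_of_nonneg_left (H.hs_bd g i).1 (b.np_pos _).le)
      have h2 := (H.np_y g (a := -10) (b := -38 / 100) (by norm_num)).trans
        (mul_le_mul_of_nonneg_left (H.hs_bd g j).1 (b.np_pos _).le)
      have h3 : |((B.fr g).cov B.Db x - dg3 0 0 1) i j| ≤ np B.N (-20) := d1 i j
      rw [show (B.c g k).hs 2 = B.yk k from rfl]
      linarith [mul_le_mul_of_nonneg_left h3 (sq_nonneg (B.yk k)),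
        mul_le_mul_of_nonneg_right h1 y0.le, mul_le_mul_of_nonneg_right h2 (hh i).le]
    rw [show (B.c g k).hy (B.yk k) = (B.c g k).hs from rfl]
    convert this using 3
    rw [show (B.c g k).hs 2 = B.yk k from rfl]
    simp only [Fr.cov, Fr.cv1, Bk.SR, if_true, eR, Matrix.mul_add, Matrix.add_mul, Matrix.mul_sub,
      Matrix.sub_mul, Matrix.mul_smul, Matrix.smul_mul, transpose_mul, transpose_transpose,
      Matrix.mul_assoc]
    module
  · have : 1 / (2 * (B.N : ℝ)) ≤ 1 / 1000 :=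
      one_div_le_one_div_of_le (by norm_num) (by linarith [H.N9])
    linarith
  · rw [Pi.single_apply]
    split_ifs with h
    · rw [h, abs_of_pos (hh j)]
    · rw [abs_zero]; exact (hh i).le
  · have h1 := BiP.np_small b (a := 5 / 2) (a' := (4 : ℕ)) (by norm_num)
    rw [np_nat] at h1
    have h2 := mul_le_mul_of_nonneg_right h1 (lb_pos H.fo).le
    have h3 := mul_pos (b.np_pos (5 / 2)) (lb_pos H.fo)
    simpa [Pi.single_apply] using hR g w (RX_mono _ H.D0.le (by linarith [H.kN])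
      (RX_add (s := 1 / 1000) (orth H.fo g) hz
        (show _ ≤ 1 / 1000 * ((B.N : ℝ) ^ 4 * B.lb) by linarith))) j hj

lemma beta_le {c : Pm} (g : Gd c) : c.betaR (c.y / 2) ≤ np c.N (-277 / 1000) := by
  have b := g.big
  have h1 : 1 ≤ np c.N (3 / 10) := by rw [← np_zero c.N]; exact b.np_le (by norm_num)
  have h2 : max 1 (np c.N (3 / 10) * (c.y / 2) / c.y) ≤ np c.N (3 / 10) := max_le h1 (by
    rw [div_le_iff₀ g.y_pos]; nlinarith [g.y_pos])
  have h3 := Real.rpow_le_rpow (by positivity) h2 (show (0 : ℝ) ≤ 1 / 100 by norm_num)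
  refine (mul_le_mul_of_nonneg_left h3 (b.np_pos _).le).trans (le_of_eq ?_)
  rw [show np c.N (3 / 10) ^ (1 / 100 : ℝ) = np c.N (3 / 10 * (1 / 100)) from
    (Real.rpow_mul b.N_pos.le _ _).symm, ← b.np_add]
  norm_num

end Br

open Br in
theorem br (hz : BzStmt) (hs : BsStmt) (hk : KsdStmt) (hd : SderStmt) : BrStmt := by
  filter_upwards [hz, hs, hk, hd, core, ev_big] with N hz hs hk hd hC b B hN
  subst hN
  intro ρ k s nf ngc f1 Af ab Pv f' H
  obtain ⟨il, iz, -, ip, iq⟩ := hz B rfl ρ k s nf ngc f1 Af ab Pv f' H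
  have is := hs B rfl ρ k s nf ngc f1 Af ab Pv f' H
  obtain ⟨⟨hρ, ok, hkn, inv⟩, hp, -, -⟩ := H
  have G : B.G := ok.geo
  have K0 := hk B rfl ρ k 0 s ok.toOk0 hkn (by norm_num) ⟨inv.il, inv.iz, inv.ip, inv.is, inv.iq⟩
  have K1 := (hk B rfl ρ k 1 _ ok.toOk0 hkn (by norm_num) ⟨il, iz, ip, is, iq⟩).1
  have H : HS B k s.Sg := ⟨b, G.toFrOk, hkn, inv.is.pre rfl⟩
  have yr : ∀ g, (B.c g k).yrg (B.yk k / 2) := fun g => ⟨by
    show np B.N (-31 / 100) * B.yk k ≤ _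
    linarith [mul_le_mul_of_nonneg_right (H.np_sm (a := -31 / 100) (by norm_num)) H.y0.le, H.y0],
    le_rfl⟩
  have e : B.Z (B.sta k s nf ngc f' Af ab Pv) =
      fun x => B.Z s x + ((B.sta k s nf ngc f' Af ab Pv).Zn x - s.Zn x) :=
    funext fun x => (add_add_sub_cancel _ _ _).symm
  rw [e] at K1 ⊢
  refine hC B rfl ρ k _ _ _ hρ G H (iz.sm.2.1.sub inv.iz.sm.2.1) (fun g x hx => ?_) K0.1 K1
    (K0.2.2.1 _ (yr 0)) (is.post le_rfl)
    (fun g x hx => ((hd B rfl k 1 _ G.toFrOk hkn le_rfl (by norm_num) is g).1 x hx).2.2)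
    fun g z hz i hi => ?_
  · by_cases h : k = ks B.N
    · have := (hp h f').zb g x hx
      rw [← h] at this
      simp only [inv.iz.n0 (by unfold aft; omega), Pi.zero_apply, sub_zero]
      exact this
    · have e2 : (B.sta k s nf ngc f' Af ab Pv).Zn = s.Zn := if_neg h
      have e3 : jm (fun _ => 0) x = 0 := by
        ext i j
        simp [jm, pd]
      simp only [e2, sub_self, mulVec_zero, norm_zero, e3, Fr.hm, Matrix.mul_zero, Matrix.zero_mul]
      exact ⟨fun i j => abs_zero.trans_le (b.np_pos _).le,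
        (mul_pos (b.np_pos _) (H.gd 0).lam_pos).le⟩
  · have r := inv.ir.ri g _ (yr g) z hz
    have h1 : (B.c g k).betaR (B.yk k / 2) ≤ np B.N (-277 / 1000) := beta_le (H.gd g)
    rw [show B.yk k / 2 / B.yk k = 1 / 2 by field_simp [H.y0.ne']] at r
    simp only [Nat.cast_zero, zero_div, add_zero, mul_one] at r
    replace r := r.trans h1
    rw [one_div, inv_mul_le_iff₀ two_pos] at r
    refine le_trans (Real.abs_le_sqrt ?_) r
    fin_cases i
    exacts [le_add_of_nonneg_right (sq_nonneg _), le_add_of_nonneg_left (sq_nonneg _),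
      absurd rfl hi]

end
end Pool.Agent.MP_20bec2_an.T3
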