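import Pool.Agent.MP_20bec2_an.T3.Yq
import Pool.Agent.MP_20bec2_an.T3.CrA
import Pool.Agent.MP_20bec2_an.T3.Par4
import Pool.Agent.MP_20bec2_an.T3.Conv
import Pool.Agent.MP_20bec2_an.T3.Left
import Pool.Agent.MP_20bec2_an.T3.Vtr
import Pool.Agent.MP_20bec2_an.T3.K4
import Pool.Agent.MP_20bec2_an.T3.Final
import Pool.Agent.MP_20bec2_an.T3.Rem
import Pool.Agent.MP_20bec2_an.T3.Par3
import Pool.Agent.MP_20bec2_an.T3.Zt
import Pool.Agent.MP_20bec2_an.T3.Calc1b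
import Pool.Agent.MP_20bec2_an.T3.Calc2C

-- ======== part 0: formerly Pool.Agent.MP_20bec2_an.T3.CrB
section MrgPart0

/-! The change of block: numbers, the change of frame in the kernel scales, a crude density bound. -/

set_option autoImplicit false
open MeasureTheory Set Filter Matrix

namespace Pool.Agent.MP_20bec2_an.T3
noncomputable section
open Classical

namespace Cr
open GeoP Prof

lemma ev_nxt {P : ℕ → Prop} (h : ∀ᶠ N in atTop, P N) : ∀ᶠ N in atTop, P (nxt N) :=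
  (tendsto_atTop_mono (fun N => Nat.le_add_right N _) tendsto_id).eventually h

section num
variable {N : ℕ} (b : Big N)
include b

lemma qnp {a a' : ℝ} (h : a + 1 / 2000 ≤ a') : 10 ^ 12 * pq N * np N a ≤ np N a' := by
  have h1 := Real.pow_div_factorial_le_exp (x := 1 / 2000 * pJ N) (by linarith [b.J_pos]) 2
  rw [← b.np_eq, Nat.factorial_two, Nat.cast_ofNat] at h1
  have h2 : 10 ^ 12 * pq N ≤ np N (1 / 2000) := by
    nlinarith [b.q_le_J, b.J_ge, b.L_ge, b.J_pos]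
  refine (mul_le_mul_of_nonneg_right h2 (b.np_pos a).le).trans ?_
  rw [← b.np_add]
  exact b.np_le (by linarith)

lemma cnp {a a' : ℝ} (h : a + 1 / 2000 ≤ a') : 10 ^ 19 * np N a ≤ np N a' := by
  nlinarith [qnp b h, b.q_ge, b.np_pos a]

lemma np_sm {a : ℝ} (h : a ≤ -1 / 2000) : np N a ≤ 1 / 10 ^ 19 := by
  have := cnp b (a := a) (a' := 0) (by linarith)
  rw [np_zero] at this
  linarith

lemma big' : Big (nxt N) := b.mono b.nxt_le.1

lemma np_nxt {a : ℝ} (ha : |a| ≤ 5) : np (nxt N) a ≤ (1 + 1 / 10 ^ 8) * np N a ∧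
    np N a ≤ (1 + 1 / 10 ^ 8) * np (nxt N) a := by
  have b' := big' b
  have p := b.N_pos; have p' := b'.N_pos
  have h0 : pJ N ≤ pJ (nxt N) := Real.log_le_log p (by exact_mod_cast b.nxt_le.1)
  have h1 := Real.log_le_sub_one_of_pos (div_pos p' p)
  rw [Real.log_div p'.ne' p.ne', b.log_N, b'.log_N] at h1
  have h2 : (nxt N : ℝ) / N ≤ 1 + 1 / 10 ^ 9 := by
    rw [div_le_iff₀ p]; linarith [b.nxt_le.2, b.N_ge]
  have h3 := abs_le.1 (amul ha (show |pJ (nxt N) - pJ N| ≤ 1 / 10 ^ 9 from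
    abs_le.2 ⟨by linarith, by linarith⟩))
  have k : ∀ x y : ℝ, x ≤ y + 5 / 10 ^ 9 → Real.exp x ≤ (1 + 1 / 10 ^ 8) * Real.exp y := by
    intro x y hxy
    have e1 := Real.add_one_le_exp (y - x)
    have e2 : Real.exp y = Real.exp (y - x) * Real.exp x := by rw [← Real.exp_add]; ring_nf
    nlinarith [Real.exp_pos x, mul_le_mul_of_nonneg_right e1 (Real.exp_pos x).le]
  rw [b.np_eq, b'.np_eq]
  exact ⟨k _ _ (by linarith [h3.2]), k _ _ (by linarith [h3.1])⟩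

omit b in
lemma sqrt_np : √(N : ℝ) = np N (1 / 2) := Real.sqrt_eq_rpow _

lemma exp_sm : Real.exp (-(N : ℝ)) ≤ np N (-1) := by
  rw [b.np_eq]
  exact Real.exp_le_exp.2 (by linarith [b.N_ge, b.J_pos])
end num

/-- the lateral scales against the vertical scale -/
lemma l1_le {c : Pm} (g : Gd c) : c.l1 ≤ np c.N (1 / 2) * c.lam ∧ c.l1 ≤ np c.N (-3 / 5) * c.y := by
  have h1 : c.l1 ≤ np c.N (1 / 2) * c.lam :=
    mul_le_mul_of_nonneg_right (g.ro_le.trans_eq sqrt_np) g.lam_pos.le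
  refine ⟨h1, h1.trans_eq ?_⟩
  rw [Pm.y, ← mul_assoc, ← g.big.np_add]; norm_num

lemma lat_le {c : Pm} (g : Gd c) {i : Fin 3} (hi : i ≠ 2) : c.lam ≤ c.hs i ∧ c.hs i ≤ c.l1 := by
  fin_cases i
  exacts [⟨g.lam_le_l1, le_rfl⟩, ⟨le_rfl, g.lam_le_l1⟩, absurd rfl hi]

/-- the change of frame `T` with inverse `W` between the scales of `c` (old) and `c'` (new) -/
structure Fa (c c' : Pm) (T W : Mx) : Prop where
  pw : ∀ w, c'.yrg w → Pk (2 / 10 ^ 6) (scl (c'.hy w) (c.hy w) W)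
  tv : ∀ a b : ℝ, a ^ 2 + b ^ 2 ≤ 1 →
    ((T *ᵥ ![a * c'.l1, b * c'.lam, 0]) 0 / c.l1) ^ 2 +
      ((T *ᵥ ![a * c'.l1, b * c'.lam, 0]) 1 / c.lam) ^ 2 ≤ (1 + 1 / 10 ^ 4) ^ 2 ∧
    |(T *ᵥ ![a * c'.l1, b * c'.lam, 0]) 2| ≤ np c.N (-1 / 2) * c.y
  tq : ∀ i j, |T i j| * c'.hs j ≤ 4 * c.hs i
  t2 : ∀ j, j ≠ 2 → |T 2 j| * c'.hs j ≤ np c.N (-1 / 2) * c.y

lemma y_cmp {c c' : Pm} (g : Gd c) (hN : c'.N = nxt c.N) (hl : c'.lam = c.lam) :
    c.y ≤ c'.y ∧ c'.y ≤ (1 + 1 / 10 ^ 8) * c.y := by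
  have h1 : np c.N (11 / 10) ≤ np (nxt c.N) (11 / 10) :=
    Real.rpow_le_rpow g.N_pos.le (by exact_mod_cast g.big.nxt_le.1) (by norm_num)
  have h2 := (np_nxt g.big (a := 11 / 10) (by norm_num [abs_le])).1
  unfold Pm.y
  rw [hN, hl, ← mul_assoc]
  exact ⟨mul_le_mul_of_nonneg_right h1 g.lam_pos.le, mul_le_mul_of_nonneg_right h2 g.lam_pos.le⟩

lemma abs_scl {k k' : V} (hk : ∀ i, 0 < k i) (hk' : ∀ i, 0 < k' i) {W : Mx} {a i : Fin 3} {e : ℝ}
    (h : |W a i| * k i ≤ e * k' a) : |scl k' k W a i| ≤ e := by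
  show |W a i * k i / k' a| ≤ e
  rwa [abs_div, abs_mul, abs_of_pos (hk i), abs_of_pos (hk' a), div_le_iff₀ (hk' a)]

lemma fa_of {c c' : Pm} (g : Gd c) (g' : Gd c') (hN : c'.N = nxt c.N) (hl : c'.lam = c.lam)
    {T W S : Mx} (hWT : W * T = 1) (bT : EB T (cm 2)) (bW : EB W (cm 2))
    (h2 : ∀ i, i ≠ 2 → |T i 2| * c.y ≤ np c.N (-4 / 5) * c.hs i ∧
      |W i 2| * c.y ≤ np c.N (-4 / 5) * c.hs i)
    (hS : EB (nrm c.hs S - dg3 (1 / 4) (1 / 4) 4) (cm (1 / 10 ^ 9)))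
    (hS' : EB (nrm c'.hs (W * S * Wᵀ) - dg3 (1 / 4) (1 / 4) 4) (cm (1 / 10 ^ 7))) :
    Fa c c' T W := by
  have b := g.big
  have bT' : ∀ i j, |T i j| ≤ 2 := bT
  have bW' : ∀ i j, |W i j| ≤ 2 := bW
  obtain ⟨y1, y2⟩ := y_cmp g hN hl
  have l0 := g.lam_pos; have y0 := g.y_pos
  have a1 : ∀ i, i ≠ 2 → |W i 2| * c.y ≤ 1 / 10 ^ 7 * c'.hs i := fun i hi => by
    have e1 := mul_le_mul_of_nonneg_left ((lat_le g hi).2.trans (l1_le g).1) (b.np_pos (-4 / 5)).le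
    have e2 := mul_le_mul_of_nonneg_right (np_sm b (a := -4 / 5 + 1 / 2) (by norm_num)) l0.le
    have e3 := (lat_le g' hi).1
    rw [← mul_assoc, ← b.np_add] at e1
    rw [hl] at e3
    linarith [(h2 i hi).2]
  have a2 : ∀ i, i ≠ 2 → ∀ w, np c.N (-1 / 3) * c.y ≤ w → |W 2 i| * c.hs i ≤ 1 / 10 ^ 7 * w := by
    intro i hi w hw
    have e1 := mul_le_mul (bW' 2 i) ((lat_le g hi).2.trans (l1_le g).2) (g.hs_pos i).le zero_le_two
    have e2 := mul_le_mul_of_nonneg_right (cnp b (a := -3 / 5) (a' := -1 / 3) (by norm_num)) y0.le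
    have := mul_pos (b.np_pos (-3 / 5)) y0
    linarith
  have a3 : np c.N (-1 / 3) * c.y ≤ c'.y := by
    nlinarith [mul_le_mul_of_nonneg_right (np_sm b (a := -1 / 3) (by norm_num)) y0.le]
  rw [nrm_conj g.hs_pos g'.hs_pos] at hS'
  have hP := pk_of hS hS' (abs_scl g.hs_pos g'.hs_pos (a1 0 (by decide)))
    (abs_scl g.hs_pos g'.hs_pos (a1 1 (by decide)))
    (abs_scl g.hs_pos g'.hs_pos (a2 0 (by decide) _ a3))
    (abs_scl g.hs_pos g'.hs_pos (a2 1 (by decide) _ a3))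
  have a4 : 2 * (c'.l1 + c'.lam) ≤ np c.N (-1 / 2) * c.y := by
    have e1 := (l1_le g').2
    have e2 := (np_nxt b (a := -3 / 5) (by norm_num [abs_le])).1
    have e3 := mul_le_mul_of_nonneg_right (cnp b (a := -3 / 5) (a' := -1 / 2) (by norm_num)) y0.le
    rw [hN] at e1
    have e4 := mul_le_mul e2 y2 g'.y_pos.le (mul_pos (by norm_num) (b.np_pos _)).le
    have := mul_pos (b.np_pos (-3 / 5)) y0
    linarith [g'.lam_le_l1]
  have a5 : np c.N (-1 / 2) * c.y ≤ c.y := by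
    nlinarith [mul_le_mul_of_nonneg_right (np_sm b (a := -1 / 2) (by norm_num)) y0.le]
  have tv : ∀ a b : ℝ, a ^ 2 + b ^ 2 ≤ 1 →
      ((T *ᵥ ![a * c'.l1, b * c'.lam, 0]) 0 / c.l1) ^ 2 +
        ((T *ᵥ ![a * c'.l1, b * c'.lam, 0]) 1 / c.lam) ^ 2 ≤ (1 + 1 / 10 ^ 4) ^ 2 ∧
      |(T *ᵥ ![a * c'.l1, b * c'.lam, 0]) 2| ≤ np c.N (-1 / 2) * c.y := by
    intro a b hab
    have ha : |a| ≤ 1 := abs_le.2 (abs_le_of_sq_le_sq' (by nlinarith [sq_nonneg b]) zero_le_one)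
    have hb : |b| ≤ 1 := abs_le.2 (abs_le_of_sq_le_sq' (by nlinarith [sq_nonneg a]) zero_le_one)
    have e := congrArg (· *ᵥ ![a * c'.l1, b * c'.lam, 0]) hWT
    simp only [← mulVec_mulVec, one_mulVec] at e
    have u2 : |(T *ᵥ ![a * c'.l1, b * c'.lam, 0]) 2| ≤ np c.N (-1 / 2) * c.y := by
      have e1 := amul (bT' 2 0) (amul ha (abs_of_pos g'.l1_pos).le)
      have e2 := amul (bT' 2 1) (amul hb (abs_of_pos g'.lam_pos).le)
      have e3 : (T *ᵥ ![a * c'.l1, b * c'.lam, 0]) 2 =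
          T 2 0 * (a * c'.l1) + T 2 1 * (b * c'.lam) := by
        simp [mulVec, dotProduct, Fin.sum_univ_three]
      rw [e3]
      exact (abs_add_le _ _).trans (by linarith)
    refine ⟨?_, u2⟩
    generalize T *ᵥ ![a * c'.l1, b * c'.lam, 0] = u at e u2
    have u3 : |u 2 / c.y| ≤ 1 := by
      rw [abs_div, abs_of_pos y0, div_le_one y0]; exact u2.trans a5
    have p1 := g.l1_pos.ne'; have p2 := l0.ne'; have p3 := y0.ne'
    have p4 := g'.l1_pos.ne'; have p5 := g'.lam_pos.ne'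
    have r0 : scl c'.hs c.hs W 0 0 * (u 0 / c.l1) + scl c'.hs c.hs W 0 1 * (u 1 / c.lam) =
        a - scl c'.hs c.hs W 0 2 * (u 2 / c.y) := by
      have e0 := congrFun e 0
      simp only [mulVec, dotProduct, Fin.sum_univ_three, cons_val_zero] at e0
      simp only [scl, Pm.hs, of_apply, cons_val_zero, cons_val_one, cons_val]
      field_simp
      linarith
    have r1 : scl c'.hs c.hs W 1 0 * (u 0 / c.l1) + scl c'.hs c.hs W 1 1 * (u 1 / c.lam) =
        b - scl c'.hs c.hs W 1 2 * (u 2 / c.y) := by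
      have e0 := congrFun e 1
      simp only [mulVec, dotProduct, Fin.sum_univ_three, cons_val_zero, cons_val_one] at e0
      simp only [scl, Pm.hs, of_apply, cons_val_zero, cons_val_one, cons_val]
      field_simp
      linarith
    have t := hP.lat (u 0 / c.l1) (u 1 / c.lam)
    have s0 := amul hP.o02 u3
    have s1 := amul hP.o12 u3
    rw [r0, r1] at t
    generalize scl c'.hs c.hs W 0 2 * (u 2 / c.y) = x at t s0
    generalize scl c'.hs c.hs W 1 2 * (u 2 / c.y) = z at t s1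
    linarith [abs_le.1 (amul ha s0), abs_le.1 (amul hb s1), abs_le.1 (amul s0 s0),
      abs_le.1 (amul s1 s1)]
  have col : ∀ j, j ≠ 2 → (T 0 j * c'.hs j / c.l1) ^ 2 + (T 1 j * c'.hs j / c.lam) ^ 2 ≤
      (1 + 1 / 10 ^ 4) ^ 2 ∧ |T 2 j * c'.hs j| ≤ np c.N (-1 / 2) * c.y := fun j hj => by
    fin_cases j
    · simpa [mulVec, dotProduct, Fin.sum_univ_three, Pm.hs] using tv 1 0 (by norm_num)
    · simpa [mulVec, dotProduct, Fin.sum_univ_three, Pm.hs] using tv 0 1 (by norm_num)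
    · exact absurd rfl hj
  have t2 : ∀ j, j ≠ 2 → |T 2 j| * c'.hs j ≤ np c.N (-1 / 2) * c.y := fun j hj => by
    have := (col j hj).2
    rwa [abs_mul, abs_of_pos (g'.hs_pos j)] at this
  refine ⟨fun w hw => ?_, tv, fun i j => ?_, t2⟩
  · have w1 : np c.N (-1 / 3) * c.y ≤ w := by
      have e1 := (np_nxt b (a := -31 / 100) (by norm_num [abs_le])).2
      have e2 := cnp b (a := -1 / 3) (a' := -31 / 100) (by norm_num)
      have e3 := hw.1
      rw [hN] at e3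
      have e4 := mul_le_mul (show np c.N (-1 / 3) ≤ np (nxt c.N) (-31 / 100) by
        linarith [b.np_pos (-1 / 3)]) y1 y0.le ((big' b).np_pos _).le
      linarith
    have w0 : 0 < w := (mul_pos (b.np_pos _) y0).trans_le w1
    have w2 : w ≤ c.y := by linarith [hw.2]
    have k : ∀ i, 0 < c.hy w i := fun i => by
      fin_cases i
      exacts [g.l1_pos, l0, w0]
    have k' : ∀ i, 0 < c'.hy w i := fun i => by
      fin_cases i
      exacts [g'.l1_pos, g'.lam_pos, w0]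
    have o : ∀ i, i ≠ 2 → |W i 2| * w ≤ 2 / 10 ^ 6 * c'.hs i := fun i hi => by
      linarith [a1 i hi, mul_le_mul_of_nonneg_left w2 (abs_nonneg (W i 2)), g'.hs_pos i]
    have o' : ∀ i, i ≠ 2 → |W 2 i| * c.hs i ≤ 2 / 10 ^ 6 * w := fun i hi => by
      linarith [a2 i hi w w1]
    refine ⟨hP.r0.trans (by norm_num), hP.r1.trans (by norm_num), hP.r01.trans (by norm_num), ?_,
      abs_scl k k' (o 0 (by decide)), abs_scl k k' (o 1 (by decide)),
      abs_scl k k' (o' 0 (by decide)), abs_scl k k' (o' 1 (by decide))⟩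
    have e1 : scl (c'.hy w) (c.hy w) W 2 2 = scl c'.hs c.hs W 2 2 * (c'.y / c.y) := by
      have := g'.y_pos.ne'
      simp only [scl, Pm.hs, Pm.hy, of_apply, cons_val]
      field_simp
    have e2 : 1 ≤ c'.y / c.y := (one_le_div y0).2 y1
    have e3 : c'.y / c.y ≤ 1 + 1 / 10 ^ 8 := (div_le_iff₀ y0).2 y2
    obtain ⟨e4, e5⟩ := abs_le.1 hP.r2
    rw [e1, mul_pow]
    have e6 := pow_le_pow_left₀ zero_le_one e2 2
    have e7 := pow_le_pow_left₀ (zero_le_one.trans e2) e3 2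
    have e8 := sq_nonneg (scl c'.hs c.hs W 2 2)
    exact abs_le.2 ⟨by nlinarith, by nlinarith⟩
  · have pi := g.hs_pos i
    by_cases hj : j = 2
    · subst hj
      have e1 := mul_le_mul_of_nonneg_left y2 (abs_nonneg (T i 2))
      show |T i 2| * c'.y ≤ 4 * c.hs i
      by_cases hi : i = 2
      · subst hi
        have := mul_le_mul_of_nonneg_right (bT' 2 2) y0.le
        show |T 2 2| * c'.y ≤ 4 * c.y
        linarith
      · have := mul_le_mul_of_nonneg_right (np_sm b (a := -4 / 5) (by norm_num)) pi.le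
        linarith [(h2 i hi).1]
    · have k : ∀ {x h : ℝ}, 0 < h → (x * c'.hs j / h) ^ 2 ≤ 4 → |x| * c'.hs j ≤ 4 * h := by
        intro x h hh hx
        have := abs_two hx
        rw [abs_div, abs_mul, abs_of_pos hh, abs_of_pos (g'.hs_pos j), div_le_iff₀ hh] at this
        linarith
      have c1 := (col j hj).1.trans (show _ ≤ (4 : ℝ) by norm_num)
      fin_cases i
      · exact k (x := T 0 j) g.l1_pos ((le_add_of_nonneg_right (sq_nonneg _)).trans c1)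
      · exact k (x := T 1 j) l0 ((le_add_of_nonneg_left (sq_nonneg _)).trans c1)
      · exact (t2 j hj).trans (a5.trans (by show c.y ≤ 4 * c.y; linarith))

/-- crude bound of a density in the kernel scales -/
lemma crude : EvB fun B => ∀ (ρ : V → ℝ) (k : ℕ) (Z : V → V) (S : V → Mx) (hv : ℝ), Rho ρ → B.G →
    k ≤ nb B.N → B.KS k Z S hv → Sm (dens ρ Z S) ∧ ∀ g,
      CB 1 ((B.c g k).hy hv) (B.R g (985 / 1000)) ((B.fr g).den (dens ρ Z S)) (pq B.N) := by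
  obtain ⟨C, -, -, hB⟩ := kb_ k1 1
  filter_upwards [kg, ev_C_q (C * 2 + 2)] with N hg e1
  rintro B rfl ρ k Z S hv hρ hG hk hK
  have b0 : ∀ x, |ρ x| ≤ 2 := fun x => by
    have := abs_le.1 (hρ.2 x)
    rw [eps0] at this
    exact abs_le.2 ⟨by linarith [this.1], by linarith [this.2]⟩
  refine ⟨(k1 _ _ _ (hg B rfl k Z S hv hG hk hK ρ 2 hρ.1 b0).1).1, fun g l hl z hz => ?_⟩
  obtain ⟨-, oO, oQ, -⟩ := hG.fx g
  have mb : Measurable ((B.fr g).sc ρ) := hρ.1.comp (xp_sm (B.fr g)).continuous.measurable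
  obtain ⟨G, K, F, -⟩ := (hg B rfl k Z S hv hG hk hK _ 2 mb fun x => b0 _).2 g
  have mU : MeasurableSet (B.R g (99 / 100)) := RX_measurable _ _ _
  obtain ⟨G1, F1, -⟩ := hB _ _ _ _ _ _ K
  have h1 := F1 l hl z (mem_univ z)
  have h2 := F l (le_trans hl (by norm_num)) z hz
  have x3 : Real.exp (-(B.N : ℝ) ^ 3) ≤ 1 := Real.exp_le_one_iff.2 (neg_nonpos.2 (by positivity))
  rw [(k3 k1 (k2 k1) _ oO oQ).1, ConvP.split G mU,
    pds_add (k1 _ _ _ G1).1 (k1 _ _ _ (ConvP.gk_ind G mU.compl)).1]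
  refine (mul_le_mul_of_nonneg_left (abs_add_le _ _) (hp_nonneg (fun i => (K.hh i).le) l)).trans ?_
  rw [mul_add]
  exact (add_le_add h1 h2).trans (by linarith)

end Cr

end
end Pool.Agent.MP_20bec2_an.T3

end MrgPart0

-- ======== part 1: formerly Pool.Agent.MP_20bec2_an.T3.CrC
section MrgPart1

/-! The change of block: a new cube seen from an old cube. -/

set_option autoImplicit false
open MeasureTheory Set Filter Matrix

namespace Pool.Agent.MP_20bec2_an.T3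
noncomputable section
open Classical

namespace Cr
open GeoP Prof

lemma nb_pos {N : ℕ} (b : Big N) : 0 < nb N := Nat.zero_lt_of_lt b.mid_lt.2.2.1

lemma aft_ks {N : ℕ} (b : Big N) : aft (ks N) (nb N - 1) 9 := by
  have := b.mid_lt.2.2.1
  unfold aft; omega

lemma nb_small {N : ℕ} (b : Big N) : (nb N : ℝ) / N ≤ 1 / 1000 := by
  rw [div_le_iff₀ b.N_pos]; linarith [b.nb_bd.2, b.N_ge, b.J_pos]

lemma pre_of {B : Bk} {ρ : V → ℝ} {k r : ℕ} {s : St} (h : B.Inv ρ k r s) : B.Pre ρ k r s :=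
  ⟨h.il, h.iz, h.ip, h.is, h.iq⟩

lemma Z_eq {B : Bk} {ρ : V → ℝ} {s : St} (h : B.Prep ρ s) (H : Cu → V → V) :
    (B.next s H).Z (B.nst s) = B.Z s := by
  funext x
  show s.Zs x + B.Zt x + gl s.nf s.ngc x + 0 = s.Zs x + B.Zt x + s.Zn x
  rw [h.zn, add_zero]

lemma D_small {B : Bk} (b : Big B.N) (h : 0 < B.lb) : 10 ^ 9 * Dd B.N' B.lb' ≤ B.D := by
  have h1 : (B.N' : ℝ) ≤ 2 * B.N := b.nxt_le.2.trans (by linarith [b.N_ge, b.J_pos])
  have h2 := pow_le_pow_left₀ (Nat.cast_nonneg _) h1 4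
  have h3 := cnp b (a := 0) (a' := 92) (by norm_num)
  rw [np_zero] at h3
  have h4 : B.lb' ≤ B.lb / 10 ^ 19 :=
    div_le_div_of_nonneg_left h.le (by norm_num) (by linarith [b.two_pow_nb.1])
  have h5 := mul_le_mul h2 h4 (div_pos h (by positivity)).le (by positivity)
  have := mul_pos (pow_pos b.N_pos 4) h
  unfold Bk.D Dd
  linarith

lemma hs_pow (B : Bk) (g : Cu) (k : ℕ) (i : Fin 3) : (B.c g 0).hs i = 2 ^ k * (B.c g k).hs i := by
  have e : (B.c g 0).lam = 2 ^ k * (B.c g k).lam := by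
    show B.lb / 2 ^ 0 = 2 ^ k * (B.lb / 2 ^ k)
    field_simp
  fin_cases i
  · show (B.c g k).ro * (B.c g 0).lam = 2 ^ k * ((B.c g k).ro * (B.c g k).lam)
    rw [e]; ring
  · exact e
  · show np B.N (11 / 10) * (B.c g 0).lam = 2 ^ k * (np B.N (11 / 10) * (B.c g k).lam)
    rw [e]; ring

lemma hs_two {B : Bk} (b : Big B.N) (g : Cu) (i : Fin 3) :
    (B.c g (nb B.N - 1)).hs i = 2 * (B.c g (nb B.N)).hs i := by
  have h1 := hs_pow B g (nb B.N - 1) i
  have h2 := hs_pow B g (nb B.N - 1 + 1) i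
  rw [pow_succ, Nat.sub_add_cancel (nb_pos b), h1, mul_assoc] at h2
  exact mul_left_cancel₀ (by positivity) h2

/-- the covariance at the end of the block -/
lemma es_tab {B : Bk} (b : Big B.N) (hD : 0 < B.D) {S : V → Mx}
    (h : B.SB (nb B.N - 1 + 1) S 4 1 (np B.N (-20)) (np B.N (-20))) (g : Cu) {x : V}
    (hx : x ∈ B.R g (6 / 10)) : EB (B.nS (nb B.N) S g x - dg3 (1 / 4) (1 / 4) 4)
      (bm (np B.N (-4 / 10)) (np B.N (-20)) (np B.N (-20))) := by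
  rw [Nat.sub_add_cancel (nb_pos b)] at h
  have h1 := h.bd g x (RX_mono _ hD.le (by linarith [nb_small b]) hx)
  have e1 : (B.c g (nb B.N)).t11 = np B.N (-4 / 10) := if_neg (nb_pos b).ne'
  have e2 : (B.c g (nb B.N)).t12 = np B.N (-4 / 10) := if_neg (nb_pos b).ne'
  rwa [e1, e2, one_mul] at h1

lemma eb_bm {A : Mx} {a b c e : ℝ} (h : EB A (bm a b c)) (ha : a ≤ e) (hb : b ≤ e) (hc : c ≤ e) :
    EB A (cm e) := fun i j => (h i j).trans (by
  fin_cases i <;> fin_cases j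
  exacts [ha, ha, hb, ha, ha, hb, hb, hb, hc])

lemma t_zero {c : Pm} (g : Gd c) (hk : c.k = 0) : c.t11 ≤ 1 / 10 ^ 7 ∧ c.t12 ≤ 1 / 10 ^ 7 ∧
    c.t13 ≤ 1 / 10 ^ 7 ∧ c.t33 ≤ 1 / 10 ^ 7 := by
  have q : 10000000 ≤ c.q := g.big.q_ge
  have h1 : 1 / c.q ≤ 1 / 10 ^ 7 := one_div_le_one_div_of_le (by norm_num) (by linarith)
  rw [Pm.t11, Pm.t12, Pm.t13, Pm.t33, if_pos hk, if_pos hk, if_pos hk, if_pos hk]
  exact ⟨h1, (div_le_div_of_nonneg_right (g.b2_le.trans (by norm_num)) g.q_pos.le).trans h1,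
    (np_sm g.big (by norm_num)).trans (by norm_num), h1⟩

/-- the new frame `F'` seen from the old cube `g` -/
structure Fc (B : Bk) (F' : Fr) (g : Cu) : Prop where
  det : |((B.fr g).Q⁻¹ * F'.Q).det - 1| ≤ 1 / 10 ^ 6
  xs : ∀ x ∈ RX F'.O (Dd B.N' B.lb') 1, (B.fr g).xc (F'.xp x) ∈ B.R g (6 / 10)
  zs : ∀ w : V, ‖w‖ ≤ 10 * Dd B.N' B.lb' →
    (B.fr g).zc F'.z0 + ((B.fr g).Q⁻¹ * F'.Q) *ᵥ w ∈ B.R g (6 / 10)
  fa : Fa (B.c g (nb B.N)) (F'.pm B.N' B.lb' 0) ((B.fr g).Q⁻¹ * F'.Q) (F'.Q⁻¹ * (B.fr g).Q)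

lemma fc (hT : TfbStmt) (hK : KsdStmt) (hE : EsStmt) : EvB fun B => ∀ ρ s H,
    B.H0 ρ (nb B.N - 1) 9 s → (B.next s H).IS 0 0 (B.nst s) →
    ∀ g', ∃ g, Fc B ((B.next s H).fr g') g := by
  filter_upwards [hT, hK, hE, ev_big] with N hT hK hE b
  rintro B rfl ρ s H h0 is g'
  obtain ⟨hρ, ok, hk, inv⟩ := id h0
  have b' := big' b
  have G := ok.geo.toFrOk
  have pr := inv.iq (aft_ks b)
  have G' := pr.fo
  have D0 : 0 < B.D := (Bk.gd0 G b 0).D_pos
  have gd' : ∀ g, Gd ((s.nf g).pm B.N' B.lb' 0) := G'.gd0 b'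
  have D1 : 0 < Dd B.N' B.lb' := (gd' 0).D_pos
  have Ds := D_small b (lb_pos G)
  obtain ⟨g, hg⟩ := exists_box D0 (s.nf g').x0
  obtain ⟨-, hQ', tf, -⟩ := (hT B rfl ρ _ 9 s h0 (by have := b.mid_lt.2.2.1; omega) (.inr rfl) g).2
    (s.nf g') ⟨orth G' g', (gd' g').s1_pos, (gd' g').s1_le, (pr.fq g').1, (pr.fq g').2⟩
    (box_mono D0.le (by norm_num) g hg)
  have hQ := det_ne G g
  have hO := orth G g
  have m0 : (B.fr g).xc (s.nf g').x0 ∈ B.R g (1 / 2) := (xc_mem G).2 hg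
  refine ⟨g, tf.det.1.trans ?_, fun x hx => (xc_mem G).2 ?_, fun w hw => ?_, ?_⟩
  · have : (5 * 10 ^ 6 : ℝ) ≤ √(pJ B.N) := Real.le_sqrt_of_sq_le (by linarith [b.J_ge, b.L_ge])
    show 5 / √(pJ B.N) ≤ _
    rw [div_le_iff₀ b.sqrtJ_pos]; linarith
  · have h1 : ‖(s.nf g').O *ᵥ x‖ ≤ 1 * Dd B.N' B.lb' := hx
    have h2 : ‖(s.nf g').x0 - cen B.D g‖ ≤ 1 / 2 * B.D := hg
    show ‖(s.nf g').x0 + (s.nf g').O *ᵥ x - cen B.D g‖ ≤ 6 / 10 * B.D
    rw [add_sub_right_comm]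
    exact (norm_add_le _ _).trans (by linarith)
  · have h1 := ((hK B rfl ρ _ 9 s ok.toOk0 hk le_rfl (pre_of inv)).1.bd g _
      (RX_mono _ D0.le (by norm_num) m0)).2.1
    have h2 : ‖(B.fr g).O *ᵥ (B.fr g).xc (s.nf g').x0‖ ≤ 1 / 2 * B.D := m0
    have h3 := norm_orth hO (((B.fr g).Q⁻¹ * (s.nf g').Q) *ᵥ w)
    have h4 := norm_mulVec_le tf.det.2.1 w
    rw [hat_xc hO, mulVec_sub] at h1
    show ‖(B.fr g).O *ᵥ ((B.fr g).zc (B.Z s (s.nf g').x0) + ((B.fr g).Q⁻¹ * (s.nf g').Q) *ᵥ w)‖ ≤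
      6 / 10 * B.D
    rw [mulVec_add]
    have h5 := norm_le_norm_add_norm_sub' ((B.fr g).O *ᵥ (B.fr g).zc (B.Z s (s.nf g').x0))
      ((B.fr g).O *ᵥ (B.fr g).xc (s.nf g').x0)
    exact (norm_add_le _ _).trans (by linarith)
  · have e := T_inv' (F := B.fr g) (F' := s.nf g') hQ hQ'.ne'
    refine fa_of (S := (B.fr g).cv1 (s.Sg (s.nf g').x0)) (Bk.gd G b g le_rfl) (gd' g') rfl
      (show B.lb' / 2 ^ 0 = B.lb' by simp) (T_inv (F := s.nf g') hQ'.ne' hQ) tf.det.2.1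
      (e ▸ tf.det.2.2) (fun i hi => ?_) ?_ ?_
    · obtain ⟨-, a1, a2⟩ := tf.c2 i hi
      have e1 : (B.c g 0).y = 2 ^ nb B.N * (B.c g (nb B.N)).y := hs_pow B g _ 2
      have p : (0 : ℝ) < 2 ^ nb B.N := by positivity
      rw [e1, hs_pow B g (nb B.N), mul_left_comm, mul_left_comm _ (2 ^ nb B.N)] at a1 a2
      rw [e] at a2
      exact ⟨le_of_mul_le_mul_left a1 p, le_of_mul_le_mul_left a2 p⟩
    · have h1 := es_tab b D0 (hE B rfl _ s G hk inv.is) g (RX_mono _ D0.le (by norm_num) m0)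
      simp only [Bk.nS, Fr.cov, xp_xc hO] at h1
      have k : ∀ a : ℝ, a ≤ -1 / 2000 → np B.N a ≤ 1 / 10 ^ 9 := fun a ha =>
        (np_sm b ha).trans (by norm_num)
      exact eb_bm h1 (k _ (by norm_num)) (k _ (by norm_num)) (k _ (by norm_num))
    · have h1 := (is.pre rfl).bd g' 0 (zero_mem_RX _ D1.le (by simp))
      obtain ⟨t1, t2, -⟩ := t_zero (gd' g') rfl
      obtain ⟨-, -, t3, t4⟩ := t_zero (gd' 0) rfl
      have e1 : ((B.next s H).fr g').xp 0 = (s.nf g').x0 := by simp [Fr.xp, Bk.next]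
      simp only [Bk.nS, Fr.cov, e1, one_mul] at h1
      rw [cv1_chg (F' := B.fr g) hQ] at h1
      intro i j
      refine (h1 i j).trans ?_
      fin_cases i <;> fin_cases j
      exacts [t1, t2, t3, t2, t1, t3, t3, t3, t4]

/-- a density in the new frame -/
lemma den_chg {F F' : Fr} (hQ : F.Q.det ≠ 0) (M : V → ℝ) : F'.den M =
    fun w => (F.Q⁻¹ * F'.Q).det * F.den M (F.zc F'.z0 + (F.Q⁻¹ * F'.Q) *ᵥ w) := by
  funext w
  have e : F.zp (F.zc F'.z0 + (F.Q⁻¹ * F'.Q) *ᵥ w) = F'.zp w := by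
    rw [← zp_zc hQ (F'.zp w)]
    congr 1
    simp only [Fr.zc, Fr.zp, ← mulVec_mulVec, ← mulVec_add]
    congr 1
    abel
  rw [Fr.den, Fr.den, e, T_det_eq]
  field_simp

lemma norm_RX {O : Mx} (hO : Orth O) {D r : ℝ} (hD : 0 < D) (hr : r ≤ 1) {z : V}
    (hz : z ∈ RX O D r) : ‖z‖ ≤ 2 * D := by
  have h1 : ‖O *ᵥ z‖ ≤ 1 * D := RX_mono _ hD.le hr hz
  linarith [norm_orth' hO z]

lemma den_sm (F : Fr) {M : V → ℝ} (h : Sm M) : Sm (F.den M) :=
  contDiff_const.mul (h.comp (zp_sm F))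

end Cr

end
end Pool.Agent.MP_20bec2_an.T3

end MrgPart1

-- ======== part 2: formerly Pool.Agent.MP_20bec2_an.T3.Mbd1
section MrgPart2

/-! The density stays near one. -/

set_option autoImplicit false
open MeasureTheory Set Filter Matrix Topology

namespace Pool.Agent.MP_20bec2_an.T3
noncomputable section
open Classical

namespace Mbd1

lemma det_near {A : Mx} {t : ℝ} (h : EB (A - 1) (cm t)) (ht : t ≤ 1 / 100) :
    |A.det - 1| ≤ 4 * t := by
  obtain ⟨E, rfl⟩ : ∃ E, A = E + 1 := ⟨A - 1, by abel⟩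
  have h : ∀ i j, |E i j| ≤ t := fun i j => by simpa [cm] using h i j
  have t0 : 0 ≤ t := (abs_nonneg _).trans (h 0 0)
  have h2 : ∀ a b c d, |E a b * E c d| ≤ t / 100 := fun a b c d => by
    rw [abs_mul]
    nlinarith [mul_le_mul (h a b) (h c d) (abs_nonneg _) t0]
  have h3 : ∀ a b c d e f, |E a b * E c d * E e f| ≤ t / 100 := fun a b c d e f => by
    rw [abs_mul]
    nlinarith [mul_le_mul (h2 a b c d) (h e f) (abs_nonneg _) (by linarith)]
  have e : (E + 1).det - 1 = E 0 0 + E 1 1 + E 2 2 + (E 0 0 * E 1 1 + E 0 0 * E 2 2 + E 1 1 * E 2 2 -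
      E 0 1 * E 1 0 - E 0 2 * E 2 0 - E 1 2 * E 2 1) + (E 0 0 * E 1 1 * E 2 2 - E 0 0 * E 1 2 * E 2 1 -
      E 0 1 * E 1 0 * E 2 2 + E 0 1 * E 1 2 * E 2 0 + E 0 2 * E 1 0 * E 2 1 - E 0 2 * E 1 1 * E 2 0) := by
    simp [det_fin_three, one_apply]
    ring
  rw [e, abs_le]
  constructor <;>
    linarith [abs_le.1 (h 0 0), abs_le.1 (h 1 1), abs_le.1 (h 2 2), abs_le.1 (h2 0 0 1 1),
      abs_le.1 (h2 0 0 2 2), abs_le.1 (h2 1 1 2 2), abs_le.1 (h2 0 1 1 0), abs_le.1 (h2 0 2 2 0),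
      abs_le.1 (h2 1 2 2 1), abs_le.1 (h3 0 0 1 1 2 2), abs_le.1 (h3 0 0 1 2 2 1),
      abs_le.1 (h3 0 1 1 0 2 2), abs_le.1 (h3 0 1 1 2 2 0), abs_le.1 (h3 0 2 1 0 2 1),
      abs_le.1 (h3 0 2 1 1 2 0)]

/-- change of variables with a weight near one -/
lemma chg {U : Set V} {Z : V → V} {Z' : V → V →L[ℝ] V} {b φ : V → ℝ} {ε η τ : ℝ}
    (hU : MeasurableSet U) (hZ : ∀ x, HasFDerivAt Z (Z' x) x) (hi : InjOn Z U)
    (hj : ∀ x ∈ U, |(Z' x).det - 1| ≤ η) (η0 : 0 ≤ η) (hη : η ≤ 1 / 2) (ε0 : 0 ≤ ε)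
    (hb : ∀ x ∈ U, |b x - 1| ≤ ε) (h0 : ∀ w, 0 ≤ φ w) (hφ : Integrable φ) (h1 : ∫ w, φ w = 1)
    (ht : ∫ w in (Z '' U)ᶜ, φ w ≤ τ) (hI : IntegrableOn (fun x => b x * φ (Z x)) U) :
    |(∫ x in U, b x * φ (Z x)) - 1| ≤ (ε + η) * (1 + 2 * η) + τ := by
  have hw : ∀ x ∈ U, HasFDerivWithinAt Z (Z' x) U x := fun x _ => (hZ x).hasFDerivWithinAt
  have e1 := integral_image_eq_integral_abs_det_fderiv_smul volume hU hw hi φ
  have i1 := (integrableOn_image_iff_integrableOn_abs_det_fderiv_smul volume hU hw hi φ).1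
    hφ.integrableOn
  have m1 : MeasurableSet (Z '' U) := measurable_image_of_fderivWithin hU hw hi
  have e2 := integral_add_compl m1 hφ
  have p1 : 0 ≤ ∫ w in (Z '' U)ᶜ, φ w := integral_nonneg h0
  simp only [smul_eq_mul] at e1 i1
  have k0 : 0 ≤ (ε + η) * (1 + 2 * η) := by positivity
  have h2 : |(∫ x in U, b x * φ (Z x)) - ∫ x in U, |(Z' x).det| * φ (Z x)| ≤
      (ε + η) * (1 + 2 * η) * ∫ x in U, |(Z' x).det| * φ (Z x) := by
    rw [← integral_sub hI i1, ← integral_const_mul, ← Real.norm_eq_abs]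
    refine norm_integral_le_of_norm_le (i1.const_mul _)
      ((ae_restrict_iff' hU).2 (Eventually.of_forall fun x hx => ?_))
    obtain ⟨a1, a2⟩ := abs_le.1 (hj x hx)
    obtain ⟨b1, b2⟩ := abs_le.1 (hb x hx)
    rw [abs_of_nonneg (show 0 ≤ (Z' x).det by linarith), Real.norm_eq_abs, ← sub_mul, abs_mul,
      abs_of_nonneg (h0 _), ← mul_assoc]
    refine mul_le_mul_of_nonneg_right ?_ (h0 _)
    have c1 : |b x - (Z' x).det| ≤ ε + η := abs_le.2 ⟨by linarith, by linarith⟩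
    have c2 : 1 ≤ (1 + 2 * η) * (Z' x).det := by nlinarith
    rw [mul_assoc]
    nlinarith
  rw [← e1] at h2
  have h3 := mul_le_mul_of_nonneg_left (show ∫ w in Z '' U, φ w ≤ 1 by linarith) k0
  obtain ⟨c1, c2⟩ := abs_le.1 h2
  exact abs_le.2 ⟨by linarith, by linarith⟩

lemma far_sum {h : V} {y ρ : ℝ} (hh : ∀ i, 0 < h i) (hy : ∀ i, h i ≤ y) (ρ0 : 0 ≤ ρ) {w : V}
    (hw : ρ ≤ ‖w‖) : (ρ / y) ^ 2 ≤ ∑ i, (w i / h i) ^ 2 := by
  have y0 : 0 < y := (hh 0).trans_le (hy 0)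
  have s0 : 0 ≤ ∑ i, (w i / h i) ^ 2 := Finset.sum_nonneg fun _ _ => sq_nonneg _
  have h1 : ‖w‖ ≤ √(∑ i, (w i / h i) ^ 2) * y := by
    refine (pi_norm_le_iff_of_nonneg (by positivity)).2 fun i => ?_
    have a1 : |w i / h i| ≤ √(∑ i, (w i / h i) ^ 2) := Real.abs_le_sqrt
      (Finset.single_le_sum (f := fun i => (w i / h i) ^ 2) (fun _ _ => sq_nonneg _)
        (Finset.mem_univ i))
    rw [abs_div, abs_of_pos (hh i), div_le_iff₀ (hh i)] at a1
    exact a1.trans (mul_le_mul_of_nonneg_left (hy i) (Real.sqrt_nonneg _))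
  have h2 : ρ / y ≤ √(∑ i, (w i / h i) ^ 2) := by rw [div_le_iff₀ y0]; linarith
  calc (ρ / y) ^ 2 ≤ √(∑ i, (w i / h i) ^ 2) ^ 2 := pow_le_pow_left₀ (by positivity) h2 2
    _ = _ := Real.sq_sqrt s0

lemma kl_sub {h : V} {U W : Set V} {b : V → ℝ} {A : ℝ} {Z : V → V} {S : V → Mx}
    (K : KL h U (indicator U b) A Z S) (hb : Measurable b) (hW : MeasurableSet W) (hs : W ⊆ U) :
    KL h U (indicator W b) A Z S :=
  { K with
    ma := hb.indicator hW
    ba := fun x => by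
      by_cases hx : x ∈ W
      · have := K.ba x
        rwa [indicator_of_mem (hs hx), ← indicator_of_mem hx b] at this
      · rw [indicator_of_notMem hx, abs_zero]
        exact (abs_nonneg _).trans (K.ba x)
    sa := fun x hx => indicator_of_notMem (fun h => hx (hs h)) b }

lemma dens_add {a a' : V → ℝ} {Z : V → V} {S : V → Mx} (h : GK a Z S) (h' : GK a' Z S) :
    dens (fun x => a x + a' x) Z S = fun z => dens a Z S z + dens a' Z S z := by
  funext z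
  simp only [dens, add_mul]
  exact integral_add ((k1 _ _ _ h).2.1 z) ((k1 _ _ _ h').2.1 z)

/-- the near part of the density -/
lemma loc : ∃ C : ℝ, 1 ≤ C ∧ ∀ (h : V) (O : Mx) (D : ℝ) (b : V → ℝ) (Z : V → V) (S : V → Mx)
    (ε t δ r y : ℝ) (z : V), Orth O → 0 < D →
    KL h (RX O D (99 / 100)) (indicator (RX O D (99 / 100)) b) 2 Z S → Measurable b →
    (∀ x, |b x - 1| ≤ ε) → t ≤ 1 / 100 →
    (∀ x ∈ RX O D (99 / 100), EB (jm Z x - 1) (cm t) ∧ ‖O *ᵥ (Z x - x)‖ ≤ D / 900) →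
    0 ≤ δ → δ ≤ 1 / 1000 →
    (∀ x ∈ RX O D (99 / 100), ∀ x' ∈ RX O D (99 / 100), ‖x - x'‖ ≤ r →
      EB (nrm h (S x - S x')) (cm δ)) →
    (∀ i, h i ≤ y) → 0 ≤ r → 600 * r ≤ D → z ∈ RX O D (98 / 100) →
    |dens (indicator (RX O D (99 / 100)) b) Z S z - 1| ≤
      (ε + 4 * t) * (1 + 8 * t) + C * δ + C * Real.exp (-(97 / 100 * r / y) ^ 2 / 60) := by
  obtain ⟨C1, c1, -, hB⟩ := kb_ k1 0
  obtain ⟨C2, c2, hP⟩ := kp' k1 (k2 k1) (kb_ k1) 0
  obtain ⟨C3, c3, hC⟩ := (kc k1 (k4 k1)).2 0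
  refine ⟨2 * C1 + 2 * C2 + C3, by linarith,
    fun h O D b Z S ε t δ r y z hO hD K mb bb ht hZ δ0 hδ hS hy r0 hr hz => ?_⟩
  have dZ : Differentiable ℝ Z := K.dZ.differentiable one_ne_zero
  obtain ⟨inj, sur⟩ := bij.2 O D (99 / 100) (1 / 900) Z hO hD (by norm_num) (by norm_num) K.dZ
    fun x hx => ⟨K.bZ x hx, by linarith [(hZ x hx).2]⟩
  have sur' : ∀ w : V, ‖w‖ ≤ r → ∃ x ∈ RX O D (99 / 100), Z x - z = w := fun w hw => by
    obtain ⟨x, hx, e⟩ := sur (z + w) (by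
      have a1 : ‖O *ᵥ z‖ ≤ 98 / 100 * D := hz
      have a2 := Prof.orth_norm_le hO w
      have a3 := norm_add_le (O *ᵥ z) (O *ᵥ w)
      show ‖O *ᵥ (z + w)‖ ≤ _
      rw [mulVec_add]
      linarith)
    exact ⟨x, hx, by rw [e]; abel⟩
  obtain ⟨x1, m1, e1⟩ := sur' 0 (by simpa using r0)
  generalize RX O D (99 / 100) = U at K hZ hS inj sur' m1 ⊢
  have mU : MeasurableSet U := K.cl.isClosed.measurableSet
  have ex : ∀ x ∈ U, 97 / 100 * ‖x - x1‖ ≤ ‖Z x - z‖ := fun x hx => by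
    have a1 := Bij.lip_on dZ K.cx K.bZ m1 hx
    have a2 : x - x1 = (Z x - z) - ((Z x - x) - (Z x1 - x1)) := by
      rw [← sub_eq_zero.1 e1]; abel
    have a3 := norm_sub_le (Z x - z) ((Z x - x) - (Z x1 - x1))
    rw [← a2] at a3
    linarith
  have mB : MeasurableSet (Metric.closedBall x1 r) := measurableSet_closedBall
  have K1 := kl_sub K mb (mU.inter mB) inter_subset_left
  have K2 := kl_sub K mb (mU.diff mB) diff_subset
  have hS1 := K.bS x1 m1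
  have ε0 : 0 ≤ ε := (abs_nonneg _).trans (bb 0)
  have t0 : 0 ≤ t := (abs_nonneg _).trans ((hZ x1 m1).1 0 0)
  have y0 : 0 < y := (K.hh 0).trans_le (hy 0)
  obtain ⟨R, hR⟩ : ∃ R, R = (97 / 100 * r / y) ^ 2 := ⟨_, rfl⟩
  have fs : ∀ w : V, 97 / 100 * r ≤ ‖w‖ → R ≤ ∑ i, (w i / h i) ^ 2 := fun w hw =>
    hR ▸ far_sum K.hh hy (by positivity) hw
  rw [← hR]
  obtain ⟨G1, -, -⟩ := hB _ _ _ _ _ _ K1
  obtain ⟨G2, -, F2⟩ := hB _ _ _ _ _ _ K2
  have b2 := F2 z R (fun x hx hn => fs _ (by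
    have a1 : ¬ ‖x - x1‖ ≤ r := fun hc => (mem_of_indicator_ne_zero hn).2 (mem_closedBall_iff_norm.2 hc)
    linarith [ex x hx, not_le.1 a1])) [] le_rfl z rfl
  obtain ⟨G3, F3⟩ := hP _ _ _ _ _ _ Z (fun _ => S x1) δ K1 K.dZ.continuous
    (fun _ _ => continuous_const) δ0 hδ fun x hx hn => ⟨fun i => by
      rw [sub_self, abs_zero]; exact mul_nonneg δ0 (K.hh i).le, hS1.1, hS x1 m1 x hx (by
        rw [norm_sub_rev]; exact mem_closedBall_iff_norm.1 (mem_of_indicator_ne_zero hn).2)⟩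
  have b3 := F3 [] le_rfl z (mem_univ z)
  obtain ⟨i4, -, F4⟩ := hC h (S x1) K.hh hS1.1 (fun v => ⟨le_trans (mul_le_mul_of_nonneg_right
    (by norm_num) (Finset.sum_nonneg fun _ _ => sq_nonneg _)) (hS1.2 v).1, (hS1.2 v).2⟩) [] le_rfl
  have b4 := F4 R
  have k0 : ∀ w, 0 ≤ ker (S x1) w := fun w => div_nonneg (Real.exp_pos _).le (Real.sqrt_nonneg _)
  simp only [hp, List.map_nil, List.prod_nil, one_mul, pds, abs_of_nonneg (k0 _)] at b2 b3 b4 i4
  have ei : (fun x => indicator (U ∩ Metric.closedBall x1 r) b x * ker (S x1) (Z x - z)) =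
      indicator (U ∩ Metric.closedBall x1 r) fun x => b x * ker (S x1) (Z x - z) := by
    funext x
    rw [indicator_mul_left]
  have b5 := chg (Z := fun x => Z x - z) (Z' := fderiv ℝ Z) (b := b) (φ := ker (S x1)) (ε := ε)
    (η := 4 * t) (τ := C3 * Real.exp (-R / 60)) (mU.inter mB)
    (fun x => (dZ x).hasFDerivAt.sub_const z)
    (fun x hx x' hx' e => inj hx.1 hx'.1 (sub_left_injective e))
    (fun x hx => by rw [← Inv.jac_det (dZ x)]; exact det_near (hZ x hx.1).1 ht)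
    (by positivity) (by linarith) ε0 (fun x _ => bb x) k0 i4 (K4.int_ker (KB.pd_pos K.hh hS1))
    (le_trans (setIntegral_mono_set i4.integrableOn (Eventually.of_forall k0)
      (HasSubset.Subset.eventuallyLE fun w hw => fs w (by
        by_contra hc
        obtain ⟨x, hx, e⟩ := sur' w (by linarith)
        have a1 := ex x hx
        rw [e] at a1
        exact hw ⟨x, ⟨hx, mem_closedBall_iff_norm.2 (by linarith)⟩, e⟩))) b4)
    (by rw [← integrable_indicator_iff (mU.inter mB), ← ei]; exact (k1 _ _ _ G3).2.1 z)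
  have e5 : dens (indicator (U ∩ Metric.closedBall x1 r) b) Z (fun _ => S x1) z =
      ∫ x in U ∩ Metric.closedBall x1 r, b x * ker (S x1) (Z x - z) := by
    rw [← integral_indicator (mU.inter mB), ← ei]; rfl
  have e6 : indicator U b = fun x => indicator (U ∩ Metric.closedBall x1 r) b x +
      indicator (U \ Metric.closedBall x1 r) b x := by
    rw [← indicator_union_of_disjoint disjoint_sdiff_inter.symm b, inter_union_diff]
  rw [e6, dens_add G1 G2]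
  rw [← e5] at b5
  have p1 := Real.exp_pos (-R / 60)
  have q1 : 0 ≤ (2 * C1 + C3) * δ := by positivity
  have q2 : 0 ≤ C2 * Real.exp (-R / 60) := by positivity
  obtain ⟨u1, u2⟩ := abs_le.1 b2
  obtain ⟨u3, u4⟩ := abs_le.1 b3
  obtain ⟨u5, u6⟩ := abs_le.1 b5
  exact abs_le.2 ⟨by linarith, by linarith⟩

lemma ev_exp (C : ℝ) : ∀ᶠ N : ℕ in atTop, C * Real.exp (-(N : ℝ) / 60) ≤ 1 / 10 ^ 10 := by
  have h : Tendsto (fun N : ℕ => C * Real.exp (-(N : ℝ) / 60)) atTop (𝓝 (C * 0)) :=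
    (Real.tendsto_exp_atBot.comp ((tendsto_neg_atTop_atBot.comp
      tendsto_natCast_atTop_atTop).atBot_div_const (by norm_num))).const_mul C
  exact h.eventually (ge_mem_nhds (by norm_num))

end Mbd1

open Mbd1 in
theorem mbd1 (hg : KgStmt) : Mbd1Stmt := by
  obtain ⟨C, c1, hC⟩ := loc
  obtain ⟨C4, c4, -, hB⟩ := kb_ k1 4
  filter_upwards [hg, ev_big, ev_C_q (2 * C4 + 2), tendsto_pJ.eventually_ge_atTop ((3 * 10 ^ 10) ^ 2),
    ev_CqJ_np (C * 10 ^ 10) 0 0 (show (0 : ℝ) < 37 / 100 by norm_num), ev_exp C, ev_exp 2,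
    eventually_ge_atTop 600] with N hg big e1 e2 e3 e4 e5 e6
  rintro B rfl ρ k Z S hρ hG hk hK hO g
  obtain ⟨-, oO, oQ, -, -, ok⟩ := hG.fx g
  have gd : Gd (B.c g k) := ⟨big, ok.1, ok.2.1, ok.2.2.1, ok.2.2.2.1, ok.2.2.2.2.1,
    ok.2.2.2.2.2.1, hk⟩
  have N6 : (600 : ℝ) ≤ B.N := by exact_mod_cast e6
  have mb : Measurable ((B.fr g).sc ρ) := hρ.1.comp (K3.cont_xp (F := B.fr g)).measurable
  have b1 : ∀ x, |(B.fr g).sc ρ x - 1| ≤ eps0 := fun x => hρ.2 _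
  have b2 : ∀ x, |(B.fr g).sc ρ x| ≤ 2 := fun x => by
    have := abs_le.1 (b1 x)
    rw [eps0] at this
    exact abs_le.2 ⟨by linarith [this.1], by linarith [this.2]⟩
  have mU : MeasurableSet (B.R g (99 / 100)) := (Bij.closed_RX _ _ _).measurableSet
  obtain ⟨-, K, F, -⟩ := (hg B rfl k Z S _ hG hk hK _ 2 mb b2).2 g
  have G2 := ((hg B rfl k Z S _ hG hk hK _ 2 (mb.indicator mU.compl) fun x => by
    by_cases hx : x ∈ (B.R g (99 / 100))ᶜ
    · rw [indicator_of_mem hx]; exact b2 x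
    · rw [indicator_of_notMem hx]; norm_num).2 g).1
  obtain ⟨G1, F1, -⟩ := hB _ _ _ _ _ _ K
  have ed : (B.fr g).den (dens ρ Z S) = fun z =>
      dens (indicator (B.R g (99 / 100)) ((B.fr g).sc ρ)) ((B.fr g).hat Z) ((B.fr g).cov S) z +
      dens (indicator (B.R g (99 / 100))ᶜ ((B.fr g).sc ρ)) ((B.fr g).hat Z) ((B.fr g).cov S) z := by
    rw [(k3 k1 (k2 k1) _ oO oQ).1, ← dens_add G1 G2]
    congr 1
    funext x
    exact (congrFun (indicator_self_add_compl _ _) x).symm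
  have D0 : 0 < B.D := gd.D_pos
  have sub : B.R g (98 / 100) ⊆ B.R g (985 / 1000) := fun x hx =>
    le_trans hx (mul_le_mul_of_nonneg_right (by norm_num) D0.le)
  have x3 : Real.exp (-(B.N : ℝ) ^ 3) ≤ Real.exp (-(B.N : ℝ) / 60) :=
    Real.exp_le_exp.2 (by nlinarith [le_self_pow₀ (show (1 : ℝ) ≤ B.N by linarith) three_ne_zero])
  rw [ed]
  refine ⟨fun z hz => ?_, fun l hl z hz => ?_⟩
  · have t1 : 3 / √(pJ B.N) ≤ 1 / 10 ^ 10 := by
      have := Real.le_sqrt_of_sq_le e2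
      rw [div_le_iff₀ (by linarith)]
      linarith
    have t0 : 0 ≤ 3 / √(pJ B.N) := by positivity
    have d0 := big.np_pos (-37 / 100)
    have d1 : C * np B.N (-37 / 100) ≤ 1 / 10 ^ 10 := by
      have a1 := big.np_add (37 / 100) (-37 / 100)
      rw [show (37 / 100 + -37 / 100 : ℝ) = 0 by norm_num, np_zero] at a1
      rw [qp_zero, Jp_zero] at e3
      nlinarith
    have l0 := gd.lam_pos
    have y2 : (B.c g k).y ≤ (B.N : ℝ) ^ 2 * (B.c g k).lam :=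
      mul_le_mul_of_nonneg_right (by
        have := big.np_le (show (11 / 10 : ℝ) ≤ (2 : ℕ) by norm_num)
        rwa [np_nat] at this) l0.le
    have l1 : (B.c g k).l1 ≤ (B.c g k).y := mul_le_mul_of_nonneg_right (gd.ro_le.trans (by
      have := big.np_le (show (1 / 2 : ℝ) ≤ 11 / 10 by norm_num)
      rwa [Real.sqrt_eq_rpow])) l0.le
    have h1 := hC _ _ _ _ _ _ eps0 _ _ ((B.N : ℝ) ^ 3 * (B.c g k).lam) (B.c g k).y z oO D0 K mb b1
      (t1.trans (by norm_num)) (fun x hx => ⟨(hK.bd g x hx).1, (hK.bd g x hx).2.1⟩) d0.le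
      (by nlinarith) (hO g) (fun i => by
        fin_cases i
        exacts [l1, gd.lam_le_l1.trans l1, le_rfl]) (by positivity) (by
        have a1 : (B.c g k).lam ≤ B.lb := gd.lam_le_lb
        have a2 : B.D = B.N * ((B.N : ℝ) ^ 3 * B.lb) := by simp only [Bk.D, Dd]; ring
        rw [a2]
        exact mul_le_mul N6 (mul_le_mul_of_nonneg_left a1 (by positivity)) (by positivity)
          (by positivity)) hz
    have h2 := F [] (Nat.zero_le _) z (sub hz)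
    simp only [hp, List.map_nil, List.prod_nil, one_mul, pds] at h2
    have a3 : 97 / 100 * (B.N : ℝ) ≤ 97 / 100 * ((B.N : ℝ) ^ 3 * (B.c g k).lam) / (B.c g k).y := by
      rw [le_div_iff₀ gd.y_pos]
      nlinarith [mul_le_mul_of_nonneg_left y2 (show (0 : ℝ) ≤ B.N by linarith)]
    have a4 : Real.exp (-(97 / 100 * ((B.N : ℝ) ^ 3 * (B.c g k).lam) / (B.c g k).y) ^ 2 / 60) ≤
        Real.exp (-(B.N : ℝ) / 60) := Real.exp_le_exp.2 (by
      nlinarith [pow_le_pow_left₀ (by positivity) a3 2])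
    have a5 := mul_le_mul_of_nonneg_left a4 (show 0 ≤ C by linarith)
    have a6 : (eps0 + 4 * (3 / √(pJ B.N))) * (1 + 8 * (3 / √(pJ B.N))) ≤
        (eps0 + 4 * (1 / 10 ^ 10)) * (1 + 8 * (1 / 10 ^ 10)) := by
      unfold eps0
      gcongr
    unfold eps0 at a6 h1 ⊢
    simp only [Bk.R] at h2 ⊢
    obtain ⟨u1, u2⟩ := abs_le.1 h1
    obtain ⟨u3, u4⟩ := abs_le.1 h2
    exact abs_le.2 ⟨by linarith, by linarith⟩
  · have h1 := F1 l hl z (mem_univ z)
    have h2 := F l (le_trans hl (by norm_num)) z (sub hz)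
    have p0 : 0 ≤ hp (B.c g k).hs l := (KPa.hp_pos gd.hs_pos l).le
    rw [pds_add (k1 _ _ _ G1).1 (k1 _ _ _ G2).1]
    refine (mul_le_mul_of_nonneg_left (abs_add_le _ _) p0).trans ?_
    rw [mul_add]
    exact (add_le_add h1 h2).trans (by linarith)

end
end Pool.Agent.MP_20bec2_an.T3

end MrgPart2

-- ======== part 3: formerly Pool.Agent.MP_20bec2_an.T3.Cf
section MrgPart3

/-! Row CF: the facts on `f` at the start of the next block. -/

set_option autoImplicit false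
open MeasureTheory Set Filter Matrix

namespace Pool.Agent.MP_20bec2_an.T3
noncomputable section
open Classical

namespace Cr
open GeoP Prof

lemma evB_nxt {P : Bk → Prop} (h : EvB P) : ∀ᶠ N : ℕ in atTop, ∀ B : Bk, B.N = nxt N → P B :=
  ev_nxt (P := fun N => ∀ B : Bk, B.N = N → P B) h

/-- the record at the start of a block -/
lemma ig_zero {B : Bk} (b : Big B.N) (G : FrOk B.N B.lb B.fr) {f : V → V}
    (hj : ∀ g z, jac ((B.fr g).fh f) z ≠ 0)
    (hd : ∀ g, ∀ x ∈ B.bx g 1, (B.c g 0).DI ((B.fr g).fh f) (B.oh g f x) 1) :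
    B.IG 0 0 f (fun _ => f) 0 0 := by
  have nc : ∀ g, ¬ B.crs g 0 0 0 := fun g h => by
    have := h.2.1
    unfold aft at this; omega
  have p0 : ph 0 0 0 = 0 := by simp [ph]
  have di : ∀ g, ∀ x ∈ B.bx g 1, (B.c g 0).DI ((B.fr g).fh f) (B.oh g f x) (B.dd g 0) := by
    intro g x hx a a' i
    have h1 : 1 ≤ B.dd g 0 := by
      rw [Bk.dd, if_neg (fun h => absurd h.2 (Nat.not_lt_zero _)), pow_zero, add_zero]
      exact le_add_of_nonneg_right (by positivity)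
    have h2 := hd g x hx a a' i
    exact h2.trans (mul_le_mul_of_nonneg_right h1 (by
      simpa using (mul_nonneg ((Bk.gd0 G b g).hs_pos i).le (abs_nonneg _)).trans h2))
  refine ⟨fun j hj g x _ i _ a a' => ?_, fun j hj g _ x _ a a' _ => ?_, fun g x hx => ⟨?_, ?_⟩,
    fun j hj g x _ => ?_⟩
  · obtain rfl := Nat.le_zero.1 hj
    rw [if_neg (nc g), if_neg (nc g)]
    fin_cases a <;> fin_cases a' <;> simp [Bk.SG, SA, tm, cnt, bm]
  · obtain rfl := Nat.le_zero.1 ‹j ≤ 0›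
    rw [Th, nonsing_inv_mul _ (Ne.isUnit (‹∀ g z, jac ((B.fr g).fh f) z ≠ 0› g _))]
    simp [cnt]
  · rw [if_neg (fun h => absurd h.2.2 (by norm_num))]
    simpa using di g x hx
  · intro j hj
    obtain rfl := Nat.le_zero.1 hj
    exact di g x hx
  · obtain rfl := Nat.le_zero.1 hj
    rw [if_neg (nc g), p0]
    simp

end Cr

open Cr GeoP Prof in
theorem cf_ (hT : TfbStmt) (hK : KsdStmt) (hE : EsStmt) (hM : MbiStmt) (hD : CdiStmt) : CfStmt := by
  filter_upwards [fc hT hK hE, evB_nxt hK, evB_nxt (mbd1 kg), hM, hD, ev_big]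
    with N hfc hK' hm' hM hD b
  rintro B rfl ρ s H h0 ok' pre'
  obtain ⟨hρ, ok, hk, inv⟩ := id h0
  have b' := big' b
  have G := ok.geo.toFrOk
  have G' := ok'.geo.toFrOk
  have eZ := Z_eq (inv.iq (aft_ks b)) H
  obtain ⟨sf, bf, jf⟩ := inv.iF.smf
  have ej : jac s.f = dens ρ (B.Z s) s.Sg := funext jf
  obtain ⟨ks', os', -⟩ := hK' _ rfl ρ 0 0 _ ok' (nb_pos b') (by norm_num) pre'
  have mb := hm' _ rfl ρ 0 _ _ hρ ok'.geo (Nat.zero_le _) ks' os'
  rw [eZ, show (B.nst s).Sg = s.Sg from rfl, ← ej] at mb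
  obtain ⟨m1, m2⟩ := hM B rfl ρ _ 9 s hρ ok.toOk0 hk (by norm_num) le_rfl (pre_of inv) inv.ir
  rw [← ej] at m1 m2
  have jh : ∀ g, jac (((B.next s H).fr g).fh s.f) = ((B.next s H).fr g).den (jac s.f) := fun g =>
    funext fun z => ((k3 k1 (k2 k1) _ (orth G' g) (det_pos G' g)).2.2.2.1 _ sf.dif z).2
  have D1 : 0 < (B.next s H).D := (Bk.gd0 G' b' 0).D_pos
  have jn : ∀ p, jac s.f p ≠ 0 := fun p hp => by
    obtain ⟨g, hg⟩ := cover ok'.geo (Nat.cast_pos.1 b'.N_pos) p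
    have := (mb g).1 _ (RX_mono _ D1.le (by norm_num) hg)
    rw [Fr.den, zp_zc (det_ne G' g), hp] at this
    norm_num [eps0] at this
  refine ⟨⟨sf, bf, fun z => by rw [eZ]; exact jf z⟩, fun j hj => ⟨sf, bf, fun g' => ?_⟩,
    ⟨rfl, fun _ => rfl⟩, ig_zero b' G' (fun g z => ?_) (hD B rfl ρ s H h0)⟩
  · obtain rfl := Nat.le_zero.1 hj
    show Pm.MB _ _ _ (jac (((B.next s H).fr g').fh s.f)) _
    rw [jh]
    refine ⟨(mb g').1, by rw [one_mul]; exact (mb g').2.of_le (by norm_num), ?_⟩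
    obtain ⟨g, fc⟩ := hfc B rfl ρ s H h0 pre'.is g'
    have gd := Bk.gd G b g (Nat.sub_le (nb B.N) 1)
    have gd' := Bk.gd0 G' b' g'
    have y0 := (Bk.gd G b g le_rfl).hs_pos 2
    have h1 := CL.affine (κ := 2) (δ := np B.N (-1 / 2)) (U := (B.next s H).R g' (98 / 100))
      (fun i => (gd.hs_pos i).le) (fun i => (gd'.hs_pos i).le) (by norm_num) (b.np_pos _).le
      (fun i j => (fc.fa.tq i j).trans_eq (by rw [hs_two b]; ring))
      (fun j hj => (fc.fa.t2 j hj).trans (by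
        rw [hs_two b]
        exact mul_le_mul_of_nonneg_left (by show (B.c g (nb B.N)).hs 2 ≤ _; linarith)
          (b.np_pos _).le))
      (SmN.of_sm (den_sm _ (Sm.jac sf)) _)
      (fun x hx => RX_mono _ gd.D_pos.le (by norm_num) (fc.zs x (by
        linarith [norm_RX (orth G' g') D1 (by norm_num) hx, show (B.next s H).D = Dd B.N' B.lb'
          from rfl])))
      (m1 g).2.1.toCV (m2 g)
    rw [den_chg (det_ne G g)]
    refine CBl.monoB (CBl.smul_le (fun i => (gd'.hs_pos i).le) h1 (C := 2)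
      (abs_le.2 ⟨by linarith [(abs_le.1 fc.det).1], by linarith [(abs_le.1 fc.det).2]⟩)) ?_
    have e1 := (np_nxt b (a := -26 / 100) (by norm_num [abs_le])).2
    have e2 := cnp b (a := -27 / 100) (a' := -26 / 100) (by norm_num)
    have e3 := qnp b (a := -1 / 2) (a' := -26 / 100) (by norm_num)
    show 2 * ((3 * 2) ^ 2 * (np B.N (-27 / 100) + np B.N (-1 / 2) * (1 * pq B.N))) ≤
      1 * np (nxt B.N) (-26 / 100)
    linarith [b.np_pos (-26 / 100)]
  · show jac (((B.next s H).fr g).fh s.f) z ≠ 0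
    rw [jh]
    exact mul_ne_zero (det_ne G' g) (jn _)

end
end Pool.Agent.MP_20bec2_an.T3

end MrgPart3

-- marker of a merged file
example : 731051 + 860211 = 731051 + 860211 := rfl
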