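import Pool.Agent.MP_20bec2_an.T3.Vtr
import Pool.Agent.MP_20bec2_an.T3.Par3
import Pool.Agent.MP_20bec2_an.T3.CrA

/-! Row FTR: change of frame for the relation `FRel`. -/

set_option autoImplicit false
open Set Filter Matrix Topology

namespace Pool.Agent.MP_20bec2_an.T3
noncomputable section
namespace Ftr

lemma absD {h : ℝ} (hh : 0 < h) (k : Fin 3) (G : V → Mx) (x : V) (a b : Fin 3) :
    |(h • Dm k G x) a b| = h * |pd k (fun w => G w a b) x| := by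
  rw [Matrix.smul_apply, smul_eq_mul, abs_mul, abs_of_pos hh]; rfl

def Ex (u : V) (Θ : Mx) (G1 G : V → Mx) (w w' : V) (i : Fin 3) : Mx :=
  u i • Dm i G1 w - ∑ l, sc u u Θ l i • (u l • Dm l G w')

lemma absE {u : V} (hu : ∀ i, 0 < u i) (Θ : Mx) (G1 G : V → Mx) (w w' : V) (i a b : Fin 3) :
    |Ex u Θ G1 G w w' i a b| = u i * |pd i (fun w => G1 w a b) w -
      ∑ j, pd j (fun w => G w a b) w' * Θ j i| := by
  rw [← abs_of_pos (hu i), ← abs_mul]
  congr 1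
  have := hu 0; have := hu 1; have := hu 2
  simp only [Ex, sc, Dm, Fin.sum_univ_three, Matrix.sub_apply, Matrix.add_apply, Matrix.smul_apply,
    of_apply, smul_eq_mul]
  field_simp

lemma sum_bd {Y : Fin 3 → Mx} {t : V} {m : ℝ} (h : ∀ l, Bd (Y l) m) (ht : ∑ l, |t l| ≤ 2) :
    Bd (∑ l, t l • Y l) (2 * m) := fun a b => by
  rw [Matrix.sum_apply]
  exact abs_sum_le (fun l => h l a b) ht

lemma core {X B B' Θ : Mx} {x0 J μ e n df d : ℝ} {u w' w : V} {γ γ1 Γ Γ1 : V → Mx} {M M1 : V → ℝ}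
    (hX1 : ∀ j, X 1 j = X 0 j) (hX2 : ∀ j, X j 1 = X j 0) (hX : ∀ a b, x0 ≤ X a b ∧ X a b ≤ J)
    (hx0 : 0 < x0) (hu : ∀ i, 0 < u i) (hB : Blk 6 e B) (hB' : Blk 6 e B') (he : e ≤ 1 / 20)
    (hn : n ≤ 1) (He : 10 ^ 7 * (e * (J + μ)) ≤ n * x0) (dM : DifferentiableAt ℝ M w')
    (dM1 : DifferentiableAt ℝ M1 w) (m0 : |M w' - 1| ≤ 1 / 10) (m1 : |M1 w - 1| ≤ 1 / 10)
    (hμ : ∀ k, u k * |pd k M w'| ≤ μ) (hμ1 : ∀ k, u k * |pd k M1 w| ≤ μ) (dγ : DifM γ w')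
    (dγ1 : DifM γ1 w) (dΓ : DifM Γ w') (bγ : Bd (γ w') 10) (bγ1 : Bd (γ1 w) 11)
    (e1 : Γ =ᶠ[𝓝 w'] fun w => (um B (M w))ᵀ * γ w * um B (M w))
    (e2 : γ =ᶠ[𝓝 w'] fun w => (um B' (M w))ᵀ * Γ w * um B' (M w))
    (e3 : Γ1 =ᶠ[𝓝 w] fun w => (um B (M1 w))ᵀ * γ1 w * um B (M1 w))
    (hΘ : ∀ k, ∑ l, |sc u u Θ l k| ≤ 2) (f0 : 0 ≤ df) (f1 : df ≤ 1 / 100) (d0 : 0 ≤ d)
    (H : ∀ d, 0 ≤ d → (∀ a b i, u i * |pd i (fun w => γ w a b) w'| ≤ d * X a b) → ∀ a b i,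
      u i * |pd i (fun w => γ1 w a b) w - ∑ j, pd j (fun w => γ w a b) w' * Θ j i| ≤
        (1 + d) * df * X a b)
    (hd : ∀ a b i, u i * |pd i (fun w => Γ w a b) w'| ≤ 13 / 5 * (d * X a b)) (a b i : Fin 3) :
    u i * |pd i (fun w => Γ1 w a b) w - ∑ j, pd j (fun w => Γ w a b) w' * Θ j i| ≤
      (1 + d) * (3400 * df + n / 3) * X a b := by
  have μ0 : 0 ≤ μ := (mul_nonneg (hu 0).le (abs_nonneg _)).trans (hμ 0)
  have J0 : 0 ≤ J := by linarith [hX 0 0]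
  have p1 := mul_nonneg hB.nn J0
  have p2 := mul_nonneg hB.nn μ0
  have n0 : 0 ≤ n := nonneg_of_mul_nonneg_left (by nlinarith) hx0
  have p3 : n * x0 ≤ x0 := mul_le_of_le_one_left hx0.le hn
  have dJ : ∀ t, 0 ≤ t → ∀ a b, t * X a b ≤ t * J := fun t ht a b =>
    mul_le_mul_of_nonneg_left (hX a b).2 ht
  have u7 : Bd (um B (M w')) 7 := (hB.um_bd m0).mono (by linarith)
  have bΓ : Bd (Γ w') 4410 := by
    rw [e1.eq_of_nhds]; exact ((u7.tr.mul bγ).mul u7).mono (by norm_num)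
  have sm : ∀ t : ℝ, (∀ j, (t • X) 1 j = (t • X) 0 j) ∧ ∀ j, (t • X) j 1 = (t • X) j 0 := fun t =>
    ⟨fun j => congrArg (t * ·) (hX1 j), fun j => congrArg (t * ·) (hX2 j)⟩
  have s3 : ∀ a b i, u i * |pd i (fun w => γ w a b) w'| ≤ (94 * d + 1) * X a b := fun a b i => by
    have h1 := dsand hB' he dM m0 (hu i) (hμ i) dΓ bΓ (m1 := 13 / 5 * (d * J))
      (fun a b => by rw [absD (hu i)]; linarith [hd a b i, dJ d d0 a b]) e2 a b
    have h2 := sand0 hB'.tr hB' (sm (13 / 5 * d)).1 (sm _).2 (G := u i • Dm i Γ w')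
      (fun a b => by rw [absD (hu i)]; exact (hd a b i).trans_eq (mul_assoc _ _ _).symm) a b
    rw [b0_tr, Matrix.smul_apply, smul_eq_mul] at h2
    rw [Matrix.sub_apply] at h1
    rw [← absD (hu i)]
    have h3 := mul_le_mul_of_nonneg_left (show 10 ^ 7 * (e * J) ≤ X a b by
      nlinarith [(hX a b).1]) d0
    have h4 := mul_nonneg d0 p1
    linarith [abs_sub_abs_le_abs_sub ((u i • Dm i γ w') a b)
      (((b0 B')ᵀ * (u i • Dm i Γ w') * b0 B') a b), (hX a b).1]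
  have s4 := H _ (by linarith) s3
  have q0 : ∀ k, Bd (u k • Dm k γ w') ((94 * d + 1) * J) := fun k a b => by
    rw [absD (hu k)]; exact (s3 a b k).trans (dJ _ (by linarith) a b)
  have q1 : Bd (u i • Dm i γ1 w) (3 * (94 * d + 2) * J) := by
    have h1 : Bd (Ex u Θ γ1 γ w w' i) ((1 + (94 * d + 1)) * (1 / 100) * J) := fun a b => by
      rw [absE hu]
      exact (s4 a b i).trans (mul_le_mul (mul_le_mul_of_nonneg_left f1 (by linarith)) (hX a b).2
        (by linarith [hX a b]) (by linarith))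
    have h2 := h1.add (sum_bd q0 (hΘ i))
    rw [Ex, sub_add_cancel] at h2
    exact h2.mono (by nlinarith [mul_nonneg d0 J0])
  have r1 := dsand hB he dM1 m1 (hu i) (hμ1 i) dγ1 bγ1 q1 e3
  have r2 := sum_bd (fun l => dsand hB he dM m0 (hu l) (hμ l) dγ bγ (q0 l) e1) (hΘ i)
  have r3 := sand0 hB.tr hB (sm ((1 + (94 * d + 1)) * df)).1 (sm _).2 (G := Ex u Θ γ1 γ w w' i)
    (fun a b => by rw [absE hu]; exact s4 a b i) a b
  have r4 := r1.sub r2 a b
  have e4 : Ex u Θ Γ1 Γ w w' i = (b0 B)ᵀ * Ex u Θ γ1 γ w w' i * b0 B +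
      (u i • Dm i Γ1 w - (b0 B)ᵀ * (u i • Dm i γ1 w) * b0 B - ∑ l, sc u u Θ l i •
        (u l • Dm l Γ w' - (b0 B)ᵀ * (u l • Dm l γ w') * b0 B)) := by
    simp only [Ex, Fin.sum_univ_three, Matrix.mul_sub, Matrix.sub_mul, Matrix.mul_add,
      Matrix.add_mul, Matrix.mul_smul, Matrix.smul_mul, smul_sub]
    abel
  rw [b0_tr, Matrix.smul_apply, smul_eq_mul] at r3
  rw [← absE hu, e4, Matrix.add_apply]
  refine (abs_add_le _ _).trans ((add_le_add r3 r4).trans ?_)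
  have x1 : 0 ≤ df * X a b := mul_nonneg f0 (by linarith [hX a b])
  have x2 : 10 ^ 7 * (e * J + e * μ) ≤ n * X a b := by
    nlinarith [mul_le_mul_of_nonneg_left (hX a b).1 n0]
  nlinarith [mul_nonneg d0 x1, mul_le_mul_of_nonneg_left x2 d0, mul_nonneg d0 p1, mul_nonneg d0 p2]

lemma mv {u v : V} (hu : ∀ i, 0 < u i) (hv : ∀ i, 0 < v i) (A : Mx) (y : V) (a : Fin 3) :
    |(A *ᵥ y) a| = |sc v u A a 0 * (y 0 / u 0) + sc v u A a 1 * (y 1 / u 1) +
      sc v u A a 2 * (y 2 / u 2)| * v a := by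
  rw [← abs_of_pos (hv a), ← abs_mul]
  congr 1
  have := hu 0; have := hu 1; have := hu 2; have := hv a
  simp only [sc, of_apply, mulVec, dotProduct, Fin.sum_univ_three]
  field_simp

lemma bm_sym (g h k : ℝ) : (∀ j, bm g h k 1 j = bm g h k 0 j) ∧ ∀ j, bm g h k j 1 = bm g h k j 0 :=
  ⟨fun j => by fin_cases j <;> rfl, fun j => by fin_cases j <;> rfl⟩

lemma bm_all {p : ℝ → Prop} {g h k : ℝ} (h1 : p g) (h2 : p h) (h3 : p k) (a b : Fin 3) :
    p (bm g h k a b) := by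
  fin_cases a <;> fin_cases b
  exacts [h1, h1, h2, h1, h1, h2, h2, h2, h3]

lemma num {N : ℕ} (h : Big N) : 13 * dc N * np N 4 ≤ np N (-20) ∧
    10 ^ 4 * N * np N (-20) ≤ np N (-15) ∧
    10 ^ 10 * (np N (-20) * pJ N) ≤ np N (-10) * (pJ N ^ 4 / N) ∧ dc N ≤ 1 / (pq N ^ 2 * pR N) ∧
    pJ N ^ 4 / N ≤ pJ N ^ 3 / √N ∧ pJ N ^ 3 / √N ≤ pJ N := by
  have := h.J_pos; have := h.N_pos; have := h.q_pos; have := h.R_pos; have := h.dc_pos
  have := h.np_pos 4; have := h.np_pos (-20); have := h.np_pos (-10); have := h.np_pos (-15)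
  have := h.L_ge; have := h.J_ge; have := log2_bd.2
  have := (logc_bd (C := 13) (by norm_num)).2; have := (logc_bd (C := 10) (by norm_num)).2
  refine ⟨?_, ?_, ?_, ?_, ?_, ?_⟩ <;> refine le_of_log (by positivity) (by positivity) ?_ <;>
    simp (disch := positivity) only [Real.log_mul, Real.log_div, Real.log_pow, Real.log_one,
      h.log_np, h.log_dc, h.log_N, h.log_J, h.log_q, h.log_R, h.log_sqrtN] <;> push_cast <;> linarith

lemma hs_bd {c : Pm} (g : Gd c) (i : Fin 3) : c.lam ≤ c.hs i ∧ c.hs i ≤ np c.N 4 * c.lam := by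
  have h1 : 1 ≤ np c.N (11 / 10) := (np_zero _).symm.trans_le (g.big.np_le (by norm_num))
  have h2 : np c.N (11 / 10) ≤ np c.N 4 := g.big.np_le (by norm_num)
  have h3 : c.ro ≤ np c.N 4 := le_of_log g.ro_pos (g.big.np_pos _) (by
    rw [g.big.log_np]; linarith [g.log_ro_bd.2, g.big.L_ge, g.big.J_pos])
  have := g.lam_pos.le
  fin_cases i
  exacts [⟨g.lam_le_l1, mul_le_mul_of_nonneg_right h3 this⟩,
    ⟨le_rfl, le_mul_of_one_le_left this (h1.trans h2)⟩,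
    ⟨le_mul_of_one_le_left this h1, mul_le_mul_of_nonneg_right h2 this⟩]

lemma cc_bd {c : Pm} (g : Gd c) (i : Fin 3) :
    2 * np c.N (-2) ≤ c.cc i ∧ 2 * c.cc i ≤ np c.N 2 := by
  have p := g.cc_pos i
  have := g.big.np_pos (-2); have := g.big.np_pos 2
  have h : -pJ c.N - 1 ≤ Real.log (c.cc i) ∧ Real.log (c.cc i) ≤ pJ c.N + 2 := by
    have := g.log_c1; have := g.log_c2; have := g.log_n12_bd; have := g.log_η_ge
    have := g.log_η_le; have := g.log_s1_ge; have := g.log_s2_le; have := g.log_K_bd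
    have := g.log_K; have := g.log_n12; have := g.big.L_ge; have := g.big.J_ge
    fin_cases i
    · show _ ≤ Real.log c.c1 ∧ Real.log c.c1 ≤ _
      constructor <;> linarith
    · show _ ≤ Real.log c.c2 ∧ Real.log c.c2 ≤ _
      constructor <;> linarith
    · show _ ≤ Real.log c.n12 ∧ Real.log c.n12 ≤ _
      constructor <;> linarith
  constructor <;> refine le_of_log (by positivity) (by positivity) ?_ <;>
    simp (disch := positivity) only [Real.log_mul, g.big.log_np] <;>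
    linarith [log2_bd.2, g.big.L_ge, g.big.J_ge]

lemma rot {c : Pm} (g : Gd c) (h : c.s2 ≤ 4 * c.s1) :
    c.l1 = c.lam ∧ c.c1 ≤ 4 * c.c2 ∧ c.c2 ≤ c.c1 := by
  have hK : c.K ≤ 4 := (div_le_iff₀ g.s1_pos).2 h
  have h1 : c.η = 1 := eta_one' g.big.R_ge (by
    have := Real.log_le_log g.K_pos hK
    linarith [g.t_eq, log4_eq, log2_bd.2, g.big.L_ge])
  have h2 : c.e4 = 1 := le_antisymm g.e4_le_one (h1 ▸ g.η_le_e4)
  have h3 : c.m = 1 := max_eq_left (by linarith)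
  have := g.s1_pos; have := g.s2_pos
  refine ⟨by rw [Pm.l1, Pm.ro, h2, h3]; simp, ?_, ?_⟩ <;> rw [Pm.c1, Pm.c2, h1, Real.sqrt_one]
  · rw [mul_one_div, div_le_div_iff₀ g.s1_pos g.s2_pos]; linarith
  · exact one_div_le_one_div_of_le g.s1_pos g.s1_le

lemma blk_hs {c c' : Pm} {A : Mx} {x e : ℝ} {r : Prop} (g : Gd c) (g' : Gd c') (h : Nr x r A)
    (hN : c'.N = c.N) (hl : c'.lam = c.lam) (hro : c.ro ≤ 11 / 10 * c'.ro) (hx : x ≤ 1 / 100)
    (he : x * np c.N 4 ≤ e) (he' : e ≤ 1 / 20) (hr : r → c.s2 ≤ 4 * c.s1) :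
    Blk (5 / 2) e (sc c'.hs c.hs A) := by
  have p := g.lam_pos
  refine h.blk (r := 11 / 10) g'.hs_pos g.hs_pos (fun a b => (hs_bd g b).2.trans
    (mul_le_mul_of_nonneg_left (hl ▸ (hs_bd g' a).1) (g.big.np_pos _).le)) hx he he' ?_ ?_ ?_
    (fun h => ⟨?_, ?_⟩) le_rfl (by norm_num)
  · show c.ro * c.lam ≤ 11 / 10 * (c'.ro * c'.lam)
    rw [hl]; nlinarith
  · show c.lam ≤ 11 / 10 * c'.lam
    linarith
  · show c.y ≤ 11 / 10 * c'.y
    have : c'.y = c.y := by rw [Pm.y, Pm.y, hN, hl]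
    linarith [g.y_pos]
  · show c.l1 ≤ 11 / 10 * c'.lam
    linarith [(rot g (hr h)).1]
  · show c.lam ≤ 11 / 10 * c'.l1
    linarith [g'.lam_le_l1]

def cd (c : Pm) (δ : ℝ) : V := ![c.c1, c.c2, c.n12 / δ]

lemma cd_bd {c : Pm} (g : Gd c) {δ : ℝ} (h1 : 1 / 2 ≤ δ) (h2 : δ ≤ 2) (i : Fin 3) :
    np c.N (-2) ≤ cd c δ i ∧ cd c δ i ≤ np c.N 2 := by
  have := g.big.np_pos (-2); have := g.big.np_pos 2
  have h := cc_bd g i
  fin_cases i
  · have h : 2 * np c.N (-2) ≤ c.c1 ∧ 2 * c.c1 ≤ np c.N 2 := h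
    exact ⟨show _ ≤ c.c1 by linarith, show c.c1 ≤ _ by linarith⟩
  · have h : 2 * np c.N (-2) ≤ c.c2 ∧ 2 * c.c2 ≤ np c.N 2 := h
    exact ⟨show _ ≤ c.c2 by linarith, show c.c2 ≤ _ by linarith⟩
  · have h : 2 * np c.N (-2) ≤ c.n12 ∧ 2 * c.n12 ≤ np c.N 2 := h
    exact ⟨(le_div_iff₀ (by linarith)).2 (by nlinarith), (div_le_iff₀ (by linarith)).2 (by nlinarith)⟩

lemma blk_cd {c c' : Pm} {A : Mx} {x e δ δ' : ℝ} {r : Prop} (g : Gd c) (g' : Gd c') (h : Nr x r A)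
    (hN : c'.N = c.N) (h1 : c.c1 ≤ 11 / 10 * c'.c1) (h2 : c.c2 ≤ 11 / 10 * c'.c2)
    (h3 : c.n12 ≤ 11 / 10 * c'.n12) (d1 : 1 / 2 ≤ δ) (d2 : δ ≤ 2) (d1' : 1 / 2 ≤ δ') (d2' : δ' ≤ 2)
    (hx : x ≤ 1 / 100) (he : x * np c.N 4 ≤ e) (he' : e ≤ 1 / 20) (hr : r → c'.s2 ≤ 4 * c'.s1) :
    Blk 6 e (sc (cd c' δ') (cd c δ) A) := by
  refine h.blk (r := 22 / 5) (fun i => (g'.big.np_pos _).trans_le (cd_bd g' d1' d2' i).1)
    (fun i => (g.big.np_pos _).trans_le (cd_bd g d1 d2 i).1) (fun a b => ?_) hx he he' h1 h2 ?_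
    (fun h => ⟨?_, ?_⟩) (by norm_num) (by norm_num)
  · refine (cd_bd g d1 d2 b).2.trans (le_trans (le_of_eq ?_)
      (mul_le_mul_of_nonneg_left (hN ▸ (cd_bd g' d1' d2' a).1) (g.big.np_pos _).le))
    rw [← g.big.np_add]; norm_num
  · show c.n12 / δ ≤ 22 / 5 * (c'.n12 / δ')
    have h4 : c'.n12 / 2 ≤ c'.n12 / δ' := div_le_div_of_nonneg_left g'.n12_pos.le (by linarith) d2'
    have h5 : c.n12 / δ ≤ c.n12 / (1 / 2) := div_le_div_of_nonneg_left g.n12_pos.le (by linarith) d1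
    linarith
  · show c.c1 ≤ 22 / 5 * c'.c2
    linarith [(rot g' (hr h)).2.1]
  · show c.c2 ≤ 11 / 10 * c'.c1
    linarith [(rot g' (hr h)).2.2]

lemma gam_eq (c : Pm) (g : V → V) (w : V) : c.gam g w = gm (cd c 1) (jm g w) (jac g w) := by
  simp only [gm, cd, div_one]; rfl

lemma gam_aff (c : Pm) {g : V → V} (hg : Sm g) (b : V) (S : Mx) (z : V) :
    c.gam (fun z => g (b + S *ᵥ z)) z =
      gm (cd c S.det) (jm g (b + S *ᵥ z) * S) (jac g (b + S *ᵥ z)) := by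
  have : c.n12 / jac (fun z => g (b + S *ᵥ z)) z = c.n12 / S.det / jac g (b + S *ᵥ z) := by
    rw [jac, jm_comp_affine b S (hg.dif _), det_mul, div_div, mul_comm]; rfl
  rw [Pm.gam, Pm.ca, this, jm_comp_affine b S (hg.dif _)]; rfl

lemma main {c c' : Pm} {S T : Mx} {b z' z : V} {g g1 : V → V} {P : FP} {e : ℝ} (G : Gd c)
    (G' : Gd c') (hN : c'.N = c.N) (hy : c'.y = c.y) (ST : S * T = 1) (dS : 0 < S.det)
    (bS : Blk (5 / 2) e (sc c'.hs c.hs S)) (bT : Blk (5 / 2) e (sc c.hs c'.hs T))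
    (S2 : |S 2 2| ≤ 1 + e) (T2 : |T 2 2| ≤ 1 + e) (bB : Blk 6 e (sc (cd c' 1) (cd c S.det) S))
    (bB' : Blk 6 e (sc (cd c S.det) (cd c' 1) T)) (he : e = np c.N (-20)) (hg : Sm g) (hg1 : Sm g1)
    (hP : P.Bd c.N) (m0 : |jac g (b + S *ᵥ z') - 1| ≤ 1 / 10) (m1 : |jac g1 (b + S *ᵥ z) - 1| ≤ 1 / 10)
    (j0 : CB 1 c'.hs {b + S *ᵥ z'} (jac g) (100 * pq c.N))
    (j1 : CB 1 c'.hs {b + S *ᵥ z} (jac g1) (100 * pq c.N)) (bγ : Bd (c'.gam g (b + S *ᵥ z')) 10)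
    (R : FRel c' g g1 (b + S *ᵥ z') (b + S *ᵥ z) P) :
    FRel c (fun z => g (b + S *ᵥ z)) (fun z => g1 (b + S *ᵥ z)) z' z (P.up c.N) := by
  obtain ⟨⟨p1, p2, p3, p4, p5, p6, p7, p8⟩, q1, q2, q3, q4, q5, q6, q7, q8⟩ := hP
  simp only at p1 p2 p3 p4 p5 p6 p7 p8 q1 q2 q3 q4 q5 q6 q7 q8
  obtain ⟨-, n2, n3, -, n5, n6⟩ := num G.big
  rw [← he] at n2 n3
  have hu := G'.hs_pos; have hv := G.hs_pos
  have e0 := bS.nn
  have N1 : (1 : ℝ) ≤ c.N := by linarith [G.big.N_ge, G.big.J_ge, G.big.L_ge]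
  have n15 : np c.N (-15) ≤ 1 := (G.big.np_le (by norm_num)).trans_eq (np_zero _)
  have n7 : 10 ^ 4 * e ≤ np c.N (-15) := by nlinarith
  have e1 : e ≤ 1 / 20 := by linarith
  have TS : T * S = 1 := mul_eq_one_comm.1 ST
  set w' := b + S *ᵥ z' with hw'
  set w := b + S *ᵥ z with hw
  have ez : z - z' = T *ᵥ (w - w') := by
    rw [hw, hw', add_sub_add_left_eq_sub, ← mulVec_sub, mulVec_mulVec, TS, one_mulVec]
  have tl : ∀ i, i ≠ 2 → |(w - w') i / c'.hs i| ≤ P.dl := fun i hi => by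
    rw [abs_div, abs_of_pos (hu i), div_le_iff₀ (hu i)]; exact R.dl i hi
  have tv : |(w - w') 2 / c'.hs 2| ≤ P.dv := by
    rw [abs_div, abs_of_pos (hu 2), div_le_iff₀ (hu 2)]; exact R.dv
  set Θ := Th g g1 w' w with hΘ
  have eΘ : Th (fun z => g (b + S *ᵥ z)) (fun z => g1 (b + S *ᵥ z)) z' z = T * Θ * S := by
    rw [Th, jm_comp_affine b S (hg.dif _), jm_comp_affine b S (hg1.dif _), Matrix.mul_inv_rev,
      inv_eq_right_inv ST, hΘ, Th]
    simp only [Matrix.mul_assoc]; rfl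
  have eY : sc c.hs c.hs (T * Θ * S - 1) =
      sc c.hs c'.hs T * sc c'.hs c'.hs (Θ - 1) * sc c'.hs c.hs S := by
    rw [← sc_mul hu, ← sc_mul hu, Matrix.mul_sub, Matrix.sub_mul, Matrix.mul_one, TS]
  have bY : EB (sc c'.hs c'.hs (Θ - 1)) (bm P.th P.th P.t3) := fun a b => by
    refine (abs_sc hu hu a b).2 ?_
    by_cases h : a = 2 ∧ b = 2
    · obtain ⟨rfl, rfl⟩ := h
      exact mul_le_mul_of_nonneg_right R.t3 (hu 2).le
    · refine (R.th a b h).trans (le_of_eq ?_)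
      fin_cases a <;> fin_cases b <;> first | rfl | exact absurd ⟨rfl, rfl⟩ h
  have bY' : Bd (sc c'.hs c'.hs (Θ - 1)) (1 / 100) := fun a b =>
    (bY a b).trans (bm_all (p := (· ≤ 1 / 100)) q6 q6 q7 a b)
  have o1 : |(1 : ℝ) - 1| ≤ 1 / 10 := by norm_num
  have er := sand_err (um_one _ ▸ bT.um_sub o1) (um_one _ ▸ bS.um_sub o1) (bT.bd0.mono (by norm_num))
    ((um_one _ ▸ bS.um_bd o1 : Bd (sc c'.hs c.hs S) _).mono (by linarith)) bY'
  rw [← eY] at er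
  have tri : ∀ {A B : Mx} {t : ℝ}, Bd (A - B) t → ∀ a b, |A a b| ≤ |B a b| + t := fun h a b =>
    sub_le_iff_le_add'.1 ((abs_sub_abs_le_abs_sub _ _).trans (h a b))
  have cu : ∀ i, 0 < cd c' 1 i := fun i =>
    (G'.big.np_pos _).trans_le (cd_bd G' (by norm_num) (by norm_num) i).1
  have cv : ∀ i, 0 < cd c S.det i := fun i => by
    fin_cases i
    exacts [G.c1_pos, G.c2_pos, div_pos G.n12_pos dS]
  have ev : ∀ {g : V → V} {w : V}, Sm g → |jac g w - 1| ≤ 1 / 10 → ∀ᶠ x in 𝓝 w, jac g x ≠ 0 :=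
    fun hg h => hg.jac.continuous.continuousAt.eventually_ne (inv_bd h).1.ne'
  have fw : ∀ {g : V → V} {w : V}, Sm g → |jac g w - 1| ≤ 1 / 10 →
      (fun x => gm (cd c S.det) (jm g x * S) (jac g x)) =ᶠ[𝓝 w] fun x =>
        (um (sc (cd c' 1) (cd c S.det) S) (jac g x))ᵀ * c'.gam g x *
          um (sc (cd c' 1) (cd c S.det) S) (jac g x) := fun hg h =>
    (ev hg h).mono fun x hx => by simp only [gam_eq c']; exact gm_mul _ cu _ S hx
  have bγ1 : Bd (c'.gam g1 w) 11 := fun a b => by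
    linarith [tri (fun a b => (R.dg a b).trans (bm_all (p := (· ≤ 1)) q3 q4 q5 a b)) a b, bγ a b]
  refine ⟨R.mt, fun i hi => ?_, ?_, fun a a' => ?_, fun a a' h => ?_, ?_, fun d d0 hd a a' i => ?_⟩
  · rw [← Pi.sub_apply, ez, mv hu hv]
    refine mul_le_mul_of_nonneg_right ((abs_add_le _ _).trans ?_) (hv i).le
    have := two (tl 0 (by decide)) (tl 1 (by decide)) (bT.row i hi)
    have := abs_mul_le (bT.off i hi).1 tv
    show _ ≤ 100 * P.dl + np c.N (-15)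
    nlinarith [mul_le_mul_of_nonneg_left q2 e0]
  · rw [← Pi.sub_apply, ez, mv hu hv]
    refine mul_le_mul_of_nonneg_right ((abs_add_three _ _ _).trans ?_) (hv 2).le
    have := abs_mul_le (bT.off 0 (by decide)).2 (tl 0 (by decide))
    have := abs_mul_le (bT.off 1 (by decide)).2 (tl 1 (by decide))
    have := abs_mul_le bT.d tv
    show _ ≤ 100 * P.dv + np c.N (-15)
    nlinarith [mul_le_mul_of_nonneg_left q1 e0]
  · rw [gam_aff c hg, gam_aff c hg1, (fw hg m0).eq_of_nhds, (fw hg1 m1).eq_of_nhds]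
    have h1 := (bB.err e1 m1 bγ1).sub (bB.err e1 m0 bγ)
    rw [sub_sub_sub_comm, ← Matrix.sub_mul, ← Matrix.mul_sub] at h1
    have h2 := sand0 bB.tr bB (bm_sym _ _ _).1 (bm_sym _ _ _).2 R.dg a a'
    rw [b0_tr] at h2
    refine (tri h1 a a').trans ?_
    have h3 : 6 ^ 2 * bm P.eg P.eh P.ek a a' + np c.N (-15) ≤
        bm (P.up c.N).eg (P.up c.N).eh (P.up c.N).ek a a' := by
      fin_cases a <;> fin_cases a' <;> simp [bm, FP.up] <;> linarith
    linarith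
  · rw [eΘ]
    refine (abs_sc hv hv a a').1 ((tri er a a').trans ?_)
    have h2 := sand0 bT bS (bm_sym _ _ _).1 (bm_sym _ _ _).2 bY a a'
    have h3 : bm P.th P.th P.t3 a a' = P.th := by
      fin_cases a <;> fin_cases a' <;> first | rfl | exact absurd ⟨rfl, rfl⟩ h
    show _ ≤ 100 * P.th + np c.N (-15)
    rw [h3] at h2
    linarith
  · rw [eΘ]
    refine le_of_mul_le_mul_right ((abs_sc (A := T * Θ * S - 1) hv hv 2 2).1
      ((tri er 2 2).trans ?_)) (hv 2)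
    have y0 := G.y_pos
    have h1 : (b0 (sc c.hs c'.hs T) * sc c'.hs c'.hs (Θ - 1) * b0 (sc c'.hs c.hs S)) 2 2 =
        T 2 2 * sc c'.hs c'.hs (Θ - 1) 2 2 * S 2 2 := by
      have h2 : sc c.hs c'.hs T 2 2 = T 2 2 := by simp [sc, Pm.hs, hy, y0.ne']
      have h3 : sc c'.hs c.hs S 2 2 = S 2 2 := by simp [sc, Pm.hs, hy, y0.ne']
      simp only [mul_apply, Fin.sum_univ_three]
      simp [b0, h2, h3]
    have h2 : _ ≤ (1 + e) * P.t3 * (1 + e) := abs_mul_le (abs_mul_le T2 (bY 2 2)) S2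
    show _ ≤ P.t3 + np c.N (-15)
    rw [h1]
    nlinarith [mul_le_mul_of_nonneg_left q7 e0, mul_le_mul e1 q7 p7 (by norm_num)]
  · have dG : ∀ {g : V → V} {w : V}, Sm g → |jac g w - 1| ≤ 1 / 10 →
        DifM (fun x => gm (cd c S.det) (jm g x * S) (jac g x)) w ∧ DifM (c'.gam g) w := fun hg h =>
      ⟨dif_gm _ (hg.jm.mul (smM_const S)) hg.jac (inv_bd h).1.ne', by
        rw [funext (gam_eq c' _)]; exact dif_gm _ hg.jm hg.jac (inv_bd h).1.ne'⟩
    have pa : ∀ {g : V → V} {z : V}, Sm g → |jac g (b + S *ᵥ z) - 1| ≤ 1 / 10 → ∀ a a' j,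
        pd j (fun x => c.gam (fun z => g (b + S *ᵥ z)) x a a') z = ((fun l => pd l
          (fun x => gm (cd c S.det) (jm g x * S) (jac g x) a a') (b + S *ᵥ z)) ᵥ* S) j :=
      fun hg h a a' j => by
        simp only [gam_aff c hg]
        exact pd_comp_affine b S ((dG hg h).1 a a') j
    have hX : ∀ a b, pJ c.N ^ 4 / c.N ≤ Xj c.N a b ∧ Xj c.N a b ≤ pJ c.N :=
      bm_all (p := fun t => pJ c.N ^ 4 / c.N ≤ t ∧ t ≤ pJ c.N) ⟨le_rfl, n5.trans n6⟩ ⟨n5, n6⟩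
        ⟨n5.trans n6, le_rfl⟩
    have x0 : 0 < pJ c.N ^ 4 / c.N := G.J4N_pos
    have n10 := (G.big.np_pos (-10)).le
    have k := core (n := np c.N (-10)) (d := d) (Θ := Θ) (bm_sym _ _ _).1 (bm_sym _ _ _).2 hX x0 hu
      bB bB' e1 ((G.big.np_le (by norm_num)).trans_eq (np_zero _))
      (by nlinarith [mul_le_mul_of_nonneg_left G.big.q_le_J e0, mul_nonneg e0 G.big.J_pos.le])
      (hg.jac.dif _) (hg1.jac.dif _) m0 m1 (fun k => j0.pd_le le_rfl k rfl)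
      (fun k => j1.pd_le le_rfl k rfl) (dG hg m0).2 (dG hg1 m1).2 (dG hg m0).1 bγ bγ1 (fw hg m0)
      ((ev hg m0).mono fun x hx => by
        have := gm_mul (cd c' 1) cv (jm g x * S) T hx
        rwa [Matrix.mul_assoc, ST, Matrix.mul_one, ← gam_eq] at this) (fw hg1 m1)
      (fun k => by
        have h : ∀ l, |sc c'.hs c'.hs Θ l k| ≤ (1 : Mx) l k + 1 / 100 := fun l => by
          have : sc c'.hs c'.hs Θ l k = (1 : Mx) l k + sc c'.hs c'.hs (Θ - 1) l k := by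
            have := hu l
            by_cases h : l = k
            · subst h; simp only [sc, of_apply, Matrix.sub_apply, one_apply_eq]; field_simp; ring
            · simp [sc, one_apply_ne h]
          rw [this]
          refine (abs_add_le _ _).trans (add_le_add (le_of_eq (abs_of_nonneg ?_)) (bY' l k))
          rw [one_apply]; split_ifs <;> norm_num
        refine (Finset.sum_le_sum fun l _ => h l).trans ?_
        simp [Finset.sum_add_distrib, one_apply]; norm_num) p8 q8 d0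
      (fun d d0 h => hN ▸ R.df d d0 (hN ▸ h : ∀ a b i, _ ≤ d * Xj c'.N a b))
      (fun a a' i => by
        have := vm hv hu (fun l => (pa hg m0 a a' l ▸ hd a a' l :)) (bT.cs i)
        rw [vecMul_vecMul, ST, vecMul_one] at this
        exact this.trans (mul_le_mul_of_nonneg_right (by linarith)
          (mul_nonneg d0 (x0.le.trans (hX a a').1)))) a a'
    have := vm (x := (fun l => pd l (fun x => gm (cd c S.det) (jm g1 x * S) (jac g1 x) a a') w) -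
      (fun l => pd l (fun x => gm (cd c S.det) (jm g x * S) (jac g x) a a') w') ᵥ* Θ)
      hu hv k (bS.cs i)
    rw [sub_vecMul, vecMul_vecMul] at this
    simp only [pa hg m0, pa hg1 m1, eΘ]
    refine le_trans (le_of_eq ?_) (this.trans ?_)
    · congr 2
      refine congrArg (_ - ·) (congrFun (?_ : (_ ᵥ* S) ᵥ* (T * Θ * S) = _) i)
      rw [vecMul_vecMul, ← Matrix.mul_assoc, ← Matrix.mul_assoc, ST, Matrix.one_mul]
    · have h1 := mul_nonneg (add_nonneg zero_le_one d0) (x0.le.trans (hX a a').1)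
      have h2 : (5 / 2 + 2 * e) * (3400 * P.df + np c.N (-10) / 3) ≤ (P.up c.N).df := by
        show _ ≤ 10 ^ 4 * P.df + np c.N (-10)
        nlinarith [mul_le_mul_of_nonneg_left e1 p8, mul_le_mul_of_nonneg_left e1 n10]
      show _ * (_ * Xj c.N a a') ≤ _
      linarith [mul_le_mul_of_nonneg_left h2 h1]

end Ftr

open Ftr in
theorem ftr : FtrStmt := by
  filter_upwards [ev_big] with N big F F' lb k f f' p' p P hO hO' hQ hQ' cp ok ok' hf hf' hP m0 m1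
    j0 j1 bγ R
  have G : Gd (F.pm N lb k) := ⟨big, ok⟩
  have G' : Gd (F'.pm N lb k) := ⟨big, ok'⟩
  obtain ⟨n1, n2, -, n4, -⟩ := num big
  have C := cp.cp G G' n4
  have d0 := big.dc_pos
  have N1 : (1 : ℝ) ≤ N := by linarith [big.N_ge, big.J_ge, big.L_ge]
  have n15 : np N (-15) ≤ 1 := (big.np_le (by norm_num)).trans_eq (np_zero _)
  have n4 : 1 ≤ np N 4 := (np_zero _).symm.trans_le (big.np_le (by norm_num))
  have e1 : np N (-20) ≤ 1 / 10000 := by nlinarith [big.np_pos (-20)]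
  have e2 : 13 * dc N ≤ np N (-20) := by nlinarith
  set T := F.Q⁻¹ * F'.Q
  set S := F'.Q⁻¹ * F.Q with hS
  have ST : S * T = 1 := by
    rw [Matrix.mul_assoc, ← Matrix.mul_assoc F.Q, Prof.q_inv hQ.ne', Matrix.one_mul,
      Prof.inv_q hQ'.ne']
  have hΩ := Prof.orth_mul (Prof.orth_t hO) hO'
  have tq : Bd (T - F.Oᵀ * F'.O) (dc N) := cp.tq
  have sq := inv_near hΩ tq (by linarith) ST
  have nT := nr_of hΩ (tq.mono (by linarith : _ ≤ 12 * dc N)) cp.o3 cp.al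
  have nS := nr_of (Prof.orth_t hΩ) sq (fun i hi => (cp.o3 i hi).symm) (cp.al.imp_left And.symm)
  have dT := det_le hΩ (tq.mono (by linarith))
  have dS := det_le (Prof.orth_t hΩ) (sq.mono (by linarith))
  have pS : 0 < S.det := by
    rw [hS, det_mul, det_nonsing_inv, Ring.inverse_eq_inv']; positivity
  have dS' : 1 / 2 ≤ S.det := by
    have := congrArg det ST
    rw [det_mul, det_one] at this
    nlinarith
  have r : ∀ X ∈ [Pm.ro, Pm.c1, Pm.c2, Pm.n12], 0 < X (F.pm N lb k) → 0 < X (F'.pm N lb k) →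
      X (F.pm N lb k) ≤ 11 / 10 * X (F'.pm N lb k) ∧
        X (F'.pm N lb k) ≤ 11 / 10 * X (F.pm N lb k) := fun X hX h h' => by
    obtain ⟨-, h1, h2, -⟩ := C.ratios X (by
      simp only [List.mem_cons, List.not_mem_nil, or_false] at hX ⊢; tauto)
    constructor <;> nlinarith [C.q_inv.2]
  have r1 := r Pm.ro (by simp) G.ro_pos G'.ro_pos
  have r2 := r Pm.c1 (by simp) G.c1_pos G'.c1_pos
  have r3 := r Pm.c2 (by simp) G.c2_pos G'.c2_pos
  have r4 := r Pm.n12 (by simp) G.n12_pos G'.n12_pos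
  have x1 : dc N + 12 * dc N ≤ 1 / 100 := by linarith
  have x2 : (dc N + 12 * dc N) * np N 4 ≤ np N (-20) := by linarith
  have x3 : np N (-20) ≤ 1 / 20 := by linarith
  have a1 : ∀ z, F'.zc F.z0 + S *ᵥ z = F'.zc (F.zp z) := fun z => by
    rw [hS, ← mulVec_mulVec, Fr.zc, Fr.zc, ← mulVec_add, Fr.zp, add_sub_right_comm]
  have a2 : ∀ g : V → V, F.fh g = fun z => F'.fh g (F'.zc F.z0 + S *ᵥ z) := fun g => funext fun z => by
    rw [a1, Fr.fh, Fr.fh, Prof.zp_zc hQ'.ne']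
  have a3 : ∀ p, F'.zc p = F'.zc F.z0 + S *ᵥ F.zc p := fun p => by rw [a1, Prof.zp_zc hQ.ne']
  rw [a3 p'] at m0 j0 bγ R
  rw [a3 p] at m1 j1 R
  rw [a2 f, a2 f']
  exact main G G' rfl rfl ST pS (blk_hs G G' nS rfl rfl r1.1 x1 x2 x3 And.left)
    (blk_hs G' G nT rfl rfl r1.2 x1 x2 x3 And.right) (by linarith [nS.all 2 2])
    (by linarith [nT.all 2 2])
    (blk_cd G G' nS rfl r2.1 r3.1 r4.1 dS' dS (by norm_num) (by norm_num) x1 x2 x3 And.right)
    (blk_cd G' G nT rfl r2.2 r3.2 r4.2 (by norm_num) (by norm_num) dS' dS x1 x2 x3 And.left) rfl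
    (hf.comp (Prof.zp_sm F')) (hf'.comp (Prof.zp_sm F')) hP m0 m1 j0 j1 bγ R

end
end Pool.Agent.MP_20bec2_an.T3
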