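import Pool.Agent.MP_20bec2_an.T3.Yq
import Pool.Agent.MP_20bec2_an.T3.Par4
import Pool.Agent.MP_20bec2_an.T3.Ftr
import Pool.Agent.MP_20bec2_an.T3.Nc
import Pool.Agent.MP_20bec2_an.T3.Fcomp

-- ======== part 0: formerly Pool.Agent.MP_20bec2_an.T3.TtA
section MrgPart0

/-! Change of block, part A: old against new parameters, and the entries of the transition. -/

set_option autoImplicit false
set_option linter.unusedSectionVars false
open Set Filter Matrix Topology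

namespace Pool.Agent.MP_20bec2_an.T3
noncomputable section

/-- parameters of an old cube and of a new cube over it -/
structure Cq (c c' : Pm) : Prop where
  g : Gd c
  g' : Gd c'
  hN : c'.N = nxt c.N
  s1 : |Real.log c'.s1 - Real.log c.s1| ≤ 1 / (c.q ^ 2 * pR c.N)
  s2 : |Real.log c'.s2 - Real.log c.s2| ≤ 1 / (c.q ^ 2 * pR c.N)

lemma TF.cq {c c' : Pm} {T Ω : Mx} {h : ℝ} (t : TF c c'.s1 c'.s2 T Ω h) (g : Gd c) (g' : Gd c')
    (hN : c'.N = nxt c.N) : Cq c c' :=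
  ⟨g, g', hN, Real.log_div g'.s1_pos.ne' g.s1_pos.ne' ▸ t.ls.1,
    Real.log_div g'.s2_pos.ne' g.s2_pos.ne' ▸ t.ls.2⟩

namespace Cq
variable {c c' : Pm} (h : Cq c c')
include h

lemma w_bd : 0 < 1 / c.q ^ 2 ∧ 1 / c.q ^ 2 ≤ 1 / c.q / 10000000 ∧ 1 / c.q ≤ 1 / 10000000 := by
  have h1 : 10000000 ≤ c.q := h.g.big.q_ge
  refine ⟨by positivity, ?_, one_div_le_one_div_of_le (by norm_num) h1⟩
  rw [div_div]; exact one_div_le_one_div_of_le (by positivity) (by nlinarith)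

lemma d_bd : pR c.N * (1 / (c.q ^ 2 * pR c.N)) = 1 / c.q ^ 2 ∧
    10 * (1 / (c.q ^ 2 * pR c.N)) ≤ 1 / c.q ^ 2 := by
  have p := h.g.big.R_pos; have := h.g.q_pos
  have e : pR c.N * (1 / (c.q ^ 2 * pR c.N)) = 1 / c.q ^ 2 := by field_simp
  exact ⟨e, e ▸ mul_le_mul_of_nonneg_right h.g.big.R_ge (by positivity)⟩

lemma N_bd : c.N ≤ c'.N ∧ (c'.N : ℝ) ≤ c.N + c.J := h.hN ▸ h.g.big.nxt_le

lemma dJ : 0 ≤ pJ c'.N - pJ c.N ∧ 1000 * pJ c.N * (pJ c'.N - pJ c.N) ≤ 1 / c.q ^ 2 ∧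
    1000 * (pJ c'.N - pJ c.N) ≤ 1 / c.q ^ 2 := by
  have p := h.g.N_pos; have p' := h.g'.N_pos; have := h.g.J_pos; have := h.g.q_pos
  have h1 := Real.log_le_sub_one_of_pos (div_pos p' p)
  rw [Real.log_div p'.ne' p.ne', div_sub_one p.ne'] at h1
  have h2 : pJ c'.N - pJ c.N ≤ c.J / c.N :=
    h1.trans (div_le_div_of_nonneg_right (by linarith [h.N_bd.2]) p.le)
  have h3 : 1000 * c.J * (c.J / c.N) ≤ 1 / c.q ^ 2 := by
    refine le_of_log (by positivity) (by positivity) ?_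
    simp (disch := positivity) only [Real.log_div, Real.log_mul, Real.log_pow, Real.log_one,
      h.g.log_q, h.g.log_J, h.g.big.log_N]
    push_cast
    linarith [h.g.big.L_ge, h.g.big.J_ge, (logc_bd (show (1 : ℝ) ≤ 1000 by norm_num)).2]
  have h4 : 0 ≤ pJ c'.N - pJ c.N := sub_nonneg.2 (Real.log_le_log p (Nat.cast_le.2 h.N_bd.1))
  have h5 := (mul_le_mul_of_nonneg_left h2 (show 0 ≤ 1000 * c.J by positivity)).trans h3
  have h6 : 1 ≤ c.J := by linarith [h.g.big.J_ge, h.g.big.L_ge, show c.J = pJ c.N from rfl]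
  exact ⟨h4, h5, by nlinarith⟩

lemma dL : 0 ≤ pL c'.N - pL c.N ∧ pJ c.N * (pL c'.N - pL c.N) ≤ pJ c'.N - pJ c.N ∧
    1000 * (pL c'.N - pL c.N) ≤ 1 / c.q ^ 2 := by
  have p := h.g.big.J_pos; have p' := h.g'.big.J_pos
  have h1 := Real.log_le_sub_one_of_pos (div_pos p' p)
  rw [Real.log_div p'.ne' p.ne'] at h1
  have h0 : 0 ≤ pL c'.N - pL c.N := sub_nonneg.2 (Real.log_le_log p (by linarith [h.dJ.1]))
  have h2 := mul_le_mul_of_nonneg_left h1 p.le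
  rw [mul_sub (pJ c.N) (_ / _), mul_div_cancel₀ _ p.ne', mul_one] at h2
  have h6 : 1 ≤ pJ c.N := by linarith [h.g.big.J_ge, h.g.big.L_ge]
  have h7 : pL c'.N - pL c.N ≤ pJ c'.N - pJ c.N := (le_mul_of_one_le_left h0 h6).trans h2
  exact ⟨h0, h2, by linarith [h.dJ.2.2]⟩

lemma cl_K : |Real.log c'.K - Real.log c.K| ≤ 2 * (1 / (c.q ^ 2 * pR c.N)) ∧
    |Real.log c'.n12 - Real.log c.n12| ≤ 2 * (1 / (c.q ^ 2 * pR c.N)) := by
  obtain ⟨h1, h2⟩ := abs_le.1 h.s1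
  obtain ⟨h3, h4⟩ := abs_le.1 h.s2
  rw [h.g.log_K, h.g'.log_K, h.g.log_n12, h.g'.log_n12]
  constructor <;> exact abs_le.2 ⟨by linarith, by linarith⟩

lemma cl_η : |Real.log c'.η - Real.log c.η| ≤ 3 * (1 / c.q ^ 2) := by
  have hR := h.g.big.R_ge
  have e : pR c.N = 4 * pJ c.N := rfl
  have e' : pR c'.N = 4 * pJ c'.N := rfl
  obtain ⟨h1, h2⟩ := abs_le.1 (log_eta_R (R' := pR c'.N) (t := c'.t) hR (by linarith [h.dJ.1])
    (by linarith [h.g'.t_le]))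
  have h3 := log_eta_shift hR c.t c'.t
  have h4 := log_eta_shift hR c'.t c.t
  rw [abs_sub_comm] at h4
  have ht : |c'.t - c.t| ≤ 2 * (1 / (c.q ^ 2 * pR c.N)) + 15 / 4 * (pL c'.N - pL c.N) := by
    obtain ⟨h1, h2⟩ := abs_le.1 h.cl_K.1
    rw [h.g.t_eq, h.g'.t_eq]
    exact abs_le.2 ⟨by linarith [h.dL.1], by linarith [h.dL.1]⟩
  have h5 := mul_le_mul_of_nonneg_left ht h.g.big.R_pos.le
  have h6 : pR c.N * (pL c'.N - pL c.N) ≤ 4 * (pJ c'.N - pJ c.N) := by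
    rw [e]; linarith [h.dL.2.1]
  have := h.dJ.2.2; have := h.d_bd.1; have := h.w_bd.1
  unfold Pm.η
  exact abs_le.2 ⟨by linarith, by linarith⟩

lemma cl_e4 : |Real.log c'.e4 - Real.log c.e4| ≤ 3 * (1 / c.q ^ 2) :=
  max_cl h.g.log_e4 h.g'.log_e4 h.cl_η (abs_le.2
    ⟨by linarith [h.dL.1, h.dJ.2.2, h.w_bd.1], by linarith [h.dL.2.2, h.dJ.1, h.w_bd.1]⟩)

lemma cl_m : |Real.log c'.m - Real.log c.m| ≤ 1 / c.q ^ 2 :=
  max_cl h.g.log_m h.g'.log_m (by simp only [sub_self, abs_zero]; exact h.w_bd.1.le)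
    (by rw [sub_sub_sub_cancel_right]; linarith [h.cl_K.1, h.d_bd.2, h.w_bd.1])

lemma cl_pf : |Real.log c'.pf - Real.log c.pf| ≤ 4 * (1 / c.q ^ 2) := by
  obtain ⟨h3, h4⟩ := abs_le.1 h.cl_e4
  rw [h.g.log_pf, h.g'.log_pf]
  exact abs_le.2 ⟨by linarith [h.dL.2.2, h.dJ.2.2], by linarith [h.dL.1, h.dJ.1]⟩

lemma cl_p : |Real.log c'.p - Real.log c.p| ≤ 4 * (1 / c.q ^ 2) := by
  obtain ⟨h1, h2⟩ := abs_le.1 h.cl_η
  exact min_cl h.g.log_p h.g'.log_p h.cl_pf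
    (abs_le.2 ⟨by linarith [h.dL.1, h.dJ.2.2], by linarith [h.dL.2.2, h.dJ.1]⟩)

/-- from logarithms to ratios -/
lemma ratio {x y : ℝ} (hx : 0 < x) (hy : 0 < y)
    (hl : |Real.log y - Real.log x| ≤ 100 * (1 / c.q ^ 2)) :
    y ≤ (1 + 1 / c.q) * x ∧ x ≤ (1 + 1 / c.q) * y ∧ y ≤ 1001 / 1000 * x ∧ x ≤ 1001 / 1000 * y := by
  obtain ⟨h0, h1, h2⟩ := h.w_bd
  have h3 := abs_div_sub_one_le hx hy hl (by linarith)
  have h4 := abs_div_sub_one_le hy hx ((abs_sub_comm _ _).trans_le hl) (by linarith)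
  have h5 : y ≤ (1 + 1 / c.q) * x := by
    rw [← div_le_iff₀ hx]; linarith [(abs_le.1 h3).2]
  have h6 : x ≤ (1 + 1 / c.q) * y := by
    rw [← div_le_iff₀ hy]; linarith [(abs_le.1 h4).2]
  exact ⟨h5, h6, by nlinarith, by nlinarith⟩

/-- use as `h.ratios Pm.ro (by simp)` -/
lemma ratios : ∀ X ∈ [Pm.s1, Pm.s2, Pm.K, Pm.n12, Pm.η, Pm.e4, Pm.m, Pm.ro, Pm.pf, Pm.p, Pm.c1,
      Pm.c2, Pm.J, Pm.q, Pm.ζ, fun c => √(c.η * c.p), fun c => (c.N : ℝ), fun c => √(c.N : ℝ),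
      fun c => np c.N (11 / 10), fun c => fr0 c.N, fun c => cg0 c.N, fun c => hc c.N,
      fun c => c.J ^ 2 / √c.N],
    X c' ≤ (1 + 1 / c.q) * X c ∧ X c ≤ (1 + 1 / c.q) * X c' ∧ X c' ≤ 1001 / 1000 * X c ∧
      X c ≤ 1001 / 1000 * X c' := by
  obtain ⟨a1, a2⟩ := abs_le.1 h.s1
  obtain ⟨a3, a4⟩ := abs_le.1 h.s2
  obtain ⟨a5, a6⟩ := abs_le.1 h.cl_η
  obtain ⟨a7, a8⟩ := abs_le.1 h.cl_e4
  obtain ⟨a9, a10⟩ := abs_le.1 h.cl_m
  obtain ⟨a11, a12⟩ := abs_le.1 h.cl_p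
  have := h.w_bd.1; have := h.d_bd.2; have := h.dL.1; have := h.dL.2.2; have := h.dJ.1
  have := h.dJ.2.2
  have G := h.g; have G' := h.g'
  have k : ∀ {c : Pm}, Gd c → Real.log √(c.η * c.p) = (Real.log c.η + Real.log c.p) / 2 ∧
      Real.log (c.J ^ 2 / √c.N) = 2 * pL c.N - pJ c.N / 2 := fun g =>
    ⟨by rw [Real.log_sqrt g.ηp_pos.le, Real.log_mul g.η_pos.ne' g.p_pos.ne'], by
      rw [Real.log_div (pow_pos g.J_pos 2).ne' g.big.sqrtN_pos.ne', Real.log_pow, g.log_J,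
        g.big.log_sqrtN, Nat.cast_ofNat]⟩
  simp only [List.forall_mem_cons, List.not_mem_nil, false_imp_iff, implies_true, and_true]
  refine ⟨h.ratio G.s1_pos G'.s1_pos ?_, h.ratio G.s2_pos G'.s2_pos ?_,
    h.ratio G.K_pos G'.K_pos (by linarith [h.cl_K.1]),
    h.ratio G.n12_pos G'.n12_pos (by linarith [h.cl_K.2]), h.ratio G.η_pos G'.η_pos ?_,
    h.ratio G.e4_pos G'.e4_pos ?_, h.ratio G.m_pos G'.m_pos ?_, h.ratio G.ro_pos G'.ro_pos ?_,
    h.ratio G.pf_pos G'.pf_pos (by linarith [h.cl_pf]), h.ratio G.p_pos G'.p_pos ?_,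
    h.ratio G.c1_pos G'.c1_pos ?_, h.ratio G.c2_pos G'.c2_pos ?_, h.ratio G.J_pos G'.J_pos ?_,
    h.ratio G.q_pos G'.q_pos ?_, h.ratio G.ζ_pos G'.ζ_pos ?_, h.ratio G.sηp_pos G'.sηp_pos ?_,
    h.ratio G.N_pos G'.N_pos ?_, h.ratio G.big.sqrtN_pos G'.big.sqrtN_pos ?_,
    h.ratio (G.big.np_pos _) (G'.big.np_pos _) ?_, h.ratio G.big.fr0_pos G'.big.fr0_pos ?_,
    h.ratio G.big.cg0_pos G'.big.cg0_pos ?_, h.ratio G.big.hc_pos G'.big.hc_pos ?_,
    h.ratio G.J2N_pos G'.J2N_pos ?_⟩ <;>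
  (try simp only [G.log_ro, G'.log_ro, G.log_c1, G'.log_c1, G.log_c2, G'.log_c2, G.log_J, G'.log_J,
    G.log_q, G'.log_q, G.log_ζ, G'.log_ζ, (k G).1, (k G').1, (k G).2, (k G').2, G.big.log_N,
    G'.big.log_N, G.big.log_sqrtN, G'.big.log_sqrtN, G.big.log_np, G'.big.log_np, G.big.log_fr0,
    G'.big.log_fr0, G.big.log_cg0, G'.big.log_cg0, G.big.log_hc, G'.big.log_hc]) <;>
  exact abs_le.2 ⟨by linarith, by linarith⟩

lemma nb : Nb c c' :=
  ⟨h.g, h.g', (h.ratios Pm.ζ (by simp)).2.2.1, (h.ratios Pm.ζ (by simp)).2.2.2⟩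

end Cq

/-- above `etaS / 2` the two sets of parameters are close in the strong sense -/
lemma TF.cp {c c' : Pm} {T Ω : Mx} {h : ℝ} (t : TF c c'.s1 c'.s2 T Ω h) (g : Gd c) (g' : Gd c')
    (hN : c'.N = nxt c.N) (hη : etaS c.N / 2 ≤ c.η) :
    Cp (2 * np c.N (-2 / 5)) c c' ∧ 2 * np c.N (-2 / 5) ≤ 1 / (200 * c.J ^ 2) := by
  obtain ⟨a1, a2, -⟩ := t.hi hη
  have p := g.big.np_pos (-2 / 5); have := g.J_pos; have := g.q_pos; have := g.big.R_pos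
  have k : 2 * np c.N (-2 / 5) ≤ 1 / (c.q ^ 2 * pR c.N) ∧
      2 * np c.N (-2 / 5) ≤ 1 / (200 * c.J ^ 2) ∧ 10 * np c.N (-2 / 5) ≤ 1 := by
    refine ⟨?_, ?_, ?_⟩ <;> refine le_of_log (by positivity) (by positivity) ?_ <;>
      simp (disch := positivity) only [Real.log_div, Real.log_mul, Real.log_pow, Real.log_one,
        g.log_q, g.log_J, g.big.log_np, g.big.log_R] <;> push_cast <;>
      linarith [g.big.L_ge, g.big.J_ge, log2_bd.2, log10_bd.2,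
        (logc_bd (show (1 : ℝ) ≤ 200 by norm_num)).2]
  rw [Real.log_div g'.s1_pos.ne' g.s1_pos.ne'] at a1
  rw [Real.log_div g'.s2_pos.ne' g.s2_pos.ne'] at a2
  have b1 := abs_div_sub_one_le g.s1_pos g'.s1_pos a1 (by linarith)
  have b2 := abs_div_sub_one_le g.s2_pos g'.s2_pos a2 (by linarith)
  exact ⟨⟨g, g', k.1, by linarith, by linarith, (t.cq g g' hN).N_bd.1, (t.cq g g' hN).N_bd.2⟩, k.2.1⟩

/-- common bound of the entries `(i, 2)` -/
def Pm.hb (c : Pm) : ℝ := open Classical in if c.oS then 11 * √(c.η * c.p) else 2 * hc c.N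
/-- kernel scales in units of `lam` -/
def Pm.hn (c : Pm) : V := ![c.ro, 1, np c.N (11 / 10)]

lemma Pm.hs_eq (c : Pm) (i : Fin 3) : c.hs i = c.hn i * c.lam := by
  fin_cases i
  exacts [rfl, (one_mul _).symm, rfl]

namespace Gd
variable {c : Pm} (g : Gd c)
include g

lemma hn_pos (i : Fin 3) : 0 < c.hn i := by
  fin_cases i
  exacts [g.ro_pos, one_pos, g.big.np_pos _]

lemma hL2_bd : np c.N (-1) ≤ c.hL2 ∧ c.hL2 ≤ c.hb ∧ c.hb ≤ 2 * hc c.N ∧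
    c.hb ^ 2 ≤ 1 / (c.J ^ 2 * c.q ^ 13) * c.η ∧
    ∀ t, t ≤ hc c.N → (c.oB → t ≤ c.pi1) → t ≤ c.hb := by
  have p1 := g.sηp_pos; have p2 := g.big.hc_pos; have p3 := g.B1_pos; have p4 := g.J_pos
  have p5 := g.q_pos; have p6 := g.η_pos; have p7 := g.big.etaA_pos; have p8 := g.p_pos
  have a1 : np c.N (-1) ≤ fr0 c.N := le_of_log (g.big.np_pos _) g.big.fr0_pos (by
    rw [g.big.log_np, g.big.log_fr0]; linarith [g.big.J_ge, g.big.L_ge])
  have a2 := g.B1_ge.1; have a3 := g.B1_le_hc; have a4 := g.sηp_le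
  have a5 : 1000 * √(c.J / c.N) ≤ c.J ^ 2 / √c.N := g.big.sqrtJN_le
  have a6 : hc c.N = 3 * (c.J ^ 2 / √c.N) := g.big.hc_eq
  unfold Pm.hL2 Pm.hb
  by_cases hS : c.oS
  · rw [if_pos hS, if_pos (g.oB_of_oS hS)]
    have a7 := g.B1_oS hS
    refine ⟨by linarith, by linarith, by linarith, ?_,
      fun t _ h => (h (g.oB_of_oS hS)).trans (g.pi1_oS hS).1⟩
    rw [mul_pow, Real.sq_sqrt g.ηp_pos.le]
    refine le_of_log (by positivity) (by positivity) ?_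
    simp (disch := positivity) only [Real.log_div, Real.log_mul, Real.log_pow, Real.log_one,
      g.log_q, g.log_J]
    push_cast
    linarith [g.log_p.1, g.log_pf, g.log_e4.2.1, g.big.L_ge, log2_bd.1,
      (logc_bd (show (1 : ℝ) ≤ 11 by norm_num)).2]
  · rw [if_neg hS]
    refine ⟨by split_ifs <;> linarith, by split_ifs <;> linarith, le_rfl, ?_,
      fun t h _ => by linarith⟩
    have a8 := g.log_etaS_le (a := 1) (by norm_num) (by
      have : ¬ c.η < 8 / 10 * etaA c.N := hS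
      linarith [g.big.etaA_eq, g.big.etaS_pos])
    refine le_of_log (by positivity) (by positivity) ?_
    simp (disch := positivity) only [Real.log_div, Real.log_mul, Real.log_pow, Real.log_one,
      g.log_q, g.log_J, g.big.log_hc]
    push_cast
    linarith [g.big.L_ge, g.big.J_ge, log2_bd.2, (logc_bd (show (1 : ℝ) ≤ 3 by norm_num)).2]

end Gd

namespace Tt
open Ftr

/-- the transition matrix of the normalised differentials -/
def UU (c c' : Pm) (T : Mx) : Mx := sc (cd c 1) (cd c' T.det) T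
def tab (u a0 a1 e k : ℝ) : Mx := !![u, u, a0; u, u, a1; e, e, k]

variable {c c' : Pm} {T Ω : Mx} {h : ℝ}

lemma det_bd (t : TF c c'.s1 c'.s2 T Ω h) (g : Gd c) : |T.det - 1| ≤ 1 / 100 := by
  refine t.det.1.trans ?_
  rw [div_le_div_iff₀ (Real.sqrt_pos.2 g.J_pos) (by norm_num), one_mul]
  refine Real.le_sqrt_of_sq_le ?_
  linarith [g.big.J_ge, g.big.L_ge, show c.J = pJ c.N from rfl]

/-- the mixed lateral entries -/
lemma mixed (t : TF c c'.s1 c'.s2 T Ω h) (g : Gd c) : ∀ M ∈ ({T, T⁻¹} : Set Mx),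
    |M 0 1| * c.c2 ≤ 2 * c.c1 ∧ |M 1 0| * c.c1 ≤ 8 * c.c2 ∧ |M 1 0| * c.ro ≤ 2 := by
  intro M hM
  have p1 := g.c1_pos; have p2 := g.c2_pos; have p3 := g.ro_pos; have p4 := g.J_pos
  have p5 := g.q_pos; have p6 := g.m_pos; have p7 := g.big.uB_pos
  have := g.log_c1; have := g.log_c2; have := g.log_K; have := g.log_K_bd.1; have := g.log_K_bd.2
  have := g.big.L_ge; have := g.big.J_ge; have := log2_bd.1; have := log2_bd.2
  have := g.log_η_le; have := (logc_bd (show (1 : ℝ) ≤ 8 by norm_num)).1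
  have key : ∀ a b : ℝ, |M 0 1| ≤ a → |M 1 0| ≤ b → a * c.c2 ≤ 2 * c.c1 → b * c.c1 ≤ 8 * c.c2 →
      b * c.ro ≤ 2 → |M 0 1| * c.c2 ≤ 2 * c.c1 ∧ |M 1 0| * c.c1 ≤ 8 * c.c2 ∧ |M 1 0| * c.ro ≤ 2 :=
    fun a b h1 h2 h3 h4 h5 => ⟨(mul_le_mul_of_nonneg_right h1 p2.le).trans h3,
      (mul_le_mul_of_nonneg_right h2 p1.le).trans h4, (mul_le_mul_of_nonneg_right h2 p3.le).trans h5⟩
  rcases lt_or_ge c.η (etaS c.N / 2) with hη | hη
  · obtain ⟨-, -, -, a1, a2, -⟩ := (t.lo hη).1 M hM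
    have := g.log_m_le; have := g.log_η_ge; have := g.log_ro_bd.2
    refine key _ _ a1 a2 ?_ ?_ ?_ <;> refine le_of_log (by positivity) (by positivity) ?_ <;>
      simp (disch := positivity) only [Real.log_div, Real.log_mul, Real.log_pow, g.log_q, g.log_J,
        g.big.log_uB] <;> push_cast <;> linarith
  · obtain ⟨-, -, a1, a2, -, a3⟩ := t.hi hη
    rcases a3 with a3 | a3
    · have p8 := g.big.np_pos (-2 / 5)
      have b0 : np c.N (-45 / 100) ≤ np c.N (-2 / 5) := g.big.np_le (by norm_num)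
      have tri : ∀ x y : ℝ, |x - y| ≤ np c.N (-45 / 100) → |y| ≤ np c.N (-2 / 5) →
          |x| ≤ 2 * np c.N (-2 / 5) := fun x y h h' => by
        linarith [abs_sub_abs_le_abs_sub x y]
      have b1 : |M 0 1| ≤ 2 * np c.N (-2 / 5) ∧ |M 1 0| ≤ 2 * np c.N (-2 / 5) := by
        rcases hM with rfl | rfl
        exacts [⟨tri _ _ (a1 0 1) a3.1, tri _ _ (a1 1 0) a3.2⟩,
          ⟨tri _ _ (a2 0 1) a3.2, tri _ _ (a2 1 0) a3.1⟩]
      have := g.log_etaS_le (a := 1 / 2) (by norm_num) (by linarith)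
      have := g.log_ro; have := g.log_m_le; have := g.log_e4.1
      refine key _ _ b1.1 b1.2 ?_ ?_ ?_ <;> refine le_of_log (by positivity) (by positivity) ?_ <;>
        simp (disch := positivity) only [Real.log_mul, g.big.log_np] <;> linarith
    · obtain ⟨r1, r2, r3⟩ := rot g a3.1
      have r4 : c.ro = 1 := mul_right_cancel₀ g.lam_pos.ne' (r1.trans (one_mul _).symm)
      have b : EB M (cm 2) := by
        rcases hM with rfl | rfl
        exacts [t.det.2.1, t.det.2.2]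
      exact key 2 2 (b 0 1) (b 1 0) (by linarith) (by linarith) (by linarith)

/-- entries of the transition matrix at a point where the density is `M` -/
lemma U_bd (t : TF c c'.s1 c'.s2 T Ω h) (q : Cq c c') (hh : np c.N (-1) ≤ h) {M : ℝ}
    (hM : |M - 1| ≤ 1 / 10) :
    EB (um (UU c c' T) M) (tab 9 (6 * h / c.η) (6 * h) (np c.N (-7 / 5)) 3) := by
  have g := q.g; have g' := q.g'
  obtain ⟨d1, d2⟩ := abs_le.1 (det_bd t g)
  have d0 : 0 < T.det := by linarith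
  have hu : ∀ i, 0 < cd c 1 i := fun i =>
    (g.big.np_pos _).trans_le (cd_bd g (by norm_num) (by norm_num) i).1
  have hv : ∀ i, 0 < cd c' T.det i := fun i =>
    (g'.big.np_pos _).trans_le (cd_bd g' (by linarith) (by linarith) i).1
  have r1 : c'.c1 ≤ _ := (q.ratios Pm.c1 (by simp)).2.2.1
  have r2 : c'.c2 ≤ _ := (q.ratios Pm.c2 (by simp)).2.2.1
  have r3 : c'.n12 ≤ _ := (q.ratios Pm.n12 (by simp)).2.2.1
  have p1 := g.c1_pos; have p2 := g.c2_pos; have p3 := g.n12_pos; have p4 := g.η_pos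
  have r4 : c'.n12 / T.det ≤ 102 / 100 * c.n12 := by rw [div_le_iff₀ d0]; nlinarith
  have b : ∀ i j, |T i j| ≤ 2 := t.det.2.1
  obtain ⟨m1, m2, -⟩ := mixed t g T (by simp)
  obtain ⟨i0, i1, i2⟩ := inv_bd hM
  have h0 : 0 ≤ h := (g.big.np_pos _).le.trans hh
  have up : ∀ {a x y z : ℝ}, x ≤ y → |a| * y ≤ z → |a| * x ≤ z := fun h h' =>
    (mul_le_mul_of_nonneg_left h (abs_nonneg _)).trans h'
  have u00 : |UU c c' T 0 0| ≤ 9 := (abs_sc hu hv 0 0).2 (up r1 (by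
    show _ ≤ 9 * c.c1; nlinarith [b 0 0]))
  have u01 : |UU c c' T 0 1| ≤ 9 := (abs_sc hu hv 0 1).2 (up r2 (by show _ ≤ 9 * c.c1; linarith))
  have u10 : |UU c c' T 1 0| ≤ 9 := (abs_sc hu hv 1 0).2 (up r1 (by show _ ≤ 9 * c.c2; linarith))
  have u11 : |UU c c' T 1 1| ≤ 9 := (abs_sc hu hv 1 1).2 (up r2 (by
    show _ ≤ 9 * c.c2; nlinarith [b 1 1]))
  have u22 : |UU c c' T 2 2| ≤ 3 := (abs_sc hu hv 2 2).2 (up r4 (by
    show _ ≤ 3 * (c.n12 / 1); nlinarith [b 2 2]))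
  have u02 : |UU c c' T 0 2| ≤ 9 / 2 * h / c.η := (abs_sc hu hv 0 2).2 (up r4 (by
    have a : c.η * |T 0 2| * c.n12 ≤ (3 * h + np c.N (-1)) * c.c1 := (t.c2 0 (by decide)).1
    show _ ≤ _ * c.c1
    rw [div_mul_eq_mul_div _ c.η, le_div_iff₀ p4]
    nlinarith [mul_le_mul_of_nonneg_right hh p1.le, mul_nonneg h0 p1.le]))
  have u12 : |UU c c' T 1 2| ≤ 9 / 2 * h := (abs_sc hu hv 1 2).2 (up r4 (by
    have a : 1 * |T 1 2| * c.n12 ≤ (3 * h + np c.N (-1)) * c.c2 := (t.c2 1 (by decide)).1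
    show _ ≤ _ * c.c2
    nlinarith [mul_le_mul_of_nonneg_right hh p2.le, mul_nonneg h0 p2.le]))
  have k : 6 * c.c1 ≤ np c.N (-7 / 5) * c.n12 ∧ 6 * c.c2 ≤ np c.N (-7 / 5) * c.n12 := by
    have := g.big.np_pos (-7 / 5)
    constructor <;> refine le_of_log (by positivity) (by positivity) ?_ <;>
      simp (disch := positivity) only [Real.log_mul, g.big.log_np, g.log_c1, g.log_c2] <;>
      linarith [g.log_η_le, g.log_s1_ge, g.log_K, g.log_K_bd.1, g.log_n12_bd.1, g.big.L_ge,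
        g.big.J_ge, (logc_bd (show (1 : ℝ) ≤ 6 by norm_num)).2]
  have u20 : |UU c c' T 2 0| ≤ np c.N (-7 / 5) / 2 := (abs_sc hu hv 2 0).2 (up r1 (by
    show _ ≤ _ * (c.n12 / 1); nlinarith [b 2 0]))
  have u21 : |UU c c' T 2 1| ≤ np c.N (-7 / 5) / 2 := (abs_sc hu hv 2 1).2 (up r2 (by
    show _ ≤ _ * (c.n12 / 1); nlinarith [b 2 1]))
  have e : 9 / 2 * h / c.η * (5 / 4) ≤ 6 * h / c.η := by
    rw [div_mul_eq_mul_div]; exact div_le_div_of_nonneg_right (by linarith) p4.le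
  intro i j
  fin_cases i <;> fin_cases j
  exacts [u00, u01, (abs_mul_le u02 i2).trans e, u10, u11,
    (abs_mul_le u12 i2).trans (show _ ≤ 6 * h by linarith),
    (abs_mul_le u20 i1).trans (show _ ≤ np c.N (-7 / 5) by linarith),
    (abs_mul_le u21 i1).trans (show _ ≤ np c.N (-7 / 5) by linarith), u22]

/-- `T` and its inverse in kernel scales -/
lemma T_sc (t : TF c c'.s1 c'.s2 T Ω h) (g : Gd c) : ∀ M ∈ ({T, T⁻¹} : Set Mx),
    EB (sc c.hn c.hn M) (bm 2 (np c.N (-1 / 2)) 2) := by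
  intro M hM
  have b : (∀ i j, |M i j| ≤ 2) ∧ ∀ i, i ≠ 2 → |M i 2| * c.y ≤ np c.N (-4 / 5) * c.hs i := by
    rcases hM with rfl | rfl
    exacts [⟨t.det.2.1, fun i hi => (t.c2 i hi).2.1⟩, ⟨t.det.2.2, fun i hi => (t.c2 i hi).2.2⟩]
  have p := g.hn_pos; have p1 := g.one_le_ro
  have v : ∀ i, i ≠ 2 → |M i 2| * c.hn 2 ≤ np c.N (-1 / 2) * c.hn i := fun i hi => by
    have a := b.2 i hi
    rw [show c.y = c.hn 2 * c.lam from rfl, Pm.hs_eq, ← mul_assoc, ← mul_assoc] at a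
    exact (le_of_mul_le_mul_right a g.lam_pos).trans
      (mul_le_mul_of_nonneg_right (g.big.np_le (by norm_num)) (p i).le)
  have k : 2 * c.ro ≤ np c.N (-1 / 2) * np c.N (11 / 10) := by
    have := g.big.np_pos (-1 / 2); have := g.big.np_pos (11 / 10)
    refine le_of_log (by positivity) (by positivity) ?_
    simp (disch := positivity) only [Real.log_mul, g.big.log_np]
    linarith [g.log_ro_bd.2, g.big.L_ge, g.big.J_ge, log2_bd.2]
  have d : ∀ i, |M i i| * c.hn i ≤ 2 * c.hn i := fun i =>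
    mul_le_mul_of_nonneg_right (b.1 i i) (p i).le
  intro i j
  refine (abs_sc p p i j).2 ?_
  fin_cases i <;> fin_cases j
  exacts [d 0, show |M 0 1| * 1 ≤ 2 * c.ro by linarith [b.1 0 1], v 0 (by decide),
    show |M 1 0| * c.ro ≤ 2 * 1 by linarith [(mixed t g M hM).2.2], d 1, v 1 (by decide),
    show |M 2 0| * c.ro ≤ np c.N (-1 / 2) * np c.N (11 / 10) by nlinarith [b.1 2 0],
    show |M 2 1| * 1 ≤ np c.N (-1 / 2) * np c.N (11 / 10) by linarith [b.1 2 1], d 2]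

lemma hn_le (q : Cq c c') (i : Fin 3) :
    c'.hn i ≤ 1001 / 1000 * c.hn i ∧ c.hn i ≤ 1001 / 1000 * c'.hn i := by
  fin_cases i
  exacts [(q.ratios Pm.ro (by simp)).2.2, ⟨by norm_num [Pm.hn], by norm_num [Pm.hn]⟩,
    (q.ratios (fun c => np c.N (11 / 10)) (by simp)).2.2]

/-- `B1` and the late column bound against the new `B1` -/
lemma hL2_le (t : TF c c'.s1 c'.s2 T Ω h) (q : Cq c c') :
    c.hL2 ≤ 92000 * c'.B1 ∧ (¬ c.oB → c.J ^ 2 / √c.N ≤ 2 * c'.B1) ∧ fr0 c.N ≤ 2 * c'.B1 := by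
  have g := q.g; have g' := q.g'
  have a1 : √(c.η * c.p) ≤ _ * √(c'.η * c'.p) := (q.ratios (fun c => √(c.η * c.p)) (by simp)).2.2.2
  have a2 : c.J ^ 2 / √c.N ≤ _ * (c'.J ^ 2 / √c'.N) :=
    (q.ratios (fun c => c.J ^ 2 / √c.N) (by simp)).2.2.2
  have a3 : fr0 c.N ≤ _ * fr0 c'.N := (q.ratios (fun c => fr0 c.N) (by simp)).2.2.2
  obtain ⟨a4, a5⟩ := g'.B1_ge
  have p := g'.B1_pos
  have a6 : ¬ c.oB → c.J ^ 2 / √c.N ≤ 2 * c'.B1 := fun hB => by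
    have := g'.B1_ge_of (q.nb.A_le (a := 9 / 10) (by norm_num) (not_lt.1 hB))
    linarith
  refine ⟨?_, a6, by linarith⟩
  unfold Pm.hL2
  split_ifs with hB
  · rcases lt_or_ge c.η (etaS c.N / 2) with hη | hη
    · have := g.B1_oS (g.deep_flags (by linarith [g.big.etaS_pos])).1
      linarith
    · obtain ⟨b1, b2⟩ := t.cp g g' q.hN hη
      linarith [(b1.B1_two b2).2]
  · have : hc c.N = 3 * (c.J ^ 2 / √c.N) := g.big.hc_eq
    linarith [a6 hB]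

/-! ## the formula -/

variable {F F' : Fr}

lemma zc_zp' (w : V) : F.zc (F'.zp w) = F.zc F'.z0 + (F.Q⁻¹ * F'.Q) *ᵥ w := by
  rw [← mulVec_mulVec, Fr.zc, Fr.zc, ← mulVec_add, Fr.zp, add_sub_right_comm]

lemma fh_eq (hQ : F.Q.det ≠ 0) (f : V → V) :
    F'.fh f = fun w => F.fh f (F.zc F'.z0 + (F.Q⁻¹ * F'.Q) *ᵥ w) := funext fun w => by
  rw [← zc_zp', Fr.fh, Fr.fh, Prof.zp_zc hQ]

lemma fh_sm (F : Fr) {f : V → V} (hf : Sm f) : Sm (F.fh f) := hf.comp (Prof.zp_sm F)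

/-- the sandwich as a function of the old coordinate -/
def sw (c c' : Pm) (T : Mx) (M : ℝ) (Γ : Mx) : Mx := (um (UU c c' T) M)ᵀ * Γ * um (UU c c' T) M

/-- the normalised Gram matrix in the new frame -/
lemma gam_tt (g : Gd c) (c' : Pm) (hQ : F.Q.det ≠ 0) {f : V → V} (hf : Sm f) (w : V)
    (hM : jac (F.fh f) (F.zc (F'.zp w)) ≠ 0) :
    c'.gam (F'.fh f) w = sw c c' (F.Q⁻¹ * F'.Q) (jac (F.fh f) (F.zc (F'.zp w)))
      (c.gam (F.fh f) (F.zc (F'.zp w))) := by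
  rw [fh_eq hQ, gam_aff c' (fh_sm F hf), ← zc_zp', gam_eq c]
  exact gm_mul _ (fun i => (g.big.np_pos _).trans_le (cd_bd g (by norm_num) (by norm_num) i).1)
    _ _ hM

/-- at the point where the new frame was made -/
lemma gam_star (g' : Gd c') (hQ : F'.Q.det ≠ 0) {f : V → V} (hf : Sm f) {p : V} (hp : jac f p ≠ 0)
    {σ : ℝ} (e : F'.Qᵀ * gram f p * F'.Q = dg3 (c'.s1 ^ 2) (c'.s2 ^ 2) (σ ^ 2)) :
    c'.gam (F'.fh f) (F'.zc p) = c'.gref := by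
  have e1 : jm (F'.fh f) (F'.zc p) = jm f p * F'.Q := by
    have := jm_comp_affine F'.z0 F'.Q (x := F'.zc p) (hf.dif _)
    rwa [show F'.z0 + F'.Q *ᵥ F'.zc p = p from Prof.zp_zc hQ p] at this
  have e2 : (jm (F'.fh f) (F'.zc p))ᵀ * jm (F'.fh f) (F'.zc p) =
      dg3 (c'.s1 ^ 2) (c'.s2 ^ 2) (σ ^ 2) := by
    rw [e1, ← e, transpose_mul, gram]; simp only [Matrix.mul_assoc]
  have e3 : jac (F'.fh f) (F'.zc p) ^ 2 = c'.s1 ^ 2 * c'.s2 ^ 2 * σ ^ 2 := by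
    have := congrArg det e2
    rwa [det_mul, det_transpose, ← sq, dg3, det_diagonal, Fin.prod_univ_three] at this
  have e4 : jac (F'.fh f) (F'.zc p) ≠ 0 := by
    rw [jac, e1, det_mul]; exact mul_ne_zero hp hQ
  have := g'.s1_pos; have := g'.s2_pos
  rw [Pm.gam, Pm.ca, transpose_mul, Matrix.mul_assoc, ← Matrix.mul_assoc _ (jm _ _), e2, Pm.gref]
  simp only [dg3, diagonal_transpose, diagonal_mul_diagonal]
  congr 1
  funext i
  fin_cases i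
  · show c'.c1 * (c'.s1 ^ 2 * c'.c1) = c'.η
    rw [Pm.c1]; field_simp; exact Real.sq_sqrt g'.η_pos.le
  · show c'.c2 * (c'.s2 ^ 2 * c'.c2) = 1
    rw [Pm.c2]; field_simp
  · show c'.n12 / _ * (σ ^ 2 * (c'.n12 / _)) = 1
    field_simp
    rw [e3, Pm.n12]; ring

/-! ## entrywise bounds of products -/

lemma eb_mul {A B A' B' : Mx} (h : EB A A') (h' : EB B B') : EB (A * B) (A' * B') := fun i j => by
  rw [mul_apply, mul_apply]
  exact (Finset.abs_sum_le_sum_abs _ _).trans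
    (Finset.sum_le_sum fun l _ => abs_mul_le (h i l) (h' l j))

lemma eb_sand {A W C A' W' C' : Mx} (h : EB A A') (hW : EB W W') (hC : EB C C') :
    EB (Aᵀ * W * C) (A'ᵀ * W' * C') := eb_mul (eb_mul (fun i j => h j i) hW) hC

lemma sand_bm {A W : Mx} {u a0 a1 e k x y z : ℝ} (h : EB A (tab u a0 a1 e k))
    (hW : EB W (bm x y z)) : EB (Aᵀ * W * A) (bm (4 * u ^ 2 * x + 4 * u * e * y + e ^ 2 * z)
      (2 * u * x * (a0 + a1) + 2 * u * y * k + e * y * (a0 + a1) + e * z * k)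
      (x * (a0 + a1) ^ 2 + 2 * y * k * (a0 + a1) + z * k ^ 2)) := fun i j => by
  refine (eb_sand h hW h i j).trans (le_of_eq ?_)
  fin_cases i <;> fin_cases j <;> simp [tab, bm, mul_apply, Fin.sum_univ_three] <;> ring

end Tt

end
end Pool.Agent.MP_20bec2_an.T3

end MrgPart0

-- ======== part 1: formerly Pool.Agent.MP_20bec2_an.T3.Cg0
section MrgPart1

-- ======== part 0: formerly Pool.Agent.MP_20bec2_an.T3.TtB
section MrgPart0

/-! Change of block, part B: the end of a block seen from one new cube, transport of labels. -/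

set_option autoImplicit false
set_option linter.unusedSectionVars false
open Set Filter Matrix Topology

namespace Pool.Agent.MP_20bec2_an.T3
noncomputable section
namespace Tt
open Ftr

/-! ## transport between two maps -/

variable {B : Bk} {g : Cu} {f f' : V → V}

lemma nw_oh (hQ : (B.fr g).Q.det ≠ 0) (hf : Function.Bijective f) (x : V) :
    B.nw g f f' (B.oh g f x) = B.oh g f' x := by
  rw [Bk.nw, Bk.oh, Prof.zp_zc hQ, Bk.lab, Function.rightInverse_invFun hf.2]; rfl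

lemma nw_sm (hf : Dif f) (hf' : Dif f') : Sm (B.nw g f f') :=
  (Prof.zc_sm _).comp ((Inv.sm_inv hf'.1 hf'.2.1 fun z => (hf'.2.2 z).ne').comp (fh_sm _ hf.1))

lemma jac_fh_pos {F : Fr} (hQ : 0 < F.Q.det) (hf : Dif f) (z : V) : 0 < jac (F.fh f) z := by
  rw [Bl.jac_fh _ hf.1]; exact mul_pos hQ (hf.2.2 _)

lemma jm_nw (hQ : 0 < (B.fr g).Q.det) (hf : Dif f) (hf' : Dif f') (z : V) :
    jm (B.nw g f f') z = Th ((B.fr g).fh f') ((B.fr g).fh f) (B.nw g f f' z) z := by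
  have e : (fun w => (B.fr g).fh f' (B.nw g f f' w)) = (B.fr g).fh f := funext fun w => by
    rw [Fr.fh, Bk.nw, Prof.zp_zc hQ.ne', Function.rightInverse_invFun hf'.2.1.2]; rfl
  have := jm_comp ((fh_sm (B.fr g) hf'.1).dif _) ((nw_sm (B := B) (g := g) hf hf').dif z)
  rw [e] at this
  rw [Th, this, Matrix.nonsing_inv_mul_cancel_left _ _ (jac_fh_pos hQ hf' _).ne'.isUnit]

lemma dif_gam (c : Pm) {F : Fr} (hQ : 0 < F.Q.det) (hf : Dif f) (z : V) :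
    DifM (c.gam (F.fh f)) z := by
  rw [funext (gam_eq c _)]
  exact dif_gm _ (fh_sm F hf.1).jm (fh_sm F hf.1).jac (jac_fh_pos hQ hf z).ne'

/-- column sums of a matrix that is near the identity except for one entry -/
lemma th_cs {u : V} (hu : ∀ i, 0 < u i) {Θ : Mx}
    (h : ∀ a b, ¬ (a = 2 ∧ b = 2) → |(Θ - 1) a b| * u b ≤ 1 / 100 * u a)
    (hd : |Θ.det - 1| ≤ 1 / 40) (i : Fin 3) : ∑ l, |sc u u Θ l i| ≤ 11 / 10 := by
  set S := sc u u Θ
  have u0 := hu 0; have u1 := hu 1; have u2 := hu 2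
  have e : S.det = Θ.det := by
    simp only [S, sc, det_fin_three, of_apply]; field_simp
  have o : ∀ a b, a ≠ b → |S a b| ≤ 1 / 100 := fun a b hab => (abs_sc hu hu a b).2 (by
    have := h a b fun e => hab (e.1.trans e.2.symm)
    rwa [Matrix.sub_apply, one_apply_ne hab, sub_zero] at this)
  have d : ∀ a, a ≠ 2 → |S a a - 1| ≤ 1 / 100 := fun a ha => by
    have := le_of_mul_le_mul_right (h a a fun e => ha e.1) (hu a)
    rw [Matrix.sub_apply, one_apply_eq] at this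
    rwa [show S a a = Θ a a from mul_div_cancel_right₀ _ (hu a).ne']
  have d' : ∀ a, a ≠ 2 → |S a a| ≤ 101 / 100 := fun a ha => by
    linarith [abs_sub_abs_le_abs_sub (S a a) 1, d a ha, abs_one (α := ℝ)]
  have o01 := o 0 1 (by decide); have o02 := o 0 2 (by decide); have o10 := o 1 0 (by decide)
  have o12 := o 1 2 (by decide); have o20 := o 2 0 (by decide); have o21 := o 2 1 (by decide)
  have d0 := d' 0 (by decide); have d1 := d' 1 (by decide)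
  have s : |S 2 2| ≤ 106 / 100 := by
    obtain ⟨a1, a2⟩ := abs_le.1 (d 0 (by decide))
    obtain ⟨a3, a4⟩ := abs_le.1 (d 1 (by decide))
    obtain ⟨a5, a6⟩ := abs_le.1 (abs_mul_le o01 o10)
    have a7 : 98 / 100 ≤ S 0 0 * S 1 1 - S 0 1 * S 1 0 := by nlinarith
    have a8 : |S 2 2 * (S 0 0 * S 1 1 - S 0 1 * S 1 0)| ≤ 103 / 100 := by
      rw [← e, det_fin_three] at hd
      obtain ⟨b1, b2⟩ := abs_le.1 hd
      obtain ⟨b3, b4⟩ := abs_le.1 (abs_mul_le (abs_mul_le d0 o12) o21)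
      obtain ⟨b5, b6⟩ := abs_le.1 (abs_mul_le (abs_mul_le o01 o12) o20)
      obtain ⟨b7, b8⟩ := abs_le.1 (abs_mul_le (abs_mul_le o02 o10) o21)
      obtain ⟨b9, b10⟩ := abs_le.1 (abs_mul_le (abs_mul_le o02 d1) o20)
      exact abs_le.2 ⟨by linarith, by linarith⟩
    rw [abs_mul, abs_of_pos (show 0 < S 0 0 * S 1 1 - S 0 1 * S 1 0 by linarith)] at a8
    nlinarith [abs_nonneg (S 2 2)]
  rw [Fin.sum_univ_three]
  fin_cases i
  exacts [show |S 0 0| + |S 1 0| + |S 2 0| ≤ _ by linarith,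
    show |S 0 1| + |S 1 1| + |S 2 1| ≤ _ by linarith,
    show |S 0 2| + |S 1 2| + |S 2 2| ≤ _ by linarith]

section num
variable {N : ℕ} (h : Big N)
include h

lemma idx : mid N < ks N - el N ∧ ks N - el N + el N = ks N ∧ ks N ≤ nb N - 1 ∧ nb N - 1 < nb N ∧
    nb N - 1 + 1 = nb N ∧ mid N + 14999 * nm N ≤ ks N - el N := by
  have := h.nm_pos; have := h.el_le_nm
  unfold mid ks nb
  omega

lemma th_le {n : ℕ} (hn : (n : ℝ) ≤ 1206 * pJ N) :
    n * np N (-9 / 200) * (1 + 1 / 10 ^ 5) ^ n ≤ 1 / 100 := by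
  have p := h.np_pos (-9 / 200); have := h.J_pos
  refine (mul_le_mul_of_nonneg_right (mul_le_mul_of_nonneg_right hn p.le) (by positivity)).trans
    (le_of_log (by positivity) (by positivity) ?_)
  have a : Real.log (1 + 1 / 10 ^ 5) ≤ 1 / 10 ^ 5 := by
    linarith [Real.log_le_sub_one_of_pos (show (0 : ℝ) < 1 + 1 / 10 ^ 5 by norm_num)]
  have b := mul_le_mul hn a (Real.log_nonneg (by norm_num)) (by positivity)
  simp (disch := positivity) only [Real.log_mul, Real.log_div, Real.log_pow, Real.log_one,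
    h.log_np, h.log_J]
  linarith [h.L_ge, h.J_ge, (logc_bd (show (1 : ℝ) ≤ 1206 by norm_num)).2, h.log100_bd.2]

lemma pow_le {m : ℕ} (hm : 14999 * nm N ≤ m) : np N 11 * (6 / 10) ^ m ≤ 1 / √(pq N) / 2 := by
  have p := h.np_pos 11; have := h.sqrtq_pos
  refine le_of_log (by positivity) (by positivity) ?_
  have a : Real.log (6 / 10) ≤ -(4 / 10) := by
    linarith [Real.log_le_sub_one_of_pos (show (0 : ℝ) < 6 / 10 by norm_num)]
  have b : (14999 : ℝ) * nm N ≤ m := by exact_mod_cast hm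
  have c := mul_le_mul_of_nonneg_left a (Nat.cast_nonneg (α := ℝ) m)
  rw [Real.log_mul p.ne' (by positivity), Real.log_pow, h.log_np]
  simp (disch := positivity) only [Real.log_div (x := 1 / _), Real.log_div (x := 1), Real.log_one,
    h.log_sqrtq]
  linarith [h.L_ge, h.J_ge, h.nm_bd.1, log2_bd.2]

end num

lemma dd_le (h : Big B.N) (g : Cu) {j : ℕ} (hj : ks B.N - el B.N ≤ j) :
    0 ≤ B.dd g j ∧ B.dd g j ≤ 2 / √(pq B.N) := by
  have i := (idx h).2.2.2.2.2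
  have a1 := pow_le h (show 14999 * nm B.N ≤ j by omega)
  have a2 := pow_le h (show 14999 * nm B.N ≤ j - mid B.N by omega)
  have a3 : 1 ≤ np B.N 11 := (np_zero _).symm.trans_le (h.np_le (by norm_num))
  have a4 := le_mul_of_one_le_left (show (0 : ℝ) ≤ (6 / 10) ^ j by positivity) a3
  have p := h.sqrtq_pos
  have e : 2 / √(pq B.N) = 2 * (1 / √(pq B.N)) := by ring
  unfold Bk.dd
  split_ifs <;> constructor <;> first | positivity | linarith [one_div_pos.2 p]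

lemma ph_le {j k r : ℕ} (hr : r ≤ 9) : ph j k r ≤ 2 := by
  have a : (r : ℝ) ≤ 9 := by exact_mod_cast hr
  have p : (0 : ℝ) < 2 ^ (k - j) := by positivity
  have := div_le_div_of_nonneg_right (show (r : ℝ) / 9 ≤ 2 by linarith) p.le
  unfold ph
  linarith

/-- the facts at the end of a block -/
structure Cx (B : Bk) (ρ : V → ℝ) (s : St) : Prop where
  big : Big B.N
  h0 : B.H0 ρ (nb B.N - 1) 9 s
  mb : ∀ g, (B.c g (nb B.N - 1)).MB (2 * eps0) 1 (jac ((B.fr g).fh s.f)) (B.R g (98 / 100))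
  cl : ∀ g, CL 2 (B.c g (nb B.N - 1)).hs (B.R g (98 / 100)) (jac ((B.fr g).fh s.f))
    (np B.N (-27 / 100))
  lab : LabF B (nb B.N - 1) s.f
  labj : ∀ j, mid B.N < j → j ≤ nb B.N - 1 → LabF B (nb B.N - 1) (s.ft j)
  sur : ∀ f, LabF B (nb B.N - 1) f → ∀ g, Function.Bijective (B.oh g f) ∧ ∀ x (r : ℝ), 0 ≤ r →
    r ≤ 11 / 10 → (x ∈ B.bx g r → B.oh g f x ∈ B.R g (r + 1 / 500)) ∧
      (B.oh g f x ∈ B.R g r → x ∈ B.bx g (r + 1 / 500))
  tfb : ∀ g (F : Fr), B.Fq s F → F.x0 ∈ B.bx g (9 / 10) → (F.pm B.N' B.lb' 0).Ok ∧ 0 < F.Q.det ∧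
    TF (B.c g 0) F.s1 F.s2 ((B.fr g).Q⁻¹ * F.Q) ((B.fr g).Oᵀ * F.O) (B.c g 0).hL2 ∧
    ∃ x' ∈ B.bx g (95 / 100), B.lab (s.ft (ks B.N)) x' = s.zt (ks B.N) F.x0 ∧
      ‖x' - F.x0‖ ≤ (B.N : ℝ) ^ 3 * B.lb ∧
      ∀ i, i ≠ 2 → |B.ga g (s.ft (ks B.N - el B.N)) x' i 2| ≤ (B.c g 0).hL2

theorem ev_cx (hT : TfbStmt) (hL : LabStmt) (hM : MbiStmt) :
    EvB fun B => ∀ ρ s, B.H0 ρ (nb B.N - 1) 9 s → Cx B ρ s := by
  filter_upwards [ev_big, hT, hL, hM, surj] with N hN hT hL hM hS B hB ρ s H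
  subst hB
  obtain ⟨hρ, ho, hk, h⟩ := id H
  have hG : B.G := ho.geo
  obtain ⟨m1, m2⟩ := hM B rfl ρ _ 9 s hρ ho.toOk0 hk (by norm_num) le_rfl
    ⟨h.il, h.iz, h.ip, h.is, h.iq⟩ h.ir
  rw [← funext h.iF.smf.2.2] at m1 m2
  obtain ⟨l1, l2⟩ := hL B rfl ρ _ 9 s ho.toOk0 hk le_rfl h.il h.ip.psh h.iF m1
  refine ⟨hN, H, fun g => ?_, fun g => ?_, l1, fun j h1 h2 => (l2 j h2).1 h1, fun f L g => ?_,
    fun g => (hT B rfl ρ _ 9 s H (idx hN).2.2.1 (Or.inr rfl) g).2⟩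
  · rw [Bl.jac_fh _ h.iF.smf.1]; exact m1 g
  · rw [Bl.jac_fh _ h.iF.smf.1]; exact m2 g
  · have S := hS B rfl f hG (Bl.f0_bij h.iF) L.1.2.1 (Bl.lab_near hN hG L) g
    exact ⟨S.1, fun x r r0 r1 => ⟨fun hx => ((S.2 x r r0 r1).1 hx).1, (S.2 x r r0 r1).2⟩⟩

/-- a new cube `g'`, the old cube `g` under its centre and the label `x'` of its star point -/
structure Pk (B : Bk) (s : St) (H : Cu → V → V) (g' g : Cu) (x' : V) : Prop where
  x0 : ((B.next s H).fr g').x0 = cen (B.next s H).D g'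
  hx0 : ((B.next s H).fr g').x0 ∈ B.bx g (1 / 2)
  ort : Orth ((B.next s H).fr g').O
  cq : Cq (B.c g 0) ((B.next s H).c g' 0)
  tf : TF (B.c g 0) ((B.next s H).c g' 0).s1 ((B.next s H).c g' 0).s2
    ((B.fr g).Q⁻¹ * ((B.next s H).fr g').Q) ((B.fr g).Oᵀ * ((B.next s H).fr g').O) (B.c g 0).hL2
  det : 0 < ((B.next s H).fr g').Q.det
  hx' : x' ∈ B.bx g (95 / 100)
  lab : B.lab (s.ft (ks B.N)) x' = s.zt (ks B.N) ((B.next s H).fr g').x0
  nr : ‖x' - ((B.next s H).fr g').x0‖ ≤ (B.N : ℝ) ^ 3 * B.lb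
  col : ∀ i, i ≠ 2 → |B.ga g (s.ft (ks B.N - el B.N)) x' i 2| ≤ (B.c g 0).hL2
  star : sw (B.c g 0) ((B.next s H).c g' 0) ((B.fr g).Q⁻¹ * ((B.next s H).fr g').Q)
    (jac ((B.fr g).fh (s.ft (ks B.N - el B.N))) (B.oh g (s.ft (ks B.N - el B.N)) x'))
    (B.ga g (s.ft (ks B.N - el B.N)) x') = ((B.next s H).c g' 0).gref

namespace Cx
variable {ρ : V → ℝ} {s : St} (X : Cx B ρ s)
include X

lemma G : B.G := X.h0.2.1.geo
lemma fo : FrOk B.N B.lb B.fr := X.G.toFrOk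
lemma gd (g : Cu) {k : ℕ} (hk : k ≤ nb B.N) : Gd (B.c g k) := Bk.gd X.fo X.big g hk
lemma inv : B.Inv ρ (nb B.N - 1) 9 s := X.h0.2.2.2
lemma prep : B.Prep ρ s := X.inv.iq (by
  have := (idx X.big).2.2.1
  unfold aft
  omega)
lemma ncrs (g : Cu) {j : ℕ} (hj : mid B.N < j) : ¬ B.crs g j (nb B.N - 1) 9 :=
  fun h => absurd h.1 (not_le.2 hj)

lemma pk (H : Cu → V → V) (g' : Cu) : ∃ g x', Pk B s H g' g x' := by
  have P := X.prep
  obtain ⟨g, hg⟩ := Prof.exists_box (Bl.D_pos X.big X.G) (s.nf g').x0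
  obtain ⟨f1, f2, -, -, -, f3⟩ := P.fo.fx g'
  obtain ⟨q1, σ, q2, q3⟩ := P.fq g'
  obtain ⟨t1, t2, t3, x', t4, t5, t6, t7⟩ := X.tfb g (s.nf g') ⟨f2, f3.1, f3.2.1, q1, σ, q2, q3⟩
    (Bl.bx_mono X.big X.G (by norm_num) hg)
  have G := X.gd g (Nat.zero_le _)
  have G' : Gd ((B.next s H).c g' 0) := ⟨X.big.mono X.big.nxt_le.1, t1⟩
  obtain ⟨i1, -, i2, -⟩ := idx X.big
  have D := (X.labj _ i1 (by omega)).1
  have D' := (X.labj (ks B.N) (by omega) i2).1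
  refine ⟨g, x', f1, hg, f2, TF.cq (c' := (B.next s H).c g' 0) t3 G G' rfl, t3, t2, t4, t5, t6, t7, ?_⟩
  have e : s.ft (ks B.N) (s.zt (ks B.N) (s.nf g').x0) = B.f0 (B.Z0 x') := by
    rw [← t5, Bk.lab, Function.rightInverse_invFun D'.2.1.2]
  rw [e] at q3
  have hQ : ((B.next s H).fr g').Q.det ≠ 0 := t2.ne'
  have a := gam_star (F' := (B.next s H).fr g') G' hQ D.1 (D.2.2 _).ne' q3
  rw [gam_tt G _ (GeoP.det_ne X.fo g) D.1 _ (jac_fh_pos (GeoP.det_pos X.fo g) D _).ne',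
    Prof.zp_zc hQ] at a
  exact a

/-- the matrix of an earlier map, read at the transported point -/
lemma tau {j : ℕ} (h1 : ks B.N - el B.N ≤ j) (h2 : j ≤ nb B.N - 1) (g : Cu) {z : V}
    (hz : z ∈ B.R g (99 / 100)) (a b : Fin 3) :
    DifferentiableAt ℝ (fun w => (B.c g 0).gam ((B.fr g).fh (s.ft j))
      (B.nw g s.f (s.ft j) w) a b) z ∧ ∀ i, (B.c g j).hs i *
    |pd i (fun w => (B.c g 0).gam ((B.fr g).fh (s.ft j)) (B.nw g s.f (s.ft j) w) a b) z| ≤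
      3 / √(pq B.N) * Xj B.N a b := by
  obtain ⟨i1, -, -, i2, -⟩ := idx X.big
  have hj : mid B.N < j := by omega
  have L := X.labj j hj h2
  have hQ := GeoP.det_pos X.fo g
  obtain ⟨x, rfl⟩ := (X.sur _ X.lab g).1.2 z
  have hx := Bl.bx_mono X.big X.G (show _ ≤ (1 : ℝ) by norm_num)
    (((X.sur _ X.lab g).2 x _ (by norm_num) (by norm_num)).2 hz)
  have d1 := dif_gam (B.c g 0) hQ L.1 (B.nw g s.f (s.ft j) (B.oh g s.f x)) a b
  have d2 := (nw_sm (B := B) (g := g) X.lab.1 L.1).dif (B.oh g s.f x)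
  refine ⟨d1.comp _ d2, fun i => ?_⟩
  have G := X.gd g (show j ≤ _ by omega)
  have G0 := X.gd g (Nat.zero_le _)
  rw [pd_comp d1 d2, jm_nw hQ X.lab.1 L.1, nw_oh hQ.ne' X.lab.1.2.1]
  have cs := th_cs G.hs_pos (Θ := Th ((B.fr g).fh (s.ft j)) ((B.fr g).fh s.f)
    (B.oh g (s.ft j) x) (B.oh g s.f x)) (fun a b hab => ?_) ?_ i
  · have := vm G.hs_pos G.hs_pos (((X.inv.iF.ig.di g x hx).2 j h2) a b) cs
    refine this.trans ?_
    rw [← mul_assoc]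
    refine mul_le_mul_of_nonneg_right ?_ (Xj_nonneg _ a b)
    have := (dd_le X.big g h1).2
    have p := one_div_pos.2 X.big.sqrtq_pos
    rw [div_eq_mul_one_div] at this
    rw [div_eq_mul_one_div 3]
    linarith
  · have t := (X.inv.iF.ig.th j h2 g (X.ncrs g hj) x hx a b hab).trans (mul_le_mul_of_nonneg_right
      (th_le X.big ((Nat.cast_le.2 (Nat.sub_le _ _)).trans (X.big.cnt_le i2 le_rfl)))
      (G0.hs_pos a).le)
    rw [Pm.hs_eq, Pm.hs_eq, ← mul_assoc, ← mul_assoc] at t ⊢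
    exact mul_le_mul_of_nonneg_right (le_of_mul_le_mul_right t G0.lam_pos) G.lam_pos.le
  · obtain ⟨m1, m2⟩ := abs_le.1 (L.2 g x hx).2.2.2.2.2.2.1
    obtain ⟨m3, m4⟩ := abs_le.1 (X.lab.2 g x hx).2.2.2.2.2.2.1
    rw [Th, det_mul, det_nonsing_inv, Ring.inverse_eq_inv', ← jac, ← jac, inv_mul_eq_div,
      div_sub_one (by linarith), abs_div, div_le_iff₀ (abs_pos.2 (by linarith)),
      abs_of_pos (show 0 < jac ((B.fr g).fh (s.ft j)) (B.oh g (s.ft j) x) by linarith)]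
    exact abs_le.2 ⟨by linarith, by linarith⟩

/-- two labels whose present positions are close on the scale of band `j` -/
lemma tau_mvt {j : ℕ} (h1 : ks B.N - el B.N ≤ j) (h2 : j ≤ nb B.N - 1) (g : Cu) {x x' : V}
    (hx : x ∈ B.bx g (98 / 100)) (hx' : x' ∈ B.bx g (98 / 100)) {r : ℝ}
    (hr : ∀ i, |B.oh g s.f x i - B.oh g s.f x' i| ≤ r * (B.c g j).hs i) :
    EB (B.ga g (s.ft j) x - B.ga g (s.ft j) x') ((9 * r / √(pq B.N)) • Xj B.N) := fun a b => by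
  have G := X.gd g (show j ≤ _ by omega)
  have hQ := GeoP.det_ne X.fo g
  have m : ∀ y ∈ B.bx g (98 / 100), B.oh g s.f y ∈ B.R g (99 / 100) := fun y hy =>
    Bl.R_mono X.big X.G (by norm_num) (((X.sur _ X.lab g).2 y _ (by norm_num) (by norm_num)).1 hy)
  have k := CV.mvt_at (n := 1) G.hs_pos (Prof.RX_convex _ _ _) (fun y hy => (X.tau h1 h2 g hy a b).1)
    (cv_one_iff.2 fun i y hy => (X.tau h1 h2 g hy a b).2 i) le_rfl (m x hx) (m x' hx')
  simp only [nw_oh hQ X.lab.1.2.1] at k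
  refine k.trans ?_
  have : ∑ i, |B.oh g s.f x i - B.oh g s.f x' i| / (B.c g j).hs i ≤ ∑ _i : Fin 3, r :=
    Finset.sum_le_sum fun i _ => (div_le_iff₀ (G.hs_pos i)).2 (hr i)
  refine (mul_le_mul_of_nonneg_left this (mul_nonneg (by positivity) (Xj_nonneg _ a b))).trans
    (le_of_eq ?_)
  simp; ring

/-- sizes of the new cubes -/
lemma D'_le (H : Cu → V → V) (g : Cu) : 100 * (B.next s H).D ≤ (B.c g (ks B.N)).lam ∧
    (B.c g (ks B.N)).lam ≤ (B.N : ℝ) ^ 3 * B.lb ∧ 0 < (B.next s H).D := by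
  have h := X.big
  have G := X.gd g h.mid_lt.2.2.1.le
  have l0 := GeoP.lb_pos X.fo
  have N1 : (1 : ℝ) ≤ B.N := by linarith [Bl.N_ge h]
  have a1 : (nxt B.N : ℝ) ≤ 2 * B.N := by linarith [h.nxt_le.2, h.N_ge, h.J_pos]
  have a0 : (0 : ℝ) < nxt B.N := (h.mono h.nxt_le.1).N_pos
  have e : (B.next s H).D = (nxt B.N : ℝ) ^ 4 * (B.lb / 2 ^ nb B.N) := rfl
  refine ⟨?_, G.lam_le_lb.trans (le_mul_of_one_le_left l0.le (one_le_pow₀ N1)), by
    rw [e]; positivity⟩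
  have a2 := Real.log_le_log a0 a1
  have a3 := Real.log_le_log (h.np_pos _) h.two_pow_nb.1
  have a4 := Real.log_le_log (by positivity) h.two_pow_ks.2
  rw [e]
  refine le_of_log (by positivity) G.lam_pos ?_
  rw [show (B.c g (ks B.N)).lam = B.lb / 2 ^ ks B.N from rfl]
  simp (disch := positivity) only [Real.log_mul, Real.log_div, h.log_np, h.log_N,
    Real.log_pow (nxt B.N : ℝ)] at a2 a3 a4 ⊢
  push_cast
  linarith [h.L_ge, h.J_ge, log2_bd.2, h.log100_bd.2]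

/-- a point of a new cube and its old label -/
lemma pt {H : Cu → V → V} {g' g : Cu} {x' x y : V} (P : Pk B s H g' g x')
    (hx : x ∈ (B.next s H).bx g' 1) (e : s.f (B.Z s x) = B.f0 (B.Z0 y))
    (hy : ‖x - y‖ ≤ (B.N : ℝ) ^ 3 * B.lb) :
    ‖x - ((B.next s H).fr g').x0‖ ≤ (B.next s H).D ∧ x ∈ B.bx g (51 / 100) ∧
    y ∈ B.bx g (52 / 100) ∧ B.lab s.f y = B.Z s x ∧
    (B.fr g).zc (((B.next s H).fr g').zp ((B.next s H).oh g' s.f x)) = B.oh g s.f y := by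
  have a1 : ‖x - ((B.next s H).fr g').x0‖ ≤ (B.next s H).D := by
    rw [P.x0]; exact le_trans hx (one_mul _).le
  obtain ⟨d1, d2, d3⟩ := X.D'_le H g
  have d4 := Bl.cube_le X.big X.G
  have a2 : x ∈ B.bx g (1 / 2 + 1 / 100) := Prof.box_add P.hx0 (by linarith)
  have a3 : y ∈ B.bx g (1 / 2 + 1 / 100 + 1 / 100) :=
    Prof.box_add a2 (by rw [norm_sub_rev]; linarith)
  have a4 : B.lab s.f y = B.Z s x := by
    rw [Bk.lab, ← e, Function.leftInverse_invFun X.lab.1.2.1.1]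
  refine ⟨a1, Bl.bx_mono X.big X.G (by norm_num) a2, Bl.bx_mono X.big X.G (by norm_num) a3, a4, ?_⟩
  rw [Bk.oh, Bk.oh, Prof.zp_zc P.det.ne', a4]
  exact congrArg _ (Function.leftInverse_invFun X.lab.1.2.1.1 _)

end Cx
end Tt

end
end Pool.Agent.MP_20bec2_an.T3

end MrgPart0

-- ======== part 1: formerly Pool.Agent.MP_20bec2_an.T3.Cdi
section MrgPart1

/-! Row CDI: derivatives of the normalised Gram matrix at the start of the next block. -/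

set_option autoImplicit false
set_option linter.unusedSectionVars false
open Set Filter Matrix Topology

namespace Pool.Agent.MP_20bec2_an.T3
noncomputable section
namespace Tt
open Ftr

/-- table of the normalised Gram matrix -/
def gt (η h : ℝ) : Mx := !![2 * η, η, h; η, 2, h; h, h, 2]

lemma gam_symm (c : Pm) (f : V → V) (z : V) (i j : Fin 3) : c.gam f z i j = c.gam f z j i := by
  simp only [Pm.gam, mul_apply, transpose_apply, mul_comm]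

lemma gam_bd {B : Bk} {k : ℕ} {f : V → V} {g : Cu} {x : V} (G : Gd (B.c g 0)) (L : LabF B k f)
    (hx : x ∈ B.bx g 1) : EB (B.ga g f x) (gt (B.c g 0).η (B.c g 0).hb) := by
  obtain ⟨-, a, b, -⟩ := L.2 g x hx
  have b' : ∀ i, i ≠ 2 → |B.ga g f x i 2| ≤ (B.c g 0).hb := fun i hi =>
    G.hL2_bd.2.2.2.2 _ (b i hi).1 (b i hi).2
  have b'' : ∀ i, i ≠ 2 → |B.ga g f x 2 i| ≤ (B.c g 0).hb := fun i hi =>
    (congrArg abs (gam_symm _ _ _ 2 i)).trans_le (b' i hi)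
  have e : (B.c g 0).gb ≤ (B.c g 0).η :=
    le_of_log G.gb_pos G.η_pos (by linarith [G.log_gb.1, G.big.L_ge])
  have a00 : |B.ga g f x 0 0 - (B.c g 0).η| ≤ 1 * (B.c g 0).gb := a 0 0
  have a01 : |B.ga g f x 0 1 - 0| ≤ 1 * (B.c g 0).gb := a 0 1
  have a10 : |B.ga g f x 1 0 - 0| ≤ 1 * (B.c g 0).gb := a 1 0
  have a11 : |B.ga g f x 1 1 - 1| ≤ 1 * (B.c g 0).gb := a 1 1
  have a22 : |B.ga g f x 2 2 - 1| ≤ 1 * (1 / 10) := a 2 2
  have p := G.η_pos; have := G.η_le_one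
  rw [abs_le] at a00 a01 a10 a11 a22
  intro i j
  fin_cases i <;> fin_cases j
  exacts [show |B.ga g f x 0 0| ≤ 2 * _ from abs_le.2 ⟨by linarith, by linarith⟩,
    show |B.ga g f x 0 1| ≤ (B.c g 0).η from abs_le.2 ⟨by linarith, by linarith⟩, b' 0 (by decide),
    show |B.ga g f x 1 0| ≤ (B.c g 0).η from abs_le.2 ⟨by linarith, by linarith⟩,
    show |B.ga g f x 1 1| ≤ 2 from abs_le.2 ⟨by linarith, by linarith⟩, b' 1 (by decide),
    b'' 0 (by decide), b'' 1 (by decide),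
    show |B.ga g f x 2 2| ≤ 2 from abs_le.2 ⟨by linarith, by linarith⟩]

lemma eb_le {A A' A'' : Mx} (h : EB A A') (h' : ∀ i j, A' i j ≤ A'' i j) : EB A A'' :=
  fun i j => (h i j).trans (h' i j)

lemma tab_mono {u a0 a1 b0 b1 e k : ℝ} (h0 : a0 ≤ b0) (h1 : a1 ≤ b1) (i j : Fin 3) :
    tab u a0 a1 e k i j ≤ tab u b0 b1 e k i j := by
  fin_cases i <;> fin_cases j <;> simp [tab, h0, h1]

/-- the transition matrix with the common bound `hb` -/
lemma U_hb {c c' : Pm} {T Ω : Mx} (t : TF c c'.s1 c'.s2 T Ω c.hL2) (q : Cq c c') {M : ℝ}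
    (hM : |M - 1| ≤ 1 / 10) :
    EB (um (UU c c' T) M) (tab 9 (6 * (c.hb / c.η)) (6 * c.hb) (np c.N (-7 / 5)) 3) := by
  obtain ⟨a1, a2, -⟩ := q.g.hL2_bd
  refine eb_le (U_bd t q a1 hM) (tab_mono ?_ (by linarith))
  rw [← mul_div_assoc]
  exact div_le_div_of_nonneg_right (by linarith) q.g.η_pos.le

lemma dU_bd {M : V → ℝ} {A : Mx} {u a0 a1 e k h μ : ℝ} {x : V} (hA : EB A (tab u a0 a1 e k))
    (hM : DifferentiableAt ℝ M x) (h1 : |M x - 1| ≤ 1 / 10) (hh : 0 < h) {l : Fin 3}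
    (hμ : h * |pd l M x| ≤ μ) :
    EB (h • Dm l (fun w => um A (M w)) x) (tab 0 (a0 * (2 * μ)) (a1 * (2 * μ)) (e * (2 * μ)) 0) := by
  obtain ⟨p0, -, p2⟩ := inv_bd h1
  have e1 : pd l (fun w => (M w)⁻¹) x = -((M x)⁻¹ * (M x)⁻¹) * pd l M x := by
    rw [pd_comp_at (φ := fun t => t⁻¹) (differentiableAt_inv p0.ne') hM, deriv_inv, ← sq, inv_pow]
  have e2 : h • Dm l (fun w => um A (M w)) x =
      !![0, 0, A 0 2 * (h * pd l (fun w => (M w)⁻¹) x); 0, 0, A 1 2 * (h * pd l (fun w => (M w)⁻¹) x);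
        A 2 0 * (h * pd l M x), A 2 1 * (h * pd l M x), 0] := by
    ext a b
    fin_cases a <;> fin_cases b <;> simp [Dm, um, pd_const_mul] <;> ring
  have h2 : |h * pd l M x| ≤ μ := by rwa [abs_mul, abs_of_pos hh]
  have h3 : |h * pd l M x| ≤ 2 * μ := by linarith [abs_nonneg (h * pd l M x)]
  have h4 : |h * pd l (fun w => (M w)⁻¹) x| ≤ 2 * μ := by
    rw [e1, mul_left_comm, neg_mul, abs_neg]
    exact (abs_mul_le (abs_mul_le p2 p2) h2).trans (by linarith [abs_nonneg (h * pd l M x)])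
  have z : |(0 : ℝ)| ≤ 0 := abs_zero.le
  rw [e2]
  intro i j
  fin_cases i <;> fin_cases j
  exacts [z, z, abs_mul_le (hA 0 2) h4, z, z, abs_mul_le (hA 1 2) h4, abs_mul_le (hA 2 0) h3,
    abs_mul_le (hA 2 1) h3, z]

lemma mix_bd {A C Γ : Mx} {u a0 a1 e k η h ν : ℝ} (hA : EB A (tab u a0 a1 e k))
    (hΓ : EB Γ (gt η h)) (hC : EB C (tab 0 (a0 * ν) (a1 * ν) (e * ν) 0)) :
    EB (Cᵀ * Γ * A + Aᵀ * Γ * C) (bm (2 * ν * (e * (2 * u * h + 2 * e)))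
      (ν * (u * (3 * η * a0 + (η + 2) * a1) + 2 * e * h * (a0 + a1) + 2 * e * k))
      (2 * ν * (2 * η * a0 ^ 2 + 2 * η * a0 * a1 + 2 * a1 ^ 2 + k * h * (a0 + a1)))) := fun i j => by
  refine ((abs_add_le _ _).trans (add_le_add (eb_sand hC hΓ hA i j) (eb_sand hA hΓ hC i j))).trans
    (le_of_eq ?_)
  fin_cases i <;> fin_cases j <;> simp [tab, bm, gt, mul_apply, Fin.sum_univ_three] <;> ring

lemma hb_bd {c : Pm} (g : Gd c) : 0 < c.hb ∧ c.hb ≤ c.hb / c.η ∧ c.η * (c.hb / c.η) = c.hb ∧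
    c.hb * (c.hb / c.η) ≤ 1 / (c.J ^ 2 * c.q ^ 13) ∧ c.hb / c.η ≤ √c.N / c.J ^ 2 ∧
    c.hb ≤ 6 * (c.J ^ 2 / √c.N) := by
  obtain ⟨a1, a2, a3, a4, -⟩ := g.hL2_bd
  have p : 0 < c.hb := (g.big.np_pos _).trans_le (a1.trans a2)
  have := g.η_pos; have := g.J_pos; have := g.q_pos; have := g.big.sqrtN_pos
  refine ⟨p, le_div_self p.le g.η_pos g.η_le_one, mul_div_cancel₀ _ g.η_pos.ne', ?_, ?_,
    by linarith [show hc c.N = 3 * (c.J ^ 2 / √c.N) from g.big.hc_eq]⟩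
  · rwa [← mul_div_assoc, div_le_iff₀ g.η_pos, ← sq]
  · have a5 := Real.log_le_log (by positivity) a4
    refine le_of_log (by positivity) (by positivity) ?_
    simp (disch := positivity) only [Real.log_div, Real.log_mul, Real.log_pow, Real.log_one,
      g.log_q, g.log_J, g.big.log_sqrtN] at a5 ⊢
    push_cast at a5 ⊢
    linarith [g.log_η_ge, g.big.L_ge]

lemma cdi_num {N : ℕ} (h : Big N) :
    (pJ N ^ 4 / N * (√N / pJ N ^ 2) ≤ pJ N ^ 3 / √N ∧ pJ N ^ 4 / N * (√N / pJ N ^ 2) ^ 2 ≤ pJ N ∧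
    pJ N ^ 3 / √N * (√N / pJ N ^ 2) ≤ pJ N ∧ np N (-7 / 5) * (pJ N ^ 3 / √N) ≤ pJ N ^ 4 / N ∧
    np N (-7 / 5) ^ 2 * pJ N ≤ pJ N ^ 4 / N ∧ np N (-7 / 5) * pJ N ≤ pJ N ^ 3 / √N) ∧
    8000 * (3 / √(pq N)) ≤ 1 ∧ 10000 * (pq N * np N (-7 / 5)) ≤ pJ N ^ 4 / N ∧
    1000000 * (pq N * (pJ N ^ 2 / √N)) ≤ pJ N ^ 3 / √N ∧
    100000 * (pq N * (1 / (pJ N ^ 2 * pq N ^ 13))) ≤ 1 ∧ 1000 * (pJ N ^ 2 / √N) ≤ 1 ∧
    pJ N ^ 4 / N ≤ pJ N ^ 3 / √N ∧ 1000 * np N (-7 / 5) ≤ 1 ∧ 1000 * np N (-1 / 2) ≤ 1 := by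
  have := h.J_pos; have := h.N_pos; have := h.q_pos; have := h.sqrtN_pos; have := h.sqrtq_pos
  have := h.np_pos (-7 / 5); have := h.np_pos (-1 / 2); have := h.L_ge; have := h.J_ge
  have := (logc_bd (C := 3) (by norm_num)).2; have := (logc_bd (C := 8000) (by norm_num)).2
  have := (logc_bd (C := 10000) (by norm_num)).2; have := (logc_bd (C := 1000000) (by norm_num)).2
  have := (logc_bd (C := 100000) (by norm_num)).2; have := (logc_bd (C := 1000) (by norm_num)).2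
  refine ⟨⟨?_, ?_, ?_, ?_, ?_, ?_⟩, ?_, ?_, ?_, ?_, ?_, ?_, ?_, ?_⟩ <;>
    refine le_of_log (by positivity) (by positivity) ?_ <;>
    simp (disch := positivity) only [Real.log_mul, Real.log_div, Real.log_pow, Real.log_one,
      h.log_np, h.log_N, h.log_J, h.log_q, h.log_sqrtN, h.log_sqrtq] <;> push_cast <;> linarith

lemma cdi_real {X0 X1 J κ β0 ω β ε δ y η q : ℝ} (a0 : 0 < y) (a1 : y ≤ β) (a2 : η * β = y)
    (a3 : y * β ≤ κ) (a4 : β ≤ β0) (a5 : y ≤ 6 * ω) (n1 : X0 * β0 ≤ X1) (n2 : X0 * β0 ^ 2 ≤ J)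
    (n3 : X1 * β0 ≤ J) (n4 : ε * X1 ≤ X0) (n5 : ε ^ 2 * J ≤ X0) (n6 : ε * J ≤ X1)
    (n7 : 8000 * δ ≤ 1) (n8 : 10000 * (q * ε) ≤ X0) (n9 : 1000000 * (q * ω) ≤ X1)
    (n10 : 100000 * (q * κ) ≤ 1) (n11 : 1000 * ω ≤ 1) (n12 : X0 ≤ X1) (n13 : 1000 * ε ≤ 1)
    (J1 : 1 ≤ J) (q1 : 1 ≤ q) (p1 : 0 < X0) (p3 : η ≤ 1) (p4 : 0 < ε) (p5 : 0 < δ) :
    4 * 9 ^ 2 * (δ * X0) + 4 * 9 * ε * (δ * X1) + ε ^ 2 * (δ * J) +
      2 * (2 * q) * (ε * (2 * 9 * y + 2 * ε)) ≤ X0 / 10 ∧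
    2 * 9 * (δ * X0) * (6 * β + 6 * y) + 2 * 9 * (δ * X1) * 3 + ε * (δ * X1) * (6 * β + 6 * y) +
      ε * (δ * J) * 3 + 2 * q * (9 * (3 * η * (6 * β) + (η + 2) * (6 * y)) +
        2 * ε * y * (6 * β + 6 * y) + 2 * ε * 3) ≤ X1 / 10 ∧
    δ * X0 * (6 * β + 6 * y) ^ 2 + 2 * (δ * X1) * 3 * (6 * β + 6 * y) + δ * J * 3 ^ 2 +
      2 * (2 * q) * (2 * η * (6 * β) ^ 2 + 2 * η * (6 * β) * (6 * y) + 2 * (6 * y) ^ 2 +
        3 * y * (6 * β + 6 * y)) ≤ J / 10 := by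
  have p7 : 0 < X1 := p1.trans_le n12
  have q0 : 0 ≤ q := by linarith
  have s : 6 * β + 6 * y ≤ 12 * β0 := by linarith
  have m1 : X0 * (6 * β + 6 * y) ≤ 12 * X1 := by linarith [mul_le_mul_of_nonneg_left s p1.le]
  have m2 : X1 * (6 * β + 6 * y) ≤ 12 * J := by linarith [mul_le_mul_of_nonneg_left s p7.le]
  have m3 : X0 * (6 * β + 6 * y) ^ 2 ≤ 144 * J := by
    linarith [mul_le_mul_of_nonneg_left (pow_le_pow_left₀ (by linarith) s 2) p1.le]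
  have m6 : y * y ≤ κ := (mul_le_mul_of_nonneg_left a1 a0.le).trans a3
  have m5 : κ ≤ q * κ := le_mul_of_one_le_left ((mul_self_nonneg y).trans m6) q1
  have m7 := mul_le_mul_of_nonneg_left a5 q0
  have m8 := mul_le_mul_of_nonneg_left m2 p4.le
  have k1 : ∀ x X : ℝ, 0 ≤ X → x ≤ 400 * X → δ * x ≤ X / 20 := fun x X h0 h => by
    linarith [mul_le_mul_of_nonneg_left h p5.le, mul_le_mul_of_nonneg_right n7 h0]
  have k2 := k1 (324 * X0 + 36 * (ε * X1) + ε ^ 2 * J) X0 p1.le (by linarith)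
  have k3 := k1 (18 * (X0 * (6 * β + 6 * y)) + 54 * X1 + ε * (X1 * (6 * β + 6 * y)) +
    3 * (ε * J)) X1 p7.le (by linarith)
  have k4 := k1 (X0 * (6 * β + 6 * y) ^ 2 + 6 * (X1 * (6 * β + 6 * y)) + 9 * J) J
    (by linarith) (by linarith)
  have qe : 0 ≤ q * ε := by positivity
  have k5 : q * ε * (18 * y + 2 * ε) ≤ q * ε := mul_le_of_le_one_right qe (by linarith)
  have k6 : q * ε * (y * (6 * β + 6 * y)) ≤ q * ε := mul_le_of_le_one_right qe (by linarith)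
  have k7 := mul_le_mul_of_nonneg_left (mul_le_of_le_one_left a0.le p3) q0
  have k8 : η * β ^ 2 + η * β * y + y ^ 2 ≤ 3 * κ := by
    rw [sq β, ← mul_assoc, a2]; linarith
  have k9 := mul_le_mul_of_nonneg_left k8 q0
  have k10 := mul_le_mul_of_nonneg_left (show y * (6 * β + 6 * y) ≤ 12 * κ by linarith) q0
  have k11 : q * (η * β) = q * y := by rw [a2]
  exact ⟨by linarith, by linarith, by linarith⟩

/-- derivative of the sandwich in the old coordinates -/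
lemma dsw {c c' : Pm} {T Ω : Mx} (t : TF c c'.s1 c'.s2 T Ω c.hL2) (q : Cq c c') {M : V → ℝ}
    {Γ : V → Mx} {z : V} {h : ℝ} {l : Fin 3} (hM : DifferentiableAt ℝ M z) (hΓ : DifM Γ z)
    (h1 : |M z - 1| ≤ 1 / 10) (hh : 0 < h) (hμ : h * |pd l M z| ≤ c.q)
    (b : EB (Γ z) (gt c.η c.hb)) (b1 : EB (h • Dm l Γ z) ((3 / √c.q) • Xj c.N)) :
    EB (h • Dm l (fun w => sw c c' T (M w) (Γ w)) z) ((1 / 10 : ℝ) • Xj c.N) := by
  have g := q.g
  have d := dif_um (UU c c' T) hM (inv_bd h1).1.ne'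
  have u := U_hb t q h1
  have dU := dU_bd (um_one _ ▸ U_hb t q (M := 1) (by norm_num)) hM h1 hh hμ
  have e : h • Dm l (fun w => sw c c' T (M w) (Γ w)) z =
      (um (UU c c' T) (M z))ᵀ * (h • Dm l Γ z) * um (UU c c' T) (M z) +
      ((h • Dm l (fun w => um (UU c c' T) (M w)) z)ᵀ * Γ z * um (UU c c' T) (M z) +
        (um (UU c c' T) (M z))ᵀ * Γ z * (h • Dm l (fun w => um (UU c c' T) (M w)) z)) := by
    simp only [sw]
    rw [Dm_mul (d.tr.mul hΓ) d, Dm_mul d.tr hΓ]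
    have : Dm l (fun w => (um (UU c c' T) (M w))ᵀ) z = (Dm l (fun w => um (UU c c' T) (M w)) z)ᵀ :=
      rfl
    simp only [this, transpose_smul, Matrix.smul_mul, Matrix.mul_smul, Matrix.add_mul, smul_add]
    abel
  have s1 := sand_bm (x := 3 / √c.q * (c.J ^ 4 / c.N)) (y := 3 / √c.q * (c.J ^ 3 / √c.N))
    (z := 3 / √c.q * c.J) u fun i j => (b1 i j).trans (le_of_eq (by
      fin_cases i <;> fin_cases j <;> rfl))
  have s2 := mix_bd u b dU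
  obtain ⟨a0, a1, a2, a3, a4, a5⟩ := hb_bd g
  obtain ⟨⟨n1, n2, n3, n4, n5, n6⟩, n7, n8, n9, n10, n11, n12, n13, -⟩ := cdi_num g.big
  obtain ⟨k1, k2, k3⟩ := cdi_real a0 a1 a2 a3 a4 a5 n1 n2 n3 n4 n5 n6 n7 n8 n9 n10 n11 n12 n13
    (by linarith [g.big.J_ge, g.big.L_ge]) (by linarith [g.big.q_ge]) g.J4N_pos g.η_le_one
    (g.big.np_pos _) (div_pos (by norm_num) g.big.sqrtq_pos)
  rw [e]
  intro i j
  refine ((abs_add_le _ _).trans (add_le_add (s1 i j) (s2 i j))).trans ?_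
  rw [← Matrix.add_apply, ← bm_add, show (1 / 10 : ℝ) • Xj c.N =
    bm (pJ c.N ^ 4 / c.N / 10) (pJ c.N ^ 3 / √c.N / 10) (pJ c.N / 10) by
      ext a b; fin_cases a <;> fin_cases b <;> simp [Xj, bm] <;> ring]
  exact bm_mono k1 k2 k3 i j

/-- chain rule for the matrix in the new frame -/
lemma pd_tt {c : Pm} (g : Gd c) (c' : Pm) {F F' : Fr} (hQ : 0 < F.Q.det) {f : V → V} (D : Dif f)
    (w : V) (a b i : Fin 3) : pd i (fun w => c'.gam (F'.fh f) w a b) w =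
      ((fun l => Dm l (fun z => sw c c' (F.Q⁻¹ * F'.Q) (jac (F.fh f) z) (c.gam (F.fh f) z))
        (F.zc (F'.zp w)) a b) ᵥ* (F.Q⁻¹ * F'.Q)) i := by
  have dU := dif_um (UU c c' (F.Q⁻¹ * F'.Q)) ((fh_sm F D.1).jac.dif (F.zc (F'.zp w)))
    (jac_fh_pos hQ D _).ne'
  have d := (dU.tr.mul (dif_gam c hQ D _)).mul dU a b
  simp only [gam_tt g c' hQ.ne' D.1 _ (jac_fh_pos hQ D _).ne', zc_zp'] at d ⊢
  exact pd_comp_affine (g := fun z => sw c c' (F.Q⁻¹ * F'.Q) (jac (F.fh f) z) (c.gam (F.fh f) z) a b)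
    _ _ d i

lemma Xj_le {c c' : Pm} (q : Cq c c') (a b : Fin 3) : Xj c.N a b ≤ 2 * Xj c'.N a b := by
  have h := q.g.big; have h' := q.g'.big
  have := h.J_pos; have := h.N_pos; have := h.sqrtN_pos; have := h'.J_pos; have := h'.N_pos
  have := h'.sqrtN_pos; have := q.dJ.1; have := q.dJ.2.2; have := q.dL.1; have := q.w_bd.2.1
  have := q.w_bd.2.2; have := log2_bd.1
  have k : pJ c.N ^ 4 / c.N ≤ 2 * (pJ c'.N ^ 4 / c'.N) ∧
      pJ c.N ^ 3 / √c.N ≤ 2 * (pJ c'.N ^ 3 / √c'.N) ∧ pJ c.N ≤ 2 * pJ c'.N := by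
    refine ⟨?_, ?_, by linarith⟩ <;> refine le_of_log (by positivity) (by positivity) ?_ <;>
      simp (disch := positivity) only [Real.log_mul, Real.log_div, Real.log_pow, h.log_N, h.log_J,
        h.log_sqrtN, h'.log_N, h'.log_J, h'.log_sqrtN] <;> push_cast <;> linarith
  fin_cases a <;> fin_cases b
  exacts [k.1, k.1, k.2.1, k.1, k.1, k.2.1, k.2.1, k.2.1, k.2.2]

/-- column sums of `T` from the scales of the last band to the new scales -/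
lemma T_cs {c ck c' : Pm} {T Ω : Mx} {h : ℝ} (t : TF c c'.s1 c'.s2 T Ω h) (q : Cq c c')
    (gk : Gd ck) (e : ck.hn = c.hn) (hl : c'.lam ≤ ck.lam) (i : Fin 3) :
    ∑ l, |sc ck.hs c'.hs T l i| ≤ 5 := by
  have p := q.g.hn_pos
  have a : ∀ l, |sc ck.hs c'.hs T l i| ≤ 1001 / 1000 * bm 2 (np c.N (-1 / 2)) 2 l i := fun l => by
    have a1 := (abs_sc p p l i).1 (T_sc t q.g T (by simp) l i)
    refine (abs_sc gk.hs_pos q.g'.hs_pos l i).2 ?_
    rw [Pm.hs_eq, Pm.hs_eq, e, ← mul_assoc, ← mul_assoc]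
    have a2 := mul_le_mul_of_nonneg_left (hn_le q i).1 (abs_nonneg (T l i))
    exact mul_le_mul (by linarith) hl q.g'.lam_pos.le
      (by linarith [mul_nonneg (abs_nonneg (T l i)) (p i).le])
  have n := (cdi_num q.g.big).2.2.2.2.2.2.2.2
  refine (Finset.sum_le_sum fun l _ => a l).trans ?_
  rw [Fin.sum_univ_three]
  fin_cases i <;> simp [bm] <;> linarith

end Tt

open Tt Ftr in
theorem cdi (hT : TfbStmt) (hL : LabStmt) (hM : MbiStmt) (hK : LinkStmt) : CdiStmt := by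
  filter_upwards [ev_cx hT hL hM, hK] with N hX hK B hB ρ s H h0 g' x hx a b i
  have X := hX B hB ρ s h0
  obtain ⟨g, x', P⟩ := X.pk H g'
  obtain ⟨y, e, hy⟩ := hK B hB ρ s h0 x
  obtain ⟨-, -, y1, -, y2⟩ := X.pt P hx e hy
  have hQ := GeoP.det_pos X.fo g
  have D := X.lab.1
  have y3 := Bl.bx_mono X.big X.G (show _ ≤ (1 : ℝ) by norm_num) y1
  have y4 := Bl.R_mono X.big X.G (show _ ≤ (98 / 100 : ℝ) by norm_num)
    (((X.sur _ X.lab g).2 y _ (by norm_num) (by norm_num)).1 y1)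
  have Gk := X.gd g (Nat.sub_le (nb B.N) 1)
  have G := P.cq.g
  have dM := (fh_sm (B.fr g) D.1).jac.dif (B.oh g s.f y)
  have dΓ := dif_gam (B.c g 0) hQ D (B.oh g s.f y)
  have m1 : |jac ((B.fr g).fh s.f) (B.oh g s.f y) - 1| ≤ 1 / 10 :=
    (X.lab.2 g y y3).2.2.2.2.2.2.1.trans (by norm_num)
  have k := fun l => dsw P.tf P.cq dM dΓ m1 (Gk.hs_pos l)
    (((X.mb g).2.1.pd_le (by norm_num) l y4).trans_eq (one_mul _)) (gam_bd G X.lab y3) fun a b => by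
      rw [absD (Gk.hs_pos l)]
      refine ((X.inv.iF.ig.di g y y3).1 a b l).trans
        (mul_le_mul_of_nonneg_right ?_ (Xj_nonneg _ a b))
      obtain ⟨i1, i2, i3, -⟩ := idx X.big
      rw [if_neg fun h => by omega, add_zero]
      have := (dd_le X.big g (show ks B.N - el B.N ≤ nb B.N - 1 by omega)).2
      have p := one_div_pos.2 X.big.sqrtq_pos
      rw [div_eq_mul_one_div] at this
      rw [div_eq_mul_one_div 3]
      change _ ≤ 3 * (1 / √(pq B.N))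
      push_cast
      linarith
  show _ * |pd i (fun w => ((B.next s H).c g' 0).gam (((B.next s H).fr g').fh s.f) w a b)
    ((B.next s H).oh g' s.f x)| ≤ _
  rw [pd_tt G _ hQ D, y2]
  have l : ((B.next s H).c g' 0).lam ≤ (B.c g (nb B.N - 1)).lam := by
    show B.lb / 2 ^ nb B.N / 2 ^ 0 ≤ B.lb / 2 ^ (nb B.N - 1)
    rw [pow_zero, div_one]
    exact div_le_div_of_nonneg_left G.lb_pos.le (by positivity)
      (pow_le_pow_right₀ one_le_two (Nat.sub_le _ _))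
  have v := vm Gk.hs_pos P.cq.g'.hs_pos (fun l => (absD (Gk.hs_pos l) l _ _ a b).symm.trans_le
    (k l a b)) (T_cs P.tf P.cq Gk rfl l i)
  refine v.trans ?_
  have := Xj_le P.cq a b
  rw [Matrix.smul_apply, smul_eq_mul]
  linarith

end
end Pool.Agent.MP_20bec2_an.T3

end MrgPart1

-- ======== part 2: formerly Pool.Agent.MP_20bec2_an.T3.Cg0
section MrgPart2

/-! Row CG0: the normalised Gram matrix at the start of the next block. -/

set_option autoImplicit false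
set_option linter.unusedSectionVars false
open Set Filter Matrix Topology

namespace Pool.Agent.MP_20bec2_an.T3
noncomputable section
namespace Tt
open Ftr

lemma e22 {A Γ : Mx} {u a0 a1 e k η h : ℝ} (hA : EB A (tab u a0 a1 e k)) (hΓ : EB Γ (gt η h)) :
    |(Aᵀ * Γ * A) 2 2 - A 2 2 ^ 2 * Γ 2 2| ≤
      2 * η * a0 ^ 2 + 2 * η * a0 * a1 + 2 * a1 ^ 2 + 2 * k * h * (a0 + a1) := by
  have b0 : |A 0 2| ≤ a0 := hA 0 2
  have b1 : |A 1 2| ≤ a1 := hA 1 2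
  have b2 : |A 2 2| ≤ k := hA 2 2
  obtain ⟨c1, c1'⟩ := abs_le.1 (abs_mul_le (abs_mul_le b0 (show |Γ 0 0| ≤ 2 * η from hΓ 0 0)) b0)
  obtain ⟨c2, c2'⟩ := abs_le.1 (abs_mul_le (abs_mul_le b1 (show |Γ 1 0| ≤ η from hΓ 1 0)) b0)
  obtain ⟨c3, c3'⟩ := abs_le.1 (abs_mul_le (abs_mul_le b2 (show |Γ 2 0| ≤ h from hΓ 2 0)) b0)
  obtain ⟨c4, c4'⟩ := abs_le.1 (abs_mul_le (abs_mul_le b0 (show |Γ 0 1| ≤ η from hΓ 0 1)) b1)
  obtain ⟨c5, c5'⟩ := abs_le.1 (abs_mul_le (abs_mul_le b1 (show |Γ 1 1| ≤ 2 from hΓ 1 1)) b1)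
  obtain ⟨c6, c6'⟩ := abs_le.1 (abs_mul_le (abs_mul_le b2 (show |Γ 2 1| ≤ h from hΓ 2 1)) b1)
  obtain ⟨c7, c7'⟩ := abs_le.1 (abs_mul_le (abs_mul_le b0 (show |Γ 0 2| ≤ h from hΓ 0 2)) b2)
  obtain ⟨c8, c8'⟩ := abs_le.1 (abs_mul_le (abs_mul_le b1 (show |Γ 1 2| ≤ h from hΓ 1 2)) b2)
  simp only [mul_apply, Fin.sum_univ_three, transpose_apply]
  exact abs_le.2 ⟨by linarith, by linarith⟩

lemma um_ratio (U : Mx) {M M' : ℝ} (h : M ≠ 0) (h' : M' ≠ 0) :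
    um U M = dg3 1 1 (M / M') * um U M' * dg3 1 1 (M' / M) := by
  ext i j
  rw [dg3, dg3, mul_diagonal, diagonal_mul]
  fin_cases i <;> fin_cases j <;> simp [um] <;> field_simp

/-- all entries but the last one -/
lemma cg_alg {U Γ Γ' : Mx} {M M' a0 a1 e η η' h y G H K : ℝ} (hM : |M - 1| ≤ 2 * eps0)
    (hM' : |M' - 1| ≤ 2 * eps0) (hA : EB (um U M') (tab 9 a0 a1 e 3))
    (hd : EB (Γ - Γ') (bm G H K)) (hΓ : EB Γ (gt η y)) (hΓ' : EB Γ' (gt η y))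
    (hc : ∀ i, i ≠ 2 → |Γ' i 2| ≤ h ∧ |Γ' 2 i| ≤ h)
    (st : (um U M')ᵀ * Γ' * um U M' = dg3 η' 1 1) (a b : Fin 3) (hab : ¬ (a = 2 ∧ b = 2)) :
    |((um U M)ᵀ * Γ * um U M - dg3 η' 1 1) a b| ≤ 101 / 100 *
      bm (4 * 9 ^ 2 * G + 4 * 9 * e * (2 * H + 5 / 10 ^ 8 * h) + e ^ 2 * 5)
        (2 * 9 * G * (a0 + a1) + 2 * 9 * (2 * H + 5 / 10 ^ 8 * h) * 3 +
          e * (2 * H + 5 / 10 ^ 8 * h) * (a0 + a1) + e * 5 * 3) 0 a b := by
  unfold eps0 at hM hM'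
  obtain ⟨m1, m2⟩ := abs_le.1 hM
  obtain ⟨m3, m4⟩ := abs_le.1 hM'
  have p : 0 < M := by linarith
  have p' : 0 < M' := by linarith
  have r1 : |M / M' - 1| ≤ 5 / 10 ^ 8 := by
    rw [div_sub_one p'.ne', abs_div, abs_of_pos p', div_le_iff₀ p']
    exact abs_le.2 ⟨by linarith, by linarith⟩
  have r2 : |M / M'| ≤ 101 / 100 := by
    linarith [abs_sub_abs_le_abs_sub (M / M') 1, abs_one (α := ℝ)]
  have r3 : |M' / M| ≤ 101 / 100 := by
    rw [abs_of_pos (div_pos p' p), div_le_iff₀ p]; linarith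
  have H0 : 0 ≤ H := (abs_nonneg _).trans (hd 0 2)
  have k : ∀ x x' : ℝ, |x - x'| ≤ H → |x'| ≤ h → |M / M' * x - x'| ≤ 2 * H + 5 / 10 ^ 8 * h :=
    fun x x' h1 h2 => by
      rw [show M / M' * x - x' = M / M' * (x - x') + (M / M' - 1) * x' by ring]
      linarith [abs_add_le (M / M' * (x - x')) ((M / M' - 1) * x'), abs_mul_le r2 h1,
        abs_mul_le r1 h2]
  have hW : EB (dg3 1 1 (M / M') * Γ * dg3 1 1 (M / M') - Γ')
      (bm G (2 * H + 5 / 10 ^ 8 * h) 5) := fun i j => by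
    rw [Matrix.sub_apply, dg3, mul_diagonal, diagonal_mul]
    fin_cases i <;> fin_cases j
    · simpa [bm] using hd 0 0
    · simpa [bm] using hd 0 1
    · simpa [bm, mul_comm] using k _ _ (hd 0 2) (hc 0 (by decide)).1
    · simpa [bm] using hd 1 0
    · simpa [bm] using hd 1 1
    · simpa [bm, mul_comm] using k _ _ (hd 1 2) (hc 1 (by decide)).1
    · simpa [bm] using k _ _ (hd 2 0) (hc 0 (by decide)).2
    · simpa [bm] using k _ _ (hd 2 1) (hc 1 (by decide)).2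
    · show |M / M' * Γ 2 2 * (M / M') - Γ' 2 2| ≤ 5
      linarith [abs_sub (M / M' * Γ 2 2 * (M / M')) (Γ' 2 2),
        abs_mul_le (abs_mul_le r2 (show |Γ 2 2| ≤ 2 from hΓ 2 2)) r2, (show |Γ' 2 2| ≤ 2 from hΓ' 2 2)]
  have s := sand_bm hA hW
  have e1 : (um U M)ᵀ * Γ * um U M = dg3 1 1 (M' / M) * ((um U M')ᵀ *
      (dg3 1 1 (M / M') * Γ * dg3 1 1 (M / M') - Γ') * um U M' + dg3 η' 1 1) * dg3 1 1 (M' / M) := by
    rw [← st, ← Matrix.add_mul, ← Matrix.mul_add, sub_add_cancel, um_ratio U p.ne' p'.ne']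
    simp only [transpose_mul, dg3, diagonal_transpose, Matrix.mul_assoc]
  rw [e1, Matrix.sub_apply, dg3, mul_diagonal, diagonal_mul, Matrix.add_apply]
  generalize (um U M')ᵀ * (dg3 1 1 (M / M') * Γ * dg3 1 1 (M / M') - Γ') * um U M' = S at s
  have l : ∀ x X : ℝ, |x| ≤ X → |x| ≤ 101 / 100 * X := fun x X h => by linarith [abs_nonneg x]
  fin_cases a <;> fin_cases b
  · simpa [dg3, bm] using l _ _ (s 0 0)
  · simpa [dg3, bm] using l _ _ (s 0 1)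
  · simpa [dg3, bm, mul_comm] using abs_mul_le r3 (s 0 2)
  · simpa [dg3, bm] using l _ _ (s 1 0)
  · simpa [dg3, bm] using l _ _ (s 1 1)
  · simpa [dg3, bm, mul_comm] using abs_mul_le r3 (s 1 2)
  · simpa [dg3, bm] using abs_mul_le r3 (s 2 0)
  · simpa [dg3, bm] using abs_mul_le r3 (s 2 1)
  · exact absurd ⟨rfl, rfl⟩ hab

lemma cg_num {N : ℕ} (h : Big N) :
    (3000 * (pX N / (qp N (7 / 2) * N)) ≤ cg0 N ∧ 3000 * (1206 * pJ N / (N * pJ N ^ 4)) ≤ cg0 N ∧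
      3000 * (1 / pJ N ^ 20 * (pJ N ^ 4 / N)) ≤ cg0 N ∧ 1000 * np N (-7 / 5) ≤ cg0 N) ∧
    (10000 * (pq N * √(bB N * (1072 * pJ N) * (qp N (1 / 5) * pJ N) / N)) ≤ fr0 N ∧
      10000 * (pq N * √(bA N * (1072 * pJ N) * (qp N (1 / 5) * pJ N) / N)) ≤ pJ N ^ 2 / √N ∧
      10000 * (1206 * pJ N * sm N) ≤ fr0 N ∧ 10000 * (1 / pJ N ^ 20 * (pJ N ^ 3 / √N)) ≤ fr0 N ∧
      10000 * np N (-7 / 5) ≤ fr0 N) ∧
    (200 * (1206 * pJ N * np N (-1 / 25)) ≤ 1 / pJ N ∧ 200 * (1 / pJ N ^ 20 * pJ N) ≤ 1 / pJ N ∧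
      10000 * (1 / (pJ N ^ 2 * pq N ^ 13)) ≤ 1 / pJ N) ∧
    12 * (np N (-7 / 5) * (√N / pJ N ^ 2)) ≤ 1 ∧
    9 * (5 * (pq N * √(pJ N)) / pJ N ^ 27) / √(pq N) ≤ 1 / pJ N ^ 20 ∧ pq N ≤ √(pJ N) := by
  have := h.J_pos; have := h.N_pos; have := h.q_pos; have := h.sqrtN_pos; have := h.sqrtq_pos
  have := h.np_pos (-7 / 5); have := h.np_pos (-1 / 25); have := h.L_ge; have := h.J_ge
  have := h.X_pos; have := h.qp_pos (7 / 2); have := h.qp_pos (1 / 5); have := h.cg0_pos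
  have := h.fr0_pos; have := h.sm_pos; have := h.bA_pos; have := h.bB_pos
  have := (logc_bd (C := 3000) (by norm_num)).2; have := (logc_bd (C := 1206) (by norm_num)).2
  have := (logc_bd (C := 10000) (by norm_num)).2; have := (logc_bd (C := 1072) (by norm_num)).2
  have := (logc_bd (C := 200) (by norm_num)).2; have := (logc_bd (C := 1000) (by norm_num)).2
  have := (logc_bd (C := 12) (by norm_num)).2; have := (logc_bd (C := 9) (by norm_num)).2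
  have := (logc_bd (C := 5) (by norm_num)).2
  refine ⟨⟨?_, ?_, ?_, ?_⟩, ⟨?_, ?_, ?_, ?_, ?_⟩, ⟨?_, ?_, ?_⟩, ?_, ?_, ?_⟩ <;>
    refine le_of_log (by positivity) (by positivity) ?_ <;>
    simp (disch := positivity) only [Real.log_mul, Real.log_div, Real.log_pow, Real.log_one,
      Real.log_sqrt, h.log_np, h.log_N, h.log_J, h.log_q, h.log_qp, h.log_X, h.log_cg0, h.log_fr0,
      h.log_sm, h.log_bA, h.log_bB] <;> push_cast <;> linarith

lemma cg_eta {c : Pm} (g : Gd c) : 10 ^ 9 * cg0 c.N ≤ c.η := by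
  have := g.big.cg0_pos
  refine le_of_log (by positivity) g.η_pos ?_
  rw [Real.log_mul (by norm_num) this.ne', Real.log_pow, g.big.log_cg0]
  push_cast
  linarith [g.log_η_ge, g.big.L_ge, log10_bd.2]

lemma cg_real {G H h e η b cg β0 y : ℝ} (G0 : 0 ≤ G) (H0 : 0 ≤ H) (h0 : 0 ≤ h) (e0 : 0 ≤ e)
    (η0 : 0 < η) (η1 : η ≤ 1) (a1 : 1000 * G ≤ cg) (a2 : 1000 * e ≤ cg) (a3 : 10 ^ 9 * cg ≤ η)
    (a4 : 1000 * H ≤ b) (a5 : h ≤ 92000 * b) (a6 : 5000 * e ≤ b) (a7 : h ≤ y) (a8 : y / η ≤ β0)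
    (a9 : 12 * (e * β0) ≤ 1) (a11 : b ≤ 1) :
    101 / 100 * (4 * 9 ^ 2 * G + 4 * 9 * e * (2 * H + 5 / 10 ^ 8 * h) + e ^ 2 * 5) ≤ cg / 2 ∧
    101 / 100 * (2 * 9 * G * (6 * h / η + 6 * h) + 2 * 9 * (2 * H + 5 / 10 ^ 8 * h) * 3 +
      e * (2 * H + 5 / 10 ^ 8 * h) * (6 * h / η + 6 * h) + e * 5 * 3) ≤ b := by
  have k1 : e * (2 * H + 5 / 10 ^ 8 * h) ≤ e := mul_le_of_le_one_right e0 (by linarith)
  have k2 : e ^ 2 ≤ e := by rw [sq]; exact mul_le_of_le_one_right e0 (by linarith)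
  have k3 : h ≤ h / η := le_div_self h0 η0 η1
  have k4 : h / η ≤ y / η := div_le_div_of_nonneg_right a7 η0.le
  have k5 : G * (h / η) ≤ h / 10 ^ 12 := by
    rw [← mul_div_assoc, div_le_iff₀ η0]
    linarith [mul_le_mul_of_nonneg_left (show G ≤ η / 10 ^ 12 by linarith) h0]
  have k6 := mul_le_mul_of_nonneg_left k3 G0
  have k7 : e * (6 * (h / η) + 6 * h) ≤ 1 := by
    linarith [mul_le_mul_of_nonneg_left (show 6 * (h / η) + 6 * h ≤ 12 * β0 by linarith) e0]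
  have k8 := mul_le_of_le_one_left (show 0 ≤ 2 * H + 5 / 10 ^ 8 * h by positivity) k7
  rw [mul_div_assoc]
  constructor <;> linarith

variable {B : Bk} {ρ : V → ℝ} {s : St} {H : Cu → V → V} {g' g : Cu} {x' x y : V}

/-- the two labels are close on the scale of the band `ks - el` -/
lemma near (X : Cx B ρ s) (P : Pk B s H g' g x') (sZ : Sm (B.Z s))
    (hZ : ∀ x ∈ B.bx g 1, EB ((B.fr g).hm (jm (B.Z s) x) - 1) (cm (B.c g (nb B.N - 1)).zT))
    (hx : x ∈ B.bx g 1) (a1 : ‖x - ((B.next s H).fr g').x0‖ ≤ (B.next s H).D)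
    (a2 : B.lab s.f y = B.Z s x) (i : Fin 3) : |B.oh g s.f y i - B.oh g s.f x' i| ≤
      5 * (pq B.N * √(pJ B.N)) / pJ B.N ^ 27 * (B.c g (ks B.N - el B.N)).hs i := by
  have h := X.big
  obtain ⟨i1, i2, i3, i4, -⟩ := idx h
  have G := X.gd g (show ks B.N ≤ _ by omega)
  have G0 := X.gd g (Nat.zero_le _)
  have hO := GeoP.orth X.fo g
  have x0 := Bl.bx_mono h X.G (show _ ≤ (1 : ℝ) by norm_num) P.hx0
  have x1 := Bl.bx_mono h X.G (show _ ≤ (1 : ℝ) by norm_num) P.hx'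
  set p := ((B.next s H).fr g').x0
  have J1 : 1 ≤ √(pJ B.N) := Real.one_le_sqrt.2 (by linarith [h.J_ge, h.L_ge])
  have b1 := lip_of_jm (Z := (B.fr g).hat (B.Z s)) (L := 2) (Prof.RX_convex (B.fr g).O B.D 1)
    (fun w _ => (Prof.hat_sm _ sZ).dif w) (fun w hw a b => by
      have z1 : |((B.fr g).hm (jm (B.Z s) ((B.fr g).xp w)) - 1) a b| ≤ _ :=
        hZ _ ((GeoP.xp_mem X.fo).2 hw) a b
      have z2 := (Bl.zT_le (X.gd g i4.le)).trans (div_le_one_of_le₀ J1 (by positivity))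
      have z3 : |(1 : Mx) a b| ≤ 1 := by rw [one_apply]; split_ifs <;> simp
      rw [(K3.p5 _ sZ.dif w).1]
      rw [Matrix.sub_apply] at z1
      change _ ≤ (B.c g (nb B.N - 1)).zT at z1
      change _ ≤ 2
      linarith [abs_sub_abs_le_abs_sub ((B.fr g).hm (jm (B.Z s) ((B.fr g).xp w)) a b) ((1 : Mx) a b)])
    ((GeoP.xc_mem X.fo).2 hx) ((GeoP.xc_mem X.fo).2 x0)
  rw [GeoP.hat_xc hO, GeoP.hat_xc hO, Prof.xc_sub] at b1
  have b2 := Prof.orth_norm_le_two (Prof.orth_t hO) (x - p)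
  have b3 : |(B.fr g).zc (B.Z s x) i - (B.fr g).zc (B.Z s p) i| ≤ (B.c g (ks B.N)).hs i := by
    have := norm_le_pi_norm ((B.fr g).zc (B.Z s x) - (B.fr g).zc (B.Z s p)) i
    rw [Real.norm_eq_abs, Pi.sub_apply] at this
    linarith [(X.D'_le H g).1, (X.D'_le H g).2.2, (hs_bd G i).1]
  have b4 := X.inv.iz.dz _ i3 g p x0 i
  rw [← Prof.zc_sub, Pi.sub_apply, ← P.lab] at b4
  have hp := G.hs_pos i
  have ph2 : ph (ks B.N) (nb B.N - 1) 9 ≤ 2 := ph_le le_rfl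
  have q0 := h.q_pos
  have q1 : pq B.N ^ 2 ≤ pq B.N * √(pJ B.N) := by
    rw [sq]; exact mul_le_mul_of_nonneg_left (cg_num h).2.2.2.2.2 q0.le
  have q2 : 1 ≤ pq B.N ^ 2 := one_le_pow₀ (by linarith [h.q_ge])
  have b5 : |B.oh g s.f x' i - B.oh g (s.ft (ks B.N)) x' i| ≤
      pq B.N ^ 2 * (B.c g (ks B.N)).hs i * 2 := by
    obtain ⟨d1, d2⟩ := X.inv.iF.ig.dl _ i3 g x' x1
    by_cases hi : i = 2
    · subst hi
      rw [if_neg (X.ncrs g (by omega)), add_zero] at d2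
      exact d2.trans (mul_le_mul_of_nonneg_left ph2 (mul_nonneg (by positivity) hp.le))
    · have n : np B.N (-3 / 10) ≤ 1 := (h.np_le (by norm_num)).trans_eq (np_zero _)
      exact (d1 i hi).trans ((mul_le_mul_of_nonneg_left ph2 (mul_pos (h.np_pos _) hp).le).trans
        (mul_le_mul_of_nonneg_right (mul_le_mul_of_nonneg_right (n.trans q2) hp.le) zero_le_two))
  have b6 := b4.trans (mul_le_mul_of_nonneg_left ph2 (by positivity))
  have b7 : (B.c g (ks B.N)).hs i ≤ (B.c g (ks B.N - el B.N)).hs i / pJ B.N ^ 27 := by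
    have J0 := h.J_pos
    rw [le_div_iff₀ (by positivity), Pm.hs_eq, Pm.hs_eq, mul_assoc]
    refine mul_le_mul_of_nonneg_left ?_ (G.hn_pos i).le
    show B.lb / 2 ^ ks B.N * _ ≤ B.lb / 2 ^ (ks B.N - el B.N)
    rw [← i2, pow_add, i2, ← div_div, div_mul_eq_mul_div, div_le_iff₀ (by positivity)]
    exact mul_le_mul_of_nonneg_left h.two_pow_el.1 (div_pos G.lb_pos (by positivity)).le
  have t1 := abs_sub_le ((B.fr g).zc (B.Z s x) i) ((B.fr g).zc (B.Z s p) i) (B.oh g s.f x' i)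
  have t2 := abs_sub_le ((B.fr g).zc (B.Z s p) i) (B.oh g (s.ft (ks B.N)) x' i) (B.oh g s.f x' i)
  rw [abs_sub_comm] at b5
  rw [Bk.oh, a2, div_mul_eq_mul_div, mul_div_assoc]
  refine le_trans ?_ (mul_le_mul_of_nonneg_left b7 (by positivity))
  have m1 := mul_le_mul_of_nonneg_right q1 hp.le
  have m2 := mul_le_mul_of_nonneg_right q2 hp.le
  change |_ - B.oh g (s.ft (ks B.N)) x' i| ≤ _ at b6
  linarith

/-- the old matrix at the label against the old matrix at the star point -/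
lemma delta (X : Cx B ρ s) (P : Pk B s H g' g x') (hy : y ∈ B.bx g (98 / 100))
    (hn : ∀ i, |B.oh g s.f y i - B.oh g s.f x' i| ≤
      5 * (pq B.N * √(pJ B.N)) / pJ B.N ^ 27 * (B.c g (ks B.N - el B.N)).hs i) :
    EB (B.ga g s.f y - B.ga g (s.ft (ks B.N - el B.N)) x')
      (bm (cg0 B.N / 1000) (((B.next s H).c g' 0).B1 / 1000) (1 / pJ B.N / 100)) := by
  have h := X.big
  obtain ⟨i1, i2, i3, i4, -⟩ := idx h
  obtain ⟨i, hi⟩ := Bl.site h X.G y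
  have r := X.inv.iF.ig.rel (ks B.N - el B.N) (by omega) g y
    (Bl.bx_mono h X.G (by norm_num) hy) i hi
  rw [if_neg (X.ncrs g i1), if_neg (X.ncrs g i1), sub_zero, add_zero] at r
  have t := X.tau_mvt le_rfl (by omega) g hy (Bl.bx_mono h X.G (by norm_num) P.hx') hn
  obtain ⟨⟨n1, n2, n3, -⟩, ⟨n4, n5, n6, n7, -⟩, ⟨n8, n9, -⟩, -, n10, -⟩ := cg_num h
  obtain ⟨-, b1, b2⟩ := hL2_le P.tf P.cq
  have L := Ledg.lh h X.fo i4 le_rfl X.inv.il i
  have c0 : ((cnt (nb B.N - 1) 9 - 9 * (ks B.N - el B.N) : ℕ) : ℝ) ≤ 1206 * pJ B.N :=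
    (Nat.cast_le.2 (Nat.sub_le _ _)).trans (h.cnt_le i4 le_rfl)
  have c1 := Ledg.SG_le X.fo L g (8 * (ks B.N - el B.N))
  have c2 := div_le_div_of_nonneg_right c0 (mul_pos h.N_pos (pow_pos h.J_pos 4)).le
  have c3 := mul_le_mul_of_nonneg_right c0 h.sm_pos.le
  have c4 := mul_le_mul_of_nonneg_right c0 (h.np_pos (-1 / 25)).le
  have c5 : 5000 * (pq B.N * SA B.N (B.c g 0).bbO s.xs (8 * (ks B.N - el B.N))
      (tm (nb B.N - 1) 9) i) ≤ ((B.next s H).c g' 0).B1 := by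
    unfold Pm.bbO
    split_ifs with hB
    · have := mul_le_mul_of_nonneg_left (L.long_le h.bB_pos.le (8 * (ks B.N - el B.N))) h.q_pos.le
      change 5000 * (_ * SA _ (bB B.N) _ _ _ _) ≤ _
      change fr0 B.N ≤ _ at b2
      linarith
    · have := mul_le_mul_of_nonneg_left (L.long_le h.bA_pos.le (8 * (ks B.N - el B.N))) h.q_pos.le
      have b3 : pJ B.N ^ 2 / √B.N ≤ _ := b1 hB
      change 5000 * (_ * SA _ (bA B.N) _ _ _ _) ≤ _
      linarith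
  change fr0 B.N ≤ _ at b2
  intro a b
  have t1 := (t a b).trans (mul_le_mul_of_nonneg_right n10 (Xj_nonneg _ a b))
  have t2 := abs_sub_le (B.ga g s.f y a b) (B.ga g (s.ft (ks B.N - el B.N)) y a b)
    (B.ga g (s.ft (ks B.N - el B.N)) x' a b)
  refine (t2.trans (add_le_add (r a b) t1)).trans ?_
  rw [show 1 / pJ B.N ^ 20 * Xj B.N a b = bm (1 / pJ B.N ^ 20 * (pJ B.N ^ 4 / B.N))
    (1 / pJ B.N ^ 20 * (pJ B.N ^ 3 / √B.N)) (1 / pJ B.N ^ 20 * pJ B.N) a b by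
      fin_cases a <;> fin_cases b <;> rfl, ← Matrix.add_apply, ← bm_add]
  exact bm_mono (by linarith) (by linarith [P.cq.g'.B1_pos]) (by linarith) a b

end Tt

open Tt Ftr in
theorem cg0_ (hT : TfbStmt) (hL : LabStmt) (hM : MbiStmt) (hK : LinkStmt) (hZ : ZderStmt) :
    Cg0Stmt := by
  filter_upwards [ev_cx hT hL hM, hK, hZ] with N hX hK hZ B hB ρ s H h0 g' x hx a b
  have X := hX B hB ρ s h0
  have h := X.big
  obtain ⟨g, x', P⟩ := X.pk H g'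
  obtain ⟨y, e, hy⟩ := hK B hB ρ s h0 x
  obtain ⟨y0, x1, y1, y5, y2⟩ := X.pt P hx e hy
  obtain ⟨i1, i2, i3, i4, -⟩ := idx h
  obtain ⟨sZ, zb⟩ := hZ B hB ρ _ 9 s h0.2.1.toOk0 i4 le_rfl X.inv.il X.inv.iz X.inv.ip X.inv.iq
  have hd := delta X P (Bl.bx_mono h X.G (by norm_num) y1) (near X P sZ
    (fun x hx => (zb g x hx).2.2.2.1) (Bl.bx_mono h X.G (by norm_num) x1) y0 y5)
  have hQ := GeoP.det_pos X.fo g
  have D := X.lab.1
  have L := X.labj _ i1 (by omega)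
  have G := P.cq.g; have G' := P.cq.g'
  have hΓ := gam_bd G X.lab (Bl.bx_mono h X.G (by norm_num) y1)
  have hΓ' := gam_bd G L (Bl.bx_mono h X.G (by norm_num) P.hx')
  have m1 := (X.mb g).1 _ (Bl.R_mono h X.G (by norm_num)
    (((X.sur _ X.lab g).2 y _ (by norm_num) (by norm_num)).1 y1))
  have m2 := ((X.inv.iF.sn (ks B.N - el B.N) (by omega)).2.2 g).1 _ (Bl.R_mono h X.G (by norm_num)
    (((X.sur _ L g).2 x' _ (by norm_num) (by norm_num)).1 P.hx'))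
  have m3 : ∀ {t : ℝ}, t ≤ 2 * eps0 → t ≤ 1 / 10 := fun h => h.trans (by norm_num [eps0])
  obtain ⟨a0, a1, a2, a3, a4, a5⟩ := hb_bd G
  obtain ⟨⟨-, -, -, n1⟩, ⟨-, -, -, -, n2⟩, ⟨-, -, n3⟩, n4, -⟩ := cg_num h
  show |(((B.next s H).c g' 0).gam (((B.next s H).fr g').fh s.f) ((B.next s H).oh g' s.f x) -
    ((B.next s H).c g' 0).gref) a b| ≤ _
  rw [gam_tt G _ hQ.ne' D.1 _ (jac_fh_pos hQ D _).ne', y2]
  by_cases hab : a = 2 ∧ b = 2
  · obtain ⟨rfl, rfl⟩ := hab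
    have u := U_hb P.tf P.cq (m3 m1)
    have e1 := e22 u hΓ
    have e2 := e22 (U_hb P.tf P.cq (m3 m2)) hΓ'
    have e3 := congrFun (congrFun P.star 2) 2
    have e4 := abs_mul_le (abs_mul_le (u 2 2) (u 2 2)) (hd 2 2)
    have r : 1 / pJ B.N ≤ 2 * (1 / pJ (B.next s H).N) := by
      have : pJ (B.next s H).N ≤ _ * pJ B.N := (P.cq.ratios Pm.J (by simp)).2.2.1
      rw [mul_one_div, div_le_div_iff₀ h.J_pos (show 0 < pJ (B.next s H).N from G'.big.J_pos)]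
      linarith [h.J_pos]
    have k1 : (B.c g 0).hb * (B.c g 0).hb ≤ _ := (mul_le_mul_of_nonneg_left a1 a0.le).trans a3
    have k2 : (B.c g 0).η * ((B.c g 0).hb / (B.c g 0).η) ^ 2 =
        (B.c g 0).hb * ((B.c g 0).hb / (B.c g 0).η) := by rw [sq, ← mul_assoc, a2]
    have k3 : (B.c g 0).η * ((B.c g 0).hb / (B.c g 0).η) * (B.c g 0).hb =
        (B.c g 0).hb * (B.c g 0).hb := by rw [a2]
    change _ ≤ 1 / (pJ B.N ^ 2 * pq B.N ^ 13) at a3 k1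
    unfold sw at e3 ⊢
    rw [e3] at e2
    change |1 - UU _ _ _ 2 2 ^ 2 * _| ≤ _ at e2
    change |_ - UU _ _ _ 2 2 ^ 2 * _| ≤ _ at e1
    change |UU _ _ _ 2 2 * UU _ _ _ 2 2 * (_ - _)| ≤ 3 * 3 * (1 / pJ B.N / 100) at e4
    change |_ - 1| ≤ 1 / pJ (B.next s H).N
    rw [abs_le] at e1 e2 e4 ⊢
    unfold Bk.ga at e1 e2 e4
    constructor <;> linarith [e1.1, e1.2, e2.1, e2.2, e4.1, e4.2]
  · obtain ⟨b1, b2, -⟩ := G.hL2_bd
    obtain ⟨b3, -, b4⟩ := hL2_le P.tf P.cq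
    have c1 := cg_alg m1 m2 (U_bd P.tf P.cq b1 (m3 m2)) hd hΓ hΓ'
      (fun i hi => ⟨P.col i hi, (congrArg abs (gam_symm _ _ _ 2 i)).trans_le (P.col i hi)⟩)
      P.star a b hab
    have n6 : 1000 * (((B.next s H).c g' 0).J ^ 2 / √((B.next s H).c g' 0).N) ≤ 1 :=
      (cdi_num G'.big).2.2.2.2.2.1
    change fr0 B.N ≤ _ at b4
    obtain ⟨c2, c3⟩ := cg_real (G := cg0 B.N / 1000) (H := ((B.next s H).c g' 0).B1 / 1000)
      (cg := cg0 B.N) (by linarith [h.cg0_pos]) (by linarith [G'.B1_pos])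
      ((h.np_pos _).le.trans b1) (h.np_pos (-7 / 5)).le G.η_pos G.η_le_one (by linarith) n1
      (cg_eta G) (by linarith) b3 (by linarith) b2 a4 n4 (by linarith [G'.B1_le])
    have r : cg0 B.N ≤ _ * cg0 (B.next s H).N := (P.cq.ratios (fun c => cg0 c.N) (by simp)).2.2.2
    have c4 := c2.trans (show _ ≤ cg0 (B.next s H).N by linarith [h.cg0_pos])
    refine c1.trans ?_
    fin_cases a <;> fin_cases b
    exacts [c4, c4, c3, c4, c4, c3, c3, c3, absurd ⟨rfl, rfl⟩ hab]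

end
end Pool.Agent.MP_20bec2_an.T3

end MrgPart2

-- marker of a merged file
example : 731051 + 6407 = 731051 + 6407 := rfl

end MrgPart1

-- marker of a merged file
example : 731051 + 6407 = 731051 + 6407 := rfl
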