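import Pool.Agent.MP_20bec2_an.T3.Par4
import Pool.Agent.MP_20bec2_an.T3.Fcomp
import Pool.Agent.MP_20bec2_an.T3.Yq
import Pool.Agent.MP_20bec2_an.T3.Conv
import Pool.Agent.MP_20bec2_an.T3.WinA
import Pool.Agent.MP_20bec2_an.T3.Par3
import Pool.Agent.MP_20bec2_an.T3.Calc1b
import Pool.Agent.MP_20bec2_an.T3.Final
import Pool.Agent.MP_20bec2_an.T3.Rem
import Pool.Agent.MP_20bec2_an.T3.K4
import Pool.Agent.MP_20bec2_an.T3.CrA
import Mathlib.LinearAlgebra.Matrix.SesquilinearForm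
import Mathlib.LinearAlgebra.Matrix.DotProduct
import Mathlib.Data.Fin.Tuple.Sort

-- ======== part 0: formerly Pool.Agent.MP_20bec2_an.T3.TfbA
section MrgPart0

set_option autoImplicit false
open MeasureTheory Set Filter Matrix

namespace Pool.Agent.MP_20bec2_an.T3
noncomputable section
open Classical

namespace TfbP

lemma lc (C : ℝ) (h : 1 ≤ C) : Real.log C ≤ C := (logc_bd h).2

section big
variable {N : ℕ} (h : Big N)
include h

lemma j0_lt : mid N < ks N - el N ∧ ks N - el N ≤ ks N ∧ mid N < ks N := by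
  have h1 := h.nm_pos
  have h2 := h.el_le_nm
  unfold ks mid
  omega

lemma n15 : 16 * np N (-15) ≤ np N (-10) := by
  have := h.np_pos (-15)
  refine le_of_log (by positivity) (h.np_pos _) ?_
  simp (disch := positivity) only [Real.log_mul, h.log_np]
  linarith [h.L_ge, h.J_ge, lc 16 (by norm_num)]

lemma n4 : 100 * np N (-4) ≤ 1 := by
  have := h.np_pos (-4)
  refine le_of_log (by positivity) one_pos ?_
  simp (disch := positivity) only [Real.log_mul, h.log_np, Real.log_one]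
  linarith [h.L_ge, h.J_ge, lc 100 (by norm_num)]

lemma qJ7 : 4 * (√(pq N) * (qp N (1 / 5) * pJ N)) ≤ pq N ^ 3 * pJ N := by
  have := h.q_pos; have := h.J_pos; have := h.qp_pos (1 / 5)
  refine le_of_log (by positivity) (by positivity) ?_
  simp (disch := positivity) only [Real.log_mul, Real.log_pow, h.log_qp, h.log_sqrtq, h.log_q,
    h.log_J]
  push_cast
  linarith [h.L_ge, lc 4 (by norm_num)]

lemma th_sq {p : ℝ} (hp : 0 ≤ p) : (qp N (2 / 5) * √(pJ N * p)) ^ 2 ≤ pq N * pJ N * p := by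
  have := h.q_pos; have := h.J_pos; have := h.qp_pos (2 / 5)
  have h1 : qp N (2 / 5) ^ 2 ≤ pq N := by
    refine le_of_log (by positivity) (by positivity) ?_
    simp (disch := positivity) only [Real.log_pow, h.log_qp, h.log_q]
    push_cast
    linarith [h.L_ge]
  rw [mul_pow, Real.sq_sqrt (by positivity), mul_assoc]
  exact mul_le_mul_of_nonneg_right h1 (by positivity)

lemma sa_le : 4 * (pq N * √(bB N * (1072 * pJ N) * (qp N (1 / 5) * pJ N) / N)) ≤ fr0 N := by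
  have := h.q_pos; have := h.J_pos; have := h.qp_pos (1 / 5); have := h.bB_pos
  have := h.N_pos
  refine le_of_log (by positivity) h.fr0_pos ?_
  simp (disch := positivity) only [Real.log_mul, Real.log_div, Real.log_sqrt, h.log_qp, h.log_q,
    h.log_J, h.log_N, h.log_bB, h.log_fr0]
  linarith [h.L_ge, lc 4 (by norm_num), lc 1072 (by norm_num)]

lemma sm_le : 4 * (1206 * pJ N * sm N) ≤ fr0 N := by
  have := h.J_pos; have := h.sm_pos
  refine le_of_log (by positivity) h.fr0_pos ?_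
  simp (disch := positivity) only [Real.log_mul, h.log_J, h.log_sm, h.log_fr0]
  linarith [h.L_ge, lc 4 (by norm_num), lc 1206 (by norm_num)]

lemma dz_le : 2 * (pq N * √(pJ N) * np N (11 / 10)) ≤ np N (23 / 10) ∧
    np N (6 / 5) ≤ np N (23 / 10) ∧ 6 * np N (23 / 10) ≤ (N : ℝ) ^ 3 ∧
    1000 * np N (23 / 10) ≤ (N : ℝ) ^ 4 := by
  have := h.q_pos; have := h.J_pos; have := h.np_pos (11 / 10); have := h.np_pos (23 / 10)
  have := h.N_pos
  refine ⟨le_of_log (by positivity) (by positivity) ?_, h.np_le (by norm_num),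
    le_of_log (by positivity) (by positivity) ?_, le_of_log (by positivity) (by positivity) ?_⟩ <;>
  simp (disch := positivity) only [Real.log_mul, Real.log_pow, h.log_np, h.log_q, h.log_sqrtJ,
    h.log_N] <;> push_cast <;>
  linarith [h.L_ge, h.J_ge, log2_bd.2, lc 6 (by norm_num), lc 1000 (by norm_num)]

lemma sJ_le : 100 * (1 / √(pJ N)) ≤ 1 := by
  have := h.sqrtJ_pos
  refine le_of_log (by positivity) one_pos ?_
  simp (disch := positivity) only [Real.log_mul, Real.log_div, Real.log_one, h.log_sqrtJ]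
  linarith [h.L_ge, lc 100 (by norm_num)]

lemma nu_le : 2 * nu N ≤ 1 / √(pJ N) := by
  have := h.sqrtJ_pos; have := h.nu_pos
  refine le_of_log (by positivity) (by positivity) ?_
  simp (disch := positivity) only [Real.log_mul, Real.log_div, Real.log_one, h.log_sqrtJ, h.log_nu]
  linarith [h.L_ge, h.J_ge, log2_bd.2]

lemma small_le : 10 * cg0 N ≤ 1 / (pq N ^ 2 * pR N) ∧ 10 * np N (-1 / 5) ≤ 1 / (pq N ^ 2 * pR N) ∧
    10 * (1 / (pq N ^ 2 * pR N)) ≤ 1 / (pq N * pR N) ∧ 10 * (1 / (pq N * pR N)) ≤ 1 / pR N ∧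
    10 * (1 / pq N ^ 2) ≤ 1 / pq N ∧ 1 / (pq N ^ 2 * pR N) ≤ 1 / pq N ^ 2 ∧ 100 * (1 / pq N) ≤ 1 := by
  have := h.q_pos; have := h.R_pos; have := h.cg0_pos; have := h.np_pos (-1 / 5)
  refine ⟨le_of_log (by positivity) (by positivity) ?_, le_of_log (by positivity) (by positivity) ?_,
    le_of_log (by positivity) (by positivity) ?_, le_of_log (by positivity) (by positivity) ?_,
    le_of_log (by positivity) (by positivity) ?_, le_of_log (by positivity) (by positivity) ?_,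
    le_of_log (by positivity) (by positivity) ?_⟩ <;>
  simp (disch := positivity) only [Real.log_mul, Real.log_div, Real.log_pow, Real.log_one,
    h.log_np, h.log_q, h.log_R, h.log_cg0] <;> push_cast <;>
  linarith [h.L_ge, h.J_ge, log2_bd.1, log2_bd.2, lc 10 (by norm_num), lc 100 (by norm_num)]

lemma un_le : 100 * BarrP.un N ≤ 1 := by
  have := BarrP.un_pos h
  refine le_of_log (by positivity) one_pos ?_
  simp (disch := positivity) only [Real.log_mul, Real.log_one, BarrP.log_un h]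
  linarith [h.L_ge, h.J_ge, lc 100 (by norm_num)]

end big

section par
variable {c : Pm} (h : Gd c)
include h

lemma zT_le : c.zT ≤ 1 / √c.J := by
  unfold Pm.zT
  split_ifs
  exacts [nu_le h.big, le_rfl]

lemma zT_le' : c.zT ≤ 1 / 100 := by
  have h1 := zT_le h
  have h2 : 100 * (1 / √c.J) ≤ 1 := sJ_le h.big
  linarith

/-- the late part of the table is small -/
lemma dE_le {a : ℝ} (ha : a ≤ qp c.N (1 / 5) * pJ c.N) (i j : Fin 3) :
    √(pq c.N) * a * c.sdL i j ≤ c.zT / 10 := by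
  obtain ⟨-, o2, o3, o4, o5⟩ := h.sdO_bd i j
  have := h.big.sqrtq_pos; have := h.big.qp_pos (1 / 5); have := h.big.J_pos
  have := h.big.sdc_pos; have := h.big.nu_pos; have := h.big.Jp_pos (-5 / 2)
  have := h.big.qp_pos (-15); have := h.big.sqrtJ_pos
  have e : √(pq c.N) * a ≤ √(pq c.N) * (qp c.N (1 / 5) * pJ c.N) := by gcongr
  unfold Pm.zT
  split_ifs with hη
  · have o6 := o4.trans (o3 (by linarith [h.big.etaS_pos]))
    refine (mul_le_mul e o6 o5 (by positivity)).trans (le_of_log (by positivity) (by positivity) ?_)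
    simp (disch := positivity) only [Real.log_mul, Real.log_div, h.big.log_qp, h.big.log_sqrtq,
      h.big.log_J, h.big.log_sdc, h.big.log_nu]
    linarith [h.big.L_ge, h.big.J_ge, lc 10 (by norm_num)]
  · refine (mul_le_mul e (o4.trans o2) o5 (by positivity)).trans
      (le_of_log (by positivity) (by unfold Pm.J; positivity) ?_)
    unfold Pm.J
    simp (disch := positivity) only [Real.log_mul, Real.log_div, Real.log_one, h.big.log_qp,
      h.big.log_sqrtq, h.big.log_J, h.big.log_Jp, h.big.log_sqrtJ]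
    linarith [h.big.L_ge, lc 10 (by norm_num), lc 3 (by norm_num)]

lemma row_le {a : ℝ} (ha : a ≤ 1206 * pJ c.N) : a * np c.N (-20) ≤ c.zT / 10 := by
  have := h.big.np_pos (-20); have := h.big.J_pos; have := h.big.nu_pos
  have h1 : 2 * nu c.N ≤ c.zT := by
    unfold Pm.zT
    split_ifs
    exacts [le_rfl, nu_le h.big]
  have h2 : 1206 * pJ c.N * np c.N (-20) ≤ 2 * nu c.N / 10 := by
    refine le_of_log (by positivity) (by positivity) ?_
    simp (disch := positivity) only [Real.log_mul, Real.log_div, h.big.log_np, h.big.log_J,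
      h.big.log_nu]
    linarith [h.big.L_ge, h.big.J_ge, lc 10 (by norm_num), lc 1206 (by norm_num), log2_bd.1]
  have h3 : a * np c.N (-20) ≤ 1206 * pJ c.N * np c.N (-20) := by gcongr
  linarith

lemma deep_of (hη : c.η < etaS c.N / 2) : c.η ≤ 7 * etaS c.N := by
  linarith [h.big.etaS_pos]

lemma sdO_eq (hη : c.η < etaS c.N / 2) : c.sdO = c.sdB := by
  have hB := (h.deep_flags (deep_of h hη)).2.1
  have h1 : ¬(3 / 2 * etaS c.N ≤ c.η ∧ kbo c.N ≤ c.k) := fun e => by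
    linarith [e.1, h.big.etaS_pos]
  rw [Pm.sdO, if_pos hB, if_neg h1]
  ext i j
  fin_cases i <;> fin_cases j <;> simp [Pm.b23]

lemma nz_le (i j : Fin 3) : 16 * c.nz i j ≤ c.q ^ 3 * c.J * c.sdB i j := by
  have hq := h.q_pos; have hJ := h.J_pos; have := h.dB_pos; have := h.t1B_pos
  have hq2 : 16 ≤ c.q ^ 2 := by
    have : 10000000 ≤ c.q := h.big.q_ge
    nlinarith
  have h0 := (h.sdB_bd i j).1
  have h1 : 16 * (c.p / c.q ^ 3) ≤ c.q ^ 3 * c.J * c.dB := by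
    have e : c.pf / c.q ^ 3 = c.q * c.J * c.dB := by unfold Pm.pf; field_simp
    have h2 : c.p / c.q ^ 3 ≤ c.pf / c.q ^ 3 := by gcongr; exact h.p_le_pf
    have h3 := mul_le_mul_of_nonneg_right hq2 (show 0 ≤ c.q * c.J * c.dB by positivity)
    nlinarith
  have h2 : 16 * (c.q * c.J * c.t1B) ≤ c.q ^ 3 * c.J * c.t1B := by
    have h3 := mul_le_mul_of_nonneg_right hq2 (show 0 ≤ c.q * c.J * c.t1B by positivity)
    nlinarith
  have h4 : 0 ≤ c.q ^ 3 * c.J * c.sdB i j := by positivity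
  fin_cases i <;> fin_cases j <;> simp only [Pm.nz] <;>
    first
    | simpa [Pm.sdB] using h1
    | simpa [Pm.sdB] using h2
    | simpa using h4

lemma hL2_bd : c.hL2 ≤ hc c.N ∧ (c.oB → c.hL2 ≤ c.pi1) := by
  have h1 := h.B1_le
  have h2 := h.sηp_le
  have h3 : 1000 * √(c.J / c.N) ≤ c.J ^ 2 / √c.N := h.big.sqrtJN_le
  have h4 : hc c.N = 3 * (c.J ^ 2 / √c.N) := h.big.hc_eq
  have h5 := h.B1_pos
  have h6 := h.sηp_pos
  unfold Pm.hL2 Pm.pi1
  split_ifs with hB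
  · exact ⟨by linarith, fun _ => by linarith⟩
  · exact ⟨le_rfl, fun e => absurd e hB⟩

lemma cg0_gb : cg0 c.N ≤ 2 * c.gb := by
  have h1 := h.gb_ge
  have := h.big.Jp_pos (3 / 2); have := h.N_pos
  have h2 : cg0 c.N ≤ Jp c.N (3 / 2) / c.N := by
    refine le_of_log h.big.cg0_pos (by positivity) ?_
    simp (disch := positivity) only [Real.log_div, h.big.log_Jp, h.big.log_N, h.big.log_cg0]
    linarith [h.big.L_ge]
  linarith [h.gb_pos]

lemma cg0_η : 10 * (cg0 c.N / c.η) ≤ 1 / (c.q ^ 2 * pR c.N) := by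
  have := h.q_pos; have := h.big.R_pos; have := h.big.cg0_pos; have := h.η_pos
  refine le_of_log (by positivity) (by positivity) ?_
  simp (disch := positivity) only [Real.log_mul, Real.log_div, Real.log_pow, Real.log_one,
    h.log_q, h.big.log_R, h.big.log_cg0]
  push_cast
  linarith [h.big.L_ge, h.log_η_ge, log2_bd.2, lc 10 (by norm_num)]

lemma nu_η (hη : etaS c.N / 2 ≤ c.η) : 5 * nu c.N ≤ √c.η * c.K / c.q ^ 2 := by
  have := h.q_pos; have := h.big.nu_pos; have := h.η_pos; have := h.K_pos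
  have h1 := h.log_etaS_le (a := 1 / 2) (by norm_num) (by linarith)
  refine le_of_log (by positivity) (by positivity) ?_
  simp (disch := positivity) only [Real.log_mul, Real.log_div, Real.log_pow, Real.log_sqrt,
    h.log_q, h.big.log_nu]
  push_cast
  linarith [h.big.L_ge, h.big.J_ge, h.log_K_bd.1, lc 5 (by norm_num)]

/-- the new parameters are admissible -/
lemma ok_new {G : Mx} (hb : Bar c.N G) (hV : |c.VG - Vf c.N G| ≤ 1 / c.q)
    (ht : |c.t - tt c.N G| ≤ 1 / (c.q * pR c.N)) {F : Fr} {lb : ℝ} (hl : 0 < lb) (h1 : 0 < F.s1)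
    (h2 : F.s1 ≤ F.s2) (l1 : |Real.log (F.s1 / c.s1)| ≤ 1 / (c.q ^ 2 * pR c.N))
    (l2 : |Real.log (F.s2 / c.s2)| ≤ 1 / (c.q ^ 2 * pR c.N)) : (F.pm (nxt c.N) lb 0).Ok := by
  have hN := h.big
  have hN' := hN.mono hN.nxt_le.1
  have h3 : 0 < F.s2 := h1.trans_le h2
  rw [Real.log_div h1.ne' h.s1_pos.ne', abs_le] at l1
  rw [Real.log_div h3.ne' h.s2_pos.ne', abs_le] at l2
  obtain ⟨-, -, a3, a4, a5, a6, a7⟩ := small_le hN
  obtain ⟨b1, b2, b3⟩ := hb
  obtain ⟨d1, d2⟩ := BarrP.dJ_bd hN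
  have d3 := BarrP.un_pos hN
  have d4 := un_le hN
  have d5 := (BarrP.dL_bd hN).1
  have m0 := mul_nonneg hN.lam0_pos.le (le_max_right (tt c.N G) 0)
  have m1 := mul_nonneg hN.lam1_pos.le (le_max_right (tt c.N G) 0)
  obtain ⟨C, -, hP⟩ := psi
  obtain ⟨-, -, -, -, -, -, p7, -⟩ := hP (pR c.N) hN.R_ge
  obtain ⟨p1, p2⟩ := p7 c.t
  have p3 : max c.t 0 ≤ 1 / 4 := max_le h.t_le (by norm_num)
  have e1 : c.VG = Real.log c.s1 + Real.log c.s2 + Psi (pR c.N) c.t := by rw [Pm.VG, h.log_n12]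
  have e2 : Real.log (F.s1 * F.s2) = Real.log F.s1 + Real.log F.s2 := Real.log_mul h1.ne' h3.ne'
  have e3 : Real.log c.N = pJ c.N := rfl
  have eq : pq c.N = c.q := rfl
  have hq := h.q_pos
  have hq1 : 0 < 1 / c.q ^ 2 := by positivity
  rw [eq] at a3 a4 a5 a6 a7
  rw [abs_le] at hV ht
  have hN0 := hN'.N_pos
  refine ⟨h1, h2, le_of_log (by positivity) (mul_pos h1 h3) ?_,
    le_of_log (mul_pos h1 h3) (by positivity) ?_, ?_, hl, Nat.zero_le _⟩
  · show Real.log (Real.exp (-4) * (nxt c.N : ℝ)) ≤ Real.log (F.s1 * F.s2)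
    rw [Real.log_mul (Real.exp_pos _).ne' hN0.ne', Real.log_exp, hN'.log_N, e2]
    linarith [l1.1, l2.1, hV.1]
  · show Real.log (F.s1 * F.s2) ≤ Real.log (Real.exp 2 * (nxt c.N : ℝ))
    rw [Real.log_mul (Real.exp_pos _).ne' hN0.ne', Real.log_exp, hN'.log_N, e2]
    linarith [l1.2, l2.2, hV.2]
  · show Real.log (F.s2 / F.s1) - pk0 (nxt c.N) ≤ tE (nxt c.N) + 3 / pR (nxt c.N)
    have t1 := BarrP.tE_nxt hN
    have t2 : 1 / pR c.N ≤ 2 / pR (nxt c.N) := by
      rw [div_le_div_iff₀ hN.R_pos hN'.R_pos]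
      have := BarrP.J_big hN
      unfold pR; linarith
    have t3 : 3 / pR (nxt c.N) = 1 / pR (nxt c.N) + 2 / pR (nxt c.N) := by ring
    have t4 := h.t_eq
    have t5 : 0 < 1 / (c.q ^ 2 * pR c.N) := by have := hN.R_pos; positivity
    rw [h.log_K] at t4
    rw [Real.log_div h3.ne' h1.ne', hN'.k0_eq]
    linarith [l1.1, l2.2, ht.2]

end par

end TfbP

end
end Pool.Agent.MP_20bec2_an.T3

end MrgPart0

-- ======== part 1: formerly Pool.Agent.MP_20bec2_an.T3.Pred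
section MrgPart1

/-! Row PRED: steering charts exist. -/

set_option autoImplicit false
open MeasureTheory Set Filter Matrix Topology

namespace Pool.Agent.MP_20bec2_an.T3
noncomputable section
open Classical

namespace PredP

/-- the last diagonal entry from the determinant -/
lemma t22 {h : V} (hh : ∀ i, 0 < h i) {T : Mx} {s : ℝ} (hs : s ≤ 1 / 1000)
    (H : ∀ a b, ¬ (a = 2 ∧ b = 2) → |(T - 1) a b| * h b ≤ s * h a) (hd : |T.det - 1| ≤ 3 / 100) :
    |T 2 2 - 1| ≤ 1 / 10 := by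
  obtain ⟨u, hu⟩ : ∃ u : Mx, ∀ a b, u a b = (T - 1) a b * h b / h a :=
    ⟨Matrix.of fun a b => (T - 1) a b * h b / h a, fun _ _ => rfl⟩
  have b : ∀ a b, ¬ (a = 2 ∧ b = 2) → |u a b| ≤ 1 / 1000 := fun a b hab => by
    rw [hu, abs_div, abs_mul, abs_of_pos (hh a), abs_of_pos (hh b), div_le_iff₀ (hh a)]
    exact (H a b hab).trans (mul_le_mul_of_nonneg_right hs (hh a).le)
  have e : T.det = T 2 2 * (1 + (u 0 0 + u 1 1 + u 0 0 * u 1 1 - u 0 1 * u 1 0)) +
      (u 0 1 * u 1 2 * u 2 0 + u 0 2 * u 1 0 * u 2 1 - u 1 2 * u 2 1 - u 0 0 * u 1 2 * u 2 1 -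
        u 0 2 * u 2 0 - u 1 1 * u 0 2 * u 2 0) := by
    have h0 := (hh 0).ne'
    have h1 := (hh 1).ne'
    have h2 := (hh 2).ne'
    simp only [hu, det_fin_three, Matrix.sub_apply, Matrix.one_apply]
    simp
    field_simp
    ring
  have m2 : ∀ {x y : ℝ}, |x| ≤ 1 / 1000 → |y| ≤ 1 / 1000 → |x * y| ≤ 1 / 1000 := fun hx hy => by
    rw [abs_mul]
    exact (mul_le_mul hx hy (abs_nonneg _) (by norm_num)).trans (by norm_num)
  have a00 := b 0 0 (by simp)
  have a01 := b 0 1 (by simp)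
  have a02 := b 0 2 (by simp)
  have a10 := b 1 0 (by simp)
  have a11 := b 1 1 (by simp)
  have a12 := b 1 2 (by simp)
  have a20 := b 2 0 (by simp)
  have a21 := b 2 1 (by simp)
  have c1 := abs_le.1 (m2 a00 a11)
  have c2 := abs_le.1 (m2 a01 a10)
  have c3 := abs_le.1 (m2 (m2 a01 a12) a20)
  have c4 := abs_le.1 (m2 (m2 a02 a10) a21)
  have c5 := abs_le.1 (m2 a12 a21)
  have c6 := abs_le.1 (m2 (m2 a00 a12) a21)
  have c7 := abs_le.1 (m2 a02 a20)
  have c8 := abs_le.1 (m2 (m2 a11 a02) a20)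
  obtain ⟨d1, d2⟩ := abs_le.1 hd
  obtain ⟨p1, p2⟩ := abs_le.1 a00
  obtain ⟨p3, p4⟩ := abs_le.1 a11
  rw [e] at d1 d2
  generalize hm : u 0 0 + u 1 1 + u 0 0 * u 1 1 - u 0 1 * u 1 0 = m at d1 d2
  have m1 : -(1 / 250) ≤ m ∧ m ≤ 1 / 250 := by constructor <;> linarith [c1.1, c1.2, c2.1, c2.2]
  have n1 : 9 / 10 * (1 + m) ≤ T 2 2 * (1 + m) := by
    linarith [c3.2, c4.2, c5.1, c6.1, c7.1, c8.1, m1.2]
  have n2 : T 2 2 * (1 + m) ≤ 11 / 10 * (1 + m) := by
    linarith [c3.1, c4.1, c5.2, c6.2, c7.2, c8.2, m1.1]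
  have := le_of_mul_le_mul_right n1 (by linarith [m1.1])
  have := le_of_mul_le_mul_right n2 (by linarith [m1.1])
  exact abs_le.2 ⟨by linarith, by linarith⟩

/-- a Lipschitz bound after a map whose scaled differential is close to the identity -/
lemma lipc {h : V} (hh : ∀ i, 0 < h i) {U : Set V} (cU : Convex ℝ U) {τ : V → V}
    (dτ : Differentiable ℝ τ) {s A X : ℝ} (s1 : s ≤ 1 / 1000) (hA : 0 ≤ A)
    (hX : A ≤ X) (hXs : X * s ≤ A / 2) (hT : ∀ z ∈ U, Fc.NB h (jm τ z - 1) s (1 / 10)) {z z' : V}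
    (hz : z ∈ U) (hz' : z' ∈ U) :
    A * (|τ z 0 - τ z' 0| / h 0 + |τ z 1 - τ z' 1| / h 1) + X * |τ z 2 - τ z' 2| / h 2 ≤
      2 * A * (|z 0 - z' 0| / h 0 + |z 1 - z' 1| / h 1) + 2 * X * |z 2 - z' 2| / h 2 := by
  have k : ∀ a, |τ z a - τ z' a| / h a ≤
      |z a - z' a| / h a + ∑ m, Fc.E s (1 / 10) a m * (|z m - z' m| / h m) := fun a => by
    have e := mvt_jm cU (fun y _ => dτ y) (A := 1)
      (E := Matrix.of fun a m => Fc.E s (1 / 10) a m * h a / h m)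
      (fun y hy a m => (le_div_iff₀ (hh m)).2 (hT y hy a m)) hz hz' a
    have e' := abs_add_le (z a - z' a) ((τ z - τ z' - (1 : Mx) *ᵥ (z - z')) a)
    rw [show z a - z' a + (τ z - τ z' - (1 : Mx) *ᵥ (z - z')) a = τ z a - τ z' a by simp] at e'
    rw [div_le_iff₀ (hh a), add_mul, div_mul_cancel₀ _ (hh a).ne', Finset.sum_mul]
    refine e'.trans (add_le_add le_rfl (e.trans_eq (Finset.sum_congr rfl fun m _ => ?_)))
    rw [Matrix.of_apply]
    ring
  have k0 := k 0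
  have k1 := k 1
  have k2 := k 2
  simp [Fc.E, Fin.sum_univ_three] at k0 k1 k2
  rw [mul_div_assoc, mul_div_assoc]
  have d0 := div_nonneg (abs_nonneg (z 0 - z' 0)) (hh 0).le
  have d1 := div_nonneg (abs_nonneg (z 1 - z' 1)) (hh 1).le
  have d2 := div_nonneg (abs_nonneg (z 2 - z' 2)) (hh 2).le
  generalize |z 0 - z' 0| / h 0 = x0 at *
  generalize |z 1 - z' 1| / h 1 = x1 at *
  generalize |z 2 - z' 2| / h 2 = x2 at *
  have a1 := mul_le_mul_of_nonneg_left (add_le_add k0 k1) hA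
  have a2 := mul_le_mul_of_nonneg_left k2 (hA.trans hX)
  have a3 := mul_le_mul_of_nonneg_right hXs (add_nonneg d0 d1)
  have a4 := mul_le_mul_of_nonneg_left s1 (mul_nonneg hA (add_nonneg d0 d1))
  have a5 := mul_le_mul_of_nonneg_left s1 (mul_nonneg hA d2)
  have a6 := mul_le_mul_of_nonneg_right hX d2
  have a7 := mul_nonneg hA d2
  have a8 := mul_nonneg hA (add_nonneg d0 d1)
  nlinarith

lemma par {N : ℕ} (h : Big N) : (∀ n : ℕ, n ≤ 9 * el N + 8 →
      n * np N (-9 / 200) * (1 + 1 / 10 ^ 5) ^ n ≤ np N (-1 / 25)) ∧ np N (-1 / 25) ≤ 1 / 1000 ∧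
    Xj N 0 2 * np N (-1 / 25) ≤ 1 / (2 * pJ N ^ 24 * √N) / 2 ∧
    1 / (2 * pJ N ^ 24 * √N) ≤ Xj N 0 2 ∧
    2 * Xj N 0 2 ≤ 2 ^ el N * (1 / (2 * pJ N ^ 24 * √N)) ∧ np N (23 / 10) ≤ (N : ℝ) ^ 3 := by
  have := h.J_pos; have := h.sqrtN_pos; have := h.np_pos (-1 / 25)
  have a1 := h.J_ge
  have a2 := h.L_ge
  obtain ⟨a3, a4⟩ := log2_bd
  obtain ⟨a5, a6⟩ := h.el_bd
  have a7 := (logc_bd (show (1 : ℝ) ≤ 1000 by norm_num)).2
  have a8 := mul_le_mul a5 a3 (by norm_num) (Nat.cast_nonneg _)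
  rw [show Xj N 0 2 = pJ N ^ 3 / √N from rfl]
  refine ⟨fun n hn => ?_, ?_, ?_, ?_, ?_, (h.np_le (by norm_num)).trans_eq (np_nat N 3)⟩
  · have b1 : (n : ℝ) ≤ 9 * el N + 8 := by exact_mod_cast hn
    have b2 : (n : ℝ) ≤ Real.exp n := by linarith [Real.add_one_le_exp (n : ℝ)]
    have b3 : (1 + 1 / 10 ^ 5 : ℝ) ^ n ≤ Real.exp n := by
      rw [← Real.exp_one_pow]
      exact pow_le_pow_left₀ (by norm_num) (by linarith [Real.add_one_le_exp (1 : ℝ)]) n
    refine (mul_le_mul (mul_le_mul_of_nonneg_right b2 (h.np_pos _).le) b3 (by positivity)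
      (mul_pos (Real.exp_pos _) (h.np_pos _)).le).trans ?_
    rw [h.np_eq, h.np_eq, ← Real.exp_add, ← Real.exp_add]
    exact Real.exp_le_exp.2 (by linarith)
  all_goals
    refine le_of_log (by positivity) (by positivity) ?_
    simp (disch := positivity) only [Real.log_div, Real.log_mul, Real.log_pow, Real.log_one,
      h.log_np, h.log_J, h.log_sqrtN]
    push_cast
    linarith

lemma hs_pow (B : Bk) (g : Cu) {j n k : ℕ} (hk : j + n = k) (i : Fin 3) :
    (B.c g j).hs i = 2 ^ n * (B.c g k).hs i := by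
  have e : (B.c g j).lam = 2 ^ n * (B.c g k).lam := by
    simp only [Pm.lam, Bk.c, Fr.pm, ← hk, pow_add]
    field_simp
  fin_cases i
  · change (B.c g 0).ro * _ = _ * ((B.c g 0).ro * _)
    rw [e]
    ring
  · exact e
  · change np B.N (11 / 10) * _ = _ * (np B.N (11 / 10) * _)
    rw [e]
    ring

lemma dif_fh {F : Fr} (hQ : 0 < F.Q.det) {f : V → V} (h : Dif f) : Dif (F.fh f) :=
  ⟨h.1.comp (Prof.zp_sm F), h.2.1.comp (Prof.zp_bij hQ.ne'), fun z => by
    rw [(K3.p4 F h.1.dif z).2]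
    exact mul_pos hQ (h.2.2 _)⟩

lemma sm_gam (c : Pm) {f : V → V} (h : Dif f) : SmM (c.gam f) :=
  have k : SmM (c.ca f) := h.1.jm.mul (smM_dg3 (sm_const _) (sm_const _)
    (ContDiff.div (sm_const _) h.1.jac fun z => (h.2.2 z).ne'))
  k.transpose.mul k

lemma fh_oh (B : Bk) {g : Cu} (hQ : (B.fr g).Q.det ≠ 0) {f : V → V} (hf : Function.Bijective f)
    (x : V) : (B.fr g).fh f (B.oh g f x) = B.f0 (B.Z0 x) := by
  rw [Fr.fh, Bk.oh, Prof.zp_zc hQ]
  exact Function.rightInverse_invFun hf.2 _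

end PredP

open PredP in
theorem pred (hL : LabStmt) (hM : MbiStmt) : PredStmt := by
  filter_upwards [hL, hM, chart, surj, ev_big] with N hL hM hC hS hb B e ρ k r s ⟨hρ, ok, hk, I⟩
    r1 r8
  subst e
  have G := ok.geo
  have ej : jac s.f = dens ρ (B.Z s) s.Sg := funext I.iF.smf.2.2
  have mb := (hM B rfl ρ k r s hρ ok.toOk0 hk r1 (by omega) ⟨I.il, I.iz, I.ip, I.is, I.iq⟩ I.ir).1
  rw [← ej] at mb
  obtain ⟨⟨df, L⟩, L'⟩ := hL B rfl ρ k r s ok.toOk0 hk (by omega) I.il I.ip.psh I.iF mb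
  obtain ⟨p1, p2, p3, p4, p5, p6⟩ := par hb
  have hj : k - el B.N ≤ k := Nat.sub_le _ _
  obtain ⟨-, dj, Lj⟩ := L' _ hj
  have b0 : Function.Bijective B.f0 := I.iF.fk.1 ▸ (I.iF.sn 0 (Nat.zero_le _)).2.1
  have p7 := mul_le_mul_of_nonneg_right p6 (GeoP.lb_pos G.toFrOk).le
  have S1 := hS B rfl _ G b0 df.2.1 fun g x hx => (L g x hx).1.trans p7
  have S2 := hS B rfl _ G b0 dj.2.1 fun g x hx => (Lj g x hx).1.trans p7
  refine (Classical.skolem (p := fun g (n : Cu → ℝ → V) => (B.c g k).ChB n ∧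
    ∀ x ∈ B.bx g (99 / 100), ∀ i, B.NS i x → B.oh g s.f x ∈ B.R g (96 / 100) →
      (B.c g k).PiF n ((B.fr g).fh s.f) (B.oh g s.f x)
        (if (B.c g 0).steer then B.piS g s.xs k r i else (B.c g 0).pi1))).1 fun g => ?_
  have h := Bk.gd G.toFrOk hb g hk.le
  have h0 := Bk.gd0 G.toFrOk hb g
  have hD : 0 < B.D := h.D_pos
  have bm1 : ∀ {a : ℝ} {x : V}, a ≤ 1 → x ∈ B.bx g a → x ∈ B.bx g 1 := fun ha hx =>
    Prof.box_mono hD.le ha g hx
  have hX : 0 < Xj B.N 0 2 := div_pos (pow_pos hb.J_pos 3) hb.sqrtN_pos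
  by_cases hs : (B.c g 0).steer
  swap
  · have := h.y_pos; have := h.q_pos; have := hb.hc_pos; have := hb.np_pos (-19 / 10)
    have := hb.np_pos (-3 / 100)
    refine ⟨0, ⟨.inr rfl, fun _ => ⟨contDiff_const, fun i _ t => ?_⟩⟩,
      fun x hx _ _ _ g' _ i hi => ?_⟩
    · have := h.cw_pos i
      simp only [Pi.zero_apply, deriv_const', iteratedDeriv_fun_const_zero, abs_zero, mul_zero,
        zero_mul, zero_div]
      exact ⟨fun _ => by positivity, by positivity, by positivity, by positivity, by positivity⟩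
    · simp only [Pi.zero_apply, deriv_const', mul_zero, zero_mul, zero_div, add_zero, if_neg hs]
      exact ((L g x (bm1 (by norm_num) hx)).2.2.1 i hi).2 (h0.oB_of_oS (h0.oS_of_notsteer hs))
  have np' := Bk.not_pushN_of_steer G.toFrOk hb hs
  have nc : ¬B.crs g (k - el B.N) k r := fun c => np' c.2.2
  have hQ := GeoP.det_pos G.toFrOk g
  have dφ := dif_fh hQ df
  have dψ := dif_fh hQ dj
  have iψ := Inv.sm_inv dψ.1 dψ.2.1 fun z => (dψ.2.2 z).ne'
  obtain ⟨τ, hτ⟩ : ∃ τ : V → V, τ = fun z =>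
    Function.invFun ((B.fr g).fh (s.ft (k - el B.N))) ((B.fr g).fh s.f z) := ⟨_, rfl⟩
  have t1 : ∀ x, τ (B.oh g s.f x) = B.oh g (s.ft (k - el B.N)) x := fun x => by
    rw [hτ]
    simp only []
    rw [fh_oh B hQ.ne' df.2.1, ← fh_oh B hQ.ne' dj.2.1]
    exact Function.leftInverse_invFun dψ.2.1.1 _
  have t2 : ∀ x, jm τ (B.oh g s.f x) = Th ((B.fr g).fh (s.ft (k - el B.N))) ((B.fr g).fh s.f)
      (B.oh g (s.ft (k - el B.N)) x) (B.oh g s.f x) := fun x => by
    rw [hτ, jm_comp (iψ.dif _) (dφ.1.dif _), fh_oh B hQ.ne' df.2.1, ← fh_oh B hQ.ne' dj.2.1,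
      Inv.jm_inv dψ.1 dψ.2.1 fun z => (dψ.2.2 z).ne', Th]
  have lab : ∀ z ∈ B.R g (97 / 100), ∃ x ∈ B.bx g 1, B.oh g s.f x = z ∧
      B.oh g (s.ft (k - el B.N)) x ∈ B.R g (98 / 100) := fun z hz => by
    obtain ⟨x, rfl⟩ := (S1 g).1.2 z
    have a := ((S1 g).2 x _ (by norm_num) (by norm_num)).2 hz
    exact ⟨x, bm1 (by norm_num) a, rfl, Prof.RX_mono _ hD.le (by norm_num)
      (((S2 g).2 x _ (by norm_num) (by norm_num)).1 a).1⟩
  have hn : cnt k r - 9 * (k - el B.N) ≤ 9 * el B.N + 8 := by unfold cnt; omega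
  have hT : ∀ z ∈ B.R g (97 / 100), Fc.NB (B.c g k).hs (jm τ z - 1) (np B.N (-1 / 25)) (1 / 10) :=
    fun z hz => by
    obtain ⟨x, hx, rfl, -⟩ := lab z hz
    have a : ∀ a b, ¬ (a = 2 ∧ b = 2) → |(jm τ (B.oh g s.f x) - 1) a b| * (B.c g k).hs b ≤
        np B.N (-1 / 25) * (B.c g k).hs a := fun a b hab => by
      have a1 := (I.iF.ig.th _ hj g nc x hx a b hab).trans
        (mul_le_mul_of_nonneg_right (p1 _ hn) (h0.hs_pos a).le)
      rw [hs_pow B g (zero_add k), hs_pow B g (zero_add k), ← t2, mul_left_comm,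
        mul_left_comm (np _ _)] at a1
      exact le_of_mul_le_mul_left a1 (by positivity)
    refine Fc.nb_of (fun i => (h.hs_pos i).le) a (t22 h.hs_pos p2 a ?_)
    obtain ⟨a1, a2⟩ := abs_le.1 (L g x hx).2.2.2.2.2.2.1
    obtain ⟨a3, a4⟩ := abs_le.1 (Lj g x hx).2.1
    rw [t2, Th, det_mul, det_nonsing_inv, Ring.inverse_eq_inv, inv_mul_eq_div]
    change |jac _ _ / jac _ _ - 1| ≤ _
    rw [abs_le, le_sub_iff_add_le, sub_le_iff_le_add, le_div_iff₀ (dψ.2.2 _), div_le_iff₀ (dψ.2.2 _)]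
    constructor <;> linarith
  obtain ⟨Γ, g1, g2⟩ : ∃ Γ : V → V, (∀ x ∈ B.bx g 1, B.oh g (s.ft (k - el B.N)) x ∈
      B.R g (98 / 100) → ∀ i, i ≠ 2 → |Γ (B.oh g (s.ft (k - el B.N)) x) i| ≤ hc B.N ∧
        |B.ga g (s.ft (k - el B.N)) x i 2 - Γ (B.oh g (s.ft (k - el B.N)) x) i| ≤
          if k < el B.N then fr0 B.N else 0) ∧
      ∀ w ∈ B.R g (98 / 100), ∀ w' ∈ B.R g (98 / 100), ∀ i, i ≠ 2 → |Γ w i - Γ w' i| ≤
        1 / (2 * pJ B.N ^ 24 * √B.N) * (|w 0 - w' 0| / (B.c g k).hs 0 +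
          |w 1 - w' 1| / (B.c g k).hs 1) + Xj B.N 0 2 * |w 2 - w' 2| / (B.c g k).hs 2 := by
    have hA : 0 < 1 / (2 * pJ B.N ^ 24 * √B.N) := by
      have := hb.J_pos; have := hb.sqrtN_pos; positivity
    by_cases hk' : k < el B.N
    · obtain ⟨-, hp⟩ := ok.hp g hs
      have a2 : ∀ i (t : ℝ), |t| / (B.c g 0).hs i ≤ |t| / (B.c g k).hs i := fun i t =>
        div_le_div_of_nonneg_left (abs_nonneg _) (h.hs_pos i) ((le_mul_of_one_le_left
          (h.hs_pos i).le (one_le_pow₀ one_le_two)).trans_eq (hs_pow B g (zero_add k) i).symm)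
      rw [if_pos hk', Nat.sub_eq_zero_of_le hk'.le, I.iF.fk.1]
      refine ⟨B.Hp0 g, fun x hx hw i hi => ?_, fun w hw w' hw' i hi =>
        ((hp w hw i hi).2 w' hw').trans ?_⟩
      · have a := (hp _ hw i hi).1
        have b : |B.ga g B.f0 x i 2| ≤ (B.c g 0).B1 := by
          have := ok.g0 g x hx i 2
          fin_cases i
          · simpa [Pm.gref, dg3, bm] using this
          · simpa [Pm.gref, dg3, bm] using this
          · exact (hi rfl).elim
        refine ⟨?_, a⟩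
        have c := abs_sub_abs_le_abs_sub (B.Hp0 g (B.oh g B.f0 x) i) (B.ga g B.f0 x i 2)
        rw [abs_sub_comm] at c
        have c1 : 2 * (B.c g 0).B1 ≤ hc B.N := h0.B1_le_hc
        have c2 : fr0 B.N ≤ (B.c g 0).B1 := h0.B1_ge.1
        linarith [c.trans a]
      · rw [mul_div_assoc, mul_div_assoc]
        exact add_le_add (mul_le_mul_of_nonneg_left (add_le_add (a2 0 _) (a2 1 _)) hA.le)
          (mul_le_mul_of_nonneg_left (a2 2 _) hX.le)
    · refine ⟨fun w i => (B.c g 0).gam ((B.fr g).fh (s.ft (k - el B.N))) w i 2,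
        fun x hx _ i hi => ⟨(Lj g x hx).2.2 np' i hi, by rw [if_neg hk', Bk.ga, sub_self, abs_zero]⟩,
        fun w hw w' hw' i hi => ?_⟩
      refine (CV.mvt (n := 1) (B := 1 / (2 * pJ B.N ^ 24 * √B.N)) h.hs_pos (Prof.RX_convex _ _ _)
        (sm_gam _ dψ i 2) (cv_one_iff.2 fun m z hz => ?_) le_rfl hw hw').trans ?_
      · obtain ⟨x, rfl⟩ := (S2 g).1.2 z
        have a := (I.iF.ig.di g x (bm1 (by norm_num)
          (((S2 g).2 x _ (by norm_num) (by norm_num)).2 hz))).2 _ hj i 2 m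
        have a2 : B.dd g (k - el B.N) ≤ 2 := by
          have b1 : (6 / 10 : ℝ) ^ (k - el B.N) ≤ 1 := pow_le_one₀ (by norm_num) (by norm_num)
          have b2 : 1 / √(pq B.N) ≤ 1 :=
            (div_le_one hb.sqrtq_pos).2 (Real.one_le_sqrt.2 (by linarith [hb.q_ge]))
          rw [Bk.dd, if_neg fun c => np' c.1]
          linarith
        have a3 : Xj (B.c g (k - el B.N)).N i 2 = Xj B.N 0 2 := by
          fin_cases i
          exacts [rfl, rfl, (hi rfl).elim]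
        rw [a3, hs_pow B g (Nat.sub_add_cancel (not_lt.1 hk')), mul_assoc] at a
        exact le_of_mul_le_mul_left ((a.trans (mul_le_mul_of_nonneg_right a2 hX.le)).trans p5)
          (by positivity)
      · rw [Fin.sum_univ_three, mul_add, mul_div_assoc]
        exact add_le_add le_rfl (mul_le_mul_of_nonneg_right p4
          (div_nonneg (abs_nonneg _) (h.hs_pos 2).le))
  have hA : 0 < 1 / (2 * pJ B.N ^ 24 * √B.N) := by
    have := hb.J_pos; have := hb.sqrtN_pos; positivity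
  have mb' : (B.c g k).MB (3 * eps0) 2 (jac ((B.fr g).fh s.f)) (B.R g (97 / 100)) := by
    obtain ⟨m1, m2, m3⟩ := mb g
    have su : B.R g (97 / 100) ⊆ B.R g (98 / 100) := Prof.RX_mono _ hD.le (by norm_num)
    have : (0 : ℝ) < eps0 := by unfold eps0; norm_num
    rw [funext (fun z => (K3.p4 (B.fr g) df.1.dif z).2)]
    exact ⟨fun z hz => (m1 z (su hz)).trans (by linarith),
      (CBl.monoU m2 su).monoB (by linarith [h.q_pos]),
      (CBl.monoU m3 su).monoB (by linarith [h.big.np_pos (-26 / 100)])⟩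
  obtain ⟨ch, c1, c2⟩ := hC (B.c g k) rfl h.ok (B.fr g).O _ (fun z => Γ (τ z))
    (GeoP.orth G.toFrOk g) hs dφ.1.jac mb' fun z hz i hi => by
      obtain ⟨x, hx, rfl, hw⟩ := lab z hz
      refine ⟨by rw [t1]; exact (g1 x hx hw i hi).1, fun z' hz' => ?_⟩
      obtain ⟨x', -, rfl, hw'⟩ := lab z' hz'
      rw [← t1] at hw hw'
      refine ((g2 _ hw _ hw' i hi).trans (lipc h.hs_pos (Prof.RX_convex _ _ _)
        (hτ ▸ iψ.dif.comp dφ.1.dif) p2 hA.le p4 p3 hT hz hz')).trans_eq ?_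
      rw [show 2 * (1 / (2 * pJ B.N ^ 24 * √B.N)) = 1 / (pJ B.N ^ 24 * √B.N) by ring]
      rfl
  refine ⟨ch, c1, fun x hx i0 hi0 hz g' hg' i hi => ?_⟩
  have hx1 := bm1 (by norm_num) hx
  obtain ⟨x', -, e, hw⟩ := lab _ (Prof.RX_mono _ hD.le (by norm_num) hz)
  obtain rfl : x' = x := (S1 g).1.1 e
  have a1 := c2 _ hz g' hg' i hi
  have a2 := (g1 x' hx1 hw i hi).2
  have a3 := I.iF.ig.rel _ hj g x' hx1 i0 hi0 i 2
  have a4 : ((cnt k r - 9 * (k - el B.N) : ℕ) : ℝ) ≤ 9 * el B.N + 8 := by exact_mod_cast hn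
  have a5 := mul_le_mul_of_nonneg_right a4 hb.sm_pos.le
  have a6 : ∀ a b c : ℝ, bm a b c i 2 = b := fun a b c => by
    fin_cases i
    exacts [rfl, rfl, (hi rfl).elim]
  have a7 := mul_nonneg (Nat.cast_nonneg (α := ℝ) (el B.N)) hb.sm_pos.le
  rw [if_neg nc, if_neg nc, sub_zero, add_zero, a6, Matrix.sub_apply] at a3
  simp only [t1] at a1
  rw [if_pos hs, Bk.piS]
  change |B.ga g s.f x' i 2 + _| ≤ _
  change _ ≤ sm B.N / 2 at a1
  obtain ⟨b1, b2⟩ := abs_le.1 a1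
  obtain ⟨b3, b4⟩ := abs_le.1 a2
  obtain ⟨b5, b6⟩ := abs_le.1 a3
  exact abs_le.2 ⟨by linarith [hb.sm_pos], by linarith [hb.sm_pos]⟩

end
end Pool.Agent.MP_20bec2_an.T3

end MrgPart1

-- ======== part 2: formerly Pool.Agent.MP_20bec2_an.T3.Neto
section MrgPart2

-- ======== part 0: formerly Pool.Agent.MP_20bec2_an.T3.Net
section MrgPart0

/-! Finite nets of bounded sets. -/

set_option autoImplicit false
open MeasureTheory Set Filter Matrix

namespace Pool.Agent.MP_20bec2_an.T3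
noncomputable section
open Classical

theorem net : NetStmt := by
  intro K r δ hδ hr hK
  let φ : V → Cu := fun x i => ⌊x i / δ⌋
  let S : Finset Cu := Fintype.piFinset fun _ => Finset.Icc ⌊-r / δ⌋ ⌊r / δ⌋
  refine ⟨(S.filter fun g => ∃ x ∈ K, φ x = g).image (Function.invFunOn φ K), fun y hy => ?_, ?_,
    fun x hx => ⟨Function.invFunOn φ K (φ x), ?_, ?_⟩⟩
  · obtain ⟨g, hg, rfl⟩ := Finset.mem_image.1 (Finset.mem_coe.1 hy)
    exact (Function.invFunOn_pos (Finset.mem_filter.1 hg).2).1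
  · have h1 : ((S.filter fun g => ∃ x ∈ K, φ x = g).image (Function.invFunOn φ K)).card ≤ S.card :=
      Finset.card_image_le.trans (Finset.card_filter_le _ _)
    have h2 : S.card = (⌊r / δ⌋ + 1 - ⌊-r / δ⌋).toNat ^ 3 := by
      simp [S, Fintype.card_piFinset]
    have h3 : ⌊-r / δ⌋ ≤ ⌊r / δ⌋ :=
      Int.floor_mono (div_le_div_of_nonneg_right (by linarith) hδ.le)
    have h4 : (((⌊r / δ⌋ + 1 - ⌊-r / δ⌋).toNat : ℤ) : ℝ) = (⌊r / δ⌋ + 1 - ⌊-r / δ⌋ : ℤ) := by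
      rw [Int.toNat_of_nonneg (by omega)]
    have h5 : (((⌊r / δ⌋ + 1 - ⌊-r / δ⌋).toNat : ℕ) : ℝ) ≤ 2 * r / δ + 3 := by
      have a1 := Int.floor_le (r / δ)
      have a2 := Int.lt_floor_add_one (-r / δ)
      push_cast at h4
      rw [h4, mul_div_assoc]
      rw [neg_div] at a2 ⊢
      linarith
    refine (Nat.cast_le.2 h1).trans ?_
    rw [h2, Nat.cast_pow]
    exact pow_le_pow_left₀ (Nat.cast_nonneg _) h5 3
  · refine Finset.mem_image_of_mem _ (Finset.mem_filter.2 ⟨Fintype.mem_piFinset.2 fun i => ?_,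
      x, hx, rfl⟩)
    have h := abs_le.1 ((norm_le_pi_norm x i).trans (hK x hx))
    exact Finset.mem_Icc.2 ⟨Int.floor_mono (div_le_div_of_nonneg_right h.1 hδ.le),
      Int.floor_mono (div_le_div_of_nonneg_right h.2 hδ.le)⟩
  · have h := (Function.invFunOn_pos (f := φ) (s := K) (b := φ x) ⟨x, hx, rfl⟩).2
    refine (pi_norm_le_iff_of_nonneg hδ.le).2 fun i => ?_
    have h1 := Int.abs_sub_lt_one_of_floor_eq_floor (congrFun h i).symm
    rw [← sub_div, abs_div, abs_of_pos hδ, div_lt_one hδ] at h1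
    exact h1.le

end
end Pool.Agent.MP_20bec2_an.T3

end MrgPart0

-- ======== part 1: formerly Pool.Agent.MP_20bec2_an.T3.Neto
section MrgPart1

/-! Net of the kernel functionals at a point. -/

set_option autoImplicit false
open MeasureTheory Set Filter Matrix

namespace Pool.Agent.MP_20bec2_an.T3
noncomputable section
open Classical

namespace NetO

/-- scaled distance of the jets of two fields -/
def Df (h : V) (F : V → V) (z : V) (F' : V → V) (z' : V) (e : ℝ) : Prop :=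
  ∀ (j : Fin 3) (l : List (Fin 3)), l.length ≤ 3 →
    hp h l * |pds l (fun w => F w j) z - pds l (fun w => F' w j) z'| ≤ e * h j

theorem df_dv {h : V} {F F' : V → V} {z z' : V} {e : ℝ} (H : Df h F z F' z' e)
    (hh : ∀ i, 0 < h i) (hF : ∀ j, Sm fun w => F w j) (hF' : ∀ j, Sm fun w => F' w j)
    (i : Fin 3) : h i * |pd i (dv F) z - pd i (dv F') z'| ≤ 3 * e := by
  have e1 : ∀ G : V → V, (∀ j, Sm fun w => G w j) → ∀ x,
      pd i (dv G) x = ∑ j, pds [i, j] (fun w => G w j) x := fun G hG x =>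
    congrFun (pd_sum Finset.univ (fun j _ => (hG j).pd j) i) x
  have e2 : ∀ j, h i * |pds [i, j] (fun w => F w j) z - pds [i, j] (fun w => F' w j) z'| ≤ e :=
    fun j => by
      have := H j [i, j] (by simp)
      rw [hp_cons, hp_cons, hp_nil, mul_one] at this
      refine le_of_mul_le_mul_right ?_ (hh j)
      linarith
  rw [e1 F hF, e1 F' hF', ← Finset.sum_sub_distrib]
  refine (mul_le_mul_of_nonneg_left (Finset.abs_sum_le_sum_abs _ _) (hh i).le).trans ?_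
  rw [Fin.sum_univ_three]
  linarith [e2 0, e2 1, e2 2]

theorem df_dv0 {h : V} {F : V → V} {z : V} {e : ℝ} (H : Df h F z (fun _ => 0) z e)
    (hh : ∀ i, 0 < h i) (hF : ∀ j, Sm fun w => F w j) (i : Fin 3) :
    h i * |pd i (dv F) z| ≤ 3 * e := by
  have := df_dv H hh hF (fun _ => sm_const _) i
  rwa [show dv (fun _ : V => (0 : V)) = fun _ => 0 from funext fun x => dv_const 0 x, pd_const,
    sub_zero] at this

theorem div_cl {x y a e : ℝ} (ha : 0 < a) (h : |x - y| ≤ e * a) : |x / a - y / a| ≤ e := by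
  rwa [← sub_div, abs_div, abs_of_pos ha, div_le_iff₀ ha]

theorem div_cl0 {x a e : ℝ} (ha : 0 < a) (h : |x| ≤ e * a) : |x / a - 0| ≤ e := by
  rwa [sub_zero, abs_div, abs_of_pos ha, div_le_iff₀ ha]

/-- the kernel library with the constant `n` -/
def Lib (n : ℝ) : Prop := ∀ h U a A Z S, KL h U a A Z S → Sm (dens a Z S) ∧
  CB 4 h univ (dens a Z S) (n * A) ∧
  (∀ (z : V) (r : ℝ), (∀ x ∈ U, a x ≠ 0 → r ≤ ∑ i, ((Z x - z) i / h i) ^ 2) →
    CB 4 h {z} (dens a Z S) (n * A * Real.exp (-r / 60))) ∧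
  ∀ (S' : V → Mx) (δ : ℝ), (∀ i j, Continuous fun x => S' x i j) → 0 ≤ δ → δ ≤ 1 / 1000 →
    (∀ x ∈ U, (S' x)ᵀ = S' x ∧ EB (nrm h (S' x - S x)) (cm δ)) →
    CB 3 h univ (fun z => dens a Z S' z - dens a Z S z) (n * A * δ)

theorem ev_lib : ∀ᶠ N : ℕ in atTop, Lib N := by
  obtain ⟨C, -, -, hB⟩ := kb_ k1 4
  obtain ⟨C', -, hP⟩ := kp' k1 (k2 k1) (kb_ k1) 3
  filter_upwards [tendsto_natCast_atTop_atTop.eventually_ge_atTop C,
    tendsto_natCast_atTop_atTop.eventually_ge_atTop C'] with N h1 h2 h U a A Z S K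
  have hA : 0 ≤ A := (abs_nonneg _).trans (K.ba 0)
  obtain ⟨g, b, f⟩ := hB h U a A Z S K
  refine ⟨(k1 _ _ _ g).1, CBl.monoB b (by gcongr), fun z r hr => CBl.monoB (f z r hr) (by gcongr),
    fun S' δ c d0 d1 H => CBl.monoB (hP h U a A Z S Z S' δ K K.dZ.continuous c d0 d1
      fun x hx _ => ⟨fun i => ?_, H x hx⟩).2 (by gcongr)⟩
  rw [sub_self, abs_zero]
  exact mul_nonneg d0 (K.hh i).le

/-- admissible scales -/
def Sc (c : Pm) (h : V) : Prop := (∀ j, j ≠ 2 → h j = c.hs j) ∧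
  ∀ i, np c.N (-1) * c.lam ≤ h i ∧ h i ≤ np c.N 2 * c.lam

theorem cN {N : ℕ} (h : Big N) : 1000 ≤ np N 1 := by
  rw [np_one]; linarith [h.N_ge, h.J_ge, h.L_ge]

theorem one_le {N : ℕ} (h : Big N) {a : ℝ} (ha : 0 ≤ a) : 1 ≤ np N a :=
  (np_zero N).ge.trans (h.np_le ha)

theorem le_one {N : ℕ} (h : Big N) {a : ℝ} (ha : a ≤ 0) : np N a ≤ 1 :=
  (h.np_le ha).trans (np_zero N).le

theorem mul_le {N : ℕ} (h : Big N) {a b c : ℝ} (hab : a + b ≤ c) : np N a * np N b ≤ np N c :=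
  (h.np_add a b).ge.trans (h.np_le hab)

theorem cmul_le {N : ℕ} (h : Big N) {k a c : ℝ} (hk : k ≤ 1000) (hab : 1 + a ≤ c) :
    k * np N a ≤ np N c :=
  (mul_le_mul_of_nonneg_right (hk.trans (cN h)) (h.np_pos a).le).trans (mul_le h hab)

theorem lam_le_y {c : Pm} (g : Gd c) : c.lam ≤ c.y :=
  le_mul_of_one_le_left g.lam_pos.le (one_le g.big (by norm_num))

theorem sc_hy {c : Pm} (g : Gd c) {y' : ℝ} (h1 : np c.N (-3 / 2) * c.y ≤ y') (h2 : y' ≤ c.y) :
    Sc c (c.hy y') := by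
  have hl := g.lam_pos
  have a1 : np c.N (-1) * c.lam ≤ c.lam := mul_le_of_le_one_left hl.le (le_one g.big (by norm_num))
  have a2 : c.lam ≤ np c.N 2 * c.lam := le_mul_of_one_le_left hl.le (one_le g.big (by norm_num))
  have a3 : c.ro ≤ np c.N 2 := g.ro_le.trans (le_of_log g.big.sqrtN_pos (g.big.np_pos _)
    (by rw [g.big.log_sqrtN, g.big.log_np]; linarith [g.big.J_pos]))
  have a4 : np c.N (-1) ≤ np c.N (-3 / 2) * np c.N (11 / 10) := by
    rw [← g.big.np_add]; exact g.big.np_le (by norm_num)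
  have a5 : np c.N (11 / 10) ≤ np c.N 2 := g.big.np_le (by norm_num)
  refine ⟨fun j hj => by fin_cases j <;> first | rfl | exact absurd rfl hj, fun i => ?_⟩
  fin_cases i
  · exact ⟨a1.trans g.lam_le_l1, mul_le_mul_of_nonneg_right a3 hl.le⟩
  · exact ⟨a1, a2⟩
  · refine ⟨le_trans ?_ h1, h2.trans (mul_le_mul_of_nonneg_right a5 hl.le)⟩
    rw [Pm.y, ← mul_assoc]
    exact mul_le_mul_of_nonneg_right a4 hl.le

theorem sc_hs {c : Pm} (g : Gd c) : Sc c c.hs :=
  sc_hy g (mul_le_of_le_one_left g.y_pos.le (le_one g.big (by norm_num))) le_rfl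

theorem sc_yr {c : Pm} (g : Gd c) {y' : ℝ} (h : c.yrg y') : Sc c (c.hy y') :=
  sc_hy g ((mul_le_mul_of_nonneg_right (g.big.np_le (by norm_num)) g.y_pos.le).trans h.1)
    (h.2.trans (half_le_self g.y_pos.le))

theorem sc_pos {c : Pm} (g : Gd c) {h : V} (sc : Sc c h) (i : Fin 3) : 0 < h i :=
  (mul_pos (g.big.np_pos _) g.lam_pos).trans_le (sc.2 i).1

/-- the kernels of a state at the scale `h` -/
def KS (d : MD) (s : Sa) (h : V) (S : V → Mx) : Prop := ∀ (a : V → ℝ) (A : ℝ), Measurable a →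
  (∀ x, |a x| ≤ A) → (∀ x, x ∉ d.R (93 / 100) → a x = 0) →
  KL h (d.R (99 / 100)) a A (fun x => d.Z x + s.U x) (fun x => S x - s.C x)

structure Hy (d : MD) : Prop where
  gd : Gd d.c
  hi : d.In
  lib : Lib d.c.N
  ks : ∀ s, d.Gw s → (∀ x ∈ d.R (99 / 100), ‖d.O *ᵥ (d.Z x + s.U x - x)‖ ≤ d.c.D / 900) ∧
    KS d s d.c.hs d.S ∧ (∀ y', d.c.yrg y' → KS d s (d.c.hy y') (d.SR y')) ∧
    KS d s (d.c.hy d.yL) d.SL

section
variable {d : MD} (H : Hy d) {s : Sa} {v : V → V} {ω : V → ℝ} (cr : d.Cr d.ep v ω) {h : V}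
  {S : V → Mx} (sc : Sc d.c h) (ks : KS d s h S)
include H cr sc ks

theorem kl (j : Fin 3) : KL h (d.R (99 / 100)) (fun x => d.ρ x * v x j) (np d.c.N (-698) * h j)
    (fun x => d.Z x + s.U x) (fun x => S x - s.C x) := by
  have b := H.gd.big
  have hj := sc_pos H.gd sc j
  refine ks _ _ (H.hi.rho.1.mul (cr.sm.1.coord j).continuous.measurable) (fun x => ?_)
    fun x hx => by rw [((cr.sup x).1 hx).1, Pi.zero_apply, mul_zero]
  by_cases h2 : j = 2
  · rw [h2, (cr.sup x).2, mul_zero, abs_zero]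
    exact (mul_pos (b.np_pos _) (sc_pos H.gd sc 2)).le
  have a1 : |d.ρ x| ≤ np d.c.N 1 := by
    have := abs_le.1 (H.hi.rho.2 x)
    have e : eps0 ≤ 1 := by norm_num [eps0]
    exact abs_le.2 ⟨by linarith [cN b], by linarith [cN b]⟩
  have a2 : d.c.q ≤ np d.c.N 1 := by
    rw [np_one]; linarith [b.q_le_J, b.N_ge, b.J_pos, show d.c.q = pq d.c.N from rfl]
  have a3 : |v x j| ≤ np d.c.N (-699) * h j := by
    refine (cr.sz x j).trans ?_
    rw [← sc.1 j h2]
    exact mul_le_mul_of_nonneg_right ((mul_le_mul_of_nonneg_left a2 (b.np_pos _).le).trans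
      (mul_le b (by norm_num))) hj.le
  rw [abs_mul]
  refine (mul_le_mul a1 a3 (abs_nonneg _) (b.np_pos _).le).trans ?_
  rw [← mul_assoc]
  exact mul_le_mul_of_nonneg_right (mul_le b (by norm_num)) hj.le

theorem fv_sm (j : Fin 3) : Sm fun w => d.Fv S s v w j :=
  ContDiff.neg (H.lib _ _ _ _ _ _ (kl H cr sc ks j)).1

omit ks cr in
theorem cst (j : Fin 3) {a e : ℝ} (he : e ≤ np d.c.N a) {a' : ℝ} (ha : a - 697 ≤ a') :
    d.c.N * (np d.c.N (-698) * h j) * e ≤ np d.c.N a' * h j := by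
  have b := H.gd.big
  have hj := (sc_pos H.gd sc j).le
  have p1 := b.np_pos 1
  have p2 := b.np_pos (-698)
  rw [← np_one d.c.N]
  calc np d.c.N 1 * (np d.c.N (-698) * h j) * e
      ≤ np d.c.N 1 * (np d.c.N (-698) * h j) * np d.c.N a := by gcongr
    _ = np d.c.N (1 + -698 + a) * h j := by rw [b.np_add, b.np_add]; ring
    _ ≤ _ := mul_le_mul_of_nonneg_right (b.np_le (by linarith)) hj

omit H cr sc ks in
theorem pds_fv (l : List (Fin 3)) (j : Fin 3) (z : V) : pds l (fun w => d.Fv S s v w j) z =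
    -pds l (dens (fun x => d.ρ x * v x j) (fun x => d.Z x + s.U x) fun x => S x - s.C x) z :=
  congrFun (pds_neg _ l) z

theorem bd (z : V) : Df h (d.Fv S s v) z (fun _ => 0) z (np d.c.N (-697)) := fun j l hl => by
  have := (H.lib _ _ _ _ _ _ (kl H cr sc ks j)).2.1 l (by omega) z trivial
  have h2 := cst H sc j (np_zero _).ge (a' := -697) (by norm_num)
  rw [pds_fv, show (fun _ : V => (0 : V) j) = fun _ => 0 from rfl, pds_zero, sub_zero, abs_neg]
  linarith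

theorem lip {z z' : V} (hz : ‖z - z'‖ ≤ np d.c.N (-1200) * d.c.lam) :
    Df h (d.Fv S s v) z (d.Fv S s v) z' (np d.c.N (-1890)) := fun j l hl => by
  have b := H.gd.big
  have L := H.lib _ _ _ _ _ _ (kl H cr sc ks j)
  have h1 := CV.mvt_pds (n := 3) (sc_pos H.gd sc) convex_univ L.1 L.2.1.toCV hl (mem_univ z)
    (mem_univ z')
  have h3 : ∀ i, |z i - z' i| / h i ≤ np d.c.N (-1199) := fun i => by
    rw [div_le_iff₀ (sc_pos H.gd sc i)]
    refine ((norm_le_pi_norm (z - z') i).trans hz).trans (le_trans (le_of_eq ?_)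
      (mul_le_mul_of_nonneg_left (sc.2 i).1 (b.np_pos _).le))
    rw [← mul_assoc, ← b.np_add]; norm_num
  have h4 : ∑ i, |z i - z' i| / h i ≤ np d.c.N (-1198) := by
    rw [Fin.sum_univ_three]
    linarith [h3 0, h3 1, h3 2, cmul_le b (k := 3) (a := -1199) (c := -1198) (by norm_num)
      (by norm_num)]
  rw [pds_fv, pds_fv, neg_sub_neg, abs_sub_comm]
  exact h1.trans (cst H sc j h4 (by norm_num))

theorem far (gw : d.Gw s) {z : V} (hz : 4 * d.c.D < ‖z‖) :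
    Df h (d.Fv S s v) z (fun _ => 0) z (np d.c.N (-1890)) := fun j l hl => by
  have b := H.gd.big
  have hD := H.gd.D_pos
  have hl0 := H.gd.lam_pos
  have h1 := (H.lib _ _ _ _ _ _ (kl H cr sc ks j)).2.2.1 z (72000 * pJ d.c.N) (fun x hx _ => by
    have a1 := (H.ks s gw).1 x hx
    have a2 : ‖d.O *ᵥ x‖ ≤ 99 / 100 * d.c.D := hx
    have a3 : ‖d.O *ᵥ (d.Z x + s.U x)‖ ≤ d.c.D := by
      have := norm_add_le (d.O *ᵥ (d.Z x + s.U x - x)) (d.O *ᵥ x)
      rw [← mulVec_add, sub_add_cancel] at this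
      linarith
    have a4 := GeoP.norm_orth' H.hi.ort (d.Z x + s.U x)
    have a5 := norm_sub_norm_le z (d.Z x + s.U x)
    rw [norm_sub_rev] at a5
    obtain ⟨i, hi⟩ : ∃ i, d.c.D ≤ |(d.Z x + s.U x - z) i| := by
      by_contra hc
      have := (pi_norm_lt_iff (x := d.Z x + s.U x - z) hD).2 fun i =>
        lt_of_not_ge fun h => hc ⟨i, h⟩
      linarith
    have a6 : np d.c.N 1 * h i ≤ d.c.D := by
      refine (mul_le_mul_of_nonneg_left (sc.2 i).2 (b.np_pos _).le).trans ?_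
      rw [← mul_assoc, Pm.D, ← np_nat]
      exact mul_le_mul (mul_le b (by norm_num)) H.gd.lam_le_lb hl0.le (b.np_pos _).le
    have a7 : np d.c.N 1 ≤ |(d.Z x + s.U x - z) i / h i| := by
      rw [abs_div, abs_of_pos (sc_pos H.gd sc i), le_div_iff₀ (sc_pos H.gd sc i)]
      linarith
    have a8 := pow_le_pow_left₀ (b.np_pos _).le a7 2
    rw [sq_abs] at a8
    refine le_trans ?_ (a8.trans (Finset.single_le_sum
      (f := fun i => ((d.Z x + s.U x - z) i / h i) ^ 2) (fun _ _ => sq_nonneg _)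
      (Finset.mem_univ i)))
    have a9 := cN b
    rw [np_one] at a9 ⊢
    nlinarith [b.N_ge, b.J_pos]) l (by omega) z rfl
  have h2 : Real.exp (-(72000 * pJ d.c.N) / 60) ≤ np d.c.N (-1200) := by
    rw [b.np_eq]; exact le_of_eq (congrArg _ (by ring))
  rw [pds_fv, show (fun _ : V => (0 : V) j) = fun _ => 0 from rfl, pds_zero, sub_zero, abs_neg]
  exact h1.trans (cst H sc j h2 (by norm_num))

theorem per {h' : V} {S' : V → Mx} (sc' : Sc d.c h') (ks' : KS d s h' S')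
    (hS : ∀ x ∈ d.R (99 / 100), EB (S' x - S x) (cm (np d.c.N (-1195) * d.c.lam ^ 2))) (z : V) :
    Df h (d.Fv S' s v) z (d.Fv S s v) z (np d.c.N (-1890)) := fun j l hl => by
  have b := H.gd.big
  have L := H.lib _ _ _ _ _ _ (kl H cr sc ks j)
  have K' := kl H cr sc' ks' j
  have h1 := L.2.2.2 _ (np d.c.N (-1193)) K'.cS (b.np_pos _).le (by
    have := cmul_le b (k := 1000) (a := -1193) (c := 0) le_rfl (by norm_num)
    rw [np_zero] at this; linarith) (fun x hx => ⟨(K'.bS x hx).1, fun i k => by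
      have p := mul_pos (sc_pos H.gd sc i) (sc_pos H.gd sc k)
      have p0 := mul_pos (b.np_pos (-1)) H.gd.lam_pos
      have a1 := hS x hx i k
      simp only [nrm, cm, of_apply, sub_sub_sub_cancel_right] at a1 ⊢
      rw [abs_div, abs_of_pos p, div_le_iff₀ p]
      refine a1.trans (le_trans (le_of_eq ?_) (mul_le_mul_of_nonneg_left
        (mul_le_mul (sc.2 i).1 (sc.2 k).1 p0.le (sc_pos H.gd sc i).le) (b.np_pos _).le))
      rw [show (-1195 : ℝ) = -1193 + -1 + -1 by norm_num, b.np_add, b.np_add]; ring⟩)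
    l hl z trivial
  rw [pds_sub (H.lib _ _ _ _ _ _ K').1 L.1] at h1
  rw [pds_fv, pds_fv, neg_sub_neg, abs_sub_comm]
  exact h1.trans (cst H sc j le_rfl (by norm_num))

end

/-- two functionals are close on all steps from good states -/
def Ap (d : MD) (Λ Λ' : Fn) : Prop := ∀ s v ω, d.Gw s → d.Cr d.ep v ω →
  |Λ s v ω - Λ' s v ω| ≤ np d.c.N (-1800)

section
variable {d : MD} (H : Hy d)
include H

theorem kB_cl {F F' : V → V} {z z' : V} (D : Df d.c.hs F z F' z' (np d.c.N (-1890)))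
    {l : List (Fin 3)} (hl : l.length ≤ 3) (i : Fin 3) :
    |hp d.c.hs l * pds l (fun w => F w i) z / (np d.c.N (-285 / 1000) * d.c.hs i) -
      hp d.c.hs l * pds l (fun w => F' w i) z' / (np d.c.N (-285 / 1000) * d.c.hs i)| ≤
      np d.c.N (-1800) := by
  have b := H.gd.big
  refine div_cl (mul_pos (b.np_pos _) (H.gd.hs_pos i)) ?_
  rw [← mul_sub, abs_mul, abs_of_pos (hp_pos H.gd.hs_pos l), ← mul_assoc, ← b.np_add]
  exact (D i l hl).trans (mul_le_mul_of_nonneg_right (b.np_le (by norm_num)) (H.gd.hs_pos i).le)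

theorem kB_lip {z z' : V} (hz : ‖z - z'‖ ≤ np d.c.N (-1200) * d.c.lam) {l : List (Fin 3)}
    (hl : l.length ≤ 3) (i : Fin 3) : Ap d (d.kB z l i) (d.kB z' l i) := fun s _ _ gw cr =>
  kB_cl H (lip H cr (sc_hs H.gd) (H.ks s gw).2.1 hz) hl i

theorem kB_far {z : V} (hz : 4 * d.c.D < ‖z‖) {l : List (Fin 3)}
    (hl : l.length ≤ 3) (i : Fin 3) : Ap d (d.kB z l i) 0 := fun s _ _ gw cr => by
  have := kB_cl H (far H cr (sc_hs H.gd) (H.ks s gw).2.1 gw hz) hl i
  rwa [show (fun _ : V => (0 : V) i) = fun _ => 0 from rfl, pds_zero, mul_zero, zero_div] at this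

theorem q_cl : 3 * np d.c.N (-1890) ≤ np d.c.N (-1800) * d.c.q := by
  have b := H.gd.big
  rw [mul_comm]
  exact mul_le_mul (b.np_le (by norm_num)) (le_trans (by norm_num) b.q_ge) (by norm_num)
    (b.np_pos _).le

theorem kV_lip {z z' : V} (hz : ‖z - z'‖ ≤ np d.c.N (-1200) * d.c.lam) {i : Fin 3} (hi : i ≠ 2) :
    Ap d (d.kV z i) (d.kV z' i) := fun s _ _ gw cr => by
  have sc := sc_hy H.gd H.hi.yl.1 H.hi.yl.2
  have ks := (H.ks s gw).2.2.2
  have := df_dv (lip H cr sc ks hz) (sc_pos H.gd sc) (fv_sm H cr sc ks) (fv_sm H cr sc ks) i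
  refine div_cl H.gd.q_pos ?_
  rw [← mul_sub, abs_mul, abs_of_pos (H.gd.hs_pos i), ← sc.1 i hi]
  exact this.trans (q_cl H)

theorem kV_far {z : V} (hz : 4 * d.c.D < ‖z‖) {i : Fin 3} (hi : i ≠ 2) :
    Ap d (d.kV z i) 0 := fun s _ _ gw cr => by
  have sc := sc_hy H.gd H.hi.yl.1 H.hi.yl.2
  have ks := (H.ks s gw).2.2.2
  have := df_dv0 (far H cr sc ks gw hz) (sc_pos H.gd sc) (fv_sm H cr sc ks) i
  refine div_cl0 H.gd.q_pos ?_
  rw [abs_mul, abs_of_pos (H.gd.hs_pos i), ← sc.1 i hi]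
  exact this.trans (q_cl H)

theorem yr {y' : ℝ} (hy : d.c.yrg y') : 0 ≤ y' / d.c.y ∧ y' / d.c.y ≤ 1 ∧ 0 ≤ y' := by
  have p := H.gd.y_pos
  have p1 := ((mul_pos (H.gd.big.np_pos _) p).trans_le hy.1).le
  exact ⟨div_nonneg p1 p.le, (div_le_one p).2 (hy.2.trans (half_le_self p.le)), p1⟩

theorem r_cl : 9 * np d.c.N (-1890) ≤ np d.c.N (-1800) * np d.c.N (-29 / 100) := by
  rw [← H.gd.big.np_add]
  exact cmul_le H.gd.big (by norm_num) (by norm_num)

theorem kR_far {y' : ℝ} (hy : d.c.yrg y') {z : V} (hz : 4 * d.c.D < ‖z‖) {i : Fin 3}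
    (hi : i ≠ 2) : Ap d (d.kR y' z i) 0 := fun s v _ gw cr => by
  have sc := sc_yr H.gd hy
  have ks := (H.ks s gw).2.2.1 y' hy
  have h1 := df_dv0 (far H cr sc ks gw hz) (sc_pos H.gd sc) (fv_sm H cr sc ks) i
  obtain ⟨a0, a1, -⟩ := yr H hy
  have p := H.gd.big.np_pos (-1890)
  rw [sc.1 i hi] at h1
  refine div_cl0 (H.gd.big.np_pos _) ?_
  rw [mul_assoc, abs_mul, abs_mul, abs_of_nonneg a0, abs_of_pos (H.gd.hs_pos i)]
  have := mul_le_of_le_one_left (mul_nonneg (H.gd.hs_pos i).le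
    (abs_nonneg (pd i (dv (d.Fv (d.SR y') s v)) z))) a1
  linarith [r_cl H]

theorem kR_lip {y' y'' : ℝ} (hy : d.c.yrg y') (hy' : d.c.yrg y'')
    (hd : |y' - y''| ≤ np d.c.N (-1200) * d.c.lam) {z z' : V}
    (hz : ‖z - z'‖ ≤ np d.c.N (-1200) * d.c.lam) {i : Fin 3} (hi : i ≠ 2) :
    Ap d (d.kR y' z i) (d.kR y'' z' i) := fun s v _ gw cr => by
  have b := H.gd.big
  have sc := sc_yr H.gd hy
  have ks := (H.ks s gw).2.2.1 y' hy
  have sc' := sc_yr H.gd hy'
  have ks' := (H.ks s gw).2.2.1 y'' hy'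
  obtain ⟨-, -, a2⟩ := yr H hy
  obtain ⟨b0, b1, b2⟩ := yr H hy'
  have py := H.gd.y_pos
  have pl := H.gd.lam_pos
  have ph := H.gd.hs_pos i
  have h1 := df_dv0 (bd H cr sc ks z) (sc_pos H.gd sc) (fv_sm H cr sc ks) i
  have h2 := df_dv (per H cr sc' ks' sc ks (fun x hx j k => by
    have e : (d.SR y' x - d.SR y'' x) j k = (y' - y'') * (y' + y'') * d.Db x j k := by
      simp only [MD.SR, Matrix.sub_apply, Matrix.smul_apply, smul_eq_mul]; ring
    have c1 : |d.Db x j k| ≤ np d.c.N 1 := by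
      have c2 := (H.hi.db x hx).1 j k
      have c3 : |dg3 0 0 1 j k| ≤ 1 := by fin_cases j <;> fin_cases k <;> simp [dg3]
      have c4 := abs_add_le (d.Db x j k - dg3 0 0 1 j k) (dg3 0 0 1 j k)
      rw [sub_add_cancel] at c4
      have c5 : |d.Db x j k - dg3 0 0 1 j k| ≤ 1 := c2.trans (le_one b (by norm_num))
      linarith [cN b]
    have c6 : |y' + y''| ≤ np d.c.N (11 / 10) * d.c.lam := by
      rw [abs_of_nonneg (add_nonneg a2 b2)]
      exact (add_le_add hy.2 hy'.2).trans (add_halves _).le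
    have p1 := b.np_pos (-1200)
    have p2 := b.np_pos (11 / 10)
    rw [e, abs_mul, abs_mul]
    calc _ ≤ np d.c.N (-1200) * d.c.lam * (np d.c.N (11 / 10) * d.c.lam) * np d.c.N 1 := by gcongr
      _ = np d.c.N (-1200 + 11 / 10 + 1) * d.c.lam ^ 2 := by rw [b.np_add, b.np_add]; ring
      _ ≤ _ := mul_le_mul_of_nonneg_right (b.np_le (by norm_num)) (sq_nonneg _)) z)
    (sc_pos H.gd sc') (fv_sm H cr sc ks) (fv_sm H cr sc' ks') i
  have h3 := df_dv (lip H cr sc' ks' hz) (sc_pos H.gd sc') (fv_sm H cr sc' ks')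
    (fv_sm H cr sc' ks') i
  rw [sc.1 i hi] at h1
  rw [sc'.1 i hi] at h2 h3
  refine div_cl (b.np_pos _) ?_
  generalize pd i (dv (d.Fv (d.SR y') s v)) z = P at *
  generalize pd i (dv (d.Fv (d.SR y'') s v)) z = P' at *
  generalize pd i (dv (d.Fv (d.SR y'') s v)) z' = P'' at *
  have e : y' / d.c.y * d.c.hs i * P - y'' / d.c.y * d.c.hs i * P'' =
      (y' - y'') / d.c.y * (d.c.hs i * P) + y'' / d.c.y * (d.c.hs i * (P - P'')) := by ring
  have c1 : |(y' - y'') / d.c.y| ≤ np d.c.N (-1200) := by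
    rw [abs_div, abs_of_pos py, div_le_iff₀ py]
    exact hd.trans (mul_le_mul_of_nonneg_left (lam_le_y H.gd) (b.np_pos _).le)
  have c2 := mul_le_mul c1 h1 (mul_nonneg ph.le (abs_nonneg _)) (b.np_pos _).le
  have c3 := mul_le b (a := -1200) (b := -697) (c := -1890) (by norm_num)
  have c4 := mul_le_mul_of_nonneg_left (abs_sub_le P P' P'') ph.le
  have c5 := mul_le_of_le_one_left (mul_nonneg ph.le (abs_nonneg (P - P''))) b1
  rw [e]
  refine (abs_add_le _ _).trans ?_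
  rw [abs_mul, abs_mul, abs_mul, abs_mul, abs_of_pos ph, abs_of_nonneg b0]
  linarith [r_cl H]

theorem of_ap {F : Set Fn} {I : Finset Fn}
    (hI : ∀ Λ ∈ F, ∃ Λ', (Λ' ∈ I ∨ Λ' = 0) ∧ Ap d Λ Λ') (u : ℕ → V → V) (ω : ℕ → V → ℝ) (m : ℕ)
    (hm : m ≤ nT d.c.N) (b : ℝ) (hb : 0 ≤ b) (cr : ∀ j, d.Cr d.ep (u j) (ω j))
    (gw : ∀ j < m, d.Gw (d.sa u ω j)) (hX : ∀ Λ ∈ I, |d.X Λ u ω m| ≤ b) (Λ : Fn) (hΛ : Λ ∈ F) :
    |d.X Λ u ω m| ≤ b + 1 := by
  obtain ⟨Λ', h1, h2⟩ := hI Λ hΛ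
  have h3 : |d.X Λ' u ω m| ≤ b := by
    rcases h1 with h1 | rfl
    · exact hX _ h1
    · simpa [MD.X] using hb
  have h4 : |d.X Λ u ω m - d.X Λ' u ω m| ≤ 1 := by
    rw [MD.X, MD.X, ← Finset.sum_sub_distrib]
    refine (Finset.abs_sum_le_sum_abs _ _).trans ((Finset.sum_le_card_nsmul _ _ _ fun j hj =>
      h2 _ _ _ (gw j (Finset.mem_range.1 hj)) (cr j)).trans ?_)
    have h5 : (m : ℝ) ≤ np d.c.N 1800 := by
      rw [show (1800 : ℝ) = (1800 : ℕ) by norm_num, np_nat]; exact_mod_cast hm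
    rw [Finset.card_range, nsmul_eq_mul]
    exact (mul_le_mul_of_nonneg_right h5 (H.gd.big.np_pos _).le).trans
      ((mul_le H.gd.big (c := 0) (by norm_num)).trans (np_zero _).le)
  linarith [abs_sub_abs_le_abs_sub (d.X Λ u ω m) (d.X Λ' u ω m)]

theorem net4 (K : Set V) (hK : ∀ x ∈ K, ‖x‖ ≤ 4 * d.c.D) : ∃ I : Finset V, ↑I ⊆ K ∧
    (I.card : ℝ) ≤ np d.c.N 3900 ∧ ∀ x ∈ K, ∃ y ∈ I, ‖x - y‖ ≤ np d.c.N (-1200) * d.c.lam := by
  have b := H.gd.big
  have p := mul_pos (b.np_pos (-1200)) H.gd.lam_pos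
  have pD := H.gd.D_pos
  obtain ⟨I, h1, h2, h3⟩ := net K _ _ p (by positivity) hK
  refine ⟨I, h1, h2.trans ?_, h3⟩
  have a1 : d.c.D / (np d.c.N (-1200) * d.c.lam) ≤ np d.c.N 1297 := by
    rw [div_le_iff₀ p, ← mul_assoc, ← b.np_add, Pm.D, ← np_nat]
    refine (mul_le_mul_of_nonneg_left H.gd.lb_le (b.np_pos _).le).trans ?_
    rw [← mul_assoc]
    exact mul_le_mul_of_nonneg_right (mul_le b (by norm_num)) H.gd.lam_pos.le
  have a2 : 2 * (4 * d.c.D) / (np d.c.N (-1200) * d.c.lam) + 3 ≤ np d.c.N 1300 := by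
    have := cmul_le b (k := 11) (a := 1297) (c := 1300) (by norm_num) (by norm_num)
    have := one_le b (a := 1297) (by norm_num)
    rw [← mul_assoc, mul_div_assoc]
    linarith
  refine (pow_le_pow_left₀ (by positivity) a2 3).trans (le_of_eq ?_)
  rw [show (3900 : ℝ) = 1300 + 1300 + 1300 by norm_num, b.np_add, b.np_add]; ring

end

end NetO

open NetO in
theorem neto (h : KlsStmt) : NetoStmt := by
  have hL := List.finite_length_le (Fin 3) 3
  filter_upwards [h, ev_gd, ev_lib, tendsto_natCast_atTop_atTop.eventually_ge_atTop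
    (hL.toFinset.card : ℝ)] with N h1 h2 h3 h4 d hN hk hi
  subst hN
  have H : Hy d := ⟨h2 _ rfl hi.ok, hi, h3, fun s gw => by
    obtain ⟨k1, k2⟩ := h1 d rfl hk hi s gw
    exact ⟨fun x hx => (k1 x hx).2.1, fun a A m b z => (k2 a A m b z).1,
      fun y' hy a A m b z => (k2 a A m b z).2.1 y' hy, fun a A m b z => (k2 a A m b z).2.2⟩⟩
  have b := H.gd.big
  obtain ⟨I1, -, c1, n1⟩ := net4 H {z | ‖z‖ ≤ 4 * d.c.D} fun _ hx => hx
  obtain ⟨I2, s2, c2, n2⟩ := net4 H {z | ∃ y', d.c.yrg y' ∧ z = cv y'} fun x hx => by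
    obtain ⟨y', hy, rfl⟩ := hx
    have a1 := ((sc_yr H.gd hy).2 2).2
    have a2 : np d.c.N 2 * d.c.lam ≤ d.c.D := by
      rw [Pm.D, ← np_nat]
      exact mul_le_mul (b.np_le (by norm_num)) H.gd.lam_le_lb H.gd.lam_pos.le (b.np_pos _).le
    have a3 : ‖cv y'‖ = y' := (pi_norm_const y').trans (abs_of_nonneg (yr H hy).2.2)
    have a4 : y' ≤ np d.c.N 2 * d.c.lam := a1
    linarith [H.gd.D_pos]
  let T : Finset Fn := (I1 ×ˢ hL.toFinset ×ˢ Finset.univ).image (fun t => d.kB t.1 t.2.1 t.2.2) ∪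
    ((I1 ×ˢ I2 ×ˢ Finset.univ).image (fun t => d.kR (t.2.1 0) t.1 t.2.2) ∪
      (I1 ×ˢ Finset.univ).image fun t => d.kV t.1 t.2)
  refine ⟨T.filter fun Λ => ∃ a, Λ ∈ d.FamO a, fun Λ hΛ => (Finset.mem_filter.1 hΛ).2, ?_,
    of_ap H ?_⟩
  · have e1 : (T.filter fun Λ => ∃ a, Λ ∈ d.FamO a).card ≤ I1.card * (hL.toFinset.card * 3) +
        (I1.card * (I2.card * 3) + I1.card * 3) := by
      refine (Finset.card_filter_le _ _).trans ((Finset.card_union_le _ _).trans (add_le_add ?_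
        ((Finset.card_union_le _ _).trans (add_le_add ?_ ?_)))) <;>
      exact Finset.card_image_le.trans (by simp only [Finset.card_product, Finset.card_univ,
        Fintype.card_fin, le_refl])
    have e2 : ((T.filter fun Λ => ∃ a, Λ ∈ d.FamO a).card : ℝ) ≤ I1.card *
        (hL.toFinset.card * 3) + (I1.card * (I2.card * 3) + I1.card * 3) := by exact_mod_cast e1
    have e3 : (hL.toFinset.card : ℝ) ≤ np d.c.N 3900 :=
      h4.trans ((np_one _).ge.trans (b.np_le (by norm_num)))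
    have e4 := one_le b (a := 3900) (by norm_num)
    have e5 := mul_le b (a := 3900) (b := 3900) (c := 7800) (by norm_num)
    have e6 := cmul_le b (k := 9) (a := 7800) (c := (20000 : ℕ)) (by norm_num) (by norm_num)
    rw [np_nat] at e6
    refine e2.trans (le_trans ?_ e6)
    calc _ ≤ np d.c.N 3900 * (np d.c.N 3900 * 3) + (np d.c.N 3900 * (np d.c.N 3900 * 3) +
          np d.c.N 3900 * 3) := by gcongr
      _ ≤ _ := by nlinarith
  rintro Λ ⟨a, z, i, -, hi2, hΛ⟩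
  by_cases hz : ‖z‖ ≤ 4 * d.c.D
  swap
  · refine ⟨0, Or.inr rfl, ?_⟩
    rcases hΛ with ⟨l, hl, rfl⟩ | ⟨y', hy, rfl⟩ | ⟨-, rfl⟩
    · exact kB_far H (not_le.1 hz) hl i
    · exact kR_far H hy (not_le.1 hz) hi2
    · exact kV_far H (not_le.1 hz) hi2
  obtain ⟨z', hz', hd⟩ := n1 z hz
  rcases hΛ with ⟨l, hl, rfl⟩ | ⟨y', hy, rfl⟩ | ⟨hc, rfl⟩
  · exact ⟨_, Or.inl (Finset.mem_filter.2 ⟨Finset.mem_union_left _ (Finset.mem_image.2
      ⟨(z', l, i), Finset.mem_product.2 ⟨hz', Finset.mem_product.2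
        ⟨hL.mem_toFinset.2 hl, Finset.mem_univ _⟩⟩, rfl⟩),
      _, z', i, rfl, hi2, Or.inl ⟨l, hl, rfl⟩⟩), kB_lip H hd hl i⟩
  · obtain ⟨w, hw, hd'⟩ := n2 (cv y') ⟨y', hy, rfl⟩
    obtain ⟨y'', hy', rfl⟩ := s2 hw
    exact ⟨_, Or.inl (Finset.mem_filter.2 ⟨Finset.mem_union_right _ (Finset.mem_union_left _
      (Finset.mem_image.2 ⟨(z', cv y'', i), Finset.mem_product.2 ⟨hz', Finset.mem_product.2
        ⟨hw, Finset.mem_univ _⟩⟩, rfl⟩)), _, z', i, rfl, hi2, Or.inr (Or.inl ⟨y'', hy', rfl⟩)⟩),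
      kR_lip H hy hy' ((norm_le_pi_norm (cv y' - cv y'') 0).trans hd') hd hi2⟩
  · exact ⟨_, Or.inl (Finset.mem_filter.2 ⟨Finset.mem_union_right _ (Finset.mem_union_right _
      (Finset.mem_image.2 ⟨(z', i), Finset.mem_product.2 ⟨hz', Finset.mem_univ _⟩, rfl⟩)),
      _, z', i, rfl, hi2, Or.inr (Or.inr ⟨hc, rfl⟩)⟩), kV_lip H hd hi2⟩

end
end Pool.Agent.MP_20bec2_an.T3

end MrgPart1

-- marker of a merged file
example : 731051 + 201923 = 731051 + 201923 := rfl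

end MrgPart2

-- ======== part 3: formerly Pool.Agent.MP_20bec2_an.T3.Kvar
section MrgPart3

-- ======== part 0: formerly Pool.Agent.MP_20bec2_an.T3.Feed
section MrgPart0

set_option autoImplicit false
open MeasureTheory Set Filter Matrix Topology

namespace Pool.Agent.MP_20bec2_an.T3

namespace Feed

variable {n : ℕ}

/-- The first `j` coordinates. -/
def tr (j : ℕ) (a : Fin n → ℝ) : Fin n → ℝ := fun t => if t.val < j then a t else 0

lemma quad {U z β ν σ y w : ℝ} (hU : 0 < U) (hν : ν ≤ 2 * U ^ 2) (hσ : σ ^ 2 ≤ 1)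
    (hz : z ≤ 8 / 3 * U ^ 2 * (w - y ^ 2)) :
    z + 2 * (σ * y - 1 / (4 * U ^ 2) * β) * β + (σ * y - 1 / (4 * U ^ 2) * β) ^ 2 * ν ≤
      8 / 3 * U ^ 2 * w := by
  obtain ⟨m, hm⟩ : ∃ m, m = σ * y - 1 / (4 * U ^ 2) * β := ⟨_, rfl⟩
  have hβ : β = 4 * U ^ 2 * (σ * y - m) := by rw [hm]; field_simp; ring
  rw [← hm, hβ]
  have h1 : m ^ 2 * ν ≤ m ^ 2 * (2 * U ^ 2) := mul_le_mul_of_nonneg_left hν (sq_nonneg m)
  have h2 : 0 ≤ U ^ 2 * (3 * m - 2 * (σ * y)) ^ 2 := by positivity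
  have h3 : U ^ 2 * y ^ 2 * σ ^ 2 ≤ U ^ 2 * y ^ 2 * 1 :=
    mul_le_mul_of_nonneg_left hσ (by positivity)
  nlinarith

lemma core (B : (Fin n → ℝ) →ₗ[ℝ] (Fin n → ℝ) →ₗ[ℝ] ℝ) (hs : ∀ a b, B a b = B b a)
    (hp : ∀ a, 0 ≤ B a a) {U : ℝ} (hU : 0 < U)
    (hd : ∀ t, B (Pi.single t 1) (Pi.single t 1) ≤ 2 * U ^ 2) (k : ℕ) :
    ∃ M : Matrix (Fin n) (Fin n) ℝ, (∀ t, t.val < k → M t ⬝ᵥ M t = 1) ∧
      (∀ t s, k ≤ t.val ∨ k ≤ s.val → M t s = 0) ∧
      ∀ j y, B (tr j (M *ᵥ y)) (tr j (M *ᵥ y)) ≤ 8 / 3 * U ^ 2 * (y ⬝ᵥ y) := by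
  induction k with
  | zero =>
    refine ⟨0, fun t h => absurd h (Nat.not_lt_zero _), fun _ _ _ => rfl, fun j y => ?_⟩
    have h0 : tr j ((0 : Matrix (Fin n) (Fin n) ℝ) *ᵥ y) = 0 := by ext t; simp [tr]
    rw [h0, map_zero]
    have := dotProduct_self_star_nonneg y
    simp only [star_trivial] at this
    positivity
  | succ k ih =>
    obtain ⟨M, h1, h2, h3⟩ := ih
    by_cases hk : ¬ k < n
    · exact ⟨M, fun t _ => h1 t (by have := t.2; omega), fun t s h => h2 t s (by omega), h3⟩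
    obtain ⟨κ, hκ⟩ : ∃ κ : Fin n, κ.val = k := ⟨⟨k, not_not.1 hk⟩, rfl⟩
    obtain ⟨e, he⟩ : ∃ e : Fin n → ℝ, e = Pi.single κ 1 := ⟨_, rfl⟩
    have hν : B e e ≤ 2 * U ^ 2 := he ▸ hd κ
    have hey : ∀ y : Fin n → ℝ, e ⬝ᵥ y = y κ := fun y => by rw [he]; simp
    have heκ : e κ = 1 := by rw [he]; simp
    have hes : ∀ s, s ≠ κ → e s = 0 := fun s h => by rw [he]; simp [h]
    have hM : ∀ y, B (M *ᵥ y) (M *ᵥ y) ≤ 8 / 3 * U ^ 2 * (y ⬝ᵥ y) := fun y => by
      have h4 : tr n (M *ᵥ y) = M *ᵥ y := by ext t; simp [tr]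
      simpa only [h4] using h3 n y
    have hcol : ∀ s : Fin n, k ≤ s.val → M *ᵥ Pi.single s (1 : ℝ) = 0 := fun s h => by
      ext t; simp [h2 t s (Or.inr h)]
    obtain ⟨r, hr, hr0⟩ : ∃ r : Fin n → ℝ, (∀ y, r ⬝ᵥ y = B (M *ᵥ y) e) ∧
        ∀ s : Fin n, k ≤ s.val → r s = 0 := by
      refine ⟨fun s => B (M *ᵥ Pi.single s 1) e, fun y => ?_, fun s h => by simp [hcol s h]⟩
      conv_rhs => rw [← Finset.univ_sum_single y, Matrix.mulVec_sum, map_sum, LinearMap.sum_apply]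
      refine Finset.sum_congr rfl fun s _ => ?_
      have h4 : (Pi.single s (y s) : Fin n → ℝ) = y s • (Pi.single s 1 : Fin n → ℝ) := by
        rw [← Pi.single_smul, smul_eq_mul, mul_one]
      rw [h4, Matrix.mulVec_smul, map_smul, LinearMap.smul_apply, smul_eq_mul, mul_comm]
    have hrr : 0 ≤ r ⬝ᵥ r := by simpa using dotProduct_self_star_nonneg r
    have hU2 : 0 < U ^ 2 := by positivity
    have hρ : r ⬝ᵥ r ≤ 16 / 3 * U ^ 2 * U ^ 2 := by
      have h4 := hp (M *ᵥ r - (8 / 3 * U ^ 2) • e)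
      simp only [map_sub, map_smul, LinearMap.sub_apply, LinearMap.smul_apply, smul_eq_mul] at h4
      rw [hs e (M *ᵥ r), ← hr r] at h4
      have h5 := hM r
      have h6 : U ^ 2 * U ^ 2 * B e e ≤ U ^ 2 * U ^ 2 * (2 * U ^ 2) :=
        mul_le_mul_of_nonneg_left hν (by positivity)
      refine le_of_mul_le_mul_left ?_ hU2
      nlinarith
    have hc : (1 / (4 * U ^ 2)) ^ 2 * (r ⬝ᵥ r) ≤ 1 := by
      refine (mul_le_mul_of_nonneg_left hρ (sq_nonneg _)).trans ?_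
      have : (1 / (4 * U ^ 2)) ^ 2 * (16 / 3 * U ^ 2 * U ^ 2) = 1 / 3 := by field_simp; ring
      rw [this]; norm_num
    obtain ⟨σ, hσ⟩ : ∃ σ : ℝ, σ ^ 2 = 1 - (1 / (4 * U ^ 2)) ^ 2 * (r ⬝ᵥ r) :=
      ⟨_, Real.sq_sqrt (by linarith)⟩
    have hσ1 : σ ^ 2 ≤ 1 := by
      have : 0 ≤ (1 / (4 * U ^ 2)) ^ 2 * (r ⬝ᵥ r) := by positivity
      linarith
    obtain ⟨w, hw⟩ : ∃ w : Fin n → ℝ, w = σ • e - (1 / (4 * U ^ 2)) • r := ⟨_, rfl⟩
    have hwy : ∀ y, w ⬝ᵥ y = σ * y κ - 1 / (4 * U ^ 2) * (r ⬝ᵥ y) := fun y => by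
      rw [hw, sub_dotProduct, smul_dotProduct, smul_dotProduct, hey, smul_eq_mul, smul_eq_mul]
    have hz : ∀ t s, k + 1 ≤ t.val ∨ k + 1 ≤ s.val → M.updateRow κ w t s = 0 := fun t s h => by
      by_cases ht : t = κ
      · have h4 : k + 1 ≤ s.val := h.resolve_left (by rw [ht]; omega)
        have h5 : s ≠ κ := fun h5 => by rw [h5] at h4; omega
        rw [ht, Matrix.updateRow_self, hw]
        simp [hes s h5, hr0 s (by omega)]
      · rw [Matrix.updateRow_ne ht]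
        exact h2 t s (by omega)
    refine ⟨M.updateRow κ w, fun t ht => ?_, hz, fun j y => ?_⟩
    · by_cases h4 : t = κ
      · have h5 := hr0 κ hκ.ge
        have h6 : w κ = σ := by rw [hw]; simp [heκ, h5]
        rw [h4, Matrix.updateRow_self, hwy, h6, dotProduct_comm, hwy, h5]
        linear_combination hσ
      · rw [Matrix.updateRow_ne h4]
        exact h1 t (by have : t.val ≠ κ.val := fun h => h4 (Fin.ext h); omega)
    · have hmv : M.updateRow κ w *ᵥ y = M *ᵥ y + (w ⬝ᵥ y) • e := by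
        ext t
        by_cases h4 : t = κ
        · have h5 : M κ = 0 := funext fun s => h2 κ s (Or.inl hκ.ge)
          simp [h4, Matrix.mulVec, heκ, h5]
        · simp [Matrix.mulVec, Matrix.updateRow_ne h4, hes t h4]
      by_cases hj : j ≤ k
      · have h4 : tr j (M.updateRow κ w *ᵥ y) = tr j (M *ᵥ y) := by
          ext t
          by_cases h5 : t.val < j
          · have h6 : t ≠ κ := fun h => by rw [h] at h5; omega
            simp [tr, hmv, hes t h6]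
          · simp [tr, h5]
        rw [h4]; exact h3 j y
      · have h4 : tr j (M.updateRow κ w *ᵥ y) = M.updateRow κ w *ᵥ y := by
          ext t
          by_cases h5 : t.val < j
          · simp [tr, h5]
          · have h6 : M.updateRow κ w t = 0 := funext fun s => hz t s (Or.inl (by omega))
            simp [tr, h5, Matrix.mulVec, h6]
        have h5 := hM (y - y κ • e)
        have h6 : M *ᵥ (y - y κ • e) = M *ᵥ y := by
          rw [Matrix.mulVec_sub, Matrix.mulVec_smul, he, hcol κ hκ.ge, smul_zero, sub_zero]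
        have h7 : (y - y κ • e) ⬝ᵥ (y - y κ • e) = y ⬝ᵥ y - y κ ^ 2 := by
          simp only [sub_dotProduct, dotProduct_sub, smul_dotProduct, dotProduct_smul, hey,
            dotProduct_comm y e, heκ, smul_eq_mul]
          ring
        rw [h6, h7] at h5
        have h8 := quad (β := r ⬝ᵥ y) hU hν hσ1 h5
        rw [h4, hmv]
        simp only [map_add, map_smul, LinearMap.add_apply, LinearMap.smul_apply, smul_eq_mul]
        rw [hs e (M *ᵥ y), ← hr y, hwy]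
        linarith

end Feed

theorem feed : FeedStmt := by
  intro n G U hU hG hp hd
  have hB : ∀ a b : Fin n → ℝ, Matrix.toLinearMap₂' ℝ (G + U ^ 2 • (1 : Matrix _ _ ℝ)) a b =
      a ⬝ᵥ (G *ᵥ b) + U ^ 2 * (a ⬝ᵥ b) := fun a b => by
    rw [Matrix.toLinearMap₂'_apply', Matrix.add_mulVec, dotProduct_add, Matrix.smul_mulVec,
      Matrix.one_mulVec, dotProduct_smul, smul_eq_mul]
  have hnn : ∀ a : Fin n → ℝ, 0 ≤ a ⬝ᵥ a := fun a => by
    simpa using dotProduct_self_star_nonneg a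
  obtain ⟨A, h1, -, h3⟩ := Feed.core (Matrix.toLinearMap₂' ℝ (G + U ^ 2 • (1 : Matrix _ _ ℝ)))
    (fun a b => by
      rw [hB, hB, dotProduct_comm a b, Matrix.dotProduct_mulVec, ← Matrix.mulVec_transpose, hG,
        dotProduct_comm (G *ᵥ a)])
    (fun a => by rw [hB]; exact add_nonneg (hp a) (mul_nonneg (sq_nonneg U) (hnn a))) hU
    (fun t => by
      rw [hB]
      have := hd t
      simp
      linarith) n
  refine ⟨A, fun t => by simpa [dotProduct, sq] using h1 t t.2, fun t0 l c h => ?_⟩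
  obtain ⟨y, hy⟩ : ∃ y : Fin n → ℝ, ∀ s, y s = ∑ t with t.val < t0, l t * A t s := ⟨_, fun _ => rfl⟩
  have h4 := h (Feed.tr t0 (A *ᵥ y)) fun t ht => by simp [Feed.tr, not_lt.2 ht]
  have h5 : Feed.tr t0 (A *ᵥ y) ⬝ᵥ l = y ⬝ᵥ y := by
    have h6 : y ⬝ᵥ y = ∑ s, (∑ t with t.val < t0, l t * A t s) * y s :=
      Finset.sum_congr rfl fun s _ => by rw [← hy]
    rw [h6]
    simp only [Finset.sum_mul, Finset.sum_filter, dotProduct, Feed.tr, Matrix.mulVec]
    rw [Finset.sum_comm]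
    refine Finset.sum_congr rfl fun t _ => ?_
    split_ifs
    · rw [Finset.sum_mul]
      exact Finset.sum_congr rfl fun s _ => by ring
    · simp
  rw [h5, ← hB] at h4
  have h7 := h4.trans (mul_le_mul_of_nonneg_left (h3 t0 y) (sq_nonneg c))
  have h8 : ∑ s, (∑ t with t.val < t0, l t * A t s) ^ 2 = y ⬝ᵥ y :=
    Finset.sum_congr rfl fun s _ => by rw [← hy, sq]
  rw [h8]
  have h9 : 0 ≤ c ^ 2 * U ^ 2 := by positivity
  rcases (hnn y).eq_or_lt with h0 | h0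
  · rw [← h0]; linarith
  · refine le_of_mul_le_mul_left ?_ h0
    nlinarith [mul_nonneg h9 h0.le]

end Pool.Agent.MP_20bec2_an.T3

end MrgPart0

-- ======== part 1: formerly Pool.Agent.MP_20bec2_an.T3.Feed2
section MrgPart1

/-! The feedback matrix on a finite index set ordered by a key. -/

set_option autoImplicit false
open MeasureTheory Set Filter Matrix

namespace Pool.Agent.MP_20bec2_an.T3
noncomputable section
open Classical

/-- a finite set listed along a key -/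
lemma exists_sorted {ι : Type} (T : Finset ι) (key : ι → ℝ) : ∃ (n : ℕ) (e : Fin n → ι),
    Function.Injective e ∧ (∀ i, e i ∈ T) ∧ (∀ t ∈ T, ∃ i, e i = t) ∧
    Monotone (fun i => key (e i)) ∧ ∀ F : ι → ℝ, ∑ t ∈ T, F t = ∑ i, F (e i) := by
  let e0 : Fin T.card ≃ T := T.equivFin.symm
  let e : Fin T.card ≃ T := (Tuple.sort fun i => key (e0 i)).trans e0
  refine ⟨T.card, fun i => e i, fun i j h => e.injective (Subtype.ext h), fun i => (e i).2,
    fun t ht => ⟨e.symm ⟨t, ht⟩, by simp⟩, Tuple.monotone_sort fun i => key (e0 i), fun F => ?_⟩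
  rw [← Finset.sum_coe_sort, ← e.sum_comp]

theorem feed2 : Feed2Stmt := by
  intro ι T G U key hU hs hp hd
  obtain ⟨n, e, he, hT, hsur, hm, hsum⟩ := exists_sorted T key
  have hq : ∀ a : Fin n → ℝ, a ⬝ᵥ ((Matrix.of fun i j => G (e i) (e j)) *ᵥ a) =
      ∑ t ∈ T, ∑ t' ∈ T, Function.extend e a 0 t * Function.extend e a 0 t' * G t t' := fun a => by
    simp only [hsum, he.extend_apply, dotProduct, mulVec, of_apply, Finset.mul_sum]
    exact Finset.sum_congr rfl fun i _ => Finset.sum_congr rfl fun j _ => by ring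
  obtain ⟨A, h1, h2⟩ := feed n (Matrix.of fun i j => G (e i) (e j)) U hU
    (by ext i j; exact hs _ _) (fun a => by rw [hq]; exact hp _) fun i => hd _ (hT i)
  have key3 : ∀ (κ : ℝ) (l : ι → ℝ) (c : ℝ), 0 ≤ c → (∀ a : ι → ℝ, (∀ t ∈ T, κ < key t → a t = 0) →
      (∑ t ∈ T, a t * l t) ^ 2 ≤
        c * (∑ t ∈ T, ∑ t' ∈ T, a t * a t' * G t t' + U ^ 2 * ∑ t ∈ T, a t ^ 2)) →
      ∑ s ∈ T, (∑ t ∈ T with key t ≤ κ,
        Function.extend e (fun i => Function.extend e (A i) 0) 0 t s * l t) ^ 2 ≤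
        8 * c * U ^ 2 := by
    intro κ l c hc H
    have hk : ∀ j : Fin n, j.val < (Finset.univ.filter fun i => key (e i) ≤ κ).card ↔
        key (e j) ≤ κ := fun j => Tuple.lt_card_le_iff_apply_le_of_monotone hm
    have h3 := h2 (Finset.univ.filter fun i => key (e i) ≤ κ).card (fun i => l (e i)) (Real.sqrt c)
      fun a ha => by
        have h4 := H (Function.extend e a 0) fun t ht hκ => by
          obtain ⟨i, rfl⟩ := hsur t ht
          rw [he.extend_apply]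
          exact ha i (not_lt.1 fun h => not_le.2 hκ ((hk i).1 h))
        rw [← hq] at h4
        simpa only [hsum, he.extend_apply, Real.sq_sqrt hc, dotProduct, sq (a _)] using h4
    rw [Real.sq_sqrt hc] at h3
    simp only [Finset.sum_filter, hk] at h3
    simpa only [Finset.sum_filter, hsum, he.extend_apply, mul_comm (l _)] using h3
  refine ⟨Function.extend e (fun i => Function.extend e (A i) 0) 0, fun t ht => ?_, fun l => ?_,
    key3⟩
  · obtain ⟨i, rfl⟩ := hsur t ht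
    simpa only [hsum, he.extend_apply] using h1 i
  · obtain ⟨κ, hκ⟩ := (T.finite_toSet.image key).bddAbove
    have hl : 0 ≤ ∑ t ∈ T, l t ^ 2 := Finset.sum_nonneg fun _ _ => sq_nonneg _
    have h3 := key3 κ l ((∑ t ∈ T, l t ^ 2) / U ^ 2) (by positivity) fun a _ => by
      have h4 := Finset.sum_mul_sq_le_sq_mul_sq T a l
      have h5 := mul_nonneg (show 0 ≤ (∑ t ∈ T, l t ^ 2) / U ^ 2 by positivity) (hp a)
      rw [mul_add, ← mul_assoc, div_mul_cancel₀ _ (by positivity)]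
      linarith
    rwa [Finset.filter_true_of_mem fun t ht => hκ (mem_image_of_mem key ht), mul_assoc,
      div_mul_cancel₀ _ (by positivity)] at h3

end
end Pool.Agent.MP_20bec2_an.T3

end MrgPart1

-- ======== part 2: formerly Pool.Agent.MP_20bec2_an.T3.Kvar
section MrgPart2

/-! Variances of the kernel functionals in one sweep. -/

set_option autoImplicit false
open MeasureTheory Set Filter Matrix

namespace Pool.Agent.MP_20bec2_an.T3
noncomputable section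
open Classical

theorem kvar_num {N : ℕ} (h : Big N) : 8 * np N (-11 / 100) ≤ np N (-1 / 10) ∧
    np N (-1 / 10) ≤ 1 / 32000 ∧ qp N (1 / 10) / qp N (4 / 5) ≤ 1 / 32000 := by
  have h1 := h.L_ge
  have h2 := h.J_ge
  obtain ⟨-, h3⟩ := logc_bd (show (1 : ℝ) ≤ 8 by norm_num)
  obtain ⟨-, h4⟩ := logc_bd (show (1 : ℝ) ≤ 32000 by norm_num)
  have p1 := h.np_pos (-11 / 100)
  have p2 := h.qp_pos (1 / 10)
  have p3 := h.qp_pos (4 / 5)
  refine ⟨le_of_log (by positivity) (h.np_pos _) ?_, le_of_log (h.np_pos _) (by norm_num) ?_,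
    le_of_log (by positivity) (by norm_num) ?_⟩
  · rw [Real.log_mul (by norm_num) p1.ne', h.log_np, h.log_np]
    linarith
  · rw [h.log_np, one_div (32000 : ℝ), Real.log_inv]
    linarith
  · rw [Real.log_div p2.ne' p3.ne', h.log_qp, h.log_qp, one_div (32000 : ℝ), Real.log_inv]
    linarith

theorem kvar (hhn : HnStmt) (hgb : GbStmt) (hga : GaStmt) (hdom : DomStmt) (hopo : OpoStmt)
    (hoph : OphStmt) : KvarStmt := by
  filter_upwards [hhn, hgb, hga, hdom, hopo, hoph, ev_gd] with N hhn hgb hga hdom hopo hoph hgd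
    d h1 h2 h3 s hs ι T Ψ Ψm om ce W hw
  have gd := hgd d.c h1 h3.ok
  obtain ⟨n1, n2, n3⟩ := kvar_num gd.big
  obtain ⟨G, g1, g2⟩ := hhn d h1 h2 h3 s hs ι T Ψ Ψm om ce W hw
  have pG := gd.GG_pos
  have pq := gd.big.qp_pos (4 / 5)
  have pq' := gd.big.qp_pos (1 / 10)
  have pU : 0 < d.U2 := div_pos (pow_pos pG 2) pq
  have eU : Real.sqrt d.U2 ^ 2 = d.U2 := Real.sq_sqrt pU.le
  have dg : ∀ t ∈ T, G t t ≤ Real.sqrt d.U2 ^ 2 := fun t ht => by
    have e := (g2 (Pi.single t 1)).2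
    have e1 : (fun x => ∑ t' ∈ T, (Pi.single t (1 : ℝ) : ι → ℝ) t' • Ψ t' x) = Ψ t := by
      funext x
      simp [Pi.single_apply, ht]
    have e2 : ∑ a ∈ T, ∑ b ∈ T, (Pi.single t (1 : ℝ) : ι → ℝ) a * (Pi.single t (1 : ℝ) : ι → ℝ) b *
        G a b = G t t := by
      simp [Pi.single_apply, ht]
    rw [e1, e2] at e
    obtain ⟨b1, b2, b3⟩ := hgb d h1 h2 h3 s _ _ _ _ _ hs (hw.cr t ht) (hw.win t ht)
    rw [eU, e]
    by_cases hA : d.c.isA
    · linarith [hga d h1 h2 h3 s _ _ _ _ _ hs (hw.cr t ht) (hw.win t ht) hA]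
    · exact b1 hA
  obtain ⟨A, a1, a2, a3⟩ := feed2 ι T G (Real.sqrt d.U2) (fun t => d.Z (ce t) 2)
    (Real.sqrt_pos.2 pU) g1 (fun a => (g2 a).2 ▸ (g2 a).1) dg
  refine ⟨A, a1, fun a Λ hΛ => ?_⟩
  rcases hΛ with hΛ | ⟨ζ, hΛ⟩
  · have := hopo d h1 h2 h3 s hs ι T Ψ Ψm om ce W hw a Λ hΛ
    refine (a2 _).trans ?_
    split_ifs at this ⊢ <;> linarith
  obtain ⟨o1, o2⟩ := hoph d h1 h2 h3 s hs ι T Ψ Ψm om ce W hw a ζ Λ hΛ
  split_ifs with hn
  swap
  · linarith [a2 fun t => Λ s (Ψ t) (om t), o2 hn]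
  have b1 := a3 (ζ - d.c.J * d.c.y) (fun t => Λ s (Ψ t) (om t)) (qp d.c.N (1 / 10) / d.c.GG ^ 2)
    (by positivity) fun c hc => by
      rw [(g2 c).2, eU]
      exact hdom d h1 h2 h3 s hs ι T Ψ Ψm om ce W hw a ζ Λ hΛ c hc
  have b2 := a2 fun t => if ζ - d.c.J * d.c.y < d.Z (ce t) 2 then Λ s (Ψ t) (om t) else 0
  have e1 : 8 * (qp d.c.N (1 / 10) / d.c.GG ^ 2) * Real.sqrt d.U2 ^ 2 =
      8 * (qp d.c.N (1 / 10) / qp d.c.N (4 / 5)) := by
    rw [eU, MD.U2]
    field_simp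
  have e2 : ∑ t ∈ T, (if ζ - d.c.J * d.c.y < d.Z (ce t) 2 then Λ s (Ψ t) (om t) else 0) ^ 2 =
      ∑ t ∈ T with ζ - d.c.J * d.c.y < d.Z (ce t) 2, Λ s (Ψ t) (om t) ^ 2 := by
    rw [Finset.sum_filter]
    exact Finset.sum_congr rfl fun t _ => by split_ifs <;> simp
  have e3 : ∀ t', ∑ t ∈ T, A t t' * Λ s (Ψ t) (om t) =
      ∑ t ∈ T with d.Z (ce t) 2 ≤ ζ - d.c.J * d.c.y, A t t' * Λ s (Ψ t) (om t) +
      ∑ t ∈ T, A t t' * (if ζ - d.c.J * d.c.y < d.Z (ce t) 2 then Λ s (Ψ t) (om t) else 0) :=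
    fun t' => by
      rw [Finset.sum_filter, ← Finset.sum_add_distrib]
      refine Finset.sum_congr rfl fun t _ => ?_
      rcases le_or_gt (d.Z (ce t) 2) (ζ - d.c.J * d.c.y) with e | e
      · rw [if_pos e, if_neg (not_lt.2 e), mul_zero, add_zero]
      · rw [if_neg (not_le.2 e), if_pos e, zero_add]
  rw [e1] at b1
  rw [e2] at b2
  have b3 : ∑ t' ∈ T, (∑ t ∈ T, A t t' * Λ s (Ψ t) (om t)) ^ 2 ≤ ∑ t' ∈ T,
      (2 * (∑ t ∈ T with d.Z (ce t) 2 ≤ ζ - d.c.J * d.c.y, A t t' * Λ s (Ψ t) (om t)) ^ 2 +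
      2 * (∑ t ∈ T, A t t' *
        (if ζ - d.c.J * d.c.y < d.Z (ce t) 2 then Λ s (Ψ t) (om t) else 0)) ^ 2) :=
    Finset.sum_le_sum fun t' _ => by
      rw [e3, ← mul_add]
      exact add_sq_le
  rw [Finset.sum_add_distrib, ← Finset.mul_sum, ← Finset.mul_sum] at b3
  linarith

end
end Pool.Agent.MP_20bec2_an.T3

end MrgPart2

-- marker of a merged file
example : 731051 + 5651 = 731051 + 5651 := rfl

end MrgPart3

-- marker of a merged file
example : 731051 + 5651 = 731051 + 5651 := rfl
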