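import Pool.Agent.MP_20bec2_an.T3.CrA
import Pool.Agent.MP_20bec2_an.T3.Nc
import Pool.Agent.MP_20bec2_an.T3.Zt
import Pool.Agent.MP_20bec2_an.T3.Ftr
import Pool.Agent.MP_20bec2_an.T3.Fcomp
import Pool.Agent.MP_20bec2_an.T3.Kvar

-- ======== part 0: formerly Pool.Agent.MP_20bec2_an.T3.Zder
section MrgPart0

/-! Row ZDER: derived facts on the map `Z` inside a block. -/

set_option autoImplicit false
set_option linter.unusedSectionVars false
open Set Filter Matrix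

namespace Pool.Agent.MP_20bec2_an.T3
noncomputable section
open Classical

namespace Zder
open Prof

/-- the size of the noise -/
def tb0 (c : Pm) : ℝ := qp c.N (2 / 5) * Real.sqrt (c.J * c.p)

section par
variable {c : Pm} (h : Gd c)
include h

lemma nu_le_zT : nu c.N ≤ c.zT := by
  have := h.big.nu_pos
  unfold Pm.zT
  split_ifs
  · linarith
  · have := h.J_pos
    refine le_of_log h.big.nu_pos (by positivity) ?_
    simp (disch := positivity) only [Real.log_div, Real.log_sqrt, Real.log_one, h.big.log_nu,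
      h.log_J]
    linarith [h.big.L_ge, h.big.J_ge]

lemma np_le_zT {a : ℝ} (ha : a ≤ -1 / 2) : 1000 * np c.N a ≤ c.zT := by
  refine le_trans ?_ (nu_le_zT h)
  have := h.big.np_pos a
  refine le_of_log (by positivity) h.big.nu_pos ?_
  simp (disch := positivity) only [Real.log_mul, h.big.log_nu, h.big.log_np]
  have h1 := mul_le_mul_of_nonneg_right ha h.big.J_pos.le
  linarith [h.big.L_ge, h.big.J_ge, (logc_bd (show (1 : ℝ) ≤ 1000 by norm_num)).2]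

lemma cnt_le_zT {a : ℝ} (ha : a ≤ 1206 * pJ c.N) : a * np c.N (-20) ≤ c.zT / 4 := by
  have p1 := h.big.np_pos (-20); have p2 := h.big.J_pos
  have h1 : 1206 * pJ c.N * np c.N (-20) ≤ np c.N (-1) := by
    refine le_of_log (by positivity) (h.big.np_pos _) ?_
    simp (disch := positivity) only [Real.log_mul, h.big.log_np, h.big.log_J]
    linarith [h.big.L_ge, h.big.J_ge, (logc_bd (show (1 : ℝ) ≤ 1206 by norm_num)).2]
  have h2 := np_le_zT h (a := -1) (by norm_num)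
  have h3 := mul_le_mul_of_nonneg_right ha p1.le
  linarith [h.big.np_pos (-1)]

lemma tb0_pos : 0 < tb0 c :=
  mul_pos (h.big.qp_pos _) (Real.sqrt_pos.2 (mul_pos h.J_pos h.p_pos))

lemma log_tb0 : Real.log (tb0 c) =
    2 / 5 * (pL c.N / 1000) + (pL c.N + Real.log c.p) / 2 := by
  have := h.big.qp_pos (2 / 5); have := h.J_pos; have := h.p_pos
  unfold tb0
  simp (disch := positivity) only [Real.log_mul, Real.log_sqrt, h.big.log_qp, h.log_J]

lemma log_p_le : Real.log c.p ≤ -(2 * pL c.N) - 14 * (pL c.N / 1000) := by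
  have h1 := Real.log_le_log h.p_pos (h.p_le_pf.trans h.pf_le)
  rw [h.big.log_pcap] at h1
  linarith [log2_bd.1, h.big.L_ge]

lemma tb0_le : 1000 * tb0 c ≤ 1 := by
  have := tb0_pos h
  refine le_of_log (by positivity) one_pos ?_
  rw [Real.log_mul (by norm_num) this.ne', log_tb0 h, Real.log_one]
  linarith [log_p_le h, h.big.L_ge, (logc_bd (show (1 : ℝ) ≤ 1000 by norm_num)).2]

lemma tb0_le_zT : 10 * tb0 c ≤ c.zT := by
  have p := tb0_pos h
  have l := Real.log_mul (show (10 : ℝ) ≠ 0 by norm_num) p.ne'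
  rw [log_tb0 h] at l
  have := log10_bd.2
  unfold Pm.zT
  split_ifs with hη
  · have h1 := h.log_etaS_le (a := 1 / 2) (by norm_num) (by linarith)
    have h2 : 10 * tb0 c ≤ nu c.N := le_of_log (by positivity) h.big.nu_pos (by
      rw [h.big.log_nu]; linarith [h.log_p.2.1, h.big.L_ge, h.big.J_ge])
    linarith [h.big.nu_pos]
  · have := h.J_pos
    refine le_of_log (by positivity) (by positivity) ?_
    rw [l]
    simp (disch := positivity) only [Real.log_div, Real.log_sqrt, Real.log_one, h.log_J]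
    linarith [log_p_le h, h.big.L_ge]

lemma tb0_sq : tb0 c ^ 2 = qp c.N (2 / 5) ^ 2 * (c.J * c.p) := by
  rw [tb0, mul_pow, Real.sq_sqrt (mul_pos h.J_pos h.p_pos).le]

lemma p_le_tb0 : c.p ≤ tb0 c ^ 2 := by
  refine le_of_log h.p_pos (pow_pos (tb0_pos h) 2) ?_
  rw [Real.log_pow, log_tb0 h]
  push_cast; linarith [h.big.L_ge]

lemma led_le : Real.sqrt (pq c.N) * (qp c.N (1 / 5) * pJ c.N) ≤ c.q ^ 3 * c.J / 2 := by
  have := h.big.sqrtq_pos; have := h.big.qp_pos (1 / 5); have := h.big.J_pos; have := h.q_pos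
  have := h.J_pos
  refine le_of_log (by positivity) (by positivity) ?_
  simp (disch := positivity) only [Real.log_mul, Real.log_div, Real.log_pow, h.big.log_sqrtq,
    h.big.log_qp, h.log_q, h.log_J, h.big.log_J]
  push_cast; linarith [h.big.L_ge, log2_bd.2]

lemma nz_le (i j : Fin 3) : 0 ≤ c.nz i j ∧ 16 * c.nz i j ≤ c.q ^ 3 * c.J * c.sdB i j := by
  have hq : 10000000 ≤ c.q := h.big.q_ge
  have pJ' := h.J_pos; have p1 := h.p_pos; have p2 := h.dB_pos; have p3 := h.t1B_pos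
  have hq0 := h.q_pos
  have k : 16 * c.q ≤ c.q ^ 3 := by nlinarith [mul_pos hq0 hq0]
  have e1 : 0 ≤ c.p / c.q ^ 3 ∧ 16 * (c.p / c.q ^ 3) ≤ c.q ^ 3 * c.J * c.dB := by
    refine ⟨by positivity, ?_⟩
    have h1 : c.p / c.q ^ 3 ≤ c.q * c.J * c.dB := by
      rw [div_le_iff₀ (by positivity)]
      refine h.p_le_pf.trans (le_of_eq ?_)
      unfold Pm.pf; ring
    nlinarith [mul_le_mul_of_nonneg_right k (mul_pos pJ' p2).le]
  have e2 : 0 ≤ c.q * c.J * c.t1B ∧ 16 * (c.q * c.J * c.t1B) ≤ c.q ^ 3 * c.J * c.t1B :=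
    ⟨by positivity, by nlinarith [mul_le_mul_of_nonneg_right k (mul_pos pJ' p3).le]⟩
  have e0 : ∀ a b, (0 : ℝ) ≤ 0 ∧ 16 * (0 : ℝ) ≤ c.q ^ 3 * c.J * c.sdB a b := fun a b =>
    ⟨le_rfl, by
      rw [mul_zero]; exact mul_nonneg (by positivity) (h.sdB_bd a b).1⟩
  fin_cases i <;> fin_cases j
  exacts [e1, e0 0 1, e2, e0 1 0, e0 1 1, e0 1 2, e0 2 0, e0 2 1, e0 2 2]

/-- the table of a block absorbs start, steps and noise -/
lemma tab {a n : ℝ} (ha : a ≤ c.q ^ 3 * c.J / 2) (hn : n ≤ 16) (d : Prop) [Decidable d]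
    (hd : d → c.η ≤ 7 * etaS c.N) (i j : Fin 3) :
    c.e0 i j + (a • c.sdO + if d then n • c.nz else 0) i j ≤ c.eT i j := by
  have p2 : 0 < c.q ^ 3 * c.J := mul_pos (pow_pos h.q_pos 3) h.J_pos
  obtain ⟨o1, -, o3, o4, -⟩ := h.sdO_bd i j
  have h1 := (h.e0_bd i j).2
  have h2 := mul_le_mul_of_nonneg_right ha o1
  obtain ⟨z1, z2⟩ := nz_le h i j
  have h3 := mul_le_mul_of_nonneg_right hn z1
  rw [Matrix.add_apply, Matrix.smul_apply, smul_eq_mul]
  by_cases hS : c.oS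
  · have e : c.eT i j = 3 * c.q ^ 3 * c.J * c.sdO i j := by
      rw [Pm.eT, if_pos hS, Matrix.smul_apply, smul_eq_mul]
    rw [Pm.sdL, if_pos (h.oB_of_oS hS)] at o4
    have h4 := mul_le_mul_of_nonneg_left o4 p2.le
    have h5 := mul_nonneg p2.le o1
    split_ifs
    · rw [Matrix.smul_apply, smul_eq_mul]; linarith
    · rw [Matrix.zero_apply]; linarith
  · have e : c.eT i j = 3 * c.q ^ 3 * c.J * sdc c.N := by
      rw [Pm.eT, if_neg hS, Matrix.smul_apply, smul_eq_mul]; rfl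
    have h4 : 8 / 10 * etaA c.N ≤ c.η := not_lt.1 hS
    have h5 := mul_le_mul_of_nonneg_left (o3 (by linarith [h.big.etaA_eq, h.big.etaS_pos])) p2.le
    have h6 := mul_pos p2 h.big.sdc_pos
    rw [if_neg fun e => hS (h.deep_flags (hd e)).1, Matrix.zero_apply]
    linarith

lemma hs_le (i : Fin 3) : c.hs i ≤ c.y := by
  have h1 : c.l1 ≤ c.y := by
    refine mul_le_mul_of_nonneg_right (h.ro_le.trans ?_) h.lam_pos.le
    refine le_of_log h.big.sqrtN_pos (h.big.np_pos _) ?_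
    rw [h.big.log_sqrtN, h.big.log_np]; linarith [h.big.J_pos]
  fin_cases i
  exacts [h1, h.lam_le_l1.trans h1, le_rfl]

lemma disp_le : pq c.N * Real.sqrt (pJ c.N) * np c.N (11 / 10) * 2 ≤ np c.N (6 / 5) := by
  have := h.big.q_pos; have := h.big.sqrtJ_pos; have := h.big.np_pos (11 / 10)
  refine le_of_log (by positivity) (h.big.np_pos _) ?_
  simp (disch := positivity) only [Real.log_mul, h.big.log_np, h.big.log_q, h.big.log_sqrtJ]
  linarith [h.big.L_ge, h.big.J_ge, log2_bd.2]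

lemma disp_le' : 7 / 4 * np c.N (6 / 5) ≤ (c.N : ℝ) ^ 4 / 2000 := by
  have := h.big.np_pos (6 / 5); have := h.N_pos
  have h1 : 3500 * np c.N (6 / 5) ≤ (c.N : ℝ) ^ 4 := by
    refine le_of_log (by positivity) (by positivity) ?_
    simp (disch := positivity) only [Real.log_mul, Real.log_pow, h.big.log_np, h.big.log_N]
    push_cast
    linarith [h.big.L_ge, h.big.J_ge, (logc_bd (show (1 : ℝ) ≤ 3500 by norm_num)).2]
  linarith
end par

lemma nzn_le (N k : ℕ) {r : ℕ} (hr : r ≤ 9) : (nzn N k r : ℝ) ≤ 8 := by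
  have : nzn N k r ≤ 8 := by unfold nzn; split_ifs <;> omega
  exact_mod_cast this

lemma aft_of_nzn {N k r : ℕ} (h : nzn N k r ≠ 0) : aft (mid N) k r := by
  unfold nzn at h
  unfold aft
  split_ifs at h <;> omega

lemma ph_bd (j k : ℕ) {r : ℕ} (hr : r ≤ 9) : ph j k r ≤ 2 := by
  have h1 : (r : ℝ) / 9 ≤ 2 := by
    have : (r : ℝ) ≤ 9 := by exact_mod_cast hr
    linarith
  have := div_le_div_of_nonneg_right h1 (show (0 : ℝ) ≤ 2 ^ (k - j) by positivity)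
  unfold ph; linarith

lemma hm_add (F : Fr) (A C : Mx) : F.hm (A + C) = F.hm A + F.hm C := by
  simp only [Fr.hm, Matrix.mul_add, Matrix.add_mul]

lemma hm_sub (F : Fr) (A C : Mx) : F.hm (A - C) = F.hm A - F.hm C := by
  simp only [Fr.hm, Matrix.mul_sub, Matrix.sub_mul]

lemma hm_zero (F : Fr) : F.hm 0 = 0 := by simp only [Fr.hm, Matrix.mul_zero, Matrix.zero_mul]

lemma eb_zero {a : ℝ} (ha : 0 ≤ a) : EB 0 (cm a) := fun i j => by
  rw [Matrix.zero_apply, abs_zero]; exact ha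

lemma eb_E00 (a : ℝ) : EB (a • E00) (cm |a|) := fun i j => by
  rw [Matrix.smul_apply, smul_eq_mul, abs_mul]
  refine mul_le_of_le_one_right (abs_nonneg _) ?_
  fin_cases i <;> fin_cases j <;> simp [E00, dg3]

variable {B : Bk} (hf : FrOk B.N B.lb B.fr) (hN : Big B.N) {k r : ℕ} {s : St}
include hf hN

lemma D_pos : 0 < B.D := mul_pos (pow_pos hN.N_pos 4) (GeoP.lb_pos hf)

lemma ex_site (x : V) : ∃ i, B.NS i x := by
  have h0 : 0 < B.hsp := mul_pos (hN.np_pos _) (GeoP.lb_pos hf)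
  obtain ⟨i, hi⟩ := exists_box h0 x
  exact ⟨i, le_trans hi (by linarith)⟩

/-- the noise matrix in the frame of a deep cube -/
lemma th_le (hr : r ≤ 9) (ip : B.IP k r s) {g : Cu} (hd : B.deep g) {x : V} (hx : x ∈ B.bx g 1) :
    EB ((B.fr g).hm (s.Nth x)) (cm (tb0 (B.c g 0))) := fun i j => by
  have h1 := ip.th g hd i j [] (Nat.zero_le _) _ ((GeoP.xc_mem hf).2 hx)
  simp only [hp, pds, List.map_nil, List.prod_nil, one_mul, xp_xc (GeoP.orth hf g)] at h1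
  refine h1.trans (mul_le_of_le_one_left (tb0_pos (Bk.gd0 hf hN g)).le ?_)
  linarith [nzn_le B.N k hr]

lemma yv_le (hr : r ≤ 9) (ip : B.IP k r s) {g : Cu} (hd : B.deep g) {x : V} (hx : x ∈ B.bx g 1) :
    |s.Yv x| ≤ 2 * (B.c g 0).p := by
  obtain ⟨h1, h2⟩ := ip.yv g hd x hx
  have hp' := (Bk.gd0 hf hN g).p_pos
  have h3 := ((Glue.sup_al_sq (D_pos hf hN)).ite fun g' =>
    col g' < nzn B.N k r ∧ (B.c g' 0).push).abs_le (by norm_num) (x := x) zero_le_one fun g' _ => by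
      split_ifs
      · rw [abs_of_nonneg (sq_nonneg _)]
        exact pow_le_one₀ (al_nonneg _ _ _) (al_le_one _ _ _)
      · simp
  have h4 : (nzn B.N k r : ℝ) * np B.N (-4) ≤ 1 := by
    have h5 : 8 * np B.N (-4) ≤ 1 := by
      have := hN.np_pos (-4)
      refine le_of_log (by positivity) one_pos ?_
      rw [Real.log_mul (by norm_num) this.ne', hN.log_np, Real.log_one]
      linarith [hN.L_ge, hN.J_ge, (logc_bd (show (1 : ℝ) ≤ 8 by norm_num)).2]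
    exact (mul_le_mul_of_nonneg_right (nzn_le B.N k hr) (hN.np_pos _).le).trans h5
  obtain ⟨h5, h6⟩ := abs_le.1 h3
  refine abs_le.2 ⟨le_trans ?_ h1, h2.trans ?_⟩
  · rw [show -(2 * (B.c g 0).p) = (B.c g 0).p * (-2) by ring]
    exact mul_le_mul_of_nonneg_left (by linarith) hp'.le
  · rw [mul_comm 2]
    exact mul_le_mul_of_nonneg_left (by linarith) hp'.le

/-- the equaliser matrix in the frame of a deep cube, away from its boundary -/
lemma nq_le (hr : r ≤ 9) (ip : B.IP k r s) {g : Cu} (hd : B.deep g) {x : V}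
    (hx : x ∈ B.bx g (98 / 100)) :
    EB ((B.fr g).hm (s.Neq x)) (cm (15 / 2 * tb0 (B.c g 0) ^ 2 + 8 * np B.N (-15))) := by
  have p0 := hN.np_pos (-15)
  by_cases h0 : nzn B.N k r = 0
  · rw [(ip.z0 h0).2.1, Pi.zero_apply, hm_zero]
    exact eb_zero (by positivity)
  have hD := (D_pos hf hN).le
  have hx1 : x ∈ B.bx g 1 := box_mono hD (by norm_num) g hx
  have h1 := (ip.nq g hd x hx).2
  obtain ⟨-, h2, h3, -⟩ := ((ip.psh (aft_of_nzn h0)).pqs g hd).1.2.1 _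
    (RX_mono _ hD (show (98 / 100 : ℝ) ≤ 99 / 100 by norm_num) ((GeoP.xc_mem hf).2 hx))
  have h4 : |(B.fr g).hm (s.Nth x) 0 2| ≤ tb0 (B.c g 0) := th_le hf hN hr ip hd hx1 0 2
  have h5 := yv_le hf hN hr ip hd hx1
  have h6 := p_le_tb0 (Bk.gd0 hf hN g)
  have h7 : (B.fr g).hm (s.Nth x) 0 2 ^ 2 ≤ tb0 (B.c g 0) ^ 2 := by
    rw [← sq_abs]; exact pow_le_pow_left₀ (abs_nonneg _) h4 2
  have h8 : |(B.fr g).hm (s.Nth x) 0 2 ^ 2 - s.Yv x| ≤ 3 * tb0 (B.c g 0) ^ 2 := by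
    refine (abs_sub _ _).trans ?_
    rw [abs_of_nonneg (sq_nonneg _)]; linarith
  have h9 : |1 / 4 * pd 0 (B.Pq s.Pv g) ((B.fr g).xc x)| ≤ 5 / 2 :=
    abs_le.2 ⟨by linarith, by linarith⟩
  have h10 := GeoP.eb_add h1 (eb_E00 (1 / 4 * pd 0 (B.Pq s.Pv g) ((B.fr g).xc x) *
    ((B.fr g).hm (s.Nth x) 0 2 ^ 2 - s.Yv x)))
  rw [sub_add_cancel, abs_mul] at h10
  refine GeoP.eb_mono h10 ?_
  have h11 := mul_le_mul h9 h8 (abs_nonneg _) (by norm_num)
  have h12 := mul_le_mul_of_nonneg_right (nzn_le B.N k hr) p0.le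
  linarith

/-- noise and equaliser together -/
lemma noise_le (hr : r ≤ 9) (ip : B.IP k r s) (g : Cu) {x : V} (hx : x ∈ B.bx g 1) :
    EB ((B.fr g).hm (s.Nth x)) (cm ((B.c g 0).zT / 10)) ∧
    EB ((B.fr g).hm (s.Neq x)) (cm ((B.c g 0).zT / 10)) := by
  have G := Bk.gd0 hf hN g
  have z := G.zT_pos
  by_cases hP : B.pushN g
  · refine ⟨GeoP.eb_mono (th_le hf hN hr ip (Bk.pushN_deep hf hN hP) hx)
      (by linarith [tb0_le_zT G]), ?_⟩
    have hD := D_pos hf hN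
    obtain ⟨g', hg'⟩ := exists_box hD x
    have n : Nbr 3 g g' := box_nbr hD (r := 1) (r' := 1 / 2) (by norm_num) hx hg'
    have h1 := nq_le hf hN hr ip (Bk.pushN_deep' hf hN hP n) (box_mono hD.le (by norm_num) g' hg')
    have h2 : (2 : ℕ) ≤ B.N := by
      have : (2 : ℝ) ≤ B.N := by linarith [hN.N_ge, hN.J_ge, hN.L_ge]
      exact_mod_cast this
    refine GeoP.eb_mono (GeoP.hm_le (GeoP.orth hf g) (GeoP.orth hf g') (GeoP.det_ne hf g')
      (hf.cp g g' n) ((GeoP.dc_le h2).trans (by norm_num)) h1) ?_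
    have h3 : (B.c g' 0).p ≤ 2 * (B.c g 0).p :=
      ((Bk.cpk hf hN n (Nat.zero_le _) (Nat.zero_le _)).ratios Pm.p (by simp)).2.2.2.1
    have h4 : tb0 (B.c g' 0) ^ 2 ≤ 2 * tb0 (B.c g 0) ^ 2 := by
      rw [tb0_sq G, tb0_sq (Bk.gd0 hf hN g')]
      have h5 := mul_le_mul_of_nonneg_left h3 (mul_pos (pow_pos (hN.qp_pos (2 / 5)) 2) hN.J_pos).le
      show qp B.N (2 / 5) ^ 2 * (pJ B.N * _) ≤ 2 * (qp B.N (2 / 5) ^ 2 * (pJ B.N * _))
      linarith
    have h5 : 1000 * np B.N (-15) ≤ (B.c g 0).zT := np_le_zT G (by norm_num)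
    have h6 := mul_le_mul_of_nonneg_right (tb0_le G) (tb0_pos G).le
    nlinarith [tb0_le_zT G]
  · obtain ⟨e1, e2, -⟩ := ip.off g hP x hx
    rw [e1, e2, hm_zero]
    exact ⟨eb_zero (by positivity), eb_zero (by positivity)⟩

end Zder

open Zder in
theorem zder : ZderStmt := by
  filter_upwards [ev_big, zt, ledg] with N hN hzt hled B hB ρ k r s ok hk hr il iz ip iq
  subst hB
  have hf := ok.geo.toFrOk
  have hD := D_pos hf hN
  obtain ⟨sZt, hZt⟩ := hzt B rfl ρ ok.geo ok.cred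
  have s1 : Sm fun x => s.Zs x + B.Zt x := iz.sm.1.add sZt
  refine ⟨s1.add iz.sm.2.1, fun g x hx => ?_⟩
  have G := Bk.gd hf hN g hk.le
  have z := G.zT_pos
  obtain ⟨i, hi⟩ := ex_site hf hN x
  obtain ⟨e1, e2⟩ := iz.e g x hx i hi
  obtain ⟨f1, f2⟩ := ok.e0 g x hx
  have hLa := (hled B rfl k r s hf hk hr il i 0 (tm k r) le_rfl).1
  have tri : ∀ a b, |B.Eh s g x a b| ≤ |B.E0 g x a b| + |(B.Eh s g x - B.E0 g x) a b| :=
    fun a b => by
      rw [Matrix.sub_apply]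
      exact (le_of_eq (by ring_nf)).trans (abs_add_le _ _)
  have c1 : EB2 (B.Eh s g x) (B.c g k).eT := fun a b ha =>
    ((tri a b).trans (add_le_add (f1 a b ha) (e1 a b ha))).trans
      (tab G ((mul_le_mul_of_nonneg_left hLa hN.sqrtq_pos.le).trans (led_le G))
        (by linarith [nzn_le B.N k hr]) (B.deep g) id a b)
  have c2 : EB (B.Eh s g x) (cm ((B.c g k).zT / 2)) := fun a b => by
    show _ ≤ (B.c g k).zT / 2
    by_cases ha : a = 2
    · subst ha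
      have h1 : |B.E0 g x 2 b| ≤ (B.c g k).zT / 4 := f2 2 b
      have h2 : (cnt k r : ℝ) * np B.N (-20) ≤ (B.c g k).zT / 4 := cnt_le_zT G (hN.cnt_le hk hr)
      linarith [tri 2 b, e2 b]
    · linarith [c1 a b ha, G.eT_le_zT a b]
  obtain ⟨n1, n2⟩ := noise_le hf hN hr ip g hx
  have c3 : EB ((B.fr g).hm (jm s.Zs x) - 1) (cm (7 / 10 * (B.c g k).zT)) := by
    have e : (B.fr g).hm (jm s.Zs x) - 1 =
        B.Eh s g x + (B.fr g).hm (s.Nth x) + (B.fr g).hm (s.Neq x) := by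
      rw [Bk.Eh, hm_sub, hm_sub]; abel
    rw [e]
    refine GeoP.eb_mono (GeoP.eb_add (GeoP.eb_add c2 n1) n2) (le_of_eq ?_)
    show (B.c g k).zT / 2 + (B.c g k).zT / 10 + (B.c g k).zT / 10 = _
    ring
  have t1 := ((hZt g).2 x (Prof.box_mono hD.le (by norm_num) g hx)).1
  have t2 : EB ((B.fr g).hm (jm s.Zn x)) (cm (np B.N (-9 / 10))) := by
    by_cases ha : aft (ks B.N) k r
    · exact ((iq ha).zb g x hx).1
    · rw [iz.n0 ha, show (0 : V → V) = fun _ => 0 from rfl, jm_const, hm_zero]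
      exact eb_zero (hN.np_pos _).le
  have c5 : ‖(B.fr g).Q⁻¹ *ᵥ (B.Z s x - B.Z0 x)‖ ≤ np B.N (6 / 5) * B.lb := by
    have G0 := Bk.gd0 hf hN g
    refine Prof.norm_le_of fun a => ?_
    have h1 := iz.dz 0 (Nat.zero_le _) g x hx a
    rw [iz.zk.1] at h1
    have h2 : (B.c g 0).hs a ≤ np B.N (11 / 10) * B.lb := (hs_le G0 a).trans (le_of_eq (by
      show np B.N (11 / 10) * (B.lb / 2 ^ 0) = _
      rw [pow_zero, div_one]))
    have p : 0 < pq B.N * Real.sqrt (pJ B.N) := mul_pos hN.q_pos hN.sqrtJ_pos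
    have h4 := mul_le_mul_of_nonneg_left (ph_bd 0 k hr) (mul_pos p (G0.hs_pos a)).le
    have h5 := mul_le_mul_of_nonneg_left h2 p.le
    have h6 : pq B.N * Real.sqrt (pJ B.N) * np B.N (11 / 10) * 2 * B.lb ≤ np B.N (6 / 5) * B.lb :=
      mul_le_mul_of_nonneg_right (disp_le G0) (GeoP.lb_pos hf).le
    linarith
  refine ⟨c1, c2, GeoP.eb_mono c3 (by linarith), ?_, c5, ?_⟩
  · have e : (B.fr g).hm (jm (B.Z s) x) - 1 = (B.fr g).hm (jm s.Zs x) - 1 +
        (B.fr g).hm (jm B.Zt x) + (B.fr g).hm (jm s.Zn x) := by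
      rw [show B.Z s = fun y => (s.Zs y + B.Zt y) + s.Zn y from rfl, jm_add s1 iz.sm.2.1,
        jm_add iz.sm.1 sZt, hm_add, hm_add]
      abel
    rw [e]
    refine GeoP.eb_mono (GeoP.eb_add (GeoP.eb_add c3 t1) t2) ?_
    have h1 : 1000 * np B.N (-93 / 100) ≤ (B.c g k).zT := np_le_zT G (by norm_num)
    have h2 : 1000 * np B.N (-9 / 10) ≤ (B.c g k).zT := np_le_zT G (by norm_num)
    linarith
  · have h1 : (1 : ℕ) ≤ B.N := by
      have : (1 : ℝ) ≤ B.N := by linarith [hN.N_ge, hN.J_ge, hN.L_ge]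
      exact_mod_cast this
    have h2 : _ ≤ B.D / 2000 := GeoP.disp ok.geo h1 (show (1 : ℝ) ≤ 12 / 5 by norm_num) hx
    have e : (B.fr g).zc (B.Z s x) - (B.fr g).xc x = (B.fr g).Q⁻¹ *ᵥ (B.Z s x - B.Z0 x) +
        ((B.fr g).zc (B.Z0 x) - (B.fr g).xc x) := by
      rw [← Prof.zc_sub]; abel
    have h3 := GeoP.norm_orth (GeoP.orth hf g) ((B.fr g).Q⁻¹ *ᵥ (B.Z s x - B.Z0 x))
    have h4 : 7 / 4 * np B.N (6 / 5) * B.lb ≤ (B.N : ℝ) ^ 4 / 2000 * B.lb :=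
      mul_le_mul_of_nonneg_right (disp_le' G) (GeoP.lb_pos hf).le
    have h5 : B.D = (B.N : ℝ) ^ 4 * B.lb := rfl
    rw [e, Matrix.mulVec_add]
    refine (norm_add_le _ _).trans ?_
    linarith

end
end Pool.Agent.MP_20bec2_an.T3

end MrgPart0

-- ======== part 1: formerly Pool.Agent.MP_20bec2_an.T3.ChpB
section MrgPart1

-- ======== part 0: formerly Pool.Agent.MP_20bec2_an.T3.ChpA
section MrgPart0

/-! Row CHP, part 1: sandwiches of column bounds and their derivatives. -/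

set_option autoImplicit false
open Set Filter Matrix Topology

namespace Pool.Agent.MP_20bec2_an.T3.Chp
noncomputable section
open Ftr

/-- bound of one column: lateral entries, vertical entry -/
def Cl (A : Mx) (j : Fin 3) (p r : ℝ) : Prop := |A 0 j| ≤ p ∧ |A 1 j| ≤ p ∧ |A 2 j| ≤ r

lemma Cl.mono {A : Mx} {j : Fin 3} {p r p' r' : ℝ} (h : Cl A j p r) (hp : p ≤ p') (hr : r ≤ r') :
    Cl A j p' r' := ⟨h.1.trans hp, h.2.1.trans hp, h.2.2.trans hr⟩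

lemma sand {A G C : Mx} {i j : Fin 3} {p r p' r' g h k : ℝ} (hA : Cl A i p r) (hC : Cl C j p' r')
    (hG : EB G (bm g h k)) :
    |(Aᵀ * G * C) i j| ≤ 4 * (p * g * p') + 2 * (p * h * r') + 2 * (r * h * p') + r * k * r' := by
  obtain ⟨a0, a1, a2⟩ := hA
  obtain ⟨c0, c1, c2⟩ := hC
  have t00 : _ ≤ p * g * p' := abs_mul_le (abs_mul_le a0 (hG 0 0)) c0
  have t10 : _ ≤ p * g * p' := abs_mul_le (abs_mul_le a1 (hG 1 0)) c0
  have t20 : _ ≤ r * h * p' := abs_mul_le (abs_mul_le a2 (hG 2 0)) c0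
  have t01 : _ ≤ p * g * p' := abs_mul_le (abs_mul_le a0 (hG 0 1)) c1
  have t11 : _ ≤ p * g * p' := abs_mul_le (abs_mul_le a1 (hG 1 1)) c1
  have t21 : _ ≤ r * h * p' := abs_mul_le (abs_mul_le a2 (hG 2 1)) c1
  have t02 : _ ≤ p * h * r' := abs_mul_le (abs_mul_le a0 (hG 0 2)) c2
  have t12 : _ ≤ p * h * r' := abs_mul_le (abs_mul_le a1 (hG 1 2)) c2
  have t22 : _ ≤ r * k * r' := abs_mul_le (abs_mul_le a2 (hG 2 2)) c2
  rw [abs_le] at *
  simp only [mul_apply, Fin.sum_univ_three, transpose_apply]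
  constructor <;> linarith [t00.1, t00.2, t10.1, t10.2, t20.1, t20.2, t01.1, t01.2, t11.1, t11.2,
    t21.1, t21.2, t02.1, t02.2, t12.1, t12.2, t22.1, t22.2]

/-- entry bounds of the change of normalised frames -/
structure PB (P : Mx) (η ε τ σ : ℝ) : Prop where
  lat : ∀ i, i ≠ 2 → Cl P i 16 ε
  c2 : Cl P 2 τ 16
  s0 : η * |P 0 2| ≤ σ
  s1 : |P 1 2| ≤ σ
  e1 : ε ≤ 1
  t1 : τ ≤ 1
  h0 : 0 ≤ η ∧ η ≤ 1

namespace PB
variable {P : Mx} {η ε τ σ M : ℝ} (h : PB P η ε τ σ)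
include h

lemma ε0 : 0 ≤ ε := (abs_nonneg _).trans (h.lat 0 (by decide)).2.2
lemma τ0 : 0 ≤ τ := (abs_nonneg _).trans h.c2.1

lemma uml (hM : |M - 1| ≤ 1 / 10) {i : Fin 3} (hi : i ≠ 2) : Cl (um P M) i 16 (ε * 2) := by
  obtain ⟨a, b, c⟩ := h.lat i hi
  have d := abs_mul_le c (inv_bd hM).2.1
  fin_cases i
  exacts [⟨a, b, d⟩, ⟨a, b, d⟩, absurd rfl hi]

lemma um2 (hM : |M - 1| ≤ 1 / 10) : Cl (um P M) 2 (τ * 2) 16 := by
  have m : |M⁻¹| ≤ 2 := (inv_bd hM).2.2.trans (by norm_num)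
  exact ⟨abs_mul_le h.c2.1 m, abs_mul_le h.c2.2.1 m, h.c2.2.2⟩

lemma err (hM : |M - 1| ≤ 1 / 10) {G : Mx} {g0 g1 g2 : ℝ} (hG : EB G (bm g0 g1 g2)) {i : Fin 3}
    (hi : i ≠ 2) :
    |((um P M)ᵀ * G * um P M) i 2| ≤ 128 * (τ * g0) + 520 * g1 + 32 * (ε * g2) := by
  have h1 := sand (h.uml hM hi) (h.um2 hM) hG
  have h2 : 0 ≤ g1 := (abs_nonneg _).trans (hG 0 2)
  have h3 : ε * τ ≤ 1 := mul_le_one₀ h.e1 h.τ0 h.t1
  nlinarith [mul_le_mul_of_nonneg_left h3 h2]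

end PB

lemma Dm_um_eq {M : V → ℝ} {x : V} (A : Mx) (hM : DifferentiableAt ℝ M x)
    (h1 : |M x - 1| ≤ 1 / 10) {h μ : ℝ} (hh : 0 < h) {k : Fin 3} (hμ : h * |pd k M x| ≤ μ) :
    ∃ a b : ℝ, |a| ≤ 2 * μ ∧ |b| ≤ μ ∧ h • Dm k (fun w => um A (M w)) x =
      !![0, 0, A 0 2 * a; 0, 0, A 1 2 * a; A 2 0 * b, A 2 1 * b, 0] := by
  obtain ⟨p0, -, p2⟩ := inv_bd h1
  have e1 : pd k (fun w => (M w)⁻¹) x = -((M x)⁻¹ * (M x)⁻¹) * pd k M x := by
    rw [pd_comp_at (φ := fun t => t⁻¹) (differentiableAt_inv p0.ne') hM, deriv_inv, ← sq, inv_pow]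
  have h2 : |h * pd k M x| ≤ μ := by rwa [abs_mul, abs_of_pos hh]
  refine ⟨h * pd k (fun w => (M w)⁻¹) x, h * pd k M x, ?_, h2, ?_⟩
  · rw [e1, mul_left_comm, neg_mul, abs_neg]
    exact (abs_mul_le (abs_mul_le p2 p2) h2).trans (by linarith [abs_nonneg (h * pd k M x)])
  · ext a b
    fin_cases a <;> fin_cases b <;> simp [Dm, um, pd_const_mul] <;> ring

/-- the predicted entries -/
def HH (P : Mx) (M : V → ℝ) (Γ : V → Mx) (z : V) : V := fun i =>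
  ((um P (M z))ᵀ * Γ z * um P (M z)) i 2

lemma dif_HH {P : Mx} {M : V → ℝ} {Γ : V → Mx} {x : V} (hM : DifferentiableAt ℝ M x)
    (h0 : M x ≠ 0) (hG : DifM Γ x) (i : Fin 3) : DifferentiableAt ℝ (fun z => HH P M Γ z i) x :=
  ((dif_um P hM h0).tr.mul hG).mul (dif_um P hM h0) i 2

lemma pd_HH {P : Mx} {η ε τ σ : ℝ} (hP : PB P η ε τ σ) {M : V → ℝ} {Γ : V → Mx} {x : V}
    (hM : DifferentiableAt ℝ M x) (h1 : |M x - 1| ≤ 1 / 10) (hG : DifM Γ x) {h μ : ℝ} (hh : 0 < h)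
    {k : Fin 3} (hμ : h * |pd k M x| ≤ μ) {g0 g1 g2 d0 d1 d2 : ℝ}
    (b0 : EB (Γ x - dg3 η 1 1) (bm g0 g1 g2)) (q0 : g0 ≤ 1) (q1 : g1 ≤ 1) (q2 : g2 ≤ 1)
    (b1 : EB (h • Dm k Γ x) (bm d0 d1 d2)) {i : Fin 3} (hi : i ≠ 2) :
    h * |pd k (fun z => HH P M Γ z i) x| ≤ 128 * (τ * d0) + 520 * d1 + 32 * (ε * d2) +
      μ * (48 * ε + 128 * (τ * g0) + 64 * σ) := by
  have d := dif_um P hM (inv_bd h1).1.ne'
  obtain ⟨a, b, ha, hb, e⟩ := Dm_um_eq P hM h1 hh hμ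
  have μ0 : 0 ≤ μ := (abs_nonneg _).trans hb
  have ε0 := hP.ε0; have τ0 := hP.τ0
  set DU := h • Dm k (fun w => um P (M w)) x with hDU
  set U := um P (M x) with hU
  have z : |(0 : ℝ)| ≤ 0 := by simp
  have c1 : Cl DU i 0 (ε * μ) := by
    have := abs_mul_le (hP.lat i hi).2.2 hb
    rw [e]
    fin_cases i
    exacts [⟨z, z, this⟩, ⟨z, z, this⟩, absurd rfl hi]
  have c2 : Cl DU 2 (τ * (2 * μ)) 0 := by
    rw [e]
    exact ⟨abs_mul_le hP.c2.1 ha, abs_mul_le hP.c2.2.1 ha, z⟩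
  have b2 : EB (Γ x) (bm 2 2 2) := fun p q => by
    have h2 : |Γ x p q - dg3 η 1 1 p q| ≤ 1 :=
      (b0 p q).trans (bm_all (p := (· ≤ 1)) q0 q1 q2 p q)
    have h3 : |dg3 η 1 1 p q| ≤ 1 := by
      have := abs_of_nonneg hP.h0.1
      have := hP.h0.2
      fin_cases p <;> fin_cases q <;> simp [dg3] <;> linarith
    have h4 : bm 2 2 2 p q = 2 := bm_all (p := (· = 2)) rfl rfl rfl p q
    linarith [abs_sub_abs_le_abs_sub (Γ x p q) (dg3 η 1 1 p q)]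
  have t1 := sand c1 (hP.um2 h1) b2
  have t2 := hP.err h1 b1 hi
  have t3 := sand (hP.uml h1 hi) c2 b0
  have t4 : |(Uᵀ * dg3 η 1 1 * DU) i 2| ≤ 64 * (σ * μ) := by
    have e2 : (Uᵀ * dg3 η 1 1 * DU) i 2 = U 0 i * (η * P 0 2 * a) + U 1 i * (P 1 2 * a) := by
      rw [e]
      simp [mul_apply, Fin.sum_univ_three, dg3]
      ring
    have s0 : |η * P 0 2| ≤ σ := by rw [abs_mul, abs_of_nonneg hP.h0.1]; exact hP.s0
    rw [e2]
    linarith [abs_add_le (U 0 i * (η * P 0 2 * a)) (U 1 i * (P 1 2 * a)),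
      abs_mul_le (hP.uml h1 hi).1 (abs_mul_le s0 ha),
      abs_mul_le (hP.uml h1 hi).2.1 (abs_mul_le hP.s1 ha)]
  have e3 : h • Dm k (fun w => (um P (M w))ᵀ * Γ w * um P (M w)) x = DUᵀ * Γ x * U +
      Uᵀ * (h • Dm k Γ x) * U + (Uᵀ * (Γ x - dg3 η 1 1) * DU + Uᵀ * dg3 η 1 1 * DU) := by
    rw [Dm_mul (d.tr.mul hG) d, Dm_mul d.tr hG]
    have : Dm k (fun w => (um P (M w))ᵀ) x = (Dm k (fun w => um P (M w)) x)ᵀ := rfl
    simp only [this, hDU, hU, transpose_smul, Matrix.smul_mul, Matrix.mul_smul, Matrix.add_mul,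
      smul_add, Matrix.mul_sub, Matrix.sub_mul, smul_sub]
    abel
  have e4 := absD hh k (fun w => (um P (M w))ᵀ * Γ w * um P (M w)) x i 2
  rw [e3, Matrix.add_apply, Matrix.add_apply, Matrix.add_apply] at e4
  refine e4.symm.le.trans ((abs_add_three _ _ _).trans ?_)
  have g0' : 0 ≤ g1 := (abs_nonneg _).trans (b0 0 2)
  have u1 : ε * μ * τ ≤ ε * μ := mul_le_of_le_one_right (by positivity) hP.t1
  have u2 : ε * μ * τ * g1 ≤ ε * μ * τ := mul_le_of_le_one_right (by positivity) q1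
  linarith [abs_add_le ((Uᵀ * (Γ x - dg3 η 1 1) * DU) i 2) ((Uᵀ * dg3 η 1 1 * DU) i 2)]

/-- a scaled covector times a matrix -/
lemma vmc {u v x : V} {T : Mx} (hu : ∀ i, 0 < u i) (hv : ∀ i, 0 < v i) {m : Fin 3} {p r A W : ℝ}
    (h : Cl (sc u v T) m p r) (h0 : u 0 * |x 0| ≤ A) (h1 : u 1 * |x 1| ≤ A) (h2 : u 2 * |x 2| ≤ W) :
    v m * |∑ n, x n * T n m| ≤ 2 * (p * A) + r * W := by
  have e : v m * ∑ n, x n * T n m = sc u v T 0 m * (u 0 * x 0) + sc u v T 1 m * (u 1 * x 1) +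
      sc u v T 2 m * (u 2 * x 2) := by
    have := hu 0; have := hu 1; have := hu 2
    simp only [sc, of_apply, Fin.sum_univ_three]
    field_simp
  have k : ∀ l t, u l * |x l| ≤ t → |u l * x l| ≤ t := fun l t ht => by
    rwa [abs_mul, abs_of_pos (hu l)]
  rw [← abs_of_pos (hv m), ← abs_mul, e]
  linarith [abs_add_three (sc u v T 0 m * (u 0 * x 0)) (sc u v T 1 m * (u 1 * x 1))
    (sc u v T 2 m * (u 2 * x 2)), abs_mul_le h.1 (k 0 _ h0), abs_mul_le h.2.1 (k 1 _ h1),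
    abs_mul_le h.2.2 (k 2 _ h2)]

/-- the last entry from the determinant -/
lemma th22 {u : V} (hu : ∀ i, 0 < u i) {Θ : Mx} {s : ℝ} (hs : s ≤ 1 / 100)
    (H : ∀ a b, ¬ (a = 2 ∧ b = 2) → |(Θ - 1) a b| * u b ≤ s * u a) (hd : |Θ.det| ≤ 3 / 2) :
    |Θ 2 2 - 1| ≤ 3 := by
  set E := sc u u (Θ - 1) with hE
  have b : ∀ a b, ¬ (a = 2 ∧ b = 2) → |E a b| ≤ 1 / 100 := fun a b hab =>
    ((abs_sc hu hu a b).2 (H a b hab)).trans hs
  have e : Θ.det = Θ 2 2 * ((1 + E 0 0) * (1 + E 1 1) - E 0 1 * E 1 0) +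
      (E 0 1 * E 1 2 * E 2 0 + E 0 2 * E 1 0 * E 2 1 - E 1 2 * E 2 1 * (1 + E 0 0) -
        E 0 2 * E 2 0 * (1 + E 1 1)) := by
    have := hu 0; have := hu 1; have := hu 2
    simp [hE, sc, det_fin_three]
    field_simp
    ring
  have b00 := b 0 0 (by decide); have b01 := b 0 1 (by decide); have b02 := b 0 2 (by decide)
  have b10 := b 1 0 (by decide); have b11 := b 1 1 (by decide); have b12 := b 1 2 (by decide)
  have b20 := b 2 0 (by decide); have b21 := b 2 1 (by decide)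
  have o : ∀ t : ℝ, |t| ≤ 1 / 100 → |1 + t| ≤ 2 := fun t ht => by
    linarith [abs_add_le 1 t, abs_one (α := ℝ)]
  have r1 := abs_le.1 (abs_mul_le (abs_mul_le b01 b12) b20)
  have r2 := abs_le.1 (abs_mul_le (abs_mul_le b02 b10) b21)
  have r3 := abs_le.1 (abs_mul_le (abs_mul_le b12 b21) (o _ b00))
  have r4 := abs_le.1 (abs_mul_le (abs_mul_le b02 b20) (o _ b11))
  have r5 := abs_le.1 (abs_mul_le b01 b10)
  have r6 := abs_le.1 (abs_mul_le b00 b11)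
  have r7 : 9 / 10 ≤ (1 + E 0 0) * (1 + E 1 1) - E 0 1 * E 1 0 := by
    nlinarith [abs_le.1 b00, abs_le.1 b11]
  rw [e, abs_le] at hd
  rw [abs_le]
  constructor <;> nlinarith

/-- chain rule with scaled bounds -/
lemma chain {φ : V → ℝ} {τ : V → V} {b z u v : V} {T : Mx} (hu : ∀ i, 0 < u i) (hv : ∀ i, 0 < v i)
    (hφ : DifferentiableAt ℝ φ (τ (b + T *ᵥ z))) (hτ : DifferentiableAt ℝ τ (b + T *ᵥ z))
    {s D : ℝ} (s0 : 0 ≤ s) (hs : s ≤ 1 / 100) (hΘ : Fc.NB u (jm τ (b + T *ᵥ z) - 1) s 3)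
    (hD : ∀ l, u l * |pd l φ (τ (b + T *ᵥ z))| ≤ D) {m : Fin 3} (hT : Cl (sc u v T) m 2 2) :
    v m * |pd m (fun w => φ (τ (b + T *ᵥ w))) z| ≤ 30 * D := by
  have D0 : 0 ≤ D := (mul_nonneg (hu 0).le (abs_nonneg _)).trans (hD 0)
  have k : ∀ n, u n * |pd n (fun w => φ (τ w)) (b + T *ᵥ z)| ≤ 5 * D := fun n => by
    rw [pd_comp hφ hτ]
    refine (Fc.vec_le (fun i => (hu i).le) s0 (by norm_num) hΘ hD n).trans ?_
    nlinarith
  rw [pd_comp_affine (g := fun w => φ (τ w)) b T (hφ.comp _ hτ)]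
  exact (vmc (x := fun n => pd n (fun w => φ (τ w)) (b + T *ᵥ z)) hu hv hT (k 0) (k 1) (k 2)).trans
    (by linarith)

/-- scaled mean value inequality -/
lemma mvt {g : V → ℝ} {U : Set V} (hU : Convex ℝ U) (hg : ∀ y ∈ U, DifferentiableAt ℝ g y) {v : V}
    (hv : ∀ i, 0 < v i) {A W : ℝ} (h : ∀ y ∈ U, v 0 * |pd 0 g y| ≤ A ∧ v 1 * |pd 1 g y| ≤ A ∧
      v 2 * |pd 2 g y| ≤ W) {x x' : V} (hx : x ∈ U) (hx' : x' ∈ U) :
    |g x - g x'| ≤ A * (|x 0 - x' 0| / v 0 + |x 1 - x' 1| / v 1) + W * |x 2 - x' 2| / v 2 := by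
  have := mvt_pd (b := ![A / v 0, A / v 1, W / v 2]) hU hg (fun i y hy => by
    obtain ⟨a, b, c⟩ := h y hy
    fin_cases i
    exacts [(le_div_iff₀' (hv 0)).2 a, (le_div_iff₀' (hv 1)).2 b, (le_div_iff₀' (hv 2)).2 c]) hx hx'
  refine this.trans (le_of_eq ?_)
  simp [Fin.sum_univ_three]
  ring

end
end Pool.Agent.MP_20bec2_an.T3.Chp

end MrgPart0

-- ======== part 1: formerly Pool.Agent.MP_20bec2_an.T3.ChpB
section MrgPart1

/-! Row CHP, part 2: parameters of a steered new cube against the old cube. -/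

set_option autoImplicit false
open Set Filter Matrix Topology

namespace Pool.Agent.MP_20bec2_an.T3.Chp
noncomputable section
open Ftr

lemma shift {N : ℕ} (h : Big N) : 0 ≤ pJ (nxt N) - pJ N ∧ pJ (nxt N) - pJ N ≤ 1 / 50 ∧
    0 ≤ pL (nxt N) - pL N ∧ pL (nxt N) - pL N ≤ 1 / 50000 := by
  have := BarrP.dJ_bd h
  have := BarrP.dL_bd h
  have := BarrP.dL_le h
  have := BarrP.un_pos h
  have := TfbP.un_le h
  refine ⟨?_, ?_, ?_, ?_⟩ <;> linarith

lemma eta_ge {c c' : Pm} (g : Gd c) (g' : Gd c') (hN : c'.N = nxt c.N)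
    (l1 : |Real.log (c'.s1 / c.s1)| ≤ 1 / (c.q ^ 2 * pR c.N))
    (l2 : |Real.log (c'.s2 / c.s2)| ≤ 1 / (c.q ^ 2 * pR c.N)) (hs : c'.steer) :
    -(8 * pL c.N) - 2 ≤ Real.log c.η := by
  have b := g.big
  obtain ⟨d1, d2, d3, d4⟩ := shift b
  have d5 := (BarrP.dL_bd b).2
  have a1 := ChartP.log_steer g' hs
  have eR : pR c.N = 4 * pJ c.N := rfl
  have eR' : pR c'.N = 4 * pJ (nxt c.N) := by rw [hN]; rfl
  have a2 := (abs_le.1 (log_eta_R b.R_ge (show pR c.N ≤ pR c'.N by linarith)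
    (show c'.t ≤ 2 by linarith [g'.t_le]))).2
  have a3 := log_eta_shift b.R_ge c.t c'.t
  rw [Real.log_div g'.s1_pos.ne' g.s1_pos.ne', abs_le] at l1
  rw [Real.log_div g'.s2_pos.ne' g.s2_pos.ne', abs_le] at l2
  have a4 : |c'.t - c.t| ≤ 2 * (1 / (c.q ^ 2 * pR c.N)) + 15 / 4 * (pL (nxt c.N) - pL c.N) := by
    rw [g.t_eq, g'.t_eq, g.log_K, g'.log_K, hN, abs_le]
    constructor <;> linarith [l1.1, l1.2, l2.1, l2.2]
  have a5 : pR c.N * (1 / (c.q ^ 2 * pR c.N)) ≤ 1 / 100 := by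
    have := b.R_pos
    have q : 10000000 ≤ c.q := b.q_ge
    rw [mul_one_div, div_le_div_iff₀ (by positivity) (by norm_num)]
    nlinarith [mul_le_mul_of_nonneg_right (show 100 ≤ c.q ^ 2 by nlinarith) this.le]
  have a6 := mul_le_mul_of_nonneg_left a4 b.R_pos.le
  have a7 : Real.log c'.η = Real.log (eta (pR c'.N) c'.t) := rfl
  have a8 : Real.log c.η = Real.log (eta (pR c.N) c.t) := rfl
  rw [hN] at a1
  rw [eR] at a5 a6 a3 a2 a8
  nlinarith

lemma tf_k {F : Fr} {N k : ℕ} {lb s1 s2 h : ℝ} {T Ω : Mx} (H : TF (F.pm N lb 0) s1 s2 T Ω h) :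
    TF (F.pm N lb k) s1 s2 T Ω h := by
  have e : ∀ i, (F.pm N lb 0).hs i = 2 ^ k * (F.pm N lb k).hs i :=
    PredP.hs_pow ⟨N, lb, fun _ => F, 0, 0, 0, 0⟩ 0 (zero_add k)
  have s : ∀ (x : ℝ) i, x * (F.pm N lb 0).y ≤ np N (-4 / 5) * (F.pm N lb 0).hs i →
      x * (F.pm N lb k).y ≤ np N (-4 / 5) * (F.pm N lb k).hs i := fun x i hx => by
    have e2 : (F.pm N lb 0).y = 2 ^ k * (F.pm N lb k).y := e 2
    rw [e i, e2, mul_left_comm, mul_left_comm (np _ _)] at hx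
    exact le_of_mul_le_mul_left hx (by positivity)
  exact ⟨H.ort, H.ls, H.det, fun i hi => ⟨(H.c2 i hi).1, s _ i (H.c2 i hi).2.1,
    s _ i (H.c2 i hi).2.2⟩, H.hi, H.lo⟩

lemma num0 {c : Pm} (g : Gd c) (hη : -(8 * pL c.N) - 2 ≤ Real.log c.η) :
    etaA c.N / 8 ≤ c.η ∧ np c.N (-2 / 5) * c.c2 ≤ c.c1 ∧ np c.N (-2 / 5) * c.c1 ≤ c.c2 ∧
    4 * c.c1 ≤ np c.N (-7 / 5) * c.n12 ∧ 4 * c.c2 ≤ np c.N (-7 / 5) * c.n12 ∧
    np c.N (-1) ≤ hc c.N ∧ 16 * hc c.N ≤ c.η * np c.N (-2 / 5) ∧ np c.N (-2 / 5) * c.l1 ≤ c.lam ∧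
    2 * c.l1 ≤ np c.N (-1 / 2) * c.y ∧ 5 / √c.J ≤ 1 / 2 ∧ np (nxt c.N) (11 / 10) ≤ 2 * np c.N (11 / 10) := by
  have b := g.big
  have b' := b.mono b.nxt_le.1
  obtain ⟨d1, d2, -⟩ := shift b
  have := g.η_pos; have := b.etaA_pos; have := g.c1_pos; have := g.c2_pos; have := g.n12_pos
  have := b.hc_pos; have := g.l1_pos; have := g.lam_pos; have := g.y_pos; have := g.J_pos
  have := b.np_pos (-2 / 5); have := b.np_pos (-7 / 5); have := b.np_pos (-1)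
  have := b.np_pos (-1 / 2); have := b.np_pos (11 / 10); have := b'.np_pos (11 / 10)
  have := g.log_η_le; have := g.log_K; have := g.log_K_bd; have := g.log_n12_bd
  have := g.log_s1_ge; have := g.log_m_le; have := g.log_e4.1; have := log2_bd
  have := b.L_ge; have := b.J_ge; have := log4_eq
  have := (logc_bd (C := 16) (by norm_num)).2; have := (logc_bd (C := 3) (by norm_num)).2
  have := (logc_bd (C := 3) (by norm_num)).1; have := (logc_bd (C := 5) (by norm_num)).2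
  have l8 : Real.log 8 = 3 * Real.log 2 := by
    rw [show (8 : ℝ) = 2 ^ 3 by norm_num, Real.log_pow]; norm_num
  refine ⟨?_, ?_, ?_, ?_, ?_, ?_, ?_, ?_, ?_, ?_, ?_⟩ <;>
    refine le_of_log (by positivity) (by positivity) ?_ <;>
    simp (disch := positivity) only [Real.log_mul, Real.log_div, Real.log_one, Real.log_sqrt,
      b.log_np, b'.log_np, b.log_etaA, g.log_c1, g.log_c2, b.log_hc, g.log_l1, g.log_ro, g.log_y,
      g.log_J, l8] <;> linarith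

lemma par {c c' : Pm} {T Ω : Mx} (g : Gd c) (g' : Gd c') (hN : c'.N = nxt c.N)
    (hl : c.lam = 2 * c'.lam) (H : TF c c'.s1 c'.s2 T Ω c.hL2) (hs : c'.steer) :
    PB (sc (cd c 1) (cd c' T.det) T) c.η (np c.N (-7 / 5)) (np c.N (-2 / 5)) (16 * hc c.N) ∧
    (∀ m, m ≠ 2 → Cl (sc c.hs c'.hs T) m 2 (np c.N (-1 / 2))) ∧ Cl (sc c.hs c'.hs T) 2 2 2 ∧
    0 < T.det ∧ etaA c.N / 8 ≤ c.η := by
  have b := g.big
  obtain ⟨n1, n2, n3, n4, n5, n6, n7, n8, n9, n10, n11⟩ := num0 g (eta_ge g g' hN H.ls.1 H.ls.2 hs)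
  obtain ⟨l1, l2, tq, -, -, al⟩ := H.hi (by linarith [b.etaA_eq, b.etaS_pos])
  have o : ∀ a : ℝ, a ≤ 0 → np c.N a ≤ 1 := fun a ha => (b.np_le ha).trans_eq (np_zero _)
  have p4 := b.np_pos (-2 / 5)
  have p5 : np c.N (-2 / 5) ≤ np c.N (-1 / 5) := b.np_le (by norm_num)
  have p6 : 10 * np c.N (-1 / 5) ≤ 1 / (pq c.N ^ 2 * pR c.N) := (TfbP.small_le b).2.1
  have p7 : 4 * np c.N (-1 / 5) ≤ 1 / 100 := (BarrP.np_le b).1.trans (BarrP.inv_le b).2.2
  rw [Real.log_div g'.s1_pos.ne' g.s1_pos.ne'] at l1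
  rw [Real.log_div g'.s2_pos.ne' g.s2_pos.ne'] at l2
  have C : Cp (10 / 9 * np c.N (-2 / 5)) c c' := ⟨g, g', le_trans (by linarith) p6,
    abs_div_sub_one_le g.s1_pos g'.s1_pos l1 (by linarith),
    abs_div_sub_one_le g.s2_pos g'.s2_pos l2 (by linarith), hN ▸ b.nxt_le.1, hN ▸ b.nxt_le.2⟩
  have r1 : c'.c1 ≤ 2 * c.c1 := (C.ratios Pm.c1 (by simp)).2.2.2.1
  have r2 : c'.c2 ≤ 2 * c.c2 := (C.ratios Pm.c2 (by simp)).2.2.2.1
  have r3 : c'.n12 ≤ 2 * c.n12 := (C.ratios Pm.n12 (by simp)).2.2.2.1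
  have r4 : c'.ro ≤ 2 * c.ro := (C.ratios Pm.ro (by simp)).2.2.2.1
  obtain ⟨e1, e2⟩ := abs_le.1 (H.det.1.trans n10)
  have dp : 0 < T.det := by linarith
  have T2 : ∀ i j, |T i j| ≤ 2 := H.det.2.1
  have sm : ∀ i j, |Ω i j| ≤ np c.N (-2 / 5) → |T i j| ≤ 2 * np c.N (-2 / 5) := fun i j h => by
    have h1 : |T i j - Ω i j| ≤ np c.N (-45 / 100) := tq i j
    have h2 : np c.N (-45 / 100) ≤ np c.N (-2 / 5) := b.np_le (by norm_num)
    linarith [abs_sub_abs_le_abs_sub (T i j) (Ω i j)]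
  have hu : ∀ i, 0 < cd c 1 i := fun i =>
    (b.np_pos _).trans_le (cd_bd g (by norm_num) (by norm_num) i).1
  have hv : ∀ i, 0 < cd c' T.det i := fun i =>
    (g'.big.np_pos _).trans_le (cd_bd g' (by linarith) (by linarith) i).1
  have v2 : cd c' T.det 2 ≤ 4 * c.n12 := by
    show c'.n12 / T.det ≤ _
    rw [div_le_iff₀ dp]
    nlinarith [g.n12_pos]
  have u2 : cd c 1 2 = c.n12 := div_one _
  have c1 := g.c1_pos; have c2 := g.c2_pos; have c3 := g.n12_pos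
  have k : ∀ {u v : V} (_ : ∀ i, 0 < u i) (_ : ∀ i, 0 < v i) (i j : Fin 3) {t w a : ℝ},
      |T i j| ≤ t → v j ≤ w → t * w ≤ a * u i → |sc u v T i j| ≤ a := fun hu hv i j t w a h1 h2 h3 =>
    (abs_sc hu hv i j).2 ((mul_le_mul h1 h2 (hv j).le ((abs_nonneg _).trans h1)).trans h3)
  have s : ∀ i, i ≠ 2 → c.dgn i * |sc (cd c 1) (cd c' T.det) T i 2| ≤ 16 * hc c.N := fun i hi => by
    have h1 := (H.c2 i hi).1
    have h2 : cd c 1 i = c.cc i := by
      fin_cases i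
      exacts [rfl, rfl, absurd rfl hi]
    have h3 := ChartP.dgn_pos g i
    have h4 := mul_le_mul_of_nonneg_right (show 3 * c.hL2 + np c.N (-1) ≤ 4 * hc c.N by
      linarith [(TfbP.hL2_bd g).1]) (g.cc_pos i).le
    have h5 := mul_le_mul_of_nonneg_left v2 (mul_nonneg h3.le (abs_nonneg (T i 2)))
    rw [← le_div_iff₀' h3, abs_sc hu hv, h2, div_mul_eq_mul_div, le_div_iff₀ h3]
    linarith
  have s0 : c.η * |sc (cd c 1) (cd c' T.det) T 0 2| ≤ 16 * hc c.N := s 0 (by decide)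
  have s1 : |sc (cd c 1) (cd c' T.det) T 1 2| ≤ 16 * hc c.N := (one_mul _).symm.trans_le (s 1 (by decide))
  have h0 : c'.hs 0 ≤ c.l1 := by
    show c'.ro * c'.lam ≤ c.ro * c.lam
    rw [hl]; nlinarith [g'.lam_pos]
  have h1 : c'.hs 1 ≤ c.lam := by
    show c'.lam ≤ _
    linarith [g'.lam_pos]
  have h2 : c'.hs 2 ≤ c.y := by
    show np c'.N (11 / 10) * c'.lam ≤ np c.N (11 / 10) * c.lam
    rw [hl, hN]; nlinarith [g'.lam_pos]
  have ll := g.lam_le_l1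
  have hh := g.hs_pos; have hh' := g'.hs_pos
  have w : ∀ i, i ≠ 2 → |sc c.hs c'.hs T i 2| ≤ 2 := fun i hi => (abs_sc hh hh' i 2).2
    ((mul_le_mul_of_nonneg_left h2 (abs_nonneg _)).trans ((H.c2 i hi).2.1.trans
      (mul_le_mul_of_nonneg_right (by linarith [o (-4 / 5) (by norm_num)]) (hh i).le)))
  refine ⟨⟨fun i hi => ?_, ⟨?_, ?_, ?_⟩, s0, s1, o _ (by norm_num), o _ (by norm_num),
    g.η_pos.le, g.η_le_one⟩, fun m hm => ?_, ⟨w 0 (by decide), w 1 (by decide),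
      k hh hh' 2 2 (T2 _ _) h2 le_rfl⟩, dp, n1⟩
  · fin_cases i
    · refine ⟨k hu hv 0 0 (T2 _ _) r1 (show _ ≤ 16 * c.c1 by linarith), ?_,
        k hu hv 2 0 (T2 _ _) r1 (by rw [u2]; linarith)⟩
      rcases al with al | al
      · exact k hu hv 1 0 (sm _ _ al.2) r1 (show _ ≤ 16 * c.c2 by linarith)
      · exact k hu hv 1 0 (T2 _ _) r1 (show _ ≤ 16 * c.c2 by linarith [(rot g al.1).2.1])
    · refine ⟨?_, k hu hv 1 1 (T2 _ _) r2 (show _ ≤ 16 * c.c2 by linarith),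
        k hu hv 2 1 (T2 _ _) r2 (by rw [u2]; linarith)⟩
      rcases al with al | al
      · exact k hu hv 0 1 (sm _ _ al.1) r2 (show _ ≤ 16 * c.c1 by linarith)
      · exact k hu hv 0 1 (T2 _ _) r2 (show _ ≤ 16 * c.c1 by linarith [(rot g al.1).2.2])
    · exact absurd rfl hi
  · exact le_of_mul_le_mul_left (s0.trans n7) g.η_pos
  · exact s1.trans (n7.trans (mul_le_of_le_one_left p4.le g.η_le_one))
  · exact k hu hv 2 2 (T2 _ _) v2 (by rw [u2]; linarith)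
  · fin_cases m
    · refine ⟨k hh hh' 0 0 (T2 _ _) h0 le_rfl, ?_, k hh hh' 2 0 (T2 _ _) h0 n9⟩
      rcases al with al | al
      · exact k hh hh' 1 0 (sm _ _ al.2) h0 (show _ ≤ 2 * c.lam by linarith)
      · exact k hh hh' 1 0 (T2 _ _) h0 (show _ ≤ 2 * c.lam by linarith [(rot g al.1).1])
    · exact ⟨k hh hh' 0 1 (T2 _ _) h1 (show _ ≤ 2 * c.l1 by linarith),
        k hh hh' 1 1 (T2 _ _) h1 le_rfl,
        k hh hh' 2 1 (T2 _ _) h1 (show _ ≤ np c.N (-1 / 2) * c.y by linarith)⟩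
    · exact absurd rfl hm

lemma num1 {N : ℕ} (b : Big N) :
    128 * (np N (-2 / 5) * (3 * (pJ N / N))) ≤ fr0 (nxt N) / 4 ∧
    520 * (fr0 N / qp N (1 / 2)) ≤ fr0 (nxt N) / 4 ∧ 520 * (fr0 N / pJ N ^ 3) ≤ fr0 (nxt N) / 4 ∧
    32 * (np N (-7 / 5) * (2 * pJ N)) ≤ fr0 (nxt N) / 4 ∧
    pX N / (qp N (7 / 2) * N) ≤ pJ N / N ∧ 2 * pJ N / (N * pJ N ^ 4) ≤ 2 * (pJ N / N) ∧
    128 * (np N (-2 / 5) * (120 / 2 ^ el N * (pJ N ^ 4 / N))) ≤
      1 / (2 * pJ (nxt N) ^ 24 * √(nxt N)) / 6 ∧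
    520 * (120 / 2 ^ el N * (pJ N ^ 3 / √N)) ≤ 1 / (2 * pJ (nxt N) ^ 24 * √(nxt N)) / 6 ∧
    32 * (np N (-7 / 5) * (120 / 2 ^ el N * pJ N)) ≤ 1 / (2 * pJ (nxt N) ^ 24 * √(nxt N)) / 6 ∧
    48 * np N (-7 / 5) ≤ hc N ∧ 128 * (np N (-2 / 5) * (pJ N ^ 4 / N)) ≤ hc N ∧
    np N (-1 / 2) * pq N ≤ np N (-26 / 100) ∧
    5 * np N (-26 / 100) * (1026 * hc N) ≤ 1 / (2 * pJ (nxt N) ^ 24 * √(nxt N)) / 2 ∧
    6 * pq N * (1026 * hc N) ≤ pJ (nxt N) ^ 3 / √(nxt N) / 2 ∧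
    1 / (2 * pJ (nxt N) ^ 24 * √(nxt N)) ≤ pJ (nxt N) ^ 3 / √(nxt N) ∧
    2400 * (nxt N : ℝ) ^ 4 ≤ (N : ℝ) ^ 4 * np N 92 ∧ pJ N ^ 4 / N ≤ 1 := by
  have b' := b.mono b.nxt_le.1
  obtain ⟨d1, d2, d3, d4⟩ := shift b
  have := b.J_pos; have := b'.J_pos; have := b.N_pos; have := b'.N_pos; have := b.q_pos
  have := b.fr0_pos; have := b'.fr0_pos; have := b.hc_pos; have := b.X_pos
  have := b.np_pos (-2 / 5); have := b.np_pos (-7 / 5); have := b.np_pos (-1 / 2)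
  have := b.np_pos (-26 / 100); have := b.np_pos 92; have := b.qp_pos (1 / 2)
  have := b.qp_pos (7 / 2); have := b.L_ge; have := b.J_ge; have := log2_bd
  have a8 := mul_le_mul b.el_bd.1 log2_bd.1 (by norm_num) (Nat.cast_nonneg _)
  have := logc_bd (C := 128) (by norm_num); have := logc_bd (C := 3) (by norm_num)
  have := logc_bd (C := 4) (by norm_num); have := logc_bd (C := 520) (by norm_num)
  have := logc_bd (C := 32) (by norm_num); have := logc_bd (C := 120) (by norm_num)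
  have := logc_bd (C := 6) (by norm_num); have := logc_bd (C := 48) (by norm_num)
  have := logc_bd (C := 5) (by norm_num); have := logc_bd (C := 1026) (by norm_num)
  have := logc_bd (C := 2400) (by norm_num)
  refine ⟨?_, ?_, ?_, ?_, ?_, ?_, ?_, ?_, ?_, ?_, ?_, ?_, ?_, ?_, ?_, ?_, ?_⟩ <;>
    refine le_of_log (by positivity) (by positivity) ?_ <;>
    simp (disch := positivity) only [Real.log_mul, Real.log_div, Real.log_one, Real.log_pow,
      b.log_np, b.log_qp, b.log_q, b.log_hc, b.log_J, b'.log_J, b.log_N, b'.log_N, b.log_fr0,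
      b'.log_fr0, b.log_X, b.log_sqrtN, b'.log_sqrtN] <;> push_cast <;> linarith

end
end Pool.Agent.MP_20bec2_an.T3.Chp

end MrgPart1

-- marker of a merged file
example : 731051 + 741613 = 731051 + 741613 := rfl

end MrgPart1

-- ======== part 2: formerly Pool.Agent.MP_20bec2_an.T3.Chp
section MrgPart2

/-! Row CHP: the prediction of the entries `(i, 2)` in the new block. -/

set_option autoImplicit false
open Set Filter Matrix Topology

namespace Pool.Agent.MP_20bec2_an.T3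
noncomputable section
namespace Chp
open Ftr

/-- facts at one point of the old cube -/
structure Pt (c : Pm) (φ ψ τ : V → V) (w : V) : Prop where
  m0 : |jac φ w - 1| ≤ 1 / 10
  m1 : ∀ l, c.hs l * |pd l (jac φ) w| ≤ pq c.N
  m2 : ∀ l, l ≠ 2 → c.hs l * |pd l (jac φ) w| ≤ np c.N (-26 / 100)
  er : EB (c.gam φ w - c.gam ψ (τ w))
    (bm (3 * (pJ c.N / c.N)) (fr0 c.N / qp c.N (1 / 2) + fr0 c.N / pJ c.N ^ 3) (2 * pJ c.N))
  gb : EB (c.gam ψ (τ w) - dg3 c.η 1 1) (bm (pJ c.N ^ 4 / c.N) 1 1)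
  th : Fc.NB c.hs (jm τ w - 1) (1 / 100) 3
  di : ∀ a b l, c.hs l * |pd l (fun y => c.gam ψ y a b) (τ w)| ≤ 4 / 2 ^ el c.N * Xj c.N a b

lemma core {c c' : Pm} {T Ω : Mx} (g : Gd c) (g' : Gd c') (hN : c'.N = nxt c.N)
    (hl : c.lam = 2 * c'.lam) (H : TF c c'.s1 c'.s2 T Ω c.hL2) (hs : c'.steer) {φ ψ τ : V → V}
    (dφ : Dif φ) (dψ : Dif ψ) (dτ : Differentiable ℝ τ) {b : V} {U : Set V} (cU : Convex ℝ U)
    (hp : ∀ z ∈ U, Pt c φ ψ τ (b + T *ᵥ z)) {G : V → V}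
    (hG : G = HH (sc (cd c 1) (cd c' T.det) T) (fun z => jac φ (b + T *ᵥ z))
      fun z => c.gam ψ (τ (b + T *ᵥ z))) :
    Continuous G ∧ ∀ z ∈ U, ∀ i, i ≠ 2 →
      |c'.gam (fun z => φ (b + T *ᵥ z)) z i 2 - G z i| ≤ fr0 c'.N ∧ ∀ z' ∈ U, |G z i - G z' i| ≤
        1 / (2 * pJ c'.N ^ 24 * √c'.N) * (|z 0 - z' 0| / c'.l1 + |z 1 - z' 1| / c'.lam) +
        Xj c'.N 0 2 * |z 2 - z' 2| / c'.y := by
  have big := g.big
  obtain ⟨hP, t1, t2, -, -⟩ := par g g' hN hl H hs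
  obtain ⟨n1, n2, n3, n4, -, -, n7, n8, n9, n10, n11, n12, n13, n14, n15, -, n17⟩ := num1 big
  have da : ∀ z : V, DifferentiableAt ℝ (fun z : V => b + T *ᵥ z) z := (sm_affine b T).dif
  have dM : ∀ z, DifferentiableAt ℝ (fun z => jac φ (b + T *ᵥ z)) z := fun z =>
    (dφ.1.jac.dif _).comp z (da z)
  have sγ := PredP.sm_gam c dψ
  have dΓ : ∀ z, DifM (fun z => c.gam ψ (τ (b + T *ᵥ z))) z := fun z p q =>
    ((sγ p q).dif _).comp z ((dτ _).comp z (da z))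
  have dG : ∀ i z, DifferentiableAt ℝ (fun z => G z i) z := fun i z => by
    rw [hG]; exact dif_HH (dM z) (dφ.2.2 _).ne' (dΓ z) i
  have hu : ∀ i, 0 < cd c 1 i := fun i =>
    (big.np_pos _).trans_le (cd_bd g (by norm_num) (by norm_num) i).1
  have hh := g.hs_pos; have hh' := g'.hs_pos
  refine ⟨continuous_pi fun i => Differentiable.continuous (dG i),
    fun z hz i hi => ⟨?_, fun z' hz' => ?_⟩⟩
  · have h1 := hP.err (hp z hz).m0 (hp z hz).er hi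
    rw [Matrix.mul_sub, Matrix.sub_mul, Matrix.sub_apply] at h1
    rw [gam_aff c' dφ.1, gm_mul _ hu _ T (dφ.2.2 _).ne', ← gam_eq, hG, hN]
    refine h1.trans ?_
    linarith
  · have key : ∀ y ∈ U, ∀ m μ, Cl (sc c.hs c'.hs T) m 2 2 →
        c'.hs m * |pd m (fun z => jac φ (b + T *ᵥ z)) y| ≤ μ →
        c'.hs m * |pd m (fun z => G z i) y| ≤
          1 / (2 * pJ (nxt c.N) ^ 24 * √(nxt c.N)) / 2 + μ * (1026 * hc c.N) := fun y hy m μ cm hμ => by
      have p := hp y hy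
      have μ0 : 0 ≤ μ := (mul_nonneg (hh' m).le (abs_nonneg _)).trans hμ
      have h1 := pd_HH hP (dM y) p.m0 (dΓ y) (hh' m) hμ p.gb n17 le_rfl le_rfl
        (d0 := 120 / 2 ^ el c.N * (pJ c.N ^ 4 / c.N)) (d1 := 120 / 2 ^ el c.N * (pJ c.N ^ 3 / √c.N))
        (d2 := 120 / 2 ^ el c.N * pJ c.N) (fun p' q' => by
          rw [absD (hh' m)]
          refine (chain hh hh' ((sγ p' q').dif _) (dτ _) (by norm_num) le_rfl p.th (p.di p' q')
            cm).trans (le_of_eq ?_)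
          fin_cases p' <;> fin_cases q' <;> simp [Xj, bm] <;> ring) hi
      rw [hG]
      refine h1.trans (add_le_add (by linarith) (mul_le_mul_of_nonneg_left (by linarith) μ0))
    have o : np c.N (-1 / 2) ≤ 2 := by
      linarith [(big.np_le (show (-1 / 2 : ℝ) ≤ 0 by norm_num)).trans_eq (np_zero _)]
    have lat : ∀ y ∈ U, ∀ m, m ≠ 2 → c'.hs m * |pd m (fun z => G z i) y| ≤
        1 / (2 * pJ (nxt c.N) ^ 24 * √(nxt c.N)) := fun y hy m hm => by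
      have p := hp y hy
      refine (key y hy m (5 * np c.N (-26 / 100)) ((t1 m hm).mono le_rfl o) ?_).trans (by linarith)
      rw [pd_comp_affine b T (dφ.1.jac.dif _)]
      exact (vmc (x := fun n => pd n (jac φ) (b + T *ᵥ y)) hh hh' (t1 m hm) (p.m2 0 (by decide))
        (p.m2 1 (by decide)) (p.m1 2)).trans (by linarith)
    rw [hN]
    refine mvt cU (fun y _ => dG i y) hh' (fun y hy => ⟨lat y hy 0 (by decide),
      lat y hy 1 (by decide), ?_⟩) hz hz'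
    have p := hp y hy
    refine (key y hy 2 (6 * pq c.N) t2 ?_).trans
      (show _ ≤ pJ (nxt c.N) ^ 3 / √(nxt c.N) by linarith)
    rw [pd_comp_affine b T (dφ.1.jac.dif _)]
    exact (vmc (x := fun n => pd n (jac φ) (b + T *ᵥ y)) hh hh' t2 (p.m1 0) (p.m1 1)
      (p.m1 2)).trans (by linarith)

end Chp

open Chp PredP in
theorem chp (hT : TfbStmt) (hL : LabStmt) (hM : MbiStmt) : ChpStmt := by
  filter_upwards [hT, hL, hM, zder, surj, ev_big] with N hT hL hM hZ hS hb B e ρ s H0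
  subst e
  obtain ⟨hρ, ok, hk, I⟩ := id H0
  set k := nb B.N - 1 with hkk
  have G := ok.geo
  have hf := G.toFrOk
  have ej : jac s.f = dens ρ (B.Z s) s.Sg := funext I.iF.smf.2.2
  have mb := (hM B rfl ρ k 9 s hρ ok.toOk0 hk (by norm_num) le_rfl
    ⟨I.il, I.iz, I.ip, I.is, I.iq⟩ I.ir).1
  rw [← ej] at mb
  obtain ⟨⟨df, L⟩, L'⟩ := hL B rfl ρ k 9 s ok.toOk0 hk le_rfl I.il I.ip.psh I.iF mb
  obtain ⟨p1, p2, -, -, -, p6⟩ := PredP.par hb
  obtain ⟨-, -, -, -, n5, n6, -, -, -, -, -, -, -, -, -, n16, -⟩ := num1 hb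
  have el1 : 1 ≤ el B.N := by
    have : (1 : ℝ) ≤ el B.N := by linarith [hb.el_bd.1, hb.L_ge]
    exact_mod_cast this
  have el2 := hb.el_le_nm
  have nm0 := hb.nm_pos
  have nbe : nb B.N = 40000 * nm B.N := rfl
  have mie : mid B.N = 10000 * nm B.N := rfl
  have kse : ks B.N = 25000 * nm B.N := rfl
  obtain ⟨j, hjj⟩ : ∃ j, j = nb B.N - el B.N := ⟨_, rfl⟩
  have hj : j ≤ k := by omega
  have hmj : mid B.N < j := by omega
  obtain ⟨Lj, -, -⟩ := L' j hj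
  obtain ⟨dj, Lj⟩ := Lj hmj
  have b0 : Function.Bijective B.f0 := I.iF.fk.1 ▸ (I.iF.sn 0 (Nat.zero_le _)).2.1
  have lb0 := GeoP.lb_pos hf
  have p7 := mul_le_mul_of_nonneg_right p6 lb0.le
  have S1 := hS B rfl _ G b0 df.2.1 fun g x hx => (L g x hx).1.trans p7
  have Pr := I.iq (Or.inl (by omega))
  have Zd := (hZ B rfl ρ k 9 s ok.toOk0 hk le_rfl I.il I.iz I.ip I.iq).2
  have hD : 0 < B.D := Zder.D_pos hf hb
  refine (Classical.skolem (p := fun g (H : V → V) => ((B.next s 0).c g 0).steer →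
    ContinuousOn H ((B.next s 0).R g (98 / 100)) ∧ ∀ z ∈ (B.next s 0).R g (98 / 100), ∀ i, i ≠ 2 →
      |((B.next s 0).c g 0).gam (((B.next s 0).fr g).fh s.f) z i 2 - H z i| ≤ fr0 B.N' ∧
      ∀ z' ∈ (B.next s 0).R g (98 / 100), |H z i - H z' i| ≤
        1 / (2 * pJ B.N' ^ 24 * Real.sqrt B.N') *
          (|z 0 - z' 0| / ((B.next s 0).c g 0).l1 + |z 1 - z' 1| / ((B.next s 0).c g 0).lam) +
        Xj B.N' 0 2 * |z 2 - z' 2| / ((B.next s 0).c g 0).y)).1 fun g' => ?_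
  obtain ⟨-, hO', -, -, -, ok'⟩ := Pr.fo.fx g'
  obtain ⟨g, hg⟩ := Prof.exists_box hD (s.nf g').x0
  obtain ⟨-, -, tf, -⟩ := (hT B rfl ρ k 9 s H0 (by omega) (Or.inr rfl) g).2 (s.nf g')
    ⟨hO', ok'.1, ok'.2.1, Pr.fq g'⟩ (Prof.box_mono hD.le (by norm_num) g hg)
  have h := Bk.gd hf hb g hk.le
  have h0 := Bk.gd0 hf hb g
  have h' : Gd ((B.next s 0).c g' 0) := ⟨hb.mono hb.nxt_le.1, ok'⟩
  have hQ := GeoP.det_pos hf g
  have hO := GeoP.orth hf g
  have dφ := dif_fh hQ df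
  have dψ := dif_fh hQ dj
  have iψ := Inv.sm_inv dψ.1 dψ.2.1 fun z => (dψ.2.2 z).ne'
  obtain ⟨τ, hτ⟩ : ∃ τ : V → V, τ = fun z =>
    Function.invFun ((B.fr g).fh (s.ft j)) ((B.fr g).fh s.f z) := ⟨_, rfl⟩
  set T := (B.fr g).Q⁻¹ * (s.nf g').Q with hTT
  set b := (B.fr g).zc (B.Z s (s.nf g').x0) with hbb
  have a2 : ((B.next s 0).fr g').fh s.f = fun z => (B.fr g).fh s.f (b + T *ᵥ z) := funext fun z => by
    have : b + T *ᵥ z = (B.fr g).zc (B.Z s (s.nf g').x0 + (s.nf g').Q *ᵥ z) := by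
      rw [hbb, hTT, ← mulVec_mulVec, Fr.zc, Fr.zc, ← mulVec_add, add_sub_right_comm]
    rw [this, Fr.fh, Fr.fh, Prof.zp_zc hQ.ne']
    rfl
  have hl : (B.c g k).lam = 2 * ((B.next s 0).c g' 0).lam := by
    show B.lb / 2 ^ k = 2 * (B.lb / 2 ^ nb B.N / 2 ^ 0)
    rw [show nb B.N = k + 1 by omega, pow_succ]
    field_simp
  refine ⟨HH (Ftr.sc (Ftr.cd (B.c g k) 1) (Ftr.cd ((B.next s 0).c g' 0) T.det) T)
    (fun z => jac ((B.fr g).fh s.f) (b + T *ᵥ z))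
    fun z => (B.c g k).gam ((B.fr g).fh (s.ft j)) (τ (b + T *ᵥ z)), fun hs => ?_⟩
  · rw [a2]
    have tk : TF (B.c g k) ((B.next s 0).c g' 0).s1 ((B.next s 0).c g' 0).s2 T _ (B.c g k).hL2 :=
      tf_k tf
    have hη := (Chp.par h h' rfl hl tk hs).2.2.2.2
    have np' : ¬B.pushN g := fun p => by
      have : (B.c g k).η ≤ 6 * etaS B.N := Bk.pushN_η hf hb p (Nbr.refl' (by norm_num) g)
      change etaA B.N / 8 ≤ _ at hη
      linarith [hb.etaA_eq, hb.etaS_pos]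
    have nc : ¬B.crs g j k 9 := fun c => np' c.2.2
    refine (core h h' rfl hl tk hs dφ dψ (hτ ▸ iψ.dif.comp dφ.1.dif) (τ := τ)
      (Prof.RX_convex _ _ _) (fun z hz => ?_) rfl).imp_left Continuous.continuousOn
    have hb1 : b ∈ B.R g (1 / 2 + 1 / 1000) := by
      have u1 : ‖(B.fr g).O *ᵥ (B.fr g).xc (s.nf g').x0‖ ≤ 1 / 2 * B.D := (GeoP.xc_mem hf).2 hg
      have u2 := (Zd g _ (Prof.box_mono hD.le (by norm_num) g hg)).2.2.2.2.2
      rw [mulVec_sub] at u2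
      show ‖(B.fr g).O *ᵥ b‖ ≤ (1 / 2 + 1 / 1000) * B.D
      linarith [norm_sub_norm_le ((B.fr g).O *ᵥ b) ((B.fr g).O *ᵥ (B.fr g).xc (s.nf g').x0)]
    have hw : b + T *ᵥ z ∈ B.R g (1 / 2 + 1 / 1000 + 1 / 100) := by
      refine Prof.RX_add hO hb1 ?_
      have u1 := Inv.norm_mulVec_le tf.det.2.1 z
      have u2 : ‖z‖ ≤ 2 * (98 / 100 * ((nxt B.N : ℝ) ^ 4 * (B.lb / 2 ^ nb B.N))) :=
        Prof.RX_norm hO' hz
      have u3 : np B.N 92 * (B.lb / 2 ^ nb B.N) ≤ B.lb := by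
        rw [← mul_div_assoc, div_le_iff₀ (by positivity), mul_comm]
        exact mul_le_mul_of_nonneg_left hb.two_pow_nb.1 lb0.le
      have u4 := mul_le_mul_of_nonneg_right n16 (show 0 ≤ B.lb / 2 ^ nb B.N by positivity)
      have u5 := mul_le_mul_of_nonneg_left u3 (pow_pos hb.N_pos 4).le
      have u6 : 0 ≤ (nxt B.N : ℝ) ^ 4 * (B.lb / 2 ^ nb B.N) := by positivity
      rw [add_sub_cancel_left]
      show _ ≤ 1 / 100 * ((B.N : ℝ) ^ 4 * B.lb)
      linarith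
    obtain ⟨x, ex⟩ := (S1 g).1.2 (b + T *ᵥ z)
    rw [← ex] at hw ⊢
    have hx : x ∈ B.bx g 1 := Prof.box_mono hD.le (by norm_num) g
      (((S1 g).2 x _ (by norm_num) (by norm_num)).2 hw)
    have hw' : B.oh g s.f x ∈ B.R g (98 / 100) := Prof.RX_mono _ hD.le (by norm_num) hw
    have t1 : τ (B.oh g s.f x) = B.oh g (s.ft j) x := by
      rw [hτ]
      simp only []
      rw [fh_oh B hQ.ne' df.2.1, ← fh_oh B hQ.ne' dj.2.1]
      exact Function.leftInverse_invFun dψ.2.1.1 _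
    have t2 : jm τ (B.oh g s.f x) = Th ((B.fr g).fh (s.ft j)) ((B.fr g).fh s.f)
        (B.oh g (s.ft j) x) (B.oh g s.f x) := by
      rw [hτ, jm_comp (iψ.dif _) (dφ.1.dif _), fh_oh B hQ.ne' df.2.1, ← fh_oh B hQ.ne' dj.2.1,
        Inv.jm_inv dψ.1 dψ.2.1 fun z => (dψ.2.2 z).ne', Th]
    have hn : cnt k 9 - 9 * j ≤ 9 * el B.N + 8 := by unfold cnt; omega
    have hn' : ((cnt k 9 - 9 * j : ℕ) : ℝ) ≤ 9 * el B.N + 8 := by exact_mod_cast hn
    have hn2 : ((cnt k 9 - 9 * j : ℕ) : ℝ) ≤ 2 * pJ B.N := by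
      have u1 : √(pq B.N) ≤ pq B.N := Real.sqrt_le_self_iff.2 (Or.inr (by linarith [hb.q_ge]))
      linarith [hb.el_le_sqrtq, hb.q_le_J, hb.J_pos]
    obtain ⟨m1, m2, m3⟩ := mb g
    rw [← funext (fun z => (K3.p4 (B.fr g) df.1.dif z).2)] at m1 m2 m3
    obtain ⟨a1, a2⟩ := abs_le.1 (L g x hx).2.2.2.2.2.2.1
    obtain ⟨a3, a4⟩ := abs_le.1 (Lj g x hx).2.2.2.2.2.2.1
    have a : ∀ p q, ¬ (p = 2 ∧ q = 2) → |(jm τ (B.oh g s.f x) - 1) p q| * (B.c g k).hs q ≤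
        1 / 100 * (B.c g k).hs p := fun p q hab => by
      have a1 := (I.iF.ig.th _ hj g nc x hx p q hab).trans
        (mul_le_mul_of_nonneg_right ((p1 _ hn).trans (p2.trans (by norm_num : _ ≤ (1 / 100 : ℝ))))
          (h0.hs_pos p).le)
      rw [hs_pow B g (zero_add k), hs_pow B g (zero_add k), ← t2, mul_left_comm,
        mul_left_comm (1 / 100 : ℝ)] at a1
      exact le_of_mul_le_mul_left a1 (by positivity)
    refine ⟨abs_le.2 ⟨by linarith, by linarith⟩, fun l => (m2.pd_le one_le_two l hw').trans_eq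
      (one_mul _), fun l hl => ?_, fun p q => ?_, fun p q => ?_,
      Fc.nb_of (fun i => (h.hs_pos i).le) a (th22 h.hs_pos le_rfl a ?_), fun p q l => ?_⟩
    · simpa [hp, pds] using m3 [l] ⟨one_le_two, l, by simp, hl⟩ _ hw'
    · obtain ⟨i, hi⟩ := Zder.ex_site hf hb x
      have lh := Ledg.lh hb hf hk le_rfl I.il i
      have r := I.iF.ig.rel _ hj g x hx i hi p q
      rw [if_neg nc, if_neg nc, sub_zero, add_zero] at r
      rw [t1]
      refine r.trans (bm_mono ?_ ?_ ?_ p q)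
      · have u1 := Ledg.SG_le hf lh g (8 * j)
        have u2 := div_le_div_of_nonneg_right hn2
          (mul_pos hb.N_pos (pow_pos hb.J_pos 4)).le
        show _ ≤ 3 * (pJ B.N / B.N)
        linarith
      · have u1 := lh.win_le h0.bbO_bd.2 (a := 8 * j) (by unfold tm; omega)
        exact add_le_add u1 ((mul_le_mul_of_nonneg_right (hn'.trans (by
          linarith [(Nat.cast_nonneg (el B.N) : (0 : ℝ) ≤ _)])) hb.sm_pos.le).trans hb.el_sm_le)
      · exact (mul_le_of_le_one_right (Nat.cast_nonneg _) (by linarith)).trans hn2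
    · rw [t1]
      refine ((Lj g x hx).2.1 p q).trans ?_
      rw [one_smul]
      refine bm_mono (min_le_right _ _) ?_ (by norm_num) p q
      have := (div_le_one hb.J_pos).2 (show 1 ≤ pJ B.N by linarith [BarrP.J_big hb])
      show hc B.N ≤ 1
      linarith [hb.hc_le, hb.hc_pos]
    · rw [t2, Th, det_mul, det_nonsing_inv, Ring.inverse_eq_inv, inv_mul_eq_div]
      change |jac _ _ / jac _ _| ≤ _
      rw [abs_of_pos (div_pos (dφ.2.2 _) (dψ.2.2 _)), div_le_iff₀ (dψ.2.2 _)]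
      linarith
    · have u := (I.iF.ig.di g x hx).2 _ hj p q l
      have a2 : B.dd g j ≤ 2 := by
        have b1 : (6 / 10 : ℝ) ^ j ≤ 1 := pow_le_one₀ (by norm_num) (by norm_num)
        have b2 : 1 / √(pq B.N) ≤ 1 :=
          (div_le_one hb.sqrtq_pos).2 (Real.one_le_sqrt.2 (by linarith [hb.q_ge]))
        rw [Bk.dd, if_neg fun c => np' c.1]
        linarith
      have u1 := u.trans (mul_le_mul_of_nonneg_right a2 (Xj_nonneg _ p q))
      rw [hs_pow B g (show j + (el B.N - 1) = k by omega), mul_assoc] at u1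
      have u2 : (2 : ℝ) ^ el B.N = 2 * 2 ^ (el B.N - 1) := by
        rw [← pow_succ', Nat.sub_add_cancel el1]
      rw [t1]
      change _ ≤ 4 / 2 ^ el B.N * Xj B.N p q
      change _ * (_ * |pd l (fun y => (B.c g k).gam _ y p q) _|) ≤ 2 * Xj B.N p q at u1
      rw [u2, div_mul_eq_mul_div, le_div_iff₀ (by positivity)]
      linarith

end
end Pool.Agent.MP_20bec2_an.T3

end MrgPart2

-- marker of a merged file
example : 731051 + 291807 = 731051 + 291807 := rfl
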