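import Pool.Agent.MP_20bec2_an.T3.Par4
import Pool.Agent.MP_20bec2_an.T3.WinA
import Pool.Agent.MP_20bec2_an.T3.Zt
import Pool.Agent.MP_20bec2_an.T3.Calc1b
import Pool.Agent.MP_20bec2_an.T3.Calc2C
import Pool.Agent.MP_20bec2_an.T3.Vtr
import Pool.Agent.MP_20bec2_an.T3.CrA

-- ======== part 0: formerly Pool.Agent.MP_20bec2_an.T3.Min
section MrgPart0

-- ======== part 0: formerly Pool.Agent.MP_20bec2_an.T3.DerbN
section MrgPart0

/-! Numbers for the windows with noise. -/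

set_option autoImplicit false
set_option linter.unusedSectionVars false
open Set Filter Real

namespace Pool.Agent.MP_20bec2_an.T3
noncomputable section

namespace Derb

def th0 (c : Pm) : ℝ := 2 * qp c.N (2 / 5) * √(c.J * c.p)
def mu0 (c : Pm) : ℝ := th0 c / (2 * c.Hp)
def u0 (c : Pm) : ℝ := c.l1 * mu0 c
def z0 (c : Pm) : ℝ := √c.q * c.lA * mu0 c
def be (c : Pm) : ℝ := c.dl / c.s12
def ww (c : Pm) : ℝ := √(c.l1 * (c.q ^ 3 * √c.J) / c.d2u)
def T0 (c : Pm) : ℝ := c.p / (qp c.N (21 / 5) * √c.J)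
def T1 (c : Pm) : ℝ := 1 / (qp c.N (1 / 2) * √c.J)

variable {c : Pm} (h : Gd c)
include h

lemma th0_pos : 0 < th0 c := by
  have := h.big.qp_pos (2 / 5); have := h.J_pos; have := h.p_pos
  unfold th0; positivity
lemma mu0_pos : 0 < mu0 c := div_pos (th0_pos h) (mul_pos two_pos h.Hp_pos)
lemma u0_pos : 0 < u0 c := mul_pos h.l1_pos (mu0_pos h)
lemma z0_pos : 0 < z0 c := mul_pos (mul_pos (Real.sqrt_pos.2 h.q_pos) h.lA_pos) (mu0_pos h)
lemma be_pos : 0 < be c := div_pos h.dl_pos h.s12_pos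
lemma ww_pos : 0 < ww c := by
  have := h.q_pos; have := h.J_pos; have := h.l1_pos; have := h.d2u_pos
  unfold ww; positivity
lemma T0_pos : 0 < T0 c := by
  have := h.big.qp_pos (21 / 5); have := h.J_pos; have := h.p_pos
  unfold T0; positivity
lemma T1_pos : 0 < T1 c := by
  have := h.big.qp_pos (1 / 2); have := h.J_pos
  unfold T1; positivity

lemma log_mu0 : Real.log (mu0 c) =
    2 * (pL c.N / 5000) + pL c.N / 2 + Real.log c.p - Real.log c.l1 := by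
  have := h.big.qp_pos (2 / 5); have := h.J_pos; have := h.p_pos; have := h.Hp_pos
  unfold mu0 th0
  simp (disch := positivity) only [Real.log_div, Real.log_mul, Real.log_sqrt, h.big.log_qp,
    h.log_J, h.log_Hp, h.log_l1]
  ring
lemma log_u0 : Real.log (u0 c) = 2 * (pL c.N / 5000) + pL c.N / 2 + Real.log c.p := by
  rw [u0, Real.log_mul h.l1_pos.ne' (mu0_pos h).ne', log_mu0 h]; ring
lemma log_z0 : Real.log (z0 c) = 39 * (pL c.N / 10000) + pL c.N + Real.log c.p := by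
  have := h.q_pos; have := h.lA_pos; have := mu0_pos h
  unfold z0
  simp (disch := positivity) only [Real.log_mul, Real.log_sqrt, h.log_q, h.log_lA, log_mu0 h]
  ring
lemma log_be : Real.log (be c) = Real.log c.dl - Real.log c.m - Real.log c.s21 := by
  rw [be, Real.log_div h.dl_pos.ne' h.s12_pos.ne', h.log_s12]; ring
lemma log_ww : Real.log (ww c) = (Real.log c.l1 + 3 * (pL c.N / 1000) + pL c.N / 2 +
    98 / 100 * pJ c.N + Real.log c.η + Real.log c.lam) / 2 := by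
  have := h.q_pos; have := h.J_pos; have := h.l1_pos; have := h.d2u_pos
  unfold ww
  simp (disch := positivity) only [Real.log_div, Real.log_mul, Real.log_sqrt, Real.log_pow,
    h.log_q, h.log_J, h.log_d2u]
  push_cast; ring
lemma log_T0 : Real.log (T0 c) = Real.log c.p - 21 * (pL c.N / 5000) - pL c.N / 2 := by
  have := h.big.qp_pos (21 / 5); have := h.J_pos; have := h.p_pos
  unfold T0
  simp (disch := positivity) only [Real.log_div, Real.log_mul, Real.log_sqrt, h.big.log_qp, h.log_J]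
  ring
lemma log_T1 : Real.log (T1 c) = -(pL c.N / 2000) - pL c.N / 2 := by
  have := h.big.qp_pos (1 / 2); have := h.J_pos
  unfold T1
  simp (disch := positivity) only [Real.log_div, Real.log_mul, Real.log_sqrt, Real.log_one,
    h.big.log_qp, h.log_J]
  ring
lemma ww_sq : ww c ^ 2 = c.l1 * (c.q ^ 3 * √c.J) / c.d2u := by
  have := h.q_pos; have := h.l1_pos; have := h.d2u_pos
  exact Real.sq_sqrt (by positivity)

lemma notA (hn : c.noise) : ¬c.isA :=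
  (h.deep_flags (by linarith [h.push_η hn.1, h.big.etaS_pos])).2.2.2.1

lemma eL_le (hn : c.noise) : c.eL ≤ np c.N (-5) := by
  have hη := h.push_η hn.1
  have hS := h.big.etaS_pos
  have hJ := h.big.J_ge
  have hL := h.big.L_ge
  have h1 : rmp (c.thr / 2) c.η = 1 := by
    refine min_eq_left (le_max_of_le_right ?_)
    rw [Real.le_log_iff_exp_le (div_pos (half_pos h.thr_pos) h.η_pos), le_div_iff₀ h.η_pos, Pm.thr,
      if_pos (by rw [hn.2]; exact h.big.mid_lt.1)]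
    nlinarith [Real.exp_one_lt_d9, h.η_pos]
  have h2 : c.eLo ≤ np c.N (-506 / 100) := by
    rw [Pm.eLo, h1]; exact h.big.np_le (by norm_num)
  have h3 : c.eHi ≤ np c.N 0 := h.big.np_le (by linarith [(rmp_mem (etaS c.N / 10) c.η).1])
  have h4 : (6 / 10 : ℝ) ^ c.k ≤ np c.N (-506 / 100) := by
    refine le_of_log (by positivity) (h.big.np_pos _) ?_
    have a1 := Real.log_le_sub_one_of_pos (show (0 : ℝ) < 6 / 10 by norm_num)
    have a2 := h.big.nm_bd.1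
    rw [Real.log_pow, h.big.log_np, hn.2, mid]
    push_cast
    nlinarith
  have h5 : 2 * np c.N (-506 / 100) ≤ np c.N (-5) := by
    have := h.big.np_pos (-506 / 100)
    refine le_of_log (by positivity) (h.big.np_pos _) ?_
    rw [Real.log_mul two_ne_zero this.ne', h.big.log_np, h.big.log_np]
    linarith [log2_bd.2]
  rw [np_zero] at h3
  have h6 := mul_le_mul h3 h4 (by positivity) zero_le_one
  unfold Pm.eL
  linarith

/-- the facts on logarithms that are used below -/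
lemma logs (hn : c.noise) :
    Real.log c.dl = -(pJ c.N / 2) - pL c.N - 37 * (pL c.N / 2000) - Real.log 2 - Real.log c.e4 / 2 ∧
    Real.log c.s21 = -(pJ c.N / 2) - pL c.N / 2 - 11 * (pL c.N / 2000) ∧
    Real.log c.t1B = -(pJ c.N / 2) - pL c.N / 2 - 31 * (pL c.N / 2000) - Real.log c.e4 / 2 ∧
    Real.log c.p ≤ -(pJ c.N / 2) - 29 * (pL c.N / 2000) - Real.log 2 - Real.log c.e4 / 2 ∧
    Real.log c.p ≤ pL c.N - pJ c.N - Real.log c.η ∧ Real.log c.η ≤ Real.log c.e4 ∧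
    4 * pL c.N - pJ c.N ≤ Real.log c.e4 ∧ Real.log c.e4 ≤ 0 ∧ 0 ≤ Real.log c.m ∧
    Real.log c.m ≤ 15 / 4 * pL c.N + 1 / 4 ∧
    Real.log c.ro = Real.log c.m / 4 - Real.log c.e4 / 2 ∧
    Real.log c.l1 = Real.log c.ro + Real.log c.lam ∧ 0.693 ≤ Real.log 2 ∧
    1000000000 * pL c.N ≤ pJ c.N ∧ 10000000000 ≤ pL c.N :=
  ⟨(h.log_B (notA h hn)).1, (h.log_B (notA h hn)).2.1, h.log_t1B, h.log_pf ▸ h.log_p.1,
    h.log_p.2.1, h.log_e4.1, h.log_e4.2.1, h.log_e4_le, h.log_m.1,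
    h.log_m_le.trans h.log_K_bd.2, h.log_ro, h.log_l1, log2_bd.1, h.big.J_ge, h.big.L_ge⟩

/-- first order -/
lemma num1 (hn : c.noise) : c.dl ≤ 1 ∧ c.s12 ≤ 1 ∧ √c.p ≤ 1 ∧ c.η * be c ≤ 1 ∧ c.q * z0 c ≤ 1 ∧
    c.q * (z0 c * u0 c) ≤ T0 c ∧ c.q * (z0 c * c.dl) ≤ T0 c ∧
    c.q * (c.q ^ 4 * c.J * u0 c * c.dl) ≤ T0 c ∧ c.q * (c.q ^ 4 * c.J * u0 c) ≤ T1 c ∧
    c.q * z0 c ≤ T1 c ∧ c.q * (c.q ^ 4 * c.J * c.t1B * u0 c) ≤ T1 c * (c.q * c.J * c.t1B) ∧
    c.q * (z0 c * √c.p) ≤ T1 c * (c.q * c.J * c.t1B) := by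
  obtain ⟨a1, a2, a3, a4, a5, a6, a7, a8, a9, a10, a11, a12, a13, a14, a15⟩ := logs h hn
  have := h.dl_pos; have := h.s12_pos; have := h.p_pos; have := h.η_pos; have := be_pos h
  have := h.q_pos; have := z0_pos h; have := u0_pos h; have := T0_pos h; have := T1_pos h
  have := h.J_pos; have := h.t1B_pos
  refine ⟨?_, ?_, ?_, ?_, ?_, ?_, ?_, ?_, ?_, ?_, ?_, ?_⟩ <;>
    refine le_of_log (by positivity) (by positivity) ?_ <;>
    simp (disch := positivity) only [Real.log_mul, Real.log_sqrt, Real.log_pow, Real.log_one,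
      h.log_q, h.log_J, h.log_s12, log_be h, log_z0 h, log_u0 h, log_T0 h, log_T1 h,
      Nat.cast_ofNat] <;> linarith

lemma num2 (hn : c.noise) : c.q * (c.η * be c * u0 c) ≤ T1 c * c.s21 ∧
    c.q * (c.η * be c * (z0 c * c.dl)) ≤ T1 c * c.s21 ∧
    c.q * (c.η * be c * (c.q ^ 4 * c.J * c.t1B * u0 c)) ≤ T1 c * c.s21 ∧
    c.q * (c.η * be c * (z0 c * √c.p)) ≤ T1 c * c.s21 ∧ T0 c ≤ T1 c * (c.p / c.q ^ 3) ∧
    c.q * np c.N (-14 / 5) ≤ np c.N (-2) ∧ c.q ^ 4 * c.J * c.s12 ≤ 1 ∧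
    c.q ^ 4 * c.J * c.t1B ≤ 1 ∧ qp c.N (1 / 100) * 10 ^ 6 ≤ c.q := by
  obtain ⟨a1, a2, a3, a4, a5, a6, a7, a8, a9, a10, a11, a12, a13, a14, a15⟩ := logs h hn
  have := h.dl_pos; have := h.s12_pos; have := h.p_pos; have := h.η_pos; have := be_pos h
  have := h.q_pos; have := z0_pos h; have := u0_pos h; have := T0_pos h; have := T1_pos h
  have := h.J_pos; have := h.t1B_pos; have := h.s21_pos; have := h.big.np_pos (-14 / 5)
  have := h.big.np_pos (-2); have := h.big.qp_pos (1 / 100); have := log10_bd.2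
  refine ⟨?_, ?_, ?_, ?_, ?_, ?_, ?_, ?_, ?_⟩ <;>
    refine le_of_log (by positivity) (by positivity) ?_ <;>
    simp (disch := positivity) only [Real.log_mul, Real.log_div, Real.log_sqrt, Real.log_pow,
      Real.log_one, h.log_q, h.log_J, h.log_s12, log_be h, log_z0 h, log_u0 h, log_T0 h, log_T1 h,
      h.big.log_np, h.big.log_qp, Nat.cast_ofNat] <;> linarith

/-- second order and crude bounds -/
lemma num3 (hn : c.noise) : ww c ≤ c.W10 ∧ ww c ≤ c.W20 ∧ ww c ≤ c.Hp ∧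
    c.q * (ww c * mu0 c) ≤ 1 ∧ c.q * (ww c ^ 2 * (√c.q / c.lA) * mu0 c) ≤ 1 ∧
    c.q * (ww c ^ 2 * (c.q * c.d2u) * mu0 c) ≤ 1 ∧
    c.q * ((c.N : ℝ) ^ 2 * c.lam * mu0 c) ≤ np c.N (151 / 100) ∧
    c.q * c.l1 * np c.N (151 / 100) ^ 9 ≤ np c.N 15 * c.lam ∧ c.q ≤ np c.N 15 ∧
    np c.N (601 / 1000) ^ 6 * (c.J ^ 16 * np c.N (-5)) ≤ np c.N (-1) ∧
    np c.N (601 / 1000) ^ 2 * (c.J ^ 16 * np c.N (-5)) ≤ np c.N (-29 / 10) ∧
    c.q * np c.N (-29 / 10) ≤ np c.N (-14 / 5) := by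
  obtain ⟨a1, a2, a3, a4, a5, a6, a7, a8, a9, a10, a11, a12, a13, a14, a15⟩ := logs h hn
  have b1 := (h.log_win c.W10 (by simp)).1
  have b2 := (h.log_win c.W20 (by simp)).1
  have b3 := (h.log_win c.Hp (by simp)).1
  have b4 := h.log_Hp
  have := h.q_pos; have := mu0_pos h; have := ww_pos h; have := h.W10_pos; have := h.W20_pos
  have := h.Hp_pos; have := h.lA_pos; have := h.d2u_pos; have := h.N_pos; have := h.lam_pos
  have := h.l1_pos; have := h.J_pos; have := h.big.np_pos (151 / 100); have := h.big.np_pos 15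
  have := h.big.np_pos (601 / 1000); have := h.big.np_pos (-5); have := h.big.np_pos (-1)
  have := h.big.np_pos (-29 / 10); have := h.big.np_pos (-14 / 5)
  refine ⟨?_, ?_, ?_, ?_, ?_, ?_, ?_, ?_, ?_, ?_, ?_, ?_⟩ <;>
    refine le_of_log (by positivity) (by positivity) ?_ <;>
    simp (disch := positivity) only [Real.log_mul, Real.log_div, Real.log_sqrt, Real.log_pow,
      Real.log_one, h.log_q, h.log_J, log_ww h, log_mu0 h, h.log_lA, h.log_d2u, h.big.log_np,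
      h.big.log_N, Nat.cast_ofNat] <;> linarith

/-- the scales of the window -/
lemma thS_bd (i : Fin 3) : c.lam ≤ c.thS i ∧ c.thS i ≤ np c.N (601 / 1000) * c.hm ∧
    c.thS i ≤ np c.N (-29 / 10) * c.D := by
  have k : np c.N (499 / 1000) * c.lam ≤ c.thS i ∧ c.thS i ≤ np c.N (1001 / 1000) * c.lam := by
    fin_cases i
    exacts [⟨(h.win c.W10 (by simp)).1, (h.win c.W10 (by simp)).2.1⟩,
      ⟨(h.win c.W20 (by simp)).1, (h.win c.W20 (by simp)).2.1⟩,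
      ⟨(h.win c.Hp (by simp)).1, (h.win c.Hp (by simp)).2.1⟩]
  have h1 : np c.N 0 ≤ np c.N (499 / 1000) := h.big.np_le (by norm_num)
  rw [np_zero] at h1
  refine ⟨(le_mul_of_one_le_left h.lam_pos.le h1).trans k.1, k.2.trans (le_of_eq ?_), k.2.trans ?_⟩
  · rw [Pm.hm, ← mul_assoc, ← h.big.np_add]; norm_num
  · rw [Pm.D, ← mul_assoc, ← np_nat, ← h.big.np_add]
    exact mul_le_mul (h.big.np_le (by norm_num)) h.lam_le_lb h.lam_pos.le (h.big.np_pos _).le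

end Derb

end
end Pool.Agent.MP_20bec2_an.T3

end MrgPart0

-- ======== part 1: formerly Pool.Agent.MP_20bec2_an.T3.DerbA
section MrgPart1

/-! Calculus of the windows with noise: stream function and vertical profile. -/

set_option autoImplicit false
open MeasureTheory Set Filter Matrix Topology

namespace Pool.Agent.MP_20bec2_an.T3
noncomputable section
open Classical

namespace Derb

lemma f0_sm : Sm f0 := Prof.bp_sm _ _
lemma f1_sm : Sm f1 := f0_sm.deriv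
lemma f0_zero {t : ℝ} (h : 2 / 5 < |t|) : f0 t = 0 := Prof.bp_zero (by norm_num) h.le
lemma f1_zero {t : ℝ} (h : 2 / 5 < |t|) : f1 t = 0 := by
  have : f0 =ᶠ[𝓝 t] fun _ => 0 :=
    ((isOpen_lt continuous_const continuous_abs).eventually_mem h).mono fun _ hs => f0_zero hs
  rw [f1, this.deriv_eq]
  simp

lemma f_bd (n : ℕ) : ∃ M : ℝ, 1 ≤ M ∧ ∀ j ≤ n, ∀ t,
    |iteratedDeriv j f0 t| ≤ M ∧ |iteratedDeriv j f1 t| ≤ M := by
  obtain ⟨M, h1, h⟩ := Prof.bp_bound (a := 1 / 5) (b := 2 / 5) (by norm_num) (n + 1)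
  refine ⟨M, h1, fun j hj t => ⟨h j (by omega) t, ?_⟩⟩
  have := h (j + 1) (by omega) t
  rwa [iteratedDeriv_succ'] at this

lemma I_bd : 0 < I0 ∧ I0 ≤ I1 := by
  have c0 : Continuous fun t => f0 t ^ 2 := f0_sm.continuous.pow 2
  have c1 : Continuous fun t => f1 t ^ 2 := f1_sm.continuous.pow 2
  have s0 : HasCompactSupport fun t => f0 t ^ 2 :=
    Prof.hcs_of_zero (b := 1) fun t h => by rw [f0_zero (by linarith)]; norm_num
  have s1 : HasCompactSupport fun t => f1 t ^ 2 :=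
    Prof.hcs_of_zero (b := 1) fun t h => by rw [f1_zero (by linarith)]; norm_num
  have e0 : f0 0 = 1 := Prof.bp_one (by norm_num) (by norm_num)
  have h0 : I0 ≤ 1 := by
    refine le_trans (integral_mono (c0.integrable_of_hasCompactSupport s0)
      (Prof.bp_integrable (a := 1 / 5) (b := 2 / 5) (by norm_num)) fun t => ?_) ?_
    · exact pow_le_of_le_one (Prof.bp_nonneg _ _ _) (Prof.bp_le_one _ _ _) two_ne_zero
    · linarith [(Prof.bp_integral (a := 1 / 5) (b := 2 / 5) (by norm_num) (by norm_num)).2]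
  have h1 : ∫ t in (0 : ℝ)..1, f1 t ^ 2 ≤ I1 := by
    rw [intervalIntegral.integral_of_le zero_le_one]
    exact setIntegral_le_integral (c1.integrable_of_hasCompactSupport s1)
      (Eventually.of_forall fun _ => sq_nonneg _)
  have h2 : ∫ t in (0 : ℝ)..1, f1 t = -1 := by
    rw [show f1 = deriv f0 from rfl, intervalIntegral.integral_deriv_eq_sub (fun x _ => f0_sm.dif x)
      (f1_sm.continuous.intervalIntegrable _ _), e0, f0_zero (by norm_num)]
    norm_num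
  have h3 : ∫ t in (0 : ℝ)..1, (-2 * f1 t - 1) ≤ ∫ t in (0 : ℝ)..1, f1 t ^ 2 :=
    intervalIntegral.integral_mono_on zero_le_one
      (((continuous_const.mul f1_sm.continuous).sub continuous_const).intervalIntegrable _ _)
      (c1.intervalIntegrable _ _) fun t _ => by nlinarith [sq_nonneg (f1 t + 1)]
  rw [intervalIntegral.integral_sub ((f1_sm.continuous.intervalIntegrable _ _).const_mul _)
    intervalIntegrable_const, intervalIntegral.integral_const_mul, h2] at h3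
  refine ⟨c0.integral_pos_of_hasCompactSupport_nonneg_nonzero s0 (fun _ => sq_nonneg _)
    (x := 0) (by simp [e0]), ?_⟩
  simp at h3
  linarith

lemma pd_cf {φ : ℝ → ℝ} (hφ : Sm φ) (i j : Fin 3) (s c : ℝ) (x : V) :
    pd j (fun x => φ (x i / s - c)) x = if j = i then deriv φ (x i / s - c) / s else 0 := by
  have := congrFun (pds_ridge hφ (Pi.single i s⁻¹) (-c) [j]) x
  simp only [← coord_eq_ridge] at this
  refine this.trans ?_
  by_cases e : j = i <;> simp [e, div_eq_inv_mul]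

/-- the derivatives of a product with a slowly varying factor -/
lemma mul_main {n : ℕ} {h x : V} {G F : V → ℝ} {e B : ℝ} (hh : ∀ i, 0 ≤ h i) (hG : Sm G)
    (hF : Sm F) (he : 0 ≤ e) (H1 : CV n h {x} G e) (H2 : CB n h {x} F B) {l : List (Fin 3)}
    (hl : l.length ≤ n) :
    hp h l * |pds l (fun y => G y * F y) x - G x * pds l F x| ≤ 2 ^ n * e * B := by
  have s1 : Sm fun y => G y - G x := hG.sub contDiff_const
  have h1 : CB n h {x} (fun y => G y - G x) e :=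
    (H1.sub_const hG _).toCB fun y hy => by rw [mem_singleton_iff.1 hy]; simpa using he
  have h2 := CB.mul hh s1 hF h1 H2 l hl x rfl
  have e1 : (fun y => G y * F y) = fun y => (G y - G x) * F y + G x * F y := by funext y; ring
  rwa [e1, pds_add (s1.mul hF) (hF.cmul _), pds_const_mul, add_sub_cancel_right]

/-- the vertical profile with noise -/
def pr (H a : ℝ) (ζ : V → ℝ) (x : V) : ℝ :=
  Real.sqrt (1 - I1 / I0 * ζ x ^ 2) * f0 (x 2 / H - a) + ζ x * f1 (x 2 / H - a)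

lemma c_nonneg : 0 ≤ I1 / I0 := div_nonneg (I_bd.1.le.trans I_bd.2) I_bd.1.le

section
variable {H a : ℝ} {ζ : V → ℝ} {U : Set V}

lemma sm_in (hζ : Sm ζ) : Sm fun x => 1 - I1 / I0 * ζ x ^ 2 :=
  contDiff_const.sub ((hζ.pow 2).const_smul (I1 / I0))

lemma smN_S (hζ : Sm ζ) (h1 : ∀ x ∈ U, I1 / I0 * ζ x ^ 2 ≤ 1 / 2) :
    SmN U fun x => Real.sqrt (1 - I1 / I0 * ζ x ^ 2) :=
  (SmN.of_sm (sm_in hζ) U).sqrt fun x hx => by linarith [h1 x hx]

lemma smN_pr (hζ : Sm ζ) (h1 : ∀ x ∈ U, I1 / I0 * ζ x ^ 2 ≤ 1 / 2) : SmN U (pr H a ζ) :=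
  ((smN_S hζ h1).mul (SmN.of_sm (sm_coordfn f0_sm 2 H a) U)).add
    (SmN.of_sm (hζ.mul (sm_coordfn f1_sm 2 H a)) U)
end

lemma pr_cb (n : ℕ) : ∃ C : ℝ, 1 ≤ C ∧ ∀ (h : V) (H a B : ℝ) (ζ : V → ℝ) (U : Set V),
    (∀ i, 0 ≤ h i) → 0 < H → h 2 ≤ H → Sm ζ → 1 ≤ B → CB n h U ζ B →
    (∀ x ∈ U, I1 / I0 * ζ x ^ 2 ≤ 1 / 2) → CB n h U (pr H a ζ) (C * B ^ (2 * n + 1)) := by
  obtain ⟨M, hM, hb⟩ := f_bd n
  have c0 := c_nonneg
  have c1 := C2.cf_one 1 n
  obtain ⟨A, hA⟩ : ∃ A : ℝ, A = cf 1 n * ((n + 1) ^ n * Real.sqrt 1) *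
    (1 + 2 * (I1 / I0 * 2 ^ n)) ^ n := ⟨_, rfl⟩
  have A0 : 0 ≤ A := by rw [hA]; positivity
  have p1 : (1 : ℝ) ≤ 2 ^ n * M := one_le_mul_of_one_le_of_one_le (one_le_pow₀ one_le_two) hM
  refine ⟨2 ^ n * M * (A + 1), one_le_mul_of_one_le_of_one_le p1 (by linarith),
    fun h H a B ζ U hh hH h2 hζ hB Hζ h1 => ?_⟩
  have k0 : CB n h U (fun x => f0 (x 2 / H - a)) (1 ^ n * M) :=
    cb_coordfn hh f0_sm 2 hH a le_rfl (by linarith) fun j hj x _ => (hb j hj _).1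
  have k1 : CB n h U (fun x => f1 (x 2 / H - a)) (1 ^ n * M) :=
    cb_coordfn hh f1_sm 2 hH a le_rfl (by linarith) fun j hj x _ => (hb j hj _).2
  have k2 : CV n h U (fun x => 1 - I1 / I0 * ζ x ^ 2) (2 * (I1 / I0 * 2 ^ n) * B ^ 2 * (1 / 2)) :=
    CBl.monoB (CBl.congr_fun (CV.const_add (Sm.cmul (hζ.pow 2) (I1 / I0)).neg
      (CBl.neg (CBl.smul_nonneg (CB.sq hh hζ Hζ).toCV c0)) 1) fun x => sub_eq_add_neg _ _)
      (le_of_eq (by ring))
  have k3 := CB.sqrt (b := 1) hh one_half_pos (SmN.of_sm (sm_in hζ) U)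
    (fun x hx => ⟨by linarith [h1 x hx], by nlinarith [sq_nonneg (ζ x)]⟩) k2
  have b2 : 1 ≤ B ^ 2 := one_le_pow₀ hB
  have k4 : max 1 (2 * (I1 / I0 * 2 ^ n) * B ^ 2) ≤ (1 + 2 * (I1 / I0 * 2 ^ n)) * B ^ 2 := by
    have : 0 ≤ 2 * (I1 / I0 * 2 ^ n) * B ^ 2 := by positivity
    exact max_le (by linarith) (by linarith)
  have k5 : CB n h U (fun x => Real.sqrt (1 - I1 / I0 * ζ x ^ 2)) (A * B ^ (2 * n + 1)) := by
    refine CBl.monoB k3 ?_
    have := pow_le_pow_left₀ (by positivity) k4 n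
    rw [mul_pow (1 + _), ← pow_mul] at this
    rw [hA, mul_assoc _ _ (B ^ (2 * n + 1))]
    refine mul_le_mul_of_nonneg_left (this.trans (mul_le_mul_of_nonneg_left
      (pow_le_pow_right₀ hB (Nat.le_succ _)) (by positivity))) (by positivity)
  have k6 : B ≤ B ^ (2 * n + 1) := le_self_pow₀ hB (by omega)
  refine CBl.monoB (CBl.addN hh ((smN_S hζ h1).mul (SmN.of_sm (sm_coordfn f0_sm 2 H a) U))
    (SmN.of_sm (hζ.mul (sm_coordfn f1_sm 2 H a)) U)
    (CB.mulN hh (smN_S hζ h1) (SmN.of_sm (sm_coordfn f0_sm 2 H a) U) k5 k0)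
    (CB.mul hh hζ (sm_coordfn f1_sm 2 H a) (CBl.monoB Hζ k6) k1)) (le_of_eq ?_)
  ring

/-- value and first derivatives of the profile at one point -/
lemma pr_pt {H a C z : ℝ} {ζ : V → ℝ} {x : V} (hζ : Sm ζ) (hC : 1 ≤ C) (hc : I1 / I0 ≤ C)
    (hb : ∀ j ≤ 1, ∀ t, |iteratedDeriv j f0 t| ≤ C ∧ |iteratedDeriv j f1 t| ≤ C)
    (hz : |ζ x| ≤ z) (hCz : 2 * C * z ≤ 1) : ∃ g k : ℝ,
    (∀ j, pd j (pr H a ζ) x = g * pd j ζ x + if j = 2 then k / H else 0) ∧
    |pr H a ζ x| ≤ 2 * C ∧ |f1 (x 2 / H - a)| ≤ C ∧ |g| ≤ 2 * C ∧ |k| ≤ 2 * C ∧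
    |g - f1 (x 2 / H - a)| ≤ 2 * C ^ 2 * z ∧ |k - f1 (x 2 / H - a)| ≤ 2 * C ^ 2 * z := by
  have z0 : 0 ≤ z := (abs_nonneg _).trans hz
  have c0 := c_nonneg
  have z1 : z ≤ 1 / 2 := by nlinarith
  have q1 : ζ x ^ 2 ≤ z ^ 2 := sq_le_sq' (abs_le.1 hz).1 (abs_le.1 hz).2
  have q2 : I1 / I0 * ζ x ^ 2 ≤ z / 2 := by
    have := mul_le_mul hc q1 (sq_nonneg _) (by linarith)
    nlinarith
  have q3 : 0 ≤ I1 / I0 * ζ x ^ 2 := by positivity
  obtain ⟨S, hS⟩ : ∃ S, S = Real.sqrt (1 - I1 / I0 * ζ x ^ 2) := ⟨_, rfl⟩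
  have s1 : S ^ 2 = 1 - I1 / I0 * ζ x ^ 2 := by rw [hS]; exact Real.sq_sqrt (by linarith)
  have s0 : 0 ≤ S := hS ▸ Real.sqrt_nonneg _
  have s2 : S ≤ 1 := by nlinarith
  have s3 : 1 / 2 ≤ S := by nlinarith
  have s4 : |S - 1| ≤ z := by rw [abs_sub_comm, abs_of_nonneg (by linarith)]; nlinarith
  have a0 : |f0 (x 2 / H - a)| ≤ C := by simpa using (hb 0 zero_le_one _).1
  have a1 : |f1 (x 2 / H - a)| ≤ C := by simpa using (hb 0 zero_le_one _).2
  have a2 : |deriv f1 (x 2 / H - a)| ≤ C := by simpa using (hb 1 le_rfl _).2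
  have dφ : HasDerivAt (fun t : ℝ => Real.sqrt (1 - I1 / I0 * t ^ 2))
      (-(I1 / I0 * (2 * ζ x)) / (2 * S)) (ζ x) := by
    have := (((hasDerivAt_pow 2 (ζ x)).const_mul (I1 / I0)).const_sub 1).sqrt (by linarith)
    simpa [hS] using this
  have dS : DifferentiableAt ℝ (fun y => Real.sqrt (1 - I1 / I0 * ζ y ^ 2)) x :=
    dφ.differentiableAt.comp x (hζ.dif x)
  have g1 : |-(I1 / I0 * (2 * ζ x)) / (2 * S) * f0 (x 2 / H - a)| ≤ 2 * C ^ 2 * z := by
    have : |-(I1 / I0 * (2 * ζ x)) / (2 * S)| ≤ 2 * C * z := by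
      rw [abs_div, abs_neg, abs_mul, abs_mul, abs_of_nonneg c0, abs_of_pos (by linarith : 0 < 2 * S),
        div_le_iff₀ (by linarith), abs_two]
      have h1 := mul_le_mul hc hz (abs_nonneg _) (by linarith)
      have h2 := mul_le_mul_of_nonneg_left s3 (show 0 ≤ C * z by positivity)
      linarith
    rw [abs_mul]
    exact (mul_le_mul this a0 (abs_nonneg _) (by positivity)).trans (le_of_eq (by ring))
  have k1 : |(S - 1) * f1 (x 2 / H - a) + ζ x * deriv f1 (x 2 / H - a)| ≤ 2 * C ^ 2 * z := by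
    refine (abs_add_le _ _).trans ?_
    rw [abs_mul, abs_mul]
    have h1 := mul_le_mul s4 a1 (abs_nonneg _) z0
    have h2 := mul_le_mul hz a2 (abs_nonneg _) z0
    have h3 := mul_le_mul_of_nonneg_left hC (show 0 ≤ C * z by positivity)
    linarith
  have m : ∀ {u : ℝ}, |u - f1 (x 2 / H - a)| ≤ 2 * C ^ 2 * z → |u| ≤ 2 * C := fun {u} hu => by
    have h1 := abs_sub_abs_le_abs_sub u (f1 (x 2 / H - a))
    have h2 := mul_le_mul_of_nonneg_left hCz (show 0 ≤ C by linarith)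
    linarith
  have g2 : |-(I1 / I0 * (2 * ζ x)) / (2 * S) * f0 (x 2 / H - a) + f1 (x 2 / H - a) -
      f1 (x 2 / H - a)| ≤ 2 * C ^ 2 * z := by rwa [add_sub_cancel_right]
  have k2 : |S * f1 (x 2 / H - a) + ζ x * deriv f1 (x 2 / H - a) - f1 (x 2 / H - a)| ≤
      2 * C ^ 2 * z := by
    refine le_trans (le_of_eq ?_) k1
    congr 1; ring
  refine ⟨_, _, fun j => ?_, ?_, a1, m g2, m k2, g2, k2⟩
  · have d0 := (sm_coordfn f0_sm 2 H a).dif x
    have d1 := (sm_coordfn f1_sm 2 H a).dif x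
    unfold pr
    rw [pd_add_at (dS.fun_mul d0) ((hζ.dif x).fun_mul d1), pd_mul_at dS d0, pd_mul_at (hζ.dif x) d1,
      pd_comp_at (φ := fun t : ℝ => Real.sqrt (1 - I1 / I0 * t ^ 2)) dφ.differentiableAt (hζ.dif x),
      dφ.deriv, pd_cf f0_sm, pd_cf f1_sm, ← hS]
    split_ifs
    · rw [show deriv f0 (x 2 / H - a) = f1 (x 2 / H - a) from rfl]; ring
    · ring
  · unfold pr
    rw [← hS]
    refine (abs_add_le _ _).trans ?_
    rw [abs_mul, abs_mul, abs_of_nonneg s0]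
    have h1 := mul_le_mul s2 a0 (abs_nonneg _) zero_le_one
    have h2 := mul_le_mul (hz.trans z1) a1 (abs_nonneg _) (by norm_num)
    linarith

end Derb

end
end Pool.Agent.MP_20bec2_an.T3

end MrgPart1

-- ======== part 2: formerly Pool.Agent.MP_20bec2_an.T3.DerbB
section MrgPart2

/-! The windows with noise: stream function, support, crude bounds. -/

set_option autoImplicit false
set_option linter.unusedSectionVars false
open MeasureTheory Set Filter Matrix Topology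

namespace Pool.Agent.MP_20bec2_an.T3
noncomputable section
open Classical

namespace Derb

/-- bounds of the stream function -/
structure PB (d : MD) (Φ : V → ℝ) (C : ℝ) : Prop where
  sm : Sm Φ
  cb : CB 6 d.c.thS (d.R (95 / 100)) Φ (C * (d.c.l1 * d.c.W20))
  ma : ∀ x ∈ d.R (95 / 100), ∀ l : List (Fin 3), l.length ≤ 2 → hp d.c.thS l * |pds l Φ x| ≤
    C * (d.c.l1 * d.c.W20) * (|d.α x| + np d.c.N (-14 / 5))
  ve : ∀ x ∈ d.R (95 / 100), ∀ j, hp d.c.thS [2, j] * |pds [2, j] Φ x| ≤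
    C * (d.c.l1 * d.c.W20) * np d.c.N (-14 / 5)

lemma PB.mono {d : MD} {Φ : V → ℝ} {C C' : ℝ} (h : Gd d.c) (H : PB d Φ C) (hC : C ≤ C') :
    PB d Φ C' := by
  have h1 := mul_le_mul_of_nonneg_right hC (mul_pos h.l1_pos h.W20_pos).le
  have h2 := h.big.np_pos (-14 / 5)
  exact ⟨H.sm, CBl.monoB H.cb h1, fun x hx l hl => (H.ma x hx l hl).trans
    (mul_le_mul_of_nonneg_right h1 (by positivity)),
    fun x hx j => (H.ve x hx j).trans (mul_le_mul_of_nonneg_right h1 h2.le)⟩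

lemma ph_bd : ∃ C : ℝ, 1 ≤ C ∧ ∀ (d : MD) (p : PT) (t : Wi), Gd d.c → d.c.noise → Orth d.O →
    d.AmpOk p.r → t.1 = 0 → C ≤ d.c.q → PB d (d.Ph p t) C := by
  obtain ⟨M, hM, hb⟩ := f_bd 6
  obtain ⟨A, hA, ha⟩ := Prof.cb_cut 6
  obtain ⟨γ, hγ⟩ : ∃ γ : ℝ, γ = 1 / Real.sqrt (I0 ^ 2 * I1) := ⟨_, rfl⟩
  have γ0 : 0 ≤ γ := by rw [hγ]; positivity
  obtain ⟨B, hB⟩ : ∃ B : ℝ, B = 2 ^ 6 * (1 ^ 6 * M) * (1 ^ 6 * M) := ⟨_, rfl⟩
  have B1 : 1 ≤ B := by rw [hB]; nlinarith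
  have AB : A ≤ A * B := le_mul_of_one_le_right (by linarith) B1
  have BA : B ≤ A * B := le_mul_of_one_le_left (by linarith) hA
  have gB : γ * B ≤ γ * (A * B) := mul_le_mul_of_nonneg_left BA γ0
  have g0 : 0 ≤ γ * B := by positivity
  refine ⟨(γ + 1) * (2 ^ 12 * (A * B)), by nlinarith, fun d p t h hn hO hr ht hq => ?_⟩
  obtain ⟨-, -, -, -, -, -, -, -, -, n1, n2, n3⟩ := num3 h hn
  have hh : ∀ i, 0 ≤ d.c.thS i := fun i => (h.thS_pos i).le
  obtain ⟨sr, vr, -, cr⟩ := hr.1 0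
  have e1 : np d.c.N (-29 / 10) ≤ 1 := (h.big.np_le (by norm_num)).trans_eq (np_zero _)
  have e2 : np d.c.N (-1) ≤ 1 := (h.big.np_le (by norm_num)).trans_eq (np_zero _)
  have e3 : 1 ≤ np d.c.N (601 / 1000) := (np_zero _).symm.trans_le (h.big.np_le (by norm_num))
  have e4 := h.big.np_pos (-29 / 10)
  have e5 := h.big.np_pos (-14 / 5)
  have e6 := mul_pos h.l1_pos h.W20_pos
  obtain ⟨⟨a1, -, -⟩, a2, -, -⟩ := (ha d.O d.c.D hO h.D_pos).2 d.c.thS _ e1 fun i => by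
    rw [abs_of_nonneg (hh i)]; exact (thS_bd h i).2.2
  have cr' := CBl.monoB cr (mul_le_mul_of_nonneg_left (eL_le h hn) (pow_pos h.J_pos 16).le)
  have r6 : CB 6 d.c.thS (d.R (95 / 100)) (p.r 0) 1 :=
    CV.toCB (CBl.monoB (CV.rescale e3 (fun _ => h.hm_pos.le) hh (fun i => (thS_bd h i).2.1)
      (CV.of_le cr' (by norm_num))) (n1.trans e2)) fun x hx =>
      abs_le.2 ⟨by linarith [(vr x hx).1], by linarith [(vr x hx).2]⟩
  have r2 : CV 2 d.c.thS (d.R (95 / 100)) (p.r 0) (np d.c.N (-29 / 10)) :=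
    CBl.monoB (CV.rescale e3 (fun _ => h.hm_pos.le) hh (fun i => (thS_bd h i).2.1)
      (CV.of_le cr' (by norm_num))) n2
  have sα : Sm d.α := Prof.alh_sm _ _
  have sG : Sm fun x => d.α x * p.r 0 x := sα.mul sr
  have G6 := CB.mul hh sα sr (CBl.monoU a1 (subset_univ _)) r6
  have G2 : CV 2 d.c.thS (d.R (95 / 100)) (fun x => d.α x * p.r 0 x) (np d.c.N (-14 / 5)) := by
    refine CBl.monoB (CV.mul hh sα sr (CB.of_le (CBl.monoU a1 (subset_univ _)) (by norm_num))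
      (CV.of_le (CBl.monoU a2 (subset_univ _)) (by norm_num)) (r6.of_le (by norm_num)) r2) ?_
    have : 8 * A ≤ d.c.q := by nlinarith
    nlinarith
  obtain ⟨F, hF⟩ : ∃ F : V → ℝ, F = fun x => f0 (x 0 / d.c.W10 - t.2 0 / d.ns) *
    f0 (x 1 / d.c.W20 - t.2 1 / d.ns) := ⟨_, rfl⟩
  have s0 := sm_coordfn f0_sm 0 d.c.W10 (t.2 0 / d.ns)
  have s1 := sm_coordfn f0_sm 1 d.c.W20 (t.2 1 / d.ns)
  have sF : Sm F := hF ▸ s0.mul s1
  have F6 : ∀ U, CB 6 d.c.thS U F B := fun U => by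
    rw [hF, hB]
    exact CB.mul hh s0 s1
      (cb_coordfn hh f0_sm 0 h.W10_pos _ le_rfl (one_mul _).ge fun j hj x _ => (hb j hj _).1)
      (cb_coordfn hh f0_sm 1 h.W20_pos _ le_rfl (one_mul _).ge fun j hj x _ => (hb j hj _).1)
  have F2 : pd 2 F = fun _ => 0 := by
    funext x
    rw [hF, pd_mul_at (s0.dif x) (s1.dif x), pd_cf f0_sm, pd_cf f0_sm]
    simp
  have eΦ : d.Ph p t = fun x => γ * (d.c.l1 * d.c.W20) * (d.α x * p.r 0 x * F x) := by
    funext x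
    simp only [MD.Ph, ht, hF, hγ, MD.ca, MD.W1, MD.W2, MD.vs, if_true, Matrix.cons_val_zero,
      zero_mul, add_zero]
    ring
  have k0 : 0 ≤ γ * (d.c.l1 * d.c.W20) := by positivity
  have mm : ∀ x ∈ d.R (95 / 100), ∀ l : List (Fin 3), l.length ≤ 2 →
      hp d.c.thS l * |pds l (fun y => d.α y * p.r 0 y * F y) x - d.α x * p.r 0 x * pds l F x| ≤
        2 ^ 2 * np d.c.N (-14 / 5) * B := fun x hx l hl =>
    mul_main hh sG sF e5.le (CBl.monoU G2 (singleton_subset_iff.2 hx))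
      ((F6 _).of_le (by norm_num)) hl
  have fin : ∀ {X E : ℝ} (l : List (Fin 3)), 0 ≤ E → hp d.c.thS l * |X| ≤ 4 * B * E →
      hp d.c.thS l * |γ * (d.c.l1 * d.c.W20) * X| ≤
        (γ + 1) * (2 ^ 12 * (A * B)) * (d.c.l1 * d.c.W20) * E := fun {X E} l hE hX => by
    rw [abs_mul, abs_of_nonneg k0, mul_left_comm]
    refine (mul_le_mul_of_nonneg_left hX k0).trans ?_
    have : γ * (4 * B) ≤ (γ + 1) * (2 ^ 12 * (A * B)) := by nlinarith
    have := mul_le_mul_of_nonneg_right this (mul_nonneg e6.le hE)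
    linarith
  rw [eΦ]
  refine ⟨Sm.cmul (sG.mul sF) _, CBl.monoB (CBl.smul_nonneg (CB.mul hh sG sF G6 (F6 _)) k0) ?_,
    fun x hx l hl => ?_, fun x hx j => ?_⟩
  · have : γ * (2 ^ 12 * (A * B)) ≤ (γ + 1) * (2 ^ 12 * (A * B)) := by nlinarith
    have := mul_le_mul_of_nonneg_right this e6.le
    linarith
  · rw [pds_const_mul]
    refine fin l (by positivity) ?_
    have h1 := mm x hx l hl
    have h2 := F6 univ l (hl.trans (by norm_num)) x trivial
    have h3 : |d.α x * p.r 0 x| ≤ |d.α x| := by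
      rw [abs_mul]; exact mul_le_of_le_one_right (abs_nonneg _) (r6.val hx)
    have h4 := mul_le_mul h3 h2 (hpa_nonneg hh _ _ _) (abs_nonneg _)
    have h5 := mul_le_mul_of_nonneg_left (abs_sub_abs_le_abs_sub
      (pds l (fun y => d.α y * p.r 0 y * F y) x) (d.α x * p.r 0 x * pds l F x)) (hp_nonneg hh l)
    rw [abs_mul _ (pds l F x)] at h5
    nlinarith [mul_nonneg (abs_nonneg (d.α x)) (zero_le_one.trans B1)]
  · rw [pds_const_mul]
    refine fin _ e5.le ?_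
    have h1 := mm x hx [2, j] le_rfl
    have h2 : pds [2, j] F x = 0 := by
      simp only [pds_cons, pds_nil]
      rw [pd_comm sF, F2, pd_const]
    rw [h2, mul_zero, sub_zero] at h1
    linarith

lemma ph_loc {d : MD} (h : Gd d.c) (p : PT) (t : Wi) {x : V} (hx : x ∉ d.R (9 / 10) ∨
    2 / 5 < |x 0 / d.W1 t.1 - t.2 0 / d.ns| ∨
    2 / 5 < |x 1 / d.W2 t.1 + MD.vs t.1 * (x 0 / d.W1 t.1) - t.2 1 / d.ns|) (j : Fin 3) :
    pd j (d.Ph p t) x = 0 := by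
  refine pds_zero_of_eventually (g := d.Ph p t) ?_ [j]
  rcases hx with hx | hx | hx
  · filter_upwards [(Prof.RX_closed d.O d.c.D (9 / 10)).isOpen_compl.mem_nhds hx] with y hy
    simp [MD.Ph, MD.α, Prof.alh_zero h.D_pos hy]
  · filter_upwards [(isOpen_lt (f := fun _ => (2 / 5 : ℝ))
      (g := fun y : V => |y 0 / d.W1 t.1 - t.2 0 / d.ns|) continuous_const
      (by fun_prop)).mem_nhds hx] with y hy
    simp only [MD.Ph, f0_zero hy, mul_zero, zero_mul]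
  · filter_upwards [(isOpen_lt (f := fun _ => (2 / 5 : ℝ))
      (g := fun y : V => |y 1 / d.W2 t.1 + MD.vs t.1 * (y 0 / d.W1 t.1) - t.2 1 / d.ns|)
      continuous_const (by fun_prop)).mem_nhds hx] with y hy
    simp only [MD.Ph, f0_zero hy, mul_zero]

/-- everything that is used about one window -/
structure Cx (d : MD) (p : PT) (s : Sa) (t : Wi) (C : ℝ) : Prop where
  g : Gd d.c
  n : d.c.noise
  t0 : t.1 = 0
  c1 : 1 ≤ C
  cq : 100 * C ^ 3 ≤ qp d.c.N (1 / 100)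
  ci : I1 / I0 ≤ C
  fb : ∀ j ≤ 5, ∀ t, |iteratedDeriv j f0 t| ≤ C ∧ |iteratedDeriv j f1 t| ≤ C
  pb : PB d (d.Ph p t) C
  pq : d.c.PqS d.O d.Pq
  sΘ : Sm s.Θ
  bΘ : CB 4 d.c.thS (d.R (99 / 100)) s.Θ (th0 d.c)
  τ : ∀ a, p.τ t.1 (t.2 0) (t.2 1) a = a / d.Hh 0
  pc : ∀ n, n = 2 ∨ n = 4 → ∀ (h : V) (H a B : ℝ) (ζ : V → ℝ) (U : Set V),
    (∀ i, 0 ≤ h i) → 0 < H → h 2 ≤ H → Sm ζ → 1 ≤ B → CB n h U ζ B →
    (∀ x ∈ U, I1 / I0 * ζ x ^ 2 ≤ 1 / 2) → CB n h U (pr H a ζ) (C * B ^ (2 * n + 1))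

/-- the normalised noise -/
def Tn (d : MD) (s : Sa) (x : V) : ℝ := s.Θ x / (2 * d.Hh 0)
/-- the lateral field -/
def Av (d : MD) (p : PT) (t : Wi) (i : Fin 3) (x : V) : ℝ :=
  (![pd 1 (d.Ph p t) x, -d.c.η0 * pd 0 (d.Ph p t) x, 0] : V) i

namespace Cx
variable {d : MD} {p : PT} {s : Sa} {t : Wi} {C : ℝ} (H : Cx d p s t C)
include H

lemma nz : d.nz0 t.1 := ⟨H.n, H.t0⟩
lemma C0 : 0 ≤ C := zero_le_one.trans H.c1
lemma C23 : C ≤ C ^ 2 ∧ C ^ 2 ≤ C ^ 3 :=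
  ⟨le_self_pow₀ H.c1 two_ne_zero, pow_le_pow_right₀ H.c1 (by norm_num)⟩
lemma qle : qp d.c.N (1 / 100) ≤ d.c.q := by
  linarith [(num2 H.g H.n).2.2.2.2.2.2.2.2, H.g.big.qp_pos (1 / 100)]
lemma Cq : 10 ^ 8 * C ^ 3 ≤ d.c.q := by linarith [(num2 H.g H.n).2.2.2.2.2.2.2.2, H.cq]
lemma hh (i : Fin 3) : 0 ≤ d.c.thS i := (H.g.thS_pos i).le
lemma H_ge : d.c.Hp ≤ d.Hh 0 := by
  simp only [MD.Hh, if_true, if_pos H.n]
  refine le_mul_of_one_le_left H.g.Hp_pos.le (Real.one_le_sqrt.2 ?_)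
  have := (one_le_div I_bd.1).2 I_bd.2
  rw [le_div_iff₀ (by norm_num)]
  linarith
lemma H_pos : 0 < d.Hh 0 := H.g.Hp_pos.trans_le H.H_ge
lemma lH : d.c.l1 / d.Hh 0 ≤ √d.c.p := by
  have := Real.sqrt_pos.2 H.g.p_pos
  rw [div_le_iff₀ H.H_pos, ← div_le_iff₀' this]
  exact H.H_ge
lemma sub1 : d.R (9 / 10) ⊆ d.R (95 / 100) := Prof.RX_mono _ H.g.D_pos.le (by norm_num)
lemma sub2 : d.R (95 / 100) ⊆ d.R (99 / 100) := Prof.RX_mono _ H.g.D_pos.le (by norm_num)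
lemma ph_eq (x : V) : d.ph p t x = x 2 / d.Hh 0 - t.2 2 / d.ns := by rw [MD.ph, H.τ]
lemma prof_eq : d.prof p s t = pr (d.Hh 0) (t.2 2 / d.ns) (d.ze s) := by
  funext x
  simp only [MD.prof, if_pos H.nz, H.ph_eq, pr]
lemma ze_eq : d.ze s = fun x => d.Pq x * Tn d s x := funext fun _ => mul_div_assoc _ _ _
lemma sT : Sm (Tn d s) := H.sΘ.div_const _
lemma sz : Sm (d.ze s) := H.ze_eq ▸ H.pq.1.mul H.sT
lemma bT : CB 4 d.c.thS (d.R (99 / 100)) (Tn d s) (mu0 d.c) := by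
  refine CBl.monoB (CBl.div_const H.bΘ _) ?_
  rw [abs_of_pos (mul_pos two_pos H.H_pos)]
  exact div_le_div_of_nonneg_left (th0_pos H.g).le (mul_pos two_pos H.g.Hp_pos)
    (by linarith [H.H_ge])
lemma ze_le {x : V} (hx : x ∈ d.R (99 / 100)) : |d.ze s x| ≤ z0 d.c := by
  rw [H.ze_eq, abs_mul]
  exact mul_le_mul (H.pq.2.1 x hx).1 (H.bT.val hx) (abs_nonneg _)
    ((abs_nonneg _).trans (H.pq.2.1 x hx).1)
lemma Cz : 2 * C * z0 d.c ≤ 1 := by
  have := mul_le_mul_of_nonneg_right (show 2 * C ≤ d.c.q by linarith [H.Cq, H.C23.1, H.C23.2, H.C0])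
    (z0_pos H.g).le
  linarith [(num1 H.g H.n).2.2.2.2.1]
lemma half (x : V) (hx : x ∈ d.R (95 / 100)) : I1 / I0 * d.ze s x ^ 2 ≤ 1 / 2 := by
  have h1 := abs_le.1 (H.ze_le (H.sub2 hx))
  have h2 := mul_le_mul H.ci (sq_le_sq' h1.1 h1.2) (sq_nonneg _) H.C0
  have h3 := z0_pos H.g
  nlinarith [H.Cz, H.c1]
lemma smN : SmN (d.R (95 / 100)) (d.prof p s t) := H.prof_eq ▸ smN_pr H.sz H.half
lemma pm_eq (i : Fin 3) : (fun x => d.Pm' p s t x i) = fun x => Av d p t i x * d.prof p s t x := by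
  funext x
  fin_cases i <;> simp [MD.Pm', Av]
lemma om_eq : d.om p t = fun x => Av d p t 0 x * f1 (x 2 / d.Hh 0 - t.2 2 / d.ns) / d.Hh 0 := by
  funext x
  simp [MD.om, if_pos H.nz, H.ph_eq, Av]
lemma sA (i : Fin 3) : Sm (Av d p t i) := by
  fin_cases i
  exacts [H.pb.sm.pd 1, (H.pb.sm.pd 0).cmul _, sm_const 0]
lemma zA (i : Fin 3) (x : V) (hx : x ∉ d.R (9 / 10)) : Av d p t i x = 0 := by
  fin_cases i <;> simp [Av, ph_loc H.g p t (Or.inl hx)]
lemma bA (i : Fin 3) : ∃ a, a ≤ d.c.hs i ∧ a ≤ d.c.l1 ∧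
    CB 5 d.c.thS (d.R (95 / 100)) (Av d p t i) (C * a) := by
  fin_cases i
  · refine ⟨d.c.l1, le_rfl, le_rfl, CBl.monoB (CB.pd_div H.g.thS_pos H.pb.cb 1) (le_of_eq ?_)⟩
    rw [← mul_assoc]
    exact mul_div_cancel_right₀ _ H.g.W20_pos.ne'
  · refine ⟨d.c.lam, le_rfl, H.g.lam_le_l1,
      CBl.monoB (CBl.smul (CB.pd_div H.g.thS_pos H.pb.cb 0) _) ?_⟩
    have e : |-d.c.η0| * (C * (d.c.l1 * d.c.W20) / d.c.thS 0) = C * (d.c.b1 * d.c.lam) := by
      rw [abs_neg, abs_of_pos H.g.η0_pos]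
      show d.c.η0 * (C * (d.c.ro * d.c.lam * d.c.W20) / d.c.W10) = _
      unfold Pm.b1
      ring
    rw [e]
    exact mul_le_mul_of_nonneg_left
      (mul_le_of_le_one_left H.g.lam_pos.le (by linarith [H.g.b1_le])) H.C0
  · exact ⟨0, H.g.y_pos.le, H.g.l1_pos.le, cb_const (c := 0) (by simp)⟩

lemma sm_pm : Sm (d.Pm' p s t) := sm_pi fun i => contDiff_iff_contDiffAt.2 fun x => by
  rw [H.pm_eq]
  by_cases hx : x ∈ d.R (9 / 10)
  · exact ((SmN.of_sm (H.sA i) _).mul H.smN).contDiffAt (H.sub1 hx)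
  · refine (contDiffAt_const (c := 0)).congr_of_eventuallyEq ?_
    filter_upwards [(Prof.RX_closed d.O d.c.D (9 / 10)).isOpen_compl.mem_nhds hx] with y hy
    rw [H.zA i y hy, zero_mul]

lemma sm_om : Sm (d.om p t) :=
  H.om_eq ▸ ((H.sA 0).mul (sm_coordfn f1_sm 2 _ _)).div_const _

lemma sup (x : V) (hx : x ∉ d.R (9 / 10) ∨ 2 / 5 < |x 0 / d.W1 t.1 - t.2 0 / d.ns| ∨
    2 / 5 < |x 1 / d.W2 t.1 + MD.vs t.1 * (x 0 / d.W1 t.1) - t.2 1 / d.ns| ∨
    2 / 5 < |d.ph p t x|) : d.Pm' p s t x = 0 ∧ d.om p t x = 0 := by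
  by_cases h4 : 2 / 5 < |d.ph p t x|
  · refine ⟨funext fun i => ?_, by simp [MD.om, f1_zero h4]⟩
    rw [congrFun (H.pm_eq i) x]
    simp [MD.prof, f0_zero h4, f1_zero h4]
  · have := ph_loc H.g p t (x := x) (by tauto)
    exact ⟨funext fun i => by fin_cases i <;> simp [MD.Pm', this], by simp [MD.om, this]⟩

/-- bounds of the field from bounds of `ζ` -/
lemma cb_pm {n : ℕ} (hn : n = 2 ∨ n = 4) {h : V} {B : ℝ} (h0 : ∀ i, 0 ≤ h i)
    (h1 : ∀ i, h i ≤ d.c.thS i) (hB : 1 ≤ B) (hz : CB n h (d.R (99 / 100)) (d.ze s) B) (i : Fin 3) :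
    CB n h univ (fun x => d.Pm' p s t x i) (d.c.q * d.c.l1 / 2 * B ^ (2 * n + 1)) := by
  obtain ⟨a, -, a2, a3⟩ := H.bA i
  have k1 := H.pc n hn h _ (t.2 2 / d.ns) B _ _ h0 H.H_pos ((h1 2).trans H.H_ge) H.sz hB
    (CBl.monoU hz H.sub2) H.half
  rw [← H.prof_eq] at k1
  have k2 := CB.mulN h0 (SmN.of_sm (H.sA i) _) H.smN (CB.of_le (CBl.monoh (CBl.monoB a3
    (mul_le_mul_of_nonneg_left a2 H.C0)) h0 h1) (by omega)) k1
  have := H.g.l1_pos
  have := H.g.q_pos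
  have := H.C0
  rw [H.pm_eq]
  refine CBl.extend (CBl.monoB (CBl.monoU k2 (inter_subset_right.trans H.sub1)) ?_)
    (Prof.RX_closed _ _ _) (fun x hx => by rw [H.zA i x hx, zero_mul]) (by positivity)
  have k3 : (2 : ℝ) ^ n ≤ 2 ^ 4 := pow_le_pow_right₀ one_le_two (by omega)
  have k4 : 2 ^ n * C ^ 2 ≤ d.c.q / 2 := by
    have := mul_le_mul_of_nonneg_right k3 (sq_nonneg C)
    linarith [H.Cq, H.C23.2, sq_nonneg C]
  have := mul_le_mul_of_nonneg_right k4 (show 0 ≤ d.c.l1 * B ^ (2 * n + 1) by positivity)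
  linarith

lemma cb_om : CB 5 d.c.thS univ (d.om p t) (qp d.c.N (1 / 100) * √d.c.p) := by
  obtain ⟨a, -, a2, a3⟩ := H.bA 0
  have k1 := CBl.div_const (CB.mul H.hh (H.sA 0) (sm_coordfn f1_sm 2 _ _)
    (CBl.monoB a3 (mul_le_mul_of_nonneg_left a2 H.C0))
    (cb_coordfn H.hh f1_sm 2 H.H_pos (t.2 2 / d.ns) le_rfl (H.H_ge.trans (one_mul _).ge)
      fun j hj x _ => (H.fb j hj _).2)) (d.Hh 0)
  have := H.g.big.qp_pos (1 / 100)
  rw [H.om_eq]
  refine CBl.extend (CBl.monoB (CBl.monoU k1 (inter_subset_right.trans H.sub1)) ?_)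
    (Prof.RX_closed _ _ _) (fun x hx => by rw [H.zA 0 x hx, zero_mul, zero_div]) (by positivity)
  have k2 : 32 * C ^ 2 ≤ qp d.c.N (1 / 100) := by linarith [H.cq, H.C23.2, sq_nonneg C]
  refine le_trans (le_of_eq ?_) (mul_le_mul k2 H.lH (div_pos H.g.l1_pos H.H_pos).le this.le)
  rw [abs_of_pos H.H_pos]
  ring

lemma pt {x : V} (hx : x ∈ d.R (99 / 100)) : ∃ g k : ℝ,
    (∀ j, pd j (d.prof p s t) x = g * pd j (d.ze s) x + if j = 2 then k / d.Hh 0 else 0) ∧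
    |d.prof p s t x| ≤ 2 * C ∧ |f1 (d.ph p t x)| ≤ C ∧ |g| ≤ 2 * C ∧ |k| ≤ 2 * C ∧
    |g - f1 (d.ph p t x)| ≤ 2 * C ^ 2 * z0 d.c ∧ |k - f1 (d.ph p t x)| ≤ 2 * C ^ 2 * z0 d.c := by
  rw [H.prof_eq, H.ph_eq]
  exact pr_pt H.sz H.c1 H.ci (fun j hj => H.fb j (by omega)) (H.ze_le hx) H.Cz

lemma am (x : V) (i : Fin 3) : |d.Pm' p s t x i| ≤ qp d.c.N (1 / 100) * d.c.hs i := by
  have h0 := H.g.big.qp_pos (1 / 100)
  have h1 := H.g.hs_pos i
  rw [congrFun (H.pm_eq i) x]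
  by_cases hx : x ∈ d.R (9 / 10)
  · obtain ⟨a, a1, -, a3⟩ := H.bA i
    obtain ⟨-, -, -, b, -⟩ := H.pt (H.sub2 (H.sub1 hx))
    have k := mul_le_mul ((a3.val (H.sub1 hx)).trans (mul_le_mul_of_nonneg_left a1 H.C0)) b
      (abs_nonneg _) (mul_nonneg H.C0 h1.le)
    have k2 : 2 * C ^ 2 ≤ qp d.c.N (1 / 100) := by linarith [H.cq, H.C23.2, sq_nonneg C]
    have := mul_le_mul_of_nonneg_right k2 h1.le
    rw [abs_mul]
    linarith
  · rw [H.zA i x hx, zero_mul, abs_zero]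
    positivity

lemma cr : d.Cr 1 (d.Pm' p s t) (d.om p t) := by
  obtain ⟨-, -, -, -, -, -, n1, n2, n3, -⟩ := num3 H.g H.n
  have hl : ∀ i, 0 ≤ cv d.c.lam i := fun _ => H.g.lam_pos.le
  have hle : ∀ i, cv d.c.lam i ≤ d.c.thS i := fun i => (thS_bd H.g i).1
  refine ⟨⟨H.sm_pm, H.sm_om⟩, fun x => ⟨fun hx => H.sup x (Or.inl fun h =>
    hx (Prof.RX_mono _ H.g.D_pos.le (by norm_num) h)), rfl⟩, fun h => absurd H.n h,
    fun x i => (H.am x i).trans ?_, fun i => ?_, CBl.monoB (CBl.monoh H.cb_om hl hle) ?_⟩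
  · rw [one_mul]
    exact mul_le_mul_of_nonneg_right H.qle (H.g.hs_pos i).le
  · have k1 : CB 4 (cv d.c.lam) (d.R (99 / 100)) (d.ze s) (np d.c.N (151 / 100)) := by
      rw [H.ze_eq]
      refine CBl.monoB (CB.mul hl H.pq.1 H.sT H.pq.2.2.2 (CBl.monoh H.bT hl hle)) (le_trans ?_ n1)
      have := H.g.lam_pos
      have := mu0_pos H.g
      have : 10000000 ≤ d.c.q := H.g.big.q_ge
      rw [mul_assoc]
      exact mul_le_mul_of_nonneg_right (by linarith) (by positivity)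
    refine CBl.monoB (H.cb_pm (Or.inr rfl) hl hle
      ((np_zero _).symm.trans_le (H.g.big.np_le (by norm_num))) k1 i) ?_
    have := mul_pos (H.g.big.np_pos 15) H.g.lam_pos
    norm_num
    linarith
  · have := mul_le_mul (H.qle.trans n3) (num1 H.g H.n).2.2.1 (Real.sqrt_nonneg _)
      (H.g.big.np_pos _).le
    linarith

lemma d2 (i : Fin 3) : CO 2 (cv 1) univ (fun x => d.Pm' p s t x i)
    (d.c.d2u / (d.c.q ^ 2 * √d.c.J)) := by
  obtain ⟨w1, w2, w3, n1, n2, n3, -⟩ := num3 H.g H.n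
  obtain ⟨-, -, -, -, -, -, m1, m2, -⟩ := num2 H.g H.n
  have n0 := (num1 H.g H.n).2.2.2.2.1
  have w0 := ww_pos H.g
  have hl : ∀ i, 0 ≤ cv (ww d.c) i := fun _ => w0.le
  have hle : ∀ i, cv (ww d.c) i ≤ d.c.thS i := fun i => by fin_cases i; exacts [w1, w2, w3]
  have q0 := H.g.q_pos
  have a1 : 0 ≤ √d.c.q * d.c.lA := mul_nonneg (Real.sqrt_nonneg _) H.g.lA_pos.le
  have a2 : 0 ≤ ww d.c ^ 2 * (√d.c.q / d.c.lA + d.c.q * d.c.d2u) := by
    have := H.g.lA_pos; have := H.g.d2u_pos; positivity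
  have k0 : CB 2 (cv (ww d.c)) (d.R (99 / 100)) d.Pq
      (√d.c.q * d.c.lA + 10 * ww d.c + ww d.c ^ 2 * (√d.c.q / d.c.lA + d.c.q * d.c.d2u)) := by
    intro l hl x hx
    obtain ⟨b0, b1, b2, b3, b4⟩ := H.pq.2.1 x hx
    rw [hp_cv]
    rcases l with _ | ⟨j, _ | ⟨k, _ | _⟩⟩
    · simp only [List.length_nil, pow_zero, one_mul, pds_nil]
      linarith
    · have j0 : |pd 0 d.Pq x| ≤ 10 := abs_le.2 ⟨by linarith, b2⟩
      have j1 : |pd 1 d.Pq x| ≤ 10 := by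
        rw [Pm.s12, Pm.s21, if_neg (notA H.g H.n)] at m1
        linarith
      have j2 : |pd 2 d.Pq x| ≤ 10 := b4.trans (m2.trans (by norm_num))
      have : |pd j d.Pq x| ≤ 10 := by fin_cases j; exacts [j0, j1, j2]
      have := mul_le_mul_of_nonneg_left this w0.le
      simp only [List.length_singleton, pow_one, pds_cons, pds_nil]
      linarith
    · have := H.pq.2.2.1 [j, k] rfl x hx
      rw [hp_cv, one_pow, one_mul] at this
      have := mul_le_mul_of_nonneg_left this (sq_nonneg (ww d.c))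
      simp only [List.length_cons, List.length_nil]
      linarith
    · simp at hl
  have k1 : CB 2 (cv (ww d.c)) (d.R (99 / 100)) (d.ze s) 1 := by
    rw [H.ze_eq]
    refine CBl.monoB (CB.mul hl H.pq.1 H.sT k0 (CB.of_le (CBl.monoh H.bT hl hle) (by norm_num))) ?_
    refine le_of_mul_le_mul_left ?_ q0
    have : 10000000 ≤ d.c.q := H.g.big.q_ge
    unfold z0 at n0
    linarith
  intro l hl' x hx
  have k2 := H.cb_pm (Or.inl rfl) hl hle le_rfl k1 i l (le_of_eq hl') x hx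
  rw [hp_cv, hl', ww_sq H.g, one_pow, mul_one] at k2
  have := H.g.l1_pos; have := H.g.d2u_pos; have := Real.sqrt_pos.2 H.g.J_pos
  rw [hp_cv, one_pow, one_mul, le_div_iff₀ (by positivity)]
  rw [div_mul_eq_mul_div, div_le_iff₀ (by positivity)] at k2
  refine le_of_mul_le_mul_left ?_ (show 0 < d.c.q * d.c.l1 by positivity)
  nlinarith [mul_pos (mul_pos q0 H.g.l1_pos) H.g.d2u_pos]

end Cx

end Derb

end
end Pool.Agent.MP_20bec2_an.T3

end MrgPart2

-- ======== part 3: formerly Pool.Agent.MP_20bec2_an.T3.Ml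
section MrgPart3

/-! Row ML: the ledger after one colour. -/

set_option autoImplicit false
open Set Filter Real

namespace Pool.Agent.MP_20bec2_an.T3
noncomputable section
open Classical

namespace Ml

lemma mem_sites {B : Bk} (hs : 0 < B.hsp) {g i : Cu} {r : ℝ} :
    i ∈ B.sites g r ↔ cen B.hsp i ∈ box B.D g r := by
  rw [Bk.sites, Fintype.mem_piFinset, Prof.mem_box]
  refine forall_congr' fun j => ?_
  rw [Finset.mem_Icc, Int.ceil_le, Int.le_floor, div_le_iff₀ hs, le_div_iff₀ hs, abs_le]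
  simp only [cen]
  constructor <;> rintro ⟨a, b⟩ <;> constructor <;> linarith

lemma sites_mono {B : Bk} (hs : 0 < B.hsp) (hD : 0 ≤ B.D) (g : Cu) {r r' : ℝ} (h : r ≤ r') :
    B.sites g r ⊆ B.sites g r' := fun _ hi =>
  (mem_sites hs).2 (Prof.box_mono hD h g ((mem_sites hs).1 hi))

lemma mem_nbrs {g g' : Cu} {m : ℤ} : g' ∈ nbrs g m ↔ Nbr m g g' := by
  rw [nbrs, Fintype.mem_piFinset]
  refine forall_congr' fun j => ?_
  rw [Finset.mem_Icc, abs_le]
  omega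

lemma card_nbrs (g : Cu) : (nbrs g 1).card = 27 := by
  rw [nbrs, Fintype.card_piFinset]
  have : ∀ i, (Finset.Icc (g i - 1) (g i + 1)).card = 3 := fun i => by
    rw [Int.card_Icc]; omega
  simp only [this]
  simp

lemma hsp_pos {B : Bk} (hb : Big B.N) (F : FrOk B.N B.lb B.fr) : 0 < B.hsp :=
  mul_pos (hb.np_pos _) (Bk.gd0 F hb 0).lb_pos

/-- weights of the sites of a smaller box -/
lemma wt_le {B : Bk} (hb : Big B.N) (F : FrOk B.N B.lb B.fr) {k r : ℕ} {s : St} (il : B.IL k r s)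
    (g : Cu) : ∑ i ∈ B.sites g (98 / 100), Real.exp (∑ m ∈ Finset.range (tm k r), s.xs m i / 6) ≤
      np B.N 5000 * pq B.N ^ tm k r :=
  (Finset.sum_le_sum_of_subset_of_nonneg (sites_mono (hsp_pos hb F) (Bk.gd0 F hb 0).D_pos.le g
    (by norm_num)) fun _ _ _ => (Real.exp_pos _).le).trans (il.led g)

end Ml

theorem ml : MlStmt := by
  filter_upwards [ev_big] with N hb B hB ρ k r s ch o f' H
  subst hB
  have F : FrOk B.N B.lb B.fr := H.ok.geo.toFrOk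
  have hs := Ml.hsp_pos hb F
  have hD : 0 < B.D := (Bk.gd0 F hb 0).D_pos
  have il := H.inv.il
  obtain ⟨x, hx⟩ : ∃ x : Cu → ℝ, x = fun i =>
    ∑ᶠ g, if col g = r - 1 ∧ i ∈ B.sites g (98 / 100) then o.xs g i else 0 := ⟨_, rfl⟩
  have e : (B.stp ρ k r s ch o f').xs = Function.update s.xs (tm k r) x := by rw [hx]; rfl
  refine ⟨fun m i => ?_, fun g => ?_⟩
  · rw [e]
    by_cases h : m = tm k r
    · rw [h, Function.update_self, hx]
      refine finsum_nonneg fun g => ?_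
      split_ifs with c
      exacts [(H.mo g c.1).led.1 i, le_rfl]
    · rw [Function.update_of_ne h]
      exact il.nn m i
  obtain ⟨w, hw⟩ : ∃ w : Cu → ℝ, w = fun i =>
    Real.exp (∑ m ∈ Finset.range (tm k r), s.xs m i / 6) := ⟨_, rfl⟩
  have w0 : ∀ i, 0 ≤ w i := fun i => by rw [hw]; exact (Real.exp_pos _).le
  have e1 : tm k (r + 1) = tm k r + 1 := by have := H.hr.1; unfold tm; omega
  have e2 : ∀ i, Real.exp (∑ m ∈ Finset.range (tm k r + 1),
      Function.update s.xs (tm k r) x m i / 6) = w i * Real.exp (x i / 6) := fun i => by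
    rw [Finset.sum_range_succ, Function.update_self, Real.exp_add, hw]
    congr 2
    exact Finset.sum_congr rfl fun m hm => by
      rw [Function.update_of_ne (Finset.mem_range.1 hm).ne]
  rw [e, e1]
  simp only [e2]
  obtain ⟨G, hG⟩ : ∃ G : Finset Cu, G = (nbrs g 1).filter fun g' => col g' = r - 1 := ⟨_, rfl⟩
  have a1 : ∀ i ∈ B.sites g 1, w i * Real.exp (x i / 6) ≤ w i +
      ∑ g' ∈ G, if i ∈ B.sites g' (98 / 100) then w i * Real.exp (o.xs g' i / 6) else 0 := by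
    intro i hi
    have n0 : ∀ g' ∈ G, 0 ≤ if i ∈ B.sites g' (98 / 100) then w i * Real.exp (o.xs g' i / 6)
        else 0 := fun g' _ => by
      split_ifs
      exacts [mul_nonneg (w0 i) (Real.exp_pos _).le, le_rfl]
    by_cases c : ∃ g', col g' = r - 1 ∧ i ∈ B.sites g' (98 / 100)
    · obtain ⟨g', c⟩ := c
      have b1 : x i = o.xs g' i := by
        rw [hx]
        refine (finsum_eq_single _ g' fun g'' h => if_neg fun c' => h ?_).trans (if_pos c)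
        exact Prof.col_box_unique hD (by norm_num) (c'.1.trans c.1.symm)
          ((Ml.mem_sites hs).1 c'.2) ((Ml.mem_sites hs).1 c.2)
      have b2 : g' ∈ G := by
        rw [hG]
        exact Finset.mem_filter.2 ⟨Ml.mem_nbrs.2 (Prof.box_nbr hD (by norm_num)
          ((Ml.mem_sites hs).1 hi) ((Ml.mem_sites hs).1 c.2)), c.1⟩
      have b3 := Finset.single_le_sum n0 b2
      rw [if_pos c.2] at b3
      rw [b1]
      linarith [w0 i]
    · have b1 : x i = 0 := by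
        rw [hx]
        exact finsum_eq_zero_of_forall_eq_zero fun g' => if_neg fun c' => c ⟨g', c'⟩
      rw [b1, zero_div, Real.exp_zero, mul_one]
      linarith [Finset.sum_nonneg n0]
  obtain ⟨W, hW⟩ : ∃ W, W = np B.N 5000 * pq B.N ^ tm k r := ⟨_, rfl⟩
  have W0 : 0 < W := hW ▸ mul_pos (hb.np_pos _) (pow_pos hb.q_pos _)
  have a2 : ∀ g' ∈ G, (∑ i ∈ B.sites g 1, if i ∈ B.sites g' (98 / 100) then
      w i * Real.exp (o.xs g' i / 6) else 0) ≤ √(pq B.N) * W := by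
    intro g' hg'
    rw [Finset.sum_ite_mem]
    rw [hG] at hg'
    refine (Finset.sum_le_sum_of_subset_of_nonneg Finset.inter_subset_right fun i _ _ =>
      mul_nonneg (w0 i) (Real.exp_pos _).le).trans ?_
    rw [hw, hW]
    exact (H.mo g' (Finset.mem_filter.1 hg').2).led.2.trans
      (mul_le_mul_of_nonneg_left (Ml.wt_le hb F il g') (Real.sqrt_nonneg _))
  have a3 : (G.card : ℝ) ≤ 27 := by
    rw [hG]
    exact_mod_cast (Finset.card_filter_le _ _).trans (Ml.card_nbrs g).le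
  have a4 := Finset.sum_le_card_nsmul _ _ _ a2
  have a5 : ∑ i ∈ B.sites g 1, w i ≤ W := by rw [hw, hW]; exact il.led g
  refine (Finset.sum_le_sum a1).trans ?_
  rw [Finset.sum_add_distrib, Finset.sum_comm, pow_succ, ← mul_assoc, ← hW]
  rw [nsmul_eq_mul] at a4
  have p := hb.sqrtq_pos
  have a6 := mul_le_mul_of_nonneg_right a3 (mul_pos p W0).le
  have a7 := Real.mul_self_sqrt hb.q_pos.le
  have a8 : 28 ≤ √(pq B.N) := Real.le_sqrt_of_sq_le (by linarith [hb.q_ge])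
  have a9 : 1 + 27 * √(pq B.N) ≤ pq B.N := by nlinarith
  nlinarith [mul_le_mul_of_nonneg_left a9 W0.le]

end
end Pool.Agent.MP_20bec2_an.T3

end MrgPart3

-- ======== part 4: formerly Pool.Agent.MP_20bec2_an.T3.Min
section MrgPart4

/-! Row MIN: the hypotheses of one cube from the invariant. -/

set_option autoImplicit false
open Set Filter Real Matrix

namespace Pool.Agent.MP_20bec2_an.T3
noncomputable section
open Classical

namespace Min

lemma cv1_symm (F : Fr) {S : Mx} (h : Sᵀ = S) : (F.cv1 S)ᵀ = F.cv1 S := by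
  rw [Fr.cv1, transpose_mul, transpose_mul, transpose_transpose, h, Matrix.mul_assoc]

lemma smM_cov (F : Fr) {S : V → Mx} (h : SmM S) : SmM (F.cov S) :=
  ((smM_const _).mul (h.comp (Prof.xp_sm F))).mul (smM_const _)

lemma smM_hm (F : Fr) {S : V → Mx} (h : SmM S) : SmM fun x => F.hm (S (F.xp x)) :=
  ((smM_const _).mul (h.comp (Prof.xp_sm F))).mul (smM_const _)

lemma lip {g : V → ℝ} (hg : Sm g) {U : Set V} (hU : Convex ℝ U) {b : ℝ}
    (H : ∀ l, ∀ y ∈ U, |pd l g y| ≤ b) {x x' : V} (hx : x ∈ U) (hx' : x' ∈ U) :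
    |g x - g x'| ≤ 3 * b * ‖x - x'‖ := by
  have b0 : 0 ≤ b := (abs_nonneg _).trans (H 0 x hx)
  refine (mvt_pd hU (fun y _ => hg.dif y) (b := fun _ => b) H hx hx').trans ?_
  refine (Finset.sum_le_sum fun i _ =>
    mul_le_mul_of_nonneg_left (Prof.abs_le_norm (x - x') i) b0).trans (le_of_eq ?_)
  simp [mul_assoc]

lemma al_part {D : ℝ} (hD : 0 < D) (p : Cu → Prop) [DecidablePred p] {g : Cu} (hg : ¬ p g) (x : V) :
    (∑ᶠ g', if p g' then al D g' x ^ 2 else 0) ≤ 1 - al D g x ^ 2 := by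
  obtain ⟨T, hT⟩ : ∃ T, T = insert g (Prof.al_fin hD x).toFinset := ⟨_, rfl⟩
  have m : g ∈ T := hT ▸ Finset.mem_insert_self _ _
  have h1 : ∀ g', al D g' x ^ 2 ≠ 0 → g' ∈ (T : Set Cu) := fun g' h => by
    rw [hT]
    exact Finset.mem_coe.2 (Finset.mem_insert_of_mem ((Set.Finite.mem_toFinset _).2
      fun e => h (by rw [show al D g' x = 0 from e]; norm_num)))
  rw [← Prof.al_finsum hD.ne' x, finsum_eq_sum_of_support_subset _ (s := T) h1,
    finsum_eq_sum_of_support_subset _ (s := T) fun g' h => h1 g' fun e => h (by simp [e]),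
    ← Finset.add_sum_erase _ _ m, ← Finset.add_sum_erase _ _ m, if_neg hg, zero_add,
    add_sub_cancel_left]
  refine Finset.sum_le_sum fun i _ => ?_
  split_ifs
  exacts [le_rfl, sq_nonneg _]

lemma q10 {N : ℕ} (h : Big N) : 50 * pL N ≤ qp N (1 / 10) := by
  have h1 := Real.pow_div_factorial_le_exp (x := 1 / 10 * (pL N / 1000)) (by linarith [h.L_ge]) 2
  rw [Nat.factorial_two, Nat.cast_ofNat, ← h.qp_eq] at h1
  nlinarith [h.L_ge]

lemma wt_num {N k r : ℕ} (h : Big N) (hk : k < nb N) (hr : r ≤ 9) :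
    np N 5000 * pq N ^ tm k r ≤ Real.exp (qp N (1 / 10) * pJ N) := by
  refine le_of_log (mul_pos (h.np_pos _) (pow_pos h.q_pos _)) (Real.exp_pos _) ?_
  rw [Real.log_exp, Real.log_mul (h.np_pos _).ne' (pow_pos h.q_pos _).ne', Real.log_pow, h.log_np,
    h.log_q]
  have h4 := mul_le_mul_of_nonneg_right (h.tm_le hk hr) (show 0 ≤ pL N by linarith [h.L_ge])
  have h5 := mul_le_mul_of_nonneg_right (q10 h) h.J_pos.le
  have h6 := mul_le_mul_of_nonneg_right h.L_ge h.J_pos.le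
  linarith [h.J_pos]

lemma nzn_le (N k : ℕ) {r : ℕ} (hr : r ≤ 9) : (nzn N k r : ℝ) ≤ 8 := by
  have : nzn N k r ≤ 8 := by unfold nzn; split_ifs <;> omega
  exact_mod_cast this

variable {B : Bk} (F : FrOk B.N B.lb B.fr) (hb : Big B.N) (g : Cu) {k : ℕ} (hk : k < nb B.N)
include F hb hk

lemma yl_num (h1 : kL B.N ≤ k) (h2 : k < mid B.N) :
    np B.N (-3 / 2) * B.yk k ≤ 2 * B.yk (mid B.N) ∧ 2 * B.yk (mid B.N) ≤ B.yk k := by
  have G := Bk.gd F hb 0 hk.le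
  have G' := Bk.gd F hb 0 (k := mid B.N) (by have := hb.mid_lt; omega)
  have a1 : Real.log (B.yk k) = 11 / 10 * pJ B.N + (Real.log B.lb - k * Real.log 2) := by
    rw [Bk.yk, G.log_y, G.log_lam]; rfl
  have a2 : Real.log (B.yk (mid B.N)) =
      11 / 10 * pJ B.N + (Real.log B.lb - mid B.N * Real.log 2) := by
    rw [Bk.yk, G'.log_y, G'.log_lam]; rfl
  have p1 : 0 < B.yk k := G.y_pos
  have p2 : 0 < B.yk (mid B.N) := G'.y_pos
  have b1 : (k : ℝ) + 1 ≤ mid B.N := by exact_mod_cast h2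
  have b2 : (mid B.N : ℝ) ≤ k + 600 * nm B.N := by
    have : mid B.N ≤ k + 600 * nm B.N := by unfold kL at h1; unfold mid; omega
    exact_mod_cast this
  have l := log2_bd
  have l0 : 0 ≤ Real.log 2 := by linarith [l.1]
  constructor
  · refine le_of_log (mul_pos (hb.np_pos _) p1) (by positivity) ?_
    rw [Real.log_mul (hb.np_pos _).ne' p1.ne', Real.log_mul two_ne_zero p2.ne', a1, a2, hb.log_np]
    have c1 := mul_le_mul_of_nonneg_right (b2.trans (show _ ≤ (k : ℝ) + 2 * pJ B.N by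
      linarith [hb.nm_bd.2])) l0
    have c2 := mul_le_mul_of_nonneg_left l.2 hb.J_pos.le
    linarith [hb.J_pos]
  · refine le_of_log (by positivity) p1 ?_
    rw [Real.log_mul two_ne_zero p2.ne', a1, a2]
    linarith [mul_le_mul_of_nonneg_right b1 l0]

lemma el_num {r : ℕ} (hr : r ≤ 9) (hc : (B.c g k).comp) :
    3 * ((B.c g k).d2u * (1 / 2 ^ k + (9 + r) / 9000)) +
      3 * ((B.c g (mid B.N)).d2u * nzn B.N k r / 100) ≤ np B.N (-97 / 100) / (B.c g k).lam := by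
  have G := Bk.gd F hb g hk.le
  have G' := Bk.gd F hb g (k := mid B.N) (by have := hb.mid_lt; omega)
  have p := G.d2u_pos
  have a1 : (1 / 2 ^ k + (9 + r) / 9000 : ℝ) ≤ 2 := by
    have h1 : (1 / 2 ^ k : ℝ) ≤ 1 := div_le_one_of_le₀ (one_le_pow₀ one_le_two) (by positivity)
    have h2 : (r : ℝ) ≤ 9 := by exact_mod_cast hr
    linarith
  have a2 : (B.c g (mid B.N)).d2u * nzn B.N k r / 100 ≤ (B.c g k).d2u := by
    by_cases c : k < mid B.N
    · rw [nzn, if_pos c, Nat.cast_zero, mul_zero, zero_div]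
      exact p.le
    · have h1 : (B.c g (mid B.N)).d2u ≤ (B.c g k).d2u := by
        refine le_of_log G'.d2u_pos p ?_
        rw [G.log_d2u, G'.log_d2u, G.log_lam, G'.log_lam]
        have h2 : (mid B.N : ℝ) ≤ k := by exact_mod_cast not_lt.1 c
        have h3 := mul_le_mul_of_nonneg_right h2 (show 0 ≤ Real.log 2 by linarith [log2_bd.1])
        show -98 / 100 * pJ B.N - Real.log (B.c g k).η -
          (Real.log B.lb - mid B.N * Real.log 2) ≤
          -98 / 100 * pJ B.N - Real.log (B.c g k).η - (Real.log B.lb - k * Real.log 2)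
        linarith
      have h2 := mul_le_mul h1 (nzn_le B.N k hr) (Nat.cast_nonneg _) p.le
      linarith
  have a3 : 9 * (B.c g k).d2u ≤ np B.N (-97 / 100) / (B.c g k).lam := by
    refine le_of_log (by positivity) (div_pos (hb.np_pos _) G.lam_pos) ?_
    rw [Real.log_mul (by norm_num) p.ne', Real.log_div (hb.np_pos _).ne' G.lam_pos.ne', G.log_d2u,
      hb.log_np]
    have h1 : -(8 * pL B.N) - 200 ≤ _ := G.log_etaS_le (a := 1) (by norm_num)
      (by rw [one_mul]; exact G.thr_bd.1.trans hc)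
    have h2 := (logc_bd (show (1 : ℝ) ≤ 9 by norm_num)).2
    show _ + (-98 / 100 * pJ B.N - _ - _) ≤ _
    linarith [hb.L_ge, hb.J_ge]
  linarith [mul_le_mul_of_nonneg_left a1 p.le]

end Min

theorem min_ (hZ : ZderStmt) (hS : SderStmt) : MinStmt := by
  filter_upwards [ev_big, hZ, hS] with N hb hZ hS B hB ρ k r s ch H r1 r8 hch g hg
  subst hB
  obtain ⟨hρ, ok, hk, inv⟩ := H
  have F : FrOk B.N B.lb B.fr := ok.geo.toFrOk
  have G := Bk.gd F hb g hk.le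
  have hO := GeoP.orth F g
  have hD : 0 < B.D := G.D_pos
  obtain ⟨z1, z2⟩ := hZ B rfl ρ k r s ok.toOk0 hk (by omega) inv.il inv.iz inv.ip inv.iq
  obtain ⟨s1, s2, -, s3, s4, s5, s6⟩ := hS B rfl k r s F hk r1 (by omega) inv.is g
  have m2 : B.R g (99 / 100) ⊆ B.R g (995 / 1000) := Prof.RX_mono _ hD.le (by norm_num)
  have m3 : B.R g (99 / 100) ⊆ B.R g 1 := Prof.RX_mono _ hD.le (by norm_num)
  have m1 : ∀ x ∈ B.R g (99 / 100), (B.fr g).xp x ∈ B.bx g 1 := fun x hx =>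
    (GeoP.xp_mem F).2 (m3 hx)
  have sZ := inv.iz.sm.1
  have sN := Min.smM_hm (B.fr g) (inv.ip.sm.1.add inv.ip.sm.2)
  have eE : ∀ x, B.Eh s g ((B.fr g).xp x) = jm ((B.fr g).hat s.Zs) x -
      (B.fr g).hm (s.Nth ((B.fr g).xp x) + s.Neq ((B.fr g).xp x)) - 1 := fun x => by
    rw [(K3.p5 _ sZ.dif x).1, Bk.Eh, sub_sub (jm _ _), Fr.hm, Fr.hm, Fr.hm, Matrix.mul_sub,
      Matrix.sub_mul]
  refine
    { ok := G.ok
      ort := hO
      rho := ⟨hρ.1.comp (K3.cont_xp _).measurable, fun x => hρ.2 _⟩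
      sZ := Prof.hat_sm _ z1
      sS := ⟨Min.smM_cov _ inv.is.sm.1, fun x => Min.cv1_symm _ (inv.is.sm.2 _)⟩
      sC := ⟨s5.comp (Prof.xp_sm _), fun x => (s6 _).2.2⟩
      sE := ((Min.smM_hm _ ((sZ.jm.sub inv.ip.sm.1).sub inv.ip.sm.2)).sub (smM_const 1)).cont
      sD := ⟨(Min.smM_cov _ s4).cont, (Min.smM_cov _ s3).cont, fun x =>
        ⟨Min.cv1_symm _ (s6 _).2.1, Min.cv1_symm _ (s6 _).1⟩⟩
      zb := fun x hx => ?_
      eb := fun x hx => (z2 g _ (m1 x hx)).1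
      el := fun hc x hx x' hx' i j _ => ?_
      sb := fun x hx => ⟨_, finsum_nonneg fun g' => ?_, ?_, (s1 x (m2 hx)).1⟩
      sv := fun i j => CBl.monoU (s2 i j).1 m2
      cb := fun x hx => (s1 x (m2 hx)).2.1
      cv4 := fun i j => ⟨CBl.monoU (s2 i j).2.1 m2, CBl.monoU (s2 i j).2.2 m2⟩
      db := fun x hx => (s1 x (m2 hx)).2.2
      yl := ?_
      chb := hch g
      ns := ?_
      wt := ⟨fun i _ => Real.one_le_exp (Finset.sum_nonneg fun m _ =>
        div_nonneg (inv.il.nn m i) (by norm_num)),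
        (Ml.wt_le hb F inv.il g).trans (Min.wt_num hb hk (by omega))⟩ }
  · obtain ⟨-, -, -, a1, -, a2⟩ := z2 g _ (m1 x hx)
    rw [← (K3.p5 _ z1.dif x).1] at a1
    rw [Prof.xc_xp hO] at a2
    exact ⟨a1, a2⟩
  · have cx := Prof.RX_convex (B.fr g).O B.D 1
    have a1 := Min.lip ((Prof.hat_sm (B.fr g) sZ).jm i j) cx (fun l y hy => by
      simpa [hp, cv] using inv.iz.d2 g i [l, j] rfl y hy) (m3 hx) (m3 hx')
    have a2 := Min.lip (sN i j) cx (fun l y hy => by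
      simpa [hp, cv] using inv.iz.dn g i j [l] rfl y hy) (m3 hx) (m3 hx')
    have a3 := mul_le_mul_of_nonneg_right (Min.el_num F hb g hk (r := r) (by omega) hc)
      (norm_nonneg (x - x'))
    show |(B.Eh s g ((B.fr g).xp x) - B.Eh s g ((B.fr g).xp x')) i j| ≤
      np B.N (-97 / 100) * ‖x - x'‖ / (B.c g k).lam
    rw [eE, eE, mul_div_right_comm]
    simp only [Matrix.sub_apply]
    rw [abs_le] at a1 a2 ⊢
    rw [← one_div] at a1
    beta_reduce at a2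
    constructor <;> linarith [a1.1, a1.2, a2.1, a2.2]
  · split_ifs
    exacts [sq_nonneg _, le_rfl]
  · have := Min.al_part hD (fun g' => col g' < r - 1) (g := g) (by rw [hg]; exact lt_irrefl _)
      ((B.fr g).xp x)
    rw [Prof.al_xp (D := B.D) (GeoP.x0_eq F g)] at this
    exact this
  · show np B.N (-3 / 2) * B.yk k ≤ (if kL B.N ≤ k ∧ k < mid B.N then 2 * B.yk (mid B.N)
      else B.yk k) ∧ (if kL B.N ≤ k ∧ k < mid B.N then 2 * B.yk (mid B.N) else B.yk k) ≤ B.yk k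
    split_ifs with c
    · exact Min.yl_num F hb hk c.1 c.2
    · refine ⟨mul_le_of_le_one_left (Bk.gd F hb 0 hk.le).y_pos.le ?_, le_rfl⟩
      rw [← np_zero B.N]
      exact hb.np_le (by norm_num)
  · by_cases hn : (B.c g k).noise
    · have e1 : (B.md ρ k r s ch g).th = fun x => (B.fr g).hm (s.Nth ((B.fr g).xp x)) 0 2 :=
        if_pos hn
      have e2 : (B.md ρ k r s ch g).Pq = B.Pq s.Pv g := if_pos hn
      have ep : (B.c g 0).p = (B.c g k).p := rfl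
      have dp := Bk.noise_deep F hb (Prof.nbr_refl (by norm_num) g) hn
      have a1 := inv.ip.th g dp 0 2
      rw [ep] at a1
      obtain rfl : k = mid B.N := hn.2
      have a2 := ((inv.ip.psh (Or.inr ⟨rfl, r1⟩)).pqs g dp).1
      rw [e1, e2]
      refine ⟨Min.smM_hm _ inv.ip.sm.1 0 2, a2.1, fun _ => ⟨a2, CBl.monoB (CBl.monoU a1 m3) ?_⟩⟩
      refine mul_le_of_le_one_left (mul_nonneg (hb.qp_pos _).le (Real.sqrt_nonneg _)) ?_
      linarith [Min.nzn_le B.N (mid B.N) (r := r) (by omega)]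
    · have e1 : (B.md ρ k r s ch g).th = 0 := if_neg hn
      have e2 : (B.md ρ k r s ch g).Pq = 0 := if_neg hn
      rw [e1, e2]
      exact ⟨contDiff_const, contDiff_const, fun h => absurd h hn⟩

end
end Pool.Agent.MP_20bec2_an.T3

end MrgPart4

-- marker of a merged file
example : 731051 + 840942 = 731051 + 840942 := rfl

end MrgPart0

-- ======== part 1: formerly Pool.Agent.MP_20bec2_an.T3.Derb
section MrgPart1

/-! The windows with noise: the sharp table, and the row. -/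

set_option autoImplicit false
set_option linter.unusedSectionVars false
open MeasureTheory Set Filter Matrix Topology

namespace Pool.Agent.MP_20bec2_an.T3
noncomputable section
open Classical

namespace Derb

lemma dvb {w X K C a r : ℝ} (hw : 0 < w) (h : w * X ≤ C * K * a) (hK : K ≤ r * w) (hC : 0 ≤ C)
    (ha : 0 ≤ a) : X ≤ C * a * r := by
  have := mul_le_mul_of_nonneg_left hK (mul_nonneg hC ha)
  exact le_of_mul_le_mul_left (by linarith) hw
lemma amul {x y a b : ℝ} (h1 : |x| ≤ a) (h2 : |y| ≤ b) : |x * y| ≤ a * b :=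
  (abs_mul x y).trans_le (mul_le_mul h1 h2 (abs_nonneg _) ((abs_nonneg _).trans h1))
lemma aadd {x y a b : ℝ} (h1 : |x| ≤ a) (h2 : |y| ≤ b) : |x + y| ≤ a + b :=
  (abs_add_le x y).trans (add_le_add h1 h2)
/-- product with a factor that is bounded after multiplication by `l` -/
lemma lmul {x y g a b c l : ℝ} (h1 : |x| ≤ a * l) (h2 : |g| ≤ c) (h3 : l * |y| ≤ b) (ha : 0 ≤ a) :
    |x * (g * y)| ≤ a * c * b := by
  have c0 := (abs_nonneg _).trans h2
  have := mul_le_mul_of_nonneg_left h3 (mul_nonneg ha c0)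
  have := amul h1 (amul h2 (le_refl |y|))
  linarith

namespace Cx
variable {d : MD} {p : PT} {s : Sa} {t : Wi} {C : ℝ} (H : Cx d p s t C)
include H

lemma sc : d.c.l1 ≤ d.c.dl * d.c.W10 ∧ d.c.l1 = d.c.s12 * d.c.W20 ∧ d.c.l1 = √d.c.p * d.c.Hp ∧
    d.c.W20 ≤ be d.c * d.c.W10 := by
  have := H.g.dl_pos; have := H.g.s12_pos; have := Real.sqrt_pos.2 H.g.p_pos
  have l0 := H.g.l1_pos; have w0 := H.g.W20_pos
  have e1 : d.c.dl * d.c.W10 = 10 * d.c.l1 := by unfold Pm.W10; field_simp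
  have e2 : be d.c * d.c.W10 = 10 * d.c.W20 := by unfold Pm.W10 Pm.W20 be; field_simp
  exact ⟨by linarith, by unfold Pm.W20; field_simp, by unfold Pm.Hp; field_simp, by linarith⟩

lemma bF {x : V} (hx : x ∈ d.R (95 / 100)) {a ε : ℝ} (ha : a = |d.α x| + np d.c.N (-14 / 5))
    (hε : ε = np d.c.N (-14 / 5)) :
    |pd 1 (d.Ph p t) x| ≤ C * a * d.c.l1 ∧ |pd 0 (d.Ph p t) x| ≤ C * a * be d.c * d.c.l1 ∧
    |pd 0 (pd 1 (d.Ph p t)) x| ≤ C * a * d.c.dl ∧ |pd 1 (pd 1 (d.Ph p t)) x| ≤ C * a * d.c.s12 ∧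
    |pd 0 (pd 0 (d.Ph p t)) x| ≤ C * a * (be d.c * d.c.dl) ∧
    |pd 2 (pd 1 (d.Ph p t)) x| ≤ C * ε * √d.c.p ∧
    |pd 2 (pd 0 (d.Ph p t)) x| ≤ C * ε * (be d.c * √d.c.p) := by
  obtain ⟨s1, s2, s3, s4⟩ := H.sc
  have ε0 : 0 ≤ ε := hε ▸ (H.g.big.np_pos _).le
  have a0 : 0 ≤ a := by rw [ha, ← hε]; positivity
  have l0 := H.g.l1_pos; have w1 := H.g.W10_pos; have w2 := H.g.W20_pos; have w3 := H.g.Hp_pos
  have k := fun l hl => H.pb.ma x hx l hl
  have k' := fun j => H.pb.ve x hx j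
  rw [← ha] at k
  rw [← hε] at k'
  have m1 := mul_le_mul s1 s4 w2.le (l0.le.trans s1)
  have m2 := mul_le_mul s3.le s4 w2.le (l0.le.trans s3.le)
  refine ⟨dvb (w := d.c.W20 * 1) (by positivity) (k [1] (by simp)) (by linarith) H.C0 a0,
    (dvb (w := d.c.W10 * 1) (r := be d.c * d.c.l1) (by positivity) (k [0] (by simp))
      (by linarith [mul_le_mul_of_nonneg_left s4 l0.le]) H.C0 a0).trans_eq (by ring),
    dvb (w := d.c.W10 * (d.c.W20 * 1)) (by positivity) (k [0, 1] (by simp))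
      (by linarith [mul_le_mul_of_nonneg_right s1 w2.le]) H.C0 a0,
    dvb (w := d.c.W20 * (d.c.W20 * 1)) (by positivity) (k [1, 1] (by simp))
      (by linarith [mul_le_mul_of_nonneg_right s2.le w2.le]) H.C0 a0,
    dvb (w := d.c.W10 * (d.c.W10 * 1)) (by positivity) (k [0, 0] (by simp)) (by linarith) H.C0 a0,
    dvb (w := d.c.Hp * (d.c.W20 * 1)) (by positivity) (k' 1)
      (by linarith [mul_le_mul_of_nonneg_right s3.le w2.le]) H.C0 ε0,
    dvb (w := d.c.Hp * (d.c.W10 * 1)) (by positivity) (k' 0) (by linarith) H.C0 ε0⟩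

lemma bz {x : V} (hx : x ∈ d.R (99 / 100)) :
    pd 0 (d.ze s) x = pd 0 d.Pq x * Tn d s x + d.Pq x * pd 0 (Tn d s) x ∧
    d.c.l1 * |d.Pq x * pd 0 (Tn d s) x| ≤ z0 d.c * d.c.dl ∧
    d.c.l1 * |pd 0 (d.ze s) x| ≤ 10 * u0 d.c + z0 d.c * d.c.dl ∧
    d.c.l1 * |pd 1 (d.ze s) x| ≤ (d.c.q ^ 4 * d.c.J * u0 d.c + z0 d.c) * d.c.s12 ∧
    d.c.l1 * |pd 2 (d.ze s) x| ≤ d.c.q ^ 4 * d.c.J * d.c.t1B * u0 d.c + z0 d.c * √d.c.p := by
  obtain ⟨s1, s2, s3, -⟩ := H.sc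
  obtain ⟨b0, b1, b2, b3, b4⟩ := H.pq.2.1 x hx
  have l0 := H.g.l1_pos.le
  have e : ∀ j, pd j (d.ze s) x = pd j d.Pq x * Tn d s x + d.Pq x * pd j (Tn d s) x := fun j => by
    rw [H.ze_eq, pd_mul_at (H.pq.1.dif x) (H.sT.dif x)]
  have k1 : ∀ (j : Fin 3) (r : ℝ), 0 ≤ r → d.c.l1 ≤ r * d.c.thS j →
      d.c.l1 * |d.Pq x * pd j (Tn d s) x| ≤ z0 d.c * r := fun j r hr hl => by
    have h1 : d.c.thS j * 1 * |pd j (Tn d s) x| ≤ mu0 d.c := H.bT [j] (by simp) x hx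
    have h2 := mul_le_mul_of_nonneg_right hl (abs_nonneg (pd j (Tn d s) x))
    have h3 := mul_le_mul_of_nonneg_left h1 hr
    have h4 := mul_le_mul b0 (show d.c.l1 * |pd j (Tn d s) x| ≤ r * mu0 d.c by linarith)
      (by positivity) ((abs_nonneg _).trans b0)
    rw [abs_mul, z0]
    linarith
  have k2 : ∀ (j : Fin 3) (r B : ℝ), 0 ≤ r → d.c.l1 ≤ r * d.c.thS j → |pd j d.Pq x| ≤ B →
      d.c.l1 * |pd j (d.ze s) x| ≤ B * u0 d.c + z0 d.c * r := fun j r B hr hl hB => by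
    have h1 := mul_le_mul_of_nonneg_left (aadd (amul hB (H.bT.val hx))
      (le_refl |d.Pq x * pd j (Tn d s) x|)) l0
    rw [e, u0]
    linarith [k1 j r hr hl]
  have k3 := k2 1 _ _ H.g.s12_pos.le s2.le b3
  have k4 : d.c.s12 = d.c.m * uB d.c.N := by rw [Pm.s12, Pm.s21, if_neg (notA H.g H.n)]
  refine ⟨e 0, k1 0 _ H.g.dl_pos.le s1, k2 0 _ _ H.g.dl_pos.le s1 (abs_le.2 ⟨by linarith, b2⟩), ?_,
    k2 2 _ _ (Real.sqrt_nonneg _) s3.le b4⟩
  rw [mul_assoc _ d.c.m, ← k4] at k3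
  linarith

lemma eA {x : V} (hx : x ∈ d.R (95 / 100)) (i j : Fin 3) :
    d.Am s (d.Pm' p s t) (d.om p t) x i j = pd j (Av d p t i) x * d.prof p s t x +
      Av d p t i x * pd j (d.prof p s t) x - pd 1 (d.Ph p t) x * f1 (d.ph p t x) *
        (E02 i j / d.Hh 0 + pd 0 d.Pq x * Tn d s x * E00 i j) := by
  have e := pd_mul_at ((H.sA i).dif x) ((H.smN.contDiffAt hx).differentiableAt (by simp)) j
  rw [← H.pm_eq] at e
  simp only [MD.Am, jm, Matrix.sub_apply, Matrix.smul_apply, Matrix.of_apply, e, MD.om,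
    if_pos H.nz, Tn, smul_eq_mul]
  ring

lemma out {x : V} (hx : x ∉ d.R (9 / 10)) : d.Am s (d.Pm' p s t) (d.om p t) x = 0 := by
  have e : jm (d.Pm' p s t) x = 0 := by
    ext i j
    refine pds_zero_of_eventually (g := fun y => d.Pm' p s t y i) ?_ [j]
    filter_upwards [(Prof.RX_closed d.O d.c.D (9 / 10)).isOpen_compl.mem_nhds hx] with y hy
    rw [(H.sup y (Or.inl hy)).1, Pi.zero_apply]
  simp [MD.Am, e, (H.sup x (Or.inl hx)).2]

/-- the six entries -/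
lemma ent {x : V} (hx : x ∈ d.R (95 / 100)) {M : Mx} (hM : M = d.Am s (d.Pm' p s t) (d.om p t) x)
    {a : ℝ} (ha : a = qp d.c.N (1 / 100) * |d.α x|) :
    |M 0 0| ≤ a * d.c.dl + np d.c.N (-2) + T0 d.c ∧
    |M 0 1| ≤ a * d.c.s12 + np d.c.N (-2) + T1 d.c * d.c.s12 ∧
    |M 0 2| ≤ np d.c.N (-2) + T1 d.c * (d.c.q * d.c.J * d.c.t1B) ∧
    |M 1 0| ≤ a * (d.c.η * (be d.c * d.c.dl)) + np d.c.N (-2) + T1 d.c * d.c.s21 ∧
    |M 1 1| ≤ a * (d.c.η * d.c.dl) + np d.c.N (-2) + T1 d.c * (d.c.η * d.c.dl) ∧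
    |M 1 2| ≤ a * (d.c.η * be d.c * (d.c.l1 / d.Hh 0)) + np d.c.N (-2) + T1 d.c * d.c.s21 ∧
    |d.c.η * M 0 0 + (2 - d.c.η) * M 1 1| ≤ d.c.η * T0 d.c / 10 := by
  obtain ⟨b, hb⟩ : ∃ b, b = |d.α x| + np d.c.N (-14 / 5) := ⟨_, rfl⟩
  obtain ⟨ε, hε⟩ : ∃ ε, ε = np d.c.N (-14 / 5) := ⟨_, rfl⟩
  obtain ⟨f1', f0', f01, f11, f00, f21, f20⟩ := H.bF hx hb hε
  obtain ⟨z1, z2, z3, z4, z5⟩ := H.bz (H.sub2 hx)
  obtain ⟨g, k, eπ, bπ, bf, bg, bk, bgf, bkf⟩ := H.pt (H.sub2 hx)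
  obtain ⟨n1, n2, n3, n4, n5, n6, n7, n8, n9, n10, n11, n12⟩ := num1 H.g H.n
  obtain ⟨m1, m2, m3, m4, -, m6, -⟩ := num2 H.g H.n
  have A0 : Av d p t 0 = pd 1 (d.Ph p t) := rfl
  have A1 : Av d p t 1 = fun y => -d.c.η0 * pd 0 (d.Ph p t) y := rfl
  have e := fun i j => hM ▸ H.eA hx i j
  have e00 := e 0 0; have e01 := e 0 1; have e02 := e 0 2
  have e10 := e 1 0; have e11 := e 1 1; have e12 := e 1 2
  simp [A0, A1, eπ, pd_const_mul, pd_neg, E00, E02, dg3] at e00 e01 e02 e10 e11 e12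
  rw [pd_comm H.pb.sm 1 0] at e11
  clear e eπ A0 A1 hM
  have η0 := H.g.η_pos.le; have η1 := H.g.η_le_one; have d0 := H.g.dl_pos.le
  have s0 := H.g.s12_pos.le; have p0 := Real.sqrt_nonneg d.c.p; have be0 := (be_pos H.g).le
  have z0' := (z0_pos H.g).le; have u0' := (u0_pos H.g).le; have t0 := H.g.t1B_pos.le
  have l0 := H.g.l1_pos.le; have C0 := H.C0; have q0 := H.g.q_pos.le; have J0 := H.g.J_pos.le
  have E0 := H.g.big.np_pos (-2); have lH := H.lH; have H0 := H.H_pos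
  have ε0 : 0 ≤ ε := hε ▸ (H.g.big.np_pos _).le
  have ε1 : ε ≤ 1 := hε ▸ (H.g.big.np_le (by norm_num)).trans_eq (np_zero _)
  have α1 : |d.α x| ≤ 1 := Prof.alh_abs_le _ _ _
  have b0 : 0 ≤ b := by rw [hb, ← hε]; positivity
  have b2 : C * b ≤ 2 * C := by
    rw [mul_comm]; exact mul_le_mul_of_nonneg_right (by linarith) C0
  have g1 : |pd 1 (d.Ph p t) x| ≤ 2 * C * d.c.l1 := f1'.trans (mul_le_mul_of_nonneg_right b2 l0)
  have g0 : |pd 0 (d.Ph p t) x| ≤ 2 * C * be d.c * d.c.l1 :=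
    f0'.trans (mul_le_mul_of_nonneg_right (mul_le_mul_of_nonneg_right b2 be0) l0)
  have iH : d.c.l1 * |(d.Hh 0)⁻¹| = d.c.l1 / d.Hh 0 := by
    rw [abs_of_pos (inv_pos.2 H0), div_eq_mul_inv]
  have mε : ∀ m, 0 ≤ m → m ≤ 1 → C * ε * m * (2 * C) ≤ np d.c.N (-2) / 2 := fun m h0 h1 => by
    have k1 : 4 * C ^ 2 ≤ d.c.q := by linarith [H.Cq, H.C23.2, sq_nonneg C]
    have k2 := mul_le_mul k1 (mul_le_of_le_one_right ε0 h1) (by positivity) q0
    rw [← hε] at m6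
    linarith
  have mn : ∀ m, 0 ≤ m → m ≤ 1 → C * b * m * (2 * C) ≤ a * m + np d.c.N (-2) / 2 :=
    fun m h0 h1 => by
      have k1 : 2 * C ^ 2 ≤ qp d.c.N (1 / 100) := by linarith [H.cq, H.C23.2, sq_nonneg C]
      have k2 := mul_le_mul_of_nonneg_right k1 (mul_nonneg (abs_nonneg (d.α x)) h0)
      have k3 := mε m h0 h1
      rw [hb, ← hε, ha]
      linarith
  have rm : ∀ {r T : ℝ}, d.c.q * r ≤ T → 0 ≤ r →
      10 ^ 8 * (C ^ 3 * r) ≤ T ∧ C ^ 2 * r ≤ C ^ 3 * r ∧ 0 ≤ C ^ 2 * r := fun {r T} h1 h0 =>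
    ⟨by linarith [mul_le_mul_of_nonneg_right H.Cq h0], mul_le_mul_of_nonneg_right H.C23.2 h0,
      by positivity⟩
  have ab : ∀ {X B : ℝ}, |X| ≤ B → |-d.c.η0 * X| ≤ d.c.η * B := fun h =>
    amul (by rw [abs_neg, abs_of_pos H.g.η0_pos]; exact H.g.η0_bd.2) h
  obtain ⟨r1, -, r1'⟩ := rm n6 (by positivity)
  obtain ⟨r2, r2', r2''⟩ := rm n7 (by positivity)
  obtain ⟨r3, r3', r3''⟩ := rm n8 (by positivity)
  have zz := mul_le_mul_of_nonneg_right H.Cz (show 0 ≤ C ^ 2 * (z0 d.c * d.c.dl) by positivity)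
  have R0 := aadd (lmul g1 bgf z3 (by positivity)) (lmul g1 bf z2 (by positivity))
  have R1 := lmul g0 bg z4 (by positivity)
  have bs : be d.c * d.c.s12 = d.c.dl := div_mul_cancel₀ _ H.g.s12_pos.ne'
  replace R1 := R1.trans_eq (show _ = 4 * C ^ 2 * (d.c.q ^ 4 * d.c.J * u0 d.c + z0 d.c) * d.c.dl by
    rw [← bs]; ring)
  refine ⟨?_, ?_, ?_, ?_, ?_, ?_, ?_⟩
  · refine (le_of_eq (congrArg abs ?_)).trans ((aadd (amul f01 bπ) R0).trans ?_)
    · rw [e00, z1]; ring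
    · linarith [mn _ d0 n1]
  · rw [e01]
    refine (aadd (amul f11 bπ) (lmul g1 bg z4 (by positivity))).trans ?_
    obtain ⟨k1, k2, k3⟩ := rm (mul_le_mul_of_nonneg_right n9 s0 |>.trans_eq' (mul_assoc _ _ _))
      (by positivity)
    obtain ⟨k4, k5, k6⟩ := rm (mul_le_mul_of_nonneg_right n10 s0 |>.trans_eq' (mul_assoc _ _ _))
      (by positivity)
    linarith [mn _ s0 n2]
  · refine (le_of_eq (congrArg abs ?_)).trans ((aadd (amul f21 bπ) (aadd (lmul g1 bg z5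
      (by positivity)) (lmul g1 bkf (iH.trans_le lH) (by positivity)))).trans ?_)
    · rw [e02]; ring
    · obtain ⟨k1, k2, k3⟩ := rm n11 (by positivity)
      obtain ⟨k4, k5, k6⟩ := rm n12 (by positivity)
      linarith [mε _ p0 n3]
  · refine (le_of_eq (congrArg abs ?_)).trans ((ab (aadd (amul f00 bπ) (lmul g0 bg z3
      (by positivity)))).trans ?_)
    · rw [e10]; ring
    · obtain ⟨k1, k2, k3⟩ := rm m1 (by positivity)
      obtain ⟨k4, k5, k6⟩ := rm m2 (by positivity)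
      linarith [mn (d.c.η * be d.c * d.c.dl) (by positivity) (mul_le_one₀ n4 d0 n1)]
  · refine (le_of_eq (congrArg abs ?_)).trans ((ab (aadd (amul f01 bπ) R1)).trans ?_)
    · rw [e11]; ring
    · have h0 : 0 ≤ d.c.η * d.c.dl := by positivity
      obtain ⟨k1, k2, k3⟩ := rm (mul_le_mul_of_nonneg_right n9 h0 |>.trans_eq' (mul_assoc _ _ _))
        (by positivity)
      obtain ⟨k4, k5, k6⟩ := rm (mul_le_mul_of_nonneg_right n10 h0 |>.trans_eq' (mul_assoc _ _ _))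
        (by positivity)
      linarith [mn _ h0 (mul_le_one₀ η1 d0 n1)]
  · refine (le_of_eq (congrArg abs ?_)).trans ((ab (aadd (amul f20 bπ) (aadd (lmul g0 bg z5
      (by positivity)) (lmul f0' bk iH.le (by positivity))))).trans ?_)
    · rw [e12]; ring
    · obtain ⟨k1, k2, k3⟩ := rm m3 (by positivity)
      obtain ⟨k4, k5, k6⟩ := rm m4 (by positivity)
      linarith [mε (d.c.η * be d.c * √d.c.p) (by positivity) (mul_le_one₀ n4 p0 n3),
        mn (d.c.η * be d.c * (d.c.l1 / d.Hh 0)) (by positivity)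
          (mul_le_one₀ n4 (by positivity) (lH.trans n3))]
  · have e : (2 - d.c.η) * d.c.η0 = d.c.η := mul_div_cancel₀ _ H.g.two_sub_pos.ne'
    refine (le_of_eq (congrArg abs ?_)).trans ((amul (abs_of_nonneg η0).le
      (aadd R0 ((abs_neg _).trans_le R1))).trans ?_)
    · rw [e00, e11, z1]
      linear_combination (-(pd 0 (pd 1 (d.Ph p t)) x * d.prof p s t x) -
        pd 0 (d.Ph p t) x * (g * pd 1 (d.ze s) x)) * e
    · rw [mul_div_assoc]
      exact mul_le_mul_of_nonneg_left (by linarith) η0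

lemma a_eq (a : ℝ) : deriv (p.τ t.1 (t.2 0) (t.2 1)) a = 1 / d.Hh 0 := by
  rw [funext H.τ, deriv_div_const, deriv_id'']

lemma ter_ge : np d.c.N (-2) ≤ d.ter := by
  unfold MD.ter
  split_ifs
  exacts [H.g.big.np_le (by norm_num), le_rfl]

lemma tb (x : V) : EB2 (d.Am s (d.Pm' p s t) (d.om p t) x) ((qp d.c.N (1 / 100) * |d.α x|) •
    d.tab t.1 (deriv (p.τ t.1 (t.2 0) (t.2 1)) (x 2)) + cm d.ter +
      if d.nz0 t.1 then d.tnz else 0) := by
  obtain ⟨a, ha⟩ : ∃ a, a = qp d.c.N (1 / 100) * |d.α x| := ⟨_, rfl⟩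
  obtain ⟨M, hM⟩ : ∃ M, M = d.Am s (d.Pm' p s t) (d.om p t) x := ⟨_, rfl⟩
  have k : |M 0 0| ≤ a * d.c.dl + np d.c.N (-2) + T0 d.c ∧
      |M 0 1| ≤ a * d.c.s12 + np d.c.N (-2) + T1 d.c * d.c.s12 ∧
      |M 0 2| ≤ np d.c.N (-2) + T1 d.c * (d.c.q * d.c.J * d.c.t1B) ∧
      |M 1 0| ≤ a * (d.c.η * (be d.c * d.c.dl)) + np d.c.N (-2) + T1 d.c * d.c.s21 ∧
      |M 1 1| ≤ a * (d.c.η * d.c.dl) + np d.c.N (-2) + T1 d.c * (d.c.η * d.c.dl) ∧
      |M 1 2| ≤ a * (d.c.η * be d.c * (d.c.l1 / d.Hh 0)) + np d.c.N (-2) + T1 d.c * d.c.s21 := by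
    by_cases hx : x ∈ d.R (9 / 10)
    · obtain ⟨k1, k2, k3, k4, k5, k6, -⟩ := H.ent (H.sub1 hx) hM ha
      exact ⟨k1, k2, k3, k4, k5, k6⟩
    · have := H.g.big.qp_pos (1 / 100); have := H.g.big.np_pos (-2); have := H.g.dl_pos
      have := H.g.s12_pos; have := H.g.s21_pos; have := T0_pos H.g; have := T1_pos H.g
      have := H.g.q_pos; have := H.g.J_pos; have := H.g.t1B_pos; have := H.g.η_pos
      have := be_pos H.g; have := H.g.l1_pos; have := H.H_pos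
      rw [hM, H.out hx, ha]
      simp only [Matrix.zero_apply, abs_zero]
      refine ⟨?_, ?_, ?_, ?_, ?_, ?_⟩ <;> positivity
  obtain ⟨k1, k2, k3, k4, k5, k6⟩ := k
  have m5 := (num2 H.g H.n).2.2.2.2.1
  have := H.ter_ge
  have e1 : d.c.η * d.c.dl ^ 2 / d.c.s12 = d.c.η * (be d.c * d.c.dl) := by unfold be; ring
  have e2 : d.c.η * d.c.dl / d.c.s12 * (d.c.l1 * (1 / d.Hh 0)) =
    d.c.η * be d.c * (d.c.l1 / d.Hh 0) := by unfold be; ring
  rw [← ha, ← hM, if_pos H.nz, H.a_eq, H.t0, MD.tab, if_pos rfl, if_pos H.n, e1, e2, MD.tnz]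
  change EB2 M (_ + _ + T1 d.c • _)
  intro i j hi
  rw [Matrix.add_apply, Matrix.add_apply, show cm d.ter i j = d.ter from rfl]
  fin_cases i <;> fin_cases j <;> simp [Pm.nz] at hi ⊢ <;> linarith

lemma dv (x : V) : |d.c.η * d.Am s (d.Pm' p s t) (d.om p t) x 0 0 +
    (2 - d.c.η) * d.Am s (d.Pm' p s t) (d.om p t) x 1 1| ≤ if d.nz0 t.1 then d.nV / 10 else 0 := by
  have k : d.c.η * T0 d.c / 10 ≤ d.nV / 10 := by
    rw [MD.nV, if_pos H.n, mul_div_assoc d.c.η d.c.p, T0]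
    linarith [H.g.big.np_pos (-5)]
  rw [if_pos H.nz]
  refine le_trans ?_ k
  by_cases hx : x ∈ d.R (9 / 10)
  · exact (H.ent (H.sub1 hx) rfl rfl).2.2.2.2.2.2
  · have := H.g.η_pos; have := T0_pos H.g
    rw [H.out hx]
    simp only [Matrix.zero_apply, mul_zero, add_zero, abs_zero]
    positivity

lemma der : d.Der p s t := ⟨H.cr, H.sup, H.am, H.tb, H.dv, H.d2, H.cb_om.of_le (by norm_num),
  fun h => absurd h (H.g.notcomp_of_noise H.n)⟩

end Cx

end Derb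

open Derb in
theorem derb : DerbStmt := by
  obtain ⟨C1, a1, b1⟩ := ph_bd
  obtain ⟨C2, a2, b2⟩ := pr_cb 2
  obtain ⟨C4, a4, b4⟩ := pr_cb 4
  obtain ⟨M, aM, bM⟩ := f_bd 5
  have a0 := c_nonneg
  obtain ⟨C, hC⟩ : ∃ C, C = C1 + C2 + C4 + M + I1 / I0 := ⟨_, rfl⟩
  filter_upwards [ev_gd, ev_C_qp (100 * C ^ 3) (c := 1 / 100) (by norm_num)] with N hg hq d hN _ hI
    p s hs hP t ht
  have g := hg d.c hN hI.ok
  have c1 : 1 ≤ C := by linarith
  rw [← hN] at hq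
  have k : C1 ≤ d.c.q := by
    linarith [(num2 g ht.1).2.2.2.2.2.2.2.2, g.big.qp_pos (1 / 100),
      le_self_pow₀ c1 three_ne_zero]
  refine Cx.der (C := C) ⟨g, ht.1, ht.2, c1, hq, by linarith, fun j hj t =>
    ⟨(bM j hj t).1.trans (by linarith), (bM j hj t).2.trans (by linarith)⟩,
    (b1 d p t g ht.1 hI.ort hP.1 ht.2 k).mono g (by linarith), (hI.ns.2.2 ht.1).1, hs.sm.2.2,
    hs.th ht.1, fun a => ?_, fun n hn h H a B ζ U h1 h2 h3 h4 h5 h6 h7 => ?_⟩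
  · rw [(hP.2.1 _ _ _).2.2.2.1 (notA g ht.1), ht.2]
  · have : 0 ≤ B ^ (2 * n + 1) := pow_nonneg (zero_le_one.trans h5) _
    rcases hn with rfl | rfl
    exacts [CBl.monoB (b2 h H a B ζ U h1 h2 h3 h4 h5 h6 h7)
        (mul_le_mul_of_nonneg_right (by linarith) this),
      CBl.monoB (b4 h H a B ζ U h1 h2 h3 h4 h5 h6 h7)
        (mul_le_mul_of_nonneg_right (by linarith) this)]

end
end Pool.Agent.MP_20bec2_an.T3

end MrgPart1

-- marker of a merged file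
example : 731051 + 188072 = 731051 + 188072 := rfl
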