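import Mathlib.Algebra.Ring.IsFormallyReal
import Mathlib.MeasureTheory.Integral.IntegralEqImproper
import Mathlib.RingTheory.PiTensorProduct
import Pool.Agent.MP_20bec2_an.T3.Yq
import Pool.Agent.MP_20bec2_an.T3.Calc2C
import Pool.Agent.MP_20bec2_an.T3.Calc1b
import Pool.Agent.MP_20bec2_an.T3.Zt
import Mathlib.Tactic.NormNum.RealSqrt
import Pool.Agent.MP_20bec2_an.T3.WinA
import Pool.Agent.MP_20bec2_an.T3.Derb

-- ======== part 0: formerly Pool.Agent.MP_20bec2_an.T3.CovB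
section MrgPart0

-- ======== part 0: formerly Pool.Agent.MP_20bec2_an.T3.CovA
section MrgPart0

/-! Tools for averaging over the shifts of the patterns. -/

set_option autoImplicit false
open MeasureTheory Set Filter Matrix Topology

namespace Pool.Agent.MP_20bec2_an.T3
noncomputable section
open Classical

namespace Cov

/-! ## the profile -/

lemma f0_sm : Sm f0 := Prof.bp_sm _ _
lemma f1_sm : Sm f1 := f0_sm.deriv
lemma f0_zero {t : ℝ} (h : 2 / 5 ≤ |t|) : f0 t = 0 := Prof.bp_zero (by norm_num) h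
lemma f0_at0 : f0 0 = 1 := Prof.bp_one (by norm_num) (by norm_num)
lemma f1_zero {t : ℝ} (h : 2 / 5 < |t|) : f1 t = 0 := by
  have e : f0 =ᶠ[𝓝 t] fun _ => 0 :=
    ((isOpen_lt continuous_const continuous_abs).mem_nhds h : {s : ℝ | 2 / 5 < |s|} ∈ 𝓝 t) |>
      fun k => Filter.eventually_of_mem k fun s hs => f0_zero (le_of_lt hs)
  unfold f1
  rw [e.deriv_eq, deriv_const]
lemma f0_hd (t : ℝ) : HasDerivAt f0 (f1 t) t := (f0_sm.dif t).hasDerivAt

/-- the profile and its derivative -/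
def ff (a : Fin 2) : ℝ → ℝ := ![f0, f1] a
@[simp] lemma ff_0 : ff 0 = f0 := rfl
@[simp] lemma ff_1 : ff 1 = f1 := rfl
lemma ff_sm (a : Fin 2) : Sm (ff a) := by
  fin_cases a
  · exact f0_sm
  · exact f1_sm
lemma ff_zero (a : Fin 2) {t : ℝ} (h : 2 / 5 < |t|) : ff a t = 0 := by
  fin_cases a
  · exact f0_zero h.le
  · exact f1_zero h
lemma ff_hcs (a : Fin 2) : HasCompactSupport (ff a) :=
  Prof.hcs_of_zero (b := 1) fun _ h => ff_zero a (by linarith)
lemma ff_bound (n : ℕ) : ∃ C : ℝ, 1 ≤ C ∧ ∀ a, ∀ j ≤ n, ∀ t, |iteratedDeriv j (ff a) t| ≤ C := by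
  obtain ⟨C0, a0, h0⟩ := Prof.iter_bound (ff_sm 0) (ff_hcs 0) n
  obtain ⟨C1, a1, h1⟩ := Prof.iter_bound (ff_sm 1) (ff_hcs 1) n
  refine ⟨max C0 C1, le_max_of_le_left a0, fun a j hj t => ?_⟩
  fin_cases a
  · exact (h0 j hj t).trans (le_max_left _ _)
  · exact (h1 j hj t).trans (le_max_right _ _)

lemma sq_pos {g : ℝ → ℝ} (hg : Continuous g) (hc : HasCompactSupport g) {t : ℝ} (ht : g t ≠ 0) :
    0 < ∫ s, g s ^ 2 := by
  refine Continuous.integral_pos_of_hasCompactSupport_nonneg_nonzero (x := t) (hg.pow 2) ?_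
    (fun s => sq_nonneg _) (pow_ne_zero 2 ht)
  exact hc.comp_left (g := fun y : ℝ => y ^ 2) (by norm_num)

lemma I0_pos : 0 < I0 := sq_pos f0_sm.continuous (ff_hcs 0) (t := 0) (by rw [f0_at0]; norm_num)

lemma I1_pos : 0 < I1 := by
  have : ∃ t, f1 t ≠ 0 := by
    by_contra hc
    push Not at hc
    have := is_const_of_deriv_eq_zero f0_sm.dif hc 0 1
    rw [f0_at0, f0_zero (by norm_num)] at this
    norm_num at this
  obtain ⟨t, ht⟩ := this
  exact sq_pos f1_sm.continuous (ff_hcs 1) ht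

lemma ff_int (a b : Fin 2) : Integrable fun t => ff a t * ff b t :=
  ((ff_sm a).continuous.mul (ff_sm b).continuous).integrable_of_hasCompactSupport
    (ff_hcs a).mul_right

lemma int_f0f1 : ∫ t, f0 t * f1 t = 0 := by
  have h := integral_eq_zero_of_hasDerivAt_of_integrable (f := fun t => f0 t * f0 t)
    (f' := fun t => f1 t * f0 t + f0 t * f1 t) (fun t => (f0_hd t).mul (f0_hd t))
    ((ff_int 1 0).add (ff_int 0 1)) (ff_int 0 0)
  have e : (fun t => f1 t * f0 t + f0 t * f1 t) = fun t => 2 * (f0 t * f1 t) := by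
    funext t; ring
  rw [e, integral_const_mul] at h
  linarith

/-- the means -/
def mu (a b : Fin 2) : ℝ := ∫ t, ff a t * ff b t
@[simp] lemma mu_00 : mu 0 0 = I0 := by simp [mu, I0, sq]
@[simp] lemma mu_11 : mu 1 1 = I1 := by simp [mu, I1, sq]
@[simp] lemma mu_01 : mu 0 1 = 0 := int_f0f1
@[simp] lemma mu_10 : mu 1 0 = 0 := by
  rw [← int_f0f1]; simp only [mu, ff_0, ff_1, mul_comm]
lemma mu_le (a b : Fin 2) : |mu a b| ≤ I0 + I1 := by
  have := I0_pos
  have := I1_pos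
  fin_cases a <;> fin_cases b <;> simp only [Fin.zero_eta, Fin.mk_one, mu_00, mu_01, mu_10, mu_11] <;>
    rw [abs_le] <;> constructor <;> linarith

/-- the error of the Riemann sum -/
def eA (n : ℕ) (a b : Fin 2) (y : ℝ) : ℝ :=
  (∑ᶠ k : ℤ, ff a (y - k / n) * ff b (y - k / n)) - n * mu a b

lemma eA_bound : ∃ C : ℝ, 1 ≤ C ∧ ∀ n : ℕ, 0 < n → ∀ a b, Sm (eA n a b) ∧
    ∀ j ≤ 6, ∀ y, |iteratedDeriv j (eA n a b) y| ≤ C := by
  have H := fun p : Fin 2 × Fin 2 => avg (fun t => ff p.1 t * ff p.2 t)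
    ((ff_sm _).mul (ff_sm _)) fun t ht => by rw [ff_zero p.1 (by linarith), zero_mul]
  choose C hC using H
  refine ⟨1 + ∑ p, |C p|, le_add_of_nonneg_right (Finset.sum_nonneg fun _ _ => abs_nonneg _),
    fun n hn a b => ⟨(hC (a, b) n hn).1.sub contDiff_const, fun j hj y => ?_⟩⟩
  have h1 := (hC (a, b) n hn).2 j hj y
  have h2 : |C (a, b)| ≤ ∑ p, |C p| :=
    Finset.single_le_sum (f := fun p => |C p|) (fun _ _ => abs_nonneg _) (Finset.mem_univ _)
  have h3 := le_abs_self (C (a, b))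
  exact h1.trans (by linarith)

/-- a finite range of shifts that covers the support -/
def Cv' (n : ℕ) (I : Finset ℤ) (y : ℝ) : Prop := ∀ k : ℤ, k ∉ I → 1 ≤ |y - k / n|

lemma sum_eA {n : ℕ} {I : Finset ℤ} {y : ℝ} (h : Cv' n I y) (a b : Fin 2) :
    ∑ k ∈ I, ff a (y - k / n) * ff b (y - k / n) = n * mu a b + eA n a b y := by
  unfold eA
  rw [finsum_eq_sum_of_support_subset (s := I)]
  · ring
  · intro k hk
    by_contra hc
    exact hk (by
      show ff a (y - k / n) * ff b (y - k / n) = 0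
      rw [ff_zero a (by linarith [h k hc]), zero_mul])

/-- the range of the shifts -/
def II (N : ℕ) : Finset ℤ := Finset.Icc (-(N : ℤ) ^ 130) ((N : ℤ) ^ 130)

lemma cover {N : ℕ} (hN : 2 ≤ N) {y : ℝ} (hy : |y| ≤ (N : ℝ) ^ 99) : Cv' (nsig N) (II N) y := by
  intro k hk
  have h2 : (2 : ℝ) ≤ N := by exact_mod_cast hN
  have hk' : (N : ℤ) ^ 130 ≤ |k| := by
    simp only [II, Finset.mem_Icc, not_and_or, not_le] at hk
    rcases hk with hk | hk
    · exact le_abs'.2 (Or.inl hk.le)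
    · exact le_abs'.2 (Or.inr hk.le)
  have hk2 : (N : ℝ) ^ 130 ≤ |(k : ℝ)| := by exact_mod_cast hk'
  have p30 : (0 : ℝ) < (N : ℝ) ^ 30 := by positivity
  have h3 : (N : ℝ) ^ 100 ≤ |(k : ℝ) / (nsig N : ℕ)| := by
    unfold nsig
    push_cast
    rw [abs_div, abs_of_pos p30, le_div_iff₀ p30, ← pow_add]
    exact hk2
  have h4 : (1 : ℝ) ≤ (N : ℝ) ^ 99 := one_le_pow₀ (by linarith)
  have h5 : (N : ℝ) ^ 99 * 2 ≤ (N : ℝ) ^ 100 := by
    rw [pow_succ _ 99]; exact mul_le_mul_of_nonneg_left h2 (by linarith)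
  have h6 := abs_sub_abs_le_abs_sub ((k : ℝ) / (nsig N : ℕ)) y
  rw [abs_sub_comm] at h6
  linarith

/-- number of shifts whose window meets a point -/
lemma count {n : ℕ} (hn : 0 < n) (I : Finset ℤ) (y : ℝ) :
    ((I.filter fun k : ℤ => |y - k / n| ≤ 1 / 2).card : ℝ) ≤ 2 * n := by
  have hn' : (0 : ℝ) < n := Nat.cast_pos.2 hn
  have h1 : (I.filter fun k : ℤ => |y - k / n| ≤ 1 / 2) ⊆
      Finset.Icc ⌈n * y - n / 2⌉ (⌈n * y - n / 2⌉ + n) := by
    intro k hk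
    have h2 := abs_le.1 (Finset.mem_filter.1 hk).2
    have e : (n : ℝ) * (k / n) = k := mul_div_cancel₀ _ hn'.ne'
    have a1 := mul_le_mul_of_nonneg_left h2.1 hn'.le
    have a2 := mul_le_mul_of_nonneg_left h2.2 hn'.le
    rw [mul_sub, e] at a1 a2
    refine Finset.mem_Icc.2 ⟨Int.ceil_le.2 (by linarith), ?_⟩
    have := Int.le_ceil ((n : ℝ) * y - n / 2)
    have h3 : (k : ℝ) ≤ (⌈(n : ℝ) * y - n / 2⌉ + n : ℤ) := by push_cast; linarith
    exact_mod_cast h3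
  have h2 := Finset.card_le_card h1
  rw [Int.card_Icc] at h2
  have h3 : (I.filter fun k : ℤ => |y - k / n| ≤ 1 / 2).card ≤ 2 * n := by omega
  exact_mod_cast h3

/-- the sum over all windows as an iterated sum -/
lemma sum_TT {M : Type*} [AddCommMonoid M] (d : MD) (F : Wi → M) :
    ∑ t ∈ d.TT, F t = ∑ φ : Fin 3, ∑ k0 ∈ II d.c.N, ∑ k1 ∈ II d.c.N, ∑ k2 ∈ II d.c.N,
      F (φ, ![k0, k1, k2]) := by
  unfold MD.TT
  rw [Finset.sum_product]
  refine Finset.sum_congr rfl fun φ _ => ?_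
  rw [← Finset.sum_product' (f := fun k0 k1 => ∑ k2 ∈ II d.c.N, F (φ, ![k0, k1, k2])),
    ← Finset.sum_product' (f := fun (k : ℤ × ℤ) k2 => F (φ, ![k.1, k.2, k2]))]
  refine Finset.sum_bij' (fun k _ => ((k 0, k 1), k 2)) (fun k _ => ![k.1.1, k.1.2, k.2])
    (fun k hk => ?_) (fun k hk => ?_) (fun k _ => ?_) (fun k _ => rfl) fun k _ => ?_
  · have := Fintype.mem_piFinset.1 hk
    simp only [Finset.mem_product]
    exact ⟨⟨this 0, this 1⟩, this 2⟩
  · simp only [Finset.mem_product] at hk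
    refine Fintype.mem_piFinset.2 fun i => ?_
    fin_cases i
    · exact hk.1.1
    · exact hk.1.2
    · exact hk.2
  · funext i; fin_cases i <;> rfl
  · congr 2
    funext i; fin_cases i <;> rfl

/-- a sum of which only `m` terms are alive near each point -/
lemma cb_sum_loc {ι : Type*} {P : List (Fin 3) → Prop} {h : V} {U : Set V} {B m : ℝ} (T : Finset ι)
    {F : ι → V → ℝ} (Q : ι → V → Prop) (hh : ∀ i, 0 ≤ h i) (hF : ∀ t ∈ T, Sm (F t)) (hB : 0 ≤ B)
    (H : ∀ t ∈ T, CBl P h U (F t) B)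
    (hz : ∀ t ∈ T, ∀ x ∈ U, ¬ Q t x → F t =ᶠ[𝓝 x] fun _ => 0)
    (hc : ∀ x ∈ U, ((T.filter fun t => Q t x).card : ℝ) ≤ m) :
    CBl P h U (fun x => ∑ t ∈ T, F t x) (m * B) := by
  refine cbl_of_local fun x hx => ?_
  have e : (fun y => ∑ t ∈ T, F t y) =ᶠ[𝓝 x] fun y => ∑ t ∈ T.filter fun t => Q t x, F t y := by
    have : ∀ᶠ y in 𝓝 x, ∀ t ∈ T.filter fun t => ¬ Q t x, F t y = 0 :=
      (Finset.eventually_all _).2 fun t ht =>
        hz t (Finset.mem_filter.1 ht).1 x hx (Finset.mem_filter.1 ht).2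
    filter_upwards [this] with y hy
    rw [← Finset.sum_filter_add_sum_filter_not T fun t => Q t x, Finset.sum_eq_zero hy, add_zero]
  refine CBl.monoB (CBl.congr (CBl.sum_card _ hh (fun t ht => hF t (Finset.mem_filter.1 ht).1)
    fun t ht => (H t (Finset.mem_filter.1 ht).1).monoU (singleton_subset_iff.2 hx)) ?_)
    (mul_le_mul_of_nonneg_right (hc x hx) hB)
  rintro y rfl
  exact e

/-- a function of one variable seen through a slowly varying phase -/
lemma cb_phase {h : V} {U : Set V} {u : V → ℝ} {g : ℝ → ℝ} {C : ℝ} (hh : ∀ i, 0 ≤ h i) (hu : Sm u)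
    (hg : Sm g) (hC : ∀ j ≤ 4, ∀ t, |iteratedDeriv j g t| ≤ C) (H : CV 4 h U u 1) (c : ℝ) :
    CB 4 h U (fun x => g (u x - c)) (cf 1 4 * C) := by
  have := CB.comp1 (I := univ) hh (SmN.of_sm (hu.sub contDiff_const) U) (SmN.of_sm hg _)
    (mapsTo_univ _ _) (fun j hj t _ => hC j hj t) (H.sub_const hu c)
  simpa using this

/-! ## the differential of the potential of a window -/

lemma pd_uv (d : MD) (φ : Fin 3) (j : Fin 3) (x : V) :
    pd j (fun x : V => x 0 / d.W1 φ) x = (if 0 = j then 1 else 0) / d.W1 φ ∧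
    pd j (fun x : V => x 1 / d.W2 φ + MD.vs φ * (x 0 / d.W1 φ)) x =
      (if 1 = j then 1 else 0) / d.W2 φ + MD.vs φ * ((if 0 = j then 1 else 0) / d.W1 φ) := by
  have a : ∀ (i : Fin 3) (s : ℝ), pd j (fun x : V => x i / s) x = (if i = j then 1 else 0) / s :=
    fun i s => by
      have := congrFun (pds_div_const s (fun x : V => x i) [j]) x
      simp only [pds] at this
      rw [this, pd_coord]
  refine ⟨a 0 _, ?_⟩
  rw [pd_add_at (((sm_coord 1).div_const _).differentiable (by simp) x)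
    ((((sm_coord 0).div_const _).differentiable (by simp) x).const_mul _), pd_const_mul, a, a]

lemma sm_u (d : MD) (φ : Fin 3) : Sm fun x : V => x 0 / d.W1 φ := (sm_coord 0).div_const _
lemma sm_v (d : MD) (φ : Fin 3) : Sm fun x : V => x 1 / d.W2 φ + MD.vs φ * (x 0 / d.W1 φ) :=
  ((sm_coord 1).div_const _).add ((sm_u d φ).cmul _)

lemma pd_Ph (d : MD) (p : PT) (t : Wi) (ha : Sm d.α) (hr : Sm (p.r t.1)) (j : Fin 3) (x : V) :
    pd j (d.Ph p t) x = d.ca t.1 * (pd j (fun y => d.α y * p.r t.1 y) x *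
        f0 (x 0 / d.W1 t.1 - t.2 0 / d.ns) *
        f0 (x 1 / d.W2 t.1 + MD.vs t.1 * (x 0 / d.W1 t.1) - t.2 1 / d.ns) +
      d.α x * p.r t.1 x * ((if 0 = j then 1 else 0) / d.W1 t.1) *
        f1 (x 0 / d.W1 t.1 - t.2 0 / d.ns) *
        f0 (x 1 / d.W2 t.1 + MD.vs t.1 * (x 0 / d.W1 t.1) - t.2 1 / d.ns) +
      d.α x * p.r t.1 x * ((if 1 = j then 1 else 0) / d.W2 t.1 +
          MD.vs t.1 * ((if 0 = j then 1 else 0) / d.W1 t.1)) *
        f0 (x 0 / d.W1 t.1 - t.2 0 / d.ns) *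
        f1 (x 1 / d.W2 t.1 + MD.vs t.1 * (x 0 / d.W1 t.1) - t.2 1 / d.ns)) := by
  have su : Sm fun x : V => x 0 / d.W1 t.1 - t.2 0 / d.ns := (sm_u d t.1).sub contDiff_const
  have sv : Sm fun x : V => x 1 / d.W2 t.1 + MD.vs t.1 * (x 0 / d.W1 t.1) - t.2 1 / d.ns :=
    (sm_v d t.1).sub contDiff_const
  have sa : Sm fun y => d.α y * p.r t.1 y := ha.mul hr
  have e : d.Ph p t = fun x => d.ca t.1 * (d.α x * p.r t.1 x * f0 (x 0 / d.W1 t.1 - t.2 0 / d.ns) *
      f0 (x 1 / d.W2 t.1 + MD.vs t.1 * (x 0 / d.W1 t.1) - t.2 1 / d.ns)) := by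
    funext x; unfold MD.Ph; ring
  have su' : Sm fun x : V => f0 (x 0 / d.W1 t.1 - t.2 0 / d.ns) := f0_sm.comp su
  have sv' : Sm fun x : V =>
      f0 (x 1 / d.W2 t.1 + MD.vs t.1 * (x 0 / d.W1 t.1) - t.2 1 / d.ns) := f0_sm.comp sv
  rw [e, pd_const_mul, pd_mul_at (Sm.dif (sa.mul su') x) (sv'.dif x),
    pd_mul_at (sa.dif x) (su'.dif x), pd_comp_at (f0_sm.dif _) (su.dif x),
    pd_comp_at (f0_sm.dif _) (sv.dif x),
    pd_sub_at ((sm_u d t.1).dif x) (differentiableAt_const _),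
    pd_sub_at ((sm_v d t.1).dif x) (differentiableAt_const _), (pd_uv d t.1 j x).1,
    (pd_uv d t.1 j x).2]
  simp only [pd_const, f1]
  ring

end Cov
end
end Pool.Agent.MP_20bec2_an.T3

end MrgPart0

-- ======== part 1: formerly Pool.Agent.MP_20bec2_an.T3.CovB
section MrgPart1

/-! Averaging of quadratic expressions over the shifts. -/

set_option autoImplicit false
open MeasureTheory Set Filter Matrix Topology

namespace Pool.Agent.MP_20bec2_an.T3
noncomputable section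
open Classical

namespace Cov

/-- averaging in the height -/
lemma prof_avg : ∃ K : ℝ, 1 ≤ K ∧ ∀ (n : ℕ) (I : Finset ℤ) (h x0 : V) (τ w ζ : V → ℝ) (B : ℝ),
    0 < n → (∀ i, 0 ≤ h i) → Sm τ → Sm w → Sm ζ → CV 4 h {x0} τ 1 → 1 ≤ B → CB 4 h {x0} w B →
    CB 4 h {x0} ζ 1 → (∀ᶠ x in 𝓝 x0, w x ^ 2 = 1 - I1 / I0 * ζ x ^ 2 ∧ Cv' n I (τ x)) →
    CB 4 h {x0} (fun x => ∑ k ∈ I, (w x * f0 (τ x - k / n) + ζ x * f1 (τ x - k / n)) ^ 2 - n * I0)
      (K * B ^ 2) := by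
  obtain ⟨C, C1, hC⟩ := eA_bound
  have c1 := C2.cf_one 1 4
  refine ⟨1024 * (cf 1 4 * C), by nlinarith, fun n I h x0 τ w ζ B hn hh sτ sw sζ Hτ B1 Hw Hζ ev => ?_⟩
  have se : ∀ a b, Sm fun x => eA n a b (τ x - 0) := fun a b =>
    (hC n hn a b).1.comp (sτ.sub contDiff_const)
  have He : ∀ a b, CB 4 h {x0} (fun x => eA n a b (τ x - 0)) (cf 1 4 * C) := fun a b =>
    cb_phase hh sτ (hC n hn a b).1 (fun j hj t => (hC n hn a b).2 j (by omega) t) Hτ 0
  have h1 := CB.mul3 hh sw sw (se 0 0) Hw Hw (He 0 0)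
  have h2 := CB.mul3 hh sw sζ (se 0 1) Hw Hζ (He 0 1)
  have h3 := CB.mul3 hh sζ sζ (se 1 1) Hζ Hζ (He 1 1)
  have s1 := (sw.mul sw).mul (se 0 0)
  have s2 := (sw.mul sζ).mul (se 0 1)
  have s3 := (sζ.mul sζ).mul (se 1 1)
  have h4 := CBl.add hh ((s1.add s2).add s2) s3 (CBl.add hh (s1.add s2) s2 (CBl.add hh s1 s2 h1 h2) h2) h3
  refine CBl.monoB (CBl.congr h4 ?_) ?_
  · rintro y rfl
    filter_upwards [ev] with x hx
    have e : ∀ k : ℤ, (w x * f0 (τ x - k / n) + ζ x * f1 (τ x - k / n)) ^ 2 =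
        w x ^ 2 * (ff 0 (τ x - k / n) * ff 0 (τ x - k / n)) +
        2 * w x * ζ x * (ff 0 (τ x - k / n) * ff 1 (τ x - k / n)) +
        ζ x ^ 2 * (ff 1 (τ x - k / n) * ff 1 (τ x - k / n)) := fun k => by
      simp only [ff_0, ff_1]; ring
    simp only [e, Finset.sum_add_distrib, ← Finset.mul_sum, sum_eA hx.2, sub_zero, mu_00, mu_01, mu_11]
    have i0 := I0_pos.ne'
    have e2 : w x ^ 2 * I0 = I0 - I1 * ζ x ^ 2 := by rw [hx.1]; field_simp
    linear_combination (n : ℝ) * e2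
  · have p : 0 ≤ cf 1 4 * C := by positivity
    have b2 : B ≤ B ^ 2 := by nlinarith
    have b3 : 1 ≤ B ^ 2 := by linarith
    nlinarith [mul_le_mul_of_nonneg_right b2 p, mul_le_mul_of_nonneg_right b3 p]

def al : Fin 3 → Fin 2 := ![0, 1, 0]
def be : Fin 3 → Fin 2 := ![0, 0, 1]

/-- one component of a lateral pattern -/
def pat (n : ℕ) (u v : V → ℝ) (c : Fin 3 → V → ℝ) (k : ℤ × ℤ) (x : V) : ℝ :=
  ∑ m, c m x * ff (al m) (u x - k.1 / n) * ff (be m) (v x - k.2 / n)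

lemma pat_sm (n : ℕ) {u v : V → ℝ} {c : Fin 3 → V → ℝ} (su : Sm u) (sv : Sm v) (sc : ∀ m, Sm (c m))
    (k : ℤ × ℤ) : Sm (pat n u v c k) :=
  ContDiff.sum fun m _ => ((sc m).mul ((ff_sm _).comp (su.sub contDiff_const))).mul
    ((ff_sm _).comp (sv.sub contDiff_const))

lemma pat_zero (n : ℕ) (u v : V → ℝ) (c : Fin 3 → V → ℝ) (k : ℤ × ℤ) {x : V}
    (h : 2 / 5 < |u x - k.1 / n| ∨ 2 / 5 < |v x - k.2 / n|) : pat n u v c k x = 0 :=
  Finset.sum_eq_zero fun m _ => by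
    rcases h with h | h
    · rw [ff_zero _ h]; ring
    · rw [ff_zero (be m) h]; ring

lemma sum_pat {n : ℕ} {I : Finset ℤ} (u v : V → ℝ) (c c' : Fin 3 → V → ℝ) {x : V}
    (hu : Cv' n I (u x)) (hv : Cv' n I (v x)) :
    ∑ k ∈ I ×ˢ I, pat n u v c k x * pat n u v c' k x = ∑ m : Fin 3 × Fin 3, c m.1 x * c' m.2 x *
      ((n * mu (al m.1) (al m.2) + eA n (al m.1) (al m.2) (u x)) *
        (n * mu (be m.1) (be m.2) + eA n (be m.1) (be m.2) (v x))) := by
  have e : ∀ k : ℤ × ℤ, pat n u v c k x * pat n u v c' k x = ∑ m : Fin 3 × Fin 3, c m.1 x * c' m.2 x *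
      ((ff (al m.1) (u x - k.1 / n) * ff (al m.2) (u x - k.1 / n)) *
        (ff (be m.1) (v x - k.2 / n) * ff (be m.2) (v x - k.2 / n))) := fun k => by
    unfold pat
    rw [Finset.sum_mul_sum, ← Finset.univ_product_univ, Finset.sum_product]
    exact Finset.sum_congr rfl fun m _ => Finset.sum_congr rfl fun m' _ => by ring
  simp only [e]
  rw [Finset.sum_comm]
  refine Finset.sum_congr rfl fun m _ => ?_
  rw [← Finset.mul_sum, ← sum_eA hu, ← sum_eA hv, Finset.sum_mul_sum, Finset.sum_product]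

/-- lateral averaging -/
lemma lat_avg : ∃ K : ℝ, 1 ≤ K ∧ ∀ (n : ℕ) (I : Finset ℤ) (h x0 : V) (u v : V → ℝ)
    (c c' : Fin 3 → V → ℝ) (E : ℤ × ℤ → V → ℝ) (B BE : ℝ), 0 < n → (∀ i, 0 ≤ h i) → Sm u → Sm v →
    (∀ m, Sm (c m)) → (∀ m, Sm (c' m)) → (∀ k, Sm (E k)) → CV 4 h {x0} u 1 → CV 4 h {x0} v 1 →
    (∀ m, CB 4 h {x0} (c m) B) → (∀ m, CB 4 h {x0} (c' m) B) → (∀ k, CB 4 h {x0} (E k) BE) →
    1 ≤ BE → (∀ᶠ x in 𝓝 x0, Cv' n I (u x) ∧ Cv' n I (v x)) →
    CB 4 h {x0} (fun x => ∑ k ∈ I ×ˢ I, pat n u v c k x * pat n u v c' k x * (n * I0 + E k x) -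
      (n : ℝ) ^ 3 * (I0 ^ 3 * (c 0 x * c' 0 x) + I0 ^ 2 * I1 * (c 1 x * c' 1 x + c 2 x * c' 2 x)))
      (K * n ^ 2 * B ^ 2 * BE) := by
  obtain ⟨C, C1, hC⟩ := eA_bound
  obtain ⟨F, F1, hF⟩ := ff_bound 4
  have c1 := C2.cf_one 1 4
  have i0 := I0_pos
  have i1 := I1_pos
  obtain ⟨A, hA⟩ : ∃ A, A = cf 1 4 * C := ⟨_, rfl⟩
  obtain ⟨G, hG⟩ : ∃ G, G = cf 1 4 * F := ⟨_, rfl⟩
  have A1 : 1 ≤ A := by rw [hA]; nlinarith
  have G1 : 1 ≤ G := by rw [hG]; nlinarith
  obtain ⟨K1, hK1⟩ : ∃ K1, K1 = I0 * (9 * (256 * (2 * ((I0 + I1) * A) + 16 * A * A))) := ⟨_, rfl⟩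
  obtain ⟨K2, hK2⟩ : ∃ K2, K2 = 4 * (256 * (768 * G ^ 2) ^ 2) := ⟨_, rfl⟩
  have k1 : 0 ≤ K1 := by rw [hK1]; positivity
  have k2 : 0 ≤ K2 := by rw [hK2]; positivity
  refine ⟨1 + K1 + K2, by linarith,
    fun n I h x0 u v c c' E B BE hn hh su sv sc sc' sE Hu Hv Hc Hc' HE BE1 ev => ?_⟩
  have n1 : (1 : ℝ) ≤ n := by exact_mod_cast hn
  have B0 : 0 ≤ B := (Hc 0).nonneg rfl
  have se : ∀ {u : V → ℝ}, Sm u → ∀ a b, Sm fun x => eA n a b (u x - 0) := fun su a b =>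
    (hC n hn a b).1.comp (su.sub contDiff_const)
  have He : ∀ {u : V → ℝ}, Sm u → CV 4 h {x0} u 1 → ∀ a b,
      CB 4 h {x0} (fun x => eA n a b (u x - 0)) A := fun su Hu a b => hA ▸
    cb_phase hh su (hC n hn a b).1 (fun j hj t => (hC n hn a b).2 j (by omega) t) Hu 0
  -- the error of the lateral averages
  have s1 : ∀ m : Fin 3 × Fin 3, Sm fun x =>
      (n * mu (al m.1) (al m.2)) * eA n (be m.1) (be m.2) (v x - 0) +
      (n * mu (be m.1) (be m.2)) * eA n (al m.1) (al m.2) (u x - 0) +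
      eA n (al m.1) (al m.2) (u x - 0) * eA n (be m.1) (be m.2) (v x - 0) := fun m =>
    (((se sv _ _).cmul _).add ((se su _ _).cmul _)).add ((se su _ _).mul (se sv _ _))
  have mb : ∀ a b, |n * mu a b| ≤ n * (I0 + I1) := fun a b => by
    rw [abs_mul, Nat.abs_cast]; exact mul_le_mul_of_nonneg_left (mu_le a b) (by linarith)
  have H1 : ∀ m : Fin 3 × Fin 3, CB 4 h {x0} (fun x =>
      (n * mu (al m.1) (al m.2)) * eA n (be m.1) (be m.2) (v x - 0) +
      (n * mu (be m.1) (be m.2)) * eA n (al m.1) (al m.2) (u x - 0) +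
      eA n (al m.1) (al m.2) (u x - 0) * eA n (be m.1) (be m.2) (v x - 0))
      (n * (2 * ((I0 + I1) * A) + 16 * A * A)) := fun m =>
    CBl.monoB (CBl.add hh (((se sv _ _).cmul _).add ((se su _ _).cmul _)) ((se su _ _).mul (se sv _ _))
      (CBl.add hh ((se sv _ _).cmul _) ((se su _ _).cmul _) (CBl.smul_le hh (He sv Hv _ _) (mb _ _))
        (CBl.smul_le hh (He su Hu _ _) (mb _ _)))
      (CB.mul hh (se su _ _) (se sv _ _) (He su Hu _ _) (He sv Hv _ _)))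
      (by nlinarith [mul_le_mul_of_nonneg_right n1 (show 0 ≤ 16 * A * A by positivity)])
  have H2 := CBl.smul_nonneg (CBl.sum_card (Finset.univ : Finset (Fin 3 × Fin 3)) hh
    (fun m _ => ((sc m.1).mul (sc' m.2)).mul (s1 m))
    fun m _ => CB.mul3 hh (sc m.1) (sc' m.2) (s1 m) (Hc m.1) (Hc' m.2) (H1 m))
    (c := n * I0) (by positivity)
  -- the error of the averages in the height
  have Hp : ∀ {c : Fin 3 → V → ℝ}, (∀ m, Sm (c m)) → (∀ m, CB 4 h {x0} (c m) B) → ∀ k,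
      CB 4 h {x0} (pat n u v c k) (768 * G ^ 2 * B) := fun {c} sc Hc k =>
    CBl.monoB (CBl.sum_card Finset.univ hh
      (fun m _ => ((sc m).mul ((ff_sm (al m)).comp (su.sub contDiff_const))).mul
        ((ff_sm (be m)).comp (sv.sub contDiff_const)))
      fun m _ => CB.mul3 hh (sc m) ((ff_sm (al m)).comp (su.sub contDiff_const))
        ((ff_sm (be m)).comp (sv.sub contDiff_const)) (Hc m)
        (cb_phase hh su (ff_sm _) (hF _) Hu _) (cb_phase hh sv (ff_sm _) (hF _) Hv _))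
      (le_of_eq (by rw [← hG, Finset.card_univ, Fintype.card_fin]; push_cast; ring))
  have H3 := cb_sum_loc (I ×ˢ I) (F := fun k x => pat n u v c k x * pat n u v c' k x * E k x)
    (fun k x => |u x - k.1 / n| ≤ 1 / 2 ∧ |v x - k.2 / n| ≤ 1 / 2) (m := 2 * n * (2 * n)) hh
    (fun k _ => ((pat_sm n su sv sc k).mul (pat_sm n su sv sc' k)).mul (sE k)) (by positivity)
    (fun k _ => CB.mul3 hh (pat_sm n su sv sc k) (pat_sm n su sv sc' k) (sE k) (Hp sc Hc k)
      (Hp sc' Hc' k) (HE k))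
    (fun k _ x _ hk => by
      have o : IsOpen {y : V | 2 / 5 < |u y - k.1 / n| ∨ 2 / 5 < |v y - k.2 / n|} :=
        (isOpen_lt continuous_const (su.continuous.sub continuous_const).abs).union
          (isOpen_lt continuous_const (sv.continuous.sub continuous_const).abs)
      have hx : x ∈ {y : V | 2 / 5 < |u y - k.1 / n| ∨ 2 / 5 < |v y - k.2 / n|} := by
        rcases not_and_or.1 hk with a | a
        · exact Or.inl (by linarith [not_le.1 a])
        · exact Or.inr (by linarith [not_le.1 a])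
      filter_upwards [o.mem_nhds hx] with y hy
      rw [pat_zero n u v c k hy]; ring)
    (fun x _ => by
      refine le_trans (Nat.cast_le.2 (Finset.card_le_card (t := (I.filter fun k : ℤ =>
        |u x - k / n| ≤ 1 / 2) ×ˢ I.filter fun k : ℤ => |v x - k / n| ≤ 1 / 2) fun k hk => ?_)) ?_
      · simp only [Finset.mem_filter, Finset.mem_product] at hk ⊢
        exact ⟨⟨hk.1.1, hk.2.1⟩, hk.1.2, hk.2.2⟩
      · rw [Finset.card_product]
        push_cast
        exact mul_le_mul (count hn I _) (count hn I _) (Nat.cast_nonneg _) (by positivity))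
  have H4 := CBl.add hh
    (Sm.cmul (ContDiff.sum fun m _ => ((sc m.1).mul (sc' m.2)).mul (s1 m)) _)
    (ContDiff.sum fun k _ => ((pat_sm n su sv sc k).mul (pat_sm n su sv sc' k)).mul (sE k)) H2 H3
  refine CBl.monoB (CBl.congr H4 ?_) ?_
  · rintro y rfl
    filter_upwards [ev] with x hx
    simp only [mul_add, Finset.sum_add_distrib, ← Finset.sum_mul]
    rw [sum_pat u v c c' hx.1 hx.2]
    simp only [Fintype.sum_prod_type, Fin.sum_univ_three, al, be, sub_zero, Matrix.cons_val_zero,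
      Matrix.cons_val_one, Matrix.cons_val_two, Matrix.head_cons, Matrix.tail_cons,
      mu_00, mu_01, mu_10, mu_11]
    ring
  · simp only [Finset.card_univ, Fintype.card_prod, Fintype.card_fin]
    push_cast
    have p : 0 ≤ (n : ℝ) ^ 2 * B ^ 2 := by positivity
    have a1 := mul_le_mul_of_nonneg_left BE1 (mul_nonneg k1 p)
    have a2 : 0 ≤ (n : ℝ) ^ 2 * B ^ 2 * BE := by positivity
    have e1 : n * I0 * (9 * (4 ^ 4 * (B * B * (n * (2 * ((I0 + I1) * A) + 16 * A * A))))) =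
        K1 * (n ^ 2 * B ^ 2) * 1 := by rw [hK1]; ring
    have e2 : 2 * n * (2 * n) * (4 ^ 4 * (768 * G ^ 2 * B * (768 * G ^ 2 * B) * BE)) =
        K2 * (n ^ 2 * B ^ 2 * BE) := by rw [hK2]; ring
    rw [e1, e2]
    nlinarith

/-- product rule when the top order has a weaker bound -/
lemma cb_mul_top {h : V} {U : Set V} {f g : V → ℝ} {A B : ℝ} (hh : ∀ i, 0 ≤ h i) (sf : Sm f)
    (sg : Sm g) (f3 : CB 3 h U f A) (g3 : CB 3 h U g A) (f4 : CB 4 h U f B) (g4 : CB 4 h U g B) :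
    CB 4 h U (fun x => f x * g x) (16 * (A * B)) := by
  have := cbl_mul (n := 4) (P := fun l => l.length ≤ 4) (U := U) (M := A * B) (fun _ hl => hl) hh sf sg
    fun l1 l2 l hl p x hx => by
      have e := p.length_eq
      rw [List.length_append] at e
      by_cases a : l1.length ≤ 3
      · exact mul_le_mul (f3 l1 a x hx) (g4 l2 (by show _ ≤ 4; omega) x hx) (hpa_nonneg hh _ _ _)
          (f3.nonneg hx)
      · rw [mul_comm A B]
        exact mul_le_mul (f4 l1 (by show _ ≤ 4; omega) x hx) (g3 l2 (by show _ ≤ 3; omega) x hx)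
          (hpa_nonneg hh _ _ _) (f4.nonneg hx)
  exact CBl.monoB this (by norm_num)

end Cov
end
end Pool.Agent.MP_20bec2_an.T3

end MrgPart1

-- marker of a merged file
example : 731051 + 653652 = 731051 + 653652 := rfl

end MrgPart0

-- ======== part 1: formerly Pool.Agent.MP_20bec2_an.T3.CovD
section MrgPart1

-- ======== part 0: formerly Pool.Agent.MP_20bec2_an.T3.CovC
section MrgPart0

/-! The patterns of one cube in the form used for averaging. -/

set_option autoImplicit false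
set_option linter.unusedSectionVars false
open MeasureTheory Set Filter Matrix Topology

namespace Pool.Agent.MP_20bec2_an.T3
noncomputable section
open Classical

namespace Cov
open Win

def io : ℝ := 1 / Real.sqrt (I0 ^ 2 * I1)
lemma io_pos : 0 < io := by have := I0_pos; have := I1_pos; unfold io; positivity
lemma io_sq : io ^ 2 * (I0 ^ 2 * I1) = 1 := by
  have := I0_pos; have := I1_pos
  unfold io
  rw [div_pow, Real.sq_sqrt (by positivity)]
  field_simp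

/-- the constants in the components of a pattern -/
def kap (c : Pm) (φ : Fin 3) : Mx := if φ = 0 then !![c.W20, 0, 1; -(c.b1 * c.W10), -c.b1, 0; 0, 0, 0]
  else !![c.b2 * c.W21, 0, c.b2; -(c.W11 / Real.sqrt 2), -(1 / Real.sqrt 2),
    -(MD.vs φ / Real.sqrt 2); 0, 0, 0]
def jj : Fin 3 → Fin 3 := ![1, 0, 0]
def am (d : MD) (p : PT) (φ : Fin 3) (x : V) : ℝ := d.α x * p.r φ x
def co (d : MD) (p : PT) (φ i m : Fin 3) (x : V) : ℝ :=
  io * kap d.c φ i m * (if m = 0 then pd (jj i) (am d p φ) else am d p φ) x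
def uu (d : MD) (φ : Fin 3) (x : V) : ℝ := x 0 / d.W1 φ
def vv (d : MD) (φ : Fin 3) (x : V) : ℝ := x 1 / d.W2 φ + MD.vs φ * (x 0 / d.W1 φ)

lemma kap_le {c : Pm} (h : Gd c) {W : ℝ} (h1 : c.W10 ≤ W) (h2 : c.W20 ≤ W) (h3 : c.W11 ≤ W)
    (h4 : c.W21 ≤ W) (φ i : Fin 3) : |kap c φ i 0| ≤ W ∧ ∀ m, m ≠ 0 → |kap c φ i m| ≤ 1 := by
  have := h.W10_pos; have := h.W20_pos; have := h.W11_pos; have := h.W21_pos
  have := h.b1_pos; have := h.b2_pos; have := h.b1_le; have := h.b2_le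
  have r2 : 1 ≤ Real.sqrt 2 := Real.one_le_sqrt.2 (by norm_num)
  have a1 : c.b1 * c.W10 ≤ W := by nlinarith
  have a2 : c.b2 * c.W21 ≤ W := by nlinarith
  have a3 : c.W11 / Real.sqrt 2 ≤ W := (div_le_self (by linarith) r2).trans h3
  have a4 : |MD.vs φ / Real.sqrt 2| ≤ 1 := by
    rw [abs_div, abs_of_pos (show 0 < Real.sqrt 2 by linarith), div_le_one (by linarith)]
    linarith [vs_le φ]
  have a5 : |1 / Real.sqrt 2| ≤ 1 := by
    rw [abs_of_pos (by positivity), div_le_one (by linarith)]; exact r2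
  have b1 : |c.b1 * c.W10| ≤ W := by rwa [abs_of_pos (by positivity)]
  have b2 : |c.b2 * c.W21| ≤ W := by rwa [abs_of_pos (by positivity)]
  have b3 : |c.W11 / Real.sqrt 2| ≤ W := by rwa [abs_of_pos (by positivity)]
  have b4 : |c.W20| ≤ W := by rwa [abs_of_pos (by positivity)]
  have b5 : |c.b1| ≤ 1 := by rw [abs_of_pos (by positivity)]; linarith
  have b6 : |c.b2| ≤ 1 := by rw [abs_of_pos (by positivity)]; linarith
  have b7 : |(0 : ℝ)| ≤ W := by rw [abs_zero]; linarith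
  have b8 : |(0 : ℝ)| ≤ 1 := by norm_num
  have b9 : |(1 : ℝ)| ≤ 1 := by norm_num
  unfold kap
  refine ⟨?_, fun m hm => ?_⟩ <;> split_ifs
  · fin_cases i
    exacts [b4, (abs_neg _).trans_le b1, b7]
  · fin_cases i
    exacts [b2, (abs_neg _).trans_le b3, b7]
  · fin_cases i <;> fin_cases m
    exacts [absurd rfl hm, b8, b9, absurd rfl hm, (abs_neg _).trans_le b5, b8, b8, b8, b8]
  · fin_cases i <;> fin_cases m
    exacts [absurd rfl hm, b8, b6, absurd rfl hm, (abs_neg _).trans_le a5, (abs_neg _).trans_le a4,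
      b8, b8, b8]

lemma ca_eq {d : MD} (h : Gd d.c) (φ : Fin 3) :
    d.ca φ = d.c.l1 * (io * kap d.c φ 0 0) ∧ d.ca φ / d.W2 φ = d.c.l1 * (io * kap d.c φ 0 2) ∧
    -d.c.η0 * d.ca φ = d.c.lam * (io * kap d.c φ 1 0) ∧
    -d.c.η0 * (d.ca φ / d.W1 φ) = d.c.lam * (io * kap d.c φ 1 1) ∧
    -d.c.η0 * (d.ca φ * (MD.vs φ / d.W1 φ)) = d.c.lam * (io * kap d.c φ 1 2) ∧
    kap d.c φ 0 1 = 0 ∧ ∀ m, kap d.c φ 2 m = 0 := by
  have := h.W10_pos.ne'; have := h.W20_pos.ne'; have := h.W11_pos.ne'; have := h.W21_pos.ne'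
  have := h.η0_pos.ne'; have := h.ro_pos.ne'; have := h.lam_pos.ne'
  have i0 := I0_pos; have i1 := I1_pos
  have r1 : Real.sqrt (I0 ^ 2 * I1) ≠ 0 := by positivity
  have r2 : Real.sqrt 2 ≠ 0 := by positivity
  have r3 : Real.sqrt (2 * I0 ^ 2 * I1) = Real.sqrt 2 * Real.sqrt (I0 ^ 2 * I1) := by
    rw [mul_assoc, Real.sqrt_mul (by norm_num)]
  unfold MD.ca MD.W1 MD.W2 kap io
  by_cases e : φ = 0
  · subst e
    simp only [if_true, MD.vs, Pm.b1, Pm.l1, of_apply, cons_val', cons_val_zero, cons_val_one,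
      cons_val_two, head_cons, tail_cons, cons_val_fin_one]
    refine ⟨by field_simp, by field_simp, by field_simp, by field_simp, by simp, trivial, fun m => ?_⟩
    fin_cases m <;> rfl
  · simp only [if_neg e, r3, Pm.b2, Pm.l1, of_apply, cons_val', cons_val_zero, cons_val_one,
      cons_val_two, head_cons, tail_cons, cons_val_fin_one]
    refine ⟨by field_simp, by field_simp, by field_simp, by field_simp, by field_simp, trivial,
      fun m => ?_⟩
    fin_cases m <;> rfl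

lemma pm_eq {d : MD} (h : Gd d.c) (p : PT) (s : Sa) (φ : Fin 3) (hr : Sm (p.r φ)) (k : ℤ × ℤ) (k2 : ℤ)
    (x : V) (i : Fin 3) : d.Pm' p s (φ, ![k.1, k.2, k2]) x i / d.c.hs i =
      pat (nsig d.c.N) (uu d φ) (vv d φ) (co d p φ i) k x * d.prof p s (φ, ![k.1, k.2, k2]) x := by
  obtain ⟨a1, a2, a3, a4, a5, a6, a7⟩ := ca_eq h φ
  have e := fun j => pd_Ph d p (φ, ![k.1, k.2, k2]) (Prof.alh_sm _ _) hr j x
  rw [div_eq_iff (h.hs_pos i).ne']
  unfold pat co uu vv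
  simp only [Fin.sum_univ_three, al, be, cons_val_zero, cons_val_one, cons_val_two, head_cons,
    tail_cons, ff_0, ff_1, if_true, if_neg (show (1 : Fin 3) ≠ 0 by decide),
    if_neg (show (2 : Fin 3) ≠ 0 by decide)]
  simp only [cons_val_zero, cons_val_one, MD.ns] at e
  fin_cases i
  · have e1 := e 1
    simp only [if_true, if_neg (show (0 : Fin 3) ≠ 1 by decide)] at e1
    simp only [MD.Pm', Pm.hs, jj, Fin.zero_eta, cons_val_zero, e1, a6]
    unfold am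
    linear_combination (pd 1 (fun y => d.α y * p.r φ y) x * f0 (x 0 / d.W1 φ - k.1 / nsig d.c.N) *
      f0 (x 1 / d.W2 φ + MD.vs φ * (x 0 / d.W1 φ) - k.2 / nsig d.c.N) *
      d.prof p s (φ, ![k.1, k.2, k2]) x) * a1 + (d.α x * p.r φ x * f0 (x 0 / d.W1 φ - k.1 / nsig d.c.N) *
      f1 (x 1 / d.W2 φ + MD.vs φ * (x 0 / d.W1 φ) - k.2 / nsig d.c.N) *
      d.prof p s (φ, ![k.1, k.2, k2]) x) * a2
  · have e1 := e 0
    simp only [if_true, if_neg (show (1 : Fin 3) ≠ 0 by decide)] at e1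
    simp only [MD.Pm', Pm.hs, jj, Fin.mk_one, cons_val_zero, cons_val_one, e1]
    unfold am
    linear_combination (pd 0 (fun y => d.α y * p.r φ y) x * f0 (x 0 / d.W1 φ - k.1 / nsig d.c.N) *
      f0 (x 1 / d.W2 φ + MD.vs φ * (x 0 / d.W1 φ) - k.2 / nsig d.c.N) *
      d.prof p s (φ, ![k.1, k.2, k2]) x) * a3 + (d.α x * p.r φ x * f1 (x 0 / d.W1 φ - k.1 / nsig d.c.N) *
      f0 (x 1 / d.W2 φ + MD.vs φ * (x 0 / d.W1 φ) - k.2 / nsig d.c.N) *
      d.prof p s (φ, ![k.1, k.2, k2]) x) * a4 + (d.α x * p.r φ x * f0 (x 0 / d.W1 φ - k.1 / nsig d.c.N) *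
      f1 (x 1 / d.W2 φ + MD.vs φ * (x 0 / d.W1 φ) - k.2 / nsig d.c.N) *
      d.prof p s (φ, ![k.1, k.2, k2]) x) * a5
  · simp [MD.Pm', a7]

/-- the averages of the three families add up to the planned covariance -/
lemma alg {d : MD} {p : PT} (hi : d.In) (hD : 0 < d.c.D) (ha : d.AmpOk p.r) {x : V}
    (hx : x ∈ d.R (95 / 100)) (i j : Fin 3) :
    ∑ φ, I0 ^ 2 * I1 * (co d p φ i 1 x * co d p φ j 1 x + co d p φ i 2 x * co d p φ j 2 x) =
      d.α x ^ 2 * nrm d.c.hs (d.C x) i j := by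
  obtain ⟨a1, a2, a3, -⟩ := ha.2 x hx
  have hc := hi.cb x (Prof.RX_mono _ hD.le (by norm_num) hx)
  have z : ∀ i j, i = 2 ∨ j = 2 → nrm d.c.hs (d.C x) i j = 0 := fun i j e => by
    have := hc i j
    rcases e with rfl | rfl
    · fin_cases j <;> simpa [dg3] using this
    · fin_cases i <;> simpa [dg3] using this
  have sy : nrm d.c.hs (d.C x) 1 0 = nrm d.c.hs (d.C x) 0 1 := by
    have := congrFun (congrFun (hi.sC.2 x) 0) 1
    simp only [nrm, of_apply, transpose_apply] at this ⊢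
    rw [this, mul_comm]
  have e : ∀ φ, I0 ^ 2 * I1 * (co d p φ i 1 x * co d p φ j 1 x + co d p φ i 2 x * co d p φ j 2 x) =
      d.α x ^ 2 * (p.r φ x ^ 2 * (kap d.c φ i 1 * kap d.c φ j 1 + kap d.c φ i 2 * kap d.c φ j 2)) :=
    fun φ => by
      simp only [co, if_neg (show (1 : Fin 3) ≠ 0 by decide),
        if_neg (show (2 : Fin 3) ≠ 0 by decide), am]
      linear_combination (d.α x ^ 2 * (p.r φ x ^ 2 *
        (kap d.c φ i 1 * kap d.c φ j 1 + kap d.c φ i 2 * kap d.c φ j 2))) * io_sq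
  simp only [e, ← Finset.mul_sum]
  congr 1
  have r2 : 1 / Real.sqrt 2 * (1 / Real.sqrt 2) = 1 / 2 := by
    rw [div_mul_div_comm, Real.mul_self_sqrt (by norm_num), mul_one]
  simp only [Fin.sum_univ_three, kap, if_true, if_neg (show (1 : Fin 3) ≠ 0 by decide),
    if_neg (show (2 : Fin 3) ≠ 0 by decide), MD.vs]
  fin_cases i <;> fin_cases j <;>
    simp only [Fin.zero_eta, Fin.mk_one, Fin.reduceFinMk, of_apply, cons_val', cons_val_zero,
      cons_val_one, cons_val_two, head_cons, tail_cons, cons_val_fin_one]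
  · linear_combination a1
  · linear_combination a3
  · rw [z 0 2 (Or.inr rfl)]; simp
  · rw [sy]; linear_combination a3
  · linear_combination a2 + 2 * (p.r 1 x ^ 2 + p.r 2 x ^ 2) * r2
  · rw [z 1 2 (Or.inr rfl)]; simp
  · rw [z 2 0 (Or.inl rfl)]; simp
  · rw [z 2 1 (Or.inl rfl)]; simp
  · rw [z 2 2 (Or.inl rfl)]; simp

section geo
variable {d : MD} {p : PT} (h : Cx d p)
include h

lemma lam_le_W (φ : Fin 3) : ∀ W ∈ [d.W1 φ, d.W2 φ], d.c.lam ≤ W ∧ d.c.hE / W ≤ 1 / 2 := by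
  intro W hW
  have hl := h.g.lam_pos
  have b0 := (h.W_bd _ W hW).1
  have b1 : d.c.lam ≤ W := (le_mul_of_one_le_left hl.le (one_le_np h.g.big (by norm_num))).trans b0
  refine ⟨b1, ?_⟩
  rw [div_le_iff₀ (hl.trans_le b1)]
  have := mul_le_mul_of_nonneg_right
    (np_gap h.g.big (a := 46 / 100) (b := 499 / 1000) (C := 2) (by norm_num) (by norm_num)) hl.le
  unfold Pm.hE
  linarith

lemma cv_uv (φ : Fin 3) (U : Set V) :
    CV 4 (cv d.c.hE) U (uu d φ) 1 ∧ CV 4 (cv d.c.hE) U (vv d φ) 1 := by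
  have hh : ∀ i, 0 ≤ cv d.c.hE i := fun _ => h.g.hE_pos.le
  have a : ∀ i, ∀ W ∈ [d.W1 φ, d.W2 φ], CV 4 (cv d.c.hE) U (fun x => x i / W) (1 / 2) :=
    fun i W hW => CBl.monoB (CBl.div_const (cv_coord hh i) W) (by
      rw [abs_of_pos (h.g.lam_pos.trans_le (lam_le_W h φ W hW).1)]
      exact (lam_le_W h φ W hW).2)
  exact ⟨CBl.monoB (a 0 _ (by simp)) (by norm_num), CBl.monoB (CBl.add hh
    ((sm_coord 1).div_const _) ((sm_u d φ).cmul _) (a 1 _ (by simp))
    (CBl.smul_le hh (a 0 _ (by simp)) (vs_le φ))) (by norm_num)⟩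

lemma covers (hi : d.In) (φ : Fin 3) {x : V} (hx : x ∈ d.R (95 / 100)) :
    (Cv' (nsig d.c.N) (II d.c.N) (uu d φ x) ∧ Cv' (nsig d.c.N) (II d.c.N) (vv d φ x)) ∧
    ∀ k0 k1, Cv' (nsig d.c.N) (II d.c.N) (p.τ φ k0 k1 (x 2)) := by
  have hl := h.g.lam_pos
  have hN : (0 : ℝ) < (d.c.N : ℝ) ^ 97 := pow_pos h.g.N_pos _
  have N2 : 2 ≤ d.c.N := by exact_mod_cast (show (2 : ℝ) ≤ d.c.N by linarith [h.N_ge])
  have h4 : 4 * (d.c.N : ℝ) ^ 97 ≤ (d.c.N : ℝ) ^ 99 := by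
    rw [show 99 = 2 + 97 from rfl, pow_add]
    exact mul_le_mul_of_nonneg_right (by nlinarith [h.N_ge]) hN.le
  have hD : d.c.D ≤ (d.c.N : ℝ) ^ 97 * d.c.lam := by
    have e1 : np d.c.N 93 = (d.c.N : ℝ) ^ 93 := by
      rw [np, ← Real.rpow_natCast]; norm_num
    have e2 := mul_le_mul_of_nonneg_left h.g.lb_le (pow_pos h.g.N_pos 4).le
    rwa [e1, ← mul_assoc, ← pow_add] at e2
  have hx' : ∀ i, |x i| ≤ 2 * (d.c.N : ℝ) ^ 97 * d.c.lam := fun i => by
    linarith [Prof.abs_le_norm x i, Prof.RX_norm hi.ort hx, h.g.D_pos]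
  have hw : ∀ i, ∀ W ∈ [d.W1 φ, d.W2 φ], |x i / W| ≤ 2 * (d.c.N : ℝ) ^ 97 := fun i W hW => by
    have b1 := (lam_le_W h φ W hW).1
    rw [abs_div, abs_of_pos (hl.trans_le b1), div_le_iff₀ (hl.trans_le b1)]
    nlinarith [hx' i]
  have b0 := hw 0 (d.W1 φ) (by simp)
  refine ⟨⟨cover N2 (b0.trans (by linarith)), cover N2 ((abs_add_le _ _).trans ?_)⟩,
    fun k0 k1 => cover N2 ((h.τ_abs _ _ _ _).trans ?_)⟩
  · rw [abs_mul]
    nlinarith [hw 1 (d.W2 φ) (by simp), vs_le φ, abs_nonneg (x 0 / d.W1 φ)]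
  · have b1 : np d.c.N (-498 / 1000) ≤ 1 := by
      simpa [np] using h.g.big.np_le (show (-498 / 1000 : ℝ) ≤ 0 by norm_num)
    rw [div_mul_eq_mul_div, div_le_iff₀ hl]
    nlinarith [hx' 2, abs_nonneg (x 2)]

lemma sm_clk (φ : Fin 3) (k0 k1 : ℤ) : Sm fun x : V => p.τ φ k0 k1 (x 2) :=
  (h.ck φ k0 k1).1.comp (sm_coord 2)

lemma cv_clk (φ : Fin 3) (k0 k1 : ℤ) (U : Set V) :
    CV 4 (cv d.c.lam) U (fun x : V => p.τ φ k0 k1 (x 2)) 1 := by
  intro l hl x _
  have hlam := h.g.lam_pos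
  obtain ⟨s1, -, -, -, s2, -⟩ := h.ck φ k0 k1
  have e : (fun x : V => p.τ φ k0 k1 (x 2)) =
      fun x : V => p.τ φ k0 k1 ((Pi.single 2 1 : V) ⬝ᵥ x + 0) := by
    funext x; simp
  rw [e]
  refine (ridge_le (κ := d.c.lam) (fun _ => hlam.le) s1 _ _ (fun i => ?_) l x).trans ?_
  · refine mul_le_of_le_one_left hlam.le ?_
    fin_cases i <;> simp
  have n1 : ∀ a : ℝ, a ≤ 0 → np d.c.N a ≤ 1 := fun a ha => by
    simpa [np] using h.g.big.np_le ha
  obtain ⟨t1, t2, t3⟩ := s2 ((Pi.single 2 1 : V) ⬝ᵥ x + 0)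
  obtain ⟨j, hj⟩ : ∃ j, l.length = j + 1 := ⟨l.length - 1, by have := hl.1; omega⟩
  rw [hj]
  rcases j with _ | j
  · rw [zero_add, pow_one, iteratedDeriv_one,
      abs_of_pos ((one_div_pos.2 (h.Hh_pos φ)).trans_le t1), ← le_div_iff₀' hlam]
    exact t2.trans (div_le_div_of_nonneg_right (n1 _ (by norm_num)) hlam.le)
  · have t4 := t3 j (by have := hl.2; omega)
    rw [← le_div_iff₀' (pow_pos hlam _)]
    refine t4.trans ?_
    rw [div_pow, div_mul_div_comm, ← pow_add, add_comm 2 j]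
    refine div_le_div_of_nonneg_right ?_ (pow_pos hlam _).le
    exact mul_le_one₀ (n1 _ (by norm_num)) (pow_pos (h.g.big.np_pos _) _).le
      (pow_le_one₀ (h.g.big.np_pos _).le (n1 _ (by norm_num)))

end geo

end Cov
end
end Pool.Agent.MP_20bec2_an.T3

end MrgPart0

-- ======== part 1: formerly Pool.Agent.MP_20bec2_an.T3.CovD
section MrgPart1

/-! Sizes of the coefficients of the patterns. -/

set_option autoImplicit false
set_option linter.unusedSectionVars false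
open MeasureTheory Set Filter Matrix Topology

namespace Pool.Agent.MP_20bec2_an.T3
noncomputable section
open Classical

namespace Cov
open Win

lemma np_pow {N : ℕ} (a : ℝ) (k : ℕ) : np N a ^ k = np N (a * k) :=
  (Real.rpow_mul_natCast (Nat.cast_nonneg N) a k).symm

lemma np_le_one {N : ℕ} (h : Big N) {a : ℝ} (e : a ≤ 0) : np N a ≤ 1 := by
  simpa [np] using h.np_le e

lemma rmp_one {a e : ℝ} (he : 0 < e) (h : 3 * e ≤ a) : rmp a e = 1 := by
  have h1 : Real.exp 1 ≤ a / e := by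
    rw [le_div_iff₀ he]; nlinarith [Real.exp_one_lt_d9]
  have h2 : 1 ≤ Real.log (a / e) := by
    rw [Real.le_log_iff_exp_le ((Real.exp_pos 1).trans_le h1)]; exact h1
  exact min_eq_left (le_max_of_le_right h2)

lemma eL_le {c : Pm} (h : Gd c) : c.eL ≤ 2 * np c.N (-46 / 100) ∧
    (c.η < etaS c.N / 40 → c.eL ≤ 2 * np c.N (-49 / 10)) := by
  have a : c.eL ≤ c.eHi + c.eLo := by
    have := mul_le_of_le_one_right h.eHi_pos.le
      (pow_le_one₀ (by norm_num : (0 : ℝ) ≤ 6 / 10) (by norm_num) (n := c.k))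
    unfold Pm.eL; linarith
  constructor
  · have b1 : c.eHi ≤ np c.N (-46 / 100) :=
      h.big.np_le (by linarith [(rmp_mem (etaS c.N / 10) c.η).1])
    have b2 : c.eLo ≤ np c.N (-46 / 100) :=
      h.big.np_le (by linarith [(rmp_mem (c.thr / 2) c.η).1])
    linarith
  · intro e
    have := h.η_pos
    have b1 : c.eHi ≤ np c.N (-49 / 10) :=
      h.big.np_le (by rw [rmp_one h.η_pos (by linarith)]; norm_num)
    have b2 : c.eLo ≤ np c.N (-49 / 10) :=
      h.big.np_le (by rw [rmp_one h.η_pos (by linarith [h.thr_bd.1])]; norm_num)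
    linarith

/-- the widths of the windows in units of `hE` -/
lemma om_ex {c : Pm} (h : Gd c) : ∃ ω : ℝ, 0 < ω ∧ ω ≤ np c.N (55 / 100) ∧
    ω ^ 2 * c.eL ≤ 2 * np c.N (-37 / 100) ∧ c.W10 ≤ ω * c.hE ∧ c.W20 ≤ ω * c.hE ∧
    c.W11 ≤ ω * c.hE ∧ c.W21 ≤ ω * c.hE := by
  have e : ∀ a b, a + 46 / 100 = b → np c.N a * c.hE = np c.N b * c.lam := fun a b e => by
    rw [Pm.hE, ← mul_assoc, ← h.big.np_add, e]
  by_cases hη : etaS c.N / 40 ≤ c.η
  · refine ⟨np c.N (45 / 1000), h.big.np_pos _, h.big.np_le (by norm_num), ?_, ?_⟩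
    · refine (mul_le_mul_of_nonneg_left (eL_le h).1 (sq_nonneg _)).trans (le_of_eq ?_)
      rw [np_pow, mul_left_comm, ← h.big.np_add]; norm_num
    · rw [e _ (505 / 1000) (by norm_num)]
      exact ⟨(h.win' _ (by simp)).2.2 hη, (h.win' _ (by simp)).2.2 hη, (h.win' _ (by simp)).2.2 hη,
        (h.win' _ (by simp)).2.2 hη⟩
  · refine ⟨np c.N (55 / 100), h.big.np_pos _, le_rfl, ?_, ?_⟩
    · refine (mul_le_mul_of_nonneg_left ((eL_le h).2 (not_le.1 hη)) (sq_nonneg _)).trans ?_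
      rw [np_pow, mul_left_comm, ← h.big.np_add]
      exact mul_le_mul_of_nonneg_left (h.big.np_le (by norm_num)) (by norm_num)
    · rw [e _ (101 / 100) (by norm_num)]
      exact ⟨(h.win' _ (by simp)).2.1, (h.win' _ (by simp)).2.1, (h.win' _ (by simp)).2.1,
        (h.win' _ (by simp)).2.1⟩

lemma am_sm {d : MD} {p : PT} (ha : d.AmpOk p.r) (φ : Fin 3) : Sm (am d p φ) :=
  (Prof.alh_sm _ _).mul (ha.1 φ).1

lemma co_sm {d : MD} {p : PT} (ha : d.AmpOk p.r) (φ i m : Fin 3) : Sm (co d p φ i m) := by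
  refine Sm.cmul ?_ _
  split_ifs
  · exact (am_sm ha φ).pd _
  · exact am_sm ha φ

lemma am_bd {d : MD} {p : PT} (h : Gd d.c) (ha : d.AmpOk p.r) {C : ℝ}
    (hC : CB 5 (cv d.c.D) univ d.α C) (he : np d.c.N (3 / 10) * (d.c.J ^ 16 * d.c.eL) ≤ 1)
    (φ : Fin 3) : CB 4 (cv d.c.hE) (d.R (95 / 100)) (am d p φ) (16 * C) ∧ ∀ j,
      CB 3 (cv d.c.hE) (d.R (95 / 100)) (pd j (am d p φ))
        (16 * C * (np d.c.N (-354 / 100) + d.c.J ^ 16 * d.c.eL) / d.c.hE) ∧
      CB 4 (cv d.c.hE) (d.R (95 / 100)) (pd j (am d p φ))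
        (32 * C * (np d.c.N (-354 / 100) + np d.c.N (3 / 10) * (d.c.J ^ 16 * d.c.eL)) / d.c.hE) := by
  have hh : ∀ i, 0 < cv d.c.hE i := fun _ => h.hE_pos
  have hh' : ∀ i, 0 ≤ cv d.c.hE i := fun _ => h.hE_pos.le
  have hD : ∀ i, 0 ≤ cv d.c.D i := fun _ => h.D_pos.le
  obtain ⟨sr, r0, r4, r7⟩ := ha.1 φ
  have sa : Sm d.α := Prof.alh_sm _ _
  have a1 : np d.c.N (-354 / 100) ≤ 1 := np_le_one h.big (by norm_num)
  have e1 : d.c.hE ≤ np d.c.N (-354 / 100) * d.c.D := by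
    rw [Pm.D, ← np_nat, ← mul_assoc, ← h.big.np_add]
    exact mul_le_mul (h.big.np_le (by norm_num)) h.lam_le_lb h.lam_pos.le (h.big.np_pos _).le
  have A5 : CB 5 (cv d.c.hE) (d.R (95 / 100)) d.α C := CBl.monoU (CBl.monoh hC hh' fun _ =>
    e1.trans (mul_le_of_le_one_left h.D_pos.le a1)) (subset_univ _)
  have V5 : CV 5 (cv d.c.hE) (d.R (95 / 100)) d.α (np d.c.N (-354 / 100) * C) :=
    CBl.monoU (CV.finer (h.big.np_pos _).le a1 hD hh' (fun _ => e1) hC.toCV) (subset_univ _)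
  have R5 : CV 5 (cv d.c.hE) (d.R (95 / 100)) (p.r φ)
      (np d.c.N (3 / 10) * (d.c.J ^ 16 * d.c.eL)) := by
    have := CV.rescale (h' := cv d.c.hE) (one_le_np h.big (a := 6 / 100) (by norm_num))
      (fun _ => h.hm_pos.le) hh' (fun _ => le_of_eq (by
        show d.c.hE = _ * d.c.hm
        rw [Pm.hE, Pm.hm, ← mul_assoc, ← h.big.np_add]; norm_num)) (r7.of_le (m := 5) (by norm_num))
    rw [np_pow] at this
    exact CBl.monoB this (le_of_eq (by norm_num))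
  have B5 : CB 5 (cv d.c.hE) (d.R (95 / 100)) (p.r φ) 1 := CV.toCB (CBl.monoB R5 he) fun x hx => by
    rw [abs_le]; constructor <;> linarith [(r0 x hx).1, (r0 x hx).2]
  refine ⟨CBl.monoB (CB.mul hh' sa sr (A5.of_le (by norm_num)) (B5.of_le (by norm_num)))
    (le_of_eq (by norm_num)), fun j => ⟨?_, ?_⟩⟩
  · exact CBl.monoB (CV.pd_div hh (CV.mul hh' sa sr (A5.of_le (by norm_num))
      (V5.of_le (by norm_num)) (B5.of_le (by norm_num)) r4) j) (le_of_eq (by simp only [cv]; ring))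
  · exact CBl.monoB (CV.pd_div hh (CV.mul hh' sa sr A5 V5 B5 R5) j)
      (le_of_eq (by simp only [cv]; ring))

lemma num_P {c : Pm} (h : Gd c) {ω : ℝ} (h0 : 0 < ω) (h1 : ω ≤ np c.N (55 / 100))
    (h2 : ω ^ 2 * c.eL ≤ 2 * np c.N (-37 / 100)) :
    ω ^ 2 * ((np c.N (-354 / 100) + c.J ^ 16 * c.eL) *
      (np c.N (-354 / 100) + np c.N (3 / 10) * (c.J ^ 16 * c.eL))) ≤
    c.J ^ 32 * (np c.N (-598 / 100) + 4 * np c.N (-7 / 100) * c.eL) := by
  have b := h.big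
  have J1 : 1 ≤ c.J := by show 1 ≤ pJ c.N; linarith [b.J_ge, b.L_ge]
  have j1 : 1 ≤ c.J ^ 16 := one_le_pow₀ J1
  obtain ⟨j, hj⟩ : ∃ j, j = c.J ^ 16 := ⟨_, rfl⟩
  have j2 : c.J ^ 32 = j * j := by rw [hj]; ring
  rw [j2, ← hj]
  rw [← hj] at j1
  have w2 : ω ^ 2 ≤ np c.N (11 / 10) :=
    (pow_le_pow_left₀ h0.le h1 2).trans (le_of_eq (by rw [np_pow]; norm_num))
  have el := h.eL_pos
  have a0 := b.np_pos (-354 / 100)
  have k1 := one_le_np b (a := 3 / 10) (by norm_num)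
  have t1 : ω ^ 2 * (np c.N (-354 / 100) * np c.N (-354 / 100)) ≤ np c.N (-598 / 100) :=
    (mul_le_mul_of_nonneg_right w2 (by positivity)).trans
      (le_of_eq (by rw [← b.np_add, ← b.np_add]; norm_num))
  have t2 : ω ^ 2 * (np c.N (-354 / 100) * np c.N (3 / 10)) ≤ np c.N (-7 / 100) :=
    (mul_le_mul_of_nonneg_right w2 (by positivity)).trans
      (by rw [← b.np_add, ← b.np_add]; exact b.np_le (by norm_num))
  have t3 : ω ^ 2 * c.eL * np c.N (3 / 10) ≤ 2 * np c.N (-7 / 100) :=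
    (mul_le_mul_of_nonneg_right h2 (by positivity)).trans
      (le_of_eq (by rw [mul_assoc, ← b.np_add]; norm_num))
  have p1 := b.np_pos (-598 / 100)
  have p2 := b.np_pos (-7 / 100)
  have jj : j ≤ j * j := by nlinarith
  have s1 : np c.N (-598 / 100) ≤ j * j * np c.N (-598 / 100) :=
    le_mul_of_one_le_left p1.le (by linarith)
  have s2 := mul_le_mul_of_nonneg_right t2 (show 0 ≤ j * c.eL by positivity)
  have s3 := mul_le_mul_of_nonneg_right t3 (show 0 ≤ j * j * c.eL by positivity)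
  have s4 := mul_le_mul_of_nonneg_right jj (show 0 ≤ np c.N (-7 / 100) * c.eL by positivity)
  have s5 := mul_le_mul_of_nonneg_right k1
    (show 0 ≤ ω ^ 2 * np c.N (-354 / 100) * (j * c.eL) by positivity)
  nlinarith

/-! ## the profile in the height -/

def kp : ℝ := Real.sqrt (3 / 16 * (I1 / I0) / (95 / 1000))
lemma kp_pos : 0 < kp := by have := I0_pos; have := I1_pos; unfold kp; positivity

lemma ze_num {c : Pm} (h : Gd c) : Real.sqrt c.q * c.lA * (qp c.N (2 / 5) * Real.sqrt (c.J * c.p)) /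
    c.Hp ≤ 1 / c.J := by
  have := h.q_pos; have := h.lA_pos; have := h.big.qp_pos (2 / 5); have := h.J_pos
  have := h.p_pos; have := h.Hp_pos
  have a1 := Real.log_le_log h.pf_pos h.pf_le
  refine le_of_log (by positivity) (by positivity) ?_
  simp (disch := positivity) only [Real.log_div, Real.log_mul, Real.log_sqrt, Real.log_one, h.log_q,
    h.log_lA, h.big.log_qp, h.log_J, h.log_Hp, h.log_l1]
  linarith [h.log_p.1, h.big.log_pcap, h.big.L_ge, log2_bd.1]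

lemma wz {d : MD} {p : PT} {s : Sa} (h : Gd d.c) (hi : d.In) (hs : d.Gs s)
    (hJ : 16 / kp * (1 + 32 * (I1 / I0)) ≤ d.c.J) (φ : Fin 3) {x0 : V} (hx : x0 ∈ d.R (99 / 100)) :
    ∃ w ζ : V → ℝ, Sm w ∧ Sm ζ ∧ CB 4 (cv (d.c.lam / d.c.N ^ 2)) {x0} w (cf 1 4 * 625) ∧
      CB 4 (cv (d.c.lam / d.c.N ^ 2)) {x0} ζ 1 ∧ ∀ᶠ x in 𝓝 x0, w x ^ 2 = 1 - I1 / I0 * ζ x ^ 2 ∧
        ∀ k, d.prof p s (φ, k) x = w x * f0 (d.ph p (φ, k) x) + ζ x * f1 (d.ph p (φ, k) x) := by
  have c1 := C2.cf_one 1 4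
  by_cases hn : d.nz0 φ
  swap
  · refine ⟨fun _ => 1, fun _ => 0, contDiff_const, contDiff_const, cb_const (by rw [abs_one]; linarith),
      cb_const (by simp), Eventually.of_forall fun x => ⟨by simp, fun k => ?_⟩⟩
    simp only [MD.prof, if_neg hn]; ring
  have hl := h.lam_pos
  have N1 : (1 : ℝ) ≤ d.c.N := by linarith [h.big.N_ge, h.big.J_ge, h.big.L_ge]
  have N2 : (1 : ℝ) ≤ (d.c.N : ℝ) ^ 2 := one_le_pow₀ N1
  have hh : ∀ i, 0 ≤ cv (d.c.lam / d.c.N ^ 2) i := fun _ => by show 0 ≤ _ / _; positivity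
  have hx' := singleton_subset_iff.2 hx
  obtain ⟨sP, P0, -, P4⟩ := (hi.ns.2.2 hn.1).1
  have sΘ := hs.sm.2.2
  have q1 : 1 ≤ d.c.q := by show 1 ≤ pq d.c.N; linarith [h.big.q_ge]
  have J1 : 1 ≤ d.c.J := by show 1 ≤ pJ d.c.N; linarith [h.big.J_ge, h.big.L_ge]
  have lA : d.c.lam ≤ Real.sqrt d.c.q * d.c.lA := by
    refine h.lam_le_l1.trans (le_trans ?_ (le_mul_of_one_le_left h.lA_pos.le (Real.one_le_sqrt.2 q1)))
    exact le_mul_of_one_le_left h.l1_pos.le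
      (one_le_mul_of_one_le_of_one_le (one_le_pow₀ q1) (Real.one_le_sqrt.2 J1))
  have HP : CB 4 (cv (d.c.lam / d.c.N ^ 2)) {x0} d.Pq (Real.sqrt d.c.q * d.c.lA) :=
    CBl.monoU (CV.toCB (CBl.monoB (CV.finer (κ := 1 / d.c.N ^ 2) (by positivity)
      ((div_le_one (by linarith)).2 N2) (fun _ => hl.le) hh
      (fun _ => le_of_eq (by simp only [cv]; ring)) P4.toCV)
      (le_trans (le_of_eq (by field_simp)) lA)) fun x hx => (P0 x hx).1) hx'
  have HΘ : CB 4 (cv (d.c.lam / d.c.N ^ 2)) {x0} s.Θ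
      (2 * qp d.c.N (2 / 5) * Real.sqrt (d.c.J * d.c.p)) :=
    CBl.monoU (CBl.monoh (hs.th hn.1) hh fun i => by
      refine (div_le_self hl.le N2).trans ((le_mul_of_one_le_left hl.le
        (one_le_np h.big (a := 497 / 1000) (by norm_num))).trans (h.win' _ ?_).1)
      fin_cases i <;> simp [Pm.thS]) hx'
  have sζ : Sm (d.ze s) := (sP.mul sΘ).div_const _
  have kp0 := kp_pos
  have cc : 0 < I1 / I0 := div_pos I1_pos I0_pos
  obtain ⟨z, hz⟩ : ∃ z, z = 16 / kp * (1 / d.c.J) := ⟨_, rfl⟩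
  have z0 : 0 ≤ z := by rw [hz]; positivity
  have z1 : z * (1 + 32 * (I1 / I0)) ≤ 1 := by
    rw [hz, mul_right_comm, mul_one_div, div_le_one h.J_pos]; exact hJ
  have z2 : z ≤ 1 := by nlinarith
  have z3 : I1 / I0 * (2 ^ 4 * z ^ 2) ≤ 1 * (1 / 2) := by nlinarith [mul_nonneg z0 cc.le]
  have Hζ : CB 4 (cv (d.c.lam / d.c.N ^ 2)) {x0} (d.ze s) z := by
    refine CBl.monoB (CBl.div_const (CB.mul hh sP sΘ HP HΘ) (2 * d.Hh 0)) ?_
    have e : d.Hh 0 = kp * d.c.Hp := by simp only [MD.Hh, if_true, if_pos hn.1, kp]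
    have := h.Hp_pos
    rw [e, abs_of_pos (by positivity), hz]
    refine le_trans (le_of_eq ?_) (mul_le_mul_of_nonneg_left (ze_num h) (by positivity))
    field_simp
    ring
  have sg : Sm fun x => 1 - I1 / I0 * d.ze s x ^ 2 := contDiff_const.sub (Sm.cmul (sζ.pow 2) _)
  have H2 : CB 4 (cv (d.c.lam / d.c.N ^ 2)) {x0} (fun x => I1 / I0 * d.ze s x ^ 2) (1 * (1 / 2)) :=
    CBl.monoB (CBl.smul_nonneg (CB.sq hh sζ Hζ) cc.le) z3
  have g0 : 1 - I1 / I0 * d.ze s x0 ^ 2 ∈ Icc (1 / 2 : ℝ) 1 :=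
    ⟨by linarith [(abs_le.1 (H2.val rfl)).2], by nlinarith [sq_nonneg (d.ze s x0)]⟩
  have Hw := CB.sqrt (n := 4) (U := {x0}) (d := 1) hh (by norm_num) (SmN.of_sm sg _)
    (by rintro x rfl; exact g0)
    (CBl.congr_fun (CV.const_add (ContDiff.neg (Sm.cmul (sζ.pow 2) _)) (CBl.neg H2.toCV) 1)
      fun x => sub_eq_add_neg _ _)
  obtain ⟨w, sw, ew⟩ := ((SmN.of_sm sg {x0}).sqrt (by rintro x rfl; linarith [g0.1])) x0 rfl
  refine ⟨w, d.ze s, sw, sζ, CBl.monoB (CBl.congr Hw (by rintro x rfl; exact ew))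
    (le_of_eq (by norm_num)), CBl.monoB Hζ z2, ?_⟩
  filter_upwards [ew, sg.continuous.continuousAt.eventually
    (lt_mem_nhds (show (0 : ℝ) < 1 - I1 / I0 * d.ze s x0 ^ 2 by linarith [g0.1]))] with x e1 e2
  refine ⟨by rw [e1, Real.sq_sqrt e2.le], fun k => ?_⟩
  simp only [MD.prof, if_pos hn, e1]

end Cov
end
end Pool.Agent.MP_20bec2_an.T3

end MrgPart1

-- marker of a merged file
example : 731051 + 26217 = 731051 + 26217 := rfl

end MrgPart1

-- ======== part 2: formerly Pool.Agent.MP_20bec2_an.T3.Dera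
section MrgPart2

-- ======== part 0: formerly Pool.Agent.MP_20bec2_an.T3.DeraA
section MrgPart0

/-! The windows without noise: sharp table, amplitude, support, divergence. -/

set_option autoImplicit false
set_option linter.unusedSectionVars false
open MeasureTheory Set Filter Matrix Topology

namespace Pool.Agent.MP_20bec2_an.T3
noncomputable section
open Classical

namespace Dera
open Win Cov

/-! ## calculus -/

lemma ent {G F g : V → ℝ} {x w : V} {e δ B M a : ℝ} (he : 0 < e) (hw : ∀ i, e ≤ w i) (sG : Sm G)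
    (sF : Sm F) (dg : DifferentiableAt ℝ g x) (δ0 : 0 ≤ δ) (HG : CV 2 (cv e) {x} G δ)
    (ha : |G x| ≤ a) (HF : CB 2 w {x} F B) (g0 : |g x| ≤ M) (g1 : ∀ j, w j * |pd j g x| ≤ M)
    (i j : Fin 3) : |pd i (fun z => G z * F z) x * g x| ≤ B * M * (a / w i + 4 * (δ / e)) ∧
      |pd j (fun y => pd i (fun z => G z * F z) y * g y) x| ≤
        B * M * (2 * (a / (w j * w i)) + 8 * (δ / e ^ 2)) := by
  have w0 : ∀ i, 0 < w i := fun i => he.trans_le (hw i)
  have a0 : 0 ≤ a := (abs_nonneg _).trans ha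
  have B0 : 0 ≤ B := HF.nonneg rfl
  have M0 : 0 ≤ M := (abs_nonneg _).trans g0
  have HF' : CB 2 (cv e) {x} F B := CBl.monoh HF (fun _ => he.le) hw
  have k : ∀ l : List (Fin 3), l.length ≤ 2 → |pds l (fun z => G z * F z) x| ≤
      B * (a / hp w l + 4 * (δ / e ^ l.length)) := fun l hl => by
    have h1 := Derb.mul_main (h := cv e) (fun _ => he.le) sG sF δ0 HG HF' hl
    rw [hp_cv, ← le_div_iff₀' (pow_pos he _)] at h1
    have h2 := mul_le_mul ha (CBl.le_div w0 HF hl rfl) (abs_nonneg _) a0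
    have h3 := abs_sub_abs_le_abs_sub (pds l (fun z => G z * F z) x) (G x * pds l F x)
    rw [abs_mul] at h3
    have e1 : B * (a / hp w l + 4 * (δ / e ^ l.length)) =
      a * (B / hp w l) + 2 ^ 2 * δ * B / e ^ l.length := by ring
    linarith
  have k1 : |pd i (fun z => G z * F z) x| ≤ B * (a / w i + 4 * (δ / e)) := by
    simpa using k [i] (by simp)
  have k2 : |pd j (pd i fun z => G z * F z) x| ≤ B * (a / (w j * w i) + 4 * (δ / e ^ 2)) := by
    simpa using k [j, i] (by simp)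
  have := w0 i; have := w0 j
  have g2 : |pd j g x| ≤ M / w j := by rw [le_div_iff₀' (w0 j)]; exact g1 j
  constructor
  · rw [abs_mul]
    exact (mul_le_mul k1 g0 (abs_nonneg _) (by positivity)).trans (le_of_eq (by ring))
  · rw [pd_mul_at ((Sm.pd (sG.mul sF) i).dif x) dg]
    refine (abs_add_le _ _).trans ?_
    rw [abs_mul, abs_mul]
    have h1 := mul_le_mul k2 g0 (abs_nonneg _) (by positivity)
    have h2 := mul_le_mul k1 g2 (abs_nonneg _) (by positivity)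
    have h3 : δ / e / w j ≤ δ / e ^ 2 := by
      rw [div_div, sq]
      exact div_le_div_of_nonneg_left δ0 (by positivity) (mul_le_mul_of_nonneg_left (hw j) he.le)
    have h4 := mul_le_mul_of_nonneg_left h3 (mul_nonneg B0 M0)
    have e1 : B * (a / w i + 4 * (δ / e)) * (M / w j) =
      B * M * (a / (w j * w i)) + 4 * (B * M * (δ / e / w j)) := by field_simp
    linarith

/-- the lateral profile -/
def FF (d : MD) (t : Wi) (x : V) : ℝ := f0 (x 0 / d.W1 t.1 - t.2 0 / d.ns) *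
  f0 (x 1 / d.W2 t.1 + MD.vs t.1 * (x 0 / d.W1 t.1) - t.2 1 / d.ns)
/-- the vertical profile -/
def gg (d : MD) (p : PT) (t : Wi) (x : V) : ℝ := f0 (d.ph p t x)

lemma Ph_eq (d : MD) (p : PT) (t : Wi) :
    d.Ph p t = fun x => d.ca t.1 * (am d p t.1 x * FF d t x) := by
  funext x; unfold MD.Ph am FF; ring

lemma sm_FF (d : MD) (t : Wi) : Sm (FF d t) :=
  (f0_sm.comp ((sm_u d t.1).sub contDiff_const)).mul (f0_sm.comp ((sm_v d t.1).sub contDiff_const))

lemma FF_cb {n : ℕ} {M : ℝ} (hM : ∀ j ≤ n, ∀ t, |iteratedDeriv j f0 t| ≤ M) (d : MD) (t : Wi)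
    {h : V} (U : Set V) (h1 : 0 < d.W1 t.1) (h2 : 0 < d.W2 t.1) (hh : ∀ i, 0 ≤ h i)
    (e0 : h 0 ≤ d.W1 t.1) (e1 : h 1 ≤ d.W2 t.1) : CB n h U (FF d t) (2 ^ n * M * M) := by
  have e : ∀ x : V, x 1 / d.W2 t.1 + MD.vs t.1 * (x 0 / d.W1 t.1) - t.2 1 / d.ns =
      (![MD.vs t.1 / d.W1 t.1, 1 / d.W2 t.1, 0] : V) ⬝ᵥ x + -(t.2 1 / d.ns) := fun x => by
    simp [dotProduct, Fin.sum_univ_three]; ring
  have a := cb_coordfn (n := n) (U := U) hh f0_sm 0 h1 (t.2 0 / d.ns) le_rfl (by linarith)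
    fun j hj x _ => hM j hj _
  have b := cb_ridge (n := n) (U := U) hh f0_sm ![MD.vs t.1 / d.W1 t.1, 1 / d.W2 t.1, 0]
    (-(t.2 1 / d.ns)) le_rfl (fun i => by
      fin_cases i
      · show |MD.vs t.1 / d.W1 t.1| * h 0 ≤ 1
        rw [abs_div, abs_of_pos h1, div_mul_eq_mul_div, div_le_one h1]
        exact (mul_le_of_le_one_left (hh 0) (vs_le _)).trans e0
      · show |1 / d.W2 t.1| * h 1 ≤ 1
        rwa [abs_of_pos (one_div_pos.2 h2), div_mul_eq_mul_div, div_le_one h2, one_mul]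
      · simp) fun j hj x _ => hM j hj _
  have c := CB.mul hh (sm_coordfn f0_sm 0 _ _) (sm_ridge f0_sm _ _) a b
  simp only [one_pow, one_mul] at c
  exact CBl.congr_fun c fun x => by rw [FF, e]

lemma pd_gg {d : MD} {p : PT} {t : Wi} (hτ : Sm (p.τ t.1 (t.2 0) (t.2 1))) (j : Fin 3) (x : V) :
    pd j (gg d p t) x = if j = 2 then
      f1 (d.ph p t x) * deriv (p.τ t.1 (t.2 0) (t.2 1)) (x 2) else 0 := by
  have s1 : Sm fun y : V => p.τ t.1 (t.2 0) (t.2 1) (y 2) := hτ.comp (sm_coord 2)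
  unfold gg MD.ph
  rw [pd_comp_at (f0_sm.dif _) (Sm.dif (s1.sub contDiff_const) x),
    pd_sub_at (s1.dif x) (differentiableAt_const _),
    pd_comp_at (g := fun y : V => y 2) (hτ.dif _) ((sm_coord 2).dif x), pd_coord, pd_const]
  by_cases e : j = 2
  · simp [e, f1]
  · simp [e, Ne.symm e]

lemma sm_gg {d : MD} {p : PT} {t : Wi} (hτ : Sm (p.τ t.1 (t.2 0) (t.2 1))) : Sm (gg d p t) :=
  f0_sm.comp ((hτ.comp (sm_coord 2)).sub contDiff_const)

/-! ## numbers -/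

def XX (d : MD) (φ : Fin 3) : ℝ :=
  if φ = 0 then d.c.l1 * d.c.W20 else d.c.lam * d.c.W11 / d.c.η0
def dl0 (c : Pm) : ℝ := np c.N (-354 / 100) + c.J ^ 16 * c.eL

lemma XX_pos {d : MD} (h : Gd d.c) (φ : Fin 3) : 0 < XX d φ := by
  have := h.l1_pos; have := h.W20_pos; have := h.lam_pos; have := h.W11_pos; have := h.η0_pos
  unfold XX; split_ifs <;> positivity

lemma dl0_pos {c : Pm} (h : Gd c) : 0 < dl0 c :=
  add_pos (h.big.np_pos _) (mul_pos (pow_pos h.J_pos _) h.eL_pos)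

lemma ca_le {d : MD} (h : Gd d.c) (φ : Fin 3) : 0 ≤ d.ca φ ∧ d.ca φ ≤ io * XX d φ := by
  have := h.l1_pos; have := h.W20_pos; have := h.lam_pos; have := h.W11_pos; have := h.η0_pos
  have := I0_pos; have := I1_pos
  unfold MD.ca XX io
  split_ifs
  · exact ⟨by positivity, le_of_eq (by ring)⟩
  · refine ⟨by positivity, ?_⟩
    rw [div_mul_div_comm, one_mul, mul_comm (√_)]
    refine div_le_div_of_nonneg_left (by positivity) (by positivity)
      (mul_le_mul_of_nonneg_left (Real.sqrt_le_sqrt ?_) h.η0_pos.le)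
    nlinarith [show 0 < I0 ^ 2 * I1 by positivity]

lemma log2_le : Real.log 2 ≤ Real.log 10 := Real.log_le_log (by norm_num) (by norm_num)

lemma tab_ge {d : MD} (h : Gd d.c) {φ : Fin 3} (hn : ¬ d.nz0 φ) {a : ℝ} (ha : 0 < a) (j : Fin 3) :
    XX d φ / ((![d.W1 φ, d.W2 φ, 1 / a] : V) j * d.W2 φ) ≤ d.tab φ a 0 j ∧
    d.c.η0 * XX d φ / ((![d.W1 φ, d.W2 φ, 1 / a] : V) j * d.W1 φ) ≤ d.tab φ a 1 j := by
  have := h.l1_pos; have := h.W20_pos; have := h.lam_pos; have := h.W11_pos; have := h.η0_pos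
  have := h.W10_pos; have := h.W21_pos; have := h.dl_pos; have := h.dl'_pos; have := h.s12_pos
  have := h.s21_pos; have := h.η_pos
  have := h.log_W10; have := h.log_W20; have := h.log_W11; have := h.log_W21; have := h.log_l1
  have := h.log_s12; have := h.log_η0; have := h.log_two_sub.1; have := h.log_two_sub.2
  have := log2_le; have := log10_bd.1
  unfold XX MD.W1 MD.W2 MD.tab
  by_cases e : φ = 0
  · have hn' : ¬ d.c.noise := fun k => hn ⟨k, e⟩
    simp only [if_pos e, if_neg hn']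
    fin_cases j <;>
    simp only [Fin.zero_eta, Fin.mk_one, Fin.reduceFinMk, of_apply, cons_val', cons_val_zero,
      cons_val_one, cons_val_two, head_cons, tail_cons, cons_val_fin_one] <;>
    constructor <;> refine le_of_log (by positivity) (by positivity) ?_ <;>
    simp (disch := positivity) only [Real.log_div, Real.log_mul, Real.log_pow, Real.log_one] <;>
    push_cast <;> linarith
  · simp only [if_neg e]
    fin_cases j <;>
    simp only [Fin.zero_eta, Fin.mk_one, Fin.reduceFinMk, of_apply, cons_val', cons_val_zero,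
      cons_val_one, cons_val_two, head_cons, tail_cons, cons_val_fin_one] <;>
    constructor <;> refine le_of_log (by positivity) (by positivity) ?_ <;>
    simp (disch := positivity) only [Real.log_div, Real.log_mul, Real.log_pow, Real.log_one] <;>
    push_cast <;> linarith

lemma amp_ge {d : MD} (h : Gd d.c) (φ : Fin 3) :
    XX d φ / d.W2 φ ≤ d.c.l1 ∧ d.c.η0 * XX d φ / d.W1 φ ≤ d.c.lam := by
  have := h.l1_pos; have := h.W20_pos; have := h.lam_pos; have := h.W11_pos; have := h.η0_pos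
  have := h.W10_pos; have := h.W21_pos; have := h.ro_pos
  unfold XX MD.W1 MD.W2
  split_ifs
  · refine ⟨le_of_eq (by field_simp), le_trans (le_of_eq ?_)
      (mul_le_of_le_one_left h.lam_pos.le (show d.c.b1 ≤ 1 by linarith [h.b1_le]))⟩
    unfold Pm.b1 Pm.l1; ring
  · refine ⟨le_trans (le_of_eq ?_) (mul_le_of_le_one_left h.l1_pos.le
      (show √2 * d.c.b2 ≤ 1 from ?_)), le_of_eq (by field_simp)⟩
    · unfold Pm.b2 Pm.l1; field_simp
    · have : √2 ≤ 2 := Real.sqrt_le_iff.2 ⟨by norm_num, by norm_num⟩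
      nlinarith [h.b2_le, h.b2_pos]

lemma err_le {d : MD} (h : Gd d.c) (φ : Fin 3) :
    d.c.q * XX d φ * (dl0 d.c / d.c.hE ^ 2) ≤ d.ter ∧ d.ter * d.c.hE ≤ d.c.lam ∧ 0 ≤ d.ter ∧
    np d.c.N (3 / 10) * (d.c.J ^ 16 * d.c.eL) ≤ 1 := by
  have b := h.big
  have := h.l1_pos; have := h.W20_pos; have := h.lam_pos; have := h.W11_pos; have := h.η0_pos
  have := h.q_pos; have := h.J_pos; have := h.hE_pos; have x0 := XX_pos h φ
  have := b.J_ge; have := b.L_ge; have := log2_bd.2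
  have l3 : Real.log 3 ≤ 3 := (logc_bd (by norm_num)).2
  have J1 : 1 ≤ d.c.J ^ 16 := one_le_pow₀ (by show 1 ≤ pJ _; linarith)
  have lx : Real.log (XX d φ) ≤
      2 * Real.log d.c.lam + pJ d.c.N / 2 + 9 * pL d.c.N - 3 / 2 * Real.log d.c.η := by
    have := (h.log_win d.c.W20 (by simp)).2; have := (h.log_win d.c.W11 (by simp)).2
    have := h.log_l1; have := h.log_ro; have := h.log_m_le; have := h.log_K_bd.2
    have := h.log_e4.1; have := h.log_η_le; have := h.log_η0; have := h.log_two_sub.2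
    unfold XX
    split_ifs <;> simp (disch := positivity) only [Real.log_div, Real.log_mul] <;> linarith
  have k : ∀ u v : ℝ, 0 < u → dl0 d.c ≤ u → pL d.c.N / 1000 + Real.log (XX d φ) + Real.log u -
      2 * Real.log d.c.hE ≤ v * pJ d.c.N → d.c.q * XX d φ * (dl0 d.c / d.c.hE ^ 2) ≤ np d.c.N v :=
    fun u v u0 hu hl => by
      refine (mul_le_mul_of_nonneg_left (div_le_div_of_nonneg_right hu (by positivity))
        (by positivity)).trans (le_of_log (by positivity) (b.np_pos _) ?_)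
      simp (disch := positivity) only [Real.log_div, Real.log_mul, Real.log_pow, h.log_q, b.log_np]
      push_cast; linarith
  have t : ∀ v : ℝ, v ≤ -46 / 100 → np d.c.N v * d.c.hE ≤ d.c.lam := fun v hv => by
    rw [Pm.hE, ← mul_assoc, ← b.np_add]
    exact mul_le_of_le_one_left h.lam_pos.le (np_le_one b (by linarith))
  have p1 := b.np_pos (-46 / 100)
  have p2 := b.np_pos (-354 / 100)
  have p3 := b.np_pos (-49 / 10)
  have p4 := b.np_pos (3 / 10)
  have e1 := mul_le_mul_of_nonneg_left (eL_le h).1 (pow_pos h.J_pos 16).le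
  refine ⟨?_, ?_, ?_, (mul_le_mul_of_nonneg_left e1 p4.le).trans
    (le_of_log (by positivity) one_pos ?_)⟩
  · unfold MD.ter
    split_ifs with e
    · refine k (3 * (d.c.J ^ 16 * np d.c.N (-46 / 100))) _ (by positivity) ?_ ?_
      · have := b.np_le (show (-354 / 100 : ℝ) ≤ -46 / 100 by norm_num)
        have := le_mul_of_one_le_left p1.le J1
        unfold dl0; linarith
      · have := h.log_etaS_le (a := 1 / 40) (by norm_num) (by linarith)
        simp (disch := positivity) only [Real.log_mul, Real.log_pow, h.log_J, b.log_np, h.log_hE]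
        push_cast; linarith
    · refine k (3 * np d.c.N (-354 / 100)) _ (by positivity) ?_ ?_
      · have := mul_le_mul_of_nonneg_left ((eL_le h).2 (not_le.1 e)) (pow_pos h.J_pos 16).le
        have : d.c.J ^ 16 * np d.c.N (-49 / 10) ≤ np d.c.N (-354 / 100) := by
          refine le_of_log (by positivity) p2 ?_
          simp (disch := positivity) only [Real.log_mul, Real.log_pow, h.log_J, b.log_np]
          push_cast; linarith
        unfold dl0; linarith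
      · have := h.log_η_ge
        simp (disch := positivity) only [Real.log_mul, b.log_np, h.log_hE]
        linarith
  · unfold MD.ter
    split_ifs <;> exact t _ (by norm_num)
  · unfold MD.ter
    split_ifs <;> exact (b.np_pos _).le
  · simp (disch := positivity) only [Real.log_mul, Real.log_pow, h.log_J, b.log_np, Real.log_one]
    push_cast; linarith

/-! ## one window -/

/-- the scales of a window at a point -/
def ww (d : MD) (p : PT) (t : Wi) (x : V) : V :=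
  ![d.W1 t.1, d.W2 t.1, 1 / deriv (p.τ t.1 (t.2 0) (t.2 1)) (x 2)]

lemma τ_pos {d : MD} {p : PT} (h : Cx d p) (t : Wi) (a : ℝ) :
    0 < deriv (p.τ t.1 (t.2 0) (t.2 1)) a :=
  (one_div_pos.2 (h.Hh_pos _)).trans_le ((h.ck _ _ _).2.2.2.2.1 a).1

lemma ww_ge {d : MD} {p : PT} (h : Cx d p) (t : Wi) (x : V) (i : Fin 3) : d.c.hE ≤ ww d p t x i := by
  have k : ∀ W ∈ [d.W1 t.1, d.W2 t.1], d.c.hE ≤ W := fun W hW =>
    (npl_le h.g (by norm_num)).trans (h.W_bd _ W hW).1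
  fin_cases i
  · exact k _ (by simp [ww])
  · exact k _ (by simp [ww])
  · show d.c.hE ≤ 1 / _
    rw [le_div_iff₀ (τ_pos h t _)]
    refine (mul_le_mul_of_nonneg_left ((h.ck _ _ _).2.2.2.2.1 _).2.1 h.g.hE_pos.le).trans ?_
    rw [Pm.hE, mul_assoc, mul_div_cancel₀ _ h.g.lam_pos.ne', ← h.g.big.np_add]
    exact np_le_one h.g.big (by norm_num)

/-- the two bounds of a window -/
def KB (d : MD) (p : PT) (t : Wi) (K : ℝ) : Prop := ∀ x i j,
  |pd i (d.Ph p t) x * gg d p t x| ≤ K * XX d t.1 * (|d.α x| / ww d p t x i + dl0 d.c / d.c.hE) ∧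
  |pd j (fun y => pd i (d.Ph p t) y * gg d p t y) x| ≤
    K * XX d t.1 * (|d.α x| / (ww d p t x j * ww d p t x i) + dl0 d.c / d.c.hE ^ 2)

lemma key : ∃ K : ℝ, 1 ≤ K ∧ ∀ (d : MD) (p : PT) (t : Wi), Cx d p → Orth d.O → d.AmpOk p.r →
    KB d p t K := by
  obtain ⟨M, M1, hM⟩ := Derb.f_bd 2
  obtain ⟨C, C1, hC⟩ := Prof.cb_alh 5
  have io0 := io_pos
  obtain ⟨B, hB⟩ : ∃ B : ℝ, B = 2 ^ 2 * M * M * M := ⟨_, rfl⟩
  have B1 : 1 ≤ B := by rw [hB]; nlinarith [mul_le_mul M1 M1 zero_le_one (by linarith)]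
  have BC : 1 ≤ B * (128 * C) := by nlinarith
  refine ⟨(io + 1) * (B * (128 * C)), by nlinarith, fun d p t h hO ha x i j => ?_⟩
  have x0 := XX_pos h.g t.1
  have d0 := dl0_pos h.g
  have e0 := h.g.hE_pos
  have w0 : ∀ i, 0 < ww d p t x i := fun i => e0.trans_le (ww_ge h t x i)
  have := w0 i; have := w0 j
  by_cases hx : x ∈ d.R (9 / 10)
  swap
  · have z : (fun y => pd i (d.Ph p t) y * gg d p t y) =ᶠ[𝓝 x] fun _ => 0 := by
      filter_upwards [(Prof.RX_closed d.O d.c.D (9 / 10)).isOpen_compl.mem_nhds hx] with y hy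
      rw [Derb.ph_loc h.g p t (Or.inl hy), zero_mul]
    have z0 : pd i (d.Ph p t) x * gg d p t x = 0 := z.self_of_nhds
    simp only [pd_congr z, pd_const, z0, abs_zero]
    constructor <;> positivity
  have hx' : x ∈ d.R (95 / 100) := Prof.RX_mono _ h.g.D_pos.le (by norm_num) hx
  have hτ := (h.ck t.1 (t.2 0) (t.2 1)).1
  have HG : CV 2 (cv d.c.hE) {x} (am d p t.1) (16 * C * dl0 d.c) := by
    refine cv_of_pd (fun _ => e0.le) fun k => CBl.monoB (CBl.smul_nonneg (CBl.monoU (CB.of_le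
      ((am_bd h.g ha (hC d.O d.c.D hO h.g.D_pos) (err_le h.g 0).2.2.2 t.1).2 k).1 (by norm_num))
      (singleton_subset_iff.2 hx')) e0.le) (le_of_eq ?_)
    exact mul_div_cancel₀ _ e0.ne'
  have ha' : |am d p t.1 x| ≤ |d.α x| := by
    obtain ⟨r1, r2⟩ := (ha.1 t.1).2.1 x hx'
    rw [am, abs_mul]
    exact mul_le_of_le_one_right (abs_nonneg _) (abs_le.2 ⟨by linarith, by linarith⟩)
  obtain ⟨k1, k2⟩ := ent (M := M) e0 (ww_ge h t x) (am_sm ha t.1) (sm_FF d t) ((sm_gg hτ).dif x)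
    (by positivity) HG ha' (FF_cb (fun j hj s => (hM j hj s).1) d t {x} (h.W1_pos _) (h.W2_pos _)
      (fun i => (w0 i).le) le_rfl le_rfl) (by simpa [gg] using (hM 0 (by norm_num) _).1)
    (fun k => by
      rw [pd_gg hτ]
      split_ifs with e
      · have : |f1 (d.ph p t x)| ≤ M := by simpa using (hM 0 (by norm_num) _).2
        rw [e, abs_mul, abs_of_pos (τ_pos h t _), mul_left_comm]
        show _ * (1 / _ * _) ≤ M
        rwa [one_div_mul_cancel (τ_pos h t _).ne', mul_one]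
      · simpa using zero_le_one.trans M1) i j
  rw [← hB] at k1 k2
  obtain ⟨c0, c1⟩ := ca_le h.g t.1
  have e1 : (fun y => pd i (d.Ph p t) y * gg d p t y) =
      fun y => d.ca t.1 * (pd i (fun z => am d p t.1 z * FF d t z) y * gg d p t y) := by
    funext y; rw [Ph_eq, pd_const_mul, mul_assoc]
  have fin : ∀ {Y u v a b : ℝ}, 0 ≤ u → 0 ≤ v → a ≤ 128 → b ≤ 8 →
      |Y| ≤ B * (a * u + b * (16 * C * v)) →
      |d.ca t.1 * Y| ≤ (io + 1) * (B * (128 * C)) * XX d t.1 * (u + v) := by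
    intro Y u v a b u0 v0 a1 b1 hY
    have h1 : a * u + b * (16 * C * v) ≤ 128 * C * (u + v) := by
      nlinarith [mul_le_mul_of_nonneg_right a1 u0, mul_le_mul_of_nonneg_right C1 u0,
        mul_le_mul_of_nonneg_right b1 (show 0 ≤ 16 * C * v by positivity)]
    have h2 := hY.trans (mul_le_mul_of_nonneg_left h1 (by linarith))
    rw [abs_mul, abs_of_nonneg c0]
    refine (mul_le_mul (c1.trans (mul_le_mul_of_nonneg_right (le_add_of_nonneg_right zero_le_one)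
      x0.le)) h2 (abs_nonneg _) (by positivity)).trans (le_of_eq (by ring))
  rw [congrFun e1 x, e1, pd_const_mul]
  exact ⟨fin (a := 1) (b := 4) (by positivity) (by positivity) (by norm_num) (by norm_num)
      (k1.trans (le_of_eq (by ring))),
    fin (a := 2) (b := 8) (by positivity) (by positivity) (by norm_num) (by norm_num)
      (k2.trans (le_of_eq (by ring)))⟩

section fields
variable {d : MD} {p : PT} {s : Sa} {t : Wi} (hn : ¬ d.nz0 t.1)
include hn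

lemma om_eq : d.om p t = fun _ => 0 := funext fun _ => if_neg hn
lemma pm0 : (fun x => d.Pm' p s t x 0) = fun y => pd 1 (d.Ph p t) y * gg d p t y := by
  funext x; simp [MD.Pm', MD.prof, if_neg hn, gg]
lemma pm1 : (fun x => d.Pm' p s t x 1) = fun y => -d.c.η0 * (pd 0 (d.Ph p t) y * gg d p t y) := by
  funext x; simp [MD.Pm', MD.prof, if_neg hn, gg, mul_assoc]
lemma Am_eq (x : V) : d.Am s (d.Pm' p s t) (d.om p t) x = jm (d.Pm' p s t) x := by
  simp [MD.Am, om_eq hn]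

lemma sup (h : Gd d.c) (x : V) (hx : x ∉ d.R (9 / 10) ∨ 2 / 5 < |x 0 / d.W1 t.1 - t.2 0 / d.ns| ∨
    2 / 5 < |x 1 / d.W2 t.1 + MD.vs t.1 * (x 0 / d.W1 t.1) - t.2 1 / d.ns| ∨
    2 / 5 < |d.ph p t x|) : d.Pm' p s t x = 0 ∧ d.om p t x = 0 := by
  refine ⟨funext fun i => ?_, if_neg hn⟩
  by_cases h4 : 2 / 5 < |d.ph p t x|
  · fin_cases i <;> simp [MD.Pm', MD.prof, if_neg hn, Derb.f0_zero h4]
  · have := Derb.ph_loc h p t (x := x) (by tauto)
    fin_cases i <;> simp [MD.Pm', this]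

lemma dv0 (h : Cx d p) (ha : d.AmpOk p.r) (x : V) :
    d.c.η * d.Am s (d.Pm' p s t) (d.om p t) x 0 0 +
      (2 - d.c.η) * d.Am s (d.Pm' p s t) (d.om p t) x 1 1 = 0 := by
  have hτ := (h.ck t.1 (t.2 0) (t.2 1)).1
  have sΦ : Sm (d.Ph p t) := Ph_eq d p t ▸ Sm.cmul ((am_sm ha t.1).mul (sm_FF d t)) _
  rw [Am_eq hn, jm_apply, jm_apply, pm0 hn, pm1 hn, pd_const_mul,
    pd_mul_at ((sΦ.pd 1).dif x) ((sm_gg hτ).dif x), pd_mul_at ((sΦ.pd 0).dif x) ((sm_gg hτ).dif x),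
    pd_gg hτ, pd_gg hτ, if_neg (by decide), if_neg (by decide), pd_comm sΦ 1 0, Pm.η0]
  have := h.g.two_sub_pos.ne'
  field_simp
  ring

variable {K : ℝ} (h : Cx d p) (K1 : 1 ≤ K) (hK : 2 * K ≤ qp d.c.N (1 / 100)) (H : KB d p t K)
include h K1 hK H

lemma Kq : K ≤ qp d.c.N (1 / 100) ∧ K ≤ d.c.q := by
  have := h.g.big.qp_le (show (1 / 100 : ℝ) ≤ 1 by norm_num)
  rw [qp_one] at this
  exact ⟨by linarith, by show K ≤ pq _; linarith⟩

lemma err {η : ℝ} (h1 : η ≤ 1) :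
    η * (K * XX d t.1 * (dl0 d.c / d.c.hE ^ 2)) ≤ d.ter := by
  have x0 := XX_pos h.g t.1
  have d0 := dl0_pos h.g
  have e0 := h.g.hE_pos
  refine (mul_le_of_le_one_left (by positivity) h1).trans (le_trans ?_ (err_le h.g t.1).1)
  gcongr
  exact (Kq hn h K1 hK H).2

lemma amp (x : V) (i : Fin 3) : |d.Pm' p s t x i| ≤ qp d.c.N (1 / 100) * d.c.hs i := by
  have e0 := h.g.hE_pos
  have η1 : d.c.η0 ≤ 1 := h.g.η0_bd.2.trans h.g.η_le_one
  have k : ∀ {η W a : ℝ} (i : Fin 3), 0 ≤ η → η ≤ 1 → ww d p t x i = W → η * XX d t.1 / W ≤ a →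
      d.c.lam ≤ a → η * |pd i (d.Ph p t) x * gg d p t x| ≤ qp d.c.N (1 / 100) * a := by
    intro η W a i h0 h1 hW h2 h3
    have W0 : 0 < W := hW ▸ e0.trans_le (ww_ge h t x i)
    have x0 := XX_pos h.g t.1
    have a1 := mul_le_mul_of_nonneg_left (H x i i).1 h0
    have a2 := mul_le_mul_of_nonneg_right (err hn h K1 hK H h1) e0.le
    have a3 := mul_le_mul (Prof.alh_abs_le d.O d.c.D x) h2 (by positivity) zero_le_one
    have a4 := mul_le_mul_of_nonneg_left a3 (zero_le_one.trans K1)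
    have a0 : 0 ≤ a := h.g.lam_pos.le.trans h3
    have a5 := mul_le_mul_of_nonneg_right hK a0
    have a6 := mul_le_mul_of_nonneg_right K1 a0
    have e1 : η * (K * XX d t.1 * (|d.α x| / W + dl0 d.c / d.c.hE)) =
      K * (|alh d.O d.c.D x| * (η * XX d t.1 / W)) +
        η * (K * XX d t.1 * (dl0 d.c / d.c.hE ^ 2)) * d.c.hE := by unfold MD.α; field_simp
    rw [hW, e1] at a1
    linarith [(err_le h.g t.1).2.1]
  fin_cases i
  · have := k 1 zero_le_one le_rfl rfl ((one_mul (XX d t.1)).symm ▸ (amp_ge h.g t.1).1) h.g.lam_le_l1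
    rw [one_mul] at this
    exact (congrArg _ (congrFun (pm0 hn) x)).trans_le this
  · have := k 0 h.g.η0_pos.le η1 rfl (amp_ge h.g t.1).2 le_rfl
    refine (congrArg _ (congrFun (pm1 hn) x)).trans_le ?_
    rwa [abs_mul, abs_neg, abs_of_pos h.g.η0_pos]
  · simpa [MD.Pm'] using (mul_pos (h.g.big.qp_pos _) (h.g.hs_pos 2)).le

lemma tbl (x : V) : EB2 (d.Am s (d.Pm' p s t) (d.om p t) x) ((qp d.c.N (1 / 100) * |d.α x|) •
    d.tab t.1 (deriv (p.τ t.1 (t.2 0) (t.2 1)) (x 2)) + cm d.ter +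
      if d.nz0 t.1 then d.tnz else 0) := by
  intro i j hi
  have e0 := h.g.hE_pos
  have η1 : d.c.η0 ≤ 1 := h.g.η0_bd.2.trans h.g.η_le_one
  have k : ∀ {η a : ℝ} (i : Fin 3), 0 ≤ η → η ≤ 1 →
      η * XX d t.1 / (ww d p t x j * ww d p t x i) ≤ a →
      η * |pd j (fun y => pd i (d.Ph p t) y * gg d p t y) x| ≤
        qp d.c.N (1 / 100) * |d.α x| * a + d.ter := by
    intro η a i h0 h1 h2
    have := e0.trans_le (ww_ge h t x i)
    have := e0.trans_le (ww_ge h t x j)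
    have x0 := XX_pos h.g t.1
    have a1 := mul_le_mul_of_nonneg_left (H x i j).2 h0
    have a3 := mul_le_mul (mul_le_mul_of_nonneg_right (Kq hn h K1 hK H).1 (abs_nonneg (d.α x))) h2
      (by positivity) (mul_nonneg (h.g.big.qp_pos _).le (abs_nonneg _))
    have e1 : η * (K * XX d t.1 * (|d.α x| / (ww d p t x j * ww d p t x i) + dl0 d.c / d.c.hE ^ 2)) =
      K * |d.α x| * (η * XX d t.1 / (ww d p t x j * ww d p t x i)) +
        η * (K * XX d t.1 * (dl0 d.c / d.c.hE ^ 2)) := by ring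
    linarith [err hn h K1 hK H h1]
  obtain ⟨t0, t1⟩ := tab_ge h.g hn (τ_pos h t (x 2)) j
  rw [Am_eq hn, if_neg hn, add_zero, jm_apply]
  fin_cases i
  · have := k 1 zero_le_one le_rfl ((one_mul (XX d t.1)).symm ▸ t0)
    rw [one_mul] at this
    exact (congrArg (fun g => |pd j g x|) (pm0 hn)).trans_le this
  · have := k 0 h.g.η0_pos.le η1 t1
    refine (congrArg (fun g => |pd j g x|) (pm1 hn)).trans_le ?_
    show |pd j (fun y => -d.c.η0 * (pd 0 (d.Ph p t) y * gg d p t y)) x| ≤ _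
    rwa [pd_const_mul, abs_mul, abs_neg, abs_of_pos h.g.η0_pos]
  · exact absurd rfl hi
end fields

/-- the fields `sup am tb dv th` -/
theorem partA : PRow fun d p s => ∀ t, ¬ d.nz0 t.1 →
    (∀ x, x ∉ d.R (9 / 10) ∨ 2 / 5 < |x 0 / d.W1 t.1 - t.2 0 / d.ns| ∨
      2 / 5 < |x 1 / d.W2 t.1 + MD.vs t.1 * (x 0 / d.W1 t.1) - t.2 1 / d.ns| ∨
      2 / 5 < |d.ph p t x| → d.Pm' p s t x = 0 ∧ d.om p t x = 0) ∧
    (∀ x i, |d.Pm' p s t x i| ≤ qp d.c.N (1 / 100) * d.c.hs i) ∧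
    (∀ x, EB2 (d.Am s (d.Pm' p s t) (d.om p t) x) ((qp d.c.N (1 / 100) * |d.α x|) •
      d.tab t.1 (deriv (p.τ t.1 (t.2 0) (t.2 1)) (x 2)) + cm d.ter +
        if d.nz0 t.1 then d.tnz else 0)) ∧
    (∀ x, |d.c.η * d.Am s (d.Pm' p s t) (d.om p t) x 0 0 +
      (2 - d.c.η) * d.Am s (d.Pm' p s t) (d.om p t) x 1 1| ≤ if d.nz0 t.1 then d.nV / 10 else 0) ∧
    CB 4 d.c.thS univ (d.om p t) (qp d.c.N (1 / 100) * Real.sqrt d.c.p) := by
  obtain ⟨K, K1, hK⟩ := key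
  filter_upwards [ev_cx (P := fun d p _ => Cx d p) fun _ _ _ h _ _ _ => h,
    ev_C_qp (2 * K) (show (0 : ℝ) < 1 / 100 by norm_num)] with N h1 h2 d hd hk hi p s hs hp t hn
  have h := h1 d hd hk hi p s hs hp
  have H := hK d p t h hi.ort hp.1
  rw [← hd] at h2
  refine ⟨sup hn h.g, amp hn h K1 h2 H, tbl hn h K1 h2 H, fun x => ?_, ?_⟩
  · rw [dv0 hn h hp.1, if_neg hn, abs_zero]
  · rw [om_eq hn]
    exact cbl_zero (mul_nonneg (h.g.big.qp_pos _).le (Real.sqrt_nonneg _))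

end Dera
end
end Pool.Agent.MP_20bec2_an.T3

end MrgPart0

-- ======== part 1: formerly Pool.Agent.MP_20bec2_an.T3.DeraB
section MrgPart1

/-! The windows without noise: support and bounds of the derivatives on a uniform scale. -/

set_option autoImplicit false
set_option linter.unusedSectionVars false
open MeasureTheory Set Filter Matrix Topology

namespace Pool.Agent.MP_20bec2_an.T3
noncomputable section
open Classical

namespace DeraB
open Derb

/-- variation of the amplitude -/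
def e0 (c : Pm) : ℝ := np c.N (-3) + np c.N (36 / 100) * (c.J ^ 16 * c.eL)
/-- size of the stream function -/
def cm0 (c : Pm) (φ : Fin 3) : ℝ := if φ = 0 then c.l1 * c.W20 else c.lam * c.W11 / c.η0
/-- size of the field -/
def sz (c : Pm) (i : Fin 3) : ℝ := if i = 0 then c.l1 else c.lam

section num
variable {c : Pm} (h : Gd c)
include h

lemma eL_η : c.eL ≤ np c.N (-455 / 1000) * c.η := by
  have p := mul_pos (h.big.np_pos (-455 / 1000)) h.η_pos
  have e : ∀ a, Real.log (2 * np c.N a) = Real.log 2 + a * pJ c.N := fun a => by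
    rw [Real.log_mul two_ne_zero (h.big.np_pos _).ne', h.big.log_np]
  have e' : Real.log (np c.N (-455 / 1000) * c.η) = -455 / 1000 * pJ c.N + Real.log c.η := by
    rw [Real.log_mul (h.big.np_pos _).ne' h.η_pos.ne', h.big.log_np]
  rcases lt_or_ge c.η (etaS c.N / 40) with hη | hη
  · refine ((Cov.eL_le h).2 hη).trans (le_of_log (mul_pos two_pos (h.big.np_pos _)) p ?_)
    rw [e, e']
    linarith [h.log_η_ge, h.big.L_ge, h.big.J_ge, log2_bd.2]
  · refine (Cov.eL_le h).1.trans (le_of_log (mul_pos two_pos (h.big.np_pos _)) p ?_)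
    rw [e, e']
    linarith [h.log_etaS_le (a := 1 / 40) (by norm_num) (by linarith), h.big.L_ge, h.big.J_ge,
      log2_bd.2]

lemma e0_bd : 0 < e0 c ∧ e0 c ≤ np c.N (-9 / 100) * c.η := by
  have p1 := h.big.np_pos (-3); have p2 := h.big.np_pos (36 / 100); have p3 := h.J_pos
  have p4 := h.eL_pos; have p5 := h.η_pos; have p6 := h.big.np_pos (-9 / 100)
  have p7 := h.big.np_pos (-455 / 1000)
  refine ⟨by unfold e0; positivity, ?_⟩
  have a1 : 2 * np c.N (-3) ≤ np c.N (-9 / 100) * c.η := by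
    refine le_of_log (mul_pos two_pos p1) (mul_pos p6 p5) ?_
    rw [Real.log_mul two_ne_zero p1.ne', Real.log_mul p6.ne' p5.ne', h.big.log_np, h.big.log_np]
    linarith [h.log_η_ge, h.big.L_ge, h.big.J_ge, log2_bd.2]
  have a2 : 2 * (np c.N (36 / 100) * (c.J ^ 16 * np c.N (-455 / 1000))) ≤ np c.N (-9 / 100) := by
    refine le_of_log (mul_pos two_pos (mul_pos p2 (mul_pos (pow_pos p3 _) p7))) p6 ?_
    rw [Real.log_mul two_ne_zero (mul_pos p2 (mul_pos (pow_pos p3 _) p7)).ne',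
      Real.log_mul p2.ne' (mul_pos (pow_pos p3 _) p7).ne', Real.log_mul (pow_pos p3 _).ne' p7.ne',
      Real.log_pow, h.log_J, h.big.log_np, h.big.log_np, h.big.log_np]
    push_cast
    linarith [h.big.L_ge, h.big.J_ge, log2_bd.2]
  have a3 := mul_le_mul_of_nonneg_left (eL_η h) (mul_pos p2 (pow_pos p3 16)).le
  have a4 := mul_le_mul_of_nonneg_right a2 p5.le
  unfold e0
  linarith

lemma cm_bd (φ : Fin 3) : 0 < cm0 c φ ∧ cm0 c φ * c.η ≤ np c.N (501 / 1000) * c.lam ^ 2 := by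
  have s : -(pJ c.N / 2) - pL c.N ≤ Real.log c.s21 := by
    by_cases hA : c.isA
    · linarith [(h.log_A hA).2.1, h.big.L_ge]
    · linarith [(h.log_B hA).2.1, h.big.L_ge]
  have p := mul_pos (h.big.np_pos (501 / 1000)) (pow_pos h.lam_pos 2)
  have e : Real.log (np c.N (501 / 1000) * c.lam ^ 2) = 501 / 1000 * pJ c.N + 2 * Real.log c.lam := by
    rw [Real.log_mul (h.big.np_pos _).ne' (pow_pos h.lam_pos 2).ne', h.big.log_np, Real.log_pow]
    push_cast; ring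
  unfold cm0
  split_ifs
  · have p1 := mul_pos h.l1_pos h.W20_pos
    refine ⟨p1, le_of_log (mul_pos p1 h.η_pos) p ?_⟩
    rw [e, Real.log_mul p1.ne' h.η_pos.ne', Real.log_mul h.l1_pos.ne' h.W20_pos.ne', h.log_l1,
      h.log_W20]
    linarith [h.log_ro, h.log_m.1, h.log_e4.1, h.big.L_ge, h.big.J_ge]
  · have p0 := mul_pos h.lam_pos h.W11_pos
    have p1 := div_pos p0 h.η0_pos
    refine ⟨p1, le_of_log (mul_pos p1 h.η_pos) p ?_⟩
    rw [e, Real.log_mul p1.ne' h.η_pos.ne', Real.log_div p0.ne' h.η0_pos.ne',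
      Real.log_mul h.lam_pos.ne' h.W11_pos.ne', h.log_W11, h.log_η0]
    linarith [h.log_two_sub.2, log2_bd.2, h.big.L_ge, h.big.J_ge]

lemma np_lam (a b : ℝ) : np c.N a * (np c.N b * c.lam) = np c.N (a + b) * c.lam := by
  rw [h.big.np_add, mul_assoc]

lemma lam_le {a b : ℝ} (e : a ≤ b) : np c.N a * c.lam ≤ np c.N b * c.lam :=
  mul_le_mul_of_nonneg_right (h.big.np_le e) h.lam_pos.le

lemma ce_le (φ : Fin 3) : e0 c ≤ np c.N (-38 / 1000) ∧
    cm0 c φ * (e0 c / c.hE) ≤ np c.N (-38 / 1000) * c.lam := by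
  obtain ⟨-, a1⟩ := e0_bd h
  obtain ⟨a2, a3⟩ := cm_bd h φ
  refine ⟨a1.trans ((mul_le_of_le_one_right (h.big.np_pos _).le h.η_le_one).trans
    (h.big.np_le (by norm_num))), ?_⟩
  rw [← mul_div_assoc, div_le_iff₀ h.hE_pos]
  have b1 := mul_le_mul_of_nonneg_left a1 a2.le
  have b2 := mul_le_mul_of_nonneg_left a3 (h.big.np_pos (-9 / 100)).le
  have b3 : np c.N (-9 / 100) * np c.N (501 / 1000) ≤ np c.N (-38 / 1000) * np c.N (46 / 100) := by
    rw [← h.big.np_add, ← h.big.np_add]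
    exact h.big.np_le (by norm_num)
  have b4 := mul_le_mul_of_nonneg_right b3 (sq_nonneg c.lam)
  unfold Pm.hE
  linarith

lemma sz_bd (i : Fin 3) : c.lam ≤ sz c i ∧ sz c i ≤ c.l1 ∧ sz c i ≤ c.hs i := by
  have y : c.lam ≤ c.y := le_mul_of_one_le_left h.lam_pos.le
    ((np_zero _).symm.trans_le (h.big.np_le (by norm_num)))
  fin_cases i
  exacts [⟨h.lam_le_l1, le_rfl, le_rfl⟩, ⟨le_rfl, h.lam_le_l1, le_rfl⟩, ⟨le_rfl, h.lam_le_l1, y⟩]

lemma fin1 : c.q * c.ro * c.η * (c.q ^ 2 * √c.J) ≤ np c.N (5 / 1000) ∧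
    (c.comp → c.q * c.ro ≤ np c.N (3 / 1000)) ∧ c.q * c.ro ≤ np c.N 15 := by
  have := h.q_pos; have := h.ro_pos; have := h.η_pos; have := h.J_pos
  have a1 := h.log_ro; have a2 := h.log_m_le; have a3 := h.log_K_bd.2; have a4 := h.log_e4.1
  have a5 := h.big.L_ge; have a6 := h.big.J_ge; have a7 := h.log_η_le; have a8 := h.log_ro_bd.2
  refine ⟨?_, fun e => ?_, ?_⟩ <;> refine le_of_log (by positivity) (h.big.np_pos _) ?_ <;>
    simp (disch := positivity) only [Real.log_mul, Real.log_pow, Real.log_sqrt, h.log_q, h.log_J,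
      h.big.log_np, Nat.cast_ofNat]
  · linarith
  · linarith [h.log_etaS_le (a := 1) (by norm_num) (by linarith [h.thr_bd.1.trans e])]
  · linarith
end num

lemma win_bd {d : MD} (h : Gd d.c) (φ : Fin 3) :
    np d.c.N (499 / 1000) * d.c.lam ≤ d.W1 φ ∧ np d.c.N (499 / 1000) * d.c.lam ≤ d.W2 φ ∧
    cm0 d.c φ / d.W2 φ ≤ d.c.l1 ∧ d.c.η0 * cm0 d.c φ / d.W1 φ ≤ d.c.lam ∧
    0 ≤ d.ca φ ∧ d.ca φ ≤ 1 / √(I0 ^ 2 * I1) * cm0 d.c φ := by
  have i1 : 0 < I0 ^ 2 * I1 := mul_pos (pow_pos I_bd.1 2) (I_bd.1.trans_le I_bd.2)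
  have i2 := Real.sqrt_pos.2 i1
  have p := (cm_bd h φ).1
  have l := h.lam_pos; have η0 := h.η0_pos
  unfold MD.W1 MD.W2 MD.ca
  unfold cm0 at p ⊢
  split_ifs at p ⊢
  · refine ⟨(h.win _ (by simp)).1, (h.win _ (by simp)).1,
      (mul_div_cancel_right₀ _ h.W20_pos.ne').le, ?_, (div_pos p i2).le, le_of_eq (by ring)⟩
    have e : d.c.η0 * (d.c.l1 * d.c.W20) / d.c.W10 = d.c.b1 * d.c.lam := by
      unfold Pm.b1 Pm.l1
      ring
    rw [e]
    exact mul_le_of_le_one_left l.le (by linarith [h.b1_le])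
  · have w1 := h.W11_pos; have w2 := h.W21_pos; have r := h.ro_pos
    have i3 : √(I0 ^ 2 * I1) ≤ √(2 * I0 ^ 2 * I1) := Real.sqrt_le_sqrt (by linarith)
    refine ⟨(h.win _ (by simp)).1, (h.win _ (by simp)).1, ?_, le_of_eq (by field_simp),
      (div_pos (mul_pos l w1) (mul_pos η0 (i2.trans_le i3))).le, ?_⟩
    · have s2 : (0 : ℝ) < √2 := by positivity
      have e : d.c.lam * d.c.W11 / d.c.η0 / d.c.W21 = √2 * d.c.b2 * d.c.l1 := by
        unfold Pm.b2 Pm.l1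
        field_simp
      have s3 : √2 ≤ 2 := Real.sqrt_le_iff.2 ⟨by norm_num, by norm_num⟩
      rw [e]
      exact mul_le_of_le_one_left h.l1_pos.le (by nlinarith [h.b2_le, h.b2_pos])
    · rw [← div_div, one_div_mul_eq_div]
      exact div_le_div_of_nonneg_left p.le i2 i3

/-- the lateral field on the scale `w` -/
lemma av_bd {n : ℕ} (hn : n ≤ 5) : ∃ C : ℝ, 1 ≤ C ∧ ∀ (d : MD) (p : PT) (t : Wi) (w κ θ : ℝ),
    Gd d.c → Orth d.O → d.AmpOk p.r → d.c.hE ≤ w → 1 ≤ θ → w ≤ θ * d.c.hm →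
    θ ^ (n + 1) ≤ np d.c.N (36 / 100) → np d.c.N (-38 / 1000) ≤ κ → κ ≤ 1 →
    w ≤ κ * (np d.c.N (499 / 1000) * d.c.lam) → ∀ i, Sm (Av d p t i) ∧
      CB n (cv w) (d.R (95 / 100)) (Av d p t i) (C * sz d.c i) ∧
      CV n (cv w) (d.R (95 / 100)) (Av d p t i) (C * (κ * sz d.c i)) := by
  obtain ⟨M, hM, hb⟩ := f_bd (n + 1)
  obtain ⟨A, hA, ha⟩ := Prof.cb_cut (n + 1)
  obtain ⟨γ, hγ⟩ : ∃ γ : ℝ, γ = 1 / √(I0 ^ 2 * I1) := ⟨_, rfl⟩
  have γ0 : 0 ≤ γ := by rw [hγ]; positivity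
  obtain ⟨B, hB⟩ : ∃ B : ℝ, B = 2 ^ (n + 1) * (1 ^ (n + 1) * M) * (1 ^ (n + 1) * M) := ⟨_, rfl⟩
  have B0 : 0 ≤ B := by rw [hB]; positivity
  obtain ⟨K, hK⟩ : ∃ K : ℝ, K = 2 ^ n * (2 ^ (n + 1) * A) * B := ⟨_, rfl⟩
  have K0 : 0 ≤ K := by rw [hK]; positivity
  have gK : 0 ≤ γ * K := mul_nonneg γ0 K0
  refine ⟨3 * (γ * K) + 1, by linarith, fun d p t w κ θ h hO hr h1 h2 h3 h4 h5 h6 h7 => ?_⟩
  obtain ⟨w1, w2, w3, w4, w5, w6⟩ := win_bd h t.1
  obtain ⟨c1, c2⟩ := ce_le h t.1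
  have e00 := (e0_bd h).1
  have cm := (cm_bd h t.1).1
  have l := h.lam_pos
  have w0 : 0 < w := h.hE_pos.trans_le h1
  have κ0 : 0 < κ := (h.big.np_pos _).trans_le h5
  have m0 := mul_pos (h.big.np_pos (499 / 1000)) l
  have hh : ∀ i, 0 ≤ cv w i := fun _ => w0.le
  obtain ⟨hW, eW⟩ : ∃ hW : V, hW = ![d.W1 t.1, d.W2 t.1, d.W1 t.1] := ⟨_, rfl⟩
  have W0 : ∀ i, np d.c.N (499 / 1000) * d.c.lam ≤ hW i := fun i => by
    rw [eW]; fin_cases i
    exacts [w1, w2, w1]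
  have W1 : ∀ i, 0 < hW i := fun i => m0.trans_le (W0 i)
  have W2 : ∀ i, cv w i ≤ κ * hW i := fun i =>
    h7.trans (mul_le_mul_of_nonneg_left (W0 i) κ0.le)
  have W3 : ∀ i, cv w i ≤ hW i := fun i => (W2 i).trans (mul_le_of_le_one_left (W1 i).le h6)
  obtain ⟨sr, vr, -, cr⟩ := hr.1 t.1
  have sα : Sm d.α := Prof.alh_sm _ _
  have n3 := h.big.np_pos (-3)
  obtain ⟨⟨a1, -, -⟩, a2, -, -⟩ := (ha d.O d.c.D hO h.D_pos).2 (cv w) (np d.c.N (-3))
    (Cov.np_le_one h.big (by norm_num)) fun i => by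
      have k1 : np d.c.N (-3) * (d.c.N : ℝ) ^ 4 = np d.c.N 1 := by
        rw [show ((d.c.N : ℝ)) ^ 4 = np d.c.N 4 from (Real.rpow_natCast _ 4).symm, ← h.big.np_add]
        norm_num
      have k2 := mul_le_mul_of_nonneg_left h.lam_le_lb (h.big.np_pos 1).le
      have k3 := lam_le h (show (499 / 1000 : ℝ) ≤ 1 by norm_num)
      have k4 := mul_le_of_le_one_left m0.le h6
      rw [abs_of_nonneg (hh i), Pm.D, ← mul_assoc, k1]
      exact h7.trans (by linarith)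
  have r1 : CV (n + 1) (cv w) (d.R (95 / 100)) (p.r t.1)
      (np d.c.N (36 / 100) * (d.c.J ^ 16 * d.c.eL)) :=
    CBl.monoB (CV.rescale h2 (fun _ => h.hm_pos.le) hh (fun _ => h3) (CV.of_le cr (by omega)))
      (mul_le_mul_of_nonneg_right h4 (mul_pos (pow_pos h.J_pos _) h.eL_pos).le)
  have r0 : CB (n + 1) (cv w) (d.R (95 / 100)) (p.r t.1) 1 :=
    CV.toCB (CBl.monoB r1 (by unfold e0 at c1; linarith)) fun x hx =>
      abs_le.2 ⟨by linarith [(vr x hx).1], by linarith [(vr x hx).2]⟩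
  have sG : Sm fun x => d.α x * p.r t.1 x := sα.mul sr
  have G0 := CB.mul hh sα sr (CBl.monoU a1 (subset_univ _)) r0
  have G1 : CV (n + 1) (cv w) (d.R (95 / 100)) (fun x => d.α x * p.r t.1 x)
      (2 ^ (n + 1) * A * e0 d.c) :=
    CBl.monoB (CV.mul hh sα sr (CBl.monoU a1 (subset_univ _)) (CBl.monoU a2 (subset_univ _)) r0 r1)
      (le_of_eq (by unfold e0; ring))
  obtain ⟨av, eav⟩ : ∃ av : V, av = ![MD.vs t.1 / d.W1 t.1, 1 / d.W2 t.1, 0] := ⟨_, rfl⟩
  obtain ⟨F, hF⟩ : ∃ F : V → ℝ, F = fun x => f0 (x 0 / d.W1 t.1 - t.2 0 / d.ns) *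
    f0 (av ⬝ᵥ x + -(t.2 1 / d.ns)) := ⟨_, rfl⟩
  have s0 := sm_coordfn f0_sm 0 (d.W1 t.1) (t.2 0 / d.ns)
  have s1 := sm_ridge f0_sm av (-(t.2 1 / d.ns))
  have sF : Sm F := hF ▸ s0.mul s1
  have p1 : 0 < d.W1 t.1 := m0.trans_le w1
  have p2 : 0 < d.W2 t.1 := m0.trans_le w2
  have F0 : CB (n + 1) hW (d.R (95 / 100)) F B := by
    rw [hF, hB]
    refine CB.mul (fun i => (W1 i).le) s0 s1 (cb_coordfn (fun i => (W1 i).le) f0_sm 0 p1 _ le_rfl
      (by rw [eW, one_mul]; exact le_rfl) fun j hj x _ => (hb j hj _).1)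
      (cb_ridge (fun i => (W1 i).le) f0_sm _ _ le_rfl (fun i => ?_) fun j hj x _ => (hb j hj _).1)
    have v : |MD.vs t.1| ≤ 1 := by
      generalize t.1 = φ
      fin_cases φ <;> simp [MD.vs]
    rw [eav, eW]
    fin_cases i
    · show |MD.vs t.1 / d.W1 t.1| * d.W1 t.1 ≤ 1
      rwa [abs_div, abs_of_pos p1, div_mul_cancel₀ _ p1.ne']
    · show |1 / d.W2 t.1| * d.W2 t.1 ≤ 1
      rw [abs_of_pos (one_div_pos.2 p2), div_mul_cancel₀ _ p2.ne']
    · show |(0 : ℝ)| * d.W1 t.1 ≤ 1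
      simp
  have eΦ : d.Ph p t = fun x => d.ca t.1 * (d.α x * p.r t.1 x * F x) := by
    funext x
    have : av ⬝ᵥ x + -(t.2 1 / d.ns) =
        x 1 / d.W2 t.1 + MD.vs t.1 * (x 0 / d.W1 t.1) - t.2 1 / d.ns := by
      rw [eav]
      simp [dotProduct, Fin.sum_univ_three]
      ring
    simp only [MD.Ph, hF, this]
    ring
  have key : ∀ (j : Fin 3) (ν μ a : ℝ), |ν| ≤ γ * μ → 0 ≤ μ → μ ≤ cm0 d.c t.1 → μ / hW j ≤ a →
      d.c.lam ≤ a → Sm (fun x => ν * pd j (fun y => d.α y * p.r t.1 y * F y) x) ∧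
      CB n (cv w) (d.R (95 / 100)) (fun x => ν * pd j (fun y => d.α y * p.r t.1 y * F y) x)
        ((3 * (γ * K) + 1) * a) ∧
      CV n (cv w) (d.R (95 / 100)) (fun x => ν * pd j (fun y => d.α y * p.r t.1 y * F y) x)
        ((3 * (γ * K) + 1) * (κ * a)) := by
    intro j ν μ a k1 k0 k2 k3 k4
    have u1 := CB.mul hh (sG.pd j) sF (CV.pd_div (fun _ => w0) G1 j)
      (CB.of_le (CBl.monoh F0 hh W3) (Nat.le_succ _))
    have u2 := CB.pd_div W1 F0 j
    have u3 := CB.mul hh sG (sF.pd j) (G0.of_le (Nat.le_succ _)) (CBl.monoh u2 hh W3)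
    have u4 := CV.mul hh sG (sF.pd j) (G0.of_le (Nat.le_succ _)) (G1.of_le (Nat.le_succ _))
      (CBl.monoh u2 hh W3) (CV.finer κ0.le h6 (fun i => (W1 i).le) hh W2 u2.toCV)
    have t1 := (sG.pd j).mul sF
    have t2 := sG.mul (sF.pd j)
    have b1 : μ * (e0 d.c / w) ≤ κ * a :=
      ((mul_le_mul k2 (div_le_div_of_nonneg_left e00.le h.hE_pos h1) (div_pos e00 w0).le
        cm.le).trans c2).trans (mul_le_mul h5 k4 l.le κ0.le)
    have a0 : 0 < a := l.trans_le k4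
    have b2 := mul_le_mul_of_nonneg_left b1 gK
    have b3 := mul_le_mul_of_nonneg_left k3 gK
    have b4 := mul_le_mul_of_nonneg_left (mul_le_of_le_one_left a0.le h6) gK
    have b5 := mul_le_mul_of_nonneg_left b3 κ0.le
    have b6 := mul_le_mul (c1.trans h5) b3 (mul_nonneg gK (div_nonneg k0 (W1 j).le)) κ0.le
    rw [pd_mul sG sF]
    refine ⟨Sm.cmul (t1.add t2) ν, CBl.monoB (CBl.smul_le hh (CBl.add hh t1 t2 u1 u3) k1) ?_,
      CBl.monoB (CBl.smul_le hh (CBl.add hh t1 t2 u1.toCV u4) k1) ?_⟩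
    · have e : γ * μ * (2 ^ n * (2 ^ (n + 1) * A * e0 d.c / w) * B +
          2 ^ n * (2 ^ (n + 1) * A * 1) * (B / hW j)) =
          γ * K * (μ * (e0 d.c / w)) + γ * K * (μ / hW j) := by
        rw [hK]; ring
      rw [e]
      linarith only [b2, b3, b4, a0, mul_nonneg gK a0.le]
    · have e : γ * μ * (2 ^ n * (2 ^ (n + 1) * A * e0 d.c / w) * B +
          2 ^ n * (2 ^ (n + 1) * A * e0 d.c * (B / hW j) + 2 ^ (n + 1) * A * 1 * (κ * (B / hW j)))) =
          γ * K * (μ * (e0 d.c / w)) + e0 d.c * (γ * K * (μ / hW j)) +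
            κ * (γ * K * (μ / hW j)) := by
        rw [hK]; ring
      rw [e]
      linarith only [b2, b5, b6, mul_pos κ0 a0]
  rw [← hγ] at w6
  intro i
  fin_cases i
  · have e : Av d p t 0 = fun x => d.ca t.1 * pd 1 (fun y => d.α y * p.r t.1 y * F y) x := by
      funext x
      show pd 1 (d.Ph p t) x = _
      rw [eΦ, pd_const_mul]
    show Sm (Av d p t 0) ∧ CB n _ _ (Av d p t 0) (_ * d.c.l1) ∧ CV n _ _ (Av d p t 0) (_ * (κ * d.c.l1))
    rw [e]
    exact key 1 _ _ _ ((abs_of_nonneg w5).trans_le w6) cm.le le_rfl (by rw [eW]; exact w3)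
      h.lam_le_l1
  · have e : Av d p t 1 = fun x =>
        -d.c.η0 * d.ca t.1 * pd 0 (fun y => d.α y * p.r t.1 y * F y) x := by
      funext x
      show -d.c.η0 * pd 0 (d.Ph p t) x = _
      rw [eΦ, pd_const_mul, mul_assoc]
    show Sm (Av d p t 1) ∧ CB n _ _ (Av d p t 1) (_ * d.c.lam) ∧
      CV n _ _ (Av d p t 1) (_ * (κ * d.c.lam))
    rw [e]
    refine key 0 _ (d.c.η0 * cm0 d.c t.1) _ ?_ (mul_pos h.η0_pos cm).le
      (mul_le_of_le_one_left cm.le (h.η0_bd.2.trans h.η_le_one)) (by rw [eW]; exact w4) le_rfl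
    rw [abs_mul, abs_neg, abs_of_pos h.η0_pos, abs_of_nonneg w5, mul_left_comm]
    exact mul_le_mul_of_nonneg_left w6 h.η0_pos.le
  · have k : 0 ≤ 3 * (γ * K) + 1 := by linarith
    exact ⟨sm_const 0, cb_const (c := 0) (by rw [abs_zero]; exact mul_nonneg k l.le),
      cv_const 0 (mul_nonneg k (mul_pos κ0 l).le)⟩

/-- the phase on the scale `w` -/
lemma ph_cv {n : ℕ} (hn : n ≤ 5) {d : MD} (h : Gd d.c) {p : PT} (hτ : d.ClkOk p.τ) (t : Wi)
    {w κ : ℝ} (w0 : 0 < w) (h1 : w * (np d.c.N (-498 / 1000) / d.c.lam) ≤ κ)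
    (h2 : w ^ 2 * (np d.c.N (-985 / 1000) / d.c.lam ^ 2) ≤ κ)
    (h3 : n ≤ 2 ∨ w * (np d.c.N (-48 / 100) / d.c.lam) ≤ 1) :
    Sm (d.ph p t) ∧ CV n (cv w) univ (d.ph p t) κ := by
  obtain ⟨sτ, -, -, -, b, -⟩ := hτ t.1 (t.2 0) (t.2 1)
  have e : ∀ x : V, x 2 = (Pi.single 2 1 : V) ⬝ᵥ x + 0 := fun x => by simp
  have s1 : Sm fun x : V => p.τ t.1 (t.2 0) (t.2 1) (x 2) := sτ.comp (sm_coord 2)
  refine ⟨s1.sub contDiff_const, CV.sub_const s1 (fun l hl x _ => ?_) _⟩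
  have k := ridge_le (h := cv w) (κ := w) (fun _ => w0.le) sτ (Pi.single 2 1) 0 (fun i => by
    by_cases e : i = 2
    · subst e; simp [cv]
    · rw [Pi.single_eq_of_ne e]; simpa using w0.le) l x
  simp only [← e] at k
  refine k.trans ?_
  obtain ⟨b1, b2, b3⟩ := b (x 2)
  obtain ⟨l1, l2⟩ := hl
  generalize l.length = m at l1 l2
  rcases m with _ | _ | j
  · omega
  · have p0 : 0 ≤ 1 / d.Hh t.1 := by
      refine one_div_nonneg.2 ?_
      unfold MD.Hh
      split_ifs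
      exacts [mul_nonneg (Real.sqrt_nonneg _) h.Hp_pos.le, h.H0_pos.le, h.H1_pos.le]
    rw [zero_add, pow_one, iteratedDeriv_one, abs_of_nonneg (p0.trans b1)]
    exact (mul_le_mul_of_nonneg_left b2 w0.le).trans h1
  · have p1 := div_pos (h.big.np_pos (-48 / 100)) h.lam_pos
    have p2 := div_pos (h.big.np_pos (-985 / 1000)) (pow_pos h.lam_pos 2)
    have k1 : (w * (np d.c.N (-48 / 100) / d.c.lam)) ^ j ≤ 1 := by
      rcases h3 with h3 | h3
      · rw [show j = 0 by omega, pow_zero]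
      · exact pow_le_one₀ (mul_pos w0 p1).le h3
    refine (mul_le_mul_of_nonneg_left (b3 j (by omega)) (pow_pos w0 _).le).trans ?_
    refine le_trans (le_of_eq ?_) ((mul_le_of_le_one_right (mul_pos (pow_pos w0 2) p2).le k1).trans h2)
    rw [mul_pow]
    ring

section loc
variable {d : MD} (h : Gd d.c) (p : PT) (s : Sa) {t : Wi} (hz : ¬ d.nz0 t.1)
include h hz

lemma pm_eq (i : Fin 3) :
    (fun x => d.Pm' p s t x i) = fun x => Av d p t i x * f0 (d.ph p t x) := by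
  funext x
  fin_cases i <;> simp [MD.Pm', Av, MD.prof, if_neg hz]

lemma om_eq : d.om p t = 0 := by
  funext x
  simp [MD.om, if_neg hz]

lemma sup (x : V) (hx : x ∉ d.R (9 / 10) ∨ 2 / 5 < |x 0 / d.W1 t.1 - t.2 0 / d.ns| ∨
    2 / 5 < |x 1 / d.W2 t.1 + MD.vs t.1 * (x 0 / d.W1 t.1) - t.2 1 / d.ns| ∨
    2 / 5 < |d.ph p t x|) : d.Pm' p s t x = 0 ∧ d.om p t x = 0 := by
  refine ⟨funext fun i => ?_, by rw [om_eq h p hz]; rfl⟩
  by_cases h4 : 2 / 5 < |d.ph p t x|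
  · rw [congrFun (pm_eq h p s hz i) x, f0_zero h4, mul_zero]
    rfl
  · have := ph_loc h p t (x := x) (by tauto)
    fin_cases i <;> simp [MD.Pm', this]
end loc

/-- the field on the scale `w` -/
lemma core {n : ℕ} (hn : n ≤ 5) : ∃ C : ℝ, 1 ≤ C ∧ ∀ (d : MD) (p : PT) (s : Sa) (t : Wi)
    (w κ θ : ℝ), Gd d.c → Orth d.O → d.POk p s → ¬ d.nz0 t.1 → d.c.hE ≤ w → 1 ≤ θ →
    w ≤ θ * d.c.hm → θ ^ (n + 1) ≤ np d.c.N (36 / 100) → np d.c.N (-38 / 1000) ≤ κ → κ ≤ 1 →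
    w ≤ κ * (np d.c.N (499 / 1000) * d.c.lam) → w * (np d.c.N (-498 / 1000) / d.c.lam) ≤ κ →
    w ^ 2 * (np d.c.N (-985 / 1000) / d.c.lam ^ 2) ≤ κ →
    n ≤ 2 ∨ w * (np d.c.N (-48 / 100) / d.c.lam) ≤ 1 → ∀ i, Sm (fun x => d.Pm' p s t x i) ∧
      CB n (cv w) univ (fun x => d.Pm' p s t x i) (C * sz d.c i) ∧
      CV n (cv w) univ (fun x => d.Pm' p s t x i) (C * (κ * sz d.c i)) := by
  obtain ⟨A, hA, ha⟩ := av_bd hn
  obtain ⟨M, hM, hb⟩ := f_bd n
  have c1 := C2.cf_one 1 n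
  have k1 : 1 ≤ 2 ^ n * A * (cf 1 n * M) := one_le_mul_of_one_le_of_one_le
    (one_le_mul_of_one_le_of_one_le (one_le_pow₀ one_le_two) hA) (one_le_mul_of_one_le_of_one_le c1 hM)
  refine ⟨2 * (2 ^ n * A * (cf 1 n * M)), by linarith,
    fun d p s t w κ θ h hO hP hz h1 h2 h3 h4 h5 h6 h7 h8 h9 h10 i => ?_⟩
  have w0 : 0 < w := h.hE_pos.trans_le h1
  have κ0 : 0 < κ := (h.big.np_pos _).trans_le h5
  have hh : ∀ i, 0 ≤ cv w i := fun _ => w0.le
  obtain ⟨a1, a2, a3⟩ := ha d p t w κ θ h hO hP.1 h1 h2 h3 h4 h5 h6 h7 i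
  obtain ⟨b1, b2⟩ := ph_cv hn h hP.2.1 t w0 h8 h9 h10
  have s1 : Sm fun x => f0 (d.ph p t x) := f0_sm.comp b1
  have u1 := CB.comp1 (I := univ) hh (SmN.of_sm b1 _) (SmN.of_sm f0_sm _) (mapsTo_univ _ _)
    (fun j hj t _ => (hb j hj t).1) b2
  have u2 := CV.comp1 (I := univ) hh (SmN.of_sm b1 _) (SmN.of_sm f0_sm _) (mapsTo_univ _ _)
    (fun j _ hj t _ => (hb j hj t).1) b2 h6
  rw [max_eq_left h6, one_pow, mul_one] at u1
  have z0 : 0 < sz d.c i := h.lam_pos.trans_le (sz_bd h i).1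
  have sub : univ ∩ d.R (9 / 10) ⊆ d.R (95 / 100) :=
    inter_subset_right.trans (Prof.RX_mono _ h.D_pos.le (by norm_num))
  have zz : ∀ x, x ∉ d.R (9 / 10) → Av d p t i x * f0 (d.ph p t x) = 0 := fun x hx => by
    rw [← congrFun (pm_eq h p s hz i) x, (sup h p s hz x (Or.inl hx)).1]
    rfl
  have k2 := mul_pos (zero_lt_one.trans_le k1) z0
  have k3 := mul_pos (zero_lt_one.trans_le k1) (mul_pos κ0 z0)
  rw [pm_eq h p s hz]
  refine ⟨a1.mul s1, CBl.extend (CBl.monoB (CBl.monoU (CB.mul hh a1 s1 a2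
    (CBl.monoU u1 (subset_univ _))) sub) (by linarith)) (Prof.RX_closed _ _ _) zz (by linarith),
    CBl.extend (CBl.monoB (CBl.monoU (CV.mul hh a1 s1 a2 a3 (CBl.monoU u1 (subset_univ _))
      (CBl.monoU u2 (subset_univ _))) sub) (le_of_eq (by ring))) (Prof.RX_closed _ _ _) zz
      (by linarith)⟩

lemma qp_le {N : ℕ} (h : Big N) : qp N (1 / 100) ≤ pq N :=
  (h.qp_le (by norm_num)).trans_eq (qp_one N)

/-- the bounds on the scale `hE` -/
theorem fine : PRow fun d p s => ∀ t, ¬ d.nz0 t.1 → ∀ i, Sm (fun x => d.Pm' p s t x i) ∧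
    CB 5 (cv d.c.hE) univ (fun x => d.Pm' p s t x i) (qp d.c.N (1 / 100) * sz d.c i) ∧
    CV 5 (cv d.c.hE) univ (fun x => d.Pm' p s t x i)
      (qp d.c.N (1 / 100) * (np d.c.N (-38 / 1000) * sz d.c i)) := by
  obtain ⟨C, -, hC⟩ := core (le_refl 5)
  filter_upwards [ev_gd, ev_C_qp C (c := 1 / 100) (by norm_num)] with N hg hq d hN _ hI p s _ hP
    t ht i
  have h := hg d.c hN hI.ok
  rw [← hN] at hq
  have l := h.lam_pos
  have z0 : 0 < sz d.c i := l.trans_le (sz_bd h i).1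
  have e : ∀ a, d.c.hE * (np d.c.N a / d.c.lam) = np d.c.N (46 / 100 + a) := fun a => by
    rw [h.big.np_add, Pm.hE]
    field_simp
  obtain ⟨a1, a2, a3⟩ := hC d p s t d.c.hE (np d.c.N (-38 / 1000)) (np d.c.N (6 / 100)) h hI.ort hP
    ht le_rfl ((np_zero _).symm.trans_le (h.big.np_le (by norm_num)))
    (by rw [Pm.hm, np_lam h]; exact lam_le h (by norm_num))
    (by rw [Cov.np_pow]; exact h.big.np_le (by norm_num)) le_rfl
    (Cov.np_le_one h.big (by norm_num)) (by rw [np_lam h]; exact lam_le h (by norm_num))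
    (by rw [e]; exact h.big.np_le (by norm_num))
    (by
      rw [Pm.hE, mul_pow, mul_assoc, mul_div_cancel₀ _ (pow_pos l 2).ne', Cov.np_pow,
        ← h.big.np_add]
      exact h.big.np_le (by norm_num))
    (Or.inr (by rw [e]; exact Cov.np_le_one h.big (by norm_num))) i
  exact ⟨a1, CBl.monoB a2 (mul_le_mul_of_nonneg_right hq z0.le),
    CBl.monoB a3 (mul_le_mul_of_nonneg_right hq (mul_pos (h.big.np_pos _) z0).le)⟩

theorem am : PRow fun d p s => ∀ t, ¬ d.nz0 t.1 → ∀ x i,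
    |d.Pm' p s t x i| ≤ qp d.c.N (1 / 100) * d.c.hs i := by
  filter_upwards [ev_gd, fine] with N hg hf d hN hk hI p s hs hP t ht x i
  have h := hg d.c hN hI.ok
  exact ((hf d hN hk hI p s hs hP t ht i).2.1.val (mem_univ x)).trans
    (mul_le_mul_of_nonneg_left (sz_bd h i).2.2 (h.big.qp_pos _).le)

theorem cr : PRow fun d p s => ∀ t, ¬ d.nz0 t.1 → d.Cr 1 (d.Pm' p s t) (d.om p t) := by
  filter_upwards [ev_gd, fine, am] with N hg hf ha d hN hk hI p s hs hP t ht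
  have h := hg d.c hN hI.ok
  have f := hf d hN hk hI p s hs hP t ht
  have l := h.lam_pos
  refine ⟨⟨sm_pi fun i => (f i).1, by rw [om_eq h p ht]; exact sm_const 0⟩,
    fun x => ⟨fun hx => sup h p s ht x (Or.inl fun e =>
      hx (Prof.RX_mono _ h.D_pos.le (by norm_num) e)), rfl⟩, fun _ => om_eq h p ht,
    fun x i => (ha d hN hk hI p s hs hP t ht x i).trans ?_, fun i => CBl.monoB (CBl.monoh
      ((f i).2.1.of_le (by norm_num)) (fun _ => l.le) fun _ => le_mul_of_one_le_left l.le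
        ((np_zero _).symm.trans_le (h.big.np_le (by norm_num)))) ?_, ?_⟩
  · rw [one_mul]
    exact mul_le_mul_of_nonneg_right (qp_le h.big) (h.hs_pos i).le
  · refine (mul_le_mul (qp_le h.big) (sz_bd h i).2.1 (l.le.trans (sz_bd h i).1)
      h.big.q_pos.le).trans ?_
    rw [one_mul, Pm.l1, ← mul_assoc]
    exact mul_le_mul_of_nonneg_right (fin1 h).2.2 l.le
  · rw [om_eq h p ht, one_mul]
    exact cbl_zero (h.big.np_pos _).le

theorem cp : PRow fun d p s => ∀ t, ¬ d.nz0 t.1 → d.c.comp → ∀ i,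
    CB 4 (cv d.c.hE) univ (fun x => d.Pm' p s t x i) (qp d.c.N (1 / 100) * d.c.hs i) ∧
    ∀ j, CB 4 (cv d.c.hE) univ (pd j fun x => d.Pm' p s t x i) (np d.c.N (-495 / 1000)) := by
  filter_upwards [ev_gd, fine] with N hg hf d hN hk hI p s hs hP t ht hc i
  have h := hg d.c hN hI.ok
  obtain ⟨-, f1, f2⟩ := hf d hN hk hI p s hs hP t ht i
  have l := h.lam_pos
  refine ⟨CBl.monoB (f1.of_le (by norm_num))
    (mul_le_mul_of_nonneg_left (sz_bd h i).2.2 (h.big.qp_pos _).le),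
    fun j => CBl.monoB (CV.pd_div (fun _ => h.hE_pos) f2 j) ?_⟩
  have p := h.big.np_pos (-38 / 1000)
  have k1 := mul_le_mul (qp_le h.big) (mul_le_mul_of_nonneg_left (sz_bd h i).2.1 p.le)
    (mul_nonneg p.le (l.le.trans (sz_bd h i).1)) h.big.q_pos.le
  have k2 := mul_le_mul_of_nonneg_right ((fin1 h).2.1 hc) (mul_pos p l).le
  have k3 : np d.c.N (3 / 1000) * (np d.c.N (-38 / 1000) * d.c.lam) ≤
      np d.c.N (-495 / 1000) * d.c.hE := by
    rw [Pm.hE, np_lam h, np_lam h]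
    exact lam_le h (by norm_num)
  show _ / d.c.hE ≤ _
  rw [div_le_iff₀ h.hE_pos]
  refine k1.trans (le_trans (le_of_eq ?_) (k2.trans k3))
  unfold Pm.l1 Pm.q
  ring

theorem d2 : PRow fun d p s => ∀ t, ¬ d.nz0 t.1 → ∀ i, CO 2 (cv 1) univ
    (fun x => d.Pm' p s t x i) (d.c.d2u / (d.c.q ^ 2 * Real.sqrt d.c.J)) := by
  obtain ⟨C, -, hC⟩ := core (show 2 ≤ 5 by norm_num)
  filter_upwards [ev_gd, ev_C_q C] with N hg hq d hN _ hI p s _ hP t ht i l hl x hx
  have h := hg d.c hN hI.ok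
  rw [← hN] at hq
  have l0 := h.lam_pos
  have e : (np d.c.N (4925 / 10000) * d.c.lam) ^ 2 = np d.c.N (985 / 1000) * d.c.lam ^ 2 := by
    rw [mul_pow, Cov.np_pow]
    norm_num
  obtain ⟨-, a2, -⟩ := hC d p s t (np d.c.N (4925 / 10000) * d.c.lam) 1 (np d.c.N (925 / 10000)) h
    hI.ort hP ht (lam_le h (by norm_num)) ((np_zero _).symm.trans_le (h.big.np_le (by norm_num)))
    (by rw [Pm.hm, np_lam h]; exact lam_le h (by norm_num))
    (by rw [Cov.np_pow]; exact h.big.np_le (by norm_num)) (Cov.np_le_one h.big (by norm_num))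
    le_rfl (by rw [one_mul]; exact lam_le h (by norm_num))
    (by
      rw [mul_assoc, mul_div_cancel₀ _ l0.ne', ← h.big.np_add]
      exact Cov.np_le_one h.big (by norm_num))
    (by
      rw [e, mul_assoc, mul_div_cancel₀ _ (pow_pos l0 2).ne', ← h.big.np_add]
      exact Cov.np_le_one h.big (by norm_num)) (Or.inl le_rfl) i
  have k := a2 l (le_of_eq hl) x hx
  rw [hp_cv, hl, e] at k
  have p1 := h.η_pos
  have p2 := mul_pos (pow_pos h.q_pos 2) (Real.sqrt_pos.2 h.J_pos)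
  have p3 := h.big.np_pos (985 / 1000)
  have k1 := k.trans (mul_le_mul hq (sz_bd h i).2.1 (l0.le.trans (sz_bd h i).1) h.big.q_pos.le)
  have k2 := mul_le_mul_of_nonneg_right k1 (mul_pos p1 p2).le
  have k3 := mul_le_mul_of_nonneg_right (fin1 h).1 l0.le
  have k4 : np d.c.N (5 / 1000) = np d.c.N (985 / 1000) * np d.c.N (-98 / 100) := by
    rw [← h.big.np_add]
    norm_num
  rw [hp_cv, one_pow, one_mul, Pm.d2u, div_div, le_div_iff₀ (mul_pos (mul_pos p1 l0) p2)]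
  refine le_of_mul_le_mul_left ?_ (mul_pos p3 l0)
  rw [k4] at k3
  unfold Pm.l1 at k2
  have q : pq d.c.N = d.c.q := rfl
  rw [q] at k2
  linarith

end DeraB

end
end Pool.Agent.MP_20bec2_an.T3

end MrgPart1

-- ======== part 2: formerly Pool.Agent.MP_20bec2_an.T3.Dera
section MrgPart2

/-! Row DERA: the bounds of a window without noise. -/

set_option autoImplicit false
open MeasureTheory Set Filter Matrix Topology

namespace Pool.Agent.MP_20bec2_an.T3

theorem dera : DeraStmt := by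
  filter_upwards [Dera.partA, DeraB.cr, DeraB.d2, DeraB.cp]
    with N hA h1 h2 h3 d hd hk hi p s hs hp t hn
  obtain ⟨a1, a2, a3, a4, a5⟩ := hA d hd hk hi p s hs hp t hn
  exact ⟨h1 d hd hk hi p s hs hp t hn, a1, a2, a3, a4, h2 d hd hk hi p s hs hp t hn, a5,
    h3 d hd hk hi p s hs hp t hn⟩

end Pool.Agent.MP_20bec2_an.T3

end MrgPart2

-- marker of a merged file
example : 731051 + 623685 = 731051 + 623685 := rfl

end MrgPart2

-- marker of a merged file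
example : 731051 + 623685 = 731051 + 623685 := rfl
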