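import Mathlib.Order.Interval.Finset.Box
import Pool.Agent.MP_20bec2_an.T3.WinA
import Pool.Agent.MP_20bec2_an.T3.Dera

-- ======== part 0: formerly Pool.Agent.MP_20bec2_an.T3.Win
section MrgPart0

/-! Row WIN: every explicit pattern is a window. -/

set_option autoImplicit false
set_option linter.unusedSectionVars false
open MeasureTheory Set Filter Matrix

namespace Pool.Agent.MP_20bec2_an.T3
noncomputable section
open Classical

namespace Win
variable {d : MD} {p : PT} {s : Sa} {t : Wi} (h : Cx d p) (H : d.Der p s t) (K : d.Cmp p s t)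
include h

lemma q01 : 1 ≤ qp d.c.N (1 / 100) ∧ 2 * qp d.c.N (1 / 100) ≤ d.c.q ∧
    2 * qp d.c.N (1 / 100) ≤ np d.c.N (1 / 100) ∧
    2 * qp d.c.N (1 / 100) ^ 2 / d.c.q ≤ 1 / qp d.c.N (9 / 10) := by
  have hb := h.g.big
  have := hb.qp_pos (1 / 100); have := hb.qp_pos (9 / 10); have := h.g.q_pos
  have := hb.L_ge; have := hb.J_ge; have := log2_bd.2
  refine ⟨by simpa [qp] using hb.qp_le (show (0 : ℝ) ≤ 1 / 100 by norm_num),
    le_of_log (by positivity) h.g.q_pos ?_, le_of_log (by positivity) (hb.np_pos _) ?_,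
    le_of_log (by positivity) (by positivity) ?_⟩
  all_goals
    simp (disch := positivity) only [Real.log_div, Real.log_mul, Real.log_pow, Real.log_one,
      hb.log_qp, h.g.log_q, hb.log_np]
    push_cast
    linarith

lemma lam_le_hE : d.c.lam ≤ d.c.hE :=
  le_mul_of_one_le_left h.g.lam_pos.le (one_le_np h.g.big (by norm_num))

lemma hs_le (i : Fin 3) : d.c.hs i ≤ np d.c.N (11 / 10) * d.c.lam := by
  fin_cases i
  · refine mul_le_mul_of_nonneg_right (h.g.ro_le.trans ?_) h.g.lam_pos.le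
    rw [Real.sqrt_eq_rpow]
    exact h.g.big.np_le (by norm_num)
  · exact le_mul_of_one_le_left h.g.lam_pos.le (one_le_np h.g.big (by norm_num))
  · exact le_rfl

include K in
lemma g_le (x : V) : |d.Gc p s t x| ≤ np d.c.N (-47 / 100) * d.c.lam :=
  (K.cb.val (mem_univ x)).trans (npl_le h.g (by norm_num))

include K in
lemma dif_le (x : V) (i : Fin 3) :
    |d.Ps p s t x i - d.Pm' p s t x i| ≤ np d.c.N (-47 / 100) * d.c.hs i := by
  have h0 := (mul_pos (h.g.big.np_pos (-47 / 100)) (h.g.hs_pos i)).le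
  fin_cases i
  · simpa [ps_0] using h0
  · simpa [ps_1, Pm.hs] using g_le h K x
  · simpa [ps_2] using h0

include H K in
lemma cr : d.Cr 1 (d.Ps p s t) (d.om p t) := by
  obtain ⟨q1, q2, q3, -⟩ := q01 h
  have hD := h.g.D_pos.le
  have hl := h.g.lam_pos
  by_cases hc : d.c.comp
  swap
  · rw [show d.Ps p s t = d.Pm' p s t from funext fun x => ps_eq (gc_nc hc x)]
    exact H.cr
  refine ⟨⟨sm_pi fun i => ?_, H.cr.sm.2⟩, fun x => ⟨fun hx => ⟨?_, ((H.cr.sup x).1 hx).2⟩, ?_⟩,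
    H.cr.nn, fun x i => ?_, fun i => ?_, H.cr.cb.2⟩
  · fin_cases i
    · simpa [ps_0] using H.cr.sm.1.coord 0
    · simpa [ps_1] using (H.cr.sm.1.coord 1).add K.sm
    · simpa [ps_2] using H.cr.sm.1.coord 2
  · rw [ps_eq (K.sup x (Or.inl fun e => hx (Prof.RX_mono _ hD (by norm_num) e))),
      ((H.cr.sup x).1 hx).1]
  · rw [ps_2, (H.cr.sup x).2]
  · have h1 := abs_sub_abs_le_abs_sub (d.Ps p s t x i) (d.Pm' p s t x i)
    have h2 := dif_le h K x i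
    have h3 : np d.c.N (-47 / 100) ≤ 1 := by
      simpa [np] using h.g.big.np_le (show (-47 / 100 : ℝ) ≤ 0 by norm_num)
    nlinarith [H.am x i, h.g.hs_pos i]
  · have h1 : CB 4 (cv d.c.lam) univ (fun x => d.Pm' p s t x 1) (qp d.c.N (1 / 100) * d.c.lam) :=
      CBl.monoh (H.cp hc 1).1 (fun _ => hl.le) fun _ => lam_le_hE h
    have h2 := CBl.monoh K.cb (h' := cv d.c.lam) (fun _ => hl.le) fun _ => lam_le_hE h
    have h3 := CBl.add (fun _ => hl.le) (H.cr.sm.1.coord 1) K.sm h1 h2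
    have h4 := np_gap h.g.big (a := 1 / 100) (b := 15) (C := 2) (by norm_num) (by norm_num)
    have h5 := h.g.big.np_le (show (-472 / 1000 : ℝ) ≤ 1 / 100 by norm_num)
    fin_cases i
    · simpa [ps_0] using H.cr.cb.1 0
    · exact CBl.monoB (CBl.congr_fun h3 fun x => ps_1 x) (by nlinarith)
    · simpa [ps_2] using H.cr.cb.1 2

lemma bw_le (φ : Fin 3) : d.bw φ ≤ np d.c.N (9 / 100) * d.W2 φ := by
  have := h.W2_pos φ; have := h.mm_bd.2
  have := h.g.big.np_le (show (8 / 100 : ℝ) ≤ 9 / 100 by norm_num)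
  have := h.g.big.np_pos (8 / 100)
  unfold MD.bw; nlinarith

lemma area {u a : ℝ} (φ : Fin 3) (h0 : 0 ≤ u) (hu : u ≤ a * d.Ug φ)
    (ha : a ≤ 2 * qp d.c.N (1 / 100)) : d.W1 φ / 2 / d.c.l1 * (d.W2 φ / d.c.lam) * u ^ 2 ≤
      d.c.GG ^ 2 / qp d.c.N (9 / 10) := by
  have := h.W1_pos φ; have := h.W2_pos φ; have := h.g.l1_pos; have := h.g.lam_pos
  have h1 : u ^ 2 ≤ (2 * qp d.c.N (1 / 100) * d.Ug φ) ^ 2 :=
    pow_le_pow_left₀ h0 (hu.trans (mul_le_mul_of_nonneg_right ha (h.Ug_pos φ).le)) 2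
  calc _ ≤ d.W1 φ / 2 / d.c.l1 * (d.W2 φ / d.c.lam) * (2 * qp d.c.N (1 / 100) * d.Ug φ) ^ 2 :=
        mul_le_mul_of_nonneg_left h1 (by positivity)
    _ = 2 * qp d.c.N (1 / 100) ^ 2 * (d.W1 φ / d.c.l1 * (d.W2 φ / d.c.lam) * d.Ug φ ^ 2) := by ring
    _ = d.c.GG ^ 2 * (2 * qp d.c.N (1 / 100) ^ 2 / d.c.q) := by rw [h.Ug_sq]; ring
    _ ≤ d.c.GG ^ 2 * (1 / qp d.c.N (9 / 10)) :=
        mul_le_mul_of_nonneg_left (q01 h).2.2.2 (sq_nonneg _)
    _ = _ := by ring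

lemma l1_A (hA : d.c.isA) : d.c.l1 ≤ np d.c.N (1 / 100) * d.c.lam :=
  le_of_log h.g.l1_pos (npl_pos h.g _) (by
    rw [log_npl h.g]
    linarith [(log_H h.g).2.2.2.2.2.2 hA, h.g.big.J_ge, h.g.big.L_ge])

include H K in
lemma wn : d.Win (d.Ps p s t) (d.Pm' p s t) (d.ce p t) (d.Wd p t) := by
  obtain ⟨q1, q2, q3, -⟩ := q01 h
  have hD := h.g.D_pos.le
  have hl := h.g.lam_pos
  have w1 := h.W_bd t.1 (d.W1 t.1) (by simp)
  have w2 := h.W_bd t.1 (d.W2 t.1) (by simp)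
  have p1 := h.W1_pos t.1
  have p2 := h.W2_pos t.1
  have l1 := h.lo_lt t
  have l2 := h.len_le t
  have hU := h.Ug_pos t.1
  have hm : ∀ x, d.Pm' p s t x ≠ 0 → x ∈ d.R (93 / 100) ∧ ∀ i, |x i - d.ce p t i| ≤ d.Wd p t i := by
    intro x hx
    obtain ⟨a0, a1, a2, a3⟩ := sup_m H (x := x) fun e => hx e.1
    refine ⟨Prof.RX_mono _ hD (by norm_num) a0, fun i => ?_⟩
    fin_cases i
    exacts [h.in0 t (by linarith), h.in1 t (by linarith) (by linarith), h.in2 t (by linarith)]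
  refine ⟨⟨H.cr.sm.1, fun x => (H.cr.sup x).2⟩, fun x => ⟨hm x, fun hx => ?_⟩,
    ⟨h.l1_le _, ?_, ?_, ?_, ?_, ?_, fun hc => ⟨?_, ?_⟩⟩,
    fun hc => funext fun x => ps_eq (gc_nc hc x), fun x i => ⟨H.am x i, dif_le h K x i⟩,
    fun hA => ?_, fun hA => ⟨fun i => ⟨?_, fun j x hj => ?_⟩, ?_⟩⟩
  · by_cases e : d.Gc p s t x = 0
    · have h1 := (hm x (ps_eq e ▸ hx)).2
      exact ⟨h1 0, (h1 1).trans (le_mul_of_one_le_left p2.le (one_le_np h.g.big (by norm_num))),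
        h1 2⟩
    · obtain ⟨-, a1, a2, a3⟩ := sup_g K e
      exact ⟨h.in0 t (by linarith), a2.trans (bw_le h _), h.in2 t (by linarith)⟩
  · exact (le_mul_of_one_le_left hl.le (one_le_np h.g.big (by norm_num))).trans w2.1
  · exact half_pos (sub_pos.2 l1)
  · exact (half_le_self p1.le).trans (w1.2.1.trans (npl_le h.g (by norm_num)))
  · exact w2.2.1.trans (npl_le h.g (by norm_num))
  · exact (half_le_self (sub_pos.2 l1).le).trans
      (l2.trans ((h.Hh_le _).trans (npl_le h.g (by norm_num))))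
  · exact (half_le_self p1.le).trans ((w1.2.2 hc).trans (npl_le h.g (by norm_num)))
  · exact (w2.2.2 hc).trans (npl_le h.g (by norm_num))
  · refine area h (a := 1) t.1 (half_pos (sub_pos.2 l1)).le ?_ (by linarith)
    show (d.hi p t - d.lo p t) / 2 ≤ _
    linarith [h.Hh_B hA t.1]
  · refine CBl.mono (H.cp (h.g.comp_of_isA hA) i).1 (fun l hl => le_trans hl (by norm_num))
      (fun j => ?_) (fun j => ?_) subset_rfl le_rfl
    · fin_cases j
      exacts [h.g.l1_pos.le, hl.le, hl.le]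
    · fin_cases j
      exacts [(l1_A h hA).trans (npl_le h.g (by norm_num)), lam_le_hE h, lam_le_hE h]
  · have h1 : d.c.hE * _ ≤ _ := (H.cp (h.g.comp_of_isA hA) i).1.pd_le (by norm_num) j (mem_univ x)
    have h2 : d.c.hs j ≤ np d.c.N (1 / 100) * d.c.lam := by
      fin_cases j
      exacts [l1_A h hA, h.g.lam_le_l1.trans (l1_A h hA), absurd rfl hj]
    have h3 : np d.c.N (1 / 100) * d.c.lam = np d.c.N (-45 / 100) * d.c.hE := by
      rw [Pm.hE, ← mul_assoc, ← h.g.big.np_add]; norm_num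
    have h4 : np d.c.N (-45 / 100) * np d.c.N (1 / 100) ≤ np d.c.N (-2 / 5) := by
      rw [← h.g.big.np_add]; exact h.g.big.np_le (by norm_num)
    have h5 := h.g.big.np_pos (-45 / 100)
    have h6 := h.g.hs_pos i
    calc _ ≤ np d.c.N (-45 / 100) * d.c.hE * _ :=
          mul_le_mul_of_nonneg_right (h2.trans h3.le) (abs_nonneg _)
      _ ≤ np d.c.N (-45 / 100) * (qp d.c.N (1 / 100) * d.c.hs i) := by
          rw [mul_assoc]; exact mul_le_mul_of_nonneg_left h1 h5.le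
      _ ≤ _ := by
          rw [← mul_assoc]
          exact mul_le_mul_of_nonneg_right
            ((mul_le_mul_of_nonneg_left (by linarith) h5.le).trans h4) h6.le
  · have e1 : d.ce p t 2 - d.Wd p t 2 = d.lo p t := by
      show (d.lo p t + d.hi p t) / 2 - (d.hi p t - d.lo p t) / 2 = _
      ring
    have e2 : d.ce p t 2 + d.Wd p t 2 = d.hi p t := by
      show (d.lo p t + d.hi p t) / 2 + (d.hi p t - d.lo p t) / 2 = _
      ring
    have h1 := ((h.ck t.1 (t.2 0) (t.2 1)).2.2.2.2.2 hA).2 _ _ l1.le (by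
      rw [h.τlo, h.τhi]; linarith)
    have hJ := h.g.J_pos
    have h2 : (d.hi p t - d.lo p t) / 2 / d.c.J ^ 15 ≤ d.Ug t.1 := by
      have h3 : (1 : ℝ) ≤ d.c.J := by
        show _ ≤ pJ _
        linarith [h.g.big.J_ge, h.g.big.L_ge]
      have h4 := mul_le_mul_of_nonneg_right (pow_le_pow_right₀ h3 (show 10 ≤ 15 by norm_num)) hU.le
      rw [div_le_iff₀ (by positivity)]
      linarith [h.Hh_A hA t.1]
    rw [e1, e2]
    refine area h (a := 2 * qp d.c.N (1 / 100)) t.1 (add_nonneg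
      (intervalIntegral.integral_nonneg l1.le fun _ _ => Real.sqrt_nonneg _)
      (div_pos (half_pos (sub_pos.2 l1)) (by positivity)).le) ?_ le_rfl
    exact (add_le_add h1 h2).trans (by nlinarith)

end Win

theorem win : WinStmt :=
  Win.ev_cx fun _ _ _ h _ _ _ H t => ⟨Win.cr h (H t).1 (H t).2, Win.wn h (H t).1 (H t).2⟩

end
end Pool.Agent.MP_20bec2_an.T3

end MrgPart0

-- ======== part 1: formerly Pool.Agent.MP_20bec2_an.T3.Cls
section MrgPart1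

/-! Row CLS: classes of windows, disjoint supports, counting. -/

set_option autoImplicit false
set_option linter.unusedSectionVars false
open MeasureTheory Set Filter Matrix

namespace Pool.Agent.MP_20bec2_an.T3
noncomputable section
open Classical

namespace Win

lemma mem_ico {a : ℝ} {k : ℤ} {A : ℕ} (h : a ≤ k ∧ (k : ℝ) < a + A) :
    k - ⌈a⌉ ∈ Finset.Ico (0 : ℤ) A := by
  have h1 := Int.ceil_le.2 h.1
  have h2 : (k : ℝ) < (⌈a⌉ : ℤ) + (A : ℤ) := by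
    push_cast
    linarith [Int.le_ceil a, h.2]
  have h3 : k < ⌈a⌉ + (A : ℤ) := by exact_mod_cast h2
  exact Finset.mem_Ico.2 ⟨by omega, by omega⟩

lemma cnt3 (S : Finset Wi) (A B C : ℕ) (α : Fin 3 → ℝ) (β : Fin 3 → ℤ → ℝ)
    (γ : Fin 3 → ℤ → ℤ → ℝ) (H : ∀ t ∈ S, (α t.1 ≤ t.2 0 ∧ (t.2 0 : ℝ) < α t.1 + A) ∧
      (β t.1 (t.2 0) ≤ t.2 1 ∧ (t.2 1 : ℝ) < β t.1 (t.2 0) + B) ∧
      γ t.1 (t.2 0) (t.2 1) ≤ t.2 2 ∧ (t.2 2 : ℝ) < γ t.1 (t.2 0) (t.2 1) + C) :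
    S.card ≤ 3 * (A * (B * C)) := by
  have e : 3 * (A * (B * C)) = ((Finset.univ : Finset (Fin 3)) ×ˢ Finset.Ico (0 : ℤ) A ×ˢ
      Finset.Ico (0 : ℤ) B ×ˢ Finset.Ico (0 : ℤ) C).card := by simp
  rw [e]
  refine Finset.card_le_card_of_injOn (fun t => (t.1, t.2 0 - ⌈α t.1⌉, t.2 1 - ⌈β t.1 (t.2 0)⌉,
    t.2 2 - ⌈γ t.1 (t.2 0) (t.2 1)⌉)) (fun t ht => ?_) ?_
  · simp only [Finset.coe_product, mem_prod, Finset.mem_coe]
    exact ⟨Finset.mem_univ _, mem_ico (H t ht).1, mem_ico (H t ht).2.1, mem_ico (H t ht).2.2⟩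
  · rintro ⟨φ, k⟩ - ⟨φ', k'⟩ - e
    simp only [Prod.mk.injEq] at e ⊢
    obtain ⟨rfl, e0, e1, e2⟩ := e
    have a0 : k 0 = k' 0 := by omega
    rw [a0] at e1 e2
    have a1 : k 1 = k' 1 := by omega
    rw [a1] at e2
    refine ⟨rfl, funext fun i => ?_⟩
    fin_cases i
    exacts [a0, a1, by simpa using e2]

lemma eq_of_mod {a b n : ℤ} (h : a % n = b % n) (h2 : |a - b| < n) : a = b :=
  sub_eq_zero.1 (Int.eq_zero_of_abs_lt_dvd (Int.ModEq.dvd h.symm) h2)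

lemma floor_sub (a b : ℝ) : |((⌊a⌋ - ⌊b⌋ : ℤ) : ℝ)| < |a - b| + 1 := by
  push_cast
  have := Int.floor_le a; have := Int.floor_le b
  have := Int.lt_floor_add_one a; have := Int.lt_floor_add_one b
  have := le_abs_self (a - b); have := neg_abs_le (a - b)
  exact abs_lt.2 ⟨by linarith, by linarith⟩

variable {d : MD} {p : PT} {s : Sa} (h : Cx d p)
include h

lemma gapk {a b : ℤ} (hm : a % (nsig d.c.N : ℤ) = b % (nsig d.c.N : ℤ)) (hne : a ≠ b) :
    1 ≤ |(a : ℝ) / d.ns - b / d.ns| := by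
  have h1 : ((nsig d.c.N : ℤ) : ℝ) ≤ ((|a - b| : ℤ) : ℝ) :=
    Int.cast_le.2 (not_lt.1 fun e => hne (eq_of_mod hm e))
  rw [← sub_div, abs_div, abs_of_pos h.ns_pos, one_le_div h.ns_pos]
  simpa [MD.ns] using h1

lemma eqk {a b : ℤ} {u : ℝ} (hm : a % (nsig d.c.N : ℤ) = b % (nsig d.c.N : ℤ))
    (h1 : |u - a / d.ns| ≤ 2 / 5) (h2 : |u - b / d.ns| ≤ 2 / 5) : a = b := by
  by_contra hne
  have h3 := gapk h hm hne
  have h4 := abs_sub_le ((a : ℝ) / d.ns) u (b / d.ns)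
  rw [abs_sub_comm _ u] at h4
  linarith

lemma rng {u r : ℝ} {k : ℤ} {A : ℕ} (e : |u - k / d.ns| ≤ r) (hA : 2 * r < A) :
    d.ns * (u - r) ≤ k ∧ (k : ℝ) < d.ns * (u - r) + (A * nsig d.c.N : ℕ) := by
  obtain ⟨e1, e2⟩ := abs_le.1 e
  have h0 := h.ns_pos
  have h1 : (k : ℝ) = d.ns * (k / d.ns) := by field_simp
  have h2 : ((A * nsig d.c.N : ℕ) : ℝ) = A * d.ns := by simp [MD.ns]
  rw [h2]
  constructor <;> nlinarith

lemma nsg_eq : nsg d.c.N = d.ns ^ 3 := by rw [h.ns_eq, nsg, ← pow_mul]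

lemma cntw (x : V) (S : Finset Wi) (r : ℝ) (B : ℕ) (hB : 2 * r < B)
    (H : ∀ t ∈ S, |x 0 / d.W1 t.1 - t.2 0 / d.ns| ≤ 9 / 20 ∧
      |x 1 - d.c1 t.1 (t.2 0) (t.2 1)| ≤ r * d.W2 t.1 ∧ |d.ph p t x| ≤ 9 / 20) :
    (S.card : ℝ) ≤ 3 * B * nsg d.c.N := by
  have h1 := cnt3 S (1 * nsig d.c.N) (B * nsig d.c.N) (1 * nsig d.c.N)
    (fun φ => d.ns * (x 0 / d.W1 φ - 9 / 20))
    (fun φ k => d.ns * (x 1 / d.W2 φ + MD.vs φ * (k / d.ns) - r))
    (fun φ k k' => d.ns * (p.τ φ k k' (x 2) - 9 / 20)) fun t ht => by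
      refine ⟨rng h (H t ht).1 (by norm_num), rng h ?_ hB, rng h (H t ht).2.2 (by norm_num)⟩
      have h2 := h.W2_pos t.1
      rw [show x 1 / d.W2 t.1 + MD.vs t.1 * (t.2 0 / d.ns) - t.2 1 / d.ns =
        (x 1 - d.c1 t.1 (t.2 0) (t.2 1)) / d.W2 t.1 by unfold MD.c1; field_simp; ring, abs_div,
        abs_of_pos h2, div_le_iff₀ h2]
      exact (H t ht).2.1
  refine (Nat.cast_le.2 h1).trans (le_of_eq ?_)
  rw [nsg_eq h, MD.ns]
  push_cast
  ring

lemma nsig_pos : (0 : ℤ) < nsig d.c.N := by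
  have := h.ns_pos
  unfold MD.ns at this
  exact_mod_cast this

lemma card_cls (S : Finset Wi) (k : Fin 3 × Cu × ℤ) (H : ∀ t ∈ S, t ∈ d.TT ∧ d.swp p t = k) :
    (S.card : ℝ) ≤ (d.c.N : ℝ) ^ 303 := by
  have e : (nsig d.c.N : ℤ) = (d.c.N : ℤ) ^ 30 := by simp [nsig]
  have h1 : S.card ≤ (Fintype.piFinset fun _ : Fin 3 =>
      Finset.Icc (-(d.c.N : ℤ) ^ 100) ((d.c.N : ℤ) ^ 100)).card := by
    refine Finset.card_le_card_of_injOn (fun t i => t.2 i / nsig d.c.N) (fun t ht => ?_) ?_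
    · refine Fintype.mem_piFinset.2 fun i => ?_
      obtain ⟨a1, a2⟩ := Finset.mem_Icc.1
        (Fintype.mem_piFinset.1 (Finset.mem_product.1 (H t ht).1).2 i)
      exact Finset.mem_Icc.2 ⟨Int.le_ediv_of_mul_le (nsig_pos h) (by rw [e]; linarith),
        Int.ediv_le_of_le_mul (nsig_pos h) (by rw [e]; linarith)⟩
    · intro t ht t' ht' e1
      have e2 := (H t ht).2.trans (H t' ht').2.symm
      simp only [MD.swp, Prod.mk.injEq] at e2
      refine Prod.ext e2.1 (funext fun i => ?_)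
      have a1 : t.2 i / nsig d.c.N = t'.2 i / nsig d.c.N := congrFun e1 i
      have a2 : t.2 i % nsig d.c.N = t'.2 i % nsig d.c.N := congrFun e2.2.1 i
      rw [← Int.mul_ediv_add_emod (t.2 i) (nsig d.c.N), a1, a2, Int.mul_ediv_add_emod]
  have h2 : ((d.c.N : ℤ) ^ 100 + 1 - -(d.c.N : ℤ) ^ 100).toNat = 2 * d.c.N ^ 100 + 1 := by
    rw [show (d.c.N : ℤ) ^ 100 + 1 - -(d.c.N : ℤ) ^ 100 = (2 * d.c.N ^ 100 + 1 : ℕ) by
      push_cast; ring, Int.toNat_natCast]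
  rw [Fintype.card_piFinset_const, Int.card_Icc, h2] at h1
  refine (Nat.cast_le.2 h1).trans ?_
  have h3 := h.N_ge
  have h4 : (1 : ℝ) ≤ (d.c.N : ℝ) ^ 100 := one_le_pow₀ (by linarith)
  push_cast
  calc (2 * (d.c.N : ℝ) ^ 100 + 1) ^ 3 ≤ (d.c.N * (d.c.N : ℝ) ^ 100) ^ 3 :=
        pow_le_pow_left₀ (by positivity) (by nlinarith) 3
    _ = _ := by ring

lemma res_mem (t : Wi) : (fun i => t.2 i % (nsig d.c.N : ℤ)) ∈
    Fintype.piFinset fun _ : Fin 3 => Finset.Ico (0 : ℤ) (nsig d.c.N) :=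
  Fintype.mem_piFinset.2 fun _ => Finset.mem_Ico.2
    ⟨Int.emod_nonneg _ (nsig_pos h).ne', Int.emod_lt_of_pos _ (nsig_pos h)⟩

lemma card_res (I : Finset ℤ) : ((((Finset.univ : Finset (Fin 3)) ×ˢ
    (Fintype.piFinset fun _ : Fin 3 => Finset.Ico (0 : ℤ) (nsig d.c.N)) ×ˢ I).card : ℕ) : ℝ) =
    3 * I.card * nsg d.c.N := by
  rw [nsg_eq h, MD.ns]
  simp
  ring

lemma card_sw : ((d.TT.image (d.swp p)).card : ℝ) ≤ np d.c.N (9 / 100) * nsg d.c.N := by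
  have h0 : (0 : ℤ) < 2 * d.mm := by
    have : (0 : ℝ) < 2 * d.mm := by linarith [h.mm_bd.1]
    exact_mod_cast this
  have h1 : d.TT.image (d.swp p) ⊆ Finset.univ ×ˢ
      (Fintype.piFinset fun _ : Fin 3 => Finset.Ico (0 : ℤ) (nsig d.c.N)) ×ˢ
        Finset.Ico (0 : ℤ) (2 * d.mm : ℕ) := by
    intro k hk
    obtain ⟨t, -, rfl⟩ := Finset.mem_image.1 hk
    refine Finset.mem_product.2 ⟨Finset.mem_univ _, Finset.mem_product.2 ⟨res_mem h t, ?_⟩⟩
    simp only [MD.swp, Finset.mem_Ico]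
    push_cast
    split_ifs
    exacts [⟨Int.emod_nonneg _ h0.ne', Int.emod_lt_of_pos _ h0⟩, ⟨le_rfl, h0⟩]
  refine (Nat.cast_le.2 (Finset.card_le_card h1)).trans ?_
  rw [card_res h, Int.card_Ico, sub_zero, Int.toNat_natCast]
  refine mul_le_mul_of_nonneg_right ?_ (pow_pos h.g.N_pos _).le
  push_cast
  linarith [h.mm_bd.2, np_gap h.g.big (a := 8 / 100) (b := 9 / 100) (C := 12) (by norm_num)
    (by norm_num)]

lemma kbd {k : ℤ} {u : ℝ} (h1 : |u - k / d.ns| ≤ 2 / 5) (h2 : |u| ≤ 4 * (d.c.N : ℝ) ^ 97) :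
    k ∈ Finset.Icc (-(d.c.N : ℤ) ^ 130) ((d.c.N : ℤ) ^ 130) := by
  have h3 := h.N_ge
  have h4 : (1 : ℝ) ≤ (d.c.N : ℝ) ^ 97 := one_le_pow₀ (by linarith)
  have h5 : |(k : ℝ) / d.ns| ≤ (d.c.N : ℝ) ^ 3 * (d.c.N : ℝ) ^ 97 := by
    have a1 := abs_sub_abs_le_abs_sub ((k : ℝ) / d.ns) u
    rw [abs_sub_comm] at a1
    have a2 : (5 : ℝ) ≤ (d.c.N : ℝ) ^ 3 := le_trans (by norm_num)
      (pow_le_pow_left₀ (by norm_num) h3 3)
    nlinarith
  rw [abs_div, abs_of_pos h.ns_pos, div_le_iff₀ h.ns_pos, h.ns_eq, ← pow_add, ← pow_add] at h5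
  rw [Finset.mem_Icc, ← abs_le]
  exact_mod_cast h5

lemma in_TT (hi : d.In) {t : Wi} (H : d.Der p s t) {x : V}
    (e : ¬ (d.Pm' p s t x = 0 ∧ d.om p t x = 0)) : t ∈ d.TT := by
  obtain ⟨a0, a1, a2, a3⟩ := sup_m H e
  have hl := h.g.lam_pos
  have hN : (0 : ℝ) < (d.c.N : ℝ) ^ 97 := pow_pos h.g.N_pos _
  have hD : d.c.D ≤ (d.c.N : ℝ) ^ 97 * d.c.lam := by
    have e1 : np d.c.N 93 = (d.c.N : ℝ) ^ 93 := by
      rw [np, ← Real.rpow_natCast]; norm_num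
    have e2 := mul_le_mul_of_nonneg_left h.g.lb_le (pow_pos h.g.N_pos 4).le
    rwa [e1, ← mul_assoc, ← pow_add] at e2
  have hx : ∀ i, |x i| ≤ 2 * (d.c.N : ℝ) ^ 97 * d.c.lam := fun i => by
    linarith [Prof.abs_le_norm x i, Prof.RX_norm hi.ort a0, h.g.D_pos]
  have hw : ∀ i, ∀ W ∈ [d.W1 t.1, d.W2 t.1], |x i / W| ≤ 2 * (d.c.N : ℝ) ^ 97 := fun i W hW => by
    have b1 : d.c.lam ≤ W :=
      (le_mul_of_one_le_left hl.le (one_le_np h.g.big (by norm_num))).trans (h.W_bd _ W hW).1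
    rw [abs_div, abs_of_pos (hl.trans_le b1), div_le_iff₀ (hl.trans_le b1)]
    nlinarith [hx i]
  have b0 := hw 0 (d.W1 t.1) (by simp)
  refine Finset.mem_product.2 ⟨Finset.mem_univ _, Fintype.mem_piFinset.2 fun i => ?_⟩
  fin_cases i
  · exact kbd h a1 (by linarith)
  · refine kbd h a2 ((abs_add_le _ _).trans ?_)
    rw [abs_mul]
    nlinarith [hw 1 (d.W2 t.1) (by simp), vs_le t.1, abs_nonneg (x 0 / d.W1 t.1)]
  · refine kbd h a3 ((h.τ_abs _ _ _ _).trans ?_)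
    have b1 : np d.c.N (-498 / 1000) ≤ 1 := by
      simpa [np] using h.g.big.np_le (show (-498 / 1000 : ℝ) ≤ 0 by norm_num)
    rw [div_mul_eq_mul_div, div_le_iff₀ hl]
    nlinarith [hx 2, abs_nonneg (x 2)]

/-- the coordinate 1 of `Z` moves almost like the coordinate 1 -/
lemma z1 (hi : d.In) (hc : d.c.comp) {x x' : V} (hx : x ∈ d.R (99 / 100))
    (hx' : x' ∈ d.R (99 / 100)) : |d.Z x 1 - d.Z x' 1 - (x 1 - x' 1)| ≤
      2 * nu d.c.N * (|x 0 - x' 0| + |x 1 - x' 1| + |x 2 - x' 2|) := by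
  have h1 : d.c.zT = 2 * nu d.c.N := if_pos (by linarith [comp_η h.g hc, h.g.big.etaS_pos])
  have h2 := mvt_pd (g := fun y => d.Z y 1 - y 1) (Prof.RX_convex _ _ _)
    (fun y _ => ((hi.sZ.coord 1).dif y).sub ((sm_coord 1).dif y)) (b := cv (2 * nu d.c.N))
    (fun i y hy => by
      rw [pd_sub_at ((hi.sZ.coord 1).dif y) ((sm_coord 1).dif y), pd_coord]
      have := (hi.zb y hy).1 1 i
      rwa [h1, Matrix.sub_apply, Matrix.one_apply] at this) hx hx'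
  rw [Fin.sum_univ_three] at h2
  rw [show d.Z x 1 - d.Z x' 1 - (x 1 - x' 1) = d.Z x 1 - x 1 - (d.Z x' 1 - x' 1) by ring]
  refine h2.trans (le_of_eq ?_)
  simp only [cv]
  ring

lemma sml (φ : Fin 3) : 2 * nu d.c.N * (np d.c.N (51 / 100) * d.c.lam) ≤ d.W2 φ / 100 ∧
    2 * nu d.c.N * (2 * d.bw φ) ≤ d.W2 φ / 100 ∧ d.c.J ^ 22 * d.c.lam ≤ d.W2 φ / 100 := by
  have w := (h.W_bd φ (d.W2 φ) (by simp)).1
  have hb := h.g.big
  have hl := h.g.lam_pos
  have a1 := np_gap hb (a := -49 / 100 + 51 / 100) (b := 499 / 1000) (C := 200) (by norm_num)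
    (by norm_num)
  have a2 := np_gap hb (a := -49 / 100 + 9 / 100) (b := 0) (C := 400) (by norm_num) (by norm_num)
  have a3 : d.c.J ^ 22 ≤ np d.c.N (1 / 10) := le_of_log (pow_pos h.g.J_pos _) (hb.np_pos _) (by
    rw [Real.log_pow, h.g.log_J, hb.log_np]
    push_cast
    linarith [hb.J_ge, hb.L_ge])
  have a4 := np_gap hb (a := 1 / 10) (b := 499 / 1000) (C := 100) (by norm_num) (by norm_num)
  have a5 : np d.c.N 0 = 1 := by simp [np]
  rw [hb.np_add] at a1 a2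
  have a6 := mul_le_mul_of_nonneg_left (bw_le h φ) hb.nu_pos.le
  unfold nu at *
  refine ⟨?_, ?_, ?_⟩ <;> nlinarith [h.W2_pos φ]

lemma wd_le (hc : d.c.comp) {t : Wi} (H : d.Der p s t ∧ d.Cmp p s t) (i : Fin 3) :
    d.Wd p t i ≤ np d.c.N (51 / 100) * d.c.lam := by
  obtain ⟨-, -, -, -, -, a1, a2⟩ := (wn h H.1 H.2).wd
  fin_cases i
  exacts [(a2 hc).1, (a2 hc).2, a1]

lemma ce_mem (hi : d.In) (hc : d.c.comp) {t : Wi} (H : d.Der p s t ∧ d.Cmp p s t) {x : V}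
    (hx : d.Pm' p s t x ≠ 0) : d.ce p t ∈ d.R (99 / 100) := by
  obtain ⟨a1, a2⟩ := ((wn h H.1 H.2).sup x).1 hx
  have a3 : ‖d.ce p t - x‖ ≤ np d.c.N (51 / 100) * d.c.lam := Prof.norm_le_of fun i => by
    rw [Pi.sub_apply, abs_sub_comm]
    exact (a2 i).trans (wd_le h hc H i)
  have a4 := np_gap h.g.big (a := 51 / 100) (b := 4) (C := 100) (by norm_num) (by norm_num)
  have a5 : np d.c.N 4 = (d.c.N : ℝ) ^ 4 := by rw [np, ← Real.rpow_natCast]; norm_num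
  have a6 := mul_le_mul_of_nonneg_left h.g.lam_le_lb (pow_pos h.g.N_pos 4).le
  have a7 := Prof.RX_add hi.ort (s := 6 / 100) a1 (y := d.ce p t) (by
    unfold Pm.D
    nlinarith [h.g.lam_pos, norm_nonneg (d.ce p t - x)])
  rwa [show (93 / 100 + 6 / 100 : ℝ) = 99 / 100 by norm_num] at a7

lemma card_near (hi : d.In) (H : ∀ t, d.Der p s t ∧ d.Cmp p s t) (a : ℝ)
    (S : Finset (Fin 3 × Cu × ℤ)) (hS : ∀ k ∈ S, ∃ t, d.swp p t = k ∧ ∃ x, d.Pm' p s t x ≠ 0 ∧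
      |d.Z x 1 - a| ≤ d.c.J ^ 22 * d.c.lam) : (S.card : ℝ) ≤ 100 * nsg d.c.N := by
  have h1 : S ⊆ (Finset.univ ×ˢ
      (Fintype.piFinset fun _ : Fin 3 => Finset.Ico (0 : ℤ) (nsig d.c.N)) ×ˢ
        Finset.Icc (-3 : ℤ) 3).image fun k : Fin 3 × Cu × ℤ => (k.1, k.2.1,
          if d.c.comp then (⌊a / (d.W2 k.1 / 2)⌋ + k.2.2) % (2 * d.mm : ℤ) else 0) := by
    intro k hk
    obtain ⟨t, rfl, x, hx, ha⟩ := hS k hk
    by_cases hc : d.c.comp
    · refine Finset.mem_image.2 ⟨(t.1, _, ⌊d.Z (d.ce p t) 1 / (d.W2 t.1 / 2)⌋ -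
        ⌊a / (d.W2 t.1 / 2)⌋), Finset.mem_product.2 ⟨Finset.mem_univ _,
          Finset.mem_product.2 ⟨res_mem h t, ?_⟩⟩, by simp [MD.swp]⟩
      obtain ⟨a1, a2⟩ := (((wn h (H t).1 (H t).2).sup x).1 hx)
      have a3 := z1 h hi hc (Prof.RX_mono _ h.g.D_pos.le (by norm_num) a1) (ce_mem h hi hc (H t) hx)
      have a4 := fun i => (a2 i).trans (wd_le h hc (H t) i)
      obtain ⟨s1, -, s3⟩ := sml h t.1
      have a5 : |x 1 - d.ce p t 1| ≤ d.W2 t.1 := a2 1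
      have hw := half_pos (h.W2_pos t.1)
      have a6 := mul_le_mul_of_nonneg_left (add_le_add (add_le_add (a4 0) (a4 1)) (a4 2))
        (show 0 ≤ 2 * nu d.c.N by linarith [h.g.big.nu_pos])
      have a7 : |d.Z (d.ce p t) 1 / (d.W2 t.1 / 2) - a / (d.W2 t.1 / 2)| ≤ 3 := by
        rw [← sub_div, abs_div, abs_of_pos hw, div_le_iff₀ hw]
        obtain ⟨b1, b2⟩ := abs_le.1 a3
        obtain ⟨b3, b4⟩ := abs_le.1 a5
        obtain ⟨b5, b6⟩ := abs_le.1 ha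
        exact abs_le.2 ⟨by linarith, by linarith⟩
      have a8 := (floor_sub _ _).trans_le (add_le_add_left a7 1)
      have a9 : |⌊d.Z (d.ce p t) 1 / (d.W2 t.1 / 2)⌋ - ⌊a / (d.W2 t.1 / 2)⌋| < 3 + 1 := by
        exact_mod_cast a8
      rw [Finset.mem_Icc, ← abs_le]
      exact Int.lt_add_one_iff.1 a9
    · exact Finset.mem_image.2 ⟨(t.1, _, 0), Finset.mem_product.2 ⟨Finset.mem_univ _,
        Finset.mem_product.2 ⟨res_mem h t, by simp⟩⟩, by simp [MD.swp, hc]⟩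
  refine (Nat.cast_le.2 ((Finset.card_le_card h1).trans Finset.card_image_le)).trans ?_
  rw [card_res h]
  refine mul_le_mul_of_nonneg_right ?_ (pow_pos h.g.N_pos _).le
  rw [Int.card_Icc, show ((3 : ℤ) + 1 - -3).toNat = 7 from rfl]
  norm_num

/-- two compensated windows of one class that meet have the same lateral index -/
lemma same1 (hi : d.In) (hc : d.c.comp) (H : ∀ t, d.Der p s t ∧ d.Cmp p s t) {φ : Fin 3}
    {k k' : Cu} (e : d.swp p (φ, k) = d.swp p (φ, k')) (e0 : k 0 = k' 0) {x y y' : V}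
    (hy : d.Pm' p s (φ, k) y ≠ 0) (hy' : d.Pm' p s (φ, k') y' ≠ 0)
    (b1 : |x 1 - d.c1 φ (k 0) (k 1)| ≤ d.bw φ) (b2 : |d.ph p (φ, k) x| ≤ 2 / 5)
    (b1' : |x 1 - d.c1 φ (k' 0) (k' 1)| ≤ d.bw φ) (b2' : |d.ph p (φ, k') x| ≤ 2 / 5) :
    k 1 = k' 1 := by
  by_contra hne
  simp only [MD.swp, Prod.mk.injEq, if_pos hc, true_and] at e
  have hW := h.W2_pos φ
  have hw := half_pos hW
  have a1 := gapk h (congrFun e.1 1) hne
  have a2 : d.W2 φ ≤ |d.ce p (φ, k) 1 - d.ce p (φ, k') 1| := by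
    show _ ≤ |d.c1 φ (k 0) (k 1) - d.c1 φ (k' 0) (k' 1)|
    rw [e0, show d.c1 φ (k' 0) (k 1) - d.c1 φ (k' 0) (k' 1) =
      d.W2 φ * (k 1 / d.ns - k' 1 / d.ns) by unfold MD.c1; ring, abs_mul, abs_of_pos hW]
    exact le_mul_of_one_le_right hW.le a1
  have a3 : |d.ce p (φ, k) 1 - d.ce p (φ, k') 1| ≤ 2 * d.bw φ := by
    have := abs_sub_le (d.c1 φ (k 0) (k 1)) (x 1) (d.c1 φ (k' 0) (k' 1))
    rw [abs_sub_comm _ (x 1)] at this
    exact this.trans (by linarith)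
  have a4 : |d.ce p (φ, k) 0 - d.ce p (φ, k') 0| = 0 := by
    show |d.c0 φ (k 0) - d.c0 φ (k' 0)| = 0
    rw [e0, sub_self, abs_zero]
  have a5 : |d.ce p (φ, k) 2 - d.ce p (φ, k') 2| ≤ 2 * (np d.c.N (51 / 100) * d.c.lam) := by
    have := abs_sub_le (d.ce p (φ, k) 2) (x 2) (d.ce p (φ, k') 2)
    rw [abs_sub_comm _ (x 2)] at this
    linarith [h.in2 (φ, k) (x := x) (by linarith), h.in2 (φ, k') (x := x) (by linarith),
      wd_le h hc (H (φ, k)) 2, wd_le h hc (H (φ, k')) 2]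
  have a6 := (z1 h hi hc (ce_mem h hi hc (H _) hy) (ce_mem h hi hc (H _) hy')).trans
    (mul_le_mul_of_nonneg_left (add_le_add (add_le_add a4.le a3) a5)
      (show 0 ≤ 2 * nu d.c.N by linarith [h.g.big.nu_pos]))
  obtain ⟨s1, s2, -⟩ := sml h φ
  generalize d.Z (d.ce p (φ, k)) 1 = A at *
  generalize d.Z (d.ce p (φ, k')) 1 = A' at *
  generalize d.ce p (φ, k) 1 - d.ce p (φ, k') 1 = B at *
  have a7 := abs_sub_abs_le_abs_sub (A - A') B
  have a8 := abs_sub_abs_le_abs_sub B (A - A')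
  rw [abs_sub_comm B] at a8
  have a9 : |A / (d.W2 φ / 2) - A' / (d.W2 φ / 2)| * (d.W2 φ / 2) = |A - A'| := by
    rw [← sub_div, abs_div, abs_of_pos hw, div_mul_cancel₀ _ hw.ne']
  have m1 := h.mm_bd.1
  have c1 : |A / (d.W2 φ / 2) - A' / (d.W2 φ / 2)| ≤ d.mm + 1 := by
    refine le_of_mul_le_mul_right ?_ hw
    unfold MD.bw at a3
    linarith
  have c2 : |((⌊A / (d.W2 φ / 2)⌋ - ⌊A' / (d.W2 φ / 2)⌋ : ℤ) : ℝ)| < 2 * d.mm :=
    (floor_sub _ _).trans_le (by linarith)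
  have c3 := Int.abs_sub_lt_one_of_floor_eq_floor (eq_of_mod e.2 (by exact_mod_cast c2))
  nlinarith

lemma boxes (hi : d.In) (H : ∀ t, d.Der p s t ∧ d.Cmp p s t) :
    ∃ Bx : Wi → Set V, (∀ t, IsClosed (Bx t) ∧ ∀ x, x ∉ Bx t →
      d.Ps p s t x = 0 ∧ d.Pm' p s t x = 0 ∧ d.om p t x = 0) ∧
      ∀ t t', d.swp p t = d.swp p t' → t ≠ t' → Disjoint (Bx t) (Bx t') := by
  have hτ : ∀ t, Continuous (d.ph p t) := fun t =>
    ((h.ck _ _ _).1.continuous.comp (continuous_apply 2)).sub continuous_const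
  have fin : ∀ φ k k' x, d.swp p (φ, k) = d.swp p (φ, k') → k 0 = k' 0 → k 1 = k' 1 →
      |d.ph p (φ, k) x| ≤ 2 / 5 → |d.ph p (φ, k') x| ≤ 2 / 5 → (φ, k) = (φ, k') := by
    intro φ k k' x e e0 e1 a1 a2
    simp only [MD.ph] at a1 a2
    rw [e0, e1] at a1
    have e2 := eqk h (congrFun (congrArg (·.2.1) e) 2) a1 a2
    refine Prod.ext rfl (funext fun i => ?_)
    fin_cases i
    exacts [e0, e1, e2]
  by_cases hc : d.c.comp
  · refine ⟨fun t => {x | d.Pm' p s t ≠ 0 ∧ |x 0 / d.W1 t.1 - t.2 0 / d.ns| ≤ 2 / 5 ∧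
      |x 1 - d.c1 t.1 (t.2 0) (t.2 1)| ≤ d.bw t.1 ∧ |d.ph p t x| ≤ 2 / 5},
      fun t => ⟨?_, fun x hx => ?_⟩, ?_⟩
    · refine IsClosed.and isClosed_const (IsClosed.and (isClosed_le ?_ continuous_const)
        (IsClosed.and (isClosed_le ?_ continuous_const) (isClosed_le (hτ t).abs continuous_const)))
      all_goals fun_prop
    · have a1 : d.Pm' p s t x = 0 := by
        by_contra e
        obtain ⟨-, b1, b2, b3⟩ := sup_m (H t).1 (x := x) fun e' => e e'.1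
        exact hx ⟨fun e' => e (congrFun e' x), b1,
          (h.in1 t (by linarith) (by linarith)).trans (h.W2_le_bw _), b3⟩
      have a2 : d.Gc p s t x = 0 := by
        by_contra e
        exact hx ⟨fun e' => e (congrFun ((H t).2.z0 e') x), (sup_g (H t).2 e).2⟩
      exact ⟨(ps_eq a2).trans a1, a1,
        congrFun ((H t).1.cr.nn fun hn => h.g.notcomp_of_noise hn hc) x⟩
    · rintro ⟨φ, k⟩ ⟨φ', k'⟩ e hne
      obtain rfl : φ = φ' := congrArg (·.1) e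
      refine Set.disjoint_left.2 fun x ⟨a0, a1, a2, a3⟩ ⟨b0, b1, b2, b3⟩ => hne ?_
      have e0 := eqk h (congrFun (congrArg (·.2.1) e) 0) a1 b1
      obtain ⟨y, hy⟩ := Function.ne_iff.1 a0
      obtain ⟨y', hy'⟩ := Function.ne_iff.1 b0
      exact fin φ k k' x e e0 (same1 h hi hc H e e0 hy hy' a2 a3 b2 b3) a3 b3
  · refine ⟨fun t => {x | |x 0 / d.W1 t.1 - t.2 0 / d.ns| ≤ 2 / 5 ∧
      |x 1 / d.W2 t.1 + MD.vs t.1 * (x 0 / d.W1 t.1) - t.2 1 / d.ns| ≤ 2 / 5 ∧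
      |d.ph p t x| ≤ 2 / 5}, fun t => ⟨?_, fun x hx => ?_⟩, ?_⟩
    · refine IsClosed.and (isClosed_le ?_ continuous_const)
        (IsClosed.and (isClosed_le ?_ continuous_const) (isClosed_le (hτ t).abs continuous_const))
      all_goals fun_prop
    · have a1 : d.Pm' p s t x = 0 ∧ d.om p t x = 0 := by
        by_contra e
        exact hx (sup_m (H t).1 e).2
      exact ⟨(ps_eq (gc_nc hc x)).trans a1.1, a1⟩
    · rintro ⟨φ, k⟩ ⟨φ', k'⟩ e hne
      obtain rfl : φ = φ' := congrArg (·.1) e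
      refine Set.disjoint_left.2 fun x ⟨a1, a2, a3⟩ ⟨b1, b2, b3⟩ => hne ?_
      exact fin φ k k' x e (eqk h (congrFun (congrArg (·.2.1) e) 0) a1 b1)
        (eqk h (congrFun (congrArg (·.2.1) e) 1) a2 b2) a3 b3

end Win

open Win in
theorem cls : ClsStmt := ev_cx fun d p s h hi _ _ H => by
  obtain ⟨Bx, b1, b2⟩ := boxes h hi H
  refine ⟨fun k => ⟨card_cls h _ k fun t ht => Finset.mem_filter.1 ht, Bx, b1,
    fun t t' e e' => b2 t t' (e.trans e'.symm)⟩, card_sw h, fun a => card_near h hi H a _ ?_,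
    fun t ht => ?_, fun x => ⟨?_, ?_⟩⟩
  · intro k hk
    obtain ⟨t, ht, e⟩ := (Finset.mem_filter.1 hk).2
    exact ⟨t, (Finset.mem_filter.1 ht).2, e⟩
  · have a1 : ∀ x, d.Pm' p s t x = 0 ∧ d.om p t x = 0 := fun x => by
      by_contra e
      exact ht (in_TT h hi (H t).1 e)
    have a2 : d.Pm' p s t = 0 := funext fun x => (a1 x).1
    exact ⟨funext fun x => (ps_eq (congrFun ((H t).2.z0 a2) x)).trans (a1 x).1, a2,
      funext fun x => (a1 x).2⟩
  · refine (cntw h x _ 1 3 (by norm_num) fun t ht => ?_).trans (by norm_num)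
    simpa only [one_mul] using (Finset.mem_filter.1 ht).2
  · refine (cntw h x _ (d.mm / 2) (d.mm + 1) (by push_cast; linarith) fun t ht => ?_).trans
      (mul_le_mul_of_nonneg_right ?_ (pow_pos h.g.N_pos _).le)
    · obtain ⟨a1, a2, a3⟩ := (Finset.mem_filter.1 ht).2
      exact ⟨a1, a2.trans (le_of_eq (by unfold MD.bw; ring)), a3⟩
    · push_cast
      linarith [h.mm_bd.1, h.mm_bd.2, np_gap h.g.big (a := 8 / 100) (b := 9 / 100) (C := 12)
        (by norm_num) (by norm_num)]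

end
end Pool.Agent.MP_20bec2_an.T3

end MrgPart1

-- ======== part 2: formerly Pool.Agent.MP_20bec2_an.T3.Cov
section MrgPart2

/-! Row COV: the windows of a round reproduce the planned covariance. -/

set_option autoImplicit false
set_option linter.unusedSectionVars false
open MeasureTheory Set Filter Matrix Topology

namespace Pool.Agent.MP_20bec2_an.T3
noncomputable section
open Classical

namespace Cov
open Win

/-- normalised main part and compensator -/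
def mi (d : MD) (p : PT) (s : Sa) (i : Fin 3) (t : Wi) (x : V) : ℝ := d.Pm' p s t x i / d.c.hs i
def gi (d : MD) (p : PT) (s : Sa) (i : Fin 3) (t : Wi) (x : V) : ℝ :=
  (![0, 1, 0] : V) i / d.c.hs i * d.Gc p s t x

lemma main_bd : ∃ K : ℝ, 1 ≤ K ∧ ∀ (d : MD) (p : PT) (s : Sa), Cx d p → d.In → d.Gs s →
    d.AmpOk p.r → 16 / kp * (1 + 32 * (I1 / I0)) ≤ d.c.J → K * d.c.J ^ 32 ≤ np d.c.N (1 / 500) →
    ∀ i j, ∀ x0 ∈ d.R (9 / 10), CB 4 (cv d.c.hE) {x0} (fun x => ∑ t ∈ d.TT,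
      mi d p s i t x * mi d p s j t x - nsg d.c.N * (d.α x ^ 2 * nrm d.c.hs (d.C x) i j))
      (nsg d.c.N * (np d.c.N (-3 / 100) * d.c.eL + np d.c.N (-55 / 10))) := by
  obtain ⟨K1, k1, H1⟩ := prof_avg
  obtain ⟨K2, k2, H2⟩ := lat_avg
  obtain ⟨C, C1, HC⟩ := Prof.cb_alh 5
  have c1 := C2.cf_one 1 4
  have i0 := I0_pos
  have io0 := io_pos
  obtain ⟨K3, hK3⟩ : ∃ K3, K3 = I0 ^ 3 * (3 * (16 * (512 * io ^ 2 * C ^ 2))) := ⟨_, rfl⟩
  obtain ⟨K4, hK4⟩ : ∃ K4, K4 = K1 * (cf 1 4 * 625) ^ 2 := ⟨_, rfl⟩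
  have k3 : 0 ≤ K3 := by rw [hK3]; positivity
  have k4 : 1 ≤ K4 := by
    rw [hK4]; exact one_le_mul_of_one_le_of_one_le k1 (one_le_pow₀ (by linarith))
  have k5 : 0 ≤ 64 * io * C := by positivity
  have k6 : 0 ≤ 6 * K2 * K4 := by positivity
  refine ⟨2 + 64 * io * C + 4 * K3 + 6 * K2 * K4, by linarith,
    fun d p s h hi hs ha hJ hK i j x0 hx => ?_⟩
  have g := h.g
  have b := g.big
  have hD := g.D_pos
  have hl := g.lam_pos
  have hE := g.hE_pos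
  have eL := g.eL_pos
  have hh : ∀ i, 0 ≤ cv d.c.hE i := fun _ => hE.le
  have N1 : (1 : ℝ) ≤ d.c.N := by linarith [h.N_ge]
  have hh' : ∀ i, 0 ≤ cv (d.c.lam / d.c.N ^ 2) i := fun _ => by show 0 ≤ _ / _; positivity
  have J1 : 1 ≤ d.c.J := by show 1 ≤ pJ d.c.N; linarith [b.J_ge, b.L_ge]
  have J32 : 1 ≤ d.c.J ^ 32 := one_le_pow₀ J1
  have kk : ∀ a : ℝ, 0 ≤ a → a ≤ 2 + 64 * io * C + 4 * K3 + 6 * K2 * K4 →
      a * d.c.J ^ 32 ≤ np d.c.N (1 / 500) ∧ a ≤ np d.c.N (1 / 500) := fun a a0 a1 =>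
    have := (mul_le_mul_of_nonneg_right a1 (by linarith)).trans hK
    ⟨this, (le_mul_of_one_le_right a0 J32).trans this⟩
  have hn : 0 < nsig d.c.N := pow_pos (by exact_mod_cast g.N_pos) _
  have en : (nsig d.c.N : ℝ) = np d.c.N 30 := by
    rw [show (30 : ℝ) = (30 : ℕ) by norm_num, np_nat]; simp [nsig]
  have eg : nsg d.c.N = (nsig d.c.N : ℝ) ^ 3 := by simp [nsg, nsig, ← pow_mul]
  have nh : d.R (95 / 100) ∈ 𝓝 x0 := Prof.RX_nhds hD (by norm_num) hx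
  have x95 : {x0} ⊆ d.R (95 / 100) := singleton_subset_iff.2 (mem_of_mem_nhds nh)
  -- amplitudes
  have he : np d.c.N (3 / 10) * (d.c.J ^ 16 * d.c.eL) ≤ 1 := by
    have a1 : d.c.J ^ 16 ≤ d.c.J ^ 32 := pow_le_pow_right₀ J1 (by norm_num)
    have a2 : 2 * d.c.J ^ 16 ≤ np d.c.N (1 / 500) := by linarith [(kk 2 (by norm_num) (by linarith)).1]
    calc _ ≤ np d.c.N (3 / 10) * (d.c.J ^ 16 * (2 * np d.c.N (-46 / 100))) := by
          have := b.np_pos (3 / 10)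
          gcongr
          exact (eL_le g).1
      _ = 2 * d.c.J ^ 16 * (np d.c.N (3 / 10) * np d.c.N (-46 / 100)) := by ring
      _ ≤ np d.c.N (1 / 500) * (np d.c.N (3 / 10) * np d.c.N (-46 / 100)) :=
          mul_le_mul_of_nonneg_right a2 (mul_pos (b.np_pos _) (b.np_pos _)).le
      _ ≤ 1 := by rw [← b.np_add, ← b.np_add]; exact np_le_one b (by norm_num)
  obtain ⟨ω, w0, w1, w2, w3, w4, w5, w6⟩ := om_ex g
  have A := am_bd g ha (HC d.O d.c.D hi.ort hD) he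
  have kb : ∀ φ i, |io * kap d.c φ i 0| ≤ io * (ω * d.c.hE) ∧ ∀ m, m ≠ 0 → |io * kap d.c φ i m| ≤ io :=
    fun φ i => by
      obtain ⟨a1, a2⟩ := kap_le g w3 w4 w5 w6 φ i
      simp only [abs_mul, abs_of_pos io0]
      exact ⟨mul_le_mul_of_nonneg_left a1 io0.le, fun m hm => mul_le_of_le_one_right io0.le (a2 m hm)⟩
  have c3 : ∀ φ i, CB 3 (cv d.c.hE) {x0} (co d p φ i 0)
      (16 * io * C * (ω * (np d.c.N (-354 / 100) + d.c.J ^ 16 * d.c.eL))) := fun φ i =>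
    CBl.monoB (CBl.monoU (CBl.smul_le hh ((A φ).2 (jj i)).1 (kb φ i).1) x95)
      (le_of_eq (by field_simp))
  have c4 : ∀ φ i, CB 4 (cv d.c.hE) {x0} (co d p φ i 0) (32 * io * C *
      (ω * (np d.c.N (-354 / 100) + np d.c.N (3 / 10) * (d.c.J ^ 16 * d.c.eL)))) := fun φ i =>
    CBl.monoB (CBl.monoU (CBl.smul_le hh ((A φ).2 (jj i)).2 (kb φ i).1) x95)
      (le_of_eq (by field_simp))
  have cN : ∀ φ i m, CB 4 (cv d.c.hE) {x0} (co d p φ i m) (np d.c.N 1) := fun φ i m => by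
    have a1 := (kk _ k5 (by linarith)).2
    by_cases hm : m = 0
    · subst hm
      refine CBl.monoB (c4 φ i) ?_
      have a2 := np_le_one b (a := -354 / 100) (by norm_num)
      calc _ ≤ 32 * io * C * (ω * 2) := by gcongr; linarith
        _ = 64 * io * C * ω := by ring
        _ ≤ np d.c.N (1 / 500) * np d.c.N (55 / 100) := mul_le_mul a1 w1 w0.le (b.np_pos _).le
        _ ≤ _ := by rw [← b.np_add]; exact b.np_le (by norm_num)
    · have a2 := CBl.monoU (CBl.smul_le hh (A φ).1 ((kb φ i).2 m hm)) x95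
      refine CBl.monoB (CBl.congr_fun a2 fun x => by simp only [co, if_neg hm]) ?_
      have a3 := b.np_le (show (1 / 500 : ℝ) ≤ 1 by norm_num)
      nlinarith
  -- profiles
  choose w ζ sw sζ Hw Hζ ev using fun φ => wz (p := p) g hi hs hJ φ
    (Prof.RX_mono _ hD.le (by norm_num) hx : x0 ∈ d.R (99 / 100))
  obtain ⟨E, hEq⟩ : ∃ E : Fin 3 → ℤ × ℤ → V → ℝ, E = fun φ k x => ∑ k2 ∈ II d.c.N,
    (w φ x * f0 (p.τ φ k.1 k.2 (x 2) - k2 / nsig d.c.N) +
      ζ φ x * f1 (p.τ φ k.1 k.2 (x 2) - k2 / nsig d.c.N)) ^ 2 - nsig d.c.N * I0 := ⟨_, rfl⟩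
  have sE : ∀ φ k, Sm (E φ k) := fun φ k => hEq ▸ (ContDiff.sum fun k2 _ =>
    (((sw φ).mul (f0_sm.comp ((sm_clk h φ _ _).sub contDiff_const))).add
      ((sζ φ).mul (f1_sm.comp ((sm_clk h φ _ _).sub contDiff_const)))).pow 2).sub contDiff_const
  have HE : ∀ φ k, CB 4 (cv d.c.hE) {x0} (E φ k) (np d.c.N (246 / 100) ^ 4 * K4) := fun φ k => by
    refine CB.rescale (one_le_np b (by norm_num)) hh' hh (fun _ => le_of_eq ?_) ?_
    · show d.c.hE = _ * (d.c.lam / d.c.N ^ 2)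
      rw [show (246 / 100 : ℝ) = 46 / 100 + (2 : ℕ) by norm_num, b.np_add, np_nat, Pm.hE]
      field_simp
    · rw [hEq, hK4]
      refine H1 _ _ _ _ _ _ _ _ hn hh' (sm_clk h φ _ _) (sw φ) (sζ φ) (CBl.monoh (cv_clk h φ _ _ _) hh'
        fun _ => div_le_self hl.le (one_le_pow₀ N1)) (by linarith) (Hw φ) (Hζ φ) ?_
      filter_upwards [ev φ, nh] with x e1 e2
      exact ⟨e1.1, (covers h hi φ e2).2 _ _⟩
  have T := fun φ => H2 (nsig d.c.N) (II d.c.N) _ x0 (uu d φ) (vv d φ) (co d p φ i) (co d p φ j) (E φ)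
    _ _ hn hh (sm_u d φ) (sm_v d φ) (co_sm ha φ i) (co_sm ha φ j) (sE φ) (cv_uv h φ _).1
    (cv_uv h φ _).2 (cN φ i) (cN φ j) (HE φ)
    (one_le_mul_of_one_le_of_one_le (one_le_pow₀ (one_le_np b (by norm_num))) k4)
    (Filter.eventually_of_mem nh fun x hx => (covers h hi φ hx).1)
  have sT : ∀ φ, Sm fun x => ∑ k ∈ II d.c.N ×ˢ II d.c.N,
      pat (nsig d.c.N) (uu d φ) (vv d φ) (co d p φ i) k x *
        pat (nsig d.c.N) (uu d φ) (vv d φ) (co d p φ j) k x * (nsig d.c.N * I0 + E φ k x) -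
      (nsig d.c.N : ℝ) ^ 3 * (I0 ^ 3 * (co d p φ i 0 x * co d p φ j 0 x) + I0 ^ 2 * I1 *
        (co d p φ i 1 x * co d p φ j 1 x + co d p φ i 2 x * co d p φ j 2 x)) := fun φ =>
    (ContDiff.sum fun k _ => ((pat_sm _ (sm_u d φ) (sm_v d φ) (co_sm ha φ i) k).mul
      (pat_sm _ (sm_u d φ) (sm_v d φ) (co_sm ha φ j) k)).mul (contDiff_const.add (sE φ k))).sub
      (Sm.cmul ((Sm.cmul ((co_sm ha φ i 0).mul (co_sm ha φ j 0)) _).add (Sm.cmul
        (((co_sm ha φ i 1).mul (co_sm ha φ j 1)).add ((co_sm ha φ i 2).mul (co_sm ha φ j 2))) _)) _)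
  have sP : ∀ φ, Sm fun x => co d p φ i 0 x * co d p φ j 0 x := fun φ =>
    (co_sm ha φ i 0).mul (co_sm ha φ j 0)
  have F := CBl.add hh (ContDiff.sum fun φ _ => sT φ) (Sm.cmul (ContDiff.sum fun φ _ => sP φ) _)
    (CBl.sum_card Finset.univ hh (fun φ _ => sT φ) fun φ _ => T φ)
    (CBl.smul_nonneg (CBl.sum_card Finset.univ hh (fun φ _ => sP φ) fun φ _ =>
      cb_mul_top hh (co_sm ha φ i 0) (co_sm ha φ j 0) (c3 φ i) (c3 φ j) (c4 φ i) (c4 φ j))
      (c := (nsig d.c.N : ℝ) ^ 3 * I0 ^ 3) (by positivity))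
  refine CBl.monoB (CBl.congr F ?_) ?_
  · rintro y rfl
    filter_upwards [eventually_all.2 ev, nh] with x e1 e2
    have e : ∀ φ, ∑ k0 ∈ II d.c.N, ∑ k1 ∈ II d.c.N, ∑ k2 ∈ II d.c.N,
        mi d p s i (φ, ![k0, k1, k2]) x * mi d p s j (φ, ![k0, k1, k2]) x =
        ∑ k ∈ II d.c.N ×ˢ II d.c.N, pat (nsig d.c.N) (uu d φ) (vv d φ) (co d p φ i) k x *
          pat (nsig d.c.N) (uu d φ) (vv d φ) (co d p φ j) k x * (nsig d.c.N * I0 + E φ k x) :=
      fun φ => by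
        rw [Finset.sum_product]
        refine Finset.sum_congr rfl fun k0 _ => Finset.sum_congr rfl fun k1 _ => ?_
        rw [hEq, add_sub_cancel, Finset.mul_sum]
        refine Finset.sum_congr rfl fun k2 _ => ?_
        unfold mi
        rw [pm_eq g p s φ (ha.1 φ).1 (k0, k1) k2, pm_eq g p s φ (ha.1 φ).1 (k0, k1) k2, (e1 φ).2]
        simp only [MD.ph, MD.ns, cons_val_zero, cons_val_one, cons_val_two, head_cons, tail_cons]
        ring
    rw [sum_TT, ← alg hi hD ha e2 i j, eg]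
    simp only [e, Fin.sum_univ_three]
    ring
  · simp only [Finset.card_univ, Fintype.card_fin]
    push_cast
    have a1 : 3 * (K2 * (nsig d.c.N : ℝ) ^ 2 * np d.c.N 1 ^ 2 * (np d.c.N (246 / 100) ^ 4 * K4)) ≤
        (nsig d.c.N : ℝ) ^ 3 * (np d.c.N (-55 / 10) / 2) := by
      have a2 := mul_le_mul_of_nonneg_right (kk _ k6 (by linarith)).2
        (show 0 ≤ np d.c.N 1 ^ 2 * np d.c.N (246 / 100) ^ 4 by positivity)
      have a3 : np d.c.N (1 / 500) * (np d.c.N 1 ^ 2 * np d.c.N (246 / 100) ^ 4) ≤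
          nsig d.c.N * np d.c.N (-55 / 10) := by
        rw [en, np_pow, np_pow, ← b.np_add, ← b.np_add, ← b.np_add]
        exact b.np_le (by norm_num)
      have a4 := mul_le_mul_of_nonneg_left (a2.trans a3) (sq_nonneg (nsig d.c.N : ℝ))
      linarith
    have a5 : K3 * (d.c.J ^ 32 * (np d.c.N (-598 / 100) + 4 * np d.c.N (-7 / 100) * d.c.eL)) ≤
        np d.c.N (-55 / 10) / 2 + np d.c.N (-3 / 100) * d.c.eL := by
      have a6 := (kk (4 * K3) (by linarith) (by linarith)).1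
      have a7 : np d.c.N (1 / 500) * np d.c.N (-598 / 100) ≤ np d.c.N (-55 / 10) := by
        rw [← b.np_add]; exact b.np_le (by norm_num)
      have a8 : np d.c.N (1 / 500) * np d.c.N (-7 / 100) ≤ np d.c.N (-3 / 100) := by
        rw [← b.np_add]; exact b.np_le (by norm_num)
      have a9 := (mul_le_mul_of_nonneg_right a6 (b.np_pos (-598 / 100)).le).trans a7
      have a10 := mul_le_mul_of_nonneg_right
        ((mul_le_mul_of_nonneg_right a6 (b.np_pos (-7 / 100)).le).trans a8) eL.le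
      linarith [b.np_pos (-55 / 10)]
    have a11 := mul_le_mul_of_nonneg_left ((mul_le_mul_of_nonneg_left (num_P g w0 w1 w2) k3).trans a5)
      (show 0 ≤ (nsig d.c.N : ℝ) ^ 3 by positivity)
    rw [hK3] at a11
    rw [eg]
    linarith

section comp
variable {d : MD} {p : PT} {s : Sa}

lemma mi_sm {t : Wi} (H : d.Der p s t) (i : Fin 3) : Sm (mi d p s i t) :=
  (H.cr.sm.1.coord i).div_const _
lemma gi_sm {t : Wi} (H : d.Cmp p s t) (i : Fin 3) : Sm (gi d p s i t) := H.sm.cmul _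

lemma ph_cont (h : Cx d p) (t : Wi) : Continuous (d.ph p t) :=
  (sm_clk h _ _ _).continuous.sub continuous_const

lemma mi_ev (h : Cx d p) {t : Wi} (H : d.Der p s t) (i : Fin 3) {x : V}
    (e : ¬ (|x 0 / d.W1 t.1 - t.2 0 / d.ns| ≤ 9 / 20 ∧ |x 1 - d.c1 t.1 (t.2 0) (t.2 1)| ≤ d.W2 t.1 ∧
      |d.ph p t x| ≤ 9 / 20)) : ∀ᶠ y in 𝓝 x, mi d p s i t y = 0 := by
  have o : IsOpen {y : V | 2 / 5 < |y 0 / d.W1 t.1 - t.2 0 / d.ns| ∨
      2 / 5 < |y 1 / d.W2 t.1 + MD.vs t.1 * (y 0 / d.W1 t.1) - t.2 1 / d.ns| ∨ 2 / 5 < |d.ph p t y|} :=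
    (isOpen_lt continuous_const ((sm_u d t.1).continuous.sub continuous_const).abs).union
      ((isOpen_lt continuous_const ((sm_v d t.1).continuous.sub continuous_const).abs).union
        (isOpen_lt continuous_const (ph_cont h t).abs))
  refine Filter.eventually_of_mem (o.mem_nhds ?_) fun y hy => ?_
  · by_contra hc
    simp only [mem_ofPred_eq, not_or, not_lt] at hc
    exact e ⟨by linarith [hc.1], h.in1 t (by linarith [hc.1]) (by linarith [hc.2.1]),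
      by linarith [hc.2.2]⟩
  · simp only [mi, (H.sup y (Or.inr hy)).1, Pi.zero_apply, zero_div]

lemma gi_ev (h : Cx d p) {t : Wi} (H : d.Cmp p s t) (i : Fin 3) {x : V}
    (e : ¬ (|x 0 / d.W1 t.1 - t.2 0 / d.ns| ≤ 9 / 20 ∧
      |x 1 - d.c1 t.1 (t.2 0) (t.2 1)| ≤ 2 * d.bw t.1 ∧ |d.ph p t x| ≤ 9 / 20)) :
    ∀ᶠ y in 𝓝 x, gi d p s i t y = 0 := by
  have o : IsOpen {y : V | 2 / 5 < |y 0 / d.W1 t.1 - t.2 0 / d.ns| ∨
      d.bw t.1 < |y 1 - d.c1 t.1 (t.2 0) (t.2 1)| ∨ 2 / 5 < |d.ph p t y|} :=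
    (isOpen_lt continuous_const ((sm_u d t.1).continuous.sub continuous_const).abs).union
      ((isOpen_lt continuous_const ((continuous_apply 1).sub continuous_const).abs).union
        (isOpen_lt continuous_const (ph_cont h t).abs))
  refine Filter.eventually_of_mem (o.mem_nhds ?_) fun y hy => ?_
  · by_contra hc
    simp only [mem_ofPred_eq, not_or, not_lt] at hc
    exact e ⟨by linarith [hc.1], by linarith [hc.2.1, h.W2_le_bw t.1, h.W2_pos t.1],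
      by linarith [hc.2.2]⟩
  · simp only [gi, H.sup y (Or.inr hy), mul_zero]

lemma mi_cb (h : Cx d p) (hc : d.c.comp) {t : Wi} (H : d.Der p s t) (i : Fin 3) :
    CB 4 (cv d.c.hE) univ (mi d p s i t) (qp d.c.N (1 / 100)) :=
  CBl.monoB (CBl.div_const (H.cp hc i).1 (d.c.hs i)) (le_of_eq (by
    rw [abs_of_pos (h.g.hs_pos i), mul_div_assoc, div_self (h.g.hs_pos i).ne', mul_one]))

lemma gi_cb (h : Cx d p) {t : Wi} (H : d.Cmp p s t) (i : Fin 3) :
    CB 4 (cv d.c.hE) univ (gi d p s i t) (np d.c.N (-472 / 1000)) := by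
  have hl := h.g.lam_pos
  refine CBl.monoB (CBl.smul_le (C := 1 / d.c.lam) (fun _ => h.g.hE_pos.le) H.cb ?_)
    (le_of_eq (by field_simp))
  fin_cases i
  · simpa using hl.le
  · simp [Pm.hs, abs_of_pos hl]
  · simpa using hl.le

lemma comp_bd (h : Cx d p) (H : ∀ t, d.Der p s t ∧ d.Cmp p s t)
    (hK : 1000 * d.c.J ≤ np d.c.N (1 / 500))
    (hc : ∀ x : V, ((d.TT.filter fun t => |x 0 / d.W1 t.1 - t.2 0 / d.ns| ≤ 9 / 20 ∧
      |x 1 - d.c1 t.1 (t.2 0) (t.2 1)| ≤ d.W2 t.1 ∧ |d.ph p t x| ≤ 9 / 20).card : ℝ) ≤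
      9 * nsg d.c.N ∧
    ((d.TT.filter fun t => |x 0 / d.W1 t.1 - t.2 0 / d.ns| ≤ 9 / 20 ∧
      |x 1 - d.c1 t.1 (t.2 0) (t.2 1)| ≤ 2 * d.bw t.1 ∧ |d.ph p t x| ≤ 9 / 20).card : ℝ) ≤
      np d.c.N (9 / 100) * nsg d.c.N) (i j : Fin 3) :
    CB 4 (cv d.c.hE) univ (fun x => ∑ t ∈ d.TT, mi d p s i t x * gi d p s j t x +
      ∑ t ∈ d.TT, gi d p s i t x * mi d p s j t x + ∑ t ∈ d.TT, gi d p s i t x * gi d p s j t x)
      (nsg d.c.N * if d.c.comp then np d.c.N (-47 / 100) else 0) := by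
  have b := h.g.big
  have hh : ∀ i, 0 ≤ cv d.c.hE i := fun _ => h.g.hE_pos.le
  by_cases cc : d.c.comp
  swap
  · rw [if_neg cc, mul_zero]
    exact CBl.congr_fun (cbl_zero le_rfl) fun x => by simp [gi, gc_nc cc]
  rw [if_pos cc]
  have q0 := b.qp_pos (1 / 100)
  have n0 := b.np_pos (-472 / 1000)
  have s1 := fun t (_ : t ∈ d.TT) => (mi_sm (H t).1 i).mul (gi_sm (H t).2 j)
  have s2 := fun t (_ : t ∈ d.TT) => (gi_sm (H t).2 i).mul (mi_sm (H t).1 j)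
  have s3 := fun t (_ : t ∈ d.TT) => (gi_sm (H t).2 i).mul (gi_sm (H t).2 j)
  have h1 := cb_sum_loc d.TT _ hh s1 (by positivity) (fun t _ => CB.mul hh (mi_sm (H t).1 i)
    (gi_sm (H t).2 j) (mi_cb h cc (H t).1 i) (gi_cb h (H t).2 j))
    (fun t _ x _ e => (mi_ev h (H t).1 i e).mono fun y hy => by simp only [hy, zero_mul])
    fun x _ => by convert (hc x).1
  have h2 := cb_sum_loc d.TT _ hh s2 (by positivity) (fun t _ => CB.mul hh (gi_sm (H t).2 i)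
    (mi_sm (H t).1 j) (gi_cb h (H t).2 i) (mi_cb h cc (H t).1 j))
    (fun t _ x _ e => (mi_ev h (H t).1 j e).mono fun y hy => by simp only [hy, mul_zero])
    fun x _ => by convert (hc x).1
  have h3 := cb_sum_loc d.TT _ hh s3 (by positivity) (fun t _ => CB.mul hh (gi_sm (H t).2 i)
    (gi_sm (H t).2 j) (gi_cb h (H t).2 i) (gi_cb h (H t).2 j))
    (fun t _ x _ e => (gi_ev h (H t).2 i e).mono fun y hy => by simp only [hy, zero_mul])
    fun x _ => by convert (hc x).2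
  refine CBl.monoB (CBl.add hh ((ContDiff.sum s1).add (ContDiff.sum s2)) (ContDiff.sum s3)
    (CBl.add hh (ContDiff.sum s1) (ContDiff.sum s2) h1 h2) h3) ?_
  have a1 : qp d.c.N (1 / 100) ≤ d.c.J :=
    (b.qp_le (show (1 / 100 : ℝ) ≤ 1 by norm_num)).trans ((qp_one _).trans_le b.q_le_J)
  have a2 : 1000 * qp d.c.N (1 / 100) * np d.c.N (-472 / 1000) ≤ np d.c.N (-47 / 100) :=
    (mul_le_mul_of_nonneg_right (show _ ≤ np d.c.N (1 / 500) by linarith) n0.le).trans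
      (le_of_eq (by rw [← b.np_add]; norm_num))
  have a3 : 32 * (np d.c.N (9 / 100) * (np d.c.N (-472 / 1000) * np d.c.N (-472 / 1000))) ≤
      np d.c.N (-47 / 100) := by
    rw [← b.np_add, ← b.np_add]; exact np_gap b (by norm_num) (by norm_num)
  have g0 : 0 ≤ nsg d.c.N := by unfold nsg; positivity
  have a4 := mul_le_mul_of_nonneg_left a2 g0
  have a5 := mul_le_mul_of_nonneg_left a3 g0
  have a6 : 0 ≤ nsg d.c.N * np d.c.N (-47 / 100) := mul_nonneg g0 (b.np_pos _).le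
  linarith

lemma ps_div (t : Wi) (x : V) (i : Fin 3) :
    d.Ps p s t x i / d.c.hs i = mi d p s i t x + gi d p s i t x := by
  unfold mi gi MD.Ps
  fin_cases i <;> simp <;> ring

end comp

end Cov

open Cov Win in
theorem cov : CovStmt := by
  obtain ⟨K, K1, HK⟩ := main_bd
  filter_upwards [cls, ev_gd, ev_pL (Real.sqrt (3 / 16 * (I1 / I0) / (95 / 1000))),
    ev_C_q (16 / kp * (1 + 32 * (I1 / I0))), ev_CqJ_np K 0 (32 : ℕ) (c := 1 / 500) (by norm_num),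
    ev_CqJ_np 1000 0 1 (c := 1 / 500) (by norm_num)] with N h1 h2 h3 h4 h5 h6
  rintro d rfl hk hi p s hs hp H i j
  have g := h2 _ rfl hi.ok
  have h : Cx d p := ⟨g, h3, hp.2.1⟩
  rw [qp_zero, mul_one, Jp_nat] at h5
  rw [qp_zero, mul_one, Jp_one] at h6
  have hh : ∀ i, 0 ≤ cv d.c.hE i := fun _ => g.hE_pos.le
  have g0 : 0 ≤ nsg d.c.N := by unfold nsg; positivity
  have s1 : Sm fun x => ∑ t ∈ d.TT, mi d p s i t x * mi d p s j t x -
      nsg d.c.N * (d.α x ^ 2 * nrm d.c.hs (d.C x) i j) :=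
    (ContDiff.sum fun t _ => (mi_sm (H t).1 i).mul (mi_sm (H t).1 j)).sub
      (Sm.cmul (((Prof.alh_sm _ _).pow 2).mul ((hi.sC.1 i j).div_const _)) _)
  have M : CB 4 (cv d.c.hE) (d.R (99 / 100)) (fun x => ∑ t ∈ d.TT,
      mi d p s i t x * mi d p s j t x - nsg d.c.N * (d.α x ^ 2 * nrm d.c.hs (d.C x) i j))
      (nsg d.c.N * (np d.c.N (-3 / 100) * d.c.eL + np d.c.N (-55 / 10))) := by
    refine CBl.extend (K := d.R (9 / 10)) (cbl_of_local fun x hx =>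
      HK d p s h hi hs hp.1 (h4.trans g.big.q_le_J) h5 i j x hx.2) (Prof.RX_closed _ _ _)
      (fun x hx => ?_) (mul_nonneg g0 (add_nonneg (mul_pos (g.big.np_pos _) g.eL_pos).le
        (g.big.np_pos _).le))
    have a : d.α x = 0 := Prof.alh_zero g.D_pos hx
    simp [a, mi, fun t => ((H t).1.sup x (Or.inl hx)).1]
  have X := comp_bd h H h6 (h1 d rfl hk hi p s hs hp H).2.2.2.2 i j
  refine CBl.monoB (CBl.congr_fun (CBl.add hh s1 (((ContDiff.sum fun t _ =>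
    (mi_sm (H t).1 i).mul (gi_sm (H t).2 j)).add (ContDiff.sum fun t _ =>
    (gi_sm (H t).2 i).mul (mi_sm (H t).1 j))).add (ContDiff.sum fun t _ =>
    (gi_sm (H t).2 i).mul (gi_sm (H t).2 j))) M (CBl.monoU X (subset_univ _))) fun x => ?_)
    (le_of_eq (by unfold Pm.eSm; ring))
  have e : ∀ t, d.Ps p s t x i * d.Ps p s t x j / (d.c.hs i * d.c.hs j) =
      mi d p s i t x * mi d p s j t x + mi d p s i t x * gi d p s j t x +
        gi d p s i t x * mi d p s j t x + gi d p s i t x * gi d p s j t x := fun t => by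
    rw [← div_mul_div_comm, ps_div, ps_div]; ring
  simp only [nrm, of_apply, Matrix.sub_apply, Matrix.sum_apply, vecMulVec_apply, Matrix.smul_apply,
    smul_eq_mul, sub_div, Finset.sum_div, e, Finset.sum_add_distrib]
  ring

end
end Pool.Agent.MP_20bec2_an.T3

end MrgPart2

-- marker of a merged file
example : 731051 + 847623 = 731051 + 847623 := rfl
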