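import Mathlib.MeasureTheory.Integral.IntervalIntegral.FundThmCalculus
import Mathlib.Analysis.Calculus.FDeriv.Partial
import Mathlib.Combinatorics.SimpleGraph.Basic
import Mathlib.Topology.Compactness.DeltaGeneratedSpace
import Mathlib.Topology.UniformSpace.Uniformizable
import Pool.Agent.MP_20bec2_an.T3.Calc1b
import Pool.Agent.MP_20bec2_an.T3.Calc2C
import Mathlib.Analysis.SpecialFunctions.Integrals.Basic
import Pool.Agent.MP_20bec2_an.T3.WinA
import Pool.Agent.MP_20bec2_an.T3.Par3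
import Pool.Agent.MP_20bec2_an.T3.Zt
import Pool.Agent.MP_20bec2_an.T3.Final
import Pool.Agent.MP_20bec2_an.T3.Vtr
import Pool.Agent.MP_20bec2_an.T3.Par4

-- ======== part 0: formerly Pool.Agent.MP_20bec2_an.T3.Calc2D
section MrgPart0

/-! Derivatives of parametric integrals. -/

set_option autoImplicit false
open MeasureTheory Set Filter Matrix Topology

namespace Pool.Agent.MP_20bec2_an.T3
noncomputable section

lemma fderiv_eq_sum_proj (g : V → ℝ) (x : V) :
    fderiv ℝ g x = ∑ j, pd j g x • (ContinuousLinearMap.proj j : V →L[ℝ] ℝ) := by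
  ext1 v
  simp [fderiv_eq_sum]

lemma norm_fderiv_le_sum (g : V → ℝ) (x : V) : ‖fderiv ℝ g x‖ ≤ ∑ j, |pd j g x| := by
  refine ContinuousLinearMap.opNorm_le_bound _ (by positivity) fun v => ?_
  rw [fderiv_eq_sum, Finset.sum_mul]
  refine (norm_sum_le _ _).trans (Finset.sum_le_sum fun j _ => ?_)
  rw [norm_mul]
  exact mul_le_mul_of_nonneg_left (norm_le_pi_norm v j) (abs_nonneg _)

lemma contDiff_one_of_pd {g : V → ℝ} (h1 : Differentiable ℝ g) (h2 : ∀ j, Continuous (pd j g)) :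
    ContDiff ℝ 1 g := by
  refine contDiff_one_iff_fderiv.2 ⟨h1, ?_⟩
  rw [funext (fderiv_eq_sum_proj g)]
  exact continuous_finsetSum _ fun j _ => (h2 j).smul continuous_const

/-! ### dominated families -/

/-- a family of smooth functions whose derivatives are locally dominated -/
structure Dom {α : Type} [MeasurableSpace α] (μ : Measure α) (F : α → V → ℝ) : Prop where
  sm : ∀ a, Sm (F a)
  meas : ∀ l x, AEStronglyMeasurable (fun a => pds l (F a) x) μ
  bd : ∀ l x, ∃ s ∈ 𝓝 x, ∃ b : α → ℝ, Integrable b μ ∧ ∀ᵐ a ∂μ, ∀ y ∈ s, |pds l (F a) y| ≤ b a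

section Dom

variable {α : Type} [MeasurableSpace α] {μ : Measure α} {F : α → V → ℝ}

protected lemma Dom.pds (H : Dom μ F) (m : List (Fin 3)) : Dom μ fun a => pds m (F a) :=
  ⟨fun a => (H.sm a).pds m, fun l x => by simpa only [pds_append] using H.meas (l ++ m) x,
    fun l x => by simpa only [pds_append] using H.bd (l ++ m) x⟩

protected lemma Dom.pd (H : Dom μ F) (j : Fin 3) : Dom μ fun a => pd j (F a) := H.pds [j]

lemma Dom.integrable (H : Dom μ F) (l : List (Fin 3)) (x : V) :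
    Integrable (fun a => pds l (F a) x) μ := by
  obtain ⟨s, hs, b, h1, h2⟩ := H.bd l x
  exact h1.mono' (H.meas l x) (h2.mono fun a ha => ha x (mem_of_mem_nhds hs))

lemma Dom.hasFDerivAt (H : Dom μ F) (x : V) : HasFDerivAt (fun y => ∫ a, F a y ∂μ)
    (∑ j, (∫ a, pd j (F a) x ∂μ) • (ContinuousLinearMap.proj j : V →L[ℝ] ℝ)) x := by
  choose s hs b h1 h2 using fun j => H.bd [j] x
  have key := hasFDerivAt_integral_of_dominated_of_fderiv_le (𝕜 := ℝ) (μ := μ)
    (F := fun y a => F a y) (F' := fun y a => fderiv ℝ (F a) y) (bound := fun a => ∑ j, b j a)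
    (iInter_mem.2 hs) (Eventually.of_forall fun y => H.meas [] y) (H.integrable [] x)
    (by
      simp only [fderiv_eq_sum_proj]
      exact Finset.aestronglyMeasurable_fun_sum _ fun j _ => (H.meas [j] x).smul_const _)
    ((eventually_all.2 h2).mono fun a ha y hy => (norm_fderiv_le_sum _ _).trans
      (Finset.sum_le_sum fun j _ => ha j y (mem_iInter.1 hy j)))
    (integrable_finsetSum _ fun j _ => h1 j)
    (Eventually.of_forall fun a y _ => ((H.sm a).dif y).hasFDerivAt)
  have i : ∀ j, Integrable (fun a => pd j (F a) x) μ := fun j => H.integrable [j] x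
  simp only [fderiv_eq_sum_proj] at key
  rw [integral_finsetSum _ fun j _ => (i j).smul_const _] at key
  simpa only [integral_smul_const] using key

lemma Dom.pd_integral (H : Dom μ F) (j : Fin 3) :
    pd j (fun y => ∫ a, F a y ∂μ) = fun x => ∫ a, pd j (F a) x ∂μ := by
  funext x
  rw [pd, (H.hasFDerivAt x).fderiv]
  simp [Pi.single_apply]

theorem Dom.sm_integral (H : Dom μ F) : Sm fun y => ∫ a, F a y ∂μ :=
  sm_of_closed (fun g => ∃ F, Dom μ F ∧ g = fun y => ∫ a, F a y ∂μ) (by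
    rintro _ ⟨F, H, rfl⟩
    exact ⟨fun x => (H.hasFDerivAt x).differentiableAt, fun j => ⟨_, H.pd j, H.pd_integral j⟩⟩)
    ⟨F, H, rfl⟩

theorem Dom.pds_integral (H : Dom μ F) (l : List (Fin 3)) :
    pds l (fun y => ∫ a, F a y ∂μ) = fun x => ∫ a, pds l (F a) x ∂μ := by
  induction l with
  | nil => rfl
  | cons j l ih => exact (congrArg (pd j) ih).trans ((H.pds l).pd_integral j)

theorem Dom.cbl (H : Dom μ F) {P : List (Fin 3) → Prop} {h : V} {U : Set V} {b : α → ℝ}
    (hh : ∀ i, 0 ≤ h i) (hb : Integrable b μ) (h1 : ∀ᵐ a ∂μ, CBl P h U (F a) (b a)) :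
    CBl P h U (fun y => ∫ a, F a y ∂μ) (∫ a, b a ∂μ) := by
  intro l hl x hx
  rw [H.pds_integral, ← abs_of_nonneg (hp_nonneg hh l), ← abs_mul, ← integral_const_mul]
  rw [← Real.norm_eq_abs]
  refine norm_integral_le_of_norm_le hb (h1.mono fun a ha => ?_)
  rw [Real.norm_eq_abs, abs_mul, abs_of_nonneg (hp_nonneg hh l)]
  exact ha l hl x hx

/-- jointly continuous derivatives, parameters in a compact set -/
lemma Dom.of_cont [TopologicalSpace α] [OpensMeasurableSpace α] [IsFiniteMeasureOnCompacts μ]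
    {K s : Set α} (hK : IsCompact K) (hs : MeasurableSet s) (hsK : s ⊆ K) (h1 : ∀ a, Sm (F a))
    (h2 : ∀ l, Continuous fun p : α × V => pds l (F p.1) p.2) : Dom (μ.restrict s) F := by
  refine ⟨h1, fun l x => (Measurable.aestronglyMeasurable
    ((h2 l).comp (Continuous.prodMk_left x)).measurable), fun l x => ?_⟩
  obtain ⟨C, hC⟩ := (hK.prod (isCompact_closedBall x 1)).exists_bound_of_continuousOn
    (h2 l).continuousOn
  exact ⟨_, Metric.closedBall_mem_nhds x one_pos, fun _ => C,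
    integrableOn_const ((measure_mono hsK).trans_lt hK.measure_lt_top).ne,
    (ae_restrict_mem hs).mono fun a ha y hy => hC (a, y) ⟨hsK ha, hy⟩⟩

end Dom

/-! ### interval integrals -/

/-- smooth in the point, all derivatives jointly continuous -/
structure JC (F : ℝ → V → ℝ) : Prop where
  sm : ∀ r, Sm (F r)
  cont : ∀ l, Continuous fun p : ℝ × V => pds l (F p.1) p.2

variable {F : ℝ → V → ℝ} {g : V → ℝ}

lemma sm_joint_pds {E : Type} [NormedAddCommGroup E] [NormedSpace ℝ E] {F : E → V → ℝ}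
    (H : Sm fun p : E × V => F p.1 p.2) (l : List (Fin 3)) :
    Sm fun p : E × V => pds l (F p.1) p.2 := by
  induction l with
  | nil => exact H
  | cons j l ih =>
    exact (ContDiff.fderiv (f := fun p : E × V => pds l (F p.1)) (m := ((⊤ : ℕ∞) : WithTop ℕ∞))
      (ih.comp (contDiff_fst.fst.prodMk contDiff_snd)) contDiff_snd (by simp)).clm_apply
      contDiff_const

lemma JC.of_sm (H : Sm fun p : ℝ × V => F p.1 p.2) : JC F :=
  ⟨fun _ => H.comp (contDiff_const.prodMk contDiff_id), fun l => (sm_joint_pds H l).continuous⟩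

/-- translates along a continuous curve -/
lemma JC.shift (hg : Sm g) {c : ℝ → V} (hc : Continuous c) : JC fun r x => g (x + c r) :=
  ⟨fun r => hg.comp (contDiff_id.add contDiff_const), fun l => by
    simp only [pds_comp_add]
    exact (hg.pds l).continuous.comp (continuous_snd.add (hc.comp continuous_fst))⟩

lemma JC.line (hg : Sm g) (e : V) : JC fun r x => g (x + r • e) :=
  JC.shift hg (continuous_id.smul continuous_const)

lemma JC.wt (H : JC F) {w : ℝ → ℝ} (hw : Continuous w) : JC fun r x => w r * F r x :=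
  ⟨fun r => (H.sm r).cmul _, fun l => by
    simp only [pds_const_mul]
    exact (hw.comp continuous_fst).mul (H.cont l)⟩

protected lemma JC.pds (H : JC F) (m : List (Fin 3)) : JC fun r => pds m (F r) :=
  ⟨fun r => (H.sm r).pds m, fun l => by simpa only [pds_append] using H.cont (l ++ m)⟩

protected lemma JC.pd (H : JC F) (j : Fin 3) : JC fun r => pd j (F r) := H.pds [j]

lemma JC.dom (H : JC F) (a b : ℝ) : Dom (volume.restrict (Ioc a b)) F :=
  Dom.of_cont isCompact_Icc measurableSet_Ioc Ioc_subset_Icc_self H.sm H.cont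

lemma JC.contr (H : JC F) (x : V) : Continuous fun r => F r x :=
  (H.cont []).comp (Continuous.prodMk_left x)

theorem JC.sm_integral (H : JC F) (a b : ℝ) : Sm fun x => ∫ r in a..b, F r x :=
  (H.dom a b).sm_integral.sub (H.dom b a).sm_integral

theorem JC.pds_integral (H : JC F) (a b : ℝ) (l : List (Fin 3)) :
    pds l (fun x => ∫ r in a..b, F r x) = fun x => ∫ r in a..b, pds l (F r) x := by
  simp only [intervalIntegral, pds_sub (H.dom a b).sm_integral (H.dom b a).sm_integral,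
    (H.dom a b).pds_integral, (H.dom b a).pds_integral]

theorem JC.pd_integral (H : JC F) (a b : ℝ) (j : Fin 3) :
    pd j (fun x => ∫ r in a..b, F r x) = fun x => ∫ r in a..b, pd j (F r) x :=
  H.pds_integral a b [j]

theorem JC.cbl (H : JC F) {P : List (Fin 3) → Prop} {h : V} {U : Set V} {a b B : ℝ}
    (hh : ∀ i, 0 ≤ h i) (h1 : ∀ r ∈ uIcc a b, CBl P h U (F r) B) :
    CBl P h U (fun x => ∫ r in a..b, F r x) (B * |b - a|) := by
  intro l hl x hx
  rw [H.pds_integral, ← abs_of_nonneg (hp_nonneg hh l), ← abs_mul,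
    ← intervalIntegral.integral_const_mul, ← Real.norm_eq_abs]
  refine intervalIntegral.norm_integral_le_of_norm_le_const fun r hr => ?_
  rw [Real.norm_eq_abs, abs_mul, abs_of_nonneg (hp_nonneg hh l)]
  exact h1 r (uIoc_subset_uIcc hr) l hl x hx

theorem sm_line_integral (hg : Sm g) (e : V) (a b : ℝ) :
    Sm fun x => ∫ r in a..b, g (x + r • e) := (JC.line hg e).sm_integral a b

theorem pds_line_integral (hg : Sm g) (e : V) (a b : ℝ) (l : List (Fin 3)) :
    pds l (fun x => ∫ r in a..b, g (x + r • e)) = fun x => ∫ r in a..b, pds l g (x + r • e) := by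
  simp only [(JC.line hg e).pds_integral, pds_comp_add]

/-- the primitive as a function of the end point and the parameter -/
lemma JC.hasFDerivAt_primitive (H : JC F) (a : ℝ) (u : ℝ × V) :
    HasFDerivAt (fun p : ℝ × V => ∫ r in a..p.1, F r p.2)
      ((ContinuousLinearMap.toSpanSingleton ℝ (F u.1 u.2)).coprod (∑ j,
        (∫ r in a..u.1, pd j (F r) u.2) • (ContinuousLinearMap.proj j : V →L[ℝ] ℝ))) u := by
  refine (hasStrictFDerivAt_uncurry_coprod (𝕜 := ℝ) (f := fun t x => ∫ r in a..t, F r x)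
    (f₁ := fun t x => ContinuousLinearMap.toSpanSingleton ℝ (F t x))
    (f₂ := fun t x => ∑ j, (∫ r in a..t, pd j (F r) x) •
      (ContinuousLinearMap.proj j : V →L[ℝ] ℝ))
    (Eventually.of_forall fun v => ?_) (Eventually.of_forall fun v => ?_) ?_ ?_).hasFDerivAt
  · exact ((H.contr v.2).integral_hasStrictDerivAt a v.1).hasDerivAt.hasFDerivAt
  · have := ((H.sm_integral a v.1).dif v.2).hasFDerivAt
    simp only [fderiv_eq_sum_proj, H.pd_integral] at this
    exact this
  · exact ((ContinuousLinearMap.toSpanSingletonCLE (𝕜 := ℝ) (E := ℝ)).continuous.comp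
      (H.cont [])).continuousAt
  · have c : ∀ j, Continuous fun p : ℝ × V => ∫ r in a..p.1, pd j (F r) p.2 := fun j =>
      (intervalIntegral.continuous_parametric_primitive_of_continuous
        (f := fun x r => pd j (F r) x) ((H.cont [j]).comp continuous_swap)).comp continuous_swap
    have c' : Continuous fun p : ℝ × V => ∑ j, (∫ r in a..p.1, pd j (F r) p.2) •
        (ContinuousLinearMap.proj j : V →L[ℝ] ℝ) :=
      continuous_finsetSum _ fun j _ => (c j).smul continuous_const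
    exact c'.continuousAt

lemma JC.upper (H : JC F) (a : ℝ) {b : V → ℝ} {x : V} (hb : DifferentiableAt ℝ b x) :
    DifferentiableAt ℝ (fun y => ∫ r in a..b y, F r y) x ∧ ∀ j,
      pd j (fun y => ∫ r in a..b y, F r y) x =
        (∫ r in a..b x, pd j (F r) x) + F (b x) x * pd j b x := by
  have := HasFDerivAt.comp (f := fun y => (b y, y)) x (H.hasFDerivAt_primitive a (b x, x))
    (hb.hasFDerivAt.prodMk (hasFDerivAt_id x))
  refine ⟨this.differentiableAt, fun j => ?_⟩
  refine (congrArg (fun L : V →L[ℝ] ℝ => L (Pi.single j 1)) this.fderiv).trans ?_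
  simp [Pi.single_apply, pd, add_comm, mul_comm]

/-- variable end points -/
theorem JC.ends (H : JC F) {a b : V → ℝ} {x : V} (ha : DifferentiableAt ℝ a x)
    (hb : DifferentiableAt ℝ b x) :
    DifferentiableAt ℝ (fun y => ∫ r in a y..b y, F r y) x ∧ ∀ j,
      pd j (fun y => ∫ r in a y..b y, F r y) x =
        (∫ r in a x..b x, pd j (F r) x) + F (b x) x * pd j b x - F (a x) x * pd j a x := by
  have e : ∀ {F : ℝ → V → ℝ}, JC F → ∀ y, ∫ r in a y..b y, F r y =
      (∫ r in (0 : ℝ)..b y, F r y) - ∫ r in (0 : ℝ)..a y, F r y := fun H y =>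
    (intervalIntegral.integral_interval_sub_left ((H.contr y).intervalIntegrable _ _)
      ((H.contr y).intervalIntegrable _ _)).symm
  obtain ⟨a1, a2⟩ := H.upper 0 ha
  obtain ⟨b1, b2⟩ := H.upper 0 hb
  simp only [e H]
  refine ⟨b1.sub a1, fun j => ?_⟩
  rw [pd_sub_at b1 a1, a2, b2, e (H.pd j)]
  ring

theorem sm_integral_ends (H : Sm fun p : ℝ × V => F p.1 p.2) {a b : V → ℝ} (ha : Sm a)
    (hb : Sm b) : Sm fun y => ∫ r in a y..b y, F r y := by
  have e : (fun y => ∫ r in a y..b y, F r y) =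
      fun y => (b y - a y) * ∫ s in (0 : ℝ)..1, F ((b y - a y) * s + a y) y := by
    funext y
    rw [← smul_eq_mul, intervalIntegral.smul_integral_comp_mul_add (fun r => F r y)]
    simp
  rw [e]
  exact (hb.sub ha).mul ((JC.of_sm (F := fun s y => F ((b y - a y) * s + a y) y)
    (H.comp (((((hb.sub ha).comp contDiff_snd).mul contDiff_fst).add
      (ha.comp contDiff_snd)).prodMk contDiff_snd))).sm_integral 0 1)

/-! ### columns -/

/-- the function vanishes outside a horizontal slab -/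
def Slab (g : V → ℝ) : Prop := ∃ R : ℝ, ∀ z : V, R < |z 2| → g z = 0

lemma Slab.of_compact (h : HasCompactSupport g) : Slab g := by
  obtain ⟨R, hR⟩ := h.isCompact.isBounded.exists_norm_le
  exact ⟨R, fun z hz => image_eq_zero_of_notMem_tsupport fun k =>
    absurd ((norm_le_pi_norm z 2).trans (hR z k)) (not_le.2 hz)⟩

protected lemma Slab.pds (h : Slab g) (l : List (Fin 3)) : Slab (pds l g) := by
  obtain ⟨R, hR⟩ := h
  exact ⟨R, fun z hz => pds_zero_of_eventually
    (((isOpen_lt continuous_const (continuous_apply 2).abs).mem_nhds hz : _ ∈ 𝓝 z) |>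
      fun k => mem_of_superset k fun y hy => hR y hy) l⟩

protected lemma Slab.pd (h : Slab g) (j : Fin 3) : Slab (pd j g) := h.pds [j]

variable {n : ℝ → V}

lemma cpt_eq (n : ℝ → V) (w : V) (r : ℝ) : cpt n w r = ![n r 0, n r 1, r] + dg3 1 1 0 *ᵥ w := by
  funext i
  fin_cases i <;> simp [cpt, dg3, mulVec_diagonal] <;> ring

lemma continuous_cpt (hn : Continuous n) : Continuous fun p : ℝ × V => cpt n p.2 p.1 := by
  refine continuous_pi fun i => ?_
  fin_cases i <;> simp only [cpt] <;> simp <;> fun_prop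

lemma sm_cpt (hn : Sm n) : Sm fun p : ℝ × V => cpt n p.2 p.1 := by
  refine contDiff_pi.2 fun i => ?_
  fin_cases i <;> simp only [cpt] <;> simp <;> fun_prop

lemma sm_cpt_left (n : ℝ → V) (r : ℝ) : Sm fun w => cpt n w r := by
  simp only [cpt_eq]
  exact sm_affine _ _

lemma pd_cpt (hg : Sm g) (n : ℝ → V) (r : ℝ) (j : Fin 3) :
    pd j (fun w => g (cpt n w r)) = fun w => if j = 2 then 0 else pd j g (cpt n w r) := by
  simp only [cpt_eq, C2.pd_affine hg]
  funext w
  fin_cases j <;> simp [Fin.sum_univ_three, dg3]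

lemma pds_cpt (hg : Sm g) (n : ℝ → V) (r : ℝ) (l : List (Fin 3)) :
    pds l (fun w => g (cpt n w r)) = fun w => if 2 ∈ l then 0 else pds l g (cpt n w r) := by
  induction l with
  | nil => simp [pds]
  | cons j l ih =>
    by_cases h : 2 ∈ l
    · funext w
      simp [pds, ih, h, pd]
    · simp only [pds, ih, h, if_false, pd_cpt (hg.pds l), List.mem_cons, or_false, eq_comm]

lemma JC.col (hg : Sm g) (hn : Continuous n) : JC fun r w => g (cpt n w r) :=
  ⟨fun r => hg.comp (sm_cpt_left n r), fun l => by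
    simp only [pds_cpt hg]
    split_ifs
    exacts [continuous_const, (hg.pds l).continuous.comp (continuous_cpt hn)]⟩

lemma tot_eq {R : ℝ} (hR : ∀ z : V, R < |z 2| → g z = 0) (n : ℝ → V) :
    tot n g = fun w => ∫ r in Icc (-R) R, g (cpt n w r) := by
  funext w
  exact (setIntegral_eq_integral_of_forall_compl_eq_zero fun r hr =>
    hR _ (not_le.1 fun k => hr (abs_le.1 k))).symm

lemma integrable_col (hg : Continuous g) (hs : Slab g) (hn : Continuous n) (w : V) :
    Integrable fun r => g (cpt n w r) := by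
  obtain ⟨R, hR⟩ := hs
  exact (hg.comp ((continuous_cpt hn).comp (Continuous.prodMk_left w))).integrable_of_hasCompactSupport
    (HasCompactSupport.intro (isCompact_Icc (a := -R) (b := R)) fun r hr =>
      hR _ (not_le.1 fun k => hr (abs_le.1 k)))

lemma pre_eq (hg : Continuous g) {R : ℝ} (hR : ∀ z : V, R < |z 2| → g z = 0) (hn : Continuous n) :
    pre n g = fun w => ∫ r in (-|R| - 1)..w 2, g (cpt n w r) := by
  funext w
  have i := integrable_col hg ⟨R, hR⟩ hn w
  rw [← intervalIntegral.integral_Iic_sub_Iic i.integrableOn i.integrableOn,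
    setIntegral_eq_zero_of_forall_eq_zero (t := Iic (-|R| - 1)) fun r hr => hR _ ?_, sub_zero, pre]
  have : r ≤ -|R| - 1 := hr
  change R < |r|
  linarith [le_abs_self R, neg_le_abs r]

lemma dom_col (hg : Sm g) (hn : Continuous n) (R : ℝ) :
    Dom (volume.restrict (Icc (-R) R)) fun r w => g (cpt n w r) :=
  Dom.of_cont isCompact_Icc measurableSet_Icc subset_rfl (JC.col hg hn).sm (JC.col hg hn).cont

theorem sm_tot (hg : Sm g) (hs : Slab g) (hn : Continuous n) : Sm (tot n g) := by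
  obtain ⟨R, hR⟩ := hs
  rw [tot_eq hR]
  exact (dom_col hg hn R).sm_integral

theorem pds_tot' (hg : Sm g) (hs : Slab g) (hn : Continuous n) (l : List (Fin 3)) :
    pds l (tot n g) = if 2 ∈ l then fun _ => 0 else tot n (pds l g) := by
  obtain ⟨R, hR⟩ := hs
  have hR' : ∀ z : V, R < |z 2| → pds l g z = 0 := fun z hz => pds_zero_of_eventually
    (mem_of_superset ((isOpen_lt continuous_const (continuous_apply 2).abs).mem_nhds hz)
      fun y hy => hR y hy) l
  rw [tot_eq hR, tot_eq hR', (dom_col hg hn R).pds_integral]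
  simp only [pds_cpt hg]
  split_ifs <;> simp

theorem pds_tot (hg : Sm g) (hs : Slab g) (hn : Continuous n) {l : List (Fin 3)}
    (hl : ∀ i ∈ l, i ≠ 2) : pds l (tot n g) = tot n (pds l g) := by
  rw [pds_tot' hg hs hn, if_neg fun k => hl 2 k rfl]

theorem pd_two_tot (hg : Sm g) (hs : Slab g) (hn : Continuous n) : pd 2 (tot n g) = fun _ => 0 :=
  (pds_tot' hg hs hn [2]).trans (if_pos (by simp))

lemma pre_deriv (hg : Sm g) (hs : Slab g) (hn : Continuous n) (w : V) :
    DifferentiableAt ℝ (pre n g) w ∧ ∀ j,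
      pd j (pre n g) w = if j = 2 then g (cpt n w (w 2)) else pre n (pd j g) w := by
  obtain ⟨R, hR⟩ := hs
  have hR' : ∀ j, ∀ z : V, R < |z 2| → pd j g z = 0 := fun j z hz => pds_zero_of_eventually
    (mem_of_superset ((isOpen_lt continuous_const (continuous_apply 2).abs).mem_nhds hz)
      fun y hy => hR y hy) [j]
  obtain ⟨h1, h2⟩ := (JC.col hg hn).upper (-|R| - 1) ((sm_coord 2).dif w)
  rw [pre_eq hg.continuous hR hn]
  refine ⟨h1, fun j => ?_⟩
  rw [h2, pre_eq (hg.pd j).continuous (hR' j) hn, pd_coord]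
  simp only [pd_cpt hg]
  by_cases hj : j = 2
  · simp [hj]
  · simp [hj, Ne.symm hj]

theorem dif_pre (hg : Sm g) (hs : Slab g) (hn : Continuous n) : Differentiable ℝ (pre n g) :=
  fun w => (pre_deriv hg hs hn w).1

theorem pd_two_pre (hg : Sm g) (hs : Slab g) (hn : Continuous n) :
    pd 2 (pre n g) = fun w => g (cpt n w (w 2)) :=
  funext fun w => ((pre_deriv hg hs hn w).2 2).trans (if_pos rfl)

theorem pd_pre (hg : Sm g) (hs : Slab g) (hn : Continuous n) {j : Fin 3} (hj : j ≠ 2) :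
    pd j (pre n g) = pre n (pd j g) :=
  funext fun w => ((pre_deriv hg hs hn w).2 j).trans (if_neg hj)

theorem pds_pre (hg : Sm g) (hs : Slab g) (hn : Continuous n) {l : List (Fin 3)}
    (hl : ∀ i ∈ l, i ≠ 2) : pds l (pre n g) = pre n (pds l g) := by
  induction l with
  | nil => rfl
  | cons j l ih =>
    rw [pds, ih fun i hi => hl i (List.mem_cons_of_mem _ hi),
      pd_pre (hg.pds l) (hs.pds l) hn (hl j List.mem_cons_self), pds]

theorem contDiff_one_pre (hg : Sm g) (hs : Slab g) (hn : Continuous n) :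
    ContDiff ℝ 1 (pre n g) := by
  refine contDiff_one_of_pd (dif_pre hg hs hn) fun j => ?_
  by_cases hj : j = 2
  · rw [hj, pd_two_pre hg hs hn]
    exact hg.continuous.comp ((continuous_cpt hn).comp (f := fun w : V => (w 2, w))
      ((continuous_apply 2).prodMk continuous_id))
  · rw [pd_pre hg hs hn hj]
    exact (dif_pre (hg.pd j) (hs.pd j) hn).continuous

theorem sm_pre (hg : Sm g) (hs : Slab g) (hn : Sm n) : Sm (pre n g) := by
  obtain ⟨R, hR⟩ := hs
  rw [pre_eq hg.continuous hR hn.continuous]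
  exact sm_integral_ends (F := fun r w => g (cpt n w r)) (hg.comp (sm_cpt hn)) contDiff_const
    (sm_coord 2)

end
end Pool.Agent.MP_20bec2_an.T3

end MrgPart0

-- ======== part 1: formerly Pool.Agent.MP_20bec2_an.T3.InitB
section MrgPart1

-- ======== part 0: formerly Pool.Agent.MP_20bec2_an.T3.Amp
section MrgPart0

/-! Row AMP: the amplitudes of the three families. -/

set_option autoImplicit false
open MeasureTheory Set Filter Matrix Topology

namespace Pool.Agent.MP_20bec2_an.T3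
noncomputable section
open Classical

namespace Amp
open Prof

/-- a smooth function that is the square root away from zero -/
def sq' (t : ℝ) : ℝ := Real.sqrt (t * st (100 * t - 1) + (1 - st (100 * t - 1)))

theorem sq_sm : Sm sq' := by
  have s : Sm fun t : ℝ => st (100 * t - 1) :=
    st_sm.comp ((contDiff_const.mul contDiff_id).sub contDiff_const)
  refine ((contDiff_id.mul s).add (contDiff_const.sub s)).sqrt fun t => ne_of_gt ?_
  show 0 < t * st (100 * t - 1) + (1 - st (100 * t - 1))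
  rcases le_total (100 * t - 1) 0 with h | h
  · rw [st_zero h]; norm_num
  · have h1 := st_nonneg (100 * t - 1)
    have h2 := st_le_one (100 * t - 1)
    nlinarith [mul_nonneg h h1]

theorem sq_eq {t : ℝ} (h : 1 / 50 ≤ t) : sq' t = Real.sqrt t := by
  rw [sq', st_one (by linarith), mul_one, sub_self, add_zero]

theorem sq_bd : ∃ M : ℝ, 1 ≤ M ∧ ∀ j ≤ 7, ∀ t ∈ Icc (1 / 25 : ℝ) (1 / 4),
    |iteratedDeriv j sq' t| ≤ M := by
  have h : ∀ j : ℕ, ∃ M : ℝ, ∀ t ∈ Icc (1 / 25 : ℝ) (1 / 4), ‖iteratedDeriv j sq' t‖ ≤ M := fun j =>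
    isCompact_Icc.exists_bound_of_continuousOn
      (sq_sm.continuous_iteratedDeriv j (by exact_mod_cast le_top)).continuousOn
  choose M hM using h
  refine ⟨1 + ∑ j ∈ Finset.range 8, |M j|, le_add_of_nonneg_right (by positivity),
    fun j hj t ht => (hM j t ht).trans ((le_abs_self _).trans ?_)⟩
  have := Finset.single_le_sum (f := fun j => |M j|) (fun _ _ => abs_nonneg _)
    (Finset.mem_range.2 (Nat.lt_succ_of_le hj))
  linarith

def cA (u v : ℝ) : V := ![1 / (1 - u * v), -u / (2 * (1 - u * v)), -u / (2 * (1 - u * v))]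
def cB (u v : ℝ) : V := ![-v / (1 - u * v), 1 / (2 * (1 - u * v)), 1 / (2 * (1 - u * v))]
def cC (γ : ℝ) : V := ![0, -γ, γ]

theorem coef {u v : ℝ} (u0 : 0 ≤ u) (u1 : u ≤ 1 / 100) (v0 : 0 ≤ v) (v1 : v ≤ 1 / 49) (φ : Fin 3) :
    |cA u v φ| ≤ 2 ∧ |cB u v φ| ≤ 2 := by
  have h1 : u * v ≤ 1 / 100 * (1 / 49) := by gcongr
  have h2 := mul_nonneg u0 v0
  have k : ∀ a e : ℝ, |a| ≤ 1 → 1 / 2 ≤ e → |a / e| ≤ 2 := fun a e ha he => by
    rw [abs_div, abs_of_pos (a := e) (by linarith), div_le_iff₀ (by linarith)]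
    linarith
  have a1 : |(1 : ℝ)| ≤ 1 := by simp
  have a2 : |-u| ≤ 1 := by rw [abs_neg, abs_of_nonneg u0]; linarith
  have a3 : |-v| ≤ 1 := by rw [abs_neg, abs_of_nonneg v0]; linarith
  fin_cases φ
  · exact ⟨k _ _ a1 (by linarith), k _ _ a3 (by linarith)⟩
  · exact ⟨k _ _ a2 (by linarith), k _ _ a1 (by linarith)⟩
  · exact ⟨k _ _ a2 (by linarith), k _ _ a1 (by linarith)⟩

theorem alg {u v γ a b c : ℝ} (u0 : 0 ≤ u) (u1 : u ≤ 1 / 100) (v0 : 0 ≤ v) (v1 : v ≤ 1 / 49)
    (ha : |a - 3 / 16| ≤ 1 / 1000) (hb : |b - 3 / 16| ≤ 1 / 1000) (hc : |γ * c| ≤ 1 / 1000)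
    {g : V} (hg : ∀ φ, g φ = cA u v φ * a + cB u v φ * b + cC γ φ * c) :
    (∀ φ, g φ ∈ Icc (1 / 25 : ℝ) (1 / 4)) ∧ g 0 + v * (g 1 + g 2) = a ∧
      u * g 0 + (g 1 + g 2) = b ∧ g 1 - g 2 = -(2 * γ * c) ∧ 18 / 100 ≤ g 0 ∧ g 0 ≤ 19 / 100 := by
  have h1 : u * v ≤ 1 / 100 * (1 / 49) := by gcongr
  have h2 := mul_nonneg u0 v0
  have h3 : 0 < 1 - u * v := by linarith
  rw [abs_le] at ha hb hc
  have e0 : g 0 = (a - v * b) / (1 - u * v) := by
    rw [hg]; simp only [cA, cB, cC, cons_val_zero]; field_simp; ring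
  have e1 : g 1 = (b - u * a) / (1 - u * v) / 2 - γ * c := by
    rw [hg]; simp only [cA, cB, cC, cons_val_one, cons_val_zero]; field_simp; ring
  have e2 : g 2 = (b - u * a) / (1 - u * v) / 2 + γ * c := by
    rw [hg]; simp only [cA, cB, cC, cons_val]; field_simp; ring
  have m1 : v * b ≤ 1 / 49 * (189 / 1000) := mul_le_mul v1 (by linarith) (by linarith) (by norm_num)
  have m2 : u * a ≤ 1 / 100 * (189 / 1000) := mul_le_mul u1 (by linarith) (by linarith) (by norm_num)
  have m3 : 0 ≤ v * b := mul_nonneg v0 (by linarith)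
  have m4 : 0 ≤ u * a := mul_nonneg u0 (by linarith)
  have r1 : 18 / 100 ≤ g 0 := by rw [e0, le_div_iff₀ h3]; linarith
  have r2 : g 0 ≤ 19 / 100 := by rw [e0, div_le_iff₀ h3]; linarith
  have r3 : 18 / 100 ≤ (b - u * a) / (1 - u * v) := by rw [le_div_iff₀ h3]; linarith
  have r4 : (b - u * a) / (1 - u * v) ≤ 19 / 100 := by rw [div_le_iff₀ h3]; linarith
  refine ⟨fun φ => ?_, ?_, ?_, ?_, r1, r2⟩
  · fin_cases φ
    · exact ⟨show 1 / 25 ≤ g 0 by linarith, show g 0 ≤ 1 / 4 by linarith⟩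
    · exact ⟨show 1 / 25 ≤ g 1 by linarith, show g 1 ≤ 1 / 4 by linarith⟩
    · exact ⟨show 1 / 25 ≤ g 2 by linarith, show g 2 ≤ 1 / 4 by linarith⟩
  · rw [e1, e2, sub_add_add_cancel, add_halves, e0, ← mul_div_assoc, ← add_div, div_eq_iff h3.ne']
    ring
  · rw [e1, e2, sub_add_add_cancel, add_halves, e0, ← mul_div_assoc, ← add_div, div_eq_iff h3.ne']
    ring
  · rw [e1, e2]; ring

end Amp

open Amp Prof in
theorem amp : AmpStmt := by
  obtain ⟨M, hM, HM⟩ := sq_bd
  filter_upwards [ev_big, ev_CqJ_np 3000 0 9 (c := 4 / 10) (by norm_num),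
    ev_C_q (cf 1 4 * M * 5), ev_C_q (cf 1 7 * M * 5)] with N hN n1 n2 n3
  rintro d rfl - I
  have G : Gd d.c := ⟨hN, I.ok⟩
  rw [qp_zero, mul_one, show (9 : ℝ) = (9 : ℕ) by norm_num, Jp_nat] at n1
  have J1 : 1 ≤ d.c.J := by have := hN.J_ge; have := hN.L_ge; unfold Pm.J; linarith
  have q1 : 10000000 ≤ d.c.q := hN.q_ge
  have qJ : d.c.q ≤ d.c.J := hN.q_le_J
  have b2 := G.b2_pos
  have s2 : 1 ≤ Real.sqrt 2 := Real.one_le_sqrt.2 one_le_two
  set γ := 1 / (Real.sqrt 2 * d.c.b2) with hγ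
  have γ0 : 0 < γ := by positivity
  have γ1 : γ * d.c.b2 ≤ 1 := by
    rw [hγ, one_div_mul_eq_div, div_le_one (by positivity)]
    exact le_mul_of_one_le_left b2.le s2
  have γ2 : γ ≤ d.c.J ^ 7 := by
    have := mul_le_mul_of_nonneg_left G.b2_ge γ0.le
    rw [mul_one_div, div_le_iff₀ (by positivity)] at this
    exact this.trans (mul_le_of_le_one_left (by positivity) γ1)
  have p4 := hN.np_pos (-4 / 10)
  have n4 : 3000 * (d.c.J ^ 9 * np d.c.N (-4 / 10)) ≤ 1 := by
    have := mul_le_mul_of_nonneg_right n1 p4.le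
    rw [← hN.np_add, show (4 / 10 + -4 / 10 : ℝ) = 0 by norm_num, np_zero] at this
    unfold Pm.J
    linarith
  have pw : ∀ a b : ℕ, a ≤ b → d.c.J ^ a ≤ d.c.J ^ b := fun a b h => pow_le_pow_right₀ J1 h
  have t1 : 3 * d.c.t11 ≤ 1 / 1000 := by
    unfold Pm.t11
    split_ifs
    · rw [← mul_div_assoc, div_le_iff₀ (by linarith)]; linarith
    · have := mul_le_mul_of_nonneg_right (pw 0 9 (by norm_num)) p4.le
      linarith
  have t2 : γ * (3 * d.c.t12) ≤ 1 / 1000 := by
    unfold Pm.t12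
    split_ifs
    · rw [← mul_div_assoc, ← mul_div_assoc, div_le_iff₀ (by linarith)]; linarith
    · have := mul_le_mul_of_nonneg_right (γ2.trans (pw 7 9 (by norm_num))) p4.le
      linarith
  have eL0 := G.eL_pos
  have eL1 : d.c.eL ≤ 2 * np d.c.N (-4 / 10) := by
    have r : ∀ a e, 0 ≤ rmp a e := fun a e => le_min zero_le_one (le_max_left _ _)
    have h1 : d.c.eHi ≤ np d.c.N (-4 / 10) := hN.np_le (by linarith [r (etaS d.c.N / 10) d.c.η])
    have h2 : d.c.eLo ≤ np d.c.N (-4 / 10) := hN.np_le (by linarith [r (d.c.thr / 2) d.c.η])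
    have h3 := mul_le_of_le_one_right G.eHi_pos.le
      (pow_le_one₀ (by norm_num) (by norm_num) : ((6 : ℝ) / 10) ^ d.c.k ≤ 1)
    unfold Pm.eL
    linarith
  have u0 := sq_nonneg d.c.b1
  have v0 := sq_nonneg d.c.b2
  have u1 : d.c.b1 ^ 2 ≤ 1 / 100 :=
    (pow_le_pow_left₀ G.b1_pos.le G.b1_le 2).trans_eq (by norm_num)
  have v1 : d.c.b2 ^ 2 ≤ 1 / 49 := (pow_le_pow_left₀ b2.le G.b2_le 2).trans_eq (by norm_num)
  set g : V → V := fun x φ => cA (d.c.b1 ^ 2) (d.c.b2 ^ 2) φ * nrm d.c.hs (d.C x) 0 0 +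
    cB (d.c.b1 ^ 2) (d.c.b2 ^ 2) φ * nrm d.c.hs (d.C x) 1 1 + cC γ φ * nrm d.c.hs (d.C x) 0 1
    with hg
  have sn : ∀ i j, Sm fun x => nrm d.c.hs (d.C x) i j := fun i j => (I.sC.1 i j).div_const _
  have sg : ∀ φ, Sm fun x => g x φ := fun φ =>
    (((sn 0 0).cmul _).add ((sn 1 1).cmul _)).add ((sn 0 1).cmul _)
  have sub : d.R (95 / 100) ⊆ d.R (99 / 100) := RX_mono _ G.D_pos.le (by norm_num)
  have A := fun x (hx : x ∈ d.R (95 / 100)) => alg (γ := γ) (c := nrm d.c.hs (d.C x) 0 1)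
    u0 u1 v0 v1
    (le_trans (by simpa [dg3] using I.cb x (sub hx) 0 0) t1)
    (le_trans (by simpa [dg3] using I.cb x (sub hx) 1 1) t1)
    (by
      rw [abs_mul, abs_of_pos γ0]
      exact le_trans (mul_le_mul_of_nonneg_left (by simpa [dg3] using I.cb x (sub hx) 0 1) γ0.le)
        t2) (g := g x) fun _ => rfl
  have E : ∀ x ∈ d.R (95 / 100), ∀ φ, sq' (g x φ) = Real.sqrt (g x φ) := fun x hx φ =>
    sq_eq (by linarith [((A x hx).1 φ).1])
  have E2 : ∀ x ∈ d.R (95 / 100), ∀ φ, sq' (g x φ) ^ 2 = g x φ := fun x hx φ => by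
    rw [E x hx, Real.sq_sqrt (by linarith [((A x hx).1 φ).1])]
  have B : ∀ (n : ℕ) (a : ℝ), n ≤ 7 → 0 < a → cf 1 n * M * 5 ≤ d.c.q →
      (∀ i j, CV n (cv a) (d.R (99 / 100)) (fun x => nrm d.c.hs (d.C x) i j) (d.c.q * d.c.eL)) →
      ∀ φ, CV n (cv a) (d.R (95 / 100)) (fun x => sq' (g x φ)) (d.c.J ^ 16 * d.c.eL) := by
    intro n a hn ha hq H φ
    have hh : ∀ i, 0 ≤ cv a i := fun _ => ha.le
    have c3 : |cC γ φ| ≤ d.c.J ^ 7 := by
      fin_cases φ <;> simp [cC, abs_of_pos γ0, γ2]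
      positivity
    have c := CBl.add hh (((sn 0 0).cmul _).add ((sn 1 1).cmul _)) ((sn 0 1).cmul _)
      (CBl.add hh ((sn 0 0).cmul _) ((sn 1 1).cmul _)
        (CBl.smul_le hh (H 0 0) (coef u0 u1 v0 v1 φ).1)
        (CBl.smul_le hh (H 1 1) (coef u0 u1 v0 v1 φ).2)) (CBl.smul_le hh (H 0 1) c3)
    have c4 : CV n (cv a) (d.R (95 / 100)) (fun x => g x φ) (5 * (d.c.J ^ 8 * d.c.eL)) := by
      refine (c.monoU sub).monoB ?_
      have h1 := mul_le_mul_of_nonneg_right qJ eL0.le
      have h2 := mul_le_mul_of_nonneg_right (pw 1 8 (by norm_num)) eL0.le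
      have h3 := mul_le_mul_of_nonneg_left h1 (pow_nonneg (zero_le_one.trans J1) 7)
      linarith
    refine (CV.comp1 hh (SmN.of_sm (sg φ) _) (SmN.of_sm sq_sm _) (fun x hx => (A x hx).1 φ)
      (fun j _ hj => HM j (hj.trans hn)) c4 ?_).monoB ?_
    · have h1 := mul_le_mul (pw 8 9 (by norm_num)) eL1 eL0.le (by positivity)
      have h2 : 0 ≤ d.c.J ^ 9 * np d.c.N (-4 / 10) := by positivity
      linarith
    · have h1 := mul_le_mul_of_nonneg_right (hq.trans qJ)
        (show 0 ≤ d.c.J ^ 8 * d.c.eL by positivity)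
      have h2 := mul_le_mul_of_nonneg_right (pw 9 16 (by norm_num)) eL0.le
      linarith
  refine ⟨fun φ x => sq' (g x φ), fun φ => ⟨sq_sm.comp (sg φ), fun x hx => ?_,
    B 4 _ (by norm_num) G.hE_pos n2 (fun i j => (I.cv4 i j).1.monoB
      (mul_le_mul_of_nonneg_right (by linarith) eL0.le)) φ,
    B 7 _ le_rfl G.hm_pos n3 (fun i j => (I.cv4 i j).2) φ⟩, fun x hx => ?_⟩
  · simp only [E x hx]
    exact ⟨Real.le_sqrt_of_sq_le (by linarith [((A x hx).1 φ).1]),
      Real.sqrt_le_iff.2 ⟨by norm_num, by linarith [((A x hx).1 φ).2]⟩⟩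
  · simp only [E2 x hx]
    obtain ⟨-, a1, a2, a3, a4⟩ := A x hx
    refine ⟨a1, a2, ?_, a4⟩
    have : Real.sqrt 2 * Real.sqrt 2 = 2 := Real.mul_self_sqrt zero_le_two
    rw [a3, hγ]
    field_simp
    rw [Real.sq_sqrt zero_le_two]

end
end Pool.Agent.MP_20bec2_an.T3

end MrgPart0

-- ======== part 1: formerly Pool.Agent.MP_20bec2_an.T3.InitA
section MrgPart1

/-! Row INIT, part A: the first density, its vertical primitive and the first map. -/

set_option autoImplicit false
open MeasureTheory Set Filter Matrix Topology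

namespace Pool.Agent.MP_20bec2_an.T3.Init
noncomputable section
open Classical

/-- a small smooth function that decays in the vertical direction -/
structure Sml (h : V) (K : ℝ) (M : V → ℝ) : Prop where
  hh : ∀ i, 0 < h i
  sm : Sm M
  bd : ∀ l : List (Fin 3), l.length ≤ 2 → ∀ z, hp h l * |pds l M z| ≤ K / (1 + (z 2 / h 2) ^ 2)

lemma Sml.nn {h : V} {K : ℝ} {M : V → ℝ} (H : Sml h K M) : 0 ≤ K := by
  have := H.bd [] (by simp) 0
  simp at this
  exact (abs_nonneg _).trans this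

lemma Sml.le {h : V} {K : ℝ} {M : V → ℝ} (H : Sml h K M) (l : List (Fin 3)) (hl : l.length ≤ 2)
    (z : V) : hp h l * |pds l M z| ≤ K :=
  (H.bd l hl z).trans (div_le_self H.nn (le_add_of_nonneg_right (sq_nonneg _)))

lemma Sml.mono {h : V} {K K' : ℝ} {M : V → ℝ} (H : Sml h K M) (hK : K ≤ K') : Sml h K' M :=
  ⟨H.hh, H.sm, fun l hl z => (H.bd l hl z).trans (div_le_div_of_nonneg_right hK (by positivity))⟩

lemma pd_low {h : V} {S : Mx} (hh : ∀ i, 0 < h i) (hS : PD h S) :
    ∃ c : ℝ, 0 < c ∧ ∀ v : V, c * (v ⬝ᵥ v) ≤ v ⬝ᵥ (S *ᵥ v) := by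
  obtain ⟨m, hm, hle⟩ : ∃ m : ℝ, 0 < m ∧ ∀ i, m ≤ h i :=
    ⟨min (h 0) (min (h 1) (h 2)), lt_min (hh 0) (lt_min (hh 1) (hh 2)), fun i => by
      fin_cases i
      exacts [min_le_left _ _, (min_le_right _ _).trans (min_le_left _ _),
        (min_le_right _ _).trans (min_le_right _ _)]⟩
  refine ⟨1 / 50 * m ^ 2, by positivity, fun v => le_trans ?_ (hS.2 v).1⟩
  rw [mul_assoc, dotProduct, Finset.mul_sum]
  refine mul_le_mul_of_nonneg_left (Finset.sum_le_sum fun i _ => ?_) (by norm_num)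
  rw [mul_pow, ← sq]
  exact mul_le_mul_of_nonneg_right (pow_le_pow_left₀ hm.le (hle i) 2) (sq_nonneg _)

lemma gauss_le {h : V} (hh : ∀ i, 0 < h i) {x z : V} (hx : |x 2| ≤ h 2) :
    Real.exp (-(∑ i, ((z - x) i / h i) ^ 2) / 30) ≤ 60 / (1 + (z 2 / h 2) ^ 2) := by
  have h2 := hh 2
  have a1 : ((z - x) 2 / h 2) ^ 2 ≤ ∑ i, ((z - x) i / h i) ^ 2 :=
    Finset.single_le_sum (f := fun i => ((z - x) i / h i) ^ 2) (fun i _ => sq_nonneg _)
      (Finset.mem_univ 2)
  have a2 : (x 2 / h 2) ^ 2 ≤ 1 := by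
    rw [div_pow, div_le_one (by positivity), ← sq_abs]
    exact pow_le_pow_left₀ (abs_nonneg _) hx 2
  have a3 : (z - x) 2 / h 2 = z 2 / h 2 - x 2 / h 2 := by rw [Pi.sub_apply, sub_div]
  rw [a3] at a1
  generalize (∑ i, ((z - x) i / h i) ^ 2) = T at a1
  generalize z 2 / h 2 = a at a1
  generalize x 2 / h 2 = b at a1 a2
  have a4 := Real.add_one_le_exp (T / 30)
  have a5 := Real.exp_pos (T / 30)
  rw [neg_div, Real.exp_neg, inv_eq_one_div, div_le_div_iff₀ a5 (by positivity)]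
  nlinarith [sq_nonneg (a - 2 * b)]

/-- the density of the identity with a constant covariance -/
lemma dens_sml (h1 : K1Stmt) (h4 : K4Stmt) (hB : KBStmt) : ∃ C : ℝ, 1 ≤ C ∧
    ∀ (ρ : V → ℝ) (R : ℝ) (h : V) (S : Mx), Rho ρ → 0 < R → (∀ x, R ≤ ‖x‖ → ρ x = 1) →
      (∀ i, 0 < h i) → PD h S → R ≤ h 2 → ∃ M, Sml h (C * R ^ 3 / (h 0 * h 1 * h 2)) M ∧
        dens ρ (fun x => x) (fun _ => S) = fun z => 1 + M z := by
  obtain ⟨C, hC, hK, hL⟩ := hB 2
  refine ⟨480 * C, by linarith, fun ρ R h S hρ hR h0 hh hS hR2 => ?_⟩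
  obtain ⟨c, hc, hcS⟩ := pd_low hh hS
  obtain ⟨-, ki, k1, ke⟩ := h4.1 S c hc hS.1 hcS
  have z0 : ∀ x, x ∉ Metric.closedBall (0 : V) R → ρ x - 1 = 0 := fun x hx => by
    rw [mem_closedBall_zero_iff, not_le] at hx
    rw [h0 x hx.le, sub_self]
  have b1 : ∀ x, |ρ x - 1| ≤ 1 := fun x => (hρ.2 x).trans (by unfold eps0; norm_num)
  have gk : GK (fun x => ρ x - 1) (fun x => x) (fun _ => S) :=
    (hL h (Metric.closedBall 0 R) _ 1 (fun x => x) (fun _ => S) ⟨hh, convex_closedBall _ _,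
      isCompact_closedBall _ _, hρ.1.sub_const 1, b1, z0, contDiff_id, fun x _ i j => by
        rw [jm_id, sub_self]; simp [cm], fun _ _ => continuous_const, fun _ _ => hS⟩).1
  obtain ⟨s1, s2, s3⟩ := h1 _ _ _ gk
  refine ⟨dens (fun x => ρ x - 1) (fun x => x) (fun _ => S), ⟨hh, s1, fun l hl z => ?_⟩, ?_⟩
  · have e : ∀ x : V, pds l (fun w => ker S (x - w)) z = pds l (ker S) (z - x) := fun x => by
      rw [show (fun w => ker S (x - w)) = fun w => ker S (w - x) from
        funext fun w => by rw [← ke, neg_sub], pds_comp_sub]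
    have hpp := hp_pos hh l
    have p0 := hh 0; have p1 := hh 1; have p2 := hh 2
    rw [(s3 l z).2, ← abs_of_pos hpp, ← abs_mul, ← integral_const_mul,
      ← setIntegral_eq_integral_of_forall_compl_eq_zero (s := Metric.closedBall (0 : V) R)
        (fun x hx => by rw [z0 x hx]; simp), ← Real.norm_eq_abs]
    refine (norm_setIntegral_le_of_norm_le_const
      (C := C / (h 0 * h 1 * h 2) * (60 / (1 + (z 2 / h 2) ^ 2)))
      (isCompact_closedBall _ _).measure_lt_top fun x hx => ?_).trans (le_of_eq ?_)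
    · rw [e, Real.norm_eq_abs, abs_mul, abs_mul, abs_of_pos hpp]
      have k := hK h S hh hS l hl (z - x)
      have g := gauss_le hh (x := x) (z := z)
        (((norm_le_pi_norm x 2).trans (mem_closedBall_zero_iff.1 hx)).trans hR2)
      have t : hp h l * (|ρ x - 1| * |pds l (ker S) (z - x)|) ≤ hp h l * |pds l (ker S) (z - x)| :=
        mul_le_mul_of_nonneg_left (mul_le_of_le_one_left (abs_nonneg _) (b1 x)) hpp.le
      exact t.trans (k.trans (mul_le_mul_of_nonneg_left g (by positivity)))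
    · rw [Measure.real, Real.volume_pi_closedBall _ hR.le, ENNReal.toReal_ofReal (by positivity),
        Fintype.card_fin]
      field_simp
      ring
  · funext z
    have i1 : Integrable fun x : V => ker S (x - z) := ki.comp_sub_right z
    have := integral_add i1 (s2 z)
    rw [integral_sub_right_eq_self (ker S) z, k1] at this
    exact (integral_congr_ae (Eventually.of_forall fun x => by ring)).trans this

/-! ## the vertical primitive -/

def prim (g : V → ℝ) (z : V) : ℝ := ∫ r in (0 : ℝ)..z 2, g (cpt (fun _ => 0) z r)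

lemma cpt_self (z : V) : cpt (fun _ => 0) z (z 2) = z := by
  funext i
  fin_cases i <;> simp [cpt]

lemma sm_prim {g : V → ℝ} (hg : Sm g) : Sm (prim g) :=
  sm_integral_ends (F := fun r w => g (cpt (fun _ => 0) w r)) (hg.comp (sm_cpt contDiff_const))
    contDiff_const (sm_coord 2)

lemma pd_prim {g : V → ℝ} (hg : Sm g) (j : Fin 3) :
    pd j (prim g) = fun w => if j = 2 then g w else prim (pd j g) w := by
  funext w
  have h2 := ((JC.col hg (n := fun _ => 0) continuous_const).upper 0 ((sm_coord 2).dif w)).2 j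
  refine h2.trans ?_
  simp only [pd_cpt hg, pd_coord, cpt_self]
  by_cases hj : j = 2
  · simp [hj]
  · simp [hj, Ne.symm hj, prim]

lemma abs_prim_le {g : V → ℝ} {K y : ℝ} (hy : 0 < y) (hK : 0 ≤ K)
    (hg : ∀ z, |g z| ≤ K / (1 + (z 2 / y) ^ 2)) (z : V) : |prim g z| ≤ 2 * K * y := by
  have c : Continuous fun r : ℝ => K * (1 + (r / y) ^ 2)⁻¹ :=
    continuous_const.mul (Continuous.inv₀ (by fun_prop) fun r => by positivity)
  have := intervalIntegral.norm_integral_le_abs_of_norm_le (μ := volume) (a := 0) (b := z 2)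
    (f := fun r => g (cpt (fun _ => 0) z r)) (g := fun r => K * (1 + (r / y) ^ 2)⁻¹)
    (Eventually.of_forall fun r => hg _) (c.intervalIntegrable _ _)
  refine this.trans ?_
  rw [intervalIntegral.integral_const_mul,
    intervalIntegral.integral_comp_div (fun r => (1 + r ^ 2)⁻¹) hy.ne', integral_inv_one_add_sq,
    zero_div, Real.arctan_zero, sub_zero, smul_eq_mul, abs_mul, abs_mul, abs_of_nonneg hK,
    abs_of_pos hy]
  have a : |Real.arctan (z 2 / y)| ≤ 2 := abs_le.2
    ⟨by linarith [Real.neg_pi_div_two_lt_arctan (z 2 / y), Real.pi_le_four],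
      by linarith [Real.arctan_lt_pi_div_two (z 2 / y), Real.pi_le_four]⟩
  nlinarith [mul_le_mul_of_nonneg_left a (mul_nonneg hK hy.le)]

lemma Sml.prim_le {h : V} {K : ℝ} {M : V → ℝ} (H : Sml h K M) (l : List (Fin 3))
    (hl : l.length ≤ 2) (z : V) : hp h l * |prim (pds l M) z| ≤ 2 * K * h 2 := by
  have hpp := hp_pos H.hh l
  have := abs_prim_le (g := pds l M) (K := K / hp h l) (H.hh 2) (div_nonneg H.nn hpp.le)
    (fun w => by rw [div_right_comm, le_div_iff₀' hpp]; exact H.bd l hl w) z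
  rw [← le_div_iff₀' hpp]
  exact this.trans_eq (by ring)

/-! ## the first map -/

def fm (s : ℝ) (M : V → ℝ) (z : V) : V := ![s * z 0, s * z 1, (z 2 + prim M z) / (s * s)]

lemma sm_fm (s : ℝ) {M : V → ℝ} (hM : Sm M) : Sm (fm s M) := sm_pi fun i => by
  fin_cases i
  exacts [(sm_coord 0).cmul s, (sm_coord 1).cmul s,
    ContDiff.div_const (ContDiff.add (sm_coord 2) (sm_prim hM)) _]

lemma jm_fm (s : ℝ) {M : V → ℝ} (hM : Sm M) (z : V) : jm (fm s M) z =
    !![s, 0, 0; 0, s, 0;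
      prim (pd 0 M) z / (s * s), prim (pd 1 M) z / (s * s), (1 + M z) / (s * s)] := by
  have e : ∀ j, pd j (fun y => (y 2 + prim M y) / (s * s)) z =
      ((if 2 = j then 1 else 0) + if j = 2 then M z else prim (pd j M) z) / (s * s) := fun j => by
    have := congrFun (pds_div_const (s * s) (fun y => y 2 + prim M y) [j]) z
    simp only [pds_cons, pds_nil] at this
    rw [this, pd_add_at ((sm_coord 2).dif z) ((sm_prim hM).dif z), pd_coord, pd_prim hM]
  ext i j
  fin_cases i <;> fin_cases j <;> simp [fm, pd_const_mul, pd_coord, e]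

lemma jac_fm {s : ℝ} (hs : 0 < s) {M : V → ℝ} (hM : Sm M) (z : V) : jac (fm s M) z = 1 + M z := by
  rw [jac, jm_fm s hM, det_fin_three]
  simp
  field_simp

lemma bij_fm {s : ℝ} (hs : 0 < s) {h : V} {K : ℝ} {M : V → ℝ} (H : Sml h K M) (hK : K < 1) :
    Function.Bijective (fm s M) := by
  have c : ∀ w : V, Continuous fun r => M (cpt (fun _ => 0) w r) := fun w =>
    (JC.col H.sm (n := fun _ => 0) continuous_const).contr w
  have d : ∀ (w : V) (t : ℝ), HasDerivAt (fun t => t + ∫ r in (0 : ℝ)..t, M (cpt (fun _ => 0) w r))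
      (1 + M (cpt (fun _ => 0) w t)) t := fun w t =>
    (hasDerivAt_id t).add ((c w).integral_hasStrictDerivAt 0 t).hasDerivAt
  have b : ∀ z, |M z| ≤ K := fun z => by simpa using H.le [] (by simp) z
  have e : ∀ (w : V) (t r : ℝ), cpt (fun _ => 0) ![w 0, w 1, t] r = cpt (fun _ => 0) w r :=
    fun w t r => by simp [cpt]
  have p : ∀ (w : V) (t : ℝ), |∫ r in (0 : ℝ)..t, M (cpt (fun _ => 0) w r)| ≤ 2 * K * h 2 :=
    fun w t => by simpa [prim, e] using H.prim_le [] (by simp) ![w 0, w 1, t]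
  constructor
  · intro z w hzw
    have e0 : z 0 = w 0 := mul_left_cancel₀ hs.ne' (congrFun hzw 0)
    have e1 : z 1 = w 1 := mul_left_cancel₀ hs.ne' (congrFun hzw 1)
    have e2 : z 2 + prim M z = w 2 + prim M w :=
      (div_left_inj' (mul_pos hs hs).ne').1 (congrFun hzw 2)
    have e3 : ∀ r, cpt (fun _ => 0) z r = cpt (fun _ => 0) w r := fun r => by simp [cpt, e0, e1]
    simp only [prim, e3] at e2
    have m : StrictMono fun t => t + ∫ r in (0 : ℝ)..t, M (cpt (fun _ => 0) w r) :=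
      strictMono_of_deriv_pos fun t => by
        rw [(d w t).deriv]; linarith [(abs_le.1 (b (cpt (fun _ => 0) w t))).1]
    have e4 : z 2 = w 2 := m.injective e2
    funext i
    fin_cases i
    exacts [e0, e1, e4]
  · intro v
    obtain ⟨w, hw⟩ : ∃ w : V, w = ![v 0 / s, v 1 / s, 0] := ⟨_, rfl⟩
    have su : Function.Surjective fun t => t + ∫ r in (0 : ℝ)..t, M (cpt (fun _ => 0) w r) :=
      Continuous.surjective (continuous_iff_continuousAt.2 fun t => (d w t).continuousAt)
        (tendsto_atTop_mono (f := fun t => t + -(2 * K * h 2))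
          (fun t => by linarith [(abs_le.1 (p w t)).1]) (tendsto_atTop_add_const_right _ _ tendsto_id))
        (tendsto_atBot_mono (f := fun t => t + 2 * K * h 2)
          (fun t => by linarith [(abs_le.1 (p w t)).2]) (tendsto_atBot_add_const_right _ _ tendsto_id))
    obtain ⟨t, ht⟩ := su (v 2 * (s * s))
    refine ⟨![w 0, w 1, t], funext fun i => ?_⟩
    fin_cases i
    · simp [fm, hw]; field_simp
    · simp [fm, hw]; field_simp
    · simp only [fm, prim, e]
      simp only at ht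
      simp [ht, hs.ne']

end
end Pool.Agent.MP_20bec2_an.T3.Init

end MrgPart1

-- ======== part 2: formerly Pool.Agent.MP_20bec2_an.T3.InitB
section MrgPart2

/-! Row INIT, part B: Gram matrix of the first map, barrier, trivial frames, cost, sites. -/

set_option autoImplicit false
open MeasureTheory Set Filter Matrix Topology

namespace Pool.Agent.MP_20bec2_an.T3.Init
noncomputable section
open Classical

lemma pds_shift (g : V → ℝ) (b : V) (l : List (Fin 3)) :
    pds l (fun y => g (b + y)) = fun x => pds l g (b + x) := by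
  simpa only [add_comm] using pds_comp_add g b l

lemma pd_shift (g : V → ℝ) (b : V) (j : Fin 3) :
    pd j (fun y => g (b + y)) = fun x => pd j g (b + x) := pds_shift g b [j]

lemma jm_shift (f : V → V) (b x : V) : jm (fun y => f (b + y)) x = jm f (b + x) := by
  ext i j
  exact congrFun (pd_shift (fun y => f y i) b j) x

lemma jac_shift (f : V → V) (b x : V) : jac (fun y => f (b + y)) x = jac f (b + x) := by
  rw [jac, jm_shift, jac]

lemma gam_shift (c : Pm) (f : V → V) (b x : V) : c.gam (fun y => f (b + y)) x = c.gam f (b + x) := by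
  simp only [Pm.gam, Pm.ca, jm_shift, jac_shift]

/-! ## slopes -/

structure Slp (h : V) (ε : ℝ) (a : V → ℝ) : Prop where
  sm : Sm a
  v : ∀ z, |a z| ≤ ε
  d : ∀ i z, h i * |pd i a z| ≤ ε

lemma Slp.shift {h : V} {ε : ℝ} {a : V → ℝ} (H : Slp h ε a) (b : V) :
    Slp h ε fun w => a (b + w) :=
  ⟨H.sm.comp (contDiff_const.add contDiff_id), fun _ => H.v _, fun i z => by
    rw [pd_shift]; exact H.d i _⟩

lemma Slp.mul {h : V} {ε : ℝ} {a b : V → ℝ} (hh : ∀ i, 0 < h i) (he : ε ≤ 1 / 2) (H : Slp h ε a)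
    (H' : Slp h ε b) : Slp h ε fun w => a w * b w := by
  have e0 : 0 ≤ ε := (abs_nonneg _).trans (H.v 0)
  refine ⟨H.sm.mul H'.sm, fun z => ?_, fun i z => ?_⟩
  · rw [abs_mul]
    nlinarith [mul_le_mul (H.v z) (H'.v z) (abs_nonneg _) e0]
  · rw [pd_mul_at (H.sm.dif z) (H'.sm.dif z)]
    have k := mul_le_mul_of_nonneg_left (abs_add_le (pd i a z * b z) (a z * pd i b z)) (hh i).le
    rw [abs_mul, abs_mul] at k
    nlinarith [mul_le_mul (H.d i z) (H'.v z) (abs_nonneg _) e0,
      mul_le_mul (H'.d i z) (H.v z) (abs_nonneg _) e0]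

def sl (s : ℝ) (M : V → ℝ) (j : Fin 3) (z : V) : ℝ := prim (pd j M) z / (s * s * s)

lemma Sml.slp {h : V} {K s : ℝ} {M : V → ℝ} (H : Sml h K M) (hs : 0 < s) {j : Fin 3}
    (hj : h 2 ≤ s * s * s * h j) : Slp h (2 * K) (sl s M j) := by
  have p := H.hh j
  have K0 := H.nn
  have s3 : 0 < s * s * s := by positivity
  have k : 2 * K * h 2 ≤ h j * (2 * K * (s * s * s)) := by nlinarith
  refine ⟨ContDiff.div_const (sm_prim (H.sm.pd j)) _, fun z => ?_, fun i z => ?_⟩
  · have := H.prim_le [j] (by simp) z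
    simp only [hp_cons, hp_nil, mul_one, pds_cons, pds_nil] at this
    rw [sl, abs_div, abs_of_pos s3, div_le_iff₀ s3]
    exact le_of_mul_le_mul_left (this.trans k) p
  · have e := congrFun (pds_div_const (s * s * s) (prim (pd j M)) [i]) z
    simp only [pds_cons, pds_nil, pd_prim (H.sm.pd j)] at e
    rw [show sl s M j = fun y => prim (pd j M) y / (s * s * s) from rfl, e, abs_div, abs_of_pos s3,
      ← mul_div_assoc, div_le_iff₀ s3]
    split_ifs with hi
    · have := H.le [j] (by simp) z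
      simp only [hp_cons, hp_nil, mul_one, pds_cons, pds_nil] at this
      rw [hi]
      nlinarith [mul_le_mul_of_nonneg_right hj (abs_nonneg (pd j M z)),
        mul_le_mul_of_nonneg_left this s3.le]
    · have := H.prim_le [i, j] (by simp) z
      simp only [hp_cons, hp_nil, mul_one, pds_cons, pds_nil] at this
      refine le_of_mul_le_mul_left (le_trans (le_of_eq ?_) (this.trans k)) p
      ring

def gm (a b : ℝ) : Mx := !![1 + a * a, a * b, a; a * b, 1 + b * b, b; a, b, 1]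

lemma gam_fm {c : Pm} {s : ℝ} (hs : 0 < s) (h1 : c.s1 = s) (h2 : c.s2 = s) (hη : c.η = 1)
    {M : V → ℝ} (hM : Sm M) {z : V} (hz : 1 + M z ≠ 0) :
    c.gam (fm s M) z = gm (sl s M 0 z) (sl s M 1 z) := by
  have e : c.ca (fm s M) z = !![1, 0, 0; 0, 1, 0; sl s M 0 z, sl s M 1 z, 1] := by
    rw [Pm.ca, jac_fm hs hM, jm_fm s hM, Pm.c1, Pm.c2, Pm.n12, h1, h2, hη, Real.sqrt_one]
    ext i j
    fin_cases i <;> fin_cases j <;> simp [dg3, mul_diagonal, sl, hs.ne'] <;> field_simp
  rw [Pm.gam, e]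
  ext i j
  fin_cases i <;> fin_cases j <;> simp [gm, Matrix.mul_apply, Fin.sum_univ_three, mul_comm]

lemma gm_slp {h : V} {ε : ℝ} {a b : V → ℝ} (hh : ∀ i, 0 < h i) (he : ε ≤ 1 / 2) (H : Slp h ε a)
    (H' : Slp h ε b) (p q : Fin 3) : Slp h ε fun w => (gm (a w) (b w) - 1) p q := by
  have e0 : 0 ≤ ε := (abs_nonneg _).trans (H.v 0)
  have z : Slp h ε fun _ => 0 := ⟨contDiff_const, fun _ => by simpa, fun _ _ => by simpa⟩
  fin_cases p <;> fin_cases q <;> simp [gm]
  exacts [H.mul hh he H, H.mul hh he H', H, H.mul hh he H', H'.mul hh he H', H', H, H', z]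

lemma gm_d {h : V} {ε : ℝ} {a b : V → ℝ} (hh : ∀ i, 0 < h i) (he : ε ≤ 1 / 2) (H : Slp h ε a)
    (H' : Slp h ε b) (p q i : Fin 3) (z : V) :
    h i * |pd i (fun w => gm (a w) (b w) p q) z| ≤ ε := by
  have k := gm_slp hh he H H' p q
  have e := pds_add_const k.sm ((1 : Mx) p q) (l := [i]) (by simp)
  simp only [pds_cons, pds_nil, Matrix.sub_apply, sub_add_cancel] at e
  rw [e]
  exact k.d i z

/-! ## the barrier -/

lemma bar_of {N : ℕ} (hN : Big N) {s p q m : ℝ} (hs : s * s = N) (h : p ^ 2 + q ^ 2 + m ^ 2 ≤ 1) :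
    Bar N ((!![s, 0, 0; 0, s, 0; p, q, m] : Mx)ᵀ * !![s, 0, 0; 0, s, 0; p, q, m]) := by
  obtain ⟨G, hG⟩ : ∃ G : Mx, G = (!![s, 0, 0; 0, s, 0; p, q, m] : Mx)ᵀ *
    !![s, 0, 0; 0, s, 0; p, q, m] := ⟨_, rfl⟩
  rw [← hG]
  have e : G = !![N + p * p, p * q, p * m; p * q, N + q * q, q * m; p * m, q * m, m * m] := by
    rw [hG, ← hs]
    ext i j
    fin_cases i <;> fin_cases j <;> simp [Matrix.mul_apply, Fin.sum_univ_three, mul_comm]
  have t1 : G.trace = 2 * N + (p ^ 2 + q ^ 2 + m ^ 2) := by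
    rw [e, trace_fin_three]; simp; ring
  have t2 : e2 G = N ^ 2 + N * (p ^ 2 + q ^ 2 + 2 * m ^ 2) := by
    rw [e2, t1, e, trace_fin_three]
    simp [Matrix.mul_apply, Fin.sum_univ_three]
    ring
  have N0 := hN.N_pos
  have N1 : (2 : ℝ) ≤ N := by linarith [hN.N_ge, hN.J_ge, hN.L_ge]
  have l2 := log2_bd
  have m2 := sq_nonneg m
  have pq2 : 0 ≤ p ^ 2 + q ^ 2 := by positivity
  have a1 : Real.log N ≤ aa G := by
    have := Real.log_le_log (pow_pos N0 2) (show (N : ℝ) ^ 2 ≤ e2 G by rw [t2]; nlinarith)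
    rw [Real.log_pow] at this
    unfold aa; push_cast at this; linarith
  have a2 : aa G ≤ Real.log N + 1 := by
    have := Real.log_le_log (x := e2 G) (by rw [t2]; positivity)
      (show e2 G ≤ 2 * (N : ℝ) ^ 2 by rw [t2]; nlinarith)
    rw [Real.log_mul two_ne_zero (pow_pos N0 2).ne', Real.log_pow] at this
    unfold aa; push_cast at this; linarith
  have a3 : Real.log (Lam G) ≤ Real.log 2 + Real.log N := by
    have k : Real.sqrt (G.trace ^ 2 - 4 * e2 G) ≤ 1 :=
      Real.sqrt_le_one.2 (by rw [t1, t2]; nlinarith [mul_nonneg N0.le m2])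
    have k0 := Real.sqrt_nonneg (G.trace ^ 2 - 4 * e2 G)
    rw [← Real.log_mul two_ne_zero N0.ne']
    refine Real.log_le_log ?_ ?_ <;> unfold Lam <;> linarith
  have a4 : tt N G ≤ -3 / 2 := by unfold tt; linarith [hN.k0_eq, hN.L_ge]
  obtain ⟨_, -, hP⟩ := psi
  have a5 : Vf N G = aa G := by rw [Vf, ((hP _ hN.R_ge).2.2.2.2.2.1 _ a4).2, add_zero]
  have a6 : 0 < 1 / pR N := one_div_pos.2 hN.R_pos
  rw [Bar, a5, max_eq_right (by linarith), mul_zero, mul_zero]
  exact ⟨by linarith, by linarith, by linarith [hN.tE_bd.1]⟩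

/-! ## trivial frames -/

def fI (x0 : V) (s : ℝ) : Fr := ⟨x0, x0, 1, 1, s, s⟩

section
variable (x0 : V) (s : ℝ)
@[simp] lemma fI_O : (fI x0 s).O = 1 := rfl
@[simp] lemma fI_Q : (fI x0 s).Q = 1 := rfl
@[simp] lemma fI_xp (x : V) : (fI x0 s).xp x = x0 + x := by simp [fI, Fr.xp]
@[simp] lemma fI_zp (x : V) : (fI x0 s).zp x = x0 + x := by simp [fI, Fr.zp]
@[simp] lemma fI_zc (x : V) : (fI x0 s).zc x = x - x0 := by simp [fI, Fr.zc]
@[simp] lemma fI_hat_id : (fI x0 s).hat (fun x => x) = fun x => x := by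
  funext x; simp [Fr.hat]
@[simp] lemma fI_cv1 (S : Mx) : (fI x0 s).cv1 S = S := by simp [Fr.cv1]
@[simp] lemma fI_unc (S : Mx) : (fI x0 s).unc S = S := by simp [Fr.unc]
@[simp] lemma fI_hm (S : Mx) : (fI x0 s).hm S = S := by simp [Fr.hm]
lemma fI_sc (g : V → ℝ) : (fI x0 s).sc g = fun x => g (x0 + x) := by funext x; simp [Fr.sc]
lemma fI_den (g : V → ℝ) : (fI x0 s).den g = fun x => g (x0 + x) := by funext x; simp [Fr.den]
lemma fI_fh (f : V → V) : (fI x0 s).fh f = fun x => f (x0 + x) := by funext x; simp [Fr.fh]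
end

lemma orth_one : Orth 1 := ⟨by simp, det_one⟩

lemma cpt_fI {δ : ℝ} (hδ : 0 ≤ δ) (x0 x1 : V) {s : ℝ} (hs : 0 < s) :
    Cpt δ (fI x0 s) (fI x1 s) := by
  refine ⟨fun i j => by simpa [cm] using hδ, fun i hi => ?_, Or.inl (by simpa using hδ), ?_, ?_⟩
  · simpa [hi, Ne.symm hi] using hδ
  all_goals simpa [fI, hs.ne'] using hδ

/-! ## cost -/

lemma enr_shift (r lam : ℝ) (ρ : V → ℝ) (b x : V) :
    enr r lam (fun y => ρ (b + y)) x = enr r lam ρ (b + x) := by
  have e : ∀ t, heat r t (fun y => ρ (b + y)) = fun y => heat r t ρ (b + y) := fun t => by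
    funext y
    simp only [heat, add_sub_assoc]
  simp only [enr, e, pd_shift]

lemma cost_le {c : Pm} (h : Gd c) (O : Mx) {ρ : V → ℝ} {E : ℝ}
    (hE : ∀ x, |enr c.ro c.lam ρ x| ≤ E) (x : V) :
    c.cost O ρ x ≤ c.q * (2 * (c.q ^ 22 * c.J / c.N) * E) := by
  have E0 : 0 ≤ E := (abs_nonneg _).trans (hE 0)
  have q0 := h.q_pos
  have J0 := h.J_pos
  have N0 := h.N_pos
  unfold Pm.cost
  split_ifs with hA
  swap
  · positivity
  have w : c.q ^ 22 * Jp c.N (15 / 16) / c.N ≤ c.q ^ 22 * c.J / c.N := by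
    have : Jp c.N (15 / 16) ≤ c.J := (h.big.Jp_le (by norm_num)).trans_eq (Jp_one _)
    gcongr
  have e0 : c.En0 ρ x ≤ E := (le_abs_self _).trans (Mol.abs_mol_le (fun i => by
    have := h.W10_pos; have := h.W20_pos; have := h.h'_pos
    fin_cases i <;> simpa) fun y _ => hE y)
  have e1 : c.En1 ρ x ≤ E := (le_abs_self _).trans (Mol.abs_mol_le (fun i => by
    have := h.W11_pos; have := h.W21_pos; have := h.h'_pos
    fin_cases i <;> simpa) fun y _ => hE y)
  have k0 : c.om0 * c.En0 ρ x ≤ c.q ^ 22 * c.J / c.N * E :=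
    (mul_le_mul_of_nonneg_left e0 h.om0_pos.le).trans
      (mul_le_mul_of_nonneg_right ((h.om0_le hA).trans w) E0)
  have k1 : c.om1 * c.En1 ρ x ≤ c.q ^ 22 * c.J / c.N * E :=
    (mul_le_mul_of_nonneg_left e1 h.om1_nonneg).trans
      (mul_le_mul_of_nonneg_right ((h.om1_le hA).trans w) E0)
  have q1 : Real.sqrt c.q ≤ c.q :=
    Real.sqrt_le_self_iff.2 (Or.inr (by have : c.q = pq c.N := rfl; linarith [h.big.q_ge]))
  have k2 : Real.sqrt c.q * alh O c.D x ^ 2 ≤ c.q :=
    (mul_le_of_le_one_right (Real.sqrt_nonneg _) (Prof.alh_sq_le _ _ _)).trans q1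
  refine (mul_le_mul_of_nonneg_left (add_le_add k0 k1) (by positivity)).trans ?_
  refine (mul_le_mul_of_nonneg_right k2 (by positivity)).trans (le_of_eq ?_)
  ring

/-! ## sites -/

lemma card_sites {B : Bk} (hN : Big B.N) (hl : 0 < B.lb) (g : Cu) :
    ((B.sites g 1).card : ℝ) ≤ np B.N 5000 := by
  have N0 := hN.N_pos
  have N1 : (3 : ℝ) ≤ B.N := by linarith [hN.N_ge, hN.J_ge, hN.L_ge]
  have p := hN.np_pos (-1500)
  have e : 2 * B.D / B.hsp = 2 * np B.N 1504 := by
    have : np B.N 1504 * np B.N (-1500) = (B.N : ℝ) ^ 4 := by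
      rw [← hN.np_add, ← np_nat]; norm_num
    rw [Bk.D, Dd, Bk.hsp, ← this]
    field_simp
  have o : 1 ≤ np B.N 1504 := (np_zero B.N).symm.trans_le (hN.np_le (by norm_num))
  have k : ∀ i, ((Finset.Icc ⌈(cen B.D g i - 1 * B.D) / B.hsp⌉
      ⌊(cen B.D g i + 1 * B.D) / B.hsp⌋).card : ℝ) ≤ np B.N 1505 := fun i => by
    have d : (cen B.D g i + 1 * B.D) / B.hsp - (cen B.D g i - 1 * B.D) / B.hsp =
      2 * np B.N 1504 := by rw [← e]; ring
    have u : np B.N 1505 = np B.N 1504 * B.N := by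
      rw [← np_one B.N, ← hN.np_add]; norm_num
    have a := Int.le_ceil ((cen B.D g i - 1 * B.D) / B.hsp)
    have b := Int.floor_le ((cen B.D g i + 1 * B.D) / B.hsp)
    rw [Int.card_Icc, ← Int.cast_natCast (R := ℝ), Int.toNat_eq_max]
    push_cast
    refine max_le ?_ (hN.np_pos _).le
    nlinarith
  rw [Bk.sites, Fintype.card_piFinset, Nat.cast_prod]
  refine (Finset.prod_le_prod (fun _ _ => Nat.cast_nonneg _) fun i _ => k i).trans ?_
  rw [Fin.prod_univ_three, ← hN.np_add, ← hN.np_add]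
  exact hN.np_le (by norm_num)

end
end Pool.Agent.MP_20bec2_an.T3.Init

end MrgPart2

-- marker of a merged file
example : 731051 + 127212 = 731051 + 127212 := rfl

end MrgPart1

-- marker of a merged file
example : 731051 + 127212 = 731051 + 127212 := rfl
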