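import Mathlib.Data.Set.Finite.List
import Pool.Agent.MP_20bec2_an.T3.Calc2C
import Pool.Agent.MP_20bec2_an.T3.InitB
import Pool.Agent.MP_20bec2_an.T3.WinA
import Pool.Agent.MP_20bec2_an.T3.Calc1b
import Mathlib.Analysis.SpecialFunctions.Gaussian.GaussianIntegral
import Mathlib.Analysis.SpecialFunctions.Trigonometric.Series
import Pool.Agent.MP_20bec2_an.T3.Par3
import Pool.Agent.MP_20bec2_an.T3.Zt
import Pool.Agent.MP_20bec2_an.T3.Final

-- ======== part 0: formerly Pool.Agent.MP_20bec2_an.T3.Sob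
section MrgPart0

-- ======== part 0: formerly Pool.Agent.MP_20bec2_an.T3.Calc2
section MrgPart0

/-! The second calculus toolbox; bounds along columns. -/

set_option autoImplicit false
open MeasureTheory Set Filter Matrix Topology

namespace Pool.Agent.MP_20bec2_an.T3
noncomputable section

variable {g g' : V → ℝ} {n : ℝ → V} {w : V}

theorem pre_add_Ioi (hg : Continuous g) (hs : Slab g) (hn : Continuous n) (w : V) :
    pre n g w + ∫ r in Ioi (w 2), g (cpt n w r) = tot n g w := by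
  have i := integrable_col hg hs hn w
  exact intervalIntegral.integral_Iic_add_Ioi i.integrableOn i.integrableOn

/-- above the support the primitive is the total -/
theorem pre_eq_tot (h0 : ∀ r, w 2 < r → g (cpt n w r) = 0) : pre n g w = tot n g w :=
  setIntegral_eq_integral_of_forall_compl_eq_zero fun r hr => h0 r (not_le.1 hr)

/-- below the support the primitive vanishes -/
theorem pre_eq_zero (h0 : ∀ r, r ≤ w 2 → g (cpt n w r) = 0) : pre n g w = 0 :=
  setIntegral_eq_zero_of_forall_eq_zero h0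

theorem abs_tot_le {a b B : ℝ} (hab : a ≤ b) (h0 : ∀ r, r ∉ Icc a b → g (cpt n w r) = 0)
    (h1 : ∀ r ∈ Icc a b, |g (cpt n w r)| ≤ B) : |tot n g w| ≤ B * (b - a) := by
  rw [tot, ← setIntegral_eq_integral_of_forall_compl_eq_zero h0, ← Real.norm_eq_abs]
  simpa [hab] using norm_setIntegral_le_of_norm_le_const (μ := volume) (s := Icc a b)
    (f := fun r => g (cpt n w r)) measure_Icc_lt_top h1

theorem abs_pre_le {a b B : ℝ} (hab : a ≤ b) (h0 : ∀ r, r ∉ Icc a b → g (cpt n w r) = 0)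
    (h1 : ∀ r ∈ Icc a b, |g (cpt n w r)| ≤ B) : |pre n g w| ≤ B * (b - a) := by
  have B0 : 0 ≤ B := (abs_nonneg _).trans (h1 a ⟨le_rfl, hab⟩)
  rw [pre, setIntegral_eq_of_subset_of_forall_sdiff_eq_zero (s := Iic (w 2) ∩ Icc a b)
    measurableSet_Iic inter_subset_left fun r hr => h0 r fun k => hr.2 ⟨hr.1, k⟩,
    ← Real.norm_eq_abs]
  refine (norm_setIntegral_le_of_norm_le_const (μ := volume) (C := B)
    ((measure_mono inter_subset_right).trans_lt measure_Icc_lt_top)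
    fun r hr => h1 r hr.2).trans (mul_le_mul_of_nonneg_left ?_ B0)
  simpa [hab] using measureReal_mono (μ := volume) (s₂ := Icc a b) inter_subset_right
    measure_Icc_lt_top.ne

theorem tot_add (hg : Continuous g) (hs : Slab g) (hg' : Continuous g') (hs' : Slab g')
    (hn : Continuous n) : tot n (fun z => g z + g' z) = fun w => tot n g w + tot n g' w :=
  funext fun w => integral_add (integrable_col hg hs hn w) (integrable_col hg' hs' hn w)

theorem pre_add (hg : Continuous g) (hs : Slab g) (hg' : Continuous g') (hs' : Slab g')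
    (hn : Continuous n) : pre n (fun z => g z + g' z) = fun w => pre n g w + pre n g' w :=
  funext fun w => integral_add (integrable_col hg hs hn w).integrableOn
    (integrable_col hg' hs' hn w).integrableOn

theorem tot_sub (hg : Continuous g) (hs : Slab g) (hg' : Continuous g') (hs' : Slab g')
    (hn : Continuous n) : tot n (fun z => g z - g' z) = fun w => tot n g w - tot n g' w :=
  funext fun w => integral_sub (integrable_col hg hs hn w) (integrable_col hg' hs' hn w)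

theorem pre_sub (hg : Continuous g) (hs : Slab g) (hg' : Continuous g') (hs' : Slab g')
    (hn : Continuous n) : pre n (fun z => g z - g' z) = fun w => pre n g w - pre n g' w :=
  funext fun w => integral_sub (integrable_col hg hs hn w).integrableOn
    (integrable_col hg' hs' hn w).integrableOn

theorem tot_const_mul (c : ℝ) (n : ℝ → V) (g : V → ℝ) :
    tot n (fun z => c * g z) = fun w => c * tot n g w := funext fun _ => integral_const_mul _ _

theorem pre_const_mul (c : ℝ) (n : ℝ → V) (g : V → ℝ) :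
    pre n (fun z => c * g z) = fun w => c * pre n g w := funext fun _ => integral_const_mul _ _

lemma cpt_cin (n : ℝ → V) (z : V) : cpt n (cin n z) (z 2) = z := by
  funext i
  fin_cases i <;> simp [cpt, cin]

lemma cin_cpt (n : ℝ → V) (w : V) : cin n (cpt n w (w 2)) = w := by
  funext i
  fin_cases i <;> simp [cpt, cin]

lemma sm_cin (hn : Sm n) : Sm (cin n) := by
  refine contDiff_pi.2 fun i => ?_
  fin_cases i <;> simp only [cin] <;> simp <;> fun_prop

lemma continuous_cin (hn : Continuous n) : Continuous (cin n) := by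
  refine continuous_pi fun i => ?_
  fin_cases i <;> simp only [cin] <;> simp <;> fun_prop

/-- lateral bounds of the total along a column -/
theorem lat_tot {P : List (Fin 3) → Prop} {h : V} {U W : Set V} {a b B : ℝ} (hh : ∀ i, 0 ≤ h i)
    (hg : Sm g) (hs : Slab g) (hn : Continuous n) (hP : ∀ l, P l → ∀ i ∈ l, i ≠ 2) (hab : a ≤ b)
    (h0 : ∀ w ∈ W, ∀ r, r ∉ Icc a b → cpt n w r ∉ tsupport g)
    (h1 : ∀ w ∈ W, ∀ r ∈ Icc a b, cpt n w r ∈ U) (H : CBl P h U g B) :
    CBl P h W (tot n g) (B * (b - a)) ∧ CBl P h W (pre n g) (B * (b - a)) := by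
  have k0 : ∀ l, ∀ w ∈ W, ∀ r, r ∉ Icc a b → hp h l * pds l g (cpt n w r) = 0 := fun l w hw r hr =>
    by rw [pds_zero_of_not_mem_tsupport (h0 w hw r hr), mul_zero]
  have k1 : ∀ l, P l → ∀ w ∈ W, ∀ r ∈ Icc a b, |hp h l * pds l g (cpt n w r)| ≤ B :=
    fun l hl w hw r hr => by
      rw [abs_mul, abs_of_nonneg (hp_nonneg hh l)]
      exact H l hl _ (h1 w hw r hr)
  constructor <;> intro l hl w hw
  · have := abs_tot_le (g := fun z => hp h l * pds l g z) hab (k0 l w hw) (k1 l hl w hw)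
    rwa [tot_const_mul, abs_mul, abs_of_nonneg (hp_nonneg hh l), ← pds_tot hg hs hn (hP l hl)]
      at this
  · have := abs_pre_le (g := fun z => hp h l * pds l g z) hab (k0 l w hw) (k1 l hl w hw)
    rwa [pre_const_mul, abs_mul, abs_of_nonneg (hp_nonneg hh l), ← pds_pre hg hs hn (hP l hl)]
      at this

end
end Pool.Agent.MP_20bec2_an.T3

end MrgPart0

-- ======== part 1: formerly Pool.Agent.MP_20bec2_an.T3.ColA
section MrgPart1

/-! Functions whose derivatives are dominated along columns. -/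

set_option autoImplicit false
open MeasureTheory Set Filter Matrix Topology

namespace Pool.Agent.MP_20bec2_an.T3
noncomputable section

variable {b g g' : V → ℝ} {n : ℝ → V} {I : Set ℝ} {l : List (Fin 3)}

/-! ## bounded derivatives -/

lemma BdD.of_compact (hb : Sm b) (hc : HasCompactSupport b) : BdD b := fun l => by
  have : HasCompactSupport (pds l b) :=
    HasCompactSupport.intro hc fun x hx => pds_zero_of_not_mem_tsupport hx l
  exact (hb.pds l).continuous.bounded_above_of_compact_support this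

lemma BdD.const (c : ℝ) : BdD fun _ => c := fun l => by
  by_cases hl : l = []
  · exact ⟨|c|, fun z => by rw [hl]; exact le_rfl⟩
  · exact ⟨0, fun z => by rw [pds_const hl]; simp⟩

protected lemma BdD.pds (H : BdD b) (m : List (Fin 3)) : BdD (pds m b) :=
  fun l => by simpa only [pds_append] using H (l ++ m)

protected lemma BdD.pd (H : BdD b) (j : Fin 3) : BdD (pd j b) := H.pds [j]

lemma BdD.cb (H : BdD b) {h : V} (hh : ∀ i, 0 ≤ h i) (k : ℕ) : ∃ B, CB k h univ b B := by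
  choose B hB using H
  obtain ⟨M, hM⟩ := ((List.finite_length_le (Fin 3) k).image fun l => hp h l * B l).bddAbove
  exact ⟨M, fun l hl x _ => (mul_le_mul_of_nonneg_left (hB l x) (hp_nonneg hh l)).trans
    (hM (mem_image_of_mem _ hl))⟩

/-! ## closure properties -/

protected lemma ColD.pds (H : ColD g) (m : List (Fin 3)) : ColD (pds m g) :=
  ⟨H.1.pds m, fun l => by simpa only [pds_append] using H.2 (l ++ m)⟩

protected lemma ColD.pd (H : ColD g) (j : Fin 3) : ColD (pd j g) := H.pds [j]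

protected lemma ColD.add (H : ColD g) (H' : ColD g') : ColD fun z => g z + g' z :=
  ⟨H.1.add H'.1, fun l => by
    obtain ⟨φ, h1, h2⟩ := H.2 l
    obtain ⟨ψ, h3, h4⟩ := H'.2 l
    refine ⟨fun r => φ r + ψ r, h1.add h3, fun z => ?_⟩
    rw [pds_add H.1 H'.1]
    exact (abs_add_le _ _).trans (add_le_add (h2 z) (h4 z))⟩

protected lemma ColD.cmul (H : ColD g) (c : ℝ) : ColD fun z => c * g z :=
  ⟨H.1.cmul c, fun l => by
    obtain ⟨φ, h1, h2⟩ := H.2 l
    refine ⟨fun r => |c| * φ r, h1.const_mul _, fun z => ?_⟩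
    rw [pds_const_mul, abs_mul]
    exact mul_le_mul_of_nonneg_left (h2 z) (abs_nonneg c)⟩

protected lemma ColD.neg (H : ColD g) : ColD fun z => -g z := by
  simpa only [neg_mul, one_mul] using H.cmul (-1)

protected lemma ColD.sub (H : ColD g) (H' : ColD g') : ColD fun z => g z - g' z := by
  simpa only [sub_eq_add_neg] using H.add H'.neg

lemma ColD.zero : ColD fun _ => 0 :=
  ⟨sm_const 0, fun l => ⟨fun _ => 0, integrable_zero _ _ _, fun z => by simp⟩⟩

protected lemma ColD.sum {ι : Type*} (s : Finset ι) {f : ι → V → ℝ} (H : ∀ i ∈ s, ColD (f i)) :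
    ColD fun z => ∑ i ∈ s, f i z := by
  classical
  induction s using Finset.induction_on with
  | empty => simpa using ColD.zero
  | insert i s hi ih =>
    simp only [Finset.sum_insert hi]
    exact (H i (Finset.mem_insert_self _ _)).add (ih fun j hj => H j (Finset.mem_insert_of_mem hj))

/-- a divergence -/
protected lemma ColD.dv {F : V → V} (H : ∀ i, ColD fun z => F z i) : ColD (dv F) :=
  ColD.sum Finset.univ fun i _ => (H i).pd i

lemma ColD.bmul_aux (l : List (Fin 3)) : ∀ {b g : V → ℝ}, Sm b → BdD b → ColD g →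
    ∃ φ : ℝ → ℝ, Integrable φ ∧ ∀ z, |pds l (fun z => b z * g z) z| ≤ φ (z 2) := by
  induction l using List.reverseRecOn with
  | nil =>
    intro b g _ hB H
    obtain ⟨B, hB⟩ := hB []
    obtain ⟨φ, h1, h2⟩ := H.2 []
    refine ⟨fun r => B * φ r, h1.const_mul _, fun z => ?_⟩
    exact (abs_mul _ _).trans_le (mul_le_mul (hB z) (h2 z) (abs_nonneg _)
      ((abs_nonneg _).trans (hB z)))
  | append_singleton l j ih =>
    intro b g hb hB H
    obtain ⟨φ, h1, h2⟩ := ih (hb.pd j) (hB.pd j) H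
    obtain ⟨ψ, h3, h4⟩ := ih hb hB (H.pd j)
    refine ⟨fun r => φ r + ψ r, h1.add h3, fun z => ?_⟩
    rw [pds_concat, pd_mul hb H.1,
      pds_add (ContDiff.mul (hb.pd j) H.1) (ContDiff.mul hb (H.1.pd j))]
    exact (abs_add_le _ _).trans (add_le_add (h2 z) (h4 z))

/-- product with a function whose derivatives are bounded -/
lemma ColD.bmul (H : ColD g) (hb : Sm b) (hB : BdD b) : ColD fun z => b z * g z :=
  ⟨hb.mul H.1, fun l => ColD.bmul_aux l hb hB H⟩

lemma ColD.of_compact (hg : Sm g) (hc : HasCompactSupport g) : ColD g := ⟨hg, fun l => by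
  obtain ⟨B, hB⟩ := BdD.of_compact hg hc l
  obtain ⟨R, hR⟩ := (Slab.of_compact hc).pds l
  refine ⟨indicator (Icc (-R) R) fun _ => B,
    (integrable_indicator_iff measurableSet_Icc).2 (integrableOn_const measure_Icc_lt_top.ne),
    fun z => ?_⟩
  by_cases hz : z 2 ∈ Icc (-R) R
  · rw [indicator_of_mem hz]; exact hB z
  · rw [indicator_of_notMem hz, hR z (not_le.1 fun k => hz (abs_le.1 k)), abs_zero]⟩

/-! ## integrals along columns -/

lemma cpt_two (n : ℝ → V) (w : V) (r : ℝ) : cpt n w r 2 = r := rfl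

lemma tot_eq_colI (n : ℝ → V) (g : V → ℝ) : tot n g = colI n univ g :=
  funext fun _ => by rw [colI, Measure.restrict_univ, tot]

lemma pre_eq_colI (n : ℝ → V) (g : V → ℝ) (w : V) : pre n g w = colI n (Iic (w 2)) g w := rfl

lemma colI_const_mul (c : ℝ) (n : ℝ → V) (I : Set ℝ) (g : V → ℝ) :
    colI n I (fun z => c * g z) = fun w => c * colI n I g w :=
  funext fun _ => integral_const_mul _ _

lemma ColD.integrable (H : ColD g) (hn : Continuous n) (w : V) :
    Integrable fun r => g (cpt n w r) := by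
  obtain ⟨φ, h1, h2⟩ := H.2 []
  exact h1.mono' ((JC.col H.1 hn).contr w).aestronglyMeasurable
    (Eventually.of_forall fun r => h2 (cpt n w r))

lemma ColD.dom (H : ColD g) (hn : Continuous n) (I : Set ℝ) :
    Dom (volume.restrict I) fun r w => g (cpt n w r) := by
  refine ⟨(JC.col H.1 hn).sm, fun l x => (((JC.col H.1 hn).pds l).contr x).aestronglyMeasurable,
    fun l x => ?_⟩
  obtain ⟨φ, h1, h2⟩ := H.2 l
  refine ⟨univ, univ_mem, φ, h1.integrableOn, Eventually.of_forall fun r y _ => ?_⟩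
  rw [pds_cpt H.1]
  have := h2 (cpt n y r)
  rw [cpt_two] at this
  beta_reduce
  split_ifs
  · rw [abs_zero]; exact (abs_nonneg _).trans this
  · exact this

theorem ColD.sm_colI (H : ColD g) (hn : Continuous n) (I : Set ℝ) : Sm (colI n I g) :=
  (H.dom hn I).sm_integral

theorem ColD.pds_colI' (H : ColD g) (hn : Continuous n) (I : Set ℝ) (l : List (Fin 3)) :
    pds l (colI n I g) = if 2 ∈ l then fun _ => 0 else colI n I (pds l g) := by
  refine ((H.dom hn I).pds_integral l).trans ?_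
  simp only [pds_cpt H.1]
  split_ifs
  · simp
  · rfl

theorem ColD.pds_colI (H : ColD g) (hn : Continuous n) (I : Set ℝ) (hl : ∀ i ∈ l, i ≠ 2) :
    pds l (colI n I g) = colI n I (pds l g) := by
  rw [H.pds_colI' hn, if_neg fun k => hl 2 k rfl]

theorem ColD.sm_tot (H : ColD g) (hn : Continuous n) : Sm (tot n g) := by
  rw [tot_eq_colI]; exact H.sm_colI hn _

theorem ColD.pds_tot (H : ColD g) (hn : Continuous n) (hl : ∀ i ∈ l, i ≠ 2) :
    pds l (tot n g) = tot n (pds l g) := by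
  rw [tot_eq_colI, tot_eq_colI, H.pds_colI hn _ hl]

theorem ColD.colI_add (H : ColD g) (H' : ColD g') (hn : Continuous n) (I : Set ℝ) :
    colI n I (fun z => g z + g' z) = fun w => colI n I g w + colI n I g' w :=
  funext fun w => integral_add (H.integrable hn w).integrableOn (H'.integrable hn w).integrableOn

theorem ColD.colI_sub (H : ColD g) (H' : ColD g') (hn : Continuous n) (I : Set ℝ) :
    colI n I (fun z => g z - g' z) = fun w => colI n I g w - colI n I g' w :=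
  funext fun w => integral_sub (H.integrable hn w).integrableOn (H'.integrable hn w).integrableOn

theorem colI_sum {ι : Type*} (s : Finset ι) {f : ι → V → ℝ} (H : ∀ i ∈ s, ColD (f i))
    (hn : Continuous n) (I : Set ℝ) :
    colI n I (fun z => ∑ i ∈ s, f i z) = fun w => ∑ i ∈ s, colI n I (f i) w :=
  funext fun w => integral_finsetSum _ fun i hi => ((H i hi).integrable hn w).integrableOn

/-- the column is cut at the height `t` -/
theorem ColD.colI_Iic_add_Ioi (H : ColD g) (hn : Continuous n) (t : ℝ) (w : V) :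
    colI n (Iic t) g w + colI n (Ioi t) g w = tot n g w :=
  intervalIntegral.integral_Iic_add_Ioi (H.integrable hn w).integrableOn
    (H.integrable hn w).integrableOn

lemma ColD.pre_eq (H : ColD g) (hn : Continuous n) :
    pre n g = fun w => colI n (Iic 0) g w + ∫ r in (0 : ℝ)..w 2, g (cpt n w r) := by
  funext w
  have i := H.integrable hn w
  rw [← intervalIntegral.integral_Iic_sub_Iic i.integrableOn i.integrableOn, pre, colI]
  ring

theorem ColD.sm_pre (H : ColD g) (hn : Sm n) : Sm (pre n g) := by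
  rw [H.pre_eq hn.continuous]
  exact (H.sm_colI hn.continuous _).add (sm_integral_ends (F := fun r w => g (cpt n w r))
    (H.1.comp (sm_cpt hn)) contDiff_const (sm_coord 2))

lemma ColD.pd_pre' (H : ColD g) (hn : Continuous n) (j : Fin 3) (w : V) :
    pd j (pre n g) w = if j = 2 then g (cpt n w (w 2)) else pre n (pd j g) w := by
  obtain ⟨h1, h2⟩ := (JC.col H.1 hn).upper 0 ((sm_coord 2).dif w)
  have h3 := congrFun (H.pds_colI' hn (Iic 0) [j]) w
  rw [H.pre_eq hn, pd_add_at ((H.sm_colI hn _).dif w) h1, h2, (H.pd j).pre_eq hn, pd_coord]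
  simp only [pd_cpt H.1]
  by_cases hj : j = 2
  · subst hj
    simp only [List.mem_singleton, if_true] at h3
    simpa using h3
  · simp only [List.mem_singleton, if_neg (Ne.symm hj)] at h3
    simpa [hj, Ne.symm hj] using h3

theorem ColD.pd_two_pre (H : ColD g) (hn : Continuous n) (w : V) :
    pd 2 (pre n g) w = g (cpt n w (w 2)) := (H.pd_pre' hn 2 w).trans (if_pos rfl)

theorem ColD.pds_pre (H : ColD g) (hn : Continuous n) (hl : ∀ i ∈ l, i ≠ 2) :
    pds l (pre n g) = pre n (pds l g) := by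
  induction l with
  | nil => rfl
  | cons j l ih =>
    funext w
    rw [pds, ih fun i hi => hl i (List.mem_cons_of_mem _ hi), (H.pds l).pd_pre' hn,
      if_neg (hl j List.mem_cons_self), pds]

/-- lateral derivatives of the primitive are taken with the cut fixed -/
theorem ColD.pds_pre_colI (H : ColD g) (hn : Continuous n) (hl : ∀ i ∈ l, i ≠ 2) (w : V) :
    pds l (pre n g) w = pds l (colI n (Iic (w 2)) g) w := by
  rw [H.pds_pre hn hl, H.pds_colI hn _ hl, pre_eq_colI]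

end
end Pool.Agent.MP_20bec2_an.T3

end MrgPart1

-- ======== part 2: formerly Pool.Agent.MP_20bec2_an.T3.Sob
section MrgPart2

/-! Row SOB: the lateral lists `LL n` and the two-dimensional Sobolev bound. -/

set_option autoImplicit false
open MeasureTheory Set Filter Matrix

namespace Pool.Agent.MP_20bec2_an.T3
noncomputable section
open Classical

/-! ## lateral lists -/

theorem mem_LL {n : ℕ} {l : List (Fin 3)} : l ∈ LL n ↔ l.length ≤ n ∧ ∀ i ∈ l, i ≠ 2 := by
  induction n generalizing l with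
  | zero =>
    simp only [LL, Finset.mem_singleton, Nat.le_zero, List.length_eq_zero_iff]
    exact ⟨fun h => ⟨h, by simp [h]⟩, fun h => h.1⟩
  | succ n ih =>
    simp only [LL, Finset.mem_union, Finset.mem_biUnion, Finset.mem_insert, Finset.mem_singleton,
      ih]
    constructor
    · rintro (⟨h1, h2⟩ | ⟨t, ⟨h1, h2⟩, rfl | rfl⟩)
      · exact ⟨by omega, h2⟩
      · refine ⟨by simpa using h1, fun i hi => ?_⟩
        rcases List.mem_cons.1 hi with rfl | hi
        · decide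
        · exact h2 i hi
      · refine ⟨by simpa using h1, fun i hi => ?_⟩
        rcases List.mem_cons.1 hi with rfl | hi
        · decide
        · exact h2 i hi
    · rintro ⟨h1, h2⟩
      cases l with
      | nil => exact Or.inl ⟨by simp, h2⟩
      | cons j t =>
        refine Or.inr ⟨t, ⟨by simpa using h1, fun i hi => h2 i (List.mem_cons_of_mem _ hi)⟩, ?_⟩
        have hj : j ≠ 2 := h2 j List.mem_cons_self
        have : j = 0 ∨ j = 1 := by omega
        rcases this with rfl | rfl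
        · exact Or.inl rfl
        · exact Or.inr rfl

theorem LL_len {n : ℕ} {l : List (Fin 3)} (h : l ∈ LL n) : l.length ≤ n := (mem_LL.1 h).1
theorem LL_lat {n : ℕ} {l : List (Fin 3)} (h : l ∈ LL n) : ∀ i ∈ l, i ≠ 2 := (mem_LL.1 h).2
theorem nil_mem_LL (n : ℕ) : [] ∈ LL n := mem_LL.2 ⟨Nat.zero_le _, by simp⟩

theorem LL_mono {m n : ℕ} (h : m ≤ n) : LL m ⊆ LL n := fun _ hl =>
  mem_LL.2 ⟨(LL_len hl).trans h, LL_lat hl⟩

theorem cons_mem_LL {n : ℕ} {l : List (Fin 3)} {i : Fin 3} :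
    i :: l ∈ LL (n + 1) ↔ i ≠ 2 ∧ l ∈ LL n := by
  simp only [mem_LL, List.length_cons, Nat.add_le_add_iff_right, List.forall_mem_cons]
  tauto

theorem append_mem_LL {m n : ℕ} {l l' : List (Fin 3)} (h : l ∈ LL m) (h' : l' ∈ LL n) :
    l ++ l' ∈ LL (m + n) := by
  refine mem_LL.2 ⟨?_, fun i hi => ?_⟩
  · have := LL_len h; have := LL_len h'; rw [List.length_append]; omega
  · rcases List.mem_append.1 hi with hi | hi
    · exact LL_lat h i hi
    · exact LL_lat h' i hi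

theorem concat_mem_LL {n : ℕ} {l : List (Fin 3)} {i : Fin 3} (h : l ∈ LL n) (hi : i ≠ 2) :
    l ++ [i] ∈ LL (n + 1) :=
  append_mem_LL h (cons_mem_LL.2 ⟨hi, nil_mem_LL 0⟩)

theorem latL_iff {n : ℕ} {l : List (Fin 3)} : LatL n l ↔ l ∈ LL n ∧ l ≠ [] := by
  rw [mem_LL, LatL, ← List.length_pos_iff]
  tauto

theorem LL_succ (n : ℕ) : LL (n + 1) = insert [] ((LL n).biUnion fun l => {0 :: l, 1 :: l}) := by
  ext l
  cases l with
  | nil => simp [nil_mem_LL]
  | cons j t =>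
    rw [cons_mem_LL]
    simp only [Finset.mem_insert, reduceCtorEq, Finset.mem_biUnion, Finset.mem_singleton,
      List.cons.injEq, false_or]
    constructor
    · rintro ⟨hj, ht⟩
      refine ⟨t, ht, ?_⟩
      have : j = 0 ∨ j = 1 := by omega
      tauto
    · rintro ⟨s, hs, ⟨rfl, rfl⟩ | ⟨rfl, rfl⟩⟩
      · exact ⟨by decide, hs⟩
      · exact ⟨by decide, hs⟩

theorem card_LL_lt (n : ℕ) : (LL n).card < 2 ^ (n + 1) := by
  induction n with
  | zero => simp [LL]
  | succ n ih =>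
    have h1 := Finset.card_insert_le ([] : List (Fin 3))
      ((LL n).biUnion fun l => ({0 :: l, 1 :: l} : Finset (List (Fin 3))))
    have h2 := Finset.card_biUnion_le_card_mul (LL n)
      (fun l => ({0 :: l, 1 :: l} : Finset (List (Fin 3)))) 2 fun _ _ => Finset.card_le_two
    rw [LL_succ, pow_succ]
    omega

theorem card_LL_le (n : ℕ) : ((LL n).card : ℝ) ≤ 2 ^ (n + 1) := by
  exact_mod_cast (card_LL_lt n).le

/-- for a fixed list `l` of length at most `m`, the lists `l' ++ l` exhaust a part of `LL` -/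
theorem sum_LL_append {m n : ℕ} {l : List (Fin 3)} (hl : l ∈ LL m) {F : List (Fin 3) → ℝ}
    (hF : ∀ t ∈ LL (n + m), 0 ≤ F t) : ∑ t ∈ LL n, F (t ++ l) ≤ ∑ t ∈ LL (n + m), F t := by
  rw [← Finset.sum_image (s := LL n) (g := fun t => t ++ l) (f := F)
    fun _ _ _ _ h => List.append_cancel_right h]
  refine Finset.sum_le_sum_of_subset_of_nonneg (fun t ht => ?_) fun t ht _ => hF t ht
  obtain ⟨s, hs, rfl⟩ := Finset.mem_image.1 ht
  exact append_mem_LL hs hl

/-- the same with a lower bound for the length -/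
theorem sum_LL_append_filter {m n k : ℕ} {l : List (Fin 3)} (hl : l ∈ LL m) (hk : k ≤ l.length)
    {F : List (Fin 3) → ℝ} (hF : ∀ t ∈ LL (n + m), 0 ≤ F t) :
    ∑ t ∈ LL n, F (t ++ l) ≤ ∑ t ∈ (LL (n + m)).filter (k ≤ ·.length), F t := by
  rw [← Finset.sum_image (s := LL n) (g := fun t => t ++ l) (f := F)
    fun _ _ _ _ h => List.append_cancel_right h]
  refine Finset.sum_le_sum_of_subset_of_nonneg (fun t ht => ?_)
    fun t ht _ => hF t (Finset.mem_filter.1 ht).1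
  obtain ⟨s, hs, rfl⟩ := Finset.mem_image.1 ht
  refine Finset.mem_filter.2 ⟨append_mem_LL hs hl, ?_⟩
  rw [List.length_append]; omega

/-! ## Sobolev -/

namespace SobP

theorem one {f f' : ℝ → ℝ} (hf : ∀ x, HasDerivAt f (f' x) x) (hc : Continuous f') {h : ℝ}
    (hh : 0 < h) (a : ℝ) :
    f a ^ 2 ≤ ∫ x in Ioc a (a + h), (2 / h * f x ^ 2 + h * f' x ^ 2) := by
  have hcf : Continuous f := continuous_iff_continuousAt.2 fun x => (hf x).continuousAt
  have hd : ∀ t, HasDerivAt (fun t => (t - (a + h)) / h * f t ^ 2)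
      (1 / h * f t ^ 2 + (t - (a + h)) / h * (2 * f t * f' t)) t := fun t => by
    have h1 : HasDerivAt (fun t : ℝ => (t - (a + h)) / h) (1 / h) t :=
      ((hasDerivAt_id t).sub_const (a + h)).div_const h
    have h2 : HasDerivAt (fun t => f t ^ 2) (2 * f t * f' t) t := by
      simpa using (hf t).fun_pow 2
    exact h1.fun_mul h2
  have hle : a ≤ a + h := by linarith
  have hI := intervalIntegral.integral_eq_sub_of_hasDerivAt (a := a) (b := a + h)
    (fun t _ => hd t) (Continuous.intervalIntegrable (by fun_prop) _ _)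
  have he : f a ^ 2 = (a + h - (a + h)) / h * f (a + h) ^ 2 - (a - (a + h)) / h * f a ^ 2 := by
    field_simp; ring
  rw [he, ← hI, ← intervalIntegral.integral_of_le hle]
  refine intervalIntegral.integral_mono_on hle (Continuous.intervalIntegrable (by fun_prop) _ _)
    (Continuous.intervalIntegrable (by fun_prop) _ _) fun t ht => ?_
  obtain ⟨φ, hφ⟩ : ∃ φ, φ = (t - (a + h)) / h := ⟨_, rfl⟩
  have h0 : φ ≤ 0 := by rw [hφ]; exact div_nonpos_of_nonpos_of_nonneg (by linarith [ht.2]) hh.le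
  have h1 : -1 ≤ φ := by rw [hφ, le_div_iff₀ hh]; linarith [ht.1]
  rw [← hφ]
  have key : φ * (2 * f t * (h * f' t)) ≤ f t ^ 2 + (h * f' t) ^ 2 := by
    have h2 : φ ^ 2 ≤ 1 := by nlinarith
    nlinarith [sq_nonneg (f t - φ * (h * f' t)),
      mul_le_mul_of_nonneg_right h2 (sq_nonneg (h * f' t))]
  have := div_le_div_of_nonneg_right key hh.le
  have e1 : φ * (2 * f t * (h * f' t)) / h = φ * (2 * f t * f' t) := by field_simp
  have e2 : (f t ^ 2 + (h * f' t) ^ 2) / h = 1 / h * f t ^ 2 + h * f' t ^ 2 := by field_simp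
  have e3 : 2 / h * f t ^ 2 = 1 / h * f t ^ 2 + 1 / h * f t ^ 2 := by ring
  rw [e1, e2] at this
  linarith

theorem d0 {G : V → ℝ} (hG : Sm G) (x y : ℝ) :
    HasDerivAt (fun x => G ![x, y, 0]) (pd 0 G ![x, y, 0]) x := by
  have h1 : HasDerivAt (fun x : ℝ => (![x, y, 0] : V)) (Pi.single 0 1) x := by
    refine hasDerivAt_pi.2 fun i => ?_
    fin_cases i
    · simpa using hasDerivAt_id' x
    · simpa using hasDerivAt_const x y
    · simpa using hasDerivAt_const x (0 : ℝ)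
  exact ((hG.differentiable (by simp)) _).hasFDerivAt.comp_hasDerivAt x h1

theorem d1 {G : V → ℝ} (hG : Sm G) (x y : ℝ) :
    HasDerivAt (fun y => G ![x, y, 0]) (pd 1 G ![x, y, 0]) y := by
  have h1 : HasDerivAt (fun y : ℝ => (![x, y, 0] : V)) (Pi.single 1 1) y := by
    refine hasDerivAt_pi.2 fun i => ?_
    fin_cases i
    · simpa using hasDerivAt_const y x
    · simpa using hasDerivAt_id' y
    · simpa using hasDerivAt_const y (0 : ℝ)
  exact ((hG.differentiable (by simp)) _).hasFDerivAt.comp_hasDerivAt y h1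

theorem cw {G : V → ℝ} (hG : Sm G) : Continuous fun w : ℝ × ℝ => G ![w.1, w.2, 0] :=
  hG.continuous.comp (by fun_prop)

theorem cy {G : V → ℝ} (hG : Sm G) (x : ℝ) : Continuous fun y : ℝ => G ![x, y, 0] :=
  hG.continuous.comp (by fun_prop)

theorem cx {G : V → ℝ} (hG : Sm G) (y : ℝ) : Continuous fun x : ℝ => G ![x, y, 0] :=
  hG.continuous.comp (by fun_prop)

end SobP

theorem sob : SobStmt := by
  refine ⟨4, by norm_num, fun h G hh hG hI a b => ?_⟩
  have h0 := hh 0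
  have h1 := hh 1
  let S : Finset (List (Fin 3)) := {[], [0], [1], [1, 0]}
  have hS : S ⊆ LL 2 := by decide
  let T : List (Fin 3) → ℝ × ℝ → ℝ := fun l w => (hp h l * pds l G ![w.1, w.2, 0]) ^ 2
  have hT : ∀ l ∈ LL 2, Integrable (T l) := fun l hl => by
    simpa only [T, mul_pow] using (hI l hl).const_mul (hp h l ^ 2)
  let F : ℝ × ℝ → ℝ := fun w => 4 / (h 0 * h 1) * ∑ l ∈ S, T l w
  have hF : Integrable F := (integrable_finsetSum S fun l hl => hT l (hS hl)).const_mul _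
  have hF0 : ∀ w, 0 ≤ F w := fun w =>
    mul_nonneg (by positivity) (Finset.sum_nonneg fun l _ => sq_nonneg _)
  have hFc : ∀ x, Continuous fun y => F (x, y) := fun x =>
    continuous_const.mul (continuous_finsetSum S fun l _ =>
      (continuous_const.mul (SobP.cy (hG.pds l) x)).pow 2)
  have hFe : ∀ x y, F (x, y) = 4 / (h 0 * h 1) * (G ![x, y, 0] ^ 2 + (h 0 * pd 0 G ![x, y, 0]) ^ 2 +
      (h 1 * pd 1 G ![x, y, 0]) ^ 2 + (h 1 * h 0 * pd 1 (pd 0 G) ![x, y, 0]) ^ 2) := fun x y => by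
    simp only [F, T, S]
    rw [Finset.sum_insert (by decide), Finset.sum_insert (by decide), Finset.sum_insert (by decide),
      Finset.sum_singleton]
    simp only [hp_nil, hp_cons, pds_nil, pds_cons]
    ring
  have step : ∀ x, 2 / h 0 * G ![x, b, 0] ^ 2 + h 0 * pd 0 G ![x, b, 0] ^ 2 ≤
      ∫ y in Ioc b (b + h 1), F (x, y) := fun x => by
    have e1 := SobP.one (SobP.d1 hG x) (SobP.cy (hG.pd 1) x) h1 b
    have e2 := SobP.one (SobP.d1 (hG.pd 0) x) (SobP.cy ((hG.pd 0).pd 1) x) h1 b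
    have c0 := SobP.cy hG x
    have c1 := SobP.cy (hG.pd 1) x
    have c2 := SobP.cy (hG.pd 0) x
    have c3 := SobP.cy ((hG.pd 0).pd 1) x
    have i1 : IntegrableOn (fun y => 2 / h 1 * G ![x, y, 0] ^ 2 + h 1 * pd 1 G ![x, y, 0] ^ 2)
        (Ioc b (b + h 1)) := Continuous.integrableOn_Ioc (by fun_prop)
    have i2 : IntegrableOn (fun y => 2 / h 1 * pd 0 G ![x, y, 0] ^ 2 +
        h 1 * pd 1 (pd 0 G) ![x, y, 0] ^ 2) (Ioc b (b + h 1)) :=
      Continuous.integrableOn_Ioc (by fun_prop)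
    refine (add_le_add (mul_le_mul_of_nonneg_left e1 (by positivity))
      (mul_le_mul_of_nonneg_left e2 h0.le)).trans ?_
    rw [← integral_const_mul, ← integral_const_mul,
      ← integral_add (i1.const_mul _) (i2.const_mul _)]
    refine integral_mono ((i1.const_mul _).add (i2.const_mul _)) (hFc x).integrableOn_Ioc
      fun y => ?_
    simp only [hFe]
    rw [← sub_nonneg]
    have : 4 / (h 0 * h 1) * (G ![x, y, 0] ^ 2 + (h 0 * pd 0 G ![x, y, 0]) ^ 2 +
        (h 1 * pd 1 G ![x, y, 0]) ^ 2 + (h 1 * h 0 * pd 1 (pd 0 G) ![x, y, 0]) ^ 2) -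
        (2 / h 0 * (2 / h 1 * G ![x, y, 0] ^ 2 + h 1 * pd 1 G ![x, y, 0] ^ 2) +
          h 0 * (2 / h 1 * pd 0 G ![x, y, 0] ^ 2 + h 1 * pd 1 (pd 0 G) ![x, y, 0] ^ 2)) =
        2 * h 0 / h 1 * pd 0 G ![x, y, 0] ^ 2 + 2 * h 1 / h 0 * pd 1 G ![x, y, 0] ^ 2 +
          3 * h 0 * h 1 * pd 1 (pd 0 G) ![x, y, 0] ^ 2 := by
      field_simp; ring
    rw [this]
    positivity
  have hF' : Integrable F (volume.prod volume) := hF
  have hbox : IntegrableOn F (Ioc a (a + h 0) ×ˢ Ioc b (b + h 1)) (volume.prod volume) :=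
    hF'.integrableOn
  have c0 := SobP.cx hG b
  have c2 := SobP.cx (hG.pd 0) b
  calc G ![a, b, 0] ^ 2
      ≤ ∫ x in Ioc a (a + h 0), (2 / h 0 * G ![x, b, 0] ^ 2 + h 0 * pd 0 G ![x, b, 0] ^ 2) :=
        SobP.one (fun x => SobP.d0 hG x b) c2 h0 a
    _ ≤ ∫ x in Ioc a (a + h 0), ∫ y in Ioc b (b + h 1), F (x, y) := by
        refine integral_mono (Continuous.integrableOn_Ioc (by fun_prop)) ?_ step
        rw [IntegrableOn, ← Measure.prod_restrict] at hbox
        exact hbox.integral_prod_left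
    _ = ∫ w in Ioc a (a + h 0) ×ˢ Ioc b (b + h 1), F w ∂(volume.prod volume) :=
        (setIntegral_prod F hbox).symm
    _ ≤ ∫ w, F w := setIntegral_le_integral hF' (ae_of_all _ hF0)
    _ = 4 * ∑ l ∈ S, (∫ w, T l w) / (h 0 * h 1) := by
        simp only [F]
        rw [integral_const_mul, integral_finsetSum S fun l hl => hT l (hS hl), ← Finset.sum_div]
        ring
    _ ≤ _ := by
        refine mul_le_mul_of_nonneg_left (Finset.sum_le_sum_of_subset_of_nonneg hS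
          fun l _ _ => div_nonneg (integral_nonneg fun w => sq_nonneg _) (by positivity))
          (by norm_num)

end
end Pool.Agent.MP_20bec2_an.T3

end MrgPart2

-- marker of a merged file
example : 731051 + 822146 = 731051 + 822146 := rfl

end MrgPart0

-- ======== part 1: formerly Pool.Agent.MP_20bec2_an.T3.OphA
section MrgPart1

/-! Sums of squares of column functionals over weights with disjoint supports. -/

set_option autoImplicit false
open MeasureTheory Set Filter Matrix Topology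

namespace Pool.Agent.MP_20bec2_an.T3.OphP
noncomputable section
attribute [local irreducible] LL

/-- lateral envelope -/
def gl (h : V) (n : ℝ → V) (v w : V) : ℝ := Real.exp (-lat2 h (cin n v - w) / 240)
/-- envelope of the kernel of a column functional -/
def mm (h : V) (n : ℝ → V) (b : V → ℝ) (I : Set ℝ) (v w : V) : ℝ :=
  colI n I (indicator (tsupport b) fun z => env h (v - z)) w
def ec (h : V) (n : ℝ → V) (I : Set ℝ) (v w : V) : ℝ := colI n I (fun z => env h (v - z)) w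

/-- the parts of the tool box that are used here -/
structure CK (C : ℝ) (h : V) (n : ℝ → V) (b : V → ℝ) (Bc : ℝ) : Prop where
  hC : 1 ≤ C
  hB : 0 ≤ Bc
  hh : ∀ i, 0 < h i
  cn : Continuous n
  cd : ∀ U a A Z S, KL h U a A Z S → ColD fun z => b z * dens a Z S z
  rep : ∀ I, MeasurableSet I → ∀ U a A Z S, KL h U a A Z S → ∀ l ∈ LL 6, ∀ w,
    Integrable (fun x => a x * pds l (colI n I fun z => b z * ker (S x) (Z x - z)) w) ∧
    pds l (colI n I fun z => b z * dens a Z S z) w =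
      ∫ x, a x * pds l (colI n I fun z => b z * ker (S x) (Z x - z)) w
  bd : ∀ I, MeasurableSet I → ∀ S v, PD h S → ∀ l ∈ LL 6, ∀ w,
    hp h l * |pds l (colI n I fun z => b z * ker S (v - z)) w| ≤ C * Bc * mm h n b I v w
  ev : ∀ (I : Set ℝ) (v w : V) (e : ℝ), 0 ≤ e → (∀ r ∈ I, e ≤ |r - v 2|) → ec h n I v w ≤
    C / (h 0 * h 1) * Real.exp (-lat2 h (cin n v - w) / 60) * Real.exp (-(e / h 2) ^ 2 / 60)
  vol : ∀ (U : Set V) (Z : V → V) (w : V) (a b : ℝ), Convex ℝ U → IsCompact U → ContDiff ℝ 1 Z →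
    (∀ x ∈ U, EB (jm Z x - 1) (cm (1 / 100))) → a ≤ b → ∫ x in U, env h (Z x - w) ≤ C ∧
    ∫ x in U ∩ {x | x 2 ∈ Icc a b}, gl h n (Z x) w ≤ C * (h 0 * h 1) * (b - a)

lemma ck (H : ColkStmt) : ∃ C : ℝ, 1 ≤ C ∧ ∀ (h : V) (n : ℝ → V) (κ : ℝ) (b : V → ℝ) (Bc : ℝ),
    (∀ i, 0 < h i) → Sm n →
    (∀ i, i ≠ 2 → (∀ r, |deriv (fun r => n r i) r| ≤ κ) ∧ κ * h 2 ≤ h i / 100) → κ ≤ 1 / 1000 →
    Sm b → BdD b → CB 6 h univ b Bc → CK C h n b Bc := by
  obtain ⟨C, hC, H⟩ := H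
  refine ⟨C, hC, fun h n κ b Bc hh hn hk hk' sb bb cb => ?_⟩
  obtain ⟨H1, H2, -, -, H5⟩ := H h n κ hh hn hk hk'
  refine ⟨hC, ?_, hh, hn.continuous, fun U a A Z S kl =>
    ((H1 b Bc univ sb bb cb MeasurableSet.univ).1 U a A Z S kl).1, fun I hI U a A Z S kl l hl w =>
    ((((H1 b Bc I sb bb cb hI).1 U a A Z S kl).2.2.2.2 l hl).2.2 w).2,
    fun I hI => (H1 b Bc I sb bb cb hI).2, H2, fun U Z w a b h1 h2 h3 h4 h5 =>
    ⟨(H5 U Z w a b h1 h2 h3 h4 h5).1, (H5 U Z w a b h1 h2 h3 h4 h5).2.2⟩⟩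
  exact (mul_nonneg (hp_nonneg (fun i => (hh i).le) []) (abs_nonneg _)).trans
    (cb [] (Nat.zero_le _) 0 trivial)

variable {C Bc : ℝ} {h : V} {n : ℝ → V} {b : V → ℝ}

lemma env_nonneg (hh : ∀ i, 0 < h i) (w : V) : 0 ≤ env h w :=
  div_nonneg (Real.exp_pos _).le (mul_pos (mul_pos (hh 0) (hh 1)) (hh 2)).le

lemma cont_env (h : V) : Continuous (env h) := by unfold env; fun_prop

lemma cont_cpt (hn : Continuous n) (w : V) : Continuous (cpt n w) :=
  continuous_pi fun i => by fin_cases i <;> simp [cpt] <;> fun_prop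

lemma cont_cin (hn : Continuous n) : Continuous (cin n) :=
  continuous_pi fun i => by fin_cases i <;> simp [cin] <;> fun_prop

lemma cont_gl (hn : Continuous n) (w : V) : Continuous fun v => gl h n v w := by
  have := cont_cin hn
  unfold gl lat2; fun_prop

lemma gl_pos (v w : V) : 0 < gl h n v w := Real.exp_pos _

lemma lat2_nonneg (h w : V) : 0 ≤ lat2 h w := by unfold lat2; positivity

lemma int_env (hh : ∀ i, 0 < h i) (hn : Continuous n) (v w : V) :
    Integrable fun r => env h (v - cpt n w r) := by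
  have h2 := hh 2
  have hp : 0 < h 0 * h 1 * h 2 := mul_pos (mul_pos (hh 0) (hh 1)) h2
  have i1 := ((integrable_exp_neg_mul_sq (b := 1 / (30 * h 2 ^ 2)) (by positivity)).comp_sub_right
    (v 2)).div_const (h 0 * h 1 * h 2)
  refine i1.mono' ((cont_env h).comp (continuous_const.sub (cont_cpt hn w))).aestronglyMeasurable
    (Eventually.of_forall fun r => ?_)
  rw [Real.norm_of_nonneg (env_nonneg hh _), env]
  refine div_le_div_of_nonneg_right (Real.exp_le_exp.2 ?_) hp.le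
  rw [Fin.sum_univ_three]
  have e : ((v - cpt n w r) 2 / h 2) ^ 2 / 30 = 1 / (30 * h 2 ^ 2) * (r - v 2) ^ 2 := by
    rw [Pi.sub_apply, cpt_two]; field_simp; ring
  nlinarith [sq_nonneg ((v - cpt n w r) 0 / h 0), sq_nonneg ((v - cpt n w r) 1 / h 1)]

lemma ec_nonneg (hh : ∀ i, 0 < h i) (I : Set ℝ) (v w : V) : 0 ≤ ec h n I v w :=
  integral_nonneg fun _ => env_nonneg hh _

lemma mm_le2 (hh : ∀ i, 0 < h i) (hn : Continuous n) {I I1 I2 : Set ℝ} (hI : MeasurableSet I)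
    (h1 : MeasurableSet I1) (h2 : MeasurableSet I2) (v w : V)
    (H : ∀ r ∈ I, cpt n w r ∈ tsupport b → r ∈ I1 ∨ r ∈ I2) :
    mm h n b I v w ≤ ec h n I1 v w + ec h n I2 v w := by
  have i := int_env hh hn v w
  unfold mm ec colI
  rw [← integral_indicator hI, ← integral_indicator h1, ← integral_indicator h2,
    ← integral_add (i.indicator h1) (i.indicator h2)]
  have p : ∀ r, 0 ≤ env h (v - cpt n w r) := fun r => env_nonneg hh _
  refine integral_mono_of_nonneg (Eventually.of_forall fun r => indicator_nonneg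
    (fun r _ => indicator_nonneg (fun z _ => env_nonneg hh _) _) r)
    ((i.indicator h1).add (i.indicator h2)) (Eventually.of_forall fun r => ?_)
  have p1 := indicator_nonneg (s := I1) (fun r _ => p r) r
  have p2 := indicator_nonneg (s := I2) (fun r _ => p r) r
  beta_reduce
  by_cases a : r ∈ I
  · rw [indicator_of_mem a]
    by_cases c : cpt n w r ∈ tsupport b
    · rw [indicator_of_mem c]
      rcases H r a c with k | k
      · rw [indicator_of_mem k]; linarith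
      · rw [indicator_of_mem k]; linarith
    · rw [indicator_of_notMem c]; linarith
  · rw [indicator_of_notMem a]; linarith

lemma mm_le (hh : ∀ i, 0 < h i) (hn : Continuous n) {I I1 : Set ℝ} (hI : MeasurableSet I)
    (h1 : MeasurableSet I1) (v w : V) (H : ∀ r ∈ I, cpt n w r ∈ tsupport b → r ∈ I1) :
    mm h n b I v w ≤ ec h n I1 v w := by
  simpa [ec, colI] using mm_le2 hh hn hI h1 MeasurableSet.empty v w fun r a c => .inl (H r a c)

namespace CK
variable (K : CK C h n b Bc)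
include K

lemma P_pos : 0 < C / (h 0 * h 1) := div_pos (by linarith [K.hC]) (mul_pos (K.hh 0) (K.hh 1))

lemma ec_le (I : Set ℝ) (v w : V) : ec h n I v w ≤ C / (h 0 * h 1) * gl h n v w := by
  refine (K.ev I v w 0 le_rfl fun r _ => abs_nonneg _).trans ?_
  simp only [zero_div, ne_eq, OfNat.ofNat_ne_zero, not_false_eq_true, zero_pow, neg_zero,
    Real.exp_zero, mul_one]
  exact mul_le_mul_of_nonneg_left (Real.exp_le_exp.2 (by linarith [lat2_nonneg h (cin n v - w)]))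
    K.P_pos.le

/-- far in the vertical direction -/
lemma ec_ver {I : Set ℝ} {v : V} (w : V) {J : ℝ} (hJ : 0 ≤ J) (H : ∀ r ∈ I, J * h 2 ≤ |r - v 2|) :
    ec h n I v w ≤ Real.exp (-J ^ 2 / 80) * (C / (h 0 * h 1) * gl h n v w) := by
  refine (K.ev I v w _ (mul_nonneg hJ (K.hh 2).le) H).trans ?_
  rw [mul_div_cancel_right₀ _ (K.hh 2).ne', mul_comm]
  exact mul_le_mul (Real.exp_le_exp.2 (by nlinarith [sq_nonneg J])) (mul_le_mul_of_nonneg_left
    (Real.exp_le_exp.2 (by linarith [lat2_nonneg h (cin n v - w)])) K.P_pos.le)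
    (mul_pos K.P_pos (Real.exp_pos _)).le (Real.exp_pos _).le

/-- far in a lateral direction -/
lemma ec_lat (I : Set ℝ) {v w : V} {J : ℝ} (hJ : 0 ≤ J) (H : J * h 1 ≤ |(cin n v - w) 1|) :
    ec h n I v w ≤ Real.exp (-J ^ 2 / 80) * (C / (h 0 * h 1) * gl h n v w) := by
  refine (K.ev I v w 0 le_rfl fun r _ => abs_nonneg _).trans ?_
  simp only [zero_div, ne_eq, OfNat.ofNat_ne_zero, not_false_eq_true, zero_pow, neg_zero,
    Real.exp_zero, mul_one]
  rw [mul_left_comm, gl, ← Real.exp_add]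
  refine mul_le_mul_of_nonneg_left (Real.exp_le_exp.2 ?_) K.P_pos.le
  have h1 : J ≤ |(cin n v - w) 1 / h 1| := by
    rw [abs_div, abs_of_pos (K.hh 1)]; exact (le_div_iff₀ (K.hh 1)).2 H
  have h2 := pow_le_pow_left₀ hJ h1 2
  rw [sq_abs] at h2
  have h3 : J ^ 2 ≤ lat2 h (cin n v - w) := h2.trans (le_add_of_nonneg_left (sq_nonneg _))
  linarith

variable {U : Set V} {Z : V → V} {S : V → Mx} {A : ℝ} {I : Set ℝ} {l : List (Fin 3)} {w : V}

lemma sum_le (hI : MeasurableSet I) (hl : l ∈ LL 6) {ι : Type} (T : Finset ι) {a : ι → V → ℝ}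
    (kl : ∀ t ∈ T, KL h U (a t) A Z S)
    (dis : ∀ x, ∀ t ∈ T, ∀ t' ∈ T, t ≠ t' → a t x = 0 ∨ a t' x = 0) {M : V → ℝ}
    (iM : Integrable M) (M0 : ∀ x, 0 ≤ M x)
    (hM : ∀ t ∈ T, ∀ x, a t x ≠ 0 → |a t x| * mm h n b I (Z x) w ≤ M x) :
    ∑ t ∈ T, hp h l * |pds l (colI n I fun z => b z * dens (a t) Z S z) w| ≤
      C * Bc * ∫ x, M x := by
  have p := hp_nonneg (fun i => (K.hh i).le) l
  have pC : 0 ≤ C * Bc := mul_nonneg (by linarith [K.hC]) K.hB
  have r := fun t ht => K.rep I hI U (a t) A Z S (kl t ht) l hl w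
  calc _ ≤ ∑ t ∈ T, ∫ x, hp h l *
        |a t x * pds l (colI n I fun z => b z * ker (S x) (Z x - z)) w| :=
        Finset.sum_le_sum fun t ht => by
          rw [(r t ht).2, integral_const_mul]
          exact mul_le_mul_of_nonneg_left abs_integral_le_integral_abs p
    _ = ∫ x, ∑ t ∈ T, hp h l * |a t x * pds l (colI n I fun z => b z * ker (S x) (Z x - z)) w| :=
        (integral_finsetSum _ fun t ht => (r t ht).1.abs.const_mul _).symm
    _ ≤ ∫ x, C * Bc * M x := by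
        refine integral_mono_of_nonneg (Eventually.of_forall fun x => Finset.sum_nonneg
          fun t _ => mul_nonneg p (abs_nonneg _)) (iM.const_mul _)
          (Eventually.of_forall fun x => ?_)
        beta_reduce
        by_cases e : ∃ t ∈ T, a t x ≠ 0
        · obtain ⟨t, ht, e⟩ := e
          rw [Finset.sum_eq_single_of_mem t ht fun t' ht' ne => by
            rw [(dis x t' ht' t ht ne).resolve_right e]; simp]
          have hx : x ∈ U := by_contra fun k => e ((kl t ht).sa x k)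
          have q := K.bd I hI (S x) (Z x) ((kl t ht).bS x hx) l hl w
          rw [abs_mul, mul_left_comm]
          refine (mul_le_mul_of_nonneg_left q (abs_nonneg _)).trans ?_
          rw [mul_left_comm]
          exact mul_le_mul_of_nonneg_left (hM t ht x e) pC
        · push Not at e
          rw [Finset.sum_eq_zero fun t ht => by rw [e t ht]; simp]
          exact mul_nonneg pC (M0 x)
    _ = _ := integral_const_mul _ _

lemma fub {a : V → ℝ} (kl : KL h U a A Z S) (w : V) {α β : ℝ} (hαβ : α ≤ β) :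
    IntegrableOn (fun x => ec h n (Icc α β) (Z x) w) U ∧
      ∫ x in U, ec h n (Icc α β) (Z x) w ≤ C * (β - α) := by
  have cZ := kl.dZ.continuous
  have cc := cont_cpt K.cn w
  have c : Continuous fun p : V × ℝ => env h (Z p.1 - cpt n w p.2) :=
    (cont_env h).comp (by fun_prop)
  have i : Integrable (fun p : V × ℝ => env h (Z p.1 - cpt n w p.2))
      ((volume.restrict U).prod (volume.restrict (Icc α β))) := by
    rw [Measure.prod_restrict]
    exact c.continuousOn.integrableOn_compact (kl.cl.prod isCompact_Icc)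
  refine ⟨i.integral_prod_left, ?_⟩
  have sw := integral_integral_swap (f := fun x r => env h (Z x - cpt n w r)) i
  refine sw.trans_le ?_
  refine (integral_mono_of_nonneg (Eventually.of_forall fun r => integral_nonneg fun x =>
    env_nonneg K.hh _) (integrable_const C) (Eventually.of_forall fun r =>
      (K.vol U Z _ 0 0 kl.cx kl.cl kl.dZ kl.bZ le_rfl).1)).trans_eq ?_
  simp [hαβ, mul_comm]

lemma slab {a : V → ℝ} (kl : KL h U a A Z S) (w : V) {α β : ℝ} (hαβ : α ≤ β) :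
    IntegrableOn (fun x => C / (h 0 * h 1) * gl h n (Z x) w) (U ∩ {x | x 2 ∈ Icc α β}) ∧
      ∫ x in U ∩ {x | x 2 ∈ Icc α β}, C / (h 0 * h 1) * gl h n (Z x) w ≤ C ^ 2 * (β - α) := by
  have c : Continuous fun x => C / (h 0 * h 1) * gl h n (Z x) w :=
    continuous_const.mul ((cont_gl K.cn w).comp kl.dZ.continuous)
  refine ⟨(c.continuousOn.integrableOn_compact kl.cl).mono_set inter_subset_left, ?_⟩
  rw [integral_const_mul]
  refine (mul_le_mul_of_nonneg_left (K.vol U Z w α β kl.cx kl.cl kl.dZ kl.bZ hαβ).2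
    K.P_pos.le).trans_eq ?_
  have := K.hh 0; have := K.hh 1
  field_simp

/-- largest term times the sum -/
theorem two (hI : MeasurableSet I) (hl : l ∈ LL 6) {ι : Type} (T : Finset ι) {a : ι → V → ℝ}
    (kl : ∀ t ∈ T, KL h U (a t) A Z S)
    (dis : ∀ x, ∀ t ∈ T, ∀ t' ∈ T, t ≠ t' → a t x = 0 ∨ a t' x = 0) {A1 A2 A3 W E α β : ℝ}
    (p1 : 0 ≤ A1) (p2 : 0 ≤ A2) (p3 : 0 ≤ A3) (pW : 0 ≤ W) (pE : 0 ≤ E) (hαβ : α ≤ β)
    (hE : ∀ x ∈ U, |x 2| ≤ E) {c : ι → ℝ} (H : ∀ t ∈ T, ∀ x, a t x ≠ 0 → |x 2 - c t| ≤ W ∧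
      |a t x| * mm h n b I (Z x) w ≤ A1 * (C / (h 0 * h 1) * gl h n (Z x) w) ∧
      |a t x| * mm h n b I (Z x) w ≤
        A2 * ec h n (Icc α β) (Z x) w + A3 * (C / (h 0 * h 1) * gl h n (Z x) w)) :
    ∑ t ∈ T, (hp h l * |pds l (colI n I fun z => b z * dens (a t) Z S z) w|) ^ 2 ≤
      C * Bc * (A1 * (C ^ 2 * (2 * W))) *
        (C * Bc * (A2 * (C * (β - α)) + A3 * (C ^ 2 * (2 * E)))) := by
  have p := hp_nonneg (fun i => (K.hh i).le) l
  have hC : 0 ≤ C := by linarith [K.hC]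
  have pC : 0 ≤ C * Bc := mul_nonneg hC K.hB
  have pg : ∀ x, 0 ≤ C / (h 0 * h 1) * gl h n (Z x) w := fun x => (mul_pos K.P_pos (gl_pos _ _)).le
  have ms : ∀ α β : ℝ, MeasurableSet {x : V | x 2 ∈ Icc α β} := fun α β =>
    (isClosed_Icc.preimage (continuous_apply 2)).measurableSet
  rcases T.eq_empty_or_nonempty with rfl | ⟨t0, h0⟩
  · have := sub_nonneg.2 hαβ
    rw [Finset.sum_empty]; positivity
  have mU := (kl t0 h0).cl.measurableSet
  have hU : ∀ t ∈ T, ∀ x, a t x ≠ 0 → x ∈ U := fun t ht x e => by_contra fun k => e ((kl t ht).sa x k)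
  have s1 : ∀ t ∈ T, hp h l * |pds l (colI n I fun z => b z * dens (a t) Z S z) w| ≤
      C * Bc * (A1 * (C ^ 2 * (2 * W))) := fun t ht => by
    obtain ⟨i, j⟩ := K.slab (kl t ht) w (show c t - W ≤ c t + W by linarith)
    have m := mU.inter (ms (c t - W) (c t + W))
    have := K.sum_le (w := w) hI hl {t} (a := a) (by simpa using kl t ht) (by simp)
      ((integrable_indicator_iff m).2 (i.const_mul A1))
      (fun x => indicator_nonneg (fun x _ => mul_nonneg p1 (pg x)) x) fun t' ht' x e => by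
        rw [Finset.mem_singleton.1 ht'] at e ⊢
        have := abs_le.1 (H t ht x e).1
        rw [indicator_of_mem (show x ∈ U ∩ {x : V | x 2 ∈ Icc (c t - W) (c t + W)} from
          ⟨hU t ht x e, by constructor <;> linarith⟩)]
        exact (H t ht x e).2.1
    rw [Finset.sum_singleton, integral_indicator m, integral_const_mul] at this
    refine this.trans (mul_le_mul_of_nonneg_left (mul_le_mul_of_nonneg_left (j.trans_eq ?_) p1) pC)
    ring
  have s2 : ∑ t ∈ T, hp h l * |pds l (colI n I fun z => b z * dens (a t) Z S z) w| ≤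
      C * Bc * (A2 * (C * (β - α)) + A3 * (C ^ 2 * (2 * E))) := by
    obtain ⟨i, j⟩ := K.slab (kl t0 h0) w (show -E ≤ E by linarith)
    rw [show U ∩ {x : V | x 2 ∈ Icc (-E) E} = U from
      inter_eq_left.2 fun x hx => abs_le.1 (hE x hx)] at i j
    obtain ⟨i', j'⟩ := K.fub (kl t0 h0) w hαβ
    have := K.sum_le (w := w) hI hl T kl dis
      ((integrable_indicator_iff mU).2 ((i'.const_mul A2).add (i.const_mul A3)))
      (fun x => indicator_nonneg (fun x _ => add_nonneg (mul_nonneg p2 (ec_nonneg K.hh _ _ _))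
        (mul_nonneg p3 (pg x))) x) fun t ht x e => by
        rw [indicator_of_mem (hU t ht x e)]
        exact (H t ht x e).2.2
    rw [integral_indicator mU] at this
    simp only [Pi.add_apply] at this
    rw [integral_add (i'.const_mul A2) (i.const_mul A3), integral_const_mul,
      integral_const_mul] at this
    refine this.trans (mul_le_mul_of_nonneg_left (add_le_add (mul_le_mul_of_nonneg_left j' p2)
      (mul_le_mul_of_nonneg_left (j.trans_eq ?_) p3)) pC)
    ring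
  refine le_trans (Finset.sum_le_sum fun t ht => ?_) ((Finset.mul_sum _ _ _).symm.trans_le
    (mul_le_mul_of_nonneg_left s2 (by positivity)))
  rw [sq]
  exact mul_le_mul_of_nonneg_right (s1 t ht) (mul_nonneg p (abs_nonneg _))

end CK

end
end Pool.Agent.MP_20bec2_an.T3.OphP

end MrgPart1

-- ======== part 2: formerly Pool.Agent.MP_20bec2_an.T3.Runm
section MrgPart2

-- ======== part 0: formerly Pool.Agent.MP_20bec2_an.T3.RunmA
section MrgPart0

/-! Row RUNM, part 1: signs, concatenation, closeness inside a round, additivity of the sums. -/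

set_option autoImplicit false
open MeasureTheory Set Filter Matrix

namespace Pool.Agent.MP_20bec2_an.T3
noncomputable section
open Classical

namespace Runm

/-- concatenation of two sequences -/
def cat {α : Type} (a : ℕ) (u v : ℕ → α) (m : ℕ) : α := if m < a then u m else v (m - a)

theorem cat_lt {α : Type} {a m : ℕ} (u v : ℕ → α) (h : m < a) : cat a u v m = u m := if_pos h

theorem cat_add {α : Type} (a k : ℕ) (u v : ℕ → α) : cat a u v (a + k) = v k := by
  rw [cat, if_neg (by omega), Nat.add_sub_cancel_left]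

theorem cat_prop {α β : Type} {a : ℕ} {u v : ℕ → α} {u' v' : ℕ → β} (P : α → β → Prop)
    (h1 : ∀ j, P (u j) (u' j)) (h2 : ∀ j, P (v j) (v' j)) (m : ℕ) :
    P (cat a u v m) (cat a u' v' m) := by
  unfold cat
  split_ifs
  · exact h1 _
  · exact h2 _

theorem sum_cat {α β : Type} (a k : ℕ) (u v : ℕ → α) (u' v' : ℕ → β) (F : α → β → ℝ) :
    ∑ m ∈ Finset.range (a + k), F (cat a u v m) (cat a u' v' m) =
      ∑ m ∈ Finset.range a, F (u m) (u' m) + ∑ m ∈ Finset.range k, F (v m) (v' m) := by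
  rw [Finset.sum_range_add]
  congr 1
  · exact Finset.sum_congr rfl fun m hm => by
      rw [cat_lt _ _ (Finset.mem_range.1 hm), cat_lt _ _ (Finset.mem_range.1 hm)]
  · exact Finset.sum_congr rfl fun m _ => by rw [cat_add, cat_add]

/-- the signs are chosen one by one -/
theorem signs (n : ℕ) (Φ : (ℕ → ℝ) → ℕ → ℝ)
    (hdep : ∀ σ σ' k, (∀ j < k, σ j = σ' j) → Φ σ k = Φ σ' k)
    (hstep : ∀ σ k, k < n → (∀ j, σ j = 1 ∨ σ j = -1) →
      Φ (Function.update σ k 1) (k + 1) + Φ (Function.update σ k (-1)) (k + 1) ≤ 2 * Φ σ k) :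
    ∃ σ : ℕ → ℝ, (∀ j, σ j = 1 ∨ σ j = -1) ∧ ∀ k ≤ n, Φ σ k ≤ Φ σ 0 := by
  suffices H : ∀ m ≤ n, ∃ σ : ℕ → ℝ, (∀ j, σ j = 1 ∨ σ j = -1) ∧ ∀ k ≤ m, Φ σ k ≤ Φ σ 0 from
    H n le_rfl
  intro m
  induction m with
  | zero =>
    exact fun _ => ⟨fun _ => 1, fun _ => Or.inl rfl, fun k hk => by rw [Nat.le_zero.1 hk]⟩
  | succ m ih =>
    intro hm
    obtain ⟨σ, h1, h2⟩ := ih (by omega)
    obtain ⟨c, hc, h3⟩ : ∃ c : ℝ, (c = 1 ∨ c = -1) ∧
        Φ (Function.update σ m c) (m + 1) ≤ Φ σ m := by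
      have := hstep σ m (by omega) h1
      by_cases h : Φ (Function.update σ m 1) (m + 1) ≤ Φ σ m
      · exact ⟨1, Or.inl rfl, h⟩
      · exact ⟨-1, Or.inr rfl, by linarith [not_le.1 h]⟩
    have h4 : ∀ k ≤ m, Φ (Function.update σ m c) k = Φ σ k := fun k hk =>
      hdep _ _ k fun j hj => Function.update_of_ne (by omega) _ _
    refine ⟨Function.update σ m c, fun j => ?_, fun k hk => ?_⟩
    · by_cases hj : j = m
      · rw [hj, Function.update_self]; exact hc
      · rw [Function.update_of_ne hj]; exact h1 j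
    · rw [h4 0 (Nat.zero_le _)]
      rcases Nat.lt_or_ge k (m + 1) with h | h
      · rw [h4 k (by omega)]; exact h2 k (by omega)
      · rw [show k = m + 1 by omega]; exact h3.trans (h2 m le_rfl)

/-! ## numbers -/

section num
variable {N : ℕ} (h : Big N)
include h

theorem one_le_N : 1 ≤ N := by
  have := h.N_pos
  exact_mod_cast Nat.succ_le_of_lt (by exact_mod_cast this : 0 < N)

omit h in
theorem nr_eq : (nr N : ℝ) = np N 400 := by
  rw [nr, Nat.cast_pow, ← np_nat]; norm_num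

omit h in
theorem nrep_eq : (nrep N : ℝ) = np N 1310 := by
  rw [nrep, Nat.cast_pow, ← np_nat]; norm_num

theorem nrep_pos : (0 : ℝ) < nrep N := by rw [nrep_eq]; exact h.np_pos _

theorem len_le : nrep N * nr N ≤ nT N := by
  rw [nrep, nr, nT, ← pow_add]
  exact Nat.pow_le_pow_right (one_le_N h) (Nat.le_of_ble_eq_true rfl)

theorem n0 : np N (-700) * np N 15 ≤ 1 := by
  rw [← h.np_add, ← np_zero N]; exact h.np_le (by norm_num)

theorem n1 : (nr N : ℝ) * (np N (-700) * np N 15) ≤ np N (-270) := by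
  rw [nr_eq, ← h.np_add, ← h.np_add]; exact h.np_le (by norm_num)

theorem n3 : (nr N : ℝ) * (np N (-700) * pq N) ^ 2 ≤ np N (-55 / 10) := by
  have h1 : pq N ≤ np N 1 := by
    rw [np_one]; linarith [h.q_le_J, h.N_ge, h.J_pos]
  have h2 : np N (-700) * pq N ≤ np N (-699) := by
    rw [show (-699 : ℝ) = -700 + 1 by norm_num, h.np_add]
    exact mul_le_mul_of_nonneg_left h1 (h.np_pos _).le
  have h3 : (np N (-700) * pq N) ^ 2 ≤ np N (-699) ^ 2 :=
    pow_le_pow_left₀ (mul_pos (h.np_pos _) h.q_pos).le h2 2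
  calc (nr N : ℝ) * (np N (-700) * pq N) ^ 2 ≤ nr N * np N (-699) ^ 2 :=
        mul_le_mul_of_nonneg_left h3 (Nat.cast_nonneg _)
    _ = np N (400 + (-699 + -699)) := by rw [nr_eq, h.np_add, h.np_add, sq]
    _ ≤ _ := h.np_le (by norm_num)

theorem np_small {a : ℝ} (ha : a ≤ -1) : np N a ≤ 1 / 4 := by
  have h1 : np N a ≤ np N (-1) := h.np_le ha
  have h2 : np N (-1) * np N 1 = 1 := by rw [← h.np_add]; simpa using np_zero N
  have h3 : 4 ≤ np N 1 := by rw [np_one]; linarith [h.N_ge, h.J_ge, h.L_ge]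
  nlinarith [h.np_pos (-1)]

theorem n4 : 2 * (1 / (4 * (nrep N : ℝ))) + nr N * (2 * np N (-860) ^ 2) ≤ 1 / nrep N := by
  have h0 := nrep_pos h
  have h1 : (nr N : ℝ) * np N (-860) ^ 2 * nrep N ≤ 1 / 4 := by
    rw [nr_eq, nrep_eq, sq, ← h.np_add, ← h.np_add, ← h.np_add]
    exact np_small h (by norm_num)
  have h2 : (nr N : ℝ) * np N (-860) ^ 2 ≤ 1 / 4 / nrep N := (le_div_iff₀ h0).2 h1
  have h3 : 1 / (4 * (nrep N : ℝ)) = 1 / 4 / nrep N := by rw [div_div]
  have h4 : 1 / (nrep N : ℝ) = 4 * (1 / 4 / nrep N) := by field_simp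
  rw [h3, h4]; linarith

theorem n6 : 1 ≤ qp N (1 / 10) * Real.sqrt (pJ N) ∧
    16 * (N : ℝ) ^ 20000 ≤ Real.exp ((qp N (1 / 10) * Real.sqrt (pJ N)) ^ 2 / 6) := by
  have h1 : (qp N (1 / 10) * Real.sqrt (pJ N)) ^ 2 = qp N (1 / 5) * pJ N := by
    rw [mul_pow, Real.sq_sqrt h.J_pos.le, sq, ← h.qp_add]; norm_num
  have h2 : 2000000 ≤ qp N (1 / 5) := by
    rw [h.qp_eq]; linarith [Real.add_one_le_exp (1 / 5 * (pL N / 1000)), h.L_ge]
  have h3 : 16 ≤ pJ N := by linarith [h.J_ge, h.L_ge]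
  have h4 : 2000000 * pJ N ≤ qp N (1 / 5) * pJ N := mul_le_mul_of_nonneg_right h2 h.J_pos.le
  constructor
  · refine (one_le_sq_iff₀ (mul_pos (h.qp_pos _) h.sqrtJ_pos).le).1 ?_
    rw [h1]; linarith
  · rw [h1, ← np_nat, h.np_eq]
    have h5 : (16 : ℝ) ≤ Real.exp 16 := by linarith [Real.add_one_le_exp 16]
    refine (mul_le_mul_of_nonneg_right h5 (Real.exp_pos _).le).trans ?_
    rw [← Real.exp_add]
    refine Real.exp_le_exp.2 ?_
    push_cast
    linarith
end num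

/-! ## paths -/

variable {d : MD}

/-- running quadratic variation of a functional -/
def Y (d : MD) (Λ : Fn) (u : ℕ → V → V) (ω : ℕ → V → ℝ) (m : ℕ) : ℝ :=
  ∑ j ∈ Finset.range m, Λ (d.sa u ω j) (u j) (ω j) ^ 2

section congr
variable {u u' : ℕ → V → V} {ω ω' : ℕ → V → ℝ} {m : ℕ}

theorem sa_congr (h : ∀ j < m, u j = u' j ∧ ω j = ω' j) : d.sa u ω m = d.sa u' ω' m := by
  unfold MD.sa
  congr 1
  · funext x
    exact Finset.sum_congr rfl fun j hj => by rw [(h j (Finset.mem_range.1 hj)).1]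
  · funext x
    exact Finset.sum_congr rfl fun j hj => by rw [(h j (Finset.mem_range.1 hj)).1]
  · funext x
    congr 1
    exact Finset.sum_congr rfl fun j hj => by rw [(h j (Finset.mem_range.1 hj)).2]

theorem X_congr (h : ∀ j < m, u j = u' j ∧ ω j = ω' j) (Λ : Fn) :
    d.X Λ u ω m = d.X Λ u' ω' m := Finset.sum_congr rfl fun j hj => by
  have hj := Finset.mem_range.1 hj
  rw [sa_congr fun i hi => h i (hi.trans hj), (h j hj).1, (h j hj).2]

theorem Y_congr (h : ∀ j < m, u j = u' j ∧ ω j = ω' j) (Λ : Fn) :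
    Y d Λ u ω m = Y d Λ u' ω' m := Finset.sum_congr rfl fun j hj => by
  have hj := Finset.mem_range.1 hj
  rw [sa_congr fun i hi => h i (hi.trans hj), (h j hj).1, (h j hj).2]

theorem X_succ (Λ : Fn) : d.X Λ u ω (m + 1) = d.X Λ u ω m + Λ (d.sa u ω m) (u m) (ω m) :=
  Finset.sum_range_succ _ _

theorem Y_succ (Λ : Fn) : Y d Λ u ω (m + 1) = Y d Λ u ω m + Λ (d.sa u ω m) (u m) (ω m) ^ 2 :=
  Finset.sum_range_succ _ _

theorem Y_nonneg (Λ : Fn) : 0 ≤ Y d Λ u ω m := Finset.sum_nonneg fun _ _ => sq_nonneg _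

theorem Y_mono (Λ : Fn) {m' : ℕ} (h : m ≤ m') : Y d Λ u ω m ≤ Y d Λ u ω m' :=
  Finset.sum_le_sum_of_subset_of_nonneg (Finset.range_subset_range.2 h) fun _ _ _ => sq_nonneg _

theorem sa_zero (h1 : u m = 0) (h2 : ω m = 0) : d.sa u ω (m + 1) = d.sa u ω m := by
  unfold MD.sa
  congr 1
  · funext x
    simp [Up, Finset.sum_range_succ, h1]
  · funext x
    simp [Cv, Finset.sum_range_succ, h1]
  · funext x
    simp [Finset.sum_range_succ, h2]
end congr

theorem cr_zero (hg : Gd d.c) : d.Cr d.ep 0 0 := by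
  have h1 : 0 < d.ep := hg.big.np_pos _
  have h2 := hg.big.np_pos 15
  have h3 := hg.lam_pos
  refine ⟨⟨sm_const 0, sm_const 0⟩, fun x => ⟨fun _ => ⟨rfl, rfl⟩, rfl⟩, fun _ => rfl,
    fun x i => ?_, fun i => cbl_zero (by positivity), cbl_zero (by positivity)⟩
  have := hg.q_pos
  have := hg.hs_pos i
  simp only [Pi.zero_apply, abs_zero]
  positivity

theorem cr_sign {e c : ℝ} {v : V → V} {ω : V → ℝ} (h : d.Cr e v ω) (hc : c = 1 ∨ c = -1) :
    d.Cr e (c • v) (c • ω) := by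
  rcases hc with rfl | rfl
  · rwa [one_smul, one_smul]
  rw [neg_one_smul, neg_one_smul]
  refine ⟨⟨h.sm.1.neg, h.sm.2.neg⟩, fun x => ⟨fun hx => ?_, ?_⟩, fun hn => by rw [h.nn hn, neg_zero],
    fun x i => ?_, fun i => CBl.neg (h.cb.1 i), CBl.neg h.cb.2⟩
  · simp [(h.sup x).1 hx]
  · simp [(h.sup x).2]
  · simpa using h.sz x i

section cl
variable (hg : Gd d.c) {u : ℕ → V → V} {ω : ℕ → V → ℝ} (hc : ∀ j, d.Cr d.ep (u j) (ω j))
include hg hc

omit hc in
theorem sum_small {f : ℕ → ℝ} {k : ℕ} (hk : k ≤ nr d.c.N) {A : ℝ} (hA : 0 ≤ A)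
    (hf : ∀ j, |f j| ≤ d.ep * np d.c.N 15 * A) :
    |∑ j ∈ Finset.range k, f j| ≤ np d.c.N (-270) * A := by
  have h0 : 0 ≤ d.ep * np d.c.N 15 * A := (abs_nonneg _).trans (hf 0)
  calc |∑ j ∈ Finset.range k, f j| ≤ ∑ j ∈ Finset.range k, |f j| := Finset.abs_sum_le_sum_abs _ _
    _ ≤ (Finset.range k).card • (d.ep * np d.c.N 15 * A) :=
        Finset.sum_le_card_nsmul _ _ _ fun j _ => hf j
    _ = k * (d.ep * np d.c.N 15 * A) := by rw [Finset.card_range, nsmul_eq_mul]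
    _ ≤ nr d.c.N * (d.ep * np d.c.N 15 * A) :=
        mul_le_mul_of_nonneg_right (by exact_mod_cast hk) h0
    _ = nr d.c.N * (np d.c.N (-700) * np d.c.N 15) * A := by rw [MD.ep]; ring
    _ ≤ _ := mul_le_mul_of_nonneg_right (n1 hg.big) hA

/-- the states of one round are close to the first one -/
theorem cl_of (ht : Sm d.th) (a : ℕ) {k : ℕ} (hk : k ≤ nr d.c.N) :
    d.Cl (d.sa u ω a) (d.sa u ω (a + k)) := by
  have hl := hg.lam_pos
  have hU : ∀ m, Sm (Up u m) := fun m => ContDiff.sum fun j _ => (hc j).sm.1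
  have hv : ∀ j x i, |u j x i| ≤ d.ep * np d.c.N 15 * d.c.lam := fun j x i =>
    ((hc j).cb.1 i).val (mem_univ x)
  have hC : SmM (Cv u (a + k)) := SmM.sum (Finset.range (a + k)) fun j _ =>
    smM_vecMulVec (hc j).sm.1 (hc j).sm.1
  refine ⟨⟨hU _, hC, ht.add (ContDiff.sum fun j _ => (hc j).sm.2)⟩,
    fun x => ⟨fun hx => ⟨?_, ?_⟩, ?_⟩, fun x => ⟨?_, fun i j => ?_, fun i j => ?_, ?_⟩⟩
  · show ∑ j ∈ Finset.range (a + k), u j x = 0
    exact Finset.sum_eq_zero fun j _ => (((hc j).sup x).1 hx).1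
  · show ∑ j ∈ Finset.range (a + k), vecMulVec (u j x) (u j x) = 0
    exact Finset.sum_eq_zero fun j _ => by rw [(((hc j).sup x).1 hx).1]; simp
  · show (Cv u (a + k) x)ᵀ = Cv u (a + k) x
    ext i j
    simp only [Cv, transpose_apply, Matrix.sum_apply, vecMulVec_apply, mul_comm]
  · refine (pi_norm_le_iff_of_nonneg (mul_pos (hg.big.np_pos _) hl).le).2 fun i => ?_
    have : (Up u (a + k) x - Up u a x) i = ∑ j ∈ Finset.range k, u (a + j) x i := by
      simp [Up, Finset.sum_range_add]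
    rw [Real.norm_eq_abs]
    show |(Up u (a + k) x - Up u a x) i| ≤ _
    rw [this]
    exact sum_small hg hk hl.le fun j => hv _ x i
  · have : (jm (Up u (a + k)) x - jm (Up u a) x) i j =
        ∑ m ∈ Finset.range k, jm (u (a + m)) x i j := by
      have e : ∀ m, jm (Up u m) x = ∑ j ∈ Finset.range m, jm (u j) x := fun m =>
        jm_sum _ (fun j _ => (hc j).sm.1) x
      rw [e, e, Finset.sum_range_add, add_sub_cancel_left, Matrix.sum_apply]
    show |(jm (Up u (a + k)) x - jm (Up u a) x) i j| ≤ np d.c.N (-270)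
    rw [this, ← mul_one (np d.c.N (-270))]
    refine sum_small hg hk zero_le_one fun m => ?_
    have := ((hc (a + m)).cb.1 i).pd_le (by norm_num) j (mem_univ x)
    rw [mul_one, jm_apply]
    exact le_of_mul_le_mul_left (this.trans_eq (mul_comm _ _)) hl
  · have : (Cv u (a + k) x - Cv u a x) i j =
        ∑ m ∈ Finset.range k, u (a + m) x i * u (a + m) x j := by
      simp only [Cv, Finset.sum_range_add, add_sub_cancel_left, Matrix.sum_apply, vecMulVec_apply]
    show |(Cv u (a + k) x - Cv u a x) i j| ≤ np d.c.N (-270) * d.c.lam ^ 2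
    rw [this]
    refine sum_small hg hk (sq_nonneg _) fun m => ?_
    have h0 : 0 ≤ d.ep * np d.c.N 15 * d.c.lam := (abs_nonneg _).trans (hv 0 x i)
    have h1 : d.ep * np d.c.N 15 * d.c.lam ≤ d.c.lam :=
      mul_le_of_le_one_left hl.le (n0 hg.big)
    rw [abs_mul]
    calc _ ≤ d.ep * np d.c.N 15 * d.c.lam * d.c.lam :=
          mul_le_mul (hv _ x i) ((hv _ x j).trans h1) (abs_nonneg _) h0
      _ = _ := by ring
  · have : (d.sa u ω (a + k)).Θ x - (d.sa u ω a).Θ x = ∑ m ∈ Finset.range k, ω (a + m) x := by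
      simp [MD.sa, Finset.sum_range_add]
    rw [this, ← mul_one (np d.c.N (-270))]
    refine sum_small hg hk zero_le_one fun m => ?_
    rw [mul_one]
    exact (hc (a + m)).cb.2.val (mem_univ x)

/-- the covariance inside a round -/
theorem cb_of (a : ℕ) {k : ℕ} (hk : k ≤ nr d.c.N) (x : V) (A : Mx)
    (h0 : ∀ i j, |nrm d.c.hs (Cv u a x - A) i j| ≤ d.c.eSm) :
    EB (nrm d.c.hs (Cv u (a + k) x - A)) (cm (2 * d.c.eSm)) := by
  intro i j
  have hi := hg.hs_pos i
  have hj := hg.hs_pos j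
  have e : nrm d.c.hs (Cv u (a + k) x - A) i j = nrm d.c.hs (Cv u a x - A) i j +
      ∑ m ∈ Finset.range k, u (a + m) x i * u (a + m) x j / (d.c.hs i * d.c.hs j) := by
    simp only [nrm, of_apply, Cv, Finset.sum_range_add, Matrix.sub_apply, Matrix.add_apply,
      Matrix.sum_apply, vecMulVec_apply, ← Finset.sum_div]
    ring
  have h1 : ∀ m, |u m x i * u m x j / (d.c.hs i * d.c.hs j)| ≤ (d.ep * d.c.q) ^ 2 := fun m => by
    rw [abs_div, abs_mul, abs_of_pos (mul_pos hi hj), div_le_iff₀ (mul_pos hi hj)]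
    calc _ ≤ d.ep * d.c.q * d.c.hs i * (d.ep * d.c.q * d.c.hs j) :=
          mul_le_mul ((hc m).sz x i) ((hc m).sz x j) (abs_nonneg _)
            ((abs_nonneg _).trans ((hc m).sz x i))
      _ = _ := by ring
  have h2 : |∑ m ∈ Finset.range k, u (a + m) x i * u (a + m) x j / (d.c.hs i * d.c.hs j)| ≤
      d.c.eSm :=
    calc _ ≤ ∑ m ∈ Finset.range k, |u (a + m) x i * u (a + m) x j / (d.c.hs i * d.c.hs j)| :=
          Finset.abs_sum_le_sum_abs _ _
      _ ≤ (Finset.range k).card • (d.ep * d.c.q) ^ 2 :=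
          Finset.sum_le_card_nsmul _ _ _ fun m _ => h1 _
      _ = k * (d.ep * d.c.q) ^ 2 := by rw [Finset.card_range, nsmul_eq_mul]
      _ ≤ nr d.c.N * (d.ep * d.c.q) ^ 2 :=
          mul_le_mul_of_nonneg_right (by exact_mod_cast hk) (sq_nonneg _)
      _ ≤ np d.c.N (-55 / 10) := n3 hg.big
      _ ≤ d.c.eSm := by
          have h3 := mul_pos (hg.big.np_pos (-3 / 100)) hg.eL_pos
          have h4 := hg.big.np_pos (-47 / 100)
          unfold Pm.eSm
          split_ifs <;> linarith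
  show |nrm d.c.hs (Cv u (a + k) x - A) i j| ≤ 2 * d.c.eSm
  rw [e]
  linarith [abs_add_le (nrm d.c.hs (Cv u a x - A) i j)
    (∑ m ∈ Finset.range k, u (a + m) x i * u (a + m) x j / (d.c.hs i * d.c.hs j)), h0 i j]

theorem om_le {M m : ℕ} {t : ℝ} (hs : d.Sums (Finset.range M) u ω t) (h1 : t ≤ 1)
    (hm : m ≤ M) (x : V) : ∑ j ∈ Finset.range m, ω j x ^ 2 ≤ d.c.p := by
  have hp := hg.p_pos
  by_cases hn : d.c.noise
  · have h2 := ((hs.yy hn).1 x).2
    have h3 : d.α x ^ 2 ≤ 1 := Prof.alh_sq_le _ _ _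
    have h4 := np_small hg.big (show (-5 : ℝ) ≤ -1 by norm_num)
    have h5 := hg.big.np_pos (-5)
    have h6 : (11 / 100 * d.α x ^ 2 + np d.c.N (-5)) * d.c.p ≤ d.c.p :=
      mul_le_of_le_one_left hp.le (by linarith)
    have h7 : 0 ≤ (11 / 100 * d.α x ^ 2 + np d.c.N (-5)) * d.c.p := by positivity
    calc _ ≤ ∑ j ∈ Finset.range M, ω j x ^ 2 := Finset.sum_le_sum_of_subset_of_nonneg
          (Finset.range_subset_range.2 hm) fun _ _ _ => sq_nonneg _
      _ ≤ _ := h2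
      _ ≤ _ := (mul_le_of_le_one_left h7 h1).trans h6
  · rw [Finset.sum_eq_zero fun j _ => by rw [(hc j).nn hn]; simp]
    exact hp.le
end cl

/-! ## the sums -/

/-- functionals that do not see the sign -/
def Ev (F : (V → V) → (V → ℝ) → ℝ) : Prop := (∀ v ω, F (-v) (-ω) = F v ω) ∧ F 0 0 = 0

theorem Ev.sign {F : (V → V) → (V → ℝ) → ℝ} (h : Ev F) {c : ℝ} (hc : c = 1 ∨ c = -1)
    (v : V → V) (ω : V → ℝ) : F (c • v) (c • ω) = F v ω := by
  rcases hc with rfl | rfl
  · rw [one_smul, one_smul]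
  · rw [neg_one_smul, neg_one_smul, h.1]

theorem ev_jm {G : Mx → ℝ} (h1 : ∀ A, G (-A) = G A) (h0 : G 0 = 0) (x : V) :
    Ev fun v _ => G (jm v x) :=
  ⟨fun v _ => (congrArg G (jm_neg v x)).trans (h1 _), (congrArg G (jm_const 0 x)).trans h0⟩

theorem sums_empty (v : ℕ → V → V) (ω : ℕ → V → ℝ) : d.Sums ∅ v ω 0 := by
  refine ⟨fun i j => CBl.congr_fun (cbl_zero (by simp)) fun x => by simp [nrm], fun _ =>
    ⟨fun x => by simp, CBl.congr_fun (cbl_zero (by simp)) fun x => by simp⟩, fun _ x _ => by simp⟩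

theorem sums_add (hg : Gd d.c) (hC : SmM d.C) {T T1 T2 : Finset ℕ} {v v1 v2 : ℕ → V → V}
    {ω ω1 ω2 : ℕ → V → ℝ} {t1 t2 : ℝ} (s1 : ∀ a, Sm (v1 a) ∧ Sm (ω1 a))
    (s2 : ∀ a, Sm (v2 a) ∧ Sm (ω2 a)) (h1 : d.Sums T1 v1 ω1 t1) (h2 : d.Sums T2 v2 ω2 t2)
    (e : ∀ F, Ev F → ∑ a ∈ T, F (v a) (ω a) =
      ∑ a ∈ T1, F (v1 a) (ω1 a) + ∑ a ∈ T2, F (v2 a) (ω2 a)) : d.Sums T v ω (t1 + t2) := by
  have eo : ∀ x, ∑ a ∈ T, ω a x ^ 2 = ∑ a ∈ T1, ω1 a x ^ 2 + ∑ a ∈ T2, ω2 a x ^ 2 := fun x =>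
    e (fun _ o => o x ^ 2) ⟨fun _ _ => by simp, by simp⟩
  refine ⟨fun i j => ?_, fun hn => ⟨fun x => ?_, ?_⟩, fun hc x hx => ?_⟩
  · have sm : ∀ (S : Finset ℕ) (w : ℕ → V → V) (t : ℝ), (∀ a, Sm (w a)) → Sm fun x => nrm d.c.hs
        (∑ a ∈ S, vecMulVec (w a x) (w a x) - (t * d.α x ^ 2) • d.C x) i j := fun S w t hw =>
      ContDiff.div_const ((SmM.sum S fun a _ => smM_vecMulVec (hw a) (hw a)).sub
        (SmM.smul (Sm.cmul (ContDiff.pow (Prof.alh_sm d.O d.c.D) 2) t) hC) i j) _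
    rw [add_mul]
    refine CBl.congr_fun (CBl.add (fun _ => hg.hE_pos.le) (sm T1 v1 t1 fun a => (s1 a).1)
      (sm T2 v2 t2 fun a => (s2 a).1) (h1.cov i j) (h2.cov i j)) fun x => ?_
    have := e (fun w _ => w x i * w x j) ⟨fun _ _ => by simp, by simp⟩
    simp only [nrm, of_apply, Matrix.sub_apply, Matrix.sum_apply, vecMulVec_apply,
      Matrix.smul_apply, smul_eq_mul, this]
    ring
  · have a1 := (h1.yy hn).1 x
    have a2 := (h2.yy hn).1 x
    rw [eo, add_mul, add_mul]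
    exact ⟨add_le_add a1.1 a2.1, add_le_add a1.2 a2.2⟩
  · rw [add_mul]
    exact CBl.congr_fun (CBl.add (fun i => (hg.thS_pos i).le)
      (ContDiff.sum fun a _ => ContDiff.pow (s1 a).2 2)
      (ContDiff.sum fun a _ => ContDiff.pow (s2 a).2 2) (h1.yy hn).2 (h2.yy hn).2) eo
  · obtain ⟨a1, a2, a3, a4⟩ := h1.q2 hc x hx
    obtain ⟨b1, b2, b3, b4⟩ := h2.q2 hc x hx
    have lo : ∀ A, d.c.Qlo (-A) = d.c.Qlo A := fun A => by simp [Pm.Qlo]
    have lo0 : d.c.Qlo 0 = 0 := by simp [Pm.Qlo]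
    have e1 := e _ (ev_jm (G := d.c.Qup) (fun A => by simp [Pm.Qup, lo]) (by simp [Pm.Qup, lo0]) x)
    have e2 := e _ (ev_jm (G := d.c.Qlo) lo lo0 x)
    have e3 := e _ (ev_jm (G := fun A => A 1 2 ^ 2) (fun A => by simp) (by simp) x)
    have e4 := e _ (ev_jm (G := fun A => ∑ i, ∑ j, A i j ^ 2) (fun A => by simp) (by simp) x)
    beta_reduce at e1 e2 e3 e4
    rw [e1, e2, e3, e4]
    refine ⟨?_, ?_, ?_, ?_⟩ <;> linarith

end Runm

end
end Pool.Agent.MP_20bec2_an.T3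

end MrgPart0

-- ======== part 1: formerly Pool.Agent.MP_20bec2_an.T3.Walk
section MrgPart1

set_option autoImplicit false
open MeasureTheory Set Filter Matrix Topology

namespace Pool.Agent.MP_20bec2_an.T3

namespace Walk

lemma step {s s' x a : ℝ} (hs : 0 < s) (h : s' = s + a ^ 2 / 2) :
    Real.exp ((x + a) ^ 2 / (4 * s') - Real.log s' / 2) +
      Real.exp ((x - a) ^ 2 / (4 * s') - Real.log s' / 2) ≤
      2 * Real.exp (x ^ 2 / (4 * s) - Real.log s / 2) := by
  have ha : 0 ≤ a ^ 2 := sq_nonneg a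
  have hs' : 0 < s' := by linarith
  have e1 : (x + a) ^ 2 / (4 * s') - Real.log s' / 2 =
      ((x ^ 2 + a ^ 2) / (4 * s') - Real.log s' / 2) + x * a / (2 * s') := by
    field_simp; ring
  have e2 : (x - a) ^ 2 / (4 * s') - Real.log s' / 2 =
      ((x ^ 2 + a ^ 2) / (4 * s') - Real.log s' / 2) + -(x * a / (2 * s')) := by
    field_simp; ring
  have h1 := Real.cosh_le_exp_half_sq (x * a / (2 * s'))
  rw [Real.cosh_eq] at h1
  have h2 : Real.log s - Real.log s' ≤ -(a ^ 2 / (2 * s')) := by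
    rw [← Real.log_div hs.ne' hs'.ne']
    refine (Real.log_le_sub_one_of_pos (div_pos hs hs')).trans (le_of_eq ?_)
    field_simp
    rw [h]; ring
  have h3 : x ^ 2 / (4 * s') + (x * a / (2 * s')) ^ 2 / 2 ≤ x ^ 2 / (4 * s) := by
    have e3 : x ^ 2 / (4 * s) - (x ^ 2 / (4 * s') + (x * a / (2 * s')) ^ 2 / 2) =
        x ^ 2 * (a ^ 2) ^ 2 / (16 * s * s' ^ 2) := by
      have e4 : s = s' - a ^ 2 / 2 := by linarith
      field_simp
      rw [e4]; ring
    have : 0 ≤ x ^ 2 * (a ^ 2) ^ 2 / (16 * s * s' ^ 2) := by positivity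
    linarith
  have h4 : ((x ^ 2 + a ^ 2) / (4 * s') - Real.log s' / 2) + (x * a / (2 * s')) ^ 2 / 2 ≤
      x ^ 2 / (4 * s) - Real.log s / 2 := by
    have e5 : (x ^ 2 + a ^ 2) / (4 * s') = x ^ 2 / (4 * s') + a ^ 2 / (2 * s') / 2 := by
      field_simp; ring
    rw [e5]; linarith
  have h5 := Real.exp_le_exp.2 h4
  rw [Real.exp_add] at h5
  rw [e1, e2, Real.exp_add, Real.exp_add]
  have h6 := Real.exp_pos ((x ^ 2 + a ^ 2) / (4 * s') - Real.log s' / 2)
  nlinarith [mul_le_mul_of_nonneg_left h1 h6.le]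

end Walk

theorem walk : WalkStmt := by
  refine ⟨fun Q x => Real.exp (x ^ 2 / (4 * (1 + Q / 2)) - Real.log (1 + Q / 2) / 2), by simp,
    fun Q x _ => (Real.exp_pos _).le, fun Q x a hQ => Walk.step (by linarith) (by ring),
    fun Q x h0 h1 => ?_⟩
  have hs : 0 < 1 + Q / 2 := by linarith
  have h2 : x ^ 2 / 6 ≤ x ^ 2 / (4 * (1 + Q / 2)) :=
    div_le_div_of_nonneg_left (sq_nonneg x) (by linarith) (by linarith)
  have h3 : Real.log (1 + Q / 2) ≤ Real.log 2 := Real.log_le_log hs (by linarith)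
  have h4 : 0 < Real.log 2 := Real.log_pos (by norm_num)
  have h5 : x ^ 2 / 6 ≤
      Real.log 2 + (x ^ 2 / (4 * (1 + Q / 2)) - Real.log (1 + Q / 2) / 2) := by linarith
  have h6 := Real.exp_le_exp.2 h5
  rwa [Real.exp_add, Real.exp_log (by norm_num)] at h6

end Pool.Agent.MP_20bec2_an.T3

end MrgPart1

-- ======== part 2: formerly Pool.Agent.MP_20bec2_an.T3.Runm
section MrgPart2

/-! Row RUNM: the signs of all rounds. -/

set_option autoImplicit false
open MeasureTheory Set Filter Matrix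

namespace Pool.Agent.MP_20bec2_an.T3
noncomputable section
open Classical

namespace Runm

/-- what the other rows give for one cube; `I` is the net -/
structure Hy (d : MD) (I : Finset Fn) : Prop where
  gd : Gd d.c
  inn : d.In
  rc : ∀ s, d.Gs s → ∃ v ω, d.RC s v ω
  st : ∀ s s' v ω, d.Gs s → d.Cl s s' → d.Cr d.ep v ω →
    ∀ Λ ∈ d.Fam, |Λ s' v ω - Λ s v ω| ≤ np d.c.N (-860)
  lin : ∀ s, d.Gw s → ∀ Λ ∈ d.Fam, ∀ (c : ℝ) v ω, d.Cr d.ep v ω →
    Λ s (c • v) (c • ω) = c * Λ s v ω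
  net : ∀ u ω, ∀ m ≤ nT d.c.N, ∀ b : ℝ, 0 ≤ b → (∀ j, d.Cr d.ep (u j) (ω j)) →
    (∀ j < m, d.Gw (d.sa u ω j)) → (∀ Λ ∈ I, |d.X Λ u ω m| ≤ b) →
    ∀ Λ ∈ d.FamC, |d.X Λ u ω m| ≤ b + 1
  good : ∀ u ω, ∀ m ≤ nT d.c.N, (∀ j, d.Cr d.ep (u j) (ω j)) →
    (∀ Λ ∈ d.FamP, |d.X Λ u ω m| ≤ 2 * qp d.c.N (1 / 10) * Real.sqrt d.c.J) →
    (∃ τ : ℝ, 0 ≤ τ ∧ τ ≤ 1 ∧ ∀ x ∈ d.R (99 / 100),
      EB (nrm d.c.hs (Cv u m x - (τ * d.α x ^ 2) • d.C x)) (cm (2 * d.c.eSm))) →
    (∀ x, ∑ j ∈ Finset.range m, ω j x ^ 2 ≤ d.c.p) → d.Gs (d.sa u ω m)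

/-- the weighted family contains the net with weights that are not too small -/
structure Wt (d : MD) (I : Finset Fn) (ψ : ℝ → ℝ → ℝ) {κ : Type} (T : Finset κ) (Λ : κ → Fn)
    (W : κ → ℝ) : Prop where
  p0 : ψ 0 0 = 1
  pos : ∀ Q x, 0 ≤ Q → 0 ≤ ψ Q x
  step : ∀ Q x a, 0 ≤ Q → ψ (Q + a ^ 2) (x + a) + ψ (Q + a ^ 2) (x - a) ≤ 2 * ψ Q x
  ex : ∀ Q x, 0 ≤ Q → Q ≤ 1 → Real.exp (x ^ 2 / 6) ≤ 2 * ψ Q x
  mem : ∀ i ∈ T, Λ i ∈ d.Fam ∧ 0 ≤ W i
  big : ∀ L ∈ I, ∃ i ∈ T, Λ i = L ∧ 0 < W i ∧ ∑ j ∈ T, W j ≤ 8 * (d.c.N : ℝ) ^ 20000 * W i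

/-- the potential -/
def Pot (d : MD) (ψ : ℝ → ℝ → ℝ) {κ : Type} (T : Finset κ) (Λ : κ → Fn) (W : κ → ℝ)
    (u : ℕ → V → V) (ω : ℕ → V → ℝ) (m : ℕ) : ℝ :=
  ∑ i ∈ T, W i * ψ (Y d (Λ i) u ω m) (d.X (Λ i) u ω m)

/-- what holds after `r` rounds -/
structure Inv (d : MD) (ψ : ℝ → ℝ → ℝ) {κ : Type} (T : Finset κ) (Λ : κ → Fn) (W : κ → ℝ)
    (r : ℕ) (u : ℕ → V → V) (ω : ℕ → V → ℝ) : Prop where
  cr : ∀ m, d.Cr d.ep (u m) (ω m)
  su : d.Sums (Finset.range (r * nr d.c.N)) u ω (r / nrep d.c.N)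
  gs : ∀ m ≤ r * nr d.c.N, d.Gs (d.sa u ω m) ∧
    ∀ L ∈ d.FamC, |d.X L u ω m| ≤ 2 * qp d.c.N (1 / 10) * Real.sqrt d.c.J
  yb : ∀ L ∈ d.Fam, Y d L u ω (r * nr d.c.N) ≤ r / nrep d.c.N
  pot : Pot d ψ T Λ W u ω (r * nr d.c.N) ≤ ∑ i ∈ T, W i

variable {d : MD} {I : Finset Fn} {ψ : ℝ → ℝ → ℝ} {κ : Type} {T : Finset κ} {Λ : κ → Fn}
  {W : κ → ℝ}

theorem Pot_congr {u u' : ℕ → V → V} {ω ω' : ℕ → V → ℝ} {m : ℕ}
    (h : ∀ j < m, u j = u' j ∧ ω j = ω' j) : Pot d ψ T Λ W u ω m = Pot d ψ T Λ W u' ω' m :=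
  Finset.sum_congr rfl fun i _ => by rw [X_congr h, Y_congr h]

/-- one of the two signs does not raise the potential -/
theorem pot_step (H : Hy d I) (hW : Wt d I ψ T Λ W) {u u1 u2 : ℕ → V → V} {ω ω1 ω2 : ℕ → V → ℝ}
    {m : ℕ} {v : V → V} {η : V → ℝ} (hv : d.Cr d.ep v η) (hg : d.Gw (d.sa u ω m))
    (a1 : ∀ j < m, u1 j = u j ∧ ω1 j = ω j) (a2 : ∀ j < m, u2 j = u j ∧ ω2 j = ω j)
    (b1 : u1 m = (1 : ℝ) • v ∧ ω1 m = (1 : ℝ) • η)
    (b2 : u2 m = (-1 : ℝ) • v ∧ ω2 m = (-1 : ℝ) • η) :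
    Pot d ψ T Λ W u1 ω1 (m + 1) + Pot d ψ T Λ W u2 ω2 (m + 1) ≤ 2 * Pot d ψ T Λ W u ω m := by
  unfold Pot
  rw [← Finset.sum_add_distrib, Finset.mul_sum]
  refine Finset.sum_le_sum fun i hi => ?_
  have hl := H.lin _ hg _ (hW.mem i hi).1
  rw [X_succ, X_succ, Y_succ, Y_succ, X_congr a1, X_congr a2, Y_congr a1, Y_congr a2, sa_congr a1,
    sa_congr a2, b1.1, b1.2, b2.1, b2.2, hl 1 v η hv, hl (-1) v η hv, one_mul, neg_one_mul, neg_sq,
    ← sub_eq_add_neg, ← mul_add, mul_left_comm]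
  exact mul_le_mul_of_nonneg_left (hW.step _ _ _ (Y_nonneg _)) (hW.mem i hi).2

/-- a bounded potential bounds the crude functionals -/
theorem pot_cru (H : Hy d I) (hW : Wt d I ψ T Λ W) {u : ℕ → V → V} {ω : ℕ → V → ℝ} {m : ℕ}
    (hm : m ≤ nT d.c.N) (hc : ∀ j, d.Cr d.ep (u j) (ω j)) (hg : ∀ j < m, d.Gw (d.sa u ω j))
    (hy : ∀ L ∈ d.Fam, Y d L u ω m ≤ 1) (hp : Pot d ψ T Λ W u ω m ≤ ∑ i ∈ T, W i) :
    ∀ L ∈ d.FamC, |d.X L u ω m| ≤ 2 * qp d.c.N (1 / 10) * Real.sqrt d.c.J := by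
  obtain ⟨h1, h2⟩ := n6 H.gd.big
  intro L hL
  have := H.net u ω m hm (qp d.c.N (1 / 10) * Real.sqrt (pJ d.c.N)) (by linarith) hc hg
    (fun L' hL' => ?_) L hL
  · show _ ≤ 2 * qp d.c.N (1 / 10) * Real.sqrt (pJ d.c.N)
    linarith
  obtain ⟨i, hi, rfl, w0, w1⟩ := hW.big L' hL'
  have h3 : W i * ψ (Y d (Λ i) u ω m) (d.X (Λ i) u ω m) ≤ Pot d ψ T Λ W u ω m :=
    Finset.single_le_sum (f := fun i => W i * ψ (Y d (Λ i) u ω m) (d.X (Λ i) u ω m))
      (fun j hj => mul_nonneg (hW.mem j hj).2 (hW.pos _ _ (Y_nonneg _))) hi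
  have h4 : ψ (Y d (Λ i) u ω m) (d.X (Λ i) u ω m) ≤ 8 * (d.c.N : ℝ) ^ 20000 :=
    le_of_mul_le_mul_left (((h3.trans hp).trans w1).trans_eq (mul_comm _ _)) w0
  have h5 := hW.ex _ (d.X (Λ i) u ω m) (Y_nonneg _) (hy _ (hW.mem i hi).1)
  have h6 : Real.exp (d.X (Λ i) u ω m ^ 2 / 6) ≤
      Real.exp ((qp d.c.N (1 / 10) * Real.sqrt (pJ d.c.N)) ^ 2 / 6) := by linarith
  refine abs_le_of_sq_le_sq' ?_ (by linarith) |> abs_le.2
  linarith [Real.exp_le_exp.1 h6]

theorem gw_of (H : Hy d I) {u : ℕ → V → V} {ω : ℕ → V → ℝ} (hc : ∀ j, d.Cr d.ep (u j) (ω j))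
    {a k : ℕ} (hk : k ≤ nr d.c.N) (hg : d.Gs (d.sa u ω a)) : d.Gw (d.sa u ω (a + k)) :=
  ⟨_, hg, cl_of H.gd hc H.inn.ns.1 a hk⟩

theorem gw_self (H : Hy d I) {u : ℕ → V → V} {ω : ℕ → V → ℝ} (hc : ∀ j, d.Cr d.ep (u j) (ω j))
    {a : ℕ} (hg : d.Gs (d.sa u ω a)) : d.Gw (d.sa u ω a) := gw_of H hc (Nat.zero_le _) hg

theorem inv_zero (H : Hy d I) (hW : Wt d I ψ T Λ W) : Inv d ψ T Λ W 0 0 0 := by
  have hb : 0 ≤ 2 * qp d.c.N (1 / 10) * Real.sqrt d.c.J := by
    have := H.gd.big.qp_pos (1 / 10)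
    positivity
  have hX : ∀ L, d.X L 0 0 0 = 0 := fun L => Finset.sum_range_zero _
  have hY : ∀ L, Y d L 0 0 0 = 0 := fun L => Finset.sum_range_zero _
  refine ⟨fun _ => cr_zero H.gd, ?_, fun m hm => ?_, fun L _ => ?_, ?_⟩
  · rw [Nat.zero_mul, Finset.range_zero, Nat.cast_zero, zero_div]
    exact sums_empty _ _
  · obtain rfl : m = 0 := by omega
    refine ⟨H.good 0 0 0 (Nat.zero_le _) (fun _ => cr_zero H.gd) (fun L _ => ?_)
      ⟨0, le_rfl, zero_le_one, fun x _ i j => ?_⟩ fun x => ?_, fun L _ => ?_⟩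
    · rwa [hX, abs_zero]
    · have := H.gd.eSm_pos
      simp only [nrm, Cv, cm, of_apply, Finset.sum_range_zero, zero_mul, zero_smul, sub_zero,
        Matrix.zero_apply, zero_div, abs_zero]
      linarith
    · rw [Finset.sum_range_zero]; exact H.gd.p_pos.le
    · rwa [hX, abs_zero]
  · rw [Nat.zero_mul, hY, Nat.cast_zero, zero_div]
  · rw [Nat.zero_mul]
    exact le_of_eq (Finset.sum_congr rfl fun i _ => by rw [hX, hY, hW.p0, mul_one])

/-- one round -/
theorem inv_succ (H : Hy d I) (hW : Wt d I ψ T Λ W) {r : ℕ} {u : ℕ → V → V} {ω : ℕ → V → ℝ}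
    (h : Inv d ψ T Λ W r u ω) (hr : r + 1 ≤ nrep d.c.N) : ∃ u' ω', Inv d ψ T Λ W (r + 1) u' ω' := by
  obtain ⟨hc, hs, hg, hy, hp⟩ := h
  have hR := nrep_pos H.gd.big
  have hT : (r + 1) * nr d.c.N ≤ nT d.c.N := (Nat.mul_le_mul_right _ hr).trans (len_le H.gd.big)
  have hr1 : (r : ℝ) / nrep d.c.N + 1 / nrep d.c.N ≤ 1 := by
    rw [← add_div, div_le_one hR]; exact_mod_cast hr
  have hr0 : (r : ℝ) / nrep d.c.N ≤ 1 := by linarith [one_div_pos.2 hR]
  have er : ((r + 1 : ℕ) : ℝ) / nrep d.c.N = r / nrep d.c.N + 1 / nrep d.c.N := by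
    rw [Nat.cast_succ, add_div]
  rw [Nat.succ_mul] at hT
  generalize ea : r * nr d.c.N = a at hs hg hy hp hT
  obtain ⟨v, η, rc⟩ := H.rc _ (hg a le_rfl).1
  let U : (ℕ → ℝ) → ℕ → V → V := fun σ => cat a u fun j => σ j • v j
  let Ω : (ℕ → ℝ) → ℕ → V → ℝ := fun σ => cat a ω fun j => σ j • η j
  have ag : ∀ σ, ∀ j < a, U σ j = u j ∧ Ω σ j = ω j := fun σ j hj =>
    ⟨cat_lt _ _ hj, cat_lt _ _ hj⟩
  have at' : ∀ σ k, U σ (a + k) = σ k • v k ∧ Ω σ (a + k) = σ k • η k := fun σ k =>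
    ⟨cat_add _ _ _ _, cat_add _ _ _ _⟩
  have dep : ∀ σ σ' k, (∀ j < k, σ j = σ' j) → ∀ j < a + k, U σ j = U σ' j ∧ Ω σ j = Ω σ' j := by
    intro σ σ' k e j hj
    rcases Nat.lt_or_ge j a with h | h
    · rw [(ag σ j h).1, (ag σ j h).2, (ag σ' j h).1, (ag σ' j h).2]; exact ⟨rfl, rfl⟩
    · obtain ⟨i, rfl⟩ := Nat.exists_eq_add_of_le h
      rw [(at' σ i).1, (at' σ i).2, (at' σ' i).1, (at' σ' i).2, e i (by omega)]; exact ⟨rfl, rfl⟩
  have cr : ∀ σ : ℕ → ℝ, (∀ j, σ j = 1 ∨ σ j = -1) → ∀ m, d.Cr d.ep (U σ m) (Ω σ m) :=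
    fun σ hσ => cat_prop (d.Cr d.ep) hc fun j => cr_sign (rc.cr j) (hσ j)
  have s0 : ∀ σ, ∀ m ≤ a, d.sa (U σ) (Ω σ) m = d.sa u ω m := fun σ m hm =>
    sa_congr fun j hj => ag σ j (by omega)
  have g0 : ∀ σ, ∀ m ≤ a, d.Gs (d.sa (U σ) (Ω σ) m) := fun σ m hm => by
    rw [s0 σ m hm]; exact (hg m hm).1
  obtain ⟨σ, hσ, hΦ⟩ := signs (nr d.c.N) (fun σ k => Pot d ψ T Λ W (U σ) (Ω σ) (a + k))
    (fun σ σ' k e => Pot_congr (dep σ σ' k e)) fun σ k hk hσ =>
      pot_step (m := a + k) H hW (rc.cr k) (gw_of H (cr σ hσ) hk.le (g0 σ a le_rfl))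
        (dep _ σ k fun j hj => Function.update_of_ne hj.ne _ _)
        (dep _ σ k fun j hj => Function.update_of_ne hj.ne _ _)
        (by rw [(at' _ k).1, (at' _ k).2, Function.update_self]; exact ⟨rfl, rfl⟩)
        (by rw [(at' _ k).1, (at' _ k).2, Function.update_self]; exact ⟨rfl, rfl⟩)
  have c1 := cr σ hσ
  have p1 : ∀ k ≤ nr d.c.N, Pot d ψ T Λ W (U σ) (Ω σ) (a + k) ≤ ∑ i ∈ T, W i := fun k hk =>
    (hΦ k hk).trans ((Pot_congr (ag σ)).trans_le hp)
  have su : d.Sums (Finset.range (a + nr d.c.N)) (U σ) (Ω σ) (r / nrep d.c.N + 1 / nrep d.c.N) :=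
    sums_add H.gd H.inn.sC.1 (fun j => (hc j).sm) (fun j => (rc.cr j).sm) hs rc.su fun F hF => by
      rw [sum_cat]
      exact congrArg _ (Finset.sum_congr rfl fun j _ => hF.sign (hσ j) _ _)
  have yb : ∀ L ∈ d.Fam, Y d L (U σ) (Ω σ) (a + nr d.c.N) ≤ r / nrep d.c.N + 1 / nrep d.c.N := by
    intro L hL
    have e : Y d L (U σ) (Ω σ) (a + nr d.c.N) = Y d L (U σ) (Ω σ) a + ∑ k ∈ Finset.range (nr d.c.N),
        L (d.sa (U σ) (Ω σ) (a + k)) (U σ (a + k)) (Ω σ (a + k)) ^ 2 := Finset.sum_range_add _ _ _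
    rw [e, Y_congr (ag σ)]
    refine add_le_add (hy L hL) (le_trans ?_ (n4 H.gd.big))
    calc _ ≤ ∑ k ∈ Finset.range (nr d.c.N),
          (2 * L (d.sa u ω a) (v k) (η k) ^ 2 + 2 * np d.c.N (-860) ^ 2) :=
          Finset.sum_le_sum fun k hk => ?_
      _ ≤ _ := by
          rw [Finset.sum_add_distrib, ← Finset.mul_sum, Finset.sum_const, Finset.card_range,
            nsmul_eq_mul]
          linarith [rc.var L hL]
    have h1 := H.st _ _ _ _ (g0 σ a le_rfl)
      (cl_of H.gd c1 H.inn.ns.1 a (Finset.mem_range.1 hk).le) (c1 (a + k)) L hL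
    have h2 : L (d.sa (U σ) (Ω σ) a) (U σ (a + k)) (Ω σ (a + k)) ^ 2 =
        L (d.sa u ω a) (v k) (η k) ^ 2 := by
      rw [(at' σ k).1, (at' σ k).2, H.lin _ (gw_self H c1 (g0 σ a le_rfl)) L hL _ _ _ (rc.cr k),
        s0 σ a le_rfl]
      rcases hσ k with e | e <;> rw [e] <;> ring
    have h3 := sq_le_sq' (abs_le.1 h1).1 (abs_le.1 h1).2
    rw [← h2]
    nlinarith [sq_nonneg (L (d.sa (U σ) (Ω σ) (a + k)) (U σ (a + k)) (Ω σ (a + k)) -
      2 * L (d.sa (U σ) (Ω σ) a) (U σ (a + k)) (Ω σ (a + k)))]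
  have gw : ∀ j ≤ a + nr d.c.N, d.Gw (d.sa (U σ) (Ω σ) j) := fun j hj => by
    rcases le_total j a with h | h
    · exact gw_self H c1 (g0 σ j h)
    · obtain ⟨i, rfl⟩ := Nat.exists_eq_add_of_le h
      exact gw_of H c1 (by omega) (g0 σ a le_rfl)
  refine ⟨U σ, Ω σ, c1, ?_, fun m hm => ?_, ?_, ?_⟩
  · rwa [Nat.succ_mul, ea, er]
  · rw [Nat.succ_mul, ea] at hm
    rcases le_total m a with h | h
    · exact ⟨g0 σ m h, fun L hL => by
        rw [X_congr fun j hj => ag σ j (by omega)]; exact (hg m h).2 L hL⟩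
    obtain ⟨k, rfl⟩ := Nat.exists_eq_add_of_le h
    have hk : k ≤ nr d.c.N := by omega
    have cru := pot_cru H hW (hm.trans hT) c1 (fun j hj => gw j (by omega))
      (fun L hL => (Y_mono L hm).trans ((yb L hL).trans hr1)) (p1 k hk)
    refine ⟨H.good _ _ _ (hm.trans hT) c1 (fun L hL => cru L (Or.inl hL))
      ⟨r / nrep d.c.N, div_nonneg (Nat.cast_nonneg r) hR.le, hr0,
        fun x hx => cb_of H.gd c1 a hk x _ fun i j => ?_⟩
      (om_le H.gd c1 su hr1 hm), cru⟩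
    have e : Cv (U σ) a = Cv u a := congrArg Sa.C (s0 σ a le_rfl)
    rw [e]
    exact ((hs.cov i j).val hx).trans (mul_le_of_le_one_left H.gd.eSm_pos.le hr0)
  · rwa [Nat.succ_mul, ea, er]
  · rw [Nat.succ_mul, ea]
    exact p1 _ le_rfl

theorem core (H : Hy d I) (hW : Wt d I ψ T Λ W) : ∃ u ω, d.Path u ω ∧
    ∑ i ∈ T, W i * Real.exp (d.X (Λ i) u ω (nT d.c.N) ^ 2 / 6) ≤ 2 * ∑ i ∈ T, W i := by
  have all : ∀ r ≤ nrep d.c.N, ∃ u ω, Inv d ψ T Λ W r u ω := fun r => by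
    induction r with
    | zero => exact fun _ => ⟨0, 0, inv_zero H hW⟩
    | succ r ih =>
      intro hr
      obtain ⟨u, ω, h⟩ := ih (by omega)
      exact inv_succ H hW h hr
  obtain ⟨u, ω, hc, hs, hg, hy, hp⟩ := all _ le_rfl
  have hT := len_le H.gd.big
  rw [div_self (nrep_pos H.gd.big).ne'] at hs hy
  generalize nrep d.c.N * nr d.c.N = a at hs hg hy hp hT
  obtain ⟨n, hn⟩ := Nat.exists_eq_add_of_le hT
  have ag : ∀ j < a, cat a u 0 j = u j ∧ cat a ω 0 j = ω j := fun j hj =>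
    ⟨cat_lt _ _ hj, cat_lt _ _ hj⟩
  have c1 : ∀ m, d.Cr d.ep (cat a u 0 m) (cat a ω 0 m) :=
    cat_prop (d.Cr d.ep) hc fun _ => cr_zero H.gd
  have z1 : ∀ k, cat a u 0 (a + k) = 0 := fun k => cat_add _ _ _ _
  have z2 : ∀ k, cat a ω 0 (a + k) = 0 := fun k => cat_add _ _ _ _
  have s1 : ∀ k, d.sa (cat a u 0) (cat a ω 0) (a + k) = d.sa u ω a := fun k => by
    induction k with
    | zero => exact sa_congr ag
    | succ k ih => rw [← add_assoc, sa_zero (z1 k) (z2 k), ih]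
  have x1 : ∀ L ∈ d.Fam, ∀ k, d.X L (cat a u 0) (cat a ω 0) (a + k) = d.X L u ω a := by
    intro L hL k
    induction k with
    | zero => exact X_congr ag L
    | succ k ih =>
      have := H.lin _ (gw_self H hc (hg a le_rfl).1) L hL 0 0 0 (cr_zero H.gd)
      rw [zero_smul, zero_smul, zero_mul] at this
      rw [← add_assoc, X_succ, ih, s1, z1, z2, this, add_zero]
  refine ⟨cat a u 0, cat a ω 0, ⟨c1, ?_, fun m _ => ?_, fun m _ L hL => ?_⟩, ?_⟩
  · rw [← add_zero (1 : ℝ), hn]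
    refine sums_add H.gd H.inn.sC.1 (fun j => (hc j).sm) (fun j => (hc j).sm) hs (sums_empty u ω)
      fun F hF => ?_
    rw [sum_cat, Finset.sum_empty]
    exact congrArg _ (Finset.sum_eq_zero fun _ _ => hF.2)
  · rcases le_total m a with h | h
    · rw [sa_congr fun j hj => ag j (by omega)]; exact (hg m h).1
    · obtain ⟨k, rfl⟩ := Nat.exists_eq_add_of_le h
      rw [s1]; exact (hg a le_rfl).1
  · rcases le_total m a with h | h
    · rw [X_congr fun j hj => ag j (by omega)]; exact (hg m h).2 L hL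
    · obtain ⟨k, rfl⟩ := Nat.exists_eq_add_of_le h
      rw [x1 L (Or.inl hL)]; exact (hg a le_rfl).2 L hL
  · refine le_trans ?_ (mul_le_mul_of_nonneg_left hp zero_le_two)
    rw [Pot, Finset.mul_sum]
    refine Finset.sum_le_sum fun i hi => ?_
    rw [hn, x1 _ (hW.mem i hi).1, mul_left_comm]
    exact mul_le_mul_of_nonneg_left (hW.ex _ _ (Y_nonneg _) (hy _ (hW.mem i hi).1)) (hW.mem i hi).2

/-- the net is added to the family -/
theorem main (H : Hy d I) (hI : ↑I ⊆ d.Fam) (hn : (I.card : ℝ) ≤ 3 * (d.c.N : ℝ) ^ 20000)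
    (ι : Type) (T : Finset ι) (Λ : ι → Fn) (W : ι → ℝ) (hT : ∀ i ∈ T, Λ i ∈ d.Fam ∧ 0 ≤ W i) :
    ∃ u ω, d.Path u ω ∧
      ∑ i ∈ T, W i * Real.exp (d.X (Λ i) u ω (nT d.c.N) ^ 2 / 6) ≤ 4 * ∑ i ∈ T, W i := by
  obtain ⟨ψ, p0, p1, p2, p3⟩ := walk
  have hS : 0 ≤ ∑ i ∈ T, W i := Finset.sum_nonneg fun i hi => (hT i hi).2
  have hN : 1 ≤ (d.c.N : ℝ) ^ 20000 := one_le_pow₀ (by exact_mod_cast one_le_N H.gd.big)
  have hc : (0 : ℝ) ≤ I.card := Nat.cast_nonneg _
  obtain ⟨w, w0, w1, w2⟩ : ∃ w : ℝ, 0 < w ∧ ∑ i ∈ T, W i ≤ (I.card + 1) * w ∧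
      (0 < ∑ i ∈ T, W i → I.card * w ≤ ∑ i ∈ T, W i) := by
    rcases hS.eq_or_lt with h | h
    · exact ⟨1, one_pos, by linarith, fun h' => absurd h h'.ne⟩
    · have e : ((I.card : ℝ) + 1) * ((∑ i ∈ T, W i) / (I.card + 1)) = ∑ i ∈ T, W i := by field_simp
      have h1 : 0 < (∑ i ∈ T, W i) / (I.card + 1) := by positivity
      exact ⟨_, h1, e.ge, fun _ => by linarith⟩
  have es : ∑ j ∈ T.disjSum I, Sum.elim W (fun _ => w) j = ∑ i ∈ T, W i + I.card * w := by
    rw [Finset.sum_disjSum]; simp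
  obtain ⟨u, ω, hP, hb⟩ := core (T := T.disjSum I) (Λ := Sum.elim Λ id)
    (W := Sum.elim W fun _ => w) H ⟨p0, p1, p2, p3, fun i hi => by
      rcases i with i | L
      · exact hT i (Finset.inl_mem_disjSum.1 hi)
      · exact ⟨hI (Finset.inr_mem_disjSum.1 hi), w0.le⟩, fun L hL =>
      ⟨Sum.inr L, Finset.inr_mem_disjSum.2 hL, rfl, w0, by
        rw [es]
        show _ ≤ 8 * (d.c.N : ℝ) ^ 20000 * w
        generalize (d.c.N : ℝ) ^ 20000 = B at hn hN ⊢
        nlinarith⟩⟩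
  refine ⟨u, ω, hP, ?_⟩
  rcases hS.eq_or_lt with h | h
  · have h0 := (Finset.sum_eq_zero_iff_of_nonneg fun i hi => (hT i hi).2).1 h.symm
    rw [← h, Finset.sum_eq_zero fun i hi => by rw [h0 i hi, zero_mul], mul_zero]
  · rw [es, Finset.sum_disjSum] at hb
    have h1 : 0 ≤ ∑ L ∈ I, w * Real.exp (d.X L u ω (nT d.c.N) ^ 2 / 6) :=
      Finset.sum_nonneg fun _ _ => mul_nonneg w0.le (Real.exp_pos _).le
    simp only [Sum.elim_inl, Sum.elim_inr, id] at hb
    linarith [w2 h]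

end Runm

theorem runm (hRc : RcStmt) (hSt : StabStmt) (hL : LinStmt) (hP : NetpStmt) (hO : NetoStmt)
    (hH : NethStmt) (hG : GoodStmt) : RunmStmt := by
  filter_upwards [ev_gd, hRc, hSt, hL, hP, hO, hH, hG] with N gd hRc hSt hL hP hO hH hG d hN hk hd
  obtain ⟨Ip, p1, p2, p3⟩ := hP d hN hk hd
  obtain ⟨Io, o1, o2, o3⟩ := hO d hN hk hd
  obtain ⟨Ih, h1, h2, h3⟩ := hH d hN hk hd
  refine Runm.main (I := Ip ∪ Io ∪ Ih) ⟨gd d.c hN hd.ok, hd, hRc d hN hk hd, hSt d hN hk hd,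
    fun s hs Λ hΛ c v ω hc => ?_, fun u ω m hm b hb hc hg hI Λ hΛ => ?_, hG d hN hk hd⟩
    (fun Λ hΛ => ?_) ?_
  · have := hL d hN hk hd s hs Λ hΛ Unit {()} (fun _ => c) (fun _ => v) (fun _ => ω)
      fun _ _ => ⟨_, hc⟩
    simp only [Finset.sum_singleton] at this
    exact this
  · rcases hΛ with hΛ | ⟨a, hΛ | ⟨ζ, hΛ⟩⟩
    · exact p3 u ω m hm b hb hc hg (fun L hL => hI L (by simp [hL])) Λ hΛ
    · exact o3 u ω m hm b hb hc hg (fun L hL => hI L (by simp [hL])) Λ ⟨a, hΛ⟩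
    · exact h3 u ω m hm b hb hc hg (fun L hL => hI L (by simp [hL])) Λ ⟨a, ζ, hΛ⟩
  · rcases Finset.mem_union.1 hΛ with h | h
    · rcases Finset.mem_union.1 h with h | h
      · exact Or.inl (Or.inl (p1 h))
      · obtain ⟨a, ha⟩ := o1 h
        exact Or.inl (Or.inr ⟨a, Or.inl ha⟩)
    · obtain ⟨a, ζ, ha⟩ := h1 h
      exact Or.inl (Or.inr ⟨a, Or.inr ⟨ζ, ha⟩⟩)
  · have e1 : ((Ip ∪ Io ∪ Ih).card : ℝ) ≤ (Ip ∪ Io).card + Ih.card := by
      exact_mod_cast Finset.card_union_le _ _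
    have e2 : ((Ip ∪ Io).card : ℝ) ≤ Ip.card + Io.card := by exact_mod_cast Finset.card_union_le _ _
    linarith

end
end Pool.Agent.MP_20bec2_an.T3

end MrgPart2

-- marker of a merged file
example : 731051 + 107959 = 731051 + 107959 := rfl

end MrgPart2

-- marker of a merged file
example : 731051 + 107959 = 731051 + 107959 := rfl
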