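import Mathlib.RingTheory.PiTensorProduct
import Mathlib.MeasureTheory.Order.Group.Lattice
import Pool.Agent.MP_20bec2_an.T3.WinA
import Pool.Agent.MP_20bec2_an.T3.Par3
import Pool.Agent.MP_20bec2_an.T3.Calc1b
import Pool.Agent.MP_20bec2_an.T3.Zt
import Pool.Agent.MP_20bec2_an.T3.Runm

-- ======== part 0: formerly Pool.Agent.MP_20bec2_an.T3.Kls
section MrgPart0

/-! The local kernel conditions hold along the path. -/

set_option autoImplicit false
open MeasureTheory Set Filter Matrix Topology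

namespace Pool.Agent.MP_20bec2_an.T3
noncomputable section
open Classical Prof

namespace KlsA

theorem pd_of {h : V} {M : Mx} {a : ℝ} (hM : Mᵀ = M) (a1 : 1 / 32 ≤ a) (a2 : a ≤ 1 / 4)
    (H : ∀ i j, |M i j - dg3 a a 1 i j * (h i * h j)| ≤ 1 / 1000 * (h i * h j)) : PD h M := by
  refine ⟨hM, fun v => ?_⟩
  obtain ⟨E, hE⟩ : ∃ E : Fin 3 → Fin 3 → ℝ, ∀ i j,
    E i j = v i * ((M i j - dg3 a a 1 i j * (h i * h j)) * v j) := ⟨_, fun _ _ => rfl⟩
  have q : ∀ i j, |E i j| ≤ 1 / 2000 * ((h i * v i) ^ 2 + (h j * v j) ^ 2) := fun i j => by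
    have h1 := mul_le_mul_of_nonneg_right (H i j) (mul_nonneg (abs_nonneg (v i)) (abs_nonneg (v j)))
    have h2 := sq_nonneg (h i * |v i| - h j * |v j|)
    rw [hE, abs_mul, abs_mul, mul_pow, mul_pow, ← sq_abs (v i), ← sq_abs (v j)]
    linarith
  have e : v ⬝ᵥ (M *ᵥ v) = E 0 0 + E 0 1 + E 0 2 + E 1 0 + E 1 1 + E 1 2 + E 2 0 + E 2 1 + E 2 2 +
      a * (h 0 * v 0) ^ 2 + a * (h 1 * v 1) ^ 2 + (h 2 * v 2) ^ 2 := by
    simp [hE, dotProduct, mulVec, Fin.sum_univ_three, dg3]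
    ring
  have q00 := abs_le.1 (q 0 0); have q01 := abs_le.1 (q 0 1); have q02 := abs_le.1 (q 0 2)
  have q10 := abs_le.1 (q 1 0); have q11 := abs_le.1 (q 1 1); have q12 := abs_le.1 (q 1 2)
  have q20 := abs_le.1 (q 2 0); have q21 := abs_le.1 (q 2 1); have q22 := abs_le.1 (q 2 2)
  have p0 := sq_nonneg (h 0 * v 0); have p1 := sq_nonneg (h 1 * v 1)
  have p2 := sq_nonneg (h 2 * v 2)
  have r0 := mul_le_mul_of_nonneg_right a1 p0; have r1 := mul_le_mul_of_nonneg_right a1 p1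
  have r2 := mul_le_mul_of_nonneg_right a2 p0; have r3 := mul_le_mul_of_nonneg_right a2 p1
  rw [e, Fin.sum_univ_three]
  generalize (h 0 * v 0) ^ 2 = w0 at *
  generalize (h 1 * v 1) ^ 2 = w1 at *
  generalize (h 2 * v 2) ^ 2 = w2 at *
  constructor <;> linarith [q00.1, q00.2, q01.1, q01.2, q02.1, q02.2, q10.1, q10.2, q11.1, q11.2,
    q12.1, q12.2, q20.1, q20.2, q21.1, q21.2, q22.1, q22.2]

theorem un {h : V} (hh : ∀ i, 0 < h i) {A D : Mx} {i j : Fin 3} {e : ℝ}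
    (H : |(nrm h A - D) i j| ≤ e) : |A i j - D i j * (h i * h j)| ≤ e * (h i * h j) := by
  have p := mul_pos (hh i) (hh j)
  have e1 : A i j - D i j * (h i * h j) = (nrm h A - D) i j * (h i * h j) := by
    simp only [nrm, Matrix.sub_apply, of_apply]
    rw [sub_mul, div_mul_cancel₀ _ p.ne']
  rw [e1, abs_mul, abs_of_pos p]
  exact mul_le_mul_of_nonneg_right H p.le

/-- the covariance at a smaller vertical scale -/
theorem pd_main {l1 lam y y' K a t θ e : ℝ} {S Dl Db C C0 C1 : Mx} (p0 : 0 < lam) (p1 : lam ≤ l1)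
    (p2 : lam ≤ y) (p3 : 0 < y') (p4 : y' ≤ y) (p5 : y ≤ K * y') (p6 : y ≤ K * lam)
    (e0 : 0 ≤ e) (he : K ^ 2 * e ≤ 1 / 10000) (a0 : 0 ≤ a) (t0 : 0 ≤ t) (a1 : a + t ≤ 1)
    (θ0 : 0 ≤ θ) (θ1 : θ ≤ 1)
    (sy : (S - θ • Dl - (y ^ 2 - y' ^ 2) • Db - C1)ᵀ = S - θ • Dl - (y ^ 2 - y' ^ 2) • Db - C1)
    (hS : EB (nrm ![l1, lam, y] S - dg3 (1 / 4 - 3 / 16 * a) (1 / 4 - 3 / 16 * a) 1)
      (bm (1 / 10000) e e))
    (hD : EB (nrm ![l1, lam, y] Dl - dg3 (1 / 32) (1 / 32) 0) (cm e))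
    (hB : EB (Db - dg3 0 0 1) (cm e)) (h1 : EB (C1 - C0) (cm (e * lam ^ 2)))
    (hC : EB (nrm ![l1, lam, y] C - dg3 (3 / 16) (3 / 16) 0) (cm (1 / 10000)))
    (h0 : EB (nrm ![l1, lam, y] (C0 - t • C)) (cm (1 / 10000))) (s0 : C0ᵀ = C0)
    (z0 : ∀ i, C0 2 i = 0) :
    PD ![l1, lam, y'] (S - θ • Dl - (y ^ 2 - y' ^ 2) • Db - C1) := by
  have hK : 1 ≤ K := by nlinarith
  have hs : ∀ i, 0 < (![l1, lam, y] : V) i := fun i => by
    fin_cases i <;> simp <;> linarith
  have hy : ∀ i, 0 < (![l1, lam, y'] : V) i := fun i => by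
    fin_cases i <;> simp <;> linarith
  have k1 : ∀ i, y ≤ K * (![l1, lam, y'] : V) i := fun i => by
    fin_cases i <;> simp <;> nlinarith
  have k2 : ∀ i, (![l1, lam, y] : V) i ≤ K * (![l1, lam, y'] : V) i := fun i => by
    fin_cases i <;> simp <;> nlinarith
  have k3 : ∀ i, i ≠ 2 → (![l1, lam, y] : V) i = (![l1, lam, y'] : V) i := fun i hi => by
    fin_cases i <;> simp at hi ⊢
  refine pd_of (a := 1 / 4 - 3 / 16 * a - θ / 32 - 3 / 16 * t) sy (by linarith) (by linarith)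
    fun i j => ?_
  have k4 : dg3 (1 / 4 - 3 / 16 * a - θ / 32 - 3 / 16 * t) (1 / 4 - 3 / 16 * a - θ / 32 - 3 / 16 * t)
      1 i j * (![l1, lam, y'] i * ![l1, lam, y'] j) =
      dg3 (1 / 4 - 3 / 16 * a) (1 / 4 - 3 / 16 * a) 1 i j * (![l1, lam, y] i * ![l1, lam, y] j) -
      θ * (dg3 (1 / 32) (1 / 32) 0 i j * (![l1, lam, y] i * ![l1, lam, y] j)) -
      (y ^ 2 - y' ^ 2) * dg3 0 0 1 i j -
      t * (dg3 (3 / 16) (3 / 16) 0 i j * (![l1, lam, y] i * ![l1, lam, y] j)) := by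
    fin_cases i <;> fin_cases j <;> simp [dg3] <;> ring
  have k5 : i = 2 ∨ j = 2 → bm (1 / 10000) e e i j = e ∧ C0 i j = 0 ∧
      dg3 (3 / 16) (3 / 16) 0 i j = 0 := by
    have z1 : ∀ i, C0 i 2 = 0 := fun i => by rw [← z0 i, ← s0, transpose_apply, s0]
    fin_cases i <;> fin_cases j <;> simp [dg3, bm, z0, z1]
  have k6 : i ≠ 2 → j ≠ 2 → bm (1 / 10000) e e i j = 1 / 10000 := by
    fin_cases i <;> fin_cases j <;> simp [bm]
  have u1 := un hs (hS i j)
  have u2 := un hs (hD i j)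
  have u3 : |Db i j - dg3 0 0 1 i j| ≤ e := hB i j
  have u4 : |C1 i j - C0 i j| ≤ e * lam ^ 2 := h1 i j
  have u5 := un hs (hC i j)
  have u6 := un (A := C0 - t • C) (D := 0) hs (i := i) (j := j) (e := 1 / 10000)
    (by rw [sub_zero]; exact h0 i j)
  simp only [cm, of_apply, Matrix.zero_apply, zero_mul, sub_zero, Matrix.sub_apply,
    Matrix.smul_apply, smul_eq_mul] at u2 u5 u6 ⊢
  rw [k4]
  have hH := mul_pos (hy i) (hy j)
  have big : ∀ {u v : ℝ}, 0 ≤ u → 0 ≤ v → u ≤ K * ![l1, lam, y'] i → v ≤ K * ![l1, lam, y'] j →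
      e * (u * v) ≤ 1 / 10000 * (![l1, lam, y'] i * ![l1, lam, y'] j) := fun hu hv h1 h2 => by
    have b1 := mul_le_mul_of_nonneg_left (mul_le_mul h1 h2 hv (hu.trans h1)) e0
    have b2 := mul_le_mul_of_nonneg_right he hH.le
    linarith
  have b1 := big (hs i).le (hs j).le (k2 i) (k2 j)
  have b2 := big (p0.le.trans p2) (p0.le.trans p2) (k1 i) (k1 j)
  have b3 := big p0.le p0.le (p2.trans (k1 i)) (p2.trans (k1 j))
  have w1 : |S i j - dg3 (1 / 4 - 3 / 16 * a) (1 / 4 - 3 / 16 * a) 1 i j *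
      (![l1, lam, y] i * ![l1, lam, y] j)| ≤ 1 / 10000 * (![l1, lam, y'] i * ![l1, lam, y'] j) ∧
      |C0 i j - t * (dg3 (3 / 16) (3 / 16) 0 i j * (![l1, lam, y] i * ![l1, lam, y] j))| ≤
      2 / 10000 * (![l1, lam, y'] i * ![l1, lam, y'] j) := by
    by_cases hij : i = 2 ∨ j = 2
    · obtain ⟨c1, c2, c3⟩ := k5 hij
      rw [c1] at u1
      rw [c2, c3]
      exact ⟨u1.trans b1, by simp; positivity⟩
    · push Not at hij
      rw [k6 hij.1 hij.2] at u1
      rw [k3 i hij.1, k3 j hij.2] at u1 u5 u6 ⊢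
      refine ⟨u1, ?_⟩
      have c1 := mul_le_mul (show t ≤ 1 by linarith) u5 (abs_nonneg _) zero_le_one
      rw [← abs_of_nonneg t0, ← abs_mul] at c1
      have c2 := abs_le.1 c1
      have c3 := abs_le.1 u6
      rw [abs_le]; constructor <;> linarith [c2.1, c2.2, c3.1, c3.2]
  have w2 := mul_le_mul θ1 (u2.trans b1) (abs_nonneg _) zero_le_one
  rw [← abs_of_nonneg θ0, ← abs_mul] at w2
  have y0 : 0 ≤ y ^ 2 - y' ^ 2 := sub_nonneg.2 (pow_le_pow_left₀ p3.le p4 2)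
  have w3 := mul_le_mul ((sub_le_self _ (sq_nonneg y')).trans_eq (sq y)) u3 (abs_nonneg _)
    (mul_self_nonneg y)
  rw [← abs_of_nonneg y0, ← abs_mul] at w3
  have c1 := abs_le.1 w1.1
  have c2 := abs_le.1 w1.2
  have c3 := abs_le.1 w2
  have c4 := abs_le.1 w3
  have c5 := abs_le.1 u4
  clear w1 w2 w3 u1 u2 u3 u4 u5 u6 k4 k5 k6 big hS hD hB h1 hC h0 sy
  rw [abs_le]
  generalize ![l1, lam, y'] i * ![l1, lam, y'] j = H' at *
  generalize ![l1, lam, y] i * ![l1, lam, y] j = H at *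
  generalize dg3 (1 / 4 - 3 / 16 * a) (1 / 4 - 3 / 16 * a) 1 i j * H = d1 at *
  generalize dg3 (1 / 32) (1 / 32) 0 i j * H = d2 at *
  generalize dg3 (3 / 16) (3 / 16) 0 i j * H = d3 at *
  generalize y ^ 2 - y' ^ 2 = r at *
  constructor <;> linarith [c1.1, c1.2, c2.1, c2.2, c3.1, c3.2, c4.1, c4.2, c5.1, c5.2]

theorem np_small {N : ℕ} (h : Big N) {a : ℝ} (ha : a ≤ -1 / 100) : np N a ≤ 1 / 10 ^ 6 := by
  refine le_of_log (h.np_pos _) (by norm_num) ?_
  rw [h.log_np, one_div, Real.log_inv, Real.log_pow]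
  have := mul_le_mul_of_nonneg_right ha h.J_pos.le
  push_cast
  linarith [h.J_ge, h.L_ge, log10_bd.2]

theorem eSm_le {c : Pm} (h : Gd c) : c.eSm ≤ 4 / 10 ^ 6 := by
  have h1 : c.eHi ≤ 1 / 10 ^ 6 := np_small h.big (by linarith [(rmp_mem (etaS c.N / 10) c.η).1])
  have h2 : c.eLo ≤ 1 / 10 ^ 6 := np_small h.big (by linarith [(rmp_mem (c.thr / 2) c.η).1])
  have h3 : (6 / 10 : ℝ) ^ c.k ≤ 1 := pow_le_one₀ (by norm_num) (by norm_num)
  have h4 : c.eL ≤ 1 := by
    have := mul_le_of_le_one_right h.eHi_pos.le h3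
    unfold Pm.eL; linarith
  have h5 := mul_le_of_le_one_right (h.big.np_pos (-3 / 100)).le h4
  have h6 := np_small h.big (show (-3 / 100 : ℝ) ≤ -1 / 100 by norm_num)
  have h7 := np_small h.big (show (-47 / 100 : ℝ) ≤ -1 / 100 by norm_num)
  have h8 := np_small h.big (show (-55 / 10 : ℝ) ≤ -1 / 100 by norm_num)
  unfold Pm.eSm
  split_ifs <;> linarith

theorem t1_le {c : Pm} (h : Gd c) : c.t11 ≤ 1 / 10 ^ 6 ∧ c.t12 ≤ 1 / 10 ^ 6 := by
  have h1 := np_small h.big (show (-4 / 10 : ℝ) ≤ -1 / 100 by norm_num)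
  have h2 : 10000000 ≤ c.q := h.big.q_ge
  have h3 : 1 / c.q ≤ 1 / 10 ^ 6 := one_div_le_one_div_of_le (by norm_num) (by linarith)
  have h4 : c.b2 / c.q ≤ 1 / c.q := div_le_div_of_nonneg_right (by linarith [h.b2_le]) h.q_pos.le
  unfold Pm.t11 Pm.t12
  constructor <;> split_ifs <;> linarith

theorem np_le_sJ {N : ℕ} (h : Big N) {a : ℝ} (ha : a ≤ -1 / 100) :
    2 * np N a ≤ 1 / Real.sqrt (pJ N) := by
  have := h.np_pos a; have := h.sqrtJ_pos
  refine le_of_log (by positivity) (by positivity) ?_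
  rw [Real.log_mul two_ne_zero (h.np_pos a).ne', h.log_np, one_div, Real.log_inv, h.log_sqrtJ]
  have := mul_le_mul_of_nonneg_right ha h.J_pos.le
  linarith [h.J_ge, h.L_ge, log2_bd.2]

theorem zT_le {c : Pm} (h : Gd c) : c.zT ≤ 1 / Real.sqrt c.J := by
  unfold Pm.zT
  split_ifs
  exacts [np_le_sJ h.big (by norm_num), le_rfl]

theorem sJ_le {N : ℕ} (h : Big N) : 3 / Real.sqrt (pJ N) ≤ 1 / 100 := by
  have : 300 ≤ Real.sqrt (pJ N) := Real.le_sqrt_of_sq_le (by linarith [h.J_ge, h.L_ge])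
  rw [div_le_iff₀ h.sqrtJ_pos]; linarith

theorem sq_le {N : ℕ} (h : Big N) : 1 / Real.sqrt (pq N) ≤ 1 / 10000 := by
  refine one_div_le_one_div_of_le (by norm_num) (le_of_log (by norm_num) h.sqrtq_pos ?_)
  rw [h.log_sqrtq]
  linarith [h.L_ge, (logc_bd (show (1 : ℝ) ≤ 10000 by norm_num)).2]

theorem lam_le_y {c : Pm} (h : Gd c) : c.lam ≤ c.y :=
  le_mul_of_one_le_left h.lam_pos.le ((np_zero c.N).ge.trans (h.big.np_le (by norm_num)))

theorem lam_le_hs {c : Pm} (h : Gd c) (i : Fin 3) : c.lam ≤ c.hs i := by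
  fin_cases i
  exacts [h.lam_le_l1, le_rfl, lam_le_y h]

theorem hs_le_y {c : Pm} (h : Gd c) (i : Fin 3) : c.hs i ≤ c.y := by
  fin_cases i
  · refine mul_le_mul_of_nonneg_right (le_of_log h.ro_pos (h.big.np_pos _) ?_) h.lam_pos.le
    rw [h.big.log_np]
    linarith [h.log_ro_bd.2, h.big.L_ge, h.big.J_ge]
  exacts [lam_le_y h, le_rfl]

theorem one_le_sqJ {c : Pm} (h : Gd c) : 1 ≤ Real.sqrt (c.q * c.J) := by
  have h1 : 10000000 ≤ c.q := h.big.q_ge
  have h2 : c.q ≤ c.J := h.big.q_le_J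
  exact Real.le_sqrt_of_sq_le (by nlinarith)

theorem y_le_D {c : Pm} (h : Gd c) : 54000 * (Real.sqrt (c.q * c.J) * c.y) ≤ c.D := by
  have := h.q_pos; have := h.J_pos; have := h.y_pos
  refine le_of_log (by positivity) h.D_pos ?_
  simp (disch := positivity) only [Real.log_mul, Real.log_sqrt, h.log_q, h.log_J, h.log_y, h.log_D]
  linarith [Real.log_le_log h.lam_pos h.lam_le_lb, h.big.L_ge, h.big.J_ge,
    (logc_bd (show (1 : ℝ) ≤ 54000 by norm_num)).2]

end KlsA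

open KlsA

theorem kls : KlsStmt := by
  filter_upwards [ev_big] with N hN d hd _ hi
  subst hd
  rintro s ⟨s0, g0, cl⟩
  have g : Gd d.c := ⟨hN, hi.ok⟩
  have hU : ∀ x i, |s.U x i| ≤ 2 * Real.sqrt (d.c.q * d.c.J) * d.c.hs i := fun x i => by
    have h1 := (g0.ub x).1 i
    have h2 := (abs_le_norm (s.U x - s0.U x) i).trans (cl.cl x).1
    have h3 := abs_sub_abs_le_abs_sub (s.U x i) (s0.U x i)
    have h4 := mul_le_of_le_one_left g.lam_pos.le
      ((np_small hN (show (-270 : ℝ) ≤ -1 / 100 by norm_num)).trans (by norm_num))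
    have h5 := le_mul_of_one_le_left (g.hs_pos i).le (one_le_sqJ g)
    rw [Pi.sub_apply] at h2
    linarith [lam_le_hs g i]
  have hJ : ∀ x ∈ d.R (99 / 100),
      EB (jm (fun w => d.Z w + s.U w) x - 1) (cm (3 / Real.sqrt d.c.J)) := fun x hx i j => by
    have h1 : |jm d.Z x i j - (1 : Mx) i j| ≤ d.c.zT := (hi.zb x hx).1 i j
    have h2 : |jm s0.U x i j| ≤ 1 / Real.sqrt d.c.J := (g0.ub x).2.1 i j
    have h3 : |jm s.U x i j - jm s0.U x i j| ≤ np d.c.N (-270) := (cl.cl x).2.1 i j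
    have h4 : 2 * np d.c.N (-270) ≤ 1 / Real.sqrt d.c.J := np_le_sJ hN (by norm_num)
    have h5 := zT_le g
    have h6 : 3 / Real.sqrt d.c.J = 3 * (1 / Real.sqrt d.c.J) := by ring
    rw [jm_add hi.sZ cl.sm.1]
    show |jm d.Z x i j + jm s.U x i j - (1 : Mx) i j| ≤ 3 / Real.sqrt d.c.J
    rw [abs_le] at h1 h2 h3 ⊢
    constructor <;> linarith [h1.1, h1.2, h2.1, h2.2, h3.1, h3.2, hN.np_pos (-270)]
  refine ⟨fun x hx => ⟨hJ x hx, ?_, hU x⟩, fun a A ma ba sa => ?_⟩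
  · have h1 : ‖s.U x‖ ≤ 2 * Real.sqrt (d.c.q * d.c.J) * d.c.y := norm_le_of fun i =>
      (hU x i).trans (mul_le_mul_of_nonneg_left (hs_le_y g i) (by positivity))
    have h2 := orth_norm_le hi.ort (s.U x)
    have h3 := norm_add_le (d.O *ᵥ (d.Z x - x)) (d.O *ᵥ s.U x)
    rw [← mulVec_add, sub_add_eq_add_sub] at h3
    linarith [(hi.zb x hx).2, y_le_D g]
  have key : ∀ θ y' : ℝ, 0 ≤ θ → θ ≤ 1 → np d.c.N (-3 / 2) * d.c.y ≤ y' → y' ≤ d.c.y →
      KL (d.c.hy y') (d.R (99 / 100)) a A (fun x => d.Z x + s.U x)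
        (fun x => d.S x - θ • d.Dl x - (d.c.y ^ 2 - y' ^ 2) • d.Db x - s.C x) := by
    intro θ y' θ0 θ1 y1 y2
    have y0 : 0 < y' := (mul_pos (hN.np_pos _) g.y_pos).trans_le y1
    refine ⟨fun i => ?_, RX_convex _ _ _, RX_compact hi.ort _ _, ma, ba,
      fun x hx => sa x fun hc => hx (RX_mono _ g.D_pos.le (by norm_num) hc),
      (hi.sZ.add cl.sm.1).of_le (by simp), fun x hx i j => (hJ x hx i j).trans (sJ_le hN),
      fun i j => ?_, fun x hx => ?_⟩
    · fin_cases i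
      exacts [g.l1_pos, g.lam_pos, y0]
    · have c1 := (hi.sS.1 i j).continuous
      have c2 := hi.sD.1 i j
      have c3 := hi.sD.2.1 i j
      have c4 := (cl.sm.2.1 i j).continuous
      simp only [Matrix.sub_apply, Matrix.smul_apply, smul_eq_mul]
      fun_prop
    obtain ⟨b, b0, b1, hb⟩ := hi.sb x hx
    obtain ⟨τ, τ0, τ1, hτ⟩ := g0.cb
    have n1 : np d.c.N (-20) ≤ np d.c.N (-15) := hN.np_le (by norm_num)
    have n2 : np d.c.N (-270) ≤ np d.c.N (-15) := hN.np_le (by norm_num)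
    refine pd_main (K := np d.c.N (3 / 2)) (e := np d.c.N (-15)) (a := b) (t := τ * d.α x ^ 2)
      (C := d.C x) (C0 := s0.C x) g.lam_pos g.lam_le_l1 (lam_le_y g) y0 y2 ?_
      (mul_le_mul_of_nonneg_right (hN.np_le (by norm_num)) g.lam_pos.le) (hN.np_pos _).le ?_ b0
      (by positivity) (by linarith [mul_le_of_le_one_left (sq_nonneg (d.α x)) τ1]) θ0 θ1 ?_ (fun i j => (hb i j).trans ?_)
      (fun i j => ((hi.db x hx).2 i j).trans n1) (fun i j => ((hi.db x hx).1 i j).trans n1)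
      (fun i j => ((cl.cl x).2.2.1 i j).trans (mul_le_mul_of_nonneg_right n2 (sq_nonneg _)))
      (fun i j => (hi.cb x hx i j).trans ?_) (fun i j => (hτ x hx i j).trans ?_)
      (g0.sup x).2.2.1 (g0.sup x).2.2.2
    · have h1 := mul_le_mul_of_nonneg_left y1 (hN.np_pos (3 / 2)).le
      rwa [← mul_assoc, ← hN.np_add, show (3 / 2 + -3 / 2 : ℝ) = 0 by norm_num, np_zero,
        one_mul] at h1
    · rw [sq, ← hN.np_add, ← hN.np_add]
      exact (np_small hN (by norm_num)).trans (by norm_num)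
    · simp only [transpose_sub, transpose_smul, hi.sS.2, (hi.sD.2.2 x).1, (hi.sD.2.2 x).2,
        (cl.sup x).2]
    · have : 1 / Real.sqrt d.c.q ≤ 1 / 10000 := sq_le hN
      fin_cases i <;> fin_cases j <;> first | exact this | exact le_rfl
    · have h1 := (t1_le g).1
      have h2 := (t1_le g).2
      fin_cases i <;> fin_cases j <;> simp [cm] <;> linarith
    · show 2 * d.c.eSm ≤ 1 / 10000
      linarith [eSm_le g]
  have y0 : np d.c.N (-3 / 2) * d.c.y ≤ d.c.y :=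
    mul_le_of_le_one_left g.y_pos.le ((np_small hN (by norm_num)).trans (by norm_num))
  refine ⟨?_, fun y' hy => ?_, ?_⟩
  · have := key 0 d.c.y le_rfl zero_le_one y0 le_rfl
    simp only [zero_smul, sub_self, sub_zero] at this
    exact this
  · have y1 : y' ≤ d.c.y := by linarith [hy.2, g.y_pos]
    have := key 1 y' zero_le_one le_rfl
      ((mul_le_mul_of_nonneg_right (hN.np_le (by norm_num)) g.y_pos.le).trans hy.1) y1
    simp only [one_smul] at this
    exact this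
  · have := key 0 d.yL le_rfl zero_le_one hi.yl.1 hi.yl.2
    simp only [zero_smul, sub_zero] at this
    exact this

end
end Pool.Agent.MP_20bec2_an.T3

end MrgPart0

-- ======== part 1: formerly Pool.Agent.MP_20bec2_an.T3.GbA
section MrgPart1

/-! Row GB, part A: square integrals of lateral derivatives of full columns. -/

set_option autoImplicit false
open MeasureTheory Set Filter Matrix

namespace Pool.Agent.MP_20bec2_an.T3
noncomputable section
open Classical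

namespace GbP

attribute [local irreducible] LL

/-- the parts of the column tool box that are used for full columns -/
structure CK (C : ℝ) (h : V) (n : ℝ → V) : Prop where
  one : 1 ≤ C
  hh : ∀ i, 0 < h i
  cn : Continuous n
  rep : ∀ (b : V → ℝ) (Bc : ℝ), Sm b → BdD b → CB 6 h univ b Bc → ∀ U a A Z S, KL h U a A Z S →
    Sm (tot n fun z => b z * dens a Z S z) ∧ ∀ l ∈ LL 6, ∀ w,
      Integrable (fun x => a x * pds l (tot n fun z => b z * ker (S x) (Z x - z)) w) ∧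
      pds l (tot n fun z => b z * dens a Z S z) w =
        ∫ x, a x * pds l (tot n fun z => b z * ker (S x) (Z x - z)) w
  ev : ∀ (b : V → ℝ) (Bc : ℝ), Sm b → BdD b → CB 6 h univ b Bc → ∀ S v, PD h S → ∀ l ∈ LL 6, ∀ w,
    hp h l * |pds l (tot n fun z => b z * ker S (v - z)) w| ≤
      C * Bc * tot n (indicator (tsupport b) fun z => env h (v - z)) w
  cl : ∀ (I : Set ℝ) (v w : V), colI n I (fun z => env h (v - z)) w ≤
    C / (h 0 * h 1) * Real.exp (-lat2 h (cin n v - w) / 60)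
  fub : ∀ g : V → ℝ, Integrable g → Integrable (fun w : ℝ × ℝ => tot n g ![w.1, w.2, 0]) ∧
    ∫ w : ℝ × ℝ, tot n g ![w.1, w.2, 0] = ∫ z, g z
  ie : ∀ v, Integrable (fun z => env h (v - z)) ∧ ∫ z, env h (v - z) ≤ C
  slab : ∀ (U : Set V) (Z : V → V) (w : V) (a b : ℝ), Convex ℝ U → IsCompact U → ContDiff ℝ 1 Z →
    (∀ x ∈ U, EB (jm Z x - 1) (cm (1 / 100))) → a ≤ b →
    ∫ x in U ∩ {x | x 2 ∈ Icc a b}, Real.exp (-lat2 h (cin n (Z x) - w) / 240) ≤
      C * (h 0 * h 1) * (b - a)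

theorem ck_of (H : ColkStmt) : ∃ C : ℝ, 1 ≤ C ∧ ∀ (h : V) (n : ℝ → V) (κ : ℝ), (∀ i, 0 < h i) →
    Sm n → (∀ i, i ≠ 2 → (∀ r, |deriv (fun r => n r i) r| ≤ κ) ∧ κ * h 2 ≤ h i / 100) →
    κ ≤ 1 / 1000 → CK C h n := by
  obtain ⟨C, hC, H⟩ := H
  refine ⟨C, hC, fun h n κ hh hn h1 h2 => ?_⟩
  obtain ⟨H1, H3, H4, H5, H6⟩ := H h n κ hh hn h1 h2
  refine ⟨hC, hh, hn.continuous, fun b Bc hb hB hc U a A Z S hK => ?_,
    fun b Bc hb hB hc S v hS l hl w => ?_, fun I v w => ?_, H4, H5,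
    fun U Z w a b k1 k2 k3 k4 k5 => (H6 U Z w a b k1 k2 k3 k4 k5).2.2⟩
  · obtain ⟨-, k1, -, -, k2⟩ := (H1 b Bc univ hb hB hc MeasurableSet.univ).1 U a A Z S hK
    simp only [tot_eq_colI]
    exact ⟨k1, fun l hl w => ((k2 l hl).2.2 w).2⟩
  · simp only [tot_eq_colI]
    exact (H1 b Bc univ hb hB hc MeasurableSet.univ).2 S v hS l hl w
  · simpa using H3 I v w 0 le_rfl fun r _ => abs_nonneg _

variable {C : ℝ} {h : V} {n : ℝ → V}

theorem env_nonneg (hh : ∀ i, 0 < h i) (w : V) : 0 ≤ env h w := by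
  have := hh 0; have := hh 1; have := hh 2
  unfold env; positivity

theorem env_cont (h : V) : Continuous (env h) := by
  unfold env; fun_prop

theorem cpt_cont (hn : Continuous n) : Continuous fun p : (ℝ × ℝ) × ℝ =>
    cpt n ![p.1.1, p.1.2, 0] p.2 := by
  have h0 : Continuous fun r => n r 0 := (continuous_apply 0).comp hn
  have h1 : Continuous fun r => n r 1 := (continuous_apply 1).comp hn
  unfold cpt
  simp only [Matrix.cons_val_zero, Matrix.cons_val_one]
  fun_prop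

/-- the envelope of one column -/
def Kn (h : V) (n : ℝ → V) (s : Set V) (v : V) (w : ℝ × ℝ) : ℝ :=
  tot n (indicator s fun z => env h (v - z)) ![w.1, w.2, 0]

theorem Kn_nonneg (hh : ∀ i, 0 < h i) (s : Set V) (v : V) (w : ℝ × ℝ) : 0 ≤ Kn h n s v w :=
  integral_nonneg fun _ => indicator_nonneg (fun _ _ => env_nonneg hh _) _

theorem Kn_meas (hn : Continuous n) {s : Set V} (hs : IsClosed s) {Z : V → V} (hZ : Continuous Z) :
    StronglyMeasurable fun p : V × (ℝ × ℝ) => Kn h n s (Z p.1) p.2 := by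
  have c1 : Continuous fun p : (V × (ℝ × ℝ)) × ℝ => cpt n ![p.1.2.1, p.1.2.2, 0] p.2 :=
    (cpt_cont hn).comp (f := fun p : (V × (ℝ × ℝ)) × ℝ => (p.1.2, p.2)) (by fun_prop)
  have c2 : Continuous fun p : (V × (ℝ × ℝ)) × ℝ =>
      env h (Z p.1.1 - cpt n ![p.1.2.1, p.1.2.2, 0] p.2) :=
    (env_cont h).comp ((hZ.comp (by fun_prop)).sub c1)
  have m1 : StronglyMeasurable fun p : (V × (ℝ × ℝ)) × ℝ =>
      indicator s (fun z => env h (Z p.1.1 - z)) (cpt n ![p.1.2.1, p.1.2.2, 0] p.2) := by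
    have := c2.stronglyMeasurable.indicator (hs.preimage c1).measurableSet
    convert this using 2 with p
    by_cases hp : cpt n ![p.1.2.1, p.1.2.2, 0] p.2 ∈ s
    · rw [indicator_of_mem hp, indicator_of_mem (by exact hp)]
    · rw [indicator_of_notMem hp, indicator_of_notMem (by exact hp)]
  exact m1.integral_prod_right'

theorem Kn_le (H : CK C h n) {s : Set V} (hs : IsClosed s) (v : V) (w : ℝ × ℝ) :
    Kn h n s v w ≤ C / (h 0 * h 1) * Real.exp (-lat2 h (cin n v - ![w.1, w.2, 0]) / 240) := by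
  have c1 : Continuous fun r : ℝ => cpt n ![w.1, w.2, 0] r :=
    (cpt_cont H.cn).comp (f := fun r : ℝ => (w, r)) (by fun_prop)
  have e : Kn h n s v w = colI n ((fun r : ℝ => cpt n ![w.1, w.2, 0] r) ⁻¹' s)
      (fun z => env h (v - z)) ![w.1, w.2, 0] := by
    rw [colI, ← integral_indicator (hs.preimage c1).measurableSet]
    refine integral_congr_ae (Eventually.of_forall fun r => ?_)
    by_cases hp : cpt n ![w.1, w.2, 0] r ∈ s
    · simp only []
      rw [indicator_of_mem hp, indicator_of_mem (by exact hp)]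
    · simp only []
      rw [indicator_of_notMem hp, indicator_of_notMem (by exact hp)]
  rw [e]
  refine (H.cl _ v _).trans (mul_le_mul_of_nonneg_left (Real.exp_le_exp.2 ?_) ?_)
  · have : 0 ≤ lat2 h (cin n v - ![w.1, w.2, 0]) := by unfold lat2; positivity
    linarith
  · have := H.hh 0; have := H.hh 1; have := H.one; positivity

theorem ind_int (H : CK C h n) {s : Set V} (hs : IsClosed s) (v : V) :
    Integrable (indicator s fun z => env h (v - z)) := (H.ie v).1.indicator hs.measurableSet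

theorem ind_le (H : CK C h n) {s : Set V} (hs : IsClosed s) (v : V) :
    ∫ z, indicator s (fun z => env h (v - z)) z ≤ C :=
  (integral_mono (ind_int H hs v) (H.ie v).1 fun _ =>
    indicator_le_self' (fun _ _ => env_nonneg H.hh _) _).trans (H.ie v).2

variable {U : Set V} {a : V → ℝ} {A : ℝ} {Z : V → V} {S : V → Mx}

theorem a_int (K : KL h U a A Z S) : Integrable fun x => |a x| := by
  have h1 : IntegrableOn (fun _ : V => A) U := integrableOn_const K.cl.measure_lt_top.ne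
  refine ((integrable_indicator_iff K.cl.measurableSet).2 h1).mono'
    K.ma.abs.aestronglyMeasurable (Eventually.of_forall fun x => ?_)
  rw [Real.norm_eq_abs, abs_abs]
  by_cases hx : x ∈ U
  · rw [indicator_of_mem hx]; exact K.ba x
  · rw [indicator_of_notMem hx, K.sa x hx, abs_zero]

theorem prod_int (H : CK C h n) (K : KL h U a A Z S) {s : Set V} (hs : IsClosed s) :
    Integrable (fun p : V × (ℝ × ℝ) => |a p.1| * Kn h n s (Z p.1) p.2) (volume.prod volume) := by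
  have m : StronglyMeasurable fun p : V × (ℝ × ℝ) => |a p.1| * Kn h n s (Z p.1) p.2 :=
    (K.ma.abs.comp measurable_fst).stronglyMeasurable.mul (Kn_meas H.cn hs K.dZ.continuous)
  rw [integrable_prod_iff m.aestronglyMeasurable]
  refine ⟨Eventually.of_forall fun x => (H.fub _ (ind_int H hs (Z x))).1.const_mul |a x|, ?_⟩
  refine ((a_int K).mul_const C).mono' m.norm.integral_prod_right'.aestronglyMeasurable
    (Eventually.of_forall fun x => ?_)
  have e : ∫ w : ℝ × ℝ, ‖|a x| * Kn h n s (Z x) w‖ =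
      |a x| * ∫ z, indicator s (fun z => env h (Z x - z)) z := by
    rw [← (H.fub _ (ind_int H hs (Z x))).2, ← integral_const_mul]
    refine integral_congr_ae (Eventually.of_forall fun w => ?_)
    exact Real.norm_of_nonneg (mul_nonneg (abs_nonneg _) (Kn_nonneg H.hh _ _ _))
  rw [Real.norm_of_nonneg (integral_nonneg fun _ => norm_nonneg _), e]
  exact mul_le_mul_of_nonneg_left (ind_le H hs _) (abs_nonneg _)

theorem sup_le (H : CK C h n) (K : KL h U a A Z S) {s : Set V} (hs : IsClosed s) {lo hi : ℝ}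
    (hl : lo ≤ hi) (hsup : ∀ x, a x ≠ 0 → x 2 ∈ Icc lo hi) (w : ℝ × ℝ) :
    ∫ x, |a x| * Kn h n s (Z x) w ≤ A * C ^ 2 * (hi - lo) := by
  have h0 := H.hh 0
  have h1 := H.hh 1
  have hC := H.one
  have hA : 0 ≤ A := (abs_nonneg _).trans (K.ba 0)
  have hcl : IsClosed {x : V | x 2 ∈ Icc lo hi} := isClosed_Icc.preimage (continuous_apply 2)
  have hcp : IsCompact (U ∩ {x : V | x 2 ∈ Icc lo hi}) := K.cl.inter_right hcl
  have c0 : Continuous fun r => n r 0 := (continuous_apply 0).comp H.cn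
  have c1 : Continuous fun r => n r 1 := (continuous_apply 1).comp H.cn
  have cZ := K.dZ.continuous
  have ce : Continuous fun x => Real.exp (-lat2 h (cin n (Z x) - ![w.1, w.2, 0]) / 240) := by
    unfold lat2 cin
    simp only [Pi.sub_apply, Matrix.cons_val_zero, Matrix.cons_val_one]
    fun_prop
  have hi1 : IntegrableOn (fun x => A * (C / (h 0 * h 1)) *
      Real.exp (-lat2 h (cin n (Z x) - ![w.1, w.2, 0]) / 240)) (U ∩ {x : V | x 2 ∈ Icc lo hi}) :=
    (continuous_const.mul ce).continuousOn.integrableOn_compact hcp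
  calc ∫ x, |a x| * Kn h n s (Z x) w
      ≤ ∫ x, indicator (U ∩ {x : V | x 2 ∈ Icc lo hi}) (fun x => A * (C / (h 0 * h 1)) *
        Real.exp (-lat2 h (cin n (Z x) - ![w.1, w.2, 0]) / 240)) x := by
        refine integral_mono_of_nonneg (Eventually.of_forall fun x =>
          mul_nonneg (abs_nonneg _) (Kn_nonneg H.hh _ _ _))
          ((integrable_indicator_iff hcp.measurableSet).2 hi1) (Eventually.of_forall fun x => ?_)
        by_cases hx : a x = 0
        · simp only [hx, abs_zero, zero_mul]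
          exact indicator_nonneg (fun _ _ => by positivity) _
        · have hx' : x ∈ U ∩ {x : V | x 2 ∈ Icc lo hi} :=
            ⟨by_contra fun k => hx (K.sa x k), hsup x hx⟩
          simp only []
          rw [indicator_of_mem hx', mul_assoc]
          exact mul_le_mul (K.ba x) (Kn_le H hs _ _) (Kn_nonneg H.hh _ _ _) hA
    _ = A * (C / (h 0 * h 1)) * ∫ x in U ∩ {x : V | x 2 ∈ Icc lo hi},
        Real.exp (-lat2 h (cin n (Z x) - ![w.1, w.2, 0]) / 240) := by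
        rw [integral_indicator hcp.measurableSet, integral_const_mul]
    _ ≤ A * (C / (h 0 * h 1)) * (C * (h 0 * h 1) * (hi - lo)) :=
        mul_le_mul_of_nonneg_left (H.slab U Z _ lo hi K.cx K.cl K.dZ K.bZ hl) (by positivity)
    _ = A * C ^ 2 * (hi - lo) := by field_simp

variable {b : V → ℝ} {Bc : ℝ} {l : List (Fin 3)}

theorem pt_le (H : CK C h n) (K : KL h U a A Z S) (hb : Sm b) (hB : BdD b) (hc : CB 6 h univ b Bc)
    (hl : l ∈ LL 6) (w : ℝ × ℝ) (hw : Integrable fun x => |a x| * Kn h n (tsupport b) (Z x) w) :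
    |hp h l * pds l (tot n fun z => b z * dens a Z S z) ![w.1, w.2, 0]| ≤
      C * Bc * ∫ x, |a x| * Kn h n (tsupport b) (Z x) w := by
  rw [((H.rep b Bc hb hB hc U a A Z S K).2 l hl _).2, ← integral_const_mul, ← integral_const_mul,
    ← Real.norm_eq_abs]
  refine norm_integral_le_of_norm_le (hw.const_mul _) (Eventually.of_forall fun x => ?_)
  by_cases hx : x ∈ U
  · have := H.ev b Bc hb hB hc (S x) (Z x) (K.bS x hx) l hl ![w.1, w.2, 0]
    rw [Real.norm_eq_abs, abs_mul, abs_mul, abs_of_pos (hp_pos H.hh l), mul_left_comm,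
      mul_left_comm (C * Bc)]
    exact mul_le_mul_of_nonneg_left this (abs_nonneg _)
  · simp [K.sa x hx]

/-- one cell -/
theorem one (H : CK C h n) (K : KL h U a A Z S) (hb : Sm b) (hB : BdD b) (hc : CB 6 h univ b Bc)
    (hl : l ∈ LL 6) {lo hi : ℝ} (hlo : lo ≤ hi) (hsup : ∀ x, a x ≠ 0 → x 2 ∈ Icc lo hi) :
    Integrable (fun w : ℝ × ℝ =>
      (hp h l * pds l (tot n fun z => b z * dens a Z S z) ![w.1, w.2, 0]) ^ 2) ∧
    Integrable (fun x => |a x| * ∫ z, indicator (tsupport b) (fun z => env h (Z x - z)) z) ∧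
    ∫ w : ℝ × ℝ, (hp h l * pds l (tot n fun z => b z * dens a Z S z) ![w.1, w.2, 0]) ^ 2 ≤
      C * Bc * (A * C ^ 2 * (hi - lo)) * (C * Bc *
        ∫ x, |a x| * ∫ z, indicator (tsupport b) (fun z => env h (Z x - z)) z) := by
  have hs : IsClosed (tsupport b) := isClosed_tsupport b
  have hP := prod_int H K hs
  have hBc : 0 ≤ Bc := hc.nonneg (mem_univ 0)
  have hC := H.one
  have e : ∀ x, ∫ w : ℝ × ℝ, |a x| * Kn h n (tsupport b) (Z x) w =
      |a x| * ∫ z, indicator (tsupport b) (fun z => env h (Z x - z)) z := fun x => by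
    rw [← (H.fub _ (ind_int H hs (Z x))).2, ← integral_const_mul]; rfl
  have i1 : Integrable fun w : ℝ × ℝ => C * Bc * (A * C ^ 2 * (hi - lo)) *
      (C * Bc * ∫ x, |a x| * Kn h n (tsupport b) (Z x) w) :=
    (hP.integral_prod_right.const_mul _).const_mul _
  have b1 : ∀ᵐ w : ℝ × ℝ,
      (hp h l * pds l (tot n fun z => b z * dens a Z S z) ![w.1, w.2, 0]) ^ 2 ≤
      C * Bc * (A * C ^ 2 * (hi - lo)) * (C * Bc * ∫ x, |a x| * Kn h n (tsupport b) (Z x) w) := by
    filter_upwards [hP.prod_left_ae] with w hw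
    have k1 := pt_le H K hb hB hc hl w hw
    have k2 := k1.trans (mul_le_mul_of_nonneg_left (sup_le H K hs hlo hsup w) (by positivity))
    rw [← sq_abs, sq]
    exact mul_le_mul k2 k1 (abs_nonneg _) ((abs_nonneg _).trans k2)
  have c1 : Continuous fun w : ℝ × ℝ =>
      (hp h l * pds l (tot n fun z => b z * dens a Z S z) ![w.1, w.2, 0]) ^ 2 :=
    (continuous_const.mul
      (((H.rep b Bc hb hB hc U a A Z S K).1.pds l).continuous.comp (by fun_prop))).pow 2
  refine ⟨i1.mono' c1.aestronglyMeasurable ?_, ?_, ?_⟩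
  · filter_upwards [b1] with w hw
    rwa [Real.norm_of_nonneg (sq_nonneg _)]
  · simpa only [e] using hP.integral_prod_left
  · refine (integral_mono_of_nonneg (Eventually.of_forall fun _ => sq_nonneg _) i1 b1).trans_eq ?_
    rw [integral_const_mul, integral_const_mul, ← integral_integral_swap
      (f := fun x (w : ℝ × ℝ) => |a x| * Kn h n (tsupport b) (Z x) w) hP]
    simp only [e]

theorem a_le (K : KL h U a A Z S) {ce W : V} (hW : ∀ i, 0 ≤ W i)
    (hsup : ∀ x, a x ≠ 0 → ∀ i, |x i - ce i| ≤ W i) : ∫ x, |a x| ≤ A * (8 * (W 0 * W 1 * W 2)) := by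
  have hA : 0 ≤ A := (abs_nonneg _).trans (K.ba 0)
  have hle : ce - W ≤ ce + W := fun i => by
    have := hW i
    simp only [Pi.sub_apply, Pi.add_apply]; linarith
  have h1 : IntegrableOn (fun _ : V => A) (Icc (ce - W) (ce + W)) :=
    integrableOn_const isCompact_Icc.measure_lt_top.ne
  calc ∫ x, |a x| ≤ ∫ x, indicator (Icc (ce - W) (ce + W)) (fun _ => A) x := by
        refine integral_mono (a_int K) ((integrable_indicator_iff measurableSet_Icc).2 h1)
          fun x => ?_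
        by_cases hx : a x = 0
        · simp only [hx, abs_zero]
          exact indicator_nonneg (fun _ _ => hA) _
        · have hx' : x ∈ Icc (ce - W) (ce + W) := by
            refine ⟨fun i => ?_, fun i => ?_⟩
            · have := (abs_le.1 (hsup x hx i)).1
              simp only [Pi.sub_apply]; linarith
            · have := (abs_le.1 (hsup x hx i)).2
              simp only [Pi.add_apply]; linarith
          simp only []
          rw [indicator_of_mem hx']; exact K.ba x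
    _ = A * (8 * (W 0 * W 1 * W 2)) := by
        rw [integral_indicator_const _ measurableSet_Icc, Measure.real,
          Real.volume_Icc_pi_toReal hle, Fin.prod_univ_three, smul_eq_mul]
        simp only [Pi.sub_apply, Pi.add_apply]; ring

/-- a family of cells with bounded overlap -/
theorem fam {ι : Type} (T : Finset ι) {ch : ι → ℝ → V} {bb : ι → V → ℝ} (hC : 1 ≤ C)
    (H0 : CK C h n) (H : ∀ g, CK C h (ch g)) (K : KL h U a A Z S) (hb : ∀ g, Sm (bb g))
    (hB : ∀ g, BdD (bb g)) (hBc : 0 ≤ Bc) (hc : ∀ g, CB 6 h univ (bb g) Bc)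
    (hm : ∀ z, ((T.filter fun g => z ∈ tsupport (bb g)).card : ℝ) ≤ 8) (hl : l ∈ LL 6)
    {ce W : V} (hW : ∀ i, 0 ≤ W i) (hsup : ∀ x, a x ≠ 0 → ∀ i, |x i - ce i| ≤ W i) :
    (∀ g, Integrable fun w : ℝ × ℝ =>
      (hp h l * pds l (tot (ch g) fun z => bb g z * dens a Z S z) ![w.1, w.2, 0]) ^ 2) ∧
    ∑ g ∈ T, ∫ w : ℝ × ℝ,
      (hp h l * pds l (tot (ch g) fun z => bb g z * dens a Z S z) ![w.1, w.2, 0]) ^ 2 ≤
      128 * C ^ 5 * Bc ^ 2 * A ^ 2 * (W 0 * W 1 * W 2 ^ 2) := by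
  have hA : 0 ≤ A := (abs_nonneg _).trans (K.ba 0)
  have hW2 := hW 2
  have hlo : ce 2 - W 2 ≤ ce 2 + W 2 := by linarith
  have hs : ∀ x, a x ≠ 0 → x 2 ∈ Icc (ce 2 - W 2) (ce 2 + W 2) := fun x hx => by
    have := abs_le.1 (hsup x hx 2)
    constructor <;> linarith
  have k := fun g => one (H g) K (hb g) (hB g) (hc g) hl hlo hs
  refine ⟨fun g => (k g).1, (Finset.sum_le_sum fun g _ => (k g).2.2).trans ?_⟩
  have k1 : ∀ v, ∑ g ∈ T, ∫ z, indicator (tsupport (bb g)) (fun z => env h (v - z)) z ≤ 8 * C := by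
    intro v
    rw [← integral_finsetSum _ fun g _ => ind_int H0 (isClosed_tsupport _) v]
    refine (integral_mono (integrable_finsetSum _ fun g _ => ind_int H0 (isClosed_tsupport _) v)
      ((H0.ie v).1.const_mul 8) fun z => ?_).trans ?_
    · simp only [indicator_apply]
      rw [← Finset.sum_filter, Finset.sum_const, nsmul_eq_mul]
      exact mul_le_mul_of_nonneg_right (hm z) (env_nonneg H0.hh _)
    · rw [integral_const_mul]
      linarith [(H0.ie v).2]
  have k2 : ∑ g ∈ T, ∫ x, |a x| * ∫ z, indicator (tsupport (bb g)) (fun z => env h (Z x - z)) z ≤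
      A * (8 * (W 0 * W 1 * W 2)) * (8 * C) := by
    rw [← integral_finsetSum _ fun g _ => (k g).2.1]
    refine (integral_mono (integrable_finsetSum _ fun g _ => (k g).2.1)
      ((a_int K).mul_const (8 * C)) fun x => ?_).trans ?_
    · simp only [← Finset.mul_sum]
      exact mul_le_mul_of_nonneg_left (k1 _) (abs_nonneg _)
    · rw [integral_mul_const]
      exact mul_le_mul_of_nonneg_right (a_le K hW hsup) (by positivity)
  rw [← Finset.mul_sum, ← Finset.mul_sum]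
  refine (mul_le_mul_of_nonneg_left (mul_le_mul_of_nonneg_left k2 (by positivity))
    (mul_nonneg (by positivity) (mul_nonneg (by positivity) (by linarith)))).trans_eq (by ring)

/-- additivity in the weight -/
theorem add {a1 a2 : V → ℝ} {A1 A2 : ℝ} (H : CK C h n) (K : KL h U a A Z S) (K1 : KL h U a1 A1 Z S)
    (K2 : KL h U a2 A2 Z S) (e : ∀ x, a x = a1 x + a2 x) (hb : Sm b) (hB : BdD b)
    (hc : CB 6 h univ b Bc) (hl : l ∈ LL 6) (w : V) :
    pds l (tot n fun z => b z * dens a Z S z) w =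
      pds l (tot n fun z => b z * dens a1 Z S z) w + pds l (tot n fun z => b z * dens a2 Z S z) w := by
  obtain ⟨i1, e1⟩ := (H.rep b Bc hb hB hc U a1 A1 Z S K1).2 l hl w
  obtain ⟨i2, e2⟩ := (H.rep b Bc hb hB hc U a2 A2 Z S K2).2 l hl w
  rw [((H.rep b Bc hb hB hc U a A Z S K).2 l hl w).2, e1, e2, ← integral_add i1 i2]
  simp only [e, add_mul]

theorem sq_add {f f1 f2 : ℝ × ℝ → ℝ} (e : ∀ w, f w = f1 w + f2 w)
    (h1 : Integrable fun w => f1 w ^ 2) (h2 : Integrable fun w => f2 w ^ 2) :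
    ∫ w, f w ^ 2 ≤ 2 * (∫ w, f1 w ^ 2) + 2 * ∫ w, f2 w ^ 2 := by
  rw [← integral_const_mul, ← integral_const_mul, ← integral_add (h1.const_mul 2) (h2.const_mul 2)]
  refine integral_mono_of_nonneg (Eventually.of_forall fun _ => sq_nonneg _)
    ((h1.const_mul 2).add (h2.const_mul 2)) (Eventually.of_forall fun w => ?_)
  simp only [e]
  nlinarith [sq_nonneg (f1 w - f2 w)]

end GbP

end
end Pool.Agent.MP_20bec2_an.T3

end MrgPart1

-- ======== part 2: formerly Pool.Agent.MP_20bec2_an.T3.Gb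
section MrgPart2

/-! Row GB: crude bound of the Hilbert norm of one window. -/

set_option autoImplicit false
open MeasureTheory Set Filter Matrix

namespace Pool.Agent.MP_20bec2_an.T3
noncomputable section
open Classical

namespace GbP

attribute [local irreducible] LL

/-- an admissible displacement of relative size `A` -/
structure Adm (d : MD) (v : V → V) (A : ℝ) : Prop where
  ms : Continuous v
  bd : ∀ x i, |v x i| ≤ A * d.c.hs i
  sp : ∀ x, x ∉ d.R (93 / 100) → v x = 0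

/-- the tools for one cube and one state -/
structure Tl (C Bc : ℝ) (d : MD) (s : Sa) : Prop where
  gd : Gd d.c
  rho : Rho d.ρ
  c1 : ∀ g, CK C d.c.hs (d.ch g)
  c2 : CK C (d.c.hy d.yL) 0
  cb : ∀ g, CB 6 d.c.hs univ (d.c.bc g) Bc
  b1 : 1 ≤ Bc
  kl : ∀ (a : V → ℝ) (A : ℝ), Measurable a → (∀ x, |a x| ≤ A) →
    (∀ x, x ∉ d.R (93 / 100) → a x = 0) →
    KL d.c.hs (d.R (99 / 100)) a A (fun x => d.Z x + s.U x) (fun x => d.S x - s.C x) ∧
    KL (d.c.hy d.yL) (d.R (99 / 100)) a A (fun x => d.Z x + s.U x) (fun x => d.SL x - s.C x)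

/-- the weight of a component of the flux -/
def wt (d : MD) (v : V → V) (i : Fin 3) (x : V) : ℝ := -(d.ρ x * v x i)
def on (_ : Unit) (_ : V) : ℝ := 1

variable {C Bc A : ℝ} {d : MD} {s : Sa} {v : V → V}

theorem Fv_eq (d : MD) (S : V → Mx) (s : Sa) (v : V → V) (z : V) (i : Fin 3) :
    d.Fv S s v z i = dens (wt d v i) (fun x => d.Z x + s.U x) (fun x => S x - s.C x) z := by
  simp only [MD.Fv, dens, wt, neg_mul, integral_neg]

theorem cf_eq (d : MD) (s : Sa) (v : V → V) (g : Cu) (i : Fin 3) :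
    d.c.cf g (d.Fv d.S s v) i = fun z => d.c.bc g z *
      dens (wt d v i) (fun x => d.Z x + s.U x) (fun x => d.S x - s.C x) z :=
  funext fun z => by rw [Pm.cf, Fv_eq]

theorem sl_eq (d : MD) (s : Sa) (v : V → V) (i : Fin 3) :
    (fun z => d.Fv d.SL s v z i) = fun z => on () z *
      dens (wt d v i) (fun x => d.Z x + s.U x) (fun x => d.SL x - s.C x) z :=
  funext fun z => by rw [Fv_eq, on, one_mul]

theorem hp_lat (c : Pm) (y' : ℝ) {n : ℕ} {l : List (Fin 3)} (hl : l ∈ LL n) :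
    hp c.hs l = hp (c.hy y') l := by
  unfold hp
  congr 1
  refine List.map_congr_left fun i hi => ?_
  have := LL_lat hl i hi
  fin_cases i
  · rfl
  · rfl
  · exact absurd rfl this

theorem Tl.kw (T : Tl C Bc d s) (H : Adm d v A) (i : Fin 3) :
    KL d.c.hs (d.R (99 / 100)) (wt d v i) (2 * (A * d.c.hs i)) (fun x => d.Z x + s.U x)
      (fun x => d.S x - s.C x) ∧
    KL (d.c.hy d.yL) (d.R (99 / 100)) (wt d v i) (2 * (A * d.c.hs i)) (fun x => d.Z x + s.U x)
      (fun x => d.SL x - s.C x) := by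
  refine T.kl _ _ (T.rho.1.mul ((continuous_apply i).comp H.ms).measurable).neg (fun x => ?_)
    fun x hx => by simp [wt, H.sp x hx]
  have h1 := abs_le.1 (T.rho.2 x)
  have h2 : |d.ρ x| ≤ 2 := by
    unfold eps0 at h1
    rw [abs_le]; constructor <;> linarith [h1.1, h1.2]
  rw [wt, abs_neg, abs_mul]
  exact mul_le_mul h2 (H.bd x i) (abs_nonneg _) (by norm_num)

theorem bc_bdd (h : Gd d.c) (g : Cu) : BdD (d.c.bc g) :=
  BdD.of_compact (Prof.bc_sm _ g) (Prof.bc_hcs h.cw_pos g)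

theorem bc_mult (c : Pm) (T : Finset Cu) (z : V) :
    ((T.filter fun g => z ∈ tsupport (c.bc g)).card : ℝ) ≤ 8 := by
  have h1 : (T.filter fun g => z ∈ tsupport (c.bc g)) ⊆ Prof.nbs fun i => z i / c.cw i := by
    intro g hg
    have hc : IsClosed {w : V | ∀ i, |w i / c.cw i - g i| ≤ 9 / 10} := by
      rw [ofPred_forall]
      exact isClosed_iInter fun i => isClosed_le (by fun_prop) continuous_const
    have h2 := closure_minimal (s := Function.support (c.bc g))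
      (fun w hw i => (Prof.bc_supp hw i).le) hc (Finset.mem_filter.1 hg).2
    exact Prof.mem_nbs_of_lt fun i => (h2 i).trans_lt (by norm_num)
  have h3 := Finset.card_le_card h1
  rw [Prof.card_nbs] at h3
  exact_mod_cast h3

theorem sq2_nonneg (h : Gd d.c) (l : List (Fin 3)) (i : Fin 3) (G : V → ℝ) : 0 ≤ d.sq2 l i G := by
  have := h.l1_pos; have := h.lam_pos
  exact div_nonneg (integral_nonneg fun _ => sq_nonneg _) (by positivity)

theorem one_le_J (h : Gd d.c) : 1 ≤ pJ d.c.N := by linarith [h.big.J_ge, h.big.L_ge]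

theorem one_le_wl (h : Gd d.c) (l : List (Fin 3)) : 1 ≤ d.wl l ^ 2 := by
  refine one_le_pow₀ ?_
  unfold MD.wl
  split_ifs
  · exact one_le_pow₀ (one_le_J h)
  · exact le_rfl

theorem wt_sup {ce W : V} (hsup : ∀ x, v x ≠ 0 → ∀ i, |x i - ce i| ≤ W i) (j : Fin 3) :
    ∀ x, wt d v j x ≠ 0 → ∀ i, |x i - ce i| ≤ W i := fun x hx =>
  hsup x fun e => hx (by simp [wt, e])

theorem sc_eq (h : Gd d.c) (i : Fin 3) (W : V) :
    128 * C ^ 5 * Bc ^ 2 * (2 * (A * d.c.hs i)) ^ 2 * (W 0 * W 1 * W 2 ^ 2) /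
      (d.c.hs i ^ 2 * (d.c.l1 * d.c.lam)) =
    512 * C ^ 5 * Bc ^ 2 * A ^ 2 * (W 0 / d.c.l1 * (W 1 / d.c.lam) * W 2 ^ 2) := by
  have := h.l1_pos; have := h.lam_pos; have := h.hs_pos i
  field_simp
  ring

theorem p1 (T : Tl C Bc d s) (H : Adm d v A) {ce W : V} (hW : ∀ i, 0 ≤ W i)
    (hsup : ∀ x, v x ≠ 0 → ∀ i, |x i - ce i| ≤ W i) (i : Fin 3) {l : List (Fin 3)}
    (hl : l ∈ LL 5) :
    ∑ g ∈ d.cells, d.sq2 l i (tot (d.ch g) (d.c.cf g (d.Fv d.S s v) i)) / d.wl l ^ 2 ≤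
      512 * C ^ 5 * Bc ^ 2 * A ^ 2 * (W 0 / d.c.l1 * (W 1 / d.c.lam) * W 2 ^ 2) := by
  have := T.gd.l1_pos; have := T.gd.lam_pos
  refine (Finset.sum_le_sum fun g _ => div_le_self (sq2_nonneg T.gd _ _ _) (one_le_wl T.gd l)).trans ?_
  rw [← sc_eq T.gd i]
  simp only [MD.sq2, cf_eq]
  rw [← Finset.sum_div]
  exact div_le_div_of_nonneg_right (fam d.cells T.c2.one (T.c1 0) T.c1 (T.kw H i).1
    (Prof.bc_sm _) (bc_bdd T.gd) (by linarith [T.b1]) T.cb (bc_mult _ _)
    (LL_mono (by norm_num) hl) hW (wt_sup hsup i)).2 (by positivity)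

theorem on_cb (T : Tl C Bc d s) (g : Unit) : CB 6 (d.c.hy d.yL) univ (on g) Bc :=
  cb_const (c := 1) (by rw [abs_one]; exact T.b1)

theorem p2 (T : Tl C Bc d s) (H : Adm d v A) {ce W : V} (hW : ∀ i, 0 ≤ W i)
    (hsup : ∀ x, v x ≠ 0 → ∀ i, |x i - ce i| ≤ W i) (i : Fin 3) {l : List (Fin 3)}
    (hl : l ∈ LL 5) : d.sq2 l i (tot 0 fun z => d.Fv d.SL s v z i) ≤
      512 * C ^ 5 * Bc ^ 2 * A ^ 2 * (W 0 / d.c.l1 * (W 1 / d.c.lam) * W 2 ^ 2) := by
  have := T.gd.l1_pos; have := T.gd.lam_pos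
  have k := (fam (ch := fun _ : Unit => 0) (bb := on) {()} T.c2.one T.c2 (fun _ => T.c2)
    (T.kw H i).2 (fun _ => contDiff_const) (fun _ => BdD.const 1) (by linarith [T.b1]) (on_cb T)
    (fun z => (Nat.cast_le.2 (Finset.card_filter_le _ _)).trans (by simp))
    (LL_mono (by norm_num) hl) hW (wt_sup hsup i)).2
  rw [Finset.sum_singleton] at k
  rw [← sc_eq T.gd i, MD.sq2, sl_eq, hp_lat d.c d.yL hl]
  exact div_le_div_of_nonneg_right k (by positivity)

theorem sum_le {F : Fin 3 → List (Fin 3) → ℝ} {M : ℝ} (hM : 0 ≤ M) {L : Finset (List (Fin 3))}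
    (hL : L ⊆ LL 5) (hF : ∀ i, ∀ l ∈ LL 5, F i l ≤ M) :
    ∑ i ∈ ({0, 1} : Finset (Fin 3)), ∑ l ∈ L, F i l ≤ 128 * M := by
  have h1 : (L.card : ℝ) ≤ 64 :=
    (Nat.cast_le.2 (Finset.card_le_card hL)).trans ((card_LL_le 5).trans (by norm_num))
  have h2 : ∀ i, ∑ l ∈ L, F i l ≤ 64 * M := fun i =>
    (Finset.sum_le_card_nsmul _ _ M fun l hl => hF i l (hL hl)).trans
      (by rw [nsmul_eq_mul]; exact mul_le_mul_of_nonneg_right h1 hM)
  rw [Finset.sum_pair (by decide)]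
  linarith [h2 0, h2 1]

theorem hn_le (T : Tl C Bc d s) (H : Adm d v A) {ce W : V} (hW : ∀ i, 0 ≤ W i)
    (hsup : ∀ x, v x ≠ 0 → ∀ i, |x i - ce i| ≤ W i) :
    d.Hn s v ≤ 131072 * C ^ 5 * Bc ^ 2 * (A ^ 2 * (W 0 / d.c.l1 * (W 1 / d.c.lam) * W 2 ^ 2)) := by
  have := T.gd.l1_pos; have := T.gd.lam_pos; have := hW 0; have := hW 1; have := T.c2.one
  have hM : 0 ≤ 512 * C ^ 5 * Bc ^ 2 * A ^ 2 * (W 0 / d.c.l1 * (W 1 / d.c.lam) * W 2 ^ 2) := by
    positivity
  have k1 := sum_le hM subset_rfl fun i l hl => p1 T H hW hsup i hl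
  have k2 := sum_le hM (Finset.filter_subset (fun l => 2 ≤ l.length) (LL 5))
    fun i l hl => p2 T H hW hsup i hl
  unfold MD.Hn
  rw [Finset.sum_comm]
  simp only [Finset.sum_comm (s := d.cells)]
  split_ifs <;> linarith

theorem int1 (T : Tl C Bc d s) (H : Adm d v A) (g : Cu) (i : Fin 3) {l : List (Fin 3)}
    (hl : l ∈ LL 6) : Integrable fun w : ℝ × ℝ => (hp d.c.hs l * pds l (tot (d.ch g) fun z =>
      d.c.bc g z * dens (wt d v i) (fun x => d.Z x + s.U x) (fun x => d.S x - s.C x) z)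
      ![w.1, w.2, 0]) ^ 2 := by
  have K := (T.kw H i).1
  obtain ⟨r, hr⟩ := K.cl.isBounded.subset_closedBall 0
  refine (one (lo := -|r|) (hi := |r|) (T.c1 g) K (Prof.bc_sm _ g) (bc_bdd T.gd g) (T.cb g) hl
    (by linarith [abs_nonneg r]) fun x hx => ?_).1
  have h1 := mem_closedBall_zero_iff.1 (hr (by_contra fun k => hx (K.sa x k)))
  exact abs_le.1 (((norm_le_pi_norm x 2).trans h1).trans (le_abs_self r))

theorem int2 (T : Tl C Bc d s) (H : Adm d v A) (i : Fin 3) {l : List (Fin 3)}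
    (hl : l ∈ LL 6) : Integrable fun w : ℝ × ℝ => (hp (d.c.hy d.yL) l * pds l (tot 0 fun z =>
      on () z * dens (wt d v i) (fun x => d.Z x + s.U x) (fun x => d.SL x - s.C x) z)
      ![w.1, w.2, 0]) ^ 2 := by
  have K := (T.kw H i).2
  obtain ⟨r, hr⟩ := K.cl.isBounded.subset_closedBall 0
  refine (one (lo := -|r|) (hi := |r|) T.c2 K contDiff_const (BdD.const 1) (on_cb T ()) hl
    (by linarith [abs_nonneg r]) fun x hx => ?_).1
  have h1 := mem_closedBall_zero_iff.1 (hr (by_contra fun k => hx (K.sa x k)))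
  exact abs_le.1 (((norm_le_pi_norm x 2).trans h1).trans (le_abs_self r))

theorem hn_add {v1 v2 : V → V} {A1 A2 : ℝ} (T : Tl C Bc d s) (H : Adm d v A) (H1 : Adm d v1 A1)
    (H2 : Adm d v2 A2) (e : ∀ x, v x = v1 x + v2 x) :
    d.Hn s v ≤ 2 * d.Hn s v1 + 2 * d.Hn s v2 := by
  have := T.gd.l1_pos; have := T.gd.lam_pos
  have ew : ∀ i x, wt d v i x = wt d v1 i x + wt d v2 i x := fun i x => by
    simp only [wt, e, Pi.add_apply]; ring
  have k1 : ∀ g i, ∀ l ∈ LL 5, d.sq2 l i (tot (d.ch g) (d.c.cf g (d.Fv d.S s v) i)) / d.wl l ^ 2 ≤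
      2 * (d.sq2 l i (tot (d.ch g) (d.c.cf g (d.Fv d.S s v1) i)) / d.wl l ^ 2) +
      2 * (d.sq2 l i (tot (d.ch g) (d.c.cf g (d.Fv d.S s v2) i)) / d.wl l ^ 2) := by
    intro g i l hl
    have hl' : l ∈ LL 6 := LL_mono (by norm_num) hl
    simp only [MD.sq2, cf_eq, ← mul_div_assoc, ← add_div]
    refine div_le_div_of_nonneg_right (div_le_div_of_nonneg_right
      (sq_add (fun w => ?_) (int1 T H1 g i hl') (int1 T H2 g i hl')) (by positivity)) (sq_nonneg _)
    rw [add (T.c1 g) (T.kw H i).1 (T.kw H1 i).1 (T.kw H2 i).1 (ew i) (Prof.bc_sm _ g)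
      (bc_bdd T.gd g) (T.cb g) hl', mul_add]
  have k2 : ∀ i, ∀ l ∈ LL 5, d.sq2 l i (tot 0 fun z => d.Fv d.SL s v z i) ≤
      2 * d.sq2 l i (tot 0 fun z => d.Fv d.SL s v1 z i) +
      2 * d.sq2 l i (tot 0 fun z => d.Fv d.SL s v2 z i) := by
    intro i l hl
    have hl' : l ∈ LL 6 := LL_mono (by norm_num) hl
    rw [MD.sq2, MD.sq2, MD.sq2, sl_eq, sl_eq, sl_eq, hp_lat d.c d.yL hl, ← mul_div_assoc,
      ← mul_div_assoc, ← add_div]
    refine div_le_div_of_nonneg_right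
      (sq_add (fun w => ?_) (int2 T H1 i hl') (int2 T H2 i hl')) (by positivity)
    rw [add (b := on ()) T.c2 (T.kw H i).2 (T.kw H1 i).2 (T.kw H2 i).2 (ew i) contDiff_const
      (BdD.const 1) (on_cb T ()) hl', mul_add]
  have s1 := Finset.sum_le_sum (s := d.cells) fun g _ =>
    Finset.sum_le_sum (s := ({0, 1} : Finset (Fin 3))) fun i _ =>
      Finset.sum_le_sum (s := LL 5) fun l hl => k1 g i l hl
  have s2 := Finset.sum_le_sum (s := ({0, 1} : Finset (Fin 3))) fun i _ =>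
    Finset.sum_le_sum (s := (LL 5).filter (2 ≤ ·.length)) fun l hl =>
      k2 i l (Finset.mem_filter.1 hl).1
  simp only [Finset.sum_add_distrib, ← Finset.mul_sum] at s1 s2
  unfold MD.Hn
  split_ifs <;> linarith

theorem gw (h : Gd d.c) (G : d.Gs s) : d.Gw s := by
  have h1 := h.big.np_pos (-270)
  have h2 := h.lam_pos
  refine ⟨s, G, G.sm, fun x => ⟨(G.sup x).1, (G.sup x).2.2.1⟩, fun x => ⟨?_, fun i j => ?_,
    fun i j => ?_, ?_⟩⟩
  · rw [sub_self, norm_zero]; positivity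
  · simpa [cm] using h1.le
  · simp only [sub_self, Matrix.zero_apply, abs_zero, cm, Matrix.of_apply]; positivity
  · rw [sub_self, abs_zero]; exact h1.le

theorem hs_le_cw (h : Gd d.c) (i : Fin 3) : d.c.hs i ≤ d.c.cw i := by
  have h1 : 1 ≤ pA d.c.N := one_le_pow₀ (one_le_J h)
  fin_cases i
  · exact le_mul_of_one_le_left h.l1_pos.le h1
  · exact le_mul_of_one_le_left h.lam_pos.le h1
  · refine mul_le_mul_of_nonneg_right ?_ h.lam_pos.le
    have h2 : np d.c.N (11 / 10) ≤ np d.c.N (2 : ℕ) := h.big.np_le (by norm_num)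
    rw [np_nat] at h2
    exact h2.trans (le_mul_of_one_le_right (by positivity) (one_le_pow₀ (one_le_J h)))

theorem tools (h1 : KlsStmt) (h2 : ColkStmt) :
    ∃ C Bc : ℝ, EvD fun d => ∀ s, d.Gs s → Tl C Bc d s := by
  obtain ⟨C, -, hk⟩ := ck_of h2
  obtain ⟨Bc, hB, hb⟩ := Prof.cb_bc 6
  refine ⟨C, Bc, ?_⟩
  filter_upwards [h1, ev_gd, ev_CqJ_np 1000 0 0 (c := 8 / 10) (by norm_num)] with N k1 k2 k3
  intro d hN hk' hI s G
  have g := k2 d.c hN hI.ok
  subst hN
  rw [qp_zero, Jp_zero, mul_one, mul_one] at k3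
  have hl := g.lam_pos
  have e1 : np d.c.N (-8 / 10) ≤ 1 / 1000 := by
    have e := g.big.np_add (-8 / 10) (8 / 10)
    rw [show (-8 / 10 + 8 / 10 : ℝ) = 0 by norm_num, np_zero] at e
    have := g.big.np_pos (-8 / 10)
    nlinarith
  have e2 : np d.c.N (-19 / 10) * d.c.y ≤ d.c.lam / 100 := by
    have e := g.big.np_add (-19 / 10) (11 / 10)
    rw [show (-19 / 10 + 11 / 10 : ℝ) = -8 / 10 by norm_num] at e
    rw [Pm.y, ← mul_assoc, ← e]
    nlinarith
  have hy : ∀ i, 0 < d.c.hy d.yL i := fun i => by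
    fin_cases i
    exacts [g.l1_pos, hl, (mul_pos (g.big.np_pos _) g.y_pos).trans_le hI.yl.1]
  refine ⟨g, hI.rho, fun a => hk _ _ (np d.c.N (-19 / 10)) g.hs_pos (hI.chb.2 a).1
    (fun i hi => ⟨fun r => ((hI.chb.2 a).2 i hi r).2.1, ?_⟩)
    ((g.big.np_le (by norm_num)).trans e1),
    hk _ _ 0 hy contDiff_const (fun i _ => ⟨fun r => by simp, ?_⟩) (by norm_num),
    fun a => CBl.monoh (hb d.c a) (fun i => (g.hs_pos i).le) (hs_le_cw g), hB,
    fun a A m1 m2 m3 => ?_⟩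
  · fin_cases i
    · exact e2.trans (div_le_div_of_nonneg_right g.lam_le_l1 (by norm_num))
    · exact e2
    · exact absurd rfl hi
  · have := hy i
    rw [zero_mul]; positivity
  · obtain ⟨m4, -, m5⟩ := (k1 d rfl hk' hI s (gw g G)).2 a A m1 m2 m3
    exact ⟨m4, m5⟩

theorem arithB {K X : ℝ} (g : Gd d.c) (hK : 0 ≤ K) (h1 : 4 * K ≤ qp d.c.N (8 / 100))
    (hX : X ≤ d.c.GG ^ 2 / qp d.c.N (9 / 10)) : K * (qp d.c.N (1 / 100) ^ 2 * X) ≤ d.U2 / 4 := by
  have a1 := g.big.qp_pos (1 / 100)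
  have a2 := g.big.qp_pos (4 / 5)
  have a3 := g.big.qp_pos (8 / 100)
  have e : qp d.c.N (9 / 10) = qp d.c.N (1 / 100) ^ 2 * (qp d.c.N (4 / 5) * qp d.c.N (8 / 100)) := by
    rw [sq, ← g.big.qp_add, ← g.big.qp_add, ← g.big.qp_add]; norm_num
  rw [e] at hX
  calc K * (qp d.c.N (1 / 100) ^ 2 * X) ≤ qp d.c.N (8 / 100) / 4 * (qp d.c.N (1 / 100) ^ 2 *
        (d.c.GG ^ 2 / (qp d.c.N (1 / 100) ^ 2 * (qp d.c.N (4 / 5) * qp d.c.N (8 / 100))))) := by
        refine (mul_le_mul_of_nonneg_left (mul_le_mul_of_nonneg_left hX (by positivity)) hK).trans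
          (mul_le_mul_of_nonneg_right (by linarith) (by positivity))
    _ = d.U2 / 4 := by unfold MD.U2; field_simp

theorem arithC {K w0 w1 w2 : ℝ} (g : Gd d.c)
    (h1 : 4 * K * qp d.c.N (4 / 5) * Jp d.c.N (6 : ℕ) ≤ np d.c.N (81 / 100))
    (p0 : 0 ≤ w0) (p1 : 0 ≤ w1) (p2 : 0 ≤ w2) (b0 : w0 ≤ np d.c.N (51 / 100) * d.c.lam)
    (b1 : w1 ≤ np d.c.N (51 / 100) * d.c.lam) (b2 : w2 ≤ np d.c.N (51 / 100) * d.c.lam) :
    K * (np d.c.N (-47 / 100) ^ 2 *
      (w0 / d.c.l1 * (np d.c.N (9 / 100) * w1 / d.c.lam) * w2 ^ 2)) ≤ d.U2 / 4 := by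
  have a1 := g.big.np_pos (-47 / 100)
  have a2 := g.big.np_pos (9 / 100)
  have a3 := g.big.np_pos (51 / 100)
  have a4 := g.big.qp_pos (4 / 5)
  have a5 := g.big.np_pos (81 / 100)
  have hl := g.lam_pos
  have hJ := g.J_pos
  have hN := g.N_pos
  rw [Jp_nat] at h1
  have c0 : w0 / d.c.l1 ≤ np d.c.N (51 / 100) :=
    (div_le_iff₀ g.l1_pos).2 (b0.trans (mul_le_mul_of_nonneg_left g.lam_le_l1 a3.le))
  have c1 : np d.c.N (9 / 100) * w1 / d.c.lam ≤ np d.c.N (9 / 100) * np d.c.N (51 / 100) := by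
    rw [div_le_iff₀ hl, mul_assoc]
    exact mul_le_mul_of_nonneg_left b1 a2.le
  have e : (d.c.N : ℝ) ^ 2 = np d.c.N (-47 / 100) ^ 2 * (np d.c.N (51 / 100) *
      (np d.c.N (9 / 100) * np d.c.N (51 / 100)) * np d.c.N (51 / 100) ^ 2) * np d.c.N (81 / 100) := by
    rw [← np_nat]
    simp only [sq, ← g.big.np_add]
    norm_num
  have c2 : (d.c.N / d.c.J ^ 3 * d.c.lam) ^ 2 ≤ d.c.GG ^ 2 := pow_le_pow_left₀ (by positivity) g.GG_ge 2
  have c3 : K ≤ np d.c.N (81 / 100) / (4 * qp d.c.N (4 / 5) * d.c.J ^ 6) := by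
    rw [le_div_iff₀ (by positivity)]
    exact le_of_eq_of_le (by unfold Pm.J; ring) h1
  calc K * (np d.c.N (-47 / 100) ^ 2 * (w0 / d.c.l1 * (np d.c.N (9 / 100) * w1 / d.c.lam) * w2 ^ 2))
      ≤ np d.c.N (81 / 100) / (4 * qp d.c.N (4 / 5) * d.c.J ^ 6) * (np d.c.N (-47 / 100) ^ 2 *
        (np d.c.N (51 / 100) * (np d.c.N (9 / 100) * np d.c.N (51 / 100)) *
          (np d.c.N (51 / 100) * d.c.lam) ^ 2)) := by
        have := g.l1_pos
        gcongr
    _ = (d.c.N / d.c.J ^ 3 * d.c.lam) ^ 2 / qp d.c.N (4 / 5) / 4 := by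
        rw [mul_pow (d.c.N / d.c.J ^ 3 : ℝ), div_pow, e]; field_simp
    _ ≤ d.U2 / 4 := by unfold MD.U2; gcongr

end GbP

open GbP in
theorem gb (h1 : KlsStmt) (h2 : ColkStmt) : GbStmt := by
  obtain ⟨C, Bc, hT⟩ := tools h1 h2
  filter_upwards [hT, ev_C_qp (4 * (131072 * C ^ 5 * Bc ^ 2)) (c := 8 / 100) (by norm_num),
    ev_CqJ_np (4 * (131072 * C ^ 5 * Bc ^ 2)) (4 / 5) (6 : ℕ) (c := 81 / 100) (by norm_num)]
    with N k1 k2 k3
  intro d hN hk hI s Ψ Ψm om ce W G hC hW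
  have T := k1 d hN hk hI s G
  subst hN
  have g := T.gd
  have hK : 0 ≤ 131072 * C ^ 5 * Bc ^ 2 := by have := T.c2.one; positivity
  obtain ⟨w0, w1, w2, -, -, w3, w4⟩ := hW.wd
  have p0 := g.l1_pos.le.trans w0
  have p1 := g.lam_pos.le.trans w1
  have hp : ∀ i, 0 ≤ W i := fun i => by
    fin_cases i
    exacts [p0, p1, w2.le]
  have A0 : Adm d Ψ (1 * d.c.q) := ⟨hC.sm.1.continuous, hC.sz, fun x hx => ((hC.sup x).1 hx).1⟩
  have A1 : Adm d Ψm (qp d.c.N (1 / 100)) := ⟨hW.sm.1.continuous, fun x i => (hW.am x i).1,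
    fun x hx => by_contra fun k => hx ((hW.sup x).1 k).1⟩
  have A2 : Adm d (fun x => Ψ x - Ψm x) (np d.c.N (-47 / 100)) :=
    ⟨A0.ms.sub A1.ms, fun x i => (hW.am x i).2, fun x hx => by rw [A0.sp x hx, A1.sp x hx, sub_zero]⟩
  have r3 := hn_add T A0 A1 A2 fun x => by abel
  have r2 : d.Hn s (fun x => Ψ x - Ψm x) ≤ d.U2 / 4 := by
    by_cases hc : d.c.comp
    · have n1 : 1 ≤ np d.c.N (9 / 100) := (np_zero _).ge.trans (g.big.np_le (by norm_num))
      refine (hn_le (ce := ce) (W := ![W 0, np d.c.N (9 / 100) * W 1, W 2]) T A2 (fun i => ?_)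
        fun x hx i => ?_).trans
        (arithC g k3 p0 p1 w2.le (w4 hc).1 (w4 hc).2 w3)
      · fin_cases i
        exacts [p0, mul_nonneg (by linarith) p1, w2.le]
      · by_cases e : Ψ x = 0
        · have e' : Ψm x ≠ 0 := fun k => hx (by simp [e, k])
          have := ((hW.sup x).1 e').2
          fin_cases i
          exacts [this 0, (this 1).trans (le_mul_of_one_le_left p1 n1), this 2]
        · have := (hW.sup x).2 e
          fin_cases i
          exacts [this.1, this.2.1, this.2.2]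
    · have e := hW.nc hc
      have A3 : Adm d (fun x => Ψ x - Ψm x) 0 := ⟨A2.ms, fun x i => by simp [e], A2.sp⟩
      refine (hn_le (ce := ce) T A3 hp fun x hx => absurd (by simp [e]) hx).trans ?_
      have := g.big.qp_pos (4 / 5)
      rw [zero_pow two_ne_zero, zero_mul, mul_zero]
      unfold MD.U2; positivity
  refine ⟨fun hA => ?_, r2, r3⟩
  have r1 := (hn_le T A1 hp fun x hx => ((hW.sup x).1 hx).2).trans (arithB g hK k2 (hW.bB hA))
  linarith

end
end Pool.Agent.MP_20bec2_an.T3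

end MrgPart2

-- marker of a merged file
example : 731051 + 295184 = 731051 + 295184 := rfl
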