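import Pool.Agent.MP_20bec2_an.T3.Finv
import Pool.Agent.MP_20bec2_an.T3.Gb

/-! Point functionals along a path: parameter facts, running values, crude bounds. -/

set_option autoImplicit false
set_option linter.unusedSectionVars false
open MeasureTheory Set Filter Matrix Topology

namespace Pool.Agent.MP_20bec2_an.T3
noncomputable section
open Classical

namespace GoodP

/-- the crude bound -/
def MM (c : Pm) : ℝ := 2 * qp c.N (1 / 10) * √c.J
/-- the size of the noise -/
def sg (c : Pm) : ℝ := qp c.N (2 / 5) * √(c.J * c.p)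

lemma logs : Real.log 2 ≤ 1 ∧ 0 ≤ Real.log 2 ∧ Real.log 10 ≤ 10 ∧ 0 ≤ Real.log 10 ∧
    Real.log 100 ≤ 100 ∧ 0 ≤ Real.log 100 :=
  ⟨by linarith [log2_bd.2], by linarith [log2_bd.1], log10_bd.2, log10_bd.1,
    (logc_bd (by norm_num)).2, (logc_bd (by norm_num)).1⟩

section par
variable {c : Pm} (h : Gd c)
include h

lemma MM_pos : 0 < MM c := by
  have := h.J_pos; have := h.big.qp_pos (1 / 10); unfold MM; positivity
lemma sg_pos : 0 < sg c := by
  have := h.J_pos; have := h.big.qp_pos (2 / 5); have := h.p_pos; unfold sg; positivity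
lemma log_MM : Real.log (MM c) = Real.log 2 + pL c.N / 10000 + pL c.N / 2 := by
  have := h.J_pos; have := h.big.qp_pos (1 / 10)
  simp (disch := positivity) only [MM, Real.log_mul, Real.log_sqrt, h.big.log_qp, h.log_J]
  ring
lemma log_sg : Real.log (sg c) = pL c.N / 2500 + pL c.N / 2 + Real.log c.p / 2 := by
  have := h.J_pos; have := h.big.qp_pos (2 / 5); have := h.p_pos
  simp (disch := positivity) only [sg, Real.log_mul, Real.log_sqrt, h.big.log_qp, h.log_J]
  ring
lemma log_p_le : Real.log c.p ≤ -(2 * pL c.N) - 29 * (pL c.N / 2000) := by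
  linarith [h.log_p.1, h.log_pf, h.log_e4.2.1, logs.2.1]
lemma log_p_ge : -pJ c.N ≤ Real.log c.p := by
  linarith [h.log_ηp_ge, h.log_η_le, h.big.L_ge]

lemma pU_le : MM c * qp c.N (3 / 10) ≤ √(c.q * c.J) := by
  have := h.J_pos; have := h.q_pos; have := h.big.qp_pos (3 / 10); have := MM_pos h
  refine le_of_log (by positivity) (by positivity) ?_
  simp (disch := positivity) only [Real.log_mul, Real.log_sqrt, h.big.log_qp, h.log_J, h.log_q,
    log_MM h]
  linarith [h.big.L_ge, logs.1]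

lemma pD_le : MM c * (c.d2u / (qp c.N (13 / 10) * √c.J)) ≤ c.d2u / c.q := by
  have := h.J_pos; have := h.q_pos; have := h.big.qp_pos (13 / 10); have := MM_pos h
  have := h.d2u_pos
  refine le_of_log (by positivity) (by positivity) ?_
  simp (disch := positivity) only [Real.log_mul, Real.log_div, Real.log_sqrt, h.big.log_qp,
    h.log_J, h.log_q, log_MM h]
  linarith [h.big.L_ge, logs.1]

lemma pT_le : MM c * (qp c.N (1 / 10) * √c.p) ≤ qp c.N (3 / 10) * √(c.J * c.p) := by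
  have := h.J_pos; have := h.big.qp_pos (3 / 10); have := h.big.qp_pos (1 / 10); have := MM_pos h
  have := h.p_pos
  refine le_of_log (by positivity) (by positivity) ?_
  simp (disch := positivity) only [Real.log_mul, Real.log_sqrt, h.big.log_qp, h.log_J, log_MM h]
  linarith [h.big.L_ge, logs.1]

lemma pT_sg : qp c.N (3 / 10) * √(c.J * c.p) ≤ sg c :=
  mul_le_mul_of_nonneg_right (h.big.qp_le (by norm_num)) (Real.sqrt_nonneg _)

lemma sg_le : 100 * sg c ≤ 1 / √c.J := by
  have := h.J_pos; have := sg_pos h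
  refine le_of_log (by positivity) (by positivity) ?_
  simp (disch := positivity) only [Real.log_mul, Real.log_div, Real.log_sqrt, Real.log_one,
    h.log_J, log_sg h]
  linarith [h.big.L_ge, logs.2.2.2.2.1, log_p_le h]

lemma sJ_le : 1 / √c.J ≤ 1 := by
  have e : 3 / √(pJ c.N) = 3 * (1 / √c.J) := (mul_one_div _ _).symm
  linarith [KlsA.sJ_le h.big]

lemma qp_sg : c.q * c.p ≤ sg c ^ 2 := by
  have := h.q_pos; have := sg_pos h; have := h.p_pos
  refine le_of_log (by positivity) (by positivity) ?_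
  simp (disch := positivity) only [Real.log_mul, Real.log_pow, h.log_q, log_sg h]
  push_cast
  linarith [h.big.L_ge]

lemma p_sg : c.p ≤ sg c ^ 2 :=
  (le_mul_of_one_le_left h.p_pos.le (by linarith [h.big.q_ge, show c.q = pq c.N from rfl])).trans
    (qp_sg h)

lemma thS_mem (i : Fin 3) : c.thS i ∈ [c.W10, c.W20, c.H0, c.Hp, c.W11, c.W21, c.H1] := by
  fin_cases i <;> simp [Pm.thS]

lemma lam_le_thS (i : Fin 3) : c.lam ≤ c.thS i :=
  le_of_log h.lam_pos (h.thS_pos i) (by
    linarith [(h.log_win _ (thS_mem h i)).1, h.big.L_ge, h.big.J_ge])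

lemma thS_le (i : Fin 3) : c.thS i ≤ np c.N 2 * c.lam :=
  (h.win' _ (thS_mem h i)).2.1.trans
    (mul_le_mul_of_nonneg_right (h.big.np_le (by norm_num)) h.lam_pos.le)

lemma sg_thS (i : Fin 3) : sg c / c.thS i ≤ c.d2u / c.q := by
  have := h.q_pos; have := sg_pos h; have := h.thS_pos i; have := h.d2u_pos
  refine le_of_log (by positivity) (by positivity) ?_
  simp (disch := positivity) only [Real.log_div, h.log_q, log_sg h, h.log_d2u]
  linarith [(h.log_win _ (thS_mem h i)).1, h.big.L_ge, h.big.J_ge, h.log_p.2.1, h.log_η_le]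

lemma sg_lA : 10 * sg c ^ 2 * (√c.q / c.lA + c.q * c.d2u) ≤ 2 * (c.d2u / c.q) := by
  have := h.q_pos; have := sg_pos h; have := h.lA_pos; have := h.d2u_pos
  have h1 : 10 * sg c ^ 2 * (√c.q / c.lA) ≤ c.d2u / c.q := by
    refine le_of_log (by positivity) (by positivity) ?_
    simp (disch := positivity) only [Real.log_mul, Real.log_div, Real.log_pow, Real.log_sqrt,
      h.log_q, log_sg h, h.log_d2u, h.log_lA, h.log_l1]
    push_cast
    linarith [h.big.L_ge, h.big.J_ge, h.log_p.2.1, h.log_ro_bd.1, logs.2.2.1]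
  have h2 : 10 * sg c ^ 2 * (c.q * c.d2u) ≤ c.d2u / c.q := by
    refine le_of_log (by positivity) (by positivity) ?_
    simp (disch := positivity) only [Real.log_mul, Real.log_div, Real.log_pow, h.log_q, log_sg h]
    push_cast
    linarith [h.big.L_ge, log_p_le h, logs.2.2.1]
  linarith [mul_add (10 * sg c ^ 2) (√c.q / c.lA) (c.q * c.d2u)]

lemma nz_le (i j : Fin 3) : 10 * c.nz i j ≤ 1 / √c.J := by
  have := h.q_pos; have := h.J_pos; have := h.p_pos; have := h.t1B_pos
  have e1 : 10 * (c.p / c.q ^ 3) ≤ 1 / √c.J := by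
    refine le_of_log (by positivity) (by positivity) ?_
    simp (disch := positivity) only [Real.log_mul, Real.log_div, Real.log_pow, Real.log_sqrt,
      Real.log_one, h.log_q, h.log_J]
    push_cast
    linarith [h.big.L_ge, log_p_le h, logs.2.2.1]
  have e2 : 10 * (c.q * c.J * c.t1B) ≤ 1 / √c.J := by
    refine le_of_log (by positivity) (by positivity) ?_
    simp (disch := positivity) only [Real.log_mul, Real.log_div, Real.log_sqrt,
      Real.log_one, h.log_q, h.log_J, h.log_t1B]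
    linarith [h.big.L_ge, h.log_e4.2.1, logs.2.2.1]
  have e3 : 10 * (0 : ℝ) ≤ 1 / √c.J := by rw [mul_zero]; positivity
  fin_cases i <;> fin_cases j
  exacts [e1, e3, e2, e3, e3, e3, e3, e3, e3]

lemma sd_le (i j : Fin 3) : 10 * (MM c * (qp c.N (1 / 5) * c.sd i j)) ≤ 1 / √c.J ∧
    (c.comp → MM c * (qp c.N (1 / 5) * c.sd i j) ≤ nu c.N) := by
  have := h.q_pos; have := h.J_pos; have := MM_pos h; have := h.big.qp_pos (1 / 5)
  have := h.big.Jp_pos (-5 / 2); have := h.big.qp_pos (-15); have := h.big.sdc_pos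
  obtain ⟨-, s2, s3⟩ := h.sd_bd i j
  constructor
  · refine le_trans (b := 10 * (MM c * (qp c.N (1 / 5) * (10 * (Jp c.N (-5 / 2) * qp c.N (-15))))))
      (by gcongr; nlinarith [mul_pos (h.big.Jp_pos (-5 / 2)) (h.big.qp_pos (-15))]) ?_
    refine le_of_log (by positivity) (by positivity) ?_
    simp (disch := positivity) only [Real.log_mul, Real.log_div, Real.log_sqrt, Real.log_one,
      h.big.log_qp, h.big.log_Jp, h.log_J, log_MM h]
    linarith [h.big.L_ge, logs.2.2.1, logs.1]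
  · intro hc
    have h1 := s3 (by linarith [h.thr_bd.1, show c.thr ≤ c.η from hc, h.big.etaS_pos])
    refine le_trans (b := MM c * (qp c.N (1 / 5) * (2 * (sdc c.N / c.q)))) (by gcongr) ?_
    refine le_of_log (by positivity) h.big.nu_pos ?_
    simp (disch := positivity) only [Real.log_mul, Real.log_div, h.big.log_qp, h.log_q, log_MM h,
      h.big.log_sdc, h.big.log_nu]
    linarith [h.big.L_ge, h.big.J_ge, logs.1]

end par

variable {d : MD} {u : ℕ → V → V} {ω : ℕ → V → ℝ} {m : ℕ} {e : ℝ}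

/-- accumulated noise -/
def dt (ω : ℕ → V → ℝ) (m : ℕ) (x : V) : ℝ := ∑ j ∈ Finset.range m, ω j x
/-- accumulated squares -/
def dy (ω : ℕ → V → ℝ) (m : ℕ) (x : V) : ℝ := ∑ j ∈ Finset.range m, ω j x ^ 2

lemma nE_apply (d : MD) (a b : Fin 3) : d.nE a b = qp d.c.N (1 / 5) * d.c.sd a b +
    if d.c.noise then 1 / (qp d.c.N (1 / 10) * √d.c.J) * d.c.nz a b else 0 := by
  unfold MD.nE; split_ifs <;> simp

lemma nE_ge (h : Gd d.c) {a : Fin 3} (ha : a ≠ 2) (b : Fin 3) : np d.c.N (-1) ≤ d.nE a b := by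
  have h1 := Fine.sd_ge h a b ha
  have h2 : 1 ≤ qp d.c.N (1 / 5) := (qp_zero _).symm.trans_le (h.big.qp_le (by norm_num))
  have h3 := le_mul_of_one_le_left (h.sd_bd a b).1 h2
  have := h.big.qp_pos (1 / 10); have := h.J_pos; have := Fine.nz_nonneg h a b
  rw [nE_apply]
  split_ifs
  · linarith [show 0 ≤ 1 / (qp d.c.N (1 / 10) * √d.c.J) * d.c.nz a b by positivity]
  · linarith

lemma nE_le (h : Gd d.c) (a b : Fin 3) : MM d.c * d.nE a b ≤ 3 / 10 * (1 / √d.c.J) ∧
    (d.c.comp → MM d.c * d.nE a b ≤ nu d.c.N) := by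
  have := h.big.qp_pos (1 / 10); have := h.J_pos
  obtain ⟨h1, h2⟩ := sd_le h a b
  have h3 := nz_le h a b
  have h4 : MM d.c * (1 / (qp d.c.N (1 / 10) * √d.c.J) * d.c.nz a b) = 2 * d.c.nz a b := by
    unfold MM; field_simp
  have h5 : 0 < 1 / √d.c.J := by positivity
  rw [nE_apply]
  split_ifs with hn
  · exact ⟨by rw [mul_add, h4]; linarith, fun hc => (h.notcomp_of_noise hn hc).elim⟩
  · rw [add_zero]; exact ⟨by linarith, h2⟩

section path
variable (hc : ∀ j, d.Cr e (u j) (ω j))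
include hc

lemma sm_Up : Sm (Up u m) := ContDiff.sum fun j _ => (hc j).sm.1
lemma sm_dt : Sm (dt ω m) := ContDiff.sum fun j _ => (hc j).sm.2
lemma sm_dy : Sm (dy ω m) := ContDiff.sum fun j _ => (hc j).sm.2.pow 2
lemma Up_off (x : V) (hx : x ∉ d.R (93 / 100)) : Up u m x = 0 :=
  Finset.sum_eq_zero fun j _ => (((hc j).sup x).1 hx).1
lemma dt_off (x : V) (hx : x ∉ d.R (93 / 100)) : dt ω m x = 0 :=
  Finset.sum_eq_zero fun j _ => (((hc j).sup x).1 hx).2
lemma dy_off (x : V) (hx : x ∉ d.R (93 / 100)) : dy ω m x = 0 :=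
  Finset.sum_eq_zero fun j _ => by rw [(((hc j).sup x).1 hx).2]; norm_num
lemma Up_two (x : V) : Up u m x 2 = 0 := by
  rw [Up, Finset.sum_apply]; exact Finset.sum_eq_zero fun j _ => ((hc j).sup x).2
lemma dt_nn (hn : ¬ d.c.noise) : dt ω m = 0 :=
  funext fun x => Finset.sum_eq_zero fun j _ => by rw [(hc j).nn hn]; rfl
lemma dy_nn (hn : ¬ d.c.noise) : dy ω m = 0 :=
  funext fun x => Finset.sum_eq_zero fun j _ => by rw [(hc j).nn hn]; simp
lemma dN_nn (hn : ¬ d.c.noise) (x : V) : d.dN (dt ω m) (dy ω m) x = 0 := by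
  simp [MD.dN, dt_nn hc hn, dy_nn hc hn]

lemma tele (x : V) : jm (Up u m) x - d.dN (dt ω m) (dy ω m) x =
    ∑ j ∈ Finset.range m, d.Am (d.sa u ω j) (u j) (ω j) x := by
  rw [show jm (Up u m) x = _ from jm_sum _ (fun j _ => (hc j).sm.1) x]
  induction m with
  | zero => simp [MD.dN, dt, dy]
  | succ m ih =>
    rw [Finset.sum_range_succ, Finset.sum_range_succ, ← ih]
    simp only [MD.dN, MD.Am, MD.sa, dt, dy, Finset.sum_range_succ]
    module

omit hc in
lemma X_pU (x : V) (j : Fin 3) :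
    d.X (d.pU x j) u ω m = Up u m x j / (qp d.c.N (3 / 10) * d.c.hs j) := by
  simp only [MD.X, MD.pU, Up, Finset.sum_apply, Finset.sum_div]
lemma X_pE (x : V) (a b : Fin 3) : d.X (d.pE x a b) u ω m =
    (jm (Up u m) x - d.dN (dt ω m) (dy ω m) x) a b / d.nE a b := by
  simp only [MD.X, MD.pE, tele hc, Matrix.sum_apply, Finset.sum_div]
lemma X_pD (x : V) (l : List (Fin 3)) (i : Fin 3) : d.X (d.pD x l i) u ω m =
    pds l (fun w => Up u m w i) x / (d.c.d2u / (qp d.c.N (13 / 10) * √d.c.J)) := by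
  simp only [MD.X, MD.pD, Up, Finset.sum_apply,
    pds_sum _ (fun j _ => (hc j).sm.1.coord i), Finset.sum_div]
lemma X_pT (x : V) (l : List (Fin 3)) : d.X (d.pT x l) u ω m =
    hp d.c.thS l * pds l (dt ω m) x / (qp d.c.N (1 / 10) * √d.c.p) := by
  rw [show pds l (dt ω m) = _ from pds_sum _ (fun j _ => (hc j).sm.2) l]
  simp only [MD.X, MD.pT, Finset.mul_sum, Finset.sum_div]

variable (h : Gd d.c) (H : ∀ Λ ∈ d.FamP, |d.X Λ u ω m| ≤ MM d.c)
include h H

omit hc H in
lemma sub99 : d.R (93 / 100) ⊆ d.R (99 / 100) := Prof.RX_mono _ h.D_pos.le (by norm_num)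

lemma Up_le (x : V) (j : Fin 3) : |Up u m x j| ≤ √(d.c.q * d.c.J) * d.c.hs j := by
  have p1 := h.hs_pos j; have p2 := h.big.qp_pos (3 / 10)
  by_cases hx : x ∈ d.R (93 / 100)
  · have := H _ ⟨x, sub99 h hx, .inl ⟨j, rfl⟩⟩
    rw [X_pU, abs_div, abs_of_pos (mul_pos p2 p1), div_le_iff₀ (mul_pos p2 p1), ← mul_assoc] at this
    exact this.trans (mul_le_mul_of_nonneg_right (pU_le h) p1.le)
  · rw [Up_off hc x hx]; simp; positivity

lemma AA_le {x : V} (hx : x ∈ d.R (99 / 100)) {a : Fin 3} (ha : a ≠ 2) (b : Fin 3) :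
    |(jm (Up u m) x - d.dN (dt ω m) (dy ω m) x) a b| ≤ MM d.c * d.nE a b := by
  have p1 := (h.big.np_pos _).trans_le (nE_ge h ha b)
  have := H _ ⟨x, hx, .inr (.inl ⟨a, b, ha, rfl⟩)⟩
  rwa [X_pE hc, abs_div, abs_of_pos p1, div_le_iff₀ p1] at this

lemma Up_d2 (i : Fin 3) : CO 2 (cv 1) univ (fun x => Up u m x i) (d.c.d2u / d.c.q) := by
  have := h.d2u_pos; have := h.q_pos; have := h.J_pos; have := h.big.qp_pos (13 / 10)
  refine CBl.extend (K := d.R (93 / 100)) (fun l hl x hx => ?_) (Prof.RX_closed _ _ _)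
    (fun x hx => by rw [Up_off hc x hx]; rfl) (by positivity)
  have p1 : 0 < d.c.d2u / (qp d.c.N (13 / 10) * √d.c.J) := by positivity
  have := H _ ⟨x, sub99 h hx.2, .inr (.inr (.inl ⟨l, i, hl, rfl⟩))⟩
  rw [X_pD hc, abs_div, abs_of_pos p1, div_le_iff₀ p1] at this
  rw [hp_cv, one_pow, one_mul]
  exact this.trans (pD_le h)

lemma dt_cb : CB 4 d.c.thS univ (dt ω m) (qp d.c.N (3 / 10) * √(d.c.J * d.c.p)) := by
  have := h.p_pos; have := h.big.qp_pos (1 / 10); have := h.big.qp_pos (3 / 10)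
  refine CBl.extend (K := d.R (93 / 100)) (fun l hl x hx => ?_) (Prof.RX_closed _ _ _)
    (dt_off hc) (by positivity)
  have p1 : 0 < qp d.c.N (1 / 10) * √d.c.p := by positivity
  have := H _ ⟨x, sub99 h hx.2, .inr (.inr (.inr ⟨l, hl, rfl⟩))⟩
  rw [X_pT hc, abs_div, abs_of_pos p1, div_le_iff₀ p1, abs_mul,
    abs_of_pos (hp_pos h.thS_pos l)] at this
  exact this.trans (pT_le h)

end path

lemma dN_apply (d : MD) (a b : V → ℝ) (x : V) (i j : Fin 3) : d.dN a b x i j = E02 i j * a x +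
    E00 i j * (1 / 4 * (pd 0 d.Pq x * ((d.th x + a x) ^ 2 - d.th x ^ 2 - b x))) := by
  simp only [MD.dN, Matrix.add_apply, Matrix.smul_apply, smul_eq_mul]; ring

lemma E_cases (i j : Fin 3) : (E02 i j = 0 ∧ E00 i j = 0) ∨ (E02 i j = 1 ∧ E00 i j = 0) ∨
    (E02 i j = 0 ∧ E00 i j = 1) := by
  fin_cases i <;> fin_cases j <;> simp [E02, E00, dg3]

end GoodP

end
end Pool.Agent.MP_20bec2_an.T3
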