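import Mathlib.Analysis.InnerProductSpace.NormDet
import Pool.Agent.MP_20bec2_an.T3.Runm
import Pool.Agent.MP_20bec2_an.T3.K4
import Pool.Agent.MP_20bec2_an.T3.Final
import Pool.Agent.MP_20bec2_an.T3.Par3
import Pool.Agent.MP_20bec2_an.T3.Zt

-- ======== part 0: formerly Pool.Agent.MP_20bec2_an.T3.Colk
section MrgPart0

-- ======== part 0: formerly Pool.Agent.MP_20bec2_an.T3.ColB
section MrgPart0

/-! Kernels and densities along columns. -/

set_option autoImplicit false
open MeasureTheory Set Filter Matrix Topology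

namespace Pool.Agent.MP_20bec2_an.T3
noncomputable section

namespace ColP

/-! ## joint measurability of derivatives -/

lemma meas_pd {α : Type} [MeasurableSpace α] {F : α → V → ℝ} (hs : ∀ a, Sm (F a))
    (hm : Measurable fun y : α × V => F y.1 y.2) (j : Fin 3) :
    Measurable fun y : α × V => pd j (F y.1) y.2 := by
  refine measurable_of_tendsto_metrizable (f := fun (k : ℕ) (y : α × V) =>
    (k : ℝ) * (F y.1 (y.2 + (k : ℝ)⁻¹ • Pi.single j 1) - F y.1 y.2)) (fun k => ?_)
    (tendsto_pi_nhds.2 fun y => ?_)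
  · exact ((hm.comp (measurable_fst.prodMk (measurable_snd.add_const _))).sub hm).const_mul _
  · exact ((hs y.1).dif y.2).hasFDerivAt.lim _ (by simpa using tendsto_natCast_atTop_atTop)

lemma meas_pds {α : Type} [MeasurableSpace α] {F : α → V → ℝ} (hs : ∀ a, Sm (F a))
    (hm : Measurable fun y : α × V => F y.1 y.2) (l : List (Fin 3)) :
    Measurable fun y : α × V => pds l (F y.1) y.2 := by
  induction l with
  | nil => exact hm
  | cons j l ih => exact meas_pd (F := fun a => pds l (F a)) (fun a => (hs a).pds l) ih j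

/-! ## the kernel and its envelope -/

lemma gauss1 {a s : ℝ} (ha : 0 < a) (hs : 0 < s) (c : ℝ) :
    Integrable (fun r : ℝ => Real.exp (-((c - r) / s) ^ 2 / a)) ∧
      ∫ r : ℝ, Real.exp (-((c - r) / s) ^ 2 / a) = Real.sqrt (Real.pi * a) * s := by
  have e : (fun r : ℝ => Real.exp (-((c - r) / s) ^ 2 / a)) =
      fun r => Real.exp (-(a * s ^ 2)⁻¹ * (r - c) ^ 2) := by
    funext r; congr 1; field_simp; ring
  have p : 0 < (a * s ^ 2)⁻¹ := by positivity
  rw [e]
  refine ⟨(integrable_exp_neg_mul_sq p).comp_sub_right c, ?_⟩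
  rw [integral_sub_right_eq_self (fun t => Real.exp (-(a * s ^ 2)⁻¹ * t ^ 2)), integral_gaussian,
    div_inv_eq_mul, ← mul_assoc, Real.sqrt_mul' _ (sq_nonneg s), Real.sqrt_sq hs.le]

variable {h : V} {S0 : Mx} {b : V → ℝ} {n : ℝ → V} {l : List (Fin 3)}

lemma sm_ker (S : Mx) (v : V) : Sm fun z => ker S (v - z) := by
  simp only [ker, dotProduct, mulVec, Pi.sub_apply]
  exact ((ContDiff.sum fun i _ => (contDiff_const.sub (sm_coord i)).mul (ContDiff.sum fun j _ =>
    contDiff_const.mul (contDiff_const.sub (sm_coord j)))).neg.div_const 2).exp.div_const _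

lemma env_pos (hh : ∀ i, 0 < h i) (w : V) : 0 < env h w :=
  div_pos (Real.exp_pos _) (mul_pos (mul_pos (hh 0) (hh 1)) (hh 2))

lemma env_cont (h : V) : Continuous (env h) := by
  unfold env; fun_prop

lemma env_le (hh : ∀ i, 0 < h i) (w : V) :
    env h w ≤ Real.exp (-(w 2 / h 2) ^ 2 / 30) / (h 0 * h 1 * h 2) := by
  refine div_le_div_of_nonneg_right (Real.exp_le_exp.2 ?_)
    (mul_pos (mul_pos (hh 0) (hh 1)) (hh 2)).le
  rw [Fin.sum_univ_three]
  linarith [sq_nonneg (w 0 / h 0), sq_nonneg (w 1 / h 1)]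

lemma env_col (hh : ∀ i, 0 < h i) (hn : Continuous n) (v w : V) :
    Integrable fun r => env h (v - cpt n w r) := by
  have c : Continuous fun r => env h (v - cpt n w r) := (env_cont h).comp
    (continuous_const.sub ((continuous_cpt hn).comp (Continuous.prodMk_left w)))
  refine ((gauss1 (a := 30) (by norm_num) (hh 2) (v 2)).1.div_const (h 0 * h 1 * h 2)).mono'
    c.aestronglyMeasurable (Eventually.of_forall fun r => ?_)
  rw [Real.norm_of_nonneg (env_pos hh _).le]
  exact env_le hh _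

lemma ker_cb (hh : ∀ i, 0 < h i) (hS : PD h S0) (k : ℕ) (v z : V) :
    CB k h {z} (fun z => ker S0 (v - z)) (KB.cst k * env h (v - z)) := fun l hl x hx => by
  rw [mem_singleton_iff.1 hx, env, ← mul_div_assoc, mul_div_right_comm]
  exact KB.scale hh hS hl (v - z) (KBA.ker_bound_sub (g := fun i => 8 / h i) hS.1
    (KB.pd_pos hh hS) (fun i => by have := hh i; positivity) (KB.pd_diag hh hS) v hl z)

lemma bk_le {B : ℝ} {k : ℕ} (hh : ∀ i, 0 < h i) (hS : PD h S0) (hb : Sm b) (hB : CB k h univ b B)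
    (hl : l.length ≤ k) (v z : V) : hp h l * |pds l (fun z => b z * ker S0 (v - z)) z| ≤
      2 ^ k * KB.cst k * B * env h (v - z) :=
  (CB.mul (fun i => (hh i).le) hb (sm_ker S0 v) (CBl.monoU hB (subset_univ _))
    (ker_cb hh hS k v z) l hl z rfl).trans_eq (by ring)

lemma colD_ker (hh : ∀ i, 0 < h i) (hS : PD h S0) (v : V) : ColD fun z => ker S0 (v - z) :=
  ⟨sm_ker S0 v, fun l => ⟨fun r => KB.cst l.length *
      (Real.exp (-((v 2 - r) / h 2) ^ 2 / 30) / (h 0 * h 1 * h 2)) / hp h l,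
    (((gauss1 (by norm_num) (hh 2) (v 2)).1.div_const _).const_mul _).div_const _, fun z => by
      rw [le_div_iff₀' (hp_pos hh l)]
      exact (ker_cb hh hS l.length v z l le_rfl z rfl).trans (mul_le_mul_of_nonneg_left
        (env_le hh (v - z)) (zero_le_one.trans (KB.cst_one _)))⟩⟩

/-- the column integral of one kernel -/
lemma col_ker_le {B : ℝ} {k : ℕ} (hh : ∀ i, 0 < h i) (hS : PD h S0) (hb : Sm b) (hD : BdD b)
    (hB : CB k h univ b B) (hn : Continuous n) (I : Set ℝ) (hl : l.length ≤ k)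
    (hl' : ∀ i ∈ l, i ≠ 2) (v w : V) :
    hp h l * |pds l (colI n I fun z => b z * ker S0 (v - z)) w| ≤
      2 ^ k * KB.cst k * B * colI n I (indicator (tsupport b) fun z => env h (v - z)) w := by
  have p0 := (hp_pos hh l).le
  have c : Continuous fun r => cpt n w r := (continuous_cpt hn).comp (Continuous.prodMk_left w)
  have i : Integrable fun r => indicator (tsupport b) (fun z => env h (v - z)) (cpt n w r) :=
    (env_col hh hn v w).indicator ((isClosed_tsupport b).preimage c).measurableSet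
  rw [((colD_ker hh hS v).bmul hb hD).pds_colI hn I hl', colI, colI, ← abs_of_nonneg p0, ← abs_mul,
    ← integral_const_mul, ← integral_const_mul, ← Real.norm_eq_abs]
  refine norm_integral_le_of_norm_le (i.integrableOn.const_mul _) (Eventually.of_forall fun r => ?_)
  rw [Real.norm_eq_abs, abs_mul, abs_of_nonneg p0]
  by_cases hr : cpt n w r ∈ tsupport b
  · rw [indicator_of_mem hr]; exact bk_le hh hS hb hB hl v _
  · rw [indicator_of_notMem hr, pds_zero_off (g := fun z => b z * ker S0 (v - z))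
      (isClosed_tsupport b) (fun x hx => by
        rw [image_eq_zero_of_notMem_tsupport hx, zero_mul]) l _ hr]
    simp

/-! ## the density -/

variable {U : Set V} {a : V → ℝ} {A : ℝ} {Z : V → V} {S : V → Mx}

/-- the integrand -/
def fm (b a : V → ℝ) (Z : V → V) (S : V → Mx) (x z : V) : ℝ := a x * (b z * ker (S x) (Z x - z))

lemma fm_sm (hb : Sm b) (x : V) : Sm (fm b a Z S x) :=
  Sm.cmul (hb.mul (sm_ker (S x) (Z x))) _

lemma fm_int (b a : V → ℝ) (Z : V → V) (S : V → Mx) :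
    (fun z => b z * dens a Z S z) = fun z => ∫ x, fm b a Z S x z := by
  funext z
  rw [dens, ← integral_const_mul]
  simp only [fm, mul_left_comm]

lemma fm_meas (K : KL h U a A Z S) (hb : Sm b) (l : List (Fin 3)) :
    Measurable fun y : V × V => pds l (fm b a Z S y.1) y.2 := by
  refine meas_pds (fm_sm hb) ?_ l
  have := (hb.continuous.measurable.comp measurable_snd).mul
    ((K1.meas2 (KB.gk K) (.cst 1)).comp measurable_swap)
  simp only [fm, ← mul_left_comm (b _), K1.tm_one]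
  exact this

lemma fm_bd (K : KL h U a A Z S) (hb : Sm b) (hD : BdD b) (l : List (Fin 3)) : ∃ C : ℝ, 0 ≤ C ∧
    ∀ x z, |pds l (fm b a Z S x) z| ≤
      indicator U (fun _ => C) x * Real.exp (-((0 - z 2) / h 2) ^ 2 / 60) := by
  obtain ⟨B, hB⟩ := hD.cb (fun i => (K.hh i).le) l.length
  obtain ⟨M, hM⟩ := K.cl.exists_bound_of_continuousOn
    (f := fun x => (Z x 2 / h 2) ^ 2) (by have := K.dZ.continuous; fun_prop)
  have A0 : 0 ≤ A := (abs_nonneg _).trans (K.ba 0)
  have B0 : 0 ≤ B := hB.nonneg (mem_univ 0)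
  have c0 := zero_le_one.trans (KB.cst_one l.length)
  have p0 := hp_pos K.hh l
  have h0 := K.hh 0
  have h1 := K.hh 1
  have h2 := K.hh 2
  refine ⟨A * (2 ^ l.length * KB.cst l.length * B * (Real.exp (M / 30) / (h 0 * h 1 * h 2)) /
    hp h l), by positivity, fun x z => ?_⟩
  unfold fm
  rw [pds_const_mul]
  by_cases hx : x ∈ U
  swap
  · simp [indicator_of_notMem hx, K.sa x hx]
  have e1 : env h (Z x - z) ≤ Real.exp (M / 30) / (h 0 * h 1 * h 2) *
      Real.exp (-((0 - z 2) / h 2) ^ 2 / 60) := by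
    refine (env_le K.hh _).trans ?_
    rw [div_mul_eq_mul_div, ← Real.exp_add]
    refine div_le_div_of_nonneg_right (Real.exp_le_exp.2 ?_) (by positivity)
    have := (le_abs_self _).trans (hM x hx)
    rw [Pi.sub_apply, sub_div, sub_div, zero_div]
    nlinarith [sq_nonneg (2 * (Z x 2 / h 2) - z 2 / h 2)]
  have e2 := (bk_le K.hh (K.bS x hx) hb hB le_rfl (Z x) z).trans
    (mul_le_mul_of_nonneg_left e1 (by positivity))
  rw [← le_div_iff₀' p0] at e2
  rw [indicator_of_mem hx, abs_mul, mul_assoc]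
  exact mul_le_mul (K.ba x) (e2.trans_eq (by ring)) (abs_nonneg _) A0

lemma ind_int (K : KL h U a A Z S) (C : ℝ) : Integrable (indicator U fun _ => C) :=
  (integrable_indicator_iff K.cl.measurableSet).2 (integrableOn_const K.cl.measure_lt_top.ne)

lemma ind_nonneg {C : ℝ} (hC : 0 ≤ C) (U : Set V) (x : V) : 0 ≤ indicator U (fun _ => C) x :=
  indicator_nonneg (fun _ _ => hC) x

lemma fm_dom (K : KL h U a A Z S) (hb : Sm b) (hD : BdD b) : Dom volume (fm b a Z S) := by
  refine ⟨fm_sm hb, fun l z => ((fm_meas K hb l).comp measurable_prodMk_right).aestronglyMeasurable,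
    fun l z => ?_⟩
  obtain ⟨C, c0, hC⟩ := fm_bd K hb hD l
  refine ⟨univ, univ_mem, _, ind_int K C, Eventually.of_forall fun x y _ => (hC x y).trans ?_⟩
  refine mul_le_of_le_one_right (ind_nonneg c0 U x) (Real.exp_le_one_iff.2 ?_)
  linarith [sq_nonneg ((0 - y 2) / h 2)]

lemma fm_colD (K : KL h U a A Z S) (hb : Sm b) (hD : BdD b) (x : V) : ColD (fm b a Z S x) :=
  ⟨fm_sm hb x, fun l => by
    obtain ⟨C, -, hC⟩ := fm_bd K hb hD l
    exact ⟨_, (gauss1 (a := 60) (by norm_num) (K.hh 2) 0).1.const_mul _, hC x⟩⟩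

theorem colD_dens (K : KL h U a A Z S) (hb : Sm b) (hD : BdD b) :
    ColD fun z => b z * dens a Z S z := by
  rw [fm_int]
  refine ⟨(fm_dom K hb hD).sm_integral, fun l => ?_⟩
  obtain ⟨C, -, hC⟩ := fm_bd K hb hD l
  refine ⟨fun r => (∫ x, indicator U (fun _ => C) x) * Real.exp (-((0 - r) / h 2) ^ 2 / 60),
    (gauss1 (a := 60) (by norm_num) (K.hh 2) 0).1.const_mul _, fun z => ?_⟩
  rw [(fm_dom K hb hD).pds_integral]
  beta_reduce
  rw [← integral_mul_const, ← Real.norm_eq_abs]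
  exact norm_integral_le_of_norm_le ((ind_int K C).mul_const _) (Eventually.of_forall fun x => hC x z)

/-- kernel representation of a column integral -/
theorem col_dens (K : KL h U a A Z S) (hb : Sm b) (hD : BdD b) (hn : Continuous n) (I : Set ℝ)
    (hl : ∀ i ∈ l, i ≠ 2) (w : V) :
    Integrable (fun x => a x * pds l (colI n I fun z => b z * ker (S x) (Z x - z)) w) ∧
      pds l (colI n I fun z => b z * dens a Z S z) w =
        ∫ x, a x * pds l (colI n I fun z => b z * ker (S x) (Z x - z)) w := by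
  have e : ∀ x, a x * pds l (colI n I fun z => b z * ker (S x) (Z x - z)) w =
      ∫ r in I, pds l (fm b a Z S x) (cpt n w r) := fun x => by
    have := congrFun ((fm_colD K hb hD x).pds_colI hn I hl) w
    unfold fm at this ⊢
    rwa [colI_const_mul, pds_const_mul] at this
  obtain ⟨C, -, hC⟩ := fm_bd K hb hD l
  have c : Continuous fun r => cpt n w r := (continuous_cpt hn).comp (Continuous.prodMk_left w)
  have i : Integrable (fun p : V × ℝ => pds l (fm b a Z S p.1) (cpt n w p.2))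
      (volume.prod (volume.restrict I)) :=
    ((ind_int K C).mul_prod (gauss1 (a := 60) (by norm_num) (K.hh 2) 0).1.integrableOn).mono'
      ((fm_meas K hb l).comp (measurable_fst.prodMk
        (c.measurable.comp measurable_snd))).aestronglyMeasurable
      (Eventually.of_forall fun p => hC p.1 (cpt n w p.2))
  simp only [e]
  refine ⟨i.integral_prod_left, ?_⟩
  rw [(colD_dens K hb hD).pds_colI hn I hl, fm_int, (fm_dom K hb hD).pds_integral, colI]
  exact (integral_integral_swap i).symm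

end ColP

/-- a density is dominated along columns -/
theorem KL.colD {h : V} {U : Set V} {a : V → ℝ} {A : ℝ} {Z : V → V} {S : V → Mx}
    (K : KL h U a A Z S) : ColD (dens a Z S) := by
  simpa only [one_mul] using ColP.colD_dens K (sm_const 1) (BdD.const 1)

end
end Pool.Agent.MP_20bec2_an.T3

end MrgPart0

-- ======== part 1: formerly Pool.Agent.MP_20bec2_an.T3.ColC
section MrgPart1

/-! Envelopes along columns, Fubini along a chart, slices and slabs. -/

set_option autoImplicit false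
open MeasureTheory Set Filter Matrix Topology

namespace Pool.Agent.MP_20bec2_an.T3
noncomputable section

namespace ColP

variable {h : V} {n : ℝ → V} {κ : ℝ}

/-! ## the envelope -/

lemma env_neg (h v z : V) : env h (v - z) = env h (z - v) := by
  have e : ∀ i, ((v - z) i / h i) ^ 2 = ((z - v) i / h i) ^ 2 := fun i => by
    simp only [Pi.sub_apply]
    ring
  simp only [env, e]

lemma env_int (hh : ∀ i, 0 < h i) (v : V) :
    Integrable (fun z => env h (v - z)) ∧ ∫ z, env h (v - z) ≤ 1331 := by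
  have e : (fun z => env h (v - z)) = fun z : V =>
      Real.exp (-∑ i, (30 * h i ^ 2)⁻¹ * (z i - v i) ^ 2) / (h 0 * h 1 * h 2) := by
    funext z
    unfold env
    rw [neg_div, Finset.sum_div]
    congr 3
    refine Finset.sum_congr rfl fun i _ => ?_
    have := (hh i).ne'
    rw [Pi.sub_apply]
    field_simp
    ring
  obtain ⟨g1, g2⟩ := KBA.gauss_int (fun i => (30 * h i ^ 2)⁻¹) v fun i => by
    have := hh i
    positivity
  have e3 : ∀ i, Real.sqrt (Real.pi / (30 * h i ^ 2)⁻¹) ≤ 11 * h i := fun i => by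
    have := hh i
    refine Real.sqrt_le_iff.2 ⟨by positivity, ?_⟩
    rw [div_inv_eq_mul]
    nlinarith [Real.pi_lt_four, sq_pos_of_pos this]
  have h0 := hh 0
  have h1 := hh 1
  have h2 := hh 2
  rw [e]
  refine ⟨g1.div_const _, ?_⟩
  rw [integral_div, g2, Fin.prod_univ_three, div_le_iff₀ (by positivity)]
  calc _ ≤ 11 * h 0 * (11 * h 1) * (11 * h 2) := by gcongr <;> exact e3 _
    _ = _ := by ring

lemma env_comp (hh : ∀ i, 0 < h i) {U : Set V} {Z : V → V} (hU : Convex ℝ U) (hc : IsCompact U)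
    (hZ : ContDiff ℝ 1 Z) (hb : ∀ x ∈ U, EB (jm Z x - 1) (cm (1 / 100))) (w : V) :
    ∫ x in U, env h (Z x - w) ≤ 2662 := by
  have := KB.int_comp_le hU hc hZ hb (φ := fun y => env h (w - y))
    ((env_cont h).comp (continuous_const.sub continuous_id)) (fun y => (env_pos hh _).le)
    (env_int hh w).1
  simp only [env_neg h _ w]
  linarith [(env_int hh w).2]

lemma lat_ge (hh : ∀ i, 0 < h i) (hn : Sm n) {i : Fin 3}
    (h1 : ∀ r, |deriv (fun r => n r i) r| ≤ κ) (h2 : κ * h 2 ≤ h i / 100) (a t r : ℝ) :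
    ((a - n t i) / h i) ^ 2 / 2 - ((t - r) / h 2) ^ 2 / 10000 ≤ ((a - n r i) / h i) ^ 2 := by
  have h3 : |n t i - n r i| ≤ κ * |t - r| :=
    Convex.norm_image_sub_le_of_norm_deriv_le (f := fun r => n r i)
      (fun x _ => (hn.coord i).dif x) (fun x _ => h1 x) convex_univ (mem_univ r) (mem_univ t)
  have h4 : |(n t i - n r i) / h i| ≤ |(t - r) / h 2| / 100 := by
    rw [abs_div, abs_div, abs_of_pos (hh i), abs_of_pos (hh 2), div_div,
      div_le_div_iff₀ (hh i) (mul_pos (hh 2) (by norm_num))]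
    linarith [mul_le_mul_of_nonneg_right h3 (hh 2).le,
      mul_le_mul_of_nonneg_right h2 (abs_nonneg (t - r))]
  have h5 := pow_le_pow_left₀ (abs_nonneg _) h4 2
  rw [div_pow, sq_abs, sq_abs] at h5
  have e : (a - n r i) / h i = (a - n t i) / h i + (n t i - n r i) / h i := by ring
  rw [e]
  nlinarith [sq_nonneg ((a - n t i) / h i + 2 * ((n t i - n r i) / h i))]

/-- the envelope along a part of a column -/
lemma col_env_le (hh : ∀ i, 0 < h i) (hn : Sm n)
    (hκ : ∀ i, i ≠ 2 → (∀ r, |deriv (fun r => n r i) r| ≤ κ) ∧ κ * h 2 ≤ h i / 100) (I : Set ℝ)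
    (v w : V) {e : ℝ} (he : 0 ≤ e) (hI : ∀ r ∈ I, e ≤ |r - v 2|) :
    colI n I (fun z => env h (v - z)) w ≤ 20 / (h 0 * h 1) *
      Real.exp (-lat2 h (cin n v - w) / 60) * Real.exp (-(e / h 2) ^ 2 / 60) := by
  have h0 := hh 0
  have h1 := hh 1
  have h2 := hh 2
  obtain ⟨g1, g2⟩ := gauss1 (a := 100) (by norm_num) h2 (v 2)
  have i := env_col hh hn.continuous v w
  have hT : MeasurableSet {r : ℝ | e ≤ |r - v 2|} :=
    (isClosed_le continuous_const (continuous_id.sub continuous_const).abs).measurableSet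
  set c := Real.exp (-lat2 h (cin n v - w) / 60) * Real.exp (-(e / h 2) ^ 2 / 60) /
    (h 0 * h 1 * h 2) with hc
  have c0 : 0 ≤ c := by positivity
  have sq : Real.sqrt (Real.pi * 100) ≤ 20 :=
    Real.sqrt_le_iff.2 ⟨by norm_num, by linarith [Real.pi_lt_four]⟩
  calc colI n I (fun z => env h (v - z)) w
      ≤ ∫ r in {r : ℝ | e ≤ |r - v 2|}, env h (v - cpt n w r) :=
        setIntegral_mono_set i.integrableOn (Eventually.of_forall fun r => (env_pos hh _).le)
          (Eventually.of_forall hI)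
    _ ≤ ∫ r in {r : ℝ | e ≤ |r - v 2|}, c * Real.exp (-((v 2 - r) / h 2) ^ 2 / 100) := by
        refine setIntegral_mono_on i.integrableOn (g1.const_mul c).integrableOn hT fun r hr => ?_
        have k0 := lat_ge hh hn (hκ 0 (by decide)).1 (hκ 0 (by decide)).2 (v 0 - w 0) (v 2) r
        have k1 := lat_ge hh hn (hκ 1 (by decide)).1 (hκ 1 (by decide)).2 (v 1 - w 1) (v 2) r
        have k2 : (e / h 2) ^ 2 ≤ ((v 2 - r) / h 2) ^ 2 := by
          rw [div_pow, div_pow, ← sq_abs (v 2 - r), abs_sub_comm]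
          exact div_le_div_of_nonneg_right (pow_le_pow_left₀ he hr 2) (by positivity)
        have e0 : (v - cpt n w r) 0 = v 0 - w 0 - n r 0 := by simp [cpt]; ring
        have e1 : (v - cpt n w r) 1 = v 1 - w 1 - n r 1 := by simp [cpt]; ring
        have e2 : (v - cpt n w r) 2 = v 2 - r := rfl
        have f0 : (cin n v - w) 0 = v 0 - w 0 - n (v 2) 0 := by simp [cin]; ring
        have f1 : (cin n v - w) 1 = v 1 - w 1 - n (v 2) 1 := by simp [cin]; ring
        rw [hc, env, div_mul_eq_mul_div, ← Real.exp_add, ← Real.exp_add, Fin.sum_univ_three, lat2,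
          e0, e1, e2, f0, f1]
        refine div_le_div_of_nonneg_right (Real.exp_le_exp.2 ?_) (by positivity)
        linarith [sq_nonneg ((v 2 - r) / h 2)]
    _ ≤ ∫ r, c * Real.exp (-((v 2 - r) / h 2) ^ 2 / 100) :=
        setIntegral_le_integral (g1.const_mul c) (Eventually.of_forall fun r => by positivity)
    _ ≤ c * (20 * h 2) := by rw [integral_const_mul, g2]; gcongr
    _ = _ := by rw [hc]; field_simp

/-! ## Fubini along a chart -/

lemma mp_int {α β : Type} [MeasurableSpace α] [MeasurableSpace β] {μ : Measure α} {ν : Measure β}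
    {Φ : α → β} (H : MeasurePreserving Φ μ ν) {g : β → ℝ} (hg : Integrable g ν) :
    ∫ x, g (Φ x) ∂μ = ∫ y, g y ∂ν := by
  rw [← H.map_eq] at hg ⊢
  exact (integral_map H.measurable.aemeasurable hg.aestronglyMeasurable).symm

lemma mp_flat : MeasurePreserving (fun p : ℝ × ℝ × ℝ => (![p.2.1, p.2.2, p.1] : V))
    (volume.prod volume) volume := by
  have := ((volume_preserving_piFinSuccAbove (fun _ : Fin 3 => ℝ) 2).symm _).comp
    ((MeasurePreserving.id volume).prod ((volume_preserving_finTwoArrow ℝ).symm _))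
  have e : (fun p : ℝ × ℝ × ℝ => (![p.2.1, p.2.2, p.1] : V)) =
      (MeasurableEquiv.piFinSuccAbove (fun _ : Fin 3 => ℝ) 2).symm ∘
        Prod.map id MeasurableEquiv.finTwoArrow.symm := by
    funext p i
    fin_cases i <;> rfl
  rw [e]
  exact this

lemma mp_chart (hn : Continuous n) : MeasurePreserving
    (fun p : ℝ × ℝ × ℝ => cpt n ![p.2.1, p.2.2, 0] p.1) (volume.prod volume) volume :=
  mp_flat.comp ((MeasurePreserving.id volume).skew_product
    (g := fun (r : ℝ) (w : ℝ × ℝ) => w + (n r 0, n r 1)) (by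
      have : Continuous fun p : ℝ × ℝ × ℝ => p.2 + (n p.1 0, n p.1 1) := by fun_prop
      exact this.measurable)
    (Eventually.of_forall fun r => map_add_right_eq_self volume _))

lemma tot_int (hn : Continuous n) {g : V → ℝ} (hg : Integrable g) :
    Integrable (fun w : ℝ × ℝ => tot n g ![w.1, w.2, 0]) ∧
      ∫ w : ℝ × ℝ, tot n g ![w.1, w.2, 0] = ∫ z, g z := by
  have i := (mp_chart hn).integrable_comp_of_integrable hg
  exact ⟨i.integral_prod_right, (integral_prod_symm _ i).symm.trans (mp_int (mp_chart hn) hg)⟩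

/-! ## change of variables in a slice -/

lemma det2 (L : ℝ × ℝ →L[ℝ] ℝ × ℝ) :
    L.det = (L (1, 0)).1 * (L (0, 1)).2 - (L (0, 1)).1 * (L (1, 0)).2 := by
  rw [ContinuousLinearMap.det, ← LinearMap.det_toMatrix (Module.Basis.finTwoProd ℝ),
    Matrix.det_fin_two]
  simp [LinearMap.toMatrix_apply]

lemma det2_ge {L : ℝ × ℝ →L[ℝ] ℝ × ℝ} (hL : ∀ v, ‖L v - v‖ ≤ 1 / 10 * ‖v‖) : 1 / 2 ≤ L.det := by
  have a := hL (1, 0)
  have b := hL (0, 1)
  simp only [Prod.norm_def, Prod.fst_sub, Prod.snd_sub, Real.norm_eq_abs, abs_one, abs_zero,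
    sub_zero, max_le_iff, zero_le_one, max_eq_left, max_eq_right, mul_one, abs_le] at a b
  rw [det2]
  nlinarith [mul_nonneg (sub_nonneg.2 a.1.1) (sub_nonneg.2 b.2.1),
    mul_nonneg (sub_nonneg.2 b.1.1) (sub_nonneg.2 a.2.2),
    mul_nonneg (sub_nonneg.2 b.1.2) (sub_nonneg.2 a.2.1)]

lemma cov2 {K : Set (ℝ × ℝ)} {F : ℝ × ℝ → ℝ × ℝ} (hK : Convex ℝ K) (hc : IsCompact K)
    (hF : ContDiff ℝ 1 F) (hb : ∀ x ∈ K, ∀ v, ‖fderiv ℝ F x v - v‖ ≤ 1 / 10 * ‖v‖)
    {φ : ℝ × ℝ → ℝ} (φc : Continuous φ) (φ0 : ∀ y, 0 ≤ φ y) (φi : Integrable φ) :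
    ∫ x in K, φ (F x) ≤ 2 * ∫ y, φ y := by
  have hd : Differentiable ℝ F := hF.differentiable (by norm_num)
  have hm := hc.measurableSet
  have inj : InjOn F K := fun x hx y hy hxy => by
    have h := Convex.norm_image_sub_le_of_norm_hasFDerivWithin_le (f := fun x => F x - x)
      (f' := fun x => fderiv ℝ F x - ContinuousLinearMap.id ℝ (ℝ × ℝ)) (C := 1 / 10)
      (fun x _ => ((hd x).hasFDerivAt.sub (hasFDerivAt_id x)).hasFDerivWithinAt)
      (fun x hx => ContinuousLinearMap.opNorm_le_bound _ (by norm_num) (hb x hx)) hK hx hy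
    rw [hxy, sub_sub_sub_cancel_left, norm_sub_rev] at h
    have : ‖y - x‖ = 0 := le_antisymm (by linarith) (norm_nonneg _)
    exact (sub_eq_zero.1 (norm_eq_zero.1 this)).symm
  have h1 := integral_image_eq_integral_abs_det_fderiv_smul volume hm
    (fun x _ => (hd x).hasFDerivAt.hasFDerivWithinAt) inj φ
  have h2 : ∫ y in F '' K, φ y ≤ ∫ y, φ y := setIntegral_le_integral φi (Eventually.of_forall φ0)
  have c1 : Continuous fun x => φ (F x) := φc.comp hF.continuous
  have c2 : Continuous fun x => |(fderiv ℝ F x).det| • φ (F x) :=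
    (ContinuousLinearMap.continuous_det.comp (hF.continuous_fderiv (by norm_num))).abs.smul c1
  have h3 : ∫ x in K, φ (F x) ≤ ∫ x in K, 2 * (|(fderiv ℝ F x).det| • φ (F x)) := by
    refine setIntegral_mono_on (c1.continuousOn.integrableOn_compact hc)
      ((c2.continuousOn.integrableOn_compact hc).const_mul 2) hm fun x hx => ?_
    have := (det2_ge (hb x hx)).trans (le_abs_self _)
    rw [smul_eq_mul]
    nlinarith [φ0 (F x)]
  rw [integral_const_mul, ← h1] at h3
  linarith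

/-- the lateral Gaussian -/
lemma gauss2 (hh : ∀ i, 0 < h i) (w : V) :
    Integrable (fun y : ℝ × ℝ => Real.exp (-((w 0 - y.1) / h 0) ^ 2 / 240) *
      Real.exp (-((w 1 - y.2) / h 1) ^ 2 / 240)) ∧
    ∫ y : ℝ × ℝ, Real.exp (-((w 0 - y.1) / h 0) ^ 2 / 240) *
      Real.exp (-((w 1 - y.2) / h 1) ^ 2 / 240) ≤ 961 * (h 0 * h 1) := by
  obtain ⟨a1, a2⟩ := gauss1 (a := 240) (by norm_num) (hh 0) (w 0)
  obtain ⟨b1, b2⟩ := gauss1 (a := 240) (by norm_num) (hh 1) (w 1)
  refine ⟨a1.mul_prod b1, ?_⟩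
  have sq : Real.sqrt (Real.pi * 240) ≤ 31 :=
    Real.sqrt_le_iff.2 ⟨by norm_num, by linarith [Real.pi_lt_four]⟩
  have h0 := hh 0
  have h1 := hh 1
  rw [Measure.volume_eq_prod, integral_prod_mul (fun t => Real.exp (-((w 0 - t) / h 0) ^ 2 / 240))
    (fun t => Real.exp (-((w 1 - t) / h 1) ^ 2 / 240)), a2, b2]
  calc _ ≤ 31 * h 0 * (31 * h 1) := by gcongr
    _ = _ := by ring

/-- the horizontal plane -/
def pln : ℝ × ℝ →L[ℝ] V := ContinuousLinearMap.pi
  ![ContinuousLinearMap.fst ℝ ℝ ℝ, ContinuousLinearMap.snd ℝ ℝ ℝ, 0]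

lemma pln_apply (v : ℝ × ℝ) : pln v = ![v.1, v.2, 0] := by
  funext i; fin_cases i <;> rfl

lemma pln_add (s : ℝ) (x : ℝ × ℝ) : (![x.1, x.2, s] : V) = pln x + ![0, 0, s] := by
  funext i; fin_cases i <;> simp [pln_apply]

lemma slice_le (hh : ∀ i, 0 < h i) (hn : Sm n) (h1 : ∀ i, i ≠ 2 → ∀ r, |deriv (fun r => n r i) r| ≤ κ)
    (hκ : κ ≤ 1) {U : Set V} {Z : V → V} (hU : Convex ℝ U) (hc : IsCompact U)
    (hZ : ContDiff ℝ 1 Z) (hb : ∀ x ∈ U, EB (jm Z x - 1) (cm (1 / 100))) (w : V) (s : ℝ) :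
    ∫ x : ℝ × ℝ in {x | ![x.1, x.2, s] ∈ U},
      Real.exp (-lat2 h (cin n (Z ![x.1, x.2, s]) - w) / 240) ≤ 1922 * (h 0 * h 1) := by
  have hd : Differentiable ℝ Z := hZ.differentiable (by norm_num)
  have cι : ContDiff ℝ 1 fun x : ℝ × ℝ => (![x.1, x.2, s] : V) := by
    simp only [pln_add s]; exact pln.contDiff.add contDiff_const
  have cY : ∀ i, ContDiff ℝ 1 fun x : ℝ × ℝ => Z ![x.1, x.2, s] i := fun i =>
    contDiff_pi.1 (hZ.comp cι) i
  have cF : ∀ i, ContDiff ℝ 1 fun x : ℝ × ℝ => Z ![x.1, x.2, s] i - n (Z ![x.1, x.2, s] 2) i :=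
    fun i => (cY i).sub ((hn.coord i).one.comp (cY 2))
  have hK : Convex ℝ {x : ℝ × ℝ | (![x.1, x.2, s] : V) ∈ U} := by
    simp only [pln_add s]
    exact (hU.translate_preimage_left _).linear_preimage (pln : ℝ × ℝ →ₗ[ℝ] V)
  have hC : IsCompact {x : ℝ × ℝ | (![x.1, x.2, s] : V) ∈ U} :=
    (hc.image (f := fun z : V => (z 0, z 1)) (by fun_prop)).of_isClosed_subset
      (hc.isClosed.preimage cι.continuous) fun x hx => ⟨_, hx, rfl⟩
  obtain ⟨g1, g2⟩ := gauss2 hh w
  have key := cov2 (F := fun x : ℝ × ℝ => (Z ![x.1, x.2, s] 0 - n (Z ![x.1, x.2, s] 2) 0,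
    Z ![x.1, x.2, s] 1 - n (Z ![x.1, x.2, s] 2) 1)) hK hC ((cF 0).prodMk (cF 1)) (fun x hx v => ?_)
    (by fun_prop) (fun y => by positivity) g1
  · refine le_trans (le_of_eq ?_) (key.trans (by linarith))
    congr 1
    funext x
    rw [← Real.exp_add]
    congr 1
    simp [lat2, cin]
    ring
  have dι : HasFDerivAt (fun x : ℝ × ℝ => (![x.1, x.2, s] : V)) pln x := by
    simp only [pln_add s]; exact pln.hasFDerivAt.add_const _
  have dY := fun i => hasFDerivAt_pi'.1 ((hd _).hasFDerivAt.comp x dι) i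
  have dF := fun i => (dY i).sub (((hn.coord i).dif _).hasDerivAt.comp_hasFDerivAt x (dY 2))
  have E : ∀ i, |fderiv ℝ Z ![x.1, x.2, s] (pln v) i - pln v i| ≤ 2 / 100 * ‖v‖ := fun i => by
    have t0 := mul_le_mul (hb _ hx i 0) (norm_fst_le v) (abs_nonneg _) (by simp [cm])
    have t1 := mul_le_mul (hb _ hx i 1) (norm_snd_le v) (abs_nonneg _) (by simp [cm])
    have e : fderiv ℝ Z ![x.1, x.2, s] (pln v) i - pln v i =
        (jm Z ![x.1, x.2, s] - 1) i 0 * v.1 + (jm Z ![x.1, x.2, s] - 1) i 1 * v.2 := by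
      rw [KB.fderiv_eq (hd _), ← Pi.sub_apply]
      nth_rewrite 2 [← one_mulVec (pln v)]
      rw [← sub_mulVec, pln_apply]
      simp [mulVec, dotProduct, Fin.sum_univ_three]
    rw [Real.norm_eq_abs, ← abs_mul] at t0 t1
    rw [e]
    refine (abs_add_le _ _).trans ?_
    simp only [cm, of_apply] at t0 t1
    linarith
  have G : ∀ i, i ≠ 2 → |fderiv ℝ Z ![x.1, x.2, s] (pln v) i - deriv (fun r => n r i)
      (Z ![x.1, x.2, s] 2) * fderiv ℝ Z ![x.1, x.2, s] (pln v) 2 - pln v i| ≤ 1 / 10 * ‖v‖ :=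
    fun i hi => by
      have t := E 2
      rw [show pln v 2 = 0 from rfl, sub_zero] at t
      have u := mul_le_mul ((h1 i hi (Z ![x.1, x.2, s] 2)).trans hκ) t (abs_nonneg _) zero_le_one
      rw [← abs_mul] at u
      have := norm_nonneg v
      exact abs_le.2 ⟨by linarith [abs_le.1 u, abs_le.1 (E i)], by linarith [abs_le.1 u, abs_le.1 (E i)]⟩
  have := ((dF 0).prodMk (dF 1)).fderiv
  refine le_trans (le_of_eq (congrArg (fun L : ℝ × ℝ →L[ℝ] ℝ × ℝ => ‖L v - v‖) this)) ?_
  exact max_le (G 0 (by decide)) (G 1 (by decide))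

/-- from slices to a slab -/
lemma slab_le {U : Set V} (hc : IsCompact U) {f : V → ℝ} (hf : Continuous f) {B a b : ℝ}
    (hab : a ≤ b) (H : ∀ s : ℝ, ∫ x : ℝ × ℝ in {x | ![x.1, x.2, s] ∈ U}, f ![x.1, x.2, s] ≤ B) :
    ∫ x in U ∩ {x | x 2 ∈ Icc a b}, f x ≤ B * (b - a) := by
  have hT : IsCompact (U ∩ {x : V | x 2 ∈ Icc a b}) :=
    hc.inter_right (isClosed_Icc.preimage (continuous_apply 2))
  have i : Integrable (indicator (U ∩ {x : V | x 2 ∈ Icc a b}) f) :=
    (integrable_indicator_iff hT.measurableSet).2 (hf.continuousOn.integrableOn_compact hT)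
  have i2 := mp_flat.integrable_comp_of_integrable i
  rw [← integral_indicator hT.measurableSet, ← mp_int mp_flat i]
  refine (integral_prod _ i2).trans_le ((integral_mono i2.integral_prod_left
    ((integrable_indicator_iff measurableSet_Icc).2 (integrableOn_const (C := B)
      (measure_Icc_lt_top (a := a) (b := b)).ne)) fun s => ?_).trans_eq ?_)
  · by_cases hs : s ∈ Icc a b
    · have m : MeasurableSet {x : ℝ × ℝ | (![x.1, x.2, s] : V) ∈ U} :=
        (hc.isClosed.preimage (by simp only [pln_add s]; fun_prop)).measurableSet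
      rw [indicator_of_mem hs]
      refine le_trans (le_of_eq ?_) (H s)
      rw [← integral_indicator m]
      congr 1
      funext x
      by_cases hx : (![x.1, x.2, s] : V) ∈ U
      · exact (indicator_of_mem (show _ ∈ U ∩ _ from ⟨hx, hs⟩) f).trans (indicator_of_mem hx _).symm
      · exact (indicator_of_notMem (fun k => hx k.1) f).trans (indicator_of_notMem hx _).symm
    · rw [indicator_of_notMem hs]
      exact le_of_eq (integral_eq_zero_of_ae (Eventually.of_forall fun x =>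
        indicator_of_notMem (fun k => hs k.2) f))
  · rw [integral_indicator measurableSet_Icc]
    simp [hab, mul_comm]

end ColP

end
end Pool.Agent.MP_20bec2_an.T3

end MrgPart1

-- ======== part 2: formerly Pool.Agent.MP_20bec2_an.T3.Colk
section MrgPart2

/-! Row COLK: the tool box for columns. -/

set_option autoImplicit false
open MeasureTheory Set Filter Matrix Topology

namespace Pool.Agent.MP_20bec2_an.T3
noncomputable section

open ColP in
theorem colk : ColkStmt := by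
  have c1 := KB.cst_one 6
  have hL := @mem_LL 6
  unfold ColkStmt
  generalize LL 6 = L at hL ⊢
  refine ⟨2 ^ 6 * KB.cst 6 + 3000, by linarith, fun h n κ hh hn hκ hκ' => ⟨fun b Bc I hb hD hB _ =>
    ⟨fun U a A Z S K => ?_, fun S v hS l hl w => ?_⟩, fun I v w e he hI => ?_,
    fun g hg => tot_int hn.continuous hg,
    fun v => ⟨(env_int hh v).1, by linarith [(env_int hh v).2]⟩,
    fun U Z w a b hU hc hZ hb hab => ?_⟩⟩
  · have H := colD_dens K hb hD
    exact ⟨H, H.sm_colI hn.continuous I, H.sm_pre hn, H.pd_two_pre hn.continuous, fun l hl =>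
      ⟨H.pds_pre hn.continuous (hL.1 hl).2, H.pds_colI hn.continuous I (hL.1 hl).2, fun w =>
        ⟨(H.pds l).integrable hn.continuous w, col_dens K hb hD hn.continuous I (hL.1 hl).2 w⟩⟩⟩
  · refine (col_ker_le hh hS hb hD hB hn.continuous I (hL.1 hl).1 (hL.1 hl).2 v w).trans ?_
    exact mul_le_mul_of_nonneg_right (mul_le_mul_of_nonneg_right (by linarith)
      (hB.nonneg (mem_univ 0))) (integral_nonneg fun r =>
        indicator_nonneg (fun _ _ => (env_pos hh _).le) _)
  · have h0 := hh 0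
    have h1 := hh 1
    refine (col_env_le hh hn hκ I v w he hI).trans ?_
    gcongr
    linarith
  · have p := (mul_pos (hh 0) (hh 1)).le
    have H : ∀ s : ℝ, ∫ x : ℝ × ℝ in {x | ![x.1, x.2, s] ∈ U},
        Real.exp (-lat2 h (cin n (Z ![x.1, x.2, s]) - w) / 240) ≤
        (2 ^ 6 * KB.cst 6 + 3000) * (h 0 * h 1) := fun s =>
      (slice_le hh hn (fun i hi => (hκ i hi).1) (by linarith) hU hc hZ hb w s).trans
        (mul_le_mul_of_nonneg_right (by linarith) p)
    refine ⟨by linarith [env_comp hh hU hc hZ hb w], H, slab_le hc ?_ hab H⟩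
    have := (continuous_cin hn.continuous).comp hZ.continuous
    unfold lat2
    fun_prop

end
end Pool.Agent.MP_20bec2_an.T3

end MrgPart2

-- marker of a merged file
example : 731051 + 876604 = 731051 + 876604 := rfl

end MrgPart0

-- ======== part 1: formerly Pool.Agent.MP_20bec2_an.T3.Hn
section MrgPart1

-- ======== part 0: formerly Pool.Agent.MP_20bec2_an.T3.DomA
section MrgPart0

/-! Column integrals of kernel densities for one chart and one multiplier. -/

set_option autoImplicit false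
open MeasureTheory Set Filter Matrix

namespace Pool.Agent.MP_20bec2_an.T3
noncomputable section
open Classical

attribute [local irreducible] LL

/-- what `ColkStmt` gives for one chart `n` and one multiplier `b` -/
structure CK (C : ℝ) (h : V) (n : ℝ → V) (b : V → ℝ) (Bc : ℝ) : Prop where
  C1 : 1 ≤ C
  hh : ∀ i, 0 < h i
  cn : Sm n
  B0 : 0 ≤ Bc
  cd : ∀ U a A Z S, KL h U a A Z S → ColD fun z => b z * dens a Z S z
  rep : ∀ I, MeasurableSet I → ∀ U a A Z S, KL h U a A Z S → ∀ l ∈ LL 6, ∀ w,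
    Integrable (fun x => a x * pds l (colI n I fun z => b z * ker (S x) (Z x - z)) w) ∧
    pds l (colI n I fun z => b z * dens a Z S z) w =
      ∫ x, a x * pds l (colI n I fun z => b z * ker (S x) (Z x - z)) w
  kb : ∀ I, MeasurableSet I → ∀ S v, PD h S → ∀ l ∈ LL 6, ∀ w,
    hp h l * |pds l (colI n I fun z => b z * ker S (v - z)) w| ≤
      C * Bc * colI n I (indicator (tsupport b) fun z => env h (v - z)) w
  ev : ∀ (I : Set ℝ) (v w : V) (e : ℝ), 0 ≤ e → (∀ r ∈ I, e ≤ |r - v 2|) →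
    colI n I (fun z => env h (v - z)) w ≤ C / (h 0 * h 1) *
      Real.exp (-lat2 h (cin n v - w) / 60) * Real.exp (-(e / h 2) ^ 2 / 60)

theorem ck_of_colk (H : ColkStmt) : ∃ C : ℝ, 1 ≤ C ∧ ∀ (h : V) (n : ℝ → V) (κ : ℝ) (b : V → ℝ)
    (Bc : ℝ), (∀ i, 0 < h i) → Sm n →
    (∀ i, i ≠ 2 → (∀ r, |deriv (fun r => n r i) r| ≤ κ) ∧ κ * h 2 ≤ h i / 100) → κ ≤ 1 / 1000 →
    Sm b → BdD b → CB 6 h univ b Bc → CK C h n b Bc := by
  obtain ⟨C, hC, H⟩ := H
  refine ⟨C, hC, fun h n κ b Bc hh hn hκ hκ' hb hB hc => ?_⟩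
  obtain ⟨H1, H2, -⟩ := H h n κ hh hn hκ hκ'
  refine ⟨hC, hh, hn, ?_, fun U a A Z S k => ((H1 b Bc univ hb hB hc .univ).1 U a A Z S k).1,
    fun I hI U a A Z S k l hl w => ?_, fun I hI => (H1 b Bc I hb hB hc hI).2, H2⟩
  · have := hc [] (Nat.zero_le _) 0 trivial
    exact le_trans (by simp) this
  · exact (((((H1 b Bc I hb hB hc hI).1 U a A Z S k).2.2.2.2 l hl).2.2 w).2)

/-! ## the envelope along a column -/

lemma env_nonneg {h : V} (hh : ∀ i, 0 < h i) (w : V) : 0 ≤ env h w := by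
  have := hh 0; have := hh 1; have := hh 2
  unfold env; positivity

lemma lat2_nonneg (h w : V) : 0 ≤ lat2 h w := by unfold lat2; positivity

lemma int_gauss {a c : ℝ} (ha : 0 < a) (hc : 0 < c) (t : ℝ) :
    Integrable fun r : ℝ => Real.exp (-((t - r) / a) ^ 2 / c) := by
  have := (integrable_exp_neg_mul_sq (b := 1 / (c * a ^ 2)) (by positivity)).comp_sub_left t
  refine this.congr (ae_of_all _ fun r => ?_)
  beta_reduce
  congr 1
  field_simp

lemma val_gauss {a : ℝ} (ha : 0 < a) (t : ℝ) :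
    ∫ r : ℝ, Real.exp (-((t - r) / a) ^ 2 / 60) ≤ 14 * a := by
  have e : (fun r : ℝ => Real.exp (-((t - r) / a) ^ 2 / 60)) =
      fun r => (fun x : ℝ => Real.exp (-(1 / (60 * a ^ 2)) * x ^ 2)) (t - r) := by
    funext r
    congr 1
    field_simp
  rw [e, integral_sub_left_eq_self (fun x : ℝ => Real.exp (-(1 / (60 * a ^ 2)) * x ^ 2)),
    integral_gaussian]
  refine Real.sqrt_le_iff.2 ⟨by positivity, ?_⟩
  rw [div_div_eq_mul_div, div_one]
  nlinarith [Real.pi_lt_d2, sq_nonneg a]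

lemma env_col_le {h : V} (hh : ∀ i, 0 < h i) (n : ℝ → V) (v w : V) (r : ℝ) :
    env h (v - cpt n w r) ≤ Real.exp (-((v 2 - r) / h 2) ^ 2 / 30) / (h 0 * h 1 * h 2) := by
  have := hh 0; have := hh 1; have := hh 2
  unfold env
  refine div_le_div_of_nonneg_right (Real.exp_le_exp.2 ?_) (by positivity)
  rw [Fin.sum_univ_three, Pi.sub_apply _ _ 2, cpt_two]
  nlinarith [sq_nonneg ((v - cpt n w r) 0 / h 0), sq_nonneg ((v - cpt n w r) 1 / h 1)]

lemma cont_cpt {n : ℝ → V} (hn : Continuous n) (w : V) : Continuous fun r => cpt n w r := by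
  unfold cpt; fun_prop

lemma int_env_col {h : V} (hh : ∀ i, 0 < h i) {n : ℝ → V} (hn : Continuous n) (v w : V) :
    Integrable fun r => env h (v - cpt n w r) := by
  have hc := cont_cpt hn w
  refine ((int_gauss (hh 2) (c := 30) (by norm_num) (v 2)).div_const (h 0 * h 1 * h 2)).mono'
    (Continuous.aestronglyMeasurable (by unfold env; fun_prop)) (ae_of_all _ fun r => ?_)
  rw [Real.norm_of_nonneg (env_nonneg hh _)]
  exact env_col_le hh n v w r

lemma col_ind_le {h : V} (hh : ∀ i, 0 < h i) {n : ℝ → V} (hn : Continuous n) (K : Set V)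
    (I : Set ℝ) (v w : V) :
    colI n I (indicator K fun z => env h (v - z)) w ≤ colI n I (fun z => env h (v - z)) w :=
  integral_mono_of_nonneg (ae_of_all _ fun _ => indicator_nonneg (fun _ _ => env_nonneg hh _) _)
    (int_env_col hh hn v w).integrableOn
    (ae_of_all _ fun _ => indicator_le_self' (fun _ _ => env_nonneg hh _) _)

/-- a column through a far set -/
lemma col_ind_far {h : V} (hh : ∀ i, 0 < h i) (n : ℝ → V) (K : Set V) (I : Set ℝ) (v w : V)
    {ρ : ℝ} (hρ : ∀ z ∈ K, ρ ≤ ∑ i, ((v - z) i / h i) ^ 2) :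
    colI n I (indicator K fun z => env h (v - z)) w ≤ 14 / (h 0 * h 1) * Real.exp (-ρ / 60) := by
  have := hh 0; have := hh 1; have h2 := hh 2
  have hi := (int_gauss h2 (c := 60) (by norm_num) (v 2)).const_mul
    (Real.exp (-ρ / 60) / (h 0 * h 1 * h 2))
  calc _ ≤ ∫ r in I, Real.exp (-ρ / 60) / (h 0 * h 1 * h 2) *
        Real.exp (-((v 2 - r) / h 2) ^ 2 / 60) := by
        refine integral_mono_of_nonneg
          (ae_of_all _ fun _ => indicator_nonneg (fun _ _ => env_nonneg hh _) _) hi.integrableOn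
          (ae_of_all _ fun r => ?_)
        beta_reduce
        by_cases hz : cpt n w r ∈ K
        · rw [indicator_of_mem hz, env, div_mul_eq_mul_div, ← Real.exp_add]
          refine div_le_div_of_nonneg_right (Real.exp_le_exp.2 ?_) (by positivity)
          have e := hρ _ hz
          rw [Fin.sum_univ_three, Pi.sub_apply _ _ 2, cpt_two] at e ⊢
          nlinarith [sq_nonneg ((v - cpt n w r) 0 / h 0), sq_nonneg ((v - cpt n w r) 1 / h 1)]
        · rw [indicator_of_notMem hz]; positivity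
    _ ≤ ∫ r, Real.exp (-ρ / 60) / (h 0 * h 1 * h 2) * Real.exp (-((v 2 - r) / h 2) ^ 2 / 60) :=
        setIntegral_le_integral hi (ae_of_all _ fun r => by positivity)
    _ ≤ Real.exp (-ρ / 60) / (h 0 * h 1 * h 2) * (14 * h 2) := by
        rw [integral_const_mul]
        exact mul_le_mul_of_nonneg_left (val_gauss h2 _) (by positivity)
    _ = _ := by field_simp

/-! ## functions with Gaussian decay in the lateral variables -/

def GD (h : V) (f : V → ℝ) : Prop :=
  Continuous f ∧ ∃ M, ∀ w, |f w| ≤ M * Real.exp (-lat2 h w / 120)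

lemma GD.int_mul {h : V} (h0 : 0 < h 0) (h1 : 0 < h 1) {f f' : V → ℝ} (H : GD h f) (H' : GD h f') :
    Integrable fun w : ℝ × ℝ => f ![w.1, w.2, 0] * f' ![w.1, w.2, 0] := by
  obtain ⟨c, M, hM⟩ := H
  obtain ⟨c', M', hM'⟩ := H'
  have hi : Integrable (fun w : ℝ × ℝ => Real.exp (-((0 - w.1) / h 0) ^ 2 / 60) *
      Real.exp (-((0 - w.2) / h 1) ^ 2 / 60)) (volume.prod volume) :=
    (int_gauss h0 (c := 60) (by norm_num) 0).mul_prod (int_gauss h1 (c := 60) (by norm_num) 0)
  refine (hi.const_mul (M * M')).mono' (Continuous.aestronglyMeasurable (by fun_prop))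
    (ae_of_all _ fun w => ?_)
  rw [Real.norm_eq_abs, abs_mul]
  refine (mul_le_mul (hM _) (hM' _) (abs_nonneg _) ((abs_nonneg _).trans (hM _))).trans
    (le_of_eq ?_)
  rw [mul_mul_mul_comm, ← Real.exp_add, ← Real.exp_add]
  congr 2
  simp only [lat2, cons_val_zero, cons_val_one]
  ring

lemma GD.int_sq {h : V} (h0 : 0 < h 0) (h1 : 0 < h 1) {f : V → ℝ} (H : GD h f) :
    Integrable fun w : ℝ × ℝ => f ![w.1, w.2, 0] ^ 2 := by
  simpa only [sq] using H.int_mul h0 h1 H

/-- the Sobolev bound with the constant `C` -/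
def SobC (C : ℝ) : Prop := ∀ (h : V) (G : V → ℝ), (∀ i, 0 < h i) → Sm G →
  (∀ l ∈ LL 2, Integrable fun w : ℝ × ℝ => pds l G ![w.1, w.2, 0] ^ 2) → ∀ a b : ℝ,
    G ![a, b, 0] ^ 2 ≤ C * ∑ l ∈ LL 2,
      (∫ w : ℝ × ℝ, (hp h l * pds l G ![w.1, w.2, 0]) ^ 2) / (h 0 * h 1)

lemma sobC : ∃ C : ℝ, 1 ≤ C ∧ SobC C := sob

lemma hp_lat {h h' : V} (h0 : h 0 = h' 0) (h1 : h 1 = h' 1) {l : List (Fin 3)}
    (hl : ∀ i ∈ l, i ≠ 2) : hp h l = hp h' l := by
  unfold hp
  congr 1
  refine List.map_congr_left fun i hi => ?_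
  have := hl i hi
  have : i = 0 ∨ i = 1 := by omega
  rcases this with rfl | rfl <;> assumption

namespace CK
variable {C Bc A : ℝ} {h : V} {n : ℝ → V} {b a : V → ℝ} {U : Set V} {Z : V → V} {S : V → Mx}
  {I : Set ℝ} {l : List (Fin 3)} (H : CK C h n b Bc)
include H

/-- sup bound: amplitude, envelope of the column, volume of the support -/
theorem bound (k : KL h U a A Z S) (hI : MeasurableSet I) (hl : l ∈ LL 6) {X : Set V}
    (hX : MeasurableSet X) (hv : volume X ≠ ⊤) (hs : ∀ x, a x ≠ 0 → x ∈ X) {β : ℝ} (hβ : 0 ≤ β)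
    (w : V) (hb : ∀ x ∈ U, a x ≠ 0 →
      colI n I (indicator (tsupport b) fun z => env h (Z x - z)) w ≤ β) :
    hp h l * |pds l (colI n I fun z => b z * dens a Z S z) w| ≤
      A * (C * Bc * β) * volume.real X := by
  have hA : 0 ≤ A := (abs_nonneg _).trans (k.ba 0)
  have hC := H.C1
  have hB := H.B0
  have hl0 := hp_pos H.hh l
  rw [(H.rep I hI U a A Z S k l hl w).2, ← abs_of_pos hl0, ← abs_mul, ← integral_const_mul,
    ← Real.norm_eq_abs]
  refine (norm_integral_le_of_norm_le (g := indicator X fun _ => A * (C * Bc * β))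
    ((integrable_indicator_iff hX).2 (integrableOn_const hv)) (ae_of_all _ fun x => ?_)).trans
    (le_of_eq ?_)
  · by_cases hx : a x = 0
    · rw [hx, zero_mul, mul_zero, norm_zero]
      exact indicator_nonneg (fun _ _ => by positivity) _
    · have hU : x ∈ U := by_contra fun e => hx (k.sa x e)
      rw [indicator_of_mem (hs x hx), Real.norm_eq_abs, mul_left_comm, abs_mul, abs_mul,
        abs_of_pos hl0]
      refine mul_le_mul (k.ba x) ((H.kb I hI _ _ (k.bS x hU) l hl w).trans ?_) (by positivity) hA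
      exact mul_le_mul_of_nonneg_left (hb x hU hx) (by positivity)
  · rw [integral_indicator hX, setIntegral_const, smul_eq_mul, mul_comm]

/-- Gaussian decay -/
theorem gd (k : KL h U a A Z S) (hI : MeasurableSet I) (hl : l ∈ LL 6) :
    GD h (pds l (colI n I fun z => b z * dens a Z S z)) := by
  refine ⟨(((H.cd U a A Z S k).sm_colI H.cn.continuous I).pds l).continuous, ?_⟩
  have hZ := k.dZ.continuous
  have hn := H.cn.continuous
  have hc : Continuous fun x => lat2 h (cin n (Z x)) := by unfold lat2 cin; fun_prop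
  obtain ⟨R, hR⟩ := (k.cl.image hc).bddAbove
  have h0 := H.hh 0
  have h1 := H.hh 1
  have hC := H.C1
  refine ⟨A * (C * Bc * (C / (h 0 * h 1) * Real.exp (R / 60))) * volume.real U / hp h l,
    fun w => ?_⟩
  have := H.bound k hI hl k.cl.measurableSet k.cl.measure_lt_top.ne
    (fun x hx => by_contra fun e => hx (k.sa x e))
    (β := C / (h 0 * h 1) * Real.exp (R / 60) * Real.exp (-lat2 h w / 120)) (by positivity) w
    fun x hx _ => by
      refine (col_ind_le H.hh hn _ _ _ _).trans ((H.ev I (Z x) w 0 le_rfl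
        fun _ _ => abs_nonneg _).trans ?_)
      rw [zero_div, sq, mul_zero, neg_zero, zero_div, Real.exp_zero, mul_one, mul_assoc,
        ← Real.exp_add]
      refine mul_le_mul_of_nonneg_left (Real.exp_le_exp.2 ?_) (by positivity)
      have e : lat2 h (cin n (Z x)) ≤ R := hR (mem_image_of_mem _ hx)
      obtain ⟨p, hp'⟩ : ∃ p, p = cin n (Z x) := ⟨_, rfl⟩
      rw [← hp'] at e ⊢
      simp only [lat2, Pi.sub_apply, sub_div] at e ⊢
      nlinarith [sq_nonneg (2 * (p 0 / h 0) - w 0 / h 0), sq_nonneg (2 * (p 1 / h 1) - w 1 / h 1)]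
  rw [div_mul_eq_mul_div, le_div_iff₀' (hp_pos H.hh l)]
  exact this.trans (le_of_eq (by ring))

/-- linearity in the weight -/
theorem lin {ι : Type} (T : Finset ι) (c : ι → ℝ) {f : ι → V → ℝ} (k : KL h U a A Z S)
    (kt : ∀ t ∈ T, ∃ A', KL h U (f t) A' Z S) (e : ∀ x, a x = ∑ t ∈ T, c t * f t x)
    (hI : MeasurableSet I) (hl : l ∈ LL 6) (w : V) :
    pds l (colI n I fun z => b z * dens a Z S z) w =
      ∑ t ∈ T, c t * pds l (colI n I fun z => b z * dens (f t) Z S z) w := by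
  rw [(H.rep I hI U a A Z S k l hl w).2]
  have h1 : ∀ t ∈ T, c t * pds l (colI n I fun z => b z * dens (f t) Z S z) w =
      ∫ x, c t * (f t x * pds l (colI n I fun z => b z * ker (S x) (Z x - z)) w) := fun t ht => by
    obtain ⟨A', k'⟩ := kt t ht
    rw [(H.rep I hI U _ A' Z S k' l hl w).2, integral_const_mul]
  rw [Finset.sum_congr rfl h1, ← integral_finsetSum T fun t ht => by
    obtain ⟨A', k'⟩ := kt t ht
    exact (H.rep I hI U _ A' Z S k' l hl w).1.const_mul _]
  refine integral_congr_ae (ae_of_all _ fun x => ?_)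
  simp only [e, Finset.sum_mul, mul_assoc]

/-- the primitive is the full column minus the part above the cut -/
theorem pre_eq (k : KL h U a A Z S) (hl : ∀ i ∈ l, i ≠ 2) (w : V) :
    pds l (pre n fun z => b z * dens a Z S z) w =
      pds l (tot n fun z => b z * dens a Z S z) w -
        pds l (colI n (Ioi (w 2)) fun z => b z * dens a Z S z) w := by
  have g := H.cd U a A Z S k
  have hn := H.cn.continuous
  rw [g.pds_pre hn hl, g.pds_tot hn hl, g.pds_colI hn _ hl, pre_eq_colI,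
    ← (g.pds l).colI_Iic_add_Ioi hn (w 2) w]
  ring

/-- Sobolev bound for a full column -/
theorem sob {Cs : ℝ} (hS : SobC Cs) (k : KL h U a A Z S) (hl : l ∈ LL 4) (w : V) :
    (hp h l * pds l (tot n fun z => b z * dens a Z S z) w) ^ 2 ≤ Cs * ∑ t ∈ LL 2,
      (∫ u : ℝ × ℝ, (hp h (t ++ l) * pds (t ++ l) (tot n fun z => b z * dens a Z S z)
        ![u.1, u.2, 0]) ^ 2) / (h 0 * h 1) := by
  have g := H.cd U a A Z S k
  have hn := H.cn.continuous
  have e : pds l (tot n fun z => b z * dens a Z S z) w =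
      pds l (tot n fun z => b z * dens a Z S z) ![w 0, w 1, 0] := by
    rw [g.pds_tot hn (LL_lat hl)]; rfl
  have := hS h (fun u => hp h l * pds l (tot n fun z => b z * dens a Z S z) u) H.hh
    (((g.sm_tot hn).pds l).cmul _) (fun t ht => by
      have := ((H.gd k .univ (append_mem_LL ht hl)).int_sq (H.hh 0) (H.hh 1)).const_mul
        (hp h l ^ 2)
      simpa only [pds_const_mul, mul_pow, ← pds_append, tot_eq_colI] using this) (w 0) (w 1)
  rw [e]
  refine this.trans (le_of_eq ?_)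
  simp only [pds_const_mul, ← pds_append, hp_append, mul_assoc]

end CK

end
end Pool.Agent.MP_20bec2_an.T3

end MrgPart0

-- ======== part 1: formerly Pool.Agent.MP_20bec2_an.T3.DomB
section MrgPart1

/-! The two families of columns of one cube. -/

set_option autoImplicit false
open MeasureTheory Set Filter Matrix

namespace Pool.Agent.MP_20bec2_an.T3
noncomputable section
open Classical

attribute [local irreducible] LL

namespace DomP
variable {c : Pm} (h : Gd c)
include h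

lemma J_ge : 1000000000 ≤ c.J := by
  have := h.big.J_ge; have := h.big.L_ge; unfold Pm.J; linarith
lemma J_le_N : c.J ≤ c.N := by
  have := h.big.N_ge; have := J_ge h; unfold Pm.J at *; linarith
lemma one_le_np {a : ℝ} (ha : 0 ≤ a) : 1 ≤ np c.N a := by
  rw [← np_zero c.N]; exact h.big.np_le ha
lemma np_small {a : ℝ} (ha : a ≤ -1 / 2) : np c.N a ≤ 1 / 1000 := by
  refine (h.big.np_le ha).trans ?_
  rw [h.big.np_eq, show -1 / 2 * pJ c.N = -(c.J / 2) by unfold Pm.J; ring, Real.exp_neg,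
    inv_eq_one_div]
  exact one_div_le_one_div_of_le (by norm_num)
    (by linarith [Real.add_one_le_exp (c.J / 2), J_ge h])
lemma lam_le_y : c.lam ≤ c.y := le_mul_of_one_le_left h.lam_pos.le (one_le_np h (by norm_num))
lemma np_le_y {a : ℝ} (ha : a ≤ 11 / 10) : np c.N a * c.lam ≤ c.y :=
  mul_le_mul_of_nonneg_right (h.big.np_le ha) h.lam_pos.le
lemma l1_le_y : c.l1 ≤ c.y := by
  refine le_trans (mul_le_mul_of_nonneg_right h.ro_le h.lam_pos.le) (le_trans (le_of_eq ?_)
    (np_le_y h (a := 1 / 2) (by norm_num)))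
  rw [Real.sqrt_eq_rpow]; rfl
lemma hs_le_y (i : Fin 3) : c.hs i ≤ c.y := by
  fin_cases i
  · exact l1_le_y h
  · exact lam_le_y h
  · exact le_rfl
lemma lam_le_hs (i : Fin 3) : c.lam ≤ c.hs i := by
  fin_cases i
  · exact h.lam_le_l1
  · exact le_rfl
  · exact lam_le_y h
lemma one_le_pA : 1 ≤ pA c.N := one_le_pow₀ (by linarith [J_ge h, show c.J = pJ c.N from rfl])
lemma hs_le_cw (i : Fin 3) : c.hs i ≤ c.cw i := by
  fin_cases i
  · exact le_mul_of_one_le_left h.l1_pos.le (one_le_pA h)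
  · exact le_mul_of_one_le_left h.lam_pos.le (one_le_pA h)
  · refine mul_le_mul_of_nonneg_right ?_ h.lam_pos.le
    refine (h.big.np_le (b := (2 : ℕ)) (by norm_num)).trans ?_
    rw [np_nat]
    exact le_mul_of_one_le_right (by positivity) (one_le_pow₀ (by linarith [J_ge h]))
lemma Jy_le_D : 100 * (c.J * c.y) ≤ c.D := by
  have h1 : (100 : ℝ) ≤ c.N := by linarith [J_ge h, J_le_N h]
  have h2 : c.y ≤ (c.N : ℝ) ^ 2 * c.lb := by
    rw [← np_nat]
    exact mul_le_mul (h.big.np_le (by norm_num)) h.lam_le_lb h.lam_pos.le (h.big.np_pos _).le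
  have := h.y_pos
  have := h.J_pos
  calc 100 * (c.J * c.y) ≤ c.N * (c.N * ((c.N : ℝ) ^ 2 * c.lb)) := by
        gcongr; exact J_le_N h
    _ = c.D := by unfold Pm.D; ring
lemma y_le_D : 100 * c.y ≤ c.D := by nlinarith [Jy_le_D h, J_ge h, h.y_pos]
lemma lam_le_GG : c.lam ≤ c.GG := by
  refine le_trans (le_mul_of_one_le_left h.lam_pos.le ?_) h.GG_ge
  rw [one_le_div (pow_pos h.J_pos 3)]
  refine le_of_log (pow_pos h.J_pos 3) h.N_pos ?_
  rw [Real.log_pow, h.log_J, h.big.log_N]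
  push_cast
  linarith [h.big.J_ge, h.big.L_ge]
lemma zT_le : c.zT ≤ 1 := by
  unfold Pm.zT
  split_ifs
  · have : nu c.N ≤ 1 / 2 := by
      rw [nu, h.big.np_eq, show -49 / 100 * pJ c.N = -(49 / 100 * c.J) by unfold Pm.J; ring,
        Real.exp_neg, inv_eq_one_div]
      exact one_div_le_one_div_of_le (by norm_num)
        (by linarith [Real.add_one_le_exp (49 / 100 * c.J), J_ge h])
    linarith
  · exact div_le_one_of_le₀ (Real.one_le_sqrt.2 (by linarith [J_ge h])) (Real.sqrt_nonneg _)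

end DomP

theorem MD.Gs.gw {d : MD} {s : Sa} (h : Gd d.c) (H : d.Gs s) : d.Gw s := by
  have h1 := (h.big.np_pos (-270)).le
  have h2 := h.lam_pos.le
  refine ⟨s, H, H.sm, fun x => ⟨(H.sup x).1, (H.sup x).2.2.1⟩, fun x => ⟨?_, fun i j => ?_,
    fun i j => ?_, ?_⟩⟩
  · rw [sub_self, norm_zero]; positivity
  · simpa [cm] using h1
  · simp only [sub_self, Matrix.zero_apply, abs_zero, cm, of_apply]; positivity
  · simpa using h1

namespace MD
variable (d : MD)
/-- the weight of the linear flux -/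
def aw (v : V → V) (i : Fin 3) (x : V) : ℝ := -(d.ρ x * v x i)
/-- one component of the linear flux with a multiplier -/
def bd (s : Sa) (b : V → ℝ) (S : V → Mx) (v : V → V) (i : Fin 3) (z : V) : ℝ :=
  b z * dens (d.aw v i) (fun x => d.Z x + s.U x) (fun x => S x - s.C x) z

theorem Fv_eq (S : V → Mx) (s : Sa) (v : V → V) (z : V) (i : Fin 3) : d.Fv S s v z i =
    dens (d.aw v i) (fun x => d.Z x + s.U x) (fun x => S x - s.C x) z := by
  simp only [Fv, dens, aw, neg_mul, integral_neg]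
theorem cf_eq (g : Cu) (S : V → Mx) (s : Sa) (v : V → V) (i : Fin 3) :
    d.c.cf g (d.Fv S s v) i = d.bd s (d.c.bc g) S v i :=
  funext fun z => by rw [Pm.cf, Fv_eq, bd]
theorem fv_eq (S : V → Mx) (s : Sa) (v : V → V) (i : Fin 3) :
    (fun z => d.Fv S s v z i) = d.bd s (fun _ => 1) S v i :=
  funext fun z => by rw [Fv_eq, bd, one_mul]

/-- an admissible displacement with the amplitudes `A` -/
structure Adm (v : V → V) (A : V) : Prop where
  cv : Continuous v
  sup : ∀ x, x ∉ d.R (93 / 100) → v x = 0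
  lat : ∀ x, v x 2 = 0
  sz : ∀ x i, |v x i| ≤ A i

/-- a family of columns -/
structure CF (s : Sa) (C Bc : ℝ) (h : V) (n : ℝ → V) (b : V → ℝ) (S : V → Mx) : Prop where
  ck : CK C h n b Bc
  kl : ∀ v A, d.Adm v A → ∀ i, KL h (d.R (99 / 100)) (d.aw v i) (2 * A i)
    (fun x => d.Z x + s.U x) (fun x => S x - s.C x)
  h0 : h 0 = d.c.l1
  h1 : h 1 = d.c.lam
  h2 : h 2 ≤ d.c.y

/-- the context of the column rows -/
structure Cx (s : Sa) (C Bc : ℝ) : Prop where
  gd : Gd d.c
  c1 : ∀ g, d.CF s C Bc d.c.hs (d.ch g) (d.c.bc g) d.S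
  c2 : d.CF s C Bc (d.c.hy d.yL) 0 (fun _ => 1) d.SL
  zb : ∀ x ∈ d.R (99 / 100), ‖d.Z x + s.U x‖ ≤ 2 * d.c.D

variable {d}
theorem Cr.adm {e : ℝ} {v : V → V} {ω : V → ℝ} (H : d.Cr e v ω) :
    d.Adm v fun i => e * d.c.q * d.c.hs i :=
  ⟨H.sm.1.continuous, fun x hx => ((H.sup x).1 hx).1, fun x => (H.sup x).2, H.sz⟩

theorem Adm.sum {ι : Type} (T : Finset ι) (c : ι → ℝ) {v : ι → V → V} {A : V}
    (H : ∀ t ∈ T, d.Adm (v t) A) :
    d.Adm (fun x => ∑ t ∈ T, c t • v t x) fun i => ∑ t ∈ T, |c t| * A i := by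
  refine ⟨continuous_finsetSum T fun t ht => (H t ht).cv.const_smul (c t), fun x hx => ?_,
    fun x => ?_, fun x i => ?_⟩
  · exact Finset.sum_eq_zero fun t ht => by rw [(H t ht).sup x hx, smul_zero]
  · rw [Finset.sum_apply]
    exact Finset.sum_eq_zero fun t ht => by rw [Pi.smul_apply, (H t ht).lat x, smul_zero]
  · rw [Finset.sum_apply]
    refine (Finset.abs_sum_le_sum_abs _ _).trans (Finset.sum_le_sum fun t ht => ?_)
    rw [Pi.smul_apply, smul_eq_mul, abs_mul]
    exact mul_le_mul_of_nonneg_left ((H t ht).sz x i) (abs_nonneg _)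

theorem aw_sum {ι : Type} (T : Finset ι) (c : ι → ℝ) (v : ι → V → V) (i : Fin 3) (x : V) :
    d.aw (fun x => ∑ t ∈ T, c t • v t x) i x = ∑ t ∈ T, c t * d.aw (v t) i x := by
  simp only [aw, Finset.sum_apply, Pi.smul_apply, smul_eq_mul, Finset.mul_sum,
    ← Finset.sum_neg_distrib]
  exact Finset.sum_congr rfl fun t _ => by ring

theorem Adm.aw (hd : d.In) {v : V → V} {A : V} (H : d.Adm v A) (i : Fin 3) :
    Measurable (d.aw v i) ∧ (∀ x, |d.aw v i x| ≤ 2 * A i) ∧
      ∀ x, x ∉ d.R (93 / 100) → d.aw v i x = 0 := by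
  refine ⟨(hd.rho.1.mul ((continuous_apply i).comp H.cv).measurable).neg, fun x => ?_,
    fun x hx => by simp [MD.aw, H.sup x hx]⟩
  rw [MD.aw, abs_neg, abs_mul]
  refine mul_le_mul ?_ (H.sz x i) (abs_nonneg _) (by norm_num)
  have := abs_le.1 (hd.rho.2 x)
  have : eps0 ≤ 1 := by unfold eps0; norm_num
  rw [abs_le]; constructor <;> linarith

end MD

theorem ev_cx (hK : KlsStmt) : ∃ C Bc : ℝ, 1 ≤ C ∧ 1 ≤ Bc ∧
    EvD fun d => ∀ s, d.Gw s → d.Cx s C Bc := by
  obtain ⟨C, hC, H⟩ := ck_of_colk colk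
  obtain ⟨Bc, hB, Hb⟩ := Prof.cb_bc 6
  refine ⟨C, Bc, hC, hB, ?_⟩
  filter_upwards [hK, ev_gd] with N hK hg d h1 h2 hd s hs
  have g := hg d.c h1 hd.ok
  obtain ⟨k1, k2⟩ := hK d h1 h2 hd s hs
  have hy : ∀ i, 0 < d.c.hy d.yL i := (k2 0 0 measurable_zero (by simp) (by simp)).2.2.hh
  refine ⟨g, fun γ => ⟨?_, fun v A hv i => ?_, rfl, rfl, le_rfl⟩,
    ⟨?_, fun v A hv i => ?_, rfl, rfl, hd.yl.2⟩, fun x hx => ?_⟩
  · refine H _ _ (np d.c.N (-19 / 10)) _ _ g.hs_pos (hd.chb.2 γ).1
      (fun i hi => ⟨fun r => ((hd.chb.2 γ).2 i hi r).2.1, ?_⟩) (DomP.np_small g (by norm_num))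
      (Prof.bc_sm _ _) (BdD.of_compact (Prof.bc_sm _ _) (Prof.bc_hcs g.cw_pos γ))
      (CBl.monoh (Hb d.c γ) (fun i => (g.hs_pos i).le) (DomP.hs_le_cw g))
    have e : np d.c.N (-19 / 10) * d.c.hs 2 = np d.c.N (-8 / 10) * d.c.lam := by
      show _ * (np d.c.N (11 / 10) * _) = _
      rw [← mul_assoc, ← g.big.np_add]; norm_num
    have := DomP.np_small g (a := -8 / 10) (by norm_num)
    have := DomP.lam_le_hs g i
    have := g.lam_pos
    rw [e]; nlinarith
  · obtain ⟨a1, a2, a3⟩ := hv.aw hd i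
    exact (k2 _ _ a1 a2 a3).1
  · refine H _ _ 0 _ _ hy contDiff_const (fun i _ => ⟨fun r => by simp, ?_⟩) (by norm_num)
      (sm_const 1) (BdD.const 1) (cb_const (by simpa using hB))
    have := hy i
    rw [zero_mul]; positivity
  · obtain ⟨a1, a2, a3⟩ := hv.aw hd i
    exact (k2 _ _ a1 a2 a3).2.2
  · have e1 := (k1 x hx).2.1
    have e2 : ‖d.O *ᵥ x‖ ≤ 99 / 100 * d.c.D := hx
    have e3 : d.Z x + s.U x ∈ RX d.O d.c.D 1 := by
      show ‖d.O *ᵥ (d.Z x + s.U x)‖ ≤ 1 * d.c.D
      rw [show d.O *ᵥ (d.Z x + s.U x) = d.O *ᵥ (d.Z x + s.U x - x) + d.O *ᵥ x by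
        rw [← mulVec_add, sub_add_cancel]]
      linarith [norm_add_le (d.O *ᵥ (d.Z x + s.U x - x)) (d.O *ᵥ x), g.D_pos]
    simpa using Prof.RX_norm hd.ort e3

end
end Pool.Agent.MP_20bec2_an.T3

end MrgPart1

-- ======== part 2: formerly Pool.Agent.MP_20bec2_an.T3.Hn
section MrgPart2

/-! Row HN: the square of the Hilbert norm is a quadratic form. -/

set_option autoImplicit false
open MeasureTheory Set Filter Matrix

namespace Pool.Agent.MP_20bec2_an.T3
noncomputable section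
open Classical

attribute [local irreducible] LL

/-- a nonnegative quadratic form in the coefficients -/
def QF {ι : Type} (T : Finset ι) (Q : (ι → ℝ) → ℝ) : Prop :=
  ∃ G : ι → ι → ℝ, (∀ t t', G t t' = G t' t) ∧
    ∀ a : ι → ℝ, 0 ≤ Q a ∧ ∑ t ∈ T, ∑ t' ∈ T, a t * a t' * G t t' = Q a

namespace QF
variable {ι : Type} {T : Finset ι} {Q Q' : (ι → ℝ) → ℝ}

lemma zero : QF T fun _ => 0 := ⟨fun _ _ => 0, fun _ _ => rfl, fun _ => ⟨le_rfl, by simp⟩⟩

lemma add (H : QF T Q) (H' : QF T Q') : QF T fun a => Q a + Q' a := by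
  obtain ⟨G, h1, h2⟩ := H
  obtain ⟨G', h1', h2'⟩ := H'
  refine ⟨fun t t' => G t t' + G' t t', fun t t' => by simp only [h1 t, h1' t], fun a =>
    ⟨add_nonneg (h2 a).1 (h2' a).1, ?_⟩⟩
  simp only [mul_add, Finset.sum_add_distrib, (h2 a).2, (h2' a).2]

lemma div (H : QF T Q) {c : ℝ} (hc : 0 ≤ c) : QF T fun a => Q a / c := by
  obtain ⟨G, h1, h2⟩ := H
  refine ⟨fun t t' => G t t' / c, fun t t' => by simp only [h1 t], fun a =>
    ⟨div_nonneg (h2 a).1 hc, ?_⟩⟩
  simp only [← mul_div_assoc, ← Finset.sum_div, (h2 a).2]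

lemma sum {κ : Type} (K : Finset κ) {Q : κ → (ι → ℝ) → ℝ} (H : ∀ k ∈ K, QF T (Q k)) :
    QF T fun a => ∑ k ∈ K, Q k a := by
  induction K using Finset.induction_on with
  | empty => simpa using zero
  | insert k K hk ih =>
    simp only [Finset.sum_insert hk]
    exact (H k (Finset.mem_insert_self _ _)).add (ih fun j hj => H j (Finset.mem_insert_of_mem hj))

lemma ite (p : Prop) (H : QF T Q) : QF T fun a => if p then 0 else Q a := by
  by_cases hp : p
  · simpa only [if_pos hp] using zero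
  · simpa only [if_neg hp] using H

lemma int {f : ι → ℝ × ℝ → ℝ} (H : ∀ t ∈ T, ∀ t' ∈ T, Integrable fun w => f t w * f t' w) :
    QF T fun a => ∫ w, (∑ t ∈ T, a t * f t w) ^ 2 := by
  refine ⟨fun t t' => ∫ w, f t w * f t' w, fun t t' => by simp only [mul_comm], fun a =>
    ⟨integral_nonneg fun _ => sq_nonneg _, ?_⟩⟩
  have e : ∀ w, (∑ t ∈ T, a t * f t w) ^ 2 =
      ∑ t ∈ T, ∑ t' ∈ T, a t * a t' * (f t w * f t' w) := fun w => by
    rw [sq, Finset.sum_mul_sum]
    exact Finset.sum_congr rfl fun t _ => Finset.sum_congr rfl fun t' _ => by ring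
  simp only [e]
  rw [integral_finsetSum T fun t ht =>
    integrable_finsetSum T fun t' ht' => (H t ht t' ht').const_mul _]
  refine Finset.sum_congr rfl fun t ht => ?_
  rw [integral_finsetSum T fun t' ht' => (H t ht t' ht').const_mul _]
  exact Finset.sum_congr rfl fun t' _ => (integral_const_mul _ _).symm

end QF

namespace MD.CF
variable {d : MD} {s : Sa} {C Bc : ℝ} {h : V} {n : ℝ → V} {b : V → ℝ} {S : V → Mx}
  (H : d.CF s C Bc h n b S) {v : V → V} {A : V} {I : Set ℝ} {l : List (Fin 3)}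
include H

theorem cd (hv : d.Adm v A) (i : Fin 3) : ColD (d.bd s b S v i) :=
  H.ck.cd _ _ _ _ _ (H.kl v A hv i)

theorem gd (hv : d.Adm v A) (i : Fin 3) (hI : MeasurableSet I) (hl : l ∈ LL 6) :
    GD h (pds l (colI n I (d.bd s b S v i))) := H.ck.gd (H.kl v A hv i) hI hl

theorem lin {ι : Type} (T : Finset ι) (c : ι → ℝ) {Ψ : ι → V → V} (hv : ∀ t ∈ T, d.Adm (Ψ t) A)
    (i : Fin 3) (hI : MeasurableSet I) (hl : l ∈ LL 6) (w : V) :
    pds l (colI n I (d.bd s b S (fun x => ∑ t ∈ T, c t • Ψ t x) i)) w =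
      ∑ t ∈ T, c t * pds l (colI n I (d.bd s b S (Ψ t) i)) w :=
  H.ck.lin T c (H.kl _ _ (Adm.sum T c hv) i) (fun t ht => ⟨_, H.kl _ _ (hv t ht) i⟩)
    (aw_sum T c Ψ i) hI hl w

theorem pre_eq (hv : d.Adm v A) (i : Fin 3) (hl : ∀ j ∈ l, j ≠ 2) (w : V) :
    pds l (pre n (d.bd s b S v i)) w = pds l (tot n (d.bd s b S v i)) w -
      pds l (colI n (Ioi (w 2)) (d.bd s b S v i)) w := H.ck.pre_eq (H.kl v A hv i) hl w

theorem hp_eq (hl : ∀ j ∈ l, j ≠ 2) : hp h l = hp d.c.hs l := hp_lat H.h0 H.h1 hl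

theorem qf {ι : Type} (T : Finset ι) {Ψ : ι → V → V} (hv : ∀ t ∈ T, d.Adm (Ψ t) A) (i : Fin 3)
    (hl : l ∈ LL 6) :
    QF T fun a => d.sq2 l i (tot n (d.bd s b S (fun x => ∑ t ∈ T, a t • Ψ t x) i)) := by
  have h0 := H.ck.hh 0
  have h1 := H.ck.hh 1
  have := (QF.int (T := T) (f := fun t w => hp d.c.hs l *
      pds l (colI n univ (d.bd s b S (Ψ t) i)) ![w.1, w.2, 0]) fun t ht t' ht' => by
    have := ((H.gd (hv t ht) i .univ hl).int_mul h0 h1 (H.gd (hv t' ht') i .univ hl)).const_mul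
      (hp d.c.hs l * hp d.c.hs l)
    simpa only [mul_mul_mul_comm] using this).div
    (c := d.c.hs i ^ 2 * (d.c.l1 * d.c.lam)) (by rw [← H.h0, ← H.h1]; positivity)
  convert this using 2 with a
  simp only [MD.sq2, tot_eq_colI, H.lin T a hv i .univ hl, Finset.mul_sum,
    mul_left_comm (hp d.c.hs l)]

end MD.CF

theorem MD.Cx.qf {d : MD} {s : Sa} {C Bc : ℝ} (H : d.Cx s C Bc) {ι : Type} (T : Finset ι)
    {Ψ : ι → V → V} {A : V} (hv : ∀ t ∈ T, d.Adm (Ψ t) A) :
    QF T fun a => d.Hn s fun x => ∑ t ∈ T, a t • Ψ t x := by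
  simp only [MD.Hn, MD.cf_eq, MD.fv_eq]
  refine (QF.sum _ fun g _ => QF.sum _ fun i _ => QF.sum _ fun l hl => ?_).add
    (QF.ite _ (QF.sum _ fun i _ => QF.sum _ fun l hl => ?_))
  · exact ((H.c1 g).qf T hv i (LL_mono (by norm_num) hl)).div (sq_nonneg _)
  · exact H.c2.qf T hv i (LL_mono (by norm_num) (Finset.mem_filter.1 hl).1)

theorem hn (hK : KlsStmt) : HnStmt := by
  obtain ⟨C, Bc, -, -, H⟩ := ev_cx hK
  filter_upwards [H, ev_gd] with N H hg d h1 h2 hd s hs ι T Ψ Ψm om ce W hw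
  exact (H d h1 h2 hd s (hs.gw (hg d.c h1 hd.ok))).qf T fun t ht => (hw.cr t ht).adm

end
end Pool.Agent.MP_20bec2_an.T3

end MrgPart2

-- marker of a merged file
example : 731051 + 460630 = 731051 + 460630 := rfl

end MrgPart1

-- marker of a merged file
example : 731051 + 460630 = 731051 + 460630 := rfl
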