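import Pool.Agent.MP_20bec2_an.T3.Runm
import Pool.Agent.MP_20bec2_an.T3.Zt
import Pool.Agent.MP_20bec2_an.T3.WinA
import Pool.Agent.MP_20bec2_an.T3.Par4
import Pool.Agent.MP_20bec2_an.T3.Final
import Pool.Agent.MP_20bec2_an.T3.K4
import Pool.Agent.MP_20bec2_an.T3.CrA
import Pool.Agent.MP_20bec2_an.T3.Par3
import Pool.Agent.MP_20bec2_an.T3.Calc1b
import Pool.Agent.MP_20bec2_an.T3.Ftr
import Pool.Agent.MP_20bec2_an.T3.Left
import Pool.Agent.MP_20bec2_an.T3.Finv

-- ======== part 0: formerly Pool.Agent.MP_20bec2_an.T3.Cmp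
section MrgPart0

-- ======== part 0: formerly Pool.Agent.MP_20bec2_an.T3.CmpA
section MrgPart0

/-! Integrals along the coordinate 1 and the abstract compensator. -/

set_option autoImplicit false
open MeasureTheory Set Filter Matrix Topology

namespace Pool.Agent.MP_20bec2_an.T3
noncomputable section
namespace CmpA
open Prof

def ln (x : V) (r : ℝ) : V := ![x 0, r, x 2]
def P1 (g : V → ℝ) (x : V) : ℝ := ∫ r in Iic (x 1), g (ln x r)
def T1 (g : V → ℝ) (x : V) : ℝ := ∫ r, g (ln x r)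
def Sl (a b : ℝ) (g : V → ℝ) : Prop := ∀ z : V, z 1 ∉ Icc a b → g z = 0
def bt (c w r : ℝ) : ℝ := kb ((r - c) / w) / w
def Fm (c w : ℝ) (g : V → ℝ) (x : V) : ℝ := g x - T1 g x * bt c w (x 1)
def Gm (c w : ℝ) (g : V → ℝ) (x : V) : ℝ := -P1 (Fm c w g) x

variable {g : V → ℝ} {a b c w B : ℝ}

lemma ln_self (x : V) : ln x (x 1) = x := by
  funext i; fin_cases i <;> rfl

lemma ln_eq (x : V) (r : ℝ) : ln x r = ![0, r, 0] + dg3 1 0 1 *ᵥ x := by
  funext i
  fin_cases i <;> simp [ln, dg3, mulVec_diagonal]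

lemma sm_ln : Sm fun p : ℝ × V => ln p.2 p.1 := by
  refine contDiff_pi.2 fun i => ?_
  fin_cases i <;> simp only [ln] <;> simp <;> fun_prop

lemma pd_ln (hg : Sm g) (r : ℝ) (j : Fin 3) :
    pd j (fun x => g (ln x r)) = fun x => if j = 1 then 0 else pd j g (ln x r) := by
  simp only [ln_eq, C2.pd_affine hg]
  funext x
  fin_cases j <;> simp [Fin.sum_univ_three, dg3]

lemma pds_ln (hg : Sm g) (r : ℝ) (l : List (Fin 3)) :
    pds l (fun x => g (ln x r)) = fun x => if 1 ∈ l then 0 else pds l g (ln x r) := by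
  induction l with
  | nil => simp [pds]
  | cons j l ih =>
    by_cases h : 1 ∈ l
    · funext x
      simp [pds, ih, h, pd]
    · simp only [pds, ih, h, if_false, pd_ln (hg.pds l), List.mem_cons, or_false, eq_comm]

lemma jc (hg : Sm g) : JC fun r x => g (ln x r) := JC.of_sm (hg.comp sm_ln)

lemma Sl.pds (h : Sl a b g) (l : List (Fin 3)) : Sl a b (pds l g) := fun z hz =>
  pds_zero_off (K := {z : V | z 1 ∈ Icc a b}) (isClosed_Icc.preimage (continuous_apply 1)) h l z hz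

lemma Sl.pd (h : Sl a b g) (j : Fin 3) : Sl a b (pd j g) := h.pds [j]

lemma Sl.mono {a' b' : ℝ} (h : Sl a b g) (ha : a' ≤ a) (hb : b ≤ b') : Sl a' b' g :=
  fun z hz => h z fun k => hz ⟨ha.trans k.1, k.2.trans hb⟩

lemma integrable_ln (hg : Continuous g) (hs : Sl a b g) (x : V) :
    Integrable fun r => g (ln x r) :=
  (hg.comp (sm_ln.continuous.comp (Continuous.prodMk_left x))).integrable_of_hasCompactSupport
    (HasCompactSupport.intro (isCompact_Icc (a := a) (b := b)) fun _ hr => hs _ hr)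

lemma T1_eq (hs : Sl a b g) : T1 g = fun x => ∫ r in Icc a b, g (ln x r) :=
  funext fun _ => (setIntegral_eq_integral_of_forall_compl_eq_zero fun _ hr => hs _ hr).symm

lemma P1_eq (hg : Continuous g) (hs : Sl a b g) :
    P1 g = fun x => ∫ r in (a - 1)..x 1, g (ln x r) := by
  funext x
  have i := integrable_ln hg hs x
  rw [← intervalIntegral.integral_Iic_sub_Iic i.integrableOn i.integrableOn,
    setIntegral_eq_zero_of_forall_eq_zero (t := Iic (a - 1)) fun r hr => hs _ ?_, sub_zero, P1]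
  intro k
  have h1 : r ≤ a - 1 := hr
  have h2 : a ≤ r := k.1
  linarith

lemma dom (hg : Sm g) (a b : ℝ) : Dom (volume.restrict (Icc a b)) fun r x => g (ln x r) :=
  Dom.of_cont isCompact_Icc measurableSet_Icc subset_rfl (jc hg).sm (jc hg).cont

lemma sm_T1 (hg : Sm g) (hs : Sl a b g) : Sm (T1 g) := by
  rw [T1_eq hs]; exact (dom hg a b).sm_integral

lemma pds_T1 (hg : Sm g) (hs : Sl a b g) (l : List (Fin 3)) :
    pds l (T1 g) = if 1 ∈ l then fun _ => 0 else T1 (pds l g) := by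
  rw [T1_eq hs, T1_eq (hs.pds l), (dom hg a b).pds_integral]
  simp only [pds_ln hg]
  split_ifs <;> simp

lemma pd_P1 (hg : Sm g) (hs : Sl a b g) (j : Fin 3) :
    pd j (P1 g) = if j = 1 then g else P1 (pd j g) := by
  funext x
  obtain ⟨-, h2⟩ := (jc hg).upper (a - 1) ((sm_coord 1).dif x)
  rw [P1_eq hg.continuous hs, h2, P1_eq (hg.pd j).continuous (hs.pd j), pd_coord]
  simp only [pd_ln hg, ln_self]
  by_cases hj : j = 1
  · simp [hj]
  · simp [hj, Ne.symm hj]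

lemma sm_P1 (hg : Sm g) (hs : Sl a b g) : Sm (P1 g) := by
  rw [P1_eq hg.continuous hs]
  exact sm_integral_ends (F := fun r x => g (ln x r)) (hg.comp sm_ln) contDiff_const (sm_coord 1)

lemma abs_T1_le (hab : a ≤ b) (hs : Sl a b g) (h1 : ∀ z, |g z| ≤ B) (x : V) :
    |T1 g x| ≤ B * (b - a) := by
  rw [T1_eq hs, ← Real.norm_eq_abs]
  simpa [hab] using norm_setIntegral_le_of_norm_le_const (μ := volume) (s := Icc a b)
    (f := fun r => g (ln x r)) measure_Icc_lt_top fun r _ => h1 _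

lemma abs_P1_le (hab : a ≤ b) (hs : Sl a b g) (h1 : ∀ z, |g z| ≤ B) (x : V) :
    |P1 g x| ≤ B * (b - a) := by
  have B0 : 0 ≤ B := (abs_nonneg _).trans (h1 0)
  rw [P1, setIntegral_eq_of_subset_of_forall_sdiff_eq_zero (s := Iic (x 1) ∩ Icc a b)
    measurableSet_Iic inter_subset_left fun r hr => hs _ fun k => hr.2 ⟨hr.1, k⟩,
    ← Real.norm_eq_abs]
  refine (norm_setIntegral_le_of_norm_le_const (μ := volume) (C := B)
    ((measure_mono inter_subset_right).trans_lt measure_Icc_lt_top)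
    fun r _ => h1 _).trans (mul_le_mul_of_nonneg_left ?_ B0)
  simpa [hab] using measureReal_mono (μ := volume) (s₂ := Icc a b) inter_subset_right
    measure_Icc_lt_top.ne

/-! ### the bump -/

lemma bt_nonneg (hw : 0 < w) (r : ℝ) : 0 ≤ bt c w r := div_nonneg (kb_nonneg _) hw.le

lemma bt_le (hw : 0 < w) (r : ℝ) : bt c w r ≤ 1 / w :=
  div_le_div_of_nonneg_right (kb_le_one _) hw.le

lemma bt_zero (hw : 0 < w) {r : ℝ} (h : w ≤ |r - c|) : bt c w r = 0 := by
  rw [bt, kb_zero, zero_div]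
  rwa [abs_div, abs_of_pos hw, le_div_iff₀ hw, one_mul]

lemma bt_sm (c w : ℝ) : Sm (bt c w) :=
  (kb_sm.comp ((contDiff_id.sub contDiff_const).div_const w)).div_const w

lemma bt_integrable (hw : 0 < w) : Integrable (bt c w) :=
  (bt_sm c w).continuous.integrable_of_hasCompactSupport
    (HasCompactSupport.intro (isCompact_Icc (a := c - w) (b := c + w)) fun r hr =>
      bt_zero hw (not_lt.1 fun k => hr ⟨by linarith [(abs_lt.1 k).1], by linarith [(abs_lt.1 k).2]⟩))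

lemma bt_integral (hw : 0 < w) : ∫ r, bt c w r = 1 := by
  rw [← kb_integral_scale hw]
  exact integral_sub_right_eq_self (fun r => kb (r / w) / w) c

lemma sm_btx (c w : ℝ) : Sm fun x : V => bt c w (x 1) := (bt_sm c w).comp (sm_coord 1)

lemma pd_btx (c w : ℝ) {j : Fin 3} (hj : j ≠ 1) (x : V) : pd j (fun y : V => bt c w (y 1)) x = 0 := by
  rw [pd_comp_at (φ := bt c w) (g := fun y : V => y 1) ((bt_sm c w).dif _) ((sm_coord 1).dif x),
    pd_coord, if_neg (Ne.symm hj), mul_zero]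

lemma cb_btx {K h : ℝ} {n : ℕ} (hK : ∀ j ≤ n, ∀ t, |iteratedDeriv j kb t| ≤ K) (h0 : 0 ≤ h)
    (hw : 0 < w) (hh : h ≤ w) : CB n (cv h) univ (fun x : V => bt c w (x 1)) (K / w) := by
  have h1 := (cb_coordfn (n := n) (h := cv h) (U := univ) (κ := 1) (fun _ => h0) kb_sm 1 hw (c / w)
    le_rfl (by simpa [cv] using hh) fun j hj x _ => hK j hj _).div_const w
  rw [one_pow, one_mul, abs_of_pos hw] at h1
  exact h1.congr_fun fun x => by rw [bt, sub_div]

/-! ### the compensator -/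

lemma sm_Fm (hg : Sm g) (hs : Sl a b g) : Sm (Fm c w g) :=
  hg.sub ((sm_T1 hg hs).mul (sm_btx c w))

lemma sl_Fm (hw : 0 < w) (hs : Sl (c - w) (c + w) g) : Sl (c - w) (c + w) (Fm c w g) :=
  fun z hz => by
    rw [Fm, hs z hz, bt_zero hw (not_lt.1 fun k =>
      hz ⟨by linarith [(abs_lt.1 k).1], by linarith [(abs_lt.1 k).2]⟩), mul_zero, sub_zero]

lemma sm_Gm (hg : Sm g) (hw : 0 < w) (hs : Sl (c - w) (c + w) g) : Sm (Gm c w g) :=
  (sm_P1 (sm_Fm hg hs) (sl_Fm hw hs)).neg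

lemma pd_one_Gm (hg : Sm g) (hw : 0 < w) (hs : Sl (c - w) (c + w) g) :
    pd 1 (Gm c w g) = fun x => -Fm c w g x := by
  funext x
  unfold Gm
  rw [pd_neg, pd_P1 (sm_Fm hg hs) (sl_Fm hw hs), if_pos rfl]

lemma pd_Gm (hg : Sm g) (hw : 0 < w) (hs : Sl (c - w) (c + w) g) {j : Fin 3} (hj : j ≠ 1) :
    pd j (Gm c w g) = Gm c w (pd j g) := by
  have e : pd j (Fm c w g) = Fm c w (pd j g) := by
    funext x
    have h1 : pd j (T1 g) = T1 (pd j g) :=
      (pds_T1 hg hs [j]).trans (if_neg (by simpa using Ne.symm hj))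
    unfold Fm
    rw [pd_sub hg ((sm_T1 hg hs).mul (sm_btx c w)), pd_mul (sm_T1 hg hs) (sm_btx c w), h1]
    simp only [pd_btx c w hj, mul_zero, add_zero]
  funext x
  unfold Gm
  rw [pd_neg, pd_P1 (sm_Fm hg hs) (sl_Fm hw hs), if_neg hj, e]

lemma pds_Gm (hg : Sm g) (hw : 0 < w) (hs : Sl (c - w) (c + w) g) {l : List (Fin 3)}
    (hl : 1 ∉ l) : pds l (Gm c w g) = Gm c w (pds l g) := by
  induction l with
  | nil => rfl
  | cons j l ih =>
    rw [pds, ih fun k => hl (List.mem_cons_of_mem _ k),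
      pd_Gm (hg.pds l) hw (hs.pds l) fun k => hl (k ▸ List.mem_cons_self), pds]

lemma pds_Gm' (hg : Sm g) (hw : 0 < w) (hs : Sl (c - w) (c + w) g) {l : List (Fin 3)}
    (hl : 1 ∈ l) : pds l (Gm c w g) = fun x => -pds (l.erase 1) (Fm c w g) x := by
  rw [pds_perm (sm_Gm hg hw hs) (List.perm_cons_erase hl), pds, ← pds_pd (sm_Gm hg hw hs),
    pd_one_Gm hg hw hs, pds_neg]

lemma Gm_eq (hg : Continuous g) (hw : 0 < w) (hs : Sl a b g) (x : V) :
    Gm c w g x = T1 g x * (∫ r in Iic (x 1), bt c w r) - P1 g x := by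
  have e : Gm c w g x = -∫ r in Iic (x 1), (g (ln x r) - T1 g x * bt c w r) := rfl
  rw [e, integral_sub (integrable_ln hg hs x).integrableOn
    ((bt_integrable hw).const_mul _).integrableOn, integral_const_mul, P1]
  ring

lemma abs_Gm_le (hg : Continuous g) (hw : 0 < w) (hab : a ≤ b) (hs : Sl a b g)
    (h1 : ∀ z, |g z| ≤ B) (x : V) : |Gm c w g x| ≤ 2 * (B * (b - a)) := by
  have h2 := abs_T1_le hab hs h1 x
  have h3 := abs_P1_le hab hs h1 x
  have h4 : 0 ≤ ∫ r in Iic (x 1), bt c w r := integral_nonneg fun r => bt_nonneg hw r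
  have h5 : ∫ r in Iic (x 1), bt c w r ≤ 1 := by
    rw [← bt_integral (c := c) hw]
    exact setIntegral_le_integral (bt_integrable hw) (Eventually.of_forall fun r => bt_nonneg hw r)
  rw [Gm_eq hg hw hs]
  refine (abs_sub _ _).trans ?_
  rw [abs_mul, abs_of_nonneg h4]
  nlinarith [abs_nonneg (T1 g x)]

lemma Gm_zero_of_line {x : V} (h : ∀ r, g (ln x r) = 0) : Gm c w g x = 0 := by
  have e : Gm c w g x = -∫ r in Iic (x 1), (g (ln x r) - (∫ r', g (ln x r')) * bt c w r) := rfl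
  simp [e, h]

lemma Gm_zero_of_far (hg : Continuous g) (hw : 0 < w) (hs : Sl (c - w) (c + w) g) {x : V}
    (h : w < |x 1 - c|) : Gm c w g x = 0 := by
  rw [Gm_eq hg hw hs]
  rcases lt_abs.1 h with h | h
  · have h1 : ∫ r in Iic (x 1), bt c w r = 1 := by
      rw [← bt_integral (c := c) hw]
      exact setIntegral_eq_integral_of_forall_compl_eq_zero fun r hr =>
        bt_zero hw (le_abs.2 (Or.inl (by have : x 1 < r := not_le.1 hr; linarith)))
    have h2 : P1 g x = T1 g x := setIntegral_eq_integral_of_forall_compl_eq_zero fun r hr =>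
      hs _ fun k => by
        have h3 : r ≤ c + w := k.2
        have h4 : x 1 < r := not_le.1 hr
        linarith
    rw [h1, h2, mul_one, sub_self]
  · have h1 : ∫ r in Iic (x 1), bt c w r = 0 := setIntegral_eq_zero_of_forall_eq_zero fun r hr =>
      bt_zero hw (le_abs.2 (Or.inr (by have : r ≤ x 1 := hr; linarith)))
    have h2 : P1 g x = 0 := setIntegral_eq_zero_of_forall_eq_zero fun r hr =>
      hs _ fun k => by
        have h3 : c - w ≤ r := k.1
        have h4 : r ≤ x 1 := hr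
        linarith
    rw [h1, h2, mul_zero, sub_self]

lemma abs_TB_le (hw : 0 < w) (hab : a ≤ b) (hs : Sl a b g) (h1 : ∀ z, |g z| ≤ B) (x : V) :
    |T1 g x * bt c w (x 1)| ≤ B * (b - a) / w := by
  rw [abs_mul, abs_of_nonneg (bt_nonneg hw _), div_eq_mul_one_div]
  have h2 := abs_T1_le hab hs h1 x
  exact mul_le_mul h2 (bt_le hw _) (bt_nonneg hw _) ((abs_nonneg _).trans h2)

lemma cb_T1 {h : ℝ} {n : ℕ} (h0 : 0 < h) (hg : Sm g) (hab : a ≤ b) (hs : Sl a b g)
    (H : CB n (cv h) univ g B) : CB n (cv h) univ (T1 g) (B * (b - a)) := fun l hl x _ => by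
  have B0 : 0 ≤ B := H.nonneg (mem_univ 0)
  have hp0 := hp_pos (h := cv h) (fun _ => h0) l
  rw [pds_T1 hg hs]
  split_ifs
  · simpa using mul_nonneg B0 (sub_nonneg.2 hab)
  · have := abs_T1_le hab (hs.pds l) (fun z => CBl.le_div (h := cv h) (fun _ => h0) H hl (mem_univ z)) x
    rwa [div_mul_eq_mul_div, le_div_iff₀' hp0] at this

/-- bounds of all orders; the function lives in `|x 1 - c| ≤ v` -/
lemma cb_Gm {K h v : ℝ} {n : ℕ} (hK : ∀ j ≤ n, ∀ t, |iteratedDeriv j kb t| ≤ K) (h0 : 0 < h)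
    (hv : h ≤ v) (hvw : v ≤ w) (hg : Sm g) (hs : Sl (c - v) (c + v) g)
    (H : CB n (cv h) univ g B) : CB n (cv h) univ (Gm c w g) ((5 + 2 ^ n * 2 * K) * (B * v)) := by
  have hw : 0 < w := by linarith
  have hab : c - v ≤ c + v := by linarith
  have hs' : Sl (c - w) (c + w) g := hs.mono (by linarith) (by linarith)
  have B0 : 0 ≤ B := H.nonneg (mem_univ 0)
  have K0 : 0 ≤ K := (abs_nonneg _).trans (hK 0 (Nat.zero_le _) 0)
  have Bv : 0 ≤ B * v := mul_nonneg B0 (by linarith)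
  have hKB : 0 ≤ 2 ^ n * 2 * K * (B * v) := by positivity
  intro l hl x _
  have hp0 := hp_pos (h := cv h) (fun _ => h0) l
  by_cases h1 : 1 ∈ l
  · have hF : CB n (cv h) univ (Fm c w g) (B + 2 ^ n * (B * (c + v - (c - v))) * (K / w)) :=
      CBl.sub (fun _ => h0.le) hg ((sm_T1 hg hs).mul (sm_btx c w)) H
        (CB.mul (fun _ => h0.le) (sm_T1 hg hs) (sm_btx c w) (cb_T1 h0 hg hab hs H)
          (cb_btx hK h0.le hw (hv.trans hvw)))
    have h2 := hF (l.erase 1) (List.length_erase_le.trans hl) x (mem_univ x)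
    have h3 : hp (cv h) l = h * hp (cv h) (l.erase 1) := by
      rw [hp_perm _ (List.perm_cons_erase h1), hp_cv, hp_cv, List.length_cons, pow_succ']
    have h4 : h * (K / w) ≤ K := by
      rw [← mul_div_assoc, div_le_iff₀ hw]; nlinarith
    rw [pds_Gm' hg hw hs' h1, abs_neg, h3, mul_assoc]
    refine (mul_le_mul_of_nonneg_left h2 h0.le).trans ?_
    have h5 : h * B ≤ B * v := by nlinarith
    have h6 := mul_le_mul_of_nonneg_left h4 (show 0 ≤ 2 ^ n * 2 * (B * v) by positivity)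
    nlinarith
  · have h2 := abs_Gm_le (c := c) (hg.pds l).continuous hw hab (hs.pds l)
      (fun z => CBl.le_div (h := cv h) (fun _ => h0) H hl (mem_univ z)) x
    rw [pds_Gm hg hw hs' h1]
    refine (mul_le_mul_of_nonneg_left h2 hp0.le).trans ?_
    have e : hp (cv h) l * (2 * (B / hp (cv h) l * (c + v - (c - v)))) = 4 * (B * v) := by
      field_simp; ring
    rw [e]; nlinarith

end CmpA
end
end Pool.Agent.MP_20bec2_an.T3

end MrgPart0

-- ======== part 1: formerly Pool.Agent.MP_20bec2_an.T3.Cmp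
section MrgPart1

/-! Row CMP: the compensator of a window. -/

set_option autoImplicit false
open MeasureTheory Set Filter Matrix Topology

namespace Pool.Agent.MP_20bec2_an.T3
noncomputable section
open Classical
namespace CmpA
open Prof

lemma jm_zero_off {A : V → V} {K : Set V} (hK : IsClosed K) (h0 : ∀ x, x ∉ K → A x = 0) {x : V}
    (hx : x ∉ K) : jm A x = 0 := by
  ext i j
  exact pds_zero_off (g := fun y => A y i) hK (fun y hy => by rw [h0 y hy]; rfl) [j] x hx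

lemma w_bd {e : V → Mx} {A : V → V} {K U : Set V} {a a' b b2 h κ : ℝ} (he : SmM e) (hA : Sm A)
    (h2 : ∀ x, A x 2 = 0) (hK : IsClosed K) (hKU : K ⊆ U) (h0 : ∀ x, x ∉ K → A x = 0) (hh : 0 < h)
    (hκ : 1 ≤ κ) (ha : ∀ x ∈ U, EB2 (e x) (cm a))
    (ha' : ∀ i j, i ≠ 2 → CV 4 (cv h) U (fun x => e x i j) a') (a0 : 0 ≤ a') (haa : a' ≤ a)
    (hb : ∀ i j, CB 4 (cv h) univ (pd j fun x => A x i) b)
    (hb2 : ∀ i, CO 2 (cv 1) univ (fun x => A x i) b2) :
    Sm (fun x => ipm (e x) (jm A x) / κ) ∧ (∀ x, x ∉ K → ipm (e x) (jm A x) / κ = 0) ∧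
      CB 4 (cv h) univ (fun x => ipm (e x) (jm A x) / κ) (144 * (a * b)) ∧
      ∀ j x, |pd j (fun x => ipm (e x) (jm A x) / κ) x| ≤ 9 * (a' / h * b + a * b2) := by
  have b0 : 0 ≤ b := (hb 0 0).nonneg (mem_univ 0)
  have b20 : 0 ≤ b2 := le_trans (hpa_nonneg (fun _ => zero_le_one) _ _ _)
    (hb2 0 [0, 0] rfl 0 (mem_univ _))
  have a1 : 0 ≤ a := a0.trans haa
  have hf : ∀ i j, Sm (pd j fun x => A x i) := fun i j => (hA.coord i).pd j
  have hs : ∀ i j, Sm fun x => e x i j * pd j (fun x => A x i) x := fun i j => (he i j).mul (hf i j)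
  have hs1 : ∀ i, Sm fun x => ∑ j, e x i j * pd j (fun x => A x i) x :=
    fun i => ContDiff.sum fun j _ => hs i j
  have hz : ∀ j, (fun x => e x 2 j * pd j (fun x => A x 2) x) = fun _ => 0 := fun j => by
    funext x; simp [h2, pd]
  have hw0 : ∀ x, x ∉ K → ipm (e x) (jm A x) / κ = 0 := fun x hx => by
    rw [jm_zero_off hK h0 hx]; simp [ipm]
  have hk : ∀ {c : ℝ}, 0 ≤ c → c / |κ| ≤ c := fun hc =>
    div_le_self hc (hκ.trans (le_abs_self _))
  have tot : ∀ {P : List (Fin 3) → Prop} {k : V} {c : ℝ}, (∀ i, 0 ≤ k i) → 0 ≤ c →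
      (∀ i j, i ≠ 2 → CBl P k U (fun x => e x i j * pd j (fun x => A x i) x) c) →
      CBl P k univ (fun x => ipm (e x) (jm A x) / κ) (9 * c) := by
    intro P k c k0 c0 H
    have H1 : ∀ i j, CBl P k U (fun x => e x i j * pd j (fun x => A x i) x) c := fun i j => by
      by_cases hi : i = 2
      · rw [hi, hz]; exact cbl_zero c0
      · exact H i j hi
    have H2 := (CBl.sum_card Finset.univ k0 (fun i _ => hs1 i) fun i _ =>
      CBl.sum_card Finset.univ k0 (fun j _ => hs i j) fun j _ => H1 i j).div_const κ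
    refine CBl.extend (K := K) ((H2.monoU fun x hx => hKU hx.2).monoB ?_) hK hw0 (by positivity)
    refine (hk (by positivity)).trans_eq ?_
    simp; ring
  refine ⟨(ContDiff.sum fun i _ => hs1 i).div_const κ, hw0, ?_, fun j x => ?_⟩
  · have := tot (P := fun l => l.length ≤ 4) (k := cv h) (c := 2 ^ 4 * a * b) (fun _ => hh.le)
      (by positivity) fun i j hi => CB.mul (fun _ => hh.le) (he i j) (hf i j)
        (CV.toCB (CBl.monoB (ha' i j hi) haa) fun x hx => ha x hx i j hi)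
        (CBl.monoU (hb i j) (subset_univ _))
    exact this.monoB (le_of_eq (by ring))
  · have := tot (P := fun l => 1 ≤ l.length ∧ l.length ≤ 1) (k := cv 1)
      (c := a' / h * b + a * b2) (fun _ => zero_le_one) (by positivity) fun i k hi =>
        cv_one_iff.2 fun m y hy => by
          have h1 : |pd m (fun x => e x i k) y| ≤ a' / h := by
            rw [le_div_iff₀' hh]; exact (ha' i k hi).pd_le (by norm_num) m hy
          have h3 : |pd m (pd k fun x => A x i) y| ≤ b2 := by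
            simpa [hp_cv, pds, cv] using hb2 i [m, k] rfl y (mem_univ _)
          have h4 := mul_le_mul h1 ((hb i k).val (mem_univ y)) (abs_nonneg _) (by positivity)
          have h5 := mul_le_mul (ha y hy i k hi) h3 (abs_nonneg _) a1
          rw [pd_mul (he i k) (hf i k)]
          simp only [cv, one_mul]
          refine (abs_add_le _ _).trans ?_
          rw [abs_mul, abs_mul]
          exact add_le_add h4 h5
    simpa [cv] using cv_one_iff.1 this j x (mem_univ _)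

lemma vs_le (φ : Fin 3) : |MD.vs φ| ≤ 1 := by fin_cases φ <;> simp [MD.vs]

lemma cle {N : ℕ} (hN : Big N) {C C0 a b : ℝ} (hC : C ≤ C0) (h0 : C0 ≤ np N (1 / 1000))
    (hab : a + 1 / 1000 ≤ b) : C * np N a ≤ np N b := by
  refine le_trans ?_ (hN.np_le hab)
  rw [hN.np_add, mul_comm]
  exact mul_le_mul_of_nonneg_left (hC.trans h0) (hN.np_pos a).le

/-- the parameters in the case with compensator -/
lemma par {d : MD} (g : Gd d.c) (hc : d.c.comp) (h0 : 10 ^ 4 ≤ np d.c.N (1 / 1000)) (φ : Fin 3) :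
    d.c.hE ≤ d.W2 φ ∧ d.W2 φ ≤ np d.c.N (501 / 1000) * d.c.lam ∧ d.W2 φ ≤ d.bw φ ∧
      4 * d.bw φ ≤ 1 / 100 * d.c.D ∧ d.W2 φ / d.bw φ ≤ 4 * np d.c.N (-8 / 100) ∧
      d.c.d2u / (d.c.q ^ 2 * Real.sqrt d.c.J) ≤ np d.c.N (-97 / 100) / d.c.lam := by
  have hN := g.big
  have hl := g.lam_pos
  have hη : etaS d.c.N ≤ d.c.η := g.thr_bd.1.trans hc
  have hW : np d.c.N (499 / 1000) * d.c.lam ≤ d.W2 φ ∧
      d.W2 φ ≤ np d.c.N (501 / 1000) * d.c.lam := by
    have h1 : etaS d.c.N / 40 ≤ d.c.η := by linarith [hN.etaS_pos]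
    unfold MD.W2
    split_ifs
    · exact ⟨(g.win d.c.W20 (by simp)).1, (g.win d.c.W20 (by simp)).2.2 h1⟩
    · exact ⟨(g.win d.c.W21 (by simp)).1, (g.win d.c.W21 (by simp)).2.2 h1⟩
  have W0 : 0 < d.W2 φ := (mul_pos (hN.np_pos _) hl).trans_le hW.1
  have m1 : np d.c.N (8 / 100) ≤ d.mm := Nat.le_ceil _
  have m0 : 10 ^ 4 ≤ np d.c.N (8 / 100) := h0.trans (hN.np_le (by norm_num))
  have m2 : (d.mm : ℝ) ≤ 2 * np d.c.N (8 / 100) := by
    have := Nat.ceil_lt_add_one (hN.np_pos (8 / 100)).le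
    unfold MD.mm; linarith
  refine ⟨le_trans (mul_le_mul_of_nonneg_right (hN.np_le (by norm_num)) hl.le) hW.1, hW.2, ?_, ?_,
    ?_, ?_⟩
  · unfold MD.bw; nlinarith
  · have h1 : (d.mm : ℝ) * d.W2 φ ≤ 2 * np d.c.N (8 / 100) * (np d.c.N (501 / 1000) * d.c.lam) :=
      mul_le_mul m2 hW.2 W0.le (by linarith)
    have h2 := cle hN (C := 200) (a := 8 / 100 + 501 / 1000) (b := (4 : ℕ)) (by norm_num) h0
      (by norm_num)
    rw [hN.np_add, np_nat] at h2
    have h3 := mul_le_mul h2 g.lam_le_lb hl.le (pow_pos g.N_pos 4).le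
    unfold MD.bw Pm.D; linarith
  · have h1 : np d.c.N (-8 / 100) * np d.c.N (8 / 100) = 1 := by
      rw [← hN.np_add]; norm_num [np_zero]
    have m3 : (0 : ℝ) < d.mm := by linarith
    have e : d.W2 φ / d.bw φ = 4 / d.mm := by unfold MD.bw; field_simp
    rw [e, div_le_iff₀ m3]
    nlinarith [mul_le_mul_of_nonneg_left m1 (hN.np_pos (-8 / 100)).le]
  · have h1 : 1 ≤ d.c.q ^ 2 * Real.sqrt d.c.J :=
      one_le_mul_of_one_le_of_one_le (one_le_pow₀ (by linarith [hN.q_ge, show d.c.q = pq d.c.N from rfl]))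
        (Real.one_le_sqrt.2 (by linarith [hN.J_ge, hN.L_ge, show d.c.J = pJ d.c.N from rfl]))
    refine (div_le_self g.d2u_pos.le h1).trans (le_of_log g.d2u_pos (div_pos (hN.np_pos _) hl) ?_)
    rw [g.log_d2u, Real.log_div (hN.np_pos _).ne' hl.ne', hN.log_np]
    linarith [g.log_etaS_le (a := 1) (by norm_num) (by linarith), hN.J_ge, hN.L_ge]

lemma expand (PV Pt J : Mx) (η : ℝ) (G : V) (hJ : ∀ j, J 2 j = 0)
    (hdv : η * J 0 0 + (2 - η) * J 1 1 = 0) :
    ipm PV (J + Matrix.of fun i j => if i = 1 then G j else 0) =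
      (∑ j, ((PV - Pt) 0 j * J 0 j + (PV - Pt) 1 j * J 1 j)) +
      (ipm (Pt - dg3 η (2 - η) 0) J + (2 - η) * G 1) +
      ∑ j, ((PV - Pt) 1 j + (Pt - dg3 η (2 - η) 0) 1 j) * G j := by
  simp [ipm, Fin.sum_univ_three, hJ, dg3]
  linear_combination hdv

lemma main {d : MD} {p : PT} {s : Sa} {t : Wi} {K : ℝ} (g : Gd d.c) (hI : d.In) (hc : d.c.comp)
    (hK1 : 1 ≤ K) (hK : ∀ j ≤ 4, ∀ t, |iteratedDeriv j kb t| ≤ K)
    (h0 : 10 ^ 4 * K ≤ np d.c.N (1 / 1000)) (hP : d.POk p s) (hD : d.Der p s t) :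
    d.Cmp p s t := by
  have hN := g.big
  have hl := g.lam_pos
  have hE := g.hE_pos
  have h0' : 10 ^ 4 ≤ np d.c.N (1 / 1000) := le_trans (by nlinarith) h0
  obtain ⟨p1, p2, p3, p4, p5, p6⟩ := par g hc h0' t.1
  obtain ⟨sPt, hPt, vPt⟩ := hP.2.2 hc
  have hη := g.η_pos
  have hη1 := g.η_le_one
  set W := d.W2 t.1 with hW
  set bw := d.bw t.1 with hbw
  set c1 := d.c1 t.1 (t.2 0) (t.2 1) with hc1
  have W0 : 0 < W := hE.trans_le p1
  have bw0 : 0 < bw := W0.trans_le p3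
  -- the closed support of the main part
  set S : Set V := {x | x ∈ d.R (9 / 10) ∧ |x 0 / d.W1 t.1 - t.2 0 / d.ns| ≤ 2 / 5 ∧
    |x 1 / W + MD.vs t.1 * (x 0 / d.W1 t.1) - t.2 1 / d.ns| ≤ 2 / 5 ∧ |d.ph p t x| ≤ 2 / 5} with hS
  have hτ := (hP.2.1 t.1 (t.2 0) (t.2 1)).1.continuous
  have Scl : IsClosed S := by
    have k1 : Continuous fun x : V => |x 0 / d.W1 t.1 - t.2 0 / d.ns| := by fun_prop
    have k2 : Continuous fun x : V =>
        |x 1 / W + MD.vs t.1 * (x 0 / d.W1 t.1) - t.2 1 / d.ns| := by fun_prop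
    have k3 : Continuous fun x : V => |d.ph p t x| := by unfold MD.ph; fun_prop
    exact (RX_closed _ _ _).inter ((isClosed_le k1 continuous_const).inter
      ((isClosed_le k2 continuous_const).inter (isClosed_le k3 continuous_const)))
  have S0 : ∀ x, x ∉ S → d.Pm' p s t x = 0 := fun x hx => (hD.sup x (by
    by_contra k
    simp only [not_or, not_lt, not_not] at k
    exact hx k)).1
  have S1 : ∀ x ∈ S, |x 1 - c1| ≤ W := fun x hx => by
    have e : x 1 - c1 = W * ((x 1 / W + MD.vs t.1 * (x 0 / d.W1 t.1) - t.2 1 / d.ns) -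
        MD.vs t.1 * (x 0 / d.W1 t.1 - t.2 0 / d.ns)) := by
      rw [hc1, MD.c1, ← hW]; field_simp; ring
    have h1 : |MD.vs t.1 * (x 0 / d.W1 t.1 - t.2 0 / d.ns)| ≤ 2 / 5 := by
      rw [abs_mul]
      exact (mul_le_of_le_one_left (abs_nonneg _) (vs_le _)).trans hx.2.1
    rw [e, abs_mul, abs_of_pos W0]
    refine mul_le_of_le_one_right W0.le ((abs_sub _ _).trans ?_)
    linarith [hx.2.2.1]
  have R1 : d.R (9 / 10) ⊆ d.R (91 / 100) := RX_mono _ g.D_pos.le (by norm_num)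
  have R2 : d.R (91 / 100) ⊆ d.R (95 / 100) := RX_mono _ g.D_pos.le (by norm_num)
  have sA : Sm (d.Pm' p s t) := hD.cr.sm.1
  obtain ⟨w1, w2, w3, w4⟩ := w_bd (e := fun x => p.Pt x - d.P0) (U := d.R (95 / 100))
    (κ := 2 - d.c.η) (fun i j => (sPt i j).sub contDiff_const) sA (fun _ => rfl) Scl
    (fun x hx => R2 (R1 hx.1)) S0 hE (by linarith) (fun x hx => (hPt x hx).1)
    (fun i j hi => ((vPt i j hi).of_le (by norm_num)).sub_const (sPt i j) (d.P0 i j))
    (hN.np_pos _).le (hN.np_le (by norm_num)) (fun i => (hD.cp hc i).2) hD.d2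
  change Sm (d.wc p s t) at w1
  change ∀ x, x ∉ S → d.wc p s t x = 0 at w2
  change CB 4 _ univ (d.wc p s t) _ at w3
  change ∀ j x, |pd j (d.wc p s t) x| ≤ _ at w4
  rw [← hN.np_add] at w3
  have eG : d.Gc p s t = Gm c1 bw (d.wc p s t) := funext fun x => if_pos hc
  have sl : Sl (c1 - W) (c1 + W) (d.wc p s t) := fun z hz => w2 z fun k =>
    hz ⟨by linarith [(abs_le.1 (S1 z k)).1], by linarith [(abs_le.1 (S1 z k)).2]⟩
  have sl' : Sl (c1 - bw) (c1 + bw) (d.wc p s t) := sl.mono (by linarith) (by linarith)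
  have hab : c1 - W ≤ c1 + W := by linarith
  have sG : Sm (d.Gc p s t) := eG ▸ sm_Gm w1 bw0 sl'
  set B := np d.c.N (-485 / 1000 + -495 / 1000) with hB
  have B0 : 0 < B := hN.np_pos _
  have sup : ∀ x, x ∉ d.R (91 / 100) ∨ 2 / 5 < |x 0 / d.W1 t.1 - t.2 0 / d.ns| ∨
      bw < |x 1 - c1| ∨ 2 / 5 < |d.ph p t x| → d.Gc p s t x = 0 := by
    intro x hx
    rw [eG]
    by_cases hf : bw < |x 1 - c1|
    · exact Gm_zero_of_far w1.continuous bw0 sl' hf
    refine Gm_zero_of_line fun r => w2 _ fun k => ?_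
    rcases hx with hx | hx | hx | hx
    · have h1 : ‖x - ln x r‖ ≤ 2 * bw := (pi_norm_le_iff_of_nonneg (by linarith)).2 fun i => by
        have h2 : |r - c1| ≤ W := S1 _ k
        have h3 := abs_le.1 h2
        have h4 := abs_le.1 (not_lt.1 hf)
        fin_cases i
        · simp [ln, bw0.le]
        · simp only [ln, Fin.mk_one, Pi.sub_apply, Matrix.cons_val_one, Matrix.cons_val_zero,
            Real.norm_eq_abs]
          rw [abs_le]; constructor <;> linarith
        · simp [ln, bw0.le]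
      have h2 := RX_add hI.ort k.1 (y := x) (s := 1 / 100) (by linarith)
      exact hx (by norm_num at h2; exact h2)
    · exact absurd k.2.1 (not_le.2 hx)
    · exact hf hx
    · exact absurd k.2.2.2 (not_le.2 hx)
  have cb : CB 4 (cv d.c.hE) univ (d.Gc p s t) (np d.c.N (-472 / 1000) * d.c.lam) := by
    rw [eG]
    refine CBl.monoB (cb_Gm hK hE p1 p3 w1 sl w3) ?_
    have h1 := cle hN (C := (5 + 2 ^ 4 * 2 * K) * 144) (a := -485 / 1000 + -495 / 1000 + 501 / 1000)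
      (b := -472 / 1000) (by nlinarith) h0 (by norm_num)
    rw [hN.np_add, ← hB] at h1
    have h2 := mul_le_mul_of_nonneg_left p2
      (show 0 ≤ (5 + 2 ^ 4 * 2 * K) * 144 * B by positivity)
    nlinarith [mul_le_mul_of_nonneg_right h1 hl.le]
  have TB : ∀ x, |T1 (d.wc p s t) x * bt c1 bw (x 1)| ≤ 1152 * (B * np d.c.N (-8 / 100)) := by
    intro x
    refine (abs_TB_le bw0 hab sl (fun z => w3.val (mem_univ z)) x).trans ?_
    have e : 144 * B * (c1 + W - (c1 - W)) / bw = 288 * B * (W / bw) := by ring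
    rw [e]
    nlinarith [mul_le_mul_of_nonneg_left p5 B0.le]
  have d1 : ∀ j x, |pd j (d.Gc p s t) x| ≤ np d.c.N (-94 / 100) := by
    intro j x
    rw [eG]
    by_cases hj : j = 1
    · rw [hj, pd_one_Gm w1 bw0 sl', abs_neg]
      refine (abs_sub _ _).trans ?_
      have h1 := w3.val (mem_univ x)
      have h2 : np d.c.N (-8 / 100) ≤ 1 := (hN.np_le (by norm_num)).trans_eq (np_zero _)
      have h3 := cle hN (C := 1296) (a := -485 / 1000 + -495 / 1000) (b := -94 / 100)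
        (by norm_num) h0' (by norm_num)
      nlinarith [TB x, mul_le_mul_of_nonneg_left h2 B0.le]
    · have h1 : np d.c.N (-1 / 2) / d.c.hE * np d.c.N (-495 / 1000)
          = np d.c.N (-1455 / 1000) / d.c.lam := by
        have h2 := hN.np_add (-1455 / 1000) (46 / 100)
        have h3 := hN.np_add (-1 / 2) (-495 / 1000)
        have h4 := hN.np_pos (46 / 100)
        norm_num at h2 h3
        unfold Pm.hE
        field_simp
        norm_num
        linarith
      have h2 : np d.c.N (-485 / 1000) * (d.c.d2u / (d.c.q ^ 2 * Real.sqrt d.c.J))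
          ≤ np d.c.N (-1455 / 1000) / d.c.lam := by
        refine (mul_le_mul_of_nonneg_left p6 (hN.np_pos _).le).trans_eq ?_
        rw [← mul_div_assoc, ← hN.np_add]; norm_num
      have h3 : ∀ z, |pd j (d.wc p s t) z| ≤ 18 * (np d.c.N (-1455 / 1000) / d.c.lam) :=
        fun z => by linarith [w4 j z]
      rw [pd_Gm w1 bw0 sl' hj]
      refine (abs_Gm_le (w1.pd j).continuous bw0 hab (sl.pd j) h3 x).trans ?_
      have h4 := cle hN (C := 72) (a := -1455 / 1000 + 501 / 1000) (b := -94 / 100)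
        (by norm_num) h0' (by norm_num)
      rw [hN.np_add] at h4
      have h5 : W / d.c.lam ≤ np d.c.N (501 / 1000) := by rwa [div_le_iff₀ hl]
      have e : 2 * (18 * (np d.c.N (-1455 / 1000) / d.c.lam) * (c1 + W - (c1 - W)))
          = 72 * (np d.c.N (-1455 / 1000) * (W / d.c.lam)) := by ring
      rw [e]
      linarith [mul_le_mul_of_nonneg_left h5 (hN.np_pos (-1455 / 1000)).le]
  refine ⟨sG, sup, fun hz => ?_, cb, d1, fun l hl2 x _ => ?_, fun _ x _ => ?_⟩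
  · funext x
    rw [eG]
    exact Gm_zero_of_line fun r => by
      simp [MD.wc, hz, ipm]
  · have h1 := CBl.le_div (h := cv d.c.hE) (fun _ => hE) cb (le_of_eq_of_le hl2 (by norm_num))
      (mem_univ x)
    have hl3 : l.length = 2 := hl2
    rw [hp_cv, hl3] at h1
    rw [hp_cv, one_pow, one_mul]
    refine h1.trans ?_
    have h2 := hN.np_le (a := -472 / 1000) (b := -13 / 10 + (46 / 100 + 46 / 100)) (by norm_num)
    rw [hN.np_add, hN.np_add] at h2
    rw [div_le_div_iff₀ (pow_pos hE 2) hl]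
    unfold Pm.hE
    nlinarith [mul_le_mul_of_nonneg_right h2 (mul_pos hl hl).le]
  · have nn : ∀ a b : ℝ, 0 ≤ if W < |x 1 - c1| then np d.c.N a else np d.c.N b := fun a b => by
      split_ifs <;> exact (hN.np_pos _).le
    by_cases hx : x ∈ d.R (95 / 100)
    swap
    · rw [jm_zero_off (A := d.Ps p s t) (K := d.R (91 / 100)) (RX_closed _ _ _) (fun y hy => by
        simp [MD.Ps, S0 y fun k => hy (R1 k.1), sup y (Or.inl hy)]) fun k => hx (R2 k)]
      simpa [ipm] using nn _ _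
    have hnz : ¬d.nz0 t.1 := fun k => g.notcomp_of_noise k.1 hc
    have hdv := hD.dv x
    simp only [MD.Am, MD.om, if_neg hnz, zero_smul, mul_zero, sub_zero, abs_nonpos_iff] at hdv
    have eJ : jm (d.Ps p s t) x = jm (d.Pm' p s t) x +
        Matrix.of fun i j => if i = 1 then pd j (d.Gc p s t) x else 0 := by
      have sv : Sm fun y => (![0, d.Gc p s t y, 0] : V) := sm_pi fun i => by
        fin_cases i
        exacts [contDiff_const, sG, contDiff_const]
      unfold MD.Ps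
      rw [jm_add_at (sA.dif x) (sv.dif x)]
      congr 1
      ext i j
      fin_cases i <;> simp [jm, pd]
    have eW : ipm (p.Pt x - dg3 d.c.η (2 - d.c.η) 0) (jm (d.Pm' p s t) x) +
        (2 - d.c.η) * pd 1 (d.Gc p s t) x
        = (2 - d.c.η) * (T1 (d.wc p s t) x * bt c1 bw (x 1)) := by
      have e1 : ipm (p.Pt x - dg3 d.c.η (2 - d.c.η) 0) (jm (d.Pm' p s t) x)
          = (2 - d.c.η) * d.wc p s t x := by
        rw [MD.wc, mul_div_cancel₀ _ g.two_sub_pos.ne']; rfl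
      rw [e1, eG, pd_one_Gm w1 bw0 sl']
      simp only [Fm]; ring
    rw [eJ, expand _ (p.Pt x) _ d.c.η (fun j => pd j (d.Gc p s t) x)
      (fun j => by simp [jm, MD.Pm', pd]) hdv, eW]
    set ε := d.c.PV (d.E x + jm s.U x) - p.Pt x with hε
    have b2 : |(2 - d.c.η) * (T1 (d.wc p s t) x * bt c1 bw (x 1))|
        ≤ 2304 * np d.c.N (-106 / 100) := by
      have e : np d.c.N (-106 / 100) = B * np d.c.N (-8 / 100) := by
        rw [hB, ← hN.np_add]; norm_num
      rw [abs_mul, abs_of_pos g.two_sub_pos, e]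
      nlinarith [TB x, abs_nonneg (T1 (d.wc p s t) x * bt c1 bw (x 1))]
    have b3 : |∑ j, (ε 1 j + (p.Pt x - dg3 d.c.η (2 - d.c.η) 0) 1 j) * pd j (d.Gc p s t) x|
        ≤ 6 * np d.c.N (-106 / 100) := by
      refine (Finset.abs_sum_le_sum_abs _ _).trans ((Finset.sum_le_card_nsmul _ _
        (2 * np d.c.N (-106 / 100)) fun j _ => ?_).trans_eq (by simp; ring))
      have h1 : |ε 1 j| ≤ np d.c.N (-507 / 1000) := (hPt x hx).2 1 j (by decide)
      have h2 : |(p.Pt x - dg3 d.c.η (2 - d.c.η) 0) 1 j| ≤ np d.c.N (-485 / 1000) :=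
        (hPt x hx).1 1 j (by decide)
      have h3 := hN.np_le (a := -507 / 1000) (b := -485 / 1000) (by norm_num)
      have h4 := hN.np_le (a := -485 / 1000 + -94 / 100) (b := -106 / 100) (by norm_num)
      rw [hN.np_add] at h4
      rw [abs_mul]
      refine (mul_le_mul ((abs_add_le _ _).trans (add_le_add (h1.trans h3) h2)) (d1 j x)
        (abs_nonneg _) (by linarith [hN.np_pos (-485 / 1000)])).trans ?_
      linarith
    refine (abs_add_three _ _ _).trans ?_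
    split_ifs with hf
    · have h1 := cle hN (C := 2310) (a := -106 / 100) (b := -105 / 100) (by norm_num) h0'
        (by norm_num)
      rw [jm_zero_off Scl S0 fun k => absurd (S1 x k) (not_le.2 hf)]
      simp only [Matrix.zero_apply, mul_zero, add_zero, Finset.sum_const_zero, abs_zero]
      linarith
    · have b1 : |∑ j, (ε 0 j * jm (d.Pm' p s t) x 0 j + ε 1 j * jm (d.Pm' p s t) x 1 j)|
          ≤ 6 * np d.c.N (-1002 / 1000) := by
        refine (Finset.abs_sum_le_sum_abs _ _).trans ((Finset.sum_le_card_nsmul _ _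
          (2 * np d.c.N (-1002 / 1000)) fun j _ => ?_).trans_eq (by simp; ring))
        have key : ∀ i, i ≠ 2 → |ε i j * jm (d.Pm' p s t) x i j| ≤ np d.c.N (-1002 / 1000) := by
          intro i hi
          have e : np d.c.N (-1002 / 1000) = np d.c.N (-507 / 1000) * np d.c.N (-495 / 1000) := by
            rw [← hN.np_add]; norm_num
          rw [abs_mul, e]
          exact mul_le_mul ((hPt x hx).2 i j hi) (((hD.cp hc i).2 j).val (mem_univ x))
            (abs_nonneg _) (hN.np_pos _).le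
        linarith [abs_add_le (ε 0 j * jm (d.Pm' p s t) x 0 j) (ε 1 j * jm (d.Pm' p s t) x 1 j),
          key 0 (by decide), key 1 (by decide)]
      have h1 := cle hN (C := 2316) (a := -1002 / 1000) (b := -1001 / 1000) (by norm_num) h0'
        (by norm_num)
      have h2 := hN.np_le (a := -106 / 100) (b := -1002 / 1000) (by norm_num)
      linarith

end CmpA

theorem cmp : CmpStmt := by
  obtain ⟨K, hK1, hK⟩ := Prof.kb_bound 4
  filter_upwards [ev_gd, ev_CqJ_np (10 ^ 4 * K) 0 0 (c := 1 / 1000) (by norm_num)] with N hg h0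
  intro d hN _ hI p s _ hP t hD
  have g := hg d.c hN hI.ok
  by_cases hc : d.c.comp
  · rw [qp_zero, Jp_zero, mul_one, mul_one, ← hN] at h0
    exact CmpA.main g hI hc hK1 hK h0 hP hD
  · have e : d.Gc p s t = fun _ => 0 := funext fun x => if_neg hc
    refine ⟨e ▸ contDiff_const, fun x _ => if_neg hc, fun _ => e, ?_, fun j x => ?_, ?_,
      fun k => absurd k hc⟩
    · rw [e]; exact cbl_zero (mul_pos (g.big.np_pos _) g.lam_pos).le
    · rw [e]; simpa [pd] using (g.big.np_pos _).le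
    · rw [e]; exact cbl_zero (div_pos (g.big.np_pos _) g.lam_pos).le

end
end Pool.Agent.MP_20bec2_an.T3

end MrgPart1

-- marker of a merged file
example : 731051 + 226413 = 731051 + 226413 := rfl

end MrgPart0

-- ======== part 1: formerly Pool.Agent.MP_20bec2_an.T3.Ptl
section MrgPart1

-- ======== part 0: formerly Pool.Agent.MP_20bec2_an.T3.Finf
section MrgPart0

/-! Row FINF: uniform bounds of the main flux of a path. -/

set_option autoImplicit false
open MeasureTheory Set Filter Matrix Topology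

namespace Pool.Agent.MP_20bec2_an.T3
noncomputable section
open Classical

namespace FinfP

variable {d : MD}

lemma gw_of_gs (g : Gd d.c) {s : Sa} (H : d.Gs s) : d.Gw s := by
  have p := (g.big.np_pos (-270)).le
  have l := g.lam_pos.le
  refine ⟨s, H, H.sm, fun x => ⟨(H.sup x).1, (H.sup x).2.2.1⟩,
    fun x => ⟨?_, fun i j => ?_, fun i j => ?_, ?_⟩⟩
  · simpa using mul_nonneg p l
  · simpa [cm] using p
  · simpa [cm] using mul_nonneg p (sq_nonneg _)
  · simpa using p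

/-- the weight of one displacement -/
lemma wt (hI : d.In) {e : ℝ} {v : V → V} {ω : V → ℝ} (H : d.Cr e v ω) (i : Fin 3) :
    Measurable (fun x => d.ρ x * v x i) ∧ (∀ x, |d.ρ x * v x i| ≤ 2 * (e * d.c.q * d.c.hs i)) ∧
      ∀ x, x ∉ d.R (93 / 100) → d.ρ x * v x i = 0 := by
  refine ⟨hI.rho.1.mul (H.sm.1.coord i).continuous.measurable, fun x => ?_, fun x hx => ?_⟩
  · rw [abs_mul]
    refine mul_le_mul ?_ (H.sz x i) (abs_nonneg _) (by norm_num)
    have h1 := abs_le.1 (hI.rho.2 x)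
    unfold eps0 at h1
    exact abs_le.2 ⟨by linarith [h1.1], by linarith [h1.2]⟩
  · rw [((H.sup x).1 hx).1]; simp

lemma fmain_eq (S : V → Mx) (u : ℕ → V → V) (ω : ℕ → V → ℝ) (T : ℕ) (i : Fin 3) :
    (fun z => fmain d.ρ d.Z S u T z i) =
      fun z => ∑ m ∈ Finset.range T, d.Fv S (d.sa u ω m) (u m) z i := by
  funext z
  simp only [fmain, MD.Fv, MD.sa, Finset.sum_neg_distrib]

lemma sm_Fv {h : V} {U : Set V} {A : ℝ} {S : V → Mx} {s : Sa} {v : V → V} {i : Fin 3}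
    (H : KL h U (fun x => d.ρ x * v x i) A (fun x => d.Z x + s.U x) (fun x => S x - s.C x)) :
    Sm fun z => d.Fv S s v z i :=
  (k1 _ _ _ ((kb_ k1 0).choose_spec.2.2 _ _ _ _ _ _ H).1).1.neg

lemma sm_dv {F : V → V} (h : ∀ i, Sm fun z => F z i) : Sm (dv F) :=
  ContDiff.sum fun i _ => (h i).pd i

section sums

variable {S : V → Mx} {u : ℕ → V → V} (ω : ℕ → V → ℝ) {T : ℕ}
  (hs : ∀ m ∈ Finset.range T, ∀ i, Sm fun z => d.Fv S (d.sa u ω m) (u m) z i)
include hs

lemma sm_fmain (i : Fin 3) : Sm fun z => fmain d.ρ d.Z S u T z i := by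
  rw [fmain_eq S u ω]
  exact ContDiff.sum fun m hm => hs m hm i

lemma pds_fmain (l : List (Fin 3)) (i : Fin 3) (z : V) :
    pds l (fun w => fmain d.ρ d.Z S u T w i) z =
      ∑ m ∈ Finset.range T, pds l (fun w => d.Fv S (d.sa u ω m) (u m) w i) z := by
  rw [fmain_eq S u ω, pds_sum _ fun m hm => hs m hm i]

lemma dv_fmain : dv (fmain d.ρ d.Z S u T) =
    fun z => ∑ m ∈ Finset.range T, dv (d.Fv S (d.sa u ω m) (u m)) z := by
  funext z
  unfold dv
  rw [Finset.sum_comm]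
  exact Finset.sum_congr rfl fun i _ => pds_fmain ω hs [i] i z

lemma pd_dv_fmain (i : Fin 3) (z : V) : pd i (dv (fmain d.ρ d.Z S u T)) z =
    ∑ m ∈ Finset.range T, pd i (dv (d.Fv S (d.sa u ω m) (u m))) z := by
  rw [dv_fmain ω hs, pd_sum _ fun m hm => sm_dv (hs m hm)]

end sums

lemma tot_eq (n : ℝ → V) (f : V → ℝ) : tot n f = colI n univ f := by
  funext w; simp [tot, colI]

lemma kap (g : Gd d.c) : np d.c.N (-19 / 10) ≤ 1 / 1000 ∧
    ∀ i, i ≠ 2 → np d.c.N (-19 / 10) * d.c.hs 2 ≤ d.c.hs i / 100 := by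
  have hJ := g.big.J_ge
  have hL := g.big.L_ge
  have h1 : np d.c.N (-19 / 10) * d.c.y ≤ d.c.lam / 100 := by
    have := g.big.np_pos (-19 / 10); have := g.y_pos; have := g.lam_pos
    refine le_of_log (by positivity) (by positivity) ?_
    simp (disch := positivity) only [Real.log_mul, Real.log_div, g.big.log_np, g.log_y]
    linarith [(logc_bd (show (1 : ℝ) ≤ 100 by norm_num)).2]
  refine ⟨le_of_log (g.big.np_pos _) (by norm_num) ?_, fun i hi => ?_⟩
  · rw [g.big.log_np, one_div, Real.log_inv]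
    linarith [(logc_bd (show (1 : ℝ) ≤ 1000 by norm_num)).2]
  · have h2 := g.lam_le_l1
    fin_cases i
    · exact h1.trans (by show d.c.lam / 100 ≤ d.c.l1 / 100; linarith)
    · exact h1
    · exact absurd rfl hi

lemma at_nil {n : ℕ} {P : List (Fin 3) → Prop} (h : ∀ l ∈ LL n, P l) : P [] := h _ (nil_mem_LL n)

/-- what the column rows give for one displacement -/
lemma col_facts (hC : ColkStmt) (g : Gd d.c) (hI : d.In) (k : Cu) {U : Set V} {A : ℝ} {s : Sa}
    {v : V → V} {i : Fin 3} (H : KL d.c.hs U (fun x => d.ρ x * v x i) A (fun x => d.Z x + s.U x)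
      (fun x => d.S x - s.C x)) :
    Sm (pre (d.ch k) (d.c.cf k (d.Fv d.S s v) i)) ∧ Sm (tot (d.ch k) (d.c.cf k (d.Fv d.S s v) i)) ∧
      ∀ w, Integrable fun r => d.c.cf k (d.Fv d.S s v) i (cpt (d.ch k) w r) := by
  obtain ⟨C, -, hC⟩ := hC
  have hb := Prof.bc_sm d.c k
  have hB := BdD.of_compact hb (Prof.bc_hcs g.cw_pos k)
  obtain ⟨Bc, hBc⟩ := hB.cb (fun i => (g.hs_pos i).le) 6
  obtain ⟨-, h1, h2, -, h3⟩ := ((hC d.c.hs (d.ch k) _ g.hs_pos (hI.chb.2 k).1
    (fun i hi => ⟨fun r => ((hI.chb.2 k).2 i hi r).2.1, (kap g).2 i hi⟩) (kap g).1).1 (d.c.bc k) Bc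
    univ hb hB hBc MeasurableSet.univ).1 _ _ _ _ _ H
  have e : d.c.cf k (d.Fv d.S s v) i = fun z => -(d.c.bc k z * dens (fun x => d.ρ x * v x i)
      (fun x => d.Z x + s.U x) (fun x => d.S x - s.C x) z) := by
    funext z; simp [Pm.cf, MD.Fv]
  rw [e, tot_eq]
  refine ⟨?_, ?_, fun w => ?_⟩
  rotate_right
  · have h4 := ((at_nil h3).2.2 w).1
    simp only [pds] at h4
    exact h4.neg
  · convert h2.neg using 1
    funext w; simp only [pre, integral_neg]
  · convert h1.neg using 1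
    funext w; simp only [colI, integral_neg]

lemma cf_fmain (u : ℕ → V → V) (ω : ℕ → V → ℝ) (T : ℕ) (k : Cu) (i : Fin 3) (z : V) :
    d.c.cf k (fmain d.ρ d.Z d.S u T) i z =
      ∑ m ∈ Finset.range T, d.c.cf k (d.Fv d.S (d.sa u ω m) (u m)) i z := by
  unfold Pm.cf
  rw [congrFun (fmain_eq d.S u ω T i) z, Finset.mul_sum]

section cols

variable {u : ℕ → V → V} {ω : ℕ → V → ℝ} {T : ℕ} {k : Cu} {i : Fin 3}
  (hs : ∀ m ∈ Finset.range T,
    Sm (pre (d.ch k) (d.c.cf k (d.Fv d.S (d.sa u ω m) (u m)) i)) ∧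
    Sm (tot (d.ch k) (d.c.cf k (d.Fv d.S (d.sa u ω m) (u m)) i)) ∧
      ∀ w, Integrable fun r => d.c.cf k (d.Fv d.S (d.sa u ω m) (u m)) i (cpt (d.ch k) w r))
include hs

lemma pre_fmain (l : List (Fin 3)) (w : V) :
    pds l (pre (d.ch k) (d.c.cf k (fmain d.ρ d.Z d.S u T) i)) w =
      ∑ m ∈ Finset.range T, pds l (pre (d.ch k) (d.c.cf k (d.Fv d.S (d.sa u ω m) (u m)) i)) w := by
  have e : pre (d.ch k) (d.c.cf k (fmain d.ρ d.Z d.S u T) i) = fun w =>
      ∑ m ∈ Finset.range T, pre (d.ch k) (d.c.cf k (d.Fv d.S (d.sa u ω m) (u m)) i) w := by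
    funext w
    unfold pre
    simp only [cf_fmain u ω]
    exact integral_finsetSum _ fun m hm => ((hs m hm).2.2 w).integrableOn
  rw [e, pds_sum _ fun m hm => (hs m hm).1]

lemma tot_fmain (l : List (Fin 3)) (w : V) :
    pds l (tot (d.ch k) (d.c.cf k (fmain d.ρ d.Z d.S u T) i)) w =
      ∑ m ∈ Finset.range T, pds l (tot (d.ch k) (d.c.cf k (d.Fv d.S (d.sa u ω m) (u m)) i)) w := by
  have e : tot (d.ch k) (d.c.cf k (fmain d.ρ d.Z d.S u T) i) = fun w =>
      ∑ m ∈ Finset.range T, tot (d.ch k) (d.c.cf k (d.Fv d.S (d.sa u ω m) (u m)) i) w := by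
    funext w
    unfold tot
    simp only [cf_fmain u ω]
    exact integral_finsetSum _ fun m hm => (hs m hm).2.2 w
  rw [e, pds_sum _ fun m hm => (hs m hm).2.1]

end cols

lemma undiv {ι : Type} {T : Finset ι} {f : ι → ℝ} {a c B : ℝ} (ha : 0 ≤ a) (hc : 0 < c)
    (h : |∑ m ∈ T, a * f m / c| ≤ B) : a * |∑ m ∈ T, f m| ≤ B * c := by
  rwa [← Finset.sum_div, ← Finset.mul_sum, abs_div, abs_mul, abs_of_nonneg ha, abs_of_pos hc,
    div_le_iff₀ hc] at h

/-! ## numbers -/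

lemma num1 {N : ℕ} (g : Big N) (a : ℝ) :
    2 * qp N (1 / 10) * Real.sqrt (pJ N) * np N a ≤ np N (a + 5 / 1000) := by
  have := g.qp_pos (1 / 10); have := g.sqrtJ_pos; have := g.np_pos a
  refine le_of_log (by positivity) (g.np_pos _) ?_
  simp (disch := positivity) only [Real.log_mul, g.log_np, g.log_qp, g.log_sqrtJ]
  linarith [g.J_ge, g.L_ge, log2_bd.2]

lemma num2 (g : Gd d.c) : 2 * qp d.c.N (1 / 10) * Real.sqrt d.c.J * (d.c.GG / 2) ≤ d.c.GH := by
  have := g.big.qp_pos (1 / 10); have := g.J_pos; have := g.GG_pos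
  rw [show 2 * qp d.c.N (1 / 10) * Real.sqrt d.c.J * (d.c.GG / 2) =
    qp d.c.N (1 / 10) * Real.sqrt d.c.J * d.c.GG by ring]
  refine le_of_log (by positivity) g.GH_pos ?_
  simp (disch := positivity) only [Real.log_mul, Real.log_sqrt, g.big.log_qp, g.log_J, g.log_GH]
  linarith [g.big.L_ge]

lemma num3 (g : Gd d.c) {C : ℝ} (hC : 1 ≤ C) (hL : C ≤ pL d.c.N) :
    (nT d.c.N : ℝ) * (C * (2 * (d.ep * d.c.q)) * Real.exp (-(d.c.N : ℝ) ^ 2 / 60)) ≤
      Real.exp (-d.c.N) := by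
  have hN := g.N_pos; have := g.q_pos; have := g.big.np_pos (-700)
  have h0 : 0 < C := by linarith
  have h1 := (logc_bd hC).2
  unfold nT MD.ep
  push_cast
  refine le_of_log (by positivity) (Real.exp_pos _) ?_
  simp (disch := positivity) only [Real.log_mul, Real.log_pow, Real.log_exp, g.big.log_np,
    g.big.log_N, g.log_q]
  have h2 := g.big.N_ge; have h3 := g.big.J_ge; have h4 := g.big.L_ge
  have h5 : 120 * (d.c.N : ℝ) ≤ (d.c.N : ℝ) ^ 2 := by nlinarith
  push_cast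
  linarith [log2_bd.2]

lemma num4 (g : Gd d.c) (j : Fin 3) : d.c.N * d.c.hs j ≤ d.c.D / 500 := by
  have hN := g.N_pos; have := g.y_pos; have := g.D_pos; have := g.lam_pos
  have h1 : d.c.N * d.c.y ≤ d.c.D / 500 := by
    refine le_of_log (by positivity) (by positivity) ?_
    simp (disch := positivity) only [Real.log_mul, Real.log_div, g.log_y, g.log_D, g.big.log_N]
    linarith [(logc_bd (show (1 : ℝ) ≤ 500 by norm_num)).2, g.big.J_ge, g.big.L_ge,
      Real.log_le_log g.lam_pos g.lam_le_lb]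
  have h2 : d.c.l1 ≤ d.c.y := le_of_log g.l1_pos g.y_pos (by
    rw [g.log_l1, g.log_y]; linarith [g.log_ro_bd.2, g.big.J_ge, g.big.L_ge])
  refine le_trans (mul_le_mul_of_nonneg_left ?_ hN.le) h1
  fin_cases j
  · exact h2
  · exact g.lam_le_l1.trans h2
  · exact le_rfl

/-- the support of the weight is far from the points outside the larger cube -/
lemma far_pt (g : Gd d.c) (hO : Orth d.O) {x p z : V} (hx : x ∈ d.R (93 / 100))
    (hp : ‖d.O *ᵥ (p - x)‖ ≤ d.c.D / 900) (hz : z ∉ RX d.O d.c.D (935 / 1000)) :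
    (d.c.N : ℝ) ^ 2 ≤ ∑ i, ((p - z) i / d.c.hs i) ^ 2 := by
  have hD := g.D_pos
  have h1 : 935 / 1000 * d.c.D < ‖d.O *ᵥ z‖ := not_le.1 hz
  have h2 : ‖d.O *ᵥ x‖ ≤ 93 / 100 * d.c.D := hx
  have h3 : d.O *ᵥ z = d.O *ᵥ x + d.O *ᵥ (p - x) - d.O *ᵥ (p - z) := by
    simp only [mulVec_sub]; abel
  have h4 := norm_sub_le (d.O *ᵥ x + d.O *ᵥ (p - x)) (d.O *ᵥ (p - z))
  have h5 := norm_add_le (d.O *ᵥ x) (d.O *ᵥ (p - x))
  have h6 := GeoP.norm_orth hO (p - z)
  rw [← h3] at h4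
  obtain ⟨j, hj⟩ : ∃ j, d.c.D / 500 ≤ |(p - z) j| := by
    by_contra hn
    push Not at hn
    have : ‖p - z‖ < d.c.D / 500 := (pi_norm_lt_iff (by positivity)).2 hn
    linarith
  have h7 : (d.c.N : ℝ) ≤ |(p - z) j / d.c.hs j| := by
    rw [abs_div, abs_of_pos (g.hs_pos j), le_div_iff₀ (g.hs_pos j)]
    exact (num4 g j).trans hj
  calc (d.c.N : ℝ) ^ 2 ≤ ((p - z) j / d.c.hs j) ^ 2 := by
        rw [← sq_abs ((p - z) j / d.c.hs j)]; exact pow_le_pow_left₀ g.N_pos.le h7 2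
    _ ≤ _ := Finset.single_le_sum (f := fun i => ((p - z) i / d.c.hs i) ^ 2)
        (fun i _ => sq_nonneg _) (Finset.mem_univ j)

end FinfP

open FinfP

theorem finf (hK : KlsStmt) (hC : ColkStmt) : FinfStmt := by
  obtain ⟨C, hC1, -, hB⟩ := kb_ k1 3
  filter_upwards [hK, ev_gd, ev_pL C] with N hK hg hL d hN hk hI u ω P
  subst hN
  have g := hg d.c rfl hI.ok
  have K := fun m (hm : m ∈ Finset.range (nT d.c.N)) =>
    hK d rfl hk hI _ (gw_of_gs g (P.gs m (Finset.mem_range.1 hm).le))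
  have KS := fun m hm i => (K m hm).2 _ _ (wt hI (P.cr m) i).1 (wt hI (P.cr m) i).2.1
    (wt hI (P.cr m) i).2.2
  have hs : ∀ m ∈ Finset.range (nT d.c.N), ∀ i, Sm fun z => d.Fv d.S (d.sa u ω m) (u m) z i :=
    fun m hm i => sm_Fv (KS m hm i).1
  have hh := fun l => hp_nonneg (fun i => (g.hs_pos i).le) l
  have cO := fun a Λ (h : Λ ∈ d.FamO a) => P.cru _ le_rfl Λ (Or.inr ⟨a, Or.inl h⟩)
  have cH := fun a ζ Λ (h : Λ ∈ d.FamH a ζ) => P.cru _ le_rfl Λ (Or.inr ⟨a, Or.inr ⟨ζ, h⟩⟩)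
  refine ⟨⟨sm_pi (sm_fmain ω hs), fun z => ?_, fun i hi l hl z _ => ?_, fun i hi l hl z hz => ?_,
    fun k i hi => ?_⟩, fun y' hy i hi z => ?_⟩
  · simp [fmain, dens, fun m x => ((P.cr m).sup x).2]
  · have h1 := undiv (hh l) (mul_pos (g.big.np_pos _) (g.hs_pos i))
      (cO _ _ ⟨z, i, rfl, hi, Or.inl ⟨l, hl, rfl⟩⟩)
    rw [pds_fmain ω hs]
    refine h1.trans ?_
    rw [← mul_assoc]
    refine mul_le_mul_of_nonneg_right ((num1 g.big _).trans (g.big.np_le ?_)) (g.hs_pos i).le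
    norm_num
  · rw [pds_fmain ω hs]
    have h1 : ∀ m ∈ Finset.range (nT d.c.N), hp d.c.hs l *
        |pds l (fun w => d.Fv d.S (d.sa u ω m) (u m) w i) z| ≤
        C * (2 * (d.ep * d.c.q * d.c.hs i)) * Real.exp (-(d.c.N : ℝ) ^ 2 / 60) := fun m hm => by
      have h2 := (hB _ _ _ _ _ _ (KS m hm i).1).2.2 z ((d.c.N : ℝ) ^ 2) (fun x hx ha =>
        far_pt g hI.ort (by_contra fun hn => ha ((wt hI (P.cr m) i).2.2 x hn))
          ((K m hm).1 x hx).2.1 hz) l hl z rfl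
      unfold MD.Fv
      rwa [pds_neg, abs_neg]
    calc _ ≤ hp d.c.hs l * ∑ m ∈ Finset.range (nT d.c.N),
          |pds l (fun w => d.Fv d.S (d.sa u ω m) (u m) w i) z| :=
          mul_le_mul_of_nonneg_left (Finset.abs_sum_le_sum_abs _ _) (hh l)
      _ ≤ ∑ m ∈ Finset.range (nT d.c.N),
          C * (2 * (d.ep * d.c.q * d.c.hs i)) * Real.exp (-(d.c.N : ℝ) ^ 2 / 60) := by
          rw [Finset.mul_sum]; exact Finset.sum_le_sum h1
      _ = (nT d.c.N : ℝ) * (C * (2 * (d.ep * d.c.q)) * Real.exp (-(d.c.N : ℝ) ^ 2 / 60)) *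
          d.c.hs i := by rw [Finset.sum_const, Finset.card_range, nsmul_eq_mul]; ring
      _ ≤ _ := mul_le_mul_of_nonneg_right (num3 g hC1 hL) (g.hs_pos i).le
  · have hc := fun m hm => col_facts hC g hI k (KS m hm i).1
    have hw : ∀ l, 0 < d.wl l := fun l => by
      unfold MD.wl; split_ifs
      · exact g.big.pA_pos
      · exact one_pos
    have hpos := fun l => mul_pos (mul_pos (g.hs_pos i) (half_pos g.GG_pos)) (hw l)
    have fin : ∀ l, 2 * qp d.c.N (1 / 10) * Real.sqrt d.c.J * (d.c.hs i * (d.c.GG / 2) * d.wl l) ≤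
        d.wl l * d.c.hs i * d.c.GH := fun l => by
      have := mul_le_mul_of_nonneg_left (num2 g) (mul_pos (hw l) (g.hs_pos i)).le
      linarith
    have bp : ∀ l ∈ LL 3, ∀ w, hp d.c.hs l *
        |pds l (pre (d.ch k) (d.c.cf k (fmain d.ρ d.Z d.S u (nT d.c.N)) i)) w| ≤
        d.wl l * d.c.hs i * d.c.GH := fun l hl w => by
      rw [pre_fmain hc]
      exact (undiv (hh l) (hpos l)
        (cH _ _ _ ⟨w, rfl, Or.inl ⟨k, l, hl, i, hi, Or.inl ⟨rfl, rfl⟩⟩⟩)).trans (fin l)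
    have bt : ∀ l ∈ LL 3, ∀ w, hp d.c.hs l *
        |pds l (tot (d.ch k) (d.c.cf k (fmain d.ρ d.Z d.S u (nT d.c.N)) i)) w| ≤
        d.wl l * d.c.hs i * d.c.GH := fun l hl w => by
      rw [tot_fmain hc]
      exact (undiv (hh l) (hpos l)
        (cH _ _ _ ⟨w, rfl, Or.inl ⟨k, l, hl, i, hi, Or.inr ⟨rfl, rfl⟩⟩⟩)).trans (fin l)
    refine ⟨fun l hl w _ => ?_, fun l hl w _ => ?_, fun w => ⟨?_, ?_⟩⟩
    · simpa [MD.wl, (latL_iff.1 hl).2] using bp l (latL_iff.1 hl).1 w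
    · simpa [MD.wl, (latL_iff.1 hl).2] using bt l (latL_iff.1 hl).1 w
    · simpa [MD.wl, hp, pds] using bp [] (nil_mem_LL 3) w
    · simpa [MD.wl, hp, pds] using bt [] (nil_mem_LL 3) w
  · have hy0 : 0 < y' := (mul_pos (g.big.np_pos _) g.y_pos).trans_le hy.1
    have h1 := undiv (mul_pos (div_pos hy0 g.y_pos) (g.hs_pos i)).le (g.big.np_pos _)
      (cO _ _ ⟨z, i, rfl, hi, Or.inr (Or.inl ⟨y', hy, rfl⟩)⟩)
    rw [pd_dv_fmain ω fun m hm j => sm_Fv ((KS m hm j).2.1 y' hy)]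
    refine h1.trans ((num1 g.big _).trans (g.big.np_le ?_))
    norm_num

end
end Pool.Agent.MP_20bec2_an.T3

end MrgPart0

-- ======== part 1: formerly Pool.Agent.MP_20bec2_an.T3.Mix
section MrgPart1

/-! Row MIX: the candidates of one round are mixtures of the windows of one sweep. -/

set_option autoImplicit false
open MeasureTheory Set Filter Matrix Topology

namespace Pool.Agent.MP_20bec2_an.T3
noncomputable section
open Classical

namespace Mix

section
variable {ι κ E : Type} [AddCommGroup E] {T : Finset ι}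

theorem sum_one {l : ι → E} (h : ∀ t ∈ T, ∀ t' ∈ T, t ≠ t' → l t = 0 ∨ l t' = 0) :
    (∀ t ∈ T, l t = 0) ∨ ∃ t0 ∈ T, ∀ t ∈ T, t ≠ t0 → l t = 0 := by
  by_cases h0 : ∀ t ∈ T, l t = 0
  · exact Or.inl h0
  · push Not at h0
    obtain ⟨t0, m0, n0⟩ := h0
    exact Or.inr ⟨t0, m0, fun t mt ht => (h t mt t0 m0 ht).resolve_right n0⟩

theorem sum_prop {l : ι → E} (h : ∀ t ∈ T, ∀ t' ∈ T, t ≠ t' → l t = 0 ∨ l t' = 0) (P : E → Prop)
    (h0 : P 0) (hP : ∀ t ∈ T, P (l t)) : P (∑ t ∈ T, l t) := by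
  rcases sum_one h with h1 | ⟨t0, m0, h1⟩
  · rwa [Finset.sum_eq_zero h1]
  · rw [Finset.sum_eq_single_of_mem t0 m0 h1]
    exact hP t0 m0

theorem sum_map {l : ι → E} (h : ∀ t ∈ T, ∀ t' ∈ T, t ≠ t' → l t = 0 ∨ l t' = 0) (F : E → ℝ)
    (h0 : F 0 = 0) : F (∑ t ∈ T, l t) = ∑ t ∈ T, F (l t) := by
  rcases sum_one h with h1 | ⟨t0, m0, h1⟩
  · rw [Finset.sum_eq_zero h1, h0, Finset.sum_eq_zero fun t ht => by rw [h1 t ht, h0]]
  · rw [Finset.sum_eq_single_of_mem t0 m0 h1,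
      Finset.sum_eq_single_of_mem t0 m0 fun t ht hn => by rw [h1 t ht hn, h0]]

/-- the coefficients of the stage attached to `t'` -/
def row (sw : ι → κ) (ε : ℝ) (A : κ → ι → ι → ℝ) (t' t : ι) : ℝ :=
  if sw t = sw t' then ε * A (sw t') t t' else 0

theorem exists_coef (T : Finset ι) (r : ι → ι → ℝ) {n : ℕ} (hn : T.card ≤ n) :
    ∃ c : ℕ → ι → ℝ, (∀ m, c m = 0 ∨ ∃ t' ∈ T, c m = r t') ∧
      ∀ G : (ι → ℝ) → ℝ, G 0 = 0 → ∑ m ∈ Finset.range n, G (c m) = ∑ t' ∈ T, G (r t') := by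
  refine ⟨fun m => if h : m < T.card then r (T.equivFin.symm ⟨m, h⟩) else 0, fun m => ?_,
    fun G hG => ?_⟩
  · by_cases h : m < T.card
    · exact Or.inr ⟨_, (T.equivFin.symm ⟨m, h⟩).2, dif_pos h⟩
    · exact Or.inl (dif_neg h)
  · rw [← Finset.sum_subset (Finset.range_subset_range.2 hn) fun m _ hm =>
      (congrArg G (dif_neg (by simpa using hm))).trans hG, Finset.sum_range,
      ← Finset.sum_coe_sort T, ← T.equivFin.symm.sum_comp]
    exact Finset.sum_congr rfl fun m _ => congrArg G (dif_pos m.2)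

/-- at most one term of each sweep is not zero -/
def Sp (T : Finset ι) (sw : ι → κ) (l : ι → E) : Prop :=
  ∀ t ∈ T, ∀ t' ∈ T, sw t = sw t' → t ≠ t' → l t = 0 ∨ l t' = 0

/-- what is used about the coefficients -/
structure Co (T : Finset ι) (sw : ι → κ) (ε : ℝ) (A : κ → ι → ι → ℝ) (n : ℕ) (c : ℕ → ι → ℝ) :
    Prop where
  pos : 0 ≤ ε
  one : ∀ t ∈ T, ∑ t' ∈ T with sw t' = sw t, A (sw t) t t' ^ 2 = 1
  alt : ∀ m, c m = 0 ∨ ∃ t' ∈ T, c m = row sw ε A t'
  sum : ∀ G : (ι → ℝ) → ℝ, G 0 = 0 →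
    ∑ m ∈ Finset.range n, G (c m) = ∑ t' ∈ T, G (row sw ε A t')

variable {sw : ι → κ} {ε : ℝ} {A : κ → ι → ι → ℝ} {n : ℕ} {c : ℕ → ι → ℝ} [Module ℝ E]

theorem row_sp {l : ι → E} (hl : Sp T sw l) (t0 : ι) :
    ∀ t ∈ T, ∀ t' ∈ T, t ≠ t' → row sw ε A t0 t • l t = 0 ∨ row sw ε A t0 t' • l t' = 0 := by
  intro t mt t' mt' hne
  by_cases h1 : sw t = sw t0
  · by_cases h2 : sw t' = sw t0
    · exact (hl t mt t' mt' (h1.trans h2.symm) hne).imp (fun h => by rw [h, smul_zero])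
        fun h => by rw [h, smul_zero]
    · exact Or.inr (by rw [row, if_neg h2, zero_smul])
  · exact Or.inl (by rw [row, if_neg h1, zero_smul])

theorem Co.abs_le (h : Co T sw ε A n c) (m : ℕ) {t : ι} (mt : t ∈ T) : |c m t| ≤ ε := by
  rcases h.alt m with e | ⟨t', mt', e⟩
  · simpa [e] using h.pos
  · rw [e, row]
    split_ifs with hs
    · have h1 : A (sw t) t t' ^ 2 ≤ 1 := (h.one t mt) ▸ Finset.single_le_sum
        (f := fun t' => A (sw t) t t' ^ 2) (fun _ _ => sq_nonneg _)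
        (Finset.mem_filter.2 ⟨mt', hs.symm⟩)
      rw [abs_mul, abs_of_nonneg h.pos, ← hs]
      exact mul_le_of_le_one_right h.pos ((sq_le_one_iff_abs_le_one _).1 h1)
    · simpa using h.pos

theorem Co.bound (h : Co T sw ε A n c) {l : ι → ℝ} (hl : Sp T sw l) {a B : ℝ} (ha : 0 ≤ a)
    (hB : 0 ≤ B) (hb : ∀ t ∈ T, a * |l t| ≤ B) (m : ℕ) : a * |∑ t ∈ T, c m t * l t| ≤ ε * B := by
  have h0 : 0 ≤ ε * B := mul_nonneg h.pos hB
  refine sum_prop (l := fun t => c m t * l t) ?_ (fun e => a * |e| ≤ ε * B) (by simpa using h0)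
    fun t mt => ?_
  · rcases h.alt m with e | ⟨t', -, e⟩
    · intro t _ _ _ _
      exact Or.inl (by simp [e])
    · rw [e]
      exact row_sp hl t'
  · calc a * |c m t * l t| = |c m t| * (a * |l t|) := by rw [abs_mul]; ring
      _ ≤ ε * B := mul_le_mul (h.abs_le m mt) (hb t mt) (by positivity) h.pos

theorem Co.quad (h : Co T sw ε A n c) {l : ι → E} (hl : Sp T sw l) (F : E → ℝ)
    (hF : ∀ (a : ℝ) e, F (a • e) = a ^ 2 * F e) :
    ∑ m ∈ Finset.range n, F (∑ t ∈ T, c m t • l t) = ε ^ 2 * ∑ t ∈ T, F (l t) := by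
  have F0 : F 0 = 0 := by simpa using hF 0 0
  rw [h.sum (fun a => F (∑ t ∈ T, a t • l t)) (by simpa using F0)]
  simp only [sum_map (row_sp hl _) F F0, hF]
  rw [Finset.sum_comm, Finset.mul_sum]
  refine Finset.sum_congr rfl fun t mt => ?_
  rw [← Finset.sum_mul, ← mul_one (ε ^ 2), ← h.one t mt, Finset.mul_sum, Finset.sum_filter]
  congr 1
  refine Finset.sum_congr rfl fun t' _ => ?_
  by_cases hs : sw t = sw t'
  · rw [row, if_pos hs, if_pos hs.symm, mul_pow, hs]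
  · rw [row, if_neg hs, if_neg (Ne.symm hs)]
    simp

theorem Co.ker (h : Co T sw ε A n c) (l : ι → ℝ) :
    ∑ m ∈ Finset.range n, (∑ t ∈ T, c m t * l t) ^ 2 = ε ^ 2 * ∑ k ∈ T.image sw,
      ∑ t' ∈ T with sw t' = k, (∑ t ∈ T with sw t = k, A k t t' * l t) ^ 2 := by
  rw [h.sum (fun a => (∑ t ∈ T, a t * l t) ^ 2) (by simp),
    ← Finset.sum_fiberwise_of_maps_to (g := sw) fun t ht => Finset.mem_image_of_mem sw ht,
    Finset.mul_sum]
  refine Finset.sum_congr rfl fun k _ => ?_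
  rw [Finset.mul_sum]
  refine Finset.sum_congr rfl fun t' ht' => ?_
  rw [← (Finset.mem_filter.1 ht').2, ← mul_pow, Finset.mul_sum, Finset.sum_filter]
  congr 1
  refine Finset.sum_congr rfl fun t _ => ?_
  rw [row]
  split_ifs
  · ring
  · exact zero_mul _

end

theorem point_fn (d : MD) {Λ : Fn} (h : Λ ∈ d.FamP ∪ d.FamV) : ∃ x : V, ∀ s v ω,
    (∀ᶠ y in 𝓝 x, v y = 0 ∧ ω y = 0) → Λ s v ω = 0 := by
  have hj : ∀ (x : V) (v : V → V) (ω : V → ℝ), (∀ᶠ y in 𝓝 x, v y = 0 ∧ ω y = 0) →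
      jm v x = 0 := fun x v ω h =>
    (jm_congr (Z' := fun _ => 0) (h.mono fun _ hy => hy.1)).trans (jm_const 0 x)
  have hA : ∀ (x : V) s (v : V → V) (ω : V → ℝ), (∀ᶠ y in 𝓝 x, v y = 0 ∧ ω y = 0) →
      d.Am s v ω x = 0 := fun x s v ω h => by
    simp [MD.Am, hj x v ω h, h.self_of_nhds.2]
  rcases h with ⟨x, -, ⟨j, rfl⟩ | ⟨a, b, -, rfl⟩ | ⟨l, i, -, rfl⟩ | ⟨l, -, rfl⟩⟩ | ⟨x, -, rfl⟩ <;>
    refine ⟨x, fun s v ω h => ?_⟩
  · simp [MD.pU, h.self_of_nhds.1]
  · simp [MD.pE, hA x s v ω h]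
  · have := pds_zero_of_eventually (g := fun w => v w i) (x := x)
      (h.mono fun y hy => by simp [hy.1]) l
    simp [MD.pD, this]
  · have := pds_zero_of_eventually (g := ω) (x := x) (h.mono fun y hy => hy.2) l
    simp [MD.pT, this]
  · simp only [MD.pV, hA x s v ω h, hj x v ω h]
    simp [ipm]

theorem ev_num : ∀ᶠ N : ℕ in atTop, 1 ≤ N ∧ np N (9 / 100) * np N (-1 / 10) ≤ 3 / 20 := by
  have h := (tendsto_rpow_neg_atTop (y := 1 / 100) (by norm_num)).comp
    tendsto_natCast_atTop_atTop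
  filter_upwards [eventually_ge_atTop 1,
    h.eventually (ge_mem_nhds (show (0 : ℝ) < 3 / 20 by norm_num))] with N h1 h2
  refine ⟨h1, le_of_eq_of_le ?_ h2⟩
  unfold np
  rw [← Real.rpow_add (by exact_mod_cast h1)]
  norm_num

theorem ep_sq {N : ℕ} (hN : 1 ≤ N) : np N (-700) ^ 2 * nsg N = 1 / nrep N := by
  have h0 : (0 : ℝ) < N := by exact_mod_cast hN
  have e : np N (-700) = ((N : ℝ) ^ 700)⁻¹ := by
    unfold np
    rw [Real.rpow_neg h0.le]
    norm_cast
  rw [e, nsg, nrep]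
  push_cast
  field_simp

theorem card_le {ι κ : Type} (T : Finset ι) (sw : ι → κ) {N : ℕ} (hN : 1 ≤ N)
    (h1 : ∀ k, ((T.filter fun t => sw t = k).card : ℝ) ≤ (N : ℝ) ^ 303)
    (h2 : ((T.image sw).card : ℝ) ≤ np N (9 / 100) * nsg N) : T.card ≤ nr N := by
  have h0 : (1 : ℝ) ≤ N := by exact_mod_cast hN
  have h3 : np N (9 / 100) ≤ (N : ℝ) ^ 7 := by
    unfold np
    rw [← Real.rpow_natCast]
    exact Real.rpow_le_rpow_of_exponent_le h0 (by norm_num)
  have h4 : T.card ≤ N ^ 303 * (T.image sw).card :=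
    Finset.card_le_mul_card_image T _ fun k _ => by exact_mod_cast h1 k
  have h5 : (T.card : ℝ) ≤ (N : ℝ) ^ 400 :=
    calc (T.card : ℝ) ≤ (N : ℝ) ^ 303 * (T.image sw).card := by exact_mod_cast h4
      _ ≤ (N : ℝ) ^ 303 * ((N : ℝ) ^ 7 * (N : ℝ) ^ 90) := by
        refine mul_le_mul_of_nonneg_left (h2.trans ?_) (by positivity)
        exact mul_le_mul_of_nonneg_right h3 (by unfold nsg; positivity)
      _ = (N : ℝ) ^ 400 := by ring
  unfold nr
  exact_mod_cast h5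

end Mix

open Mix in
theorem mix (hK : KvarStmt) (hL : LinStmt) : MixStmt := by
  filter_upwards [hK, hL, ev_num] with N hK hL hN d hd hk hI s hs ι κ T sw Ψ Ψm om ce W hW
  subst hd
  obtain ⟨hN1, hN2⟩ := hN
  choose A hA1 hA2 using fun k => hK d rfl hk hI s hs ι _ Ψ Ψm om ce W (hW.swp k)
  have hnp : ∀ a, 0 ≤ np d.c.N a := fun a => Real.rpow_nonneg (Nat.cast_nonneg _) a
  obtain ⟨c, hc1, hc2⟩ := exists_coef T (row sw d.ep A)
    (card_le T sw hN1 (fun k => (hW.swp k).card) hW.ns)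
  have co : Co T sw d.ep A (nr d.c.N) c :=
    ⟨hnp _, fun t mt => hA1 (sw t) t (Finset.mem_filter.2 ⟨mt, rfl⟩), hc1, hc2⟩
  have cr : ∀ t ∈ T, d.Cr 1 (Ψ t) (om t) := fun t mt =>
    (hW.swp (sw t)).cr t (Finset.mem_filter.2 ⟨mt, rfl⟩)
  have sp : ∀ {E : Type} [AddCommGroup E] (x : V) (l : ι → E),
      (∀ t, (∀ᶠ y in 𝓝 x, Ψ t y = 0 ∧ om t y = 0) → l t = 0) → Sp T sw l := by
    intro E _ x l hl t mt t' mt' e hne
    obtain ⟨Bx, h1, h2⟩ := (hW.swp (sw t')).dis
    have m1 : t ∈ T.filter fun t => sw t = sw t' := Finset.mem_filter.2 ⟨mt, e⟩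
    have m2 : t' ∈ T.filter fun t => sw t = sw t' := Finset.mem_filter.2 ⟨mt', rfl⟩
    have key : ∀ a ∈ T.filter fun t => sw t = sw t', x ∉ Bx a → l a = 0 := fun a ma hx =>
      hl a (Filter.eventually_of_mem ((h1 a ma).1.isOpen_compl.mem_nhds hx) fun y hy =>
        ⟨((h1 a ma).2 y hy).1, ((h1 a ma).2 y hy).2.2⟩)
    by_cases hx : x ∈ Bx t
    · exact Or.inr (key t' m2 (Set.disjoint_left.1 (h2 t m1 t' m2 hne) hx))
    · exact Or.inl (key t m1 hx)
  have hlam : 0 ≤ d.c.lam := (div_pos hI.ok.2.2.2.2.2.1 (by positivity)).le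
  have hq : 0 ≤ d.c.q := Real.rpow_nonneg (Real.log_natCast_nonneg _) _
  have hhs : ∀ i, 0 ≤ d.c.hs i := by
    intro i
    fin_cases i
    · exact mul_nonneg (div_nonneg (Real.rpow_nonneg (le_max_of_le_left zero_le_one) _)
        (Real.sqrt_nonneg _)) hlam
    · exact hlam
    · exact mul_nonneg (hnp _) hlam
  have e2 : d.ep ^ 2 * nsg d.c.N = 1 / nrep d.c.N := ep_sq hN1
  have e0 : 0 ≤ d.ep ^ 2 := sq_nonneg _
  have smv : ∀ m, Sm fun x => ∑ t ∈ T, c m t • Ψ t x := fun m =>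
    ContDiff.sum fun t mt => ContDiff.const_smul _ (cr t mt).sm.1
  have smo : ∀ m, Sm fun x => ∑ t ∈ T, c m t * om t x := fun m =>
    ContDiff.sum fun t mt => (cr t mt).sm.2.cmul _
  have hj : ∀ m x, jm (fun x => ∑ t ∈ T, c m t • Ψ t x) x = ∑ t ∈ T, c m t • jm (Ψ t) x := by
    intro m x
    rw [jm_sum T (Z := fun t x => c m t • Ψ t x) fun t mt => ContDiff.const_smul _ (cr t mt).sm.1]
    exact Finset.sum_congr rfl fun t _ => jm_const_smul _ _ _
  have spj : ∀ x, Sp T sw fun t => jm (Ψ t) x := fun x => sp x _ fun t h =>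
    (jm_congr (Z' := fun _ => 0) (h.mono fun _ hy => hy.1)).trans (jm_const 0 x)
  have qj : ∀ (x : V) (F : Mx → ℝ), (∀ (a : ℝ) e, F (a • e) = a ^ 2 * F e) →
      ∑ m ∈ Finset.range (nr d.c.N), F (jm (fun x => ∑ t ∈ T, c m t • Ψ t x) x) =
        d.ep ^ 2 * ∑ t ∈ T, F (jm (Ψ t) x) := fun x F hF => by
    simp only [hj]
    exact co.quad (spj x) F hF
  have qo : ∀ x, ∑ m ∈ Finset.range (nr d.c.N), (∑ t ∈ T, c m t * om t x) ^ 2 =
      d.ep ^ 2 * ∑ t ∈ T, om t x ^ 2 := fun x =>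
    co.quad (l := fun t => om t x) (sp x _ fun t h => h.self_of_nhds.2) (fun e => e ^ 2)
      fun a e => mul_pow a e 2
  have hQ : ∀ (a : ℝ) (e : Mx), d.c.Qlo (a • e) = a ^ 2 * d.c.Qlo e := fun a e => by
    have : |a * e 0 1 * (a * e 1 0)| = a ^ 2 * |e 0 1 * e 1 0| := by
      rw [← abs_of_nonneg (sq_nonneg a), ← abs_mul]
      congr 1
      ring
    simp only [Pm.Qlo, Matrix.smul_apply, smul_eq_mul, this]
    ring
  have hw : d.Gw s := ⟨s, hs, hs.sm, fun x => ⟨(hs.sup x).1, (hs.sup x).2.2.1⟩, fun x => by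
    simp only [sub_self, norm_zero, abs_zero, EB, cm, Matrix.zero_apply, Matrix.of_apply]
    exact ⟨mul_nonneg (hnp _) hlam, fun _ _ => hnp _,
      fun _ _ => mul_nonneg (hnp _) (sq_nonneg _), hnp _⟩⟩
  refine ⟨fun m x => ∑ t ∈ T, c m t • Ψ t x, fun m x => ∑ t ∈ T, c m t * om t x, fun m => ?_, ?_,
    fun Λ hΛ => ?_⟩
  · refine ⟨⟨smv m, smo m⟩, fun x => ⟨fun hx => ⟨?_, ?_⟩, ?_⟩, fun hn => ?_, fun x i => ?_,
      fun i l hl x _ => ?_, fun l hl x _ => ?_⟩
    · exact Finset.sum_eq_zero fun t mt => by rw [(((cr t mt).sup x).1 hx).1, smul_zero]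
    · exact Finset.sum_eq_zero fun t mt => by rw [(((cr t mt).sup x).1 hx).2, mul_zero]
    · rw [Finset.sum_apply]
      exact Finset.sum_eq_zero fun t mt => by rw [Pi.smul_apply, ((cr t mt).sup x).2, smul_zero]
    · funext x
      exact Finset.sum_eq_zero fun t mt => by rw [(cr t mt).nn hn, Pi.zero_apply, mul_zero]
    · have := co.bound (l := fun t => Ψ t x i) (sp x _ fun t h => by simp [h.self_of_nhds.1])
        zero_le_one (mul_nonneg hq (hhs i)) (fun t mt => by simpa using (cr t mt).sz x i) m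
      simpa [Finset.sum_apply, mul_assoc] using this
    · have := co.bound (l := fun t => pds l (fun x => Ψ t x i) x)
        (sp x _ fun t h => pds_zero_of_eventually (h.mono fun y hy => by simp [hy.1]) l)
        (hp_nonneg (h := cv d.c.lam) (fun _ => hlam) l) (mul_nonneg (hnp 15) hlam)
        (fun t mt => by simpa using (cr t mt).cb.1 i l hl x trivial) m
      simp only [Finset.sum_apply, Pi.smul_apply, smul_eq_mul]
      rw [pds_sum T (f := fun t x => c m t * Ψ t x i) fun t mt => ((cr t mt).sm.1.coord i).cmul _]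
      simpa only [pds_const_mul, mul_assoc] using this
    · have := co.bound (l := fun t => pds l (om t) x)
        (sp x _ fun t h => pds_zero_of_eventually (h.mono fun y hy => hy.2) l)
        (hp_nonneg (h := cv d.c.lam) (fun _ => hlam) l) (hnp 15)
        (fun t mt => by simpa using (cr t mt).cb.2 l hl x trivial) m
      rw [pds_sum T (f := fun t x => c m t * om t x) fun t mt => (cr t mt).sm.2.cmul _]
      simpa only [pds_const_mul] using this
  · rw [← e2]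
    refine ⟨fun i j => ?_, fun hn => ⟨fun x => ?_, ?_⟩, fun hc x hx => ?_⟩
    · rw [mul_assoc]
      refine CBl.congr_fun (CBl.smul_nonneg (hW.su.cov i j) e0) fun x => ?_
      have := co.quad (l := fun t => Ψ t x) (sp x _ fun t h => h.self_of_nhds.1)
        (fun e => e i * e j) fun a e => by simp only [Pi.smul_apply, smul_eq_mul]; ring
      simp only [nrm, Matrix.of_apply, Matrix.sub_apply, Matrix.sum_apply, vecMulVec_apply,
        Matrix.smul_apply, smul_eq_mul, this]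
      ring
    · rw [qo, mul_assoc, mul_assoc]
      exact ⟨mul_le_mul_of_nonneg_left ((hW.su.yy hn).1 x).1 e0,
        mul_le_mul_of_nonneg_left ((hW.su.yy hn).1 x).2 e0⟩
    · rw [mul_assoc]
      exact CBl.congr_fun (CBl.smul_nonneg (hW.su.yy hn).2 e0) qo
    · obtain ⟨h1, h2, h3, h4⟩ := hW.su.q2 hc x hx
      rw [qj x d.c.Qup fun a e => by
          simp only [Pm.Qup, hQ, Matrix.smul_apply, smul_eq_mul]
          ring,
        qj x d.c.Qlo hQ, qj x (fun e => e 1 2 ^ 2) fun a e => mul_pow a _ 2,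
        qj x (fun e => ∑ i, ∑ j, e i j ^ 2) fun a e => by
          simp only [Matrix.smul_apply, smul_eq_mul, mul_pow, Finset.mul_sum],
        mul_left_comm, mul_left_comm (qp _ _)]
      simp only [mul_assoc (d.ep ^ 2)]
      exact ⟨mul_le_mul_of_nonneg_left h1 e0, mul_le_mul_of_nonneg_left h2 e0,
        mul_le_mul_of_nonneg_left h3 e0, mul_le_mul_of_nonneg_left h4 e0⟩
  · have lin : ∀ m, Λ s (fun x => ∑ t ∈ T, c m t • Ψ t x) (fun x => ∑ t ∈ T, c m t * om t x) =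
        ∑ t ∈ T, c m t * Λ s (Ψ t) (om t) := fun m =>
      hL d rfl hk hI s hw Λ hΛ ι T (c m) Ψ om fun t mt => ⟨1, cr t mt⟩
    simp only [lin]
    have e4 : (1 : ℝ) / (4 * nrep d.c.N) = d.ep ^ 2 * (nsg d.c.N / 4) := by
      rw [← mul_div_assoc, e2, div_div, mul_comm]
    rw [e4]
    by_cases hP : Λ ∈ d.FamP ∪ d.FamV
    · obtain ⟨x, hx⟩ := point_fn d hP
      exact (co.quad (l := fun t => Λ s (Ψ t) (om t)) (sp x _ fun t h => hx _ _ _ h)
        (fun e => e ^ 2) fun a e => mul_pow a e 2).trans_le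
        (mul_le_mul_of_nonneg_left (hW.var Λ hP) e0)
    · obtain ⟨a, ha⟩ : Λ ∈ d.FamK := by
        rcases hΛ with (h | h) | h
        · exact absurd (Or.inl h) hP
        · exact h
        · exact absurd (Or.inr h) hP
      rw [co.ker]
      refine mul_le_mul_of_nonneg_left ((Finset.sum_le_sum fun k _ => hA2 k a Λ ha).trans ?_) e0
      rw [Finset.sum_ite, Finset.sum_const, Finset.sum_const, nsmul_eq_mul, nsmul_eq_mul]
      have h1 := hW.nn a
      have h2 : (((T.image sw).filter fun k =>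
          ¬ d.nearS (T.filter fun t => sw t = k) Ψm a).card : ℝ) ≤ np d.c.N (9 / 100) * nsg d.c.N :=
        le_trans (by exact_mod_cast Finset.card_filter_le _ _) hW.ns
      have h3 := mul_le_mul_of_nonneg_right h2 (hnp (-1 / 10))
      have h4 : 0 ≤ nsg d.c.N := by unfold nsg; positivity
      have h5 := mul_le_mul_of_nonneg_left hN2 h4
      nlinarith

end
end Pool.Agent.MP_20bec2_an.T3

end MrgPart1

-- ======== part 2: formerly Pool.Agent.MP_20bec2_an.T3.MrA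
section MrgPart2

/-! Row MR, part 1: calculus along segments and the change between two frames. -/

set_option autoImplicit false
open MeasureTheory Set Filter Matrix Topology

namespace Pool.Agent.MP_20bec2_an.T3
noncomputable section
open Classical
namespace Mr
open Prof Ftr

/-- one column of a nearly block diagonal matrix -/
lemma colb {u v x : V} {A : Mx} {κ e W W2 : ℝ} (hu : ∀ i, 0 < u i) (hv : ∀ i, 0 < v i)
    (h : Blk κ e (sc u v A)) {i : Fin 3} (hi : i ≠ 2) (hx : ∀ l, l ≠ 2 → u l * |x l| ≤ W)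
    (h2 : u 2 * |x 2| ≤ W2) : v i * |∑ l, x l * A l i| ≤ κ * W + e * W2 := by
  have a : ∀ l, |u l * x l| = u l * |x l| := fun l => by rw [abs_mul, abs_of_pos (hu l)]
  have e1 : v i * ∑ l, x l * A l i = (sc u v A 0 i * (u 0 * x 0) + sc u v A 1 i * (u 1 * x 1)) +
      sc u v A 2 i * (u 2 * x 2) := by
    have := hu 0; have := hu 1; have := hu 2
    simp only [sc, of_apply, Fin.sum_univ_three]
    field_simp
  rw [← abs_of_pos (hv i), ← abs_mul, e1]
  refine (abs_add_le _ _).trans (add_le_add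
    (two ((a 0).trans_le (hx 0 (by decide))) ((a 1).trans_le (hx 1 (by decide))) (h.col i hi))
    (abs_mul_le (h.off i hi).2 ((a 2).trans_le h2)))

lemma int_le {f : ℝ → ℝ} {τ C : ℝ} (h : ∀ t, |t| ≤ |τ| → t ∈ uIcc 0 τ → |f t| ≤ C) :
    |∫ t in (0 : ℝ)..τ, f t| ≤ C * |τ| := by
  have := intervalIntegral.norm_integral_le_of_norm_le_const (a := 0) (b := τ) (f := f) (C := C)
    fun t ht => h t (by simpa using abs_sub_left_of_mem_uIcc (uIoc_subset_uIcc ht))
      (uIoc_subset_uIcc ht)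
  simpa using this

lemma cont_line {G : V → ℝ} (hG : Sm G) (p w : V) : Continuous fun t : ℝ => G (p + t • w) :=
  hG.continuous.comp (by fun_prop)

lemma ii {G : V → ℝ} (hG : Sm G) (p w : V) (τ : ℝ) :
    IntervalIntegrable (fun t : ℝ => G (p + t • w)) volume 0 τ :=
  (cont_line hG p w).intervalIntegrable _ _

/-- a slightly tilted segment against the vertical one -/
lemma tilt {Φ : V → ℝ} (hΦ : Sm Φ) {h w : V} (p : V) {q a : ℝ} (τ : ℝ) (hh : ∀ i, 0 < h i)
    (H : CB 2 h univ Φ q) (hw : 1 / 2 ≤ |w 2|) (ha : 0 ≤ a) (hm : ∀ i, i ≠ 2 → |w i| ≤ a * h i)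
    (l : Fin 3) : h l * |∫ t in (0 : ℝ)..τ, pd l Φ (p + t • w)| ≤
      2 * (h l * |∫ r in (0 : ℝ)..τ * w 2, pd l Φ (p + r • e3)|) + 3 * (|τ| * a) * q * |τ| := by
  have w0 : w 2 ≠ 0 := fun e => by rw [e, abs_zero] at hw; linarith
  have s := hΦ.pd l
  have e1 : ∫ t in (0 : ℝ)..τ, pd l Φ (p + t • (w 2 • e3)) =
      (w 2)⁻¹ * ∫ r in (0 : ℝ)..τ * w 2, pd l Φ (p + r • e3) := by
    have := intervalIntegral.integral_comp_mul_right (a := 0) (b := τ)
      (fun r => pd l Φ (p + r • e3)) w0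
    simpa only [zero_mul, smul_eq_mul, mul_smul] using this
  have e2 : h l * ∫ t in (0 : ℝ)..τ, pd l Φ (p + t • w) =
      (w 2)⁻¹ * (h l * ∫ r in (0 : ℝ)..τ * w 2, pd l Φ (p + r • e3)) + ∫ t in (0 : ℝ)..τ,
        (h l * pd l Φ (p + t • w) - h l * pd l Φ (p + t • (w 2 • e3))) := by
    rw [intervalIntegral.integral_sub ((ii s p w τ).const_mul _) ((ii s p _ τ).const_mul _),
      intervalIntegral.integral_const_mul, intervalIntegral.integral_const_mul, e1]
    ring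
  have b2 : |∫ t in (0 : ℝ)..τ, (h l * pd l Φ (p + t • w) - h l * pd l Φ (p + t • (w 2 • e3)))| ≤
      3 * (|τ| * a) * q * |τ| := int_le fun t ht _ => by
    refine CV.mvt_box hh convex_univ (s.cmul (h l)) (CB.pd (fun i => (hh i).le) H l).toCV le_rfl
      (mem_univ _) (mem_univ _) fun i => ?_
    by_cases hi : i = 2
    · subst hi
      have := hh 2
      simp only [e3, Pi.add_apply, Pi.smul_apply, smul_eq_mul, Pi.single_eq_same, mul_one, sub_self,
        abs_zero]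
      positivity
    · simp only [e3, Pi.add_apply, Pi.smul_apply, smul_eq_mul, Pi.single_eq_of_ne hi, mul_zero,
        add_zero, add_sub_cancel_left, abs_mul, mul_assoc]
      exact mul_le_mul ht (hm i hi) (abs_nonneg _) (abs_nonneg _)
  have b1 : |(w 2)⁻¹| ≤ 2 := by
    rw [abs_inv]
    exact inv_le_of_inv_le₀ (by norm_num) (by norm_num; linarith)
  have a : ∀ x, h l * |x| = |h l * x| := fun x => by rw [abs_mul, abs_of_pos (hh l)]
  rw [a, a, e2]
  exact (abs_add_le _ _).trans (add_le_add (abs_mul_le b1 le_rfl) b2)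

/-! ## two frames -/

def Tm (B : Bk) (g g' : Cu) : Mx := (B.fr g').Q⁻¹ * (B.fr g).Q
def tr (B : Bk) (g g' : Cu) (z : V) : V := (B.fr g').zc ((B.fr g).zp z)
def dr (B : Bk) (g g' : Cu) : ℝ := (B.fr g).Q.det / (B.fr g').Q.det

lemma tr_eq (B : Bk) (g g' : Cu) (z : V) :
    tr B g g' z = (B.fr g').zc (B.fr g).z0 + Tm B g g' *ᵥ z := by
  rw [tr, Tm, ← mulVec_mulVec, Fr.zc, Fr.zc, ← mulVec_add, Fr.zp, add_sub_right_comm]

lemma tr_line (B : Bk) (g g' : Cu) (z : V) (t : ℝ) :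
    tr B g g' (z + t • e3) = tr B g g' z + t • fun i => Tm B g g' i 2 := by
  rw [tr_eq, tr_eq, mulVec_add, mulVec_smul, add_assoc]
  congr 3
  ext i
  simp [e3, mulVec_single]

lemma tr_sm (B : Bk) (g g' : Cu) : Sm (tr B g g') := (zc_sm _).comp (zp_sm _)

lemma pd_tr (B : Bk) (g g' : Cu) {Φ : V → ℝ} (hΦ : Sm Φ) (i : Fin 3) (z : V) :
    pd i (fun z => dr B g g' * Φ (tr B g g' z)) z =
      dr B g g' * ∑ l, pd l Φ (tr B g g' z) * Tm B g g' l i := by
  rw [pd_const_mul]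
  simp only [tr_eq]
  rw [pd_comp_affine _ _ (hΦ.dif _)]

lemma dv_tr {B : Bk} {g g' : Cu} (hQ : 0 < (B.fr g).Q.det) (hQ' : 0 < (B.fr g').Q.det) {R : V → V}
    (hR : Sm R) (z : V) :
    dv ((B.fr g).vd ((B.fr g').unvd R)) z = dr B g g' * dv R (tr B g g' z) := by
  have s := (unvd_sm (B.fr g') hR).dif
  have e := congrFun (K3.p3 (B.fr g') hQ' s) (tr B g g' z)
  rw [vd_unvd hQ'.ne', Fr.den, tr, zp_zc hQ'.ne'] at e
  rw [K3.p3 _ hQ s, Fr.den, dr, tr, e]
  field_simp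

structure FF (B : Bk) (k : ℕ) (g g' : Cu) : Prop where
  d : |dr B g g'| ≤ 2
  hs : Blk (5 / 2) (np B.N (-20)) (sc (B.c g' k).hs (B.c g k).hs (Tm B g g'))
  cd : Blk 6 (np B.N (-20)) (sc (cd (B.c g' k) 1) (cd (B.c g k) 1) (Tm B g g'))
  eb : ∀ i j, |Tm B g g' i j| ≤ 2
  e3 : ∀ i, i ≠ 2 → |Tm B g g' i 2| ≤ 2 * dc B.N
  t22 : 1 / 2 ≤ |Tm B g g' 2 2|
  n : (B.c g' k).n12 ≤ 2 * (B.c g k).n12

lemma ff {B : Bk} (big : Big B.N) (h : FrOk B.N B.lb B.fr) {k : ℕ} (hk : k ≤ nb B.N) {g g' : Cu}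
    (hn : Nbr 3 g g') : FF B k g g' := by
  have G := Bk.gd h big g hk
  have G' := Bk.gd h big g' hk
  have cp := h.cp g' g hn.symm
  have C := Bk.cpk h big hn hk hk
  have hO := GeoP.orth h g
  have hO' := GeoP.orth h g'
  obtain ⟨n1, n2, -⟩ := num big
  have d0 := big.dc_pos
  have N1 : (1 : ℝ) ≤ B.N := by linarith [big.N_ge, big.J_ge, big.L_ge]
  have n15 : np B.N (-15) ≤ 1 := (big.np_le (by norm_num)).trans_eq (np_zero _)
  have n4 : 1 ≤ np B.N 4 := (np_zero _).symm.trans_le (big.np_le (by norm_num))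
  have e1 : np B.N (-20) ≤ 1 / 10000 := by nlinarith [big.np_pos (-20)]
  have e2 : 13 * dc B.N ≤ np B.N (-20) := by nlinarith
  have nT := nr_of (orth_mul (orth_t hO') hO) (A := Tm B g g') (y := dc B.N) cp.tq cp.o3 cp.al
  have r : ∀ X ∈ [Pm.ro, Pm.c1, Pm.c2, Pm.n12], 0 < X (B.c g' k) →
      X (B.c g k) ≤ 11 / 10 * X (B.c g' k) := fun X hX h' => by
    obtain ⟨-, -, h2, -⟩ := C.ratios X (by
      simp only [List.mem_cons, List.not_mem_nil, or_false] at hX ⊢; tauto)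
    nlinarith [C.q_inv.2]
  have x1 : dc B.N + dc B.N ≤ 1 / 100 := by linarith
  have x2 : (dc B.N + dc B.N) * np B.N 4 ≤ np B.N (-20) := by nlinarith
  have x3 : np B.N (-20) ≤ 1 / 20 := by linarith
  have t := (GeoP.T22 hO' hO cp).1
  have dd := abs_le.1 (GeoP.det_ratio hO' hO cp (by linarith))
  refine ⟨abs_le.2 ⟨?_, ?_⟩, blk_hs G G' nT rfl rfl (r _ (by simp) G'.ro_pos) x1 x2 x3 And.right,
    blk_cd G G' nT rfl (r _ (by simp) G'.c1_pos) (r _ (by simp) G'.c2_pos) (r _ (by simp) G'.n12_pos)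
      (by norm_num) (by norm_num) (by norm_num) (by norm_num) x1 x2 x3 And.left,
    fun i j => (nT.all i j).trans (by linarith), fun i hi => (GeoP.T_e3 cp hi).1, ?_,
    (C.ratios Pm.n12 (by simp)).2.2.2.1⟩
  · unfold dr; linarith [dd.1]
  · unfold dr; linarith [dd.2]
  · refine le_trans ?_ t
    nlinarith

end Mr
end
end Pool.Agent.MP_20bec2_an.T3

end MrgPart2

-- ======== part 3: formerly Pool.Agent.MP_20bec2_an.T3.Pks
section MrgPart3

/-! Row PKS: the kernel conditions along the path of stages. -/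

set_option autoImplicit false
open MeasureTheory Set Filter Matrix Topology

namespace Pool.Agent.MP_20bec2_an.T3
noncomputable section
open Classical

namespace Pks
open Prof

/-! ## matrices -/

lemma dot_vmv (u p : V) : p ⬝ᵥ (vecMulVec u u *ᵥ p) = (u ⬝ᵥ p) ^ 2 := by
  rw [vecMulVec_mulVec, op_smul_eq_smul, dotProduct_smul, smul_eq_mul, dotProduct_comm p, sq]

lemma dot_Cv (u : ℕ → V → V) (m : ℕ) (x p : V) :
    p ⬝ᵥ (Cv u m x *ᵥ p) = ∑ i ∈ Finset.range m, (u i x ⬝ᵥ p) ^ 2 := by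
  rw [Cv, sum_mulVec, dotProduct_sum]
  exact Finset.sum_congr rfl fun i _ => dot_vmv _ _

lemma pd_path (F : Fr) {h : V} {S : Mx} {u : ℕ → V → V} {T m : ℕ} (hm : m < T) {t : ℝ}
    (ht : t ∈ Icc (0 : ℝ) 1) (x : V) (h0 : PD h (F.cv1 S)) (h1 : PD h (F.cv1 (S - Cv u T x))) :
    PD h (F.cv1 (S - Cv u m x - t • vecMulVec (u m x) (u m x))) := by
  refine ⟨?_, fun v => ?_⟩
  · have e : (Cv u m x + t • vecMulVec (u m x) (u m x))ᵀ =
        Cv u m x + t • vecMulVec (u m x) (u m x) := by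
      simp only [Cv, transpose_add, transpose_sum, transpose_smul, transpose_vecMulVec]
    rw [sub_sub, cv1_sub, transpose_sub, h0.1, Fr.cv1, Fr.cv1, transpose_mul, transpose_mul,
      transpose_transpose, e, ← Matrix.mul_assoc]
  · have a0 := (h0.2 v).2
    have a1 := (h1.2 v).1
    rw [Fr.cv1, K3.dot_conj] at a0 a1 ⊢
    set p := F.Q⁻¹ᵀ *ᵥ v
    rw [sub_mulVec, dotProduct_sub, dot_Cv] at a1
    rw [sub_mulVec, sub_mulVec, dotProduct_sub, dotProduct_sub, dot_Cv, smul_mulVec,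
      dotProduct_smul, dot_vmv, smul_eq_mul]
    have b1 : ∑ i ∈ Finset.range (m + 1), (u i x ⬝ᵥ p) ^ 2 ≤
        ∑ i ∈ Finset.range T, (u i x ⬝ᵥ p) ^ 2 :=
      Finset.sum_le_sum_of_subset_of_nonneg (Finset.range_mono hm) fun _ _ _ => sq_nonneg _
    rw [Finset.sum_range_succ] at b1
    have b2 : 0 ≤ ∑ i ∈ Finset.range m, (u i x ⬝ᵥ p) ^ 2 :=
      Finset.sum_nonneg fun _ _ => sq_nonneg _
    have b3 := mul_le_mul_of_nonneg_right ht.2 (sq_nonneg (u m x ⬝ᵥ p))
    have b4 := mul_nonneg ht.1 (sq_nonneg (u m x ⬝ᵥ p))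
    constructor <;> linarith

lemma row_le {P : Mx} {δ a : ℝ} (hP : Orth P) (o3 : ∀ i, i ≠ 2 → |P i 2| ≤ δ ∧ |P 2 i| ≤ δ)
    (ha : 283 / 200 ≤ a ∨ (1 ≤ a ∧ |P 0 1| ≤ δ ∧ |P 1 0| ≤ δ)) (i : Fin 3) :
    ∑ l, |P i l| ≤ a + 2 * δ := by
  have b := orth_abs_le hP
  have c0 := o3 0 (by decide)
  have c1 := o3 1 (by decide)
  have d0 : 0 ≤ δ := (abs_nonneg _).trans c0.1
  have k : ∀ i, |P i 0| + |P i 1| ≤ 283 / 200 := fun i => by
    have h1 := orth_row hP i
    rw [Fin.sum_univ_three, ← sq_abs (P i 0), ← sq_abs (P i 1)] at h1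
    nlinarith [sq_nonneg (P i 2), sq_nonneg (|P i 0| - |P i 1|), abs_nonneg (P i 0),
      abs_nonneg (P i 1)]
  rw [Fin.sum_univ_three]
  fin_cases i
  · rcases ha with h | h
    · exact (add_le_add (k 0) c0.1).trans (by linarith)
    · exact (add_le_add (add_le_add (b 0 0) h.2.1) c0.1).trans (by linarith)
  · rcases ha with h | h
    · exact (add_le_add (k 1) c1.1).trans (by linarith)
    · exact (add_le_add (add_le_add h.2.2 (b 1 1)) c1.1).trans (by linarith)
  · refine (add_le_add (add_le_add c0.2 c1.2) (b 2 2)).trans ?_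
    rcases ha with h | h <;> linarith

/-- a differential seen from a neighbouring frame -/
lemma eb_chg {F F' : Fr} {δ a e : ℝ} (h : Orth F.O) (h' : Orth F'.O) (c : Cpt δ F F')
    (ha : 283 / 200 ≤ a ∨ (1 ≤ a ∧ |(F.Oᵀ * F'.O) 0 1| ≤ δ ∧ |(F.Oᵀ * F'.O) 1 0| ≤ δ)) {A : Mx}
    (hA : EB A (cm e)) :
    EB (F.Q⁻¹ * F'.Q * A * (F.Oᵀ * F'.O)ᵀ) (cm ((a + 2 * δ) * ((a + 5 * δ) * e))) := by
  have r := row_le (GeoP.P_orth h h') c.o3 ha
  refine GeoP.eb_mul_col (GeoP.eb_mul_row (fun i => ?_) hA) r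
  have r2 := GeoP.row_of_eb c.tq i
  rw [GeoP.T_split]
  refine (Finset.sum_le_sum fun l _ => abs_add_le _ _).trans ?_
  rw [Finset.sum_add_distrib]
  linarith [r i]

lemma hm_jm_unv (F F' : Fr) {γ : V → V} (h : Sm γ) (x : V) :
    F.hm (jm (F'.unv γ) x) = F.Q⁻¹ * F'.Q * jm γ (F'.xc x) * (F.Oᵀ * F'.O)ᵀ := by
  have e0 : F'.unv γ = fun y => 0 + F'.Q *ᵥ γ (-(F'.Oᵀ *ᵥ F'.x0) + F'.Oᵀ *ᵥ y) := by
    funext y
    rw [zero_add, neg_add_eq_sub, ← mulVec_sub]
    rfl
  rw [e0, K3.jm_aff (h.differentiable Inv.top_ne), neg_add_eq_sub, ← mulVec_sub, Fr.hm,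
    transpose_mul, transpose_transpose]
  simp only [Matrix.mul_assoc]
  rfl

/-! ## the path -/

/-- the displacement along the path -/
def Wp (u : ℕ → V → V) (m : ℕ) (t : ℝ) (x : V) : V := Up u m x + t • u m x

lemma Wp_sm {u : ℕ → V → V} (h : ∀ i, Sm (u i)) (m : ℕ) (t : ℝ) : Sm (Wp u m t) :=
  (ContDiff.sum fun i _ => h i).add ((h m).const_smul t)

lemma Wp_eq (u : ℕ → V → V) (m : ℕ) (t : ℝ) :
    Wp u m t = fun x => (1 - t) • Up u m x + t • Up u (m + 1) x := by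
  funext x
  simp only [Wp, Up, Finset.sum_range_succ, smul_add, sub_smul, one_smul]
  abel

lemma cvx {a b e t : ℝ} (ht : t ∈ Icc (0 : ℝ) 1) (ha : |a| ≤ e) (hb : |b| ≤ e) :
    |(1 - t) * a + t * b| ≤ e := by
  refine (abs_add_le _ _).trans ?_
  rw [abs_mul, abs_mul, abs_of_nonneg ht.1, abs_of_nonneg (sub_nonneg.2 ht.2)]
  nlinarith [ht.1, ht.2]

lemma Wp_bd {u : ℕ → V → V} (h : ∀ i, Sm (u i)) {T m : ℕ} (hm : m < T) {t : ℝ}
    (ht : t ∈ Icc (0 : ℝ) 1) {a e : ℝ}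
    (hb : ∀ i ≤ T, ∀ x, (∀ l, |Up u i x l| ≤ a) ∧ EB (jm (Up u i) x) (cm e)) (x : V) :
    ‖Wp u m t x‖ ≤ a ∧ EB (jm (Wp u m t) x) (cm e) := by
  have s : ∀ i, Sm (Up u i) := fun i => ContDiff.sum fun i _ => h i
  rw [Wp_eq]
  refine ⟨norm_le_of fun l => cvx ht ((hb m hm.le x).1 l) ((hb _ hm x).1 l), fun a b => ?_⟩
  rw [jm_add ((s m).const_smul _) ((s _).const_smul _), jm_const_smul, jm_const_smul]
  exact cvx ht ((hb m hm.le x).2 a b) ((hb _ hm x).2 a b)

section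
variable {B : Bk} {k j : ℕ} {u : Cu → ℕ → V → V} (G : FrOk B.N B.lb B.fr) (hD : 0 < B.D)
  (U : B.UH k j u)
include G hD U

lemma sup (m : ℕ) : Glue.Sup (cv B.D) (93 / 100)
    fun g x => if col g = j then (B.fr g).unv (u g m) x else 0 :=
  Glue.sup_box hD fun g x hx => by
    split_ifs with hg
    · rw [Fr.unv, ((U g hg m).2 _).1 fun hc => hx ((GeoP.xc_mem G).1 hc), mulVec_zero]
    · rfl

lemma ug_sm (m : ℕ) : Sm (B.ug j u m) := (sup G hD U m).sm (by norm_num) fun g => by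
  by_cases hg : col g = j
  · simpa only [if_pos hg] using unv_sm _ (U g hg m).1
  · simpa only [if_neg hg] using contDiff_const

lemma W_zero (m : ℕ) (t : ℝ) {x : V} (hx : ∀ g, col g = j → x ∉ box B.D g (93 / 100)) :
    Wp (B.ug j u) m t x = 0 := by
  have e : ∀ i, B.ug j u i x = 0 := fun i =>
    (sup G hD U i).one_zero (Glue.col_ite j fun g => (B.fr g).unv (u g i))
      fun g hg => by rw [Glue.cell_cv hD]; exact hx g hg
  simp only [Wp, Up, e, Finset.sum_const_zero, smul_zero, add_zero]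

lemma W_cases (m : ℕ) (t : ℝ) (x : V) : (∃ g, col g = j ∧ x ∈ box B.D g (93 / 100) ∧
      Wp (B.ug j u) m t =ᶠ[𝓝 x] (B.fr g).unv (Wp (u g) m t)) ∨
    Wp (B.ug j u) m t =ᶠ[𝓝 x] fun _ => 0 := by
  by_cases hx : ∃ g, col g = j ∧ x ∈ box B.D g (93 / 100)
  · obtain ⟨g, hg, hx⟩ := hx
    refine .inl ⟨g, hg, hx, mem_of_superset (box_nhds hD (r' := 1) (by norm_num) hx) fun y hy => ?_⟩
    have e : ∀ i, B.ug j u i y = (B.fr g).unv (u g i) y := fun i =>
      ((sup G hD U i).one_eq (Glue.col_ite j fun g => (B.fr g).unv (u g i)) hg (r' := 1)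
        (by norm_num) (by rwa [Glue.cell_cv hD])).trans (if_pos hg)
    simp only [mem_ofPred_eq, Wp, Up, e, Fr.unv, mulVec_add, mulVec_sum, mulVec_smul]
  · push Not at hx
    refine .inr ((Glue.ev_out (cv B.D) (r := 93 / 100) (by norm_num) (fun g => col g = j)
      fun g hg => by rw [Glue.cell_cv hD]; exact hx g hg).mono fun y hy => ?_)
    exact W_zero G hD U m t fun g hg => by rw [← Glue.cell_cv hD]; exact hy g hg

end

lemma zT_le {c : Pm} (h : Gd c) : c.zT ≤ 1 / √(pJ c.N) ∧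
    (c.s2 ≤ 4 * c.s1 → c.zT ≤ 1 / 2 * (1 / √(pJ c.N))) := by
  have b := h.big
  have p := b.sqrtJ_pos
  have a : 2 * nu c.N ≤ 1 / 2 * (1 / √(pJ c.N)) := by
    have : nu c.N ≤ 1 / (4 * √(pJ c.N)) := by
      refine le_of_log b.nu_pos (by positivity) ?_
      rw [b.log_nu, Real.log_div (by norm_num) (by positivity), Real.log_one,
        Real.log_mul four_ne_zero p.ne', log4_eq, b.log_sqrtJ]
      linarith [b.J_ge, b.L_ge, log2_bd.2]
    calc 2 * nu c.N ≤ 2 * (1 / (4 * √(pJ c.N))) := by linarith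
      _ = _ := by field_simp; norm_num
  have p' : 0 < 1 / √(pJ c.N) := by positivity
  constructor
  · unfold Pm.zT
    split_ifs
    exacts [by linarith, le_rfl]
  · intro e
    have e1 : c.η = 1 := by
      by_contra e'
      have h1 := h.K_ge (lt_of_le_of_ne h.η_le_one e')
      have h2 : c.K ≤ 4 := (div_le_iff₀ h.s1_pos).2 e
      have h3 := Real.log_le_log (b.Jp_pos _) (h1.trans h2)
      rw [b.log_Jp, log4_eq] at h3
      linarith [b.L_ge, log2_bd.2]
    have e2 : etaS c.N ≤ 1 := le_of_log b.etaS_pos one_pos (by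
      rw [b.log_etaS, Real.log_one]
      linarith [b.L_ge, (logc_bd (C := 100) (by norm_num)).1])
    rw [Pm.zT, if_pos (by linarith)]
    exact a

/-- the general statement -/
lemma pk {B : Bk} (hN : Big B.N) (G : FrOk B.N B.lb B.fr) {k j : ℕ} (hk : k ≤ nb B.N)
    {u : Cu → ℕ → V → V} (U : B.UH k j u)
    (hp : ∀ g, col g = j → ∀ i ≤ nT B.N, ∀ x, (∀ l, |Up (u g) i x l| ≤ B.D / 10 ^ 9) ∧
      EB (jm (Up (u g) i) x) (cm (1 / √(pJ B.N)))) {Z Z1 : V → V}
    (hz : ∀ g, ∀ x ∈ B.bx g 1, EB ((B.fr g).hm (jm Z x) - 1) (cm (B.c g k).zT) ∧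
      ‖(B.fr g).O *ᵥ ((B.fr g).zc (Z x) - (B.fr g).xc x)‖ ≤ B.D / 1000)
    {S : V → Mx} {hv : ℝ} (K0 : B.KS k Z S hv)
    (K1 : B.KS k Z1 (fun x => S x - Cv (B.ug j u) (nT B.N) x) hv) : B.PK k j Z S u hv := by
  intro m hm t ht
  have gd := Kg.gd hN G hk
  have hD : 0 < B.D := (gd 0).D_pos
  have n2 : 2 ≤ B.N := by
    have : (2 : ℝ) ≤ B.N := by linarith [hN.N_ge, hN.J_ge, hN.L_ge]
    exact_mod_cast this
  have us := ug_sm G hD U
  have ws := Wp_sm us m t
  have eZ : (fun x => Z x + Up (B.ug j u) m x + t • B.ug j u m x) =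
      fun x => Z x + Wp (B.ug j u) m t x := funext fun x => add_assoc _ _ _
  rw [eZ]
  have zs : Sm fun x => Z x + Wp (B.ug j u) m t x := K0.sm.add ws
  have j1 : 3 / √(pJ B.N) ≤ 1 / 100 := by
    have h1 : 300 ≤ √(pJ B.N) := Real.le_sqrt_of_sq_le (by linarith [hN.J_ge, hN.L_ge])
    rw [div_le_iff₀ (by linarith)]
    linarith
  have key : ∀ g, ∀ x ∈ B.R g (99 / 100),
      EB (jm ((B.fr g).hat fun x => Z x + Wp (B.ug j u) m t x) x - 1) (cm (3 / √(pJ B.N))) ∧
      ‖(B.fr g).O *ᵥ (((B.fr g).hat fun x => Z x + Wp (B.ug j u) m t x) x - x)‖ ≤ B.D / 900 := by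
    intro g x hx
    have hX := (GeoP.xp_mem G).2 hx
    obtain ⟨z1, z2⟩ := hz g _ (box_mono hD.le (by norm_num) g hX)
    rw [xc_xp (GeoP.orth G g)] at z2
    obtain ⟨t1, t2⟩ := zT_le (gd g)
    have p : 0 < 1 / √(pJ B.N) := one_div_pos.2 hN.sqrtJ_pos
    have e3 : 3 / √(pJ B.N) = 3 * (1 / √(pJ B.N)) := by ring
    have e1 : jm ((B.fr g).hat fun x => Z x + Wp (B.ug j u) m t x) x - 1 =
        ((B.fr g).hm (jm Z ((B.fr g).xp x)) - 1) +
          (B.fr g).hm (jm (Wp (B.ug j u) m t) ((B.fr g).xp x)) := by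
      rw [(K3.p5 _ (zs.differentiable Inv.top_ne) x).1, jm_add K0.sm ws, Fr.hm, Fr.hm, Fr.hm,
        Matrix.mul_add, Matrix.add_mul]
      abel
    have e2 : (B.fr g).O *ᵥ (((B.fr g).hat fun x => Z x + Wp (B.ug j u) m t x) x - x) =
        (B.fr g).O *ᵥ ((B.fr g).zc (Z ((B.fr g).xp x)) - x) +
          (B.fr g).O *ᵥ ((B.fr g).Q⁻¹ *ᵥ Wp (B.ug j u) m t ((B.fr g).xp x)) := by
      rw [hat_add, ← mulVec_add, add_sub_right_comm]
      rfl
    rw [e1, e2, e3]
    rcases W_cases G hD U m t ((B.fr g).xp x) with ⟨g', hg', hX', ev⟩ | ev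
    · have c := GeoP.cpt_of_box G (by omega) (by norm_num) hX hX'
      have d0 := hN.dc_pos
      have d1 := GeoP.dc_le n2
      have su := fun i => (U g' hg' i).1
      obtain ⟨w1, w2⟩ := Wp_bd su hm ht (hp g' hg') ((B.fr g').xc ((B.fr g).xp x))
      constructor
      · rw [jm_congr ev, hm_jm_unv _ _ (Wp_sm su m t)]
        rcases c.al with a | a
        · refine GeoP.eb_mono (GeoP.eb_add z1 (eb_chg (a := 1) (GeoP.orth G g) (GeoP.orth G g') c
            (.inr ⟨le_rfl, a⟩) w2)) ?_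
          have : (1 + 2 * dc B.N) * (1 + 5 * dc B.N) ≤ 2 := by nlinarith
          have := mul_le_mul_of_nonneg_right this p.le
          change (B.c g k).zT ≤ 1 / √(pJ B.N) at t1
          linarith
        · refine GeoP.eb_mono (GeoP.eb_add z1 (eb_chg (a := 283 / 200) (GeoP.orth G g)
            (GeoP.orth G g') c (.inl le_rfl) w2)) ?_
          have : (283 / 200 + 2 * dc B.N) * (283 / 200 + 5 * dc B.N) ≤ 5 / 2 := by nlinarith
          have := mul_le_mul_of_nonneg_right this p.le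
          have t3 : (B.c g k).zT ≤ 1 / 2 * (1 / √(pJ B.N)) := t2 a.1
          linarith
      · rw [ev.eq_of_nhds, Fr.unv, mulVec_mulVec _ (B.fr g).Q⁻¹]
        have a1 := GeoP.T_norm (GeoP.orth G g) (GeoP.orth G g') c (by linarith)
          (Wp (u g') m t ((B.fr g').xc ((B.fr g).xp x)))
        refine (norm_add_le _ _).trans ((add_le_add z2 (orth_norm_le_two (GeoP.orth G g) _)).trans ?_)
        linarith
    · rw [jm_congr ev, jm_const, ev.eq_of_nhds, Fr.hm, Fr.hm, Matrix.mul_zero, Matrix.zero_mul,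
        add_zero, mulVec_zero, mulVec_zero, add_zero]
      change (B.c g k).zT ≤ 1 / √(pJ B.N) at t1
      exact ⟨GeoP.eb_mono z1 (by linarith), by linarith⟩
  have c1 : ∀ {f : V → V}, Sm f → ContDiff ℝ 1 f := fun h => h.of_le (by exact_mod_cast le_top)
  refine ⟨zs, bij.1 B.D j B.fr Z _ hD
    (fun g => ⟨GeoP.x0_eq G g, GeoP.orth G g, GeoP.det_pos G g⟩) K0.bij (c1 K0.sm) (c1 zs)
    (fun g _ x hx => ?_) fun x hx => ?_, fun a b => ?_, K0.hvb,
    fun g x hx => ⟨(key g x hx).1, (key g x hx).2,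
      pd_path _ hm ht _ (K0.bd g x hx).2.2 (K1.bd g x hx).2.2⟩⟩
  · have hx' := RX_mono _ hD.le (show (98 / 100 : ℝ) ≤ 99 / 100 by norm_num) hx
    exact ⟨GeoP.eb_mono (K0.bd g x hx').1 j1, GeoP.eb_mono (key g x hx').1 j1⟩
  · rw [W_zero G hD U m t fun g hg hc => hx g hg (box_mono hD.le (by norm_num) g hc), add_zero]
  · have cu : ∀ i l, Continuous fun x => B.ug j u i x l := fun i l =>
      (continuous_apply l).comp (us i).continuous
    simp only [Cv, Matrix.sub_apply, Matrix.sum_apply, Matrix.smul_apply, vecMulVec_apply,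
      smul_eq_mul]
    exact ((K0.cS a b).sub (continuous_finsetSum _ fun i _ => (cu i a).mul (cu i b))).sub
      (continuous_const.mul ((cu m a).mul (cu m b)))

end Pks

open Pks in
theorem pks (hl : MlStmt) (hz : MzStmt) (hp : MpStmt) (hs : MsStmt) (hK : KsdStmt)
    (hZ : ZderStmt) : PksStmt := by
  filter_upwards [hl, hz, hp, hs, hK, hZ, ev_big] with N hl hz hp hs hK hZ hN
  rintro B rfl ρ k r s ch o M
  have G := M.ok.geo.toFrOk
  have I := M.inv
  have r0 : r ≠ 0 := by have := M.hr.1; omega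
  have K0 := hK B rfl ρ k r s M.ok.toOk0 M.hk (by have := M.hr.2; omega)
    ⟨I.il, I.iz, I.ip, I.is, I.iq⟩
  have K1 := hK B rfl ρ k (r + 1) (B.stp ρ k r s ch o s.f) M.ok.toOk0 M.hk
    (by have := M.hr.2; omega) ⟨hl B rfl ρ k r s ch o _ M, hz B rfl ρ k r s ch o _ M,
      hp B rfl ρ k r s ch o _ M, hs B rfl ρ k r s ch o _ M, fun ha =>
        let p := I.iq (ha.imp id fun h => ⟨h.1, M.hr.1⟩)
        ⟨p.fo, p.cred, p.zn, p.fq, p.zb⟩⟩
  have Z0 := (hZ B rfl ρ k r s M.ok.toOk0 M.hk (by have := M.hr.2; omega) I.il I.iz I.ip I.iq).2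
  have U : B.UH k (r - 1) o.u := fun g hg m =>
    let h := M.mo g hg
    ⟨h.sm m, fun x => ⟨h.supp m x, h.lat m x, h.sz m x⟩⟩
  have P : ∀ g, col g = r - 1 → ∀ i ≤ nT B.N, ∀ x, (∀ l, |Up (o.u g) i x l| ≤ B.D / 10 ^ 9) ∧
      EB (jm (Up (o.u g) i) x) (cm (1 / √(pJ B.N))) := fun g hg i hi x => by
    obtain ⟨a, b⟩ := (M.mo g hg).path i hi x
    refine ⟨fun l => (a l).trans ?_, b⟩
    have H := Kg.se hN G M.hk.le K0.1
    have n : (10 : ℝ) ^ 9 ≤ B.N := by linarith [hN.N_ge, hN.J_ge, hN.L_ge]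
    have y0 := H.hi0
    have a1 : √(pq B.N * pJ B.N) ≤ B.N := Real.sqrt_le_iff.2 ⟨by linarith, by
      rw [sq]
      exact mul_le_mul (by linarith [hN.q_le_J, hN.N_ge, hN.J_pos])
        (by linarith [hN.N_ge, hN.J_pos]) hN.J_pos.le (by linarith)⟩
    have a2 : (B.N : ℝ) ^ 2 * B.yk k ≤ B.D := by
      have h5 := (Kg.yk_le hN G M.hk.le).2
      have D0 : 0 < B.D := (Kg.gd hN G M.hk.le 0).D_pos
      refine le_of_sq_le_sq (le_trans ?_ h5) D0.le
      have : (B.N : ℝ) ^ 4 ≤ B.N ^ 5 := pow_le_pow_right₀ (by linarith) (by norm_num)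
      nlinarith [mul_le_mul_of_nonneg_right this (sq_nonneg (B.yk k))]
    refine (mul_le_mul a1 (H.hb g l).2 (H.hh g l).le (by linarith)).trans ?_
    rw [le_div_iff₀ (by norm_num)]
    nlinarith [mul_pos hN.N_pos y0]
  have Q := fun (S : V → Mx) (hv : ℝ) => pk (Z1 := B.Z (B.stp ρ k r s ch o s.f)) (S := S) (hv := hv)
    hN G M.hk.le U P fun g x hx => ⟨(Z0 g x hx).2.2.2.1, (Z0 g x hx).2.2.2.2.2⟩
  refine ⟨U, Q _ _ K0.1 K1.1, fun y' hy => Q _ _ (K0.2.2.1 y' hy) ?_,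
    fun h1 h2 => Q _ _ (K0.2.2.2 h1 h2) ?_⟩
  · have e : (fun x => B.SR k r s.Sg y' x - Cv (B.ug (r - 1) o.u) (nT B.N) x) =
        B.SR k (r + 1) (B.stp ρ k r s ch o s.f).Sg y' := funext fun x => by
      simp only [Bk.SR, Bk.stp, if_neg r0, if_neg (Nat.succ_ne_zero r)]
      abel
    rw [e]
    exact K1.2.2.1 y' hy
  · have e : (fun x => B.SL k r s.Sg x - Cv (B.ug (r - 1) o.u) (nT B.N) x) =
        B.SL k (r + 1) (B.stp ρ k r s ch o s.f).Sg := funext fun x => by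
      simp only [Bk.SL, Bk.stp, if_neg r0, if_neg (Nat.succ_ne_zero r)]
      abel
    rw [e]
    exact K1.2.2.2 h1 h2

end
end Pool.Agent.MP_20bec2_an.T3

end MrgPart3

-- ======== part 4: formerly Pool.Agent.MP_20bec2_an.T3.Ptl
section MrgPart4

/-! Row PTL: the mollified gradient of the potential. -/

set_option autoImplicit false
open MeasureTheory Set Filter Matrix Topology

namespace Pool.Agent.MP_20bec2_an.T3
noncomputable section
open Classical

namespace Ptl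
open Prof

/-- mollification of a function that is Lipschitz on a compact set -/
theorem molK (n : ℕ) : ∃ C : ℝ, 1 ≤ C ∧ ∀ (g : V → ℝ) (K U : Set V) (a L : ℝ), 0 < a → 0 ≤ L →
    IsCompact K → Mol.Thk (cv a) U K → (∀ x ∈ K, ∀ y ∈ K, |g x - g y| ≤ L * ‖x - y‖) →
    Sm (mol (cv a) (indicator K g)) ∧
    (∀ x ∈ U, (∀ b ε, (∀ y ∈ K, |b - g y| ≤ ε) → |b - mol (cv a) (indicator K g) x| ≤ ε) ∧
      |g x - mol (cv a) (indicator K g) x| ≤ L * a) ∧
    CV n (cv a) U (mol (cv a) (indicator K g)) (C * (L * a)) := by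
  obtain ⟨C, hC, H⟩ := Mol.mol_gain n
  refine ⟨C, hC, fun g K U a L ha hL hK hU hg => ?_⟩
  have hh : ∀ i, 0 < cv a i := fun _ => ha
  have c : ContinuousOn g K :=
    (LipschitzOnWith.of_dist_le_mul (K := ⟨L, hL⟩) fun x hx y hy => hg x hx y hy).continuousOn
  have li : Mol.LI (indicator K g) :=
    ((c.integrableOn_compact hK).integrable_indicator hK.measurableSet).locallyIntegrable
  have o : ∀ x ∈ U, ∀ y ∈ Mol.bx (cv a) x, |g x - indicator K g y| ≤ L * a := fun x hx y hy => by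
    rw [indicator_of_mem (hU x hx hy)]
    refine (hg x (hU x hx (Mol.bx_self hh x)) y (hU x hx hy)).trans
      (mul_le_mul_of_nonneg_left ?_ hL)
    rw [norm_sub_rev]
    exact norm_le_of hy
  refine ⟨Mol.mol_sm hh li, fun x hx => ⟨fun b ε hb => Mol.abs_sub_mol hh li fun y hy => ?_,
    Mol.abs_sub_mol hh li (o x hx)⟩, fun l hl x hx => ?_⟩
  · rw [indicator_of_mem (hU x hx hy)]
    exact hb y (hU x hx hy)
  · have lc : Mol.LI fun _ : V => g x := Mol.li_cont continuous_const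
    have := (H (cv a) (fun y => indicator K g y - g x) _ hh).1 (li.sub lc) l hl.2 x fun y hy => by
      rw [abs_sub_comm]
      exact o x hx y hy
    rwa [show mol (cv a) (fun y => indicator K g y - g x) =
      fun y => mol (cv a) (indicator K g) y + -g x from funext fun y => by
        rw [Mol.mol_sub hh li lc, Mol.mol_const hh, sub_eq_add_neg],
      pds_add_const (Mol.mol_sm hh li) _ (List.ne_nil_of_length_pos hl.1)] at this

end Ptl

open Ptl Prof in
theorem ptl : PtlStmt := by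
  obtain ⟨C, hC, H⟩ := molK 5
  obtain ⟨_, -, h⟩ := va psi
  filter_upwards [h, ev_big, ev_CqJ_np (2 * C) 0 3 (c := 3 / 1000) (by norm_num),
    ev_CqJ_np 300 0 8 (c := 1 / 100) (by norm_num)] with N h hN n1 n2
  rintro d rfl - I s hs
  by_cases hc : d.c.comp
  swap
  · exact ⟨0, fun e => absurd e hc⟩
  have G : Gd d.c := ⟨hN, I.ok⟩
  have S0 := hN.etaS_pos
  have hη : etaS d.c.N ≤ d.c.η := le_trans (by unfold Pm.thr; split_ifs <;> linarith) hc
  have hη' : etaS d.c.N / 2 ≤ d.c.η := by linarith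
  obtain ⟨lip, p0, -⟩ := h d.c rfl I.ok hη'
  rw [qp_zero, mul_one, show (3 : ℝ) = (3 : ℕ) by norm_num, Jp_nat] at n1
  rw [qp_zero, mul_one, show (8 : ℝ) = (8 : ℕ) by norm_num, Jp_nat] at n2
  have l0 := G.lam_pos
  have J0 : 0 < d.c.J := hN.J_pos
  have nu0 := hN.nu_pos
  have b0 : ∀ x ∈ d.R (99 / 100), EB2 (d.E x + jm s.U x) (cm (2 * nu d.c.N)) := fun x hx i j hi => by
    have h1 := (I.eb x hx i j hi).trans ((le_abs_self _).trans (G.eT_le_nu hη' i j))
    have h2 := (hs.ub x).2.2 hc i j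
    simp only [cm, of_apply, Matrix.add_apply] at h1 h2 ⊢
    linarith [abs_add_le (d.E x i j) (jm s.U x i j)]
  have b1 : ∀ x ∈ d.R (99 / 100), EB2 (d.E x + jm s.U x) (cm (4 * nu d.c.N)) := fun x hx i j hi =>
    (b0 x hx i j hi).trans (by simp only [cm, of_apply]; linarith)
  have b2 : 3 * (d.c.d2u / d.c.q) ≤ np d.c.N (-97 / 100) / d.c.lam := by
    have q1 : 1 ≤ d.c.q := le_trans (by norm_num) hN.q_ge
    have e : np d.c.N (-97 / 100) = np d.c.N (-98 / 100) * np d.c.N (1 / 100) := by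
      rw [← hN.np_add]; norm_num
    have p := hN.np_pos (-98 / 100)
    refine (mul_le_mul_of_nonneg_left (div_le_self G.d2u_pos.le q1) (by norm_num)).trans ?_
    calc 3 * d.c.d2u ≤ 3 * (np d.c.N (-98 / 100) / (etaS d.c.N * d.c.lam)) := by
          unfold Pm.d2u; gcongr
      _ = np d.c.N (-98 / 100) * (300 * pJ d.c.N ^ 8) / d.c.lam := by
          unfold etaS etaA; have := hN.J_pos; field_simp; ring
      _ ≤ _ := by rw [e]; gcongr
  have b3 : ∀ i j, ∀ x ∈ d.R (99 / 100), ∀ y ∈ d.R (99 / 100),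
      |d.c.PV (d.E x + jm s.U x) i j - d.c.PV (d.E y + jm s.U y) i j| ≤
        d.c.J ^ 3 * (2 * np d.c.N (-97 / 100) / d.c.lam) * ‖x - y‖ := fun i j x hx y hy => by
    rw [mul_assoc]
    refine lip _ _ _ (b1 x hx) (b1 y hy) (fun a b ha => ?_) i j
    have h1 := I.el hc x hx y hy a b ha
    have h2 := mvt_pd convex_univ (g := pd b fun w => s.U w a)
      (fun w _ => ((hs.sm.1.coord a).pd b).dif w) (b := fun _ => d.c.d2u / d.c.q)
      (fun k w _ => by simpa [hp, cv, pds] using hs.d2 a [k, b] rfl w (mem_univ _))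
      (mem_univ x) (mem_univ y)
    have h3 : ∑ k, d.c.d2u / d.c.q * |x k - y k| ≤ ∑ _k : Fin 3, d.c.d2u / d.c.q * ‖x - y‖ :=
      Finset.sum_le_sum fun k _ => mul_le_mul_of_nonneg_left (abs_le_norm (x - y) k)
        (div_pos G.d2u_pos hN.q_pos).le
    have h4 := mul_le_mul_of_nonneg_right b2 (norm_nonneg (x - y))
    simp only [Finset.sum_const, Finset.card_univ, Fintype.card_fin, nsmul_eq_mul] at h3
    simp only [cm, of_apply, Matrix.add_apply, Matrix.sub_apply, jm] at h1 ⊢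
    rw [add_sub_add_comm]
    refine (abs_add_le _ _).trans ?_
    push_cast at h3
    have e : 2 * np d.c.N (-97 / 100) / d.c.lam * ‖x - y‖ =
      np d.c.N (-97 / 100) * ‖x - y‖ / d.c.lam + np d.c.N (-97 / 100) / d.c.lam * ‖x - y‖ := by ring
    linarith
  have th : Mol.Thk (cv d.c.hE) (d.R (95 / 100)) (d.R (99 / 100)) := fun x hx y hy => by
    have h1 : ‖y - x‖ ≤ d.c.hE := norm_le_of hy
    have h2 : d.c.hE ≤ d.c.N * d.c.lb := mul_le_mul
      ((hN.np_le (by norm_num)).trans_eq (np_one _)) G.lam_le_lb l0.le hN.N_pos.le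
    have n : (50 : ℝ) ≤ d.c.N := by linarith [hN.N_ge, hN.J_ge, hN.L_ge]
    have h3 : (50 : ℝ) ≤ (d.c.N : ℝ) ^ 3 := n.trans (le_self_pow₀ (by linarith) (by norm_num))
    have h4 := mul_le_mul_of_nonneg_right h3 (mul_pos hN.N_pos G.lb_pos).le
    have := RX_add I.ort (s := 4 / 100) hx (y := y) (by unfold Pm.D; linarith)
    norm_num at this ⊢
    exact this
  have p97 := hN.np_pos (-97 / 100)
  have M := fun i j => H (fun x => d.c.PV (d.E x + jm s.U x) i j) _ _ _ _ G.hE_pos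
    (by positivity) (RX_compact I.ort _ _) th (b3 i j)
  have e1 : C * (d.c.J ^ 3 * (2 * np d.c.N (-97 / 100) / d.c.lam) * d.c.hE) ≤
      np d.c.N (-507 / 1000) := by
    have e : np d.c.N (-507 / 1000) =
        np d.c.N (3 / 1000) * (np d.c.N (-97 / 100) * np d.c.N (46 / 100)) := by
      rw [← hN.np_add, ← hN.np_add]; norm_num
    have := hN.np_pos (46 / 100)
    rw [e]
    refine le_trans (le_of_eq ?_) (mul_le_mul_of_nonneg_right n1 (by positivity))
    unfold Pm.hE Pm.J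
    field_simp
  have e2 : d.c.J ^ 3 * (2 * nu d.c.N) ≤ np d.c.N (-485 / 1000) := by
    have e : np d.c.N (3 / 1000) * nu d.c.N ≤ np d.c.N (-485 / 1000) := by
      rw [nu, ← hN.np_add]; exact hN.np_le (by norm_num)
    have h1 := mul_le_mul_of_nonneg_right n1 nu0.le
    have h2 := mul_le_mul_of_nonneg_right hC (mul_pos (pow_pos J0 3) nu0).le
    unfold Pm.J at h2 ⊢
    linarith
  have hE := G.hE_pos
  refine ⟨fun x => Matrix.of fun i j => mol (cv d.c.hE) (indicator (d.R (99 / 100))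
    fun x => d.c.PV (d.E x + jm s.U x) i j) x, fun _ => ⟨fun i j => (M i j).1,
    fun x hx => ⟨fun i j _ => ?_, fun i j _ => (((M i j).2.1 x hx).2.trans
      (le_mul_of_one_le_left (by positivity) hC)).trans e1⟩,
    fun i j _ => (M i j).2.2.monoB (e1.trans (hN.np_le (by norm_num)))⟩⟩
  rw [Matrix.sub_apply, abs_sub_comm]
  refine ((M i j).2.1 x hx).1 _ _ fun y hy => le_trans ?_ e2
  have := lip _ 0 _ (b1 y hy) (fun a b _ => by simp only [cm, of_apply]; simp; linarith)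
    (by simpa only [sub_zero] using b0 y hy) i j
  rwa [p0, Matrix.sub_apply, abs_sub_comm] at this

end
end Pool.Agent.MP_20bec2_an.T3

end MrgPart4

-- marker of a merged file
example : 731051 + 897688 = 731051 + 897688 := rfl

end MrgPart1

-- marker of a merged file
example : 731051 + 897688 = 731051 + 897688 := rfl
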