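import Pool.Agent.MP_20bec2_an.T3.Zt
import Pool.Agent.MP_20bec2_an.T3.CrA
import Pool.Agent.MP_20bec2_an.T3.Par4
import Pool.Agent.MP_20bec2_an.T3.GoodA
import Pool.Agent.MP_20bec2_an.T3.Hn
import Pool.Agent.MP_20bec2_an.T3.Par3
import Pool.Agent.MP_20bec2_an.T3.Vtr
import Pool.Agent.MP_20bec2_an.T3.Final
import Pool.Agent.MP_20bec2_an.T3.Yq
import Pool.Agent.MP_20bec2_an.T3.Ptl
import Pool.Agent.MP_20bec2_an.T3.Left

-- ======== part 0: formerly Pool.Agent.MP_20bec2_an.T3.UgA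
section MrgPart0

/-! The increments of one colour step: at every point at most one cube acts. -/

set_option autoImplicit false
set_option linter.unusedSectionVars false
open MeasureTheory Set Filter Matrix Topology

namespace Pool.Agent.MP_20bec2_an.T3
noncomputable section
open Classical Prof Glue

namespace Ug

/-! ## sums over the cubes of one colour -/

/-- the terms of colour `j` vanish off the boxes of radius `0.93` -/
def Loc {E : Type*} [Zero E] (B : Bk) (j : ℕ) (φ : Cu → V → E) : Prop :=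
  ∀ g, col g = j → ∀ x, x ∉ B.bx g (93 / 100) → φ g x = 0
/-- no cube of colour `j` acts at `x` -/
def Ot (B : Bk) (j : ℕ) (x : V) : Prop := ∀ g, col g = j → x ∉ B.bx g (93 / 100)

theorem cases (B : Bk) (j : ℕ) (x : V) :
    (∃ g, col g = j ∧ x ∈ B.bx g (93 / 100)) ∨ Ot B j x := by
  by_cases h : ∃ g, col g = j ∧ x ∈ B.bx g (93 / 100)
  · exact Or.inl h
  · exact Or.inr fun g hg hx => h ⟨g, hg, hx⟩

section loc
variable {B : Bk} {j : ℕ} {g : Cu} {x : V}

theorem Ot.ev (hD : 0 < B.D) (h : Ot B j x) : ∀ᶠ y in 𝓝 x, Ot B j y := by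
  have := ev_out (cv B.D) (r := 93 / 100) (by norm_num) (fun g => col g = j)
    (x := x) fun g hg => by rw [cell_cv hD]; exact h g hg
  simp only [cell_cv hD] at this
  exact this

theorem ev_bx (hD : 0 < B.D) (hx : x ∈ B.bx g (105 / 100)) :
    ∀ᶠ y in 𝓝 x, y ∈ B.bx g (106 / 100) := box_nhds hD (by norm_num) hx

theorem bx_mono (hD : 0 < B.D) {r r' : ℝ} (h : r ≤ r') (hx : x ∈ B.bx g r) : x ∈ B.bx g r' :=
  box_mono hD.le h g hx

theorem Loc.sup {E : Type*} [Zero E] {φ : Cu → V → E} (hD : 0 < B.D) (H : Loc B j φ) :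
    Sup (cv B.D) (93 / 100) fun g x => if col g = j then φ g x else 0 :=
  sup_box hD fun g x hx => by
    split_ifs with hg
    exacts [H g hg x hx, rfl]

theorem Loc.eq_in {E : Type*} [AddCommMonoid E] {φ : Cu → V → E} (hD : 0 < B.D) (H : Loc B j φ)
    (hg : col g = j) (hx : x ∈ B.bx g (106 / 100)) :
    ∑ᶠ g', (if col g' = j then φ g' x else 0) = φ g x := by
  have := (H.sup hD).one_eq (col_ite j φ) hg (r' := 106 / 100) (by norm_num)
    (x := x) (by rw [cell_cv hD]; exact hx)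
  simpa only [if_pos hg] using this

theorem Loc.eq_out {E : Type*} [AddCommMonoid E] {φ : Cu → V → E} (H : Loc B j φ)
    (hx : Ot B j x) : ∑ᶠ g', (if col g' = j then φ g' x else 0) = 0 :=
  finsum_eq_zero_of_forall_eq_zero fun g => by
    split_ifs with hg
    exacts [H g hg x (hx g hg), rfl]

theorem Loc.sm {E : Type*} [NormedAddCommGroup E] [NormedSpace ℝ E] {φ : Cu → V → E}
    (hD : 0 < B.D) (H : Loc B j φ) (hs : ∀ g, col g = j → Sm (φ g)) :
    Sm fun x => ∑ᶠ g', if col g' = j then φ g' x else 0 :=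
  (H.sup hD).sm (by norm_num) fun g => by
    by_cases hg : col g = j
    · simpa only [if_pos hg] using hs g hg
    · simpa only [if_neg hg] using sm_const 0

theorem Loc.smM {φ : Cu → V → Mx} (hD : 0 < B.D) (H : Loc B j φ)
    (hs : ∀ g, col g = j → SmM (φ g)) :
    SmM fun x => ∑ᶠ g', if col g' = j then φ g' x else 0 :=
  (H.sup hD).smM (by norm_num) fun g => by
    by_cases hg : col g = j
    · simpa only [if_pos hg] using hs g hg
    · simpa only [if_neg hg] using smM_const 0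

theorem mem_sites (hs : 0 < B.hsp) {r : ℝ} {i : Cu} :
    i ∈ B.sites g r ↔ cen B.hsp i ∈ B.bx g r := by
  rw [Bk.sites, Fintype.mem_piFinset, Bk.bx, mem_box]
  refine forall_congr' fun a => ?_
  rw [Finset.mem_Icc, Int.ceil_le, Int.le_floor, div_le_iff₀ hs, le_div_iff₀ hs, abs_le]
  simp only [cen]
  constructor <;> rintro ⟨h1, h2⟩ <;> constructor <;> linarith
end loc

/-! ## frames -/

theorem unm_zero (F : Fr) : F.unm 0 = 0 := by simp [Fr.unm]
theorem unm_add (F : Fr) (A A' : Mx) : F.unm (A + A') = F.unm A + F.unm A' := by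
  simp only [Fr.unm, Matrix.mul_add, Matrix.add_mul]
theorem unm_sub (F : Fr) (A A' : Mx) : F.unm (A - A') = F.unm A - F.unm A' := by
  simp only [Fr.unm, Matrix.mul_sub, Matrix.sub_mul]
theorem hm_zero (F : Fr) : F.hm 0 = 0 := by simp [Fr.hm]
theorem hm_add (F : Fr) (A A' : Mx) : F.hm (A + A') = F.hm A + F.hm A' := by
  simp only [Fr.hm, Matrix.mul_add, Matrix.add_mul]
theorem hm_sub (F : Fr) (A A' : Mx) : F.hm (A - A') = F.hm A - F.hm A' := by
  simp only [Fr.hm, Matrix.mul_sub, Matrix.sub_mul]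
theorem smM_unm (F : Fr) {A : V → Mx} (h : SmM A) : SmM fun x => F.unm (A x) :=
  ((smM_const _).mul h).mul (smM_const _)
theorem smM_hm (F : Fr) {A : V → Mx} (h : SmM A) : SmM fun x => F.hm (A x) :=
  ((smM_const _).mul h).mul (smM_const _)
theorem jm_unv (F : Fr) {γ : V → V} (h : Sm γ) (x : V) :
    jm (F.unv γ) x = F.unm (jm γ (F.xc x)) := by
  have e1 := jm_mulVec_comp F.Q ((h.comp (xc_sm F)).differentiable (by simp) x)
  have e2 := jm_comp_affine (-(F.Oᵀ *ᵥ F.x0)) F.Oᵀ (x := x) (h.differentiable (by simp) _)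
  refine e1.trans ?_
  rw [Fr.unm, Matrix.mul_assoc, ZtA.xc_eq, ← e2]; rfl
theorem Up_sm {u : ℕ → V → V} (h : ∀ i, Sm (u i)) (m : ℕ) : Sm (Up u m) :=
  ContDiff.sum fun i _ => h i
theorem Cv_sm {u : ℕ → V → V} (h : ∀ i, Sm (u i)) (m : ℕ) : SmM (Cv u m) :=
  SmM.sum _ fun i _ => smM_vecMulVec (h i) (h i)
theorem Up_lat {u : ℕ → V → V} (h : ∀ i x, u i x 2 = 0) (m : ℕ) (x : V) : Up u m x 2 = 0 := by
  simp only [Up, Finset.sum_apply, h, Finset.sum_const_zero]
theorem dN_row (d : MD) (a b : V → ℝ) (x : V) {i : Fin 3} (hi : i ≠ 0) (j : Fin 3) :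
    d.dN a b x i j = 0 := by
  fin_cases i <;> fin_cases j <;> simp [MD.dN, E02, E00, dg3] at hi ⊢
theorem dN_zero (d : MD) (x : V) : d.dN 0 0 x = 0 := by simp [MD.dN]
theorem dN_at (d : MD) {a b : V → ℝ} {x : V} (ha : a x = 0) (hb : b x = 0) : d.dN a b x = 0 := by
  simp [MD.dN, ha, hb]
theorem dN_sm {d : MD} {a b : V → ℝ} (h1 : Sm d.th) (h2 : Sm d.Pq) (ha : Sm a) (hb : Sm b) :
    SmM (d.dN a b) :=
  (SmM.smul ha (smM_const _)).add (SmM.smul (((h2.pd 0).cmul _).mul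
    ((((h1.add ha).pow 2).sub (h1.pow 2)).sub hb)) (smM_const _))

/-! ## time -/

theorem tm_succ (k : ℕ) {r : ℕ} (hr : 1 ≤ r) : tm k (r + 1) = tm k r + 1 := by unfold tm; omega
theorem cnt_succ (k r : ℕ) : cnt k (r + 1) = cnt k r + 1 := rfl
theorem aft_succ {j k r : ℕ} (hr : 1 ≤ r) : aft j k (r + 1) ↔ aft j k r := by unfold aft; omega
theorem nzn_mid (N : ℕ) {r : ℕ} (hr : 1 ≤ r) : nzn N (mid N) (r + 1) = nzn N (mid N) r + 1 := by
  simp only [nzn, lt_irrefl, if_false, if_true]; omega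
theorem nzn_ne {N k : ℕ} (hk : k ≠ mid N) (r r' : ℕ) : nzn N k r = nzn N k r' := by
  simp only [nzn, if_neg hk]
theorem nzn_le (N k r : ℕ) : nzn N k r ≤ nzn N k (r + 1) := by
  unfold nzn; split_ifs <;> omega
theorem ph_succ (j k r : ℕ) : ph j k (r + 1) = ph j k r + 1 / 9 / 2 ^ (k - j) := by
  unfold ph; push_cast; ring

/-! ## the increments -/

/-- increment of `Zs` -/
def dZ (B : Bk) (r : ℕ) (o : Bk.MO) : V → V := Up (B.ug (r - 1) o.u) (nT B.N)
/-- increment of `Nth` -/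
def dTh (B : Bk) (r : ℕ) (o : Bk.MO) (x : V) : Mx :=
  ∑ᶠ g, if col g = r - 1 then (B.fr g).unm (o.dth g ((B.fr g).xc x) • E02) else 0
/-- the noise matrix of one cube, hat coordinates -/
def dN (B : Bk) (ρ : V → ℝ) (k r : ℕ) (s : St) (ch : Cu → Cu → ℝ → V) (o : Bk.MO) (g : Cu) :
    V → Mx := (B.md ρ k r s ch g).dN (o.dth g) (o.dY g)
/-- increment of `Neq` -/
def dEq (B : Bk) (ρ : V → ℝ) (k r : ℕ) (s : St) (ch : Cu → Cu → ℝ → V) (o : Bk.MO) (x : V) : Mx :=
  ∑ᶠ g, if col g = r - 1 then (B.fr g).unm (dN B ρ k r s ch o g ((B.fr g).xc x) -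
    o.dth g ((B.fr g).xc x) • E02) else 0
/-- increment of `Yv` -/
def dYv (B : Bk) (r : ℕ) (o : Bk.MO) (x : V) : ℝ :=
  ∑ᶠ g, if col g = r - 1 then o.dY g ((B.fr g).xc x) else 0
/-- increment of `E` in the frame of the acting cube, hat coordinates -/
def dA (B : Bk) (ρ : V → ℝ) (k r : ℕ) (s : St) (ch : Cu → Cu → ℝ → V) (o : Bk.MO) (g : Cu)
    (x : V) : Mx := jm (Up (o.u g) (nT B.N)) x - dN B ρ k r s ch o g x
/-- the new line of the ledger -/
def nx (B : Bk) (r : ℕ) (o : Bk.MO) (i : Cu) : ℝ :=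
  ∑ᶠ g, if col g = r - 1 ∧ i ∈ B.sites g (98 / 100) then o.xs g i else 0

section stp
variable (B : Bk) (ρ : V → ℝ) (k r : ℕ) (s : St) (ch : Cu → Cu → ℝ → V) (o : Bk.MO) (f' : V → V)

theorem stp_Zs : (B.stp ρ k r s ch o f').Zs = fun x => s.Zs x + dZ B r o x := rfl
theorem stp_Nth : (B.stp ρ k r s ch o f').Nth = fun x => s.Nth x + dTh B r o x := rfl
theorem stp_Neq : (B.stp ρ k r s ch o f').Neq = fun x => s.Neq x + dEq B ρ k r s ch o x := rfl
theorem stp_Yv : (B.stp ρ k r s ch o f').Yv = fun x => s.Yv x + dYv B r o x := rfl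
theorem stp_xs : (B.stp ρ k r s ch o f').xs = Function.update s.xs (tm k r) (nx B r o) := rfl
theorem stp_Z : B.Z (B.stp ρ k r s ch o f') = fun x => B.Z s x + dZ B r o x := by
  funext x
  show s.Zs x + dZ B r o x + B.Zt x + s.Zn x = s.Zs x + B.Zt x + s.Zn x + dZ B r o x
  abel
theorem xs_new : (B.stp ρ k r s ch o f').xs (tm k r) = nx B r o := Function.update_self ..
theorem xs_old {m : ℕ} (hm : m ≠ tm k r) : (B.stp ρ k r s ch o f').xs m = s.xs m :=
  Function.update_of_ne hm ..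
theorem La_succ (hr : 1 ≤ r) {a : ℕ} (ha : a ≤ tm k r) (i : Cu) :
    La (B.stp ρ k r s ch o f').xs a (tm k (r + 1)) i = La s.xs a (tm k r) i + (1 + nx B r o i) := by
  rw [tm_succ k hr, La, Finset.sum_Ico_succ_top ha, xs_new, La]
  congr 1
  exact Finset.sum_congr rfl fun m hm => by rw [xs_old _ _ _ _ _ _ _ _ (Finset.mem_Ico.1 hm).2.ne]
theorem md_R (g : Cu) (a : ℝ) : (B.md ρ k r s ch g).R a = B.R g a := rfl
end stp

/-- the hypotheses of a colour step for a large parameter -/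
structure Hy (B : Bk) (ρ : V → ℝ) (k r : ℕ) (s : St) (ch : Cu → Cu → ℝ → V) (o : Bk.MO) : Prop
    extends B.MH ρ k r s ch o where
  big : Big B.N

namespace Hy
variable {B : Bk} {ρ : V → ℝ} {k r : ℕ} {s : St} {ch : Cu → Cu → ℝ → V} {o : Bk.MO}
  (H : Hy B ρ k r s ch o) {g : Cu} {x : V}
include H

theorem geo : Geo B.N B.lb B.fr B.Z0 := H.ok.geo
theorem fo : FrOk B.N B.lb B.fr := H.ok.geo.toFrOk
theorem gd (g : Cu) : Gd (B.c g k) := Bk.gd H.fo H.big g H.hk.le
theorem gd0 (g : Cu) : Gd (B.c g 0) := Bk.gd0 H.fo H.big g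
theorem D0 : 0 < B.D := (H.gd 0).D_pos
theorem lb0 : 0 < B.lb := (H.gd 0).lb_pos
theorem hsp0 : 0 < B.hsp := mul_pos (H.big.np_pos _) H.lb0
theorem x0 (g : Cu) : (B.fr g).x0 = cen B.D g := (H.fo.fx g).1
theorem hO (g : Cu) : Orth (B.fr g).O := (H.fo.fx g).2.1
theorem hQ (g : Cu) : (B.fr g).Q.det ≠ 0 := (H.fo.fx g).2.2.1.ne'
theorem xc_mem {a : ℝ} : (B.fr g).xc x ∈ B.R g a ↔ x ∈ B.bx g a := xc_mem_RX (H.hO g) (H.x0 g)
theorem xp_mem {a : ℝ} : (B.fr g).xp x ∈ B.bx g a ↔ x ∈ B.R g a := xp_mem_box (H.x0 g)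
theorem nbr {g' : Cu} {a b : ℝ} (h : a + b < 3) (hx : x ∈ B.bx g a) (hx' : x ∈ B.bx g' b) :
    Nbr 2 g g' := box_nbr H.D0 (m := 2) (by push_cast; linarith) hx hx'
theorem nbr3 {g' : Cu} {a b : ℝ} (h : a + b < 4) (hx : x ∈ B.bx g a) (hx' : x ∈ B.bx g' b) :
    Nbr 3 g g' := box_nbr H.D0 (m := 3) (by push_cast; linarith) hx hx'

/-! the stages -/

theorem u_loc (m : ℕ) : Loc B (r - 1) fun g => (B.fr g).unv (o.u g m) := fun g hg x hx => by
  show (B.fr g).Q *ᵥ o.u g m ((B.fr g).xc x) = 0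
  rw [(H.mo g hg).supp m _ (mt H.xc_mem.1 hx), mulVec_zero]
theorem ug_sm (m : ℕ) : Sm (B.ug (r - 1) o.u m) :=
  (H.u_loc m).sm H.D0 fun g hg => unv_sm _ ((H.mo g hg).sm m)
theorem ug_in (hg : col g = r - 1) (hx : x ∈ B.bx g (106 / 100)) (m : ℕ) :
    B.ug (r - 1) o.u m x = (B.fr g).unv (o.u g m) x := (H.u_loc m).eq_in H.D0 hg hx
theorem ug_out (hx : Ot B (r - 1) x) (m : ℕ) : B.ug (r - 1) o.u m x = 0 := (H.u_loc m).eq_out hx
theorem Upg_sm (m : ℕ) : Sm (Up (B.ug (r - 1) o.u) m) := Up_sm H.ug_sm m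
theorem Cvg_sm (m : ℕ) : SmM (Cv (B.ug (r - 1) o.u) m) := Cv_sm H.ug_sm m
theorem Up_in (hg : col g = r - 1) (hx : x ∈ B.bx g (106 / 100)) (m : ℕ) :
    Up (B.ug (r - 1) o.u) m x = (B.fr g).unv (Up (o.u g) m) x := by
  simp only [Up, H.ug_in hg hx, Fr.unv, mulVec_sum]
theorem Up_out (hx : Ot B (r - 1) x) (m : ℕ) : Up (B.ug (r - 1) o.u) m x = 0 := by
  simp only [Up, H.ug_out hx, Finset.sum_const_zero]
theorem Cv_in (hg : col g = r - 1) (hx : x ∈ B.bx g (106 / 100)) (m : ℕ) :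
    Cv (B.ug (r - 1) o.u) m x = (B.fr g).unc (Cv (o.u g) m ((B.fr g).xc x)) := by
  simp only [Cv, H.ug_in hg hx, Fr.unv, ← unc_vecMulVec]
  simp only [Fr.unc, Matrix.mul_sum, Matrix.sum_mul]
theorem Cv_out (hx : Ot B (r - 1) x) (m : ℕ) : Cv (B.ug (r - 1) o.u) m x = 0 := by
  simp only [Cv, H.ug_out hx, vecMulVec_zero, Finset.sum_const_zero]
theorem jm_ug_in (hg : col g = r - 1) (hx : x ∈ B.bx g (105 / 100)) (m : ℕ) :
    jm (B.ug (r - 1) o.u m) x = (B.fr g).unm (jm (o.u g m) ((B.fr g).xc x)) := by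
  rw [← jm_unv _ ((H.mo g hg).sm m)]
  exact jm_congr ((ev_bx H.D0 hx).mono fun y hy => H.ug_in hg hy m)
theorem jm_ug_out (hx : Ot B (r - 1) x) (m : ℕ) : jm (B.ug (r - 1) o.u m) x = 0 := by
  rw [← jm_zero x]
  exact jm_congr ((hx.ev H.D0).mono fun y hy => H.ug_out hy m)
theorem jm_Up_in (hg : col g = r - 1) (hx : x ∈ B.bx g (105 / 100)) (m : ℕ) :
    jm (Up (B.ug (r - 1) o.u) m) x = (B.fr g).unm (jm (Up (o.u g) m) ((B.fr g).xc x)) := by
  rw [← jm_unv _ (Up_sm (H.mo g hg).sm m)]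
  exact jm_congr ((ev_bx H.D0 hx).mono fun y hy => H.Up_in hg hy m)
theorem jm_Up_out (hx : Ot B (r - 1) x) (m : ℕ) : jm (Up (B.ug (r - 1) o.u) m) x = 0 := by
  rw [← jm_zero x]
  exact jm_congr ((hx.ev H.D0).mono fun y hy => H.Up_out hy m)
theorem dZ_sm : Sm (dZ B r o) := H.Upg_sm _

/-! the noise terms -/

theorem ns_off (hg : col g = r - 1) (hx : x ∉ B.bx g (93 / 100)) :
    o.dth g ((B.fr g).xc x) = 0 ∧ o.dY g ((B.fr g).xc x) = 0 :=
  (H.mo g hg).ns.2.2.1 _ (mt H.xc_mem.1 hx)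
theorem dN_smM (hg : col g = r - 1) : SmM (dN B ρ k r s ch o g) :=
  dN_sm (H.mi g hg).ns.1 (H.mi g hg).ns.2.1 (H.mo g hg).ns.1 (H.mo g hg).ns.2.1
theorem quiet (hg : col g = r - 1) (hn : ¬(B.c g k).noise) :
    o.dth g = 0 ∧ o.dY g = 0 ∧ dN B ρ k r s ch o g = 0 := by
  obtain ⟨a, b⟩ := (H.mo g hg).ns.2.2.2.1 hn
  refine ⟨a, b, funext fun y => ?_⟩
  rw [dN, a, b, dN_zero, Pi.zero_apply]
theorem th_loc : Loc B (r - 1) fun g x => (B.fr g).unm (o.dth g ((B.fr g).xc x) • E02) :=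
  fun g hg x hx => by simp only [(H.ns_off hg hx).1, zero_smul, unm_zero]
theorem eq_loc : Loc B (r - 1) fun g x => (B.fr g).unm (dN B ρ k r s ch o g ((B.fr g).xc x) -
    o.dth g ((B.fr g).xc x) • E02) := fun g hg x hx => by
  simp only [dN, dN_at _ (H.ns_off hg hx).1 (H.ns_off hg hx).2, (H.ns_off hg hx).1, zero_smul,
    sub_zero, unm_zero]
theorem yv_loc : Loc B (r - 1) fun g x => o.dY g ((B.fr g).xc x) :=
  fun _ hg _ hx => (H.ns_off hg hx).2
theorem dTh_sm : SmM (dTh B r o) := H.th_loc.smM H.D0 fun g hg =>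
  smM_unm _ (SmM.smul ((H.mo g hg).ns.1.comp (xc_sm _)) (smM_const _))
theorem dEq_sm : SmM (dEq B ρ k r s ch o) := H.eq_loc.smM H.D0 fun g hg =>
  smM_unm _ (((H.dN_smM hg).comp (xc_sm _)).sub
    (SmM.smul ((H.mo g hg).ns.1.comp (xc_sm _)) (smM_const _)))
theorem dYv_sm : Sm (dYv B r o) := H.yv_loc.sm H.D0 fun g hg =>
  (H.mo g hg).ns.2.1.comp (xc_sm _)
theorem dTh_in (hg : col g = r - 1) (hx : x ∈ B.bx g (106 / 100)) :
    dTh B r o x = (B.fr g).unm (o.dth g ((B.fr g).xc x) • E02) := H.th_loc.eq_in H.D0 hg hx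
theorem dEq_in (hg : col g = r - 1) (hx : x ∈ B.bx g (106 / 100)) :
    dEq B ρ k r s ch o x = (B.fr g).unm (dN B ρ k r s ch o g ((B.fr g).xc x) -
      o.dth g ((B.fr g).xc x) • E02) := H.eq_loc.eq_in H.D0 hg hx
theorem dYv_in (hg : col g = r - 1) (hx : x ∈ B.bx g (106 / 100)) :
    dYv B r o x = o.dY g ((B.fr g).xc x) := H.yv_loc.eq_in H.D0 hg hx
theorem dN_in (hg : col g = r - 1) (hx : x ∈ B.bx g (106 / 100)) :
    dTh B r o x + dEq B ρ k r s ch o x = (B.fr g).unm (dN B ρ k r s ch o g ((B.fr g).xc x)) := by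
  rw [H.dTh_in hg hx, H.dEq_in hg hx, ← unm_add, add_sub_cancel]
theorem dTh_out (hx : Ot B (r - 1) x) : dTh B r o x = 0 := H.th_loc.eq_out hx
theorem dEq_out (hx : Ot B (r - 1) x) : dEq B ρ k r s ch o x = 0 := H.eq_loc.eq_out hx
theorem dYv_out (hx : Ot B (r - 1) x) : dYv B r o x = 0 := H.yv_loc.eq_out hx
/-- outside the band `mid` there is no noise -/
theorem no_noise (hk : k ≠ mid B.N) (x : V) :
    dTh B r o x = 0 ∧ dEq B ρ k r s ch o x = 0 ∧ dYv B r o x = 0 := by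
  rcases cases B (r - 1) x with ⟨g, hg, hx⟩ | hx
  · have hx' := bx_mono H.D0 (show (93 / 100 : ℝ) ≤ 106 / 100 by norm_num) hx
    obtain ⟨a, b, c⟩ := H.quiet hg fun e => hk e.2
    rw [H.dTh_in hg hx', H.dEq_in hg hx', H.dYv_in hg hx', a, b, c]
    simp only [Pi.zero_apply, zero_smul, sub_zero, unm_zero, and_self]
  · exact ⟨H.dTh_out hx, H.dEq_out hx, H.dYv_out hx⟩

/-! the matrix `E` -/

theorem Eh_eq (f' : V → V) (g0 : Cu) (x : V) : B.Eh (B.stp ρ k r s ch o f') g0 x =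
    B.Eh s g0 x + (B.fr g0).hm (jm (dZ B r o) x - (dTh B r o x + dEq B ρ k r s ch o x)) := by
  simp only [Bk.Eh, stp_Zs, stp_Nth, stp_Neq]
  rw [jm_add H.inv.iz.sm.1 H.dZ_sm, sub_add_eq_add_sub, ← hm_add]
  congr 2
  abel
theorem Eh_in (f' : V → V) (g0 : Cu) (hg : col g = r - 1) (hx : x ∈ B.bx g (105 / 100)) :
    B.Eh (B.stp ρ k r s ch o f') g0 x =
      B.Eh s g0 x + (B.fr g0).hm ((B.fr g).unm (dA B ρ k r s ch o g ((B.fr g).xc x))) := by
  rw [H.Eh_eq, H.dN_in hg (bx_mono H.D0 (by norm_num) hx), dZ, H.jm_Up_in hg hx, ← unm_sub, dA]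
theorem Eh_self (f' : V → V) (hg : col g = r - 1) (hx : x ∈ B.bx g (105 / 100)) :
    B.Eh (B.stp ρ k r s ch o f') g x = B.Eh s g x + dA B ρ k r s ch o g ((B.fr g).xc x) := by
  rw [H.Eh_in f' g hg hx, hm_unm (H.hO g) (H.hQ g)]
theorem Eh_out (f' : V → V) (g0 : Cu) (hx : Ot B (r - 1) x) :
    B.Eh (B.stp ρ k r s ch o f') g0 x = B.Eh s g0 x := by
  rw [H.Eh_eq, H.dTh_out hx, H.dEq_out hx, dZ, H.jm_Up_out hx, add_zero, sub_zero, hm_zero,
    add_zero]
theorem dA_row (hg : col g = r - 1) (y : V) (j : Fin 3) : dA B ρ k r s ch o g y 2 j = 0 := by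
  rw [dA, Matrix.sub_apply, ZtA.jm_row (Up_lat (H.mo g hg).lat _), dN, dN_row _ _ _ _ (by decide),
    sub_zero]

/-! the ledger -/

theorem nx_nn (i : Cu) : 0 ≤ nx B r o i := finsum_nonneg fun g => by
  split_ifs with h
  exacts [(H.mo g h.1).led.1 i, le_rfl]
theorem nx_in (hg : col g = r - 1) {i : Cu} (hi : i ∈ B.sites g (98 / 100)) :
    nx B r o i = o.xs g i := by
  rw [nx, finsum_eq_single _ g fun g' hne => if_neg fun h => hne (col_box_unique H.D0
    (by norm_num) (h.1.trans hg.symm) ((mem_sites H.hsp0).1 h.2) ((mem_sites H.hsp0).1 hi)),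
    if_pos ⟨hg, hi⟩]
theorem hsp_le (g : Cu) : 2 * B.hsp ≤ (B.c g k).h0 ∧ B.hsp ≤ 1 / 100 * B.D := by
  have G := H.gd g
  have b := H.big
  have l : Real.log (B.c g k).lb ≤ _ := Real.log_le_log G.lb_pos G.lb_le
  rw [Real.log_mul (G.big.np_pos _).ne' G.lam_pos.ne', G.big.log_np] at l
  have l0 : Real.log B.hsp = -1500 * pJ B.N + Real.log B.lb := by
    rw [Bk.hsp, Real.log_mul (b.np_pos _).ne' H.lb0.ne', b.log_np]
  have := H.hsp0
  have l1 : Real.log (B.c g k).h0 = -1300 * pJ B.N + Real.log (B.c g k).lam := G.log_h0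
  have l2 : Real.log B.D = 4 * pJ B.N + Real.log B.lb := G.log_D
  have l3 : Real.log B.lb ≤ 93 * pJ B.N + Real.log (B.c g k).lam := l
  constructor
  · refine le_of_log (by positivity) G.h0_pos ?_
    rw [Real.log_mul two_ne_zero this.ne']
    linarith [log2_bd.2, b.J_ge, b.L_ge]
  · rw [one_div, inv_mul_eq_div, le_div_iff₀ (by norm_num)]
    refine le_of_log (by positivity) H.D0 ?_
    rw [Real.log_mul this.ne' (by norm_num)]
    linarith [b.log100_bd.2, b.J_ge, b.L_ge]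
/-- a site next to a point where `g` acts is in the list of `g` -/
theorem site {i : Cu} (hx : x ∈ B.bx g (97 / 100)) (hi : B.NS i x) :
    i ∈ B.sites g (98 / 100) ∧
      ‖(B.fr g).xc x - (B.md ρ k r s ch g).px i‖ ≤ (B.md ρ k r s ch g).c.h0 := by
  have hi' : ‖x - cen B.hsp i‖ ≤ B.hsp := hi
  constructor
  · have := box_add hx (y := cen B.hsp i) (s := 1 / 100)
      (by rw [norm_sub_rev]; exact hi'.trans (H.hsp_le g).2)
    rw [mem_sites H.hsp0]
    exact bx_mono H.D0 (by norm_num) this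
  · show ‖(B.fr g).xc x - (B.fr g).xc (cen B.hsp i)‖ ≤ (B.c g k).h0
    rw [xc_sub]
    linarith [orth_norm_le_two (orth_t (H.hO g)) (x - cen B.hsp i), (H.hsp_le g).1]
/-- crude bound of the new entries of the ledger -/
theorem xs_le (hg : col g = r - 1) {i : Cu} (hi : i ∈ B.sites g (98 / 100)) :
    1 + o.xs g i ≤ 7 * qp B.N (1 / 10) * pJ B.N := by
  obtain ⟨w1, w2⟩ := (H.mi g hg).wt
  obtain ⟨l1, l2⟩ := (H.mo g hg).led
  have b := H.big
  have h1 := Finset.single_le_sum (f := fun s' => (B.md ρ k r s ch g).w s' *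
    Real.exp (o.xs g s' / 6)) (fun s' hs => mul_nonneg (zero_le_one.trans (w1 s' hs))
      (Real.exp_pos _).le) hi
  have h2 := le_mul_of_one_le_left (Real.exp_pos (o.xs g i / 6)).le (w1 i hi)
  have h3 := mul_le_mul_of_nonneg_left w2 b.sqrtq_pos.le
  have h4 : Real.exp (o.xs g i / 6) ≤ √(pq B.N) * Real.exp (qp B.N (1 / 10) * pJ B.N) :=
    h2.trans (h1.trans (l2.trans h3))
  have h5 := Real.log_le_log (Real.exp_pos _) h4
  rw [Real.log_mul b.sqrtq_pos.ne' (Real.exp_pos _).ne', Real.log_exp, Real.log_exp,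
    b.log_sqrtq] at h5
  have h6 : 1 ≤ qp B.N (1 / 10) := (qp_zero B.N).symm.le.trans (b.qp_le (by norm_num))
  have h7 := le_mul_of_one_le_left b.J_pos.le h6
  linarith [b.J_ge, b.L_ge]
end Hy

end Ug

end
end Pool.Agent.MP_20bec2_an.T3

end MrgPart0

-- ======== part 1: formerly Pool.Agent.MP_20bec2_an.T3.Ms
section MrgPart1

/-! Row MS: the covariance after one colour. -/

set_option autoImplicit false
set_option linter.unusedSectionVars false
open MeasureTheory Set Filter Matrix Topology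

namespace Pool.Agent.MP_20bec2_an.T3
noncomputable section
open Classical
namespace MsP
open Prof Glue GeoP Ug

section num
variable {c : Pm} (g : Gd c)
include g

lemma eL_le : c.eL ≤ 2 * np c.N (-46 / 100) := by
  have h1 : c.eHi ≤ np c.N (-46 / 100) :=
    g.big.np_le (by linarith [(rmp_mem (etaS c.N / 10) c.η).1])
  have h2 : c.eLo ≤ np c.N (-46 / 100) := g.big.np_le (by linarith [(rmp_mem (c.thr / 2) c.η).1])
  have h3 : c.eHi * (6 / 10) ^ c.k ≤ c.eHi :=
    mul_le_of_le_one_right g.eHi_pos.le (pow_le_one₀ (by norm_num) (by norm_num))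
  rw [Pm.eL]; linarith

lemma eLo_le : c.eLo ≤ c.eL := by
  have := g.eHi_pos
  rw [Pm.eL]; exact le_add_of_nonneg_left (by positivity)

lemma eL_ge : np c.N (-51 / 10) ≤ c.eL :=
  (g.big.np_le (by linarith [(rmp_mem (c.thr / 2) c.η).2])).trans (eLo_le g)

lemma eL_one : c.eL ≤ 1 :=
  (eL_le g).trans ((big_np g.big (b := 0) (by norm_num) (by norm_num)).trans_eq (np_zero _))

lemma eS_le : 1000 * c.eS ≤ c.eL := by
  have h1 : 2000 * np c.N (-465 / 1000 - 46 / 10 * rmp (c.thr / 2) c.η) ≤ c.eLo :=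
    big_np g.big (by norm_num) (by linarith)
  have h2 : 2000 * np c.N (-2 / 100) ≤ 1 :=
    (big_np g.big (b := 0) (by norm_num) (by norm_num)).trans_eq (np_zero _)
  have h3 := mul_le_mul_of_nonneg_right h2 g.eL_pos.le
  rw [Pm.eS]; linarith [eLo_le g]

lemma t_le : c.t11 ≤ 1 ∧ c.t12 ≤ 1 := by
  have q : 1 ≤ c.q := by linarith [g.big.q_ge, show c.q = pq c.N from rfl]
  have := np_le_one g.big (a := -4 / 10) (by norm_num)
  rw [Pm.t11, Pm.t12]
  split_ifs
  · exact ⟨(div_le_one g.q_pos).2 q, (div_le_one g.q_pos).2 (by linarith [g.b2_le])⟩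
  · exact ⟨this, this⟩
end num

lemma eSm_le {N : ℕ} {c c' : Pm} (cp : Cp (dc N) c c') (hN : c.N = N) (hN' : c'.N = N)
    (hk : c'.k = c.k) : 2916 * c'.eSm ≤ c.eS := by
  have g := cp.g
  have g' := cp.g'
  have b : Big N := hN ▸ g.big
  have ht : c'.thr = c.thr := by rw [Pm.thr, Pm.thr, hk, hN, hN']
  have h1 : c'.eL ≤ 2 * c.eL := by
    refine (cp.ratio_two (by rw [Pm.J, hN]; exact b.dc_le') g.eL_pos g'.eL_pos ?_).1
    have := cp.cl_eL hk (by rw [hk, hN, hN'])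
    nlinarith [cp.cpe_nonneg, g.J_pos]
  have h2 : 5832 * np N (-3 / 100) ≤ np N (-2 / 100) := big_np b (by norm_num) (by norm_num)
  have h3 : 5832 * np N (-55 / 10) ≤ np N (-465 / 1000 - 46 / 10 * rmp (c.thr / 2) c.η) :=
    big_np b (by norm_num) (by linarith [(rmp_mem (c.thr / 2) c.η).2])
  have h4 : 5832 * (if c'.comp then np N (-47 / 100) else 0) ≤
      np N (-465 / 1000 - 46 / 10 * rmp (c.thr / 2) c.η) := by
    split_ifs with h
    · have e1 : c'.η ≤ 2 * c.η := (cp.ratios Pm.η (by simp)).2.2.2.1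
      have e2 : c.thr ≤ c'.η := ht ▸ h
      have e3 : rmp (c.thr / 2) c.η = 0 := by
        rw [rmp, max_eq_left, min_eq_right zero_le_one]
        exact Real.log_nonpos (div_pos (half_pos g.thr_pos) g.η_pos).le
          ((div_le_one g.η_pos).2 (by linarith))
      rw [e3]
      exact big_np b (by norm_num) (by norm_num)
    · rw [mul_zero]; exact (b.np_pos _).le
  have h5 := mul_le_mul_of_nonneg_left h1 (b.np_pos (-3 / 100)).le
  have h6 := mul_le_mul_of_nonneg_right h2 g.eL_pos.le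
  rw [Pm.eSm, Pm.eS, hN, hN']
  linarith

lemma dg3_le {u v w μ : ℝ} (h0 : 0 ≤ μ) (hu : |u| ≤ μ) (hv : |v| ≤ μ) (hw : |w| ≤ μ) (a b : Fin 3) :
    |dg3 u v w a b| ≤ μ := by
  rcases fin3 a with rfl | rfl | rfl <;> rcases fin3 b with rfl | rfl | rfl <;>
    simp [dg3, h0, hu, hv, hw]

lemma tab_le {p q a b μ : ℝ} (hp : p ≤ μ) (hq : q ≤ μ) (ha : a ≤ μ) (hb : b ≤ μ) (i j : Fin 3) :
    (!![p, q, a; q, p, a; a, a, b] : Mx) i j ≤ μ := by
  rcases fin3 i with rfl | rfl | rfl <;> rcases fin3 j with rfl | rfl | rfl <;>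
    simp [hp, hq, ha, hb]

lemma ent_le {M A T : Mx} {a b : Fin 3} {μ τ : ℝ} (h : EB (M - A) T) (hA : |A a b| ≤ μ)
    (hT : T a b ≤ τ) : |M a b| ≤ μ + τ := by
  have := h a b
  rw [Matrix.sub_apply] at this
  linarith [abs_sub_abs_le_abs_sub (M a b) (A a b)]

lemma Cv_symm (u : ℕ → V → V) (m : ℕ) (x : V) : (Cv u m x)ᵀ = Cv u m x := by
  rw [Cv, transpose_sum]
  exact Finset.sum_congr rfl fun _ _ => transpose_vecMulVec _ _

lemma ws_succ {B : Bk} (G : FrOk B.N B.lb B.fr) (hb : Big B.N) (C : Cu → V → Mx) {r : ℕ}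
    (hr : 1 ≤ r) (w : V) :
    B.ws (fun g' w' => if col g' < r + 1 - 1 then C g' w' else 0) w =
      B.ws (fun g' w' => if col g' < r - 1 then C g' w' else 0) w +
        ∑ᶠ g', if col g' = r - 1 then al B.D g' w ^ 2 • (B.fr g').unc (C g' w) else 0 := by
  refine Eq.trans ?_ ((sup_ws G hb fun g' w' => if col g' < r - 1 then C g' w' else 0).finsum_add
    ((sup_ws G hb C).ite fun g => col g = r - 1) (by norm_num) w)
  refine finsum_congr fun g => ?_
  have z : (B.fr g).unc 0 = 0 := by simp [Fr.unc]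
  beta_reduce
  by_cases h1 : col g < r - 1
  · rw [if_pos h1, if_pos (by omega), if_neg (by omega), add_zero]
  · by_cases h2 : col g = r - 1
    · rw [if_neg h1, if_pos h2, if_pos (by omega), z, smul_zero, zero_add]
    · rw [if_neg h1, if_neg h2, if_neg (by omega), z, smul_zero, add_zero]

/-- the new term of the error -/
def dE (B : Bk) (k r : ℕ) (s : St) (o : Bk.MO) (w : V) : Mx :=
  Cv (B.ug (r - 1) o.u) (nT B.N) w -
    ∑ᶠ g', if col g' = r - 1 then al B.D g' w ^ 2 • (B.fr g').unc (B.Cp k s.S0 g' w) else 0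

section step
variable {B : Bk} {ρ : V → ℝ} {k r : ℕ} {s : St} {ch : Cu → Cu → ℝ → V} {o : Bk.MO}
  (H : Hy B ρ k r s ch o)
include H

lemma sm_Cp (g : Cu) : SmM (B.Cp k s.S0 g) :=
  smM_Cp H.fo H.big H.hk.le (H.inv.is.post H.hr.1).sm.1 g

lemma c_loc : Loc B (r - 1) fun g w => al B.D g w ^ 2 • (B.fr g).unc (B.Cp k s.S0 g w) :=
  fun g _ x hx => by
    have : al B.D g x = 0 := al_zero H.D0 fun h => hx (bx_mono H.D0 (by norm_num) h)
    simp only [this, ne_eq, OfNat.ofNat_ne_zero, not_false_eq_true, zero_pow, zero_smul]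

lemma dE_sm : SmM (dE B k r s o) :=
  (H.Cvg_sm _).sub ((c_loc H).smM H.D0 fun g _ =>
    SmM.smul ((al_sm _ _).pow 2) (smM_unc (sm_Cp H g) _))

lemma dE_out {w : V} (hw : Ot B (r - 1) w) : dE B k r s o w = 0 := by
  rw [dE, H.Cv_out hw, (c_loc H).eq_out hw, sub_zero]

lemma dE_in {g : Cu} (hg : col g = r - 1) {w : V} (hw : w ∈ B.bx g (106 / 100)) :
    dE B k r s o w = (B.fr g).unc (Cv (o.u g) (nT B.N) ((B.fr g).xc w) -
      alh (B.fr g).O B.D ((B.fr g).xc w) ^ 2 •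
        B.Cp k s.S0 g ((B.fr g).xp ((B.fr g).xc w))) := by
  rw [dE, H.Cv_in hg hw, (c_loc H).eq_in H.D0 hg hw, xp_xc (H.hO g),
    ← al_eq_xc (H.hO g) (H.x0 g)]
  simp only [Fr.unc, Matrix.mul_sub, Matrix.sub_mul, Matrix.mul_smul, Matrix.smul_mul]

lemma cov' {g : Cu} (hg : col g = r - 1) (i j : Fin 3) :
    CB 4 (cv (B.c g k).hE) (B.R g (99 / 100)) (fun y => nrm (B.c g k).hs
      (Cv (o.u g) (nT B.N) y - alh (B.fr g).O B.D y ^ 2 • B.Cp k s.S0 g ((B.fr g).xp y)) i j)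
      (B.c g k).eSm := (H.mo g hg).cov i j

lemma eSm' {g g' : Cu} (n : Nbr 3 g g') : 2916 * (B.c g' k).eSm ≤ (B.c g k).eS :=
  eSm_le (Bk.cpk H.fo H.big n H.hk.le H.hk.le) rfl rfl rfl

lemma dE_cb (g : Cu) (i j : Fin 3) : CB 4 (cv (B.c g k).hE) (B.R g 1)
    (fun x => B.nS k (dE B k r s o) g x i j) (B.c g k).eS := by
  refine cbl_of_local fun x hx => ?_
  have cx : Tendsto (B.fr g).xp (𝓝 x) (𝓝 ((B.fr g).xp x)) := (xp_sm _).continuous.tendsto x
  have p := (H.gd g).hE_pos.le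
  rcases cases B (r - 1) ((B.fr g).xp x) with ⟨g', hg, hw⟩ | hw
  · have n : Nbr 3 g g' := H.nbr3 (by norm_num) (H.xp_mem.2 hx) hw
    have ne := ne_box H.fo H.big H.hk.le n
    have sm : SmM fun y => nrm (B.c g' k).hs (Cv (o.u g') (nT B.N) y -
        alh (B.fr g').O B.D y ^ 2 • B.Cp k s.S0 g' ((B.fr g').xp y)) :=
      smM_nrm ((Cv_sm (H.mo g' hg).sm _).sub
        (SmM.smul ((alh_sm _ _).pow 2) ((sm_Cp H g').comp (xp_sm _)))) _
    have hE : (B.c g' k).hE = (B.c g k).hE := rfl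
    have e0 := (H.gd g').eSm_pos
    have := cbl_sand (P := fun l => l.length ≤ 4) (h := cv (B.c g k).hE) (U := {x})
      (β := 81 * (B.c g' k).eSm) (κ := 4) (fun _ => p)
      (sm.comp ((xc_sm (B.fr g')).comp (xp_sm (B.fr g))))
      (tr (B.fr g) (B.fr g') (B.c g k).hs (B.c g' k).hs) (by positivity) i j fun a b =>
      Or.inr ⟨ne.four i j a b, cb_chg (H.hO g) (H.hO g') p (sm a b) (U' := B.R g' (99 / 100))
        (fun y hy => by
          rw [mem_singleton_iff.1 hy]; exact H.xc_mem.2 (bx_mono H.D0 (by norm_num) hw))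
        (hE ▸ cov' H hg a b)⟩
    refine (this.congr fun y hy => ?_).monoB (by linarith [eSm' H n])
    rw [mem_singleton_iff.1 hy]
    filter_upwards [cx.eventually (ev_bx H.D0 (bx_mono H.D0 (by norm_num) hw))] with y hy
    rw [nS_eq, dE_in H hg hy, nL_unc _ _ (H.gd g).hs_pos (H.gd g').hs_pos]
    rfl
  · refine (cbl_zero (H.gd g).eS_pos.le).congr fun y hy => ?_
    rw [mem_singleton_iff.1 hy]
    filter_upwards [cx.eventually (hw.ev H.D0)] with y hy
    rw [nS_eq, dE_out H hy, map_zero]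
    rfl

lemma Cv_row (g : Cu) {x : V} (hx : x ∈ B.R g 1) (i : Fin 3) :
    |B.nS k (Cv (B.ug (r - 1) o.u) (nT B.N)) g x i 2| ≤ np B.N (-22) := by
  rcases cases B (r - 1) ((B.fr g).xp x) with ⟨g', hg, hw⟩ | hw
  · have n : Nbr 3 g g' := H.nbr3 (by norm_num) (H.xp_mem.2 hx) hw
    have ne := ne_box H.fo H.big H.hk.le n
    have hy : (B.fr g').xc ((B.fr g).xp x) ∈ B.R g' (99 / 100) :=
      H.xc_mem.2 (bx_mono H.D0 (by norm_num) hw)
    rw [nS_eq, H.Cv_in hg (bx_mono H.D0 (by norm_num) hw),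
      nL_unc _ _ (H.gd g).hs_pos (H.gd g').hs_pos]
    generalize (B.fr g').xc ((B.fr g).xp x) = y at hy
    have e0 := ne.nn
    have t1 : 3 * (B.c g' k).t11 ≤ 3 := by linarith [(t_le (H.gd g')).1]
    have t2 : 3 * (B.c g' k).t12 ≤ 3 := by linarith [(t_le (H.gd g')).2]
    have bd : ∀ a b, |nrm (B.c g' k).hs (Cv (o.u g') (nT B.N) y) a b| ≤ 5 := fun a b => by
      have h1 := (cov' H hg a b).val hy
      have h2 : |nrm (B.c g' k).hs (B.Cp k s.S0 g' ((B.fr g').xp y)) a b| ≤ 1 + 3 :=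
        ent_le ((H.mi g' hg).cb y hy) (dg3_le (by norm_num) (by norm_num [abs_le])
          (by norm_num [abs_le]) (by norm_num) a b) (tab_le t1 t2 (by norm_num) (by norm_num) a b)
      have h3 : (B.c g' k).eSm ≤ 1 := by
        linarith [eSm' H n, eS_le (H.gd g), eL_one (H.gd g), (H.gd g').eSm_pos]
      have h4 := alh_sq_le (B.fr g').O B.D y
      simp only [nrm, Matrix.of_apply, Matrix.sub_apply, Matrix.smul_apply, smul_eq_mul, sub_div,
        mul_div_assoc] at h1 h2 ⊢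
      generalize alh (B.fr g').O B.D y = α at h1 h4
      generalize B.Cp k s.S0 g' ((B.fr g').xp y) a b / ((B.c g' k).hs a * (B.c g' k).hs b) = v
        at h1 h2
      have h5 : |α ^ 2 * v| ≤ 4 := by
        rw [abs_mul, abs_of_nonneg (sq_nonneg α)]; nlinarith [abs_nonneg v, sq_nonneg α]
      linarith [abs_sub_abs_le_abs_sub
        (Cv (o.u g') (nT B.N) y a b / ((B.c g' k).hs a * (B.c g' k).hs b)) (α ^ 2 * v)]
    have := cbl_sand (P := fun l => l.length ≤ 0) (h := cv 1) (U := univ) (β := 5)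
      (κ := 2 * np B.N (-47 / 2)) (fun _ => zero_le_one)
      (smM_const (nrm (B.c g' k).hs (Cv (o.u g') (nT B.N) y)))
      (tr (B.fr g) (B.fr g') (B.c g k).hs (B.c g' k).hs) (by positivity) i 2 fun a b => by
        by_cases hb : b = 2
        · refine Or.inl fun _ => ?_
          simp only [hb, nrm, Cv, Matrix.of_apply, Matrix.sum_apply, vecMulVec_apply,
            (H.mo g' hg).lat, mul_zero, Finset.sum_const_zero, zero_div]
        · exact Or.inr ⟨ne.mix (Or.inr (Or.inr (Or.inl ⟨rfl, hb⟩))), cb_const (bd a b)⟩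
    have h6 : 90 * np B.N (-47 / 2) ≤ np B.N (-22) := big_np H.big (by norm_num) (by norm_num)
    linarith [CB.val this (mem_univ x)]
  · rw [nS_eq, H.Cv_out hw, map_zero]
    simpa using (H.big.np_pos _).le
end step

end MsP

open MsP Ug in
theorem ms : MsStmt := by
  filter_upwards [ev_big] with N big B hN ρ k r s ch o f' M
  have H : Hy B ρ k r s ch o := ⟨M, hN ▸ big⟩
  have I := H.inv.is
  have r1 := H.hr.1
  have c1 : ((r + 1 - 1 : ℕ) : ℝ) = (r - 1 : ℕ) + 1 := by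
    rw [show r + 1 - 1 = r - 1 + 1 by omega]; push_cast; rfl
  refine ⟨⟨I.sm.1.sub (H.Cvg_sm _), fun x => ?_⟩, fun h => by omega, fun _ => I.post r1,
    fun _ => I.post3 r1, fun _ g i j => ?_, fun _ g x hx i => ?_⟩
  · show (s.Sg x - Cv _ _ x)ᵀ = s.Sg x - Cv _ _ x
    rw [transpose_sub, I.sm.2, Cv_symm]
  · have s1 : SmM fun w => s.S0 w - s.Sg w -
        B.ws (fun g' w' => if col g' < r - 1 then B.Cp k s.S0 g' w' else 0) w :=
      ((I.post r1).sm.1.sub I.sm.1).sub (smM_ws H.fo H.big fun g' => by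
        by_cases h : col g' < r - 1
        · simpa only [if_pos h] using sm_Cp H g'
        · simpa only [if_neg h] using smM_const 0)
    refine ((CBl.add (fun _ => (H.gd g).hE_pos.le) (smM_nS B k s1 g i j)
      (smM_nS B k (dE_sm H) g i j) (I.err r1 g i j) (dE_cb H g i j)).congr_fun fun x => ?_).monoB
      (by rw [c1]; linarith)
    rw [nS_eq, nS_eq, nS_eq, ← Matrix.add_apply, ← map_add]
    refine congrArg (fun M => nL (B.fr g) (B.c g k).hs M i j) ?_
    show s.S0 _ - (s.Sg _ - Cv _ _ _) - B.ws (fun g' w' =>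
      if col g' < r + 1 - 1 then B.Cp k s.S0 g' w' else 0) _ = _
    rw [ws_succ H.fo H.big _ r1, dE]
    abel
  · have h1 := I.row r1 g x hx i
    have h2 := Cv_row H g hx i
    have e : B.nS k (fun w => (B.stp ρ k r s ch o f').S0 w - (B.stp ρ k r s ch o f').Sg w) g x i 2 =
        B.nS k (fun w => s.S0 w - s.Sg w) g x i 2 +
          B.nS k (Cv (B.ug (r - 1) o.u) (nT B.N)) g x i 2 := by
      rw [nS_eq, nS_eq, nS_eq, ← Matrix.add_apply, ← map_add]
      refine congrArg (fun M => nL (B.fr g) (B.c g k).hs M i 2) ?_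
      show s.S0 _ - (s.Sg _ - Cv _ _ _) = _
      abel
    rw [e, c1]
    linarith [abs_add_le (B.nS k (fun w => s.S0 w - s.Sg w) g x i 2)
      (B.nS k (Cv (B.ug (r - 1) o.u) (nT B.N)) g x i 2)]

end
end Pool.Agent.MP_20bec2_an.T3

end MrgPart1

-- ======== part 2: formerly Pool.Agent.MP_20bec2_an.T3.Es
section MrgPart2

/-! Row ES: the covariance at the end of a band. -/

set_option autoImplicit false
set_option linter.unusedSectionVars false
open MeasureTheory Set Filter Matrix Topology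

namespace Pool.Agent.MP_20bec2_an.T3
noncomputable section
open Classical
namespace MsP
open Prof Glue GeoP

lemma latm_lat (M : Mx) {i j : Fin 3} (h : ¬(i = 2 ∨ j = 2)) : latm M i j = M i j := if_neg h
lemma latm_ver (M : Mx) {i j : Fin 3} (h : i = 2 ∨ j = 2) : latm M i j = 0 := if_pos h

/-- the lateral part does not depend on the frame, up to `ε` -/
lemma lat_err {ε β : ℝ} {A : Mx} (ne : Ne ε A) {h : V} (hh : ∀ i, 0 ≤ h i) {U : Set V}
    {M : V → Mx} (hM : SmM M) (H : ∀ a b, CB 4 h U (fun x => M x a b) β) (β1 : 1 ≤ β)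
    (i j : Fin 3) : CB 4 h U (fun x => (A * latm (M x) * Aᵀ -
      latm (A * M x * Aᵀ - (1 / 16 : ℝ) • (1 - A * Aᵀ))) i j) (19 * (ε * β)) := by
  have e0 := ne.nn
  have e1 : ε ≤ ε * β := le_mul_of_one_le_right e0 β1
  have e2 : 0 ≤ 2 * ε * β := by nlinarith
  by_cases hv : i = 2 ∨ j = 2
  · have := cbl_sand (P := fun l => l.length ≤ 4) (U := U) hh (smM_latm hM) A e2 i j fun a b => by
      by_cases hab : a = 2 ∨ b = 2
      · exact Or.inl fun x => latm_ver _ hab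
      · refine Or.inr ⟨ne.mix ?_, (H a b).congr_fun fun x => latm_lat _ hab⟩
        tauto
    exact (this.congr_fun fun x => by rw [Matrix.sub_apply, latm_ver _ hv, sub_zero]).monoB
      (by linarith)
  · have s := hM.sub (smM_latm hM)
    have := cbl_sand (P := fun l => l.length ≤ 4) (U := U) hh s A e2 i j fun a b => by
      by_cases hab : a = 2 ∨ b = 2
      · refine Or.inr ⟨ne.mix ?_, (H a b).congr_fun fun x => by
          rw [Matrix.sub_apply, latm_ver _ hab, sub_zero]⟩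
        tauto
      · exact Or.inl fun x => by rw [Matrix.sub_apply, latm_lat _ hab, sub_self]
    have c : CB 4 h U (fun _ => 1 / 16 * (1 - A * Aᵀ) i j) ε := cb_const (by
      rw [abs_mul, abs_of_pos (by norm_num : (0 : ℝ) < 1 / 16)]; linarith [ne.ort i j])
    refine ((CBl.sub hh (sm_const _) (((smM_const A).mul s).mul (smM_const Aᵀ) i j) c
      this).congr_fun fun x => ?_).monoB (by linarith)
    beta_reduce
    rw [Matrix.sub_apply, latm_lat _ hv, Matrix.mul_sub A, Matrix.sub_mul, Matrix.sub_apply,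
      Matrix.sub_apply (A * M x * Aᵀ), Matrix.smul_apply, smul_eq_mul]
    ring

lemma latm_d (M : Mx) : latm M - dg3 (1 / 16) (1 / 16) 0 = latm (M - (1 / 16 : ℝ) • 1) := by
  ext i j
  rcases fin3 i with rfl | rfl | rfl <;> rcases fin3 j with rfl | rfl | rfl <;> simp [latm, dg3]

lemma nrm_d {c : Pm} (g : Gd c) :
    nrm c.hs (dg3 (c.l1 ^ 2 / 16) (c.lam ^ 2 / 16) 0) = dg3 (1 / 16) (1 / 16) 0 := by
  have := g.l1_pos.ne'; have := g.lam_pos.ne'
  ext i j
  rcases fin3 i with rfl | rfl | rfl <;> rcases fin3 j with rfl | rfl | rfl <;>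
    simp [nrm, dg3, hs0, hs1] <;> field_simp

/-- half the scale, four times the function -/
lemma half {a β3 β4 γ : ℝ} (a0 : 0 ≤ a) {U : Set V} {X : V → ℝ} (h3 : CV 3 (cv a) U X β3)
    (h4 : CV 4 (cv a) U X β4) (e3 : 2 * β3 ≤ γ) (e4 : β4 / 4 ≤ γ) :
    CV 4 (cv (a / 2)) U (fun x => 4 * X x) γ := by
  rintro l ⟨l1, l4⟩ x hx
  have p := hpa_nonneg (h := cv a) (fun _ => a0) l X x
  have e : hp (cv (a / 2)) l * |pds l (fun x => 4 * X x) x| =
      4 * (1 / 2) ^ l.length * (hp (cv a) l * |pds l X x|) := by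
    rw [pds_const_mul, hp_cv, hp_cv, abs_mul, abs_of_pos (by norm_num : (0 : ℝ) < 4), div_pow,
      div_pow, one_pow]
    ring
  rw [e]
  by_cases h : l.length ≤ 3
  · have h1 := h3 l ⟨l1, h⟩ x hx
    have h2 : (1 / 2 : ℝ) ^ l.length ≤ (1 / 2) ^ 1 :=
      pow_le_pow_of_le_one (by norm_num) (by norm_num) l1
    nlinarith
  · have h1 := h4 l ⟨l1, l4⟩ x hx
    rw [show l.length = 4 by omega]
    linarith

section succ
variable (F : Fr) (N : ℕ) (lb : ℝ) (k : ℕ)

lemma lam_succ : (F.pm N lb (k + 1)).lam = (F.pm N lb k).lam / 2 := by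
  simp only [Pm.lam, Fr.pm, pow_succ, div_div]

lemma hE_succ : (F.pm N lb (k + 1)).hE = (F.pm N lb k).hE / 2 := by
  rw [Pm.hE, Pm.hE, lam_succ, mul_div_assoc]; rfl

lemma hs_succ (i : Fin 3) : (F.pm N lb (k + 1)).hs i = (F.pm N lb k).hs i / 2 := by
  rcases fin3 i with rfl | rfl | rfl
  · rw [hs0, hs0, Pm.l1, Pm.l1, lam_succ, mul_div_assoc]; rfl
  · rw [hs1, hs1, lam_succ]
  · rw [hs2, hs2, Pm.y, Pm.y, lam_succ, mul_div_assoc]; rfl

lemma t_succ : (F.pm N lb (k + 1)).t11 = np N (-4 / 10) ∧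
    (F.pm N lb (k + 1)).t12 = np N (-4 / 10) :=
  ⟨if_neg (Nat.succ_ne_zero k), if_neg (Nat.succ_ne_zero k)⟩
end succ

lemma eL_succ {c c' : Pm} (g : Gd c) (g' : Gd c') (hN : c'.N = c.N) (hη : c'.η = c.η)
    (hk : c'.k = c.k + 1) : 6 / 10 * c.eL ≤ c'.eL := by
  have h1 : c'.thr ≤ c.thr := by
    have := g.big.etaS_pos
    rw [Pm.thr, Pm.thr, hN, hk]
    split_ifs <;> first | omega | linarith
  have h2 : rmp (c'.thr / 2) c.η ≤ rmp (c.thr / 2) c.η :=
    min_le_min le_rfl (max_le_max le_rfl (Real.log_le_log (div_pos (half_pos g'.thr_pos) g.η_pos)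
      (div_le_div_of_nonneg_right (by linarith) g.η_pos.le)))
  have h3 : c.eLo ≤ c'.eLo := by
    rw [Pm.eLo, Pm.eLo, hN, hη]; exact g.big.np_le (by linarith)
  have h4 : c'.eHi = c.eHi := by rw [Pm.eHi, Pm.eHi, hN, hη]
  rw [Pm.eL, Pm.eL, h4, hk, pow_succ]
  linarith [g.eLo_pos]

lemma nS_succ (B : Bk) (k : ℕ) (S : V → Mx) (g : Cu) (x : V) (i j : Fin 3) :
    B.nS (k + 1) S g x i j = 4 * B.nS k S g x i j := by
  simp only [Bk.nS, Bk.c, nrm, Matrix.of_apply, hs_succ]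
  ring

lemma nS_sub (B : Bk) (k : ℕ) (S T : V → Mx) (g : Cu) (x : V) (i j : Fin 3) :
    B.nS k (fun w => S w - T w) g x i j = B.nS k S g x i j - B.nS k T g x i j := by
  rw [nS_eq, map_sub]
  rfl

section main
variable {B : Bk} (G : FrOk B.N B.lb B.fr) (hb : Big B.N) {k : ℕ} (hk : k < nb B.N) {S : V → Mx}
include G hb hk

/-- the region shrinks by more than the width of the kernel -/
lemma thk (g : Cu) : ∀ x ∈ B.R g (1 - (k + 1 : ℕ) / B.N), x ∈ B.R g (1 - k / B.N) ∧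
    ∀ y ∈ Mol.bx (cv (B.c g k).hm) ((B.fr g).xp x), (B.fr g).xc y ∈ B.R g (1 - k / B.N) ∧
      ∑ i, |x i - (B.fr g).xc y i| / cv (B.c g k).hE i ≤ 6 * np B.N (-6 / 100) := by
  intro x hx
  have c := Bk.gd G hb g hk.le
  have N0 := hb.N_pos
  have e : (1 : ℝ) - (k + 1 : ℕ) / B.N + 1 / B.N = 1 - k / B.N := by push_cast; ring
  refine ⟨RX_mono _ (Dp G hb).le (by rw [← e]; exact le_add_of_nonneg_right (by positivity)) hx,
    fun y hy => ?_⟩
  have h1 : ‖y - (B.fr g).xp x‖ ≤ (B.c g k).hm := norm_le_of hy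
  have h2 : (B.c g k).hm ≤ 1 / B.N * B.D := by
    have h3 : np B.N (40 / 100) ≤ (B.N : ℝ) ^ 3 := by
      rw [← np_nat]; exact hb.np_le (by norm_num)
    have h4 : 1 / (B.N : ℝ) * B.D = (B.N : ℝ) ^ 3 * B.lb := by rw [Bk.D, Dd]; field_simp
    rw [h4]
    exact mul_le_mul h3 c.lam_le_lb c.lam_pos.le (by positivity)
  refine ⟨(xc_mem G).2 (e ▸ box_add ((xp_mem G).2 hx) (h1.trans h2)), ?_⟩
  have h5 : (B.c g k).hm = np B.N (-6 / 100) * (B.c g k).hE := by
    show np B.N (40 / 100) * _ = _ * (np B.N (46 / 100) * _)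
    rw [← mul_assoc, ← hb.np_add]; norm_num
  have h6 : ‖x - (B.fr g).xc y‖ ≤ 2 * (B.c g k).hm := by
    have := orth_norm_le_two (orth_t (orth G g)) ((B.fr g).xp x - y)
    rw [← xc_sub, xc_xp (orth G g), norm_sub_rev ((B.fr g).xp x)] at this
    linarith
  have h7 : ∀ i, |x i - (B.fr g).xc y i| / cv (B.c g k).hE i ≤ 2 * np B.N (-6 / 100) := fun i =>
    (div_le_iff₀ c.hE_pos).2 ((abs_le_norm (x - (B.fr g).xc y) i).trans (by linarith))
  rw [Fin.sum_univ_three]
  linarith [h7 0, h7 1, h7 2]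

/-- the mollified covariance in the frame `g` -/
def nM (B : Bk) (k : ℕ) (S : V → Mx) (g : Cu) (x : V) : Mx :=
  B.nS k (molM (cv (B.c g k).hm) S) g x

lemma nrm_Cp (g g' : Cu) (w : V) : nrm (B.c g' k).hs (B.Cp k S g' w) =
    latm (nL (B.fr g') (B.c g' k).hs (molM (cv (B.c g k).hm) S w) - (1 / 16 : ℝ) • 1) := by
  rw [Bk.Cp, nrm_sub, nrm_latm, nrm_d (Bk.gd G hb g' hk.le), latm_d]
  rfl

variable {a b : ℝ} (P : B.SB k S 1 (101 / 100) a b) (ha : a ≤ 1) (hb' : b ≤ 1)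
include P

lemma nM_sm (g : Cu) : SmM (nM B k S g) := smM_nS B k (smM_mol G hb hk.le P.sm.1 g) g

lemma nM_eq (g : Cu) (i j : Fin 3) : (fun x => nM B k S g x i j) = fun x => mol (cv (B.c g k).hm)
    (fun y => nL (B.fr g) (B.c g k).hs (S y) i j) ((B.fr g).xp x) :=
  funext fun _ => nL_mol _ _ (fun _ => (Bk.gd G hb g hk.le).hm_pos) P.sm.1 _ i j

lemma nM_cbl {Q : List (Fin 3) → Prop} {β : ℝ} (g : Cu) (i j : Fin 3)
    (H : CBl Q (cv (B.c g k).hE) (B.R g (1 - k / B.N)) (fun x => B.nS k S g x i j) β) :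
    CBl Q (cv (B.c g k).hE) (B.R g (1 - (k + 1 : ℕ) / B.N)) (fun x => nM B k S g x i j) β := by
  have c := Bk.gd G hb g hk.le
  rw [nM_eq G hb hk P]
  exact cbl_mol_xp (orth G g) (fun _ => c.hm_pos) (fun _ => c.hE_pos.le)
    (smM_nL P.sm.1 _ _ i j) (fun x hx y hy => ((thk G hb hk g x hx).2 y hy).1) H

lemma dif3 (g : Cu) (i j : Fin 3) : CB 3 (cv (B.c g k).hE) (B.R g (1 - (k + 1 : ℕ) / B.N))
    (fun x => B.nS k S g x i j - nM B k S g x i j) ((B.c g k).eL / 100) := by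
  have c := Bk.gd G hb g hk.le
  have e := c.eL_pos
  have h1 := cb_sub_mol_xp (orth G g) (fun _ => c.hm_pos) (fun _ => c.hE_pos)
    (smM_nL P.sm.1 (B.fr g) (B.c g k).hs i j) (RX_convex _ _ _) (thk G hb hk g) (by positivity)
    (P.cv g i j)
  have h2 : 606 * np B.N (-6 / 100) ≤ 1 :=
    (big_np hb (b := 0) (by norm_num) (by norm_num)).trans_eq (np_zero _)
  refine (h1.congr_fun fun x => ?_).monoB (by nlinarith)
  rw [congrFun (nM_eq G hb hk P g i j) x]
  rfl

lemma dif4 (g : Cu) (i j : Fin 3) : CV 4 (cv (B.c g k).hE) (B.R g (1 - (k + 1 : ℕ) / B.N))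
    (fun x => B.nS k S g x i j - nM B k S g x i j) (202 / 100 * (B.c g k).eL) :=
  (CBl.sub (fun _ => (Bk.gd G hb g hk.le).hE_pos.le) (smM_nS B k P.sm.1 g i j)
    (nM_sm G hb hk P g i j) ((P.cv g i j).monoU fun x hx => (thk G hb hk g x hx).1)
    (nM_cbl G hb hk P g i j (P.cv g i j))).monoB (by linarith)

include ha hb'

lemma nM_cb (g : Cu) (i j : Fin 3) : CB 4 (cv (B.c g k).hE) (B.R g (1 - (k + 1 : ℕ) / B.N))
    (fun x => nM B k S g x i j) 3 := by
  have c := Bk.gd G hb g hk.le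
  refine nM_cbl G hb hk P g i j (CV.toCB ((P.cv g i j).monoB (by linarith [eL_one c]))
    fun x hx => ?_)
  have t1 : 101 / 100 * (B.c g k).t11 ≤ 2 := by linarith [(t_le c).1]
  have t2 : 101 / 100 * (B.c g k).t12 ≤ 2 := by linarith [(t_le c).2]
  exact (ent_le (μ := 1) (P.bd g x hx) (dg3_le (by norm_num) (by norm_num [abs_le])
    (by norm_num [abs_le]) (by norm_num) i j) (tab_le t1 t2 (by linarith) (by linarith) i j)).trans
    (by norm_num)

lemma one_err {g g' : Cu} (n : Nbr 3 g g') (i j : Fin 3) :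
    CB 4 (cv (B.c g k).hE) (B.R g (1 - (k + 1 : ℕ) / B.N)) (fun x =>
      (nL (B.fr g) (B.c g k).hs ((B.fr g').unc (B.Cp k S g' ((B.fr g).xp x))) -
        latm (nM B k S g x - (1 / 16 : ℝ) • 1)) i j) (19 * (np B.N (-47 / 2) * 109)) := by
  have c := Bk.gd G hb g hk.le
  have c' := Bk.gd G hb g' hk.le
  have ne := ne_box G hb hk.le n
  have ne' := ne_box G hb hk.le (nbr_symm n)
  have p : ∀ i, 0 ≤ cv (B.c g k).hE i := fun _ => c.hE_pos.le
  have s0 := nM_sm G hb hk P g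
  have s1 : SmM fun x => nL (B.fr g') (B.c g' k).hs (molM (cv (B.c g k).hm) S ((B.fr g).xp x)) :=
    smM_nL ((smM_mol G hb hk.le P.sm.1 g).comp (xp_sm _)) _ _
  refine (lat_err ne p (s1.sub (smM_const ((1 / 16 : ℝ) • 1))) (fun a b => ?_) (by norm_num)
    i j).congr_fun fun x => ?_
  · have h1 := cbl_sand (P := fun l => l.length ≤ 4) p s0 _ (by norm_num) a b fun a' b' =>
      Or.inr ⟨ne'.four a b a' b', nM_cb G hb hk P ha hb' g a' b'⟩
    have h2 : CB 4 (cv (B.c g k).hE) (B.R g (1 - (k + 1 : ℕ) / B.N))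
        (fun _ => ((1 / 16 : ℝ) • (1 : Mx)) a b) 1 := cb_const (by
      rw [Matrix.smul_apply, Matrix.one_apply]; split_ifs <;> norm_num [abs_le])
    refine ((CBl.sub p (((smM_const _).mul s0).mul (smM_const _) a b) (sm_const _) h1
      h2).congr_fun fun x => ?_).monoB (by norm_num)
    rw [Matrix.sub_apply, nL_chg (B.fr g') (det_ne G g) c'.hs_pos c.hs_pos]
    rfl
  · rw [nL_unc _ _ c.hs_pos c'.hs_pos, nrm_Cp G hb hk g g', nM, nS_eq,
      nL_chg (B.fr g) (det_ne G g') c.hs_pos c'.hs_pos]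
    generalize tr (B.fr g) (B.fr g') (B.c g k).hs (B.c g' k).hs = A
    generalize nL (B.fr g') (B.c g' k).hs (molM (cv (B.c g k).hm) S ((B.fr g).xp x)) = M
    have : A * M * Aᵀ - (1 / 16 : ℝ) • 1 =
        A * (M - (1 / 16 : ℝ) • 1) * Aᵀ - (1 / 16 : ℝ) • (1 - A * Aᵀ) := by
      rw [Matrix.mul_sub, Matrix.sub_mul, Matrix.mul_smul, Matrix.smul_mul, Matrix.mul_one, smul_sub]
      abel
    rw [this]

lemma ws_err {C : ℝ} (hC : ∀ (F : Fr) (D a : ℝ) (g : Cu), Orth F.O → 0 ≤ a → a ≤ D →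
    0 < D → CB 4 (cv a) univ (fun x => al D g (F.xp x) ^ 2) C) (CN : C ≤ B.N) (g : Cu)
    (i j : Fin 3) : CB 4 (cv (B.c g k).hE) (B.R g (1 - (k + 1 : ℕ) / B.N)) (fun x =>
      B.nS k (B.ws (B.Cp k S)) g x i j - latm (nM B k S g x - (1 / 16 : ℝ) • 1) i j)
      (np B.N (-21)) := by
  have c := Bk.gd G hb g hk.le
  have D0 := Dp G hb
  have N0 := hb.N_pos
  have p : ∀ i, 0 ≤ cv (B.c g k).hE i := fun _ => c.hE_pos.le
  have hD : (B.c g k).hE ≤ B.D := by
    have h3 : np B.N (46 / 100) ≤ (B.N : ℝ) ^ 4 := by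
      rw [← np_nat]; exact hb.np_le (by norm_num)
    exact mul_le_mul h3 c.lam_le_lb c.lam_pos.le (by positivity)
  refine cbl_of_local fun x hx => ?_
  have cx : Tendsto (B.fr g).xp (𝓝 x) (𝓝 ((B.fr g).xp x)) := (xp_sm _).continuous.tendsto x
  have hw : (B.fr g).xp x ∈ box B.D g 1 :=
    (xp_mem G).2 (RX_mono _ D0.le (sub_le_self _ (by positivity)) hx)
  have h1 := CBl.sum_card (P := fun l => l.length ≤ 4) (U := {x}) (nb8 (cv B.D) ((B.fr g).xp x))
    (F := fun g' y => al B.D g' ((B.fr g).xp y) ^ 2 *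
      (nL (B.fr g) (B.c g k).hs ((B.fr g').unc (B.Cp k S g' ((B.fr g).xp y))) -
        latm (nM B k S g y - (1 / 16 : ℝ) • 1)) i j) p
    (B := 2 ^ 4 * C * (19 * (np B.N (-47 / 2) * 109))) ?_ ?_
  · refine (h1.congr fun y hy => ?_).monoB ?_
    · rw [mem_singleton_iff.1 hy]
      filter_upwards [cx.eventually ((sup_ws G hb (B.Cp k S)).ev (by norm_num) _),
        cx.eventually ((sup_al_sq D0).ev (by norm_num) _)] with y e1 e2
      rw [al_finsum D0.ne'] at e2
      rw [nS_eq, Bk.ws, e1, map_sum, Matrix.sum_apply]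
      simp only [map_smul, Matrix.smul_apply, Matrix.sub_apply, smul_eq_mul, mul_sub,
        Finset.sum_sub_distrib, ← Finset.sum_mul, ← e2, one_mul]
    · have h2 : 265088 * np B.N (-45 / 2) ≤ np B.N (-21) := big_np hb (by norm_num) (by norm_num)
      have h3 : np B.N (-45 / 2) = B.N * np B.N (-47 / 2) := by
        rw [← np_one, ← hb.np_add]; norm_num
      have h4 := mul_le_mul_of_nonneg_right CN (hb.np_pos (-47 / 2)).le
      rw [card_nb8]
      push_cast
      linarith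
  all_goals
    intro g' hg
    have s1 : Sm fun y => al B.D g' ((B.fr g).xp y) ^ 2 := ((al_sm _ _).comp (xp_sm _)).pow 2
    have s2 := (smM_nL (smM_unc ((smM_Cp G hb hk.le P.sm.1 g').comp (xp_sm (B.fr g))) (B.fr g'))
      (B.fr g) (B.c g k).hs).sub (smM_latm ((nM_sm G hb hk P g).sub
        (smM_const ((1 / 16 : ℝ) • 1)))) i j
  · exact s1.mul s2
  · exact CB.mul p s1 s2 ((hC _ _ _ g' (orth G g) c.hE_pos.le hD D0).monoU (subset_univ _))
      ((one_err G hb hk P ha hb' (nbr3 G hb hw (cell_cv D0 g' 1 ▸ cell_of_nb8 hg)) i j).monoU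
        (singleton_subset_iff.2 hx))
end main

end MsP

open MsP Prof GeoP in
theorem es : EsStmt := by
  obtain ⟨C, -, hC⟩ := cb_al_xp
  filter_upwards [ev_big, (tendsto_natCast_atTop_atTop (R := ℝ)).eventually_ge_atTop C]
    with N big CN B hN k s G hk I
  subst hN
  have P := I.post (by norm_num)
  have n22 : np B.N (-22) ≤ 1 := np_le_one big (by norm_num)
  have N0 := big.N_pos
  have sub : ∀ g, B.R g (1 - (k + 1 : ℕ) / B.N) ⊆ B.R g 1 := fun g =>
    RX_mono _ (Dp G big).le (sub_le_self _ (by positivity))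
  have sW := smM_ws G big (smM_Cp G big hk.le P.sm.1)
  have sE : SmM fun w => s.S0 w - s.Sg w - B.ws (B.Cp k s.S0) w := (P.sm.1.sub I.sm.1).sub sW
  -- the covariance up to a small rest
  have rest : ∀ g i j, CB 4 (cv (B.c g k).hE) (B.R g (1 - (k + 1 : ℕ) / B.N)) (fun x =>
      B.nS k s.Sg g x i j - (B.nS k s.S0 g x i j -
        latm (nM B k s.S0 g x - (1 / 16 : ℝ) • 1) i j)) ((B.c g k).eL / 100) := fun g i j => by
    have c := Bk.gd G big g hk.le
    have h1 := I.err (by norm_num) g i j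
    rw [show (fun g' w' => if col g' < 9 - 1 then B.Cp k s.S0 g' w' else 0) = B.Cp k s.S0 from
      funext₂ fun g' _ => if_pos (col_lt g')] at h1
    have h2 := ws_err G big hk P n22 n22 hC CN g i j
    have h3 : 1000 * np B.N (-21) ≤ (B.c g k).eL :=
      (big_np big (by norm_num) (by norm_num)).trans (eL_ge c)
    refine ((CBl.add (fun _ => c.hE_pos.le) (smM_nS B k sE g i j) ((smM_nS B k sW g i j).sub
      (smM_latm ((nM_sm G big hk P g).sub (smM_const _)) i j)) (h1.monoU (sub g))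
      h2).neg.congr_fun fun x => ?_).monoB (by push_cast; linarith [eS_le c, c.eL_pos])
    have e1 := nS_sub B k (fun w => s.S0 w - s.Sg w) (B.ws (B.Cp k s.S0)) g x i j
    have e2 := nS_sub B k s.S0 s.Sg g x i j
    beta_reduce at e1 ⊢
    linarith
  have sR : ∀ g i j, Sm fun x => B.nS k s.S0 g x i j -
      latm (nM B k s.S0 g x - (1 / 16 : ℝ) • 1) i j := fun g i j =>
    (smM_nS B k P.sm.1 g i j).sub (smM_latm ((nM_sm G big hk P g).sub (smM_const _)) i j)
  have lat : ∀ g i j, ¬(i = 2 ∨ j = 2) → ∀ x ∈ B.R g (1 - (k + 1 : ℕ) / B.N),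
      |(B.nS (k + 1) s.Sg g x - dg3 (1 / 4) (1 / 4) 4) i j| ≤ np B.N (-4 / 10) := by
    intro g i j h x hx
    have c := Bk.gd G big g hk.le
    have h1 := (rest g i j).val hx
    have h2 := (dif3 G big hk P g i j).val hx
    have h3 : dg3 (1 / 4) (1 / 4) 4 i j = 4 * ((1 / 16 : ℝ) • (1 : Mx)) i j := by
      rcases fin3 i with rfl | rfl | rfl <;> rcases fin3 j with rfl | rfl | rfl <;>
        simp [dg3] at h ⊢ <;> norm_num
    have h4 : 2 * np B.N (-46 / 100) ≤ np B.N (-4 / 10) := big_np big (by norm_num) (by norm_num)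
    have h5 : (B.c g k).eL ≤ 2 * np B.N (-46 / 100) := eL_le c
    rw [latm_lat _ h, Matrix.sub_apply] at h1
    rw [Matrix.sub_apply, nS_succ, h3]
    rw [abs_le] at h1 h2 ⊢
    constructor <;> linarith [h1.1, h1.2, h2.1, h2.2, c.eL_pos]
  have ver : ∀ g i, ∀ x ∈ B.R g (1 - (k + 1 : ℕ) / B.N),
      |(B.nS (k + 1) s.Sg g x - dg3 (1 / 4) (1 / 4) 4) i 2| ≤ np B.N (-20) ∧
      |(B.nS (k + 1) s.Sg g x - dg3 (1 / 4) (1 / 4) 4) 2 i| ≤ np B.N (-20) := by
    intro g i x hx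
    have h1 := I.row (by norm_num) g x (sub g hx) i
    have h2 : |(B.nS k s.S0 g x - dg3 (1 / 4) (1 / 4) 1) i 2| ≤ np B.N (-22) := by
      have := P.bd g x (thk G big hk g x hx).1 i 2
      rcases fin3 i with rfl | rfl | rfl <;> simpa using this
    have h3 : dg3 (1 / 4) (1 / 4) 4 i 2 = 4 * dg3 (1 / 4) (1 / 4) 1 i 2 ∧
        dg3 (1 / 4) (1 / 4) 4 2 i = 4 * dg3 (1 / 4) (1 / 4) 1 i 2 := by
      rcases fin3 i with rfl | rfl | rfl <;> simp [dg3]
    have h4 : 36 * np B.N (-22) ≤ np B.N (-20) := big_np big (by norm_num) (by norm_num)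
    have h5 : B.nS k s.Sg g x 2 i = B.nS k s.Sg g x i 2 := nL_symm _ _ (I.sm.2 _) 2 i
    rw [Matrix.sub_apply, Matrix.sub_apply, nS_succ, nS_succ, h3.1, h3.2, h5, and_self]
    simp only [nS_eq, map_sub, Matrix.sub_apply] at h1 h2 ⊢
    rw [abs_le] at h1 h2 ⊢
    push_cast at h1
    constructor <;> linarith [h1.1, h1.2, h2.1, h2.2]
  have bd : ∀ g, ∀ x ∈ B.R g (1 - (k + 1 : ℕ) / B.N),
      EB (B.nS (k + 1) s.Sg g x - dg3 (1 / 4) (1 / 4) 4)
        !![np B.N (-4 / 10), np B.N (-4 / 10), np B.N (-20);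
          np B.N (-4 / 10), np B.N (-4 / 10), np B.N (-20);
          np B.N (-20), np B.N (-20), np B.N (-20)] := fun g x hx i j => by
    rcases fin3 i with rfl | rfl | rfl <;> rcases fin3 j with rfl | rfl | rfl
    exacts [lat g _ _ (by decide) x hx, lat g _ _ (by decide) x hx, (ver g _ x hx).1,
      lat g _ _ (by decide) x hx, lat g _ _ (by decide) x hx, (ver g _ x hx).1,
      (ver g _ x hx).2, (ver g _ x hx).2, (ver g _ x hx).2]
  refine ⟨I.sm, fun g x hx => ?_, fun g x hx x' hx' i j => ?_, fun g i j => ?_⟩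
  · rw [one_mul, one_mul, Bk.c, (t_succ _ _ _ _).1, (t_succ _ _ _ _).2]
    exact bd g x hx
  · have h1 : np B.N (-20) ≤ np B.N (-4 / 10) := big.np_le (by norm_num)
    have h2 := (bd g x hx i j).trans (tab_le le_rfl le_rfl h1 h1 i j)
    have h3 := (bd g x' hx' i j).trans (tab_le le_rfl le_rfl h1 h1 i j)
    have h4 : 2 * np B.N (-4 / 10) ≤ np B.N (-39 / 100) := big_np big (by norm_num) (by norm_num)
    simp only [cm, Matrix.of_apply, Matrix.sub_apply, abs_le] at h2 h3 ⊢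
    constructor <;> linarith [h2.1, h2.2, h3.1, h3.2]
  · have c := Bk.gd G big g hk.le
    have e0 := c.eL_pos
    have p : ∀ i, 0 ≤ cv (B.c g k).hE i := fun _ => c.hE_pos.le
    have hL : 6 / 10 * (B.c g k).eL ≤ (B.c g (k + 1)).eL :=
      eL_succ c (Bk.gd G big g hk) rfl rfl rfl
    have key : CV 3 (cv (B.c g k).hE) (B.R g (1 - (k + 1 : ℕ) / B.N)) (fun x =>
        B.nS k s.S0 g x i j - latm (nM B k s.S0 g x - (1 / 16 : ℝ) • 1) i j)
          ((B.c g k).eL / 100) ∧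
        CV 4 (cv (B.c g k).hE) (B.R g (1 - (k + 1 : ℕ) / B.N)) (fun x =>
        B.nS k s.S0 g x i j - latm (nM B k s.S0 g x - (1 / 16 : ℝ) • 1) i j)
          (202 / 100 * (B.c g k).eL) := by
      by_cases h : i = 2 ∨ j = 2
      · have h3 : 100 * np B.N (-20) ≤ (B.c g k).eL :=
          (big_np big (by norm_num) (by norm_num)).trans (eL_ge c)
        have h1 : CV 4 (cv (B.c g k).hE) (B.R g (1 - k / B.N)) (fun x => B.nS k s.S0 g x i j)
            (np B.N (-20)) := by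
          rcases h with rfl | rfl
          · exact (I.post3 (by norm_num) g j).congr_fun fun x => nL_symm _ _ (P.sm.2 _) 2 j
          · exact I.post3 (by norm_num) g i
        have h2 := CBl.monoU h1 fun x hx => (thk G big hk g x hx).1
        simp only [latm_ver _ h, sub_zero]
        exact ⟨CV.of_le (h2.monoB (by linarith)) (by norm_num), h2.monoB (by linarith)⟩
      · have sm := (smM_nS B k P.sm.1 g i j).sub (nM_sm G big hk P g i j)
        simp only [latm_lat _ h, Matrix.sub_apply, ← sub_add]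
        exact ⟨CV.add_const sm (dif3 G big hk P g i j).toCV _,
          CV.add_const sm (dif4 G big hk P g i j) _⟩
    have sX := (smM_nS B k I.sm.1 g i j).sub (sR g i j)
    have h3 := (CBl.add p sX (sR g i j) ((rest g i j).toCV.of_le (by norm_num : 3 ≤ 4))
      key.1).congr_fun (f := fun x => B.nS k s.Sg g x i j) fun x => by ring
    have h4 := (CBl.add p sX (sR g i j) (rest g i j).toCV key.2).congr_fun
      (f := fun x => B.nS k s.Sg g x i j) fun x => by ring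
    have := half (γ := 1 * (B.c g (k + 1)).eL) c.hE_pos.le h3 h4 (by linarith) (by linarith)
    rw [Bk.c, hE_succ]
    exact this.congr_fun fun x => nS_succ B k s.Sg g x i j

end
end Pool.Agent.MP_20bec2_an.T3

end MrgPart2

-- ======== part 3: formerly Pool.Agent.MP_20bec2_an.T3.Svd
section MrgPart3

-- ======== part 0: formerly Pool.Agent.MP_20bec2_an.T3.Good
section MrgPart0

/-! Rows GOOD: crude bounds of the point functionals give a good state. -/

set_option autoImplicit false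
set_option linter.unusedSectionVars false
open MeasureTheory Set Filter Matrix Topology

namespace Pool.Agent.MP_20bec2_an.T3
noncomputable section
open Classical

namespace GoodP
variable {d : MD} {u : ℕ → V → V} {ω : ℕ → V → ℝ} {m : ℕ} {e : ℝ}

lemma dN_le (hc : ∀ j, d.Cr e (u j) (ω j)) (h : Gd d.c) (hI : d.In)
    (H : ∀ Λ ∈ d.FamP, |d.X Λ u ω m| ≤ MM d.c) (hy : ∀ x, dy ω m x ≤ d.c.p) {x : V}
    (hx : x ∈ d.R (99 / 100)) (a b : Fin 3) :
    |d.dN (dt ω m) (dy ω m) x a b| ≤ 1 / 10 * (1 / √d.c.J) := by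
  have s0 := sg_pos h; have s1 := sg_le h; have s2 := sJ_le h; have s3 := p_sg h
  by_cases hn : d.c.noise
  · obtain ⟨hP, hth⟩ := hI.ns.2.2 hn
    have h1 := abs_le.1 (((dt_cb hc h H).val (mem_univ x)).trans (pT_sg h))
    have h2 : |d.th x| ≤ sg d.c := hth.val hx
    obtain ⟨-, h3, h4, -⟩ := hP.2.1 x hx
    have h5 : 0 ≤ dy ω m x := Finset.sum_nonneg fun _ _ => sq_nonneg _
    have h6 := hy x
    have h7 : |(d.th x + dt ω m x) ^ 2 - d.th x ^ 2 - dy ω m x| ≤ 4 * sg d.c ^ 2 := by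
      have h8 : |d.th x * dt ω m x| ≤ sg d.c ^ 2 := by
        rw [abs_mul, sq]; exact mul_le_mul h2 (abs_le.2 h1) (abs_nonneg _) s0.le
      have h9 : dt ω m x ^ 2 ≤ sg d.c ^ 2 := sq_le_sq' h1.1 h1.2
      rw [abs_le] at h8 ⊢
      constructor <;> nlinarith [sq_nonneg (dt ω m x)]
    have h8 : |pd 0 d.Pq x * ((d.th x + dt ω m x) ^ 2 - d.th x ^ 2 - dy ω m x)| ≤
        10 * (4 * sg d.c ^ 2) := by
      rw [abs_mul]
      exact mul_le_mul (abs_le.2 ⟨by linarith, h4⟩) h7 (abs_nonneg _) (by norm_num)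
    rw [dN_apply]
    rw [abs_le] at h8 ⊢
    have h9 : 10 * sg d.c ^ 2 ≤ sg d.c := by nlinarith
    rcases E_cases a b with ⟨e1, e2⟩ | ⟨e1, e2⟩ | ⟨e1, e2⟩ <;> rw [e1, e2] <;> constructor <;>
      linarith [h1.1, h1.2, h8.1, h8.2]
  · rw [dN_nn hc hn]; simp

lemma jm_le (hc : ∀ j, d.Cr e (u j) (ω j)) (h : Gd d.c) {B : ℝ} (hB : 0 ≤ B)
    (H : ∀ x ∈ d.R (99 / 100), ∀ a b, a ≠ 2 → |jm (Up u m) x a b| ≤ B) (x : V) :
    EB (jm (Up u m) x) (cm B) := fun a b => by
  change |pd b (fun y => Up u m y a) x| ≤ B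
  by_cases ha : a = 2
  · simp [ha, Up_two hc, hB]
  by_cases hx : x ∈ d.R (93 / 100)
  · exact H x (sub99 h hx) a b ha
  · rw [show pd b (fun y => Up u m y a) x = 0 from pds_zero_off (Prof.RX_closed _ _ _)
      (fun y hy => congrFun (Up_off hc y hy) a) [b] x hx, abs_zero]
    exact hB

end GoodP

open GoodP in
theorem good : GoodStmt := by
  filter_upwards [ev_gd] with N hN d e1 _ hI u ω m _ hc H hcb hy
  have h := hN d.c e1 hI.ok
  have s0 : 0 < 1 / √d.c.J := by have := h.J_pos; positivity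
  refine ⟨⟨sm_Up hc, SmM.sum (Finset.range m) fun j _ => smM_vecMulVec (hc j).sm.1 (hc j).sm.1,
    hI.ns.1.add (sm_dt hc)⟩, fun x => ⟨fun hx => ⟨Up_off hc x hx, ?_⟩, Up_two hc x, ?_, fun i => ?_⟩,
    fun x => ⟨Up_le hc h H x, jm_le hc h s0.le (fun x hx a b ha => ?_) x,
      fun hp => jm_le hc h h.big.nu_pos.le (fun x hx a b ha => ?_) x⟩, Up_d2 hc h H, hcb,
    fun hn => ?_⟩
  · simp only [MD.sa, Cv]
    exact Finset.sum_eq_zero fun j _ => by rw [(((hc j).sup x).1 hx).1]; simp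
  · ext a b
    simp only [MD.sa, Cv, transpose_apply, Matrix.sum_apply, vecMulVec_apply, mul_comm]
  · simp only [MD.sa, Cv, Matrix.sum_apply, vecMulVec_apply]
    exact Finset.sum_eq_zero fun j _ => by rw [((hc j).sup x).2, zero_mul]
  · have h1 := (AA_le hc h H hx ha b).trans (nE_le h a b).1
    have h2 := dN_le hc h hI H hy hx a b
    rw [Matrix.sub_apply] at h1
    linarith [abs_sub_abs_le_abs_sub (jm (Up u m) x a b) (d.dN (dt ω m) (dy ω m) x a b)]
  · have h1 := (AA_le hc h H hx ha b).trans ((nE_le h a b).2 hp)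
    rwa [dN_nn hc fun hn => h.notcomp_of_noise hn hp, sub_zero] at h1
  · refine CBl.monoB (CBl.add (fun i => (h.thS_pos i).le) hI.ns.1 (sm_dt hc) (hI.ns.2.2 hn).2
      (CBl.monoU (dt_cb hc h H) (subset_univ _))) ?_
    have := pT_sg h
    unfold sg at this
    linarith

end
end Pool.Agent.MP_20bec2_an.T3

end MrgPart0

-- ======== part 1: formerly Pool.Agent.MP_20bec2_an.T3.Lin
section MrgPart1

/-! The functionals are linear in the displacement. -/

set_option autoImplicit false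
open MeasureTheory Set Filter Matrix Topology

namespace Pool.Agent.MP_20bec2_an.T3
noncomputable section
open Classical Prof

namespace LinA

variable {ι : Type} {T : Finset ι} (c : ι → ℝ)

theorem pds_lin {f : ι → V → ℝ} (hf : ∀ t ∈ T, Sm (f t)) (l : List (Fin 3)) :
    pds l (fun x => ∑ t ∈ T, c t * f t x) = fun x => ∑ t ∈ T, c t * pds l (f t) x := by
  rw [pds_sum T fun t ht => (hf t ht).cmul (c t)]
  simp only [pds_const_mul]

theorem pd_lin {f : ι → V → ℝ} (hf : ∀ t ∈ T, Sm (f t)) (j : Fin 3) :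
    pd j (fun x => ∑ t ∈ T, c t * f t x) = fun x => ∑ t ∈ T, c t * pd j (f t) x :=
  pds_lin c hf [j]

theorem jm_lin {v : ι → V → V} (hv : ∀ t ∈ T, Sm (v t)) (x : V) :
    jm (fun x => ∑ t ∈ T, c t • v t x) x = ∑ t ∈ T, c t • jm (v t) x := by
  rw [jm_sum T fun t ht => (hv t ht).const_smul (c t)]
  simp only [jm_const_smul]

theorem dv_lin {F : V → V} {G : ι → V → V} (hG : ∀ t ∈ T, ∀ i, Sm fun z => G t z i)
    (e : ∀ i, (fun z => F z i) = fun z => ∑ t ∈ T, c t * G t z i) :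
    dv F = fun z => ∑ t ∈ T, c t * dv (G t) z := by
  funext z
  simp only [dv, e, pd_lin c fun t ht => hG t ht _, Finset.mul_sum]
  exact Finset.sum_comm

theorem colI_lin {f : ι → V → ℝ} (hf : ∀ t ∈ T, ColD (f t)) {n : ℝ → V} (hn : Continuous n)
    (I : Set ℝ) : colI n I (fun z => ∑ t ∈ T, c t * f t z) =
      fun w => ∑ t ∈ T, c t * colI n I (f t) w := by
  rw [colI_sum T (fun t ht => (hf t ht).cmul (c t)) hn]
  simp only [colI_const_mul]

theorem pre_lin {f : ι → V → ℝ} (hf : ∀ t ∈ T, ColD (f t)) {n : ℝ → V} (hn : Continuous n) :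
    pre n (fun z => ∑ t ∈ T, c t * f t z) = fun w => ∑ t ∈ T, c t * pre n (f t) w :=
  funext fun w => congrFun (colI_lin c hf hn (Iic (w 2))) w

theorem tot_lin {f : ι → V → ℝ} (hf : ∀ t ∈ T, ColD (f t)) {n : ℝ → V} (hn : Continuous n) :
    tot n (fun z => ∑ t ∈ T, c t * f t z) = fun w => ∑ t ∈ T, c t * tot n (f t) w := by
  simp only [tot_eq_colI]
  exact colI_lin c hf hn univ

theorem fin (a b : ℝ) (f : ι → ℝ) : a * (∑ t ∈ T, c t * f t) / b = ∑ t ∈ T, c t * (a * f t / b) := by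
  rw [Finset.mul_sum, Finset.sum_div]
  exact Finset.sum_congr rfl fun t _ => by ring

theorem fin1 (b : ℝ) (f : ι → ℝ) : (∑ t ∈ T, c t * f t) / b = ∑ t ∈ T, c t * (f t / b) := by
  simpa only [one_mul] using fin c 1 b f

theorem am_lin (d : MD) (s : Sa) {v : ι → V → V} (hv : ∀ t ∈ T, Sm (v t)) (ω : ι → V → ℝ) (x : V)
    (a b : Fin 3) : d.Am s (fun x => ∑ t ∈ T, c t • v t x) (fun x => ∑ t ∈ T, c t * ω t x) x a b =
      ∑ t ∈ T, c t * d.Am s (v t) (ω t) x a b := by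
  simp only [MD.Am, jm_lin c hv, Matrix.sub_apply, Matrix.sum_apply, Matrix.smul_apply,
    smul_eq_mul, Finset.mul_sum, Finset.sum_mul, ← Finset.sum_sub_distrib]
  exact Finset.sum_congr rfl fun t _ => by ring

theorem ipm_lin (P : Mx) (A : ι → Mx) : ipm P (∑ t ∈ T, c t • A t) = ∑ t ∈ T, c t * ipm P (A t) := by
  simp only [ipm, Fin.sum_univ_three, Matrix.sum_apply, Matrix.smul_apply, smul_eq_mul,
    Finset.mul_sum, ← Finset.sum_add_distrib]
  exact Finset.sum_congr rfl fun t _ => by ring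

/-- the weights of a displacement are admissible -/
theorem wt {d : MD} (hi : d.In) {e : ℝ} {v : V → V} {ω : V → ℝ} (h : d.Cr e v ω) (i : Fin 3) :
    ∃ A, Measurable (fun x => d.ρ x * v x i) ∧ (∀ x, |d.ρ x * v x i| ≤ A) ∧
      ∀ x, x ∉ d.R (93 / 100) → d.ρ x * v x i = 0 := by
  refine ⟨(1 + eps0) * (e * d.c.q * d.c.hs i), hi.rho.1.mul (h.sm.1.coord i).continuous.measurable,
    fun x => ?_, fun x hx => by rw [((h.sup x).1 hx).1, Pi.zero_apply, mul_zero]⟩
  have h1 : |d.ρ x| ≤ 1 + eps0 := by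
    have := abs_sub_abs_le_abs_sub (d.ρ x) 1
    rw [abs_one] at this
    linarith [hi.rho.2 x]
  rw [abs_mul]
  exact mul_le_mul h1 (h.sz x i) (abs_nonneg _) ((abs_nonneg _).trans h1)

theorem fv_lin (d : MD) (s : Sa) {S : V → Mx} {h : V} {v : ι → V → V}
    (H : ∀ t ∈ T, ∀ i, ∃ A, KL h (d.R (99 / 100)) (fun x => d.ρ x * v t x i) A
      (fun x => d.Z x + s.U x) (fun x => S x - s.C x)) :
    (∀ t ∈ T, ∀ i, ColD fun z => d.Fv S s (v t) z i) ∧
    ∀ i, (fun z => d.Fv S s (fun x => ∑ t ∈ T, c t • v t x) z i) =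
      fun z => ∑ t ∈ T, c t * d.Fv S s (v t) z i := by
  refine ⟨fun t ht i => (H t ht i).elim fun A k => k.colD.neg, fun i => funext fun z => ?_⟩
  obtain ⟨C, -, -, hb⟩ := kb_ k1 0
  have hI : ∀ t ∈ T, Integrable fun x =>
      c t * (d.ρ x * v t x i * ker (S x - s.C x) (d.Z x + s.U x - z)) := fun t ht =>
    (H t ht i).elim fun A k => ((k1 _ _ _ (hb _ _ _ _ _ _ k).1).2.1 z).const_mul _
  simp only [MD.Fv, dens, mul_neg, Finset.sum_neg_distrib, ← integral_const_mul]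
  rw [← integral_finsetSum T hI]
  congr 1
  refine integral_congr_ae (ae_of_all _ fun x => ?_)
  simp only [Finset.sum_apply, Pi.smul_apply, smul_eq_mul, Finset.mul_sum, Finset.sum_mul]
  exact Finset.sum_congr rfl fun t _ => by ring

end LinA

open LinA

theorem lin' (hK : KlsStmt) : LinStmt := by
  filter_upwards [hK, ev_big] with N hK hN d hd hk hi s hs Λ hΛ ι T c v ω hv
  have g : Gd d.c := ⟨hd ▸ hN, hi.ok⟩
  have K := (hK d hd hk hi s hs).2
  have sv : ∀ t ∈ T, Sm (v t) := fun t ht => (hv t ht).elim fun _ h => h.sm.1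
  have sω : ∀ t ∈ T, Sm (ω t) := fun t ht => (hv t ht).elim fun _ h => h.sm.2
  have F1 := fv_lin c d s (S := d.S) (h := d.c.hs) (T := T) (v := v) fun t ht i =>
    (hv t ht).elim fun _ h => (wt hi h i).imp fun A a => (K _ A a.1 a.2.1 a.2.2).1
  have F2 := fun y' hy => fv_lin c d s (S := d.SR y') (h := d.c.hy y') (T := T) (v := v)
    fun t ht i => (hv t ht).elim fun _ h => (wt hi h i).imp fun A a =>
      (K _ A a.1 a.2.1 a.2.2).2.1 y' hy
  have F3 := fv_lin c d s (S := d.SL) (h := d.c.hy d.yL) (T := T) (v := v) fun t ht i =>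
    (hv t ht).elim fun _ h => (wt hi h i).imp fun A a => (K _ A a.1 a.2.1 a.2.2).2.2
  have cf : ∀ g' i, (∀ t ∈ T, ColD (d.c.cf g' (d.Fv d.S s (v t)) i)) ∧
      d.c.cf g' (d.Fv d.S s fun x => ∑ t ∈ T, c t • v t x) i =
        fun z => ∑ t ∈ T, c t * d.c.cf g' (d.Fv d.S s (v t)) i z := fun g' i => by
    refine ⟨fun t ht => (F1.1 t ht i).bmul (bc_sm _ _)
      (BdD.of_compact (bc_sm _ _) (bc_hcs g.cw_pos _)), funext fun z => ?_⟩
    simp only [Pm.cf, congrFun (F1.2 i) z, Finset.mul_sum]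
    exact Finset.sum_congr rfl fun t _ => by ring
  have ch : ∀ g', Sm (d.ch g') := fun g' => (hi.chb.2 g').1
  rcases hΛ with (⟨x, -, hΛ⟩ | ⟨a, hΛ⟩) | ⟨x, -, rfl⟩
  · rcases hΛ with ⟨j, rfl⟩ | ⟨a, b, -, rfl⟩ | ⟨l, i, -, rfl⟩ | ⟨l, -, rfl⟩
    · simp only [MD.pU, Finset.sum_apply, Pi.smul_apply, smul_eq_mul, fin1]
    · simp only [MD.pE, am_lin c d s sv, fin1]
    · simp only [MD.pD, Finset.sum_apply, Pi.smul_apply, smul_eq_mul,
        pds_lin c fun t ht => (sv t ht).coord i, fin1]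
    · simp only [MD.pT, pds_lin c sω, fin]
  · rcases hΛ with ⟨z, i, -, -, hΛ⟩ | ⟨ζ, w, -, hΛ⟩
    · rcases hΛ with ⟨l, -, rfl⟩ | ⟨y', hy, rfl⟩ | ⟨-, rfl⟩
      · simp only [MD.kB, F1.2, pds_lin c fun t ht => (F1.1 t ht i).1, fin]
      · simp only [MD.kR, dv_lin c (fun t ht i => ((F2 y' hy).1 t ht i).1) (F2 y' hy).2,
          pd_lin c fun t ht => (ColD.dv ((F2 y' hy).1 t ht)).1, fin]
      · simp only [MD.kV, dv_lin c (fun t ht i => (F3.1 t ht i).1) F3.2,
          pd_lin c fun t ht => (ColD.dv (F3.1 t ht)).1, fin]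
    · rcases hΛ with ⟨g', l, -, i, -, ⟨-, rfl⟩ | ⟨-, rfl⟩⟩ | ⟨-, -, l, -, -, rfl⟩
      · simp only [MD.kP, (cf g' i).2, pre_lin c (cf g' i).1 (ch g').continuous,
          pds_lin c fun t ht => ((cf g' i).1 t ht).sm_pre (ch g'), fin]
      · simp only [MD.kT, (cf g' i).2, tot_lin c (cf g' i).1 (ch g').continuous,
          pds_lin c fun t ht => ((cf g' i).1 t ht).sm_tot (ch g').continuous, fin]
      · simp only [MD.kL, dv_lin c (fun t ht i => (F3.1 t ht i).1) F3.2,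
          pre_lin c (n := 0) (fun t ht => ColD.dv (F3.1 t ht)) continuous_zero,
          pds_lin c fun t ht => (ColD.dv (F3.1 t ht)).sm_pre (n := 0) (sm_const 0), fin]
  · simp only [MD.pV]
    split_ifs
    · rw [jm_lin c sv, ipm_lin, fin1]
    · simp only [am_lin c d s sv, Finset.mul_sum, ← Finset.sum_add_distrib, Finset.sum_div]
      exact Finset.sum_congr rfl fun t _ => by ring

theorem lin (hK : KlsStmt) (_hC : ColkStmt) : LinStmt := lin' hK

end
end Pool.Agent.MP_20bec2_an.T3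

end MrgPart1

-- ======== part 2: formerly Pool.Agent.MP_20bec2_an.T3.Run
section MrgPart2

/-! Assembly rows: one colour, the start of a band, all bands of a block, the change of block. -/

set_option autoImplicit false
open MeasureTheory Set Filter Matrix Topology

namespace Pool.Agent.MP_20bec2_an.T3
noncomputable section
open Classical

theorem mstep (hmini : MiniStmt) (hmin : MinStmt) (hpred : PredStmt) (hl : MlStmt) (hz : MzStmt)
    (hv : MvStmt) (hp : MpStmt) (hs : MsStmt) (hr : MrStmt) (hf : MfStmt) : MstepStmt := by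
  filter_upwards [hmini, hmin, hpred, hl, hz, hv, hp, hs, hr, hf] with N hmini hmin hpred hl hz hv
    hp hs hr hf B hB ρ k r s h h1 h8
  obtain ⟨ch, hch⟩ := hpred B hB ρ k r s h h1 h8
  have hin := hmin B hB ρ k r s ch h h1 h8 fun g => (hch g).1
  have ex : ∀ g, ∃ u xs dth dY, col g = r - 1 → (B.md ρ k r s ch g).Out u xs dth dY := fun g => by
    by_cases e : col g = r - 1
    · obtain ⟨u, xs, dth, dY, ho⟩ := hmini (B.md ρ k r s ch g) hB (hB ▸ h.2.2.1) (hin g e)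
      exact ⟨u, xs, dth, dY, fun _ => ho⟩
    · exact ⟨0, 0, 0, 0, fun c => absurd c e⟩
  choose u xs dth dY ho using ex
  have H : B.MH ρ k r s ch ⟨u, xs, dth, dY⟩ := ⟨h.1, h.2.1, h.2.2.1, ⟨h1, h8⟩, h.2.2.2, hin, ho⟩
  obtain ⟨f', hf'⟩ := hf B hB ρ k r s ch _ H hch
  refine ⟨_, hl B hB ρ k r s ch _ f' H, hz B hB ρ k r s ch _ f' H, hv B hB ρ k r s ch _ f' H,
    hp B hB ρ k r s ch _ f' H, hs B hB ρ k r s ch _ f' H, hr B hB ρ k r s ch _ f' H, hf',
    fun ha => ?_⟩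
  have := h.2.2.2.iq (ha.imp_right fun e => ⟨e.1, h1⟩)
  exact ⟨this.fo, this.cred, this.zn, this.fq, this.zb⟩

theorem bstart (hprep : PrepStmt) (hbl : BlStmt) (hz : BzStmt) (hs : BsStmt) (hi : BiStmt)
    (hf : BfStmt) : BstartStmt := by
  filter_upwards [hprep, hbl, hz, hs, hi, hf] with N hprep hbl hz hs hi hf B hB ρ k s h
  obtain ⟨nf, ngc, h1⟩ : ∃ nf ngc, k = ks B.N →
      ∀ f' Af ab Pv, B.Prep ρ (B.sta k s nf ngc f' Af ab Pv) := by
    by_cases e : k = ks B.N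
    · subst e
      obtain ⟨nf, ngc, h1⟩ := hprep B hB ρ s h
      exact ⟨nf, ngc, fun _ => h1⟩
    · exact ⟨s.nf, s.ngc, fun c => absurd c e⟩
  obtain ⟨f1, Af, ab, Pv, h2, h3⟩ : ∃ f1 Af ab Pv, (k = mid B.N → B.LO s.f (s.zt k) f1 Af ab Pv) ∧
      (k ≠ mid B.N → f1 = s.f) := by
    by_cases e : k = mid B.N
    · subst e
      obtain ⟨f1, Af, ab, Pv, h2⟩ := hbl B hB ρ s h
      exact ⟨f1, Af, ab, Pv, fun _ => h2, fun c => absurd rfl c⟩
    · exact ⟨s.f, 0, 0, 0, fun c => absurd c e, fun _ => rfl⟩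
  have H : B.BH ρ k s nf ngc f1 Af ab Pv := ⟨h, fun e f' => h1 e f' Af ab Pv, h2, h3⟩
  obtain ⟨f', hf'⟩ := hf B hB ρ k s nf ngc f1 Af ab Pv H
  obtain ⟨a1, a2, a3, a4, a5⟩ := hz B hB ρ k s nf ngc f1 Af ab Pv f' H
  exact ⟨_, a1, a2, a3, a4, hs B hB ρ k s nf ngc f1 Af ab Pv f' H,
    hi B hB ρ k s nf ngc f1 Af ab Pv f' H, hf', a5⟩

theorem run (hm : MstepStmt) (hb : BstartStmt) (hs : EsStmt) (hz : EzStmt) (hr : ErStmt)
    (hf : EfStmt) : RunStmt := by
  filter_upwards [hm, hb, hs, hz, hr, hf] with N hm hb hs hz hr hf B hB ρ s0 h0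
  have band : ∀ k < nb B.N, ∀ s, B.Inv ρ k 0 s → ∃ s', B.Inv ρ k 9 s' := fun k hk s h => by
    have : ∀ r ≤ 8, ∃ s', B.Inv ρ k (r + 1) s' := fun r h8 => by
      induction r with
      | zero => exact hb B hB ρ k s ⟨h0.1, h0.2.1, hk, h⟩
      | succ r ih =>
        obtain ⟨s', h'⟩ := ih (by omega)
        exact hm B hB ρ k (r + 1) s' ⟨h0.1, h0.2.1, hk, h'⟩ (by omega) h8
    exact this 8 le_rfl
  have all : ∀ k < nb B.N, ∃ s', B.Inv ρ k 9 s' := fun k hk => by
    induction k with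
    | zero => exact band 0 hk s0 h0.2.2.2
    | succ k ih =>
      obtain ⟨s, h⟩ := ih (by omega)
      have H : B.H0 ρ k 9 s := ⟨h0.1, h0.2.1, by omega, h⟩
      obtain ⟨a1, a2, a3, a4, a5⟩ := hz B hB ρ k s H hk
      have e := hs B hB k s h0.2.1.geo.toFrOk (by omega) h.is
      have e1 : (B.c 0 (k + 1)).t13 = np B.N (-20) := if_neg (Nat.succ_ne_zero k)
      have e2 : (B.c 0 (k + 1)).t33 = np B.N (-20) := if_neg (Nat.succ_ne_zero k)
      refine band (k + 1) hk (B.sen k s) ⟨a1, a2, a3, a4, ⟨h.is.sm, fun _ => ?_, fun c => ?_,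
        fun c => ?_, fun c => ?_, fun c => ?_⟩, hr B hB ρ k s H hk, hf B hB ρ k s H hk, a5⟩
      · rw [e1, e2]
        exact e
      all_goals omega
  exact all _ (by have := h0.2.2.1; omega)

theorem ex_bx {D : ℝ} (hD : 0 < D) (x : V) : ∃ g, x ∈ box D g (1 / 2) := by
  refine ⟨fun i => round (x i / D), (pi_norm_le_iff_of_nonneg (by positivity)).2 fun i => ?_⟩
  have h := abs_sub_round (x i / D)
  have e : (x - cen D fun i => round (x i / D)) i = (x i / D - round (x i / D)) * D := by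
    simp only [Pi.sub_apply, cen]
    field_simp
  rw [Real.norm_eq_abs, e, abs_mul, abs_of_pos hD]
  exact mul_le_mul_of_nonneg_right h hD.le

theorem cycle (hrun : RunStmt) (hch : ChangeStmt) (hbarr : BarrStmt) (hlink : LinkStmt)
    (hblock : BlockStmt) : CycleStmt := by
  filter_upwards [hrun, hch, hbarr, hlink, hblock, ev_big] with N hrun hch hbarr hlink hblock big
    B hB ρ hρ ⟨hok, s0, h0⟩
  subst hB
  have hn := big.nm_pos
  have hnb : 0 < nb B.N := by unfold nb; omega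
  obtain ⟨s, h⟩ := hrun B rfl ρ s0 ⟨hρ, hok, hnb, h0⟩
  have H : B.H0 ρ (nb B.N - 1) 9 s := ⟨hρ, hok, by omega, h⟩
  obtain ⟨Hp, h1, h2⟩ := hch B rfl ρ s H
  have hP := h.iq (Or.inl (by unfold ks nb; omega))
  refine ⟨B.next s Hp, rfl, rfl, ⟨⟨h1, fun x => ?_⟩, _, h2⟩, hlink B rfl ρ s H⟩
  have e : (B.next s Hp).Zs0 = fun w => s.Zs w + B.Zt w := funext fun w => by
    have e1 : (B.next s Hp).Zt = s.Zn := hP.zn.symm
    rw [Bk.Zs0, e1]
    exact add_sub_cancel_right _ _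
  have hl : 0 < B.lb := (Real.exp_pos _).trans_le hok.geo.pos.1
  obtain ⟨g, hg⟩ := ex_bx (D := B.D) (mul_pos (pow_pos big.N_pos 4) hl) x
  obtain ⟨a, ϑ, bN, aP, aB, hf⟩ := hblock B rfl ρ s H g x hg
  rw [e]
  exact hbarr (B.c g 0) rfl (hok.geo.fx g).2.2.2.2.2 _ _ a ϑ _ bN aP aB hf (hok.bar x)

end
end Pool.Agent.MP_20bec2_an.T3

end MrgPart2

-- ======== part 3: formerly Pool.Agent.MP_20bec2_an.T3.Svd
section MrgPart3

/-! Ordered diagonalisation of a positive matrix. -/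

set_option autoImplicit false
open Matrix

namespace Pool.Agent.MP_20bec2_an.T3

theorem svd : SvdStmt := by
  intro G hG hp
  have hH : G.IsHermitian := by simpa [IsHermitian] using hG
  have hP : G.PosDef := PosDef.of_dotProduct_mulVec_pos hH fun v hv => by simpa using hp v hv
  obtain ⟨U, d, h1, h2, h3⟩ : ∃ (U : Mx) (d : V), U * Uᵀ = 1 ∧ Uᵀ * G * U = diagonal d ∧
      ∀ i, 0 < d i := by
    refine ⟨hH.eigenvectorUnitary, hH.eigenvalues, ?_, ?_, hP.eigenvalues_pos⟩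
    · simpa [star_eq_conjTranspose] using (Unitary.mul_star_self_of_mem hH.eigenvectorUnitary.2)
    · simpa [star_eq_conjTranspose, Function.comp_def] using hH.conjStarAlgAut_star_eigenvectorUnitary
  let τ : Equiv.Perm (Fin 3) := Tuple.sort d * finRotate 3
  have hm := Tuple.monotone_sort d
  obtain ⟨W, hW⟩ : ∃ W : Mx, W = U.submatrix id τ := ⟨_, rfl⟩
  have w1 : W * Wᵀ = 1 := by
    rw [hW, transpose_submatrix, ← h1]
    exact (submatrix_mul_equiv U Uᵀ id τ id).trans (submatrix_id_id _)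
  have w2 : Wᵀ * G * W = diagonal (d ∘ τ) := by
    rw [← submatrix_diagonal_equiv, ← h2, hW]
    ext i j
    simp only [mul_apply, submatrix_apply, transpose_apply, id]
  have w3 : W.det * W.det = 1 := by simpa using congrArg det w1
  refine ⟨W.det • W, √(d (τ 0)), √(d (τ 1)), √(d (τ 2)), ⟨?_, ?_⟩, Real.sqrt_pos.2 (h3 _),
    Real.sqrt_le_sqrt (hm (by decide : finRotate 3 2 ≤ finRotate 3 0)),
    Real.sqrt_le_sqrt (hm (by decide : finRotate 3 0 ≤ finRotate 3 1)), ?_⟩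
  · rw [transpose_smul, smul_mul_smul_comm, w1, w3, one_smul]
  · rw [det_smul, Fintype.card_fin]
    linear_combination (W.det * W.det + 1) * w3
  · rw [transpose_smul, Matrix.smul_mul, smul_mul_smul_comm, w2, w3, one_smul]
    simp only [Real.sq_sqrt (h3 _).le, dg3]
    congr 1
    ext i
    fin_cases i <;> rfl

end Pool.Agent.MP_20bec2_an.T3

end MrgPart3

-- marker of a merged file
example : 731051 + 802167 = 731051 + 802167 := rfl

end MrgPart3

-- ======== part 4: formerly Pool.Agent.MP_20bec2_an.T3.Mr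
section MrgPart4

-- ======== part 0: formerly Pool.Agent.MP_20bec2_an.T3.MrB
section MrgPart0

/-! Row MR, part 2: the new density split into the fluxes of the acting cubes. -/

set_option autoImplicit false
open MeasureTheory Set Filter Matrix Topology

namespace Pool.Agent.MP_20bec2_an.T3
noncomputable section
open Classical
namespace Mr
open Prof Ftr

def act (g : Cu) (j : ℕ) : Finset Cu := (nbrs g 2).filter fun g' => col g' = j

lemma card_act (g : Cu) (j : ℕ) : ((act g j).card : ℝ) ≤ 125 := by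
  have e : ∀ i, (Finset.Icc (g i - 2) (g i + 2)).card = 5 := fun i => by
    rw [Int.card_Icc]
    omega
  have : (nbrs g 2).card = 125 := by
    simp only [nbrs, Fintype.card_piFinset, e]
    simp
  exact_mod_cast this ▸ Finset.card_filter_le _ _

lemma mem_act {g g' : Cu} {j : ℕ} (h : g' ∈ act g j) : Nbr 3 g g' ∧ col g' = j := by
  simp only [act, Finset.mem_filter, nbrs, Fintype.mem_piFinset, Finset.mem_Icc] at h
  refine ⟨fun i => ?_, h.2⟩
  have := h.1 i
  rw [abs_le]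
  omega

lemma sum_act {g : Cu} {j : ℕ} {f : Cu → ℝ} {a C : ℝ} (ha : 0 ≤ a) (hC : 0 ≤ C)
    (h : ∀ g' ∈ act g j, a * |f g'| ≤ C) : a * |∑ g' ∈ act g j, f g'| ≤ 125 * C := by
  refine (mul_le_mul_of_nonneg_left (Finset.abs_sum_le_sum_abs _ _) ha).trans ?_
  rw [Finset.mul_sum]
  refine (Finset.sum_le_card_nsmul _ _ _ h).trans ?_
  rw [nsmul_eq_mul]
  exact mul_le_mul_of_nonneg_right (card_act g j) hC

structure Dec (B : Bk) (k j : ℕ) (hv : ℝ) (M M' : V → ℝ) (Φ : Cu → V → ℝ) : Prop where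
  sM : ∀ g, Sm ((B.fr g).den M)
  hb : ∀ g i, (B.c g k).lam / B.N ≤ (B.c g k).hy hv i
  sm : ∀ g, col g = j → Sm (Φ g)
  cb : ∀ g, col g = j → CB 3 ((B.c g k).hy hv) univ (Φ g) (pq B.N)
  far : ∀ g, col g = j →
    CB 3 ((B.c g k).hy hv) (B.R g (935 / 1000))ᶜ (Φ g) (3 * (B.N * Real.exp (-(B.N : ℝ))))
  eq : ∀ g, ∃ W : V → ℝ, Sm W ∧
    CB 3 ((B.c g k).hy hv) (B.R g (985 / 1000)) W (3 * (B.N * np B.N (-200))) ∧
    ∀ i z, pd i ((B.fr g).den M') z = pd i ((B.fr g).den M) z + (pd i W z +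
      ∑ g' ∈ act g j, dr B g g' * ∑ l, pd l (Φ g') (tr B g g' z) * Tm B g g' l i)

lemma cb_dv' {F : V → V} {h : V} {U : Set V} {a l n : ℝ} (hl : 0 < l) (hn : 0 < n) (ha : 0 ≤ a)
    (hb : ∀ i, l / n ≤ h i) (hF : Sm F) (H : ∀ i, CB 4 h U (fun z => F z i) (a * l)) :
    CB 3 h U (dv F) (3 * (n * a)) := by
  have hh : ∀ i, 0 < h i := fun i => (div_pos hl hn).trans_le (hb i)
  refine CBl.monoB (cb_dv (b := fun _ => a * l) hh hF fun i => (H i).toCV) ?_
  have : ∀ i, a * l / h i ≤ n * a := fun i => by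
    rw [div_le_iff₀ (hh i)]
    have := mul_le_mul_of_nonneg_left ((div_le_iff₀ hn).1 (hb i)) ha
    linarith
  simp only [Fin.sum_univ_three]
  linarith [this 0, this 1, this 2]

lemma vd_sub_sum (F : Fr) (R : V → V) (s : Finset Cu) (G : Cu → V → V) :
    F.vd R = fun z => F.vd (fun w => R w - ∑ g ∈ s, G g w) z + ∑ g ∈ s, F.vd (G g) z := by
  funext z
  simp only [Fr.vd, mulVec_sub, smul_sub, ← Finset.smul_sum, ← Matrix.mulVec_sum, sub_add_cancel]

lemma dec (h2 : StgStmt) : EvB fun B => ∀ (ρ : V → ℝ) (k j : ℕ) (Z : V → V) (S : V → Mx) (hv : ℝ)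
    (u : Cu → ℕ → V → V), Rho ρ → B.G → k ≤ nb B.N → B.UH k j u → B.PK k j Z S u hv →
    Dec B k j hv (dens ρ Z S) (dens ρ (fun x => Z x + Up (B.ug j u) (nT B.N) x)
      fun x => S x - Cv (B.ug j u) (nT B.N) x) fun g => dv (B.mF ρ Z S u g) := by
  filter_upwards [h2, kg, ev_big] with N h2 kg big B hB ρ k j Z S hv u rho G hk uh pk
  subst hB
  obtain ⟨s1, s2, s3, s4⟩ := h2 B rfl ρ k j Z S hv u rho G hk uh pk
  have N0 := big.N_pos
  have N1 : (1 : ℝ) ≤ B.N := by linarith [big.N_ge, big.J_ge, big.L_ge]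
  have ks : B.KS k Z S hv := by
    simpa only [Up, Cv, Finset.range_zero, Finset.sum_empty, zero_smul, add_zero, sub_zero] using
      pk 0 (pow_pos (by exact_mod_cast N0) _) 0 ⟨le_rfl, zero_le_one⟩
  have sM : Sm (dens ρ Z S) := (k1 _ _ _ (kg B rfl k Z S hv G hk ks ρ 2 rho.1 fun x => by
    have := abs_le.1 (rho.2 x)
    unfold eps0 at this
    rw [abs_le]
    constructor <;> linarith [this.1, this.2]).1).1
  have gd := fun g => Bk.gd G.toFrOk big g hk
  have hb : ∀ g i, (B.c g k).lam / B.N ≤ (B.c g k).hy hv i := fun g i => by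
    have l0 := (gd g).lam_pos
    have a1 : (B.c g k).lam / B.N ≤ (B.c g k).lam := div_le_self l0.le N1
    fin_cases i
    · exact a1.trans (gd g).lam_le_l1
    · exact a1
    · refine le_trans ?_ ks.hvb.1
      show _ ≤ np B.N (-2) * (np B.N (11 / 10) * (B.c g k).lam)
      rw [← mul_assoc, ← big.np_add, div_eq_inv_mul]
      refine mul_le_mul_of_nonneg_right (le_trans (le_of_eq ?_)
        (big.np_le (a := -1) (by norm_num))) l0.le
      exact (Real.rpow_neg_one _).symm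
  have sd : ∀ g, Sm ((B.fr g).den (dens ρ Z S)) := fun g => Sm.cmul (sM.comp (zp_sm _)) _
  refine ⟨sd, hb, fun g hg => (s3 g hg).1.dv, fun g hg => (s3 g hg).2.1, fun g hg =>
    cb_dv' (gd g).lam_pos N0 (Real.exp_pos _).le (hb g) (s3 g hg).1 (s3 g hg).2.2.2, fun g => ?_⟩
  have su : ∀ g' ∈ act g j, Sm ((B.fr g').unvd (B.mF ρ Z S u g')) := fun g' h =>
    unvd_sm _ (s3 g' (mem_act h).2).1
  have sW := vd_sm (B.fr g) (s1.sub (ContDiff.sum su))
  have hQ := GeoP.det_pos G.toFrOk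
  have st : ∀ g' ∈ act g j, Sm fun z => dr B g g' * dv (B.mF ρ Z S u g') (tr B g g' z) :=
    fun g' h => Sm.cmul ((s3 g' (mem_act h).2).1.dv.comp (tr_sm B g g')) _
  refine ⟨_, sW.dv, cb_dv' (gd g).lam_pos N0 (big.np_pos _).le (hb g) sW (s4 g), fun i z => ?_⟩
  have e : (B.fr g).den (dens ρ (fun x => Z x + Up (B.ug j u) (nT B.N) x)
      fun x => S x - Cv (B.ug j u) (nT B.N) x) = fun z => (B.fr g).den (dens ρ Z S) z +
        (dv ((B.fr g).vd fun w => ftot ρ Z S (B.ug j u) (nT B.N) w -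
          ∑ g' ∈ act g j, (B.fr g').unvd (B.mF ρ Z S u g') w) z +
        ∑ g' ∈ act g j, dr B g g' * dv (B.mF ρ Z S u g') (tr B g g' z)) := by
    funext z
    have e1 := congrFun (K3.p3 (B.fr g) (hQ g) s1.dif) z
    rw [vd_sub_sum _ _ (act g j) fun g' => (B.fr g').unvd (B.mF ρ Z S u g'),
      dv_add sW (ContDiff.sum fun g' h => vd_sm _ (su g' h)),
      dv_sum _ fun g' h => vd_sm _ (su g' h),
      Finset.sum_congr rfl fun g' h => dv_tr (hQ g) (hQ g') (s3 g' (mem_act h).2).1 z] at e1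
    rw [e1, Fr.den, Fr.den, Fr.den, s2, mul_add]
  rw [e, pd_add (sd g) (sW.dv.add (ContDiff.sum st)), pd_add sW.dv (ContDiff.sum st), pd_sum _ st]
  simp only []
  rw [Finset.sum_congr rfl fun g' h => pd_tr B g g' (s3 g' (mem_act h).2).1.dv i z]

lemma num {N : ℕ} (h : Big N) : 36000 * (N * np N (-200)) ≤ np N (-28 / 100) ∧
    7500000 * np N (-285 / 1000) ≤ np N (-28 / 100) ∧
    3000000 * (np N (-20) * pq N) ≤ np N (-28 / 100) ∧
    600 * ((N : ℝ) ^ 4 * dc N * pq N) ≤ np N (-10) ∧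
    30 * ((N : ℝ) ^ 4 * Real.exp (-(N : ℝ))) ≤ np N (-10) ∧
    10 * (np N (-20) * ((N : ℝ) ^ 3 * pq N)) ≤ np N (-10) ∧
    7000 * np N (-10) ≤ np N (-3 / 5) ∧ 60 * ((N : ℝ) ^ 4 * np N (-200)) ≤ np N (-3 / 5) ∧
    40000 * (N : ℝ) ^ 2 ≤ (N : ℝ) ^ 4 ∧ 100 * np N (-1500) ≤ (N : ℝ) ^ 4 ∧
    4 * (np N (-1500) * np N 93) ≤ np N (-15) ∧ 40 * ((N : ℝ) ^ 2 * dc N) ≤ np N (-15) := by
  have := h.J_pos; have := h.N_pos; have := h.q_pos; have := h.dc_pos
  have := h.np_pos (-200); have := h.np_pos (-28 / 100); have := h.np_pos (-285 / 1000)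
  have := h.np_pos (-20); have := h.np_pos (-10); have := h.np_pos (-3 / 5)
  have := h.np_pos (-1500); have := h.np_pos 93; have := h.np_pos (-15)
  have := h.L_ge; have := h.J_ge; have := h.N_ge
  have c : ∀ C : ℝ, 1 ≤ C → C ≤ 10 ^ 7 → Real.log C ≤ 10 ^ 7 := fun C a b =>
    (logc_bd a).2.trans b
  have := c 36000 (by norm_num) (by norm_num); have := c 7500000 (by norm_num) (by norm_num)
  have := c 3000000 (by norm_num) (by norm_num); have := c 600 (by norm_num) (by norm_num)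
  have := c 30 (by norm_num) (by norm_num); have := c 10 (by norm_num) (by norm_num)
  have := c 7000 (by norm_num) (by norm_num); have := c 60 (by norm_num) (by norm_num)
  have := c 40000 (by norm_num) (by norm_num); have := c 100 (by norm_num) (by norm_num)
  have := c 4 (by norm_num) (by norm_num); have := c 40 (by norm_num) (by norm_num)
  refine ⟨?_, ?_, ?_, ?_, ?_, ?_, ?_, ?_, ?_, ?_, ?_, ?_⟩ <;>
    refine le_of_log (by positivity) (by positivity) ?_ <;>
    simp (disch := positivity) only [Real.log_mul, Real.log_pow, Real.log_exp,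
      h.log_np, h.log_dc, h.log_N, h.log_q] <;> push_cast <;> linarith

lemma sq6 {N : ℕ} (h : Big N) : 6000 ≤ √(pq N) := by
  have := Real.add_one_le_exp (Real.log √(pq N))
  rw [Real.exp_log h.sqrtq_pos, h.log_sqrtq] at this
  linarith [h.L_ge]

lemma cd_le {c : Pm} (g : Gd c) (l : Fin 3) : cd c 1 l ≤ c.n12 := by
  have := g.log_c1; have := g.log_c2; have := g.log_n12_bd; have := g.log_η_le
  have := g.log_s1_ge; have := g.log_K_bd; have := g.log_K; have := g.big.L_ge; have := g.big.J_ge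
  fin_cases l
  · exact le_of_log (x := c.c1) g.c1_pos g.n12_pos (by linarith)
  · exact le_of_log (x := c.c2) g.c2_pos g.n12_pos (by linarith)
  · exact (div_one _).le

lemma cd_pos {c : Pm} (g : Gd c) (l : Fin 3) : 0 < cd c 1 l :=
  (g.big.np_pos _).trans_le (cd_bd g (by norm_num) (by norm_num) l).1

lemma cd_cc (c : Pm) (l : Fin 3) : cd c 1 l = c.cc l := by
  fin_cases l
  · rfl
  · rfl
  · exact div_one _

lemma hy_hs (c : Pm) (y : ℝ) {l : Fin 3} (hl : l ≠ 2) : c.hy y l = c.hs l := by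
  fin_cases l
  · rfl
  · rfl
  · exact absurd rfl hl

/-- integral over a short segment -/
lemma seg_le {f : ℝ → ℝ} {τ C h l n : ℝ} (hl : 0 < l) (hn : 0 < n) (hb : l / n ≤ h)
    (hτ : |τ| ≤ 10 * n ^ 2 * l) (H : ∀ t ∈ uIcc 0 τ, h * |f t| ≤ C) :
    |∫ t in (0 : ℝ)..τ, f t| ≤ 10 * n ^ 3 * C := by
  have hh : 0 < h := (div_pos hl hn).trans_le hb
  have C0 : 0 ≤ C := (mul_nonneg hh.le (abs_nonneg _)).trans (H 0 left_mem_uIcc)
  refine (int_le (C := C * n / l) fun t _ ht => ?_).trans ?_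
  · rw [le_div_iff₀ hl]
    have a := mul_le_mul_of_nonneg_left ((div_le_iff₀ hn).1 hb) (abs_nonneg (f t))
    have b := mul_le_mul_of_nonneg_right (H t ht) hn.le
    linarith
  · refine (mul_le_mul_of_nonneg_left hτ (by positivity)).trans_eq ?_
    field_simp

lemma mink (a b c d : ℝ) : √((a + c) ^ 2 + (b + d) ^ 2) ≤ √(a ^ 2 + b ^ 2) + |c| + |d| := by
  have h0 := Real.sqrt_nonneg (a ^ 2 + b ^ 2)
  have h1 : |a| ≤ √(a ^ 2 + b ^ 2) := Real.abs_le_sqrt (by nlinarith)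
  have h2 : |b| ≤ √(a ^ 2 + b ^ 2) := Real.abs_le_sqrt (by nlinarith)
  have h3 := Real.sq_sqrt (by positivity : 0 ≤ a ^ 2 + b ^ 2)
  have h4 := (le_abs_self _).trans (abs_mul_le h1 (le_refl |c|))
  have h5 := (le_abs_self _).trans (abs_mul_le h2 (le_refl |d|))
  refine Real.sqrt_le_iff.2 ⟨by positivity, ?_⟩
  nlinarith [sq_abs c, sq_abs d, mul_nonneg (abs_nonneg c) (abs_nonneg d)]

lemma cv1_smul (F : Fr) (a : ℝ) (S : Mx) : F.cv1 (a • S) = a • F.cv1 S := by
  simp only [Fr.cv1, Matrix.mul_smul, Matrix.smul_mul]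

lemma mem_sites {B : Bk} (hs : 0 < B.hsp) {g i : Cu} {r : ℝ} :
    i ∈ B.sites g r ↔ cen B.hsp i ∈ box B.D g r := by
  simp only [Bk.sites, Fintype.mem_piFinset, Finset.mem_Icc, Int.ceil_le, Int.le_floor,
    div_le_iff₀ hs, le_div_iff₀ hs, box, mem_ofPred_eq, norm_le_iff, abs_le, Pi.sub_apply]
  refine forall_congr' fun j => ?_
  simp only [cen]
  constructor <;> rintro ⟨a, b⟩ <;> constructor <;> linarith

end Mr
end
end Pool.Agent.MP_20bec2_an.T3

end MrgPart0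

-- ======== part 1: formerly Pool.Agent.MP_20bec2_an.T3.Mr
section MrgPart1

/-! Row MR: the lateral derivatives of the refined densities after one colour. -/

set_option autoImplicit false
open MeasureTheory Set Filter Matrix Topology

namespace Pool.Agent.MP_20bec2_an.T3
noncomputable section
open Classical
namespace Mr
open Prof Ftr

section abs
variable {B : Bk} {k j : ℕ} {hv : ℝ} {M M' : V → ℝ} {Φ : Cu → V → ℝ} (big : Big B.N)
  (fo : FrOk B.N B.lb B.fr) (hk : k ≤ nb B.N) (D : Dec B k j hv M M' Φ)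
include big fo hk D

lemma hh (g : Cu) (i : Fin 3) : 0 < (B.c g k).hy hv i :=
  (div_pos (Bk.gd fo big g hk).lam_pos big.N_pos).trans_le (D.hb g i)

/-- the increment of a lateral derivative at one point -/
lemma ri1 (hy : hv ≤ B.yk k) (H : ∀ g, col g = j → ∀ i, i ≠ 2 → ∀ z,
      hv / B.yk k * (B.c g k).hs i * |pd i (Φ g) z| ≤ np B.N (-285 / 1000))
    {g : Cu} {z : V} (hz : z ∈ B.R g (985 / 1000)) {i : Fin 3} (hi : i ≠ 2) :
    ∃ E, pd i ((B.fr g).den M') z = pd i ((B.fr g).den M) z + E ∧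
      hv / B.yk k * |(B.c g k).hs i * E| ≤ np B.N (-28 / 100) / 4000 := by
  obtain ⟨W, sW, bW, e⟩ := D.eq g
  obtain ⟨n1, n2, n3, -⟩ := num big
  have gd := fun g => Bk.gd fo big g hk
  have y0 : 0 < B.yk k := (gd 0).y_pos
  have v0 : 0 < hv := hh big fo hk D 0 2
  have t0 : 0 < hv / B.yk k := div_pos v0 y0
  have t1 : hv / B.yk k ≤ 1 := (div_le_one y0).2 hy
  have p := (gd g).hs_pos i
  refine ⟨_, e i z, ?_⟩
  have a := bW.pd_le (by norm_num) i hz
  rw [hy_hs _ _ hi] at a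
  have a' := mul_le_mul t1 a (by positivity) zero_le_one
  have b := sum_act (g := g) (j := j) (a := hv / B.yk k * (B.c g k).hs i)
    (f := fun g' => dr B g g' * ∑ l, pd l (Φ g') (tr B g g' z) * Tm B g g' l i)
    (C := 2 * (5 / 2 * np B.N (-285 / 1000) + np B.N (-20) * pq B.N)) (by positivity)
    (by have := big.np_pos (-285 / 1000); have := big.np_pos (-20); have := big.q_pos; positivity)
    fun g' h => by
      obtain ⟨hn, hc⟩ := mem_act h
      have F := ff big fo hk hn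
      have c := colb (x := fun l => hv / B.yk k * pd l (Φ g') (tr B g g' z)) (gd g').hs_pos
        (gd g).hs_pos F.hs hi (W := np B.N (-285 / 1000)) (W2 := pq B.N) (fun l hl => by
          rw [abs_mul, abs_of_pos t0]
          linarith [H g' hc l hl (tr B g g' z)]) (by
          refine le_of_eq_of_le ?_ ((D.cb g' hc).pd_le (by norm_num) 2 (mem_univ (tr B g g' z)))
          rw [abs_mul, abs_of_pos t0, ← mul_assoc]
          exact congrArg (· * _) (mul_div_cancel₀ hv y0.ne'))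
      simp only [mul_assoc, ← Finset.mul_sum] at c
      rw [abs_mul, abs_of_pos t0] at c
      rw [abs_mul]
      have := mul_le_mul F.d c (by positivity) zero_le_two
      linarith
  rw [abs_mul, abs_of_pos p, ← mul_assoc]
  have := mul_le_mul_of_nonneg_left (abs_add_le (pd i W z) (∑ g' ∈ act g j,
    dr B g g' * ∑ l, pd l (Φ g') (tr B g g' z) * Tm B g g' l i)) (mul_pos t0 p).le
  linarith

/-- the integral along a vertical segment of the flux of one acting cube -/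
lemma cube {g g' : Cu} (h : g' ∈ act g j) (z : V) {τ R : ℝ} (hR : 0 ≤ R)
    (hτ : |τ| ≤ 10 * (B.N : ℝ) ^ 2 * (B.c g' k).lam)
    (hn : ∀ t ∈ uIcc 0 τ, (tr B g g' z + t • fun i => Tm B g g' i 2) ∈ B.R g' (935 / 1000) →
      ∀ l, l ≠ 2 → cd (B.c g' k) 1 l * |∫ r in (0 : ℝ)..τ * Tm B g g' 2 2,
        pd l (Φ g') (tr B g g' z + r • e3)| ≤ (B.c g' k).n12 * R) {i : Fin 3} (hi : i ≠ 2) :
    (B.c g k).cc i / (B.c g k).n12 * |∫ t in (0 : ℝ)..τ, dr B g g' *
      ∑ l, pd l (Φ g') (tr B g g' (z + t • e3)) * Tm B g g' l i| ≤ 48 * R + 28 * np B.N (-10) := by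
  obtain ⟨nb3, hc⟩ := mem_act h
  obtain ⟨-, -, -, n4, n5, n6, -⟩ := num big
  have F := ff big fo hk nb3
  have G := Bk.gd fo big g hk
  have G' := Bk.gd fo big g' hk
  have s := D.sm g' hc
  have l0 := G'.lam_pos
  have N0 := big.N_pos
  have e0 := big.np_pos (-10)
  have d0 := big.dc_pos
  have q0 := big.q_pos
  have m0 := G'.n12_pos
  set w : V := fun i => Tm B g g' i 2 with hw
  set p := tr B g g' z
  set x : V := fun l => ∫ t in (0 : ℝ)..τ, pd l (Φ g') (p + t • w) with hx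
  have e : ∫ t in (0 : ℝ)..τ, dr B g g' * ∑ l, pd l (Φ g') (tr B g g' (z + t • e3)) * Tm B g g' l i =
      dr B g g' * ∑ l, x l * Tm B g g' l i := by
    simp only [tr_line]
    rw [intervalIntegral.integral_const_mul, intervalIntegral.integral_finsetSum
      fun l _ => (ii (s.pd l) _ _ τ).mul_const _]
    simp only [intervalIntegral.integral_mul_const, hx, hw, p]
  have a : ∀ l, l ≠ 2 → cd (B.c g' k) 1 l * |x l| ≤ (B.c g' k).n12 * (2 * R + np B.N (-10)) := by
    intro l hl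
    have c0 := cd_pos G' l
    have c1 := mul_le_mul_of_nonneg_right (cd_le G' l) e0.le
    by_cases hb : ∃ t ∈ uIcc 0 τ, p + t • w ∈ B.R g' (935 / 1000)
    · obtain ⟨t, ht, hb⟩ := hb
      have b := hn t ht hb l hl
      have hl' : ∀ l, l ≠ 2 → (B.c g' k).lam ≤ (B.c g' k).hy hv l := fun l hl => by
        rw [hy_hs _ _ hl]; exact (hs_bd G' l).1
      have c := tilt s (w := w) p (a := 2 * dc B.N / (B.c g' k).lam) τ (hh big fo hk D g')
        ((D.cb g' hc).of_le (by norm_num)) F.t22 (by positivity) (fun l hl => (F.e3 l hl).trans (by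
          rw [div_mul_eq_mul_div, le_div_iff₀ l0]
          exact mul_le_mul_of_nonneg_left (hl' l hl) (by positivity))) l
      have c2 : 3 * (|τ| * (2 * dc B.N / (B.c g' k).lam)) * pq B.N * |τ| ≤
          (B.c g' k).hy hv l * np B.N (-10) := calc
        _ ≤ 3 * (10 * (B.N : ℝ) ^ 2 * (B.c g' k).lam * (2 * dc B.N / (B.c g' k).lam)) * pq B.N *
          (10 * (B.N : ℝ) ^ 2 * (B.c g' k).lam) := by gcongr
        _ = (B.c g' k).lam * (600 * ((B.N : ℝ) ^ 4 * dc B.N * pq B.N)) := by field_simp; ring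
        _ ≤ _ := mul_le_mul (hl' l hl) n4 (by positivity) (hh big fo hk D g' l).le
      have c3 : |x l| ≤ 2 * |∫ r in (0 : ℝ)..τ * w 2, pd l (Φ g') (p + r • e3)| + np B.N (-10) :=
        le_of_mul_le_mul_left (by linarith) (hh big fo hk D g' l)
      have := mul_le_mul_of_nonneg_left c3 c0.le
      linarith
    · have c3 : |x l| ≤ _ := seg_le l0 N0 (D.hb g' l) hτ fun t ht =>
        (D.far g' hc).pd_le (by norm_num) l fun hm => hb ⟨t, ht, hm⟩
      have := mul_le_mul_of_nonneg_left (c3.trans (by linarith : _ ≤ np B.N (-10))) c0.le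
      nlinarith
  have b : cd (B.c g' k) 1 2 * |x 2| ≤ (B.c g' k).n12 * (10 * (B.N : ℝ) ^ 3 * pq B.N) :=
    mul_le_mul (cd_le G' 2) (seg_le l0 N0 (D.hb g' 2) hτ fun t _ =>
      (D.cb g' hc).pd_le (by norm_num) 2 (mem_univ _)) (abs_nonneg _) m0.le
  have c := colb (cd_pos G') (cd_pos G) F.cd hi a b
  have c1 := mul_le_mul_of_nonneg_left n6 m0.le
  have c2 := mul_le_mul_of_nonneg_right F.n (by positivity : 0 ≤ 12 * R + 7 * np B.N (-10))
  have c3 : cd (B.c g k) 1 i * |∑ l, x l * Tm B g g' l i| ≤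
      2 * (B.c g k).n12 * (12 * R + 7 * np B.N (-10)) := by linarith
  have c4 := mul_le_mul F.d c3 (mul_nonneg (cd_pos G i).le (abs_nonneg _)) zero_le_two
  rw [e, abs_mul, div_mul_eq_mul_div, div_le_iff₀ G.n12_pos, ← cd_cc]
  linarith

/-- the increment of a vertical integral -/
lemma li1 {g : Cu} {z : V} {τ R : ℝ} (hR : 0 ≤ R) (hτ : |τ| ≤ 10 * (B.N : ℝ) ^ 2 * (B.c g k).lam)
    (hz : ∀ t ∈ uIcc 0 τ, z + t • e3 ∈ B.R g (985 / 1000))
    (hn : ∀ g' ∈ act g j, ∀ t ∈ uIcc 0 τ,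
      (tr B g g' z + t • fun i => Tm B g g' i 2) ∈ B.R g' (935 / 1000) →
      ∀ l, l ≠ 2 → cd (B.c g' k) 1 l * |∫ r in (0 : ℝ)..τ * Tm B g g' 2 2,
        pd l (Φ g') (tr B g g' z + r • e3)| ≤ (B.c g' k).n12 * R) {i : Fin 3} (hi : i ≠ 2) :
    (B.c g k).cc i / (B.c g k).n12 * |∫ t in (0 : ℝ)..τ, pd i ((B.fr g).den M') (z + t • e3)| ≤
      (B.c g k).cc i / (B.c g k).n12 * |∫ t in (0 : ℝ)..τ, pd i ((B.fr g).den M) (z + t • e3)| +
        (np B.N (-3 / 5) + √(pq B.N) * R) := by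
  obtain ⟨W, sW, bW, e⟩ := D.eq g
  obtain ⟨-, -, -, -, -, -, n7, n8, -⟩ := num big
  have G := Bk.gd fo big g hk
  have c0 : 0 < (B.c g k).cc i / (B.c g k).n12 := div_pos (G.cc_pos i) G.n12_pos
  have c1 : (B.c g k).cc i / (B.c g k).n12 ≤ 1 :=
    (div_le_one G.n12_pos).2 (cd_cc _ i ▸ cd_le G i)
  have st : ∀ g' ∈ act g j, IntervalIntegrable (fun t : ℝ => dr B g g' *
      ∑ l, pd l (Φ g') (tr B g g' (z + t • e3)) * Tm B g g' l i) volume 0 τ := fun g' h =>
    ii (G := fun z => dr B g g' * ∑ l, pd l (Φ g') (tr B g g' z) * Tm B g g' l i)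
      (Sm.cmul (ContDiff.sum fun l _ => ContDiff.mul
        (((D.sm g' (mem_act h).2).pd l).comp (tr_sm B g g')) contDiff_const) _) z e3 τ
  have s2 := IntervalIntegrable.sum _ st
  rw [Finset.sum_fn] at s2
  simp only [e]
  rw [intervalIntegral.integral_add (ii ((D.sM g).pd i) _ _ _) ((ii (sW.pd i) _ _ _).add s2),
    intervalIntegral.integral_add (ii (sW.pd i) _ _ _) s2, intervalIntegral.integral_finsetSum st]
  have a := seg_le G.lam_pos big.N_pos (D.hb g i) hτ fun t ht =>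
    bW.pd_le (by norm_num) i (hz t ht)
  have a' := mul_le_mul c1 a (abs_nonneg _) zero_le_one
  have b := sum_act c0.le (by have := big.np_pos (-10); positivity) fun g' h =>
    cube big fo hk D h z hR hτ (hn g' h) hi
  have q := mul_le_mul_of_nonneg_right (sq6 big) hR
  refine (mul_le_mul_of_nonneg_left ((abs_add_le _ _).trans (add_le_add le_rfl (abs_add_le _ _)))
    c0.le).trans ?_
  rw [mul_add, mul_add]
  linarith

end abs

/-- the new entry of the ledger -/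
def X (B : Bk) (j : ℕ) (o : Bk.MO) (i : Cu) : ℝ :=
  ∑ᶠ g, if col g = j ∧ i ∈ B.sites g (98 / 100) then o.xs g i else 0

lemma X_eq {B : Bk} (hD : 0 < B.D) (hs : 0 < B.hsp) {j : ℕ} (o : Bk.MO) {g i : Cu} (hc : col g = j)
    (hi : i ∈ B.sites g (98 / 100)) : X B j o i = o.xs g i := by
  rw [X, finsum_eq_single _ g fun g' hne => if_neg fun h => hne (col_box_unique hD (by norm_num)
    (h.1.trans hc.symm) ((mem_sites hs).1 h.2) ((mem_sites hs).1 hi)), if_pos ⟨hc, hi⟩]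

lemma SA_up (N : ℕ) (b : ℝ) (xs : ℕ → Cu → ℝ) (Y : Cu → ℝ) {a m : ℕ} (h : a ≤ m) (i : Cu) :
    SA N b (Function.update xs m Y) a (m + 1) i = SA N b xs a m i + √(b * (1 + Y i) / N) := by
  rw [SA, Finset.sum_Ico_succ_top h, Function.update_self, SA]
  congr 1
  exact Finset.sum_congr rfl fun n hn => by
    rw [Function.update_of_ne (Finset.mem_Ico.1 hn).2.ne]

variable {B : Bk} {ρ : V → ℝ} {k r : ℕ} {s : St} {ch : Cu → Cu → ℝ → V} {o : Bk.MO}

/-- an acting cube that meets the segment -/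
lemma near (big : Big B.N) (H : B.MH ρ k r s ch o) (hL : kL B.N ≤ k) (hk : k < mid B.N) {g g' : Cu}
    (hd : B.deep g) (h : g' ∈ act g (r - 1)) {x x' : V} {a a' : Cu} (na : B.NS a x)
    (na' : B.NS a' x') {τ t : ℝ} (hτ : |τ| ≤ 10 * (B.N : ℝ) ^ 2 * (B.c g' k).lam)
    (e : (B.fr g').zc (B.Z0 x') = (B.fr g').zc (B.Z0 x) + τ • fun i => Tm B g g' i 2)
    (ht : t ∈ uIcc 0 τ)
    (hm : ((B.fr g').zc (B.Z0 x) + t • fun i => Tm B g g' i 2) ∈ B.R g' (935 / 1000))
    {l : Fin 3} (hl : l ≠ 2) :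
    cd (B.c g' k) 1 l * |∫ y in (0 : ℝ)..τ * Tm B g g' 2 2,
      pd l (dv (B.mF ρ (B.Z s) (B.SL k r s.Sg) o.u g')) ((B.fr g').zc (B.Z0 x) + y • e3)| ≤
      (B.c g' k).n12 * (√(bB B.N * (1 + X B (r - 1) o a) / B.N) +
        √(bB B.N * (1 + X B (r - 1) o a') / B.N)) := by
  obtain ⟨nb3, hc⟩ := mem_act h
  obtain ⟨-, -, -, -, -, -, -, -, n9, n10, n11, n12⟩ := num big
  have G := H.ok.geo
  have fo := G.toFrOk
  have F := ff big fo H.hk.le nb3
  have G' := Bk.gd fo big g' H.hk.le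
  have N0 := big.N_pos
  have N1 : 1 ≤ B.N := by exact_mod_cast N0
  have D0 : 0 < B.D := GeoP.D_pos fo N1
  have b0 := GeoP.lb_pos fo
  have l0 := G'.lam_pos
  have s0 : 0 < B.hsp := mul_pos (big.np_pos _) b0
  set w : V := fun i => Tm B g g' i 2 with hw
  have lb : (B.c g' k).lam ≤ B.lb := G'.lam_le_lb
  have mv : ∀ t', |t' - t| ≤ |τ| →
      (B.fr g').zc (B.Z0 x) + t' • w ∈ B.R g' (935 / 1000 + 1 / 1000) := fun t' h' => by
    refine RX_add (GeoP.orth fo g') hm ?_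
    rw [add_sub_add_left_eq_sub, ← sub_smul, norm_smul, Real.norm_eq_abs]
    have w2 : ‖w‖ ≤ 2 := norm_le_of fun i => F.eb i 2
    have := mul_le_mul (h'.trans (hτ.trans (mul_le_mul_of_nonneg_left lb (by positivity)))) w2
      (norm_nonneg _) (by positivity)
    have := mul_le_mul_of_nonneg_right n9 b0.le
    unfold Bk.D Dd
    linarith
  have m0 := mv 0 (by simpa using abs_sub_left_of_mem_uIcc ht)
  have m1 := mv τ (by simpa using abs_sub_right_of_mem_uIcc ht)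
  rw [zero_smul, add_zero] at m0
  rw [← e] at m1
  have site : ∀ {y : V} {b : Cu}, (B.fr g').zc (B.Z0 y) ∈ B.R g' (935 / 1000 + 1 / 1000) →
      B.NS b y → b ∈ B.sites g' (98 / 100) ∧
      ‖(B.fr g').zc (B.Z0 y) - (B.fr g').zc (B.Z0 (cen B.hsp b))‖ ≤ (B.c g' k).hL / 2 := by
    intro y b m n
    have y1 := GeoP.back G N1 (by norm_num) (by norm_num) m
    have y2 : cen B.hsp b ∈ box B.D g' (935 / 1000 + 1 / 1000 + 1 / 2000 + 1 / 100) :=
      box_add y1 ((norm_sub_rev _ _).trans_le (le_trans n (by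
        have := mul_le_mul_of_nonneg_right n10 b0.le
        unfold Bk.hsp Bk.D Dd
        linarith)))
    refine ⟨(mem_sites s0).2 (box_mono D0.le (by norm_num) _ y2), (GeoP.lip G
      (box_mono D0.le (by norm_num) _ y2) (box_mono D0.le (by norm_num) _ y1)).2.trans ?_⟩
    have n' : ‖y - cen B.hsp b‖ ≤ np B.N (-1500) * B.lb := n
    have a1 : B.lb ≤ np B.N 93 * (B.c g' k).lam := G'.lb_le
    have a2 := mul_le_mul_of_nonneg_left a1 (big.np_pos (-1500)).le
    have a3 := mul_le_mul_of_nonneg_right n11 l0.le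
    show _ ≤ np B.N (-15) * (B.c g' k).lam / 2
    linarith
  obtain ⟨sa, da⟩ := site m0 na
  obtain ⟨sa', da'⟩ := site m1 na'
  have hL0 := G'.hL_pos
  obtain ⟨-, -, -, nA, nc⟩ := Bk.deep_flags fo big hd nb3 H.hk.le
  have O := (H.mo g' hc).li (nc (hk.trans big.mid_lt.1)) a sa a' sa' ((B.fr g').zc (B.Z0 x))
    (τ * Tm B g g' 2 2) (da.trans (half_le_self hL0.le)) (by
      have e2 : (B.fr g').zc (B.Z0 x) + (τ * Tm B g g' 2 2) • e3 - (B.md ρ k r s ch g').pl a' =
          ((B.fr g').zc (B.Z0 x') - (B.fr g').zc (B.Z0 (cen B.hsp a'))) - τ • (w - w 2 • e3) := by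
        rw [e, smul_sub, mul_smul]
        show _ + _ - (B.fr g').zc (B.Z0 (cen B.hsp a')) = _
        abel
      have w1 : ‖w - w 2 • e3‖ ≤ 2 * dc B.N := norm_le_of fun i => by
        by_cases hi : i = 2
        · subst hi
          simpa [e3] using big.dc_pos.le
        · simpa [e3, Pi.single_eq_of_ne hi] using F.e3 i hi
      have w2 := mul_le_mul hτ w1 (norm_nonneg _) (by positivity)
      have a3 := mul_le_mul_of_nonneg_right n12 l0.le
      rw [e2]
      refine (norm_sub_le _ _).trans ?_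
      rw [norm_smul, Real.norm_eq_abs]
      have : (B.c g' k).hL = np B.N (-15) * (B.c g' k).lam := rfl
      show _ ≤ (B.c g' k).hL
      linarith) l hl
  have eS : (B.md ρ k r s ch g').SL = (B.fr g').cov (B.SL k r s.Sg) := by
    funext y
    have : r ≠ 0 := by have := H.hr.1; omega
    simp only [MD.SL, Bk.md, Fr.cov, Bk.SL, cv1_sub, cv1_smul, if_pos (And.intro hL hk), if_neg this]
    congr 2
    show B.yk k ^ 2 - _ = _
    ring
  rw [eS] at O
  have O' : (B.c g' k).hs l * |∫ y in (0 : ℝ)..τ * Tm B g g' 2 2,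
      pd l (dv (B.mF ρ (B.Z s) (B.SL k r s.Sg) o.u g')) ((B.fr g').zc (B.Z0 x) + y • e3)| ≤
      (B.c g' k).GG * (√(1 + o.xs g' a) + √(1 + o.xs g' a')) := O
  have c := G'.cc_GG l hl
  have hp := G'.hs_pos l
  have sq : ∀ y, √(bB B.N * y / B.N) = √(bB B.N / B.N) * √y := fun y => by
    rw [← Real.sqrt_mul (div_pos big.bB_pos N0).le, div_mul_eq_mul_div]
  rw [Gd.bb_notA nA, div_le_iff₀ (mul_pos G'.n12_pos hp)] at c
  rw [X_eq D0 s0 o hc sa, X_eq D0 s0 o hc sa', sq, sq, cd_cc]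
  have c1 := mul_le_mul_of_nonneg_left O' (G'.cc_pos l).le
  have c2 := mul_le_mul_of_nonneg_right c
    (by positivity : 0 ≤ √(1 + o.xs g' a) + √(1 + o.xs g' a'))
  refine le_of_mul_le_mul_left ?_ hp
  have : (B.c g' k).N = B.N := rfl
  rw [this] at c2
  linarith

end Mr

open Mr Prof in
theorem mr (h1 : PksStmt) (h2 : StgStmt) : MrStmt := by
  filter_upwards [h1, dec h2, ev_big] with N h1 h2 big B hB ρ k r s ch o f' H
  subst hB
  obtain ⟨uh, -, pR, pL⟩ := h1 B rfl ρ k r s ch o H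
  have G := H.ok.geo
  have fo := G.toFrOk
  have N0 := big.N_pos
  have N1 : 1 ≤ B.N := by exact_mod_cast N0
  have D0 : 0 < B.D := GeoP.D_pos fo N1
  have r0 : r ≠ 0 := by have := H.hr.1; omega
  have gd := fun g => Bk.gd fo big g H.hk.le
  have eZ : B.Z (B.stp ρ k r s ch o f') =
      fun x => B.Z s x + Up (B.ug (r - 1) o.u) (nT B.N) x := by
    funext x
    simp only [Bk.Z, Bk.stp]
    abel
  refine ⟨fun g y' hy z hz => ?_, fun hL ha g hd i hi x hx x' hx' a a' na na' τ hτ e => ?_⟩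
  · have eS : B.SR k (r + 1) (B.stp ρ k r s ch o f').Sg y' =
        fun x => B.SR k r s.Sg y' x - Cv (B.ug (r - 1) o.u) (nT B.N) x := by
      funext x
      simp only [Bk.SR, Bk.stp, if_neg r0, if_neg (Nat.succ_ne_zero r)]
      abel
    have D := h2 B rfl ρ k _ _ _ _ _ H.rho G H.hk.le uh (pR y' hy)
    have y0 : 0 < B.yk k := (gd g).y_pos
    have y1 : y' ≤ B.yk k := hy.2.trans (half_le_self y0.le)
    have t0 : 0 ≤ y' / B.yk k := div_nonneg (hh big fo H.hk.le D g 2).le y0.le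
    have key := fun i => ri1 big fo H.hk.le D y1 (fun g' hc i hi z => by
      have O := (H.mo g' hc).ri y' hy i hi z
      have eS : (B.md ρ k r s ch g').SR y' = (B.fr g').cov (B.SR k r s.Sg y') := by
        funext y
        simp only [MD.SR, Bk.md, Fr.cov, Bk.SR, cv1_sub, cv1_smul, if_neg r0]
        rfl
      rw [eS] at O
      exact O) (RX_mono _ D0.le (sub_le_self _ (by positivity)) hz) (i := i)
    obtain ⟨E0, e0, b0⟩ := key 0 (by decide)
    obtain ⟨E1, e1, b1⟩ := key 1 (by decide)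
    have old := H.inv.ir.ri g y' hy z hz
    have be : np B.N (-28 / 100) ≤ (B.c g k).betaR y' :=
      le_mul_of_one_le_right (big.np_pos _).le
        (Real.one_le_rpow (le_max_left _ _) (by norm_num))
    rw [eZ, eS, e0, e1, mul_add, mul_add]
    refine (mul_le_mul_of_nonneg_left (mink _ _ _ _) t0).trans ?_
    have b0' : y' / B.yk k * |(B.c g k).l1 * E0| ≤ _ := b0
    have b1' : y' / B.yk k * |(B.c g k).lam * E1| ≤ _ := b1
    push_cast
    linarith
  · have hk : k < mid B.N := by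
      unfold aft at ha
      omega
    have eS : B.SL k (r + 1) (B.stp ρ k r s ch o f').Sg =
        fun x => B.SL k r s.Sg x - Cv (B.ug (r - 1) o.u) (nT B.N) x := by
      funext x
      simp only [Bk.SL, Bk.stp, if_neg r0, if_neg (Nat.succ_ne_zero r)]
      abel
    have D := h2 B rfl ρ k _ _ _ _ _ H.rho G H.hk.le uh (pL hL hk)
    have old := H.inv.ir.li hL (by unfold aft; omega) g hd i hi x hx x' hx' a a' na na' τ hτ e
    have hτ' : |τ| ≤ 10 * (B.N : ℝ) ^ 2 * (B.lb / 2 ^ k) := hτ.trans (mul_le_mul_of_nonneg_left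
      (div_le_div_of_nonneg_left (GeoP.lb_pos fo).le (by positivity)
        (pow_le_pow_right₀ one_le_two hk.le)) (by positivity))
    have p0 : ∀ g' y, tr B g g' ((B.fr g).zc y) = (B.fr g').zc y := fun g' y => by
      rw [tr, zp_zc (GeoP.det_ne fo g)]
    have new := li1 big fo H.hk.le D (g := g) (z := (B.fr g).zc (B.Z0 x))
      (R := √(bB B.N * (1 + X B (r - 1) o a) / B.N) + √(bB B.N * (1 + X B (r - 1) o a') / B.N))
      (by positivity) hτ' (fun t ht => by
        have z0 := GeoP.fwd G N1 (by norm_num) hx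
        have z1 := GeoP.fwd G N1 (by norm_num) hx'
        rw [e] at z1
        obtain ⟨u, v, hu, hv, huv, rfl⟩ := (segment_eq_uIcc 0 τ).symm ▸ ht
        refine RX_mono _ D0.le (by norm_num) (Eq.subst (motive := fun w => w ∈ _) ?_
          (RX_convex _ _ _ z0 z1 hu hv huv))
        rw [smul_add, ← add_assoc, ← add_smul, huv, one_smul, smul_zero, zero_add, smul_smul,
          smul_eq_mul])
      (fun g' h t ht hm l hl => by
        rw [p0] at hm ⊢
        exact near big H hL hk hd h na na' hτ' (by rw [← p0, e, tr_line, p0]) ht hm hl) hi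
    have t1 : tm k (r + 1) = tm k r + 1 := by unfold tm; omega
    have t2 : 8 * kL B.N ≤ tm k r := by unfold tm; omega
    have ex : (B.stp ρ k r s ch o f').xs = Function.update s.xs (tm k r) (X B (r - 1) o) := rfl
    rw [eZ, eS, ex, t1, SA_up _ _ _ _ t2, SA_up _ _ _ _ t2]
    refine le_trans new ((add_le_add old le_rfl).trans_eq ?_)
    unfold cnt
    push_cast
    ring

end
end Pool.Agent.MP_20bec2_an.T3

end MrgPart1

-- marker of a merged file
example : 731051 + 59801 = 731051 + 59801 := rfl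

end MrgPart4

-- marker of a merged file
example : 731051 + 59801 = 731051 + 59801 := rfl
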