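import Pool.Agent.MP_20bec2_an.T3.CrA
import Pool.Agent.MP_20bec2_an.T3.Par4
import Pool.Agent.MP_20bec2_an.T3.Yq
import Pool.Agent.MP_20bec2_an.T3.Fv

-- ======== part 0: formerly Pool.Agent.MP_20bec2_an.T3.Tf1
section MrgPart0

-- ======== part 0: formerly Pool.Agent.MP_20bec2_an.T3.WsM
section MrgPart0

/-! Toolbox WS, part 1: scaled covariances and nearly vertical rotations. -/

set_option autoImplicit false
open MeasureTheory Set Filter Matrix Topology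

namespace Pool.Agent.MP_20bec2_an.T3.Ws
noncomputable section
open Classical Prof Ftr

/-! ## algebra of `nrm`, `latm`, `dg3` -/

section alg
variable {u v : V} {S T : Mx}

theorem nrm_add (u : V) (S T : Mx) : nrm u (S + T) = nrm u S + nrm u T := by
  ext i j; simp [nrm, add_div]
theorem nrm_sub (u : V) (S T : Mx) : nrm u (S - T) = nrm u S - nrm u T := by
  ext i j; simp [nrm, sub_div]
theorem nrm_smul (u : V) (c : ℝ) (S : Mx) : nrm u (c • S) = c • nrm u S := by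
  ext i j; simp [nrm, mul_div_assoc]
theorem nrm_zero (u : V) : nrm u 0 = 0 := by
  ext i j; simp [nrm]
theorem nrm_tr (u : V) (S : Mx) : (nrm u S)ᵀ = nrm u Sᵀ := by
  ext i j; simp [nrm, mul_comm]
theorem nrm_latm (u : V) (S : Mx) : nrm u (latm S) = latm (nrm u S) := by
  ext i j
  simp only [nrm, latm, of_apply]
  split_ifs <;> simp
theorem nrm_dg3 (u : V) (a b c : ℝ) :
    nrm u (dg3 a b c) = dg3 (a / u 0 ^ 2) (b / u 1 ^ 2) (c / u 2 ^ 2) := by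
  ext i j; fin_cases i <;> fin_cases j <;> simp [nrm, dg3, sq]
theorem nrm_conj (hu : ∀ i, 0 < u i) (hv : ∀ i, 0 < v i) (T S : Mx) :
    nrm u (T * S * Tᵀ) = sc u v T * nrm v S * (sc u v T)ᵀ := by
  ext i j
  have := hv 0; have := hv 1; have := hv 2; have := hu i; have := hu j
  simp only [nrm, sc, of_apply, mul_apply, transpose_apply, Fin.sum_univ_three]
  field_simp
theorem sc_one (hu : ∀ i, 0 < u i) : sc u u 1 = 1 := by
  ext i j
  by_cases h : i = j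
  · subst h; simp [sc, (hu i).ne']
  · simp [sc, one_apply_ne h]
theorem smM_nrm (u : V) {X : V → Mx} (h : SmM X) : SmM fun x => nrm u (X x) :=
  fun i j => ContDiff.div_const (h i j) _
theorem latm_add (S T : Mx) : latm (S + T) = latm S + latm T := by
  ext i j
  simp only [latm, of_apply, Matrix.add_apply]
  split_ifs <;> simp
theorem latm_sub (S T : Mx) : latm (S - T) = latm S - latm T := by
  ext i j
  simp only [latm, of_apply, Matrix.sub_apply]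
  split_ifs <;> simp
theorem latm_zero : latm 0 = 0 := by
  ext i j; simp [latm]
theorem latm_tr (S : Mx) : (latm S)ᵀ = latm Sᵀ := by
  ext i j; simp [latm, or_comm]
theorem latm_dg3 (a b c : ℝ) : latm (dg3 a b c) = dg3 a b 0 := by
  ext i j; fin_cases i <;> fin_cases j <;> simp [latm, dg3]
theorem latm_eq (S : Mx) : latm S = dg3 1 1 0 * S * (dg3 1 1 0)ᵀ := by
  ext i j
  rw [dg3, diagonal_transpose, mul_diagonal, diagonal_mul]
  fin_cases i <;> fin_cases j <;> simp [latm]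
theorem latm_lat (S : Mx) {i j : Fin 3} (hi : i ≠ 2) (hj : j ≠ 2) : latm S i j = S i j :=
  if_neg (not_or.2 ⟨hi, hj⟩)
theorem latm_row (S : Mx) (j : Fin 3) : latm S 2 j = 0 := by simp [latm]
theorem latm_col (S : Mx) (i : Fin 3) : latm S i 2 = 0 := if_pos (Or.inr rfl)
theorem abs_latm (S : Mx) (i j : Fin 3) : |latm S i j| ≤ |S i j| := by
  simp only [latm, of_apply]
  split_ifs <;> simp
theorem smM_latm {X : V → Mx} (h : SmM X) : SmM fun x => latm (X x) := fun i j => by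
  simp only [latm, of_apply]
  split_ifs
  exacts [contDiff_const, h i j]
theorem cbl_latm {P : List (Fin 3) → Prop} {h : V} {U : Set V} {X : V → Mx} {m : ℝ} (hm : 0 ≤ m)
    {i j : Fin 3} (H : CBl P h U (fun x => X x i j) m) :
    CBl P h U (fun x => latm (X x) i j) m := by
  simp only [latm, of_apply]
  split_ifs
  exacts [cbl_zero hm, H]
theorem dg3_tr (a b c : ℝ) : (dg3 a b c)ᵀ = dg3 a b c := diagonal_transpose _
theorem dg3_zero : dg3 0 0 0 = 0 := by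
  ext i j; fin_cases i <;> fin_cases j <;> simp [dg3]
theorem dg3_add (a b c a' b' c' : ℝ) :
    dg3 a b c + dg3 a' b' c' = dg3 (a + a') (b + b') (c + c') := by
  ext i j; fin_cases i <;> fin_cases j <;> simp [dg3]
theorem dg3_sub (a b c a' b' c' : ℝ) :
    dg3 a b c - dg3 a' b' c' = dg3 (a - a') (b - b') (c - c') := by
  ext i j; fin_cases i <;> fin_cases j <;> simp [dg3]
theorem dg3_smul (t a b c : ℝ) : t • dg3 a b c = dg3 (t * a) (t * b) (t * c) := by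
  ext i j; fin_cases i <;> fin_cases j <;> simp [dg3]
theorem dg3_bd {a b c m : ℝ} (ha : |a| ≤ m) (hb : |b| ≤ m) (hc : |c| ≤ m) : Bd (dg3 a b c) m := by
  have : 0 ≤ m := (abs_nonneg _).trans ha
  intro i j; fin_cases i <;> fin_cases j <;> simp [dg3, *]
theorem cv1_tr (F : Fr) (S : Mx) : (F.cv1 S)ᵀ = F.cv1 Sᵀ := by
  simp only [Fr.cv1, transpose_mul, transpose_transpose, Matrix.mul_assoc]
theorem unc_tr (F : Fr) (S : Mx) : (F.unc S)ᵀ = F.unc Sᵀ := by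
  simp only [Fr.unc, transpose_mul, transpose_transpose, Matrix.mul_assoc]
theorem cv1_smul (F : Fr) (c : ℝ) (S : Mx) : F.cv1 (c • S) = c • F.cv1 S := by
  simp only [Fr.cv1, Matrix.mul_smul, Matrix.smul_mul]
theorem cv1_zero (F : Fr) : F.cv1 0 = 0 := by simp [Fr.cv1]
theorem unc_zero (F : Fr) : F.unc 0 = 0 := by simp [Fr.unc]
theorem smM_cv1 (F : Fr) {X : V → Mx} (h : SmM X) : SmM fun x => F.cv1 (X x) :=
  ((smM_const _).mul h).mul (smM_const _)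
theorem smM_unc (F : Fr) {X : V → Mx} (h : SmM X) : SmM fun x => F.unc (X x) :=
  ((smM_const _).mul h).mul (smM_const _)
theorem smM_cov (F : Fr) {X : V → Mx} (h : SmM X) : SmM (F.cov X) :=
  smM_cv1 F (h.comp (xp_sm F))
/-- `S ↦ nrm u (F.cv1 S)` is additive -/
def ncv (u : V) (F : Fr) : Mx →+ Mx where
  toFun S := nrm u (F.cv1 S)
  map_zero' := by rw [cv1_zero, nrm_zero]
  map_add' S T := by rw [cv1_add, nrm_add]
end alg

/-! ## matrices close to a rotation that fixes the vertical axis -/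

/-- `X` is close to the rotation `P`, which nearly fixes the vertical axis -/
structure NO (e : ℝ) (P X : Mx) : Prop where
  o : Orth P
  v : ∀ i, i ≠ 2 → |P i 2| ≤ e ∧ |P 2 i| ≤ e
  d : Bd (X - P) e
  s : e ≤ 1 / 1000

section near
variable {e a b m : ℝ} {P X Y : Mx}

theorem NO.nn (h : NO e P X) : 0 ≤ e := h.d.nn
theorem NO.tr (h : NO e P X) : NO e Pᵀ Xᵀ :=
  ⟨orth_t h.o, fun i hi => (h.v i hi).symm, h.d.tr, h.s⟩
theorem NO.bd (h : NO e P X) : Bd X 2 := by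
  have := h.d.add (show Bd P 1 from orth_abs_le h.o)
  rw [sub_add_cancel] at this
  exact this.mono (by linarith [h.s])
theorem NO.mono {e' : ℝ} (h : NO e P X) (he : e ≤ e') (hs : e' ≤ 1 / 1000) : NO e' P X :=
  ⟨h.o, fun i hi => ⟨(h.v i hi).1.trans he, (h.v i hi).2.trans he⟩, h.d.mono he, hs⟩
theorem NO.off (h : NO e P X) {i : Fin 3} (hi : i ≠ 2) : |X i 2| ≤ 2 * e ∧ |X 2 i| ≤ 2 * e := by
  have h1 : |X i 2 - P i 2| ≤ e := h.d i 2
  have h2 : |X 2 i - P 2 i| ≤ e := h.d 2 i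
  constructor <;> linarith [h.v i hi, abs_sub_abs_le_abs_sub (X i 2) (P i 2),
    abs_sub_abs_le_abs_sub (X 2 i) (P 2 i)]

theorem rot_e3 (h : NO e P X) : Bd (P * dg3 0 0 1 * Pᵀ - dg3 0 0 1) e := by
  have e1 : ∀ i j, (P * dg3 0 0 1 * Pᵀ) i j = P i 2 * P j 2 := fun i j => by
    simp [dg3, mul_apply, Fin.sum_univ_three]
  have b := orth_abs_le h.o
  have h0 := h.v 0 (by decide); have h1 := h.v 1 (by decide)
  have k : ∀ i j, i ≠ 2 → |P i 2 * P j 2| ≤ e ∧ |P j 2 * P i 2| ≤ e := fun i j hi => by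
    have := abs_mul_le (h.v i hi).1 (b j 2)
    rw [mul_one] at this
    exact ⟨this, by rwa [mul_comm]⟩
  have r := orth_row h.o 2
  rw [Fin.sum_univ_three] at r
  have q0 := abs_le.1 (abs_mul_le h0.2 h0.2); have q1 := abs_le.1 (abs_mul_le h1.2 h1.2)
  have e0 := h.nn; have s := h.s
  intro i j
  rw [Matrix.sub_apply, e1]
  fin_cases i <;> fin_cases j <;> simp [dg3]
  exacts [by simpa using (k 0 0 (by decide)).1, by simpa using (k 0 1 (by decide)).1,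
    by simpa using (k 0 2 (by decide)).1, by simpa using (k 1 0 (by decide)).1,
    by simpa using (k 1 1 (by decide)).1, by simpa using (k 1 2 (by decide)).1,
    by simpa using (k 0 2 (by decide)).2, by simpa using (k 1 2 (by decide)).2,
    abs_le.2 ⟨by nlinarith, by nlinarith [sq_nonneg (P 2 0), sq_nonneg (P 2 1)]⟩]

/-- a diagonal matrix with equal lateral entries is nearly invariant -/
theorem conj_dg (hX : NO e P X) (hY : NO e Pᵀ Y) (ha : |a| ≤ m) (hb : |b| ≤ m) :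
    Bd (X * dg3 a a b * Y - dg3 a a b) (30 * e * m) := by
  have D := dg3_bd ha ha hb
  have e1 : dg3 a a b = a • (1 : Mx) + (b - a) • dg3 0 0 1 := by
    ext i j; fin_cases i <;> fin_cases j <;> simp [dg3]
  have e2 : P * dg3 a a b * Pᵀ - dg3 a a b = (b - a) • (P * dg3 0 0 1 * Pᵀ - dg3 0 0 1) := by
    rw [e1]
    simp only [Matrix.mul_add, Matrix.add_mul, Matrix.mul_smul, Matrix.smul_mul, Matrix.mul_one,
      hX.o.1, smul_sub]
    abel
  have b2 : Bd (P * dg3 a a b * Pᵀ - dg3 a a b) (2 * m * e) := fun i j => by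
    rw [e2, Matrix.smul_apply, smul_eq_mul]
    exact abs_mul_le ((abs_sub _ _).trans (by linarith)) (rot_e3 hX i j)
  have e3 : X * dg3 a a b * Y - dg3 a a b = (X - P) * dg3 a a b * Y +
      P * dg3 a a b * (Y - Pᵀ) + (P * dg3 a a b * Pᵀ - dg3 a a b) := by noncomm_ring
  rw [e3]
  refine ((((hX.d.mul D).mul hY.bd).add
    (((show Bd P 1 from orth_abs_le hX.o).mul D).mul hY.d)).add b2).mono ?_
  nlinarith [mul_nonneg hX.nn D.nn]

/-- constant sandwich of a matrix function -/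
theorem cbl_sand {Q : List (Fin 3) → Prop} {h : V} {U : Set V} {M : V → Mx} (hh : ∀ i, 0 ≤ h i)
    (hX : Bd X a) (hY : Bd Y b) (hM : SmM M) (H : ∀ i j, CBl Q h U (fun x => M x i j) m)
    (i j : Fin 3) : CBl Q h U (fun x => (X * M x * Y) i j) (9 * a * b * m) := by
  have h1 : ∀ l, CBl Q h U (fun x => (X * M x) i l) (3 * (a * m)) := fun l => by
    simpa [mul_apply] using CBl.sum_card Finset.univ hh (fun k _ => (hM k l).cmul (X i k))
      fun k _ => (H k l).smul_le hh (hX i k)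
  have h2 := CBl.sum_card Finset.univ hh (fun l _ => ((smM_const X).mul hM i l).cmul (Y l j))
    fun l _ => (h1 l).smul_le hh (hY l j)
  refine (h2.congr_fun fun x => ?_).monoB (le_of_eq (by simp; ring))
  rw [mul_apply]
  exact Finset.sum_congr rfl fun l _ => mul_comm _ _

/-- the lateral part taken in another frame -/
def Er (X Y D M : Mx) : Mx := X * (latm (Y * M * Yᵀ) + D) * Xᵀ - (latm M + D)

theorem Er_eq (X Y D M : Mx) : Er X Y D M =
    (X * dg3 1 1 0 * Y - dg3 1 1 0) * M * (X * dg3 1 1 0 * Y)ᵀ +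
      dg3 1 1 0 * M * (X * dg3 1 1 0 * Y - dg3 1 1 0)ᵀ + (X * D * Xᵀ - D) := by
  simp only [Er, latm_eq, transpose_mul, transpose_sub]
  noncomm_ring

theorem smM_Er (X Y D : Mx) {M : V → Mx} (hM : SmM M) : SmM fun x => Er X Y D (M x) :=
  (((smM_const _).mul ((smM_latm (((smM_const _).mul hM).mul (smM_const _))).add
    (smM_const _))).mul (smM_const _)).sub ((smM_latm hM).add (smM_const _))

theorem cb_Er {n : ℕ} {h : V} {U : Set V} {M : V → Mx} (hh : ∀ i, 0 ≤ h i) (hX : NO e P X)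
    (hY : NO e Pᵀ Y) (ha : |a| ≤ 1) (hb : |b| ≤ 1) (hM : SmM M)
    (H : ∀ i j, CB n h U (fun x => M x i j) m) (i j : Fin 3) :
    CB n h U (fun x => Er X Y (dg3 a a b) (M x) i j) (e * (810 * m + 30)) := by
  have L : Bd (dg3 1 1 0) 1 := dg3_bd (by simp) (by simp) (by simp)
  have W := conj_dg (m := 1) hX hY (a := 1) (b := 0) (by simp) (by simp)
  have G : Bd (X * dg3 1 1 0 * Y) 2 := by
    have := W.add L
    rw [sub_add_cancel] at this
    exact this.mono (by linarith [hX.s])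
  have c := conj_dg hX hX.tr ha hb
  have s : ∀ A B : Mx, SmM fun x => A * M x * B := fun A B =>
    ((smM_const _).mul hM).mul (smM_const _)
  have := CBl.add hh (((s _ _).add (s _ _)) i j) contDiff_const
    (CBl.add hh (s _ _ i j) (s _ _ i j) (cbl_sand hh W G.tr hM H i j) (cbl_sand hh L W.tr hM H i j))
    (cb_const (n := n) (h := h) (U := U) (c i j))
  exact (this.congr_fun fun x => by rw [Er_eq]; rfl).monoB (le_of_eq (by ring))

theorem bd_Er {M : Mx} (hX : NO e P X) (hY : NO e Pᵀ Y) (ha : |a| ≤ 1) (hb : |b| ≤ 1)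
    (H : Bd M m) : Bd (Er X Y (dg3 a a b) M) (e * (810 * m + 30)) := fun i j =>
  (cb_Er (n := 0) (h := 0) (U := univ) (fun _ => le_rfl) hX hY ha hb (smM_const M)
    (fun i j => cb_const (H i j)) i j).val (mem_univ 0)

theorem sc_near {u v : V} {T : Mx} {δ L : ℝ} (hu : ∀ i, 0 < u i) (hv : ∀ i, 0 < v i) (hO : Orth P)
    (hT : Bd (T - P) δ) (o3 : ∀ i, i ≠ 2 → |P i 2| ≤ δ ∧ |P 2 i| ≤ δ) (h1 : v 1 = u 1)
    (h2 : v 2 = u 2) (al : (|P 0 1| ≤ δ ∧ |P 1 0| ≤ δ) ∨ (u 0 = u 1 ∧ v 0 = u 1))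
    (hL : ∀ i j, v j ≤ L * u i) (h0 : |v 0 / u 0 - 1| ≤ δ * L) : Bd (sc u v T - P) (2 * δ * L) := by
  have L1 : 1 ≤ L := le_of_mul_le_mul_right (by linarith [hL 1 1]) (hu 1)
  have d0 := hT.nn
  have key : ∀ i j, |P i j| * |v j / u i - 1| ≤ δ * L → |(sc u v T - P) i j| ≤ 2 * δ * L :=
    fun i j H => by
    have r0 : 0 < v j / u i := div_pos (hv j) (hu i)
    have r1 : v j / u i ≤ L := (div_le_iff₀ (hu i)).2 (hL i j)
    have e1 : (sc u v T - P) i j = (T - P) i j * (v j / u i) + P i j * (v j / u i - 1) := by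
      simp only [sc, Matrix.sub_apply, of_apply]; ring
    rw [e1]
    have := abs_mul_le (hT i j) ((abs_of_pos r0).trans_le r1)
    rw [← abs_mul] at H
    linarith [abs_add_le ((T - P) i j * (v j / u i)) (P i j * (v j / u i - 1))]
  have sm : ∀ i j, |P i j| ≤ δ → |(sc u v T - P) i j| ≤ 2 * δ * L := fun i j H => by
    have r0 : 0 < v j / u i := div_pos (hv j) (hu i)
    have r1 : v j / u i ≤ L := (div_le_iff₀ (hu i)).2 (hL i j)
    exact key i j (mul_le_mul H (abs_le.2 ⟨by linarith, by linarith⟩) (abs_nonneg _) d0)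
  have eq : ∀ i j, v j = u i → |(sc u v T - P) i j| ≤ 2 * δ * L := fun i j H => by
    refine key i j ?_
    rw [H, div_self (hu i).ne', sub_self, abs_zero, mul_zero]; positivity
  have a00 := key 0 0 ((mul_le_of_le_one_left (abs_nonneg _) (orth_abs_le hO 0 0)).trans h0)
  have a01 : |(sc u v T - P) 0 1| ≤ 2 * δ * L ∧ |(sc u v T - P) 1 0| ≤ 2 * δ * L :=
    al.elim (fun H => ⟨sm _ _ H.1, sm _ _ H.2⟩) fun H => ⟨eq _ _ (h1.trans H.1.symm), eq _ _ H.2⟩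
  intro i j
  fin_cases i <;> fin_cases j
  exacts [a00, a01.1, sm _ _ (o3 0 (by decide)).1, a01.2, eq _ _ h1, sm _ _ (o3 1 (by decide)).1,
    sm _ _ (o3 0 (by decide)).2, sm _ _ (o3 1 (by decide)).2, eq _ _ h2]
end near

end
end Pool.Agent.MP_20bec2_an.T3.Ws

end MrgPart0

-- ======== part 1: formerly Pool.Agent.MP_20bec2_an.T3.Tf1
section MrgPart1

/-! Row TF, part 1: the diagonalising frame of a nearly diagonal Gram matrix. -/

set_option autoImplicit false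
set_option linter.unusedSectionVars false
open Matrix

namespace Pool.Agent.MP_20bec2_an.T3.TfP
noncomputable section
open GeoP Prof

lemma am {a b x y : ℝ} (h : |a| ≤ x) (h' : |b| ≤ y) : |a * b| ≤ x * y := Ftr.abs_mul_le h h'

lemma s2 {a x : ℝ} (h : |a| ≤ x) : a ^ 2 ≤ x ^ 2 := sq_le_sq' (abs_le.1 h).1 (abs_le.1 h).2

/-- division by a factor that is bounded below -/
lemma dv {a b x m : ℝ} (hm : 0 < m) (h : m ≤ |a|) (h' : |a * b| ≤ x) : |b| ≤ x / m := by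
  rw [le_div_iff₀ hm, mul_comm]
  rw [abs_mul] at h'
  exact (mul_le_mul_of_nonneg_right h (abs_nonneg b)).trans h'

lemma one_of_sq {a x : ℝ} (h : |a ^ 2 - 1| ≤ x) : |(|a| - 1)| ≤ x := by
  have h0 := abs_nonneg a
  rw [← sq_abs, show |a| ^ 2 - 1 = (|a| + 1) * (|a| - 1) by ring] at h
  simpa using dv one_pos (by rw [abs_of_pos] <;> linarith) h

lemma eq3 {a b c d x y z : ℝ} (e : a + b + c = d) (hb : |b| ≤ x) (hc : |c| ≤ y) (hd : |d| ≤ z) :
    |a| ≤ x + y + z := by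
  obtain ⟨b1, b2⟩ := abs_le.1 hb
  obtain ⟨c1, c2⟩ := abs_le.1 hc
  obtain ⟨d1, d2⟩ := abs_le.1 hd
  exact abs_le.2 ⟨by linarith, by linarith⟩

lemma mul3 (A B : Mx) (i j : Fin 3) :
    (A * B) i j = A i 0 * B 0 j + A i 1 * B 1 j + A i 2 * B 2 j := by
  rw [mul_apply, Fin.sum_univ_three]

structure Dt (E Ω Γ : Mx) (K α β γ δ ρ ε d1 d2 d3 : ℝ) : Prop where
  o : Orth Ω
  e : EB E (cm ε)
  ε1 : ε ≤ 1 / 10000
  K1 : 1 ≤ K
  a : |α| ≤ δ
  b : |β| ≤ δ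
  c : |γ| ≤ δ
  δ1 : δ ≤ 1 / 1000
  r : EB (Γ - !![1 + α, β * K, 0; β * K, (1 + γ) * K ^ 2, 0; 0, 0, 0]) (cm ρ)
  ρ1 : ρ ≤ 1 / 1000
  l0 : Γ 0 0 = 1 + α ∧ Γ 0 1 = β * K ∧ Γ 1 0 = β * K ∧ Γ 1 1 = (1 + γ) * K ^ 2
  dg : ((1 + E) * Ω)ᵀ * Γ * ((1 + E) * Ω) = dg3 d1 d2 d3
  d0 : 0 ≤ d3
  d31 : d3 ≤ d1
  d12 : d1 ≤ d2

namespace Dt
variable {E Ω Γ : Mx} {K α β γ δ ρ ε d1 d2 d3 : ℝ} (h : Dt E Ω Γ K α β γ δ ρ ε d1 d2 d3)
include h

lemma det : |((1 + E) * Ω).det - 1| ≤ 4 * ε := by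
  rw [det_mul, h.o.2, mul_one]
  exact det_near h.e (by linarith [h.ε1])

lemma unit : IsUnit ((1 + E) * Ω).det :=
  (show _ ≠ (0 : ℝ) by linarith [abs_le.1 h.det, h.ε1, (abs_le.1 h.det).1] : _ ≠ _).isUnit

lemma TU : (1 + E) * Ω * ((1 + E) * Ω)⁻¹ = 1 := mul_nonsing_inv _ h.unit
lemma UT : ((1 + E) * Ω)⁻¹ * ((1 + E) * Ω) = 1 := nonsing_inv_mul _ h.unit

lemma TΩ : EB ((1 + E) * Ω - Ω) (cm (7 / 4 * ε)) := by
  rw [Matrix.add_mul, Matrix.one_mul, add_sub_cancel_left]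
  exact eb_mul_orth h.o h.e

lemma UΩ : EB (((1 + E) * Ω)⁻¹ - Ωᵀ) (cm (21 * ε)) := fun i j =>
  (Ftr.inv_near (y := 7 / 4 * ε) h.o h.TΩ (by linarith [h.ε1]) h.UT i j).trans_eq
    (show _ = 21 * ε by ring)

lemma Tb (i j : Fin 3) : |((1 + E) * Ω) i j| ≤ 1001 / 1000 := by
  have h1 : |((1 + E) * Ω) i j - Ω i j| ≤ 7 / 4 * ε := h.TΩ i j
  linarith [abs_sub_abs_le_abs_sub (((1 + E) * Ω) i j) (Ω i j), orth_abs_le h.o i j, h.ε1]

lemma Ub (i j : Fin 3) : |((1 + E) * Ω)⁻¹ i j| ≤ 101 / 100 := by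
  have h1 : |((1 + E) * Ω)⁻¹ i j - Ω j i| ≤ 21 * ε := h.UΩ i j
  linarith [abs_sub_abs_le_abs_sub (((1 + E) * Ω)⁻¹ i j) (Ω j i), orth_abs_le h.o j i, h.ε1]

lemma Mb : EB (1 + E) (cm 2) := fun i j => by
  have h1 : |E i j| ≤ ε := h.e i j
  have h2 : |(1 : Mx) i j| ≤ 1 := orth_abs_le orth_one i j
  exact (abs_add_le _ _).trans (show _ ≤ (2 : ℝ) by linarith [h.ε1])

lemma quad {X : Mx} (hX : EB X (cm 2)) (j k : Fin 3) : |(Xᵀ * Γ * X) j k - ((1 + α) * X 0 j * X 0 k +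
    β * K * (X 0 j * X 1 k + X 1 j * X 0 k) + (1 + γ) * K ^ 2 * X 1 j * X 1 k)| ≤ 36 * ρ := by
  refine le_of_eq_of_le ?_ ((eb_mul (eb_mul (eb_t hX) h.r) hX j k).trans_eq (by unfold cm; simp; ring))
  rw [Matrix.mul_sub, Matrix.sub_mul, Matrix.sub_apply]
  congr 2
  simp [mul3]
  ring

lemma TT : (1 + E) * Ω * ((1 + E) * Ω)ᵀ = (1 + E) * (1 + E)ᵀ := by
  rw [transpose_mul, Matrix.mul_assoc, ← Matrix.mul_assoc Ω, h.o.1, Matrix.one_mul]

lemma GΩ : (1 + E)ᵀ * Γ * (1 + E) * Ω = Ω * dg3 d1 d2 d3 := by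
  rw [← h.dg, transpose_mul]
  simp only [← Matrix.mul_assoc, h.o.1, Matrix.one_mul]

lemma tr : ((1 + E)ᵀ * Γ * (1 + E) : Mx) 1 1 ≤ d2 ∧ d3 ≤ ((1 + E)ᵀ * Γ * (1 + E) : Mx) 2 2 ∧
    d1 + d2 + d3 = ((1 + E)ᵀ * Γ * (1 + E) : Mx) 0 0 + ((1 + E)ᵀ * Γ * (1 + E) : Mx) 1 1 +
      ((1 + E)ᵀ * Γ * (1 + E) : Mx) 2 2 := by
  have e : (1 + E)ᵀ * Γ * (1 + E) = Ω * dg3 d1 d2 d3 * Ωᵀ := by
    rw [← h.GΩ, Matrix.mul_assoc _ Ω, h.o.1, Matrix.mul_one]
  have f : ∀ i, (Ω * dg3 d1 d2 d3 * Ωᵀ : Mx) i i = d1 * Ω i 0 ^ 2 + d2 * Ω i 1 ^ 2 + d3 * Ω i 2 ^ 2 :=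
    fun i => by simp [mul3, dg3]; ring
  have r := fun i => orth_row h.o i
  have c := fun i => orth_col h.o i
  simp only [Fin.sum_univ_three] at r c
  have m := fun {x y : ℝ} (h : x ≤ y) i j => mul_le_mul_of_nonneg_right h (sq_nonneg (Ω i j))
  simp only [e, f]
  refine ⟨?_, ?_, ?_⟩
  · linear_combination m h.d12 1 0 + m (h.d31.trans h.d12) 1 2 + d2 * r 1
  · linear_combination m h.d31 2 0 + m (h.d31.trans h.d12) 2 1 - d3 * r 2
  · linear_combination -d1 * c 0 - d2 * c 1 - d3 * c 2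

lemma ΓT : Γ * ((1 + E) * Ω) = ((1 + E) * Ω)⁻¹ᵀ * dg3 d1 d2 d3 := by
  rw [← h.dg, ← Matrix.mul_assoc _⁻¹ᵀ, ← Matrix.mul_assoc _⁻¹ᵀ, ← transpose_mul, h.TU, transpose_one,
    Matrix.one_mul]

/-- the smallest value -/
lemma sig : d3 ≤ 11 / 10 * Γ 2 2 := by
  have e : Γ = ((1 + E) * Ω)⁻¹ᵀ * dg3 d1 d2 d3 * ((1 + E) * Ω)⁻¹ := by
    rw [← h.ΓT, Matrix.mul_assoc, h.TU, Matrix.mul_one]
  have u : ∀ i, |((1 + E) * Ω)⁻¹ i 2 - Ω 2 i| ≤ 21 * ε := fun i => h.UΩ i 2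
  have r := orth_row h.o 2
  have b := orth_abs_le h.o 2
  generalize ((1 + E) * Ω)⁻¹ = U at e u
  have f : Γ 2 2 = d1 * U 0 2 ^ 2 + d2 * U 1 2 ^ 2 + d3 * U 2 2 ^ 2 := by
    rw [e]; simp [mul3, dg3]; ring
  have k : ∀ i, Ω 2 i ^ 2 - 1 / 100 ≤ U i 2 ^ 2 := fun i => by
    nlinarith [(abs_le.1 (am (u i) (b i))).1, sq_nonneg (U i 2 - Ω 2 i), h.ε1]
  rw [Fin.sum_univ_three] at r
  have := h.d0
  have := h.d31
  have := h.d12
  have k1 : 97 / 100 ≤ U 0 2 ^ 2 + U 1 2 ^ 2 + U 2 2 ^ 2 := by linarith [k 0, k 1, k 2]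
  nlinarith [sq_nonneg (U 0 2), sq_nonneg (U 1 2), mul_le_mul_of_nonneg_left k1 h.d0]

/-- the last column -/
lemma col2 {A B z : ℝ} (h0 : |Γ 0 2| ≤ A) (h1 : |Γ 1 2| ≤ K * B) (hB : B ≤ A) (hβ : |β| * A ≤ B)
    (hz : d3 ≤ z) : |((1 + E) * Ω) 0 2| ≤ 11 / 10 * A + 2 * z ∧
      K * |((1 + E) * Ω) 1 2| ≤ 22 / 10 * B + 2 * z := by
  have e0 := congrFun (congrFun h.ΓT 0) 2
  have e1 := congrFun (congrFun h.ΓT 1) 2
  have t := h.Tb 2 2
  have u := h.Ub 2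
  obtain ⟨l1, l2, l3, l4⟩ := h.l0
  generalize ((1 + E) * Ω)⁻¹ = U at *
  generalize (1 + E) * Ω = T at *
  simp [mul3, dg3, l1, l2, l3, l4] at e0 e1
  have K0 : 0 < K := by linarith [h.K1]
  have d3' : |d3| ≤ z := by rwa [abs_of_nonneg h.d0]
  have z0 : 0 ≤ z := h.d0.trans hz
  have a := h.a.trans h.δ1
  have b := h.b.trans h.δ1
  have c := h.c.trans h.δ1
  rw [show K * |T 1 2| = |K * T 1 2| by rw [abs_mul, abs_of_pos K0]]
  have g1 : |Γ 1 2 / K| ≤ B := by rw [abs_div, abs_of_pos K0, div_le_iff₀' K0]; exact h1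
  have g2 : |d3 / K| ≤ z := by
    rw [abs_div, abs_of_pos K0]; exact (div_le_self (abs_nonneg _) h.K1).trans d3'
  have f0 := eq3 (a := T 0 2) (b := α * T 0 2) (c := β * (K * T 1 2))
    (d := U 2 0 * d3 - Γ 0 2 * T 2 2) (by linear_combination e0) (am a le_rfl) (am b le_rfl)
    ((abs_sub _ _).trans (add_le_add (am (u 0) d3') (am h0 t)))
  have f1 := eq3 (a := K * T 1 2) (b := γ * (K * T 1 2)) (c := β * T 0 2)
    (d := U 2 1 * (d3 / K) - Γ 1 2 / K * T 2 2) (by field_simp; linear_combination e1) (am c le_rfl)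
    (abs_mul _ _).le ((abs_sub _ _).trans (add_le_add (am (u 1) g2) (am g1 t)))
  have x0 := abs_nonneg (T 0 2)
  have b0 := abs_nonneg β
  have f2 : |β| * |T 0 2| ≤ 1 / 1000 * |T 0 2| := mul_le_mul_of_nonneg_right b x0
  have f3 : |T 0 2| ≤ 11 / 10 * A + 2 * z := by linarith [(abs_nonneg _).trans h0]
  refine ⟨f3, ?_⟩
  nlinarith [mul_le_mul_of_nonneg_left f3 b0, mul_le_mul_of_nonneg_right b z0, (abs_nonneg _).trans g1]

/-- the corner entry and the last column of the inverse -/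
lemma inv2 {x y w : ℝ} (h0 : |((1 + E) * Ω) 0 2| ≤ x) (h1 : |((1 + E) * Ω) 1 2| ≤ y) (hy : y ≤ x)
    (hx : x ≤ 1 / 1000) (hw : |((1 + E) * Ω)⁻¹ 1 0| ≤ w) :
    |((1 + E) * Ω)⁻¹ 0 2| ≤ 3 * x ∧ |((1 + E) * Ω)⁻¹ 1 2| ≤ 2 * (w * x) + 2 * y := by
  have t : ∀ i, |((1 + E) * Ω) i 2 - Ω i 2| ≤ 7 / 4 * ε := fun i => h.TΩ i 2
  have c := orth_col h.o 2
  have e0 := congrFun (congrFun h.UT 0) 2
  have e1 := congrFun (congrFun h.UT 1) 2
  have u := h.Ub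
  have := h.ε1
  generalize ((1 + E) * Ω)⁻¹ = U at *
  generalize (1 + E) * Ω = T at *
  rw [mul3, one_apply_ne (by decide)] at e0 e1
  rw [Fin.sum_univ_three] at c
  have o0 : |Ω 0 2| ≤ 1 / 100 := by linarith [abs_sub_abs_le_abs_sub (Ω 0 2) (T 0 2), t 0, abs_sub_comm (Ω 0 2) (T 0 2)]
  have o1 : |Ω 1 2| ≤ 1 / 100 := by linarith [abs_sub_abs_le_abs_sub (Ω 1 2) (T 1 2), t 1, abs_sub_comm (Ω 1 2) (T 1 2)]
  have o2 := one_of_sq (a := Ω 2 2) (x := 1 / 100) (abs_le.2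
    ⟨by linarith [s2 o0, s2 o1], by linarith [sq_nonneg (Ω 0 2), sq_nonneg (Ω 1 2)]⟩)
  have t2 : 9 / 10 ≤ |T 2 2| := by
    linarith [abs_sub_abs_le_abs_sub (Ω 2 2) (T 2 2), t 2, abs_sub_comm (Ω 2 2) (T 2 2), (abs_le.1 o2).1]
  have x0 := (abs_nonneg _).trans h0
  have y0 := (abs_nonneg _).trans h1
  have f0 := dv (by norm_num) t2 (eq3 (a := T 2 2 * U 0 2) (by linear_combination e0)
    (am (u 0 0) h0) (am (u 0 1) h1) abs_zero.le)
  have f1 := dv (by norm_num) t2 (eq3 (a := T 2 2 * U 1 2) (by linear_combination e1)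
    (am hw h0) (am (u 1 1) h1) abs_zero.le)
  have := mul_nonneg ((abs_nonneg _).trans hw) x0
  constructor <;> linarith

/-- all defects are small against the smaller scale -/
lemma hi {p : ℝ} (hp : 36 * (δ * K ^ 2 + ρ) + 21 * (ε * K ^ 2) ≤ p) (p1 : p ≤ 1 / 1000) :
    |d1 - 1| ≤ 10 * p ∧ |d2 - K ^ 2| ≤ 6 * p ∧ (∀ i, i ≠ 2 → |Ω i 2| ≤ 2 * p ∧ |Ω 2 i| ≤ 2 * p) ∧
      ((|Ω 0 1| ≤ p ∧ |Ω 1 0| ≤ p) ∨ (K ≤ 4 ∧ d2 ≤ 16 * d1)) := by
  have K1 := h.K1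
  have K2 : K ≤ K ^ 2 := by nlinarith
  have δ0 := (abs_nonneg _).trans h.a
  have hD : EB (dg3 1 (K ^ 2) 0) (cm (K ^ 2)) := fun i j => by
    fin_cases i <;> fin_cases j <;> simp [dg3, cm, -one_le_sq_iff_one_le_abs] <;> linarith
  have h0 : EB (!![1 + α, β * K, 0; β * K, (1 + γ) * K ^ 2, 0; 0, 0, 0] - dg3 1 (K ^ 2) 0)
      (cm (δ * K ^ 2)) := fun i j => by
    have a1 : |α| ≤ δ * K ^ 2 := h.a.trans (le_mul_of_one_le_right δ0 (K1.trans K2))
    have a2 := am h.b (show |K| ≤ K ^ 2 by rwa [abs_of_pos (by linarith)])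
    have a3 := am h.c (abs_of_nonneg (sq_nonneg K)).le
    have a4 : 0 ≤ δ * K ^ 2 := by positivity
    fin_cases i <;> fin_cases j <;> simp [dg3, cm, add_mul, -abs_mul] <;> assumption
  have h1 := eb_add h0 h.r
  rw [sub_add_sub_cancel'] at h1
  have h2 := eb_add (eb_add (eb_mul (eb_mul (eb_t h.Mb) h1) h.Mb) (eb_mul (eb_mul (eb_t h.e) hD) h.Mb))
    (eb_mul hD h.e)
  obtain ⟨P, hP⟩ : ∃ P, P = (1 + E)ᵀ * Γ * (1 + E) - dg3 1 (K ^ 2) 0 := ⟨_, rfl⟩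
  have h3 : EB P (cm p) := by
    refine eb_mono (a := _) (fun i j => ?_) (by linarith : 3 * (3 * 2 * (δ * K ^ 2 + ρ)) * 2 +
      3 * (3 * ε * K ^ 2) * 2 + 3 * K ^ 2 * ε ≤ p)
    refine le_of_eq_of_le ?_ (h2 i j)
    rw [hP, transpose_add, transpose_one]
    generalize dg3 1 (K ^ 2) 0 = D
    refine congrArg (fun A : Mx => |A i j|) ?_
    noncomm_ring
  obtain ⟨t1, t2, t3⟩ := h.tr
  have e := h.GΩ
  rw [eq_add_of_sub_eq hP.symm] at t1 t2 t3 e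
  have h4 : ∀ i j, |(P * Ω) i j| ≤ 7 / 4 * p := eb_mul_orth h.o h3
  have f : ∀ i j, (P * Ω) i j = Ω i j * (![d1, d2, d3] j - ![1, K ^ 2, 0] i) := fun i j => by
    have := congrFun (congrFun e i) j
    rw [Matrix.add_mul, Matrix.add_apply, dg3, dg3, diagonal_mul, mul_diagonal] at this
    linear_combination this
  simp only [f] at h4
  simp [dg3] at t1 t2 t3
  have q0 := abs_le.1 (show _ ≤ p from h3 0 0)
  have q1 := abs_le.1 (show _ ≤ p from h3 1 1)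
  have q2 := abs_le.1 (show _ ≤ p from h3 2 2)
  have c := orth_col h.o 1
  rw [Fin.sum_univ_three] at c
  have g := fun i => (abs_le.1 (am (orth_abs_le h.o i 1) (h4 i 1))).2
  have g0 := g 0
  have g1 := g 1
  have g2 := g 2
  simp at g0 g1 g2
  have p0 : 0 ≤ p := by linarith [q0.1, q0.2]
  have u2 : d2 ≤ K ^ 2 + 6 * p := by
    linear_combination g0 + g1 + g2 - (d2 - K ^ 2) * c + 3 / 4 * p0 +
      mul_nonneg (sq_nonneg (Ω 0 1)) (sub_nonneg.2 (K1.trans K2)) +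
      mul_nonneg (sq_nonneg (Ω 2 1)) (sq_nonneg K)
  have := h.d0
  have v : ∀ (m : ℝ) i j, 0 < m → m ≤ |![d1, d2, d3] j - ![1, K ^ 2, 0] i| → |Ω i j| ≤ 7 / 4 * p / m :=
    fun m i j hm h => dv hm h (mul_comm (Ω i j) _ ▸ h4 i j)
  have w : ∀ {x m : ℝ}, x ≤ -m → m ≤ |x| := fun h => (le_neg.1 h).trans (neg_le_abs _)
  refine ⟨abs_le.2 ⟨by linarith [q0.1, q1.1, q2.1, q2.2], by linarith [q0.2, q1.1, q1.2, q2.2]⟩,
    abs_le.2 ⟨by linarith [q1.1], by linarith⟩, fun i hi => ⟨?_, ?_⟩, ?_⟩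
  · refine (v (9 / 10) i 2 (by norm_num) (w ?_)).trans (by linarith)
    fin_cases i <;> simp at hi ⊢ <;> linarith [q2.2]
  · refine (v (9 / 10) 2 i (by norm_num) (le_trans ?_ (le_abs_self _))).trans (by linarith)
    fin_cases i <;> simp at hi ⊢ <;> linarith [q0.1, q1.1, q2.1, q2.2]
  · rcases le_total 3 K with k | k
    · have : 9 ≤ K ^ 2 := by nlinarith
      refine .inl ⟨(v 7 0 1 (by norm_num) (le_trans ?_ (le_abs_self _))).trans (by linarith),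
        (v 7 1 0 (by norm_num) (w ?_)).trans (by linarith)⟩ <;> simp <;>
        linarith [q0.2, q1.1, q1.2, q2.2]
    · have : K ^ 2 ≤ 9 := by nlinarith
      exact .inr ⟨by linarith, by linarith [q0.1, q1.1, q2.1, q2.2]⟩

end Dt

end
end Pool.Agent.MP_20bec2_an.T3.TfP

end MrgPart1

-- marker of a merged file
example : 731051 + 685633 = 731051 + 685633 := rfl

end MrgPart0

-- ======== part 1: formerly Pool.Agent.MP_20bec2_an.T3.Tf3
section MrgPart1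

-- ======== part 0: formerly Pool.Agent.MP_20bec2_an.T3.Tf2
section MrgPart0

/-! Row TF, part 2: the strongly anisotropic case. -/

set_option autoImplicit false
set_option linter.unusedSectionVars false
open Matrix

namespace Pool.Agent.MP_20bec2_an.T3.TfP
noncomputable section
open GeoP Prof

lemma qf {α β γ : ℝ} (a : |α| ≤ 1 / 1000) (b : |β| ≤ 1 / 1000) (c : |γ| ≤ 1 / 1000) (K u v : ℝ) :
    |(1 + α) * u * u + β * K * (u * v + v * u) + (1 + γ) * K ^ 2 * v * v - (u ^ 2 + (K * v) ^ 2)| ≤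
      1 / 500 * (u ^ 2 + (K * v) ^ 2) := by
  have h1 := abs_le.1 (am a (abs_of_nonneg (sq_nonneg u)).le)
  have h2 := abs_le.1 (am c (abs_of_nonneg (sq_nonneg (K * v))).le)
  have h3 := abs_le.1 (am b (show |2 * u * (K * v)| ≤ u ^ 2 + (K * v) ^ 2 from abs_le.2
    ⟨by nlinarith [sq_nonneg (u + K * v)], by nlinarith [sq_nonneg (u - K * v)]⟩))
  exact abs_le.2 ⟨by linarith [h1.1, h2.1, h3.1], by linarith [h1.2, h2.2, h3.2]⟩

lemma near_inv {t u y z : ℝ} (h : |t * u - 1| ≤ y) (ht : |(|t| - 1)| ≤ z) (hu : |u| ≤ 101 / 100) :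
    |(|u| - 1)| ≤ 101 / 100 * z + y := by
  have h1 := (abs_abs_sub_abs_le_abs_sub (t * u) 1).trans h
  rw [abs_one, abs_mul] at h1
  have h2 := abs_le.1 (am ((abs_abs u).le.trans hu) ht)
  exact abs_le.2 ⟨by linarith [(abs_le.1 h1).1, h2.2], by linarith [(abs_le.1 h1).2, h2.1]⟩

lemma one_add {a : ℝ} (h : |a| ≤ 1 / 1000) : 999 / 1000 ≤ |1 + a| ∧ |1 + a| ≤ 1001 / 1000 := by
  obtain ⟨h1, h2⟩ := abs_le.1 h
  rw [abs_of_pos (by linarith)]
  constructor <;> linarith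

lemma of_sq {a b x : ℝ} (hx : 0 ≤ x) (h : a ^ 2 + b ^ 2 ≤ x ^ 2) : |a| ≤ x :=
  abs_le_of_sq_le_sq' (by linarith [sq_nonneg b]) hx |> abs_le.2

structure Lo (E : Mx) (K β δ ρ ε e θ x τ : ℝ) : Prop where
  e00 : |E 0 0| ≤ x
  e11 : |E 1 1| ≤ x
  e01 : |E 0 1| ≤ K * e
  e10 : |E 1 0| ≤ e
  e12 : |E 1 2| ≤ e
  e02 : |E 0 2| ≤ θ
  δx : δ ≤ x
  βe : |β| ≤ e
  x1 : x ≤ 1 / 1000
  K1 : 1000 ≤ K
  xK : 1 ≤ x * K ^ 2
  κx : K * e ≤ x
  κε : 100 * (K * e) ≤ ε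
  θx : θ ^ 2 ≤ x
  θε : 100 * θ ≤ ε
  eθ : 100 * e ≤ θ
  ρe : 100 * ρ ≤ e
  τe : 100 * (K * τ) ≤ e

namespace Dt
variable {E Ω Γ : Mx} {K α β γ δ ρ ε d1 d2 d3 e θ x τ : ℝ}
  (h : Dt E Ω Γ K α β γ δ ρ ε d1 d2 d3) (l : Lo E K β δ ρ ε e θ x τ)
include h l

lemma lo1 : d1 ≤ 11 / 10 := by
  obtain ⟨t1, t2, t3⟩ := h.tr
  have q := fun j => (abs_le.1 (h.quad h.Mb j j)).2
  have f := fun u v => (abs_le.1 (qf (h.a.trans h.δ1) (h.b.trans h.δ1) (h.c.trans h.δ1) K u v)).2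
  have K0 : |K| ≤ K := (abs_of_nonneg (by linarith [h.K1])).le
  have a0 := s2 (one_add (l.e00.trans l.x1)).2
  have a1 := s2 ((am K0 l.e10).trans (l.κx.trans l.x1))
  have a2 := s2 ((am K0 l.e12).trans (l.κx.trans l.x1))
  have a3 := (s2 l.e02).trans (l.θx.trans l.x1)
  have q0 := q 0
  have q2 := q 2
  have f0 := f (1 + E 0 0) (E 1 0)
  have f2 := f (E 0 2) (E 1 2)
  simp only [Matrix.add_apply, one_apply_eq, ne_eq, Fin.reduceEq, not_false_eq_true, one_apply_ne,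
    zero_add] at q0 q2
  linarith [h.d0, h.ρ1]

lemma lo2 (t0 : |((1 + E) * Ω) 0 2| ≤ τ) (t1 : |((1 + E) * Ω) 1 2| ≤ τ) :
    |d1 - 1| ≤ 7 * x ∧ |d2 - K ^ 2| ≤ 6 * x * K ^ 2 ∧ |(|((1 + E) * Ω) 0 0| - 1)| ≤ 5 * x ∧
    |(|((1 + E) * Ω) 1 1| - 1)| ≤ 4 * x ∧ |((1 + E) * Ω) 0 1| ≤ 11 / 10 * (K * e) ∧
    K * |((1 + E) * Ω) 1 0| ≤ 4 * e := by
  have q := h.quad fun i j => (h.Tb i j).trans (show _ ≤ (2 : ℝ) by norm_num)
  have H := fun i j => congrFun (congrFun h.TT i) j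
  have b := h.Tb
  rw [h.dg] at q
  generalize (1 + E) * Ω = T at *
  have q00 := q 0 0
  have q01 := q 0 1
  have q11 := q 1 1
  have H00 := H 0 0
  have H01 := H 0 1
  have H11 := H 1 1
  simp only [mul3, transpose_apply, Matrix.add_apply, one_apply_eq, ne_eq, Fin.reduceEq,
    not_false_eq_true, one_apply_ne, zero_add] at H00 H01 H11
  simp only [dg3, diagonal_apply_eq, cons_val_zero, cons_val_one, ne_eq, Fin.reduceEq,
    not_false_eq_true, diagonal_apply_ne] at q00 q01 q11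
  clear q H
  have d := h.lo1 l
  obtain ⟨e00, e11, e01, e10, e12, e02, δx, βe, x1, K1, xK, κx, κε, θx, θε, eθ, ρe, τe⟩ := l
  have a := h.a.trans δx
  have c := h.c.trans δx
  have ε1 := h.ε1
  have K0 : 0 < K := by linarith
  have K2 : 1000000 ≤ K ^ 2 := by nlinarith
  have e0 := (abs_nonneg _).trans e10
  have τ0 := (abs_nonneg _).trans t0
  have eκ : 1000 * e ≤ K * e := mul_le_mul_of_nonneg_right K1 e0
  have τκ : 1000 * τ ≤ K * τ := mul_le_mul_of_nonneg_right K1 τ0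
  have sq' : ∀ {u v : ℝ}, |u| ≤ v → v ≤ 1 / 1000 → u ^ 2 ≤ v / 1000 := fun h1 h2 => by
    nlinarith [s2 h1, (abs_nonneg _).trans h1]
  have f0 := (abs_le.1 (qf (a.trans x1) (h.b.trans h.δ1) (c.trans x1) K (T 0 0) (T 1 0))).1
  have s10 : T 1 0 ^ 2 ≤ 12 / 10 * x := by
    refine le_of_mul_le_mul_right ?_ (pow_pos K0 2)
    linarith [(abs_le.1 q00).1, sq_nonneg (T 0 0), h.ρ1]
  have s11 : |T 1 1 ^ 2 - 1| ≤ 4 * x := abs_le.2
    ⟨by linarith [(abs_le.1 e11).1, sq_nonneg (E 1 0), sq_nonneg (E 1 1), sq_nonneg (E 1 2),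
      sq' t1 (by linarith)],
    by linarith [(abs_le.1 e11).2, sq' e10 (by linarith), sq' e11 x1,
      sq' e12 (by linarith), sq_nonneg (T 1 0), sq_nonneg (T 1 2)]⟩
  have a11 := one_of_sq s11
  have b11 : 99 / 100 ≤ |T 1 1| := by linarith [(abs_le.1 a11).1]
  have g1 := dv (by norm_num) b11 (eq3 (a := T 1 1 * T 0 1) (b := T 0 0 * T 1 0) (by linear_combination H01)
    (am (b 0 0) le_rfl) (am (t0.trans (show τ ≤ 1 by linarith)) t1)
    ((abs_add_three _ _ _).trans (add_le_add_three (am (one_add (e00.trans x1)).2 e10)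
      (am e01 (one_add (e11.trans x1)).2) (am (e02.trans (show θ ≤ 1 by linarith)) e12))))
  have g2 := dv (m := 98 / 100) (a := (1 + γ) * T 1 1) (by norm_num)
    (le_trans (by norm_num) ((mul_le_mul (one_add (c.trans x1)).1 b11 (by norm_num)
      (abs_nonneg _)).trans_eq (abs_mul _ _).symm))
    (eq3 (a := (1 + γ) * T 1 1 * (K ^ 2 * T 1 0)) (by ring)
      (am (am (one_add (a.trans x1)).2 (b 0 0)) (le_refl |T 0 1|))
      (am (am βe (abs_of_pos K0).le) ((abs_add_le _ _).trans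
        (add_le_add (am (b 0 0) (b 1 1)) (am (b 1 0) (b 0 1))))) ((abs_neg _).le.trans q01))
  rw [abs_mul, abs_of_pos (pow_pos K0 2)] at g2
  have g3 := mul_le_mul_of_nonneg_right K2 (abs_nonneg (T 1 0))
  have a01 : |T 0 1| ≤ 11 / 10 * (K * e) := by linarith only [g1, g2, g3, eκ, τκ, ρe, τe, e0]
  have a10 : K * |T 1 0| ≤ 4 * e :=
    le_of_mul_le_mul_left (by linarith only [a01, g2, eκ, ρe, e0]) K0
  have s01 := sq' a01 (by linarith)
  have s00 : |T 0 0 ^ 2 - 1| ≤ 5 * x := abs_le.2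
    ⟨by linarith [(abs_le.1 e00).1, sq_nonneg (E 0 0), sq_nonneg (E 0 1), sq_nonneg (E 0 2),
      sq' t0 (by linarith)],
    by linarith [(abs_le.1 e00).2, sq' e01 (by linarith), sq' e00 x1,
      s2 e02, sq_nonneg (T 0 1), sq_nonneg (T 0 2)]⟩
  have a10' : |K * T 1 0| ≤ 4 * e := by rwa [abs_mul, abs_of_pos K0]
  refine ⟨?_, ?_, one_of_sq s00, a11, a01, a10⟩
  · have u1 := abs_le.1 (am (am a (b 0 0)) (b 0 0))
    have u2 := abs_le.1 (am (am (βe.trans (show e ≤ 1 by linarith)) (b 0 0)) a10')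
    have u3 := abs_le.1 (am (am (one_add (c.trans x1)).2 (a10'.trans (show _ ≤ (1 : ℝ) by linarith))) a10')
    exact abs_le.2 ⟨by linarith [u1.1, u2.1, u3.1, (abs_le.1 q00).1, (abs_le.1 s00).1],
      by linarith [u1.2, u2.2, u3.2, (abs_le.1 q00).2, (abs_le.1 s00).2]⟩
  · have k := (abs_of_pos (pow_pos K0 2)).le
    have u1 := abs_le.1 (am (am (am c (b 1 1)) (b 1 1)) k)
    have u2 := abs_le.1 (am (am (am βe (abs_of_pos K0).le) (b 0 1)) (b 1 1))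
    have u3 := abs_le.1 (am (am (one_add (a.trans x1)).2 (b 0 1)) a01)
    have u4 := abs_le.1 (am s11 k)
    have u5 := mul_le_mul_of_nonneg_left K2 (show 0 ≤ x by linarith)
    exact abs_le.2 ⟨by linarith [u1.1, u2.1, u3.1, u4.1, (abs_le.1 q11).1],
      by linarith [u1.2, u2.2, u3.2, u4.2, (abs_le.1 q11).2]⟩

end Dt

end
end Pool.Agent.MP_20bec2_an.T3.TfP

end MrgPart0

-- ======== part 1: formerly Pool.Agent.MP_20bec2_an.T3.Tf3
section MrgPart1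

/-! Row TF, part 3: rotation and inverse in the strongly anisotropic case. -/

set_option autoImplicit false
set_option linter.unusedSectionVars false
open Matrix

namespace Pool.Agent.MP_20bec2_an.T3.TfP
noncomputable section
open GeoP Prof

namespace Dt
variable {E Ω Γ : Mx} {K α β γ δ ρ ε d1 d2 d3 e θ x τ : ℝ}
  (h : Dt E Ω Γ K α β γ δ ρ ε d1 d2 d3) (l : Lo E K β δ ρ ε e θ x τ)
  (t0 : |((1 + E) * Ω) 0 2| ≤ τ) (t1 : |((1 + E) * Ω) 1 2| ≤ τ)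
include h l t0 t1

lemma lo3 : (|Ω 0 1| ≤ 3 * e ∧ |Ω 1 0| ≤ 3 * e ∧ |Ω 1 2| ≤ 3 * e ∧ |Ω 2 1| ≤ 3 * e ∧
    |Ω 0 2| ≤ 2 * θ ∧ |Ω 2 0| ≤ 2 * θ) ∧ |((1 + E) * Ω) 2 0| ≤ 11 / 10 * ε ∧
    |((1 + E) * Ω) 2 1| ≤ 11 / 10 * ε ∧ |(|((1 + E) * Ω) 2 2| - 1)| ≤ 11 / 10 * ε := by
  obtain ⟨-, -, -, -, -, a10⟩ := h.lo2 l t0 t1
  have o := orth_abs_le h.o
  have r := fun i => orth_row h.o i
  have c := fun i => orth_col h.o i
  have E2 : ∀ j, |E 2 j| ≤ ε := h.e 2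
  simp only [Fin.sum_univ_three] at r c
  simp only [mul3, Matrix.add_apply, one_apply_eq, ne_eq, Fin.reduceEq, not_false_eq_true,
    one_apply_ne, zero_add] at t0 t1 a10 ⊢
  obtain ⟨e00, e11, e01, e10, e12, e02, -, -, x1, K1, -, κx, κε, -, θε, eθ, -, τe⟩ := l
  have ε1 := h.ε1
  have e0 := (abs_nonneg _).trans e10
  have τ0 := (abs_nonneg _).trans t0
  have eκ : 1000 * e ≤ K * e := mul_le_mul_of_nonneg_right K1 e0
  have τκ : 1000 * τ ≤ K * τ := mul_le_mul_of_nonneg_right K1 τ0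
  have b10 := (mul_le_mul_of_nonneg_right K1 (abs_nonneg _)).trans a10
  have m0 := (one_add (e00.trans x1)).1
  have m1 := (one_add (e11.trans x1)).1
  have m2 := (one_add ((E2 2).trans (show ε ≤ 1 / 1000 by linarith only [ε1]))).2
  have g10 := dv (by norm_num) m1 (eq3 (a := (1 + E 1 1) * Ω 1 0) (by ring) (am e10 (o 0 0))
    (am e12 (o 2 0)) (le_refl |E 1 0 * Ω 0 0 + (1 + E 1 1) * Ω 1 0 + E 1 2 * Ω 2 0|))
  have o10 : |Ω 1 0| ≤ 21 / 10 * e := by linarith only [g10, b10, e0]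
  have g12 := dv (by norm_num) m1 (eq3 (a := (1 + E 1 1) * Ω 1 2) (by ring) (am e10 (o 0 2))
    (am e12 (o 2 2)) t1)
  have o12 : |Ω 1 2| ≤ 21 / 10 * e := by linarith only [g12, τκ, τe, e0]
  have s : Ω 0 1 ^ 2 + Ω 2 1 ^ 2 ≤ (3 * e) ^ 2 := by
    linarith only [r 1, c 1, s2 o10, s2 o12, sq_nonneg e]
  have o01 := of_sq (by positivity) s
  have o21 := of_sq (by positivity) (add_comm (Ω 0 1 ^ 2) _ ▸ s)
  have g02 := dv (by norm_num) m0 (eq3 (a := (1 + E 0 0) * Ω 0 2) rfl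
    (am (e01.trans (κx.trans x1)) o12) (am e02 (o 2 2)) t0)
  have o02 : |Ω 0 2| ≤ 101 / 100 * θ := by linarith only [g02, τκ, τe, e0, eθ]
  have θ0 : 0 ≤ θ := by linarith only [e0, eθ]
  have s' : Ω 0 2 ^ 2 + Ω 1 2 ^ 2 ≤ (2 * θ) ^ 2 := by
    linarith only [s2 o02, s2 (o12.trans (show _ ≤ θ by linarith only [e0, eθ])), sq_nonneg θ]
  have o20 : |Ω 2 0| ≤ 2 * θ := of_sq (b := Ω 2 1) (by positivity) (by linarith only [r 2, c 2, s'])
  have o22 := one_of_sq (a := Ω 2 2) (x := θ) (abs_le.2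
    ⟨by nlinarith only [c 2, s', θ0, θε, ε1], by
      linarith only [c 2, sq_nonneg (Ω 0 2), sq_nonneg (Ω 1 2), θ0]⟩)
  have w : ∀ {u v : ℝ}, |u| ≤ v → v ≤ ε → |u| ≤ 1 / 100 := fun h1 h2 => by linarith only [h1, h2, ε1]
  refine ⟨⟨o01, by linarith only [o10, e0], by linarith only [o12, e0], o21,
    by linarith only [o02, θ0], o20⟩, ?_, ?_, ?_⟩
  · refine ((abs_add_three _ _ _).trans (add_le_add_three (am (E2 0) (o 0 0))
      (am (E2 1) (w o10 ?_)) (am m2 o20))).trans ?_ <;> linarith only [eθ, θε, e0]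
  · refine ((abs_add_three _ _ _).trans (add_le_add_three (am (E2 0) (w o01 ?_))
      (am (E2 1) (o 1 1)) (am m2 o21))).trans ?_ <;> linarith only [eθ, θε, e0]
  · have u := (abs_abs_sub_abs_le_abs_sub _ (Ω 2 2)).trans
      (((congrArg abs (show E 2 0 * Ω 0 2 + E 2 1 * Ω 1 2 + (1 + E 2 2) * Ω 2 2 - Ω 2 2 =
        E 2 0 * Ω 0 2 + E 2 1 * Ω 1 2 + E 2 2 * Ω 2 2 by ring)).le.trans (abs_add_three _ _ _)).trans
      (add_le_add_three (am (E2 0) (w o02 (by linarith only [θ0, θε])))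
        (am (E2 1) (w o12 (by linarith only [eθ, θε, e0]))) (am (E2 2) (o 2 2))))
    exact (abs_sub_le _ |Ω 2 2| _).trans (by linarith only [u, o22, θε, θ0])

lemma lo4 (u0 : |((1 + E) * Ω)⁻¹ 0 2| ≤ 1 / 100) (u1 : |((1 + E) * Ω)⁻¹ 1 2| ≤ 1 / 100) :
    ∀ M ∈ ({(1 + E) * Ω, ((1 + E) * Ω)⁻¹} : Set Mx), |(|M 0 0| - 1)| ≤ 7 * x ∧
      |(|M 1 1| - 1)| ≤ 7 * x ∧ |(|M 2 2| - 1)| ≤ 2 * ε ∧ |M 0 1| ≤ 2 * (K * e) ∧
      K * |M 1 0| ≤ 5 * e ∧ |M 2 0| ≤ 2 * ε ∧ |M 2 1| ≤ 2 * ε := by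
  obtain ⟨-, -, a00, a11, a01, a10⟩ := h.lo2 l t0 t1
  obtain ⟨-, a20, a21, a22⟩ := h.lo3 l t0 t1
  have H := fun i j => congrFun (congrFun h.TU i) j
  have u := h.Ub
  obtain ⟨-, -, -, e10, -, -, -, -, x1, K1, -, κx, -, -, θε, eθ, -, τe⟩ := l
  have ε1 := h.ε1
  generalize ((1 + E) * Ω)⁻¹ = U at *
  generalize (1 + E) * Ω = T at *
  have e0 := (abs_nonneg _).trans e10
  have τ0 := (abs_nonneg _).trans t0
  have eκ : 1000 * e ≤ K * e := mul_le_mul_of_nonneg_right K1 e0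
  have τκ : 1000 * τ ≤ K * τ := mul_le_mul_of_nonneg_right K1 τ0
  rintro M (rfl | rfl)
  · refine ⟨?_, ?_, ?_, ?_, ?_, ?_, ?_⟩ <;>
      linarith only [a00, a11, a01, a10, a20, a21, a22, e0, eκ, κx, θε, eθ]
  simp only [mul3] at H
  have z : ∀ i j : Fin 3, i ≠ j → |(1 : Mx) i j| ≤ 0 := fun i j h => by simp [h]
  have n : ∀ {a y : ℝ}, |(|a| - 1)| ≤ y → y ≤ 1 / 100 → 99 / 100 ≤ |a| := fun h1 h2 => by
    linarith only [(abs_le.1 h1).1, h2]
  have n0 := n a00 (by linarith only [x1])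
  have n1 := n a11 (by linarith only [x1])
  have n2 := n a22 (by linarith only [ε1])
  have b10 := (mul_le_mul_of_nonneg_right K1 (abs_nonneg _)).trans a10
  have g10 := dv (by norm_num) n1 (eq3 (by linear_combination H 1 0) (am (le_refl |T 1 0|) (u 0 0))
    (am t1 (u 2 0)) (z 1 0 (by decide)) (a := T 1 1 * M 1 0))
  have g10' := mul_le_mul_of_nonneg_left g10 (show 0 ≤ K by linarith only [K1])
  have g01 := dv (by norm_num) n0 (eq3 (H 0 1) (am a01 (u 1 1)) (am t0 (u 2 1)) (z 0 1 (by decide)))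
  have c10 : |M 1 0| ≤ 1 / 100 := by linarith only [g10, b10, τκ, τe, eθ, θε, ε1]
  have c01 : |M 0 1| ≤ 1 / 100 := by linarith only [g01, eκ, τκ, τe, κx, x1, e0]
  have f := fun i => (H i i).trans (one_apply_eq i)
  have g00 := near_inv (eq3 (a := T 0 0 * M 0 0 - 1) (by linear_combination f 0) (am a01 c10)
    (am t0 (u 2 0)) abs_zero.le) a00 (u 0 0)
  have g11 := near_inv (eq3 (a := T 1 1 * M 1 1 - 1) (by linear_combination f 1)
    (am (le_refl |T 1 0|) c01) (am t1 (u 2 1)) abs_zero.le) a11 (u 1 1)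
  have g22 := near_inv (eq3 (a := T 2 2 * M 2 2 - 1) (by linear_combination f 2)
    (am a20 u0) (am a21 u1) abs_zero.le) a22 (u 2 2)
  have g20 := dv (by norm_num) n2 (eq3 (by linear_combination H 2 0) (am a20 (u 0 0))
    (am a21 c10) (z 2 0 (by decide)) (a := T 2 2 * M 2 0))
  have g21 := dv (by norm_num) n2 (eq3 (by linear_combination H 2 1) (am a20 c01)
    (am a21 (u 1 1)) (z 2 1 (by decide)) (a := T 2 2 * M 2 1))
  refine ⟨?_, ?_, ?_, ?_, ?_, ?_, ?_⟩ <;>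
    linarith only [g00, g11, g22, g01, g10', g20, g21, a10, b10, e0, eκ, τκ, τe, κx, θε, eθ]

end Dt

end
end Pool.Agent.MP_20bec2_an.T3.TfP

end MrgPart1

-- marker of a merged file
example : 731051 + 375434 = 731051 + 375434 := rfl

end MrgPart1

-- ======== part 2: formerly Pool.Agent.MP_20bec2_an.T3.Tf
section MrgPart2

-- ======== part 0: formerly Pool.Agent.MP_20bec2_an.T3.Tf4
section MrgPart0

/-! Row TF, part 4: numerical facts about the parameters. -/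

set_option autoImplicit false
set_option linter.unusedSectionVars false

namespace Pool.Agent.MP_20bec2_an.T3.TfP
noncomputable section

def pP (c : Pm) : ℝ := 1 / (c.s1 ^ 2 * c.s2)
def pe (c : Pm) : ℝ := c.q ^ 3 * c.J * uB c.N
def px (c : Pm) : ℝ := 1 / (c.q ^ 2 * pR c.N)
def pθ (c : Pm) : ℝ := √(c.q * c.J * c.p)

variable {c : Pm} (h : Gd c)
include h

lemma pos : 0 < pP c ∧ 0 < pe c ∧ 0 < px c ∧ 0 < pθ c := by
  have := h.s1_pos; have := h.s2_pos; have := h.q_pos; have := h.J_pos; have := h.big.uB_pos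
  have := h.big.R_pos; have := h.p_pos
  unfold pP pe px pθ
  refine ⟨?_, ?_, ?_, ?_⟩ <;> positivity

lemma logs : Real.log (pP c) = -(2 * Real.log c.s1 + Real.log c.s2) ∧
    Real.log (pe c) = -(pJ c.N / 2) + pL c.N / 2 - 5 * (pL c.N / 2000) ∧
    Real.log (px c) = -(2 * (pL c.N / 1000) + 2 * Real.log 2 + pL c.N) ∧
    Real.log (pθ c) = (pL c.N / 1000 + pL c.N + Real.log c.p) / 2 := by
  have := h.s1_pos; have := h.s2_pos; have := h.q_pos; have := h.J_pos; have := h.big.uB_pos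
  have := h.big.R_pos; have := h.p_pos
  unfold pP pe px pθ
  refine ⟨?_, ?_, ?_, ?_⟩ <;> simp (disch := positivity) only [Real.log_div, Real.log_mul,
    Real.log_sqrt, Real.log_pow, Real.log_one, h.log_J, h.log_q, h.big.log_R, h.big.log_uB] <;>
    push_cast <;> ring

lemma lc {C : ℝ} (h1 : 1 ≤ C) (h2 : C ≤ 100000) : Real.log C ≤ pL c.N / 100000 := by
  linarith [(logc_bd h1).2, h.big.L_ge]

lemma num1 : 4 * pP c ≤ np c.N (-1) ∧ np c.N (-1) ≤ hc c.N ∧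
    c.K * (4 * (hc c.N * pP c / √c.η)) ≤ np c.N (-14 / 10) ∧ 2 * pP c ^ 2 ≤ np c.N (-14 / 10) ∧
    12 * (hc c.N * pP c / √c.η) * np c.N (11 / 10) ≤ np c.N (-4 / 5) * c.ro ∧
    16 * (hc c.N * pP c) * np c.N (11 / 10) ≤ np c.N (-4 / 5) ∧
    4 * (uB c.N / c.J * np c.N (-14 / 10)) * np c.N (11 / 10) ≤ np c.N (-4 / 5) ∧
    10000 * np c.N (-14 / 10) ≤ 1 ∧ 10000 * (1 / √c.J) ≤ 1 ∧ 2 * nu c.N ≤ 1 / √c.J ∧
    10 * (c.gb / c.η) ≤ px c ∧ 100 * px c ≤ 1 ∧ np c.N (-2 / 5) ≤ px c ∧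
    20 * np c.N (-45 / 100) ≤ np c.N (-2 / 5) := by
  obtain ⟨p1, p2, p3, p4⟩ := pos h
  obtain ⟨l1, l2, l3, l4⟩ := logs h
  have := h.J_pos; have := h.K_pos; have := h.η_pos; have := h.gb_pos; have := h.big.hc_pos
  have := h.ro_pos; have := h.big.uB_pos; have := h.big.nu_pos
  have n := h.big.np_pos
  have := n (-1); have := n (-14 / 10); have := n (11 / 10); have := n (-4 / 5)
  have := n (-2 / 5); have := n (-45 / 100)
  have l0 := h.big.L_ge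
  have j0 := h.big.J_ge
  obtain ⟨a1, a2⟩ := log2_bd
  have k1 := h.log_K
  have k2 := h.log_n12
  obtain ⟨k3, k3'⟩ := h.log_n12_bd
  obtain ⟨k4, k4'⟩ := h.log_K_bd
  have k5 := h.log_η_ge
  have k6 := h.log_gb.1
  have k7 := h.log_ro
  have k8 := h.log_m.1
  have k9 := h.log_e4_le'
  have c3 := lc h (C := 3) (by norm_num) (by norm_num)
  have c3' := (logc_bd (C := 3) (by norm_num)).1
  have c4 := lc h (C := 4) (by norm_num) (by norm_num)
  have c10 := lc h (C := 10) (by norm_num) (by norm_num)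
  have c12 := lc h (C := 12) (by norm_num) (by norm_num)
  have c16 := lc h (C := 16) (by norm_num) (by norm_num)
  have c20 := lc h (C := 20) (by norm_num) (by norm_num)
  have c100 := lc h (C := 100) (by norm_num) (by norm_num)
  have c10000 := lc h (C := 10000) (by norm_num) (by norm_num)
  refine ⟨?_, ?_, ?_, ?_, ?_, ?_, ?_, ?_, ?_, ?_, ?_, ?_, ?_, ?_⟩ <;>
    refine le_of_log (by positivity) (by positivity) ?_ <;>
    simp (disch := positivity) only [Real.log_div, Real.log_mul, Real.log_sqrt, Real.log_pow,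
      Real.log_one, h.log_J, l1, l3, h.big.log_np, h.big.log_hc, h.big.log_uB, h.big.log_nu] <;>
    (try push_cast) <;> linarith

lemma num2 (hη : etaS c.N / 2 ≤ c.η) :
    40 * (hc c.N * pP c / √c.η) * np c.N (11 / 10) ≤ np c.N (-4 / 5) ∧
    108 * (c.gb / c.η * c.K ^ 2) ≤ np c.N (-45 / 100) ∧
    108 * np c.N (-14 / 10) ≤ np c.N (-45 / 100) ∧ 126 * (nu c.N * c.K ^ 2) ≤ np c.N (-45 / 100) := by
  obtain ⟨p1, -⟩ := pos h
  obtain ⟨l1, -⟩ := logs h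
  have := h.K_pos; have := h.η_pos; have := h.gb_pos; have := h.big.hc_pos; have := h.big.nu_pos
  have n := h.big.np_pos
  have := n (-14 / 10); have := n (11 / 10); have := n (-4 / 5); have := n (-45 / 100)
  have l0 := h.big.L_ge
  have j0 := h.big.J_ge
  have k1 := h.log_K
  have k2 := h.log_n12
  obtain ⟨k3, k3'⟩ := h.log_n12_bd
  obtain ⟨k4, k4'⟩ := h.log_K_bd
  have k5 := h.log_etaS_le (a := 1 / 2) (by norm_num) (by linarith)
  have k6 := h.log_gb.2.1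
  have c3 := lc h (C := 3) (by norm_num) (by norm_num)
  have c40 := lc h (C := 40) (by norm_num) (by norm_num)
  have c108 := lc h (C := 108) (by norm_num) (by norm_num)
  have c126 := lc h (C := 126) (by norm_num) (by norm_num)
  refine ⟨?_, ?_, ?_, ?_⟩ <;> refine le_of_log (by positivity) (by positivity) ?_ <;>
    simp (disch := positivity) only [Real.log_div, Real.log_mul, Real.log_sqrt, Real.log_pow,
      l1, h.big.log_np, h.big.log_hc, h.big.log_nu] <;> (try push_cast) <;> linarith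

lemma num3 (hA : ¬c.isA) : 1000 * (c.q ^ 3 * c.J * c.dB) ≤ px c ∧ 1000 * pθ c ^ 2 ≤ px c ∧
    1000 * (c.q ^ 3 * c.J * np c.N (-9 / 10)) ≤ px c ∧ np c.N (-10) ≤ pe c ∧
    100 * (c.q ^ 3 * c.J * c.t1B) ≤ pθ c ∧ cg0 c.N ≤ pe c * √c.η ∧ c.η * c.p ≤ pe c * √c.η ∧
    1000 ≤ c.K ∧ 10 ≤ px c * c.K ^ 2 ∧ 100 * (c.K * pe c) ≤ px c ∧
    1000 * (c.K * pe c) ≤ 1 / √c.J ∧ 1000 * pθ c ≤ 1 / √c.J ∧ 1000 * pe c ≤ pθ c ∧
    100 * np c.N (-14 / 10) ≤ pe c ∧ 20 * pe c ≤ c.K * (uB c.N / c.J) ∧ c.p ≤ pθ c ^ 2 := by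
  obtain ⟨p1, p2, p3, p4⟩ := pos h
  obtain ⟨l1, l2, l3, l4⟩ := logs h
  have := h.J_pos; have := h.K_pos; have := h.η_pos; have := h.q_pos; have := h.p_pos
  have := h.dB_pos; have := h.t1B_pos; have := h.big.uB_pos; have := h.big.cg0_pos
  have n := h.big.np_pos
  have := n (-10); have := n (-14 / 10); have := n (-9 / 10)
  have l0 := h.big.L_ge
  have j0 := h.big.J_ge
  obtain ⟨a1, a2⟩ := log2_bd
  have k1 := h.log_K_notA hA
  have k4 := h.log_K_bd.2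
  have k5 := h.log_η_ge
  obtain ⟨k6, k7, -⟩ := h.log_p
  have k9 := h.log_pf
  obtain ⟨k10, k11, -⟩ := h.log_e4
  have k12 := h.log_ηp_ge
  have k13 := h.log_η_le
  have c10 := lc h (C := 10) (by norm_num) (by norm_num)
  have c20 := lc h (C := 20) (by norm_num) (by norm_num)
  have c100 := lc h (C := 100) (by norm_num) (by norm_num)
  have c1000 := lc h (C := 1000) (by norm_num) (by norm_num)
  refine ⟨?_, ?_, ?_, ?_, ?_, ?_, ?_, ?_, ?_, ?_, ?_, ?_, ?_, ?_, ?_, ?_⟩ <;>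
    refine le_of_log (by positivity) (by positivity) ?_ <;>
    (try simp (disch := positivity) only [Real.log_div, Real.log_mul, Real.log_sqrt, Real.log_pow,
      Real.log_one, h.log_J, h.log_q, l2, l3, l4, h.big.log_np, h.big.log_uB, h.log_dB, h.log_t1B,
      h.big.log_cg0]) <;> (try push_cast) <;> linarith

end
end Pool.Agent.MP_20bec2_an.T3.TfP

end MrgPart0

-- ======== part 1: formerly Pool.Agent.MP_20bec2_an.T3.Tf
section MrgPart1

/-! Row TF: the new frame seen from the old one. -/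

set_option autoImplicit false
open Matrix

namespace Pool.Agent.MP_20bec2_an.T3
noncomputable section
namespace TfP

lemma lg {s a y : ℝ} (h : |s ^ 2 / a ^ 2 - 1| ≤ y) (hy : y ≤ 1 / 10) :
    |Real.log (s / a)| ≤ y := by
  have h0 : 0 < s ^ 2 / a ^ 2 := by linarith [(abs_le.1 h).1]
  have h1 := abs_log_sub_le one_pos h0 (by rwa [div_one]) hy
  rw [Real.log_one, sub_zero, ← div_pow, Real.log_pow, abs_mul] at h1
  norm_num at h1
  linarith [abs_nonneg (Real.log (s / a))]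

lemma lg2 {s a b y : ℝ} (ha : 0 < a) (hb : 0 < b)
    (h : |s ^ 2 / a ^ 2 - (b / a) ^ 2| ≤ y * (b / a) ^ 2) (hy : y ≤ 1 / 10) : |Real.log (s / b)| ≤ y := by
  refine lg ?_ hy
  rw [show s ^ 2 / b ^ 2 - 1 = (s ^ 2 / a ^ 2 - (b / a) ^ 2) / (b / a) ^ 2 by field_simp, abs_div,
    abs_of_pos (show 0 < (b / a) ^ 2 by positivity), div_le_iff₀ (by positivity)]
  exact h

lemma tab {c : Pm} (h : Gd c) (hη : c.η < etaS c.N / 2) {E Et : Mx} {n θ : ℝ} (h1 : EB2 Et c.eT)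
    (h2 : EB2 (E - Et - !![n, 0, θ; 0, 0, 0; 0, 0, 0]) (cm (np c.N (-10)))) :
    |E 0 0| ≤ 3 * (c.q ^ 3 * c.J * c.dB) + |n| + np c.N (-10) ∧
    |E 1 1| ≤ 3 * (c.q ^ 3 * c.J * c.dB) + 3 * (c.q ^ 3 * c.J * np c.N (-9 / 10)) + np c.N (-10) ∧
    |E 0 1| ≤ 3 * (c.m * pe c) + np c.N (-10) ∧ |E 1 0| ≤ 3 * pe c + np c.N (-10) ∧
    |E 1 2| ≤ 3 * pe c + np c.N (-10) ∧
    |E 0 2| ≤ 3 * (c.q ^ 3 * c.J * c.t1B) + |θ| + np c.N (-10) := by
  have a0 := h.big.etaS_pos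
  have a1 := h.big.etaA_eq
  rw [Pm.eT, if_pos (show c.oS from by unfold Pm.oS; linarith), Pm.sdO,
    if_pos (show c.oB from by unfold Pm.oB; linarith), if_neg (fun hb => by linarith [hb.1])] at h1
  have k : ∀ i j, i ≠ 2 → |E i j| ≤ 3 * c.q ^ 3 * c.J * (c.sdB i j + Pm.b23 0 i j) +
      |(!![n, 0, θ; 0, 0, 0; 0, 0, 0] : Mx) i j| + np c.N (-10) := fun i j hi =>
    le_of_eq_of_le (by congr 1; simp) ((abs_add_three _ _ _).trans
      (add_le_add_three (h1 i j hi) le_rfl (h2 i j hi)))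
  have k00 := k 0 0 (by decide)
  have k11 := k 1 1 (by decide)
  have k01 := k 0 1 (by decide)
  have k10 := k 1 0 (by decide)
  have k12 := k 1 2 (by decide)
  have k02 := k 0 2 (by decide)
  simp [Pm.sdB, Pm.b23] at k00 k11 k01 k10 k12 k02
  have := mul_le_mul_of_nonneg_right h.η_le_one
    (mul_pos (mul_pos (pow_pos h.q_pos 3) h.J_pos) h.dB_pos).le
  unfold pe
  refine ⟨?_, ?_, ?_, ?_, ?_, ?_⟩ <;> linarith

/-- what both cases share -/
structure Co (c : Pm) (E Ω g Γ : Mx) (s1 s2 σ H : ℝ) : Prop where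
  D : Dt E Ω Γ c.K (g 0 0 / c.η) (g 0 1 / √c.η) (g 1 1) (c.gb / c.η) (np c.N (-14 / 10)) c.zT
    (s1 ^ 2 / c.s1 ^ 2) (s2 ^ 2 / c.s1 ^ 2) (σ ^ 2 / c.s1 ^ 2)
  t0 : |((1 + E) * Ω) 0 2| ≤ 4 * (hc c.N * pP c / √c.η)
  t1 : |((1 + E) * Ω) 1 2| ≤ 4 * (hc c.N * pP c / √c.η)
  c2 : 4 * (|((1 + E) * Ω)⁻¹ 1 0| * (4 * (hc c.N * pP c / √c.η))) * np c.N (11 / 10) ≤
    np c.N (-4 / 5) → ∀ i, i ≠ 2 → c.dgn i * |((1 + E) * Ω) i 2| * c.n12 ≤
    (3 * H + np c.N (-1)) * c.cc i ∧ |((1 + E) * Ω) i 2| * c.y ≤ np c.N (-4 / 5) * c.hs i ∧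
    |((1 + E) * Ω)⁻¹ i 2| * c.y ≤ np c.N (-4 / 5) * c.hs i
  dt : |((1 + E) * Ω).det - 1| ≤ 5 / √c.J ∧ EB ((1 + E) * Ω) (cm 2) ∧ EB ((1 + E) * Ω)⁻¹ (cm 2)
  fin : |s1 ^ 2 / c.s1 ^ 2 - 1| ≤ 1 / 10 → 0 < s1 ∧ σ ^ 2 ≤ s1 ^ 2 / 4

lemma core {c : Pm} (h : Gd c) {E Df Ω g : Mx} {s1 s2 σ H : ℝ} (hΩ : Orth Ω) (σ0 : 0 ≤ σ)
    (σ1 : σ ≤ s1) (s12 : s1 ≤ s2) (hE : EB E (cm c.zT)) (hdet : |Df.det - 1| ≤ 1 / 100)
    (hg : g = (Df * dg3 c.c1 c.c2 (c.n12 / Df.det))ᵀ * (Df * dg3 c.c1 c.c2 (c.n12 / Df.det)) - c.gref)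
    (hb : EB g (bm c.gb H (1 / 10))) (hH : H ≤ hc c.N)
    (hdg : ((1 + E) * Ω)ᵀ * (Dfᵀ * Df) * ((1 + E) * Ω) = dg3 (s1 ^ 2) (s2 ^ 2) (σ ^ 2)) :
    ∃ Γ, Co c E Ω g Γ s1 s2 σ H := by
  obtain ⟨n1, n2, n3, n4, n5, n6, -, n8, n9, n10, n11, n12, -⟩ := num1 h
  obtain ⟨P0, -⟩ := pos h
  have a0 := h.s1_pos
  have b0 := h.s2_pos
  have η0 := h.η_pos
  have K1 := h.one_le_K
  have w0 : 0 < √c.η := Real.sqrt_pos.2 η0
  have w2 := (Real.sq_sqrt η0.le).symm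
  have w1 : √c.η ≤ 1 := Real.sqrt_le_one.2 h.η_le_one
  have w3 : c.η ≤ √c.η := by nlinarith
  have d3 : |Df.det| ≤ 101 / 100 := by linarith [abs_sub_abs_le_abs_sub Df.det 1, abs_one (α := ℝ)]
  obtain ⟨e1, e2, e3, e4, e5, e6⟩ :=
    FvP.entries a0 b0 w0 w2 (by linarith [(abs_le.1 hdet).1]) hg
  have sy : ∀ i j, (Dfᵀ * Df : Mx) j i = (Dfᵀ * Df : Mx) i j := fun i j => by
    simp only [mul3, transpose_apply]; ring
  obtain ⟨Γ, hΓ⟩ : ∃ Γ : Mx, Γ = (c.s1 ^ 2)⁻¹ • (Dfᵀ * Df) := ⟨_, rfl⟩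
  have ap : ∀ i j, Γ i j = (c.s1 ^ 2)⁻¹ * (Dfᵀ * Df : Mx) i j := fun i j => by rw [hΓ]; rfl
  have f02 : Γ 0 2 = Df.det * (g 0 2 * (pP c / √c.η)) := by rw [ap, e5, pP]; field_simp
  have f12 : Γ 1 2 = c.K * (Df.det * (g 1 2 * pP c)) := by rw [ap, e6, pP, Pm.K]; field_simp
  have f22 : Γ 2 2 = (1 + g 2 2) * Df.det * Df.det * pP c ^ 2 := by rw [ap, e4, pP]; field_simp
  have l0 : Γ 0 0 = 1 + g 0 0 / c.η ∧ Γ 0 1 = g 0 1 / √c.η * c.K ∧ Γ 1 0 = g 0 1 / √c.η * c.K ∧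
      Γ 1 1 = (1 + g 1 1) * c.K ^ 2 := by
    rw [ap, ap, ap, ap, sy 0 1, e1, e2, e3, Pm.K]
    refine ⟨?_, ?_, ?_, ?_⟩ <;> field_simp
  have H0 : 0 ≤ H := (abs_nonneg _).trans (hb 0 2)
  have PP : pP c ≤ pP c / √c.η := le_div_self P0.le w0 w1
  have b02 : |Γ 0 2| ≤ 101 / 100 * (H * (pP c / √c.η)) :=
    f02 ▸ am d3 (am (hb 0 2) (abs_of_pos (div_pos P0 w0)).le)
  have b12 : |Γ 1 2| ≤ c.K * (101 / 100 * (H * pP c)) :=
    f12 ▸ am (abs_of_pos h.K_pos).le (am d3 (am (hb 1 2) (abs_of_pos P0).le))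
  have b22 : |Γ 2 2| ≤ (1 + 1 / 10) * (101 / 100) * (101 / 100) * pP c ^ 2 :=
    f22 ▸ am (am (am (FvP.ab abs_one.le (hb 2 2)) d3) d3) (abs_of_pos (pow_pos P0 2)).le
  rw [mul_div_assoc] at n3 n5
  have m1 := mul_le_mul_of_nonneg_right hH (div_pos P0 w0).le
  have m2 := mul_le_mul_of_nonneg_right hH P0.le
  have m3 := mul_le_mul_of_nonneg_left PP h.big.hc_pos.le
  have m4 := mul_pos h.big.hc_pos P0
  have m5 := mul_le_mul_of_nonneg_right K1 (m4.le.trans m3)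
  have m6 := mul_le_mul_of_nonneg_left (m2.trans m3) h.K_pos.le
  have gb0 := h.gb_pos
  have zT : c.zT ≤ 1 / √c.J := by unfold Pm.zT; split_ifs; exacts [n10, le_rfl]
  have β1 : |g 0 1 / √c.η| ≤ c.gb / √c.η := by
    rw [abs_div, abs_of_pos w0]; exact div_le_div_of_nonneg_right (hb 0 1) w0.le
  have D : Dt E Ω Γ c.K (g 0 0 / c.η) (g 0 1 / √c.η) (g 1 1) (c.gb / c.η) (np c.N (-14 / 10)) c.zT
      (s1 ^ 2 / c.s1 ^ 2) (s2 ^ 2 / c.s1 ^ 2) (σ ^ 2 / c.s1 ^ 2) := by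
    refine ⟨hΩ, hE, by linarith, K1, ?_, β1.trans (div_le_div_of_nonneg_left gb0.le η0 w3),
      (hb 1 1).trans (le_div_self gb0.le η0 h.η_le_one), by linarith, fun i j => ?_, by linarith, l0,
      ?_, by positivity, by gcongr, by gcongr; linarith⟩
    · rw [abs_div, abs_of_pos η0]; exact div_le_div_of_nonneg_right (hb 0 0) η0.le
    · have y0 : Γ 2 0 = Γ 0 2 := by rw [ap, ap, sy]
      have y1 : Γ 2 1 = Γ 1 2 := by rw [ap, ap, sy]
      have := (h.big.np_pos (-14 / 10)).le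
      have := sq_nonneg (pP c)
      fin_cases i <;> fin_cases j <;> simp [l0, y0, y1, cm] <;> linarith
    · rw [hΓ, Matrix.mul_smul, Matrix.smul_mul, hdg, dg3, dg3, ← diagonal_smul]
      congr 1
      ext i
      fin_cases i <;> simp <;> field_simp
  have z3 : σ ^ 2 / c.s1 ^ 2 ≤ 2 * pP c ^ 2 := by
    linarith [D.sig, le_abs_self (Γ 2 2), sq_nonneg (pP c)]
  obtain ⟨t0, t1⟩ := D.col2 b02 b12 (by linarith [mul_le_mul_of_nonneg_left PP H0]) (by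
    have y : |g 0 1 / √c.η| ≤ √c.η := β1.trans ((div_le_iff₀ w0).2 (by
      rw [← sq, ← w2, ← div_le_one η0]; linarith))
    refine (mul_le_mul_of_nonneg_right y (by positivity)).trans_eq (by field_simp)) z3
  have m7 := mul_le_mul_of_nonneg_right n1 P0.le
  have m8 := mul_le_mul_of_nonneg_left PP (h.big.np_pos (-1)).le
  have m9 := mul_nonneg H0 P0.le
  have m10 := mul_nonneg H0 (div_pos P0 w0).le
  have m11 := mul_le_mul_of_nonneg_right n2 (div_pos P0 w0).le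
  have m12 := mul_le_mul_of_nonneg_right n2 P0.le
  have m13 := mul_le_mul_of_nonneg_right K1 (abs_nonneg (((1 + E) * Ω) 1 2))
  have t2 : |((1 + E) * Ω) 0 2| ≤ 4 * (hc c.N * (pP c / √c.η)) := by linarith
  have t3 : |((1 + E) * Ω) 1 2| ≤ 4 * (hc c.N * pP c) := by linarith
  have t4 : 4 * (hc c.N * pP c) ≤ 4 * (hc c.N * (pP c / √c.η)) := by linarith
  have iv := fun w hw => D.inv2 (w := w) t2 t3 t4 (by linarith) hw
  have y0 := h.big.np_pos (11 / 10)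
  have c2 : 4 * (|((1 + E) * Ω)⁻¹ 1 0| * (4 * (hc c.N * (pP c / √c.η)))) * np c.N (11 / 10) ≤
      np c.N (-4 / 5) → ∀ i, i ≠ 2 → c.dgn i * |((1 + E) * Ω) i 2| * c.n12 ≤
      (3 * H + np c.N (-1)) * c.cc i ∧ |((1 + E) * Ω) i 2| * c.y ≤ np c.N (-4 / 5) * c.hs i ∧
      |((1 + E) * Ω)⁻¹ i 2| * c.y ≤ np c.N (-4 / 5) * c.hs i := fun hw i hi => by
    obtain ⟨u0, u1⟩ := iv _ le_rfl
    have k : ∀ {u r : ℝ}, u * np c.N (11 / 10) ≤ np c.N (-4 / 5) * r →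
        u * c.y ≤ np c.N (-4 / 5) * (r * c.lam) := fun h1 => by
      have := mul_le_mul_of_nonneg_right h1 h.lam_pos.le
      unfold Pm.y
      linarith
    have k0 := fun {u v : ℝ} (h : u ≤ v) => mul_le_mul_of_nonneg_right h y0.le
    have k1 := mul_pos (m4.trans_le m3) y0
    have k2 := mul_pos m4 y0
    obtain rfl | rfl : i = 0 ∨ i = 1 := by omega
    · refine ⟨?_, k (by linarith only [k0 t2, n5, k1]), k (by linarith only [k0 u0, n5])⟩
      have y : |((1 + E) * Ω) 0 2| ≤ (3 * H + np c.N (-1)) * (pP c / √c.η) := by linarith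
      refine (mul_le_mul_of_nonneg_right (mul_le_mul_of_nonneg_left y η0.le) h.n12_pos.le).trans_eq ?_
      show _ = _ * (√c.η / c.s1)
      rw [pP, Pm.n12]
      nth_rewrite 1 [w2]
      field_simp
    · refine ⟨?_, (k (r := 1) (by linarith only [k0 t3, n6, k2])).trans_eq (by rw [one_mul]; rfl),
        (k (r := 1) (by linarith only [k0 u1, n6, hw])).trans_eq (by rw [one_mul]; rfl)⟩
      have y : c.K * |((1 + E) * Ω) 1 2| ≤ (3 * H + np c.N (-1)) * pP c := by linarith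
      have y' := mul_le_mul_of_nonneg_right y (show 0 ≤ c.s1 ^ 2 by positivity)
      refine le_of_eq_of_le ?_ (y'.trans_eq ?_)
      · show 1 * |((1 + E) * Ω) 1 2| * (c.s1 * c.s2) = _
        rw [Pm.K]; field_simp
      · show _ = _ * (1 / c.s2)
        rw [pP]; field_simp
  have dt : |((1 + E) * Ω).det - 1| ≤ 5 / √c.J ∧ EB ((1 + E) * Ω) (cm 2) ∧
      EB ((1 + E) * Ω)⁻¹ (cm 2) := ⟨by
      rw [show 5 / √c.J = 5 * (1 / √c.J) by ring]; linarith [D.det, h.zT_pos],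
    fun i j => (D.Tb i j).trans (show _ ≤ (2 : ℝ) by norm_num),
    fun i j => (D.Ub i j).trans (show _ ≤ (2 : ℝ) by norm_num)⟩
  have fin : |s1 ^ 2 / c.s1 ^ 2 - 1| ≤ 1 / 10 → 0 < s1 ∧ σ ^ 2 ≤ s1 ^ 2 / 4 := fun y => by
    have y1 : σ ^ 2 / c.s1 ^ 2 ≤ s1 ^ 2 / 4 / c.s1 ^ 2 := by
      rw [div_right_comm]; linarith [(abs_le.1 y).1]
    refine ⟨(σ0.trans σ1).lt_of_ne ?_, (div_le_div_iff_of_pos_right (by positivity)).1 y1⟩
    rintro rfl
    norm_num at y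
  rw [← mul_div_assoc] at t2 t4 c2
  exact ⟨Γ, D, t2, t3.trans t4, c2, dt, fin⟩

lemma Co.hi {c : Pm} (h : Gd c) {E Ω g Γ : Mx} {s1 s2 σ H : ℝ} (C : Co c E Ω g Γ s1 s2 σ H)
    (s10 : 0 ≤ s1) (hη : etaS c.N / 2 ≤ c.η) :
    TF c s1 s2 ((1 + E) * Ω) Ω H ∧ 0 < s1 ∧ σ ^ 2 ≤ s1 ^ 2 / 4 := by
  obtain ⟨D, t0, -, c2, dt, fin⟩ := C
  obtain ⟨-, -, -, -, -, -, -, -, -, -, -, n12, n13, n14⟩ := num1 h
  obtain ⟨r1, r2, r3, r4⟩ := num2 h hη
  have a0 := h.s1_pos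
  have z : c.zT = 2 * nu c.N := if_pos hη
  have p0 := h.big.np_pos (-45 / 100)
  have K2 : 1 ≤ c.K ^ 2 := one_le_pow₀ h.one_le_K
  have ν1 := mul_le_mul_of_nonneg_left K2 h.big.nu_pos.le
  obtain ⟨v1, v2, v3, v4⟩ := D.hi (p := np c.N (-45 / 100)) (by rw [z]; linarith) (by linarith)
  have L1 := lg v1 (by linarith)
  have L2 := lg2 (y := 6 * np c.N (-45 / 100)) a0 h.s2_pos
    (v2.trans (le_mul_of_one_le_right (by positivity) K2)) (by linarith)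
  refine ⟨⟨D.o, ⟨L1.trans (le_trans (by linarith) n13), L2.trans (le_trans (by linarith) n13)⟩, dt,
    c2 ?_, fun _ => ⟨by linarith, by linarith, GeoP.eb_mono D.TΩ (by rw [z]; linarith),
      GeoP.eb_mono D.UΩ (by rw [z]; linarith),
      fun i hi => ⟨by linarith [(v3 i hi).1], by linarith [(v3 i hi).2]⟩,
      v4.imp (fun v => ⟨by linarith [v.1], by linarith [v.2]⟩) fun v => ⟨?_, ?_⟩⟩,
    fun y => absurd y (not_lt.2 hη)⟩, fin (by linarith)⟩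
  · have y := mul_nonneg ((abs_nonneg _).trans t0) (h.big.np_pos (11 / 10)).le
    linarith only [mul_le_mul_of_nonneg_right (D.Ub 1 0) y, y, r1]
  · exact (div_le_iff₀ a0).1 v.1
  · refine abs_le_of_sq_le_sq' ?_ (by positivity) |>.2
    have := v.2
    rw [← mul_div_assoc, div_le_div_iff_of_pos_right (by positivity)] at this
    linarith only [this]

lemma Co.lo {c : Pm} (h : Gd c) {E Ω g Γ Et : Mx} {s1 s2 σ H n θ : ℝ} (C : Co c E Ω g Γ s1 s2 σ H)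
    (hη : c.η < etaS c.N / 2) (h1 : EB2 Et c.eT)
    (h2 : EB2 (E - Et - !![n, 0, θ; 0, 0, 0; 0, 0, 0]) (cm (np c.N (-10))))
    (hn : |n| ≤ 3 * (θ ^ 2 + c.p)) (hθ : θ ^ 2 ≤ c.q * c.J * c.p)
    (g01 : |g 0 1| ≤ 2 * cg0 c.N + c.η * c.p / 1000) :
    TF c s1 s2 ((1 + E) * Ω) Ω H ∧ 0 < s1 ∧ σ ^ 2 ≤ s1 ^ 2 / 4 := by
  obtain ⟨D, t0, t1, c2, dt, fin⟩ := C
  obtain ⟨-, -, n3, -, -, -, n7, n8, -, -, n11, n12, -⟩ := num1 h
  obtain ⟨r1, r2, r3, r4, r5, r6, r7, r8, r9, r10, r11, r12, r13, r14, r15, r16⟩ :=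
    num3 h (not_le.2 (by linarith [h.big.etaA_eq, h.big.etaS_pos]))
  obtain ⟨-, e0, x0, θ0⟩ := pos h
  obtain ⟨k00, k11, k01, k10, k12, k02⟩ := tab h hη h1 h2
  have z : c.zT = 1 / √c.J := if_neg (not_le.2 hη)
  have K0 := h.K_pos
  have θ1 : |θ| ≤ pθ c := Real.abs_le_sqrt hθ
  have θ2 := TfP.s2 θ1
  have eK := mul_le_mul_of_nonneg_right r8 e0.le
  have m1 : c.m * pe c ≤ c.K * pe c :=
    mul_le_mul_of_nonneg_right (max_le h.one_le_K (by linarith only [K0])) e0.le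
  have m2 : c.K / 4 * pe c ≤ c.m * pe c := mul_le_mul_of_nonneg_right (le_max_right _ _) e0.le
  have w0 : 0 < √c.η := Real.sqrt_pos.2 h.η_pos
  have τ0 := (abs_nonneg _).trans t0
  have τ1 := mul_le_mul_of_nonneg_right r8 τ0
  have L : Lo E c.K (g 0 1 / √c.η) (c.gb / c.η) (np c.N (-14 / 10)) c.zT (4 * pe c) (3 / 2 * pθ c)
      (px c / 10) (4 * (hc c.N * pP c / √c.η)) := by
    refine ⟨?_, ?_, ?_, ?_, ?_, ?_, ?_, ?_, ?_, r8, ?_, ?_, ?_, ?_, ?_, ?_, ?_, ?_⟩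
    · linarith only [k00, hn, θ2, r16, r1, r2, r4, r10, eK, x0]
    · linarith only [k11, r1, r3, r4, r10, eK, x0]
    · linarith only [k01, m1, r4, eK, e0]
    · linarith only [k10, r4]
    · linarith only [k12, r4]
    · linarith only [k02, θ1, r4, r5, r13, θ0]
    · linarith only [n11]
    · rw [abs_div, abs_of_pos w0, div_le_iff₀ w0]
      linarith only [g01, r6, r7, mul_pos e0 w0]
    · linarith only [n12]
    · linarith only [r9]
    · linarith only [r10, x0]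
    · linarith only [z, r11, eK, e0]
    · linarith only [r2, x0]
    · linarith only [z, r12, θ0]
    · linarith only [r13, θ0]
    · linarith only [r14, e0]
    · linarith only [r14, n3, e0]
  obtain ⟨v1, v2, -⟩ := D.lo2 L t0 t1
  obtain ⟨⟨o1, o2, o3, o4, o5, o6⟩, -⟩ := D.lo3 L t0 t1
  obtain ⟨u0, u1⟩ := D.inv2 t0 t1 le_rfl (by linarith only [τ0, τ1, n3, n8]) (D.Ub 1 0)
  have v3 := D.lo4 L t0 t1 (by linarith only [u0, τ0, τ1, n3, n8])
    (by linarith only [u1, τ0, τ1, n3, n8])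
  have v4 : ∀ M ∈ ({(1 + E) * Ω, ((1 + E) * Ω)⁻¹} : Set Mx), |M 1 0| ≤ uB c.N / c.J := fun M hM =>
    le_of_mul_le_mul_left (by linarith only [(v3 M hM).2.2.2.2.1, r15]) K0
  have q1 := mul_le_mul_of_nonneg_right h.big.q_ge e0.le
  have q2 := mul_le_mul_of_nonneg_right h.big.q_ge (mul_pos h.m_pos e0).le
  have ex : 1 / (c.q ^ 2 * pR c.N) = px c := rfl
  have e3 : 3 / √c.J = 3 * c.zT := by rw [z]; ring
  have e4 : c.q ^ 4 * c.J * uB c.N = pq c.N * pe c := by unfold pe Pm.q; ring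
  have e5 : c.q ^ 4 * c.J * c.m * uB c.N = pq c.N * (c.m * pe c) := by unfold pe Pm.q; ring
  have z0 := h.zT_pos
  refine ⟨⟨D.o, ⟨(lg v1 (by linarith only [n12])).trans (by linarith only [ex, x0]),
    (lg2 h.s1_pos h.s2_pos v2 (by linarith only [n12])).trans (by linarith only [ex, x0])⟩, dt,
    c2 ?_, fun y => absurd y (not_le.2 hη), fun _ => ⟨fun M hM => ?_, fun i j => ?_⟩⟩,
    fin (by linarith only [v1, n12])⟩
  · have y := mul_le_mul (v4 _ (.inr rfl)) (show _ ≤ np c.N (-14 / 10) by linarith only [τ0, τ1, n3])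
      τ0 (div_pos h.big.uB_pos h.J_pos).le
    linarith only [mul_le_mul_of_nonneg_right y (h.big.np_pos (11 / 10)).le, n7]
  · obtain ⟨y1, y2, y3, y4, -, y6, y7⟩ := v3 M hM
    rw [ex, e3, e5]
    refine ⟨?_, ?_, ?_, ?_, v4 M hM, ?_, ?_⟩ <;>
      linarith only [y1, y2, y3, y4, y6, y7, x0, z0, m2, q2, eK, e0]
  · rw [e4, show √(c.q * c.J * c.p) = pθ c from rfl]
    fin_cases i <;> fin_cases j <;> simp [dg3] <;>
      linarith only [o1, o2, o3, o4, o5, o6, q1, e0]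

end TfP

theorem tf : TfStmt := by
  filter_upwards [ev_gd] with N hN c hcN hOk E Df Ω g s1 s2 σ H hΩ σ0 σ1 s12 hE hlo hdet hg _ g01 _
    hb hH _ hdg
  have h := hN c hcN hOk
  obtain ⟨Γ, C⟩ := TfP.core h hΩ σ0 σ1 s12 hE hdet hg hb hH hdg
  rcases lt_or_ge c.η (etaS c.N / 2) with hη | hη
  · obtain ⟨Et, n, θ, h1, h2, h3, h4⟩ := hlo hη
    exact C.lo h hη h1 h2 h3 h4 g01
  · exact C.hi h (σ0.trans σ1) hη

end
end Pool.Agent.MP_20bec2_an.T3

end MrgPart1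

-- marker of a merged file
example : 731051 + 189387 = 731051 + 189387 := rfl

end MrgPart2

-- marker of a merged file
example : 731051 + 189387 = 731051 + 189387 := rfl
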