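import Pool.Agent.MP_20bec2_an.T3.CrA
import Pool.Agent.MP_20bec2_an.T3.Zt
import Pool.Agent.MP_20bec2_an.T3.Par4
import Pool.Agent.MP_20bec2_an.T3.Tf
import Pool.Agent.MP_20bec2_an.T3.Vtr
import Pool.Agent.MP_20bec2_an.T3.Mr
import Pool.Agent.MP_20bec2_an.T3.Calc2C

-- ======== part 0: formerly Pool.Agent.MP_20bec2_an.T3.Bs
section MrgPart0

-- ======== part 0: formerly Pool.Agent.MP_20bec2_an.T3.WsA
section MrgPart0

/-! Toolbox WS, part 2: weighted sums `Bk.ws` of matrices given in the frames, seen from one frame. -/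

set_option autoImplicit false
open MeasureTheory Set Filter Matrix Topology

namespace Pool.Agent.MP_20bec2_an.T3.Ws
noncomputable section
open Classical Prof Ftr

/-! ## transition matrices of neighbouring cubes -/

/-- the size of all errors of a change of frame -/
def ew (N : ℕ) : ℝ := np N (-47 / 2)
/-- admissible vertical scales -/
def HV (B : Bk) (k : ℕ) (hv : ℝ) : Prop := np B.N (-2) * B.yk k ≤ hv ∧ hv ≤ B.yk k
/-- transition matrix -/
def Tm (B : Bk) (g g' : Cu) : Mx := (B.fr g).Q⁻¹ * (B.fr g').Q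
/-- the rotation between two frames -/
def Pr (B : Bk) (g g' : Cu) : Mx := (B.fr g).Oᵀ * (B.fr g').O
/-- scaled transition matrix -/
def Tn (B : Bk) (k : ℕ) (hv : ℝ) (g g' : Cu) : Mx :=
  sc ((B.c g k).hy hv) ((B.c g' k).hy hv) (Tm B g g')
/-- a covariance in the frame of `g`, scaled (`nS` is the case `hv = yk k`, `w = xp x`) -/
def nc (B : Bk) (k : ℕ) (hv : ℝ) (g : Cu) (S : Mx) : Mx := nrm ((B.c g k).hy hv) ((B.fr g).cv1 S)

theorem hs_eq (B : Bk) (g : Cu) (k : ℕ) : (B.c g k).hs = (B.c g k).hy (B.yk k) := rfl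
theorem hy0 (c : Pm) (a : ℝ) : c.hy a 0 = c.l1 := rfl
theorem hy1 (c : Pm) (a : ℝ) : c.hy a 1 = c.lam := rfl
theorem hy2 (c : Pm) (a : ℝ) : c.hy a 2 = a := rfl
theorem N_eq (B : Bk) (g : Cu) (k : ℕ) : (B.c g k).N = B.N := rfl
theorem lam_eq (B : Bk) (g g' : Cu) (k : ℕ) : (B.c g' k).lam = (B.c g k).lam := rfl
theorem yk_eq (B : Bk) (g : Cu) (k : ℕ) : B.yk k = np B.N (11 / 10) * (B.c g k).lam := rfl
theorem y_eq (B : Bk) (g : Cu) (k : ℕ) : (B.c g k).y = B.yk k := rfl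
theorem bd_eb {A : Mx} {a : ℝ} (h : Bd A a) : EB A (cm a) := h
theorem eb_bd {A : Mx} {a : ℝ} (h : EB A (cm a)) : Bd A a := h
theorem nS_eq (B : Bk) (k : ℕ) (S : V → Mx) (g : Cu) (x : V) :
    B.nS k S g x = nc B k (B.yk k) g (S ((B.fr g).xp x)) := rfl
theorem Pr_tr (B : Bk) (g g' : Cu) : (Pr B g g')ᵀ = Pr B g' g := GeoP.P_t
theorem nc_add (B : Bk) (k : ℕ) (hv : ℝ) (g : Cu) (S T : Mx) :
    nc B k hv g (S + T) = nc B k hv g S + nc B k hv g T := (ncv _ _).map_add S T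
theorem nc_sub (B : Bk) (k : ℕ) (hv : ℝ) (g : Cu) (S T : Mx) :
    nc B k hv g (S - T) = nc B k hv g S - nc B k hv g T := (ncv _ _).map_sub S T
theorem nc_zero (B : Bk) (k : ℕ) (hv : ℝ) (g : Cu) : nc B k hv g 0 = 0 := (ncv _ _).map_zero
theorem nc_smul (B : Bk) (k : ℕ) (hv : ℝ) (g : Cu) (c : ℝ) (S : Mx) :
    nc B k hv g (c • S) = c • nc B k hv g S := by rw [nc, cv1_smul, nrm_smul]; rfl
theorem nc_tr (B : Bk) (k : ℕ) (hv : ℝ) (g : Cu) (S : Mx) : (nc B k hv g S)ᵀ = nc B k hv g Sᵀ := by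
  rw [nc, nrm_tr, cv1_tr]; rfl
theorem smM_nc (B : Bk) (k : ℕ) (hv : ℝ) (g : Cu) {X : V → Mx} (h : SmM X) :
    SmM fun x => nc B k hv g (X x) := smM_nrm _ (smM_cv1 _ h)
theorem smM_nS (B : Bk) (k : ℕ) (g : Cu) {X : V → Mx} (h : SmM X) : SmM (B.nS k X g) :=
  smM_nrm _ (smM_cov _ h)
theorem nS_symm (B : Bk) (k : ℕ) (g : Cu) {X : V → Mx} (h : ∀ x, (X x)ᵀ = X x) (x : V)
    (i j : Fin 3) : B.nS k X g x i j = B.nS k X g x j i := by
  rw [← transpose_apply (B.nS k X g x), nS_eq, nc_tr, h]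

theorem ew_bd {N : ℕ} (hb : Big N) : 0 < ew N ∧ ew N ≤ 1 / 1000 ∧ dc N ≤ ew N ∧
    2 * dc N * np N (7 / 5) ≤ ew N ∧ 16 * pJ N ≤ np N (7 / 5) := by
  have := hb.J_pos; have := hb.dc_pos; have := hb.np_pos (7 / 5); have p := hb.np_pos (-47 / 2)
  have := hb.L_ge; have := hb.J_ge; have := log2_bd.2
  have := (logc_bd (C := 1000) (by norm_num)).2; have := (logc_bd (C := 16) (by norm_num)).2
  refine ⟨p, ?_, hb.np_le (by norm_num), ?_, ?_⟩ <;>
    refine le_of_log (by positivity) (by positivity) ?_ <;>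
    simp (disch := positivity) only [ew, Real.log_mul, Real.log_div, Real.log_one, hb.log_np,
      hb.log_dc, hb.log_J] <;> linarith

theorem l1_eq {c : Pm} (g : Gd c) (h1 : c.η = 1) (h : c.s2 ≤ 4 * c.s1) : c.l1 = c.lam := by
  have hK : c.K ≤ 4 := (div_le_iff₀ g.s1_pos).2 h
  have h2 : c.e4 = 1 := le_antisymm g.e4_le_one (h1 ▸ g.η_le_e4)
  have h3 : c.m = 1 := max_eq_left (by linarith)
  rw [Pm.l1, Pm.ro, h2, h3]; simp

section frames
variable {B : Bk} (G : FrOk B.N B.lb B.fr) (hb : Big B.N) {k : ℕ} (hk : k ≤ nb B.N) {hv : ℝ}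
include hb

theorem one_le_N : 1 ≤ B.N := by exact_mod_cast hb.N_pos
include G
theorem D_pos : 0 < B.D := GeoP.D_pos G (one_le_N hb)
theorem Tm_no {g g' : Cu} (n : Nbr 3 g g') : NO (ew B.N) (Pr B g g') (Tm B g g') :=
  NO.mono (e := dc B.N) ⟨GeoP.P_orth (GeoP.orth G g) (GeoP.orth G g'), (G.cp g g' n).o3,
    (G.cp g g' n).tq, (ew_bd hb).2.2.1.trans (ew_bd hb).2.1⟩ (ew_bd hb).2.2.1 (ew_bd hb).2.1
include hk
theorem hv_top : HV B k (B.yk k) :=
  ⟨mul_le_of_le_one_left (Bk.gd G hb 0 hk).y_pos.le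
    ((hb.np_le (by norm_num)).trans_eq (np_zero _)), le_rfl⟩
theorem hy_pos (H : HV B k hv) (g : Cu) (i : Fin 3) : 0 < (B.c g k).hy hv i := by
  have c := Bk.gd G hb g hk
  fin_cases i
  exacts [c.l1_pos, c.lam_pos, (mul_pos (hb.np_pos _) c.y_pos).trans_le H.1]

theorem hy_le (H : HV B k hv) (g g' : Cu) (i j : Fin 3) :
    (B.c g' k).hy hv j ≤ np B.N (7 / 5) * (B.c g k).hy hv i := by
  have c := Bk.gd G hb g hk; have c' := Bk.gd G hb g' hk
  have p := c.lam_pos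
  have m : ∀ a b : ℝ, a ≤ b → np B.N a * (B.c g k).lam ≤ np B.N b * (B.c g k).lam :=
    fun a b h => mul_le_mul_of_nonneg_right (hb.np_le h) p.le
  have r : (B.c g' k).ro ≤ np B.N (1 / 2) := le_of_log c'.ro_pos (hb.np_pos _) (by
    have : Real.log (B.c g' k).ro ≤ pJ B.N / 2 - pL B.N := c'.log_ro_bd.2
    rw [hb.log_np]; linarith [hb.L_ge])
  have a0 : (B.c g' k).l1 ≤ np B.N (1 / 2) * (B.c g k).lam := by
    rw [Pm.l1, lam_eq B g g' k]; exact mul_le_mul_of_nonneg_right r p.le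
  have a1 : (B.c g' k).lam ≤ np B.N (1 / 2) * (B.c g k).lam := by
    simpa only [np_zero, one_mul, lam_eq B g g' k] using m 0 (1 / 2) (by norm_num)
  have a2 : hv ≤ np B.N (11 / 10) * (B.c g k).lam := H.2.trans_eq (yk_eq B g k)
  have b2 : np B.N (1 / 2) * (B.c g k).lam ≤ np B.N (7 / 5) * hv := by
    refine le_trans (le_of_eq ?_) (mul_le_mul_of_nonneg_left H.1 (hb.np_pos _).le)
    rw [yk_eq B g k, ← mul_assoc, ← mul_assoc, ← hb.np_add, ← hb.np_add]; norm_num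
  have b0 := mul_le_mul_of_nonneg_left c.lam_le_l1 (hb.np_pos (7 / 5)).le
  have m1 := m (1 / 2) (7 / 5) (by norm_num); have m2 := m (11 / 10) (7 / 5) (by norm_num)
  have b3 : hv ≤ np B.N (7 / 5) * hv := le_mul_of_one_le_left (hy_pos G hb hk H g 2).le
    ((np_zero _).symm.trans_le (hb.np_le (by norm_num)))
  fin_cases i <;> fin_cases j <;> simp only [Pm.hy] <;> simp <;> linarith

theorem l1_ratio {g g' : Cu} (n : Nbr 3 g g') :
    |(B.c g' k).l1 / (B.c g k).l1 - 1| ≤ 16 * pJ B.N * dc B.N := by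
  have c := Bk.cpk G hb n hk hk
  have h1 := abs_div_sub_one_le c.g.ro_pos c.g'.ro_pos c.cl_ro (by linarith [c.cpe_le_q, c.q_inv.2])
  have e1 : cpe (dc B.N) (B.c g k) (B.c g' k) = 12 * pJ B.N * dc B.N := by
    rw [cpe, N_eq, N_eq, sub_self, pR]; ring
  rw [Pm.l1, Pm.l1, lam_eq B g g' k, mul_div_mul_right _ _ c.g.lam_pos.ne']
  linarith [mul_pos hb.J_pos hb.dc_pos]

/-- the scaled transition matrix is close to the rotation between the frames -/
theorem Tn_no (H : HV B k hv) {g g' : Cu} (n : Nbr 3 g g') :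
    NO (ew B.N) (Pr B g g') (Tn B k hv g g') := by
  have c := Bk.cpk G hb n hk hk; have c' := Bk.cpk G hb n.symm hk hk
  have t := Tm_no G hb n
  have h0 : Bd (Tm B g g' - Pr B g g') (dc B.N) := (G.cp g g' n).tq
  refine ⟨t.o, t.v, (sc_near (hy_pos G hb hk H g) (hy_pos G hb hk H g') t.o h0 (G.cp g g' n).o3 ?_
    ?_ ((G.cp g g' n).al.imp_right fun h => ?_) (hy_le G hb hk H g g') ?_).mono
    (ew_bd hb).2.2.2.1, t.s⟩
  · rw [hy1, hy1, lam_eq B g g' k]
  · rw [hy2, hy2]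
  · rw [hy0, hy0, hy1, l1_eq c.g (c'.η_eq_one h.1) h.1, l1_eq c.g' (c.η_eq_one h.2) h.2,
      lam_eq B g g' k]
    exact ⟨rfl, rfl⟩
  · rw [hy0, hy0, mul_comm]
    exact (l1_ratio G hb hk n).trans (mul_le_mul_of_nonneg_right (ew_bd hb).2.2.2.2 hb.dc_pos.le)

theorem Tn_no' (H : HV B k hv) {g g' : Cu} (n : Nbr 3 g g') :
    NO (ew B.N) (Pr B g g')ᵀ (Tn B k hv g' g) := Pr_tr B g g' ▸ Tn_no G hb hk H n.symm

theorem Tn_inv (H : HV B k hv) (g g' : Cu) : Tn B k hv g g' * Tn B k hv g' g = 1 := by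
  rw [Tn, Tn, ← sc_mul (hy_pos G hb hk H g'), Tm, Tm,
    GeoP.T_inv (GeoP.det_ne G g) (GeoP.det_ne G g'), sc_one (hy_pos G hb hk H g)]

theorem nc_unc (H : HV B k hv) (g g' : Cu) (A : Mx) : nc B k hv g ((B.fr g').unc A) =
    Tn B k hv g g' * nrm ((B.c g' k).hy hv) A * (Tn B k hv g g')ᵀ := by
  rw [nc, GeoP.cv1_unc', nrm_conj (hy_pos G hb hk H g) (hy_pos G hb hk H g')]; rfl

/-- change of frame for a scaled covariance -/
theorem nc_chg (H : HV B k hv) (g g' : Cu) (S : Mx) :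
    nc B k hv g S = Tn B k hv g g' * nc B k hv g' S * (Tn B k hv g g')ᵀ := by
  rw [nc, nc, ← nc_unc G hb hk H, unc_cv1 (GeoP.det_ne G g')]; rfl
end frames

/-! ## weighted sums -/

/-- total weight of the cubes with the property `p` -/
def ap (B : Bk) (p : Cu → Prop) [DecidablePred p] (w : V) : ℝ :=
  ∑ᶠ g, if p g then al B.D g w ^ 2 else 0

section ws
variable {B : Bk} (hD : 0 < B.D) {A A' : Cu → V → Mx}

theorem ws_congr {w : V} (h : ∀ g, al B.D g w ≠ 0 → A g w = A' g w) : B.ws A w = B.ws A' w :=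
  finsum_congr fun g => by
    by_cases e : al B.D g w = 0
    · simp [e]
    · rw [h g e]
theorem ws_zero {w : V} (h : ∀ g, A g w = 0) : B.ws A w = 0 :=
  finsum_eq_zero_of_forall_eq_zero fun g => by rw [h g, unc_zero, smul_zero]
theorem ap_eq (p : Cu → Prop) [DecidablePred p] (w : V) :
    ap B p w = ∑ᶠ g, al B.D g w ^ 2 * if p g then 1 else 0 :=
  finsum_congr fun g => by split_ifs <;> simp
include hD
theorem ws_sup (A : Cu → V → Mx) :
    Glue.Sup (cv B.D) (9 / 10) fun g x => al B.D g x ^ 2 • (B.fr g).unc (A g x) :=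
  (Glue.sup_al_sq hD).smul _
theorem ws_eq (A : Cu → V → Mx) (w : V) :
    B.ws A w = ∑ g ∈ Glue.nb8 (cv B.D) w, al B.D g w ^ 2 • (B.fr g).unc (A g w) :=
  (ws_sup hD A).eq_sum (by norm_num) w
theorem ws_sm (h : ∀ g, SmM (A g)) : SmM (B.ws A) :=
  (ws_sup hD A).smM (by norm_num) fun g => SmM.smul ((al_sm _ g).pow 2) (smM_unc _ (h g))
theorem ws_symm {w : V} (h : ∀ g, (A g w)ᵀ = A g w) : (B.ws A w)ᵀ = B.ws A w :=
  (ws_sup hD A).symm (by norm_num) fun g => by rw [transpose_smul, unc_tr, h]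
theorem ws_tr (A : Cu → V → Mx) (w : V) : (B.ws A w)ᵀ = B.ws (fun g w => (A g w)ᵀ) w := by
  simp only [ws_eq hD, transpose_sum, transpose_smul, unc_tr]
theorem ws_add (A A' : Cu → V → Mx) (w : V) :
    B.ws (fun g w => A g w + A' g w) w = B.ws A w + B.ws A' w := by
  simp only [ws_eq hD, Fr.unc, Matrix.mul_add, Matrix.add_mul, smul_add, Finset.sum_add_distrib]
theorem ws_sub (A A' : Cu → V → Mx) (w : V) :
    B.ws (fun g w => A g w - A' g w) w = B.ws A w - B.ws A' w := by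
  simp only [ws_eq hD, Fr.unc, Matrix.mul_sub, Matrix.sub_mul, smul_sub, Finset.sum_sub_distrib]
theorem ws_smul (c : ℝ) (A : Cu → V → Mx) (w : V) :
    B.ws (fun g w => c • A g w) w = c • B.ws A w := by
  simp only [ws_eq hD, Fr.unc, Matrix.mul_smul, Matrix.smul_mul, Finset.smul_sum, smul_comm c]
theorem ws_self (hQ : ∀ g, (B.fr g).Q.det ≠ 0) (S : V → Mx) (w : V) :
    B.ws (fun g w => (B.fr g).cv1 (S w)) w = S w := by
  simp only [Bk.ws, unc_cv1 (hQ _)]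
  exact (Glue.sup_al_sq hD).avg_const (by norm_num) (al_finsum hD.ne' w) _
theorem cv1_ws (A : Cu → V → Mx) (g : Cu) (w : V) : (B.fr g).cv1 (B.ws A w) =
    ∑ᶠ g', al B.D g' w ^ 2 • (Tm B g g' * A g' w * (Tm B g g')ᵀ) := by
  rw [ws_eq hD, ((Glue.sup_al_sq hD).smul fun g' w => Tm B g g' * A g' w * (Tm B g g')ᵀ).eq_sum
    (by norm_num), Fr.cv1, Matrix.mul_sum, Matrix.sum_mul]
  exact Finset.sum_congr rfl fun g' _ =>
    (cv1_smul _ _ _).trans (congrArg _ (GeoP.cv1_unc' _))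
theorem avg_eb {w : V} {v : Cu → Mx} {c E : Mx}
    (h : ∀ g, w ∈ box B.D g (9 / 10) → EB (v g - c) E) :
    EB (∑ᶠ g, al B.D g w ^ 2 • v g - c) E :=
  (Glue.sup_al_sq hD).avg_eb (by norm_num) (fun _ => sq_nonneg _) (al_finsum hD.ne' w)
    fun g hg => h g (al_supp hD fun e => hg (by rw [e]; norm_num))
theorem ap_mem (p : Cu → Prop) [DecidablePred p] (w : V) : 0 ≤ ap B p w ∧ ap B p w ≤ 1 := by
  rw [ap_eq]
  exact ⟨finsum_nonneg fun g => by positivity, (Glue.sup_al_sq hD).avg_le (by norm_num)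
    (fun _ => sq_nonneg _) (al_finsum hD.ne' w) fun g _ => by split_ifs <;> norm_num⟩
theorem ap_true (w : V) : ap B (fun _ => True) w = 1 := by
  simpa [ap] using al_finsum hD.ne' w
theorem ap_sm (p : Cu → Prop) [DecidablePred p] : Sm (ap B p) :=
  ((Glue.sup_al_sq hD).ite p).sm (by norm_num) fun g => by
    split_ifs
    exacts [(al_sm _ g).pow 2, contDiff_const]
theorem ap_smul (p : Cu → Prop) [DecidablePred p] (w : V) (c : Mx) :
    ap B p w • c = ∑ᶠ g, al B.D g w ^ 2 • if p g then c else 0 := by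
  rw [ap, ((Glue.sup_al_sq hD).ite p).eq_sum (by norm_num),
    ((Glue.sup_al_sq hD).smul fun g _ => if p g then c else 0).eq_sum (by norm_num), Finset.sum_smul]
  exact Finset.sum_congr rfl fun g _ => by split_ifs <;> simp
end ws

/-- bounds, in the coordinates of a frame, of a sum weighted by the squares of the cut-offs -/
theorem hat_cb (n : ℕ) : ∃ C : ℝ, 1 ≤ C ∧ ∀ (F : Fr) (D κ : ℝ) (h : V) (U : Set V)
    (φ : Cu → V → ℝ) (m : ℝ), Orth F.O → 0 < D → κ ≤ 1 → (∀ i, 0 ≤ h i) → (∀ i, h i ≤ κ * D) →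
    (∀ g, Sm (φ g)) → (∀ g, CB n h (U ∩ {x | F.xp x ∈ box D g 1}) (φ g) m) →
    CB n h U (fun x => ∑ᶠ g, al D g (F.xp x) ^ 2 * φ g x) (C * m) ∧ ∀ m',
      (∀ g, CV n h (U ∩ {x | F.xp x ∈ box D g 1}) (φ g) m') →
      CV n h U (fun x => ∑ᶠ g, al D g (F.xp x) ^ 2 * φ g x) (C * (κ * m + m')) := by
  obtain ⟨C, hC, H⟩ := cb_cut n
  refine ⟨8 * 2 ^ n * C, by nlinarith [one_le_pow₀ (n := n) (one_le_two (α := ℝ))],
    fun F D κ h U φ m hO hD hκ h0 h1 hs hb => ?_⟩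
  obtain ⟨⟨-, a1, -⟩, -, a2, -⟩ := (H F.O D hO hD).2 h κ hκ fun i => by
    rw [abs_of_nonneg (h0 i)]; exact h1 i
  have e : ∀ g x, al D g (F.xp x) = alh F.O D (x + F.Oᵀ *ᵥ (F.x0 - cen D g)) := fun g x => by
    rw [al_eq_alh hO, Fr.xp, add_sub_right_comm, mulVec_add, orth_t_mulVec hO, add_comm]
  have sa : ∀ g, Sm fun x => al D g (F.xp x) ^ 2 := fun g => ((al_sm D g).comp (xp_sm F)).pow 2
  have b1 : ∀ g x, CB n h {x} (fun x => al D g (F.xp x) ^ 2) C := fun g x => by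
    simp only [e]; exact (CBl.comp_add a1 _).monoU fun _ _ => mem_univ _
  have b2 : ∀ g x, CV n h {x} (fun x => al D g (F.xp x) ^ 2) (C * κ) := fun g x => by
    simp only [e]; exact (CBl.comp_add a2 _).monoU fun _ _ => mem_univ _
  have ev : ∀ x, (fun y => ∑ᶠ g, al D g (F.xp y) ^ 2 * φ g y) =ᶠ[𝓝 x]
      fun y => ∑ g ∈ Glue.nb8 (cv D) (F.xp x), al D g (F.xp y) ^ 2 * φ g y := fun x => by
    filter_upwards [(xp_sm F).continuous.continuousAt.eventually
      (Glue.ev_off (cv D) (r := 9 / 10) (by norm_num) (F.xp x))] with y hy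
    exact finsum_eq_sum_of_support_subset _ fun g hg => hy g ((Glue.sup_al_sq hD).mem
      (left_ne_zero_of_mul hg))
  have sub : ∀ x ∈ U, ∀ g ∈ Glue.nb8 (cv D) (F.xp x), {x} ⊆ U ∩ {x | F.xp x ∈ box D g 1} :=
    fun x hx g hg => singleton_subset_iff.2 ⟨hx, Glue.cell_cv hD g 1 ▸ Glue.cell_of_nb8 hg⟩
  have key : ∀ (P : List (Fin 3) → Prop) (M : ℝ), (∀ x ∈ U, ∀ g ∈ Glue.nb8 (cv D) (F.xp x),
      CBl P h {x} (fun y => al D g (F.xp y) ^ 2 * φ g y) M) →
      CBl P h U (fun x => ∑ᶠ g, al D g (F.xp x) ^ 2 * φ g x) (8 * M) := fun P M K =>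
    cbl_of_local fun x hx => by
      have := CBl.sum_card _ h0 (fun g _ => ContDiff.mul (sa g) (hs g)) (K x hx)
      rw [Glue.card_nb8, Nat.cast_ofNat] at this
      exact this.congr fun y hy => by rw [show y = x from hy]; exact ev x
  refine ⟨(key _ _ fun x hx g hg => CB.mul h0 (sa g) (hs g) (b1 g x)
    (CBl.monoU (hb g) (sub x hx g hg))).monoB (le_of_eq (by ring)), fun m' hv =>
    (key _ _ fun x hx g hg => CV.mul h0 (sa g) (hs g) (b1 g x) (b2 g x)
      (CBl.monoU (hb g) (sub x hx g hg)) (CBl.monoU (hv g) (sub x hx g hg))).monoB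
      (le_of_eq (by ring))⟩

theorem ap_cb (n : ℕ) : ∃ C : ℝ, 1 ≤ C ∧ ∀ (B : Bk) (p : Cu → Prop) [DecidablePred p] (F : Fr)
    (κ : ℝ) (h : V), Orth F.O → 0 < B.D → κ ≤ 1 → (∀ i, 0 ≤ h i) → (∀ i, h i ≤ κ * B.D) →
    CB n h univ (fun x => ap B p (F.xp x)) C ∧ CV n h univ (fun x => ap B p (F.xp x)) (C * κ) := by
  obtain ⟨C, hC, H⟩ := hat_cb n
  refine ⟨C, hC, fun B p _ F κ h hO hD hκ h0 h1 => ?_⟩
  have := H F B.D κ h univ (fun g _ => if p g then 1 else 0) 1 hO hD hκ h0 h1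
    (fun _ => contDiff_const) fun g => cb_const (by split_ifs <;> simp)
  simp only [ap_eq]
  exact ⟨by simpa using this.1, by simpa using this.2 0 fun g => cv_const _ le_rfl⟩

section lat
variable {B : Bk} (G : FrOk B.N B.lb B.fr) (hb : Big B.N) {k : ℕ} (hk : k ≤ nb B.N) {hv : ℝ}
include G hb

theorem nbr_of {g g' : Cu} {x : V} {r r' : ℝ} (hr : r + r' < 4) (hx : x ∈ B.R g r)
    (hx' : (B.fr g).xp x ∈ box B.D g' r') : Nbr 3 g g' :=
  box_nbr (D_pos G hb) (by push_cast; linarith) ((GeoP.xp_mem G).2 hx) hx'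

theorem Db_sm : SmM B.Db ∧ ∀ w, (B.Db w)ᵀ = B.Db w :=
  ⟨ws_sm (D_pos G hb) fun _ => smM_const _, fun _ => ws_symm (D_pos G hb) fun _ => dg3_tr _ _ _⟩
theorem Dl_sm (k : ℕ) : SmM (B.Dl k) ∧ ∀ w, (B.Dl k w)ᵀ = B.Dl k w :=
  ⟨ws_sm (D_pos G hb) fun _ => smM_const _, fun _ => ws_symm (D_pos G hb) fun _ => dg3_tr _ _ _⟩
theorem Rf_sm (k : ℕ) {S : V → Mx} (h : SmM S) : SmM (B.Rf k S) :=
  ws_sm (D_pos G hb) fun _ => (smM_latm (smM_cv1 _ h)).add (smM_const _)
theorem Rf_symm (k : ℕ) {S : V → Mx} {w : V} (h : (S w)ᵀ = S w) : (B.Rf k S w)ᵀ = B.Rf k S w :=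
  ws_symm (D_pos G hb) fun _ => by rw [transpose_add, latm_tr, cv1_tr, h, dg3_tr]
theorem Db_eb {g : Cu} {x : V} (hx : x ∈ B.R g 3) :
    EB ((B.fr g).cov B.Db x - dg3 0 0 1) (cm (30 * ew B.N)) := by
  rw [Fr.cov, Bk.Db, cv1_ws (D_pos G hb)]
  refine avg_eb (D_pos G hb) fun g' h => ?_
  have t := Tm_no G hb (nbr_of G hb (by norm_num) hx h)
  exact bd_eb ((conj_dg (m := 1) t t.tr (by simp) (by simp)).mono (by simp))

include hk
theorem nc_ws (H : HV B k hv) (A : Cu → V → Mx) (g : Cu) (w : V) : nc B k hv g (B.ws A w) =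
    ∑ᶠ g', al B.D g' w ^ 2 •
      (Tn B k hv g g' * nrm ((B.c g' k).hy hv) (A g' w) * (Tn B k hv g g')ᵀ) := by
  have := (ws_sup (D_pos G hb) A).map_finsum (by norm_num) (ncv ((B.c g k).hy hv) (B.fr g)) w
  exact this.trans (finsum_congr fun g' =>
    (nc_smul B k hv g _ _).trans (congrArg _ (nc_unc G hb hk H g g' _)))

/-- a sum of lateral parts plus diagonal matrices, seen from the frame of `g` -/
theorem ws_lat_eq (H : HV B k hv) {p : Cu → Prop} [DecidablePred p] {A : Cu → V → Mx} {X D : Mx}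
    {w : V} (hA : ∀ g', nrm ((B.c g' k).hy hv) (A g' w) =
      if p g' then latm (nc B k hv g' X) + D else 0) (g : Cu) (i j : Fin 3) :
    (nc B k hv g (B.ws A w) - ap B p w • (latm (nc B k hv g X) + D)) i j =
      ∑ᶠ g', al B.D g' w ^ 2 * if p g' then
        Er (Tn B k hv g g') (Tn B k hv g' g) D (nc B k hv g X) i j else 0 := by
  have s := Glue.sup_al_sq (D_pos G hb)
  rw [nc_ws G hb hk H, ap_smul (D_pos G hb), (s.smul fun g' w => Tn B k hv g g' *
    nrm ((B.c g' k).hy hv) (A g' w) * (Tn B k hv g g')ᵀ).eq_sum (by norm_num),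
    (s.smul fun g' _ => if p g' then latm (nc B k hv g X) + D else 0).eq_sum (by norm_num),
    (s.mul fun g' _ => if p g' then Er (Tn B k hv g g') (Tn B k hv g' g) D (nc B k hv g X) i j
      else 0).eq_sum (by norm_num), ← Finset.sum_sub_distrib, Matrix.sum_apply]
  refine Finset.sum_congr rfl fun g' _ => ?_
  rw [← smul_sub, Matrix.smul_apply, smul_eq_mul, hA, nc_chg G hb hk H g' g X]
  split_ifs
  · rfl
  · simp

/-- pointwise form -/
theorem ws_lat_bd (H : HV B k hv) {p : Cu → Prop} [DecidablePred p] {A : Cu → V → Mx} {X : Mx}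
    {a b m : ℝ} (ha : |a| ≤ 1) (hb' : |b| ≤ 1) {g : Cu} {x : V} (hx : x ∈ B.R g 3)
    (hA : ∀ g', nrm ((B.c g' k).hy hv) (A g' ((B.fr g).xp x)) =
      if p g' then latm (nc B k hv g' X) + dg3 a a b else 0) (hX : Bd (nc B k hv g X) m) :
    Bd (nc B k hv g (B.ws A ((B.fr g).xp x)) - ap B p ((B.fr g).xp x) •
      (latm (nc B k hv g X) + dg3 a a b)) (ew B.N * (810 * m + 30)) := fun i j => by
  rw [ws_lat_eq G hb hk H hA, ← sub_zero (finsum _)]
  refine (Glue.sup_al_sq (D_pos G hb)).avg_abs (by norm_num) (fun _ => sq_nonneg _)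
    (al_finsum (D_pos G hb).ne' _) fun g' hg => ?_
  have n := nbr_of G hb (by norm_num) hx (al_supp (D_pos G hb) fun e => hg (by rw [e]; norm_num))
  have := bd_Er (Tn_no G hb hk H n) (Tn_no' G hb hk H n) ha hb' hX
  rw [sub_zero]
  split_ifs
  exacts [this i j, by simpa using this.nn]

theorem Dl_eb (H : HV B k hv) {g : Cu} {x : V} (hx : x ∈ B.R g 3) :
    EB (nc B k hv g (B.Dl k ((B.fr g).xp x)) - dg3 (1 / 32) (1 / 32) 0) (cm (30 * ew B.N)) := by
  have := ws_lat_bd G hb hk H (p := fun _ => True) (X := 0) (a := 1 / 32) (b := 0) (m := 0)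
    (A := fun g _ => dg3 ((B.c g k).l1 ^ 2 / 32) ((B.c g k).lam ^ 2 / 32) 0)
    (by norm_num [abs_le]) (by simp) hx (fun g' => by
      have c := Bk.gd G hb g' hk
      have := c.l1_pos; have := c.lam_pos
      rw [if_pos trivial, nc_zero, latm_zero, zero_add, nrm_dg3, hy0, hy1]
      congr 1 <;> field_simp
      simp) (by rw [nc_zero]; exact fun _ _ => by simp)
  rw [ap_true (D_pos G hb), one_smul, nc_zero, latm_zero, zero_add] at this
  exact bd_eb (this.mono (le_of_eq (by ring)))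

theorem Rf_nrm (S : V → Mx) (g : Cu) (w : V) :
    nrm ((B.c g k).hy (B.yk k)) (latm ((B.fr g).cv1 (S w)) + dg3 0 0 ((B.c g k).y ^ 2)) =
      latm (nc B k (B.yk k) g (S w)) + dg3 0 0 1 := by
  have p : 0 < B.yk k := (Bk.gd G hb 0 hk).y_pos
  rw [nrm_add, nrm_latm, nrm_dg3, hy2, y_eq, zero_div, zero_div, div_self (pow_pos p 2).ne']
  rfl
end lat

/-- derivative form of `ws_lat_bd` -/
theorem ws_lat (n : ℕ) : ∃ C : ℝ, 1 ≤ C ∧ ∀ (B : Bk) (k : ℕ) (hv : ℝ) (p : Cu → Prop)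
    [DecidablePred p] (A : Cu → V → Mx) (X : V → Mx) (a b m : ℝ) (g : Cu) (h : V) (U : Set V),
    FrOk B.N B.lb B.fr → Big B.N → k ≤ nb B.N → HV B k hv → |a| ≤ 1 → |b| ≤ 1 → SmM X → 0 ≤ m →
    (∀ i, 0 ≤ h i) → (∀ i, h i ≤ B.D) → U ⊆ B.R g 2 →
    (∀ g' w, nrm ((B.c g' k).hy hv) (A g' w) =
      if p g' then latm (nc B k hv g' (X w)) + dg3 a a b else 0) →
    (∀ i j, CB n h U (fun x => nc B k hv g (X ((B.fr g).xp x)) i j) m) → ∀ i j,
    CB n h U (fun x => (nc B k hv g (B.ws A ((B.fr g).xp x)) - ap B p ((B.fr g).xp x) •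
      (latm (nc B k hv g (X ((B.fr g).xp x))) + dg3 a a b)) i j) (C * ew B.N * (m + 1)) := by
  obtain ⟨C, hC, K⟩ := hat_cb n
  refine ⟨810 * C, by linarith,
    fun B k hv p _ A X a b m g h U G hb hk H ha hb' hX hm h0 h1 hU hA hM i j => ?_⟩
  have sM : SmM fun x => nc B k hv g (X ((B.fr g).xp x)) := smM_nc B k hv g (hX.comp (xp_sm _))
  have e0 := (ew_bd hb).1
  have K' := (K (B.fr g) B.D 1 h U (fun g' x => if p g' then Er (Tn B k hv g g') (Tn B k hv g' g)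
    (dg3 a a b) (nc B k hv g (X ((B.fr g).xp x))) i j else 0) (ew B.N * (810 * m + 30))
    (GeoP.orth G g) (D_pos G hb) le_rfl h0 (by simpa using h1) (fun g' => by
      split_ifs
      exacts [smM_Er _ _ _ sM i j, contDiff_const]) fun g' => by
      split_ifs
      · refine cbl_of_local fun x hx => ?_
        have n := nbr_of G hb (by norm_num) (hU hx.1) hx.2
        exact cb_Er h0 (Tn_no G hb hk H n) (Tn_no' G hb hk H n) ha hb' sM
          (fun i j => CBl.monoU (hM i j) (singleton_subset_iff.2 hx.1)) i j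
      · exact cbl_zero (by positivity)).1
  simp only [ws_lat_eq G hb hk H (fun g' => hA g' _)]
  exact CBl.monoB K' (by nlinarith [mul_pos e0 (show 0 < C by linarith)])

end
end Pool.Agent.MP_20bec2_an.T3.Ws

end MrgPart0

-- ======== part 1: formerly Pool.Agent.MP_20bec2_an.T3.Ksd
section MrgPart1

/-! The kernel conditions hold during a band. -/

set_option autoImplicit false
open MeasureTheory Set Filter Matrix Topology

namespace Pool.Agent.MP_20bec2_an.T3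
noncomputable section
open Classical

/-- the refined covariance satisfies the invariant after the start of the band -/
def Bs0Stmt : Prop := EvB fun B => ∀ (k : ℕ) (s s' : St), FrOk B.N B.lb B.fr → k < nb B.N →
  B.IS k 0 s → s'.Sg = B.Rf k s.Sg → s'.S0 = B.Rf k s.Sg → B.IS k 1 s'

namespace KsdP

lemma q1 {e ε : ℝ} (h : |e| ≤ ε) (x y : ℝ) : |e * x * y| ≤ ε * (x ^ 2 + y ^ 2) / 2 := by
  have h1 : |x * y| ≤ (x ^ 2 + y ^ 2) / 2 :=
    abs_le.2 ⟨by nlinarith [sq_nonneg (x + y)], by nlinarith [sq_nonneg (x - y)]⟩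
  rw [mul_assoc, abs_mul, mul_div_assoc]
  exact mul_le_mul h h1 (abs_nonneg _) ((abs_nonneg _).trans h)

/-- a matrix near a diagonal one in the scales `h` -/
lemma pd_of {h : V} {S : Mx} {a b : ℝ} (hh : ∀ i, 0 < h i) (hs : Sᵀ = S) (a1 : 1 / 32 ≤ a)
    (a2 : a ≤ 4) (b1 : 1 / 32 ≤ b) (b2 : b ≤ 4) (H : EB (nrm h S - dg3 a a b) (cm (1 / 300))) :
    PD h S := by
  refine ⟨hs, fun v => ?_⟩
  obtain ⟨E, hE⟩ : ∃ E, E = nrm h S - dg3 a a b := ⟨_, rfl⟩
  have e : ∀ i j, S i j = (E i j + dg3 a a b i j) * (h i * h j) := fun i j => by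
    have := hh i
    have := hh j
    rw [hE, Matrix.sub_apply, sub_add_cancel, nrm, of_apply, div_mul_cancel₀ _ (by positivity)]
  rw [← hE] at H
  have k : ∀ i j, |E i j * (h i * v i) * (h j * v j)| ≤
      1 / 300 * ((h i * v i) ^ 2 + (h j * v j) ^ 2) / 2 := fun i j => q1 (H i j) _ _
  have e2 : v ⬝ᵥ (S *ᵥ v) = a * (h 0 * v 0) ^ 2 + a * (h 1 * v 1) ^ 2 + b * (h 2 * v 2) ^ 2 +
      ∑ i, ∑ j, E i j * (h i * v i) * (h j * v j) := by
    simp only [dotProduct, mulVec, Fin.sum_univ_three, e]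
    simp [dg3]
    ring
  rw [e2]
  simp only [Fin.sum_univ_three]
  have s0 := sq_nonneg (h 0 * v 0)
  have s1 := sq_nonneg (h 1 * v 1)
  have s2 := sq_nonneg (h 2 * v 2)
  have u0 := mul_le_mul_of_nonneg_right a1 s0
  have u1 := mul_le_mul_of_nonneg_right a1 s1
  have u2 := mul_le_mul_of_nonneg_right b1 s2
  have w0 := mul_le_mul_of_nonneg_right a2 s0
  have w1 := mul_le_mul_of_nonneg_right a2 s1
  have w2 := mul_le_mul_of_nonneg_right b2 s2
  constructor <;>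
    linarith [abs_le.1 (k 0 0), abs_le.1 (k 0 1), abs_le.1 (k 0 2), abs_le.1 (k 1 0),
      abs_le.1 (k 1 1), abs_le.1 (k 1 2), abs_le.1 (k 2 0), abs_le.1 (k 2 1), abs_le.1 (k 2 2)]

lemma ent {s l d d1 d2 d3 p m c G g e T : ℝ} (hs : |s - d1| ≤ G) (hl : |l - d2| ≤ e)
    (hd : |d - d3| ≤ e) (p0 : 0 ≤ p) (p1 : p ≤ T) (m0 : 0 ≤ m) (m1 : m ≤ 4 * T) (c0 : 0 ≤ c)
    (c1 : c ≤ 1) (hG : p * G ≤ g + T * e) :
    |p * s - c * p * l - m * d - (p * d1 - c * p * d2 - m * d3)| ≤ g + 6 * T * e := by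
  have e0 : 0 ≤ e := (abs_nonneg _).trans hl
  have a1 : |p * (s - d1)| ≤ g + T * e := by
    rw [abs_mul, abs_of_nonneg p0]
    exact (mul_le_mul_of_nonneg_left hs p0).trans hG
  have a2 : |c * p * (l - d2)| ≤ T * e := by
    rw [abs_mul, abs_of_nonneg (mul_nonneg c0 p0)]
    exact mul_le_mul ((mul_le_of_le_one_left p0 c1).trans p1) hl (abs_nonneg _) (p0.trans p1)
  have a3 : |m * (d - d3)| ≤ 4 * T * e := by
    rw [abs_mul, abs_of_nonneg m0]
    exact mul_le_mul m1 hd (abs_nonneg _) (m0.trans m1)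
  obtain ⟨x1, x2⟩ := abs_le.1 a1
  obtain ⟨x3, x4⟩ := abs_le.1 a2
  obtain ⟨x5, x6⟩ := abs_le.1 a3
  exact abs_le.2 ⟨by linarith, by linarith⟩

/-- lowering the vertical scale -/
lemma resc {l1 lam y y' T g e d v c : ℝ} {S L D : Mx} (h1 : 0 < lam) (h2 : lam ≤ l1)
    (h3 : 0 < y') (h4 : y' ≤ y) (h5 : y ≤ T * lam) (h6 : y ≤ T * y') (c0 : 0 ≤ c) (c1 : c ≤ 1)
    (v1 : 1 ≤ v) (v4 : v ≤ 4) (hS : EB (nrm ![l1, lam, y] S - dg3 d d v) (bm g e e))
    (hL : EB (nrm ![l1, lam, y] L - dg3 (1 / 32) (1 / 32) 0) (cm e))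
    (hD : EB (D - dg3 0 0 1) (cm e)) :
    EB (nrm ![l1, lam, y'] (S - c • L - (v * y ^ 2 - y' ^ 2) • D) -
      dg3 (d - c / 32) (d - c / 32) 1) (cm (g + 6 * T ^ 2 * e)) := fun i j => by
  have e0 : 0 ≤ e := (abs_nonneg _).trans (hD 0 0)
  have g0 : 0 ≤ g := (abs_nonneg _).trans (hS 0 0)
  have y0 : 0 < y := h3.trans_le h4
  have l0 : 0 < l1 := h1.trans_le h2
  have t1 : 1 ≤ y / y' := (one_le_div h3).2 h4
  have t2 : y / y' ≤ T := (div_le_iff₀ h3).2 h6
  have T1 : 1 ≤ T := t1.trans t2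
  obtain ⟨τ, hτ⟩ : ∃ τ : V, τ = ![1, 1, y / y'] := ⟨_, rfl⟩
  obtain ⟨h, hh⟩ : ∃ h : V, h = ![l1, lam, y] := ⟨_, rfl⟩
  obtain ⟨h', hh'⟩ : ∃ h : V, h = ![l1, lam, y'] := ⟨_, rfl⟩
  have f : ∀ i, 0 < h' i ∧ h i = τ i * h' i ∧ 1 ≤ τ i ∧ τ i ≤ T ∧ y ≤ T * h' i := fun i => by
    subst hτ hh hh'
    fin_cases i
    · exact ⟨l0, (one_mul _).symm, le_rfl, T1,
        h5.trans (mul_le_mul_of_nonneg_left h2 (by linarith))⟩
    · exact ⟨h1, (one_mul _).symm, le_rfl, T1, h5⟩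
    · exact ⟨h3, (div_mul_cancel₀ _ h3.ne').symm, t1, t2, h6⟩
  obtain ⟨i1, i2, i3, i4, i5⟩ := f i
  obtain ⟨j1, j2, j3, j4, j5⟩ := f j
  have w0 : 0 ≤ v * y ^ 2 - y' ^ 2 := by nlinarith [pow_le_pow_left₀ h3.le h4 2, sq_nonneg y]
  have w1 : (v * y ^ 2 - y' ^ 2) / (h' i * h' j) ≤ 4 * T ^ 2 := by
    rw [div_le_iff₀ (mul_pos i1 j1)]
    nlinarith [mul_le_mul i5 j5 y0.le (y0.le.trans i5), sq_nonneg y, sq_nonneg y']
  have p1 : τ i * τ j ≤ T ^ 2 := by
    rw [sq]; exact mul_le_mul i4 j4 (by linarith) (by linarith)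
  have k := ent (hS i j) (hL i j) (hD i j) (p := τ i * τ j) (g := g) (e := e) (by positivity) p1
    (div_nonneg w0 (mul_pos i1 j1).le) w1 c0 c1 (by
      have a1 := mul_le_mul_of_nonneg_right p1 e0
      have a2 : 0 ≤ T ^ 2 * e := by positivity
      subst hτ
      fin_cases i <;> fin_cases j <;> simp [bm] at a1 ⊢ <;> linarith)
  rw [← hh] at k
  rw [← hh']
  refine le_of_eq_of_le (congrArg abs ?_) k
  have e1 : dg3 (d - c / 32) (d - c / 32) 1 i j = τ i * τ j * dg3 d d v i j -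
      c * (τ i * τ j) * dg3 (1 / 32) (1 / 32) 0 i j -
      (v * y ^ 2 - y' ^ 2) / (h' i * h' j) * dg3 0 0 1 i j := by
    subst hτ hh'
    fin_cases i <;> fin_cases j <;> simp [dg3]
    all_goals (field_simp; try ring)
  rw [Matrix.sub_apply, e1]
  simp only [nrm, of_apply, Matrix.sub_apply, Matrix.smul_apply, smul_eq_mul, i2, j2]
  have := (zero_lt_one.trans_le i3).ne'
  have := (zero_lt_one.trans_le j3).ne'
  field_simp

lemma cv1_smul (F : Fr) (c : ℝ) (S : Mx) : F.cv1 (c • S) = c • F.cv1 S := by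
  simp only [Fr.cv1, Matrix.mul_smul, Matrix.smul_mul]

lemma cv1_symm (F : Fr) {S : Mx} (h : Sᵀ = S) : (F.cv1 S)ᵀ = F.cv1 S := by
  simp only [Fr.cv1, transpose_mul, transpose_transpose, h, Matrix.mul_assoc]

lemma nrm_sub (h : V) (S T : Mx) : nrm h (S - T) = nrm h S - nrm h T := by
  ext i j
  simp only [nrm, of_apply, Matrix.sub_apply, sub_div]

lemma part_bd {D : ℝ} (hD : 0 < D) (p : Cu → Prop) [DecidablePred p] (x : V) :
    0 ≤ (∑ᶠ g, if p g then al D g x ^ 2 else 0) ∧ (∑ᶠ g, if p g then al D g x ^ 2 else 0) ≤ 1 := by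
  refine ⟨finsum_nonneg fun g => by split_ifs <;> positivity, ?_⟩
  rw [← Prof.al_finsum hD.ne' x, ((Glue.sup_al_sq hD).ite p).eq_sum (by norm_num) x,
    (Glue.sup_al_sq hD).eq_sum (by norm_num) x]
  exact Finset.sum_le_sum fun g _ => by split_ifs <;> first | rfl | positivity

section num
variable {N : ℕ} (b : Big N)
include b

lemma np_small {a : ℝ} (ha : a ≤ -1 / 10) : np N a ≤ 1 / 10 ^ 6 := by
  have h1 : 10 ^ 6 ≤ np N (1 / 10) := by
    rw [b.np_eq]
    linarith [Real.add_one_le_exp (1 / 10 * pJ N), b.J_ge, b.L_ge]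
  have h2 := b.np_add (1 / 10) (-1 / 10)
  rw [show (1 / 10 + -1 / 10 : ℝ) = 0 by norm_num, np_zero] at h2
  have h3 := b.np_pos (-1 / 10)
  exact (b.np_le ha).trans (by nlinarith)

lemma sq_small : 1 / √(pq N) ≤ 1 / 3000 :=
  one_div_le_one_div_of_le (by norm_num) (Real.le_sqrt_of_sq_le (by linarith [b.q_ge]))

lemma q_small : 1 / pq N ≤ 1 / 3000 := one_div_le_one_div_of_le (by norm_num) (by linarith [b.q_ge])

lemma err_small : 1 / √(pq N) + 6 * np N 2 ^ 2 * np N (-15) ≤ 1 / 300 := by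
  have e : np N 2 ^ 2 * np N (-15) = np N (-11) := by
    rw [sq, ← b.np_add, ← b.np_add]; norm_num
  rw [mul_assoc, e]
  linarith [np_small b (a := -11) (by norm_num), sq_small b]

lemma np_le_sq : np N (-4 / 10) ≤ 1 / √(pq N) := by
  have := b.sqrtq_pos
  refine le_of_log (b.np_pos _) (by positivity) ?_
  rw [one_div, Real.log_inv, b.log_np, b.log_sqrtq]
  linarith [b.J_ge, b.L_ge]

lemma nu_le : 2 * nu N ≤ 3 / √(pJ N) := by
  have := b.sqrtJ_pos
  have h : nu N ≤ 1 / √(pJ N) := by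
    refine le_of_log b.nu_pos (by positivity) ?_
    rw [one_div, Real.log_inv, b.log_nu, b.log_sqrtJ]
    linarith [b.J_ge, b.L_ge]
  have e : 3 / √(pJ N) = 3 * (1 / √(pJ N)) := by ring
  linarith [b.nu_pos]

lemma k_small {k : ℕ} (hk : k ≤ nb N) : (k : ℝ) / N ≤ 1 / 10 ^ 6 := by
  have h1 : (k : ℝ) ≤ nb N := by exact_mod_cast hk
  rw [div_le_iff₀ b.N_pos]
  linarith [b.nb_bd.2, b.N_ge, b.J_pos]
end num

lemma zT_le {c : Pm} (h : Gd c) : c.zT ≤ 3 / √(pJ c.N) := by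
  unfold Pm.zT
  split_ifs
  · exact nu_le h.big
  · exact div_le_div_of_nonneg_right (by norm_num) (Real.sqrt_nonneg _)

lemma t_small {c : Pm} (h : Gd c) :
    c.t11 ≤ 1 / 300 ∧ c.t12 ≤ 1 / 300 ∧ c.t13 ≤ 1 / 300 ∧ c.t33 ≤ 1 / 300 := by
  have a1 : 1 / c.q ≤ 1 / 3000 := q_small h.big
  have a2 : c.b2 / c.q ≤ 1 / c.q :=
    div_le_div_of_nonneg_right (h.b2_le.trans (by norm_num)) h.q_pos.le
  have a3 := np_small h.big (a := -4 / 10) (by norm_num)
  have a4 := np_small h.big (a := -38 / 100) (by norm_num)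
  have a5 := np_small h.big (a := -20) (by norm_num)
  unfold Pm.t11 Pm.t12 Pm.t13 Pm.t33
  split_ifs
  all_goals exact ⟨by linarith, by linarith, by linarith, by linarith⟩

/-- the part of the kernel conditions about the map -/
def ZK (B : Bk) (Z : V → V) : Prop := Sm Z ∧ Function.Bijective Z ∧
  ∀ g, ∀ x ∈ B.R g (99 / 100), EB (jm ((B.fr g).hat Z) x - 1) (cm (3 / √(pJ B.N))) ∧
    ‖(B.fr g).O *ᵥ ((B.fr g).hat Z x - x)‖ ≤ B.D / 900

/-- the two reference matrices -/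
def DK (B : Bk) (k : ℕ) : Prop := SmM B.Db ∧ SmM (B.Dl k) ∧
  (∀ x, (B.Db x)ᵀ = B.Db x ∧ (B.Dl k x)ᵀ = B.Dl k x) ∧ ∀ g, ∀ x ∈ B.R g (99 / 100),
    EB ((B.fr g).cov B.Db x - dg3 0 0 1) (cm (np B.N (-20))) ∧
    EB (nrm (B.c g k).hs ((B.fr g).cov (B.Dl k) x) - dg3 (1 / 32) (1 / 32) 0) (cm (np B.N (-20)))

lemma ks_gen {B : Bk} (b : Big B.N) (fo : FrOk B.N B.lb B.fr) {k : ℕ} (hk : k ≤ nb B.N)
    {Z : V → V} (hz : ZK B Z) (hd : DK B k) {S W : V → Mx} (sS : SmM S ∧ ∀ x, (S x)ᵀ = S x)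
    {c v y' : ℝ} (c0 : 0 ≤ c) (c1 : c ≤ 1) (v1 : 1 ≤ v) (v4 : v ≤ 4)
    (y1 : np B.N (-2) * B.yk k ≤ y') (y2 : y' ≤ B.yk k)
    (hS : ∀ g, ∀ x ∈ B.R g (99 / 100), ∃ d, 1 / 16 ≤ d ∧ d ≤ 1 / 4 ∧ EB (B.nS k S g x - dg3 d d v)
      (bm (1 / √(pq B.N)) (np B.N (-15)) (np B.N (-15))))
    (hW : ∀ x, W x = S x - c • B.Dl k x - (v * B.yk k ^ 2 - y' ^ 2) • B.Db x) : B.KS k Z W y' := by
  obtain ⟨d1, d2, d3, d4⟩ := hd
  refine ⟨hz.1, hz.2.1, fun i j => ?_, ⟨y1, y2⟩, fun g x hx =>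
    ⟨(hz.2.2 g x hx).1, (hz.2.2 g x hx).2, ?_⟩⟩
  · simp only [hW, Matrix.sub_apply, Matrix.smul_apply, smul_eq_mul]
    exact ((sS.1 i j).continuous.sub (continuous_const.mul (d2 i j).continuous)).sub
      (continuous_const.mul (d1 i j).continuous)
  · have gd := Bk.gd fo b g hk
    have y0 : 0 < B.yk k := gd.y_pos
    have y3 : 0 < y' := (mul_pos (b.np_pos _) y0).trans_le y1
    obtain ⟨d, e1, e2, e3⟩ := hS g x hx
    have n1 := b.np_le (show (-20 : ℝ) ≤ -15 by norm_num)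
    have kk := resc (T := np B.N 2) gd.lam_pos gd.lam_le_l1 y3 y2
      (mul_le_mul_of_nonneg_right (b.np_le (by norm_num)) gd.lam_pos.le) (by
        have a1 := mul_le_mul_of_nonneg_left y1 (b.np_pos 2).le
        rwa [← mul_assoc, ← b.np_add, add_neg_cancel, np_zero, one_mul] at a1)
      c0 c1 v1 v4 e3 (GeoP.eb_mono (d4 g x hx).2 n1) (GeoP.eb_mono (d4 g x hx).1 n1)
    have e : (B.fr g).cov W x = (B.fr g).cov S x - c • (B.fr g).cov (B.Dl k) x -
        (v * B.yk k ^ 2 - y' ^ 2) • (B.fr g).cov B.Db x := by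
      simp only [Fr.cov, hW, Prof.cv1_sub, cv1_smul]
    refine pd_of (a := d - c / 32) (b := 1) (fun i => ?_) (cv1_symm _ ?_) (by linarith)
      (by linarith) (by norm_num) (by norm_num) (by rw [e]; exact GeoP.eb_mono kk (err_small b))
    · fin_cases i
      exacts [gd.l1_pos, gd.lam_pos, y3]
    · rw [hW, transpose_sub, transpose_sub, transpose_smul, transpose_smul, sS.2, (d3 _).1,
        (d3 _).2]

end KsdP

open KsdP in
theorem ksd (hZ : ZderStmt) (hS : SderStmt) (hB : Bs0Stmt) : KsdStmt := by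
  filter_upwards [hZ, hS, hB, ev_big] with N hZ hS hB b
  rintro B rfl ρ k r s ok hk hr pre
  have fo := ok.geo.toFrOk
  have gd := fun g => Bk.gd fo b g hk.le
  have D0 : 0 < B.D := (gd 0).D_pos
  have y0 : 0 < B.yk k := (gd 0).y_pos
  have sub : ∀ g {t : ℝ}, 99 / 100 ≤ t → B.R g (99 / 100) ⊆ B.R g t := fun g _ ht =>
    Prof.RX_mono _ D0.le ht
  have sk : 99 / 100 ≤ 1 - (k : ℝ) / B.N := by linarith [k_small b hk.le]
  obtain ⟨z1, z2⟩ := hZ B rfl ρ k r s ok hk hr pre.il pre.iz pre.ip pre.iq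
  have hz : ZK B (B.Z s) := ⟨z1, pre.iz.bij, fun g x hx => by
    obtain ⟨-, -, -, a1, -, a2⟩ := z2 g _ ((GeoP.xp_mem fo).2 (sub g (by norm_num) hx))
    rw [Prof.xc_xp (GeoP.orth fo g)] at a2
    rw [(K3.p5 (B.fr g) (z1.differentiable Inv.top_ne) x).1]
    exact ⟨GeoP.eb_mono a1 (zT_le (gd g)), le_trans a2 (by linarith)⟩⟩
  obtain ⟨r', s', r1, r9, is', sg⟩ : ∃ (r' : ℕ) (s' : St), 1 ≤ r' ∧ r' ≤ 9 ∧ B.IS k r' s' ∧
      s'.Sg = if r = 0 then B.Rf k s.Sg else s.Sg := by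
    by_cases h0 : r = 0
    · subst h0
      exact ⟨1, { s with Sg := B.Rf k s.Sg, S0 := B.Rf k s.Sg }, le_rfl, by norm_num,
        hB B rfl k s _ fo hk pre.is rfl rfl, (if_pos rfl).symm⟩
    · exact ⟨r, s, Nat.pos_of_ne_zero h0, hr, pre.is, (if_neg h0).symm⟩
  have hs := hS B rfl k r' s' fo hk r1 r9 is'
  have hd : DK B k := ⟨(hs 0).2.2.2.1, (hs 0).2.2.2.2.1,
    fun x => ⟨((hs 0).2.2.2.2.2.2 x).1, ((hs 0).2.2.2.2.2.2 x).2.1⟩,
    fun g x hx => ((hs g).1 x (sub g (by norm_num) hx)).2.2⟩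
  have h1 : ∀ g, ∀ x ∈ B.R g (99 / 100), ∃ d, 1 / 16 ≤ d ∧ d ≤ 1 / 4 ∧
      EB (B.nS k s'.Sg g x - dg3 d d 1) (bm (1 / √(pq B.N)) (np B.N (-15)) (np B.N (-15))) :=
    fun g x hx => by
      obtain ⟨a1, a2⟩ := part_bd D0 (fun g' => col g' < r' - 1) ((B.fr g).xp x)
      exact ⟨_, by linarith, by linarith, ((hs g).1 x (sub g (by norm_num) hx)).1⟩
  have n2 : np B.N (-2) ≤ 1 := by rw [← np_zero B.N]; exact b.np_le (by norm_num)
  have yy : np B.N (-2) * B.yk k ≤ B.yk k := mul_le_of_le_one_left y0.le n2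
  have hR : ∀ y', (B.c 0 k).yrg y' → B.KS k (B.Z s) (B.SR k r s.Sg y') y' := fun y' hy =>
    ks_gen b fo hk.le hz hd is'.sm (c := 1) (v := 1) zero_le_one le_rfl le_rfl (by norm_num)
      (le_trans (mul_le_mul_of_nonneg_right (b.np_le (by norm_num)) y0.le) hy.1)
      (hy.2.trans (half_le_self y0.le)) h1 fun x => by
        rw [Bk.SR, sg, one_smul, one_mul]
        split_ifs <;> rfl
  have ym : kL B.N ≤ k → k < mid B.N →
      np B.N (-2) * B.yk k ≤ 2 * B.yk (mid B.N) ∧ 2 * B.yk (mid B.N) ≤ B.yk k := fun k1 k2 => by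
    obtain ⟨m, hm⟩ : ∃ m, mid B.N = k + (m + 1) := ⟨mid B.N - k - 1, by omega⟩
    have e : B.yk k = 2 ^ m * (2 * B.yk (mid B.N)) := by
      simp only [Bk.yk, Pm.y, Pm.lam, Bk.c, Fr.pm, hm]
      field_simp
      ring
    have p1 : (1 : ℝ) ≤ 2 ^ m := one_le_pow₀ one_le_two
    have p2 : (2 : ℝ) ^ m ≤ np B.N 2 :=
      (pow_le_pow_right₀ one_le_two (by omega)).trans
        (b.two_pow_mid_kL.2.trans (b.np_le (by norm_num)))
    have p3 : 0 < 2 * B.yk (mid B.N) := by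
      rw [e] at y0
      exact (mul_pos_iff_of_pos_left (by positivity)).1 y0
    have p4 : np B.N (-2) * np B.N 2 = 1 := by rw [← b.np_add, neg_add_cancel, np_zero]
    rw [e]
    refine ⟨?_, le_mul_of_one_le_left p3.le p1⟩
    rw [← mul_assoc]
    exact mul_le_of_le_one_left p3.le
      ((mul_le_mul_of_nonneg_left p2 (b.np_pos _).le).trans_eq p4)
  by_cases h0 : r = 0
  · subst h0
    have sb := pre.is.pre rfl
    refine ⟨⟨z1, pre.iz.bij, fun i j => (sb.sm.1 i j).continuous, ⟨yy, le_rfl⟩, fun g x hx =>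
      ⟨(hz.2.2 g x hx).1, (hz.2.2 g x hx).2, ?_⟩⟩, fun g x hx x' hx' _ => ?_, hR, fun k1 k2 => ?_⟩
    · obtain ⟨t1, t2, -, -⟩ := t_small (gd g)
      obtain ⟨-, -, t3, t4⟩ := t_small (gd 0)
      refine pd_of (a := 1 / 4) (b := 4) (gd g).hs_pos (cv1_symm _ (sb.sm.2 _)) (by norm_num)
        (by norm_num) (by norm_num) le_rfl fun i j => (sb.bd g x (sub g sk hx) i j).trans ?_
      fin_cases i <;> fin_cases j <;> simp [cm] <;> linarith
    · rw [nrm_sub]
      refine GeoP.eb_mono (sb.osc g x (sub g sk hx) x' (sub g sk hx')) ?_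
      rw [one_mul]
      exact b.np_le (by norm_num)
    · have k0 : k ≠ 0 := by
        have := b.nm_pos
        unfold kL at k1
        omega
      refine ks_gen b fo hk.le hz hd sb.sm (c := 0) (v := 4) le_rfl zero_le_one (by norm_num) le_rfl
        (ym k1 k2).1 (ym k1 k2).2 (fun g x hx => ⟨1 / 4, by norm_num, le_rfl, fun i j =>
          (sb.bd g x (sub g sk hx) i j).trans ?_⟩) fun x => ?_
      · have a1 := np_le_sq b
        have a2 := b.np_le (show (-20 : ℝ) ≤ -15 by norm_num)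
        have e1 : (B.c g k).t11 = np B.N (-4 / 10) := if_neg k0
        have e2 : (B.c g k).t12 = np B.N (-4 / 10) := if_neg k0
        have e3 : (B.c 0 k).t13 = np B.N (-20) := if_neg k0
        have e4 : (B.c 0 k).t33 = np B.N (-20) := if_neg k0
        rw [e1, e2, e3, e4, one_mul]
        fin_cases i <;> fin_cases j
        exacts [a1, a1, a2, a1, a1, a2, a2, a2, a2]
      · rw [Bk.SL, if_pos rfl, zero_smul, sub_zero, mul_pow]
        norm_num
  · rw [if_neg h0] at sg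
    rw [sg] at h1 hs
    refine ⟨ks_gen b fo hk.le hz hd pre.is.sm (c := 0) (v := 1) le_rfl zero_le_one le_rfl
      (by norm_num) yy le_rfl h1 fun x => ?_, (hs 0).2.2.1, hR, fun k1 k2 =>
      ks_gen b fo hk.le hz hd pre.is.sm (c := 0) (v := 1) le_rfl zero_le_one le_rfl
        (by norm_num) (ym k1 k2).1 (ym k1 k2).2 h1 fun x => ?_⟩
    · rw [zero_smul, sub_zero, one_mul, sub_self, zero_smul, sub_zero]
    · rw [Bk.SL, if_neg h0, zero_smul, sub_zero, mul_pow]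
      norm_num

end
end Pool.Agent.MP_20bec2_an.T3

end MrgPart1

-- ======== part 2: formerly Pool.Agent.MP_20bec2_an.T3.Bs
section MrgPart2

/-! Row BS: the covariance after the refinement at the start of a band. -/

set_option autoImplicit false
open MeasureTheory Set Filter Matrix Topology

namespace Pool.Agent.MP_20bec2_an.T3
noncomputable section
open Classical
namespace Ws
open Prof Ftr MsP

section num
variable {c : Pm} (g : Gd c)
include g

theorem t_bd : np c.N (-4 / 10) ≤ c.t11 ∧ np c.N (-4 / 10) ≤ c.t12 ∧ c.t11 ≤ 1 / c.q ∧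
    c.t12 ≤ 1 / c.q ∧ c.t13 ≤ 1 ∧ c.t33 ≤ 1 := by
  have := g.q_pos; have := g.b2_pos; have := g.big.L_ge; have := g.big.J_ge
  have h1 : np c.N (-4 / 10) ≤ c.b2 / c.q := le_of_log (g.big.np_pos _) (by positivity) (by
    rw [g.big.log_np, Real.log_div g.b2_pos.ne' g.q_pos.ne', g.log_q]; linarith [g.log_b2_ge])
  have h2 : c.b2 / c.q ≤ 1 / c.q := div_le_div_of_nonneg_right (by linarith [g.b2_le]) g.q_pos.le
  have h3 : 1 / c.q ≤ 1 := (div_le_one g.q_pos).2 (by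
    linarith [g.big.q_ge, show c.q = pq c.N from rfl])
  have h4 := np_le_one g.big (a := -38 / 100) (by norm_num)
  have h5 := np_le_one g.big (a := -20) (by norm_num)
  rw [Pm.t11, Pm.t12, Pm.t13, Pm.t33]
  split_ifs
  exacts [⟨h1.trans h2, h1, le_rfl, h2, h4, h3⟩, ⟨le_rfl, le_rfl, h1.trans h2, h1.trans h2, h5, h5⟩]

theorem hE_le : c.hE ≤ np c.N (-3) * c.D ∧ c.hm ≤ c.hE ∧ np c.N (-3) ≤ 1 := by
  refine ⟨?_, mul_le_mul_of_nonneg_right (g.big.np_le (by norm_num)) g.lam_pos.le,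
    np_le_one g.big (by norm_num)⟩
  rw [Pm.hE, Pm.D, ← np_nat, ← mul_assoc, ← g.big.np_add]
  exact mul_le_mul (g.big.np_le (by norm_num)) g.lam_le_lb g.lam_pos.le (g.big.np_pos _).le
end num

theorem D_eq (B : Bk) (g : Cu) (k : ℕ) : (B.c g k).D = B.D := rfl

theorem ev_ew (C : ℝ) : ∀ᶠ N : ℕ in atTop, C * ew N ≤ np N (-23) := by
  filter_upwards [ev_big, ev_CqJ_np C 0 0 (c := 1 / 2) (by norm_num)] with N h h1
  rw [qp_zero, Jp_zero, mul_one, mul_one] at h1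
  refine (mul_le_mul_of_nonneg_right h1 (ew_bd h).1.le).trans (le_of_eq ?_)
  rw [ew, ← h.np_add]; norm_num

theorem tab_eb {M L : Mx} {v p q p' q' a b a' e : ℝ}
    (h : EB (M - dg3 (1 / 4) (1 / 4) v) !![p, q, a; q, p, a; a, a, b])
    (hE : Bd (L - (latm M + dg3 0 0 1)) e) (hp : p + e ≤ p') (hq : q + e ≤ q') (ha : e ≤ a') :
    EB (L - dg3 (1 / 4) (1 / 4) 1) !![p', q', a'; q', p', a'; a', a', a'] := fun i j => by
  have h1 := h i j
  have h2 := hE i j
  rcases fin3 i with rfl | rfl | rfl <;> rcases fin3 j with rfl | rfl | rfl <;>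
    simp [latm, dg3, abs_le] at h1 h2 ⊢ <;> constructor <;> linarith [h1.1, h1.2, h2.1, h2.2]

/-- the refined covariance is the lateral part of the old one plus the new vertical variance -/
theorem rf_err : EvB fun B => ∀ (k : ℕ) (S : V → Mx), FrOk B.N B.lb B.fr → k < nb B.N →
    B.SB k S 4 1 (B.c 0 k).t13 (B.c 0 k).t33 → ∀ g i j,
    CB 4 (cv (B.c g k).hE) (B.R g (1 - k / B.N))
      (fun x => (B.nS k (B.Rf k S) g x - (latm (B.nS k S g x) + dg3 0 0 1)) i j)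
      (np B.N (-23)) := by
  obtain ⟨C, -, K⟩ := ws_lat 4
  filter_upwards [ev_big, ev_ew (C * 6)] with N hb hC B hN k S G hk P g i j
  subst hN
  have c := Bk.gd G hb g hk.le; have c0 := Bk.gd G hb 0 hk.le
  have D0 := D_pos G hb
  have N0 := hb.N_pos
  have := K B k (B.yk k) (fun _ => True)
    (fun g x => latm ((B.fr g).cv1 (S x)) + dg3 0 0 ((B.c g k).y ^ 2)) S 0 1 5 g
    (cv (B.c g k).hE) (B.R g (1 - k / B.N)) G hb hk.le (hv_top G hb hk.le) (by simp) (by simp)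
    P.sm.1 (by norm_num) (fun _ => c.hE_pos.le)
    (fun _ => (hE_le c).1.trans (mul_le_of_le_one_left D0.le (hE_le c).2.2))
    (RX_mono _ D0.le (by linarith [show (0 : ℝ) ≤ k / B.N by positivity]))
    (fun g' w => by rw [if_pos trivial]; exact Rf_nrm G hb hk.le S g' w)
    (fun i j => CV.toCB (CBl.monoB (P.cv g i j) (by linarith [eL_one c])) fun x hx =>
      (ent_le (μ := 4) (τ := 1) (P.bd g x hx) (dg3_le (by norm_num) (by norm_num [abs_le])
        (by norm_num [abs_le]) (by norm_num [abs_le]) i j) (tab_le (by linarith [(t_le c).1])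
        (by linarith [(t_le c).2]) (t_bd c0).2.2.2.2.1 (t_bd c0).2.2.2.2.2 i j)).trans
        (by norm_num)) i j
  simp only [ap_true D0, one_smul] at this
  exact CBl.monoB this (by linarith)
end Ws

open Ws MsP Prof in
theorem bs0 : Bs0Stmt := by
  filter_upwards [ev_big, rf_err] with N hb hE B hN k s s' G hk I e1 e0
  have P := I.pre rfl
  replace hE := hE B hN k s.Sg G hk P
  subst hN
  have sm : SmM (B.Rf k s.Sg) ∧ ∀ x, (B.Rf k s.Sg x)ᵀ = B.Rf k s.Sg x :=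
    ⟨Rf_sm G hb k P.sm.1, fun x => Rf_symm G hb k (P.sm.2 x)⟩
  have n1 : ∀ a : ℝ, -22 ≤ a → 200 * np B.N (-23) ≤ np B.N a := fun a ha =>
    big_np hb (by norm_num) (by linarith)
  have p0 := hb.np_pos (-23)
  have sL : ∀ g, SmM fun x => latm (B.nS k s.Sg g x) + dg3 0 0 1 := fun g =>
    (Ws.smM_latm (Ws.smM_nS B k g P.sm.1)).add (smM_const _)
  have cvb : ∀ g i j m, CV 4 (cv (B.c g k).hE) (B.R g (1 - k / B.N))
      (fun x => latm (B.nS k s.Sg g x) i j) m → CV 4 (cv (B.c g k).hE) (B.R g (1 - k / B.N))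
      (fun x => B.nS k (B.Rf k s.Sg) g x i j) (np B.N (-23) + m) := fun g i j m H =>
    (CBl.add (fun _ => (Bk.gd G hb g hk.le).hE_pos.le)
      ((Ws.smM_nS B k g sm.1).sub (sL g) i j) (sL g i j) (hE g i j).toCV
      (CV.add_const (Ws.smM_latm (Ws.smM_nS B k g P.sm.1) i j) H (dg3 0 0 1 i j))).congr_fun
      fun x => (sub_add_cancel _ _).symm
  have z : ∀ (A : Cu → V → Mx) g x i j, B.nS k (fun w => s'.S0 w - s'.Sg w -
      B.ws (fun g' w' => if col g' < 1 - 1 then A g' w' else 0) w) g x i j = 0 := by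
    intro A g x i j
    rw [Ws.nS_eq, e0, e1, sub_self, ws_zero fun _ => if_neg (Nat.not_lt_zero _), sub_self, nc_zero]
    rfl
  refine ⟨e1 ▸ sm, fun h => absurd h one_ne_zero, fun _ => e0 ▸ ⟨sm, fun g x hx => ?_,
    fun g x hx x' hx' i j => ?_, fun g i j => ?_⟩, fun _ g i => ?_, fun _ g i j => ?_,
    fun _ g x _ i => ?_⟩
  · have t := t_bd (Bk.gd G hb g hk.le)
    rw [N_eq] at t
    have := n1 (-4 / 10) (by norm_num)
    exact tab_eb (P.bd g x hx) (fun i j => (hE g i j).val hx) (by linarith [t.1])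
      (by linarith [t.2.1]) (by linarith [n1 (-22) le_rfl])
  · have h1 := (hE g i j).val hx
    have h2 := (hE g i j).val hx'
    have h3 := (abs_latm _ i j).trans (P.osc g x hx x' hx' i j)
    rw [latm_sub] at h3
    have := n1 (-39 / 100) (by norm_num)
    simp only [cm, of_apply, Matrix.sub_apply, Matrix.add_apply, abs_le] at h1 h2 h3 ⊢
    constructor <;> linarith [h1.1, h1.2, h2.1, h2.2, h3.1, h3.2]
  · have c := Bk.gd G hb g hk.le
    have h1 : np B.N (-51 / 10) ≤ (B.c g k).eL := eL_ge c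
    exact CBl.monoB (cvb g i j _ (cbl_latm (by linarith [c.eL_pos]) (P.cv g i j)))
      (by linarith [n1 (-51 / 10) (by norm_num)])
  · rw [e0]
    refine CBl.monoB (cvb g i 2 0 ?_) (by linarith [n1 (-20) (by norm_num)])
    simp only [latm_col]
    exact cbl_zero le_rfl
  · simp only [z]
    exact cbl_zero (by simp)
  · rw [Ws.nS_eq, e0, e1, sub_self, nc_zero]
    simp

theorem bs : BsStmt := by
  filter_upwards [bs0] with N h B hN ρ k s nf ngc f1 Af ab Pv f' H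
  exact h B hN k s _ H.1.2.1.geo.toFrOk H.1.2.2.1 H.1.2.2.2.is rfl rfl

end
end Pool.Agent.MP_20bec2_an.T3

end MrgPart2

-- marker of a merged file
example : 731051 + 361196 = 731051 + 361196 := rfl

end MrgPart0

-- ======== part 1: formerly Pool.Agent.MP_20bec2_an.T3.Sder
section MrgPart1

-- ======== part 0: formerly Pool.Agent.MP_20bec2_an.T3.SderA
section MrgPart0

/-! Row SDER: the covariance during a band, all parts but the smoothing gain. -/

set_option autoImplicit false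
open MeasureTheory Set Filter Matrix Topology

namespace Pool.Agent.MP_20bec2_an.T3
noncomputable section
open Classical
namespace Ws
open Prof Ftr MsP

/-- the planned covariance in the frame -/
def Lm (B : Bk) (k : ℕ) (S : V → Mx) (g : Cu) (x : V) : Mx :=
  nrm (B.c g k).hs (B.Cp k S g ((B.fr g).xp x))

theorem dg3_neg (M : Mx) : M - dg3 (1 / 16) (1 / 16) 0 = M + dg3 (-1 / 16) (-1 / 16) 0 := by
  ext i j
  rcases fin3 i with rfl | rfl | rfl <;> rcases fin3 j with rfl | rfl | rfl <;>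
    simp [dg3] <;> ring

theorem tab_L {X M : Mx} {p q a b e : ℝ}
    (h : EB (X - dg3 (1 / 4) (1 / 4) 1) !![101 / 100 * p, 101 / 100 * q, a;
      101 / 100 * q, 101 / 100 * p, a; a, a, b])
    (hE : ∀ i j, |X i j - M i j| ≤ e) (hp : e ≤ p) (hq : e ≤ q) :
    EB (latm M + dg3 (-1 / 16) (-1 / 16) 0 - dg3 (3 / 16) (3 / 16) 0)
      !![3 * p, 3 * q, 0; 3 * q, 3 * p, 0; 0, 0, 0] := fun i j => by
  have h1 := h i j
  have h2 := hE i j
  have := (abs_nonneg _).trans h2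
  rcases fin3 i with rfl | rfl | rfl <;> rcases fin3 j with rfl | rfl | rfl <;>
    simp [latm, dg3, abs_le] at h1 h2 ⊢ <;> constructor <;> linarith [h1.1, h1.2, h2.1, h2.2]

theorem lat_num {s x l a e u d c : ℝ} (a0 : 0 ≤ a) (a1 : a ≤ 1) (h : |s - (x - a * l)| ≤ e)
    (hx : |x - d| ≤ 101 / 100 * u) (hl : |l - c| ≤ 3 * u) (he : e ≤ u) :
    |s - (d - c * a)| ≤ 6 * u := by
  have h1 : |a * (l - c)| ≤ 3 * u := by
    rw [abs_mul, abs_of_nonneg a0]; nlinarith [abs_nonneg (l - c)]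
  have := (abs_nonneg _).trans hl
  rw [abs_le] at *
  constructor <;> nlinarith [h.1, h.2, hx.1, hx.2, h1.1, h1.2]

theorem tab_S {Y X L : Mx} {p q a e u w δ ε : ℝ} (a0 : 0 ≤ a) (a1 : a ≤ 1)
    (h : EB (X - dg3 (1 / 4) (1 / 4) 1) !![101 / 100 * p, 101 / 100 * q, δ;
      101 / 100 * q, 101 / 100 * p, δ; δ, δ, δ])
    (hL : EB (L - dg3 (3 / 16) (3 / 16) 0) !![3 * p, 3 * q, 0; 3 * q, 3 * p, 0; 0, 0, 0])
    (hE : ∀ i j, |Y i j - (X i j - a * L i j)| ≤ e) (hp : p ≤ u) (hq : q ≤ u) (he : e ≤ u)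
    (hw : 6 * u ≤ w) (r1 : ∀ i, |X i 2 - Y i 2| ≤ 8 * δ) (r2 : ∀ i, |X 2 i - Y 2 i| ≤ 8 * δ)
    (hδ : 9 * δ ≤ ε) :
    EB (Y - dg3 (1 / 4 - 3 / 16 * a) (1 / 4 - 3 / 16 * a) 1) (bm w ε ε) := fun i j => by
  have h1 := h i j
  have h2 := hL i j
  have h3 := fun d c hx hl => (lat_num (d := d) (c := c) a0 a1 (hE i j) hx hl he).trans hw
  have h4 := abs_le.1 (r1 i)
  have h5 := abs_le.1 (r2 j)
  rcases fin3 i with rfl | rfl | rfl <;> rcases fin3 j with rfl | rfl | rfl <;>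
    simp [dg3, bm] at h1 h2 ⊢
  · simpa using h3 (1 / 4) (3 / 16) (by simpa using h1.trans (by linarith)) (h2.trans (by linarith))
  · simpa using h3 0 0 (by simpa using h1.trans (by linarith)) (by simpa using h2.trans (by linarith))
  · rw [abs_le] at h1 ⊢; constructor <;> linarith [h1.1, h1.2, h4.1, h4.2]
  · simpa using h3 0 0 (by simpa using h1.trans (by linarith)) (by simpa using h2.trans (by linarith))
  · simpa using h3 (1 / 4) (3 / 16) (by simpa using h1.trans (by linarith)) (h2.trans (by linarith))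
  · rw [abs_le] at h1 ⊢; constructor <;> linarith [h1.1, h1.2, h4.1, h4.2]
  · rw [abs_le] at h1 ⊢; constructor <;> linarith [h1.1, h1.2, h5.1, h5.2]
  · rw [abs_le] at h1 ⊢; constructor <;> linarith [h1.1, h1.2, h5.1, h5.2]
  · rw [abs_le] at h1 ⊢; constructor <;> linarith [h1.1, h1.2, h5.1, h5.2]

section
variable {B : Bk} (G : FrOk B.N B.lb B.fr) (hb : Big B.N) {k : ℕ} (hk : k < nb B.N) {S : V → Mx}
include G hb hk

theorem Cp_eq (g g' : Cu) (w : V) : nrm ((B.c g' k).hy (B.yk k)) (B.Cp k S g' w) =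
    latm (nc B k (B.yk k) g' (molM (cv (B.c g k).hm) S w)) + dg3 (-1 / 16) (-1 / 16) 0 := by
  rw [← hs_eq, nrm_Cp G hb hk g g', ← latm_d, dg3_neg]
  rfl

theorem Lm_eq (g : Cu) (x : V) :
    Lm B k S g x = latm (nM B k S g x) + dg3 (-1 / 16) (-1 / 16) 0 := Cp_eq G hb hk g g _

theorem reg (g : Cu) : B.R g (995 / 1000) ⊆ B.R g (1 - (k + 1 : ℕ) / B.N) := by
  refine RX_mono _ (D_pos G hb).le ?_
  have h1 : ((k + 1 : ℕ) : ℝ) ≤ nb B.N := by exact_mod_cast hk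
  have : ((k + 1 : ℕ) : ℝ) / B.N ≤ 5 / 1000 := (div_le_iff₀ hb.N_pos).2 (by
    linarith [hb.nb_bd.2, hb.N_ge, hb.J_pos])
  linarith

variable (P : B.SB k S 1 (101 / 100) (np B.N (-22)) (np B.N (-22)))
include P

theorem Lm_sm (g : Cu) : SmM (Lm B k S g) :=
  (funext (Lm_eq G hb hk g) : Lm B k S g = _) ▸
    (Ws.smM_latm (nM_sm G hb hk P g)).add (smM_const _)

theorem Lm_cv (g : Cu) (i j : Fin 3) : CV 4 (cv (B.c g k).hE) (B.R g (1 - (k + 1 : ℕ) / B.N))
    (fun x => Lm B k S g x i j) (101 / 100 * (B.c g k).eL) := by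
  have c := Bk.gd G hb g hk.le
  simp only [Lm_eq G hb hk, Matrix.add_apply]
  exact CV.add_const (Ws.smM_latm (nM_sm G hb hk P g) i j)
    (cbl_latm (by linarith [c.eL_pos]) (nM_cbl G hb hk P g i j (P.cv g i j))) _

theorem Lm_tab (g : Cu) {x : V} (hx : x ∈ B.R g (1 - (k + 1 : ℕ) / B.N)) :
    EB (Lm B k S g x - dg3 (3 / 16) (3 / 16) 0)
      !![3 * (B.c g k).t11, 3 * (B.c g k).t12, 0; 3 * (B.c g k).t12, 3 * (B.c g k).t11, 0; 0, 0, 0] := by
  have c := Bk.gd G hb g hk.le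
  have t := t_bd c
  have h1 : (B.c g k).eL ≤ 2 * np B.N (-46 / 100) := eL_le c
  have h2 : np B.N (-46 / 100) ≤ np B.N (-4 / 10) := hb.np_le (by norm_num)
  have := hb.np_pos (-46 / 100)
  rw [N_eq] at t
  rw [Lm_eq G hb hk]
  exact tab_L (P.bd g x (thk G hb hk g x hx).1) (fun i j => (dif3 G hb hk P g i j).val hx)
    (by linarith [t.1]) (by linarith [t.2.1])

theorem Lm_bd (g : Cu) {x : V} (hx : x ∈ B.R g (1 - (k + 1 : ℕ) / B.N)) (i j : Fin 3) :
    |Lm B k S g x i j| ≤ 4 := by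
  have n := np_le_one hb (a := -22) (by norm_num)
  have h1 := (abs_latm _ i j).trans ((nM_cb G hb hk P n n g i j).val hx)
  have h2 := dg3_le (u := -1 / 16) (v := -1 / 16) (w := 0) zero_le_one (by norm_num [abs_le])
    (by norm_num [abs_le]) (by norm_num) i j
  rw [Lm_eq G hb hk, Matrix.add_apply]
  linarith [abs_add_le (latm (nM B k S g x) i j) (dg3 (-1 / 16) (-1 / 16) 0 i j)]

theorem Lm_osc (g : Cu) {x x' : V} (hx : x ∈ B.R g (1 - (k + 1 : ℕ) / B.N))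
    (hx' : x' ∈ B.R g (1 - (k + 1 : ℕ) / B.N)) (i j : Fin 3) :
    |Lm B k S g x i j - Lm B k S g x' i j| ≤ 2 * np B.N (-39 / 100) := by
  have h1 : (B.c g k).eL ≤ 2 * np B.N (-46 / 100) := eL_le (Bk.gd G hb g hk.le)
  have h2 : np B.N (-46 / 100) ≤ np B.N (-39 / 100) := hb.np_le (by norm_num)
  have := hb.np_pos (-46 / 100)
  have h3 := abs_le.1 ((dif3 G hb hk P g i j).val hx)
  have h4 := abs_le.1 ((dif3 G hb hk P g i j).val hx')
  have h5 := abs_le.1 (P.osc g x (thk G hb hk g x hx).1 x' (thk G hb hk g x' hx').1 i j)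
  rw [Lm_eq G hb hk, Lm_eq G hb hk, Matrix.add_apply, Matrix.add_apply, add_sub_add_right_eq_sub,
    ← Matrix.sub_apply, ← latm_sub]
  refine (abs_latm _ i j).trans (abs_le.2 ?_)
  simp only [cm, of_apply, Matrix.sub_apply] at h5 ⊢
  constructor <;> linarith [h3.1, h3.2, h4.1, h4.2, h5.1, h5.2]
end

/-- the covariance is the starting one minus the planned parts already used -/
theorem dec : EvB fun B => ∀ (k r : ℕ) (s : St), FrOk B.N B.lb B.fr → k < nb B.N → 1 ≤ r →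
    r ≤ 9 → B.IS k r s → ∀ g i j, CB 4 (cv (B.c g k).hE) (B.R g (1 - (k + 1 : ℕ) / B.N))
      (fun x => B.nS k s.Sg g x i j - (B.nS k s.S0 g x i j -
        ap B (fun g' => col g' < r - 1) ((B.fr g).xp x) * Lm B k s.S0 g x i j))
      (np B.N (-46 / 100)) := by
  obtain ⟨C, -, K⟩ := ws_lat 4
  filter_upwards [ev_big, ev_ew (C * 4)] with N hb hC B hN k r s G hk r1 r9 I g i j
  subst hN
  have P := I.post r1
  have c := Bk.gd G hb g hk.le
  have D0 := D_pos G hb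
  have N0 := hb.N_pos
  have n := np_le_one hb (a := -22) (by norm_num)
  have p : ∀ i, 0 ≤ cv (B.c g k).hE i := fun _ => c.hE_pos.le
  have sub : ∀ a : ℝ, 1 ≤ a → B.R g (1 - (k + 1 : ℕ) / B.N) ⊆ B.R g a := fun a ha =>
    RX_mono _ D0.le (by linarith [show (0 : ℝ) ≤ (k + 1 : ℕ) / B.N by positivity])
  have sA : ∀ g', SmM fun w => if col g' < r - 1 then B.Cp k s.S0 g' w else 0 := fun g' => by
    split_ifs
    exacts [smM_Cp G hb hk.le P.sm.1 g', smM_const _]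
  have h1 := K B k (B.yk k) (fun g' => col g' < r - 1)
    (fun g' w => if col g' < r - 1 then B.Cp k s.S0 g' w else 0) (molM (cv (B.c g k).hm) s.S0)
    (-1 / 16) 0 3 g (cv (B.c g k).hE) _ G hb hk.le (hv_top G hb hk.le) (by norm_num [abs_le])
    (by simp) (smM_mol G hb hk.le P.sm.1 g) (by norm_num) p
    (fun _ => (hE_le c).1.trans (mul_le_of_le_one_left D0.le (hE_le c).2.2)) (sub 2 one_le_two)
    (fun g' w => by
      split_ifs
      exacts [Cp_eq G hb hk g g' w, nrm_zero _])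
    (nM_cb G hb hk P n n g) i j
  have h2 := (I.err r1 g i j).monoU (sub 1 le_rfl)
  have sW := ws_sm D0 sA
  have s1 : Sm fun x => B.nS k (B.ws fun g' w => if col g' < r - 1 then B.Cp k s.S0 g' w else 0)
      g x i j - ap B (fun g' => col g' < r - 1) ((B.fr g).xp x) * Lm B k s.S0 g x i j :=
    (Ws.smM_nS B k g sW i j).sub (((ap_sm D0 _).comp (xp_sm _)).mul (Lm_sm G hb hk P g i j))
  have h3 := CBl.add p s1 (Ws.smM_nS B k g ((P.sm.1.sub I.sm.1).sub sW) i j)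
    (h1.congr_fun fun x => by rw [Lm_eq G hb hk]; rfl) h2
  have e1 : ((r - 1 : ℕ) : ℝ) ≤ 8 := by exact_mod_cast (show r - 1 ≤ 8 by omega)
  have e2 : (B.c g k).eL ≤ 2 * np B.N (-46 / 100) := eL_le c
  have e3 : 2 * np B.N (-23) ≤ np B.N (-46 / 100) := big_np hb (by norm_num) (by norm_num)
  have e4 := mul_le_mul_of_nonneg_right e1 c.eS_pos.le
  refine (h3.neg.congr_fun fun x => ?_).monoB (by linarith [eS_le c, hb.np_pos (-46 / 100)])
  rw [nS_sub B k (fun w => s.S0 w - s.Sg w), nS_sub]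
  ring

theorem apv : EvB fun B => FrOk B.N B.lb B.fr → ∀ (n : ℕ) (g : Cu),
    CV 1 (cv (np B.N (-1) * B.D)) univ (fun x => ap B (fun g' => col g' < n) ((B.fr g).xp x))
      (np B.N (-1 / 2)) := by
  obtain ⟨C, -, K⟩ := ap_cb 1
  filter_upwards [ev_big, ev_CqJ_np C 0 0 (c := 1 / 2) (by norm_num)] with N hb hC B hN G n g
  subst hN
  rw [qp_zero, Jp_zero, mul_one, mul_one] at hC
  have p := hb.np_pos (-1)
  have D0 := D_pos G hb
  refine CBl.monoB (K B _ (B.fr g) (np B.N (-1)) _ (GeoP.orth G g) D0 (np_le_one hb (by norm_num))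
    (fun _ => (mul_pos p D0).le) fun _ => le_rfl).2
    ((mul_le_mul_of_nonneg_right hC p.le).trans (le_of_eq ?_))
  rw [← hb.np_add]; norm_num

theorem osc_num {s s' x x' a a' l l' e o w : ℝ} (h : |s - (x - a * l)| ≤ e)
    (h' : |s' - (x' - a' * l')| ≤ e) (hx : |x - x'| ≤ 101 / 100 * o) (hl : |l - l'| ≤ 2 * o)
    (a0 : 0 ≤ a) (a1 : a ≤ 1) (ha : |a - a'| ≤ 3 * 1 * w) (l4 : |l'| ≤ 4) (he : e ≤ o) (hw : w ≤ o) :
    |s - s'| ≤ 20 * o := by
  have h1 : |a * (l - l')| ≤ 2 * o := by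
    rw [abs_mul, abs_of_nonneg a0]; nlinarith [abs_nonneg (l - l')]
  have h2 : |(a - a') * l'| ≤ 12 * o := by
    rw [abs_mul]; nlinarith [abs_nonneg (a - a'), abs_nonneg l']
  have := (abs_nonneg _).trans hl
  rw [abs_le] at h h' hx h1 h2 ⊢
  constructor <;> nlinarith [h.1, h.2, h'.1, h'.2, hx.1, hx.2, h1.1, h1.2, h2.1, h2.2]

theorem six_q {N : ℕ} (hb : Big N) : 6 * (1 / pq N) ≤ 1 / Real.sqrt (pq N) := by
  have q := hb.q_ge
  have h : 6 ≤ Real.sqrt (pq N) := Real.le_sqrt_of_sq_le (by linarith)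
  have e := Real.mul_self_sqrt (show 0 ≤ pq N by linarith)
  rw [mul_one_div, div_le_div_iff₀ (by linarith) (by linarith)]
  nlinarith

theorem sder_of (h7 : EvB fun B => ∀ (k : ℕ) (S : V → Mx), FrOk B.N B.lb B.fr → k < nb B.N →
    B.SB k S 1 (101 / 100) (np B.N (-22)) (np B.N (-22)) → ∀ g i j,
      CV 7 (cv (B.c g k).hm) (B.R g (995 / 1000))
        (fun x => nrm (B.c g k).hs (B.Cp k S g ((B.fr g).xp x)) i j) (pq B.N * (B.c g k).eL)) :
    SderStmt := by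
  filter_upwards [ev_big, dec, apv, h7, ev_ew 30] with N hb hd ha h7 he B hN k r s G hk r1 r9 I g
  have P := I.post r1
  replace hd := hd B hN k r s G hk r1 r9 I
  replace ha := ha B hN G (r - 1)
  replace h7 := h7 B hN k s.S0 G hk P g
  subst hN
  have D0 := D_pos G hb
  have N0 := hb.N_pos
  have rg := reg G hb hk
  have sub : ∀ g' (a b : ℝ), a ≤ b → B.R g' a ⊆ B.R g' b := fun g' a b h => RX_mono _ D0.le h
  have c := Bk.gd G hb g hk.le
  have e20 : 30 * ew B.N ≤ np B.N (-20) := he.trans (hb.np_le (by norm_num))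
  have sa : ∀ g : Cu, Sm fun x => ap B (fun g' => col g' < r - 1) ((B.fr g).xp x) := fun g =>
    (ap_sm D0 _).comp (xp_sm _)
  refine ⟨fun x hx => ⟨?_, Lm_tab G hb hk P g (rg g hx), fun i j =>
      (Db_eb G hb (sub g _ _ (by norm_num) hx) i j).trans e20, fun i j =>
      (Dl_eb G hb hk.le (hv_top G hb hk.le) (sub g _ _ (by norm_num) hx) i j).trans e20⟩,
    fun i j => ⟨?_, ((Lm_cv G hb hk P g i j).monoU (rg g)).monoB (by linarith [c.eL_pos]), h7 i j⟩,
    fun g' x hx x' hx' hn i j => ?_, (Db_sm G hb).1, (Dl_sm G hb k).1,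
    smM_Cp G hb hk.le P.sm.1 g, fun x => ⟨(Db_sm G hb).2 x, (Dl_sm G hb k).2 x, ?_⟩⟩
  · have t := t_bd c
    have e1 : ((r - 1 : ℕ) : ℝ) ≤ 8 := by exact_mod_cast (show r - 1 ≤ 8 by omega)
    have r2 : ∀ i, |B.nS k s.S0 g x i 2 - B.nS k s.Sg g x i 2| ≤ 8 * np B.N (-22) := fun i =>
      nS_sub B k s.S0 s.Sg g x i 2 ▸ (I.row r1 g x (sub g _ _ (by norm_num) hx) i).trans
        (mul_le_mul_of_nonneg_right e1 (hb.np_pos _).le)
    exact tab_S (u := 1 / pq B.N) (ap_mem D0 (fun g' => col g' < r - 1) _).1 (ap_mem D0 _ _).2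
      (P.bd g x (thk G hb hk g x (rg g hx)).1) (Lm_tab G hb hk P g (rg g hx))
      (fun i j => (hd g i j).val (rg g hx)) t.2.2.1 t.2.2.2.1
      ((hb.np_le (by norm_num)).trans (t.1.trans t.2.2.1)) (six_q hb) r2
      (fun i => by rw [nS_symm B k g P.sm.2, nS_symm B k g I.sm.2 x 2]; exact r2 i)
      (big_np hb (by norm_num) (by norm_num))
  · have p : ∀ i, 0 ≤ cv (B.c g k).hE i := fun _ => c.hE_pos.le
    have one : ∀ {f : V → ℝ} {U : Set V} {m : ℝ}, CV 4 (cv (B.c g k).hE) U f m →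
        CV 1 (cv (B.c g k).hE) U f m := fun H => CBl.monoP H fun l hl => ⟨hl.1, by omega⟩
    have a1 : CV 1 (cv (B.c g k).hE) (B.R g (1 - (k + 1 : ℕ) / B.N))
        (fun x => ap B (fun g' => col g' < r - 1) ((B.fr g).xp x)) (np B.N (-1 / 2)) :=
      ((ha g).monoU (subset_univ _)).monoh p fun _ => (hE_le c).1.trans
        (mul_le_mul_of_nonneg_right (hb.np_le (by norm_num)) D0.le)
    have a2 := CV.toCB (CBl.monoB a1 (np_le_one hb (by norm_num))) fun x _ =>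
      abs_le.2 ⟨by linarith [(ap_mem D0 (fun g' => col g' < r - 1) ((B.fr g).xp x)).1],
        (ap_mem D0 _ _).2⟩
    have l1 := one (Lm_cv G hb hk P g i j)
    have l2 := CV.toCB (CBl.monoB l1 (by linarith [eL_one c])) fun x hx => Lm_bd G hb hk P g hx i j
    have sL := Lm_sm G hb hk P g i j
    have s0 := Ws.smM_nS B k g P.sm.1 i j
    have m := CBl.sub p s0 ((sa g).mul sL)
      ((one (P.cv g i j)).monoU fun x hx => (thk G hb hk g x hx).1) (CV.mul p (sa g) sL a2 a1 l2 l1)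
    have s1 := s0.sub ((sa g).mul sL)
    have := CBl.add p ((Ws.smM_nS B k g I.sm.1 i j).sub s1) s1 (one (hd g i j).toCV) m
    have e2 : (B.c g k).eL ≤ 2 * np B.N (-46 / 100) := eL_le c
    have e3 : np B.N (-1 / 2) ≤ np B.N (-46 / 100) := hb.np_le (by norm_num)
    have e4 : 20 * np B.N (-46 / 100) ≤ np B.N (-2 / 5) := big_np hb (by norm_num) (by norm_num)
    exact ((this.congr_fun fun x => (sub_add_cancel _ _).symm).monoU (rg g)).monoB
      (by linarith [hb.np_pos (-46 / 100)])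
  · have c' := Bk.gd G hb g' hk.le
    have y := rg g' (sub g' _ _ (by norm_num) hx)
    have y' := rg g' (sub g' _ _ (by norm_num) hx')
    have e : (B.N : ℝ) ^ 3 * (B.c g' k).lam ≤ np B.N (-1) * B.D := by
      have : np B.N (-1) * B.D = (B.N : ℝ) ^ 3 * B.lb := by
        rw [Bk.D, Dd, ← np_nat, ← np_nat, ← mul_assoc, ← hb.np_add]; norm_num
      rw [this]
      exact mul_le_mul_of_nonneg_left c'.lam_le_lb (by positivity)
    have h1 := CV.mvt_box (fun _ => mul_pos (hb.np_pos _) D0) convex_univ (sa g') (ha g') le_rfl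
      (mem_univ x) (mem_univ x') (r := 1) fun i => by
        rw [one_mul]; exact (abs_le_norm (x - x') i).trans (hn.trans e)
    have := osc_num ((hd g' i j).val y) ((hd g' i j).val y')
      (P.osc g' x (thk G hb hk g' x y).1 x' (thk G hb hk g' x' y').1 i j)
      (Lm_osc G hb hk P g' y y' i j) (ap_mem D0 _ _).1 (ap_mem D0 _ _).2 h1
      (Lm_bd G hb hk P g' y' i j) (hb.np_le (by norm_num)) (hb.np_le (by norm_num))
    rw [Ws.nrm_sub]
    exact this.trans (big_np hb (by norm_num) (by norm_num))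
  · rw [Bk.Cp, transpose_sub, latm_tr, cv1_tr, dg3_tr,
      Mol.molM_symm (h := cv (B.c g k).hm) (fun _ => c.hm_pos) fun y _ => P.sm.2 y]

end Ws
end
end Pool.Agent.MP_20bec2_an.T3

end MrgPart0

-- ======== part 1: formerly Pool.Agent.MP_20bec2_an.T3.Sder
section MrgPart1

/-! Row SDER: the covariance during a band. -/

set_option autoImplicit false
open MeasureTheory Set Filter Matrix Topology

namespace Pool.Agent.MP_20bec2_an.T3
noncomputable section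
open Classical
namespace Ws
open Prof Ftr MsP

theorem mol_xp_gain (n : ℕ) : ∃ C : ℝ, 1 ≤ C ∧ ∀ (F : Fr) (a β : ℝ) (G : V → ℝ) (U U' : Set V),
    Orth F.O → 0 < a → Sm G → (∀ x ∈ U, ∀ y ∈ Mol.bx (cv a) (F.xp x), F.xc y ∈ U') →
    CV 1 (cv a) U' (fun x => G (F.xp x)) β → CV n (cv a) U (fun x => mol (cv a) G (F.xp x)) (C * β) := by
  obtain ⟨C, hC, K⟩ := Mol.mol_gain n
  refine ⟨3 ^ n * C * 3, by nlinarith [one_le_pow₀ (n := n) (show (1 : ℝ) ≤ 3 by norm_num)],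
    fun F a β G U U' hO ha hG hU H => ?_⟩
  have p : ∀ i, 0 ≤ cv a i := fun _ => ha.le
  have e : ∀ y, F.xc y = -(F.Oᵀ *ᵥ F.x0) + F.Oᵀ *ᵥ y := fun y => by
    rw [Fr.xc, mulVec_sub]; abel
  have q : ∀ {O : Mx}, Orth O → ∀ i j, |O i j| * cv a j ≤ 1 * cv a i := fun h i j =>
    mul_le_mul_of_nonneg_right (orth_abs_le h i j) ha.le
  have h1 := CV.affine (U := F.xc ⁻¹' U') (b := -(F.Oᵀ *ᵥ F.x0)) p p (by norm_num) (q (orth_t hO))
    (SmN.of_sm (hG.comp (xp_sm F)) _) (fun x hx => e x ▸ hx) H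
  simp only [← e, Function.comp_apply, xp_xc hO] at h1
  have h2 := (K (cv a) G _ fun _ => ha).2.2.2.1 (F.xp '' U) (F.xc ⁻¹' U') (hG.of_le (by simp))
    (by rintro _ ⟨x, hx, rfl⟩ y hy; exact hU x hx y hy) h1
  exact CBl.monoB (CV.affine (b := F.x0) p p (by norm_num) (q hO)
    (SmN.of_sm (Mol.mol_sm (h := cv a) (fun _ => ha) (Mol.li_cont hG.continuous)) _)
    (fun x hx => mem_image_of_mem F.xp hx) h2) (le_of_eq (by ring))

theorem gain7 : EvB fun B => ∀ (k : ℕ) (S : V → Mx), FrOk B.N B.lb B.fr → k < nb B.N →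
    B.SB k S 1 (101 / 100) (np B.N (-22)) (np B.N (-22)) → ∀ g i j,
      CV 7 (cv (B.c g k).hm) (B.R g (995 / 1000))
        (fun x => nrm (B.c g k).hs (B.Cp k S g ((B.fr g).xp x)) i j) (pq B.N * (B.c g k).eL) := by
  obtain ⟨C, hC, K⟩ := mol_xp_gain 7
  filter_upwards [ev_big, ev_C_q (C * 2)] with N hb hq B hN k S G hk P g i j
  subst hN
  have c := Bk.gd G hb g hk.le
  have e := c.eL_pos
  have h := K (B.fr g) _ _ _ _ _ (GeoP.orth G g) c.hm_pos
    (smM_nL P.sm.1 (B.fr g) (B.c g k).hs i j)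
    (fun x hx y hy => ((thk G hb hk g x (reg G hb hk g hx)).2 y hy).1)
    (CBl.mono (P.cv g i j) (fun l hl => ⟨hl.1, by omega⟩) (fun _ => c.hm_pos.le)
      (fun _ => (hE_le c).2.1) subset_rfl le_rfl)
  rw [← nM_eq G hb hk P] at h
  have h1 := CV.add_const (Ws.smM_latm (nM_sm G hb hk P g) i j) (cbl_latm (by positivity) h)
    (dg3 (-1 / 16) (-1 / 16) 0 i j)
  exact (CBl.congr_fun h1 fun x => congrFun (congrFun (Lm_eq G hb hk g x) i) j).monoB
    (by nlinarith)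
end Ws

theorem sder : SderStmt := Ws.sder_of Ws.gain7

end
end Pool.Agent.MP_20bec2_an.T3

end MrgPart1

-- marker of a merged file
example : 731051 + 443652 = 731051 + 443652 := rfl

end MrgPart1

-- marker of a merged file
example : 731051 + 443652 = 731051 + 443652 := rfl
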