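import Pool.Agent.MP_20bec2_an.T3.Cf
import Pool.Agent.MP_20bec2_an.T3.Sder
import Pool.Agent.MP_20bec2_an.T3.Calc2C

-- ======== part 0: formerly Pool.Agent.MP_20bec2_an.T3.CrD
section MrgPart0

/-! The change of block: the two reduced covariances in the new frame. -/

set_option autoImplicit false
open MeasureTheory Set Filter Matrix

namespace Pool.Agent.MP_20bec2_an.T3
noncomputable section
open Classical

namespace Cr
open GeoP Prof

lemma hy_pos {c : Pm} (g : Gd c) {w : ℝ} (hw : 0 < w) (i : Fin 3) : 0 < c.hy w i := by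
  fin_cases i
  exacts [g.l1_pos, g.lam_pos, hw]

lemma combc {c : Pm} (g : Gd c) {N : ℕ} (hN : c.N = N) {w a e : ℝ} (hw : np N (-1 / 3) * c.y ≤ w)
    (ha : |a| ≤ 4 * c.y ^ 2) (he : 0 ≤ e) {X X' L L' B B' : Mx}
    (hX : EB (nrm c.hs X - nrm c.hs X') (bm e (np N (-19)) (np N (-19))))
    (hL : EB (nrm c.hs L - nrm c.hs L') (cm (np N (-19)))) (hB : EB (B - B') (cm (np N (-19)))) :
    EB (nrm (c.hy w) (X - L - a • B) - nrm (c.hy w) (X' - L' - a • B'))
      (cm (e + np N (-16))) := by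
  subst hN
  have b := g.big
  have y0 := g.y_pos
  have w0 : 0 < w := (mul_pos (b.np_pos _) y0).trans_le hw
  have n1 : 1 ≤ np c.N (11 / 10) := by rw [← np_zero c.N]; exact b.np_le (by norm_num)
  have n2 : c.y ≤ np c.N (11 / 10) * w := by
    have h1 := mul_le_mul_of_nonneg_left hw (b.np_pos (11 / 10)).le
    have h2 : 1 ≤ np c.N (11 / 10 + -1 / 3) :=
      (np_zero c.N).symm.trans_le (b.np_le (by norm_num))
    rw [← mul_assoc, ← b.np_add] at h1
    exact (le_mul_of_one_le_left y0.le h2).trans h1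
  refine eb_mono (comb (y := c.y) (μ := np c.N (11 / 10)) (hy_pos g w0) g.hs_pos (fun i hi => ?_)
    (fun i => ?_) (fun i => ?_) y0.le ha he hX
    (eb_mono hL (by linarith [b.np_pos (-19)])) hB) ?_
  · fin_cases i
    exacts [rfl, rfl, absurd rfl hi]
  · fin_cases i
    exacts [le_mul_of_one_le_left g.l1_pos.le n1, le_mul_of_one_le_left g.lam_pos.le n1, n2]
  · fin_cases i
    exacts [mul_le_mul_of_nonneg_left g.lam_le_l1 (b.np_pos _).le, le_rfl, n2]
  · have e1 : np c.N (11 / 10) ^ 2 * np c.N (-19) = np c.N (-84 / 5) := by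
      rw [sq, ← b.np_add, ← b.np_add]; norm_num
    rw [mul_assoc, e1]
    linarith [cnp b (a := -84 / 5) (a' := -16) (by norm_num), b.np_pos (-84 / 5)]

lemma nearc {c : Pm} (g : Gd c) {N : ℕ} (hN : c.N = N) {w u α β v e : ℝ}
    (hw : np N (-1 / 3) * c.y ≤ w)
    (ha : |v * c.y ^ 2 - (u * w) ^ 2| ≤ 4 * c.y ^ 2) (he : 0 ≤ e) {X L B : Mx}
    (hX : EB (nrm c.hs X - dg3 α α v) (bm e (np N (-19)) (np N (-19))))
    (hL : EB (nrm c.hs L - dg3 β β 0) (cm (np N (-19))))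
    (hB : EB (B - dg3 0 0 1) (cm (np N (-19)))) :
    EB (nrm (c.hy w) (X - L - (v * c.y ^ 2 - (u * w) ^ 2) • B) - dg3 (α - β) (α - β) (u ^ 2))
      (cm (e + np N (-16))) := by
  subst hN
  have w0 : w ≠ 0 := ((mul_pos (g.big.np_pos _) g.y_pos).trans_le hw).ne'
  have p0 := g.l1_pos.ne'; have p1 := g.lam_pos.ne'; have p2 := g.y_pos.ne'
  have e1 : ∀ s t : ℝ, nrm c.hs (dg3 (s * c.l1 ^ 2) (s * c.lam ^ 2) (t * c.y ^ 2)) = dg3 s s t := by
    intro s t
    rw [nrm_dg]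
    simp only [Pm.hs, cons_val_zero, cons_val_one, cons_val]
    congr 1 <;> field_simp
  rw [← e1] at hX hL
  have := combc g rfl hw ha he hX hL hB
  rw [dg_smul, dg_sub, dg_sub, nrm_dg] at this
  convert this using 3 <;> simp only [Pm.hy, cons_val_zero, cons_val_one, cons_val] <;>
    field_simp <;> ring

lemma eb_to_bm {A : Mx} {a b : ℝ} (h : EB A (cm a)) (h' : ∀ i, |A i 2| ≤ b ∧ |A 2 i| ≤ b) :
    EB A (bm a b b) := fun i j => by
  fin_cases i <;> fin_cases j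
  exacts [h 0 0, h 0 1, (h' 0).1, h 1 0, h 1 1, (h' 1).1, (h' 0).2, (h' 1).2, (h' 2).1]

lemma bm_mono {A : Mx} {a b c a' b' : ℝ} (h : EB A (bm a b c)) (ha : a ≤ a') (hb : b ≤ b')
    (hc : c ≤ b') : EB A (bm a' b' b') := fun i j => (h i j).trans (by
  fin_cases i <;> fin_cases j
  exacts [ha, ha, hb, ha, ha, hb, hb, hb, hc])

lemma cov_sr (F : Fr) (S L D : V → Mx) (a : ℝ) (x : V) :
    F.cov (fun p => S p - L p - a • D p) x = F.cov S x - F.cov L x - a • F.cov D x := by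
  simp only [Fr.cov, cv1_sub, KsdP.cv1_smul]

/-- the reduced covariance at the end of the old block -/
lemma old_tab {B : Bk} (b : Big B.N) (G : FrOk B.N B.lb B.fr) {S : V → Mx}
    (h : B.SB (nb B.N - 1 + 1) S 4 1 (np B.N (-20)) (np B.N (-20))) (g : Cu) {x : V}
    (hx : x ∈ B.R g (6 / 10)) (h1 : EB ((B.fr g).cov B.Db x - dg3 0 0 1) (cm (np B.N (-20))))
    (h2 : EB (nrm (B.c g (nb B.N - 1)).hs ((B.fr g).cov (B.Dl (nb B.N - 1)) x) -
      dg3 (1 / 32) (1 / 32) 0) (cm (np B.N (-20)))) {w : ℝ}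
    (hw : np B.N (-1 / 3) * B.yk (nb B.N) ≤ w) (hw' : w ≤ B.yk (nb B.N)) :
    EB (nrm ((B.c g (nb B.N)).hy w) ((B.fr g).cov (B.SR (nb B.N - 1) 9 S (999 / 1000 * w)) x) -
      dg3 (1 / 8) (1 / 8) ((999 / 1000) ^ 2)) (cm (2 * np B.N (-4 / 10))) := by
  have gd := Bk.gd G b g le_rfl
  have n1 := cnp b (a := -20) (a' := -19) (by norm_num)
  have n0 := b.np_pos (-20)
  have y0 : 0 < B.yk (nb B.N) := gd.y_pos
  have w0 : 0 < w := (mul_pos (b.np_pos _) y0).trans_le hw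
  have e1 : B.yk (nb B.N - 1) = 2 * (B.c g (nb B.N)).y := hs_two b 0 2
  have h3 : EB (nrm (B.c g (nb B.N)).hs ((B.fr g).cov (B.Dl (nb B.N - 1)) x) -
      dg3 (1 / 8) (1 / 8) 0) (cm (np B.N (-19))) := fun i j => by
    have a1 : |(nrm _ _ - dg3 (1 / 32) (1 / 32) 0 : Mx) i j| ≤ np B.N (-20) := h2 i j
    have a2 : dg3 (1 / 8) (1 / 8) 0 i j = 4 * dg3 (1 / 32) (1 / 32) 0 i j := by
      fin_cases i <;> fin_cases j <;> simp [dg3] <;> norm_num
    have p := (gd.hs_pos i).ne'; have p' := (gd.hs_pos j).ne'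
    simp only [nrm, Matrix.sub_apply, of_apply, hs_two b] at a1
    show |_ / _ - _| ≤ np B.N (-19)
    rw [a2, show ∀ t u v : ℝ, t / (u * v) = 4 * (t / (2 * u * (2 * v))) from fun t u v => by ring,
      ← mul_sub, abs_mul, abs_of_pos four_pos]
    linarith
  have := nearc gd (N := B.N) rfl (u := 999 / 1000) (v := 4) hw (by
      rw [show (B.c g (nb B.N)).y = B.yk (nb B.N) from rfl]
      exact abs_le.2 ⟨by nlinarith, by nlinarith⟩) (b.np_pos _).le
    (bm_mono (es_tab b gd.D_pos h g hx) le_rfl (by linarith) (by linarith)) h3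
    (eb_mono h1 (by linarith))
  have e2 : B.SR (nb B.N - 1) 9 S (999 / 1000 * w) = fun p => S p - B.Dl (nb B.N - 1) p -
      (4 * (B.c g (nb B.N)).y ^ 2 - (999 / 1000 * w) ^ 2) • B.Db p := by
    funext p
    rw [Bk.SR, if_neg (by norm_num), e1]
    congr 3
    ring
  rw [e2, cov_sr]
  rw [show (1 / 4 - 1 / 8 : ℝ) = 1 / 8 by norm_num] at this
  exact eb_mono this (by linarith [b.np_le (show (-16 : ℝ) ≤ -4 / 10 by norm_num)])

/-- the reduced covariance at the start of a block -/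
lemma new_tab {B : Bk} (b : Big B.N) (G : FrOk B.N B.lb B.fr) {S : V → Mx}
    (h : B.SB 0 (B.Rf 0 S) 1 (101 / 100) (np B.N (-22)) (np B.N (-22))) (g : Cu)
    (h1 : ∀ x ∈ B.R g (99 / 100), EB ((B.fr g).cov B.Db x - dg3 0 0 1) (cm (np B.N (-20))) ∧
      EB (nrm (B.c g 0).hs ((B.fr g).cov (B.Dl 0) x) - dg3 (1 / 32) (1 / 32) 0)
        (cm (np B.N (-20)))) {w : ℝ} (hw : (B.c g 0).yrg w) {x : V} (hx : x ∈ B.R g (99 / 100)) :
    EB (nrm ((B.c g 0).hy w) ((B.fr g).cov (B.SR 0 0 S w) x) - dg3 (7 / 32) (7 / 32) 1)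
      (cm (2 / 10 ^ 7)) ∧ ∀ x' ∈ B.R g (99 / 100),
    EB (nrm ((B.c g 0).hy w) ((B.fr g).cov (B.SR 0 0 S w) x) -
      nrm ((B.c g 0).hy w) ((B.fr g).cov (B.SR 0 0 S w) x')) (cm (2 * np B.N (-39 / 100))) := by
  have gd := Bk.gd0 G b g
  have n1 := cnp b (a := -20) (a' := -19) (by norm_num)
  have n2 := cnp b (a := -22) (a' := -19) (by norm_num)
  have n0 := b.np_pos (-20)
  have n3 := b.np_pos (-22)
  have y0 := gd.y_pos
  have w1 : np B.N (-1 / 3) * (B.c g 0).y ≤ w :=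
    (mul_le_mul_of_nonneg_right (b.np_le (by norm_num)) y0.le).trans hw.1
  have w0 : 0 < w := (mul_pos (b.np_pos _) y0).trans_le w1
  have ha : |1 * (B.c g 0).y ^ 2 - (1 * w) ^ 2| ≤ 4 * (B.c g 0).y ^ 2 :=
    abs_le.2 ⟨by nlinarith [hw.2], by nlinarith⟩
  have e2 : B.SR 0 0 S w = fun p => B.Rf 0 S p - B.Dl 0 p -
      (1 * (B.c g 0).y ^ 2 - (1 * w) ^ 2) • B.Db p := by
    funext p
    rw [Bk.SR, if_pos rfl, one_mul, one_mul]; rfl
  have sub : B.R g (99 / 100) ⊆ B.R g (1 - (0 : ℕ) / B.N) := RX_mono _ gd.D_pos.le (by norm_num)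
  have bd : ∀ x ∈ B.R g (99 / 100), EB (B.nS 0 (B.Rf 0 S) g x - dg3 (1 / 4) (1 / 4) 1)
      (bm (101 / 100 * (1 / 10 ^ 7)) (np B.N (-22)) (np B.N (-22))) := fun x hx i j => by
    obtain ⟨t1, t2, -⟩ := t_zero gd rfl
    have t1' := mul_le_mul_of_nonneg_left t1 (show (0 : ℝ) ≤ 101 / 100 by norm_num)
    have t2' := mul_le_mul_of_nonneg_left t2 (show (0 : ℝ) ≤ 101 / 100 by norm_num)
    refine (h.bd g x (sub hx) i j).trans ?_
    fin_cases i <;> fin_cases j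
    exacts [t1', t2', le_rfl, t2', t1', le_rfl, le_rfl, le_rfl, le_rfl]
  rw [e2]
  simp only [cov_sr]
  refine ⟨?_, fun x' hx' => ?_⟩
  · have := nearc gd (N := B.N) rfl w1 ha (by norm_num) (bm_mono (bd x hx) le_rfl (by linarith) (by linarith))
      (eb_mono (h1 x hx).2 (by linarith)) (eb_mono (h1 x hx).1 (by linarith))
    rw [show (1 / 4 - 1 / 32 : ℝ) = 7 / 32 by norm_num, one_pow] at this
    exact eb_mono this (by linarith [np_sm b (a := -16) (by norm_num)])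
  · have two : ∀ {A A' D : Mx} {i j : Fin 3} {t : ℝ}, |(A - D) i j| ≤ t → |(A' - D) i j| ≤ t →
        2 * t ≤ np B.N (-19) → |(A - A') i j| ≤ np B.N (-19) := fun a1 a2 a3 => by
      simp only [Matrix.sub_apply, abs_le] at a1 a2 ⊢
      constructor <;> linarith [a1.1, a1.2, a2.1, a2.2]
    have v : ∀ x ∈ B.R g (99 / 100), ∀ i,
        |(B.nS 0 (B.Rf 0 S) g x - dg3 (1 / 4) (1 / 4) 1) i 2| ≤ np B.N (-22) ∧
        |(B.nS 0 (B.Rf 0 S) g x - dg3 (1 / 4) (1 / 4) 1) 2 i| ≤ np B.N (-22) := fun x hx i => by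
      fin_cases i
      exacts [⟨bd x hx 0 2, bd x hx 2 0⟩, ⟨bd x hx 1 2, bd x hx 2 1⟩, ⟨bd x hx 2 2, bd x hx 2 2⟩]
    refine eb_mono (combc gd (N := B.N) rfl w1 ha (mul_pos (by norm_num) (b.np_pos _)).le
      (eb_to_bm (h.osc g x (sub hx) x' (sub hx')) fun i =>
        ⟨two (v x hx i).1 (v x' hx' i).1 (by linarith), two (v x hx i).2 (v x' hx' i).2 (by linarith)⟩)
      (fun i j => two ((h1 x hx).2 i j) ((h1 x' hx').2 i j) (by show 2 * np B.N (-20) ≤ _; linarith))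
      (fun i j => two ((h1 x hx).1 i j) ((h1 x' hx').1 i j)
        (by show 2 * np B.N (-20) ≤ _; linarith))) ?_
    show 101 / 100 * np B.N (-39 / 100) + np B.N (-16) ≤ _
    linarith [cnp b (a := -16) (a' := -39 / 100) (by norm_num), b.np_pos (-16)]

/-- the old reduced covariance in the new frame -/
lemma tr_tab {B : Bk} (b : Big B.N) (G : FrOk B.N B.lb B.fr) {F' : Fr} {g : Cu} (fc : Fc B F' g)
    (gd' : Gd (F'.pm B.N' B.lb' 0)) {S : V → Mx} {w : ℝ} (hw : (F'.pm B.N' B.lb' 0).yrg w)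
    (h : ∀ x ∈ B.R g (6 / 10), EB (nrm ((B.c g (nb B.N)).hy w) ((B.fr g).cov S x) -
      dg3 (1 / 8) (1 / 8) ((999 / 1000) ^ 2)) (cm (2 * np B.N (-4 / 10))))
    {x : V} (hx : x ∈ RX F'.O (Dd B.N' B.lb') 1) :
    EB (nrm ((F'.pm B.N' B.lb' 0).hy w) (F'.cov S x) - dg3 (1 / 8) (1 / 8) ((999 / 1000) ^ 2))
      (cm (2 / 10 ^ 5)) ∧ ∀ x' ∈ RX F'.O (Dd B.N' B.lb') 1,
    EB (nrm ((F'.pm B.N' B.lb' 0).hy w) (F'.cov S x) -
      nrm ((F'.pm B.N' B.lb' 0).hy w) (F'.cov S x')) (cm (144 * np B.N (-4 / 10))) := by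
  have w0 : 0 < w := (mul_pos (gd'.big.np_pos _) gd'.y_pos).trans_le hw.1
  have P := fc.fa.pw w hw
  have e : ∀ x, nrm ((F'.pm B.N' B.lb' 0).hy w) (F'.cov S x) = _ * nrm ((B.c g (nb B.N)).hy w)
      ((B.fr g).cov S ((B.fr g).xc (F'.xp x))) * _ := fun x => by
    rw [← nrm_conj (hy_pos (Bk.gd G b g le_rfl) w0) (hy_pos gd' w0), Fr.cov, Fr.cov,
      xp_xc (orth G g), cv1_chg (F' := B.fr g) (det_ne G g)]
  simp only [e]
  refine ⟨eb_mono (P.conj (by norm_num) (by norm_num [abs_le]) (by norm_num [abs_le])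
    (h _ (fc.xs x hx))) (by linarith [np_sm b (a := -4 / 10) (by norm_num)]), fun x' hx' => ?_⟩
  have := eb_sub (h _ (fc.xs x hx)) (h _ (fc.xs x' hx'))
  rw [sub_sub_sub_cancel_right] at this
  rw [← Matrix.sub_mul, ← Matrix.mul_sub]
  exact eb_mono (sand (P.eb (by norm_num)) this) (le_of_eq (by ring))

lemma dir_chg {M : V → ℝ} (hM : Sm M) (d : ℝ) (a : V) (T : Mx) (v p : V) :
    ∑ i, v i * pd i (fun w => d * M (a + T *ᵥ w)) p =
      d * ∑ j, (T *ᵥ v) j * pd j M (a + T *ᵥ p) := by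
  simp only [pd_const_mul, C2.pd_affine hM, mulVec, dotProduct, Fin.sum_univ_three]
  ring

lemma beta_gain {m m' : ℝ} (h1 : 2 ≤ m') (h2 : 2 * m ≤ m') :
    10069 / 10000 * max 1 m ^ (1 / 100 : ℝ) ≤ max 1 m' ^ (1 / 100 : ℝ) := by
  have e : (10069 / 10000 : ℝ) ≤ 2 ^ (1 / 100 : ℝ) := by
    rw [Real.rpow_def_of_pos two_pos]
    linarith [Real.add_one_le_exp (Real.log 2 * (1 / 100)), log2_bd.1]
  have p : 0 ≤ max 1 m := zero_le_one.trans (le_max_left _ _)
  refine (mul_le_mul_of_nonneg_right e (by positivity)).trans ?_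
  rw [← Real.mul_rpow (by norm_num) p]
  refine Real.rpow_le_rpow (by positivity) (le_trans ?_ (le_max_right _ _)) (by norm_num)
  rcases le_total 1 m with h | h
  · rwa [max_eq_right h]
  · rwa [max_eq_left h, mul_one]

end Cr

end
end Pool.Agent.MP_20bec2_an.T3

end MrgPart0

-- ======== part 1: formerly Pool.Agent.MP_20bec2_an.T3.Cr
section MrgPart1

/-! Row CR: the records about the density at the start of the next block. -/

set_option autoImplicit false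
open MeasureTheory Set Filter Matrix

namespace Pool.Agent.MP_20bec2_an.T3
noncomputable section
open Classical

namespace Cr
open GeoP Prof

/-- a lateral derivative in the new frame -/
lemma dir_old {B : Bk} (b : Big B.N) (G : FrOk B.N B.lb B.fr) {F' : Fr} {g : Cu} (fc : Fc B F' g)
    {M : V → ℝ} (hM : Sm M) {a a' β γ : ℝ} (ha : a ^ 2 + a' ^ 2 ≤ 1) {p : V}
    (hp : ‖p‖ ≤ 10 * Dd B.N' B.lb')
    (h1 : ∀ z ∈ B.R g (6 / 10), √(((B.c g (nb B.N - 1)).l1 * pd 0 ((B.fr g).den M) z) ^ 2 +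
      ((B.c g (nb B.N - 1)).lam * pd 1 ((B.fr g).den M) z) ^ 2) ≤ β)
    (h2 : ∀ z ∈ B.R g (6 / 10), |pd 2 ((B.fr g).den M) z| ≤ γ) :
    |∑ i, ![a * (F'.pm B.N' B.lb' 0).l1, a' * (F'.pm B.N' B.lb' 0).lam, 0] i * pd i (F'.den M) p| ≤
      (1 + 1 / 10 ^ 6) * ((1 + 1 / 10 ^ 4) / 2 * β + np B.N (-1 / 2) * B.yk (nb B.N) * γ) := by
  have gd := Bk.gd G b g le_rfl
  obtain ⟨t1, t2⟩ := fc.fa.tv a a' ha
  have hz := fc.zs p hp
  rw [den_chg (det_ne G g), dir_chg (den_sm _ hM), abs_mul]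
  generalize ((B.fr g).Q⁻¹ * F'.Q) *ᵥ ![a * (F'.pm B.N' B.lb' 0).l1,
    a' * (F'.pm B.N' B.lb' 0).lam, 0] = u at t1 t2
  generalize (B.fr g).zc F'.z0 + ((B.fr g).Q⁻¹ * F'.Q) *ᵥ p = z at hz
  have e0 : (B.c g (nb B.N - 1)).l1 = 2 * (B.c g (nb B.N)).l1 := hs_two b g 0
  have e1 : (B.c g (nb B.N - 1)).lam = 2 * (B.c g (nb B.N)).lam := hs_two b g 1
  have p0 := gd.l1_pos.ne'; have p1 := gd.lam_pos.ne'
  have h3 := (dir_le_sqrt (a := u 0 / (B.c g (nb B.N)).l1 / 2) (b := u 1 / (B.c g (nb B.N)).lam / 2)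
    (t := (1 + 1 / 10 ^ 4) / 2) (by rw [div_pow _ 2, div_pow (_ / _) 2, div_pow _ (2 : ℝ)]; linarith)
    (by norm_num)).trans (mul_le_mul_of_nonneg_left (h1 z hz) (by norm_num))
  have h4 := amul t2 (h2 z hz)
  have e2 : ∑ j, u j * pd j ((B.fr g).den M) z = u 0 / (B.c g (nb B.N)).l1 / 2 *
      ((B.c g (nb B.N - 1)).l1 * pd 0 ((B.fr g).den M) z) + u 1 / (B.c g (nb B.N)).lam / 2 *
      ((B.c g (nb B.N - 1)).lam * pd 1 ((B.fr g).den M) z) + u 2 * pd 2 ((B.fr g).den M) z := by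
    rw [Fin.sum_univ_three, e0, e1]
    field_simp
  rw [e2]
  exact mul_le_mul (abs_le.2 ⟨by linarith [(abs_le.1 fc.det).1], by linarith [(abs_le.1 fc.det).2]⟩)
    ((abs_add_le _ _).trans (add_le_add h3 h4)) (abs_nonneg _) (by norm_num)

lemma beta_ge {c : Pm} (g : Gd c) (w : ℝ) : np c.N (-28 / 100) ≤ c.betaR w :=
  le_mul_of_one_le_right (g.big.np_pos _).le (Real.one_le_rpow (le_max_left _ _) (by norm_num))

/-- the gain of the record against the loss in the change of block -/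
lemma beta_chg {c c' : Pm} (g : Gd c) (hN : c'.N = nxt c.N) {w : ℝ} (hw : 0 < w) (hy : 0 < c'.y)
    (h1 : 2 * c'.y ≤ (1 + 1 / 10 ^ 8) * c.y) (h2 : 2 ≤ np c'.N (3 / 10) * w / c'.y) :
    10069 / 10000 * c.betaR (999 / 1000 * w) ≤ (1 + 1 / 10 ^ 8) * c'.betaR w := by
  have b := g.big
  have y0 := g.y_pos
  have e1 := (np_nxt b (a := 3 / 10) (by norm_num [abs_le])).2
  have e2 := (np_nxt b (a := -28 / 100) (by norm_num [abs_le])).2
  have p := (big' b).np_pos (3 / 10)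
  rw [← hN] at e1 e2 p
  have m2 : 2 * (np c.N (3 / 10) * (999 / 1000 * w) / c.y) ≤ np c'.N (3 / 10) * w / c'.y := by
    rw [← mul_div_assoc, div_le_div_iff₀ y0 hy]
    have := mul_le_mul e1 h1 (by linarith) (by linarith)
    nlinarith [mul_le_mul_of_nonneg_left this hw.le, mul_pos (mul_pos p hw) y0]
  have := mul_le_mul e2 (beta_gain h2 m2) (by positivity) (by linarith [b.np_pos (-28 / 100)])
  unfold Pm.betaR
  linarith

end Cr

open Cr GeoP Prof in
theorem cr (hT : TfbStmt) (hK : KsdStmt) (hE : EsStmt) (hS : SderStmt) (hB : Bs0Stmt) : CrStmt := by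
  filter_upwards [fc hT hK hE, hK, evB_nxt hK, hE, hS, evB_nxt hS, evB_nxt hB, evB_nxt (conv kg),
    crude, evB_nxt crude, ev_big] with N hfc hK hK' hE hS hS' hB' hC hcr hcr' b
  rintro B rfl ρ s H h0 ok' pre'
  obtain ⟨hρ, ok, hk, inv⟩ := id h0
  have G := ok.geo.toFrOk
  have G' := ok'.geo.toFrOk
  have eZ := Z_eq (inv.iq (aft_ks b)) H
  have hfc := hfc B rfl ρ s H h0 pre'.is
  set B' := B.next s H with hB'e
  have b' : Big B'.N := big' b
  refine ⟨fun g' w hw z hz => ?_, fun h => absurd h (by have := b'.nm_pos; unfold kL; omega)⟩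
  have gd' : ∀ g, Gd (B'.c g 0) := Bk.gd0 G' b'
  have y' : 0 < B'.yk 0 := (gd' 0).y_pos
  have w0 : 0 < w := (mul_pos (b'.np_pos _) y').trans_le hw.1
  have w1 : w ≤ B'.yk 0 / 2 := hw.2
  have D1 : 0 < B'.D := (gd' 0).D_pos
  have N1 := b'.N_pos
  have K1 := (hK' B' rfl ρ 0 0 _ ok' (nb_pos b') (by norm_num) pre').2.2.1 w hw
  have β1 : np B'.N (-28 / 100) ≤ (B'.c g' 0).betaR w := beta_ge (gd' g') w
  rw [eZ, show (B.nst s).Sg = s.Sg from rfl] at K1 ⊢
  rw [Nat.cast_zero, zero_div, add_zero, mul_one]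
  rw [Nat.cast_zero, zero_add] at hz
  rcases lt_or_ge (np B'.N (3 / 10) * w / B'.yk 0) 2 with hc | hc
  · have cb := (hcr' B' rfl ρ 0 _ _ w hρ ok'.geo (Nat.zero_le _) K1).2 g'
    have hz2 : z ∈ B'.R g' (985 / 1000) := RX_mono _ D1.le (sub_le_self _ (by positivity)) hz
    have c0 : (B'.c g' 0).l1 * _ ≤ _ := cb.pd_le le_rfl 0 hz2
    have c1 : (B'.c g' 0).lam * _ ≤ _ := cb.pd_le le_rfl 1 hz2
    rw [← abs_of_pos (gd' g').l1_pos, ← abs_mul] at c0
    rw [← abs_of_pos (gd' g').lam_pos, ← abs_mul] at c1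
    have h1 := sqrt_le_dir (β := 2 * pq B'.N) fun a a' h => (abs_add_le _ _).trans (by
      linarith [amul (show |a| ≤ 1 from abs_le.2 ⟨by nlinarith, by nlinarith⟩) c0,
        amul (show |a'| ≤ 1 from abs_le.2 ⟨by nlinarith, by nlinarith⟩) c1])
    have h2 : w / B'.yk 0 ≤ 2 * np B'.N (-3 / 10) := by
      have e : np B'.N (-3 / 10) * np B'.N (3 / 10) = 1 := by
        rw [← b'.np_add, ← np_zero B'.N]; norm_num
      have := mul_le_mul_of_nonneg_left hc.le (b'.np_pos (-3 / 10)).le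
      rw [← mul_div_assoc, ← mul_assoc, e, one_mul] at this
      linarith
    have h3 := mul_le_mul h2 h1 (Real.sqrt_nonneg _) (by linarith [b'.np_pos (-3 / 10)])
    linarith [qnp b' (a := -3 / 10) (a' := -28 / 100) (by norm_num),
      mul_pos b'.q_pos (b'.np_pos (-3 / 10))]
  have gn : ∀ g, Gd (B.c g (nb B.N)) := fun g => Bk.gd G b g le_rfl
  have go : ∀ g, Gd (B.c g (nb B.N - 1)) := fun g => Bk.gd G b g hk.le
  have y0 : 0 < B.yk (nb B.N) := (gn 0).y_pos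
  have D0 : 0 < B.D := (gn 0).D_pos
  obtain ⟨y1, y2⟩ : B.yk (nb B.N) ≤ B'.yk 0 ∧ B'.yk 0 ≤ (1 + 1 / 10 ^ 8) * B.yk (nb B.N) :=
    y_cmp (gn 0) (c' := B'.c 0 0) rfl (show B.lb' / 2 ^ 0 = B.lb' by simp)
  have ey : B.yk (nb B.N - 1) = 2 * B.yk (nb B.N) := hs_two b 0 2
  have nx : ∀ a : ℝ, |a| ≤ 5 → np B.N a ≤ (1 + 1 / 10 ^ 8) * np B'.N a := fun a ha =>
    (np_nxt b ha).2
  have w2 : np B.N (-3 / 10) * B.yk (nb B.N) ≤ w := by
    have e : np B'.N (-3 / 10) * np B'.N (3 / 10) = 1 := by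
      rw [← b'.np_add, ← np_zero B'.N]; norm_num
    have := mul_le_mul_of_nonneg_left hc (b'.np_pos (-3 / 10)).le
    rw [← mul_div_assoc, ← mul_assoc, e, one_mul, le_div_iff₀ y'] at this
    have p := b'.np_pos (-3 / 10)
    nlinarith [mul_le_mul (nx (-3 / 10) (by norm_num [abs_le])) y1 y0.le (by positivity),
      mul_pos p y']
  have hy : (B.c 0 (nb B.N - 1)).yrg (999 / 1000 * w) := by
    have := mul_le_mul_of_nonneg_right (cnp b (a := -31 / 100) (a' := -3 / 10) (by norm_num)) y0.le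
    have := mul_pos (b.np_pos (-31 / 100)) y0
    refine ⟨show np B.N _ * B.yk (nb B.N - 1) ≤ _ from ?_, show _ ≤ B.yk (nb B.N - 1) / 2 from ?_⟩ <;>
      rw [ey] <;> linarith
  have K0 := (hK B rfl ρ _ 9 s ok.toOk0 hk le_rfl (pre_of inv)).2.2.1 _ hy
  have sd := hS B rfl _ 9 s G hk (by norm_num) le_rfl inv.is
  have tb : ∀ g'' g, Fc B (B'.fr g'') g → ∀ x ∈ B'.R g'' (99 / 100), _ := fun g'' g f x hx =>
    tr_tab b G f (gd' g'') (S := B.SR (nb B.N - 1) 9 s.Sg (999 / 1000 * w)) hw (fun x hx => by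
      obtain ⟨-, -, d1, d2⟩ := (sd g).1 x (RX_mono _ D0.le (by norm_num) hx)
      exact old_tab b G (hE B rfl _ s G hk inv.is) g hx d1 d2
        ((mul_le_mul_of_nonneg_right (b.np_le (by norm_num)) y0.le).trans w2) (by linarith))
      (RX_mono _ D1.le (by norm_num) hx)
  have K2 : B'.KS 0 (B.Z s) (B.SR (nb B.N - 1) 9 s.Sg (999 / 1000 * w)) w := by
    refine ⟨K1.sm, K1.bij, K0.cS, K1.hvb, fun g'' x hx => ⟨(K1.bd g'' x hx).1, (K1.bd g'' x hx).2.1,
      KsdP.cv1_symm _ ?_, ?_⟩⟩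
    · obtain ⟨-, -, -, -, -, -, d⟩ := sd 0
      rw [Bk.SR, if_neg (by norm_num), transpose_sub, transpose_sub, transpose_smul, inv.is.sm.2,
        (d _).1, (d _).2.1]
    · obtain ⟨g, f⟩ := hfc g''
      exact pd_of (hy_pos (gd' g'') w0) (tb g'' g f x hx).1 (by norm_num) (by norm_num)
  have is1 := hB' B' rfl 0 (B.nst s) { B.nst s with Sg := B'.Rf 0 s.Sg, S0 := B'.Rf 0 s.Sg } G'
    (nb_pos b') pre'.is rfl rfl
  have nt := fun x hx => new_tab b' G' (S := s.Sg) (is1.post le_rfl) g' (fun x hx =>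
    ((hS' B' rfl 0 1 _ G' (nb_pos b') le_rfl (by norm_num) is1 g').1 x
      (RX_mono _ D1.le (by norm_num) hx)).2.2) hw (x := x) hx
  obtain ⟨g, f⟩ := hfc g'
  have z0 : (0 : V) ∈ B'.R g' (99 / 100) := zero_mem_RX _ D1.le (by norm_num)
  have hA := pd_of (m := 1 / 10 ^ 4) (M := 6) (hy_pos (gd' g') w0)
    (S := (B'.fr g').cov (B'.SR 0 0 s.Sg w) 0 -
      (B'.fr g').cov (B.SR (nb B.N - 1) 9 s.Sg (999 / 1000 * w)) 0)
    (a := 7 / 32 - 1 / 8) (c := 1 - (999 / 1000) ^ 2) (e := 2 / 10 ^ 7 + 2 / 10 ^ 5) (by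
      rw [nrm_sub, ← dg_sub, sub_sub_sub_comm]
      exact eb_sub (nt 0 z0).1 (tb g' g f 0 z0).1) (by norm_num) (by norm_num)
  have C := (hC B' rfl ρ 0 0 _ _ _ _ w w (np B'.N (-35 / 100)) g' _ z hρ ok'.geo (Nat.zero_le _)
    (Nat.zero_le _) K2 K1 (b'.np_pos _).le ((np_sm b' (by norm_num)).trans (by norm_num))
    (by rw [transpose_sub, (K1.bd g' 0 z0).2.2.1, (K2.bd g' 0 z0).2.2.1]) (.inr hA)
    (fun x hx => ⟨fun i => by
      rw [sub_self, Pi.zero_apply, abs_zero]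
      exact (mul_pos (b'.np_pos _) (hy_pos (gd' g') w0 i)).le, by
      rw [sub_sub_sub_comm, nrm_sub, nrm_sub, nrm_sub]
      refine eb_mono (eb_sub ((nt x hx).2 0 z0) ((tb g' g f x hx).2 0
        (RX_mono _ D1.le (by norm_num) z0))) ?_
      linarith [cnp b' (a := -39 / 100) (a' := -35 / 100) (by norm_num), b'.np_pos (-39 / 100),
        b'.np_le (show (-4 / 10 : ℝ) ≤ -39 / 100 by norm_num), nx (-4 / 10) (by norm_num [abs_le])]⟩)
    (RX_mono _ D1.le (sub_le_sub_left (one_div_le_one_div_of_le N1 (by linarith)) _) hz)).2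
    fun h => by
      have h1 := (hA 1).1
      rw [h, zero_mulVec, dotProduct_zero] at h1
      have := Finset.sum_pos (s := Finset.univ) (fun i _ => pow_pos (mul_pos
        (hy_pos (gd' g') w0 i) (show 0 < (1 : V) i from one_pos)) 2) Finset.univ_nonempty
      linarith
  obtain ⟨sM, cb⟩ := hcr B rfl ρ _ _ _ _ hρ ok.geo hk.le K0
  have h1 := sqrt_le_dir fun a a' h => by
    have ha : |a| ≤ 1 := abs_le.2 ⟨by nlinarith, by nlinarith⟩
    have ha' : |a'| ≤ 1 := abs_le.2 ⟨by nlinarith, by nlinarith⟩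
    have := (C ![a * (B'.c g' 0).l1, a' * (B'.c g' 0).lam, 0] _ rfl (fun i => by
      fin_cases i
      · exact (amul ha (abs_of_pos (gd' g').l1_pos).le).trans_eq (one_mul _)
      · exact (amul ha' (abs_of_pos (gd' g').lam_pos).le).trans_eq (one_mul _)
      · exact abs_zero.trans_le ((gd' g').hs_pos 2).le)
      (fun p hp => dir_old b G f sM h.le
        (β := (B.c g (nb B.N - 1)).betaR (999 / 1000 * w) * (1 + 9 / 2000) /
          (999 / 1000 * w / B.yk (nb B.N - 1))) (γ := pq B.N / (999 / 1000 * w)) (by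
          have e1 := mul_le_mul_of_nonneg_right (b'.np_le (show (5 / 2 : ℝ) ≤ (4 : ℕ) by norm_num))
            (lb_pos G').le
          rw [np_nat] at e1
          show ‖p‖ ≤ 10 * B'.D
          linarith [norm_RX (orth G' g') D1 (by linarith [one_div_pos.2 N1]) hz,
            norm_le_norm_add_norm_sub' p z, show B'.D = (B'.N : ℝ) ^ 4 * B'.lb from rfl])
        (fun x hx => by
          have r := inv.ir.ri g _ hy x (RX_mono _ D0.le (by
            rw [← Nat.cast_succ, Nat.succ_eq_add_one, Nat.sub_add_cancel (nb_pos b)]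
            linarith [nb_small b]) hx)
          rwa [← le_div_iff₀' (by rw [ey]; positivity), Nat.cast_ofNat] at r)
        (fun x hx => (le_div_iff₀' (by positivity)).2
          ((cb g).pd_le le_rfl 2 (RX_mono _ D0.le (by norm_num) hx))))).1
    rw [Fin.sum_univ_three] at this
    simp only [cons_val_zero, cons_val_one, cons_val, zero_mul, add_zero, mul_assoc a,
      mul_assoc a'] at this
    exact this
  have t0 : 0 < w / B'.yk 0 := by positivity
  have t1 : w / B'.yk 0 ≤ 1 := by rw [div_le_one y']; linarith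
  have t2 : B.yk (nb B.N) / B'.yk 0 ≤ 1 := (div_le_one y').2 y1
  have β0 : np B.N (-28 / 100) ≤ (B.c g (nb B.N - 1)).betaR (999 / 1000 * w) := beta_ge (go g) _
  have β2 := beta_chg (go g) (c' := B'.c g' 0) rfl w0 y'
    (show 2 * B'.yk 0 ≤ _ * B.yk (nb B.N - 1) by rw [ey]; linarith) hc
  refine (mul_le_mul_of_nonneg_left h1 t0.le).trans ?_
  generalize (B.c g (nb B.N - 1)).betaR (999 / 1000 * w) = β at β0 β2 ⊢
  have e : w / B'.yk 0 * ((1 + 1 / 10 ^ 6) * ((1 + 1 / 10 ^ 4) / 2 * (β * (1 + 9 / 2000) /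
      (999 / 1000 * w / B.yk (nb B.N - 1))) +
      np B.N (-1 / 2) * B.yk (nb B.N) * (pq B.N / (999 / 1000 * w)))) =
      B.yk (nb B.N) / B'.yk 0 * ((1 + 1 / 10 ^ 6) * (1000 / 999) *
        ((1 + 1 / 10 ^ 4) * (1 + 9 / 2000) * β + pq B.N * np B.N (-1 / 2))) := by
    rw [ey]; field_simp
  have p1 := b.np_pos (-28 / 100)
  have p2 := mul_pos b.q_pos (b.np_pos (-1 / 2))
  have p3 := mul_pos b'.q_pos (b'.np_pos (-35 / 100))
  rw [mul_add, mul_add, e]
  linarith [mul_le_of_le_one_left (show 0 ≤ (1 + 1 / 10 ^ 6) * (1000 / 999) *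
      ((1 + 1 / 10 ^ 4) * (1 + 9 / 2000) * β + pq B.N * np B.N (-1 / 2)) by linarith) t2,
    mul_le_of_le_one_left p3.le t1, mul_le_of_le_one_left (Real.exp_pos (-(B'.N : ℝ))).le t1,
    exp_sm b', qnp b (a := -1 / 2) (a' := -28 / 100) (by norm_num), b'.np_pos (-1),
    qnp b' (a := -35 / 100) (a' := -28 / 100) (by norm_num),
    cnp b' (a := -1) (a' := -28 / 100) (by norm_num)]

end
end Pool.Agent.MP_20bec2_an.T3

end MrgPart1

-- marker of a merged file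
example : 731051 + 452312 = 731051 + 452312 := rfl
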