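import Pool.Agent.MP_20bec2_an.T3.Vtr
import Pool.Agent.MP_20bec2_an.T3.Par3
import Pool.Agent.MP_20bec2_an.T3.Conv
import Pool.Agent.MP_20bec2_an.T3.Final
import Pool.Agent.MP_20bec2_an.T3.Calc1b
import Pool.Agent.MP_20bec2_an.T3.Zt
import Pool.Agent.MP_20bec2_an.T3.WinA
import Pool.Agent.MP_20bec2_an.T3.K4
import Pool.Agent.MP_20bec2_an.T3.Nc
import Pool.Agent.MP_20bec2_an.T3.CrA

-- ======== part 0: formerly Pool.Agent.MP_20bec2_an.T3.Push
section MrgPart0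

-- ======== part 0: formerly Pool.Agent.MP_20bec2_an.T3.Lip
section MrgPart0

/-! The map of a block is bi-Lipschitz. -/

set_option autoImplicit false
open MeasureTheory Set Filter Matrix Topology

namespace Pool.Agent.MP_20bec2_an.T3
noncomputable section
open Classical

namespace Lip

lemma eb_mul {A B : Mx} {a b : ℝ} (hA : EB A (cm a)) (hB : EB B (cm b)) :
    EB (A * B) (cm (3 * a * b)) := fun i j => by
  have ha : 0 ≤ a := (abs_nonneg _).trans (hA 0 0)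
  have e : ∀ k, |A i k * B k j| ≤ a * b := fun k => by
    rw [abs_mul]
    exact mul_le_mul (hA i k) (hB k j) (abs_nonneg _) ha
  have := abs_add_three (A i 0 * B 0 j) (A i 1 * B 1 j) (A i 2 * B 2 j)
  rw [mul_apply, Fin.sum_univ_three]
  show _ ≤ 3 * a * b
  linarith [e 0, e 1, e 2]

lemma eb_mono {A : Mx} {a b : ℝ} (hA : EB A (cm a)) (h : a ≤ b) : EB A (cm b) :=
  fun i j => (hA i j).trans h

lemma orth_eb {O : Mx} (h : Orth O) : EB O (cm 1) := fun i j => by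
  have e : ∑ k, O i k * O i k = 1 := by
    have := congrFun (congrFun h.1 i) i
    rwa [mul_apply, one_apply_eq] at this
  have := Finset.single_le_sum (f := fun k => O i k * O i k) (fun _ _ => mul_self_nonneg _)
    (Finset.mem_univ j)
  exact abs_le_one_iff_mul_self_le_one.2 (e ▸ this)

lemma inv_eb {A : Mx} {a : V} {m b : ℝ} (hm : 0 < m) (hd : m ≤ A.det) (h : ∀ i j, |A i j| ≤ a j)
    (h01 : 2 * (a 0 * a 1) ≤ m * b) (h02 : 2 * (a 0 * a 2) ≤ m * b)
    (h12 : 2 * (a 1 * a 2) ≤ m * b) : EB A⁻¹ (cm b) := fun i j => by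
  have ha : ∀ k, 0 ≤ a k := fun k => (abs_nonneg _).trans (h 0 k)
  have e : ∀ p q r s, |A p q * A r s| ≤ a q * a s := fun p q r s => by
    rw [abs_mul]
    exact mul_le_mul (h p q) (h r s) (abs_nonneg _) (ha q)
  have hb : 0 ≤ b := by
    have := mul_nonneg (ha 0) (ha 1)
    exact nonneg_of_mul_nonneg_right (by linarith) hm
  have k : |A.adjugate i j| ≤ m * b := by
    rw [adjugate_fin_three, abs_le]
    fin_cases i <;> fin_cases j <;> simp <;> constructor <;>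
      linarith [abs_le.1 (e 0 0 1 1), abs_le.1 (e 0 0 2 1), abs_le.1 (e 0 0 1 2),
        abs_le.1 (e 0 0 2 2), abs_le.1 (e 0 1 1 0), abs_le.1 (e 0 1 2 0), abs_le.1 (e 0 1 1 2),
        abs_le.1 (e 0 1 2 2), abs_le.1 (e 0 2 1 0), abs_le.1 (e 0 2 2 0), abs_le.1 (e 0 2 1 1),
        abs_le.1 (e 0 2 2 1), abs_le.1 (e 1 0 2 1), abs_le.1 (e 1 0 2 2), abs_le.1 (e 1 1 2 0),
        abs_le.1 (e 1 1 2 2), abs_le.1 (e 1 2 2 0), abs_le.1 (e 1 2 2 1)]
  have hd0 : 0 < A.det := hm.trans_le hd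
  rw [Matrix.inv_def, Matrix.smul_apply, Ring.inverse_eq_inv', smul_eq_mul, abs_mul,
    abs_of_pos (inv_pos.2 hd0), inv_mul_le_iff₀ hd0]
  exact k.trans (mul_le_mul_of_nonneg_right hd hb)

lemma col_sq (A : Mx) (d : V) (i j : Fin 3) :
    (A i j * d j) ^ 2 ≤ ((A * diagonal d)ᵀ * (A * diagonal d)) j j := by
  rw [mul_apply]
  have := Finset.single_le_sum (f := fun k => (A * diagonal d)ᵀ j k * (A * diagonal d) k j)
    (fun _ _ => mul_self_nonneg _) (Finset.mem_univ i)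
  refine le_trans (le_of_eq ?_) this
  simp only [transpose_apply, mul_diagonal, sq]

lemma cg0_le {c : Pm} (h : Gd c) : cg0 c.N ≤ c.η / 100 := by
  refine le_of_log h.big.cg0_pos (div_pos h.η_pos (by norm_num)) ?_
  rw [Real.log_div h.η_pos.ne' (by norm_num), h.big.log_cg0]
  linarith [h.log_η_ge, h.big.L_ge, (logc_bd (show (1 : ℝ) ≤ 100 by norm_num)).2]

/-- sizes of the columns of the differential -/
lemma cols {c : Pm} (h : Gd c) {f : V → V} {z : V} {b : ℝ} (hM : |jac f z - 1| ≤ 1 / 100)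
    (hg : EB (c.gam f z - c.gref) (bm (cg0 c.N) b (1 / pJ c.N))) (i j : Fin 3) :
    |jm f z i j| ≤ ![101 / 100 * c.s1, 101 / 100 * c.s2, 2 / c.n12] j := by
  have hs1 := h.s1_pos
  have hs2 := h.s2_pos
  have hn := h.n12_pos
  have hη := h.η_pos
  have hc := cg0_le h
  obtain ⟨m1, m2⟩ := abs_le.1 hM
  have hJ : 1 / pJ c.N ≤ 1 / 100 :=
    one_div_le_one_div_of_le (by norm_num) (by linarith [h.big.J_ge, h.big.L_ge])
  have k := col_sq (jm f z) ![c.c1, c.c2, c.n12 / jac f z] i j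
  have g := (abs_le.1 (hg j j)).2
  change _ ≤ c.gam f z j j at k
  fin_cases j
  · have g' : c.gam f z 0 0 - c.η ≤ cg0 c.N := by simpa [Pm.gref, dg3, bm] using g
    have k' : (jm f z i 0 * (√c.η / c.s1)) ^ 2 ≤ c.gam f z 0 0 := k
    rw [mul_pow, div_pow, Real.sq_sqrt hη.le, ← mul_div_assoc, div_le_iff₀ (by positivity)] at k'
    show |jm f z i 0| ≤ 101 / 100 * c.s1
    refine abs_le.2 (abs_le_of_sq_le_sq' ?_ (by positivity))
    refine le_of_mul_le_mul_right (k'.trans ?_) hη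
    nlinarith [mul_le_mul_of_nonneg_right (show c.gam f z 0 0 ≤ 101 / 100 * c.η by linarith)
      (sq_nonneg c.s1), mul_pos hη (pow_pos hs1 2)]
  · have g' : c.gam f z 1 1 - 1 ≤ cg0 c.N := by simpa [Pm.gref, dg3, bm] using g
    have k' : (jm f z i 1 * (1 / c.s2)) ^ 2 ≤ c.gam f z 1 1 := k
    rw [mul_one_div, div_pow, div_le_iff₀ (by positivity)] at k'
    show |jm f z i 1| ≤ 101 / 100 * c.s2
    refine abs_le.2 (abs_le_of_sq_le_sq' ?_ (by positivity))
    nlinarith [mul_le_mul_of_nonneg_right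
      (show c.gam f z 1 1 ≤ 101 / 100 by linarith [h.η_le_one]) (sq_nonneg c.s2), pow_pos hs2 2]
  · have g' : c.gam f z 2 2 - 1 ≤ 1 / pJ c.N := by simpa [Pm.gref, dg3, bm] using g
    have k' : (jm f z i 2 * (c.n12 / jac f z)) ^ 2 ≤ c.gam f z 2 2 := k
    have hm : 0 < jac f z := by linarith
    rw [← mul_div_assoc, div_pow, div_le_iff₀ (by positivity)] at k'
    have k2 : |jm f z i 2 * c.n12| ≤ 2 := by
      refine abs_le.2 (abs_le_of_sq_le_sq' (k'.trans ?_) (by norm_num))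
      nlinarith [mul_le_mul (show c.gam f z 2 2 ≤ 101 / 100 by linarith)
        (show jac f z ^ 2 ≤ 2 by nlinarith) (sq_nonneg _) (by norm_num)]
    rw [abs_mul, abs_of_pos hn] at k2
    exact (le_div_iff₀ hn).2 k2

lemma sizes {c : Pm} (h : Gd c) : 1 ≤ c.s1 ∧ c.s2 ≤ c.N ∧ c.n12 ≤ 15 / 2 * c.N := by
  refine ⟨le_of_log one_pos h.s1_pos ?_, le_of_log h.s2_pos h.N_pos ?_, h.ok.2.2.2.1.trans ?_⟩
  · rw [Real.log_one]
    linarith [h.log_s1_ge, h.big.J_ge, h.big.L_ge]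
  · rw [h.big.log_N]
    linarith [h.log_s2_le, h.big.J_ge, h.big.L_ge]
  · refine mul_le_mul_of_nonneg_right ?_ h.N_pos.le
    rw [show (2 : ℝ) = 1 + 1 by norm_num, Real.exp_add]
    nlinarith [Real.exp_one_lt_d9, Real.exp_pos 1]

lemma hat_bd {c : Pm} (h : Gd c) {f : V → V} {z : V} {b : ℝ} (hM : |jac f z - 1| ≤ 1 / 100)
    (hg : EB (c.gam f z - c.gref) (bm (cg0 c.N) b (1 / pJ c.N))) :
    EB (jm f z) (cm (2 * c.N)) ∧ EB (jm f z)⁻¹ (cm (16 * c.N)) := by
  obtain ⟨a1, a2, a3⟩ := sizes h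
  have a4 := h.s1_le
  have hn : c.n12 = c.s1 * c.s2 := rfl
  have hn1 : 1 ≤ c.n12 := by nlinarith
  have a5 : 2 / c.n12 ≤ 2 := div_le_self (by norm_num) hn1
  have a6 : 0 < 2 / c.n12 := by positivity
  refine ⟨fun i j => (cols h hM hg i j).trans ?_, inv_eb (m := 99 / 100) (by norm_num)
    (by linarith [(abs_le.1 hM).1, show jac f z = (jm f z).det from rfl]) (cols h hM hg) ?_ ?_ ?_⟩
  · show _ ≤ 2 * (c.N : ℝ)
    fin_cases j
    · show 101 / 100 * c.s1 ≤ _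
      linarith
    · show 101 / 100 * c.s2 ≤ _
      linarith
    · show 2 / c.n12 ≤ _
      linarith
  · show 2 * (101 / 100 * c.s1 * (101 / 100 * c.s2)) ≤ _
    nlinarith
  · show 2 * (101 / 100 * c.s1 * (2 / c.n12)) ≤ _
    nlinarith
  · show 2 * (101 / 100 * c.s2 * (2 / c.n12)) ≤ _
    nlinarith

lemma near_one {H : Mx} (h : EB (H - 1) (cm (1 / 100))) :
    EB H (cm (101 / 100)) ∧ EB H⁻¹ (cm (23 / 10)) := by
  have b : EB H (cm (101 / 100)) := fun i j => by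
    have := abs_le.1 (h i j)
    rw [Matrix.sub_apply, one_apply] at this
    simp only [cm, of_apply] at this ⊢
    split_ifs at this <;> exact abs_le.2 ⟨by linarith [this.1], by linarith [this.2]⟩
  exact ⟨b, inv_eb (a := fun _ => 101 / 100) (by norm_num) (KB.det_ge h) b (by norm_num)
    (by norm_num) (by norm_num)⟩

lemma zp_zc {F : Fr} (hQ : 0 < F.Q.det) (z : V) : F.zp (F.zc z) = z := by
  rw [Fr.zp, Fr.zc, mulVec_mulVec, mul_nonsing_inv _ hQ.ne'.isUnit, one_mulVec, add_sub_cancel]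

variable {B : Bk} {ρ : V → ℝ}

lemma gd (hN : Big B.N) (hG : B.G) (g : Cu) : Gd (B.c g 0) := ⟨hN, (hG.fx g).2.2.2.2.2⟩

lemma D_pos (hN : Big B.N) (hG : B.G) : 0 < B.D := (gd hN hG 0).D_pos

lemma xc_mem (hG : B.G) {g : Cu} {r : ℝ} {x : V} : (B.fr g).xc x ∈ B.R g r ↔ x ∈ B.bx g r := by
  rw [Bk.R, Bk.D, ← Bij.xp_mem (hG.fx g).1, Bij.xp_xc (hG.fx g).2.1]
  rfl

lemma hat_xc (hG : B.G) (g : Cu) (Z : V → V) (x : V) :
    (B.fr g).hat Z ((B.fr g).xc x) = (B.fr g).zc (Z x) := by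
  rw [Fr.hat, Bij.xp_xc (hG.fx g).2.1]

lemma R_mono (hN : Big B.N) (hG : B.G) {g : Cu} {r r' : ℝ} (h : r ≤ r') {x : V}
    (hx : x ∈ B.R g r) : x ∈ B.R g r' :=
  le_trans hx (mul_le_mul_of_nonneg_right h (D_pos hN hG).le)

/-- the image of a point of the half cube, in hat coordinates -/
lemma zc_mem (hN : Big B.N) (hG : B.G) {g : Cu} {x : V} (hx : x ∈ B.bx g (1 / 2)) :
    (B.fr g).zc (B.Z0 x) ∈ B.R g (51 / 100) := by
  have h1 : (B.fr g).xc x ∈ B.R g (1 / 2) := (xc_mem hG).2 hx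
  have h2 := (hG.nr g _ (R_mono hN hG (by norm_num) h1)).2
  rw [hat_xc hG, mulVec_sub] at h2
  have h3 := norm_le_norm_add_norm_sub' ((B.fr g).O *ᵥ (B.fr g).zc (B.Z0 x))
    ((B.fr g).O *ᵥ (B.fr g).xc x)
  have h4 : ‖(B.fr g).O *ᵥ (B.fr g).xc x‖ ≤ 1 / 2 * B.D := h1
  have h5 := D_pos hN hG
  show ‖(B.fr g).O *ᵥ (B.fr g).zc (B.Z0 x)‖ ≤ 51 / 100 * B.D
  unfold Bk.D at *
  linarith

/-- what the invariant at time zero says -/
lemma start {s : St} (h : B.Inv ρ 0 0 s) : s.f = B.f0 ∧ B.Z s = B.Z0 ∧ Sm B.f0 ∧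
    Function.Bijective B.f0 ∧
    ∀ g, ∀ z ∈ B.R g (98 / 100), |jac ((B.fr g).fh B.f0) z - 1| ≤ 1 / 100 := by
  have e := h.iF.fk.1
  obtain ⟨h1, h2, h3⟩ := h.iF.sn 0 le_rfl
  rw [e] at h1 h2 h3
  refine ⟨(h.iF.fk.2 rfl).symm.trans e, (h.iz.zk.2 rfl).symm.trans h.iz.zk.1, h1, h2,
    fun g z hz => ((h3 g).1 z hz).trans ?_⟩
  unfold eps0
  norm_num

lemma point (hN : Big B.N) (ho : B.Ok0 ρ) {s : St} (h : B.Inv ρ 0 0 s) (x : V) :
    EB (jm B.F x) (cm (20 * B.N)) ∧ EB (jm B.F x)⁻¹ (cm (332 * B.N)) ∧ 89 / 100 ≤ jac B.F x := by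
  have hG : B.G := ho.geo
  obtain ⟨-, -, sf, bf, hM⟩ := start h
  obtain ⟨g, hx⟩ := Prof.exists_box (D_pos hN hG) x
  obtain ⟨-, hO, hQ, -⟩ := hG.fx g
  have hN0 := hN.N_pos
  have h1 : (B.fr g).xc x ∈ B.R g (1 / 2) := (xc_mem hG).2 hx
  have hH := (hG.nr g _ (R_mono hN hG (by norm_num) h1)).1
  have hm := hM g _ (R_mono hN hG (by norm_num) (zc_mem hN hG hx))
  have hg := ho.g0 g x ((xc_mem hG).1 (R_mono hN hG (by norm_num) h1))
  have e0 : B.oh g B.f0 x = (B.fr g).zc (B.Z0 x) := by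
    rw [Bk.oh, Bk.lab, Function.leftInverse_invFun bf.1]
  rw [Bk.ga, e0] at hg
  obtain ⟨a1, a2⟩ := hat_bd (gd hN hG g) hm hg
  obtain ⟨b1, b2⟩ := near_one hH
  have b3 := KB.det_ge hH
  have e : jm B.F x = jm ((B.fr g).fh B.f0) ((B.fr g).zc (B.Z0 x)) *
      jm ((B.fr g).hat B.Z0) ((B.fr g).xc x) * (B.fr g).Oᵀ := by
    rw [(K3.p4 _ sf.dif _).1, (K3.p5 _ hG.sm.dif _).1, zp_zc hQ, Bij.xp_xc hO, Fr.hm]
    simp only [Matrix.mul_assoc]
    rw [hO.1, Matrix.mul_one, ← Matrix.mul_assoc (B.fr g).Q, mul_nonsing_inv _ hQ.ne'.isUnit,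
      Matrix.one_mul]
    exact jm_comp (sf.dif _) (hG.sm.dif _)
  have eN : ((B.c g 0).N : ℝ) = B.N := rfl
  rw [eN] at a1 a2
  refine ⟨?_, ?_, ?_⟩
  · rw [e]
    exact eb_mono (eb_mul (eb_mul a1 b1) fun i j => orth_eb hO j i) (by linarith)
  · rw [e, Matrix.mul_inv_rev, Matrix.mul_inv_rev, inv_eq_left_inv hO.1]
    exact eb_mono (eb_mul (orth_eb hO) (eb_mul b2 a2)) (by linarith)
  · rw [jac, e, det_mul, det_mul, det_transpose, hO.2, mul_one]
    have : 99 / 100 ≤ (jm ((B.fr g).fh B.f0) ((B.fr g).zc (B.Z0 x))).det := by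
      have := (abs_le.1 hm).1
      unfold jac at this
      linarith
    nlinarith

end Lip

theorem lip : LipStmt := ev_big.mono fun N hN B hB ρ h => by
  subst hB
  obtain ⟨ho, s, hs⟩ := h
  obtain ⟨-, -, sf, bf, -⟩ := Lip.start hs
  have p := Lip.point hN ho.toOk0 hs
  have sF : Sm B.F := sf.comp ho.geo.sm
  have bF : Function.Bijective B.F := bf.comp ho.geo.bij
  obtain ⟨-, -, i1, i2, -⟩ := inv_ B.F sF bF fun z => by linarith [(p z).2.2]
  have hN0 := hN.N_pos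
  refine ⟨bF, fun x y => ⟨(i2 _ (fun z => (p z).1) x y).trans ?_,
    (i1 _ (fun z => (p z).2.1) x y).trans ?_⟩⟩ <;>
    exact mul_le_mul_of_nonneg_right (by linarith) (norm_nonneg _)

end
end Pool.Agent.MP_20bec2_an.T3

end MrgPart0

-- ======== part 1: formerly Pool.Agent.MP_20bec2_an.T3.Opo
section MrgPart1

/-! Row OPO: variances of the pointwise kernel functionals in one sweep. -/

set_option autoImplicit false
open MeasureTheory Set Filter Matrix

namespace Pool.Agent.MP_20bec2_an.T3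
noncomputable section
open Classical

namespace OpoP
open KBA KB

variable {h : V} {U : Set V} {a : V → ℝ} {A : ℝ} {Z : V → V} {S : V → Mx}

lemma env_cont (h : V) : Continuous (env h) := by
  unfold env
  fun_prop

lemma env_nonneg (hh : ∀ i, 0 < h i) (w : V) : 0 ≤ env h w :=
  div_nonneg (Real.exp_pos _).le (mul_pos (mul_pos (hh 0) (hh 1)) (hh 2)).le

lemma intOn (K : KL h U a A Z S) (z : V) {b : V → ℝ} (hb : Continuous b) :
    IntegrableOn (fun x => b x * env h (Z x - z)) U :=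
  (hb.mul ((env_cont h).comp (K.dZ.continuous.sub continuous_const))).continuousOn.integrableOn_compact
    K.cl

/-- derivatives of a density are dominated by the envelope -/
lemma rep (K : KL h U a A Z S) (z : V) {l : List (Fin 3)} (hl : l.length ≤ 3) {b : V → ℝ}
    (hb : Continuous b) (hab : ∀ x, |a x| ≤ b x) :
    |hp h l * pds l (dens a Z S) z| ≤ cst 3 * ∫ x in U, b x * env h (Z x - z) := by
  have p0 := hp_nonneg (fun i => (K.hh i).le) l
  have c0 : 0 ≤ cst 3 := zero_le_one.trans (cst_one 3)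
  have hm := K.cl.measurableSet
  rw [((k1 a Z S (gk K)).2.2 l z).2, ← integral_const_mul, ← Real.norm_eq_abs,
    ← integral_indicator hm, ← integral_const_mul]
  refine norm_integral_le_of_norm_le (((integrable_indicator_iff hm).2 (intOn K z hb)).const_mul _)
    (Eventually.of_forall fun x => ?_)
  have b0 : 0 ≤ b x := (abs_nonneg _).trans (hab x)
  by_cases hx : x ∈ U
  · have hS := K.bS x hx
    have hb := scale K.hh hS hl (Z x - z) (ker_bound_sub (g := fun i => 8 / h i) hS.1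
      (pd_pos K.hh hS) (fun i => by have := K.hh i; positivity) (pd_diag K.hh hS) (Z x) hl z)
    rw [indicator_of_mem hx, Real.norm_eq_abs, mul_left_comm, abs_mul, abs_mul, abs_of_nonneg p0,
      mul_left_comm (cst 3)]
    refine mul_le_mul (hab x) (hb.trans_eq ?_) (mul_nonneg p0 (abs_nonneg _)) b0
    rw [env]
    ring
  · simp [hx, K.sa x hx]

/-- sums of envelope integrals -/
lemma sum_le (K : KL h U a A Z S) (z : V) {ι : Type} (T : Finset ι) {m : ι → V → ℝ}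
    (hm : ∀ t ∈ T, Continuous (m t)) {B : ℝ} (hB : 0 ≤ B) (H : ∀ x ∈ U,
      ∑ t ∈ T, m t x * Real.exp (-(∑ i, ((Z x - z) i / h i) ^ 2) / 60) ≤ B) :
    ∑ t ∈ T, ∫ x in U, m t x * env h (Z x - z) ≤ 8192 * B := by
  have h0 := K.hh 0
  have h1 := K.hh 1
  have h2 := K.hh 2
  obtain ⟨g1, g2⟩ := env_int K z
  rw [← integral_finsetSum _ fun t ht => intOn K z (hm t ht)]
  refine (setIntegral_mono_on (integrable_finsetSum _ fun t ht => intOn K z (hm t ht))
    (g1.const_mul (B / (h 0 * h 1 * h 2))) K.cl.measurableSet fun x hx => ?_).trans ?_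
  · have e : ∀ t, m t x * env h (Z x - z) = m t x *
        Real.exp (-(∑ i, ((Z x - z) i / h i) ^ 2) / 60) / (h 0 * h 1 * h 2) *
        Real.exp (-(∑ i, ((Z x - z) i / h i) ^ 2) / 60) := fun t => by
      rw [env, show ∀ u : ℝ, -u / 30 = -u / 60 + -u / 60 from fun u => by ring, Real.exp_add]
      ring
    rw [Finset.sum_congr rfl fun t _ => e t, ← Finset.sum_mul, ← Finset.sum_div]
    gcongr
    exact H x hx
  · rw [integral_const_mul]
    refine (mul_le_mul_of_nonneg_left g2 (by positivity)).trans_eq ?_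
    field_simp

/-- one envelope integral over a slab -/
lemma slab_le (K : KL h U a A Z S) (z : V) {m : V → ℝ} (hm : Continuous m) {M c W C : ℝ}
    (hM : 0 ≤ M) (H : ∀ x, m x ≤ M) (H' : ∀ x, m x ≠ 0 → |x 2 - c| ≤ W)
    (hC : ∫ x in U ∩ {x | x 2 ∈ Icc (c - W) (c + W)},
      Real.exp (-lat2 h (cin 0 (Z x) - z) / 240) ≤ C * (h 0 * h 1) * (c + W - (c - W))) :
    ∫ x in U, m x * env h (Z x - z) ≤ M * C * (2 * W / h 2) := by
  have h0 := K.hh 0
  have h1 := K.hh 1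
  have h2 := K.hh 2
  have hc : IsClosed {x : V | x 2 ∈ Icc (c - W) (c + W)} :=
    isClosed_Icc.preimage (continuous_apply 2)
  have hk := K.cl.inter_right hc
  have hZ := K.dZ.continuous
  rw [setIntegral_eq_of_subset_of_forall_sdiff_eq_zero K.cl.measurableSet
    (inter_subset_left (t := {x : V | x 2 ∈ Icc (c - W) (c + W)})) fun x hx => by
      rw [show m x = 0 from by_contra fun h3 => hx.2 ⟨hx.1, by
        have := abs_le.1 (H' x h3)
        constructor <;> linarith⟩, zero_mul]]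
  refine (setIntegral_mono_on ((intOn K z hm).mono_set inter_subset_left)
    (Integrable.const_mul (f := fun x => Real.exp (-lat2 h (cin 0 (Z x) - z) / 240))
      (ContinuousOn.integrableOn_compact hk (Continuous.continuousOn ?_)) (M / (h 0 * h 1 * h 2)))
    hk.measurableSet fun x _ => ?_).trans ?_
  · simp only [lat2, cin, Pi.sub_apply, Matrix.cons_val_zero, Matrix.cons_val_one, Pi.zero_apply]
    fun_prop
  · rw [env, ← mul_div_assoc, div_mul_eq_mul_div]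
    refine div_le_div_of_nonneg_right (mul_le_mul (H x) (Real.exp_le_exp.2 ?_) (Real.exp_pos _).le
      hM) (by positivity)
    simp only [lat2, cin, Pi.sub_apply, Matrix.cons_val_zero, Matrix.cons_val_one, Pi.zero_apply,
      sub_zero, Fin.sum_univ_three]
    nlinarith [sq_nonneg ((Z x 0 - z 0) / h 0), sq_nonneg ((Z x 1 - z 1) / h 1),
      sq_nonneg ((Z x 2 - z 2) / h 2)]
  · rw [integral_const_mul]
    refine (mul_le_mul_of_nonneg_left hC (by positivity)).trans_eq ?_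
    field_simp
    ring

lemma dis_sum {ι : Type} {T : Finset ι} {Bx : ι → Set V} {f : ι → ℝ} {x : V} {B : ℝ} (hB : 0 ≤ B)
    (h1 : ∀ t ∈ T, x ∉ Bx t → f t = 0) (h2 : ∀ t ∈ T, ∀ t' ∈ T, t ≠ t' → Disjoint (Bx t) (Bx t'))
    (h3 : ∀ t ∈ T, f t ≤ B) : ∑ t ∈ T, f t ≤ B := by
  by_cases h : ∃ t ∈ T, x ∈ Bx t
  · obtain ⟨t, ht, hx⟩ := h
    rw [Finset.sum_eq_single_of_mem t ht fun t' ht' hn =>
      h1 t' ht' (disjoint_right.1 (h2 t' ht' t ht hn) hx)]
    exact h3 t ht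
  · rw [Finset.sum_eq_zero fun t ht => h1 t ht fun hx => h ⟨t, ht, hx⟩]
    exact hB

lemma sq_sum {ι : Type} {T : Finset ι} {f I : ι → ℝ} {κ P Q : ℝ} (hP : 0 ≤ P)
    (h0 : ∀ t ∈ T, 0 ≤ I t) (h1 : ∀ t ∈ T, |f t| ≤ κ * I t) (h2 : ∀ t ∈ T, I t ≤ P)
    (h3 : ∑ t ∈ T, I t ≤ Q) : ∑ t ∈ T, f t ^ 2 ≤ κ ^ 2 * P * Q := by
  refine (Finset.sum_le_sum (g := fun t => κ ^ 2 * P * I t) fun t ht => ?_).trans ?_
  · have := h0 t ht
    calc f t ^ 2 ≤ (κ * I t) ^ 2 := sq_le_sq' (abs_le.1 (h1 t ht)).1 (abs_le.1 (h1 t ht)).2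
      _ = κ ^ 2 * I t * I t := by ring
      _ ≤ _ := by gcongr; exact h2 t ht
  · rw [← Finset.mul_sum]
    gcongr

variable {d : MD} {s : Sa}

lemma gw (hN : Big d.c.N) (hl : 0 < d.c.lam) (g : d.Gs s) : d.Gw s := by
  have := hN.np_pos (-270)
  refine ⟨s, g, g.sm, fun x => ⟨(g.sup x).1, (g.sup x).2.2.1⟩, fun x => ⟨?_, fun i j => ?_,
    fun i j => ?_, ?_⟩⟩ <;> simp [cm] <;> positivity

/-- relative size of a displacement -/
def rel (d : MD) (v : V → V) (x : V) : ℝ := ∑ j, |v x j| / d.c.hs j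

lemma rel_cont {v : V → V} (hv : Continuous v) : Continuous (rel d v) := by
  unfold rel
  fun_prop

lemma rel_nonneg (hh : ∀ i, 0 < d.c.hs i) (v : V → V) (x : V) : 0 ≤ rel d v x :=
  Finset.sum_nonneg fun j _ => div_nonneg (abs_nonneg _) (hh j).le

lemma rel_le (hh : ∀ i, 0 < d.c.hs i) {v : V → V} {x : V} {e : ℝ}
    (h : ∀ j, |v x j| ≤ e * d.c.hs j) : rel d v x ≤ 3 * e := by
  refine (Finset.sum_le_sum (g := fun _ => e) fun j _ => (div_le_iff₀ (hh j)).2 (h j)).trans_eq ?_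
  simp

lemma amp (hρ : Rho d.ρ) (hh : ∀ i, 0 < d.c.hs i) (v : V → V) (x : V) (j : Fin 3) :
    |d.ρ x * v x j| ≤ 2 * (|v x j| / d.c.hs j) * d.c.hs j ∧ |v x j| / d.c.hs j ≤ rel d v x := by
  refine ⟨?_, Finset.single_le_sum (f := fun j => |v x j| / d.c.hs j)
    (fun j _ => div_nonneg (abs_nonneg _) (hh j).le) (Finset.mem_univ j)⟩
  rw [mul_assoc, div_mul_cancel₀ _ (hh j).ne', abs_mul]
  have := abs_le.1 (hρ.2 x)
  gcongr
  rw [abs_le]
  unfold eps0 at this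
  constructor <;> linarith

variable {v : V → V}

lemma comp_le (hρ : Rho d.ρ) (hh : ∀ i, 0 < d.c.hs i) (hv : Continuous v) {j : Fin 3}
    (K : KL h U (fun x => d.ρ x * v x j) A Z S) (e : h j = d.c.hs j ∨ ∀ x, v x j = 0) (z : V)
    {l : List (Fin 3)} (hl : l.length ≤ 3) : |hp h l * pds l (dens (fun x => d.ρ x * v x j) Z S) z| ≤
      h j * (2 * cst 3 * ∫ x in U, rel d v x * env h (Z x - z)) := by
  have h0 := K.hh j
  refine (rep K z hl (b := fun x => 2 * h j * rel d v x) (continuous_const.mul (rel_cont hv))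
    fun x => ?_).trans_eq ?_
  · rcases e with e | e
    · obtain ⟨h1, h2⟩ := amp hρ hh v x j
      rw [← e] at h1 h2
      refine h1.trans ?_
      rw [mul_right_comm]
      gcongr
    · have := rel_nonneg hh v x
      rw [e, mul_zero, abs_zero]
      positivity
  · simp only [mul_assoc, integral_const_mul]
    ring

lemma dv_le (hρ : Rho d.ρ) (hh : ∀ i, 0 < d.c.hs i) (hv : Continuous v) {S₀ : V → Mx} {A : V}
    (K : ∀ j, KL h U (fun x => d.ρ x * v x j) (A j) (fun x => d.Z x + s.U x) fun x => S₀ x - s.C x)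
    (e : ∀ j, h j = d.c.hs j ∨ ∀ x, v x j = 0) (z : V) (i : Fin 3) :
    |h i * pd i (dv (d.Fv S₀ s v)) z| ≤
      6 * cst 3 * ∫ x in U, rel d v x * env h (d.Z x + s.U x - z) := by
  have sm := fun j => (k1 _ _ _ (gk (K j))).1
  have e1 : pd i (dv (d.Fv S₀ s v)) z = ∑ j, -pds [i, j] (dens (fun x => d.ρ x * v x j)
      (fun x => d.Z x + s.U x) fun x => S₀ x - s.C x) z := by
    unfold dv MD.Fv
    rw [pd_sum _ fun j _ => Sm.pd (sm j).neg j]
    exact Finset.sum_congr rfl fun j _ => congrFun (pds_neg _ [i, j]) z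
  rw [e1, Finset.mul_sum]
  refine (Finset.abs_sum_le_sum_abs _ _).trans ((Finset.sum_le_sum
    (g := fun _ => 2 * cst 3 * ∫ x in U, rel d v x * env h (d.Z x + s.U x - z))
    fun j _ => ?_).trans_eq (by simp; ring))
  have h1 := comp_le hρ hh hv (K j) (e j) z (l := [i, j]) (by simp)
  have h2 := (K j).hh j
  rw [hp_cons, hp_cons, hp_nil, mul_one, mul_comm (h i), mul_assoc, abs_mul, abs_of_pos h2] at h1
  rw [mul_neg, abs_neg]
  exact le_of_mul_le_mul_left h1 h2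

/-- common shape of the three kinds of functionals -/
lemma shape (hN : Big d.c.N) (hI : d.In) {a : ℝ} {Λ : Fn} (hΛ : Λ ∈ d.FamO a)
    (hK : ∀ (a : V → ℝ) (A : ℝ), Measurable a → (∀ x, |a x| ≤ A) →
      (∀ x, x ∉ d.R (93 / 100) → a x = 0) →
      KL d.c.hs (d.R (99 / 100)) a A (fun x => d.Z x + s.U x) (fun x => d.S x - s.C x) ∧
      (∀ y', d.c.yrg y' → KL (d.c.hy y') (d.R (99 / 100)) a A (fun x => d.Z x + s.U x)
        (fun x => d.SR y' x - s.C x)) ∧
      KL (d.c.hy d.yL) (d.R (99 / 100)) a A (fun x => d.Z x + s.U x) (fun x => d.SL x - s.C x)) :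
    ∃ (h z : V) (κ : ℝ) (S : V → Mx), z 1 = a ∧ h 1 = d.c.lam ∧ 0 ≤ κ ∧ κ ≤ np d.c.N (29 / 100) ∧
      KL h (d.R (99 / 100)) 0 0 (fun x => d.Z x + s.U x) S ∧
      (κ ^ 2 * (np d.c.N (51 / 100) * d.c.lam / h 2) ≤ np d.c.N (-1 / 100) ∨ κ = 1 / d.c.q) ∧
      ∀ v ω, d.Cr 1 v ω → |Λ s v ω| ≤
        κ * (6 * cst 3) * ∫ x in d.R (99 / 100), rel d v x * env h (d.Z x + s.U x - z) := by
  have K0 := hK 0 0 measurable_zero (by simp) (by simp)
  have hh := K0.1.hh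
  have hl : 0 < d.c.lam := hh 1
  have hy : 0 < d.c.y := hh 2
  have c0 : 0 ≤ cst 3 := zero_le_one.trans (cst_one 3)
  have K : ∀ v ω, d.Cr 1 v ω → ∀ j, _ := fun v ω hv j =>
    hK (fun x => d.ρ x * v x j) (2 * d.c.q * d.c.hs j)
      (hI.rho.1.mul ((continuous_apply j).comp hv.sm.1.continuous).measurable)
      (fun x => (amp hI.rho hh v x j).1.trans (by
        have := (div_le_iff₀ (hh j)).2 (hv.sz x j)
        have := hh j
        gcongr
        linarith)) fun x hx => by rw [((hv.sup x).1 hx).1]; simp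
  have e : ∀ v ω, d.Cr 1 v ω → ∀ y' j, d.c.hy y' j = d.c.hs j ∨ ∀ x, v x j = 0 :=
    fun v ω hv y' j => by
      fin_cases j
      · exact Or.inl rfl
      · exact Or.inl rfl
      · exact Or.inr fun x => (hv.sup x).2
  have n1 : ∀ a, (np d.c.N a)⁻¹ = np d.c.N (-a) := fun a => (Real.rpow_neg hN.N_pos.le a).symm
  have n2 : np d.c.N (51 / 100) * d.c.lam / d.c.y = np d.c.N (-59 / 100) := by
    rw [Pm.y, mul_div_mul_right _ _ hl.ne', div_eq_mul_inv, n1, ← hN.np_add]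
    norm_num
  obtain ⟨z, i, hz, hi, ⟨l, hl3, rfl⟩ | ⟨y', hy', rfl⟩ | ⟨-, rfl⟩⟩ := hΛ
  · refine ⟨d.c.hs, z, np d.c.N (285 / 1000), _, hz, rfl, (hN.np_pos _).le, hN.np_le (by norm_num),
      K0.1, Or.inl ?_, fun v ω hv => ?_⟩
    · rw [show d.c.hs 2 = d.c.y from rfl, n2, sq, ← hN.np_add, ← hN.np_add]
      exact hN.np_le (by norm_num)
    · have h1 := comp_le hI.rho hh hv.sm.1.continuous (K v ω hv i).1 (Or.inl rfl) z hl3
      have h2 := hh i
      have h3 := hN.np_pos (285 / 1000)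
      have h4 : 0 ≤ ∫ x in d.R (99 / 100), rel d v x * env d.c.hs (d.Z x + s.U x - z) :=
        integral_nonneg fun x => mul_nonneg (rel_nonneg hh _ _) (env_nonneg hh _)
      simp only [MD.kB, MD.Fv, pds_neg]
      rw [neg_div, ← n1, abs_div, mul_neg, abs_neg, abs_of_pos (a := _⁻¹ * _) (by positivity),
        div_le_iff₀ (by positivity)]
      refine h1.trans ?_
      field_simp
      nlinarith [mul_nonneg c0 h4]
  · have K1 := K0.2.1 y' hy'
    have h1 : 0 < y' := K1.hh 2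
    have h2 : y' / d.c.y ≤ 1 := (div_le_one hy).2 (by linarith [hy'.2])
    have h3 := hN.np_pos (29 / 100)
    refine ⟨d.c.hy y', z, y' / d.c.y * np d.c.N (29 / 100), _, hz, rfl, by positivity,
      mul_le_of_le_one_left h3.le h2, K1, Or.inl ?_, fun v ω hv => ?_⟩
    · have h4 := hN.np_pos (-59 / 100)
      calc _ = y' / d.c.y * (np d.c.N (29 / 100) * np d.c.N (29 / 100) *
            (np d.c.N (51 / 100) * d.c.lam / d.c.y)) := by
            rw [show d.c.hy y' 2 = y' from rfl]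
            field_simp
        _ ≤ _ := by
            rw [n2, ← hN.np_add, ← hN.np_add]
            refine (mul_le_of_le_one_left (hN.np_pos _).le h2).trans_eq ?_
            norm_num
    · have h4 := dv_le hI.rho hh hv.sm.1.continuous (fun j => (K v ω hv j).2.1 y' hy') (e v ω hv y')
        z i
      have h5 : d.c.hy y' i = d.c.hs i := by fin_cases i <;> first | rfl | exact absurd rfl hi
      rw [h5] at h4
      simp only [MD.kR]
      rw [neg_div, ← n1, div_inv_eq_mul, mul_assoc (y' / d.c.y), mul_right_comm, abs_mul,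
        abs_of_pos (by positivity), mul_assoc (_ * _)]
      gcongr
  · have h1 : 0 < d.c.q := hN.q_pos
    refine ⟨d.c.hy d.yL, z, 1 / d.c.q, _, hz, rfl, by positivity, ?_, K0.2.2, Or.inr rfl,
      fun v ω hv => ?_⟩
    · refine ((div_le_one h1).2 (by linarith [hN.q_ge, show d.c.q = pq d.c.N from rfl])).trans ?_
      rw [← np_zero d.c.N]
      exact hN.np_le (by norm_num)
    · have h4 := dv_le hI.rho hh hv.sm.1.continuous (fun j => (K v ω hv j).2.2) (e v ω hv _) z i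
      have h5 : d.c.hy d.yL i = d.c.hs i := by fin_cases i <;> first | rfl | exact absurd rfl hi
      rw [h5] at h4
      simp only [MD.kV]
      rw [abs_div, abs_of_pos h1, mul_assoc, one_div_mul_eq_div]
      gcongr

end OpoP

open OpoP KB

theorem opo (hK : KlsStmt) (hC : ColkStmt) : OpoStmt := by
  obtain ⟨C, C1, hC⟩ := hC
  have c1 := cst_one 3
  filter_upwards [hK, ev_big,
    ev_CqJ_np (10 ^ 4 * (6 * cst 3) ^ 2 * 72 * C * 8192) (1 / 50) 0 (c := 1 / 100) (by norm_num),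
    ev_C_qp (3600 * 8192 * cst 3) (c := 99 / 100) (by norm_num),
    ev_CqJ_np 6 (1 / 100) 0 (c := 53 / 100) (by norm_num),
    ev_CqJ_np ((6 * cst 3 * (8192 * 4)) ^ 2) 0 0 (c := 25 / 100) (by norm_num)]
    with N hK hN e1 e2 e3 e4
  rintro d rfl hk hI s gs ι T Ψ Ψm om ce W sw a Λ hΛ
  simp only [Jp_zero, qp_zero, mul_one] at e1 e3 e4
  have hl : 0 < d.c.lam := div_pos hI.ok.2.2.2.2.2.1 (by positivity)
  obtain ⟨h, z, κ, S, rfl, h1, κ0, κ1, K, hκ, hb⟩ := shape hN hI hΛ (hK d rfl hk hI s (gw hN hl gs)).2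
  have hh := ((hK d rfl hk hI s (gw hN hl gs)).2 0 0 measurable_zero (by simp) (by simp)).1.hh
  obtain ⟨Bx, b1, b2⟩ := sw.dis
  have q0 := hN.qp_pos (1 / 100)
  have n0 := hN.np_pos (-47 / 100)
  have q1 : np d.c.N (-47 / 100) ≤ qp d.c.N (1 / 100) :=
    ((hN.np_le (by norm_num)).trans_eq (np_zero _)).trans
      ((qp_zero _).ge.trans (hN.qp_le (by norm_num)))
  have mc : ∀ t ∈ T, Continuous (rel d (Ψ t)) := fun t ht => rel_cont (sw.cr t ht).sm.1.continuous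
  have mz : ∀ t x, Ψ t x = 0 → rel d (Ψ t) x = 0 := fun t x h => by simp [rel, h]
  have mb : ∀ t ∈ T, ∀ x, rel d (Ψ t) x ≤ 6 * qp d.c.N (1 / 100) := fun t ht x => by
    refine (rel_le hh (e := 2 * qp d.c.N (1 / 100)) fun j => ?_).trans_eq (by ring)
    obtain ⟨h2, h3⟩ := (sw.win t ht).am x j
    have := abs_sub_abs_le_abs_sub (Ψ t x j) (Ψm t x j)
    nlinarith [hh j]
  have ex : ∀ x, Real.exp (-(∑ i, ((d.Z x + s.U x - z) i / h i) ^ 2) / 60) ≤ 1 := fun x =>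
    Real.exp_le_one_iff.2 (by
      have : 0 ≤ ∑ i, ((d.Z x + s.U x - z) i / h i) ^ 2 := by positivity
      linarith)
  have I0 : ∀ t ∈ T, 0 ≤ ∫ x in d.R (99 / 100), rel d (Ψ t) x * env h (d.Z x + s.U x - z) :=
    fun t _ => integral_nonneg fun x => mul_nonneg (rel_nonneg hh _ _) (env_nonneg K.hh _)
  have key : ∀ B, 0 ≤ B → (∀ t ∈ T, ∀ x, rel d (Ψ t) x *
      Real.exp (-(∑ i, ((d.Z x + s.U x - z) i / h i) ^ 2) / 60) ≤ B) →
      (∑ t ∈ T, ∫ x in d.R (99 / 100), rel d (Ψ t) x * env h (d.Z x + s.U x - z) ≤ 8192 * B) ∧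
      ∑ t ∈ T, Λ s (Ψ t) (om t) ^ 2 ≤ (κ * (6 * cst 3) * (8192 * B)) ^ 2 := fun B B0 hB => by
    have h2 := sum_le K z T mc B0 fun x _ => dis_sum B0
      (fun t ht hx => by rw [mz t x ((b1 t ht).2 x hx).1, zero_mul]) b2 fun t ht => hB t ht x
    exact ⟨h2, (sq_sum (by positivity) I0 (fun t ht => hb _ _ (sw.cr t ht))
      (fun t ht => (Finset.single_le_sum I0 ht).trans h2) h2).trans_eq (by ring)⟩
  split_ifs with hn
  · obtain ⟨h2, h3⟩ := key (6 * qp d.c.N (1 / 100)) (by positivity) fun t ht x =>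
      (mul_le_of_le_one_right (rel_nonneg hh _ _) (ex x)).trans (mb t ht x)
    rcases hκ with hκ | rfl
    · have h4 := K.hh 2
      have h5 := hN.np_pos (51 / 100)
      refine (sq_sum (P := 6 * qp d.c.N (1 / 100) * C * (2 * (np d.c.N (51 / 100) * d.c.lam) / h 2))
        (by positivity) I0 (fun t ht => hb _ _ (sw.cr t ht)) (fun t ht => ?_)
        h2).trans ?_
      · have w := (sw.win t ht).wd
        refine (slab_le K z (mc t ht) (by positivity) (mb t ht)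
          (fun x hx => (((sw.win t ht).sup x).2 fun h => hx (mz t x h)).2.2)
          (((hC h 0 0 K.hh contDiff_const (fun i _ => ⟨fun r => by simp, by
            linarith [K.hh i]⟩) (by norm_num)).2.2.2.2 _ _ z _ _ K.cx K.cl K.dZ K.bZ
            (by linarith [w.2.2.1])).2.2)).trans ?_
        gcongr
        exact w.2.2.2.2.2.1
      · have h6 : qp d.c.N (1 / 50) = qp d.c.N (1 / 100) * qp d.c.N (1 / 100) := by
          rw [← hN.qp_add]
          norm_num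
        have h7 : np d.c.N (-1 / 100) * np d.c.N (1 / 100) = 1 := by
          rw [← hN.np_add]
          norm_num [np_zero]
        have h8 := hN.np_pos (-1 / 100)
        calc _ = κ ^ 2 * (np d.c.N (51 / 100) * d.c.lam / h 2) *
              (10 ^ 4 * (6 * cst 3) ^ 2 * 72 * C * 8192 * qp d.c.N (1 / 50)) / 10 ^ 4 := by
              rw [h6]
              ring
          _ ≤ np d.c.N (-1 / 100) * np d.c.N (1 / 100) / 10 ^ 4 := by
              have := hN.qp_pos (1 / 50)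
              gcongr
          _ = _ := by rw [h7]
    · have h4 : 0 < d.c.q := hN.q_pos
      have h5 : qp d.c.N (99 / 100) * qp d.c.N (1 / 100) = d.c.q := by
        rw [← hN.qp_add]
        norm_num [qp_one, Pm.q]
      refine h3.trans ((pow_le_pow_left₀ (by positivity) (b := 1 / 100) ?_ 2).trans (by norm_num))
      rw [mul_assoc, one_div_mul_eq_div, div_le_iff₀ h4, ← h5]
      nlinarith [mul_le_mul_of_nonneg_right e2 q0.le]
  · have J0 := hN.J_pos
    have J1 : 60 ≤ pJ d.c.N := by linarith [hN.J_ge, hN.L_ge]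
    refine (key (4 * np d.c.N (-47 / 100)) (by positivity) fun t ht x => ?_).2.trans ?_
    · by_cases hx : Ψm t x = 0
      · refine (mul_le_of_le_one_right (rel_nonneg hh _ _) (ex x)).trans
          ((rel_le hh (e := np d.c.N (-47 / 100)) fun j => ?_).trans (by linarith))
        simpa [hx] using ((sw.win t ht).am x j).2
      · have h2 : d.c.J ^ 22 * d.c.lam < |d.Z x 1 - z 1| := not_le.1 fun h => hn ⟨t, ht, x, hx, h⟩
        have h3 : |s.U x 1| ≤ d.c.J * d.c.lam := ((gs.ub x).1 1).trans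
          (mul_le_mul_of_nonneg_right (Real.sqrt_le_iff.2 ⟨J0.le, by
            rw [sq]; exact mul_le_mul_of_nonneg_right hN.q_le_J J0.le⟩) hl.le)
        have h4 : 2 * d.c.J ≤ d.c.J ^ 22 := by
          have : d.c.J ^ 2 ≤ d.c.J ^ 22 :=
            pow_le_pow_right₀ (by linarith [show d.c.J = pJ d.c.N from rfl]) (by norm_num)
          nlinarith [show d.c.J = pJ d.c.N from rfl]
        have h5 : d.c.J ≤ |(d.Z x + s.U x - z) 1 / h 1| := by
          have := abs_add_le (d.Z x 1 + s.U x 1 - z 1) (-s.U x 1)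
          rw [abs_neg, show d.Z x 1 + s.U x 1 - z 1 + -s.U x 1 = d.Z x 1 - z 1 by ring] at this
          rw [h1, abs_div, abs_of_pos hl, le_div_iff₀ hl, Pi.sub_apply, Pi.add_apply]
          nlinarith
        have h6 : Real.exp (-(∑ i, ((d.Z x + s.U x - z) i / h i) ^ 2) / 60) ≤ np d.c.N (-1) := by
          rw [hN.np_eq, Real.exp_le_exp, Fin.sum_univ_three]
          have h7 := pow_le_pow_left₀ J0.le h5 2
          rw [sq_abs] at h7
          nlinarith [sq_nonneg ((d.Z x + s.U x - z) 0 / h 0),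
            sq_nonneg ((d.Z x + s.U x - z) 2 / h 2)]
        have h7 : np d.c.N (53 / 100) * np d.c.N (-1) = np d.c.N (-47 / 100) := by
          rw [← hN.np_add]
          norm_num
        exact (mul_le_mul ((mb t ht x).trans e3) h6 (Real.exp_pos _).le (hN.np_pos _).le).trans
          (by linarith)
    · have h2 : np d.c.N (25 / 100) * (np d.c.N (29 / 100) * np d.c.N (-47 / 100)) ^ 2 =
          np d.c.N (-11 / 100) := by
        rw [sq, ← hN.np_add, ← hN.np_add, ← hN.np_add]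
        norm_num
      calc _ = (6 * cst 3 * (8192 * 4)) ^ 2 * (κ * np d.c.N (-47 / 100)) ^ 2 := by ring
        _ ≤ _ := by
            rw [← h2]
            have := hN.np_pos (25 / 100)
            gcongr

end
end Pool.Agent.MP_20bec2_an.T3

end MrgPart1

-- ======== part 2: formerly Pool.Agent.MP_20bec2_an.T3.Push
section MrgPart2

/-! The map of a block pushes the density close to the volume. -/

set_option autoImplicit false
open MeasureTheory Set Filter Matrix Topology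

namespace Pool.Agent.MP_20bec2_an.T3
noncomputable section
open Classical

namespace Push

lemma one {k k' : V × V → ℝ} {ρ b : V → ℝ} (mk : Measurable k') (k0 : ∀ p, 0 ≤ k' p)
    (k1 : ∀ p, k' p ≤ k p) (mk1 : Measurable k) (ix : ∀ x, Integrable fun z => k (x, z))
    (ex : ∀ x, ∫ z, k (x, z) = ρ x) (mb : Measurable b) (ib : Integrable fun x => |b x| * ρ x) :
    Integrable (fun p : V × V => b p.1 * k' p) (volume.prod volume) ∧
      ∫ p : V × V, b p.1 * k' p ∂(volume.prod volume) = ∫ x, b x * ∫ z, k' (x, z) := by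
  have i1 : Integrable (fun p : V × V => |b p.1| * k p) (volume.prod volume) := by
    refine (integrable_prod_iff ((mb.comp measurable_fst).abs.mul mk1).aestronglyMeasurable).2
      ⟨ae_of_all _ fun x => (ix x).const_mul |b x|, ib.congr (ae_of_all _ fun x => ?_)⟩
    show |b x| * ρ x = ∫ z, ‖|b x| * k (x, z)‖
    rw [← ex, ← integral_const_mul]
    refine integral_congr_ae (ae_of_all _ fun z => ?_)
    exact (Real.norm_of_nonneg (mul_nonneg (abs_nonneg _) ((k0 _).trans (k1 _)))).symm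
  have i2 : Integrable (fun p : V × V => b p.1 * k' p) (volume.prod volume) :=
    i1.mono' ((mb.comp measurable_fst).mul mk).aestronglyMeasurable (ae_of_all _ fun p => by
      rw [Real.norm_eq_abs, abs_mul, abs_of_nonneg (k0 p)]
      exact mul_le_mul_of_nonneg_left (k1 p) (abs_nonneg _))
  refine ⟨i2, ?_⟩
  rw [integral_prod _ i2]
  simp only [integral_const_mul]

lemma two {k k' : V × V → ℝ} {d b : V → ℝ} (mk : Measurable k') (k0 : ∀ p, 0 ≤ k' p)
    (k1 : ∀ p, k' p ≤ k p) (mk1 : Measurable k) (iz : ∀ z, Integrable fun x => k (x, z))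
    (ez : ∀ z, ∫ x, k (x, z) = d z) (mb : Measurable b) (ib : Integrable fun z => |b z| * d z) :
    Integrable (fun p : V × V => b p.2 * k' p) (volume.prod volume) ∧
      ∫ p : V × V, b p.2 * k' p ∂(volume.prod volume) = ∫ z, b z * ∫ x, k' (x, z) := by
  obtain ⟨h1, h2⟩ := one (k := fun p => k p.swap) (k' := fun p => k' p.swap)
    (mk.comp measurable_swap) (fun _ => k0 _) (fun _ => k1 _) (mk1.comp measurable_swap) iz ez mb ib
  exact ⟨h1.swap, (integral_prod_swap fun p : V × V => b p.2 * k' p).symm.trans h2⟩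

lemma tail {b m ρ : V → ℝ} {τ : ℝ} (im : Integrable fun x => |b x| * m x)
    (ib : Integrable fun x => |b x| * ρ x) (h : ∀ x, m x ≤ τ * ρ x) :
    ∫ x, |b x| * m x ≤ τ * ∫ x, |b x| * ρ x := by
  rw [← integral_const_mul]
  refine integral_mono im (ib.const_mul τ) fun x => ?_
  show _ ≤ τ * (|b x| * ρ x)
  rw [mul_left_comm]
  exact mul_le_mul_of_nonneg_left (h x) (abs_nonneg _)

/-- near pairs and far pairs of a coupling -/
lemma split {k : V × V → ℝ} {ρ d a ψ χ : V → ℝ} {far : Set (V × V)} {τ : ℝ}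
    (mk : Measurable k) (k0 : ∀ p, 0 ≤ k p) (mf : MeasurableSet far)
    (ix : ∀ x, Integrable fun z => k (x, z)) (ex : ∀ x, ∫ z, k (x, z) = ρ x)
    (iz : ∀ z, Integrable fun x => k (x, z)) (ez : ∀ z, ∫ x, k (x, z) = d z)
    (ma : Measurable a) (mψ : Measurable ψ) (mχ : Measurable χ) (χ0 : ∀ z, 0 ≤ χ z)
    (ia : Integrable fun x => |a x| * ρ x) (iψ : Integrable fun z => |ψ z| * d z)
    (iχ : Integrable fun z => |χ z| * d z) (hn : ∀ p, p ∉ far → |a p.1 - ψ p.2| ≤ χ p.2)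
    (fx : ∀ x, ∫ z, far.indicator k (x, z) ≤ τ * ρ x)
    (fz : ∀ z, ∫ x, far.indicator k (x, z) ≤ τ * d z) :
    |(∫ x, a x * ρ x) - ∫ z, ψ z * d z| ≤
      (∫ z, χ z * d z) + τ * (∫ x, |a x| * ρ x) + τ * ∫ z, |ψ z| * d z := by
  have f0 : ∀ p, 0 ≤ far.indicator k p := fun p => indicator_nonneg (fun q _ => k0 q) p
  have f1 : ∀ p, far.indicator k p ≤ k p := fun p => indicator_le_self' (fun q _ => k0 q) p
  obtain ⟨a1, a2⟩ := one mk k0 (fun _ => le_rfl) mk ix ex ma ia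
  obtain ⟨b1, b2⟩ := two mk k0 (fun _ => le_rfl) mk iz ez mψ iψ
  obtain ⟨c1, c2⟩ := two mk k0 (fun _ => le_rfl) mk iz ez mχ iχ
  obtain ⟨d1, d2⟩ := one (mk.indicator mf) f0 f1 mk ix ex ma.abs (by simpa only [abs_abs] using ia)
  obtain ⟨e1, e2⟩ := two (mk.indicator mf) f0 f1 mk iz ez mψ.abs (by simpa only [abs_abs] using iψ)
  simp only [ex, ez] at a2 b2 c2
  have d3 := tail (by simpa only [integral_const_mul] using d1.integral_prod_left) ia fx
  have e3 := tail (by simpa only [integral_const_mul] using e1.integral_prod_right) iψ fz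
  have h := norm_integral_le_of_norm_le (f := fun p : V × V => a p.1 * k p - ψ p.2 * k p)
    ((c1.add d1).add e1) (ae_of_all _ fun p => by
      show _ ≤ χ p.2 * k p + |a p.1| * far.indicator k p + |ψ p.2| * far.indicator k p
      rw [← sub_mul, Real.norm_eq_abs, abs_mul, abs_of_nonneg (k0 p)]
      by_cases hp : p ∈ far
      · rw [indicator_of_mem hp]
        have := mul_le_mul_of_nonneg_right (abs_sub (a p.1) (ψ p.2)) (k0 p)
        linarith [mul_nonneg (χ0 p.2) (k0 p)]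
      · rw [indicator_of_notMem hp]
        linarith [mul_le_mul_of_nonneg_right (hn p hp) (k0 p)])
  rw [integral_sub a1 b1, integral_add' (c1.add d1) e1, integral_add' c1 d1, a2, b2, c2, d2, e2,
    Real.norm_eq_abs] at h
  linarith

lemma ker_tail {S : Mx} (hd : 0 < S.det) {w : V} {r : ℝ} (h : r ≤ w ⬝ᵥ (S⁻¹ *ᵥ w)) :
    ker S w ≤ 3 * Real.exp (-(r / 4)) * ker ((2 : ℝ) • S) w := by
  have e1 : ((2 : ℝ) • S)⁻¹ = (1 / 2 : ℝ) • S⁻¹ := inv_eq_left_inv (by
    rw [Matrix.smul_mul, Matrix.mul_smul, nonsing_inv_mul _ hd.ne'.isUnit, smul_smul]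
    norm_num)
  have p : 0 < (2 * Real.pi) ^ 3 * S.det := by positivity
  have e2 : √((2 * Real.pi) ^ 3 * ((2 : ℝ) • S).det) ≤ 3 * √((2 * Real.pi) ^ 3 * S.det) := by
    rw [det_smul, Fintype.card_fin]
    refine Real.sqrt_le_iff.2 ⟨by positivity, ?_⟩
    rw [mul_pow 3, Real.sq_sqrt p.le]
    linarith
  have p2 : 0 < √((2 * Real.pi) ^ 3 * ((2 : ℝ) • S).det) := by
    rw [det_smul]
    positivity
  unfold ker
  rw [e1, smul_mulVec, dotProduct_smul, smul_eq_mul, ← mul_div_assoc, mul_assoc, ← Real.exp_add,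
    div_le_div_iff₀ (Real.sqrt_pos.2 p) p2]
  refine (mul_le_mul (Real.exp_le_exp.2 (show _ ≤ -(r / 4) + -(1 / 2 * w ⬝ᵥ (S⁻¹ *ᵥ w)) / 2 by
    linarith)) e2 p2.le (Real.exp_pos _).le).trans_eq (by ring)

lemma form_eq {F : Fr} (hQ : F.Q.det ≠ 0) (S : Mx) (u : V) :
    (F.Q⁻¹ *ᵥ u) ⬝ᵥ ((F.cv1 S)⁻¹ *ᵥ (F.Q⁻¹ *ᵥ u)) = u ⬝ᵥ (S⁻¹ *ᵥ u) := by
  have e1 : (F.cv1 S)⁻¹ = F.Qᵀ * S⁻¹ * F.Qᵀᵀ := by
    rw [Fr.cv1, Matrix.mul_inv_rev, Matrix.mul_inv_rev, ← transpose_nonsing_inv,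
      nonsing_inv_nonsing_inv _ hQ.isUnit, transpose_transpose, Matrix.mul_assoc]
  rw [e1, K3.dot_conj, transpose_transpose, Prof.q_inv_vec hQ]

lemma exp_small {N a : ℝ} (h : N + 100 ≤ a) : Real.exp (-a) ≤ Real.exp (-N) / 100 := by
  rw [le_div_iff₀ (by norm_num), show -N = -a + (a - N) by ring, Real.exp_add]
  exact mul_le_mul_of_nonneg_left (by linarith [Real.add_one_le_exp (a - N)]) (Real.exp_pos _).le

lemma cpre {f : V → V} (sf : Sm f) (bf : Function.Bijective f) (hj : ∀ z, jac f z ≠ 0) (r : ℝ) :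
    IsCompact (f ⁻¹' Metric.closedBall 0 r) := by
  rw [← image_eq_preimage_of_inverse (Function.rightInverse_invFun bf.2)
    (Function.leftInverse_invFun bf.1)]
  exact (isCompact_closedBall 0 r).image (inv_ f sf bf hj).1.continuous

lemma int_comp {f : V → V} (sf : Sm f) (bf : Function.Bijective f) (hj : ∀ z, jac f z ≠ 0)
    {φ : V → ℝ} (hφ : Continuous φ) {r : ℝ} (h : ∀ y, r < ‖y‖ → φ y = 0) :
    Integrable fun z => |φ (f z)| * |jac f z| := by
  refine ((hφ.comp sf.continuous).abs.mul sf.jac.continuous.abs).integrable_of_hasCompactSupport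
    (HasCompactSupport.intro (cpre sf bf hj r) fun z hz => ?_)
  rw [mem_preimage, mem_closedBall_zero_iff, not_le] at hz
  simp [h _ hz]

variable {B : Bk} {ρ : V → ℝ}

lemma N_ge (hN : Big B.N) : (3000 : ℝ) ≤ B.N := by linarith [hN.N_ge, hN.J_ge, hN.L_ge]

lemma near (hN : Big B.N) (hG : B.G)
    (hl : ∀ x y, ‖B.F x - B.F y‖ ≤ 1000 * B.N * ‖x - y‖) {g : Cu} {x y : V}
    (hx : x ∈ B.bx g (1 / 2)) (hy : y ∈ B.bx g (12 / 5)) :
    ‖B.F x - B.F y‖ ≤ (B.N : ℝ) ^ 6 * B.lb := by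
  have h1 : ‖x - cen B.D g‖ ≤ 1 / 2 * B.D := hx
  have h2 : ‖y - cen B.D g‖ ≤ 12 / 5 * B.D := hy
  have h3 := norm_sub_le_norm_sub_add_norm_sub x (cen B.D g) y
  rw [norm_sub_rev (cen B.D g)] at h3
  have h4 := Lip.D_pos hN hG
  have h5 := hN.N_pos
  have h6 := mul_le_mul_of_nonneg_right (N_ge hN) (mul_pos h5 h4).le
  have e : (B.N : ℝ) ^ 6 * B.lb = B.N * (B.N * B.D) := by
    rw [Bk.D, Dd]
    ring
  refine (hl x y).trans ((mul_le_mul_of_nonneg_left (show _ ≤ 3 * B.D by linarith)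
    (by positivity)).trans ?_)
  rw [e]
  linarith

lemma hy_bd (hN : Big B.N) (hG : B.G) (g : Cu) (i : Fin 3) :
    0 < (B.c g 0).hy (B.yk 0) i ∧ (B.c g 0).hy (B.yk 0) i ≤ np B.N (3 / 2) * B.lb := by
  have G := Lip.gd hN hG g
  have a : ∀ a : ℝ, a ≤ 3 / 2 → np B.N a * (B.c g 0).lam ≤ np B.N (3 / 2) * B.lb := fun a ha =>
    mul_le_mul (hN.np_le ha) G.lam_le_lb G.lam_pos.le (hN.np_pos _).le
  fin_cases i
  · exact ⟨G.l1_pos, le_trans (mul_le_mul_of_nonneg_right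
      (G.ro_le.trans_eq (Real.sqrt_eq_rpow _)) G.lam_pos.le) (a (1 / 2) (by norm_num))⟩
  · refine ⟨G.lam_pos, le_trans ?_ (a 0 (by norm_num))⟩
    rw [np_zero, one_mul]
    rfl
  · exact ⟨G.y_pos, a _ (by norm_num)⟩

/-- far pairs are far in the metric of the covariance -/
lemma far_form (hN : Big B.N) (hG : B.G) {S : V → Mx} (K : B.KS 0 B.Z0 S (B.yk 0))
    (hl : ∀ x y, ‖B.F x - B.F y‖ ≤ 1000 * B.N * ‖x - y‖) {x z : V}
    (h : (B.N : ℝ) ^ 6 * B.lb < ‖B.F x - B.f0 z‖) :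
    8 * (B.N : ℝ) ≤ (B.Z0 x - z) ⬝ᵥ ((S x)⁻¹ *ᵥ (B.Z0 x - z)) := by
  have hD := Lip.D_pos hN hG
  obtain ⟨g, hx⟩ := Prof.exists_box hD x
  obtain ⟨h0, hO, hQ, -⟩ := hG.fx g
  have hP := (K.bd g _ (Lip.R_mono hN hG (by norm_num) ((Lip.xc_mem hG).2 hx))).2.2
  rw [Fr.cov, Bij.xp_xc hO] at hP
  have h1 : ¬ (B.fr g).zc z ∈ B.R g (12 / 5 - 1 / 2000) := fun hz => by
    obtain ⟨x2, m2, e2⟩ := (bij.2 (B.fr g).O B.D (12 / 5) (1 / 2000) ((B.fr g).hat B.Z0) hO hD
      (by norm_num) (by norm_num) ((Prof.hat_sm _ hG.sm).of_le (by exact_mod_cast le_top))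
      fun y hy => ⟨(hG.nr g y hy).1, (hG.nr g y hy).2.trans_eq (by rw [Bk.D]; ring)⟩).2 _ hz
    have e3 : B.Z0 ((B.fr g).xp x2) = z := Bij.zc_inj hQ e2
    have := near hN hG hl hx ((Prof.xp_mem_box h0).2 m2)
    rw [← e3] at h
    exact absurd h (not_lt.2 this)
  rw [← form_eq hQ.ne', ← Prof.zc_sub]
  set w := (B.fr g).zc (B.Z0 x) - (B.fr g).zc z with hw
  have h2 : B.D ≤ ‖(B.fr g).O *ᵥ w‖ := by
    have a1 : ‖(B.fr g).O *ᵥ (B.fr g).zc (B.Z0 x)‖ ≤ 51 / 100 * B.D := Lip.zc_mem hN hG hx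
    have a2 : (12 / 5 - 1 / 2000) * B.D < ‖(B.fr g).O *ᵥ (B.fr g).zc z‖ := not_le.1 h1
    have a3 := norm_sub_norm_le ((B.fr g).O *ᵥ (B.fr g).zc z) ((B.fr g).O *ᵥ (B.fr g).zc (B.Z0 x))
    rw [norm_sub_rev, ← mulVec_sub] at a3
    linarith
  have h3 := (pow_le_pow_left₀ hD.le h2 2).trans (K3.sq_le_dot _)
  rw [Prof.orth_dot hO] at h3
  have h4 := KB.pd_form (fun i => (hy_bd hN hG g i).1) hP w
  have h5 : w ⬝ᵥ w ≤ (np B.N (3 / 2) * B.lb) ^ 2 * ∑ i, (w i / (B.c g 0).hy (B.yk 0) i) ^ 2 := by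
    rw [dotProduct, Finset.mul_sum]
    refine Finset.sum_le_sum fun i _ => ?_
    obtain ⟨b1, b2⟩ := hy_bd hN hG g i
    rw [div_pow, ← mul_div_assoc, le_div_iff₀ (by positivity), ← sq, mul_comm]
    exact mul_le_mul_of_nonneg_right (pow_le_pow_left₀ b1.le b2 2) (sq_nonneg _)
  have e : np B.N (3 / 2) ^ 2 = (B.N : ℝ) ^ 3 := by
    rw [sq, ← hN.np_add, ← np_nat]
    norm_num
  have e2 : B.D ^ 2 = (np B.N (3 / 2) * B.lb) ^ 2 * (B.N : ℝ) ^ 5 := by
    rw [mul_pow, e, Bk.D, Dd]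
    ring
  have l0 : 0 < B.lb := (Lip.gd hN hG g).lb_pos
  have h6 := le_of_mul_le_mul_left (e2 ▸ h3.trans h5) (pow_pos (mul_pos (hN.np_pos _) l0) 2)
  have h7 : (B.N : ℝ) ^ 2 ≤ (B.N : ℝ) ^ 5 := pow_le_pow_right₀ (by linarith [N_ge hN]) (by norm_num)
  nlinarith [N_ge hN]

lemma loc (hN : Big B.N) (hG : B.G) {s : St} (h : B.Inv ρ 0 0 s) (z : V) :
    ∃ x g, B.Z0 x = z ∧ x ∈ B.bx g (1 / 2) ∧ 99 / 100 ≤ (B.fr g).Q.det * jac B.f0 z := by
  obtain ⟨-, -, sf, -, hM⟩ := Lip.start h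
  obtain ⟨x, rfl⟩ := hG.bij.2 z
  obtain ⟨g, hx⟩ := Prof.exists_box (Lip.D_pos hN hG) x
  have hm := hM g _ (Lip.R_mono hN hG (by norm_num) (Lip.zc_mem hN hG hx))
  rw [(K3.p4 _ sf.dif _).2, Fr.den, Lip.zp_zc (hG.fx g).2.2.1] at hm
  exact ⟨x, g, rfl, hx, by linarith [(abs_le.1 hm).1]⟩

end Push

open Push in
theorem push (hg : KgStmt) (hk : KsdStmt) (hl : LipStmt) : PushStmt := by
  filter_upwards [ev_big, hg, hk, hl] with N hN hg hk hl B hB ρ hρ hs φ Rr δ ε cφ R0 ε0 hR hδ hε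
  subst hB
  obtain ⟨bF, lp⟩ := hl B rfl ρ hs
  obtain ⟨ho, s, hs⟩ := hs
  have hG : B.G := ho.geo
  have hN3 := N_ge hN
  obtain ⟨e1, e2, sf, bf, -⟩ := Lip.start hs
  have K := (hk B rfl ρ 0 0 s ho.toOk0 (by have := hN.nm_pos; unfold nb; omega) (by norm_num)
    ⟨hs.il, hs.iz, hs.ip, hs.is, hs.iq⟩).1
  have ej := hs.iF.smf.2.2
  rw [e2] at K ej
  rw [e1] at ej
  replace hg := hg B rfl 0 _ _ _ hG (Nat.zero_le _) K
  have ρb : ∀ x, 1 / 2 ≤ ρ x ∧ ρ x ≤ 2 := fun x => by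
    have := abs_le.1 (hρ.2 x)
    unfold eps0 at this
    constructor <;> linarith [this.1, this.2]
  have ρ0 : ∀ x, 0 < ρ x := fun x => by linarith [(ρb x).1]
  have ρa : ∀ x, |ρ x| ≤ 2 := fun x => by rw [abs_of_pos (ρ0 x)]; exact (ρb x).2
  have gk := (hg ρ 2 hρ.1 ρa).1
  obtain ⟨c, C, c0, hc⟩ := gk.2.2.2
  have hS := fun x => ((hc x).2 (ρ0 x).ne').2
  have k41 := fun x => (k4 k1).1 (s.Sg x) c c0 (hS x).1 fun v => ((hS x).2 v).1
  have k42 := fun x => (k4 k1).1 ((2 : ℝ) • s.Sg x) c c0 (by rw [transpose_smul, (hS x).1])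
    fun v => by
      rw [smul_mulVec, dotProduct_smul, smul_eq_mul]
      linarith [((hS x).2 v).1, mul_nonneg c0.le ((sq_nonneg _).trans (K3.sq_le_dot v))]
  have j0 : ∀ z, 0 < jac B.f0 z := fun z => by
    obtain ⟨x, g, -, -, h⟩ := loc hN hG hs z
    exact (mul_pos_iff_of_pos_left (hG.fx g).2.2.1).1 (by linarith)
  have ja : ∀ z, |jac B.f0 z| = jac B.f0 z := fun z => abs_of_pos (j0 z)
  have jF := fun x => (Lip.point hN ho.toOk0 hs x).2.2
  have jF0 : ∀ x, jac B.F x ≠ 0 := fun x => by linarith [jF x]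
  have sF : Sm B.F := sf.comp hG.sm
  have cv0 := (inv_ B.f0 sf bf fun z => (j0 z).ne').2.2.2.2
  have cvF := (inv_ B.F sF bF jF0).2.2.2.2
  have iF := int_comp sF bF jF0 cφ hR
  have i0 := int_comp sf bf (fun z => (j0 z).ne') cφ hR
  simp only [ja] at cv0 i0
  have δ0 : 0 ≤ δ := le_trans (mul_pos (pow_pos hN.N_pos 6) (Lip.gd hN hG 0).lb_pos).le hδ
  have hle : ∀ x, |φ (B.F x)| * ρ x ≤ 3 * (|φ (B.F x)| * |jac B.F x|) := fun x => by
    rw [mul_left_comm]
    exact mul_le_mul_of_nonneg_left (by linarith [(ρb x).2, jF x, le_abs_self (jac B.F x)])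
      (abs_nonneg _)
  have ia : Integrable fun x => |φ (B.F x)| * ρ x :=
    (iF.const_mul 3).mono' ((cφ.comp sF.continuous).abs.measurable.mul hρ.1).aestronglyMeasurable
      (ae_of_all _ fun x => by
        rw [Real.norm_of_nonneg (mul_nonneg (abs_nonneg _) (ρ0 x).le)]
        exact hle x)
  have t0 := Real.exp_pos (-(B.N : ℝ))
  have main := split (k := fun p => ρ p.1 * ker (s.Sg p.1) (B.Z0 p.1 - p.2)) (ρ := ρ)
    (d := jac B.f0) (a := fun x => φ (B.F x)) (ψ := fun z => φ (B.f0 z))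
    (χ := fun z => (Metric.closedBall (0 : V) (Rr + δ)).indicator (fun _ => ε) (B.f0 z))
    (far := {p | δ < ‖B.F p.1 - B.f0 p.2‖}) (τ := Real.exp (-(B.N : ℝ)) / 10)
    ((hρ.1.comp measurable_fst).mul (K3.meas_ker
      ((continuous_matrix K.cS).comp continuous_fst)
      ((hG.sm.continuous.comp continuous_fst).sub continuous_snd)))
    (fun p => mul_nonneg (ρ0 _).le ((k41 _).1 _).le)
    (isOpen_lt continuous_const ((sF.continuous.comp continuous_fst).sub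
      (sf.continuous.comp continuous_snd)).norm).measurableSet
    (fun x => ((k41 x).2.1.comp_sub_left (B.Z0 x)).const_mul (ρ x))
    (fun x => by
      show ∫ z, ρ x * ker (s.Sg x) (B.Z0 x - z) = ρ x
      rw [integral_const_mul, integral_sub_left_eq_self, (k41 x).2.2.1, mul_one])
    (k1 _ _ _ gk).2.1 (fun z => (ej z).symm) (cφ.comp sF.continuous).measurable
    (cφ.comp sf.continuous).measurable
    ((measurable_const.indicator measurableSet_closedBall).comp sf.continuous.measurable)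
    (fun z => indicator_nonneg (fun _ _ => ε0) _) ia i0 ?_ ?_ ?_ ?_
  · have a1 := integral_mono ia (iF.const_mul 3) hle
    rw [integral_const_mul, cvF fun y => |φ y|] at a1
    rw [cv0 φ, cv0 fun y => |φ y|, cv0, integral_indicator measurableSet_closedBall,
      setIntegral_const, Measure.real, Real.volume_pi_closedBall _ (by linarith), Fintype.card_fin,
      ENNReal.toReal_ofReal (by positivity), smul_eq_mul] at main
    have a2 : 0 ≤ ∫ y, |φ y| := integral_nonneg fun _ => abs_nonneg _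
    simp only [mul_comm (ρ _)]
    nlinarith [mul_le_mul_of_nonneg_left a1 t0.le, mul_nonneg t0.le a2]
  · have a1 := cpre sf bf (fun z => (j0 z).ne') (Rr + δ)
    refine ((integrable_indicator_iff a1.measurableSet).2 (ContinuousOn.integrableOn_compact a1
      ((continuous_const (y := ε)).mul sf.jac.continuous).continuousOn)).congr
      (ae_of_all _ fun z => ?_)
    by_cases hz : B.f0 z ∈ Metric.closedBall (0 : V) (Rr + δ)
    · simp [hz, abs_of_nonneg ε0]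
    · simp [hz]
  · intro p hp
    have h1 : ‖B.F p.1 - B.f0 p.2‖ ≤ δ := not_lt.1 hp
    by_cases hz : B.f0 p.2 ∈ Metric.closedBall (0 : V) (Rr + δ)
    · simpa only [indicator_of_mem hz] using hε _ _ h1
    · have h2 := not_le.1 (mem_closedBall_zero_iff.not.1 hz)
      have h3 := norm_sub_norm_le (B.f0 p.2) (B.F p.1)
      rw [norm_sub_rev] at h3
      simp [hz, hR (B.F p.1) (by linarith), hR (B.f0 p.2) (by linarith)]
  · intro x
    have hd : 0 < (s.Sg x).det := (K1.posDef c0 (hS x).1 fun v => ((hS x).2 v).1).det_pos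
    refine (integral_mono_of_nonneg (g := fun z => ρ x * (3 * Real.exp (-(8 * (B.N : ℝ) / 4)) *
      ker ((2 : ℝ) • s.Sg x) (B.Z0 x - z))) (ae_of_all _ fun z => indicator_nonneg
        (fun p _ => mul_nonneg (ρ0 _).le ((k41 _).1 _).le) _)
      ((((k42 x).2.1.comp_sub_left _).const_mul _).const_mul _) (ae_of_all _ fun z => ?_)).trans ?_
    · refine indicator_apply_le' (fun hz => ?_) fun _ => ?_
      · exact mul_le_mul_of_nonneg_left (ker_tail hd (far_form hN hG K (fun x y => (lp x y).1)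
          (hδ.trans_lt hz))) (ρ0 x).le
      · exact mul_nonneg (ρ0 x).le (mul_nonneg (by positivity) ((k42 x).1 _).le)
    · rw [integral_const_mul, integral_const_mul, integral_sub_left_eq_self, (k42 x).2.2.1, mul_one,
        mul_comm]
      exact mul_le_mul_of_nonneg_right
        (by linarith [exp_small (show (B.N : ℝ) + 100 ≤ 8 * B.N / 4 by linarith)]) (ρ0 x).le
  · intro z
    obtain ⟨x', g, rfl, hx, h⟩ := loc hN hG hs z
    obtain ⟨h0, hO, hQ, -⟩ := hG.fx g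
    have mb : MeasurableSet (B.bx g (99 / 100))ᶜ := (Prof.box_closed _ _ _).measurableSet.compl
    have b0 : ∀ x, 0 ≤ (B.bx g (99 / 100))ᶜ.indicator ρ x := indicator_nonneg fun x _ => (ρ0 x).le
    have gb := (hg _ 2 (hρ.1.indicator mb) fun x => by
      rw [abs_of_nonneg (b0 x)]
      exact (indicator_le_self' (fun y _ => (ρ0 y).le) x).trans (ρb x).2).1
    refine (integral_mono_of_nonneg (ae_of_all _ fun x => indicator_nonneg
        (fun p _ => mul_nonneg (ρ0 _).le ((k41 _).1 _).le) _) ((k1 _ _ _ gb).2.1 (B.Z0 x'))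
      (ae_of_all _ fun x => ?_)).trans ?_
    · refine indicator_apply_le' (fun hz => ?_) fun _ => mul_nonneg (b0 x) ((k41 x).1 _).le
      show ρ x * _ ≤ (B.bx g (99 / 100))ᶜ.indicator ρ x * _
      rw [indicator_of_mem (s := (B.bx g (99 / 100))ᶜ) fun hb => ?_]
      have := near hN hG (fun x y => (lp x y).1) hx
        (Prof.box_mono (Lip.D_pos hN hG).le (by norm_num) g hb)
      rw [norm_sub_rev] at this
      exact absurd hz (not_lt.2 (this.trans hδ))
    · have a1 := ((hg ((B.fr g).sc ρ) 2 (hρ.1.comp (K3.cont_xp _).measurable) fun x => ρa _).2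
        g).2.2.1 [] (Nat.zero_le _) _ (Lip.R_mono hN hG (by norm_num) (Lip.zc_mem hN hG hx))
      have e : (B.R g (99 / 100))ᶜ.indicator ((B.fr g).sc ρ) =
          (B.fr g).sc ((B.bx g (99 / 100))ᶜ.indicator ρ) := by
        funext x
        have := Prof.xp_mem_box (D := B.D) (r := 99 / 100) h0 (x := x)
        by_cases hb : x ∈ B.R g (99 / 100)
        · rw [indicator_of_notMem (not_not.2 hb), Fr.sc,
            indicator_of_notMem (s := (B.bx g (99 / 100))ᶜ) (not_not.2 (this.2 hb))]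
        · rw [indicator_of_mem (s := (B.R g (99 / 100))ᶜ) hb, Fr.sc, Fr.sc,
            indicator_of_mem (s := (B.bx g (99 / 100))ᶜ) fun h' => hb (this.1 h')]
      rw [e, ← K3.p1 _ hO hQ] at a1
      simp only [hp, List.map_nil, List.prod_nil, one_mul, pds, Fr.den, Lip.zp_zc hQ] at a1
      have a2 := exp_small (show (B.N : ℝ) + 100 ≤ (B.N : ℝ) ^ 3 by nlinarith [sq_nonneg (B.N : ℝ)])
      refine le_of_mul_le_mul_left ((le_abs_self _).trans (a1.trans ?_)) hQ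
      rw [mul_left_comm]
      nlinarith [mul_le_mul_of_nonneg_left h t0.le]

end
end Pool.Agent.MP_20bec2_an.T3

end MrgPart2

-- marker of a merged file
example : 731051 + 94985 = 731051 + 94985 := rfl

end MrgPart0

-- ======== part 1: formerly Pool.Agent.MP_20bec2_an.T3.Lab
section MrgPart1

-- ======== part 0: formerly Pool.Agent.MP_20bec2_an.T3.LabA
section MrgPart0

/-! Row LAB, first part: numbers and estimates at one point. -/

set_option autoImplicit false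
open MeasureTheory Set Filter Matrix Topology

namespace Pool.Agent.MP_20bec2_an.T3
noncomputable section
open Classical

namespace LabP

lemma num1 {N : ℕ} (h : Big N) :
    pX N / (qp N (7 / 2) * N) ≤ cg0 N / 8 ∧ 1206 * pJ N / (N * pJ N ^ 4) ≤ cg0 N / 8 ∧
    pX N / (qp N (18 / 5) * N) ≤ cg0 N / 4 ∧ 1206 * pJ N * sm N ≤ fr0 N / 4 ∧
    1206 * pJ N * np N (-1 / 25) ≤ 1 / 100 ∧ np N (-1 / 20) ≤ 1 / 100 ∧
    cg0 N ≤ pJ N / N ∧ 12 * (pJ N / N) ≤ Jp N (3 / 2) / N := by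
  have := h.N_pos; have := h.q_pos; have := h.fr0_pos; have := h.qp_pos (18 / 5)
  have := h.qp_pos (7 / 2); have := h.X_pos; have := h.J_pos; have := h.cg0_pos
  have := h.sm_pos; have := h.np_pos (-1 / 25); have := h.np_pos (-1 / 20)
  have := h.Jp_pos (3 / 2)
  have := h.L_ge; have := h.J_ge
  have := (logc_bd (show (1 : ℝ) ≤ 4 by norm_num)).2
  have := (logc_bd (show (1 : ℝ) ≤ 8 by norm_num)).2
  have := (logc_bd (show (1 : ℝ) ≤ 12 by norm_num)).2
  have := (logc_bd (show (1 : ℝ) ≤ 100 by norm_num)).2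
  have := (logc_bd (show (1 : ℝ) ≤ 1206 by norm_num)).2
  refine ⟨?_, ?_, ?_, ?_, ?_, ?_, ?_, ?_⟩ <;>
    refine le_of_log (by positivity) (by positivity) ?_ <;>
    simp (disch := positivity) only [Real.log_div, Real.log_mul, Real.log_pow, Real.log_one,
      h.log_N, h.log_fr0, h.log_qp, h.log_X, h.log_J, h.log_cg0, h.log_sm, h.log_np, h.log_Jp,
      Nat.cast_ofNat] <;> linarith

lemma num2 {N : ℕ} (h : Big N) :
    pq N * √(bA N * (1072 * pJ N) * (qp N (1 / 5) * pJ N) / N) ≤ pJ N ^ 2 / √N / 20 ∧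
    pq N * √(bB N * (1072 * pJ N) * (qp N (1 / 5) * pJ N) / N) ≤ fr0 N / 4 ∧
    np N (-3 / 10) * √N * 2 ≤ np N (23 / 10) / 2 ∧
    pq N ^ 2 * np N (11 / 10) * 2 ≤ np N (23 / 10) / 4 ∧
    2 * np N (21 / 10) ≤ np N (23 / 10) / 4 ∧ np N (23 / 10) ≤ (N : ℝ) ^ 4 / 4000 := by
  have := h.N_pos; have := h.q_pos; have := h.fr0_pos; have := h.qp_pos (1 / 5)
  have := h.J_pos; have := h.bA_pos; have := h.bB_pos
  have := h.np_pos (-3 / 10); have := h.np_pos (23 / 10); have := h.np_pos (11 / 10)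
  have := h.np_pos (21 / 10)
  have := h.L_ge; have := h.J_ge
  have := (logc_bd (show (1 : ℝ) ≤ 2 by norm_num)).2
  have := (logc_bd (show (1 : ℝ) ≤ 4 by norm_num)).2
  have := (logc_bd (show (1 : ℝ) ≤ 20 by norm_num)).2
  have := (logc_bd (show (1 : ℝ) ≤ 1072 by norm_num)).2
  have := (logc_bd (show (1 : ℝ) ≤ 4000 by norm_num)).2
  refine ⟨?_, ?_, ?_, ?_, ?_, ?_⟩ <;>
    refine le_of_log (by positivity) (by positivity) ?_ <;>
    simp (disch := positivity) only [Real.log_div, Real.log_mul, Real.log_pow, Real.log_sqrt,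
      h.log_N, h.log_fr0, h.log_qp, h.log_q, h.log_J, h.log_bA, h.log_bB, h.log_np,
      Nat.cast_ofNat] <;> linarith

/-- drift of the entries `(i, 2)` -/
def E2 (c : Pm) : ℝ := if c.oB then fr0 c.N / 2 else c.J ^ 2 / √c.N / 10
/-- drift of the Gram matrix -/
def Mb (c : Pm) : Mx := bm (cg0 c.N / 4) (E2 c) (1 / 100)

lemma E2_bd {c : Pm} (h : Gd c) : 0 ≤ E2 c ∧ E2 c ≤ c.J ^ 2 / √c.N / 10 ∧
    (c.oB → E2 c ≤ c.B1 / 2) := by
  have h1 : 1000 * √(pJ c.N / c.N) ≤ c.J ^ 2 / √c.N := h.big.sqrtJN_le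
  have h2 := h.big.fr0_le
  have h3 := h.big.fr0_pos
  have h4 := h.B1_ge.1
  unfold E2
  split_ifs with e
  · exact ⟨by linarith, by linarith, fun _ => by linarith⟩
  · exact ⟨by linarith, le_rfl, fun e' => (e e').elim⟩

lemma bm_le {a b d a' b' d' : ℝ} (h1 : a ≤ a') (h2 : b ≤ b') (h3 : d ≤ d') (i j : Fin 3) :
    bm a b d i j ≤ bm a' b' d' i j := by
  fin_cases i <;> fin_cases j
  exacts [h1, h1, h2, h1, h1, h2, h2, h2, h3]

lemma bm_nonneg {a b d : ℝ} (h1 : 0 ≤ a) (h2 : 0 ≤ b) (h3 : 0 ≤ d) (i j : Fin 3) :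
    0 ≤ bm a b d i j := by
  fin_cases i <;> fin_cases j
  exacts [h1, h1, h2, h1, h1, h2, h2, h2, h3]

lemma Mb_nonneg {c : Pm} (h : Gd c) (i j : Fin 3) : 0 ≤ Mb c i j :=
  bm_nonneg (by linarith [h.big.cg0_pos]) (E2_bd h).1 (by norm_num) i j

lemma LA_nonneg {c : Pm} (h : Gd c) (i j : Fin 3) : 0 ≤ c.LA i j := by
  have a : 0 ≤ c.η * c.p / 1000 := by linarith [h.ηp_pos]
  have b : 0 ≤ 9 * √(c.η * c.p) := by linarith [h.sηp_pos]
  have d : 0 ≤ pX c.N / (qp c.N (18 / 5) * c.N) :=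
    (div_pos h.big.X_pos (mul_pos (h.big.qp_pos _) h.N_pos)).le
  have e : 0 ≤ np c.N (-1 / 20) := (h.big.np_pos _).le
  fin_cases i <;> fin_cases j
  exacts [a, a, b, a, d, b, b, b, e]

/-- the bounds of the record -/
lemma drift {B : Bk} (hf : FrOk B.N B.lb B.fr) {xs : ℕ → Cu → ℝ} {n : ℕ} {i : Cu}
    (h : Ledg.LH B.N xs n i) (g : Cu) (a : ℕ) {m : ℕ} (hm : (m : ℝ) ≤ 1206 * pJ B.N)
    (p q : Fin 3) :
    bm (B.SG g xs a n i + m / (B.N * pJ B.N ^ 4))
      (pq B.N * SA B.N (B.c g 0).bbO xs a n i + m * sm B.N) (m * np B.N (-1 / 25)) p q ≤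
      Mb (B.c g 0) p q := by
  have hb := h.big
  have G := Bk.gd0 hf hb g
  obtain ⟨n1, n2, -, n4, n5, -⟩ := num1 hb
  obtain ⟨m1, m2, -⟩ := num2 hb
  have p1 := hb.N_pos; have p2 := hb.J_pos
  have s1 := Ledg.SG_le hf h g a
  have s2 : (m : ℝ) / (B.N * pJ B.N ^ 4) ≤ 1206 * pJ B.N / (B.N * pJ B.N ^ 4) :=
    div_le_div_of_nonneg_right hm (by positivity)
  have s3 := mul_le_mul_of_nonneg_right hm hb.sm_pos.le
  have s4 := mul_le_mul_of_nonneg_right hm (hb.np_pos (-1 / 25)).le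
  refine bm_le ?_ ?_ (s4.trans n5) p q
  · show _ ≤ cg0 B.N / 4
    linarith
  · unfold E2
    split_ifs with e
    · have s5 := mul_le_mul_of_nonneg_left (h.long_le hb.bB_pos.le a) hb.q_pos.le
      rw [Gd.bbO_oB e]
      show pq B.N * SA B.N (bB B.N) xs a n i + _ ≤ fr0 B.N / 2
      linarith
    · have s5 := mul_le_mul_of_nonneg_left ((h.SA_mono (b1 := bA B.N) G.bbO_bd.2 a n).trans
        (h.long_le hb.bA_pos.le a)) hb.q_pos.le
      show _ ≤ pJ B.N ^ 2 / √B.N / 10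
      linarith [hb.fr0_le, hb.sqrtJN_le, hb.fr0_pos]

/-- the Gram matrix after a drift -/
lemma est {c : Pm} (h : Gd c) {G G0 G' : Mx} {a : ℝ}
    (h0 : EB (G0 - c.gref) (bm (cg0 c.N) c.B1 (1 / pJ c.N)))
    (h1 : EB (G - G0 - a • E00) (Mb c + c.LA)) (h2 : EB (G - G') (Mb c)) (a0 : 0 ≤ a)
    (a1 : a ≤ 9 * (c.η * c.p)) :
    EB (G' - c.gref) ((1 : ℝ) • bm c.gb (hc c.N) (1 / 10)) ∧
    (∀ i, i ≠ 2 → |G' i 2| ≤ hc c.N ∧ (c.oB → |G' i 2| ≤ c.pi1)) ∧
    |G' 0 0 - c.η| ≤ 2 * cg0 c.N + 10 * (c.η * c.p) ∧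
    |G' 0 1| ≤ 2 * cg0 c.N + c.η * c.p / 1000 ∧ |G' 1 1 - 1| ≤ 2 * cg0 c.N := by
  have key : ∀ i j, |G' i j - c.gref i j - a * E00 i j| ≤
      bm (cg0 c.N) c.B1 (1 / pJ c.N) i j + 2 * Mb c i j + c.LA i j := fun i j => by
    have k0 := abs_le.1 (h0 i j)
    have k1 := abs_le.1 (h1 i j)
    have k2 := abs_le.1 (h2 i j)
    simp only [Matrix.sub_apply, Matrix.add_apply, Matrix.smul_apply, smul_eq_mul] at k0 k1 k2
    exact abs_le.2 ⟨by linarith [k0.1, k1.1, k2.2], by linarith [k0.2, k1.2, k2.1]⟩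
  obtain ⟨-, -, n3, -, -, n6, n7, n8⟩ := num1 h.big
  obtain ⟨e1, e2, e3⟩ := E2_bd h
  have p1 := h.big.cg0_pos
  have p2 := h.ηp_pos
  have p3 := h.sηp_pos
  have p4 := h.B1_pos
  have p5 := h.J2N_pos
  have q1 : c.η * c.p ≤ pJ c.N / c.N := h.ηp_le.trans_eq (congrArg (· / (c.N : ℝ)) h.big.qX_eq)
  have q2 := h.gb_ge
  have q3 := h.B1_le
  have q4 : hc c.N = 3 * (c.J ^ 2 / √c.N) := h.big.hc_eq
  have q5 := h.sηp_le
  have q6 : 1000 * √(c.J / c.N) ≤ c.J ^ 2 / √c.N := h.big.sqrtJN_le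
  have q7 : 1 / pJ c.N ≤ 1 / 100 :=
    one_div_le_one_div_of_le (by norm_num) (by linarith [h.big.J_ge, h.big.L_ge])
  have q8 : c.pi1 = 4 * c.B1 + 10 * √(c.η * c.p) := rfl
  have k00 : |G' 0 0 - c.η - a * 1| ≤ cg0 c.N + 2 * (cg0 c.N / 4) + c.η * c.p / 1000 := key 0 0
  have k01 : |G' 0 1 - 0 - a * 0| ≤ cg0 c.N + 2 * (cg0 c.N / 4) + c.η * c.p / 1000 := key 0 1
  have k10 : |G' 1 0 - 0 - a * 0| ≤ cg0 c.N + 2 * (cg0 c.N / 4) + c.η * c.p / 1000 := key 1 0
  have k11 : |G' 1 1 - 1 - a * 0| ≤ cg0 c.N + 2 * (cg0 c.N / 4) +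
    pX c.N / (qp c.N (18 / 5) * c.N) := key 1 1
  have k02 : |G' 0 2 - 0 - a * 0| ≤ c.B1 + 2 * E2 c + 9 * √(c.η * c.p) := key 0 2
  have k12 : |G' 1 2 - 0 - a * 0| ≤ c.B1 + 2 * E2 c + 9 * √(c.η * c.p) := key 1 2
  have k20 : |G' 2 0 - 0 - a * 0| ≤ c.B1 + 2 * E2 c + 9 * √(c.η * c.p) := key 2 0
  have k21 : |G' 2 1 - 0 - a * 0| ≤ c.B1 + 2 * E2 c + 9 * √(c.η * c.p) := key 2 1
  have k22 : |G' 2 2 - 1 - a * 0| ≤ 1 / pJ c.N + 2 * (1 / 100) + np c.N (-1 / 20) := key 2 2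
  rw [mul_zero, sub_zero] at k01 k10 k11 k02 k12 k20 k21 k22
  have r00 : |G' 0 0 - c.η| ≤ 2 * cg0 c.N + 10 * (c.η * c.p) :=
    abs_le.2 ⟨by linarith [(abs_le.1 k00).1], by linarith [(abs_le.1 k00).2]⟩
  have w : 2 * cg0 c.N + 10 * (c.η * c.p) ≤ c.gb := by linarith
  have w2 : c.B1 + 2 * E2 c + 9 * √(c.η * c.p) ≤ hc c.N := by linarith
  refine ⟨fun i j => ?_, fun i hi => ?_, r00, ?_, by linarith⟩
  · rw [one_smul]
    fin_cases i <;> fin_cases j
    exacts [r00.trans w, k01.trans (by show _ ≤ c.gb; linarith), k02.trans w2,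
      k10.trans (by show _ ≤ c.gb; linarith), k11.trans (by show _ ≤ c.gb; linarith), k12.trans w2,
      k20.trans w2, k21.trans w2, k22.trans (by show _ ≤ (1 / 10 : ℝ); linarith)]
  · rw [sub_zero] at k02 k12
    have k : |G' i 2| ≤ c.B1 + 2 * E2 c + 9 * √(c.η * c.p) := by
      fin_cases i
      exacts [k02, k12, (hi rfl).elim]
    exact ⟨k.trans w2, fun e => k.trans (by linarith [e3 e])⟩
  · rw [sub_zero] at k01
    linarith

/-- the inverse of the differential -/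
lemma inv_bd {c : Pm} (h : Gd c) {f : V → V} {z : V} (hM : |jac f z - 1| ≤ 1 / 100)
    (hg : c.GB f z 1) : EB (jm f z)⁻¹ (cm (16 * c.N)) := by
  have hs1 := h.s1_pos
  have hs2 := h.s2_pos
  have hn := h.n12_pos
  have hη := h.η_pos
  have hc : c.gb ≤ c.η / 100 := by
    refine le_of_log h.gb_pos (by positivity) ?_
    rw [Real.log_div hη.ne' (by norm_num)]
    linarith [h.log_gb.1, h.big.L_ge, (logc_bd (show (1 : ℝ) ≤ 100 by norm_num)).2]
  obtain ⟨m1, m2⟩ := abs_le.1 hM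
  rw [Pm.GB, one_smul] at hg
  have cols : ∀ i j, |jm f z i j| ≤ ![101 / 100 * c.s1, 101 / 100 * c.s2, 2 / c.n12] j := by
    intro i j
    have k := Lip.col_sq (jm f z) ![c.c1, c.c2, c.n12 / jac f z] i j
    have g := (abs_le.1 (hg j j)).2
    change _ ≤ c.gam f z j j at k
    fin_cases j
    · have g' : c.gam f z 0 0 - c.η ≤ c.gb := g
      have k' : (jm f z i 0 * (√c.η / c.s1)) ^ 2 ≤ c.gam f z 0 0 := k
      rw [mul_pow, div_pow, Real.sq_sqrt hη.le, ← mul_div_assoc, div_le_iff₀ (by positivity)] at k'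
      show |jm f z i 0| ≤ 101 / 100 * c.s1
      refine abs_le.2 (abs_le_of_sq_le_sq' ?_ (by positivity))
      refine le_of_mul_le_mul_right (k'.trans ?_) hη
      nlinarith [mul_le_mul_of_nonneg_right (show c.gam f z 0 0 ≤ 101 / 100 * c.η by linarith)
        (sq_nonneg c.s1), mul_pos hη (pow_pos hs1 2)]
    · have g' : c.gam f z 1 1 - 1 ≤ c.gb := g
      have k' : (jm f z i 1 * (1 / c.s2)) ^ 2 ≤ c.gam f z 1 1 := k
      rw [mul_one_div, div_pow, div_le_iff₀ (by positivity)] at k'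
      show |jm f z i 1| ≤ 101 / 100 * c.s2
      refine abs_le.2 (abs_le_of_sq_le_sq' ?_ (by positivity))
      nlinarith [mul_le_mul_of_nonneg_right
        (show c.gam f z 1 1 ≤ 101 / 100 by linarith [h.η_le_one]) (sq_nonneg c.s2), pow_pos hs2 2]
    · have g' : c.gam f z 2 2 - 1 ≤ 1 / 10 := g
      have k' : (jm f z i 2 * (c.n12 / jac f z)) ^ 2 ≤ c.gam f z 2 2 := k
      have hm : 0 < jac f z := by linarith
      rw [← mul_div_assoc, div_pow, div_le_iff₀ (by positivity)] at k'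
      have k2 : |jm f z i 2 * c.n12| ≤ 2 := by
        refine abs_le.2 (abs_le_of_sq_le_sq' (k'.trans ?_) (by norm_num))
        nlinarith [mul_le_mul (show c.gam f z 2 2 ≤ 11 / 10 by linarith)
          (show jac f z ^ 2 ≤ 2 by nlinarith) (sq_nonneg _) (by norm_num)]
      rw [abs_mul, abs_of_pos hn] at k2
      exact (le_div_iff₀ hn).2 k2
  obtain ⟨a1, a2, a3⟩ := Lip.sizes h
  have a4 := h.s1_le
  have e : c.n12 = c.s1 * c.s2 := rfl
  have hn1 : 1 ≤ c.n12 := by nlinarith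
  have a5 : 2 / c.n12 ≤ 2 := div_le_self (by norm_num) hn1
  have a6 : 0 < 2 / c.n12 := by positivity
  refine Lip.inv_eb (m := 99 / 100) (by norm_num)
    (by linarith [show jac f z = (jm f z).det from rfl]) cols ?_ ?_ ?_
  · show 2 * (101 / 100 * c.s1 * (101 / 100 * c.s2)) ≤ _
    nlinarith
  · show 2 * (101 / 100 * c.s1 * (2 / c.n12)) ≤ _
    nlinarith
  · show 2 * (101 / 100 * c.s2 * (2 / c.n12)) ≤ _
    nlinarith

lemma ph_bd (j k : ℕ) {r : ℕ} (hr : r ≤ 9) : ph j k r ≤ 2 := by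
  have h1 : (r : ℝ) ≤ 9 := by exact_mod_cast hr
  have h2 : (r : ℝ) / 9 / 2 ^ (k - j) ≤ 2 / 2 ^ (k - j) :=
    div_le_div_of_nonneg_right (by linarith) (by positivity)
  unfold ph
  linarith

/-- drift of the labels -/
lemma move {B : Bk} (hf : FrOk B.N B.lb B.fr) (hb : Big B.N) {k r : ℕ} (hk : k < nb B.N)
    (hr : r ≤ 9) {f : V → V} {ft : ℕ → V → V} {xs : ℕ → Cu → ℝ} {Af : V → ℝ}
    (h : B.IG k r f ft xs Af) {j : ℕ} (hj : j ≤ k) (g : Cu) {x : V} (hx : x ∈ B.bx g 1) :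
    ‖B.oh g f x - B.oh g (ft j) x‖ ≤ np B.N (23 / 10) * B.lb / 2 := by
  have G := Bk.gd hf hb g (hj.trans hk.le)
  have G0 := Bk.gd hf hb 0 (hj.trans hk.le)
  have Gm := Bk.gd hf hb g (k := mid B.N) (by have := hb.mid_lt; omega)
  obtain ⟨-, -, n1, n2, n3, -⟩ := num2 hb
  obtain ⟨h1, h2⟩ := h.dl j hj g x hx
  have pl : 0 < B.lb := G.lb_pos
  have ph2 := ph_bd j k hr
  have l1 : (B.c g j).lam ≤ B.lb := G.lam_le_lb
  have l2 : (B.c g j).l1 ≤ √B.N * B.lb := mul_le_mul G.ro_le l1 G.lam_pos.le (Real.sqrt_nonneg _)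
  have l3 : B.yk j ≤ np B.N (11 / 10) * B.lb :=
    mul_le_mul_of_nonneg_left G0.lam_le_lb (hb.np_pos _).le
  have l4 : (B.c g (mid B.N)).lam ≤ B.lb := Gm.lam_le_lb
  have lat : ∀ i, i ≠ 2 → (B.c g j).hs i ≤ √B.N * B.lb →
      |(B.oh g f x - B.oh g (ft j) x) i| ≤ np B.N (23 / 10) * B.lb / 2 := fun i hi e => by
    have t := mul_le_mul (mul_le_mul_of_nonneg_left e (hb.np_pos (-3 / 10)).le) le_rfl two_pos.le
      (mul_pos (hb.np_pos _) (mul_pos hb.sqrtN_pos pl)).le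
    have t1 := mul_le_mul_of_nonneg_left ph2 (mul_pos (hb.np_pos (-3 / 10)) (G.hs_pos i)).le
    have t2 := mul_le_mul_of_nonneg_right n1 pl.le
    exact (h1 i hi).trans (by linarith)
  refine Prof.norm_le_of fun i => ?_
  fin_cases i
  · exact lat 0 (by decide) l2
  · exact lat 1 (by decide) (G.lam_le_l1.trans l2)
  · have y0 : 0 < B.yk j := G0.y_pos
    have t1 := mul_le_mul_of_nonneg_left ph2 (mul_pos (pow_pos hb.q_pos 2) y0).le
    have t2 := mul_le_mul_of_nonneg_left l3 (pow_pos hb.q_pos 2).le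
    have t3 := mul_le_mul_of_nonneg_right n2 pl.le
    have t4 := mul_le_mul_of_nonneg_right n3 pl.le
    have t5 := mul_le_mul_of_nonneg_left l4 (hb.np_pos (21 / 10)).le
    have t6 := mul_pos (hb.np_pos (23 / 10)) pl
    refine h2.trans ?_
    split_ifs <;> linarith

end LabP
end
end Pool.Agent.MP_20bec2_an.T3

end MrgPart0

-- ======== part 1: formerly Pool.Agent.MP_20bec2_an.T3.Lab
section MrgPart1

/-! Row LAB: what the record says about the maps at the labels. -/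

set_option autoImplicit false
open MeasureTheory Set Filter Matrix Topology

namespace Pool.Agent.MP_20bec2_an.T3
noncomputable section
open Classical

namespace LabP
variable {B : Bk}

lemma N_ge (hb : Big B.N) : 2 ≤ B.N := by
  have : (2 : ℝ) ≤ B.N := by linarith [hb.N_ge, hb.J_ge, hb.L_ge]
  exact_mod_cast this

lemma jac_fh (hG : B.G) (g : Cu) {f : V → V} (sf : Sm f) (p : V) :
    jac ((B.fr g).fh f) ((B.fr g).zc p) = (B.fr g).Q.det * jac f p := by
  rw [(K3.p4 _ sf.dif _).2, Fr.den, Prof.zp_zc (GeoP.det_ne hG.toFrOk g)]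

lemma jac_pos (hG : B.G) (hb : Big B.N) {f : V → V} (sf : Sm f)
    (hM : ∀ g, ∀ z ∈ B.R g (98 / 100), |jac ((B.fr g).fh f) z - 1| ≤ 2 * eps0) (p : V) :
    0 < jac f p := by
  have h1 : 1 ≤ B.N := one_le_two.trans (N_ge hb)
  obtain ⟨g, hg⟩ := GeoP.cover hG h1 p
  have h := (abs_le.1 (hM g _ (Prof.RX_mono _ (GeoP.D_pos hG.toFrOk h1).le (by norm_num) hg))).1
  rw [jac_fh hG g sf, eps0] at h
  exact pos_of_mul_pos_left (show 0 < jac f p * (B.fr g).Q.det by linarith)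
    (GeoP.det_pos hG.toFrOk g).le

lemma in_R (hG : B.G) (hb : Big B.N) {g : Cu} {r : ℝ} (hr : r ≤ 1) {x z : V} (hx : x ∈ B.bx g r)
    (hz : ‖z - (B.fr g).zc (B.Z0 x)‖ ≤ np B.N (23 / 10) * B.lb) : z ∈ B.R g (r + 1 / 100) := by
  have h1 : 1 ≤ B.N := one_le_two.trans (N_ge hb)
  have hD := GeoP.D_pos hG.toFrOk h1
  have t := mul_le_mul_of_nonneg_right (num2 hb).2.2.2.2.2 (GeoP.lb_pos hG.toFrOk).le
  have b := Prof.RX_add (GeoP.orth hG.toFrOk g) (s := 1 / 1000) (y := z)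
    (GeoP.fwd hG h1 (by linarith) hx) (by unfold Dd at *; linarith)
  exact Prof.RX_mono _ hD.le (by linarith) b

lemma jac_lab (hG : B.G) (hb : Big B.N) {f : V → V} (sf : Sm f)
    (hM : ∀ g, ∀ z ∈ B.R g (98 / 100), |jac ((B.fr g).fh f) z - 1| ≤ 2 * eps0)
    (hp : ∀ g, ∀ x ∈ B.bx g 1, ‖B.oh g f x - (B.fr g).zc (B.Z0 x)‖ ≤ np B.N (23 / 10) * B.lb)
    (g : Cu) {x : V} (hx : x ∈ B.bx g 1) : |jac ((B.fr g).fh f) (B.oh g f x) - 1| ≤ 1 / 100 := by
  have h1 : 1 ≤ B.N := one_le_two.trans (N_ge hb)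
  have hD := GeoP.D_pos hG.toFrOk h1
  obtain ⟨g', hg'⟩ := Prof.exists_box hD x
  have a := hM g' _ (Prof.RX_mono _ hD.le (by norm_num) (in_R hG hb (by norm_num) hg'
    (hp g' x (Prof.box_mono hD.le (by norm_num) g' hg'))))
  have b := GeoP.det_ratio (GeoP.orth hG.toFrOk g') (GeoP.orth hG.toFrOk g)
    (GeoP.cpt_of_box hG.toFrOk h1 (by norm_num) hg' hx)
    ((GeoP.dc_le (N_ge hb)).trans (by norm_num))
  have d := GeoP.dc_le (N_ge hb)
  rw [Bk.oh, jac_fh hG g' sf, eps0] at a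
  have e : jac ((B.fr g).fh f) (B.oh g f x) = (B.fr g).Q.det / (B.fr g').Q.det *
      ((B.fr g').Q.det * jac f (B.lab f x)) := by
    rw [Bk.oh, jac_fh hG g sf, ← mul_assoc, div_mul_cancel₀ _ (GeoP.det_ne hG.toFrOk g')]
  rw [e]
  obtain ⟨a1, a2⟩ := abs_le.1 a
  obtain ⟨b1, b2⟩ := abs_le.1 b
  generalize (B.fr g).Q.det / (B.fr g').Q.det = u at *
  generalize (B.fr g').Q.det * jac f (B.lab f x) = v at *
  exact abs_le.2 ⟨by nlinarith, by nlinarith⟩

lemma lipz (hG : B.G) (hb : Big B.N) {f : V → V} (df : Dif f) (s0 : Sm B.f0) {g : Cu}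
    (h1 : ∀ x ∈ B.bx g 1, EB (jm ((B.fr g).fh f) (B.oh g f x))⁻¹ (cm (16 * B.N)))
    (h2 : ∀ x ∈ B.bx g 1, EB (jm ((B.fr g).fh B.f0) ((B.fr g).zc (B.Z0 x))) (cm (2 * B.N)))
    {x x' : V} (hx : x ∈ B.bx g 1) (hx' : x' ∈ B.bx g 1) :
    ‖B.oh g f x - B.oh g f x'‖ ≤ (B.N : ℝ) ^ 3 * ‖x - x'‖ := by
  have hD := GeoP.D_pos hG.toFrOk (one_le_two.trans (N_ge hb))
  have hO := GeoP.orth hG.toFrOk g
  have hQ := GeoP.det_ne hG.toFrOk g
  have so : Sm (B.oh g f) := (Prof.zc_sm _).comp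
    ((Inv.sm_inv df.1 df.2.1 fun z => (df.2.2 z).ne').comp (s0.comp hG.sm))
  have sh : Sm ((B.fr g).fh f) := df.1.comp (Prof.zp_sm _)
  have e0 : (fun y => (B.fr g).fh f (B.oh g f y)) = fun y => B.f0 (B.Z0 y) := funext fun y => by
    rw [Fr.fh, Bk.oh, Prof.zp_zc hQ, Bk.lab, Function.rightInverse_invFun df.2.1.2]
  have hN := hb.N_pos
  have bd : ∀ y ∈ B.bx g 1, EB (jm (B.oh g f) y) (cm (510 * (B.N : ℝ) ^ 2)) := fun y hy => by
    have e1 := jm_comp (sh.dif (B.oh g f y)) (so.dif y)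
    rw [e0, jm_comp (s0.dif _) (hG.sm.dif y)] at e1
    have hu : IsUnit (jm ((B.fr g).fh f) (B.oh g f y)).det := by
      have := jac_fh hG g df.1 (B.lab f y)
      exact (this.trans_ne (mul_ne_zero hQ (df.2.2 _).ne')).isUnit
    have e2 : jm B.f0 (B.Z0 y) * jm B.Z0 y = jm ((B.fr g).fh B.f0) ((B.fr g).zc (B.Z0 y)) *
        (B.fr g).hm (jm B.Z0 y) * (B.fr g).Oᵀ := by
      rw [(K3.p4 _ s0.dif _).1, Prof.zp_zc hQ, Fr.hm]
      simp only [Matrix.mul_assoc]
      rw [hO.1, Matrix.mul_one, ← Matrix.mul_assoc (B.fr g).Q, Prof.q_inv hQ, Matrix.one_mul]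
    have e3 : jm (B.oh g f) y = (jm ((B.fr g).fh f) (B.oh g f y))⁻¹ *
        (jm B.f0 (B.Z0 y) * jm B.Z0 y) := by
      rw [e1, ← Matrix.mul_assoc, nonsing_inv_mul _ hu, Matrix.one_mul]
    have b1 := (Lip.near_one (GeoP.hm_Z0 hG (Prof.box_mono hD.le (by norm_num) g hy))).1
    rw [e3, e2]
    exact GeoP.eb_mono (GeoP.eb_mul (h1 y hy) (GeoP.eb_mul_orth (Prof.orth_t hO)
      (GeoP.eb_mul (h2 y hy) b1))) (by nlinarith)
  refine ((Prof.box_convex _ _ _).norm_image_sub_le_of_norm_fderiv_le (𝕜 := ℝ)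
    (fun y _ => so.dif y) (fun y hy => Inv.norm_fderiv_le (so.dif y) (bd y hy)) hx' hx).trans
    (mul_le_mul_of_nonneg_right ?_ (norm_nonneg _))
  have : (2000 : ℝ) ≤ B.N := by linarith [hb.N_ge, hb.J_ge, hb.L_ge]
  nlinarith [mul_le_mul_of_nonneg_right this (sq_nonneg (B.N : ℝ))]

/-- the record with uniform bounds -/
lemma rel (hf : FrOk B.N B.lb B.fr) (hb : Big B.N) {k r : ℕ} (hk : k < nb B.N) (hr : r ≤ 9)
    {s : St} (il : B.IL k r s) (ig : B.IG k r s.f s.ft s.xs s.Af) {j : ℕ} (hj : j ≤ k) (g : Cu)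
    {x : V} (hx : x ∈ B.bx g 1) :
    EB (B.ga g s.f x - B.ga g (s.ft j) x -
      if B.crs g j k r then ((B.c g 0).η * s.Af (B.lab (s.ft (mid B.N)) x)) • E00 else 0)
      (Mb (B.c g 0) + if B.crs g j k r then (B.c g 0).LA else 0) := fun p q => by
  have hs : 0 < B.hsp := mul_pos (hb.np_pos _) (GeoP.lb_pos hf)
  obtain ⟨i, hi⟩ := Prof.exists_box hs x
  have hi' : B.NS i x := le_trans hi (by linarith)
  refine (ig.rel j hj g x hx i hi' p q).trans ?_
  rw [Matrix.add_apply, Matrix.add_apply]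
  exact add_le_add (drift hf (Ledg.lh hb hf hk hr il i) g _
    ((Nat.cast_le.2 (Nat.sub_le _ _)).trans (hb.cnt_le hk hr)) p q) le_rfl

end LabP

theorem lab : LabStmt := by
  filter_upwards [ev_big] with N hb B hB ρ k r s ho hk hr il hp hF hM
  subst hB
  have hG : B.G := ho.geo
  have hf := hG.toFrOk
  have e0 := hF.fk.1
  have s0 : Sm B.f0 := e0 ▸ (hF.sn 0 (Nat.zero_le _)).1
  have b0 : Function.Bijective B.f0 := e0 ▸ (hF.sn 0 (Nat.zero_le _)).2.1
  have o0 : ∀ g x, B.oh g B.f0 x = (B.fr g).zc (B.Z0 x) := fun g x => by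
    rw [Bk.oh, Bk.lab, Function.leftInverse_invFun b0.1]
  have p0 : 0 < np B.N (23 / 10) * B.lb := mul_pos (hb.np_pos _) (GeoP.lb_pos hf)
  have pf : ∀ g, ∀ x ∈ B.bx g 1,
      ‖B.oh g s.f x - (B.fr g).zc (B.Z0 x)‖ ≤ np B.N (23 / 10) * B.lb / 2 := fun g x hx => by
    have := LabP.move hf hb hk hr hF.ig (Nat.zero_le _) g hx
    rwa [e0, o0] at this
  have pj : ∀ j ≤ k, ∀ g, ∀ x ∈ B.bx g 1,
      ‖B.oh g (s.ft j) x - (B.fr g).zc (B.Z0 x)‖ ≤ np B.N (23 / 10) * B.lb := fun j hj g x hx => by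
    have h1 := LabP.move hf hb hk hr hF.ig hj g hx
    rw [norm_sub_rev] at h1
    linarith [norm_sub_le_norm_sub_add_norm_sub (B.oh g (s.ft j) x) (B.oh g s.f x)
      ((B.fr g).zc (B.Z0 x)), pf g x hx]
  have mf : ∀ g, ∀ z ∈ B.R g (98 / 100), |jac ((B.fr g).fh s.f) z - 1| ≤ 2 * eps0 :=
    fun g z hz => by
      rw [(K3.p4 _ hF.smf.1.dif _).2]
      exact (hM g).1 z hz
  have dj : ∀ j ≤ k, Dif (s.ft j) := fun j hj => ⟨(hF.sn j hj).1, (hF.sn j hj).2.1,
    LabP.jac_pos hG hb (hF.sn j hj).1 fun g => ((hF.sn j hj).2.2 g).1⟩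
  have jj : ∀ j ≤ k, ∀ g, ∀ x ∈ B.bx g 1,
      |jac ((B.fr g).fh (s.ft j)) (B.oh g (s.ft j) x) - 1| ≤ 1 / 100 := fun j hj g x hx =>
    LabP.jac_lab hG hb (hF.sn j hj).1 (fun g => ((hF.sn j hj).2.2 g).1) (pj j hj) g hx
  have r0 : ∀ g, ∀ x ∈ B.bx g 1, ∃ a, 0 ≤ a ∧ a ≤ 9 * ((B.c g 0).η * (B.c g 0).p) ∧
      EB (B.ga g s.f x - B.ga g B.f0 x - a • E00) (LabP.Mb (B.c g 0) + (B.c g 0).LA) := by
    intro g x hx
    have G := Bk.gd0 hf hb g
    have h := LabP.rel hf hb hk hr il hF.ig (Nat.zero_le _) g hx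
    rw [e0] at h
    by_cases e : B.crs g 0 k r
    · rw [if_pos e, if_pos e] at h
      have hm : mid B.N ≤ k := by
        rcases e.2.1 with t | t
        exacts [t.le, t.1.ge]
      have t := (hp e.2.1).af g (Bk.pushN_deep hf hb e.2.2) _ (Prof.RX_mono _ G.D_pos.le
        (by norm_num) (LabP.in_R hG hb le_rfl hx (pj _ hm g x hx)))
      rw [Bk.oh, Prof.zp_zc (GeoP.det_ne hf g)] at t
      exact ⟨_, mul_nonneg G.η_pos.le t.1,
        by linarith [mul_le_mul_of_nonneg_left t.2 G.η_pos.le], h⟩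
    · rw [if_neg e, if_neg e, add_zero] at h
      refine ⟨0, le_rfl, by linarith [G.ηp_pos], fun p q => ?_⟩
      rw [zero_smul]
      exact (h p q).trans (le_add_of_nonneg_right (LabP.LA_nonneg G p q))
  have rj : ∀ j ≤ k, ∀ g, ¬ B.crs g j k r → ∀ x ∈ B.bx g 1,
      EB (B.ga g s.f x - B.ga g (s.ft j) x) (LabP.Mb (B.c g 0)) := fun j hj g e x hx => by
    have h := LabP.rel hf hb hk hr il hF.ig hj g hx
    rwa [if_neg e, if_neg e, add_zero, sub_zero] at h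
  have main : ∀ f : V → V, Dif f → (∀ g, ∀ x ∈ B.bx g 1,
      ‖B.oh g f x - (B.fr g).zc (B.Z0 x)‖ ≤ np B.N (23 / 10) * B.lb ∧
      |jac ((B.fr g).fh f) (B.oh g f x) - 1| ≤ 1 / 100 ∧
      EB (B.ga g s.f x - B.ga g f x) (LabP.Mb (B.c g 0))) → LabF B k f := by
    intro f df H
    have t := fun g x hx => (r0 g x hx).elim fun a ha =>
      LabP.est (Bk.gd0 hf hb g) (ho.g0 g x hx) ha.2.2 (H g x hx).2.2 ha.1 ha.2.1
    refine ⟨df, fun g x hx => ⟨(H g x hx).1, (t g x hx).1, (t g x hx).2.1, (t g x hx).2.2.1,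
      (t g x hx).2.2.2.1, (t g x hx).2.2.2.2, (H g x hx).2.1, fun x' hx' => ?_⟩⟩
    refine LabP.lipz hG hb df s0 (fun y hy => LabP.inv_bd (Bk.gd0 hf hb g) (H g y hy).2.1
      (t g y hy).1) (fun y hy => ?_) hx hx'
    have h1 := jj 0 (Nat.zero_le _) g y hy
    have h2 := ho.g0 g y hy
    rw [e0, o0] at h1
    rw [Bk.ga, o0] at h2
    exact (Lip.hat_bd (Bk.gd0 hf hb g) h1 h2).1
  refine ⟨main _ ⟨hF.smf.1, hF.smf.2.1, LabP.jac_pos hG hb hF.smf.1 mf⟩ fun g x hx =>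
    ⟨(pf g x hx).trans (by linarith), LabP.jac_lab hG hb hF.smf.1 mf
      (fun g x hx => (pf g x hx).trans (by linarith)) g hx, fun p q => ?_⟩,
    fun j hj => ⟨fun hm => main _ (dj j hj) fun g x hx => ⟨pj j hj g x hx, jj j hj g x hx,
      rj j hj g (fun e => hm.not_ge e.1) x hx⟩, dj j hj, fun g x hx =>
      ⟨pj j hj g x hx, jj j hj g x hx, fun e i hi => ?_⟩⟩⟩
  · rw [sub_self, Matrix.zero_apply, abs_zero]
    exact LabP.Mb_nonneg (Bk.gd0 hf hb g) p q
  · obtain ⟨a, a0, a1, a2⟩ := r0 g x hx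
    exact ((LabP.est (Bk.gd0 hf hb g) (ho.g0 g x hx) a2 (rj j hj g (fun e' => e e'.2.2) x hx)
      a0 a1).2.1 i hi).1

end
end Pool.Agent.MP_20bec2_an.T3

end MrgPart1

-- marker of a merged file
example : 731051 + 258799 = 731051 + 258799 := rfl

end MrgPart1

-- marker of a merged file
example : 731051 + 258799 = 731051 + 258799 := rfl
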