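import Mathlib.Topology.Sheaves.Presheaf
import Mathlib.Tactic.Monotonicity.Lemmas
import Mathlib.Algebra.Order.Star.Real
import Mathlib.Analysis.Calculus.ContDiff.Convolution
import Mathlib.Analysis.Calculus.LineDeriv.IntegrationByParts
import Mathlib.Analysis.Real.Pi.Bounds
import Mathlib.MeasureTheory.Integral.IntervalIntegral.DistLEIntegral
import Mathlib.Order.CompletePartialOrder
import Pool.Agent.MP_20bec2_an.T3.Final
import Pool.Agent.MP_20bec2_an.T3.WinA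
import Pool.Agent.MP_20bec2_an.T3.Par4
import Pool.Agent.MP_20bec2_an.T3.Calc1b
import Pool.Agent.MP_20bec2_an.T3.Zt
import Pool.Agent.MP_20bec2_an.T3.K4
import Pool.Agent.MP_20bec2_an.T3.Rem

-- ======== part 0: formerly Pool.Agent.MP_20bec2_an.T3.Ener
section MrgPart0

-- ======== part 0: formerly Pool.Agent.MP_20bec2_an.T3.EnerA
section MrgPart0

set_option autoImplicit false
open MeasureTheory Set Filter Matrix Topology

namespace Pool.Agent.MP_20bec2_an.T3.En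
noncomputable section
open Classical

/-- diagonal Gaussian kernel -/
def gk (s w : V) : ℝ :=
  Real.exp (-(∑ i, w i ^ 2 / s i) / 2) / Real.sqrt ((2 * Real.pi) ^ 3 * (s 0 * s 1 * s 2))
def Ps (s : V) : Prop := ∀ i, 0 < s i
def Bd (B : ℝ) (f : V → ℝ) : Prop := Measurable f ∧ ∀ x, |f x| ≤ B
def Pc (s : V) (f : V → ℝ) (x : V) : ℝ := ∫ u, f (x - u) * gk s u
def yk (s : V) (i : Fin 3) (u : V) : ℝ := u i / Real.sqrt (s i) * gk s u
def Gc (s : V) (i : Fin 3) (f : V → ℝ) (x : V) : ℝ := ∫ u, f (x - u) * yk s i u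

lemma ker_diag {s : V} (hs : Ps s) : ker (diagonal s) = gk s := by
  funext w
  have hi : (diagonal s)⁻¹ = diagonal fun i => (s i)⁻¹ := by
    apply Matrix.inv_eq_right_inv
    rw [diagonal_mul_diagonal, ← diagonal_one]
    congr 1; funext i; exact mul_inv_cancel₀ (hs i).ne'
  unfold ker gk
  rw [hi, det_diagonal, Fin.prod_univ_three]
  congr 4
  simp only [dotProduct, mulVec_diagonal]
  exact Finset.sum_congr rfl fun i _ => by ring

lemma diag_bd {s : V} (hs : Ps s) : ∃ c : ℝ, 0 < c ∧ c ≤ 1 ∧ ∀ v : V,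
    c * (v ⬝ᵥ v) ≤ v ⬝ᵥ (diagonal s *ᵥ v) ∧ v ⬝ᵥ (diagonal s *ᵥ v) ≤ (s 0 + s 1 + s 2) * (v ⬝ᵥ v) := by
  have h0 := hs 0; have h1 := hs 1; have h2 := hs 2
  refine ⟨min 1 (min (s 0) (min (s 1) (s 2))), by positivity, min_le_left _ _, fun v => ?_⟩
  have a0 : min 1 (min (s 0) (min (s 1) (s 2))) ≤ s 0 := (min_le_right _ _).trans (min_le_left _ _)
  have a1 : min 1 (min (s 0) (min (s 1) (s 2))) ≤ s 1 :=
    (min_le_right _ _).trans ((min_le_right _ _).trans (min_le_left _ _))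
  have a2 : min 1 (min (s 0) (min (s 1) (s 2))) ≤ s 2 :=
    (min_le_right _ _).trans ((min_le_right _ _).trans (min_le_right _ _))
  simp only [dotProduct, mulVec_diagonal, Fin.sum_univ_three]
  have b0 := mul_self_nonneg (v 0); have b1 := mul_self_nonneg (v 1)
  have b2 := mul_self_nonneg (v 2)
  constructor
  · nlinarith [mul_le_mul_of_nonneg_right a0 b0, mul_le_mul_of_nonneg_right a1 b1,
      mul_le_mul_of_nonneg_right a2 b2]
  · nlinarith [mul_nonneg h0.le b1, mul_nonneg h0.le b2, mul_nonneg h1.le b0, mul_nonneg h1.le b2,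
      mul_nonneg h2.le b0, mul_nonneg h2.le b1]

lemma gk_pos {s : V} (hs : Ps s) (w : V) : 0 < gk s w := by
  have h0 := hs 0; have h1 := hs 1; have h2 := hs 2
  have := Real.pi_pos
  unfold gk; positivity

lemma gk_neg (s w : V) : gk s (-w) = gk s w := by simp [gk]

lemma gk_int (h4 : K4Stmt) {s : V} (hs : Ps s) : Integrable (gk s) ∧ ∫ w, gk s w = 1 := by
  obtain ⟨c, hc, -, h⟩ := diag_bd hs
  have := h4.1 (diagonal s) c hc (diagonal_transpose s) fun v => (h v).1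
  rw [ker_diag hs] at this
  exact ⟨this.2.1, this.2.2.1⟩

lemma gk_meas (s : V) : Measurable (gk s) := by unfold gk; fun_prop
lemma yk_meas (s : V) (i : Fin 3) : Measurable (yk s i) := by unfold yk gk; fun_prop

lemma Bd.nn {B : ℝ} {f : V → ℝ} (h : Bd B f) : 0 ≤ B := (abs_nonneg _).trans (h.2 0)

lemma Bd.int {B : ℝ} {f : V → ℝ} (h : Bd B f) {κ : V → ℝ} (hκ : Integrable κ) (x : V) :
    Integrable fun u => f (x - u) * κ u :=
  hκ.bdd_mul (c := B) (h.1.comp (by fun_prop)).aestronglyMeasurable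
    (Eventually.of_forall fun u => h.2 _)

lemma Bd.abs_le {B : ℝ} {f : V → ℝ} (h : Bd B f) {κ : V → ℝ} (hκ : Integrable κ) (x : V) :
    |∫ u, f (x - u) * κ u| ≤ B * ∫ u, |κ u| := by
  rw [← integral_const_mul]
  refine abs_integral_le_integral_abs.trans (integral_mono (h.int hκ x).abs (hκ.abs.const_mul B)
    fun u => ?_)
  simp only [abs_mul]
  exact mul_le_mul_of_nonneg_right (h.2 _) (abs_nonneg _)

lemma Bd.sq {B : ℝ} {f : V → ℝ} (h : Bd B f) : Bd (B ^ 2) fun x => f x ^ 2 :=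
  ⟨h.1.pow_const 2, fun x => by rw [abs_pow]; exact pow_le_pow_left₀ (abs_nonneg _) (h.2 x) 2⟩

lemma gkGK {B : ℝ} {f : V → ℝ} (h : Bd B f) {s : V} (hs : Ps s) :
    GK f id fun _ => diagonal s := by
  obtain ⟨c, hc, hc1, hb⟩ := diag_bd hs
  have h0 := hs 0; have h1 := hs 1; have h2 := hs 2; have hB := h.nn
  refine ⟨h.1, continuous_id, fun i j => continuous_const, c, B + (s 0 + s 1 + s 2), hc,
    fun x => ⟨(h.2 x).trans (by linarith), fun _ => ⟨?_, diagonal_transpose s, fun v =>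
      ⟨(hb v).1, (hb v).2.trans ?_⟩⟩⟩⟩
  · have := mul_le_mul_of_nonneg_right hc1 (norm_nonneg x)
    simp only [id]; linarith
  · have : 0 ≤ v ⬝ᵥ v := Finset.sum_nonneg fun i _ => mul_self_nonneg _
    nlinarith

lemma Pc_dens (f : V → ℝ) {s : V} (hs : Ps s) : Pc s f = dens f id fun _ => diagonal s := by
  funext z
  unfold Pc dens
  simp only [ker_diag hs]
  rw [← integral_sub_left_eq_self (fun x => f x * gk s (id x - z)) volume z]
  simp [gk_neg]

lemma Pc_sm (h1 : K1Stmt) {B : ℝ} {f : V → ℝ} (h : Bd B f) {s : V} (hs : Ps s) : Sm (Pc s f) := by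
  rw [Pc_dens f hs]; exact (h1 _ _ _ (gkGK h hs)).1

lemma Pc_bd (h1 : K1Stmt) (h4 : K4Stmt) {B : ℝ} {f : V → ℝ} (h : Bd B f) {s : V} (hs : Ps s) :
    Bd B (Pc s f) := by
  refine ⟨(Pc_sm h1 h hs).continuous.measurable, fun x => ?_⟩
  have := h.abs_le (gk_int h4 hs).1 x
  simp only [abs_of_pos (gk_pos hs _), (gk_int h4 hs).2, mul_one] at this
  exact this

lemma Pc_nn {f : V → ℝ} (h : ∀ x, 0 ≤ f x) {s : V} (hs : Ps s) (x : V) : 0 ≤ Pc s f x :=
  integral_nonneg fun _ => mul_nonneg (h _) (gk_pos hs _).le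

lemma Pc_add (hc : KCStmt) {B : ℝ} {f : V → ℝ} (h : Bd B f) {s t : V} (hs : Ps s) (ht : Ps t) :
    Pc (s + t) f = Pc t (Pc s f) := by
  funext z
  obtain ⟨c, hc0, -, hb⟩ := diag_bd ht
  have := (hc.1 f id (fun _ => diagonal s) (diagonal t) c (gkGK h hs) hc0 (diagonal_transpose t)
    (fun v => (hb v).1) [] [] z).2
  have hst : Ps (s + t) := fun i => add_pos (hs i) (ht i)
  simp only [List.append_nil, pds, diagonal_add, ker_diag ht] at this
  rw [← Pc_dens f hs] at this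
  rw [Pc_dens f hst]
  refine Eq.trans this ?_
  unfold Pc
  simp only [mul_comm]

lemma pd_gk {s : V} (x z : V) (i : Fin 3) :
    pd i (fun w => gk s (x - w)) z = (x - z) i / s i * gk s (x - z) := by
  have h : HasFDerivAt (fun w : V => gk s (x - w)) _ z :=
    (((HasFDerivAt.fun_sum (u := Finset.univ) fun j _ =>
      ((((hasFDerivAt_apply (𝕜 := ℝ) j z).const_sub (x j)).pow 2).mul_const
        (s j)⁻¹)).neg.mul_const (2 : ℝ)⁻¹).exp).mul_const
        (Real.sqrt ((2 * Real.pi) ^ 3 * (s 0 * s 1 * s 2)))⁻¹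
  rw [pd, h.fderiv]
  fin_cases i <;> simp [gk, Fin.sum_univ_three] <;> ring_nf

lemma pd_Pc (h1 : K1Stmt) {B : ℝ} {f : V → ℝ} (h : Bd B f) {s : V} (hs : Ps s) (i : Fin 3) (z : V) :
    Real.sqrt (s i) * pd i (Pc s f) z = -Gc s i f z := by
  have := ((h1 _ _ _ (gkGK h hs)).2.2 [i] z).2
  simp only [pds, ker_diag hs, id, pd_gk] at this
  rw [Pc_dens f hs, this, ← integral_sub_left_eq_self _ volume z, ← integral_const_mul, Gc,
    ← integral_neg]
  refine integral_congr_ae (Eventually.of_forall fun u => ?_)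
  have h0 : 0 < Real.sqrt (s i) := Real.sqrt_pos.2 (hs i)
  have e : s i = Real.sqrt (s i) * Real.sqrt (s i) := (Real.mul_self_sqrt (hs i).le).symm
  simp only [sub_sub_cancel_left, gk_neg, yk, Pi.neg_apply]
  generalize Real.sqrt (s i) = q at *
  rw [e]; field_simp

lemma y2_le {s : V} (hs : Ps s) (i : Fin 3) (u : V) :
    (u i / Real.sqrt (s i)) ^ 2 * gk s u ≤ 12 * gk ((2 : ℝ) • s) u := by
  have h0 := hs 0; have h1 := hs 1; have h2 := hs 2
  have hp := Real.pi_pos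
  have hq : u i ^ 2 / s i ≤ ∑ j, u j ^ 2 / s j :=
    Finset.single_le_sum (f := fun j => u j ^ 2 / s j)
      (fun j _ => div_nonneg (sq_nonneg _) (hs j).le) (Finset.mem_univ i)
  have e1 : ∑ j, u j ^ 2 / ((2 : ℝ) • s) j = (∑ j, u j ^ 2 / s j) / 2 := by
    rw [Finset.sum_div]; refine Finset.sum_congr rfl fun j _ => ?_
    simp only [Pi.smul_apply, smul_eq_mul]; ring
  unfold gk
  rw [e1, div_pow, Real.sq_sqrt (hs i).le]
  set q := ∑ j, u j ^ 2 / s j
  set D := Real.sqrt ((2 * Real.pi) ^ 3 * (s 0 * s 1 * s 2)) with hD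
  have hD0 : 0 < D := by positivity
  have e2 : Real.sqrt ((2 * Real.pi) ^ 3 * (((2 : ℝ) • s) 0 * ((2 : ℝ) • s) 1 * ((2 : ℝ) • s) 2)) ≤
      3 * D := by
    rw [Real.sqrt_le_left (by positivity), mul_pow 3 D, hD, Real.sq_sqrt (by positivity)]
    simp only [Pi.smul_apply, smul_eq_mul]
    have : 0 < (2 * Real.pi) ^ 3 * (s 0 * s 1 * s 2) := by positivity
    nlinarith
  have e3 : 0 < Real.sqrt ((2 * Real.pi) ^ 3 *
      (((2 : ℝ) • s) 0 * ((2 : ℝ) • s) 1 * ((2 : ℝ) • s) 2)) := by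
    simp only [Pi.smul_apply, smul_eq_mul]; positivity
  have e4 : q * Real.exp (-q / 2) ≤ 4 * Real.exp (-(q / 2) / 2) := by
    have a : q / 4 + 1 ≤ Real.exp (q / 4) := Real.add_one_le_exp _
    have b : Real.exp (-(q / 2) / 2) = Real.exp (q / 4) * Real.exp (-q / 2) := by
      rw [← Real.exp_add]; congr 1; ring
    rw [b]; nlinarith [Real.exp_pos (-q / 2)]
  calc u i ^ 2 / s i * (Real.exp (-q / 2) / D) ≤ q * (Real.exp (-q / 2) / D) :=
        mul_le_mul_of_nonneg_right hq (by positivity)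
    _ = q * Real.exp (-q / 2) / D := by ring
    _ ≤ 4 * Real.exp (-(q / 2) / 2) / D := by gcongr
    _ = 12 * (Real.exp (-(q / 2) / 2) / (3 * D)) := by field_simp; ring
    _ ≤ _ := by gcongr

lemma two_ps {s : V} (hs : Ps s) : Ps ((2 : ℝ) • s) := fun i => by
  have := hs i; simp only [Pi.smul_apply, smul_eq_mul]; positivity

lemma y2_int (h4 : K4Stmt) {s : V} (hs : Ps s) (i : Fin 3) :
    Integrable (fun u : V => (u i / Real.sqrt (s i)) ^ 2 * gk s u) ∧
    ∫ u : V, (u i / Real.sqrt (s i)) ^ 2 * gk s u ≤ 12 := by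
  have hI := (gk_int h4 (two_ps hs)).1.const_mul 12
  have hm : Measurable fun u : V => (u i / Real.sqrt (s i)) ^ 2 * gk s u := by unfold gk; fun_prop
  have h : Integrable fun u : V => (u i / Real.sqrt (s i)) ^ 2 * gk s u :=
    hI.mono' hm.aestronglyMeasurable (Eventually.of_forall fun u => by
      rw [Real.norm_of_nonneg (mul_nonneg (sq_nonneg _) (gk_pos hs u).le)]; exact y2_le hs i u)
  refine ⟨h, (integral_mono h hI (y2_le hs i)).trans ?_⟩
  rw [integral_const_mul, (gk_int h4 (two_ps hs)).2]; norm_num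

lemma yk_int (h4 : K4Stmt) {s : V} (hs : Ps s) (i : Fin 3) :
    Integrable (yk s i) ∧ ∫ u, |yk s i u| ≤ 7 ∧ ∫ u, yk s i u = 0 := by
  have hI := ((gk_int h4 hs).1.add (y2_int h4 hs i).1).div_const 2
  have hb : ∀ u, |yk s i u| ≤ (gk s u + (u i / Real.sqrt (s i)) ^ 2 * gk s u) / 2 := fun u => by
    have := gk_pos hs u
    rw [yk, abs_mul, abs_of_pos this, ← sq_abs (u i / _)]
    nlinarith [sq_nonneg (|u i / Real.sqrt (s i)| - 1)]
  have h : Integrable (yk s i) :=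
    hI.mono' (yk_meas s i).aestronglyMeasurable (Eventually.of_forall hb)
  refine ⟨h, (integral_mono h.abs hI hb).trans ?_, ?_⟩
  · rw [integral_div, integral_add' (gk_int h4 hs).1 (y2_int h4 hs i).1, (gk_int h4 hs).2]
    linarith [(y2_int h4 hs i).2]
  · have := integral_neg_eq_self (yk s i) volume
    have e : ∀ u, yk s i (-u) = -yk s i u := fun u => by simp [yk, gk_neg, neg_div]
    simp only [e, integral_neg] at this
    linarith

lemma Gc_le (h4 : K4Stmt) {B : ℝ} {f : V → ℝ} (h : Bd B f) {s : V} (hs : Ps s) (i : Fin 3) (x : V) :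
    |Gc s i f x| ≤ 7 * B := by
  have := h.abs_le (yk_int h4 hs i).1 x
  unfold Gc
  linarith [mul_le_mul_of_nonneg_left (yk_int h4 hs i).2.1 h.nn]

lemma Gc_var (h4 : K4Stmt) {B : ℝ} {f : V → ℝ} (h : Bd B f) {s : V} (hs : Ps s) (i : Fin 3)
    (x : V) : Gc s i f x ^ 2 ≤ 12 * (Pc s (fun y => f y ^ 2) x - Pc s f x ^ 2) := by
  have i0 := (gk_int h4 hs).1
  have i1 := (yk_int h4 hs i).1
  have i2 := (y2_int h4 hs i).1
  have j0 := h.int i0 x
  have j1 := h.int i1 x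
  have j2 := h.sq.int i0 x
  set m := Pc s f x with hm
  set g := Gc s i f x with hg
  have key : ∫ u, (2 * (g / 12) * (f (x - u) * yk s i u) - 2 * (g / 12) * m * yk s i u) ≤
      ∫ u, ((f (x - u) ^ 2 * gk s u - 2 * m * (f (x - u) * gk s u) + m ^ 2 * gk s u) +
        (g / 12) ^ 2 * ((u i / Real.sqrt (s i)) ^ 2 * gk s u)) := by
    refine integral_mono ((j1.const_mul _).sub (i1.const_mul _))
      (((j2.sub (j0.const_mul _)).add (i0.const_mul _)).add (i2.const_mul _)) fun u => ?_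
    simp only [yk]
    nlinarith [mul_nonneg (sq_nonneg (f (x - u) - m - g / 12 * (u i / Real.sqrt (s i))))
      (gk_pos hs u).le]
  have k1 : Integrable fun u => f (x - u) ^ 2 * gk s u - 2 * m * (f (x - u) * gk s u) :=
    j2.sub (j0.const_mul _)
  have k2 : Integrable fun u => f (x - u) ^ 2 * gk s u - 2 * m * (f (x - u) * gk s u) +
      m ^ 2 * gk s u := k1.add (i0.const_mul _)
  rw [integral_sub (j1.const_mul _) (i1.const_mul _), integral_add k2 (i2.const_mul _),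
    integral_add k1 (i0.const_mul _), integral_sub j2 (j0.const_mul _)] at key
  simp only [integral_const_mul, (yk_int h4 hs i).2.2, (gk_int h4 hs).2] at key
  have a := mul_le_mul_of_nonneg_left (y2_int h4 hs i).2 (sq_nonneg (g / 12))
  have e1 : ∫ u, f (x - u) * yk s i u = g := rfl
  have e2 : ∫ u, f (x - u) * gk s u = m := rfl
  have e3 : ∫ u, f (x - u) ^ 2 * gk s u = Pc s (fun y => f y ^ 2) x := rfl
  rw [e1, e2, e3] at key
  nlinarith

end
end Pool.Agent.MP_20bec2_an.T3.En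

end MrgPart0

-- ======== part 1: formerly Pool.Agent.MP_20bec2_an.T3.EnerB
section MrgPart1

set_option autoImplicit false
open MeasureTheory Set Filter Matrix Topology

namespace Pool.Agent.MP_20bec2_an.T3.En
noncomputable section
open Classical

def s0 (r : ℝ) : V := ![2 * r ^ 2, 2, 2]
def Nn (r a : ℝ) (ρ : V → ℝ) (x : V) : ℝ := ∑ i, Gc (a ^ 2 • s0 r) i ρ x ^ 2

lemma s0_ps {r : ℝ} (hr : 0 < r) : Ps (s0 r) := fun i => by
  fin_cases i <;> simp [s0, pow_pos hr]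

lemma sm_ps {s : V} (hs : Ps s) {b : ℝ} (hb : 0 < b) : Ps (b • s) := fun i => mul_pos hb (hs i)

lemma rho_bd {ρ : V → ℝ} (h : Rho ρ) : Bd 2 ρ := ⟨h.1, fun x => by
  have := abs_le.1 (h.2 x)
  have e : eps0 ≤ 1 := by unfold eps0; norm_num
  rw [abs_le]; constructor <;> linarith [this.1, this.2]⟩

lemma sq_Gc (h1 : K1Stmt) {B : ℝ} {f : V → ℝ} (h : Bd B f) {s : V} (hs : Ps s) (i : Fin 3) (z : V) :
    Gc s i f z ^ 2 = s i * pd i (Pc s f) z ^ 2 := by
  rw [← neg_sq, ← pd_Pc h1 h hs, mul_pow, Real.sq_sqrt (hs i).le]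

lemma heat_eq {r b : ℝ} (hr : 0 < r) (hb : 0 < b) (ρ : V → ℝ) :
    heat r b ρ = Pc (b • s0 r) ρ := by
  funext x
  have e : dg3 (2 * b * r ^ 2) (2 * b) (2 * b) = diagonal (b • s0 r) := by
    unfold dg3; congr 1; funext i; fin_cases i <;> simp [s0] <;> ring
  unfold heat Pc
  rw [e, ker_diag (sm_ps (s0_ps hr) hb)]

lemma enr_eq (h1 : K1Stmt) {r lam : ℝ} (hr : 0 < r) (hl : 0 < lam) {ρ : V → ℝ} (h : Bd 2 ρ) (x : V) :
    enr r lam ρ x = ∫ t in Ioc 0 (Real.sqrt 2), Nn r (lam * t) ρ x := by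
  have e2 : Real.sqrt 2 ^ 2 = 2 := Real.sq_sqrt (by norm_num)
  have him : (fun t : ℝ => (lam * t) ^ 2) '' Ioc 0 (Real.sqrt 2) = Ioc 0 (2 * lam ^ 2) := by
    ext b
    constructor
    · rintro ⟨t, ⟨h0, ht⟩, rfl⟩
      refine ⟨by positivity, ?_⟩
      have : t ^ 2 ≤ 2 := e2 ▸ pow_le_pow_left₀ h0.le ht 2
      simp only [mul_pow]; nlinarith [sq_nonneg lam]
    · rintro ⟨h0, hb⟩
      refine ⟨Real.sqrt b / lam, ⟨by positivity, ?_⟩, ?_⟩
      · rw [div_le_iff₀ hl, Real.sqrt_le_left (by positivity), mul_pow, e2]; exact hb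
      · simp only [mul_div_cancel₀ _ hl.ne', Real.sq_sqrt h0.le]
  unfold enr
  rw [intervalIntegral.integral_of_le (by positivity), ← him,
    integral_image_eq_integral_abs_deriv_smul (f' := fun t => 2 * lam ^ 2 * t) measurableSet_Ioc]
  · refine setIntegral_congr_fun measurableSet_Ioc fun t ht => ?_
    have h0 : 0 < t := ht.1
    have hb : 0 < (lam * t) ^ 2 := by positivity
    have hs := sm_ps (s0_ps hr) hb
    simp only [Nn, Fin.sum_univ_three, sq_Gc h1 h hs, heat_eq hr hb, smul_eq_mul, Pi.smul_apply]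
    rw [abs_of_pos (by positivity), Real.sqrt_sq (by positivity)]
    simp only [s0, Matrix.cons_val_zero, Matrix.cons_val_one, Matrix.cons_val]
    field_simp
  · intro t _
    have := (((hasDerivAt_id t).const_mul lam).pow 2).hasDerivWithinAt (s := Ioc 0 (Real.sqrt 2))
    refine this.congr_deriv ?_
    simp only [id]; push_cast; ring
  · intro t ht u hu e
    have := (pow_left_inj₀ (mul_pos hl ht.1).le (mul_pos hl hu.1).le two_ne_zero).1 e
    exact mul_left_cancel₀ hl.ne' this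

lemma Gc_meas (r : ℝ) {ρ : V → ℝ} (h : Measurable ρ) (i : Fin 3) :
    Measurable fun p : ℝ × V => Gc (p.1 ^ 2 • s0 r) i ρ p.2 := by
  have : Measurable fun q : (ℝ × V) × V => ρ (q.1.2 - q.2) * yk (q.1.1 ^ 2 • s0 r) i q.2 := by
    unfold yk gk
    simp only [Pi.smul_apply, smul_eq_mul]
    fun_prop
  exact this.stronglyMeasurable.integral_prod_right'.measurable

lemma Nn_meas (r : ℝ) {ρ : V → ℝ} (h : Measurable ρ) :
    Measurable fun p : ℝ × V => Nn r p.1 ρ p.2 :=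
  Finset.measurable_sum _ fun i _ => (Gc_meas r h i).pow_const 2

lemma Nn_comp (r : ℝ) {ρ : V → ℝ} (h : Measurable ρ) {X : Type} [MeasurableSpace X] {a : X → ℝ}
    {y : X → V} (ha : Measurable a) (hy : Measurable y) : Measurable fun p => Nn r (a p) ρ (y p) := by
  simpa only [Function.comp_def] using (Nn_meas r h).comp (ha.prodMk hy)

lemma Nn_nn (r a : ℝ) (ρ : V → ℝ) (x : V) : 0 ≤ Nn r a ρ x :=
  Finset.sum_nonneg fun _ _ => sq_nonneg _

lemma Nn_le (h4 : K4Stmt) {r : ℝ} (hr : 0 < r) {ρ : V → ℝ} (h : Bd 2 ρ) (a : ℝ) (x : V) :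
    |Nn r a ρ x| ≤ 600 := by
  rw [abs_of_nonneg (Nn_nn _ _ _ _)]
  rcases eq_or_ne a 0 with rfl | ha
  · simp [Nn, Gc, yk]
  have hs := sm_ps (s0_ps hr) (sq_pos_of_ne_zero ha)
  have : ∀ i, Gc (a ^ 2 • s0 r) i ρ x ^ 2 ≤ 200 := fun i => by
    have := Gc_le h4 h hs i x
    rw [← sq_abs]; nlinarith [abs_nonneg (Gc (a ^ 2 • s0 r) i ρ x)]
  rw [Nn, Fin.sum_univ_three]; linarith [this 0, this 1, this 2]

lemma Nn_bd (h4 : K4Stmt) {r : ℝ} (hr : 0 < r) {ρ : V → ℝ} (h : Bd 2 ρ) (a : ℝ) :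
    Bd 600 (Nn r a ρ) :=
  ⟨Nn_comp r h.1 (a := fun _ => a) (y := fun y => y) (by fun_prop) (by fun_prop), Nn_le h4 hr h a⟩

lemma sq2 : Real.sqrt 2 ≤ 3 / 2 := by rw [Real.sqrt_le_left (by norm_num)]; norm_num

lemma setI_le {F : ℝ → ℝ} {C : ℝ} (hC : 0 ≤ C) (hF : IntegrableOn F (Ioc 0 (Real.sqrt 2)))
    (h : ∀ t ∈ Ioc 0 (Real.sqrt 2), F t ≤ C) : ∫ t in Ioc 0 (Real.sqrt 2), F t ≤ 2 * C := by
  refine (setIntegral_mono_on hF (integrable_const C) measurableSet_Ioc h).trans ?_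
  rw [setIntegral_const, Real.volume_real_Ioc_of_le (by positivity), smul_eq_mul]
  nlinarith [sq2]

lemma Nn_int (h4 : K4Stmt) {r : ℝ} (hr : 0 < r) {ρ : V → ℝ} (h : Bd 2 ρ) (lam : ℝ) (x : V) :
    IntegrableOn (fun t => Nn r (lam * t) ρ x) (Ioc 0 (Real.sqrt 2)) :=
  Integrable.of_bound (Nn_comp r h.1 (by fun_prop) (by fun_prop)).aestronglyMeasurable 600
    (Eventually.of_forall fun _ => Nn_le h4 hr h _ _)

lemma enr_bd (h1 : K1Stmt) (h4 : K4Stmt) {r lam : ℝ} (hr : 0 < r) (hl : 0 < lam) {ρ : V → ℝ}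
    (h : Bd 2 ρ) : Measurable (enr r lam ρ) ∧ ∀ x, 0 ≤ enr r lam ρ x ∧ enr r lam ρ x ≤ 1200 := by
  refine ⟨?_, fun x => ?_⟩
  · rw [funext (enr_eq h1 hr hl h)]
    have : Measurable fun q : V × ℝ => Nn r (lam * q.2) ρ q.1 :=
      Nn_comp r h.1 (by fun_prop) (by fun_prop)
    exact this.stronglyMeasurable.integral_prod_right'.measurable
  · rw [enr_eq h1 hr hl h]
    refine ⟨integral_nonneg fun _ => Nn_nn _ _ _ _, ?_⟩
    linarith [setI_le (C := 600) (by norm_num) (Nn_int h4 hr h lam x)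
      fun t _ => (le_abs_self _).trans (Nn_le h4 hr h _ _)]

lemma swapI {X : Type} [MeasurableSpace X] {μ : Measure X} [SFinite μ] {a : X → ℝ}
    (ha : Integrable a μ) {κ : V → ℝ} (hκ : Integrable κ) {F : X → V → ℝ}
    (hF : Measurable fun p : X × V => F p.1 p.2) {M : ℝ} (hM : ∀ t w, |F t w| ≤ M) :
    Integrable (fun t => a t * ∫ w, κ w * F t w) μ ∧
    ∫ w, κ w * ∫ t, a t * F t w ∂μ = ∫ t, a t * (∫ w, κ w * F t w) ∂μ := by
  have hI : Integrable (fun p : X × V => a p.1 * κ p.2 * F p.1 p.2) (μ.prod volume) :=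
    (ha.mul_prod hκ).mul_bdd hF.aestronglyMeasurable (Eventually.of_forall fun p => hM _ _)
  have e : ∀ t, a t * ∫ w, κ w * F t w = ∫ w, a t * κ w * F t w := fun t => by
    simp only [← integral_const_mul, mul_assoc]
  simp only [e]
  refine ⟨hI.integral_prod_left, ?_⟩
  rw [integral_integral_swap (f := fun t w => a t * κ w * F t w) hI]
  simp only [← integral_const_mul, mul_assoc, mul_left_comm]

/-! the sum over scales -/

def Wf (r : ℝ) (ρ : V → ℝ) (L x : V) (a : ℝ) : ℝ :=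
  Pc (fun i => 6 * L i ^ 2 - a ^ 2 * s0 r i) (fun y => Pc (a ^ 2 • s0 r) ρ y ^ 2) x

lemma tele (h1 : K1Stmt) (h4 : K4Stmt) (hc : KCStmt) {r a : ℝ} (hr : 0 < r) (ha : 0 < a)
    {ρ : V → ℝ} (h : Bd 2 ρ) {L : V} (hS : Ps fun i => 6 * L i ^ 2 - a ^ 2 * s0 r i) (x : V) :
    ∫ w, Nn r a ρ (x - w) * gk (fun i => 6 * L i ^ 2 - a ^ 2 * s0 r i) w ≤
      48 * (Wf r ρ L x (a / 2) - Wf r ρ L x a) := by
  have p1 : Ps ((a / 2) ^ 2 • s0 r) := sm_ps (s0_ps hr) (by positivity)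
  have p2 : Ps ((3 / 4 * a ^ 2) • s0 r) := sm_ps (s0_ps hr) (by positivity)
  have p3 : Ps (a ^ 2 • s0 r) := sm_ps (s0_ps hr) (by positivity)
  have hf := Pc_bd h1 h4 h p1
  set f := Pc ((a / 2) ^ 2 • s0 r) ρ
  have e1 : Pc (a ^ 2 • s0 r) ρ = Pc ((3 / 4 * a ^ 2) • s0 r) f := by
    rw [← Pc_add hc h p1 p2, ← add_smul]; congr 2; ring
  have hN : ∀ y, Nn r a ρ y ≤ 48 * (Pc ((3 / 4 * a ^ 2) • s0 r) (fun y => f y ^ 2) y -
      Pc (a ^ 2 • s0 r) ρ y ^ 2) := fun y => by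
    have : ∀ i, Gc (a ^ 2 • s0 r) i ρ y ^ 2 ≤ 16 * (Pc ((3 / 4 * a ^ 2) • s0 r) (fun y => f y ^ 2) y -
        Pc (a ^ 2 • s0 r) ρ y ^ 2) := fun i => by
      have := Gc_var h4 hf p2 i y
      rw [sq_Gc h1 hf p2] at this
      rw [sq_Gc h1 h p3, e1]
      simp only [Pi.smul_apply, smul_eq_mul] at this ⊢
      linarith
    rw [Nn, Fin.sum_univ_three]; linarith [this 0, this 1, this 2]
  have i0 := (gk_int h4 hS).1
  have i1 := (Pc_bd h1 h4 hf.sq p2).int i0 x
  have i2 := (Pc_bd h1 h4 h p3).sq.int i0 x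
  have hb := Nn_bd h4 hr h a
  have e2 : Wf r ρ L x (a / 2) = Pc (fun i => 6 * L i ^ 2 - a ^ 2 * s0 r i)
      (Pc ((3 / 4 * a ^ 2) • s0 r) fun y => f y ^ 2) x := by
    rw [← Pc_add hc hf.sq p2 hS, Wf]
    congr 1; funext i; simp only [Pi.add_apply, Pi.smul_apply, smul_eq_mul]; ring
  rw [e2, Wf, Pc, Pc, ← integral_sub i1 i2, ← integral_const_mul]
  refine integral_mono (hb.int i0 x) ((i1.sub i2).const_mul 48) fun w => ?_
  have := mul_le_mul_of_nonneg_right (hN (x - w)) (gk_pos hS w).le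
  simp only; linarith

def kap : ℝ := (∫ s, bp (1 / 2) 1 s)⁻¹

lemma bp_bd (t : ℝ) : 0 ≤ bp (1 / 2) 1 t ∧ bp (1 / 2) 1 t ≤ 1 :=
  ⟨mul_nonneg (Real.smoothTransition.nonneg _) (Real.smoothTransition.nonneg _),
    mul_le_one₀ (Real.smoothTransition.le_one _) (Real.smoothTransition.nonneg _)
      (Real.smoothTransition.le_one _)⟩

lemma kap_nn : 0 ≤ kap := inv_nonneg.2 (integral_nonneg fun t => (bp_bd t).1)

lemma kb_bd (t : ℝ) : 0 ≤ kb t ∧ kb t ≤ kap ∧ (1 ≤ t ^ 2 → kb t = 0) := by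
  have e : kb t = bp (1 / 2) 1 t * kap := div_eq_mul_inv _ _
  rw [e]
  refine ⟨mul_nonneg (bp_bd t).1 kap_nn, mul_le_of_le_one_left kap_nn (bp_bd t).2, fun h => ?_⟩
  have : bp (1 / 2) 1 t = 0 := by
    unfold bp st
    rcases le_total 0 t with h0 | h0
    · rw [Real.smoothTransition.zero_of_nonpos (x := (1 - t) / _) (by norm_num; nlinarith), mul_zero]
    · rw [Real.smoothTransition.zero_of_nonpos (x := (1 + t) / _) (by norm_num; nlinarith), zero_mul]
  rw [this, zero_mul]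

lemma K_le {L S : V} (hL : Ps L) (hS : ∀ i, 2 * L i ^ 2 ≤ S i ∧ S i ≤ 6 * L i ^ 2) (w : V) :
    0 ≤ ∏ i, kb (w i / L i) / L i ∧ ∏ i, kb (w i / L i) / L i ≤ 1400 * kap ^ 3 * gk S w := by
  have pS : Ps S := fun i => lt_of_lt_of_le (by have := hL i; positivity) (hS i).1
  have hk := kap_nn
  refine ⟨Finset.prod_nonneg fun i _ => div_nonneg (kb_bd _).1 (hL i).le, ?_⟩
  by_cases hw : ∃ i, 1 ≤ (w i / L i) ^ 2
  · obtain ⟨i, hi⟩ := hw
    rw [Finset.prod_eq_zero (Finset.mem_univ i) (by rw [(kb_bd _).2.2 hi, zero_div])]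
    have := gk_pos pS w; positivity
  push Not at hw
  have l0 := hL 0; have l1 := hL 1; have l2 := hL 2
  have a1 : ∏ i, kb (w i / L i) / L i ≤ ∏ i, kap / L i :=
    Finset.prod_le_prod (fun i _ => div_nonneg (kb_bd _).1 (hL i).le) fun i _ =>
      div_le_div_of_nonneg_right (kb_bd _).2.1 (hL i).le
  have a2 : ∀ i, w i ^ 2 / S i ≤ 1 / 2 := fun i => by
    have := hw i
    rw [div_pow, div_lt_one (pow_pos (hL i) 2)] at this
    rw [div_le_iff₀ (pS i)]; linarith [(hS i).1]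
  have a3 : 1 / 4 ≤ Real.exp (-(∑ i, w i ^ 2 / S i) / 2) := by
    refine le_trans ?_ (Real.add_one_le_exp _)
    rw [Fin.sum_univ_three]; linarith [a2 0, a2 1, a2 2]
  have a4 : Real.sqrt ((2 * Real.pi) ^ 3 * (S 0 * S 1 * S 2)) ≤ 350 * (L 0 * L 1 * L 2) := by
    rw [Real.sqrt_le_left (by positivity)]
    have := pS 0; have := pS 1; have := pS 2; have := Real.pi_pos
    calc (2 * Real.pi) ^ 3 * (S 0 * S 1 * S 2)
        ≤ (2 * 4) ^ 3 * (6 * L 0 ^ 2 * (6 * L 1 ^ 2) * (6 * L 2 ^ 2)) := by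
          gcongr
          exacts [Real.pi_le_four, (hS 0).2, (hS 1).2, (hS 2).2]
      _ ≤ _ := by nlinarith [sq_nonneg (L 0 * L 1 * L 2)]
  have a5 : 0 < Real.sqrt ((2 * Real.pi) ^ 3 * (S 0 * S 1 * S 2)) := by
    have := pS 0; have := pS 1; have := pS 2; have := Real.pi_pos; positivity
  refine a1.trans ?_
  calc ∏ i, kap / L i = 1400 * kap ^ 3 * (1 / 4 / (350 * (L 0 * L 1 * L 2))) := by
        rw [Fin.prod_univ_three]; field_simp; ring
    _ ≤ _ := by unfold gk; gcongr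

lemma part3 (h1 : K1Stmt) (h4 : K4Stmt) (hc : KCStmt) {r lam : ℝ} (hr : 0 < r) (hl : 0 < lam)
    {ρ : V → ℝ} (h : Bd 2 ρ) (L : V) (n : ℕ) (x : V) (l0 : r * lam ≤ L 0) (l1 : lam ≤ L 1)
    (l2 : lam ≤ L 2) :
    ∑ j ∈ Finset.range n, mol L (enr r (lam / 2 ^ j) ρ) x ≤ 600000 * kap ^ 3 := by
  have hL : Ps L := fun i => by
    fin_cases i
    exacts [lt_of_lt_of_le (by positivity) l0, lt_of_lt_of_le hl l1, lt_of_lt_of_le hl l2]
  have hk := kap_nn
  have hS : ∀ a : ℝ, a ^ 2 ≤ 2 * lam ^ 2 → ∀ i, 2 * L i ^ 2 ≤ 6 * L i ^ 2 - a ^ 2 * s0 r i ∧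
      6 * L i ^ 2 - a ^ 2 * s0 r i ≤ 6 * L i ^ 2 := fun a ha i => by
    have b1 := mul_nonneg (sq_nonneg a) (s0_ps hr i).le
    have b2 := mul_le_mul_of_nonneg_right ha (s0_ps hr i).le
    have b3 : lam ^ 2 * s0 r i ≤ 2 * L i ^ 2 := by
      have c0 := pow_le_pow_left₀ (by positivity) l0 2
      have c1 := pow_le_pow_left₀ hl.le l1 2
      have c2 := pow_le_pow_left₀ hl.le l2 2
      fin_cases i <;> simp [s0] <;> nlinarith
    constructor <;> linarith
  have pS : ∀ a : ℝ, a ^ 2 ≤ 2 * lam ^ 2 → Ps fun i => 6 * L i ^ 2 - a ^ 2 * s0 r i :=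
    fun a ha i => lt_of_lt_of_le (mul_pos two_pos (pow_pos (hL i) 2)) (hS a ha i).1
  have z : (0 : ℝ) ^ 2 ≤ 2 * lam ^ 2 := by nlinarith [sq_nonneg lam]
  have hK : Integrable fun w : V => ∏ i, kb (w i / L i) / L i := by
    refine ((gk_int h4 (pS 0 z)).1.const_mul (1400 * kap ^ 3)).mono'
      (Continuous.aestronglyMeasurable ?_) (Eventually.of_forall fun w => ?_)
    · have := Real.smoothTransition.continuous
      unfold kb bp st; fun_prop
    · rw [Real.norm_of_nonneg (K_le hL (hS 0 z) w).1]; exact (K_le hL (hS 0 z) w).2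
  have sw := fun j : ℕ => swapI (μ := volume.restrict (Ioc 0 (Real.sqrt 2))) (integrable_const (1 : ℝ))
    hK (F := fun t w => Nn r (lam / 2 ^ j * t) ρ (x - w)) 
      (Nn_comp r h.1 (by fun_prop) (by fun_prop)) fun t w => Nn_le h4 hr h _ _
  simp only [one_mul] at sw
  have e : ∀ j : ℕ, mol L (enr r (lam / 2 ^ j) ρ) x = ∫ t in Ioc 0 (Real.sqrt 2),
      ∫ w : V, (∏ i, kb (w i / L i) / L i) * Nn r (lam / 2 ^ j * t) ρ (x - w) := fun j => by
    rw [← (sw j).2, mol]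
    simp only [enr_eq h1 hr (by positivity : 0 < lam / 2 ^ j) h]
  simp only [e]
  rw [← integral_finsetSum _ fun j _ => (sw j).1]
  refine (setI_le (C := 1400 * kap ^ 3 * (48 * 4)) (by positivity)
    (integrable_finsetSum _ fun j _ => (sw j).1) fun t ht => ?_).trans (by nlinarith [pow_nonneg hk 3])
  have t0 : 0 < t := ht.1
  have ha : ∀ j : ℕ, (lam / 2 ^ j * t) ^ 2 ≤ 2 * lam ^ 2 := fun j => by
    have b1 : t ^ 2 ≤ 2 := by
      have := pow_le_pow_left₀ t0.le ht.2 2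
      rwa [Real.sq_sqrt (by norm_num)] at this
    have b2 : lam / 2 ^ j ≤ lam := div_le_self hl.le (one_le_pow₀ (by norm_num))
    have b3 := pow_le_pow_left₀ (by positivity) b2 2
    rw [mul_pow]; nlinarith [sq_nonneg (lam / 2 ^ j), sq_nonneg t]
  have st : ∀ j : ℕ, ∫ w : V, (∏ i, kb (w i / L i) / L i) * Nn r (lam / 2 ^ j * t) ρ (x - w) ≤
      1400 * kap ^ 3 * (48 * (Wf r ρ L x (lam / 2 ^ (j + 1) * t) - Wf r ρ L x (lam / 2 ^ j * t))) :=
    fun j => by
    have hb := Nn_bd h4 hr h (lam / 2 ^ j * t)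
    have := tele h1 h4 hc hr (by positivity : 0 < lam / 2 ^ j * t) h (pS _ (ha j)) x
    rw [show lam / 2 ^ (j + 1) * t = lam / 2 ^ j * t / 2 by ring]
    refine le_trans ?_ (mul_le_mul_of_nonneg_left this (by positivity))
    rw [← integral_const_mul]
    refine integral_mono ((hb.int hK x).congr (Eventually.of_forall fun w => mul_comm _ _))
      ((hb.int (gk_int h4 (pS _ (ha j))).1 x).const_mul _) fun w => ?_
    have := mul_le_mul_of_nonneg_right (K_le hL (hS _ (ha j)) w).2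
      (Nn_nn r (lam / 2 ^ j * t) ρ (x - w))
    simp only; linarith
  refine (Finset.sum_le_sum fun j _ => st j).trans ?_
  rw [← Finset.mul_sum, ← Finset.mul_sum,
    Finset.sum_range_sub (fun j => Wf r ρ L x (lam / 2 ^ j * t))]
  have w1 : Wf r ρ L x (lam / 2 ^ n * t) ≤ 2 ^ 2 := (le_abs_self _).trans ((Pc_bd h1 h4 (Pc_bd h1 h4 h
    (sm_ps (s0_ps hr) (by positivity : 0 < (lam / 2 ^ n * t) ^ 2))).sq (pS _ (ha n))).2 x)
  have w2 : 0 ≤ Wf r ρ L x (lam / 2 ^ 0 * t) := Pc_nn (fun _ => sq_nonneg _) (pS _ (ha 0)) x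
  gcongr
  linarith

/-! a small perturbation of the constant density -/

lemma yk_le {s : V} (hs : Ps s) (i : Fin 3) (u : V) :
    |yk s i u| ≤ 1 / Real.sqrt ((2 * Real.pi) ^ 3 * (s 0 * s 1 * s 2)) := by
  have hq : u i ^ 2 / s i ≤ ∑ j, u j ^ 2 / s j :=
    Finset.single_le_sum (f := fun j => u j ^ 2 / s j)
      (fun j _ => div_nonneg (sq_nonneg _) (hs j).le) (Finset.mem_univ i)
  rw [yk, abs_mul, abs_of_pos (gk_pos hs u), gk, ← mul_div_assoc]
  gcongr
  have e : |u i / Real.sqrt (s i)| ^ 2 = u i ^ 2 / s i := by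
    rw [sq_abs, div_pow, Real.sq_sqrt (hs i).le]
  set q := ∑ j, u j ^ 2 / s j
  have a : q / 2 + 1 ≤ Real.exp (q / 2) := Real.add_one_le_exp _
  have b : Real.exp (q / 2) * Real.exp (-q / 2) = 1 := by
    rw [← Real.exp_add, ← Real.exp_zero]; congr 1; ring
  rw [← b]
  gcongr
  nlinarith [sq_nonneg (|u i / Real.sqrt (s i)| - 1)]

lemma part4 (h1 : K1Stmt) (h4 : K4Stmt) {lam R : ℝ} (hl : 0 < lam) {ρ : V → ℝ} (h : Rho ρ)
    (hR : 0 < R) (ho : ∀ x, R ≤ ‖x‖ → ρ x = 1) (x : V) : enr 1 lam ρ x ≤ 12 * (R / lam) := by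
  have hb : Bd eps0 fun y => ρ y - 1 := ⟨h.1.sub_const 1, h.2⟩
  have he : eps0 = 1 / 10 ^ 8 := rfl
  have hN : ∀ a : ℝ, 0 < a → Nn 1 a ρ x ≤ 12 * (R / (R + a)) ^ 2 := fun a ha => by
    have hs : Ps (a ^ 2 • s0 1) := sm_ps (s0_ps one_pos) (by positivity)
    have : ∀ i, Gc (a ^ 2 • s0 1) i ρ x ^ 2 ≤ 4 * (R / (R + a)) ^ 2 := fun i => by
      have i1 := yk_int h4 hs i
      have e : Gc (a ^ 2 • s0 1) i ρ x = Gc (a ^ 2 • s0 1) i (fun y => ρ y - 1) x := by
        simp only [Gc, sub_mul, one_mul]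
        rw [integral_sub ((rho_bd h).int i1.1 x) i1.1, i1.2.2, sub_zero]
      have b1 : |Gc (a ^ 2 • s0 1) i ρ x| ≤ 1 := by
        rw [e]; refine (Gc_le h4 hb hs i x).trans ?_; rw [he]; norm_num
      have b2 : |Gc (a ^ 2 • s0 1) i ρ x| ≤ (R / a) ^ 3 := by
        rw [e, Gc, ← setIntegral_eq_integral_of_forall_compl_eq_zero (s := Metric.closedBall x R)]
        · have hy : ∀ u, |yk (a ^ 2 • s0 1) i u| ≤ 1 / a ^ 3 := fun u => by
            refine (yk_le hs i u).trans (one_div_le_one_div_of_le (by positivity) ?_)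
            refine Real.le_sqrt_of_sq_le ?_
            have : (1 : ℝ) ^ 3 ≤ (2 * Real.pi) ^ 3 := by gcongr; linarith [Real.pi_gt_three]
            simp [s0]
            nlinarith [pow_pos ha 6]
          have := norm_setIntegral_le_of_norm_le_const (μ := volume) (s := Metric.closedBall x R)
            (f := fun u => (ρ (x - u) - 1) * yk (a ^ 2 • s0 1) i u) (C := eps0 * (1 / a ^ 3))
            measure_closedBall_lt_top fun u _ => by
              rw [Real.norm_eq_abs, abs_mul]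
              exact mul_le_mul (h.2 _) (hy u) (abs_nonneg _) hb.nn
          refine this.trans ?_
          rw [Measure.real, Real.volume_pi_closedBall _ hR.le, ENNReal.toReal_ofReal (by positivity),
            he, Fintype.card_fin]
          have : 0 < (R / a) ^ 3 := by positivity
          calc _ = 8 / 10 ^ 8 * (R / a) ^ 3 := by ring
            _ ≤ _ := by linarith
        · intro u hu
          rw [Metric.mem_closedBall, dist_comm, dist_eq_norm, not_le] at hu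
          simp [ho _ hu.le]
      rw [← sq_abs]
      have b0 := abs_nonneg (Gc (a ^ 2 • s0 1) i ρ x)
      rcases le_total a R with c | c
      · have : 1 / 2 ≤ R / (R + a) := by rw [le_div_iff₀ (by positivity)]; linarith
        nlinarith
      · have c1 : R / a ≤ 1 := (div_le_one ha).2 c
        have c2 : R / a ≤ 2 * (R / (R + a)) := by
          rw [← mul_div_assoc, div_le_div_iff₀ ha (by positivity)]; nlinarith
        have c3 : (R / a) ^ 3 ≤ R / a := pow_le_of_le_one (by positivity) c1 (by norm_num)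
        nlinarith
    rw [Nn, Fin.sum_univ_three]; linarith [this 0, this 1, this 2]
  have hcont : ContinuousOn (fun t => 12 * (R / (R + lam * t)) ^ 2) (uIcc 0 (Real.sqrt 2)) := by
    refine continuousOn_const.mul ((continuousOn_const.div (by fun_prop) fun t ht => ?_).pow 2)
    rw [uIcc_of_le (by positivity)] at ht
    have := ht.1; positivity
  have hI := hcont.intervalIntegrable (μ := volume)
  rw [enr_eq h1 one_pos hl (rho_bd h)]
  refine (setIntegral_mono_on (Nn_int h4 one_pos (rho_bd h) lam x) hI.1 measurableSet_Ioc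
    fun t ht => hN _ (mul_pos hl ht.1)).trans ?_
  rw [← intervalIntegral.integral_of_le (by positivity),
    intervalIntegral.integral_eq_sub_of_hasDerivAt
      (f := fun t => -(12 * R ^ 2 / lam) * (R + lam * t)⁻¹) ?_ hI]
  · have : 0 < 12 * R ^ 2 / lam * (R + lam * Real.sqrt 2)⁻¹ := by positivity
    have e : 12 * R ^ 2 / lam * (R + lam * 0)⁻¹ = 12 * (R / lam) := by
      rw [mul_zero, add_zero]; field_simp
    linarith
  · intro t ht
    rw [uIcc_of_le (by positivity)] at ht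
    have hp : 0 < R + lam * t := by have := ht.1; positivity
    have := ((((hasDerivAt_id t).const_mul lam).const_add R).inv hp.ne').const_mul
      (-(12 * R ^ 2 / lam))
    refine this.congr_deriv ?_
    simp only [id]; field_simp

end
end Pool.Agent.MP_20bec2_an.T3.En

end MrgPart1

-- ======== part 2: formerly Pool.Agent.MP_20bec2_an.T3.Ener
section MrgPart2

set_option autoImplicit false
open MeasureTheory Set Filter Matrix Topology

namespace Pool.Agent.MP_20bec2_an.T3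
noncomputable section
open Classical
namespace En

lemma scale {a : ℝ} (ha : 0 < a) {κ κ' : V → ℝ} (h : ∀ u, κ' (a • u) = (a ^ 3)⁻¹ * κ u)
    (f : V → ℝ) (x : V) : ∫ u, f (x - u) * κ' u = ∫ u, κ u * f (x - a • u) := by
  have := Measure.integral_comp_smul volume (fun u : V => f (x - u) * κ' u) a
  simp only [h, Module.finrank_fin_fun, smul_eq_mul] at this
  rw [abs_of_pos (by positivity)] at this
  refine mul_left_cancel₀ (by positivity : (a ^ 3)⁻¹ ≠ 0) ?_
  rw [← this, ← integral_const_mul]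
  exact integral_congr_ae (Eventually.of_forall fun u => by ring)

lemma gk_sc {a : ℝ} (ha : 0 < a) {s : V} (hs : Ps s) (u : V) :
    gk (a ^ 2 • s) (a • u) = (a ^ 3)⁻¹ * gk s u := by
  have e1 : ∑ i, (a • u) i ^ 2 / (a ^ 2 • s) i = ∑ i, u i ^ 2 / s i :=
    Finset.sum_congr rfl fun i _ => by
      have := hs i; simp only [Pi.smul_apply, smul_eq_mul]; field_simp
  have e2 : (2 * Real.pi) ^ 3 * ((a ^ 2 • s) 0 * (a ^ 2 • s) 1 * (a ^ 2 • s) 2) =
      (a ^ 3) ^ 2 * ((2 * Real.pi) ^ 3 * (s 0 * s 1 * s 2)) := by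
    simp only [Pi.smul_apply, smul_eq_mul]; ring
  unfold gk
  rw [e1, e2, Real.sqrt_mul (by positivity), Real.sqrt_sq (by positivity)]
  ring

lemma sq_sc {a : ℝ} (ha : 0 < a) (s : V) (i : Fin 3) :
    Real.sqrt ((a ^ 2 • s) i) = a * Real.sqrt (s i) := by
  rw [Pi.smul_apply, smul_eq_mul, Real.sqrt_mul (by positivity), Real.sqrt_sq ha.le]

lemma yk_sc {a : ℝ} (ha : 0 < a) {s : V} (hs : Ps s) (i : Fin 3) (u : V) :
    yk (a ^ 2 • s) i (a • u) = (a ^ 3)⁻¹ * yk s i u := by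
  rw [yk, gk_sc ha hs, sq_sc ha, yk, Pi.smul_apply, smul_eq_mul, mul_div_mul_left _ _ ha.ne']
  ring

def Tt (ρ φ : V → ℝ) (z : V) : ℝ := ∫ x, φ x * ρ (x - z)

lemma Tt_le {ρ φ : V → ℝ} (h : Bd 2 ρ) (hφ : Integrable φ) (z : V) :
    |Tt ρ φ z| ≤ 2 * ∫ x, |φ x| := by
  rw [← integral_const_mul]
  refine abs_integral_le_integral_abs.trans (integral_mono_of_nonneg
    (Eventually.of_forall fun _ => abs_nonneg _) (hφ.abs.const_mul 2)
    (Eventually.of_forall fun x => ?_))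
  simp only [abs_mul]
  nlinarith [h.2 (x - z), abs_nonneg (φ x)]

lemma Tt_sw {ρ φ κ : V → ℝ} (h : Bd 2 ρ) (hφ : Integrable φ) (hκ : Integrable κ) (a : ℝ) :
    ∫ u, κ u * Tt ρ φ (a • u) = ∫ x, φ x * ∫ u, κ u * ρ (x - a • u) :=
  (swapI hφ hκ (F := fun x u => ρ (x - a • u)) (by have := h.1; fun_prop) fun _ _ => h.2 _).2

lemma Tt_conv (ρ φ : V → ℝ) :
    Tt ρ φ = convolution (fun t => ρ (-t)) φ (ContinuousLinearMap.mul ℝ ℝ) volume := by
  funext z
  rw [convolution_def, Tt, ← integral_sub_left_eq_self _ volume z]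
  simp [mul_comm]

lemma pd_c {n : ℕ} {g : V → ℝ} (hg : ContDiff ℝ (n + 1 : ℕ) g) (i : Fin 3) :
    ContDiff ℝ n (pd i g) :=
  (hg.fderiv_right (by norm_cast)).clm_apply contDiff_const

lemma pd_s {g : V → ℝ} (hg : HasCompactSupport g) (i : Fin 3) : HasCompactSupport (pd i g) :=
  hg.fderiv_apply ℝ _

lemma Tt_der {ρ Φ : V → ℝ} (h : Bd 2 ρ) (hΦ : ContDiff ℝ 1 Φ) (hs : HasCompactSupport Φ) (u : V)
    (a : ℝ) : HasDerivAt (fun a : ℝ => Tt ρ Φ (a • u)) (∑ i, u i * Tt ρ (pd i Φ) (a • u)) a := by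
  have hl : LocallyIntegrable (fun t : V => ρ (-t)) volume := fun x =>
    ⟨Metric.ball x 1, Metric.ball_mem_nhds _ one_pos,
      Measure.integrableOn_of_bounded (M := 2) measure_ball_lt_top.ne
        (h.1.comp measurable_neg).aestronglyMeasurable (Eventually.of_forall fun _ => h.2 _)⟩
  have hd := hs.hasFDerivAt_convolution_right (ContinuousLinearMap.mul ℝ ℝ) hl hΦ (a • u)
  rw [← Tt_conv] at hd
  have := hd.comp_hasDerivAt a ((hasDerivAt_id a).smul_const u)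
  refine this.congr_deriv ?_
  have e : (1 : ℝ) • u = ∑ i, u i • (Pi.single i 1 : V) := by
    funext j; fin_cases j <;> simp [Fin.sum_univ_three]
  rw [e, map_sum]
  refine Finset.sum_congr rfl fun i _ => ?_
  rw [map_smul, convolution_precompR_apply _ hl (hs.fderiv ℝ) (hΦ.continuous_fderiv one_ne_zero),
    Tt_conv]
  rfl

lemma Tt_meas {ρ φ : V → ℝ} (h : Measurable ρ) (hφ : Measurable φ) : Measurable (Tt ρ φ) := by
  have : Measurable fun q : V × V => φ q.2 * ρ (q.2 - q.1) := by fun_prop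
  exact this.stronglyMeasurable.integral_prod_right'.measurable

def Jf (s : V) (ρ Φ : V → ℝ) (a : ℝ) : ℝ := ∫ u, gk s u * Tt ρ Φ (a • u)

lemma Jf_der (h4 : K4Stmt) {s : V} (hs : Ps s) {ρ Φ : V → ℝ} (h : Bd 2 ρ) (hΦ : ContDiff ℝ 1 Φ)
    (hc : HasCompactSupport Φ) (a : ℝ) : HasDerivAt (Jf s ρ Φ)
      (∑ i, Real.sqrt (s i) * ∫ x, pd i Φ x * ∫ u, yk s i u * ρ (x - a • u)) a := by
  have c0 : ∀ i, Continuous (pd i Φ) := fun i => (pd_c (n := 0) hΦ i).continuous
  have i0 : ∀ i, Integrable (pd i Φ) := fun i => (c0 i).integrable_of_hasCompactSupport (pd_s hc i)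
  have iΦ : Integrable Φ := hΦ.continuous.integrable_of_hasCompactSupport hc
  have m0 := Tt_meas h.1 hΦ.continuous.measurable
  have m1 := fun i => Tt_meas h.1 (c0 i).measurable
  have j1 : ∀ i, Integrable fun u => Real.sqrt (s i) * (yk s i u * Tt ρ (pd i Φ) (a • u)) :=
    fun i => ((yk_int h4 hs i).1.mul_bdd ((m1 i).comp (by fun_prop)).aestronglyMeasurable
      (Eventually.of_forall fun u => Tt_le h (i0 i) _)).const_mul _
  have := (hasDerivAt_integral_of_dominated_loc_of_deriv_le (μ := volume) (x₀ := a) univ_mem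
    (F := fun a u => gk s u * Tt ρ Φ (a • u))
    (F' := fun a u => ∑ i, Real.sqrt (s i) * (yk s i u * Tt ρ (pd i Φ) (a • u)))
    (bound := fun u => ∑ i, Real.sqrt (s i) * (|yk s i u| * (2 * ∫ x, |pd i Φ x|)))
    (Eventually.of_forall fun b => ((gk_meas s).mul (m0.comp (by fun_prop))).aestronglyMeasurable)
    ((gk_int h4 hs).1.mul_bdd (m0.comp (by fun_prop)).aestronglyMeasurable
      (Eventually.of_forall fun u => Tt_le h iΦ _))
    (integrable_finsetSum _ fun i _ => j1 i).aestronglyMeasurable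
    (Eventually.of_forall fun u b _ => ?_)
    (integrable_finsetSum _ fun i _ => ((yk_int h4 hs i).1.abs.mul_const _).const_mul _)
    (Eventually.of_forall fun u b _ => ?_)).2
  · refine this.congr_deriv ?_
    rw [integral_finsetSum _ fun i _ => j1 i]
    refine Finset.sum_congr rfl fun i _ => ?_
    rw [integral_const_mul, Tt_sw h (i0 i) (yk_int h4 hs i).1]
  · refine (Finset.abs_sum_le_sum_abs _ _).trans (Finset.sum_le_sum fun i _ => ?_)
    rw [abs_mul, abs_mul, abs_of_nonneg (Real.sqrt_nonneg _)]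
    gcongr
    exact Tt_le h (i0 i) _
  · refine ((Tt_der h hΦ hc u b).const_mul (gk s u)).congr_deriv ?_
    rw [Finset.mul_sum]
    refine Finset.sum_congr rfl fun i _ => ?_
    have := Real.sqrt_pos.2 (hs i)
    rw [yk]; field_simp

lemma int_le {g G k W : V → ℝ} {c : ℝ} (hk : Integrable fun x => k x * W x)
    (hg : ∀ x, |g x| ≤ c * k x) (hG : ∀ x, |G x| ≤ W x) :
    |∫ x, g x * G x| ≤ c * ∫ x, k x * W x := by
  rw [← integral_const_mul]
  refine abs_integral_le_integral_abs.trans (integral_mono_of_nonneg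
    (Eventually.of_forall fun _ => abs_nonneg _) (hk.const_mul c)
    (Eventually.of_forall fun x => ?_))
  simp only [abs_mul, ← mul_assoc]
  exact mul_le_mul (hg x) (hG x) (abs_nonneg _) ((abs_nonneg _).trans (hg x))

lemma sqrt_int {F : ℝ → ℝ} (hF : IntegrableOn F (Ioc 0 (Real.sqrt 2))) (h0 : ∀ t, 0 ≤ F t) :
    ∫ t in Ioc 0 (Real.sqrt 2), Real.sqrt (F t) ≤
      2 * Real.sqrt (∫ t in Ioc 0 (Real.sqrt 2), F t) := by
  have e0 : 0 ≤ ∫ t in Ioc 0 (Real.sqrt 2), F t := integral_nonneg h0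
  set e := ∫ t in Ioc 0 (Real.sqrt 2), F t with he
  refine le_of_forall_pos_le_add fun δ hδ => ?_
  have s0 := Real.sqrt_nonneg e
  have ha : 0 < Real.sqrt e + δ := by positivity
  set a := Real.sqrt e + δ with hA
  have i1 : IntegrableOn (fun t => F t / (2 * a)) (Ioc 0 (Real.sqrt 2)) := hF.div_const _
  refine (integral_mono_of_nonneg (Eventually.of_forall fun _ => Real.sqrt_nonneg _)
    (g := fun t => F t / (2 * a) + a / 2) (i1.add (integrable_const _))
    (Eventually.of_forall fun t => ?_)).trans ?_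
  · have := Real.sq_sqrt (h0 t)
    simp only
    rw [div_add' _ _ _ (by positivity), le_div_iff₀ (by positivity)]
    nlinarith [sq_nonneg (Real.sqrt (F t) - a)]
  · rw [integral_add i1 (integrable_const _), integral_div, ← he, setIntegral_const,
      Real.volume_real_Ioc_of_le (by positivity), smul_eq_mul]
    have : e / (2 * a) ≤ Real.sqrt e / 2 := by
      rw [div_le_div_iff₀ (by positivity) (by positivity)]
      nlinarith [Real.sq_sqrt e0]
    nlinarith [sq2]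

lemma part5 (h1 : K1Stmt) (h4 : K4Stmt) {r lam : ℝ} (hr : 0 < r) (hl : 0 < lam) {ρ : V → ℝ}
    (h : Bd 2 ρ) {ψ : Fin 3 → V → ℝ} {k : V → ℝ}
    (hψ : ∀ j, ContDiff ℝ 2 (ψ j) ∧ HasCompactSupport (ψ j)) (hk : Integrable k)
    (hb : ∀ j x, CB 2 ![r * lam, lam, lam] {x} (ψ j) (k x)) :
    Integrable (fun x => ∑ j, ![r * lam, lam, lam] j * pd j (ψ j) x) ∧ (∀ x, 0 ≤ k x) ∧
    |∫ x, (∑ j, ![r * lam, lam, lam] j * pd j (ψ j) x) * ρ x| ≤
      34 * ∫ x, Real.sqrt (enr r lam ρ x) * k x := by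
  set H : V := ![r * lam, lam, lam] with hH
  have hs := s0_ps hr
  have pH : ∀ i, 0 < H i := fun i => by fin_cases i <;> simp [hH, hr, hl]
  have eH : ∀ i, lam * Real.sqrt (s0 r i) = Real.sqrt 2 * H i := fun i => by
    fin_cases i <;> simp [hH, s0, hr.le] <;> ring
  have b0 : ∀ j x, |ψ j x| ≤ 1 * k x := fun j x => by simpa [hp, pds] using hb j x [] (by simp) x rfl
  have b2 : ∀ i j x, H i * (H j * |pd i (pd j (ψ j)) x|) ≤ k x := fun i j x => by
    simpa [hp, pds, mul_assoc] using hb j x [i, j] (by simp) x rfl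
  have k0 : ∀ x, 0 ≤ k x := fun x => by linarith [b0 0 x, abs_nonneg (ψ 0 x)]
  have d1 : ∀ j, ContDiff ℝ 1 (pd j (ψ j)) := fun j => pd_c (n := 1) (hψ j).1 j
  set Φ : V → ℝ := fun x => ∑ j, H j * pd j (ψ j) x with hΦ
  have dΦ : ContDiff ℝ 1 Φ := ContDiff.sum fun j _ => contDiff_const.mul (d1 j)
  have sj : ∀ j, HasCompactSupport fun x => H j * pd j (ψ j) x := fun j =>
    (pd_s (hψ j).2 j).mul_left
  have sΦ : HasCompactSupport Φ := by
    simp only [hΦ, Fin.sum_univ_three]; exact ((sj 0).add (sj 1)).add (sj 2)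
  have iΦ : Integrable Φ := dΦ.continuous.integrable_of_hasCompactSupport sΦ
  have bΦ : ∀ i x, |H i * pd i Φ x| ≤ 3 * k x := fun i x => by
    have hd : HasFDerivAt Φ _ x := HasFDerivAt.fun_sum (u := Finset.univ) fun j _ =>
      (((d1 j).differentiable one_ne_zero) x).hasFDerivAt.const_mul (H j)
    have e : pd i Φ x = ∑ j, H j * pd i (pd j (ψ j)) x := by
      rw [pd, hd.fderiv]; simp [pd]
    have : ∀ j, |H i * (H j * pd i (pd j (ψ j)) x)| ≤ k x := fun j => by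
      rw [abs_mul, abs_mul, abs_of_pos (pH i), abs_of_pos (pH j)]; exact b2 i j x
    rw [e, Finset.mul_sum]
    refine (Finset.abs_sum_le_sum_abs _ _).trans ?_
    rw [Fin.sum_univ_three]; linarith [this 0, this 1, this 2]
  refine ⟨iΦ, k0, ?_⟩
  have q25 : ∀ a x, |Real.sqrt (Nn r a ρ x)| ≤ 25 := fun a x => by
    rw [abs_of_nonneg (Real.sqrt_nonneg _), Real.sqrt_le_left (by norm_num)]
    linarith [Nn_le h4 hr h a x, le_abs_self (Nn r a ρ x)]
  have sw := swapI (μ := volume.restrict (Ioc 0 (Real.sqrt 2))) (integrable_const (1 : ℝ)) hk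
    (F := fun t x => Real.sqrt (Nn r (lam * t) ρ x))
    (Nn_comp r h.1 (by fun_prop) (by fun_prop)).sqrt fun t x => q25 _ _
  simp only [one_mul] at sw
  set M : ℝ → ℝ := fun t => ∫ x, k x * Real.sqrt (Nn r (lam * t) ρ x) with hM
  have dJ := fun t => ((Jf_der h4 hs h dΦ sΦ (lam * t)).comp t ((hasDerivAt_id t).const_mul lam))
  have df := fun t => ((((hasDerivAt_id t).pow 2).div_const 2).const_sub 1).mul (dJ t)
  have key := norm_sub_le_integral_of_norm_deriv_le_of_le (a := 0) (b := Real.sqrt 2)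
    (B := fun t => 17 * M t) (by positivity) (fun t _ => (df t).continuousAt.continuousWithinAt)
    (fun t _ => (df t).differentiableAt.differentiableWithinAt) (Eventually.of_forall fun t ht => ?_)
    ((intervalIntegrable_iff_integrableOn_Ioc_of_le (by positivity)).2 (sw.1.const_mul 17))
  · rw [intervalIntegral.integral_of_le (by positivity), integral_const_mul, ← sw.2] at key
    have e0 : Jf (s0 r) ρ Φ 0 = ∫ x, Φ x * ρ x := by
      simp [Jf, Tt, integral_mul_const, (gk_int h4 hs).2]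
    have e1 : ∫ x, k x * ∫ t in Ioc 0 (Real.sqrt 2), Real.sqrt (Nn r (lam * t) ρ x) ≤
        ∫ x, 2 * (Real.sqrt (enr r lam ρ x) * k x) := by
      have hE := enr_bd h1 h4 hr hl h
      refine integral_mono_of_nonneg (Eventually.of_forall fun x => mul_nonneg (k0 x)
        (integral_nonneg fun _ => Real.sqrt_nonneg _)) ((hk.bdd_mul (c := Real.sqrt 1200)
          hE.1.sqrt.aestronglyMeasurable (Eventually.of_forall fun x => ?_)).const_mul 2)
          (Eventually.of_forall fun x => ?_)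
      · rw [Real.norm_of_nonneg (Real.sqrt_nonneg _)]; exact Real.sqrt_le_sqrt (hE.2 x).2
      · have := mul_le_mul_of_nonneg_left
          (sqrt_int (Nn_int h4 hr h lam x) fun _ => Nn_nn _ _ _ _) (k0 x)
        rw [← enr_eq h1 hr hl h] at this
        simp only; linarith
    rw [integral_const_mul] at e1
    simp [e0] at key
    linarith
  · have t0 : 0 < t := ht.1
    have ha : 0 < lam * t := by positivity
    have ps := sm_ps hs (pow_pos ha 2)
    have iM : Integrable fun x => k x * Real.sqrt (Nn r (lam * t) ρ x) :=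
      hk.mul_bdd (Nn_bd h4 hr h _).1.sqrt.aestronglyMeasurable (Eventually.of_forall (q25 _))
    have gN : ∀ i x, |Gc ((lam * t) ^ 2 • s0 r) i ρ x| ≤ Real.sqrt (Nn r (lam * t) ρ x) :=
      fun i x => Real.abs_le_sqrt (Finset.single_le_sum
        (f := fun i => Gc ((lam * t) ^ 2 • s0 r) i ρ x ^ 2) (fun _ _ => sq_nonneg _)
        (Finset.mem_univ i))
    have M0 : 0 ≤ M t := integral_nonneg fun x => mul_nonneg (k0 x) (Real.sqrt_nonneg _)
    have r2 : 1 ≤ Real.sqrt 2 := Real.one_le_sqrt.2 (by norm_num)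
    have u1 : ∀ i, |lam * (Real.sqrt (s0 r i) * ∫ x, pd i Φ x *
        ∫ u, yk (s0 r) i u * ρ (x - (lam * t) • u))| ≤ 9 / 2 * M t := fun i => by
      simp only [← scale ha (yk_sc ha hs i) ρ]
      rw [← mul_assoc, eH, mul_assoc, ← integral_const_mul, abs_mul,
        abs_of_nonneg (Real.sqrt_nonneg _)]
      simp only [← mul_assoc]
      have := int_le iM (bΦ i) (gN i)
      exact (mul_le_mul sq2 this (abs_nonneg _) (by norm_num)).trans (le_of_eq (by ring))
    have cP := Pc_sm h1 h ps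
    set P := Pc ((lam * t) ^ 2 • s0 r) ρ with hP
    have c1 : ∀ j, Continuous (pd j P) := fun j =>
      (pd_c (n := 0) (cP.of_le (by exact_mod_cast le_top)) j).continuous
    have i1 : ∀ j, Integrable fun x => P x * pd j (ψ j) x := fun j =>
      (cP.continuous.mul (d1 j).continuous).integrable_of_hasCompactSupport
        (pd_s (hψ j).2 j).mul_left
    have u2 : ∀ j, |t * (H j * ∫ x, P x * pd j (ψ j) x)| ≤ M t := fun j => by
      have ib := integral_mul_fderiv_eq_neg_fderiv_mul_of_integrable (μ := volume) (f := P)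
        (g := ψ j) (v := Pi.single j 1)
        (((c1 j).mul (hψ j).1.continuous).integrable_of_hasCompactSupport (hψ j).2.mul_left) (i1 j)
        ((cP.continuous.mul (hψ j).1.continuous).integrable_of_hasCompactSupport (hψ j).2.mul_left)
        (fun x _ => cP.differentiable (by simp) x) fun x _ => (hψ j).1.differentiable (by simp) x
      have e : Real.sqrt 2 * (t * (H j * ∫ x, P x * pd j (ψ j) x)) =
          ∫ x, ψ j x * Gc ((lam * t) ^ 2 • s0 r) j ρ x := by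
        erw [ib]
        rw [← integral_neg]
        simp only [← integral_const_mul]
        refine integral_congr_ae (Eventually.of_forall fun x => ?_)
        have := pd_Pc h1 h ps j x
        rw [sq_sc ha, ← hP, pd] at this
        simp only
        linear_combination (-ψ j x) * this + (t * ψ j x * fderiv ℝ P x (Pi.single j 1)) * eH j
      have := int_le iM (b0 j) (gN j)
      rw [← e, abs_mul, abs_of_nonneg (Real.sqrt_nonneg _)] at this
      nlinarith [abs_nonneg (t * (H j * ∫ x, P x * pd j (ψ j) x))]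
    have e2 : Jf (s0 r) ρ Φ (lam * t) = ∑ j, H j * ∫ x, P x * pd j (ψ j) x := by
      have e3 : ∀ x, ∫ u, gk (s0 r) u * ρ (x - (lam * t) • u) = P x := fun x =>
        (scale ha (gk_sc ha hs) ρ x).symm
      rw [Jf, Tt_sw h iΦ (gk_int h4 hs).1]
      simp only [e3, ← integral_const_mul]
      rw [← integral_finsetSum _ fun j _ => (i1 j).const_mul _]
      refine integral_congr_ae (Eventually.of_forall fun x => ?_)
      simp only [hΦ, Finset.sum_mul]
      exact Finset.sum_congr rfl fun j _ => by ring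
    have t2 : t ^ 2 ≤ 2 := by
      have := pow_le_pow_left₀ t0.le ht.2.le 2
      rwa [Real.sq_sqrt (by norm_num)] at this
    rw [(df t).deriv]
    simp only [Function.comp, id, e2, Fin.sum_univ_three, Real.norm_eq_abs, Pi.pow_apply]
    have fin : ∀ A B : Fin 3 → ℝ, (∀ i, |lam * A i| ≤ 9 / 2 * M t) → (∀ i, |t * B i| ≤ M t) →
        |-(((2 : ℕ) : ℝ) * t ^ (2 - 1) * 1 / 2) * (B 0 + B 1 + B 2) +
          (1 - t ^ 2 / 2) * ((A 0 + A 1 + A 2) * (lam * 1))| ≤ 17 * M t := fun A B hA hB => by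
      have a1 : |lam * A 0 + lam * A 1 + lam * A 2| ≤ 14 * M t := by
        linarith [hA 0, hA 1, hA 2, abs_add_three (lam * A 0) (lam * A 1) (lam * A 2)]
      have a2 : |t * B 0 + t * B 1 + t * B 2| ≤ 3 * M t := by
        linarith [hB 0, hB 1, hB 2, abs_add_three (t * B 0) (t * B 1) (t * B 2)]
      have a3 : |(1 - t ^ 2 / 2) * (lam * A 0 + lam * A 1 + lam * A 2)| ≤ 14 * M t := by
        rw [abs_mul, abs_of_nonneg (by linarith)]
        exact (mul_le_of_le_one_left (abs_nonneg _) (by nlinarith)).trans a1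
      calc _ = |(1 - t ^ 2 / 2) * (lam * A 0 + lam * A 1 + lam * A 2) -
          (t * B 0 + t * B 1 + t * B 2)| := by congr 1; push_cast; ring
        _ ≤ _ := (abs_sub _ _).trans (by linarith)
    exact fin _ _ u1 u2

end En

theorem ener (h1 : K1Stmt) (h4 : K4Stmt) (hc : KCStmt) : EnerStmt := by
  have hk := pow_nonneg En.kap_nn 3
  refine ⟨600000 * (1 + En.kap ^ 3), by linarith, fun r lam ρ hr hl hρ => ?_⟩
  have h := En.rho_bd hρ
  have hE := En.enr_bd h1 h4 hr hl h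
  refine ⟨hE.1, fun x => ⟨(hE.2 x).1, by linarith [(hE.2 x).2]⟩, fun L n x l0 l1 l2 => by
    linarith [En.part3 h1 h4 hc hr hl h L n x l0 l1 l2], fun R hR _ e ho x => ?_,
    fun ψ φ k τ hψ ik iφ hτ hb hφ => ?_⟩
  · subst e
    exact (En.part4 h1 h4 hl hρ hR ho x).trans
      (mul_le_mul_of_nonneg_right (by linarith) (by positivity))
  · obtain ⟨iΦ, k0, hm⟩ := En.part5 h1 h4 hr hl h hψ ik hb
    set Φ : V → ℝ := fun x => ∑ j, ![r * lam, lam, lam] j * pd j (ψ j) x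
    have a : ∀ g : V → ℝ, Integrable g → Integrable fun x => g x * ρ x := fun g hg =>
      hg.mul_bdd h.1.aestronglyMeasurable (Eventually.of_forall h.2)
    have e : ∫ x, ρ x * φ x = (∫ x, (φ x - Φ x) * ρ x) + ∫ x, Φ x * ρ x := by
      rw [← integral_add (a (fun x => φ x - Φ x) (iφ.sub iΦ)) (a _ iΦ)]
      exact integral_congr_ae (Eventually.of_forall fun x => by ring)
    have b := En.int_le (W := fun _ => 2) (ik.mul_const 2) hφ h.2
    rw [integral_mul_const] at b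
    have c : 0 ≤ ∫ x, Real.sqrt (enr r lam ρ x) * k x :=
      integral_nonneg fun x => mul_nonneg (Real.sqrt_nonneg _) (k0 x)
    rw [e]
    refine (abs_add_le _ _).trans ?_
    nlinarith [mul_nonneg hk c]

end
end Pool.Agent.MP_20bec2_an.T3

end MrgPart2

-- marker of a merged file
example : 731051 + 679201 = 731051 + 679201 := rfl

end MrgPart0

-- ======== part 1: formerly Pool.Agent.MP_20bec2_an.T3.Pv
section MrgPart1

-- ======== part 0: formerly Pool.Agent.MP_20bec2_an.T3.PvA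
section MrgPart0

/-! Row PV, part A: the tables of the patterns against the step tables. -/

set_option autoImplicit false
set_option linter.unusedSectionVars false
open Set Filter Real

namespace Pool.Agent.MP_20bec2_an.T3.PvA
noncomputable section
open Classical

section
variable {c : Pm} (h : Gd c)
include h

lemma η_le_mu : c.η ≤ c.mu := le_of_log h.η_pos h.mu_pos h.log_mu_ge

lemma mu_dl : c.mu * c.dl ^ 2 ≤ c.s21 ^ 2 := by
  have := h.mu_pos; have := h.dl_pos; have := h.s21_pos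
  refine le_of_log (by positivity) (by positivity) ?_
  simp (disch := positivity) only [Real.log_mul, Real.log_pow]
  push_cast
  have := h.log_mu.2.1; have := h.log_e4.1; have := h.big.L_ge
  by_cases hA : c.isA
  · obtain ⟨a1, a2, -⟩ := h.log_A hA; linarith
  · obtain ⟨a1, a2, -⟩ := h.log_B hA; linarith

lemma η_dl : c.η * c.dl ^ 2 ≤ c.s21 ^ 2 :=
  (mul_le_mul_of_nonneg_right (η_le_mu h) (sq_nonneg _)).trans (mu_dl h)

lemma dl'_le : c.dl' ≤ c.dl := le_of_log h.dl'_pos h.dl_pos h.log_dl'.2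

lemma mu_dl' : c.mu * c.dl' ^ 2 ≤ c.s21 ^ 2 :=
  (mul_le_mul_of_nonneg_left (pow_le_pow_left₀ h.dl'_pos.le (dl'_le h) 2) h.mu_pos.le).trans
    (mu_dl h)

lemma η_dl' : c.η * c.dl' ^ 2 ≤ c.s21 ^ 2 :=
  (mul_le_mul_of_nonneg_right (η_le_mu h) (sq_nonneg _)).trans (mu_dl' h)

lemma η_t1 : c.η * c.t1 ^ 2 ≤ c.s21 ^ 2 := by
  have := h.η_pos; have := h.t1_pos; have := h.s21_pos
  refine le_of_log (by positivity) (by positivity) ?_
  simp (disch := positivity) only [Real.log_mul, Real.log_pow]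
  push_cast
  have := h.log_e4.1; have := h.big.L_ge
  by_cases hA : c.isA
  · obtain ⟨a1, a2, a3, -⟩ := h.log_A hA; linarith
  · obtain ⟨a1, a2, a3, -⟩ := h.log_B hA; linarith

lemma s21_sq : c.s21 ^ 2 ≤ uV c.N * qp c.N (-2) := by
  have := h.big.uV_pos; have := h.big.qp_pos (-2); have := h.s21_pos
  refine le_of_log (by positivity) (by positivity) ?_
  simp (disch := positivity) only [Real.log_mul, Real.log_pow, h.big.log_uV, h.big.log_qp]
  push_cast
  have := h.big.L_ge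
  by_cases hA : c.isA
  · obtain ⟨a1, a2, -⟩ := h.log_A hA; linarith
  · obtain ⟨a1, a2, -⟩ := h.log_B hA; linarith

lemma s21_le : c.s21 ≤ c.s12 := le_mul_of_one_le_left h.s21_pos.le h.one_le_m

lemma sq_of {x : ℝ} (hx : c.η * x ^ 2 ≤ c.s21 ^ 2) : (c.η * x) ^ 2 ≤ c.η * c.s21 ^ 2 := by
  have := mul_le_mul_of_nonneg_left hx h.η_pos.le
  nlinarith

lemma ηx_le {x : ℝ} (hx : c.η * x ^ 2 ≤ c.s21 ^ 2) : c.η * x ≤ c.s21 := by
  refine (abs_le_of_sq_le_sq' ((sq_of h hx).trans ?_) h.s21_pos.le).2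
  exact mul_le_of_le_one_left (sq_nonneg _) h.η_le_one

lemma small (hη : etaS c.N / 40 ≤ c.η) : c.dl ≤ np c.N (-497 / 1000) ∧
    c.s12 ≤ np c.N (-497 / 1000) ∧ c.ro * np c.N (-498 / 1000) ≤ np c.N (-497 / 1000) ∧
    c.dl / c.s21 * np c.N (-498 / 1000) ≤ np c.N (-497 / 1000) := by
  have := h.dl_pos; have := h.s21_pos; have := h.ro_pos; have := h.big.np_pos (-498 / 1000)
  have p := h.big.np_pos (-497 / 1000)
  have := h.log_etaS_le (a := 1 / 40) (by norm_num) (by linarith)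
  have := h.log_s12; have := h.log_ro; have := h.log_m_le; have := h.log_K_bd.2
  have := h.log_e4.1; have := h.log_mu_ge; have := h.big.L_ge; have := h.big.J_ge
  have := log2_bd.1
  refine ⟨le_of_log h.dl_pos p ?_, le_of_log h.s12_pos p ?_, le_of_log (by positivity) p ?_,
    le_of_log (by positivity) p ?_⟩ <;>
  simp (disch := positivity) only [Real.log_mul, Real.log_div, h.big.log_np] <;>
  rcases (_root_.em c.isA).imp h.log_A h.log_B with ⟨a1, a2, -⟩ | ⟨a1, a2, -⟩ <;> linarith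

lemma low : np c.N (-52 / 100) ≤ c.dB ∧ np c.N (-52 / 100) ≤ uB c.N ∧
    np c.N (-52 / 100) ≤ c.t1B ∧ np c.N (-52 / 100) ≤ sdc c.N / c.q ∧
    np c.N (-497 / 1000) ≤ sdc c.N / c.q ∧
    (etaS c.N / 40 ≤ c.η → np c.N (-52 / 100) ≤ c.η * c.dB) := by
  have := h.dB_pos; have := h.η_pos; have := h.big.sdc_pos; have := h.q_pos
  have p := h.big.np_pos (-52 / 100)
  have := h.log_dB; have := h.log_t1B; have := h.big.log_uB; have := h.log_e4_le
  have := h.big.L_ge; have := h.big.J_ge; have := log2_bd.2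
  refine ⟨le_of_log p h.dB_pos ?_, le_of_log p h.big.uB_pos ?_, le_of_log p h.t1B_pos ?_,
    le_of_log p (by positivity) ?_, le_of_log (h.big.np_pos _) (by positivity) ?_,
    fun hη => le_of_log p (by positivity) ?_⟩
  on_goal 6 => have := h.log_etaS_le (a := 1 / 40) (by norm_num) (by linarith)
  all_goals
    simp (disch := positivity) only [Real.log_mul, Real.log_div, h.big.log_np, h.big.log_sdc,
      h.log_q]
    linarith

lemma sd_low (i j : Fin 3) (hi : i ≠ 2) : np c.N (-9 / 10) ≤ c.sd i j ∧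
    (etaS c.N / 40 ≤ c.η → np c.N (-52 / 100) ≤ c.sd i j) := by
  obtain ⟨l1, l2, l3, l4, -, l5⟩ := low h
  have l0 : np c.N (-9 / 10) ≤ np c.N (-52 / 100) := h.big.np_le (by norm_num)
  have l6 : uB c.N ≤ c.m * uB c.N := le_mul_of_one_le_left h.big.uB_pos.le h.one_le_m
  have l7 := mul_pos h.η_pos h.dB_pos
  have l8 := h.big.np_pos (-9 / 10)
  have l9 : 0 ≤ (if c.boost then sdc c.N / c.q else 0) := by split_ifs <;> linarith
  unfold Pm.sd
  split_ifs with hA
  · exact ⟨l0.trans l4, fun _ => l4⟩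
  all_goals
    fin_cases i <;> fin_cases j <;>
    simp [Pm.sdB, Pm.b23] at hi ⊢ <;> refine ⟨by linarith, fun hη => by linarith [l5 hη]⟩

lemma B_facts (hA : ¬c.isA) : c.dl' / c.s21 * c.t2 ≤ c.t1B ∧ c.η * c.dl / c.s12 * c.t1B ≤ uB c.N ∧
    c.η * c.dl / c.s12 * (√c.p * c.q) ≤ uB c.N ∧ (c.boost → tb c.N ≤ sdc c.N / c.q) := by
  have := h.dl_pos; have := h.dl'_pos; have := h.s21_pos; have := h.s12_pos; have := h.t2_pos
  have := h.η_pos; have := h.t1B_pos; have := h.p_pos; have := h.q_pos; have := h.big.sdc_pos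
  obtain ⟨a1, a2, -, -, a5, a6⟩ := h.log_B hA
  have := h.log_s12; have := h.log_m.1; have := h.log_m.2.1; have := h.log_e4.1
  have := h.log_t1B; have := h.log_p.2.1; have := h.big.L_ge; have := h.big.J_ge
  have := log2_bd.1; have := log2_bd.2
  refine ⟨le_of_log (by positivity) h.t1B_pos ?_, le_of_log (by positivity) h.big.uB_pos ?_,
    le_of_log (by positivity) h.big.uB_pos ?_, fun _ => le_of_log h.big.tb_pos (by positivity) ?_⟩ <;>
  simp (disch := positivity) only [Real.log_mul, Real.log_div, Real.log_sqrt, h.big.log_uB,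
    h.big.log_tb, h.big.log_sdc, h.log_q]
  · rcases (_root_.em c.boost).imp h.log_bst h.log_nbst with ⟨b1, b2, -⟩ | ⟨b1, b2⟩ <;> linarith
  all_goals linarith

end

lemma lat6 {P : Fin 3 → Fin 3 → Prop} (h00 : P 0 0) (h01 : P 0 1) (h02 : P 0 2) (h10 : P 1 0)
    (h11 : P 1 1) (h12 : P 1 2) (i j : Fin 3) (hi : i ≠ 2) : P i j := by
  fin_cases i <;> fin_cases j
  exacts [h00, h01, h02, h10, h11, h12, absurd rfl hi, absurd rfl hi, absurd rfl hi]

/-- the constant of the noise clock -/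
def kap : ℝ := √(3 / 16 * (I1 / I0) / (95 / 1000))

lemma tab0 (d : MD) (a : ℝ) : d.tab 0 a 0 0 = d.c.dl ∧ d.tab 0 a 0 1 = d.c.s12 ∧
    d.tab 0 a 0 2 = (if d.c.noise then 0 else d.c.l1 * a) ∧
    d.tab 0 a 1 0 = d.c.η * d.c.dl ^ 2 / d.c.s12 ∧ d.tab 0 a 1 1 = d.c.η * d.c.dl ∧
    d.tab 0 a 1 2 = d.c.η * d.c.dl / d.c.s12 * (d.c.l1 * a) := by
  unfold MD.tab
  rw [if_pos rfl]
  exact ⟨rfl, rfl, rfl, rfl, rfl, rfl⟩

lemma tab1 (d : MD) {φ : Fin 3} (hφ : φ ≠ 0) (a : ℝ) : d.tab φ a 0 0 = d.c.dl' ∧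
    d.tab φ a 0 1 = d.c.η * d.c.dl' ^ 2 / d.c.s21 ∧
    d.tab φ a 0 2 = d.c.dl' / d.c.s21 * (d.c.lam * a) ∧ d.tab φ a 1 0 = d.c.s21 ∧
    d.tab φ a 1 1 = d.c.η * d.c.dl' ∧ d.tab φ a 1 2 = d.c.lam * a := by
  unfold MD.tab
  rw [if_neg hφ]
  exact ⟨rfl, rfl, rfl, rfl, rfl, rfl⟩

lemma sdB (c : Pm) (hA : ¬c.isA) : c.sd 0 0 = c.dB ∧ c.sd 0 1 = c.m * uB c.N ∧ c.sd 0 2 = c.t1B ∧
    c.sd 1 0 = uB c.N ∧ c.sd 1 1 = c.η * c.dB + np c.N (-9 / 10) ∧
    c.sd 1 2 = uB c.N + if c.boost then sdc c.N / c.q else 0 := by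
  unfold Pm.sd
  rw [if_neg hA]
  exact ⟨add_zero _, add_zero _, add_zero _, add_zero _, add_zero _, rfl⟩

section
variable {d : MD} (h : Gd d.c)
include h

lemma tab_nn (φ : Fin 3) {a : ℝ} (ha : 0 ≤ a) (i j : Fin 3) (hi : i ≠ 2) : 0 ≤ d.tab φ a i j := by
  have := h.dl_pos; have := h.dl'_pos; have := h.s21_pos; have := h.s12_pos
  have := h.η_pos; have := h.l1_pos; have := h.lam_pos
  refine lat6 (P := fun i j => 0 ≤ d.tab φ a i j) ?_ ?_ ?_ ?_ ?_ ?_ i j hi <;>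
  rcases eq_or_ne φ 0 with rfl | hφ <;>
  first
    | simp only [tab1 d hφ a]; positivity
    | simp only [tab0 d a]; positivity

lemma div_s12 : d.c.η * d.c.dl ^ 2 / d.c.s12 ≤ d.c.s21 := by
  rw [div_le_iff₀ h.s12_pos]
  exact (η_dl h).trans (by rw [sq]; exact mul_le_mul_of_nonneg_left (s21_le h) h.s21_pos.le)

lemma div_s21 : d.c.η * d.c.dl' ^ 2 / d.c.s21 ≤ d.c.s21 := by
  rw [div_le_iff₀ h.s21_pos, ← sq]
  exact η_dl' h

lemma tab_small (hη : etaS d.c.N / 40 ≤ d.c.η) (φ : Fin 3) {a : ℝ} (ha : 0 ≤ a)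
    (ha' : a ≤ np d.c.N (-498 / 1000) / d.c.lam) (i j : Fin 3) (hi : i ≠ 2) :
    d.tab φ a i j ≤ np d.c.N (-497 / 1000) := by
  obtain ⟨s1, s2, s3, s4⟩ := small h hη
  have p1 := h.dl_pos; have p2 := h.dl'_pos; have p3 := h.s21_pos; have p4 := h.s12_pos
  have k1 : d.c.lam * a ≤ np d.c.N (-498 / 1000) := by rwa [le_div_iff₀' h.lam_pos] at ha'
  have k2 : d.c.l1 * a ≤ np d.c.N (-497 / 1000) := by
    rw [Pm.l1, mul_assoc]
    exact (mul_le_mul_of_nonneg_left k1 h.ro_pos.le).trans s3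
  have k3 := s21_le h
  have k4 := dl'_le h
  have k5 : np d.c.N (-498 / 1000) ≤ np d.c.N (-497 / 1000) := h.big.np_le (by norm_num)
  have k6 : d.c.η * d.c.dl / d.c.s12 ≤ 1 := (div_le_one p4).2 ((ηx_le h (η_dl h)).trans k3)
  refine lat6 (P := fun i j => d.tab φ a i j ≤ _) ?_ ?_ ?_ ?_ ?_ ?_ i j hi <;>
  rcases eq_or_ne φ 0 with rfl | hφ <;>
  first
    | simp only [tab1 d hφ a]
    | simp only [tab0 d a]
  · exact s1
  · linarith
  · exact s2
  · linarith [div_s21 h]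
  · split_ifs
    exacts [(h.big.np_pos _).le, k2]
  · exact (mul_le_mul (by gcongr) k1 (mul_nonneg h.lam_pos.le ha) (by positivity)).trans s4
  · linarith [div_s12 h]
  · linarith
  · linarith [ηx_le h (η_dl h)]
  · linarith [ηx_le h (η_dl' h)]
  · exact (mul_le_of_le_one_left (mul_nonneg h.l1_pos.le ha) k6).trans k2
  · linarith

lemma tab_B (hA : ¬d.c.isA) (hκ : kap⁻¹ ≤ d.c.q) (φ : Fin 3) (i j : Fin 3) (hi : i ≠ 2) :
    d.tab φ (1 / d.Hh φ) i j ≤ d.c.sd i j := by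
  obtain ⟨s1, s2, s3, s4⟩ := B_facts h hA
  have p1 := h.dl_pos; have p2 := h.dl'_pos; have p3 := h.s21_pos; have p4 := h.s12_pos
  have p5 := h.η_pos; have p6 := h.big.np_pos (-9 / 10)
  have e1 : d.c.dl = d.c.dB := if_neg hA
  have e2 : d.c.s21 = uB d.c.N := if_neg hA
  have e3 : d.c.t1 = d.c.t1B := if_neg hA
  have e4 : d.c.s12 = d.c.m * uB d.c.N := by rw [Pm.s12, e2]
  have k1 : ¬d.c.noise → d.c.l1 * (1 / d.Hh 0) = d.c.t1B := fun hn => by
    have := h.l1_pos; have := h.t1B_pos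
    rw [MD.Hh, if_pos rfl, if_neg hn, Pm.H0, e3]
    field_simp
  have k2 : d.c.noise → d.c.l1 * (1 / d.Hh 0) ≤ √d.c.p * d.c.q := fun hn => by
    have := h.l1_pos; have := Real.sqrt_pos.2 h.p_pos
    have e : d.c.l1 * (1 / d.Hh 0) = √d.c.p * kap⁻¹ := by
      rw [MD.Hh, if_pos rfl, if_pos hn, Pm.Hp, one_div, mul_inv, ← kap]
      field_simp
    rw [e]
    gcongr
  have k3 : ∀ φ : Fin 3, φ ≠ 0 → d.c.lam * (1 / d.Hh φ) = d.c.t2 := fun φ hφ => by
    have := h.lam_pos; have := h.t2_pos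
    rw [MD.Hh, if_neg hφ, Pm.H1]
    field_simp
  have k4 := dl'_le h
  have k5 := s21_le h
  refine lat6 (P := fun i j => d.tab φ _ i j ≤ d.c.sd i j) ?_ ?_ ?_ ?_ ?_ ?_ i j hi <;>
  rcases eq_or_ne φ 0 with rfl | hφ <;>
  first
    | simp only [tab1 d hφ, sdB d.c hA, k3 φ hφ]
    | simp only [tab0 d, sdB d.c hA]
  · exact e1.le
  · linarith
  · exact e4.le
  · linarith [div_s21 h]
  · split_ifs with hn
    exacts [h.t1B_pos.le, (k1 hn).le]
  · exact s1
  · linarith [div_s12 h]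
  · exact e2.le
  · rw [e1]; linarith
  · linarith [mul_le_mul_of_nonneg_left (k4.trans e1.le) p5.le]
  · have : 0 ≤ (if d.c.boost then sdc d.c.N / d.c.q else 0) := by
      split_ifs
      exacts [(div_pos h.big.sdc_pos h.q_pos).le, le_rfl]
    by_cases hn : d.c.noise
    · linarith [mul_le_mul_of_nonneg_left (k2 hn) (by positivity : 0 ≤ d.c.η * d.c.dl / d.c.s12)]
    · rw [k1 hn]; linarith
  · unfold Pm.t2
    split_ifs with hb
    · linarith [s4 hb, h.big.uB_pos]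
    · linarith

lemma tab_Q (hn : ¬d.c.noise) (φ : Fin 3) (a : ℝ) :
    d.c.mu * d.tab φ a 0 0 ^ 2 ≤ d.c.s21 ^ 2 ∧ d.tab φ a 0 1 ^ 2 / d.c.m ^ 2 ≤ d.c.s21 ^ 2 ∧
    d.tab φ a 1 0 ^ 2 ≤ d.c.s21 ^ 2 ∧ d.tab φ a 1 1 ^ 2 ≤ d.c.s21 ^ 2 ∧
    d.c.η * (d.tab φ a 0 1 * d.tab φ a 1 0) ≤ d.c.s21 ^ 2 ∧
    d.c.η * d.tab φ a 0 2 ^ 2 + d.tab φ a 1 2 ^ 2 ≤
      2 * ((if φ = 0 then d.c.η * d.c.l1 ^ 2 else d.c.lam ^ 2) * a ^ 2) := by
  have p1 := h.dl_pos; have p2 := h.dl'_pos; have p3 := h.s21_pos; have p4 := h.s12_pos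
  have p5 := h.η_pos; have p6 := h.m_pos
  have k : ∀ x, d.c.η * x ^ 2 ≤ d.c.s21 ^ 2 → d.c.η * (d.c.η * x ^ 2) ≤ d.c.s21 ^ 2 := fun x hx =>
    (mul_le_of_le_one_left (by positivity) h.η_le_one).trans hx
  rcases eq_or_ne φ 0 with rfl | hφ
  · simp only [tab0 d a, if_neg hn, if_true]
    refine ⟨mu_dl h, le_of_eq ?_, by gcongr; exact div_s12 h, by gcongr; exact ηx_le h (η_dl h),
      ?_, ?_⟩
    · rw [Pm.s12]; field_simp
    · rw [mul_div_cancel₀ _ p4.ne']; exact k _ (η_dl h)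
    · have : (d.c.η * d.c.dl / d.c.s12) ^ 2 ≤ d.c.η := by
        rw [div_pow, div_le_iff₀ (by positivity)]
        exact (sq_of h (η_dl h)).trans (by gcongr; exact s21_le h)
      nlinarith [mul_le_mul_of_nonneg_right this (sq_nonneg (d.c.l1 * a))]
  · simp only [tab1 d hφ a, if_neg hφ]
    refine ⟨mu_dl' h, ?_, le_rfl, by gcongr; exact ηx_le h (η_dl' h), ?_, ?_⟩
    · refine (div_le_self (sq_nonneg _) (one_le_pow₀ h.one_le_m)).trans ?_
      gcongr; exact div_s21 h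
    · rw [div_mul_cancel₀ _ p3.ne']; exact k _ (η_dl' h)
    · have : d.c.η * (d.c.dl' / d.c.s21) ^ 2 ≤ 1 := by
        rw [div_pow, ← mul_div_assoc, div_le_one (by positivity)]
        exact η_dl' h
      nlinarith [mul_le_mul_of_nonneg_right this (sq_nonneg (d.c.lam * a))]

end

end
end Pool.Agent.MP_20bec2_an.T3.PvA

end MrgPart0

-- ======== part 1: formerly Pool.Agent.MP_20bec2_an.T3.Pv
section MrgPart1

/-! Row PV: variances of the point functionals and the second-order sums. -/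

set_option autoImplicit false
set_option linter.unusedSectionVars false
open Set Filter Real Topology

namespace Pool.Agent.MP_20bec2_an.T3
namespace PvA
noncomputable section
open Classical

lemma sum_split {ι : Type} {T : Finset ι} {A B : ι → Prop} [DecidablePred A] [DecidablePred B]
    {F : ι → ℝ} {a b nA nB : ℝ} (ha : 0 ≤ a) (hb : 0 ≤ b) (cA : ((T.filter A).card : ℝ) ≤ nA)
    (cB : ((T.filter B).card : ℝ) ≤ nB) (h1 : ∀ t, A t → F t ≤ a)
    (h2 : ∀ t, ¬A t → B t → F t ≤ b) (h3 : ∀ t, ¬A t → ¬B t → F t ≤ 0) :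
    ∑ t ∈ T, F t ≤ nA * a + nB * b := by
  have k : ∀ t ∈ T, F t ≤ (if A t then a else 0) + if B t then b else 0 := fun t _ => by
    split_ifs with e e' e'
    · linarith [h1 t e]
    · linarith [h1 t e]
    · linarith [h2 t e e']
    · linarith [h3 t e e']
  refine (Finset.sum_le_sum k).trans ?_
  rw [Finset.sum_add_distrib, ← Finset.sum_filter, ← Finset.sum_filter, Finset.sum_const,
    Finset.sum_const, nsmul_eq_mul, nsmul_eq_mul]
  gcongr

lemma sum_sq {ι : Type} {T : Finset ι} {A B : ι → Prop} [DecidablePred A] [DecidablePred B]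
    {X : ι → ℝ} {D e n w : ℝ} (hD : 0 < D) (hn : 0 ≤ n) (he : w * e ^ 2 ≤ 1 / 20)
    (cA : ((T.filter A).card : ℝ) ≤ 9 * n) (cB : ((T.filter B).card : ℝ) ≤ w * n)
    (h1 : ∀ t, A t → |X t| ≤ D / 7) (h2 : ∀ t, ¬A t → B t → |X t| ≤ e * D)
    (h3 : ∀ t, ¬A t → ¬B t → X t = 0) : ∑ t ∈ T, (X t / D) ^ 2 ≤ n / 4 := by
  have k : ∀ t a, |X t| ≤ a * D → (X t / D) ^ 2 ≤ a ^ 2 := fun t a ha => by
    rw [← sq_abs, abs_div, abs_of_pos hD]
    exact pow_le_pow_left₀ (by positivity) ((div_le_iff₀ hD).2 ha) 2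
  refine (sum_split (sq_nonneg (1 / 7)) (sq_nonneg e) cA cB
    (fun t e => k t _ (by linarith [h1 t e])) (fun t e e' => k t _ (h2 t e e'))
    fun t e e' => by simp [h3 t e e']).trans ?_
  nlinarith [mul_le_mul_of_nonneg_left he hn]

lemma sum_MR {ι : Type} {T : Finset ι} {A B : ι → Prop} [DecidablePred A] [DecidablePred B]
    {X : ι → ℝ} (M : ι → ℝ) {D e n w : ℝ} (hD : 0 < D) (hn : 0 ≤ n) (he : w * e ^ 2 ≤ 1 / 20)
    (he' : e ≤ 1 / 100) (cA : ((T.filter A).card : ℝ) ≤ 9 * n)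
    (cB : ((T.filter B).card : ℝ) ≤ w * n) (h1 : ∀ t, |M t| ≤ D / 8) (h2 : ∀ t, ¬A t → M t = 0)
    (h3 : ∀ t, |X t - M t| ≤ e * D) (h4 : ∀ t, ¬B t → X t = M t) :
    ∑ t ∈ T, (X t / D) ^ 2 ≤ n / 4 := by
  refine sum_sq hD hn he cA cB (fun t _ => ?_) (fun t e _ => by simpa [h2 t e] using h3 t)
    fun t e e' => (h4 t e').trans (h2 t e)
  have := abs_sub_abs_le_abs_sub (X t) (M t)
  nlinarith [h1 t, h3 t]

lemma sq_le_two {x y e : ℝ} (h : |x| ≤ y + e) : x ^ 2 ≤ 2 * y ^ 2 + 2 * e ^ 2 := by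
  have := pow_le_pow_left₀ (abs_nonneg x) h 2
  rw [sq_abs] at this
  nlinarith [sq_nonneg (y - e)]

/-- the second-order forms on a matrix bounded by a table -/
lemma Q_le {c : Pm} (h : Gd c) {A T : Mx} {k e σ u w : ℝ} (hk : 0 ≤ k) (he : 0 ≤ e)
    (hA : ∀ i j, i ≠ 2 → |A i j| ≤ k * T i j + e) (hT : ∀ i j, i ≠ 2 → 0 ≤ T i j ∧ T i j ≤ u)
    (h1 : c.mu * T 0 0 ^ 2 ≤ σ ∧ T 0 1 ^ 2 / c.m ^ 2 ≤ σ ∧ T 1 0 ^ 2 ≤ σ ∧ T 1 1 ^ 2 ≤ σ ∧
      c.η * (T 0 1 * T 1 0) ≤ σ ∧ c.η * T 0 2 ^ 2 + T 1 2 ^ 2 ≤ w) :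
    c.Qlo A ≤ 9 * k ^ 2 * σ + 9 * e ^ 2 + 2 * k * e * u ∧
      c.Qup A ≤ 9 * k ^ 2 * σ + 13 * e ^ 2 + 2 * k * e * u + 2 * k ^ 2 * w := by
  obtain ⟨a1, a2, a3, a4, a5, a6⟩ := h1
  have p1 := h.η_pos.le; have p2 := h.mu_pos.le; have p3 := h.m_pos
  have k2 := sq_nonneg k; have e2 := sq_nonneg e
  have s : ∀ i j, i ≠ 2 → A i j ^ 2 ≤ 2 * k ^ 2 * T i j ^ 2 + 2 * e ^ 2 := fun i j hi => by
    linarith [sq_le_two (hA i j hi), mul_pow k (T i j) 2]
  have m : ∀ {x : ℝ}, x ≤ σ → k ^ 2 * x ≤ k ^ 2 * σ := fun hx => mul_le_mul_of_nonneg_left hx k2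
  have b1 : c.mu * A 0 0 ^ 2 ≤ 2 * k ^ 2 * σ + 2 * e ^ 2 := by
    nlinarith [mul_le_mul_of_nonneg_left (s 0 0 (by decide)) p2, m a1,
      mul_le_of_le_one_left e2 h.mu_le_one]
  have b2 : A 0 1 ^ 2 / c.m ^ 2 ≤ 2 * k ^ 2 * σ + 2 * e ^ 2 := by
    have e1 := div_le_div_of_nonneg_right (s 0 1 (by decide)) (sq_nonneg c.m)
    rw [add_div, mul_div_assoc, mul_div_assoc] at e1
    linarith [m a2, div_le_self e2 (one_le_pow₀ (n := 2) h.one_le_m)]
  have b3 : c.η * |A 0 1 * A 1 0| ≤ k ^ 2 * σ + e ^ 2 + 2 * k * e * u := by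
    obtain ⟨t1, t2⟩ := hT 0 1 (by decide)
    obtain ⟨t3, t4⟩ := hT 1 0 (by decide)
    have e1 := mul_le_mul (hA 0 1 (by decide)) (hA 1 0 (by decide)) (abs_nonneg _) (by positivity)
    have e3 : c.η * (k * e * (T 0 1 + T 1 0) + e ^ 2) ≤ k * e * (u + u) + e ^ 2 :=
      (mul_le_of_le_one_left (by positivity) h.η_le_one).trans (by gcongr)
    rw [abs_mul]
    nlinarith [mul_le_mul_of_nonneg_left e1 p1, m a5]
  have b4 : c.η * A 0 2 ^ 2 + A 1 2 ^ 2 ≤ 2 * k ^ 2 * w + 4 * e ^ 2 := by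
    nlinarith [mul_le_mul_of_nonneg_left (s 0 2 (by decide)) p1, s 1 2 (by decide),
      mul_le_mul_of_nonneg_left a6 k2, mul_le_of_le_one_left e2 h.η_le_one]
  have b5 := s 1 0 (by decide)
  have b6 := s 1 1 (by decide)
  unfold Pm.Qup Pm.Qlo
  constructor <;> linarith [m a3, m a4]

def PA (d : MD) (p : PT) (x : V) (t : Wi) : Prop := |x 0 / d.W1 t.1 - t.2 0 / d.ns| ≤ 9 / 20 ∧
  |x 1 - d.c1 t.1 (t.2 0) (t.2 1)| ≤ d.W2 t.1 ∧ |d.ph p t x| ≤ 9 / 20
def PB (d : MD) (p : PT) (x : V) (t : Wi) : Prop := |x 0 / d.W1 t.1 - t.2 0 / d.ns| ≤ 9 / 20 ∧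
  |x 1 - d.c1 t.1 (t.2 0) (t.2 1)| ≤ 2 * d.bw t.1 ∧ |d.ph p t x| ≤ 9 / 20

section
variable {d : MD} (h : Gd d.c) {p : PT} {s : Sa} {t : Wi} {x : V}

lemma ev_lt {g : V → ℝ} (hg : Continuous g) {a : ℝ} (hx : a < |g x|) : ∀ᶠ y in 𝓝 x, a < |g y| :=
  hg.abs.continuousAt.eventually (lt_mem_nhds hx)

lemma ph_cont (hτ : d.ClkOk p.τ) : Continuous (d.ph p t) :=
  ((hτ _ _ _).1.continuous.comp (continuous_apply 2)).sub continuous_const

lemma Ps_sub (hD : d.Der p s t) (hC : d.Cmp p s t) (l : List (Fin 3)) (i : Fin 3) :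
    |pds l (fun w => d.Ps p s t w i) x - pds l (fun w => d.Pm' p s t w i) x| ≤
      |pds l (d.Gc p s t) x| := by
  have e : (fun w => d.Ps p s t w i) =
      fun w => d.Pm' p s t w i + (if i = 1 then 1 else 0) * d.Gc p s t w := by
    funext w
    fin_cases i <;> simp [MD.Ps]
  rw [e, pds_add (hD.cr.sm.1.coord i) (hC.sm.cmul _), pds_const_mul]
  split_ifs <;> simp

lemma Gc_zero (hc : ¬d.c.comp) : d.Gc p s t = fun _ => 0 := funext fun _ => if_neg hc

lemma Am_sub (v v' : V → V) (ω : V → ℝ) (a b : Fin 3) : d.Am s v ω x a b - d.Am s v' ω x a b =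
    pds [b] (fun w => v w a) x - pds [b] (fun w => v' w a) x := by
  simp only [MD.Am, Matrix.sub_apply]
  exact sub_sub_sub_cancel_right _ _ _ |>.trans (sub_sub_sub_cancel_right _ _ _)

lemma Am_zero {v : V → V} {ω : V → ℝ} (hω : ω x = 0) : d.Am s v ω x = jm v x := by
  simp [MD.Am, hω]

include h

lemma W1_pos (φ : Fin 3) : 0 < d.W1 φ := by
  unfold MD.W1; split_ifs; exacts [h.W10_pos, h.W11_pos]
lemma W2_pos (φ : Fin 3) : 0 < d.W2 φ := by
  unfold MD.W2; split_ifs; exacts [h.W20_pos, h.W21_pos]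
lemma bw_pos (φ : Fin 3) : 0 < d.bw φ := by
  have : (0 : ℝ) < d.mm := Nat.cast_pos.2 (Nat.ceil_pos.2 (h.big.np_pos _))
  have := W2_pos h φ
  unfold MD.bw; positivity

lemma locA (hτ : d.ClkOk p.τ) (hD : d.Der p s t) (hx : ¬PA d p x t) (l : List (Fin 3)) :
    (∀ i, pds l (fun w => d.Pm' p s t w i) x = 0) ∧ pds l (d.om p t) x = 0 := by
  have k : ∀ᶠ y in 𝓝 x, d.Pm' p s t y = 0 ∧ d.om p t y = 0 := by
    by_cases h1 : |x 0 / d.W1 t.1 - t.2 0 / d.ns| ≤ 9 / 20
    · by_cases h2 : |x 1 - d.c1 t.1 (t.2 0) (t.2 1)| ≤ d.W2 t.1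
      · have h3 := not_le.1 fun h3 => hx ⟨h1, h2, h3⟩
        exact (ev_lt (ph_cont hτ) (a := 2 / 5) (by linarith)).mono fun y hy =>
          hD.sup y (Or.inr (Or.inr (Or.inr hy)))
      · refine (ev_lt (g := fun y => y 1 / d.W2 t.1 + MD.vs t.1 * (y 0 / d.W1 t.1) - t.2 1 / d.ns)
          (by fun_prop) (a := 2 / 5) ?_).mono fun y hy => hD.sup y (Or.inr (Or.inr (Or.inl hy)))
        have w := W2_pos h t.1
        have e : (x 1 - d.c1 t.1 (t.2 0) (t.2 1)) / d.W2 t.1 = (x 1 / d.W2 t.1 +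
            MD.vs t.1 * (x 0 / d.W1 t.1) - t.2 1 / d.ns) -
            MD.vs t.1 * (x 0 / d.W1 t.1 - t.2 0 / d.ns) := by
          rw [MD.c1, sub_div, mul_div_cancel_left₀ _ w.ne']; ring
        have v : |MD.vs t.1| ≤ 1 := by
          generalize t.1 = φ
          fin_cases φ <;> simp [MD.vs]
        have k1 : 1 < |(x 1 - d.c1 t.1 (t.2 0) (t.2 1)) / d.W2 t.1| := by
          rw [abs_div, abs_of_pos w, one_lt_div w]; exact not_le.1 h2
        rw [e] at k1
        have k2 := k1.trans_le (abs_sub _ _)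
        rw [abs_mul] at k2
        linarith [mul_le_of_le_one_left (abs_nonneg (x 0 / d.W1 t.1 - t.2 0 / d.ns)) v]
    · exact (ev_lt (g := fun y => y 0 / d.W1 t.1 - t.2 0 / d.ns) (by fun_prop) (a := 2 / 5)
        (by linarith [not_le.1 h1])).mono fun y hy => hD.sup y (Or.inr (Or.inl hy))
  exact ⟨fun i => pds_zero_of_eventually (k.mono fun y hy => congrFun hy.1 i) l,
    pds_zero_of_eventually (k.mono fun y hy => hy.2) l⟩

lemma locB (hτ : d.ClkOk p.τ) (hC : d.Cmp p s t) (hx : ¬PB d p x t) (l : List (Fin 3)) :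
    pds l (d.Gc p s t) x = 0 := by
  refine pds_zero_of_eventually ?_ l
  by_cases h1 : |x 0 / d.W1 t.1 - t.2 0 / d.ns| ≤ 9 / 20
  · by_cases h2 : |x 1 - d.c1 t.1 (t.2 0) (t.2 1)| ≤ 2 * d.bw t.1
    · have h3 := not_le.1 fun h3 => hx ⟨h1, h2, h3⟩
      exact (ev_lt (ph_cont hτ) (a := 2 / 5) (by linarith)).mono fun y hy =>
        hC.sup y (Or.inr (Or.inr (Or.inr hy)))
    · exact (ev_lt (g := fun y => y 1 - d.c1 t.1 (t.2 0) (t.2 1)) (by fun_prop)
        (by linarith [not_le.1 h2, bw_pos h t.1])).mono fun y hy =>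
        hC.sup y (Or.inr (Or.inr (Or.inl hy)))
  · exact (ev_lt (g := fun y => y 0 / d.W1 t.1 - t.2 0 / d.ns) (by fun_prop) (a := 2 / 5)
      (by linarith [not_le.1 h1])).mono fun y hy => hC.sup y (Or.inr (Or.inl hy))

lemma num1 : 20000 * (np d.c.N (9 / 100) * np d.c.N (-46 / 1000) ^ 2) ≤ 1 ∧
    20000 * np d.c.N (-46 / 1000) ≤ 1 ∧ 20000 * qp d.c.N (1 / 100) ≤ qp d.c.N (1 / 10) ∧
    20000 ≤ qp d.c.N (1 / 100) ∧
    20000 * (d.c.d2u / (d.c.q ^ 2 * √d.c.J)) ≤ d.c.d2u / (qp d.c.N (13 / 10) * √d.c.J) ∧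
    20000 * (np d.c.N (-13 / 10) / d.c.lam) ≤
      np d.c.N (-46 / 1000) * (d.c.d2u / (qp d.c.N (13 / 10) * √d.c.J)) ∧
    20000 * np d.c.N (-1001 / 1000) ≤ uV d.c.N ∧
    20000 * np d.c.N (-105 / 100) ≤ np d.c.N (-46 / 1000) * uV d.c.N ∧
    20000 * (1 / (qp d.c.N (1 / 2) * √d.c.J)) ≤ 1 / (qp d.c.N (1 / 10) * √d.c.J) ∧
    20000 * (1 / (qp d.c.N (1 / 2) * √d.c.J)) ≤ 1 := by
  have := h.big.np_pos; have := h.big.qp_pos; have := h.d2u_pos; have := h.q_pos
  have := h.J_pos; have := h.lam_pos; have := h.big.uV_pos; have := h.big.L_ge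
  have := h.big.J_ge; have := h.log_η_le; have := h.log_d2u
  have := (logc_bd (show (1 : ℝ) ≤ 20000 by norm_num)).2
  have := h.big.np_pos (9 / 100); have := h.big.np_pos (-46 / 1000)
  have := h.big.np_pos (-13 / 10); have := h.big.np_pos (-1001 / 1000)
  have := h.big.np_pos (-105 / 100); have := h.big.qp_pos (1 / 100)
  have := h.big.qp_pos (1 / 10); have := h.big.qp_pos (13 / 10); have := h.big.qp_pos (1 / 2)
  refine ⟨?_, ?_, ?_, ?_, ?_, ?_, ?_, ?_, ?_, ?_⟩ <;>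
  refine le_of_log (by positivity) (by positivity) ?_ <;>
  simp (disch := positivity) only [Real.log_mul, Real.log_div, Real.log_pow, Real.log_one,
    Real.log_sqrt, h.big.log_np, h.big.log_qp, h.big.log_uV, h.log_q, h.log_J] <;>
  push_cast <;> linarith

lemma num2 : 20000 * (qp d.c.N (1 / 10) * (qp d.c.N (1 / 100) ^ 2 * (uV d.c.N * qp d.c.N (-2)))) ≤
      uV d.c.N ∧ 20000 * (qp d.c.N (1 / 10) * np d.c.N (-85 / 100) ^ 2) ≤ uV d.c.N ∧
    20000 * (qp d.c.N (1 / 10) * (qp d.c.N (1 / 100) * np d.c.N (-85 / 100) *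
      np d.c.N (-497 / 1000))) ≤ uV d.c.N ∧
    20000 * (qp d.c.N (1 / 10) * (np d.c.N (9 / 100) * np d.c.N (-94 / 100) ^ 2)) ≤ uV d.c.N ∧
    20000 * (qp d.c.N (1 / 10) * (qp d.c.N (1 / 100) ^ 2 * qp d.c.N (-2 / 5))) ≤ 1 ∧
    20000 * (qp d.c.N (1 / 10) * (qp d.c.N (1 / 100) ^ 2 * qp d.c.N (3 / 5))) ≤ d.c.q ∧
    20000 * (qp d.c.N (1 / 100) * np d.c.N (-497 / 1000)) ≤ np d.c.N (-495 / 1000) ∧
    20000 * np d.c.N (-85 / 100) ≤ np d.c.N (-495 / 1000) ∧
    20000 * np d.c.N (-495 / 1000) ^ 2 ≤ np d.c.N (-98 / 100) ∧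
    20000 * (np d.c.N (9 / 100) * np d.c.N (-94 / 100) ^ 2) ≤ np d.c.N (-98 / 100) := by
  have := h.q_pos; have := h.big.uV_pos; have := h.big.L_ge; have := h.big.J_ge
  have := (logc_bd (show (1 : ℝ) ≤ 20000 by norm_num)).2
  have := h.big.np_pos (9 / 100); have := h.big.np_pos (-85 / 100)
  have := h.big.np_pos (-497 / 1000); have := h.big.np_pos (-495 / 1000)
  have := h.big.np_pos (-94 / 100); have := h.big.np_pos (-98 / 100)
  have := h.big.qp_pos (1 / 100); have := h.big.qp_pos (1 / 10); have := h.big.qp_pos (-2)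
  have := h.big.qp_pos (-2 / 5); have := h.big.qp_pos (3 / 5)
  refine ⟨?_, ?_, ?_, ?_, ?_, ?_, ?_, ?_, ?_, ?_⟩ <;>
  refine le_of_log (by positivity) (by positivity) ?_ <;>
  simp (disch := positivity) only [Real.log_mul, Real.log_pow, Real.log_one,
    h.big.log_np, h.big.log_qp, h.big.log_uV, h.log_q] <;>
  push_cast <;> linarith

lemma lam_le (i : Fin 3) : d.c.lam ≤ d.c.hs i := by
  fin_cases i
  exacts [h.lam_le_l1, le_rfl,
    le_mul_of_one_le_left h.lam_pos.le (np_zero d.c.N ▸ h.big.np_le (by norm_num))]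

lemma clk (hτ : d.ClkOk p.τ) (hκ : kap⁻¹ ≤ d.c.q) (φ : Fin 3) (k0 k1 : ℤ) (a : ℝ) :
    0 ≤ deriv (p.τ φ k0 k1) a ∧ (¬d.c.isA → deriv (p.τ φ k0 k1) a = 1 / d.Hh φ) ∧
    ∀ i j, i ≠ 2 → d.tab φ (deriv (p.τ φ k0 k1) a) i j ≤ d.c.sd i j := by
  obtain ⟨-, -, -, h1, h2, -⟩ := hτ φ k0 k1
  have k1' : 0 ≤ deriv (p.τ φ k0 k1) a := by
    refine le_trans (one_div_nonneg.2 ?_) (h2 a).1
    have := h.Hp_pos; have := h.H0_pos; have := h.H1_pos
    unfold MD.Hh
    split_ifs <;> positivity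
  have k2 : ¬d.c.isA → deriv (p.τ φ k0 k1) a = 1 / d.Hh φ := fun hA => by
    rw [funext (h1 hA)]; simp
  refine ⟨k1', k2, fun i j hi => ?_⟩
  by_cases hA : d.c.isA
  · refine (tab_small h ?_ φ k1' (h2 a).2.1 i j hi).trans ?_
    · have : etaA d.c.N ≤ d.c.η := hA
      linarith [h.big.etaA_eq, h.big.etaS_pos]
    · rw [Pm.sd, if_pos hA]; exact (low h).2.2.2.2.1
  · rw [k2 hA]; exact tab_B h hA hκ φ i j hi

lemma nz_nn (a b : Fin 3) : 0 ≤ d.c.nz a b := by
  have p1 := (div_pos h.p_pos (pow_pos h.q_pos 3)).le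
  have p2 := (mul_pos (mul_pos h.q_pos h.J_pos) h.t1B_pos).le
  have e : (0 : ℝ) ≤ 0 := le_rfl
  fin_cases a <;> fin_cases b
  exacts [p1, e, p2, e, e, e, e, e, e]

lemma Am_le (hτ : d.ClkOk p.τ) (hκ : kap⁻¹ ≤ d.c.q) (hD : d.Der p s t) {a : Fin 3} (b : Fin 3)
    (ha : a ≠ 2) : d.c.sd a b ≤ d.nE a b ∧
      |d.Am s (d.Pm' p s t) (d.om p t) x a b| ≤ d.nE a b / 8 := by
  obtain ⟨-, -, n3, n4, -, -, -, -, n9, n10⟩ := num1 h
  obtain ⟨k0, -, k1⟩ := clk h hτ hκ t.1 (t.2 0) (t.2 1) (x 2)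
  obtain ⟨l1, l2⟩ := sd_low h a b ha
  have p0 := (h.big.np_pos _).trans_le l1
  have p1 := nz_nn h a b
  have p2 : 0 < 1 / (qp d.c.N (1 / 2) * √d.c.J) :=
    one_div_pos.2 (mul_pos (h.big.qp_pos _) h.big.sqrtJ_pos)
  have k2 : d.ter ≤ d.c.sd a b := by
    unfold MD.ter
    split_ifs with e
    exacts [(h.big.np_le (by norm_num)).trans (l2 e), (h.big.np_le (by norm_num)).trans l1]
  have k3 : qp d.c.N (1 / 100) * |d.α x| * d.tab t.1 (deriv (p.τ t.1 (t.2 0) (t.2 1)) (x 2)) a b ≤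
      qp d.c.N (1 / 100) * d.c.sd a b :=
    mul_le_mul (mul_le_of_le_one_right (by linarith) (Prof.alh_abs_le _ _ _)) (k1 a b ha)
      (tab_nn h _ k0 a b ha) (by linarith)
  have k4 : qp d.c.N (1 / 10) * d.c.sd a b ≤ qp d.c.N (1 / 5) * d.c.sd a b :=
    mul_le_mul_of_nonneg_right (h.big.qp_le (by norm_num)) p0.le
  have k5 := mul_le_mul_of_nonneg_right n3 p0.le
  have k6 := mul_le_mul_of_nonneg_right n4 p0.le
  have k7 := hD.tb x a b ha
  have k8 := mul_le_mul_of_nonneg_right n9 p1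
  have k9 := mul_nonneg p2.le p1
  simp only [Matrix.add_apply, Matrix.smul_apply, smul_eq_mul, cm, Matrix.of_apply] at k7
  by_cases hn : d.c.noise
  · have e : d.nE a b = qp d.c.N (1 / 5) * d.c.sd a b +
        1 / (qp d.c.N (1 / 10) * √d.c.J) * d.c.nz a b := by
      rw [MD.nE, if_pos hn]; rfl
    have hA : ¬d.c.isA := (h.deep_flags (by linarith [h.push_η hn.1, h.big.etaS_pos])).2.2.2.1
    have k10 : (!![0, d.c.s12, 0; d.c.s21, d.c.η * d.c.dl, d.c.s21; 0, 0, 0] : Mx) a b ≤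
        d.c.sd a b := by
      obtain ⟨e0, e1, e2, e3, e4, e5⟩ := sdB d.c hA
      have e6 : d.c.s21 = uB d.c.N := if_neg hA
      have e7 : d.c.dl = d.c.dB := if_neg hA
      rw [if_neg (h.notboost_of_noise hn), add_zero] at e5
      refine lat6 (P := fun a b => (!![0, d.c.s12, 0; d.c.s21, d.c.η * d.c.dl, d.c.s21;
        0, 0, 0] : Mx) a b ≤ d.c.sd a b) (e0 ▸ h.dB_pos.le) (e1 ▸ ?_) (e2 ▸ h.t1B_pos.le)
        (e3 ▸ e6.le) (e4 ▸ ?_) (e5 ▸ e6.le) a b ha
      · show d.c.m * d.c.s21 ≤ _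
        rw [e6]
      · show d.c.η * d.c.dl ≤ _
        rw [e7]; linarith [h.big.np_pos (-9 / 10)]
    have k11 : (if d.nz0 t.1 then d.tnz else 0) a b ≤
        1 / (qp d.c.N (1 / 2) * √d.c.J) * d.c.nz a b + d.c.sd a b := by
      split_ifs
      · show 1 / (qp d.c.N (1 / 2) * √d.c.J) * (d.c.nz a b + _) ≤ _
        rw [mul_add]
        linarith [mul_le_mul_of_nonneg_left k10 p2.le, mul_le_mul_of_nonneg_right n10 p0.le]
      · show (0 : ℝ) ≤ _
        linarith
    rw [e]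
    constructor <;> linarith
  · have e : d.nE a b = qp d.c.N (1 / 5) * d.c.sd a b := by
      rw [MD.nE, if_neg hn, add_zero]; rfl
    rw [if_neg fun e : d.nz0 t.1 => hn e.1, Matrix.zero_apply] at k7
    rw [e]
    constructor <;> linarith

lemma clk_le (hτ : d.ClkOk p.τ) (hκ : kap⁻¹ ≤ d.c.q) (hn : ¬d.c.noise)
    (hE : 0 ≤ d.c.En0 d.ρ x ∧ 0 ≤ d.c.En1 d.ρ x ∧ d.c.En1 d.ρ x ≤ qp d.c.N (1 / 2))
    (hx : PA d p x t) : d.α x ^ 2 * ((if t.1 = 0 then d.c.η * d.c.l1 ^ 2 else d.c.lam ^ 2) *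
      deriv (p.τ t.1 (t.2 0) (t.2 1)) (x 2) ^ 2) ≤
      d.c.s21 ^ 2 + qp d.c.N (-2 / 5) * d.c.cost d.O d.ρ x +
        2 * qp d.c.N (3 / 5) * d.c.bst d.O x := by
  obtain ⟨φ, k⟩ := t
  obtain ⟨E0, E1, E2⟩ := hE
  have a0 : 0 ≤ d.α x ^ 2 := sq_nonneg _
  have a1 : d.α x ^ 2 ≤ 1 := Prof.alh_sq_le _ _ _
  have q0 := h.big.qp_pos (1 / 10)
  have q1 : 1 ≤ qp d.c.N (3 / 5) := qp_zero d.c.N ▸ h.big.qp_le (by norm_num)
  have q2 : qp d.c.N (1 / 10) * qp d.c.N (1 / 2) = qp d.c.N (3 / 5) := by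
    rw [← h.big.qp_add]; norm_num
  have q3 : qp d.c.N (-2 / 5) * √d.c.q = qp d.c.N (1 / 10) := by
    rw [Real.sqrt_eq_rpow, show d.c.q ^ (1 / 2 : ℝ) = qp d.c.N (1 / 2) from rfl, ← h.big.qp_add]
    norm_num
  have o0 := mul_nonneg h.om0_pos.le E0
  have o1 := mul_nonneg h.om1_nonneg E1
  have b0 : 0 ≤ d.c.bst d.O x := by unfold Pm.bst; split_ifs <;> positivity
  have b1 := mul_le_mul_of_nonneg_right q1 b0
  have s0 := sq_nonneg d.c.s21
  -- the part that does not depend on the energy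
  have c1 : d.α x ^ 2 * ((if φ = 0 then d.c.η * d.c.l1 ^ 2 else d.c.lam ^ 2) * (1 / d.Hh φ ^ 2)) ≤
      d.c.s21 ^ 2 + d.c.bst d.O x := by
    have := h.l1_pos; have := h.t1_pos; have := h.lam_pos; have := h.t2_pos; have := h.η_pos
    unfold MD.Hh
    by_cases hφ : φ = 0
    · rw [if_pos hφ, if_pos hφ, if_neg hn, Pm.H0,
        show d.c.η * d.c.l1 ^ 2 * (1 / (d.c.l1 / d.c.t1) ^ 2) = d.c.η * d.c.t1 ^ 2 by field_simp]
      linarith [mul_le_of_le_one_left (show 0 ≤ d.c.η * d.c.t1 ^ 2 by positivity) a1, η_t1 h]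
    · rw [if_neg hφ, if_neg hφ, Pm.H1,
        show d.c.lam ^ 2 * (1 / (d.c.lam / d.c.t2) ^ 2) = d.c.t2 ^ 2 by field_simp]
      unfold Pm.t2 Pm.bst
      split_ifs
      · exact le_add_of_nonneg_left s0
      · linarith [mul_le_of_le_one_left s0 a1]
  by_cases hA : d.c.isA
  · have c2 := ((hτ φ (k 0) (k 1)).2.2.2.2.2 hA).1 x (by
      have w := W1_pos h φ
      have e : x 0 - d.c0 φ (k 0) = d.W1 φ * (x 0 / d.W1 φ - k 0 / d.ns) := by
        rw [MD.c0, mul_sub, mul_div_cancel₀ _ w.ne']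
      rw [e, abs_mul, abs_of_pos w]
      linarith [mul_le_mul_of_nonneg_left hx.1 w.le]) hx.2.1
    have c3 : qp d.c.N (-2 / 5) * d.c.cost d.O d.ρ x = qp d.c.N (1 / 10) * (d.α x ^ 2 *
        (d.c.om0 * d.c.En0 d.ρ x + d.c.om1 * d.c.En1 d.ρ x)) := by
      rw [Pm.cost, if_pos hA, ← q3, MD.α]; ring
    have c4 : d.α x ^ 2 * ((if φ = 0 then d.c.η * d.c.l1 ^ 2 else d.c.lam ^ 2) *
        (qp d.c.N (1 / 10) * d.En φ x / d.Ug φ ^ 2)) ≤
        qp d.c.N (-2 / 5) * d.c.cost d.O d.ρ x + qp d.c.N (3 / 5) * d.c.bst d.O x := by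
      rw [c3]
      unfold MD.En MD.Ug
      by_cases hφ : φ = 0
      · rw [if_pos hφ, if_pos hφ, if_pos hφ]
        have : 0 ≤ qp d.c.N (1 / 10) * (d.α x ^ 2 * (d.c.om1 * d.c.En1 d.ρ x)) := by positivity
        refine le_trans (le_of_eq ?_) (show qp d.c.N (1 / 10) * (d.α x ^ 2 *
          (d.c.om0 * d.c.En0 d.ρ x)) ≤ _ by linarith)
        rw [Pm.om0]; ring
      · rw [if_neg hφ, if_neg hφ, if_neg hφ]
        have : 0 ≤ qp d.c.N (1 / 10) * (d.α x ^ 2 * (d.c.om0 * d.c.En0 d.ρ x)) := by positivity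
        have : 0 ≤ qp d.c.N (1 / 10) * (d.α x ^ 2 * (d.c.om1 * d.c.En1 d.ρ x)) := by positivity
        refine le_trans (le_of_eq (by ring)) (show qp d.c.N (1 / 10) * (d.α x ^ 2 *
          (d.c.lam ^ 2 / d.c.Ug1 ^ 2 * d.c.En1 d.ρ x)) ≤ _ from ?_)
        by_cases hb : d.c.boost
        · have e : qp d.c.N (3 / 5) * d.c.bst d.O x =
              qp d.c.N (1 / 10) * (d.α x ^ 2 * (tb d.c.N ^ 2 * qp d.c.N (1 / 2))) := by
            rw [Pm.bst, if_pos hb, ← q2, MD.α]; ring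
          have : qp d.c.N (1 / 10) * (d.α x ^ 2 * (d.c.lam ^ 2 / d.c.Ug1 ^ 2 * d.c.En1 d.ρ x)) ≤
              qp d.c.N (1 / 10) * (d.α x ^ 2 * (tb d.c.N ^ 2 * qp d.c.N (1 / 2))) := by
            gcongr
            exact h.om1_tb
          linarith
        · have e : d.c.lam ^ 2 / d.c.Ug1 ^ 2 = d.c.om1 := (if_neg hb).symm
          rw [e]
          linarith
    have c5 : 0 ≤ (if φ = 0 then d.c.η * d.c.l1 ^ 2 else d.c.lam ^ 2) := by
      have := h.η_pos
      split_ifs <;> positivity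
    have c6 := mul_le_mul_of_nonneg_left (mul_le_mul_of_nonneg_left c2 c5) a0
    rw [mul_add, mul_add] at c6
    dsimp only
    linarith
  · dsimp only
    rw [(clk h hτ hκ φ (k 0) (k 1) (x 2)).2.1 hA, div_pow, one_pow, Pm.cost, if_neg hA]
    linarith

end

end
end PvA

open PvA Classical in
theorem pv (hc : ClsStmt) : PvStmt := by
  obtain ⟨Ce, -, hen⟩ := ener k1 (k4 k1) (kc k1 (k4 k1))
  filter_upwards [hc, ev_gd, ev_C_q kap⁻¹, ev_C_qp Ce (show (0 : ℝ) < 1 / 2 by norm_num)]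
    with N hc hg hκ hCe d hN hk hI p s hG hP H
  subst hN
  have h := hg d.c rfl hI.ok
  have hτ := hP.2.1
  obtain ⟨-, -, -, -, hC⟩ := hc d rfl hk hI p s hG hP H
  have cA : ∀ x, ((d.TT.filter (PA d p x)).card : ℝ) ≤ 9 * nsg d.c.N := fun x =>
    le_trans (Nat.cast_le.2 (Finset.card_le_card fun t ht => by
      rw [Finset.mem_filter] at ht ⊢; exact ht)) (hC x).1
  have cB : ∀ x, ((d.TT.filter (PB d p x)).card : ℝ) ≤ np d.c.N (9 / 100) * nsg d.c.N := fun x =>
    le_trans (Nat.cast_le.2 (Finset.card_le_card fun t ht => by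
      rw [Finset.mem_filter] at ht ⊢; exact ht)) (hC x).2
  have n0 : 0 ≤ nsg d.c.N := pow_nonneg h.N_pos.le _
  obtain ⟨n1, n2, n3, n4, n5, n6, n7, n8, -, -⟩ := num1 h
  have e1 : np d.c.N (9 / 100) * np d.c.N (-46 / 1000) ^ 2 ≤ 1 / 20 := by
    linarith [h.big.np_pos (9 / 100)]
  have e2 : np d.c.N (-46 / 1000) ≤ 1 / 100 := by linarith
  have e0 := h.big.np_pos (-46 / 1000)
  have hη : d.c.comp → etaS d.c.N / 40 ≤ d.c.η := fun hc => by
    have : d.c.thr ≤ d.c.η := hc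
    linarith [h.thr_bd.1, h.big.etaS_pos]
  have hB : ∀ x t, ¬PB d p x t → ∀ l i, pds l (fun w => d.Ps p s t w i) x =
      pds l (fun w => d.Pm' p s t w i) x := fun x t e l i => by
    have := Ps_sub (x := x) (H t).1 (H t).2 l i
    rwa [locB h hτ (H t).2 e, abs_zero, abs_nonpos_iff, sub_eq_zero] at this
  refine ⟨?_, fun hc x hx => ?_⟩
  · rintro Λ (⟨x, hx, ⟨j, rfl⟩ | ⟨a, b, ha, rfl⟩ | ⟨l, i, hl, rfl⟩ | ⟨l, hl, rfl⟩⟩ | ⟨x, hx, rfl⟩)
    · have p1 := h.hs_pos j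
      have q1 : qp d.c.N (1 / 10) ≤ qp d.c.N (3 / 10) := h.big.qp_le (by norm_num)
      refine sum_MR (fun t => d.Pm' p s t x j) (mul_pos (h.big.qp_pos _) p1) n0 e1 e2 (cA x) (cB x)
        (fun t => ((H t).1.am x j).trans (by nlinarith))
        (fun t e => (locA h hτ (H t).1 e []).1 j) (fun t => ?_) fun t e => hB x t e [] j
      refine (Ps_sub (H t).1 (H t).2 [] j).trans ?_
      have := (H t).2.cb [] (by simp) x trivial
      rw [show hp (cv d.c.hE) [] = 1 from rfl, one_mul] at this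
      refine this.trans (mul_le_mul (h.big.np_le (by norm_num)) ((lam_le h j).trans ?_)
        h.lam_pos.le e0.le)
      exact le_mul_of_one_le_left p1.le (by linarith)
    · have k := fun t => Am_le (x := x) h hτ hκ (H t).1 b ha
      obtain ⟨l1, l2⟩ := sd_low h a b ha
      have p0 := ((h.big.np_pos _).trans_le l1).trans_le (k (0, 0)).1
      refine sum_MR (fun t => d.Am s (d.Pm' p s t) (d.om p t) x a b) p0 n0 e1 e2 (cA x) (cB x)
        (fun t => (k t).2) (fun t e => ?_) (fun t => ?_) fun t e => ?_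
      · rw [Am_zero (ω := d.om p t) (locA h hτ (H t).1 e []).2]
        exact (locA h hτ (H t).1 e [b]).1 a
      · rw [Am_sub]
        refine (Ps_sub (H t).1 (H t).2 [b] a).trans ?_
        by_cases hc : d.c.comp
        · refine ((H t).2.d1 b x).trans (le_trans ?_ (mul_le_mul_of_nonneg_left
            ((l2 (hη hc)).trans (k t).1) e0.le))
          rw [← h.big.np_add]
          exact h.big.np_le (by norm_num)
        · rw [Gc_zero hc, pds_zero, abs_zero]
          exact (mul_pos e0 p0).le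
      · rw [← sub_eq_zero, Am_sub, hB x t e, sub_self]
    · have p1 : 0 < d.c.d2u / (qp d.c.N (13 / 10) * √d.c.J) :=
        div_pos h.d2u_pos (mul_pos (h.big.qp_pos _) h.big.sqrtJ_pos)
      have e : hp (cv 1) l = 1 := by rw [hp_cv, one_pow]
      refine sum_MR (fun t => pds l (fun w => d.Pm' p s t w i) x) p1 n0 e1 e2 (cA x) (cB x)
        (fun t => ?_) (fun t e => (locA h hτ (H t).1 e l).1 i) (fun t => ?_)
        fun t e => hB x t e l i
      · have := (H t).1.d2 i l hl x trivial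
        rw [e, one_mul] at this
        linarith
      · refine (Ps_sub (H t).1 (H t).2 l i).trans ?_
        have := (H t).2.d2 l hl x trivial
        rw [e, one_mul] at this
        linarith [mul_pos e0 p1]
    · have p1 := Real.sqrt_pos.2 h.p_pos
      have p2 := mul_pos (h.big.qp_pos (1 / 10)) p1
      refine sum_MR (fun t => hp d.c.thS l * pds l (d.om p t) x) p2 n0 e1 e2 (cA x) (cB x)
        (fun t => ?_) (fun t e => by rw [(locA h hτ (H t).1 e l).2, mul_zero])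
        (fun t => by rw [sub_self, abs_zero]; exact (mul_pos e0 p2).le) fun _ _ => rfl
      rw [abs_mul, abs_of_nonneg (hp_nonneg (fun i => (h.thS_pos i).le) l)]
      exact ((H t).1.th l hl x trivial).trans (by nlinarith)
    · by_cases hc : d.c.comp
      · simp only [MD.pV, if_pos hc]
        have p1 := h.big.uV_pos
        refine sum_sq (by linarith) n0 e1 (cA x) (cB x) (fun t e => ?_) (fun t e e' => ?_)
          fun t e e' => ?_
        · have := (H t).2.fo hc x hx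
          rw [if_neg (not_lt.2 e.2.1)] at this
          linarith
        · have := (H t).2.fo hc x hx
          rw [if_pos (not_le.1 fun k => e ⟨e'.1, k, e'.2.2⟩)] at this
          linarith [mul_pos e0 p1]
        · refine Finset.sum_eq_zero fun i _ => Finset.sum_eq_zero fun j _ => ?_
          exact mul_eq_zero_of_right _ ((hB x t e' [j] i).trans ((locA h hτ (H t).1 e [j]).1 i))
      · simp only [MD.pV, if_neg hc]
        have p1 : 0 < d.nV := by
          have := h.η_pos; have := h.p_pos; have := h.big.qp_pos (21 / 5); have := h.J_pos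
          have := h.big.np_pos (-5)
          unfold MD.nV
          split_ifs <;> positivity
        have e : ∀ t, d.Ps p s t = d.Pm' p s t := fun t => by
          funext y i
          fin_cases i <;> simp [MD.Ps, Gc_zero hc]
        simp only [e]
        refine sum_MR _ p1 n0 e1 e2 (cA x) (cB x) (fun t => ((H t).1.dv x).trans ?_) (fun t e => ?_)
          (fun t => by rw [sub_self, abs_zero]; exact (mul_pos e0 p1).le) fun _ _ => rfl
        · split_ifs <;> linarith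
        · have k : ∀ i j, jm (d.Pm' p s t) x i j = 0 := fun i j => (locA h hτ (H t).1 e [j]).1 i
          rw [Am_zero (ω := d.om p t) (locA h hτ (H t).1 e []).2, k, k, mul_zero, mul_zero, add_zero]
  · obtain ⟨m1, m2, m3, m4, m5, m6, m7, m8, m9, m10⟩ := num2 h
    have hn : ¬d.c.noise := fun e => h.notcomp_of_noise e hc
    obtain ⟨E0, E1, -⟩ := hen d.c.ro d.c.lam d.ρ h.ro_pos h.lam_pos hI.rho
    have pw : ∀ W W' : ℝ, 0 < W → 0 < W' → ∀ i, 0 < (![2 * W, 4 * W', 2 * d.c.h'] : V) i :=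
      fun W W' h1 h2 i => by fin_cases i <;> simp [h1, h2, h.h'_pos]
    have hE : 0 ≤ d.c.En0 d.ρ x ∧ 0 ≤ d.c.En1 d.ρ x ∧ d.c.En1 d.ρ x ≤ qp d.c.N (1 / 2) :=
      ⟨Mol.mol_nonneg (pw _ _ h.W10_pos h.W20_pos) fun y _ => (E1 y).1,
        Mol.mol_nonneg (pw _ _ h.W11_pos h.W21_pos) fun y _ => (E1 y).1,
        Mol.mol_le (pw _ _ h.W11_pos h.W21_pos) (Mol.li_meas E0 (B := Ce) fun y => by
          rw [abs_of_nonneg (E1 y).1]; exact (E1 y).2) fun y _ => (E1 y).2.trans hCe⟩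
    have c0 : 0 ≤ d.c.cost d.O d.ρ x := by
      have := mul_nonneg h.om0_pos.le hE.1; have := mul_nonneg h.om1_nonneg hE.2.1
      unfold Pm.cost; split_ifs <;> positivity
    have b0 : 0 ≤ d.c.bst d.O x := by unfold Pm.bst; split_ifs <;> positivity
    have r0 := h.big.qp_pos (1 / 100)
    have r1 := h.big.qp_pos (1 / 10)
    have r2 := h.big.qp_pos (-2 / 5)
    have r3 := h.big.qp_pos (3 / 5)
    have u0 := h.big.np_pos (-497 / 1000)
    have u1 := h.big.np_pos (-85 / 100)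
    have u2 := h.big.np_pos (-94 / 100)
    have u3 : np d.c.N (-94 / 100) ≤ np d.c.N (-85 / 100) := h.big.np_le (by norm_num)
    have u4 := h.big.uV_pos
    have g1 : ∀ t i j, |jm (d.Ps p s t) x i j - jm (d.Pm' p s t) x i j| ≤ np d.c.N (-94 / 100) :=
      fun t i j => (Ps_sub (H t).1 (H t).2 [j] i).trans ((H t).2.d1 j x)
    have g2 : ∀ t, ¬PA d p x t → ∀ i j, |jm (d.Ps p s t) x i j| ≤ np d.c.N (-94 / 100) :=
      fun t e i j => by
        have := g1 t i j
        rwa [show jm (d.Pm' p s t) x i j = 0 from (locA h hτ (H t).1 e [j]).1 i, sub_zero] at this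
    have g3 : ∀ t, ¬PA d p x t → ¬PB d p x t → jm (d.Ps p s t) x = 0 := fun t e e' =>
      Matrix.ext fun i j => (hB x t e' [j] i).trans ((locA h hτ (H t).1 e [j]).1 i)
    have g4 : ∀ t i j, i ≠ 2 → |jm (d.Ps p s t) x i j| ≤ qp d.c.N (1 / 100) * |d.α x| *
        d.tab t.1 (deriv (p.τ t.1 (t.2 0) (t.2 1)) (x 2)) i j + 2 * np d.c.N (-85 / 100) :=
      fun t i j hi => by
        have k := (H t).1.tb x i j hi
        have e : ¬d.nz0 t.1 := fun e => hn e.1
        rw [Am_zero (ω := d.om p t) (if_neg e), if_neg e, add_zero, MD.ter, if_pos (hη hc)] at k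
        simp only [Matrix.add_apply, Matrix.smul_apply, smul_eq_mul, cm, Matrix.of_apply] at k
        linarith [abs_sub_abs_le_abs_sub (jm (d.Ps p s t) x i j) (jm (d.Pm' p s t) x i j), g1 t i j]
    have g5 : ∀ (t : Wi) i j, i ≠ 2 →
        0 ≤ d.tab t.1 (deriv (p.τ t.1 (t.2 0) (t.2 1)) (x 2)) i j ∧
        d.tab t.1 (deriv (p.τ t.1 (t.2 0) (t.2 1)) (x 2)) i j ≤ np d.c.N (-497 / 1000) :=
      fun t i j hi => have k := (clk h hτ hκ t.1 (t.2 0) (t.2 1) (x 2)).1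
        ⟨tab_nn h _ k i j hi, tab_small h (hη hc) _ k ((hτ _ _ _).2.2.2.2.1 _).2.1 i j hi⟩
    have k0 : 0 ≤ qp d.c.N (1 / 100) * |d.α x| := by positivity
    have k1 : qp d.c.N (1 / 100) * |d.α x| ≤ qp d.c.N (1 / 100) :=
      mul_le_of_le_one_right r0.le (Prof.alh_abs_le _ _ _)
    have k2 : (qp d.c.N (1 / 100) * |d.α x|) ^ 2 * d.c.s21 ^ 2 ≤
        qp d.c.N (1 / 100) ^ 2 * (uV d.c.N * qp d.c.N (-2)) := by
      gcongr
      exact s21_sq h
    have k3 : qp d.c.N (1 / 100) * |d.α x| * np d.c.N (-85 / 100) * np d.c.N (-497 / 1000) ≤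
        qp d.c.N (1 / 100) * np d.c.N (-85 / 100) * np d.c.N (-497 / 1000) := by gcongr
    have k4 : qp d.c.N (1 / 100) ^ 2 * d.c.s21 ^ 2 ≤
        qp d.c.N (1 / 100) ^ 2 * (uV d.c.N * qp d.c.N (-2)) := by
      gcongr
      exact s21_sq h
    have QA := fun t => Q_le h k0 (by positivity) (g4 t) (g5 t) (tab_Q h hn t.1 _)
    have QB := fun t e => Q_le h (k := 0) (σ := 0) (u := 0) (w := 0) (T := 0) le_rfl u2.le
      (fun i j _ => by simpa using g2 t e i j) (by simp) (by simp)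
    have z1 : 0 ≤ qp d.c.N (1 / 100) ^ 2 * (uV d.c.N * qp d.c.N (-2)) :=
      le_trans (by positivity) k4
    refine ⟨?_, ?_, ?_⟩
    · have := sum_split (F := fun t => d.c.Qup (jm (d.Ps p s t) x))
        (a := 13 * (qp d.c.N (1 / 100) ^ 2 * (uV d.c.N * qp d.c.N (-2))) +
          52 * np d.c.N (-85 / 100) ^ 2 +
          4 * (qp d.c.N (1 / 100) * np d.c.N (-85 / 100) * np d.c.N (-497 / 1000)) +
          4 * (qp d.c.N (1 / 100) ^ 2 * qp d.c.N (-2 / 5) * d.c.cost d.O d.ρ x) +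
          8 * (qp d.c.N (1 / 100) ^ 2 * qp d.c.N (3 / 5) * d.c.bst d.O x))
        (b := 13 * np d.c.N (-94 / 100) ^ 2) (by positivity) (by positivity) (cA x) (cB x)
        (fun t e => (QA t).2.trans (by
          have k5 := mul_le_mul_of_nonneg_left (clk_le h hτ hκ hn hE e) (sq_nonneg (qp d.c.N (1 / 100)))
          rw [mul_pow, sq_abs] at k2 ⊢
          linarith)) (fun t e _ => (QB t e).2.trans (by simp))
        fun t e e' => by rw [g3 t e e']; simp [Pm.Qup, Pm.Qlo]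
      refine (mul_le_mul_of_nonneg_left this r1.le).trans ?_
      have k6 := mul_le_mul_of_nonneg_right m5 c0
      have k7 := mul_le_mul_of_nonneg_right m6 b0
      have k8 := mul_nonneg h.q_pos.le b0
      refine le_trans (le_of_eq (by ring)) (mul_le_mul_of_nonneg_left (show qp d.c.N (1 / 10) *
        (9 * (13 * (qp d.c.N (1 / 100) ^ 2 * (uV d.c.N * qp d.c.N (-2))) +
          52 * np d.c.N (-85 / 100) ^ 2 +
          4 * (qp d.c.N (1 / 100) * np d.c.N (-85 / 100) * np d.c.N (-497 / 1000)) +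
          4 * (qp d.c.N (1 / 100) ^ 2 * qp d.c.N (-2 / 5) * d.c.cost d.O d.ρ x) +
          8 * (qp d.c.N (1 / 100) ^ 2 * qp d.c.N (3 / 5) * d.c.bst d.O x)) +
          np d.c.N (9 / 100) * (13 * np d.c.N (-94 / 100) ^ 2)) ≤ _ by linarith) n0)
    · have := sum_split (F := fun t => d.c.Qlo (jm (d.Ps p s t) x))
        (a := 9 * (qp d.c.N (1 / 100) ^ 2 * (uV d.c.N * qp d.c.N (-2))) +
          36 * np d.c.N (-85 / 100) ^ 2 +
          4 * (qp d.c.N (1 / 100) * np d.c.N (-85 / 100) * np d.c.N (-497 / 1000)))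
        (b := 9 * np d.c.N (-94 / 100) ^ 2) (by positivity) (by positivity) (cA x) (cB x)
        (fun t e => (QA t).1.trans (by linarith)) (fun t e _ => (QB t e).1.trans (by simp))
        fun t e e' => by rw [g3 t e e']; simp [Pm.Qlo]
      refine (mul_le_mul_of_nonneg_left this r1.le).trans ?_
      refine le_trans (le_of_eq (by ring)) (mul_le_mul_of_nonneg_left (show qp d.c.N (1 / 10) *
        (9 * (9 * (qp d.c.N (1 / 100) ^ 2 * (uV d.c.N * qp d.c.N (-2))) +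
          36 * np d.c.N (-85 / 100) ^ 2 +
          4 * (qp d.c.N (1 / 100) * np d.c.N (-85 / 100) * np d.c.N (-497 / 1000))) +
          np d.c.N (9 / 100) * (9 * np d.c.N (-94 / 100) ^ 2)) ≤ _ by linarith) n0)
    · have k5 : ∀ (A : Mx) (a : ℝ), (∀ i j, |A i j| ≤ a) → ∑ i, ∑ j, A i j ^ 2 ≤ 9 * a ^ 2 :=
        fun A a hA => by
          refine (Finset.sum_le_sum fun i _ => Finset.sum_le_sum fun j _ =>
            sq_le_sq' (abs_le.1 (hA i j)).1 (abs_le.1 (hA i j)).2).trans (le_of_eq ?_)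
          simp
          ring
      have u5 := h.big.np_pos (-495 / 1000)
      have := sum_split (F := fun t => ∑ i, ∑ j, jm (d.Ps p s t) x i j ^ 2)
        (a := 9 * np d.c.N (-495 / 1000) ^ 2) (b := 9 * np d.c.N (-94 / 100) ^ 2) (by positivity)
        (by positivity) (cA x) (cB x) (fun t _ => k5 _ _ fun i j => ?_)
        (fun t e _ => k5 _ _ (g2 t e)) fun t e e' => by rw [g3 t e e']; simp
      · refine this.trans (le_trans (le_of_eq (by ring)) (mul_le_mul_of_nonneg_left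
          (show 81 * np d.c.N (-495 / 1000) ^ 2 +
            9 * (np d.c.N (9 / 100) * np d.c.N (-94 / 100) ^ 2) ≤ _ by
              linarith [h.big.np_pos (-98 / 100)]) n0))
      · rcases eq_or_ne i 2 with rfl | hi
        · have e : jm (d.Ps p s t) x 2 j = 0 := by simp [jm, MD.Ps, MD.Pm']
          rw [e, abs_zero]
          exact u5.le
        · linarith [g4 t i j hi, mul_le_mul k1 (g5 t i j hi).2 (g5 t i j hi).1 r0.le]

end Pool.Agent.MP_20bec2_an.T3

end MrgPart1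

-- marker of a merged file
example : 731051 + 810905 = 731051 + 810905 := rfl

end MrgPart1

-- marker of a merged file
example : 731051 + 810905 = 731051 + 810905 := rfl
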