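import Pool.Agent.MP_20bec2_an.T3.Par4
import Pool.Agent.MP_20bec2_an.T3.Zt
import Pool.Agent.MP_20bec2_an.T3.InitB
import Pool.Agent.MP_20bec2_an.T3.Yq
import Pool.Agent.MP_20bec2_an.T3.CrA
import Pool.Agent.MP_20bec2_an.T3.Lab
import Pool.Agent.MP_20bec2_an.T3.Vtr
import Pool.Agent.MP_20bec2_an.T3.Par3
import Pool.Agent.MP_20bec2_an.T3.Pv
import Pool.Agent.MP_20bec2_an.T3.K4
import Pool.Agent.MP_20bec2_an.T3.Rem
import Pool.Agent.MP_20bec2_an.T3.Calc1b
import Pool.Agent.MP_20bec2_an.T3.Calc2C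

-- ======== part 0: formerly Pool.Agent.MP_20bec2_an.T3.CreditA
section MrgPart0

/-! Averages and primitives along one coordinate direction (for the credit field). -/

set_option autoImplicit false
open MeasureTheory Set Filter Matrix Topology

namespace Pool.Agent.MP_20bec2_an.T3.Credit
noncomputable section

variable {ω : ℝ → ℝ} {i : Fin 3} {l : ℝ} {g g' : V → ℝ} {h : V}

/-- weighted integral along the direction `i` -/
def wi (ω : ℝ → ℝ) (i : Fin 3) (l : ℝ) (g : V → ℝ) (x : V) : ℝ :=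
  ∫ t in (0 : ℝ)..l, ω t * g (x + t • (Pi.single i 1 : V))
/-- average over a segment -/
def av (i : Fin 3) (l : ℝ) : (V → ℝ) → V → ℝ := wi (fun _ => 1 / l) i l
/-- primitive of `av g - g` -/
def qv (i : Fin 3) (l : ℝ) : (V → ℝ) → V → ℝ := wi (fun t => 1 - t / l) i l

lemma wi_jc (hω : Continuous ω) (hg : Sm g) (i : Fin 3) :
    JC fun t x => ω t * g (x + t • (Pi.single i 1 : V)) := (JC.line hg _).wt hω

lemma wi_sm (hω : Continuous ω) (hg : Sm g) (i : Fin 3) (l : ℝ) : Sm (wi ω i l g) :=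
  (wi_jc hω hg i).sm_integral 0 l

lemma wi_pd (hω : Continuous ω) (hg : Sm g) (i : Fin 3) (l : ℝ) (j : Fin 3) :
    pd j (wi ω i l g) = wi ω i l (pd j g) := by
  refine ((wi_jc hω hg i).pd_integral 0 l j).trans ?_
  funext x
  refine intervalIntegral.integral_congr fun t _ => ?_
  have e : pds [j] (fun y => g (y + t • (Pi.single i 1 : V))) x = _ :=
    congrFun (pds_comp_add g _ [j]) x
  simp only [pds] at e
  simp only [pd_const_mul, e]

lemma wi_cb {n : ℕ} {a B : ℝ} (hω : Continuous ω) (hg : Sm g) (hh : ∀ j, 0 ≤ h j) (hl : 0 ≤ l)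
    (ha : ∀ t ∈ Icc 0 l, |ω t| ≤ a) (H : CB n h univ g B) :
    CB n h univ (wi ω i l g) (a * B * l) := by
  have := (wi_jc hω hg i).cbl (P := fun m => m.length ≤ n) (U := univ) (a := 0) (b := l)
    (B := a * B) hh fun t ht => by
      rw [uIcc_of_le hl] at ht
      exact CBl.smul_le hh ((CBl.comp_add H _).monoU fun _ _ => mem_univ _) (ha t ht)
  rwa [sub_zero, abs_of_nonneg hl] at this

lemma norm_step {t : ℝ} (ht : t ∈ Icc 0 l) (x : V) (i : Fin 3) :
    ‖x - (x + t • (Pi.single i 1 : V))‖ ≤ l := by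
  rw [sub_add_cancel_left, norm_neg, norm_smul, Pi.norm_single, norm_one, mul_one,
    Real.norm_eq_abs, abs_of_nonneg ht.1]
  exact ht.2

lemma wi_supp {O : Mx} {D r s : ℝ} (hO : Orth O) (hl : 0 ≤ l) (hs : 2 * l ≤ s * D)
    (h0 : ∀ x, x ∉ RX O D r → g x = 0) (x : V) (hx : x ∉ RX O D (r + s)) : wi ω i l g x = 0 := by
  have : ∀ t ∈ uIcc 0 l, ω t * g (x + t • (Pi.single i 1 : V)) = 0 := fun t ht => by
    rw [uIcc_of_le hl] at ht
    rw [h0 _ fun hm => hx (Prof.RX_add hO hm (by linarith [norm_step ht x i])), mul_zero]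
  unfold wi
  rw [intervalIntegral.integral_congr (g := fun _ => 0) this, intervalIntegral.integral_zero]

lemma cont_line (hg : Continuous g) (x : V) (i : Fin 3) :
    Continuous fun t : ℝ => g (x + t • (Pi.single i 1 : V)) :=
  hg.comp (continuous_const.add (continuous_id.smul continuous_const))

lemma pd_qv (hl : 0 < l) (hg : Sm g) (x : V) : pd i (qv i l g) x = -g x + av i l g x := by
  have hω : Continuous fun t : ℝ => 1 - t / l := by fun_prop
  unfold qv av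
  rw [wi_pd hω hg]
  unfold wi
  have h1 := intervalIntegral.integral_mul_deriv_eq_deriv_mul (a := 0) (b := l)
    (u := fun t => 1 - t / l) (u' := fun _ => -(1 / l))
    (v := fun t => g (x + t • (Pi.single i 1 : V)))
    (v' := fun t => pd i g (x + t • (Pi.single i 1 : V)))
    (fun t _ => ((hasDerivAt_id t).div_const l).const_sub 1)
    (fun t _ => by
      have := hasDerivAt_line (x := x) (v := Pi.single i 1) (t := t) (hg.dif _)
      simpa [Pi.single_apply] using this)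
    (continuous_const.intervalIntegrable _ _)
    ((cont_line (hg.pd i).continuous x i).intervalIntegrable _ _)
  rw [h1]
  simp only [neg_mul, intervalIntegral.integral_neg, div_self hl.ne', zero_smul, add_zero]
  ring

lemma av_sm (hg : Sm g) (i : Fin 3) (l : ℝ) : Sm (av i l g) := wi_sm continuous_const hg i l
lemma qv_sm (hg : Sm g) (i : Fin 3) (l : ℝ) : Sm (qv i l g) := wi_sm (by fun_prop) hg i l

lemma av_cb {n : ℕ} {B : ℝ} (hg : Sm g) (hh : ∀ j, 0 ≤ h j) (hl : 0 < l) (H : CB n h univ g B) :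
    CB n h univ (av i l g) B := by
  have := wi_cb (i := i) (ω := fun _ => 1 / l) (a := 1 / l) continuous_const hg hh hl.le
    (fun _ _ => (abs_of_pos (one_div_pos.2 hl)).le) H
  rwa [mul_right_comm, one_div_mul_cancel hl.ne', one_mul] at this

lemma qv_cb {n : ℕ} {B : ℝ} (hg : Sm g) (hh : ∀ j, 0 ≤ h j) (hl : 0 < l) (H : CB n h univ g B) :
    CB n h univ (qv i l g) (B * l) := by
  have := wi_cb (i := i) (ω := fun t => 1 - t / l) (a := 1) (by fun_prop) hg hh hl.le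
    (fun t ht => by
      have h1 : 0 ≤ t / l := div_nonneg ht.1 hl.le
      have h2 : t / l ≤ 1 := (div_le_one hl).2 ht.2
      exact abs_le.2 ⟨by linarith, by linarith⟩) H
  rwa [one_mul] at this

lemma av_nonneg (hl : 0 < l) (h0 : ∀ y, 0 ≤ g y) (x : V) : 0 ≤ av i l g x :=
  intervalIntegral.integral_nonneg hl.le fun _ _ => mul_nonneg (one_div_pos.2 hl).le (h0 _)

lemma av_mono (hl : 0 < l) (hg : Continuous g) (hg' : Continuous g') (H : ∀ y, g y ≤ g' y)
    (x : V) : av i l g x ≤ av i l g' x :=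
  intervalIntegral.integral_mono_on hl.le
    ((continuous_const.mul (cont_line hg x i)).intervalIntegrable _ _)
    ((continuous_const.mul (cont_line hg' x i)).intervalIntegrable _ _)
    fun _ _ => mul_le_mul_of_nonneg_left (H _) (one_div_pos.2 hl).le

lemma av_lin (hg : Continuous g) (hg' : Continuous g') (a b : ℝ) (x : V) :
    av i l (fun y => a * g y + b * g' y) x = a * av i l g x + b * av i l g' x := by
  have i1 : IntervalIntegrable (fun t : ℝ => a * (1 / l * g (x + t • (Pi.single i 1 : V))))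
      volume 0 l := Continuous.intervalIntegrable (by have := cont_line hg x i; fun_prop) _ _
  have i2 : IntervalIntegrable (fun t : ℝ => b * (1 / l * g' (x + t • (Pi.single i 1 : V))))
      volume 0 l := Continuous.intervalIntegrable (by have := cont_line hg' x i; fun_prop) _ _
  unfold av wi
  rw [← intervalIntegral.integral_const_mul, ← intervalIntegral.integral_const_mul,
    ← intervalIntegral.integral_add i1 i2]
  refine intervalIntegral.integral_congr fun t _ => ?_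
  simp only
  ring

/-- the averaged one-dimensional kernel -/
lemma k1_av {a : ℝ} (ha : 0 < a) (hal : a ≤ l) (u : ℝ) :
    ∫ t in (0 : ℝ)..l, 1 / l * Mol.k1 a (u + t) ≤ 8 * Mol.k1 (4 * l) u := by
  have hl : 0 < l := ha.trans_le hal
  have h4 : 0 < 4 * l := by positivity
  rw [intervalIntegral.integral_const_mul]
  rcases le_total |u| (2 * l) with hu | hu
  · have h1 := Mol.k1_half h4 (show |u| ≤ 4 * l / 2 by linarith)
    have h2 : ∫ t in (0 : ℝ)..l, Mol.k1 a (u + t) ≤ 1 := by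
      rw [intervalIntegral.integral_of_le hl.le, ← (Mol.k1_pk ha).one,
        ← integral_add_left_eq_self (Mol.k1 a) u]
      exact setIntegral_le_integral ((Mol.k1_pk ha).toKn.int.comp_add_left u)
        (Eventually.of_forall fun _ => Mol.k1_nonneg ha _)
    have h3 := mul_le_mul_of_nonneg_left h2 (one_div_pos.2 hl).le
    have h5 : 1 / l = 8 * (1 / (2 * (4 * l))) := by field_simp; norm_num
    linarith
  · have : ∀ t ∈ uIcc 0 l, Mol.k1 a (u + t) = 0 := fun t ht => by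
      rw [uIcc_of_le hl.le] at ht
      refine Mol.k1_zero ha ?_
      have := abs_add_le (u + t) (-t)
      rw [add_neg_cancel_right, abs_neg, abs_of_nonneg ht.1] at this
      linarith [ht.2]
    rw [intervalIntegral.integral_congr (g := fun _ => 0) this, intervalIntegral.integral_zero,
      mul_zero]
    exact mul_nonneg (by norm_num) (Mol.k1_nonneg h4 _)

lemma kh_split (h w : V) (i : Fin 3) :
    Mol.kh h w = Mol.k1 (h i) (w i) * ∏ j ∈ Finset.univ.erase i, Mol.k1 (h j) (w j) :=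
  (Finset.mul_prod_erase Finset.univ (fun j => Mol.k1 (h j) (w j)) (Finset.mem_univ i)).symm

lemma kh_av (hh : ∀ j, 0 < h j) (hl : h i ≤ l) (w : V) :
    ∫ t in (0 : ℝ)..l, 1 / l * Mol.kh h (w + t • (Pi.single i 1 : V)) ≤
      8 * Mol.kh (Function.update h i (4 * l)) w := by
  have e1 : ∀ t : ℝ, 1 / l * Mol.kh h (w + t • (Pi.single i 1 : V)) =
      1 / l * Mol.k1 (h i) (w i + t) * ∏ j ∈ Finset.univ.erase i, Mol.k1 (h j) (w j) := by
    intro t
    rw [kh_split _ _ i, mul_assoc]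
    congr 2
    · simp
    · refine Finset.prod_congr rfl fun j hj => ?_
      simp [Pi.single_eq_of_ne (Finset.ne_of_mem_erase hj)]
  have e2 : Mol.kh (Function.update h i (4 * l)) w =
      Mol.k1 (4 * l) (w i) * ∏ j ∈ Finset.univ.erase i, Mol.k1 (h j) (w j) := by
    rw [kh_split _ _ i, Function.update_self]
    congr 1
    refine Finset.prod_congr rfl fun j hj => ?_
    rw [Function.update_of_ne (Finset.ne_of_mem_erase hj)]
  simp only [e1, e2]
  rw [intervalIntegral.integral_mul_const, ← mul_assoc]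
  exact mul_le_mul_of_nonneg_right (k1_av (hh i) hl _)
    (Finset.prod_nonneg fun j _ => Mol.k1_nonneg (hh j) _)

lemma upd_pos (hh : ∀ j, 0 < h j) {a : ℝ} (ha : 0 < a) (j : Fin 3) :
    0 < Function.update h i a j := by
  rcases eq_or_ne j i with rfl | hj
  · rwa [Function.update_self]
  · rw [Function.update_of_ne hj]; exact hh j

lemma int_prod {F : ℝ → V → ℝ} (hm : Measurable fun p : ℝ × V => F p.1 p.2)
    (h1 : ∀ t, Integrable (F t)) (h2 : Continuous fun t => ∫ y, ‖F t y‖) :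
    Integrable (Function.uncurry F) ((volume.restrict (uIoc 0 l)).prod volume) :=
  (integrable_prod_iff hm.aestronglyMeasurable).2
    ⟨Eventually.of_forall h1, intervalIntegrable_iff.1 (h2.intervalIntegrable 0 l)⟩

/-- the average of a mollification is below a wider mollification -/
lemma av_mol {B : ℝ} (hh : ∀ j, 0 < h j) (hl : h i ≤ l) (hm : Measurable g) (h0 : ∀ y, 0 ≤ g y)
    (hB : ∀ y, |g y| ≤ B) (x : V) :
    av i l (mol h g) x ≤ 8 * mol (Function.update h i (4 * l)) g x := by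
  have hl0 : 0 < l := (hh i).trans_le hl
  have hg : Mol.LI g := Mol.li_meas hm hB
  have hk := (Mol.kh_pk hh).toKn
  have hH : ∀ j, 0 < Function.update h i (4 * l) j := upd_pos hh (by positivity)
  have hint : Integrable (Function.uncurry fun (t : ℝ) (y : V) =>
      1 / l * (Mol.kh h (x + t • (Pi.single i 1 : V) - y) * g y))
      ((volume.restrict (uIoc 0 l)).prod volume) := by
    have hc : Continuous fun p : ℝ × V => Mol.kh h (x + p.1 • (Pi.single i 1 : V) - p.2) :=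
      hk.sm.continuous.comp (by fun_prop)
    have hc2 : Measurable fun p : ℝ × V =>
        1 / l * (Mol.kh h (x + p.1 • (Pi.single i 1 : V) - p.2) * g p.2) :=
      (hc.measurable.mul (hm.comp measurable_snd)).const_mul _
    refine int_prod ?_ (fun t => (hk.int_swap hg _).const_mul _) ?_
    · exact hc2
    · have e : ∀ t : ℝ, ∫ y, ‖1 / l * (Mol.kh h (x + t • (Pi.single i 1 : V) - y) * g y)‖ =
          1 / l * mol h g (x + t • (Pi.single i 1 : V)) := fun t => by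
        rw [Mol.mol_swap, ← integral_const_mul]
        refine integral_congr_ae (Eventually.of_forall fun y => ?_)
        exact Real.norm_of_nonneg (mul_nonneg (one_div_pos.2 hl0).le
          (mul_nonneg (Mol.kh_nonneg hh _) (h0 _)))
      simp only [e]
      exact continuous_const.mul (cont_line (Mol.mol_sm hh hg).continuous x i)
  unfold av wi
  simp only [Mol.mol_swap, ← integral_const_mul]
  rw [intervalIntegral_integral_swap hint]
  refine integral_mono_of_nonneg (Eventually.of_forall fun y => ?_)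
    (((Mol.kh_pk hH).toKn.int_swap hg x).const_mul 8) (Eventually.of_forall fun y => ?_)
  · exact intervalIntegral.integral_nonneg hl0.le fun _ _ => mul_nonneg (one_div_pos.2 hl0).le
      (mul_nonneg (Mol.kh_nonneg hh _) (h0 _))
  · have := mul_le_mul_of_nonneg_right (kh_av hh hl (x - y)) (h0 y)
    rw [← intervalIntegral.integral_mul_const] at this
    simp only [← mul_assoc, add_sub_right_comm]
    exact this

lemma av2_mol {B : ℝ} (hh : ∀ j, 0 < h j) (h0l : h 0 ≤ l) (h1l : h 1 ≤ l) (hm : Measurable g)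
    (h0 : ∀ y, 0 ≤ g y) (hB : ∀ y, |g y| ≤ B) (x : V) :
    av 0 l (av 1 l (mol h g)) x ≤ 64 * mol ![4 * l, 4 * l, h 2] g x := by
  have hl0 : 0 < l := (hh 0).trans_le h0l
  have hg : Mol.LI g := Mol.li_meas hm hB
  have hH : ∀ j, 0 < Function.update h 1 (4 * l) j := upd_pos hh (by positivity)
  have hc := (Mol.mol_sm hH hg).continuous
  have h1 := av_mono (i := 0) hl0 (av_sm (Mol.mol_sm hh hg) 1 l).continuous
    (g' := fun y => 8 * mol (Function.update h 1 (4 * l)) g y +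
      0 * mol (Function.update h 1 (4 * l)) g y) (by fun_prop)
    (fun y => by rw [zero_mul, add_zero]; exact av_mol hh h1l hm h0 hB y) x
  rw [av_lin hc hc, zero_mul, add_zero] at h1
  have h2 := av_mol (i := 0) hH (l := l) (by rwa [Function.update_of_ne (by decide)]) hm h0 hB x
  have e : Function.update (Function.update h 1 (4 * l)) 0 (4 * l) = ![4 * l, 4 * l, h 2] := by
    funext j
    fin_cases j <;> simp
  rw [e] at h2
  linarith

end
end Pool.Agent.MP_20bec2_an.T3.Credit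

end MrgPart0

-- ======== part 1: formerly Pool.Agent.MP_20bec2_an.T3.Prep
section MrgPart1

-- ======== part 0: formerly Pool.Agent.MP_20bec2_an.T3.CptA
section MrgPart0

/-! Perturbation of an ordered diagonalisation and variation of a Gram matrix. -/

set_option autoImplicit false
open MeasureTheory Set Filter Matrix Topology

namespace Pool.Agent.MP_20bec2_an.T3
noncomputable section
open Classical Prof GeoP

namespace CptA

theorem gap {x w e A : ℝ} (hA : 0 < A) (h : |x * w| ≤ e * A) (hx : A / 2 ≤ |x|) : |w| ≤ 2 * e := by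
  rw [abs_mul] at h
  have := mul_le_mul_of_nonneg_right hx (abs_nonneg w)
  exact le_of_mul_le_mul_right (by linarith) hA

theorem val {x w e : ℝ} (h : |x * w| ≤ e) (hw : 1 / 4 ≤ w ^ 2) : |x| ≤ 2 * e := by
  have h1 : 1 / 2 ≤ |w| := by
    rw [← sq_abs] at hw
    nlinarith [abs_nonneg w]
  rw [abs_mul] at h
  have := mul_le_mul_of_nonneg_left h1 (abs_nonneg x)
  linarith

theorem rat {a a' e : ℝ} (ha : 0 < a) (ha' : 0 < a') (h : |a ^ 2 - a' ^ 2| ≤ e * a ^ 2) :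
    |a' / a - 1| ≤ e := by
  rw [div_sub_one ha.ne', abs_div, abs_of_pos ha, div_le_iff₀ ha]
  rw [sq_sub_sq, abs_mul, abs_of_pos (add_pos ha ha'), abs_sub_comm] at h
  refine le_of_mul_le_mul_left ?_ ha
  nlinarith [mul_nonneg ha'.le (abs_nonneg (a' - a))]

theorem pert {W : Mx} (hW : Orth W) {a b σ a' b' σ' e : ℝ} (ha : 0 < a) (hab : a ≤ b)
    (ha' : 0 < a') (hab' : a' ≤ b') (hσ : σ ^ 2 ≤ a ^ 2 / 4) (hσ' : σ' ^ 2 ≤ a' ^ 2 / 4)
    (h1 : a' ≤ 11 / 10 * a) (h2 : a ≤ 11 / 10 * a') (h3 : b' ≤ 11 / 10 * b) (h4 : b ≤ 11 / 10 * b')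
    (he : e ≤ 1 / 100) (h : EB (dg3 (a ^ 2) (b ^ 2) (σ ^ 2) * W -
      W * dg3 (a' ^ 2) (b' ^ 2) (σ' ^ 2)) (cm (e * a ^ 2))) :
    (∀ i, i ≠ 2 → |W i 2| ≤ 2 * e ∧ |W 2 i| ≤ 2 * e) ∧
    ((|W 0 1| ≤ 2 * e ∧ |W 1 0| ≤ 2 * e) ∨ (b ≤ 4 * a ∧ b' ≤ 4 * a')) ∧
    |a' / a - 1| ≤ 2 * e ∧ |b' / b - 1| ≤ 2 * e := by
  have k : ∀ i j, |(![a ^ 2, b ^ 2, σ ^ 2] i - ![a' ^ 2, b' ^ 2, σ' ^ 2] j) * W i j| ≤ e * a ^ 2 :=
    fun i j => by
      have := h i j
      rwa [dg3, dg3, Matrix.sub_apply, diagonal_mul, mul_diagonal, mul_comm (W i j), ← sub_mul] at this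
  have hA := pow_pos ha 2
  have p1 := pow_le_pow_left₀ ha'.le h1 2
  have p2 := pow_le_pow_left₀ ha.le h2 2
  have p3 := pow_le_pow_left₀ ha.le hab 2
  have p4 := pow_le_pow_left₀ ha'.le hab' 2
  rw [mul_pow] at p1 p2
  have g02 : |W 0 2| ≤ 2 * e := gap hA (k 0 2) (le_abs.2 (Or.inl (by simp; linarith)))
  have g12 : |W 1 2| ≤ 2 * e := gap hA (k 1 2) (le_abs.2 (Or.inl (by simp; linarith)))
  have g20 : |W 2 0| ≤ 2 * e := gap hA (k 2 0) (le_abs.2 (Or.inr (by simp; linarith)))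
  have g21 : |W 2 1| ≤ 2 * e := gap hA (k 2 1) (le_abs.2 (Or.inr (by simp; linarith)))
  have sq : ∀ x : ℝ, |x| ≤ 2 * e → x ^ 2 ≤ 1 / 4 := fun x hx => by
    rw [← sq_abs]; nlinarith [abs_nonneg x]
  have r0 := orth_row hW 0
  have r1 := orth_row hW 1
  have c0 := orth_col hW 0
  rw [Fin.sum_univ_three] at r0 r1 c0
  have key : |a ^ 2 - a' ^ 2| ≤ 2 * (e * a ^ 2) ∧ |b ^ 2 - b' ^ 2| ≤ 2 * (e * a ^ 2) := by
    rcases le_total (1 / 2) (W 0 0 ^ 2) with c | c
    · exact ⟨val (k 0 0) (by linarith),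
        val (k 1 1) (by linarith [sq _ g12, sq_nonneg (W 2 0)])⟩
    · have v1 : |a ^ 2 - b' ^ 2| ≤ _ := val (k 0 1) (by linarith [sq _ g02])
      have v2 : |b ^ 2 - a' ^ 2| ≤ _ := val (k 1 0) (by linarith [sq _ g20])
      rw [abs_le] at v1 v2 ⊢
      rw [abs_le]
      refine ⟨⟨?_, ?_⟩, ?_, ?_⟩ <;> linarith [v1.1, v1.2, v2.1, v2.2]
  have he0 : 0 ≤ e := by linarith [abs_nonneg (W 0 2)]
  refine ⟨fun i hi => ?_, ?_, rat ha ha' (by linarith [key.1]), rat (ha.trans_le hab)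
    (ha'.trans_le hab') (by linarith [key.2, mul_le_mul_of_nonneg_left p3 he0])⟩
  · fin_cases i
    exacts [⟨g02, g20⟩, ⟨g12, g21⟩, absurd rfl hi]
  · refine or_iff_not_imp_right.2 fun c => ?_
    rw [not_and_or, not_le, not_le] at c
    have q1 := pow_le_pow_left₀ (by positivity) (show 3 * a ≤ b by rcases c with c | c <;> linarith) 2
    have q2 := pow_le_pow_left₀ (by positivity) (show 3 * a ≤ b' by rcases c with c | c <;> linarith) 2
    rw [mul_pow] at q1 q2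
    exact ⟨gap hA (k 0 1) (le_abs.2 (Or.inr (by simp; linarith))),
      gap hA (k 1 0) (le_abs.2 (Or.inl (by simp; linarith)))⟩

/-- two frames that diagonalise nearby matrices -/
theorem two {J J' G G' W W' D D' : Mx} (hW : Orth W) (hW' : Orth W')
    (hD : (J * W)ᵀ * G * (J * W) = D) (hD' : (J' * W')ᵀ * G' * (J' * W') = D') {u e : ℝ}
    (hJ : EB J (cm 4)) (hJ' : EB J' (cm 4)) (hG : EB G (cm (2 * u))) (hG' : EB G' (cm (2 * u)))
    (dJ : EB (J - J') (cm e)) (dG : EB (G - G') (cm (5 * e * u))) :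
    EB (D * (Wᵀ * W') - Wᵀ * W' * D') (cm (3000 * e * u)) := by
  have e1 : D * (Wᵀ * W') = Wᵀ * (Jᵀ * G * J) * W' := by
    rw [← hD, transpose_mul]
    simp only [Matrix.mul_assoc]
    rw [← Matrix.mul_assoc W, hW.1, Matrix.one_mul]
  have e2 : Wᵀ * W' * D' = Wᵀ * (J'ᵀ * G' * J') * W' := by
    rw [← hD', transpose_mul]
    simp only [Matrix.mul_assoc]
    rw [← Matrix.mul_assoc W', hW'.1, Matrix.one_mul]
  have e3 : Jᵀ * G * J - J'ᵀ * G' * J' =
      (J - J')ᵀ * G * J + J'ᵀ * (G - G') * J + J'ᵀ * G' * (J - J') := by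
    simp only [transpose_sub, Matrix.sub_mul, Matrix.mul_sub]; abel
  rw [e1, e2, ← Matrix.sub_mul, ← Matrix.mul_sub, e3]
  have := mul_nonneg (eb_nonneg dJ) (eb_nonneg hG)
  exact eb_mono (eb_mul_orth hW' (eb_orth_mul (orth_t hW) (eb_add (eb_add
    (eb_mul (eb_mul (eb_t dJ) hG) hJ) (eb_mul (eb_mul (eb_t hJ') dG) hJ))
    (eb_mul (eb_mul (eb_t hJ') hG') dJ)))) (by linarith)

theorem mvt {g : V → ℝ} {U : Set V} (hU : Convex ℝ U) (hg : Sm g) {b : ℝ}
    (hb : ∀ i, ∀ y ∈ U, |pd i g y| ≤ b) {x x' : V} (hx : x ∈ U) (hx' : x' ∈ U) :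
    |g x - g x'| ≤ 3 * b * ‖x - x'‖ := by
  refine (mvt_pd hU (fun y _ => hg.dif y) (b := fun _ => b) hb hx hx').trans ?_
  have h0 : 0 ≤ b := (abs_nonneg _).trans (hb 0 x hx)
  have k : ∀ i, b * |x i - x' i| ≤ b * ‖x - x'‖ := fun i =>
    mul_le_mul_of_nonneg_left (norm_le_pi_norm (x - x') i) h0
  rw [Fin.sum_univ_three]
  linarith [k 0, k 1, k 2]

variable {c : Pm} {f : V → V} {z z' : V}

theorem gb_bd (h : Gd c) (hg : c.GB f z 1) :
    EB (c.gam f z) (cm 2) ∧ c.gam f z 0 0 ≤ 2 * c.η := by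
  have h1 : c.gb ≤ c.η := (min_le_left _ _).trans (div_le_self h.η_pos.le (one_le_mul_of_one_le_of_one_le
    (by linarith [h.big.J_ge, h.big.L_ge, show c.J = pJ c.N from rfl]) (Real.one_le_sqrt.2
    (by linarith [h.big.J_ge, h.big.L_ge, show c.J = pJ c.N from rfl]))))
  have h2 : hc c.N ≤ 1 := by
    have := h.big.hc_le
    have := (div_le_one h.big.J_pos).2 (show 1 ≤ pJ c.N by linarith [h.big.J_ge, h.big.L_ge])
    linarith [h.big.hc_pos]
  have h3 := h.η_le_one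
  have h4 := h.η_pos
  refine ⟨fun a b => ?_, ?_⟩
  · have k := hg a b
    have k1 : ((1 : ℝ) • bm c.gb (hc c.N) (1 / 10)) a b ≤ 1 := by
      fin_cases a <;> fin_cases b <;> simp [bm] <;> linarith
    have k2 : |c.gref a b| ≤ 1 := by
      fin_cases a <;> fin_cases b <;> simp [Pm.gref, dg3, abs_of_pos h4, h3]
    have k3 := abs_sub_abs_le_abs_sub (c.gam f z a b) (c.gref a b)
    rw [Matrix.sub_apply] at k
    change _ ≤ (2 : ℝ)
    linarith
  · have k : c.gam f z 0 0 - c.η ≤ c.gb := by simpa [Pm.gref, dg3, bm] using (abs_le.1 (hg 0 0)).2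
    linarith

/-- inverse scales -/
def iv (c : Pm) (f : V → V) (z : V) : V := ![c.s1 / √c.η, c.s2, jac f z / c.n12]

theorem iv_mul (h : Gd c) (hM : |jac f z - 1| ≤ 1 / 100) (a : Fin 3) :
    ![c.c1, c.c2, c.n12 / jac f z] a * iv c f z a = 1 := by
  have := h.s1_pos; have := h.s2_pos; have := h.n12_pos; have := Real.sqrt_pos.2 h.η_pos
  have : 0 < jac f z := by linarith [(abs_le.1 hM).1]
  fin_cases a <;> simp [iv, Pm.c1, Pm.c2] <;> field_simp

theorem gram_eq (h : Gd c) (hM : |jac f z - 1| ≤ 1 / 100) (a b : Fin 3) :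
    gram f z a b = c.gam f z a b * (iv c f z a * iv c f z b) := by
  have e : c.gam f z = diagonal ![c.c1, c.c2, c.n12 / jac f z] * gram f z *
      diagonal ![c.c1, c.c2, c.n12 / jac f z] := by
    simp only [Pm.gam, Pm.ca, gram, dg3, transpose_mul, diagonal_transpose, Matrix.mul_assoc]
  rw [e, mul_diagonal, diagonal_mul]
  linear_combination (-gram f z a b) * (iv_mul h hM a) -
    gram f z a b * (![c.c1, c.c2, c.n12 / jac f z] a * iv c f z a) * (iv_mul h hM b)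

theorem jm_bd (h : Gd c) (hM : |jac f z - 1| ≤ 1 / 100) (hg : c.GB f z 1) :
    EB (jm f z) (cm (2 * c.N)) ∧ EB (jm f z)⁻¹ (cm (70 * c.N)) := by
  obtain ⟨a1, a2, a3⟩ := Lip.sizes h
  obtain ⟨g1, g2⟩ := gb_bd h hg
  have a4 := h.s1_le
  have hn : c.n12 = c.s1 * c.s2 := rfl
  have hn1 : 1 ≤ c.n12 := by nlinarith
  have a5 : 3 / c.n12 ≤ 2 * c.N := (div_le_self (by norm_num) hn1).trans
    (by linarith [h.big.N_ge, h.big.J_ge, h.big.L_ge])
  have a6 : 0 < 3 / c.n12 := by positivity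
  have k : ∀ i j, |jm f z i j| ≤ ![2 * c.s1, 2 * c.s2, 3 / c.n12] j := fun i j => by
    have k1 : jm f z i j ^ 2 ≤ gram f z j j := by simpa [gram] using Lip.col_sq (jm f z) 1 i j
    rw [gram_eq h hM] at k1
    have k2 : ∀ j, c.gam f z j j ≤ 2 := fun j => (le_abs_self _).trans (g1 j j)
    refine abs_le.2 (abs_le_of_sq_le_sq' (k1.trans ?_) (by fin_cases j <;> simp <;> linarith))
    fin_cases j
    · have e : iv c f z 0 * iv c f z 0 = c.s1 ^ 2 / c.η := by
        simp [iv, div_mul_div_comm, h.η_pos.le, sq]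
      change c.gam f z 0 0 * (iv c f z 0 * iv c f z 0) ≤ (2 * c.s1) ^ 2
      rw [e, ← mul_div_assoc, div_le_iff₀ h.η_pos]
      nlinarith [mul_le_mul_of_nonneg_right g2 (sq_nonneg c.s1), mul_pos h.η_pos (pow_pos h.s1_pos 2)]
    · change c.gam f z 1 1 * (c.s2 * c.s2) ≤ (2 * c.s2) ^ 2
      nlinarith [mul_le_mul_of_nonneg_right (k2 1) (mul_self_nonneg c.s2), mul_self_nonneg c.s2]
    · change c.gam f z 2 2 * (jac f z / c.n12 * (jac f z / c.n12)) ≤ (3 / c.n12) ^ 2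
      rw [div_mul_div_comm, ← mul_div_assoc, div_pow, ← sq c.n12]
      refine div_le_div_of_nonneg_right ?_ (sq_nonneg _)
      obtain ⟨m1, m2⟩ := abs_le.1 hM
      nlinarith [mul_le_mul_of_nonneg_right (k2 2) (mul_self_nonneg (jac f z))]
  have b1 : c.s1 * (3 / c.n12) ≤ 3 * c.N := by nlinarith [div_le_self (show (0 : ℝ) ≤ 3 by norm_num) hn1]
  have b2 : c.s2 * (3 / c.n12) ≤ 3 * c.N := by nlinarith [div_le_self (show (0 : ℝ) ≤ 3 by norm_num) hn1]
  refine ⟨fun i j => (k i j).trans ?_, Lip.inv_eb (m := 99 / 100) (by norm_num)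
    (show _ ≤ jac f z by linarith [(abs_le.1 hM).1]) k ?_ ?_ ?_⟩
  · fin_cases j <;> simp [cm] <;> linarith
  all_goals simp; nlinarith [h.N_pos]

theorem gram_var (h : Gd c) (hM : |jac f z - 1| ≤ 1 / 100) (hM' : |jac f z' - 1| ≤ 1 / 100)
    (hg : c.GB f z 1) (hg' : c.GB f z' 1) {e : ℝ} (d1 : |jac f z - jac f z'| ≤ e)
    (d2 : EB (c.gam f z - c.gam f z') (cm e)) :
    EB (gram f z) (cm (2 * (c.N * c.s1 ^ 2))) ∧
      EB (gram f z - gram f z') (cm (5 * e * (c.N * c.s1 ^ 2))) := by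
  obtain ⟨a1, a2, a3⟩ := Lip.sizes h
  have hN := h.big
  have hn : 1 ≤ c.n12 := show 1 ≤ c.s1 * c.s2 by nlinarith [h.s1_le]
  obtain ⟨u, hu⟩ : ∃ u, u = √c.N * c.s1 := ⟨_, rfl⟩
  have u2 : c.N * c.s1 ^ 2 = u * u := by
    rw [hu, mul_mul_mul_comm, Real.mul_self_sqrt h.N_pos.le, sq]
  have u3 : 2 ≤ u := by
    have : 2 ≤ √c.N := Real.le_sqrt_of_sq_le (by linarith [hN.N_ge, hN.J_ge, hN.L_ge])
    nlinarith
  have lu : Real.log u = pJ c.N / 2 + Real.log c.s1 := by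
    rw [hu, Real.log_mul hN.sqrtN_pos.ne' h.s1_pos.ne', hN.log_sqrtN]
  have he : 0 ≤ e := (abs_nonneg _).trans d1
  have k : ∀ w, |jac f w - 1| ≤ 1 / 100 → ∀ a, |iv c f w a| ≤ u := fun w hw a => by
    have := h.s1_pos; have := Real.sqrt_pos.2 h.η_pos
    obtain ⟨m1, m2⟩ := abs_le.1 hw
    fin_cases a
    · change |c.s1 / √c.η| ≤ u
      rw [abs_of_pos (by positivity)]
      refine le_of_log (by positivity) (by linarith) ?_
      rw [lu, Real.log_div (by positivity) (by positivity), Real.log_sqrt h.η_pos.le]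
      linarith [h.log_η_ge, hN.L_ge]
    · change |c.s2| ≤ u
      rw [abs_of_pos h.s2_pos]
      refine le_of_log h.s2_pos (by linarith) ?_
      linarith [h.log_K, h.log_K_bd.2, hN.L_ge, hN.J_ge]
    · change |jac f w / c.n12| ≤ u
      rw [abs_of_pos (div_pos (by linarith) h.n12_pos)]
      exact (div_le_self (by linarith) hn).trans (by linarith)
  have k' : ∀ a, |iv c f z a - iv c f z' a| ≤ e * u := fun a => by
    have : e ≤ e * u := le_mul_of_one_le_right he (by linarith)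
    fin_cases a
    · simp [iv]; positivity
    · simp [iv]; positivity
    · change |jac f z / c.n12 - jac f z' / c.n12| ≤ _
      rw [← sub_div, abs_div, abs_of_pos h.n12_pos]
      exact ((div_le_self (abs_nonneg _) hn).trans d1).trans this
  have mu : ∀ {x y a b : ℝ}, |x| ≤ a → |y| ≤ b → |x * y| ≤ a * b := fun hx hy => by
    rw [abs_mul]; exact mul_le_mul hx hy (abs_nonneg _) ((abs_nonneg _).trans hx)
  rw [u2]
  refine ⟨fun a b => ?_, fun a b => ?_⟩
  · rw [gram_eq h hM]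
    exact mu ((gb_bd h hg).1 a b) (mu (k z hM a) (k z hM b))
  · have t1 := mu (d2 a b) (mu (k z hM a) (k z hM b))
    have t2 := mu ((gb_bd h hg').1 a b) (mu (k' a) (k z hM b))
    have t3 := mu ((gb_bd h hg').1 a b) (mu (k z' hM' a) (k' b))
    simp only [cm, of_apply, Matrix.sub_apply] at t1 t2 t3 ⊢
    rw [gram_eq h hM, gram_eq h hM']
    rw [abs_le] at t1 t2 t3 ⊢
    constructor <;> linarith [t1.1, t1.2, t2.1, t2.2, t3.1, t3.2]

end CptA

end
end Pool.Agent.MP_20bec2_an.T3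

end MrgPart0

-- ======== part 1: formerly Pool.Agent.MP_20bec2_an.T3.Cpt
section MrgPart1

/-! Neighbouring new frames are compatible. -/

set_option autoImplicit false
open MeasureTheory Set Filter Matrix Topology

namespace Pool.Agent.MP_20bec2_an.T3
noncomputable section
open Classical Prof GeoP

namespace CptA

theorem gam_sm (c : Pm) {f : V → V} (hf : Sm f) (hj : ∀ z, jac f z ≠ 0) : SmM (c.gam f) := by
  have h : SmM (c.ca f) := hf.jm.mul fun a b => by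
    have := (contDiff_const (c := c.n12)).div hf.jac hj
    fin_cases a <;> fin_cases b <;> simp [dg3] <;> first | exact contDiff_const | exact this
  exact h.transpose.mul h

theorem cls {x y e : ℝ} (hx : 0 < x) (hy : 0 < y) (h : |Real.log (x / y)| ≤ e) (he : e ≤ 1 / 100) :
    99 / 100 * x ≤ y ∧ 99 / 100 * y ≤ x := by
  have h1 := Real.one_sub_inv_le_log_of_pos (div_pos hx hy)
  have h2 := Real.log_le_sub_one_of_pos (div_pos hx hy)
  rw [inv_div] at h1
  exact ⟨(le_div_iff₀ hx).1 (by linarith [(abs_le.1 h).2]),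
    (le_div_iff₀ hy).1 (by linarith [(abs_le.1 h).1])⟩

variable {N : ℕ} (h : Big N)
include h

theorem log_nxt : pJ N ≤ pJ (nxt N) ∧ pJ (nxt N) ≤ pJ N + 1 := by
  have h1 : (N : ℝ) ≤ nxt N := by exact_mod_cast h.nxt_le.1
  refine ⟨Real.log_le_log h.N_pos h1, (Real.log_le_log (h.N_pos.trans_le h1)
    (show _ ≤ 2 * (N : ℝ) by linarith [h.nxt_le.2, h.N_ge, h.J_pos])).trans ?_⟩
  rw [Real.log_mul two_ne_zero h.N_pos.ne', h.log_N]
  linarith [log2_bd.2]

theorem lb_le {lb : ℝ} (hl : 0 < lb) : lb / 2 ^ nb N ≤ np N (-345 / 10) * (lb / 2 ^ ks N) := by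
  have h1 := (h.two_pow_nm 15000 (a := 345 / 10) (b := 35) (by norm_num) (by norm_num)).1
  have h2 : np N (-345 / 10) * np N (345 / 10) = 1 := by rw [← h.np_add]; norm_num [np_zero]
  rw [show nb N = ks N + 15000 * nm N by unfold nb ks; omega, pow_add, ← div_div,
    div_le_iff₀ (by positivity), mul_right_comm]
  refine le_mul_of_one_le_left (by positivity) ?_
  linarith [mul_le_mul_of_nonneg_left h1 (h.np_pos (-345 / 10)).le]

theorem D_le {lb : ℝ} (hl : 0 < lb) :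
    Dd (nxt N) (lb / 2 ^ nb N) ≤ np N (-304 / 10) * (lb / 2 ^ ks N) := by
  have h' := h.mono h.nxt_le.1
  have h1 : (nxt N : ℝ) ^ 4 * np N (-345 / 10) ≤ np N (-304 / 10) := by
    refine le_of_log (mul_pos (pow_pos h'.N_pos 4) (h.np_pos _)) (h.np_pos _) ?_
    rw [Real.log_mul (pow_pos h'.N_pos 4).ne' (h.np_pos _).ne', Real.log_pow, h'.log_N, h.log_np,
      h.log_np]
    push_cast
    linarith [(log_nxt h).2, h.J_ge, h.L_ge]
  refine (mul_le_mul_of_nonneg_left (lb_le h hl) (pow_pos h'.N_pos 4).le).trans ?_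
  rw [← mul_assoc]
  exact mul_le_mul_of_nonneg_right h1 (by positivity)

theorem num : 18 * (np N (2 / 100) * np N (-304 / 10)) ≤ np N (-282 / 10) ∧
    3 * (3 * pJ N) * (45360 * N ^ 2 * np N (-304 / 10)) ≤ np N (-282 / 10) ∧
    8000 * np N (-282 / 10) * N ≤ dc (nxt N) ∧ dc (nxt N) ≤ 1 / 100 := by
  have h' := h.mono h.nxt_le.1
  have p := h.np_pos
  have p1 := h.N_pos
  have p2 := h.J_pos
  have l1 := (logc_bd (show (1 : ℝ) ≤ 18 by norm_num)).2
  have l2 := (logc_bd (show (1 : ℝ) ≤ 3 by norm_num)).2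
  have l3 := (logc_bd (show (1 : ℝ) ≤ 45360 by norm_num)).2
  have l4 := (logc_bd (show (1 : ℝ) ≤ 8000 by norm_num)).2
  have a := p (2 / 100); have b := p (-304 / 10); have c := p (-282 / 10)
  refine ⟨le_of_log (by positivity) c ?_, le_of_log (by positivity) c ?_,
    le_of_log (by positivity) h'.dc_pos ?_, h'.dc_le'.trans (one_div_le_one_div_of_le (by norm_num)
      (by nlinarith [h'.J_ge, h'.L_ge]))⟩
  all_goals
    simp (disch := positivity) only [Real.log_mul, Real.log_pow, h.log_np, h.log_N, h.log_J,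
      h'.log_dc]
    push_cast
    linarith [(log_nxt h).2, h.J_ge, h.L_ge]

theorem dd_le (B : Bk) (e : B.N = N) (g : Cu) : B.dd g (ks N - el N) ≤ 3 := by
  subst e
  have h1 : (6 / 10 : ℝ) ^ (ks B.N - el B.N) ≤ 1 := pow_le_one₀ (by norm_num) (by norm_num)
  have h2 : 1 / √(pq B.N) ≤ 1 := (div_le_one h.sqrtq_pos).2 (Real.one_le_sqrt.2 (by linarith [h.q_ge]))
  have h3 : np B.N 11 * (6 / 10 : ℝ) ^ (ks B.N - el B.N - mid B.N) ≤ 1 := by
    have a := (h.two_pow_nm 7000 (a := 11) (b := 17) (by norm_num) (by norm_num)).1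
    have b : (6 / 10 : ℝ) ^ (ks B.N - el B.N - mid B.N) ≤ ((6 / 10) ^ 2) ^ (7000 * nm B.N) := by
      rw [← pow_mul]
      exact pow_le_pow_of_le_one (by norm_num) (by norm_num) (by
        have := h.el_le_nm; unfold ks mid; omega)
    refine (mul_le_mul a b (by positivity) (by positivity)).trans ?_
    rw [← mul_pow]
    exact pow_le_one₀ (by norm_num) (by norm_num)
  unfold Bk.dd
  split_ifs <;> linarith

end CptA

open CptA

theorem cpt_ (hT : TfbStmt) (hL : LabStmt) (hZ : ZderStmt) : CptStmt := by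
  filter_upwards [ev_big, hT, hL, hZ, surj, zt] with N hN hT hL hZ hS hzt B hB ρ s H F F' q q' hd
  subst hB
  obtain ⟨-, ok, hk, inv⟩ := id H
  have G : B.G := ok.geo
  have G0 := ok.geo.toFrOk
  have hlb := lb_pos G0
  have hD : 0 < B.D := mul_pos (pow_pos hN.N_pos 4) hlb
  obtain ⟨g, hg⟩ := exists_box hD F.x0
  obtain ⟨j, hj⟩ : ∃ j, j = ks B.N - el B.N := ⟨_, rfl⟩
  have jk : j ≤ ks B.N := hj ▸ Nat.sub_le _ _
  have jm' : mid B.N < j := by
    have := hN.el_le_nm; have := hN.nm_pos; rw [hj]; unfold ks mid; omega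
  have gk : Gd (B.c g (ks B.N)) := Bk.gd G0 hN g hk.le
  have gj : Gd (B.c g j) := Bk.gd G0 hN g (jk.trans hk.le)
  have hO := orth G0 g
  have hQ := det_ne G0 g
  obtain ⟨l, hl⟩ : ∃ l, l = (B.c g (ks B.N)).lam := ⟨_, rfl⟩
  have l0 : 0 < l := hl ▸ gk.lam_pos
  have k0 := hN.np_pos (-304 / 10)
  have hd' : ‖F.x0 - F'.x0‖ ≤ 3 * (np B.N (-304 / 10) * l) := by
    have := D_le hN hlb
    rw [hl]
    exact hd.trans (mul_le_mul_of_nonneg_left this (by norm_num))
  have x1 : F.x0 ∈ B.bx g (9 / 10) := box_mono hD.le (by norm_num) g hg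
  have x2 : F'.x0 ∈ B.bx g (9 / 10) := by
    have a1 : np B.N (-304 / 10) * l ≤ B.lb := hl ▸ (mul_le_of_le_one_left gk.lam_pos.le
      (ZtA.np_le_one hN (by norm_num))).trans gk.lam_le_lb
    have a2 : (10 : ℝ) ^ 1 ≤ B.N ^ 4 := (pow_le_pow_left₀ (by norm_num) (by
      linarith [hN.N_ge, hN.J_ge, hN.L_ge]) 1).trans (pow_le_pow_right₀ (by
      linarith [hN.N_ge, hN.J_ge, hN.L_ge]) (by norm_num))
    have a3 : 10 ^ 1 * B.lb ≤ B.D := mul_le_mul_of_nonneg_right a2 hlb.le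
    exact box_mono hD.le (by norm_num) g (box_add (s := 2 / 5) hg (by rw [norm_sub_rev]; linarith))
  have fk := inv.iF.fk.2 rfl
  have LL := (hL B rfl ρ _ 0 s ok.toOk0 hk (by norm_num) inv.il inv.ip.psh inv.iF fun g => by
    have := (inv.iF.sn _ le_rfl).2.2 g
    rwa [fk, show jac _ = _ from
      funext fun z => (K3.p4 (B.fr g) (inv.iF.smf.1.differentiable (by simp)) z).2] at this).2
  have Lk := (LL _ le_rfl).1 (jm'.trans_le jk)
  have Lj := (LL _ jk).1 jm'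
  have sj : ∀ {f : V → V}, LabF B (ks B.N) f → (∀ x ∈ B.bx g (95 / 100),
      B.oh g f x ∈ B.R g (96 / 100)) ∧ ∀ z ∈ B.R g (96 / 100), ∃ x ∈ B.bx g 1, B.oh g f x = z :=
    fun {f} L => by
      have b := hS B rfl f G (inv.iF.fk.1 ▸ (inv.iF.sn 0 (Nat.zero_le _)).2.1) L.1.2.1
        (fun g x hx => (L.2 g x hx).1.trans (mul_le_mul_of_nonneg_right
          ((hN.np_le (by norm_num)).trans (np_nat B.N 3).le) hlb.le)) g
      refine ⟨fun x hx => RX_mono _ hD.le (by norm_num)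
        ((b.2 x _ (by norm_num) (by norm_num)).1 hx).1, fun z hz => ?_⟩
      obtain ⟨x, rfl⟩ := b.1.2 z
      exact ⟨x, box_mono hD.le (by norm_num) g ((b.2 x _ (by norm_num) (by norm_num)).2 hz), rfl⟩
  obtain ⟨fj, hfj⟩ : ∃ fj, fj = s.ft j := ⟨_, rfl⟩
  obtain ⟨fk, hfk⟩ : ∃ fk, fk = s.ft (ks B.N) := ⟨_, rfl⟩
  rw [← hfj] at Lj
  rw [← hfk] at Lk
  have sfj : Sm ((B.fr g).fh fj) := Lj.1.1.comp (zp_sm _)
  have sfk : Sm ((B.fr g).fh fk) := Lk.1.1.comp (zp_sm _)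
  obtain ⟨τ, hτ⟩ : ∃ τ : V → V, τ = fun w => (B.fr g).zc (Function.invFun fj (fk ((B.fr g).zp w))) :=
    ⟨_, rfl⟩
  have sτ : Sm τ := hτ ▸ (zc_sm _).comp ((Inv.sm_inv Lj.1.1 Lj.1.2.1 fun z => (Lj.1.2.2 z).ne').comp
    (Lk.1.1.comp (zp_sm _)))
  have τo : ∀ x, τ (B.oh g fk x) = B.oh g fj x := fun x => by
    simp only [hτ, Bk.oh, Bk.lab, zp_zc hQ, Function.invFun_eq (Lk.1.2.1.2 _)]
  have τb : ∀ w ∈ B.R g (96 / 100), EB (jm τ w) (cm (3 * (70 * B.N) * (2 * B.N))) := fun w hw => by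
    obtain ⟨x, hx, rfl⟩ := (sj Lk).2 w hw
    have e : (B.fr g).fh fk = fun w => (B.fr g).fh fj (τ w) := funext fun w => by
      simp only [hτ, Fr.fh, zp_zc hQ, Function.invFun_eq (Lj.1.2.1.2 _)]
    have e1 := jm_comp (sfj.dif (τ (B.oh g fk x))) (sτ.dif _)
    have a := Lj.2 g x hx
    have b := Lk.2 g x hx
    rw [← e, τo] at e1
    rw [← nonsing_inv_mul_cancel_left (jm ((B.fr g).fh fj) (B.oh g fj x)) (jm τ _)
      (show (0 : ℝ) < jac _ _ by linarith [(abs_le.1 a.2.2.2.2.2.2.1).1]).ne'.isUnit, ← e1]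
    exact eb_mul (jm_bd gk a.2.2.2.2.2.2.1 a.2.1).2 (jm_bd gk b.2.2.2.2.2.2.1 b.2.1).1
  obtain ⟨W, hW⟩ : ∃ W : V → V, W = fun x => s.zt (ks B.N) x - B.Zt x := ⟨_, rfl⟩
  have sz := inv.iz.sm.2.2 _ le_rfl
  have sW : Sm W := hW ▸ sz.sub (hzt B rfl ρ G ok.cred).1
  obtain ⟨J, hJ⟩ : ∃ J : V → Mx, J = fun x => jm ((B.fr g).hat W) ((B.fr g).xc x) := ⟨_, rfl⟩
  obtain ⟨w, hw⟩ : ∃ w : V → V, w = fun x => (B.fr g).hat (s.zt (ks B.N)) ((B.fr g).xc x) :=
    ⟨_, rfl⟩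
  have one : ∀ F : Fr, B.Fq s F → F.x0 ∈ B.bx g (9 / 10) →
      (B.fr g).Q⁻¹ * F.Q = J F.x0 * ((B.fr g).Oᵀ * F.O) ∧ EB (J F.x0) (cm 4) ∧
      EB ((B.fr g).Q⁻¹ * F.Q)⁻¹ (cm 2) ∧ F.Q.det ≠ 0 ∧ w F.x0 ∈ B.R g (96 / 100) ∧
      τ (w F.x0) ∈ B.R g (96 / 100) ∧ (99 / 100 * F.s1 ≤ (B.fr g).s1 ∧ 99 / 100 * (B.fr g).s1 ≤ F.s1) ∧
      (99 / 100 * F.s2 ≤ (B.fr g).s2 ∧ 99 / 100 * (B.fr g).s2 ≤ F.s2) ∧ ∃ σ : ℝ,
        σ ^ 2 ≤ F.s1 ^ 2 / 4 ∧ (J F.x0 * ((B.fr g).Oᵀ * F.O))ᵀ * gram ((B.fr g).fh fj) (τ (w F.x0)) *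
          (J F.x0 * ((B.fr g).Oᵀ * F.O)) = dg3 (F.s1 ^ 2) (F.s2 ^ 2) (σ ^ 2) := by
    intro F q hx
    obtain ⟨-, a1, a2, x, hx', a3, -⟩ := (hT B rfl ρ _ 0 s H le_rfl (Or.inl rfl) g).2 F q hx
    obtain ⟨q1, q2, q3, q4, σ, q5, q6⟩ := q
    have e1 : (B.fr g).Q⁻¹ * F.Q = J F.x0 * ((B.fr g).Oᵀ * F.O) := by
      rw [q4, hJ, ← hW]
      simp only [(K3.p5 _ (sW.differentiable (by simp)) _).1, xp_xc hO, Fr.hm, Matrix.mul_assoc]
      rw [← Matrix.mul_assoc (B.fr g).O, hO.1, Matrix.one_mul]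
    have e2 : w F.x0 = B.oh g fk x := by rw [hw, hfk, Bk.oh, a3]; exact hat_xc hO _ _
    have e3 : 1 / ((B.c g 0).q ^ 2 * pR (B.c g 0).N) ≤ 1 / 100 :=
      one_div_le_one_div_of_le (by norm_num) (by
        change _ ≤ pq B.N ^ 2 * pR B.N
        nlinarith only [hN.q_ge, mul_le_mul_of_nonneg_left hN.R_ge (sq_nonneg (pq B.N))])
    refine ⟨e1, ?_, a2.det.2.2, a1.ne', e2 ▸ (sj Lk).1 x hx', by
      rw [e2, τo]; exact (sj Lj).1 x hx', cls q2 gk.s1_pos a2.ls.1 e3,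
      cls (q2.trans_le q3) gk.s2_pos a2.ls.2 e3, σ, q5, ?_⟩
    · have := eb_mul_orth (orth_t a2.ort) a2.det.2.1
      rw [e1, Matrix.mul_assoc, a2.ort.1, Matrix.mul_one] at this
      exact eb_mono this (by norm_num)
    · rw [← q6, ← e1, ← hj, ← hfj, ← hfk, gram, gram,
        (K3.p4 _ (Lj.1.1.differentiable (by simp)) _).1, hτ, hw]
      simp only [hat_xc hO, zp_zc hQ, transpose_mul, Matrix.mul_assoc]
      rw [← Matrix.mul_assoc (B.fr g).Q, q_inv hQ, Matrix.one_mul, ← Matrix.mul_assoc (B.fr g).Q⁻¹ᵀ,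
        ← transpose_mul, q_inv hQ, transpose_one, Matrix.one_mul]
  obtain ⟨a1, a2, a3, a4, a5, a6, a7, a8, σ, a9, a10⟩ := one F q x1
  obtain ⟨b1, b2, -, b4, b5, b6, b7, b8, σ', b9, b10⟩ := one F' q' x2
  obtain ⟨n1, n2, n3, n4⟩ := num hN
  obtain ⟨e, he⟩ : ∃ e, e = np B.N (-282 / 10) := ⟨_, rfl⟩
  have e0 : 0 < e := he ▸ hN.np_pos _
  rw [← he] at n1 n2 n3
  have m1 := (xc_mem G0).2 x1
  have m2 := (xc_mem G0).2 x2
  have d0 : ‖(B.fr g).xc F.x0 - (B.fr g).xc F'.x0‖ ≤ 6 * (np B.N (-304 / 10) * l) := by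
    have := orth_norm_le_two (orth_t hO) (F.x0 - F'.x0)
    rw [Fr.xc, Fr.xc, ← mulVec_sub, sub_sub_sub_cancel_right]
    linarith
  have dJ : EB (J F.x0 - J F'.x0) (cm e) := fun a b => by
    have t := mvt (RX_convex _ _ _) (((hat_sm (B.fr g) sW).coord a).pd b)
      (b := (B.c g (ks B.N)).d2u) (fun i y hy => by
        simpa [hp, cv, pds, hW] using inv.iz.ek le_rfl g a [i, b] rfl y
          (RX_mono _ hD.le (by norm_num) hy)) m1 m2
    have t1 : (B.c g (ks B.N)).d2u * l ≤ np B.N (2 / 100) := by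
      refine le_of_log (mul_pos gk.d2u_pos l0) (hN.np_pos _) ?_
      rw [Real.log_mul gk.d2u_pos.ne' l0.ne', gk.log_d2u, hN.log_np, hl]
      have := gk.log_η_ge
      change 3 * pL B.N + 23 * (pL B.N / 2000) - pJ B.N - 3 ≤ _ at this
      change -98 / 100 * pJ B.N - _ - _ + _ ≤ _
      linarith [hN.L_ge]
    rw [hJ]
    refine t.trans ?_
    change _ ≤ e
    linarith only [mul_le_mul_of_nonneg_left d0 gk.d2u_pos.le, mul_le_mul_of_nonneg_right t1 k0.le,
      n1]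
  have d1 : ‖w F.x0 - w F'.x0‖ ≤ 36 * (np B.N (-304 / 10) * l) := by
    have t := lip_of_jm (RX_convex _ _ _) (fun y _ => (hat_sm (B.fr g) sz).dif y) (L := 2)
      (fun y hy => by
        have a := ((hZ B rfl ρ _ 0 s ok.toOk0 hk (by norm_num) inv.il inv.iz inv.ip inv.iq).2 g _
          ((xp_mem G0).2 (RX_mono _ hD.le (by norm_num) hy))).2.2.2.1
        have b : (B.c g (ks B.N)).zT ≤ 1 := by
          have b1 : 2 * nu B.N ≤ 1 := by
            have := ZtA.c_le hN (-49 / 100)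
            have := ZtA.np_le_one hN (show (-49 / 100 + 1 / 100 : ℝ) ≤ 0 by norm_num)
            unfold nu; linarith [hN.np_pos (-49 / 100)]
          have b2 : 1 / √(pJ B.N) ≤ 1 := (div_le_one hN.sqrtJ_pos).2
            (Real.one_le_sqrt.2 (by linarith [hN.J_ge, hN.L_ge]))
          unfold Pm.zT; split_ifs; exacts [b1, b2]
        rw [(K3.p5 _ (sz.differentiable (by simp)) _).1, inv.iz.zk.2 rfl]
        have c := eb_add (eb_mono a b) (orth_eb orth_one)
        rw [sub_add_cancel] at c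
        exact eb_mono c (by norm_num)) m1 m2
    rw [hw]
    linarith
  have d2 : ‖τ (w F.x0) - τ (w F'.x0)‖ ≤ 45360 * B.N ^ 2 * np B.N (-304 / 10) * l := by
    refine (lip_of_jm (RX_convex _ _ _) (fun y _ => sτ.dif y) τb a5 b5).trans ?_
    linarith only [mul_le_mul_of_nonneg_left d1 (sq_nonneg (B.N : ℝ))]
  have var : ∀ φ : V → ℝ, Sm φ → (∀ i, ∀ y ∈ B.R g (96 / 100),
      (B.c g j).hs i * |pd i φ y| ≤ 3 * pJ B.N) → |φ (τ (w F.x0)) - φ (τ (w F'.x0))| ≤ e :=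
    fun φ hφ hb => by
      have t0 : l ≤ (B.c g j).lam := hl ▸ div_le_div_of_nonneg_left hlb.le (by positivity)
        (pow_le_pow_right₀ one_le_two jk)
      have t1 : ∀ i, l ≤ (B.c g j).hs i := fun i => by
        fin_cases i
        exacts [t0.trans gj.lam_le_l1, t0, t0.trans (le_mul_of_one_le_left gj.lam_pos.le
          ((np_zero B.N).ge.trans (hN.np_le (by norm_num))))]
      refine (mvt (RX_convex _ _ _) hφ (b := 3 * pJ B.N / l) (fun i y hy => (le_div_iff₀' l0).2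
        ((mul_le_mul_of_nonneg_right (t1 i) (abs_nonneg _)).trans (hb i y hy))) a6 b6).trans
        ((mul_le_mul_of_nonneg_left d2 (by have := hN.J_pos; positivity)).trans (n2.trans_eq' ?_))
      field_simp
  have lb : ∀ z ∈ B.R g (96 / 100), |jac ((B.fr g).fh fj) z - 1| ≤ 1 / 100 ∧
      (B.c g (ks B.N)).GB ((B.fr g).fh fj) z 1 ∧ (B.c g j).DI ((B.fr g).fh fj) z (B.dd g j) :=
    fun z hz => by
      obtain ⟨x, hx, rfl⟩ := (sj Lj).2 z hz
      exact ⟨(Lj.2 g x hx).2.2.2.2.2.2.1, (Lj.2 g x hx).2.1, hfj ▸ (inv.iF.ig.di g x hx).2 j jk⟩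
  obtain ⟨-, dG⟩ := gram_var gk (lb _ a6).1 (lb _ b6).1 (lb _ a6).2.1 (lb _ b6).2.1
    (var _ sfj.jac fun i y hy => ((hfj ▸ (inv.iF.sn j jk).2.2 g).2.1.pd_le (by norm_num) i
      (RX_mono _ hD.le (by norm_num) hy)).trans (by
        change 1 * pq B.N ≤ _
        linarith [hN.q_le_J, hN.J_pos])) fun a b => var _ (gam_sm (B.c g j) sfj (fun z => by
      rw [(K3.p4 _ (Lj.1.1.differentiable (by simp)) z).2]
      exact mul_ne_zero hQ (Lj.1.2.2 _).ne') a b) fun i y hy => ((lb y hy).2.2 a b i).trans (by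
        have t1 : pJ B.N ^ 4 / B.N ≤ pJ B.N := by
          refine le_of_log gj.J4N_pos hN.J_pos (gj.log_J4N.trans_le ?_)
          change 4 * pL B.N - pJ B.N ≤ pL B.N
          linarith [hN.J_ge, hN.L_ge]
        have t2 : pJ B.N ^ 3 / √B.N ≤ pJ B.N := by
          refine le_of_log (div_pos (pow_pos hN.J_pos 3) hN.sqrtN_pos) hN.J_pos ?_
          rw [Real.log_div (pow_pos hN.J_pos 3).ne' hN.sqrtN_pos.ne', Real.log_pow, hN.log_sqrtN,
            hN.log_J]
          push_cast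
          linarith [hN.J_ge, hN.L_ge]
        have t3 : 0 ≤ Xj B.N a b ∧ Xj B.N a b ≤ pJ B.N := by
          have := hN.J_pos
          fin_cases a <;> fin_cases b <;> simp [Xj, bm, t1, t2] <;> positivity
        exact mul_le_mul (hj ▸ dd_le hN B rfl g) t3.2 t3.1 (by norm_num))
  have gb := fun z hz => (gram_var gk (lb z hz).1 (lb z hz).1 (lb z hz).2.1 (lb z hz).2.1 (e := 0)
    (by simp) fun _ _ => by simp [cm]).1
  have o1 := P_orth hO q.1
  have o2 := P_orth hO q'.1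
  have eW : ((B.fr g).Oᵀ * F.O)ᵀ * ((B.fr g).Oᵀ * F'.O) = F.Oᵀ * F'.O := by
    rw [P_t, Matrix.mul_assoc, ← Matrix.mul_assoc (B.fr g).O, hO.1, Matrix.one_mul]
  have t := two o1 o2 a10 b10 a2 b2 (gb _ a6) (gb _ b6) dJ dG
  rw [eW] at t
  have eN := mul_pos e0 hN.N_pos
  obtain ⟨r1, r2, r3, r4⟩ := pert (P_orth q.1 q'.1) q.2.1 q.2.2.1 q'.2.1 q'.2.2.1 a9 b9
    (by linarith only [a7.2, b7.1, q.2.1]) (by linarith only [a7.1, b7.2, q'.2.1])
    (by linarith only [a8.2, b8.1, q.2.1, q.2.2.1])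
    (by linarith only [a8.1, b8.2, q'.2.1, q'.2.2.1])
    (e := 4000 * e * B.N) (by linarith only [n3, n4, eN]) (eb_mono t (by
      have := pow_le_pow_left₀ (by have := gk.s1_pos; positivity) a7.2 2
      change 3000 * e * (B.N * (B.fr g).s1 ^ 2) ≤ _
      linarith only [mul_le_mul_of_nonneg_left this eN.le, mul_nonneg eN.le (sq_nonneg F.s1)]))
  have n5 : 2 * (4000 * e * B.N) ≤ dc B.N' := n3.trans_eq' (by ring)
  refine ⟨?_, fun i hi => ⟨(r1 i hi).1.trans n5, (r1 i hi).2.trans n5⟩,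
    r2.imp_left fun r => ⟨r.1.trans n5, r.2.trans n5⟩, r3.trans n5, r4.trans n5⟩
  have e5 : F.Q⁻¹ * F'.Q - F.Oᵀ * F'.O =
      ((B.fr g).Q⁻¹ * F.Q)⁻¹ * -(J F.x0 - J F'.x0) * ((B.fr g).Oᵀ * F'.O) := by
    have u1 : J F.x0 = (B.fr g).Q⁻¹ * F.Q * ((B.fr g).Oᵀ * F.O)ᵀ := by
      rw [a1, Matrix.mul_assoc, o1.1, Matrix.mul_one]
    rw [neg_sub, Matrix.mul_assoc, Matrix.sub_mul, ← b1, u1, Matrix.mul_assoc _ _ᵀ, eW,
      Matrix.mul_sub, T_inv' hQ a4, ← Matrix.mul_assoc _ _ (F.Oᵀ * F'.O), T_inv a4 hQ,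
      Matrix.one_mul, Matrix.mul_assoc F.Q⁻¹, ← Matrix.mul_assoc (B.fr g).Q, q_inv hQ, Matrix.one_mul]
  rw [e5]
  refine eb_mono (eb_mul_orth o2 (eb_mul a3 (eb_neg dJ))) (le_trans ?_ n5)
  linarith only [e0, mul_le_mul_of_nonneg_left
    (show (1 : ℝ) ≤ B.N by linarith only [hN.N_ge, hN.J_ge, hN.L_ge]) e0.le]

end
end Pool.Agent.MP_20bec2_an.T3

end MrgPart1

-- ======== part 2: formerly Pool.Agent.MP_20bec2_an.T3.Credit
section MrgPart2

/-! The credit field of a block. -/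

set_option autoImplicit false
open MeasureTheory Set Filter Matrix Topology

namespace Pool.Agent.MP_20bec2_an.T3
namespace Credit
noncomputable section

/-- length of the averages -/
def lc (c : Pm) : ℝ := np c.N (52 / 100) * c.ls
/-- scale of the derivatives -/
def hN (c : Pm) : ℝ := np c.N (49 / 100) * c.lam
/-- size of the cost -/
def wB (c : Pm) : ℝ := Real.sqrt c.q * (c.q ^ 22 * Jp c.N (15 / 16) / c.N)
def Lw (c : Pm) : V := ![4 * lc c, 4 * lc c, 2 * c.h']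

variable {c : Pm}

lemma lc_pos (h : Gd c) : 0 < lc c := mul_pos (h.big.np_pos _) h.ls_pos
lemma hN_pos (h : Gd c) : 0 < hN c := mul_pos (h.big.np_pos _) h.lam_pos
lemma wB_pos (h : Gd c) : 0 < wB c := mul_pos h.big.sqrtq_pos h.omB_pos

lemma np_four (h : Gd c) : 4 * np c.N (505 / 1000) ≤ np c.N (52 / 100) := by
  have p := h.big.np_pos
  refine le_of_log (mul_pos four_pos (p _)) (p _) ?_
  rw [Real.log_mul four_ne_zero (p _).ne', log4_eq, h.big.log_np, h.big.log_np]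
  linarith [log2_bd.2, h.big.J_ge, h.big.L_ge]

lemma win_bd (h : Gd c) (hA : c.isA) {W : ℝ}
    (hW : W ∈ [c.W10, c.W20, c.H0, c.Hp, c.W11, c.W21, c.H1]) : hN c ≤ W ∧ 4 * W ≤ lc c := by
  obtain ⟨h1, -, h2⟩ := h.win' W hW
  have hS : etaS c.N / 40 ≤ c.η := by
    have := h.big.etaA_pos
    have h3 : etaA c.N ≤ c.η := hA
    unfold etaS; linarith
  have h3 := h.big.np_le (show (49 / 100 : ℝ) ≤ 497 / 1000 by norm_num)
  refine ⟨(mul_le_mul_of_nonneg_right h3 h.lam_pos.le).trans h1, ?_⟩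
  have h4 := mul_le_mul (np_four h) h.lam_le_ls h.lam_pos.le (h.big.np_pos _).le
  unfold lc
  linarith [h2 hS]

lemma hN_le_h' (h : Gd c) : hN c ≤ c.h' :=
  mul_le_mul_of_nonneg_left h.lam_le_ls (h.big.np_pos _).le

lemma ls_le_lb (h : Gd c) : c.ls ≤ c.lb := div_le_self h.lb_pos.le (one_le_pow₀ one_le_two)

lemma lc_le (h : Gd c) : 2 * lc c ≤ 1 / 100 * c.D := by
  have p := h.big.np_pos
  have h1 : 200 * np c.N (52 / 100) ≤ (c.N : ℝ) ^ 4 := by
    refine le_of_log (mul_pos (by norm_num) (p _)) (pow_pos h.N_pos _) ?_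
    rw [Real.log_mul (by norm_num) (p _).ne', h.big.log_np, Real.log_pow, h.big.log_N]
    push_cast
    linarith [(logc_bd (show (1 : ℝ) ≤ 200 by norm_num)).2, h.big.J_ge, h.big.L_ge]
  have h2 := mul_le_mul h1 (ls_le_lb h) h.ls_pos.le (pow_pos h.N_pos _).le
  unfold lc Pm.D
  linarith

lemma hN_le_D (h : Gd c) : hN c ≤ c.D := by
  have h1 : hN c ≤ lc c := (hN_le_h' h).trans
    (mul_le_mul_of_nonneg_right (h.big.np_le (by norm_num)) h.ls_pos.le)
  linarith [lc_le h, lc_pos h, h.D_pos]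

lemma wB_le (h : Gd c) {K : ℝ} (h1 : 1 ≤ K) (hK : 100 * K ≤ pL c.N) : K * wB c ≤ cg0 c.N := by
  have p := wB_pos h
  refine le_of_log (by positivity) h.big.cg0_pos ?_
  have q : 0 < Real.sqrt c.q := h.big.sqrtq_pos
  have lq : Real.log (Real.sqrt c.q) = pL c.N / 2000 := h.big.log_sqrtq
  rw [Real.log_mul (by positivity) p.ne', wB, Real.log_mul q.ne' h.omB_pos.ne',
    h.log_omB, h.big.log_cg0]
  linarith [(logc_bd h1).2, h.big.L_ge]

lemma cg0_le (h : Gd c) (hA : c.isA) : cg0 c.N * lc c / c.η ≤ np c.N (-47 / 100) * c.lam := by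
  have p1 := h.big.cg0_pos
  have p2 := lc_pos h
  have p3 := h.η_pos
  have p4 := h.lam_pos
  have p5 := h.ls_pos
  have p := h.big.np_pos
  have h1 := Real.log_le_log p5 h.ls_le
  refine le_of_log (by positivity) (mul_pos (p _) p4) ?_
  rw [Real.log_mul (p _).ne' p4.ne', h.big.log_np] at h1 ⊢
  rw [Real.log_div (by positivity) p3.ne', Real.log_mul p1.ne' p2.ne', lc,
    Real.log_mul (p _).ne' p5.ne', h.big.log_np, h.big.log_cg0]
  linarith [h.log_isA.1 hA, h.big.J_ge, h.big.L_ge]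

/-- the cost of one band -/
lemma cost_bd {Ce : ℝ} (hC : 1 ≤ Ce) : ∃ K : ℝ, 1 ≤ K ∧ ∀ (c : Pm) (O : Mx) (ρ : V → ℝ), Gd c →
    c.isA → Orth O → Measurable (enr c.ro c.lam ρ) →
    (∀ x, 0 ≤ enr c.ro c.lam ρ x ∧ enr c.ro c.lam ρ x ≤ Ce) →
    Sm (c.cost O ρ) ∧ (∀ x, 0 ≤ c.cost O ρ x) ∧ CB 2 (cv (hN c)) univ (c.cost O ρ) (K * wB c) ∧
    (∀ x, x ∉ RX O c.D (9 / 10) → c.cost O ρ x = 0) ∧
    ∀ x, av 0 (lc c) (av 1 (lc c) (c.cost O ρ)) x ≤
      128 * wB c * mol (Lw c) (enr c.ro c.lam ρ) x := by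
  obtain ⟨Ca, hCa, Ha⟩ := Prof.cb_cut 2
  obtain ⟨Cm, hCm, Hm⟩ := Mol.cb_mol 2
  refine ⟨8 * Ca * (Cm * Ce), by nlinarith [mul_le_mul hCm hC zero_le_one (by linarith)],
    fun c O ρ h hA hO hm he => ?_⟩
  have e : c.cost O ρ = fun x => Real.sqrt c.q * (alh O c.D x ^ 2 *
      (c.om0 * c.En0 ρ x + c.om1 * c.En1 ρ x)) := by
    funext x; rw [Pm.cost, if_pos hA, mul_assoc]
  have hb : ∀ y, |enr c.ro c.lam ρ y| ≤ Ce := fun y => by
    rw [abs_of_nonneg (he y).1]; exact (he y).2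
  have hli : Mol.LI (enr c.ro c.lam ρ) := Mol.li_meas hm hb
  have hN0 : ∀ i, 0 ≤ cv (hN c) i := fun _ => (hN_pos h).le
  have pN := hN_pos h
  have p' := hN_le_h' h
  have pl := lc_pos h
  have En : ∀ W W' : ℝ, W ∈ [c.W10, c.W20, c.H0, c.Hp, c.W11, c.W21, c.H1] →
      W' ∈ [c.W10, c.W20, c.H0, c.Hp, c.W11, c.W21, c.H1] →
      Sm (mol ![2 * W, 4 * W', 2 * c.h'] (enr c.ro c.lam ρ)) ∧
      (∀ x, 0 ≤ mol ![2 * W, 4 * W', 2 * c.h'] (enr c.ro c.lam ρ) x) ∧
      CB 2 (cv (hN c)) univ (mol ![2 * W, 4 * W', 2 * c.h'] (enr c.ro c.lam ρ)) (Cm * Ce) ∧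
      ∀ x, av 0 (lc c) (av 1 (lc c) (mol ![2 * W, 4 * W', 2 * c.h'] (enr c.ro c.lam ρ))) x ≤
        64 * mol (Lw c) (enr c.ro c.lam ρ) x := by
    intro W W' hW hW'
    obtain ⟨a1, a2⟩ := win_bd h hA hW
    obtain ⟨a3, a4⟩ := win_bd h hA hW'
    have hle : ∀ i, cv (hN c) i ≤ (![2 * W, 4 * W', 2 * c.h'] : V) i := fun i => by
      fin_cases i <;> simp [cv] <;> linarith
    have hp : ∀ i, 0 < (![2 * W, 4 * W', 2 * c.h'] : V) i := fun i => pN.trans_le (hle i)
    exact ⟨Mol.mol_sm hp hli, fun x => Mol.mol_nonneg hp fun y _ => (he y).1,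
      CBl.monoh (Hm _ _ _ hp hli hb) hN0 hle, fun x => av2_mol hp (by simp; linarith)
        (by simp; linarith) hm (fun y => (he y).1) hb x⟩
  obtain ⟨s0, n0, c0, v0⟩ := En c.W10 c.W20 (by simp) (by simp)
  obtain ⟨s1, n1, c1, v1⟩ := En c.W11 c.W21 (by simp) (by simp)
  change Sm (c.En0 ρ) at s0
  change Sm (c.En1 ρ) at s1
  change ∀ x, 0 ≤ c.En0 ρ x at n0
  change ∀ x, 0 ≤ c.En1 ρ x at n1
  change CB 2 _ _ (c.En0 ρ) _ at c0
  change CB 2 _ _ (c.En1 ρ) _ at c1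
  change ∀ x, av 0 _ (av 1 _ (c.En0 ρ)) x ≤ _ at v0
  change ∀ x, av 0 _ (av 1 _ (c.En1 ρ)) x ≤ _ at v1
  have o0 := h.om0_pos.le
  have o1 := h.om1_nonneg
  have b0 := h.om0_le hA
  have b1 := h.om1_le hA
  have sq : 0 ≤ Real.sqrt c.q := Real.sqrt_nonneg _
  have sa : Sm fun x => alh O c.D x ^ 2 := ContDiff.pow (Prof.alh_sm O c.D) 2
  have sb : Sm fun x => c.om0 * c.En0 ρ x + c.om1 * c.En1 ρ x :=
    ContDiff.add (s0.cmul _) (s1.cmul _)
  have sc : Sm (c.cost O ρ) := by rw [e]; exact Sm.cmul (ContDiff.mul sa sb) _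
  refine ⟨sc, fun x => ?_, ?_, fun x hx => ?_, fun x => ?_⟩
  · rw [e]
    exact mul_nonneg sq (mul_nonneg (sq_nonneg _)
      (add_nonneg (mul_nonneg o0 (n0 x)) (mul_nonneg o1 (n1 x))))
  · have ca := ((Ha O c.D hO h.D_pos).2 (cv (hN c)) 1 le_rfl fun i => by
      rw [one_mul, abs_of_nonneg (hN0 i)]; exact hN_le_D h).1.2.1
    have cb := CBl.add hN0 (s0.cmul _) (s1.cmul _)
      (CBl.smul_le hN0 c0 ((abs_of_nonneg o0).trans_le b0))
      (CBl.smul_le hN0 c1 ((abs_of_nonneg o1).trans_le b1))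
    rw [e]
    exact CBl.monoB (CBl.smul_nonneg (CB.mul hN0 sa sb ca cb) sq) (le_of_eq (by unfold wB; ring))
  · rw [e]; simp [Prof.alh_zero h.D_pos hx]
  · have h1 : ∀ y, c.cost O ρ y ≤ wB c * c.En0 ρ y + wB c * c.En1 ρ y := fun y => by
      have a1 := mul_le_mul_of_nonneg_right b0 (n0 y)
      have a2 := mul_le_mul_of_nonneg_right b1 (n1 y)
      have a3 := mul_le_of_le_one_left (add_nonneg (mul_nonneg o0 (n0 y)) (mul_nonneg o1 (n1 y)))
        (Prof.alh_sq_le O c.D y)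
      have a4 := mul_le_mul_of_nonneg_left (a3.trans (add_le_add a1 a2)) sq
      rw [e]
      refine a4.trans (le_of_eq ?_)
      unfold wB; ring
    have t0 := (av_sm s0 1 (lc c)).continuous
    have t1 := (av_sm s1 1 (lc c)).continuous
    have u0 := s0.continuous
    have u1 := s1.continuous
    have h2 := av_mono (i := 0) pl (av_sm sc 1 (lc c)).continuous
      (g' := fun y => wB c * av 1 (lc c) (c.En0 ρ) y + wB c * av 1 (lc c) (c.En1 ρ) y)
      (by fun_prop) (fun y => by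
        rw [← av_lin u0 u1]
        exact av_mono pl sc.continuous (by fun_prop) h1 y) x
    rw [av_lin t0 t1] at h2
    have h3 := mul_le_mul_of_nonneg_left (v0 x) (wB_pos h).le
    have h4 := mul_le_mul_of_nonneg_left (v1 x) (wB_pos h).le
    linarith

/-- the credit field of one band -/
def fld (c : Pm) (g : V → ℝ) (x : V) : V :=
  ![qv 0 (lc c) (av 1 (lc c) g) x / c.η, qv 1 (lc c) g x / (2 - c.η), 0]

lemma fld_bd (h : Gd c) (hA : c.isA) {O : Mx} (hO : Orth O) {g : V → ℝ} (hg : Sm g)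
    (H : CB 2 (cv (hN c)) univ g (cg0 c.N)) (h0 : ∀ x, x ∉ RX O c.D (9 / 10) → g x = 0) :
    (∀ i, Sm fun x => fld c g x i) ∧ (∀ x, x ∉ RX O c.D (92 / 100) → fld c g x = 0) ∧
    (∀ i, CB 2 (cv (hN c)) univ (fun x => fld c g x i) (np c.N (-47 / 100) * c.lam)) ∧
    ∀ x, c.η * pd 0 (fun y => fld c g y 0) x + (2 - c.η) * pd 1 (fun y => fld c g y 1) x =
      -g x + av 0 (lc c) (av 1 (lc c) g) x := by
  have pl := lc_pos h
  have pη := h.η_pos
  have p2 := h.two_sub_pos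
  have hN0 : ∀ i, 0 ≤ cv (hN c) i := fun _ => (hN_pos h).le
  have sa := av_sm hg 1 (lc c)
  have e0 : (fun x => fld c g x 0) = fun x => c.η⁻¹ * qv 0 (lc c) (av 1 (lc c) g) x := by
    funext x; simp [fld, div_eq_inv_mul]
  have e1 : (fun x => fld c g x 1) = fun x => (2 - c.η)⁻¹ * qv 1 (lc c) g x := by
    funext x; simp [fld, div_eq_inv_mul]
  have e2 : (fun x => fld c g x 2) = fun _ => 0 := by funext x; simp [fld]
  refine ⟨fun i => ?_, fun x hx => ?_, fun i => ?_, fun x => ?_⟩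
  · fin_cases i
    · exact e0 ▸ (qv_sm sa 0 _).cmul _
    · exact e1 ▸ (qv_sm hg 1 _).cmul _
    · exact e2 ▸ sm_const 0
  · have a1 : qv 0 (lc c) (av 1 (lc c) g) x = 0 :=
      wi_supp (r := 9 / 10 + 1 / 100) hO pl.le (lc_le h)
        (fun y hy => wi_supp hO pl.le (lc_le h) h0 y hy) x fun hm =>
        hx (Prof.RX_mono O h.D_pos.le (by norm_num) hm)
    have a2 : qv 1 (lc c) g x = 0 := wi_supp hO pl.le (lc_le h) h0 x fun hm =>
      hx (Prof.RX_mono O h.D_pos.le (by norm_num) hm)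
    simp [fld, a1, a2]
  · have hb := cg0_le h hA
    have pc := mul_pos h.big.cg0_pos pl
    fin_cases i
    · refine e0 ▸ CBl.monoB (CBl.smul_nonneg (qv_cb sa hN0 pl (av_cb hg hN0 pl H))
        (inv_pos.2 pη).le) ?_
      rwa [← div_eq_inv_mul]
    · refine e1 ▸ CBl.monoB (CBl.smul_nonneg (qv_cb hg hN0 pl H) (inv_pos.2 p2).le)
        (le_trans ?_ hb)
      rw [← div_eq_inv_mul]
      exact div_le_div_of_nonneg_left pc.le pη (by linarith [h.η_le_one])
    · exact e2 ▸ cbl_zero (le_trans (by positivity) hb)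
  · rw [e0, e1, pd_const_mul, pd_const_mul, pd_qv pl sa, pd_qv pl hg,
      mul_inv_cancel_left₀ pη.ne', mul_inv_cancel_left₀ p2.ne']
    ring

lemma sum_blocks (f : ℕ → ℝ) (m n : ℕ) {C : ℝ}
    (H : ∀ b < n, ∑ j ∈ Finset.range m, f (b * m + j) ≤ C) :
    ∑ k ∈ Finset.range (n * m), f k ≤ n * C := by
  induction n with
  | zero => simp
  | succ n ih =>
    rw [Nat.succ_mul, Finset.sum_range_add]
    have h1 := ih fun b hb => H b (Nat.lt_succ_of_lt hb)
    have h2 := H n (Nat.lt_succ_self n)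
    push_cast
    linarith

lemma co_of_cb {a B : ℝ} {g : V → ℝ} (ha : 0 < a) (H : CB 2 (cv a) univ g B) {j : ℕ} (hj : j ≤ 2) :
    CO j (cv 1) univ g (B / a ^ j) := fun l hl x hx => by
  have e : l.length = j := hl
  have := CBl.le_div (fun _ => ha) H (l := l) (e.trans_le hj) hx
  rwa [hp_cv, one_pow, one_mul, ← e, ← hp_cv]

lemma nb_np {N : ℕ} (h : Big N) {a b : ℝ} (hab : a + 1 / 100 ≤ b) :
    (nb N : ℝ) * np N a ≤ np N b := by
  have p := h.J_pos
  have h1 : 134 * pJ N ≤ np N (1 / 100) := by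
    refine le_of_log (by positivity) (h.np_pos _) ?_
    rw [Real.log_mul (by norm_num) p.ne', h.log_np, h.log_J]
    linarith [(logc_bd (show (1 : ℝ) ≤ 134 by norm_num)).2, h.J_ge, h.L_ge]
  have h2 := mul_le_mul_of_nonneg_right (h.nb_bd.2.trans h1) (h.np_pos a).le
  rw [← h.np_add] at h2
  exact h2.trans (h.np_le (by linarith))

lemma nb_cg0 {N : ℕ} (h : Big N) : (nb N : ℝ) * cg0 N ≤ Jp N (5 / 2) / N := by
  have p := h.J_pos
  have p1 := h.cg0_pos
  have p2 := h.Jp_pos (5 / 2)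
  have p3 := h.N_pos
  refine (mul_le_mul_of_nonneg_right h.nb_bd.2 p1.le).trans
    (le_of_log (by positivity) (by positivity) ?_)
  rw [Real.log_mul (by positivity) p1.ne', Real.log_mul (by norm_num) p.ne', h.log_cg0, h.log_J,
    Real.log_div p2.ne' p3.ne', h.log_Jp, h.log_N]
  linarith [(logc_bd (show (1 : ℝ) ≤ 134 by norm_num)).2, h.J_ge, h.L_ge]

lemma sizes (h : Gd c) :
    np c.N (-47 / 100) * c.lam / hN c ^ 0 ≤ np c.N (-47 / 100) * c.lb ∧
    np c.N (-47 / 100) * c.lam / hN c ^ 1 ≤ np c.N (-96 / 100) ∧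
    np c.N (-47 / 100) * c.lam / hN c ^ 2 ≤ np c.N (-145 / 100) / (c.lb / 2 ^ nb c.N) := by
  have p := h.big.np_pos
  have p1 := h.lam_pos
  have p2 := p (49 / 100)
  have e1 : np c.N (-47 / 100) = np c.N (-96 / 100) * np c.N (49 / 100) := by
    rw [← h.big.np_add]; norm_num
  have e2 : np c.N (-47 / 100) = np c.N (-145 / 100) * np c.N (49 / 100) * np c.N (49 / 100) := by
    rw [← h.big.np_add, ← h.big.np_add]; norm_num
  refine ⟨?_, le_of_eq ?_, ?_⟩
  · rw [pow_zero, div_one]; exact mul_le_mul_of_nonneg_left h.lam_le_lb (p _).le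
  · rw [e1, hN]; field_simp
  · have h1 : c.lb / 2 ^ nb c.N ≤ c.lam := div_le_div_of_nonneg_left h.lb_pos.le (by positivity)
      (pow_le_pow_right₀ one_le_two h.k_le)
    refine le_trans (le_of_eq ?_) (div_le_div_of_nonneg_left (p _).le
      (div_pos h.lb_pos (by positivity)) h1)
    rw [e2, hN]; field_simp

lemma lw_ge (h : Gd c) : c.ro * c.ls ≤ Lw c 0 ∧ c.ls ≤ Lw c 1 ∧ c.ls ≤ Lw c 2 := by
  have p := h.ls_pos
  have h1 : c.ro ≤ np c.N (52 / 100) := by
    refine le_of_log h.ro_pos (h.big.np_pos _) ?_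
    rw [h.big.log_np]
    linarith [h.log_ro_bd.2, h.big.J_ge, h.big.L_ge]
  have h2 : 1 ≤ np c.N (49 / 100) := by
    rw [← np_zero c.N]; exact h.big.np_le (by norm_num)
  have h3 := mul_le_mul_of_nonneg_right h1 p.le
  have h4 := mul_le_mul_of_nonneg_right h2 p.le
  have h5 := mul_le_mul_of_nonneg_right h.one_le_ro p.le
  simp only [Lw, lc, Pm.h', cons_val_zero, cons_val_one, cons_val]
  refine ⟨?_, ?_, ?_⟩ <;> linarith

end
end Credit

open Credit in
theorem credit' (hE : EnerStmt) : CreditStmt := by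
  obtain ⟨Ce, hC, HE⟩ := hE
  obtain ⟨K, hK, HK⟩ := cost_bd hC
  filter_upwards [ev_big, ev_pL (100 * K), ev_pL (100 * (40000 * (128 * Ce)))] with N hN hK1 hK2
    ρ lb F hρ hO hok
  have hlb : 0 < lb := hok.2.2.2.2.2.1
  have pn := hN.np_pos
  have pc : 0 < pX N / (pq N ^ 3 * N) := hN.cg0_pos
  have pJ : 0 < Jp N (5 / 2) / N := div_pos (hN.Jp_pos _) hN.N_pos
  by_cases hA : (F.pm N lb 0).isA
  swap
  · have e : ∀ k x, (F.pm N lb k).cost F.O (F.sc ρ) x = 0 := fun k x => if_neg hA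
    have j0 : ∀ x, jm (0 : V → V) x = 0 := jm_const 0
    refine ⟨0, sm_const 0, fun _ _ => rfl, fun _ => rfl,
      fun i => cbl_zero (div_pos (pn _) (by positivity)).le, fun x => ⟨rfl, ?_, fun i j => ?_, ?_, ?_⟩⟩
    · simpa using (mul_pos (pn _) hlb).le
    · simpa [j0, cm] using (pn _).le
    · simpa [j0, e] using pc.le
    · simpa [j0] using pJ.le
  have gd : ∀ k, k ≤ nb N → Gd (F.pm N lb k) := fun k hk =>
    ⟨hN, hok.1, hok.2.1, hok.2.2.1, hok.2.2.2.1, hok.2.2.2.2.1, hlb, hk⟩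
  have hρ' : Rho (F.sc ρ) := ⟨hρ.1.comp (Prof.xp_sm F).continuous.measurable, fun x => hρ.2 _⟩
  have H1 := fun k (hk : k ∈ Finset.range (nb N)) =>
    have g := gd k (Finset.mem_range.1 hk).le
    HK (F.pm N lb k) F.O (F.sc ρ) g hA hO (HE _ _ _ g.ro_pos g.lam_pos hρ').1
      (HE _ _ _ g.ro_pos g.lam_pos hρ').2.1
  have Hc : ∀ k ∈ Finset.range (nb N), CB 2 (cv (Credit.hN (F.pm N lb k))) univ
      ((F.pm N lb k).cost F.O (F.sc ρ)) (cg0 N) := fun k hk =>
    CBl.monoB (H1 k hk).2.2.1 (wB_le (gd k (Finset.mem_range.1 hk).le) hK hK1)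
  have H2 := fun k (hk : k ∈ Finset.range (nb N)) =>
    fld_bd (gd k (Finset.mem_range.1 hk).le) hA hO (H1 k hk).1 (Hc k hk) (H1 k hk).2.2.2.1
  obtain ⟨G, hG⟩ : ∃ G : ℕ → V → V, G = fun k =>
    fld (F.pm N lb k) ((F.pm N lb k).cost F.O (F.sc ρ)) := ⟨_, rfl⟩
  have eG : ∀ k, fld (F.pm N lb k) ((F.pm N lb k).cost F.O (F.sc ρ)) = G k := fun k => by rw [hG]
  have G2 : ∀ k x, G k x 2 = 0 := fun k x => by rw [hG]; rfl
  simp only [eG] at H2
  have Hs : ∀ (i : Fin 3) (j : ℕ) (B : ℝ), j ≤ 2 → (∀ c : Pm, Gd c → c.N = N → c.lb = lb →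
      np N (-47 / 100) * c.lam / Credit.hN c ^ j ≤ B) →
      CO j (cv 1) univ (fun x => ∑ k ∈ Finset.range (nb N), G k x i) (nb N * B) := by
    intro i j B hj hB
    have := CBl.sum_card (P := fun l => l.length = j) (h := cv 1) (U := univ) (B := B)
      (Finset.range (nb N)) (F := fun k x => G k x i) (fun _ => zero_le_one)
      (fun k hk => (H2 k hk).1 i) fun k hk =>
        have g := gd k (Finset.mem_range.1 hk).le
        CBl.monoB (co_of_cb (hN_pos g) ((H2 k hk).2.2.1 i) hj) (hB _ g rfl rfl)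
    rwa [Finset.card_range] at this
  have dv : ∀ x, (F.pm N lb 0).η * pd 0 (fun y => ∑ k ∈ Finset.range (nb N), G k y 0) x +
      (2 - (F.pm N lb 0).η) * pd 1 (fun y => ∑ k ∈ Finset.range (nb N), G k y 1) x =
      -∑ k ∈ Finset.range (nb N), (F.pm N lb k).cost F.O (F.sc ρ) x +
        ∑ k ∈ Finset.range (nb N), av 0 (lc (F.pm N lb k)) (av 1 (lc (F.pm N lb k))
          ((F.pm N lb k).cost F.O (F.sc ρ))) x := fun x => by
    rw [pd_sum _ fun k hk => (H2 k hk).1 0, pd_sum _ fun k hk => (H2 k hk).1 1, Finset.mul_sum,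
      Finset.mul_sum, ← Finset.sum_add_distrib, ← Finset.sum_neg_distrib, ← Finset.sum_add_distrib]
    exact Finset.sum_congr rfl fun k hk => (H2 k hk).2.2.2 x
  refine ⟨fun x i => ∑ k ∈ Finset.range (nb N), G k x i,
    sm_pi fun i => ContDiff.sum fun k hk => (H2 k hk).1 i, fun x hx => ?_, fun h => absurd hA h,
    fun i => ?_, fun x => ⟨by simp [G2], ?_, fun i j => ?_, ?_, ?_⟩⟩
  · funext i
    exact Finset.sum_eq_zero fun k hk => by rw [(H2 k hk).2.1 x hx]; rfl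
  · refine CBl.monoB (Hs i 2 (np N (-145 / 100) / (lb / 2 ^ nb N)) le_rfl fun c g e1 e2 => by
      subst e1 e2; exact (sizes g).2.2) ?_
    rw [← mul_div_assoc]
    exact div_le_div_of_nonneg_right (nb_np hN (by norm_num)) (by positivity)
  · refine Prof.norm_le_of fun i => ?_
    have h1 := Hs i 0 (np N (-47 / 100) * lb) (by norm_num) (fun c g e1 e2 => by
      subst e1 e2; exact (sizes g).1) [] rfl x (mem_univ _)
    have h2 := mul_le_mul_of_nonneg_right (nb_np hN (show -47 / 100 + 1 / 100 ≤ -9 / 20 by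
      norm_num)) hlb.le
    simp only [hp_cv, one_pow, one_mul, pds] at h1
    linarith
  · have h1 := Hs i 1 (np N (-96 / 100)) (by norm_num) (fun c g e1 e2 => by
      subst e1 e2; exact (sizes g).2.1) [j] rfl x (mem_univ _)
    simp only [hp_cv, one_pow, one_mul, pds] at h1
    exact h1.trans (nb_np hN (by norm_num))
  · refine (dv x).trans_le (add_le_add_right ?_ _)
    have g0 := gd 0 (Nat.zero_le _)
    have pw := wB_pos g0
    refine (Finset.sum_le_sum fun k hk => (H1 k hk).2.2.2.2 x).trans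
      ((sum_blocks _ (nm N) 40000 (C := 128 * wB (F.pm N lb 0) * Ce) fun b hb => ?_).trans ?_)
    · have hm := hN.nm_pos
      have g := gd (b * nm N) (Nat.mul_le_mul_right _ hb.le)
      obtain ⟨a0, a1, a2⟩ := lw_ge g
      have h1 := (HE _ _ _ g.ro_pos g.ls_pos hρ').2.2.1 _ (nm N) x a0 a1 a2
      refine le_trans (le_of_eq ?_) (mul_le_mul_of_nonneg_left h1 (by positivity))
      rw [Finset.mul_sum]
      refine Finset.sum_congr rfl fun j hj => ?_
      have e1 : (b * nm N + j) / nm N = b := by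
        rw [add_comm, Nat.add_mul_div_right _ _ hm, Nat.div_eq_of_lt (Finset.mem_range.1 hj),
          zero_add]
      have e2 : b * nm N / nm N = b := Nat.mul_div_cancel _ hm
      have e3 : (F.pm N lb (b * nm N + j)).ls = (F.pm N lb (b * nm N)).ls := by
        simp only [Pm.ls, Fr.pm, e1, e2]
      have e4 : (F.pm N lb (b * nm N + j)).lam = (F.pm N lb (b * nm N)).ls / 2 ^ j := by
        simp only [Pm.ls, Pm.lam, Fr.pm, e2, div_div, pow_add, mul_comm (nm N) b]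
      have e5 : Lw (F.pm N lb (b * nm N + j)) = Lw (F.pm N lb (b * nm N)) := by
        simp only [Lw, lc, Pm.h', e3]; rfl
      rw [e4, e5]; rfl
    · have h1 := wB_le g0 (K := 40000 * (128 * Ce)) (by linarith) hK2
      push_cast
      exact le_trans (le_of_eq (by ring)) h1
  · refine le_trans ?_ (dv x).ge
    have h1 : 0 ≤ ∑ k ∈ Finset.range (nb N), av 0 (lc (F.pm N lb k)) (av 1 (lc (F.pm N lb k))
        ((F.pm N lb k).cost F.O (F.sc ρ))) x := Finset.sum_nonneg fun k hk =>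
      have p := lc_pos (gd k (Finset.mem_range.1 hk).le)
      av_nonneg p (av_nonneg p (H1 k hk).2.1) x
    have h2 := Finset.sum_le_card_nsmul _ _ (cg0 N) fun k hk =>
      (le_abs_self _).trans ((Hc k hk).val (mem_univ x))
    rw [Finset.card_range, nsmul_eq_mul] at h2
    linarith [nb_cg0 hN]

theorem credit : CreditStmt := credit' (ener k1 (k4 k1) (kc k1 (k4 k1)))

end Pool.Agent.MP_20bec2_an.T3

end MrgPart2

-- ======== part 3: formerly Pool.Agent.MP_20bec2_an.T3.Prep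
section MrgPart3

/-! The frames and the credit of the next block. -/

set_option autoImplicit false
open MeasureTheory Set Filter Matrix Topology

namespace Pool.Agent.MP_20bec2_an.T3
noncomputable section
open Classical Prof GeoP Glue CptA

namespace PrepA

theorem tendsto_nxt : Tendsto nxt atTop atTop :=
  tendsto_atTop_mono (fun N => Nat.le_add_right N _) tendsto_id

variable {N : ℕ} (h : Big N)
include h

theorem exp_le : np N 93 * Real.exp ((N : ℝ) ^ 2) ≤ Real.exp ((nxt N : ℝ) ^ 2) := by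
  rw [h.np_eq, ← Real.exp_add]
  refine Real.exp_le_exp.2 ?_
  have h1 := pow_le_pow_left₀ (by linarith [h.N_pos]) (show (N : ℝ) + 1 ≤ nxt N by
    linarith [h.nxt_bd.1, h.X_bd.1]) 2
  nlinarith [h.N_ge, h.J_pos]

theorem np_nxt {a : ℝ} (ha : a ≤ 0) : np (nxt N) a ≤ np N a :=
  Real.rpow_le_rpow_of_nonpos h.N_pos (by exact_mod_cast h.nxt_le.1) ha

end PrepA

open PrepA

theorem prep (hT : TfbStmt) (hC : CptStmt) : PrepStmt := by
  filter_upwards [ev_big, hT, hC, tendsto_nxt.eventually credit] with N hN hT hC hc B hB ρ s H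
  subst hB
  have G0 := H.2.1.geo.toFrOk
  have hN' : Big B.N' := hN.mono hN.nxt_le.1
  have hlb := lb_pos G0
  have hlb' : 0 < B.lb' := div_pos hlb (by positivity)
  have hD : 0 < B.D := mul_pos (pow_pos hN.N_pos 4) hlb
  have hD' : 0 < Dd B.N' B.lb' := mul_pos (pow_pos hN'.N_pos 4) hlb'
  have T := hT B rfl ρ _ 0 s H le_rfl (Or.inl rfl)
  choose o ho using fun g => exists_box hD (cen (Dd B.N' B.lb') g)
  have ho' := fun g => box_mono hD.le (show (1 / 2 : ℝ) ≤ 9 / 10 by norm_num) _ (ho g)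
  choose nf h1 h2 using fun g => (T (o g)).1 _ (ho' g)
  have h3 := fun g => (T (o g)).2 _ (h2 g) (h1 g ▸ ho' g)
  choose γ hγ using fun g => hc ρ B.lb' (nf g) H.1 (h2 g).1 (h3 g).1
  have e6 : ∀ {A : Mx}, EB A (cm (6 * Real.exp ((B.N : ℝ) ^ 2))) →
      EB A (cm (Real.exp ((B.N' : ℝ) ^ 2))) := fun hA => eb_mono hA ((mul_le_mul_of_nonneg_right
    (((show (6 : ℝ) ≤ B.N by linarith [hN.N_ge, hN.J_ge, hN.L_ge]).trans (np_one _).ge).trans
      (hN.np_le (by norm_num))) (Real.exp_pos _).le).trans (exp_le hN))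
  have hS : Sup (cv (Dd B.N' B.lb')) (92 / 100) fun g x => (nf g).unv (γ g) x :=
    (sup_xc hD' (fun g => ⟨h1 g, (h2 g).1⟩) fun g => (hγ g).2.1).map fun g x h0 => by
      unfold Fr.unv; rw [h0, mulVec_zero]
  have hr : (92 / 100 : ℝ) < 1 := by norm_num
  have small : B.lb' ≤ np B.N (-345 / 10) * (B.lb / 2 ^ ks B.N) := lb_le hN hlb
  refine ⟨nf, γ, fun f' Af ab Pv => ⟨?_, ?_, ?_, ?_, fun g x hx => ?_⟩⟩
  all_goals simp only [Bk.sta, if_true]
  · refine ⟨⟨?_, ?_⟩, fun g => ⟨h1 g, (h2 g).1, (h3 g).2.1, e6 ?_, e6 ?_, (h3 g).1⟩,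
      fun g g' n => hC B rfl ρ s H _ _ (h2 g) (h2 g') (by
        rw [h1, h1]; exact_mod_cast cen_sub_le hD'.le n)⟩
    · refine (le_div_iff₀ (by positivity)).2 (le_trans ?_ G0.pos.1)
      rw [Real.exp_neg, Real.exp_neg, inv_mul_le_iff₀ (Real.exp_pos _), ← div_eq_mul_inv,
        le_div_iff₀ (Real.exp_pos _)]
      exact (mul_le_mul_of_nonneg_right hN.two_pow_nb.2 (Real.exp_pos _).le).trans (exp_le hN)
    · exact ((div_le_self hlb.le (one_le_pow₀ one_le_two)).trans G0.pos.2).trans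
        (pow_le_pow_left₀ hN.N_pos.le (by exact_mod_cast hN.nxt_le.1) _)
    · have := eb_mul (G0.fx (o g)).2.2.2.1 (h3 g).2.2.1.det.2.1
      rw [← Matrix.mul_assoc, q_inv (det_ne G0 _), Matrix.one_mul] at this
      exact eb_mono this (by linarith)
    · have := eb_mul (h3 g).2.2.1.det.2.2 (G0.fx (o g)).2.2.2.2.1
      rw [T_inv' (det_ne G0 _) (h3 g).2.1.ne', Matrix.mul_assoc, q_inv (det_ne G0 _),
        Matrix.mul_one] at this
      exact eb_mono this (by linarith)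
  · exact hγ
  · exact fun g => (h2 g).2.2.2
  have tb : ∀ g' ∈ nb8 (cv (Dd B.N' B.lb')) x, EB ((B.fr g).Q⁻¹ * (nf g').Q) (cm 12) := fun g' hg' => by
    have a1 : x ∈ box _ g' 1 := cell_cv hD' g' 1 ▸ cell_of_nb8 hg'
    have a2 : Dd B.N' B.lb' ≤ 1 * B.D := by
      refine (D_le hN hlb).trans ((mul_le_of_le_one_left (by positivity)
        (ZtA.np_le_one hN (by norm_num))).trans ((div_le_self hlb.le (one_le_pow₀ one_le_two)).trans ?_))
      rw [one_mul]
      exact le_mul_of_one_le_left hlb.le (one_le_pow₀ (by linarith [hN.N_ge, hN.J_ge, hN.L_ge]))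
    have a3 := box_add (s := 1) (y := x) (ho g') (le_trans a1 (by rwa [one_mul]))
    have a4 := eb_mul (T_eb (orth G0 g) (orth G0 (o g')) (G0.cp _ _
      (box_nbr hD (by norm_num) hx a3))) (h3 g').2.2.1.det.2.1
    rw [Matrix.mul_assoc, ← Matrix.mul_assoc (B.fr (o g')).Q, q_inv (det_ne G0 _),
      Matrix.one_mul] at a4
    have a5 : dc B.N ≤ 1 := ZtA.np_le_one hN (by norm_num)
    exact eb_mono a4 (by linarith)
  refine ⟨fun i k => ?_, ?_⟩
  · have eJ : jm (gl nf γ) x = _ :=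
      hS.jm_sum hr x fun g' => (unv_sm _ (hγ g').1).differentiable (by simp) x
    rw [eJ, ZtA.hm_sum, Matrix.sum_apply]
    refine ((Finset.abs_sum_le_sum_abs _ _).trans (ZtA.sum8 (card_nb8 _ _) fun g' hg' => by
      rw [ZtA.hm_jm_unv _ _ (hγ g').1]
      exact eb_mul_orth (orth_t (P_orth (orth G0 g) (h2 g').1))
        (eb_mul (tb g' hg') ((hγ g').2.2.2.2 _).2.2.1) i k)).trans ?_
    have a1 := ZtA.c_le hN (-94 / 100)
    have a2 := hN.np_le (show (-94 / 100 + 1 / 100 : ℝ) ≤ -9 / 10 by norm_num)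
    have a3 := np_nxt hN (show (-94 / 100 : ℝ) ≤ 0 by norm_num)
    simp only [cm, of_apply]
    change _ * (_ * (_ * np (nxt B.N) _)) ≤ _
    linarith [hN.np_pos (-94 / 100)]
  · have eZ : gl nf γ x = _ := hS.eq_sum hr x
    rw [eZ, mulVec_sum]
    refine ((norm_sum_le _ _).trans (ZtA.sum8 (card_nb8 _ _) (b := 36 * B.lb') fun g' hg' => ?_)).trans ?_
    · have a1 := norm_mulVec_le (tb g' hg') (γ g' ((nf g').xc x))
      have a2 := ((hγ g').2.2.2.2 ((nf g').xc x)).2.1.trans (mul_le_of_le_one_left hlb'.le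
        (ZtA.np_le_one hN' (by norm_num)))
      rw [Fr.unv, mulVec_mulVec]
      linarith
    · have a1 := (ZtA.c_le hN (-345 / 10)).trans (hN.np_le (show _ ≤ (-25 : ℝ) by norm_num))
      have a2 : 0 < B.lb / 2 ^ ks B.N := by positivity
      change _ ≤ np B.N (-25) * (B.lb / 2 ^ ks B.N)
      linarith [mul_le_mul_of_nonneg_right a1 a2.le]

end
end Pool.Agent.MP_20bec2_an.T3

end MrgPart3

-- marker of a merged file
example : 731051 + 24337 = 731051 + 24337 := rfl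

end MrgPart1

-- ======== part 2: formerly Pool.Agent.MP_20bec2_an.T3.CsA
section MrgPart2

/-! Row CS, part 1: parameters of two consecutive blocks and the scaled change of frame. -/

set_option autoImplicit false
set_option linter.unusedSectionVars false
open MeasureTheory Set Filter Matrix

namespace Pool.Agent.MP_20bec2_an.T3
noncomputable section
open Classical
namespace CsP
open Prof GeoP

/-! ## algebra -/

/-- the matrix `h'⁻¹ M h` -/
def Wm (h h' : V) (M : Mx) : Mx := Matrix.of fun i j => M i j * h j / h' i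

lemma nrm_conj {h h' : V} (hh : ∀ i, 0 < h i) (hh' : ∀ i, 0 < h' i) (M S : Mx) :
    nrm h' (M * S * Mᵀ) = Wm h h' M * nrm h S * (Wm h h' M)ᵀ := by
  ext i j
  have := (hh 0).ne'; have := (hh 1).ne'; have := (hh 2).ne'
  have := (hh' i).ne'; have := (hh' j).ne'
  simp only [nrm, Wm, Matrix.mul_apply, Matrix.of_apply, Matrix.transpose_apply, Fin.sum_univ_three]
  field_simp

structure WOk (W : Mx) (ε a κ : ℝ) : Prop where
  r0 : |W 0 0 ^ 2 + W 0 1 ^ 2 - 1| ≤ ε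
  r1 : |W 1 0 ^ 2 + W 1 1 ^ 2 - 1| ≤ ε
  r01 : |W 0 0 * W 1 0 + W 0 1 * W 1 1| ≤ a
  r2 : |W 2 2 ^ 2 - 1| ≤ ε
  c02 : |W 0 2| ≤ κ
  c12 : |W 1 2| ≤ κ
  c20 : |W 2 0| ≤ κ
  c21 : |W 2 1| ≤ κ

lemma abs_le_two {x : ℝ} (h : x ^ 2 ≤ 2) : |x| ≤ 2 :=
  abs_le_of_sq_le_sq' (by linarith) (by norm_num) |> abs_le.2

lemma WOk.eb {W : Mx} {ε a κ : ℝ} (h : WOk W ε a κ) (hε : ε ≤ 1) (hκ : κ ≤ 1) : EB W (cm 2) := by
  have a0 := (abs_le.1 h.r0).2; have a1 := (abs_le.1 h.r1).2; have a2 := (abs_le.1 h.r2).2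
  have b00 : |W 0 0| ≤ 2 := abs_le_two (by nlinarith [sq_nonneg (W 0 1)])
  have b01 : |W 0 1| ≤ 2 := abs_le_two (by nlinarith [sq_nonneg (W 0 0)])
  have b10 : |W 1 0| ≤ 2 := abs_le_two (by nlinarith [sq_nonneg (W 1 1)])
  have b11 : |W 1 1| ≤ 2 := abs_le_two (by nlinarith [sq_nonneg (W 1 0)])
  have b22 : |W 2 2| ≤ 2 := abs_le_two (by linarith)
  have b02 : |W 0 2| ≤ 2 := by linarith [h.c02]
  have b12 : |W 1 2| ≤ 2 := by linarith [h.c12]
  have b20 : |W 2 0| ≤ 2 := by linarith [h.c20]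
  have b21 : |W 2 1| ≤ 2 := by linarith [h.c21]
  intro i j
  fin_cases i <;> fin_cases j
  exacts [b00, b01, b02, b10, b11, b12, b20, b21, b22]

lemma conj_eb {W X : Mx} {b : ℝ} (hW : EB W (cm 2)) (hX : EB X (cm b)) :
    EB (W * X * Wᵀ) (cm (36 * b)) :=
  eb_mono (eb_mul (eb_mul hW hX) (eb_t hW)) (le_of_eq (by ring))

lemma conj_dg (W : Mx) (i j : Fin 3) : (W * dg3 (1 / 4) (1 / 4) 4 * Wᵀ) i j =
    (W i 0 * W j 0 + W i 1 * W j 1) / 4 + 4 * (W i 2 * W j 2) := by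
  simp [dg3, Matrix.mul_apply, Fin.sum_univ_three, Matrix.diagonal]
  ring

lemma abs_mul_le' {x y a b : ℝ} (hx : |x| ≤ a) (hy : |y| ≤ b) : |x * y| ≤ a * b := by
  rw [abs_mul]; exact mul_le_mul hx hy (abs_nonneg _) ((abs_nonneg _).trans hx)

lemma WOk.bd {W A : Mx} {ε a κ : ℝ} (h : WOk W ε a κ) (hε : ε ≤ 1) (hκ : κ ≤ 1)
    (hA : EB (A - dg3 (1 / 4) (1 / 4) 4) (cm κ)) :
    EB (W * A * Wᵀ - dg3 (1 / 4) (1 / 4) 4)
      !![4 * ε + 40 * κ, a + 40 * κ, 45 * κ; a + 40 * κ, 4 * ε + 40 * κ, 45 * κ;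
        45 * κ, 45 * κ, 4 * ε + 40 * κ] := by
  have hW := h.eb hε hκ
  have h1 := conj_eb hW hA
  have e : W * A * Wᵀ - dg3 (1 / 4) (1 / 4) 4 = W * (A - dg3 (1 / 4) (1 / 4) 4) * Wᵀ +
      (W * dg3 (1 / 4) (1 / 4) 4 * Wᵀ - dg3 (1 / 4) (1 / 4) 4) := by
    rw [Matrix.mul_sub, Matrix.sub_mul]; abel
  have k0 : 0 ≤ κ := (abs_nonneg _).trans h.c02
  have ε0 : 0 ≤ ε := (abs_nonneg _).trans h.r0
  have a0 : 0 ≤ a := (abs_nonneg _).trans h.r01
  have kk : κ * κ ≤ κ := by nlinarith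
  have w : ∀ i j, |W i j| ≤ 2 := hW
  have r0 := abs_le.1 h.r0; have r1 := abs_le.1 h.r1; have r2 := abs_le.1 h.r2
  have r01 := abs_le.1 h.r01
  have p1 := abs_le.1 (abs_mul_le' h.c02 h.c02)
  have p2 := abs_le.1 (abs_mul_le' h.c12 h.c12)
  have p3 := abs_le.1 (abs_mul_le' h.c02 h.c12)
  have p4 := abs_le.1 (abs_mul_le' h.c20 h.c20)
  have p5 := abs_le.1 (abs_mul_le' h.c21 h.c21)
  have p6 := abs_le.1 (abs_mul_le' (w 0 0) h.c20)
  have p7 := abs_le.1 (abs_mul_le' (w 0 1) h.c21)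
  have p8 := abs_le.1 (abs_mul_le' h.c02 (w 2 2))
  have p9 := abs_le.1 (abs_mul_le' (w 1 0) h.c20)
  have p10 := abs_le.1 (abs_mul_le' (w 1 1) h.c21)
  have p11 := abs_le.1 (abs_mul_le' h.c12 (w 2 2))
  have key : EB (W * dg3 (1 / 4) (1 / 4) 4 * Wᵀ - dg3 (1 / 4) (1 / 4) 4)
      !![4 * ε + 4 * κ, a + 4 * κ, 9 * κ; a + 4 * κ, 4 * ε + 4 * κ, 9 * κ;
        9 * κ, 9 * κ, 4 * ε + 4 * κ] := by
    intro i j
    rw [Matrix.sub_apply, conj_dg]
    fin_cases i <;> fin_cases j <;> simp [dg3, Matrix.diagonal, abs_le] <;> constructor <;> nlinarith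
  intro i j
  rw [e, Matrix.add_apply]
  refine (abs_add_le _ _).trans ((add_le_add (h1 i j) (key i j)).trans (le_of_eq ?_))
  fin_cases i <;> fin_cases j <;> simp [cm] <;> ring

lemma sq_of_abs {x e : ℝ} (h : |(|x| - 1)| ≤ e) (he : e ≤ 1) : |x ^ 2 - 1| ≤ 3 * e := by
  obtain ⟨h1, h2⟩ := abs_le.1 h
  rw [← sq_abs x, abs_le]
  constructor <;> nlinarith [abs_nonneg x]

lemma sq_mul_cl {x r e : ℝ} (hx : |x ^ 2 - 1| ≤ 3 * e) (hr : |r - 1| ≤ 3 * e) (he : e ≤ 1 / 100) :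
    |(x * r) ^ 2 - 1| ≤ 10 * e := by
  obtain ⟨h1, h2⟩ := abs_le.1 hx
  obtain ⟨h3, h4⟩ := abs_le.1 hr
  have h5 : r ^ 2 ≤ 1 + 61 / 10 * e := by nlinarith
  have h6 : 1 - 6 * e ≤ r ^ 2 := by nlinarith
  rw [mul_pow, abs_le]
  constructor <;> nlinarith [mul_le_mul (show x ^ 2 ≤ 1 + 3 * e by linarith) h5 (sq_nonneg r)
    (by linarith), mul_le_mul (show 1 - 3 * e ≤ x ^ 2 by linarith) h6 (by linarith) (sq_nonneg x)]

/-- a matrix near a rotation that nearly fixes the vertical -/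
lemma near_orth {P M : Mx} {γ : ℝ} (hP : Orth P) (hM : EB (M - P) (cm γ)) (hγ : γ ≤ 1 / 100)
    (h2 : ∀ i, i ≠ 2 → |P i 2| ≤ γ ∧ |P 2 i| ≤ γ) :
    |M 0 0 ^ 2 + M 0 1 ^ 2 - 1| ≤ 7 * γ ∧ |M 1 0 ^ 2 + M 1 1 ^ 2 - 1| ≤ 7 * γ ∧
    |M 0 0 * M 1 0 + M 0 1 * M 1 1| ≤ 7 * γ ∧ |M 2 2 ^ 2 - 1| ≤ 7 * γ := by
  have g0 : 0 ≤ γ := eb_nonneg hM
  have gg : γ * γ ≤ γ / 100 := by nlinarith
  have pr : ∀ i j k l, |M i j * M k l - P i j * P k l| ≤ 3 * γ := fun i j k l => by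
    have e1 : |M i j - P i j| ≤ γ := hM i j
    have e2 : |M k l - P k l| ≤ γ := hM k l
    have q1 := abs_le.1 (abs_mul_le' e1 e2)
    have q2 := abs_le.1 (abs_mul_le' e1 (orth_abs_le hP k l))
    have q3 := abs_le.1 (abs_mul_le' (orth_abs_le hP i j) e2)
    rw [abs_le]; constructor <;> nlinarith
  have o0 := orth_row hP 0; have o1 := orth_row hP 1; have o2 := orth_row hP 2
  have o01 : (P * Pᵀ) 0 1 = 0 := by rw [hP.1]; rfl
  simp only [Fin.sum_univ_three, Matrix.mul_apply, Matrix.transpose_apply] at o0 o1 o2 o01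
  obtain ⟨a1, a2⟩ := h2 0 (by decide)
  obtain ⟨a3, a4⟩ := h2 1 (by decide)
  have s1 := abs_le.1 (abs_mul_le' a1 a1)
  have s2 := abs_le.1 (abs_mul_le' a2 a2)
  have s3 := abs_le.1 (abs_mul_le' a3 a3)
  have s4 := abs_le.1 (abs_mul_le' a4 a4)
  have s5 := abs_le.1 (abs_mul_le' a1 a3)
  have t1 := abs_le.1 (pr 0 0 0 0); have t2 := abs_le.1 (pr 0 1 0 1)
  have t3 := abs_le.1 (pr 1 0 1 0); have t4 := abs_le.1 (pr 1 1 1 1)
  have t5 := abs_le.1 (pr 0 0 1 0); have t6 := abs_le.1 (pr 0 1 1 1)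
  have t7 := abs_le.1 (pr 2 2 2 2)
  simp only [sq] at o0 o1 o2 ⊢
  refine ⟨abs_le.2 ⟨?_, ?_⟩, abs_le.2 ⟨?_, ?_⟩, abs_le.2 ⟨?_, ?_⟩, abs_le.2 ⟨?_, ?_⟩⟩ <;> linarith

/-! ## parameters of consecutive blocks -/

structure Lv (c c' : Pm) : Prop where
  g : Gd c
  g' : Gd c'
  s1 : |Real.log (c'.s1 / c.s1)| ≤ 1 / (c.q ^ 2 * pR c.N)
  s2 : |Real.log (c'.s2 / c.s2)| ≤ 1 / (c.q ^ 2 * pR c.N)
  n1 : c.N ≤ c'.N
  n2 : (c'.N : ℝ) ≤ c.N + c.J

/-- the small number `q⁻²` -/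
def ep (c : Pm) : ℝ := 1 / c.q ^ 2

lemma ep_pos {c : Pm} (g : Gd c) : 0 < ep c := one_div_pos.2 (pow_pos g.q_pos 2)
lemma log_ep {c : Pm} (g : Gd c) : Real.log (ep c) = -(2 * (pL c.N / 1000)) := by
  rw [ep, one_div, Real.log_inv, Real.log_pow, g.log_q]; norm_num
lemma ep_le {c : Pm} (g : Gd c) : ep c ≤ 1 / c.q / 10000000 ∧ ep c ≤ 1 / 10000000 := by
  have h1 : 10000000 ≤ c.q := g.big.q_ge
  have h2 : ep c ≤ 1 / c.q / 10000000 := by
    rw [div_div]; exact one_div_le_one_div_of_le (by positivity) (by nlinarith)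
  have h3 : 1 / c.q ≤ 1 := (div_le_one g.q_pos).2 (by linarith)
  exact ⟨h2, by linarith⟩

namespace Lv
variable {c c' : Pm} (h : Lv c c')
include h

lemma dJ : 0 ≤ pJ c'.N - pJ c.N ∧ 1000 * (pJ c'.N - pJ c.N) ≤ ep c := by
  have p := h.g.N_pos; have p' := h.g'.N_pos
  have hJ := h.g.J_pos; have hq := h.g.q_pos
  have h1 := Real.log_le_sub_one_of_pos (div_pos p' p)
  rw [Real.log_div p'.ne' p.ne', div_sub_one p.ne'] at h1
  have h2 : ((c'.N : ℝ) - c.N) / c.N ≤ c.J / c.N :=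
    div_le_div_of_nonneg_right (by linarith [h.n2]) p.le
  have h3 : 1000 * (c.J / c.N) ≤ ep c := by
    refine le_of_log (by positivity) (ep_pos h.g) ?_
    simp (disch := positivity) only [Real.log_div, Real.log_mul, log_ep h.g, h.g.log_J,
      h.g.big.log_N]
    linarith [h.g.big.L_ge, h.g.big.J_ge, (logc_bd (show (1 : ℝ) ≤ 1000 by norm_num)).2]
  exact ⟨sub_nonneg.2 (Real.log_le_log p (Nat.cast_le.2 h.n1)), by unfold pJ; linarith⟩

lemma dL : 0 ≤ pL c'.N - pL c.N ∧ pJ c.N * (pL c'.N - pL c.N) ≤ pJ c'.N - pJ c.N := by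
  have p := h.g.big.J_pos; have p' := h.g'.big.J_pos
  have h1 := Real.log_le_sub_one_of_pos (div_pos p' p)
  rw [Real.log_div p'.ne' p.ne', div_sub_one p.ne', le_div_iff₀ p] at h1
  exact ⟨sub_nonneg.2 (Real.log_le_log p (by linarith [h.dJ.1])), by unfold pL; linarith⟩

lemma dL' : 1000 * (pL c'.N - pL c.N) ≤ ep c := by
  nlinarith [h.dL.1, h.dL.2, h.dJ.2, h.g.big.J_ge, h.g.big.L_ge]

lemma cl_K : pR c.N * |Real.log c'.K - Real.log c.K| ≤ 2 * ep c := by
  have h1 := h.s1; have h2 := h.s2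
  have hR := h.g.big.R_pos
  rw [Real.log_div h.g'.s1_pos.ne' h.g.s1_pos.ne'] at h1
  rw [Real.log_div h.g'.s2_pos.ne' h.g.s2_pos.ne'] at h2
  have e : pR c.N * (1 / (c.q ^ 2 * pR c.N)) = ep c := by
    have := h.g.q_pos
    unfold ep; field_simp
  have h3 : |Real.log c'.K - Real.log c.K| ≤ 2 * (1 / (c.q ^ 2 * pR c.N)) := by
    rw [h.g.log_K, h.g'.log_K]
    obtain ⟨a1, a2⟩ := abs_le.1 h1
    obtain ⟨a3, a4⟩ := abs_le.1 h2
    exact abs_le.2 ⟨by linarith, by linarith⟩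
  nlinarith [mul_le_mul_of_nonneg_left h3 hR.le]

lemma cl_K' : |Real.log c'.K - Real.log c.K| ≤ ep c := by
  nlinarith [h.cl_K, h.g.big.R_ge, abs_nonneg (Real.log c'.K - Real.log c.K)]

lemma cl_η : |Real.log c'.η - Real.log c.η| ≤ 3 * ep c := by
  have hR := h.g.big.R_ge
  have e : pR c.N = 4 * pJ c.N := rfl
  have e' : pR c'.N = 4 * pJ c'.N := rfl
  obtain ⟨h1, h2⟩ := abs_le.1 (log_eta_R (R' := pR c'.N) (t := c'.t) hR (by linarith [h.dJ.1])
    (by linarith [h.g'.t_le]))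
  have h3 := log_eta_shift hR c.t c'.t
  have h4 := log_eta_shift hR c'.t c.t
  rw [abs_sub_comm] at h4
  have ht : |c'.t - c.t| ≤ |Real.log c'.K - Real.log c.K| + 15 / 4 * (pL c'.N - pL c.N) := by
    rw [h.g.t_eq, h.g'.t_eq]
    exact abs_le.2 ⟨by linarith [h.dL.1, neg_abs_le (Real.log c'.K - Real.log c.K)],
      by linarith [h.dL.1, le_abs_self (Real.log c'.K - Real.log c.K)]⟩
  have h5 := mul_le_mul_of_nonneg_left ht h.g.big.R_pos.le
  have h6 : pR c.N * (pL c'.N - pL c.N) ≤ 4 * (pJ c'.N - pJ c.N) := by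
    rw [e]; linarith [h.dL.2]
  have := h.dJ.2; have := h.dJ.1; have := h.cl_K
  unfold Pm.η
  exact abs_le.2 ⟨by linarith, by linarith⟩

lemma cl_ro : |Real.log c.ro - Real.log c'.ro| ≤ 2 * ep c := by
  have e0 := ep_pos h.g
  obtain ⟨h3, h4⟩ := abs_le.1 (max_cl h.g.log_e4 h.g'.log_e4 h.cl_η (abs_le.2
    ⟨by linarith [h.dL.1, h.dJ.2], by linarith [h.dL', h.dJ.1]⟩))
  obtain ⟨h5, h6⟩ := abs_le.1 (max_cl (e := ep c) h.g.log_m h.g'.log_m
    (by simp only [sub_self, abs_zero]; linarith) (by rw [sub_sub_sub_cancel_right]; exact h.cl_K'))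
  rw [h.g.log_ro, h.g'.log_ro]
  exact abs_le.2 ⟨by linarith, by linarith⟩

lemma ro_ratio : |c.ro / c'.ro - 1| ≤ 3 * ep c := by
  have := abs_div_sub_one_le h.g'.ro_pos h.g.ro_pos h.cl_ro (by linarith [(ep_le h.g).2])
  linarith [ep_pos h.g]

lemma np_ratio : |np c.N (11 / 10) / np c'.N (11 / 10) - 1| ≤ 3 * ep c := by
  have := abs_div_sub_one_le (e := ep c) (h.g'.big.np_pos (11 / 10)) (h.g.big.np_pos (11 / 10))
    (by rw [h.g.big.log_np, h.g'.big.log_np]
        exact abs_le.2 ⟨by linarith [h.dJ.1, h.dJ.2], by linarith [h.dJ.1, h.dJ.2]⟩)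
    (by linarith [(ep_le h.g).2])
  linarith [ep_pos h.g]

end Lv

end CsP
end
end Pool.Agent.MP_20bec2_an.T3

end MrgPart2

-- ======== part 3: formerly Pool.Agent.MP_20bec2_an.T3.Cs
section MrgPart3

-- ======== part 0: formerly Pool.Agent.MP_20bec2_an.T3.CsB
section MrgPart0

/-! Row CS, part 2: the scaled change of frame between consecutive blocks is nearly conformal. -/

set_option autoImplicit false
set_option linter.unusedSectionVars false
open MeasureTheory Set Filter Matrix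

namespace Pool.Agent.MP_20bec2_an.T3
noncomputable section
open Classical
namespace CsP
open Prof GeoP

/-- `TF` does not depend on the band -/
lemma tf_lvl {N : ℕ} {s1 s2 lb a b hh : ℝ} {T Ω : Mx} (k : ℕ)
    (H : TF ⟨N, s1, s2, lb, 0⟩ a b T Ω hh) : TF ⟨N, s1, s2, lb, k⟩ a b T Ω hh := by
  have p : (0 : ℝ) < 2 ^ k := by positivity
  have ey : (⟨N, s1, s2, lb, k⟩ : Pm).y = (⟨N, s1, s2, lb, 0⟩ : Pm).y / 2 ^ k := by
    simp only [Pm.y, Pm.lam]; ring
  have eh : ∀ i, (⟨N, s1, s2, lb, k⟩ : Pm).hs i = (⟨N, s1, s2, lb, 0⟩ : Pm).hs i / 2 ^ k := by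
    intro i
    fin_cases i
    · show Pm.ro _ * (lb / 2 ^ k) = Pm.ro ⟨N, s1, s2, lb, k⟩ * (lb / 2 ^ 0) / 2 ^ k
      ring
    · show lb / 2 ^ k = lb / 2 ^ 0 / 2 ^ k
      ring
    · exact ey
  refine ⟨H.ort, H.ls, H.det, fun i hi => ⟨(H.c2 i hi).1, ?_, ?_⟩, H.hi, H.lo⟩ <;>
    rw [ey, eh, ← mul_div_assoc, ← mul_div_assoc] <;> refine div_le_div_of_nonneg_right ?_ p.le
  exacts [(H.c2 i hi).2.1, (H.c2 i hi).2.2]

lemma ro_one {c : Pm} (g : Gd c) (h : c.s2 ≤ 4 * c.s1) : c.ro = 1 := by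
  have hK : c.K ≤ 4 := (div_le_iff₀ g.s1_pos).2 h
  have h1 : c.η = 1 := eta_one' g.big.R_ge (by
    have := Real.log_le_log g.K_pos hK
    linarith [g.t_eq, log4_eq, log2_bd.2, g.big.L_ge])
  have h2 : c.e4 = 1 := le_antisymm g.e4_le_one (h1 ▸ g.η_le_e4)
  have h3 : c.m = 1 := max_eq_left (by linarith)
  rw [Pm.ro, h2, h3]; simp

/-- `N^(-2/5)` -/
def gm (c : Pm) : ℝ := np c.N (-2 / 5)
/-- `J^(-5/2)` -/
def aj (c : Pm) : ℝ := Jp c.N (-5 / 2)

section num
variable {c : Pm} (g : Gd c)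
include g

lemma gm_pos : 0 < gm c := g.big.np_pos _
lemma aj_pos : 0 < aj c := g.big.Jp_pos _
lemma log_gm : Real.log (gm c) = -2 / 5 * pJ c.N := g.big.log_np _
lemma log_aj : Real.log (aj c) = -5 / 2 * pL c.N := g.big.log_Jp _

lemma aj_le : 1000 * aj c ≤ ep c := by
  have := aj_pos g
  refine le_of_log (by positivity) (ep_pos g) ?_
  rw [Real.log_mul (by norm_num) this.ne', log_aj g, log_ep g]
  linarith [g.big.L_ge, (logc_bd (show (1 : ℝ) ≤ 1000 by norm_num)).2]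

lemma gm_le : 1000 * gm c ≤ aj c := by
  have := gm_pos g
  refine le_of_log (by positivity) (aj_pos g) ?_
  rw [Real.log_mul (by norm_num) this.ne', log_aj g, log_gm g]
  linarith [g.big.L_ge, g.big.J_ge, (logc_bd (show (1 : ℝ) ≤ 1000 by norm_num)).2]

lemma gm_ro (hη : etaS c.N / 2 ≤ c.η) : 2 * gm c * c.ro ≤ aj c := by
  have := gm_pos g; have := g.ro_pos
  have h1 := g.log_etaS_le (a := 1 / 2) (by norm_num) (by linarith)
  refine le_of_log (by positivity) (aj_pos g) ?_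
  simp (disch := positivity) only [Real.log_mul, log_aj g, log_gm g, g.log_ro]
  linarith [g.big.L_ge, g.big.J_ge, log2_bd.2, g.log_m_le, g.log_K_bd.2, g.log_e4.1]

lemma lo01 : c.q ^ 4 * c.J * c.m * uB c.N ≤ aj c := by
  have := g.q_pos; have := g.J_pos; have := g.m_pos; have := g.big.uB_pos
  refine le_of_log (by positivity) (aj_pos g) ?_
  simp (disch := positivity) only [Real.log_mul, Real.log_pow, log_aj g, g.log_q, g.log_J,
    g.big.log_uB]
  push_cast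
  linarith [g.big.L_ge, g.big.J_ge, g.log_m_le, g.log_K_bd.2]

lemma lo10 : uB c.N / c.J * c.ro ≤ aj c := by
  have := g.J_pos; have := g.ro_pos; have := g.big.uB_pos
  refine le_of_log (by positivity) (aj_pos g) ?_
  simp (disch := positivity) only [Real.log_mul, Real.log_div, log_aj g, g.log_J, g.big.log_uB]
  linarith [g.big.L_ge, g.log_ro_bd.2]

lemma lo22 : 3 / Real.sqrt c.J ≤ ep c := by
  have := g.J_pos
  refine le_of_log (by positivity) (ep_pos g) ?_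
  simp (disch := positivity) only [Real.log_div, Real.log_sqrt, log_ep g, g.log_J]
  linarith [g.big.L_ge, (logc_bd (show (1 : ℝ) ≤ 3 by norm_num)).2]

lemma lo00 : 1 / (c.q ^ 2 * pR c.N) ≤ ep c :=
  one_div_le_one_div_of_le (pow_pos g.q_pos 2)
    (le_mul_of_one_le_right (pow_pos g.q_pos 2).le (by linarith [g.big.R_ge]))

lemma c2_le : 2 * np c.N (-4 / 5) ≤ gm c := by
  have := g.big.np_pos (-4 / 5)
  refine le_of_log (by positivity) (gm_pos g) ?_
  rw [Real.log_mul (by norm_num) this.ne', log_gm g, g.big.log_np]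
  linarith [g.big.L_ge, g.big.J_ge, log2_bd.2]

lemma r2_le : 2 * c.ro ≤ gm c * np c.N (11 / 10) := by
  have := g.big.np_pos (11 / 10); have := gm_pos g; have := g.ro_pos
  refine le_of_log (by positivity) (by positivity) ?_
  simp (disch := positivity) only [Real.log_mul, log_gm g, g.big.log_np]
  linarith [g.big.L_ge, g.big.J_ge, log2_bd.2, g.log_ro_bd.2]
end num

lemma Lv.wok {c c' : Pm} (h : Lv c c') (hl : c'.lam = c.lam) {T Ω : Mx} {hh : ℝ}
    (H : TF c c'.s1 c'.s2 T Ω hh) :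
    WOk (Wm c.hs c'.hs T⁻¹) (20 * ep c) (4 * aj c) (gm c) := by
  obtain ⟨M, hM⟩ : ∃ M, M = T⁻¹ := ⟨_, rfl⟩
  have g := h.g; have g' := h.g'
  have pl := g.lam_pos; have pr := g.ro_pos; have pr' := g'.ro_pos
  have pn := g.big.np_pos (11 / 10); have pn' := g'.big.np_pos (11 / 10)
  have nn' : np c.N (11 / 10) ≤ np c'.N (11 / 10) :=
    Real.rpow_le_rpow g.N_pos.le (Nat.cast_le.2 h.n1) (by norm_num)
  have pe := ep_pos g; have pa := aj_pos g; have pg := gm_pos g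
  have e1 := (ep_le g).2; have e2 := aj_le g; have e3 := gm_le g
  have hr := h.ro_ratio; have hu := h.np_ratio
  have m2 : ∀ i j, |M i j| ≤ 2 := hM ▸ H.det.2.2
  have c2 : ∀ i, i ≠ 2 → |M i 2| * c.y ≤ np c.N (-4 / 5) * c.hs i :=
    fun i hi => hM ▸ (H.c2 i hi).2.2
  rw [← hM]
  have w00 : Wm c.hs c'.hs M 0 0 = M 0 0 * (c.ro / c'.ro) := by
    show M 0 0 * (c.ro * c.lam) / (c'.ro * c'.lam) = _
    rw [hl]; field_simp
  have w01 : Wm c.hs c'.hs M 0 1 = M 0 1 / c'.ro := by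
    show M 0 1 * c.lam / (c'.ro * c'.lam) = _
    rw [hl]; field_simp
  have w10 : Wm c.hs c'.hs M 1 0 = M 1 0 * c.ro := by
    show M 1 0 * (c.ro * c.lam) / c'.lam = _
    rw [hl]; field_simp
  have w11 : Wm c.hs c'.hs M 1 1 = M 1 1 := by
    show M 1 1 * c.lam / c'.lam = _
    rw [hl]; field_simp
  have w22 : Wm c.hs c'.hs M 2 2 = M 2 2 * (np c.N (11 / 10) / np c'.N (11 / 10)) := by
    show M 2 2 * (np c.N (11 / 10) * c.lam) / (np c'.N (11 / 10) * c'.lam) = _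
    rw [hl]; field_simp
  have w02 : |Wm c.hs c'.hs M 0 2| ≤ gm c := by
    show |M 0 2 * c.y / (c'.ro * c'.lam)| ≤ _
    have a1 : |M 0 2| * c.y ≤ np c.N (-4 / 5) * (c.ro * c.lam) := c2 0 (by decide)
    have a2 : c.ro ≤ 2 * c'.ro := by
      rw [← div_le_iff₀ pr']; linarith [(abs_le.1 hr).2]
    rw [hl, abs_div, abs_mul, abs_of_pos g.y_pos, abs_of_pos (mul_pos pr' pl),
      div_le_iff₀ (mul_pos pr' pl)]
    have a3 := mul_le_mul_of_nonneg_left (mul_le_mul_of_nonneg_right a2 pl.le)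
      (g.big.np_pos (-4 / 5)).le
    have a4 := mul_le_mul_of_nonneg_right (c2_le g) (mul_pos pr' pl).le
    linarith
  have w12 : |Wm c.hs c'.hs M 1 2| ≤ gm c := by
    show |M 1 2 * c.y / c'.lam| ≤ _
    have a1 : |M 1 2| * c.y ≤ np c.N (-4 / 5) * c.lam := c2 1 (by decide)
    rw [hl, abs_div, abs_mul, abs_of_pos g.y_pos, abs_of_pos pl, div_le_iff₀ pl]
    have a4 := mul_le_mul_of_nonneg_right (c2_le g) pl.le
    have a5 := mul_pos (g.big.np_pos (-4 / 5)) pl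
    linarith
  have a6 : gm c * np c.N (11 / 10) ≤ gm c * np c'.N (11 / 10) := mul_le_mul_of_nonneg_left nn' pg.le
  have w20 : |Wm c.hs c'.hs M 2 0| ≤ gm c := by
    have : Wm c.hs c'.hs M 2 0 = M 2 0 * c.ro / np c'.N (11 / 10) := by
      show M 2 0 * (c.ro * c.lam) / (np c'.N (11 / 10) * c'.lam) = _
      rw [hl]; field_simp
    rw [this, abs_div, abs_mul, abs_of_pos pr, abs_of_pos pn', div_le_iff₀ pn']
    linarith [mul_le_mul_of_nonneg_right (m2 2 0) pr.le, r2_le g]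
  have w21 : |Wm c.hs c'.hs M 2 1| ≤ gm c := by
    have : Wm c.hs c'.hs M 2 1 = M 2 1 / np c'.N (11 / 10) := by
      show M 2 1 * c.lam / (np c'.N (11 / 10) * c'.lam) = _
      rw [hl]; field_simp
    rw [this, abs_div, abs_of_pos pn', div_le_iff₀ pn']
    linarith [m2 2 1, r2_le g, g.one_le_ro]
  -- the aligned case
  have ali : |M 0 0 ^ 2 - 1| ≤ 3 * ep c → |M 1 1 ^ 2 - 1| ≤ 3 * ep c → |M 2 2 ^ 2 - 1| ≤ 3 * ep c →
      |M 0 1| ≤ aj c → |M 1 0| * c.ro ≤ aj c →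
      WOk (Wm c.hs c'.hs M) (20 * ep c) (4 * aj c) (gm c) := by
    intro b0 b1 b2 b01 b10
    have d0 := sq_mul_cl b0 hr (by linarith)
    have d2 := sq_mul_cl b2 hu (by linarith)
    have d01 : |M 0 1 / c'.ro| ≤ aj c := by
      rw [abs_div, abs_of_pos pr']
      exact (div_le_self (abs_nonneg _) g'.one_le_ro).trans b01
    have d10 : |M 1 0 * c.ro| ≤ aj c := by rwa [abs_mul, abs_of_pos pr]
    have d00 : |M 0 0 * (c.ro / c'.ro)| ≤ 2 := abs_le_two (by linarith [(abs_le.1 d0).2])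
    have q1 := abs_le.1 (abs_mul_le' d01 d01)
    have q2 := abs_le.1 (abs_mul_le' d10 d10)
    have q3 := abs_le.1 (abs_mul_le' d00 d10)
    have q4 := abs_le.1 (abs_mul_le' d01 (m2 1 1))
    have q5 : aj c * aj c ≤ aj c := by nlinarith
    have d0' := abs_le.1 d0
    have b1' := abs_le.1 b1
    refine ⟨?_, ?_, ?_, ?_, w02, w12, w20, w21⟩
    · rw [w00, w01, sq (M 0 1 / c'.ro)]; exact abs_le.2 ⟨by linarith, by linarith⟩
    · rw [w10, w11, sq (M 1 0 * c.ro)]; exact abs_le.2 ⟨by linarith, by linarith⟩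
    · rw [w00, w01, w10, w11]; exact abs_le.2 ⟨by linarith, by linarith⟩
    · rw [w22]; linarith
  rcases le_or_gt (etaS c.N / 2) c.η with hη | hη
  · obtain ⟨-, -, -, t1, t2, t3⟩ := H.hi hη
    rw [← hM] at t1
    have t4 : EB (M - Ωᵀ) (cm (gm c)) := eb_mono t1 (g.big.np_le (by norm_num))
    obtain ⟨n0, n1, n01, n2⟩ := near_orth (orth_t H.ort) t4 (by linarith)
      fun i hi => ⟨(t2 i hi).2, (t2 i hi).1⟩
    rcases t3 with ⟨t5, t6⟩ | ⟨t5, t6⟩
    · have u01 : |M 0 1| ≤ 2 * gm c := by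
        have v1 : |M 0 1 - Ω 1 0| ≤ gm c := t4 0 1
        have v2 : |Ω 1 0| ≤ gm c := t6
        linarith [abs_sub_abs_le_abs_sub (M 0 1) (Ω 1 0)]
      have u10 : |M 1 0| ≤ 2 * gm c := by
        have v1 : |M 1 0 - Ω 0 1| ≤ gm c := t4 1 0
        have v2 : |Ω 0 1| ≤ gm c := t5
        linarith [abs_sub_abs_le_abs_sub (M 1 0) (Ω 0 1)]
      have q1 := abs_le.1 (abs_mul_le' u01 u01)
      have q2 := abs_le.1 (abs_mul_le' u10 u10)
      have q3 : gm c * gm c ≤ gm c := by nlinarith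
      have n0' := abs_le.1 n0
      have n1' := abs_le.1 n1
      rw [sq (M 0 1)] at n0'
      rw [sq (M 1 0)] at n1'
      exact ali (abs_le.2 ⟨by linarith, by linarith⟩) (abs_le.2 ⟨by linarith, by linarith⟩)
        (by linarith) (by linarith)
        ((mul_le_mul_of_nonneg_right u10 pr.le).trans (gm_ro g hη))
    · have r1 := ro_one g t5
      have r2 := ro_one g' t6
      rw [r1, r2, div_one, mul_one] at w00
      rw [r2, div_one] at w01
      rw [r1, mul_one] at w10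
      refine ⟨?_, ?_, ?_, ?_, w02, w12, w20, w21⟩
      · rw [w00, w01]; linarith
      · rw [w10, w11]; linarith
      · rw [w00, w01, w10, w11]; linarith
      · rw [w22]; linarith [sq_mul_cl (e := ep c) (n2.trans (by linarith)) hu (by linarith)]
  · obtain ⟨t0, t1, t2, t01, t10, -, -⟩ := (H.lo hη).1 M (by rw [hM]; simp)
    exact ali (sq_of_abs (t0.trans (lo00 g)) (by linarith))
      (sq_of_abs (t1.trans (lo00 g)) (by linarith)) (sq_of_abs (t2.trans (lo22 g)) (by linarith))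
      (t01.trans (lo01 g)) ((mul_le_mul_of_nonneg_right t10 pr.le).trans (lo10 g))

/-! ## the tolerances of the new block -/

namespace Lv
variable {c c' : Pm} (h : Lv c c')
include h

lemma dJ1 : pJ c'.N ≤ pJ c.N + 1 ∧ pL c'.N ≤ pL c.N + 1 :=
  ⟨by linarith [h.dJ.2, (ep_le h.g).2], by linarith [h.dL', (ep_le h.g).2]⟩

lemma t11 : 4 * (20 * ep c) + 40 * gm c ≤ 1 / c'.q := by
  have g := h.g; have g' := h.g'
  have h1 : 1 / c.q / 2 ≤ 1 / c'.q := by
    have := g.q_pos; have := g'.q_pos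
    refine le_of_log (by positivity) (by positivity) ?_
    simp (disch := positivity) only [Real.log_div, Real.log_one, g.log_q, g'.log_q]
    linarith [h.dJ1.2, log2_bd.1]
  linarith [(ep_le g).1, aj_le g, gm_le g, gm_pos g, ep_pos g]

lemma t12 (hk : c'.k = 0) : 4 * aj c + 40 * gm c ≤ c'.b2 / c'.q := by
  have g := h.g; have g' := h.g'
  have hb : ¬c'.boost := fun e => by
    have := e.2.2.1
    rw [hk, kbo] at this; omega
  have h1 : -(3 / 2 * pL c'.N) ≤ Real.log c'.b2 := by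
    rw [g'.log_b2, g'.log_ro, (g'.log_nbst hb).2]
    have := g'.log_two_sub.1; have := g'.log_m_le; have := g'.log_mu.2.1
    have := g'.big.L_ge; have := log2_bd.2; have := log10_bd.2; have := g'.log_K_bd.2
    by_cases hA : c'.isA
    · obtain ⟨a1, a2, -, -, a5, -⟩ := g'.log_A hA; linarith
    · obtain ⟨a1, a2, -, -, -, -⟩ := g'.log_B hA; linarith
  have h2 : 5 * aj c ≤ c'.b2 / c'.q := by
    have := aj_pos g; have := g'.q_pos; have := g'.b2_pos
    refine le_of_log (by positivity) (by positivity) ?_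
    simp (disch := positivity) only [Real.log_div, Real.log_mul, g'.log_q, log_aj g]
    linarith [h.dJ1.2, g.big.L_ge, (logc_bd (show (1 : ℝ) ≤ 5 by norm_num)).2]
  linarith [gm_le g, gm_pos g]

lemma t13 : 72 * gm c ≤ np c'.N (-39 / 100) ∧ 45 * gm c ≤ np c'.N (-38 / 100) := by
  have g := h.g; have g' := h.g'
  have p := gm_pos g
  have h1 : 72 * gm c ≤ np c'.N (-39 / 100) := by
    refine le_of_log (by positivity) (g'.big.np_pos _) ?_
    rw [Real.log_mul (by norm_num) p.ne', log_gm g, g'.big.log_np]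
    linarith [h.dJ1.1, g.big.L_ge, g.big.J_ge, (logc_bd (show (1 : ℝ) ≤ 72 by norm_num)).2]
  exact ⟨h1, by linarith [g'.big.np_le (show (-39 / 100 : ℝ) ≤ -38 / 100 by norm_num)]⟩

lemma hE_le (hl : c'.lam = c.lam) : c'.hE ≤ 2 * c.hE := by
  have g := h.g; have g' := h.g'
  refine le_of_log g'.hE_pos (mul_pos two_pos g.hE_pos) ?_
  rw [Real.log_mul two_ne_zero g.hE_pos.ne', g.log_hE, g'.log_hE, hl]
  linarith [h.dJ1.1, log2_bd.1]

lemma eL_le (hk : c.k = nb c.N) (hk' : c'.k = 0) : 46656 * c.eL ≤ c'.eL := by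
  have g := h.g; have g' := h.g'
  have hJ := g.big.J_pos; have hL := g.big.L_ge; have hJL := g.big.J_ge
  have hC := (logc_bd (show (1 : ℝ) ≤ 93312 by norm_num)).2
  obtain ⟨r0, r1⟩ := rmp_mem (etaS c'.N / 10) c'.η
  have d1 := h.dJ.1; have d2 := h.dJ1.1
  have lo : (-46 / 100 - 445 / 100 * rmp (etaS c'.N / 10) c'.η) * pJ c.N - 5 ≤ Real.log c'.eHi := by
    rw [Pm.eHi, g'.big.log_np]; nlinarith
  have h1 : 93312 * (c.eHi * (6 / 10) ^ c.k) ≤ c'.eHi := by
    have := g.eHi_pos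
    refine le_of_log (by positivity) g'.eHi_pos ?_
    simp (disch := positivity) only [Real.log_mul, Real.log_pow]
    have a1 : Real.log c.eHi ≤ 0 := by
      rw [Pm.eHi, g.big.log_np]; nlinarith [(rmp_mem (etaS c.N / 10) c.η).1]
    have a2 : Real.log (6 / 10) ≤ -(4 / 10) := by
      linarith [Real.log_le_sub_one_of_pos (show (0 : ℝ) < 6 / 10 by norm_num)]
    have a3 : 132 * pJ c.N ≤ c.k := hk ▸ g.big.nb_bd.1
    nlinarith
  have h2 : 93312 * c.eLo ≤ c'.eHi := by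
    have := g.eLo_pos
    refine le_of_log (by positivity) g'.eHi_pos ?_
    have a0 : c.thr = etaS c.N := if_neg (by
      rw [hk]; have := g.big.mid_lt; omega)
    have a1 : rmp (etaS c'.N / 10) c'.η ≤ rmp (c.thr / 2) c.η := by
      refine min_le_min le_rfl (max_le_max le_rfl ?_)
      have := g.big.etaS_pos; have := g'.big.etaS_pos; have := g.η_pos; have := g'.η_pos
      have a2 : Real.log (2 ^ 3) ≤ Real.log 10 := Real.log_le_log (by norm_num) (by norm_num)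
      rw [Real.log_pow] at a2
      push_cast at a2
      rw [a0]
      simp (disch := positivity) only [Real.log_div, g.big.log_etaS, g'.big.log_etaS]
      linarith [h.dL.1, (abs_le.1 h.cl_η).1, (ep_le g).2, log2_bd.1]
    rw [Real.log_mul (by norm_num) this.ne', Pm.eLo, g.big.log_np]
    nlinarith [mul_le_mul_of_nonneg_right a1 hJ.le, mul_nonneg r0 hJ.le]
  have h3 : c'.eHi ≤ c'.eL := by
    rw [Pm.eL, hk', pow_zero, mul_one]; linarith [g'.eLo_pos]
  rw [Pm.eL]; linarith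

end Lv

end CsP
end
end Pool.Agent.MP_20bec2_an.T3

end MrgPart0

-- ======== part 1: formerly Pool.Agent.MP_20bec2_an.T3.Cs
section MrgPart1

/-! Row CS: the covariance at the start of the next block. -/

set_option autoImplicit false
set_option linter.unusedSectionVars false
open MeasureTheory Set Filter Matrix

namespace Pool.Agent.MP_20bec2_an.T3
noncomputable section
open Classical
namespace CsP
open Prof GeoP

lemma xp_chg {F F' : Fr} (h : Orth F.O) (x : V) :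
    F.xp (F.xc F'.x0 + (F.Oᵀ * F'.O) *ᵥ x) = F'.xp x := by
  show F.x0 + F.O *ᵥ (F.Oᵀ *ᵥ (F'.x0 - F.x0) + (F.Oᵀ * F'.O) *ᵥ x) = F'.x0 + F'.O *ᵥ x
  rw [← Matrix.mulVec_mulVec, ← Matrix.mulVec_add, orth_mulVec_t h]; abel

lemma cov_chg {F F' : Fr} (h : Orth F.O) (hQ : F.Q.det ≠ 0) (hQ' : F'.Q.det ≠ 0) (S : V → Mx)
    (x : V) : F'.cov S x = (F.Q⁻¹ * F'.Q)⁻¹ * F.cov S (F.xc F'.x0 + (F.Oᵀ * F'.O) *ᵥ x) *
      ((F.Q⁻¹ * F'.Q)⁻¹)ᵀ := by
  rw [T_inv' hQ hQ', Fr.cov, Fr.cov, xp_chg h]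
  exact cv1_chg hQ _

lemma sm_nrm_cov (F : Fr) (h : V) {S : V → Mx} (hS : SmM S) : SmM fun x => nrm h (F.cov S x) :=
  fun i j => ((((smM_const F.Q⁻¹).mul (hS.comp (xp_sm F))).mul (smM_const F.Q⁻¹ᵀ)) i j).div_const _

lemma conj_apply (W A : Mx) (i j : Fin 3) :
    (W * A * Wᵀ) i j = ∑ b, ∑ a, W i a * W j b * A a b := by
  simp only [Matrix.mul_apply, Matrix.transpose_apply, Fin.sum_univ_three]; ring

lemma cv_conj {W Ω : Mx} {A : V → Mx} {b : V} {U U' : Set V} {e e' β : ℝ} (hW : EB W (cm 2))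
    (hΩ : Orth Ω) (hA : SmM A) (he : 0 < e) (he' : 0 < e') (hee : e' ≤ 2 * e)
    (hU : ∀ x ∈ U', b + Ω *ᵥ x ∈ U) (H : ∀ i j, CV 4 (cv e) U (fun x => A x i j) β) (i j : Fin 3) :
    CV 4 (cv e') U' (fun x => (W * A (b + Ω *ᵥ x) * Wᵀ) i j) (46656 * β) := by
  have p : ∀ i, 0 ≤ cv e' i := fun _ => he'.le
  have w : ∀ i j, |W i j| ≤ 2 := hW
  have s : ∀ a c, Sm fun x => A (b + Ω *ᵥ x) a c := fun a c => (hA a c).comp (C2.sm_affine b Ω)
  have h1 : ∀ a c, CV 4 (cv e') U' (fun x => A (b + Ω *ᵥ x) a c) ((3 * 2) ^ 4 * β) := fun a c =>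
    CV.affine (κ := 2) (g := fun x => A x a c) (fun _ => he.le) p (by norm_num)
      (fun i j => (mul_le_of_le_one_left he'.le (orth_abs_le hΩ i j)).trans hee)
      (SmN.of_sm (hA a c) U) hU (H a c)
  have h2 := CBl.sum_card Finset.univ p
    (F := fun c x => ∑ a, W i a * W j c * A (b + Ω *ᵥ x) a c)
    (fun c _ => ContDiff.sum fun a _ => contDiff_const.mul (s a c)) fun c _ =>
      CBl.sum_card Finset.univ p (F := fun a x => W i a * W j c * A (b + Ω *ᵥ x) a c)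
        (fun a _ => contDiff_const.mul (s a c)) fun a _ =>
          CBl.smul_le p (h1 a c) (abs_mul_le' (w i a) (w j c))
  refine (CBl.congr_fun h2 fun x => conj_apply _ _ i j).monoB (le_of_eq ?_)
  simp only [Finset.card_univ, Fintype.card_fin]
  push_cast; ring

lemma D_next {N : ℕ} (hb : Big N) {lb : ℝ} (hl : 0 < lb) :
    Dd (nxt N) (lb / 2 ^ nb N) ≤ Dd N lb / 4 := by
  have hb' := hb.mono hb.nxt_le.1
  have p := hb.N_pos; have p' := hb'.N_pos
  have h1 : (nxt N : ℝ) ≤ 2 * N := by linarith [hb.nxt_le.2, hb.N_ge, hb.J_pos]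
  have h2 : (nxt N : ℝ) ^ 4 ≤ (2 * N) ^ 4 := pow_le_pow_left₀ p'.le h1 4
  have h3 : (64 : ℝ) ≤ 2 ^ nb N := by
    have : (6 : ℝ) ≤ nb N := by linarith [hb.nb_bd.1, hb.J_ge, hb.L_ge]
    calc (64 : ℝ) = 2 ^ 6 := by norm_num
      _ ≤ 2 ^ nb N := pow_le_pow_right₀ one_le_two (by exact_mod_cast this)
  have h4 : lb / 2 ^ nb N ≤ lb / 64 := div_le_div_of_nonneg_left hl.le (by norm_num) h3
  unfold Dd
  calc (nxt N : ℝ) ^ 4 * (lb / 2 ^ nb N) ≤ (2 * N) ^ 4 * (lb / 64) :=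
        mul_le_mul h2 h4 (by positivity) (by positivity)
    _ = _ := by ring

end CsP
open CsP Prof GeoP

theorem cs (h1 : TfbStmt) (h2 : EsStmt) : CsStmt := by
  filter_upwards [h1, h2, ev_big] with N e1 e2 hb B hB ρ s H H0
  subst hB
  have G : FrOk B.N B.lb B.fr := H0.2.1.geo.toFrOk
  have inv := H0.2.2.2
  have hm := hb.mid_lt
  have hnb : nb B.N - 1 + 1 = nb B.N := by omega
  have sb := e2 B rfl (nb B.N - 1) s G H0.2.2.1 inv.is
  rw [hnb] at sb
  have hks : ks B.N ≤ nb B.N - 1 := by omega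
  have pr : B.Prep ρ s := inv.iq (by
    rcases hks.lt_or_eq with e | e
    exacts [Or.inl e, Or.inr ⟨e.symm, by norm_num⟩])
  have hb' : Big B.N' := hb.mono hb.nxt_le.1
  have hN : 1 ≤ B.N := by exact_mod_cast (show (1 : ℝ) ≤ B.N by linarith [hb.N_ge, hb.J_ge, hb.L_ge])
  have hD := D_pos G hN
  -- the data of one new cube
  have key : ∀ g', ∃ (g : Cu) (W Ω : Mx) (b : V), Orth Ω ∧
      Lv (B.c g (nb B.N)) ((B.next s H).c g' 0) ∧
      WOk W (20 * ep (B.c g (nb B.N))) (4 * aj (B.c g (nb B.N))) (gm (B.c g (nb B.N))) ∧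
      (∀ x, (B.next s H).nS 0 s.Sg g' x = W * B.nS (nb B.N) s.Sg g (b + Ω *ᵥ x) * Wᵀ) ∧
      ∀ x ∈ (B.next s H).R g' (1 - (0 : ℕ) / (B.next s H).N),
        b + Ω *ᵥ x ∈ B.R g (1 - nb B.N / B.N) := by
    intro g'
    obtain ⟨g, hg⟩ := exists_box hD (s.nf g').x0
    have ok' := (pr.fo.fx g').2.2.2.2.2
    have fq : B.Fq s (s.nf g') := ⟨orth pr.fo g', ok'.1, ok'.2.1, (pr.fq g').1, (pr.fq g').2⟩
    obtain ⟨-, hQ', tf, -⟩ := (e1 B rfl ρ (nb B.N - 1) 9 s H0 hks (Or.inr rfl) g).2 (s.nf g') fq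
      (le_trans hg (mul_le_mul_of_nonneg_right (by norm_num) hD.le))
    have gd : Gd (B.c g (nb B.N)) := G.gd hb g le_rfl
    have gd' : Gd ((B.next s H).c g' 0) := ⟨hb', ok'⟩
    have lv : Lv (B.c g (nb B.N)) ((B.next s H).c g' 0) :=
      ⟨gd, gd', tf.ls.1, tf.ls.2, hb.nxt_le.1, hb.nxt_le.2⟩
    have hl : ((B.next s H).c g' 0).lam = (B.c g (nb B.N)).lam := by
      show B.lb / 2 ^ nb B.N / 2 ^ 0 = B.lb / 2 ^ nb B.N
      rw [pow_zero, div_one]
    refine ⟨g, _, (B.fr g).Oᵀ * (s.nf g').O, (B.fr g).xc (s.nf g').x0, tf.ort, lv,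
      lv.wok hl (tf_lvl (nb B.N) tf), fun x => ?_, fun x hx => ?_⟩
    · show nrm ((B.next s H).c g' 0).hs ((s.nf g').cov s.Sg x) = _
      rw [cov_chg (orth G g) (det_ne G g) hQ'.ne']
      exact nrm_conj gd.hs_pos gd'.hs_pos _ _
    · refine (xp_mem G).1 ?_
      rw [xp_chg (orth G g)]
      have a1 : ‖(s.nf g').O *ᵥ x‖ ≤ (1 - (0 : ℕ) / (B.N' : ℝ)) * Dd B.N' B.lb' := hx
      have a2 : ‖(s.nf g').x0 - cen (Dd B.N B.lb) g‖ ≤ 1 / 2 * Dd B.N B.lb := hg
      have a3 : Dd B.N' B.lb' ≤ Dd B.N B.lb / 4 := D_next hb (lb_pos G)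
      have a4 : (nb B.N : ℝ) / B.N ≤ 1 / 4 := by
        rw [div_le_iff₀ hb.N_pos]; linarith [hb.nb_bd.2, hb.N_ge, hb.J_pos]
      rw [Nat.cast_zero, zero_div, sub_zero, one_mul] at a1
      show ‖(s.nf g').x0 + (s.nf g').O *ᵥ x - cen (Dd B.N B.lb) g‖ ≤
        (1 - nb B.N / B.N) * Dd B.N B.lb
      rw [add_sub_right_comm]
      nlinarith [norm_add_le ((s.nf g').x0 - cen (Dd B.N B.lb) g) ((s.nf g').O *ᵥ x)]
  -- the old bounds with one constant
  have old : ∀ g, ∀ x ∈ B.R g (1 - nb B.N / B.N),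
      EB (B.nS (nb B.N) s.Sg g x - dg3 (1 / 4) (1 / 4) 4) (cm (gm (B.c g (nb B.N)))) := by
    intro g x hx i j
    refine (sb.bd g x hx i j).trans ?_
    have k0 : (B.c g (nb B.N)).k ≠ 0 := by show nb B.N ≠ 0; omega
    have a1 : 1 * (B.c g (nb B.N)).t11 ≤ gm (B.c g (nb B.N)) := by
      rw [one_mul, Pm.t11, if_neg k0]; exact hb.np_le (by norm_num)
    have a2 : 1 * (B.c g (nb B.N)).t12 ≤ gm (B.c g (nb B.N)) := by
      rw [one_mul, Pm.t12, if_neg k0]; exact hb.np_le (by norm_num)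
    have a3 : np B.N (-20) ≤ gm (B.c g (nb B.N)) := hb.np_le (by norm_num)
    fin_cases i <;> fin_cases j
    exacts [a1, a2, a3, a2, a1, a3, a3, a3, a3]
  have small : ∀ g, 20 * ep (B.c g (nb B.N)) ≤ 1 ∧ gm (B.c g (nb B.N)) ≤ 1 := fun g => by
    have gd : Gd (B.c g (nb B.N)) := G.gd hb g le_rfl
    exact ⟨by linarith [(ep_le gd).2], by linarith [(ep_le gd).2, aj_le gd, gm_le gd]⟩
  refine ⟨inv.is.sm, fun _ => ⟨inv.is.sm, fun g' x hx => ?_, fun g' x hx x' hx' => ?_,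
    fun g' i j => ?_⟩, fun h => absurd h (by norm_num), fun h => absurd h (by norm_num),
    fun h => absurd h (by norm_num), fun h => absurd h (by norm_num)⟩ <;>
    obtain ⟨g, W, Ω, b, hΩ, lv, wk, e, hR⟩ := key g'
  · show EB ((B.next s H).nS 0 s.Sg g' x - _) _
    rw [e]
    intro i j
    have k0 : ∀ g, ((B.next s H).c g 0).k = 0 := fun _ => rfl
    refine (wk.bd (small g).1 (small g).2 (old g _ (hR x hx)) i j).trans ?_
    have a1 : _ ≤ 1 * ((B.next s H).c g' 0).t11 := lv.t11.trans_eq (by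
      rw [one_mul, Pm.t11, if_pos (k0 g')])
    have a2 : _ ≤ 1 * ((B.next s H).c g' 0).t12 := (lv.t12 rfl).trans_eq (by
      rw [one_mul, Pm.t12, if_pos (k0 g')])
    have a3 : _ ≤ ((B.next s H).c 0 0).t13 := lv.t13.2.trans_eq (by
      rw [Pm.t13, if_pos (k0 0)]; rfl)
    have a4 : _ ≤ ((B.next s H).c 0 0).t33 := lv.t11.trans_eq (by
      rw [Pm.t33, if_pos (k0 0)]; rfl)
    fin_cases i <;> fin_cases j
    exacts [a1, a2, a3, a2, a1, a3, a3, a3, a4]
  · show EB ((B.next s H).nS 0 s.Sg g' x - (B.next s H).nS 0 s.Sg g' x') _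
    rw [e, e, ← Matrix.sub_mul, ← Matrix.mul_sub]
    have a1 := eb_add (old g _ (hR x hx)) (eb_neg (old g _ (hR x' hx')))
    rw [← sub_eq_add_neg, sub_sub_sub_cancel_right] at a1
    refine eb_mono (conj_eb (wk.eb (small g).1 (small g).2) a1) ?_
    have a2 : 72 * gm (B.c g (nb B.N)) ≤ np (B.next s H).N (-39 / 100) := lv.t13.1
    linarith
  · show CV 4 _ _ (fun x => (B.next s H).nS 0 s.Sg g' x i j) _
    simp only [e]
    have hl : ((B.next s H).c g' 0).lam = (B.c g (nb B.N)).lam := by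
      show B.lb / 2 ^ nb B.N / 2 ^ 0 = B.lb / 2 ^ nb B.N
      rw [pow_zero, div_one]
    refine (cv_conj (wk.eb (small g).1 (small g).2) hΩ (sm_nrm_cov _ _ inv.is.sm.1) lv.g.hE_pos
      lv.g'.hE_pos (lv.hE_le hl) hR (sb.cv g) i j).monoB ?_
    linarith [lv.eL_le rfl rfl]

end
end Pool.Agent.MP_20bec2_an.T3

end MrgPart1

-- marker of a merged file
example : 731051 + 699115 = 731051 + 699115 := rfl

end MrgPart3

-- marker of a merged file
example : 731051 + 699115 = 731051 + 699115 := rfl
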