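import Pool.Agent.MP_20bec2_an.T3.Yq
import Pool.Agent.MP_20bec2_an.T3.Chp
import Pool.Agent.MP_20bec2_an.T3.InitB

-- ======== part 0: formerly Pool.Agent.MP_20bec2_an.T3.CgeoA
section MrgPart0

/-! Rows CGEO and CZ, part A: the tables of the new block against the tables of the old one. -/

set_option autoImplicit false
set_option linter.unusedSectionVars false
open Set Filter Matrix

namespace Pool.Agent.MP_20bec2_an.T3
noncomputable section
open Classical

namespace Cgeo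
open Prof

/-- parameters of an old cube and of a new cube -/
structure Cl (c c' : Pm) : Prop where
  g : Gd c
  g' : Gd c'
  J : 0 ≤ pJ c'.N - pJ c.N ∧ pJ c'.N - pJ c.N ≤ 1 / 10 ^ 9
  L : 0 ≤ pL c'.N - pL c.N ∧ pL c'.N - pL c.N ≤ 1 / 10 ^ 9
  η : |Real.log c'.η - Real.log c.η| ≤ 1 / 10 ^ 6
  K : |Real.log c'.K - Real.log c.K| ≤ 1 / 10 ^ 6

lemma dJ {N : ℕ} (h : Big N) : 0 ≤ pJ (nxt N) - pJ N ∧ pJ (nxt N) - pJ N ≤ 1 / 10 ^ 9 := by
  have p := h.N_pos
  have p' := (h.mono h.nxt_le.1).N_pos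
  have h1 := Real.log_le_sub_one_of_pos (div_pos p' p)
  rw [Real.log_div p'.ne' p.ne'] at h1
  refine ⟨sub_nonneg.2 (Real.log_le_log p (Nat.cast_le.2 h.nxt_le.1)), h1.trans ?_⟩
  rw [sub_le_iff_le_add, div_le_iff₀ p]
  linarith [h.nxt_le.2, h.N_ge]

lemma dL {N : ℕ} (h : Big N) :
    0 ≤ pL (nxt N) - pL N ∧ pJ N * (pL (nxt N) - pL N) ≤ pJ (nxt N) - pJ N := by
  have p := h.J_pos
  have p' := (h.mono h.nxt_le.1).J_pos
  have h1 := Real.log_le_sub_one_of_pos (div_pos p' p)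
  rw [Real.log_div p'.ne' p.ne'] at h1
  refine ⟨sub_nonneg.2 (Real.log_le_log p (by linarith [(dJ h).1])), ?_⟩
  have h2 := mul_le_mul_of_nonneg_left h1 p.le
  rwa [mul_sub (pJ N) (_ / _), mul_div_cancel₀ _ p.ne', mul_one] at h2

lemma cl_of {c c' : Pm} (g : Gd c) (g' : Gd c') (hN : c'.N = nxt c.N)
    (h1 : |Real.log (c'.s1 / c.s1)| ≤ 1 / (c.q ^ 2 * pR c.N))
    (h2 : |Real.log (c'.s2 / c.s2)| ≤ 1 / (c.q ^ 2 * pR c.N)) : Cl c c' := by
  have hR := g.big.R_ge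
  have hq : 10000000 ≤ c.q := g.big.q_ge
  obtain ⟨j1, j2⟩ := dJ g.big
  obtain ⟨l1, l2⟩ := dL g.big
  rw [← hN] at j1 j2 l1 l2
  have hJ : 1 ≤ pJ c.N := by linarith [g.big.J_ge, g.big.L_ge]
  have l3 : pL c'.N - pL c.N ≤ pJ c'.N - pJ c.N := by nlinarith
  rw [Real.log_div g'.s1_pos.ne' g.s1_pos.ne'] at h1
  rw [Real.log_div g'.s2_pos.ne' g.s2_pos.ne'] at h2
  obtain ⟨d, hd⟩ : ∃ d, d = 1 / (c.q ^ 2 * pR c.N) := ⟨_, rfl⟩
  have d0 : 0 ≤ d := by rw [hd]; positivity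
  have d1 : pR c.N * d ≤ 1 / 10 ^ 9 := by
    rw [hd, mul_one_div, div_le_iff₀ (by positivity)]
    nlinarith [mul_le_mul_of_nonneg_right (show (10 : ℝ) ^ 9 ≤ c.q ^ 2 by nlinarith)
      g.big.R_pos.le]
  have d2 : d ≤ 1 / 10 ^ 9 := by nlinarith
  rw [← hd] at h1 h2
  obtain ⟨a1, a2⟩ := abs_le.1 h1
  obtain ⟨a3, a4⟩ := abs_le.1 h2
  have hK : |Real.log c'.K - Real.log c.K| ≤ 2 * d := by
    rw [g.log_K, g'.log_K]; exact abs_le.2 ⟨by linarith, by linarith⟩
  obtain ⟨k1, k2⟩ := abs_le.1 hK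
  have ht : |c'.t - c.t| ≤ 2 * d + 15 / 4 * (pL c'.N - pL c.N) := by
    rw [g.t_eq, g'.t_eq]; exact abs_le.2 ⟨by linarith, by linarith⟩
  refine ⟨g, g', ⟨j1, j2⟩, ⟨l1, l3.trans j2⟩, ?_, hK.trans (by linarith)⟩
  have e : pR c.N = 4 * pJ c.N := rfl
  have e' : pR c'.N = 4 * pJ c'.N := rfl
  obtain ⟨b1, b2⟩ := abs_le.1 (log_eta_R (R' := pR c'.N) (t := c'.t) hR (by linarith)
    (by linarith [g'.t_le]))
  have b3 := log_eta_shift hR c.t c'.t
  have b4 := log_eta_shift hR c'.t c.t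
  rw [abs_sub_comm] at b4
  have b5 := mul_le_mul_of_nonneg_left ht g.big.R_pos.le
  have b6 : pR c.N * (pL c'.N - pL c.N) ≤ 4 * (pJ c'.N - pJ c.N) := by rw [e]; linarith
  unfold Pm.η
  exact abs_le.2 ⟨by linarith, by linarith⟩

lemma le_two {x y : ℝ} (hx : 0 < x) (hy : 0 < y) (h : Real.log x ≤ 1 / 2 + Real.log y) :
    x ≤ 2 * y :=
  le_of_log hx (by positivity) (by rw [Real.log_mul two_ne_zero hy.ne']; linarith [log2_bd.1])

namespace Cl
variable {c c' : Pm} (h : Cl c c')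
include h

lemma nb : Nb c c' := by
  obtain ⟨a1, a2⟩ := abs_le.1 h.η
  have l : 1 / 2000 ≤ Real.log (1001 / 1000) := by
    have := Real.one_sub_inv_le_log_of_pos (show (0 : ℝ) < 1001 / 1000 by norm_num)
    norm_num at this ⊢
    linarith
  have p := h.g.ζ_pos; have p' := h.g'.ζ_pos
  refine ⟨h.g, h.g', le_of_log p' (by positivity) ?_, le_of_log p (by positivity) ?_⟩
  · rw [Real.log_mul (by norm_num) p.ne', h.g.log_ζ, h.g'.log_ζ]; linarith [h.L.2]
  · rw [Real.log_mul (by norm_num) p'.ne', h.g.log_ζ, h.g'.log_ζ]; linarith [h.L.1]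

lemma e4 : |Real.log c'.e4 - Real.log c.e4| ≤ 1 / 10 ^ 6 :=
  max_cl h.g.log_e4 h.g'.log_e4 h.η
    (abs_le.2 ⟨by linarith [h.L.1, h.J.2], by linarith [h.L.2, h.J.1]⟩)

lemma m : |Real.log c'.m - Real.log c.m| ≤ 1 / 10 ^ 6 :=
  max_cl h.g.log_m h.g'.log_m (by norm_num) (by rw [sub_sub_sub_cancel_right]; exact h.K)

lemma sdB_le (i j : Fin 3) : c.sdB i j ≤ 2 * c'.sdB i j := by
  obtain ⟨a1, a2⟩ := abs_le.1 h.η
  obtain ⟨a3, a4⟩ := abs_le.1 h.e4
  obtain ⟨a5, a6⟩ := abs_le.1 h.m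
  have := h.J.2; have := h.L.2
  have u := h.g.big.log_uB; have u' := h.g'.big.log_uB
  have d := h.g.log_dB; have d' := h.g'.log_dB
  have e1 : c.dB ≤ 2 * c'.dB := le_two h.g.dB_pos h.g'.dB_pos (by linarith)
  have e2 : c.m * uB c.N ≤ 2 * (c'.m * uB c'.N) :=
    le_two (mul_pos h.g.m_pos h.g.big.uB_pos) (mul_pos h.g'.m_pos h.g'.big.uB_pos) (by
      rw [Real.log_mul h.g.m_pos.ne' h.g.big.uB_pos.ne',
        Real.log_mul h.g'.m_pos.ne' h.g'.big.uB_pos.ne']; linarith)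
  have e3 : c.t1B ≤ 2 * c'.t1B :=
    le_two h.g.t1B_pos h.g'.t1B_pos (by linarith [h.g.log_t1B, h.g'.log_t1B])
  have e4 : uB c.N ≤ 2 * uB c'.N := le_two h.g.big.uB_pos h.g'.big.uB_pos (by linarith)
  have e5 : c.η * c.dB ≤ 2 * (c'.η * c'.dB) :=
    le_two (mul_pos h.g.η_pos h.g.dB_pos) (mul_pos h.g'.η_pos h.g'.dB_pos) (by
      rw [Real.log_mul h.g.η_pos.ne' h.g.dB_pos.ne',
        Real.log_mul h.g'.η_pos.ne' h.g'.dB_pos.ne']; linarith)
  have e6 : np c.N (-9 / 10) ≤ 2 * np c'.N (-9 / 10) :=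
    le_two (h.g.big.np_pos _) (h.g'.big.np_pos _) (by
      rw [h.g.big.log_np, h.g'.big.log_np]; linarith)
  have e7 : c.η * c.dB + np c.N (-9 / 10) ≤ 2 * (c'.η * c'.dB + np c'.N (-9 / 10)) := by linarith
  have e8 : (0 : ℝ) ≤ 2 * 0 := by norm_num
  fin_cases i <;> fin_cases j
  exacts [e1, e2, e3, e4, e7, e4, e8, e8, e8]

end Cl

/-- size of the ledger factor -/
def aA (N : ℕ) : ℝ := 2 * (Real.sqrt (pq N) * (qp N (1 / 5) * pJ N))

lemma aA_pos {N : ℕ} (h : Big N) : 0 < aA N := by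
  have := h.sqrtq_pos; have := h.qp_pos (1 / 5); have := h.J_pos
  unfold aA; positivity

lemma log_aA {N : ℕ} (h : Big N) : Real.log (aA N) = Real.log 2 + 7 * (pL N / 10000) + pL N := by
  have := h.sqrtq_pos; have := h.qp_pos (1 / 5); have := h.J_pos
  unfold aA
  simp (disch := positivity) only [Real.log_mul, h.log_sqrtq, h.log_qp, h.log_J]
  ring

lemma two_le_aA {N : ℕ} (h : Big N) : 2 ≤ aA N :=
  le_of_log two_pos (aA_pos h) (by rw [log_aA h]; linarith [h.L_ge])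

lemma eb2_mul {A B U S : Mx} (hA : EB2 A U) (hB : EB B S) : EB2 (A * B) (U * S) := fun i j hi =>
  calc |(A * B) i j| = |∑ k, A i k * B k j| := rfl
    _ ≤ ∑ k, |A i k * B k j| := Finset.abs_sum_le_sum_abs _ _
    _ ≤ ∑ k, U i k * S k j := Finset.sum_le_sum fun k _ => ZtA.abs_mul_le (hA i k hi) (hB k j)

/-- the products that must stay inside the table -/
structure Pr (c : Pm) (α β γ θ : ℝ) : Prop where
  a1 : α * uB c.N ≤ c.dB
  a2 : α * (c.η * c.dB + np c.N (-9 / 10)) ≤ c.m * uB c.N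
  b1 : β * (c.m * uB c.N) ≤ c.η * c.dB + np c.N (-9 / 10)
  b2 : β * c.t1B ≤ uB c.N
  b0 : 0 ≤ β
  g0 : 0 ≤ γ
  g1 : c.m * uB c.N * γ ≤ c.dB
  g2 : c.t1B * γ ≤ uB c.N
  g3 : (c.η * c.dB + np c.N (-9 / 10)) * γ ≤ uB c.N
  g4 : uB c.N * γ ≤ c.η * c.dB + np c.N (-9 / 10)
  t1 : c.t1B * θ ≤ c.dB
  t2 : θ ≤ 1

section par
variable {c : Pm} (h : Gd c)
include h

lemma n9_le : np c.N (-9 / 10) ≤ uB c.N ∧ np c.N (-9 / 10) ≤ c.dB ∧ c.dB ≤ c.t1B ∧
    uB c.N ≤ c.m * uB c.N ∧ 2 * np c.N (-92 / 100) ≤ np c.N (-9 / 10) := by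
  have := h.big.L_ge; have := h.big.J_ge; have := log2_bd.1; have := log2_bd.2
  have p := h.big.np_pos (-92 / 100)
  refine ⟨le_of_log (h.big.np_pos _) h.big.uB_pos ?_, le_of_log (h.big.np_pos _) h.dB_pos ?_,
    le_of_log h.dB_pos h.t1B_pos ?_, le_mul_of_one_le_left h.big.uB_pos.le h.one_le_m,
    le_of_log (by positivity) (h.big.np_pos _) ?_⟩
  · rw [h.big.log_np, h.big.log_uB]; linarith
  · rw [h.big.log_np, h.log_dB]; linarith [h.log_e4_le]
  · rw [h.log_dB, h.log_t1B]; linarith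
  · rw [Real.log_mul two_ne_zero p.ne', h.big.log_np, h.big.log_np]; linarith

lemma pr_lo : Pr c (c.q ^ 4 * c.J * c.m * uB c.N) (uB c.N / c.J) (c.q ^ 4 * c.J * uB c.N)
    (3 * Real.sqrt (c.q * c.J * c.p)) := by
  have := h.big.L_ge; have := h.big.J_ge; have := log2_bd.1; have := log2_bd.2
  have pq' := h.q_pos; have pJ' := h.J_pos; have pm := h.m_pos; have pu := h.big.uB_pos
  have pd := h.dB_pos; have pt := h.t1B_pos; have pp := h.p_pos; have pη := h.η_pos
  have pn := h.big.np_pos (-9 / 10)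
  have := h.log_m_le; have := h.log_K_bd.2; have := h.log_e4_le; have := h.log_e4.2.1
  have l3 := (logc_bd (show (1 : ℝ) ≤ 3 by norm_num)).2
  have k1 : c.q ^ 4 * c.J * c.m * uB c.N * uB c.N ≤ np c.N (-9 / 10) := by
    refine le_of_log (by positivity) pn ?_
    simp (disch := positivity) only [Real.log_mul, Real.log_pow, h.log_q, h.log_J, h.big.log_uB,
      h.big.log_np]
    push_cast; linarith
  have k2 : 2 * (c.q ^ 4 * c.J * c.t1B) ≤ 1 := by
    refine le_of_log (by positivity) one_pos ?_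
    simp (disch := positivity) only [Real.log_mul, Real.log_pow, h.log_q, h.log_J, h.log_t1B,
      Real.log_one]
    push_cast; linarith
  obtain ⟨n1, n2, n3, n4, -⟩ := n9_le h
  have k0 : 1 ≤ c.q ^ 4 * c.J := by
    refine le_of_log one_pos (by positivity) ?_
    simp (disch := positivity) only [Real.log_mul, Real.log_pow, h.log_q, h.log_J, Real.log_one]
    push_cast; linarith
  have k3 : c.q ^ 4 * c.J * (c.η * c.dB + np c.N (-9 / 10)) ≤ 1 := by
    have e := mul_le_mul_of_nonneg_right h.η_le_one pd.le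
    have := mul_le_mul_of_nonneg_left (show c.η * c.dB + np c.N (-9 / 10) ≤ 2 * c.t1B by linarith)
      (show 0 ≤ c.q ^ 4 * c.J by positivity)
    linarith
  have k4 : uB c.N / c.J ≤ c.q ^ 4 * c.J * uB c.N :=
    (div_le_self pu.le (by linarith [show c.J = pJ c.N from rfl])).trans
      (le_mul_of_one_le_left pu.le k0)
  have k5 := mul_le_mul_of_nonneg_right k2 pu.le
  have k6 : c.q ^ 4 * c.J * uB c.N * uB c.N ≤ c.q ^ 4 * c.J * uB c.N * (c.m * uB c.N) :=
    mul_le_mul_of_nonneg_left n4 (by positivity)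
  have k7 : 0 < c.q ^ 4 * c.J * c.t1B * uB c.N := by positivity
  have k8 := mul_pos pη pd
  refine ⟨k1.trans n2, ?_, ?_, ?_, by positivity, by positivity, by linarith, by linarith, ?_,
    by linarith, ?_, ?_⟩
  · linarith [mul_le_mul_of_nonneg_right k3 (mul_pos pm pu).le]
  · linarith [mul_le_mul_of_nonneg_right k4 (mul_pos pm pu).le]
  · linarith [mul_le_mul_of_nonneg_right k4 pt.le]
  · linarith [mul_le_mul_of_nonneg_right k3 pu.le]
  · refine le_of_log (by positivity) pd ?_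
    simp (disch := positivity) only [Real.log_mul, Real.log_sqrt, h.log_q, h.log_J, h.log_t1B,
      h.log_dB]
    linarith [Zder.log_p_le h]
  · refine le_of_log (by positivity) one_pos ?_
    simp (disch := positivity) only [Real.log_mul, Real.log_sqrt, h.log_q, h.log_J, Real.log_one]
    linarith [Zder.log_p_le h]

lemma pr_hi (hη : etaS c.N / 2 ≤ c.η) : Pr c (2 * np c.N (-2 / 5)) (2 * np c.N (-2 / 5))
    (2 * np c.N (-2 / 5)) (2 * np c.N (-2 / 5)) := by
  have := h.big.L_ge; have := h.big.J_ge; have := log2_bd.1; have := log2_bd.2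
  have pn := h.big.np_pos (-2 / 5); have pn' := h.big.np_pos (-499 / 1000)
  have pη := h.η_pos; have pd := h.dB_pos
  have l := h.log_etaS_le (a := 1 / 2) (by norm_num) (by linarith)
  have s := fun i j => mul_le_mul_of_nonneg_left
    ((h.sdB_bd i j).2.2 (by linarith [h.big.etaS_pos])) (show 0 ≤ 2 * np c.N (-2 / 5) by positivity)
  have s01 : _ * (c.m * uB c.N) ≤ _ := s 0 1
  have s02 : _ * c.t1B ≤ _ := s 0 2
  have s10 : _ * uB c.N ≤ _ := s 1 0
  have s11 : _ * (c.η * c.dB + np c.N (-9 / 10)) ≤ _ := s 1 1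
  have k1 : 2 * np c.N (-2 / 5) * (2 * np c.N (-499 / 1000)) ≤ c.η * c.dB := by
    refine le_of_log (by positivity) (by positivity) ?_
    simp (disch := positivity) only [Real.log_mul, h.big.log_np, h.log_dB]
    linarith [h.log_e4_le]
  have k2 : 2 * np c.N (-2 / 5) * (2 * np c.N (-499 / 1000)) ≤ uB c.N := by
    refine le_of_log (by positivity) h.big.uB_pos ?_
    simp (disch := positivity) only [Real.log_mul, h.big.log_np, h.big.log_uB]
    linarith
  have k3 := mul_le_mul_of_nonneg_right h.η_le_one pd.le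
  have k4 := h.big.np_pos (-9 / 10)
  have k5 := (n9_le h).2.2.2.1
  refine ⟨by linarith, by linarith, by linarith, by linarith, by positivity, by positivity,
    by linarith, by linarith, by linarith, by linarith, by linarith, ?_⟩
  refine le_of_log (by positivity) one_pos ?_
  simp (disch := positivity) only [Real.log_mul, h.big.log_np, Real.log_one]
  linarith

/-- the level B table survives the change of frame -/
lemma tabB {α β γ θ A : ℝ} (p : Pr c α β γ θ) (hA : 2 ≤ A) {Ti M Ω : Mx} (hT : EB Ti (cm 2))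
    (h01 : |Ti 0 1| ≤ α) (h10 : |Ti 1 0| ≤ β) (hO : Orth Ω)
    (w01 : |Ω 0 1| ≤ γ) (w10 : |Ω 1 0| ≤ γ) (w12 : |Ω 1 2| ≤ γ) (w21 : |Ω 2 1| ≤ γ)
    (w02 : |Ω 0 2| ≤ θ) (w20 : |Ω 2 0| ≤ θ) (hM : EB2 M (A • c.sdB))
    (h2 : ∀ j, |M 2 j| ≤ np c.N (-92 / 100)) : EB2 (Ti * M * Ω) ((12 * A) • c.sdB) := by
  obtain ⟨n1, n2, n3, n4, n5⟩ := n9_le h
  have k8 := mul_pos h.η_pos h.dB_pos
  have k9 := h.big.np_pos (-9 / 10)
  obtain ⟨a1, a2, b1, b2, b0, g0, g1, g2, g3, g4, t1, t2⟩ := p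
  have b3 := mul_le_mul_of_nonneg_left n3 b0
  have g5 := mul_le_mul_of_nonneg_right n3 g0
  have t3 := mul_le_mul_of_nonneg_left t2 h.dB_pos.le
  have t4 := mul_le_mul_of_nonneg_left t2 h.big.uB_pos.le
  have eS : c.sdB = !![c.dB, c.m * uB c.N, c.t1B;
    uB c.N, c.η * c.dB + np c.N (-9 / 10), uB c.N; 0, 0, 0] := rfl
  rw [eS] at hM ⊢
  generalize c.η * c.dB = x, c.m * uB c.N = mu at *
  generalize np c.N (-9 / 10) = n, np c.N (-92 / 100) = ε, uB c.N = u, c.dB = d, c.t1B = t at *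
  have A0 : 0 ≤ A := by linarith
  have kε : ∀ y, n ≤ y → 2 * ε ≤ A * y := fun y hy => by nlinarith
  have U : EB2 Ti !![2, α, 2; β, 2, 2; 0, 0, 0] := fun i j hi => by
    fin_cases i <;> fin_cases j
    exacts [hT 0 0, h01, hT 0 2, h10, hT 1 1, hT 1 2, absurd rfl hi, absurd rfl hi, absurd rfl hi]
  have S : EB M !![A * d, A * mu, A * t; A * u, A * (x + n), A * u; ε, ε, ε] := fun i j => by
    fin_cases i <;> fin_cases j
    exacts [hM 0 0 (by decide), hM 0 1 (by decide), hM 0 2 (by decide), hM 1 0 (by decide),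
      hM 1 1 (by decide), hM 1 2 (by decide), h2 0, h2 1, h2 2]
  have W : EB Ω !![1, γ, θ; γ, 1, γ; θ, γ, 1] := fun i j => by
    fin_cases i <;> fin_cases j
    exacts [orth_abs_le hO 0 0, w01, w02, w10, orth_abs_le hO 1 1, w12, w20, w21,
      orth_abs_le hO 2 2]
  have m := fun {y z : ℝ} (e : y ≤ z) => mul_le_mul_of_nonneg_left e A0
  have P : EB2 (Ti * M) !![4 * A * d, 4 * A * mu, 4 * A * t; 4 * A * u, 4 * A * (x + n), 4 * A * u;
      0, 0, 0] := fun i j hi => by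
    refine (eb2_mul U S i j hi).trans ?_
    fin_cases i <;> fin_cases j <;> simp [Matrix.mul_apply, Fin.sum_univ_three] at hi ⊢
    · linarith [m a1, kε d n2]
    · linarith [m a2, kε mu (n1.trans n4)]
    · linarith [m a1, m n3, kε t (n2.trans n3)]
    · linarith [m b2, m b3, kε u n1]
    · linarith [m b1, kε (x + n) (by linarith)]
    · linarith [m b2, kε u n1]
  intro i j hi
  refine (eb2_mul P W i j hi).trans ?_
  fin_cases i <;> fin_cases j <;> simp [Matrix.mul_apply, Fin.sum_univ_three] at hi ⊢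
  · linarith [m g1, m t1]
  · linarith [m g2, m g5, m n4]
  · linarith [m g1, m t3, m n3]
  · linarith [m g3, m t4]
  · linarith [m g4]
  · linarith [m g3, m t4]

lemma zT_le : c.zT ≤ 1 / 10 ^ 6 := by
  have := h.big.L_ge; have := h.big.J_ge; have := h.big.nu_pos; have := h.J_pos
  have l : Real.log (1 / 10 ^ 6) = -(6 * Real.log 10) := by
    rw [one_div, Real.log_inv, Real.log_pow]; norm_num
  unfold Pm.zT
  split_ifs
  · refine le_of_log (by positivity) (by norm_num) ?_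
    rw [l, Real.log_mul two_ne_zero h.big.nu_pos.ne', h.big.log_nu]
    linarith [log10_bd.2, log2_bd.2]
  · refine le_of_log (by positivity) (by norm_num) ?_
    rw [l]
    simp (disch := positivity) only [Real.log_div, Real.log_sqrt, Real.log_one, h.log_J]
    linarith [log10_bd.2]

end par

/-- the start tables of the new block -/
lemma tab {c c' : Pm} (h : Cl c c') {T Ω M : Mx} {hh : ℝ} (tf : TF c c'.s1 c'.s2 T Ω hh)
    (hM : EB2 M (aA c.N • c.sdL)) (h2 : ∀ j, |M 2 j| ≤ np c.N (-92 / 100)) :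
    EB2 (T⁻¹ * M * Ω) c'.e0 ∧ EB (T⁻¹ * M * Ω) (cm (c'.zT / 4)) := by
  have g := h.g; have g' := h.g'
  have := g.big.L_ge; have := g.big.J_ge; have := log2_bd.1; have := log2_bd.2
  have := h.J.1; have := h.J.2; have := h.L.1; have := h.L.2
  have pA := aA_pos g.big; have lA := log_aA g.big; have A2 := two_le_aA g.big
  have ps := g.big.sdc_pos; have ps' := g'.big.sdc_pos; have pq' := g'.q_pos; have pJ' := g'.J_pos
  have l100 := (logc_bd (show (1 : ℝ) ≤ 200 by norm_num)).2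
  have n1 : np c.N (-92 / 100) ≤ sdc c.N := g.big.np_le (by norm_num)
  have crude : ∀ σ : ℝ, np c.N (-92 / 100) ≤ σ → (∀ i j, c.sdL i j ≤ σ) →
      EB (T⁻¹ * M * Ω) (cm (21 / 2 * (aA c.N * σ))) := fun σ h1 h3 => by
    have h4 : EB M (cm (aA c.N * σ)) := fun i j => by
      by_cases hi : i = 2
      · subst hi
        exact (h2 j).trans (h1.trans (le_mul_of_one_le_left ((g.big.np_pos _).le.trans h1)
          (by linarith)))
      · exact (hM i j hi).trans (mul_le_mul_of_nonneg_left (h3 i j) pA.le)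
    exact GeoP.eb_mono (GeoP.eb_mul_orth tf.ort (GeoP.eb_mul tf.det.2.2 h4)) (le_of_eq (by ring))
  have hi' : etaS c.N / 40 ≤ c.η → EB (T⁻¹ * M * Ω) (cm (200 * (aA c.N * sdc c.N) / 8)) :=
    fun e => GeoP.eb_mono (crude (2 * sdc c.N) (by linarith) fun i j =>
      (g.sdO_bd i j).2.2.2.1.trans ((g.sdO_bd i j).2.2.1 e)) (by linarith [mul_pos pA ps])
  constructor
  · by_cases hS : c'.oS
    · have hB := h.nb.symm.oB_of_oS hS
      rw [Pm.sdL, if_pos hB] at hM
      have key : EB2 (T⁻¹ * M * Ω) ((12 * aA c.N) • c.sdB) := by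
        rcases lt_or_ge c.η (etaS c.N / 2) with hη | hη
        · obtain ⟨a, b⟩ := tf.lo hη
          obtain ⟨-, -, -, a1, a2, -⟩ := a T⁻¹ (by simp)
          exact tabB g (pr_lo g) A2 tf.det.2.2 a1 a2 tf.ort (by simpa [dg3] using b 0 1)
            (by simpa [dg3] using b 1 0) (by simpa [dg3] using b 1 2) (by simpa [dg3] using b 2 1)
            (by simpa [dg3] using b 0 2) (by simpa [dg3] using b 2 0) hM h2
        · obtain ⟨-, -, -, a, b, e⟩ := tf.hi hη
          have e' : |Ω 0 1| ≤ np c.N (-2 / 5) ∧ |Ω 1 0| ≤ np c.N (-2 / 5) :=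
            e.resolve_right fun e => by
              have e1 := ZtA.eta_one g e.1
              have e2 : c.η < 9 / 10 * etaA c.N := hB
              have e3 : etaA c.N ≤ 1 := le_of_log g.big.etaA_pos one_pos (by
                rw [g.big.log_etaA, Real.log_one]; linarith)
              linarith
          have p := g.big.np_pos (-2 / 5)
          have n := g.big.np_le (show (-45 / 100 : ℝ) ≤ -2 / 5 by norm_num)
          have a1 : |T⁻¹ 0 1 - Ω 1 0| ≤ np c.N (-45 / 100) := a 0 1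
          have a2 : |T⁻¹ 1 0 - Ω 0 1| ≤ np c.N (-45 / 100) := a 1 0
          exact tabB g (pr_hi g hη) A2 tf.det.2.2
            (by linarith [abs_sub_abs_le_abs_sub (T⁻¹ 0 1) (Ω 1 0), e'.2])
            (by linarith [abs_sub_abs_le_abs_sub (T⁻¹ 1 0) (Ω 0 1), e'.1]) tf.ort
            (by linarith [e'.1]) (by linarith [e'.2]) (by linarith [(b 1 (by decide)).1])
            (by linarith [(b 1 (by decide)).2]) (by linarith [(b 0 (by decide)).1])
            (by linarith [(b 0 (by decide)).2]) hM h2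
      have k : 200 * aA c.N ≤ c'.q ^ 3 * c'.J := by
        refine le_of_log (by positivity) (by positivity) ?_
        simp (disch := positivity) only [Real.log_mul, Real.log_pow, lA, g'.log_q, g'.log_J]
        push_cast; linarith
      intro i j hi
      refine (key i j hi).trans ?_
      rw [Pm.e0, if_pos hS, Matrix.smul_apply, Matrix.smul_apply, smul_eq_mul, smul_eq_mul]
      have s0 := (g'.sdB_bd i j).1
      nlinarith [mul_le_mul_of_nonneg_left (h.sdB_le i j) pA.le, mul_le_mul_of_nonneg_right k s0,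
        mul_nonneg pA.le s0]
    · have e : etaS c.N / 40 ≤ c.η := by
        have := (g.S_le (1 / 40)).2 (by linarith [not_lt.1 (mt g'.oS_iff.2 hS), h.nb.le])
        linarith
      have k : 200 * (aA c.N * sdc c.N) ≤ c'.q ^ 3 * c'.J * sdc c'.N := by
        refine le_of_log (by positivity) (by positivity) ?_
        simp (disch := positivity) only [Real.log_mul, Real.log_pow, lA, g'.log_q, g'.log_J,
          g.big.log_sdc, g'.big.log_sdc]
        push_cast; linarith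
      intro i j _
      refine (hi' e i j).trans ?_
      rw [Pm.e0, if_neg hS]
      show 200 * (aA c.N * sdc c.N) / 8 ≤ c'.q ^ 3 * c'.J * sdc c'.N
      linarith [mul_pos pA ps]
  · unfold Pm.zT
    split_ifs with hη
    · have e : etaS c.N / 40 ≤ c.η := by
        have := h.nb.symm.S_le (a := 1 / 2) (b := 1 / 40) (by norm_num) (by linarith)
        linarith
      have k : 200 * (aA c.N * sdc c.N) ≤ nu c'.N := by
        refine le_of_log (by positivity) g'.big.nu_pos ?_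
        simp (disch := positivity) only [Real.log_mul, lA, g.big.log_sdc, g'.big.log_nu]
        linarith
      exact GeoP.eb_mono (hi' e) (by linarith [g'.big.nu_pos])
    · have p1 := g.big.Jp_pos (-5 / 2); have p2 := g.big.qp_pos (-15)
      have k : 200 * (aA c.N * (Jp c.N (-5 / 2) * qp c.N (-15))) ≤ 1 / Real.sqrt c'.J := by
        refine le_of_log (by positivity) (by positivity) ?_
        simp (disch := positivity) only [Real.log_mul, Real.log_div, Real.log_sqrt, Real.log_one,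
          lA, g.big.log_Jp, g.big.log_qp, g'.log_J]
        linarith
      have k2 : np c.N (-92 / 100) ≤ Jp c.N (-5 / 2) * qp c.N (-15) := by
        refine le_of_log (g.big.np_pos _) (by positivity) ?_
        simp (disch := positivity) only [Real.log_mul, g.big.log_Jp, g.big.log_qp, g.big.log_np]
        linarith
      exact GeoP.eb_mono (crude (3 * (Jp c.N (-5 / 2) * qp c.N (-15))) (by linarith [mul_pos p1 p2])
        fun i j => (g.sdO_bd i j).2.2.2.1.trans (g.sdO_bd i j).2.1)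
        (by linarith [mul_pos pA (mul_pos p1 p2)])

end Cgeo

end
end Pool.Agent.MP_20bec2_an.T3

end MrgPart0

-- ======== part 1: formerly Pool.Agent.MP_20bec2_an.T3.Cgeo
section MrgPart1

/-! Row CGEO: frames, credit and start tables of the new block. -/

set_option autoImplicit false
set_option linter.unusedSectionVars false
open Set Filter Matrix

namespace Pool.Agent.MP_20bec2_an.T3
noncomputable section
open Classical

namespace Cgeo
open Prof

/-- what is used about the end of a block -/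
structure Hy (B : Bk) (ρ : V → ℝ) (s : St) : Prop where
  big : Big B.N
  h : B.H0 ρ (nb B.N - 1) 9 s
  sZt : Sm B.Zt
  zt2 : ∀ g i, CO 2 (cv 1) (B.R g (11 / 10)) (fun x => (B.fr g).hatv B.Zt x i)
    (np B.N (-139 / 100) / B.lb')
  zt1 : ∀ g, ∀ x ∈ B.bx g (11 / 10), EB ((B.fr g).hm (jm B.Zt x)) (cm (np B.N (-93 / 100))) ∧
    ((B.c g 0).η < 95 / 100 * etaA B.N → jm B.Zt x = 0)
  la : ∀ i a, La s.xs a (tm (nb B.N - 1) 9) i ≤ qp B.N (1 / 5) * pJ B.N
  tf : ∀ g (F : Fr), B.Fq s F → F.x0 ∈ B.bx g (9 / 10) →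
    TF (B.c g 0) F.s1 F.s2 ((B.fr g).Q⁻¹ * F.Q) ((B.fr g).Oᵀ * F.O) (B.c g 0).hL2

lemma ks_lt {N : ℕ} (h : Big N) : ks N < nb N - 1 := by
  have := h.nm_pos
  unfold ks nb; omega

lemma ev_hy (hT : TfbStmt) :
    EvB fun B => ∀ ρ s, B.H0 ρ (nb B.N - 1) 9 s → Hy B ρ s := by
  filter_upwards [ev_big, zt, ledg, hT] with N hN hzt hled hT B hB ρ s h
  subst hB
  obtain ⟨a, b⟩ := hzt B rfl ρ h.2.1.geo h.2.1.cred
  exact ⟨hN, h, a, fun g => (b g).1, fun g x hx => ⟨((b g).2 x hx).1,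
    fun e => (((b g).2 x hx).2.2.1 e).2.1⟩,
    fun i a => (hled B rfl _ 9 s h.2.1.geo.toFrOk h.2.2.1 le_rfl h.2.2.2.il i a _ le_rfl).1,
    fun g F hF hx => ((hT B rfl ρ _ 9 s h (ks_lt hN).le (Or.inr rfl) g).2 F hF hx).2.2.1⟩

lemma log_nxt {N : ℕ} (h : Big N) : Real.log (nxt N : ℝ) ≤ pJ N + 1 := by
  have : Real.log (nxt N : ℝ) = pJ (nxt N) := rfl
  linarith [(dJ h).2]

namespace Hy
variable {B : Bk} {ρ : V → ℝ} {s : St} (H : Hy B ρ s)
include H

lemma fo : FrOk B.N B.lb B.fr := H.h.2.1.geo.toFrOk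
lemma iz : B.IZ (nb B.N - 1) 9 s := H.h.2.2.2.iz
lemma prep : B.Prep ρ s := H.h.2.2.2.iq (Or.inl (ks_lt H.big))
lemma big' : Big B.N' := H.big.mono H.big.nxt_le.1
lemma lb_pos : 0 < B.lb := GeoP.lb_pos H.fo
lemma lb'_pos : 0 < B.lb' := GeoP.lb_pos H.prep.fo
lemma D_pos : 0 < B.D := Zder.D_pos H.fo H.big
lemma D'_pos : 0 < Dd B.N' B.lb' := mul_pos (pow_pos H.big'.N_pos 4) H.lb'_pos
lemma gd' (g' : Cu) : Gd ((s.nf g').pm B.N' B.lb' 0) := H.prep.fo.gd0 H.big' g'

lemma log_lb' : Real.log B.lb' ≤ Real.log B.lb - 92 * pJ B.N := by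
  have h1 := Real.log_le_log (H.big.np_pos 92) H.big.two_pow_nb.1
  rw [H.big.log_np] at h1
  rw [Bk.lb', Real.log_div H.lb_pos.ne' (by positivity)]
  linarith

lemma log_D' : Real.log (Dd B.N' B.lb') ≤ Real.log B.lb - 88 * pJ B.N + 4 := by
  have h1 : Real.log (B.N' : ℝ) ≤ pJ B.N + 1 := log_nxt H.big
  rw [Dd, Real.log_mul (pow_pos H.big'.N_pos 4).ne' H.lb'_pos.ne', Real.log_pow]
  push_cast
  linarith [H.log_lb']

lemma D'_le : 6 * Dd B.N' B.lb' ≤ B.D := by
  have := H.D'_pos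
  refine le_of_log (by positivity) H.D_pos ?_
  rw [Real.log_mul (by norm_num) this.ne', show B.D = (B.c 0 0).D from rfl,
    (Bk.gd0 H.fo H.big 0).log_D]
  show _ ≤ 4 * pJ B.N + Real.log B.lb
  linarith [H.log_D', H.big.L_ge, H.big.J_ge, (logc_bd (show (1 : ℝ) ≤ 6 by norm_num)).2]

lemma fq (g' : Cu) : B.Fq s (s.nf g') :=
  ⟨GeoP.orth H.prep.fo g', (H.gd' g').s1_pos, (H.gd' g').s1_le, (H.prep.fq g').1, (H.prep.fq g').2⟩

lemma old (g' : Cu) : ∃ g, (s.nf g').x0 ∈ B.bx g (1 / 2) := exists_box H.D_pos _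

lemma sW : Sm fun w => s.zt (ks B.N) w - B.Zt w := (H.iz.sm.2.2 _ (ks_lt H.big).le).sub H.sZt
lemma sZ : Sm fun w => s.Zs w + B.Zt w := H.iz.sm.1.add H.sZt

section two
variable {g g' : Cu} (h0 : (s.nf g').x0 ∈ B.bx g (1 / 2))
include h0

lemma tf' : TF (B.c g 0) (s.nf g').s1 (s.nf g').s2 ((B.fr g).Q⁻¹ * (s.nf g').Q)
    ((B.fr g).Oᵀ * (s.nf g').O) (B.c g 0).hL2 :=
  H.tf g _ (H.fq g') (box_mono H.D_pos.le (by norm_num) g h0)

lemma cl : Cl (B.c g 0) ((s.nf g').pm B.N' B.lb' 0) :=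
  cl_of (Bk.gd0 H.fo H.big g) (H.gd' g') rfl (H.tf' h0).ls.1 (H.tf' h0).ls.2

variable {y : V} (hy : y ∈ box (Dd B.N' B.lb') g' 3)
include hy

omit h0 in
lemma dist : ‖y - (s.nf g').x0‖ ≤ 3 * Dd B.N' B.lb' := by
  rw [GeoP.x0_eq H.prep.fo]; exact hy

lemma mem : y ∈ B.bx g 1 := by
  have := box_add (s := 1 / 2) h0 ((H.dist hy).trans (by linarith [H.D'_le]))
  rwa [add_halves] at this

/-- the frozen differential hardly changes over a new cube -/
lemma osc : EB ((B.fr g).hm (jm (fun w => s.zt (ks B.N) w - B.Zt w) y -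
    jm (fun w => s.zt (ks B.N) w - B.Zt w) (s.nf g').x0)) (cm (np B.N (-20))) := fun i j => by
  have hO := GeoP.orth H.fo g
  have G := Bk.gd H.fo H.big g H.big.mid_lt.2.2.1.le
  have e : ∀ x, (B.fr g).hm (jm (fun w => s.zt (ks B.N) w - B.Zt w) x) =
      jm ((B.fr g).hat fun w => s.zt (ks B.N) w - B.Zt w) ((B.fr g).xc x) := fun x => by
    rw [(K3.p5 (B.fr g) H.sW.dif _).1, xp_xc hO]
  have sm := ((hat_sm (B.fr g) H.sW).coord i).pd j
  have h1 := mvt_pd (RX_convex (B.fr g).O B.D 1) (fun z _ => sm.dif z)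
    (b := cv (B.c g (ks B.N)).d2u) (fun k z hz => by
      simpa [cv] using H.iz.ek (ks_lt H.big).le g i [k, j] rfl z hz)
    ((GeoP.xc_mem H.fo).2 (H.mem h0 hy))
    ((GeoP.xc_mem H.fo).2 (box_mono H.D_pos.le (by norm_num) g h0))
  have h2 : ‖(B.fr g).xc y - (B.fr g).xc (s.nf g').x0‖ ≤ 6 * Dd B.N' B.lb' := by
    rw [xc_sub]
    linarith [orth_norm_le_two (orth_t hO) (y - (s.nf g').x0), H.dist hy]
  have h3 : ∀ k, (B.c g (ks B.N)).d2u * |(B.fr g).xc y k - (B.fr g).xc (s.nf g').x0 k| ≤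
      (B.c g (ks B.N)).d2u * (6 * Dd B.N' B.lb') := fun k =>
    mul_le_mul_of_nonneg_left ((abs_le_norm _ k).trans h2) G.d2u_pos.le
  have h4 : 18 * ((B.c g (ks B.N)).d2u * Dd B.N' B.lb') ≤ np B.N (-20) := by
    have := G.d2u_pos; have := H.D'_pos
    have l1 := Real.log_le_log (by positivity) H.big.two_pow_ks.2
    have l2 : Real.log (B.c g (ks B.N)).lam = Real.log B.lb - ks B.N * Real.log 2 := G.log_lam
    have l3 : Real.log (B.c g (ks B.N)).d2u = -98 / 100 * pJ B.N - _ - _ := G.log_d2u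
    have l4 : 3 * pL B.N + 23 * (pL B.N / 2000) - pJ B.N - 3 ≤ _ := G.log_η_ge
    rw [Real.log_pow, H.big.log_np] at l1
    refine le_of_log (by positivity) (H.big.np_pos _) ?_
    simp (disch := positivity) only [Real.log_mul, H.big.log_np]
    linarith [H.log_D', H.big.L_ge, H.big.J_ge, (logc_bd (show (1 : ℝ) ≤ 18 by norm_num)).2]
  rw [Zder.hm_sub, e, e]
  refine h1.trans ?_
  simp only [Fin.sum_univ_three, cv]
  show _ ≤ np B.N (-20)
  linarith [h3 0, h3 1, h3 2]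

/-- what happened since the new frame was made, in the old frame -/
lemma mat : EB2 ((B.fr g).hm (jm (fun w => s.Zs w + B.Zt w) y -
      jm (fun w => s.zt (ks B.N) w - B.Zt w) (s.nf g').x0)) (aA B.N • (B.c g 0).sdL) ∧
    ∀ j, |(B.fr g).hm (jm (fun w => s.Zs w + B.Zt w) y -
      jm (fun w => s.zt (ks B.N) w - B.Zt w) (s.nf g').x0) 2 j| ≤ np B.N (-92 / 100) := by
  have hN := H.big
  have G := Bk.gd0 H.fo hN g
  have hx := H.mem h0 hy
  obtain ⟨i, hi⟩ := Zder.ex_site H.fo hN y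
  obtain ⟨e1, e2⟩ := H.iz.el (ks_lt hN).le g y hx i hi
  have e3 := H.osc h0 hy
  obtain ⟨e4, e5⟩ := H.zt1 g y (box_mono H.D_pos.le (by norm_num) g hx)
  have e : (B.fr g).hm (jm (fun w => s.Zs w + B.Zt w) y -
      jm (fun w => s.zt (ks B.N) w - B.Zt w) (s.nf g').x0) =
      (B.fr g).hm (jm s.Zs y - jm (fun w => s.zt (ks B.N) w - B.Zt w) y) +
      (B.fr g).hm (jm (fun w => s.zt (ks B.N) w - B.Zt w) y -
        jm (fun w => s.zt (ks B.N) w - B.Zt w) (s.nf g').x0) + (B.fr g).hm (jm B.Zt y) := by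
    rw [← Zder.hm_add, ← Zder.hm_add, jm_add H.iz.sm.1 H.sZt]
    congr 1; abel
  have tri : ∀ (A C D : Mx) a b, |(A + C + D) a b| ≤ |A a b| + |C a b| + |D a b| :=
    fun A C D a b => abs_add_three _ _ _
  have n1 : 1000 * np B.N (-93 / 100) ≤ np B.N (-92 / 100) := by
    have := ZtA.c_le hN (-93 / 100)
    rwa [show (-93 / 100 + 1 / 100 : ℝ) = -92 / 100 by norm_num] at this
  have n2 : np B.N (-20) ≤ np B.N (-93 / 100) := hN.np_le (by norm_num)
  have p := hN.np_pos (-93 / 100)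
  rw [e]
  refine ⟨fun a b ha => (tri _ _ _ a b).trans ?_, fun j => (tri _ _ _ 2 j).trans ?_⟩
  · have s0 : 0 ≤ (B.c g 0).sdL a b := (G.sdO_bd a b).2.2.2.2
    have f1 : _ ≤ Real.sqrt (pq B.N) * La s.xs (8 * ks B.N) (tm (nb B.N - 1) 9) i *
      (B.c g 0).sdL a b := e1 a b ha
    have f2 := mul_le_mul_of_nonneg_right
      (mul_le_mul_of_nonneg_left (H.la i (8 * ks B.N)) hN.sqrtq_pos.le) s0
    have f3 : _ ≤ np B.N (-20) := e3 a b
    have f4 : _ ≤ np B.N (-93 / 100) := e4 a b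
    have f5 : np B.N (-92 / 100) ≤ (B.c g 0).sdL a b := by
      obtain ⟨m1, m2, m3, m4, m5⟩ := n9_le G
      have m0 : np B.N (-92 / 100) ≤ np (B.c g 0).N (-9 / 10) := hN.np_le (by norm_num)
      unfold Pm.sdL
      split_ifs
      · have := mul_pos G.η_pos G.dB_pos
        have m6 : np B.N (-92 / 100) ≤ (B.c g 0).η * (B.c g 0).dB + np (B.c g 0).N (-9 / 10) := by
          linarith
        fin_cases a <;> fin_cases b
        exacts [m0.trans m2, m0.trans (m1.trans m4), m0.trans (m2.trans m3), m0.trans m1, m6,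
          m0.trans m1, absurd rfl ha, absurd rfl ha, absurd rfl ha]
      · exact hN.np_le (show (-92 / 100 : ℝ) ≤ -496 / 1000 by norm_num)
    have f6 := mul_le_mul_of_nonneg_right (two_le_aA hN) s0
    have f7 : (aA B.N • (B.c g 0).sdL) a b =
      2 * (Real.sqrt (pq B.N) * (qp B.N (1 / 5) * pJ B.N)) * (B.c g 0).sdL a b := rfl
    unfold aA at f6
    linarith
  · have f1 := e2 j
    have f2 := mul_le_mul_of_nonneg_right (hN.cnt_le H.h.2.2.1 le_rfl) (hN.np_pos (-20)).le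
    have f3 : _ ≤ np B.N (-20) := e3 2 j
    have f4 : _ ≤ np B.N (-93 / 100) := e4 2 j
    have f5 : 1206 * pJ B.N * np B.N (-20) ≤ np B.N (-93 / 100) := by
      have := hN.J_pos; have := hN.np_pos (-20)
      refine le_of_log (by positivity) p ?_
      simp (disch := positivity) only [Real.log_mul, hN.log_np, hN.log_J]
      linarith [hN.L_ge, hN.J_ge, (logc_bd (show (1 : ℝ) ≤ 1206 by norm_num)).2]
    linarith

omit h0 hy in
lemma hm_new (A : Mx) : (s.nf g').hm A =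
    ((B.fr g).Q⁻¹ * (s.nf g').Q)⁻¹ * (B.fr g).hm A * ((B.fr g).Oᵀ * (s.nf g').O) := by
  rw [GeoP.T_inv' (GeoP.det_ne H.fo g) (GeoP.det_ne H.prep.fo g')]
  exact GeoP.hm_chg (GeoP.orth H.fo g) (GeoP.det_ne H.fo g) A

/-- the start matrix of the new cube -/
lemma e0 : EB2 ((s.nf g').hm (jm (fun w => s.Zs w + B.Zt w) y) - 1)
      ((s.nf g').pm B.N' B.lb' 0).e0 ∧
    EB ((s.nf g').hm (jm (fun w => s.Zs w + B.Zt w) y) - 1)
      (cm (((s.nf g').pm B.N' B.lb' 0).zT / 4)) := by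
  have e : (s.nf g').hm (jm (fun w => s.zt (ks B.N) w - B.Zt w) (s.nf g').x0) = 1 := by
    rw [Fr.hm, Matrix.mul_assoc, ← (H.prep.fq g').1, inv_q (GeoP.det_ne H.prep.fo g')]
  rw [← e, ← Zder.hm_sub, H.hm_new (g := g)]
  exact tab (H.cl h0) (H.tf' h0) (H.mat h0 hy).1 (H.mat h0 hy).2

lemma near : EB ((s.nf g').hm (jm (B.Z s) y) - 1) (cm (1 / 10 ^ 5)) := by
  have h1 := (H.e0 h0 hy).2
  have h2 := GeoP.eb_mul_orth (H.tf' h0).ort
    (GeoP.eb_mul (H.tf' h0).det.2.2 (H.prep.zb g y (H.mem h0 hy)).1)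
  rw [← H.hm_new] at h2
  have e : (s.nf g').hm (jm (B.Z s) y) - 1 = (s.nf g').hm (jm (fun w => s.Zs w + B.Zt w) y) - 1 +
      (s.nf g').hm (jm s.Zn y) := by
    rw [show B.Z s = fun y => (s.Zs y + B.Zt y) + s.Zn y from rfl, jm_add H.sZ H.iz.sm.2.1,
      Zder.hm_add]
    abel
  rw [e]
  refine GeoP.eb_mono (GeoP.eb_add h1 h2) ?_
  have h3 : 1000 * np B.N (-9 / 10) ≤ _ := Zder.np_le_zT (Bk.gd0 H.fo H.big g) (by norm_num)
  linarith [zT_le (H.gd' g'), zT_le (Bk.gd0 H.fo H.big g)]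

end two

lemma Zt_eq (K : Cu → V → V) : (B.next s K).Zt = s.Zn := H.prep.zn.symm

lemma Zs0_eq (K : Cu → V → V) : (B.next s K).Zs0 = fun w => s.Zs w + B.Zt w := by
  funext w
  rw [Bk.Zs0, H.Zt_eq]
  exact add_sub_cancel_right _ _

lemma fo' (K : Cu → V → V) : FrOk (B.next s K).N (B.next s K).lb (B.next s K).fr :=
  ⟨H.prep.fo.pos, H.prep.fo.fx, fun g g' n =>
    let c := H.prep.fo.cp g g' n
    ⟨c.tq, c.o3, c.al, c.s1, c.s2⟩⟩

lemma geo (K : Cu → V → V) : (B.next s K).G := by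
  have sZ : Sm (B.Z s) := H.sZ.add H.iz.sm.2.1
  refine ⟨H.fo' K, fun _ => rfl, sZ, H.iz.bij, fun g' x hx => ?_⟩
  obtain ⟨g, h0⟩ := H.old g'
  have hD := H.D'_pos
  have hO := GeoP.orth H.prep.fo g'
  have key : ∀ z ∈ RX (s.nf g').O (Dd B.N' B.lb') (12 / 5),
      EB (jm (((B.next s K).fr g').hat (B.Z s)) z - 1) (cm (1 / 10 ^ 5)) := fun z hz => by
    rw [(K3.p5 _ sZ.dif _).1]
    exact H.near h0 (box_mono hD.le (by norm_num) g' ((GeoP.xp_mem H.prep.fo).2 hz))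
  refine ⟨GeoP.eb_mono (key x hx) (by norm_num), ?_⟩
  have sm := hat_sm ((B.next s K).fr g') sZ
  have h1 := lip_of_jm (Z := fun z => ((B.next s K).fr g').hat (B.Z s) z - z) (RX_convex _ _ _)
    (fun z _ => (sm.dif z).sub differentiableAt_id) (fun z hz => by
      rw [jm_sub_at (Y := fun y => y) (sm.dif z) differentiableAt_id, jm_id]
      exact key z hz) hx (zero_mem_RX _ hD.le (by norm_num))
  have e : ((B.next s K).fr g').hat (B.Z s) 0 = 0 := by
    simp [Fr.hat, Fr.zc, Fr.xp, Bk.next]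
  rw [e, sub_zero, sub_zero, sub_zero] at h1
  have h2 : ‖x‖ ≤ 2 * (12 / 5 * Dd B.N' B.lb') := RX_norm hO hx
  have h3 := orth_norm_le_two hO (((B.next s K).fr g').hat (B.Z s) x - x)
  show ‖(s.nf g').O *ᵥ (((B.next s K).fr g').hat (B.Z s) x - x)‖ ≤ Dd B.N' B.lb' / 2000
  linarith

end Hy

end Cgeo

open Cgeo in
theorem cgeo (hT : TfbStmt) : CgeoStmt := by
  filter_upwards [ev_hy hT] with N hy B hB ρ s K h
  have H := hy B hB ρ s h
  refine ⟨H.geo K, H.prep.cred, fun g' x hx => ?_⟩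
  obtain ⟨g, h0⟩ := H.old g'
  rw [Bk.E0, H.Zs0_eq]
  exact H.e0 h0 (Prof.box_mono H.D'_pos.le (by norm_num) g' hx)

end
end Pool.Agent.MP_20bec2_an.T3

end MrgPart1

-- ======== part 2: formerly Pool.Agent.MP_20bec2_an.T3.Cz
section MrgPart2

/-! Row CZ: ledger, map, potential and noise invariants at the start of the new block. -/

set_option autoImplicit false
set_option linter.unusedSectionVars false
open Set Filter Matrix

namespace Pool.Agent.MP_20bec2_an.T3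
noncomputable section
open Classical

namespace Cgeo
open Prof

lemma nzn_zero (N : ℕ) : nzn N 0 0 = 0 := by
  unfold nzn; split_ifs <;> omega

lemma not_aft (j : ℕ) : ¬ aft j 0 0 := by unfold aft; omega

lemma co_add_const {U : Set V} {f : V → ℝ} {a : ℝ} (hf : Sm f) (h : CO 2 (cv 1) U f a) (c : ℝ) :
    CO 2 (cv 1) U (fun x => f x + c) a := fun l hl x hx => by
  rw [pds_add_const hf c (List.ne_nil_of_length_pos (by rw [show l.length = 2 from hl]; norm_num))]
  exact h l hl x hx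

namespace Hy
variable {B : Bk} {ρ : V → ℝ} {s : St} (H : Hy B ρ s)
include H

lemma Z_eq (K : Cu → V → V) : (B.next s K).Z (B.nst s) = B.Z s := by
  funext x
  rw [Bk.Z, H.Zt_eq]
  exact add_zero _

lemma Eh_eq (K : Cu → V → V) (g : Cu) (x : V) :
    (B.next s K).Eh (B.nst s) g x = (B.next s K).E0 g x := by
  rw [Bk.E0, H.Zs0_eq, Bk.Eh]
  simp [Bk.nst]

/-- second derivatives in the old frame, in units of the new block -/
lemma d2_le {g g' : Cu} (h0 : (s.nf g').x0 ∈ B.bx g (1 / 2)) :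
    54 * ((B.c g (nb B.N - 1)).d2u * (1 / 2 ^ (nb B.N - 1) + (9 + (9 : ℕ)) / 9000) +
      np B.N (-139 / 100) / B.lb') ≤ ((s.nf g').pm B.N' B.lb' 0).d2u := by
  have hN := H.big
  have C := H.cl h0
  have G := Bk.gd H.fo hN g (Nat.sub_le (nb B.N) 1)
  have G' := H.gd' g'
  have pl := H.lb'_pos
  have a1 : (1000 : ℝ) ≤ 2 ^ (nb B.N - 1) := by
    have h1 : 10 ≤ nb B.N - 1 := by have := hN.nm_pos; unfold nb; omega
    exact le_trans (by norm_num) (pow_le_pow_right₀ one_le_two h1)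
  have a2 : (1 : ℝ) / 2 ^ (nb B.N - 1) ≤ 1 / 1000 := one_div_le_one_div_of_le (by norm_num) a1
  have l1 : Real.log ((s.nf g').pm B.N' B.lb' 0).lam = Real.log B.lb' := by
    rw [G'.log_lam]; simp [Fr.pm]
  have l2 : Real.log B.lb' ≤ Real.log (B.c g (nb B.N - 1)).lam :=
    Real.log_le_log pl (div_le_div_of_nonneg_left H.lb_pos.le (by positivity)
      (pow_le_pow_right₀ one_le_two (Nat.sub_le _ _)))
  have l3 : Real.log (B.c g (nb B.N - 1)).d2u = -98 / 100 * pJ B.N -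
    Real.log (B.c g 0).η - _ := G.log_d2u
  have l4 := G'.log_d2u
  have l5 : pJ ((s.nf g').pm B.N' B.lb' 0).N - pJ B.N ≤ _ := C.J.2
  have a3 : (B.c g (nb B.N - 1)).d2u ≤ 2 * ((s.nf g').pm B.N' B.lb' 0).d2u :=
    le_two G.d2u_pos G'.d2u_pos (by linarith [(abs_le.1 C.η).2])
  have a4 : 1000 * (np B.N (-139 / 100) / B.lb') ≤ ((s.nf g').pm B.N' B.lb' 0).d2u := by
    have := hN.np_pos (-139 / 100)
    refine le_of_log (by positivity) G'.d2u_pos ?_
    simp (disch := positivity) only [Real.log_mul, Real.log_div, hN.log_np]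
    linarith [G'.log_η_le, hN.L_ge, hN.J_ge, (logc_bd (show (1 : ℝ) ≤ 1000 by norm_num)).2]
  have a5 := mul_le_mul_of_nonneg_left a2 G.d2u_pos.le
  push_cast
  linarith [G'.d2u_pos]

lemma d2 (K : Cu → V → V) (g' : Cu) (i : Fin 3) : CO 2 (cv 1) ((B.next s K).R g' 1)
    (fun x => ((B.next s K).fr g').hat (B.nst s).Zs x i) ((s.nf g').pm B.N' B.lb' 0).d2u := by
  obtain ⟨g, h0⟩ := H.old g'
  have hO := GeoP.orth H.fo g
  have hQ := GeoP.det_ne H.fo g
  have tf := H.tf' h0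
  have h1 : ∀ j : Fin 3, (0 : ℝ) ≤ cv 1 j := fun _ => zero_le_one
  obtain ⟨b, hb⟩ : ∃ b, b = (B.fr g).xc (s.nf g').x0 := ⟨_, rfl⟩
  have ex : ∀ x, (B.fr g).xp (b + ((B.fr g).Oᵀ * (s.nf g').O) *ᵥ x) = (s.nf g').xp x := fun x => by
    rw [← mulVec_mulVec, Fr.xp, mulVec_add, orth_mulVec_t hO, ← add_assoc, hb]
    exact congrArg (· + (s.nf g').O *ᵥ x) (xp_xc hO _)
  have s1 := hat_sm (B.fr g) H.iz.sm.1
  have s2 := hatv_sm (B.fr g) H.sZt
  have s3 : Sm fun w => (B.fr g).hat s.Zs w + (B.fr g).hatv B.Zt w := s1.add s2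
  have s4 : Sm fun x => (B.fr g).hat s.Zs (b + ((B.fr g).Oᵀ * (s.nf g').O) *ᵥ x) +
      (B.fr g).hatv B.Zt (b + ((B.fr g).Oᵀ * (s.nf g').O) *ᵥ x) := s3.comp (sm_affine _ _)
  have k := cbl_const_mulVec (P := fun l => l.length = 2) (U := (B.next s K).R g' 1)
    ((B.fr g).Q⁻¹ * (s.nf g').Q)⁻¹ (b := fun _ => (3 * 1) ^ 2 * ((B.c g (nb B.N - 1)).d2u *
      (1 / 2 ^ (nb B.N - 1) + (9 + (9 : ℕ)) / 9000) + np B.N (-139 / 100) / B.lb')) h1 s4
    (fun k => CO.affine (T := B.R g 1) h1 h1 zero_le_one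
      (fun a b => by simpa [cv] using orth_abs_le tf.ort a b) (SmN.of_sm (s3.coord k) _)
      (fun x hx => (GeoP.xp_mem H.fo).1 (by
        rw [ex]
        exact H.mem h0 (box_mono H.D'_pos.le (by norm_num) g' ((GeoP.xp_mem H.prep.fo).2 hx))))
      (CBl.add h1 (s1.coord k) (s2.coord k) (H.iz.d2 g k)
        (CBl.monoU (H.zt2 g k) (RX_mono _ H.D_pos.le (by norm_num))))) i
  refine CBl.monoB (CBl.congr_fun (co_add_const (Sm.coord ((sm_mulVec _).comp s4) i) k
    (((s.nf g').Q⁻¹ *ᵥ ((B.fr g).z0 - B.Z s (s.nf g').x0)) i)) fun x => ?_) ?_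
  · rw [Function.comp_apply, ← hat_add, Fr.hat, Fr.hat, ex, Fr.zc, Fr.zc, GeoP.T_inv' hQ (GeoP.det_ne H.prep.fo g'),
      ← mulVec_mulVec, q_inv_vec hQ, ← Pi.add_apply, ← mulVec_add, sub_add_sub_cancel]
    rfl
  · have t0 : _ ≤ (2 : ℝ) := tf.det.2.2 i 0
    have t1 : _ ≤ (2 : ℝ) := tf.det.2.2 i 1
    have t2 : _ ≤ (2 : ℝ) := tf.det.2.2 i 2
    have p : 0 ≤ (B.c g (nb B.N - 1)).d2u * (1 / 2 ^ (nb B.N - 1) + (9 + (9 : ℕ)) / 9000) +
        np B.N (-139 / 100) / B.lb' := by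
      have := (Bk.gd H.fo H.big g (Nat.sub_le (nb B.N) 1)).d2u_pos
      have := H.big.np_pos (-139 / 100); have := H.lb'_pos
      positivity
    have := H.d2_le h0
    rw [Fin.sum_univ_three]
    generalize (B.c g (nb B.N - 1)).d2u * (1 / 2 ^ (nb B.N - 1) + (9 + (9 : ℕ)) / 9000) +
      np B.N (-139 / 100) / B.lb' = u at *
    nlinarith

lemma iz' (K : Cu → V → V) : (B.next s K).IZ 0 0 (B.nst s) := by
  have hk : ¬ ks (B.next s K).N ≤ 0 := by
    have : 0 < nm (B.next s K).N := H.big'.nm_pos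
    unfold ks; omega
  refine ⟨⟨H.sZ, contDiff_const, fun _ _ => H.sZ.add H.iz.sm.2.1⟩, ?_, fun _ => rfl,
    ⟨rfl, fun _ => (H.Z_eq K).symm⟩, fun g x _ i _ => ?_, fun h => absurd h hk,
    fun h => absurd h hk, fun j hj g x _ i => ?_, fun g i => ?_, fun g i j => ?_⟩
  · rw [H.Z_eq]; exact H.iz.bij
  · rw [H.Eh_eq, nzn_zero, sub_self]
    exact ⟨fun a b _ => by simp [La, tm], fun j => by simp [cnt]⟩
  · obtain rfl := Nat.le_zero.1 hj
    rw [H.Z_eq]
    simp [ph, Bk.nst]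
  · refine CBl.monoB (H.d2 K g i) (le_mul_of_one_le_right (H.gd' g).d2u_pos.le ?_)
    norm_num
  · rw [nzn_zero]
    simpa [Bk.nst, CO, Zder.hm_zero] using cbl_zero le_rfl

end Hy

end Cgeo

open Cgeo in
theorem cz (hT : TfbStmt) : CzStmt := by
  filter_upwards [ev_hy hT] with N hy B hB ρ s K h
  have H := hy B hB ρ s h
  refine ⟨⟨fun _ _ => le_rfl, fun g => ?_⟩, H.iz' K, ⟨fun g x _ i _ => ?_⟩,
    ⟨smM_const 0, smM_const 0⟩, fun _ => ⟨rfl, rfl, rfl⟩, fun h => absurd h (not_aft _),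
    fun _ _ _ _ => ⟨rfl, rfl, rfl⟩, fun g _ i j => ?_, fun g _ x _ => ?_, fun g _ x _ => ?_⟩
  · simpa [tm] using Init.card_sites (B := B.next s K) H.big' H.lb'_pos g
  · rw [H.Eh_eq, nzn_zero]
    simp [La, tm]
  · rw [nzn_zero]
    simpa [Bk.nst, CB, Zder.hm_zero] using cbl_zero le_rfl
  · rw [nzn_zero]
    exact ⟨fun a b => by simp [Bk.nst, cm, Zder.hm_zero], fun a b => by
      simp [Bk.nst, cm, Zder.hm_zero]⟩
  · rw [nzn_zero]
    simp [Bk.nst]

end
end Pool.Agent.MP_20bec2_an.T3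

end MrgPart2

-- marker of a merged file
example : 731051 + 165806 = 731051 + 165806 := rfl
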