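import Pool.Agent.MP_20bec2_an.T3.Bi

/-! Row ER: the records about the density at the end of a band. -/

set_option autoImplicit false
open MeasureTheory Set Filter Matrix Topology

namespace Pool.Agent.MP_20bec2_an.T3
noncomputable section
open Classical

namespace ErP
open Prof ConvP BiP

lemma lam_succ (B : Bk) (g : Cu) (k : ℕ) : (B.c g (k + 1)).lam = (B.c g k).lam / 2 := by
  show B.lb / 2 ^ (k + 1) = B.lb / 2 ^ k / 2
  rw [pow_succ, div_div]

lemma l1_succ (B : Bk) (g : Cu) (k : ℕ) : (B.c g (k + 1)).l1 = (B.c g k).l1 / 2 := by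
  show (B.c g k).ro * (B.c g (k + 1)).lam = (B.c g k).ro * (B.c g k).lam / 2
  rw [lam_succ]; ring

lemma yk_succ (B : Bk) (k : ℕ) : B.yk k = 2 * B.yk (k + 1) := by
  show np B.N (11 / 10) * (B.c 0 k).lam = 2 * (np B.N (11 / 10) * (B.c 0 (k + 1)).lam)
  rw [lam_succ]; ring

lemma Dl_succ (B : Bk) (hD : 0 < B.D) (F : Fr) (k : ℕ) (X : V) :
    F.cv1 (B.Dl (k + 1) X) = (1 / 4 : ℝ) • F.cv1 (B.Dl k X) := by
  rw [Bk.Dl, Bk.Dl, cv_ws B hD, cv_ws B hD, Finset.smul_sum]
  refine Finset.sum_congr rfl fun g _ => ?_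
  have e : dg3 ((B.c g (k + 1)).l1 ^ 2 / 32) ((B.c g (k + 1)).lam ^ 2 / 32) 0 =
      (1 / 4 : ℝ) • dg3 ((B.c g k).l1 ^ 2 / 32) ((B.c g k).lam ^ 2 / 32) 0 := by
    rw [l1_succ, lam_succ]
    ext i j
    fin_cases i <;> fin_cases j <;> simp [dg3] <;> ring
  rw [e, smul_comm, GeoP.cv1_unc', GeoP.cv1_unc', Matrix.mul_smul, Matrix.smul_mul]

lemma quad (a b c : ℝ) (v : V) :
    v ⬝ᵥ (dg3 a b c *ᵥ v) = a * v 0 ^ 2 + b * v 1 ^ 2 + c * v 2 ^ 2 := by
  simp [dg3, dotProduct, Fin.sum_univ_three, mulVec_diagonal]; ring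

lemma dir (a b : ℝ) : ∃ u w : ℝ, u ^ 2 + w ^ 2 ≤ 1 ∧ u * a + w * b = Real.sqrt (a ^ 2 + b ^ 2) := by
  have s1 := Real.sq_sqrt (show 0 ≤ a ^ 2 + b ^ 2 by positivity)
  by_cases h : Real.sqrt (a ^ 2 + b ^ 2) = 0
  · exact ⟨0, 0, by norm_num, by rw [h]; ring⟩
  · refine ⟨a / Real.sqrt (a ^ 2 + b ^ 2), b / Real.sqrt (a ^ 2 + b ^ 2), le_of_eq ?_, ?_⟩ <;>
      field_simp <;> linarith

lemma cs {u w a b : ℝ} (h : u ^ 2 + w ^ 2 ≤ 1) : |u * a + w * b| ≤ Real.sqrt (a ^ 2 + b ^ 2) :=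
  Real.abs_le_sqrt (by
    nlinarith [sq_nonneg (u * b - w * a),
      mul_le_mul_of_nonneg_right h (show 0 ≤ a ^ 2 + b ^ 2 by positivity)])

lemma beta_gain {m m' : ℝ} (h1 : 1 ≤ m) (h2 : 2 * m ≤ m') :
    10069 / 10000 * max 1 m ^ (1 / 100 : ℝ) ≤ max 1 m' ^ (1 / 100 : ℝ) := by
  have e : (10069 / 10000 : ℝ) ≤ 2 ^ (1 / 100 : ℝ) := by
    rw [Real.rpow_def_of_pos two_pos]
    linarith [Real.add_one_le_exp (Real.log 2 * (1 / 100)), log2_bd.1]
  rw [max_eq_right h1]
  refine (mul_le_mul_of_nonneg_right e (by positivity)).trans ?_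
  rw [← Real.mul_rpow (by norm_num) (by linarith)]
  exact Real.rpow_le_rpow (by linarith) (h2.trans (le_max_right _ _)) (by norm_num)

/-- the covariances of the two bands differ by a constant -/
lemma cov_err {B : Bk} (b : Big B.N) (G : FrOk B.N B.lb B.fr) {k : ℕ} (hk : k + 1 ≤ nb B.N)
    {S : V → Mx} {a y y' : ℝ} (H : B.SB (k + 1) S 4 1 a a) (g : Cu) {x : V}
    (hx : x ∈ B.R g (99 / 100)) (h1 : EB ((B.fr g).cov B.Db x - dg3 0 0 1) (cm a))
    (h2 : EB (nrm (B.c g k).hs ((B.fr g).cov (B.Dl k) x) - dg3 (1 / 32) (1 / 32) 0) (cm a))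
    (hy : |y ^ 2 - y' ^ 2| ≤ B.yk (k + 1) ^ 2) :
    EB ((B.fr g).cov (B.SR (k + 1) 0 S y) x - (B.fr g).cov (B.SR k 9 S y') x -
      dg3 (3 / 32 * (B.c g (k + 1)).l1 ^ 2) (3 / 32 * (B.c g (k + 1)).lam ^ 2) (y ^ 2 - y' ^ 2))
      (cm (100 * (a * B.yk (k + 1) ^ 2))) := by
  have hD : 0 < B.D := GeoP.D_pos G (by have := N_two b; omega)
  have gd := Bk.gd G b g (k := k) (by omega)
  have h3 : EB ((B.fr g).cov (B.Dl k) x -
      dg3 ((B.c g k).l1 ^ 2 / 32) ((B.c g k).lam ^ 2 / 32) 0) (cm (a * B.yk k ^ 2)) := fun i j => by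
    refine le_of_eq_of_le ?_ (unnrm gd.hs_pos (hs_le gd) (h2 i j))
    rw [Matrix.sub_apply]
    congr 2
    fin_cases i <;> fin_cases j <;> simp [dg3, Pm.hs] <;> ring
  have e1 : dg3 (3 / 32 * (B.c g (k + 1)).l1 ^ 2) (3 / 32 * (B.c g (k + 1)).lam ^ 2)
      (y ^ 2 - y' ^ 2) = (3 / 4 : ℝ) • dg3 ((B.c g k).l1 ^ 2 / 32) ((B.c g k).lam ^ 2 / 32) 0 +
        (y ^ 2 - y' ^ 2) • dg3 0 0 1 := by
    rw [l1_succ, lam_succ]
    ext i j
    fin_cases i <;> fin_cases j <;> simp [dg3] <;> ring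
  have p : 0 ≤ a * B.yk (k + 1) ^ 2 := mul_nonneg (GeoP.eb_nonneg h1) (sq_nonneg _)
  refine GeoP.eb_mono (a := 4 * (a * B.yk (k + 1) ^ 2) + 3 / 4 * (a * B.yk k ^ 2) +
    B.yk (k + 1) ^ 2 * a) ?_ (by rw [yk_succ B k]; linarith)
  convert GeoP.eb_add (GeoP.eb_add (rf_err b G hk H g hx)
    (eb_smul (a := 3 / 4) h3 (abs_of_pos (by norm_num)).le)) (eb_smul h1 hy) using 1
  rw [e1]
  simp only [Fr.cov, Bk.SR, cv1_sub, cv1_smul, if_true, Dl_succ B hD, yk_succ B k,
    if_neg (show (9 : ℕ) ≠ 0 by norm_num)]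
  module

end ErP

open BiP ErP in
theorem er (hz : EzStmt) (hs : EsStmt) (hk : KsdStmt) (hd : SderStmt) : ErStmt := by
  filter_upwards [hz, hs, hk, hd, conv2, crude, ev_big] with N hz hs hk hd hC hS b B hN
  subst hN
  intro ρ k s H hk1
  obtain ⟨il, iz, -, ip, iq⟩ := hz B rfl ρ k s H hk1
  obtain ⟨hρ, ok, hkn, inv⟩ := H
  have G : B.G := ok.geo
  have sb := hs B rfl k s G.toFrOk hkn inv.is
  have is : B.IS (k + 1) 0 (B.sen k s) :=
    ⟨inv.is.sm, fun _ => by
      rw [show (B.c 0 (k + 1)).t13 = np B.N (-20) from if_neg (Nat.succ_ne_zero k),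
        show (B.c 0 (k + 1)).t33 = np B.N (-20) from if_neg (Nat.succ_ne_zero k)]
      exact sb, fun h => by omega, fun h => by omega, fun h => by omega, fun h => by omega⟩
  have K0 := hk B rfl ρ k 9 s ok.toOk0 hkn le_rfl ⟨inv.il, inv.iz, inv.ip, inv.is, inv.iq⟩
  have K1 := hk B rfl ρ (k + 1) 0 _ ok.toOk0 hk1 (by norm_num) ⟨il, iz, ip, is, iq⟩
  have hD : 0 < B.D := GeoP.D_pos G.toFrOk (by have := N_two b; omega)
  have hNp := b.N_pos
  constructor
  · intro g y hy z hz
    have gd := Bk.gd G.toFrOk b g hkn.le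
    have g1 := Bk.gd G.toFrOk b g hk1.le
    have py : 0 < B.yk (k + 1) := g1.y_pos
    have y0 : 0 < y := (mul_pos (b.np_pos _) g1.y_pos).trans_le hy.1
    have y1 : y ≤ B.yk (k + 1) / 2 := hy.2
    have y2 : y / B.yk (k + 1) ≤ 1 / 2 := by rw [div_le_iff₀ py]; linarith
    have ey := yk_succ B k
    have hz' := Prof.RX_mono _ hD.le (reg_le b _ (Nat.cast_nonneg (k + 1))) hz
    have β1 : np B.N (-28 / 100) ≤ _ := beta_ge g1 y
    rw [Nat.cast_zero, zero_div, add_zero, mul_one]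
    rcases lt_or_ge (999 / 1000 * y) (np B.N (-3 / 10) * B.yk k) with hc | hc
    · have cr := (hS B rfl ρ (k + 1) _ _ _ hρ G hk1.le (K1.2.2.1 y hy) g).2
      have hz2 : z ∈ B.R g (985 / 1000) :=
        Prof.RX_mono _ hD.le (sub_le_self _ (by positivity)) hz'
      have c0 := cr.pd_le (by norm_num) 0 hz2
      have c1 := cr.pd_le (by norm_num) 1 hz2
      change (B.c g (k + 1)).l1 * _ ≤ _ at c0
      change (B.c g (k + 1)).lam * _ ≤ _ at c1
      rw [← abs_of_pos g1.l1_pos, ← abs_mul, ← sub_zero (_ * _)] at c0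
      rw [← abs_of_pos g1.lam_pos, ← abs_mul, ← sub_zero (_ * _)] at c1
      have h1 := sqrt_add c0 c1
      have h2 : y / B.yk (k + 1) ≤ 3 * np B.N (-3 / 10) := by
        rw [div_le_iff₀ py]
        rw [ey] at hc
        linarith [mul_pos (b.np_pos (-3 / 10)) py]
      simp only [ne_eq, OfNat.ofNat_ne_zero, not_false_eq_true, zero_pow, add_zero, Real.sqrt_zero,
        zero_add] at h1
      have h3 := mul_le_mul h2 h1 (Real.sqrt_nonneg _) (by linarith [b.np_pos (-3 / 10)])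
      linarith [q_np b (a := -3 / 10) (a' := -28 / 100) (by norm_num),
        mul_pos b.q_pos (b.np_pos (-3 / 10))]
    · have p0 : 0 < B.yk k := gd.y_pos
      have hy' : (B.c g k).yrg (999 / 1000 * y) :=
        ⟨(mul_le_mul_of_nonneg_right (b.np_le (by norm_num)) p0.le).trans hc, by
          show _ ≤ B.yk k / 2
          linarith⟩
      obtain ⟨u, w, huw, e⟩ := dir
        ((B.c g (k + 1)).l1 * pd 0 ((B.fr g).den (dens ρ (B.Z (B.sen k s))
          (B.SR (k + 1) 0 (B.sen k s).Sg y))) z)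
        ((B.c g (k + 1)).lam * pd 1 ((B.fr g).den (dens ρ (B.Z (B.sen k s))
          (B.SR (k + 1) 0 (B.sen k s).Sg y))) z)
      have hu : |u| ≤ 1 := (sq_le_one_iff_abs_le_one u).1 (by nlinarith [sq_nonneg w])
      have hw : |w| ≤ 1 := (sq_le_one_iff_abs_le_one w).1 (by nlinarith [sq_nonneg u])
      have q1 := g1.l1_pos
      have q2 := g1.lam_pos
      have c := (hC B rfl ρ k (k + 1) _ _ _ _ _ y g
        (dg3 (3 / 32 * (B.c g (k + 1)).l1 ^ 2) (3 / 32 * (B.c g (k + 1)).lam ^ 2)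
          (y ^ 2 - (999 / 1000 * y) ^ 2)) z hρ G hkn.le hk1.le (K0.2.2.1 _ hy') (K1.2.2.1 y hy)
        (diagonal_transpose _) (Or.inr fun v => by
          rw [quad, Fin.sum_univ_three]
          change 1 / 10 ^ 4 * (((B.c g (k + 1)).l1 * v 0) ^ 2 + ((B.c g (k + 1)).lam * v 1) ^ 2 +
            (y * v 2) ^ 2) ≤ _ ∧ _ ≤ 6 * (((B.c g (k + 1)).l1 * v 0) ^ 2 +
            ((B.c g (k + 1)).lam * v 1) ^ 2 + (y * v 2) ^ 2)
          constructor <;> linarith [sq_nonneg ((B.c g (k + 1)).l1 * v 0),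
            sq_nonneg ((B.c g (k + 1)).lam * v 1), sq_nonneg (y * v 2)])
        (fun x hx => by
          obtain ⟨-, -, d1, d2⟩ := (hd B rfl k 9 s G.toFrOk hkn (by norm_num) le_rfl inv.is g).1 x
            (Prof.RX_mono _ hD.le (by norm_num) hx)
          refine ⟨?_, cov_err b G.toFrOk hk1.le sb g hx d1 d2 ?_⟩
          · rw [show B.Z (B.sen k s) = B.Z s from rfl, sub_self, mulVec_zero, norm_zero]
            exact (mul_pos (b.np_pos _) q2).le
          · rw [abs_of_nonneg (by nlinarith)]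
            nlinarith) hz').2
        (fun h0 => by
          have h1 := congrFun (congrFun h0 1) 1
          simp [dg3, q2.ne'] at h1)
        ![u * (B.c g (k + 1)).l1, w * (B.c g (k + 1)).lam, 0]
        ((B.c g k).betaR (999 / 1000 * y) * (1 + 9 / 2000) / (999 / 1000 * y / B.yk k) / 2) rfl
        (fun i => by
          fin_cases i
          · show |u * _| ≤ (B.c g (k + 1)).l1
            rw [abs_mul, abs_of_pos q1]; exact mul_le_of_le_one_left q1.le hu
          · show |w * _| ≤ (B.c g (k + 1)).lam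
            rw [abs_mul, abs_of_pos q2]; exact mul_le_of_le_one_left q2.le hw
          · show |(0 : ℝ)| ≤ _
            rw [abs_zero]; exact (g1.hs_pos 2).le)
        (fun p hp => by
          have hlb : 0 < B.lb := gd.lb_pos
          have h3 : np B.N 3 = (B.N : ℝ) ^ 3 := by rw [← np_nat]; norm_num
          have h4 := mul_le_mul_of_nonneg_right
            (np_small b (a := 5 / 2) (a' := 3) (by norm_num)) hlb.le
          have h5 : 1 / (B.N : ℝ) * B.D = (B.N : ℝ) ^ 3 * B.lb := by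
            show _ * ((B.N : ℝ) ^ 4 * B.lb) = _
            field_simp
          have hp' : p ∈ B.R g (985 / 1000 - (k + 1) / B.N) := by
            refine Prof.RX_mono _ hD.le (le_of_eq ?_)
              (Prof.RX_add (s := 1 / B.N) (GeoP.orth G.toFrOk g) hz ?_)
            · push_cast; ring
            · rw [h5, ← h3]
              linarith [mul_pos (b.np_pos (5 / 2)) hlb]
          have r := inv.ir.ri g _ hy' p hp'
          rw [← le_div_iff₀' (by positivity), Nat.cast_ofNat] at r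
          refine le_trans (le_of_eq ?_) (div_le_div_of_nonneg_right ((cs huw).trans r) two_pos.le)
          rw [← abs_two, ← abs_div, Fin.sum_univ_three, l1_succ, lam_succ]
          congr 1
          simp only [cons_val_zero, cons_val_one, cons_val]
          ring)
      rw [Fin.sum_univ_three] at c
      simp only [cons_val_zero, cons_val_one, cons_val, zero_mul, add_zero, mul_assoc] at c
      rw [e] at c
      have h1 := mul_le_mul_of_nonneg_left ((le_abs_self _).trans c) (div_pos y0 py).le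
      have e1 : y / B.yk (k + 1) * ((B.c g k).betaR (999 / 1000 * y) * (1 + 9 / 2000) /
          (999 / 1000 * y / B.yk k) / 2) =
          (B.c g k).betaR (999 / 1000 * y) * (1 + 9 / 2000) * (1000 / 999) := by
        rw [ey]; field_simp
      have h2 := mul_le_mul_of_nonneg_right y2 (b.np_pos (-14)).le
      have β0 : np B.N (-28 / 100) ≤ _ := beta_ge gd (999 / 1000 * y)
      have h4 := np_small b (a := -14) (a' := -28 / 100) (by norm_num)
      have m1 : 1 ≤ np B.N (3 / 10) * (999 / 1000 * y) / B.yk k := by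
        have e2 : np B.N (3 / 10) * np B.N (-3 / 10) = 1 := by
          rw [← b.np_add, ← np_zero B.N]; norm_num
        have := mul_le_mul_of_nonneg_left hc (b.np_pos (3 / 10)).le
        rw [← mul_assoc, e2] at this
        rwa [le_div_iff₀ p0]
      have m2 : 2 * (np B.N (3 / 10) * (999 / 1000 * y) / B.yk k) ≤
          np B.N (3 / 10) * y / B.yk (k + 1) := by
        have e3 : 2 * (np B.N (3 / 10) * (999 / 1000 * y) / B.yk k) =
            999 / 1000 * (np B.N (3 / 10) * y / B.yk (k + 1)) := by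
          rw [ey]; field_simp
        have := div_pos (mul_pos (b.np_pos (3 / 10)) y0) py
        linarith
      have β2 : 10069 / 10000 * (B.c g k).betaR (999 / 1000 * y) ≤ (B.c g (k + 1)).betaR y := by
        have := mul_le_mul_of_nonneg_left (beta_gain m1 m2) (b.np_pos (-28 / 100)).le
        rw [mul_left_comm] at this
        exact this
      rw [mul_add, e1] at h1
      linarith [b.np_pos (-14)]
  · intro hL hm g hg i hi x hx x' hx' a a' ha ha' τ hτ hzz
    have hlt := b.mid_lt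
    have km : k < mid B.N := by unfold aft at hm; omega
    by_cases hL' : kL B.N ≤ k
    · have e1 : B.SL (k + 1) 0 (B.sen k s).Sg = B.SL k 9 s.Sg := by
        funext w
        have e : 4 * B.yk (k + 1) ^ 2 = 1 * B.yk k ^ 2 := by rw [yk_succ B k]; ring
        simp only [Bk.SL, if_true, if_neg (show (9 : ℕ) ≠ 0 by norm_num), e]
        rfl
      have e2 : cnt (k + 1) 0 = cnt k 9 := by unfold cnt; omega
      have e3 : tm (k + 1) 0 = tm k 9 := by unfold tm; omega
      rw [e1, e2, e3]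
      exact inv.ir.li hL' (by unfold aft; omega) g hg i hi x hx x' hx' a a' ha ha' τ hτ hzz
    · have ek : k + 1 = kL B.N := by omega
      have cr := (hS B rfl ρ (k + 1) _ _ _ hρ G hk1.le (K1.2.2.2 hL (by omega)) g).2
      have hlb := GeoP.lb_pos G.toFrOk
      have c := seg_small b G hi hk1.le (κ := np B.N (-13 / 10)) b.q_pos.le hτ
        (by show B.lb / 2 ^ mid B.N ≤ np B.N (-13 / 10) * (B.lb / 2 ^ (k + 1))
            have e2 : np B.N (-13 / 10) * np B.N (13 / 10) = 1 := by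
              rw [← b.np_add, ← np_zero B.N]; norm_num
            have h1 := mul_le_mul_of_nonneg_left b.two_pow_mid_kL.1 (b.np_pos (-13 / 10)).le
            have e3 : (2 : ℝ) ^ mid B.N = 2 ^ (mid B.N - kL B.N) * 2 ^ kL B.N := by
              rw [← pow_add, Nat.sub_add_cancel hlt.2.2.2.le]
            rw [e2] at h1
            rw [ek, e3, div_le_iff₀ (by positivity)]
            refine (le_mul_of_one_le_left hlb.le h1).trans_eq ?_
            field_simp)
        fun t ht => cr.pd_le (by norm_num) i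
          (Prof.RX_mono _ hD.le (sub_le_self _ (by positivity)) (seg b G hx hτ ht))
      have e1 : np B.N (-13 / 10) * np B.N (3 / 5) = np B.N (-7 / 10) := by
        rw [← b.np_add]; norm_num
      have h2 := q_np b (a := -7 / 10) (a' := -3 / 5) (by norm_num)
      have h3 : ∀ a, 0 ≤ SA B.N (bB B.N) (B.sen k s).xs (8 * kL B.N) (tm (k + 1) 0) a := fun a =>
        Finset.sum_nonneg fun _ _ => Real.sqrt_nonneg _
      have h4 := mul_nonneg (Real.sqrt_nonneg (pq B.N)) (add_nonneg (h3 a) (h3 a'))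
      have h5 := mul_nonneg (Nat.cast_nonneg (α := ℝ) (cnt (k + 1) 0)) (b.np_pos (-3 / 5)).le
      have h6 : 10 * (pq B.N * np B.N (-13 / 10)) * np B.N (3 / 5) =
          10 * pq B.N * np B.N (-7 / 10) := by rw [← e1]; ring
      linarith [mul_pos b.q_pos (b.np_pos (-7 / 10))]

end
end Pool.Agent.MP_20bec2_an.T3
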