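import Pool.Agent.MP_20bec2_an.T3.Fl3
import Pool.Agent.MP_20bec2_an.T3.Fcomp
import Pool.Agent.MP_20bec2_an.T3.Par3
import Pool.Agent.MP_20bec2_an.T3.Zt
import Pool.Agent.MP_20bec2_an.T3.Calc1b

-- ======== part 0: formerly Pool.Agent.MP_20bec2_an.T3.Col
section MrgPart0

/-! Row COL: one colour of cells in the main step of `f`. -/

set_option autoImplicit false
open MeasureTheory Set Filter Matrix Topology

namespace Pool.Agent.MP_20bec2_an.T3
noncomputable section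
open Classical

namespace Cfc

/-! ## numbers -/

section num
variable {c : Pm} (h : Gd c)
include h

lemma J_big : 1000 ≤ c.J := by
  have := h.big.J_ge; have := h.big.L_ge
  show 1000 ≤ pJ c.N
  linarith

lemma f1 : c.q * c.aM ≤ c.J / √c.N := by
  have := h.J_pos; have := h.q_pos; have := h.N_pos; have := h.big.qp_pos (59 / 10)
  unfold Pm.aM
  refine le_of_log (by positivity) (by positivity) ?_
  simp (disch := positivity) only [Real.log_div, Real.log_mul, Real.log_sqrt, h.log_J, h.log_q,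
    h.big.log_N, h.big.log_qp]
  linarith [h.big.L_ge]

lemma f2 : 10 * (√(c.bb / c.N) * (2 * √(c.q * c.J))) ≤ c.aM := by
  have := h.J_pos; have := h.q_pos; have := h.N_pos; have := h.big.qp_pos (59 / 10)
  have := h.bb_pos
  unfold Pm.aM
  refine le_of_log (by positivity) (by positivity) ?_
  simp (disch := positivity) only [Real.log_div, Real.log_mul, Real.log_sqrt, h.log_J, h.log_q,
    h.big.log_N, h.big.log_qp]
  linarith [h.big.L_ge, h.log_bb_bd.2, log2_bd.2, log10_bd.2]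

lemma f3 : 144 * (c.q * np c.N (-1 / 20) * (c.J ^ 3 / √c.N)) ≤ 1 / (√c.N * c.J ^ 4) := by
  have := h.J_pos; have := h.q_pos; have := h.N_pos; have := h.big.np_pos (-1 / 20)
  refine le_of_log (by positivity) (by positivity) ?_
  simp (disch := positivity) only [Real.log_div, Real.log_mul, Real.log_sqrt, Real.log_pow,
    Real.log_one, h.log_J, h.log_q, h.big.log_N, h.big.log_np]
  push_cast
  linarith [h.big.L_ge, h.big.J_ge, (logc_bd (C := 144) (by norm_num)).2]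

lemma f4 : 10000 * (c.q * np c.N (-1 / 20)) ≤ 1 := by
  have := h.q_pos; have := h.big.np_pos (-1 / 20)
  refine le_of_log (by positivity) one_pos ?_
  simp (disch := positivity) only [Real.log_mul, Real.log_one, h.log_q, h.big.log_np]
  linarith [h.big.L_ge, h.big.J_ge, (logc_bd (C := 10000) (by norm_num)).2]

lemma f5 {a b : ℝ} (hab : a + 1 / 100 ≤ b) : 8 * np c.N a ≤ np c.N b := by
  have := h.big.np_pos a
  refine le_of_log (by positivity) (h.big.np_pos b) ?_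
  simp (disch := positivity) only [Real.log_mul, h.big.log_np]
  have := mul_le_mul_of_nonneg_right hab h.big.J_pos.le
  linarith [h.big.L_ge, h.big.J_ge, (logc_bd (C := 8) (by norm_num)).2]

lemma f6 (i : Fin 3) : c.hs i ≤ 8 / 100 * c.cw i := by
  have hJ : 1000 ≤ pJ c.N := J_big h
  have hA : 100 ≤ pA c.N :=
    le_trans (by linarith) (le_self_pow₀ (show 1 ≤ pJ c.N by linarith) (by norm_num))
  have h1 := mul_le_mul_of_nonneg_right hA h.l1_pos.le
  have h2 := mul_le_mul_of_nonneg_right hA h.lam_pos.le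
  have h3 : 100 * c.y ≤ c.L := by
    refine le_of_log (by have := h.y_pos; positivity) h.L_pos ?_
    rw [Real.log_mul (by norm_num) h.y_pos.ne', h.log_y, h.log_L]
    linarith [h.big.L_ge, h.big.J_ge, (logc_bd (C := 100) (by norm_num)).2]
  have := h.l1_pos; have := h.lam_pos; have := h.y_pos
  fin_cases i <;> simp [Pm.hs, Pm.cw] <;> linarith

lemma np_le_one {a : ℝ} (ha : a ≤ 0) : np c.N a ≤ 1 := (h.big.np_le ha).trans_eq (np_zero _)

lemma n_small : np c.N (-1 / 20) ≤ 1 / 10000 := by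
  have := mul_le_mul_of_nonneg_right (show 1 ≤ c.q by linarith [h.big.q_ge, show c.q = pq c.N from rfl])
    (h.big.np_pos (-1 / 20)).le
  linarith [f4 h]

lemma sml {A π t : ℝ} (h0 : 0 ≤ t) (ht : t ≤ c.q) : (FPm c.N A π t).Sml := by
  have hn := (h.big.np_pos (-1 / 20)).le
  have hq : 10000000 ≤ c.q := h.big.q_ge
  have a1 : t * np c.N (-1 / 20) ≤ 1 / 100 := by
    linarith [mul_le_mul_of_nonneg_right ht hn, f4 h]
  have a2 : t / c.q ^ 3 ≤ 1 / 100 := by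
    rw [div_le_iff₀ (by positivity)]
    have : 100 * c.q ≤ c.q ^ 3 := by nlinarith [mul_pos h.q_pos h.q_pos]
    linarith
  exact ⟨mul_nonneg h0 hn, a1, mul_nonneg h0 hn, a1, div_nonneg h0 (pow_pos h.q_pos 3).le, a2⟩

lemma hc_le : 5 * hc c.N ≤ c.J ^ 3 / √c.N := by
  have hJ := J_big h
  have hr := h.big.sqrtN_pos
  have e : 5 * hc c.N = 15 * c.J ^ 2 / √c.N := by unfold hc Pm.J; ring
  rw [e]
  exact div_le_div_of_nonneg_right (by nlinarith [sq_nonneg c.J]) hr.le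

/-- sizes of one main step -/
lemma sizes {A π t : ℝ} (h0 : 0 ≤ t) (ht : t ≤ c.q) (hA0 : 0 ≤ A) (hA : 10 * A ≤ c.aM)
    (hπ0 : 0 ≤ π) (hπ : π ≤ 3 * hc c.N) :
    (FPm c.N A π t).eg ≤ c.J ^ 4 / c.N ∧ (FPm c.N A π t).eh ≤ hc c.N ∧
      (FPm c.N A π t).ek ≤ 1 / 10 ∧ 1 / (√c.N * c.J ^ 4) ≤ hc c.N := by
  have hJ := J_big h
  have hN := h.N_pos
  have hq : 10000000 ≤ c.q := h.big.q_ge
  have hqJ : c.q ≤ c.J := h.big.q_le_J
  have F1 := f1 h
  obtain ⟨r, hr⟩ : ∃ r, r = 1 / √(c.N : ℝ) := ⟨_, rfl⟩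
  have r0 : 0 < r := by rw [hr]; positivity
  have rr : r * r = 1 / c.N := by
    rw [hr, div_mul_div_comm, one_mul, Real.mul_self_sqrt hN.le]
  have e1 : c.J / √c.N = c.J * r := by rw [hr]; ring
  have e2 : hc c.N = 3 * c.J ^ 2 * r := by rw [hr]; unfold hc Pm.J; ring
  have e3 : c.J ^ 4 / c.N = c.J ^ 4 * (r * r) := by rw [rr]; ring
  have e4 : 1 / (√c.N * c.J ^ 4) = r / c.J ^ 4 := by rw [hr]; field_simp
  have e5 : 1 / (c.N * c.J ^ 6) = r * r / c.J ^ 6 := by rw [rr]; field_simp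
  have J1 : 1 ≤ c.J := by linarith
  have p2 : 1000 * c.J ≤ c.J ^ 2 := by nlinarith
  have p3 : 1000 * c.J ^ 3 ≤ c.J ^ 4 := by nlinarith [pow_pos h.J_pos 3]
  have p4 : c.J ^ 2 ≤ c.J ^ 3 := pow_le_pow_right₀ J1 (by norm_num)
  have a1 : t * A ≤ c.J * r := by
    have := mul_le_mul ht (show A ≤ c.aM by linarith) hA0 h.q_pos.le
    linarith
  have a2 : A ≤ c.J * r := by nlinarith
  have a3 : ∀ k : ℕ, k ≠ 0 → ∀ x : ℝ, 0 ≤ x → t * (x / c.J ^ k) ≤ x := fun k hk x hx => by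
    rw [← mul_div_assoc, div_le_iff₀ (pow_pos h.J_pos k)]
    have := le_self_pow₀ J1 hk
    nlinarith
  have a4 : r / c.J ^ 4 ≤ r := div_le_self r0.le (one_le_pow₀ J1)
  have a5 := mul_le_mul_of_nonneg_right p2 r0.le
  have a6 := mul_le_mul_of_nonneg_right J1 r0.le
  refine ⟨?_, ?_, ?_, by rw [e4, e2]; linarith⟩
  · show t * (A * (π + A) + 1 / (c.N * c.J ^ 6)) ≤ _
    have b1 : π + A ≤ 10 * c.J ^ 2 * r := by linarith
    have b2 := mul_le_mul a1 b1 (by linarith) (by positivity)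
    have b3 := a3 6 (by norm_num) (r * r) (by positivity)
    have b4 := mul_le_mul_of_nonneg_right p3 (mul_pos r0 r0).le
    have b5 := mul_le_mul_of_nonneg_right (show 1 ≤ c.J ^ 3 from one_le_pow₀ J1) (mul_pos r0 r0).le
    rw [e5, e3]
    nlinarith
  · show t * (A + 1 / (√c.N * c.J ^ 4)) ≤ _
    have b3 := a3 4 (by norm_num) r r0.le
    rw [e4, e2]
    linarith
  · exact (sml h (A := A) (π := π) h0 ht).2.1.trans (by norm_num)

lemma cmp_le {A π t : ℝ} (ht : 1 ≤ t) (hA : 0 ≤ A) (hπ : 0 ≤ π) :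
    ((FPm c.N A π t).cmp (FPm c.N (10 * A) (π + t * (A + 1 / (√c.N * c.J ^ 4)) +
      1 / (√c.N * c.J ^ 4)) 10)).Le (FPm c.N A π (2000 * t)) ∧
    (FPm c.N A π t).Le (FPm c.N A π (2000 * t)) := by
  have hJ := J_big h
  have hN := h.N_pos
  have n0 := h.big.np_pos (-1 / 20)
  have n1 := np_le_one h (a := -1 / 20) (by norm_num)
  have m0 := h.big.np_pos (-2 / 5)
  have es : 1 / (√c.N * c.J ^ 4) * (1 / (√c.N * c.J ^ 4)) ≤ 1 / (c.N * c.J ^ 6) := by
    rw [div_mul_div_comm, one_mul, mul_mul_mul_comm, Real.mul_self_sqrt hN.le, ← pow_add]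
    exact one_div_le_one_div_of_le (by positivity) (mul_le_mul_of_nonneg_left
      (pow_le_pow_right₀ (by linarith) (by norm_num)) hN.le)
  have s0 : 0 ≤ 1 / (√c.N * c.J ^ 4) := by positivity
  have e0 : 0 ≤ 1 / (c.N * c.J ^ 6) := by positivity
  have d0 : 0 ≤ (pq c.N ^ 3)⁻¹ := by have := h.big.q_pos; positivity
  simp only [FP.Le, FP.cmp, FPm, div_eq_mul_inv _ (pq c.N ^ 3)]
  generalize (pq c.N ^ 3)⁻¹ = d at *
  unfold Pm.J at *
  generalize 1 / (√c.N * pJ c.N ^ 4) = s at *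
  generalize 1 / (c.N * pJ c.N ^ 6) = e at *
  generalize np c.N (-1 / 20) = n at *
  generalize np c.N (-2 / 5) = m at *
  have t0 : 0 ≤ t := by linarith
  have x1 := mul_le_mul_of_nonneg_right ht m0.le
  have x2 := mul_le_mul_of_nonneg_right ht n0.le
  have x3 := mul_le_mul_of_nonneg_right ht d0
  have x4 := mul_le_mul_of_nonneg_right ht hA
  have x5 := mul_le_mul_of_nonneg_right ht s0
  have x6 := mul_le_mul_of_nonneg_right ht e0
  have x7 := mul_le_mul_of_nonneg_right ht (mul_nonneg hA hπ)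
  have x8 := mul_le_mul_of_nonneg_right ht (mul_nonneg hA hA)
  have x9 : A * s ≤ A * A + e := by nlinarith [sq_nonneg (A - s), mul_nonneg hA s0]
  have y1 := mul_le_mul_of_nonneg_left x9 t0
  have y2 := mul_le_mul_of_nonneg_left n1 (mul_nonneg t0 n0.le)
  have y3 := mul_nonneg hA hπ
  have y4 := mul_nonneg hA hA
  refine ⟨⟨?_, ?_, ?_, ?_, ?_, ?_, ?_, ?_⟩, ?_, ?_, ?_, ?_, ?_, ?_, ?_, ?_⟩ <;> nlinarith

end num

/-! ## local tools -/

lemma congr_ev {c : Pm} {f f1 f2 : V → V} {z' z : V} {P : FP} (H : FRel c f f1 z' z P)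
    (e : f1 =ᶠ[𝓝 z] f2) : FRel c f f2 z' z P := by
  have eg : ∀ᶠ w in 𝓝 z, c.gam f1 w = c.gam f2 w := e.eventually_nhds.mono fun w hw => by
    simp only [Pm.gam, Pm.ca, jac, Glue.jm_ev hw]
  have eT : Th f f1 z' z = Th f f2 z' z := by simp only [Th, Glue.jm_ev e]
  refine ⟨e.eq_of_nhds ▸ H.mt, H.dl, H.dv, eg.self_of_nhds ▸ H.dg, eT ▸ H.th, eT ▸ H.t3,
    fun d hd hD a b i => ?_⟩
  have e2 : (fun w => c.gam f1 w a b) =ᶠ[𝓝 z] fun w => c.gam f2 w a b :=
    eg.mono fun w hw => by simp only [hw]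
  rw [← eT, ← pd_congr e2 i]
  exact H.df d hd hD a b i

lemma jac_ev {f T T' : V → V} {z : V} (e : T =ᶠ[𝓝 z] T') : jac (f ∘ T) z = jac (f ∘ T') z := by
  unfold jac; rw [Glue.jm_ev (e.fun_comp f)]

lemma mem_of_off {S : V → V} (hS : Function.Injective S) {K : Set V} (hK : ∀ z, z ∉ K → S z = z)
    {z : V} (hz : z ∈ K) : S z ∈ K := by
  by_contra hc
  exact hc ((hS (hK _ hc)).symm ▸ hz)

lemma gw_step {c : Pm} {f f1 : V → V} {z0 z1 : V} {P : FP} (hG : c.GB f z0 2)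
    (H : FRel c f f1 z0 z1 P) (h1 : P.eg ≤ c.J ^ 4 / c.N) (h2 : P.eh ≤ hc c.N)
    (h3 : P.ek ≤ 1 / 10) : c.GW f1 z1 3 := fun a b => by
  have a1 := (H.dg a b).trans (bm_mono h1 h2 h3 a b)
  have a2 := hG a b
  have a3 := bm_mono (show c.gb ≤ c.J ^ 4 / c.N from min_le_right _ _) (le_refl (hc c.N))
    (le_refl (1 / 10 : ℝ)) a b
  have a4 := abs_sub_le (c.gam f1 z1 a b) (c.gam f z0 a b) (c.gref a b)
  simp only [Matrix.sub_apply, Matrix.smul_apply, smul_eq_mul] at a1 a2 ⊢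
  linarith

lemma quot_le {u0 u1 M0 M1 : ℝ} (h0 : 99 / 100 ≤ M0) (h1 : 99 / 100 ≤ M1) :
    |u1 / M1 - u0 / M0| ≤ 2 * |u1 - u0| + 2 * (|u0| * |M1 - M0|) := by
  have p0 : 0 < M0 := by linarith
  have p1 : 0 < M1 := by linarith
  have e : u1 / M1 - u0 / M0 = (u1 - u0) / M1 - u0 * (M1 - M0) / (M0 * M1) := by field_simp; ring
  have a1 : |(u1 - u0) / M1| ≤ 2 * |u1 - u0| := by
    rw [abs_div, abs_of_pos p1, div_le_iff₀ p1]; nlinarith [abs_nonneg (u1 - u0)]
  have a2 : |u0 * (M1 - M0) / (M0 * M1)| ≤ 2 * (|u0| * |M1 - M0|) := by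
    rw [abs_div, abs_of_pos (mul_pos p0 p1), div_le_iff₀ (mul_pos p0 p1), abs_mul]
    have : 1 / 2 ≤ M0 * M1 := by nlinarith
    nlinarith [mul_nonneg (abs_nonneg u0) (abs_nonneg (M1 - M0))]
  rw [e]
  exact (abs_sub _ _).trans (add_le_add a1 a2)

/-- the steering residual at the moved point -/
lemma pi_step {c : Pm} (h : Gd c) {ch : Cu → ℝ → V} (hch : c.ChB ch) (g : Cu) {i : Fin 3}
    (hi : i ≠ 2) {s0 s1 M0 M1 γ0 γ1 π eh : ℝ} (hs : |s1 - s0| ≤ 8 * np c.N (-1 / 20) * c.y)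
    (h0 : 99 / 100 ≤ M0) (h1 : 99 / 100 ≤ M1) (hM : |M1 - M0| ≤ 32 * (c.q * np c.N (-1 / 20)))
    (hπ : |γ0 + c.dgn i * deriv (fun r => ch g r i) s0 * c.n12 / (M0 * c.cc i)| ≤ π)
    (hγ : |γ1 - γ0| ≤ eh) :
    |γ1 + c.dgn i * deriv (fun r => ch g r i) s1 * c.n12 / (M1 * c.cc i)| ≤
      π + eh + 1 / (√c.N * c.J ^ 4) := by
  obtain ⟨φ, hφ⟩ : ∃ φ : ℝ → ℝ, φ = fun r => ch g r i := ⟨_, rfl⟩
  have hb := fun s => ((hch.2 g).2 i hi s).2.2
  have sφ : Sm φ := hφ ▸ contDiff_pi.1 (hch.2 g).1 i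
  rw [← hφ] at hb hπ ⊢
  have hcc := h.cc_pos i
  have hn := h.n12_pos
  have hy := h.y_pos
  have hd : 0 ≤ c.dgn i := by
    have := h.η_pos.le
    fin_cases i <;> simp [Pm.dgn, this]
  obtain ⟨w, hw⟩ : ∃ w, w = c.dgn i * c.n12 / c.cc i := ⟨_, rfl⟩
  have w0 : 0 ≤ w := by rw [hw]; positivity
  have ew : ∀ x : ℝ, c.dgn i * x * c.n12 / c.cc i = w * x := fun x => by rw [hw]; ring
  have eM : ∀ x M : ℝ, c.dgn i * x * c.n12 / (M * c.cc i) = w * x / M := fun x M => by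
    rw [hw]; ring
  simp only [ew, eM] at hb hπ ⊢
  have dφ : Differentiable ℝ (deriv φ) :=
    (sφ.iterate_deriv 1).differentiable (by simp)
  have e2 : iteratedDeriv 2 φ = deriv (deriv φ) := by
    rw [show 2 = 1 + 1 from rfl, iteratedDeriv_succ, iteratedDeriv_one]
  have mv : |w * deriv φ s1 - w * deriv φ s0| ≤ c.q * Xj c.N 0 2 / c.y * |s1 - s0| :=
    convex_univ.norm_image_sub_le_of_norm_deriv_le (f := fun s => w * deriv φ s)
      (fun x _ => (dφ x).const_mul w) (fun x _ => by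
        rw [deriv_const_mul_field, Real.norm_eq_abs, abs_mul, abs_of_nonneg w0, ← e2]
        exact (hb x).2.1) (mem_univ s0) (mem_univ s1)
  have eX : Xj c.N 0 2 = c.J ^ 3 / √c.N := by simp [Xj, bm, Pm.J]
  have X0 : 0 ≤ c.J ^ 3 / √c.N := by have := h.J_pos; positivity
  have qn : 0 ≤ c.q * np c.N (-1 / 20) := (mul_pos h.q_pos (h.big.np_pos _)).le
  have a1 : |w * deriv φ s1 - w * deriv φ s0| ≤
      8 * (c.q * np c.N (-1 / 20) * (c.J ^ 3 / √c.N)) := by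
    refine mv.trans ((mul_le_mul_of_nonneg_left hs (by
      rw [eX]; have := h.q_pos; positivity)).trans_eq ?_)
    rw [eX]; field_simp
  have a2 : |w * deriv φ s0| ≤ 2 * hc c.N := by
    rw [abs_mul, abs_of_nonneg w0]; exact (hb s0).1
  have a3 := mul_le_mul a2 hM (abs_nonneg _) (by linarith [h.big.hc_pos])
  have a4 := mul_le_mul_of_nonneg_left
    (show hc c.N ≤ c.J ^ 3 / √c.N by linarith [hc_le h, h.big.hc_pos]) qn
  have a5 := quot_le (u0 := w * deriv φ s0) (u1 := w * deriv φ s1) h0 h1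
  have a6 := f3 h
  have a7 := abs_add_three (γ1 - γ0) (γ0 + w * deriv φ s0 / M0)
    (w * deriv φ s1 / M1 - w * deriv φ s0 / M0)
  rw [show γ1 - γ0 + (γ0 + w * deriv φ s0 / M0) + (w * deriv φ s1 / M1 - w * deriv φ s0 / M0) =
    γ1 + w * deriv φ s1 / M1 by ring] at a7
  linarith

lemma cK_closed (c : Pm) (O : Mx) (g : Cu) : IsClosed (c.cK O g) :=
  (Glue.cell_closed _ _ _).inter (Prof.RX_closed _ _ _)

lemma cK_lf (c : Pm) (O : Mx) : LocallyFinite (c.cK O) := fun x =>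
  ⟨_, Glue.ev_off c.cw (show (92 / 100 : ℝ) < 1 by norm_num) x,
    (Glue.nb8 c.cw x).finite_toSet.subset fun g ⟨_, hy, hy'⟩ => hy' g hy.1⟩

end Cfc

open Cfc in
theorem col_ (h1 : Cvs1Stmt) (h2 : Cvs2Stmt) (hA : CellAStmt) (hE : CellEStmt) (hS : CsumStmt)
    (hG : GluStmt) : ColStmt := by
  intro t ht
  refine ⟨2000 * t, by linarith, ?_⟩
  filter_upwards [h1, h2, hA, hE, hS, ev_gd, ev_C_q t] with N h1 h2 hA hE hS hg hq c hN ho O f ch F
    j S hO hf hp hM hch hF hj hI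
  have h := hg c hN ho
  have htq : t ≤ c.q := by unfold Pm.q; rwa [hN]
  replace hA := hA c hN ho O ch F hO hch hF
  replace hE := hE c hN ho O ch F hO hch hF
  obtain ⟨-, -, hS, -⟩ := hS c hN ho O ch F hO hch hF
  obtain ⟨sm, cb, hS⟩ := hS j
  have hh := fun i => (h.hs_pos i).le
  have n0 := h.big.np_pos (-1 / 20)
  have n1 := n_small h
  have hq1 : 10000000 ≤ c.q := h.big.q_ge
  have m1 : np c.N (-27 / 100) ≤ np c.N (-1 / 20) := h.big.np_le (by norm_num)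
  have m2 : np c.N (-2 / 5) ≤ np c.N (-1 / 20) := h.big.np_le (by norm_num)
  have m0 := h.big.np_pos (-2 / 5)
  have j8 : (j : ℝ) + 1 ≤ 8 := by exact_mod_cast hj
  have e0 : eps0 = 1 / 10 ^ 8 := rfl
  have sf1 : Sm (f ∘ S) := hf.comp hI.sb.1
  have ej : jac (f ∘ S) = fun z => jac f z + c.mS ch F j z := funext hI.jc
  have sub : ∀ r : ℝ, r ≤ 97 / 100 → RX O c.D r ⊆ RX O c.D (97 / 100) := fun r hr =>
    Prof.RX_mono O h.D_pos.le hr
  have mb : ∀ z, |c.mS ch F j z| ≤ 8 * np c.N (-1 / 20) := fun z =>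
    (cb.val (mem_univ z)).trans (by linarith)
  have near1 : ∀ z ∈ RX O c.D (97 / 100), |jac (f ∘ S) z - 1| ≤ 1 / 100 := fun z hz => by
    have a1 := abs_le.1 (hM.1 z hz)
    have a2 := abs_le.1 (mb z)
    rw [hI.jc, abs_le]
    constructor <;> linarith
  have hp1 : ∀ z, 0 < jac (f ∘ S) z := fun z => by
    by_cases hz : z ∈ RX O c.D (953 / 1000)
    · linarith [(abs_le.1 (near1 z (sub _ (by norm_num) hz))).1]
    · rw [hI.jc, (hS z).1 hz, add_zero]; exact hp z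
  have mw : c.MW (1 / 100) 50 (jac (f ∘ S)) (RX O c.D (953 / 1000 + 1 / 1000)) := by
    have sb := sub (953 / 1000 + 1 / 1000) (by norm_num)
    refine ⟨fun z hz => near1 z (sb hz), ?_, ?_⟩ <;> rw [ej]
    · exact (CBl.add hh hf.jac sm (CBl.monoU hM.2.1 sb) (CBl.monoU cb (subset_univ _))).monoB
        (by linarith)
    · have a1 : np c.N (-26 / 100) ≤ np c.N (-245 / 1000) := h.big.np_le (by norm_num)
      have a2 : np c.N (-27 / 100) ≤ np c.N (-245 / 1000) := h.big.np_le (by norm_num)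
      have a3 := h.big.np_pos (-245 / 1000)
      exact (CBl.add hh hf.jac sm (CBl.monoU hM.2.2 sb) (CBl.monoU cb.toCL (subset_univ _))).monoB
        (by linarith)
  choose σ sσ sb z0 jc mv cs using fun g => h1 c hN ho O (953 / 1000) (f ∘ S) ch g (c.cA ch F g)
    hO sf1 hp1 hch (hA g).1 (fun z hz => ((hA g).2.1 z fun hc => hz hc.2).1) mw
  obtain ⟨T, sT, act, off⟩ := hG (c.cK O) (fun g => cS (ch g) (σ g)) (fun g => col g = j)
    (cK_closed c O) (cK_lf c O)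
    (fun g g' z hg hg' hz hz' => Glue.col_cell_unique (by norm_num) (hg.trans hg'.symm) hz.1 hz'.1)
    (fun g _ => ⟨sb g, fun z hz => by
      have e := z0 g z ((hA g).2.1 z hz).1
      ext i
      fin_cases i <;> simp [cS, cpt, cin, e]⟩)
  have mT : ∀ z, (∀ i, i ≠ 2 → |T z i - z i| ≤ np c.N (-2 / 5) * c.hs i) ∧
      |T z 2 - z 2| ≤ np c.N (-1 / 20) * c.y := fun z => by
    by_cases hz : ∃ g, col g = j ∧ z ∈ c.cK O g
    · obtain ⟨g, hg, hz⟩ := hz
      rw [(act g hg z hz).1.eq_of_nhds]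
      exact mv g z
    · rw [(off z fun g hg hc => hz ⟨g, hg, hc⟩).eq_of_nhds]
      simp only [id, sub_self, abs_zero]
      exact ⟨fun i _ => mul_nonneg m0.le (hh i), (mul_pos n0 h.y_pos).le⟩
  have mS : ∀ z, (∀ i, i ≠ 2 → |S (T z) i - z i| ≤ (j + 1) * np c.N (-2 / 5) * c.hs i) ∧
      |S (T z) 2 - z 2| ≤ (j + 1) * np c.N (-1 / 20) * c.y := fun z => by
    refine ⟨fun i hi => ?_, ?_⟩
    · linarith [abs_sub_le (S (T z) i) (T z i) (z i), (hI.mv (T z)).1 i hi, (mT z).1 i hi]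
    · linarith [abs_sub_le (S (T z) 2) (T z 2) (z 2), (hI.mv (T z)).2, (mT z).2]
  refine ⟨S ∘ T, ⟨hI.sb.1.comp sT.1, hI.sb.2.comp sT.2⟩, fun z hz => ?_, fun z => ?_,
    fun z => by push_cast; exact mS z, fun z a π a1 a2 π0 π1 hGB hEn hPi => ?_⟩
  · have e : T z = z := (off z fun g _ hc => hz hc.2).eq_of_nhds
    rw [Function.comp, e, hI.off z hz]
  · rw [← Function.comp_assoc]
    by_cases hz : ∃ g, col g = j ∧ z ∈ c.cK O g
    · obtain ⟨g, hg, hz⟩ := hz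
      rw [jac_ev (act g hg z hz).1, jc, (hS z).2.1 g hg hz, hI.jc, add_assoc]
      rfl
    · have hz' : ∀ g, col g = j → z ∉ c.cK O g := fun g hg hc => hz ⟨g, hg, hc⟩
      rw [jac_ev (off z hz'), (hS z).2.2 hz', Function.comp_id, hI.jc]
  have H0 := hI.rel (T z) a π a1 a2 π0 π1 hGB hEn hPi
  rw [← Function.comp_assoc]
  simp only [Function.comp_apply] at hGB hEn hPi ⊢
  obtain ⟨A, hA0⟩ : ∃ A, A = √(c.bb / c.N) * a := ⟨_, rfl⟩
  have A0 : 0 ≤ A := by rw [hA0]; positivity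
  have A1 : 10 * A ≤ c.aM := by
    have := mul_le_mul_of_nonneg_left a2 (Real.sqrt_nonneg (c.bb / c.N))
    linarith [f2 h]
  rw [← hA0] at H0 ⊢
  obtain ⟨L1, L2⟩ := cmp_le h ht A0 π0
  by_cases hz : ∃ g, col g = j ∧ z ∈ c.cK O g
  swap
  · have e := off z fun g hg hc => hz ⟨g, hg, hc⟩
    have e1 : T z = z := e.eq_of_nhds
    rw [e1] at H0 ⊢
    exact (congr_ev H0 (e.fun_comp (f ∘ S)).symm).mono' h L2
  obtain ⟨g, hg, hz⟩ := hz
  obtain ⟨e, hz1⟩ := act g hg z hz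
  have e1 : T z = cS (ch g) (σ g) z := e.eq_of_nhds
  have hz0 : S (T z) ∈ RX O c.D (953 / 1000) := mem_of_off hI.sb.2.1 hI.off hz1.2
  obtain ⟨s1, s2, s3, s4⟩ := sizes h (by linarith) htq A0 A1 π0 π1
  have d1 : ∀ i, i ≠ 2 → |z i - S (T z) i| ≤ np c.N (-3 / 10) * c.hs i := fun i hi => by
    rw [abs_sub_comm]
    refine ((mS z).1 i hi).trans (mul_le_mul_of_nonneg_right ?_ (hh i))
    linarith [mul_le_mul_of_nonneg_right j8 m0.le, f5 h (a := -2 / 5) (b := -3 / 10) (by norm_num)]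
  have d2 : |z 2 - S (T z) 2| ≤ np c.N (-1 / 25) * c.y := by
    rw [abs_sub_comm]
    refine (mS z).2.trans (mul_le_mul_of_nonneg_right ?_ h.y_pos.le)
    linarith [mul_le_mul_of_nonneg_right j8 n0.le, f5 h (a := -1 / 20) (b := -1 / 25) (by norm_num)]
  have nr : c.Near g (S (T z)) := fun i => by
    have b1 : |z i - S (T z) i| ≤ 1 * c.hs i := by
      by_cases hi : i = 2
      · subst hi
        exact d2.trans (mul_le_mul_of_nonneg_right (np_le_one h (by norm_num)) h.y_pos.le)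
      · exact (d1 i hi).trans (mul_le_mul_of_nonneg_right (np_le_one h (by norm_num)) (hh i))
    have b2 : |z i / c.cw i - S (T z) i / c.cw i| ≤ 8 / 100 := by
      rw [← sub_div, abs_div, abs_of_pos (h.cw_pos i), div_le_iff₀ (h.cw_pos i)]
      linarith [f6 h i]
    have b3 := abs_sub_le (S (T z) i / c.cw i) (z i / c.cw i) (g i)
    rw [abs_sub_comm] at b2
    linarith [hz.1 i]
  have j8' : (j : ℝ) ≤ 8 := by linarith
  have d3 : ∀ i, |T z i - S (T z) i| ≤ 8 * np c.N (-1 / 20) * c.hs i := fun i => by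
    rw [abs_sub_comm]
    by_cases hi : i = 2
    · subst hi
      exact (hI.mv _).2.trans (mul_le_mul_of_nonneg_right
        (mul_le_mul_of_nonneg_right j8' n0.le) h.y_pos.le)
    · exact ((hI.mv _).1 i hi).trans (mul_le_mul_of_nonneg_right
        (mul_le_mul j8' m2 m0.le (by norm_num)) (hh i))
  have r0 := sub _ (by norm_num) hz0
  have r1 := sub _ (by norm_num) hz1.2
  have dM : |jac (f ∘ S) (T z) - jac f (S (T z))| ≤ 32 * (c.q * np c.N (-1 / 20)) := by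
    have b1 := CV.mvt_box h.hs_pos (Prof.RX_convex _ _ _) hf.jac hM.2.1.toCV (by norm_num) r1 r0 d3
    have b2 := abs_add_le (jac f (T z) - jac f (S (T z))) (c.mS ch F j (T z))
    have b3 := mul_le_mul_of_nonneg_right (show 1 ≤ c.q by linarith) n0.le
    rw [hI.jc, add_sub_right_comm]
    linarith [mb (T z)]
  have s0 : 0 ≤ 1 / (√c.N * c.J ^ 4) := by have := h.J_pos; positivity
  have eh0 : 0 ≤ t * (A + 1 / (√c.N * c.J ^ 4)) := mul_nonneg (by linarith) (by linarith)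
  have H1 := h2 c hN ho (f ∘ S) ch g (c.cA ch F g) (σ g) z (10 * A)
    (π + t * (A + 1 / (√c.N * c.J ^ 4)) + 1 / (√c.N * c.J ^ 4)) sf1 (sσ g) hch (cs g z hz.2)
    (by linarith) A1 (by linarith)
    (by
      have eX : Xj c.N 0 2 = c.J ^ 3 / √c.N := by simp [Xj, bm, Pm.J]
      have s2' : t * (A + 1 / (√c.N * c.J ^ 4)) ≤ hc c.N := s2
      linarith [hc_le h])
    (fun i hi => hA0 ▸ hE g _ z a a1 nr hEn d1 d2 i hi) (e1 ▸ gw_step hGB H0 s1 s2 s3)
    (fun i hi => by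
      rw [← e1]
      refine pi_step h hch g hi (d3 2) (by linarith [(abs_le.1 (hM.1 _ r0)).1])
        (by linarith [(abs_le.1 (near1 _ r1)).1]) dM (hPi g nr i hi) ?_
      have b1 := H0.dg i 2
      have b2 : bm (FPm c.N A π t).eg (FPm c.N A π t).eh (FPm c.N A π t).ek i 2 =
          t * (A + 1 / (√c.N * c.J ^ 4)) := by
        fin_cases i
        · rfl
        · rfl
        · exact absurd rfl hi
      rwa [b2] at b1)
  rw [← e1] at H1
  exact (congr_ev (FRel.comp h.hs_pos (hp1 _).ne' (sml h (by linarith) htq)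
    (sml h (by norm_num) (by linarith)) H0 H1) (e.fun_comp (f ∘ S)).symm).mono' h L1

end
end Pool.Agent.MP_20bec2_an.T3

end MrgPart0

-- ======== part 1: formerly Pool.Agent.MP_20bec2_an.T3.Cvs2
section MrgPart1

-- ======== part 0: formerly Pool.Agent.MP_20bec2_an.T3.Cvs2B
section MrgPart0

/-! Row CVS2, part 2: sizes. -/

set_option autoImplicit false
open Set Filter Matrix Topology

namespace Pool.Agent.MP_20bec2_an.T3
noncomputable section
namespace Cvs2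

variable {c : Pm}

lemma num (g : Gd c) {u μ X : ℝ} (hu : u = np c.N (-48 / 100)) (hμ : μ = 1 / c.q ^ 3)
    (hX : X = c.J ^ 3 / √c.N) :
    μ ≤ 1 / 100 ∧ 100 * u ≤ μ ∧ 8000 * (c.q * hc c.N) ≤ μ * X ∧
    48 * (c.q * X * c.aM) ≤ μ * (c.J ^ 4 / c.N) ∧ 6 * c.aM ≤ μ * (c.J / √c.N) ∧ c.J / √c.N ≤ X ∧
    1 ≤ √c.N / c.J ^ 2 ∧ u ^ 2 ≤ X ∧ c.J ^ 4 / c.N ≤ u ^ 2 ∧ 2 * c.J ^ 8 * (5 * (c.q * X)) ≤ u ∧
    np c.N (-7 / 10) ≤ c.aM ∧ np c.N (-7 / 10) * u ≤ 1 / (c.N * c.J ^ 6) ∧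
    10 * u ^ 2 ≤ np c.N (-7 / 10) ∧ np c.N (-7 / 10) ≤ 1 / (√c.N * c.J ^ 4) ∧
    12 * (c.q * X * np c.N (-8 / 100)) ≤ 1 / (√c.N * c.J ^ 4) ∧
    4000 * (c.q ^ 2 * np c.N (-6 / 100)) ≤ μ ∧ 1000 * np c.N (-1 / 20) ≤ 1 ∧
    100 * (c.q * X) ≤ u ∧ 1 ≤ c.J := by
  subst hu hμ hX
  have := g.J_pos; have := g.N_pos; have := g.q_pos; have := g.big.hc_pos; have := g.big.sqrtN_pos
  have := g.big.np_pos (-48 / 100); have := g.big.np_pos (-7 / 10); have := g.big.np_pos (-8 / 100)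
  have := g.big.np_pos (-6 / 100); have := g.big.np_pos (-1 / 20); have := g.big.qp_pos (59 / 10)
  have := g.big.L_ge; have := g.big.J_ge; have := log2_bd.2
  have := logc_bd (C := 3) (by norm_num); have := logc_bd (C := 100) (by norm_num)
  have := logc_bd (C := 8000) (by norm_num); have := logc_bd (C := 48) (by norm_num)
  have := logc_bd (C := 6) (by norm_num); have := logc_bd (C := 5) (by norm_num)
  have := logc_bd (C := 10) (by norm_num); have := logc_bd (C := 12) (by norm_num)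
  have := logc_bd (C := 4000) (by norm_num); have := logc_bd (C := 1000) (by norm_num)
  unfold Pm.aM
  refine ⟨?_, ?_, ?_, ?_, ?_, ?_, ?_, ?_, ?_, ?_, ?_, ?_, ?_, ?_, ?_, ?_, ?_, ?_, ?_⟩ <;>
    refine le_of_log (by positivity) (by positivity) ?_ <;>
    simp (disch := positivity) only [Real.log_mul, Real.log_div, Real.log_pow, Real.log_one,
      Real.log_sqrt, g.big.log_np, g.big.log_qp, g.big.log_N, g.log_J, g.log_q, g.big.log_hc] <;>
    push_cast <;> linarith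

lemma dgn_bd (g : Gd c) (i : Fin 3) : c.η ≤ c.dgn i ∧ c.dgn i ≤ 1 := by
  fin_cases i
  exacts [⟨le_rfl, g.η_le_one⟩, ⟨g.η_le_one, le_rfl⟩, ⟨g.η_le_one, le_rfl⟩]

lemma wts (g : Gd c) {ch : Cu → ℝ → V} (hch : c.ChB ch) (k : Cu) {i : Fin 3} (hi : i ≠ 2) :
    ∃ W, 0 < W ∧ c.dgn i ≤ W ∧ 1 ≤ 2 * c.J ^ 8 * W ∧ (∀ s, W * |ph c (ch k) i s| ≤ 2 * hc c.N) ∧
      (∀ s, W * |deriv (ph c (ch k) i) s| ≤ c.q * Xj c.N 0 2 / c.hs 2) ∧
      ∀ s, W * |deriv (deriv (ph c (ch k) i)) s| ≤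
        c.q ^ 2 * Xj c.N 0 2 / np c.N (-3 / 100) / c.hs 2 ^ 2 := by
  have p := div_pos g.n12_pos (g.cc_pos i)
  have e1 : deriv (ph c (ch k) i) = fun s => c.n12 / c.cc i * iteratedDeriv 2 (fun r => ch k r i) s := by
    funext s
    rw [iteratedDeriv_succ, iteratedDeriv_one]
    exact deriv_const_mul_field _
  have e2 : deriv (deriv (ph c (ch k) i)) =
      fun s => c.n12 / c.cc i * iteratedDeriv 3 (fun r => ch k r i) s := by
    funext s
    rw [e1, iteratedDeriv_succ (n := 2)]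
    exact deriv_const_mul_field _
  have key : ∀ x : ℝ, c.dgn i * |c.n12 / c.cc i * x| = c.dgn i * |x| * c.n12 / c.cc i := fun x => by
    rw [abs_mul, abs_of_pos p]; ring
  have H := (hch.2 k).2 i hi
  have H1 : ∀ s, c.dgn i * |ph c (ch k) i s| ≤ 2 * hc c.N := fun s =>
    (key _).trans_le (H s).2.2.1
  have H2 : ∀ s, c.dgn i * |deriv (ph c (ch k) i) s| ≤ c.q * Xj c.N 0 2 / c.hs 2 := fun s => by
    rw [e1]; exact (key _).trans_le (H s).2.2.2.1
  have H3 : ∀ s, c.dgn i * |deriv (deriv (ph c (ch k) i)) s| ≤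
      c.q ^ 2 * Xj c.N 0 2 / np c.N (-3 / 100) / c.hs 2 ^ 2 := fun s => by
    rw [e2, div_div]; exact (key _).trans_le (H s).2.2.2.2
  have J8 : 0 < c.J ^ 8 := pow_pos g.J_pos 8
  rcases hch.1 with hs | h0
  · refine ⟨c.dgn i, g.η_pos.trans_le (dgn_bd g i).1, le_rfl, ?_, H1, H2, H3⟩
    have h1 : 1 / c.J ^ 8 / 2 ≤ c.dgn i := le_trans hs (dgn_bd g i).1
    rw [div_div, div_le_iff₀ (by positivity)] at h1
    linarith
  · have z : ph c (ch k) i = fun _ => 0 := by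
      funext s; simp [ph, sl, h0]
    have J1 : 1 ≤ c.J ^ 8 := one_le_pow₀ (num g rfl rfl rfl).2.2.2.2.2.2.2.2.2.2.2.2.2.2.2.2.2.2
    rw [z] at H1 H2 H3 ⊢
    exact ⟨1, one_pos, (dgn_bd g i).2, by linarith, by simpa using H1, by simpa using H2,
      by simpa using H3⟩

/-- first order bounds of the building blocks -/
structure Fa (c : Pm) (n : ℝ → V) (f : V → V) (σ : V → ℝ) (z : V) (u a b D0 D1 : ℝ) (i : Fin 3) :
    Prop where
  nw : VD c.hs z (c.dgn i) (nh c n f σ i) a b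
  nu : VD c.hs z 1 (nh c n f σ i) u u
  nu' : VD c.hs z 1 (nh' c n f σ i) u u
  dw : VD c.hs z (c.dgn i) (fun w => nh c n f σ i w - nh' c n f σ i w) D0 D1

lemma facts (g : Gd c) {f : V → V} {ch : Cu → ℝ → V} {k : Cu} {a σ : V → ℝ} {z : V} (hf : Sm f)
    (hσ : Sm σ) (hch : c.ChB ch) (cs : c.CS (ch k) f a σ z) {i : Fin 3} (hi : i ≠ 2) {u μ X : ℝ}
    (hu : u = np c.N (-48 / 100)) (hμ : μ = 1 / c.q ^ 3) (hX : X = c.J ^ 3 / √c.N) :
    Fa c (ch k) f σ z u (4 * hc c.N) (5 * (c.q * X)) (12 * (c.q * X * np c.N (-8 / 100)))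
      (μ * X / 4) i := by
  obtain ⟨m1, -, m3, -, -, -, -, -, -, m8, -, -, -, -, -, m10, -, -, J1⟩ := num g hu hμ hX
  obtain ⟨W, W0, W1, W2, h1, h2, h3⟩ := wts g hch k hi
  rw [show Xj c.N 0 2 = X from hX.symm] at h2 h3
  have hn := (hch.2 k).1
  have hS := sm_cS hn hσ
  have y0 := g.hs_pos 2
  have d0 := g.η_pos.trans_le (dgn_bd g i).1
  have dM : DifferentiableAt ℝ (fun w => jac f (cS (ch k) σ w)) z :=
    Sm.dif (ContDiff.comp hf.jac hS) z
  have dM' : DifferentiableAt ℝ (jac (f ∘ cS (ch k) σ)) z := (Sm.jac (ContDiff.comp hf hS)).dif z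
  have iM := vd_inv g.hs_pos dM cs.m0.1 fun j => (cs.m1 j).1
  have iM' := vd_inv g.hs_pos dM' cs.m0.2.1 fun j => (cs.m1 j).2
  have iD := vd_inv_sub g.hs_pos dM dM' cs.m0.1 cs.m0.2.1 (fun j => (cs.m1 j).1)
    (fun j => (cs.m1 j).2) cs.m0.2.2
  have n12 : np c.N (-9 / 100) ≤ np c.N (-8 / 100) := g.big.np_le (by norm_num)
  have n23 : np c.N (-8 / 100) ≤ np c.N (-7 / 100) := g.big.np_le (by norm_num)
  have n36 : np c.N (-7 / 100) ≤ np c.N (-6 / 100) := g.big.np_le (by norm_num)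
  have n6 : np c.N (-9 / 100) = np c.N (-6 / 100) * np c.N (-3 / 100) := by
    rw [← g.big.np_add]; norm_num
  obtain ⟨vS, vz, vD⟩ := vd_chart (z := z) (e0 := 2 * np c.N (-9 / 100)) (e1 := np c.N (-7 / 100))
    g.hs_pos W0 (Sm.cmul (hn.coord i).deriv _) hσ h1 h2 h3 cs.s0 (fun j => by
      by_cases hj : j = 2
      · subst hj; rw [mul_comm]; exact mul_le_mul_of_nonneg_right cs.s2 y0.le
      · exact (cs.s1 j hj).trans (mul_le_mul_of_nonneg_right n23 y0.le))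
    ((g.big.np_le (by norm_num)).trans_eq (np_zero _))
  have q1 : 1 ≤ c.q := by linarith [show _ ≤ c.q from g.big.q_ge]
  have H0 := g.big.hc_pos
  have X0 : 0 < X := hX ▸ div_pos (pow_pos g.J_pos 3) g.big.sqrtN_pos
  have p2 := g.big.np_pos (-8 / 100)
  have p6 := g.big.np_pos (-6 / 100)
  have p03 := g.big.np_pos (-3 / 100)
  have t1 : μ * X ≤ 1 / 100 * X := mul_le_mul_of_nonneg_right m1 X0.le
  have t2 : X ≤ c.q * X := le_mul_of_one_le_left X0.le q1
  have t3 : hc c.N ≤ c.q * hc c.N := le_mul_of_one_le_left H0.le q1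
  have t4 : 5 * (c.q * X) ≤ 2 * c.J ^ 8 * (5 * (c.q * X)) :=
    le_mul_of_one_le_left (by linarith) (by linarith [one_le_pow₀ (n := 8) J1])
  have t5 : 2 * c.J ^ 8 * (4 * hc c.N) ≤ 2 * c.J ^ 8 * (5 * (c.q * X)) :=
    mul_le_mul_of_nonneg_left (by linarith) (by have := g.J_pos; positivity)
  have A1 : VD c.hs z W (nh c (ch k) f σ i) (4 * hc c.N) (5 * (c.q * X)) :=
    (vS.mul iM).mono (by linarith) (by linarith)
  have A2 : VD c.hs z W (nh' c (ch k) f σ i) (4 * hc c.N) (5 * (c.q * X)) :=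
    (vz.mul iM').mono (by linarith) (by linarith)
  have J8 : 0 ≤ 2 * c.J ^ 8 := by have := g.J_pos; positivity
  refine ⟨A1.wt1 d0 W1, (A1.wt one_pos J8 W2).mono (by linarith) m8,
    (A2.wt one_pos J8 W2).mono (by linarith) m8,
    ((((vD.mul iM).add (vz.mul iD)).congr fun w => ?_).mono ?_ ?_).wt1 d0 W1⟩
  · simp only [nh, nh', ph, sl]; ring
  · have a1 := mul_le_mul_of_nonneg_left n12 (show 0 ≤ c.q * X by linarith)
    have a2 := mul_le_mul_of_nonneg_right (show hc c.N ≤ c.q * X by linarith) p2.le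
    linarith
  · have qX : 0 ≤ c.q * X := by linarith
    have a0 : c.q * X ≤ c.q * (c.q * X) := le_mul_of_one_le_left qX q1
    have a1 := mul_le_mul a0 n36 (g.big.np_pos _).le (by linarith)
    have a2 := mul_le_mul a0 (n23.trans n36) p2.le (by linarith)
    have a3 := mul_le_mul_of_nonneg_left (n12.trans (n23.trans n36))
      (show 0 ≤ c.q * (c.q * X) by linarith)
    have a4 : c.q ^ 2 * X / np c.N (-3 / 100) * (2 * np c.N (-9 / 100)) =
        2 * (c.q * (c.q * X) * np c.N (-6 / 100)) := by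
      rw [n6, div_mul_eq_mul_div, div_eq_iff p03.ne']; ring
    have a5 := mul_le_mul_of_nonneg_right m10 X0.le
    rw [a4]
    linarith

lemma tb_le {A : Mx} {l r k d l' r' k' d' : ℝ} (h : EB A (tb4 l r k d)) (h1 : l ≤ l') (h2 : r ≤ r')
    (h3 : k ≤ k') (h4 : d ≤ d') : EB A (tb4 l' r' k' d') := fun a b => (h a b).trans (by
  fin_cases a <;> fin_cases b <;> assumption)

lemma tb_bm {A : Mx} {ν x0 x1 x2 : ℝ} (h : EB A (tb4 (ν * x0) (ν * x1) (ν * x1) (ν * x2))) :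
    EB A (ν • bm x0 x1 x2) := fun a b => (h a b).trans_eq (by
  fin_cases a <;> fin_cases b <;> rfl)

variable {n : ℝ → V} {f : V → V} {σ : V → ℝ} {z : V} {u a b D0 D1 r α : ℝ}

lemma tables (hd : ∀ i, c.dgn i ≤ 1) (F : ∀ i, i ≠ 2 → Fa c n f σ z u a b D0 D1 i)
    (hA : ∀ j, j ≠ 2 → VD c.hs z 1 (c.ah n f σ j) r α) (hr : r ≤ α) (hα : α ≤ u)
    (hu : u ≤ 1 / 10) :
    (∀ i j, VD c.hs z 1 (fun w => em c n f σ w i j) (tb4 (u ^ 2) r (3 * u) (2 * u ^ 2) i j)
      (tb4 (2 * u ^ 2) α (3 * u) (4 * u ^ 2) i j)) ∧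
    (∀ i j, i ≠ 2 → j ≠ 2 →
      VD c.hs z (c.dgn i) (fun w => em c n f σ w i j) (a * α) (a * α + b * α)) ∧
    ∀ i, i ≠ 2 → VD c.hs z (c.dgn i) (fun w => em c n f σ w i 2) (D0 + 2 * u ^ 3)
      (D1 + 6 * u ^ 3) := by
  have o0 : (0 : Fin 3) ≠ 2 := by decide
  have o1 : (1 : Fin 3) ≠ 2 := by decide
  have u0 := (F 0 o0).nu.a0
  have Au : ∀ j, j ≠ 2 → VD c.hs z 1 (c.ah n f σ j) u u := fun j hj => (hA j hj).mono (hr.trans hα) hα
  have K : VD c.hs z 1 (ka c n f σ) (2 * u ^ 2) (4 * u ^ 2) :=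
    (((F 0 o0).nu'.mul (Au 0 o0)).add ((F 1 o1).nu'.mul (Au 1 o1))).mono (by linarith) (by linarith)
  have NK : ∀ i, i ≠ 2 → VD c.hs z 1 (fun w => nh c n f σ i w * ka c n f σ w) (2 * u ^ 3)
      (6 * u ^ 3) := fun i hi => ((F i hi).nu.mul K).mono (by linarith) (by linarith)
  have u3 : 6 * u ^ 3 ≤ u := by nlinarith [mul_nonneg u0 u0]
  have L : ∀ i j, i ≠ 2 → j ≠ 2 → VD c.hs z 1 (fun w => nh c n f σ i w * c.ah n f σ j w) (u ^ 2)
      (2 * u ^ 2) := fun i j hi hj => ((F i hi).nu.mul (Au j hj)).mono (by linarith) (by linarith)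
  have C : ∀ i, i ≠ 2 → VD c.hs z 1 (cl c n f σ i) (3 * u) (3 * u) := fun i hi =>
    (((F i hi).nu.sub (F i hi).nu').sub (NK i hi)).mono (by nlinarith [pow_nonneg u0 3]) (by linarith)
  have Lw : ∀ i j, i ≠ 2 → j ≠ 2 → VD c.hs z (c.dgn i) (fun w => nh c n f σ i w * c.ah n f σ j w)
      (a * α) (a * α + b * α) := fun i j hi hj => (F i hi).nw.mul ((hA j hj).mono hr le_rfl)
  have Cw : ∀ i, i ≠ 2 → VD c.hs z (c.dgn i) (cl c n f σ i) (D0 + 2 * u ^ 3) (D1 + 6 * u ^ 3) :=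
    fun i hi => (F i hi).dw.sub ((NK i hi).wt1 (F i hi).nw.w (hd i))
  refine ⟨fun i j => ?_, fun i j hi hj => ?_, fun i hi => ?_⟩
  · fin_cases i <;> fin_cases j
    exacts [L 0 0 o0 o0, L 0 1 o0 o1, C 0 o0, L 1 0 o1 o0, L 1 1 o1 o1, C 1 o1, hA 0 o0, hA 1 o1,
      K.neg]
  · fin_cases i <;> fin_cases j
    exacts [Lw 0 0 o0 o0, Lw 0 1 o0 o1, absurd rfl hj, Lw 1 0 o1 o0, Lw 1 1 o1 o1, absurd rfl hj,
      absurd rfl hi, absurd rfl hi, absurd rfl hi]
  · fin_cases i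
    exacts [Cw 0 o0, Cw 1 o1, absurd rfl hi]

/-- the lateral block of `G e` -/
lemma lat {G : Mx} {η x h' k' π : ℝ} {v : V} (hG : EB (G - dg3 η 1 1) ((3 : ℝ) • bm x h' k'))
    (hv : ∀ i, i ≠ 2 → |v i| ≤ u) {i : Fin 3} (hi : i ≠ 2)
    (hπ : |G i 2 + (![η, 1, 1] : V) i * v i| ≤ π) :
    |G i 0 * v 0 + G i 1 * v 1 + G i 2| ≤ π + 6 * x * u := by
  have a0 := Ftr.abs_mul_le (hG i 0) (hv 0 (by decide))
  have a1 := Ftr.abs_mul_le (hG i 1) (hv 1 (by decide))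
  have e : G i 0 * v 0 + G i 1 * v 1 + G i 2 = G i 2 + (![η, 1, 1] : V) i * v i +
      (G - dg3 η 1 1) i 0 * v 0 + (G - dg3 η 1 1) i 1 * v 1 := by
    fin_cases i
    · simp [dg3]; ring
    · simp [dg3]; ring
    · exact absurd rfl hi
  have b : ((3 : ℝ) • bm x h' k') i 0 = 3 * x ∧ ((3 : ℝ) • bm x h' k') i 1 = 3 * x := by
    fin_cases i
    exacts [⟨rfl, rfl⟩, ⟨rfl, rfl⟩, absurd rfl hi]
  rw [b.1] at a0
  rw [b.2] at a1
  rw [e]
  exact (abs_add_three _ _ _).trans (by linarith)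

lemma eqs {A π u n7 z1 z2 D0 x H t : ℝ} (A0 : 0 ≤ A) (π0 : 0 ≤ π) (u0 : 0 ≤ u) (n0 : 0 ≤ n7)
    (hu : u ≤ 1 / 10) (hr : A + n7 ≤ u) (hπ : π ≤ u) (hx : x ≤ u ^ 2) (hH : H ≤ u)
    (a1 : n7 * u ≤ z1) (a2 : 10 * u ^ 2 ≤ n7) (a3 : n7 ≤ z2) (a4 : D0 ≤ z2) (a5 : D0 ≤ u / 2)
    (a6 : u ≤ t) {Hl Hr Hc Hd : ℝ} (e1 : Hl = (π + 6 * x * u) * (A + n7))
    (e2 : Hr = 2 * (3 * H) * u ^ 2 + (1 + 3 / 10) * (A + n7))
    (e3 : Hc = D0 + 2 * u ^ 3 + 2 * (3 * x) * (3 * u) + 3 * H * (2 * u ^ 2))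
    (e4 : Hd = 2 * (3 * H) * (3 * u) + (1 + 3 / 10) * (2 * u ^ 2)) :
    3 * Hl + (A + n7) * Hr ≤ 10 * (A * (π + A) + z1) ∧ Hc + 2 * Hr + 2 * (3 * u) * Hl ≤ 10 * (A + z2) ∧
      3 * Hd + 2 * (3 * u) * Hc ≤ 10 * t := by
  have u2 := pow_nonneg u0 2
  have b1 : x * u ≤ u ^ 3 := by nlinarith
  have b2 : H * u ^ 2 ≤ u ^ 3 := by nlinarith
  have b3 : H * u ≤ u ^ 2 := by nlinarith
  have b4 : u ^ 3 ≤ u ^ 2 / 10 := by nlinarith
  have b5 : u ^ 2 ≤ u / 10 := by nlinarith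
  have r0 : 0 ≤ A + n7 := by linarith
  have c1 : Hl ≤ (π + 6 * u ^ 3) * (A + n7) := e1 ▸ mul_le_mul_of_nonneg_right (by linarith) r0
  have c2 : Hr ≤ 6 * u ^ 3 + 13 / 10 * (A + n7) := by linarith
  have c3 : Hc ≤ D0 + 26 * u ^ 3 := by linarith
  have c4 : Hl ≤ 2 * u * u := c1.trans (mul_le_mul (by linarith) hr r0 (by linarith))
  have c5 := mul_le_mul_of_nonneg_left c4 u0
  have c6 := mul_le_mul_of_nonneg_left c2 r0
  have c7 : u ^ 3 * (A + n7) ≤ n7 / 100 * u := mul_le_mul (by linarith) hr r0 (by linarith)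
  have c8 := mul_le_mul_of_nonneg_left hπ n0
  have c9 := mul_le_mul_of_nonneg_left (show n7 ≤ u by linarith) n0
  have d1 := mul_le_mul_of_nonneg_left (show Hc ≤ u by linarith) u0
  refine ⟨?_, by linarith, by linarith⟩
  nlinarith [sq_nonneg (A - n7), mul_nonneg A0 π0, mul_nonneg A0 A0, mul_nonneg n0 u0]

lemma nus {u μ X x H q m J : ℝ} (u0 : 0 ≤ u) (X0 : 0 ≤ X) (x0 : 0 ≤ x) (m0 : 0 ≤ m) (h1 : 100 * u ≤ μ)
    (h2 : μ ≤ 1 / 100) (h3 : H ≤ X) (h4 : X ≤ q * X) (h5 : 100 * (q * X) ≤ u)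
    (h6 : 48 * (q * X * m) ≤ μ * x) (h7 : 6 * m ≤ μ * X) (h8 : u ^ 2 ≤ X) (h9 : x ≤ u ^ 2)
    (J1 : 1 ≤ J) :
    4 * H * (2 * m) + 5 * (q * X) * (2 * m) + 2 * (3 * x) * (2 * u ^ 2) + 3 * H * (2 * m) ≤ μ * x ∧
    2 * (3 * H) * (2 * u ^ 2) + (1 + 3 / 10) * (2 * m) ≤ μ * X ∧
    μ * X / 4 + 6 * u ^ 3 + 2 * (3 * x) * (3 * u) + 3 * H * (4 * u ^ 2) ≤ μ * X ∧
    2 * (3 * H) * (3 * u) + (1 + 3 / 10) * (4 * u ^ 2) ≤ μ * J := by
  have t5 : u ^ 2 ≤ u / 10000 := by nlinarith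
  have a1 := mul_le_mul_of_nonneg_right (show H ≤ q * X by linarith) m0
  have a2 := mul_le_mul_of_nonneg_right (show 24 * u ^ 2 ≤ μ by linarith) x0
  have a3 := mul_le_mul h3 (show 24 * u ^ 2 ≤ μ by linarith) (by positivity) X0
  have a4 := mul_le_mul h8 h1 (by positivity) X0
  have a5 := mul_le_mul_of_nonneg_right h9 u0
  have a6 := mul_le_mul_of_nonneg_right (show H ≤ u by linarith) (sq_nonneg u)
  have a7 := mul_le_mul_of_nonneg_right (show H ≤ u by linarith) u0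
  have a8 : μ ≤ μ * J := le_mul_of_one_le_right (by linarith) J1
  have a9 : 0 ≤ μ * X := mul_nonneg (by linarith) X0
  exact ⟨by linarith, by linarith, by linarith, by linarith⟩

lemma geo (g : Gd c) {a : V → ℝ} (hn : Sm n) (hσ : Sm σ) (cs : c.CS n f a σ z)
    (sb : ∀ i, i ≠ 2 → ∀ s, |sl n i s| ≤ np c.N (-19 / 10)) :
    (∀ i, i ≠ 2 → |z i - cS n σ z i| ≤ 10 * np c.N (-2 / 5) * c.hs i) ∧
    |z 2 - cS n σ z 2| ≤ 10 * np c.N (-1 / 20) * c.y ∧
    (∀ a b, ¬ (a = 2 ∧ b = 2) →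
      |(jm (cS n σ) z - 1) a b| * c.hs b ≤ 10 * np c.N (-1 / 20) * c.hs a) ∧
    |jm (cS n σ) z 2 2 - 1| ≤ 10 * np c.N (-1 / 20) := by
  have m11 := (num g rfl rfl rfl).2.2.2.2.2.2.2.2.2.2.2.2.2.2.2.2.1
  have y0 := g.y_pos
  have l0 := g.lam_pos
  have hl : ∀ i, c.lam ≤ c.hs i := fun i => by
    fin_cases i
    exacts [g.lam_le_l1, le_rfl, le_mul_of_one_le_left l0.le
      ((np_zero _).symm.trans_le (g.big.np_le (by norm_num)))]
  have p19 := g.big.np_pos (-19 / 10)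
  have sy : np c.N (-19 / 10) * c.y = np c.N (-4 / 5) * c.lam := by
    rw [Pm.y, ← mul_assoc, ← g.big.np_add]; norm_num
  have p20 := g.big.np_pos (-1 / 20)
  have ny : ∀ i, np c.N (-19 / 10) * c.y ≤ np c.N (-2 / 5) * c.hs i := fun i =>
    sy ▸ mul_le_mul (g.big.np_le (by norm_num)) (hl i) l0.le (g.big.np_pos _).le
  have ny' : ∀ i, np c.N (-19 / 10) * c.y ≤ np c.N (-1 / 20) * c.hs i := fun i => (ny i).trans
    (mul_le_mul_of_nonneg_right (g.big.np_le (by norm_num)) (g.hs_pos i).le)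
  have s9 : np c.N (-9 / 100) * c.y ≤ np c.N (-1 / 20) * c.y :=
    mul_le_mul_of_nonneg_right (g.big.np_le (by norm_num)) y0.le
  have s20 : np c.N (-1 / 20) * c.y ≤ 1 / 1000 * c.y := mul_le_mul_of_nonneg_right (by linarith) y0.le
  have s2 : |pd 2 σ z| ≤ np c.N (-1 / 20) := cs.s2.trans (g.big.np_le (by norm_num))
  have s1 : ∀ j, j ≠ 2 → |pd j σ z| * c.hs j ≤ np c.N (-1 / 20) * c.y := fun j hj =>
    (mul_comm _ _).trans_le ((cs.s1 j hj).trans
      (mul_le_mul_of_nonneg_right (g.big.np_le (by norm_num)) y0.le))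
  refine ⟨fun i hi => ?_, ?_, fun a b hab => ?_, ?_⟩
  · have a1 := lip one_pos (hn.coord i).dif (fun s => (one_mul _).trans_le (sb i hi s)) (z 2)
      (z 2 + σ z)
    have a2 : z i - cS n σ z i = n (z 2) i - n (z 2 + σ z) i := by
      fin_cases i
      · simp [cS, cpt, cin]; ring
      · simp [cS, cpt, cin]; ring
      · exact absurd rfl hi
    rw [one_mul, sub_add_cancel_left, abs_neg] at a1
    have a3 := mul_le_mul_of_nonneg_left (show |σ z| ≤ c.y by linarith [cs.s0]) p19.le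
    have a4 := mul_pos (g.big.np_pos (-2 / 5)) (g.hs_pos i)
    rw [a2]
    linarith [ny i]
  · show |z 2 - (z 2 + σ z)| ≤ _
    rw [sub_add_cancel_left, abs_neg]
    linarith [cs.s0, mul_pos p20 y0]
  · have ll : ∀ i j, i ≠ 2 → j ≠ 2 → |sl n i (z 2 + σ z) * pd j σ z| * c.hs j ≤
        10 * np c.N (-1 / 20) * c.hs i := fun i j hi hj => by
      have := mul_le_mul (sb i hi (z 2 + σ z)) (show |pd j σ z| * c.hs j ≤ c.y by linarith [s1 j hj])
        (mul_nonneg (abs_nonneg _) (g.hs_pos j).le) p19.le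
      rw [abs_mul]
      linarith [ny' i, mul_pos p20 (g.hs_pos i)]
    have lc : ∀ i, i ≠ 2 → |sl n i (z 2 + σ z) * (1 + pd 2 σ z) - sl n i (z 2)| * c.hs 2 ≤
        10 * np c.N (-1 / 20) * c.hs i := fun i hi => by
      have a1 := Ftr.abs_mul_le (sb i hi (z 2 + σ z)) (show |1 + pd 2 σ z| ≤ 2 by
        linarith [abs_add_le 1 (pd 2 σ z), abs_one (α := ℝ)])
      have a2 := mul_le_mul_of_nonneg_right ((abs_sub _ _).trans (add_le_add a1 (sb i hi (z 2)))) y0.le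
      show _ * c.y ≤ _
      linarith [ny' i, mul_pos p20 (g.hs_pos i)]
    have lr : ∀ j, j ≠ 2 → |pd j σ z| * c.hs j ≤ 10 * np c.N (-1 / 20) * c.hs 2 := fun j hj => by
      show _ ≤ _ * c.y
      linarith [s1 j hj, mul_pos p20 y0]
    have e : jm (cS n σ) z - 1 =
        !![sl n 0 (z 2 + σ z) * pd 0 σ z, sl n 0 (z 2 + σ z) * pd 1 σ z,
            sl n 0 (z 2 + σ z) * (1 + pd 2 σ z) - sl n 0 (z 2);
          sl n 1 (z 2 + σ z) * pd 0 σ z, sl n 1 (z 2 + σ z) * pd 1 σ z,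
            sl n 1 (z 2 + σ z) * (1 + pd 2 σ z) - sl n 1 (z 2);
          pd 0 σ z, pd 1 σ z, pd 2 σ z] := by
      rw [jm_cS hn hσ]
      ext i j
      fin_cases i <;> fin_cases j <;> simp
    rw [e]
    fin_cases a <;> fin_cases b
    exacts [ll 0 0 (by decide) (by decide), ll 0 1 (by decide) (by decide), lc 0 (by decide),
      ll 1 0 (by decide) (by decide), ll 1 1 (by decide) (by decide), lc 1 (by decide),
      lr 0 (by decide), lr 1 (by decide), absurd ⟨rfl, rfl⟩ hab]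
  · rw [jm_cS hn hσ]
    show |1 + pd 2 σ z - 1| ≤ _
    rw [add_sub_cancel_left]
    linarith

/-- the table of `G e` -/
lemma ge {G : Mx} {x h' k' π Hl Hr Hc Hd : ℝ} (hG : EB (G - c.gref) ((3 : ℝ) • bm x h' k'))
    (hv : ∀ i, i ≠ 2 → |nh c n f σ i z| ≤ u) (hA : ∀ j, j ≠ 2 → |c.ah n f σ j z| ≤ r)
    (hπ : ∀ i, i ≠ 2 → |G i 2 + c.dgn i * nh c n f σ i z| ≤ π)
    (B1 : EB (G * em c n f σ z) (tb4 Hl Hr Hc Hd)) :
    EB (G * em c n f σ z) (tb4 ((π + 6 * x * u) * r) Hr Hc Hd) := by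
  have e : ∀ i j, j ≠ 2 → (G * em c n f σ z) i j =
      (G i 0 * nh c n f σ 0 z + G i 1 * nh c n f σ 1 z + G i 2) * c.ah n f σ j z := fun i j hj => by
    rw [mul_apply, Fin.sum_univ_three]
    fin_cases j
    · simp [em]; ring
    · simp [em]; ring
    · exact absurd rfl hj
  have L := fun i j hi hj => (congrArg abs (e i j hj)).trans_le
    (Ftr.abs_mul_le (lat (v := fun i => nh c n f σ i z) hG hv hi (hπ i hi)) (hA j hj))
  intro a b
  fin_cases a <;> fin_cases b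
  exacts [L 0 0 (by decide) (by decide), L 0 1 (by decide) (by decide), B1 0 2,
    L 1 0 (by decide) (by decide), L 1 1 (by decide) (by decide), B1 1 2, B1 2 0, B1 2 1, B1 2 2]

end Cvs2
end
end Pool.Agent.MP_20bec2_an.T3

end MrgPart0

-- ======== part 1: formerly Pool.Agent.MP_20bec2_an.T3.Cvs2
section MrgPart1

/-! Row CVS2: the relation `FRel` for a vertical slide along a chart. -/

set_option autoImplicit false
open Set Filter Matrix Topology

namespace Pool.Agent.MP_20bec2_an.T3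
noncomputable section

open Cvs2 in
theorem cvs2 (hN : NatStmt) : Cvs2Stmt := by
  filter_upwards [hN, ev_gd] with N h1 h2 c hcN ok f ch k a σ z A π hf hσ hch cs A0 A1 π0 π1 hA gw pi
  have g := h2 c hcN ok
  obtain ⟨n1, n2⟩ := h1 c hcN ok
  clear h1 h2
  obtain ⟨u, hu⟩ : ∃ u, u = np c.N (-48 / 100) := ⟨_, rfl⟩
  obtain ⟨μ, hμ⟩ : ∃ μ, μ = 1 / c.q ^ 3 := ⟨_, rfl⟩
  obtain ⟨X, hX⟩ : ∃ X, X = c.J ^ 3 / √c.N := ⟨_, rfl⟩
  rw [show Xj c.N 0 2 = X from hX.symm] at π1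
  obtain ⟨m1, m2, m3, m4, m5, m5', m6, m7, m7', -, m9, m9a, m9b, m9c, m9d, -, m11, m8, J1⟩ :=
    num g hu hμ hX
  have hn := (hch.2 k).1
  have hS := sm_cS hn hσ
  have cM : Sm fun w => jac f (cS (ch k) σ w) := ContDiff.comp (g := jac f) hf.jac hS
  have cM' : Sm (jac (f ∘ cS (ch k) σ)) := Sm.jac (ContDiff.comp hf hS)
  have M0 := (Ftr.inv_bd (cs.m0.1.trans (by norm_num))).1.ne'
  have M0' := (Ftr.inv_bd (cs.m0.2.1.trans (by norm_num))).1.ne'
  have q1 : 1 ≤ c.q := by linarith only [show _ ≤ c.q from g.big.q_ge]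
  have H0 := g.big.hc_pos
  have X0 : 0 < X := hX ▸ div_pos (pow_pos g.J_pos 3) g.big.sqrtN_pos
  have u0 : 0 < u := hu ▸ g.big.np_pos _
  have μ0 : 0 < μ := by linarith only [u0, m2]
  have p7 := g.big.np_pos (-7 / 10)
  have p8 : np c.N (-8 / 100) ≤ 1 := (g.big.np_le (by norm_num)).trans_eq (np_zero _)
  have t1 : μ * X ≤ 1 / 100 * X := mul_le_mul_of_nonneg_right m1 X0.le
  have t2 : X ≤ c.q * X := le_mul_of_one_le_left X0.le q1
  have t3 : hc c.N ≤ X := by linarith only [le_mul_of_one_le_left H0.le q1, m3, t1, X0, H0]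
  have t4 : 6 * c.aM ≤ μ * X := m5.trans (mul_le_mul_of_nonneg_left m5' μ0.le)
  have t5 : u ^ 2 ≤ u / 10000 := by nlinarith only [m1, m2, u0]
  have t6 : 2 * c.aM ≤ u := by linarith only [t4, t1, t2, m8, X0]
  have t7 : A + np c.N (-7 / 10) ≤ 2 * c.aM := by linarith only [A1, m9]
  have t8 : u ≤ 1 / 10 := by linarith only [m1, m2]
  have F := fun i hi => facts g hf hσ hch cs (i := i) hi hu hμ hX
  have ah : ∀ j, j ≠ 2 → VD c.hs z 1 (c.ah (ch k) f σ j) (A + np c.N (-7 / 10)) (2 * c.aM) :=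
    fun j hj => ⟨g.hs_pos, one_pos, Sm.dif (ContDiff.div_const (ContDiff.mul (cM.cmul _)
      (hσ.pd j)) _) z, by
        have := abs_sub_abs_le_abs_sub (c.ah (ch k) f σ j z) (c.cc j / c.n12 * pd j a (cin (ch k) z))
        rw [abs_mul, abs_of_pos (div_pos (g.cc_pos j) g.n12_pos)] at this
        linarith only [this, cs.a0 j hj, hA j hj], fun i => by rw [one_mul]; exact cs.a1 j hj i⟩
  obtain ⟨T, Tl, Tc⟩ := tables (fun i => (dgn_bd g i).2) F ah t7 t6 t8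
  have ev : ∀ᶠ w in 𝓝 z, c.Em f (cS (ch k) σ) w - 1 = em c (ch k) f σ w := by
    filter_upwards [cM.continuous.continuousAt.eventually_ne M0,
      cM'.continuous.continuousAt.eventually_ne M0'] with w a1 a2
    exact Em_eq g.c1_pos.ne' g.c2_pos.ne' g.n12_pos.ne' hf hn hσ a1 a2
  have E0 := ev.self_of_nhds
  have E1 : ∀ i a b, |(c.hs i • Ftr.Dm i (c.Em f (cS (ch k) σ)) z) a b| =
      c.hs i * |pd i (fun w => em c (ch k) f σ w a b) z| := fun i a b => by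
    have : (fun w => c.Em f (cS (ch k) σ) w a b) =ᶠ[𝓝 z]
        fun w => (1 : Mx) a b + em c (ch k) f σ w a b := ev.mono fun w hw => by
      simp only [← hw, Matrix.sub_apply, add_sub_cancel]
    simp only [Matrix.smul_apply, Ftr.Dm, of_apply, smul_eq_mul]
    rw [pd_congr this, pd_add_at (differentiableAt_const _) (T a b).d, pd_const, zero_add, abs_mul,
      abs_of_pos (g.hs_pos i)]
  have B0 : EB (em c (ch k) f σ z) (tb4 (u ^ 2) (A + np c.N (-7 / 10)) (3 * u) (2 * u ^ 2)) :=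
    fun a b => (one_mul _).symm.trans_le (T a b).v
  have B1 := ge gw (fun l hl => (one_mul _).symm.trans_le (F l hl).nu.v)
    (fun j hj => (one_mul _).symm.trans_le (ah j hj).v) (fun i hi => le_of_eq_of_le (by
      congr 2
      show c.dgn i * (c.n12 / c.cc i * sl (ch k) i (z 2 + σ z) * (jac f (cS (ch k) σ z))⁻¹) =
        c.dgn i * sl (ch k) i (z 2 + σ z) * c.n12 / (jac f (cS (ch k) σ z) * c.cc i)
      ring) (pi i hi))
    (n1 f _ _ 3 _ _ _ _ _ _ (by norm_num) gw B0 (fun i j hi hj => (Tl i j hi hj).v)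
      fun i hi => (Tc i hi).v)
  obtain ⟨g1, g2, g3, g4⟩ := geo g hn hσ cs fun i hi s => ((hch.2 k).2 i hi s).2.1
  obtain ⟨q1', q2', q3'⟩ := eqs (D0 := 12 * (c.q * X * np c.N (-8 / 100))) (H := hc c.N) A0 π0 u0.le
    p7.le t8 (t7.trans t6) (by linarith only [π1, t2, m8, X0]) m7'
    (by linarith only [t3, t2, m8, X0]) m9a m9b m9c m9d
    (by linarith only [mul_le_mul_of_nonneg_left p8 (X0.le.trans t2), m8, u0])
    (show u ≤ np c.N (-1 / 20) from hu ▸ g.big.np_le (by norm_num)) rfl rfl rfl rfl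
  obtain ⟨v1, v2, v3, v4⟩ := nus u0.le X0.le g.J4N_pos.le (A0.trans A1) m2 m1 t3 t2 m8 m4 t4 m7 m7' J1
  have dfe : (FPm c.N A π 10).df = 10 * μ := by rw [hμ]; exact (mul_one_div _ _).symm
  have th : 10 * np c.N (-1 / 20) ≤ 1 / 100 := by linarith only [m11]
  refine ((n2 f _ z hf hS M0 M0').2 μ μ (u ^ 2) (A + np c.N (-7 / 10)) (3 * u) (2 * u ^ 2)
    ⟨m1, by linarith only [t5, m2, u0], by linarith only [t5, m2, u0],
      by linarith only [t7, m5, A0, A1], ?_⟩ (E0 ▸ B0) fun i => ?_).2 _ _ _ _ _ (E0 ▸ B1) g1 g2 g3 g4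
    th th q1' q2' q3' (by linarith only [dfe, μ0]) (by linarith only [dfe, μ0])
  · linarith only [le_mul_of_one_le_right μ0.le m6, m2, u0]
  · subst hX
    exact tb_bm (tb_le (n1 f _ _ 3 _ _ _ _ _ _ (by norm_num) gw
      (fun a b => (E1 i a b).trans_le ((one_mul _).symm.trans_le ((T a b).s i)))
      (fun a b ha hb => by rw [E1]; exact (Tl a b ha hb).s i)
      fun a ha => by rw [E1]; exact (Tc a ha).s i) v1 v2 v3 v4)

end
end Pool.Agent.MP_20bec2_an.T3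

end MrgPart1

-- marker of a merged file
example : 731051 + 744997 = 731051 + 744997 := rfl

end MrgPart1

-- ======== part 2: formerly Pool.Agent.MP_20bec2_an.T3.Fl1
section MrgPart2

/-! The long slide of one cube: a vertical slide followed by a small lateral correction. -/

set_option autoImplicit false
open MeasureTheory Set Filter Matrix Topology

namespace Pool.Agent.MP_20bec2_an.T3
noncomputable section
open Classical

namespace Fl1P

/-- the oscillating profile -/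
def wav (α : V → ℝ) (l : ℝ) (z : V) : ℝ := α z * Real.cos (z 0 / l)

lemma sm_cos (l : ℝ) : Sm fun z : V => Real.cos (z 0 / l) :=
  Real.contDiff_cos.comp ((sm_coord 0).div_const l)

lemma sm_sin (l : ℝ) : Sm fun z : V => Real.sin (z 0 / l) :=
  Real.contDiff_sin.comp ((sm_coord 0).div_const l)

lemma pd_lin (l : ℝ) (z : V) : pd 0 (fun y : V => y 0 / l) z = 1 / l := by
  have h := congrFun (pds_div_const l (fun y : V => y 0) [0]) z
  simp only [pds] at h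
  rw [h, pd_coord, if_pos rfl]

lemma pd_cos (l : ℝ) :
    pd 0 (fun z : V => Real.cos (z 0 / l)) = fun z => -(1 / l) * Real.sin (z 0 / l) := by
  funext z
  rw [pd_comp_at (φ := Real.cos) (g := fun y : V => y 0 / l) Real.differentiableAt_cos
    (Sm.dif ((sm_coord 0).div_const l) z), pd_lin, Real.deriv_cos]
  ring

lemma pd_sin (l : ℝ) :
    pd 0 (fun z : V => Real.sin (z 0 / l)) = fun z => 1 / l * Real.cos (z 0 / l) := by
  funext z
  rw [pd_comp_at (φ := Real.sin) (g := fun y : V => y 0 / l) Real.differentiableAt_sin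
    (Sm.dif ((sm_coord 0).div_const l) z), pd_lin, Real.deriv_sin]
  ring

lemma sm_wav {α : V → ℝ} (hα : Sm α) (l : ℝ) : Sm (wav α l) := hα.mul (sm_cos l)

lemma wav00 {α : V → ℝ} (hα : Sm α) {l : ℝ} (hl : l ≠ 0) (z : V) :
    l ^ 2 * pd 0 (pd 0 (wav α l)) z + wav α l z =
      l ^ 2 * pd 0 (pd 0 α) z * Real.cos (z 0 / l) - 2 * l * pd 0 α z * Real.sin (z 0 / l) := by
  have e1 : pd 0 (wav α l) = fun z => pd 0 α z * Real.cos (z 0 / l) +
      α z * (-(1 / l) * Real.sin (z 0 / l)) := by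
    have := pd_mul hα (sm_cos l) 0
    rw [pd_cos] at this
    exact this
  have s1 := (sm_sin l).cmul (-(1 / l))
  rw [e1, pd_add ((hα.pd 0).mul (sm_cos l)) (hα.mul s1), pd_mul (hα.pd 0) (sm_cos l),
    pd_mul hα s1, pd_cos]
  simp only [pd_const_mul, pd_sin, wav]
  field_simp
  ring

lemma wav_bd {O : Mx} {D l q : ℝ} {α : V → ℝ} (hD : 0 < D) (hl : 0 < l) (hlD : l ≤ D) (hα : Sm α)
    (h0 : ∀ z, z ∉ RX O D (85 / 100) → α z = 0) (hb : CB 4 (cv D) (RX O D 1) α q) (hq : 0 ≤ q) :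
    CB 4 ![l, D, D] univ (wav α l) (16 * q) ∧
      ∀ z, |l ^ 2 * pd 0 (pd 0 (wav α l)) z + wav α l z| ≤ 3 * q * (l / D) := by
  have hu : CB 4 (cv D) univ α q :=
    CBl.extend (K := RX O D 1) (by rwa [univ_inter]) (Prof.RX_closed _ _ _)
      (fun z hz => h0 z fun h => hz (Prof.RX_mono O hD.le (by norm_num) h)) hq
  have w0 : ∀ i, 0 ≤ (![l, D, D] : V) i := fun i => by fin_cases i <;> simp [hl.le, hD.le]
  constructor
  · have h1 : CB 4 ![l, D, D] univ α q :=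
      CBl.monoh hu w0 fun i => by fin_cases i <;> simp [cv, hlD]
    have h2 := cb_coordfn (n := 4) (U := univ) (M := 1) (κ := 1) w0 Real.contDiff_cos 0 hl 0 le_rfl
      (by simp) fun j _ x _ => Real.abs_iteratedDeriv_cos_le_one j _
    simp only [sub_zero] at h2
    exact CBl.monoB (CB.mul w0 hα (sm_cos l) h1 h2) (by norm_num)
  · intro z
    have b1 := hu [0] (by simp) z (mem_univ _)
    have b2 := hu [0, 0] (by simp) z (mem_univ _)
    simp only [hp_cv, pds, List.length_cons, List.length_nil, zero_add, pow_one] at b1 b2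
    have r0 : 0 ≤ l / D := by positivity
    have r1 : l / D ≤ 1 := (div_le_one hD).2 hlD
    have c1 : l * |pd 0 α z| ≤ q * (l / D) := by
      rw [show l * |pd 0 α z| = D * |pd 0 α z| * (l / D) by field_simp]
      exact mul_le_mul_of_nonneg_right b1 r0
    have c2 : l ^ 2 * |pd 0 (pd 0 α) z| ≤ q * (l / D) := by
      rw [show l ^ 2 * |pd 0 (pd 0 α) z| = D ^ (1 + 1) * |pd 0 (pd 0 α) z| * (l / D) * (l / D) by
        field_simp]
      exact mul_le_mul_of_nonneg_right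
        ((mul_le_of_le_one_right (by positivity) r1).trans b2) r0
    rw [wav00 hα hl.ne']
    refine (abs_sub _ _).trans ?_
    simp only [abs_mul, abs_pow, abs_of_pos hl, abs_two]
    have d1 := mul_le_of_le_one_right (show 0 ≤ l ^ 2 * |pd 0 (pd 0 α) z| by positivity)
      (Real.abs_cos_le_one (z 0 / l))
    have d2 := mul_le_of_le_one_right (show 0 ≤ 2 * l * |pd 0 α z| by positivity)
      (Real.abs_sin_le_one (z 0 / l))
    linarith

/-- the common size of the errors -/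
def ee (c : Pm) : ℝ := (c.N : ℝ) ^ 2 * np c.N (-23)

/-- the inequalities between parameters -/
structure Pr (c : Pm) (l c0 : ℝ) : Prop where
  l0 : 0 < l
  c0p : 0 < c0
  hw : ∀ i, c.hs i ≤ (![l, c.D, c.D] : V) i
  lD : l ≤ c.D
  a1 : 16 * c.q * c0 * l ≤ (c.N : ℝ) ^ 2 * c.lam / 4
  a2 : 16 * c.q * (l / c.D) ≤ ee c
  a3 : 16 * c.q * c0 * l / c.D ≤ ee c
  a4 : c0 * l ^ 2 * (16 * c.q / c.D) ≤ np c.N (-24) * c.l1
  a5 : np c.N (-24) * c.wL ≤ np c.N (-23)
  a6 : np c.N (-23) ≤ 1 / (c.N * c.J ^ 9)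
  a7 : 2 * pA c.N * np c.N (-24) * c.l1 ≤ ee c * c.lam
  a8 : 16 * c.q * (2 * pA c.N * np c.N (-24)) ≤ ee c
  b1 : Real.sqrt (c.η * c.p) ≤ Real.sqrt (c.J / c.N)
  b2 : 16 * c.q * Real.sqrt (c.J / c.N) ≤ 1
  b3 : c.cc 1 / c.n12 * c0 ≤ 1
  b4 : c.cc 0 / c.n12 * c0 = Real.sqrt (c.η * c.p)
  e0 : 0 < ee c
  e1 : ee c ≤ Real.sqrt (c.J / c.N) / 2
  e2 : ee c ≤ np c.N (-245 / 1000)
  e3 : 6 * ee c ≤ np c.N (-15)
  g1 : 4 * np c.N (95 / 100) ≤ c.N
  g2 : 1 ≤ np c.N (95 / 100)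
  g3 : (FPl c.N (np c.N (-23))).Sml
  g4 : 1 ≤ pA c.N

lemma pr {c : Pm} (G : Gd c) (hk : c.k = mid c.N) {j : ℕ} (hj : j < 8) :
    Pr c (c.lA / (j + 1)) (Real.sqrt c.p * c.s1 * c.n12) := by
  have := G.N_pos; have := G.J_pos; have := G.q_pos; have := G.lam_pos; have := G.D_pos
  have := G.l1_pos; have := G.lA_pos; have := G.p_pos; have := G.s1_pos; have := G.n12_pos
  have := G.η_pos; have := G.c1_pos; have := G.c2_pos; have := G.s2_pos; have := G.y_pos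
  have hA := G.big.pA_pos
  have n1 := G.big.np_pos (-23); have n2 := G.big.np_pos (-24); have n3 := G.big.np_pos (-15)
  have n4 := G.big.np_pos (-245 / 1000); have n5 := G.big.np_pos (95 / 100)
  have hJ := G.big.J_ge; have hL := G.big.L_ge
  have hJ' : 0 < pJ c.N := G.big.J_pos
  have j1 : (1 : ℝ) ≤ j + 1 := by simp
  have j8 : (j : ℝ) + 1 ≤ 8 := by exact_mod_cast hj
  have k2 := log2_bd
  have k4 := logc_bd (show (1 : ℝ) ≤ 4 by norm_num)
  have k6 := logc_bd (show (1 : ℝ) ≤ 6 by norm_num)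
  have k16 := logc_bd (show (1 : ℝ) ≤ 16 by norm_num)
  have k100 := logc_bd (show (1 : ℝ) ≤ 100 by norm_num)
  have kj := logc_bd j1
  have hD : 27 * pJ c.N + Real.log c.lam ≤ Real.log c.D := by
    have h1 := Real.log_le_log (G.big.np_pos 23) G.big.two_pow_mid.1
    rw [G.big.log_np, Real.log_pow, ← hk] at h1
    linarith [G.log_D, G.log_lam]
  have hlA := G.log_lA
  have hl1 := G.log_l1
  have hro := G.log_ro_bd
  have hp : Real.log c.p ≤ -(2 * pL c.N) := by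
    linarith [G.log_p.1, G.log_pf, G.log_e4.2.1]
  have hsr : Real.log c.s1 + Real.log c.ro ≤ pJ c.N + 1 - 2 * pL c.N := by
    linarith [G.log_ro, G.log_m_le, G.log_K, G.log_n12, G.log_n12_bd.2, G.log_e4.2.1,
      G.log_K_bd.1]
  have hn := G.log_n12_bd
  have e0 : 0 < ee c := by unfold ee; positivity
  have le : Real.log (ee c) = -21 * pJ c.N := by
    unfold ee
    rw [Real.log_mul (by positivity) n1.ne', Real.log_pow, G.big.log_np, G.big.log_N]
    push_cast; ring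
  have lD : c.lA / (j + 1) ≤ c.D := le_of_log (by positivity) (by positivity) (by
    rw [Real.log_div (by positivity) (by positivity)]; linarith)
  have wl : c.wL ≤ c.N := max_le (by linarith [G.big.N_ge]) (le_of_log (by positivity) G.N_pos (by
    simp (disch := positivity) only [Real.log_div, Real.log_mul, G.log_c1, G.log_c2, G.big.log_N]
    linarith [G.log_η_le, G.log_K, G.log_K_bd.2]))
  refine ⟨by positivity, by positivity, fun i => ?_, lD, ?_, ?_, ?_, ?_, ?_, ?_, ?_, ?_,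
    Real.sqrt_le_sqrt ?_, ?_, ?_, ?_, e0, ?_, ?_, ?_, ?_, ?_, ⟨?_, ?_, le_rfl, ?_, ?_, ?_⟩, ?_⟩
  · fin_cases i
    · exact (le_of_log G.l1_pos (by positivity) (by
        rw [Real.log_div (by positivity) (by positivity)]; linarith) : c.l1 ≤ c.lA / (j + 1))
    · exact (le_of_log G.lam_pos G.D_pos (by linarith) : c.lam ≤ c.D)
    · exact (le_of_log G.y_pos G.D_pos (by linarith [G.log_y]) : c.y ≤ c.D)
  any_goals
    simp only [FPl]
  any_goals
    refine le_of_log (by positivity) (by positivity) ?_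
    simp (disch := positivity) only [Real.log_div, Real.log_mul, Real.log_pow, Real.log_sqrt,
      Real.log_one, G.log_q, G.log_J, G.big.log_N, G.big.log_np, G.big.log_pA, G.big.log_J, le,
      Pm.cc, Matrix.cons_val_one, Matrix.cons_val_zero, G.log_c2]
    push_cast
    linarith [G.log_K, G.log_K_bd.1]
  · refine (mul_le_mul_of_nonneg_left wl n2.le).trans (le_of_eq ?_)
    rw [← np_one c.N, np_one c.N, show (-23 : ℝ) = -24 + 1 by norm_num, G.big.np_add, np_one]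
  · refine G.ηp_le.trans (le_of_eq ?_)
    have := G.big.q_pos
    simp only [Pm.q, Pm.J, pX]
    field_simp
  · rw [Real.sqrt_mul G.η_pos.le]
    simp only [Pm.cc, Pm.c1, Matrix.cons_val_zero]
    field_simp
  all_goals positivity

lemma mem_iff {S : V → V} {K : Set V} (hS : Function.Bijective S) (h : ∀ z, z ∉ K → S z = z)
    {z : V} (hz : z ∈ K) : S z ∈ K := by
  by_contra hn
  exact hn (by rwa [hS.1 (h _ hn)])

lemma mw_mono {c : Pm} (G : Gd c) {M : V → ℝ} {U U' : Set V} (H : c.MW (1 / 1000) 1 M U)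
    (hU : U' ⊆ U) {g : V → ℝ} {e : ℝ} (hM : Sm M) (hg : Sm g) (B : CB 2 c.hs univ g e)
    (e1 : e ≤ 1 / 1000) (e2 : e ≤ np c.N (-245 / 1000)) :
    c.MW (1 / 100) 50 (fun z => M z + g z) U' := by
  have h0 : ∀ i, 0 ≤ c.hs i := fun i => (G.hs_pos i).le
  have hq : 10000000 ≤ c.q := G.big.q_ge
  have hn := G.big.np_pos (-245 / 1000)
  refine ⟨fun z hz => ?_, CBl.monoB (CBl.add h0 hM hg (CBl.monoU H.2.1 hU)
    (CBl.monoU B (subset_univ _))) (by linarith), CBl.monoB (CBl.add h0 hM hg (CBl.monoU H.2.2 hU)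
    (CBl.monoU B.toCL (subset_univ _))) (by linarith)⟩
  have h1 := abs_le.1 (H.1 z (hU hz))
  have h2 := abs_le.1 (B.val (mem_univ z))
  exact abs_le.2 ⟨by linarith, by linarith⟩

end Fl1P

open Fl1P in
theorem fl1 (hN : NatStmt) (hV : VlStmt) (hL : LsStmt) (hE : LeStmt) : Fl1Stmt := by
  unfold Fl1Stmt NatStmt VlStmt LsStmt LeStmt EvC at *
  filter_upwards [hN, hV, hL, hE, ev_gd] with N hN hV hL hE hG c hc ho O f α j m hk hO hf hj hj8
    hα h0 h1 hb hM hm hI hW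
  have G := hG c hc ho
  replace hN := (hN c hc ho).2
  replace hV := hV c hc ho
  replace hL := hL c hc ho
  obtain ⟨-, E2, E3, E4⟩ := hE c hc ho
  have P := pr G hk hj8
  generalize c.lA / (j + 1) = l at P ⊢
  generalize Real.sqrt c.p * c.s1 * c.n12 = c0 at P
  obtain ⟨B, Bs⟩ := wav_bd G.D_pos P.l0 P.lD hα h0 hb G.q_pos.le
  have sψ := sm_wav hα l
  have ψ1 : ∀ z, |wav α l z| ≤ 1 := fun z => by
    rw [wav, abs_mul]
    exact mul_le_one₀ (h1 z) (abs_nonneg _) (Real.abs_cos_le_one _)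
  have ψ0 : ∀ L z, z ∉ RX O c.D (85 / 100) → pds L (wav α l) z = 0 :=
    pds_zero_off (Prof.RX_closed _ _ _) fun z hz => by rw [wav, h0 z hz, zero_mul]
  change ∃ S, _ ∧ _ ∧ _ ∧ ∀ z ∈ _, LE c f _ _ z (_ * wav α l z) _ _ _ _
  generalize wav α l = ψ at *
  have hl := P.l0; have hD := G.D_pos; have hc0 := P.c0p; have he := P.e0
  have hq : 10000000 ≤ c.q := G.big.q_ge
  have hlam := G.lam_pos; have hN0 := G.N_pos
  have w0 : ∀ i, 0 < (![l, c.D, c.D] : V) i := fun i => by fin_cases i <;> simp [hl, hD]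
  have h0' : ∀ i, 0 ≤ c.hs i := fun i => (G.hs_pos i).le
  have sub : ∀ {r r' : ℝ}, r ≤ r' → RX O c.D r ⊆ RX O c.D r' := fun h => Prof.RX_mono O hD.le h
  set r := Real.sqrt (c.η * c.p) with hr
  set R := Real.sqrt (c.J / c.N) with hR
  have r0 : 0 ≤ r := Real.sqrt_nonneg _
  have R0 : 0 ≤ R := Real.sqrt_nonneg _
  have rR : r ≤ R := P.b1
  have R1 : R ≤ 1 / 1000 := by nlinarith [P.b2]
  have e1 : ee c ≤ R / 2 := P.e1
  have cp : ∀ i, 0 < c.cc i / c.n12 := fun i => div_pos (G.cc_pos i) G.n12_pos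
  -- the two data
  set a : V → ℝ := fun z => -(c0 * l ^ 2) * pd 0 ψ z with ha
  set b : V → ℝ := fun z => c0 * l ^ 2 * pd 2 ψ z with hb'
  have sa : Sm a := (sψ.pd 0).cmul _
  have sb : Sm b := (sψ.pd 2).cmul _
  have a0 : ∀ z, z ∉ RX O c.D (85 / 100) → a z = 0 := fun z hz => by
    have := ψ0 [0] z hz
    simp only [pds] at this
    simp only [ha, this, mul_zero]
  have b0 : ∀ z, z ∉ RX O c.D (85 / 100) → b z = 0 := fun z hz => by
    have := ψ0 [2] z hz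
    simp only [pds] at this
    simp only [hb', this, mul_zero]
  have Ba : CB 3 ![l, c.D, c.D] univ a (16 * c.q * c0 * l) :=
    CBl.monoB (CBl.smul (CB.pd_div w0 B 0) _) (le_of_eq (by
      rw [abs_neg, abs_of_pos (by positivity)]
      simp only [Matrix.cons_val_zero]
      field_simp))
  have Bj : ∀ i, CB 2 c.hs univ (pd i a) (16 * c.q * c0 * l / (![l, c.D, c.D] : V) i) := fun i =>
    CBl.monoh (CB.pd_div w0 Ba i) h0' P.hw
  have B0 : CB 2 c.hs univ (pd 0 a) (16 * c.q * c0) :=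
    CBl.monoB (Bj 0) (le_of_eq (by simp only [Matrix.cons_val_zero]; field_simp))
  have B1 : CB 2 c.hs univ (pd 1 a) (16 * c.q * c0 * l / c.D) := Bj 1
  have B2 : CB 2 c.hs univ (pd 2 a) (ee c) := CBl.monoB (Bj 2) P.a3
  have Bb : CB 2 c.hs univ b (np c.N (-24) * c.hs 0) :=
    CBl.monoB (CBl.monoh (CB.of_le (CBl.smul_nonneg (CB.pd_div w0 B 2)
      (show 0 ≤ c0 * l ^ 2 by positivity)) (show 2 ≤ 3 by norm_num)) h0' P.hw) P.a4
  have c1 : ∀ x, x ≤ 16 * c.q * c0 * l / c.D → c.cc 1 / c.n12 * x ≤ ee c := fun x hx => by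
    refine (mul_le_mul_of_nonneg_left hx (cp 1).le).trans (le_trans ?_ P.a2)
    rw [show c.cc 1 / c.n12 * (16 * c.q * c0 * l / c.D) =
      c.cc 1 / c.n12 * c0 * (16 * c.q * (l / c.D)) by ring]
    exact mul_le_of_le_one_left (by positivity) P.b3
  have sh : ∀ z, |c.cc 0 / c.n12 * pd 0 a z - r * ψ z| ≤ r * ee c := fun z => by
    rw [show c.cc 0 / c.n12 * pd 0 a z - r * ψ z = -(r * (l ^ 2 * pd 0 (pd 0 ψ) z + ψ z)) by
      rw [ha, pd_const_mul, hr, ← P.b4]; ring, abs_neg, abs_mul, abs_of_nonneg r0]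
    have : 0 ≤ c.q * (l / c.D) := by positivity
    exact mul_le_mul_of_nonneg_left ((Bs z).trans (by linarith [P.a2])) r0
  have u2 : ∀ z, |c.cc 0 / c.n12 * pd 0 a z| ≤ 2 * R := fun z => by
    have h2 := abs_sub_abs_le_abs_sub (c.cc 0 / c.n12 * pd 0 a z) (r * ψ z)
    rw [abs_mul r, abs_of_nonneg r0] at h2
    nlinarith [sh z, ψ1 z]
  -- the vertical slide
  obtain ⟨S1, s1, i1, j1, r1⟩ := hV O (87 / 100) m f a hO hf hj sa
    (fun z hz => a0 z fun h => hz (sub (by norm_num) h))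
    (by simpa only [add_zero] using mw_mono G hM (sub (by norm_num)) hf.jac (sm_const 0)
          (cb_const (c := 0) (by simp)) (show (0 : ℝ) ≤ 1 / 1000 by norm_num) (G.big.np_pos _).le)
    (by linarith) (fun z hz => hI z (sub (by norm_num) hz)) fun z => ⟨(Ba.val (mem_univ z)).trans
      P.a1, ((B2.val (mem_univ z)).trans (by linarith)), fun i hi => by
      have k1 := (CB.pd_le (CBl.monoh Ba h0' P.hw) (by norm_num) i (mem_univ z)).trans P.a1
      have k2 : 0 ≤ (c.N : ℝ) ^ 2 * c.lam := by positivity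
      refine ⟨by linarith, ?_⟩
      fin_cases i
      · have k3 := u2 z
        rw [abs_mul, abs_of_pos (cp 0)] at k3
        refine ⟨k3, fun i => ?_⟩
        refine (mul_le_mul_of_nonneg_left (B0.pd_le (by norm_num) i (mem_univ z)) (cp 0).le).trans ?_
        rw [show c.cc 0 / c.n12 * (16 * c.q * c0) = 16 * c.q * (c.cc 0 / c.n12 * c0) by ring, P.b4]
        exact (mul_le_mul_of_nonneg_left rR (by positivity)).trans P.b2
      · exact ⟨(c1 _ (B1.val (mem_univ z))).trans (by linarith),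
          fun i => (c1 _ (B1.pd_le (by norm_num) i (mem_univ z))).trans (by linarith)⟩
      · exact absurd rfl hi⟩
  have sf1 : Sm (f ∘ S1) := hf.comp s1.1
  have M1 : c.MW (1 / 100) 50 (jac (f ∘ S1)) (RX O c.D (87 / 100 + 1 / 1000)) := by
    rw [funext j1]
    exact mw_mono G hM (sub (by norm_num)) hf.jac (sa.pd 2) B2 (by linarith) P.e2
  have p1 : ∀ z, 0 < jac (f ∘ S1) z := fun z => by
    by_cases hz : z ∈ RX O c.D (85 / 100)
    · linarith [(abs_le.1 (M1.1 z (sub (by norm_num) hz))).1]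
    · have := pds_zero_off (Prof.RX_closed _ _ _) a0 [2] z hz
      simp only [pds] at this
      rw [j1, this, add_zero]
      exact hj z
  -- the lateral correction
  have n24 := G.big.np_pos (-24)
  obtain ⟨S2, s2, i2, j2, d2, r2⟩ := hL O (87 / 100) (f ∘ S1) 0 b (np c.N (-24)) (np c.N (-23))
    (by decide) hO sf1 p1 sb n24.le P.a5 P.a6 (fun z hz => b0 z fun h => hz (sub (by norm_num) h))
    M1 (fun z => (Bb.val (mem_univ z)).trans (by
      rw [mul_assoc]; exact le_mul_of_one_le_left (mul_nonneg n24.le (h0' 0)) P.g4)) Bb.toCV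
  have jj : ∀ z, jac ((f ∘ S1) ∘ S2) z = jac f z := fun z => by
    rw [j2, j1, ha, hb', pd_const_mul, pd_const_mul, pd_comm sψ 2 0]
    ring
  refine ⟨S1 ∘ S2, ⟨s1.1.comp s2.1, s1.2.comp s2.2⟩, fun z hz => ?_, jj, fun z hz => ?_⟩
  · rw [Function.comp_apply, i2 z (b0 z hz), i1 z (a0 z hz)]
  have z1 : S2 z ∈ RX O c.D (87 / 100) :=
    mem_iff s2.2 (fun w hw => i2 w (b0 w fun h => hw (sub (by norm_num) h))) hz
  have z0 : S1 (S2 z) ∈ RX O c.D (87 / 100) :=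
    mem_iff s1.2 (fun w hw => i1 w (a0 w fun h => hw (sub (by norm_num) h))) z1
  have L1 := r1 _ z1 (hW _ z0)
  have m1 := c1 _ (B1.val (mem_univ (S2 z)))
  have W3 : c.GW (f ∘ S1) (S2 z) 3 := by
    have := (E4 _ _ _ _ _ _ _ _ _ L1 (G.big.np_pos _).le).1 ((u2 _).trans (by linarith))
      (by linarith) 2 (by norm_num) le_rfl (hW _ z0)
    rwa [show (2 : ℝ) + 1 = 3 by norm_num] at this
  have F := (r2 z hz).2 W3
  have L2 : LE c (f ∘ S1) ((f ∘ S1) ∘ S2) (S2 z) z 0 (ee c) (ee c) 2 0 := by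
    refine ⟨rfl, fun i _ => ?_, ?_, ⟨_, (hN _ S2 z sf1 s2.1 (p1 _).ne'
      (by rw [jj]; exact (hj z).ne')).1.1, fun i k => ?_⟩, fun d hd hD => ?_⟩
    · rw [abs_sub_comm]
      refine (d2 z i).trans ?_
      split_ifs
      · exact P.a7
      · positivity
    · rw [abs_sub_comm, zero_mul]
      simpa using d2 z 2
    · rw [zero_smul, sub_zero]
      refine ((r2 z hz).1 i k).trans (le_of_eq ?_)
      fin_cases i <;> fin_cases k <;> rfl
    · obtain ⟨g1, g2, g3, g4, g5, g6⟩ := P.g3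
      exact (Fc.di_step h0' P.g3 F hd hD).mono (by nlinarith)
  have L3 := E3 _ _ _ _ _ _ _ _ _ _ _ _ _ _ _ _ ((u2 _).trans (by linarith)) (by linarith)
    (by norm_num) P.g2 (by norm_num) (by linarith) (by linarith) (by norm_num) L1 L2
  refine E2 _ _ _ _ _ _ _ _ _ _ _ _ _ _ _ (EventuallyEq.refl _ _) ?_ (by linarith [P.e3])
    (by linarith [P.g1]) (by norm_num) L3
  have mv : |ψ z - ψ (S2 z)| ≤ ee c := by
    refine (CV.mvt w0 convex_univ sψ B.toCV (by norm_num) (mem_univ z) (mem_univ (S2 z))).trans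
      (le_trans (mul_le_mul_of_nonneg_left ?_ (by positivity)) P.a8)
    have k0 := d2 z 0; have k1 := d2 z 1; have k2 := d2 z 2
    rw [if_pos rfl, abs_sub_comm] at k0
    rw [if_neg (by decide), abs_sub_comm] at k1 k2
    rw [Fin.sum_univ_three, le_antisymm k1 (abs_nonneg _), le_antisymm k2 (abs_nonneg _)]
    simp only [zero_div, add_zero, Matrix.cons_val_zero]
    rw [div_le_iff₀ hl]
    exact k0.trans (mul_le_mul_of_nonneg_left (P.hw 0) (by have := G.big.pA_pos; positivity))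
  have t1 := abs_sub_le (r * ψ z) (r * ψ (S2 z)) (c.cc 0 / c.n12 * pd 0 a (S2 z))
  rw [← mul_sub, abs_mul, abs_of_nonneg r0, abs_sub_comm (r * ψ (S2 z))] at t1
  rw [add_zero]
  have t2 := mul_le_mul_of_nonneg_left mv r0
  have t3 : r * ee c ≤ ee c := mul_le_of_le_one_left he.le (by linarith)
  linarith [sh (S2 z), P.e3]

end
end Pool.Agent.MP_20bec2_an.T3

end MrgPart2

-- marker of a merged file
example : 731051 + 252343 = 731051 + 252343 := rfl
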