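import Pool.Agent.MP_20bec2_an.T3.Vtr
import Pool.Agent.MP_20bec2_an.T3.CrA
import Pool.Agent.MP_20bec2_an.T3.Zt
import Mathlib.Analysis.SpecialFunctions.Trigonometric.Bounds
import Pool.Agent.MP_20bec2_an.T3.Par4
import Pool.Agent.MP_20bec2_an.T3.Fcomp

-- ======== part 0: formerly Pool.Agent.MP_20bec2_an.T3.Cvs2A
section MrgPart0

-- ======== part 0: formerly Pool.Agent.MP_20bec2_an.T3.SpecF
section MrgPart0

/-! Sub-statements for the rows FMAIN, FMG, GABS, FLONG. -/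

set_option autoImplicit false
open MeasureTheory Set Filter Matrix Topology

namespace Pool.Agent.MP_20bec2_an.T3
noncomputable section
open Classical

/-! ## 0. natural algebra -/

def Pm.GW (c : Pm) (f : V → V) (z : V) (t : ℝ) : Prop :=
  EB (c.gam f z - c.gref) (t • bm (c.J ^ 4 / c.N) (hc c.N) (1 / 10))
def Pm.MW (c : Pm) (e t : ℝ) (M : V → ℝ) (U : Set V) : Prop :=
  (∀ z ∈ U, |M z - 1| ≤ e) ∧ CB 2 c.hs U M (t * c.q) ∧ CL 2 c.hs U M (t * np c.N (-245 / 1000))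
def Pm.cj (c : Pm) (M : ℝ) : V := ![c.c1, c.c2, c.n12 / M]
/-- `ca (f ∘ S) z = ca f (S z) * Em f S z` -/
def Pm.Em (c : Pm) (f S : V → V) (z : V) : Mx :=
  Matrix.of fun a b => jm S z a b * c.cj (jac (f ∘ S) z) b / c.cj (jac f (S z)) a
/-- lateral block, row 2, column 2, corner -/
def tb4 (l r k d : ℝ) : Mx := !![l, l, k; l, l, k; r, r, d]
/-- sizes of `Em - 1` that cost a factor `μ` against `Xj` -/
def Pm.ET (c : Pm) (μ l r k d : ℝ) : Prop := μ ≤ 1 / 100 ∧ l ≤ μ ∧ d ≤ μ ∧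
  r ≤ μ * (c.J / Real.sqrt c.N) ∧ k ≤ μ * (Real.sqrt c.N / c.J ^ 2)
/-- a smooth bijection -/
def SB' (S : V → V) : Prop := Sm S ∧ Function.Bijective S

def NatStmt : Prop := EvC fun c =>
  (∀ (f : V → V) (z : V) (e : Mx) (t l l' r k k' d : ℝ), 0 ≤ t → c.GW f z t →
    EB e (tb4 l' r k' d) → (∀ i j, i ≠ 2 → j ≠ 2 → c.dgn i * |e i j| ≤ l) →
    (∀ i, i ≠ 2 → c.dgn i * |e i 2| ≤ k) →
    EB (c.gam f z * e) (tb4 (l + 2 * (t * (c.J ^ 4 / c.N)) * l' + t * hc c.N * r)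
      (2 * (t * hc c.N) * l' + (1 + t / 10) * r)
      (k + 2 * (t * (c.J ^ 4 / c.N)) * k' + t * hc c.N * d)
      (2 * (t * hc c.N) * k' + (1 + t / 10) * d))) ∧
  ∀ (f S : V → V) (z : V), Sm f → Sm S → jac f (S z) ≠ 0 → jac (f ∘ S) z ≠ 0 →
  (c.ca (f ∘ S) z = c.ca f (S z) * c.Em f S z ∧
    c.gam (f ∘ S) z = (c.Em f S z)ᵀ * c.gam f (S z) * c.Em f S z ∧
    Th f (f ∘ S) (S z) z = jm S z ∧ jac (f ∘ S) z = jac f (S z) * jac S z) ∧
  ∀ μ ν l r k d : ℝ, c.ET μ l r k d → EB (c.Em f S z - 1) (tb4 l r k d) →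
    (∀ i, EB (c.gam f (S z) * (c.hs i • Ftr.Dm i (c.Em f S) z)) (ν • Xj c.N)) →
    (∀ κ, (∀ i, ∑ j, |jm S z j i| * c.hs i / c.hs j ≤ κ) →
      ∀ t, 0 ≤ t → c.DI f (S z) t → c.DI (f ∘ S) z (3 * ν + 2 * κ * t)) ∧
    ∀ (P : FP) (Hl Hr Hc Hd : ℝ), EB (c.gam f (S z) * (c.Em f S z - 1)) (tb4 Hl Hr Hc Hd) →
      (∀ i, i ≠ 2 → |z i - S z i| ≤ P.dl * c.hs i) → |z 2 - S z 2| ≤ P.dv * c.y →
      (∀ a b, ¬ (a = 2 ∧ b = 2) → |(jm S z - 1) a b| * c.hs b ≤ P.th * c.hs a) →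
      |jm S z 2 2 - 1| ≤ P.t3 → P.th ≤ 1 / 100 → P.t3 ≤ 1 / 100 →
      3 * Hl + r * Hr ≤ P.eg → Hc + 2 * Hr + 2 * k * Hl ≤ P.eh → 3 * Hd + 2 * k * Hc ≤ P.ek →
      3 * ν ≤ P.df → 8 * μ ≤ P.df → FRel c f (f ∘ S) (S z) z P

/-- gluing of maps with disjoint supports -/
def GluStmt : Prop := ∀ (K : Cu → Set V) (S : Cu → V → V) (p : Cu → Prop), (∀ g, IsClosed (K g)) →
  LocallyFinite K → (∀ g g' z, p g → p g' → z ∈ K g → z ∈ K g' → g = g') →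
  (∀ g, p g → SB' (S g) ∧ ∀ z, z ∉ K g → S g z = z) →
  ∃ T, SB' T ∧ (∀ g, p g → ∀ z ∈ K g, T =ᶠ[𝓝 z] S g ∧ T z ∈ K g) ∧
    ∀ z, (∀ g, p g → z ∉ K g) → T =ᶠ[𝓝 z] id

/-! ## 1. single slides (hat coordinates) -/

def FPv (N : ℕ) (e : ℝ) : FP :=
  ⟨0, qp N (13 / 10), np N (-11 / 10), np N (-3 / 5), np N (-1), np N (-1 / 5), 3 * e,
    np N (-1 / 10)⟩
/-- straight vertical slide, size `q y` -/
def VsStmt : Prop := EvC fun c => ∀ (O : Mx) (r e : ℝ) (f : V → V) (a : V → ℝ), Orth O → Sm f →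
  (∀ z, 0 < jac f z) → Sm a → e ≤ 1 / 1000 → (∀ z, z ∉ RX O c.D r → a z = 0) →
  c.MW e 50 (jac f) (RX O c.D (r + 1 / 1000)) →
  (∀ z ∈ RX O c.D r, |jac f z + pd 2 a z - 1| ≤ e) →
  CB 2 c.hs univ a (qp c.N (6 / 5) * c.y) → CL 2 c.hs univ a (np c.N (-24 / 100) * c.y) →
  ∃ S, SB' S ∧ (∀ z, a z = 0 → S z = z) ∧ (∀ z, jac (f ∘ S) z = jac f z + pd 2 a z) ∧
    ∀ z ∈ RX O c.D r, c.GW f (S z) 3 → FRel c f (f ∘ S) (S z) z (FPv c.N e)

def Pm.wL (c : Pm) : ℝ := max 1 (c.c1 * c.lam / (c.c2 * c.l1))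
def FPl (N : ℕ) (β : ℝ) : FP :=
  ⟨pJ N ^ 22 * β, 0, 100 * β, Real.sqrt N * β, np N (93 / 100) * β, pJ N ^ 22 * β, 0, N * β⟩
/-- straight lateral slide -/
def LsStmt : Prop := EvC fun c => ∀ (O : Mx) (r : ℝ) (f : V → V) (i : Fin 3) (b : V → ℝ)
  (β β1 : ℝ), i ≠ 2 → Orth O → Sm f → (∀ z, 0 < jac f z) → Sm b → 0 ≤ β → β * c.wL ≤ β1 →
  β1 ≤ 1 / (c.N * c.J ^ 9) → (∀ z, z ∉ RX O c.D r → b z = 0) →
  c.MW (1 / 100) 50 (jac f) (RX O c.D (r + 1 / 1000)) →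
  (∀ z, |b z| ≤ pA c.N * β * c.hs i) → CV 2 c.hs univ b (β * c.hs i) →
  ∃ S, SB' S ∧ (∀ z, b z = 0 → S z = z) ∧ (∀ z, jac (f ∘ S) z = jac f z + pd i b z) ∧
    (∀ z j, |S z j - z j| ≤ if j = i then 2 * pA c.N * β * c.hs i else 0) ∧
    ∀ z ∈ RX O c.D r, EB (c.Em f S z - 1) (cm ((c.N : ℝ) ^ 2 * β1)) ∧
      (c.GW f (S z) 3 → FRel c f (f ∘ S) (S z) z (FPl c.N β1))

def Pm.aM (c : Pm) : ℝ := Real.sqrt (c.J / c.N) / qp c.N (59 / 10)
/-- the datum of a vertical slide along the chart `n`, in chart coordinates -/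
structure Pm.AB (c : Pm) (n : ℝ → V) (a : V → ℝ) : Prop where
  sm : Sm a
  a0 : ∀ w, |a w| ≤ np c.N (-9 / 100) * c.y
  a1 : ∀ j, j ≠ 2 → ∀ w, c.hs j * |pd j a w| ≤ np c.N (-9 / 100) * c.y ∧
    c.cc j / c.n12 * |pd j a w| ≤ c.aM ∧
    ∀ i, c.cc j / c.n12 * (c.hs i * |pd i (pd j a) w|) ≤ c.aM
  m : CB 2 c.hs univ (fun z => pd 2 a (cin n z)) (np c.N (-27 / 100))
def cS (n : ℝ → V) (σ : V → ℝ) (z : V) : V := cpt n (cin n z) (z 2 + σ z)
def Pm.ah (c : Pm) (n : ℝ → V) (f : V → V) (σ : V → ℝ) (j : Fin 3) (z : V) : ℝ :=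
  c.cc j * jac f (cS n σ z) * pd j σ z / c.n12
/-- facts about the slide along a chart at one point -/
structure Pm.CS (c : Pm) (n : ℝ → V) (f : V → V) (a σ : V → ℝ) (z : V) : Prop where
  s0 : |σ z| ≤ 2 * np c.N (-9 / 100) * c.y
  s1 : ∀ j, j ≠ 2 → c.hs j * |pd j σ z| ≤ np c.N (-8 / 100) * c.y
  s2 : |pd 2 σ z| ≤ np c.N (-7 / 100)
  m0 : |jac f (cS n σ z) - 1| ≤ 1 / 50 ∧ |jac (f ∘ cS n σ) z - 1| ≤ 1 / 50 ∧
    |jac f (cS n σ z) - jac (f ∘ cS n σ) z| ≤ np c.N (-8 / 100)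
  m1 : ∀ i, c.hs i * |pd i (fun w => jac f (cS n σ w)) z| ≤ 60 * c.q ∧
    c.hs i * |pd i (jac (f ∘ cS n σ)) z| ≤ 60 * c.q
  a0 : ∀ j, j ≠ 2 → |c.ah n f σ j z - c.cc j / c.n12 * pd j a (cin n z)| ≤ np c.N (-7 / 10)
  a1 : ∀ j, j ≠ 2 → ∀ i, c.hs i * |pd i (c.ah n f σ j) z| ≤ 2 * c.aM
def Cvs1Stmt : Prop := EvC fun c => ∀ (O : Mx) (r : ℝ) (f : V → V) (ch : Cu → ℝ → V) (g : Cu)
  (a : V → ℝ), Orth O → Sm f → (∀ z, 0 < jac f z) → c.ChB ch → c.AB (ch g) a →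
  (∀ z, z ∉ RX O c.D r → a (cin (ch g) z) = 0) →
  c.MW (1 / 100) 50 (jac f) (RX O c.D (r + 1 / 1000)) →
  ∃ σ, Sm σ ∧ SB' (cS (ch g) σ) ∧ (∀ z, a (cin (ch g) z) = 0 → σ z = 0) ∧
    (∀ z, jac (f ∘ cS (ch g) σ) z = jac f z + pd 2 a (cin (ch g) z)) ∧
    (∀ z, (∀ i, i ≠ 2 → |cS (ch g) σ z i - z i| ≤ np c.N (-2 / 5) * c.hs i) ∧
      |cS (ch g) σ z 2 - z 2| ≤ np c.N (-1 / 20) * c.y) ∧
    ∀ z ∈ RX O c.D r, c.CS (ch g) f a σ z
def Cvs2Stmt : Prop := EvC fun c => ∀ (f : V → V) (ch : Cu → ℝ → V) (g : Cu) (a σ : V → ℝ) (z : V)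
  (A π : ℝ), Sm f → Sm σ → c.ChB ch → c.CS (ch g) f a σ z → 0 ≤ A → A ≤ c.aM → 0 ≤ π →
  π ≤ Xj c.N 0 2 → (∀ j, j ≠ 2 → c.cc j / c.n12 * |pd j a (cin (ch g) z)| ≤ A) →
  c.GW f (cS (ch g) σ z) 3 →
  (∀ i, i ≠ 2 → |c.gam f (cS (ch g) σ z) i 2 + c.dgn i * deriv (fun r => ch g r i)
    (cS (ch g) σ z 2) * c.n12 / (jac f (cS (ch g) σ z) * c.cc i)| ≤ π) →
  FRel c f (f ∘ cS (ch g) σ) (cS (ch g) σ z) z (FPm c.N A π 10)

/-! ## 2. FMAIN -/

/-- bounds of the flux after the cut -/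
structure Pm.FC (c : Pm) (O : Mx) (ch : Cu → ℝ → V) (F : V → V) : Prop where
  sm : Sm F
  f2 : ∀ z, F z 2 = 0
  sup : ∀ z, z ∉ RX O c.D (95 / 100) → F z = 0
  cb : ∀ i, i ≠ 2 → CB 3 c.hs univ (fun z => F z i) (np c.N (-275 / 1000) * c.hs i)
  pb : ∀ g i, i ≠ 2 → CBl (LatL 3) c.hs univ (pre (ch g) (c.cf g F i)) (2 * (c.hs i * c.GH)) ∧
    CBl (LatL 3) c.hs univ (tot (ch g) (c.cf g F i)) (2 * (c.hs i * c.GH)) ∧
    ∀ w, |pre (ch g) (c.cf g F i) w| ≤ 2 * (pA c.N * c.hs i * c.GH) ∧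
      |tot (ch g) (c.cf g F i) w| ≤ 2 * (pA c.N * c.hs i * c.GH)
def CutStmt : Prop := EvC fun c => ∀ (O : Mx) (ch : Cu → ℝ → V) (F : V → V), Orth O → c.ChB ch →
  c.FB O ch F → c.FC O ch (cutF O c.D F) ∧
    ∀ z a, 1 ≤ a → c.Env ch F z a → c.Env ch (cutF O c.D F) z (2 * a)

def Pm.stp (c : Pm) (g : Cu) (s : ℝ) : ℝ := st (s / c.L - g 2 + 1 / 2)
def Pm.cP (c : Pm) (ch : Cu → ℝ → V) (F : V → V) (g : Cu) (i : Fin 3) (w : V) : ℝ :=
  pre (ch g) (c.cf g F i) w - c.stp g (w 2) * tot (ch g) (c.cf g F i) w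
def Pm.cA (c : Pm) (ch : Cu → ℝ → V) (F : V → V) (g : Cu) (w : V) : ℝ :=
  pd 0 (c.cP ch F g 0) w + pd 1 (c.cP ch F g 1) w
def Pm.cB (c : Pm) (ch : Cu → ℝ → V) (F : V → V) (g : Cu) (i : Fin 3) (z : V) : ℝ :=
  deriv (c.stp g) (z 2) * tot (ch g) (c.cf g F i) (cin (ch g) z)
def Pm.cM (c : Pm) (ch : Cu → ℝ → V) (F : V → V) (g : Cu) (z : V) : ℝ :=
  pd 2 (c.cA ch F g) (cin (ch g) z)
def Pm.cK (c : Pm) (O : Mx) (g : Cu) : Set V :=
  Glue.cell c.cw g (92 / 100) ∩ RX O c.D (953 / 1000)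
def Pm.bL (c : Pm) : ℝ := c.q * c.GH / c.L
/-- the lateral data of one cell -/
def CellBStmt : Prop := EvC fun c => ∀ (O : Mx) (ch : Cu → ℝ → V) (F : V → V), Orth O → c.ChB ch →
  c.FC O ch F → ∀ g i, i ≠ 2 → Sm (c.cB ch F g i) ∧ (∀ z, z ∉ c.cK O g → c.cB ch F g i z = 0) ∧
    (∀ z, |c.cB ch F g i z| ≤ pA c.N * c.bL * c.hs i) ∧
    CV 3 c.hs univ (c.cB ch F g i) (c.bL * c.hs i)
/-- the vertical datum of one cell -/
def CellAStmt : Prop := EvC fun c => ∀ (O : Mx) (ch : Cu → ℝ → V) (F : V → V), Orth O → c.ChB ch →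
  c.FC O ch F → ∀ g, c.AB (ch g) (c.cA ch F g) ∧
    (∀ z, z ∉ c.cK O g → c.cA ch F g (cin (ch g) z) = 0 ∧ c.cM ch F g z = 0) ∧
    ∀ z, c.cM ch F g z + pd 0 (c.cB ch F g 0) z + pd 1 (c.cB ch F g 1) z =
      dv (fun w => c.bc g w • F w) z
/-- the envelope at a moved point -/
def CellEStmt : Prop := EvC fun c => ∀ (O : Mx) (ch : Cu → ℝ → V) (F : V → V), Orth O → c.ChB ch →
  c.FC O ch F → ∀ g (z0 z : V) (a : ℝ), 1 ≤ a → c.Near g z0 → c.Env ch F z0 a →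
    (∀ i, i ≠ 2 → |z i - z0 i| ≤ np c.N (-3 / 10) * c.hs i) →
    |z 2 - z0 2| ≤ np c.N (-1 / 25) * c.y → ∀ j, j ≠ 2 →
    c.cc j / c.n12 * |pd j (c.cA ch F g) (cin (ch g) z)| ≤ 10 * (Real.sqrt (c.bb / c.N) * a)
def Pm.mS (c : Pm) (ch : Cu → ℝ → V) (F : V → V) (j : ℕ) (z : V) : ℝ :=
  ∑ᶠ g, if col g < j then c.cM ch F g z else 0
def Pm.bS (c : Pm) (ch : Cu → ℝ → V) (F : V → V) (i : Fin 3) (z : V) : ℝ := ∑ᶠ g, c.cB ch F g i z
/-- sums over the cells -/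
def CsumStmt : Prop := EvC fun c => ∀ (O : Mx) (ch : Cu → ℝ → V) (F : V → V), Orth O → c.ChB ch →
  c.FC O ch F → 0 ≤ c.bL ∧ 8 * c.bL * c.wL ≤ 1 / (c.N * c.J ^ 9) ∧
  (∀ j, Sm (c.mS ch F j) ∧ CB 2 c.hs univ (c.mS ch F j) (8 * np c.N (-27 / 100)) ∧ ∀ z,
    (z ∉ RX O c.D (953 / 1000) → c.mS ch F j z = 0) ∧
    (∀ g, col g = j → z ∈ c.cK O g → c.mS ch F (j + 1) z = c.mS ch F j z + c.cM ch F g z) ∧
    ((∀ g, col g = j → z ∉ c.cK O g) → c.mS ch F (j + 1) z = c.mS ch F j z)) ∧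
  (∀ z, c.mS ch F 0 z = 0 ∧
    c.mS ch F 8 z + pd 0 (c.bS ch F 0) z + pd 1 (c.bS ch F 1) z = dv F z) ∧
  ∀ i, i ≠ 2 → Sm (c.bS ch F i) ∧ (∀ z, z ∉ RX O c.D (953 / 1000) → c.bS ch F i z = 0) ∧
    (∀ z, |c.bS ch F i z| ≤ pA c.N * (8 * c.bL) * c.hs i) ∧
    CV 3 c.hs univ (c.bS ch F i) (8 * c.bL * c.hs i)
/-- state after `j` colours of cells, level `t` -/
structure Pm.FI (c : Pm) (O : Mx) (f : V → V) (ch : Cu → ℝ → V) (F : V → V) (j : ℕ) (S : V → V)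
    (t : ℝ) : Prop where
  sb : SB' S
  off : ∀ z, z ∉ RX O c.D (953 / 1000) → S z = z
  jc : ∀ z, jac (f ∘ S) z = jac f z + c.mS ch F j z
  mv : ∀ z, (∀ i, i ≠ 2 → |S z i - z i| ≤ j * np c.N (-2 / 5) * c.hs i) ∧
    |S z 2 - z 2| ≤ j * np c.N (-1 / 20) * c.y
  rel : ∀ z (a π : ℝ), 1 ≤ a → a ≤ 2 * Real.sqrt (c.q * c.J) → 0 ≤ π → π ≤ 3 * hc c.N →
    c.GB f (S z) 2 → c.Env ch F (S z) a → c.PiF ch f (S z) π →
    FRel c f (f ∘ S) (S z) z (FPm c.N (Real.sqrt (c.bb / c.N) * a) π t)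
/-- one colour of cells -/
def ColStmt : Prop := ∀ t : ℝ, 1 ≤ t → ∃ t' : ℝ, 1 ≤ t' ∧ EvC fun c => ∀ (O : Mx) (f : V → V)
  (ch : Cu → ℝ → V) (F : V → V) (j : ℕ) (S : V → V), Orth O → Sm f → (∀ z, 0 < jac f z) →
  c.MB (2 * eps0) 1 (jac f) (RX O c.D (97 / 100)) → c.ChB ch → c.FC O ch F → j < 8 →
  c.FI O f ch F j S t → ∃ S', c.FI O f ch F (j + 1) S' t'

/-! ## 3. from cubes to the whole space -/

def Bk.K (B : Bk) (g : Cu) (r : ℝ) : Set V := {p | (B.fr g).zc p ∈ B.R g r}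
/-- local description of the glued map -/
structure Bk.GT (B : Bk) (p : Cu → Prop) (r : ℝ) (S : Cu → V → V) (T : V → V) : Prop where
  sb : SB' T
  act : ∀ g, p g → ∀ w ∈ B.K g r, T w ∈ B.K g r ∧
    T =ᶠ[𝓝 w] fun v => (B.fr g).zp (S g ((B.fr g).zc v))
  off : ∀ w, (∀ g, p g → w ∉ B.K g r) → T =ᶠ[𝓝 w] id
def GstStmt : Prop := EvB fun B => B.G →
  (∀ r : ℝ, 0 ≤ r → r ≤ 2 → LocallyFinite (fun g => B.K g r) ∧ ∀ g, IsClosed (B.K g r)) ∧
  ∀ (j : ℕ) (p : Cu → Prop) [DecidablePred p] (r : ℝ), 0 ≤ r → r ≤ 99 / 100 →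
  (∀ g, p g → col g = j) →
  (∀ a : Cu → V → V, (∀ g, p g → Sm (a g) ∧ ∀ z, z ∉ B.R g r → a g z = 0) →
    Sm (fun w => ∑ᶠ g, if p g then (B.fr g).unvd (a g) w else 0) ∧
    (∀ g, p g → ∀ w ∈ B.K g r,
      (fun w => ∑ᶠ g, if p g then (B.fr g).unvd (a g) w else 0) =ᶠ[𝓝 w] (B.fr g).unvd (a g)) ∧
    ∀ w, (∀ g, p g → w ∉ B.K g r) →
      (fun w => ∑ᶠ g, if p g then (B.fr g).unvd (a g) w else 0) =ᶠ[𝓝 w] fun _ => 0) ∧
  ∀ (S a : Cu → V → V) (f : V → V), Dif f →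
    (∀ g, p g → SB' (S g) ∧ Sm (a g) ∧ (∀ z, z ∉ B.R g r → S g z = z ∧ a g z = 0) ∧
      ∀ z, jac ((B.fr g).fh f ∘ S g) z = jac ((B.fr g).fh f) z + dv (a g) z ∧
        0 < jac ((B.fr g).fh f ∘ S g) z) →
    ∃ T, B.GT p r S T ∧ Dif (f ∘ T) ∧ ∀ w, jac (f ∘ T) w =
      jac f w + dv (fun w => ∑ᶠ g, if p g then (B.fr g).unvd (a g) w else 0) w
/-- side conditions for a change of frame -/
def Pm.FS (c : Pm) (f f' : V → V) (z' z : V) : Prop :=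
  |jac f z' - 1| ≤ 1 / 10 ∧ |jac f' z - 1| ≤ 1 / 10 ∧ CB 1 c.hs {z'} (jac f) (100 * c.q) ∧
  CB 1 c.hs {z} (jac f') (100 * c.q) ∧ EB (c.gam f z') (cm 10)
def Bk.GRel (B : Bk) (k : ℕ) (r : ℝ) (f f' : V → V) (P : FP) : Prop :=
  ∀ g p' p, f' p = f p' → p' ∈ B.K g r ∨ p ∈ B.K g r →
    FRel (B.c g k) ((B.fr g).fh f) ((B.fr g).fh f') ((B.fr g).zc p') ((B.fr g).zc p) P
def GrelStmt : Prop := EvB fun B => ∀ k : ℕ, B.G → k ≤ nb B.N →
  (∀ (f : V → V) (P : FP) (r : ℝ), Dif f → P.Bd B.N → B.GRel k r f f P) ∧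
  (∀ (f f1 f2 : V → V) (P P' : FP) (r : ℝ), Dif f1 → P.Bd B.N → P'.Bd B.N → B.GRel k r f f1 P →
    B.GRel k r f1 f2 P' → B.GRel k (r - 1 / 1000) f f2 (P.cmp P')) ∧
  ∀ (p : Cu → Prop) (r : ℝ) (S : Cu → V → V) (f T : V → V) (P : FP), 0 ≤ r → r ≤ 99 / 100 →
    Dif f → B.GT p r S T → P.Bd B.N →
    (∀ g, p g → Sm (S g) ∧ ∀ z ∈ B.R g r,
      (B.c g k).FS ((B.fr g).fh f) ((B.fr g).fh f ∘ S g) (S g z) z ∧
      FRel (B.c g k) ((B.fr g).fh f) ((B.fr g).fh f ∘ S g) (S g z) z P) →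
    B.GRel k (11 / 10) f (f ∘ T) (P.up B.N)

def thP (α : Cu → V → ℝ) (P : Cu → Prop) (w : V) : ℝ := ∑ᶠ g, if P g then α g w ^ 2 else 0
/-- a partition on the space of `z` whose squares sum to 1 -/
structure Bk.PA (B : Bk) (C : ℝ) (α : Cu → V → ℝ) : Prop where
  sm : ∀ g, Sm (α g)
  rg : ∀ g w, 0 ≤ α g w ∧ α g w ≤ 1
  sup : ∀ g w, α g w ≠ 0 → w ∈ B.K g (85 / 100)
  one : ∀ w, ∑ᶠ g, α g w ^ 2 = 1
  fin : ∀ g, ∀ w ∈ B.K g (6 / 5), ∀ g', α g' w ≠ 0 → g' ∈ nbrs g 2 ∧ Nbr 2 g g'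
  l1 : ∀ w (T : Finset Cu), (∑ g ∈ T, α g w) ^ 2 ≤ 8 ∧ ∑ g ∈ T, α g w ^ 2 ≤ 1
  cb : ∀ g g', CB 4 (cv B.D) (B.R g (6 / 5)) (fun z => α g' ((B.fr g).zp z)) C
  th : ∀ P : Cu → Prop, Sm (thP α P) ∧ (∀ w, 0 ≤ thP α P w ∧ thP α P w ≤ 1) ∧
    ∀ g, CB 4 (cv B.D) (B.R g (6 / 5)) (fun z => thP α P ((B.fr g).zp z)) C
def PartStmt : Prop := ∃ C : ℝ, 1 ≤ C ∧ EvB fun B => B.G → ∃ α, B.PA C α

/-! ## 4. GABS -/

def GmwStmt : Prop := EvC fun c => ∀ (U : Set V) (M θ : V → ℝ) (R : V → V), Sm M → Sm θ → Sm R →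
  (∀ z ∈ U, 0 ≤ θ z ∧ θ z ≤ 1) → CB 4 (cv c.D) U θ c.q → c.MB (3 * eps0) 2 M U →
  (∀ z ∈ U, |M z + dv R z - 1| ≤ 3 * eps0) → c.RB R U →
  c.MW (31 / 10 * eps0) 40 (fun z => M z + dv (fun w => θ w • R w) z) U ∧
  (∀ i, i ≠ 2 → CB 3 c.hs U (fun z => θ z * R z i) (np c.N (-19 / 2) * c.lam)) ∧
  CB 2 c.hs U (fun z => θ z * R z 2) (qp c.N (6 / 5) * c.y) ∧
  CL 2 c.hs U (fun z => θ z * R z 2) (np c.N (-24 / 100) * c.y)
def FPg (N : ℕ) : FP :=
  ⟨np N (-5), 2 * qp N (13 / 10), np N (-109 / 100), np N (-59 / 100), np N (-1 / 2),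
    np N (-19 / 100), 1 / 10 ^ 7, np N (-9 / 100)⟩
/-- one cube, three slides -/
def Gab1Stmt : Prop := EvC fun c => ∀ (O : Mx) (f a : V → V), Orth O → Sm f → (∀ z, 0 < jac f z) →
  Sm a → (∀ z, z ∉ RX O c.D (9 / 10) → a z = 0) →
  c.MW (31 / 10 * eps0) 40 (jac f) (RX O c.D (95 / 100)) →
  c.MW (31 / 10 * eps0) 40 (fun z => jac f z + dv a z) (RX O c.D (95 / 100)) →
  (∀ i, i ≠ 2 → CB 3 c.hs (RX O c.D (95 / 100)) (fun z => a z i) (np c.N (-19 / 2) * c.lam)) →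
  CB 2 c.hs (RX O c.D (95 / 100)) (fun z => a z 2) (qp c.N (6 / 5) * c.y) →
  CL 2 c.hs (RX O c.D (95 / 100)) (fun z => a z 2) (np c.N (-24 / 100) * c.y) →
  (∀ z ∈ RX O c.D (9 / 10), c.GW f z 2) →
  ∃ S, SB' S ∧ (∀ z, z ∉ RX O c.D (9 / 10) → S z = z) ∧
    (∀ z, jac (f ∘ S) z = jac f z + dv a z ∧ 0 < jac (f ∘ S) z) ∧
    ∀ z ∈ RX O c.D (9 / 10), FRel c f (f ∘ S) (S z) z (FPg c.N)

/-! ## 5. FLONG -/

def E20 : Mx := !![0, 0, 0; 0, 0, 0; 1, 0, 0]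
/-- relation through a long slide: shear `u`, shear error `m`, other errors `δ`, growth `G` -/
structure LE (c : Pm) (f f' : V → V) (z' z : V) (u m δ G t : ℝ) : Prop where
  mt : f' z = f z'
  dl : ∀ i, i ≠ 2 → |z i - z' i| ≤ δ * c.lam
  dv : |z 2 - z' 2| ≤ t * ((c.N : ℝ) ^ 2 * c.lam)
  em : ∃ E : Mx, c.ca f' z = c.ca f z' * E ∧ EB (E - 1 - u • E20) (tb4 δ m δ δ)
  df : ∀ d, 0 ≤ d → c.DI f z' d → c.DI f' z (G * (1 + d))
def LeStmt : Prop := EvC fun c =>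
  (∀ (f f' : V → V) (z : V), f' =ᶠ[𝓝 z] f → LE c f f' z z 0 0 0 1 0) ∧
  (∀ (f f' f'' : V → V) (z' z : V) (u m δ G t u' m' δ' G' t' : ℝ), f'' =ᶠ[𝓝 z] f' →
    m + |u' - u| ≤ m' → δ ≤ δ' → G ≤ G' → t ≤ t' → LE c f f' z' z u m δ G t →
    LE c f f'' z' z u' m' δ' G' t') ∧
  (∀ (f f1 f2 : V → V) (z0 z1 z2 : V) (u m δ G t u' m' δ' G' t' : ℝ), |u| ≤ 1 / 10 → m ≤ 1 / 10 →
    δ ≤ 1 / 100 → 1 ≤ G → |u'| ≤ 1 / 10 → m' ≤ 1 / 10 → δ' ≤ 1 / 100 → 1 ≤ G' →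
    LE c f f1 z0 z1 u m δ G t → LE c f1 f2 z1 z2 u' m' δ' G' t' →
    LE c f f2 z0 z2 (u + u') (m + m' + (δ + δ')) (2 * (δ + δ')) (2 * G * G') (t + t')) ∧
  ∀ (f f' : V → V) (z' z : V) (u m δ G t : ℝ), LE c f f' z' z u m δ G t → δ ≤ np c.N (-5) →
    (|u| ≤ 3 * Real.sqrt (c.J / c.N) → m ≤ Real.sqrt (c.J / c.N) → ∀ s, 0 ≤ s → s ≤ 2 →
      c.GW f z' s → c.GW f' z (s + 1)) ∧
    ∀ Y : ℝ, u ^ 2 = c.η * Y → |u| ≤ 284 / 100 * Real.sqrt (c.η * c.p) →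
      m ≤ 25 * Real.sqrt (pX c.N / c.N) / c.q ^ 5 → G ≤ np c.N 10 → t ≤ np c.N (1 / 10) →
      EB (c.gam f z') (cm 10) → (∀ i, i ≠ 2 → |c.gam f z' i 2| ≤ Real.sqrt (c.η * c.p) / 7900) →
      |c.gam f z' 2 2 - 1| ≤ 3 / c.J → LRel c f f' z' z Y
/-- bound of the line integrals of the lateral slope of the density -/
def Pm.LI (c : Pm) (M : V → ℝ) (U : Set V) (m : ℝ) : Prop :=
  ∀ z ∈ U, ∀ τ : ℝ, |τ| ≤ (c.N : ℝ) ^ 2 * c.lam → ∀ i, i ≠ 2 →
    c.cc i / c.n12 * |∫ t in (0 : ℝ)..τ, pd i M (z + t • e3)| ≤ m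
/-- straight vertical slide, size `N² lam` -/
def VlStmt : Prop := EvC fun c => ∀ (O : Mx) (r m : ℝ) (f : V → V) (a : V → ℝ), Orth O → Sm f →
  (∀ z, 0 < jac f z) → Sm a → (∀ z, z ∉ RX O c.D r → a z = 0) →
  c.MW (1 / 100) 50 (jac f) (RX O c.D (r + 1 / 1000)) → m ≤ Real.sqrt (c.J / c.N) →
  c.LI (jac f) (RX O c.D r) m →
  (∀ z, |a z| ≤ (c.N : ℝ) ^ 2 * c.lam / 4 ∧ |pd 2 a z| ≤ 1 / 100 ∧ ∀ j, j ≠ 2 →
    c.hs j * |pd j a z| ≤ (c.N : ℝ) ^ 2 * c.lam ∧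
    c.cc j / c.n12 * |pd j a z| ≤ 2 * Real.sqrt (c.J / c.N) ∧
    ∀ i, c.cc j / c.n12 * (c.hs i * |pd i (pd j a) z|) ≤ 1) →
  ∃ S, SB' S ∧ (∀ z, a z = 0 → S z = z) ∧ (∀ z, jac (f ∘ S) z = jac f z + pd 2 a z) ∧
    ∀ z ∈ RX O c.D r, c.GW f (S z) 2 → LE c f (f ∘ S) (S z) z (c.cc 0 / c.n12 * pd 0 a z)
      (m + c.cc 1 / c.n12 * |pd 1 a z|) 0 (np c.N (95 / 100)) (1 / 2)
/-- the long slide of one cube -/
def Fl1Stmt : Prop := EvC fun c => ∀ (O : Mx) (f : V → V) (α : V → ℝ) (j : ℕ) (m : ℝ),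
  c.k = mid c.N → Orth O → Sm f → (∀ z, 0 < jac f z) → j < 8 → Sm α →
  (∀ z, z ∉ RX O c.D (85 / 100) → α z = 0) → (∀ z, |α z| ≤ 1) →
  CB 4 (cv c.D) (RX O c.D 1) α c.q → c.MW (1 / 1000) 1 (jac f) (RX O c.D (9 / 10)) →
  m ≤ Real.sqrt (c.J / c.N) / 2 → c.LI (jac f) (RX O c.D (88 / 100)) m →
  (∀ z ∈ RX O c.D (87 / 100), c.GW f z 2) →
  ∃ S, SB' S ∧ (∀ z, z ∉ RX O c.D (85 / 100) → S z = z) ∧ (∀ z, jac (f ∘ S) z = jac f z) ∧
    ∀ z ∈ RX O c.D (87 / 100), LE c f (f ∘ S) (S z) z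
      (Real.sqrt (c.η * c.p) * (α z * Real.cos (z 0 / (c.lA / (j + 1))))) (m + np c.N (-15))
      (np c.N (-15)) c.N 1

def sg (x : ℝ) : ℝ := if 0 ≤ x then 1 else -1
def Fr.σ (F F' : Fr) (i : Fin 3) : ℝ := sg ((F.Oᵀ * F'.O) i i)
/-- change of frame between aligned frames -/
def LtrStmt : Prop := ∀ᶠ N : ℕ in atTop, ∀ (F F' : Fr) (lb : ℝ) (k : ℕ), Orth F.O → Orth F'.O →
  0 < F.Q.det → 0 < F'.Q.det → Cpt (dc N) F F' → (F.pm N lb k).Ok → (F'.pm N lb k).Ok →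
  4 * F'.s1 < F'.s2 →
  (∀ (f : V → V) (p : V), Sm f → |jac (F'.fh f) (F'.zc p) - 1| ≤ 1 / 10 →
    EB ((F'.pm N lb k).gam (F'.fh f) (F'.zc p)) (cm 20) → ∀ a b,
    |(F.pm N lb k).gam (F.fh f) (F.zc p) a b -
      F.σ F' a * F.σ F' b * (F'.pm N lb k).gam (F'.fh f) (F'.zc p) a b| ≤ np N (-15)) ∧
  ∀ (f f' : V → V) (p' p : V) (u m δ G t : ℝ), Sm f → Sm f' →
    (F'.pm N lb k).FS (F'.fh f) (F'.fh f') (F'.zc p') (F'.zc p) → |u| ≤ 1 / 10 → m ≤ 1 / 10 →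
    δ ≤ 1 / 100 → 1 ≤ G → t ≤ N →
    LE (F'.pm N lb k) (F'.fh f) (F'.fh f') (F'.zc p') (F'.zc p) u m δ G t →
    LE (F.pm N lb k) (F.fh f) (F.fh f') (F.zc p') (F.zc p) (F.σ F' 0 * F.σ F' 2 * u)
      (m + np N (-15)) (2 * δ + np N (-15)) (10 ^ 5 * G) (2 * t + np N (-15))

namespace Bk
variable (B : Bk)
def psh (g : Cu) : Prop := (B.c g 0).push
def big (g : Cu) : Prop := 5 * (B.fr g).s1 ≤ (B.fr g).s2
def sgn (g g' : Cu) (i : Fin 3) : ℝ := (B.fr g).σ (B.fr g') i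
def tau (g g' : Cu) : ℝ := B.sgn g g' 0 * B.sgn g g' 2
def lj (g : Cu) : ℝ := (B.c g (mid B.N)).lA / (col g + 1)
def phi (g : Cu) (w : V) : ℝ := (B.fr g).zc w 0 / B.lj g
/-- total shear of the colours below `j`, seen from `g`, divided by the root of `η` -/
def sw (α : Cu → V → ℝ) (j : ℕ) (g : Cu) (w : V) : ℝ := ∑ᶠ g', if col g' < j ∧ B.psh g' then
  B.tau g g' * (Real.sqrt (B.c g' 0).p * (α g' w * Real.cos (B.phi g' w))) else 0
def s0 (α : Cu → V → ℝ) (g : Cu) (w : V) : ℝ :=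
  ∑ᶠ g', if B.psh g' then B.tau g g' * (α g' w * Real.cos (B.phi g' w)) else 0
def abF (α : Cu → V → ℝ) (w : V) : ℝ :=
  1 / 2 * ∑ᶠ g, if B.psh g then α g w ^ 2 * (B.c g 0).p else 0
def om (g g' : Cu) (s : ℝ) : ℝ := 1 / B.lj g + s * B.sgn g g' 0 / B.lj g'
def P1 (α : Cu → V → ℝ) (g g' : Cu) (w : V) : ℝ := B.tau g g' / 2 *
  (α g w * α g' w * Real.sin (B.phi g w + B.phi g' w) / B.om g g' 1 +
    α g w * α g' w * Real.sin (B.phi g w - B.phi g' w) / B.om g g' (-1))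
def P0 (α : Cu → V → ℝ) (w : V) : V := fun i =>
  ∑ᶠ g : Cu × Cu, if B.psh g.1 ∧ B.psh g.2 then B.P1 α g.1 g.2 w * (B.fr g.1).O i 0 else 0
/-- hypotheses of the long slide on `f` -/
def FH (f : V → V) : Prop := Dif f ∧ B.MBs (mid B.N) (2 * eps0) 1 (jac f) ∧ ∀ g, B.deep g →
  (∀ z ∈ B.R g (98 / 100), (B.c g (mid B.N)).GB ((B.fr g).fh f) z 1 ∧
    (∀ i, i ≠ 2 → |(B.c g 0).gam ((B.fr g).fh f) z i 2| ≤
      Real.sqrt ((B.c g 0).η * (B.c g 0).p) / 8000) ∧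
    |(B.c g 0).gam ((B.fr g).fh f) z 2 2 - 1| ≤ 2 / pJ B.N) ∧
  ∀ z ∈ B.R g (96 / 100), ∀ τ : ℝ, |τ| ≤ 10 * (B.N : ℝ) ^ 2 * (B.c g (mid B.N)).lam →
    ∀ i, i ≠ 2 → (B.c g 0).cc i / (B.c g 0).n12 *
      |∫ t in (0 : ℝ)..τ, pd i (jac ((B.fr g).fh f)) (z + t • e3)| ≤
      3 * Real.sqrt (pX B.N / B.N) / pq B.N ^ 5
/-- hypotheses of the long slide on `Zm` -/
def ZH (Zm : V → V) : Prop := Sm Zm ∧ ∀ g, B.deep g →
  (∀ x ∈ B.R g 1, EB2 (jm ((B.fr g).hat Zm) x - 1) (B.c g (mid B.N)).eT ∧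
    EB (jm ((B.fr g).hat Zm) x - 1) (cm (1 / Real.sqrt (pJ B.N))) ∧
    ‖(B.fr g).O *ᵥ ((B.fr g).hat Zm x - x)‖ ≤ B.D / 1000) ∧
  ∀ i, CO 2 (cv 1) (B.R g 1) (fun x => (B.fr g).hat Zm x i) (B.c g (mid B.N)).d2u
def AfOk (α : Cu → V → ℝ) (Af : V → ℝ) : Prop :=
  ∀ g, ∀ w ∈ B.K g (6 / 5), Af w = B.sw α 8 g w ^ 2
/-- state after `j` colours of the long slide -/
structure LI (α : Cu → V → ℝ) (f : V → V) (j : ℕ) (f' : V → V) : Prop where
  dif : Dif f'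
  jc : ∀ w, jac f' w = jac f w
  off : ∀ w, (∀ g, B.psh g → w ∉ B.K g (87 / 100)) → f' =ᶠ[𝓝 w] f
  rel : ∀ g p' p, f' p = f p' → p' ∈ B.K g (11 / 10 - j / 1000) ∨ p ∈ B.K g (11 / 10 - j / 1000) →
    LE (B.c g (mid B.N)) ((B.fr g).fh f) ((B.fr g).fh f') ((B.fr g).zc p') ((B.fr g).zc p)
      (Real.sqrt (B.c g 0).η * B.sw α j g p')
      (j * (3 * Real.sqrt (pX B.N / B.N) / pq B.N ^ 5 + np B.N (-1))) (4 ^ j * np B.N (-14))
      ((10 ^ 6 * B.N) ^ j) (3 * j)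
end Bk

/-- signs -/
def SgnStmt : Prop := EvB fun B => B.G →
  (∀ g, B.deep g → B.big g) ∧ (∀ g g' i, B.sgn g g' i ^ 2 = 1 ∧ B.sgn g g' i = B.sgn g' g i) ∧
  (∀ g i, B.sgn g g i = 1) ∧
  (∀ g g', Nbr 3 g g' → B.big g ∨ B.big g' →
    EB ((B.fr g).Q⁻¹ * (B.fr g').Q - diagonal (B.sgn g g')) (cm (3 * dc B.N)) ∧
    EB ((B.fr g).Oᵀ * (B.fr g').O - diagonal (B.sgn g g')) (cm (2 * dc B.N))) ∧
  (∀ g g' g'' i, Nbr 3 g g' → Nbr 3 g' g'' → B.big g' →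
    B.sgn g g'' i = B.sgn g g' i * B.sgn g' g'' i) ∧
  ∀ C α, B.PA C α → ∃ Af, B.AfOk α Af
/-- one colour of the long slide -/
def Fl2Stmt : Prop := EvB fun B => ∀ (C : ℝ) (α : Cu → V → ℝ) (f f1 : V → V) (j : ℕ), B.G →
  B.PA C α → C ≤ pq B.N → B.FH f → j < 8 → B.LI α f j f1 → ∃ f2, B.LI α f (j + 1) f2
/-- the end of the long slide -/
def Fl4Stmt : Prop := EvB fun B => ∀ (C : ℝ) (α : Cu → V → ℝ) (f f1 : V → V) (Af : V → ℝ), B.G →
  B.PA C α → B.FH f → B.AfOk α Af → B.LI α f 8 f1 →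
  (∀ g, ¬ B.pushN g → ∀ z ∈ B.R g (11 / 10), f1 ((B.fr g).zp z) = f ((B.fr g).zp z)) ∧
  ∀ g, B.pushN g → ∀ z' ∈ B.R g (105 / 100), LRel (B.c g (mid B.N)) ((B.fr g).fh f)
    ((B.fr g).fh f1) z' (B.nw g f f1 z') (Af ((B.fr g).zp z'))
/-- one oscillating term -/
def TermStmt : Prop := EvC fun c => ∀ (Z : V → V) (A : V → ℝ) (a : V) (b ω τ : ℝ) (x : V),
  c.k = mid c.N → Sm Z → Sm A → τ ^ 2 = 1 → 9 / 10 / c.lA ≤ |ω| → |ω| ≤ 17 / c.lA →
  (∀ i, |a i - τ * ω * (Pi.single 0 1 : V) i| ≤ np c.N (-20) / c.lA) →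
  CB 2 (cv c.D) {Z x} A (c.q ^ 3) → EB (jm Z x - 1) (cm (1 / 10)) →
  (∀ i, CO 2 (cv 1) {x} (fun w => Z w i) c.d2u) →
  (∀ i, |pd i (fun w => A (Z w) * Real.sin (a ⬝ᵥ Z w + b) / ω) x -
    τ * (A (Z x) * Real.cos (a ⬝ᵥ Z x + b)) * jm Z x 0 i| ≤ np c.N (-15)) ∧
  CO 2 (cv 1) {x} (fun w => A (Z w) * Real.sin (a ⬝ᵥ Z w + b) / ω)
    ((|A (Z x)| + np c.N (-10)) * (30 / c.lA + 2 * c.d2u))
/-- the primitive of the oscillation -/
def P0Stmt : Prop := EvB fun B => ∀ (C : ℝ) (α : Cu → V → ℝ) (Zm : V → V), B.G → B.PA C α →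
  C ≤ pq B.N → B.ZH Zm → Sm (B.P0 α) ∧ ∀ g, B.deep g →
  (∀ x ∈ B.R g 1, (∀ i, |B.P0 α (Zm ((B.fr g).xp x)) i| ≤ 9 * (B.c g (mid B.N)).lA) ∧
    |pd 0 (B.Pq (fun y => B.P0 α (Zm y)) g) x - (B.s0 α g (Zm ((B.fr g).xp x)) ^ 2 -
      thP α B.psh (Zm ((B.fr g).xp x)) / 2)| ≤ 20 / Real.sqrt (pJ B.N) ∧
    |pd 1 (B.Pq (fun y => B.P0 α (Zm y)) g) x| ≤
      pq B.N ^ 4 * pJ B.N * (B.c g (mid B.N)).m * uB B.N ∧
    |pd 2 (B.Pq (fun y => B.P0 α (Zm y)) g) x| ≤ pq B.N ^ 4 * pJ B.N * (B.c g (mid B.N)).t1B) ∧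
  CO 2 (cv 1) (B.R g 1) (B.Pq (fun y => B.P0 α (Zm y)) g)
    (Real.sqrt (pq B.N) / (B.c g (mid B.N)).lA + pq B.N * (B.c g (mid B.N)).d2u) ∧
  ∀ i, CO 1 (cv 1) (B.R g 1) (fun x => B.P0 α (Zm ((B.fr g).xp x)) i) 100
/-- size and oscillation of the sums -/
def OscStmt : Prop := EvB fun B => ∀ (C : ℝ) (α : Cu → V → ℝ), B.G → B.PA C α → C ≤ pq B.N →
  ∀ g, B.deep g → (∀ w ∈ B.K g (6 / 5), B.s0 α g w ^ 2 ≤ 8 ∧
    |B.sw α 8 g w ^ 2 - (B.c g 0).p * B.s0 α g w ^ 2| ≤ (B.c g 0).p / pq B.N ^ 2 ∧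
    |B.abF α w - (B.c g 0).p * (thP α B.psh w / 2)| ≤ (B.c g 0).p / pq B.N ^ 2) ∧
  ∀ z ∈ B.R g (6 / 5), ∀ z' ∈ B.R g (6 / 5),
    |z 0 - z' 0| ≤ 4 * pq B.N * Real.sqrt (pJ B.N) * (B.c g (mid B.N)).l1 →
    ‖z - z'‖ ≤ 2 * (B.N : ℝ) ^ 3 * (B.c g (mid B.N)).lam →
    |B.s0 α g ((B.fr g).zp z) ^ 2 - B.s0 α g ((B.fr g).zp z') ^ 2| ≤ 1000 / pq B.N ^ 2 ∧
    |thP α B.psh ((B.fr g).zp z) - thP α B.psh ((B.fr g).zp z')| ≤ np B.N (-10)
/-- the data of the push -/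
def Fl3Stmt : Prop := EvB fun B => ∀ (C : ℝ) (α : Cu → V → ℝ) (Zm : V → V) (Af : V → ℝ), B.G →
  B.PA C α → C ≤ pq B.N → B.ZH Zm → B.AfOk α Af →
  ∃ Pv, B.PushD Zm Af (fun x => B.abF α (Zm x)) Pv

end
end Pool.Agent.MP_20bec2_an.T3

end MrgPart0

-- ======== part 1: formerly Pool.Agent.MP_20bec2_an.T3.Cvs2A
section MrgPart1

/-! Row CVS2, part 1: weighted first order bounds at a point, the matrix `Em` of a slide along a
chart. -/

set_option autoImplicit false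
open Set Filter Matrix Topology

namespace Pool.Agent.MP_20bec2_an.T3.Cvs2
noncomputable section

/-- weighted bounds of the value and of the scaled first derivatives at `z` -/
structure VD (h z : V) (W : ℝ) (p : V → ℝ) (a b : ℝ) : Prop where
  hh : ∀ k, 0 < h k
  w : 0 < W
  d : DifferentiableAt ℝ p z
  v : W * |p z| ≤ a
  s : ∀ k, W * (h k * |pd k p z|) ≤ b

section
variable {h z : V} {W W' a b a' b' : ℝ} {p p' : V → ℝ}

lemma VD.a0 (H : VD h z W p a b) : 0 ≤ a := (mul_nonneg H.w.le (abs_nonneg _)).trans H.v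
lemma VD.b0 (H : VD h z W p a b) : 0 ≤ b :=
  (mul_nonneg H.w.le (mul_nonneg (H.hh 0).le (abs_nonneg _))).trans (H.s 0)

lemma VD.mono (H : VD h z W p a b) (ha : a ≤ a') (hb : b ≤ b') : VD h z W p a' b' :=
  ⟨H.hh, H.w, H.d, H.v.trans ha, fun k => (H.s k).trans hb⟩

lemma VD.wt {C : ℝ} (H : VD h z W p a b) (h0 : 0 < W') (hC : 0 ≤ C) (hW : W' ≤ C * W) :
    VD h z W' p (C * a) (C * b) := by
  have key : ∀ x y : ℝ, 0 ≤ x → W * x ≤ y → W' * x ≤ C * y := fun x y hx hy =>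
    (mul_le_mul_of_nonneg_right hW hx).trans (by
      rw [mul_assoc]; exact mul_le_mul_of_nonneg_left hy hC)
  exact ⟨H.hh, h0, H.d, key _ _ (abs_nonneg _) H.v,
    fun k => key _ _ (mul_nonneg (H.hh k).le (abs_nonneg _)) (H.s k)⟩

lemma VD.wt1 (H : VD h z W p a b) (h0 : 0 < W') (hW : W' ≤ W) : VD h z W' p a b := by
  simpa only [one_mul] using H.wt h0 zero_le_one (by rwa [one_mul])

lemma VD.neg (H : VD h z W p a b) : VD h z W (fun w => -p w) a b :=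
  ⟨H.hh, H.w, H.d.fun_neg, by rw [abs_neg]; exact H.v, fun k => by
    rw [pd_neg, abs_neg]; exact H.s k⟩

lemma VD.add (H : VD h z W p a b) (H' : VD h z W p' a' b') :
    VD h z W (fun w => p w + p' w) (a + a') (b + b') := by
  refine ⟨H.hh, H.w, H.d.fun_add H'.d, ?_, fun k => ?_⟩
  · linarith [mul_le_mul_of_nonneg_left (abs_add_le (p z) (p' z)) H.w.le, H.v, H'.v]
  · rw [pd_add_at H.d H'.d]
    linarith [mul_le_mul_of_nonneg_left (abs_add_le (pd k p z) (pd k p' z))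
      (mul_pos H.w (H.hh k)).le, H.s k, H'.s k]

lemma VD.sub (H : VD h z W p a b) (H' : VD h z W p' a' b') :
    VD h z W (fun w => p w - p' w) (a + a') (b + b') := by
  simpa only [sub_eq_add_neg] using H.add H'.neg

lemma VD.mul (H : VD h z W p a b) (H' : VD h z 1 p' a' b') :
    VD h z W (fun w => p w * p' w) (a * a') (a * b' + b * a') := by
  have v' : |p' z| ≤ a' := by simpa only [one_mul] using H'.v
  refine ⟨H.hh, H.w, H.d.fun_mul H'.d, ?_, fun k => ?_⟩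
  · rw [abs_mul, ← mul_assoc]
    exact mul_le_mul H.v v' (abs_nonneg _) H.a0
  · have s' : h k * |pd k p' z| ≤ b' := by simpa only [one_mul] using H'.s k
    have t := mul_le_mul_of_nonneg_left (abs_add_le (pd k p z * p' z) (p z * pd k p' z))
      (mul_pos H.w (H.hh k)).le
    rw [abs_mul, abs_mul] at t
    rw [pd_mul_at H.d H'.d]
    linarith [mul_le_mul (H.s k) v' (abs_nonneg _) H.b0,
      mul_le_mul H.v s' (mul_nonneg (H.hh k).le (abs_nonneg _)) H.a0]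

lemma VD.congr (H : VD h z W p a b) (e : ∀ w, p' w = p w) : VD h z W p' a b := by
  rwa [show p' = p from funext e]

/-- the inverse of a density -/
lemma vd_inv {M : V → ℝ} (hh : ∀ k, 0 < h k) (hM : DifferentiableAt ℝ M z)
    (h1 : |M z - 1| ≤ 1 / 50) (h2 : ∀ k, h k * |pd k M z| ≤ b) :
    VD h z 1 (fun w => (M w)⁻¹) 2 (4 * b) := by
  obtain ⟨p0, -, p2⟩ := Ftr.inv_bd (h1.trans (by norm_num))
  refine ⟨hh, one_pos, hM.fun_inv p0.ne', by linarith, fun k => ?_⟩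
  have e1 : pd k (fun w => (M w)⁻¹) z = -((M z)⁻¹ * (M z)⁻¹) * pd k M z := by
    rw [pd_comp_at (φ := fun t => t⁻¹) (differentiableAt_inv p0.ne') hM, deriv_inv, ← sq, inv_pow]
  have t := Ftr.abs_mul_le p2 p2
  have t0 := mul_nonneg (hh k).le (abs_nonneg (pd k M z))
  rw [e1, abs_mul, abs_neg, one_mul, mul_left_comm]
  nlinarith [h2 k, mul_le_mul_of_nonneg_right t t0]

lemma vd_inv_sub {M M' : V → ℝ} {e : ℝ} (hh : ∀ k, 0 < h k) (hM : DifferentiableAt ℝ M z)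
    (hM' : DifferentiableAt ℝ M' z) (h1 : |M z - 1| ≤ 1 / 50) (h1' : |M' z - 1| ≤ 1 / 50)
    (h2 : ∀ k, h k * |pd k M z| ≤ b) (h2' : ∀ k, h k * |pd k M' z| ≤ b) (he : |M z - M' z| ≤ e) :
    VD h z 1 (fun w => (M w)⁻¹ - (M' w)⁻¹) (4 * e) (8 * b) := by
  have H := (vd_inv hh hM h1 h2).sub (vd_inv hh hM' h1' h2')
  obtain ⟨p0, -, p2⟩ := Ftr.inv_bd (h1.trans (by norm_num))
  obtain ⟨q0, -, q2⟩ := Ftr.inv_bd (h1'.trans (by norm_num))
  refine ⟨hh, one_pos, H.d, ?_, fun k => (H.s k).trans_eq (by ring)⟩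
  have e1 : (M z)⁻¹ - (M' z)⁻¹ = -((M z - M' z) * ((M z)⁻¹ * (M' z)⁻¹)) := by field_simp; ring
  have := (abs_nonneg _).trans he
  rw [e1, abs_neg, one_mul]
  linarith [Ftr.abs_mul_le he (Ftr.abs_mul_le p2 q2)]

lemma lip {φ : ℝ → ℝ} {B : ℝ} (hW : 0 < W) (hφ : Differentiable ℝ φ)
    (hB : ∀ s, W * |deriv φ s| ≤ B) (s t : ℝ) : W * |φ s - φ t| ≤ B * |s - t| := by
  have := Convex.norm_image_sub_le_of_norm_deriv_le (𝕜 := ℝ) (f := φ) (s := univ) (C := B / W)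
    (fun x _ => hφ x) (fun x _ => by
      rw [Real.norm_eq_abs, le_div_iff₀ hW, mul_comm]; exact hB x) convex_univ (mem_univ t)
    (mem_univ s)
  rw [Real.norm_eq_abs, Real.norm_eq_abs, div_mul_eq_mul_div, le_div_iff₀ hW, mul_comm] at this
  exact this

lemma pd_ht {σ : V → ℝ} (hσ : Sm σ) (k : Fin 3) (z : V) :
    pd k (fun w => w 2 + σ w) z = (if 2 = k then 1 else 0) + pd k σ z := by
  rw [pd_add_at ((sm_coord 2).dif z) (hσ.dif z), pd_coord]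

/-- a function of the old and of the new height -/
lemma vd_chart {φ : ℝ → ℝ} {σ : V → ℝ} {B1 B2 B3 e0 e1 : ℝ} (hh : ∀ k, 0 < h k) (hW : 0 < W)
    (hφ : Sm φ) (hσ : Sm σ) (h1 : ∀ s, W * |φ s| ≤ B1) (h2 : ∀ s, W * |deriv φ s| ≤ B2 / h 2)
    (h3 : ∀ s, W * |deriv (deriv φ) s| ≤ B3 / h 2 ^ 2) (s0 : |σ z| ≤ e0 * h 2)
    (s1 : ∀ k, h k * |pd k σ z| ≤ e1 * h 2) (he : e1 ≤ 1) :
    VD h z W (fun w => φ (w 2 + σ w)) B1 (2 * B2) ∧ VD h z W (fun w => φ (w 2)) B1 (2 * B2) ∧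
      VD h z W (fun w => φ (w 2 + σ w) - φ (w 2)) (B2 * e0) (B2 * e1 + B3 * e0) := by
  have y0 := hh 2
  have dT : DifferentiableAt ℝ (fun w : V => w 2 + σ w) z := ((sm_coord 2).dif z).fun_add (hσ.dif z)
  have d1 : DifferentiableAt ℝ (fun w => φ (w 2 + σ w)) z := (hφ.dif _).comp z dT
  have d2 : DifferentiableAt ℝ (fun w : V => φ (w 2)) z := (hφ.dif _).comp z ((sm_coord 2).dif z)
  have p1 : ∀ k, pd k (fun w => φ (w 2 + σ w)) z =
      deriv φ (z 2 + σ z) * ((if 2 = k then 1 else 0) + pd k σ z) := fun k => by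
    rw [pd_comp_at (g := fun w => w 2 + σ w) (hφ.dif _) dT, pd_ht hσ]
  have p2 : ∀ k, pd k (fun w : V => φ (w 2)) z = deriv φ (z 2) * (if 2 = k then 1 else 0) :=
    fun k => by rw [pd_comp_at (g := fun w => w 2) (hφ.dif _) ((sm_coord 2).dif z), pd_coord]
  have B0 : 0 ≤ B2 / h 2 := (mul_nonneg hW.le (abs_nonneg _)).trans (h2 0)
  have B0' : 0 ≤ B3 / h 2 ^ 2 := (mul_nonneg hW.le (abs_nonneg _)).trans (h3 0)
  have b2 : 0 ≤ B2 := by have := mul_nonneg B0 y0.le; rwa [div_mul_cancel₀ _ y0.ne'] at this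
  have key : ∀ s x t : ℝ, ∀ k, h k * |x| ≤ t * h 2 → W * (h k * |deriv φ s * x|) ≤ B2 * t :=
    fun s x t k hx => by
      have := mul_le_mul (h2 s) hx (mul_nonneg (hh k).le (abs_nonneg _)) B0
      rw [abs_mul]
      calc _ = W * |deriv φ s| * (h k * |x|) := by ring
        _ ≤ _ := this
        _ = _ := by field_simp
  have one : ∀ k : Fin 3, h k * |(if 2 = k then 1 else 0 : ℝ)| ≤ 1 * h 2 := fun k => by
    split_ifs with e
    · subst e; simp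
    · simp [y0.le]
  have sz : |z 2 + σ z - z 2| ≤ e0 * h 2 := by rwa [add_sub_cancel_left]
  refine ⟨⟨hh, hW, d1, h1 _, fun k => ?_⟩, ⟨hh, hW, d2, h1 _, fun k => ?_⟩,
    ⟨hh, hW, d1.fun_sub d2, ?_, fun k => ?_⟩⟩
  · rw [p1, mul_comm 2]
    refine key _ _ _ k ?_
    linarith [mul_le_mul_of_nonneg_left (abs_add_le (if 2 = k then 1 else 0) (pd k σ z)) (hh k).le,
      one k, s1 k, mul_le_mul_of_nonneg_right he y0.le]
  · rw [p2]
    linarith [key (z 2) _ _ k (one k)]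
  · refine (lip hW hφ.dif h2 _ _).trans ((mul_le_mul_of_nonneg_left sz B0).trans_eq ?_)
    field_simp
  · have t1 := key (z 2 + σ z) _ _ k (s1 k)
    have t2 := (lip hW hφ.deriv.dif h3 _ _).trans (mul_le_mul_of_nonneg_left sz B0')
    have t3 := mul_le_mul t2 (one k) (mul_nonneg (hh k).le (abs_nonneg _))
      ((mul_nonneg hW.le (abs_nonneg _)).trans t2)
    have t4 : B3 / h 2 ^ 2 * (e0 * h 2) * (1 * h 2) = B3 * e0 := by field_simp
    have t5 := mul_le_mul_of_nonneg_left (abs_add_le (deriv φ (z 2 + σ z) * pd k σ z)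
      ((deriv φ (z 2 + σ z) - deriv φ (z 2)) * (if 2 = k then 1 else 0))) (mul_pos hW (hh k)).le
    rw [abs_mul (_ - _)] at t5
    rw [pd_sub_at d1 d2, p1, p2, show ∀ x y u v : ℝ, x * (u + v) - y * u = x * v + (x - y) * u by
      intros; ring]
    linarith

end

/-! ## the slide -/

variable {n : ℝ → V} {σ : V → ℝ}

lemma sm_cS (hn : Sm n) (hσ : Sm σ) : Sm (cS n σ) := by
  have hT : Sm fun w : V => w 2 + σ w := ContDiff.add (sm_coord 2) hσ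
  have h : ∀ i, Sm fun w : V => w i - n (w 2) i + n (w 2 + σ w) i := fun i =>
    ContDiff.add (ContDiff.sub (sm_coord i) ((hn.coord i).comp (sm_coord 2))) ((hn.coord i).comp hT)
  refine sm_pi fun i => ?_
  fin_cases i
  exacts [h 0, h 1, hT]

/-- slope of the chart -/
def sl (n : ℝ → V) (i : Fin 3) : ℝ → ℝ := deriv fun r => n r i

lemma jm_cS (hn : Sm n) (hσ : Sm σ) (z : V) : jm (cS n σ) z =
    !![1 + sl n 0 (z 2 + σ z) * pd 0 σ z, sl n 0 (z 2 + σ z) * pd 1 σ z,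
        sl n 0 (z 2 + σ z) * (1 + pd 2 σ z) - sl n 0 (z 2);
      sl n 1 (z 2 + σ z) * pd 0 σ z, 1 + sl n 1 (z 2 + σ z) * pd 1 σ z,
        sl n 1 (z 2 + σ z) * (1 + pd 2 σ z) - sl n 1 (z 2);
      pd 0 σ z, pd 1 σ z, 1 + pd 2 σ z] := by
  have hT : Sm fun w : V => w 2 + σ w := ContDiff.add (sm_coord 2) hσ
  have h : ∀ i j, pd j (fun w : V => w i - n (w 2) i + n (w 2 + σ w) i) z =
      (if i = j then 1 else 0) - sl n i (z 2) * (if 2 = j then 1 else 0) +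
        sl n i (z 2 + σ z) * ((if 2 = j then 1 else 0) + pd j σ z) := fun i j => by
    have a1 : DifferentiableAt ℝ (fun w : V => n (w 2) i) z :=
      Sm.dif (ContDiff.comp (hn.coord i) (sm_coord 2)) z
    have a2 : DifferentiableAt ℝ (fun w : V => n (w 2 + σ w) i) z :=
      Sm.dif (ContDiff.comp (hn.coord i) hT) z
    rw [pd_add_at (((sm_coord i).dif z).fun_sub a1) a2, pd_sub_at ((sm_coord i).dif z) a1,
      pd_comp_at (φ := fun r => n r i) (g := fun w => w 2) ((hn.coord i).dif _) ((sm_coord 2).dif z),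
      pd_comp_at (φ := fun r => n r i) (g := fun w => w 2 + σ w) ((hn.coord i).dif _) (hT.dif z),
      pd_ht hσ, pd_coord, pd_coord]
    rfl
  ext i j
  fin_cases i
  · refine (h 0 j).trans ?_
    fin_cases j <;> simp
    ring
  · refine (h 1 j).trans ?_
    fin_cases j <;> simp
    ring
  · refine (pd_ht hσ j z).trans ?_
    fin_cases j <;> simp

lemma jac_cS (hn : Sm n) (hσ : Sm σ) (z : V) : jac (cS n σ) z =
    1 + pd 2 σ z + (sl n 0 (z 2) * pd 0 σ z + sl n 1 (z 2) * pd 1 σ z) := by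
  rw [jac, jm_cS hn hσ, det_fin_three]
  simp
  ring

variable (c : Pm) (n : ℝ → V) (f : V → V) (σ : V → ℝ)

/-- normalised slope of the chart -/
def ph (i : Fin 3) (s : ℝ) : ℝ := c.n12 / c.cc i * sl n i s
def nh (i : Fin 3) (w : V) : ℝ := ph c n i (w 2 + σ w) * (jac f (cS n σ w))⁻¹
def nh' (i : Fin 3) (w : V) : ℝ := ph c n i (w 2) * (jac (f ∘ cS n σ) w)⁻¹
def ka (w : V) : ℝ := nh' c n f σ 0 w * c.ah n f σ 0 w + nh' c n f σ 1 w * c.ah n f σ 1 w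
def cl (i : Fin 3) (w : V) : ℝ := nh c n f σ i w - nh' c n f σ i w - nh c n f σ i w * ka c n f σ w
def em (w : V) : Mx :=
  !![nh c n f σ 0 w * c.ah n f σ 0 w, nh c n f σ 0 w * c.ah n f σ 1 w, cl c n f σ 0 w;
    nh c n f σ 1 w * c.ah n f σ 0 w, nh c n f σ 1 w * c.ah n f σ 1 w, cl c n f σ 1 w;
    c.ah n f σ 0 w, c.ah n f σ 1 w, -ka c n f σ w]

variable {c n f σ}

lemma Em_eq (h1 : c.c1 ≠ 0) (h2 : c.c2 ≠ 0) (h3 : c.n12 ≠ 0) (hf : Sm f) (hn : Sm n) (hσ : Sm σ)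
    {w : V} (hM : jac f (cS n σ w) ≠ 0) (hM' : jac (f ∘ cS n σ) w ≠ 0) :
    c.Em f (cS n σ) w - 1 = em c n f σ w := by
  have e : jac (f ∘ cS n σ) w = jac f (cS n σ w) * jac (cS n σ) w :=
    jac_comp (hf.dif _) ((sm_cS hn hσ).dif w)
  rw [jac_cS hn hσ] at e
  have hD : 1 + pd 2 σ w + (sl n 0 (w 2) * pd 0 σ w + sl n 1 (w 2) * pd 1 σ w) ≠ 0 := fun h0 =>
    hM' (by rw [e, h0, mul_zero])
  ext a b
  simp only [Pm.Em, Matrix.sub_apply, of_apply, jm_cS hn hσ, em, cl, ka, nh, nh', ph, Pm.ah, e]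
  fin_cases a <;> fin_cases b <;> simp [Pm.cj, Pm.cc] <;> field_simp <;> ring

end
end Pool.Agent.MP_20bec2_an.T3.Cvs2

end MrgPart1

-- marker of a merged file
example : 731051 + 490865 = 731051 + 490865 := rfl

end MrgPart0

-- ======== part 1: formerly Pool.Agent.MP_20bec2_an.T3.Osc
section MrgPart1

-- ======== part 0: formerly Pool.Agent.MP_20bec2_an.T3.Sgn
section MrgPart0

/-! Row SGN: signs between aligned frames. -/

set_option autoImplicit false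
open MeasureTheory Set Filter Matrix Topology

namespace Pool.Agent.MP_20bec2_an.T3
noncomputable section
open Classical

namespace Sgn
open Prof

lemma sg_sq (x : ℝ) : sg x ^ 2 = 1 := by unfold sg; split_ifs <;> norm_num

lemma sg_or (x : ℝ) : sg x = 1 ∨ sg x = -1 := by unfold sg; split_ifs <;> simp

lemma abs_sub_sg (x : ℝ) : |x - sg x| = |(|x| - 1)| := by
  unfold sg
  split_ifs with h
  · rw [abs_of_nonneg h]
  · rw [abs_of_neg (not_le.1 h), ← abs_neg]; congr 1; ring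

lemma sg_eq {x s : ℝ} (hs : s = 1 ∨ s = -1) (h : |x - s| < 1) : sg x = s := by
  obtain ⟨h1, h2⟩ := abs_lt.1 h
  unfold sg
  rcases hs with rfl | rfl
  · rw [if_pos (by linarith)]
  · rw [if_neg (by linarith)]

/-- an orthogonal matrix with small off-diagonal entries is near a sign matrix -/
lemma near_diag {P : Mx} {δ : ℝ} (hP : Orth P) (hδ : δ ≤ 1) (ho : ∀ i j, i ≠ j → |P i j| ≤ δ) :
    EB (P - diagonal fun i => sg (P i i)) (cm (2 * δ)) := by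
  have h0 : 0 ≤ δ := (abs_nonneg _).trans (ho 0 1 (by decide))
  intro i j
  show |P i j - diagonal (fun i => sg (P i i)) i j| ≤ 2 * δ
  by_cases hij : i = j
  · subst hij
    rw [diagonal_apply_eq, abs_sub_sg]
    have h1 := orth_row hP i
    have h2 := orth_abs_le hP i i
    have h3 : ∑ j ∈ Finset.univ.erase i, P i j ^ 2 ≤ ∑ _j ∈ Finset.univ.erase i, δ ^ 2 :=
      Finset.sum_le_sum fun j hj => by
        rw [← sq_abs]
        exact pow_le_pow_left₀ (abs_nonneg _) (ho i j (Finset.ne_of_mem_erase hj).symm) 2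
    rw [Finset.sum_const, Finset.card_erase_of_mem (Finset.mem_univ _), Finset.card_univ,
      Fintype.card_fin, show (3 - 1) • δ ^ 2 = 2 * δ ^ 2 by simp] at h3
    rw [← Finset.add_sum_erase _ _ (Finset.mem_univ i), ← sq_abs] at h1
    have h4 := abs_nonneg (P i i)
    rw [abs_sub_comm, abs_of_nonneg (by linarith)]
    nlinarith
  · rw [diagonal_apply_ne _ hij, sub_zero]
    linarith [ho i j hij]

lemma off_diag {F F' : Fr} {δ : ℝ} (c : Cpt δ F F') (h1 : 0 < F.s1) (h1' : 0 < F'.s1)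
    (hb : 5 * F.s1 ≤ F.s2 ∨ 5 * F'.s1 ≤ F'.s2) (i j : Fin 3) (hij : i ≠ j) :
    |(F.Oᵀ * F'.O) i j| ≤ δ := by
  have a : |(F.Oᵀ * F'.O) 0 1| ≤ δ ∧ |(F.Oᵀ * F'.O) 1 0| ≤ δ := by
    rcases c.al with a | a
    · exact a
    · rcases hb with hb | hb <;> linarith [a.1, a.2]
  have b0 := c.o3 0 (by decide)
  have b1 := c.o3 1 (by decide)
  fin_cases i <;> fin_cases j
  exacts [absurd rfl hij, a.1, b0.1, a.2, absurd rfl hij, b1.1, b0.2, b1.2, absurd rfl hij]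

/-- the product of two near sign matrices -/
lemma sg_mul {P P' : Mx} {s s' : V} {δ : ℝ} (hδ : δ ≤ 1 / 10) (hs : ∀ i, s i = 1 ∨ s i = -1)
    (hs' : ∀ i, s' i = 1 ∨ s' i = -1) (h : EB (P - diagonal s) (cm δ))
    (h' : EB (P' - diagonal s') (cm δ)) (i : Fin 3) : sg ((P * P') i i) = s i * s' i := by
  have h0 : 0 ≤ δ := GeoP.eb_nonneg h
  have e : P * P' = diagonal s * diagonal s' + (diagonal s * (P' - diagonal s') +
      (P - diagonal s) * diagonal s' + (P - diagonal s) * (P' - diagonal s')) := by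
    simp only [Matrix.mul_sub, Matrix.sub_mul]; abel
  have a1 : |s i| = 1 := by rcases hs i with e | e <;> simp [e]
  have a2 : |s' i| = 1 := by rcases hs' i with e | e <;> simp [e]
  have h1 := h i i
  have h2 := h' i i
  have h3 := GeoP.eb_mul h h' i i
  refine sg_eq (by rcases hs i with e | e <;> rcases hs' i with e' | e' <;> simp [e, e']) ?_
  rw [e, Matrix.add_apply, diagonal_mul_diagonal, diagonal_apply_eq, add_sub_cancel_left,
    Matrix.add_apply, Matrix.add_apply, diagonal_mul, mul_diagonal]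
  refine (abs_add_three _ _ _).trans_lt ?_
  rw [abs_mul, abs_mul, a1, a2]
  simp only [cm, of_apply] at h1 h2 h3
  nlinarith

variable {B : Bk}

lemma big_of_deep (G : B.G) (hb : Big B.N) {g : Cu} (d : B.deep g) : B.big g := by
  have gd := Bk.gd0 G.toFrOk hb g
  have h1 : etaA B.N ≤ 1 := le_of_log hb.etaA_pos one_pos (by
    rw [hb.log_etaA, Real.log_one]; linarith [hb.L_ge])
  have h2 : (B.c g 0).η < 1 := by
    have : (B.c g 0).η ≤ 7 * etaS B.N := d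
    linarith [hb.etaA_eq, hb.etaS_pos]
  have h3 : 5 ≤ Jp B.N (37 / 10) := le_of_log (by norm_num) (hb.Jp_pos _) (by
    rw [hb.log_Jp]; linarith [hb.L_ge, (logc_bd (show (1 : ℝ) ≤ 5 by norm_num)).2])
  exact (le_div_iff₀ gd.s1_pos).1 (h3.trans (gd.K_ge h2))

lemma big_of_psh (G : B.G) (hb : Big B.N) {g : Cu} (d : B.psh g) : B.big g :=
  big_of_deep G hb (Bk.push_deep G.toFrOk hb (Nbr.refl' (by norm_num) g) d)

lemma sgn_symm (g g' : Cu) (i : Fin 3) : B.sgn g g' i = B.sgn g' g i := by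
  unfold Bk.sgn Fr.σ
  rw [← GeoP.P_t, transpose_apply]

lemma sgn_near (G : B.G) (hb : Big B.N) {g g' : Cu} (n : Nbr 3 g g') (h : B.big g ∨ B.big g') :
    EB ((B.fr g).Q⁻¹ * (B.fr g').Q - diagonal (B.sgn g g')) (cm (3 * dc B.N)) ∧
    EB ((B.fr g).Oᵀ * (B.fr g').O - diagonal (B.sgn g g')) (cm (2 * dc B.N)) := by
  have c := G.cp g g' n
  have d1 : dc B.N ≤ 1 := le_of_log hb.dc_pos one_pos (by
    rw [hb.log_dc, Real.log_one]; linarith [hb.J_pos])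
  have h2 : EB ((B.fr g).Oᵀ * (B.fr g').O - diagonal (B.sgn g g')) (cm (2 * dc B.N)) :=
    near_diag (GeoP.P_orth (GeoP.orth G.toFrOk g) (GeoP.orth G.toFrOk g')) d1
      (off_diag c (Bk.gd0 G.toFrOk hb g).s1_pos (Bk.gd0 G.toFrOk hb g').s1_pos h)
  refine ⟨?_, h2⟩
  have := GeoP.eb_add c.tq h2
  rw [sub_add_sub_cancel] at this
  exact GeoP.eb_mono this (by linarith)

lemma sgn_mul (G : B.G) (hb : Big B.N) {g g' g'' : Cu} (n : Nbr 3 g g') (n' : Nbr 3 g' g'')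
    (h : B.big g') (i : Fin 3) : B.sgn g g'' i = B.sgn g g' i * B.sgn g' g'' i := by
  have d1 : 20 * dc B.N ≤ 1 := le_of_log (mul_pos (by norm_num) hb.dc_pos) one_pos (by
    rw [Real.log_mul (by norm_num) hb.dc_pos.ne', hb.log_dc, Real.log_one]
    linarith [hb.J_ge, hb.L_ge, (logc_bd (show (1 : ℝ) ≤ 20 by norm_num)).2])
  have := sg_mul (by linarith) (fun i => sg_or _) (fun i => sg_or _)
    (sgn_near G hb n (Or.inr h)).2 (sgn_near G hb n' (Or.inl h)).2 i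
  rw [Matrix.mul_assoc, ← Matrix.mul_assoc (B.fr g').O, (GeoP.orth G.toFrOk g').1,
    Matrix.one_mul] at this
  exact this

lemma tau_sq (g g' : Cu) : B.tau g g' ^ 2 = 1 := by
  rw [Bk.tau, mul_pow, show B.sgn g g' 0 ^ 2 = 1 from sg_sq _,
    show B.sgn g g' 2 ^ 2 = 1 from sg_sq _, mul_one]

lemma abs_tau (g g' : Cu) : |B.tau g g'| = 1 := by
  have := tau_sq (B := B) g g'
  rw [← sq_abs] at this
  exact (pow_eq_one_iff_of_nonneg (abs_nonneg _) two_ne_zero).1 this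

lemma tau_mul (G : B.G) (hb : Big B.N) {g g2 g' : Cu} (n : Nbr 3 g g') (n' : Nbr 3 g2 g')
    (h : B.big g') : B.tau g g' = B.tau g g2 * B.tau g2 g' := by
  have k : ∀ i, B.sgn g g' i = B.sgn g g2 i * B.sgn g2 g' i := fun i => by
    rw [sgn_mul G hb n n'.symm h i, sgn_symm g' g2, mul_assoc, ← sq,
      show B.sgn g2 g' i ^ 2 = 1 from sg_sq _, mul_one]
  unfold Bk.tau
  rw [k 0, k 2]; ring

lemma sw_chg (G : B.G) (hb : Big B.N) {C : ℝ} {α : Cu → V → ℝ} (A : B.PA C α) (j : ℕ) {g g2 : Cu}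
    {w : V} (hw : w ∈ B.K g (6 / 5)) (hw2 : w ∈ B.K g2 (6 / 5)) :
    B.sw α j g w = B.tau g g2 * B.sw α j g2 w := by
  unfold Bk.sw
  rw [mul_finsum]
  refine finsum_congr fun g' => ?_
  split_ifs with h
  · by_cases a : α g' w = 0
    · simp [a]
    · rw [tau_mul G hb ((A.fin g w hw g' a).2.mono (by norm_num))
        ((A.fin g2 w hw2 g' a).2.mono (by norm_num)) (big_of_psh G hb h.2), mul_assoc]
  · simp

end Sgn

theorem sgn_ : SgnStmt := by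
  filter_upwards [ev_big] with N hN B hB G
  subst hB
  refine ⟨fun g d => Sgn.big_of_deep G hN d, fun g g' i => ⟨Sgn.sg_sq _, Sgn.sgn_symm g g' i⟩,
    fun g i => ?_, fun g g' n h => Sgn.sgn_near G hN n h,
    fun g g' g'' i n n' h => Sgn.sgn_mul G hN n n' h i, fun C α A => ?_⟩
  · unfold Bk.sgn Fr.σ
    rw [Prof.orth_t_mul (GeoP.orth G.toFrOk g), one_apply_eq, sg, if_pos zero_le_one]
  · refine ⟨fun w => if h : ∃ g, w ∈ B.K g (6 / 5) then B.sw α 8 h.choose w ^ 2 else 0,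
      fun g w hw => ?_⟩
    have h : ∃ g, w ∈ B.K g (6 / 5) := ⟨g, hw⟩
    simp only [dif_pos h]
    rw [Sgn.sw_chg G hN A 8 hw h.choose_spec, mul_pow, Sgn.tau_sq, one_mul]

end
end Pool.Agent.MP_20bec2_an.T3

end MrgPart0

-- ======== part 1: formerly Pool.Agent.MP_20bec2_an.T3.Osc
section MrgPart1

/-! Row OSC: size and oscillation of the sums of the long slide. -/

set_option autoImplicit false
open MeasureTheory Set Filter Matrix Topology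

namespace Pool.Agent.MP_20bec2_an.T3
noncomputable section
open Classical

namespace OscP

lemma card_nbrs (g : Cu) : (nbrs g 2).card = 125 := by
  have e : ∀ i, (Finset.Icc (g i - 2) (g i + 2)).card = 5 := fun i => by
    rw [Int.card_Icc]
    omega
  simp only [nbrs, Fintype.card_piFinset, e]
  simp

lemma nbr3 {g g' : Cu} (h : g' ∈ nbrs g 2) : Nbr 3 g g' := by
  simp only [nbrs, Fintype.mem_piFinset, Finset.mem_Icc] at h
  intro i
  have := h i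
  rw [abs_le]; omega

lemma sqrt_cl {a b e : ℝ} (ha : 0 < a) (hb : 0 ≤ b) (h : |b - a| ≤ e * a) :
    |√b - √a| ≤ e * √a := by
  have p := Real.sqrt_pos.2 ha
  refine le_of_mul_le_mul_right ?_ p
  have e1 : (√b - √a) * (√b + √a) = b - a := by
    rw [mul_comm, ← sq_sub_sq, Real.sq_sqrt hb, Real.sq_sqrt ha.le]
  calc |√b - √a| * √a ≤ |√b - √a| * (√b + √a) :=
        mul_le_mul_of_nonneg_left (by linarith [Real.sqrt_nonneg b]) (abs_nonneg _)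
    _ = |b - a| := by rw [← e1, abs_mul, abs_of_nonneg (a := √b + √a) (by positivity)]
    _ ≤ e * √a * √a := by rw [mul_assoc, Real.mul_self_sqrt ha.le]; exact h

lemma sq_cl {a b e m : ℝ} (h : |a - b| ≤ e) (ha : |a| ≤ m) (hb : |b| ≤ m) :
    |a ^ 2 - b ^ 2| ≤ 2 * m * e := by
  rw [sq_sub_sq, abs_mul]
  exact mul_le_mul ((abs_add_le _ _).trans (by linarith)) h (abs_nonneg _)
    (by linarith [abs_nonneg a])

variable {B : Bk} {C : ℝ} {α : Cu → V → ℝ}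

/-- sums over all cubes are sums over the neighbours -/
lemma fs_eq (A : B.PA C α) {g : Cu} {w : V} (hw : w ∈ B.K g (6 / 5)) (F : Cu → ℝ)
    (hF : ∀ g', α g' w = 0 → F g' = 0) : ∑ᶠ g', F g' = ∑ g' ∈ nbrs g 2, F g' :=
  finsum_eq_sum_of_support_subset _ fun g' hg' => (A.fin g w hw g' fun a => hg' (hF g' a)).1

lemma sum_le3 (A : B.PA C α) (w : V) (T : Finset Cu) : ∑ g ∈ T, α g w ≤ 3 := by
  nlinarith [(A.l1 w T).1]

/-- one term of the sum -/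
def tr (B : Bk) (α : Cu → V → ℝ) (g g' : Cu) (w : V) : ℝ :=
  if B.psh g' then B.tau g g' * (α g' w * Real.cos (B.phi g' w)) else 0

lemma tr_le (A : B.PA C α) (g g' : Cu) (w : V) : |tr B α g g' w| ≤ α g' w := by
  unfold tr
  split_ifs
  · rw [abs_mul, abs_mul, Sgn.abs_tau, one_mul, abs_of_nonneg (A.rg g' w).1]
    exact mul_le_of_le_one_right (A.rg g' w).1 (Real.abs_cos_le_one _)
  · rw [abs_zero]; exact (A.rg g' w).1

lemma tr_sub (A : B.PA C α) (g g' : Cu) (w w' : V) : |tr B α g g' w - tr B α g g' w'| ≤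
    |α g' w - α g' w'| + α g' w' * |B.phi g' w - B.phi g' w'| := by
  have h0 := (A.rg g' w').1
  unfold tr
  split_ifs
  · rw [← mul_sub, abs_mul, Sgn.abs_tau, one_mul,
      show α g' w * Real.cos (B.phi g' w) - α g' w' * Real.cos (B.phi g' w') =
        (α g' w - α g' w') * Real.cos (B.phi g' w) +
          α g' w' * (Real.cos (B.phi g' w) - Real.cos (B.phi g' w')) by ring]
    refine (abs_add_le _ _).trans (add_le_add ?_ ?_)
    · rw [abs_mul]; exact mul_le_of_le_one_right (abs_nonneg _) (Real.abs_cos_le_one _)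
    · rw [abs_mul, abs_of_nonneg h0]
      exact mul_le_mul_of_nonneg_left (Real.abs_cos_sub_cos_le _ _) h0
  · rw [sub_self, abs_zero]; positivity

lemma s0_eq (A : B.PA C α) {g : Cu} {w : V} (hw : w ∈ B.K g (6 / 5)) :
    B.s0 α g w = ∑ g' ∈ nbrs g 2, tr B α g g' w :=
  fs_eq A hw (fun g' => tr B α g g' w) fun g' a => by simp [tr, a]

lemma s0_le (A : B.PA C α) {g : Cu} {w : V} (hw : w ∈ B.K g (6 / 5)) :
    |B.s0 α g w| ≤ ∑ g' ∈ nbrs g 2, α g' w := by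
  rw [s0_eq A hw]
  exact (Finset.abs_sum_le_sum_abs _ _).trans (Finset.sum_le_sum fun g' _ => tr_le A g g' w)

lemma sw_eq (A : B.PA C α) {g : Cu} {w : V} (hw : w ∈ B.K g (6 / 5)) :
    B.sw α 8 g w = ∑ g' ∈ nbrs g 2, √(B.c g' 0).p * tr B α g g' w := by
  rw [Bk.sw, fs_eq A hw _ fun g' a => by simp [a]]
  refine Finset.sum_congr rfl fun g' _ => ?_
  unfold tr
  by_cases h : B.psh g'
  · rw [if_pos ⟨Prof.col_lt g', h⟩, if_pos h]; ring
  · rw [if_neg fun e => h e.2, if_neg h, mul_zero]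

/-- the push size of neighbours -/
lemma p_cl (G : B.G) (hb : Big B.N) {g g' : Cu} (n : Nbr 3 g g') :
    |(B.c g' 0).p - (B.c g 0).p| ≤ 1 / pq B.N ^ 2 / 100 * (B.c g 0).p := by
  have c := Bk.cpk G.toFrOk hb n (Nat.zero_le _) (Nat.zero_le _)
  have e : cpe (dc B.N) (B.c g 0) (B.c g' 0) = 12 * pJ B.N * dc B.N := by
    show 3 * (4 * pJ B.N) * dc B.N + 35 * (((B.N : ℝ) - B.N) / B.N) = _
    rw [sub_self]; ring
  have := hb.J_pos; have := hb.dc_pos; have := hb.q_pos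
  have h1 : 3000 * (pJ B.N * dc B.N) ≤ 1 / pq B.N ^ 2 := by
    refine le_of_log (by positivity) (by positivity) ?_
    simp (disch := positivity) only [Real.log_div, Real.log_mul, Real.log_pow, Real.log_one,
      hb.log_q, hb.log_J, hb.log_dc]
    push_cast
    linarith [hb.L_ge, hb.J_ge, (logc_bd (show (1 : ℝ) ≤ 3000 by norm_num)).2]
  have h2 : 1 / pq B.N ^ 2 ≤ 1 := by
    rw [div_le_one (by positivity)]; nlinarith [hb.q_ge]
  have h3 := abs_div_sub_one_le c.g.p_pos c.g'.p_pos c.cl_p (by rw [e]; linarith)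
  rw [div_sub_one c.g.p_pos.ne', abs_div, abs_of_pos c.g.p_pos, div_le_iff₀ c.g.p_pos, e] at h3
  exact h3.trans (mul_le_mul_of_nonneg_right (by linarith [mul_pos hb.J_pos hb.dc_pos])
    c.g.p_pos.le)

lemma size (G : B.G) (hb : Big B.N) (A : B.PA C α) {g : Cu} {w : V} (hw : w ∈ B.K g (6 / 5)) :
    B.s0 α g w ^ 2 ≤ 8 ∧
    |B.sw α 8 g w ^ 2 - (B.c g 0).p * B.s0 α g w ^ 2| ≤ (B.c g 0).p / pq B.N ^ 2 ∧
    |B.abF α w - (B.c g 0).p * (thP α B.psh w / 2)| ≤ (B.c g 0).p / pq B.N ^ 2 := by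
  have hp := (Bk.gd0 G.toFrOk hb g).p_pos
  have hq := hb.q_pos
  obtain ⟨e, he⟩ : ∃ e, e = 1 / pq B.N ^ 2 := ⟨_, rfl⟩
  have e0 : 0 < e := by rw [he]; positivity
  have e1 : e ≤ 1 := by rw [he, div_le_one (by positivity)]; nlinarith [hb.q_ge]
  have e2 : (B.c g 0).p / pq B.N ^ 2 = e * (B.c g 0).p := by rw [he]; ring
  have s1 := s0_le A hw
  have s3 := sum_le3 A w (nbrs g 2)
  refine ⟨?_, ?_, ?_⟩
  · rw [← sq_abs]
    exact (pow_le_pow_left₀ (abs_nonneg _) s1 2).trans (A.l1 w _).1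
  · have sp := Real.sqrt_pos.2 hp
    have h1 : |B.sw α 8 g w - √(B.c g 0).p * B.s0 α g w| ≤ e / 100 * √(B.c g 0).p * 3 := by
      rw [sw_eq A hw, s0_eq A hw, Finset.mul_sum, ← Finset.sum_sub_distrib]
      refine (Finset.abs_sum_le_sum_abs _ _).trans ((Finset.sum_le_sum
        (g := fun g' => e / 100 * √(B.c g 0).p * α g' w) fun g' hg' => ?_).trans ?_)
      · rw [← sub_mul, abs_mul]
        exact mul_le_mul (sqrt_cl hp (Bk.gd0 G.toFrOk hb g').p_pos.le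
          (he ▸ p_cl G hb (nbr3 hg'))) (tr_le A g g' w) (abs_nonneg _) (by positivity)
      · rw [← Finset.mul_sum]; exact mul_le_mul_of_nonneg_left s3 (by positivity)
    have h2 : |√(B.c g 0).p * B.s0 α g w| ≤ √(B.c g 0).p * 3 := by
      rw [abs_mul, abs_of_pos sp]; exact mul_le_mul_of_nonneg_left (s1.trans s3) sp.le
    have h3 : e * √(B.c g 0).p ≤ √(B.c g 0).p := mul_le_of_le_one_left sp.le e1
    have h4 := sq_cl (m := 4 * √(B.c g 0).p) h1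
      (by linarith [abs_sub_abs_le_abs_sub (B.sw α 8 g w) (√(B.c g 0).p * B.s0 α g w)])
      (by linarith)
    rw [mul_pow, Real.sq_sqrt hp.le] at h4
    rw [e2]
    have h5 : √(B.c g 0).p * √(B.c g 0).p = (B.c g 0).p := Real.mul_self_sqrt hp.le
    refine h4.trans ?_
    have : 2 * (4 * √(B.c g 0).p) * (e / 100 * √(B.c g 0).p * 3) =
        24 / 100 * (e * (√(B.c g 0).p * √(B.c g 0).p)) := by ring
    rw [this, h5]
    linarith [mul_pos e0 hp]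
  · rw [Bk.abF, thP, fs_eq A hw _ fun g' a => by simp [a], fs_eq A hw _ fun g' a => by simp [a],
      e2, show ∀ x y : ℝ, 1 / 2 * x - (B.c g 0).p * (y / 2) = 1 / 2 * (x - (B.c g 0).p * y) from
        fun x y => by ring, Finset.mul_sum (a := (B.c g 0).p), ← Finset.sum_sub_distrib, abs_mul,
      abs_of_pos (show (0 : ℝ) < 1 / 2 by norm_num)]
    have h1 : |∑ g' ∈ nbrs g 2, ((if B.psh g' then α g' w ^ 2 * (B.c g' 0).p else 0) -
        (B.c g 0).p * if B.psh g' then α g' w ^ 2 else 0)| ≤ e / 100 * (B.c g 0).p * 1 := by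
      refine (Finset.abs_sum_le_sum_abs _ _).trans ((Finset.sum_le_sum
        (g := fun g' => e / 100 * (B.c g 0).p * α g' w ^ 2) fun g' hg' => ?_).trans ?_)
      · split_ifs
        · rw [mul_comm (α g' w ^ 2), ← sub_mul, abs_mul, abs_of_nonneg (sq_nonneg (α g' w))]
          exact mul_le_mul_of_nonneg_right (he ▸ p_cl G hb (nbr3 hg')) (sq_nonneg _)
        · rw [mul_zero, sub_self, abs_zero]; positivity
      · rw [← Finset.mul_sum]; exact mul_le_mul_of_nonneg_left (A.l1 w _).2 (by positivity)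
    linarith [mul_pos e0 hp]

/-- slowly varying functions -/
lemma slow (G : B.G) (hb : Big B.N) (hC : C ≤ pq B.N) {g : Cu} {θ : V → ℝ} (hθ : Sm θ)
    (H : CB 4 (cv B.D) (B.R g (6 / 5)) (fun z => θ ((B.fr g).zp z)) C) {z z' : V}
    (hz : z ∈ B.R g (6 / 5)) (hz' : z' ∈ B.R g (6 / 5))
    (h : ‖z - z'‖ ≤ 2 * (B.N : ℝ) ^ 3 * (B.c g (mid B.N)).lam) :
    |θ ((B.fr g).zp z) - θ ((B.fr g).zp z')| ≤ np B.N (-19) := by
  have gd := Bk.gd G.toFrOk hb g (k := mid B.N) (by have := hb.mid_lt; omega)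
  have := hb.N_pos; have := gd.lam_pos; have := hb.np_pos (-20); have := hb.q_pos
  have hD : 0 < B.D := gd.D_pos
  have h1 : 2 * (B.N : ℝ) ^ 3 * (B.c g (mid B.N)).lam ≤ np B.N (-20) * B.D := by
    have l1 := Real.log_le_log (hb.np_pos _) hb.two_pow_mid.1
    have l2 : Real.log (B.c g (mid B.N)).lam = Real.log B.lb - mid B.N * Real.log 2 := gd.log_lam
    have l3 : Real.log B.D = 4 * pJ B.N + Real.log B.lb := gd.log_D
    rw [hb.log_np, Real.log_pow] at l1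
    refine le_of_log (by positivity) (by positivity) ?_
    simp (disch := positivity) only [Real.log_mul, Real.log_pow, hb.log_N, hb.log_np, l2, l3]
    push_cast
    linarith [hb.J_ge, hb.L_ge, log2_bd.2]
  have h2 := CV.mvt_box (fun _ => hD) (Prof.RX_convex _ _ _)
    (hθ.comp (Prof.sm_affine (B.fr g).z0 (B.fr g).Q)) H.toCV (by norm_num) hz hz'
    (r := np B.N (-20)) fun i => ((Prof.abs_le_norm (z - z') i).trans h).trans h1
  refine h2.trans ((mul_le_mul_of_nonneg_left hC (by positivity)).trans ?_)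
  refine le_of_log (by positivity) (hb.np_pos _) ?_
  simp (disch := positivity) only [Real.log_mul, hb.log_np, hb.log_q]
  linarith [hb.J_ge, hb.L_ge, (logc_bd (show (1 : ℝ) ≤ 3 by norm_num)).2]

/-- change of the phase -/
lemma phase (G : B.G) (hb : Big B.N) {g g' : Cu} (d : B.deep g) (n : Nbr 3 g g') {z z' : V}
    (h0 : |z 0 - z' 0| ≤ 4 * pq B.N * Real.sqrt (pJ B.N) * (B.c g (mid B.N)).l1)
    (h : ‖z - z'‖ ≤ 2 * (B.N : ℝ) ^ 3 * (B.c g (mid B.N)).lam) :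
    |B.phi g' ((B.fr g).zp z) - B.phi g' ((B.fr g).zp z')| ≤ 33 / pq B.N ^ 2 := by
  have hm : mid B.N ≤ nb B.N := by have := hb.mid_lt; omega
  have c := Bk.cpk G.toFrOk hb n hm hm
  have hN := hb.N_pos; have hq := hb.q_pos; have hs := hb.sqrtJ_pos; have hd := hb.dc_pos
  have l0 := c.g.l1_pos; have l0' := c.g'.l1_pos; have hl := c.g.lam_pos
  have dn := GeoP.det_ne G.toFrOk g
  have E := (Sgn.sgn_near G hb n.symm (Or.inr (Sgn.big_of_deep G hb d))).1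
  have h1 : |(B.fr g').zc ((B.fr g).zp z) 0 - (B.fr g').zc ((B.fr g).zp z') 0| ≤
      |z 0 - z' 0| + 3 * (3 * dc B.N) * ‖z - z'‖ := by
    rw [← Pi.sub_apply, GeoP.zc_chg dn, Prof.zc_zp dn, Prof.zc_zp dn,
      ← add_sub_cancel (diagonal (B.sgn g' g)) ((B.fr g').Q⁻¹ * (B.fr g).Q), add_mulVec,
      Pi.add_apply, mulVec_diagonal]
    refine (abs_add_le _ _).trans (add_le_add (le_of_eq ?_)
      ((Prof.abs_le_norm _ 0).trans (Prof.norm_mulVec_le E _)))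
    rw [abs_mul, show |B.sgn g' g 0| = 1 by
      rcases Sgn.sg_or (((B.fr g').Oᵀ * (B.fr g).O) 0 0) with e | e <;>
        simp [Bk.sgn, Fr.σ, e], one_mul, Pi.sub_apply]
  have h2 : 1800 * (dc B.N * (B.N : ℝ) ^ 3) ≤ pq B.N * √(pJ B.N) := by
    refine le_of_log (by positivity) (by positivity) ?_
    simp (disch := positivity) only [Real.log_mul, Real.log_pow, hb.log_N, hb.log_dc, hb.log_q,
      hb.log_sqrtJ]
    push_cast
    linarith [hb.J_ge, hb.L_ge, (logc_bd (show (1 : ℝ) ≤ 1800 by norm_num)).2]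
  have h3 : (B.c g (mid B.N)).l1 ≤ 1001 / 1000 * (B.c g' (mid B.N)).l1 := by
    have r := (c.ratios Pm.ro (by simp)).2.2.1
    have q := c.q_inv.2
    have e : (B.c g' (mid B.N)).lam = (B.c g (mid B.N)).lam := rfl
    rw [Pm.l1, Pm.l1, e, ← mul_assoc]
    exact mul_le_mul_of_nonneg_right (r.trans (mul_le_mul_of_nonneg_right (by linarith)
      c.g'.ro_pos.le)) hl.le
  have h4 : 3 * (3 * dc B.N) * ‖z - z'‖ ≤ pq B.N * √(pJ B.N) / 100 * (B.c g (mid B.N)).l1 := by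
    refine (mul_le_mul_of_nonneg_left h (by positivity)).trans ?_
    have := mul_le_mul (show 18 * (dc B.N * (B.N : ℝ) ^ 3) ≤ pq B.N * √(pJ B.N) / 100 by linarith)
      c.g.lam_le_l1 hl.le (by positivity)
    linarith
  have h5 : |(B.fr g').zc ((B.fr g).zp z) 0 - (B.fr g').zc ((B.fr g).zp z') 0| ≤
      33 / 8 * (pq B.N * √(pJ B.N) * (B.c g' (mid B.N)).l1) := by
    have := mul_le_mul_of_nonneg_left h3 (mul_pos hq hs).le
    have := mul_pos (mul_pos hq hs) l0'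
    linarith
  have hc : (col g' : ℝ) + 1 ≤ 8 := by exact_mod_cast Prof.col_lt g'
  have hA : (B.c g' (mid B.N)).lA = pq B.N ^ 3 * √(pJ B.N) * (B.c g' (mid B.N)).l1 := rfl
  have hj : 0 < B.lj g' := div_pos c.g'.lA_pos (by positivity)
  rw [Bk.phi, Bk.phi, ← sub_div, abs_div, abs_of_pos hj, div_le_iff₀ hj]
  refine h5.trans ?_
  have h6 : (B.c g' (mid B.N)).lA / 8 ≤ B.lj g' :=
    div_le_div_of_nonneg_left c.g'.lA_pos.le (by positivity) hc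
  refine le_trans (le_of_eq ?_) (mul_le_mul_of_nonneg_left h6 (by positivity))
  rw [hA]; field_simp

lemma oscil (G : B.G) (hb : Big B.N) (A : B.PA C α) (hC : C ≤ pq B.N) {g : Cu} (d : B.deep g)
    {z z' : V} (hz : z ∈ B.R g (6 / 5)) (hz' : z' ∈ B.R g (6 / 5))
    (h0 : |z 0 - z' 0| ≤ 4 * pq B.N * Real.sqrt (pJ B.N) * (B.c g (mid B.N)).l1)
    (h : ‖z - z'‖ ≤ 2 * (B.N : ℝ) ^ 3 * (B.c g (mid B.N)).lam) :
    |B.s0 α g ((B.fr g).zp z) ^ 2 - B.s0 α g ((B.fr g).zp z') ^ 2| ≤ 1000 / pq B.N ^ 2 := by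
  have dn := GeoP.det_ne G.toFrOk g
  have k : ∀ {z : V}, z ∈ B.R g (6 / 5) → (B.fr g).zp z ∈ B.K g (6 / 5) := fun hz => by
    show (B.fr g).zc _ ∈ B.R g (6 / 5)
    rwa [Prof.zc_zp dn]
  have hq := hb.q_pos; have := hb.np_pos (-19)
  have h1 : 125 * np B.N (-19) ≤ 1 / pq B.N ^ 2 := by
    refine le_of_log (by positivity) (by positivity) ?_
    simp (disch := positivity) only [Real.log_div, Real.log_mul, Real.log_pow, Real.log_one,
      hb.log_q, hb.log_np]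
    push_cast
    linarith [hb.L_ge, hb.J_ge, (logc_bd (show (1 : ℝ) ≤ 125 by norm_num)).2]
  have h2 : |B.s0 α g ((B.fr g).zp z) - B.s0 α g ((B.fr g).zp z')| ≤
      125 * np B.N (-19) + 33 / pq B.N ^ 2 * 3 := by
    rw [s0_eq A (k hz), s0_eq A (k hz'), ← Finset.sum_sub_distrib]
    refine (Finset.abs_sum_le_sum_abs _ _).trans ((Finset.sum_le_sum
      (g := fun g' => np B.N (-19) + 33 / pq B.N ^ 2 * α g' ((B.fr g).zp z'))
      fun g' hg' => (tr_sub A g g' _ _).trans (add_le_add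
        (slow G hb hC (A.sm g') (A.cb g g') hz hz' h) ?_)).trans ?_)
    · rw [mul_comm]
      exact mul_le_mul_of_nonneg_right (phase G hb d (nbr3 hg') h0 h) (A.rg _ _).1
    · rw [Finset.sum_add_distrib, Finset.sum_const, card_nbrs, ← Finset.mul_sum, nsmul_eq_mul]
      exact add_le_add (by norm_num)
        (mul_le_mul_of_nonneg_left (sum_le3 A _ _) (by positivity))
  refine (sq_cl h2 ((s0_le A (k hz)).trans (sum_le3 A _ _))
    ((s0_le A (k hz')).trans (sum_le3 A _ _))).trans ?_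
  have e : ∀ a : ℝ, a / pq B.N ^ 2 = a * (1 / pq B.N ^ 2) := fun a => by ring
  rw [e 33, e 1000]
  have : 0 < 1 / pq B.N ^ 2 := by positivity
  linarith

end OscP

theorem osc' : OscStmt := by
  filter_upwards [ev_big] with N hN B hB C α G A hC g d
  subst hB
  exact ⟨fun w hw => OscP.size G hN A hw, fun z hz z' hz' h0 h =>
    ⟨OscP.oscil G hN A hC d hz hz' h0 h, (OscP.slow G hN hC (A.th _).1 ((A.th _).2.2 g) hz hz'
      h).trans (hN.np_le (by norm_num))⟩⟩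

theorem osc (_ : SgnStmt) : OscStmt := osc'

end
end Pool.Agent.MP_20bec2_an.T3

end MrgPart1

-- marker of a merged file
example : 731051 + 261455 = 731051 + 261455 := rfl

end MrgPart1

-- ======== part 2: formerly Pool.Agent.MP_20bec2_an.T3.Fl3
section MrgPart2

-- ======== part 0: formerly Pool.Agent.MP_20bec2_an.T3.GabsA
section MrgPart0

/-! Row GABS, part 1: numbers and the intermediate densities. -/

set_option autoImplicit false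
open MeasureTheory Set Filter Matrix Topology

namespace Pool.Agent.MP_20bec2_an.T3
noncomputable section
open Classical

namespace Gab

section num
variable {N : ℕ}

lemma cJ (h : Big N) {C a b : ℝ} (m : ℕ) (hC : C ≤ 10 ^ 9) (hm : m ≤ 100) (hab : a + 1 / 1000 ≤ b) :
    C * pJ N ^ m * np N a ≤ np N b := by
  have := h.J_pos; have := h.np_pos a; have := h.np_pos b; have := h.L_ge; have := h.J_ge
  have h1 : (m : ℝ) ≤ 100 := by exact_mod_cast hm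
  have h2 : (m : ℝ) * pL N ≤ 100 * pL N := mul_le_mul_of_nonneg_right h1 (by linarith)
  have h3 : (a + 1 / 1000) * pJ N ≤ b * pJ N := mul_le_mul_of_nonneg_right hab (by linarith)
  have h4 := (logc_bd (C := 10) (by norm_num)).2
  refine le_trans (by gcongr) (le_of_log (x := 10 ^ 9 * pJ N ^ m * np N a) (by positivity)
    (by positivity) ?_)
  simp (disch := positivity) only [Real.log_mul, Real.log_pow, h.log_np, h.log_J]
  push_cast
  linarith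

lemma cN (h : Big N) {C a b : ℝ} (hC : C ≤ 10 ^ 9) (hab : a + 1 / 1000 ≤ b) :
    C * np N a ≤ np N b := by
  simpa using cJ h 0 hC (by norm_num) hab

lemma cq (h : Big N) {C a b : ℝ} (hC : C ≤ 10 ^ 9) (hab : a + 1 / 1000 ≤ b) :
    C * qp N a ≤ qp N b := by
  have := h.qp_pos a; have := h.qp_pos b; have := h.L_ge
  have h3 : (a + 1 / 1000) * (pL N / 1000) ≤ b * (pL N / 1000) :=
    mul_le_mul_of_nonneg_right hab (by linarith)
  have h4 := (logc_bd (C := 10) (by norm_num)).2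
  refine le_trans (by gcongr) (le_of_log (x := 10 ^ 9 * qp N a) (by positivity) (by positivity) ?_)
  simp (disch := positivity) only [Real.log_mul, Real.log_pow, h.log_qp]
  push_cast
  linarith

lemma sml (h : Big N) {a : ℝ} (ha : a ≤ -1 / 1000) : np N a ≤ 1 / 10 ^ 9 := by
  have := cN h (C := 10 ^ 9) (a := a) (b := 0) le_rfl (by linarith)
  rw [np_zero] at this
  linarith

lemma one_le_J (h : Big N) : 1 ≤ pJ N := by linarith [h.q_ge, h.q_le_J]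

end num

lemma hs_le {c : Pm} (G : Gd c) (i : Fin 3) : c.lam ≤ c.hs i ∧ c.hs i ≤ c.y := by
  have p := G.lam_pos
  have h1 : 1 ≤ np c.N (11 / 10) := (np_zero _).symm.trans_le (G.big.np_le (by norm_num))
  have h2 : c.ro ≤ np c.N (11 / 10) := le_of_log G.ro_pos (G.big.np_pos _) (by
    rw [G.big.log_np]; linarith [G.log_ro_bd.2, G.big.L_ge, G.big.J_pos])
  have h3 : c.lam ≤ c.y := le_mul_of_one_le_left p.le h1
  fin_cases i
  exacts [⟨G.lam_le_l1, mul_le_mul_of_nonneg_right h2 p.le⟩, ⟨le_rfl, h3⟩, ⟨h3, le_rfl⟩]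

lemma y_le {c : Pm} (G : Gd c) : c.y ≤ np c.N (-29 / 10) * c.D := by
  have e : np c.N (-29 / 10) * c.D = np c.N (11 / 10) * c.lb := by
    rw [Pm.D, ← mul_assoc, ← np_nat, ← G.big.np_add]; norm_num
  rw [e]
  exact mul_le_mul_of_nonneg_left G.lam_le_lb (G.big.np_pos _).le

/-- a cut-off at scale `D` seen at the scale of the kernel -/
lemma cut_cb {c : Pm} (G : Gd c) {U : Set V} {θ : V → ℝ} (h01 : ∀ z ∈ U, 0 ≤ θ z ∧ θ z ≤ 1)
    (H : CB 4 (cv c.D) U θ c.q) : CB 3 c.hs U θ 1 ∧ CV 3 c.hs U θ (np c.N (-2)) := by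
  have b := G.big
  have h1 : CV 3 c.hs U θ (np c.N (-29 / 10) * c.q) :=
    CV.finer (b.np_pos _).le ((sml b (by norm_num)).trans (by norm_num)) (fun _ => G.D_pos.le)
      (fun i => (G.hs_pos i).le) (fun i => (hs_le G i).2.trans (y_le G)) (H.of_le (by norm_num)).toCV
  have h2 : np c.N (-29 / 10) * c.q ≤ np c.N (-2) := by
    have := cJ b (C := 1) (a := -29 / 10) (b := -2) 1 (by norm_num) (by norm_num) (by norm_num)
    have := mul_le_mul_of_nonneg_left b.q_le_J (b.np_pos (-29 / 10)).le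
    simp only [Pm.q] at *
    linarith
  have h3 : CV 3 c.hs U θ (np c.N (-2)) := CBl.monoB h1 h2
  exact ⟨CV.toCB (CBl.monoB h3 ((sml b (by norm_num)).trans (by norm_num))) fun x hx =>
    abs_le.2 ⟨by linarith [(h01 x hx).1], (h01 x hx).2⟩, h3⟩

end Gab

open Gab in
theorem gmw : GmwStmt := ev_gd.mono fun _ hN c hc ho U M θ R hM hθ hR h01 hcb hMB hT hRB => by
  have G := hN c hc ho
  have b := G.big
  have hh := G.hs_pos
  have h0 : ∀ i, 0 ≤ c.hs i := fun i => (hh i).le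
  have pl := G.lam_pos; have py := G.y_pos; have q1 : 10000000 ≤ c.q := b.q_ge
  obtain ⟨t1, t2⟩ := cut_cb G h01 hcb
  have sR : ∀ i, Sm fun z => θ z * R z i := fun i => hθ.mul (hR.coord i)
  have l1 : ∀ i, i ≠ 2 → CB 3 c.hs U (fun z => θ z * R z i) (8 * np c.N (-10) * c.lam) :=
    fun i hi => CBl.monoB (CB.mul h0 hθ (hR.coord i) t1 (hRB.1 i hi)) (le_of_eq (by ring))
  have l2 : CB 3 c.hs U (fun z => θ z * R z 2) (8 * c.q * c.y) :=
    CBl.monoB (CB.mul h0 hθ (hR.coord 2) t1 hRB.2.1) (le_of_eq (by ring))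
  have n1 : c.q * np c.N (-2) ≤ np c.N (-1) := by
    have := cJ b (C := 1) (a := -2) (b := -1) 1 (by norm_num) (by norm_num) (by norm_num)
    have := mul_le_mul_of_nonneg_right b.q_le_J (b.np_pos (-2)).le
    simp only [Pm.q] at *
    linarith
  have n2 : np c.N (-1) ≤ np c.N (-1 / 4) := b.np_le (by norm_num)
  have l3 : CL 3 c.hs U (fun z => θ z * R z 2) (16 * np c.N (-1 / 4) * c.y) :=
    CBl.monoB (CL.mul h0 hθ (hR.coord 2) t1 t2.toCL hRB.2.1 hRB.2.2) (by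
      have := mul_le_mul_of_nonneg_right (n1.trans n2) py.le
      linarith)
  have d1 : ∀ i, i ≠ 2 → CB 2 c.hs U (pd i fun z => θ z * R z i) (8 * np c.N (-10)) :=
    fun i hi => CBl.monoB (CB.pd_div hh (l1 i hi) i) ((div_le_iff₀ (hh i)).2
      (mul_le_mul_of_nonneg_left (hs_le G i).1 (by have := b.np_pos (-10); positivity)))
  have d2 : CB 2 c.hs U (pd 2 fun z => θ z * R z 2) (8 * c.q) :=
    CBl.monoB (CB.pd_div hh l2 2) ((div_le_iff₀ (hh 2)).2 le_rfl)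
  have d3 : CL 2 c.hs U (pd 2 fun z => θ z * R z 2) (16 * np c.N (-1 / 4)) :=
    CBl.monoB (CL.pd_div hh l3 2) ((div_le_iff₀ (hh 2)).2 le_rfl)
  have e : (fun z => M z + dv (fun w => θ w • R w) z) = fun z => M z +
      (pd 0 (fun z => θ z * R z 0) z + pd 1 (fun z => θ z * R z 1) z +
        pd 2 (fun z => θ z * R z 2) z) := by
    funext z
    simp only [dv, Fin.sum_univ_three, Pi.smul_apply, smul_eq_mul]
  have s0 := (sR 0).pd 0; have s1 := (sR 1).pd 1; have s2 := (sR 2).pd 2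
  have n3 := sml b (a := -10) (by norm_num)
  have n4 : np c.N (-10) ≤ np c.N (-245 / 1000) := b.np_le (by norm_num)
  have n5 : np c.N (-1 / 4) ≤ np c.N (-245 / 1000) := b.np_le (by norm_num)
  have n6 : np c.N (-26 / 100) ≤ np c.N (-245 / 1000) := b.np_le (by norm_num)
  refine ⟨⟨fun z hz => ?_, ?_, ?_⟩, fun i hi => CBl.monoB (l1 i hi)
    (mul_le_mul_of_nonneg_right (cN b (by norm_num) (by norm_num)) pl.le),
    CBl.monoB (l2.of_le (by norm_num)) (mul_le_mul_of_nonneg_right ?_ py.le),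
    CBl.monoB (l3.of_le (by norm_num))
      (mul_le_mul_of_nonneg_right (cN b (by norm_num) (by norm_num)) py.le)⟩
  · have k : ∀ i, |pd i θ z * R z i| ≤ np c.N (-1) := fun i => by
      have a1 := t2.pd_le (by norm_num) i hz
      have a2 : |R z i| ≤ c.q * c.hs i := by
        by_cases hi : i = 2
        · subst hi; exact hRB.2.1.val hz
        · refine ((hRB.1 i hi).val hz).trans (mul_le_mul (by linarith) (hs_le G i).1 pl.le
            (by linarith))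
      rw [abs_mul]
      have a3 := mul_le_mul_of_nonneg_left a2 (abs_nonneg (pd i θ z))
      have a4 := mul_le_mul_of_nonneg_left a1 (show 0 ≤ c.q by linarith)
      linarith
    have a5 := abs_le.1 (hMB.1 z hz); have a6 := abs_le.1 (hT z hz)
    have a7 := h01 z hz
    have a8 := sml b (a := -1) (by norm_num)
    have k0 := abs_le.1 (k 0); have k1 := abs_le.1 (k 1); have k2 := abs_le.1 (k 2)
    have a9 : np c.N (-1) ≤ 1 / 10 ^ 10 := by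
      have := cN b (C := 10) (a := -1) (b := -1 / 2) (by norm_num) (by norm_num)
      linarith [sml b (a := -1 / 2) (by norm_num)]
    show |M z + dv (fun w => θ w • R w) z - 1| ≤ _
    rw [dv_smul hθ hR, Fin.sum_univ_three, abs_le]
    simp only [eps0] at a5 a6 ⊢
    constructor <;> nlinarith
  · rw [e]
    exact CBl.monoB (CBl.add h0 hM ((s0.add s1).add s2) hMB.2.1 (CBl.add h0 (s0.add s1) s2
      (CBl.add h0 s0 s1 (d1 0 (by decide)) (d1 1 (by decide))) d2)) (by linarith)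
  · rw [e]
    exact CBl.monoB (CBl.add h0 hM ((s0.add s1).add s2) hMB.2.2 (CBl.add h0 (s0.add s1) s2
      (CBl.add h0 s0 s1 (d1 0 (by decide)).toCL (d1 1 (by decide)).toCL) d3))
      (by linarith [b.np_pos (-245 / 1000)])
  · have := cq b (C := 8) (a := 1) (b := 6 / 5) (by norm_num) (by norm_num)
    rwa [qp_one] at this

end
end Pool.Agent.MP_20bec2_an.T3

end MrgPart0

-- ======== part 1: formerly Pool.Agent.MP_20bec2_an.T3.Fl3
section MrgPart1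

/-! Row FL3: the data of the push. -/

set_option autoImplicit false
open MeasureTheory Set Filter Matrix Topology

namespace Pool.Agent.MP_20bec2_an.T3
noncomputable section
open Classical
namespace Fl3
open Prof GeoP

lemma sa_ne {t : ℝ} (h : |t| < 9 / 10) : sa t ≠ 0 := by
  obtain ⟨h1, h2⟩ := abs_lt.1 h
  have p := Real.pi_pos
  have a1 : 0 < st ((t + 9 / 10) / (4 / 5)) :=
    Real.smoothTransition.pos_of_pos (div_pos (by linarith) (by norm_num))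
  have a2 : st ((t - 1 / 10) / (4 / 5)) < 1 :=
    Real.smoothTransition.lt_one_of_lt_one ((div_lt_one (by norm_num)).2 (by linarith))
  refine (mul_pos (Real.sin_pos_of_pos_of_lt_pi (by positivity) ?_)
    (Real.cos_pos_of_mem_Ioo ⟨?_, ?_⟩)).ne'
  · linarith [(ang_mem ((t + 9 / 10) / (4 / 5))).2]
  · linarith [(ang_mem ((t - 1 / 10) / (4 / 5))).1]
  · nlinarith

lemma num {c : Pm} (h : Gd c) : 27 ≤ √c.q ∧ 2187 * c.q * c.lA ≤ (c.N : ℝ) ^ 2 * c.lam ∧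
    3 * c.q * √c.J * c.y ≤ (c.N : ℝ) ^ 3 * c.lam ∧ 3 ≤ c.q * √c.J ∧ 1 / √c.J ≤ 1 / 100 ∧
    20 / √c.J ≤ 1 / c.q / 10 ∧ np c.N (-10) ≤ 1 / c.q / 10 ∧ 1 / c.q ^ 2 ≤ 1 / c.q / 10000 ∧
    1000 * c.lam ≤ c.D ∧ 3 ≤ (c.N : ℝ) ^ 3 := by
  have b := h.big
  have := h.J_pos; have := h.q_pos; have := h.N_pos; have := b.L_ge; have := b.J_ge
  have := h.lA_pos; have := h.lam_pos; have := h.y_pos; have := h.D_pos; have := b.np_pos (-10)
  have := logc_bd (C := 27) (by norm_num); have := logc_bd (C := 2187) (by norm_num)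
  have := logc_bd (C := 3) (by norm_num); have := logc_bd (C := 100) (by norm_num)
  have := logc_bd (C := 20) (by norm_num); have := logc_bd (C := 10) (by norm_num)
  have := logc_bd (C := 10000) (by norm_num); have := logc_bd (C := 1000) (by norm_num)
  have := h.log_ro_bd.2; have := Real.log_le_log h.lam_pos h.lam_le_lb
  refine ⟨?_, ?_, ?_, ?_, ?_, ?_, ?_, ?_, ?_, ?_⟩ <;>
    refine le_of_log (by positivity) (by positivity) ?_ <;>
    simp (disch := positivity) only [Real.log_div, Real.log_mul, Real.log_pow, Real.log_one,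
      Real.log_sqrt, b.log_np, b.log_N, h.log_J, h.log_q, h.log_lA, h.log_l1, h.log_y, h.log_D] <;>
    push_cast <;> linarith

variable {B : Bk} {C : ℝ} {α : Cu → V → ℝ}

lemma hat_mem {g : Cu} {x z : V} {r s : ℝ} (hx : x ∈ B.R g r)
    (h : ‖(B.fr g).O *ᵥ (z - x)‖ ≤ s * B.D) : z ∈ B.R g (r + s) := by
  have h1 : (B.fr g).O *ᵥ z = (B.fr g).O *ᵥ x + (B.fr g).O *ᵥ (z - x) := by
    rw [← mulVec_add]; congr 1; abel
  have h2 : ‖(B.fr g).O *ᵥ x‖ ≤ r * B.D := hx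
  change ‖_‖ ≤ _
  rw [h1]
  linarith [norm_add_le ((B.fr g).O *ᵥ x) ((B.fr g).O *ᵥ (z - x))]

/-- the cubes that act at `Zm y` have `y` in the support of their cut-off -/
lemma al_ne (G : B.G) (hb : Big B.N) (A : B.PA C α) {Zm : V → V} {g g' : Cu} {x : V}
    (hx : x ∈ B.R g 1) (h : ‖(B.fr g).O *ᵥ ((B.fr g).hat Zm x - x)‖ ≤ B.D / 1000)
    (hw : Zm ((B.fr g).xp x) ∈ B.K g (6 / 5)) (h0 : α g' (Zm ((B.fr g).xp x)) ≠ 0) :
    al B.D g' ((B.fr g).xp x) ≠ 0 := by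
  have n2 := MsP.N_two hb
  have hD : 0 < B.D := MsP.Dp G.toFrOk hb
  have h1 := (G.nr g x (RX_mono _ hD.le (by norm_num) hx)).2
  have h2 := nbr_zc G.toFrOk n2 (nbr_symm (nbr_mono (by norm_num) (A.fin g _ hw g' h0).2))
    (B.Z0 ((B.fr g).xp x)) (Zm ((B.fr g).xp x))
  have h3 := norm_orth' (orth G.toFrOk g) ((B.fr g).hat B.Z0 x - (B.fr g).hat Zm x)
  have h4 := norm_sub_le ((B.fr g).O *ᵥ ((B.fr g).hat B.Z0 x - x))
    ((B.fr g).O *ᵥ ((B.fr g).hat Zm x - x))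
  rw [← mulVec_sub, sub_sub_sub_cancel_right] at h4
  have h5 := RX_add (s := 11 / 1000) (y := (B.fr g').zc (B.Z0 ((B.fr g).xp x))) (orth G.toFrOk g')
    (A.sup g' _ h0) (by simp only [Fr.hat, Bk.D] at *; linarith)
  have h6 := (mem_box' hD).1 (back G (by omega) (by norm_num) (by norm_num) h5)
  rw [al_eq hD.ne']
  exact Finset.prod_ne_zero_iff.2 fun i _ => sa_ne ((h6 i).trans_lt (by norm_num))

end Fl3

open Fl3 Prof GeoP in
theorem fl3 (hP : P0Stmt) : Fl3Stmt := by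
  obtain ⟨Cm, c1, c2⟩ := Mol.mol_gain 4
  filter_upwards [ev_big, hP, osc', ev_C_q Cm] with N hb hP hO hq B hN C α Zm Af G A hC hZ hA
  subst hN
  obtain ⟨s0, hP⟩ := hP B rfl C α Zm G A hC hZ
  replace hO := hO B rfl C α G A hC
  have km : mid B.N ≤ nb B.N := Nat.mul_le_mul_right _ (by norm_num)
  have gd := fun g => Bk.gd G.toFrOk hb g km
  have hD : 0 < B.D := MsP.Dp G.toFrOk hb
  have mo : ∀ {g} {r r' : ℝ}, r ≤ r' → B.R g r ⊆ B.R g r' := RX_mono _ hD.le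
  have zk : ∀ {g z} {r : ℝ}, z ∈ B.R g r → (B.fr g).zp z ∈ B.K g r := fun {g z r} h => by
    rwa [← zc_zp (det_ne G.toFrOk g) z] at h
  obtain ⟨lam, hl⟩ : ∃ lam, ∀ g, (B.c g (mid B.N)).lam = lam := ⟨B.lb / 2 ^ mid B.N, fun _ => rfl⟩
  have l0 : 0 < lam := hl 0 ▸ (gd 0).lam_pos
  have hm : ∀ i, 0 < cv lam i := fun _ => l0
  have sP : ∀ i, Sm fun y => B.P0 α (Zm y) i := fun i => Sm.coord (ContDiff.comp s0 hZ.1) i
  have li := fun i => Mol.li_cont (sP i).continuous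
  have nr : ∀ g, ∀ x ∈ B.R g (99 / 100), ∀ y ∈ Mol.bx (cv lam) ((B.fr g).xp x),
      (B.fr g).xc y ∈ B.R g 1 ∧ ‖(B.fr g).xc y - x‖ ≤ 2 * lam := fun g x hx y hy => by
    have o := orth G.toFrOk g
    have h1 : ‖(B.fr g).O *ᵥ ((B.fr g).xc y - x)‖ ≤ lam := by
      rw [← xp_sub, xp_xc o]; exact (pi_norm_le_iff_of_nonneg l0.le).2 hy
    have h2 : 1000 * lam ≤ B.D := hl g ▸ (num (gd g)).2.2.2.2.2.2.2.2.1
    exact ⟨mo (by norm_num) (hat_mem (s := 1 / 1000) hx (by linarith)),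
      by linarith [norm_orth' o ((B.fr g).xc y - x)]⟩
  have hat : ∀ {g}, B.deep g → ∀ {x}, x ∈ B.R g 1 → (B.fr g).hat Zm x ∈ B.R g (6 / 5) :=
    fun d x hx => mo (by norm_num) (hat_mem (s := 1 / 1000) hx (by linarith [((hZ.2 _ d).1 x hx).2.2]))
  have zh := fun g => zp_hat (det_ne G.toFrOk g) Zm
  let Pv : V → V := fun y i => mol (cv lam) (fun w => B.P0 α (Zm w) i) y
  let Q : Cu → V → ℝ := fun g y => ∑ i, (B.fr g).O i 0 * B.P0 α (Zm y) i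
  have sQ : ∀ g, Sm (Q g) := fun g => ContDiff.sum fun i _ => (sP i).cmul _
  have e1 : ∀ g, B.Pq Pv g = fun x => mol (cv lam) (Q g) ((B.fr g).xp x) := fun g => by
    funext x
    rw [Mol.mol_sum hm _ fun i _ => Mol.li_mul (li i) _]
    simp only [Mol.mol_mul]; rfl
  have av : ∀ g, ∀ x ∈ B.R g (99 / 100), ∀ (j : Fin 3) (a ε : ℝ), (∀ x' ∈ B.R g 1, ‖x' - x‖ ≤ 2 * lam →
      |a - pd j (B.Pq (fun y => B.P0 α (Zm y)) g) x'| ≤ ε) → |a - pd j (B.Pq Pv g) x| ≤ ε :=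
    fun g x hx j a ε H => by
      rw [e1]
      refine (congrArg (|a - ·|) (MsP.pds_mol_xp (orth G.toFrOk g) hm (sQ g) [j] x)).trans_le
        (Mol.abs_sub_mol hm (Mol.li_cont ((Sm.pd ((sQ g).comp (xp_sm _)) j).comp
          (xc_sm _)).continuous) fun y hy => H _ (nr g x hx y hy).1 (nr g x hx y hy).2)
  have sv : Sm Pv := contDiff_pi.2 fun i => MsP.mol_sm hm (sP i)
  refine ⟨Pv, sv, fun g hg z hz => ?_, fun g d => ?_, fun g d z hz => ?_, fun g d x hx => ?_⟩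
  · have hw := zk (mo (by norm_num : (11 / 10 : ℝ) ≤ 6 / 5) hz)
    rw [hA g _ hw, Bk.sw, finsum_eq_zero_of_forall_eq_zero fun g' => ?_]
    · norm_num
    split_ifs with k
    · rw [by_contra fun e => hg ⟨g', (A.fin g _ hw g' e).2, k.2⟩]; simp
    · rfl
  · obtain ⟨p1, p2, p3⟩ := hP g d
    have h := gd g
    have o := orth G.toFrOk g
    obtain ⟨n1, n2, -, -, -, n6, -⟩ := num h
    have q1 : 1 / (B.c g (mid B.N)).q ≤ 1 := (div_le_one h.q_pos).2 (le_trans (by norm_num) hb.q_ge)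
    have lA := h.lA_pos
    have qb : ∀ y, (B.fr g).xc y ∈ B.R g 1 → |Q g y| ≤ 27 * (B.c g (mid B.N)).lA := fun y hy => by
      have k := (p1 _ hy).1
      rw [xp_xc o] at k
      refine (Finset.abs_sum_le_sum_abs _ _).trans ((Finset.sum_le_card_nsmul _ _ _ fun i _ =>
        Ftr.abs_mul_le (orth_abs_le o i 0) (k i)).trans (le_of_eq ?_))
      simp; ring
    refine ⟨⟨e1 g ▸ (MsP.mol_sm hm (sQ g)).comp (xp_sm _), fun x hx => ⟨?_, ?_⟩, ?_, ?_⟩, fun i => ?_⟩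
    · rw [e1]
      exact (Mol.abs_mol_le hm fun y hy => qb y (nr g x hx y hy).1).trans
        (mul_le_mul_of_nonneg_right n1 lA.le)
    · have k := abs_le.1 (av g x hx 0 4 (46 / 10) fun x' hx' _ => by
        have k1 := abs_le.1 (p1 x' hx').2.1
        have k2 := ((hO g d).1 _ (zh g x' ▸ zk (hat d hx'))).1
        have k3 := (A.th B.psh).2.1 (Zm ((B.fr g).xp x'))
        have k4 := sq_nonneg (B.s0 α g (Zm ((B.fr g).xp x')))
        change 20 / √(pJ B.N) ≤ _ at n6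
        exact abs_le.2 ⟨by linarith, by linarith⟩)
      refine ⟨by linarith, by linarith, ?_, ?_⟩
      · simpa using av g x hx 1 0 _ fun x' hx' _ => by
          rw [zero_sub, abs_neg]; exact (p1 x' hx').2.2.1
      · simpa using av g x hx 2 0 _ fun x' hx' _ => by
          rw [zero_sub, abs_neg]; exact (p1 x' hx').2.2.2
    · rw [e1]
      exact MsP.cbl_mol_xp o hm (fun _ => zero_le_one) (sQ g) (fun x hx y hy => (nr g x hx y hy).1) p2
    · have k := (c2 (cv lam) (Q g) _ hm).2.2.1 ((B.fr g).xp '' B.R g (99 / 100))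
        {y | (B.fr g).xc y ∈ B.R g 1} (Mol.li_cont (sQ g).continuous)
        (by rintro _ ⟨x, hx, rfl⟩ y hy; exact (nr g x hx y hy).1) qb
      rw [e1, hl] at *
      refine CBl.monoB (CB.affine (κ := 1) (b := (B.fr g).x0) (Q := (B.fr g).O) (k := cv lam)
        (T := (B.fr g).xp '' B.R g (99 / 100)) (fun _ => l0.le) (fun _ => l0.le) (by norm_num) (fun i j => mul_le_mul_of_nonneg_right (orth_abs_le o i j) l0.le)
        (SmN.of_sm (MsP.mol_sm hm (sQ g)) _) (fun x hx => mem_image_of_mem _ hx) k) (le_trans ?_ n2)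
      have := mul_le_mul_of_nonneg_right hq lA.le
      change _ ≤ 2187 * pq B.N * _
      linarith
    · exact CBl.monoB (MsP.cbl_mol_xp o hm (fun _ => zero_le_one) (sP i)
        (fun x hx y hy => (nr g x hx y hy).1) (p3 i)) (by linarith [hb.N_ge, hb.J_ge, hb.L_ge])
  · have hw := zk (mo (by norm_num : (11 / 10 : ℝ) ≤ 6 / 5) hz)
    obtain ⟨k1, k2, -⟩ := (hO g d).1 _ hw
    have p0 := (Bk.gd G.toFrOk hb g (Nat.zero_le _)).p_pos
    have k3 : (B.c g 0).p / pq B.N ^ 2 ≤ (B.c g 0).p :=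
      div_le_self p0.le (one_le_pow₀ (le_trans (by norm_num) hb.q_ge))
    rw [hA g _ hw]
    exact ⟨sq_nonneg _, by nlinarith [(abs_le.1 k2).2]⟩
  have h := gd g
  have hx1 := mo (by norm_num : (99 / 100 : ℝ) ≤ 1) hx
  have hw : Zm ((B.fr g).xp x) ∈ B.K g (6 / 5) := zh g x ▸ zk (hat d hx1)
  have k1 := abs_le.1 ((hO g d).1 _ hw).2.2
  have k2 := (A.th B.psh).2.1 (Zm ((B.fr g).xp x))
  have p0 := (Bk.gd G.toFrOk hb g (Nat.zero_le _)).p_pos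
  obtain ⟨-, -, n3, n4, n5, n6, n7, n8, -, n9⟩ := num h
  have q1 : 1 / pq B.N ≤ 1 := (div_le_one h.q_pos).2 (le_trans (by norm_num) hb.q_ge)
  have k3 : (B.c g 0).p / pq B.N ^ 2 ≤ (B.c g 0).p * (1 / pq B.N / 10000) := by
    rw [div_eq_mul_one_div]; exact mul_le_mul_of_nonneg_left n8 p0.le
  have k4 := mul_le_mul_of_nonneg_left q1 p0.le
  refine ⟨mul_nonneg (by norm_num) (finsum_nonneg fun g' => ?_),
    by nlinarith [mul_le_mul_of_nonneg_left k2.2 p0.le], fun H => ?_, fun z hz d1 d2 => ?_⟩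
  · have := (Bk.gd G.toFrOk hb g' (Nat.zero_le _)).p_pos
    positivity
  · have : thP α B.psh (Zm ((B.fr g).xp x)) = 1 := by
      rw [← A.one (Zm ((B.fr g).xp x))]
      refine finsum_congr fun g' => ?_
      by_cases e : α g' (Zm ((B.fr g).xp x)) = 0
      · simp [e]
      · exact if_pos (H g' (al_ne G hb A hx1 ((hZ.2 g d).1 x hx1).2.2 hw e))
    rw [this] at k1
    linarith
  have hz' := mo (by norm_num : (11 / 10 : ℝ) ≤ 6 / 5) hz
  have k5 := abs_le.1 ((hO g d).1 _ (zk hz')).2.1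
  have l1 := h.lam_le_l1
  have l2 := mul_le_mul_of_nonneg_right n9 l0.le
  have l3 := mul_le_mul n4 l1 h.lam_pos.le (le_trans (by norm_num) n4)
  have d3 : ‖z - (B.fr g).hat Zm x‖ ≤ (B.N : ℝ) ^ 3 * lam :=
    (pi_norm_le_iff_of_nonneg (by positivity)).2 fun i => by
      by_cases hi : i = 2
      · exact hi ▸ hl g ▸ d2
      · exact (d1 i hi).trans ((mul_le_mul_of_nonneg_left (Gab.hs_le h i).2
          (by have := hb.q_pos; positivity)).trans (hl g ▸ n3))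
  have k6 := abs_le.1 (av g x hx 0 (B.s0 α g ((B.fr g).zp z) ^ 2 -
      thP α B.psh (Zm ((B.fr g).xp x)) / 2) (1 / pq B.N / 2) fun x' hx' e => by
    have a1 := (bilip (h := (B.fr g).hat Zm) (fun v => Sm.dif ((zc_sm _).comp (hZ.1.comp (xp_sm _))) v) (RX_convex _ _ _)
      (fun v hv => eb_mono ((hZ.2 g d).1 v hv).2.1 n5) hx' hx1).2
    rw [norm_sub_rev x] at a1
    have a2 := (abs_le_norm _ 0).trans a1
    have a3 := norm_add_le (z - (B.fr g).hat Zm x) ((B.fr g).hat Zm x - (B.fr g).hat Zm x')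
    have a4 := abs_sub_le (z 0) ((B.fr g).hat Zm x 0) ((B.fr g).hat Zm x' 0)
    have a5 := d1 0 (by decide)
    rw [sub_add_sub_cancel] at a3
    rw [hl] at l1 l3
    change _ ≤ pq B.N * √(pJ B.N) * _ at l3
    change |(B.fr g).hat Zm x 0 - _| ≤ _ at a2
    change _ ≤ _ * (B.c g (mid B.N)).l1 at a5
    change 3 * lam ≤ (B.N : ℝ) ^ 3 * lam at l2
    have a6 := abs_le.1 ((hO g d).2 z hz' _ (hat d hx') (by linarith) (by rw [hl]; linarith)).1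
    have a7 := abs_le.1 ((hO g d).2 _ (hat d hx1) _ (hat d hx') (by linarith) (by rw [hl]; linarith)).2
    have a8 := abs_le.1 ((hP g d).1 x' hx').2.1
    rw [zh] at a6
    rw [zh, zh] at a7
    have a9 : 1000 / pq B.N ^ 2 = 1000 * (1 / pq B.N ^ 2) := by ring
    change 20 / √(pJ B.N) ≤ 1 / pq B.N / 10 at n6
    change np B.N (-10) ≤ 1 / pq B.N / 10 at n7
    change 1 / pq B.N ^ 2 ≤ 1 / pq B.N / 10000 at n8
    have : 0 < 1 / pq B.N := by have := hb.q_pos; positivity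
    exact abs_le.2 ⟨by linarith, by linarith⟩)
  have k7 := mul_le_mul_of_nonneg_left k6.1 p0.le
  have k8 := mul_le_mul_of_nonneg_left k6.2 p0.le
  have : 0 < (B.c g 0).p * (1 / pq B.N) := by have := hb.q_pos; positivity
  rw [hA g _ (zk hz'), div_eq_mul_one_div _ (pq B.N)]
  exact abs_le.2 ⟨by linarith, by linarith⟩

end
end Pool.Agent.MP_20bec2_an.T3

end MrgPart1

-- marker of a merged file
example : 731051 + 778725 = 731051 + 778725 := rfl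

end MrgPart2

-- marker of a merged file
example : 731051 + 778725 = 731051 + 778725 := rfl
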