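import Pool.Agent.MP_20bec2_an.T3.Vtr
import Pool.Agent.MP_20bec2_an.T3.InitB
import Pool.Agent.MP_20bec2_an.T3.Conv
import Pool.Agent.MP_20bec2_an.T3.Fl3
import Pool.Agent.MP_20bec2_an.T3.Fcomp
import Pool.Agent.MP_20bec2_an.T3.Par4

-- ======== part 0: formerly Pool.Agent.MP_20bec2_an.T3.FUt
section MrgPart0

-- ======== part 0: formerly Pool.Agent.MP_20bec2_an.T3.Slide
section MrgPart0

/-! Slides along one coordinate direction. -/

set_option autoImplicit false
open MeasureTheory Set Filter Matrix Topology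

namespace Pool.Agent.MP_20bec2_an.T3
noncomputable section
open Classical

namespace Sl

/-- mass along the line -/
def G (M : V → ℝ) (e z : V) (s : ℝ) : ℝ := ∫ t in (0 : ℝ)..s, M (z + t • e)

variable {M a : V → ℝ} {e : V} {i : Fin 3}

lemma cont_line (hM : Continuous M) (e z : V) : Continuous fun t : ℝ => M (z + t • e) :=
  hM.comp (continuous_const.add (continuous_id.smul continuous_const))

lemma G_deriv (hM : Continuous M) (e z : V) (s : ℝ) : HasDerivAt (G M e z) (M (z + s • e)) s :=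
  ((cont_line hM e z).integral_hasStrictDerivAt 0 s).hasDerivAt

lemma G_zero (M : V → ℝ) (e z : V) : G M e z 0 = 0 := by simp [G]

lemma G_cont (hM : Continuous M) (e z : V) : Continuous (G M e z) :=
  continuous_iff_continuousAt.2 fun s => (G_deriv hM e z s).continuousAt

lemma G_mono (hM : Continuous M) (hp : ∀ z, 0 < M z) (e z : V) : StrictMono (G M e z) :=
  strictMono_of_deriv_pos fun s => by rw [(G_deriv hM e z s).deriv]; exact hp _

lemma G_add (hM : Continuous M) (e z : V) (s u : ℝ) :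
    G M e z (s + u) = G M e z s + G M e (z + s • e) u := by
  have h1 : G M e (z + s • e) u = ∫ t in s..s + u, M (z + t • e) := by
    have := intervalIntegral.integral_comp_add_left (a := 0) (b := u)
      (fun t : ℝ => M (z + t • e)) s
    simp only [add_zero] at this
    rw [← this]
    simp only [G, add_smul, add_assoc]
  rw [h1, G, G, intervalIntegral.integral_add_adjacent_intervals
    ((cont_line hM e z).intervalIntegrable _ _) ((cont_line hM e z).intervalIntegrable _ _)]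

lemma line_deriv {g : V → ℝ} (hg : Sm g) (i : Fin 3) (z : V) (t : ℝ) :
    HasDerivAt (fun s : ℝ => g (z + s • (Pi.single i 1 : V)))
      (pd i g (z + t • (Pi.single i 1 : V))) t := by
  have := hasDerivAt_line (g := g) (x := z) (v := (Pi.single i 1 : V)) (t := t) (hg.dif _)
  simpa [Pi.single_apply] using this

lemma Q_deriv (hM : Sm M) (ha : Sm a) (i : Fin 3) (z : V) (t : ℝ) :
    HasDerivAt (fun s : ℝ => G M (Pi.single i 1) z s + a (z + s • (Pi.single i 1 : V)))
      (M (z + t • (Pi.single i 1 : V)) + pd i a (z + t • (Pi.single i 1 : V))) t :=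
  (G_deriv hM.continuous _ z t).add (line_deriv ha i z t)

lemma Q_mono (hM : Sm M) (ha : Sm a) (hq : ∀ z, 0 < M z + pd i a z) (z : V) :
    StrictMono fun s : ℝ => G M (Pi.single i 1) z s + a (z + s • (Pi.single i 1 : V)) :=
  strictMono_of_deriv_pos fun s => by rw [(Q_deriv hM ha i z s).deriv]; exact hq _

lemma ivt {φ : ℝ → ℝ} (h : Continuous φ) {R c : ℝ} (h1 : φ (-R) ≤ c) (h2 : c ≤ φ R) :
    ∃ s, φ s = c :=
  mem_range.1 (intermediate_value_univ (-R) R h ⟨h1, h2⟩)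

/-- a right factor of a smooth map through an injective local diffeomorphism is smooth -/
lemma sm_of_inj {f g : V → V} (hf : Sm f) (hb : Function.Injective f) (hj : ∀ z, jac f z ≠ 0)
    (hg : Sm fun z => f (g z)) : Sm g := by
  refine contDiff_iff_contDiffAt.2 fun z => ?_
  have hd : DifferentiableAt ℝ f (g z) := hf.dif _
  have hdet : (fderiv ℝ f (g z)).det ≠ 0 := by rw [← Inv.jac_det hd]; exact hj _
  let L : V ≃L[ℝ] V := (fderiv ℝ f (g z)).toContinuousLinearEquivOfDetNeZero hdet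
  have he : HasFDerivAt f (L : V →L[ℝ] V) (g z) := by
    have : (L : V →L[ℝ] V) = fderiv ℝ f (g z) :=
      ContinuousLinearMap.coe_toContinuousLinearEquivOfDetNeZero _ hdet
    rw [this]
    exact hd.hasFDerivAt
  have h1 := (hf.contDiffAt (x := g z)).to_localInverse he Inv.top_ne
  have h2 := ((hf.contDiffAt (x := g z)).hasStrictFDerivAt' he Inv.top_ne).eventually_right_inverse
  refine (h1.comp z (f := fun z => f (g z)) hg.contDiffAt).congr_of_eventuallyEq ?_
  filter_upwards [hg.continuous.continuousAt.eventually h2] with y hy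
  exact hb hy.symm

lemma jac_slide {h : V → ℝ} (hh : Sm h) (i : Fin 3) (z : V) :
    jac (fun w => w + h w • (Pi.single i 1 : V)) z = 1 + pd i h z := by
  unfold jac
  rw [jm_id_add (Y := fun w => h w • (Pi.single i 1 : V)) ((hh.dif z).smul_const _), jm_smul_const,
    det_fin_three]
  fin_cases i <;> simp [vecMulVec_apply]

/-- the potential -/
def Pt (M : V → ℝ) (i : Fin 3) (w : V) : ℝ := -G M (Pi.single i 1) w (-w i)

lemma sm_Pt (hM : Sm M) (i : Fin 3) : Sm (Pt M i) :=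
  (sm_integral_ends (F := fun r x => M (x + r • (Pi.single i 1 : V))) (a := fun _ => 0)
    (b := fun w => -w i) (hM.comp (contDiff_snd.add (contDiff_fst.smul contDiff_const)))
    contDiff_const (sm_coord i).neg).neg

lemma Pt_add (hM : Sm M) (i : Fin 3) (z : V) (s : ℝ) :
    Pt M i (z + s • (Pi.single i 1 : V)) = Pt M i z + G M (Pi.single i 1) z s := by
  have := G_add hM.continuous (Pi.single i 1) z s (-(z + s • (Pi.single i 1 : V)) i)
  have e1 : s + -(z + s • (Pi.single i 1 : V)) i = -z i := by simp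
  rw [e1] at this
  unfold Pt
  linarith

lemma pd_Pt (hM : Sm M) (i : Fin 3) (z : V) : pd i (Pt M i) z = M z := by
  have h1 := line_deriv (sm_Pt hM i) i z 0
  simp only [Pt_add hM] at h1
  have h2 := (G_deriv hM.continuous (Pi.single i 1) z 0).const_add (Pt M i z)
  simpa using h1.unique h2

lemma sm_sol (hM : Sm M) (ha : Sm a) (hp : ∀ z, 0 < M z) {σ : V → ℝ}
    (hσ : ∀ z, G M (Pi.single i 1) z (σ z) = a z) : Sm σ := by
  have hh : Sm fun w : V => Pt M i w - w i := (sm_Pt hM i).sub (sm_coord i)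
  have key : Sm fun z : V => z + σ z • (Pi.single i 1 : V) := by
    refine sm_of_inj (f := fun w => w + (Pt M i w - w i) • (Pi.single i 1 : V))
      (contDiff_id.add (hh.smul contDiff_const)) (fun w w' hw => ?_) (fun z => ?_) ?_
    · have h1 : Pt M i w = Pt M i w' := by simpa using congrFun hw i
      have h2 : w' = w + ((Pt M i w - w i) - (Pt M i w' - w' i)) • (Pi.single i 1 : V) := by
        rw [sub_smul, ← add_sub_assoc]
        exact eq_sub_of_add_eq hw.symm
      have h3 := Pt_add hM i w ((Pt M i w - w i) - (Pt M i w' - w' i))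
      rw [← h2] at h3
      have h4 : (Pt M i w - w i) - (Pt M i w' - w' i) = 0 :=
        (G_mono hM.continuous hp (Pi.single i 1) w).injective (by rw [G_zero]; linarith)
      rw [h2, h4, zero_smul, add_zero]
    · rw [jac_slide hh, pd_sub_at ((sm_Pt hM i).dif z) ((sm_coord i).dif z), pd_Pt hM, pd_coord]
      simpa using (hp z).ne'
    · have : (fun z : V => z + σ z • (Pi.single i 1 : V) +
          (Pt M i (z + σ z • (Pi.single i 1 : V)) - (z + σ z • (Pi.single i 1 : V)) i) •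
            (Pi.single i 1 : V)) =
          fun z => z + (Pt M i z + a z - z i) • (Pi.single i 1 : V) := by
        funext z
        rw [Pt_add hM, hσ, add_assoc, ← add_smul]
        congr 2
        simp
        ring
      rw [this]
      exact contDiff_id.add ((((sm_Pt hM i).add ha).sub (sm_coord i)).smul contDiff_const)
  have : σ = fun z => (z + σ z • (Pi.single i 1 : V)) i - z i := by funext z; simp
  rw [this]
  exact (key.coord i).sub (sm_coord i)

end Sl

open Sl in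
theorem slide : SlideStmt := by
  intro i M a hM ha hp hq hr
  have mG := G_mono hM.continuous hp (Pi.single i 1)
  have mQ := Q_mono hM ha hq
  have ex : ∀ z, ∃ s, G M (Pi.single i 1) z s = a z := fun z => by
    obtain ⟨r, h⟩ := hr z
    have h1 := (mQ z).monotone (neg_nonpos.2 (abs_nonneg r))
    have h2 := (mQ z).monotone (abs_nonneg r)
    simp only [G_zero, zero_smul, add_zero, zero_add] at h1 h2
    rw [h _ (by simpa using le_abs_self r), add_zero] at h1 h2
    exact ivt (G_cont hM.continuous _ z) h1 h2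
  choose σ hσ using ex
  have sσ : Sm σ := sm_sol hM ha hp hσ
  have dσ : ∀ z j, M (z + σ z • (Pi.single i 1 : V)) * pd j σ z = pd j a z -
      ∫ t in (0 : ℝ)..σ z, pd j M (z + t • (Pi.single i 1 : V)) := fun z j => by
    have h1 := (((JC.line hM (Pi.single i 1)).upper 0 (sσ.dif z)).2 j)
    have h2 : (fun y => ∫ r in (0 : ℝ)..σ y, M (y + r • (Pi.single i 1 : V))) = a := funext hσ
    have h3 : ∀ r : ℝ, pd j (fun x => M (x + r • (Pi.single i 1 : V))) z =
        pd j M (z + r • (Pi.single i 1 : V)) := fun r => congrFun (pds_comp_add M _ [j]) z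
    simp only [h2, h3] at h1
    linarith
  refine ⟨σ, sσ, ⟨fun z z' hz => ?_, fun w => ?_⟩, hσ, dσ, fun f hf hj z => ?_⟩
  · have h2 : z' = z + (σ z - σ z') • (Pi.single i 1 : V) := by
      rw [sub_smul, ← add_sub_assoc]
      exact eq_sub_of_add_eq hz.symm
    have h3 := G_add hM.continuous (Pi.single i 1) z (σ z - σ z') (σ z')
    rw [← h2, sub_add_cancel, hσ, hσ] at h3
    have h4 : σ z - σ z' = 0 := (mQ z).injective (by
      simp only [G_zero, zero_smul, add_zero, zero_add]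
      rw [← h2, h3])
    rw [h2, h4, zero_smul, add_zero]
  · obtain ⟨r, h⟩ := hr w
    have h1 := (mG w).monotone (neg_nonpos.2 (abs_nonneg r))
    have h2 := (mG w).monotone (abs_nonneg r)
    rw [G_zero] at h1 h2
    obtain ⟨u, hu⟩ := ivt (φ := fun s : ℝ => G M (Pi.single i 1) w s +
      a (w + s • (Pi.single i 1 : V))) (R := |r|) (c := 0)
      ((G_cont hM.continuous _ w).add (cont_line ha.continuous _ w))
      (by rw [h _ (by simpa using le_abs_self r), add_zero]; exact h1)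
      (by rw [h _ (by simpa using le_abs_self r), add_zero]; exact h2)
    have h3 := G_add hM.continuous (Pi.single i 1) w u (-u)
    rw [add_neg_cancel, G_zero] at h3
    have h4 : σ (w + u • (Pi.single i 1 : V)) = -u :=
      (mG _).injective (by rw [hσ]; linarith)
    exact ⟨w + u • (Pi.single i 1 : V), by simp only [h4]; simp⟩
  · have dS : DifferentiableAt ℝ (fun w : V => w + σ w • (Pi.single i 1 : V)) z :=
      differentiableAt_id.add ((sσ.dif z).smul_const _)
    rw [jac_comp (Y := f) (Z := fun w : V => w + σ w • (Pi.single i 1 : V)) (hf.dif _) dS, hj,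
      jac_slide sσ, mul_add, dσ, intervalIntegral.integral_eq_sub_of_hasDerivAt
        (fun t _ => line_deriv hM i z t)
        ((cont_line (hM.pd i).continuous _ z).intervalIntegrable _ _)]
    simp only [zero_smul, add_zero]
    ring

end
end Pool.Agent.MP_20bec2_an.T3

end MrgPart0

-- ======== part 1: formerly Pool.Agent.MP_20bec2_an.T3.FUt
section MrgPart1

/-! Small lemmas for the rows on `f`; gluing. -/

set_option autoImplicit false
open MeasureTheory Set Filter Matrix Topology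

namespace Pool.Agent.MP_20bec2_an.T3
noncomputable section
open Classical

/-! ## eventual equality -/

theorem jm_congr' {f f' : V → V} {z : V} (h : f' =ᶠ[𝓝 z] f) : jm f' =ᶠ[𝓝 z] jm f :=
  h.eventually_nhds.mono fun _ e => jm_congr e
theorem jac_congr' {f f' : V → V} {z : V} (h : f' =ᶠ[𝓝 z] f) : jac f' =ᶠ[𝓝 z] jac f :=
  h.eventually_nhds.mono fun _ e => jac_congr e
theorem Pm.ca_congr (c : Pm) {f f' : V → V} {z : V} (h : f' =ᶠ[𝓝 z] f) : c.ca f' z = c.ca f z := by
  rw [Pm.ca, Pm.ca, jm_congr h, jac_congr h]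
theorem Pm.gam_congr (c : Pm) {f f' : V → V} {z : V} (h : f' =ᶠ[𝓝 z] f) :
    c.gam f' z = c.gam f z := by rw [Pm.gam, Pm.gam, c.ca_congr h]
theorem Pm.gam_congr' (c : Pm) {f f' : V → V} {z : V} (h : f' =ᶠ[𝓝 z] f) :
    c.gam f' =ᶠ[𝓝 z] c.gam f := h.eventually_nhds.mono fun _ e => c.gam_congr e
theorem Pm.pd_gam_congr (c : Pm) {f f' : V → V} {z : V} (h : f' =ᶠ[𝓝 z] f) (a b i : Fin 3) :
    pd i (fun w => c.gam f' w a b) z = pd i (fun w => c.gam f w a b) z :=
  pd_congr ((c.gam_congr' h).mono fun _ e => congrFun (congrFun e a) b) i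
theorem Pm.DI.congr {c : Pm} {f f' : V → V} {z : V} {d : ℝ} (H : c.DI f z d) (h : f' =ᶠ[𝓝 z] f) :
    c.DI f' z d := fun a b i => by rw [c.pd_gam_congr h]; exact H a b i
theorem Pm.gam_symm (c : Pm) (f : V → V) (z : V) : (c.gam f z)ᵀ = c.gam f z := by
  rw [Pm.gam, transpose_mul, transpose_transpose]

theorem FRel.congr_ev {c : Pm} {f f' f'' : V → V} {z' z : V} {P : FP} (H : FRel c f f' z' z P)
    (h : f'' =ᶠ[𝓝 z] f') : FRel c f f'' z' z P := by
  have e : Th f f'' z' z = Th f f' z' z := by rw [Th, Th, jm_congr h]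
  refine ⟨h.eq_of_nhds.trans H.mt, H.dl, H.dv, ?_, ?_, ?_, fun d hd hD a b i => ?_⟩
  · rw [c.gam_congr h]; exact H.dg
  · rw [e]; exact H.th
  · rw [e]; exact H.t3
  · rw [e, c.pd_gam_congr h]; exact H.df d hd hD a b i

theorem bm_nonneg {g h k : ℝ} (h1 : 0 ≤ g) (h2 : 0 ≤ h) (h3 : 0 ≤ k) (a b : Fin 3) :
    0 ≤ bm g h k a b := by fin_cases a <;> fin_cases b <;> simpa [bm]

theorem FRel.refl_ev {c : Pm} {f f' : V → V} {z : V} {P : FP} (hh : ∀ i, 0 ≤ c.hs i)
    (h : f' =ᶠ[𝓝 z] f) (hj : jac f z ≠ 0) (hP : (⟨0, 0, 0, 0, 0, 0, 0, 0⟩ : FP).Le P) :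
    FRel c f f' z z P := by
  refine FRel.congr_ev ?_ h
  obtain ⟨p1, p2, p3, p4, p5, p6, p7, p8⟩ := hP
  simp only at p1 p2 p3 p4 p5 p6 p7 p8
  have e : Th f f z z = 1 := nonsing_inv_mul _ (Ne.isUnit hj)
  refine ⟨rfl, fun i _ => ?_, ?_, fun a b => ?_, fun a b _ => ?_, ?_, fun d hd _ a b i => ?_⟩
  · simpa using mul_nonneg p1 (hh i)
  · simpa using (mul_nonneg p2 (hh 2) : 0 ≤ P.dv * c.y)
  · simpa using bm_nonneg p3 p4 p5 a b
  · simpa [e] using mul_nonneg p6 (hh a)
  · simpa [e] using p7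
  · have := mul_nonneg (mul_nonneg (add_nonneg zero_le_one hd) p8) (Xj_nonneg c.N a b)
    simpa [e, one_apply] using this

/-! ## the weak bounds -/

theorem smul_bm (t g h k : ℝ) : t • bm g h k = bm (t * g) (t * h) (t * k) := by
  ext a b; fin_cases a <;> fin_cases b <;> simp [bm]

theorem Pm.GW.mono {c : Pm} {f : V → V} {z : V} {t t' : ℝ} (H : c.GW f z t) (h : Gd c)
    (ht : t ≤ t') : c.GW f z t' := fun a b => (H a b).trans (mul_le_mul_of_nonneg_right ht
      (bm_nonneg h.J4N_pos.le h.big.hc_pos.le (by norm_num) a b))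

theorem Pm.GB.gw {c : Pm} {f : V → V} {z : V} {t : ℝ} (H : c.GB f z t) (ht : 0 ≤ t) :
    c.GW f z t := fun a b => (H a b).trans (mul_le_mul_of_nonneg_left
      (bm_mono (min_le_right _ _) le_rfl le_rfl a b) ht)

theorem Pm.GW.congr {c : Pm} {f f' : V → V} {z : V} {t : ℝ} (H : c.GW f z t) (h : f' =ᶠ[𝓝 z] f) :
    c.GW f' z t := by unfold Pm.GW; rw [c.gam_congr h]; exact H

theorem Pm.GW.step {c : Pm} {f f' : V → V} {z' z : V} {t s : ℝ} {P : FP} (H : c.GW f z' t)
    (R : FRel c f f' z' z P) (h1 : P.eg ≤ s * (c.J ^ 4 / c.N)) (h2 : P.eh ≤ s * hc c.N)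
    (h3 : P.ek ≤ s * (1 / 10)) : c.GW f' z (t + s) := fun a b => by
  have e : (c.gam f' z - c.gref) a b = (c.gam f z' - c.gref) a b + (c.gam f' z - c.gam f z') a b := by
    simp
  have h4 := (R.dg a b).trans (bm_mono h1 h2 h3 a b)
  rw [← smul_bm] at h4
  rw [e, add_smul]
  exact (abs_add_le _ _).trans (add_le_add (H a b) h4)

theorem Gd.J4N_le {c : Pm} (h : Gd c) : c.J ^ 4 / c.N ≤ 1 / 1000 ∧ hc c.N ≤ 1 / 1000 := by
  have h1 := h.big.hc_le
  have h2 : (1 : ℝ) ≤ pJ c.N := by linarith [h.big.J_ge, h.big.L_ge]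
  have h3 : 1 / pJ c.N ≤ 1 := (div_le_one (by linarith)).2 h2
  refine ⟨le_of_log h.J4N_pos (by norm_num) ?_, by linarith⟩
  rw [h.log_J4N, one_div, Real.log_inv]
  linarith [h.big.J_ge, h.big.L_ge, (logc_bd (C := 1000) (by norm_num)).2]

theorem Pm.GW.eb {c : Pm} {f : V → V} {z : V} {t : ℝ} (H : c.GW f z t) (h : Gd c)
    (ht : t ≤ 10) : EB (c.gam f z) (cm 2) := fun a b => by
  have h1 := H a b
  have h2 : |c.gref a b| ≤ 1 := by
    fin_cases a <;> fin_cases b <;> simp [Pm.gref, dg3, abs_of_pos h.η_pos, h.η_le_one]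
  have h3 : bm (c.J ^ 4 / c.N) (hc c.N) (1 / 10) a b ≤ 1 / 10 := by
    have := h.J4N_le
    fin_cases a <;> fin_cases b <;> simp [bm] <;> linarith
  have h4 : t * bm (c.J ^ 4 / c.N) (hc c.N) (1 / 10) a b ≤ 10 * (1 / 10) :=
    mul_le_mul ht h3 (bm_nonneg h.J4N_pos.le h.big.hc_pos.le (by norm_num) a b) (by norm_num)
  have h5 := abs_sub_abs_le_abs_sub (c.gam f z a b) (c.gref a b)
  change |c.gam f z a b - c.gref a b| ≤ t * _ at h1
  change _ ≤ (2 : ℝ)
  linarith

theorem Pm.GW.eb10 {c : Pm} {f : V → V} {z : V} {t : ℝ} (H : c.GW f z t) (h : Gd c)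
    (ht : t ≤ 10) : EB (c.gam f z) (cm 10) := fun a b =>
  (H.eb h ht a b).trans (by change (2 : ℝ) ≤ 10; norm_num)

theorem Pm.MW.mono {c : Pm} {e t e' t' : ℝ} {M : V → ℝ} {U U' : Set V} (H : c.MW e t M U) (h : Gd c)
    (he : e ≤ e') (ht : t ≤ t') (hU : U' ⊆ U) : c.MW e' t' M U' :=
  ⟨fun z hz => (H.1 z (hU hz)).trans he,
    (H.2.1.monoU hU).monoB (mul_le_mul_of_nonneg_right ht h.q_pos.le),
    (H.2.2.monoU hU).monoB (mul_le_mul_of_nonneg_right ht (h.big.np_pos _).le)⟩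

theorem Pm.MB.mw {c : Pm} {e t : ℝ} {M : V → ℝ} {U : Set V} (H : c.MB e t M U) (h : Gd c)
    (ht : 0 ≤ t) : c.MW e t M U :=
  ⟨H.1, H.2.1, H.2.2.monoB (mul_le_mul_of_nonneg_left (h.big.np_le (by norm_num)) ht)⟩

/-- adding a small smooth function to a density -/
theorem Pm.MW.add {c : Pm} {e t s : ℝ} {M m : V → ℝ} {U : Set V} (H : c.MW e t M U) (h : Gd c)
    (hM : Sm M) (hm : Sm m) (Hm : CB 2 c.hs U m s) (hs : s ≤ np c.N (-245 / 1000)) :
    c.MW (e + s) (t + 1) (fun z => M z + m z) U := by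
  have hh := fun i => (h.hs_pos i).le
  have h1 : np c.N (-245 / 1000) ≤ c.q := ((h.big.np_le (by norm_num)).trans_eq (np_zero _)).trans
    (le_trans (by norm_num) h.big.q_ge)
  refine ⟨fun z hz => ?_, (H.2.1.add hh hM hm Hm).monoB (by linarith),
    (H.2.2.add hh hM hm Hm.toCL).monoB (by linarith)⟩
  have := abs_add_le (M z - 1) (m z)
  rw [sub_add_eq_add_sub] at this
  linarith [H.1 z hz, Hm.val hz]

theorem CBl.univ_of {P : List (Fin 3) → Prop} {h : V} {U K : Set V} {g : V → ℝ} {B : ℝ}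
    (H : CBl P h U g B) (hK : IsClosed K) (hU : K ⊆ U) (hg : ∀ x, x ∉ K → g x = 0) (hB : 0 ≤ B) :
    CBl P h univ g B := CBl.extend (H.monoU fun _ hx => hU hx.2) hK hg hB

/-! ## maps that are the identity off a set -/

theorem mem_of_off {S : V → V} {K : Set V} (hb : Function.Injective S)
    (h : ∀ z, z ∉ K → S z = z) (z : V) : S z ∈ K ↔ z ∈ K := by
  refine ⟨fun h1 => by_contra fun h2 => h2 (h z h2 ▸ h1), fun h1 => by_contra fun h2 => ?_⟩
  exact h2 ((hb (h _ h2)).symm ▸ h1)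

theorem ev_id_off {S : V → V} {K : Set V} (hK : IsClosed K) (h : ∀ z, z ∉ K → S z = z) {z : V}
    (hz : z ∉ K) : S =ᶠ[𝓝 z] id := (hK.isOpen_compl.eventually_mem hz).mono fun w hw => h w hw

theorem comp_ev_id {f S : V → V} {z : V} (h : S =ᶠ[𝓝 z] id) : f ∘ S =ᶠ[𝓝 z] f :=
  h.mono fun _ hw => congrArg f hw

theorem SB'.comp {S T : V → V} (h : SB' S) (h' : SB' T) : SB' (S ∘ T) :=
  ⟨ContDiff.comp h.1 h'.1, h.2.comp h'.2⟩
theorem SB'.id : SB' id := ⟨contDiff_id, Function.bijective_id⟩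

theorem glu : GluStmt := by
  intro K S p hK hL hu hS
  have ev : ∀ z, ∀ᶠ w in 𝓝 z, ∀ g, w ∈ K g → z ∈ K g := fun z => by
    filter_upwards [hL.iInter_compl_mem_nhds hK z] with w hw g hg
    by_contra h
    exact mem_iInter₂.1 hw g h hg
  let T : V → V := fun z => if h : ∃ g, p g ∧ z ∈ K g then S h.choose z else z
  have t1 : ∀ g, p g → ∀ z ∈ K g, T z = S g z := fun g hg z hz => by
    have h : ∃ g, p g ∧ z ∈ K g := ⟨g, hg, hz⟩
    simp only [T, dif_pos h]
    rw [hu _ _ z h.choose_spec.1 hg h.choose_spec.2 hz]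
  have t2 : ∀ z, (∀ g, p g → z ∉ K g) → T z = z := fun z hz =>
    dif_neg fun ⟨g, h1, h2⟩ => hz g h1 h2
  have a1 : ∀ g, p g → ∀ z ∈ K g, T =ᶠ[𝓝 z] S g := fun g hg z hz => by
    filter_upwards [ev z] with w hw
    by_cases h : w ∈ K g
    · exact t1 g hg w h
    · rw [(hS g hg).2 w h]
      exact t2 w fun g' h1 h2 => h (hu g' g z h1 hg (hw g' h2) hz ▸ h2)
  have a2 : ∀ z, (∀ g, p g → z ∉ K g) → T =ᶠ[𝓝 z] id := fun z hz =>
    (ev z).mono fun w hw => t2 w fun g h1 h2 => hz g h1 (hw g h2)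
  have m : ∀ g, p g → ∀ z ∈ K g, T z ∈ K g := fun g hg z hz => by
    rw [t1 g hg z hz]; exact (mem_of_off (hS g hg).1.2.1 (hS g hg).2 z).2 hz
  have cs : ∀ z, (∃ g, p g ∧ z ∈ K g) ∨ ∀ g, p g → z ∉ K g := fun z => by
    by_cases h : ∃ g, p g ∧ z ∈ K g
    exacts [.inl h, .inr fun g h1 h2 => h ⟨g, h1, h2⟩]
  refine ⟨T, ⟨contDiff_iff_contDiffAt.2 fun z => ?_, fun z w e => ?_, fun w => ?_⟩,
    fun g hg z hz => ⟨a1 g hg z hz, m g hg z hz⟩, a2⟩
  · rcases cs z with ⟨g, hg, hz⟩ | h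
    exacts [(hS g hg).1.1.contDiffAt.congr_of_eventuallyEq (a1 g hg z hz),
      contDiffAt_id.congr_of_eventuallyEq (a2 z h)]
  · rcases cs z with ⟨g, hg, hz⟩ | h <;> rcases cs w with ⟨g', hg', hw⟩ | h'
    · obtain rfl := hu g g' _ hg hg' (m g hg z hz) (e ▸ m g' hg' w hw)
      exact (hS g hg).1.2.1 (by rw [← t1 g hg z hz, e, t1 g hg w hw])
    · exact absurd (by have := m g hg z hz; rwa [e, t2 w h'] at this) (h' g hg)
    · exact absurd (by have := m g' hg' w hw; rwa [← e, t2 z h] at this) (h g' hg')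
    · rwa [t2 z h, t2 w h'] at e
  · rcases cs w with ⟨g, hg, hw⟩ | h
    · obtain ⟨z, rfl⟩ := (hS g hg).1.2.2 w
      exact ⟨z, t1 g hg z ((mem_of_off (hS g hg).1.2.1 (hS g hg).2 z).1 hw)⟩
    · exact ⟨w, t2 w h⟩

theorem cell_locFin (h : V) {r : ℝ} (hr : r < 1) : LocallyFinite fun g => Glue.cell h g r :=
  fun x => ⟨_, Glue.ev_off h hr x, (Glue.nb8 h x).finite_toSet.subset fun g ⟨_, h1, h2⟩ => h2 g h1⟩

/-! ## slides -/

theorem sm_slide {σ : V → ℝ} (hσ : Sm σ) (e : V) : Sm fun w : V => w + σ w • e :=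
  contDiff_id.add (ContDiff.smul hσ contDiff_const)

theorem jm_slide {σ : V → ℝ} (hσ : Sm σ) (i : Fin 3) (z : V) (a b : Fin 3) :
    jm (fun w : V => w + σ w • (Pi.single i 1 : V)) z a b =
      (1 : Mx) a b + if a = i then pd b σ z else 0 := by
  rw [jm_id_add ((hσ.dif z).smul_const _), jm_smul_const, Matrix.add_apply, vecMulVec_apply,
    Pi.single_apply]
  split_ifs <;> simp

/-- size of the shift -/
theorem slide_abs {M : V → ℝ} {e z : V} {s a : ℝ} (hM : Continuous M) (hp : ∀ z, 0 < M z)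
    (hs : ∫ t in (0 : ℝ)..s, M (z + t • e) = a) (h : ∀ t, |t| ≤ 2 * |a| → 1 / 2 ≤ M (z + t • e)) :
    |s| ≤ 2 * |a| := by
  have mo : ∀ {x y}, Sl.G M e z x ≤ Sl.G M e z y ↔ x ≤ y := (Sl.G_mono hM hp e z).le_iff_le
  have a0 := abs_nonneg a
  have ci := (Sl.cont_line hM e z).intervalIntegrable (μ := volume)
  have h1 : |a| ≤ Sl.G M e z (2 * |a|) := by
    have := intervalIntegral.integral_mono_on (by linarith : (0 : ℝ) ≤ 2 * |a|)
      (intervalIntegrable_const (c := (1 / 2 : ℝ)) (μ := volume)) (ci _ _)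
      fun t ht => h t (by rw [abs_of_nonneg ht.1]; exact ht.2)
    simp only [intervalIntegral.integral_const, smul_eq_mul] at this
    exact le_trans (by linarith) this
  have h2 : Sl.G M e z (-(2 * |a|)) ≤ -|a| := by
    have := intervalIntegral.integral_mono_on (by linarith : -(2 * |a|) ≤ 0)
      (intervalIntegrable_const (c := (1 / 2 : ℝ)) (μ := volume)) (ci _ _)
      fun t ht => h t (by rw [abs_of_nonpos ht.2]; linarith [ht.1])
    simp only [intervalIntegral.integral_const, smul_eq_mul] at this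
    rw [Sl.G, intervalIntegral.integral_symm]
    linarith
  have h3 : Sl.G M e z s = a := hs
  exact abs_le.2 ⟨mo.1 (by linarith [neg_abs_le a]), mo.1 (by linarith [le_abs_self a])⟩

/-- a line integral up to the shift -/
theorem line_abs {g : V → ℝ} {e z : V} {s B : ℝ} (h : ∀ t, |t| ≤ |s| → |g (z + t • e)| ≤ B) :
    |∫ t in (0 : ℝ)..s, g (z + t • e)| ≤ B * |s| := by
  have := intervalIntegral.norm_integral_le_of_norm_le_const (a := 0) (b := s) (C := B)
    (f := fun t => g (z + t • e)) fun t ht => h t (by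
      rcases le_total 0 s with h0 | h0
      · rw [uIoc_of_le h0] at ht; rw [abs_of_nonneg h0, abs_of_pos ht.1]; exact ht.2
      · rw [uIoc_of_ge h0] at ht; rw [abs_of_nonpos h0, abs_of_nonpos ht.2]; linarith [ht.1])
  simpa using this

theorem sm_line_up {g σ : V → ℝ} (hg : Sm g) (hσ : Sm σ) (e : V) :
    Sm fun z => ∫ t in (0 : ℝ)..σ z, g (z + t • e) :=
  sm_integral_ends (F := fun t z => g (z + t • e))
    (hg.comp (contDiff_snd.add (contDiff_fst.smul contDiff_const))) contDiff_const hσ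

/-- derivative of a line integral up to the shift -/
theorem slide_d2 {g σ : V → ℝ} (hg : Sm g) (hσ : Sm σ) (e z : V) (k : Fin 3) :
    pd k (fun w => ∫ t in (0 : ℝ)..σ w, g (w + t • e)) z =
      (∫ t in (0 : ℝ)..σ z, pd k g (z + t • e)) + g (z + σ z • e) * pd k σ z := by
  have h3 : ∀ r : ℝ, pd k (fun x => g (x + r • e)) z = pd k g (z + r • e) := fun r =>
    congrFun (pds_comp_add g _ [k]) z
  simpa only [h3] using ((JC.line hg e).upper 0 (hσ.dif z)).2 k

/-- the support condition of `slide` -/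
theorem slide_far {O : Mx} (hO : Orth O) {D r : ℝ} {a : V → ℝ} (h : ∀ z, z ∉ RX O D r → a z = 0)
    (i : Fin 3) (z : V) : ∃ ρ : ℝ, ∀ t, ρ ≤ |t| → a (z + t • (Pi.single i 1 : V)) = 0 := by
  refine ⟨2 * (r * D) + |z i| + 1, fun t ht => h _ fun hz => ?_⟩
  have h1 := (Prof.abs_le_norm _ i).trans (Prof.RX_norm hO hz)
  simp only [Pi.add_apply, Pi.smul_apply, Pi.single_eq_same, smul_eq_mul, mul_one] at h1
  have := abs_sub_abs_le_abs_sub t (-z i)
  rw [abs_neg, sub_neg_eq_add, add_comm] at this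
  linarith

/-- short moves stay in the next region -/
theorem Gd.RX_move {c : Pm} (h : Gd c) {O : Mx} (hO : Orth O) {r : ℝ} {z w : V}
    (hz : z ∈ RX O c.D r) (hw : ‖w - z‖ ≤ (c.N : ℝ) ^ 3 * c.lam) : w ∈ RX O c.D (r + 1 / 1000) := by
  refine Prof.RX_add hO hz ?_
  have h1 : (2000 : ℝ) ≤ c.N := by linarith [h.big.N_ge, h.big.J_ge, h.big.L_ge]
  have h2 : (c.N : ℝ) ^ 3 * c.lam ≤ (c.N : ℝ) ^ 3 * c.lb :=
    mul_le_mul_of_nonneg_left h.lam_le_lb (by positivity)
  have h3 := mul_le_mul_of_nonneg_right h1 (mul_pos (pow_pos h.N_pos 3) h.lb_pos).le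
  have h4 : c.D = c.N * ((c.N : ℝ) ^ 3 * c.lb) := by rw [Pm.D]; ring
  linarith

theorem Gd.RX_line {c : Pm} (h : Gd c) {O : Mx} (hO : Orth O) {r t : ℝ} {z : V} (i : Fin 3)
    (hz : z ∈ RX O c.D r) (ht : |t| ≤ (c.N : ℝ) ^ 3 * c.lam) :
    z + t • (Pi.single i 1 : V) ∈ RX O c.D (r + 1 / 1000) :=
  h.RX_move hO hz (by simpa [norm_smul, Pi.norm_single] using ht)

/-- natural coefficient of a vertical shear -/
theorem Gd.cc_hs {c : Pm} (h : Gd c) {j : Fin 3} (hj : j ≠ 2) :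
    c.cc j / (c.n12 * c.hs j) ≤ Real.exp 4 * c.J ^ 2 * np c.N (-3 / 2) / c.lam := by
  have := h.J_pos; have := h.lam_pos; have := h.n12_pos; have := h.big.np_pos (-3 / 2)
  have := h.cc_pos j; have := h.hs_pos j
  have h1 : Real.log (c.cc j) - Real.log (c.hs j) ≤ -Real.log c.s1 - Real.log c.lam := by
    have h2 := Real.log_le_log h.s1_pos h.s1_le
    fin_cases j
    · have := h.log_c1; have := h.log_l1; have := h.log_ro_bd.1; have := h.log_η_le
      change Real.log c.c1 - Real.log c.l1 ≤ _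
      linarith
    · have := h.log_c2
      change Real.log c.c2 - Real.log c.lam ≤ _
      linarith
    · exact absurd rfl hj
  refine le_of_log (by positivity) (by positivity) ?_
  rw [Real.log_div (by positivity) (by positivity), Real.log_div (by positivity) (by positivity),
    Real.log_mul (by positivity) (by positivity), Real.log_mul (by positivity) (by positivity),
    Real.log_mul (by positivity) (by positivity), Real.log_exp, Real.log_pow, h.log_J, h.big.log_np]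
  have := h.log_s1_ge; have := h.log_n12_bd.1; have := h.big.L_ge
  push_cast
  linarith

end
end Pool.Agent.MP_20bec2_an.T3

end MrgPart1

-- marker of a merged file
example : 731051 + 621968 = 731051 + 621968 := rfl

end MrgPart0

-- ======== part 1: formerly Pool.Agent.MP_20bec2_an.T3.Ls
section MrgPart1

/-! Row LS: the straight lateral slide. -/

set_option autoImplicit false
open MeasureTheory Set Filter Matrix Topology

namespace Pool.Agent.MP_20bec2_an.T3
noncomputable section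
open Classical

namespace Ls

/-! ## derivatives of the shift -/

/-- the data of a slide at one point -/
structure An (h : V) (i : Fin 3) (M b σ : V → ℝ) (z : V) (U : Set V) (β A Q ε R : ℝ) : Prop where
  hh : ∀ j, 0 < h j
  hi : i ≠ 2
  sM : Sm M
  sb : Sm b
  sσ : Sm σ
  hd : ∀ w j, M (w + σ w • (Pi.single i 1 : V)) * pd j σ w = pd j b w -
    ∫ t in (0 : ℝ)..σ w, pd j M (w + t • (Pi.single i 1 : V))
  hU : ∀ t, |t| ≤ |σ z| → z + t • (Pi.single i 1 : V) ∈ U
  hs : |σ z| ≤ A * (β * h i)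
  m0 : ∀ w ∈ U, |M w - 1| ≤ 1 / 100
  m1 : CB 2 h U M Q
  m2 : CL 2 h U M ε
  b1 : CV 2 h univ b (β * h i)
  β0 : 0 ≤ β
  β1 : β ≤ 1 / 1000
  n1 : A * ε ≤ 1
  n2 : R * ε ≤ 1
  n3 : 1 + A * Q ≤ 99 / 100 * R
  n4 : 10 ≤ Q
  n5 : 3 ≤ R

/-- lateral or vertical value -/
def lv (a b : ℝ) (j : Fin 3) : ℝ := if j = 2 then b else a

def pf (i : Fin 3) (M b σ : V → ℝ) (j : Fin 3) (w : V) : ℝ :=
  if j = 2 then pd 2 σ w * (M w + pd i b w)⁻¹ else pd j σ w
def sf (i : Fin 3) (σ : V → ℝ) (w : V) : ℝ := (1 + pd i σ w)⁻¹ - 1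
/-- sizes of the row `i` and of the corner -/
def TB (h : V) (i : Fin 3) (R : ℝ) (p : V) (s x : ℝ) : Prop :=
  (∀ j, j ≠ 2 → h j * |p j| ≤ 3 * x * h i) ∧ h 2 * |p 2| ≤ 2 * R * x * h i ∧ |s| ≤ 4 * x

lemma inv_pd {g : V → ℝ} {z : V} (hg : Sm g) (h : |g z - 1| ≤ 1 / 50) :
    |(g z)⁻¹| ≤ 11 / 10 ∧ DifferentiableAt ℝ (fun w => (g w)⁻¹) z ∧
      ∀ k, |pd k (fun w => (g w)⁻¹) z| ≤ 121 / 100 * |pd k g z| := by
  have h1 := (abs_le.1 h).1
  have h0 : 0 < g z := by linarith
  have h2 : |(g z)⁻¹| ≤ 11 / 10 := by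
    rw [abs_of_pos (inv_pos.2 h0), inv_le_comm₀ h0 (by norm_num)]
    norm_num; linarith
  refine ⟨h2, (hg.dif z).fun_inv h0.ne', fun k => ?_⟩
  rw [pd_comp_at (φ := fun t => t⁻¹) (differentiableAt_inv h0.ne') (hg.dif z), deriv_inv,
    ← inv_pow, sq, neg_mul, abs_neg]
  exact (Ftr.abs_mul_le (Ftr.abs_mul_le h2 h2) le_rfl).trans_eq (by norm_num)

namespace An
variable {h : V} {i : Fin 3} {M b σ : V → ℝ} {z : V} {U : Set V} {β A Q ε R : ℝ}
  (H : An h i M b σ z U β A Q ε R)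
include H

lemma x0 : 0 ≤ β * h i := mul_nonneg H.β0 (H.hh i).le
lemma Sz : z + σ z • (Pi.single i 1 : V) ∈ U := H.hU _ le_rfl
lemma ε0 : 0 ≤ ε := (hpa_nonneg (fun j => (H.hh j).le) _ _ _).trans
  (H.m2 [i] ⟨by simp, i, by simp, H.hi⟩ _ H.Sz)
lemma mb {l : List (Fin 3)} {j : Fin 3} (hl : l.length ≤ 2) (hj : j ∈ l) {w : V} (hw : w ∈ U) :
    hp h l * |pds l M w| ≤ lv ε Q j := by
  unfold lv
  split_ifs with e
  exacts [H.m1 l hl w hw, H.m2 l ⟨hl, j, hj, e⟩ w hw]
lemma num (j : Fin 3) : 1 + A * lv ε Q j ≤ 99 / 100 * lv 3 R j ∧ lv ε Q j * R ≤ Q * lv 3 R j ∧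
    3 ≤ lv 3 R j ∧ lv 3 R j ≤ R ∧ 0 ≤ lv ε Q j := by
  have := H.n1; have := H.n2; have := H.n3; have := H.n4; have := H.n5; have := H.ε0
  unfold lv
  split_ifs <;> refine ⟨?_, ?_, ?_, ?_, ?_⟩ <;> linarith

lemma int {g : V → ℝ} {a m : ℝ} (ha : 0 < a) (hm : 0 ≤ m) (hg : ∀ w ∈ U, a * |g w| ≤ m) :
    a * |∫ t in (0 : ℝ)..σ z, g (z + t • (Pi.single i 1 : V))| ≤ A * m * (β * h i) := by
  have h1 := line_abs (g := g) (B := m / a) fun t ht => (le_div_iff₀' ha).2 (hg _ (H.hU t ht))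
  have h2 := mul_le_mul_of_nonneg_left h1 ha.le
  rw [← mul_assoc, mul_div_cancel₀ _ ha.ne'] at h2
  linarith [mul_le_mul_of_nonneg_left H.hs hm]

lemma div {a s t : ℝ} (ha : 0 < a) (e : a * |M (z + σ z • (Pi.single i 1 : V)) * s| ≤ 99 / 100 * t) :
    a * |s| ≤ t := by
  have h1 := (abs_le.1 (H.m0 _ H.Sz)).1
  rw [abs_mul, abs_of_pos (by linarith : 0 < M _)] at e
  nlinarith [mul_nonneg ha.le (abs_nonneg s)]

lemma d1 (j : Fin 3) : h j * |pd j σ z| ≤ lv 3 R j * (β * h i) := by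
  refine H.div (H.hh j) ?_
  have h1 := H.int (g := pd j M) (H.hh j) (H.num j).2.2.2.2 fun w hw => by
    simpa using H.mb (l := [j]) (j := j) (by simp) (by simp) hw
  have h2 := H.b1.pd_le (by norm_num) j (mem_univ z)
  have h3 := mul_le_mul_of_nonneg_left (abs_sub (pd j b z)
    (∫ t in (0 : ℝ)..σ z, pd j M (z + t • (Pi.single i 1 : V)))) (H.hh j).le
  rw [H.hd]
  linarith [mul_le_mul_of_nonneg_right (H.num j).1 H.x0]

lemma d1' (j : Fin 3) : h j * |pd j σ z| ≤ R * (β * h i) :=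
  (H.d1 j).trans (mul_le_mul_of_nonneg_right (H.num j).2.2.2.1 H.x0)

lemma di : |pd i σ z| ≤ 3 * β := by
  have := H.d1 i
  rw [lv, if_neg H.hi] at this
  exact le_of_mul_le_mul_left (by linarith) (H.hh i)

lemma dM (k : Fin 3) :
    h k * |pd k (fun w => M (w + σ w • (Pi.single i 1 : V))) z| ≤ Q + 1 := by
  have e : pd k (fun w => M (w + σ w • (Pi.single i 1 : V))) z =
      pd k M (z + σ z • (Pi.single i 1 : V)) +
        pd i M (z + σ z • (Pi.single i 1 : V)) * pd k σ z := by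
    rw [pd_comp (H.sM.dif _) ((sm_slide H.sσ _).dif z)]
    simp only [jm_slide H.sσ]
    simp [mul_add, Finset.sum_add_distrib, one_apply]
  have h1 := H.m1.pd_le (by norm_num) k H.Sz
  have h2 : h i * |pd i M (z + σ z • (Pi.single i 1 : V))| ≤ ε := by
    simpa [lv, H.hi] using H.mb (l := [i]) (j := i) (by simp) (by simp) H.Sz
  have h3 := mul_le_mul_of_nonneg_left (H.d1' k)
    (abs_nonneg (pd i M (z + σ z • (Pi.single i 1 : V))))
  have h4 := mul_le_mul_of_nonneg_left h2 (mul_nonneg (by linarith [H.n5] : 0 ≤ R) H.β0)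
  have h5 := mul_le_mul_of_nonneg_left H.n2 H.β0
  have h6 := mul_le_mul_of_nonneg_left (abs_add_le (pd k M (z + σ z • (Pi.single i 1 : V)))
    (pd i M (z + σ z • (Pi.single i 1 : V)) * pd k σ z)) (H.hh k).le
  rw [abs_mul] at h6
  rw [e]
  linarith [H.β1]

lemma d2 (k j : Fin 3) : h k * h j * |pd k (pd j σ) z| ≤ 3 * Q * lv 3 R j * (β * h i) := by
  have hk := H.hh k
  have hj := H.hh j
  have sS : Sm fun w => M (w + σ w • (Pi.single i 1 : V)) := H.sM.comp (sm_slide H.sσ _)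
  have e := congrArg (fun g => pd k g z) (funext fun w => H.hd w j)
  simp only [pd_mul_at (sS.dif z) ((H.sσ.pd j).dif z), pd_sub_at ((H.sb.pd j).dif z)
    ((sm_line_up (H.sM.pd j) H.sσ _).dif z), slide_d2 (H.sM.pd j) H.sσ] at e
  obtain ⟨n1, n2, n3, -, n5⟩ := H.num j
  have h1 := H.int (g := pd k (pd j M)) (mul_pos hk hj) n5 fun w hw => by
    simpa using H.mb (l := [k, j]) (j := j) (by simp) (by simp) hw
  have h2 : h k * h j * |pd k (pd j b) z| ≤ β * h i := by
    simpa using H.b1 [k, j] (by simp) z trivial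
  have h3 : h j * |pd j M (z + σ z • (Pi.single i 1 : V))| ≤ lv ε Q j := by
    simpa using H.mb (l := [j]) (j := j) (by simp) (by simp) H.Sz
  have h4 := mul_le_mul h3 (H.d1' k) (by positivity) n5
  have h5 := mul_le_mul (H.dM k) (H.d1 j) (by positivity) (by linarith [H.n4])
  refine H.div (mul_pos hk hj) ?_
  rw [eq_sub_of_add_eq' e]
  have h6 := mul_le_mul_of_nonneg_left (((abs_sub _ _).trans (add_le_add_left ((abs_sub _ _).trans
    (add_le_add_right (abs_add_le _ _) _)) _)) : |pd k (pd j b) z -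
      ((∫ t in (0 : ℝ)..σ z, pd k (pd j M) (z + t • (Pi.single i 1 : V))) +
        pd j M (z + σ z • (Pi.single i 1 : V)) * pd k σ z) -
      pd k (fun w => M (w + σ w • (Pi.single i 1 : V))) z * pd j σ z| ≤ _) (mul_pos hk hj).le
  rw [abs_mul, abs_mul] at h6
  have h7 := mul_le_mul_of_nonneg_right n1 H.x0
  have h8 := mul_le_mul_of_nonneg_right n2 H.x0
  have h9 := mul_le_mul_of_nonneg_right H.n4 (mul_nonneg (by linarith : 0 ≤ lv 3 R j) H.x0)
  have h10 := mul_nonneg (by linarith : 0 ≤ lv 3 R j) H.x0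
  linarith

lemma zU : z ∈ U := by simpa using H.hU 0 (by simp)

lemma i1 : |M z + pd i b z - 1| ≤ 1 / 50 := by
  have h1 := abs_le.1 (H.m0 z H.zU)
  have h2 : |pd i b z| ≤ β := le_of_mul_le_mul_left
    ((H.b1.pd_le (by norm_num) i (mem_univ z)).trans_eq (mul_comm _ _)) (H.hh i)
  rw [abs_le] at h2 ⊢
  constructor <;> linarith [H.β1]

lemma i2 : |1 + pd i σ z - 1| ≤ 1 / 50 := by
  rw [add_sub_cancel_left]; linarith [H.di, H.β1]

lemma tb0 : TB h i R (fun j => pf i M b σ j z) (sf i σ z) β := by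
  refine ⟨fun j hj => ?_, ?_, ?_⟩
  · simpa [pf, lv, hj, mul_assoc] using H.d1 j
  · have h1 := mul_le_mul (H.d1' 2) (inv_pd (H.sM.add (H.sb.pd i)) H.i1).1 (abs_nonneg _)
      (mul_nonneg (by linarith [H.n5]) H.x0)
    simp only [pf, if_pos, abs_mul]
    linarith [mul_nonneg (by linarith [H.n5] : 0 ≤ R) H.x0]
  · have h0 : 1 + pd i σ z ≠ 0 := by linarith [(abs_le.1 H.i2).1] |> ne_of_gt
    have h1 := Ftr.abs_mul_le H.di (inv_pd ((sm_const 1).add (H.sσ.pd i)) H.i2).1
    rw [show sf i σ z = -(pd i σ z * (1 + pd i σ z)⁻¹) by rw [sf]; field_simp; ring, abs_neg]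
    linarith [H.β0]

lemma dif (j : Fin 3) : DifferentiableAt ℝ (pf i M b σ j) z ∧ DifferentiableAt ℝ (sf i σ) z := by
  refine ⟨?_, (inv_pd ((sm_const 1).add (H.sσ.pd i)) H.i2).2.1.sub_const 1⟩
  unfold pf
  split_ifs
  exacts [((H.sσ.pd 2).dif z).mul (inv_pd (H.sM.add (H.sb.pd i)) H.i1).2.1, (H.sσ.pd j).dif z]

lemma tb1 (k : Fin 3) : TB h i R (fun j => h k * pd k (pf i M b σ j) z) (h k * pd k (sf i σ) z)
    (3 * Q * β) := by
  have hk := H.hh k
  have q := H.n4
  refine ⟨fun j hj => ?_, ?_, ?_⟩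
  · have := H.d2 k j
    rw [lv, if_neg hj] at this
    dsimp only
    rw [show pf i M b σ j = pd j σ from funext fun _ => if_neg hj, abs_mul, abs_of_pos hk]
    linarith
  · obtain ⟨a1, a2, a3⟩ := inv_pd (H.sM.add (H.sb.pd i)) H.i1
    have h1 : h k * |pd k (pd i b) z| ≤ β := le_of_mul_le_mul_left (by
      have : h k * h i * |pd k (pd i b) z| ≤ β * h i := by
        simpa using H.b1 [k, i] (by simp) z trivial
      linarith) (H.hh i)
    have h2 := mul_le_mul_of_nonneg_left ((a3 k).trans (mul_le_mul_of_nonneg_left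
      ((pd_add_at (H.sM.dif z) ((H.sb.pd i).dif z) k ▸ abs_add_le _ _)) (by norm_num))) hk.le
    have h3 : h k * |pd k (fun w => (M w + pd i b w)⁻¹) z| ≤ 2 * Q := by
      linarith [H.m1.pd_le (by norm_num) k H.zU, H.β1]
    have r := mul_nonneg (by linarith [H.n5] : 0 ≤ R) H.x0
    have h4 := mul_le_mul (H.d1' 2) h3 (by positivity) r
    have h5 := H.d2 k 2
    rw [lv, if_pos rfl] at h5
    have h6 := mul_le_mul h5 a1 (abs_nonneg _) (by nlinarith)
    have h7 := mul_le_mul_of_nonneg_left (abs_add_le (pd k (pd 2 σ) z * (M z + pd i b z)⁻¹)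
      (pd 2 σ z * pd k (fun w => (M w + pd i b w)⁻¹) z)) (mul_pos hk (H.hh 2)).le
    rw [abs_mul, abs_mul] at h7
    dsimp only
    rw [show pf i M b σ 2 = fun w => pd 2 σ w * (M w + pd i b w)⁻¹ from funext fun _ => if_pos rfl,
      pd_mul_at ((H.sσ.pd 2).dif z) a2, abs_mul, abs_of_pos hk]
    linarith [mul_nonneg (by linarith : 0 ≤ Q) r]
  · obtain ⟨-, a2, a3⟩ := inv_pd ((sm_const 1).add (H.sσ.pd i)) H.i2
    have h1 := mul_le_mul_of_nonneg_left (a3 k) hk.le
    have h2 := H.d2 k i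
    rw [lv, if_neg H.hi] at h2
    have h3 : h k * |pd k (pd i σ) z| ≤ 9 * Q * β := le_of_mul_le_mul_left (by linarith) (H.hh i)
    rw [pd_add_at (differentiableAt_const _) ((H.sσ.pd i).dif z), pd_const, zero_add] at h1
    unfold sf
    rw [pd_sub_at a2 (differentiableAt_const _), pd_const, sub_zero, abs_mul, abs_of_pos hk]
    linarith [mul_nonneg (by linarith : 0 ≤ Q) H.β0]

end An

/-! ## tables -/

/-- row `i` and corner -/
def mk (c : Pm) (i : Fin 3) (p : V) (s : ℝ) : Mx := Matrix.of fun a b =>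
  if a = i then c.cc b / c.cc i * p b else if a = 2 ∧ b = 2 then s else 0

def rho (c : Pm) (i j : Fin 3) : ℝ := c.cc j * c.hs i / (c.cc i * c.hs j)

variable {c : Pm} {i : Fin 3}

lemma rho_bd (h : Gd c) (hi : i ≠ 2) :
    (∀ j, j ≠ 2 → rho c i j ≤ c.wL * (c.N / c.J ^ 6) ∧ c.dgn i * rho c i j ≤ c.wL) ∧
    2 * rho c i 2 ≤ np c.N (7 / 5) ∧ c.dgn i * (2 * rho c i 2) ≤ np c.N (2 / 5) * c.J ^ 3 := by
  have := h.c1_pos; have := h.c2_pos; have := h.l1_pos; have := h.lam_pos; have := h.η_pos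
  have := h.J_pos; have := h.N_pos; have := h.n12_pos; have := h.y_pos
  have := h.big.np_pos (7 / 5); have := h.big.np_pos (2 / 5)
  have w1 : 1 ≤ c.wL := le_max_left _ _
  have w2 : 1 ≤ c.N / c.J ^ 6 := le_of_log one_pos (by positivity) (by
    rw [Real.log_div (by positivity) (by positivity), Real.log_pow, h.log_J, h.big.log_N, Real.log_one]
    push_cast
    linarith [h.big.L_ge, h.big.J_ge])
  have w3 : c.wL ≤ c.wL * (c.N / c.J ^ 6) := le_mul_of_one_le_right (by linarith) w2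
  have e1 := h.log_c1; have e2 := h.log_c2; have e3 := h.log_l1; have e4 := h.log_ro
  have e5 := h.log_K; have e6 := h.log_n12; have e7 := h.log_y; have e8 := h.log_η_ge
  have e9 := h.log_e4; have e10 := h.log_m_le; have e11 := h.log_K_bd.1
  have e12 := h.log_n12_bd.2; have e13 := h.log_s2_le; have e14 := h.big.L_ge
  have e15 := h.big.J_ge; have e16 := log2_bd.2
  have r : ∀ j, rho c j j = 1 := fun j => div_self (mul_pos (h.cc_pos j) (h.hs_pos j)).ne'
  fin_cases i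
  · refine ⟨fun j hj => ?_, le_of_log ?_ (by positivity) ?_, le_of_log ?_ (by positivity) ?_⟩
    · fin_cases j
      · exact ⟨(r 0).trans_le (w1.trans w3), by
          simpa [r, Pm.dgn] using h.η_le_one.trans w1⟩
      · change c.c2 * c.l1 / (c.c1 * c.lam) ≤ _ ∧ c.η * (c.c2 * c.l1 / (c.c1 * c.lam)) ≤ _
        refine ⟨(le_of_log (by positivity) (by positivity) ?_).trans
          (le_mul_of_one_le_left (by positivity) w1),
          (le_of_log (by positivity) one_pos ?_).trans w1⟩ <;>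
        simp (disch := positivity) only [Real.log_div, Real.log_mul, Real.log_pow, Real.log_one,
          h.log_J, h.big.log_N]
        · rcases h.η_le_one.eq_or_lt with e | e
          · rw [e, Real.log_one] at e1
            push_cast
            linarith [e9.2.1]
          · push_cast
            linarith [e9.2.1, h.t_gt e, h.t_eq]
        · linarith [e9.1]
      · exact absurd rfl hj
    all_goals
      simp only [rho, Pm.cc, Pm.hs, Pm.dgn, Fin.zero_eta, cons_val_zero, cons_val]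
      first | positivity | skip
    all_goals
      simp (disch := positivity) only [Real.log_div, Real.log_mul, Real.log_pow, h.log_J,
        h.big.log_np]
      push_cast
      linarith [e9.1]
  · refine ⟨fun j hj => ?_, le_of_log ?_ (by positivity) ?_, le_of_log ?_ (by positivity) ?_⟩
    · have : rho c 1 j ≤ c.wL := by
        fin_cases j
        exacts [le_max_right _ _, (r 1).trans_le w1, absurd rfl hj]
      exact ⟨this.trans w3, by simpa [Pm.dgn] using this⟩
    all_goals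
      simp only [rho, Pm.cc, Pm.hs, Pm.dgn, Fin.mk_one, cons_val_one, cons_val_zero, cons_val,
        one_mul]
      first | positivity | skip
    all_goals
      simp (disch := positivity) only [Real.log_div, Real.log_mul, Real.log_pow, h.log_J,
        h.big.log_np]
      push_cast
      linarith
  · exact absurd rfl hi

lemma tab (h : Gd c) (hi : i ≠ 2) {p : V} {s x x1 : ℝ} (T : TB c.hs i (c.J ^ 21) p s x)
    (hx : x * c.wL ≤ x1) :
    EB (mk c i p s) (tb4 (3 * (c.N / c.J ^ 6) * x1) 0 (np c.N (7 / 5) * c.J ^ 21 * x1) (4 * x1)) ∧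
    (∀ a b, a ≠ 2 → b ≠ 2 → c.dgn a * |mk c i p s a b| ≤ 3 * x1) ∧
    ∀ a, a ≠ 2 → c.dgn a * |mk c i p s a 2| ≤ np c.N (2 / 5) * c.J ^ 3 * c.J ^ 21 * x1 := by
  obtain ⟨r1, r2, r3⟩ := rho_bd h hi
  have := h.J_pos; have := h.N_pos; have := h.big.np_pos (7 / 5); have := h.big.np_pos (2 / 5)
  have x0 : 0 ≤ x := by linarith [(abs_nonneg _).trans T.2.2]
  have x1' : x ≤ x1 := (le_mul_of_one_le_right x0 (le_max_left _ _)).trans hx
  have x2 : 0 ≤ x1 := x0.trans x1'
  have dg : 0 < c.dgn i := by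
    fin_cases i
    exacts [h.η_pos, one_pos, one_pos]
  have e : ∀ b y, c.hs b * |p b| ≤ y * c.hs i → |mk c i p s i b| ≤ rho c i b * y := fun b y hy => by
    have := h.cc_pos i; have := h.cc_pos b; have := h.hs_pos i; have := h.hs_pos b
    rw [mk, of_apply, if_pos rfl, abs_mul, abs_of_pos (by positivity : 0 < c.cc b / c.cc i)]
    refine (mul_le_mul_of_nonneg_left ((le_div_iff₀' (h.hs_pos b)).2 hy)
      (by positivity)).trans_eq ?_
    rw [rho]; field_simp
  have z : ∀ a b, a ≠ i → ¬ (a = 2 ∧ b = 2) → mk c i p s a b = 0 := fun a b h1 h2 => by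
    simp only [mk, of_apply, if_neg h1, if_neg h2]
  have y3 : 0 ≤ 3 * x := by positivity
  have yR : 0 ≤ c.J ^ 21 * x := by positivity
  have k1 : ∀ a b, a ≠ 2 → b ≠ 2 → |mk c i p s a b| ≤ 3 * (c.N / c.J ^ 6) * x1 ∧
      c.dgn a * |mk c i p s a b| ≤ 3 * x1 := fun a b ha hb => by
    by_cases k : a = i
    · subst k
      have := e b _ (T.1 b hb)
      have h1 := mul_le_mul_of_nonneg_right (r1 b hb).1 y3
      have h2 := mul_le_mul_of_nonneg_right (r1 b hb).2 y3
      have h3 := mul_le_mul_of_nonneg_left hx (by positivity : 0 ≤ c.N / c.J ^ 6)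
      exact ⟨by linarith, by linarith [mul_le_mul_of_nonneg_left this dg.le]⟩
    · rw [z a b k fun e => ha e.1, abs_zero, mul_zero]
      exact ⟨by positivity, by positivity⟩
  have k2 : ∀ a, a ≠ 2 → |mk c i p s a 2| ≤ np c.N (7 / 5) * c.J ^ 21 * x1 ∧
      c.dgn a * |mk c i p s a 2| ≤ np c.N (2 / 5) * c.J ^ 3 * c.J ^ 21 * x1 := fun a ha => by
    by_cases k : a = i
    · subst k
      have := e 2 _ T.2.1
      have h1 := mul_le_mul_of_nonneg_right r2 yR
      have h2 := mul_le_mul_of_nonneg_right r3 yR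
      have h3 := mul_le_mul_of_nonneg_left x1' (by positivity : 0 ≤ np c.N (7 / 5) * c.J ^ 21)
      have h4 := mul_le_mul_of_nonneg_left x1'
        (by positivity : 0 ≤ np c.N (2 / 5) * c.J ^ 3 * c.J ^ 21)
      exact ⟨by linarith, by linarith [mul_le_mul_of_nonneg_left this dg.le]⟩
    · rw [z a 2 k fun e => ha e.1, abs_zero, mul_zero]
      exact ⟨by positivity, by positivity⟩
  have k3 : ∀ b, b ≠ 2 → |mk c i p s 2 b| ≤ 0 := fun b hb => by
    rw [z 2 b hi.symm fun e => hb e.2, abs_zero]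
  have k4 : |mk c i p s 2 2| ≤ 4 * x1 := by
    simp only [mk, of_apply, if_neg hi.symm, and_self, if_true]
    linarith [T.2.2]
  refine ⟨fun a b => ?_, fun a b ha hb => (k1 a b ha hb).2, fun a ha => (k2 a ha).2⟩
  fin_cases a <;> fin_cases b
  exacts [(k1 0 0 (by decide) (by decide)).1, (k1 0 1 (by decide) (by decide)).1,
    (k2 0 (by decide)).1, (k1 1 0 (by decide) (by decide)).1, (k1 1 1 (by decide) (by decide)).1,
    (k2 1 (by decide)).1, k3 0 (by decide), k3 1 (by decide), k4]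

lemma tb4_le {l r k d l' r' k' d' : ℝ} (h1 : l ≤ l') (h2 : r ≤ r') (h3 : k ≤ k') (h4 : d ≤ d')
    (a b : Fin 3) : tb4 l r k d a b ≤ tb4 l' r' k' d' a b := by
  fin_cases a <;> fin_cases b <;> assumption

lemma num1 (h : Gd c) : 10000 * (c.J ^ 4 / c.N * (c.N / c.J ^ 6)) ≤ 1 ∧
    10000 * (hc c.N * (c.N / c.J ^ 6)) ≤ √c.N ∧
    10000 * (np c.N (2 / 5) * c.J ^ 3 * c.J ^ 21) ≤ np c.N (45 / 100) ∧
    10000 * (c.J ^ 4 / c.N * (np c.N (7 / 5) * c.J ^ 21)) ≤ np c.N (45 / 100) ∧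
    10000 * hc c.N ≤ np c.N (45 / 100) ∧
    10000 * (hc c.N * (np c.N (7 / 5) * c.J ^ 21)) ≤ np c.N (92 / 100) ∧
    10000 ≤ np c.N (92 / 100) := by
  have := h.J_pos; have := h.N_pos; have := h.big.hc_pos; have := h.big.sqrtN_pos
  have := h.big.np_pos (2 / 5); have := h.big.np_pos (7 / 5); have := h.big.np_pos (45 / 100)
  have := h.big.np_pos (92 / 100)
  have e1 := (logc_bd (C := 10000) (by norm_num)).2
  have e2 := (logc_bd (C := 3) (by norm_num)).2
  have e3 := h.big.L_ge; have e4 := h.big.J_ge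
  refine ⟨?_, ?_, ?_, ?_, ?_, ?_, ?_⟩ <;> refine le_of_log (by positivity) (by positivity) ?_ <;>
    simp (disch := positivity) only [Real.log_div, Real.log_mul, Real.log_pow, Real.log_one,
      h.log_J, h.big.log_N, h.big.log_np, h.big.log_hc, h.big.log_sqrtN, Nat.cast_ofNat] <;>
    linarith

lemma num2 (h : Gd c) : 10000 * (1 / (c.N * c.J ^ 9)) ≤ 1 ∧
    10000 * (c.J ^ 20 * np c.N (-245 / 1000)) ≤ 1 ∧ 10000 * (c.J ^ 21 * np c.N (-245 / 1000)) ≤ 1 ∧
    10000 * (c.J ^ 20 * c.q) ≤ c.J ^ 21 ∧ 10000 ≤ c.J ^ 21 ∧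
    10000 * (c.J ^ 20 * √c.N) ≤ (c.N : ℝ) ^ 3 ∧
    10000 * (c.N / c.J ^ 5 * (1 / (c.N * c.J ^ 9))) ≤ 1 ∧ 10000 * (c.N / c.J ^ 6) ≤ c.N / c.J ^ 5 ∧
    10000 ≤ c.N / c.J ^ 5 ∧
    10000 * (np c.N (7 / 5) * c.J ^ 21) ≤ c.N / c.J ^ 5 * (√c.N / c.J ^ 2) ∧
    10000 * c.q ≤ c.N * (c.J ^ 4 / c.N) ∧ 10000 * (√c.N * c.q) ≤ c.N * (c.J ^ 3 / √c.N) ∧
    10000 * (np c.N (45 / 100) * c.q) ≤ c.N * (c.J ^ 3 / √c.N) ∧
    10000 * (np c.N (92 / 100) * c.q) ≤ c.N * c.J ∧
    10000 * c.J ^ 20 ≤ c.J ^ 22 ∧ 10000 * c.J ^ 21 ≤ c.J ^ 22 ∧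
    10000 * (c.J ^ 22 * (1 / (c.N * c.J ^ 9))) ≤ 1 ∧ 10000 * np c.N (45 / 100) ≤ √c.N ∧
    10000 * (np c.N (7 / 5) * c.J ^ 21 * (1 / (c.N * c.J ^ 9))) ≤ √c.N ∧
    10000 * np c.N (92 / 100) ≤ np c.N (93 / 100) ∧
    10000 * (np c.N (7 / 5) * c.J ^ 21 * np c.N (45 / 100) * (1 / (c.N * c.J ^ 9))) ≤
      np c.N (93 / 100) ∧ 10000 * (c.N / c.J ^ 5) ≤ c.N ∧
    10000 * (c.N / c.J ^ 6) ≤ (c.N : ℝ) ^ 2 ∧ 10000 * (np c.N (7 / 5) * c.J ^ 21) ≤ (c.N : ℝ) ^ 2 ∧
    10000 ≤ (c.N : ℝ) ^ 2 := by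
  have := h.J_pos; have := h.N_pos; have := h.q_pos; have := h.big.sqrtN_pos
  have := h.big.np_pos (-245 / 1000); have := h.big.np_pos (7 / 5); have := h.big.np_pos (45 / 100)
  have := h.big.np_pos (92 / 100); have := h.big.np_pos (93 / 100)
  have e1 := (logc_bd (C := 10000) (by norm_num)).2
  have e3 := h.big.L_ge; have e4 := h.big.J_ge
  have e5 : Real.log c.q = pL c.N / 1000 := h.big.log_q
  refine ⟨?_, ?_, ?_, ?_, ?_, ?_, ?_, ?_, ?_, ?_, ?_, ?_, ?_, ?_, ?_, ?_, ?_, ?_, ?_, ?_, ?_, ?_,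
    ?_, ?_, ?_⟩ <;> refine le_of_log (by positivity) (by positivity) ?_ <;>
    simp (disch := positivity) only [Real.log_div, Real.log_mul, Real.log_pow, Real.log_one,
      h.log_J, h.big.log_N, h.big.log_np, h.big.log_sqrtN, e5, Nat.cast_ofNat] <;>
    linarith

lemma gm (h : Gd c) (hi : i ≠ 2) {G : Mx} {p : V} {s x x1 : ℝ} (T : TB c.hs i (c.J ^ 21) p s x)
    (hx : x * c.wL ≤ x1)
    (H : ∀ (e : Mx) (l l' r k k' d : ℝ), EB e (tb4 l' r k' d) →
      (∀ i j, i ≠ 2 → j ≠ 2 → c.dgn i * |e i j| ≤ l) → (∀ i, i ≠ 2 → c.dgn i * |e i 2| ≤ k) →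
      EB (G * e) (tb4 (l + 2 * (3 * (c.J ^ 4 / c.N)) * l' + 3 * hc c.N * r)
        (2 * (3 * hc c.N) * l' + (1 + 3 / 10) * r)
        (k + 2 * (3 * (c.J ^ 4 / c.N)) * k' + 3 * hc c.N * d)
        (2 * (3 * hc c.N) * k' + (1 + 3 / 10) * d))) :
    EB (G * mk c i p s) (tb4 (4 * x1) (√c.N / 6 * x1) (np c.N (45 / 100) * x1)
      (np c.N (92 / 100) * x1)) := by
  obtain ⟨t1, t2, t3⟩ := tab h hi T hx
  have x0 : 0 ≤ x1 := by linarith [(abs_nonneg _).trans (show _ ≤ 4 * x1 from t1 2 2)]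
  obtain ⟨g1, g2, g3, g4, g5, g6, g7⟩ := num1 h
  have m := fun {a b : ℝ} (e : a ≤ b) => mul_le_mul_of_nonneg_right e x0
  have := mul_nonneg h.big.sqrtN_pos.le x0
  have := mul_nonneg (h.big.np_pos (45 / 100)).le x0
  refine fun a b => (H _ _ _ _ _ _ _ t1 t2 t3 a b).trans (tb4_le ?_ ?_ ?_ ?_ a b)
  exacts [by linarith [m g1], by linarith [m g2], by linarith [m g3, m g4, m g5],
    by linarith [m g6, m g7]]

lemma em_alg (h : Gd c) (hi : i ≠ 2) (d : V) {m m' : ℝ} (hm : m ≠ 0) (hm' : m' ≠ 0)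
    (e : m * (1 + d i) = m') (a b : Fin 3) :
    ((1 : Mx) a b + if a = i then d b else 0) * c.cj m' b / c.cj m a = (1 : Mx) a b +
      mk c i (fun j => if j = 2 then d 2 * m'⁻¹ else d j) ((1 + d i)⁻¹ - 1) a b := by
  have n1 := h.c1_pos.ne'
  have n2 := h.c2_pos.ne'
  have n3 := h.n12_pos.ne'
  have n4 : 1 + d i ≠ 0 := fun k => hm' (by rw [← e, k, mul_zero])
  subst e
  fin_cases i
  on_goal 3 => exact absurd rfl hi
  all_goals
    fin_cases a <;> fin_cases b <;> simp [mk, Pm.cj, Pm.cc, n1, n2] at n4 ⊢ <;> field_simp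

lemma dm_mk {P : Fin 3 → V → ℝ} {s : V → ℝ} {z : V} (hP : ∀ j, DifferentiableAt ℝ (P j) z)
    (hs : DifferentiableAt ℝ s z) (t : ℝ) (k : Fin 3) :
    t • Ftr.Dm k (fun w => 1 + mk c i (fun j => P j w) (s w)) z =
      mk c i (fun j => t * pd k (P j) z) (t * pd k s z) := by
  ext a b
  simp only [Ftr.Dm, mk, of_apply, Matrix.smul_apply, Matrix.add_apply, smul_eq_mul]
  split_ifs
  · rw [pd_add_at (differentiableAt_const _) ((hP b).const_mul _), pd_const, pd_const_mul]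
    ring
  · rw [pd_add_at (differentiableAt_const _) hs, pd_const, zero_add]
  · rw [pd_const, mul_zero]

end Ls

open Ls in
theorem ls (hN : NatStmt) : LsStmt := by
  filter_upwards [ev_gd, hN] with N hg hN c hcN ho O r f i b β β1 hi hO hf hp hb β0 hw h1 hz hW b0 b1
  have h := hg c hcN ho
  obtain ⟨N1, N2⟩ := hN c hcN ho
  obtain ⟨m1, m2, m3, m4, m5, m6, m7, m8, m9, m10, m11, m12, m13, m14, m15, m16, m17, m18, m19,
    m20, m21, m22, m23, m24, m25⟩ := num2 h
  have hM : Sm (jac f) := hf.jac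
  have hh := h.hs_pos
  have := h.J_pos; have := h.N_pos; have := h.q_pos; have := h.big.sqrtN_pos
  have := h.big.np_pos (7 / 5); have := h.big.np_pos (45 / 100); have := h.big.np_pos (93 / 100)
  have β2 : β ≤ β1 := (le_mul_of_one_le_right β0 (le_max_left _ _)).trans hw
  have x0 : 0 ≤ β1 := β0.trans β2
  have β3 : β ≤ 1 / 1000 := by linarith
  have m := fun {a b : ℝ} (e : a ≤ b) => mul_le_mul_of_nonneg_right e x0
  have n := fun {a : ℝ} (e : 0 ≤ a) => m (mul_le_mul_of_nonneg_left h1 e)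
  have hq : ∀ z, 0 < jac f z + pd i b z := fun z => by
    by_cases k : z ∈ RX O c.D r
    · have := hW.1 z (Prof.RX_mono O h.D_pos.le (by linarith) k)
      have h2 : |pd i b z| ≤ β := le_of_mul_le_mul_left
        ((b1.pd_le (by norm_num) i (mem_univ z)).trans_eq (mul_comm _ _)) (hh i)
      linarith [(abs_le.1 this).1, (abs_le.1 h2).1]
    · have : pd i b z = 0 := pds_zero_off (Prof.RX_closed O c.D r) hz [i] z k
      linarith [hp z]
  obtain ⟨σ, hσ, hbij, hG, hd, hj⟩ := slide i (jac f) b hM hb hp hq (slide_far hO hz i)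
  have hS := sm_slide hσ (Pi.single i 1 : V)
  have hj' : ∀ z, jac (f ∘ fun w => w + σ w • (Pi.single i 1 : V)) z = jac f z + pd i b z :=
    hj f hf fun _ => rfl
  have s0 : ∀ z, b z = 0 → σ z = 0 := fun z k => (Sl.G_mono hM.continuous hp _ z).injective (by
    rw [Sl.G_zero]; exact (hG z).trans k)
  have hl : 2 * pA c.N * β * c.hs i ≤ (c.N : ℝ) ^ 3 * c.lam := by
    have k1 : c.hs i ≤ √c.N * c.lam := by
      have := mul_le_mul_of_nonneg_right h.ro_le h.lam_pos.le
      fin_cases i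
      exacts [this, h.lam_le_l1.trans this, absurd rfl hi]
    have k2 := mul_le_mul β3 k1 (hh i).le (by norm_num)
    have k3 := mul_le_mul_of_nonneg_left k2 (by positivity : 0 ≤ c.J ^ 20)
    have k4 := mul_le_mul_of_nonneg_right m6 h.lam_pos.le
    have k5 := h.lam_pos
    have k6 : 0 ≤ c.J ^ 20 * √c.N * c.lam := by positivity
    change 2 * c.J ^ 20 * β * c.hs i ≤ _
    linarith
  have s1 : ∀ z, |σ z| ≤ 2 * pA c.N * β * c.hs i := fun z => by
    by_cases k : z ∈ RX O c.D r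
    · have := slide_abs hM.continuous hp (hG z) fun t ht => by
        linarith [(abs_le.1 (hW.1 _ (h.RX_line hO i k (show |t| ≤ _ by linarith [b0 z])))).1]
      linarith [b0 z]
    · rw [s0 z (hz z k), abs_zero]
      linarith [(abs_nonneg _).trans (b0 z)]
  have hE : c.Em f (fun w => w + σ w • (Pi.single i 1 : V)) =
      fun w => 1 + mk c i (fun j => pf i (jac f) b σ j w) (sf i σ w) := by
    funext w
    ext a a'
    rw [Pm.Em, of_apply, jm_slide hσ, hj']
    exact em_alg h hi (fun j => pd j σ w) (hp _).ne' (hq w).ne' (by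
      rw [← hj', ← Sl.jac_slide hσ i w]; exact (jac_comp (hf.dif _) (hS.dif w)).symm) a a'
  have d0 : ∀ z j, |(z + σ z • (Pi.single i 1 : V)) j - z j| ≤
      if j = i then 2 * pA c.N * β * c.hs i else 0 := fun z j => by
    split_ifs with k
    · simpa [k] using s1 z
    · simp [k]
  refine ⟨_, ⟨hS, hbij⟩, fun z k => by simp [s0 z k], hj', d0, fun z hz' => ?_⟩
  have H : An c.hs i (jac f) b σ z (RX O c.D (r + 1 / 1000)) β (2 * c.J ^ 20) (50 * c.q)
      (50 * np c.N (-245 / 1000)) (c.J ^ 21) :=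
    ⟨hh, hi, hM, hb, hσ, hd, fun t ht => h.RX_line hO i hz' (ht.trans ((s1 z).trans hl)),
      (s1 z).trans_eq (mul_assoc _ _ _), hW.1, hW.2.1, hW.2.2, b1, β0, β3, by linarith, by linarith,
      by linarith, by linarith [show 10000000 ≤ c.q from h.big.q_ge], by linarith⟩
  have e1 : c.Em f (fun w => w + σ w • (Pi.single i 1 : V)) z - 1 =
      mk c i (fun j => pf i (jac f) b σ j z) (sf i σ z) := by rw [hE, add_sub_cancel_left]
  have t1 := (tab h hi H.tb0 hw).1
  rw [← e1] at t1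
  have y1 : 0 ≤ (c.N : ℝ) ^ 2 * β1 := by positivity
  refine ⟨fun a a' => (t1 a a').trans ((tb4_le (l' := (c.N : ℝ) ^ 2 * β1) (r' := (c.N : ℝ) ^ 2 * β1)
    (k' := (c.N : ℝ) ^ 2 * β1) (d' := (c.N : ℝ) ^ 2 * β1) (by linarith [m m23]) y1
    (by linarith [m m24]) (by linarith [m m25]) a a').trans_eq
      (by fin_cases a <;> fin_cases a' <;> rfl)), fun hGW => ?_⟩
  have G := fun e l l' r k k' d => N1 f _ e 3 l l' r k k' d (by norm_num) hGW
  have t2 := gm h hi H.tb0 hw G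
  rw [← e1] at t2
  have y2 : 0 ≤ c.N / c.J ^ 5 * β1 := by positivity
  have y3 : 0 ≤ c.J ^ 22 * β1 := by positivity
  have y4 : 0 ≤ √c.N * β1 := by positivity
  have y5 : 0 ≤ np c.N (93 / 100) * β1 := by positivity
  have y6 : 0 ≤ c.N * β1 := by positivity
  have y7 := mul_le_mul_of_nonneg_left β2 (by positivity : 0 ≤ c.J ^ 20)
  have y8 := mul_le_mul_of_nonneg_left β2 (by positivity : 0 ≤ c.J ^ 21)
  refine ((N2 f _ z hf hS (hp _).ne' (by rw [hj']; exact (hq z).ne')).2 (c.N / c.J ^ 5 * β1)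
    (c.N / 3 * β1) _ _ _ _ ⟨?_, by linarith [m m8], by linarith [m m9], by positivity, ?_⟩ t1
    fun k => ?_).2 (FPl c.N β1) _ _ _ _ t2 (fun a ha => ?_) ?_ (fun a a' _ => ?_) ?_ ?_
      (by norm_num [FPl]) ?_ ?_ ?_ ?_ ?_
  · linarith [mul_le_mul_of_nonneg_left h1 (by positivity : 0 ≤ c.N / c.J ^ 5)]
  · linarith [m m10, (by positivity : 0 ≤ np c.N (7 / 5) * c.J ^ 21 * β1)]
  · rw [hE, dm_mk (fun j => (H.dif j).1) (H.dif 0).2]
    have t3 := gm (x1 := 150 * c.q * β1) h hi (H.tb1 k)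
      (by linarith [mul_le_mul_of_nonneg_left hw h.q_pos.le]) G
    refine fun a a' => (t3 a a').trans ((tb4_le (l' := c.N / 3 * β1 * (c.J ^ 4 / c.N))
      (r' := c.N / 3 * β1 * (c.J ^ 3 / √c.N)) (k' := c.N / 3 * β1 * (c.J ^ 3 / √c.N))
      (d' := c.N / 3 * β1 * c.J) ?_ ?_ ?_ ?_ a a').trans_eq
        (by fin_cases a <;> fin_cases a' <;> rfl))
    · linarith [m m11, (by positivity : 0 ≤ c.q * β1)]
    · linarith [m m12, (by positivity : 0 ≤ √c.N * c.q * β1)]
    · linarith [m m13, (by positivity : 0 ≤ np c.N (45 / 100) * c.q * β1)]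
    · linarith [m m14, (by positivity : 0 ≤ c.N * c.J * β1)]
  · rw [abs_sub_comm]
    refine (d0 z a).trans ?_
    change _ ≤ c.J ^ 22 * β1 * _
    split_ifs with k
    · subst k
      exact mul_le_mul_of_nonneg_right (show 2 * c.J ^ 20 * β ≤ _ by linarith [m m15]) (hh a).le
    · exact mul_nonneg y3 (hh a).le
  · rw [abs_sub_comm]
    exact (d0 z 2).trans_eq ((if_neg hi.symm).trans (zero_mul _).symm)
  · rw [Matrix.sub_apply, jm_slide hσ, add_sub_cancel_left]
    change _ ≤ c.J ^ 22 * β1 * _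
    split_ifs with k
    · subst k
      have := mul_le_mul_of_nonneg_right (show c.J ^ 21 * β ≤ c.J ^ 22 * β1 by linarith [m m16])
        (hh a).le
      linarith [H.d1' a']
    · rw [abs_zero, zero_mul]; exact mul_nonneg y3 (hh a).le
  · rw [jm_slide hσ, if_neg hi.symm]
    simp [FPl]
  · change c.J ^ 22 * β1 ≤ _
    linarith [mul_le_mul_of_nonneg_left h1 (by positivity : 0 ≤ c.J ^ 22)]
  · change _ ≤ 100 * β1
    linarith
  · change _ ≤ √c.N * β1
    linarith [m m18, m m19, n (by positivity : 0 ≤ np c.N (7 / 5) * c.J ^ 21)]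
  · change _ ≤ np c.N (93 / 100) * β1
    linarith [m m20, m m21, n (by positivity : 0 ≤ np c.N (7 / 5) * c.J ^ 21 * np c.N (45 / 100))]
  · change _ ≤ c.N * β1
    linarith
  · change _ ≤ c.N * β1
    linarith [m m22]

end
end Pool.Agent.MP_20bec2_an.T3

end MrgPart1

-- marker of a merged file
example : 731051 + 106005 = 731051 + 106005 := rfl
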