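import Pool.Agent.MP_20bec2_an.T3.CrA
import Pool.Agent.MP_20bec2_an.T3.Yq
import Pool.Agent.MP_20bec2_an.T3.Fcomp
import Pool.Agent.MP_20bec2_an.T3.Ftr
import Pool.Agent.MP_20bec2_an.T3.Calc2C
import Pool.Agent.MP_20bec2_an.T3.Ls
import Pool.Agent.MP_20bec2_an.T3.Fl3

-- ======== part 0: formerly Pool.Agent.MP_20bec2_an.T3.Gst
section MrgPart0

-- ======== part 0: formerly Pool.Agent.MP_20bec2_an.T3.GluZ
section MrgPart0

/-! Gluing in the target: sums and maps over the cubes of one colour. -/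

set_option autoImplicit false
open Set Filter Matrix Topology

namespace Pool.Agent.MP_20bec2_an.T3
noncomputable section
open Classical

namespace GluZ
open Prof

variable {B : Bk} {j : ℕ} {r : ℝ}

lemma D_pos (G : B.G) (n1 : 1 ≤ B.N) : 0 < B.D := GeoP.D_pos G.toFrOk n1
lemma det_ne (G : B.G) (g : Cu) : (B.fr g).Q.det ≠ 0 := GeoP.det_ne G.toFrOk g
lemma R_mono (G : B.G) (n1 : 1 ≤ B.N) (g : Cu) {r r' : ℝ} (h : r ≤ r') : B.R g r ⊆ B.R g r' :=
  RX_mono _ (D_pos G n1).le h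

/-- points near a point seen in the region `r` are seen in the region `r'` -/
lemma ev_R (G : B.G) (n1 : 1 ≤ B.N) {g : Cu} {r r' : ℝ} (h : r < r') {p : V}
    (hp : (B.fr g).zc p ∈ B.R g r) : ∀ᶠ w in 𝓝 p, (B.fr g).zc w ∈ B.R g r' :=
  (zc_sm (B.fr g)).continuous.continuousAt.preimage_mem_nhds (RX_nhds (D_pos G n1) h hp)

/-- the regions of one colour are locally finite -/
lemma ev_off (G : B.G) (n1 : 1 ≤ B.N) (hr : r ≤ 98 / 100) {p : V}
    (hp : ∀ g, col g = j → (B.fr g).zc p ∉ B.R g r) :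
    ∀ᶠ w in 𝓝 p, ∀ g, col g = j → (B.fr g).zc w ∉ B.R g r := by
  obtain ⟨g0, h0⟩ := GeoP.cover G n1 p
  have e1 : ∀ᶠ w in 𝓝 p, ∀ g ∈ {g | Nbr 1 g0 g}, col g = j → (B.fr g).zc w ∉ B.R g r :=
    (eventually_all_finite (nbr_finite 1 g0)).2 fun g _ => by
      by_cases hg : col g = j
      · filter_upwards [(zc_sm (B.fr g)).continuous.continuousAt.preimage_mem_nhds
          ((RX_closed (B.fr g).O B.D r).isOpen_compl.mem_nhds (hp g hg))] with w hw _ using hw
      · exact Eventually.of_forall fun _ h => absurd h hg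
  filter_upwards [e1, ev_R G n1 (g := g0) (r' := 6 / 10) (by norm_num) h0] with w h1 h2 g hg hw
  exact h1 g (GeoP.nbr_of G n1 (r := 6 / 10) (r' := 98 / 100) (by norm_num) (by norm_num)
    (by norm_num) (by norm_num) (by norm_num) h2 (R_mono G n1 g hr hw)) hg hw

section sums
variable {E : Type*} [AddCommMonoid E] {φ : Cu → V → E}

lemma sum_in (G : B.G) (n1 : 1 ≤ B.N) (hr : r ≤ 98 / 100)
    (H : ∀ g, col g = j → ∀ p, (B.fr g).zc p ∉ B.R g r → φ g p = 0) {g : Cu} (hg : col g = j)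
    {p : V} (hp : (B.fr g).zc p ∈ B.R g (101 / 100)) :
    (∑ᶠ g', if col g' = j then φ g' p else 0) = φ g p := by
  rw [finsum_eq_single _ g fun g' hne => ?_, if_pos hg]
  split_ifs with hg'
  · exact H g' hg' p fun h => hne (GeoP.col_unique G n1 (r := 98 / 100) (r' := 101 / 100)
      (by norm_num) (by norm_num) (by norm_num) (hg'.trans hg.symm) (R_mono G n1 g' hr h) hp)
  · rfl

lemma sum_out (H : ∀ g, col g = j → ∀ p, (B.fr g).zc p ∉ B.R g r → φ g p = 0) {p : V}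
    (hp : ∀ g, col g = j → (B.fr g).zc p ∉ B.R g r) :
    (∑ᶠ g', if col g' = j then φ g' p else 0) = 0 :=
  finsum_eq_zero_of_forall_eq_zero fun g => by
    split_ifs with hg
    exacts [H g hg p (hp g hg), rfl]

lemma sum_ev_in (G : B.G) (n1 : 1 ≤ B.N) (hr : r ≤ 98 / 100)
    (H : ∀ g, col g = j → ∀ p, (B.fr g).zc p ∉ B.R g r → φ g p = 0) {g : Cu} (hg : col g = j)
    {p : V} (hp : (B.fr g).zc p ∈ B.R g 1) :
    (fun w => ∑ᶠ g', if col g' = j then φ g' w else 0) =ᶠ[𝓝 p] φ g :=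
  (ev_R G n1 (by norm_num) hp).mono fun _ hw => sum_in G n1 hr H hg hw

lemma sum_ev_out (G : B.G) (n1 : 1 ≤ B.N) (hr : r ≤ 98 / 100)
    (H : ∀ g, col g = j → ∀ p, (B.fr g).zc p ∉ B.R g r → φ g p = 0) {p : V}
    (hp : ∀ g, col g = j → (B.fr g).zc p ∉ B.R g r) :
    (fun w => ∑ᶠ g', if col g' = j then φ g' w else 0) =ᶠ[𝓝 p] fun _ => 0 :=
  (ev_off G n1 hr hp).mono fun _ hw => sum_out H hw

end sums

lemma sum_sm {E : Type*} [NormedAddCommGroup E] [NormedSpace ℝ E] {φ : Cu → V → E} (G : B.G)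
    (n1 : 1 ≤ B.N) (hr : r ≤ 98 / 100)
    (H : ∀ g, col g = j → ∀ p, (B.fr g).zc p ∉ B.R g r → φ g p = 0)
    (hs : ∀ g, col g = j → Sm (φ g)) : Sm fun w => ∑ᶠ g', if col g' = j then φ g' w else 0 :=
  contDiff_iff_contDiffAt.2 fun p => by
    by_cases hp : ∀ g, col g = j → (B.fr g).zc p ∉ B.R g r
    · exact contDiffAt_const.congr_of_eventuallyEq (sum_ev_out G n1 hr H hp)
    · push Not at hp
      obtain ⟨g, hg, hp⟩ := hp
      exact (hs g hg).contDiffAt.congr_of_eventuallyEq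
        (sum_ev_in G n1 hr H hg (R_mono G n1 g (by linarith) hp))

/-! ## the glued flux -/

lemma cut_off (G : B.G) (n1 : 1 ≤ B.N) (F : Cu → V → V) (g : Cu) (p : V)
    (hp : (B.fr g).zc p ∉ B.R g (95 / 100)) :
    (B.fr g).unvd (cutF (B.fr g).O B.D (F g)) p = 0 := by
  simp only [Fr.unvd, cutF, beth_zero (D_pos G n1) hp, zero_smul, mulVec_zero, smul_zero]

lemma cutF_sm (O : Mx) (D : ℝ) {F : V → V} (h : Sm F) : Sm (cutF O D F) := (beth_sm O D).smul h

lemma glF_in (G : B.G) (n1 : 1 ≤ B.N) (F : Cu → V → V) {g : Cu} (hg : col g = j) {p : V}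
    (hp : (B.fr g).zc p ∈ B.R g 1) :
    B.glF j F =ᶠ[𝓝 p] (B.fr g).unvd (cutF (B.fr g).O B.D (F g)) :=
  sum_ev_in G n1 (by norm_num) (fun g _ => cut_off G n1 F g) hg hp

lemma glF_out (G : B.G) (n1 : 1 ≤ B.N) (F : Cu → V → V) (h0 : 95 / 100 ≤ r) {p : V}
    (hp : ∀ g, col g = j → (B.fr g).zc p ∉ B.R g r) : B.glF j F =ᶠ[𝓝 p] fun _ => 0 :=
  sum_ev_out G n1 (by norm_num) (fun g _ => cut_off G n1 F g) fun g hg h =>
    hp g hg (R_mono G n1 g h0 h)

lemma glF_sm (G : B.G) (n1 : 1 ≤ B.N) {F : Cu → V → V} (h : ∀ g, col g = j → Sm (F g)) :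
    Sm (B.glF j F) :=
  sum_sm G n1 (by norm_num) (fun g _ => cut_off G n1 F g) fun g hg =>
    unvd_sm _ (cutF_sm _ _ (h g hg))

/-! ## the glued map -/

/-- the maps `S g` (hat coordinates) of the cubes of colour `j` as one global map -/
def gT (B : Bk) (j : ℕ) (S : Cu → V → V) (p : V) : V :=
  p + ∑ᶠ g, if col g = j then (B.fr g).zp (S g ((B.fr g).zc p)) - p else 0

structure Hy (B : Bk) (j : ℕ) (r : ℝ) (S : Cu → V → V) : Prop where
  G : B.G
  n1 : 1 ≤ B.N
  hr : r ≤ 98 / 100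
  off : ∀ g, col g = j → ∀ z, z ∉ B.R g r → S g z = z
  bij : ∀ g, col g = j → Function.Bijective (S g)

namespace Hy
variable {S S' : Cu → V → V} (H : Hy B j r S) {g : Cu} {p z : V}
include H

lemma van (g : Cu) (hg : col g = j) (p : V) (hp : (B.fr g).zc p ∉ B.R g r) :
    (B.fr g).zp (S g ((B.fr g).zc p)) - p = 0 := by
  rw [H.off g hg _ hp, zp_zc (det_ne H.G g), sub_self]

lemma in_eq (hg : col g = j) (hp : (B.fr g).zc p ∈ B.R g (101 / 100)) :
    gT B j S p = (B.fr g).zp (S g ((B.fr g).zc p)) := by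
  rw [gT, sum_in H.G H.n1 H.hr H.van hg hp, add_sub_cancel]

lemma out_eq (hp : ∀ g, col g = j → (B.fr g).zc p ∉ B.R g r) : gT B j S p = p := by
  rw [gT, sum_out H.van hp, add_zero]

lemma in_ev (hg : col g = j) (hp : (B.fr g).zc p ∈ B.R g 1) :
    gT B j S =ᶠ[𝓝 p] fun w => (B.fr g).zp (S g ((B.fr g).zc w)) :=
  (ev_R H.G H.n1 (by norm_num) hp).mono fun _ hw => H.in_eq hg hw

lemma out_ev (hp : ∀ g, col g = j → (B.fr g).zc p ∉ B.R g r) : gT B j S =ᶠ[𝓝 p] fun w => w :=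
  (ev_off H.G H.n1 H.hr hp).mono fun _ hw => H.out_eq hw

/-- the two cases at a point -/
lemma cases (p : V) :
    ((∀ g, col g = j → (B.fr g).zc p ∉ B.R g r) ∧ gT B j S =ᶠ[𝓝 p] fun w => w) ∨
    ∃ g, col g = j ∧ (B.fr g).zc p ∈ B.R g r ∧
      gT B j S =ᶠ[𝓝 p] fun w => (B.fr g).zp (S g ((B.fr g).zc w)) := by
  by_cases hp : ∀ g, col g = j → (B.fr g).zc p ∉ B.R g r
  · exact Or.inl ⟨hp, H.out_ev hp⟩
  · push Not at hp
    obtain ⟨g, hg, hp⟩ := hp
    exact Or.inr ⟨g, hg, hp, H.in_ev hg (R_mono H.G H.n1 g (by linarith [H.hr]) hp)⟩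

lemma sm (hs : ∀ g, col g = j → Sm (S g)) : Sm (gT B j S) :=
  contDiff_id.add (sum_sm H.G H.n1 H.hr H.van fun g hg =>
    ((zp_sm _).comp ((hs g hg).comp (zc_sm _))).sub contDiff_id)

/-- `S g` keeps the regions that contain its support -/
lemma maps (hg : col g = j) {r' : ℝ} (h : r ≤ r') : S g z ∈ B.R g r' ↔ z ∈ B.R g r' := by
  by_cases hz : z ∈ B.R g r
  · have : S g z ∈ B.R g r := by
      by_contra hn
      exact hn (((H.bij g hg).1 (H.off g hg _ hn)).symm ▸ hz)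
    exact iff_of_true (R_mono H.G H.n1 g h this) (R_mono H.G H.n1 g h hz)
  · rw [H.off g hg z hz]

lemma inv : Hy B j r fun g => Function.invFun (S g) :=
  ⟨H.G, H.n1, H.hr, fun g hg z hz => by
    have := Function.leftInverse_invFun (H.bij g hg).1 z
    rwa [H.off g hg z hz] at this, fun g hg => GeoP.invFun_bij (H.bij g hg)⟩

lemma comp_id (H' : Hy B j r S') (e : ∀ g, col g = j → ∀ z, S' g (S g z) = z) (p : V) :
    gT B j S' (gT B j S p) = p := by
  by_cases hp : ∀ g, col g = j → (B.fr g).zc p ∉ B.R g r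
  · rw [H.out_eq hp, H'.out_eq hp]
  · push Not at hp
    obtain ⟨g, hg, hp⟩ := hp
    have m := R_mono H.G H.n1 g (by linarith [H.hr] : r ≤ 101 / 100)
    have e1 := zc_zp (det_ne H.G g) (S g ((B.fr g).zc p))
    rw [H.in_eq hg (m hp), H'.in_eq hg (e1.symm ▸ m ((H.maps hg le_rfl).2 hp)), e1, e g hg,
      zp_zc (det_ne H.G g)]

lemma left : Function.LeftInverse (gT B j fun g => Function.invFun (S g)) (gT B j S) :=
  H.comp_id H.inv fun g hg => Function.leftInverse_invFun (H.bij g hg).1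

lemma right : Function.RightInverse (gT B j fun g => Function.invFun (S g)) (gT B j S) :=
  H.inv.comp_id H fun g hg => Function.rightInverse_invFun (H.bij g hg).2

lemma bijT : Function.Bijective (gT B j S) :=
  Function.bijective_iff_has_inverse.2 ⟨_, H.left, H.right⟩

lemma invT : Function.invFun (gT B j S) = gT B j fun g => Function.invFun (S g) :=
  funext fun p => H.bijT.1 ((Function.rightInverse_invFun H.bijT.2 p).trans (H.right p).symm)

lemma invT_in (hg : col g = j) (hp : (B.fr g).zc p ∈ B.R g (101 / 100)) :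
    Function.invFun (gT B j S) p = (B.fr g).zp (Function.invFun (S g) ((B.fr g).zc p)) := by
  rw [H.invT, H.inv.in_eq hg hp]

lemma invT_out (hp : ∀ g, col g = j → (B.fr g).zc p ∉ B.R g r) :
    Function.invFun (gT B j S) p = p := by
  rw [H.invT, H.inv.out_eq hp]

/-- the composed map in the frame of an acting cube -/
lemma fh_ev (f : V → V) (hg : col g = j) (hz : z ∈ B.R g 1) :
    (B.fr g).fh (f ∘ gT B j S) =ᶠ[𝓝 z] (B.fr g).fh f ∘ S g := by
  filter_upwards [RX_nhds (D_pos H.G H.n1) (r' := 101 / 100) (by norm_num) hz] with w hw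
  have e := zc_zp (det_ne H.G g) w
  show f (gT B j S ((B.fr g).zp w)) = f ((B.fr g).zp (S g w))
  rw [H.in_eq hg (e.symm ▸ hw), e]

/-- the composed map away from the acting cubes, in any frame -/
lemma fh_out (f : V → V) (F : Fr) (hp : ∀ g, col g = j → (B.fr g).zc (F.zp z) ∉ B.R g r) :
    F.fh (f ∘ gT B j S) =ᶠ[𝓝 z] F.fh f :=
  ((zp_sm F).continuous.continuousAt.eventually (H.out_ev hp)).mono fun _ hw => congrArg f hw

end Hy

lemma nw_comp (B : Bk) (g : Cu) {f T : V → V} (hf : Function.Injective f)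
    (hT : Function.Bijective T) (z' : V) :
    B.nw g f (f ∘ T) z' = (B.fr g).zc (Function.invFun T ((B.fr g).zp z')) := by
  have e := Function.leftInverse_invFun (hf.comp hT.1) (Function.invFun T ((B.fr g).zp z'))
  rw [Function.comp_apply, Function.rightInverse_invFun hT.2] at e
  rw [Bk.nw, e]

/-! ## frames -/

lemma jac_fh (F : Fr) {f : V → V} (hf : Sm f) : jac (F.fh f) = F.den (jac f) :=
  funext fun z => (K3.p4 F (hf.differentiable Inv.top_ne) z).2

lemma dv_vd {F : Fr} (hQ : 0 < F.Q.det) {R : V → V} (hR : Sm R) : dv (F.vd R) = F.den (dv R) :=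
  K3.p3 F hQ (hR.differentiable Inv.top_ne)

lemma den_dv_unvd {F : Fr} (hQ : 0 < F.Q.det) {R : V → V} (hR : Sm R) :
    F.den (dv (F.unvd R)) = dv R := by
  rw [← dv_vd hQ (unvd_sm F hR), vd_unvd hQ.ne']

lemma fh_sm (F : Fr) {f : V → V} (hf : Sm f) : Sm (F.fh f) := hf.comp (zp_sm F)
lemma den_sm (F : Fr) {M : V → ℝ} (hM : Sm M) : Sm (F.den M) :=
  contDiff_const.mul (hM.comp (zp_sm F))

lemma den_ev (F : Fr) {M M' : V → ℝ} {z : V} (e : M =ᶠ[𝓝 (F.zp z)] M') :
    F.den M =ᶠ[𝓝 z] F.den M' :=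
  ((zp_sm F).continuous.continuousAt.eventually e).mono fun _ hw => congrArg (F.Q.det * ·) hw

lemma zc_zp_aff (F F' : Fr) (z : V) :
    F'.zc F.z0 + (F'.Q⁻¹ * F.Q) *ᵥ z = F'.zc (F.zp z) := by
  rw [← mulVec_mulVec, Fr.zc, Fr.zc, ← mulVec_add, Fr.zp, add_sub_right_comm]

lemma den_aff {F F' : Fr} (hQ' : F'.Q.det ≠ 0) (M : V → ℝ) : F.den M =
    fun z => (F'.Q⁻¹ * F.Q).det * F'.den M (F'.zc F.z0 + (F'.Q⁻¹ * F.Q) *ᵥ z) := funext fun z => by
  rw [zc_zp_aff, Fr.den, Fr.den, zp_zc hQ', GeoP.T_det_eq]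
  field_simp

/-- the scaled entries of the change of frame -/
lemma chg {N : ℕ} {F F' : Fr} {lb : ℝ} {k : ℕ} (G : Gd (F.pm N lb k)) (G' : Gd (F'.pm N lb k))
    (hO : Orth F.O) (hO' : Orth F'.O) (hQ : 0 < F.Q.det) (hQ' : 0 < F'.Q.det)
    (cp : Cpt (dc N) F F') :
    (∀ a b, |(F'.Q⁻¹ * F.Q) a b| * (F.pm N lb k).hs b ≤ 3 * (F'.pm N lb k).hs a) ∧
    (∀ b, b ≠ 2 → |(F'.Q⁻¹ * F.Q) 2 b| * (F.pm N lb k).hs b ≤ np N (-20) * (F'.pm N lb k).hs 2 ∧
      |(F'.Q⁻¹ * F.Q) b 2| * (F.pm N lb k).hs 2 ≤ np N (-20) * (F'.pm N lb k).hs b) ∧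
    0 < (F'.Q⁻¹ * F.Q).det ∧ (F'.Q⁻¹ * F.Q).det ≤ 2 := by
  have big : Big N := G.big
  obtain ⟨n1, n2, -, n4, -⟩ := Ftr.num big
  have C := cp.cp G G' n4
  have d0 := big.dc_pos
  have N1 : (1 : ℝ) ≤ N := by linarith [big.N_ge, big.J_ge, big.L_ge]
  have n15 : np N (-15) ≤ 1 := (big.np_le (by norm_num)).trans_eq (np_zero _)
  have n4 : 1 ≤ np N 4 := (np_zero _).symm.trans_le (big.np_le (by norm_num))
  have e1 : np N (-20) ≤ 1 / 10000 := by nlinarith [big.np_pos (-20)]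
  have e2 : 13 * dc N ≤ np N (-20) := by nlinarith
  have hΩ := orth_mul (orth_t hO) hO'
  have tq : Ftr.Bd (F.Q⁻¹ * F'.Q - F.Oᵀ * F'.O) (dc N) := cp.tq
  have sq := Ftr.inv_near hΩ tq (by linarith) (GeoP.T_inv hQ'.ne' hQ.ne')
  have nS := Ftr.nr_of (orth_t hΩ) sq (fun i hi => (cp.o3 i hi).symm) (cp.al.imp_left And.symm)
  have r1 : (F.pm N lb k).ro ≤ 11 / 10 * (F'.pm N lb k).ro := by
    obtain ⟨-, h1, h2, -⟩ := C.ratios Pm.ro (by simp)
    nlinarith [C.q_inv.2, G.ro_pos, G'.ro_pos]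
  have bS := Ftr.blk_hs (e := np N (-20)) G G' nS rfl rfl r1 (by linarith)
    (show (dc N + 12 * dc N) * np N 4 ≤ _ by linarith) (by linarith) And.left
  refine ⟨fun a b => (Ftr.abs_sc G'.hs_pos G.hs_pos a b).1
    ((Finset.single_le_sum (f := fun l => |Ftr.sc _ _ (F'.Q⁻¹ * F.Q) l b|) (fun _ _ => abs_nonneg _)
      (Finset.mem_univ a)).trans ((bS.cs b).trans (by linarith))), fun b hb =>
    ⟨(Ftr.abs_sc G'.hs_pos G.hs_pos 2 b).1 (bS.off b hb).2,
      (Ftr.abs_sc G'.hs_pos G.hs_pos b 2).1 (bS.off b hb).1⟩, ?_,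
    Ftr.det_le (orth_t hΩ) (sq.mono (by linarith))⟩
  rw [GeoP.T_det_eq]
  positivity

/-- a density seen from a neighbouring frame: constant loss -/
lemma den_tr {N : ℕ} {F F' : Fr} {lb : ℝ} {k n : ℕ} (G : Gd (F.pm N lb k)) (G' : Gd (F'.pm N lb k))
    (hO : Orth F.O) (hO' : Orth F'.O) (hQ : 0 < F.Q.det) (hQ' : 0 < F'.Q.det)
    (cp : Cpt (dc N) F F') {M : V → ℝ} (hM : Sm M) {U U' : Set V} {β : ℝ}
    (hU : ∀ z ∈ U, F'.zc (F.zp z) ∈ U') (H : CB n (F'.pm N lb k).hs U' (F'.den M) β) :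
    CB n (F.pm N lb k).hs U (F.den M) (2 * (9 ^ n * β)) := by
  obtain ⟨c1, -, c2, c3⟩ := chg G G' hO hO' hQ hQ' cp
  have hh := fun i => (G.hs_pos i).le
  have K := CB.affine (κ := 3) (b := F'.zc F.z0) (U := U) (fun i => (G'.hs_pos i).le) hh
    (by norm_num) c1 (SmN.of_sm (den_sm F' hM) U') (fun z hz => zc_zp_aff F F' z ▸ hU z hz) H
  rw [den_aff hQ'.ne' M]
  exact (K.smul_le hh ((abs_of_pos c2).trans_le c3)).monoB (by norm_num)

/-! ## the relation -/

lemma gam_ev (c : Pm) {f f1 : V → V} {z : V} (e : f1 =ᶠ[𝓝 z] f) : c.gam f1 =ᶠ[𝓝 z] c.gam f :=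
  e.eventuallyEq_nhds.mono fun w hw => by simp only [Pm.gam, Pm.ca, jm_congr hw, jac_congr hw]

/-- the relation depends on the germs only -/
lemma frel_congr {c : Pm} {f f1 f' f1' : V → V} {z' z : V} {P : FP} (e : f1 =ᶠ[𝓝 z'] f)
    (e' : f1' =ᶠ[𝓝 z] f') (H : FRel c f1 f1' z' z P) : FRel c f f' z' z P := by
  have e1 : Th f f' z' z = Th f1 f1' z' z := by rw [Th, Th, jm_congr e, jm_congr e']
  have e2 : ∀ a b j, pd j (fun w => c.gam f w a b) z' = pd j (fun w => c.gam f1 w a b) z' :=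
    fun a b j => pd_congr ((gam_ev c e).mono fun w hw => by simp only [hw]) j
  have e3 : ∀ a b j, pd j (fun w => c.gam f' w a b) z = pd j (fun w => c.gam f1' w a b) z :=
    fun a b j => pd_congr ((gam_ev c e').mono fun w hw => by simp only [hw]) j
  refine ⟨e'.self_of_nhds.symm.trans (H.mt.trans e.self_of_nhds), H.dl, H.dv,
    (gam_ev c e).self_of_nhds ▸ (gam_ev c e').self_of_nhds ▸ H.dg, e1 ▸ H.th,
    e1 ▸ H.t3, fun d hd hD a b i => ?_⟩
  simp only [e1, e2, e3]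
  exact H.df d hd (fun a b i => e2 a b i ▸ hD a b i) a b i

lemma frel_refl {c : Pm} {f : V → V} {z : V} {P : FP} (hh : ∀ i, 0 ≤ c.hs i) (hj : jac f z ≠ 0)
    (hP : (⟨0, 0, 0, 0, 0, 0, 0, 0⟩ : FP).Le P) : FRel c f f z z P := by
  have e : Th f f z z = 1 := nonsing_inv_mul _ hj.isUnit
  refine FRel.mono (P := ⟨0, 0, 0, 0, 0, 0, 0, 0⟩) ⟨rfl, fun i _ => by simp, by simp,
    fun a b => ?_, fun a b _ => by simp [e], by simp [e], fun d _ _ a b i => ?_⟩ hh hP
  · rw [sub_self]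
    exact Ftr.bm_all (p := fun t => |(0 : Mx) a b| ≤ t) (by simp) (by simp) (by simp) a b
  · simp [e, one_apply]

end GluZ
end
end Pool.Agent.MP_20bec2_an.T3

end MrgPart0

-- ======== part 1: formerly Pool.Agent.MP_20bec2_an.T3.Gst
section MrgPart1

/-! Rows GST and GREL: from the cubes of one colour to the whole space. -/

set_option autoImplicit false
open Set Filter Matrix Topology

namespace Pool.Agent.MP_20bec2_an.T3
noncomputable section
open Classical

namespace Gst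
open Prof GluZ

variable {B : Bk}

lemma K_closed (B : Bk) (g : Cu) (r : ℝ) : IsClosed (B.K g r) :=
  (RX_closed _ _ _).preimage (zc_sm (B.fr g)).continuous

lemma K_locFin (G : B.G) (n1 : 1 ≤ B.N) {r : ℝ} (hr : r ≤ 2) : LocallyFinite fun g => B.K g r :=
  fun p => by
    obtain ⟨g0, h0⟩ := GeoP.cover G n1 p
    refine ⟨_, ev_R G n1 (g := g0) (r' := 6 / 10) (by norm_num) h0,
      (nbr_finite 2 g0).subset fun g ⟨w, h1, h2⟩ => ?_⟩
    exact GeoP.nbr_of G n1 (r := 6 / 10) (r' := 2) (by norm_num) (by norm_num) (by norm_num)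
      (by norm_num) (by norm_num) h2 (R_mono G n1 g hr h1)

lemma K_mono (G : B.G) (n1 : 1 ≤ B.N) (g : Cu) {r r' : ℝ} (h : r ≤ r') : B.K g r ⊆ B.K g r' :=
  fun _ hw => R_mono G n1 g h hw

lemma K_unique (G : B.G) (n1 : 1 ≤ B.N) {r : ℝ} (hr : r ≤ 99 / 100) {g g' : Cu} {w : V}
    (hc : col g = col g') (h : w ∈ B.K g r) (h' : w ∈ B.K g' r) : g = g' :=
  GeoP.col_unique G n1 (r := 99 / 100) (r' := 99 / 100) (by norm_num) (by norm_num) (by norm_num)
    hc (K_mono G n1 g hr h) (K_mono G n1 g' hr h')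

/-- sums with disjoint supports -/
lemma sum_loc {E : Type*} [AddCommMonoid E] {K : Cu → Set V} {p : Cu → Prop} [DecidablePred p]
    {φ : Cu → V → E} (hK : ∀ g, IsClosed (K g)) (hL : LocallyFinite K)
    (hu : ∀ g g' z, p g → p g' → z ∈ K g → z ∈ K g' → g = g')
    (h : ∀ g, p g → ∀ w, w ∉ K g → φ g w = 0) :
    (∀ g, p g → ∀ w ∈ K g, (fun w => ∑ᶠ g, if p g then φ g w else 0) =ᶠ[𝓝 w] φ g) ∧
    ∀ w, (∀ g, p g → w ∉ K g) →
      (fun w => ∑ᶠ g, if p g then φ g w else 0) =ᶠ[𝓝 w] fun _ => 0 := by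
  have ev : ∀ z, ∀ᶠ w in 𝓝 z, ∀ g, w ∈ K g → z ∈ K g := fun z => by
    filter_upwards [hL.iInter_compl_mem_nhds hK z] with w hw g hg
    by_contra h
    exact mem_iInter₂.1 hw g h hg
  refine ⟨fun g hg z hz => (ev z).mono fun w hw => ?_, fun z hz => (ev z).mono fun w hw => ?_⟩
  · show (∑ᶠ g, if p g then φ g w else 0) = φ g w
    rw [finsum_eq_single _ g fun g' hne => ?_, if_pos hg]
    split_ifs with hg'
    exacts [h g' hg' w fun hw' => hne (hu g' g z hg' hg (hw g' hw') hz), rfl]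
  · refine finsum_eq_zero_of_forall_eq_zero fun g => ?_
    split_ifs with hg
    exacts [h g hg w fun hw' => hz g hg (hw g hw'), rfl]

lemma cases (K : Cu → Set V) (p : Cu → Prop) (z : V) :
    (∃ g, p g ∧ z ∈ K g) ∨ ∀ g, p g → z ∉ K g := by
  by_cases h : ∃ g, p g ∧ z ∈ K g
  exacts [.inl h, .inr fun g h1 h2 => h ⟨g, h1, h2⟩]

/-- a germ at a global point, read in a frame -/
lemma fh_germ {F : Fr} (hQ : F.Q.det ≠ 0) (f : V → V) {T S : V → V} {w : V}
    (e : T =ᶠ[𝓝 w] fun v => F.zp (S (F.zc v))) : F.fh (f ∘ T) =ᶠ[𝓝 (F.zc w)] F.fh f ∘ S := by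
  rw [← zp_zc hQ w] at e
  filter_upwards [(zp_sm F).continuous.continuousAt.eventually e] with v hv
  show f (T (F.zp v)) = f (F.zp (S v))
  rw [hv, zc_zp hQ]

lemma fh_germ' {F : Fr} (hQ : F.Q.det ≠ 0) {f f' : V → V} {w : V} (e : f' =ᶠ[𝓝 w] f) :
    F.fh f' =ᶠ[𝓝 (F.zc w)] F.fh f := by
  rw [← zp_zc hQ w] at e
  exact (zp_sm F).continuous.continuousAt.eventually e

lemma jac_fh_pos {F : Fr} (hQ : 0 < F.Q.det) {f : V → V} (hf : Dif f) (z : V) :
    0 < jac (F.fh f) z := by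
  rw [jac_fh F hf.1]
  exact mul_pos hQ (hf.2.2 _)

lemma den_zc {F : Fr} (hQ : F.Q.det ≠ 0) (M : V → ℝ) (w : V) :
    F.den M (F.zc w) = F.Q.det * M w := by rw [Fr.den, zp_zc hQ]

/-- the displacement in a bounded relation -/
lemma disp {c : Pm} (h : Gd c) {f f' : V → V} {z' z : V} {P : FP} (hP : P.Bd c.N)
    (H : FRel c f f' z' z P) : ‖z - z'‖ ≤ (c.N : ℝ) ^ 3 * c.lam := by
  have b := h.big
  have n0 := b.N_pos
  have l0 := h.lam_pos
  have n1 : (1 : ℝ) ≤ c.N := by linarith [b.N_ge, b.J_ge, b.L_ge]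
  have a : ∀ i, c.hs i ≤ (c.N : ℝ) ^ 2 * c.lam := fun i => by
    fin_cases i
    · exact mul_le_mul_of_nonneg_right (h.ro_le.trans (Real.sqrt_le_iff.2
        ⟨by positivity, le_self_pow₀ n1 (by norm_num) |>.trans (le_self_pow₀ (one_le_pow₀ n1)
          (by norm_num))⟩)) l0.le
    · exact le_mul_of_one_le_left l0.le (one_le_pow₀ n1)
    · exact mul_le_mul_of_nonneg_right ((b.np_le (by norm_num)).trans_eq (np_nat c.N 2)) l0.le
  have e : (c.N : ℝ) ^ 3 * c.lam = c.N * (c.N ^ 2 * c.lam) := by ring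
  refine norm_le_of fun i => ?_
  rw [e]
  by_cases hi : i = 2
  · subst hi
    exact H.dv.trans (mul_le_mul hP.2.2.1 (a 2) h.y_pos.le n0.le)
  · exact (H.dl i hi).trans (mul_le_mul hP.2.1 (a i) (h.hs_pos i).le n0.le)

lemma Bd.sml {N : ℕ} {P : FP} (h : P.Bd N) : P.Sml :=
  ⟨h.1.2.2.2.2.2.1, h.2.2.2.2.2.2.1, h.1.2.2.2.2.2.2.1, h.2.2.2.2.2.2.2.1, h.1.2.2.2.2.2.2.2,
    h.2.2.2.2.2.2.2.2⟩

lemma up_nonneg {N : ℕ} (b : Big N) {P : FP} (h : (⟨0, 0, 0, 0, 0, 0, 0, 0⟩ : FP).Le P) :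
    (⟨0, 0, 0, 0, 0, 0, 0, 0⟩ : FP).Le (P.up N) := by
  obtain ⟨p1, p2, p3, p4, p5, p6, p7, p8⟩ := h
  have := b.np_pos (-15); have := b.np_pos (-10)
  simp only [FP.Le, FP.up] at *
  refine ⟨?_, ?_, ?_, ?_, ?_, ?_, ?_, ?_⟩ <;> positivity

/-- the hypothesis `ftr` for the frames of a block -/
def Tr (B : Bk) : Prop := ∀ (k : ℕ) (g g' : Cu) (f f' : V → V) (p' p : V) (P : FP), k ≤ nb B.N →
  Nbr 3 g g' → Sm f → Sm f' → P.Bd B.N →
  (B.c g' k).FS ((B.fr g').fh f) ((B.fr g').fh f') ((B.fr g').zc p') ((B.fr g').zc p) →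
  FRel (B.c g' k) ((B.fr g').fh f) ((B.fr g').fh f') ((B.fr g').zc p') ((B.fr g').zc p) P →
  FRel (B.c g k) ((B.fr g).fh f) ((B.fr g).fh f') ((B.fr g).zc p') ((B.fr g).zc p) (P.up B.N)

lemma ev_tr : EvB fun B => B.G → Big B.N ∧ 2 ≤ B.N ∧ Tr B := by
  filter_upwards [ftr, ev_big, eventually_ge_atTop 2] with N hF hN h2
  rintro B rfl G
  refine ⟨hN, h2, fun k g g' f f' p' p P hk n hf hf' hP s R => ?_⟩
  exact hF _ _ _ k f f' p' p P (GeoP.orth G.toFrOk g) (GeoP.orth G.toFrOk g')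
    (GeoP.det_pos G.toFrOk g) (GeoP.det_pos G.toFrOk g') (G.cp g g' n)
    (Bk.gd G.toFrOk hN g hk).ok (Bk.gd G.toFrOk hN g' hk).ok hf hf' hP s.1 s.2.1 s.2.2.1 s.2.2.2.1
    s.2.2.2.2 R

/-- the relation in the frame of the acting cube, seen from a neighbour -/
lemma Tr.pt (H : Tr B) (G : B.G) {k : ℕ} {g g' : Cu} {f T S : V → V} {w : V} {P : FP}
    (hk : k ≤ nb B.N) (n : Nbr 3 g g') (hf : Sm f) (hT : Sm T) (hP : P.Bd B.N)
    (e : T =ᶠ[𝓝 w] fun v => (B.fr g').zp (S ((B.fr g').zc v)))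
    (s : (B.c g' k).FS ((B.fr g').fh f) ((B.fr g').fh f ∘ S) (S ((B.fr g').zc w)) ((B.fr g').zc w))
    (R : FRel (B.c g' k) ((B.fr g').fh f) ((B.fr g').fh f ∘ S) (S ((B.fr g').zc w))
      ((B.fr g').zc w) P) :
    FRel (B.c g k) ((B.fr g).fh f) ((B.fr g).fh (f ∘ T)) ((B.fr g).zc (T w)) ((B.fr g).zc w)
      (P.up B.N) := by
  have e1 := fh_germ (det_ne G g') f e
  have e2 : S ((B.fr g').zc w) = (B.fr g').zc (T w) := by
    rw [e.eq_of_nhds, zc_zp (det_ne G g')]
  rw [e2] at s R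
  refine H k g g' f (f ∘ T) (T w) w P hk n hf (hf.comp hT) hP
    ⟨s.1, jac_congr e1 ▸ s.2.1, s.2.2.1, s.2.2.2.1.congr fun x hx => ?_, s.2.2.2.2⟩ (R.congr_ev e1)
  obtain rfl : x = _ := hx
  exact jac_congr' e1

end Gst

open Gst Prof GluZ in
theorem gst : GstStmt := by
  filter_upwards [eventually_ge_atTop 1] with N n1
  rintro B rfl G
  refine ⟨fun r _ hr => ⟨K_locFin G n1 hr, fun g => K_closed B g r⟩, fun j p _ r _ hr hp => ?_⟩
  have hK := fun g => K_closed B g r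
  have hL := K_locFin G n1 (hr.trans (by norm_num) : r ≤ 2)
  have hu : ∀ g g' z, p g → p g' → z ∈ B.K g r → z ∈ B.K g' r → g = g' := fun g g' z h h' =>
    K_unique G n1 hr ((hp g h).trans (hp g' h').symm)
  have A : ∀ a : Cu → V → V, (∀ g, p g → Sm (a g) ∧ ∀ z, z ∉ B.R g r → a g z = 0) →
      Sm (fun w => ∑ᶠ g, if p g then (B.fr g).unvd (a g) w else 0) ∧
      (∀ g, p g → ∀ w ∈ B.K g r,
        (fun w => ∑ᶠ g, if p g then (B.fr g).unvd (a g) w else 0) =ᶠ[𝓝 w] (B.fr g).unvd (a g)) ∧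
      ∀ w, (∀ g, p g → w ∉ B.K g r) →
        (fun w => ∑ᶠ g, if p g then (B.fr g).unvd (a g) w else 0) =ᶠ[𝓝 w] fun _ => 0 := by
    intro a ha
    obtain ⟨h1, h2⟩ := sum_loc (φ := fun g => (B.fr g).unvd (a g)) hK hL hu fun g hg w hw => by
      simp only [Fr.unvd, (ha g hg).2 _ hw, mulVec_zero, smul_zero]
    refine ⟨contDiff_iff_contDiffAt.2 fun w => ?_, h1, h2⟩
    rcases cases (fun g => B.K g r) p w with ⟨g, hg, hw⟩ | h
    exacts [(unvd_sm _ (ha g hg).1).contDiffAt.congr_of_eventuallyEq (h1 g hg w hw),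
      contDiffAt_const.congr_of_eventuallyEq (h2 w h)]
  refine ⟨A, fun S a f hf H => ?_⟩
  obtain ⟨-, a1, a2⟩ := A a fun g hg => ⟨(H g hg).2.1, fun z hz => ((H g hg).2.2.1 z hz).2⟩
  obtain ⟨T, sb, t1, t2⟩ := glu (fun g => B.K g r)
    (fun g v => (B.fr g).zp (S g ((B.fr g).zc v))) p hK hL hu fun g hg =>
      ⟨⟨(zp_sm _).comp ((H g hg).1.1.comp (zc_sm _)),
        (zp_bij (det_ne G g)).comp ((H g hg).1.2.comp (GeoP.zc_bij G.toFrOk g))⟩, fun z hz => by
          rw [((H g hg).2.2.1 _ hz).1, zp_zc (det_ne G g)]⟩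
  have sT : Sm (f ∘ T) := hf.1.comp sb.1
  have J : ∀ w, jac (f ∘ T) w = jac f w +
      dv (fun w => ∑ᶠ g, if p g then (B.fr g).unvd (a g) w else 0) w ∧ 0 < jac (f ∘ T) w := by
    intro w
    rcases cases (fun g => B.K g r) p w with ⟨g, hg, hw⟩ | h
    · have d0 := GeoP.det_pos G.toFrOk g
      obtain ⟨e1, e2⟩ := (H g hg).2.2.2 ((B.fr g).zc w)
      rw [← jac_congr (fh_germ d0.ne' f (t1 g hg w hw).1), jac_fh _ sT, den_zc d0.ne'] at e1 e2
      rw [jac_fh _ hf.1, ← den_dv_unvd d0 (H g hg).2.1, den_zc d0.ne', den_zc d0.ne', ← mul_add]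
        at e1
      rw [dv_congr (a1 g hg w hw)]
      exact ⟨mul_left_cancel₀ d0.ne' e1, (pos_iff_pos_of_mul_pos e2).1 d0⟩
    · rw [jac_congr (comp_ev_id (t2 w h)), dv_congr (a2 w h), Glue.dv_zero, add_zero]
      exact ⟨rfl, hf.2.2 w⟩
  exact ⟨T, ⟨sb, fun g hg w hw => (t1 g hg w hw).symm, t2⟩,
    ⟨sT, hf.2.1.comp sb.2, fun w => (J w).2⟩, fun w => (J w).1⟩

open Gst Prof GluZ in
theorem grel : GrelStmt := by
  filter_upwards [ev_tr] with N hT
  rintro B rfl k G hk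
  obtain ⟨big, n2, tr⟩ := hT B rfl G
  have n1 : 1 ≤ B.N := by omega
  have gd := fun g => Bk.gd G.toFrOk big g hk
  have d0 := GeoP.det_pos G.toFrOk
  refine ⟨fun f P r hf hP g p' p e _ => ?_, fun f f1 f2 P P' r h1 hP hP' R R' g p' p e hm => ?_,
    fun p r S f T P _ hr hf gt hP H g p' w e hm => ?_⟩
  · obtain rfl := hf.2.1.1 e
    exact frel_refl (fun i => ((gd g).hs_pos i).le) (jac_fh_pos (d0 g) hf _).ne' hP.1
  · obtain ⟨p1, e1⟩ := h1.2.1.2 (f p')
    have m := K_mono G n1 g (by norm_num : r - 1 / 1000 ≤ r)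
    have k1 : (B.fr g).zc p1 ∈ RX (B.fr g).O (B.c g k).D r := by
      rcases hm with hm | hm
      · simpa using (gd g).RX_move (GeoP.orth G.toFrOk g) hm
          (disp (gd g) hP (R g p' p1 e1 (.inl (m hm))))
      · simpa using (gd g).RX_move (GeoP.orth G.toFrOk g) hm ((norm_sub_rev _ _).trans_le
          (disp (gd g) hP' (R' g p1 p (e.trans e1.symm) (.inr (m hm)))))
    exact FRel.comp (gd g).hs_pos (jac_fh_pos (d0 g) h1 _).ne' (Bd.sml hP) (Bd.sml hP')
      (R g p' p1 e1 (.inr k1)) (R' g p1 p (e.trans e1.symm) (.inl k1))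
  · obtain rfl : T w = p' := hf.2.1.1 e
    rcases cases (fun g => B.K g r) p w with ⟨g', hg', hw⟩ | h
    · obtain ⟨m, ev⟩ := gt.act g' hg' w hw
      have n : Nbr 3 g g' := hm.elim
        (fun h => GeoP.nbr_of G n1 (r := 11 / 10) (r' := 1) (by norm_num) (by norm_num)
          (by norm_num) (by norm_num) (by norm_num) h (K_mono G n1 g' (by linarith) m))
        fun h => GeoP.nbr_of G n1 (r := 11 / 10) (r' := 1) (by norm_num) (by norm_num)
          (by norm_num) (by norm_num) (by norm_num) h (K_mono G n1 g' (by linarith) hw)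
      exact tr.pt G hk n hf.1 gt.sb.1 hP ev ((H g' hg').2 _ hw).1 ((H g' hg').2 _ hw).2
    · rw [(gt.off w h).eq_of_nhds]
      exact FRel.refl_ev (fun i => ((gd g).hs_pos i).le)
        (fh_germ' (d0 g).ne' (comp_ev_id (gt.off w h))) (jac_fh_pos (d0 g) hf _).ne'
        (up_nonneg big hP.1)

end
end Pool.Agent.MP_20bec2_an.T3

end MrgPart1

-- marker of a merged file
example : 731051 + 663978 = 731051 + 663978 := rfl

end MrgPart0

-- ======== part 1: formerly Pool.Agent.MP_20bec2_an.T3.Fmg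
section MrgPart1

/-! Row FMG: the main step of `f` in all cubes of one colour. -/

set_option autoImplicit false
open Set Filter Matrix Topology

namespace Pool.Agent.MP_20bec2_an.T3
noncomputable section
open Classical

namespace Fmg
open Prof GluZ

lemma num {N : ℕ} (h : Big N) : 20000 * qp N (2 / 5) ≤ pq N ∧
    100 * (qp N (2 / 5) * np N (-1 / 20)) ≤ 1 ∧ 100 * (qp N (2 / 5) * (1 / pJ N)) ≤ 1 ∧
    100 * (qp N (2 / 5) / pq N ^ 3) ≤ 1 ∧ np N (-15) ≤ 1 / (N * pJ N ^ 6) ∧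
    np N (-15) ≤ 1 / (√N * pJ N ^ 4) ∧ np N (-10) ≤ 1 / pq N ^ 3 ∧ 1 / (N * pJ N ^ 6) ≤ 1 / pJ N ∧
    1 / (√N * pJ N ^ 4) ≤ 1 / pJ N ∧ 2 * np N (11 / 10) ≤ np N (6 / 5) ∧
    10 ^ 8 * np N (-27 / 100) ≤ 1 := by
  have := h.J_pos; have := h.N_pos; have := h.q_pos; have := h.qp_pos (2 / 5)
  have := h.np_pos (-1 / 20); have := h.np_pos (-10); have := h.np_pos (-15)
  have := h.np_pos (11 / 10); have := h.np_pos (6 / 5); have := h.np_pos (-27 / 100)
  have := h.L_ge; have := h.J_ge; have := log2_bd.2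
  have := (logc_bd (C := 20000) (by norm_num)).2; have := (logc_bd (C := 10) (by norm_num)).2
  have := (logc_bd (C := 100) (by norm_num)).2
  refine ⟨?_, ?_, ?_, ?_, ?_, ?_, ?_, ?_, ?_, ?_, ?_⟩ <;>
    refine le_of_log (by positivity) (by positivity) ?_ <;>
    simp (disch := positivity) only [Real.log_mul, Real.log_div, Real.log_pow, Real.log_one,
      h.log_np, h.log_qp, h.log_N, h.log_J, h.log_q, h.log_sqrtN] <;> push_cast <;> linarith

lemma fpm_bd {N : ℕ} (h : Big N) {A π : ℝ} (a0 : 0 ≤ A) (a1 : A ≤ 2 * (1 / pJ N)) (p0 : 0 ≤ π)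
    (p1 : π ≤ 2 * (1 / pJ N)) : (FPm N A π (qp N (2 / 5))).Bd N := by
  obtain ⟨-, n2, n3, n4, -, -, -, n8, n9, -⟩ := num h
  have := h.J_pos; have := h.N_pos; have := h.q_pos; have t0 := h.qp_pos (2 / 5)
  have := h.np_pos (-1 / 20); have := h.np_pos (-2 / 5)
  have N1 : (1 : ℝ) ≤ N := by linarith [h.N_ge, h.J_ge, h.L_ge]
  have u1 : 1 / pJ N ≤ 1 := (div_le_one h.J_pos).2 (by linarith [h.J_ge, h.L_ge])
  have b1 := mul_le_mul_of_nonneg_left (h.np_le (by norm_num : (-2 / 5 : ℝ) ≤ -1 / 20)) t0.le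
  have b2 : A * (π + A) ≤ 2 * (1 / pJ N) * 4 :=
    mul_le_mul a1 (by linarith) (by linarith) (by positivity)
  have b3 := mul_le_mul_of_nonneg_left (add_le_add b2 n8) t0.le
  have b4 := mul_le_mul_of_nonneg_left (add_le_add a1 n9) t0.le
  simp only [FP.Bd, FP.Le, FPm]
  refine ⟨⟨?_, ?_, ?_, ?_, ?_, ?_, ?_, ?_⟩, ?_, ?_, ?_, ?_, ?_, ?_, ?_, ?_⟩
  iterate 8 positivity
  all_goals linarith

lemma fpm_up {N : ℕ} (h : Big N) {A π A' π' : ℝ} (a0 : 0 ≤ A') (a1 : A' ≤ 2 * A) (p0 : 0 ≤ π')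
    (p1 : π' ≤ 2 * π) : ((FPm N A' π' (qp N (2 / 5))).up N).Le (FPm N A π (pq N)) := by
  obtain ⟨n1, -, -, -, n5, n6, n7, -⟩ := num h
  have := h.J_pos; have := h.N_pos; have q0 := h.q_pos; have t0 := h.qp_pos (2 / 5)
  have t1 : 1 ≤ qp N (2 / 5) := (qp_zero N).symm.trans_le (h.qp_le (by norm_num))
  have key : ∀ {x y e : ℝ}, 0 ≤ y → x ≤ 4 * y → e ≤ y →
      10 ^ 4 / 4 * (qp N (2 / 5) * x) + e ≤ pq N * y := fun {x y e} y0 hx he => by
    nlinarith [mul_le_mul_of_nonneg_left hx t0.le, mul_le_mul_of_nonneg_right n1 y0,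
      mul_le_mul_of_nonneg_right t1 y0]
  have k2 : ∀ {x y e : ℝ}, 0 ≤ x → x ≤ 4 * y → e ≤ y →
      100 * (qp N (2 / 5) * x) + e ≤ pq N * y := fun {x y e} x0 hx he => by
    linarith [key (by linarith) hx he, mul_nonneg t0.le x0]
  have c1 := h.np_pos (-1 / 20); have c2 := h.np_pos (-2 / 5)
  have e1 : 0 < 1 / (N * pJ N ^ 6) := by positivity
  have e2 : 0 < 1 / (√N * pJ N ^ 4) := by positivity
  have e3 : 0 < 1 / pq N ^ 3 := by positivity
  have b2 : A' * (π' + A') ≤ 2 * A * (2 * (π + A)) :=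
    mul_le_mul a1 (by linarith) (by linarith) (by linarith)
  have b3 : 0 ≤ A' * (π' + A') := by positivity
  have d1 := k2 c1.le (by linarith) (h.np_le (by norm_num : (-15 : ℝ) ≤ -1 / 20))
  refine ⟨k2 c2.le (by linarith) (h.np_le (by norm_num)), d1, k2 (by linarith) (by linarith)
    (by linarith), k2 (by linarith) (by linarith) (by linarith), d1, d1,
    le_trans (add_le_add_left ?_ _) d1, ?_⟩
  · show qp N (2 / 5) * _ ≤ _
    linarith [mul_pos t0 c1]
  · have := key (x := 4 * (1 / pq N ^ 3)) e3.le le_rfl n7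
    show 10 ^ 4 * (qp N (2 / 5) / pq N ^ 3) + np N (-10) ≤ pq N / pq N ^ 3
    rw [div_eq_mul_one_div (qp N _), div_eq_mul_one_div (pq N)]
    linarith

lemma dv_cut {c : Pm} (g : Gd c) {O : Mx} {ch : Cu → ℝ → V} {F : V → V} (hF : c.FB O ch F) {C : ℝ}
    (hC : CB 3 c.hs univ (beth O c.D) C) :
    CB 2 c.hs univ (dv (cutF O c.D F)) (24 * C * np c.N (-28 / 100)) := by
  have hh := fun i => (g.hs_pos i).le
  have C0 : 0 ≤ C := hC.nonneg (mem_univ 0)
  have b0 := (g.big.np_pos (-28 / 100)).le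
  refine (CBl.sum_card Finset.univ hh (B := 8 * C * np c.N (-28 / 100))
    (fun i _ => ((cutF_sm O c.D hF.sm).coord i).pd i) fun i _ => ?_).monoB (le_of_eq ?_)
  · by_cases hi : i = 2
    · subst hi
      refine (cbl_zero (by positivity)).congr_fun fun x => ?_
      simp [cutF, hF.f2]
    · refine ((CB.mul hh (beth_sm O c.D) (hF.sm.coord i) hC (hF.cb i hi)).pd_div g.hs_pos i).monoB
        (le_of_eq ?_)
      have := g.hs_pos i
      field_simp
      ring
  · simp only [Finset.card_univ, Fintype.card_fin]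
    push_cast
    ring

lemma mb_add {c : Pm} (g : Gd c) {M m : V → ℝ} {U : Set V} (H : c.MB (2 * eps0) 1 M U) (hM : Sm M)
    (hm : Sm m) (Hm : CB 2 c.hs U m (np c.N (-27 / 100))) :
    c.MB (3 * eps0) 2 (fun z => M z + m z) U := by
  have hh := fun i => (g.hs_pos i).le
  have h1 : np c.N (-27 / 100) ≤ eps0 := by
    have := (num g.big).2.2.2.2.2.2.2.2.2.2
    unfold eps0
    linarith
  have h2 : eps0 ≤ c.q := le_trans (by unfold eps0; norm_num) g.big.q_ge
  refine ⟨fun z hz => ?_, (H.2.1.add hh hM hm Hm).monoB (by linarith),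
    (H.2.2.add hh hM hm Hm.toCL).monoB (by
      linarith [g.big.np_le (by norm_num : (-27 / 100 : ℝ) ≤ -26 / 100)])⟩
  have := abs_add_le (M z - 1) (m z)
  rw [sub_add_eq_add_sub] at this
  linarith [H.1 z hz, Hm.val hz]

lemma hs_D {c : Pm} (g : Gd c) (i : Fin 3) : |c.hs i| ≤ 1 * c.D := by
  rw [abs_of_pos (g.hs_pos i), one_mul]
  exact (Ftr.hs_bd g i).2.trans (mul_le_mul (np_nat c.N 4).le g.lam_le_lb g.lam_pos.le
    (by positivity))

lemma dv_congr' {Z Z' : V → V} {x : V} (h : Z =ᶠ[𝓝 x] Z') : dv Z =ᶠ[𝓝 x] dv Z' :=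
  h.eventually_nhds.mono fun _ e => dv_congr e

end Fmg

open Fmg Gst Prof GluZ in
theorem fmg (h : FmainStmt) : FmgStmt := by
  obtain ⟨C, C1, hC⟩ := cb_cut 3
  filter_upwards [h, gst, ev_tr, ev_CqJ_np (4000 * C) 0 0 (by norm_num : (0 : ℝ) < 1 / 100)]
    with N h hG hT hN
  rintro B rfl k j f ch F G hk hf hM hc
  obtain ⟨big, n2, tr⟩ := hT B rfl G
  have n1 : 1 ≤ B.N := by omega
  have gd := fun g => Bk.gd G.toFrOk big g hk
  have d0 := GeoP.det_pos G.toFrOk
  have ot := GeoP.orth G.toFrOk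
  have hD := D_pos G n1
  have b0 := big.np_pos (-28 / 100)
  have hN' : 4000 * C * np B.N (-28 / 100) ≤ np B.N (-27 / 100) := by
    rw [qp_zero, Jp_zero, mul_one, mul_one] at hN
    rw [show (-27 / 100 : ℝ) = 1 / 100 + -28 / 100 by norm_num, big.np_add]
    exact mul_le_mul_of_nonneg_right hN b0.le
  have hb : 0 < C * np B.N (-28 / 100) := by positivity
  have M0 : ∀ g, (B.c g k).MB (2 * eps0) 1 (jac ((B.fr g).fh f)) (B.R g (98 / 100)) := fun g =>
    jac_fh (B.fr g) hf.1 ▸ hM g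
  choose! S s1 s2 s3 s4 s5 s6 using fun g (hg : col g = j) =>
    h (B.c g k) rfl (gd g).ok (B.fr g).O ((B.fr g).fh f) (ch g) (F g) (ot g) (fh_sm _ hf.1)
      (jac_fh_pos (d0 g) hf) ⟨fun z hz => (M0 g).1 z (R_mono G n1 g (by norm_num) hz),
        (M0 g).2.1.monoU (R_mono G n1 g (by norm_num)),
        (M0 g).2.2.monoU (R_mono G n1 g (by norm_num))⟩ (hc g hg).1 (hc g hg).2
  set a := fun g => cutF (B.fr g).O B.D (F g)
  have sa : ∀ g, col g = j → Sm (a g) := fun g hg => cutF_sm _ _ (hc g hg).2.sm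
  have ca : ∀ g, col g = j → CB 2 (B.c g k).hs univ (dv (a g)) (24 * C * np B.N (-28 / 100)) :=
    fun g hg => by
      have := dv_cut (gd g) (hc g hg).2
        ((hC (B.fr g).O (B.c g k).D (ot g) hD).2 _ 1 le_rfl (hs_D (gd g))).1.2.2
      exact this
  have M1 : ∀ g, col g = j →
      (B.c g k).MB (3 * eps0) 2 (jac ((B.fr g).fh f ∘ S g)) (B.R g (98 / 100)) := fun g hg => by
    rw [funext (s4 g hg)]
    exact mb_add (gd g) (M0 g) (fh_sm _ hf.1).jac (sa g hg).dv
      (((ca g hg).monoU (subset_univ _)).monoB (le_trans (by linarith) hN'))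
  have a0 : ∀ g z, z ∉ B.R g (955 / 1000) → a g z = 0 := fun g z hz => by
    simp only [a, cutF, beth_zero hD fun h => hz (R_mono G n1 g (by norm_num) h), zero_smul]
  obtain ⟨A, hT⟩ := (hG B rfl G).2 j (fun g => col g = j) (955 / 1000) (by norm_num) (by norm_num)
    fun _ => id
  obtain ⟨A1, A2, A3⟩ := A a fun g hg => ⟨sa g hg, a0 g⟩
  obtain ⟨T, gt, dT, jT⟩ := hT S a f hf fun g hg => ⟨⟨s1 g hg, s2 g hg⟩, sa g hg,
    fun z hz => ⟨s3 g hg z hz, a0 g z hz⟩, fun z => ⟨s4 g hg z, by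
      by_cases hz : z ∈ B.R g (955 / 1000)
      · have := (abs_le.1 ((M1 g hg).1 z (R_mono G n1 g (by norm_num) hz))).1
        unfold eps0 at this
        linarith
      · rw [jac_congr (comp_ev_id (ev_id_off (RX_closed _ _ _) (s3 g hg) hz))]
        exact jac_fh_pos (d0 g) hf z⟩⟩
  have nb : ∀ {g g' : Cu} {z : V}, z ∈ B.R g (105 / 100) → (B.fr g).zp z ∈ B.K g' (955 / 1000) →
      Nbr 3 g g' := fun {g g' z} hz hw =>
    GeoP.nbr_of G n1 (r := 105 / 100) (r' := 955 / 1000) (by norm_num) (by norm_num) (by norm_num)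
      (by norm_num) (by norm_num) ((zc_zp (d0 g).ne' z).symm ▸ hz) hw
  refine ⟨f ∘ T, dT, A1, jT, fun g => ?_, fun g z' hz' => ?_⟩
  · have e : (B.fr g).den (jac (f ∘ T)) =
        fun z => (B.fr g).den (jac f) z + (B.fr g).den (dv (B.glF j F)) z := funext fun z => by
      rw [Fr.den, jT, mul_add]
      rfl
    rw [e]
    refine mb_add (gd g) (hM g) (den_sm _ hf.1.jac) (den_sm _ A1.dv) (cbl_of_local fun z hz => ?_)
    rcases cases (fun g => B.K g (955 / 1000)) (fun g => col g = j) ((B.fr g).zp z) with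
      ⟨g', hg', hw⟩ | hw
    · have K := den_tr (U := {z}) (gd g) (gd g') (ot g) (ot g') (d0 g) (d0 g')
        (G.cp g g' (nb (R_mono G n1 g (by norm_num) hz) hw)) (unvd_sm (B.fr g') (sa g' hg')).dv
        (fun _ _ => mem_univ _) ((den_dv_unvd (d0 g') (sa g' hg')).symm ▸ ca g' hg')
      refine (K.congr fun x hx => ?_).monoB (le_trans (by linarith) hN')
      obtain rfl : x = z := hx
      exact den_ev _ (dv_congr' (A2 g' hg' _ hw))
    · refine (cbl_zero (big.np_pos _).le).congr fun x hx => ?_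
      obtain rfl : x = z := hx
      refine (den_ev _ (dv_congr' (A3 _ hw))).trans (Eventually.of_forall fun y => ?_)
      rw [Fr.den, Glue.dv_zero, mul_zero]
  · rw [nw_comp B g hf.2.1.1 gt.sb.2]
    have eT := Function.rightInverse_invFun gt.sb.2.2 ((B.fr g).zp z')
    generalize Function.invFun T ((B.fr g).zp z') = w at eT
    have ez : z' = (B.fr g).zc (T w) := by rw [eT, zc_zp (d0 g).ne']
    have l0 := (gd g).lam_pos
    rcases cases (fun g => B.K g (955 / 1000)) (fun g => col g = j) w with ⟨g', hg', hw⟩ | hw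
    · obtain ⟨m, ev⟩ := gt.act g' hg' w hw
      have n := nb hz' (eT ▸ m)
      have e2 : (B.fr g').zc (T w) = S g' ((B.fr g').zc w) := by
        rw [ev.eq_of_nhds, zc_zp (d0 g').ne']
      have m2 := R_mono G n1 g' (by norm_num : (955 / 1000 : ℝ) ≤ 96 / 100) m
      refine ⟨?_, fun A π a0 a1 p0 p1 H => ?_⟩
      · rw [ez, norm_sub_rev]
        refine (GeoP.nbr_zc G.toFrOk n2 n _ _).trans ?_
        rw [e2]
        have := mul_le_mul_of_nonneg_right (num big).2.2.2.2.2.2.2.2.2.1 l0.le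
        have h5 : _ ≤ np B.N (11 / 10) * (B.c g k).lam := s5 g' hg' ((B.fr g').zc w)
        linarith
      · rw [← eT] at H
        obtain ⟨a', π', q1, q2, q3, q4, q5, q6, q7, q8, q9⟩ := H g' hg' m2
        rw [e2] at q7 q8 q9 m2
        have r0 : 0 ≤ √((B.c g' k).bb / B.N) * a' := by positivity
        have m3 := R_mono G n1 g' (by norm_num : (96 / 100 : ℝ) ≤ 98 / 100) m2
        have m4 := R_mono G n1 g' (by norm_num : (955 / 1000 : ℝ) ≤ 98 / 100) hw
        have q0 := (gd g').q_pos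
        rw [ez]
        refine (tr.pt G hk n hf.1 gt.sb.1 (fpm_bd big r0 (by linarith) q3 (by linarith)) ev
          ⟨((M0 g').1 _ m3).trans (by unfold eps0; norm_num),
            ((M1 g' hg').1 _ m4).trans (by unfold eps0; norm_num),
            (((M0 g').2.1.of_le one_le_two).monoU (singleton_subset_iff.2 m3)).monoB (by linarith),
            (((M1 g' hg').2.1.of_le one_le_two).monoU (singleton_subset_iff.2 m4)).monoB
              (by linarith), (q7.gw zero_le_two).eb10 (gd g') (by norm_num)⟩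
          (s6 g' hg' _ a' π' q1 q2 q3 q4 m2 q7 q8 q9)).mono' (gd g) (fpm_up big r0 q5 q3 q6)
    · have e := gt.off w hw
      rw [ez, e.eq_of_nhds]
      refine ⟨by simpa using mul_nonneg (big.np_pos _).le l0.le, fun A π a0 _ p0 _ _ =>
        FRel.refl_ev (fun i => ((gd g).hs_pos i).le) (fh_germ' (d0 g).ne' (comp_ev_id e))
          (jac_fh_pos (d0 g) hf _).ne' ?_⟩
      have := big.J_pos; have := big.q_pos
      have := big.np_pos (-1 / 20); have := big.np_pos (-2 / 5)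
      simp only [FP.Le, FPm]
      refine ⟨?_, ?_, ?_, ?_, ?_, ?_, ?_, ?_⟩ <;> positivity

end
end Pool.Agent.MP_20bec2_an.T3

end MrgPart1

-- ======== part 2: formerly Pool.Agent.MP_20bec2_an.T3.Gabs
section MrgPart2

-- ======== part 0: formerly Pool.Agent.MP_20bec2_an.T3.GabsB
section MrgPart0

/-! Row GABS, part 2: three slides in one cube. -/

set_option autoImplicit false
open MeasureTheory Set Filter Matrix Topology

namespace Pool.Agent.MP_20bec2_an.T3
noncomputable section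
open Classical

namespace Gab

/-- a bijection that is the identity off `K` maps `K` to `K` -/
lemma maps_of_id {S : V → V} {K : Set V} (hS : Function.Injective S) (h : ∀ z, z ∉ K → S z = z)
    {z : V} (hz : z ∈ K) : S z ∈ K := by
  by_contra hn
  rw [hS (h _ hn)] at hn
  exact hn hz

lemma SB'.comp {S T : V → V} (hS : SB' S) (hT : SB' T) : SB' (S ∘ T) :=
  ⟨hS.1.comp hT.1, hS.2.comp hT.2⟩

lemma mw_mono {c : Pm} (G : Gd c) {e t e' t' : ℝ} {M : V → ℝ} {U U' : Set V} (H : c.MW e t M U)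
    (he : e ≤ e') (ht : t ≤ t') (hU : U' ⊆ U) : c.MW e' t' M U' :=
  ⟨fun z hz => (H.1 z (hU hz)).trans he,
    CBl.monoU (CBl.monoB H.2.1 (mul_le_mul_of_nonneg_right ht G.q_pos.le)) hU,
    CBl.monoU (CBl.monoB H.2.2 (mul_le_mul_of_nonneg_right ht (G.big.np_pos _).le)) hU⟩

lemma mw_sub {c : Pm} (G : Gd c) {e t δ : ℝ} {M g : V → ℝ} {U : Set V} (hM : Sm M) (hg : Sm g)
    (H : c.MW e t M U) (Hg : CB 2 c.hs U g δ) (hδ : δ ≤ np c.N (-245 / 1000)) :
    c.MW (e + δ) (t + 1) (fun z => M z - g z) U := by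
  have h0 : ∀ i, 0 ≤ c.hs i := fun i => (G.hs_pos i).le
  have q1 : 10000000 ≤ c.q := G.big.q_ge
  have := sml G.big (a := -245 / 1000) (by norm_num)
  refine ⟨fun z hz => ?_, CBl.monoB (CBl.sub h0 hM hg H.2.1 Hg) (by linarith),
    CBl.monoB (CBl.sub h0 hM hg H.2.2 Hg.toCL) (by linarith)⟩
  have a1 := abs_le.1 (H.1 z hz); have a2 := abs_le.1 (Hg.val hz)
  exact abs_le.2 ⟨by linarith, by linarith⟩

lemma gw_step {c : Pm} {f f' : V → V} {z' z : V} {P : FP} {t s : ℝ} (H : FRel c f f' z' z P)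
    (hG : c.GW f z' t) (h1 : P.eg ≤ s * (c.J ^ 4 / c.N)) (h2 : P.eh ≤ s * hc c.N)
    (h3 : P.ek ≤ s * (1 / 10)) : c.GW f' z (t + s) := fun a b => by
  have e : (c.gam f' z - c.gref) a b =
      (c.gam f' z - c.gam f z') a b + (c.gam f z' - c.gref) a b := by
    simp only [Matrix.sub_apply]; ring
  have k := bm_mono h1 h2 h3 a b
  have k1 := hG a b
  have k2 := H.dg a b
  have k3 : bm (s * (c.J ^ 4 / c.N)) (s * hc c.N) (s * (1 / 10)) a b =
      s * bm (c.J ^ 4 / c.N) (hc c.N) (1 / 10) a b := by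
    fin_cases a <;> fin_cases b <;> simp [bm]
  rw [e, Matrix.smul_apply, smul_eq_mul]
  rw [Matrix.smul_apply, smul_eq_mul] at k1
  linarith [abs_add_le ((c.gam f' z - c.gam f z') a b) ((c.gam f z' - c.gref) a b)]

lemma tab_pos {c : Pm} (G : Gd c) (a b : Fin 3) : 0 < bm (c.J ^ 4 / c.N) (hc c.N) (1 / 10) a b := by
  have := G.J4N_pos; have := G.big.hc_pos
  fin_cases a <;> fin_cases b <;> simp [bm] <;> assumption

lemma gw_mono {c : Pm} (G : Gd c) {f : V → V} {z : V} {t t' : ℝ} (H : c.GW f z t) (ht : t ≤ t') :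
    c.GW f z t' := fun a b => (H a b).trans (mul_le_mul_of_nonneg_right ht (tab_pos G a b).le)

lemma tab_ge {N : ℕ} (h : Big N) : np N (-1) ≤ pJ N ^ 4 / N ∧ np N (-1 / 2) ≤ hc N ∧
    pJ N ^ 4 / N ≤ 1 ∧ hc N ≤ 1 := by
  have := h.J_pos; have := h.N_pos; have := h.hc_pos; have := h.np_pos (-1)
  have := h.np_pos (-1 / 2); have := h.L_ge; have := h.J_ge
  have := logc_bd (C := 3) (by norm_num)
  refine ⟨?_, ?_, ?_, ?_⟩ <;> refine le_of_log (by positivity) (by positivity) ?_ <;>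
    simp (disch := positivity) only [Real.log_div, Real.log_pow, Real.log_one, h.log_np, h.log_N,
      h.log_J, h.log_hc] <;> push_cast <;> linarith

/-- common bound of a lateral slide -/
def FQ (N : ℕ) : FP :=
  ⟨np N (-7), 0, np N (-7), np N (-7), np N (-7), np N (-7), 0, np N (-7)⟩

lemma fl_le {N : ℕ} (h : Big N) : (FPl N (np N (-9))).Le (FQ N) := by
  have a1 := cJ h (C := 1) (a := -9) (b := -7) 22 (by norm_num) (by norm_num) (by norm_num)
  have a2 : ∀ a : ℝ, a ≤ 2 → np N a * np N (-9) ≤ np N (-7) := fun a ha => by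
    rw [← h.np_add]; exact h.np_le (by linarith)
  have a3 : Real.sqrt N = np N (1 / 2) := Real.sqrt_eq_rpow _
  have a4 := a2 1 (by norm_num)
  have a5 := a2 (1 / 2) (by norm_num)
  rw [← a3] at a5
  rw [np_one] at a4
  rw [one_mul] at a1
  exact ⟨a1, le_rfl, cN h (by norm_num) (by norm_num), a5, a2 _ (by norm_num),
    a1, le_rfl, a4⟩

lemma wL_le {c : Pm} (G : Gd c) : np c.N (-19 / 2) * c.wL ≤ np c.N (-9) ∧
    np c.N (-9) ≤ 1 / (c.N * c.J ^ 9) := by
  have b := G.big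
  have := G.c1_pos; have := G.c2_pos; have := G.lam_pos; have := G.l1_pos
  have := b.np_pos (-19 / 2); have := b.np_pos (-9); have := b.np_pos (1 / 2)
  have := G.N_pos; have := G.J_pos; have := b.L_ge; have := b.J_ge
  have h1 : c.wL ≤ np c.N (1 / 2) := by
    refine max_le ((np_zero _).symm.trans_le (b.np_le (by norm_num)))
      (le_of_log (by positivity) (by positivity) ?_)
    simp (disch := positivity) only [Real.log_div, Real.log_mul, b.log_np, G.log_c1, G.log_c2,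
      G.log_l1]
    linarith [G.log_K, G.log_K_bd.2, G.log_η_le, G.log_ro_bd.1]
  constructor
  · refine (mul_le_mul_of_nonneg_left h1 (b.np_pos _).le).trans ?_
    rw [← b.np_add]; exact b.np_le (by norm_num)
  · refine le_of_log (by positivity) (by positivity) ?_
    simp (disch := positivity) only [Real.log_div, Real.log_mul, Real.log_pow, Real.log_one,
      b.log_np, b.log_N, G.log_J]
    push_cast
    linarith

lemma cmp3 {N : ℕ} (h : Big N) : (FPv N (32 / 10 * eps0)).Sml ∧ (FQ N).Sml ∧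
    ((FPv N (32 / 10 * eps0)).cmp (FQ N)).Sml ∧
    (((FPv N (32 / 10 * eps0)).cmp (FQ N)).cmp (FQ N)).Le (FPg N) := by
  have p0 := h.np_pos (-7); have p1 := h.np_pos (-1 / 5); have p2 := h.np_pos (-1 / 10)
  have s0 := sml h (a := -7) (by norm_num)
  have s1 := sml h (a := -1 / 5) (by norm_num)
  have s2 := sml h (a := -1 / 10) (by norm_num)
  have m1 : np N (-1 / 5) * np N (-7) ≤ 1 / 10 ^ 9 * (1 / 10 ^ 9) := mul_le_mul s1 s0 p0.le (by norm_num)
  have m2 : np N (-7) * np N (-7) ≤ 1 / 10 ^ 9 * (1 / 10 ^ 9) := mul_le_mul s0 s0 p0.le (by norm_num)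
  have m3 := mul_pos p1 p0
  have l : ∀ a : ℝ, -7 ≤ a → np N (-7) ≤ np N a := fun a ha => h.np_le ha
  have a1 := cN h (C := 2) (a := -7) (b := -5) (by norm_num) (by norm_num)
  have a2 := cN h (C := 3) (a := -11 / 10) (b := -109 / 100) (by norm_num) (by norm_num)
  have a3 := cN h (C := 3) (a := -3 / 5) (b := -59 / 100) (by norm_num) (by norm_num)
  have a4 := cN h (C := 3) (a := -1) (b := -1 / 2) (by norm_num) (by norm_num)
  have a5 := cN h (C := 10) (a := -1 / 5) (b := -19 / 100) (by norm_num) (by norm_num)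
  have a6 := cN h (C := 36) (a := -1 / 10) (b := -9 / 100) (by norm_num) (by norm_num)
  have l2 := l (-11 / 10) (by norm_num); have l3 := l (-3 / 5) (by norm_num)
  have l4 := l (-1) (by norm_num); have l5 := l (-1 / 5) (by norm_num)
  have l6 := l (-1 / 10) (by norm_num)
  have p3 := h.qp_pos (13 / 10)
  simp only [FP.Sml, FP.Le, FP.cmp, FPv, FQ, FPg, eps0]
  refine ⟨⟨?_, ?_, ?_, ?_, ?_, ?_⟩, ⟨?_, ?_, ?_, ?_, ?_, ?_⟩, ⟨?_, ?_, ?_, ?_, ?_, ?_⟩,
    ?_, ?_, ?_, ?_, ?_, ?_, ?_, ?_⟩ <;> linarith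

end Gab

open Gab in
theorem gab1 (hV : VsStmt) (hL : LsStmt) : Gab1Stmt := by
  filter_upwards [ev_gd, hV, hL] with N hN hV hL c hc ho O f a hO hf hj ha hs M0 M1 a1 a2 a3 gw
  have G := hN c hc ho
  have b := G.big
  have hh := G.hs_pos
  have h0 : ∀ i, 0 ≤ c.hs i := fun i => (hh i).le
  have pl := G.lam_pos; have py := G.y_pos; have pD := G.D_pos
  have pb := b.np_pos (-19 / 2)
  have cK := Prof.RX_closed O c.D (9 / 10)
  have sU : RX O c.D (9 / 10) ⊆ RX O c.D (95 / 100) := Prof.RX_mono O pD.le (by norm_num)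
  have sU' : RX O c.D (9 / 10 + 1 / 1000) ⊆ RX O c.D (95 / 100) := Prof.RX_mono O pD.le (by norm_num)
  have z0 : ∀ i z, z ∉ RX O c.D (9 / 10) → a z i = 0 := fun i z hz => by rw [hs z hz]; rfl
  have zd : ∀ i z, z ∉ RX O c.D (9 / 10) → pd i (fun z => a z i) z = 0 := fun i z hz =>
    pds_zero_off cK (z0 i) [i] z hz
  have ext : ∀ {P : List (Fin 3) → Prop} {i : Fin 3} {B : ℝ}, 0 ≤ B →
      CBl P c.hs (RX O c.D (95 / 100)) (fun z => a z i) B → CBl P c.hs univ (fun z => a z i) B :=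
    fun hB H => CBl.extend (CBl.monoU H fun z hz => sU hz.2) cK (z0 _) hB
  have c1 : ∀ i, i ≠ 2 → CB 3 c.hs univ (fun z => a z i) (np c.N (-19 / 2) * c.hs i) := fun i hi =>
    CBl.monoB (ext (by positivity) (a1 i hi)) (mul_le_mul_of_nonneg_left (hs_le G i).1 pb.le)
  have d1 : ∀ i, i ≠ 2 → CB 2 c.hs (RX O c.D (95 / 100)) (pd i fun z => a z i) (np c.N (-19 / 2)) :=
    fun i hi => CBl.monoU (CBl.monoB (CB.pd_div hh (c1 i hi) i) ((div_le_iff₀ (hh i)).2 le_rfl))
      (subset_univ _)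
  have n1 : np c.N (-19 / 2) ≤ np c.N (-245 / 1000) := b.np_le (by norm_num)
  have n2 : np c.N (-19 / 2) ≤ 1 / 10 ^ 10 := by
    have := cN b (C := 10) (a := -19 / 2) (b := -1) (by norm_num) (by norm_num)
    linarith [sml b (a := -1) (by norm_num)]
  have s0 := (ha.coord 0).pd 0; have s1 := (ha.coord 1).pd 1
  have sT : Sm fun z => jac f z + dv a z := hf.jac.add ha.dv
  have W2 := mw_sub G sT s1 M1 (d1 1 (by decide)) n1
  have W1 := mw_sub G (sT.sub s1) s0 W2 (d1 0 (by decide)) n1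
  have e1 : (fun z => jac f z + dv a z - pd 1 (fun z => a z 1) z - pd 0 (fun z => a z 0) z) =
      fun z => jac f z + pd 2 (fun z => a z 2) z := by
    funext z; simp only [dv, Fin.sum_univ_three]; ring
  rw [e1] at W1
  have pos : ∀ {M : V → ℝ} {e t : ℝ}, c.MW e t M (RX O c.D (95 / 100)) → e < 1 →
      (∀ z, z ∉ RX O c.D (9 / 10) → M z = jac f z) → ∀ z, 0 < M z := fun H he hz z => by
    by_cases h : z ∈ RX O c.D (9 / 10)
    · linarith [(abs_le.1 (H.1 z (sU h))).1]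
    · rw [hz z h]; exact hj z
  have zv : ∀ z, z ∉ RX O c.D (9 / 10) → dv a z = 0 := fun z hz => by
    simp only [dv, Fin.sum_univ_three, zd _ z hz, add_zero]
  obtain ⟨Sv, bv, iv, jv, rv⟩ := hV c hc ho O (9 / 10) (32 / 10 * eps0) f (fun z => a z 2) hO hf hj
    (ha.coord 2) (by norm_num [eps0]) (z0 2) (mw_mono G M0 (by norm_num [eps0]) (by norm_num) sU')
    (fun z hz => (W1.1 z (sU hz)).trans (by simp only [eps0]; linarith))
    (ext (by have := b.qp_pos (6 / 5); positivity) a2)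
    (ext (by have := b.np_pos (-24 / 100); positivity) a3)
  have j1 : jac (f ∘ Sv) = fun z => jac f z + pd 2 (fun z => a z 2) z := funext jv
  have p1 : ∀ z, 0 < jac (f ∘ Sv) z := j1 ▸ pos W1 (by simp only [eps0]; linarith)
    fun z hz => by simp only [zd _ z hz, add_zero]
  have pA1 : 1 ≤ pA c.N := one_le_pow₀ (one_le_J b)
  have lat : ∀ (i : Fin 3) (g : V → V), i ≠ 2 → Sm g → (∀ z, 0 < jac g z) →
      c.MW (1 / 100) 50 (jac g) (RX O c.D (9 / 10 + 1 / 1000)) →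
      ∃ S, SB' S ∧ (∀ z, z ∉ RX O c.D (9 / 10) → S z = z) ∧
        (∀ z, jac (g ∘ S) z = jac g z + pd i (fun z => a z i) z) ∧
        ∀ z ∈ RX O c.D (9 / 10), c.GW g (S z) 3 → FRel c g (g ∘ S) (S z) z (FQ c.N) :=
    fun i g hi hg hp hM => by
      obtain ⟨S, k1, k2, k3, -, k5⟩ := hL c hc ho O (9 / 10) g i (fun z => a z i)
        (np c.N (-19 / 2)) (np c.N (-9)) hi hO hg hp (ha.coord i) pb.le (wL_le G).1 (wL_le G).2
        (z0 i) hM (fun z => ((c1 i hi).val (mem_univ z)).trans (by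
          rw [mul_assoc]; exact le_mul_of_one_le_left (mul_pos pb (hh i)).le pA1))
        ((c1 i hi).of_le (by norm_num)).toCV
      exact ⟨S, k1, fun z hz => k2 z (z0 i z hz), k3,
        fun z hz hw => ((k5 z hz).2 hw).mono h0 (fl_le b)⟩
  obtain ⟨S0, b0, i0, j0, r0⟩ := lat 0 (f ∘ Sv) (by decide) (hf.comp bv.1) p1
    (j1 ▸ mw_mono G W1 (by simp only [eps0]; linarith) (by norm_num) sU')
  have j2 : jac ((f ∘ Sv) ∘ S0) = fun z => jac f z + dv a z - pd 1 (fun z => a z 1) z := by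
    funext z; rw [j0, jv]; simp only [dv, Fin.sum_univ_three]; ring
  have p2 : ∀ z, 0 < jac ((f ∘ Sv) ∘ S0) z := j2 ▸ pos W2 (by simp only [eps0]; linarith)
    fun z hz => by simp only [zd _ z hz, zv z hz, add_zero, sub_zero]
  obtain ⟨S1, b1, i1, j3, r1⟩ := lat 1 ((f ∘ Sv) ∘ S0) (by decide) ((hf.comp bv.1).comp b0.1) p2
    (j2 ▸ mw_mono G W2 (by simp only [eps0]; linarith) (by norm_num) sU')
  have iv' : ∀ z, z ∉ RX O c.D (9 / 10) → Sv z = z := fun z hz => iv z (z0 2 z hz)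
  have j4 : ∀ z, jac (f ∘ Sv ∘ S0 ∘ S1) z = jac f z + dv a z := fun z =>
    (j3 z).trans (by rw [j2]; ring)
  refine ⟨Sv ∘ S0 ∘ S1, SB'.comp bv (SB'.comp b0 b1), fun z hz => ?_, fun z => ⟨j4 z, ?_⟩,
    fun z hz => ?_⟩
  · simp only [Function.comp, i1 z hz, i0 z hz, iv' z hz]
  · rw [j4]
    exact pos M1 (by norm_num [eps0]) (fun z hz => by simp only [zv z hz, add_zero]) z
  · have m2 := maps_of_id b1.2.1 i1 hz
    have m1 := maps_of_id b0.2.1 i0 m2
    have m0 := maps_of_id bv.2.1 iv' m1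
    obtain ⟨t1, t2, -, -⟩ := tab_ge b
    obtain ⟨u1, u2, u3, u4⟩ := cmp3 b
    have x1 := cN b (C := 2) (a := -11 / 10) (b := -1) (by norm_num) (by norm_num)
    have x2 := cN b (C := 2) (a := -3 / 5) (b := -1 / 2) (by norm_num) (by norm_num)
    have x3 := sml b (a := -1) (by norm_num)
    have x4 : np c.N (-7) ≤ np c.N (-11 / 10) := b.np_le (by norm_num)
    have x5 : np c.N (-7) ≤ np c.N (-3 / 5) := b.np_le (by norm_num)
    have x6 := sml b (a := -7) (by norm_num)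
    have g0 := gw _ m0
    have R0 := rv _ m1 (gw_mono G g0 (by norm_num))
    have g1 := gw_step (s := 1 / 2) R0 g0 (by simp only [FPv, Pm.J]; linarith)
      (by simp only [FPv]; linarith) (by simp only [FPv]; linarith)
    have R1 := r0 _ m2 (gw_mono G g1 (by norm_num))
    have g2 := gw_step (s := 1 / 2) R1 g1 (by simp only [FQ, Pm.J]; linarith)
      (by simp only [FQ]; linarith) (by simp only [FQ]; linarith)
    have R2 := r1 _ hz (gw_mono G g2 (by norm_num))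
    exact ((R0.comp hh (p1 _).ne' u1 u2 R1).comp hh (p2 _).ne' u3 u2 R2).mono h0 u4

end
end Pool.Agent.MP_20bec2_an.T3

end MrgPart0

-- ======== part 1: formerly Pool.Agent.MP_20bec2_an.T3.Gabs
section MrgPart1

/-! Row GABS: absorption of a small flux, colour by colour. -/

set_option autoImplicit false
open MeasureTheory Set Filter Matrix Topology

namespace Pool.Agent.MP_20bec2_an.T3
noncomputable section
open Classical

namespace Gab

/-- the table after `j` colours -/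
def Pj (N j : ℕ) : FP :=
  ⟨j * np N (-1), j * qp N (27 / 20), j * np N (-107 / 100), j * np N (-57 / 100),
    j * np N (-1 / 5), 4 ^ j * np N (-3 / 20), j * (12 / 10 ^ 8), 8 ^ j * np N (-1 / 20)⟩
/-- the table of one colour -/
def P1 (N : ℕ) : FP :=
  ⟨np N (-1), qp N (27 / 20), np N (-107 / 100), np N (-57 / 100), np N (-1 / 5), np N (-3 / 20),
    11 / 10 ^ 8, np N (-1 / 20)⟩

section num
variable {N : ℕ}

lemma bd_of (h : Big N) {P : FP} (h0 : (⟨0, 0, 0, 0, 0, 0, 0, 0⟩ : FP).Le P) (h1 : P.Le (FPs N)) :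
    P.Bd N := by
  obtain ⟨l1, l2, l3, l4, l5, l6, l7, l8⟩ := h1
  have a1 := sml h (a := -2 / 5) (by norm_num); have a2 := sml h (a := -21 / 20) (by norm_num)
  have a3 := sml h (a := -11 / 20) (by norm_num); have a4 := sml h (a := -1 / 10) (by norm_num)
  have a5 := sml h (a := -1 / 100) (by norm_num)
  have a6 := h.N_ge; have a7 := one_le_J h
  have a8 : qp N (7 / 5) ≤ N := le_of_log (h.qp_pos _) h.N_pos (by
    rw [h.log_qp, h.log_N]; linarith [h.J_ge, h.L_ge])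
  simp only [FPs] at l1 l2 l3 l4 l5 l6 l7 l8
  refine ⟨h0, ?_, ?_, ?_, ?_, ?_, ?_, ?_, ?_⟩ <;> linarith

lemma up_le (h : Big N) : ((FPg N).up N).Le (P1 N) := by
  have l : ∀ a : ℝ, -15 ≤ a → np N (-15) ≤ np N a := fun a ha => h.np_le ha
  have a1 := cN h (C := 101) (a := -5) (b := -1) (by norm_num) (by norm_num)
  have a2 := cq h (C := 201) (a := 13 / 10) (b := 27 / 20) (by norm_num) (by norm_num)
  have a3 := cN h (C := 101) (a := -109 / 100) (b := -107 / 100) (by norm_num) (by norm_num)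
  have a4 := cN h (C := 101) (a := -59 / 100) (b := -57 / 100) (by norm_num) (by norm_num)
  have a5 := cN h (C := 101) (a := -1 / 2) (b := -1 / 5) (by norm_num) (by norm_num)
  have a6 := cN h (C := 101) (a := -19 / 100) (b := -3 / 20) (by norm_num) (by norm_num)
  have a7 := cN h (C := 10001) (a := -9 / 100) (b := -1 / 20) (by norm_num) (by norm_num)
  have a8 := sml h (a := -15) (by norm_num)
  have a9 : 1 ≤ qp N (13 / 10) := (qp_zero _).symm.trans_le (h.qp_le (by norm_num))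
  have l1 := l (-5) (by norm_num); have l3 := l (-109 / 100) (by norm_num)
  have l4 := l (-59 / 100) (by norm_num); have l5 := l (-1 / 2) (by norm_num)
  have l6 := l (-19 / 100) (by norm_num)
  have l7 : np N (-10) ≤ np N (-9 / 100) := h.np_le (by norm_num)
  simp only [FP.Le, FP.up, FPg, P1]
  refine ⟨?_, ?_, ?_, ?_, ?_, ?_, ?_, ?_⟩ <;> linarith

lemma pj_nn (h : Big N) (j : ℕ) : (⟨0, 0, 0, 0, 0, 0, 0, 0⟩ : FP).Le (Pj N j) := by
  have := h.np_pos; have := h.qp_pos (27 / 20)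
  have k : ∀ (x a : ℝ), 0 ≤ x → 0 ≤ x * np N a := fun x a hx => mul_nonneg hx (h.np_pos a).le
  exact ⟨k _ _ j.cast_nonneg, by simp only [Pj]; positivity, k _ _ j.cast_nonneg,
    k _ _ j.cast_nonneg, k _ _ j.cast_nonneg, k _ _ (by positivity), by simp only [Pj]; positivity,
    k _ _ (by positivity)⟩

lemma pj_le (h : Big N) {j : ℕ} (hj : j ≤ 8) : (Pj N j).Le (FPs N) := by
  have j8 : (j : ℝ) ≤ 8 := by exact_mod_cast hj
  have j4 : (4 : ℝ) ^ j ≤ 10 ^ 9 := (pow_le_pow_right₀ (by norm_num) hj).trans (by norm_num)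
  have j5 : (8 : ℝ) ^ j ≤ 10 ^ 9 := (pow_le_pow_right₀ (by norm_num) hj).trans (by norm_num)
  have j9 : (j : ℝ) ≤ 10 ^ 9 := j8.trans (by norm_num)
  exact ⟨cN h j9 (by norm_num), cq h j9 (by norm_num), cN h j9 (by norm_num),
    cN h j9 (by norm_num), cN h j9 (by norm_num), cN h j4 (by norm_num),
    by simp only [Pj, FPs]; linarith, cN h j5 (by norm_num)⟩

lemma pj_step (h : Big N) {j : ℕ} (hj : j ≤ 8) : ((Pj N j).cmp (P1 N)).Le (Pj N (j + 1)) := by
  have j8 : (j : ℝ) ≤ 8 := by exact_mod_cast hj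
  have j4 : (4 : ℝ) ^ j ≤ 10 ^ 9 := (pow_le_pow_right₀ (by norm_num) hj).trans (by norm_num)
  have k4 : (1 : ℝ) ≤ 4 ^ j := one_le_pow₀ (by norm_num)
  have k8 : (1 : ℝ) ≤ 8 ^ j := one_le_pow₀ (by norm_num)
  have p1 := h.np_pos (-3 / 20); have p2 := h.np_pos (-1 / 20)
  have a1 := (cN h (a := -3 / 20) (b := -1 / 10) j4 (by norm_num)).trans (sml h (by norm_num))
  have a2 := mul_le_mul a1 (sml h (a := -3 / 20) (by norm_num)) p1.le (by norm_num)
  have a3 := mul_le_mul_of_nonneg_right k4 p1.le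
  have a4 := mul_le_mul_of_nonneg_right k8 p2.le
  simp only [FP.Le, FP.cmp, Pj, P1, pow_succ (4 : ℝ) j, pow_succ (8 : ℝ) j]
  push_cast
  refine ⟨?_, ?_, ?_, ?_, ?_, ?_, ?_, ?_⟩ <;> linarith

lemma p1_le (h : Big N) : (P1 N).Bd N := by
  have a := pj_le h (j := 1) (by norm_num)
  have p1 := h.np_pos (-3 / 20); have p2 := h.np_pos (-1 / 20)
  simp only [FP.Le, Pj, FPs, Nat.cast_one, one_mul, pow_one] at a
  refine bd_of h ⟨(h.np_pos _).le, (h.qp_pos _).le, (h.np_pos _).le, (h.np_pos _).le,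
    (h.np_pos _).le, (h.np_pos _).le, by norm_num [P1], (h.np_pos _).le⟩
    ⟨a.1, a.2.1, a.2.2.1, a.2.2.2.1, a.2.2.2.2.1, ?_, by norm_num [P1, FPs], ?_⟩ <;>
    simp only [P1, FPs] <;> linarith [a.2.2.2.2.2.1, a.2.2.2.2.2.2.2]

lemma pg_bd (h : Big N) : (FPg N).Bd N := by
  have a := cq h (C := 2) (a := 13 / 10) (b := 7 / 5) (by norm_num) (by norm_num)
  have p := h.qp_pos (13 / 10)
  have a5 := sml h (a := -19 / 100) (by norm_num); have a6 := sml h (a := -9 / 100) (by norm_num)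
  have b := (bd_of h (pj_nn h 0) (pj_le h (Nat.zero_le _))).2
  refine bd_of h ⟨(h.np_pos _).le, by simp only [FPg]; linarith, (h.np_pos _).le, (h.np_pos _).le,
    (h.np_pos _).le, (h.np_pos _).le, by norm_num [FPg], (h.np_pos _).le⟩
    ⟨h.np_le (by norm_num), a, h.np_le (by norm_num), h.np_le (by norm_num), h.np_le (by norm_num),
      h.np_le (by norm_num), by norm_num [FPg, FPs], h.np_le (by norm_num)⟩

end num

/-- the table survives a small step -/
lemma gw_of {c : Pm} (G : Gd c) {O : Mx} (hO : Orth O) {f f' : V → V} {z' z : V}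
    (H : FRel c f f' z' z (FPs c.N)) (hz : z ∈ RX O c.D (9 / 10))
    (hG : ∀ w ∈ RX O c.D (98 / 100), c.GB f w (3 / 2)) : c.GW f' z 2 := by
  have b := G.big
  have py := G.y_pos
  have q1 : 1 ≤ qp c.N (7 / 5) := (qp_zero _).symm.trans_le (b.qp_le (by norm_num))
  have q2 : qp c.N (7 / 5) * c.y ≤ (c.N : ℝ) ^ 3 * c.lam := by
    rw [Pm.y, ← mul_assoc]
    refine mul_le_mul_of_nonneg_right (le_of_log (mul_pos (b.qp_pos _) (b.np_pos _))
      (pow_pos G.N_pos 3) ?_) G.lam_pos.le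
    rw [Real.log_mul (b.qp_pos _).ne' (b.np_pos _).ne', Real.log_pow, b.log_qp, b.log_np, b.log_N]
    push_cast
    linarith [b.J_ge, b.L_ge]
  have hw : ‖z' - z‖ ≤ (c.N : ℝ) ^ 3 * c.lam := Prof.norm_le_of fun i => by
    rw [Pi.sub_apply, abs_sub_comm]
    refine le_trans ?_ q2
    by_cases hi : i = 2
    · subst hi; exact H.dv
    · exact (H.dl i hi).trans (mul_le_mul ((sml b (by norm_num)).trans (by linarith))
        (hs_le G i).2 (G.hs_pos i).le (by linarith))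
  have m := Prof.RX_mono O G.D_pos.le (show (9 / 10 + 1 / 1000 : ℝ) ≤ 98 / 100 by norm_num)
    (G.RX_move hO hz hw)
  obtain ⟨t1, t2, -, -⟩ := tab_ge b
  have x1 := cN b (C := 2) (a := -21 / 20) (b := -1) (by norm_num) (by norm_num)
  have x2 := cN b (C := 2) (a := -11 / 20) (b := -1 / 2) (by norm_num) (by norm_num)
  have x3 := sml b (a := -1 / 10) (by norm_num)
  exact gw_mono G (gw_step (s := 1 / 2) H ((hG _ m).gw (by norm_num))
    (by simp only [FPs, Pm.J]; linarith) (by simp only [FPs]; linarith)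
    (by simp only [FPs]; linarith)) (by norm_num)

section th
variable {α : Cu → V → ℝ} {P Q : Cu → Prop} {w : V}

lemma th_fin (h : (Function.support fun g => α g w).Finite) (P : Cu → Prop) :
    (Function.support fun g => if P g then α g w ^ 2 else 0).Finite :=
  h.subset fun g hg e => hg (by simp only [show α g w = 0 from e]; simp)

lemma th_or (h : (Function.support fun g => α g w).Finite) (hd : ∀ g, P g → ¬ Q g) :
    thP α (fun g => P g ∨ Q g) w = thP α P w + thP α Q w := by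
  rw [thP, thP, thP, ← finsum_add_distrib (th_fin h P) (th_fin h Q)]
  refine finsum_congr fun g => ?_
  by_cases a : P g
  · simp [a, hd g a]
  · by_cases b : Q g <;> simp [a, b]

lemma th_one (α : Cu → V → ℝ) (g : Cu) (w : V) : thP α (fun g' => g' = g) w = α g w ^ 2 := by
  exact (finsum_eq_single _ g fun g' hg => if_neg hg).trans (if_pos rfl)

lemma th_smul (h : (Function.support fun g => α g w).Finite) (P : Cu → Prop) [DecidablePred P]
    (v : V) : (∑ᶠ g, if P g then α g w ^ 2 • v else 0) = thP α P w • v := by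
  rw [thP, finsum_smul' (th_fin h P)]
  refine finsum_congr fun g => ?_
  by_cases a : P g <;> simp [a]

end th

lemma vd_smul (F : Fr) (θ : V → ℝ) (R : V → V) :
    F.vd (fun w => θ w • R w) = fun z => θ (F.zp z) • F.vd R z := by
  funext z
  simp only [Fr.vd, mulVec_smul]
  rw [smul_comm]

lemma den_add {F : Fr} (hQ : 0 < F.Q.det) (M : V → ℝ) {X : V → V} (hX : Sm X) :
    F.den (fun w => M w + dv X w) = fun z => F.den M z + dv (F.vd X) z := by
  rw [GluZ.dv_vd hQ hX]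
  funext z
  simp only [Fr.den, mul_add]

lemma grel_mono {B : Bk} (G : B.G) (hb : Big B.N) {k : ℕ} (hk : k ≤ nb B.N) {r r' : ℝ} (hr : r' ≤ r)
    {f f' : V → V} {P P' : FP} (hP : P.Le P') (H : B.GRel k r f f' P) : B.GRel k r' f f' P' :=
  fun g p' p e h =>
    have s := GluZ.R_mono G (Nat.one_le_cast.1 (by linarith [hb.N_ge, one_le_J hb] :
      (1 : ℝ) ≤ B.N)) g hr
    (H g p' p e (h.imp (fun a => s a) fun a => s a)).mono' (Bk.gd G.toFrOk hb g hk) hP

end Gab

open Gab in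
theorem gabs (hP : PartStmt) (hS : GstStmt) (hR : GrelStmt) (hV : VsStmt) (hL : LsStmt) :
    GabsStmt := by
  obtain ⟨C, -, hP⟩ := hP
  filter_upwards [ev_big, ev_C_q C, hP, hS, hR, gmw, gab1 hV hL] with N hb hC hP hS hR hW h1 B hN
    k f R G hk hf sR mb tg rb
  subst hN
  obtain ⟨α, A⟩ := hP B rfl G
  obtain ⟨r0, rc, rt⟩ := hR B rfl k G hk
  have n1 : 1 ≤ B.N := Nat.one_le_cast.1 (by linarith [hb.N_ge, one_le_J hb] : (1 : ℝ) ≤ B.N)
  have gd : ∀ g, Gd (B.c g k) := fun g => Bk.gd G.toFrOk hb g hk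
  have dp := GeoP.det_pos G.toFrOk
  have dn := GeoP.det_ne G.toFrOk
  have Rm := fun g {r r' : ℝ} (h : r ≤ r') => GluZ.R_mono G n1 g h
  have fin : ∀ w, (Function.support fun g => α g w).Finite := fun w => by
    obtain ⟨g, hg⟩ := GeoP.cover G n1 w
    exact (nbrs g 2).finite_toSet.subset fun g' h => (A.fin g w (Rm g (by norm_num) hg) g' h).1
  have sX : ∀ P, Sm fun w => thP α P w • R w := fun P => (A.th P).1.smul sR
  have sY : ∀ g P, Sm fun w => thP α P ((B.fr g).zp w) • (B.fr g).vd R w := fun g P =>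
    ((A.th P).1.comp (Prof.zp_sm _)).smul (Prof.vd_sm _ sR)
  have W := fun g (P : Cu → Prop) => hW (B.c g k) rfl (gd g).ok (B.R g (95 / 100))
    ((B.fr g).den (jac f)) (fun z => thP α P ((B.fr g).zp z)) ((B.fr g).vd R)
    (GluZ.den_sm _ hf.1.jac) ((A.th P).1.comp (Prof.zp_sm _)) (Prof.vd_sm _ sR)
    (fun z _ => (A.th P).2.1 _) (CBl.monoU (CBl.monoB ((A.th P).2.2 g) hC) (Rm g (by norm_num)))
    ⟨fun z hz => (mb g).1 z (Rm g (by norm_num) hz), CBl.monoU (mb g).2.1 (Rm g (by norm_num)),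
      CBl.monoU (mb g).2.2 (Rm g (by norm_num))⟩
    (fun z hz => by
      have := (tg g z (Rm g (by norm_num) hz)).1
      rwa [den_add (dp g) _ sR] at this)
    ⟨fun i hi => CBl.monoU ((rb g).1 i hi) (Rm g (by norm_num)),
      CBl.monoU (rb g).2.1 (Rm g (by norm_num)), CBl.monoU (rb g).2.2 (Rm g (by norm_num))⟩
  have key : ∀ j ≤ 8, ∃ f', Dif f' ∧
      (∀ w, jac f' w = jac f w + dv (fun w => thP α (fun g => col g < j) w • R w) w) ∧
      B.GRel k (11 / 10 - j / 1000) f f' (Pj B.N j) := by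
    intro j hj
    induction j with
    | zero =>
      refine ⟨f, hf, fun w => ?_, r0 f _ _ hf (bd_of hb (pj_nn hb 0) (pj_le hb hj))⟩
      simp [thP, dv_const]
    | succ j ih =>
      have j8 : j ≤ 8 := by omega
      obtain ⟨f1, d1, j1, g1⟩ := ih j8
      have jr : (j : ℝ) ≤ 8 := by exact_mod_cast j8
      have sa : ∀ g, Sm fun w => α g w ^ 2 • R w := fun g => ((A.sm g).pow 2).smul sR
      have ea : ∀ g, (B.fr g).vd (fun w => α g w ^ 2 • R w) =
          fun z => thP α (fun g' => g' = g) ((B.fr g).zp z) • (B.fr g).vd R z := fun g => by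
        rw [vd_smul]; simp only [th_one]
      have za : ∀ g z, z ∉ B.R g (9 / 10) → (B.fr g).vd (fun w => α g w ^ 2 • R w) z = 0 :=
        fun g z hz => by
          have : α g ((B.fr g).zp z) = 0 := by
            by_contra hn
            have h2 : (B.fr g).zc ((B.fr g).zp z) ∈ B.R g (85 / 100) := A.sup g _ hn
            rw [Prof.zc_zp (dn g)] at h2
            exact hz (Rm g (by norm_num) h2)
          rw [vd_smul]; simp [this]
      have e0 : ∀ g, jac ((B.fr g).fh f1) = fun z => (B.fr g).den (jac f) z +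
          dv (fun w => thP α (fun g => col g < j) ((B.fr g).zp w) • (B.fr g).vd R w) z :=
        fun g => by rw [GluZ.jac_fh _ d1.1, funext j1, den_add (dp g) _ (sX _), vd_smul]
      have e1 : ∀ g, col g = j → (fun z => jac ((B.fr g).fh f1) z +
          dv ((B.fr g).vd fun w => α g w ^ 2 • R w) z) = fun z => (B.fr g).den (jac f) z +
          dv (fun w => thP α (fun g' => col g' < j ∨ g' = g) ((B.fr g).zp w) •
            (B.fr g).vd R w) z := fun g hg => by
        funext z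
        rw [e0, ea, add_assoc, ← dv_add (sY g _) (sY g _)]
        congr 2
        funext w
        rw [th_or (fin _) fun g' a b => by rw [b, hg] at a; exact lt_irrefl _ a, add_smul]
      have gw : ∀ g, ∀ z ∈ B.R g (9 / 10), (B.c g k).GW ((B.fr g).fh f1) z 2 := fun g z hz => by
        obtain ⟨p', e⟩ := hf.2.1.2 (f1 ((B.fr g).zp z))
        have h2 := (g1 g p' _ e.symm (Or.inr (by
          show (B.fr g).zc _ ∈ B.R g _
          rw [Prof.zc_zp (dn g)]
          exact Rm g (by linarith) hz))).mono' (gd g) (pj_le hb j8)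
        rw [Prof.zc_zp (dn g)] at h2
        exact gw_of (gd g) (GeoP.orth G.toFrOk g) h2 hz fun w hw => (tg g w hw).2
      have loc : ∀ g, ∃ S, col g = j → SB' S ∧ (∀ z, z ∉ B.R g (9 / 10) → S z = z) ∧
          (∀ z, jac ((B.fr g).fh f1 ∘ S) z = jac ((B.fr g).fh f1) z +
            dv ((B.fr g).vd fun w => α g w ^ 2 • R w) z ∧ 0 < jac ((B.fr g).fh f1 ∘ S) z) ∧
          ∀ z ∈ B.R g (9 / 10),
            FRel (B.c g k) ((B.fr g).fh f1) ((B.fr g).fh f1 ∘ S) (S z) z (FPg B.N) := fun g => by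
        by_cases hg : col g = j
        · obtain ⟨-, w1, w2, w3⟩ := W g fun g' => g' = g
          obtain ⟨S, hS⟩ := h1 (B.c g k) rfl (gd g).ok (B.fr g).O ((B.fr g).fh f1)
            ((B.fr g).vd fun w => α g w ^ 2 • R w) (GeoP.orth G.toFrOk g) (GluZ.fh_sm _ d1.1)
            (fun z => by rw [GluZ.jac_fh _ d1.1]; exact mul_pos (dp g) (d1.2.2 _))
            (Prof.vd_sm _ (sa g)) (za g) (e0 g ▸ (W g _).1) (e1 g hg ▸ (W g _).1)
            (by rw [ea]; exact w1) (by rw [ea]; exact w2) (by rw [ea]; exact w3) (gw g)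
          exact ⟨S, fun _ => hS⟩
        · exact ⟨id, fun h => absurd h hg⟩
      choose S hS' using loc
      obtain ⟨T, gt, d2, j2⟩ := ((hS B rfl G).2 j (fun g => col g = j) (9 / 10) (by norm_num)
        (by norm_num) fun _ h => h).2 S (fun g => (B.fr g).vd fun w => α g w ^ 2 • R w) f1 d1
        fun g hg => ⟨(hS' g hg).1, Prof.vd_sm _ (sa g),
          fun z hz => ⟨(hS' g hg).2.1 z hz, za g z hz⟩, (hS' g hg).2.2.1⟩
      have g2 := rt _ _ S f1 T _ (by norm_num) (by norm_num) d1 gt (pg_bd hb) fun g hg =>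
        ⟨(hS' g hg).1.1, fun z hz => by
          have m0 := maps_of_id (hS' g hg).1.2.1 (hS' g hg).2.1 hz
          have M0 : (B.c g k).MW (31 / 10 * eps0) 40 (jac ((B.fr g).fh f1)) (B.R g (95 / 100)) :=
            e0 g ▸ (W g _).1
          have M1 : (B.c g k).MW (31 / 10 * eps0) 40 (jac ((B.fr g).fh f1 ∘ S g))
              (B.R g (95 / 100)) := by
            rw [funext fun z => ((hS' g hg).2.2.1 z).1, e1 g hg]; exact (W g _).1
          have q0 := (gd g).q_pos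
          exact ⟨⟨(M0.1 _ (Rm g (by norm_num) m0)).trans (by norm_num [eps0]),
            (M1.1 _ (Rm g (by norm_num) hz)).trans (by norm_num [eps0]),
            CBl.monoU (CBl.monoB (M0.2.1.of_le (by norm_num)) (by linarith))
              (singleton_subset_iff.2 (Rm g (by norm_num) m0)),
            CBl.monoU (CBl.monoB (M1.2.1.of_le (by norm_num)) (by linarith))
              (singleton_subset_iff.2 (Rm g (by norm_num) hz)),
            (gw g _ m0).eb10 (gd g) (by norm_num)⟩, (hS' g hg).2.2.2 z hz⟩⟩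
      refine ⟨f1 ∘ T, d2, fun w => ?_, grel_mono G hb hk (le_of_eq (by push_cast; ring))
        (pj_step hb j8) (rc f f1 _ _ _ _ d1 (bd_of hb (pj_nn hb j) (pj_le hb j8)) (p1_le hb) g1
          (grel_mono G hb hk (by linarith [j.cast_nonneg (α := ℝ)]) (up_le hb) g2))⟩
      have e2 : (fun w => ∑ᶠ g, if col g = j then
          (B.fr g).unvd ((B.fr g).vd fun w => α g w ^ 2 • R w) w else 0) =
          fun w => thP α (fun g => col g = j) w • R w := by
        funext w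
        simp only [Prof.unvd_vd (dn _)]
        exact th_smul (fin w) _ _
      rw [j2, j1, e2, add_assoc, ← dv_add (sX _) (sX _)]
      congr 2
      funext w
      rw [← add_smul, ← th_or (fin w) fun g a b => a.ne b]
      simp only [Nat.lt_succ_iff_lt_or_eq]
  obtain ⟨f', d, j', gr⟩ := key 8 le_rfl
  refine ⟨f', d, fun z => ?_, fun g z' hz => ?_⟩
  · rw [j']
    congr 2
    funext w
    have : thP α (fun g => col g < 8) w = 1 := by
      rw [← A.one w, thP]
      exact finsum_congr fun g => if_pos (Prof.col_lt g)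
    rw [this, one_smul]
  · have h2 := (gr g ((B.fr g).zp z') _ (Function.rightInverse_invFun d.2.1.2 _) (Or.inl (by
      show (B.fr g).zc _ ∈ B.R g _
      rw [Prof.zc_zp (dn g)]
      exact Rm g (by norm_num) hz))).mono' (gd g) (pj_le hb le_rfl)
    rwa [Prof.zc_zp (dn g)] at h2

end
end Pool.Agent.MP_20bec2_an.T3

end MrgPart1

-- marker of a merged file
example : 731051 + 158135 = 731051 + 158135 := rfl

end MrgPart2

-- marker of a merged file
example : 731051 + 158135 = 731051 + 158135 := rfl
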