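import Pool.Agent.MP_20bec2_an.T3.Fl3
import Pool.Agent.MP_20bec2_an.T3.Fcomp
import Pool.Agent.MP_20bec2_an.T3.Par4
import Mathlib.RingTheory.Flat.TorsionFree
import Mathlib.RingTheory.SimpleRing.Principal
import Pool.Agent.MP_20bec2_an.T3.CrA
import Pool.Agent.MP_20bec2_an.T3.InitB

-- ======== part 0: formerly Pool.Agent.MP_20bec2_an.T3.Le
section MrgPart0

/-! Algebra of the relation through a long slide. -/

set_option autoImplicit false
open Set Filter Matrix Topology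

namespace Pool.Agent.MP_20bec2_an.T3
noncomputable section
open Classical Ftr

namespace Le

lemma ca_congr (c : Pm) {f f' : V → V} {z : V} (h : f' =ᶠ[𝓝 z] f) : c.ca f' z = c.ca f z := by
  unfold Pm.ca; rw [jm_congr h, jac_congr h]

lemma di_congr {c : Pm} {f f' : V → V} {z : V} {d : ℝ} (h : f' =ᶠ[𝓝 z] f) (H : c.DI f z d) :
    c.DI f' z d := fun a b i => by
  rw [pd_congr (g' := fun w => c.gam f w a b) (h.eventuallyEq_nhds.mono fun w hw => by
    show c.gam f' w a b = c.gam f w a b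
    unfold Pm.gam; rw [ca_congr c hw])]
  exact H a b i

/-- the entries of a table -/
lemma tb_iff {R : Mx} {m δ : ℝ} : EB R (tb4 δ m δ δ) ↔ |R 0 0| ≤ δ ∧ |R 0 1| ≤ δ ∧ |R 0 2| ≤ δ ∧
    |R 1 0| ≤ δ ∧ |R 1 1| ≤ δ ∧ |R 1 2| ≤ δ ∧ |R 2 0| ≤ m ∧ |R 2 1| ≤ m ∧ |R 2 2| ≤ δ := by
  refine ⟨fun h => ⟨h 0 0, h 0 1, h 0 2, h 1 0, h 1 1, h 1 2, h 2 0, h 2 1, h 2 2⟩,
    fun ⟨a, b, c, d, e, f, g, h, k⟩ i j => ?_⟩
  fin_cases i <;> fin_cases j
  exacts [a, b, c, d, e, f, g, h, k]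

lemma em_iff {E : Mx} {u m δ : ℝ} : EB (E - 1 - u • E20) (tb4 δ m δ δ) ↔
    |E 0 0 - 1| ≤ δ ∧ |E 0 1| ≤ δ ∧ |E 0 2| ≤ δ ∧ |E 1 0| ≤ δ ∧ |E 1 1 - 1| ≤ δ ∧ |E 1 2| ≤ δ ∧
      |E 2 0 - u| ≤ m ∧ |E 2 1| ≤ m ∧ |E 2 2 - 1| ≤ δ := by
  rw [tb_iff]; simp [E20, Matrix.one_apply]

lemma abs3 {a b x1 y1 x2 y2 x3 y3 p q p1 q1 p2 q2 p3 q3 r s : ℝ}
    (e : s = a + b + (x1 * y1 + x2 * y2 + x3 * y3)) (ha : |a| ≤ p) (hb : |b| ≤ q)
    (h1 : |x1| ≤ p1) (k1 : |y1| ≤ q1) (h2 : |x2| ≤ p2) (k2 : |y2| ≤ q2) (h3 : |x3| ≤ p3)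
    (k3 : |y3| ≤ q3) (hr : p + q + (p1 * q1 + p2 * q2 + p3 * q3) ≤ r) : |s| ≤ r := by
  rw [e]
  linarith [abs_add_three a b (x1 * y1 + x2 * y2 + x3 * y3),
    abs_add_three (x1 * y1) (x2 * y2) (x3 * y3), abs_mul_le h1 k1, abs_mul_le h2 k2,
    abs_mul_le h3 k3]

lemma em_mul {E F : Mx} {u m δ u' m' δ' : ℝ} (hu : |u| ≤ 1 / 10) (hm : m ≤ 1 / 10)
    (hu' : |u'| ≤ 1 / 10) (hm' : m' ≤ 1 / 10) (hδ' : δ' ≤ 1 / 100)
    (hE : EB (E - 1 - u • E20) (tb4 δ m δ δ)) (hF : EB (F - 1 - u' • E20) (tb4 δ' m' δ' δ')) :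
    EB (E * F - 1 - (u + u') • E20)
      (tb4 (2 * (δ + δ')) (m + m' + (δ + δ')) (2 * (δ + δ')) (2 * (δ + δ'))) := by
  obtain ⟨a0, a1, a2, a3, a4, a5, a6, a7, a8⟩ := em_iff.1 hE
  obtain ⟨b0, b1, b2, b3, b4, b5, b6, b7, b8⟩ := em_iff.1 hF
  have a9 : |E 2 0| ≤ 1 / 5 := by linarith [abs_sub_abs_le_abs_sub (E 2 0) u]
  have b9 : |F 2 0| ≤ 1 / 5 := by linarith [abs_sub_abs_le_abs_sub (F 2 0) u']
  have a10 : |E 2 1| ≤ 1 / 5 := by linarith
  have b10 : |F 2 1| ≤ 1 / 5 := by linarith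
  have p := (abs_nonneg _).trans a1
  have p' := (abs_nonneg _).trans b1
  have q : δ * δ' ≤ δ / 100 := by nlinarith
  rw [em_iff]
  simp only [mul_apply, Fin.sum_univ_three]
  exact ⟨abs3 (by ring) a0 b0 a0 b0 a1 b3 a2 b9 (by linarith),
    abs3 (by ring) a1 b1 a0 b1 a1 b4 a2 b10 (by linarith),
    abs3 (by ring) a2 b2 a0 b2 a1 b5 a2 b8 (by linarith),
    abs3 (by ring) a3 b3 a3 b0 a4 b3 a5 b9 (by linarith),
    abs3 (by ring) a4 b4 a3 b1 a4 b4 a5 b10 (by linarith),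
    abs3 (by ring) a5 b5 a3 b2 a4 b5 a5 b8 (by linarith),
    abs3 (by ring) a6 b6 a9 b0 a10 b3 a8 b9 (by linarith),
    abs3 (by ring) a7 b7 a9 b1 a10 b4 a8 b10 (by linarith),
    abs3 (by ring) a8 b8 a9 b2 a10 b5 a8 b8 (by linarith)⟩

/-- change of a Gram matrix under a shear of the third column -/
def sh (G : Mx) (x y : ℝ) : Mx :=
  !![2 * (G 0 2 * x) + x * x * G 2 2, G 0 2 * y + G 1 2 * x + x * y * G 2 2, x * G 2 2;
    G 0 2 * y + G 1 2 * x + x * y * G 2 2, 2 * (G 1 2 * y) + y * y * G 2 2, y * G 2 2;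
    x * G 2 2, y * G 2 2, 0]

lemma core {A E : Mx} {u m δ : ℝ} (hE : EB (E - 1 - u • E20) (tb4 δ m δ δ)) (hG : Bd (Aᵀ * A) 10)
    (hu : |u| ≤ 1 / 2) (hm : m ≤ 1 / 2) (hδ : δ ≤ 1) :
    Bd ((A * E)ᵀ * (A * E) - Aᵀ * A - sh (Aᵀ * A) (E 2 0) (E 2 1)) (270 * δ) := by
  obtain ⟨a0, a1, a2, a3, a4, a5, a6, a7, a8⟩ := em_iff.1 hE
  have a9 : |E 2 0| ≤ 1 := by linarith [abs_sub_abs_le_abs_sub (E 2 0) u]
  have p := (abs_nonneg _).trans a1
  have hs : (Aᵀ * A)ᵀ = Aᵀ * A := by rw [transpose_mul, transpose_transpose]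
  obtain ⟨G, hGe⟩ : ∃ G, G = Aᵀ * A := ⟨_, rfl⟩
  obtain ⟨F, hF⟩ : ∃ F : Mx, F = !![1, 0, 0; 0, 1, 0; E 2 0, E 2 1, 1] := ⟨_, rfl⟩
  have e1 : (A * E)ᵀ * (A * E) = Eᵀ * G * E := by
    rw [hGe, transpose_mul]; simp only [Matrix.mul_assoc]
  rw [e1]
  rw [← hGe] at hG hs ⊢
  have s02 : G 2 0 = G 0 2 := congrFun (congrFun hs 0) 2
  have s12 : G 2 1 = G 1 2 := congrFun (congrFun hs 1) 2
  have e2 : sh G (E 2 0) (E 2 1) = Fᵀ * G * F - G := by
    rw [hF]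
    ext i j
    fin_cases i <;> fin_cases j <;>
      simp [sh, mul_apply, Fin.sum_univ_three, s02, s12] <;> ring
  have b1 : Bd (E - F) δ := fun i j => by
    rw [hF]
    fin_cases i <;> fin_cases j <;> simp <;> assumption
  have b2 : Bd F 1 := fun i j => by
    rw [hF]
    fin_cases i <;> fin_cases j <;> simp <;> linarith
  have b3 : Bd E 2 := by
    have := (b1.add b2).mono (show δ + 1 ≤ 2 by linarith)
    rwa [sub_add_cancel] at this
  rw [e2, show Eᵀ * G * E - G - (Fᵀ * G * F - G) = (E - F)ᵀ * G * E + Fᵀ * G * (E - F) by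
    rw [transpose_sub]; noncomm_ring]
  exact (((b1.tr.mul hG).mul b3).add ((b2.tr.mul hG).mul b1)).mono (by linarith)

lemma sh_le {G : Mx} {x y h k a b : ℝ} (h0 : |G 0 2| ≤ h) (h1 : |G 1 2| ≤ h) (h2 : |G 2 2| ≤ k)
    (hx : |x| ≤ a) (hy : |y| ≤ b) : |sh G x y 0 0| ≤ 2 * (h * a) + a * a * k ∧
      |sh G x y 0 1| ≤ h * b + h * a + a * b * k ∧ |sh G x y 1 1| ≤ 2 * (h * b) + b * b * k ∧
      |sh G x y 0 2| ≤ a * k ∧ |sh G x y 1 2| ≤ b * k := by
  refine ⟨(abs_add_le _ _).trans (add_le_add ?_ (abs_mul_le (abs_mul_le hx hx) h2)),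
    (abs_add_three _ _ _).trans (add_le_add_three (abs_mul_le h0 hy) (abs_mul_le h1 hx)
      (abs_mul_le (abs_mul_le hx hy) h2)),
    (abs_add_le _ _).trans (add_le_add ?_ (abs_mul_le (abs_mul_le hy hy) h2)),
    abs_mul_le hx h2, abs_mul_le hy h2⟩
  · exact abs_mul_le (le_of_eq abs_two) (abs_mul_le h0 hx)
  · exact abs_mul_le (le_of_eq abs_two) (abs_mul_le h1 hy)

/-- a symmetric table -/
lemma eb_sym {D S T : Mx} {e : ℝ} (h : Bd (D - S) e) (s1 : S 1 0 = S 0 1) (s2 : S 2 0 = S 0 2)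
    (s3 : S 2 1 = S 1 2) (t1 : T 1 0 = T 0 1) (t2 : T 2 0 = T 0 2) (t3 : T 2 1 = T 1 2)
    (h0 : |S 0 0| + e ≤ T 0 0) (h1 : |S 0 1| + e ≤ T 0 1) (h2 : |S 0 2| + e ≤ T 0 2)
    (h3 : |S 1 1| + e ≤ T 1 1) (h4 : |S 1 2| + e ≤ T 1 2) (h5 : |S 2 2| + e ≤ T 2 2) : EB D T := by
  have k : ∀ i j, |S i j| + e ≤ T i j := fun i j => by
    fin_cases i <;> fin_cases j
    exacts [h0, h1, h2, (s1 ▸ t1 ▸ h1 : |S 1 0| + e ≤ T 1 0), h3, h4,
      (s2 ▸ t2 ▸ h2 : |S 2 0| + e ≤ T 2 0), (s3 ▸ t3 ▸ h4 : |S 2 1| + e ≤ T 2 1), h5]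
  intro i j
  have := h i j
  rw [Matrix.sub_apply] at this
  linarith [abs_sub_abs_le_abs_sub (D i j) (S i j), k i j]

variable {c : Pm} (h : Gd c)
include h

lemma small : 10 ^ 7 * np c.N (-5) ≤ c.η * c.p ∧
    1000 * np c.N (-5) ≤ pX c.N / (qp c.N (18 / 5) * c.N) ∧
    1000 * np c.N (-5) ≤ np c.N (-1 / 20) ∧ √(c.η * c.p) ≤ 1 / 1000 ∧ √(c.J / c.N) ≤ 1 / 1000 ∧
    √(c.η * c.p) * (1000 * fr0 c.N) ≤ c.q * (pX c.N / (qp c.N (18 / 5) * c.N)) / 10 ∧
    1000 ≤ c.J := by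
  have := h.big.np_pos (-5); have := h.big.X_pos; have := h.big.qp_pos (18 / 5)
  have := h.N_pos; have := h.J_pos; have := h.q_pos; have := h.big.fr0_pos
  have := h.big.L_ge; have := h.big.J_ge
  have l3 := logc_bd (show (1 : ℝ) ≤ 1000 by norm_num)
  have l1 := log10_bd
  have e : √(c.J / c.N) ≤ 1 / 1000 := by
    refine le_of_log (by positivity) (by positivity) ?_
    simp (disch := positivity) only [Real.log_div, Real.log_sqrt, Real.log_one, h.log_J,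
      h.big.log_N]
    linarith
  refine ⟨le_of_log (by positivity) h.ηp_pos ?_, le_of_log (by positivity) (by positivity) ?_,
    le_of_log (by positivity) (h.big.np_pos _) ?_, h.sηp_le.trans e, e,
    (mul_le_mul_of_nonneg_right h.sηp_le (by positivity)).trans
      (le_of_log (by positivity) (by positivity) ?_), by show _ ≤ pJ c.N; linarith⟩
  · rw [Real.log_mul h.η_pos.ne' h.p_pos.ne', Real.log_mul (by positivity) (by positivity),
      Real.log_pow, h.big.log_np]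
    push_cast; linarith [h.log_ηp_ge]
  · simp (disch := positivity) only [Real.log_div, Real.log_mul, h.big.log_np, h.big.log_X,
      h.big.log_qp, h.big.log_N]
    linarith
  · simp (disch := positivity) only [Real.log_mul, h.big.log_np]
    linarith
  · simp (disch := positivity) only [Real.log_div, Real.log_mul, Real.log_sqrt, h.big.log_X,
      h.big.log_qp, h.big.log_N, h.log_J, h.big.log_fr0, h.log_q]
    linarith

lemma gw_step {f f' : V → V} {z' z : V} {u m δ G t s : ℝ} (H : LE c f f' z' z u m δ G t)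
    (hδ : δ ≤ np c.N (-5)) (hu : |u| ≤ 3 * √(c.J / c.N)) (hm : m ≤ √(c.J / c.N)) (s0 : 0 ≤ s)
    (s2 : s ≤ 2) (hG : c.GW f z' s) : c.GW f' z (s + 1) := by
  obtain ⟨E, e, hE⟩ := H.em
  obtain ⟨n1, -, n3, -, n5, -, n7⟩ := small h
  obtain ⟨-, -, -, -, -, -, a6, a7, -⟩ := em_iff.1 hE
  have pN := h.N_pos; have pJ' := h.J_pos; have p5 := h.big.np_pos (-5)
  have ps := h.big.sqrtN_pos
  obtain ⟨r, hr⟩ : ∃ r, r = √(c.J / c.N) := ⟨_, rfl⟩
  obtain ⟨k, hk⟩ : ∃ k, k = c.J ^ 2 / √c.N := ⟨_, rfl⟩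
  have r0 : 0 ≤ r := hr ▸ Real.sqrt_nonneg _
  have r1 : 1000 * r ≤ k := hr ▸ hk ▸ h.big.sqrtJN_le
  have r2 : hc c.N = 3 * k := hk ▸ h.big.hc_eq
  have r3 : c.J ^ 4 / c.N = k * k := by
    rw [hk, div_mul_div_comm, Real.mul_self_sqrt pN.le]; ring
  have r4 : 1000 * (3 * k) ≤ 1 / 1000 :=
    (r2 ▸ h.big.hc_le).trans (one_div_le_one_div_of_le (by norm_num) n7)
  have r5 : 10 ^ 7 * np c.N (-5) ≤ r * r := by
    refine n1.trans ?_
    rw [← Real.mul_self_sqrt h.ηp_pos.le, hr]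
    exact mul_self_le_mul_self (Real.sqrt_nonneg _) h.sηp_le
  have r6 : np c.N (-1 / 20) ≤ 1 := (h.big.np_le (by norm_num)).trans (np_zero c.N).le
  rw [← hr] at hu hm n5
  unfold Pm.GW at hG ⊢
  rw [r2, r3] at hG ⊢
  have kk : k * k ≤ 1 / 1000 := by nlinarith
  have rk : 1000 * (r * k) ≤ k * k := mul_le_mul_of_nonneg_right r1 (by linarith) |>.trans' (by linarith)
  have rr : 1000 * (r * r) ≤ r * k := by nlinarith
  have r7 : r * r ≤ r := by nlinarith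
  have g : ∀ i j, |c.gam f z' i j - c.gref i j| ≤ 2 * bm (k * k) (3 * k) (1 / 10) i j := fun i j =>
    (hG i j).trans (mul_le_mul_of_nonneg_right s2 (by
      fin_cases i <;> fin_cases j <;> simp [bm] <;> nlinarith))
  have g0 : |c.gam f z' 0 2| ≤ 6 * k := by
    have := g 0 2; simp [bm, Pm.gref, dg3] at this; linarith
  have g1 : |c.gam f z' 1 2| ≤ 6 * k := by
    have := g 1 2; simp [bm, Pm.gref, dg3] at this; linarith
  have g2 : |c.gam f z' 2 2| ≤ 2 := by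
    have := abs_le.1 (g 2 2); simp [bm, Pm.gref, dg3] at this; rw [abs_le]
    constructor <;> linarith [this.1, this.2]
  have g3 : Bd (c.gam f z') 10 := fun i j => by
    have a1 := abs_sub_abs_le_abs_sub (c.gam f z' i j) (c.gref i j)
    have a2 : |c.gref i j| ≤ 1 := by
      have := h.η_pos; have := h.η_le_one
      fin_cases i <;> fin_cases j <;> simp [Pm.gref, dg3, abs_le] <;> constructor <;> linarith
    have a3 : bm (k * k) (3 * k) (1 / 10) i j ≤ 1 := by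
      fin_cases i <;> fin_cases j <;> simp [bm] <;> linarith
    linarith [g i j]
  have B := core hE g3 (by linarith) (by linarith) (by linarith)
  rw [← e] at B
  change Bd (c.gam f' z - c.gam f z' - sh (c.gam f z') _ _) _ at B
  obtain ⟨b0, b1, b2, b3, b4⟩ := sh_le g0 g1 g2
    (show |E 2 0| ≤ 4 * r by linarith [abs_sub_abs_le_abs_sub (E 2 0) u])
    (show |E 2 1| ≤ 4 * r by linarith)
  have D : EB (c.gam f' z - c.gam f z') (bm (k * k) (3 * k) (1 / 10)) :=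
    eb_sym B rfl rfl rfl rfl rfl rfl (by show _ ≤ k * k; linarith) (by show _ ≤ k * k; linarith)
      (by show _ ≤ 3 * k; linarith) (by show _ ≤ k * k; linarith) (by show _ ≤ 3 * k; linarith)
      (by show |(0 : ℝ)| + _ ≤ 1 / 10; rw [abs_zero]; linarith)
  intro i j
  have a1 := D i j
  have a2 := hG i j
  simp only [Matrix.sub_apply, Matrix.smul_apply, smul_eq_mul] at a1 a2 ⊢
  linarith [abs_sub_le (c.gam f' z i j) (c.gam f z' i j) (c.gref i j)]

lemma lrel {f f' : V → V} {z' z : V} {u m δ G t Y : ℝ} (H : LE c f f' z' z u m δ G t)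
    (hδ : δ ≤ np c.N (-5)) (hY : u ^ 2 = c.η * Y) (hu : |u| ≤ 284 / 100 * √(c.η * c.p))
    (hm : m ≤ 25 * √(pX c.N / c.N) / c.q ^ 5) (hG : G ≤ np c.N 10) (ht : t ≤ np c.N (1 / 10))
    (g3 : EB (c.gam f z') (cm 10)) (g0 : ∀ i, i ≠ 2 → |c.gam f z' i 2| ≤ √(c.η * c.p) / 7900)
    (g2 : |c.gam f z' 2 2 - 1| ≤ 3 / c.J) : LRel c f f' z' z Y := by
  have pl := h.lam_pos
  refine ⟨H.mt, fun i hi => (H.dl i hi).trans (mul_le_mul (hδ.trans (h.big.np_le (by norm_num)))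
    ?_ pl.le (h.big.np_pos _).le), H.dv.trans ?_, ?_, fun d d0 hd => (H.df d d0 hd).mono
      (mul_le_mul_of_nonneg_right hG (by linarith))⟩
  · fin_cases i
    exacts [h.lam_le_l1, le_rfl, absurd rfl hi]
  · rw [← mul_assoc, show (21 / 10 : ℝ) = 1 / 10 + (2 : ℕ) by norm_num, h.big.np_add, np_nat]
    exact mul_le_mul_of_nonneg_right (mul_le_mul_of_nonneg_right ht (by positivity)) pl.le
  obtain ⟨E, e, hE⟩ := H.em
  obtain ⟨n1, n2, n3, n4, -, n6, n7⟩ := small h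
  obtain ⟨-, -, -, -, -, -, a6, a7, -⟩ := em_iff.1 hE
  have pq' := h.q_pos; have p5 := h.big.np_pos (-5); have pf := h.big.fr0_pos
  have q1 : 10000000 ≤ c.q := h.big.q_ge
  obtain ⟨w, hw⟩ : ∃ w, w = √(c.η * c.p) := ⟨_, rfl⟩
  obtain ⟨v, hv⟩ : ∃ v, v = pX c.N / (qp c.N (18 / 5) * c.N) := ⟨_, rfl⟩
  have w0 : 0 < w := hw ▸ h.sηp_pos
  have w1 : c.η * c.p = w * w := by rw [hw, Real.mul_self_sqrt h.ηp_pos.le]
  have w2 : 10 ^ 20 * fr0 c.N ≤ w := hw ▸ h.fr0_le_sηp'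
  have m0 : 0 ≤ m := (abs_nonneg _).trans a7
  have e1 : 25 * √(pX c.N / c.N) / c.q ^ 5 = 25 * fr0 c.N / c.q := by
    unfold fr0; show _ = 25 * (_ / c.q ^ 4) / c.q; field_simp
  rw [e1, le_div_iff₀ pq'] at hm
  have m1 : 100000 * m ≤ fr0 c.N := by nlinarith
  rw [← hw] at hu g0 n4 n6
  rw [← hv] at n2 n6
  rw [w1] at n1
  have j3 : 3 / c.J ≤ 1 / 10 ^ 8 := by
    rw [div_le_div_iff₀ h.J_pos (by norm_num)]
    linarith [h.big.L_ge, h.big.J_ge, show c.J = pJ c.N from rfl]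
  have r6 : np c.N (-1 / 20) ≤ 1 := (h.big.np_le (by norm_num)).trans (np_zero c.N).le
  have B := core hE g3 (by linarith) (by linarith) (by linarith)
  rw [← e] at B
  have x1 : |E 2 0| ≤ 285 / 100 * w := by linarith [abs_sub_abs_le_abs_sub (E 2 0) u]
  have g4 : |c.gam f z' 2 2| ≤ 2 := by
    linarith [abs_sub_abs_le_abs_sub (c.gam f z' 2 2) 1, abs_one (α := ℝ)]
  obtain ⟨-, b1, b2, b3, b4⟩ := sh_le (g0 0 (by decide)) (g0 1 (by decide)) g4 x1 a7
  have mw : 10 ^ 20 * (w * m) ≤ w * w := by nlinarith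
  have mm : m * m ≤ w * m := by nlinarith
  have mv : 100 * (w * m) ≤ v := le_of_mul_le_mul_left
    (by linarith [mul_le_mul_of_nonneg_left hm w0.le, mul_pos w0 pf]) pq'
  have ww : w * w ≤ w := by nlinarith
  have b0 : |2 * (c.gam f z' 0 2 * E 2 0) + E 2 0 * E 2 0 * c.gam f z' 2 2 - c.η * Y| ≤
      8 / 10000 * (w * w) :=
    abs3 (a := 0) (b := E 2 0 * E 2 0 * (c.gam f z' 2 2 - 1)) (x1 := 2 * c.gam f z' 0 2)
      (y1 := E 2 0) (x2 := E 2 0) (y2 := E 2 0 - u) (x3 := u) (y3 := E 2 0 - u) (by rw [← hY]; ring)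
      (le_of_eq abs_zero) (abs_mul_le (abs_mul_le x1 x1) (g2.trans j3))
      (abs_mul_le (le_of_eq abs_two) (g0 0 (by decide))) x1 x1 a6 hu a6 (by nlinarith)
  have B' : Bd (c.gam f' z - c.gam f z' - (c.η * Y) • E00 -
      (sh (c.gam f z') (E 2 0) (E 2 1) - (c.η * Y) • E00)) (270 * δ) := by
    rw [sub_sub_sub_cancel_right]; exact B
  have eL : (9 / 10 : ℝ) • c.LA = !![9 / 10000 * (w * w), 9 / 10000 * (w * w), 81 / 10 * w;
      9 / 10000 * (w * w), 9 / 10 * v, 81 / 10 * w;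
      81 / 10 * w, 81 / 10 * w, 9 / 10 * np c.N (-1 / 20)] := by
    unfold Pm.LA
    rw [← hw, ← hv, w1]
    ext i j
    fin_cases i <;> fin_cases j <;> simp <;> ring
  have eS : ∀ i j, ¬ (i = 0 ∧ j = 0) → (sh (c.gam f z') (E 2 0) (E 2 1) - (c.η * Y) • E00) i j =
      sh (c.gam f z') (E 2 0) (E 2 1) i j := fun i j hij => by
    fin_cases i <;> fin_cases j <;> simp [E00, dg3] at hij ⊢
  have e0 : (sh (c.gam f z') (E 2 0) (E 2 1) - (c.η * Y) • E00) 0 0 =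
      2 * (c.gam f z' 0 2 * E 2 0) + E 2 0 * E 2 0 * c.gam f z' 2 2 - c.η * Y := by
    simp [sh, E00, dg3]
  rw [eL]
  refine eb_sym B' ?_ ?_ ?_ rfl rfl rfl ?_ ?_ ?_ ?_ ?_ ?_
  iterate 3 rw [eS _ _ (by decide), eS _ _ (by decide)]; rfl
  · rw [e0]; show _ ≤ 9 / 10000 * (w * w); linarith
  · rw [eS _ _ (by decide)]; show _ ≤ 9 / 10000 * (w * w); linarith
  · rw [eS _ _ (by decide)]; show _ ≤ 81 / 10 * w; linarith
  · rw [eS _ _ (by decide)]; show _ ≤ 9 / 10 * v; linarith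
  · rw [eS _ _ (by decide)]; show _ ≤ 81 / 10 * w; linarith
  · rw [eS _ _ (by decide)]
    show |(0 : ℝ)| + _ ≤ 9 / 10 * np c.N (-1 / 20)
    rw [abs_zero]; linarith

end Le
open Le

theorem le_ : LeStmt := by
  filter_upwards [ev_gd] with N hg c hN ok
  have h := hg c hN ok
  have pl := h.lam_pos
  refine ⟨fun f f' z e => ⟨e.eq_of_nhds, fun i _ => by simp, by simp,
      ⟨1, by rw [ca_congr c e, mul_one], em_iff.2 (by simp [Matrix.one_apply])⟩,
      fun d _ hd => (di_congr e hd).mono (by linarith)⟩,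
    fun f f' f'' z' z u m δ G t u' m' δ' G' t' e hm hδ hG ht H => ?_,
    fun f f1 f2 z0 z1 z2 u m δ G t u' m' δ' G' t' hu hm hδ hG hu' hm' hδ' hG' H H' => ?_,
    fun f f' z' z u m δ G t H hδ => ⟨fun hu hm s s0 s2 => gw_step h H hδ hu hm s0 s2,
      fun Y => lrel h H hδ⟩⟩
  · obtain ⟨E, e1, hE⟩ := H.em
    obtain ⟨a0, a1, a2, a3, a4, a5, a6, a7, a8⟩ := em_iff.1 hE
    refine ⟨e.eq_of_nhds.trans H.mt,
      fun i hi => (H.dl i hi).trans (mul_le_mul_of_nonneg_right hδ pl.le),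
      H.dv.trans (mul_le_mul_of_nonneg_right ht (by positivity)),
      ⟨E, (ca_congr c e).trans e1, em_iff.2 ⟨a0.trans hδ, a1.trans hδ, a2.trans hδ, a3.trans hδ,
        a4.trans hδ, a5.trans hδ, ?_, ?_, a8.trans hδ⟩⟩,
      fun d d0 hd => (di_congr e (H.df d d0 hd)).mono
        (mul_le_mul_of_nonneg_right hG (by linarith))⟩
    · linarith [abs_sub_le (E 2 0) u u', abs_sub_comm u u']
    · linarith [abs_nonneg (u' - u)]
  · obtain ⟨E, e1, hE⟩ := H.em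
    obtain ⟨F, e2, hF⟩ := H'.em
    have p : 0 ≤ δ := (abs_nonneg _).trans (hE 0 0)
    have p' : 0 ≤ δ' := (abs_nonneg _).trans (hF 0 0)
    refine ⟨H'.mt.trans H.mt, fun i hi => ?_, ?_,
      ⟨E * F, by rw [e2, e1, Matrix.mul_assoc], em_mul hu hm hu' hm' hδ' hE hF⟩,
      fun d d0 hd => (H'.df _ (by positivity) (H.df d d0 hd)).mono ?_⟩
    · linarith [abs_sub_le (z2 i) (z1 i) (z0 i), H.dl i hi, H'.dl i hi, mul_nonneg p pl.le,
        mul_nonneg p' pl.le]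
    · linarith [abs_sub_le (z2 2) (z1 2) (z0 2), H.dv, H'.dv]
    · have : 1 ≤ G * (1 + d) := by nlinarith
      nlinarith

end
end Pool.Agent.MP_20bec2_an.T3

end MrgPart0

-- ======== part 1: formerly Pool.Agent.MP_20bec2_an.T3.Init
section MrgPart1

-- ======== part 0: formerly Pool.Agent.MP_20bec2_an.T3.P0A
section MrgPart0

/-! One term of the primitive of the oscillation. -/

set_option autoImplicit false
set_option linter.unusedSectionVars false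
open MeasureTheory Set Filter Matrix Topology

namespace Pool.Agent.MP_20bec2_an.T3
noncomputable section
open Classical

namespace P0P
open Prof

theorem card_nb (g : Cu) : (nbrs g 2).card = 125 := by
  have e : ∀ i, (Finset.Icc (g i - 2) (g i + 2)).card = 5 := fun i => by
    rw [Int.card_Icc]
    omega
  simp only [nbrs, Fintype.card_piFinset, e]
  simp

theorem mem_nb {g g' : Cu} : g' ∈ nbrs g 2 ↔ Nbr 2 g g' := by
  simp only [nbrs, Fintype.mem_piFinset, Finset.mem_Icc, Nbr, abs_le]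
  exact forall_congr' fun i => by omega

/-! ## numbers -/

section num
variable {N : ℕ} (h : Big N)
include h

theorem lc : Real.log 15625 ≤ 15625 := (logc_bd (show (1 : ℝ) ≤ 15625 by norm_num)).2

theorem n1 : 15625 * np N (-15) ≤ 1 / √(pJ N) := by
  have := h.np_pos (-15); have := h.sqrtJ_pos
  refine le_of_log (by positivity) (by positivity) ?_
  simp (disch := positivity) only [Real.log_div, Real.log_mul, Real.log_one, h.log_np, h.log_sqrtJ]
  linarith [h.L_ge, h.J_ge, lc h]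

theorem n2 : 16 * dc N ≤ 1 / √(pJ N) := by
  have := h.dc_pos; have := h.sqrtJ_pos
  refine le_of_log (by positivity) (by positivity) ?_
  simp (disch := positivity) only [Real.log_div, Real.log_mul, Real.log_one, h.log_dc, h.log_sqrtJ]
  linarith [h.L_ge, h.J_ge, (logc_bd (show (1 : ℝ) ≤ 16 by norm_num)).2]

theorem n3 : 15625 * np N (-10) ≤ 1 := by
  have := h.np_pos (-10)
  refine le_of_log (by positivity) one_pos ?_
  simp (disch := positivity) only [Real.log_mul, Real.log_one, h.log_np]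
  linarith [h.L_ge, h.J_ge, lc h]

theorem n4 : 51 * dc N ≤ np N (-20) := by
  have := h.dc_pos
  refine le_of_log (by positivity) (h.np_pos _) ?_
  simp (disch := positivity) only [Real.log_mul, h.log_np, h.log_dc]
  linarith [h.L_ge, h.J_ge, (logc_bd (show (1 : ℝ) ≤ 51 by norm_num)).2]

theorem n5 : 1 / √(pJ N) ≤ 1 / 10 :=
  one_div_le_one_div_of_le (by norm_num)
    (Real.le_sqrt_of_sq_le (by linarith [h.L_ge, h.J_ge]))

theorem n6 : 270 ≤ √(pq N) := Real.le_sqrt_of_sq_le (by linarith [h.q_ge])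
end num

theorem n7 {c : Pm} (h : Gd c) : 15625 * np c.N (-15) ≤ c.q ^ 3 * c.J * c.m * uB c.N ∧
    15625 * np c.N (-15) ≤ c.q ^ 3 * c.J * c.t1B := by
  have := h.big.np_pos (-15); have := h.q_pos; have := h.J_pos; have := h.m_pos
  have := h.big.uB_pos; have := h.t1B_pos
  constructor
  · refine le_of_log (by positivity) (by positivity) ?_
    simp (disch := positivity) only [Real.log_mul, Real.log_pow, h.big.log_np, h.log_q, h.log_J,
      h.big.log_uB]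
    push_cast
    linarith [h.big.L_ge, h.big.J_ge, lc h.big, h.log_m.1]
  · refine le_of_log (by positivity) (by positivity) ?_
    simp (disch := positivity) only [Real.log_mul, Real.log_pow, h.big.log_np, h.log_q, h.log_J,
      h.log_t1B]
    push_cast
    linarith [h.big.L_ge, h.big.J_ge, lc h.big, h.log_e4_le]

theorem eT_row {c : Pm} (hS : c.oS) (hB : c.oB) :
    c.eT 0 1 = 3 * (c.q ^ 3 * c.J * c.m * uB c.N) ∧ c.eT 0 2 = 3 * (c.q ^ 3 * c.J * c.t1B) := by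
  simp only [Pm.eT, Pm.sdO, if_pos hS, if_pos hB, Pm.sdB, Pm.b23]
  constructor <;> simp <;> ring

/-- frequencies: `u j = (colour + 1) * r j / l` with `r j` close to 1 -/
theorem freq {l u1 u2 ε : ℝ} {c1 c2 : ℕ} (hl : 0 < l) (h1 : c1 < 8) (h2 : c2 < 8)
    (a1 : |u1 * l - (c1 + 1)| ≤ 1 / 100) (a2 : |u2 * l - (c2 + 1)| ≤ 1 / 100)
    (hε : ε = 1 ∨ (ε = -1 ∧ c1 ≠ c2)) :
    9 / 10 / l ≤ |u1 + ε * u2| ∧ |u1 + ε * u2| ≤ 17 / l := by
  have e : |u1 + ε * u2| = |u1 * l + ε * (u2 * l)| / l := by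
    rw [show u1 * l + ε * (u2 * l) = (u1 + ε * u2) * l by ring, abs_mul, abs_of_pos hl,
      mul_div_cancel_right₀ _ hl.ne']
  rw [e, div_le_div_iff_of_pos_right hl, div_le_div_iff_of_pos_right hl]
  obtain ⟨b1, b2⟩ := abs_le.1 a1
  obtain ⟨b3, b4⟩ := abs_le.1 a2
  have d1 : (c1 : ℝ) + 1 ≤ 8 := by exact_mod_cast h1
  have d2 : (c2 : ℝ) + 1 ≤ 8 := by exact_mod_cast h2
  have d3 : (0 : ℝ) ≤ c1 := Nat.cast_nonneg _
  have d4 : (0 : ℝ) ≤ c2 := Nat.cast_nonneg _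
  rcases hε with rfl | ⟨rfl, hc⟩
  · exact ⟨le_abs.2 (Or.inl (by linarith)), abs_le.2 ⟨by linarith, by linarith⟩⟩
  · refine ⟨?_, abs_le.2 ⟨by linarith, by linarith⟩⟩
    rcases Nat.lt_or_gt_of_ne hc with k | k
    · have : (c1 : ℝ) + 1 ≤ c2 := by exact_mod_cast k
      exact le_abs.2 (Or.inr (by linarith))
    · have : (c2 : ℝ) + 1 ≤ c1 := by exact_mod_cast k
      exact le_abs.2 (Or.inl (by linarith))

/-! ## one term -/

def Fw (B : Bk) (α : Cu → V → ℝ) (g1 g2 : Cu) (s : ℝ) (w : V) : ℝ :=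
  α g1 w * α g2 w * Real.sin (B.phi g1 w + s * B.phi g2 w) / B.om g1 g2 s
def Mw (B : Bk) (α : Cu → V → ℝ) (g g1 g2 : Cu) (s : ℝ) (w : V) : ℝ :=
  if g1 = g2 ∧ s = -1 then 0 else
    B.sgn g g1 0 * (α g1 w * α g2 w * Real.cos (B.phi g1 w + s * B.phi g2 w))

theorem phi_sm (B : Bk) (g : Cu) : Sm (B.phi g) := ((zc_sm (B.fr g)).coord 0).div_const _

theorem Fw_sm (B : Bk) {α : Cu → V → ℝ} (h : ∀ g, Sm (α g)) (g1 g2 : Cu) (s : ℝ) :
    Sm (Fw B α g1 g2 s) :=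
  (((h g1).mul (h g2)).mul ((phi_sm B g1).add (contDiff_const.mul (phi_sm B g2))).sin).div_const _

theorem phi_zp (B : Bk) (g g1 : Cu) (z : V) : B.phi g1 ((B.fr g).zp z) =
    (fun i => ((B.fr g1).Q⁻¹ * (B.fr g).Q) 0 i / B.lj g1) ⬝ᵥ z + B.phi g1 (B.fr g).z0 := by
  have e : (B.fr g1).zc ((B.fr g).zp z) =
      ((B.fr g1).Q⁻¹ * (B.fr g).Q) *ᵥ z + (B.fr g1).zc (B.fr g).z0 := by
    simp only [Fr.zc, Fr.zp, ← Matrix.mulVec_mulVec, ← Matrix.mulVec_add]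
    congr 1; abel
  simp only [Bk.phi, e, Pi.add_apply, add_div, Matrix.mulVec, dotProduct, Finset.sum_div]
  congr 1
  exact Finset.sum_congr rfl fun i _ => by ring

/-- the facts at one point -/
structure Cx (B : Bk) (C : ℝ) (α : Cu → V → ℝ) (Zm : V → V) (g : Cu) (x : V) : Prop where
  hb : Big B.N
  G : B.G
  pa : B.PA C α
  hC : C ≤ pq B.N
  sz : Sm Zm
  sq : ∀ g g' i, B.sgn g g' i ^ 2 = 1 ∧ B.sgn g g' i = B.sgn g' g i
  dg : ∀ g i, B.sgn g g i = 1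
  eq : ∀ g', Nbr 2 g g' →
    EB ((B.fr g').Q⁻¹ * (B.fr g).Q - diagonal (B.sgn g' g)) (cm (3 * dc B.N)) ∧
    EB ((B.fr g).Oᵀ * (B.fr g').O - diagonal (B.sgn g g')) (cm (2 * dc B.N))
  ml : ∀ g1 g2 i, Nbr 2 g g1 → Nbr 2 g g2 → B.sgn g1 g2 i = B.sgn g g1 i * B.sgn g g2 i
  tm : ∀ (A : V → ℝ) (a : V) (b ω τ : ℝ), Sm A → τ ^ 2 = 1 →
    9 / 10 / (B.c g (mid B.N)).lA ≤ |ω| → |ω| ≤ 17 / (B.c g (mid B.N)).lA →
    (∀ i, |a i - τ * ω * (Pi.single 0 1 : V) i| ≤ np B.N (-20) / (B.c g (mid B.N)).lA) →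
    CB 2 (cv B.D) {(B.fr g).hat Zm x} A (pq B.N ^ 3) →
    (∀ i, |pd i (fun w => A ((B.fr g).hat Zm w) * Real.sin (a ⬝ᵥ (B.fr g).hat Zm w + b) / ω) x -
      τ * (A ((B.fr g).hat Zm x) * Real.cos (a ⬝ᵥ (B.fr g).hat Zm x + b)) *
        jm ((B.fr g).hat Zm) x 0 i| ≤ np B.N (-15)) ∧
    CO 2 (cv 1) {x} (fun w => A ((B.fr g).hat Zm w) * Real.sin (a ⬝ᵥ (B.fr g).hat Zm w + b) / ω)
      ((|A ((B.fr g).hat Zm x)| + np B.N (-10)) *
        (30 / (B.c g (mid B.N)).lA + 2 * (B.c g (mid B.N)).d2u))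
  zx : (B.fr g).hat Zm x ∈ B.R g (11 / 10)

namespace Cx
variable {B : Bk} {C : ℝ} {α : Cu → V → ℝ} {Zm : V → V} {g : Cu} {x : V} (H : Cx B C α Zm g x)
include H

theorem mid_le : mid B.N ≤ nb B.N := by unfold mid nb; omega
theorem gd (g' : Cu) : Gd (B.c g' (mid B.N)) := Bk.gd H.G.toFrOk H.hb g' H.mid_le
theorem N1 : 1 ≤ B.N := by exact_mod_cast H.hb.N_pos
theorem D0 : 0 < B.D := GeoP.D_pos H.G.toFrOk H.N1
theorem a0 (g1 g2 : Cu) (w : V) : 0 ≤ α g1 w * α g2 w :=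
  mul_nonneg (H.pa.rg g1 w).1 (H.pa.rg g2 w).1

theorem lj_bd {g1 : Cu} (n : Nbr 2 g g1) : 0 < B.lj g1 ∧
    |1 / B.lj g1 * (B.c g (mid B.N)).lA - (col g1 + 1)| ≤ 1 / 100 := by
  have cp := Bk.cpk H.G.toFrOk H.hb (n.symm.mono (by norm_num : (2 : ℤ) ≤ 3)) H.mid_le H.mid_le
  have r := (cp.ratios Pm.ro (by simp)).1
  have q := cp.q_inv.2
  have l1 := (H.gd g1).lA_pos
  have r1 := (H.gd g1).ro_pos
  have e : (B.c g (mid B.N)).lA =
      (B.c g (mid B.N)).ro / (B.c g1 (mid B.N)).ro * (B.c g1 (mid B.N)).lA := by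
    show pq B.N ^ 3 * √(pJ B.N) * (_ * (B.lb / 2 ^ mid B.N)) =
      _ * (pq B.N ^ 3 * √(pJ B.N) * ((B.c g1 (mid B.N)).ro * (B.lb / 2 ^ mid B.N)))
    field_simp
  have c8 : (col g1 : ℝ) + 1 ≤ 8 := by exact_mod_cast col_lt g1
  have c0 : (0 : ℝ) < col g1 + 1 := by positivity
  refine ⟨div_pos l1 c0, ?_⟩
  have e2 : 1 / B.lj g1 * (B.c g (mid B.N)).lA - (col g1 + 1) =
      (col g1 + 1) * ((B.c g (mid B.N)).ro / (B.c g1 (mid B.N)).ro - 1) := by
    rw [e, Bk.lj]; field_simp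
  rw [e2, abs_mul, abs_of_pos c0]
  nlinarith [abs_nonneg ((B.c g (mid B.N)).ro / (B.c g1 (mid B.N)).ro - 1)]

theorem row_bd {g1 : Cu} (n : Nbr 2 g g1) (i : Fin 3) :
    |((B.fr g1).Q⁻¹ * (B.fr g).Q) 0 i / B.lj g1 -
      B.sgn g g1 0 / B.lj g1 * (Pi.single 0 1 : V) i| ≤
      51 / 2 * dc B.N / (B.c g (mid B.N)).lA := by
  obtain ⟨p, b⟩ := H.lj_bd n
  have l := (H.gd g).lA_pos
  have e : |((B.fr g1).Q⁻¹ * (B.fr g).Q) 0 i - diagonal (B.sgn g1 g) 0 i| ≤ 3 * dc B.N :=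
    (H.eq g1 n).1 0 i
  have e2 : diagonal (B.sgn g1 g) 0 i = B.sgn g g1 0 * (Pi.single 0 1 : V) i := by
    rw [(H.sq g g1 0).2]
    fin_cases i <;> simp
  have c8 : (col g1 : ℝ) + 1 ≤ 8 := by exact_mod_cast col_lt g1
  have u : 1 / B.lj g1 ≤ 17 / 2 / (B.c g (mid B.N)).lA := by
    rw [le_div_iff₀ l]; linarith [(abs_le.1 b).2]
  rw [e2] at e
  rw [show ((B.fr g1).Q⁻¹ * (B.fr g).Q) 0 i / B.lj g1 -
      B.sgn g g1 0 / B.lj g1 * (Pi.single 0 1 : V) i = (((B.fr g1).Q⁻¹ * (B.fr g).Q) 0 i -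
      B.sgn g g1 0 * (Pi.single 0 1 : V) i) * (1 / B.lj g1) by ring, abs_mul,
    abs_of_pos (one_div_pos.2 p)]
  refine (mul_le_mul e u (one_div_pos.2 p).le (by linarith [H.hb.dc_pos])).trans_eq (by ring)

theorem sgn_cases (g1 g2 : Cu) (i : Fin 3) : B.sgn g1 g2 i = 1 ∨ B.sgn g1 g2 i = -1 :=
  sq_eq_one_iff.1 (H.sq g1 g2 i).1

/-- a term that does not vanish identically -/
theorem term1 {g1 g2 : Cu} (n1 : Nbr 2 g g1) (n2 : Nbr 2 g g2) {s : ℝ} (hs : s = 1 ∨ s = -1)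
    (hc : col g1 ≠ col g2 ∨ (g1 = g2 ∧ s = 1)) :
    9 / 10 / (B.c g (mid B.N)).lA ≤ |B.om g1 g2 s| ∧
    (∀ i, |pd i (fun y => Fw B α g1 g2 s (Zm ((B.fr g).xp y))) x -
      Mw B α g g1 g2 s (Zm ((B.fr g).xp x)) * jm ((B.fr g).hat Zm) x 0 i| ≤ np B.N (-15)) ∧
    CO 2 (cv 1) {x} (fun y => Fw B α g1 g2 s (Zm ((B.fr g).xp y)))
      ((α g1 (Zm ((B.fr g).xp x)) * α g2 (Zm ((B.fr g).xp x)) + np B.N (-10)) *
        (30 / (B.c g (mid B.N)).lA + 2 * (B.c g (mid B.N)).d2u)) := by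
  have l := (H.gd g).lA_pos
  have eo : B.om g1 g2 s = 1 / B.lj g1 + s * B.sgn g1 g2 0 * (1 / B.lj g2) := by
    rw [Bk.om]; ring
  have fr := freq (ε := s * B.sgn g1 g2 0) l (col_lt g1) (col_lt g2) (H.lj_bd n1).2 (H.lj_bd n2).2
    (by
      rcases hc with k | ⟨rfl, rfl⟩
      · rcases hs with rfl | rfl <;> rcases H.sgn_cases g1 g2 0 with e | e <;> simp [e, k]
      · simp [H.dg])
  rw [← eo] at fr
  refine ⟨fr.1, ?_⟩
  have hq := GeoP.det_ne H.G.toFrOk g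
  have hA : Sm fun z => α g1 ((B.fr g).zp z) * α g2 ((B.fr g).zp z) :=
    ((H.pa.sm g1).comp (zp_sm _)).mul ((H.pa.sm g2).comp (zp_sm _))
  have zx : {(B.fr g).hat Zm x} ⊆ B.R g (6 / 5) :=
    singleton_subset_iff.2 (RX_mono _ H.D0.le (by norm_num) H.zx)
  have C0 : 0 ≤ C := (H.pa.cb g g).nonneg (zx rfl)
  have cb : CB 2 (cv B.D) {(B.fr g).hat Zm x}
      (fun z => α g1 ((B.fr g).zp z) * α g2 ((B.fr g).zp z)) (pq B.N ^ 3) := by
    refine CBl.monoB (CB.mul (fun _ => H.D0.le) ((H.pa.sm g1).comp (zp_sm _))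
      ((H.pa.sm g2).comp (zp_sm _)) (CBl.monoU ((H.pa.cb g g1).of_le (by norm_num)) zx)
      (CBl.monoU ((H.pa.cb g g2).of_le (by norm_num)) zx)) ?_
    have q := H.hb.q_ge
    have := mul_le_mul H.hC H.hC C0 (by linarith)
    nlinarith
  have ha : ∀ i, |(fun i => ((B.fr g1).Q⁻¹ * (B.fr g).Q) 0 i / B.lj g1 +
      s * (((B.fr g2).Q⁻¹ * (B.fr g).Q) 0 i / B.lj g2)) i -
      B.sgn g g1 0 * B.om g1 g2 s * (Pi.single 0 1 : V) i| ≤
      np B.N (-20) / (B.c g (mid B.N)).lA := fun i => by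
    have r1 := H.row_bd n1 i
    have r2 := H.row_bd n2 i
    have e : B.sgn g g1 0 * B.om g1 g2 s =
        B.sgn g g1 0 / B.lj g1 + s * (B.sgn g g2 0 / B.lj g2) := by
      rw [eo, H.ml g1 g2 0 n1 n2]
      linear_combination (s * B.sgn g g2 0 / B.lj g2) * (H.sq g g1 0).1
    have e4 : 51 * dc B.N / (B.c g (mid B.N)).lA ≤ np B.N (-20) / (B.c g (mid B.N)).lA :=
      div_le_div_of_nonneg_right (n4 H.hb) l.le
    have e5 : 51 * dc B.N / (B.c g (mid B.N)).lA =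
      2 * (51 / 2 * dc B.N / (B.c g (mid B.N)).lA) := by ring
    rw [e]
    obtain ⟨a1, a2⟩ := abs_le.1 r1
    obtain ⟨a3, a4⟩ := abs_le.1 r2
    rcases hs with rfl | rfl <;> exact abs_le.2 ⟨by linarith, by linarith⟩
  have T := H.tm _ _ (B.phi g1 (B.fr g).z0 + s * B.phi g2 (B.fr g).z0) _ _ hA (H.sq g g1 0).1
    fr.1 fr.2 ha cb
  have ep : ∀ y, (fun i => ((B.fr g1).Q⁻¹ * (B.fr g).Q) 0 i / B.lj g1 +
      s * (((B.fr g2).Q⁻¹ * (B.fr g).Q) 0 i / B.lj g2)) ⬝ᵥ (B.fr g).hat Zm y +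
      (B.phi g1 (B.fr g).z0 + s * B.phi g2 (B.fr g).z0) =
      B.phi g1 (Zm ((B.fr g).xp y)) + s * B.phi g2 (Zm ((B.fr g).xp y)) := fun y => by
    rw [← zp_hat hq Zm y, phi_zp, phi_zp]
    simp only [dotProduct, Fin.sum_univ_three]
    ring
  simp only [ep, zp_hat hq] at T
  rw [abs_of_nonneg (H.a0 _ _ _)] at T
  have nm : ¬ (g1 = g2 ∧ s = -1) := by
    rintro ⟨rfl, rfl⟩
    rcases hc with k | ⟨-, k⟩
    · exact k rfl
    · norm_num at k
  simp only [Mw, if_neg nm]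
  exact T

theorem Mw_le (g1 g2 : Cu) (s : ℝ) (w : V) : |Mw B α g g1 g2 s w| ≤ α g1 w * α g2 w := by
  have a := H.a0 g1 g2 w
  unfold Mw
  split_ifs
  · simpa using a
  · have e : |B.sgn g g1 0| = 1 := by rcases H.sgn_cases g g1 0 with e | e <;> simp [e]
    rw [abs_mul, e, one_mul, abs_mul, abs_of_nonneg a]
    exact mul_le_of_le_one_right a (Real.abs_cos_le_one _)

/-- every term -/
theorem term {g1 g2 : Cu} (n1 : Nbr 2 g g1) (n2 : Nbr 2 g g2) {s : ℝ} (hs : s = 1 ∨ s = -1) :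
    |Fw B α g1 g2 s (Zm ((B.fr g).xp x))| ≤
      α g1 (Zm ((B.fr g).xp x)) * α g2 (Zm ((B.fr g).xp x)) * (10 / 9 * (B.c g (mid B.N)).lA) ∧
    (∀ i, |pd i (fun y => Fw B α g1 g2 s (Zm ((B.fr g).xp y))) x -
      Mw B α g g1 g2 s (Zm ((B.fr g).xp x)) * jm ((B.fr g).hat Zm) x 0 i| ≤ np B.N (-15)) ∧
    CO 2 (cv 1) {x} (fun y => Fw B α g1 g2 s (Zm ((B.fr g).xp y)))
      ((α g1 (Zm ((B.fr g).xp x)) * α g2 (Zm ((B.fr g).xp x)) + np B.N (-10)) *
        (30 / (B.c g (mid B.N)).lA + 2 * (B.c g (mid B.N)).d2u)) := by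
  have l := (H.gd g).lA_pos
  have d := (H.gd g).d2u_pos
  have a := H.a0 g1 g2 (Zm ((B.fr g).xp x))
  by_cases hc : col g1 ≠ col g2 ∨ (g1 = g2 ∧ s = 1)
  · obtain ⟨t1, t2⟩ := H.term1 n1 n2 hs hc
    refine ⟨?_, t2⟩
    have p : 0 < |B.om g1 g2 s| := lt_of_lt_of_le (by positivity) t1
    rw [Fw, abs_div, div_le_iff₀ p, abs_mul, abs_of_nonneg a, mul_assoc _ (10 / 9 * _)]
    refine mul_le_mul_of_nonneg_left ((Real.abs_sin_le_one _).trans ?_) a
    rw [div_le_iff₀ l] at t1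
    linarith
  · have z : (∀ w, Fw B α g1 g2 s w = 0) ∧ ∀ w, Mw B α g g1 g2 s w = 0 := by
      push Not at hc
      by_cases e : g1 = g2
      · subst e
        obtain rfl : s = -1 := hs.resolve_left (hc.2 rfl)
        exact ⟨fun w => by simp [Fw], fun w => by simp [Mw]⟩
      · have k : ∀ w, α g1 w * α g2 w = 0 := fun w => by
          by_contra k
          exact e (GeoP.col_unique H.G H.N1 (by norm_num) (by norm_num) (by norm_num) hc.1
            (H.pa.sup g1 w (left_ne_zero_of_mul k)) (H.pa.sup g2 w (right_ne_zero_of_mul k)))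
        exact ⟨fun w => by simp [Fw, k], fun w => by simp [Mw, k]⟩
    have p1 := H.hb.np_pos (-15)
    have p2 := H.hb.np_pos (-10)
    simp only [z.1, z.2]
    exact ⟨by rw [abs_zero]; positivity, fun i => by simpa using p1.le, cbl_zero (by positivity)⟩

end Cx
end P0P
end
end Pool.Agent.MP_20bec2_an.T3

end MrgPart0

-- ======== part 1: formerly Pool.Agent.MP_20bec2_an.T3.P0
section MrgPart1

/-! The primitive of the oscillation. -/

set_option autoImplicit false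
set_option linter.unusedSectionVars false
open MeasureTheory Set Filter Matrix Topology

namespace Pool.Agent.MP_20bec2_an.T3
noncomputable section
open Classical

namespace P0P
open Prof

def TT (g : Cu) : Finset (Cu × Cu) := nbrs g 2 ×ˢ nbrs g 2
def Sw (B : Bk) (α : Cu → V → ℝ) (g : Cu) (κ : Cu × Cu → ℝ) (w : V) : ℝ :=
  ∑ p ∈ TT g, κ p / 2 * (Fw B α p.1 p.2 1 w + Fw B α p.1 p.2 (-1) w)
def Mt (B : Bk) (α : Cu → V → ℝ) (g : Cu) (κ : Cu × Cu → ℝ) (w : V) : ℝ :=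
  ∑ p ∈ TT g, κ p / 2 * (Mw B α g p.1 p.2 1 w + Mw B α g p.1 p.2 (-1) w)
def kP (B : Bk) (t : Cu → ℝ) (p : Cu × Cu) : ℝ :=
  if B.psh p.1 ∧ B.psh p.2 then B.tau p.1 p.2 * t p.1 else 0

theorem card_TT (g : Cu) : ((TT g).card : ℝ) = 15625 := by
  rw [TT, Finset.card_product, card_nb]; norm_num

theorem mem_TT {g : Cu} {p : Cu × Cu} (h : p ∈ TT g) : Nbr 2 g p.1 ∧ Nbr 2 g p.2 :=
  (Finset.mem_product.1 h).imp mem_nb.1 mem_nb.1

theorem Sw_sm (B : Bk) {α : Cu → V → ℝ} (h : ∀ g, Sm (α g)) (g : Cu) (κ : Cu × Cu → ℝ) :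
    Sm (Sw B α g κ) :=
  ContDiff.sum fun _ _ => contDiff_const.mul ((Fw_sm B h _ _ _).add (Fw_sm B h _ _ _))

theorem P1_eq (B : Bk) (α : Cu → V → ℝ) (g1 g2 : Cu) (w : V) : B.P1 α g1 g2 w =
    B.tau g1 g2 / 2 * (Fw B α g1 g2 1 w + Fw B α g1 g2 (-1) w) := by
  simp only [Bk.P1, Fw, one_mul, neg_one_mul, sub_eq_add_neg]

section loc
variable {B : Bk} {C : ℝ} {α : Cu → V → ℝ} (pa : B.PA C α) {g : Cu} {w : V}
  (hw : w ∈ B.K g (6 / 5))
include pa hw

theorem P0_loc (i : Fin 3) :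
    B.P0 α w i = Sw B α g (kP B fun g1 => (B.fr g1).O i 0) w := by
  rw [Bk.P0, finsum_eq_sum_of_support_subset (s := TT g)]
  · refine Finset.sum_congr rfl fun p _ => ?_
    rw [kP, P1_eq]
    split_ifs <;> ring
  · intro p hp
    by_contra k
    refine hp ?_
    have z : α p.1 w * α p.2 w = 0 := by
      by_contra z
      exact k (Finset.mem_product.2 ⟨(pa.fin g w hw _ (left_ne_zero_of_mul z)).1,
        (pa.fin g w hw _ (right_ne_zero_of_mul z)).1⟩)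
    simp [Bk.P1, z]

theorem Pq_loc : ((B.fr g).Oᵀ *ᵥ B.P0 α w) 0 =
    Sw B α g (kP B fun g1 => ((B.fr g).Oᵀ * (B.fr g1).O) 0 0) w := by
  simp only [Matrix.mulVec, dotProduct, P0_loc pa hw, Sw, Finset.mul_sum, Matrix.mul_apply]
  rw [Finset.sum_comm]
  refine Finset.sum_congr rfl fun p _ => ?_
  simp only [kP, Fin.sum_univ_three]
  split_ifs <;> ring

theorem s0_loc : B.s0 α g w = ∑ g' ∈ nbrs g 2,
    if B.psh g' then B.tau g g' * (α g' w * Real.cos (B.phi g' w)) else 0 := by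
  refine finsum_eq_sum_of_support_subset _ fun g' h => (pa.fin g w hw g' fun e => h ?_).1
  simp [e]

theorem th_loc : thP α B.psh w = ∑ g' ∈ nbrs g 2, if B.psh g' then α g' w ^ 2 else 0 := by
  refine finsum_eq_sum_of_support_subset _ fun g' h => (pa.fin g w hw g' fun e => h ?_).1
  simp [e]
end loc

theorem P0_sm {B : Bk} {C : ℝ} {α : Cu → V → ℝ} (pa : B.PA C α) (G : B.G) (hN : 1 ≤ B.N) :
    Sm (B.P0 α) := by
  refine sm_pi fun i => contDiff_iff_contDiffAt.2 fun w => ?_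
  obtain ⟨g, hg⟩ := GeoP.cover G hN w
  have e : B.K g (6 / 5) ∈ 𝓝 w := (zc_sm (B.fr g)).continuous.continuousAt.preimage_mem_nhds
    (RX_nhds (GeoP.D_pos G.toFrOk hN) (by norm_num) hg)
  exact (Sw_sm B pa.sm g _).contDiffAt.congr_of_eventuallyEq
    (mem_of_superset e fun v hv => P0_loc pa hv i)

theorem half_le {κ a b A : ℝ} (hκ : |κ| ≤ 1) (ha : |a| ≤ A) (hb : |b| ≤ A) :
    |κ / 2 * (a + b)| ≤ A := by
  have h1 := abs_add_le a b
  rw [abs_mul, abs_div, abs_two]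
  nlinarith [abs_nonneg κ, abs_nonneg (a + b), abs_nonneg a]

theorem n8 {c : Pm} (h : Gd c) :
    15625 * np c.N (-15) + 8 * (3 * (c.q ^ 3 * c.J * c.m * uB c.N)) ≤
      c.q ^ 4 * c.J * c.m * uB c.N ∧
    15625 * np c.N (-15) + 8 * (3 * (c.q ^ 3 * c.J * c.t1B)) ≤ c.q ^ 4 * c.J * c.t1B := by
  obtain ⟨m1, m2⟩ := n7 h
  have q : 10000000 ≤ c.q := h.big.q_ge
  have p := h.big.np_pos (-15)
  have a1 := mul_le_mul_of_nonneg_right q (show 0 ≤ c.q ^ 3 * c.J * c.m * uB c.N by linarith)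
  have a2 := mul_le_mul_of_nonneg_right q (show 0 ≤ c.q ^ 3 * c.J * c.t1B by linarith)
  constructor <;> linarith

theorem ab {a m j e b : ℝ} (h1 : |a - m * j| ≤ e) (h2 : |m| ≤ 8 * 1) (h3 : |j| ≤ b) :
    |a| ≤ e + 8 * b := by
  have h4 := abs_add_le (a - m * j) (m * j)
  rw [sub_add_cancel, abs_mul] at h4
  have := mul_le_mul h2 h3 (abs_nonneg _) (by norm_num)
  linarith

theorem ab0 {a m j s e d u : ℝ} (h1 : |a - m * j| ≤ e) (h2 : |m| ≤ 8 * 1) (h3 : |j - 1| ≤ 1 / u)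
    (h4 : |m - s| ≤ d) (h5 : e ≤ 1 / u) (h6 : d ≤ 1 / u) : |a - s| ≤ 20 / u := by
  have a3 := mul_le_mul h2 h3 (abs_nonneg _) (by norm_num)
  rw [← abs_mul, mul_sub, mul_one] at a3
  obtain ⟨b1, b2⟩ := abs_le.1 h1
  obtain ⟨b3, b4⟩ := abs_le.1 h4
  obtain ⟨b5, b6⟩ := abs_le.1 a3
  have c3 := (abs_nonneg _).trans h3
  rw [show 20 / u = 20 * (1 / u) by ring]
  exact abs_le.2 ⟨by linarith, by linarith⟩

theorem ab2 {l d q : ℝ} (hl : 0 < l) (hd : 0 < d) (h1 : 270 ≤ √q) (h2 : 10000000 ≤ q) :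
    9 * (30 / l + 2 * d) ≤ √q / l + q * d := by
  have a1 := div_le_div_of_nonneg_right h1 hl.le
  have a2 := mul_le_mul_of_nonneg_right h2 hd.le
  rw [show 9 * (30 / l + 2 * d) = 270 / l + 18 * d by ring]
  linarith

namespace Cx
variable {B : Bk} {C : ℝ} {α : Cu → V → ℝ} {Zm : V → V} {g : Cu} {x : V} (H : Cx B C α Zm g x)
include H

theorem sum8 (w : V) : ∑ p ∈ TT g, α p.1 w * α p.2 w ≤ 8 := by
  have := (H.pa.l1 w (nbrs g 2)).1
  rwa [pow_two, Finset.sum_mul_sum, ← Finset.sum_product'] at this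

theorem Mt_le {κ : Cu × Cu → ℝ} {e : ℝ} (h0 : 0 ≤ e) (hκ : ∀ p ∈ TT g, |κ p| ≤ e) (w : V) :
    |Mt B α g κ w| ≤ 8 * e := by
  refine (Finset.abs_sum_le_sum_abs _ _).trans ((Finset.sum_le_sum
    (g := fun p => e * (α p.1 w * α p.2 w)) fun p hp => ?_).trans ?_)
  · have h1 := half_le (κ := 1) (by norm_num) (H.Mw_le p.1 p.2 1 w) (H.Mw_le p.1 p.2 (-1) w)
    rw [show κ p / 2 * (Mw B α g p.1 p.2 1 w + Mw B α g p.1 p.2 (-1) w) =
      κ p * (1 / 2 * (Mw B α g p.1 p.2 1 w + Mw B α g p.1 p.2 (-1) w)) by ring, abs_mul]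
    exact mul_le_mul (hκ p hp) h1 (abs_nonneg _) h0
  · rw [← Finset.mul_sum, mul_comm]
    exact mul_le_mul_of_nonneg_right (H.sum8 w) h0

theorem sums {κ : Cu × Cu → ℝ} (hκ : ∀ p ∈ TT g, |κ p| ≤ 1) :
    |Sw B α g κ (Zm ((B.fr g).xp x))| ≤ 9 * (B.c g (mid B.N)).lA ∧
    (∀ i, |pd i (fun y => Sw B α g κ (Zm ((B.fr g).xp y))) x -
      Mt B α g κ (Zm ((B.fr g).xp x)) * jm ((B.fr g).hat Zm) x 0 i| ≤ 15625 * np B.N (-15)) ∧
    CO 2 (cv 1) {x} (fun y => Sw B α g κ (Zm ((B.fr g).xp y)))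
      (9 * (30 / (B.c g (mid B.N)).lA + 2 * (B.c g (mid B.N)).d2u)) := by
  have l := (H.gd g).lA_pos
  have d := (H.gd g).d2u_pos
  have T := fun p (hp : p ∈ TT g) (s : ℝ) (hs : s = 1 ∨ s = -1) =>
    H.term (mem_TT hp).1 (mem_TT hp).2 hs
  have sm : ∀ (p : Cu × Cu) (s : ℝ), Sm fun y => Fw B α p.1 p.2 s (Zm ((B.fr g).xp y)) :=
    fun p s => (Fw_sm B H.pa.sm _ _ _).comp (H.sz.comp (xp_sm _))
  have s8 := H.sum8 (Zm ((B.fr g).xp x))
  refine ⟨?_, fun i => ?_, ?_⟩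
  · refine (Finset.abs_sum_le_sum_abs _ _).trans ((Finset.sum_le_sum fun p hp =>
      half_le (hκ p hp) (T p hp 1 (Or.inl rfl)).1 (T p hp (-1) (Or.inr rfl)).1).trans ?_)
    rw [← Finset.sum_mul]
    nlinarith
  · unfold Sw Mt
    rw [pd_sum _ fun p _ => contDiff_const.mul ((sm p 1).add (sm p (-1))), Finset.sum_mul,
      ← Finset.sum_sub_distrib]
    refine (Finset.abs_sum_le_sum_abs _ _).trans ((Finset.sum_le_card_nsmul _ _ (np B.N (-15))
      fun p hp => ?_).trans_eq (by rw [nsmul_eq_mul, card_TT]))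
    rw [pd_const_mul, pd_add (sm p 1) (sm p (-1))]
    refine le_trans (le_of_eq ?_)
      (half_le (hκ p hp) ((T p hp 1 (Or.inl rfl)).2.1 i) ((T p hp (-1) (Or.inr rfl)).2.1 i))
    congr 1; ring
  · have h1 : ∀ i, (0 : ℝ) ≤ cv 1 i := fun _ => zero_le_one
    refine CBl.monoB (CBl.sum (TT g) h1
      (fun p _ => contDiff_const.mul ((sm p 1).add (sm p (-1)))) fun p hp =>
        CBl.smul_le (C := 1 / 2) h1 (CBl.add h1 (sm p 1) (sm p (-1)) (T p hp 1 (Or.inl rfl)).2.2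
          (T p hp (-1) (Or.inr rfl)).2.2) (by
            rw [abs_div, abs_two]; linarith [hκ p hp])) ?_
    have e : ∀ a b : ℝ, 1 / 2 * (a * b + a * b) = a * b := fun a b => by ring
    simp only [e]
    rw [← Finset.sum_mul, Finset.sum_add_distrib, Finset.sum_const, nsmul_eq_mul, card_TT]
    exact mul_le_mul_of_nonneg_right (by linarith [n3 H.hb]) (by positivity)

theorem tau_abs (g1 g2 : Cu) : |B.tau g1 g2| = 1 := by
  rcases H.sgn_cases g1 g2 0 with e | e <;> rcases H.sgn_cases g1 g2 2 with e' | e' <;>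
    simp [Bk.tau, e, e']

theorem kP_le {t : Cu → ℝ} {e : ℝ} (h0 : 0 ≤ e) {p : Cu × Cu} (ht : |t p.1| ≤ e) :
    |kP B t p| ≤ e := by
  unfold kP
  split_ifs
  · rwa [abs_mul, H.tau_abs, one_mul]
  · simpa using h0

theorem wK : Zm ((B.fr g).xp x) ∈ B.K g (6 / 5) := by
  have h : (B.fr g).hat Zm x ∈ B.R g (6 / 5) := RX_mono _ H.D0.le (by norm_num) H.zx
  exact h

theorem near : ∀ᶠ y in 𝓝 x, Zm ((B.fr g).xp y) ∈ B.K g (6 / 5) := by
  have h1 : B.R g (6 / 5) ∈ 𝓝 ((B.fr g).hat Zm x) := RX_nhds H.D0 (by norm_num) H.zx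
  filter_upwards [(hat_sm (B.fr g) H.sz).continuous.continuousAt.preimage_mem_nhds h1] with y hy
  exact hy

theorem main_eq {w : V} (hw : w ∈ B.K g (6 / 5)) :
    Mt B α g (kP B fun g1 => B.sgn g g1 0) w = B.s0 α g w ^ 2 - thP α B.psh w / 2 := by
  rw [s0_loc H.pa hw, th_loc H.pa hw, pow_two, Finset.sum_mul_sum, Finset.sum_div,
    ← Finset.sum_sub_distrib, Mt, TT, Finset.sum_product]
  refine Finset.sum_congr rfl fun g1 h1 => ?_
  rw [← Finset.sum_ite_eq_of_mem (nbrs g 2) g1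
    (fun _ => (if B.psh g1 then α g1 w ^ 2 else 0) / 2) h1, ← Finset.sum_sub_distrib]
  refine Finset.sum_congr rfl fun g2 h2 => ?_
  have n1 := mem_nb.1 h1
  have n2 := mem_nb.1 h2
  have s1 := (H.sq g g1 0).1
  have t : B.tau g1 g2 = B.tau g g1 * B.tau g g2 := by
    simp only [Bk.tau, H.ml g1 g2 _ n1 n2]; ring
  have ne : ¬ ((1 : ℝ) = -1) := by norm_num
  simp only [kP, Mw, ne, and_false, and_true, if_false, one_mul, neg_one_mul, Real.cos_add,
    Real.cos_neg, Real.sin_neg]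
  by_cases e : g1 = g2
  · subst e
    have t1 : B.tau g1 g1 = 1 := by simp [Bk.tau, H.dg]
    have c := Real.sin_sq_add_cos_sq (B.phi g1 w)
    rw [t1] at t
    by_cases k : B.psh g1
    · simp only [k, and_self, if_true, t1]
      linear_combination (α g1 w ^ 2 / 2 * (Real.cos (B.phi g1 w) ^ 2 -
        Real.sin (B.phi g1 w) ^ 2)) * s1 - α g1 w ^ 2 / 2 * c +
        (α g1 w * Real.cos (B.phi g1 w)) ^ 2 * t
    · simp [k]
  · by_cases k : B.psh g1 <;> by_cases k' : B.psh g2 <;> simp only [k, k', e, and_self, if_true,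
      if_false, and_false, false_and, t]
    · linear_combination (B.tau g g1 * B.tau g g2 * α g1 w * α g2 w * Real.cos (B.phi g1 w) *
        Real.cos (B.phi g2 w)) * s1
    all_goals simp

theorem main_le {w : V} (hw : w ∈ B.K g (6 / 5)) :
    |Mt B α g (kP B fun g1 => ((B.fr g).Oᵀ * (B.fr g1).O) 0 0) w -
      (B.s0 α g w ^ 2 - thP α B.psh w / 2)| ≤ 16 * dc B.N := by
  have d := H.hb.dc_pos
  have := H.Mt_le (κ := kP B fun g1 => ((B.fr g).Oᵀ * (B.fr g1).O) 0 0 - B.sgn g g1 0)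
    (e := 2 * dc B.N) (by positivity) (fun p hp => H.kP_le (by positivity) (by
      simpa [cm] using (H.eq p.1 (mem_TT hp).1).2 0 0)) w
  rw [← H.main_eq hw]
  refine le_trans (le_of_eq ?_) (this.trans_eq (by ring))
  simp only [Mt, ← Finset.sum_sub_distrib]
  congr 1
  refine Finset.sum_congr rfl fun p _ => ?_
  unfold kP
  split_ifs <;> ring

end Cx
end P0P

open P0P Prof in
theorem p0 (hT : TermStmt) (hS : SgnStmt) : P0Stmt := by
  filter_upwards [hT, hS, ev_big] with N hT hS hb B hN C α Zm G pa hC zh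
  subst hN
  have N1 : 1 ≤ B.N := by exact_mod_cast hb.N_pos
  refine ⟨P0_sm pa G N1, fun g dp => ?_⟩
  obtain ⟨s1, s2, s3, s4, s5, -⟩ := hS B rfl G
  obtain ⟨z1, z2⟩ := zh.2 g dp
  have ml : mid B.N ≤ nb B.N := by unfold mid nb; omega
  have gd : Gd (B.c g (mid B.N)) := Bk.gd G.toFrOk hb g ml
  have D0 : 0 < B.D := GeoP.D_pos G.toFrOk N1
  have j10 : ∀ x ∈ B.R g 1, EB (jm ((B.fr g).hat Zm) x - 1) (cm (1 / 10)) := fun x hx =>
    GeoP.eb_mono (z1 x hx).2.1 (n5 hb)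
  have n3 : ∀ g', Nbr 2 g g' → Nbr 3 g g' := fun g' n => n.mono (by norm_num)
  have H : ∀ x ∈ B.R g 1, Cx B C α Zm g x := fun x hx =>
    ⟨hb, G, pa, hC, zh.1, s2, s3, fun g' n => ⟨(s4 g' g (n3 g' n).symm (Or.inr (s1 g dp))).1,
        (s4 g g' (n3 g' n) (Or.inl (s1 g dp))).2⟩,
      fun g1 g2 i n1 n2 => by rw [s5 g1 g g2 i (n3 _ n1).symm (n3 _ n2) (s1 g dp), (s2 g1 g i).2],
      fun A a b ω τ hA h1 h2 h3 h4 h5 => hT (B.c g (mid B.N)) rfl gd.ok _ A a b ω τ x rfl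
        (hat_sm _ zh.1) hA h1 h2 h3 h4 h5 (j10 x hx)
        fun i => CBl.monoU (z2 i) (singleton_subset_iff.2 hx),
      by
        have h1 : ‖(B.fr g).O *ᵥ x‖ ≤ 1 * B.D := hx
        have h2 := norm_add_le ((B.fr g).O *ᵥ x) ((B.fr g).O *ᵥ ((B.fr g).hat Zm x - x))
        rw [← mulVec_add, add_sub_cancel] at h2
        show ‖(B.fr g).O *ᵥ (B.fr g).hat Zm x‖ ≤ 11 / 10 * B.D
        linarith [(z1 x hx).2.2]⟩
  have k1 : ∀ x ∈ B.R g 1, ∀ i, ∀ p ∈ TT g, |kP B (fun g1 => (B.fr g1).O i 0) p| ≤ 1 :=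
    fun x hx i p _ => (H x hx).kP_le zero_le_one (orth_abs_le (GeoP.orth G.toFrOk _) _ _)
  have k2 : ∀ x ∈ B.R g 1, ∀ p ∈ TT g,
      |kP B (fun g1 => ((B.fr g).Oᵀ * (B.fr g1).O) 0 0) p| ≤ 1 := fun x hx p _ =>
    (H x hx).kP_le zero_le_one (orth_abs_le (GeoP.P_orth (GeoP.orth G.toFrOk _)
      (GeoP.orth G.toFrOk _)) _ _)
  have e1 : ∀ x ∈ B.R g 1, ∀ i, (fun y => B.P0 α (Zm ((B.fr g).xp y)) i) =ᶠ[𝓝 x]
      fun y => Sw B α g (kP B fun g1 => (B.fr g1).O i 0) (Zm ((B.fr g).xp y)) := fun x hx i =>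
    (H x hx).near.mono fun y hy => P0_loc pa hy i
  have e2 : ∀ x ∈ B.R g 1, B.Pq (fun y => B.P0 α (Zm y)) g =ᶠ[𝓝 x] fun y =>
      Sw B α g (kP B fun g1 => ((B.fr g).Oᵀ * (B.fr g1).O) 0 0) (Zm ((B.fr g).xp y)) :=
    fun x hx => (H x hx).near.mono fun y hy => Pq_loc pa hy
  refine ⟨fun x hx => ⟨fun i => ?_, ?_⟩, cbl_of_local fun x hx => ?_, fun i => ?_⟩
  · rw [P0_loc pa (H x hx).wK]
    exact ((H x hx).sums (k1 x hx i)).1
  · have S := ((H x hx).sums (k2 x hx)).2.1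
    have M := (H x hx).Mt_le zero_le_one (k2 x hx) (Zm ((B.fr g).xp x))
    obtain ⟨fS, fB, -⟩ := Bk.deep_flags G.toFrOk hb dp (Nbr.refl' (by norm_num) g) ml
    obtain ⟨r1, r2⟩ := eT_row fS fB
    obtain ⟨m1, m2⟩ := n8 gd
    simp only [pd_congr (e2 x hx)]
    refine ⟨?_, ?_, ?_⟩
    · exact ab0 (S 0) M ((z1 x hx).2.1 0 0) ((H x hx).main_le (H x hx).wK) (n1 hb) (n2 hb)
    · have a2 : |jm ((B.fr g).hat Zm) x 0 1| ≤ (B.c g (mid B.N)).eT 0 1 := by
        simpa using (z1 x hx).1 0 1 (by decide)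
      exact (ab (S 1) M (a2.trans_eq r1)).trans m1
    · have a2 : |jm ((B.fr g).hat Zm) x 0 2| ≤ (B.c g (mid B.N)).eT 0 2 := by
        simpa using (z1 x hx).1 0 2 (by decide)
      exact (ab (S 2) M (a2.trans_eq r2)).trans m2
  · exact CBl.congr (CBl.monoB ((H x hx).sums (k2 x hx)).2.2
      (ab2 gd.lA_pos gd.d2u_pos (n6 hb) hb.q_ge)) fun y hy => by
      rw [mem_singleton_iff.1 hy]; exact e2 x hx
  · refine (cv_one_iff.2 fun j x hx => ?_).toCO le_rfl le_rfl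
    have S := ((H x hx).sums (k1 x hx i)).2.1 j
    have M := (H x hx).Mt_le zero_le_one (k1 x hx i) (Zm ((B.fr g).xp x))
    have a1 : |jm ((B.fr g).hat Zm) x 0 j - (1 : Mx) 0 j| ≤ 1 / 10 := j10 x hx 0 j
    have a2 : |(1 : Mx) 0 j| ≤ 1 := orth_abs_le orth_one 0 j
    have a3 := abs_add_le (jm ((B.fr g).hat Zm) x 0 j - (1 : Mx) 0 j) ((1 : Mx) 0 j)
    rw [sub_add_cancel] at a3
    have a4 := ab S M (a3.trans (add_le_add a1 a2))
    rw [pd_congr (e1 x hx i)]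
    show 1 * _ ≤ _
    linarith [n1 hb, n5 hb]

end
end Pool.Agent.MP_20bec2_an.T3

end MrgPart1

-- ======== part 2: formerly Pool.Agent.MP_20bec2_an.T3.Fup
section MrgPart2

/-! Row FUP: the record after one counted step of `f`. -/

set_option autoImplicit false
set_option linter.unusedSectionVars false
open Set Filter Matrix

namespace Pool.Agent.MP_20bec2_an.T3
noncomputable section
open Classical

namespace Fup

/-- every point has a site -/
lemma exists_NS {B : Bk} (hs : 0 < B.hsp) (x : V) : ∃ i, B.NS i x := by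
  refine ⟨fun j => ⌊x j / B.hsp⌋, (pi_norm_le_iff_of_nonneg hs.le).2 fun j => ?_⟩
  have h1 := Int.floor_le (x j / B.hsp)
  have h2 := Int.lt_floor_add_one (x j / B.hsp)
  rw [le_div_iff₀ hs] at h1
  rw [div_lt_iff₀ hs] at h2
  simp only [Pi.sub_apply, cen, Real.norm_eq_abs]
  rw [abs_le]
  constructor <;> linarith

lemma two_pow {j k : ℕ} (h : j ≤ k) : (2 : ℝ) ^ k = 2 ^ j * 2 ^ (k - j) := by
  rw [← pow_add, Nat.add_sub_cancel' h]

lemma lam_eq (B : Bk) (g g' : Cu) {j k : ℕ} (h : j ≤ k) :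
    (B.c g k).lam = (B.c g' j).lam / 2 ^ (k - j) := by
  show B.lb / 2 ^ k = B.lb / 2 ^ j / 2 ^ (k - j)
  rw [two_pow h, div_div]

lemma y_eq (B : Bk) (g g' : Cu) {j k : ℕ} (h : j ≤ k) :
    (B.c g k).y = (B.c g' j).y / 2 ^ (k - j) := by
  show np B.N (11 / 10) * (B.c g k).lam = np B.N (11 / 10) * (B.c g' j).lam / 2 ^ (k - j)
  rw [lam_eq B g g' h, mul_div_assoc]

lemma hs_eq (B : Bk) (g : Cu) {j k : ℕ} (h : j ≤ k) (i : Fin 3) :
    (B.c g k).hs i = (B.c g j).hs i / 2 ^ (k - j) := by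
  fin_cases i
  · show (B.c g j).ro * (B.c g k).lam = (B.c g j).ro * (B.c g j).lam / 2 ^ (k - j)
    rw [lam_eq B g g h, mul_div_assoc]
  · exact lam_eq B g g h
  · exact y_eq B g g h

lemma ph_succ (j k r : ℕ) : ph j k (r + 1) = ph j k r + 1 / 9 / 2 ^ (k - j) := by
  unfold ph; push_cast; ring

lemma cnt_succ {j k : ℕ} (h : j ≤ k) (r : ℕ) : cnt k (r + 1) - 9 * j = (cnt k r - 9 * j) + 1 := by
  unfold cnt; omega

/-! ### the ledger -/

section ledger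
variable {xs xs' : ℕ → Cu → ℝ} {n : ℕ} (h : ∀ m < n, xs' m = xs m)
include h

lemma SA_congr (N : ℕ) (b0 : ℝ) (a : ℕ) {b : ℕ} (hb : b ≤ n) (i : Cu) :
    SA N b0 xs' a b i = SA N b0 xs a b i :=
  Finset.sum_congr rfl fun m hm => by rw [h m ((Finset.mem_Ico.1 hm).2.trans_le hb)]

lemma piO_congr (B : Bk) (g : Cu) {m : ℕ} (hm : m ≤ n) (i : Cu) :
    B.piO g xs' m i = B.piO g xs m i := by
  unfold Bk.piO; rw [SA_congr h _ _ _ hm]

lemma SG_congr (B : Bk) (g : Cu) (a : ℕ) (i : Cu) : B.SG g xs' a n i = B.SG g xs a n i :=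
  Finset.sum_congr rfl fun m hm => by
    have hm' := (Finset.mem_Ico.1 hm).2
    rw [h m hm', piO_congr h B g hm'.le]
end ledger

/-- size of the counted step -/
def Aa (B : Bk) (g : Cu) (xs : ℕ → Cu → ℝ) (k r : ℕ) (i : Cu) : ℝ :=
  if r = 0 then 0 else Real.sqrt ((B.c g 0).bbO * (1 + xs (tm k r) i) / B.N)
def Pp (B : Bk) (g : Cu) (xs : ℕ → Cu → ℝ) (k r : ℕ) (i : Cu) : ℝ :=
  if r = 0 then 0 else B.piO g xs (tm k r) i

lemma fp_eq (B : Bk) (g : Cu) (xs : ℕ → Cu → ℝ) (k r : ℕ) (i : Cu) :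
    (if r = 0 then FPc B.N 0 0 else
      FPc B.N (Real.sqrt ((B.c g 0).bbO * (1 + xs (tm k r) i) / B.N)) (B.piO g xs (tm k r) i)) =
    FPc B.N (Aa B g xs k r i) (Pp B g xs k r i) := by
  unfold Aa Pp; split_ifs <;> rfl

lemma led_step (B : Bk) (g : Cu) {xs xs' : ℕ → Cu → ℝ} {j k r : ℕ} (hj : j ≤ k)
    (h : ∀ m < tm k r, xs' m = xs m) (i : Cu) :
    B.SG g xs' (8 * j) (tm k (r + 1)) i = B.SG g xs (8 * j) (tm k r) i +
      pq B.N * (Aa B g xs' k r i * (Pp B g xs' k r i + Aa B g xs' k r i)) ∧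
    SA B.N (B.c g 0).bbO xs' (8 * j) (tm k (r + 1)) i =
      SA B.N (B.c g 0).bbO xs (8 * j) (tm k r) i + Aa B g xs' k r i := by
  rw [← SG_congr h B g, ← SA_congr h _ _ _ le_rfl]
  unfold Aa Pp
  split_ifs with e
  · subst e
    simp [tm]
  · have e1 : tm k (r + 1) = tm k r + 1 := by unfold tm; omega
    have e2 : 8 * j ≤ tm k r := by unfold tm; omega
    rw [e1, Bk.SG, SA, Finset.sum_Ico_succ_top e2, Finset.sum_Ico_succ_top e2]
    exact ⟨by rw [Bk.SG]; ring, rfl⟩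

/-! ### matrices -/

lemma eb_step {X Y Z W L : Mx} {g h k g' h' k' g'' h'' k'' : ℝ}
    (h1 : EB (Y - Z - W) (bm g h k + L)) (h2 : EB (X - Y) (bm g' h' k')) (e1 : g + g' ≤ g'')
    (e2 : h + h' ≤ h'') (e3 : k + k' ≤ k'') : EB (X - Z - W) (bm g'' h'' k'' + L) := fun a b => by
  have a1 := h1 a b
  have a2 := h2 a b
  have a3 := bm_mono e1 e2 e3 a b
  have a4 := abs_add_le ((X - Y) a b) ((Y - Z - W) a b)
  have e : (X - Y) a b + (Y - Z - W) a b = (X - Z - W) a b := by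
    simp only [Matrix.sub_apply]; ring
  rw [e] at a4
  simp only [bm_add, Matrix.add_apply] at a1 a3 ⊢
  linarith

/-- the corner entry from the determinant -/
lemma corner {h : V} (hh : ∀ i, 0 < h i) {T : Mx}
    (h1 : ∀ a b, ¬ (a = 2 ∧ b = 2) → |(T - 1) a b| * h b ≤ 1 / 100 * h a)
    (hd : |T.det - 1| ≤ 1 / 4) : |T 2 2 - 1| ≤ 1 / 2 := by
  obtain ⟨m, hm⟩ : ∃ m : Fin 3 → Fin 3 → ℝ, m = fun a b => (T - 1) a b * h b / h a := ⟨_, rfl⟩
  have b : ∀ a b, ¬ (a = 2 ∧ b = 2) → |m a b| ≤ 1 / 100 := fun a b hab => by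
    rw [hm]
    simp only
    rw [abs_div, abs_mul, abs_of_pos (hh a), abs_of_pos (hh b), div_le_iff₀ (hh a)]
    exact h1 a b hab
  have n0 := (hh 0).ne'
  have n1 := (hh 1).ne'
  have n2 := (hh 2).ne'
  have e : T.det = T 2 2 * ((1 + m 0 0) * (1 + m 1 1) - m 0 1 * m 1 0) +
      (-(1 + m 0 0) * (m 1 2 * m 2 1) + m 0 1 * (m 1 2 * m 2 0) + m 1 0 * (m 0 2 * m 2 1) -
        (1 + m 1 1) * (m 0 2 * m 2 0)) := by
    rw [Matrix.det_fin_three, hm]
    simp [Matrix.sub_apply]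
    field_simp
    ring
  have p : ∀ {u v : ℝ}, |u| ≤ 1 / 100 → |v| ≤ 1 / 100 → |u * v| ≤ 1 / 10000 := fun hu hv => by
    rw [abs_mul]
    exact (mul_le_mul hu hv (abs_nonneg _) (by norm_num)).trans (by norm_num)
  have p' : ∀ {u v : ℝ}, |u| ≤ 2 → |v| ≤ 1 / 10000 → |u * v| ≤ 2 / 10000 := fun hu hv => by
    rw [abs_mul]
    exact (mul_le_mul hu hv (abs_nonneg _) (by norm_num)).trans (by norm_num)
  have b00 := abs_le.1 (b 0 0 (by simp))
  have b11 := abs_le.1 (b 1 1 (by simp))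
  have b01 := b 0 1 (by simp)
  have b10 := b 1 0 (by simp)
  have b02 := b 0 2 (by simp)
  have b12 := b 1 2 (by simp)
  have b20 := b 2 0 (by simp)
  have b21 := b 2 1 (by simp)
  have q0 := abs_le.1 (p (b 0 0 (by simp)) (b 1 1 (by simp)))
  have q1 := abs_le.1 (p b01 b10)
  have q2 := abs_le.1 (p' (u := -(1 + m 0 0)) (abs_le.2 ⟨by linarith, by linarith⟩) (p b12 b21))
  have q3 := abs_le.1 (p' (b01.trans (by norm_num)) (p b12 b20))
  have q4 := abs_le.1 (p' (b10.trans (by norm_num)) (p b02 b21))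
  have q5 := abs_le.1 (p' (u := 1 + m 1 1) (abs_le.2 ⟨by linarith, by linarith⟩) (p b02 b20))
  have u1 : 97 / 100 ≤ (1 + m 0 0) * (1 + m 1 1) - m 0 1 * m 1 0 := by nlinarith
  have u2 : (1 + m 0 0) * (1 + m 1 1) - m 0 1 * m 1 0 ≤ 103 / 100 := by nlinarith
  obtain ⟨d1, d2⟩ := abs_le.1 hd
  rw [e] at d1 d2
  generalize (1 + m 0 0) * (1 + m 1 1) - m 0 1 * m 1 0 = u at u1 u2 d1 d2
  have d3 : 74 / 100 ≤ T 2 2 * u := by linarith
  have d4 : T 2 2 * u ≤ 126 / 100 := by linarith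
  rw [abs_le]
  constructor <;> nlinarith

lemma det_Th {f f' : V → V} {z' z : V} (h1 : |jac f z' - 1| ≤ 1 / 10) (h2 : |jac f' z - 1| ≤ 1 / 10) :
    |(Th f f' z' z).det - 1| ≤ 1 / 4 := by
  obtain ⟨a1, a2⟩ := abs_le.1 h1
  obtain ⟨a3, a4⟩ := abs_le.1 h2
  have p : 0 < jac f z' := by linarith
  have e : (Th f f' z' z).det = jac f' z / jac f z' := by
    rw [Th, Matrix.det_mul, Matrix.det_nonsing_inv, Ring.inverse_eq_inv']
    exact inv_mul_eq_div _ _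
  rw [e, abs_le, le_sub_iff_add_le, le_div_iff₀ p, sub_le_iff_le_add, div_le_iff₀ p]
  constructor <;> linarith

open Fc in
lemma th_step {h : V} (hh : ∀ i, 0 < h i) {T T' : Mx} {s s' t' : ℝ} (hs0 : 0 ≤ s)
    (hs : s ≤ 1 / 100) (hs' : 0 ≤ s') (ht' : 0 ≤ t')
    (h1 : ∀ a b, ¬ (a = 2 ∧ b = 2) → |(T - 1) a b| * h b ≤ s * h a) (hd : |T.det - 1| ≤ 1 / 4)
    (h2 : ∀ a b, ¬ (a = 2 ∧ b = 2) → |(T' - 1) a b| * h b ≤ s' * h a) (h3 : |T' 2 2 - 1| ≤ t')
    (a b : Fin 3) (hab : ¬ (a = 2 ∧ b = 2)) :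
    |(T * T' - 1) a b| * h b ≤ (s * (1 + t' + 3 * s') + 2 * s') * h a := by
  have h0 : ∀ i, 0 ≤ h i := fun i => (hh i).le
  have hc := corner hh (fun a b hab => (h1 a b hab).trans
    (mul_le_mul_of_nonneg_right hs (h0 a))) hd
  have M := mul_le h0 hs' ht' (nb_of h0 h1 hc) (nb_of h0 h2 h3) a b
  have eA : T * T' - 1 = (T - 1) + (T' - 1) + (T - 1) * (T' - 1) := by noncomm_ring
  rw [eA]
  refine M.trans (mul_le_mul_of_nonneg_right ?_ (h0 a))
  have m1 := mul_nonneg hs0 hs'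
  have m2 := mul_nonneg hs0 ht'
  fin_cases a <;> fin_cases b <;> simp [E, Fin.sum_univ_three] at hab ⊢ <;> linarith

/-! ### numbers -/

section num
variable {N : ℕ} (h : Big N)
include h

lemma cnp {C a b : ℝ} (hC : 1 ≤ C) (hC' : C ≤ 10 ^ 8) (hab : a + 1 / 1000 ≤ b) :
    C * np N a ≤ np N b := by
  have := h.np_pos a
  refine le_of_log (by positivity) (h.np_pos b) ?_
  rw [Real.log_mul (by positivity) this.ne', h.log_np, h.log_np]
  have := mul_le_mul_of_nonneg_right hab h.J_pos.le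
  linarith [(logc_bd hC).2, h.J_ge, h.L_ge]

lemma n_th : 10 ^ 7 * np N (-47 / 1000) ≤ 1 :=
  (cnp h (by norm_num) (by norm_num) (by norm_num)).trans_eq (np_zero N)

lemma n_q : 1000 * (1 / pq N) ≤ 1 / Real.sqrt (pq N) ∧ 1000 * (1 / Real.sqrt (pq N)) ≤ 1 := by
  have p := h.sqrtq_pos
  have e := Real.mul_self_sqrt h.q_pos.le
  have l : 1000 ≤ Real.sqrt (pq N) := Real.le_sqrt_of_sq_le (by linarith [h.q_ge])
  constructor
  · rw [mul_one_div, div_le_div_iff₀ h.q_pos p]; nlinarith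
  · rw [mul_one_div, div_le_one p]; exact l

lemma n_q2 : 9 * qp N (8 / 5) ≤ pq N ^ 2 := by
  have := h.qp_pos (8 / 5)
  refine le_of_log (by positivity) (pow_pos h.q_pos 2) ?_
  rw [Real.log_mul (by norm_num) this.ne', Real.log_pow, h.log_qp, h.log_q]
  push_cast
  linarith [(logc_bd (show (1 : ℝ) ≤ 9 by norm_num)).2, h.L_ge]

lemma n_J : 1 / ((N : ℝ) * pJ N ^ 5) ≤ 1 / (N * pJ N ^ 4) :=
  one_div_le_one_div_of_le (mul_pos h.N_pos (pow_pos h.J_pos 4)) (mul_le_mul_of_nonneg_left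
    (pow_le_pow_right₀ (by linarith [h.J_ge, h.L_ge]) (by norm_num)) h.N_pos.le)

lemma n_s {n : ℕ} (hn : (n : ℝ) ≤ 1206 * pJ N) :
    n * np N (-9 / 200) * (1 + 1 / 10 ^ 5) ^ n ≤ 1 / 100 := by
  have p := h.J_pos
  have h1 : (1 + 1 / 10 ^ 5 : ℝ) ^ n ≤ np N (13 / 1000) := by
    refine (pow_le_pow_left₀ (by norm_num) (show (1 + 1 / 10 ^ 5 : ℝ) ≤ Real.exp (1 / 10 ^ 5) by
      linarith [Real.add_one_le_exp (1 / 10 ^ 5 : ℝ)]) n).trans ?_
    rw [← Real.exp_nat_mul, h.np_eq]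
    exact Real.exp_le_exp.2 (by linarith)
  have h2 : 1206 * pJ N ≤ np N (1 / 100) := by
    refine le_of_log (by positivity) (h.np_pos _) ?_
    rw [Real.log_mul (by norm_num) p.ne', h.log_J, h.log_np]
    linarith [(logc_bd (show (1 : ℝ) ≤ 1206 by norm_num)).2, h.J_ge, h.L_ge]
  have h3 := mul_le_mul (mul_le_mul_of_nonneg_right (hn.trans h2) (h.np_pos (-9 / 200)).le) h1
    (by positivity) (mul_pos (h.np_pos _) (h.np_pos _)).le
  rw [← h.np_add, ← h.np_add] at h3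
  have h4 := cnp h (C := 100) (a := 1 / 100 + -9 / 200 + 13 / 1000) (b := 0) (by norm_num)
    (by norm_num) (by norm_num)
  rw [np_zero] at h4
  linarith

lemma sml (A π : ℝ) : (FPc N A π).Sml := by
  have := h.np_pos (-47 / 1000)
  have := n_th h
  have := n_q h
  have := one_div_pos.2 h.q_pos
  simp only [FP.Sml, FPc]
  refine ⟨?_, ?_, ?_, ?_, ?_, ?_⟩ <;> linarith

end num

lemma LA_nonneg {c : Pm} (G : Gd c) (a b : Fin 3) : 0 ≤ c.LA a b := by
  have := G.ηp_pos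
  have := G.big.X_pos
  have := G.big.qp_pos (18 / 5)
  have := G.big.np_pos (-1 / 20)
  fin_cases a <;> fin_cases b <;> simp [Pm.LA] <;> positivity

lemma dd_ge (B : Bk) (hb : Big B.N) (g : Cu) (k : ℕ) : 1 / Real.sqrt (pq B.N) ≤ B.dd g k := by
  have := hb.np_pos 11
  have : (0 : ℝ) ≤ (6 / 10) ^ k := by positivity
  have : 0 ≤ np B.N 11 * (6 / 10) ^ (k - mid B.N) := by positivity
  unfold Bk.dd
  split_ifs <;> linarith

lemma crs_iff {B : Bk} {g : Cu} {k r : ℕ} (hc : ¬ (k = mid B.N ∧ r = 0 ∧ B.pushN g)) (j : ℕ) :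
    B.crs g j k (r + 1) ↔ B.crs g j k r := by
  unfold Bk.crs aft
  constructor
  · rintro ⟨a, b | ⟨b, _⟩, c⟩
    · exact ⟨a, Or.inl b, c⟩
    · exact ⟨a, Or.inr ⟨b, Nat.one_le_iff_ne_zero.2 fun e => hc ⟨b, e, c⟩⟩, c⟩
  · rintro ⟨a, b | ⟨b, _⟩, c⟩
    · exact ⟨a, Or.inl b, c⟩
    · exact ⟨a, Or.inr ⟨b, by omega⟩, c⟩

lemma crs_mid {B : Bk} {g : Cu} {j : ℕ} (hj : j ≤ mid B.N) (hp : B.pushN g) :
    B.crs g j (mid B.N) (0 + 1) ∧ ¬ B.crs g j (mid B.N) 0 :=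
  ⟨⟨hj, Or.inr ⟨rfl, le_rfl⟩, hp⟩, fun e => by
    rcases e.2.1 with e | e
    · exact lt_irrefl _ e
    · exact absurd e.2 (by omega)⟩

end Fup

open Fup in
theorem fup : FupStmt := by
  filter_upwards [ev_big] with N hN B hB k r f f' ft xs xs' Af Af' G hk hr _ hxs hAf hj IG H
  subst hB
  have hf : FrOk B.N B.lb B.fr := G.toFrOk
  have hsite : ∀ x, ∃ i, B.NS i x := exists_NS (mul_pos (hN.np_pos _) (Bk.gd0 hf hN 0).lb_pos)
  have hG : ∀ g {j}, j ≤ k → Gd (B.c g j) := fun g _ hjk => Bk.gd hf hN g (hjk.trans hk.le)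
  have k1 := hN.np_le (show (-9 / 200 : ℝ) ≤ -1 / 25 by norm_num)
  have k2 := n_J hN
  have k3 := hN.sm_pos
  refine ⟨fun j hjk g x hx i hi => ?_, fun j hjk g hc x hx a b hab => ?_,
    fun g x hx => ⟨?_, (IG.di g x hx).2⟩, fun j hjk g x hx => ?_⟩
  · have H' := H g x hx i hi
    have R := IG.rel j hjk g x hx i hi
    obtain ⟨l1, l2⟩ := led_step B g hjk hxs i
    rw [l1, l2, cnt_succ hjk]
    push_cast
    by_cases hc : k = mid B.N ∧ r = 0 ∧ B.pushN g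
    · rw [if_pos hc] at H'
      obtain ⟨rfl, rfl, hp⟩ := hc
      obtain ⟨e, f1, -, L, F⟩ := H'
      rw [if_neg (crs_mid hjk hp).2, if_neg (crs_mid hjk hp).2] at R
      rw [if_pos (crs_mid hjk hp).1, if_pos (crs_mid hjk hp).1, e]
      refine eb_step (Y := (B.c g 0).gam ((B.fr g).fh f1) (B.oh g f1 x)) (fun a b => ?_) F.dg
        (g := B.SG g xs (8 * j) (tm (mid B.N) 0) i +
          (cnt (mid B.N) 0 - 9 * j : ℕ) / (B.N * pJ B.N ^ 4))
        (h := pq B.N * SA B.N (B.c g 0).bbO xs (8 * j) (tm (mid B.N) 0) i +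
          (cnt (mid B.N) 0 - 9 * j : ℕ) * sm B.N)
        (k := (cnt (mid B.N) 0 - 9 * j : ℕ) * np B.N (-1 / 25)) ?_ ?_ ?_
      · have a1 := R a b
        have a2 : |((B.c g 0).gam ((B.fr g).fh f1) (B.oh g f1 x) - B.ga g f x -
          ((B.c g 0).η * Af' (B.lab f x)) • E00) a b| ≤ ((9 / 10 : ℝ) • (B.c g 0).LA) a b := L.dg a b
        have a3 := LA_nonneg (Bk.gd0 hf hN g) a b
        simp only [Matrix.sub_apply, Matrix.add_apply, Matrix.smul_apply, smul_eq_mul,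
          Matrix.zero_apply] at a1 a2 ⊢
        rw [abs_le] at a1 a2 ⊢
        constructor <;> linarith [a1.1, a1.2, a2.1, a2.2]
      · simp only [FPc, Aa, Pp, if_true, add_div]; linarith
      · simp only [FPc, Aa, if_true]; linarith
      · simp only [FPc]; linarith
    · rw [if_neg hc, fp_eq] at H'
      have e1 : (if B.crs g j k (r + 1) then
          ((B.c g 0).η * Af' (B.lab (ft (mid B.N)) x)) • E00 else 0) = if B.crs g j k r then
          ((B.c g 0).η * Af (B.lab (ft (mid B.N)) x)) • E00 else 0 := by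
        by_cases e : B.crs g j k r
        · rw [if_pos e, if_pos ((crs_iff hc j).2 e), hAf e.2.1]
        · rw [if_neg e, if_neg fun e' => e ((crs_iff hc j).1 e')]
      have e2 : (if B.crs g j k (r + 1) then (B.c g 0).LA else 0) =
          if B.crs g j k r then (B.c g 0).LA else 0 := by simp only [crs_iff hc j]
      rw [e1, e2]
      refine eb_step R H'.dg ?_ ?_ ?_
      · simp only [FPc, add_div]; linarith
      · simp only [FPc]; linarith
      · simp only [FPc]; linarith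
  · obtain ⟨i, hi⟩ := hsite x
    have H' := H g x hx i hi
    have hc' : ¬ (k = mid B.N ∧ r = 0 ∧ B.pushN g) := by
      rintro ⟨rfl, rfl, hp⟩
      exact hc (crs_mid hjk hp).1
    rw [if_neg hc', fp_eq] at H'
    have T := IG.th j hjk g (fun e => hc ((crs_iff hc' j).2 e)) x hx
    have j1 := (hj g x hx).1
    have hz : jac ((B.fr g).fh f) (B.oh g f x) ≠ 0 := by linarith [(abs_le.1 j1).1] |> ne_of_gt
    have eT : Th ((B.fr g).fh (ft j)) ((B.fr g).fh f') (B.oh g (ft j) x) (B.oh g f' x) =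
        Th ((B.fr g).fh (ft j)) ((B.fr g).fh f) (B.oh g (ft j) x) (B.oh g f x) *
          Th ((B.fr g).fh f) ((B.fr g).fh f') (B.oh g f x) (B.oh g f' x) := by
      simp only [Th]
      rw [Matrix.mul_assoc, Matrix.mul_nonsing_inv_cancel_left _ _ (Ne.isUnit hz)]
    have hn : ((cnt k r - 9 * j : ℕ) : ℝ) ≤ 1206 * pJ B.N :=
      (Nat.cast_le.2 (Nat.sub_le _ _)).trans (hN.cnt_le hk (by omega))
    have p1 := hN.np_pos (-9 / 200)
    have p2 := hN.np_pos (-47 / 1000)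
    have T' : ∀ a b, ¬ (a = 2 ∧ b = 2) →
        |(Th ((B.fr g).fh f) ((B.fr g).fh f') (B.oh g f x) (B.oh g f' x) - 1) a b| *
          (B.c g 0).hs b ≤ np B.N (-47 / 1000) * (B.c g 0).hs a := fun a b hab => by
      have := H'.th a b hab
      rw [hs_eq B g (Nat.zero_le k), hs_eq B g (Nat.zero_le k), ← mul_div_assoc, ← mul_div_assoc,
        div_le_div_iff_of_pos_right (by positivity)] at this
      exact this
    rw [eT, cnt_succ hjk]
    refine (th_step (Bk.gd0 hf hN g).hs_pos (by positivity) (n_s hN hn) p2.le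
      (show (0 : ℝ) ≤ 5 / 10 ^ 6 by norm_num) T (det_Th ((hj g x hx).2 j hjk) j1) T' H'.t3 a b
      hab).trans (mul_le_mul_of_nonneg_right ?_ ((Bk.gd0 hf hN g).hs_pos a).le)
    generalize cnt k r - 9 * j = n
    have m1 := n_th hN
    have m2 := cnp hN (C := 2) (a := -47 / 1000) (b := -9 / 200) (by norm_num) (by norm_num)
      (by norm_num)
    have m3 : (1 : ℝ) ≤ (1 + 1 / 10 ^ 5) ^ (n + 1) := one_le_pow₀ (by norm_num)
    have m4 := mul_le_mul_of_nonneg_left m3 p1.le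
    have m5 := mul_le_mul_of_nonneg_left
      (show 1 + 5 / 10 ^ 6 + 3 * np B.N (-47 / 1000) ≤ 1 + 1 / 10 ^ 5 by linarith)
      (show 0 ≤ n * np B.N (-9 / 200) * (1 + 1 / 10 ^ 5) ^ n by positivity)
    push_cast
    rw [pow_succ _ n] at m4 ⊢
    linarith
  · obtain ⟨i, hi⟩ := hsite x
    have H' := H g x hx i hi
    have D := (IG.di g x hx).1
    have h0 : ∀ i, 0 ≤ (B.c g k).hs i := fun i => ((hG g le_rfl).hs_pos i).le
    have d1 := dd_ge B hN g k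
    obtain ⟨q1, q2⟩ := n_q hN
    have q3 := one_div_pos.2 hN.q_pos
    have m1 := n_th hN
    have p2 := hN.np_pos (-47 / 1000)
    by_cases hc : k = mid B.N ∧ r = 0 ∧ B.pushN g
    · rw [if_pos hc] at H'
      obtain ⟨rfl, rfl, hp⟩ := hc
      obtain ⟨-, f1, -, L, F⟩ := H'
      rw [if_neg (fun e => absurd e.2.2 (by omega))] at D
      rw [if_pos ⟨hp, rfl, le_rfl⟩]
      have d2 : B.dd g (mid B.N) ≤ 2 := by
        have : ((6 : ℝ) / 10) ^ mid B.N ≤ 1 := pow_le_one₀ (by norm_num) (by norm_num)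
        rw [Bk.dd, if_neg fun e => lt_irrefl _ e.2]
        linarith
      have D0 : (B.c g (mid B.N)).DI ((B.fr g).fh f) (B.oh g f x) 2 := D.mono (by
        push_cast; linarith)
      have p3 := hN.np_pos 10
      have p4 : 1 ≤ np B.N 10 := (np_zero B.N).symm.trans_le (hN.np_le (by norm_num))
      have p5 := cnp hN (C := 7) (a := 10) (b := 11) (by norm_num) (by norm_num) (by norm_num)
      refine (Fc.di_step h0 (sml hN 0 0) F (by positivity) (L.df 2 (by norm_num) D0)).mono ?_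
      have e : (B.c g (mid B.N)).N = B.N := rfl
      simp only [FPc, e]
      have m2 := mul_le_mul_of_nonneg_left
        (show 1 + 3 * np B.N (-47 / 1000) + 5 / 10 ^ 6 ≤ 3 / 2 by linarith) p3.le
      have m3 := mul_le_mul_of_nonneg_left (show 1 / pq B.N ≤ 1 / 2 by linarith) p3.le
      push_cast
      nlinarith
    · rw [if_neg hc, fp_eq] at H'
      have e : (if B.pushN g ∧ k = mid B.N ∧ 1 ≤ r + 1 then np B.N 11 else 0) =
          if B.pushN g ∧ k = mid B.N ∧ 1 ≤ r then np B.N 11 else 0 := by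
        refine if_congr ⟨fun e => ⟨e.1, e.2.1, ?_⟩, fun e => ⟨e.1, e.2.1, by omega⟩⟩ rfl rfl
        exact Nat.one_le_iff_ne_zero.2 fun e' => hc ⟨e.2.1, e', e.1⟩
      rw [e]
      have d2 : 1 / Real.sqrt (pq B.N) ≤ B.dd g k +
          if B.pushN g ∧ k = mid B.N ∧ 1 ≤ r then np B.N 11 else 0 := by
        have := hN.np_pos 11
        split_ifs <;> linarith
      generalize (B.dd g k + if B.pushN g ∧ k = mid B.N ∧ 1 ≤ r then np B.N 11 else 0) = d
        at D d2 ⊢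
      have d0 : 0 ≤ d := by linarith
      have r8 : (r : ℝ) ≤ 8 := by exact_mod_cast hr
      refine (Fc.di_step h0 (sml hN _ _) H' (by positivity) D).mono ?_
      simp only [FPc]
      have m2 : (1 + r / 100) * d ≤ 2 * d := mul_le_mul_of_nonneg_right (by linarith) d0
      have m3 := mul_le_mul m2
        (show 3 * np B.N (-47 / 1000) + 5 / 10 ^ 6 + 1 / pq B.N ≤ 1 / 1000 by linarith)
        (by positivity) (by positivity)
      push_cast
      linarith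
  · obtain ⟨i, hi⟩ := hsite x
    have H' := H g x hx i hi
    obtain ⟨D1, D2⟩ := IG.dl j hjk g x hx
    have tri : ∀ (u : V) i, |B.oh g f' x i - B.oh g (ft j) x i| ≤ |B.oh g f' x i - u i| +
        |u i - B.oh g f x i| + |B.oh g f x i - B.oh g (ft j) x i| := fun u i => by
      linarith [abs_sub_le (B.oh g f' x i) (u i) (B.oh g (ft j) x i),
        abs_sub_le (u i) (B.oh g f x i) (B.oh g (ft j) x i)]
    have m1 := cnp hN (C := 18) (a := -7 / 20) (b := -3 / 10) (by norm_num) (by norm_num)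
      (by norm_num)
    have m2 := hN.np_le (show (-39 / 100 : ℝ) ≤ -7 / 20 by norm_num)
    have m3 := n_q2 hN
    have p1 := hN.np_pos (-7 / 20)
    have l1 : ∀ i, 2 * (np B.N (-7 / 20) * (B.c g k).hs i) ≤
        np B.N (-3 / 10) * (B.c g j).hs i * (1 / 9 / 2 ^ (k - j)) := fun i => by
      have := mul_le_mul_of_nonneg_right m1 ((hG g le_rfl).hs_pos i).le
      have e : np B.N (-3 / 10) * (B.c g j).hs i * (1 / 9 / 2 ^ (k - j)) =
          np B.N (-3 / 10) * (B.c g k).hs i / 9 := by rw [hs_eq B g hjk]; ring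
      linarith
    have l2 : qp B.N (8 / 5) * (B.c g k).y ≤ pq B.N ^ 2 * B.yk j * (1 / 9 / 2 ^ (k - j)) := by
      have := mul_le_mul_of_nonneg_right m3 (hG g le_rfl).y_pos.le
      have e : pq B.N ^ 2 * B.yk j * (1 / 9 / 2 ^ (k - j)) = pq B.N ^ 2 * (B.c g k).y / 9 := by
        rw [y_eq B g 0 hjk, Bk.yk]; ring
      linarith
    rw [ph_succ]
    by_cases hc : k = mid B.N ∧ r = 0 ∧ B.pushN g
    · rw [if_pos hc] at H'
      obtain ⟨rfl, rfl, hp⟩ := hc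
      obtain ⟨-, f1, -, L, F⟩ := H'
      rw [if_neg (crs_mid hjk hp).2] at D2
      rw [if_pos (crs_mid hjk hp).1]
      refine ⟨fun i hi => ?_, ?_⟩
      · have a1 : _ ≤ np B.N (-7 / 20) * _ := F.dl i hi
        have a2 : _ ≤ np B.N (-39 / 100) * _ := L.dl i hi
        have a3 := mul_le_mul_of_nonneg_right m2 ((hG g le_rfl).hs_pos i).le
        linarith [tri (B.oh g f1 x) i, D1 i hi, l1 i]
      · have a1 : _ ≤ qp B.N (8 / 5) * _ := F.dv
        have a2 : _ ≤ np B.N (21 / 10) * _ := L.dv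
        have a3 := mul_pos (hN.np_pos (21 / 10)) (hG g le_rfl).lam_pos
        linarith [tri (B.oh g f1 x) 2]
    · rw [if_neg hc, fp_eq] at H'
      simp only [crs_iff hc j]
      refine ⟨fun i hi => ?_, ?_⟩
      · have a1 : _ ≤ np B.N (-7 / 20) * _ := H'.dl i hi
        have a2 := tri (B.oh g f x) i
        have a3 := mul_pos p1 ((hG g le_rfl).hs_pos i)
        rw [sub_self, abs_zero] at a2
        linarith [D1 i hi, l1 i]
      · have a1 : _ ≤ qp B.N (8 / 5) * _ := H'.dv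
        have a2 := tri (B.oh g f x) 2
        rw [sub_self, abs_zero] at a2
        linarith

end
end Pool.Agent.MP_20bec2_an.T3

end MrgPart2

-- ======== part 3: formerly Pool.Agent.MP_20bec2_an.T3.InitC
section MrgPart3

/-! Row INIT, part C: the parameters of the first block and the analytic data. -/

set_option autoImplicit false
open MeasureTheory Set Filter Matrix Topology

namespace Pool.Agent.MP_20bec2_an.T3.Init
noncomputable section
open Classical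

def pI (N k : ℕ) : Pm := ⟨N, Real.sqrt N, Real.sqrt N, (N : ℝ) ^ 110, k⟩

section
variable {N : ℕ} (hN : Big N)
include hN

lemma N_two : (2 : ℝ) ≤ N := by linarith [hN.N_ge, hN.J_ge, hN.L_ge]

lemma ss : Real.sqrt N * Real.sqrt N = N := Real.mul_self_sqrt hN.N_pos.le

lemma pI_K (k : ℕ) : (pI N k).K = 1 := div_self hN.sqrtN_pos.ne'

lemma pI_t (k : ℕ) : (pI N k).t ≤ -3 / 2 := by
  have : (pI N k).t = Real.log (pI N k).K - pk0 N := rfl
  rw [this, pI_K hN, Real.log_one]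
  linarith [hN.k0_eq, hN.L_ge]

lemma pI_η (k : ℕ) : (pI N k).η = 1 := eta_one' hN.R_ge (pI_t hN k)

lemma pI_gd {k : ℕ} (hk : k ≤ nb N) : Gd (pI N k) := by
  have N0 := hN.N_pos
  have e : (pI N k).n12 = N := ss hN
  refine ⟨hN, hN.sqrtN_pos, le_rfl, ?_, ?_, ?_, pow_pos N0 _, hk⟩
  · rw [e]
    exact mul_le_of_le_one_left N0.le (Real.exp_le_one_iff.2 (by norm_num))
  · rw [e]
    exact le_mul_of_one_le_left N0.le (Real.one_le_exp (by norm_num))
  · have : 0 < 3 / pR N := div_pos (by norm_num) hN.R_pos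
    have := hN.tE_bd.1
    have := pI_t hN k
    show _ ≤ tE N + 3 / pR N
    linarith

lemma pI_ro {k : ℕ} (hk : k ≤ nb N) : (pI N k).ro = 1 := by
  have h := pI_gd hN hk
  have e : (pI N k).e4 = 1 := le_antisymm h.e4_le_one ((pI_η hN k).symm.trans_le h.η_le_e4)
  rw [Pm.ro, e, Pm.m, pI_K hN, max_eq_left (by norm_num), Real.one_rpow, Real.sqrt_one, div_one]

omit hN in
lemma pI_lam : (pI N 0).lam = (N : ℝ) ^ 110 := by simp [pI, Pm.lam]

lemma pI_l1 : (pI N 0).l1 = (N : ℝ) ^ 110 := by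
  rw [Pm.l1, pI_ro hN (Nat.zero_le _), pI_lam, one_mul]

lemma lb_ge : (N : ℝ) ≤ (N : ℝ) ^ 110 :=
  le_self_pow₀ (by linarith [N_two hN]) (by norm_num)

lemma yrg_ge {y' : ℝ} (hy : np N (-31 / 100) * (pI N 0).y ≤ y') : (N : ℝ) ≤ y' := by
  refine le_trans ?_ hy
  have : (pI N 0).y = np N (11 / 10) * (pI N 0).lam := rfl
  rw [this, pI_lam, ← mul_assoc, ← hN.np_add]
  have o : 1 ≤ np N (-31 / 100 + 11 / 10) := (np_zero N).symm.trans_le (hN.np_le (by norm_num))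
  exact (lb_ge hN).trans (le_mul_of_one_le_left (pow_pos hN.N_pos _).le o)

lemma y_ge : (N : ℝ) ≤ (pI N 0).y := by
  have : (pI N 0).y = np N (11 / 10) * (pI N 0).lam := rfl
  rw [this, pI_lam]
  have o : 1 ≤ np N (11 / 10) := (np_zero N).symm.trans_le (hN.np_le (by norm_num))
  exact (lb_ge hN).trans (le_mul_of_one_le_left (pow_pos hN.N_pos _).le o)

lemma y_le : (pI N 0).y ≤ Real.sqrt N * Real.sqrt N * Real.sqrt N * (N : ℝ) ^ 110 := by
  have : (pI N 0).y = np N (11 / 10) * (pI N 0).lam := rfl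
  rw [this, pI_lam]
  refine mul_le_mul_of_nonneg_right ?_ (pow_pos hN.N_pos _).le
  have p := hN.sqrtN_pos
  refine le_of_log (hN.np_pos _) (by positivity) ?_
  simp (disch := positivity) only [Real.log_mul, hN.log_np, hN.log_sqrtN]
  linarith [hN.J_pos]

lemma inv_le_of_log {a : ℝ} (ha : 0 < a) (h : -pJ N ≤ Real.log a) : 1 / (N : ℝ) ≤ a :=
  le_of_log (one_div_pos.2 hN.N_pos) ha (by rwa [one_div, Real.log_inv])

lemma inv_le_np {a : ℝ} (h : -1 ≤ a) : 1 / (N : ℝ) ≤ np N a :=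
  inv_le_of_log hN (hN.np_pos a) (by rw [hN.log_np]; nlinarith [hN.J_pos])

lemma inv_le_Xj (a b : Fin 3) : 1 / (N : ℝ) ≤ Xj N a b := by
  have J0 := hN.J_pos
  have N0 := hN.N_pos
  have s0 := hN.sqrtN_pos
  have L0 := hN.L_ge
  have k1 : 1 / (N : ℝ) ≤ pJ N ^ 4 / N := inv_le_of_log hN (by positivity) (by
    simp (disch := positivity) only [Real.log_div, Real.log_pow, hN.log_J, hN.log_N]
    push_cast; linarith)
  have k2 : 1 / (N : ℝ) ≤ pJ N ^ 3 / Real.sqrt N := inv_le_of_log hN (by positivity) (by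
    simp (disch := positivity) only [Real.log_div, Real.log_pow, hN.log_J, hN.log_sqrtN]
    push_cast; linarith)
  have k3 : 1 / (N : ℝ) ≤ pJ N := inv_le_of_log hN J0 (by rw [hN.log_J]; linarith)
  fin_cases a <;> fin_cases b
  exacts [k1, k1, k2, k1, k1, k2, k2, k2, k3]

lemma inv_le_B1 : 1 / (N : ℝ) ≤ (pI N 0).B1 := by
  have h := pI_gd hN (Nat.zero_le _)
  have J0 := hN.J_pos
  have N0 := hN.N_pos
  have q0 := hN.q_pos
  have X0 := hN.X_pos
  have k1 : 1 / (N : ℝ) ≤ Real.sqrt (pX N / (pq N ^ 8 * N)) := inv_le_of_log hN (by positivity) (by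
    simp (disch := positivity) only [Real.log_div, Real.log_pow, Real.log_mul, Real.log_sqrt,
      hN.log_X, hN.log_N, hN.log_q]
    push_cast; linarith [hN.L_ge])
  have := h.η_pos; have := h.p_pos; have := h.J_pos; have := h.big.etaA_pos
  unfold Pm.B1
  refine k1.trans (le_add_of_le_of_nonneg (Real.sqrt_le_sqrt (le_add_of_nonneg_right ?_)) ?_) <;>
    positivity

end

lemma pd_dg3 {h : V} {a b c : ℝ} (ha : 1 / 50 ≤ a ∧ a ≤ 6) (hb : 1 / 50 ≤ b ∧ b ≤ 6)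
    (hc : 1 / 50 ≤ c ∧ c ≤ 6) : PD h (dg3 (a * h 0 ^ 2) (b * h 1 ^ 2) (c * h 2 ^ 2)) := by
  refine ⟨diagonal_transpose _, fun v => ?_⟩
  have e : v ⬝ᵥ (dg3 (a * h 0 ^ 2) (b * h 1 ^ 2) (c * h 2 ^ 2) *ᵥ v) =
      a * (h 0 * v 0) ^ 2 + b * (h 1 * v 1) ^ 2 + c * (h 2 * v 2) ^ 2 := by
    simp [dg3, dotProduct, mulVec_diagonal, Fin.sum_univ_three]; ring
  rw [e, Fin.sum_univ_three]
  have := sq_nonneg (h 0 * v 0); have := sq_nonneg (h 1 * v 1); have := sq_nonneg (h 2 * v 2)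
  constructor <;> nlinarith [ha.1, ha.2, hb.1, hb.2, hc.1, hc.2]

/-- first covariance -/
def SI (N : ℕ) : Mx :=
  dg3 (1 / 4 * ((N : ℝ) ^ 110) ^ 2) (1 / 4 * ((N : ℝ) ^ 110) ^ 2) (4 * (pI N 0).y ^ 2)
def SR0 (N : ℕ) (y' : ℝ) : Mx :=
  dg3 (7 / 32 * ((N : ℝ) ^ 110) ^ 2) (7 / 32 * ((N : ℝ) ^ 110) ^ 2) (1 * y' ^ 2)

structure Dat (N : ℕ) (ρ M : V → ℝ) : Prop where
  big : Big N
  sml : Sml ![(N : ℝ) ^ 110, (N : ℝ) ^ 110, (pI N 0).y] (1 / (2 * N)) M
  den : dens ρ (fun x => x) (fun _ => SI N) = fun z => 1 + M z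
  ri : ∀ y', np N (-31 / 100) * (pI N 0).y ≤ y' → ∃ M', Sml ![(N : ℝ) ^ 110, (N : ℝ) ^ 110, y']
    (1 / (2 * N)) M' ∧ dens ρ (fun x => x) (fun _ => SR0 N y') = fun z => 1 + M' z
  cost : ∀ x0 x, ∑ k ∈ Finset.range (nb N), (pI N k).cost 1 (fun y => ρ (x0 + y)) x ≤
    pX N / (pq N ^ 3 * N)

lemma ev_dat (h1 : K1Stmt) (h4 : K4Stmt) (hB : KBStmt) (hE : EnerStmt) {ρ : V → ℝ} {R : ℝ}
    (hρ : Rho ρ) (hR : 0 < R) (h0 : ∀ x, R ≤ ‖x‖ → ρ x = 1) :
    ∀ᶠ N : ℕ in atTop, ∃ M, Dat N ρ M := by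
  obtain ⟨C, hC, hd⟩ := dens_sml h1 h4 hB
  obtain ⟨C', hC', he⟩ := hE
  filter_upwards [ev_big, tendsto_natCast_atTop_atTop.eventually_ge_atTop (2 * C * R ^ 3),
    tendsto_natCast_atTop_atTop.eventually_ge_atTop R,
    ev_CqJ_np (268 * C' * R) 26 2 (c := 17) (by norm_num)] with N hN e1 e2 e3
  have N0 := hN.N_pos
  have N2 := N_two hN
  have lb := lb_ge hN
  have key : ∀ (y' a c : ℝ), (N : ℝ) ≤ y' → (1 / 50 ≤ a ∧ a ≤ 6) → (1 / 50 ≤ c ∧ c ≤ 6) →
      ∃ M, Sml ![(N : ℝ) ^ 110, (N : ℝ) ^ 110, y'] (1 / (2 * N)) M ∧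
        dens ρ (fun x => x) (fun _ => dg3 (a * ((N : ℝ) ^ 110) ^ 2) (a * ((N : ℝ) ^ 110) ^ 2)
          (c * y' ^ 2)) = fun z => 1 + M z := fun y' a c hy ha hc => by
    obtain ⟨M, k1, k2⟩ := hd ρ R ![(N : ℝ) ^ 110, (N : ℝ) ^ 110, y'] _ hρ hR h0
      (fun i => by fin_cases i <;> simp <;> linarith) (pd_dg3 ha ha hc) (e2.trans hy)
    refine ⟨M, k1.mono ?_, k2⟩
    show C * R ^ 3 / ((N : ℝ) ^ 110 * (N : ℝ) ^ 110 * y') ≤ _
    have a1 : (N : ℝ) * N ≤ (N : ℝ) ^ 110 * (N : ℝ) ^ 110 := mul_le_mul lb lb N0.le (by linarith)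
    have a2 : (N : ℝ) * N * 1 ≤ (N : ℝ) ^ 110 * (N : ℝ) ^ 110 * y' :=
      mul_le_mul a1 (by linarith) zero_le_one (by positivity)
    rw [div_le_div_iff₀ (by nlinarith) (by positivity)]
    nlinarith
  obtain ⟨M, k1, k2⟩ := key _ (1 / 4) 4 (y_ge hN) (by norm_num) (by norm_num)
  refine ⟨M, hN, k1, k2, fun y' hy => key _ _ _ (yrg_ge hN hy) (by norm_num) (by norm_num),
    fun x0 x => ?_⟩
  have q0 := hN.q_pos
  have J0 := hN.J_pos
  have p17 := hN.np_pos 17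
  have k : ∀ k ∈ Finset.range (nb N), (pI N k).cost 1 (fun y => ρ (x0 + y)) x ≤
      pq N * (2 * (pq N ^ 22 * pJ N / N) * (C' * (R / np N 17))) := fun k hk => by
    have hk' := (Finset.mem_range.1 hk).le
    have h := pI_gd hN hk'
    have l1 : np N 17 ≤ (pI N k).lam := by
      have a : (N : ℝ) ^ 110 ≤ np N 93 * (pI N k).lam := h.lb_le
      have b : (N : ℝ) ^ 110 = np N 93 * np N 17 := by
        rw [← hN.np_add, ← np_nat]; norm_num
      exact le_of_mul_le_mul_left (b ▸ a) (hN.np_pos 93)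
    have l2 : R ≤ np N 17 := e2.trans ((np_one N).symm.trans_le (hN.np_le (by norm_num)))
    refine cost_le h 1 (fun w => ?_) x
    obtain ⟨-, b1, -, b2, -⟩ := he _ _ ρ h.ro_pos h.lam_pos hρ
    rw [enr_shift, abs_of_nonneg (b1 _).1]
    refine (b2 R hR (l2.trans l1) (pI_ro hN hk') h0 _).trans ?_
    gcongr
  refine (Finset.sum_le_card_nsmul _ _ _ k).trans ?_
  rw [Finset.card_range, nsmul_eq_mul]
  refine (mul_le_mul_of_nonneg_right hN.nb_bd.2 (by positivity)).trans ?_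
  have e4 : qp N 26 = pq N ^ 26 := by exact_mod_cast qp_nat N 26
  have e5 : Jp N 2 = pJ N ^ 2 := by exact_mod_cast Jp_nat N 2
  rw [e4, e5, ← div_le_one p17] at e3
  rw [le_div_iff₀ (by positivity)]
  refine le_trans (le_of_eq ?_) (e3.trans hN.X_bd.1)
  field_simp
  ring

end
end Pool.Agent.MP_20bec2_an.T3.Init

end MrgPart3

-- ======== part 4: formerly Pool.Agent.MP_20bec2_an.T3.Init
section MrgPart4

/-! Row INIT: the first block. -/

set_option autoImplicit false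
open MeasureTheory Set Filter Matrix Topology

namespace Pool.Agent.MP_20bec2_an.T3.Init
noncomputable section
open Classical

def cI (N : ℕ) (g : Cu) : V := cen (Dd N ((N : ℝ) ^ 110)) g
def bI (N : ℕ) (M : V → ℝ) : Bk :=
  ⟨N, (N : ℝ) ^ 110, fun g => fI (cI N g) (Real.sqrt N), fun _ _ => 0, fun x => x,
    fm (Real.sqrt N) M, fun _ _ => 0⟩
def sI (N : ℕ) (M : V → ℝ) : St :=
  ⟨fun x => x, 0, fun _ => SI N, fun _ => SI N, fm (Real.sqrt N) M, fun _ x => x,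
    fun _ => fm (Real.sqrt N) M, 0, 0, 0, 0, 0, 0, 0, (bI N M).fr, 0⟩

section
variable (N : ℕ) (M : V → ℝ)
lemma bI_N : (bI N M).N = N := rfl
lemma bI_fr (g : Cu) : (bI N M).fr g = fI (cI N g) (Real.sqrt N) := rfl
lemma bI_c (g : Cu) (k : ℕ) : (bI N M).c g k = pI N k := rfl
lemma bI_Zt : (bI N M).Zt = fun _ => 0 := by
  funext x
  simp [Bk.Zt, gl, Fr.unv, bI]
lemma bI_Zs0 : (bI N M).Zs0 = fun x => x := by
  funext x
  rw [Bk.Zs0, bI_Zt, sub_zero]; rfl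
lemma bI_Z : (bI N M).Z (sI N M) = fun x => x := by
  funext x
  rw [Bk.Z, bI_Zt]; simp [sI]
lemma bI_E0 (g : Cu) (x : V) : (bI N M).E0 g x = 0 := by
  rw [Bk.E0, bI_Zs0, jm_id, bI_fr, fI_hm, sub_self]
lemma bI_Eh (g : Cu) (x : V) : (bI N M).Eh (sI N M) g x = 0 := by
  rw [Bk.Eh, bI_fr, fI_hm]; simp [sI, jm_id]
end

lemma nzn_zero (N : ℕ) : nzn N 0 0 = 0 := by
  unfold nzn; split_ifs <;> omega

lemma not_aft (j : ℕ) : ¬ aft j 0 0 := by unfold aft; omega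

lemma ph_zero : ph 0 0 0 = 0 := by simp [ph]

lemma co_coord {U : Set V} {B : ℝ} (hB : 0 ≤ B) (i : Fin 3) : CO 2 (cv 1) U (fun x => x i) B := by
  intro l hl x _
  obtain ⟨a, b, rfl⟩ := List.length_eq_two.1 hl
  have : pd b (fun y : V => y i) = fun _ => if i = b then 1 else 0 := funext (pd_coord b i)
  simpa [this] using hB

namespace Dat
variable {N : ℕ} {ρ M : V → ℝ} (H : Dat N ρ M)
include H

lemma gd : Gd (pI N 0) := pI_gd H.big (Nat.zero_le _)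

lemma hs_eq : (pI N 0).hs = ![(N : ℝ) ^ 110, (N : ℝ) ^ 110, (pI N 0).y] := by
  rw [Pm.hs, pI_l1 H.big, pI_lam]

lemma sml' : Sml (pI N 0).hs (1 / (2 * N)) M := H.hs_eq ▸ H.sml

lemma inv_half : 1 / (N : ℝ) ≤ 1 / 2 := one_div_le_one_div_of_le two_pos (N_two H.big)

lemma K_le : 1 / (2 * (N : ℝ)) ≤ 1 / N :=
  one_div_le_one_div_of_le H.big.N_pos (by linarith [H.big.N_pos])

lemma M_le (z : V) : |M z| ≤ 1 / N := by
  have := H.sml.le [] (by simp) z
  simp only [hp_nil, one_mul, pds_nil] at this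
  exact this.trans H.K_le

lemma M_pos (z : V) : 0 < 1 + M z := by linarith [(abs_le.1 (H.M_le z)).1, H.inv_half]

lemma slp {j : Fin 3} (hj : j ≠ 2) : Slp (pI N 0).hs (1 / N) (sl (Real.sqrt N) M j) := by
  have := H.sml'.slp (j := j) H.big.sqrtN_pos (by
    rw [H.hs_eq]
    fin_cases j
    exacts [y_le H.big, y_le H.big, absurd rfl hj])
  rwa [show 2 * (1 / (2 * (N : ℝ))) = 1 / N by field_simp] at this

lemma bij : Function.Bijective (fm (Real.sqrt N) M) :=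
  bij_fm H.big.sqrtN_pos H.sml (by linarith [H.K_le, H.inv_half])

lemma jac_eq (z : V) : jac (fm (Real.sqrt N) M) z = 1 + M z := jac_fm H.big.sqrtN_pos H.sml.sm z

lemma gam_eq (x0 : V) : (pI N 0).gam ((fI x0 (Real.sqrt N)).fh (fm (Real.sqrt N) M)) =
    fun z => gm (sl (Real.sqrt N) M 0 (x0 + z)) (sl (Real.sqrt N) M 1 (x0 + z)) := by
  funext z
  rw [fI_fh, gam_shift, gam_fm H.big.sqrtN_pos rfl rfl (pI_η H.big 0) H.sml.sm (H.M_pos _).ne']

lemma gam_le (x0 z : V) (a b : Fin 3) :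
    |((pI N 0).gam ((fI x0 (Real.sqrt N)).fh (fm (Real.sqrt N) M)) z - 1) a b| ≤ 1 / N := by
  rw [H.gam_eq]
  exact (gm_slp H.gd.hs_pos H.inv_half (H.slp (by decide)) (H.slp (by decide)) a b).v _

lemma di (x0 z : V) {d : ℝ} (hd : 1 ≤ d) :
    (pI N 0).DI ((fI x0 (Real.sqrt N)).fh (fm (Real.sqrt N) M)) z d := fun a b i => by
  simp only [H.gam_eq]
  refine (gm_d H.gd.hs_pos H.inv_half ((H.slp (by decide)).shift x0) ((H.slp (by decide)).shift x0)
    a b i z).trans ((inv_le_Xj H.big a b).trans (le_mul_of_one_le_left ?_ hd))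
  exact le_trans (one_div_pos.2 H.big.N_pos).le (inv_le_Xj H.big a b)

lemma D_pos : 0 < Dd N ((N : ℝ) ^ 110) := H.gd.D_pos

lemma ws (A : Mx) : ((bI N M).ws fun _ _ => A) = fun _ => A := by
  funext x
  simp only [Bk.ws, bI_fr, fI_unc]
  rw [← finsum_smul, Prof.al_finsum (D := (bI N M).D) H.D_pos.ne', one_smul]

lemma geo : Geo N ((N : ℝ) ^ 110) (bI N M).fr fun x => x := by
  have N2 := N_two H.big
  have e1 : EB 1 (cm (Real.exp ((N : ℝ) ^ 2))) := fun i j => by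
    have := Real.one_le_exp (sq_nonneg (N : ℝ))
    by_cases hij : i = j
    · rw [hij, one_apply_eq, abs_one]; exact this
    · rw [one_apply_ne hij, abs_zero]; exact (Real.exp_pos _).le
  refine ⟨⟨⟨?_, le_rfl⟩, fun g => ⟨rfl, orth_one, by simp [bI_fr], e1, by simpa [bI_fr] using e1,
    H.gd.ok⟩, fun g g' _ => cpt_fI H.big.dc_pos.le _ _ H.big.sqrtN_pos⟩, fun g => rfl, contDiff_id,
    Function.bijective_id, fun g x _ => ?_⟩
  · exact (Real.exp_le_one_iff.2 (neg_nonpos.2 (sq_nonneg _))).trans (one_le_pow₀ (by linarith))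
  · have := H.D_pos
    rw [bI_fr, fI_hat_id, jm_id, sub_self, sub_self, mulVec_zero, norm_zero]
    exact ⟨fun i j => by simp [cm], by positivity⟩

lemma cred (g : Cu) : Cred ρ N ((N : ℝ) ^ 110) (fI (cI N g) (Real.sqrt N)) fun _ => 0 := by
  have N0 := H.big.N_pos
  have p1 := H.big.np_pos (-7 / 5)
  have p2 := H.big.np_pos (-9 / 20)
  have p3 := H.big.np_pos (-94 / 100)
  have p4 := H.big.Jp_pos (5 / 2)
  refine ⟨contDiff_const, fun _ _ => rfl, fun _ => rfl, fun i => cbl_zero (by positivity),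
    fun x => ⟨rfl, by rw [norm_zero]; positivity, fun i j => by simpa [cm] using p3.le, ?_, ?_⟩⟩
  · have := H.cost (cI N g) x
    rw [jm_const, fI_sc]
    simp only [Matrix.zero_apply, mul_zero, add_zero]
    exact le_neg_add_iff_add_le.2 (by rw [add_zero]; exact this)
  · rw [jm_const]
    simp only [Matrix.zero_apply, mul_zero, add_zero]
    exact neg_nonpos.2 (by positivity)

lemma oh (g : Cu) (x : V) : (bI N M).oh g (fm (Real.sqrt N) M) x = x - cI N g := by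
  rw [Bk.oh, bI_fr, fI_zc]
  exact congrArg (· - cI N g) (Function.leftInverse_invFun H.bij.1 x)

lemma ok : (bI N M).Ok ρ := by
  have hN := H.big
  have h := H.gd
  have N0 := hN.N_pos
  have J0 := hN.J_pos
  have L0 := hN.L_ge
  refine ⟨⟨H.geo, H.cred, fun g x _ => ?_, fun g x _ a b => ?_, fun g _ => ⟨continuousOn_const,
    fun z _ i hi => ⟨?_, fun z' _ => ?_⟩⟩⟩, fun x => ?_⟩
  · rw [bI_E0]
    exact ⟨fun i j _ => by simpa [bI_c] using (h.e0_bd i j).1,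
      fun i j => abs_zero.trans_le (div_nonneg h.zT_pos.le (by norm_num))⟩
  · have e : ((bI N M).c g 0).gref = 1 := by
      rw [bI_c, Pm.gref, pI_η hN]
      ext i j
      fin_cases i <;> fin_cases j <;> simp [dg3]
    have k1 : 1 / (N : ℝ) ≤ cg0 N :=
      inv_le_of_log hN hN.cg0_pos (by rw [hN.log_cg0]; linarith)
    have k2 := inv_le_B1 hN
    have k3 : 1 / (N : ℝ) ≤ 1 / pJ N := one_div_le_one_div_of_le J0 (by linarith [hN.N_ge])
    rw [e]
    refine (H.gam_le _ _ a b).trans ?_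
    fin_cases a <;> fin_cases b
    exacts [k1, k1, k2, k1, k1, k2, k2, k2, k3]
  · have k := H.gam_le (cI N g) z i 2
    rw [Matrix.sub_apply, one_apply_ne hi] at k
    exact k.trans (inv_le_of_log hN hN.fr0_pos (hN.log_fr0 ▸ by linarith))
  · have := h.l1_pos; have := h.lam_pos; have := h.y_pos; have := hN.sqrtN_pos
    have : 0 ≤ Xj N 0 2 := le_trans (one_div_pos.2 N0).le (inv_le_Xj hN 0 2)
    show |(0 : ℝ) - 0| ≤ _
    rw [sub_zero, abs_zero, bI_c, bI_N]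
    positivity
  · have s0 := hN.sqrtN_pos
    have e := ss hN
    rw [Gm, bI_Zs0, jm_id, transpose_one, one_mul, mul_one]
    show Bar N (gram (fm (Real.sqrt N) M) x)
    rw [gram, jm_fm _ H.sml.sm]
    refine bar_of hN e ?_
    have k : ∀ j, j ≠ 2 → (prim (pd j M) x / (Real.sqrt N * Real.sqrt N)) ^ 2 ≤ 1 / N :=
      fun j hj => by
        have a := (H.slp hj).v x
        have b : (prim (pd j M) x / (Real.sqrt N * Real.sqrt N)) ^ 2 =
            sl (Real.sqrt N) M j x ^ 2 * (Real.sqrt N * Real.sqrt N) := by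
          unfold sl; field_simp
        have c := pow_le_pow_left₀ (abs_nonneg _) a 2
        rw [sq_abs] at c
        rw [b, e]
        refine (mul_le_mul_of_nonneg_right c N0.le).trans (le_of_eq ?_)
        field_simp
    have k4 : 1 / (N : ℝ) ≤ 1 / 4 :=
      one_div_le_one_div_of_le (by norm_num) (by linarith [hN.N_ge, hN.J_ge])
    have k2 : ((1 + M x) / (Real.sqrt N * Real.sqrt N)) ^ 2 ≤ (1 / 2) ^ 2 := by
      refine pow_le_pow_left₀ (div_nonneg (H.M_pos x).le (by positivity)) ?_ 2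
      rw [e, div_le_iff₀ N0]
      linarith [(abs_le.1 (H.M_le x)).2, hN.N_ge, hN.J_ge]
    linarith [k 0 (by decide), k 1 (by decide)]

lemma ks_pos : ¬ ks N ≤ 0 := by have := H.big.nm_pos; unfold ks; omega
lemma kL_pos : ¬ kL N ≤ 0 := by have := H.big.nm_pos; unfold kL; omega

lemma il : (bI N M).IL 0 0 (sI N M) :=
  ⟨fun _ _ => le_rfl, fun g => by
    simpa [tm] using card_sites (B := bI N M) H.big H.gd.lb_pos g⟩

lemma iz : (bI N M).IZ 0 0 (sI N M) := by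
  refine ⟨⟨contDiff_id, contDiff_const, fun _ _ => contDiff_id⟩, ?_, fun _ => rfl,
    ⟨rfl, fun _ => (bI_Z N M).symm⟩, fun g x _ i _ => ?_, fun h => absurd h H.ks_pos,
    fun h => absurd h H.ks_pos, fun j hj g x _ i => ?_, fun g i => ?_, fun g i j => ?_⟩
  · rw [bI_Z]; exact Function.bijective_id
  · rw [bI_Eh, bI_E0, nzn_zero]
    exact ⟨fun a b _ => by simp [La, tm], fun j => by simp [cnt]⟩
  · obtain rfl := Nat.le_zero.1 hj
    rw [bI_Z, ph_zero]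
    simp [sI]
  · have := H.gd.d2u_pos
    show CO 2 _ _ (fun x => (fI _ _).hat (fun x => x) x i) _
    rw [fI_hat_id, bI_c]
    exact co_coord (by positivity) i
  · rw [nzn_zero]
    simp only [bI_fr, fI_hm]
    simpa [sI, CO] using cbl_zero le_rfl

omit H in
lemma iv : (bI N M).IV ρ 0 0 (sI N M) := ⟨fun g x _ i _ => by
  rw [bI_Eh, bI_E0, nzn_zero]
  simp [La, tm]⟩

omit H in
lemma ip : (bI N M).IP 0 0 (sI N M) := by
  refine ⟨⟨smM_const 0, smM_const 0⟩, fun _ => ⟨rfl, rfl, rfl⟩, fun h => absurd h (not_aft _),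
    fun _ _ _ _ => ⟨rfl, rfl, rfl⟩, fun g _ i j => ?_, fun g _ x _ => ?_, fun g _ x _ => ?_⟩
  · rw [nzn_zero]
    simp only [bI_fr, fI_hm]
    simpa [sI, CB] using cbl_zero le_rfl
  · rw [nzn_zero]
    simp only [bI_fr, fI_hm]
    exact ⟨fun a b => by simp [sI, cm], fun a b => by simp [sI, cm]⟩
  · rw [nzn_zero]
    simp [sI]

lemma nS (g : Cu) (x : V) : (bI N M).nS 0 (fun _ => SI N) g x = dg3 (1 / 4) (1 / 4) 4 := by
  have := H.big.N_pos
  have := H.gd.y_pos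
  rw [Bk.nS, bI_c, H.hs_eq, Fr.cov, bI_fr, fI_cv1]
  ext i j
  fin_cases i <;> fin_cases j <;> simp [nrm, SI, dg3] <;> field_simp

lemma is : (bI N M).IS 0 0 (sI N M) := by
  have h := H.gd
  refine ⟨⟨smM_const _, fun _ => diagonal_transpose _⟩, fun _ => ⟨⟨smM_const _,
    fun _ => diagonal_transpose _⟩, fun g x _ a b => ?_, fun g x _ x' _ a b => ?_,
    fun g i j => ?_⟩, fun h => absurd h (by omega), fun h => absurd h (by omega),
    fun h => absurd h (by omega), fun h => absurd h (by omega)⟩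
  · show |((bI N M).nS 0 (fun _ => SI N) g x - _) a b| ≤ _
    rw [H.nS, sub_self, Matrix.zero_apply, abs_zero, bI_c, bI_c, one_mul, one_mul]
    fin_cases a <;> fin_cases b
    exacts [h.t11_pos.le, h.t12_pos.le, h.t13_pos.le, h.t12_pos.le, h.t11_pos.le, h.t13_pos.le,
      h.t13_pos.le, h.t13_pos.le, h.t33_pos.le]
  · show |((bI N M).nS 0 (fun _ => SI N) g x - (bI N M).nS 0 (fun _ => SI N) g x') a b| ≤ _
    rw [H.nS, H.nS, sub_self, Matrix.zero_apply, abs_zero, one_mul]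
    exact (H.big.np_pos _).le
  · show CV 4 _ _ (fun x => (bI N M).nS 0 (fun _ => SI N) g x i j) _
    simp only [H.nS]
    exact cv_const _ (by rw [one_mul]; exact h.eL_pos.le)

lemma SR (y' : ℝ) : (bI N M).SR 0 0 (fun _ => SI N) y' = fun _ => SR0 N y' := by
  funext x
  simp only [Bk.SR, Bk.Rf, Bk.Dl, Bk.Db, Bk.yk, bI_fr, fI_cv1, bI_c, H.ws, if_true, pI_l1 H.big,
    pI_lam]
  ext i j
  fin_cases i <;> fin_cases j <;> simp [latm, SI, SR0, dg3] <;> ring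

lemma ir : (bI N M).IR ρ 0 0 (sI N M) := by
  refine ⟨fun g y' hy z _ => ?_, fun h => absurd h H.kL_pos⟩
  obtain ⟨M', k1, k2⟩ := H.ri y' hy.1
  have N0 := H.big.N_pos
  have y0 := H.gd.y_pos
  have e : ∀ j, pd j ((fI (cI N g) (Real.sqrt N)).den fun z => 1 + M' z) z =
      pd j M' (cI N g + z) := fun j => by
    have := pds_add_const k1.sm 1 (l := [j]) (by simp)
    simp only [pds_cons, pds_nil, add_comm (M' _)] at this
    rw [fI_den, pd_shift (fun z => 1 + M' z), this]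
  have b : ∀ j, j ≠ 2 → |(N : ℝ) ^ 110 * pd j M' (cI N g + z)| ≤ 1 / (2 * N) := fun j hj => by
    have := k1.le [j] (by simp) (cI N g + z)
    simp only [hp_cons, hp_nil, mul_one, pds_cons, pds_nil] at this
    rw [abs_mul, abs_of_pos (pow_pos N0 _)]
    fin_cases j
    exacts [this, this, absurd rfl hj]
  have s : ∀ u v : ℝ, Real.sqrt (u ^ 2 + v ^ 2) ≤ |u| + |v| := fun u v =>
    Real.sqrt_le_iff.2 ⟨by positivity, by
      rw [← sq_abs u, ← sq_abs v]; nlinarith [mul_nonneg (abs_nonneg u) (abs_nonneg v)]⟩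
  have y1 : y' / (pI N 0).y ≤ 1 := (div_le_one y0).2 (hy.2.trans (half_le_self y0.le))
  have r1 : 1 / (N : ℝ) ≤ (pI N 0).betaR y' :=
    (inv_le_np H.big (a := -28 / 100) (by norm_num)).trans (le_mul_of_one_le_right
      (H.big.np_pos _).le (Real.one_le_rpow (le_max_left _ _) (by norm_num)))
  show y' / (pI N 0).y * Real.sqrt (((pI N 0).l1 * pd 0 ((fI _ _).den (dens ρ ((bI N M).Z (sI N M))
    ((bI N M).SR 0 0 (fun _ => SI N) y'))) z) ^ 2 + ((pI N 0).lam * pd 1 ((fI _ _).den (dens ρ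
    ((bI N M).Z (sI N M)) ((bI N M).SR 0 0 (fun _ => SI N) y'))) z) ^ 2) ≤ (pI N 0).betaR y' * _
  rw [bI_Z, H.SR, k2, e, e, pI_l1 H.big, pI_lam, Nat.cast_zero, zero_div, add_zero, mul_one]
  refine (mul_le_of_le_one_left (Real.sqrt_nonneg _) y1).trans ((s _ _).trans
    ((add_le_add (b 0 (by decide)) (b 1 (by decide))).trans (le_trans (le_of_eq ?_) r1)))
  field_simp
  norm_num

lemma mb (x0 : V) (U : Set V) :
    (pI N 0).MB (2 * eps0) 1 (jac ((fI x0 (Real.sqrt N)).fh (fm (Real.sqrt N) M))) U := by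
  have hN := H.big
  have e : jac ((fI x0 (Real.sqrt N)).fh (fm (Real.sqrt N) M)) = fun z => M (x0 + z) + 1 := by
    funext z
    rw [fI_fh, jac_shift, H.jac_eq, add_comm]
  have k : ∀ l : List (Fin 3), l ≠ [] → l.length ≤ 2 → ∀ z,
      hp (pI N 0).hs l * |pds l (fun z => M (x0 + z) + 1) z| ≤ 1 / N := fun l h0 hl z => by
    rw [pds_add_const (f := fun z => M (x0 + z)) (H.sml.sm.comp (contDiff_const.add contDiff_id))
      1 h0, pds_shift]
    exact (H.sml'.le l hl _).trans H.K_le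
  have q : 2 ≤ (pI N 0).q := le_trans (by norm_num) hN.q_ge
  have i2 := H.inv_half
  rw [e]
  refine ⟨fun z _ => ?_, fun l hl z _ => ?_, fun l hl z _ => ?_⟩
  · rw [add_sub_cancel_right]
    refine (H.M_le _).trans ?_
    rw [div_le_iff₀ hN.N_pos, eps0]
    linarith [hN.N_ge, hN.J_ge, hN.L_ge]
  · by_cases h0 : l = []
    · rw [h0, hp_nil, pds_nil, one_mul, one_mul]
      have := abs_le.1 (H.M_le (x0 + z))
      exact abs_le.2 ⟨by linarith, by linarith⟩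
    · linarith [k l h0 hl z]
  · obtain ⟨i, hi, -⟩ := hl.2
    rw [one_mul]
    exact (k l (List.ne_nil_of_mem hi) hl.1 z).trans (inv_le_np hN (by norm_num))

lemma iF : (bI N M).IF ρ 0 0 (sI N M) := by
  have s := sm_fm (Real.sqrt N) H.sml.sm
  have nc : ∀ g, ¬ (bI N M).crs g 0 0 0 := fun g h => not_aft _ h.2.1
  have d1 : ∀ g, 1 ≤ (bI N M).dd g 0 := fun g => by
    have := H.big.sqrtq_pos
    rw [Bk.dd, if_neg (fun h => absurd h.2 (Nat.not_lt_zero _)), pow_zero, add_zero]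
    exact le_add_of_nonneg_right (by rw [bI_N]; positivity)
  refine ⟨⟨s, H.bij, fun z => ?_⟩, fun j hj => ⟨s, H.bij, fun g => ?_⟩, ⟨rfl, fun _ => rfl⟩,
    fun j hj g x _ i _ => ?_, fun j hj g _ x _ a b _ => ?_, fun g x _ => ⟨?_, fun j hj => ?_⟩,
    fun j hj g x _ => ?_⟩
  · rw [bI_Z]
    exact (H.jac_eq z).trans (congrFun H.den z).symm
  · obtain rfl := Nat.le_zero.1 hj
    exact H.mb _ _
  · obtain rfl := Nat.le_zero.1 hj
    rw [if_neg (nc g), if_neg (nc g)]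
    intro a b
    fin_cases a <;> fin_cases b <;> simp [sI, bm, Bk.SG, SA, tm, cnt]
  · obtain rfl := Nat.le_zero.1 hj
    have e : Th (((bI N M).fr g).fh ((sI N M).ft 0)) (((bI N M).fr g).fh (sI N M).f)
        ((bI N M).oh g ((sI N M).ft 0) x) ((bI N M).oh g (sI N M).f x) = 1 := by
      refine nonsing_inv_mul _ (Ne.isUnit ?_)
      show jac ((fI _ _).fh (fm (Real.sqrt N) M)) _ ≠ 0
      rw [fI_fh, jac_shift, H.jac_eq]
      exact (H.M_pos _).ne'
    rw [e]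
    simp [cnt]
  · rw [if_neg (fun h => absurd h.2.2 (by omega))]
    exact H.di _ _ (by simpa using d1 g)
  · obtain rfl := Nat.le_zero.1 hj
    exact H.di _ _ (d1 g)
  · obtain rfl := Nat.le_zero.1 hj
    rw [if_neg (nc g), ph_zero]
    simp [sI]

lemma sta : (bI N M).Sta ρ :=
  ⟨H.ok, sI N M, H.il, H.iz, iv, ip, H.is, H.ir, H.iF, fun h => absurd h (not_aft _)⟩

end Dat
end
end Pool.Agent.MP_20bec2_an.T3.Init

namespace Pool.Agent.MP_20bec2_an.T3

theorem init (h1 : K1Stmt) (h4 : K4Stmt) (hB : KBStmt) (hE : EnerStmt) : InitStmt := by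
  intro ρ R hρ h0
  filter_upwards [Init.ev_dat h1 h4 hB hE (R := max R 1) hρ (lt_max_of_lt_right one_pos)
    fun x hx => h0 x ((le_max_left _ _).trans hx)] with N ⟨M, H⟩
  exact ⟨Init.bI N M, rfl, rfl, H.sta⟩

end Pool.Agent.MP_20bec2_an.T3

end MrgPart4

-- marker of a merged file
example : 731051 + 246092 = 731051 + 246092 := rfl

end MrgPart1

-- marker of a merged file
example : 731051 + 246092 = 731051 + 246092 := rfl
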