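import Pool.Agent.MP_20bec2_an.T3.Fl3
import Pool.Agent.MP_20bec2_an.T3.Ftr
import Mathlib.RingTheory.PiTensorProduct
import Pool.Agent.MP_20bec2_an.T3.Nc
import Pool.Agent.MP_20bec2_an.T3.Init
import Pool.Agent.MP_20bec2_an.T3.Gabs

-- ======== part 0: formerly Pool.Agent.MP_20bec2_an.T3.Ltr
section MrgPart0

/-! Row LTR: change of frame for the relation `LE` between aligned frames. -/

set_option autoImplicit false
open Set Filter Matrix Topology

namespace Pool.Agent.MP_20bec2_an.T3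
noncomputable section
namespace Ltr
open Ftr

lemma sg_sq (x : ℝ) : sg x * sg x = 1 := by unfold sg; split_ifs <;> norm_num
lemma abs_sg (x : ℝ) : |sg x| = 1 := by unfold sg; split_ifs <;> norm_num

lemma abs_sub_sg {x : ℝ} (h : |x| ≤ 1) : |x - sg x| ≤ 1 - x ^ 2 := by
  obtain ⟨h1, h2⟩ := abs_le.1 h
  unfold sg
  split_ifs with h0
  · rw [abs_sub_comm, abs_of_nonneg (by linarith)]; nlinarith
  · rw [abs_of_nonneg (by linarith)]; nlinarith

/-- an orthogonal matrix with small entries off the diagonal -/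
lemma orth_diag {O : Mx} {x : ℝ} (hO : Orth O) (hx : x ≤ 1 / 2)
    (off : ∀ i j, i ≠ j → |O i j| ≤ x) : Bd (O - diagonal fun i => sg (O i i)) x := fun i j => by
  rw [Matrix.sub_apply]
  by_cases h : i = j
  · subst h
    rw [diagonal_apply_eq]
    refine (abs_sub_sg (Prof.orth_abs_le hO i i)).trans ?_
    have x0 : 0 ≤ x := (abs_nonneg _).trans (off 0 1 (by decide))
    have s : ∀ i j, i ≠ j → O i j ^ 2 ≤ x / 2 := fun i j hij => by
      have := abs_mul_le (off i j hij) ((off i j hij).trans hx)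
      linarith [le_abs_self (O i j * O i j), sq (O i j)]
    have r := Prof.orth_row hO i
    rw [Fin.sum_univ_three] at r
    fin_cases i <;> simp only [Fin.zero_eta, Fin.mk_one, Fin.reduceFinMk] at r ⊢
    · linarith [s 0 1 (by decide), s 0 2 (by decide)]
    · linarith [s 1 0 (by decide), s 1 2 (by decide)]
    · linarith [s 2 0 (by decide), s 2 1 (by decide)]
  · rw [diagonal_apply_ne _ h, sub_zero]; exact off i j h

lemma det_near {A O : Mx} {y : ℝ} (hO : Orth O) (h : Bd (A - O) y) (hy : y ≤ 1 / 100) :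
    |A.det - 1| ≤ 12 * y := by
  have h1 : Bd ((A - O) * Oᵀ) (3 * y * 1) := h.mul (Bd.tr (Prof.orth_abs_le hO))
  have e : A.det = ((A - O) * Oᵀ + 1).det := by
    rw [Matrix.sub_mul, hO.1, sub_add_cancel, det_mul, det_transpose, hO.2, mul_one]
  set E := (A - O) * Oᵀ
  have h2 : Bd E (1 / 30) := h1.mono (by linarith)
  have p := fun a b c d => abs_le.1 (abs_mul_le (h1 a b) (h2 c d))
  have t := fun a b c d e f => abs_le.1 (abs_mul_le (abs_mul_le (h1 a b) (h2 c d)) (h2 e f))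
  have y0 := h.nn
  rw [e, det_fin_three]
  simp only [Matrix.add_apply, one_apply_eq, ne_eq, Fin.reduceEq, not_false_eq_true, one_apply_ne,
    add_zero]
  rw [abs_le]
  constructor <;>
    nlinarith [abs_le.1 (h1 0 0), abs_le.1 (h1 1 1), abs_le.1 (h1 2 2), p 0 0 1 1, p 0 0 2 2,
      p 1 1 2 2, p 0 1 1 0, p 0 2 2 0, p 1 2 2 1, t 0 0 1 1 2 2, t 0 0 1 2 2 1, t 0 1 1 0 2 2,
      t 0 1 1 2 2 0, t 0 2 1 0 2 1, t 0 2 1 1 2 0]

lemma near_sc {A : Mx} {σ u v : V} {x ρ L : ℝ} (hA : Bd (A - diagonal σ) x) (hσ : ∀ i, |σ i| ≤ 1)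
    (hu : ∀ i, 0 < u i) (hv : ∀ i, 0 < v i) (hL : ∀ a b, v b ≤ L * u a)
    (hr : ∀ i, |v i / u i - 1| ≤ ρ) : Bd (sc u v A - diagonal σ) (x * L + ρ) := fun a b => by
  have h1 : |v b / u a| ≤ L := by
    rw [abs_of_pos (div_pos (hv b) (hu a)), div_le_iff₀ (hu a)]; exact hL a b
  have h2 := abs_mul_le (hA a b) h1
  have h0 : 0 ≤ ρ := (abs_nonneg _).trans (hr 0)
  have e : (sc u v A - diagonal σ) a b =
      (A - diagonal σ) a b * (v b / u a) + diagonal σ a b * (v b / u a - 1) := by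
    simp only [sc, Matrix.sub_apply, of_apply]; ring
  rw [e]
  refine (abs_add_le _ _).trans (add_le_add h2 ?_)
  by_cases h : a = b
  · subst h
    rw [diagonal_apply_eq]
    simpa using abs_mul_le (hσ a) (hr a)
  · rw [diagonal_apply_ne _ h, zero_mul, abs_zero]; exact h0

lemma near_um {A : Mx} {σ : V} {x M : ℝ} (hA : Bd (A - diagonal σ) x) (hM : |M - 1| ≤ 1 / 10) :
    Bd (um A M - diagonal σ) (x * 2) := by
  obtain ⟨-, h1, h2⟩ := inv_bd hM
  have h3 : |M⁻¹| ≤ 2 := h2.trans (by norm_num)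
  have x0 := hA.nn
  have e : um A M - diagonal σ = um (A - diagonal σ) M := by
    ext i j; fin_cases i <;> fin_cases j <;> simp [um]
  have k : ∀ i j, |(A - diagonal σ) i j| ≤ x * 2 := fun i j => by linarith [hA i j]
  rw [e]
  intro i j
  fin_cases i <;> fin_cases j
  exacts [k 0 0, k 0 1, abs_mul_le (hA 0 2) h3, k 1 0, k 1 1, abs_mul_le (hA 1 2) h3,
    abs_mul_le (hA 2 0) h1, abs_mul_le (hA 2 1) h1, k 2 2]

lemma bd_diag {σ : V} (hσ : ∀ i, |σ i| ≤ 1) : Bd (diagonal σ) 1 := fun i j => by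
  by_cases h : i = j
  · subst h; rw [diagonal_apply_eq]; exact hσ i
  · rw [diagonal_apply_ne _ h, abs_zero]; exact zero_le_one

/-- sandwich between two matrices that are close to the matrix of signs -/
lemma sand_sg {U W G : Mx} {σ : V} {e m : ℝ} (hσ : ∀ i, |σ i| ≤ 1) (hU : Bd (U - diagonal σ) e)
    (hW : Bd (W - diagonal σ) e) (he : e ≤ 1) (hG : Bd G m) (a b : Fin 3) :
    |(U * G * W) a b - σ a * σ b * G a b| ≤ 117 * e * m := by
  have h1 : Bd W 7 := by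
    have := hW.add (bd_diag hσ)
    rw [sub_add_cancel] at this
    exact this.mono (by linarith)
  have := sand_err hU hW ((bd_diag hσ).mono (by norm_num)) h1 hG a b
  rwa [Matrix.sub_apply, mul_diagonal, diagonal_mul, mul_right_comm] at this

lemma ca_mul {u : V} (v : V) (hu : ∀ i, 0 < u i) (S : Mx) {M : ℝ} (hM : M ≠ 0) :
    S * dg3 (v 0) (v 1) (v 2 / M) = dg3 (u 0) (u 1) (u 2 / M) * um (sc u v S) M := by
  have := hu 0; have := hu 1; have := hu 2
  ext i j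
  rw [dg3, dg3, mul_diagonal, diagonal_mul]
  fin_cases i <;> fin_cases j <;> simp [um, sc] <;> field_simp

lemma ca_eq (c : Pm) (g : V → V) (w : V) :
    c.ca g w = jm g w * dg3 (cd c 1 0) (cd c 1 1) (cd c 1 2 / jac g w) := by
  simp only [cd, div_one]; rfl

lemma ca_aff (c : Pm) {g : V → V} (hg : Sm g) (b : V) (S : Mx) (z : V) :
    c.ca (fun z => g (b + S *ᵥ z)) z = jm g (b + S *ᵥ z) * S *
      dg3 (cd c S.det 0) (cd c S.det 1) (cd c S.det 2 / jac g (b + S *ᵥ z)) := by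
  have : c.n12 / jac (fun z => g (b + S *ᵥ z)) z = c.n12 / S.det / jac g (b + S *ᵥ z) := by
    rw [jac, jm_comp_affine b S (hg.dif _), det_mul, div_div, mul_comm]; rfl
  rw [Pm.ca, this, jm_comp_affine b S (hg.dif _)]; rfl

/-- bounds of the derivatives through a sandwich -/
lemma sand_di {X B : Mx} {x0 J μ e d : ℝ} {u w : V} {γ Γ : V → Mx} {M : V → ℝ}
    (hX1 : ∀ j, X 1 j = X 0 j) (hX2 : ∀ j, X j 1 = X j 0) (hX : ∀ a b, x0 ≤ X a b ∧ X a b ≤ J)
    (hx0 : 0 < x0) (hu : ∀ i, 0 < u i) (hB : Blk 6 e B) (he : e ≤ 1 / 20)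
    (He : 10 ^ 7 * (e * (J + μ)) ≤ x0) (dM : DifferentiableAt ℝ M w) (m0 : |M w - 1| ≤ 1 / 10)
    (hμ : ∀ k, u k * |pd k M w| ≤ μ) (dγ : DifM γ w) (bγ : Bd (γ w) 4410)
    (e1 : Γ =ᶠ[𝓝 w] fun w => (um B (M w))ᵀ * γ w * um B (M w)) (d0 : 0 ≤ d)
    (hd : ∀ a b i, u i * |pd i (fun w => γ w a b) w| ≤ d * X a b) (a b i : Fin 3) :
    u i * |pd i (fun w => Γ w a b) w| ≤ (37 * d + 1) * X a b := by
  have μ0 : 0 ≤ μ := (mul_nonneg (hu 0).le (abs_nonneg _)).trans (hμ 0)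
  have J0 : 0 ≤ J := by linarith [hX 0 0]
  have p1 := mul_nonneg hB.nn J0
  have p2 := mul_nonneg hB.nn μ0
  have h1 := dsand hB he dM m0 (hu i) (hμ i) dγ bγ (m1 := d * J) (fun a b => by
    rw [absD (hu i)]
    exact (hd a b i).trans (mul_le_mul_of_nonneg_left (hX a b).2 d0)) e1 a b
  have h2 := sand0 hB.tr hB (W := d • X) (fun j => congrArg (d * ·) (hX1 j))
    (fun j => congrArg (d * ·) (hX2 j)) (G := u i • Dm i γ w)
    (fun a b => by rw [absD (hu i)]; exact hd a b i) a b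
  rw [b0_tr, Matrix.smul_apply, smul_eq_mul] at h2
  rw [Matrix.sub_apply] at h1
  rw [← absD (hu i)]
  have h3 := mul_le_mul_of_nonneg_left (show 10 ^ 7 * (e * J) ≤ X a b by
    nlinarith [(hX a b).1]) d0
  have h4 := mul_nonneg d0 p1
  linarith [abs_sub_abs_le_abs_sub ((u i • Dm i Γ w) a b)
    (((b0 B)ᵀ * (u i • Dm i γ w) * b0 B) a b), (hX a b).1]

lemma tb4_all {p : ℝ → Prop} {l r k d : ℝ} (h1 : p l) (h2 : p r) (h3 : p k) (h4 : p d)
    (a b : Fin 3) : p (tb4 l r k d a b) := by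
  fin_cases a <;> fin_cases b
  exacts [h1, h1, h3, h1, h1, h3, h2, h2, h4]

lemma part2 {c c' : Pm} {S T : Mx} {σ b z' z : V} {g g1 : V → V} {e x u m δ G t : ℝ} (H : Gd c)
    (H' : Gd c') (hN : c'.N = c.N) (hl : c'.lam = c.lam) (ST : S * T = 1) (dS : 0 < S.det)
    (hσ : ∀ i, σ i * σ i = 1) (hT : Bd (T - diagonal σ) x) (hx : x * np c.N 4 ≤ e)
    (bS : Blk (5 / 2) e (sc c'.hs c.hs S)) (bT : Blk (5 / 2) e (sc c.hs c'.hs T))
    (bB : Blk 6 e (sc (cd c' 1) (cd c S.det) S)) (bB' : Blk 6 e (sc (cd c S.det) (cd c' 1) T))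
    (nB : Bd (sc (cd c' 1) (cd c S.det) S - diagonal σ) (e + e))
    (nB' : Bd (sc (cd c S.det) (cd c' 1) T - diagonal σ) (e + e)) (he : e = np c.N (-20))
    (hg : Sm g) (hg1 : Sm g1) (fs : c'.FS g g1 (b + S *ᵥ z') (b + S *ᵥ z)) (u1 : |u| ≤ 1 / 10)
    (m1' : m ≤ 1 / 10) (δ1 : δ ≤ 1 / 100) (G1 : 1 ≤ G) (t1 : t ≤ c.N)
    (R : LE c' g g1 (b + S *ᵥ z') (b + S *ᵥ z) u m δ G t) :
    LE c (fun z => g (b + S *ᵥ z)) (fun z => g1 (b + S *ᵥ z)) z' z (σ 0 * σ 2 * u)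
      (m + np c.N (-15)) (2 * δ + np c.N (-15)) (10 ^ 5 * G) (2 * t + np c.N (-15)) := by
  obtain ⟨m0, m1, j0, j1, bγ⟩ := fs
  obtain ⟨-, n2, n3, -, n5, n6⟩ := num H.big
  rw [← he] at n2 n3
  have hu := H'.hs_pos; have hv := H.hs_pos
  have e0 := bS.nn
  have x0 := hT.nn
  have l0 := H.lam_pos
  have N1 : (1 : ℝ) ≤ c.N := by linarith [H.big.N_ge, H.big.J_ge, H.big.L_ge]
  have n15 : np c.N (-15) ≤ 1 := (H.big.np_le (by norm_num)).trans_eq (np_zero _)
  have n7 : 10 ^ 4 * e ≤ np c.N (-15) := by nlinarith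
  have e1 : e ≤ 1 / 20 := by linarith
  have n4 : np c.N 4 = (c.N : ℝ) ^ 4 := by exact_mod_cast np_nat c.N 4
  have N3 : (1 : ℝ) ≤ (c.N : ℝ) ^ 3 := one_le_pow₀ N1
  have N2 : (1 : ℝ) ≤ (c.N : ℝ) ^ 2 := one_le_pow₀ N1
  have x3 : x * (c.N : ℝ) ^ 3 ≤ e := le_trans (mul_le_mul_of_nonneg_left
    (n4 ▸ pow_le_pow_right₀ N1 (by norm_num)) x0) hx
  have x1 : x ≤ e := le_trans (le_mul_of_one_le_right x0 N3) x3
  have aσ : ∀ i, |σ i| = 1 := fun i => by
    have := abs_mul_abs_self (σ i); nlinarith [abs_nonneg (σ i), hσ i]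
  have TS : T * S = 1 := mul_eq_one_comm.1 ST
  set w' := b + S *ᵥ z' with hw'
  set w := b + S *ᵥ z with hw
  have ez : z - z' = T *ᵥ (w - w') := by
    rw [hw, hw', add_sub_add_left_eq_sub, ← mulVec_sub, mulVec_mulVec, TS, one_mulVec]
  have tl : ∀ i, i ≠ 2 → |(w - w') i| ≤ δ * c.lam := fun i hi => hl ▸ R.dl i hi
  have tv : |(w - w') 2| ≤ t * ((c.N : ℝ) ^ 2 * c.lam) := hl ▸ hN ▸ R.dv
  have δ0 : 0 ≤ δ := nonneg_of_mul_nonneg_left ((abs_nonneg _).trans (tl 0 (by decide))) l0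
  have t0 : 0 ≤ t := nonneg_of_mul_nonneg_left ((abs_nonneg _).trans tv) (by positivity)
  have To : ∀ i j, i ≠ j → |T i j| ≤ x := fun i j h => by
    simpa [diagonal_apply_ne _ h] using hT i j
  have Td : ∀ i, |T i i| ≤ 1 + x := fun i => by
    have := hT i i
    rw [Matrix.sub_apply, diagonal_apply_eq] at this
    linarith [abs_sub_abs_le_abs_sub (T i i) (σ i), aσ i]
  have ev : ∀ i, |z i - z' i| ≤ |T i 0 * (w - w') 0| + |T i 1 * (w - w') 1| + |T i 2 * (w - w') 2| :=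
    fun i => by
      rw [← Pi.sub_apply, ez]
      simp only [mulVec, dotProduct, Fin.sum_univ_three]
      exact abs_add_three _ _ _
  have cu : ∀ i, 0 < cd c' 1 i := fun i =>
    (H'.big.np_pos _).trans_le (cd_bd H' (by norm_num) (by norm_num) i).1
  have cv : ∀ i, 0 < cd c S.det i := fun i => by
    fin_cases i
    exacts [H.c1_pos, H.c2_pos, div_pos H.n12_pos dS]
  obtain ⟨E, E1, E2⟩ := R.em
  have m2 : 0 ≤ m := (abs_nonneg _).trans (E2 2 0)
  have bE : Bd E 2 := fun a b => by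
    have h1 := (E2 a b).trans (tb4_all (p := (· ≤ 1 / 10)) (by linarith) m1' (by linarith)
      (by linarith) a b)
    have h2 : |(1 + u • E20) a b| ≤ 1 := by
      fin_cases a <;> fin_cases b <;> simp [E20] <;> linarith
    rw [sub_sub, Matrix.sub_apply] at h1
    linarith [abs_sub_abs_le_abs_sub (E a b) ((1 + u • E20) a b)]
  have p1 := mul_nonneg δ0 l0.le
  have p2 : 0 ≤ t * ((c.N : ℝ) ^ 2 * c.lam) := by positivity
  have p3 : x * (t * ((c.N : ℝ) ^ 2 * c.lam)) ≤ e * c.lam := by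
    have : x * (t * (c.N : ℝ) ^ 2) ≤ e := le_trans (mul_le_mul_of_nonneg_left (by
      rw [pow_succ' _ 2]; exact mul_le_mul_of_nonneg_right t1 (by positivity)) x0) x3
    nlinarith
  have p4 : e * c.lam ≤ np c.N (-15) * c.lam := mul_le_mul_of_nonneg_right (by linarith) l0.le
  have p5 : x * (δ * c.lam) ≤ 1 / 20 * (δ * c.lam) := mul_le_mul_of_nonneg_right (by linarith) p1
  refine ⟨R.mt, fun i hi => (ev i).trans ?_, (ev 2).trans ?_,
    ⟨um (sc (cd c S.det) (cd c' 1) T) (jac g w') * E * um (sc (cd c' 1) (cd c S.det) S) (jac g1 w),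
      ?_, fun a a' => ?_⟩, fun d d0 hd a a' i => ?_⟩
  · have h3 := abs_mul_le (To i 2 hi) tv
    fin_cases i
    · have h1 := abs_mul_le (Td 0) (tl 0 (by decide))
      have h2 := abs_mul_le (To 0 1 (by decide)) (tl 1 (by decide))
      simp only [Fin.zero_eta] at h3 ⊢
      linarith
    · have h1 := abs_mul_le (Td 1) (tl 1 (by decide))
      have h2 := abs_mul_le (To 1 0 (by decide)) (tl 0 (by decide))
      simp only [Fin.mk_one] at h3 ⊢
      linarith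
    · exact absurd rfl hi
  · have h1 := abs_mul_le (To 2 0 (by decide)) (tl 0 (by decide))
    have h2 := abs_mul_le (To 2 1 (by decide)) (tl 1 (by decide))
    have h3 := abs_mul_le (Td 2) tv
    have h4 : x * (δ * c.lam) ≤ e * (1 / 100 * c.lam) :=
      mul_le_mul x1 (mul_le_mul_of_nonneg_right δ1 l0.le) p1 e0
    have h5 : x * (t * ((c.N : ℝ) ^ 2 * c.lam)) ≤ 1 * (t * ((c.N : ℝ) ^ 2 * c.lam)) :=
      mul_le_mul_of_nonneg_right (by linarith) p2
    have h6 : np c.N (-15) * c.lam ≤ np c.N (-15) * ((c.N : ℝ) ^ 2 * c.lam) :=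
      mul_le_mul_of_nonneg_left (le_mul_of_one_le_left l0.le N2) (H.big.np_pos _).le
    nlinarith [mul_nonneg e0 l0.le]
  · have k0 := ca_mul (cd c' 1) cv T (inv_bd m0).1.ne'
    have k1 := ca_mul (cd c S.det) cu S (inv_bd m1).1.ne'
    rw [ca_aff c hg, ca_aff c hg1, ← hw, ← hw', Matrix.mul_assoc (jm g1 w), k1, ← Matrix.mul_assoc,
      ← ca_eq, E1, ca_eq, ← Matrix.mul_assoc, ← Matrix.mul_assoc, Matrix.mul_assoc _ (dg3 _ _ _) (um _ _),
      ← k0, ← Matrix.mul_assoc, Matrix.mul_assoc _ S T, ST, Matrix.mul_one]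
  · have h1 := sand_sg (fun i => (aσ i).le) (near_um nB' m0) (near_um nB m1) (by linarith) bE a a'
    have h2 : σ a * σ a' * E a a' - (1 + (σ 0 * σ 2 * u) • E20) a a' =
        σ a * σ a' * (E - 1 - u • E20) a a' := by
      have := hσ 0; have := hσ 1; have := hσ 2
      fin_cases a <;> fin_cases a' <;> simp [E20] <;> linarith
    have h3 : |σ a * σ a' * (E - 1 - u • E20) a a'| ≤ tb4 δ m δ δ a a' := by
      rw [abs_mul, abs_mul, aσ, aσ, one_mul, one_mul]; exact E2 a a'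
    have h4 : tb4 δ m δ δ a a' + np c.N (-15) ≤ tb4 (2 * δ + np c.N (-15)) (m + np c.N (-15))
        (2 * δ + np c.N (-15)) (2 * δ + np c.N (-15)) a a' := by
      fin_cases a <;> fin_cases a' <;> simp [tb4] <;> linarith
    rw [← h2] at h3
    rw [sub_sub, Matrix.sub_apply]
    linarith [abs_sub_le ((um (sc (cd c S.det) (cd c' 1) T) (jac g w') * E *
      um (sc (cd c' 1) (cd c S.det) S) (jac g1 w)) a a') (σ a * σ a' * E a a')
      ((1 + (σ 0 * σ 2 * u) • E20) a a')]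
  · have ne : ∀ {g : V → V} {w : V}, Sm g → |jac g w - 1| ≤ 1 / 10 → ∀ᶠ x in 𝓝 w, jac g x ≠ 0 :=
      fun hg h => hg.jac.continuous.continuousAt.eventually_ne (inv_bd h).1.ne'
    have fw : ∀ {g : V → V} {w : V}, Sm g → |jac g w - 1| ≤ 1 / 10 →
        (fun x => gm (cd c S.det) (jm g x * S) (jac g x)) =ᶠ[𝓝 w] fun x =>
          (um (sc (cd c' 1) (cd c S.det) S) (jac g x))ᵀ * c'.gam g x *
            um (sc (cd c' 1) (cd c S.det) S) (jac g x) := fun hg h =>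
      (ne hg h).mono fun x hx => by simp only [gam_eq c']; exact gm_mul _ cu _ S hx
    have dG : ∀ {g : V → V} {w : V}, Sm g → |jac g w - 1| ≤ 1 / 10 →
        DifM (fun x => gm (cd c S.det) (jm g x * S) (jac g x)) w ∧ DifM (c'.gam g) w := fun hg h =>
      ⟨dif_gm _ (hg.jm.mul (smM_const S)) hg.jac (inv_bd h).1.ne', by
        rw [funext (gam_eq c' _)]; exact dif_gm _ hg.jm hg.jac (inv_bd h).1.ne'⟩
    have pa : ∀ {g : V → V} {z : V}, Sm g → |jac g (b + S *ᵥ z) - 1| ≤ 1 / 10 → ∀ a a' j,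
        pd j (fun x => c.gam (fun z => g (b + S *ᵥ z)) x a a') z = ((fun l => pd l
          (fun x => gm (cd c S.det) (jm g x * S) (jac g x) a a') (b + S *ᵥ z)) ᵥ* S) j :=
      fun hg h a a' j => by
        simp only [gam_aff c hg]
        exact pd_comp_affine b S ((dG hg h).1 a a') j
    have hX : ∀ a b, pJ c.N ^ 4 / c.N ≤ Xj c.N a b ∧ Xj c.N a b ≤ pJ c.N :=
      bm_all (p := fun t => pJ c.N ^ 4 / c.N ≤ t ∧ t ≤ pJ c.N) ⟨le_rfl, n5.trans n6⟩ ⟨n5, n6⟩
        ⟨n5.trans n6, le_rfl⟩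
    have y0 : 0 < pJ c.N ^ 4 / c.N := H.J4N_pos
    have X0 : ∀ a b, 0 ≤ Xj c.N a b := fun a b => y0.le.trans (hX a b).1
    have n10 : np c.N (-10) ≤ 1 := (H.big.np_le (by norm_num)).trans_eq (np_zero _)
    have hq : c'.q = pq c.N := congrArg pq hN
    have He : 10 ^ 7 * (e * (pJ c.N + 100 * c'.q)) ≤ pJ c.N ^ 4 / c.N := by
      rw [hq]
      nlinarith [mul_le_mul_of_nonneg_left H.big.q_le_J e0, mul_nonneg e0 H.big.J_pos.le]
    have bγ' : Bd (c'.gam g w') 10 := bγ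
    have u7 : Bd (um (sc (cd c' 1) (cd c S.det) S) (jac g w')) 7 := (bB.um_bd m0).mono (by linarith)
    have bΓ : Bd (gm (cd c S.det) (jm g w' * S) (jac g w')) 4410 := by
      rw [(fw hg m0).eq_of_nhds]; exact ((u7.tr.mul bγ').mul u7).mono (by norm_num)
    have bγ1 : Bd (c'.gam g1 w) 4410 := by
      have : c'.gam g1 w = Eᵀ * c'.gam g w' * E := by
        rw [Pm.gam, Pm.gam, E1, transpose_mul]; simp only [Matrix.mul_assoc]
      rw [this]; exact ((bE.tr.mul bγ').mul bE).mono (by norm_num)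
    have sA := sand_di (d := 13 / 5 * d) (Γ := c'.gam g) (bm_sym _ _ _).1 (bm_sym _ _ _).2 hX y0 hu
      bB' e1 He (hg.jac.dif _) m0 (fun k => j0.pd_le le_rfl k rfl) (dG hg m0).1 bΓ
      ((ne hg m0).mono fun x hx => by
        have := gm_mul (cd c' 1) cv (jm g x * S) T hx
        rwa [Matrix.mul_assoc, ST, Matrix.mul_one, ← gam_eq] at this) (by linarith)
      (fun a a' i => by
        have := vm hv hu (fun l => (pa hg m0 a a' l ▸ hd a a' l :)) (bT.cs i)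
        rw [vecMul_vecMul, ST, vecMul_one] at this
        refine this.trans ?_
        rw [mul_assoc]
        exact mul_le_mul_of_nonneg_right (by linarith) (mul_nonneg d0 (X0 a a')))
    have sB := R.df (37 * (13 / 5 * d) + 1) (by linarith) (hN ▸ sA : ∀ a b i, _ ≤ _ * Xj c'.N a b)
    have g0 : 0 ≤ G * (1 + (37 * (13 / 5 * d) + 1)) := mul_nonneg (by linarith) (by linarith)
    have sC := sand_di (bm_sym _ _ _).1 (bm_sym _ _ _).2 hX y0 hu bB e1 He (hg1.jac.dif _) m1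
      (fun k => j1.pd_le le_rfl k rfl) (dG hg1 m1).2 bγ1 (fw hg1 m1) g0
      (hN ▸ sB : ∀ a b i, _ ≤ _ * Xj c.N a b) a a'
    have := vm hu hv sC (bS.cs i)
    rw [pa hg1 m1]
    refine this.trans ?_
    rw [← mul_assoc]
    refine mul_le_mul_of_nonneg_right ?_ (X0 a a')
    have h1 := mul_nonneg (zero_le_one.trans G1) d0
    have h2 : (5 / 2 + 2 * e) * (37 * (G * (1 + (37 * (13 / 5 * d) + 1))) + 1) ≤
        13 / 5 * (37 * (G * (1 + (37 * (13 / 5 * d) + 1))) + 1) :=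
      mul_le_mul_of_nonneg_right (by linarith) (by linarith)
    refine h2.trans ?_
    clear * - h1 G1
    linarith

end Ltr

open Ftr Ltr in
theorem ltr : LtrStmt := by
  filter_upwards [ev_big] with N big F F' lb k hO hO' hQ hQ' cp ok ok' hb
  have G : Gd (F.pm N lb k) := ⟨big, ok⟩
  have G' : Gd (F'.pm N lb k) := ⟨big, ok'⟩
  obtain ⟨n1, n2, -, n4, -⟩ := num big
  have C := cp.cp G G' n4
  have d0 := big.dc_pos
  have J1 : 1 ≤ pJ N := by linarith [big.J_ge, big.L_ge]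
  have N1 : (1 : ℝ) ≤ N := by linarith [big.N_ge]
  have n15 : np N (-15) ≤ 1 := (big.np_le (by norm_num)).trans_eq (np_zero _)
  have n4 : (N : ℝ) ≤ np N 4 := (np_one _).symm.trans_le (big.np_le (by norm_num))
  have e1 : 10 ^ 4 * np N (-20) ≤ np N (-15) := by nlinarith [big.np_pos (-20)]
  have e3 : 1000 * (pJ N * dc N) ≤ np N (-20) := by nlinarith [big.N_ge]
  have e2 : 13 * dc N ≤ np N (-20) := by nlinarith
  set T := F.Q⁻¹ * F'.Q
  set S := F'.Q⁻¹ * F.Q with hS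
  have ST : S * T = 1 := by
    rw [Matrix.mul_assoc, ← Matrix.mul_assoc F.Q, Prof.q_inv hQ.ne', Matrix.one_mul,
      Prof.inv_q hQ'.ne']
  have hΩ := Prof.orth_mul (Prof.orth_t hO) hO'
  have tq : Bd (T - F.Oᵀ * F'.O) (dc N) := cp.tq
  have sq := inv_near hΩ tq (by linarith) ST
  have nT := nr_of hΩ (tq.mono (by linarith : _ ≤ 12 * dc N)) cp.o3 cp.al
  have nS := nr_of (Prof.orth_t hΩ) sq (fun i hi => (cp.o3 i hi).symm) (cp.al.imp_left And.symm)
  have dd := det_near (Prof.orth_t hΩ) sq (by linarith)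
  have dJ : dc N ≤ pJ N * dc N := le_mul_of_one_le_left d0.le J1
  obtain ⟨dd1, dd2⟩ := abs_le.1 dd
  have dS : S.det ≤ 2 := by linarith
  have dS' : 1 / 2 ≤ S.det := by linarith
  have pS : 0 < S.det := by linarith
  have al := cp.al.resolve_right fun h => absurd h.2 (not_le.2 hb)
  have oΩ : Bd (F.Oᵀ * F'.O - diagonal (F.σ F')) (dc N) := orth_diag hΩ (by linarith) fun i j h => by
    fin_cases i <;> fin_cases j <;> first | exact absurd rfl h | skip
    exacts [al.1, (cp.o3 0 (by decide)).1, al.2, (cp.o3 1 (by decide)).1, (cp.o3 0 (by decide)).2,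
      (cp.o3 1 (by decide)).2]
  have hT : Bd (T - diagonal (F.σ F')) (dc N + 12 * dc N) := by
    have := tq.add oΩ
    rw [sub_add_sub_cancel] at this
    exact this.mono (by linarith)
  have hS' : Bd (S - diagonal (F.σ F')) (dc N + 12 * dc N) := by
    have := sq.add oΩ.tr
    rw [transpose_sub, diagonal_transpose, sub_add_sub_cancel] at this
    exact this.mono (by linarith)
  have aσ : ∀ i, |F.σ F' i| ≤ 1 := fun i => (abs_sg _).le
  have r : ∀ X ∈ [Pm.ro, Pm.c1, Pm.c2, Pm.n12], 0 < X (F.pm N lb k) → 0 < X (F'.pm N lb k) →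
      X (F.pm N lb k) ≤ 11 / 10 * X (F'.pm N lb k) ∧
        X (F'.pm N lb k) ≤ 11 / 10 * X (F.pm N lb k) := fun X hX h h' => by
    obtain ⟨-, h1, h2, -⟩ := C.ratios X (by
      simp only [List.mem_cons, List.not_mem_nil, or_false] at hX ⊢; tauto)
    constructor <;> nlinarith [C.q_inv.2]
  have r1 := r Pm.ro (by simp) G.ro_pos G'.ro_pos
  have r2 := r Pm.c1 (by simp) G.c1_pos G'.c1_pos
  have r3 := r Pm.c2 (by simp) G.c2_pos G'.c2_pos
  have r4 := r Pm.n12 (by simp) G.n12_pos G'.n12_pos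
  have x1 : dc N + 12 * dc N ≤ 1 / 100 := by linarith
  have x2 : (dc N + 12 * dc N) * np N 4 ≤ np N (-20) := by linarith
  have x3 : np N (-20) ≤ 1 / 20 := by linarith
  have cu : ∀ i, 0 < cd (F'.pm N lb k) 1 i := fun i =>
    (big.np_pos _).trans_le (cd_bd G' (by norm_num) (by norm_num) i).1
  have cv : ∀ i, 0 < cd (F.pm N lb k) S.det i := fun i =>
    (big.np_pos _).trans_le (cd_bd G dS' dS i).1
  have cL : ∀ {x y : ℝ}, x ≤ np N 2 → np N (-2) ≤ y → x ≤ np N 4 * y := fun h h' =>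
    h.trans (le_trans (le_of_eq (by rw [← big.np_add]; norm_num))
      (mul_le_mul_of_nonneg_left h' (big.np_pos _).le))
  have lg : ∀ i, |Real.log (cd (F'.pm N lb k) 1 i) - Real.log (cd (F.pm N lb k) S.det i)| ≤
      400 * (pJ N * dc N) := fun i => by
    have ec : cpe (dc N) (F.pm N lb k) (F'.pm N lb k) = 12 * (pJ N * dc N) := by
      simp only [cpe, Fr.pm, sub_self, zero_div, pR]; ring
    fin_cases i
    · exact C.cl_c1.trans (by linarith)
    · exact C.cl_c2.trans (by linarith)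
    · show |Real.log ((F'.pm N lb k).n12 / 1) - Real.log ((F.pm N lb k).n12 / S.det)| ≤ _
      rw [div_one, Real.log_div G.n12_pos.ne' pS.ne']
      have h1 := abs_le.1 C.cl_n12
      have h2 := Real.log_le_sub_one_of_pos pS
      have h3 := Real.one_sub_inv_le_log_of_pos pS
      have h4 : S.det⁻¹ ≤ 1 + 288 * dc N := by
        rw [inv_le_iff_one_le_mul₀ pS]; nlinarith
      rw [abs_le]; constructor <;> linarith
  have nB := (near_sc hS' aσ cu cv (L := np N 4) (ρ := np N (-20))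
    (fun a b => cL (cd_bd G dS' dS b).2 (cd_bd G' (by norm_num) (by norm_num) a).1)
    (fun i => (abs_div_sub_one_le (cu i) (cv i) ((abs_sub_comm _ _).trans_le (lg i))
      (by linarith)).trans (by linarith))).mono (add_le_add x2 le_rfl)
  have nB' := (near_sc hT aσ cv cu (L := np N 4) (ρ := np N (-20))
    (fun a b => cL (cd_bd G' (by norm_num) (by norm_num) b).2 (cd_bd G dS' dS a).1)
    (fun i => (abs_div_sub_one_le (cv i) (cu i) (lg i) (by linarith)).trans (by linarith))).mono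
    (add_le_add x2 le_rfl)
  have a1 : ∀ z, F'.zc F.z0 + S *ᵥ z = F'.zc (F.zp z) := fun z => by
    rw [hS, ← mulVec_mulVec, Fr.zc, Fr.zc, ← mulVec_add, Fr.zp, add_sub_right_comm]
  have a2 : ∀ g : V → V, F.fh g = fun z => F'.fh g (F'.zc F.z0 + S *ᵥ z) := fun g => funext fun z => by
    rw [a1, Fr.fh, Fr.fh, Prof.zp_zc hQ'.ne']
  have a3 : ∀ p, F'.zc p = F'.zc F.z0 + S *ᵥ F.zc p := fun p => by rw [a1, Prof.zp_zc hQ.ne']
  refine ⟨fun f p hf m0 bγ a b => ?_, fun f f' p' p u m δ G0 t hf hf' fs u1 m1 δ1 G1 t1 R => ?_⟩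
  · have hU := near_um nB m0
    have hU' := hU.tr
    rw [transpose_sub, diagonal_transpose] at hU'
    have := sand_sg aσ hU' hU (by linarith) (m := 20) bγ a b
    have hs : Sm (F'.fh f) := hf.comp (Prof.zp_sm F')
    rw [a2 f, gam_aff _ hs, ← a3, gm_mul _ cu _ S (inv_bd m0).1.ne', ← gam_eq]
    exact this.trans (by linarith)
  · rw [a3 p', a3 p] at fs R
    rw [a2 f, a2 f']
    exact part2 G G' rfl rfl ST pS (fun i => sg_sq _) hT x2
      (blk_hs G G' nS rfl rfl r1.1 x1 x2 x3 And.left) (blk_hs G' G nT rfl rfl r1.2 x1 x2 x3 And.right)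
      (blk_cd G G' nS rfl r2.1 r3.1 r4.1 dS' dS (by norm_num) (by norm_num) x1 x2 x3 And.right)
      (blk_cd G' G nT rfl r2.2 r3.2 r4.2 (by norm_num) (by norm_num) dS' dS x1 x2 x3 And.left)
      nB nB' rfl (hf.comp (Prof.zp_sm F')) (hf'.comp (Prof.zp_sm F')) fs u1 m1 δ1 G1 t1 R

end
end Pool.Agent.MP_20bec2_an.T3

end MrgPart0

-- ======== part 1: formerly Pool.Agent.MP_20bec2_an.T3.Fl2
section MrgPart1

-- ======== part 0: formerly Pool.Agent.MP_20bec2_an.T3.FlA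
section MrgPart0

/-! Common facts for the long slide. -/

set_option autoImplicit false
open MeasureTheory Set Filter Matrix Topology

namespace Pool.Agent.MP_20bec2_an.T3
noncomputable section
open Classical

namespace Fl

/-- bound of the line integrals -/
def m0 (N : ℕ) : ℝ := 3 * Real.sqrt (pX N / N) / pq N ^ 5

section num
variable {N : ℕ} (h : Big N)
include h

omit h in
lemma lc {C : ℝ} (h1 : 1 ≤ C) (h2 : C ≤ 10 ^ 8) : Real.log C ≤ 10 ^ 8 := (logc_bd h1).2.trans h2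

lemma m0_pos : 0 < m0 N := by
  have := h.q_pos; have := h.N_pos; have := h.X_pos
  unfold m0; positivity

lemma n1 : 100 * m0 N ≤ √(pJ N / N) ∧ 100 * np N (-1) ≤ m0 N ∧ 1000 * √(pJ N / N) ≤ 1 ∧
    10 ^ 6 * np N (-14) ≤ np N (-5) ∧ 1000 * np N (-5) ≤ np N (-1) ∧
    ((10 : ℝ) ^ 6 * N) ^ 8 ≤ np N 10 ∧ 24 ≤ np N (1 / 10) ∧ 10 * np N (-15) ≤ np N (-14) := by
  have := h.J_pos; have := h.q_pos; have := h.N_pos; have := h.X_pos
  have := h.np_pos (-1); have := h.np_pos (-14); have := h.np_pos (-5); have := h.np_pos 10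
  have := h.np_pos (1 / 10); have := h.np_pos (-15)
  unfold m0
  refine ⟨?_, ?_, ?_, ?_, ?_, ?_, ?_, ?_⟩ <;>
    refine le_of_log (by positivity) (by positivity) ?_ <;>
    simp (disch := positivity) only [Real.log_div, Real.log_mul, Real.log_pow, Real.log_sqrt,
      h.log_J, h.log_N, h.log_q, h.log_np, h.log_X, Real.log_one] <;>
    push_cast <;> linarith [h.L_ge, h.J_ge, lc (show (1 : ℝ) ≤ 100 by norm_num) (by norm_num),
      lc (show (1 : ℝ) ≤ 3 by norm_num) (by norm_num), (logc_bd (show (1 : ℝ) ≤ 3 by norm_num)),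
      (logc_bd (show (1 : ℝ) ≤ 100 by norm_num)), (logc_bd (show (1 : ℝ) ≤ 1000 by norm_num)),
      (logc_bd (show (1 : ℝ) ≤ 10 by norm_num)), (logc_bd (show (1 : ℝ) ≤ 24 by norm_num))]

omit h in
lemma mid_le : mid N ≤ nb N := by unfold mid nb; omega

lemma lam_le {lb : ℝ} (hl : 0 < lb) : lb / 2 ^ mid N ≤ np N (-27) * Dd N lb := by
  have e : np N (-27) * Dd N lb = lb / np N 23 := by
    rw [Dd, ← np_nat, eq_div_iff (h.np_pos 23).ne']
    have e1 := h.np_add (-27) (4 : ℕ)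
    have e2 := h.np_add (-27 + (4 : ℕ)) 23
    rw [show (-27 + ((4 : ℕ) : ℝ)) + 23 = 0 by norm_num, np_zero] at e2
    calc _ = np N (-27) * np N (4 : ℕ) * np N 23 * lb := by ring
      _ = lb := by rw [← e1, ← e2, one_mul]
  rw [e]
  exact div_le_div_of_nonneg_left hl.le (h.np_pos 23) h.two_pow_mid.1

lemma n2 : 10 ^ 8 * ((N : ℝ) ^ 3 * np N (-27)) ≤ np N (-20) ∧ np N (-20) ≤ 1 / 10 ^ 6 := by
  have := h.N_pos; have := h.np_pos (-27); have := h.np_pos (-20)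
  constructor <;> refine le_of_log (by positivity) (by positivity) ?_ <;>
    simp (disch := positivity) only [Real.log_div, Real.log_mul, Real.log_pow,
      h.log_N, h.log_np, Real.log_one] <;>
    push_cast <;> linarith [h.L_ge, h.J_ge, (logc_bd (show (1 : ℝ) ≤ 10 by norm_num))]

end num

variable {B : Bk} {C : ℝ} {α : Cu → V → ℝ}

lemma gdm (hN : Big B.N) (hG : B.G) (g : Cu) : Gd (B.c g (mid B.N)) :=
  Bk.gd hG.toFrOk hN g mid_le

lemma lam_D (hN : Big B.N) (hG : B.G) (g : Cu) :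
    10 ^ 8 * ((B.N : ℝ) ^ 3 * (B.c g (mid B.N)).lam) ≤ np B.N (-20) * B.D := by
  have h1 : (B.c g (mid B.N)).lam ≤ np B.N (-27) * B.D := lam_le hN (GeoP.lb_pos hG.toFrOk)
  have h2 := mul_le_mul_of_nonneg_right (n2 hN).1 (Bl.D_pos hN hG).le
  have h3 := mul_le_mul_of_nonneg_left h1 (pow_pos hN.N_pos 3).le
  nlinarith

lemma lam_D' (hN : Big B.N) (hG : B.G) (g : Cu) :
    10 ^ 14 * ((B.N : ℝ) ^ 3 * (B.c g (mid B.N)).lam) ≤ B.D := by
  have h1 := lam_D hN hG g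
  have h2 := mul_le_mul_of_nonneg_right (n2 hN).2 (Bl.D_pos hN hG).le
  linarith

lemma mem_K {g : Cu} {r : ℝ} {p : V} : p ∈ B.K g r ↔ (B.fr g).zc p ∈ B.R g r := Iff.rfl

lemma K_mono (hN : Big B.N) (hG : B.G) {g : Cu} {r r' : ℝ} (h : r ≤ r') {p : V}
    (hp : p ∈ B.K g r) : p ∈ B.K g r' := mem_K.2 (Bl.R_mono hN hG h (mem_K.1 hp))

lemma zc_zp (hG : B.G) (g : Cu) (z : V) : (B.fr g).zc ((B.fr g).zp z) = z :=
  Prof.zc_zp (GeoP.det_ne hG.toFrOk g) z
lemma zp_zc (hG : B.G) (g : Cu) (z : V) : (B.fr g).zp ((B.fr g).zc z) = z :=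
  Prof.zp_zc (GeoP.det_ne hG.toFrOk g) z

lemma K_zp (hG : B.G) {g : Cu} {r : ℝ} {z : V} (hz : z ∈ B.R g r) : (B.fr g).zp z ∈ B.K g r := by
  rwa [mem_K, zc_zp hG]

lemma nbr_K (hN : Big B.N) (hG : B.G) {g g' : Cu} {r r' : ℝ} (h0 : 0 ≤ r) (h0' : 0 ≤ r')
    (h1 : r ≤ 6 / 5) (h1' : r' ≤ 6 / 5) {p : V} (hp : p ∈ B.K g r) (hp' : p ∈ B.K g' r') :
    Nbr 2 g g' :=
  GeoP.nbr_of hG (Bl.one_le hN) h0 h0' (by linarith) (by linarith) (m := 2)
    (by push_cast; linarith) (mem_K.1 hp) (mem_K.1 hp')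

lemma psh_deep (hN : Big B.N) (hG : B.G) {g : Cu} (h : B.psh g) : B.deep g :=
  Bk.push_deep hG.toFrOk hN (Prof.nbr_refl (by norm_num) g) h

/-- displacement through a long slide -/
lemma le_norm {c : Pm} (h : Gd c) {f f' : V → V} {z' z : V} {u m δ G t : ℝ}
    (H : LE c f f' z' z u m δ G t) (hδ : δ ≤ 1) (ht : t ≤ 100) :
    ‖z - z'‖ ≤ (c.N : ℝ) ^ 3 * c.lam := by
  have hN := Bl.N_ge h.big
  have hl := h.lam_pos
  have h2 : (1 : ℝ) ≤ (c.N : ℝ) ^ 2 := one_le_pow₀ (by linarith)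
  have h3 : 100 * ((c.N : ℝ) ^ 2 * c.lam) ≤ (c.N : ℝ) ^ 3 * c.lam := by
    have : 0 ≤ (c.N : ℝ) ^ 2 * c.lam := by positivity
    nlinarith
  refine Prof.norm_le_of fun i => ?_
  by_cases hi : i = 2
  · subst hi
    exact H.dv.trans ((mul_le_mul_of_nonneg_right ht (by positivity)).trans h3)
  · refine (H.dl i hi).trans ?_
    nlinarith

lemma R_near (hN : Big B.N) (hG : B.G) {g : Cu} {r : ℝ} {z z' : V} (hz : z ∈ B.R g r)
    (h : ‖z' - z‖ ≤ 1000 * ((B.N : ℝ) ^ 3 * (B.c g (mid B.N)).lam)) :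
    z' ∈ B.R g (r + 1 / 10 ^ 6) :=
  Prof.RX_add (GeoP.orth hG.toFrOk g) hz (by
    have := lam_D' hN hG g
    have := Bl.D_pos hN hG
    change _ ≤ _ * B.D
    linarith)

lemma le_R (hN : Big B.N) (hG : B.G) {g : Cu} {f f' : V → V} {z' z : V} {u m δ G t : ℝ}
    (H : LE (B.c g (mid B.N)) f f' z' z u m δ G t) (hδ : δ ≤ 1) (ht : t ≤ 100) {r : ℝ} :
    (z' ∈ B.R g r → z ∈ B.R g (r + 1 / 10 ^ 6)) ∧ (z ∈ B.R g r → z' ∈ B.R g (r + 1 / 10 ^ 6)) := by
  have h1 : ‖z - z'‖ ≤ (B.N : ℝ) ^ 3 * (B.c g (mid B.N)).lam := le_norm (gdm hN hG g) H hδ ht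
  have h0 := norm_nonneg (z - z')
  exact ⟨fun h => R_near hN hG h (by linarith), fun h => R_near hN hG h
    (by rw [norm_sub_rev]; linarith)⟩

lemma sg_abs (x : ℝ) : |sg x| = 1 := by unfold sg; split_ifs <;> simp
lemma tau_abs (g g' : Cu) : |B.tau g g'| = 1 := by
  unfold Bk.tau Bk.sgn Fr.σ; rw [abs_mul, sg_abs, sg_abs, mul_one]

/-- one term of the shear -/
def tm (B : Bk) (α : Cu → V → ℝ) (g : Cu) (w : V) (g' : Cu) : ℝ :=
  B.tau g g' * (Real.sqrt (B.c g' 0).p * (α g' w * Real.cos (B.phi g' w)))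

lemma tm_zero {g g' : Cu} {w : V} (h : α g' w = 0) : tm B α g w g' = 0 := by simp [tm, h]

lemma sw_eq (j : ℕ) (g : Cu) (w : V) :
    B.sw α j g w = ∑ᶠ g', if col g' < j ∧ B.psh g' then tm B α g w g' else 0 := rfl

lemma sw_supp (hP : B.PA C α) (j : ℕ) {g : Cu} {w : V} (hw : w ∈ B.K g (6 / 5)) :
    (Function.support fun g' => if col g' < j ∧ B.psh g' then tm B α g w g' else 0) ⊆
      nbrs g 2 := fun g' hg => by
  refine (hP.fin g w hw g' fun e => hg ?_).1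
  simp [tm_zero e]

lemma sw_zero {j : ℕ} {g : Cu} {w : V} (h : ∀ g', B.psh g' → α g' w = 0) : B.sw α j g w = 0 := by
  rw [sw_eq]
  refine finsum_eq_zero_of_forall_eq_zero fun g' => ?_
  split_ifs with e
  exacts [tm_zero (h g' e.2), rfl]

lemma sw_nil (g : Cu) (w : V) : B.sw α 0 g w = 0 := by simp [sw_eq]

lemma sw_same {j : ℕ} {g : Cu} {w : V} (h : ∀ g', col g' = j → B.psh g' → α g' w = 0) :
    B.sw α (j + 1) g w = B.sw α j g w := by
  rw [sw_eq, sw_eq]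
  refine finsum_congr fun g' => ?_
  by_cases e : col g' = j
  · by_cases e' : B.psh g'
    · simp [tm_zero (h g' e e')]
    · simp [e']
  · simp only [show col g' < j + 1 ↔ col g' < j by omega]

lemma sw_step (hP : B.PA C α) {j : ℕ} {g g0 : Cu} {w : V} (hw : w ∈ B.K g (6 / 5))
    (h0 : col g0 = j) (h1 : B.psh g0)
    (h : ∀ g', col g' = j → B.psh g' → α g' w ≠ 0 → g' = g0) :
    B.sw α (j + 1) g w = B.sw α j g w + tm B α g w g0 := by
  have e0 : tm B α g w g0 = ∑ᶠ g', if g' = g0 then tm B α g w g0 else 0 :=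
    by rw [finsum_eq_single _ g0 fun g' hg => if_neg hg, if_pos rfl]
  rw [e0, sw_eq, sw_eq, ← finsum_add_distrib ((Finset.finite_toSet _).subset (sw_supp hP j hw))
    ((finite_singleton g0).subset fun g' hg => by
      by_contra hn
      exact hg (if_neg hn))]
  refine finsum_congr fun g' => ?_
  by_cases e : g' = g0
  · subst e
    simp [h0, h1]
  · rw [if_neg e, add_zero]
    by_cases e1 : col g' = j
    · by_cases e' : B.psh g'
      · have : α g' w = 0 := by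
          by_contra hn
          exact e (h g' e1 e' hn)
        simp [tm_zero this]
      · simp [e']
    · simp only [show col g' < j + 1 ↔ col g' < j by omega]

lemma sqrt_p (hN : Big B.N) (hG : B.G) {g g' : Cu} (n : Nbr 3 g g') :
    √(B.c g' 0).p ≤ 1001 / 1000 * √(B.c g 0).p := by
  have h := Bk.cpk hG.toFrOk hN n (Nat.zero_le _) (Nat.zero_le _)
  have h1 := (h.ratios Pm.p (by simp)).2.1
  have h2 := h.q_inv.2
  have h3 := h.g.p_pos
  refine Real.sqrt_le_iff.2 ⟨by positivity, ?_⟩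
  rw [mul_pow, Real.sq_sqrt h3.le]
  nlinarith

lemma sw_bd (hN : Big B.N) (hG : B.G) (hP : B.PA C α) (j : ℕ) {g : Cu} {w : V}
    (hw : w ∈ B.K g (6 / 5)) : |√(B.c g 0).η * B.sw α j g w| ≤
      284 / 100 * √((B.c g 0).η * (B.c g 0).p) := by
  have h1 : |B.sw α j g w| ≤ 1001 / 1000 * √(B.c g 0).p * ∑ g' ∈ nbrs g 2, α g' w := by
    rw [sw_eq, finsum_eq_sum_of_support_subset _ (sw_supp hP j hw), Finset.mul_sum]
    refine (Finset.abs_sum_le_sum_abs _ _).trans (Finset.sum_le_sum fun g' _ => ?_)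
    have a0 := (hP.rg g' w).1
    split_ifs
    · by_cases e : α g' w = 0
      · rw [tm_zero e, e]; simp
      · rw [tm, abs_mul, tau_abs, one_mul, abs_mul, abs_mul, abs_of_nonneg a0,
          abs_of_nonneg (Real.sqrt_nonneg _)]
        exact mul_le_mul (sqrt_p hN hG ((hP.fin g w hw g' e).2.mono (by norm_num)))
          (mul_le_of_le_one_right a0 (Real.abs_cos_le_one _)) (by positivity) (by positivity)
    · rw [abs_zero]; positivity
  have h2 : ∑ g' ∈ nbrs g 2, α g' w ≤ 283 / 100 :=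
    le_of_sq_le_sq (((hP.l1 w _).1).trans (by norm_num)) (by norm_num)
  rw [abs_mul, abs_of_nonneg (Real.sqrt_nonneg _), Real.sqrt_mul (Bk.gd0 hG.toFrOk hN g).η_pos.le]
  have h3 := mul_le_mul_of_nonneg_left h2 (Real.sqrt_nonneg (B.c g 0).p)
  have h4 : |B.sw α j g w| ≤ 284 / 100 * √(B.c g 0).p := by
    nlinarith [Real.sqrt_nonneg (B.c g 0).p]
  nlinarith [mul_le_mul_of_nonneg_left h4 (Real.sqrt_nonneg (B.c g 0).η)]

lemma sw_bd' (hN : Big B.N) (hG : B.G) (hP : B.PA C α) (j : ℕ) {g : Cu} {w : V}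
    (hw : w ∈ B.K g (6 / 5)) : |√(B.c g 0).η * B.sw α j g w| ≤ 3 * √(pJ B.N / B.N) := by
  have h1 := sw_bd hN hG hP j hw
  have h2 : √((B.c g 0).η * (B.c g 0).p) ≤ √(pJ B.N / B.N) := (Bk.gd0 hG.toFrOk hN g).sηp_le
  linarith [Real.sqrt_nonneg (pJ B.N / B.N)]

/-- the numbers in `Bk.LI` -/
lemma li_num {N : ℕ} (h : Big N) {j : ℕ} (hj : j ≤ 8) :
    (j : ℝ) * (m0 N + np N (-1)) ≤ 25 / 3 * m0 N ∧ 4 ^ j * np N (-14) ≤ np N (-5) / 10 ∧
    1 ≤ ((10 : ℝ) ^ 6 * N) ^ j ∧ ((10 : ℝ) ^ 6 * N) ^ j ≤ np N 10 ∧ (3 * j : ℝ) ≤ 24 ∧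
    np N (-5) ≤ 1 / 1000 ∧ m0 N ≤ 1 / 10 ^ 5 := by
  obtain ⟨a1, a2, a3, a4, a5, a6, -, -⟩ := n1 h
  have hj' : (j : ℝ) ≤ 8 := by exact_mod_cast hj
  have := m0_pos h; have := h.np_pos (-1); have := h.np_pos (-14)
  have b1 : (4 : ℝ) ^ j ≤ 4 ^ 8 := pow_le_pow_right₀ (by norm_num) hj
  have b2 : (1 : ℝ) ≤ 10 ^ 6 * N := by linarith [Bl.N_ge h]
  refine ⟨by nlinarith, by nlinarith, one_le_pow₀ b2, (pow_le_pow_right₀ b2 hj).trans a6,
    by linarith, by linarith, by linarith⟩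

end Fl

end
end Pool.Agent.MP_20bec2_an.T3

end MrgPart0

-- ======== part 1: formerly Pool.Agent.MP_20bec2_an.T3.Fl4
section MrgPart1

/-! The end of the long slide. -/

set_option autoImplicit false
open MeasureTheory Set Filter Matrix Topology

namespace Pool.Agent.MP_20bec2_an.T3
noncomputable section
open Classical

namespace Fl
variable {B : Bk}

lemma gam_k (g : Cu) (k : ℕ) : (B.c g k).gam = (B.c g 0).gam := rfl
lemma eta_k (g : Cu) (k : ℕ) : (B.c g k).η = (B.c g 0).η := rfl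
lemma p_k (g : Cu) (k : ℕ) : (B.c g k).p = (B.c g 0).p := rfl

lemma big4 (hN : Big B.N) (hG : B.G) {g : Cu} (h : B.psh g) : 4 * (B.fr g).s1 < (B.fr g).s2 := by
  have h1 : 5 * (B.fr g).s1 ≤ (B.fr g).s2 := Sgn.big_of_psh hG hN h
  have h2 : 0 < (B.fr g).s1 := (gdm hN hG g).s1_pos
  linarith

lemma jac_near (hN : Big B.N) (hG : B.G) {f : V → V} (hF : B.FH f) {g : Cu} {z : V} {r : ℝ}
    (hr : r ≤ 98 / 100) (hz : z ∈ B.R g r) : |jac ((B.fr g).fh f) z - 1| ≤ 1 / 10 := by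
  rw [Bl.jac_fh _ hF.1.1]
  exact ((hF.2.1 g).1 z (Bl.R_mono hN hG hr hz)).trans (by norm_num [eps0])

lemma sqrt_ep (hN : Big B.N) (hG : B.G) {g g' : Cu} (n : Nbr 3 g g') :
    √((B.c g' 0).η * (B.c g' 0).p) ≤ 1001 / 1000 * √((B.c g 0).η * (B.c g 0).p) := by
  have h := Bk.cpk hG.toFrOk hN n (Nat.zero_le _) (Nat.zero_le _)
  have h1 := (h.ratio h.g.sηp_pos h.g'.sηp_pos
    (h.cl_sηp.trans (by linarith [h.cpe_nonneg]))).2.1
  have h2 := h.q_inv.2
  have h3 := h.g.sηp_pos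
  nlinarith

lemma lrel_refl {c : Pm} (h : Gd c) {f f' : V → V} {z : V} (e : f' =ᶠ[𝓝 z] f) :
    LRel c f f' z z 0 := by
  have := h.big.np_pos (-39 / 100); have := h.big.np_pos (21 / 10); have := h.lam_pos
  have := h.ηp_pos; have := h.big.X_pos; have := h.big.qp_pos (18 / 5); have := h.N_pos
  have := h.big.np_pos (-1 / 20); have := h.big.J_pos
  have h1 : 1 ≤ np c.N 10 := by rw [← np_zero c.N]; exact h.big.np_le (by norm_num)
  refine ⟨e.eq_of_nhds, fun i _ => ?_, ?_, fun a b => ?_, fun d d0 H a b i => ?_⟩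
  · have := h.hs_pos i
    rw [sub_self, abs_zero]; positivity
  · rw [sub_self, abs_zero]; positivity
  · rw [c.gam_congr e, sub_self, mul_zero, zero_smul, sub_self, Matrix.zero_apply, abs_zero]
    fin_cases a <;> fin_cases b <;> simp [Pm.LA] <;> positivity
  · refine (H.congr e a b i).trans (mul_le_mul_of_nonneg_right (by nlinarith) ?_)
    exact bm_nonneg (by positivity) (by positivity) (by positivity) a b

lemma n4 {c : Pm} (h : Gd c) : np c.N (-15) ≤ √(c.η * c.p) / 10 ^ 7 ∧ np c.N (-15) ≤ 1 / c.J ∧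
    np c.N (-15) ≤ 1 := by
  obtain ⟨a1, -, -, a2, -⟩ := Le.small h
  have a3 : np c.N (-15) ≤ np c.N (-5) := h.big.np_le (by norm_num)
  have a4 := Real.mul_self_sqrt h.ηp_pos.le
  have a5 := h.sηp_pos
  have := h.J_pos
  refine ⟨by nlinarith, le_of_log (h.big.np_pos _) (by positivity) ?_, by nlinarith⟩
  rw [h.big.log_np, Real.log_div one_ne_zero this.ne', Real.log_one, h.log_J]
  linarith [h.big.J_ge, h.big.L_ge]

lemma abs_ss (F F' : Fr) (a b : Fin 3) (x : ℝ) : |F.σ F' a * F.σ F' b * x| = |x| := by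
  unfold Fr.σ
  rw [abs_mul, abs_mul, sg_abs, sg_abs, one_mul, one_mul]

end Fl

open Fl in
theorem fl4 : Fl4Stmt := by
  filter_upwards [ltr, ev_big] with N hT hN
  rintro B rfl C α f f1 Af hG hP hF hA h1
  have G := hG.toFrOk
  refine ⟨fun g hg z hz => ?_, fun g hg z' hz' => ?_⟩
  · refine (h1.off _ fun g' p' hk => hg ⟨g', ?_, p'⟩).eq_of_nhds
    exact nbr_K hN hG (by norm_num) (by norm_num) (by norm_num) (by norm_num) (K_zp hG hz) hk
  have gd := gdm hN hG g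
  have hw : (B.fr g).zp z' ∈ B.K g (6 / 5) := K_zp hG (Bl.R_mono hN hG (by norm_num) hz')
  obtain ⟨p, hp, e⟩ : ∃ p, B.nw g f f1 z' = (B.fr g).zc p ∧ f1 p = f ((B.fr g).zp z') :=
    ⟨_, rfl, Function.invFun_eq (h1.dif.2.1.2 _)⟩
  rw [hp, hA g _ hw]
  rcases Gst.cases (fun g' => B.K g' (87 / 100)) B.psh ((B.fr g).zp z') with ⟨g', p', hk⟩ | hk
  · have R := h1.rel g _ p e (Or.inl (K_zp hG (Bl.R_mono hN hG (by norm_num) hz')))
    rw [zc_zp hG] at R
    have n : Nbr 3 g g' := (nbr_K hN hG (by norm_num) (by norm_num) (by norm_num) (by norm_num)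
      hw hk).mono (by norm_num)
    have gd' := gdm hN hG g'
    obtain ⟨b1, b2, b3⟩ := (hF.2.2 g' (psh_deep hN hG p')).1 _
      (Bl.R_mono hN hG (by norm_num) (mem_K.1 hk))
    have b4 := (b1.gw zero_le_one).eb gd' (by norm_num)
    have t : ∀ a b, |(B.c g (mid B.N)).gam ((B.fr g).fh f) ((B.fr g).zc ((B.fr g).zp z')) a b -
        (B.fr g).σ (B.fr g') a * (B.fr g).σ (B.fr g') b * (B.c g' (mid B.N)).gam ((B.fr g').fh f)
          ((B.fr g').zc ((B.fr g).zp z')) a b| ≤ np B.N (-15) :=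
      (hT (B.fr g) (B.fr g') B.lb (mid B.N) (GeoP.orth G g) (GeoP.orth G g') (GeoP.det_pos G g)
        (GeoP.det_pos G g') (G.cp g g' n) gd.ok gd'.ok (big4 hN hG p')).1 f _ hF.1.1
        (jac_near hN hG hF (by norm_num) (mem_K.1 hk)) (GeoP.eb_mono b4 (by norm_num))
    rw [zc_zp hG] at t
    have t' : ∀ a b, |(B.c g (mid B.N)).gam ((B.fr g).fh f) z' a b| ≤
        |(B.c g' (mid B.N)).gam ((B.fr g').fh f) ((B.fr g').zc ((B.fr g).zp z')) a b| +
          np B.N (-15) := fun a b => by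
      have := abs_sub_abs_le_abs_sub ((B.c g (mid B.N)).gam ((B.fr g).fh f) z' a b)
        ((B.fr g).σ (B.fr g') a * (B.fr g).σ (B.fr g') b * (B.c g' (mid B.N)).gam
          ((B.fr g').fh f) ((B.fr g').zc ((B.fr g).zp z')) a b)
      rw [abs_ss] at this
      linarith [t a b]
    obtain ⟨m1, m2, -, m4, m5, -⟩ := li_num hN (le_refl 8)
    obtain ⟨k1, k2, k3⟩ : np B.N (-15) ≤ √((B.c g 0).η * (B.c g 0).p) / 10 ^ 7 ∧
      np B.N (-15) ≤ 1 / pJ B.N ∧ np B.N (-15) ≤ 1 := n4 gd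
    refine Le.lrel gd R (m2.trans (by linarith [hN.np_pos (-5)] : _ ≤ np B.N (-5))) ?_
      (sw_bd hN hG hP 8 hw) (m1.trans (le_of_eq ?_)) m4 (m5.trans (n1 hN).2.2.2.2.2.2.1)
      (fun a b => ?_) (fun i hi => ?_) ?_
    · rw [mul_pow, Real.sq_sqrt (Bk.gd0 G hN g).η_pos.le, eta_k g (mid B.N)]
    · change 25 / 3 * (3 * √(pX B.N / B.N) / pq B.N ^ 5) = 25 * √(pX B.N / B.N) / pq B.N ^ 5
      ring
    · have : _ ≤ (2 : ℝ) := b4 a b
      change _ ≤ (10 : ℝ)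
      linarith [t' a b]
    · have h2 := b2 i hi
      have h3 := sqrt_ep hN hG n
      have h4 := t' i 2
      rw [gam_k g' (mid B.N)] at h4
      rw [eta_k g (mid B.N), p_k g (mid B.N)]
      linarith [Real.sqrt_nonneg ((B.c g 0).η * (B.c g 0).p)]
    · have h4 := t 2 2
      rw [gam_k g' (mid B.N), ← sq, Fr.σ, Sgn.sg_sq, one_mul] at h4
      have := abs_sub_le ((B.c g (mid B.N)).gam ((B.fr g).fh f) z' 2 2) ((B.c g' 0).gam
        ((B.fr g').fh f) ((B.fr g').zc ((B.fr g).zp z')) 2 2) 1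
      have e3 : 3 / pJ B.N = 2 / pJ B.N + 1 / pJ B.N := by ring
      change _ ≤ 3 / pJ B.N
      linarith
  · have ev := h1.off _ hk
    obtain rfl : p = (B.fr g).zp z' := h1.dif.2.1.1 (e.trans ev.eq_of_nhds.symm)
    have ev' := Gst.fh_germ' (GeoP.det_ne G g) ev
    rw [zc_zp hG] at ev' ⊢
    rw [sw_zero fun g' p' => by
      by_contra hn
      exact hk g' p' (K_mono hN hG (by norm_num) (hP.sup g' _ hn)), zero_pow two_ne_zero]
    exact lrel_refl gd ev'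

end
end Pool.Agent.MP_20bec2_an.T3

end MrgPart1

-- ======== part 2: formerly Pool.Agent.MP_20bec2_an.T3.Fl2
section MrgPart2

/-! One colour of the long slide. -/

set_option autoImplicit false
open MeasureTheory Set Filter Matrix Topology

namespace Pool.Agent.MP_20bec2_an.T3
noncomputable section
open Classical

namespace Fl
variable {B : Bk} {C : ℝ} {α : Cu → V → ℝ} {f f1 : V → V} {j : ℕ}

lemma li_R (hN : Big B.N) (hG : B.G) (h1 : B.LI α f j f1) (hj : j ≤ 8) {g : Cu} {p' p : V}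
    (e : f1 p = f p') (h : p' ∈ B.K g (11 / 10 - j / 1000) ∨ p ∈ B.K g (11 / 10 - j / 1000))
    {r : ℝ} : (p' ∈ B.K g r → p ∈ B.K g (r + 1 / 10 ^ 6)) ∧
      (p ∈ B.K g r → p' ∈ B.K g (r + 1 / 10 ^ 6)) := by
  obtain ⟨-, m2, -, -, m5, m6, -⟩ := li_num hN hj
  have := le_R hN hG (h1.rel g p' p e h) (by linarith) (by linarith) (r := r)
  exact ⟨fun a => mem_K.2 (this.1 (mem_K.1 a)), fun a => mem_K.2 (this.2 (mem_K.1 a))⟩

lemma jac_f1 (hF : B.FH f) (h1 : B.LI α f j f1) (g : Cu) :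
    jac ((B.fr g).fh f1) = jac ((B.fr g).fh f) := by
  rw [Bl.jac_fh _ hF.1.1, Bl.jac_fh _ h1.dif.1, show jac f1 = jac f from funext h1.jc]

lemma rad (hj : j ≤ 8) : (109 / 100 : ℝ) ≤ 11 / 10 - j / 1000 ∧ (11 / 10 : ℝ) - j / 1000 ≤ 11 / 10 := by
  have h1 : (j : ℝ) ≤ 8 := by exact_mod_cast hj
  have h2 : (0 : ℝ) ≤ j := Nat.cast_nonneg j
  constructor <;> linarith

lemma gw2 (hN : Big B.N) (hG : B.G) (hP : B.PA C α) (hF : B.FH f) (h1 : B.LI α f j f1)
    (hj : j ≤ 8) {g : Cu} (d : B.deep g) {z : V} (hz : z ∈ B.R g (87 / 100)) :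
    (B.c g (mid B.N)).GW ((B.fr g).fh f1) z 2 := by
  obtain ⟨p', e⟩ := hF.1.2.1.2 (f1 ((B.fr g).zp z))
  have hk : (B.fr g).zp z ∈ B.K g (11 / 10 - j / 1000) :=
    K_zp hG (Bl.R_mono hN hG (by linarith [(rad hj).1]) hz)
  have k' := (li_R hN hG h1 hj e.symm (Or.inr hk)).2 (K_zp hG hz)
  have R := h1.rel g p' _ e.symm (Or.inr hk)
  rw [zc_zp hG] at R
  obtain ⟨m1, m2, -⟩ := li_num hN hj
  have a1 := (n1 hN).1
  have := Le.gw_step (gdm hN hG g) R (m2.trans (by linarith [hN.np_pos (-5)] : _ ≤ np B.N (-5)))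
    (sw_bd' hN hG hP j (K_mono hN hG (by norm_num) k'))
    (m1.trans (by linarith [m0_pos hN] : _ ≤ √(pJ B.N / B.N))) zero_le_one one_le_two
    (((hF.2.2 g d).1 _ (Bl.R_mono hN hG (by norm_num) (mem_K.1 k'))).1.gw zero_le_one)
  rwa [one_add_one_eq_two] at this

/-- the output of one cube -/
def Out (B : Bk) (α : Cu → V → ℝ) (f1 : V → V) (g : Cu) (S : V → V) : Prop :=
  SB' S ∧ (∀ z, z ∉ B.R g (85 / 100) → S z = z) ∧
  (∀ z, jac ((B.fr g).fh f1 ∘ S) z = jac ((B.fr g).fh f1) z) ∧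
  ∀ z ∈ B.R g (87 / 100), LE (B.c g (mid B.N)) ((B.fr g).fh f1) ((B.fr g).fh f1 ∘ S) (S z) z
    (√((B.c g 0).η * (B.c g 0).p) * (α g ((B.fr g).zp z) * Real.cos (z 0 / B.lj g)))
    (m0 B.N + np B.N (-15)) (np B.N (-15)) B.N 1

lemma cube (hN : Big B.N) (hG : B.G) (hP : B.PA C α) (hC : C ≤ pq B.N) (hF : B.FH f)
    (h1 : B.LI α f j f1) (hj : j < 8) {g : Cu} (hg : col g = j) (hp : B.psh g)
    (H : ∀ c : Pm, c.N = B.N → c.Ok → ∀ (O : Mx) (f : V → V) (α : V → ℝ) (j : ℕ) (m : ℝ),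
      c.k = mid c.N → Orth O → Sm f → (∀ z, 0 < jac f z) → j < 8 → Sm α →
      (∀ z, z ∉ RX O c.D (85 / 100) → α z = 0) → (∀ z, |α z| ≤ 1) →
      CB 4 (cv c.D) (RX O c.D 1) α c.q → c.MW (1 / 1000) 1 (jac f) (RX O c.D (9 / 10)) →
      m ≤ Real.sqrt (c.J / c.N) / 2 → c.LI (jac f) (RX O c.D (88 / 100)) m →
      (∀ z ∈ RX O c.D (87 / 100), c.GW f z 2) →
      ∃ S, SB' S ∧ (∀ z, z ∉ RX O c.D (85 / 100) → S z = z) ∧ (∀ z, jac (f ∘ S) z = jac f z) ∧
        ∀ z ∈ RX O c.D (87 / 100), LE c f (f ∘ S) (S z) z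
          (Real.sqrt (c.η * c.p) * (α z * Real.cos (z 0 / (c.lA / (j + 1))))) (m + np c.N (-15))
          (np c.N (-15)) c.N 1) : ∃ S, Out B α f1 g S := by
  subst hg
  have G := hG.toFrOk
  have gd := gdm hN hG g
  have d := psh_deep hN hG hp
  refine H (B.c g (mid B.N)) rfl gd.ok (B.fr g).O ((B.fr g).fh f1)
    (fun z => α g ((B.fr g).zp z)) (col g) (m0 B.N) rfl (GeoP.orth G g)
    (GluZ.fh_sm _ h1.dif.1) (Gst.jac_fh_pos (GeoP.det_pos G g) h1.dif) hj
    ((hP.sm g).comp (Prof.zp_sm _)) (fun z hz => ?_) (fun z => ?_) ?_ ?_ ?_ ?_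
    fun z hz => gw2 hN hG hP hF h1 hj.le d hz
  · by_contra hn
    have := mem_K.1 (hP.sup g _ hn)
    rw [zc_zp hG] at this
    exact hz this
  · rw [abs_of_nonneg (hP.rg g _).1]
    exact (hP.rg g _).2
  · exact CBl.monoB (CBl.monoU (hP.cb g g) fun z hz => Bl.R_mono hN hG (by norm_num) hz) hC
  · rw [jac_f1 hF h1, Bl.jac_fh _ hF.1.1]
    exact ((hF.2.1 g).mw gd zero_le_one).mono gd (by norm_num [eps0]) le_rfl
      fun z hz => Bl.R_mono hN hG (by norm_num) hz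
  · have := (n1 hN).1
    have := m0_pos hN
    change _ ≤ √(pJ B.N / B.N) / 2
    linarith
  · intro z hz τ hτ i hi
    rw [jac_f1 hF h1]
    refine (hF.2.2 g d).2 z (Bl.R_mono hN hG (by norm_num) hz) τ (hτ.trans ?_) i hi
    have : 0 ≤ (B.N : ℝ) ^ 2 * (B.c g (mid B.N)).lam := mul_nonneg (sq_nonneg _) gd.lam_pos.le
    change (B.N : ℝ) ^ 2 * (B.c g (mid B.N)).lam ≤ _
    linarith

lemma lam_lA {c : Pm} (h : Gd c) : c.lam ≤ c.lA := by
  have h1 : 1 ≤ c.q ^ 3 := one_le_pow₀ (by linarith [show _ ≤ c.q from h.big.q_ge])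
  have h2 : 1 ≤ √c.J := Real.one_le_sqrt.2 (by
    linarith [show _ ≤ c.J from h.big.J_ge, h.big.L_ge])
  exact h.lam_le_l1.trans (le_mul_of_one_le_left h.l1_pos.le (one_le_mul_of_one_le_of_one_le h1 h2))

lemma n5 {N : ℕ} (h : Big N) : 24 * pJ N * dc N ≤ np N (-5) ∧ np N (-19) ≤ np N (-5) / 10 ∧
    np N (-15) ≤ np N (-5) / 10 := by
  have := h.J_pos; have := h.dc_pos; have := h.np_pos (-5); have := h.np_pos (-19)
  have := h.np_pos (-15)
  refine ⟨?_, ?_, ?_⟩ <;> refine le_of_log (by positivity) (by positivity) ?_ <;>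
    simp (disch := positivity) only [Real.log_div, Real.log_mul, h.log_J, h.log_dc, h.log_np] <;>
    linarith [h.L_ge, h.J_ge, (logc_bd (show (1 : ℝ) ≤ 24 by norm_num)),
      (logc_bd (show (1 : ℝ) ≤ 10 by norm_num))]

/-- the shear at the old and at the new point -/
lemma udiff (hN : Big B.N) (hG : B.G) (hP : B.PA C α) (hC : C ≤ pq B.N) {g g0 : Cu}
    (n : Nbr 3 g0 g) {p' p : V} (h' : p' ∈ B.K g0 (6 / 5)) (h : p ∈ B.K g0 (6 / 5))
    (d : ‖(B.fr g0).zc p' - (B.fr g0).zc p‖ ≤ 2 * (B.N : ℝ) ^ 3 * (B.c g0 (mid B.N)).lam)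
    (d0 : |(B.fr g0).zc p' 0 - (B.fr g0).zc p 0| ≤ np B.N (-5) / 5 * (B.c g0 (mid B.N)).lam) :
    |√(B.c g 0).η * tm B α g p' g0 - B.tau g g0 * (√((B.c g0 0).η * (B.c g0 0).p) *
      (α g0 p * Real.cos (B.phi g0 p)))| ≤ 3 * np B.N (-5) := by
  have c := Bk.cpk hG.toFrOk hN n (Nat.zero_le _) (Nat.zero_le _)
  have gd := gdm hN hG g0
  have e : cpe (dc B.N) (B.c g0 0) (B.c g 0) = 12 * pJ B.N * dc B.N := by
    show 3 * (4 * pJ B.N) * dc B.N + 35 * (((B.N : ℝ) - B.N) / B.N) = _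
    rw [sub_self]; ring
  obtain ⟨k1, k2, -⟩ := n5 hN
  have s1 := OscP.sqrt_cl c.g.η_pos c.g'.η_pos.le c.η_sub
  rw [e] at s1
  have s2 : √((B.c g0 0).η * (B.c g0 0).p) ≤ 1 / 1000 := (Le.small c.g).2.2.2.1
  have s3 := OscP.slow hG hN hC (hP.sm g0) (hP.cb g0 g0) (mem_K.1 h') (mem_K.1 h) d
  rw [zp_zc hG, zp_zc hG] at s3
  have s4 : |B.phi g0 p' - B.phi g0 p| ≤ 8 / 5 * np B.N (-5) := by
    have c8 : (col g0 : ℝ) + 1 ≤ 8 := by exact_mod_cast Prof.col_lt g0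
    have c0 : (0 : ℝ) < col g0 + 1 := by positivity
    have l0 : 0 < B.lj g0 := div_pos gd.lA_pos c0
    have l1 : (B.c g0 (mid B.N)).lam ≤ 8 * B.lj g0 := by
      refine (lam_lA gd).trans ?_
      rw [Bk.lj, mul_div_assoc', le_div_iff₀ c0]
      nlinarith [gd.lA_pos]
    rw [Bk.phi, Bk.phi, ← sub_div, abs_div, abs_of_pos l0, div_le_iff₀ l0]
    nlinarith [hN.np_pos (-5)]
  have s5 := (Real.abs_cos_sub_cos_le (B.phi g0 p') (B.phi g0 p)).trans s4
  have s6 : |α g0 p' * Real.cos (B.phi g0 p') - α g0 p * Real.cos (B.phi g0 p)| ≤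
      2 * np B.N (-5) := by
    have a1 : |(α g0 p' - α g0 p) * Real.cos (B.phi g0 p')| ≤ np B.N (-19) := by
      rw [abs_mul]
      exact (mul_le_of_le_one_right (abs_nonneg _) (Real.abs_cos_le_one _)).trans s3
    have a2 : |α g0 p * (Real.cos (B.phi g0 p') - Real.cos (B.phi g0 p))| ≤
        8 / 5 * np B.N (-5) := by
      rw [abs_mul, abs_of_nonneg (hP.rg g0 p).1]
      exact (mul_le_of_le_one_left (abs_nonneg _) (hP.rg g0 p).2).trans s5
    refine le_trans (le_of_eq ?_) ((abs_add_le _ _).trans ((add_le_add a1 a2).trans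
      (by linarith [hN.np_pos (-5)])))
    congr 1; ring
  have s7 : |α g0 p' * Real.cos (B.phi g0 p')| ≤ 1 := by
    rw [abs_mul, abs_of_nonneg (hP.rg g0 p').1]
    exact mul_le_one₀ (hP.rg g0 p').2 (abs_nonneg _) (Real.abs_cos_le_one _)
  rw [Real.sqrt_mul c.g.η_pos.le] at s2 ⊢
  have e2 : √(B.c g 0).η * tm B α g p' g0 - B.tau g g0 * (√(B.c g0 0).η * √(B.c g0 0).p *
      (α g0 p * Real.cos (B.phi g0 p))) = B.tau g g0 * ((√(B.c g 0).η - √(B.c g0 0).η) *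
        √(B.c g0 0).p * (α g0 p' * Real.cos (B.phi g0 p')) + √(B.c g0 0).η * √(B.c g0 0).p *
        (α g0 p' * Real.cos (B.phi g0 p') - α g0 p * Real.cos (B.phi g0 p))) := by
    rw [tm]; ring
  have p0 := Real.sqrt_nonneg (B.c g0 0).p
  have e0 := Real.sqrt_nonneg (B.c g0 0).η
  have b1 : |(√(B.c g 0).η - √(B.c g0 0).η) * √(B.c g0 0).p *
      (α g0 p' * Real.cos (B.phi g0 p'))| ≤ np B.N (-5) := by
    rw [abs_mul, abs_mul, abs_of_nonneg p0]
    refine (mul_le_of_le_one_right (by positivity) s7).trans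
      ((mul_le_mul_of_nonneg_right s1 p0).trans ?_)
    have := mul_pos hN.J_pos hN.dc_pos
    nlinarith [mul_nonneg e0 p0]
  have b2 : |√(B.c g0 0).η * √(B.c g0 0).p * (α g0 p' * Real.cos (B.phi g0 p') -
      α g0 p * Real.cos (B.phi g0 p))| ≤ 2 * np B.N (-5) := by
    rw [abs_mul, abs_of_nonneg (mul_nonneg e0 p0)]
    exact (mul_le_of_le_one_left (abs_nonneg _) (by linarith)).trans s6
  rw [e2, abs_mul, tau_abs, one_mul]
  linarith [abs_add_le ((√(B.c g 0).η - √(B.c g0 0).η) * √(B.c g0 0).p *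
    (α g0 p' * Real.cos (B.phi g0 p'))) (√(B.c g0 0).η * √(B.c g0 0).p *
      (α g0 p' * Real.cos (B.phi g0 p') - α g0 p * Real.cos (B.phi g0 p)))]

lemma fs (hN : Big B.N) (hG : B.G) (hF : B.FH f) {g : Cu} {f1 f2 : V → V} {z' z : V}
    (e1 : jac ((B.fr g).fh f1) = jac ((B.fr g).fh f))
    (e2 : jac ((B.fr g).fh f2) = jac ((B.fr g).fh f)) (hz' : z' ∈ B.R g (87 / 100))
    (hz : z ∈ B.R g (87 / 100)) (H : (B.c g (mid B.N)).GW ((B.fr g).fh f1) z' 2) :
    (B.c g (mid B.N)).FS ((B.fr g).fh f1) ((B.fr g).fh f2) z' z := by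
  have gd := gdm hN hG g
  have cb : ∀ w ∈ B.R g (87 / 100), CB 1 (B.c g (mid B.N)).hs {w} (jac ((B.fr g).fh f))
      (100 * (B.c g (mid B.N)).q) := fun w hw => by
    rw [Bl.jac_fh _ hF.1.1]
    exact CBl.monoB (CBl.monoU (CB.of_le (hF.2.1 g).2.1 one_le_two)
      (singleton_subset_iff.2 (Bl.R_mono hN hG (by norm_num) hw))) (by linarith [gd.q_pos])
  refine ⟨?_, ?_, ?_, ?_, H.eb10 gd (by norm_num)⟩
  · rw [e1]; exact jac_near hN hG hF (by norm_num) hz'
  · rw [e2]; exact jac_near hN hG hF (by norm_num) hz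
  · rw [e1]; exact cb _ hz'
  · rw [e2]; exact cb _ hz

end Fl

open Fl in
theorem fl2 (hF1 : Fl1Stmt) : Fl2Stmt := by
  filter_upwards [hF1, le_, ltr, gst, ev_big] with N hF1 hL hT hS hN
  rintro B rfl C α f f1 j hG hP hC hF hj h1
  have G := hG.toFrOk
  have hj8 : j + 1 ≤ 8 := hj
  have ex : ∀ g, ∃ S, col g = j ∧ B.psh g → Out B α f1 g S := fun g => by
    by_cases h : col g = j ∧ B.psh g
    · obtain ⟨S, hS⟩ := cube hN hG hP hC hF h1 hj h.1 h.2 hF1
      exact ⟨S, fun _ => hS⟩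
    · exact ⟨id, fun h' => absurd h' h⟩
  choose S hS' using ex
  obtain ⟨T, gt, df, jc⟩ := ((hS B rfl hG).2 j (fun g => col g = j ∧ B.psh g) (87 / 100)
    (by norm_num) (by norm_num) fun g h => h.1).2 S (fun _ _ => 0) f1 h1.dif fun g h =>
      ⟨(hS' g h).1, sm_const _, fun z hz => ⟨(hS' g h).2.1 z fun h' =>
        hz (Bl.R_mono hN hG (by norm_num) h'), rfl⟩, fun z => ⟨by
          rw [(hS' g h).2.2.1, dv_const, add_zero], by
          rw [(hS' g h).2.2.1]; exact Gst.jac_fh_pos (GeoP.det_pos G g) h1.dif z⟩⟩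
  have jc' : ∀ w, jac (f1 ∘ T) w = jac f w := fun w => by
    rw [jc, h1.jc]
    simp [Fr.unvd, dv_const]
  have e2 : ∀ g, jac ((B.fr g).fh (f1 ∘ T)) = jac ((B.fr g).fh f) := fun g => by
    rw [Bl.jac_fh _ hF.1.1, Bl.jac_fh _ df.1, show jac (f1 ∘ T) = jac f from funext jc']
  refine ⟨f1 ∘ T, df, jc', fun w hw => (comp_ev_id (gt.off w fun g h => hw g h.2)).trans
    (h1.off w hw), fun g p' p e hk => ?_⟩
  have l := hL (B.c g (mid B.N)) rfl (gdm hN hG g).ok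
  obtain ⟨m1, m2, m3, -, -, m6, m7⟩ := li_num hN hj.le
  obtain ⟨r1, r2⟩ := rad hj8
  have a0 := m0_pos hN
  have a1 := hN.np_pos (-1)
  have a14 := hN.np_pos (-14)
  have a5 := hN.np_pos (-5)
  have a15 := hN.np_pos (-15)
  have N1 : (1 : ℝ) ≤ B.N := by linarith [Bl.N_ge hN]
  have rj : (11 / 10 : ℝ) - ((j + 1 : ℕ) : ℝ) / 1000 + 1 / 10 ^ 6 ≤ 11 / 10 - j / 1000 := by
    push_cast; linarith
  have rj' : (11 / 10 : ℝ) - ((j + 1 : ℕ) : ℝ) / 1000 ≤ 11 / 10 - j / 1000 := by linarith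
  have p4 : (1 : ℝ) ≤ 4 ^ j := one_le_pow₀ (by norm_num)
  rcases Gst.cases (fun g' => B.K g' (87 / 100)) (fun g => col g = j ∧ B.psh g) p with
    ⟨g0, h0, k0⟩ | k0
  · obtain ⟨kT, ev⟩ := gt.act g0 h0 p k0
    have ev' := Gst.fh_germ (GeoP.det_ne G g0) f1 ev
    have eT : S g0 ((B.fr g0).zc p) = (B.fr g0).zc (T p) := by rw [ev.eq_of_nhds, zc_zp hG]
    have gd0 := gdm hN hG g0
    have d0 := psh_deep hN hG h0.2
    have R0 := (hL (B.c g0 (mid B.N)) rfl gd0.ok).2.1 _ _ _ _ _ _ _ _ _ _ _ _ _ _ _ ev'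
      (by rw [sub_self, abs_zero, add_zero]) le_rfl le_rfl le_rfl
      ((hS' g0 h0).2.2.2 _ (mem_K.1 k0))
    rw [eT, zp_zc hG] at R0
    have kT' : T p ∈ B.K g0 (11 / 10 - j / 1000) := K_mono hN hG (by linarith [(rad hj.le).1]) kT
    have R1 := h1.rel g0 p' (T p) e (Or.inr kT')
    have k' := (li_R hN hG h1 hj.le (p := T p) e (Or.inr kT')).2 kT
    have n : Nbr 2 g g0 := hk.elim
      (fun a => nbr_K hN hG (by linarith) (by norm_num) (by linarith) (by norm_num) a k')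
      fun a => nbr_K hN hG (by linarith) (by norm_num) (by linarith) (by norm_num) a k0
    have n3 : Nbr 3 g g0 := n.mono (by norm_num)
    have s2 : √((B.c g0 0).η * (B.c g0 0).p) ≤ 1 / 1000 := (Le.small gd0).2.2.2.1
    obtain ⟨-, -, k3⟩ := n5 hN
    have R2 := (hT (B.fr g) (B.fr g0) B.lb (mid B.N) (GeoP.orth G g) (GeoP.orth G g0)
      (GeoP.det_pos G g) (GeoP.det_pos G g0) (G.cp g g0 n3) (gdm hN hG g).ok gd0.ok
      (big4 hN hG h0.2)).2 f1 (f1 ∘ T) (T p) p _ _ _ _ _ h1.dif.1 df.1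
      (fs hN hG hF (jac_f1 hF h1 g0) (e2 g0) (mem_K.1 kT) (mem_K.1 k0)
        (gw2 hN hG hP hF h1 hj.le d0 (mem_K.1 kT))) (by
          rw [abs_mul, abs_mul, abs_of_nonneg (Real.sqrt_nonneg _), abs_of_nonneg (hP.rg g0 p).1]
          exact (mul_le_of_le_one_right (Real.sqrt_nonneg _) (mul_le_one₀ (hP.rg g0 p).2
            (abs_nonneg _) (Real.abs_cos_le_one _))).trans (by linarith))
      (by linarith) (by linarith) N1 N1 R0
    have R2' : LE (B.c g (mid B.N)) ((B.fr g).fh f1) ((B.fr g).fh (f1 ∘ T)) ((B.fr g).zc (T p))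
      ((B.fr g).zc p) (B.tau g g0 * (√((B.c g0 0).η * (B.c g0 0).p) *
        (α g0 p * Real.cos (B.phi g0 p)))) (m0 B.N + np B.N (-15) + np B.N (-15))
        (2 * np B.N (-15) + np B.N (-15)) (10 ^ 5 * B.N) (2 * 1 + np B.N (-15)) := R2
    have hk1 : p' ∈ B.K g (11 / 10 - j / 1000) ∨ T p ∈ B.K g (11 / 10 - j / 1000) :=
      hk.imp (K_mono hN hG rj') fun a => K_mono hN hG rj
        (mem_K.2 ((le_R hN hG R2' (by linarith) (by linarith)).2 (mem_K.1 a)))
    have kp : p' ∈ B.K g (6 / 5) := hk1.elim (K_mono hN hG (by linarith [(rad hj.le).2])) fun a =>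
      K_mono hN hG (by linarith [(rad hj.le).2]) ((li_R hN hG h1 hj.le (p := T p) e hk1).2 a)
    have R3 := h1.rel g p' (T p) e hk1
    obtain ⟨b1, b2, b3, b4, b5, -, -, b8⟩ := n1 hN
    have R4 := l.2.2.1 _ _ _ _ _ _ _ _ _ _ _ _ _ _ _ _
      ((sw_bd' hN hG hP j kp).trans (by linarith)) (m1.trans (by linarith)) (m2.trans (by linarith))
      m3 (by
        rw [abs_mul, tau_abs, one_mul, abs_mul, abs_mul, abs_of_nonneg (Real.sqrt_nonneg _),
          abs_of_nonneg (hP.rg g0 p).1]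
        exact (mul_le_of_le_one_right (Real.sqrt_nonneg _) (mul_le_one₀ (hP.rg g0 p).2
          (abs_nonneg _) (Real.abs_cos_le_one _))).trans (by linarith))
      (by linarith) (by linarith) (by linarith) R3 R2'
    have ud := udiff hN hG hP hC n3.symm (K_mono hN hG (by norm_num) k')
      (K_mono hN hG (by norm_num) k0) (p := p) (by
        have c1 : ‖(B.fr g0).zc (T p) - (B.fr g0).zc p'‖ ≤
          (B.N : ℝ) ^ 3 * (B.c g0 (mid B.N)).lam := le_norm gd0 R1 (by linarith)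
            (by linarith [(li_num hN hj.le).2.2.2.2.1])
        have c2 : ‖(B.fr g0).zc p - (B.fr g0).zc (T p)‖ ≤
          (B.N : ℝ) ^ 3 * (B.c g0 (mid B.N)).lam := le_norm gd0 R0 (by linarith) (by norm_num)
        have := norm_sub_le_norm_sub_add_norm_sub ((B.fr g0).zc p) ((B.fr g0).zc (T p))
          ((B.fr g0).zc p')
        rw [norm_sub_rev]
        linarith) (by
        have c1 := R1.dl 0 (by decide)
        have c2 := R0.dl 0 (by decide)
        have := abs_sub_le ((B.fr g0).zc p 0) ((B.fr g0).zc (T p) 0) ((B.fr g0).zc p' 0)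
        rw [abs_sub_comm]
        nlinarith [gd0.lam_pos])
    refine l.2.1 _ _ _ _ _ _ _ _ _ _ _ _ _ _ _ EventuallyEq.rfl ?_ ?_ ?_ ?_ R4
    · rw [sw_step hP kp h0.1 h0.2 fun g' c' q' a' => Gst.K_unique hG (Bl.one_le hN)
        (r := 9 / 10) (by norm_num) (c'.trans h0.1.symm)
        (K_mono hN hG (by norm_num) (hP.sup g' _ a')) (K_mono hN hG (by norm_num) k'),
        mul_add √(B.c g 0).η, add_sub_add_left_eq_sub]
      change _ ≤ ((j + 1 : ℕ) : ℝ) * (m0 B.N + np B.N (-1))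
      push_cast
      linarith
    · rw [pow_succ]
      nlinarith
    · rw [pow_succ _ j]
      nlinarith [mul_pos (zero_lt_one.trans_le m3) hN.N_pos]
    · push_cast
      linarith
  · have ev := gt.off p k0
    have ev' := Gst.fh_germ' (GeoP.det_ne G g) (comp_ev_id (f := f1) ev)
    have e' : f1 p = f p' := (comp_ev_id (f := f1) ev).eq_of_nhds.symm.trans e
    refine l.2.1 _ _ _ _ _ _ _ _ _ _ _ _ _ _ _ ev' ?_ ?_ ?_ ?_
      (h1.rel g p' p e' (hk.imp (K_mono hN hG rj') (K_mono hN hG rj')))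
    · rw [sw_same fun g' c' q' => by
        by_contra hn
        have a := hP.sup g' _ hn
        exact k0 g' ⟨c', q'⟩ (K_mono hN hG (by norm_num) ((li_R hN hG h1 hj.le e'
          (Or.inl (K_mono hN hG (by linarith [(rad hj.le).1]) a))).1 a)), sub_self, abs_zero]
      change j * (m0 B.N + np B.N (-1)) + 0 ≤ ((j + 1 : ℕ) : ℝ) * (m0 B.N + np B.N (-1))
      push_cast
      linarith
    · rw [pow_succ]
      nlinarith
    · rw [pow_succ _ j]
      exact le_mul_of_one_le_right (by linarith) (by linarith)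
    · push_cast
      linarith

end
end Pool.Agent.MP_20bec2_an.T3

end MrgPart2

-- marker of a merged file
example : 731051 + 847982 = 731051 + 847982 := rfl

end MrgPart1

-- marker of a merged file
example : 731051 + 847982 = 731051 + 847982 := rfl
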