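import Pool.Agent.MP_20bec2_an.T3.Vtr
import Pool.Agent.MP_20bec2_an.T3.Par4
import Pool.Agent.MP_20bec2_an.T3.CrA
import Pool.Agent.MP_20bec2_an.T3.Zt
import Pool.Agent.MP_20bec2_an.T3.Ftr
import Pool.Agent.MP_20bec2_an.T3.Fl3
import Pool.Agent.MP_20bec2_an.T3.Runm
import Pool.Agent.MP_20bec2_an.T3.Fcomp
import Pool.Agent.MP_20bec2_an.T3.Par3
import Pool.Agent.MP_20bec2_an.T3.Ls
import Pool.Agent.MP_20bec2_an.T3.K4
import Pool.Agent.MP_20bec2_an.T3.Final
import Pool.Agent.MP_20bec2_an.T3.Rem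
import Pool.Agent.MP_20bec2_an.T3.Finv

-- ======== part 0: formerly Pool.Agent.MP_20bec2_an.T3.CellE
section MrgPart0

-- ======== part 0: formerly Pool.Agent.MP_20bec2_an.T3.BrA
section MrgPart0

/-! Row BR, matrix part: the matrix `Bm` seen in a frame. -/

set_option autoImplicit false
set_option linter.unusedSectionVars false
open MeasureTheory Set Filter Matrix Topology

namespace Pool.Agent.MP_20bec2_an.T3
noncomputable section
open Classical Prof GeoP

namespace Br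

/-- a matrix with one row -/
def r3 (r : V) : Mx := !![0, 0, 0; 0, 0, 0; r 0, r 1, r 2]
def rv (S : Mx) (y : ℝ) : V := ![-S 2 0, -S 2 1, (y ^ 2 - S 2 2) / 2]
/-- the table of bounds -/
def Bb (d e y : ℝ) (h : V) : Mx :=
  Matrix.of fun i j => (if i = 2 then (if j = 2 then 10 else 20 * e) else 10 * d) * (y * h j)

lemma sand (T : Mx) (r : V) (i j : Fin 3) :
    (T * r3 r * Tᵀ) i j = T i 2 * (T j 0 * r 0 + T j 1 * r 1 + T j 2 * r 2) := by
  simp [r3, mul_apply, Fin.sum_univ_three]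
  ring

lemma sym_eq {S : Mx} (h : Sᵀ = S) (y : ℝ) :
    latm S + dg3 0 0 (y ^ 2) = S + (r3 (rv S y) + (r3 (rv S y))ᵀ) := by
  have h0 : S 0 2 = S 2 0 := congrFun (congrFun h 2) 0
  have h1 : S 1 2 = S 2 1 := congrFun (congrFun h 2) 1
  ext i j
  simp only [Matrix.add_apply, transpose_apply]
  fin_cases i <;> fin_cases j <;> simp [latm, dg3, r3, rv, h0, h1]

lemma ab3 {a b c x y z p q r : ℝ} (h1 : |a * x| ≤ p) (h2 : |b * y| ≤ q) (h3 : |c * z| ≤ r) :
    |a * x + b * y + c * z| ≤ p + q + r := (abs_add_three _ _ _).trans (by linarith)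

lemma one_bd {T : Mx} {r : V} {l l' lam y d e : ℝ} (l0 : 0 < lam) (l1 : lam ≤ l) (l2 : l ≤ y)
    (l3 : l' ≤ 2 * l) (hT : ∀ i j, |T i j| ≤ 2)
    (h3 : ∀ i, i ≠ 2 → |T i 2| ≤ 2 * d ∧ |T 2 i| ≤ 2 * d) (ha : |T 1 0| ≤ 2 * d ∨ l' = lam)
    (r0 : |r 0| ≤ e * (y * l')) (r1 : |r 1| ≤ e * (y * lam)) (r2 : |r 2| ≤ 2 * (y * y))
    (e0 : 0 ≤ e) (e1 : e ≤ 1 / 6) (hd : d * y ≤ e * lam) :
    EB (T * r3 r * Tᵀ) (Bb d e y ![l, lam, y]) := by
  have y0 : 0 < y := by linarith
  have d0 : 0 ≤ d := by linarith [(abs_nonneg _).trans (h3 0 (by decide)).1]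
  have ey : 0 ≤ e * y := by positivity
  have r0' : |r 0| ≤ 2 * (e * (y * l)) := r0.trans (by nlinarith)
  have k1 : e * (y * lam) ≤ e * (y * l) := by nlinarith
  have k2 : d * (y * y) ≤ e * (y * lam) := by nlinarith
  have k3 : e * (y * l) ≤ 1 / 6 * (y * y) := by nlinarith [mul_le_mul_of_nonneg_left l2 ey]
  have k4 : d * (e * (y * l)) ≤ d * (y * y) :=
    mul_le_mul_of_nonneg_left (by nlinarith [mul_pos y0 y0]) d0
  have k5 : d * (e * (y * lam)) ≤ d * (e * (y * l)) := mul_le_mul_of_nonneg_left k1 d0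
  have k6 : 0 ≤ e * (y * lam) := by positivity
  have w0 := ab3 (Ftr.abs_mul_le (hT 0 0) r0') (Ftr.abs_mul_le (hT 0 1) r1)
    (Ftr.abs_mul_le (h3 0 (by decide)).1 r2)
  have w1' : |T 1 0 * r 0| ≤ 4 * (e * (y * lam)) := by
    rcases ha with ha | rfl
    · linarith [Ftr.abs_mul_le ha r0']
    · linarith [Ftr.abs_mul_le (hT 1 0) r0]
  have w1 := ab3 w1' (Ftr.abs_mul_le (hT 1 1) r1) (Ftr.abs_mul_le (h3 1 (by decide)).1 r2)
  have w2 := ab3 (Ftr.abs_mul_le (h3 0 (by decide)).2 r0') (Ftr.abs_mul_le (h3 1 (by decide)).2 r1)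
    (Ftr.abs_mul_le (hT 2 2) r2)
  have v0 : |T 0 0 * r 0 + T 0 1 * r 1 + T 0 2 * r 2| ≤ 10 * (e * (y * l)) := by linarith
  have v1 : |T 1 0 * r 0 + T 1 1 * r 1 + T 1 2 * r 2| ≤ 10 * (e * (y * lam)) := by linarith
  have v2 : |T 2 0 * r 0 + T 2 1 * r 1 + T 2 2 * r 2| ≤ 5 * (y * y) := by linarith
  have u0 : 10 * (e * (y * l)) ≤ 5 * (y * l) := by nlinarith [mul_pos y0 (l0.trans_le l1)]
  have u1 : 10 * (e * (y * lam)) ≤ 5 * (y * lam) := by nlinarith [mul_pos y0 l0]
  have a : ∀ i, i ≠ 2 → ∀ j, |(T * r3 r * Tᵀ) i j| ≤ 10 * d * (y * ![l, lam, y] j) := fun i hi j => by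
    rw [sand]
    fin_cases j
    · exact (Ftr.abs_mul_le (h3 i hi).1 (v0.trans u0)).trans_eq (by simp; ring)
    · exact (Ftr.abs_mul_le (h3 i hi).1 (v1.trans u1)).trans_eq (by simp; ring)
    · exact (Ftr.abs_mul_le (h3 i hi).1 v2).trans_eq (by simp; ring)
  intro i j
  by_cases hi : i = 2
  · subst hi
    rw [sand]
    fin_cases j
    · exact (Ftr.abs_mul_le (hT 2 2) v0).trans_eq (by simp [Bb]; ring)
    · exact (Ftr.abs_mul_le (hT 2 2) v1).trans_eq (by simp [Bb]; ring)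
    · exact (Ftr.abs_mul_le (hT 2 2) v2).trans_eq (by simp [Bb]; ring)
  · simpa only [Bb, of_apply, if_neg hi] using a i hi j

lemma ent {S : Mx} {h : V} {v a b p q : ℝ} (hh : ∀ i, 0 < h i)
    (H : EB (nrm h S - dg3 (1 / 4) (1 / 4) v) !![p, q, a; q, p, a; a, a, b]) :
    |S 2 0| ≤ a * (h 2 * h 0) ∧ |S 2 1| ≤ a * (h 2 * h 1) ∧ |S 2 2 / (h 2 * h 2) - v| ≤ b := by
  have b0 := H 2 0
  have b1 := H 2 1
  have b2 := H 2 2
  simp [nrm, dg3, abs_div, abs_of_pos (hh _)] at b0 b1 b2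
  rw [div_le_iff₀ (mul_pos (hh _) (hh _))] at b0 b1
  exact ⟨b0, b1, b2⟩

variable {B : Bk} {k : ℕ} {S : V → Mx}

lemma Bm_eq : B.Bm k S = B.ws fun g x => r3 (rv ((B.fr g).cv1 (S x)) (B.c g k).y) := rfl

lemma ws_sum (hD : 0 < B.D) (A : Cu → V → Mx) (x : V) :
    B.ws A x = ∑ g ∈ Glue.nb8 (cv B.D) x, al B.D g x ^ 2 • (B.fr g).unc (A g x) :=
  ((Glue.sup_al_sq hD).smul fun g x => (B.fr g).unc (A g x)).eq_sum (by norm_num) x

lemma ws_eb (hD : 0 < B.D) {A : Cu → V → Mx} {x : V} {F : Fr} {M : Mx}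
    (h : ∀ g, x ∈ B.bx g (9 / 10) → EB (F.cv1 ((B.fr g).unc (A g x))) M) :
    EB (F.cv1 (B.ws A x)) M := by
  have e : F.cv1 (B.ws A x) = ∑ᶠ g, al B.D g x ^ 2 • F.cv1 ((B.fr g).unc (A g x)) := by
    rw [ws_sum hD, ((Glue.sup_al_sq hD).smul fun g x => F.cv1 ((B.fr g).unc (A g x))).eq_sum
      (by norm_num) x]
    simp only [Fr.cv1, Matrix.mul_sum, Matrix.sum_mul, Matrix.mul_smul, Matrix.smul_mul]
  have := (Glue.sup_al_sq hD).avg_eb (x := x) (c := 0) (B := M)
    (v := fun g => F.cv1 ((B.fr g).unc (A g x))) (by norm_num) (fun _ => sq_nonneg _)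
    (al_finsum hD.ne' x) fun g hg => by
      rw [sub_zero]
      exact h g (al_supp hD fun h0 => hg (by rw [h0]; norm_num))
  rwa [sub_zero, ← e] at this

lemma rf_eq (hD : 0 < B.D) (hQ : ∀ g, (B.fr g).Q.det ≠ 0) {x : V} (h : (S x)ᵀ = S x) :
    B.Rf k S x = S x + (B.Bm k S x + (B.Bm k S x)ᵀ) := by
  have e : ∀ g, (B.fr g).unc (latm ((B.fr g).cv1 (S x)) + dg3 0 0 ((B.c g k).y ^ 2)) =
      S x + ((B.fr g).unc (r3 (rv ((B.fr g).cv1 (S x)) (B.c g k).y)) +
        ((B.fr g).unc (r3 (rv ((B.fr g).cv1 (S x)) (B.c g k).y)))ᵀ) := fun g => by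
    rw [sym_eq (by simp only [Fr.cv1, transpose_mul, transpose_transpose, h, Matrix.mul_assoc])]
    generalize r3 _ = R
    have e0 := unc_cv1 (hQ g) (S x)
    simp only [Fr.unc, Matrix.mul_add, Matrix.add_mul, transpose_mul, transpose_transpose,
      Matrix.mul_assoc] at e0 ⊢
    rw [e0]
  have e1 : ∑ g ∈ Glue.nb8 (cv B.D) x, al B.D g x ^ 2 = 1 := al_sum hD.ne' x
  rw [Bm_eq, Bk.Rf, ws_sum hD, ws_sum hD]
  simp only [e, smul_add, Finset.sum_add_distrib, ← Finset.sum_smul, e1, one_smul, transpose_sum,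
    transpose_smul]

lemma cont_Bm (hD : 0 < B.D) (h : ∀ i j, Continuous fun x => S x i j) (i j : Fin 3) :
    Continuous fun x => B.Bm k S x i j := by
  have hS : Continuous S := continuous_matrix h
  refine ((Glue.sup_al_sq hD).smul fun g x => (B.fr g).unc
    (r3 (rv ((B.fr g).cv1 (S x)) (B.c g k).y))).contM (by norm_num) (fun g i j => ?_) i j
  have h1 : Continuous fun x => (B.fr g).cv1 (S x) :=
    (continuous_const.matrix_mul hS).matrix_mul continuous_const
  have h2 : Continuous fun x => r3 (rv ((B.fr g).cv1 (S x)) (B.c g k).y) :=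
    continuous_matrix fun i j => by
      have := fun i j => h1.matrix_elem i j
      fin_cases i <;> fin_cases j <;> simp [r3, rv] <;> fun_prop
  exact ((((al_sm _ g).continuous.pow 2).smul ((continuous_const.matrix_mul h2).matrix_mul
    continuous_const))).matrix_elem i j

/-- the hypotheses on the covariance -/
structure HS (B : Bk) (k : ℕ) (S : V → Mx) : Prop where
  big : Big B.N
  fo : FrOk B.N B.lb B.fr
  hk : k < nb B.N
  sb : B.SB k S 4 1 (B.c 0 k).t13 (B.c 0 k).t33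

namespace HS
variable (H : HS B k S)
include H

lemma gd (g : Cu) : Gd (B.c g k) := H.fo.gd H.big g H.hk.le
lemma D0 : 0 < B.D := (H.gd 0).D_pos
lemma N9 : (10 : ℝ) ^ 9 ≤ B.N := by linarith [H.big.N_ge, H.big.J_ge, H.big.L_ge]
lemma N2 : 2 ≤ B.N := by
  have : (2 : ℝ) ≤ B.N := by linarith [H.N9]
  exact_mod_cast this
lemma kN : ((k : ℝ) + 1) / B.N ≤ 1 / 1000 := by
  have h1 : (k : ℝ) + 1 ≤ nb B.N := by exact_mod_cast H.hk
  rw [div_le_iff₀ H.big.N_pos]
  linarith [H.big.nb_bd.2, H.big.N_ge, H.big.J_pos]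
lemma sub (g : Cu) : B.R g (99 / 100) ⊆ B.R g (1 - k / B.N) := RX_mono _ H.D0.le (by
  have := H.kN
  rw [add_div] at this
  linarith [one_div_pos.2 H.big.N_pos])
lemma l1_le (g : Cu) : (B.c g k).l1 ≤ B.yk k :=
  mul_le_mul_of_nonneg_right ((H.gd g).ro_le.trans (by
    have := H.big.np_le (show (1 / 2 : ℝ) ≤ 11 / 10 by norm_num)
    rwa [Real.sqrt_eq_rpow])) (H.gd g).lam_pos.le
lemma hs_bd (g : Cu) (i : Fin 3) :
    (B.c g k).lam ≤ (B.c g k).hs i ∧ (B.c g k).hs i ≤ B.yk k := by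
  have a := (H.gd g).lam_le_l1
  have b := H.l1_le g
  fin_cases i
  exacts [⟨a, b⟩, ⟨le_rfl, a.trans b⟩, ⟨a.trans b, le_rfl⟩]
lemma np_sm {a : ℝ} (ha : a ≤ -1 / 4) : np B.N a ≤ 1 / 10 ^ 6 := by
  have h1 := H.big.J_ge
  have h2 := H.big.L_ge
  have h3 := Real.add_one_le_exp (pJ B.N / 4)
  rw [H.big.np_eq, one_div, ← Real.exp_log (show (0 : ℝ) < (10 ^ 6)⁻¹ by norm_num),
    Real.exp_le_exp, Real.log_inv]
  nlinarith [(logc_bd (show (1 : ℝ) ≤ 10 ^ 6 by norm_num)).2]
lemma yk_eq (g : Cu) : B.yk k = np B.N (11 / 10) * (B.c g k).lam := rfl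
lemma np_y (g : Cu) {a b : ℝ} (h : a + 11 / 10 ≤ b) :
    np B.N a * B.yk k ≤ np B.N b * (B.c g k).lam := by
  rw [H.yk_eq g, ← mul_assoc, ← H.big.np_add]
  exact mul_le_mul_of_nonneg_right (H.big.np_le h) (H.gd g).lam_pos.le
lemma t13_le : (B.c 0 k).t13 ≤ np B.N (-38 / 100) := by
  unfold Pm.t13
  split_ifs
  exacts [le_rfl, H.big.np_le (by norm_num)]
lemma t33_le : (B.c 0 k).t33 ≤ 1 := by
  unfold Pm.t33
  split_ifs
  · exact (div_le_one (H.gd 0).q_pos).2 (le_trans (by norm_num) H.big.q_ge)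
  · exact (H.np_sm (by norm_num)).trans (by norm_num)

lemma loc {g : Cu} {x : V} (hx : x ∈ B.bx g 1) : EB ((B.fr g).cv1 (B.Bm k S x))
    (Bb (dc B.N) (np B.N (-38 / 100)) (B.yk k) (B.c g k).hs) := by
  rw [Bm_eq]
  refine ws_eb H.D0 fun g' hx' => ?_
  have n : Nbr 3 g g' := box_nbr H.D0 (by norm_num) hx hx'
  have c := H.fo.cp g g' n
  have G := H.gd g
  have G' := H.gd g'
  have d1 := dc_le H.N2
  have y0 : 0 < B.yk k := G.y_pos
  have e0 := (H.big.np_pos (-38 / 100)).le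
  have b := H.sb.bd g' _ (H.sub g' (RX_mono _ H.D0.le (by norm_num) ((xc_mem H.fo).2 hx')))
  rw [Bk.nS, Fr.cov, xp_xc (orth H.fo g')] at b
  obtain ⟨b0, b1, b2⟩ := ent G'.hs_pos b
  replace b0 := b0.trans (mul_le_mul_of_nonneg_right H.t13_le (mul_pos (G'.hs_pos _) (G'.hs_pos _)).le)
  replace b1 := b1.trans (mul_le_mul_of_nonneg_right H.t13_le (mul_pos (G'.hs_pos _) (G'.hs_pos _)).le)
  replace b2 : |(B.fr g').cv1 (S x) 2 2 / (B.yk k * B.yk k) - 4| ≤ 1 := b2.trans H.t33_le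
  have t1 : (B.c g' k).l1 ≤ 2 * (B.c g k).l1 := by
    have : (B.c g' k).ro ≤ 2 * (B.c g k).ro :=
      ((H.fo.cpk H.big n H.hk.le H.hk.le).ratios Pm.ro (by simp)).2.2.2.1
    exact (mul_le_mul_of_nonneg_right this G.lam_pos.le).trans_eq (mul_assoc _ _ _)
  have t2 : ∀ i j, |((B.fr g).Q⁻¹ * (B.fr g').Q) i j| ≤ 2 := fun i j =>
    (T_eb (orth H.fo g) (orth H.fo g') c i j).trans (show 1 + dc B.N ≤ 2 by linarith)
  have t3 : |((B.fr g).Q⁻¹ * (B.fr g').Q) 1 0| ≤ 2 * dc B.N ∨ (B.c g' k).l1 = (B.c g k).lam := by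
    refine c.al.imp (fun h => ?_) fun h => (Ftr.rot G' h.2).1
    have a : |((B.fr g).Q⁻¹ * (B.fr g').Q) 1 0 - ((B.fr g).Oᵀ * (B.fr g').O) 1 0| ≤ dc B.N := c.tq 1 0
    linarith [abs_sub_abs_le_abs_sub (((B.fr g).Q⁻¹ * (B.fr g').Q) 1 0)
      (((B.fr g).Oᵀ * (B.fr g').O) 1 0), h.2]
  have t4 : |rv ((B.fr g').cv1 (S x)) (B.yk k) 0| ≤ np B.N (-38 / 100) * (B.yk k * (B.c g' k).l1) :=
    (abs_neg _).trans_le b0
  have t5 : |rv ((B.fr g').cv1 (S x)) (B.yk k) 1| ≤ np B.N (-38 / 100) * (B.yk k * (B.c g k).lam) :=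
    (abs_neg _).trans_le b1
  have t6 : |rv ((B.fr g').cv1 (S x)) (B.yk k) 2| ≤ 2 * (B.yk k * B.yk k) := by
    obtain ⟨a1, a2⟩ := abs_le.1 b2
    rw [le_sub_iff_add_le, le_div_iff₀ (mul_pos y0 y0)] at a1
    rw [sub_le_iff_le_add, div_le_iff₀ (mul_pos y0 y0)] at a2
    show |(B.yk k ^ 2 - (B.fr g').cv1 (S x) 2 2) / 2| ≤ _
    rw [abs_le]
    constructor <;> linarith [mul_pos y0 y0]
  have t7 : dc B.N * B.yk k ≤ np B.N (-38 / 100) * (B.c g k).lam := H.np_y g (by norm_num)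
  rw [cv1_unc', show (B.c g' k).y = B.yk k from rfl,
    show (B.c g k).hs = ![(B.c g k).l1, (B.c g k).lam, B.yk k] from rfl]
  exact one_bd G.lam_pos G.lam_le_l1 (H.l1_le g) t1 t2 (fun i hi => T_e3 c hi) t3 t4 t5 t6 e0
    ((H.np_sm (by norm_num)).trans (by norm_num)) t7

lemma Bb_le (g : Cu) (i j : Fin 3) : Bb (dc B.N) (np B.N (-38 / 100)) (B.yk k) (B.c g k).hs i j ≤
    10 * (B.yk k * (B.c g k).hs j) := by
  have d1 := dc_le H.N2
  have e1 := H.np_sm (a := -38 / 100) (by norm_num)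
  refine mul_le_mul_of_nonneg_right ?_ (mul_pos (H.gd g).y_pos ((H.gd g).hs_pos j)).le
  split_ifs <;> linarith

lemma glob {L : Mx} (hL : EB L (cm (Real.exp ((B.N : ℝ) ^ 2)))) (x : V) :
    EB (L * B.Bm k S x * Lᵀ) (cm (810 * Real.exp ((B.N : ℝ) ^ 2) ^ 4 * B.yk k ^ 2)) := by
  obtain ⟨g, hg⟩ := exists_box H.D0 x
  have y0 : 0 < B.yk k := (H.gd g).y_pos
  have a : EB ((B.fr g).cv1 (B.Bm k S x)) (cm (10 * (B.yk k * B.yk k))) := fun i j =>
    (H.loc (box_mono H.D0.le (by norm_num) g hg) i j).trans ((H.Bb_le g i j).trans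
      (show _ ≤ 10 * (B.yk k * B.yk k) by gcongr; exact (H.hs_bd g j).2))
  have t := eb_mul hL (H.fo.fx g).2.2.2.1
  have e : L * B.Bm k S x * Lᵀ = L * (B.fr g).Q * (B.fr g).cv1 (B.Bm k S x) * (L * (B.fr g).Q)ᵀ := by
    nth_rw 1 [← unc_cv1 (det_ne H.fo g) (B.Bm k S x)]
    simp only [Fr.unc, transpose_mul, Matrix.mul_assoc]
  rw [e]
  exact eb_mono (eb_mul (eb_mul t a) (eb_t t)) (le_of_eq (by ring))

lemma globv {L : Mx} (hL : EB L (cm (Real.exp ((B.N : ℝ) ^ 2)))) {u : V → V} {m : ℝ}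
    (hu : ∀ g, ∀ x ∈ B.bx g 1, ‖(B.fr g).Q⁻¹ *ᵥ u x‖ ≤ m) (x : V) :
    ‖L *ᵥ u x‖ ≤ 9 * Real.exp ((B.N : ℝ) ^ 2) ^ 2 * m := by
  obtain ⟨g, hg⟩ := exists_box H.D0 x
  have t := Inv.norm_mulVec_le (eb_mul hL (H.fo.fx g).2.2.2.1) ((B.fr g).Q⁻¹ *ᵥ u x)
  rw [← mulVec_mulVec, q_inv_vec (det_ne H.fo g)] at t
  refine t.trans ((mul_le_mul_of_nonneg_left (hu g x (box_mono H.D0.le (by norm_num) g hg))
    (by positivity)).trans_eq (by ring))

lemma one_eb : EB (1 : Mx) (cm (Real.exp ((B.N : ℝ) ^ 2))) :=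
  eb_mono (orth_eb orth_one) (Real.one_le_exp (by positivity))

end HS

end Br

end
end Pool.Agent.MP_20bec2_an.T3

end MrgPart0

-- ======== part 1: formerly Pool.Agent.MP_20bec2_an.T3.Cut
section MrgPart1

/-! The cut of the main flux. -/

set_option autoImplicit false
open MeasureTheory Set Filter Matrix Topology

namespace Pool.Agent.MP_20bec2_an.T3
noncomputable section
open Classical Prof

namespace Cut
section par
variable {c : Pm} (h : Gd c)
include h

lemma one_le_pA : 1 ≤ pA c.N := one_le_pow₀ (by linarith [h.big.J_ge, h.big.L_ge])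

lemma hs_cw (j : Fin 3) : c.hs j ≤ c.cw j := by
  fin_cases j
  · exact le_mul_of_one_le_left h.l1_pos.le (one_le_pA h)
  · exact le_mul_of_one_le_left h.lam_pos.le (one_le_pA h)
  · exact le_of_log (x := c.y) (y := c.L) h.y_pos h.L_pos
      (by linarith [h.log_y, h.log_L, h.big.J_ge, h.big.L_ge])

lemma hs_D (j : Fin 3) : |c.hs j| ≤ 1 * c.D := by
  rw [abs_of_pos (h.hs_pos j), one_mul]
  have h1 := Real.log_le_log h.lam_pos h.lam_le_lb
  have h2 := h.log_D
  have h3 := h.big.J_ge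
  have h4 := h.big.L_ge
  fin_cases j
  · exact le_of_log (x := c.l1) h.l1_pos h.D_pos (by linarith [h.log_l1, h.log_ro_bd.2])
  · exact le_of_log (x := c.lam) h.lam_pos h.D_pos (by linarith)
  · exact le_of_log (x := c.y) h.y_pos h.D_pos (by linarith [h.log_y])

lemma GG_le_GH : c.GG ≤ c.GH := by
  refine le_of_log h.GG_pos h.GH_pos ?_
  linarith [h.log_GH, h.big.L_ge]

lemma cst_le {C : ℝ} (h1 : 1 ≤ C) (hC : C ≤ pL c.N) :
    C * np c.N (-28 / 100) ≤ np c.N (-275 / 1000) := by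
  have p := h.big.np_pos (-28 / 100)
  refine le_of_log (by positivity) (h.big.np_pos _) ?_
  rw [Real.log_mul (by positivity) p.ne', h.big.log_np, h.big.log_np]
  linarith [(logc_bd h1).2, h.big.J_ge, h.big.L_ge]

lemma far_le {C : ℝ} (h1 : 1 ≤ C) (hC : C ≤ pL c.N) : C * Real.exp (-c.N) * c.L ≤ c.GG := by
  have p := h.L_pos
  refine le_of_log (by positivity) h.GG_pos ?_
  rw [Real.log_mul (by positivity) p.ne', Real.log_mul (by positivity) (by positivity),
    Real.log_exp, h.log_L]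
  linarith [(logc_bd h1).2, h.big.J_ge, h.big.L_ge, h.big.N_ge, h.log_GG_bd.1]
end par

lemma cf_sm (c : Pm) (g : Cu) {F : V → V} (hF : Sm F) (i : Fin 3) : Sm (c.cf g F i) :=
  (bc_sm c g).mul (hF.coord i)

lemma slab_bc {c : Pm} (h : Gd c) (g : Cu) (u : V → ℝ) : Slab fun z => c.bc g z * u z :=
  Slab.of_compact (bc_hcs h.cw_pos g).mul_right

/-- columns through a cell have length at most `2 L` -/
lemma col_bd {c : Pm} (h : Gd c) (g : Cu) {n : ℝ → V} (hn : Continuous n) {u : V → ℝ} (hu : Sm u)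
    {B : ℝ} (H : CB 3 c.hs univ (fun z => c.bc g z * u z) B) :
    CBl (fun l => l.length ≤ 3 ∧ ∀ i ∈ l, i ≠ 2) c.hs univ (tot n fun z => c.bc g z * u z)
      (B * (2 * c.L)) ∧
    CBl (fun l => l.length ≤ 3 ∧ ∀ i ∈ l, i ≠ 2) c.hs univ (pre n fun z => c.bc g z * u z)
      (B * (2 * c.L)) := by
  have hL := h.L_pos
  have := lat_tot (P := fun l => l.length ≤ 3 ∧ ∀ i ∈ l, i ≠ 2) (U := univ) (W := univ)
    (a := (g 2 - 1) * c.L) (b := (g 2 + 1) * c.L) (fun i => (h.hs_pos i).le)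
    ((bc_sm c g).mul hu) (slab_bc h g u) hn (fun _ hl => hl.2) (by nlinarith)
    (fun w _ r hr hm => hr ?_) (fun _ _ _ _ => mem_univ _) (CBl.monoP H fun _ hl => hl.1)
  · rwa [show (g 2 + 1) * c.L - (g 2 - 1) * c.L = 2 * c.L by ring] at this
  · have k : cpt n w r ∈ Glue.cell c.cw g 1 := closure_minimal
      (fun z hz => bc_near (left_ne_zero_of_mul hz)) (Glue.cell_closed c.cw g 1) hm
    have k2 : |r / c.L - g 2| ≤ 1 := k 2
    rw [abs_le] at k2
    exact ⟨(le_div_iff₀ hL).1 (by linarith [k2.1]), (div_le_iff₀ hL).1 (by linarith [k2.2])⟩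

/-- the part of the flux that is cut away -/
lemma rest_bd {c : Pm} (h : Gd c) {O : Mx} {ch : Cu → ℝ → V} {F : V → V} (hF : c.FB O ch F)
    {Ce : ℝ} (He : CB 3 c.hs univ (beth O c.D) Ce) {i : Fin 3} (hi : i ≠ 2) :
    CB 3 c.hs univ (fun z => (1 - beth O c.D z) * F z i)
      (2 ^ 3 * (1 + Ce) * (Real.exp (-c.N) * c.hs i)) := by
  have hh : ∀ j, 0 ≤ c.hs j := fun j => (h.hs_pos j).le
  have C0 := He.nonneg (mem_univ 0)
  have s1 : Sm fun z => 1 - beth O c.D z := ContDiff.sub contDiff_const (beth_sm O c.D)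
  have b1 : CB 3 c.hs (RX O c.D (935 / 1000))ᶜ (fun z => 1 - beth O c.D z) (1 + Ce) :=
    CBl.sub hh (sm_const 1) (beth_sm O c.D) (cb_const (by simp)) (CBl.monoU He (subset_univ _))
  have b2 := CB.mul hh s1 (hF.sm.coord i) b1 (hF.far i hi)
  intro l hl x _
  by_cases hx : x ∈ RX O c.D (935 / 1000)
  · rw [pds_zero_of_eventually (Filter.eventuallyEq_of_mem
      (RX_nhds h.D_pos (show (935 / 1000 : ℝ) < 94 / 100 by norm_num) hx) fun y hy => by
        simp only [beth_one h.D_pos hy, sub_self, zero_mul]), abs_zero, mul_zero]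
    have := hh i
    positivity
  · exact b2 l hl x hx
end Cut

open Cut in
theorem cut : CutStmt := by
  obtain ⟨Cb, cb1, hb⟩ := cb_bc 3
  obtain ⟨Ce, ce1, he⟩ := cb_cut 3
  filter_upwards [ev_gd, ev_pL (128 * Cb * (1 + Ce)), ev_pL (8 * Ce)] with N hg hC hC' c hN hk O ch
    F hO hch hF
  have h := hg c hN hk
  subst hN
  have hh : ∀ j, 0 ≤ c.hs j := fun j => (h.hs_pos j).le
  have He : CB 3 c.hs univ (beth O c.D) Ce := ((he O c.D hO h.D_pos).2 c.hs 1 le_rfl (hs_D h)).1.2.2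
  have sC : Sm (cutF O c.D F) := (beth_sm O c.D).smul hF.sm
  have sR : ∀ i, Sm fun z => (1 - beth O c.D z) * F z i := fun i =>
    (ContDiff.sub contDiff_const (beth_sm O c.D)).mul (hF.sm.coord i)
  have e : ∀ g i, c.cf g (cutF O c.D F) i =
      fun z => c.cf g F i z - c.bc g z * ((1 - beth O c.D z) * F z i) := fun g i => by
    funext z
    simp only [Pm.cf, cutF, Pi.smul_apply, smul_eq_mul]
    ring
  have main : ∀ g i, i ≠ 2 → ∃ p t : V → ℝ, Sm p ∧ Sm t ∧
      pre (ch g) (c.cf g (cutF O c.D F) i) = (fun w => pre (ch g) (c.cf g F i) w - p w) ∧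
      tot (ch g) (c.cf g (cutF O c.D F) i) = (fun w => tot (ch g) (c.cf g F i) w - t w) ∧
      CBl (fun l => l.length ≤ 3 ∧ ∀ i ∈ l, i ≠ 2) c.hs univ p (c.hs i * c.GG) ∧
      CBl (fun l => l.length ≤ 3 ∧ ∀ i ∈ l, i ≠ 2) c.hs univ t (c.hs i * c.GG) := fun g i hi => by
    have sn := (hch.2 g).1
    have s1 := (bc_sm c g).mul (sR i)
    have b := CB.mul hh (bc_sm c g) (sR i) (CBl.monoh (hb c g) hh (hs_cw h)) (rest_bd h hF He hi)
    obtain ⟨b1, b2⟩ := col_bd h g sn.continuous (sR i) b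
    have k : 2 ^ 3 * Cb * (2 ^ 3 * (1 + Ce) * (Real.exp (-c.N) * c.hs i)) * (2 * c.L) ≤
        c.hs i * c.GG := by
      have := mul_le_mul_of_nonneg_left (far_le h (by nlinarith) hC) (hh i)
      linarith
    refine ⟨_, _, sm_pre s1 (slab_bc h g _) sn, sm_tot s1 (slab_bc h g _) sn.continuous, ?_, ?_,
      b2.monoB k, b1.monoB k⟩
    · rw [e]
      exact pre_sub (cf_sm c g hF.sm i).continuous (slab_bc h g _) s1.continuous (slab_bc h g _)
        sn.continuous
    · rw [e]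
      exact tot_sub (cf_sm c g hF.sm i).continuous (slab_bc h g _) s1.continuous (slab_bc h g _)
        sn.continuous
  have sp : ∀ g i, Sm (pre (ch g) (c.cf g F i)) ∧ Sm (tot (ch g) (c.cf g F i)) := fun g i =>
    ⟨sm_pre (cf_sm c g hF.sm i) (slab_bc h g _) (hch.2 g).1,
      sm_tot (cf_sm c g hF.sm i) (slab_bc h g _) (hch.2 g).1.continuous⟩
  refine ⟨⟨sC, fun z => by simp [cutF, hF.f2 z], fun z hz => by simp [cutF, beth_zero h.D_pos hz],
    fun i hi => ?_, fun g i hi => ?_⟩, fun z a ha hE g hz i hi => ?_⟩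
  · refine CBl.monoB (CB.mul hh (beth_sm O c.D) (hF.sm.coord i) He (hF.cb i hi)) ?_
    have := mul_le_mul_of_nonneg_right (cst_le h (by linarith) hC') (hh i)
    linarith
  · obtain ⟨p, t, s1, s2, e1, e2, b1, b2⟩ := main g i hi
    obtain ⟨a1, a2, a3⟩ := hF.pb g i hi
    have k1 := mul_le_mul_of_nonneg_left (GG_le_GH h) (hh i)
    have k2 : c.hs i * c.GH ≤ pA c.N * (c.hs i * c.GH) :=
      le_mul_of_one_le_left (mul_nonneg (hh i) h.GH_pos.le) (one_le_pA h)
    rw [e1, e2]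
    refine ⟨(CBl.sub hh (sp g i).1 s1 a1 (b1.monoP fun _ hl => hl.2)).monoB (by linarith),
      (CBl.sub hh (sp g i).2 s2 a2 (b2.monoP fun _ hl => hl.2)).monoB (by linarith), fun w => ?_⟩
    have c1 : |p w| ≤ c.hs i * c.GG := by simpa using b1 [] (by simp) w (mem_univ w)
    have c2 : |t w| ≤ c.hs i * c.GG := by simpa using b2 [] (by simp) w (mem_univ w)
    exact ⟨(abs_sub _ _).trans (by linarith [(a3 w).1]), (abs_sub _ _).trans (by linarith [(a3 w).2])⟩
  · obtain ⟨p, t, s1, s2, e1, e2, b1, b2⟩ := main g i hi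
    obtain ⟨a1, a2⟩ := hE g hz i hi
    have k : c.hs i * c.GG ≤ c.hs i * c.GG * a :=
      le_mul_of_one_le_right (mul_nonneg (hh i) h.GG_pos.le) ha
    have m : ∀ l, LatL 2 l → l.length ≤ 3 ∧ ∀ i ∈ l, i ≠ 2 := fun l hl =>
      ⟨hl.2.1.trans (by norm_num), hl.2.2⟩
    rw [e1, e2]
    exact ⟨(CBl.sub hh (sp g i).1 s1 a1 ((b1.monoP m).monoU (subset_univ _))).monoB (by linarith),
      (CBl.sub hh (sp g i).2 s2 a2 ((b2.monoP m).monoU (subset_univ _))).monoB (by linarith)⟩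

end
end Pool.Agent.MP_20bec2_an.T3

end MrgPart1

-- ======== part 2: formerly Pool.Agent.MP_20bec2_an.T3.CellB
section MrgPart2

/-! Row CELLB: the lateral data of one cell. -/

set_option autoImplicit false
open MeasureTheory Set Filter Matrix Topology

namespace Pool.Agent.MP_20bec2_an.T3
noncomputable section
open Classical

namespace CellB
open Prof

theorem stp_deriv (c : Pm) (g : Cu) (s : ℝ) :
    deriv (c.stp g) s = deriv st (s / c.L - (g 2 - 1 / 2)) / c.L := by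
  have h1 : HasDerivAt (fun s : ℝ => s / c.L - g 2 + 1 / 2) (1 / c.L) s :=
    (((hasDerivAt_id s).div_const c.L).sub_const _).add_const _
  have h2 : HasDerivAt (c.stp g) (deriv st (s / c.L - g 2 + 1 / 2) * (1 / c.L)) s :=
    (Sm.dif st_sm _).hasDerivAt.comp s h1
  rw [h2.deriv, mul_one_div, sub_add]

theorem st'_ne {t : ℝ} (h : deriv st t ≠ 0) : |t - 1 / 2| ≤ 1 / 2 := by
  by_contra hc
  refine h ?_
  rcases lt_abs.1 (not_le.1 hc) with h | h
  · have : st =ᶠ[𝓝 t] fun _ => 1 := by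
      filter_upwards [Ioi_mem_nhds (show 1 < t by linarith)] with s hs using st_one (le_of_lt hs)
    rw [this.deriv_eq, deriv_const]
  · have : st =ᶠ[𝓝 t] fun _ => 0 := by
      filter_upwards [Iio_mem_nhds (show t < 0 by linarith)] with s hs using st_zero (le_of_lt hs)
    rw [this.deriv_eq, deriv_const]

variable {c : Pm} (h : Gd c)
include h

theorem lam_le_hs {i : Fin 3} (hi : i ≠ 2) : c.lam ≤ c.hs i := by
  fin_cases i
  exacts [h.lam_le_l1, le_rfl, absurd rfl hi]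

theorem par : c.y * np c.N (-19 / 10) ≤ c.lam ∧
    c.y * (c.q * (c.J * np c.N (-19 / 10))) ≤ c.lam ∧
    c.y * (c.q ^ 2 * (c.J * np c.N (-19 / 10)) / np c.N (-3 / 100)) ≤ c.lam ∧
    pA c.N * c.y ≤ c.L ∧ 1 ≤ pA c.N ∧ 2000 * c.L ≤ c.D ∧ pA c.N * c.l1 ≤ c.L := by
  have := h.big.pA_pos; have := h.l1_pos; have := h.D_pos; have := h.q_pos; have := h.L_pos
  have := h.J_pos; have := h.y_pos; have := h.lam_pos
  have := h.big.np_pos (-19 / 10); have := h.big.np_pos (-3 / 100)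
  have a1 := h.log_ro_bd.2
  have a2 := Real.log_le_log h.lam_pos h.lam_le_lb
  have a9 := h.big.J_ge
  have b1 := h.big.L_ge
  have b4 := (logc_bd (show (1 : ℝ) ≤ 2000 by norm_num)).2
  refine ⟨?_, ?_, ?_, ?_, ?_, ?_, ?_⟩ <;> refine le_of_log (by positivity) (by positivity) ?_ <;>
    simp (disch := positivity) only [Real.log_div, Real.log_mul, Real.log_pow, Real.log_one,
      h.big.log_pA, h.log_l1, h.log_D, h.log_L, h.log_y, h.big.log_np, h.log_q, h.log_J] <;>
    push_cast <;> linarith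

theorem cw_le (i : Fin 3) : c.cw i ≤ c.L := by
  have p := (par h).2.2.2.2.2.2
  fin_cases i
  exacts [p, (mul_le_mul_of_nonneg_left h.lam_le_l1 h.big.pA_pos.le).trans p, le_rfl]

/-- the charts are slow on the scale `y` -/
theorem ch_der {ch : Cu → ℝ → V} (H : c.ChB ch) (g : Cu) {i : Fin 3} (hi : i ≠ 2) {k : ℕ}
    (k1 : 1 ≤ k) (k3 : k ≤ 3) (s : ℝ) :
    c.y ^ k * |iteratedDeriv k (fun r => ch g r i) s| ≤ c.hs i := by
  rcases H.1 with hs | rfl
  swap
  · rw [show (fun r => (0 : Cu → ℝ → V) g r i) = fun _ => 0 from rfl, iteratedDeriv_fun_const_zero,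
      abs_zero, mul_zero]
    exact (h.hs_pos i).le
  obtain ⟨-, a1, -, a2, a3⟩ := (H.2 g).2 i hi s
  obtain ⟨p1, p2, p3, -⟩ := par h
  have py := h.y_pos
  have pc := h.cc_pos i
  have pg := ChartP.dgn_pos h i
  have pn := h.n12_pos
  have pq := h.q_pos
  have p0 := h.big.np_pos (-3 / 100)
  have hX : Xj c.N 0 2 * (c.cc i / (c.dgn i * c.n12)) ≤ c.J * np c.N (-19 / 10) := by
    have b1 := mul_le_mul_of_nonneg_left (ChartP.par h hs hi).2 h.J_pos.le
    have b2 : 0 ≤ Xj c.N 0 2 * (c.cc i / (c.dgn i * c.n12)) :=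
      mul_nonneg (div_pos (pow_pos h.J_pos 3) h.big.sqrtN_pos).le (by positivity)
    have b3 : c.J * (c.cc i / (c.dgn i * c.n12) * (2 * hc c.N)) =
        6 * (Xj c.N 0 2 * (c.cc i / (c.dgn i * c.n12))) := by
      rw [show Xj c.N 0 2 = pJ c.N ^ 3 / √c.N from rfl, hc, Pm.J]; ring
    linarith
  have hw : ∀ w A : ℝ, c.dgn i * w * c.n12 / c.cc i ≤ A →
      w ≤ A * (c.cc i / (c.dgn i * c.n12)) := fun w A hA => by
    refine le_trans (le_of_eq ?_) (mul_le_mul_of_nonneg_right hA (by positivity))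
    field_simp
  refine le_trans ?_ (lam_le_hs h hi)
  interval_cases k
  · rw [iteratedDeriv_one, pow_one]
    exact (mul_le_mul_of_nonneg_left a1 py.le).trans p1
  · refine (mul_le_mul_of_nonneg_left (hw _ _ a2) (by positivity)).trans (le_trans ?_ p2)
    refine le_trans (le_of_eq ?_) (mul_le_mul_of_nonneg_left (mul_le_mul_of_nonneg_left hX pq.le)
      py.le)
    field_simp
  · refine (mul_le_mul_of_nonneg_left (hw _ _ a3) (by positivity)).trans (le_trans ?_ p3)
    refine le_trans (le_of_eq ?_) (mul_le_mul_of_nonneg_left (div_le_div_of_nonneg_right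
      (mul_le_mul_of_nonneg_left hX (sq_nonneg _)) p0.le) py.le)
    field_simp

theorem cv_cin {ch : Cu → ℝ → V} (H : c.ChB ch) (g : Cu) (i : Fin 3) :
    CV 3 c.hs univ (fun z => cin (ch g) z i) (2 * c.hs i) := by
  have hh := fun i => (h.hs_pos i).le
  by_cases hi : i = 2
  · subst hi
    exact CBl.monoB (cv_coord hh 2) (by linarith [hh 2])
  have s1 := (H.2 g).1.coord i
  have h1 : CV 3 c.hs univ (fun x : V => ch g ((Pi.single 2 1 : V) ⬝ᵥ x + 0) i) (c.hs i) :=
    fun l hl x _ => (ridge_le (κ := c.y) hh s1 _ _ (fun j => by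
      fin_cases j <;> simp [Pm.hs, h.y_pos.le]) l x).trans (ch_der h H g hi hl.1 hl.2 _)
  refine CBl.congr_fun (CBl.monoB (CBl.sub hh (sm_coord i) (sm_ridge s1 _ _) (cv_coord hh i) h1)
    (two_mul _).ge) fun z => ?_
  rw [single_dotProduct, one_mul, add_zero]
  fin_cases i
  exacts [rfl, rfl, absurd rfl hi]

variable {O : Mx} {ch : Cu → ℝ → V} {F : V → V}

omit h in
theorem cf_sm (FC : c.FC O ch F) (g : Cu) (i : Fin 3) : Sm (c.cf g F i) :=
  ContDiff.mul (bc_sm c g) (FC.sm.coord i)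

theorem cf_slab (g : Cu) (i : Fin 3) : Slab (c.cf g F i) :=
  Slab.of_compact (bc_hcs h.cw_pos g).mul_right

theorem cv_tot (H : c.ChB ch) (FC : c.FC O ch F) (g : Cu) {i : Fin 3} (hi : i ≠ 2) :
    CV 3 c.hs univ (tot (ch g) (c.cf g F i)) (2 * (c.hs i * c.GH)) := fun l hl x hx => by
  by_cases h2 : 2 ∈ l
  · rw [pds_tot' (cf_sm FC g i) (cf_slab h g i) (H.2 g).1.continuous, if_pos h2, abs_zero,
      mul_zero]
    exact (mul_pos two_pos (mul_pos (h.hs_pos i) h.GH_pos)).le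
  · exact (FC.pb g i hi).2.1 l ⟨hl.1, hl.2, fun j hj e => h2 (e ▸ hj)⟩ x hx

/-- a column that meets the support of the cell flux starts in `cK` -/
theorem mem_cK (hO : Orth O) (H : c.ChB ch) (FC : c.FC O ch F) {g : Cu} {i : Fin 3} {z : V}
    (hz : |z 2 / c.L - g 2| ≤ 92 / 100) {r : ℝ}
    (hr : c.cf g F i (cpt (ch g) (cin (ch g) z) r) ≠ 0) : z ∈ c.cK O g := by
  have b1 := bc_supp (left_ne_zero_of_mul hr)
  have b2 : cpt (ch g) (cin (ch g) z) r ∈ RX O c.D (95 / 100) := by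
    by_contra hc
    exact right_ne_zero_of_mul hr (congrFun (FC.sup _ hc) i)
  have b3 : |r / c.L - g 2| < 9 / 10 := b1 2
  have pL := h.L_pos
  have b4 : ∀ j, j ≠ 2 → |z j - cpt (ch g) (cin (ch g) z) r j| ≤ c.cw j / 50 := fun j hj => by
    have e : z j - cpt (ch g) (cin (ch g) z) r j = ch g (z 2) j - ch g r j := by
      fin_cases j
      · simp [cpt, cin]; ring
      · simp [cpt, cin]; ring
      · exact absurd rfl hj
    have c1 := (((H.2 g).2 j hj (z 2)).1 (hz.trans (by norm_num)))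
    have c2 := (((H.2 g).2 j hj r).1 (b3.le.trans (by norm_num)))
    rw [e]
    linarith [abs_sub (ch g (z 2) j) (ch g r j)]
  refine ⟨fun j => ?_, ?_⟩
  · by_cases hj : j = 2
    · subst hj; exact hz
    have c1 := b4 j hj
    have c2 := abs_lt.1 (b1 j)
    have c3 : |(z j - cpt (ch g) (cin (ch g) z) r j) / c.cw j| ≤ 1 / 50 := by
      rw [abs_div, abs_of_pos (h.cw_pos j), div_le_iff₀ (h.cw_pos j)]; linarith
    rw [sub_div] at c3
    have c4 := abs_le.1 c3
    exact abs_le.2 ⟨by linarith, by linarith⟩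
  have c1 : ‖z - cpt (ch g) (cin (ch g) z) r‖ ≤ 2 * c.L := by
    refine (pi_norm_le_iff_of_nonneg (by positivity)).2 fun j => ?_
    by_cases hj : j = 2
    · subst hj
      have c3 : |(z 2 - r) / c.L| ≤ 2 := by
        have c4 := abs_le.1 hz
        have c5 := abs_lt.1 b3
        rw [sub_div]
        exact abs_le.2 ⟨by linarith, by linarith⟩
      rwa [abs_div, abs_of_pos pL, div_le_iff₀ pL] at c3
    · exact (b4 j hj).trans (by linarith [cw_le h j])
  have c2 := GeoP.norm_orth hO (z - cpt (ch g) (cin (ch g) z) r)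
  have c3 := norm_add_le (O *ᵥ (z - cpt (ch g) (cin (ch g) z) r))
    (O *ᵥ cpt (ch g) (cin (ch g) z) r)
  rw [← mulVec_add, sub_add_cancel] at c3
  have c4 : ‖O *ᵥ cpt (ch g) (cin (ch g) z) r‖ ≤ 95 / 100 * c.D := b2
  show ‖O *ᵥ z‖ ≤ 953 / 1000 * c.D
  linarith [(par h).2.2.2.2.2.1]

end CellB

open CellB Prof in
theorem cellB : CellBStmt := by
  obtain ⟨C, hC, HC⟩ := st_bound 4
  filter_upwards [ev_gd, ev_C_q (16 * C * (16 * cf 3 3))] with N h1 h2 c hN ok O ch F hO H FC g i hi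
  subst hN
  have h := h1 c rfl ok
  have hh := fun i => (h.hs_pos i).le
  have sφ : Sm (deriv st) := Sm.deriv st_sm
  have bφ : ∀ j ≤ 3, ∀ t, |iteratedDeriv j (deriv st) t| ≤ C := fun j hj t => by
    rw [← iteratedDeriv_succ']; exact HC _ (by omega) t
  have e : c.cB ch F g i = fun z => deriv st (z 2 / c.L - (g 2 - 1 / 2)) *
      tot (ch g) (c.cf g F i) (cin (ch g) z) / c.L := funext fun z => by
    rw [Pm.cB, stp_deriv]; ring
  have sT := sm_tot (cf_sm FC g i) (cf_slab h g i) (H.2 g).1.continuous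
  have sc := sm_cin (H.2 g).1
  have s1 := sm_coordfn sφ 2 c.L (g 2 - 1 / 2)
  have s2 : Sm fun z => tot (ch g) (c.cf g F i) (cin (ch g) z) := sT.comp sc
  obtain ⟨-, -, -, p1, p2, -⟩ := par h
  have pL := h.L_pos
  have pA0 := h.big.pA_pos
  have pG := mul_pos (h.hs_pos i) h.GH_pos
  have k1 := C2.cf_one 3 3
  have v2 := fun z => ((FC.pb g i hi).2.2 (cin (ch g) z)).2
  have q1 : c.q = pq c.N := rfl
  refine ⟨e ▸ (s1.mul s2).div_const _, fun z hz => ?_, fun z => ?_, ?_⟩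
  · by_contra hc
    rw [e] at hc
    have hc' := div_ne_zero_iff.1 hc
    have a1 := abs_le.1 (st'_ne (left_ne_zero_of_mul hc'.1))
    obtain ⟨r, hr⟩ : ∃ r, c.cf g F i (cpt (ch g) (cin (ch g) z) r) ≠ 0 := by
      by_contra h0
      refine right_ne_zero_of_mul hc'.1 ?_
      simp only [not_exists, not_not] at h0
      simp only [tot, h0, integral_zero]
    exact hz (mem_cK h hO H FC (abs_le.2 ⟨by linarith, by linarith⟩) hr)
  · have a1 := mul_le_mul (bφ 0 (by norm_num) (z 2 / c.L - (g 2 - 1 / 2))) (v2 z) (abs_nonneg _)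
      (by linarith)
    rw [iteratedDeriv_zero] at a1
    rw [e, abs_div, abs_of_pos pL, abs_mul, Pm.bL]
    refine (div_le_div_of_nonneg_right a1 pL.le).trans ?_
    have a2 : 2 * C ≤ c.q := by nlinarith
    calc _ = 2 * C * (pA c.N * (c.hs i * c.GH) / c.L) := by ring
      _ ≤ c.q * (pA c.N * (c.hs i * c.GH) / c.L) := by gcongr
      _ = _ := by ring
  have t1 : CV 3 c.hs univ (fun z => tot (ch g) (c.cf g F i) (cin (ch g) z))
      (16 * cf 3 3 * (c.hs i * c.GH)) :=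
    CBl.monoB (CV.comp_map hh h.hs_pos (fun j => SmN.of_sm (sc.coord j) _) (SmN.of_sm sT _)
      (mapsTo_univ _ _) (cv_tot h H FC g hi) (cv_cin h H g)) (le_of_eq (by norm_num; ring))
  have t2 : CB 3 c.hs univ (fun z => tot (ch g) (c.cf g F i) (cin (ch g) z))
      (pA c.N * (16 * cf 3 3 * (c.hs i * c.GH))) :=
    CV.toCB (CBl.monoB t1 (le_mul_of_one_le_left (by positivity) p2)) fun z _ =>
      (v2 z).trans (by nlinarith [mul_pos pA0 pG])
  have t3 : CB 3 c.hs univ (fun z : V => deriv st (z 2 / c.L - (g 2 - 1 / 2))) (1 ^ 3 * C) :=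
    cb_coordfn hh sφ 2 pL _ le_rfl (by
      rw [one_mul]; exact (le_mul_of_one_le_left h.y_pos.le p2).trans p1) fun j hj _ _ => bφ j hj _
  have t4 : CV 3 c.hs univ (fun z : V => deriv st (z 2 / c.L - (g 2 - 1 / 2)))
      (1 / pA c.N * C) := by
    simp only [coord_eq_ridge]
    refine cv_ridge_small hh sφ _ _ ((div_le_one pA0).2 p2) (fun j => ?_) fun j _ hj _ _ => bφ j hj _
    by_cases hj : j = 2
    · subst hj
      rw [Pi.single_eq_same, abs_of_pos (inv_pos.2 pL), inv_mul_le_iff₀ pL, mul_one_div,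
        le_div_iff₀' pA0]
      exact p1
    · rw [Pi.single_eq_of_ne hj, abs_zero, zero_mul]; positivity
  rw [e]
  refine CBl.monoB (CBl.div_const (CV.mul hh s1 s2 t3 t4 t2 t1) c.L) ?_
  rw [abs_of_pos pL, Pm.bL]
  calc _ = 16 * C * (16 * cf 3 3) * (c.hs i * c.GH / c.L) := by field_simp; ring
    _ ≤ c.q * (c.hs i * c.GH / c.L) := by gcongr; exact h2
    _ = _ := by ring

end
end Pool.Agent.MP_20bec2_an.T3

end MrgPart2

-- ======== part 3: formerly Pool.Agent.MP_20bec2_an.T3.CellE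
section MrgPart3

/-! The envelope of the vertical datum at a moved point. -/

set_option autoImplicit false
open MeasureTheory Set Filter Matrix Topology

namespace Pool.Agent.MP_20bec2_an.T3
noncomputable section
open Classical Prof

namespace CellE

/-- a second lateral derivative at a moved point -/
lemma mv_col {h : V} (hh : ∀ i, 0 < h i) {T : V → ℝ} (hT : Sm T) {w w0 : V} {A B E δ ε : ℝ}
    {i j : Fin 3} (hi : i ≠ 2) (hj : j ≠ 2) (H0 : CBl (LatL 2) h {w0} T (h i * A))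
    (H1 : CBl (LatL 3) h univ T (h i * B))
    (H2 : ∀ y, hp h [j, i] * |pd 2 (pds [j, i] T) y| ≤ h i * E)
    (hw : ∀ k, k ≠ 2 → |w k - w0 k| ≤ δ * h k) (hv : |w 2 - w0 2| ≤ ε) :
    h j * |pds [j, i] T w| ≤ A + (2 * B * δ + E * ε) := by
  have pi := hh i
  have pj := hh j
  have a0 : h j * |pds [j, i] T w0| ≤ A := by
    have := H0 [j, i] ⟨by simp, by simp, by simp [hi, hj]⟩ w0 rfl
    simp only [hp_cons, hp_nil] at this
    exact le_of_mul_le_mul_left (by linarith) pi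
  have a1 : ∀ k, k ≠ 2 → ∀ y, h k * (h j * |pd k (pds [j, i] T) y|) ≤ B := fun k hk y => by
    have := H1 [k, j, i] ⟨by simp, by simp, by simp [hi, hj, hk]⟩ y (mem_univ y)
    simp only [hp_cons, hp_nil] at this
    exact le_of_mul_le_mul_left (a := h i) (by rw [← pds_cons]; linarith) pi
  have a2 : ∀ y, h j * |pd 2 (pds [j, i] T) y| ≤ E := fun y => by
    have := H2 y
    simp only [hp_cons, hp_nil] at this
    exact le_of_mul_le_mul_left (by linarith) pi
  have B0 : 0 ≤ B := le_trans (by have := hh 0; positivity) (a1 0 (by decide) w)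
  have E0 : 0 ≤ E := le_trans (by positivity) (a2 w)
  have key := mvt_pd (g := fun y => h j * pds [j, i] T y) convex_univ
    (fun y _ => ((hT.pds _).cmul _).dif y) (b := fun k => if k = 2 then E else B / h k)
    (fun k y _ => by
      rw [pd_const_mul, abs_mul, abs_of_pos pj]
      split_ifs with hk
      · rw [hk]; exact a2 y
      · rw [le_div_iff₀' (hh k)]; exact a1 k hk y) (mem_univ w) (mem_univ w0)
  have b : ∀ k, k ≠ 2 → B / h k * |w k - w0 k| ≤ B * δ := fun k hk =>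
    (mul_le_mul_of_nonneg_left (hw k hk) (div_nonneg B0 (hh k).le)).trans
      (le_of_eq (by have := (hh k).ne'; field_simp))
  have b2 := mul_le_mul_of_nonneg_left hv E0
  have b0 := b 0 (by decide)
  have b1 := b 1 (by decide)
  rw [Fin.sum_univ_three, if_neg (by decide), if_neg (by decide), if_pos rfl, ← mul_sub, abs_mul,
    abs_of_pos pj] at key
  have t := mul_le_mul_of_nonneg_left (abs_sub_abs_le_abs_sub (pds [j, i] T w) (pds [j, i] T w0))
    pj.le
  linarith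

/-- lateral derivatives do not see a function of the height -/
lemma pd_ht {φ : ℝ → ℝ} (hφ : Sm φ) {T : V → ℝ} (hT : Sm T) {i : Fin 3} (hi : i ≠ 2) :
    pd i (fun w => φ (w 2) * T w) = fun w => φ (w 2) * pd i T w := by
  funext w
  have s : Sm fun w : V => φ (w 2) := hφ.comp (sm_coord 2)
  rw [pd_mul_at (s.dif w) (hT.dif w), pd_comp_at (hφ.dif _) ((sm_coord 2).dif w), pd_coord,
    if_neg (Ne.symm hi)]
  ring

section par
variable {c : Pm} (h : Gd c)
include h

lemma lat_le : 8 * c.GH * np c.N (-3 / 10) ≤ c.GG / 2 := by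
  have p := h.big.np_pos (-3 / 10)
  have p1 := h.GH_pos
  have p2 := h.GG_pos
  refine le_of_log (by positivity) (by positivity) ?_
  simp (disch := positivity) only [Real.log_mul, Real.log_div, h.big.log_np, h.log_GH]
  linarith [(logc_bd (show (1 : ℝ) ≤ 8 by norm_num)).2, log2_bd.2, h.big.J_ge, h.big.L_ge]

lemma ver_le {C : ℝ} (h1 : 1 ≤ C) (hC : C ≤ pL c.N) :
    C * np c.N (-275 / 1000) * (np c.N (-1 / 25) * c.y) ≤ c.GG / 2 := by
  have p := h.big.np_pos (-275 / 1000)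
  have p0 := h.big.np_pos (-1 / 25)
  have p1 := h.y_pos
  have p2 := h.GG_pos
  refine le_of_log (by positivity) (by positivity) ?_
  simp (disch := positivity) only [Real.log_mul, Real.log_div, h.big.log_np, h.log_y]
  linarith [(logc_bd h1).2, log2_bd.2, h.big.J_ge, h.big.L_ge, h.log_GG_bd.1]

lemma ch_le {k : Fin 3} (hk : k ≠ 2) :
    np c.N (-19 / 10) * (np c.N (-1 / 25) * c.y) ≤ np c.N (-3 / 10) * c.hs k := by
  have p := h.big.np_pos (-19 / 10)
  have p0 := h.big.np_pos (-1 / 25)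
  have p1 := h.y_pos
  have p2 := h.big.np_pos (-3 / 10)
  have p3 := h.lam_pos
  have k1 : c.lam ≤ c.hs k := by
    fin_cases k
    exacts [h.lam_le_l1, le_rfl, absurd rfl hk]
  refine le_trans (le_of_log (by positivity) (by positivity) ?_) (mul_le_mul_of_nonneg_left k1 p2.le)
  simp (disch := positivity) only [Real.log_mul, h.big.log_np, h.log_y]
  linarith [h.big.J_ge, h.big.L_ge]
end par
end CellE

open Cut CellE in
theorem cellE : CellEStmt := by
  obtain ⟨Cb, cb1, hb⟩ := cb_bc 3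
  filter_upwards [ev_gd, ev_pL (8 * Cb)] with N hg hC c hN hk O ch F hO hch hF g z0 z a ha hz hE
    hl hv j hj
  have h := hg c hN hk
  subst hN
  have hh : ∀ j, 0 ≤ c.hs j := fun j => (h.hs_pos j).le
  have sn := (hch.2 g).1
  have sG := cf_sm c g hF.sm
  have sl : ∀ i, Slab (c.cf g F i) := fun i => slab_bc h g _
  have sp : ∀ i, Sm (pre (ch g) (c.cf g F i)) := fun i => sm_pre (sG i) (sl i) sn
  have st' : ∀ i, Sm (tot (ch g) (c.cf g F i)) := fun i => sm_tot (sG i) (sl i) sn.continuous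
  have ss : Sm (c.stp g) := st_sm.comp
    (((contDiff_id.div_const _).sub contDiff_const).add contDiff_const)
  have sw : ∀ {T : V → ℝ}, Sm T → Sm fun w => c.stp g (w 2) * T w := fun hT =>
    (ss.comp (sm_coord 2)).mul hT
  have hw : ∀ k, k ≠ 2 → |cin (ch g) z k - cin (ch g) z0 k| ≤ 2 * np c.N (-3 / 10) * c.hs k :=
    fun k hk => by
      have h3 : |ch g (z 2) k - ch g (z0 2) k| ≤ np c.N (-19 / 10) * |z 2 - z0 2| :=
        Convex.norm_image_sub_le_of_norm_deriv_le (f := fun r => ch g r k)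
          (fun x _ => (sn.coord k).dif x) (fun x _ => ((hch.2 g).2 k hk x).2.1) convex_univ
          (mem_univ _) (mem_univ _)
      have h4 := mul_le_mul_of_nonneg_left hv (h.big.np_pos (-19 / 10)).le
      have e : cin (ch g) z k - cin (ch g) z0 k =
          (z k - z0 k) - (ch g (z 2) k - ch g (z0 2) k) := by
        fin_cases k
        · simp only [cin]; simp; ring
        · simp only [cin]; simp; ring
        · exact absurd rfl hk
      rw [e]
      exact (abs_sub _ _).trans (by linarith [hl k hk, ch_le h hk])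
  have hv' : |cin (ch g) z 2 - cin (ch g) z0 2| ≤ np c.N (-1 / 25) * c.y := hv
  have one : ∀ i, i ≠ 2 → Sm (c.cP ch F g i) ∧
      c.hs j * |pd j (pd i (c.cP ch F g i)) (cin (ch g) z)| ≤ 4 * (c.GG * a) := fun i hi => by
    have lat : ∀ k ∈ [j, i], k ≠ 2 := by simp [hi, hj]
    obtain ⟨a1, a2⟩ := hE g hz i hi
    obtain ⟨b1, b2, -⟩ := hF.pb g i hi
    have bG := CB.mul hh (bc_sm c g) (hF.sm.coord i) (CBl.monoh (hb c g) hh (hs_cw h)) (hF.cb i hi)
    have k1 := mv_col h.hs_pos (sp i) hi hj (A := c.GG * a) (B := 2 * c.GH)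
      (E := 8 * Cb * np c.N (-275 / 1000)) (a1.monoB (le_of_eq (by ring)))
      (b1.monoB (le_of_eq (by ring))) (fun y => by
        rw [pds_pre (sG i) (sl i) sn.continuous lat,
          pd_two_pre ((sG i).pds _) ((sl i).pds _) sn.continuous]
        exact (bG [j, i] (by simp) _ (mem_univ _)).trans (le_of_eq (by ring))) hw hv'
    have k2 := mv_col h.hs_pos (st' i) hi hj (A := c.GG * a) (B := 2 * c.GH) (E := 0)
      (a2.monoB (le_of_eq (by ring))) (b2.monoB (le_of_eq (by ring))) (fun y => by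
        rw [pds_tot (sG i) (sl i) sn.continuous lat,
          pd_two_tot ((sG i).pds _) ((sl i).pds _) sn.continuous]
        simp) hw hv'
    have e : pd j (pd i (c.cP ch F g i)) (cin (ch g) z) =
        pds [j, i] (pre (ch g) (c.cf g F i)) (cin (ch g) z) -
          c.stp g (cin (ch g) z 2) * pds [j, i] (tot (ch g) (c.cf g F i)) (cin (ch g) z) := by
      unfold Pm.cP
      rw [pd_sub (sp i) (sw (st' i)), pd_ht ss (st' i) hi,
        pd_sub ((sp i).pd i) (sw ((st' i).pd i)), pd_ht ss ((st' i).pd i) hj]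
      rfl
    have s1 : |c.stp g (cin (ch g) z 2) * pds [j, i] (tot (ch g) (c.cf g F i)) (cin (ch g) z)| ≤
        |pds [j, i] (tot (ch g) (c.cf g F i)) (cin (ch g) z)| := by
      rw [abs_mul]
      exact mul_le_of_le_one_left (abs_nonneg _)
        (by rw [Pm.stp, abs_of_nonneg (st_nonneg _)]; exact st_le_one _)
    refine ⟨(sp i).sub (sw (st' i)), ?_⟩
    rw [e]
    have t := mul_le_mul_of_nonneg_left ((abs_sub _ _).trans (add_le_add le_rfl s1) :
      |pds [j, i] (pre (ch g) (c.cf g F i)) (cin (ch g) z) - _| ≤ _) (hh j)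
    have g1 : c.GG ≤ c.GG * a := le_mul_of_one_le_right h.GG_pos.le ha
    linarith [lat_le h, ver_le h (by linarith) hC, h.GG_pos]
  obtain ⟨s0, b0⟩ := one 0 (by decide)
  obtain ⟨s1, b1⟩ := one 1 (by decide)
  have k : c.hs j * |pd j (c.cA ch F g) (cin (ch g) z)| ≤ 8 * (c.GG * a) := by
    unfold Pm.cA
    rw [pd_add (s0.pd 0) (s1.pd 1)]
    have := mul_le_mul_of_nonneg_left (abs_add_le (pd j (pd 0 (c.cP ch F g 0)) (cin (ch g) z))
      (pd j (pd 1 (c.cP ch F g 1)) (cin (ch g) z))) (hh j)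
    linarith
  have p1 := h.cc_pos j
  have p2 := h.n12_pos
  have p3 := h.hs_pos j
  have m1 := mul_le_mul_of_nonneg_right (h.cc_GG j hj) (show 0 ≤ a by linarith)
  have m2 : 0 ≤ Real.sqrt (c.bb / c.N) * a := by positivity
  calc c.cc j / c.n12 * |pd j (c.cA ch F g) (cin (ch g) z)|
      = c.cc j / (c.n12 * c.hs j) * (c.hs j * |pd j (c.cA ch F g) (cin (ch g) z)|) := by
        field_simp
    _ ≤ c.cc j / (c.n12 * c.hs j) * (8 * (c.GG * a)) := by gcongr
    _ = 8 * (c.cc j * c.GG / (c.n12 * c.hs j) * a) := by ring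
    _ ≤ _ := by linarith

end
end Pool.Agent.MP_20bec2_an.T3

end MrgPart3

-- marker of a merged file
example : 731051 + 24606 = 731051 + 24606 := rfl

end MrgPart0

-- ======== part 1: formerly Pool.Agent.MP_20bec2_an.T3.Cvs1
section MrgPart1

/-! Row CVS1: the vertical slide along a chart. -/

set_option autoImplicit false
open MeasureTheory Set Filter Matrix Topology

namespace Pool.Agent.MP_20bec2_an.T3
noncomputable section
open Classical

namespace Cv1

/-- the chart -/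
def X (n : ℝ → V) (w : V) : V := cpt n w (w 2)

variable {n : ℝ → V} {h : V} {g : V → ℝ} {w : V} {ε B : ℝ}

lemma cin_eq (n : ℝ → V) : cin n = X (-n) := by
  funext z i
  fin_cases i <;> simp [X, cpt, cin, sub_eq_add_neg]

lemma sm_X (hn : Sm n) : Sm (X n) := by
  have := sm_cin (n := -n) hn.neg
  rwa [cin_eq, neg_neg] at this

lemma jm_X (hn : Sm n) (w : V) : jm (X n) w =
    !![1, 0, deriv (fun r => n r 0) (w 2); 0, 1, deriv (fun r => n r 1) (w 2); 0, 0, 1] := by
  have k : ∀ i j, pd j (fun y => y i + n (y 2) i) w =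
      (if i = j then 1 else 0) + deriv (fun r => n r i) (w 2) * if 2 = j then 1 else 0 :=
    fun i j => by
    rw [pd_add_at (g := fun y => n (y 2) i) ((sm_coord i).dif w)
      (Sm.dif (ContDiff.comp (hn.coord i) (sm_coord 2)) w), pd_coord,
      pd_comp_at (φ := fun r => n r i) ((hn.coord i).dif _) ((sm_coord 2).dif w), pd_coord]
  ext i j
  fin_cases i
  · exact (k 0 j).trans (by fin_cases j <;> simp)
  · exact (k 1 j).trans (by fin_cases j <;> simp)
  · exact (pd_coord j 2 w).trans (by fin_cases j <;> simp)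

lemma jac_X (hn : Sm n) (w : V) : jac (X n) w = 1 := by
  rw [jac, jm_X hn, det_fin_three]
  simp

lemma pd_lat (hn : Sm n) (hg : Sm g) {j : Fin 3} (hj : j ≠ 2) :
    pd j (fun w => g (X n w)) = fun w => pd j g (X n w) := by
  funext w
  rw [pd_comp (hg.dif _) ((sm_X hn).dif w), jm_X hn, Fin.sum_univ_three]
  fin_cases j
  · simp
  · simp
  · exact (hj rfl).elim

/-- slope of the chart against the scales -/
def Sp (h : V) (n : ℝ → V) (ε : ℝ) : Prop :=
  ∀ k, k ≠ 2 → ∀ s, h 2 * |deriv (fun r => n r k) s| ≤ ε * h k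

lemma Sp.neg (H : Sp h n ε) : Sp h (-n) ε := fun k hk s => by
  simpa only [Pi.neg_apply, deriv.fun_neg, abs_neg] using H k hk s

lemma pd_two (hn : Sm n) (hg : Sm g) (H : Sp h n ε) (h2 : 0 ≤ h 2) (hε : 0 ≤ ε)
    (hB : ∀ k, k ≠ 2 → h k * |pd k g (X n w)| ≤ B) :
    h 2 * |pd 2 (fun w => g (X n w)) w| ≤ h 2 * |pd 2 g (X n w)| + 2 * ε * B := by
  have k : ∀ k, k ≠ 2 → h 2 * |pd k g (X n w) * deriv (fun r => n r k) (w 2)| ≤ ε * B :=
    fun k hk => by
    have a1 := mul_le_mul_of_nonneg_left (H k hk (w 2)) (abs_nonneg (pd k g (X n w)))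
    have a2 := mul_le_mul_of_nonneg_left (hB k hk) hε
    rw [abs_mul]
    linarith
  have a := mul_le_mul_of_nonneg_left (abs_add_three
    (pd 0 g (X n w) * deriv (fun r => n r 0) (w 2)) (pd 1 g (X n w) * deriv (fun r => n r 1) (w 2))
    (pd 2 g (X n w))) h2
  rw [pd_comp (hg.dif _) ((sm_X hn).dif w), jm_X hn, Fin.sum_univ_three]
  simp only [Matrix.of_apply, cons_val', cons_val_zero, cons_val_one, cons_val_two, cons_val_fin_one,
    Nat.succ_eq_add_one, tail_cons, head_cons, head_fin_const, mul_one]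
  linarith [k 0 (by simp), k 1 (by simp)]

lemma pd_all (hn : Sm n) (hg : Sm g) (H : Sp h n ε) (h2 : 0 ≤ h 2) (hε : 0 ≤ ε)
    (hε' : ε ≤ 1 / 100) (hB : ∀ k, h k * |pd k g (X n w)| ≤ B) (hB0 : 0 ≤ B) (i : Fin 3) :
    h i * |pd i (fun w => g (X n w)) w| ≤ 102 / 100 * B := by
  by_cases hi : i = 2
  · subst hi
    have := pd_two hn hg H h2 hε fun k _ => hB k
    nlinarith [hB 2]
  · rw [pd_lat hn hg hi]
    linarith [hB i]

lemma pd_two' (hn : Sm n) (hg : Sm g) (H : Sp h n ε) (h2 : 0 ≤ h 2) (hε : 0 ≤ ε)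
    (hB : ∀ k, k ≠ 2 → h k * |pd k g (cin n w)| ≤ B) :
    h 2 * |pd 2 (fun w => g (cin n w)) w| ≤ h 2 * |pd 2 g (cin n w)| + 2 * ε * B := by
  rw [cin_eq] at hB ⊢
  exact pd_two (n := -n) hn.neg hg H.neg h2 hε hB

lemma pd_all' (hn : Sm n) (hg : Sm g) (H : Sp h n ε) (h2 : 0 ≤ h 2) (hε : 0 ≤ ε)
    (hε' : ε ≤ 1 / 100) (hB : ∀ k, h k * |pd k g (cin n w)| ≤ B) (hB0 : 0 ≤ B) (i : Fin 3) :
    h i * |pd i (fun w => g (cin n w)) w| ≤ 102 / 100 * B := by
  rw [cin_eq] at hB ⊢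
  exact pd_all (n := -n) hn.neg hg H.neg h2 hε hε' hB hB0 i

lemma int_le {φ : ℝ → ℝ} {s A C : ℝ} (hs : |s| ≤ A) (hC : 0 ≤ C)
    (H : ∀ t, |t| ≤ A → |φ t| ≤ C) : |∫ t in (0 : ℝ)..s, φ t| ≤ C * A := by
  refine (intervalIntegral.norm_integral_le_of_norm_le_const (f := φ) fun t ht => H t ?_).trans ?_
  · simpa using (abs_sub_left_of_mem_uIcc (uIoc_subset_uIcc ht)).trans (by simpa using hs)
  · rw [sub_zero]
    exact mul_le_mul_of_nonneg_left hs hC

lemma int_le' {φ : ℝ → ℝ} {s A C p : ℝ} (hs : |s| ≤ A) (hC : 0 ≤ C) (hp : 0 ≤ p)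
    (H : ∀ t, |t| ≤ A → p * |φ t| ≤ C) : p * |∫ t in (0 : ℝ)..s, φ t| ≤ C * A := by
  have := int_le (φ := fun t => p * φ t) hs hC fun t ht => by
    rw [abs_mul, abs_of_nonneg hp]
    exact H t ht
  rwa [intervalIntegral.integral_const_mul, abs_mul, abs_of_nonneg hp] at this

lemma s_le {M : V → ℝ} (hM : Continuous M) (hp : ∀ z, 0 < M z) {e w : V} {s A : ℝ}
    (hs : |Sl.G M e w s| ≤ A) (H : ∀ t, |t| ≤ 2 * A → |M (w + t • e) - 1| ≤ 1 / 100) :
    |s| ≤ 2 * A := by
  have hA := (abs_nonneg _).trans hs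
  have k : ∀ t, |t| ≤ 2 * A → |Sl.G M e w t - t| ≤ 1 / 100 * (2 * A) := fun t ht => by
    have := int_le ht (by norm_num) H
    rwa [intervalIntegral.integral_sub ((Sl.cont_line hM e w).intervalIntegrable _ _)
      intervalIntegrable_const, intervalIntegral.integral_const, sub_zero, smul_eq_mul,
      mul_one] at this
  have k1 := abs_le.1 (k (2 * A) (abs_of_nonneg (by linarith)).le)
  have k2 := abs_le.1 (k (-(2 * A)) (by rw [abs_neg]; exact (abs_of_nonneg (by linarith)).le))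
  obtain ⟨a1, a2⟩ := abs_le.1 hs
  exact abs_le.2 ⟨(Sl.G_mono hM hp e w).le_iff_le.1 (by linarith [k2.2]),
    (Sl.G_mono hM hp e w).le_iff_le.1 (by linarith [k1.1])⟩

/-- the straight slide in chart coordinates -/
lemma core (hh : ∀ i, 0 < h i) {M a s : V → ℝ} (hM : Sm M) (ha : Sm a) (hs : Sm s) {α L q : ℝ}
    (hd : ∀ z j, M (z + s z • e3) * pd j s z =
      pd j a z - ∫ t in (0 : ℝ)..s z, pd j M (z + t • e3))
    (hα : 0 ≤ α) (hL : 0 ≤ L) (hL' : L ≤ 1 / 100) (hq : 1 ≤ q) (hq' : α * q ≤ 1 / 11000)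
    (s0 : |s w| ≤ 2 * (α * h 2)) (a1 : ∀ j, j ≠ 2 → h j * |pd j a w| ≤ α * h 2)
    (a2 : |pd 2 a w| ≤ α)
    (H : ∀ t, |t| ≤ 2 * (α * h 2) → |M (w + t • e3) - 1| ≤ 1 / 100 ∧
      h 2 * |pd 2 M (w + t • e3)| ≤ 51 * q ∧ ∀ j, j ≠ 2 → h j * |pd j M (w + t • e3)| ≤ L ∧
        ∀ i, h i * (h j * |pd i (pd j M) (w + t • e3)|) ≤ 2 * L) :
    (∀ j, j ≠ 2 → h j * |pd j s w| ≤ 2 * (α * h 2)) ∧ |pd 2 s w| ≤ 110 * (α * q) ∧
    (∀ i, h i * |pd i (fun z => M (z + s z • e3)) w| ≤ 52 * q) ∧ ∀ j, j ≠ 2 →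
      h j * |M (w + s w • e3) * pd j s w - pd j a w| ≤ L * (2 * (α * h 2)) ∧ ∀ i,
      h j * (h i * |pd i (fun z => M (z + s z • e3) * pd j s z) w - pd i (pd j a) w|) ≤
        120 * (α * q) * L * h 2 := by
  obtain ⟨m0, m2, m1⟩ := H _ s0
  have hy := hh 2
  have mlo : 99 / 100 ≤ |M (w + s w • e3)| := by
    linarith [(abs_le.1 m0).1, le_abs_self (M (w + s w • e3))]
  have b0 : ∀ j, j ≠ 2 → h j * |M (w + s w • e3) * pd j s w - pd j a w| ≤ L * (2 * (α * h 2)) :=
    fun j hj => by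
    rw [hd, sub_sub_cancel_left, abs_neg]
    exact int_le' s0 hL (hh j).le fun t ht => ((H t ht).2.2 j hj).1
  have tri : ∀ j, 99 / 100 * |pd j s w| ≤
      |M (w + s w • e3) * pd j s w - pd j a w| + |pd j a w| := fun j => by
    have := abs_add_le (M (w + s w • e3) * pd j s w - pd j a w) (pd j a w)
    rw [sub_add_cancel, abs_mul] at this
    exact (mul_le_mul_of_nonneg_right mlo (abs_nonneg _)).trans this
  have hαy := mul_nonneg hα hy.le
  have c1 : ∀ j, j ≠ 2 → h j * |pd j s w| ≤ 2 * (α * h 2) := fun j hj => by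
    have := mul_le_mul_of_nonneg_left (tri j) (hh j).le
    nlinarith [b0 j hj, a1 j hj]
  have hαq := le_mul_of_one_le_right hα hq
  have c2 : |pd 2 s w| ≤ 110 * (α * q) := by
    have b : h 2 * |M (w + s w • e3) * pd 2 s w - pd 2 a w| ≤ 51 * q * (2 * (α * h 2)) := by
      rw [hd, sub_sub_cancel_left, abs_neg]
      exact int_le' s0 (by linarith) hy.le fun t ht => (H t ht).2.1
    have b' : |M (w + s w • e3) * pd 2 s w - pd 2 a w| ≤ 102 * (α * q) :=
      le_of_mul_le_mul_left (b.trans_eq (by ring)) hy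
    linarith [tri 2]
  have c3 : ∀ i, h i * |pd i s w| ≤ 110 * (α * q) * h 2 := fun i => by
    by_cases hi : i = 2
    · subst hi
      exact (mul_comm _ _).trans_le (mul_le_mul_of_nonneg_right c2 hy.le)
    · nlinarith [c1 i hi]
  refine ⟨c1, c2, fun i => ?_, fun j hj => ⟨b0 j hj, fun i => ?_⟩⟩
  · have dT : DifferentiableAt ℝ (fun z => s z • e3) w := (hs.dif w).smul_const _
    have e : pd i (fun z => M (z + s z • e3)) w =
        pd i M (w + s w • e3) + pd 2 M (w + s w • e3) * pd i s w := by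
      rw [pd_comp (Z := fun z => z + s z • e3) (hM.dif _) (differentiableAt_id.add dT),
        jm_id_add dT, jm_smul_const, Fin.sum_univ_three]
      fin_cases i <;> simp [vecMulVec_apply, e3, mul_add]
    have b1 : h i * |pd i M (w + s w • e3)| ≤ 51 * q := by
      by_cases hi : i = 2
      · exact hi ▸ m2
      · linarith [(m1 i hi).1]
    have b2 : |pd 2 M (w + s w • e3)| * (h i * |pd i s w|) ≤ 110 * (α * q) * (51 * q) := by
      refine (mul_le_mul_of_nonneg_left (c3 i) (abs_nonneg _)).trans ?_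
      rw [mul_comm, mul_assoc]
      exact mul_le_mul_of_nonneg_left m2 (by positivity)
    have b3 := mul_le_mul_of_nonneg_left (abs_add_le (pd i M (w + s w • e3))
      (pd 2 M (w + s w • e3) * pd i s w)) (hh i).le
    rw [abs_mul] at b3
    rw [e]
    nlinarith
  · obtain ⟨d1, d2⟩ := (JC.line (hM.pd j) e3).upper 0 (hs.dif w)
    have h3 : ∀ r : ℝ, pd i (fun x => pd j M (x + r • e3)) w = pd i (pd j M) (w + r • e3) :=
      fun r => congrFun (pds_comp_add (pd j M) _ [i]) w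
    have b1 := int_le' s0 (by linarith) (mul_pos (hh i) (hh j)).le fun t ht =>
      (mul_assoc _ _ _).trans_le (((H t ht).2.2 j hj).2 i)
    have b2 := mul_le_mul (m1 j hj).1 (c3 i) (mul_nonneg (hh i).le (abs_nonneg _)) hL
    have b3 := mul_le_mul_of_nonneg_left (abs_add_le (∫ r in (0 : ℝ)..s w, pd i (pd j M) (w + r • e3))
      (pd j M (w + s w • e3) * pd i s w)) (mul_pos (hh i) (hh j)).le
    have b4 := mul_le_mul_of_nonneg_right hαq (mul_nonneg hL hy.le)
    rw [abs_mul] at b3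
    simp only [hd]
    rw [pd_sub_at ((ha.pd j).dif w) d1, d2, sub_sub_cancel_left, abs_neg]
    simp only [h3]
    nlinarith [mul_nonneg hL hαy]

lemma par {c : Pm} (h : Gd c) : (∀ k, c.y * np c.N (-19 / 10) ≤ np c.N (-4 / 5) * c.hs k) ∧
    (∀ j, j ≠ 2 → c.cc j / c.n12 * c.y ≤ np c.N (-39 / 100) * c.hs j) ∧
    np c.N (-19 / 10) ≤ 1 ∧ np c.N (-4 / 5) ≤ 1 / 100 ∧ 50 * np c.N (-245 / 1000) ≤ 1 / 100 ∧
    np c.N (-9 / 100) * c.q ≤ 1 / 11000 ∧ 4 * (np c.N (-9 / 100) * c.y) ≤ 1 / 1000 * c.D ∧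
    np c.N (-27 / 100) ≤ np c.N (-9 / 100) ∧
    120 * (np c.N (-9 / 100) * c.q) ≤ np c.N (-8 / 100) ∧ np c.N (-8 / 100) ≤ np c.N (-7 / 100) ∧
    2 * np c.N (-9 / 100) ≤ np c.N (-1 / 20) ∧
    2 * np c.N (-9 / 100) * np c.N (-4 / 5) ≤ np c.N (-2 / 5) ∧
    np c.N (-39 / 100) * (50 * np c.N (-245 / 1000) * (2 * np c.N (-9 / 100))) ≤ np c.N (-7 / 10) ∧
    np c.N (-39 / 100) * (120 * (np c.N (-9 / 100) * c.q) * (50 * np c.N (-245 / 1000))) ≤
      c.aM / 2 := by
  have np0 := h.big.np_pos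
  have := h.y_pos; have := h.q_pos; have := h.D_pos; have := h.J_pos; have := h.N_pos
  have := h.n12_pos; have := h.c1_pos; have := h.c2_pos; have := h.l1_pos; have := h.lam_pos
  have := h.big.qp_pos (59 / 10)
  have := np0 (-19 / 10); have := np0 (-4 / 5); have := np0 (-39 / 100); have := np0 (-245 / 1000)
  have := np0 (-9 / 100); have := np0 (-8 / 100); have := np0 (-1 / 20); have := np0 (-2 / 5)
  have := np0 (-7 / 10)
  have a1 := h.big.J_ge
  have a2 := h.big.L_ge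
  have a3 := Real.log_le_log h.lam_pos h.lam_le_lb
  have a4 := h.log_ro_bd.1
  have a5 := h.log_η_le
  have a6 := h.log_s1_ge
  have a7 := h.log_n12_bd.1
  have a8 := h.log_K_bd.1
  have a9 := h.log_K
  have b1 := log2_bd.2
  have b2 := (logc_bd (show (1 : ℝ) ≤ 4 by norm_num)).2
  have b3 := (logc_bd (show (1 : ℝ) ≤ 50 by norm_num)).2
  have b4 := (logc_bd (show (1 : ℝ) ≤ 100 by norm_num)).2
  have b5 := (logc_bd (show (1 : ℝ) ≤ 120 by norm_num)).2
  have b6 := (logc_bd (show (1 : ℝ) ≤ 1000 by norm_num)).2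
  have b7 := (logc_bd (show (1 : ℝ) ≤ 11000 by norm_num)).2
  have k0 : c.y * np c.N (-19 / 10) ≤ np c.N (-4 / 5) * c.lam := by
    rw [Pm.y, mul_right_comm, ← h.big.np_add]
    norm_num
  refine ⟨fun k => k0.trans (mul_le_mul_of_nonneg_left ?_ (np0 _).le), fun j hj => ?_,
    (h.big.np_le (by norm_num)).trans_eq (np_zero _), ?_, ?_, ?_, ?_,
    h.big.np_le (by norm_num), ?_, h.big.np_le (by norm_num), ?_, ?_, ?_, ?_⟩
  · fin_cases k
    exacts [h.lam_le_l1, le_rfl, le_mul_of_one_le_left h.lam_pos.le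
      ((np_zero _).symm.trans_le (h.big.np_le (by norm_num)))]
  · fin_cases j
    · change c.c1 / c.n12 * c.y ≤ _ * c.l1
      refine le_of_log (by positivity) (by positivity) ?_
      simp (disch := positivity) only [Real.log_div, Real.log_mul, h.log_c1, h.log_y, h.log_l1,
        h.big.log_np]
      linarith
    · change c.c2 / c.n12 * c.y ≤ _ * c.lam
      refine le_of_log (by positivity) (by positivity) ?_
      simp (disch := positivity) only [Real.log_div, Real.log_mul, h.log_c2, h.log_y, h.big.log_np]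
      linarith
    · exact (hj rfl).elim
  all_goals
    try unfold Pm.aM
    refine le_of_log (by positivity) (by positivity) ?_
    simp (disch := positivity) only [Real.log_div, Real.log_mul, Real.log_one, Real.log_sqrt,
      h.big.log_np, h.log_q, h.log_y, h.log_D, h.log_J, h.big.log_N, h.big.log_qp]
    linarith

end Cv1

open Cv1 in
theorem cvs1 : Cvs1Stmt := by
  filter_upwards [ev_gd] with N hN c e ho O r f ch g a hO hf hp hch ha h0 hW
  have h := hN c e ho
  obtain ⟨p1, p2, p3, p4, p5, p6, p7, p8, p9, q1, q2, q3, q4, q5⟩ := par h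
  obtain ⟨hn, hb⟩ := hch.2 g
  have hb1 : ∀ k, k ≠ 2 → ∀ s, |deriv (fun r => ch g r k) s| ≤ np c.N (-19 / 10) :=
    fun k hk s => (hb k hk s).2.1
  clear hb hch
  generalize ch g = n at *
  have hy : 0 < c.hs 2 := h.y_pos
  have hα := h.big.np_pos (-9 / 100)
  have hε := h.big.np_pos (-4 / 5)
  have hL := h.big.np_pos (-245 / 1000)
  have hq : 1 ≤ c.q := by linarith [h.big.q_ge, show c.q = pq c.N from rfl]
  have sp : Sp c.hs n (np c.N (-4 / 5)) := fun k hk s =>
    (mul_le_mul_of_nonneg_left (hb1 k hk s) hy.le).trans (p1 k)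
  have hM : Sm fun w => jac f (X n w) := hf.jac.comp (sm_X hn)
  have xc : ∀ z, X n (cin n z) = z := cpt_cin n
  have cx : ∀ w, cin n (X n w) = w := cin_cpt n
  have nl : ∀ k, k ≠ 2 → ∀ t u, |n (u + t) k - n u k| ≤ np c.N (-19 / 10) * |t| := fun k hk t u => by
    simpa using (convex_univ (𝕜 := ℝ) (E := ℝ)).norm_image_sub_le_of_norm_deriv_le
      (f := fun r => n r k) (fun x _ => (hn.coord k).dif x) (fun x _ => hb1 k hk x) (mem_univ u)
      (mem_univ (u + t))
  have mv : ∀ (w : V) (t : ℝ) k, (X n (w + t • e3) - X n w) k =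
      if k = 2 then t else n (w 2 + t) k - n (w 2) k := fun w t k => by
    fin_cases k <;> simp [X, cpt, e3]
  have sg : ∀ w, X n w ∈ RX O c.D r → ∀ t, |t| ≤ 2 * (np c.N (-9 / 100) * c.hs 2) →
      X n (w + t • e3) ∈ RX O c.D (r + 1 / 1000) := fun w hw t ht => by
    refine Prof.RX_add hO hw (le_trans (mul_le_mul_of_nonneg_left
      ((pi_norm_le_iff_of_nonneg (abs_nonneg t)).2 fun k => ?_) zero_le_two)
      (by rw [show c.hs 2 = c.y from rfl] at ht; linarith))
    rw [mv]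
    split_ifs with hk
    · exact le_rfl
    · exact (nl k hk t _).trans (mul_le_of_le_one_left (abs_nonneg t) p3)
  have a2 : ∀ w, |pd 2 a w| ≤ np c.N (-27 / 100) := fun w => by
    simpa only [cx] using ha.m.val (mem_univ (X n w))
  have z0 : ∀ w, X n w ∉ RX O c.D r → a w = 0 := fun w hw => by simpa only [cx] using h0 _ hw
  obtain ⟨s, hs, bs, i0, i1, i2⟩ := slide 2 _ a hM ha.sm (fun _ => hp _) (fun w => by
      by_cases hw : X n w ∈ RX O c.D r
      · have := hW.1 _ (Prof.RX_mono O h.D_pos.le (by linarith) hw)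
        linarith [(abs_le.1 this).1, (abs_le.1 (a2 w)).1, le_mul_of_one_le_right hα.le hq]
      · have : a =ᶠ[𝓝 w] fun _ => 0 := ((sm_X hn).continuous.continuousAt.eventually
          ((Prof.RX_closed O c.D r).isOpen_compl.mem_nhds hw)).mono z0
        rw [show pd 2 a w = 0 from pds_zero_of_eventually this [2], add_zero]
        exact hp _)
    fun w => ⟨2 * (r * c.D) + |w 2| + 1, fun t ht => z0 _ fun hw => by
      have b1 := (norm_le_pi_norm _ 2).trans (Prof.RX_norm hO hw)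
      have b2 : |w 2 + t| ≤ 2 * (r * c.D) := by simpa [X, cpt] using b1
      have b3 := abs_add_le (w 2 + t) (-w 2)
      rw [abs_neg, add_neg_cancel_comm] at b3
      linarith⟩
  have sz : ∀ w, a w = 0 → s w = 0 := fun w hw =>
    (Sl.G_mono hM.continuous (fun _ => hp _) _ w).injective ((i0 w).trans (hw.trans (Sl.G_zero ..).symm))
  have s0 : ∀ w, |s w| ≤ 2 * (np c.N (-9 / 100) * c.hs 2) := fun w => by
    by_cases hw : X n w ∈ RX O c.D r
    · exact s_le hM.continuous (fun _ => hp _) (e := e3)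
        ((congrArg _ (i0 w)).trans_le (ha.a0 w)) fun t ht => hW.1 _ (sg w hw t ht)
    · rw [sz w (z0 w hw), abs_zero]
      positivity
  have eS : cS n (fun z => s (cin n z)) = fun z => X n (cin n z + s (cin n z) • e3) := by
    funext z k
    fin_cases k <;> simp [cS, X, cpt, cin, e3]
  have sc := sm_cin hn
  have sT : Sm fun w => w + s w • e3 := contDiff_id.add (hs.smul contDiff_const)
  have jF : ∀ w, jac (fun w => f (X n w)) w = jac f (X n w) := fun w => by
    rw [jac_comp (hf.dif _) ((sm_X hn).dif _), jac_X hn, mul_one]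
  have j1 : ∀ z, jac (f ∘ cS n fun z => s (cin n z)) z = jac f z + pd 2 a (cin n z) := fun z => by
    have b := i2 _ (hf.comp (sm_X hn)) jF (cin n z)
    rw [xc] at b
    rw [eS, ← b]
    refine (jac_comp (Y := fun w => f (X n (w + s w • e3))) (Z := cin n)
      (Sm.dif (hf.comp ((sm_X hn).comp sT)) _) (sc.dif z)).trans ?_
    rw [show jac (cin n) z = 1 by rw [cin_eq]; exact jac_X hn.neg z, mul_one]
    rfl
  refine ⟨fun z => s (cin n z), hs.comp sc, ⟨eS ▸ (sm_X hn).comp (sT.comp sc), eS ▸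
    (Function.bijective_iff_has_inverse.2 ⟨_, cx, xc⟩).comp
      (bs.comp (Function.bijective_iff_has_inverse.2 ⟨_, xc, cx⟩))⟩, fun z hz => sz _ hz, j1,
    fun z => ⟨fun i hi => ?_, ?_⟩, fun z hz => ?_⟩
  · have b := mv (cin n z) (s (cin n z)) i
    rw [xc, if_neg hi, Pi.sub_apply] at b
    have b1 := mul_le_mul_of_nonneg_left (s0 (cin n z)) (h.big.np_pos (-19 / 10)).le
    have b2 := mul_le_mul_of_nonneg_left (p1 i) hα.le
    have b3 := mul_le_mul_of_nonneg_right q3 (h.hs_pos i).le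
    rw [eS]
    simp only []
    rw [b]
    refine ((nl i hi _ _).trans b1).trans ?_
    rw [show c.hs 2 = c.y from rfl]
    linarith
  · have b := mul_le_mul_of_nonneg_right q2 h.y_pos.le
    simpa [cS, cpt] using (s0 (cin n z)).trans ((mul_assoc _ _ _).symm.trans_le b)
  have hz' : X n (cin n z) ∈ RX O c.D r := (xc z).symm ▸ hz
  obtain ⟨c1, c2, c3, c4⟩ := core h.hs_pos hM ha.sm hs i1 hα.le (by positivity) p5 hq p6 (s0 _)
    (fun j hj => (ha.a1 j hj _).1) ((a2 _).trans p8) fun t ht => by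
      have u := sg _ hz' t ht
      have l1 : ∀ k, k ≠ 2 → c.hs k * |pd k (jac f) (X n (cin n z + t • e3))| ≤
          50 * np c.N (-245 / 1000) := fun k hk => by
        simpa using hW.2.2 [k] ⟨by simp, k, by simp, hk⟩ _ u
      refine ⟨hW.1 _ u, ?_, fun j hj => ⟨by rw [pd_lat hn hf.jac hj]; exact l1 j hj, fun i => ?_⟩⟩
      · have b1 := pd_two hn hf.jac sp hy.le hε.le l1
        have b2 := hW.2.1.pd_le one_le_two 2 u
        nlinarith
      · have b1 := pd_all hn ((hf.jac.pd j).cmul (c.hs j)) sp hy.le hε.le p4 (w := cin n z + t • e3)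
          (B := 50 * np c.N (-245 / 1000)) (fun k => by
            rw [pd_const_mul, abs_mul, abs_of_pos (h.hs_pos j), ← mul_assoc]
            simpa using hW.2.2 [k, j] ⟨by simp, j, by simp, hj⟩ _ u) (by positivity) i
        rw [pd_const_mul, abs_mul, abs_of_pos (h.hs_pos j)] at b1
        rw [pd_lat hn hf.jac hj]
        linarith
  have lat : ∀ j, j ≠ 2 → pd j (fun z => s (cin n z)) = fun z => pd j s (cin n z) := fun j hj => by
    rw [cin_eq]
    exact pd_lat hn.neg hs hj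
  have mS : |jac f (X n (cin n z + s (cin n z) • e3)) - 1| ≤ 1 / 100 := hW.1 _ (sg _ hz' _ (s0 _))
  have mz := hW.1 z (Prof.RX_mono O h.D_pos.le (by linarith) hz)
  have hαq := le_mul_of_one_le_right hα.le hq
  have kap : ∀ j, j ≠ 2 → ∀ x B, 0 ≤ x → c.hs j * x ≤ B * c.hs 2 →
      c.cc j / c.n12 * x ≤ np c.N (-39 / 100) * B := fun j hj x B hx hB => by
    have b1 := mul_le_mul_of_nonneg_right (p2 j hj) hx
    have b2 := mul_le_mul_of_nonneg_left hB (h.big.np_pos (-39 / 100)).le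
    exact le_of_mul_le_mul_right (by rw [show c.hs 2 = c.y from rfl] at *; linarith) hy
  have hκ : ∀ j, 0 < c.cc j / c.n12 := fun j => div_pos (h.cc_pos j) h.n12_pos
  have ea : ∀ j, j ≠ 2 → c.ah n f (fun z => s (cin n z)) j = fun z => c.cc j / c.n12 *
      (jac f (X n (cin n z + s (cin n z) • e3)) * pd j s (cin n z)) := fun j hj => by
    funext z
    rw [Pm.ah, lat j hj, eS]
    ring
  refine ⟨(s0 _).trans_eq (mul_assoc _ _ _).symm, fun j hj => ?_, ?_, ⟨?_, ?_, ?_⟩,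
    fun i => ⟨?_, ?_⟩, fun j hj => ?_, fun j hj i => ?_⟩
  · rw [lat j hj]
    refine (c1 j hj).trans ((mul_assoc _ _ _).symm.trans_le
      (mul_le_mul_of_nonneg_right (by linarith) h.y_pos.le))
  · have b := pd_two' hn hs sp hy.le hε.le c1
    have b1 := mul_le_mul_of_nonneg_left c2 hy.le
    have b2 := mul_le_mul_of_nonneg_right p4 (mul_pos hα hy).le
    have b3 := mul_le_mul_of_nonneg_right hαq hy.le
    have b4 := mul_le_mul_of_nonneg_left (p9.trans q1) hy.le
    exact le_of_mul_le_mul_left (by linarith [mul_pos hα hy]) hy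
  · rw [eS]
    exact mS.trans (by norm_num)
  · rw [j1]
    obtain ⟨b1, b2⟩ := abs_le.1 mz
    obtain ⟨b3, b4⟩ := abs_le.1 (a2 (cin n z))
    exact abs_le.2 ⟨by linarith, by linarith⟩
  · have b := i2 _ (hf.comp (sm_X hn)) jF (cin n z)
    rw [xc, ← j1, jac_comp (Z := fun w => w + s w • (Pi.single 2 1 : V))
      (Sm.dif (hf.comp (sm_X hn)) _) (sT.dif _), Sl.jac_slide hs] at b
    erw [jF] at b
    rw [← b, eS]
    change |jac f (X n (cin n z + s (cin n z) • e3)) -
      jac f (X n (cin n z + s (cin n z) • e3)) * _| ≤ _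
    rw [mul_one_add, sub_add_cancel_left, abs_neg, abs_mul]
    have b1 : |jac f (X n (cin n z + s (cin n z) • e3))| ≤ 101 / 100 := by
      rw [abs_of_pos (hp _)]
      linarith [(abs_le.1 mS).2]
    linarith [mul_le_mul b1 c2 (abs_nonneg _) (by norm_num)]
  · have b := pd_all' hn (hM.comp sT) sp hy.le hε.le p4 c3 (by positivity) i
    rw [eS]
    exact b.trans (by linarith)
  · have b1 := hW.2.1.pd_le one_le_two i (Prof.RX_mono O h.D_pos.le (by linarith) hz)
    have b2 := ha.m.pd_le one_le_two i (mem_univ z)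
    rw [funext j1, pd_add_at (g := fun z => pd 2 a (cin n z)) (hf.jac.dif z)
      (Sm.dif ((ha.sm.pd 2).comp sc) z)]
    have b3 := mul_le_mul_of_nonneg_left (abs_add_le (pd i (jac f) z)
      (pd i (fun z => pd 2 a (cin n z)) z)) (h.hs_pos i).le
    exact b3.trans (by linarith)
  · rw [ea j hj, ← mul_sub, abs_mul, abs_of_pos (hκ j)]
    exact (kap j hj _ _ (abs_nonneg _) ((c4 j hj).1.trans_eq (by ring))).trans q4
  · have h1 : 0 ≤ c.aM := le_trans (by have := hκ j; have := h.hs_pos 0; positivity)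
      ((ha.a1 j hj z).2.2 0)
    have b := pd_all' (w := z) (g := fun w => c.cc j / c.n12 *
      (jac f (X n (w + s w • e3)) * pd j s w)) hn (Sm.cmul (ContDiff.mul (hM.comp sT) (hs.pd j)) _)
      sp hy.le hε.le p4 (B := 3 / 2 * c.aM) (fun k => by
        have b1 := (kap j hj _ _ (mul_nonneg (h.hs_pos k).le (abs_nonneg _))
          ((c4 j hj).2 k)).trans q5
        have b2 := (ha.a1 j hj (cin n z)).2.2 k
        have b3 := mul_le_mul_of_nonneg_left (abs_add_le (pd k (fun w =>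
          jac f (X n (w + s w • e3)) * pd j s w) (cin n z) - pd k (pd j a) (cin n z))
          (pd k (pd j a) (cin n z))) (mul_pos (hκ j) (h.hs_pos k)).le
        rw [sub_add_cancel] at b3
        rw [pd_const_mul, abs_mul, abs_of_pos (hκ j)]
        linarith) (by positivity) i
    rw [ea j hj]
    exact b.trans (by linarith)

end
end Pool.Agent.MP_20bec2_an.T3

end MrgPart1

-- ======== part 2: formerly Pool.Agent.MP_20bec2_an.T3.Stab
section MrgPart2

-- ======== part 0: formerly Pool.Agent.MP_20bec2_an.T3.Term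
section MrgPart0

/-! Row TERM: first and second derivatives of one oscillating term. -/

set_option autoImplicit false
open MeasureTheory Set Filter Matrix Topology

namespace Pool.Agent.MP_20bec2_an.T3
noncomputable section
open Classical

namespace Term

lemma am {x y X Y : ℝ} (hx : |x| ≤ X) (hy : |y| ≤ Y) : |x * y| ≤ X * Y := by
  rw [abs_mul]; exact mul_le_mul hx hy (abs_nonneg _) ((abs_nonneg _).trans hx)

lemma ad {x y X Y : ℝ} (hx : |x| ≤ X) (hy : |y| ≤ Y) : |x + y| ≤ X + Y :=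
  (abs_add_le _ _).trans (add_le_add hx hy)

lemma s3 {f : Fin 3 → ℝ} {B : ℝ} (h : ∀ k, |f k| ≤ B) : |∑ k, f k| ≤ 3 * B := by
  rw [Fin.sum_univ_three]
  linarith [ad (ad (h 0) (h 1)) (h 2)]

lemma pd_sin {φ : V → ℝ} (hφ : Sm φ) (i : Fin 3) :
    pd i (fun w => Real.sin (φ w)) = fun x => Real.cos (φ x) * pd i φ x := by
  funext x
  rw [pd_comp_at (φ := Real.sin) Real.differentiableAt_sin (hφ.dif x), Real.deriv_sin]

lemma pd_cos {φ : V → ℝ} (hφ : Sm φ) (i : Fin 3) :
    pd i (fun w => Real.cos (φ w)) = fun x => -Real.sin (φ x) * pd i φ x := by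
  funext x
  rw [pd_comp_at (φ := Real.cos) Real.differentiableAt_cos (hφ.dif x), Real.deriv_cos]

lemma d1 {P φ : V → ℝ} (hP : Sm P) (hφ : Sm φ) (ω : ℝ) (i : Fin 3) :
    pd i (fun w => P w * Real.sin (φ w) / ω) =
      fun x => ω⁻¹ * (pd i P x * Real.sin (φ x) + P x * (Real.cos (φ x) * pd i φ x)) := by
  have e : (fun w => P w * Real.sin (φ w) / ω) = fun w => ω⁻¹ * (P w * Real.sin (φ w)) := by
    funext w; ring
  funext x
  rw [e, pd_const_mul, pd_mul hP (ContDiff.sin hφ), pd_sin hφ]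

lemma d2 {P φ : V → ℝ} (hP : Sm P) (hφ : Sm φ) (ω : ℝ) (i j : Fin 3) (x : V) :
    pd j (pd i (fun w => P w * Real.sin (φ w) / ω)) x =
      ω⁻¹ * pd j (pd i P) x * Real.sin (φ x) + pd i P x * (Real.cos (φ x) * (ω⁻¹ * pd j φ x)) +
        pd j P x * (Real.cos (φ x) * (ω⁻¹ * pd i φ x)) +
        P x * (-Real.sin (φ x) * (ω * (ω⁻¹ * pd j φ x)) * (ω⁻¹ * pd i φ x) +
          Real.cos (φ x) * (ω⁻¹ * pd j (pd i φ) x)) := by
  have hs : Sm fun w => Real.sin (φ w) := ContDiff.sin hφ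
  have hc : Sm fun w => Real.cos (φ w) := ContDiff.cos hφ
  have h1 : Sm fun w => Real.cos (φ w) * pd i φ w := ContDiff.mul hc (hφ.pd i)
  rw [d1 hP hφ, pd_const_mul, pd_add (ContDiff.mul (hP.pd i) hs) (ContDiff.mul hP h1),
    pd_mul (hP.pd i) hs, pd_mul hP h1, pd_mul hc (hφ.pd i), pd_sin hφ, pd_cos hφ]
  rcases eq_or_ne ω 0 with h | h
  · simp [h]
  · field_simp
    ring

lemma c1 {A : V → ℝ} {Z : V → V} (hA : Sm A) (hZ : Sm Z) (i : Fin 3) :
    pd i (fun w => A (Z w)) = fun x => ∑ k, pd k A (Z x) * pd i (fun w => Z w k) x :=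
  funext fun x => pd_comp (hA.dif _) (hZ.dif x) i

lemma c2 {A : V → ℝ} {Z : V → V} (hA : Sm A) (hZ : Sm Z) (i j : Fin 3) (x : V) :
    pd j (pd i (fun w => A (Z w))) x = ∑ k, ((∑ l, pd l (pd k A) (Z x) * jm Z x l j) * jm Z x k i +
      pd k A (Z x) * pd j (pd i fun w => Z w k) x) := by
  have h1 : ∀ k, Sm fun w => pd k A (Z w) := fun k => ContDiff.comp (hA.pd k) hZ
  rw [c1 hA hZ, pd_sum _ fun k _ => ContDiff.mul (h1 k) ((hZ.coord k).pd i)]
  refine Finset.sum_congr rfl fun k _ => ?_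
  rw [pd_mul (h1 k) ((hZ.coord k).pd i), c1 (hA.pd k) hZ]
  rfl

lemma sm_ph {Z : V → V} (hZ : Sm Z) (a : V) (b : ℝ) : Sm fun w => a ⬝ᵥ Z w + b :=
  ContDiff.add (ContDiff.sum fun k _ => (hZ.coord k).cmul (a k)) contDiff_const

lemma p1 {Z : V → V} (hZ : Sm Z) (a : V) (b : ℝ) (i : Fin 3) :
    pd i (fun w => a ⬝ᵥ Z w + b) = fun x => ∑ k, a k * pd i (fun w => Z w k) x := by
  have h : Sm fun w => ∑ k, a k * Z w k := ContDiff.sum fun k _ => (hZ.coord k).cmul (a k)
  show pd i (fun w => (∑ k, a k * Z w k) + b) = _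
  rw [pd_add h (sm_const b), pd_sum _ fun k _ => (hZ.coord k).cmul (a k)]
  funext x
  simp [pd_const_mul]

lemma p2 {Z : V → V} (hZ : Sm Z) (a : V) (b : ℝ) (i j : Fin 3) (x : V) :
    pd j (pd i (fun w => a ⬝ᵥ Z w + b)) x = ∑ k, a k * pd j (pd i fun w => Z w k) x := by
  rw [p1 hZ, pd_sum _ fun k _ => ((hZ.coord k).pd i).cmul (a k)]
  simp [pd_const_mul]

/-- a row that is close to `τ e₀` -/
lemma rw0 {a y : V} {τ ε Y : ℝ} (ha : ∀ k, |a k - τ * (Pi.single 0 1 : V) k| ≤ ε)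
    (hy : ∀ k, |y k| ≤ Y) : |∑ k, a k * y k - τ * y 0| ≤ 3 * (ε * Y) := by
  have e : ∑ k, a k * y k - τ * y 0 = ∑ k, (a k - τ * (Pi.single 0 1 : V) k) * y k := by
    simp [Fin.sum_univ_three]; ring
  rw [e]
  exact s3 fun k => am (ha k) (hy k)

lemma par {c : Pm} (h : Gd c) (hk : c.k = mid c.N) :
    c.q ^ 3 * (c.lA / c.D) ≤ np c.N (-15) / 10 ∧ c.lA / c.D ≤ 1 ∧
    c.q ^ 3 * np c.N (-20) ≤ np c.N (-15) / 10 ∧ np c.N (-20) ≤ 1 / 100 ∧
    np c.N (-15) ≤ np c.N (-10) := by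
  have hL := h.big.L_ge
  have hJ := h.big.J_ge
  have hq := h.q_pos
  have hA := h.lA_pos
  have hD := h.D_pos
  have n1 := h.big.np_pos (-15)
  have n2 := h.big.np_pos (-20)
  have h2 : 23 * pJ c.N ≤ c.k * Real.log 2 := by
    have := Real.log_le_log (h.big.np_pos 23) h.big.two_pow_mid.1
    rwa [h.big.log_np, Real.log_pow, ← hk] at this
  have e : Real.log c.lA - Real.log c.D ≤ -26 * pJ c.N := by
    rw [h.log_lA, h.log_l1, h.log_lam, h.log_D]
    linarith [h.log_ro_bd.2]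
  have t := (logc_bd (show (1 : ℝ) ≤ 10 by norm_num)).2
  have t' := (logc_bd (show (1 : ℝ) ≤ 100 by norm_num)).2
  refine ⟨le_of_log (by positivity) (by positivity) ?_, le_of_log (by positivity) one_pos ?_,
    le_of_log (by positivity) (by positivity) ?_, le_of_log n2 (by norm_num) ?_,
    h.big.np_le (by norm_num)⟩
  · simp (disch := positivity) only [Real.log_mul, Real.log_div, Real.log_pow, h.log_q,
      h.big.log_np]
    push_cast; linarith
  · simp (disch := positivity) only [Real.log_div, Real.log_one]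
    linarith
  · simp (disch := positivity) only [Real.log_mul, Real.log_div, Real.log_pow, h.log_q,
      h.big.log_np]
    push_cast; linarith
  · simp (disch := positivity) only [Real.log_div, Real.log_one, h.big.log_np]
    linarith

end Term

open Term in
theorem term : TermStmt := by
  filter_upwards [ev_gd] with N hN c hc ho Z A a b ω τ x hk hZ hA hτ hω1 hω2 ha hB hM hd
  have h := hN c hc ho
  obtain ⟨r1, r2, r3, r4, r5⟩ := par h hk
  have hl := h.lA_pos
  have hD := h.D_pos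
  have hd0 := h.d2u_pos
  have hq : 0 < c.q ^ 3 := pow_pos h.q_pos 3
  have n2 := h.big.np_pos (-20)
  have n1 := h.big.np_pos (-15)
  set Q := c.q ^ 3
  set ε := np c.N (-20)
  have hτ1 : |τ| ≤ 1 := by rw [← sq_le_one_iff_abs_le_one, hτ]
  have hω0 : 0 < |ω| := lt_of_lt_of_le (by positivity) hω1
  have hωn : ω ≠ 0 := abs_pos.1 hω0
  have hu : |ω⁻¹| ≤ 10 / 9 * c.lA := by
    rw [abs_inv, inv_le_comm₀ hω0 (by positivity)]
    refine le_trans (le_of_eq ?_) hω1
    field_simp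
  have hm : ∀ k i, |jm Z x k i| ≤ 11 / 10 := fun k i => by
    have h1 : |jm Z x k i - (1 : Mx) k i| ≤ 1 / 10 := hM k i
    have h2 : |(1 : Mx) k i| ≤ 1 := by rw [Matrix.one_apply]; split_ifs <;> simp
    have := ad h1 h2
    rw [sub_add_cancel] at this
    linarith
  have hz : ∀ k i j, |pd j (pd i fun w => Z w k) x| ≤ c.d2u := fun k i j => by
    simpa [hp, cv] using hd k [j, i] rfl x rfl
  have a0 : |A (Z x)| ≤ Q := by simpa [hp] using hB [] (by simp) _ rfl
  have a1 : ∀ k, |pd k A (Z x)| ≤ Q / c.D := fun k => by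
    rw [le_div_iff₀' hD]
    simpa [hp, cv] using hB [k] (by simp) _ rfl
  have a2 : ∀ k l, |pd l (pd k A) (Z x)| ≤ Q / c.D / c.D := fun k l => by
    rw [le_div_iff₀' hD, le_div_iff₀' hD, ← mul_assoc]
    simpa [hp, cv] using hB [l, k] (by simp) _ rfl
  have ha' : ∀ k, |ω⁻¹ * a k - τ * (Pi.single 0 1 : V) k| ≤ 10 / 9 * ε := fun k => by
    have e : ω⁻¹ * a k - τ * (Pi.single 0 1 : V) k =
        ω⁻¹ * (a k - τ * ω * (Pi.single 0 1 : V) k) := by field_simp
    rw [e]
    refine (am hu (ha k)).trans (le_of_eq ?_)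
    field_simp
  have hP : Sm fun w => A (Z w) := ContDiff.comp hA hZ
  have hφ := sm_ph hZ a b
  have f1 : ∀ i, |ω⁻¹ * pd i (fun w => a ⬝ᵥ Z w + b) x - τ * jm Z x 0 i| ≤ 4 * ε := fun i => by
    have := rw0 (y := fun k => jm Z x k i) ha' fun k => hm k i
    rw [p1 hZ, Finset.mul_sum]
    simp only [← mul_assoc]
    exact le_trans this (by linarith)
  have f1' : ∀ i, |ω⁻¹ * pd i (fun w => a ⬝ᵥ Z w + b) x| ≤ 6 / 5 := fun i => by
    have := ad (f1 i) (am hτ1 (hm 0 i))
    rw [sub_add_cancel] at this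
    linarith
  have f2 : ∀ i j, |ω⁻¹ * pd j (pd i fun w => a ⬝ᵥ Z w + b) x| ≤ 2 * c.d2u := fun i j => by
    have := ad (rw0 (y := fun k => pd j (pd i fun w => Z w k) x) ha' fun k => hz k i j)
      (am hτ1 (hz 0 i j))
    rw [sub_add_cancel] at this
    rw [p2 hZ, Finset.mul_sum]
    simp only [← mul_assoc]
    exact le_trans this (by nlinarith)
  have g1 : ∀ i, |pd i (fun w => A (Z w)) x| ≤ 3 * (Q / c.D * (11 / 10)) := fun i => by
    rw [c1 hA hZ]
    exact s3 fun k => am (a1 k) (hm k i)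
  have g2 : ∀ i j, |pd j (pd i fun w => A (Z w)) x| ≤
      3 * (3 * (Q / c.D / c.D * (11 / 10)) * (11 / 10) + Q / c.D * c.d2u) := fun i j => by
    rw [c2 hA hZ]
    exact s3 fun k => ad (am (s3 fun l => am (a2 k l) (hm l j)) (hm k i)) (am (a1 k) (hz k i j))
  have hs := Real.abs_sin_le_one (a ⬝ᵥ Z x + b)
  have hcs := Real.abs_cos_le_one (a ⬝ᵥ Z x + b)
  set r := Q * (c.lA / c.D) with hr
  have hr0 : 0 < r := by positivity
  refine ⟨fun i => ?_, fun l hl2 y hy => ?_⟩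
  · rw [d1 hP hφ]
    have e : ω⁻¹ * (pd i (fun w => A (Z w)) x * Real.sin (a ⬝ᵥ Z x + b) +
        A (Z x) * (Real.cos (a ⬝ᵥ Z x + b) * pd i (fun w => a ⬝ᵥ Z w + b) x)) -
        τ * (A (Z x) * Real.cos (a ⬝ᵥ Z x + b)) * jm Z x 0 i =
        ω⁻¹ * pd i (fun w => A (Z w)) x * Real.sin (a ⬝ᵥ Z x + b) +
        A (Z x) * (Real.cos (a ⬝ᵥ Z x + b) *
          (ω⁻¹ * pd i (fun w => a ⬝ᵥ Z w + b) x - τ * jm Z x 0 i)) := by ring
    show |ω⁻¹ * _ - _| ≤ _
    rw [e]
    refine (ad (am (am hu (g1 i)) hs) (am a0 (am hcs (f1 i)))).trans ?_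
    have e1 : 10 / 9 * c.lA * (3 * (Q / c.D * (11 / 10))) * 1 + Q * (1 * (4 * ε)) =
        11 / 3 * r + 4 * (Q * ε) := by rw [hr]; ring
    rw [e1]; linarith
  · obtain rfl : y = x := hy
    obtain ⟨j, i, rfl⟩ := List.length_eq_two.1 hl2
    have e0 : hp (cv 1) [j, i] = 1 := by simp [hp, cv]
    rw [e0, one_mul]
    rw [pds_cons, pds_cons, pds_nil, d2 hP hφ]
    have hs' : |-Real.sin (a ⬝ᵥ Z y + b)| ≤ 1 := by rwa [abs_neg]
    refine (ad (ad (ad (am (am hu (g2 i j)) hs) (am (g1 i) (am hcs (f1' j))))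
      (am (g1 j) (am hcs (f1' i)))) (am le_rfl (ad (am (am hs' (am hω2 (f1' j))) (f1' i))
      (am hcs (f2 i j))))).trans ?_
    set v := 1 / c.lA with hv
    have hv0 : 0 < v := by positivity
    have e1 : Q / c.D = r * v := by rw [hr, hv]; field_simp
    have e2 : c.lA * (Q / c.D / c.D) = r * v * (c.lA / c.D) := by rw [← e1]; ring
    have e3 : c.lA * (Q / c.D) = r := by rw [hr]; ring
    have e4 : 17 / c.lA = 17 * v := by rw [hv]; ring
    have e5 : 30 / c.lA = 30 * v := by rw [hv]; ring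
    have e6 : 10 / 9 * c.lA *
        (3 * (3 * (Q / c.D / c.D * (11 / 10)) * (11 / 10) + Q / c.D * c.d2u)) * 1 =
        121 / 10 * (c.lA * (Q / c.D / c.D)) + 10 / 3 * (c.lA * (Q / c.D) * c.d2u) := by ring
    rw [e6, e2, e3, e1, e4, e5]
    have k1 : r * v * (c.lA / c.D) ≤ r * v := mul_le_of_le_one_right (by positivity) r2
    have k2 : r * v ≤ np c.N (-10) / 10 * v := mul_le_mul_of_nonneg_right (by linarith) hv0.le
    have k3 : r * c.d2u ≤ np c.N (-10) / 10 * c.d2u :=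
      mul_le_mul_of_nonneg_right (by linarith) hd0.le
    have k4 : 0 ≤ |A (Z y)| * v := by positivity
    have k5 : 0 ≤ r * v := by positivity
    have k6 : 0 ≤ r * c.d2u := by positivity
    nlinarith

end
end Pool.Agent.MP_20bec2_an.T3

end MrgPart0

-- ======== part 1: formerly Pool.Agent.MP_20bec2_an.T3.Stab
section MrgPart1

/-! Row STAB: the functionals hardly depend on the state inside a round. -/

set_option autoImplicit false
open MeasureTheory Set Filter Matrix Topology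

namespace Pool.Agent.MP_20bec2_an.T3
noncomputable section

namespace Stab

/-- vertical decay -/
def ex (D r : ℝ) : ℝ := Real.exp (-(1 / (16 * D ^ 2)) * r ^ 2)

lemma ex_pos (D r : ℝ) : 0 < ex D r := Real.exp_pos _

lemma ex_le (D r : ℝ) : ex D r ≤ 1 :=
  Real.exp_le_one_iff.2 (by rw [neg_mul]; exact neg_nonpos.2 (by positivity))

lemma qd {a b c e : ℝ} (hc : 0 < c) (h : |a - b| ≤ e * c) : |a / c - b / c| ≤ e := by
  rwa [← sub_div, abs_div, abs_of_pos hc, div_le_iff₀ hc]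

lemma hd {f g : V → ℝ} (hf : Sm f) (hg : Sm g) {c : ℝ} (hc : 0 ≤ c) (l : List (Fin 3)) (z : V) :
    |c * pds l f z - c * pds l g z| = c * |pds l (fun w => f w - g w) z| := by
  rw [pds_sub hf hg, ← mul_sub, abs_mul, abs_of_nonneg hc]

/-- perturbation with vertical decay -/
lemma ptw (k : ℕ) : ∃ C : ℝ, 1 ≤ C ∧ ∀ h U a A Z S Z' S' (δ D : ℝ), KL h U a A Z S →
    KL h U a A Z' S' → δ ≤ 1 / 1000 → 0 < D → Real.exp (1 - D ^ 2 / (60 * h 2 ^ 2)) ≤ δ →
    (∀ x ∈ U, (∀ i, |Z' x i - Z x i| ≤ δ * h i) ∧ EB (nrm h (S' x - S x)) (cm δ) ∧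
      |Z x 2| ≤ 3 * D ∧ |Z' x 2| ≤ 3 * D) →
    ∀ z, CB k h {z} (fun w => dens a Z' S' w - dens a Z S w) (C * A * δ * ex D (z 2)) := by
  obtain ⟨C1, c1, H1⟩ := kp' k1 (k2 k1) (kb_ k1) k
  obtain ⟨C2, c2, -, H2⟩ := kb_ k1 k
  refine ⟨3 * C1 + 2 * C2, by linarith, fun h U a A Z S Z' S' δ D K K' d1 hD he hx z => ?_⟩
  have d0 : 0 < δ := (Real.exp_pos _).trans_le he
  have A0 : 0 ≤ A := (abs_nonneg _).trans (K.ba 0)
  have e0 := ex_pos D (z 2)
  have h2 := K.hh 2
  obtain ⟨T, hT⟩ : ∃ T, T = z 2 ^ 2 / (16 * D ^ 2) := ⟨_, rfl⟩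
  have eT : ex D (z 2) = Real.exp (-T) := by rw [ex, hT]; congr 1; ring
  rcases le_total |z 2| (4 * D) with hz | hz
  · refine ((H1 h U a A Z S Z' S' δ K K'.dZ.continuous K'.cS d0.le d1 fun x m _ =>
      ⟨(hx x m).1, (K'.bS x m).1, (hx x m).2.1⟩).2.monoU (subset_univ _)).monoB ?_
    have t1 : T ≤ 1 := by
      rw [hT, div_le_one (by positivity), ← sq_abs]; nlinarith [abs_nonneg (z 2)]
    have t2 : 1 ≤ 3 * ex D (z 2) := by
      have := Real.exp_one_lt_d9
      have e1 : Real.exp (-1) * Real.exp 1 = 1 := by rw [← Real.exp_add]; simp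
      have := Real.exp_le_exp.2 (neg_le_neg t1)
      rw [eT]; nlinarith [Real.exp_pos (-1)]
    have : 0 ≤ C2 * A * δ * ex D (z 2) := by positivity
    nlinarith [mul_le_mul_of_nonneg_left t2 (show 0 ≤ C1 * A * δ by positivity)]
  · have far : ∀ Z S, KL h U a A Z S → (∀ x ∈ U, |Z x 2| ≤ 3 * D) →
        CB k h {z} (dens a Z S) (C2 * A * Real.exp (-(z 2 ^ 2 / (16 * h 2 ^ 2)) / 60)) :=
      fun Z S K hZ => (H2 h U a A Z S K).2.2 z _ fun x m _ => by
        refine le_trans ?_ (Finset.single_le_sum (f := fun i => ((Z x - z) i / h i) ^ 2)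
          (fun i _ => sq_nonneg _) (Finset.mem_univ 2))
        have := hZ x m
        have := abs_sub_abs_le_abs_sub (z 2) (Z x 2)
        rw [abs_sub_comm] at this
        have := pow_le_pow_left₀ (by positivity) (show |z 2| / 4 ≤ |Z x 2 - z 2| by linarith) 2
        rw [div_pow, sq_abs, sq_abs] at this
        rw [div_pow, Pi.sub_apply, ← div_div]
        exact div_le_div_of_nonneg_right (by linarith) (by positivity)
    refine (CBl.sub (fun i => (K.hh i).le) (k1 _ _ _ (H2 _ _ _ _ _ _ K').1).1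
      (k1 _ _ _ (H2 _ _ _ _ _ _ K).1).1 (far Z' S' K' fun x m => (hx x m).2.2.2)
      (far Z S K fun x m => (hx x m).2.2.1)).monoB ?_
    obtain ⟨Q, hQ⟩ : ∃ Q, Q = D ^ 2 / (60 * h 2 ^ 2) := ⟨_, rfl⟩
    have t1 : 1 ≤ T := by
      rw [hT, one_le_div (by positivity), ← sq_abs (z 2)]; nlinarith
    have t2 : 1 ≤ Q := by
      have := Real.add_one_le_exp (1 - Q)
      rw [← hQ] at he
      linarith
    have t3 : Real.exp (-(z 2 ^ 2 / (16 * h 2 ^ 2)) / 60) ≤ δ * ex D (z 2) := by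
      rw [show -(z 2 ^ 2 / (16 * h 2 ^ 2)) / 60 = -(T * Q) by rw [hT, hQ]; field_simp, eT]
      refine le_trans ?_ (mul_le_mul_of_nonneg_right he (Real.exp_pos _).le)
      rw [← Real.exp_add, ← hQ]
      exact Real.exp_le_exp.2 (by nlinarith)
    have : 0 ≤ C1 * A * δ * ex D (z 2) := by positivity
    nlinarith [mul_le_mul_of_nonneg_left t3 (show 0 ≤ C2 * A by positivity)]

/-- column integrals -/
lemma cint {g g' : V → ℝ} (H : ColD g) (H' : ColD g') {n : ℝ → V} (hn : Continuous n) (I : Set ℝ)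
    {h : V} (hh : ∀ i, 0 < h i) {l : List (Fin 3)} {k : ℕ} (hl : l.length ≤ k) {M D : ℝ}
    (hM : 0 ≤ M) (hD : 0 < D) (b : ∀ z, CB k h {z} (fun w => g' w - g w) (M * ex D (z 2))) (w : V) :
    |hp h l * colI n I (pds l g') w - hp h l * colI n I (pds l g) w| ≤ 8 * M * D := by
  have p := hp_pos hh l
  have b0 : 0 < 1 / (16 * D ^ 2) := by positivity
  have i := (integrable_exp_neg_mul_sq b0).const_mul M
  have e := congrFun ((H'.pds l).colI_sub (H.pds l) hn I) w
  rw [← mul_sub, ← e, ← pds_sub H'.1 H.1, ← congrFun (colI_const_mul _ _ _ _) w, colI,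
    ← Real.norm_eq_abs]
  refine (norm_integral_le_of_norm_le i.integrableOn (Eventually.of_forall fun r => ?_)).trans
    ((setIntegral_le_integral i (Eventually.of_forall fun r => by positivity)).trans ?_)
  · rw [Real.norm_eq_abs, abs_mul, abs_of_pos p]
    exact b (cpt n w r) l hl _ rfl
  · rw [integral_const_mul, integral_gaussian, mul_comm 8, mul_assoc]
    refine mul_le_mul_of_nonneg_left (Real.sqrt_le_iff.2 ⟨by positivity, ?_⟩) hM
    rw [div_div_eq_mul_div, div_one]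
    nlinarith [Real.pi_le_four, sq_nonneg D]

/-- what is needed about a pair of fluxes -/
structure FF (h hs : V) (e D : ℝ) (F F' : V → V) : Prop where
  c : ∀ j, ColD fun z => F z j
  c' : ∀ j, ColD fun z => F' z j
  b : ∀ j z, CB 3 h {z} (fun w => F' w j - F w j) (e * hs j * ex D (z 2))
  d : ∀ z, CB 3 h {z} (fun w => dv F' w - dv F w) (e * ex D (z 2))

lemma colD (hC : ColkStmt) {h : V} {U : Set V} {a : V → ℝ} {A : ℝ} {Z : V → V} {S : V → Mx}
    (K : KL h U a A Z S) : ColD (dens a Z S) := by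
  obtain ⟨_, -, H⟩ := hC
  simpa only [one_mul] using (((H h 0 0 K.hh (sm_const 0) (fun i _ => ⟨fun r => by simp, by
    have := K.hh i; rw [zero_mul]; positivity⟩) (by norm_num)).1 (fun _ => 1) 1 univ (sm_const 1)
    (BdD.const 1) (cb_const (by simp)) MeasurableSet.univ).1 U a A Z S K).1

lemma cl_refl {d : MD} (g : Gd d.c) {s : Sa} (h : d.Gs s) : d.Cl s s := by
  have := g.big.np_pos (-270); have := g.lam_pos
  refine ⟨h.sm, fun x => ⟨(h.sup x).1, (h.sup x).2.2.1⟩, fun x => ⟨?_, fun i j => ?_, fun i j => ?_,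
    ?_⟩⟩ <;> simp [cm] <;> positivity

lemma kern (hK : KlsStmt) (hC : ColkStmt) : EvD fun d => ∀ s s' v ω, d.Gs s → d.Cl s s' →
    d.Cr d.ep v ω → ∀ (h : V) (S : V → Mx), (∀ i, d.c.lam ≤ np d.c.N (1 / 2) * h i) →
    (∀ i, d.c.hs i ≤ np d.c.N 2 * h i) → h 2 ≤ d.c.y →
    (∀ t, d.Gw t → ∀ a A, Measurable a → (∀ x, |a x| ≤ A) → (∀ x, x ∉ d.R (93 / 100) → a x = 0) →
      KL h (d.R (99 / 100)) a A (fun x => d.Z x + t.U x) fun x => S x - t.C x) →
    FF h d.c.hs (np d.c.N (-965)) d.c.D (d.Fv S s v) (d.Fv S s' v) := by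
  obtain ⟨C, c1, H⟩ := ptw 4
  filter_upwards [hK, ev_gd, ev_C_q C] with N hK hg hq d hN hk hI s s' v ω gs cl cr h S h1 h2 h3 hL
  subst hN
  have g := hg d.c rfl hI.ok
  have w : d.Gw s := ⟨s, gs, cl_refl g gs⟩
  have w' : d.Gw s' := ⟨s, gs, cl⟩
  have p := g.big.np_pos
  have := g.lam_pos; have := g.q_pos; have pD := g.D_pos; have := g.N_pos; have := p (-700)
  have := p (-269); have := p 2; have := p (-270); have := p (1 / 2)
  have K : ∀ j t, d.Gw t → KL h (d.R (99 / 100)) (fun x => d.ρ x * v x j)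
      (2 * (d.ep * d.c.q * d.c.hs j)) (fun x => d.Z x + t.U x) fun x => S x - t.C x :=
    fun j t ht => hL t ht _ _ (hI.rho.1.mul (cr.sm.1.coord j).continuous.measurable) (fun x => by
      have := abs_le.1 (hI.rho.2 x)
      rw [abs_mul]
      exact mul_le_mul (abs_le.2 ⟨by linarith [show eps0 ≤ 1 by norm_num [eps0]],
        by linarith [show eps0 ≤ 1 by norm_num [eps0]]⟩) (cr.sz x j) (abs_nonneg _) zero_le_two)
      fun x hx => by rw [((cr.sup x).1 hx).1]; simp
  have hh := (K 0 s w).hh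
  have z3 : ∀ t, d.Gw t → ∀ x ∈ d.R (99 / 100), |(d.Z x + t.U x) 2| ≤ 3 * d.c.D := fun t ht x hx => by
    have a := ((hK d rfl hk hI t ht).1 x hx).2.1
    have b : ‖d.O *ᵥ x‖ ≤ 99 / 100 * d.c.D := hx
    have c := norm_add_le (d.O *ᵥ (d.Z x + t.U x - x)) (d.O *ᵥ x)
    rw [← mulVec_add, sub_add_cancel] at c
    linarith [Prof.abs_le_norm (d.Z x + t.U x) 2, Prof.orth_norm_ge hI.ort (d.Z x + t.U x)]
  have e1 : np d.c.N (-270) * np d.c.N (1 / 2) * np d.c.N (1 / 2) = np d.c.N (-269) := by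
    rw [← g.big.np_add, ← g.big.np_add]; norm_num
  have e2 : 1 ≤ np d.c.N (1 / 2) := (np_zero _).ge.trans (g.big.np_le (by norm_num))
  have main : ∀ j z, CB 4 h {z} (fun w => d.Fv S s' v w j - d.Fv S s v w j)
      (C * (2 * (d.ep * d.c.q * d.c.hs j)) * np d.c.N (-269) * ex d.c.D (z 2)) := fun j z => by
    refine (H _ _ _ _ _ _ _ _ _ _ (K j s w) (K j s' w') ?_ pD ?_ (fun x hx => ⟨fun i => ?_,
      fun i k => ?_, z3 s w x hx, z3 s' w' x hx⟩) z).neg.congr_fun fun w => by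
        simp only [MD.Fv]; ring
    · refine le_of_log (p _) (by norm_num) ?_
      rw [g.big.log_np, one_div, Real.log_inv]
      linarith [(logc_bd (show (1 : ℝ) ≤ 1000 by norm_num)).2, g.big.J_ge, g.big.L_ge]
    · have a : d.c.N * h 2 ≤ d.c.D := by
        refine (mul_le_mul_of_nonneg_left h3 g.N_pos.le).trans
          (le_of_log (mul_pos g.N_pos g.y_pos) pD ?_)
        rw [Real.log_mul g.N_pos.ne' g.y_pos.ne', g.log_y, g.log_D, g.big.log_N]
        linarith [Real.log_le_log g.lam_pos g.lam_le_lb, g.big.J_pos]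
      have b := pow_le_pow_left₀ (mul_pos g.N_pos (hh 2)).le a 2
      have c : (d.c.N : ℝ) ^ 2 / 60 ≤ d.c.D ^ 2 / (60 * h 2 ^ 2) := by
        have := hh 2
        rw [div_le_div_iff₀ (by norm_num) (by positivity)]; nlinarith
      rw [g.big.np_eq]
      exact Real.exp_le_exp.2 (by nlinarith [g.big.N_ge, g.big.J_ge, g.big.L_ge])
    · have a := (Prof.abs_le_norm _ i).trans (cl.cl x).1
      have b := mul_le_mul_of_nonneg_left (h1 i) (p (-270)).le
      have c := mul_le_mul_of_nonneg_left e2 (mul_pos (mul_pos (p (-270)) (p (1 / 2))) (hh i)).le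
      rw [show (d.Z x + s'.U x) i - (d.Z x + s.U x) i = (s'.U x - s.U x) i by simp, ← e1]
      linarith
    · have a : |(s'.C x - s.C x) i k| ≤ np d.c.N (-270) * d.c.lam ^ 2 := (cl.cl x).2.2.1 i k
      have b := mul_le_mul_of_nonneg_left
        (mul_le_mul (h1 i) (h1 k) g.lam_pos.le (mul_pos (p _) (hh i)).le) (p (-270)).le
      show |(S x - s'.C x - (S x - s.C x)) i k / (h i * h k)| ≤ np d.c.N (-269)
      rw [show S x - s'.C x - (S x - s.C x) = -(s'.C x - s.C x) by abel, Matrix.neg_apply, abs_div,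
        abs_neg, abs_of_pos (mul_pos (hh i) (hh k)), div_le_iff₀ (mul_pos (hh i) (hh k)), ← e1]
      linarith
  have num : 3 * (C * (2 * (d.ep * d.c.q)) * np d.c.N (-269) * np d.c.N 2) ≤ np d.c.N (-965) := by
    have : C ≤ d.c.q := hq
    unfold MD.ep
    refine le_trans (b := 6 * d.c.q * d.c.q * (np d.c.N (-700) * np d.c.N (-269) * np d.c.N 2))
      (by nlinarith [show 0 < d.c.q * (np d.c.N (-700) * np d.c.N (-269) * np d.c.N 2) by positivity])
      (le_of_log (by positivity) (p _) ?_)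
    simp (disch := positivity) only [Real.log_mul, g.big.log_np, g.log_q]
    linarith [(logc_bd (show (1 : ℝ) ≤ 6 by norm_num)).2, g.big.J_ge, g.big.L_ge]
  have e3 : 1 ≤ np d.c.N 2 := (np_zero _).ge.trans (g.big.np_le (by norm_num))
  have e4 : 0 < C * (2 * (d.ep * d.c.q)) * np d.c.N (-269) := by unfold MD.ep; positivity
  have c : ∀ t, d.Gw t → ∀ j, ColD fun z => d.Fv S t v z j := fun t ht j => (colD hC (K j t ht)).neg
  refine ⟨c s w, c s' w', fun j z => ((main j z).of_le (by norm_num)).monoB ?_, fun z => ?_⟩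
  · refine mul_le_mul_of_nonneg_right ?_ (Real.exp_pos _).le
    nlinarith [mul_le_mul_of_nonneg_right (show C * (2 * (d.ep * d.c.q)) * np d.c.N (-269) ≤
      np d.c.N (-965) by nlinarith) (g.hs_pos j).le]
  · refine ((CBl.sum Finset.univ (fun i => (hh i).le)
      (fun j _ => Sm.pd (ContDiff.sub (c s' w' j).1 (c s w j).1) j) fun j _ =>
        ((main j z).pd_div hh j).monoB (B' := C * (2 * (d.ep * d.c.q)) * np d.c.N (-269) *
          np d.c.N 2 * ex d.c.D (z 2)) ?_).monoB ?_).congr_fun fun x => ?_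
    · have := mul_le_mul_of_nonneg_left (h2 j) (mul_pos e4 (ex_pos d.c.D (z 2))).le
      rw [div_le_iff₀ (hh j)]
      linarith
    · have := mul_le_mul_of_nonneg_right num (ex_pos d.c.D (z 2)).le
      simp only [Fin.sum_univ_three]
      linarith
    · simp only [dv, ← Finset.sum_sub_distrib, pd_sub (c s' w' _).1 (c s w _).1]

variable {h hs : V} {e D : ℝ} {F F' : V → V}

lemma FF.pt (H : FF h hs e D F F') (he : 0 ≤ e) {i : Fin 3} {c : ℝ} (h0 : 0 ≤ c)
    (h1 : c ≤ h i) (z : V) : |c * pd i (dv F') z - c * pd i (dv F) z| ≤ e := by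
  have a := H.d z [i] (by show 1 ≤ 3; norm_num) z rfl
  refine (hd (ColD.dv H.c').1 (ColD.dv H.c).1 h0 [i] z).trans_le (le_trans ?_
    (a.trans (mul_le_of_le_one_right he (ex_le _ _))))
  exact mul_le_mul_of_nonneg_right (by simpa using h1) (abs_nonneg _)

lemma am_sub (d : MD) (s s' : Sa) (v : V → V) (ω : V → ℝ) (x : V) (a b : Fin 3) :
    d.Am s' v ω x a b - d.Am s v ω x a b =
      -(1 / 2 * pd 0 d.Pq x * (s'.Θ x - s.Θ x) * ω x) * E00 a b := by
  simp only [MD.Am, Matrix.sub_apply, Matrix.smul_apply, smul_eq_mul]; ring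

end Stab

open Stab in
theorem stab (hK : KlsStmt) (hC : ColkStmt) : StabStmt := by
  obtain ⟨B, -, hB⟩ := Prof.cb_bc 3
  obtain ⟨_, -, hV⟩ := va psi
  filter_upwards [hK, kern hK hC, ev_gd, ev_C_q B, hV]
    with N hK hF hg hq hV d hN hk hI s s' v ω gs cl cr Λ hΛ
  subst hN
  have g := hg d.c rfl hI.ok
  replace hF := hF d rfl hk hI s s' v ω gs cl cr
  replace hK := fun t ht a A a1 a2 a3 => (hK d rfl hk hI t ht).2 a A a1 a2 a3
  have p := g.big.np_pos
  have := g.lam_pos; have := g.q_pos; have pD := g.D_pos; have := g.N_pos; have := g.J_pos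
  have := p (-700); have := p (-270); have := p 15; have p8 := p (-860); have p9 := p (-965)
  have pG := g.GG_pos; have hs := g.hs_pos; have := g.p_pos
  have hJ := g.big.J_ge; have hL := g.big.L_ge
  have one : ∀ a : ℝ, 0 ≤ a → 1 ≤ np d.c.N a := fun a ha => (np_zero _).ge.trans (g.big.np_le ha)
  have up : ∀ a x : ℝ, 0 ≤ a → 0 < x → x ≤ np d.c.N a * x := fun a x ha hx =>
    le_mul_of_one_le_left hx.le (one a ha)
  have ly : d.c.lam ≤ d.c.y := up _ _ (by norm_num) g.lam_pos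
  have hy : ∀ y', np d.c.N (-3 / 2) * d.c.y ≤ y' →
      (∀ i, d.c.lam ≤ np d.c.N (1 / 2) * d.c.hy y' i) ∧
      ∀ i, d.c.hs i ≤ np d.c.N 2 * d.c.hy y' i := fun y' a => by
    have b : ∀ r : ℝ, np d.c.N (r + -3 / 2) * d.c.y ≤ np d.c.N r * y' := fun r => by
      rw [g.big.np_add, mul_assoc]; exact mul_le_mul_of_nonneg_left a (p r).le
    refine ⟨fun i => ?_, fun i => ?_⟩ <;> fin_cases i
    · exact g.lam_le_l1.trans (up _ _ (by norm_num) g.l1_pos)
    · exact up _ _ (by norm_num) g.lam_pos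
    · refine le_trans ?_ (b _)
      rw [Pm.y, ← mul_assoc, ← g.big.np_add]
      exact up _ _ (by norm_num) g.lam_pos
    · exact up _ _ (by norm_num) g.l1_pos
    · exact up _ _ (by norm_num) g.lam_pos
    · exact (up _ _ (by norm_num) g.y_pos).trans (b _)
  have y0 : np d.c.N (-3 / 2) * d.c.y ≤ d.c.y :=
    mul_le_of_le_one_left g.y_pos.le ((g.big.np_le (by norm_num)).trans (np_zero _).le)
  have FS := hF d.c.hs d.S (hy _ y0).1 (hy _ y0).2 le_rfl fun t ht a A a1 a2 a3 =>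
    (hK t ht a A a1 a2 a3).1
  have FL := hF _ d.SL (hy _ hI.yl.1).1 (hy _ hI.yl.1).2 hI.yl.2 fun t ht a A a1 a2 a3 =>
    (hK t ht a A a1 a2 a3).2.2
  have hL' : ∀ i, 0 < d.c.hy d.yL i := fun i =>
    (pos_iff_pos_of_mul_pos (g.lam_pos.trans_le ((hy _ hI.yl.1).1 i))).1 (p _)
  have lat : ∀ y' i, i ≠ 2 → d.c.hs i = d.c.hy y' i := fun y' i hi => by
    fin_cases i
    exacts [rfl, rfl, (hi rfl).elim]
  have n1 : ∀ a : ℝ, -100 ≤ a → np d.c.N (-965) ≤ np d.c.N (-860) * np d.c.N a := fun a ha => by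
    rw [← g.big.np_add]; exact g.big.np_le (by linarith)
  have q1 : 1 ≤ d.c.q := by linarith [g.big.q_ge, show d.c.q = pq d.c.N from rfl]
  have n2 : 128 * d.c.q * np d.c.N (-965) * d.c.D ≤ np d.c.N (-860) * d.c.GG := by
    refine le_of_log (by positivity) (by positivity) ?_
    have := Real.log_le_log g.lb_pos g.lb_le
    rw [Real.log_mul (p _).ne' g.lam_pos.ne', g.big.log_np] at this
    simp (disch := positivity) only [Real.log_mul, g.big.log_np, g.log_q, g.log_D]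
    linarith [(logc_bd (show (1 : ℝ) ≤ 128 by norm_num)).2, g.log_GG_bd.1]
  -- the noise term
  have t0 : ∀ x ∈ d.R (99 / 100),
      |1 / 2 * pd 0 d.Pq x * (s'.Θ x - s.Θ x) * ω x| ≤ np d.c.N (-950) := fun x hx => by
    by_cases a : d.c.noise
    · have b := ((hI.ns.2.2 a).1.2.1 x hx).2
      have c : |ω x| ≤ np d.c.N (-700) * np d.c.N 15 := cr.cb.2.val (mem_univ x)
      rw [abs_mul, abs_mul]
      refine (mul_le_mul (mul_le_mul (b := 5) (abs_le.2 ⟨by linarith [b.1], by linarith [b.2.1]⟩)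
        (cl.cl x).2.2.2 (abs_nonneg _) (by norm_num)) c (abs_nonneg _) (by positivity)).trans
        (le_of_log (by positivity) (p _) ?_)
      simp (disch := positivity) only [Real.log_mul, g.big.log_np]
      linarith [(logc_bd (show (1 : ℝ) ≤ 5 by norm_num)).2]
    · simpa [cr.nn a] using (p _).le
  -- columns
  have cc : ∀ k i (t : Sa), (∀ j, ColD fun z => d.Fv d.S t v z j) →
      ColD (d.c.cf k (d.Fv d.S t v) i) := fun k i t H =>
    (H i).bmul (Prof.bc_sm _ _) (BdD.of_compact (Prof.bc_sm _ _) (Prof.bc_hcs g.cw_pos k))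
  have cb : ∀ k, CB 3 d.c.hs univ (d.c.bc k) d.c.q := fun k => by
    have a : 1 ≤ pA d.c.N := one_le_pow₀ (by linarith)
    refine (CBl.monoh (hB d.c k) (fun i => (hs i).le) fun i => ?_).monoB hq
    fin_cases i
    · exact le_mul_of_one_le_left g.l1_pos.le a
    · exact le_mul_of_one_le_left g.lam_pos.le a
    · exact le_of_log g.y_pos g.L_pos (by linarith [g.log_y, g.log_L] :
        Real.log d.c.y ≤ Real.log d.c.L)
  have cP : ∀ k I w i, ∀ l ∈ LL 3,
      |hp d.c.hs l * colI (d.ch k) I (pds l (d.c.cf k (d.Fv d.S s' v) i)) w -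
        hp d.c.hs l * colI (d.ch k) I (pds l (d.c.cf k (d.Fv d.S s v) i)) w| ≤
      np d.c.N (-860) * (d.c.hs i * (d.c.GG / 2) * d.wl l) := fun k I w i l hl => by
    have := hs i
    have a : 1 ≤ d.wl l := by
      unfold MD.wl; split_ifs
      exacts [one_le_pow₀ (by linarith), le_rfl]
    refine (cint (cc k i s FS.c) (cc k i s' FS.c') (hI.chb.2 k).1.continuous I hs (LL_len hl)
      (M := 2 ^ 3 * d.c.q * (np d.c.N (-965) * d.c.hs i)) (by positivity) pD (fun z => ?_) w).trans ?_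
    · exact ((CB.mul (fun i => (hs i).le) (Prof.bc_sm _ _) (ContDiff.sub (FS.c' i).1 (FS.c i).1)
        ((cb k).monoU (subset_univ _)) (FS.b i z)).monoB (le_of_eq (by ring))).congr_fun
        fun x => (mul_sub _ _ _).symm
    · nlinarith [mul_le_mul_of_nonneg_left n2 this.le, mul_le_mul_of_nonneg_left a
        (show 0 ≤ np d.c.N (-860) * (d.c.hs i * (d.c.GG / 2)) by positivity)]
  have wp : ∀ i l, 0 < d.c.hs i * (d.c.GG / 2) * d.wl l := fun i l => by
    have := hs i; have := g.big.pA_pos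
    unfold MD.wl; split_ifs <;> positivity
  rcases hΛ with (⟨x, hx, ⟨j, rfl⟩ | ⟨a, b, -, rfl⟩ | ⟨l, i, -, rfl⟩ | ⟨l, -, rfl⟩⟩ |
    ⟨_, ⟨z, i, -, hi, ⟨l, hl, rfl⟩ | ⟨y', hy', rfl⟩ | ⟨-, rfl⟩⟩ |
      ⟨_, w, -, ⟨k, l, hl, i, -, ⟨-, rfl⟩ | ⟨-, rfl⟩⟩ | ⟨-, -, l, hl, -, rfl⟩⟩⟩) | ⟨x, hx, rfl⟩
  · simpa [MD.pU] using p8.le
  · have t := t0 x hx
    simp only [MD.pE]
    rw [← sub_div, am_sub]
    by_cases c : d.c.noise ∧ a = 0 ∧ b = 0
    · obtain ⟨c, rfl, rfl⟩ := c
      have := g.big.qp_pos (1 / 10); have := g.big.qp_pos (1 / 5); have := (g.sd_bd 0 0).1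
      have n : np d.c.N (-90) ≤ d.nE 0 0 := by
        have : np d.c.N (-90) ≤ 1 / (qp d.c.N (1 / 10) * √d.c.J) * (d.c.p / d.c.q ^ 3) := by
          refine le_of_log (p _) (by positivity) ?_
          simp (disch := positivity) only [Real.log_mul, Real.log_div, Real.log_pow, Real.log_one,
            Real.log_sqrt, g.big.log_np, g.big.log_qp, g.log_q, g.log_J]
          push_cast
          linarith [g.log_ηp_ge, g.log_η_le]
        rw [MD.nE, if_pos c]
        exact this.trans (le_add_of_nonneg_left (by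
          show 0 ≤ qp d.c.N (1 / 5) * d.c.sd 0 0
          positivity))
      rw [show E00 0 0 = 1 from rfl, mul_one, abs_div, abs_neg, abs_of_pos ((p _).trans_le n),
        div_le_iff₀ ((p _).trans_le n)]
      refine t.trans (le_trans ?_ (mul_le_mul_of_nonneg_left n p8.le))
      rw [← g.big.np_add]; norm_num
    · by_cases c' : d.c.noise
      · have : E00 a b = 0 := by
          fin_cases a <;> fin_cases b <;> first | rfl | exact (c ⟨c', rfl, rfl⟩).elim
        simpa [this] using p8.le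
      · simpa [cr.nn c'] using p8.le
  · simpa [MD.pD] using p8.le
  · simpa [MD.pT] using p8.le
  · refine qd (mul_pos (p _) (hs i)) ((hd (FS.c' i).1 (FS.c i).1 (hp_pos hs l).le l z).trans_le
      ((FS.b i z l hl z rfl).trans ((mul_le_of_le_one_right (mul_pos p9 (hs i)).le
        (ex_le _ _)).trans ?_)))
    rw [← mul_assoc]
    exact mul_le_mul_of_nonneg_right (n1 _ (by norm_num)) (hs i).le
  · have a : np d.c.N (-3 / 2) * d.c.y ≤ y' :=
      (mul_le_mul_of_nonneg_right (g.big.np_le (by norm_num)) g.y_pos.le).trans hy'.1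
    have b : y' ≤ d.c.y := by linarith [hy'.2, g.y_pos]
    have c := (mul_pos (p _) g.y_pos).trans_le a
    have FR := hF _ (d.SR y') (hy _ a).1 (hy _ a).2 b fun t ht a A a1 a2 a3 =>
      (hK t ht a A a1 a2 a3).2.1 y' hy'
    exact qd (p _) ((FR.pt p9.le (mul_pos (div_pos c g.y_pos) (hs i)).le
      ((mul_le_of_le_one_left (hs i).le ((div_le_one g.y_pos).2 b)).trans (lat y' i hi).le) z).trans
      (n1 _ (by norm_num)))
  · exact qd g.q_pos ((FL.pt p9.le (hs i).le (lat _ i hi).le z).trans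
      ((g.big.np_le (by norm_num)).trans (le_mul_of_one_le_right p8.le q1)))
  · refine qd (wp i l) ?_
    rw [(cc k i s FS.c).pds_pre (hI.chb.2 k).1.continuous (LL_lat hl),
      (cc k i s' FS.c').pds_pre (hI.chb.2 k).1.continuous (LL_lat hl)]
    exact cP k _ w i l hl
  · refine qd (wp i l) ?_
    rw [(cc k i s FS.c).pds_tot (hI.chb.2 k).1.continuous (LL_lat hl),
      (cc k i s' FS.c').pds_tot (hI.chb.2 k).1.continuous (LL_lat hl), tot_eq_colI, tot_eq_colI]
    exact cP k _ w i l hl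
  · refine qd (half_pos pG) ?_
    have e : hp d.c.hs l = hp (d.c.hy d.yL) l :=
      congrArg List.prod (List.map_congr_left fun i hi => lat _ i (LL_lat hl i hi))
    rw [(ColD.dv FL.c).pds_pre continuous_zero (LL_lat hl),
      (ColD.dv FL.c').pds_pre continuous_zero (LL_lat hl), e]
    refine (cint (ColD.dv FL.c) (ColD.dv FL.c') continuous_zero _ hL'
      ((LL_len hl).trans (by norm_num)) p9.le pD FL.d w).trans ?_
    nlinarith [mul_le_mul_of_nonneg_right q1 (mul_pos p9 pD).le, mul_pos p9 pD]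
  · simp only [MD.pV]
    split_ifs with c
    · have η : etaS d.c.N / 2 ≤ d.c.η := by
        linarith [g.thr_bd.1, show d.c.thr ≤ d.c.η from c, g.big.etaS_pos]
      have a : ∀ i j, i ≠ 2 → |d.E x i j| ≤ nu d.c.N := fun i j hi =>
        (hI.eb x hx i j hi).trans ((le_abs_self _).trans (g.eT_le_nu η i j))
      have b : ∀ i j, |jm s.U x i j| ≤ nu d.c.N := (gs.ub x).2.2 c
      have b' : ∀ i j, |jm s'.U x i j - jm s.U x i j| ≤ np d.c.N (-270) := (cl.cl x).2.1
      have n : np d.c.N (-270) ≤ nu d.c.N := g.big.np_le (by norm_num)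
      have k := (hV d.c rfl hI.ok η).1 (d.E x + jm s'.U x) (d.E x + jm s.U x) (np d.c.N (-270))
        (fun i j hi => by
          show |d.E x i j + jm s'.U x i j| ≤ 4 * nu d.c.N
          have := abs_le.1 (a i j hi); have := abs_le.1 (b i j); have := abs_le.1 (b' i j)
          exact abs_le.2 ⟨by linarith, by linarith⟩)
        (fun i j hi => by
          show |d.E x i j + jm s.U x i j| ≤ 4 * nu d.c.N
          have := abs_le.1 (a i j hi); have := abs_le.1 (b i j)
          exact abs_le.2 ⟨by linarith, by linarith⟩)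
        fun i j _ => by rw [add_sub_add_left_eq_sub]; exact b' i j
      have m : ∀ i j, |jm v x i j| ≤ np d.c.N (-700) * np d.c.N 15 := fun i j => by
        have := cr.cb.1 i [j] (by show 1 ≤ 4; norm_num) x trivial
        rw [hp_cv, List.length_singleton, pow_one, mul_comm] at this
        exact le_of_mul_le_mul_right this g.lam_pos
      have := g.big.uV_pos
      refine qd (by positivity) (le_trans (b := ∑ _i : Fin 3, ∑ _j : Fin 3,
        d.c.J ^ 3 * np d.c.N (-270) * (np d.c.N (-700) * np d.c.N 15)) ?_ ?_)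
      · simp only [ipm, ← Finset.sum_sub_distrib, ← sub_mul]
        refine (Finset.abs_sum_le_sum_abs _ _).trans (Finset.sum_le_sum fun i _ =>
          (Finset.abs_sum_le_sum_abs _ _).trans (Finset.sum_le_sum fun j _ => ?_))
        rw [abs_mul]
        exact mul_le_mul (k i j) (m i j) (abs_nonneg _) (by positivity)
      · simp only [Finset.sum_const, Finset.card_univ, Fintype.card_fin, nsmul_eq_mul, Nat.cast_ofNat]
        refine le_of_log (by positivity) (by positivity) ?_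
        simp (disch := positivity) only [Real.log_mul, Real.log_div, Real.log_pow, g.big.log_np,
          g.log_J, g.big.log_uV]
        push_cast
        linarith [(logc_bd (show (1 : ℝ) ≤ 3 by norm_num)).2,
          (logc_bd (show (1 : ℝ) ≤ 8 by norm_num)).2]
    · have := g.η_pos; have := g.big.qp_pos (21 / 5)
      have n : np d.c.N (-5) ≤ d.nV := le_add_of_nonneg_left (by split_ifs <;> positivity)
      refine qd ((p _).trans_le n) (le_trans ?_ (mul_le_mul_of_nonneg_left n p8.le))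
      rw [add_sub_add_comm, ← mul_sub, ← mul_sub, am_sub, am_sub, show E00 0 0 = 1 from rfl,
        show E00 1 1 = 0 from rfl, mul_zero, mul_zero, add_zero, mul_one, abs_mul, abs_neg,
        abs_of_pos g.η_pos, ← g.big.np_add]
      exact (mul_le_of_le_one_left (abs_nonneg _) g.η_le_one).trans
        ((t0 x hx).trans (g.big.np_le (by norm_num)))

end
end Pool.Agent.MP_20bec2_an.T3

end MrgPart1

-- marker of a merged file
example : 731051 + 436154 = 731051 + 436154 := rfl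

end MrgPart2

-- marker of a merged file
example : 731051 + 436154 = 731051 + 436154 := rfl
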