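import Pool.Agent.MP_20bec2_an.T3.Ls
import Pool.Agent.MP_20bec2_an.T3.Ftr
import Pool.Agent.MP_20bec2_an.T3.Fl3
import Pool.Agent.MP_20bec2_an.T3.Par4
import Mathlib.Algebra.Order.Chebyshev
import Pool.Agent.MP_20bec2_an.T3.CrA
import Pool.Agent.MP_20bec2_an.T3.Calc2C
import Pool.Agent.MP_20bec2_an.T3.Par3
import Pool.Agent.MP_20bec2_an.T3.Zt
import Pool.Agent.MP_20bec2_an.T3.Runm
import Pool.Agent.MP_20bec2_an.T3.Stab
import Pool.Agent.MP_20bec2_an.T3.Fl1
import Pool.Agent.MP_20bec2_an.T3.Gabs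
import Pool.Agent.MP_20bec2_an.T3.Fl2
import Pool.Agent.MP_20bec2_an.T3.Init

-- ======== part 0: formerly Pool.Agent.MP_20bec2_an.T3.FNat
section MrgPart0

/-! Row NAT: the Gram matrix of `f ∘ S`. -/

set_option autoImplicit false
open Set Filter Matrix Topology

namespace Pool.Agent.MP_20bec2_an.T3
noncomputable section
namespace NatP
open Ftr

variable {A B A' B' : Mx}

lemma eb_mul (h : EB A A') (h' : EB B B') : EB (A * B) (A' * B') := fun i j => by
  simp only [mul_apply]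
  exact (Finset.abs_sum_le_sum_abs _ _).trans
    (Finset.sum_le_sum fun l _ => abs_mul_le (h i l) (h' l j))
lemma eb_add (h : EB A A') (h' : EB B B') : EB (A + B) (A' + B') := fun i j =>
  (abs_add_le _ _).trans (add_le_add (h i j) (h' i j))
lemma eb_tr (h : EB A A') : EB Aᵀ A'ᵀ := fun i j => h j i
lemma eb_le (h : EB A A') (h' : ∀ i j, A' i j ≤ B' i j) : EB A B' := fun i j => (h i j).trans (h' i j)
lemma tb4_nn {l r k d : ℝ} (h : EB A (tb4 l r k d)) : 0 ≤ l ∧ 0 ≤ r ∧ 0 ≤ k ∧ 0 ≤ d :=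
  ⟨(abs_nonneg _).trans (h 0 0), (abs_nonneg _).trans (h 2 0), (abs_nonneg _).trans (h 0 2),
    (abs_nonneg _).trans (h 2 2)⟩
lemma Xj_tr (N : ℕ) (s : ℝ) : (s • Xj N)ᵀ = s • Xj N := by
  ext a b; fin_cases a <;> fin_cases b <;> rfl

section
variable {c : Pm} {μ l r k d s : ℝ} {e Y : Mx}

lemma et (h : Gd c) (H : c.ET μ l r k d) (hμ : 0 ≤ μ) :
    r * (c.J ^ 3 / √c.N) ≤ μ * (c.J ^ 4 / c.N) ∧ r * c.J ≤ μ * (c.J ^ 3 / √c.N) ∧
    k * (c.J ^ 4 / c.N) ≤ μ * (c.J ^ 3 / √c.N) ∧ k * (c.J ^ 3 / √c.N) ≤ μ * c.J := by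
  obtain ⟨-, -, -, h1, h2⟩ := H
  have J0 := h.J_pos
  have J1 : 1 ≤ c.J := by have := h.big.J_ge; have := h.big.L_ge; unfold Pm.J; linarith
  have s0 := h.big.sqrtN_pos
  have sq : (c.N : ℝ) = √c.N * √c.N := (Real.mul_self_sqrt h.N_pos.le).symm
  generalize √(c.N : ℝ) = w at *
  have m : ∀ {x y z : ℝ}, x ≤ μ * y → 0 < z → ∀ {t}, y * z ≤ t → x * z ≤ μ * t :=
    fun h1 h2 _ h3 => (mul_le_mul_of_nonneg_right h1 h2.le).trans
      (by rw [mul_assoc]; exact mul_le_mul_of_nonneg_left h3 hμ)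
  have p2 : c.J ^ 2 ≤ c.J ^ 3 := pow_le_pow_right₀ J1 (by norm_num)
  rw [sq]
  refine ⟨m h1 (by positivity) (le_of_eq (by field_simp)), m h1 J0 ?_, m h2 (by positivity) ?_,
    m h2 (by positivity) (le_of_eq (by field_simp))⟩
  · calc c.J / w * c.J = c.J ^ 2 / w := by ring
      _ ≤ _ := by gcongr
  · calc w / c.J ^ 2 * (c.J ^ 4 / (w * w)) = c.J ^ 2 / w := by field_simp
      _ ≤ _ := by gcongr

lemma left (h : Gd c) (H : c.ET μ l r k d) (he : EB e (tb4 l r k d)) (hY : EB Y (s • Xj c.N))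
    (hs : 0 ≤ s) : EB (eᵀ * Y) ((3 * μ * s) • Xj c.N) := by
  obtain ⟨l0, -, -, d0⟩ := tb4_nn he
  obtain ⟨h1, h2, h3, h4⟩ := et h H (l0.trans H.2.1)
  obtain ⟨-, h5, h6, -⟩ := H
  have x := fun a b => mul_nonneg hs (Xj_nonneg c.N a b)
  have x0 := x 0 0; have x1 := x 0 2; have x2 := x 2 2
  have g1 := mul_le_mul_of_nonneg_left h1 hs
  have g2 := mul_le_mul_of_nonneg_left h2 hs
  have g3 := mul_le_mul_of_nonneg_left h3 hs
  have g4 := mul_le_mul_of_nonneg_left h4 hs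
  have k1 := mul_le_mul_of_nonneg_right h5 x0
  have k2 := mul_le_mul_of_nonneg_right h5 x1
  have k3 := mul_le_mul_of_nonneg_right h6 x1
  have k4 := mul_le_mul_of_nonneg_right h6 x2
  refine eb_le (eb_mul (eb_tr he) hY) fun a b => ?_
  simp only [Xj, bm, Pm.J, of_apply, cons_val', cons_val_zero, cons_val_two, cons_val_fin_one,
    tail_cons, head_cons, empty_val', head_fin_const] at *
  fin_cases a <;> fin_cases b <;> simp [mul_apply, Fin.sum_univ_three, tb4] <;> linarith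

lemma right (h : Gd c) (H : c.ET μ l r k d) (he : EB e (tb4 l r k d)) (hY : EB Y (s • Xj c.N))
    (hs : 0 ≤ s) : EB (Y * e) ((3 * μ * s) • Xj c.N) := by
  have := eb_tr (left h H he (Xj_tr c.N s ▸ eb_tr hY) hs)
  rwa [transpose_mul, transpose_transpose, transpose_transpose, Xj_tr] at this

lemma sand (h : Gd c) (H : c.ET μ l r k d) {E : Mx} (he : EB (E - 1) (tb4 l r k d))
    (hY : EB Y (s • Xj c.N)) (hs : 0 ≤ s) : EB (Eᵀ * Y * E - Y) ((7 * μ * s) • Xj c.N) := by
  have m0 : 0 ≤ μ := (tb4_nn he).1.trans H.2.1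
  have h1 := right h H he hY hs
  have h2 := eb_add (eb_add (left h H he hY hs) h1) (left h H he h1 (by positivity))
  have e : Eᵀ * Y * E - Y = (E - 1)ᵀ * Y + Y * (E - 1) + (E - 1)ᵀ * (Y * (E - 1)) := by
    simp only [transpose_sub, transpose_one]; noncomm_ring
  rw [e]
  refine eb_le h2 fun a b => ?_
  rw [← add_smul, ← add_smul]
  refine mul_le_mul_of_nonneg_right ?_ (Xj_nonneg _ a b)
  nlinarith [mul_nonneg m0 hs, H.1]

lemma side (h : Gd c) (H : c.ET μ l r k d) {E : Mx} (he : EB (E - 1) (tb4 l r k d))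
    (hY : EB Y (s • Xj c.N)) (hs : 0 ≤ s) : EB (Yᵀ * E + Eᵀ * Y) ((3 * s) • Xj c.N) := by
  have h1 := eb_add hY (left h H he hY hs)
  have e : Y + (E - 1)ᵀ * Y = Eᵀ * Y := by
    simp only [transpose_sub, transpose_one]; noncomm_ring
  rw [e, ← add_smul] at h1
  have h2 := eb_tr h1
  rw [transpose_mul, transpose_transpose, Xj_tr] at h2
  refine eb_le (eb_add h2 h1) fun a b => ?_
  rw [← add_smul]
  refine mul_le_mul_of_nonneg_right ?_ (Xj_nonneg _ a b)
  nlinarith [H.1]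
end

variable {c : Pm} {f S : V → V} {z : V}

lemma cj_ne (h : Gd c) {M : ℝ} (hM : M ≠ 0) (a : Fin 3) : c.cj M a ≠ 0 := by
  fin_cases a
  exacts [h.c1_pos.ne', h.c2_pos.ne', div_ne_zero h.n12_pos.ne' hM]

lemma ca_eq (c : Pm) (f : V → V) (z : V) : c.ca f z = jm f z * diagonal (c.cj (jac f z)) := rfl

lemma jm_cp (hf : Sm f) (hS : Sm S) (z : V) : jm (f ∘ S) z = jm f (S z) * jm S z :=
  jm_comp (hf.dif _) (hS.dif _)

lemma ca_mul (h : Gd c) (hf : Sm f) (hS : Sm S) (h0 : jac f (S z) ≠ 0) :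
    c.ca (f ∘ S) z = c.ca f (S z) * c.Em f S z := by
  rw [ca_eq, ca_eq, jm_cp hf hS, Matrix.mul_assoc, Matrix.mul_assoc]
  congr 1
  ext a b
  have := cj_ne h h0 a
  rw [mul_diagonal, diagonal_mul, Pm.Em, of_apply]
  field_simp

lemma gam_mul (h : Gd c) (hf : Sm f) (hS : Sm S) (h0 : jac f (S z) ≠ 0) :
    c.gam (f ∘ S) z = (c.Em f S z)ᵀ * c.gam f (S z) * c.Em f S z := by
  rw [Pm.gam, ca_mul h hf hS h0, Pm.gam, transpose_mul]
  simp only [Matrix.mul_assoc]

lemma dif_cj {M : V → ℝ} (hM : DifferentiableAt ℝ M z) (h0 : M z ≠ 0) (a : Fin 3) :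
    DifferentiableAt ℝ (fun w => c.cj (M w) a) z := by
  fin_cases a
  exacts [differentiableAt_const _, differentiableAt_const _, (hM.fun_inv h0).const_mul c.n12]

lemma dif_Em (h : Gd c) (hf : Sm f) (hS : Sm S) (h0 : jac f (S z) ≠ 0) (h1 : jac (f ∘ S) z ≠ 0) :
    DifM (c.Em f S) z := fun a b =>
  (((hS.jm a b).dif z).fun_mul (dif_cj ((Sm.jac (ContDiff.comp hf hS)).dif z) h1 b)).fun_mul
    ((dif_cj (M := fun w => jac f (S w)) (Sm.dif (ContDiff.comp hf.jac hS) z) h0 a).fun_inv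
      (cj_ne h h0 a))

lemma dif_gam (c : Pm) (hf : Sm f) (h0 : jac f z ≠ 0) : DifM (c.gam f) z := by
  rw [funext (gam_eq c f)]; exact dif_gm _ hf.jm hf.jac h0

lemma Dm_comp (hf : Sm f) (hS : Sm S) (h0 : jac f (S z) ≠ 0) (i a b : Fin 3) :
    Dm i (fun w => c.gam f (S w)) z a b =
      ∑ j, pd j (fun w => c.gam f w a b) (S z) * jm S z j i :=
  pd_comp (dif_gam c hf h0 a b) (hS.dif z) i

lemma Dm_gam (h : Gd c) (hf : Sm f) (hS : Sm S) (h0 : jac f (S z) ≠ 0) (h1 : jac (f ∘ S) z ≠ 0)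
    (t : ℝ) (i : Fin 3) : t • Dm i (c.gam (f ∘ S)) z =
      ((c.gam f (S z) * (t • Dm i (c.Em f S) z))ᵀ * c.Em f S z +
        (c.Em f S z)ᵀ * (c.gam f (S z) * (t • Dm i (c.Em f S) z))) +
      (c.Em f S z)ᵀ * (t • Dm i (fun w => c.gam f (S w)) z) * c.Em f S z := by
  have dE := dif_Em h hf hS h0 h1
  have dG : DifM (fun w => c.gam f (S w)) z := fun a b =>
    (dif_gam c hf h0 a b).comp z (hS.dif z)
  have ev : ∀ᶠ w in 𝓝 z, jac f (S w) ≠ 0 :=
    (hf.jac.continuous.comp hS.continuous).continuousAt.eventually_ne h0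
  rw [Dm_congr (ev.mono fun w hw => gam_mul h hf hS hw), Dm_mul (dE.tr.mul dG) dE, Dm_mul dE.tr dG]
  have : Dm i (fun w => (c.Em f S w)ᵀ) z = (Dm i (c.Em f S) z)ᵀ := rfl
  simp only [this, transpose_mul, c.gam_symm, transpose_smul, Matrix.smul_mul, Matrix.mul_smul,
    Matrix.add_mul, smul_add, Matrix.mul_assoc]
  abel

lemma gw_mul {e : Mx} {t l l' r k k' d : ℝ} (H : c.GW f z t) (he : EB e (tb4 l' r k' d))
    (h1 : ∀ i j, i ≠ 2 → j ≠ 2 → c.dgn i * |e i j| ≤ l) (h2 : ∀ i, i ≠ 2 → c.dgn i * |e i 2| ≤ k)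
    (h : Gd c) : EB (c.gam f z * e) (tb4 (l + 2 * (t * (c.J ^ 4 / c.N)) * l' + t * hc c.N * r)
      (2 * (t * hc c.N) * l' + (1 + t / 10) * r)
      (k + 2 * (t * (c.J ^ 4 / c.N)) * k' + t * hc c.N * d)
      (2 * (t * hc c.N) * k' + (1 + t / 10) * d)) := by
  have e1 : c.gam f z * e = c.gref * e + (c.gam f z - c.gref) * e := by noncomm_ring
  have e2 : EB (c.gref * e) (tb4 l r k d) := fun a b => by
    have : |(c.gref * e) a b| = c.dgn a * |e a b| := by
      rw [show c.gref = diagonal c.dgn from rfl, diagonal_mul, abs_mul, abs_of_pos]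
      fin_cases a
      exacts [h.η_pos, one_pos, one_pos]
    rw [this]
    fin_cases a <;> fin_cases b
    exacts [h1 0 0 (by decide) (by decide), h1 0 1 (by decide) (by decide), h2 0 (by decide),
      h1 1 0 (by decide) (by decide), h1 1 1 (by decide) (by decide), h2 1 (by decide),
      (one_mul _).le.trans (he 2 0), (one_mul _).le.trans (he 2 1), (one_mul _).le.trans (he 2 2)]
  rw [e1]
  refine eb_le (eb_add e2 (eb_mul H he)) fun a b => le_of_eq ?_
  fin_cases a <;> fin_cases b <;> simp [tb4, bm] <;> ring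

lemma dg_bd {G E : Mx} {l r k d Hl Hr Hc Hd eg eh ek : ℝ} (hG : Gᵀ = G)
    (he : EB (E - 1) (tb4 l r k d)) (H : EB (G * (E - 1)) (tb4 Hl Hr Hc Hd)) (hl : l ≤ 1 / 100)
    (hd : d ≤ 1 / 100) (h1 : 3 * Hl + r * Hr ≤ eg) (h2 : Hc + 2 * Hr + 2 * k * Hl ≤ eh)
    (h3 : 3 * Hd + 2 * k * Hc ≤ ek) : EB (Eᵀ * G * E - G) (bm eg eh ek) := by
  have e : Eᵀ * G * E - G = (G * (E - 1))ᵀ + G * (E - 1) + (E - 1)ᵀ * (G * (E - 1)) := by
    simp only [transpose_mul, hG, transpose_sub, transpose_one]; noncomm_ring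
  have s : (Eᵀ * G * E - G)ᵀ = Eᵀ * G * E - G := by
    simp only [transpose_mul, hG, transpose_sub, transpose_transpose, Matrix.mul_assoc]
  have b := eb_add (eb_add (eb_tr H) H) (eb_mul (eb_tr he) H)
  rw [← e] at b
  obtain ⟨p1, p2, -, p4⟩ := tb4_nn H
  have q1 := mul_le_mul_of_nonneg_right hl p1
  have q2 := mul_le_mul_of_nonneg_right hd p2
  have q3 := mul_le_mul_of_nonneg_right hd p4
  have k1 : ∀ j, j ≠ 2 → |(Eᵀ * G * E - G) 2 j| ≤ eh := fun j hj => by
    refine (b 2 j).trans ?_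
    have : ((tb4 Hl Hr Hc Hd)ᵀ + tb4 Hl Hr Hc Hd + (tb4 l r k d)ᵀ * tb4 Hl Hr Hc Hd) 2 j =
        Hc + Hr + (k * Hl + k * Hl + d * Hr) := by
      rw [Matrix.add_apply, Matrix.add_apply, mul_apply, Fin.sum_univ_three]
      fin_cases j
      exacts [rfl, rfl, absurd rfl hj]
    linarith
  have k2 : ∀ j, j ≠ 2 → |(Eᵀ * G * E - G) j 2| ≤ eh := fun j hj => by
    rw [← s]; exact k1 j hj
  have k3 : ∀ i j, i ≠ 2 → j ≠ 2 → |(Eᵀ * G * E - G) i j| ≤ eg := fun i j hi hj => by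
    refine (b i j).trans ?_
    have : ((tb4 Hl Hr Hc Hd)ᵀ + tb4 Hl Hr Hc Hd + (tb4 l r k d)ᵀ * tb4 Hl Hr Hc Hd) i j =
        Hl + Hl + (l * Hl + l * Hl + r * Hr) := by
      rw [Matrix.add_apply, Matrix.add_apply, mul_apply, Fin.sum_univ_three]
      fin_cases i <;> fin_cases j <;> first | rfl | exact absurd rfl hj | exact absurd rfl hi
    linarith
  have k4 : |(Eᵀ * G * E - G) 2 2| ≤ ek := by
    refine (b 2 2).trans ?_
    have : ((tb4 Hl Hr Hc Hd)ᵀ + tb4 Hl Hr Hc Hd + (tb4 l r k d)ᵀ * tb4 Hl Hr Hc Hd) 2 2 =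
        Hd + Hd + (k * Hc + k * Hc + d * Hd) := by
      rw [Matrix.add_apply, Matrix.add_apply, mul_apply, Fin.sum_univ_three]; rfl
    linarith
  intro a b
  fin_cases a <;> fin_cases b
  exacts [k3 0 0 (by decide) (by decide), k3 0 1 (by decide) (by decide), k2 0 (by decide),
    k3 1 0 (by decide) (by decide), k3 1 1 (by decide) (by decide), k2 1 (by decide),
    k1 0 (by decide), k1 1 (by decide), k4]

end NatP

open NatP Ftr in
theorem nat_gd {c : Pm} (h : Gd c) {f S : V → V} {z : V} (hf : Sm f) (hS : Sm S)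
    (h0 : jac f (S z) ≠ 0) (h1 : jac (f ∘ S) z ≠ 0) {μ ν l r k d : ℝ} (H : c.ET μ l r k d)
    (he : EB (c.Em f S z - 1) (tb4 l r k d))
    (hν : ∀ i, EB (c.gam f (S z) * (c.hs i • Dm i (c.Em f S) z)) (ν • Xj c.N)) {κ t : ℝ}
    (hY : ∀ i, EB (c.hs i • Dm i (fun w => c.gam f (S w)) z) ((κ * t) • Xj c.N)) (ht : 0 ≤ κ * t)
    (i : Fin 3) : EB (c.hs i • Dm i (c.gam (f ∘ S)) z - c.hs i • Dm i (fun w => c.gam f (S w)) z)
      ((3 * ν + 7 * μ * (κ * t)) • Xj c.N) := by
  have n0 : 0 ≤ ν := nonneg_of_mul_nonneg_left ((abs_nonneg _).trans (hν 0 2 2)) h.J_pos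
  rw [Dm_gam h hf hS h0 h1, add_sub_assoc, add_smul]
  exact eb_add (side h H he (hν i) n0) (sand h H he (hY i) ht)

open NatP Ftr in
theorem nat : NatStmt := by
  filter_upwards [ev_gd] with N g c hN ok
  have h := g c hN ok
  have hh := h.hs_pos
  refine ⟨fun f z e t l l' r k k' d _ H he h1 h2 => gw_mul H he h1 h2 h, fun f S z hf hS h0 h1 => ?_⟩
  have eT : Th f (f ∘ S) (S z) z = jm S z := by
    rw [Th, jm_cp hf hS, nonsing_inv_mul_cancel_left _ _ (Ne.isUnit h0)]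
  refine ⟨⟨ca_mul h hf hS h0, gam_mul h hf hS h0, eT, jac_comp (hf.dif _) (hS.dif _)⟩,
    fun μ ν l r k d H he hν => ⟨fun κ hκ t ht hD a b i => ?_,
      fun P Hl Hr Hc Hd hH d1 d2 d3 d4 p1 p2 q1 q2 q3 q4 q5 => ?_⟩⟩
  · have k0 : 0 ≤ κ := le_trans (Finset.sum_nonneg fun j _ =>
      div_nonneg (mul_nonneg (abs_nonneg _) (hh 0).le) (hh j).le) (hκ 0)
    have hY : ∀ i, EB (c.hs i • Dm i (fun w => c.gam f (S w)) z) ((κ * t) • Xj c.N) :=
      fun i a b => by
        have := abs_sum_le (x := fun j => c.hs j * pd j (fun w => c.gam f w a b) (S z))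
          (t := fun j => jm S z j i * c.hs i / c.hs j) (W := t * Xj c.N a b) (k := κ)
          (fun j => by rw [abs_mul, abs_of_pos (hh j)]; exact hD a b j)
          (by simpa only [abs_div, abs_mul, abs_of_pos (hh _)] using hκ i)
        rw [Matrix.smul_apply, Dm_comp hf hS h0, smul_eq_mul, Finset.mul_sum]
        refine le_trans (le_of_eq ?_) (this.trans_eq (mul_assoc _ _ _).symm)
        refine congrArg _ (Finset.sum_congr rfl fun j _ => ?_)
        have := hh j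
        field_simp
    have kt := mul_nonneg k0 ht
    have := eb_add (nat_gd h hf hS h0 h1 H he hν hY kt i) (hY i) a b
    rw [sub_add_cancel, absD (hh i), ← add_smul] at this
    refine this.trans (mul_le_mul_of_nonneg_right ?_ (Xj_nonneg _ a b))
    nlinarith [H.1]
  · have t0 : 0 ≤ P.th := nonneg_of_mul_nonneg_left
      ((mul_nonneg (abs_nonneg _) (hh 0).le).trans (d3 0 0 (by decide))) (hh 0)
    have t1 : 0 ≤ P.t3 := (abs_nonneg _).trans d4
    have m0 : 0 ≤ μ := (tb4_nn he).1.trans H.2.1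
    refine ⟨rfl, d1, d2, ?_, eT ▸ d3, eT ▸ d4, fun t ht hD a b i => ?_⟩
    · rw [gam_mul h hf hS h0]
      exact dg_bd (c.gam_symm _ _) he hH (H.2.1.trans H.1) (H.2.2.1.trans H.1) q1 q2 q3
    have hY : ∀ i, EB (c.hs i • Dm i (fun w => c.gam f (S w)) z) ((26 / 25 * t) • Xj c.N) :=
      fun i a b => by
        rw [Matrix.smul_apply, Dm_comp hf hS h0, smul_eq_mul, abs_mul, abs_of_pos (hh i)]
        refine (Fc.vec_le (fun i => (hh i).le) t0 t1 (Fc.nb_of (fun i => (hh i).le) d3 d4)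
          (hD a b) i).trans ?_
        have := mul_nonneg ht (Xj_nonneg c.N a b)
        change _ ≤ 26 / 25 * t * _
        nlinarith
    have := nat_gd h hf hS h0 h1 H he hν hY (by positivity) i a b
    rw [← smul_sub, Matrix.smul_apply, smul_eq_mul, abs_mul, abs_of_pos (hh i), Matrix.sub_apply,
      Dm_comp hf hS h0] at this
    rw [eT]
    refine this.trans (mul_le_mul_of_nonneg_right ?_ (Xj_nonneg _ a b))
    nlinarith [mul_le_mul_of_nonneg_left q5 ht, mul_nonneg m0 ht]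

end
end Pool.Agent.MP_20bec2_an.T3

end MrgPart0

-- ======== part 1: formerly Pool.Agent.MP_20bec2_an.T3.Fmain
section MrgPart1

/-! Row FMAIN: eight colours of cells, then two lateral slides. -/

set_option autoImplicit false
open Set Filter Matrix Topology

namespace Pool.Agent.MP_20bec2_an.T3
noncomputable section
namespace Fm
open Gab

section num
variable {N : ℕ} {A π t t' : ℝ}

lemma mono (h : Big N) (hA : 0 ≤ A) (hπ : 0 ≤ π) (ht : t ≤ t') :
    (FPm N A π t).Le (FPm N A π t') := by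
  have := h.np_pos (-2 / 5); have := h.np_pos (-1 / 20); have := h.J_pos; have := h.q_pos
  simp only [FP.Le, FPm]
  refine ⟨?_, ?_, ?_, ?_, ?_, ?_, ?_, ?_⟩ <;> gcongr

lemma nn (h : Big N) (hA : 0 ≤ A) (hπ : 0 ≤ π) (ht : 0 ≤ t) :
    (⟨0, 0, 0, 0, 0, 0, 0, 0⟩ : FP).Le (FPm N A π t) := by
  simpa [FPm] using mono h hA hπ ht

lemma tn (h : Big N) (ht : t ≤ pq N) : t * np N (-1 / 20) ≤ 1 / 100 ∧ t / pq N ^ 3 ≤ 1 / 100 := by
  have h1 := cJ h (C := 1) (a := -1 / 20) (b := -1 / 100) 1 (by norm_num) (by norm_num) (by norm_num)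
  have h2 := sml h (a := -1 / 100) (by norm_num)
  have h3 := mul_le_mul_of_nonneg_right (ht.trans h.q_le_J) (h.np_pos (-1 / 20)).le
  have q := h.q_ge
  refine ⟨by linarith, (div_le_iff₀ (by positivity)).2 ?_⟩
  have : 100 ≤ pq N ^ 2 := by nlinarith
  nlinarith

lemma smll (h : Big N) (h0 : 0 ≤ t) (ht : t ≤ pq N) : (FPm N A π t).Sml := by
  have := h.np_pos (-1 / 20); have := h.q_pos
  exact ⟨by simp only [FPm]; positivity, (tn h ht).1, by simp only [FPm]; positivity, (tn h ht).1,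
    by simp only [FPm]; positivity, (tn h ht).2⟩

lemma cmp (h : Big N) (hA : 0 ≤ A) (hπ : 0 ≤ π) (h0 : 0 ≤ t) (h1 : 0 ≤ t') (ht : t' ≤ pq N) :
    ((FPm N A π t).cmp (FPm N A π t')).Le (FPm N A π (4 * (t + t'))) := by
  obtain ⟨a1, a2, a3, a4, -, -, -, a8⟩ := nn h hA hπ h0
  obtain ⟨b1, b2, b3, b4, -, -, -, b8⟩ := nn h hA hπ h1
  have m := mul_le_mul_of_nonneg_left (tn h ht).1 a2
  simp only [FP.Le, FP.cmp, FPm, div_eq_mul_inv] at *
  refine ⟨?_, ?_, ?_, ?_, ?_, ?_, ?_, ?_⟩ <;> linarith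

lemma two (h : Big N) (hA : 0 ≤ A) (hπ : 0 ≤ π) (h0 : 0 ≤ t) :
    (FPm N (2 * A) π t).Le (FPm N A π (4 * t)) := by
  obtain ⟨a1, a2, -, -, -, -, -, a8⟩ := nn h hA hπ h0
  have := h.J_pos
  have a3 : 0 ≤ t * (1 / (N * pJ N ^ 6)) := by positivity
  have a4 : 0 ≤ t * (1 / (√N * pJ N ^ 4)) := by positivity
  have a5 : 0 ≤ t * A := by positivity
  have a6 : 0 ≤ t * (A * π) := by positivity
  simp only [FP.Le, FPm, div_eq_mul_inv] at *
  refine ⟨?_, ?_, ?_, ?_, ?_, ?_, ?_, ?_⟩ <;> linarith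

lemma fl (h : Big N) (hA : 0 ≤ A) (hπ : 0 ≤ π) :
    (FPl N (1 / (N * pJ N ^ 9))).Le (FPm N A π 1) := by
  have := h.np_pos (-2 / 5); have := h.np_pos (-1 / 20); have := h.np_pos (93 / 100)
  have := h.J_pos; have := h.q_pos; have := h.N_pos; have := h.L_ge; have := h.J_ge
  have := logc_bd (C := 100) (by norm_num)
  have a : 0 ≤ A * (π + A) := by positivity
  simp only [FP.Le, FPm, FPl, one_mul]
  refine ⟨?_, by positivity, le_add_of_nonneg_of_le a ?_, le_add_of_nonneg_of_le hA ?_, ?_, ?_,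
    by positivity, ?_⟩ <;> refine le_of_log (by positivity) (by positivity) ?_ <;>
    simp (disch := positivity) only [Real.log_div, Real.log_mul, Real.log_pow, Real.log_one,
      h.log_np, h.log_N, h.log_J, h.log_q, h.log_sqrtN] <;> push_cast <;> linarith

lemma hcJ (h : Big N) : 1 / (√N * pJ N ^ 4) ≤ hc N / pJ N ∧
    1 / (N * pJ N ^ 6) ≤ hc N / pJ N * hc N ∧ 1000 * pq N ≤ pJ N ∧
    pA N * (1 / (N * pJ N ^ 9)) ≤ 1 / 100 ∧ 1 / (N * pJ N ^ 9) ≤ np N (-1) := by
  have := h.J_pos; have := h.q_pos; have := h.N_pos; have := h.L_ge; have := h.J_ge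
  have := h.hc_pos; have := h.pA_pos; have := h.np_pos (-1)
  have := logc_bd (C := 100) (by norm_num); have := logc_bd (C := 1000) (by norm_num)
  have := logc_bd (C := 3) (by norm_num)
  refine ⟨?_, ?_, ?_, ?_, ?_⟩ <;> refine le_of_log (by positivity) (by positivity) ?_ <;>
    simp (disch := positivity) only [Real.log_div, Real.log_mul, Real.log_pow, Real.log_one,
      h.log_np, h.log_N, h.log_J, h.log_q, h.log_sqrtN, h.log_hc, h.log_pA] <;> push_cast <;> linarith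
end num

variable {c : Pm}

lemma A_le (h : Gd c) {a : ℝ} (ha : a ≤ √(c.q * c.J)) : √(c.bb / c.N) * a ≤ hc c.N / c.J := by
  have b := h.big
  have := h.J_pos; have := h.q_pos; have := h.N_pos; have := b.L_ge; have := b.hc_pos
  have := h.bb_pos; have := logc_bd (C := 3) (by norm_num); have := h.log_bb_bd.2
  refine (mul_le_mul_of_nonneg_left ha (Real.sqrt_nonneg _)).trans
    (le_of_log (by positivity) (by positivity) ?_)
  simp (disch := positivity) only [Real.log_div, Real.log_mul, Real.log_sqrt, b.log_N, h.log_J,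
    h.log_q, b.log_hc]
  linarith

lemma step (h : Gd c) {f f' : V → V} {z' z : V} {s A π t : ℝ} (H : c.GW f z' s)
    (R : FRel c f f' z' z (FPm c.N A π t)) (hA : 0 ≤ A) (hA' : A ≤ hc c.N / c.J) (hπ : 0 ≤ π)
    (hπ' : π ≤ 3 * hc c.N) (ht : t ≤ c.q) : c.GW f' z (s + 1 / 2) := by
  obtain ⟨k1, k2, k3, -⟩ := hcJ h.big
  have J0 := h.J_pos; have h0 := h.big.hc_pos; have N0 := h.N_pos
  have J1 : 1 ≤ c.J := one_le_J h.big
  have e1 : hc c.N / c.J ≤ hc c.N := div_le_self h0.le J1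
  have e2 : c.J / 1000 * (hc c.N / c.J) = hc c.N / 1000 := by field_simp
  have e3 : hc c.N * hc c.N = 9 * (c.J ^ 4 / c.N) := by
    rw [hc, div_mul_div_comm, Real.mul_self_sqrt N0.le, Pm.J]; ring
  have t1 : t ≤ c.J / 1000 := by unfold Pm.q Pm.J at *; linarith
  refine H.step R ?_ ?_ ((tn h.big ht).1.trans (by norm_num))
  · have a1 : A * (π + A) ≤ hc c.N / c.J * (4 * hc c.N) :=
      mul_le_mul hA' (by linarith) (by positivity) (by positivity)
    refine (mul_le_mul t1 (add_le_add a1 k2) (by positivity) (by positivity)).trans ?_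
    change _ * (_ + hc c.N / c.J * _) ≤ _
    have : c.J / 1000 * (hc c.N / c.J * (4 * hc c.N) + hc c.N / c.J * hc c.N) =
      5 * (c.J / 1000 * (hc c.N / c.J)) * hc c.N := by ring
    rw [this, e2]
    linarith [h.J4N_pos]
  · refine (mul_le_mul t1 (add_le_add hA' k1) (by positivity) (by positivity)).trans ?_
    change _ * (_ + hc c.N / c.J) ≤ _
    rw [mul_add, e2]
    linarith

lemma loop (hS : CsumStmt) (hC : ColStmt) (j : ℕ) (hj : j ≤ 8) : ∃ t : ℝ, 1 ≤ t ∧ EvC fun c =>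
    ∀ (O : Mx) (f : V → V) (ch : Cu → ℝ → V) (F : V → V), Orth O → Sm f → (∀ z, 0 < jac f z) →
    c.MB (2 * eps0) 1 (jac f) (RX O c.D (97 / 100)) → c.ChB ch → c.FC O ch F →
    ∃ S, c.FI O f ch F j S t := by
  induction j with
  | zero =>
    refine ⟨1, le_rfl, ?_⟩
    filter_upwards [ev_gd, hS] with N g hS c hN ok O f ch F hO _ hp _ hch hF
    have h := g c hN ok
    refine ⟨id, SB'.id, fun _ _ => rfl, fun z => ?_, fun z => by simp, fun z a π h1 _ h2 _ _ _ _ => ?_⟩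
    · rw [((hS c hN ok O ch F hO hch hF).2.2.2.1 z).1, add_zero]; rfl
    · exact FRel.refl_ev (fun i => (h.hs_pos i).le) EventuallyEq.rfl (hp z).ne'
        (nn h.big (by positivity) h2 zero_le_one)
  | succ j ih =>
    obtain ⟨t, ht, H⟩ := ih (by omega)
    obtain ⟨t', ht', H'⟩ := hC t ht
    refine ⟨t', ht', ?_⟩
    filter_upwards [H, H'] with N H H' c hN ok O f ch F hO hf hp hM hch hF
    obtain ⟨S, hS⟩ := H c hN ok O f ch F hO hf hp hM hch hF
    exact H' c hN ok O f ch F j S hO hf hp hM hch hF (by omega) hS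

end Fm

open Fm Gab in
theorem fmain_of (hK : CutStmt) (hS : CsumStmt) (hC : ColStmt) (hL : LsStmt) : FmainStmt := by
  obtain ⟨t, ht, H⟩ := loop hS hC 8 le_rfl
  filter_upwards [ev_gd, hK, hS, hL, H, ev_C_qp (100 * t) (c := 2 / 5) (by norm_num)]
    with N g hK hS hL H hq c hN ok O f ch F hO hf hp hM hch hF
  subst hN
  have h := g c rfl ok
  have b := h.big
  have hh := h.hs_pos
  have h0 : ∀ i, 0 ≤ c.hs i := fun i => (hh i).le
  obtain ⟨hF', hE⟩ := hK c rfl ok O ch F hO hch hF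
  obtain ⟨b0, b1, m1, m2, m3⟩ := hS c rfl ok O ch _ hO hch hF'
  obtain ⟨S, I⟩ := H c rfl ok O f ch _ hO hf hp hM hch hF'
  set G := cutF O c.D F
  have cK := Prof.RX_closed O c.D (953 / 1000)
  have mo : ∀ {r r' : ℝ}, r ≤ r' → RX O c.D r ⊆ RX O c.D r' := Prof.RX_mono O h.D_pos.le
  obtain ⟨-, -, -, n1, n2⟩ := hcJ b
  have β0 : 0 ≤ 8 * c.bL := by positivity
  have β1 : 8 * c.bL ≤ 1 / (c.N * c.J ^ 9) := (le_mul_of_one_le_right β0 (le_max_left _ _)).trans b1
  have n3 := cN b (C := 8) (a := -27 / 100) (b := -245 / 1000) (by norm_num) (by norm_num)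
  have n4 := sml b (a := -245 / 1000) (by norm_num)
  have n5 : 8 * c.bL ≤ np c.N (-245 / 1000) := β1.trans (n2.trans (b.np_le (by norm_num)))
  have lat : ∀ (i : Fin 3) (g : V → V), i ≠ 2 → Sm g →
      c.MW (1 / 100) 50 (jac g) (RX O c.D (97 / 100)) →
      (∀ z, z ∉ RX O c.D (953 / 1000) → jac g z = jac f z) → (∀ z, 0 < jac g z) ∧
      ∃ T, SB' T ∧ (∀ z, z ∉ RX O c.D (953 / 1000) → T z = z) ∧
        (∀ z, jac (g ∘ T) z = jac g z + pd i (c.bS ch G i) z) ∧
        (∀ z j, |T z j - z j| ≤ if j = 2 then 0 else 1 / 50 * c.hs j) ∧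
        ∀ z (A π : ℝ), 0 ≤ A → 0 ≤ π → c.GW g (T z) 3 → FRel c g (g ∘ T) (T z) z (FPm c.N A π 1) :=
    fun i g hi hg hM ho => by
      have hp' : ∀ z, 0 < jac g z := fun z => by
        by_cases hz : z ∈ RX O c.D (953 / 1000)
        · linarith [(abs_le.1 (hM.1 z (mo (by norm_num) hz))).1]
        · rw [ho z hz]; exact hp z
      obtain ⟨s1, s2, s3, s4⟩ := m3 i hi
      obtain ⟨T, k1, k2, k3, k4, k5⟩ := hL c rfl ok O (953 / 1000) g i _ _ _ hi hO hg hp' s1 β0 b1
        le_rfl s2 (hM.mono h le_rfl le_rfl (mo (by norm_num))) s3 (s4.of_le (by norm_num))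
      have k6 := fun z hz => k2 z (s2 z hz)
      refine ⟨hp', T, k1, k6, k3, fun z j => (k4 z j).trans ?_, fun z A π hA hπ hG => ?_⟩
      · have := mul_le_mul_of_nonneg_left β1 b.pA_pos.le
        have := hh j
        split_ifs with e1 e2
        · exact absurd (e1.symm.trans e2) hi
        · subst e1
          exact mul_le_mul_of_nonneg_right (by unfold Pm.J at *; linarith) (h0 _)
        · exact le_rfl
        · positivity
      by_cases hz : z ∈ RX O c.D (953 / 1000)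
      · exact ((k5 z hz).2 hG).mono h0 (fl b hA hπ)
      · rw [k6 z hz]
        exact FRel.refl_ev h0 (comp_ev_id (ev_id_off cK k6 hz)) (hp' z).ne' (nn b hA hπ zero_le_one)
  have f8 : Sm (f ∘ S) := hf.comp I.sb.1
  have W8 := (hM.mw h zero_le_one).add h hf.jac (m1 8).1 ((m1 8).2.1.monoU (subset_univ _)) n3
  rw [← funext I.jc] at W8
  have o8 : ∀ z, z ∉ RX O c.D (953 / 1000) → jac (f ∘ S) z = jac f z := fun z hz => by
    rw [I.jc, ((m1 8).2.2 z).1 hz, add_zero]
  obtain ⟨p8, S1, a1, a2, a3, a4, a5⟩ := lat 0 _ (by decide) f8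
    (W8.mono h (by simp only [eps0]; linarith) (by norm_num) le_rfl) o8
  obtain ⟨s1, s2, -, s4⟩ := m3 0 (by decide)
  have W9 := W8.add h f8.jac (s1.pd 0) (((s4.pd_div hh 0).monoB
    ((div_le_iff₀ (hh 0)).2 le_rfl)).monoU (subset_univ _)) n5
  rw [← funext a3] at W9
  obtain ⟨p9, S2, c1, c2, c3, c4, c5⟩ := lat 1 _ (by decide) (f8.comp a1.1)
    (W9.mono h (by simp only [eps0]; linarith) (by norm_num) le_rfl) fun z hz => by
      rw [a3, o8 z hz, show pd 0 (c.bS ch G 0) z = 0 from pds_zero_off cK s2 [0] z hz, add_zero]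
  have sb := I.sb.comp (a1.comp c1)
  refine ⟨S ∘ S1 ∘ S2, sb.1, sb.2, fun z hz => ?_, fun z => ?_, fun z => ?_,
    fun z a π u1 u2 u3 u4 _ u5 u6 u7 => ?_⟩
  · have hz' : z ∉ RX O c.D (953 / 1000) := fun k => hz (mo (by norm_num) k)
    simp only [Function.comp, c2 z hz', a2 z hz', I.off z hz']
  · refine (c3 z).trans ?_
    rw [a3, I.jc, ← (m2 z).2]; ring
  · refine (pi_norm_le_iff_of_nonneg h.y_pos.le).2 fun i => ?_
    have d1 := a4 (S2 z) i
    have d2 := c4 z i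
    have d3 := abs_add_three (S (S1 (S2 z)) i - S1 (S2 z) i) (S1 (S2 z) i - S2 z i) (S2 z i - z i)
    rw [sub_add_sub_cancel, sub_add_sub_cancel] at d3
    refine le_trans d3 ?_
    have y0 := h.y_pos
    by_cases hi : i = 2
    · subst hi
      have d4 := (I.mv (S1 (S2 z))).2
      have := mul_le_mul_of_nonneg_right (sml b (a := -1 / 20) (by norm_num)) y0.le
      rw [if_pos rfl] at d1 d2
      push_cast at d4
      linarith
    · have d4 := (I.mv (S1 (S2 z))).1 i hi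
      have := mul_le_mul_of_nonneg_right (sml b (a := -2 / 5) (by norm_num)) (h0 i)
      rw [if_neg hi] at d1 d2
      push_cast at d4
      linarith [(hs_le h i).2]
  have hq' : qp c.N (2 / 5) ≤ c.q := (b.qp_le (by norm_num)).trans_eq (qp_one _)
  have q1 : (1 : ℝ) ≤ pq c.N := le_trans (by norm_num) b.q_ge
  have R0 := I.rel (S1 (S2 z)) (2 * a) π (by linarith) (by linarith) u3 u4 u5 (hE _ a u1 u6) u7
  have A1 := A_le h u2
  have A0 : 0 ≤ √(c.bb / c.N) * a := by positivity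
  rw [mul_left_comm] at R0
  generalize √(c.bb / c.N) * a = A at *
  replace R0 := R0.mono h0 (two b A0 u3 (by linarith))
  have G1 := step h (u5.gw (by norm_num)) R0 A0 A1 u3 u4 (by linarith)
  have R1 := a5 (S2 z) A π A0 u3 (G1.mono h (by norm_num))
  have R2 := c5 z A π A0 u3 ((step h G1 R1 A0 A1 u3 u4 q1).mono h (by norm_num))
  have q2 : 100 * t ≤ pq c.N := hq.trans hq'
  have R3 := (FRel.comp hh (p8 _).ne' (smll b (by linarith) (by linarith)) (smll b zero_le_one q1)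
    R0 R1).mono h0 (cmp b A0 u3 (by linarith) zero_le_one q1)
  exact ((FRel.comp hh (p9 _).ne' (smll b (by linarith) (by linarith)) (smll b zero_le_one q1)
    R3 R2).mono h0 (cmp b A0 u3 (by linarith) zero_le_one q1)).mono h0 (mono b A0 u3 (by linarith))

end
end Pool.Agent.MP_20bec2_an.T3

end MrgPart1

-- ======== part 2: formerly Pool.Agent.MP_20bec2_an.T3.Vs
section MrgPart2

/-! Row VS: the straight vertical slide of size `q y`. -/

set_option autoImplicit false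
open MeasureTheory Set Filter Matrix Topology

namespace Pool.Agent.MP_20bec2_an.T3
noncomputable section
open Classical

namespace Vs
open Prof

/-- the unit vector -/
abbrev ev : V := Pi.single 2 1

/-- the matrix with two entries in the last row -/
def rw2 (u v : ℝ) : Mx := !![0, 0, 0; 0, 0, 0; u, v, 0]

lemma rw2_eb {u v r : ℝ} (hu : |u| ≤ r) (hv : |v| ≤ r) : EB (rw2 u v) (tb4 0 r 0 0) := fun i j => by
  fin_cases i <;> fin_cases j <;> simp [rw2, tb4, hu, hv]

lemma jm_sl {σ : V → ℝ} (h : Sm σ) (z : V) (a b : Fin 3) :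
    jm (fun w => w + σ w • ev) z a b =
      (if a = b then 1 else 0) + if a = 2 then pd b σ z else 0 := by
  rw [jm_id_add (Y := fun w => σ w • ev) ((h.dif z).smul_const _), jm_smul_const,
    Matrix.add_apply, one_apply, vecMulVec_apply, ev, Pi.single_apply]
  split_ifs <;> simp

/-- the part of the derivative of the datum that is not carried by the density -/
def Bj (M a σ : V → ℝ) (j : Fin 3) (w : V) : ℝ :=
  pd j a w - ∫ t in (0 : ℝ)..σ w, pd j M (w + t • ev)

lemma Bj_pd {M a σ : V → ℝ} (hM : Sm M) (ha : Sm a) (hσ : Sm σ) (i j : Fin 3) (z : V) :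
    pd i (Bj M a σ j) z = pd i (pd j a) z -
      ((∫ t in (0 : ℝ)..σ z, pd i (pd j M) (z + t • ev)) + pd j M (z + σ z • ev) * pd i σ z) := by
  obtain ⟨d, e⟩ := (JC.line (hM.pd j) ev).upper 0 (hσ.dif z)
  have h3 : ∀ r : ℝ, pd i (fun x => pd j M (x + r • ev)) z = pd i (pd j M) (z + r • ev) :=
    fun r => congrFun (pds_comp_add (pd j M) _ [i]) z
  unfold Bj
  rw [pd_sub_at ((ha.pd j).dif z) d, e]
  simp only [h3]

lemma int_le {g : ℝ → ℝ} {s T h b : ℝ} (hs : |s| ≤ T) (hh : 0 ≤ h)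
    (H : ∀ t, |t| ≤ T → h * |g t| ≤ b) : h * |∫ t in (0 : ℝ)..s, g t| ≤ b * T := by
  have b0 : 0 ≤ b := (mul_nonneg hh (abs_nonneg _)).trans
    (H 0 (by rw [abs_zero]; exact (abs_nonneg _).trans hs))
  rw [← abs_of_nonneg hh, ← abs_mul, ← intervalIntegral.integral_const_mul]
  refine le_trans (intervalIntegral.norm_integral_le_of_norm_le_const (C := b)
    (f := fun t => h * g t) (a := 0) (b := s) fun t ht => ?_) ?_
  · rw [Real.norm_eq_abs, abs_mul, abs_of_nonneg hh]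
    refine H t (le_trans ?_ hs)
    simpa using abs_sub_left_of_mem_uIcc (uIoc_subset_uIcc ht)
  · rw [sub_zero]
    exact mul_le_mul_of_nonneg_left hs b0

lemma sol_le {M : V → ℝ} (hM : Continuous M) (hp : ∀ z, 0 < M z) {z : V} {s T : ℝ} (hT : 0 ≤ T)
    (H : ∀ t, |t| ≤ T → |M (z + t • ev) - 1| ≤ 1 / 2) (hs : |Sl.G M ev z s| ≤ T / 2) :
    |s| ≤ T := by
  have key : ∀ u, |u| ≤ T → |Sl.G M ev z u - u| ≤ 1 / 2 * T := fun u hu => by
    have := int_le (g := fun t => M (z + t • ev) - 1) hu zero_le_one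
      fun t ht => by rw [one_mul]; exact H t ht
    rwa [one_mul, intervalIntegral.integral_sub ((Sl.cont_line hM ev z).intervalIntegrable _ _)
      intervalIntegrable_const, intervalIntegral.integral_const, sub_zero, smul_eq_mul,
      mul_one] at this
  have m := Sl.G_mono hM hp ev z
  have k1 := abs_le.1 (key T (abs_of_nonneg hT).le)
  have k2 := abs_le.1 (key (-T) (by rw [abs_neg]; exact (abs_of_nonneg hT).le))
  have k3 := abs_le.1 hs
  exact abs_le.2 ⟨m.le_iff_le.1 (by linarith), m.le_iff_le.1 (by linarith)⟩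

lemma em_eq {c : Pm} (h : Gd c) {f : V → V} {σ : V → ℝ} (hσ : Sm σ) {w : V}
    (h1 : jac f (w + σ w • ev) ≠ 0) (h2 : jac (f ∘ fun w => w + σ w • ev) w ≠ 0)
    (h3 : jac (f ∘ fun w => w + σ w • ev) w = jac f (w + σ w • ev) * (1 + pd 2 σ w)) :
    c.Em f (fun w => w + σ w • ev) w =
      1 + rw2 (c.cc 0 / c.n12 * (jac f (w + σ w • ev) * pd 0 σ w))
        (c.cc 1 / c.n12 * (jac f (w + σ w • ev) * pd 1 σ w)) := by
  have p1 := h.c1_pos.ne'
  have p2 := h.c2_pos.ne'
  have p3 := h.n12_pos.ne'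
  have h4 : 1 + pd 2 σ w ≠ 0 := fun e => h2 (by rw [h3, e, mul_zero])
  ext a b
  rw [Pm.Em, of_apply, jm_sl hσ, h3]
  fin_cases a <;> fin_cases b <;> simp [rw2, Pm.cj, Pm.cc, p1, p2] <;> field_simp

section num
variable {c : Pm} (h : Gd c)
include h

lemma cc_hs {j : Fin 3} (hj : j ≠ 2) :
    c.cc j / c.n12 * (3 * np c.N (-24 / 100) * c.y) ≤ np c.N (-63 / 100) * c.hs j := by
  have := h.n12_pos; have := h.y_pos; have := h.big.np_pos (-24 / 100)
  have := h.big.np_pos (-63 / 100); have := h.cc_pos j; have := h.hs_pos j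
  have l3 := logc_bd (show (1 : ℝ) ≤ 3 by norm_num)
  have k1 : Real.log (c.cc j) ≤ -Real.log c.s1 ∧ Real.log c.lam ≤ Real.log (c.hs j) := by
    fin_cases j
    · exact ⟨by change Real.log c.c1 ≤ _; linarith [h.log_c1, h.log_η_le],
        Real.log_le_log h.lam_pos h.lam_le_l1⟩
    · exact ⟨by change Real.log c.c2 ≤ _; linarith [h.log_c2, h.log_K, h.log_K_bd.1], le_rfl⟩
    · exact absurd rfl hj
  refine le_of_log (by positivity) (by positivity) ?_
  simp (disch := positivity) only [Real.log_mul, Real.log_div, h.big.log_np, h.log_y]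
  linarith [h.log_s1_ge, h.log_n12_bd.1, h.big.L_ge, h.big.J_ge, k1.1, k1.2]

lemma num1 : 1 ≤ qp c.N (6 / 5) ∧ 150 * (qp c.N (6 / 5) * np c.N (-245 / 1000)) ≤ np c.N (-24 / 100) ∧
    4000 * (qp c.N (6 / 5) * c.y) ≤ c.D ∧ 2 * qp c.N (6 / 5) ≤ qp c.N (13 / 10) ∧
    3 * np c.N (-24 / 100) ≤ np c.N (-1 / 5) ∧ np c.N (-1 / 5) ≤ 1 / 100 := by
  have := h.y_pos; have := h.big.np_pos (-24 / 100); have := h.big.np_pos (-245 / 1000)
  have := h.big.qp_pos (6 / 5); have := h.big.qp_pos (13 / 10); have := h.D_pos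
  have := h.big.np_pos (-1 / 5)
  have l1 := logc_bd (show (1 : ℝ) ≤ 3 by norm_num)
  have l2 := logc_bd (show (1 : ℝ) ≤ 150 by norm_num)
  have l3 := logc_bd (show (1 : ℝ) ≤ 4000 by norm_num)
  have l4 := logc_bd (show (1 : ℝ) ≤ 100 by norm_num)
  have l5 := Real.log_le_log h.lam_pos h.lam_le_lb
  refine ⟨?_, ?_, ?_, ?_, ?_, ?_⟩ <;> refine le_of_log (by positivity) (by positivity) ?_ <;>
    simp (disch := positivity) only [Real.log_mul, Real.log_div, Real.log_one, h.big.log_np,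
      h.big.log_qp, h.log_y, h.log_D] <;>
    linarith [h.big.L_ge, h.big.J_ge, log2_bd.2]

lemma num2 : np c.N (-12 / 100) ≤ 1 / 100 ∧
    np c.N (-63 / 100) ≤ np c.N (-12 / 100) * (c.J / Real.sqrt c.N) ∧
    3 * hc c.N * np c.N (-63 / 100) ≤ np c.N (-12 / 100) * (pJ c.N ^ 4 / c.N) ∧
    (1 + 3 / 10) * np c.N (-63 / 100) ≤ np c.N (-12 / 100) * (pJ c.N ^ 3 / Real.sqrt c.N) ∧
    20 * (hc c.N * np c.N (-63 / 100)) ≤ np c.N (-11 / 10) ∧ np c.N (-63 / 100) ≤ hc c.N ∧
    3 * np c.N (-63 / 100) ≤ np c.N (-3 / 5) ∧ 8 * np c.N (-12 / 100) ≤ np c.N (-1 / 10) := by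
  have := h.big.np_pos (-12 / 100); have := h.big.np_pos (-63 / 100); have := h.J_pos
  have := h.big.J_pos; have := h.N_pos; have := h.big.hc_pos; have := h.big.np_pos (-11 / 10)
  have := h.big.np_pos (-3 / 5); have := h.big.np_pos (-1 / 10)
  have l1 := logc_bd (show (1 : ℝ) ≤ 3 by norm_num)
  have l2 := logc_bd (show (1 : ℝ) ≤ 20 by norm_num)
  have l3 := logc_bd (show (1 : ℝ) ≤ 8 by norm_num)
  have l4 := logc_bd (show (1 : ℝ) ≤ 100 by norm_num)
  have l5 := logc_bd (show (1 : ℝ) ≤ 1 + 3 / 10 by norm_num)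
  refine ⟨?_, ?_, ?_, ?_, ?_, ?_, ?_, ?_⟩ <;>
    refine le_of_log (by positivity) (by positivity) ?_ <;>
    simp (disch := positivity) only [Real.log_mul, Real.log_div, Real.log_one, Real.log_pow,
      h.big.log_np, h.log_J, h.big.log_J, h.big.log_N, h.big.log_sqrtN, h.big.log_hc] <;>
    push_cast <;> linarith [h.big.L_ge, h.big.J_ge]

end num

lemma rw2_lat (d : V) (u v : ℝ) : (∀ i j, i ≠ 2 → j ≠ 2 → d i * |rw2 u v i j| ≤ 0) ∧
    ∀ i, i ≠ 2 → d i * |rw2 u v i 2| ≤ 0 := by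
  have : ∀ i j, i ≠ 2 → rw2 u v i j = 0 := fun i j hi => by
    fin_cases i
    · fin_cases j <;> rfl
    · fin_cases j <;> rfl
    · exact absurd rfl hi
  exact ⟨fun i j hi _ => by rw [this i j hi, abs_zero, mul_zero],
    fun i hi => by rw [this i 2 hi, abs_zero, mul_zero]⟩

lemma dm_rw2 (u v s : ℝ) (p q : V → ℝ) (i : Fin 3) (z : V) :
    s • Ftr.Dm i (fun w => 1 + rw2 (u * p w) (v * q w)) z =
      rw2 (u * (s * pd i p z)) (v * (s * pd i q z)) := by
  ext a b
  fin_cases a <;> fin_cases b <;> simp [Ftr.Dm, rw2, pd_const_mul] <;> ring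

lemma tb_le {N : ℕ} {ν x y : ℝ} (h : Big N) (hν : 0 ≤ ν) (hx : x ≤ ν * (pJ N ^ 4 / N))
    (hy : y ≤ ν * (pJ N ^ 3 / Real.sqrt N)) (p q : Fin 3) : tb4 x y 0 0 p q ≤ (ν • Xj N) p q := by
  have z1 : 0 ≤ ν * (pJ N ^ 3 / Real.sqrt N) := by have := h.J_pos; positivity
  have z2 := mul_nonneg hν h.J_pos.le
  fin_cases p <;> fin_cases q
  exacts [hx, hx, z1, hx, hx, z1, hy, hy, z2]

lemma quo {m m' s e : ℝ} (he : e ≤ 1 / 1000) (h : |m - 1| ≤ e) (h' : |m' - 1| ≤ e)
    (eq : m' = m * (1 + s)) : |s| ≤ 3 * e := by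
  have k0 := abs_le.1 h
  have k1 := abs_le.1 h'
  have a1 : |m * s| ≤ 2 * e := abs_le.2 ⟨by linarith, by linarith⟩
  rw [abs_mul, abs_of_pos (show 0 < m by linarith)] at a1
  have a2 := mul_le_mul_of_nonneg_right (show 2 / 3 ≤ m by linarith) (abs_nonneg s)
  linarith

/-- the estimates at one point -/
lemma est {c : Pm} (h : Gd c) {O : Mx} {r e : ℝ} {M a σ : V → ℝ} (hO : Orth O) (sM : Sm M)
    (hp : ∀ z, 0 < M z) (ha : Sm a) (sσ : Sm σ) (he : e ≤ 1 / 1000)
    (hM : c.MW e 50 M (RX O c.D (r + 1 / 1000))) (cb : CB 2 c.hs univ a (qp c.N (6 / 5) * c.y))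
    (cl : CL 2 c.hs univ a (np c.N (-24 / 100) * c.y)) {z : V} (hz : z ∈ RX O c.D r)
    (hM' : |M (z + σ z • ev) * (1 + pd 2 σ z) - 1| ≤ e) (hσ : Sl.G M ev z (σ z) = a z)
    (dσ : ∀ j, M (z + σ z • ev) * pd j σ z = Bj M a σ j z) :
    |σ z| ≤ qp c.N (13 / 10) * c.y ∧ |pd 2 σ z| ≤ 3 * e ∧ ∀ j, j ≠ 2 →
      c.hs j * |pd j σ z| ≤ np c.N (-1 / 5) * c.y ∧
      |c.cc j / c.n12 * Bj M a σ j z| ≤ np c.N (-63 / 100) ∧
      ∀ i, |c.cc j / c.n12 * (c.hs i * pd i (Bj M a σ j) z)| ≤ np c.N (-63 / 100) := by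
  obtain ⟨n1, n2, n3, n4, n5, n6⟩ := num1 h
  have py := h.y_pos
  obtain ⟨T, hT⟩ : ∃ T, T = 2 * (qp c.N (6 / 5) * c.y) := ⟨_, rfl⟩
  have T0 : 0 ≤ T := by have := h.big.qp_pos (6 / 5); rw [hT]; positivity
  have seg : ∀ t, |t| ≤ T → z + t • ev ∈ RX O c.D (r + 1 / 1000) := fun t ht =>
    RX_add hO hz (by
      rw [add_sub_cancel_left, norm_smul, Pi.norm_single, norm_one, mul_one, Real.norm_eq_abs]
      linarith)
  have s0 : |σ z| ≤ T := sol_le sM.continuous hp T0
    (fun t ht => (hM.1 _ (seg t ht)).trans (by linarith)) (by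
      have : |a z| ≤ qp c.N (6 / 5) * c.y := by
        simpa [T3.hp, pds] using cb [] (by simp) z (mem_univ _)
      rw [hσ]
      linarith)
  have k0 := hM.1 _ (seg _ s0)
  have pw := h.big.np_pos (-245 / 1000)
  have pv := h.big.np_pos (-24 / 100)
  have u1 : 50 * np c.N (-245 / 1000) * T + 50 * np c.N (-245 / 1000) * c.y ≤
      np c.N (-24 / 100) * c.y := by
    have a1 := mul_le_mul_of_nonneg_right n2 py.le
    have a2 := mul_le_mul_of_nonneg_right n1 (mul_pos pw py).le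
    rw [hT]
    linarith
  have u2 := mul_pos pw py
  have u3 := mul_pos pv py
  have d1 : ∀ j, j ≠ 2 → ∀ t, |t| ≤ T →
      c.hs j * |pd j M (z + t • ev)| ≤ 50 * np c.N (-245 / 1000) := fun j hj t ht => by
    simpa [T3.hp, pds] using hM.2.2 [j] ⟨by simp, j, by simp, hj⟩ _ (seg t ht)
  have b1 : ∀ j, j ≠ 2 → c.hs j * |Bj M a σ j z| ≤ 2 * (np c.N (-24 / 100) * c.y) :=
    fun j hj => by
      have a1 : c.hs j * |pd j a z| ≤ np c.N (-24 / 100) * c.y := by
        simpa [T3.hp, pds] using cl [j] ⟨by simp, j, by simp, hj⟩ z (mem_univ _)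
      have a2 := int_le s0 (h.hs_pos j).le (d1 j hj)
      have a3 := mul_le_mul_of_nonneg_left (abs_sub (pd j a z)
        (∫ t in (0 : ℝ)..σ z, pd j M (z + t • ev))) (h.hs_pos j).le
      unfold Bj
      linarith
  have s1 : ∀ j, j ≠ 2 → c.hs j * |pd j σ z| ≤ 3 * np c.N (-24 / 100) * c.y := fun j hj => by
    have a1 := b1 j hj
    rw [← dσ, abs_mul, abs_of_pos (hp _), mul_left_comm] at a1
    have a2 := mul_le_mul_of_nonneg_right
      (show 2 / 3 ≤ M (z + σ z • ev) by linarith [(abs_le.1 k0).1])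
      (mul_nonneg (h.hs_pos j).le (abs_nonneg (pd j σ z)))
    linarith
  have s2 : |pd 2 σ z| ≤ 3 * e := quo he k0 hM' rfl
  have s3 : ∀ i, c.hs i * |pd i σ z| ≤ c.y := fun i => by
    by_cases hi : i = 2
    · subst hi
      exact mul_le_of_le_one_right py.le (by linarith)
    · exact (s1 i hi).trans (mul_le_of_le_one_left py.le (by linarith))
  have b2 : ∀ j, j ≠ 2 → ∀ i, c.hs j * |c.hs i * pd i (Bj M a σ j) z| ≤
      2 * (np c.N (-24 / 100) * c.y) := fun j hj i => by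
    have pi := h.hs_pos i
    have pj := h.hs_pos j
    have a1 : c.hs i * c.hs j * |pd i (pd j a) z| ≤ np c.N (-24 / 100) * c.y := by
      simpa [T3.hp, pds] using cl [i, j] ⟨by simp, j, by simp, hj⟩ z (mem_univ _)
    have a2 := int_le (g := fun t => pd i (pd j M) (z + t • ev)) s0 (mul_pos pi pj).le
      (b := 50 * np c.N (-245 / 1000)) fun t ht => by
        simpa [T3.hp, pds] using hM.2.2 [i, j] ⟨by simp, j, by simp, hj⟩ _ (seg t ht)
    have a3 := mul_le_mul (d1 j hj _ s0) (s3 i) (mul_nonneg pi.le (abs_nonneg _)) (by linarith)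
    have a4 := mul_le_mul_of_nonneg_left ((abs_sub (pd i (pd j a) z) _).trans (add_le_add le_rfl
      (abs_add_le (∫ t in (0 : ℝ)..σ z, pd i (pd j M) (z + t • ev))
        (pd j M (z + σ z • ev) * pd i σ z)))) (mul_pos pi pj).le
    rw [abs_mul, abs_of_pos pi, Bj_pd sM ha sσ]
    rw [abs_mul (pd j M _)] at a4
    linarith
  have sc : ∀ j, j ≠ 2 → ∀ x : ℝ, c.hs j * |x| ≤ 2 * (np c.N (-24 / 100) * c.y) →
      |c.cc j / c.n12 * x| ≤ np c.N (-63 / 100) := fun j hj x hx => by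
    have p := div_pos (h.cc_pos j) h.n12_pos
    have a1 := mul_le_mul_of_nonneg_left
      (show c.hs j * |x| ≤ 3 * np c.N (-24 / 100) * c.y by linarith) p.le
    rw [abs_mul, abs_of_pos p]
    refine le_of_mul_le_mul_right ?_ (h.hs_pos j)
    linarith [cc_hs h hj]
  exact ⟨by linarith [mul_le_mul_of_nonneg_right n4 py.le], s2, fun j hj =>
    ⟨(s1 j hj).trans (mul_le_mul_of_nonneg_right n5 py.le), sc j hj _ (b1 j hj),
      fun i => sc j hj _ (b2 j hj i)⟩⟩

lemma fin {c : Pm} (h : Gd c) : 3 * (3 * hc c.N * np c.N (-63 / 100)) +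
      np c.N (-63 / 100) * ((1 + 3 / 10) * np c.N (-63 / 100)) ≤ np c.N (-11 / 10) ∧
    0 + 2 * ((1 + 3 / 10) * np c.N (-63 / 100)) + 2 * 0 * (3 * hc c.N * np c.N (-63 / 100)) ≤
      np c.N (-3 / 5) ∧ 3 * 0 + 2 * 0 * 0 ≤ np c.N (-1) ∧
    3 * np c.N (-12 / 100) ≤ np c.N (-1 / 10) ∧
    c.ET (np c.N (-12 / 100)) 0 (np c.N (-63 / 100)) 0 0 := by
  obtain ⟨m1, m2, -, -, m5, m6, m7, m8⟩ := num2 h
  have pν := h.big.np_pos (-12 / 100)
  have pρ := h.big.np_pos (-63 / 100)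
  have a1 := mul_le_mul_of_nonneg_right m6 pρ.le
  have a2 := mul_pos h.big.hc_pos pρ
  have := h.J_pos
  exact ⟨by linarith, by linarith, by linarith [h.big.np_pos (-1)], by linarith, m1, pν.le, pν.le,
    m2, by positivity⟩

end Vs

open Vs Prof in
theorem vs (hN : NatStmt) : VsStmt := by
  filter_upwards [ev_gd, hN] with N hg hN c hcN ok O r e f a hO hf hp ha he off hM hM' cb cl
  have h := hg c hcN ok
  obtain ⟨nat1, nat2⟩ := hN c hcN ok
  have sM := hf.jac
  have hq : ∀ z, 0 < jac f z + pd 2 a z := fun z => by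
    by_cases hz : z ∈ RX O c.D r
    · linarith [(abs_le.1 (hM' z hz)).1]
    · rw [show pd 2 a z = 0 from pds_zero_off (RX_closed O c.D r) off [2] z hz, add_zero]
      exact hp z
  obtain ⟨σ, sσ, bij, hσ, dσ, hj⟩ := slide 2 (jac f) a sM ha hp hq fun z =>
    ⟨‖z‖ + 2 * (r * c.D) + 1, fun t ht => off _ fun hx => by
      have h1 := RX_norm hO hx
      have h2 := norm_sub_le (z + t • ev) z
      rw [add_sub_cancel_left, norm_smul, Pi.norm_single, norm_one, mul_one,
        Real.norm_eq_abs] at h2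
      linarith⟩
  have sS : Sm fun w => w + σ w • ev := contDiff_id.add (sσ.smul contDiff_const)
  have j1 : ∀ z, jac (f ∘ fun w => w + σ w • ev) z = jac f z + pd 2 a z := hj f hf fun _ => rfl
  have j0 : ∀ z, jac (f ∘ fun w => w + σ w • ev) z ≠ 0 := fun z => by rw [j1]; exact (hq z).ne'
  have j2 : ∀ z, jac (f ∘ fun w => w + σ w • ev) z = jac f (z + σ z • ev) * (1 + pd 2 σ z) :=
    fun z => by rw [(nat2 f _ z hf sS (hp _).ne' (j0 z)).1.2.2.2, Sl.jac_slide sσ]
  refine ⟨_, ⟨sS, bij⟩, fun z hz => ?_, j1, fun z hz gw => ?_⟩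
  · have : σ z = 0 := (Sl.G_mono sM.continuous hp ev z).injective
      (by rw [Sl.G_zero]; exact (hσ z).trans hz)
    simp only [this, zero_smul, add_zero]
  have em : c.Em f (fun w => w + σ w • ev) = fun w => 1 +
      rw2 (c.cc 0 / c.n12 * Bj (jac f) a σ 0 w) (c.cc 1 / c.n12 * Bj (jac f) a σ 1 w) :=
    funext fun w => by
      rw [em_eq h sσ (hp _).ne' (j0 w) (j2 w), dσ, dσ]
      rfl
  obtain ⟨s0, s2, s1⟩ := est h hO sM hp ha sσ he hM cb cl hz
    (by rw [← j2, j1]; exact hM' z hz) (hσ z) (dσ z)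
  obtain ⟨-, r0, d0⟩ := s1 0 (by decide)
  obtain ⟨-, r1, d1⟩ := s1 1 (by decide)
  obtain ⟨f1, f2, f3, f4, f5⟩ := fin h
  obtain ⟨-, -, m3, m4, -, -, -, m8⟩ := num2 h
  have gx : ∀ u v : ℝ, |u| ≤ np c.N (-63 / 100) → |v| ≤ np c.N (-63 / 100) →
      EB (c.gam f (z + σ z • ev) * rw2 u v) (tb4 (3 * hc c.N * np c.N (-63 / 100))
        ((1 + 3 / 10) * np c.N (-63 / 100)) 0 0) := fun u v hu hv => by
    simpa only [mul_zero, add_zero, zero_add] using nat1 f _ (rw2 u v) 3 0 0 _ 0 0 0 (by norm_num)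
      gw (rw2_eb hu hv) (rw2_lat _ u v).1 (rw2_lat _ u v).2
  have e1 : c.Em f (fun w => w + σ w • ev) z - 1 = rw2 (c.cc 0 / c.n12 * Bj (jac f) a σ 0 z)
      (c.cc 1 / c.n12 * Bj (jac f) a σ 1 z) := by rw [em, add_sub_cancel_left]
  have key := ((nat2 f _ z hf sS (hp _).ne' (j0 z)).2 _ (np c.N (-12 / 100)) _ _ _ _ f5
    (by rw [e1]; exact rw2_eb r0 r1) fun i p q => by
      rw [em, dm_rw2]
      exact (gx _ _ (d0 i) (d1 i) p q).trans (tb_le h.big (h.big.np_pos _).le m3 m4 p q)).2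
    (FPv c.N e) _ _ 0 0 (by rw [e1]; exact gx _ _ r0 r1)
  refine key (fun i hi => ?_) ?_ (fun p q hpq => ?_) ?_ (num1 h).2.2.2.2.2
    ((mul_le_mul_of_nonneg_left he (by norm_num)).trans (by norm_num)) f1 f2 f3 f4 m8
  · simp [FPv, hi]
  · simpa [FPv] using s0
  · rw [Matrix.sub_apply, jm_sl sσ, one_apply, add_sub_cancel_left]
    by_cases hp2 : p = 2
    · subst hp2
      rw [if_pos rfl, mul_comm]
      exact (s1 q fun e => hpq ⟨rfl, e⟩).1
    · rw [if_neg hp2, abs_zero, zero_mul]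
      exact (mul_pos (h.big.np_pos _) (h.hs_pos p)).le
  · rw [jm_sl sσ, if_pos rfl, if_pos rfl, add_sub_cancel_left]
    exact s2

end
end Pool.Agent.MP_20bec2_an.T3

end MrgPart2

-- ======== part 3: formerly Pool.Agent.MP_20bec2_an.T3.Part
section MrgPart3

/-! Row PART: a partition on the space of `z` whose squares sum to one. -/

set_option autoImplicit false
open MeasureTheory Set Filter Matrix Topology

namespace Pool.Agent.MP_20bec2_an.T3
noncomputable section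
open Classical

namespace Part
open Prof

theorem card_nb (g : Cu) : (nbrs g 2).card = 125 := by
  have e : ∀ i, (Finset.Icc (g i - 2) (g i + 2)).card = 5 := fun i => by
    rw [Int.card_Icc]
    omega
  simp only [nbrs, Fintype.card_piFinset, e]
  simp

theorem mem_nb {g g' : Cu} : g' ∈ nbrs g 2 ↔ Nbr 2 g g' := by
  simp only [nbrs, Fintype.mem_piFinset, Finset.mem_Icc, Nbr, abs_le]
  exact forall_congr' fun i => by omega

/-- the cut-off of cube `g` -/
def chi (B : Bk) (g : Cu) (w : V) : ℝ :=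
  ∏ i, bp (6 / 10) (85 / 100) (((B.fr g).O *ᵥ (B.fr g).zc w) i / B.D)
/-- families supported in the cores -/
def Sub (B : Bk) (ψ : Cu → V → ℝ) : Prop := ∀ g w, ψ g w ≠ 0 → w ∈ B.K g (85 / 100)
def sig (B : Bk) (w : V) : ℝ := ∑ᶠ g, chi B g w ^ 2
def alp (B : Bk) (g : Cu) (w : V) : ℝ := chi B g w * sig B w ^ (-(1 / 2) : ℝ)

variable {B : Bk}

theorem chi_sm (g : Cu) : Sm (chi B g) :=
  contDiff_prod fun i _ => ContDiff.comp (bp_sm _ _)
    ((Sm.coord (ContDiff.comp (sm_mulVec _) (zc_sm _)) i).div_const _)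

theorem chi_nonneg (g : Cu) (w : V) : 0 ≤ chi B g w :=
  Finset.prod_nonneg fun _ _ => bp_nonneg _ _ _

theorem chi_le (g : Cu) (w : V) : chi B g w ≤ 1 :=
  Finset.prod_le_one (fun _ _ => bp_nonneg _ _ _) fun _ _ => bp_le_one _ _ _

theorem sm_zp {φ : V → ℝ} (h : Sm φ) (F : Fr) : Sm fun z => φ (F.zp z) := h.comp (zp_sm F)

theorem mem_K {g : Cu} {r : ℝ} {w : V} :
    w ∈ B.K g r ↔ (B.fr g).zc w ∈ RX (B.fr g).O B.D r := Iff.rfl

theorem Sub.of_imp {ψ φ : Cu → V → ℝ} (h : Sub B ψ) (e : ∀ g w, ψ g w = 0 → φ g w = 0) :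
    Sub B φ := fun g w hw => h g w fun h0 => hw (e g w h0)

section geo
variable (G : B.G) (hN : 2 ≤ B.N)
include G hN

theorem Dpos : 0 < B.D := GeoP.D_pos (Geo.toFrOk G) (by omega)

theorem chi_sub : Sub B (chi B) := fun _ _ h =>
  mem_K.2 ((mem_RX' (Dpos G hN)).2 fun i => (bp_ne_zero (by norm_num) (prod_ne_zero h i)).le)

theorem chi_one {g : Cu} {w : V} (h : w ∈ B.K g (6 / 10)) : chi B g w = 1 :=
  Finset.prod_eq_one fun i _ => bp_one (by norm_num) ((mem_RX' (Dpos G hN)).1 (mem_K.1 h) i)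

theorem K_mono {g : Cu} {r r' : ℝ} (h : r ≤ r') {w : V} (hw : w ∈ B.K g r) : w ∈ B.K g r' :=
  mem_K.2 (RX_mono _ (Dpos G hN).le h (mem_K.1 hw))

theorem core (w : V) : ∃ g, w ∈ B.K g (6 / 10) := by
  obtain ⟨g, hg⟩ := GeoP.cover G (by omega) w
  exact ⟨g, K_mono G hN (r := 1 / 2 + 1 / 2000) (by norm_num) hg⟩

theorem K_nhds {g : Cu} {w : V} (hw : w ∈ B.K g (6 / 5)) : B.K g (13 / 10) ∈ 𝓝 w :=
  (zc_sm (B.fr g)).continuous.continuousAt.preimage_mem_nhds
    (RX_nhds (Dpos G hN) (by norm_num) hw)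

omit hN in
theorem zp_mem {g : Cu} {r : ℝ} {z : V} (hz : z ∈ B.R g r) : (B.fr g).zp z ∈ B.K g r := by
  show (B.fr g).zc ((B.fr g).zp z) ∈ B.R g r
  rwa [zc_zp (GeoP.det_ne (Geo.toFrOk G) g)]

variable {ψ : Cu → V → ℝ}

theorem nb (h : Sub B ψ) {g g' : Cu} {w : V} (hw : w ∈ B.K g (13 / 10)) (h0 : ψ g' w ≠ 0) :
    Nbr 2 g g' :=
  GeoP.nbr_of G (by omega) (r := 13 / 10) (r' := 85 / 100) (by norm_num) (by norm_num)
    (by norm_num) (by norm_num) (by norm_num) hw (h g' w h0)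

theorem loc (h : Sub B ψ) {g : Cu} {w : V} (hw : w ∈ B.K g (13 / 10)) :
    ∑ᶠ g', ψ g' w = ∑ g' ∈ nbrs g 2, ψ g' w :=
  finsum_eq_sum_of_support_subset _ fun _ h0 => mem_nb.2 (nb G hN h hw h0)

theorem fin (h : Sub B ψ) (w : V) : (Function.support fun g => ψ g w).Finite := by
  obtain ⟨g, hg⟩ := core G hN w
  exact (nbrs g 2).finite_toSet.subset fun _ h0 =>
    mem_nb.2 (nb G hN h (K_mono G hN (by norm_num) hg) h0)

theorem smS (h : Sub B ψ) (hs : ∀ g, Sm (ψ g)) : Sm fun w => ∑ᶠ g, ψ g w := by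
  refine contDiff_iff_contDiffAt.2 fun w => ?_
  obtain ⟨g, hg⟩ := core G hN w
  refine (ContDiff.sum (s := nbrs g 2) fun g' _ => hs g').contDiffAt.congr_of_eventuallyEq ?_
  filter_upwards [K_nhds G hN (K_mono G hN (by norm_num) hg)] with v hv
  exact loc G hN h hv

theorem cbS (h : Sub B ψ) (hs : ∀ g, Sm (ψ g)) {g : Cu} {A : ℝ}
    (hb : ∀ g', Nbr 2 g g' → CB 4 (cv B.D) (B.R g (6 / 5)) (fun z => ψ g' ((B.fr g).zp z)) A) :
    CB 4 (cv B.D) (B.R g (6 / 5)) (fun z => ∑ᶠ g', ψ g' ((B.fr g).zp z)) (125 * A) := by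
  have h1 := CBl.sum_card (nbrs g 2) (F := fun g' z => ψ g' ((B.fr g).zp z))
    (fun _ => (Dpos G hN).le) (fun g' _ => sm_zp (hs g') _)
    fun g' hg' => hb g' (mem_nb.1 hg')
  rw [card_nb] at h1
  refine CBl.congr (CBl.monoB h1 (by norm_num)) fun z hz => ?_
  filter_upwards [RX_nhds (r' := 13 / 10) (Dpos G hN) (by norm_num) hz] with y hy
  exact loc G hN h (zp_mem G hy)

/-- a bound for the neighbours is a bound for all cubes -/
theorem cbA (h : Sub B ψ) {g : Cu} {A : ℝ} (hA : 0 ≤ A)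
    (hb : ∀ g', Nbr 2 g g' → CB 4 (cv B.D) (B.R g (6 / 5)) (fun z => ψ g' ((B.fr g).zp z)) A)
    (g' : Cu) : CB 4 (cv B.D) (B.R g (6 / 5)) (fun z => ψ g' ((B.fr g).zp z)) A := by
  by_cases hg : Nbr 2 g g'
  · exact hb g' hg
  refine CBl.congr (cbl_zero hA) fun z hz => ?_
  filter_upwards [RX_nhds (r' := 13 / 10) (Dpos G hN) (by norm_num) hz] with y hy
  by_contra h0
  exact hg (nb G hN h (zp_mem G hy) h0)

theorem sq_sub : Sub B fun g w => chi B g w ^ 2 :=
  (chi_sub G hN).of_imp fun _ _ h => by simp [h]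

theorem sig_sm : Sm (sig B) := smS G hN (sq_sub G hN) fun g => ContDiff.pow (chi_sm g) 2

theorem one_le_sig (w : V) : 1 ≤ sig B w := by
  obtain ⟨g, hg⟩ := core G hN w
  have := single_le_finsum g (fin G hN (sq_sub G hN) w) fun j => sq_nonneg (chi B j w)
  rwa [chi_one G hN hg, one_pow] at this

theorem rp_le (w : V) : sig B w ^ (-(1 / 2) : ℝ) ≤ 1 :=
  Real.rpow_le_one_of_one_le_of_nonpos (one_le_sig G hN w) (by norm_num)

theorem rp_sm : Sm fun w => sig B w ^ (-(1 / 2) : ℝ) :=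
  ContDiff.rpow_const_of_ne (sig_sm G hN) fun w => (one_pos.trans_le (one_le_sig G hN w)).ne'

theorem alp_sm (g : Cu) : Sm (alp B g) := ContDiff.mul (chi_sm g) (rp_sm G hN)

theorem alp_sub : Sub B (alp B) := (chi_sub G hN).of_imp fun _ _ h => by simp [alp, h]

theorem alp_rg (g : Cu) (w : V) : 0 ≤ alp B g w ∧ alp B g w ≤ 1 := by
  have h := Real.rpow_nonneg (zero_le_one.trans (one_le_sig G hN w)) (-(1 / 2) : ℝ)
  exact ⟨mul_nonneg (chi_nonneg g w) h, mul_le_one₀ (chi_le g w) h (rp_le G hN w)⟩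

theorem alp_sq (g : Cu) (w : V) : alp B g w ^ 2 = chi B g w ^ 2 * (sig B w)⁻¹ := by
  have h := zero_le_one.trans (one_le_sig G hN w)
  rw [alp, mul_pow, ← Real.rpow_natCast (sig B w ^ _), ← Real.rpow_mul h, ← Real.rpow_neg_one]
  norm_num

theorem alp_one (w : V) : ∑ᶠ g, alp B g w ^ 2 = 1 := by
  simp only [alp_sq G hN]
  rw [← finsum_mul]
  exact mul_inv_cancel₀ (one_pos.trans_le (one_le_sig G hN w)).ne'

theorem asq_sub : Sub B fun g w => alp B g w ^ 2 :=
  (alp_sub G hN).of_imp fun _ _ h => by simp [h]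

theorem sum_le (w : V) (T : Finset Cu) : ∑ g ∈ T, alp B g w ^ 2 ≤ 1 := by
  have hf := fin G hN (asq_sub G hN) w
  rw [← alp_one G hN w, finsum_eq_sum_of_support_subset (s := T ∪ hf.toFinset) _
    fun g hg => by simp only [Finset.coe_union, Set.Finite.coe_toFinset]; exact Or.inr hg]
  exact Finset.sum_le_sum_of_subset_of_nonneg Finset.subset_union_left fun _ _ _ => sq_nonneg _

theorem sum_sq_le (w : V) (T : Finset Cu) : (∑ g ∈ T, alp B g w) ^ 2 ≤ 8 := by
  rw [← Finset.sum_filter_ne_zero]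
  have hc : (T.filter fun g => alp B g w ≠ 0).card ≤ (Finset.range 8).card := by
    refine Finset.card_le_card_of_injOn col (fun g _ => by simpa using col_lt g) ?_
    intro g hg g' hg' e
    exact GeoP.col_unique G (by omega) (r := 85 / 100) (r' := 85 / 100) (by norm_num) (by norm_num)
      (by norm_num) e (alp_sub G hN g w (Finset.mem_filter.1 hg).2)
      (alp_sub G hN g' w (Finset.mem_filter.1 hg').2)
  have h8 : ((T.filter fun g => alp B g w ≠ 0).card : ℝ) ≤ 8 := by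
    rw [Finset.card_range] at hc
    exact_mod_cast hc
  refine sq_sum_le_card_mul_sum_sq.trans ?_
  have := mul_le_mul h8 (sum_le G hN w (T.filter fun g => alp B g w ≠ 0))
    (Finset.sum_nonneg fun _ _ => sq_nonneg _) (by norm_num)
  linarith

/-- the cut-off of a neighbour is a product of three ridge functions -/
theorem cb_chi {M : ℝ} (hM : ∀ j ≤ 4, ∀ t, |iteratedDeriv j (bp (6 / 10) (85 / 100)) t| ≤ M)
    {g g' : Cu} (h : Nbr 2 g g') :
    CB 4 (cv B.D) (B.R g (6 / 5)) (fun z => chi B g' ((B.fr g).zp z)) ((8 * 2 ^ 3) ^ 4 * M ^ 3) := by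
  have F := Geo.toFrOk G
  have hD := Dpos G hN
  have hT := GeoP.eb_orth_mul (GeoP.orth F g') (GeoP.T_eb (GeoP.orth F g') (GeoP.orth F g)
    (F.cp g' g (nbr_mono (by norm_num) (nbr_symm h))))
  have hd := GeoP.dc_le hN
  refine CBl.congr_fun (cb_tensor_ridge (ψ := fun _ => bp (6 / 10) (85 / 100)) (κ := 2)
    (fun _ => hD.le) (fun _ => bp_sm _ _)
    (B.D⁻¹ • ((B.fr g').O * ((B.fr g').Q⁻¹ * (B.fr g).Q)))
    (B.D⁻¹ • ((B.fr g').O *ᵥ (B.fr g').zc (B.fr g).z0)) (by norm_num) (fun i j => ?_)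
    fun _ => hM) fun z => ?_
  · have h1 : |((B.fr g').O * ((B.fr g').Q⁻¹ * (B.fr g).Q)) i j| ≤ 7 / 4 * (1 + dc B.N) := hT i j
    rw [Matrix.smul_apply, smul_eq_mul, abs_mul, abs_of_pos (inv_pos.2 hD)]
    show _ * _ * B.D ≤ 2
    rw [mul_right_comm, inv_mul_cancel₀ hD.ne', one_mul]
    linarith
  · refine Finset.prod_congr rfl fun i _ => ?_
    have e : (B.fr g').zc ((B.fr g).zp z) =
        (B.fr g').Q⁻¹ *ᵥ ((B.fr g).Q *ᵥ z) + (B.fr g').zc (B.fr g).z0 := by
      simp only [Fr.zc, Fr.zp, ← mulVec_add]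
      congr 1
      abel
    rw [e, mulVec_add, smul_mulVec, ← mulVec_mulVec, ← mulVec_mulVec]
    simp only [Pi.add_apply, Pi.smul_apply, smul_eq_mul]
    congr 1
    ring

theorem cb_alp {A : ℝ} (hA : 0 ≤ A) {g : Cu}
    (hb : ∀ g', Nbr 2 g g' → CB 4 (cv B.D) (B.R g (6 / 5)) (fun z => chi B g' ((B.fr g).zp z)) A)
    (g' : Cu) : CB 4 (cv B.D) (B.R g (6 / 5)) (fun z => alp B g' ((B.fr g).zp z))
      (2 ^ 4 * A * (cf 1 4 * ((|(-(1 / 2) : ℝ)| + (4 : ℕ)) ^ 4 * 1) *
        max 1 (125 * (2 ^ 4 * A ^ 2)) ^ 4)) := by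
  have hD : ∀ i, 0 ≤ cv B.D i := fun _ => (Dpos G hN).le
  have s1 : ∀ j, Sm fun z => chi B j ((B.fr g).zp z) := fun j => sm_zp (chi_sm j) _
  have h1 := cbS G hN (sq_sub G hN) (fun j => ContDiff.pow (chi_sm j) 2)
    fun j hj => CB.sq hD (s1 j) (hb j hj)
  have h2 := CB.rpow (g := fun z => sig B ((B.fr g).zp z)) (r := -(1 / 2)) (T := 1)
    (d := 125 * (2 ^ 4 * A ^ 2)) hD one_pos
    (SmN.of_sm (sm_zp (sig_sm G hN) (B.fr g)) _)
    (fun z _ => ⟨one_le_sig G hN _, rp_le G hN _⟩) (by rw [mul_one]; exact h1.toCV)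
  exact CB.mul hD (s1 g') (sm_zp (rp_sm G hN) (B.fr g))
    (cbA G hN (chi_sub G hN) hA hb g') h2

theorem pa {A : ℝ} (hA : 1 ≤ A)
    (hb : ∀ g g', CB 4 (cv B.D) (B.R g (6 / 5)) (fun z => alp B g' ((B.fr g).zp z)) A) :
    B.PA (125 * (2 ^ 4 * A ^ 2)) (alp B) where
  sm := alp_sm G hN
  rg := alp_rg G hN
  sup := alp_sub G hN
  one := alp_one G hN
  fin := fun _ _ hw _ h =>
    have := nb G hN (alp_sub G hN) (K_mono G hN (by norm_num) hw) h
    ⟨mem_nb.2 this, this⟩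
  l1 := fun w T => ⟨sum_sq_le G hN w T, sum_le G hN w T⟩
  cb := fun g g' => CBl.monoB (hb g g') (by nlinarith)
  th := fun P => by
    have hs : Sub B fun g w => if P g then alp B g w ^ 2 else 0 :=
      (alp_sub G hN).of_imp fun _ _ h => by simp [h]
    have sm : ∀ g, Sm fun w => if P g then alp B g w ^ 2 else 0 := fun g => by
      split_ifs
      · exact ContDiff.pow (alp_sm G hN g) 2
      · exact contDiff_const
    refine ⟨smS G hN hs sm, fun w => ⟨finsum_nonneg fun g => ?_, ?_⟩,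
      fun g => cbS G hN hs sm fun g' _ => ?_⟩
    · split_ifs
      · exact sq_nonneg _
      · exact le_rfl
    · rw [← alp_one G hN w]
      refine finsum_le_finsum' (fin G hN hs w) (fin G hN (asq_sub G hN) w) fun g => ?_
      dsimp only
      split_ifs
      · exact le_rfl
      · exact sq_nonneg _
    · split_ifs
      · exact CB.sq (fun _ => (Dpos G hN).le) (sm_zp (alp_sm G hN g') (B.fr g)) (hb g g')
      · exact cbl_zero (by positivity)

end geo
end Part

theorem part : PartStmt := by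
  obtain ⟨M, hM1, hM⟩ := Prof.bp_bound (a := 6 / 10) (b := 85 / 100) (by norm_num) 4
  obtain ⟨A, hA⟩ : ∃ A : ℝ, A = (8 * 2 ^ 3) ^ 4 * M ^ 3 := ⟨_, rfl⟩
  have hA0 : 0 ≤ A := by rw [hA]; positivity
  obtain ⟨A', hA'⟩ : ∃ A' : ℝ, A' = max 1 (2 ^ 4 * A * (cf 1 4 *
    ((|(-(1 / 2) : ℝ)| + (4 : ℕ)) ^ 4 * 1) * max 1 (125 * (2 ^ 4 * A ^ 2)) ^ 4)) := ⟨_, rfl⟩
  have h1 : 1 ≤ A' := hA' ▸ le_max_left _ _
  refine ⟨125 * (2 ^ 4 * A' ^ 2), by nlinarith, ?_⟩
  filter_upwards [eventually_ge_atTop 2] with N hN B hB G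
  have hN' : 2 ≤ B.N := hB ▸ hN
  exact ⟨_, Part.pa G hN' h1 fun g g' => CBl.monoB (Part.cb_alp G hN' hA0
    (fun j hj => hA ▸ Part.cb_chi G hN' hM hj) g') (hA' ▸ le_max_right _ _)⟩

end
end Pool.Agent.MP_20bec2_an.T3

end MrgPart3

-- ======== part 4: formerly Pool.Agent.MP_20bec2_an.T3.Vl
section MrgPart4

/-! Row VL: the straight vertical slide of size `N² lam`. -/

set_option autoImplicit false
set_option linter.unusedSectionVars false
open MeasureTheory Set Filter Matrix Topology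

namespace Pool.Agent.MP_20bec2_an.T3
noncomputable section
open Classical

namespace Vl

/-! ## numbers -/

lemma logc {C : ℝ} (h : 1 ≤ C) (h' : C ≤ 1000) : 0 ≤ Real.log C ∧ Real.log C ≤ 1000 :=
  ⟨(logc_bd h).1, (logc_bd h).2.trans h'⟩

section
variable {c : Pm} (h : Gd c)
include h

lemma T_pos : 0 < (c.N : ℝ) ^ 2 * c.lam := mul_pos (pow_pos h.N_pos 2) h.lam_pos

lemma log_T : Real.log ((c.N : ℝ) ^ 2 * c.lam) = 2 * pJ c.N + Real.log c.lam := by
  rw [Real.log_mul (pow_pos h.N_pos 2).ne' h.lam_pos.ne', Real.log_pow, h.big.log_N]; norm_num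

lemma n1 : 2 * ((c.N : ℝ) ^ 2 * c.lam) ≤ 1 / 1000 * c.D := by
  have := T_pos h; have := h.D_pos
  refine le_of_log (by positivity) (by positivity) ?_
  have h1 := Real.log_le_log h.lam_pos h.lam_le_lb
  rw [Real.log_mul two_ne_zero (T_pos h).ne', log_T h, Real.log_mul (by norm_num) h.D_pos.ne',
    h.log_D, one_div, Real.log_inv]
  linarith [log2_bd.2, (logc (C := 1000) (by norm_num) le_rfl).2, h.big.J_ge, h.big.L_ge]

lemma n2 : c.y ≤ (c.N : ℝ) ^ 2 * c.lam :=
  le_of_log h.y_pos (T_pos h) (by rw [log_T h, h.log_y]; linarith [h.big.J_pos])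

lemma n3 : 50 * np c.N (-245 / 1000) ≤ 1 := by
  have := h.big.np_pos (-245 / 1000)
  refine le_of_log (by positivity) one_pos ?_
  rw [Real.log_mul (by norm_num) this.ne', h.big.log_np, Real.log_one]
  linarith [(logc (C := 50) (by norm_num) (by norm_num)).2, h.big.J_ge, h.big.L_ge]

lemma n4 {j : Fin 3} (hj : j ≠ 2) : c.cc j / c.n12 * (4 * (50 * np c.N (-245 / 1000) / c.hs j) *
    ((c.N : ℝ) ^ 2 * c.lam)) ≤ np c.N (26 / 100) := by
  have := h.big.np_pos (-245 / 1000); have := T_pos h; have := h.cc_pos j; have := h.n12_pos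
  have := h.hs_pos j
  refine le_of_log (by positivity) (h.big.np_pos _) ?_
  have h1 : Real.log (c.cc j) - Real.log (c.hs j) ≤ -Real.log c.s1 - Real.log c.lam := by
    fin_cases j
    · show Real.log c.c1 - Real.log c.l1 ≤ _
      linarith [h.log_c1, h.log_l1, h.log_η_le, h.log_ro_bd.1]
    · show Real.log c.c2 - Real.log c.lam ≤ _
      linarith [h.log_c2, h.log_K, h.log_K_bd.1]
    · exact absurd rfl hj
  rw [Real.log_mul (by positivity) (by positivity), Real.log_mul (by positivity) (by positivity),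
    log_T h]
  simp (disch := positivity) only [Real.log_div, Real.log_mul, h.big.log_np]
  linarith [(logc (C := 50) (by norm_num) (by norm_num)).2,
    (logc (C := 4) (by norm_num) (by norm_num)).2, h.big.J_ge, h.big.L_ge, h.log_s1_ge,
    h.log_n12_bd.1]

lemma one_le_np {a : ℝ} (ha : 0 ≤ a) : 1 ≤ np c.N a := by
  have := h.big.np_le ha
  rwa [np, Real.rpow_zero] at this

lemma n5 : 2 * hc c.N * (2 * np c.N (26 / 100)) ≤ np c.N (8 / 10) * (pJ c.N ^ 4 / c.N) := by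
  have := h.big.np_pos (26 / 100); have := h.big.np_pos (8 / 10); have := h.big.hc_pos
  have := h.big.J_pos; have := h.N_pos
  refine le_of_log (by positivity) (by positivity) ?_
  simp (disch := positivity) only [Real.log_div, Real.log_mul, Real.log_pow, h.big.log_np,
    h.big.log_hc, h.big.log_J, h.big.log_N]
  push_cast
  linarith [(logc (C := 3) (by norm_num) (by norm_num)).2, log2_bd.2, h.big.J_ge, h.big.L_ge]

lemma n6 : (1 + 2 / 10) * (2 * np c.N (26 / 100)) ≤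
    np c.N (8 / 10) * (pJ c.N ^ 3 / Real.sqrt c.N) := by
  have := h.big.np_pos (26 / 100); have := h.big.np_pos (8 / 10); have := h.big.sqrtN_pos
  have := h.big.J_pos
  refine le_trans (b := 3 * np c.N (26 / 100)) (by linarith) ?_
  refine le_of_log (by positivity) (by positivity) ?_
  simp (disch := positivity) only [Real.log_div, Real.log_mul, Real.log_pow, h.big.log_np,
    h.big.log_sqrtN, h.big.log_J]
  push_cast
  linarith [(logc (C := 3) (by norm_num) (by norm_num)).2, h.big.J_ge, h.big.L_ge]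

lemma n7 : (c.N : ℝ) ^ 2 * c.lam ≤ np c.N (9 / 10) * c.y := by
  refine le_of_log (T_pos h) (mul_pos (h.big.np_pos _) h.y_pos) ?_
  rw [log_T h, Real.log_mul (h.big.np_pos _).ne' h.y_pos.ne', h.big.log_np, h.log_y]
  linarith

lemma n8 : 8 * np c.N (9 / 10) ≤ np c.N (95 / 100) := by
  have := h.big.np_pos (9 / 10)
  refine le_of_log (by positivity) (h.big.np_pos _) ?_
  rw [Real.log_mul (by norm_num) this.ne', h.big.log_np, h.big.log_np]
  linarith [(logc (C := 8) (by norm_num) (by norm_num)).2, h.big.J_ge, h.big.L_ge]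

lemma n9 : c.ET (1 / 100) 0 (3 * Real.sqrt (c.J / c.N)) 0 0 := by
  have := h.J_pos; have := h.N_pos; have := h.big.sqrtN_pos
  refine ⟨le_rfl, by norm_num, by norm_num, ?_, by positivity⟩
  refine le_of_log (by positivity) (by positivity) ?_
  simp (disch := positivity) only [Real.log_div, Real.log_mul, Real.log_sqrt, Real.log_one,
    h.log_J, h.big.log_N]
  linarith [(logc (C := 3) (by norm_num) (by norm_num)).2,
    (logc (C := 100) (by norm_num) (by norm_num)).2, h.big.L_ge]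

lemma Xj_nn (a b : Fin 3) : 0 ≤ Xj c.N a b := by
  have := h.big.J_pos; have := h.N_pos; have := h.big.sqrtN_pos
  fin_cases a <;> fin_cases b <;> simp [Xj, bm] <;> positivity

lemma DI_mono {f : V → V} {z : V} {d d' : ℝ} (H : c.DI f z d) (hd : d ≤ d') : c.DI f z d' :=
  fun a b i => (H a b i).trans (mul_le_mul_of_nonneg_right hd (Xj_nn h a b))
end

/-! ## the slide -/

lemma abs_le_of_mem {s t : ℝ} (ht : t ∈ uIoc 0 s) : |t| ≤ |s| := by
  rcases mem_uIoc.1 ht with h | h <;> exact abs_le.2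
    ⟨by linarith [h.1, h.2, neg_abs_le s, abs_nonneg s],
      by linarith [h.1, h.2, le_abs_self s, abs_nonneg s]⟩

lemma int_bd {g : ℝ → ℝ} {T B s : ℝ} (H : ∀ t, |t| ≤ T → |g t| ≤ B) (hs : |s| ≤ T) :
    |∫ t in (0 : ℝ)..s, g t| ≤ B * |s| := by
  have := intervalIntegral.norm_integral_le_of_norm_le_const (f := g) (a := 0) (b := s) (C := B)
    fun t ht => H t ((abs_le_of_mem ht).trans hs)
  simpa using this

lemma sig_bd {M : V → ℝ} (hM : Continuous M) (hp : ∀ z, 0 < M z) {z : V} {T s : ℝ} (hT : 0 < T)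
    (H : ∀ t, |t| ≤ T → |M (z + t • e3) - 1| ≤ 1 / 100) (hs : |Sl.G M e3 z s| ≤ T / 4) :
    |s| ≤ T / 2 := by
  have k : ∀ u, |u| = T / 2 → |Sl.G M e3 z u - u| ≤ 1 / 100 * (T / 2) := fun u hu => by
    have h1 := int_bd (g := fun t => M (z + t • e3) - 1) (s := u) H (by linarith)
    rw [intervalIntegral.integral_sub ((Sl.cont_line hM e3 z).intervalIntegrable _ _)
      intervalIntegrable_const, hu] at h1
    simpa [Sl.G] using h1
  have m := Sl.G_mono hM hp e3 z
  have h1 := abs_le.1 (k (T / 2) (abs_of_pos (by linarith)))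
  have h2 := abs_le.1 (k (-(T / 2)) (by rw [abs_neg]; exact abs_of_pos (by linarith)))
  have h3 := abs_le.1 hs
  exact abs_le.2 ⟨(m.lt_iff_lt.1 (by linarith)).le, (m.lt_iff_lt.1 (by linarith)).le⟩

lemma jm_sl {σ : V → ℝ} (hσ : Sm σ) (w : V) : jm (fun w => w + σ w • e3) w =
    !![1, 0, 0; 0, 1, 0; pd 0 σ w, pd 1 σ w, 1 + pd 2 σ w] := by
  rw [jm_id_add (Y := fun w => σ w • e3) ((hσ.dif w).smul_const _), jm_smul_const]
  ext a b
  fin_cases a <;> fin_cases b <;> simp [vecMulVec_apply, e3]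

/-- row 2 of `Em` -/
def A (c : Pm) (M a σ : V → ℝ) (j : Fin 3) (w : V) : ℝ :=
  c.cc j / c.n12 * (pd j a w - ∫ t in (0 : ℝ)..σ w, pd j M (w + t • e3))

lemma em_eq {c : Pm} (h : Gd c) {f : V → V} {a σ : V → ℝ} (hf : Sm f) (hσ : Sm σ)
    (hp : ∀ z, 0 < jac f z) (hq : ∀ z, 0 < jac (f ∘ fun w => w + σ w • e3) z)
    (hd : ∀ z j, jac f (z + σ z • e3) * pd j σ z = pd j a z -
      ∫ t in (0 : ℝ)..σ z, pd j (jac f) (z + t • e3)) :
    c.Em f (fun w => w + σ w • e3) =
      fun w => !![1, 0, 0; 0, 1, 0; A c (jac f) a σ 0 w, A c (jac f) a σ 1 w, 1] := by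
  funext w
  have h1 : jac (f ∘ fun w => w + σ w • e3) w = jac f (w + σ w • e3) * (1 + pd 2 σ w) := by
    rw [← Sl.jac_slide hσ 2 w]
    exact jac_comp (Y := f) (Z := fun w => w + σ w • e3) (hf.dif _)
      (differentiableAt_id.add ((hσ.dif w).smul_const _))
  have h2 := (hq w).ne'
  have h3 := (hp (w + σ w • e3)).ne'
  have h4 : 1 + pd 2 σ w ≠ 0 := fun e => h2 (by rw [h1, e, mul_zero])
  have n1 := h.c1_pos.ne'
  have n2 := h.c2_pos.ne'
  have n3 := h.n12_pos.ne'
  unfold Pm.Em A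
  rw [jm_sl hσ, h1, ← hd, ← hd]
  ext a b
  fin_cases a <;> fin_cases b <;> simp [Pm.cj, Pm.cc, n1, n2] <;> field_simp

lemma pd_A (c : Pm) {M a σ : V → ℝ} (hM : Sm M) (ha : Sm a) (hσ : Sm σ) (i j : Fin 3) (z : V) :
    pd i (A c M a σ j) z = c.cc j / c.n12 * (pd i (pd j a) z -
      ((∫ t in (0 : ℝ)..σ z, pd i (pd j M) (z + t • e3)) + pd j M (z + σ z • e3) * pd i σ z)) := by
  have h1 := (JC.line (hM.pd j) e3).upper 0 (hσ.dif z)
  have h3 : ∀ r : ℝ, pd i (fun x => pd j M (x + r • e3)) z = pd i (pd j M) (z + r • e3) :=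
    fun r => congrFun (pds_comp_add (pd j M) _ [i]) z
  unfold A
  rw [pd_const_mul, pd_sub_at ((ha.pd j).dif z) h1.1, h1.2 i]
  simp only [h3]

lemma dm_eq (i : Fin 3) (x y : V → ℝ) (z : V) :
    Ftr.Dm i (fun w => !![1, 0, 0; 0, 1, 0; x w, y w, 1]) z =
      !![0, 0, 0; 0, 0, 0; pd i x z, pd i y z, 0] := by
  ext a b
  fin_cases a <;> fin_cases b <;> simp [Ftr.Dm]

lemma eb_row {x y r : ℝ} (hx : |x| ≤ r) (hy : |y| ≤ r) :
    EB !![0, 0, 0; 0, 0, 0; x, y, 0] (tb4 0 r 0 0) := fun a b => by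
  fin_cases a <;> fin_cases b <;> simp [tb4, hx, hy]

/-- the estimates at one point -/
lemma pt {c : Pm} (h : Gd c) {M a σ : V → ℝ} (hM : Sm M) (ha : Sm a) (hσ : Sm σ) {U : Set V}
    {z : V} (hU : ∀ t, |t| ≤ (c.N : ℝ) ^ 2 * c.lam → z + t • e3 ∈ U) (hW : c.MW (1 / 100) 50 M U)
    (hs : |σ z| ≤ (c.N : ℝ) ^ 2 * c.lam / 2)
    (hd : ∀ j, M (z + σ z • e3) * pd j σ z = pd j a z -
      ∫ t in (0 : ℝ)..σ z, pd j M (z + t • e3))
    (h2 : M (z + σ z • e3) * (1 + pd 2 σ z) = M z + pd 2 a z) (a2 : |pd 2 a z| ≤ 1 / 100)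
    (a1 : ∀ j, j ≠ 2 → c.hs j * |pd j a z| ≤ (c.N : ℝ) ^ 2 * c.lam ∧
      ∀ i, c.cc j / c.n12 * (c.hs i * |pd i (pd j a) z|) ≤ 1) :
    |pd 2 σ z| ≤ 1 / 10 ∧ (∀ i, c.hs i * |pd i σ z| ≤ 3 * ((c.N : ℝ) ^ 2 * c.lam)) ∧
      ∀ i j, j ≠ 2 → |c.hs i * pd i (A c M a σ j) z| ≤ 2 * np c.N (26 / 100) := by
  have hT := T_pos h
  have hB := n3 h
  have hB0 : 0 < 50 * np c.N (-245 / 1000) := mul_pos (by norm_num) (h.big.np_pos _)
  set T := (c.N : ℝ) ^ 2 * c.lam with eT
  set B := 50 * np c.N (-245 / 1000) with eB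
  have hs' : |σ z| ≤ T := by linarith
  have m1 := abs_le.1 (hW.1 _ (hU _ hs'))
  have m0 := abs_le.1 (hW.1 _ (hU 0 (by rw [abs_zero]; exact hT.le)))
  rw [zero_smul, add_zero] at m0
  have d1 : ∀ j, j ≠ 2 → ∀ t, |t| ≤ T → |pd j M (z + t • e3)| ≤ B / c.hs j := fun j hj t ht => by
    rw [le_div_iff₀' (h.hs_pos j)]
    simpa using hW.2.2 [j] ⟨by simp, j, by simp, hj⟩ _ (hU t ht)
  have d2 : ∀ i j, j ≠ 2 → ∀ t, |t| ≤ T → |pd i (pd j M) (z + t • e3)| ≤ B / c.hs j / c.hs i :=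
    fun i j hj t ht => by
      rw [le_div_iff₀' (h.hs_pos i), le_div_iff₀' (h.hs_pos j), ← mul_assoc, mul_comm (c.hs j)]
      simpa using hW.2.2 [i, j] ⟨by simp, j, by simp, hj⟩ _ (hU t ht)
  have s2 : |pd 2 σ z| ≤ 1 / 10 := by
    have a2' := abs_le.1 a2
    refine abs_le.2 ⟨not_lt.1 fun k => ?_, not_lt.1 fun k => ?_⟩ <;> nlinarith
  have s1 : ∀ i, c.hs i * |pd i σ z| ≤ 3 * T := fun i => by
    have hi0 := h.hs_pos i
    by_cases hi : i = 2
    · subst hi
      have : c.hs 2 ≤ T := n2 h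
      nlinarith [abs_nonneg (pd 2 σ z)]
    · have k1 := int_bd (g := fun t => pd i M (z + t • e3)) (d1 i hi) hs'
      have k2 : c.hs i * |∫ t in (0 : ℝ)..σ z, pd i M (z + t • e3)| ≤ B * |σ z| := by
        refine (mul_le_mul_of_nonneg_left k1 hi0.le).trans_eq ?_
        field_simp
      have k3 : M (z + σ z • e3) * |pd i σ z| ≤ |pd i a z| +
          |∫ t in (0 : ℝ)..σ z, pd i M (z + t • e3)| := by
        rw [← abs_of_pos (show 0 < M (z + σ z • e3) by linarith), ← abs_mul, hd]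
        exact abs_sub _ _
      have k4 := mul_le_mul_of_nonneg_left k3 hi0.le
      have k5 : B * |σ z| ≤ T := by nlinarith [abs_nonneg (σ z)]
      have k6 := mul_nonneg hi0.le (abs_nonneg (pd i σ z))
      nlinarith [(a1 i hi).1]
  refine ⟨s2, s1, fun i j hj => ?_⟩
  have hi0 := h.hs_pos i
  have hj0 := h.hs_pos j
  have hc0 : 0 < c.cc j / c.n12 := div_pos (h.cc_pos j) h.n12_pos
  have k1 := int_bd (g := fun t => pd i (pd j M) (z + t • e3)) (d2 i j hj) hs'
  have k2 : c.hs i * |∫ t in (0 : ℝ)..σ z, pd i (pd j M) (z + t • e3)| ≤ B / c.hs j * T := by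
    refine (mul_le_mul_of_nonneg_left (k1.trans
      (mul_le_mul_of_nonneg_left hs' (by positivity))) hi0.le).trans_eq ?_
    field_simp
  have k3 : c.hs i * |pd j M (z + σ z • e3) * pd i σ z| ≤ B / c.hs j * (3 * T) := by
    rw [abs_mul, mul_left_comm]
    exact mul_le_mul (d1 j hj _ hs') (s1 i) (by positivity) (by positivity)
  have k4 := mul_le_mul_of_nonneg_left ((abs_sub (pd i (pd j a) z) _).trans (add_le_add le_rfl
    (abs_add_le (∫ t in (0 : ℝ)..σ z, pd i (pd j M) (z + t • e3))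
      (pd j M (z + σ z • e3) * pd i σ z)))) hi0.le
  have k5 := mul_le_mul_of_nonneg_left (k4.trans (show _ ≤ c.hs i * |pd i (pd j a) z| +
    4 * (B / c.hs j) * T by linarith)) hc0.le
  have k6 : c.cc j / c.n12 * (4 * (B / c.hs j) * T) ≤ np c.N (26 / 100) := n4 h hj
  rw [mul_add] at k5
  rw [pd_A c hM ha hσ, abs_mul, abs_mul, abs_of_pos hi0, abs_of_pos hc0, mul_left_comm]
  linarith [(a1 j hj).2 i, one_le_np h (show (0 : ℝ) ≤ 26 / 100 by norm_num)]

end Vl

open Vl in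
theorem vl (hN : NatStmt) : VlStmt := by
  filter_upwards [ev_gd, hN] with N hg hN c hcN ho O r m f a hO hf hp ha hz hW hm hL hb
  have h := hg c hcN ho
  obtain ⟨N1, N2⟩ := hN c hcN ho
  have hT := T_pos h
  have hM : Sm (jac f) := hf.jac
  have hU : ∀ z ∈ RX O c.D r, ∀ t, |t| ≤ (c.N : ℝ) ^ 2 * c.lam →
      z + t • e3 ∈ RX O c.D (r + 1 / 1000) := fun z hz t ht => Prof.RX_add hO hz (by
    rw [add_sub_cancel_left, norm_smul, e3, Pi.norm_single, norm_one, mul_one, Real.norm_eq_abs]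
    linarith [n1 h])
  have hq : ∀ z, 0 < jac f z + pd 2 a z := fun z => by
    by_cases k : z ∈ RX O c.D r
    · have := hW.1 z (Prof.RX_mono O h.D_pos.le (by linarith) k)
      linarith [(abs_le.1 this).1, (abs_le.1 (hb z).2.1).1]
    · have : pd 2 a z = 0 := pds_zero_off (Prof.RX_closed O c.D r) hz [2] z k
      linarith [hp z]
  obtain ⟨σ, hσ, hbij, hG, hd, hj⟩ := slide 2 (jac f) a hM ha hp hq fun z =>
    ⟨2 * (r * c.D) + |z 2| + 1, fun t ht => hz _ fun k => by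
      have h1 := (norm_le_pi_norm _ 2).trans (Prof.RX_norm hO k)
      simp only [Pi.add_apply, Pi.smul_apply, Pi.single_eq_same, smul_eq_mul, mul_one,
        Real.norm_eq_abs] at h1
      have h2 := abs_sub (z 2 + t) (z 2)
      rw [add_sub_cancel_left] at h2
      linarith⟩
  have hj' : ∀ z, jac (f ∘ fun w => w + σ w • e3) z = jac f z + pd 2 a z := hj f hf fun _ => rfl
  have hS : Sm fun w => w + σ w • e3 := contDiff_id.add (hσ.smul contDiff_const)
  have hE := em_eq (a := a) h hf hσ hp (fun z => by rw [hj']; exact hq z) hd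
  refine ⟨fun w => w + σ w • e3, ⟨hS, hbij⟩, fun z k => ?_, hj', fun z hz' hGW => ?_⟩
  · have : σ z = 0 := (Sl.G_mono hM.continuous hp e3 z).injective (by
      rw [Sl.G_zero]; exact (hG z).trans k)
    simp [this]
  have hs : |σ z| ≤ (c.N : ℝ) ^ 2 * c.lam / 2 := sig_bd hM.continuous hp hT
    (fun t ht => hW.1 _ (hU z hz' t ht)) (by rw [show Sl.G _ e3 z _ = a z from hG z]; exact (hb z).1)
  obtain ⟨⟨e1, -, -, e4⟩, N3⟩ := N2 f _ z hf hS (hp _).ne' (by rw [hj']; exact (hq z).ne')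
  have e5 : jac f (z + σ z • e3) * (1 + pd 2 σ z) = jac f z + pd 2 a z := by
    rw [← hj', e4]; exact congrArg _ (Sl.jac_slide hσ 2 z).symm
  obtain ⟨s2, s1, sA⟩ := pt h hM ha hσ (hU z hz') hW hs (hd z) e5 (hb z).2.1
    fun j k => ⟨((hb z).2.2 j k).1, ((hb z).2.2 j k).2.2⟩
  have c0 : ∀ j, 0 < c.cc j / c.n12 := fun j => div_pos (h.cc_pos j) h.n12_pos
  have aA : ∀ j, j ≠ 2 → |A c (jac f) a σ j z - c.cc j / c.n12 * pd j a z| ≤ m := fun j k => by
    have := hL z hz' (σ z) (by linarith) j k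
    rwa [A, mul_sub, sub_sub_cancel_left, abs_neg, abs_mul, abs_of_pos (c0 j)]
  have aB : ∀ j, j ≠ 2 → |A c (jac f) a σ j z| ≤ m + c.cc j / c.n12 * |pd j a z| := fun j k => by
    have := abs_add_le (A c (jac f) a σ j z - c.cc j / c.n12 * pd j a z) (c.cc j / c.n12 * pd j a z)
    rw [sub_add_cancel, abs_mul, abs_of_pos (c0 j)] at this
    linarith [aA j k]
  have aC : ∀ j, j ≠ 2 → |A c (jac f) a σ j z| ≤ 3 * Real.sqrt (c.J / c.N) := fun j k => by
    linarith [aB j k, ((hb z).2.2 j k).2.1]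
  refine ⟨rfl, fun i hi => ?_, ?_, ⟨_, e1, ?_⟩, fun d hd0 hD => ?_⟩
  · simp [e3, hi]
  · simp only [e3, Pi.add_apply, Pi.smul_apply, Pi.single_eq_same, smul_eq_mul, mul_one,
      sub_add_cancel_left, abs_neg]
    linarith
  · have : c.Em f (fun w => w + σ w • e3) z - 1 - (c.cc 0 / c.n12 * pd 0 a z) • E20 =
        !![0, 0, 0; 0, 0, 0; A c (jac f) a σ 0 z - c.cc 0 / c.n12 * pd 0 a z,
          A c (jac f) a σ 1 z, 0] := by
      rw [hE]; ext a b; fin_cases a <;> fin_cases b <;> simp [E20]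
    rw [this]
    refine eb_row ((aA 0 (by decide)).trans (le_add_of_nonneg_right ?_)) (aB 1 (by decide))
    exact mul_nonneg (c0 1).le (abs_nonneg _)
  have hy := h.y_pos
  have p9 := one_le_np h (show (0 : ℝ) ≤ 9 / 10 by norm_num)
  refine DI_mono h ((N3 _ (np c.N (8 / 10)) _ _ _ _ (n9 h) ?_ fun i => ?_).1
    (4 * np c.N (9 / 10)) (fun i => ?_) d hd0 hD) ?_
  · have : c.Em f (fun w => w + σ w • e3) z - 1 =
        !![0, 0, 0; 0, 0, 0; A c (jac f) a σ 0 z, A c (jac f) a σ 1 z, 0] := by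
      rw [hE]; ext a b; fin_cases a <;> fin_cases b <;> simp
    rw [this]
    exact eb_row (aC 0 (by decide)) (aC 1 (by decide))
  · have : c.hs i • Ftr.Dm i (c.Em f fun w => w + σ w • e3) z = !![0, 0, 0; 0, 0, 0;
        c.hs i * pd i (A c (jac f) a σ 0) z, c.hs i * pd i (A c (jac f) a σ 1) z, 0] := by
      rw [hE, dm_eq]; ext a b; fin_cases a <;> fin_cases b <;> simp
    rw [this]
    have k := N1 f _ _ 2 0 0 _ 0 0 0 (by norm_num) hGW
      (eb_row (sA i 0 (by decide)) (sA i 1 (by decide)))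
      (fun a b ha _ => by fin_cases a <;> fin_cases b <;> simp at ha ⊢)
      (fun a ha => by fin_cases a <;> simp at ha ⊢)
    have k5 := n5 h
    have k6 := n6 h
    have k7 := fun a b => mul_nonneg (h.big.np_pos (8 / 10)).le (Xj_nn h a b)
    refine fun a b => (k a b).trans ?_
    have k8 := k7 a b
    rw [Matrix.smul_apply, smul_eq_mul]
    fin_cases a <;> fin_cases b <;> simp [tb4, Xj, bm] at k8 ⊢ <;> linarith
  · rw [jm_sl hσ, Fin.sum_univ_three]
    have k1 : |pd i σ z| * c.hs i / c.y ≤ 3 * np c.N (9 / 10) := by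
      rw [div_le_iff₀ hy]; linarith [s1 i, n7 h]
    have k2 := abs_add_le 1 (pd 2 σ z)
    have q0 := (h.hs_pos 0).ne'
    have q1 := (h.hs_pos 1).ne'
    have k3 : c.hs 2 = c.y := rfl
    fin_cases i <;> simp [q0, q1, k3, hy.ne'] at k1 k2 ⊢ <;> linarith
  · have k1 := n8 h
    have k2 := h.big.np_le (show (8 / 10 : ℝ) ≤ 9 / 10 by norm_num)
    nlinarith

end
end Pool.Agent.MP_20bec2_an.T3

end MrgPart4

-- ======== part 5: formerly Pool.Agent.MP_20bec2_an.T3.FAll2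
section MrgPart5

-- ======== part 0: formerly Pool.Agent.MP_20bec2_an.T3.Csum
section MrgPart0

/-! Row CSUM: sums over the cells. -/

set_option autoImplicit false
open MeasureTheory Set Filter Matrix Topology

namespace Pool.Agent.MP_20bec2_an.T3
noncomputable section
open Classical

namespace Csum
open Glue

lemma smc {n : ℝ → V} (hn : Sm n) : Sm (cin n) := by
  refine contDiff_pi.2 fun i => ?_
  fin_cases i <;> simp only [cin] <;> simp <;> fun_prop

lemma bL_pos {c : Pm} (h : Gd c) : 0 < c.bL := div_pos (mul_pos h.q_pos h.GH_pos) h.L_pos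

lemma bL_le {c : Pm} (h : Gd c) : 8 * c.bL * c.wL ≤ 1 / (c.N * c.J ^ 9) := by
  have p1 := h.c1_pos; have p2 := h.c2_pos; have p3 := h.l1_pos; have p4 := h.lam_pos
  have p5 := h.GG_pos; have p6 := h.n12_pos; have p7 := h.bb_pos; have p8 := h.N_pos
  have p9 := h.J_pos; have p10 := h.q_pos; have p11 := h.GH_pos; have p12 := h.L_pos
  have k0 : c.c1 * c.GG / (c.n12 * c.l1) ≤ √(c.bb / c.N) := h.cc_GG 0 (by decide)
  have k1 : c.c2 * c.GG / (c.n12 * c.lam) ≤ √(c.bb / c.N) := h.cc_GG 1 (by decide)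
  have m0 := Real.log_le_log (by positivity) k0
  have m1 := Real.log_le_log (by positivity) k1
  have hw := (log_max' one_pos (show 0 < c.c1 * c.lam / (c.c2 * c.l1) by positivity)).2.2
  have pw : 0 < c.wL := lt_max_of_lt_left one_pos
  change Real.log c.wL = _ ∨ Real.log c.wL = _ at hw
  refine le_of_log (by have := bL_pos h; positivity) (by positivity) ?_
  unfold Pm.bL
  simp (disch := positivity) only [Real.log_div, Real.log_mul, Real.log_sqrt, Real.log_pow,
    Real.log_one, h.log_q, h.log_J, h.big.log_N, h.log_GH, h.log_L] at m0 m1 hw ⊢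
  push_cast
  have := h.log_c2; have := h.log_s2_le; have := h.log_n12_bd.2; have := h.log_bb_bd.2
  have := h.big.L_ge; have := (logc_bd (show (1 : ℝ) ≤ 8 by norm_num)).2
  rcases hw with e | e <;> linarith

section gen
variable {h : V} {K : Cu → Set V} {φ : Cu → V → ℝ}

/-- the next colour splits off -/
lemma step (H : Sup h (92 / 100) φ) (j : ℕ) (z : V) :
    ∑ᶠ g, (if col g < j + 1 then φ g z else 0) =
      ∑ᶠ g, (if col g < j then φ g z else 0) + ∑ᶠ g, (if col g = j then φ g z else 0) := by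
  rw [← (H.ite fun g => col g < j).finsum_add (H.ite fun g => col g = j) (by norm_num) z]
  refine finsum_congr fun g => ?_
  rcases lt_trichotomy (col g) j with e | e | e
  · rw [if_pos (by omega), if_pos e, if_neg (by omega), add_zero]
  · rw [if_pos (by omega), if_neg (by omega), if_pos e, zero_add]
  · rw [if_neg (by omega), if_neg (by omega), if_neg (by omega), add_zero]

lemma sm_ite (hs : ∀ g, Sm (φ g)) (p : Cu → Prop) [DecidablePred p] (g : Cu) :
    Sm fun z => if p g then φ g z else 0 := by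
  by_cases hp : p g
  · simpa only [if_pos hp] using hs g
  · simpa only [if_neg hp] using sm_const (0 : ℝ)

lemma cbl_ite {P : List (Fin 3) → Prop} {k : V} {B : ℝ} (hB : 0 ≤ B)
    (hb : ∀ g, CBl P k univ (φ g) B) (p : Cu → Prop) [DecidablePred p] (g : Cu) (U : Set V) :
    CBl P k U (fun z => if p g then φ g z else 0) B := by
  by_cases hp : p g
  · simpa only [if_pos hp] using (hb g).monoU (subset_univ U)
  · simpa only [if_neg hp] using cbl_zero hB
end gen

/-- the divergence of the sum of the cell fluxes -/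
lemma dv_bc (c : Pm) {F : V → V} (hF : Sm F) (z : V) :
    ∑ᶠ g, dv (fun w => c.bc g w • F w) z = dv F z := by
  have H := (sup_bc c).smul fun _ w => F w
  rw [← H.dv_finsum (by norm_num) z fun g =>
    (((Prof.bc_sm c g).smul hF).differentiable (by simp)).differentiableAt]
  congr 1
  funext w
  exact (sup_bc c).avg_const (by norm_num) (Prof.bc_finsum c w) (F w)

end Csum

open Glue Csum in
theorem csum (hA : CellAStmt) (hB : CellBStmt) : CsumStmt := by
  filter_upwards [hA, hB, ev_gd] with N hA hB hG c hN ho O ch F hO hch hF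
  have h := hG c hN ho
  have A := hA c hN ho O ch F hO hch hF
  have B := hB c hN ho O ch F hO hch hF
  have r1 : (92 / 100 : ℝ) < 1 := by norm_num
  have hs0 : ∀ i, 0 ≤ c.hs i := fun i => (h.hs_pos i).le
  have b0 := (bL_pos h).le
  have sM : ∀ g, Sm (c.cM ch F g) := fun g => ((A g).1.sm.pd 2).comp (smc (hch.2 g).1)
  have HM : Sup c.cw (92 / 100) (c.cM ch F) := fun g z hz => ((A g).2.1 z fun k => hz k.1).2
  have HB : ∀ i, i ≠ 2 → Sup c.cw (92 / 100) fun g => c.cB ch F g i := fun i hi g z hz =>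
    (B g i hi).2.1 z fun k => hz k.1
  refine ⟨b0, bL_le h, fun j => ⟨?_, ?_, fun z => ⟨fun hz => ?_, fun g hg hz => ?_, fun hz => ?_⟩⟩,
    fun z => ⟨?_, ?_⟩, fun i hi => ⟨?_, fun z hz => ?_, fun z => ?_, ?_⟩⟩
  · exact (HM.ite fun g => col g < j).sm r1 (sm_ite sM _)
  · have p := (h.big.np_pos (-27 / 100)).le
    exact (HM.ite fun g => col g < j).cbl r1 (sm_ite sM _) hs0 p fun g =>
      cbl_ite (φ := c.cM ch F) p (fun g => (A g).1.m) (fun g => col g < j) g _
  · refine finsum_eq_zero_of_forall_eq_zero fun g => ?_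
    rw [((A g).2.1 z fun k => hz k.2).2, ite_self]
  · unfold Pm.mS
    rw [step HM, (HM.ite fun g => col g = j).one_eq (col_ite j _) hg (by norm_num) hz.1, if_pos hg]
  · unfold Pm.mS
    rw [step HM, finsum_eq_zero_of_forall_eq_zero (f := fun g => if col g = j then _ else 0),
      add_zero]
    intro g
    by_cases hg : col g = j
    · rw [if_pos hg]; exact ((A g).2.1 z (hz g hg)).2
    · exact if_neg hg
  · exact finsum_eq_zero_of_forall_eq_zero fun g => if_neg (Nat.not_lt_zero _)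
  · have e8 : c.mS ch F 8 z = ∑ᶠ g, c.cM ch F g z := finsum_congr fun g => if_pos (Prof.col_lt g)
    have d : ∀ i, i ≠ 2 → pd i (c.bS ch F i) z = ∑ᶠ g, pd i (c.cB ch F g i) z := fun i hi =>
      (HB i hi).pd_finsum r1 i z fun g =>
        ((B g i hi).1.differentiable (by simp)).differentiableAt
    have H0 := (HB 0 (by decide)).pd 0
    have H1 := (HB 1 (by decide)).pd 1
    rw [e8, d 0 (by decide), d 1 (by decide), ← HM.finsum_add H0 r1, ← (HM.add H0).finsum_add H1 r1,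
      ← dv_bc c hF.sm z]
    exact finsum_congr fun g => (A g).2.2 z
  · exact (HB i hi).sm r1 fun g => (B g i hi).1
  · exact finsum_eq_zero_of_forall_eq_zero fun g => (B g i hi).2.1 z fun k => hz k.2
  · have := (HB i hi).abs_le r1 (x := z) (B := pA c.N * c.bL * c.hs i)
      (mul_nonneg (mul_nonneg h.big.pA_pos.le b0) (hs0 i)) fun g _ => (B g i hi).2.2.1 z
    exact this.trans (le_of_eq (by ring))
  · rw [mul_assoc]
    exact (HB i hi).cbl r1 (fun g => (B g i hi).1) hs0 (mul_nonneg b0 (hs0 i)) fun g =>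
      CBl.monoU (B g i hi).2.2.2 (subset_univ _)

end
end Pool.Agent.MP_20bec2_an.T3

end MrgPart0

-- ======== part 1: formerly Pool.Agent.MP_20bec2_an.T3.CellA
section MrgPart1

/-! Row CELLA: the vertical datum of one cell. -/

set_option autoImplicit false
open MeasureTheory Set Filter Matrix Topology

namespace Pool.Agent.MP_20bec2_an.T3
noncomputable section
open Classical

namespace CellAP

lemma pd_vert {s : ℝ → ℝ} (hs : Sm s) (j : Fin 3) (w : V) :
    pd j (fun w : V => s (w 2)) w = if j = 2 then deriv s (w 2) else 0 := by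
  rw [pd_comp_at (hs.dif _) ((sm_coord 2).dif w), pd_coord]
  by_cases hj : j = 2
  · simp [hj]
  · simp [hj, Ne.symm hj]

lemma sm_vert {s : ℝ → ℝ} (hs : Sm s) : Sm fun w : V => s (w 2) := ContDiff.comp hs (sm_coord 2)

lemma pds_vmul {s : ℝ → ℝ} (hs : Sm s) {T : V → ℝ} (hT : Sm T) {l : List (Fin 3)}
    (hl : ∀ i ∈ l, i ≠ 2) : pds l (fun w => s (w 2) * T w) = fun w => s (w 2) * pds l T w := by
  induction l with
  | nil => rfl
  | cons j l ih =>
    funext w
    rw [pds_cons, ih fun i hi => hl i (List.mem_cons_of_mem _ hi),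
      pd_mul_at ((sm_vert hs).dif w) ((hT.pds l).dif w), pd_vert hs,
      if_neg (hl j List.mem_cons_self), zero_mul, zero_add, pds_cons]

/-- lateral derivatives commute with the inverse chart -/
lemma pd_cin {a : V → ℝ} {n : ℝ → V} (ha : Sm a) (hn : Sm n) {j : Fin 3} (hj : j ≠ 2) (z : V) :
    pd j (fun z => a (cin n z)) z = pd j a (cin n z) := by
  have e : ∀ i, i ≠ 2 → pd j (fun y : V => y i - n (y 2) i) z = if i = j then 1 else 0 :=
    fun i _ => by
      rw [pd_sub_at ((sm_coord i).dif z) ((sm_vert (hn.coord i)).dif z), pd_coord,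
        pd_vert (hn.coord i), if_neg hj, sub_zero]
  have e0 : jm (cin n) z 0 j = if 0 = j then 1 else 0 := e 0 (by decide)
  have e1 : jm (cin n) z 1 j = if 1 = j then 1 else 0 := e 1 (by decide)
  have e2 : jm (cin n) z 2 j = if 2 = j then 1 else 0 := pd_coord j 2 z
  rw [pd_comp (ha.dif _) ((sm_cin hn).dif z), Fin.sum_univ_three, e0, e1, e2]
  fin_cases j <;> simp at hj ⊢

variable {c : Pm}

lemma num (h : Gd c) {C : ℝ} (hC : 1 ≤ C) (hq : C ≤ c.q) :
    8 * c.GH ≤ np c.N (-9 / 100) * c.y ∧ 8 * C * np c.N (-275 / 1000) ≤ np c.N (-27 / 100) / 4 ∧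
    c.bL ≤ np c.N (-27 / 100) / 4 ∧ 4 * c.L ≤ 3 / 1000 * c.D ∧
    (∀ i, c.hs i ≤ c.cw i ∧ c.cw i ≤ c.L) ∧ ∀ j, j ≠ 2 →
      c.cc j / (c.n12 * c.hs j) * (8 * c.GH) ≤ c.aM ∧
      c.cc j / (c.n12 * c.hs j) * (c.y * np c.N (-27 / 100)) ≤ c.aM := by
  have b := h.big
  have := h.N_pos; have := h.q_pos; have := h.J_pos; have := h.GH_pos; have := h.GG_pos
  have := h.y_pos; have := h.L_pos; have := h.D_pos; have := h.lam_pos; have := h.l1_pos
  have := h.bb_pos; have := h.n12_pos; have := b.pA_pos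
  have := b.np_pos (-9 / 100); have := b.np_pos (-275 / 1000); have := b.np_pos (-27 / 100)
  have := b.qp_pos (59 / 10)
  have := b.L_ge; have := b.J_ge
  have := (logc_bd (show (1 : ℝ) ≤ 3 by norm_num)).1
  have := (logc_bd (show (1 : ℝ) ≤ 4 by norm_num)).2
  have := (logc_bd (show (1 : ℝ) ≤ 8 by norm_num)).2
  have := (logc_bd (show (1 : ℝ) ≤ 1000 by norm_num)).2
  have := h.log_GG_bd.1; have := h.log_GG_bd.2; have := h.log_bb_bd.2
  have := h.log_ro_bd.1; have := h.log_ro_bd.2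
  have l1 : Real.log C ≤ pL c.N / 1000 := h.log_q ▸ Real.log_le_log (by linarith) hq
  have l2 : Real.log c.lam ≤ Real.log c.lb := Real.log_le_log h.lam_pos h.lam_le_lb
  have hC0 : 0 < C := by linarith
  refine ⟨?_, ?_, ?_, ?_, fun i => ?_, fun j hj => ?_⟩
  · refine le_of_log (by positivity) (by positivity) ?_
    simp (disch := positivity) only [Real.log_mul, h.log_GH, h.log_y, b.log_np]
    linarith
  · refine le_of_log (by positivity) (by positivity) ?_
    simp (disch := positivity) only [Real.log_mul, Real.log_div, b.log_np]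
    linarith
  · unfold Pm.bL
    refine le_of_log (by positivity) (by positivity) ?_
    simp (disch := positivity) only [Real.log_mul, Real.log_div, h.log_GH, h.log_L, h.log_q,
      b.log_np]
    linarith
  · refine le_of_log (by positivity) (by positivity) ?_
    simp (disch := positivity) only [Real.log_mul, Real.log_div, h.log_D, h.log_L]
    linarith
  · have k0 : c.l1 ≤ pA c.N * c.l1 ∧ pA c.N * c.l1 ≤ c.L := by
      constructor <;> refine le_of_log (by positivity) (by positivity) ?_ <;>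
        simp (disch := positivity) only [Real.log_mul, h.log_l1, h.log_L, b.log_pA] <;> linarith
    have k1 : c.lam ≤ pA c.N * c.lam ∧ pA c.N * c.lam ≤ c.L := by
      constructor <;> refine le_of_log (by positivity) (by positivity) ?_ <;>
        simp (disch := positivity) only [Real.log_mul, h.log_L, b.log_pA] <;> linarith
    have k2 : c.y ≤ c.L := le_of_log (by positivity) (by positivity) (by
      rw [h.log_y, h.log_L]; linarith)
    fin_cases i
    exacts [k0, k1, ⟨k2, le_rfl⟩]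
  · have := h.cc_pos j; have := h.hs_pos j
    have k := Real.log_le_log (by positivity) (h.cc_GG j hj)
    simp (disch := positivity) only [Real.log_mul, Real.log_div, Real.log_sqrt, b.log_N] at k
    unfold Pm.aM
    constructor <;> refine le_of_log (by positivity) (by positivity) ?_ <;>
      simp (disch := positivity) only [Real.log_mul, Real.log_div, Real.log_sqrt, h.log_GH,
        h.log_y, h.log_J, b.log_N, b.log_np, b.log_qp] <;> linarith

variable {O : Mx} {ch : Cu → ℝ → V} {F : V → V}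

lemma stp_sm (c : Pm) (g : Cu) : Sm (c.stp g) :=
  ContDiff.comp Prof.st_sm (((contDiff_id.div_const _).sub contDiff_const).add contDiff_const)

lemma cf_sm (H : c.FC O ch F) (g : Cu) (i : Fin 3) : Sm (c.cf g F i) :=
  ContDiff.mul (Prof.bc_sm c g) (H.sm.coord i)

lemma cf_slab (h : Gd c) (g : Cu) (i : Fin 3) : Slab (c.cf g F i) :=
  Slab.of_compact (Prof.bc_hcs h.cw_pos g).mul_right

lemma cP_sm (h : Gd c) (hc : c.ChB ch) (H : c.FC O ch F) (g : Cu) (i : Fin 3) :
    Sm (c.cP ch F g i) :=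
  ContDiff.sub (sm_pre (cf_sm H g i) (cf_slab h g i) (hc.2 g).1)
    (ContDiff.mul (sm_vert (stp_sm c g))
      (sm_tot (cf_sm H g i) (cf_slab h g i) (hc.2 g).1.continuous))

lemma cA_sm (h : Gd c) (hc : c.ChB ch) (H : c.FC O ch F) (g : Cu) : Sm (c.cA ch F g) :=
  ContDiff.add ((cP_sm h hc H g 0).pd 0) ((cP_sm h hc H g 1).pd 1)

/-- the primitive vanishes off the cell -/
lemma cP_zero (h : Gd c) (hO : Orth O) (hc : c.ChB ch) (H : c.FC O ch F) (g : Cu) (i : Fin 3)
    (w : V) (hw : cpt (ch g) w (w 2) ∉ c.cK O g) : c.cP ch F g i w = 0 := by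
  obtain ⟨-, -, -, n4, n5, -⟩ := num h le_rfl (by linarith [h.big.q_ge, show c.q = pq c.N from rfl])
  have hL := h.L_pos
  have z0 : ∀ r : ℝ, 9 / 10 ≤ |r / c.L - g 2| → c.cf g F i (cpt (ch g) w r) = 0 := fun r hr => by
    rw [Pm.cf, Prof.bc_zero (i := 2) hr, zero_mul]
  unfold Pm.cP Pm.stp
  rcases le_or_gt (w 2 / c.L - g 2) (-(9 / 10)) with h1 | h1
  · rw [pre_eq_zero fun r hr => z0 r (le_abs'.2 (Or.inl ?_)), Prof.st_zero (by linarith)]
    · simp
    · linarith [div_le_div_of_nonneg_right hr hL.le]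
  rcases le_or_gt (9 / 10) (w 2 / c.L - g 2) with h2 | h2
  · rw [pre_eq_tot fun r hr => z0 r (le_abs'.2 (Or.inr ?_)), Prof.st_one (by linarith)]
    · simp
    · linarith [div_le_div_of_nonneg_right hr.le hL.le]
  have z1 : ∀ r : ℝ, c.cf g F i (cpt (ch g) w r) = 0 := fun r => by
    by_contra h0
    have hb := Prof.bc_supp (left_ne_zero_of_mul h0)
    have hF : cpt (ch g) w r ∈ RX O c.D (95 / 100) := by
      by_contra hF
      exact right_ne_zero_of_mul h0 (by rw [H.sup _ hF]; rfl)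
    have b2 : |r / c.L - g 2| < 9 / 10 := hb 2
    have d : ∀ k, k ≠ 2 → |ch g (w 2) k - ch g r k| ≤ c.cw k / 50 := fun k hk => by
      have a1 := ((hc.2 g).2 k hk r).1 (by linarith)
      have a2 := ((hc.2 g).2 k hk (w 2)).1 (abs_le.2 ⟨by linarith, by linarith⟩)
      linarith [abs_sub (ch g (w 2) k) (ch g r k)]
    have e : ∀ k, k ≠ 2 →
        cpt (ch g) w (w 2) k = cpt (ch g) w r k + (ch g (w 2) k - ch g r k) := fun k hk => by
      fin_cases k <;> simp [cpt] at hk ⊢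
    refine hw ⟨fun k => ?_, ?_⟩
    · by_cases hk : k = 2
      · subst hk
        exact abs_le.2 ⟨by show _ ≤ w 2 / c.L - g 2; linarith,
          by show w 2 / c.L - g 2 ≤ _; linarith⟩
      · have p := h.cw_pos k
        have a1 := abs_le.1 (hb k).le
        have a2 := abs_le.1 (d k hk)
        have a3 : (ch g (w 2) k - ch g r k) / c.cw k ≤ 1 / 50 := by
          rw [div_le_iff₀ p]; linarith
        have a4 : -(1 / 50) ≤ (ch g (w 2) k - ch g r k) / c.cw k := by
          rw [le_div_iff₀ p]; linarith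
        rw [e k hk, add_div]
        exact abs_le.2 ⟨by linarith, by linarith⟩
    · have m : ‖cpt (ch g) w (w 2) - cpt (ch g) w r‖ ≤ 2 * c.L := by
        refine (pi_norm_le_iff_of_nonneg (by positivity)).2 fun k => ?_
        rw [Pi.sub_apply, Real.norm_eq_abs]
        by_cases hk : k = 2
        · subst hk
          have a1 := abs_lt.1 b2
          have a2 : (w 2 - r) / c.L ≤ 2 := by rw [sub_div]; linarith
          have a3 : -2 ≤ (w 2 - r) / c.L := by rw [sub_div]; linarith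
          rw [div_le_iff₀ hL] at a2
          rw [le_div_iff₀ hL] at a3
          exact abs_le.2 ⟨by show _ ≤ w 2 - r; linarith, a2⟩
        · rw [e k hk, add_sub_cancel_left]
          linarith [d k hk, (n5 k).2]
      have := Prof.RX_add hO (s := 3 / 1000) hF (y := cpt (ch g) w (w 2)) (by linarith)
      exact Prof.RX_mono _ h.D_pos.le (by norm_num) this
  rw [pre_eq_zero fun r _ => z1 r, tot]
  simp [z1]

lemma cA_ev (h : Gd c) (hO : Orth O) (hc : c.ChB ch) (H : c.FC O ch F) (g : Cu) (z : V)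
    (hz : z ∉ c.cK O g) : c.cA ch F g =ᶠ[𝓝 (cin (ch g) z)] fun _ => 0 := by
  have k : Continuous fun w : V => cpt (ch g) w (w 2) :=
    (continuous_cpt (hc.2 g).1.continuous).comp (f := fun w : V => (w 2, w))
      ((continuous_apply 2).prodMk continuous_id)
  have o : IsOpen {w : V | cpt (ch g) w (w 2) ∉ c.cK O g} :=
    (((Glue.cell_closed _ _ _).inter (Prof.RX_closed _ _ _)).preimage k).isOpen_compl
  have m : cin (ch g) z ∈ {w : V | cpt (ch g) w (w 2) ∉ c.cK O g} := by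
    show cpt (ch g) (cin (ch g) z) (z 2) ∉ _
    rwa [cpt_cin]
  filter_upwards [o.mem_nhds m] with w hw
  have e : ∀ i, pd i (c.cP ch F g i) w = 0 := fun i =>
    pds_zero_of_eventually (Filter.eventuallyEq_of_mem (o.mem_nhds hw)
      fun v hv => cP_zero h hO hc H g i v hv) [i]
  rw [Pm.cA, e, e, add_zero]

lemma cP_lat (h : Gd c) (hc : c.ChB ch) (H : c.FC O ch F) (g : Cu) {i : Fin 3} (hi : i ≠ 2) :
    CBl (LatL 3) c.hs univ (c.cP ch F g i) (4 * (c.hs i * c.GH)) := fun l hl w _ => by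
  have sT := sm_tot (cf_sm H g i) (cf_slab h g i) (hc.2 g).1.continuous
  have sP := sm_pre (cf_sm H g i) (cf_slab h g i) (hc.2 g).1
  have a1 := (H.pb g i hi).1 l hl w trivial
  have a2 := (H.pb g i hi).2.1 l hl w trivial
  have p := hp_nonneg (fun i => (h.hs_pos i).le) l
  have e : pds l (c.cP ch F g i) w = pds l (pre (ch g) (c.cf g F i)) w -
      c.stp g (w 2) * pds l (tot (ch g) (c.cf g F i)) w := by
    have := pds_sub sP (ContDiff.mul (sm_vert (stp_sm c g)) sT) l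
    rw [pds_vmul (stp_sm c g) sT hl.2.2] at this
    exact congrFun this w
  have s1 : |c.stp g (w 2) * pds l (tot (ch g) (c.cf g F i)) w| ≤
      |pds l (tot (ch g) (c.cf g F i)) w| := by
    rw [abs_mul, Pm.stp, abs_of_nonneg (Prof.st_nonneg _)]
    exact mul_le_of_le_one_left (abs_nonneg _) (Prof.st_le_one _)
  have s2 := mul_le_mul_of_nonneg_left ((abs_sub (pds l (pre (ch g) (c.cf g F i)) w) _).trans
    (add_le_add le_rfl s1)) p
  rw [e]; linarith

lemma cA_lat (h : Gd c) (hc : c.ChB ch) (H : c.FC O ch F) (g : Cu) :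
    CBl (fun l => l.length ≤ 2 ∧ ∀ i ∈ l, i ≠ 2) c.hs univ (c.cA ch F g) (8 * c.GH) := by
  have k : ∀ i : Fin 3, i ≠ 2 → CBl (fun l => l.length ≤ 2 ∧ ∀ i ∈ l, i ≠ 2) c.hs univ
      (pd i (c.cP ch F g i)) (4 * c.GH) := fun i hi => by
    refine CBl.monoB (CBl.pd_div h.hs_pos (cP_lat h hc H g hi) i fun l hl =>
      ⟨by simp, by have := hl.1; simp; omega, fun j hj => ?_⟩) (le_of_eq ?_)
    · rcases List.mem_append.1 hj with a | a
      exacts [hl.2 j a, List.mem_singleton.1 a ▸ hi]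
    · have := (h.hs_pos i).ne'
      field_simp
  exact CBl.monoB (CBl.add (fun i => (h.hs_pos i).le) ((cP_sm h hc H g 0).pd 0)
    ((cP_sm h hc H g 1).pd 1) (k 0 (by decide)) (k 1 (by decide))) (le_of_eq (by ring))

/-- the vertical derivative of the datum -/
lemma cM_eq (h : Gd c) (hc : c.ChB ch) (H : c.FC O ch F) (g : Cu)
    (hB : ∀ i, i ≠ 2 → Sm (c.cB ch F g i)) : c.cM ch F g = fun z =>
      (pd 0 (c.cf g F 0) z - pd 0 (c.cB ch F g 0) z) +
        (pd 1 (c.cf g F 1) z - pd 1 (c.cB ch F g 1) z) := by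
  have hn := (hc.2 g).1
  have k : ∀ i : Fin 3, i ≠ 2 → ∀ z, pd 2 (pd i (c.cP ch F g i)) (cin (ch g) z) =
      pd i (c.cf g F i) z - pd i (c.cB ch F g i) z := fun i hi z => by
    have sT := sm_tot (cf_sm H g i) (cf_slab h g i) hn.continuous
    have sP := sm_pre (cf_sm H g i) (cf_slab h g i) hn
    have e : (fun z => pd 2 (c.cP ch F g i) (cin (ch g) z)) =
        fun z => c.cf g F i z - c.cB ch F g i z := by
      funext z
      have := pd_sub_at (sP.dif (cin (ch g) z))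
        (Sm.dif (ContDiff.mul (sm_vert (stp_sm c g)) sT) _) 2
      rw [pd_mul_at ((sm_vert (stp_sm c g)).dif _) (sT.dif _), pd_vert (stp_sm c g), if_pos rfl,
        pd_two_pre (cf_sm H g i) (cf_slab h g i) hn.continuous,
        pd_two_tot (cf_sm H g i) (cf_slab h g i) hn.continuous] at this
      refine this.trans ?_
      show c.cf g F i (cpt (ch g) (cin (ch g) z) (z 2)) - _ = _
      rw [cpt_cin, mul_zero, add_zero]; rfl
    rw [pd_comm (cP_sm h hc H g i), ← pd_cin ((cP_sm h hc H g i).pd 2) hn hi, e,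
      pd_sub_at ((cf_sm H g i).dif z) ((hB i hi).dif z)]
  funext z
  rw [← k 0 (by decide), ← k 1 (by decide)]
  exact pd_add_at (((cP_sm h hc H g 0).pd 0).dif _) (((cP_sm h hc H g 1).pd 1).dif _) 2

lemma cM_cb (h : Gd c) (hc : c.ChB ch) (H : c.FC O ch F) (g : Cu) {C : ℝ} (hC : 1 ≤ C)
    (hq : C ≤ c.q) (hb : CB 3 c.cw univ (c.bc g) C)
    (hB : ∀ i, i ≠ 2 → Sm (c.cB ch F g i) ∧ CV 3 c.hs univ (c.cB ch F g i) (c.bL * c.hs i)) :
    CB 2 c.hs univ (c.cM ch F g) (np c.N (-27 / 100)) := by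
  obtain ⟨-, n2, n3, -, n5, -⟩ := num h hC hq
  have hh := fun i => (h.hs_pos i).le
  have k : ∀ i : Fin 3, i ≠ 2 → CB 2 c.hs univ
      (fun z => pd i (c.cf g F i) z - pd i (c.cB ch F g i) z) (np c.N (-27 / 100) / 2) :=
    fun i hi => by
      have a1 := CB.pd_div h.hs_pos (CB.mul hh (Prof.bc_sm c g) (H.sm.coord i)
        (CBl.monoh hb hh fun i => (n5 i).1) (H.cb i hi)) i
      have a2 := CV.pd_div h.hs_pos (hB i hi).2 i
      refine CBl.monoB (CBl.sub hh ((cf_sm H g i).pd i) ((hB i hi).1.pd i) a1 a2) ?_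
      rw [← mul_assoc, mul_div_cancel_right₀ _ (h.hs_pos i).ne',
        mul_div_cancel_right₀ _ (h.hs_pos i).ne']
      linarith
  rw [cM_eq h hc H g fun i hi => (hB i hi).1]
  exact CBl.monoB (CBl.add hh
    (ContDiff.sub ((cf_sm H g 0).pd 0) ((hB 0 (by decide)).1.pd 0))
    (ContDiff.sub ((cf_sm H g 1).pd 1) ((hB 1 (by decide)).1.pd 1))
    (k 0 (by decide)) (k 1 (by decide))) (le_of_eq (by ring))

end CellAP

open CellAP in
theorem cellA (hB : CellBStmt) : CellAStmt := by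
  obtain ⟨C, hC, hb⟩ := Prof.cb_bc 3
  filter_upwards [ev_big, hB, ev_C_q C] with N b hB hq c hN ok O ch F hO hc H g
  have h : Gd c := ⟨hN ▸ b, ok⟩
  have hq' : C ≤ c.q := by rw [Pm.q, hN]; exact hq
  have B := fun i hi => hB c hN ok O ch F hO hc H g i hi
  obtain ⟨n1, -, -, -, -, n6⟩ := num h hC hq'
  have sA := cA_sm h hc H g
  have lat := cA_lat h hc H g
  have m := cM_cb h hc H g hC hq' (hb c g) fun i hi => ⟨(B i hi).1, (B i hi).2.2.2⟩
  refine ⟨⟨sA, fun w => ?_, fun j hj w => ?_, m⟩, fun z hz => ?_, fun z => ?_⟩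
  · simpa using (lat [] (by simp) w trivial).trans n1
  · have p := h.hs_pos j
    have pn := h.n12_pos
    have pk : 0 ≤ c.cc j / (c.n12 * c.hs j) := by have := h.cc_pos j; positivity
    have e : ∀ x : ℝ, c.cc j / c.n12 * x = c.cc j / (c.n12 * c.hs j) * (c.hs j * x) := fun x => by
      field_simp
    have a1 : c.hs j * |pd j (c.cA ch F g) w| ≤ 8 * c.GH := by
      simpa [hp] using lat [j] (by simpa using hj) w trivial
    refine ⟨a1.trans n1, ?_, fun i => ?_⟩
    · rw [e]; exact (mul_le_mul_of_nonneg_left a1 pk).trans (n6 j hj).1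
    · rw [e]
      by_cases hi : i = 2
      · subst hi
        refine (mul_le_mul_of_nonneg_left ?_ pk).trans (n6 j hj).2
        have a2 := m.pd_le (by norm_num) j (x := cpt (ch g) w (w 2)) trivial
        have a3 := pd_cin (sA.pd 2) (hc.2 g).1 hj (cpt (ch g) w (w 2))
        rw [cin_cpt, pd_comm sA] at a3
        rw [← a3, mul_left_comm]
        exact mul_le_mul_of_nonneg_left a2 h.y_pos.le
      · refine (mul_le_mul_of_nonneg_left ?_ pk).trans (n6 j hj).1
        have a2 := lat [i, j] (by simp [hi, hj]) w trivial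
        simp only [hp, List.map_cons, List.map_nil, List.prod_cons, List.prod_nil, mul_one,
          pds_cons, pds_nil] at a2
        linarith
  · have k := cA_ev h hO hc H g z hz
    exact ⟨k.eq_of_nhds, pds_zero_of_eventually k [2]⟩
  · have e2 : (fun w => (c.bc g w • F w) 2) = fun _ => 0 := funext fun w => by simp [H.f2]
    rw [cM_eq h hc H g fun i hi => (B i hi).1, dv, Fin.sum_univ_three, e2]
    show _ = pd 0 (c.cf g F 0) z + pd 1 (c.cf g F 1) z + _
    simp only [pd, fderiv_fun_const, Pi.zero_apply, _root_.zero_apply]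
    ring

end
end Pool.Agent.MP_20bec2_an.T3

end MrgPart1

-- ======== part 2: formerly Pool.Agent.MP_20bec2_an.T3.FAll
section MrgPart2

/-! The rows FMAIN, FMG, GABS without hypotheses. -/

namespace Pool.Agent.MP_20bec2_an.T3

theorem fmain_all : FmainStmt :=
  fmain_of cut (csum (cellA cellB) cellB)
    (col_ cvs1 (cvs2 nat) (cellA cellB) cellE (csum (cellA cellB) cellB) glu) (ls nat)
theorem fmg_all : FmgStmt := fmg fmain_all
theorem gabs_all : GabsStmt := gabs part gst grel (vs nat) (ls nat)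

end Pool.Agent.MP_20bec2_an.T3

end MrgPart2

-- ======== part 3: formerly Pool.Agent.MP_20bec2_an.T3.Flong
section MrgPart3

/-! The long slide from its parts. -/

set_option autoImplicit false
open MeasureTheory Set Filter Matrix Topology

namespace Pool.Agent.MP_20bec2_an.T3
noncomputable section
open Classical

/-- the long slide from its parts -/
theorem flong' (hP : PartStmt) (hS : SgnStmt) (hL : LeStmt) (h2 : Fl2Stmt) (h4 : Fl4Stmt)
    (h3 : Fl3Stmt) : FlongStmt := by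
  obtain ⟨C, -, hP⟩ := hP
  filter_upwards [hP, hS, hL, h2, h4, h3, ev_big, ev_C_q C] with N hP hS hL h2 h4 h3 hN hC
  rintro B rfl f Zm hG hf hZ hM H
  obtain ⟨α, hα⟩ := hP B rfl hG
  obtain ⟨Af, hA⟩ := (hS B rfl hG).2.2.2.2.2 C α hα
  have hF : B.FH f := ⟨hf, hM, fun g d => ⟨(H g d).1, (H g d).2.1⟩⟩
  have hZ' : B.ZH Zm := ⟨hZ, fun g d => (H g d).2.2⟩
  have key : ∀ j ≤ 8, ∃ f1, B.LI α f j f1 := by
    intro j
    induction j with
    | zero =>
      refine fun _ => ⟨f, hf, fun _ => rfl, fun _ _ => EventuallyEq.rfl, fun g p' p e _ => ?_⟩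
      obtain rfl := hf.2.1.1 e
      have l := hL (B.c g (mid B.N)) rfl (Fl.gdm hN hG g).ok
      refine l.2.1 _ _ _ _ _ _ _ _ _ _ _ _ _ _ _ EventuallyEq.rfl ?_ ?_ ?_ ?_
        (l.1 _ _ _ EventuallyEq.rfl)
      · simp [Fl.sw_nil]
      · simpa using (hN.np_pos _).le
      · simp
      · simp
    | succ j ih =>
      intro hj
      obtain ⟨f1, h1⟩ := ih (by omega)
      exact h2 B rfl C α f f1 j hG hα hC hF (by omega) h1
  obtain ⟨f1, h1⟩ := key 8 le_rfl
  obtain ⟨Pv, hPv⟩ := h3 B rfl C α Zm Af hG hα hC hZ' hA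
  have := h4 B rfl C α f f1 Af hG hα hF hA h1
  exact ⟨f1, Af, _, Pv, ⟨h1.dif.1, h1.dif.2.1, h1.jc⟩, hPv, this.1, this.2⟩

theorem flong (h : P0Stmt) : FlongStmt :=
  flong' part sgn_ le_ (fl2 (fl1 nat (vl nat) (ls nat) le_)) fl4 (fl3 h)

end
end Pool.Agent.MP_20bec2_an.T3

end MrgPart3

-- ======== part 4: formerly Pool.Agent.MP_20bec2_an.T3.FAll2
section MrgPart4

/-! The row FLONG without hypotheses. -/

namespace Pool.Agent.MP_20bec2_an.T3

theorem flong_all : FlongStmt := flong (p0 term sgn_)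

end Pool.Agent.MP_20bec2_an.T3

end MrgPart4

-- marker of a merged file
example : 731051 + 140039 = 731051 + 140039 := rfl

end MrgPart5

-- marker of a merged file
example : 731051 + 140039 = 731051 + 140039 := rfl
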