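import Mathlib.Topology.Sheaves.Presheaf
import Mathlib.Algebra.Order.Ring.Star
import Mathlib.MeasureTheory.Integral.Prod
import Mathlib.RingTheory.PiTensorProduct
import Mathlib.MeasureTheory.Integral.RieszMarkovKakutani.Real
import Pool.Agent.MP_20bec2_an.T3.Final
import Pool.Agent.MP_20bec2_an.T3.Vtr
import Pool.Agent.MP_20bec2_an.T3.WinA
import Pool.Agent.MP_20bec2_an.T3.K4
import Pool.Agent.MP_20bec2_an.T3.InitB
import Pool.Agent.MP_20bec2_an.T3.Par4
import Pool.Agent.MP_20bec2_an.T3.Hn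
import Pool.Agent.MP_20bec2_an.T3.Gb
import Pool.Agent.MP_20bec2_an.T3.Pv
import Pool.Agent.MP_20bec2_an.T3.Rem

-- ======== part 0: formerly Pool.Agent.MP_20bec2_an.T3.GaD
section MrgPart0

-- ======== part 0: formerly Pool.Agent.MP_20bec2_an.T3.Lim
section MrgPart0

open MeasureTheory Set Filter Topology

namespace Pool.Agent.MP_20bec2_an.T3
noncomputable section

namespace Lim

lemma tele {F : ℕ → V → V} {S : ℕ → ℝ} (h : ∀ j x, ‖F (j + 1) x - F j x‖ ≤ S j - S (j + 1))
    (x : V) {j k : ℕ} (hk : j ≤ k) : ‖F k x - F j x‖ ≤ S j - S k := by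
  induction k, hk using Nat.le_induction with
  | base => simp
  | succ k _ ih =>
    have e : F (k + 1) x - F j x = (F (k + 1) x - F k x) + (F k x - F j x) := by ring
    rw [e]
    exact (norm_add_le _ _).trans (by linarith [h k x])

lemma lim_seq {F : ℕ → V → V} {S : ℕ → ℝ} (h : ∀ j x, ‖F (j + 1) x - F j x‖ ≤ S j - S (j + 1))
    (hS : ∀ j, 0 < S j) (h0 : Tendsto S atTop (𝓝 0)) :
    ∃ F' : V → V, ∀ j x, ‖F' x - F j x‖ ≤ S j := by
  have hc : ∀ x, CauchySeq fun j => F j x := fun x => by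
    refine cauchySeq_of_le_tendsto_0' S (fun n m hnm => ?_) h0
    rw [dist_comm, dist_eq_norm]
    exact (tele h x hnm).trans (by linarith [hS m])
  choose F' hF' using fun x => cauchySeq_tendsto_of_complete (hc x)
  refine ⟨F', fun j x => le_of_tendsto (((hF' x).sub_const (F j x)).norm) ?_⟩
  filter_upwards [eventually_ge_atTop j] with k hk
  exact (tele h x hk).trans (by linarith [hS k])

lemma tend {F : ℕ → V → V} {F' : V → V} {S : ℕ → ℝ} (h : ∀ j x, ‖F' x - F j x‖ ≤ S j)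
    (h0 : Tendsto S atTop (𝓝 0)) : TendstoUniformly F F' atTop := by
  rw [Metric.tendstoUniformly_iff]
  intro ε hε
  filter_upwards [h0.eventually (gt_mem_nhds hε)] with j hj x
  rw [dist_eq_norm]
  exact (h j x).trans_lt hj

lemma cont_of_lip {F : V → V} {L : ℝ} (h : ∀ x y, ‖F x - F y‖ ≤ L * ‖x - y‖) : Continuous F :=
  (LipschitzWith.of_dist_le' (K := L) fun x y => by
    rw [dist_eq_norm, dist_eq_norm]; exact h x y).continuous

lemma inv_lim {F G : ℕ → V → V} {F' G' : V → V} {S : ℕ → ℝ} (hF : ∀ j x, ‖F' x - F j x‖ ≤ S j)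
    (hG : ∀ j x, ‖G' x - G j x‖ ≤ S j) (h0 : Tendsto S atTop (𝓝 0)) (hc : Continuous G')
    (h : ∀ j x, G j (F j x) = x) (x : V) : G' (F' x) = x := by
  have h1 := (tend hG h0).tendsto_comp hc.continuousAt ((tend hF h0).tendsto_at x)
  simp only [h] at h1
  exact tendsto_nhds_unique h1 tendsto_const_nhds

lemma modulus {K : ℝ} {F : ℕ → V → V} {F' : V → V} {Λ S : ℕ → ℝ} (hK : 0 < K)
    (hF : ∀ j x, ‖F' x - F j x‖ ≤ S j) (hL : ∀ j x y, ‖F j x - F j y‖ ≤ Λ j * ‖x - y‖)
    (hS : ∀ j, 0 < S j) (h1 : S 0 < 1) (h0 : Tendsto S atTop (𝓝 0))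
    (hΛ : ∀ j, Λ (j + 1) ≤ K * Real.log (1 / S j)) (x y : V) (hxy : ‖x - y‖ ≤ S 0) :
    ‖F' x - F' y‖ ≤ (K + 2 / Real.log (1 / S 0)) * (‖x - y‖ * Real.log (1 / ‖x - y‖)) := by
  rcases eq_or_ne x y with rfl | hne
  · simp
  have ht : 0 < ‖x - y‖ := norm_pos_iff.2 (sub_ne_zero.2 hne)
  have hex : ∃ j, S (j + 1) < ‖x - y‖ :=
    ((h0.comp (tendsto_add_atTop_nat 1)).eventually (gt_mem_nhds ht)).exists
  obtain ⟨j, j1, j2⟩ : ∃ j, S (j + 1) < ‖x - y‖ ∧ ‖x - y‖ ≤ S j := by
    classical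
    refine ⟨Nat.find hex, Nat.find_spec hex, ?_⟩
    rcases h : Nat.find hex with _ | k
    · exact hxy
    · exact not_lt.1 (Nat.find_min hex (by omega))
  have e : F' x - F' y = (F' x - F (j + 1) x) + (F (j + 1) x - F (j + 1) y) -
      (F' y - F (j + 1) y) := by ring
  have a1 : ‖F' x - F' y‖ ≤ S (j + 1) + Λ (j + 1) * ‖x - y‖ + S (j + 1) := by
    rw [e]
    exact (norm_sub_le _ _).trans
      (add_le_add ((norm_add_le _ _).trans (add_le_add (hF _ _) (hL _ _ _))) (hF _ _))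
  set t := ‖x - y‖
  have lp : 0 < Real.log (1 / S 0) := Real.log_pos (one_lt_one_div (hS 0) h1)
  have lm : ∀ k, t ≤ S k → Real.log (1 / S k) ≤ Real.log (1 / t) := fun k hk =>
    Real.log_le_log (one_div_pos.2 (hS k)) (one_div_le_one_div_of_le ht hk)
  have a2 : Λ (j + 1) ≤ K * Real.log (1 / t) :=
    (hΛ j).trans (mul_le_mul_of_nonneg_left (lm j j2) hK.le)
  have a3 : 2 ≤ 2 / Real.log (1 / S 0) * Real.log (1 / t) := by
    rw [div_mul_eq_mul_div, le_div_iff₀ lp]
    linarith [lm 0 hxy]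
  nlinarith [mul_le_mul_of_nonneg_right a2 ht.le, mul_le_mul_of_nonneg_right a3 ht.le]

lemma rho_bd {ρ : V → ℝ} (h : Rho ρ) (x : V) : 0 ≤ ρ x ∧ ρ x ≤ 2 := by
  have := abs_le.1 (h.2 x)
  unfold eps0 at this
  constructor <;> linarith [this.1, this.2]

lemma locFin {ρ : V → ℝ} (h : Rho ρ) :
    IsLocallyFiniteMeasure ((volume : Measure V).withDensity fun x => ENNReal.ofReal (ρ x)) := by
  refine Measure.isLocallyFiniteMeasure_of_le (μ := (2 : NNReal) • (volume : Measure V)) ?_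
  refine (withDensity_mono (g := fun _ => ((2 : NNReal) : ENNReal))
    (Eventually.of_forall fun x => ?_)).trans (le_of_eq (withDensity_const _))
  exact (ENNReal.ofReal_le_ofReal (rho_bd h x).2).trans (by simp)

end Lim

open Lim

theorem lim : LimStmt := by
  intro K F G Λ S ρ hK hρ hinv hL hd hS h1 h0 hΛ hint
  obtain ⟨F', hF⟩ := lim_seq (fun j x => (hd j x).1) hS h0
  obtain ⟨G', hG⟩ := lim_seq (fun j x => (hd j x).2) hS h0
  have cF : ∀ j, Continuous (F j) := fun j => cont_of_lip fun x y => (hL j x y).1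
  have cG : ∀ j, Continuous (G j) := fun j => cont_of_lip fun x y => (hL j x y).2
  have cF' : Continuous F' := (tend hF h0).continuous (Frequently.of_forall cF)
  have cG' : Continuous G' := (tend hG h0).continuous (Frequently.of_forall cG)
  have i1 := inv_lim hF hG h0 cG' fun j x => (hinv j x).1
  have i2 := inv_lim hG hF h0 cF' fun j x => (hinv j x).2
  have lp : 0 < Real.log (1 / S 0) := Real.log_pos (one_lt_one_div (hS 0) h1)
  refine ⟨F', cF', ⟨K + 2 / Real.log (1 / S 0), S 0, by positivity, hS 0, h1, fun x y =>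
    ⟨modulus hK hF (fun j x y => (hL j x y).1) hS h1 h0 hΛ x y, fun hxy => ?_⟩⟩, ?_⟩
  · have := modulus hK hG (fun j x y => (hL j x y).2) hS h1 h0 hΛ _ _ hxy
    rwa [i1, i1] at this
  have key : ∀ φ : V → ℝ, Continuous φ → HasCompactSupport φ →
      ∫ x, ρ x * φ (F' x) = ∫ y, φ y := by
    intro φ hφ hc
    obtain ⟨M, hM⟩ := hφ.bounded_above_of_compact_support hc
    obtain ⟨R, hR⟩ := hc.isCompact.isBounded.subset_closedBall 0
    have hsup : ∀ j x, φ (F j x) ≠ 0 →
        x ∈ Metric.closedBall (0 : V) (S 0 + |Λ 0| * R + ‖G 0 0‖) := by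
      intro j x hx
      have a1 : ‖F j x‖ ≤ R := by
        simpa using hR (subset_tsupport _ (Function.mem_support.2 hx))
      have a2 := tele (fun j x => (hd j x).2) (F j x) (Nat.zero_le j)
      have a3 := (hL 0 (F j x) 0).2
      rw [(hinv j x).1] at a2
      rw [sub_zero] at a3
      have a4 : Λ 0 * ‖F j x‖ ≤ |Λ 0| * R :=
        mul_le_mul (le_abs_self _) a1 (norm_nonneg _) (abs_nonneg _)
      have e : x = (x - G 0 (F j x)) + (G 0 (F j x) - G 0 0) + G 0 0 := by ring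
      rw [mem_closedBall_zero_iff, e]
      refine (norm_add_le _ _).trans (add_le_add ((norm_add_le _ _).trans ?_) le_rfl)
      linarith [hS j]
    have hlim := tendsto_integral_filter_of_dominated_convergence (μ := (volume : Measure V))
      (l := atTop) (F := fun j x => ρ x * φ (F j x)) (f := fun x => ρ x * φ (F' x))
      ((Metric.closedBall (0 : V) (S 0 + |Λ 0| * R + ‖G 0 0‖)).indicator fun _ => 2 * M)
      (Eventually.of_forall fun j =>
        (hρ.1.mul (hφ.comp (cF j)).measurable).aestronglyMeasurable) ?_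
      ((integrableOn_const measure_closedBall_lt_top.ne).integrable_indicator
        measurableSet_closedBall)
      (Eventually.of_forall fun x =>
        ((hφ.tendsto _).comp ((tend hF h0).tendsto_at x)).const_mul _)
    · exact tendsto_nhds_unique hlim (hint φ hφ hc)
    · refine Eventually.of_forall fun j => Eventually.of_forall fun x => ?_
      have hM0 : 0 ≤ M := (norm_nonneg _).trans (hM 0)
      by_cases hx : φ (F j x) = 0
      · rw [hx, mul_zero, norm_zero]
        exact indicator_nonneg (fun _ _ => by positivity) _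
      · rw [indicator_of_mem (hsup j x hx), norm_mul]
        refine mul_le_mul ?_ (hM _) (norm_nonneg _) zero_le_two
        rw [Real.norm_of_nonneg (rho_bd hρ x).1]
        exact (rho_bd hρ x).2
  let e : V ≃ₜ V := ⟨⟨F', G', i1, i2⟩, cF', cG'⟩
  have l1 := locFin hρ
  have r1 : (((volume : Measure V).withDensity fun x => ENNReal.ofReal (ρ x)).map e).Regular :=
    Measure.Regular.map e
  have hm : ((volume : Measure V).withDensity fun x => ENNReal.ofReal (ρ x)).map e =
      (volume : Measure V) := by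
    refine Measure.ext_of_integral_eq_on_compactlySupported fun φ => ?_
    have cφ : Continuous fun x => φ x := φ.continuous
    rw [integral_map e.continuous.aemeasurable cφ.aestronglyMeasurable,
      integral_withDensity_eq_integral_toReal_smul hρ.1.ennreal_ofReal
        (Eventually.of_forall fun _ => ENNReal.ofReal_lt_top)]
    simp only [ENNReal.toReal_ofReal (rho_bd hρ _).1, smul_eq_mul]
    exact key φ cφ φ.hasCompactSupport
  intro B hB
  conv_rhs => rw [← hm, Measure.map_apply e.continuous.measurable hB,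
    withDensity_apply _ (e.continuous.measurable hB)]
  rfl

end
end Pool.Agent.MP_20bec2_an.T3

end MrgPart0

-- ======== part 1: formerly Pool.Agent.MP_20bec2_an.T3.Core
section MrgPart1

/-! The limit of the sequence of blocks. -/

set_option autoImplicit false
open MeasureTheory Set Filter Matrix Topology

namespace Pool.Agent.MP_20bec2_an.T3
noncomputable section
open Classical

namespace CoreA

/-- the size of the remaining displacement -/
def sz (B : Bk) : ℝ := 2000 * ((B.N : ℝ) ^ 6 * B.lb)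

theorem step {B B' : Bk} (big : Big B.N) (hl : 0 < B.lb) (h1 : B'.N = nxt B.N)
    (h2 : B'.lb = B.lb / 2 ^ nb B.N) : 0 < sz B ∧ 0 < B'.lb ∧ (B.N : ℝ) + 1 ≤ B'.N ∧
    sz B' ≤ sz B / 2 ∧ 1 + Real.log (1 / sz B) ≤ Real.log (1 / sz B') ∧
    (nxt B'.N : ℝ) - Real.log (1 / sz B') ≤ nxt B.N - Real.log (1 / sz B) := by
  have hN := big.N_pos
  have hJ := big.J_ge
  have hL := big.L_ge
  have hNJ := big.N_ge
  have big' : Big B'.N := big.mono (h1 ▸ big.nxt_le.1)
  have hN' := big'.N_pos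
  have hl' : 0 < B'.lb := by rw [h2]; positivity
  have e1 : (B'.N : ℝ) ≤ 2 * B.N := by rw [h1]; linarith [big.nxt_le.2]
  have e2 : pJ B'.N ≤ Real.log 2 + pJ B.N := by
    rw [pJ, pJ, ← Real.log_mul two_ne_zero hN.ne']
    exact Real.log_le_log hN' e1
  have p : 0 < sz B := by unfold sz; positivity
  have p' : 0 < sz B' := by unfold sz; positivity
  have l1 : Real.log (sz B) = Real.log 2000 + (6 * pJ B.N + Real.log B.lb) := by
    rw [sz, Real.log_mul (by norm_num) (by positivity), Real.log_mul (by positivity) hl.ne',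
      Real.log_pow, pJ]
    norm_num
  have l2 : Real.log (sz B') =
      Real.log 2000 + (6 * pJ B'.N + (Real.log B.lb - nb B.N * Real.log 2)) := by
    rw [sz, Real.log_mul (by norm_num) (by positivity), Real.log_mul (by positivity) hl'.ne',
      Real.log_pow, pJ, h2, Real.log_div hl.ne' (by positivity), Real.log_pow]
    norm_num
  obtain ⟨c1, c2⟩ := log2_bd
  have e3 : 132 * pJ B.N * 0.693 ≤ nb B.N * Real.log 2 :=
    mul_le_mul big.nb_bd.1 c1 (by norm_num) (Nat.cast_nonneg _)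
  refine ⟨p, hl', by rw [h1]; linarith [big.nxt_bd.1, big.X_bd.1], ?_, ?_, ?_⟩
  · refine le_of_log p' (by positivity) ?_
    rw [Real.log_div p.ne' two_ne_zero]
    linarith
  · rw [one_div, one_div, Real.log_inv, Real.log_inv]
    linarith
  · rw [one_div, one_div, Real.log_inv, Real.log_inv, ← h1]
    linarith [big'.nxt_le.2]

theorem tends {ρ : V → ℝ} {F : ℕ → V → V} {a b : ℕ → ℝ} (ha : Tendsto a atTop (𝓝 0))
    (hb : Tendsto b atTop (𝓝 0))
    (h : ∀ j (φ : V → ℝ) (Rr δ ε : ℝ), Continuous φ → 0 ≤ Rr → 0 ≤ ε → (∀ y, Rr < ‖y‖ → φ y = 0) →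
      a j ≤ δ → (∀ y y', ‖y - y'‖ ≤ δ → |φ y - φ y'| ≤ ε) →
      |(∫ x, ρ x * φ (F j x)) - ∫ y, φ y| ≤ ε * (2 * (Rr + δ)) ^ 3 + b j * ∫ y, |φ y|)
    (φ : V → ℝ) (hφ : Continuous φ) (hc : HasCompactSupport φ) :
    Tendsto (fun j => ∫ x, ρ x * φ (F j x)) atTop (𝓝 (∫ y, φ y)) := by
  obtain ⟨Rr, hR0, hR⟩ := hc.isCompact.isBounded.exists_pos_norm_le
  have hz : ∀ y, Rr < ‖y‖ → φ y = 0 := fun y hy =>
    image_eq_zero_of_notMem_tsupport fun c => absurd (hR y c) (not_le.2 hy)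
  have hu := hc.uniformContinuous_of_continuous hφ
  rw [Metric.tendsto_nhds]
  intro e he
  have hC : 0 < (2 * (Rr + 1)) ^ 3 := by positivity
  obtain ⟨δ, hδ, hd⟩ := Metric.uniformContinuous_iff_le.1 hu (e / 2 / (2 * (Rr + 1)) ^ 3)
    (by positivity)
  have hm : 0 < min δ 1 := lt_min hδ one_pos
  have hb' : Tendsto (fun j => b j * ∫ y, |φ y|) atTop (𝓝 0) := by
    simpa using hb.mul_const (∫ y, |φ y|)
  filter_upwards [ha.eventually (ge_mem_nhds hm), hb'.eventually (gt_mem_nhds (half_pos he))]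
    with j h1 h2
  have h3 := h j φ Rr (min δ 1) (e / 2 / (2 * (Rr + 1)) ^ 3) hφ hR0.le (by positivity) hz h1
    fun y y' hy => by
      rw [← Real.dist_eq]
      exact hd ((dist_eq_norm y y').trans_le (hy.trans (min_le_left _ _)))
  have h4 : e / 2 / (2 * (Rr + 1)) ^ 3 * (2 * (Rr + min δ 1)) ^ 3 ≤ e / 2 := by
    rw [div_mul_eq_mul_div, div_le_iff₀ hC]
    have := min_le_right δ 1
    gcongr
  rw [Real.dist_eq]
  linarith

end CoreA

open CoreA in
theorem core (hi : InitStmt) (hc : CycleStmt) (hl : LipStmt) (hp : PushStmt) : CoreStmt := by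
  intro ρ R hρ hR
  obtain ⟨N0, h0⟩ := eventually_atTop.1 (ev_big.and (Filter.Eventually.and hc
    (Filter.Eventually.and hl hp)))
  obtain ⟨N1, hN1, B0, e0, -, s0⟩ := ((eventually_ge_atTop N0).and (hi ρ R hρ hR)).exists
  have ex : ∀ B : {B : Bk // N0 ≤ B.N ∧ B.Sta ρ}, ∃ B' : {B : Bk // N0 ≤ B.N ∧ B.Sta ρ},
      B'.1.N = nxt B.1.N ∧ B'.1.lb = B.1.lb / 2 ^ nb B.1.N ∧
        ∀ x, ∃ x', B'.1.F x = B.1.F x' ∧ ‖x - x'‖ ≤ (B.1.N : ℝ) ^ 3 * B.1.lb := fun B => by
    obtain ⟨B', a1, a2, a3, a4⟩ := (h0 _ B.2.1).2.1 B.1 rfl ρ hρ B.2.2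
    exact ⟨⟨B', a1 ▸ B.2.1.trans (Nat.le_add_right _ _), a3⟩, a1, a2, a4⟩
  choose nx n1 n2 n3 using ex
  let T : ℕ → {B : Bk // N0 ≤ B.N ∧ B.Sta ρ} := fun j => nx^[j] ⟨B0, e0 ▸ hN1, s0⟩
  have hT : ∀ j, T (j + 1) = nx (T j) := fun j => Function.iterate_succ_apply' ..
  have big : ∀ j, Big (T j).1.N := fun j => (h0 _ (T j).2.1).1
  have lp : ∀ j, 0 < (T j).1.lb := fun j => (Real.exp_pos _).trans_le (T j).2.2.1.geo.pos.1
  have st := fun j => step (B' := (T (j + 1)).1) (big j) (lp j) (by rw [hT, n1]) (by rw [hT, n2])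
  have lip := fun j => (h0 _ (T j).2.1).2.2.1 (T j).1 rfl ρ (T j).2.2
  have g1 : ∀ j : ℕ, j + Real.log (1 / sz (T 0).1) ≤ Real.log (1 / sz (T j).1) := fun j => by
    induction j with
    | zero => simp
    | succ j ih => push_cast; linarith [(st j).2.2.2.2.1]
  have g2 : ∀ j : ℕ, (nxt (T j).1.N : ℝ) - Real.log (1 / sz (T j).1) ≤
      nxt (T 0).1.N - Real.log (1 / sz (T 0).1) := fun j => by
    induction j with
    | zero => exact le_rfl
    | succ j ih => exact (st j).2.2.2.2.2.trans ih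
  have g3 : ∀ j : ℕ, (j : ℝ) ≤ (T j).1.N := fun j => by
    induction j with
    | zero => simp
    | succ j ih => push_cast; linarith [(st j).2.2.1]
  have t1 : Tendsto (fun j => Real.log (1 / sz (T j).1)) atTop atTop :=
    tendsto_atTop_mono g1 (tendsto_atTop_add_const_right _ _ tendsto_natCast_atTop_atTop)
  have t2 : Tendsto (fun j => sz (T j).1) atTop (𝓝 0) := by
    refine (Real.tendsto_exp_neg_atTop_nhds_zero.comp t1).congr fun j => ?_
    rw [Function.comp_apply, one_div, Real.log_inv, neg_neg, Real.exp_log (st j).1]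
  have t3 : Tendsto (fun j => Real.exp (-((T j).1.N : ℝ))) atTop (𝓝 0) :=
    Real.tendsto_exp_neg_atTop_nhds_zero.comp (tendsto_atTop_mono g3 tendsto_natCast_atTop_atTop)
  obtain ⟨j0, hj⟩ := eventually_atTop.1 ((t1.eventually_ge_atTop
    (nxt (T 0).1.N - Real.log (1 / sz (T 0).1))).and (t2.eventually (gt_mem_nhds one_pos)))
  have sh : ∀ j, j + 1 + j0 = j + j0 + 1 := fun j => by omega
  have li : ∀ j x, Function.invFun (T j).1.F ((T j).1.F x) = x := fun j =>
    Function.leftInverse_invFun (lip j).1.1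
  have ri : ∀ j x, (T j).1.F (Function.invFun (T j).1.F x) = x := fun j =>
    Function.rightInverse_invFun (lip j).1.2
  have dd : ∀ j, 1000 * ((T j).1.N : ℝ) * (((T j).1.N : ℝ) ^ 3 * (T j).1.lb) ≤
      sz (T j).1 - sz (T (j + 1)).1 ∧
      ((T j).1.N : ℝ) ^ 3 * (T j).1.lb ≤ sz (T j).1 - sz (T (j + 1)).1 := fun j => by
    have a1 := (st j).2.2.2.1
    have a2 : (1 : ℝ) ≤ (T j).1.N := by linarith [(big j).N_ge, (big j).J_ge, (big j).L_ge]
    have a3 := lp j
    have a4 : ((T j).1.N : ℝ) ^ 4 * (T j).1.lb ≤ ((T j).1.N : ℝ) ^ 6 * (T j).1.lb := by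
      gcongr
      norm_num
    have a5 : ((T j).1.N : ℝ) ^ 3 * (T j).1.lb ≤ ((T j).1.N : ℝ) ^ 6 * (T j).1.lb := by
      gcongr
      norm_num
    have a6 : 0 < ((T j).1.N : ℝ) ^ 6 * (T j).1.lb := by positivity
    have a7 : sz (T j).1 = 2000 * (((T j).1.N : ℝ) ^ 6 * (T j).1.lb) := rfl
    constructor <;> linarith
  refine lim 2000 (fun j => (T (j + j0)).1.F) (fun j => Function.invFun (T (j + j0)).1.F)
    (fun j => 1000 * (T (j + j0)).1.N) (fun j => sz (T (j + j0)).1) ρ (by norm_num) hρ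
    (fun j x => ⟨li _ x, ri _ x⟩) (fun j x y => ⟨((lip _).2 x y).1, ?_⟩) (fun j x => ⟨?_, ?_⟩)
    (fun j => (st _).1) (hj _ (Nat.le_add_left _ _)).2 (t2.comp (tendsto_add_atTop_nat j0))
    (fun j => ?_) fun φ h1 h2 => ?_
  · have := ((lip (j + j0)).2 (Function.invFun (T (j + j0)).1.F x)
      (Function.invFun (T (j + j0)).1.F y)).2
    rwa [ri, ri] at this
  · simp only [sh]
    obtain ⟨x', a1, a2⟩ := n3 (T (j + j0)) x
    rw [← hT] at a1
    rw [a1, norm_sub_rev]
    refine (((lip _).2 x x').1.trans ?_).trans (dd _).1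
    gcongr
  · simp only [sh]
    obtain ⟨x', a1, a2⟩ := n3 (T (j + j0)) (Function.invFun (T (j + j0 + 1)).1.F x)
    rw [← hT, ri] at a1
    have : Function.invFun (T (j + j0)).1.F x = x' := by rw [a1, li]
    rw [this]
    exact a2.trans (dd _).2
  · simp only [sh]
    have a1 := g2 (j + j0)
    have a2 := (hj _ (Nat.le_add_left j0 j)).1
    rw [hT, n1]
    linarith
  · refine (tends (F := fun j => (T j).1.F) (a := fun j => ((T j).1.N : ℝ) ^ 6 * (T j).1.lb) ?_ t3
      (fun j => (h0 _ (T j).2.1).2.2.2 (T j).1 rfl ρ hρ (T j).2.2) φ h1 h2).comp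
      (tendsto_add_atTop_nat j0)
    have := t2.div_const 2000
    rw [zero_div] at this
    exact this.congr fun j => by rw [sz, mul_div_cancel_left₀ _ (by norm_num)]

end
end Pool.Agent.MP_20bec2_an.T3

end MrgPart1

-- ======== part 2: formerly Pool.Agent.MP_20bec2_an.T3.GaD
section MrgPart2

/-! Row GA, part D: weighted Cauchy-Schwarz and slices. -/

set_option autoImplicit false
open MeasureTheory Set Filter Matrix Topology

namespace Pool.Agent.MP_20bec2_an.T3.Ga
noncomputable section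

lemma int_bd {α : Type} [MeasureSpace α] {B : Set α} (hB : volume B ≠ ⊤) {f : α → ℝ} {c : ℝ}
    (hf : Measurable f) (hc : ∀ x, |f x| ≤ c) : IntegrableOn f B :=
  Measure.integrableOn_of_bounded hB hf.aestronglyMeasurable (Eventually.of_forall hc)

lemma cs_int {ν : Measure V} {μ lm E : V → ℝ} {P t : ℝ} (hP : 0 < P) (hl : ∀ x, 0 < lm x)
    (hE : ∀ x, 0 ≤ E x) (i1 : Integrable (fun x => μ x * E x) ν)
    (i2 : Integrable (fun x => lm x * E x) ν) (i3 : Integrable (fun x => μ x ^ 2 / lm x * E x) ν)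
    (H1 : ∫ x, lm x * E x ∂ν ≤ P) (ht : |t| ≤ ∫ x, μ x * E x ∂ν) :
    t ^ 2 ≤ P * ∫ x, μ x ^ 2 / lm x * E x ∂ν := by
  obtain ⟨a, ha⟩ : ∃ a, a = ∫ x, μ x * E x ∂ν := ⟨_, rfl⟩
  have h1 := integral_mono (i1.const_mul (2 * (a / P))) ((i2.const_mul ((a / P) ^ 2)).add i3)
    fun x => by
      have p := hl x
      have h2 : 0 ≤ (a / P * lm x - μ x) ^ 2 / lm x * E x := mul_nonneg (by positivity) (hE x)
      have e : (a / P * lm x - μ x) ^ 2 / lm x * E x = (a / P) ^ 2 * (lm x * E x) +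
        μ x ^ 2 / lm x * E x - 2 * (a / P) * (μ x * E x) := by field_simp; ring
      simp only [Pi.add_apply]
      linarith
  simp only [Pi.add_apply] at h1
  rw [integral_add (i2.const_mul _) i3, integral_const_mul, integral_const_mul, ← ha] at h1
  rw [← ha] at ht
  have h2 := mul_le_mul_of_nonneg_left H1 (sq_nonneg (a / P))
  have h3 : t ^ 2 ≤ a ^ 2 := sq_le_sq' (abs_le.1 ht).1 (abs_le.1 ht).2
  have h4 := mul_le_mul_of_nonneg_left (h1.trans (add_le_add_left h2 _)) hP.le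
  have e1 : P * (2 * (a / P) * a) = 2 * a ^ 2 := by field_simp
  have e2 : P * ((a / P) ^ 2 * P) = a ^ 2 := by field_simp
  rw [mul_add, e1, e2] at h4
  linarith

lemma l2 {ι : Type} (s : Finset ι) {E : ι → V → ℝ × ℝ → ℝ} {T : ι → ℝ × ℝ → ℝ} {B : Set V}
    (hB : IsCompact B) {μ lm : V → ℝ} {m δ Λ E0 P M : ℝ} (mμ : Measurable μ) (ml : Measurable lm)
    (hμ : ∀ x, |μ x| ≤ m) (hδ : 0 < δ) (hl : ∀ x, δ ≤ lm x ∧ lm x ≤ Λ)
    (mE : ∀ g, Measurable fun p : V × (ℝ × ℝ) => E g p.1 p.2)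
    (hE : ∀ g x w, 0 ≤ E g x w ∧ E g x w ≤ E0) (hP : 0 < P)
    (H1 : ∀ g w, ∫ x in B, lm x * E g x w ≤ P) (iE : ∀ g x, Integrable (E g x))
    (H2 : ∀ x, ∑ g ∈ s, ∫ w, E g x w ≤ M) (HT : ∀ g w, |T g w| ≤ ∫ x in B, μ x * E g x w) :
    ∑ g ∈ s, ∫ w, T g w ^ 2 ≤ P * (M * ∫ x in B, μ x ^ 2 / lm x) := by
  have hB' := hB.measure_lt_top (μ := volume).ne
  have l0 : ∀ x, 0 < lm x := fun x => hδ.trans_le (hl x).1
  have q0 : ∀ x, 0 ≤ μ x ^ 2 / lm x := fun x => div_nonneg (sq_nonneg _) (l0 x).le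
  have q1 : ∀ x, |μ x ^ 2 / lm x| ≤ m ^ 2 / δ := fun x => by
    rw [abs_of_nonneg (q0 x)]
    exact div_le_div₀ (sq_nonneg _) (sq_le_sq' (abs_le.1 (hμ x)).1 (abs_le.1 (hμ x)).2) hδ (hl x).1
  have mq : Measurable fun x => μ x ^ 2 / lm x := (mμ.pow_const 2).div ml
  have aE : ∀ g x w, |E g x w| ≤ E0 := fun g x w => by
    rw [abs_of_nonneg (hE g x w).1]; exact (hE g x w).2
  have iw : ∀ {f : V → ℝ} {c : ℝ}, Measurable f → (∀ x, |f x| ≤ c) → ∀ g w,
      IntegrableOn (fun x => f x * E g x w) B := fun {f c} hf hc g w =>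
    int_bd hB' (c := c * E0) (hf.mul ((mE g).comp measurable_prodMk_right)) fun x => by
      rw [abs_mul]
      exact mul_le_mul (hc x) (aE g x w) (abs_nonneg _) ((abs_nonneg _).trans (hc x))
  have I0 : ∀ g x, 0 ≤ ∫ w, E g x w := fun g x => integral_nonneg fun w => (hE g x w).1
  have i1 : ∀ g ∈ s, IntegrableOn (fun x => μ x ^ 2 / lm x * ∫ w, E g x w) B := fun g hg =>
    int_bd hB' (c := m ^ 2 / δ * M)
      (mq.mul (mE g).stronglyMeasurable.integral_prod_right'.measurable) fun x => by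
        rw [abs_mul, abs_of_nonneg (I0 g x)]
        exact mul_le_mul (q1 x) ((Finset.single_le_sum (fun g _ => I0 g x) hg).trans (H2 x))
          (I0 g x) ((abs_nonneg _).trans (q1 x))
  have i2 : ∀ g ∈ s, Integrable (Function.uncurry fun x w => μ x ^ 2 / lm x * E g x w)
      ((volume.restrict B).prod volume) := fun g hg => by
    have m2 : Measurable (Function.uncurry fun x w => μ x ^ 2 / lm x * E g x w) :=
      (mq.comp measurable_fst).mul (mE g)
    refine (integrable_prod_iff m2.aestronglyMeasurable).2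
      ⟨Eventually.of_forall fun x => (iE g x).const_mul (μ x ^ 2 / lm x), (i1 g hg).congr
        (Eventually.of_forall fun x => ?_)⟩
    simp only [← integral_const_mul]
    exact integral_congr_ae (Eventually.of_forall fun w =>
      (Real.norm_of_nonneg (mul_nonneg (q0 x) (hE g x w).1)).symm)
  have h1 : ∀ g ∈ s, ∫ w, T g w ^ 2 ≤ P * ∫ x in B, μ x ^ 2 / lm x * ∫ w, E g x w := fun g hg => by
    refine (integral_mono_of_nonneg (Eventually.of_forall fun w => sq_nonneg _)
      ((i2 g hg).integral_prod_right.const_mul P) (Eventually.of_forall fun w =>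
        cs_int hP l0 (fun x => (hE g x w).1) (iw mμ hμ g w) (iw ml (c := Λ) (fun x => by
          rw [abs_of_pos (l0 x)]; exact (hl x).2) g w) (iw mq q1 g w) (H1 g w) (HT g w))).trans ?_
    rw [integral_const_mul]
    refine mul_le_mul_of_nonneg_left (le_of_eq ?_) hP.le
    simp only [← integral_const_mul]
    exact (integral_integral_swap (i2 g hg)).symm
  refine (Finset.sum_le_sum h1).trans ?_
  rw [← Finset.mul_sum, ← integral_finsetSum _ i1, ← integral_const_mul M]
  refine mul_le_mul_of_nonneg_left (integral_mono (integrable_finsetSum _ i1)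
    ((int_bd hB' mq q1).const_mul M) fun x => ?_) hP.le
  simp only [← Finset.mul_sum]
  rw [mul_comm M]
  exact mul_le_mul_of_nonneg_left (H2 x) (q0 x)

/-- coordinates height and lateral point -/
def sl : V ≃ᵐ ℝ × (ℝ × ℝ) := (MeasurableEquiv.piFinSuccAbove (fun _ => ℝ) 2).trans
  (MeasurableEquiv.prodCongr (MeasurableEquiv.refl ℝ) MeasurableEquiv.finTwoArrow)

lemma sl_mp : MeasurePreserving sl :=
  ((MeasurePreserving.id volume).prod (volume_preserving_finTwoArrow ℝ)).comp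
    (volume_preserving_piFinSuccAbove (fun _ => ℝ) 2)

lemma sl_symm (p : ℝ × (ℝ × ℝ)) : sl.symm p = ![p.2.1, p.2.2, p.1] := by
  rw [MeasurableEquiv.symm_apply_eq]
  rfl

lemma slice_le {F : V → ℝ} {φ : ℝ → ℝ} (hF : Integrable F) (hφ : Integrable φ)
    (H : ∀ s, ∫ w : ℝ × ℝ, F ![w.1, w.2, s] ≤ φ s) : ∫ x, F x ≤ ∫ s, φ s := by
  have h1 := (sl_mp.symm.integrable_comp_emb sl.symm.measurableEmbedding).2 hF
  rw [← sl_mp.symm.integral_comp sl.symm.measurableEmbedding F]
  simp only [Function.comp_def, sl_symm] at h1 ⊢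
  rw [Measure.volume_eq_prod, integral_prod _ h1]
  exact integral_mono h1.integral_prod_left hφ H

lemma cont_sl : Continuous fun p : ℝ × (ℝ × ℝ) => (![p.2.1, p.2.2, p.1] : V) := by fun_prop

/-- first factor -/
lemma slab_le {U B : Set V} (hU : IsCompact U) (hB : MeasurableSet B) {E F : V → ℝ} {lm : ℝ → ℝ}
    {a b A Λ : ℝ} (hab : a ≤ b) (hBU : ∀ x ∈ B, x ∈ U ∧ x 2 ∈ Icc a b) (ml : Measurable lm)
    (hl : ∀ s, 0 ≤ lm s ∧ lm s ≤ Λ) (cF : Continuous F) (hE : ∀ x, 0 ≤ E x ∧ E x ≤ F x)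
    (H : ∀ s : ℝ, ∫ x : ℝ × ℝ in {x | ![x.1, x.2, s] ∈ U}, F ![x.1, x.2, s] ≤ A) :
    ∫ x in B, lm (x 2) * E x ≤ A * ∫ s in a..b, lm s := by
  have mS : MeasurableSet (U ∩ {x : V | x 2 ∈ Icc a b}) :=
    hU.measurableSet.inter (measurable_pi_apply 2 measurableSet_Icc)
  have al : ∀ s, ‖lm s‖ ≤ Λ := fun s => by rw [Real.norm_of_nonneg (hl s).1]; exact (hl s).2
  have iG : Integrable (indicator (U ∩ {x : V | x 2 ∈ Icc a b}) fun x => lm (x 2) * F x) :=
    (integrable_indicator_iff mS).2 (((cF.continuousOn.integrableOn_compact hU).mono_set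
      inter_subset_left).bdd_mul (ml.comp (measurable_pi_apply 2)).aestronglyMeasurable
      (Eventually.of_forall fun x => al _))
  rw [← integral_indicator hB, intervalIntegral.integral_of_le hab,
    ← integral_Icc_eq_integral_Ioc, ← integral_const_mul, ← integral_indicator measurableSet_Icc]
  refine (integral_mono_of_nonneg (Eventually.of_forall fun x => indicator_nonneg
    (fun y _ => mul_nonneg (hl _).1 (hE y).1) x) iG (Eventually.of_forall fun x => ?_)).trans
    (slice_le iG ((integrable_indicator_iff measurableSet_Icc).2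
      ((int_bd measure_Icc_lt_top.ne ml al).const_mul A)) fun s => ?_)
  · beta_reduce
    by_cases hx : x ∈ B
    · rw [indicator_of_mem hx, indicator_of_mem (show x ∈ U ∩ _ from hBU x hx)]
      exact mul_le_mul_of_nonneg_left (hE x).2 (hl _).1
    · rw [indicator_of_notMem hx]
      exact indicator_nonneg (fun y _ => mul_nonneg (hl _).1 ((hE y).1.trans (hE y).2)) x
  by_cases hs : s ∈ Icc a b
  · have m1 : MeasurableSet {x : ℝ × ℝ | ![x.1, x.2, s] ∈ U} :=
      (cont_sl.comp (Continuous.prodMk_right s)).measurable hU.measurableSet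
    rw [indicator_of_mem hs, mul_comm A]
    refine le_trans (le_of_eq ?_) (mul_le_mul_of_nonneg_left (H s) (hl s).1)
    rw [← integral_const_mul, ← integral_indicator m1]
    refine integral_congr_ae (Eventually.of_forall fun w => ?_)
    by_cases hw : ![w.1, w.2, s] ∈ U
    · simp only
      rw [indicator_of_mem (show _ ∈ U ∩ {x : V | x 2 ∈ Icc a b} from ⟨hw, hs⟩),
        indicator_of_mem (show w ∈ {x : ℝ × ℝ | ![x.1, x.2, s] ∈ U} from hw)]
      rfl
    · simp only
      rw [indicator_of_notMem fun h => hw h.1,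
        indicator_of_notMem (show w ∉ {x : ℝ × ℝ | ![x.1, x.2, s] ∈ U} from hw)]
  · rw [indicator_of_notMem hs]
    refine le_of_eq (integral_eq_zero_of_ae (Eventually.of_forall fun w => ?_))
    exact indicator_of_notMem (fun h => hs h.2) _

/-- lateral average over a rectangle -/
def av (e : V → ℝ) (c W : V) (s : ℝ) : ℝ := (∫ x0 in (c 0 - W 0)..(c 0 + W 0),
  ∫ x1 in (c 1 - W 1)..(c 1 + W 1), e ![x0, x1, s]) / (4 * W 0 * W 1)
def rc (c W : V) : Set (ℝ × ℝ) := Icc (c 0 - W 0) (c 0 + W 0) ×ˢ Icc (c 1 - W 1) (c 1 + W 1)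

variable {e : V → ℝ} {c W : V} {Ce : ℝ}

lemma rc_meas (c W : V) : MeasurableSet (rc c W) := measurableSet_Icc.prod measurableSet_Icc

lemma rc_vol (hW : ∀ i, 0 < W i) : volume (rc c W) ≠ ⊤ ∧ volume.real (rc c W) = 4 * W 0 * W 1 := by
  have p0 := hW 0
  have p1 := hW 1
  unfold rc
  rw [Measure.real, Measure.volume_eq_prod, Measure.prod_prod, Real.volume_Icc, Real.volume_Icc]
  refine ⟨ENNReal.mul_ne_top ENNReal.ofReal_ne_top ENNReal.ofReal_ne_top, ?_⟩
  rw [ENNReal.toReal_mul, ENNReal.toReal_ofReal (by linarith), ENNReal.toReal_ofReal (by linarith)]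
  ring

lemma rc_int (hW : ∀ i, 0 < W i) (me : Measurable e) (he : ∀ x, 0 ≤ e x ∧ e x ≤ Ce) (s : ℝ) :
    IntegrableOn (fun w : ℝ × ℝ => e ![w.1, w.2, s]) (rc c W) :=
  int_bd (rc_vol hW).1 (me.comp (cont_sl.comp (Continuous.prodMk_right s)).measurable)
    fun w => abs_le.2 ⟨by linarith [(he ![w.1, w.2, s]).1, (he 0).1, (he 0).2], (he _).2⟩

lemma av_eq (hW : ∀ i, 0 < W i) (me : Measurable e) (he : ∀ x, 0 ≤ e x ∧ e x ≤ Ce) (s : ℝ) :
    av e c W s = (∫ w in rc c W, e ![w.1, w.2, s]) / (4 * W 0 * W 1) := by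
  have h1 := rc_int (c := c) hW me he s
  unfold av rc at *
  rw [Measure.volume_eq_prod] at h1 ⊢
  rw [setIntegral_prod _ h1, intervalIntegral.integral_of_le (by linarith [hW 0])]
  simp only [intervalIntegral.integral_of_le (show c 1 - W 1 ≤ c 1 + W 1 by linarith [hW 1]),
    integral_Icc_eq_integral_Ioc]

lemma av_meas (hW : ∀ i, 0 < W i) (me : Measurable e) (he : ∀ x, 0 ≤ e x ∧ e x ≤ Ce) :
    Measurable (av e c W) := by
  rw [funext (av_eq hW me he)]
  exact (me.comp cont_sl.measurable).stronglyMeasurable.integral_prod_right'.measurable.div_const _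

lemma av_bd (hW : ∀ i, 0 < W i) (me : Measurable e) (he : ∀ x, 0 ≤ e x ∧ e x ≤ Ce) (s : ℝ) :
    0 ≤ av e c W s ∧ av e c W s ≤ Ce := by
  have p : 0 < 4 * W 0 * W 1 := mul_pos (mul_pos four_pos (hW 0)) (hW 1)
  rw [av_eq hW me he]
  refine ⟨div_nonneg (integral_nonneg fun w => (he _).1) p.le, (div_le_iff₀' p).2 ?_⟩
  have := integral_mono (rc_int (c := c) hW me he s) (integrableOn_const (C := Ce) (rc_vol hW).1)
    fun w => (he _).2
  rwa [setIntegral_const, (rc_vol hW).2, smul_eq_mul] at this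

/-- second factor -/
lemma box_le {B : Set V} (hB : MeasurableSet B) (hW : ∀ i, 0 < W i) (me : Measurable e)
    (he : ∀ x, 0 ≤ e x ∧ e x ≤ Ce) (hBW : ∀ x ∈ B, ∀ i, |x i - c i| ≤ W i) {δ p q : ℝ} (hδ : 0 < δ)
    (hp : 0 ≤ p) (hq : 0 ≤ q) {f : V → ℝ} (hf : ∀ x, 0 ≤ f x ∧ f x ≤ p * δ ^ 2 + q * e x) :
    ∫ x in B, f x / (Real.sqrt (av e c W (x 2)) + δ) ≤ (p + q) * (4 * W 0 * W 1) *
      ∫ s in (c 2 - W 2)..(c 2 + W 2), (Real.sqrt (av e c W s) + δ) := by
  have pw : 0 < 4 * W 0 * W 1 := mul_pos (mul_pos four_pos (hW 0)) (hW 1)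
  have l0 : ∀ s, 0 < Real.sqrt (av e c W s) + δ := fun s => by positivity
  have ml : Measurable fun s => Real.sqrt (av e c W s) + δ :=
    (av_meas hW me he).sqrt.add_const δ
  have C0 : 0 ≤ Ce := (he 0).1.trans (he 0).2
  have n0 : ∀ x, 0 ≤ p * δ ^ 2 + q * e x := fun x => (hf x).1.trans (hf x).2
  have iG : Integrable (indicator (Icc (c - W) (c + W)) fun x =>
      (p * δ ^ 2 + q * e x) / (Real.sqrt (av e c W (x 2)) + δ)) :=
    (integrable_indicator_iff measurableSet_Icc).2 (int_bd measure_Icc_lt_top.ne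
      (c := (p * δ ^ 2 + q * Ce) / δ) (((me.const_mul q).const_add _).div
        (ml.comp (measurable_pi_apply 2))) fun x => by
      rw [abs_of_nonneg (div_nonneg (n0 x) (l0 _).le)]
      exact div_le_div₀ (by positivity) (add_le_add_right (mul_le_mul_of_nonneg_left (he x).2 hq) _)
        hδ (le_add_of_nonneg_left (Real.sqrt_nonneg _)))
  rw [← integral_indicator hB, intervalIntegral.integral_of_le (by linarith [hW 2]),
    ← integral_Icc_eq_integral_Ioc, ← integral_const_mul, ← integral_indicator measurableSet_Icc]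
  refine (integral_mono_of_nonneg (Eventually.of_forall fun x => indicator_nonneg
    (fun y _ => div_nonneg (hf y).1 (l0 _).le) x) iG (Eventually.of_forall fun x => ?_)).trans
    (slice_le iG ((integrable_indicator_iff measurableSet_Icc).2
      ((int_bd measure_Icc_lt_top.ne ml (c := Real.sqrt Ce + δ) fun s => by
        rw [abs_of_pos (l0 s)]
        exact add_le_add_left (Real.sqrt_le_sqrt (av_bd hW me he s).2) _).const_mul _)) fun s => ?_)
  · beta_reduce
    by_cases hx : x ∈ B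
    · rw [indicator_of_mem hx, indicator_of_mem (show x ∈ Icc (c - W) (c + W) from
        ⟨fun i => by have := abs_le.1 (hBW x hx i); simp only [Pi.sub_apply]; linarith,
          fun i => by have := abs_le.1 (hBW x hx i); simp only [Pi.add_apply]; linarith⟩)]
      exact div_le_div_of_nonneg_right (hf x).2 (l0 _).le
    · rw [indicator_of_notMem hx]
      exact indicator_nonneg (fun y _ => div_nonneg (n0 y) (l0 _).le) x
  by_cases hs : s ∈ Icc (c 2 - W 2) (c 2 + W 2)
  swap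
  · rw [indicator_of_notMem hs]
    refine le_of_eq (integral_eq_zero_of_ae (Eventually.of_forall fun w => ?_))
    exact indicator_of_notMem (fun h => hs ⟨h.1 2, h.2 2⟩) _
  have e1 : ∀ w : ℝ × ℝ, indicator (Icc (c - W) (c + W)) (fun x =>
      (p * δ ^ 2 + q * e x) / (Real.sqrt (av e c W (x 2)) + δ)) ![w.1, w.2, s] =
      indicator (rc c W) (fun w => (p * δ ^ 2 + q * e ![w.1, w.2, s]) /
        (Real.sqrt (av e c W s) + δ)) w := fun w => by
    by_cases hw : w ∈ rc c W
    · rw [indicator_of_mem hw, indicator_of_mem (show _ ∈ Icc (c - W) (c + W) from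
        ⟨fun i => by fin_cases i; exacts [hw.1.1, hw.2.1, hs.1],
          fun i => by fin_cases i; exacts [hw.1.2, hw.2.2, hs.2]⟩)]
      rfl
    · rw [indicator_of_notMem hw, indicator_of_notMem fun h =>
        hw ⟨⟨h.1 0, h.2 0⟩, ⟨h.1 1, h.2 1⟩⟩]
  have e2 : ∫ w in rc c W, e ![w.1, w.2, s] = 4 * W 0 * W 1 * av e c W s := by
    rw [av_eq hW me he, mul_div_cancel₀ _ pw.ne']
  have ic : IntegrableOn (fun _ : ℝ × ℝ => p * δ ^ 2) (rc c W) := integrableOn_const (rc_vol hW).1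
  simp only [e1]
  rw [integral_indicator (rc_meas c W), integral_div, integral_add ic
    ((rc_int hW me he s).const_mul q), setIntegral_const, integral_const_mul, (rc_vol hW).2, e2,
    indicator_of_mem hs, div_le_iff₀ (l0 s), smul_eq_mul]
  have a0 := (av_bd (c := c) hW me he s).1
  have h1 := Real.sq_sqrt a0
  have h2 := Real.sqrt_nonneg (av e c W s)
  generalize Real.sqrt (av e c W s) = t at *
  have h3 : p * δ ^ 2 + q * t ^ 2 ≤ (p + q) * ((t + δ) * (t + δ)) := by
    nlinarith [mul_nonneg hp (mul_nonneg h2 hδ.le), mul_nonneg hq (mul_nonneg h2 hδ.le),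
      mul_nonneg hp (sq_nonneg t), mul_nonneg hq (sq_nonneg δ)]
  have h4 := mul_le_mul_of_nonneg_left h3 pw.le
  rw [← h1]
  linarith

end
end Pool.Agent.MP_20bec2_an.T3.Ga

end MrgPart2

-- marker of a merged file
example : 731051 + 183612 = 731051 + 183612 := rfl

end MrgPart0

-- ======== part 1: formerly Pool.Agent.MP_20bec2_an.T3.Ga
section MrgPart1

-- ======== part 0: formerly Pool.Agent.MP_20bec2_an.T3.GaA
section MrgPart0

/-! Row GA, part A: pointwise perturbation of the derivatives of the kernel. -/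

set_option autoImplicit false
open MeasureTheory Set Filter Matrix Topology

namespace Pool.Agent.MP_20bec2_an.T3.Ga
noncomputable section

variable {h : V} {S S' : Mx}

lemma ker_neg (S : Mx) (z : V) : ker S (0 - z) = ker S z := by
  simp [ker, mulVec_neg]

lemma tw_ker (S : Mx) : K2P.Tw fun l z => K1.kap S * K2P.E (K2P.Ds l K2P.o1) S⁻¹ (0 - z) :=
  fun l z => K2P.hasc ((K2P.has_E (K2P.pl1.Ds l) S⁻¹ 0 z).const_mul (K1.kap S)) (fun _ => rfl)
    fun v => by
      simp only [_root_.smul_apply, K2P.cov_ap, smul_eq_mul, Finset.mul_sum, K2P.Ds]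
      exact Finset.sum_congr rfl fun j _ => by ring

lemma ker_fun (S : Mx) : ker S = fun z => K1.kap S * K2P.E (K2P.Ds [] K2P.o1) S⁻¹ (0 - z) :=
  funext fun z => by rw [← ker_neg, K2P.ker_E]; rfl

lemma pds_ker (S : Mx) (l : List (Fin 3)) :
    pds l (ker S) = fun z => K1.kap S * K2P.E (K2P.Ds l K2P.o1) S⁻¹ (0 - z) := by
  rw [ker_fun]; exact (tw_ker S).pds l

lemma sm_ker (S : Mx) : Sm (ker S) := by rw [ker_fun]; exact (tw_ker S).sm []

lemma pl_cont {g : Mx → V → ℝ} (hg : K2P.Pl g) {α : Type} [TopologicalSpace α] {P : α → Mx}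
    {Y : α → V} (hP : ∀ i j, Continuous fun a => P a i j) (hY : Continuous Y) :
    Continuous fun a => g (P a) (Y a) := by
  induction hg with
  | c a => exact continuous_const
  | m i j => exact hP i j
  | x i => exact (continuous_apply i).comp hY
  | add _ _ h1 h2 => exact h1.add h2
  | mul _ _ h1 h2 => exact h1.mul h2

lemma jc_ker {T : ℝ → Mx} (hT : Continuous T) (hd : ∀ t, 0 < (T t).det) : JC fun t => ker (T t) := by
  refine ⟨fun _ => sm_ker _, fun l => ?_⟩
  have h1 : ∀ i j, Continuous fun p : ℝ × V => (T p.1)⁻¹ i j := fun i j => by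
    simp only [Matrix.inv_def, Ring.inverse_eq_inv', Matrix.smul_apply, smul_eq_mul]
    exact ((hT.matrix_det.inv₀ fun t => (hd t).ne').mul
      (hT.matrix_adjugate.matrix_elem i j)).comp continuous_fst
  have h2 : Continuous fun p : ℝ × V => K1.kap (T p.1) :=
    (((continuous_const.mul hT.matrix_det).sqrt).inv₀ fun t =>
      (Real.sqrt_pos.2 (mul_pos (by positivity) (hd t))).ne').comp continuous_fst
  have h3 : Continuous fun p : ℝ × V => (0 : V) - p.2 := by fun_prop
  simp only [pds_ker]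
  exact h2.mul ((pl_cont (K2P.pl1.Ds l) h1 h3).mul
    ((pl_cont K2P.pl_q h1 h3).neg.div_const 2).rexp)

lemma has_ker' (S B : Mx) (z : V) (t : ℝ) (hs : (S + t • (B + Bᵀ))ᵀ = S + t • (B + Bᵀ))
    (hd : 0 < (S + t • (B + Bᵀ)).det) : HasDerivAt (fun s : ℝ => ker (S + s • (B + Bᵀ)) z)
      (∑ i, ∑ j, B i j * pds [i, j] (ker (S + t • (B + Bᵀ))) z) t := by
  have := K2P.has_ker S B (0 - z) 0 t hs hd
  simp only [smul_zero, add_zero, ker_neg, Pi.zero_apply, zero_mul, neg_zero, zero_add] at this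
  simpa only [pds_ker, K2P.Ds, mul_assoc] using this

lemma pd_seg (hS : PD h S) (hS' : PD h S') {t : ℝ} (ht : t ∈ Icc (0 : ℝ) 1) :
    PD h (S + t • (S' - S)) := by
  refine ⟨by rw [transpose_add, transpose_smul, transpose_sub, hS.1, hS'.1], fun v => ?_⟩
  have e : v ⬝ᵥ ((S + t • (S' - S)) *ᵥ v) = (1 - t) * (v ⬝ᵥ (S *ᵥ v)) + t * (v ⬝ᵥ (S' *ᵥ v)) := by
    rw [add_mulVec, smul_mulVec, sub_mulVec, dotProduct_add, dotProduct_smul, dotProduct_sub,
      smul_eq_mul]
    ring
  have h1 := hS.2 v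
  have h2 := hS'.2 v
  have h3 : 0 ≤ 1 - t := by linarith [ht.2]
  rw [e]
  constructor <;> nlinarith [mul_le_mul_of_nonneg_left h1.1 h3, mul_le_mul_of_nonneg_left h1.2 h3,
    mul_le_mul_of_nonneg_left h2.1 ht.1, mul_le_mul_of_nonneg_left h2.2 ht.1]

lemma env_pos (hh : ∀ i, 0 < h i) (u : V) : 0 < env h u :=
  div_pos (Real.exp_pos _) (mul_pos (mul_pos (hh 0) (hh 1)) (hh 2))

lemma env_cont (h : V) : Continuous (env h) := by unfold env; fun_prop

/-- bounds of the derivatives of the kernel by the envelope -/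
def KE (n : ℕ) (C : ℝ) : Prop := ∀ (h : V) (S : Mx), (∀ i, 0 < h i) → PD h S → ∀ u,
  CB n h {u} (ker S) (C * env h u)

lemma ke (n : ℕ) : ∃ C : ℝ, 1 ≤ C ∧ KE n C := by
  obtain ⟨C, hC, H, -⟩ := kb_ k1 n
  refine ⟨C, hC, fun h S hh hS u l hl x hx => ?_⟩
  rw [mem_singleton_iff.1 hx]
  refine (H h S hh hS l hl u).trans (le_of_eq ?_)
  unfold env; ring

/-- change of the covariance -/
lemma kper {n : ℕ} {C δ : ℝ} (H : KE (n + 2) C) (hh : ∀ i, 0 < h i) (hS : PD h S) (hS' : PD h S')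
    (hδ : EB (nrm h (S' - S)) (cm δ)) (u : V) :
    CB n h {u} (fun y => ker S' y - ker S y) (9 * (δ * (C * env h u))) := by
  have hh' : ∀ i, 0 ≤ h i := fun i => (hh i).le
  obtain ⟨B, hB⟩ : ∃ B : Mx, B = (1 / 2 : ℝ) • (S' - S) := ⟨_, rfl⟩
  have e1 : B + Bᵀ = S' - S := by
    rw [hB, transpose_smul, transpose_sub, hS.1, hS'.1, ← add_smul]; norm_num
  let T : ℝ → Mx := fun t => S + (projIcc (0 : ℝ) 1 zero_le_one t : ℝ) • (S' - S)
  have hT : ∀ t, PD h (T t) := fun t => pd_seg hS hS' (projIcc (0 : ℝ) 1 zero_le_one t).2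
  have hd : ∀ t, 0 < (T t).det := fun t => (KB.pd_pos hh (hT t)).det_pos
  have J : JC fun t => ker (T t) := jc_ker (continuous_const.add
    ((continuous_subtype_val.comp continuous_projIcc).smul continuous_const)) hd
  have eT : ∀ t ∈ Icc (0 : ℝ) 1, T t = S + t • (B + Bᵀ) := fun t ht => by
    simp only [T, projIcc_of_mem _ ht, e1]
  have Jw : ∀ i j, JC fun t y => B i j * pds [i, j] (ker (T t)) y := fun i j =>
    (J.pds [i, j]).wt continuous_const
  have e2 : ∀ y, ker S' y - ker S y =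
      ∑ i, ∑ j, ∫ t in (0 : ℝ)..1, B i j * pds [i, j] (ker (T t)) y := fun y => by
    have hi : ∀ i j, IntervalIntegrable (fun t => B i j * pds [i, j] (ker (T t)) y) volume 0 1 :=
      fun i j => ((Jw i j).contr y).intervalIntegrable _ _
    have h1 := intervalIntegral.integral_eq_sub_of_hasDerivAt (a := 0) (b := 1)
      (f := fun s : ℝ => ker (S + s • (B + Bᵀ)) y)
      (f' := fun t => ∑ i, ∑ j, B i j * pds [i, j] (ker (T t)) y) (fun t ht => by
        rw [uIcc_of_le zero_le_one] at ht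
        rw [eT t ht]
        exact has_ker' S B y t (eT t ht ▸ (hT t).1) (eT t ht ▸ hd t))
      (Continuous.intervalIntegrable (continuous_finsetSum _ fun i _ =>
        continuous_finsetSum _ fun j _ => (Jw i j).contr y) _ _)
    rw [intervalIntegral.integral_finsetSum fun i _ =>
      Continuous.intervalIntegrable (continuous_finsetSum _ fun j _ => (Jw i j).contr y) _ _] at h1
    simp only [intervalIntegral.integral_finsetSum fun j _ => hi _ j] at h1
    rw [h1, e1]
    simp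
  refine CBl.congr_fun (CBl.monoB (CBl.sum_card (B := 3 * (δ * (C * env h u))) Finset.univ hh'
    (fun i _ => ContDiff.sum fun j _ => (Jw i j).sm_integral 0 1) fun i _ => CBl.monoB
      (CBl.sum_card (B := δ * (C * env h u)) Finset.univ hh'
        (fun j _ => (Jw i j).sm_integral 0 1) fun j _ => CBl.monoB
          ((Jw i j).cbl (B := δ * (C * env h u)) hh' fun t _ => ?_) (by simp)) (by simp))
    (by simp; linarith)) e2
  have h1 := CBl.pds (P' := fun l => l.length ≤ n) hh' (H h _ hh (hT t) u) [i, j]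
    fun l hl => by simpa using hl
  have p : h i * h j ≠ 0 := (mul_pos (hh i) (hh j)).ne'
  refine CBl.congr_fun (CBl.smul_le (c := B i j / (h i * h j)) hh' h1 ?_) fun y => ?_
  · have h2 : |(S' - S) i j / (h i * h j)| ≤ δ := hδ i j
    rw [hB, Matrix.smul_apply, smul_eq_mul, mul_div_assoc, abs_mul, abs_of_pos (by norm_num)]
    linarith [abs_nonneg ((S' - S) i j / (h i * h j))]
  · simp only [hp, List.map_cons, List.map_nil, List.prod_cons, List.prod_nil, mul_one]
    rw [← mul_assoc, div_mul_cancel₀ _ p]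

/-- the doubled scales -/
def d2 (h : V) : V := fun i => 2 * h i

lemma d2_pos (hh : ∀ i, 0 < h i) (i : Fin 3) : 0 < d2 h i := mul_pos two_pos (hh i)

lemma env_shift (hh : ∀ i, 0 < h i) {u u' : V} (he : ∀ i, |u' i - u i| ≤ h i) :
    env h u' ≤ 24 * env (d2 h) u := by
  have h1 : ∀ i, (u i / d2 h i) ^ 2 ≤ (u' i / h i) ^ 2 + 1 := fun i => by
    have h2 : |u' i / h i - u i / h i| ≤ 1 := by
      rw [← sub_div, abs_div, abs_of_pos (hh i), div_le_one (hh i)]; exact he i
    have h3 : u i / d2 h i = u i / h i / 2 := by unfold d2; rw [div_div, mul_comm]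
    obtain ⟨h4, h5⟩ := abs_le.1 h2
    rw [h3]
    nlinarith [sq_nonneg (u' i / h i + (u' i / h i - u i / h i)), sq_nonneg (u' i / h i)]
  have h2 : Real.exp (-(∑ i, (u' i / h i) ^ 2) / 30) ≤
      3 * Real.exp (-(∑ i, (u i / d2 h i) ^ 2) / 30) := by
    have h3 : Real.exp (-(∑ i, (u' i / h i) ^ 2) / 30) ≤
        Real.exp (1 + -(∑ i, (u i / d2 h i) ^ 2) / 30) := by
      refine Real.exp_le_exp.2 ?_
      simp only [Fin.sum_univ_three]
      linarith [h1 0, h1 1, h1 2]
    rw [Real.exp_add] at h3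
    exact h3.trans (mul_le_mul_of_nonneg_right (by linarith [Real.exp_one_lt_d9])
      (Real.exp_pos _).le)
  have p0 := hh 0
  have p1 := hh 1
  have p2 := hh 2
  unfold env
  refine (div_le_div_of_nonneg_right h2 (by positivity)).trans (le_of_eq ?_)
  simp only [d2]
  field_simp
  norm_num

lemma env_le (hh : ∀ i, 0 < h i) (u : V) : env h u ≤ 24 * env (d2 h) u :=
  env_shift hh fun i => by simpa using (hh i).le

/-- change of the point -/
lemma kshift {n : ℕ} {C δ : ℝ} (H : KE (n + 1) C) (hC : 0 ≤ C) (hh : ∀ i, 0 < h i) (hS : PD h S)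
    (hδ : δ ≤ 1) {u u' : V} (he : ∀ i, |u' i - u i| ≤ δ * h i) {l : List (Fin 3)}
    (hl : l.length ≤ n) :
    hp h l * |pds l (ker S) u' - pds l (ker S) u| ≤ 3 * (δ * (C * (24 * env (d2 h) u))) := by
  have p := hp_pos hh l
  have pe := env_pos (d2_pos hh) u
  have h1 := mvt_pd (g := pds l (ker S)) (Mol.bx_convex h u) (fun y _ => ((sm_ker S).pds l).dif y)
    (b := fun i => C * (24 * env (d2 h) u) / (h i * hp h l)) (fun i y hy => by
      have h2 := H h S hh hS y (i :: l) (by simpa using hl) y rfl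
      rw [le_div_iff₀' (mul_pos (hh i) p)]
      exact h2.trans (mul_le_mul_of_nonneg_left (env_shift hh hy) hC))
    (x := u') (x' := u) (fun i => (he i).trans (mul_le_of_le_one_left (hh i).le hδ))
    (Mol.bx_self hh u)
  refine (mul_le_mul_of_nonneg_left (h1.trans (Finset.sum_le_sum fun i _ =>
    mul_le_mul_of_nonneg_left (he i) (by have := hh i; positivity))) p.le).trans (le_of_eq ?_)
  have p0 := hh 0
  have p1 := hh 1
  have p2 := hh 2
  simp only [Fin.sum_univ_three]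
  field_simp
  ring

lemma pds_refl {g : V → ℝ} (hg : Sm g) (v : V) (l : List (Fin 3)) :
    pds l (fun z => g (v - z)) = fun z => (-1) ^ l.length * pds l g (v - z) := by
  induction l with
  | nil => simp [pds]
  | cons j l ih =>
    funext z
    have h1 := pd_comp_affine (g := pds l g) v (-1) (x := z) ((hg.pds l).dif _) j
    simp only [neg_mulVec, one_mulVec, ← sub_eq_add_neg] at h1
    simp only [pds, ih, pd_const_mul, h1, List.length_cons, pow_succ]
    simp [Matrix.one_apply]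

lemma sm_refl {g : V → ℝ} (hg : Sm g) (v : V) : Sm fun z => g (v - z) :=
  hg.comp (contDiff_const.sub contDiff_id)

lemma cb_refl {n : ℕ} {g : V → ℝ} {B : ℝ} (hg : Sm g) {v z : V} (H : CB n h {v - z} g B) :
    CB n h {z} (fun z => g (v - z)) B := fun l hl x hx => by
  rw [pds_refl hg, mem_singleton_iff.1 hx]
  simpa [abs_mul] using H l hl _ rfl

/-- Leibniz rule with the main term taken out -/
lemma leib {n : ℕ} {f g : V → ℝ} {A B : ℝ} {x : V} (hh : ∀ i, 0 ≤ h i) (hf : Sm f) (hg : Sm g)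
    (hA : 0 ≤ A) (Hf : CV n h {x} f A) (Hg : CB n h {x} g B) {l : List (Fin 3)}
    (hl : l.length ≤ n) :
    hp h l * |pds l (fun y => f y * g y) x - f x * pds l g x| ≤ 2 ^ n * A * B := by
  have h1 : CB n h {x} (fun y => f y - f x) A :=
    (Hf.sub_const hf _).toCB fun y hy => by rw [mem_singleton_iff.1 hy]; simpa using hA
  have h2 := CB.mul hh (ContDiff.sub hf contDiff_const) hg h1 Hg l hl x rfl
  have e : (fun y => (f y - f x) * g y) = fun y => f y * g y - f x * g y := by funext y; ring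
  rwa [e, pds_sub (ContDiff.mul hf hg) (hg.cmul _), pds_const_mul] at h2

end
end Pool.Agent.MP_20bec2_an.T3.Ga

end MrgPart0

-- ======== part 1: formerly Pool.Agent.MP_20bec2_an.T3.GaB
section MrgPart1

/-! Row GA, part B: kernels of columns and the energy test at one point. -/

set_option autoImplicit false
open MeasureTheory Set Filter Matrix Topology

namespace Pool.Agent.MP_20bec2_an.T3.Ga
noncomputable section

variable {h v v' w : V} {S S' : Mx} {n : ℝ → V} {K : Set V} {β k f : V → ℝ}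

/-- envelope of a column -/
def Ev (h : V) (n : ℝ → V) (K : Set V) (v w : V) : ℝ :=
  tot n (indicator K fun z => env (d2 h) (v - z)) w
/-- column integral of a translated kernel -/
def Gk (n : ℝ → V) (β k : V → ℝ) (w v : V) : ℝ := tot n (fun z => β z * k (v - z)) w
/-- the kernel of a derivative of a column integral -/
def kap (n : ℝ → V) (β : V → ℝ) (l : List (Fin 3)) (S : Mx) (v w : V) : ℝ :=
  tot n (pds l fun z => β z * ker S (v - z)) w

lemma cpt_cont (hn : Continuous n) (w : V) : Continuous fun r => cpt n w r :=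
  (continuous_cpt hn).comp (Continuous.prodMk_left w)

lemma slab_K (hK : IsCompact K) : ∃ R : ℝ, ∀ z : V, R < |z 2| → z ∉ K := by
  obtain ⟨R, hR⟩ := hK.isBounded.exists_norm_le
  exact ⟨R, fun z hz hm => absurd ((norm_le_pi_norm z 2).trans (hR z hm)) (not_le.2 hz)⟩

lemma slab_of (hK : IsCompact K) (h0 : ∀ z, z ∉ K → f z = 0) : Slab f :=
  (slab_K hK).imp fun _ hR z hz => h0 z (hR z hz)

lemma pre_compact (hn : Continuous n) (hK : IsCompact K) (w : V) :
    IsCompact ((fun r => cpt n w r) ⁻¹' K) := by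
  obtain ⟨R, hR⟩ := slab_K hK
  refine isCompact_Icc.of_isClosed_subset (hK.isClosed.preimage (cpt_cont hn w))
    (t := _) (s := Icc (-R) R) fun r hr => abs_le.1 (not_lt.1 fun h1 => hR _ ?_ hr)
  simpa [cpt] using h1

lemma ind_int (hn : Continuous n) (hK : IsCompact K) (hf : Continuous f) (w : V) :
    Integrable fun r => indicator K f (cpt n w r) :=
  (integrable_indicator_iff (pre_compact hn hK w).measurableSet).2
    ((hf.comp (cpt_cont hn w)).continuousOn.integrableOn_compact (pre_compact hn hK w))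

lemma env_c (h v : V) : Continuous fun z => env h (v - z) := (env_cont h).comp (by fun_prop)

lemma Ev_nonneg (hh : ∀ i, 0 < h i) (n : ℝ → V) (K : Set V) (v w : V) : 0 ≤ Ev h n K v w :=
  integral_nonneg fun _ => indicator_nonneg (fun _ _ => (env_pos (d2_pos hh) _).le) _

lemma col_le {a M : ℝ} (hn : Continuous n) (hK : IsCompact K) (ha : 0 ≤ a)
    (h0 : ∀ z, z ∉ K → f z = 0) (H : ∀ z ∈ K, a * |f z| ≤ M * env (d2 h) (v - z)) :
    a * |tot n f w| ≤ M * Ev h n K v w := by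
  unfold Ev tot
  rw [← abs_of_nonneg ha, ← abs_mul, ← integral_const_mul, ← integral_const_mul,
    ← Real.norm_eq_abs]
  refine norm_integral_le_of_norm_le ((ind_int hn hK (env_c _ v) w).const_mul M)
    (Eventually.of_forall fun r => ?_)
  rw [Real.norm_eq_abs, abs_mul, abs_of_nonneg ha]
  by_cases hr : cpt n w r ∈ K
  · rw [indicator_of_mem hr]; exact H _ hr
  · simp [indicator_of_notMem hr, h0 _ hr]

lemma Gk_dom (hn : Continuous n) (hβ : Continuous β) (hk : Sm k) (w : V) (R : ℝ) :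
    Dom (volume.restrict (Icc (-R) R)) fun r v => β (cpt n w r) * k (v + -cpt n w r) :=
  have J := (JC.shift hk (cpt_cont hn w).neg).wt (hβ.comp (cpt_cont hn w))
  Dom.of_cont isCompact_Icc measurableSet_Icc subset_rfl J.sm J.cont

lemma Gk_eq {R : ℝ} (hR : ∀ z : V, R < |z 2| → β z = 0) (n : ℝ → V) (k : V → ℝ) (w : V) :
    Gk n β k w = fun v => ∫ r in Icc (-R) R, β (cpt n w r) * k (v + -cpt n w r) := by
  funext v
  unfold Gk
  rw [tot_eq (R := R) fun z hz => by rw [hR z hz, zero_mul]]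
  simp only [sub_eq_add_neg]

lemma Gk_sm (hn : Continuous n) (hβ : Continuous β) (hs : Slab β) (hk : Sm k) (w : V) :
    Sm (Gk n β k w) := by
  obtain ⟨R, hR⟩ := hs
  rw [Gk_eq hR]; exact (Gk_dom hn hβ hk w R).sm_integral

lemma Gk_pds (hn : Continuous n) (hβ : Continuous β) (hs : Slab β) (hk : Sm k) (w : V)
    (l : List (Fin 3)) : pds l (Gk n β k w) = Gk n β (pds l k) w := by
  obtain ⟨R, hR⟩ := hs
  rw [Gk_eq hR, Gk_eq hR, (Gk_dom hn hβ hk w R).pds_integral]
  simp only [pds_const_mul, pds_comp_add]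

/-- the cut-off of a cell -/
structure Ct (h : V) (K : Set V) (β : V → ℝ) (b τ : ℝ) : Prop where
  cK : IsCompact K
  sm : Sm β
  z : ∀ z, z ∉ K → β z = 0
  b0 : ∀ z, |β z| ≤ b
  cv : CV 5 h univ β (τ * b)

variable {b τ C : ℝ}

lemma Ct.nn (T : Ct h K β b τ) : 0 ≤ b := (abs_nonneg _).trans (T.b0 0)

lemma Gk_cb {m : ℕ} (H : KE m C) (hC : 0 ≤ C) (hh : ∀ i, 0 < h i) (hS : PD h S) (hn : Continuous n)
    (T : Ct h K β b τ) (he : ∀ i, |v' i - v i| ≤ h i) :
    CB m h {v'} (Gk n β (ker S) w) (24 * C * b * Ev h n K v w) := fun l hl x hx => by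
  rw [mem_singleton_iff.1 hx, Gk_pds hn T.sm.continuous (slab_of T.cK T.z) (sm_ker S)]
  refine col_le hn T.cK (hp_pos hh l).le (fun z hz => by rw [T.z z hz, zero_mul]) fun z _ => ?_
  have h1 := (H h S hh hS (v' - z) l hl _ rfl).trans (mul_le_mul_of_nonneg_left
    (env_shift (u := v - z) hh fun i => by simpa using he i) hC)
  have h2 := mul_le_mul (T.b0 z) h1 (mul_nonneg (hp_pos hh l).le (abs_nonneg _)) T.nn
  rw [abs_mul]
  linarith

lemma kap_nil (H : KE 0 C) (hC : 0 ≤ C) (hh : ∀ i, 0 < h i) (hS : PD h S) (hn : Continuous n)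
    (T : Ct h K β b τ) : |kap n β [] S v w| ≤ 24 * C * b * Ev h n K v w :=
  (Gk_cb H hC hh hS hn T (v' := v) fun i => by simpa using (hh i).le).val rfl

lemma KE.mono {m m' : ℕ} (H : KE m C) (hm : m' ≤ m) : KE m' C := fun h S hh hS u =>
  (H h S hh hS u).of_le hm

/-- the main term of the kernel -/
lemma kap_main (H : KE 7 C) (hC : 0 ≤ C) (hh : ∀ i, 0 < h i) (hS : PD h S) (hS' : PD h S')
    (hn : Continuous n) (T : Ct h K β b τ) (τ0 : 0 ≤ τ) (τ1 : τ ≤ 1)
    (hδ : EB (nrm h (S' - S)) (cm τ)) (he : ∀ i, |v' i - v i| ≤ τ * h i) {l : List (Fin 3)}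
    (hl : l.length ≤ 5) :
    hp h l * |kap n β l S' v w - (-1) ^ l.length * pds l (Gk n β (ker S) w) v'| ≤
      1056 * τ * C * b * Ev h n K v w := by
  have hh' : ∀ i, 0 ≤ h i := fun i => (hh i).le
  have s1 : Sm fun z => β z * ker S' (v - z) := ContDiff.mul T.sm (sm_refl (sm_ker S') v)
  have s2 : Sm fun z => β z * pds l (ker S) (v' - z) :=
    ContDiff.mul T.sm (sm_refl ((sm_ker S).pds l) v')
  have z1 : ∀ z, z ∉ K → pds l (fun z => β z * ker S' (v - z)) z = 0 :=
    pds_zero_off T.cK.isClosed (fun z hz => by rw [T.z z hz, zero_mul]) l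
  have z2 : ∀ z, z ∉ K → β z * pds l (ker S) (v' - z) = 0 := fun z hz => by
    rw [T.z z hz, zero_mul]
  have e : kap n β l S' v w - (-1) ^ l.length * pds l (Gk n β (ker S) w) v' =
      tot n (fun z => pds l (fun z => β z * ker S' (v - z)) z -
        (-1) ^ l.length * (β z * pds l (ker S) (v' - z))) w := by
    rw [Gk_pds hn T.sm.continuous (slab_of T.cK T.z) (sm_ker S)]
    unfold kap Gk tot
    rw [← integral_const_mul, ← integral_sub
      (integrable_col (s1.pds l).continuous (slab_of T.cK z1) hn w)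
      ((integrable_col s2.continuous (slab_of T.cK z2) hn w).const_mul _)]
  rw [e]
  refine col_le hn T.cK (hp_pos hh l).le (fun z hz => by rw [z1 z hz, z2 z hz]; simp) fun z _ => ?_
  have p := hp_pos hh l
  have pe := env_pos (d2_pos hh) (v - z)
  have b0 := T.nn
  have e0 := mul_le_mul_of_nonneg_left (env_le hh (v - z)) hC
  have h1 := leib hh' T.sm (sm_refl (sm_ker S') v) (mul_nonneg τ0 b0)
    (CBl.monoU T.cv (subset_univ {z})) (cb_refl (sm_ker S') ((H.mono (by norm_num)) h S' hh hS' _)) hl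
  have h2 := kper (n := 5) H hh hS hS' hδ (v - z) l hl _ rfl
  have h3 := kshift (n := 5) (H.mono (by norm_num)) hC hh hS τ1 (u := v - z) (u' := v' - z)
    (fun i => by simpa using he i) hl
  rw [pds_sub (sm_ker S') (sm_ker S)] at h2
  rw [pds_refl (sm_ker S')] at h1
  have e2 : pds l (fun z => β z * ker S' (v - z)) z -
      (-1) ^ l.length * (β z * pds l (ker S) (v' - z)) =
      (pds l (fun z => β z * ker S' (v - z)) z - β z * ((-1) ^ l.length * pds l (ker S') (v - z))) +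
      (-1) ^ l.length * β z * ((pds l (ker S') (v - z) - pds l (ker S) (v - z)) -
        (pds l (ker S) (v' - z) - pds l (ker S) (v - z))) := by ring
  have h4 := mul_le_mul_of_nonneg_left (abs_sub (pds l (ker S') (v - z) - pds l (ker S) (v - z))
    (pds l (ker S) (v' - z) - pds l (ker S) (v - z))) p.le
  have h5 : hp h l * |(pds l (ker S') (v - z) - pds l (ker S) (v - z)) -
      (pds l (ker S) (v' - z) - pds l (ker S) (v - z))| ≤
      12 * (τ * (C * (24 * env (d2 h) (v - z)))) := by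
    have := mul_le_mul_of_nonneg_left e0 τ0
    beta_reduce at h2
    linarith
  have h6 := mul_le_mul (T.b0 z) h5 (mul_nonneg p.le (abs_nonneg _)) b0
  have h7 := mul_le_mul_of_nonneg_left e0 (mul_nonneg τ0 b0)
  rw [e2]
  refine (mul_le_mul_of_nonneg_left (abs_add_le _ _) p.le).trans ?_
  rw [abs_mul, abs_mul, abs_pow, abs_neg, abs_one, one_pow, one_mul]
  beta_reduce at h1
  linarith

end
end Pool.Agent.MP_20bec2_an.T3.Ga

end MrgPart1

-- ======== part 2: formerly Pool.Agent.MP_20bec2_an.T3.GaC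
section MrgPart2

/-! Row GA, part C: the energy test for one column. -/

set_option autoImplicit false
open MeasureTheory Set Filter Matrix Topology

namespace Pool.Agent.MP_20bec2_an.T3.Ga
noncomputable section

variable {h w : V} {n : ℝ → V} {K B : Set V} {β Ψ ρ : V → ℝ} {r lam a b τ C Ce : ℝ} {Z Y : V → V}
  {S : V → Mx} {S0 : Mx}

lemma Ev_eq (hn : Continuous n) (hK : IsCompact K) (h v w : V) :
    Ev h n K v w = colI n ((fun r => cpt n w r) ⁻¹' K) (fun z => env (d2 h) (v - z)) w :=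
  integral_indicator (f := fun r => env (d2 h) (v - cpt n w r)) (pre_compact hn hK w).measurableSet

lemma Ev_cont (hn : Continuous n) (hK : IsCompact K) (h w : V) :
    Continuous fun v => Ev h n K v w := by
  simp only [Ev_eq hn hK]
  exact continuous_parametric_integral_of_continuous
    (f := fun v r => env (d2 h) (v - cpt n w r))
    ((env_cont _).comp (continuous_fst.sub ((cpt_cont hn w).comp continuous_snd)))
    (pre_compact hn hK w)

/-- a window with a smooth model `Y` of the map and a frozen covariance -/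
structure Wd (r lam : ℝ) (h : V) (B : Set V) (Ψ : V → ℝ) (a τ : ℝ) (Z Y : V → V) (S : V → Mx)
    (S0 : Mx) : Prop where
  hp : ∀ i, 0 < (![r * lam, lam, lam] : V) i
  hh : ∀ i, 0 < h i
  he : ∀ i, i ≠ 2 → (![r * lam, lam, lam] : V) i = h i
  cB : IsCompact B
  sm : Sm Ψ
  z : ∀ x, x ∉ B → Ψ x = 0
  cb : CB 2 ![r * lam, lam, lam] univ Ψ a
  lat : ∀ j, j ≠ 2 → ∀ x, h j * |pd j Ψ x| ≤ τ * a
  cZ : Continuous Z
  sY : Sm Y
  d0 : ∀ x ∈ B, ∀ i, |Y x i - Z x i| ≤ τ * h i
  d1 : ∀ x ∈ B, ∀ k j, j ≠ 2 → h j * |(jm Y x - 1) k j| ≤ τ * h k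
  d2 : ∀ x ∈ B, ∀ k, CV 2 ![r * lam, lam, lam] {x} (fun y => Y y k) (2 * h k)
  p0 : PD h S0
  p1 : ∀ x ∈ B, PD h (S x) ∧ EB (nrm h (S x - S0)) (cm τ)
  τ0 : 0 ≤ τ
  τ1 : τ ≤ 1

/-- the energy test -/
def En5 (r lam : ℝ) (ρ : V → ℝ) (C : ℝ) : Prop :=
  ∀ (ψ : Fin 3 → V → ℝ) (φ k : V → ℝ) (τ : ℝ), (∀ j, ContDiff ℝ 2 (ψ j) ∧ HasCompactSupport (ψ j)) →
    Integrable k → Integrable φ → 0 ≤ τ → (∀ j x, CB 2 ![r * lam, lam, lam] {x} (ψ j) (k x)) →
    (∀ x, |φ x - ∑ j, ![r * lam, lam, lam] j * pd j (ψ j) x| ≤ τ * k x) →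
    |∫ x, ρ x * φ x| ≤ 2 * τ * (∫ x, k x) + C * ∫ x, Real.sqrt (enr r lam ρ x) * k x

/-- the envelope in the window -/
def kw (h : V) (n : ℝ → V) (K B : Set V) (Z : V → V) (M : ℝ) (w : V) : V → ℝ :=
  indicator B fun x => M * Ev h n K (Z x) w

lemma kw_int (hn : Continuous n) (hK : IsCompact K) (hB : IsCompact B) (hZ : Continuous Z)
    (h : V) (M : ℝ) (w : V) : Integrable (kw h n K B Z M w) :=
  (integrable_indicator_iff hB.measurableSet).2
    ((continuous_const.mul ((Ev_cont hn hK h w).comp hZ)).continuousOn.integrableOn_compact hB)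

lemma Wd.nn (W : Wd r lam h B Ψ a τ Z Y S S0) : 0 ≤ a := W.cb.nonneg (mem_univ 0)

lemma pw_nil (H : KE 7 C) (hC : 0 ≤ C) (W : Wd r lam h B Ψ a τ Z Y S S0) (hn : Continuous n)
    (T : Ct h K β b τ) (hρ : ∀ x, |ρ x| ≤ 2) :
    |∫ x, ρ x * (Ψ x * kap n β [] (S x) (Z x) w)| ≤
      2 * ∫ x, kw h n K B Z (10 ^ 5 * C * a * b) w x := by
  rw [← integral_const_mul, ← Real.norm_eq_abs]
  refine norm_integral_le_of_norm_le ((kw_int hn T.cK W.cB W.cZ _ _ _).const_mul 2)
    (Eventually.of_forall fun x => ?_)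
  by_cases hx : x ∈ B
  · have h1 := mul_le_mul (W.cb.val (mem_univ x))
      (kap_nil (v := Z x) (w := w) (H.mono (by norm_num)) hC W.hh (W.p1 x hx).1 hn T)
      (abs_nonneg _) W.nn
    have h2 := mul_le_mul (hρ x) h1 (mul_nonneg (abs_nonneg _) (abs_nonneg _)) zero_le_two
    have h3 := mul_nonneg (mul_nonneg (mul_nonneg hC W.nn) T.nn) (Ev_nonneg W.hh n K (Z x) w)
    rw [Real.norm_eq_abs, abs_mul, abs_mul, kw, indicator_of_mem hx]
    linarith
  · simp [kw, indicator_of_notMem hx, W.z x hx]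

lemma pw_cons (H : KE 7 C) (hC : 0 ≤ C) (W : Wd r lam h B Ψ a τ Z Y S S0) (hn : Continuous n)
    (T : Ct h K β b τ) (HE : En5 r lam ρ Ce) {j : Fin 3} (hj : j ≠ 2) {l : List (Fin 3)}
    (hl : l.length ≤ 4) (hi : Integrable fun x => Ψ x * kap n β (j :: l) (S x) (Z x) w) :
    hp h (j :: l) * |∫ x, ρ x * (Ψ x * kap n β (j :: l) (S x) (Z x) w)| ≤
      2 * τ * (∫ x, kw h n K B Z (10 ^ 5 * C * a * b) w x) +
      Ce * ∫ x, Real.sqrt (enr r lam ρ x) * kw h n K B Z (10 ^ 5 * C * a * b) w x := by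
  have hh := W.hh
  have hh' : ∀ i, 0 ≤ h i := fun i => (hh i).le
  have hp' : ∀ i, 0 ≤ (![r * lam, lam, lam] : V) i := fun i => (W.hp i).le
  have a0 := W.nn
  have b0 := T.nn
  have τ0 := W.τ0
  have sG0 := Gk_sm hn T.sm.continuous (slab_of T.cK T.z) (sm_ker S0) w
  obtain ⟨G, hG⟩ : ∃ G : V → ℝ, G = fun v => (-1) ^ (j :: l).length *
    (hp h l * pds l (Gk n β (ker S0) w) v) := ⟨_, rfl⟩
  have sG : Sm G := hG ▸ ((sG0.pds l).cmul _).cmul _
  have cG : ∀ x ∈ B, CB 2 h {Y x} G (24 * C * b * Ev h n K (Z x) w) := fun x hx => by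
    have h1 := (CBl.pds (P' := fun m => m.length ≤ 2) hh' (Gk_cb (w := w) H hC hh W.p0 hn T
      fun i => (W.d0 x hx i).trans (mul_le_of_le_one_left (hh' i) W.τ1)) l fun m hm => by
        rw [List.length_append]; omega).smul ((-1) ^ (j :: l).length)
    rwa [abs_pow, abs_neg, abs_one, one_pow, one_mul, ← hG] at h1
  have dG : ∀ v, h j * pd j G v = hp h (j :: l) *
      ((-1) ^ (j :: l).length * pds (j :: l) (Gk n β (ker S0) w) v) := fun v => by
    rw [hG, pd_const_mul, pd_const_mul, Mol.hp_cons, pds]; ring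
  have sGY : Sm fun x => G (Y x) := sG.comp W.sY
  have sψ : Sm fun x => Ψ x * G (Y x) := ContDiff.mul W.sm sGY
  have zψ : ∀ x, x ∉ B → Ψ x * G (Y x) = 0 := fun x hx => by rw [W.z x hx, zero_mul]
  have k0 : ∀ x, 0 ≤ kw h n K B Z (10 ^ 5 * C * a * b) w x := fun x =>
    indicator_nonneg (fun y _ => mul_nonneg (by positivity) (Ev_nonneg hh _ _ _ _)) x
  have cψ : ∀ x, CB 2 ![r * lam, lam, lam] {x} (fun x => Ψ x * G (Y x))
      (kw h n K B Z (10 ^ 5 * C * a * b) w x) := fun x => by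
    by_cases hx : x ∈ B
    · have h1 := CB.comp_map hp' hh (fun i => SmN.of_sm (W.sY.coord i) {x}) (SmN.of_sm sG {Y x})
        (mapsTo_singleton.2 rfl) (cG x hx) (W.d2 x hx)
      refine CBl.monoB (CB.mul hp' W.sm sGY (CBl.monoU W.cb (subset_univ _)) h1) ?_
      have h3 := mul_nonneg (mul_nonneg (mul_nonneg hC a0) b0) (Ev_nonneg hh n K (Z x) w)
      rw [kw, indicator_of_mem hx, cf, max_eq_right one_le_two]
      push_cast
      linarith
    · intro m _ y hy
      rw [mem_singleton_iff.1 hy, pds_zero_off W.cB.isClosed zψ m x hx, abs_zero, mul_zero]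
      exact k0 x
  have key := HE (fun i => if i = j then fun x => Ψ x * G (Y x) else fun _ => 0)
    (fun x => hp h (j :: l) * (Ψ x * kap n β (j :: l) (S x) (Z x) w)) _ τ (fun i => by
      split_ifs
      · exact ⟨sψ.of_nat 2, HasCompactSupport.intro W.cB zψ⟩
      · exact ⟨contDiff_const, HasCompactSupport.zero⟩)
    (kw_int hn T.cK W.cB W.cZ h (10 ^ 5 * C * a * b) w) (hi.const_mul _) τ0 (fun i x => by
      split_ifs
      · exact cψ x
      · exact cbl_zero (k0 x)) fun x => ?_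
  · simp only [mul_left_comm (ρ _) (hp h (j :: l))] at key
    rwa [integral_const_mul, abs_mul, abs_of_pos (hp_pos hh _)] at key
  rw [Finset.sum_eq_single j (fun i _ hi => by simp [if_neg hi, pd]) (by simp), if_pos rfl,
    W.he j hj]
  by_cases hx : x ∈ B
  swap
  · have h1 : pd j (fun x => Ψ x * G (Y x)) x = 0 := pds_zero_off W.cB.isClosed zψ [j] x hx
    rw [h1, W.z x hx]
    simpa using mul_nonneg τ0 (k0 x)
  have E0 := Ev_nonneg hh n K (Z x) w
  have h1 := kap_main (w := w) H hC hh W.p0 (W.p1 x hx).1 hn T τ0 W.τ1 (W.p1 x hx).2 (W.d0 x hx)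
    (l := j :: l) (Nat.succ_le_succ hl)
  have h2 := mul_le_mul (W.cb.val (mem_univ x)) h1 (mul_nonneg (hp_pos hh _).le (abs_nonneg _)) a0
  have h3 := mul_le_mul (W.lat j hj x) ((cG x hx).val rfl) (abs_nonneg _) (mul_nonneg τ0 a0)
  have h4 : ∀ k, |h j * (jm Y x - 1) k j * pd k G (Y x)| ≤
      τ * (24 * C * b * Ev h n K (Z x) w) := fun k => by
    have h5 := mul_le_mul_of_nonneg_right (W.d1 x hx k j hj) (abs_nonneg (pd k G (Y x)))
    have h6 := mul_le_mul_of_nonneg_left ((cG x hx).pd_le one_le_two k rfl) τ0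
    rw [abs_mul, abs_mul, abs_of_pos (hh j)]
    linarith
  have h5 := mul_le_mul (W.cb.val (mem_univ x)) ((Finset.abs_sum_le_sum_abs _ Finset.univ).trans
    (Finset.sum_le_sum fun k _ => h4 k)) (abs_nonneg _) a0
  have e : hp h (j :: l) * (Ψ x * kap n β (j :: l) (S x) (Z x) w) -
      h j * pd j (fun x => Ψ x * G (Y x)) x =
      Ψ x * (hp h (j :: l) * (kap n β (j :: l) (S x) (Z x) w - (-1) ^ (j :: l).length *
        pds (j :: l) (Gk n β (ker S0) w) (Y x))) - h j * pd j Ψ x * G (Y x) -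
      Ψ x * ∑ k, h j * (jm Y x - 1) k j * pd k G (Y x) := by
    rw [pd_mul_at (W.sm.dif x) (sGY.dif x), pd_comp (sG.dif _) (W.sY.dif x), mul_sub (hp h _),
      ← dG]
    have e1 : ∑ k, h j * (jm Y x - 1) k j * pd k G (Y x) =
        h j * ∑ k, pd k G (Y x) * jm Y x k j - h j * pd j G (Y x) := by
      simp only [Matrix.sub_apply, Matrix.one_apply, mul_sub, sub_mul, Finset.sum_sub_distrib,
        Finset.mul_sum, mul_ite, ite_mul, mul_one, mul_zero, zero_mul, Finset.sum_ite_eq',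
        Finset.mem_univ, if_true]
      congr 1
      exact Finset.sum_congr rfl fun k _ => by ring
    rw [e1]; ring
  rw [e, kw, indicator_of_mem hx]
  refine ((abs_sub _ _).trans (add_le_add_left (abs_sub _ _) _)).trans ?_
  have h6 := mul_nonneg τ0 (mul_nonneg (mul_nonneg (mul_nonneg hC a0) b0) E0)
  simp only [abs_mul, abs_of_pos (hh j), abs_of_pos (hp_pos hh (j :: l))]
  simp only [Finset.sum_const, Finset.card_univ, Fintype.card_fin, nsmul_eq_mul] at h5
  push_cast at h5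
  linarith

end
end Pool.Agent.MP_20bec2_an.T3.Ga

end MrgPart2

-- ======== part 3: formerly Pool.Agent.MP_20bec2_an.T3.GaE
section MrgPart3

/-! Row GA, part E: the square integral of the columns of one window. -/

set_option autoImplicit false
open MeasureTheory Set Filter Matrix Topology

namespace Pool.Agent.MP_20bec2_an.T3.Ga
noncomputable section
open Classical

variable {h : V} {K B U : Set V} {Ψ ρ : V → ℝ} {r lam a b τ κ C Ce : ℝ} {Z Y : V → V}
  {S : V → Mx} {S0 : Mx}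

/-- a chart with small slope -/
structure Ch (h : V) (n : ℝ → V) (κ : ℝ) : Prop where
  sm : Sm n
  sl : ∀ i, i ≠ 2 → (∀ r, |deriv (fun r => n r i) r| ≤ κ) ∧ κ * h 2 ≤ h i / 100
  k1 : κ ≤ 1

lemma Ev_le {n : ℝ → V} (hh : ∀ i, 0 < h i) (c : Ch h n κ) (hK : IsCompact K) (v w : V) :
    Ev h n K v w ≤ 20 / (d2 h 0 * d2 h 1) * Real.exp (-lat2 (d2 h) (cin n v - w) / 240) := by
  have p := mul_pos (d2_pos hh 0) (d2_pos hh 1)
  rw [Ev_eq c.sm.continuous hK]
  refine (ColP.col_env_le (κ := κ) (d2_pos hh) c.sm (fun i hi => ⟨(c.sl i hi).1, ?_⟩) _ v w le_rfl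
    fun _ _ => abs_nonneg _).trans ?_
  · have := (c.sl i hi).2
    unfold d2; linarith
  have : 0 ≤ lat2 (d2 h) (cin n v - w) := add_nonneg (sq_nonneg _) (sq_nonneg _)
  simp only [zero_div, ne_eq, OfNat.ofNat_ne_zero, not_false_eq_true, zero_pow, neg_zero,
    Real.exp_zero, mul_one]
  exact mul_le_mul_of_nonneg_left (Real.exp_le_exp.2 (by linarith)) (by positivity)

lemma Ev_meas {n : ℝ → V} (hn : Continuous n) (hK : IsCompact K) (hZ : Continuous Z) (h : V) :
    Measurable fun p : V × (ℝ × ℝ) => Ev h n K (Z p.1) ![p.2.1, p.2.2, 0] := by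
  have c1 : Continuous fun q : (V × (ℝ × ℝ)) × ℝ => cpt n ![q.1.2.1, q.1.2.2, 0] q.2 := by
    unfold cpt; fun_prop
  have c2 : Continuous fun q : (V × (ℝ × ℝ)) × ℝ =>
      env (d2 h) (Z q.1.1 - cpt n ![q.1.2.1, q.1.2.2, 0] q.2) :=
    (env_cont _).comp ((hZ.comp (by fun_prop)).sub c1)
  exact (c2.measurable.indicator
    (c1.measurable hK.measurableSet)).stronglyMeasurable.integral_prod_right'.measurable

lemma Ev_sum {ι : Type} (s : Finset ι) {n : ι → ℝ → V} {K : ι → Set V} (hh : ∀ i, 0 < h i)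
    (hn : ∀ g, Continuous (n g)) (hK : ∀ g, IsCompact (K g))
    (ov : ∀ z, ((s.filter fun g => z ∈ K g).card : ℝ) ≤ 8) (v : V) :
    (∀ g, Integrable fun w : ℝ × ℝ => Ev h (n g) (K g) v ![w.1, w.2, 0]) ∧
      ∑ g ∈ s, ∫ w : ℝ × ℝ, Ev h (n g) (K g) v ![w.1, w.2, 0] ≤ 8 * 1331 := by
  obtain ⟨i0, b0⟩ := ColP.env_int (d2_pos hh) v
  have i1 := fun g => i0.indicator (hK g).measurableSet
  refine ⟨fun g => (ColP.tot_int (hn g) (i1 g)).1, ?_⟩
  simp only [Ev, fun g => (ColP.tot_int (hn g) (i1 g)).2]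
  rw [← integral_finsetSum _ fun g _ => i1 g]
  refine (integral_mono (integrable_finsetSum _ fun g _ => i1 g) (i0.const_mul 8) fun z => ?_).trans
    (by rw [integral_const_mul]; linarith)
  simp only [indicator_apply, ← Finset.sum_filter, Finset.sum_const, nsmul_eq_mul]
  exact mul_le_mul_of_nonneg_right (ov z) (env_pos (d2_pos hh) _).le

theorem main {ι : Type} (s : Finset ι) {n : ι → ℝ → V} {K : ι → Set V} {β : ι → V → ℝ} {c Wn : V}
    (H : KE 7 C) (hC : 0 ≤ C) (W : Wd r lam h B Ψ a τ Z Y S S0) (τp : 0 < τ)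
    (hn : ∀ g, Ch h (n g) κ) (T : ∀ g, Ct h (K g) (β g) b τ)
    (ov : ∀ z, ((s.filter fun g => z ∈ K g).card : ℝ) ≤ 8) (cx : Convex ℝ U) (cU : IsCompact U)
    (dZ : ContDiff ℝ 1 Z) (bZ : ∀ x ∈ U, EB (jm Z x - 1) (cm (1 / 100))) (hBU : B ⊆ U)
    (hW : ∀ i, 0 < Wn i) (hBW : ∀ x ∈ B, ∀ i, |x i - c i| ≤ Wn i)
    (me : Measurable (enr r lam ρ)) (he : ∀ x, 0 ≤ enr r lam ρ x ∧ enr r lam ρ x ≤ Ce)
    (HE : En5 r lam ρ Ce) (hρ : ∀ x, |ρ x| ≤ 2) {l : List (Fin 3)} (hl : l.length ≤ 5)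
    (hl' : ∀ i ∈ l, i ≠ 2) (hi : ∀ g w, Integrable fun x => Ψ x * kap (n g) (β g) l (S x) (Z x) w) :
    ∑ g ∈ s, ∫ w : ℝ × ℝ, ((if l = [] then τ else 1) * (hp h l *
      ∫ x, ρ x * (Ψ x * kap (n g) (β g) l (S x) (Z x) ![w.1, w.2, 0]))) ^ 2 ≤
      10 ^ 10 * (8 + 2 * Ce ^ 2) * (10 ^ 5 * C * a * b) ^ 2 * (Wn 0 * Wn 1) *
        (∫ t in (c 2 - Wn 2)..(c 2 + Wn 2), (Real.sqrt (av (enr r lam ρ) c Wn t) + τ)) ^ 2 := by
  rcases s.eq_empty_or_nonempty with rfl | ⟨g0, -⟩
  · have := hW 0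
    have := hW 1
    rw [Finset.sum_empty]; positivity
  have hh := W.hh
  have a0 := W.nn
  have b0 := (T g0).nn
  have C0 : 0 ≤ Ce := (he 0).1.trans (he 0).2
  have cn := fun g => (hn g).sm.continuous
  obtain ⟨M, hM⟩ : ∃ M, M = 10 ^ 5 * C * a * b := ⟨_, rfl⟩
  have M0 : 0 ≤ M := by rw [hM]; positivity
  have p := mul_pos (d2_pos hh 0) (d2_pos hh 1)
  have ml : Measurable fun t => Real.sqrt (av (enr r lam ρ) c Wn t) + τ :=
    (av_meas hW me he).sqrt.add_const τ
  have bl : ∀ t, τ ≤ Real.sqrt (av (enr r lam ρ) c Wn t) + τ ∧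
      Real.sqrt (av (enr r lam ρ) c Wn t) + τ ≤ Real.sqrt Ce + τ := fun t =>
    ⟨le_add_of_nonneg_left (Real.sqrt_nonneg _),
      add_le_add_left (Real.sqrt_le_sqrt (av_bd hW me he t).2) _⟩
  have hab : c 2 - Wn 2 ≤ c 2 + Wn 2 := by linarith [hW 2]
  obtain ⟨L, hL⟩ : ∃ L, L = ∫ t in (c 2 - Wn 2)..(c 2 + Wn 2),
    (Real.sqrt (av (enr r lam ρ) c Wn t) + τ) := ⟨_, rfl⟩
  have L0 : 0 < L := hL ▸ intervalIntegral.intervalIntegral_pos_of_pos
    ((intervalIntegrable_iff_integrableOn_Icc_of_le hab).2 (int_bd measure_Icc_lt_top.ne ml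
      fun t => abs_le.2 ⟨by linarith [(bl t).1, Real.sqrt_nonneg Ce], (bl t).2⟩))
    (fun t => τp.trans_le (bl t).1) (by linarith [hW 2])
  have mμ : Measurable fun x => M * (2 * τ + Ce * Real.sqrt (enr r lam ρ x)) :=
    ((me.sqrt.const_mul Ce).const_add _).const_mul M
  have iE : ∀ g w, IntegrableOn (fun x => M * Ev h (n g) (K g) (Z x) w) B := fun g w =>
    (integrable_indicator_iff W.cB.measurableSet).1 (kw_int (cn g) (T g).cK W.cB W.cZ h M w)
  have iS : ∀ g w, IntegrableOn (fun x => Real.sqrt (enr r lam ρ x) *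
      (M * Ev h (n g) (K g) (Z x) w)) B := fun g w =>
    (iE g w).bdd_mul (c := Real.sqrt Ce) me.sqrt.aestronglyMeasurable
      (Eventually.of_forall fun x => by
        rw [Real.norm_of_nonneg (Real.sqrt_nonneg _)]; exact Real.sqrt_le_sqrt (he x).2)
  have eI : ∀ g w, ∫ x in B, M * (2 * τ + Ce * Real.sqrt (enr r lam ρ x)) *
      Ev h (n g) (K g) (Z x) w = 2 * τ * (∫ x, kw h (n g) (K g) B Z M w x) +
      Ce * ∫ x, Real.sqrt (enr r lam ρ x) * kw h (n g) (K g) B Z M w x := fun g w => by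
    have e : ∀ x, Real.sqrt (enr r lam ρ x) * kw h (n g) (K g) B Z M w x = indicator B
        (fun x => Real.sqrt (enr r lam ρ x) * (M * Ev h (n g) (K g) (Z x) w)) x := fun x =>
      (indicator_mul_right B (fun x => Real.sqrt (enr r lam ρ x)) _).symm
    simp only [e]
    simp only [kw, integral_indicator W.cB.measurableSet]
    rw [← integral_const_mul, ← integral_const_mul, ← integral_add ((iE g w).const_mul _)
      ((iS g w).const_mul _)]
    exact integral_congr_ae (Eventually.of_forall fun x => by ring)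
  have key := l2 s (E := fun g x w => Ev h (n g) (K g) (Z x) ![w.1, w.2, 0])
    (T := fun g w => (if l = [] then τ else 1) * (hp h l *
      ∫ x, ρ x * (Ψ x * kap (n g) (β g) l (S x) (Z x) ![w.1, w.2, 0]))) W.cB
    (m := M * (2 * τ + Ce * Real.sqrt Ce)) (E0 := 20 / (d2 h 0 * d2 h 1)) (P := 38440 * L) mμ
    (ml.comp (measurable_pi_apply 2)) (fun x => by
      rw [abs_of_nonneg (by positivity)]
      gcongr
      exact (he x).2) τp (fun x => bl (x 2))
    (fun g => Ev_meas (cn g) (T g).cK W.cZ h) (fun g x w => ⟨Ev_nonneg hh _ _ _ _,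
      (Ev_le hh (hn g) (T g).cK _ _).trans (mul_le_of_le_one_right (by positivity)
        (Real.exp_le_one_iff.2 (by
          have : 0 ≤ lat2 (d2 h) (cin (n g) (Z x) - ![w.1, w.2, 0]) :=
            add_nonneg (sq_nonneg _) (sq_nonneg _)
          linarith)))⟩) (by positivity)
    (fun g w => hL ▸ slab_le cU W.cB.measurableSet hab (fun x hx => ⟨hBU hx, by
        have := abs_le.1 (hBW x hx 2)
        constructor <;> linarith⟩) ml (fun t => ⟨τp.le.trans (bl t).1, (bl t).2⟩)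
      (F := fun x => 20 / (d2 h 0 * d2 h 1) *
        Real.exp (-lat2 (d2 h) (cin (n g) (Z x) - ![w.1, w.2, 0]) / 240)) (by
        have := (continuous_cin (cn g)).comp W.cZ
        unfold lat2
        fun_prop) (fun x => ⟨Ev_nonneg hh _ _ _ _, Ev_le hh (hn g) (T g).cK _ _⟩) fun t => by
      rw [integral_const_mul]
      refine (mul_le_mul_of_nonneg_left (ColP.slice_le (d2_pos hh) (hn g).sm
        (fun i hi => ((hn g).sl i hi).1) (hn g).k1 cx cU dZ bZ _ t) (by positivity)).trans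
        (le_of_eq ?_)
      rw [mul_left_comm, div_mul_cancel₀ _ p.ne']
      norm_num)
    (fun g x => (Ev_sum s hh cn (fun g => (T g).cK) ov (Z x)).1 g)
    (fun x => (Ev_sum s hh cn (fun g => (T g).cK) ov (Z x)).2) fun g w => by
      rw [eI, hM]
      cases l with
      | nil =>
        have h1 := mul_le_mul_of_nonneg_left (pw_nil (w := ![w.1, w.2, 0]) H hC W (cn g) (T g) hρ)
          τp.le
        have h2 : 0 ≤ Ce * ∫ x, Real.sqrt (enr r lam ρ x) *
            kw h (n g) (K g) B Z (10 ^ 5 * C * a * b) ![w.1, w.2, 0] x :=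
          mul_nonneg C0 (integral_nonneg fun x => mul_nonneg (Real.sqrt_nonneg _)
            (indicator_nonneg (fun y _ => mul_nonneg (by positivity) (Ev_nonneg hh _ _ _ _)) x))
        rw [if_pos rfl, hp_nil, one_mul, abs_mul, abs_of_pos τp]
        linarith
      | cons j l =>
        rw [if_neg (List.cons_ne_nil j l), one_mul, abs_mul, abs_of_pos (hp_pos hh _)]
        exact pw_cons H hC W (cn g) (T g) HE (hl' j List.mem_cons_self)
          (Nat.le_of_succ_le_succ hl) (hi g _)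
  have h2 := box_le (c := c) W.cB.measurableSet hW me he hBW τp (p := 8 * M ^ 2)
    (q := 2 * Ce ^ 2 * M ^ 2) (by positivity) (by positivity)
    (f := fun x => (M * (2 * τ + Ce * Real.sqrt (enr r lam ρ x))) ^ 2) fun x => by
      refine ⟨sq_nonneg _, ?_⟩
      have h3 := Real.sq_sqrt (he x).1
      generalize Real.sqrt (enr r lam ρ x) = t at *
      rw [← h3]
      nlinarith [mul_nonneg (sq_nonneg M) (sq_nonneg (2 * τ - Ce * t))]
  rw [← hL] at h2 ⊢
  rw [← hM]
  refine key.trans ((mul_le_mul_of_nonneg_left (mul_le_mul_of_nonneg_left h2 (by norm_num))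
    (by positivity)).trans ?_)
  have h3 : 0 ≤ (8 + 2 * Ce ^ 2) * M ^ 2 * (Wn 0 * Wn 1) * L ^ 2 := by
    have := hW 0
    have := hW 1
    positivity
  linarith

end
end Pool.Agent.MP_20bec2_an.T3.Ga

end MrgPart3

-- ======== part 4: formerly Pool.Agent.MP_20bec2_an.T3.GaF
section MrgPart4

/-! Row GA, part F: the smooth model of the map, parameters and the frozen covariance. -/

set_option autoImplicit false
open MeasureTheory Set Filter Matrix Topology

namespace Pool.Agent.MP_20bec2_an.T3.Ga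
noncomputable section
open Classical

lemma rep {h w : V} {U K : Set V} {a β : V → ℝ} {A b τ : ℝ} {Z : V → V} {S : V → Mx} {n : ℝ → V}
    (k : KL h U a A Z S) (T : Ct h K β b τ) (hn : Continuous n) {l : List (Fin 3)}
    (hl : ∀ i ∈ l, i ≠ 2) : Integrable (fun x => a x * kap n β l (S x) (Z x) w) ∧
      pds l (tot n fun z => β z * dens a Z S z) w = ∫ x, a x * kap n β l (S x) (Z x) w := by
  have H := ColP.col_dens k T.sm (BdD.of_compact T.sm (HasCompactSupport.intro T.cK T.z)) hn univ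
    hl w
  have e : ∀ x, pds l (tot n fun z => β z * ker (S x) (Z x - z)) w =
      kap n β l (S x) (Z x) w := fun x => by
    rw [pds_tot (ContDiff.mul T.sm (sm_refl (sm_ker _) _))
      (slab_of T.cK fun z hz => by rw [T.z z hz, zero_mul]) hn hl]
    rfl
  simpa only [← tot_eq_colI, e] using H

lemma model : ∃ C : ℝ, 1 ≤ C ∧ ∀ {Z : V → V} {B U : Set V} {r lam ε τ : ℝ} {h : V}, Sm Z → 0 < lam →
    1 ≤ r → Mol.Thk (cv lam) B U → (∀ y ∈ U, EB (jm Z y - 1) (cm ε)) → 0 ≤ ε → (∀ k, lam ≤ h k) →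
    (∀ j, j ≠ 2 → h j ≤ r * lam) → (∀ i, (![r * lam, lam, lam] : V) i ≤ h i) → 3 * r * ε ≤ τ →
    r ^ 2 * C * ε ≤ 1 → ∃ Y : V → V, Sm Y ∧ (∀ x ∈ B, ∀ i, |Y x i - Z x i| ≤ τ * h i) ∧
      (∀ x ∈ B, ∀ k j, j ≠ 2 → h j * |(jm Y x - 1) k j| ≤ τ * h k) ∧
      ∀ x ∈ B, ∀ k, CV 2 ![r * lam, lam, lam] {x} (fun y => Y y k) (2 * h k) := by
  obtain ⟨C, hC, H⟩ := Mol.mol_gain 2
  refine ⟨C, hC, fun {Z B U r lam ε τ h} hZ hl hr hT hb hε h1 h2 h3 h4 h5 => ?_⟩
  have p : ∀ i, 0 < cv lam i := fun _ => hl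
  have sg : ∀ k, Sm fun y => Z y k - y k := fun k => ContDiff.sub (hZ.coord k) (sm_coord k)
  have cg : ∀ k, CV 1 (cv lam) U (fun y => Z y k - y k) (lam * ε) := fun k =>
    cv_one_iff.2 fun j y hy => by
      have := hb y hy k j
      rw [pd_sub_at ((hZ.coord k).dif y) ((sm_coord k).dif y), pd_coord]
      exact mul_le_mul_of_nonneg_left (by simpa [jm, cm, Matrix.one_apply] using this) hl.le
  have sm : ∀ k, Sm (mol (cv lam) fun y => Z y k - y k) := fun k =>
    Mol.mol_sm p (Mol.li_cont (sg k).continuous)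
  have e0 : 0 ≤ lam * ε := mul_nonneg hl.le hε
  have e1 : ∀ k, 3 * r * (lam * ε) ≤ τ * h k := fun k => by
    have := mul_le_mul h4 (h1 k) hl.le ((by positivity : 0 ≤ 3 * r * ε).trans h4)
    linarith
  have e2 : lam * ε ≤ r * (lam * ε) := le_mul_of_one_le_left e0 hr
  have q : ∀ i, 0 ≤ (![r * lam, lam, lam] : V) i := fun i => by
    fin_cases i <;> simp <;> positivity
  refine ⟨fun x k => x k + mol (cv lam) (fun y => Z y k - y k) x,
    sm_pi fun k => ContDiff.add (sm_coord k) (sm k), fun x hx k => ?_, fun x hx k j hj => ?_,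
    fun x hx k => ?_⟩
  · have := Mol.sub_mol_cv p p ((sg k).differentiable (by simp)) hT (cg k) hx
    simp only [cv, div_self hl.ne', Finset.sum_const, Finset.card_univ, Fintype.card_fin,
      nsmul_eq_mul, mul_one, Nat.cast_ofNat] at this
    rw [abs_sub_comm, show Z x k - (x k + mol (cv lam) (fun y => Z y k - y k) x) =
      Z x k - x k - mol (cv lam) (fun y => Z y k - y k) x by ring]
    exact this.trans (by linarith [e1 k])
  · have a1 := CV.pd_le (Mol.cbl_mol_sm p p (sg k) hT (cg k)) le_rfl j hx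
    have e : (jm (fun x k => x k + mol (cv lam) (fun y => Z y k - y k) x) x - 1) k j =
        pd j (mol (cv lam) fun y => Z y k - y k) x := by
      simp only [jm, Matrix.sub_apply, of_apply, Matrix.one_apply]
      rw [pd_add_at ((sm_coord k).dif x) ((sm k).dif x), pd_coord]
      ring
    have a2 := mul_le_mul_of_nonneg_right (h2 j hj)
      (abs_nonneg (pd j (mol (cv lam) fun y => Z y k - y k) x))
    have a3 := mul_le_mul_of_nonneg_left a1 (zero_le_one.trans hr)
    have a4 : r * (cv lam j * |pd j (mol (cv lam) fun y => Z y k - y k) x|) =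
      r * lam * |pd j (mol (cv lam) fun y => Z y k - y k) x| := (mul_assoc _ _ _).symm
    rw [e]
    linarith [e1 k]
  · have a1 := CV.rescale (h' := ![r * lam, lam, lam]) hr (fun i => (p i).le) q (fun i => by
      fin_cases i
      exacts [le_rfl, le_mul_of_one_le_left hl.le hr, le_mul_of_one_le_left hl.le hr])
      ((H (cv lam) _ _ p).2.2.2.1 B U (sg k).one hT (cg k))
    refine CBl.monoB (CBl.add q (sm_coord k) (sm k) (cv_coord q k)
      (CBl.monoU a1 (singleton_subset_iff.2 hx))) ?_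
    have := mul_le_mul_of_nonneg_right h5 hl.le
    linarith [h1 k, h3 k]

/-- the small parameter -/
def tau (c : Pm) : ℝ := 1 / (2 * c.J ^ 15)

section
variable {c : Pm} (g : Gd c)
include g

lemma tau_pos : 0 < tau c := by have := g.J_pos; unfold tau; positivity

lemma tl {k e : ℝ} (b : ℕ) (hk : 0 < k) (hk' : k ≤ 1000) (hb : b ≤ 20) (he : e ≤ -1 / 100) :
    k * c.J ^ b * np c.N e ≤ tau c := by
  have J := g.J_pos
  have p := g.big.np_pos e
  have h1 := Real.log_le_sub_one_of_pos hk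
  have h2 := g.big.L_ge
  have h3 := g.big.J_ge
  have h4 : (b : ℝ) * pL c.N ≤ 20 * pL c.N :=
    mul_le_mul_of_nonneg_right (by exact_mod_cast hb) (by linarith)
  have h5 := mul_le_mul_of_nonneg_right he g.big.J_pos.le
  refine le_of_log (by positivity) (tau_pos g) ?_
  rw [tau, one_div, Real.log_inv, Real.log_mul (by positivity) p.ne',
    Real.log_mul hk.ne' (by positivity), Real.log_mul two_ne_zero (by positivity), Real.log_pow,
    Real.log_pow, g.log_J, g.big.log_np]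
  push_cast
  linarith [log2_bd.2]

lemma tl0 {k e : ℝ} (hk : 0 < k) (hk' : k ≤ 1000) (he : e ≤ -1 / 100) : k * np c.N e ≤ tau c := by
  simpa using tl g 0 hk hk' (by norm_num) he

lemma tau_pA : 1 ≤ tau c * pA c.N := by
  have h1 : (2 : ℝ) ≤ c.J ^ 5 :=
    (by linarith [DomP.J_ge g] : 2 ≤ c.J).trans (le_self_pow₀ (by linarith [DomP.J_ge g]) (by norm_num))
  have := g.J_pos
  rw [show tau c * pA c.N = c.J ^ 5 / 2 by
    rw [tau, show pA c.N = c.J ^ 20 from rfl]; field_simp]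
  linarith

lemma tau_le : tau c ≤ 1 := by
  have h1 : (1 : ℝ) ≤ c.J ^ 15 := one_le_pow₀ (by linarith [DomP.J_ge g])
  exact div_le_one_of_le₀ (by linarith) (by linarith)

lemma hs_tau (i : Fin 3) : c.hs i ≤ tau c * c.cw i := by
  fin_cases i
  · exact (le_mul_of_one_le_left g.l1_pos.le (tau_pA g)).trans_eq (mul_assoc _ _ _)
  · exact (le_mul_of_one_le_left g.lam_pos.le (tau_pA g)).trans_eq (mul_assoc _ _ _)
  · have h1 := tl0 g one_pos (by norm_num) (show (-9 / 10 : ℝ) ≤ -1 / 100 by norm_num)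
    have h2 : (1 : ℝ) ≤ c.J ^ 12 := one_le_pow₀ (by linarith [DomP.J_ge g])
    have e : np c.N (11 / 10) = np c.N (-9 / 10) * (c.N : ℝ) ^ 2 := by
      rw [← np_nat, ← g.big.np_add]; norm_num
    have := g.lam_pos
    have := tau_pos g
    show np c.N (11 / 10) * c.lam ≤ tau c * ((c.N : ℝ) ^ 2 * c.J ^ 12 * c.lam)
    calc np c.N (11 / 10) * c.lam = np c.N (-9 / 10) * ((c.N : ℝ) ^ 2 * 1 * c.lam) := by
          rw [e]; ring
      _ ≤ _ := by gcongr; linarith

lemma ro_le (hA : c.isA) : c.ro ≤ c.J ^ 5 := by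
  refine le_of_log g.ro_pos (pow_pos g.J_pos 5) ?_
  rw [g.log_ro, g.log_e4_A hA, Real.log_pow, g.log_J]
  push_cast
  linarith [g.log_m_le, g.log_K_bd.2, g.log_isA.1 hA, g.big.L_ge]

lemma eL_le : c.eL ≤ 2 * np c.N (-46 / 100) := by
  have h1 : c.eHi ≤ np c.N (-46 / 100) :=
    g.big.np_le (by linarith [(rmp_mem (etaS c.N / 10) c.η).1])
  have h2 : c.eLo ≤ np c.N (-46 / 100) := g.big.np_le (by linarith [(rmp_mem (c.thr / 2) c.η).1])
  have h3 := mul_le_of_le_one_right g.eHi_pos.le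
    (pow_le_one₀ (by norm_num) (by norm_num) : (6 / 10 : ℝ) ^ c.k ≤ 1)
  unfold Pm.eL; linarith

lemma eSm_le : c.eSm ≤ 4 * np c.N (-46 / 100) := by
  have h1 : np c.N (-3 / 100) ≤ 1 := np_zero c.N ▸ g.big.np_le (by norm_num)
  have h2 := mul_le_of_le_one_left g.eL_pos.le h1
  have h3 := g.big.np_le (show (-47 / 100 : ℝ) ≤ -46 / 100 by norm_num)
  have h4 := g.big.np_le (show (-55 / 10 : ℝ) ≤ -46 / 100 by norm_num)
  have h5 := g.big.np_pos (-46 / 100)
  have h6 := eL_le g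
  unfold Pm.eSm
  split_ifs <;> linarith

lemma np_D {a : ℝ} (x : ℝ) (hx : x ≤ np c.N a * c.lam) : x ≤ np c.N (a - 4) * c.D := by
  refine hx.trans (le_trans (mul_le_mul_of_nonneg_left g.lam_le_lb (g.big.np_pos a).le)
    (le_of_eq ?_))
  rw [Pm.D, ← np_nat, ← mul_assoc, ← g.big.np_add]; norm_num

end

/-- the covariance is almost constant in a window -/
lemma freeze {d : MD} {s : Sa} (g : Gd d.c) (hd : d.In) (hs : d.Gs s)
    (hα : CB 1 (cv d.c.D) univ (fun x => d.α x ^ 2) d.c.J) {x x' : V} (hx : x ∈ d.R (99 / 100))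
    (hx' : x' ∈ d.R (99 / 100)) (hr : ∀ i, |x i - x' i| ≤ 2 * (np d.c.N (51 / 100) * d.c.lam)) :
    EB (nrm d.c.hs (d.S x - s.C x - (d.S x' - s.C x'))) (cm (tau d.c)) := fun i j => by
  obtain ⟨t, t0, t1, H⟩ := hs.cb
  have cx : Convex ℝ (d.R (99 / 100)) := Prof.RX_convex _ _ _
  have r1 : ∀ i, |x i - x' i| ≤ 2 * np d.c.N (5 / 100) * cv d.c.hE i := fun i =>
    (hr i).trans (le_of_eq (by
      rw [cv, Pm.hE, mul_assoc, ← mul_assoc (np _ _), ← g.big.np_add]; norm_num))
  have r2 : ∀ i, |x i - x' i| ≤ 2 * np d.c.N (51 / 100 - 4) * cv d.c.D i := fun i => by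
    have := np_D g _ (le_refl (np d.c.N (51 / 100) * d.c.lam))
    simp only [cv]
    linarith [hr i]
  have sn : ∀ {F : V → Mx}, SmM F → Sm fun y => nrm d.c.hs (F y) i j := fun hF =>
    ContDiff.div_const (hF i j) _
  have a1 := CV.mvt_box (fun _ => g.hE_pos) cx (sn hd.sS.1) (hd.sv i j) le_rfl hx hx' r1
  have a2 := CV.mvt_box (fun _ => g.hE_pos) cx (sn hd.sC.1) (hd.cv4 i j).1 (by norm_num) hx hx' r1
  have a3 : |d.α x ^ 2 - d.α x' ^ 2| ≤ _ := CV.mvt_box (fun _ => g.D_pos) convex_univ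
    ((Prof.alh_sm d.O d.c.D).pow 2) hα.toCV le_rfl (mem_univ x) (mem_univ x') r2
  have a4 : |nrm d.c.hs (d.C x) i j| ≤ 1 := by
    have h1 := hd.cb x hx i j
    have h2 := KlsA.t1_le g
    have h3 := abs_add_le ((nrm d.c.hs (d.C x) - dg3 (3 / 16) (3 / 16) 0) i j)
      (dg3 (3 / 16) (3 / 16) 0 i j)
    rw [Matrix.sub_apply, sub_add_cancel] at h3
    rw [Matrix.sub_apply] at h1
    have h4 : |dg3 (3 / 16) (3 / 16) 0 i j| ≤ 3 / 16 := by
      fin_cases i <;> fin_cases j <;> simp [dg3] <;> norm_num [abs_of_pos]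
    have h5 : (!![3 * d.c.t11, 3 * d.c.t12, 0; 3 * d.c.t12, 3 * d.c.t11, 0; 0, 0, 0] : Mx) i j ≤
        1 / 2 := by
      fin_cases i <;> fin_cases j <;> simp <;> linarith
    linarith
  have a5 : |d.α x' ^ 2| ≤ 1 := by
    rw [abs_of_nonneg (sq_nonneg _)]; exact Prof.alh_sq_le _ _ _
  have a6 := H x hx i j
  have a7 := H x' hx' i j
  have e : nrm d.c.hs (d.S x - s.C x - (d.S x' - s.C x')) i j =
      (nrm d.c.hs (d.S x) i j - nrm d.c.hs (d.S x') i j) -
      nrm d.c.hs (s.C x - (t * d.α x ^ 2) • d.C x) i j +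
      nrm d.c.hs (s.C x' - (t * d.α x' ^ 2) • d.C x') i j -
      t * ((d.α x ^ 2 - d.α x' ^ 2) * nrm d.c.hs (d.C x) i j +
        d.α x' ^ 2 * (nrm d.c.hs (d.C x) i j - nrm d.c.hs (d.C x') i j)) := by
    simp only [nrm, of_apply, Matrix.sub_apply, Matrix.smul_apply, smul_eq_mul]
    ring
  have b1 := mul_le_mul a3 a4 (abs_nonneg _) ((abs_nonneg _).trans a3)
  have b2 := mul_le_mul a5 a2 (abs_nonneg _) zero_le_one
  rw [← abs_mul] at b1 b2
  have b3 := mul_le_of_le_one_left (abs_nonneg ((d.α x ^ 2 - d.α x' ^ 2) * nrm d.c.hs (d.C x) i j +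
    d.α x' ^ 2 * (nrm d.c.hs (d.C x) i j - nrm d.c.hs (d.C x') i j))) t1
  have b4 := abs_add_le ((d.α x ^ 2 - d.α x' ^ 2) * nrm d.c.hs (d.C x) i j)
    (d.α x' ^ 2 * (nrm d.c.hs (d.C x) i j - nrm d.c.hs (d.C x') i j))
  have c1 := tl0 g (k := 24) (e := 5 / 100 + -2 / 5) (by norm_num) (by norm_num) (by norm_num)
  have c2 := tl0 g (k := 96) (e := 5 / 100 + -46 / 100) (by norm_num) (by norm_num) (by norm_num)
  have c3 := tl g (k := 24) (e := 51 / 100 - 4) 1 (by norm_num) (by norm_num) (by norm_num)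
    (by norm_num)
  have c4 := tl0 g (k := 64) (e := -46 / 100) (by norm_num) (by norm_num) (by norm_num)
  have c5 := mul_le_mul_of_nonneg_left (eL_le g) (g.big.np_pos (5 / 100)).le
  have c6 := eSm_le g
  rw [g.big.np_add] at c1 c2
  rw [e]
  refine (abs_sub _ _).trans ((add_le_add_left ((abs_add_le _ _).trans
    (add_le_add_left (abs_sub _ _) _)) _).trans ?_)
  rw [abs_mul t, abs_of_nonneg t0]
  simp only [cm, of_apply] at a6 a7 ⊢
  linarith

end
end Pool.Agent.MP_20bec2_an.T3.Ga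

end MrgPart4

-- ======== part 5: formerly Pool.Agent.MP_20bec2_an.T3.Ga
section MrgPart5

/-! Row GA: the Hilbert norm of the main part of a window in zone A. -/

set_option autoImplicit false
open MeasureTheory Set Filter Matrix Topology

namespace Pool.Agent.MP_20bec2_an.T3
noncomputable section
open Classical

attribute [local irreducible] LL

namespace Ga

/-- the support of a cell -/
def Kc (c : Pm) (γ : Cu) : Set V :=
  Icc (fun i => (γ i - 9 / 10) * c.cw i) fun i => (γ i + 9 / 10) * c.cw i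

lemma mem_Kc {c : Pm} (g : Gd c) {γ : Cu} {z : V} :
    z ∈ Kc c γ ↔ ∀ i, |z i / c.cw i - γ i| ≤ 9 / 10 := by
  simp only [Kc, mem_Icc, Pi.le_def, ← forall_and]
  refine forall_congr' fun i => ?_
  rw [← le_div_iff₀ (g.cw_pos i), ← div_le_iff₀ (g.cw_pos i), abs_le]
  constructor <;> rintro ⟨h1, h2⟩ <;> constructor <;> linarith

lemma ct {c : Pm} (g : Gd c) {γ : Cu} {b : ℝ} (hb : 1 ≤ b) (H : CB 5 c.cw univ (c.bc γ) b) :
    Ct c.hs (Kc c γ) (c.bc γ) b (tau c) :=
  ⟨isCompact_Icc, Prof.bc_sm _ _, fun z hz => by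
      by_contra h
      exact hz ((mem_Kc g).2 fun i => (Prof.bc_supp h i).le),
    fun z => by rw [abs_of_nonneg (Prof.bc_nonneg _ _ _)]; exact (Prof.bc_le_one _ _ _).trans hb,
    H.toCV.finer (tau_pos g).le (tau_le g) (fun i => (g.cw_pos i).le) (fun i => (g.hs_pos i).le)
      (hs_tau g)⟩

lemma ov {c : Pm} (g : Gd c) (s : Finset Cu) (z : V) :
    ((s.filter fun γ => z ∈ Kc c γ).card : ℝ) ≤ 8 := by
  have := Finset.card_le_card (show (s.filter fun γ => z ∈ Kc c γ) ⊆ Prof.nbs fun i => z i / c.cw i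
    from fun γ hγ => Prof.mem_nbs_of_lt fun i =>
      ((mem_Kc g).1 (Finset.mem_filter.1 hγ).2 i).trans_lt (by norm_num))
  rw [Prof.card_nbs] at this
  exact_mod_cast this

lemma ch {d : MD} (g : Gd d.c) (hd : d.In) (γ : Cu) : Ch d.c.hs (d.ch γ) (np d.c.N (-19 / 10)) := by
  refine ⟨(hd.chb.2 γ).1, fun i hi => ⟨fun r => ((hd.chb.2 γ).2 i hi r).2.1, ?_⟩,
    (DomP.np_small g (by norm_num)).trans (by norm_num)⟩
  have e : np d.c.N (-19 / 10) * d.c.hs 2 = np d.c.N (-8 / 10) * d.c.lam := by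
    show _ * (np d.c.N (11 / 10) * _) = _
    rw [← mul_assoc, ← g.big.np_add]; norm_num
  have := DomP.np_small g (a := -8 / 10) (by norm_num)
  have := DomP.lam_le_hs g i
  have := g.lam_pos
  rw [e]; nlinarith

lemma zb {d : MD} {s : Sa} (g : Gd d.c) (hd : d.In) (hs : d.Gs s) (hA : d.c.isA) :
    ∀ y ∈ d.R (99 / 100), EB (jm (fun x => d.Z x + s.U x) y - 1) (cm (3 * nu d.c.N)) :=
  fun y hy i j => by
    have h1 := (hd.zb y hy).1 i j
    have h2 := (hs.ub y).2.2 (g.comp_of_isA hA) i j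
    have h3 : d.c.zT = 2 * nu d.c.N := if_pos (by
      have := g.big.etaA_pos
      have : etaA d.c.N ≤ d.c.η := hA
      unfold etaS; linarith)
    rw [jm_add hd.sZ hs.sm.1, add_sub_right_comm, Matrix.add_apply]
    simp only [cm, of_apply] at h1 h2 ⊢
    linarith [abs_add_le ((jm d.Z y - 1) i j) (jm s.U y i j)]

end Ga

open Ga in
theorem ga : GaStmt := by
  obtain ⟨C, hC, HK⟩ := ke 7
  obtain ⟨Ce, -, HE⟩ := ener k1 (k4 k1) (kc k1 (k4 k1))
  obtain ⟨Cm, hm, HM⟩ := model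
  obtain ⟨Cb, hb, Hb⟩ := Prof.cb_bc 5
  obtain ⟨Ca, -, Ha⟩ := Prof.cb_cut 1
  obtain ⟨P, hP⟩ : ∃ P : ℝ, P = 10 ^ 10 * (8 + 2 * Ce ^ 2) * (10 ^ 5 * C * Cb) ^ 2 := ⟨_, rfl⟩
  have P0 : 0 ≤ P := by rw [hP]; positivity
  filter_upwards [kls, ev_gd, ev_C_q Cm, ev_C_q Ca, ev_C_qp (512 * P) (c := 8 / 100) (by norm_num)]
    with N hK hg e1 e2 e3 d h1 h2 hd s Ψ Ψm om ce W hs _ hw hA
  subst h1
  have g := hg d.c rfl hd.ok
  have hc := g.comp_of_isA hA
  have kl := fun a A a1 a2 a3 => ((hK d rfl h2 hd s (hs.gw g)).2 a A a1 a2 a3).1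
  obtain ⟨me, he, -, -, H5⟩ := HE d.c.ro d.c.lam d.ρ g.ro_pos g.lam_pos hd.rho
  have pl := g.lam_pos
  have p1 := g.l1_pos
  have pJ := g.J_pos
  have τp := tau_pos g
  have ad : d.Adm Ψm fun i => qp d.c.N (1 / 100) * d.c.hs i :=
    ⟨hw.sm.1.continuous, fun x hx => by
      by_contra h
      exact hx ((hw.sup x).1 h).1, hw.sm.2, fun x i => (hw.am x i).1⟩
  have k0 := fun i => kl _ _ (ad.aw hd i).1 (ad.aw hd i).2.1 (ad.aw hd i).2.2
  have k1 := fun i => kl (fun x => Ψm x i) _ (hw.sm.1.coord i).continuous.measurable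
    (fun x => ad.sz x i) fun x hx => by rw [ad.sup x hx]; rfl
  obtain ⟨w0, w1, w2, -, -, w3, w4⟩ := hw.wd
  have hW : ∀ i, 0 < W i := fun i => by
    fin_cases i
    exacts [p1.trans_le w0, pl.trans_le w1, w2]
  have hW' : ∀ i, W i ≤ np d.c.N (51 / 100) * d.c.lam := fun i => by
    fin_cases i
    exacts [(w4 hc).1, (w4 hc).2, w3]
  obtain ⟨B, hB⟩ : ∃ B, B = d.R (93 / 100) ∩ Mol.bx W ce := ⟨_, rfl⟩
  have cB : IsCompact B := hB ▸ (Prof.RX_compact hd.ort _ _).inter_right
    (Mol.bx_eq W ce ▸ isClosed_Icc)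
  have hBU : B ⊆ d.R (99 / 100) := hB ▸ inter_subset_left.trans
    (Prof.RX_mono _ g.D_pos.le (by norm_num))
  have hBW : ∀ x ∈ B, ∀ i, |x i - ce i| ≤ W i := fun x hx => (hB ▸ hx).2
  obtain ⟨x0, u0, v0⟩ : ∃ x0 ∈ d.R (99 / 100), ∀ x ∈ B, ∀ i,
      |x i - x0 i| ≤ 2 * (np d.c.N (51 / 100) * d.c.lam) := by
    rcases B.eq_empty_or_nonempty with h | ⟨x0, h⟩
    · exact ⟨0, Prof.zero_mem_RX _ g.D_pos.le (by norm_num), fun x hx => by rw [h] at hx; exact hx.elim⟩
    · refine ⟨x0, hBU h, fun x hx i => ?_⟩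
      linarith [abs_sub_le (x i) (ce i) (x0 i), abs_sub_comm (ce i) (x0 i), hBW x hx i,
        hBW x0 h i, hW' i]
  have r5 := ro_le g hA
  have n0 := g.big.nu_pos
  obtain ⟨Y, sY, d0, d1, d2⟩ := HM (Z := fun x => d.Z x + s.U x) (B := B) (U := d.R (99 / 100))
    (τ := tau d.c) (h := d.c.hs) (ContDiff.add hd.sZ hs.sm.1) pl g.one_le_ro (fun x hx y hy => by
      have h3 : ‖y - x‖ ≤ d.c.lam := Prof.norm_le_of hy
      have h4 := Prof.RX_add hd.ort (s := 6 / 100) (hB ▸ hx).1 (y := y)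
        (by linarith [DomP.y_le_D g, DomP.lam_le_y g])
      norm_num at h4
      exact h4) (zb g hd hs hA) (by positivity) (DomP.lam_le_hs g)
    (fun j hj => by
      fin_cases j
      exacts [le_rfl, g.lam_le_l1, absurd rfl hj])
    (fun j => by
      fin_cases j
      exacts [le_rfl, le_rfl, DomP.lam_le_y g])
    (le_trans (by
      have := mul_le_mul_of_nonneg_right r5 n0.le
      show _ ≤ 9 * d.c.J ^ 5 * nu d.c.N
      linarith) (tl g (k := 9) 5 (by norm_num) (by norm_num) (by norm_num) (by norm_num)))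
    (le_trans (by
      have h3 : Cm ≤ d.c.J := e1.trans g.big.q_le_J
      have h4 := g.ro_pos
      calc d.c.ro ^ 2 * Cm * (3 * nu d.c.N) ≤ (d.c.J ^ 5) ^ 2 * d.c.J * (3 * nu d.c.N) := by gcongr
        _ = 3 * d.c.J ^ 11 * np d.c.N (-49 / 100) := by unfold nu; ring)
      ((tl g (k := 3) 11 (by norm_num) (by norm_num) (by norm_num) (by norm_num)).trans (tau_le g)))
  have q1 : 1 ≤ qp d.c.N (1 / 100) := (qp_zero d.c.N).ge.trans (g.big.qp_le (by norm_num))
  have wd : ∀ i, Wd d.c.ro d.c.lam d.c.hs B (fun x => Ψm x i) (qp d.c.N (1 / 100) * d.c.hs i)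
      (tau d.c) (fun x => d.Z x + s.U x) Y (fun x => d.S x - s.C x) (d.S x0 - s.C x0) := fun i =>
    { hp := fun j => by
        fin_cases j
        exacts [p1, pl, pl]
      hh := g.hs_pos
      he := fun j hj => by
        fin_cases j
        exacts [rfl, rfl, absurd rfl hj]
      cB := cB
      sm := hw.sm.1.coord i
      z := fun x hx => by
        have : Ψm x = 0 := by
          by_contra h
          exact hx (hB ▸ (hw.sup x).1 h)
        rw [this]; rfl
      cb := ((hw.bA hA).1 i).1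
      lat := fun j hj x => (((hw.bA hA).1 i).2 j x hj).trans (mul_le_mul
        (by linarith [tl0 g one_pos (by norm_num) (show (-2 / 5 : ℝ) ≤ -1 / 100 by norm_num)])
        (le_mul_of_one_le_left (g.hs_pos i).le q1) (g.hs_pos i).le τp.le)
      cZ := (k0 0).dZ.continuous
      sY := sY
      d0 := d0
      d1 := d1
      d2 := d2
      p0 := (k0 0).bS x0 u0
      p1 := fun x hx => ⟨(k0 0).bS x (hBU hx), freeze g hd hs (CBl.monoB
        (Ha d.O d.c.D hd.ort g.D_pos).1.2.1 (e2.trans g.big.q_le_J)) (hBU hx) u0 (v0 x hx)⟩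
      τ0 := τp.le
      τ1 := tau_le g }
  have hρ : ∀ x, |d.ρ x| ≤ 2 := fun x => by
    have := abs_le.1 (hd.rho.2 x)
    have : eps0 ≤ 1 := by unfold eps0; norm_num
    rw [abs_le]; constructor <;> linarith
  have eL : ∫ t in (ce 2 - W 2)..(ce 2 + W 2),
      (Real.sqrt (av (enr d.c.ro d.c.lam d.ρ) ce W t) + tau d.c) = (∫ t in (ce 2 - W 2)..(ce 2 + W 2),
      Real.sqrt (d.eav (ce 0) (ce 1) (W 0) (W 1) t)) + W 2 / d.c.J ^ 15 := by
    rw [intervalIntegral.integral_add ((intervalIntegrable_iff_integrableOn_Icc_of_le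
      (by linarith)).2 (int_bd measure_Icc_lt_top.ne (av_meas hW me he).sqrt (c := Real.sqrt Ce)
        fun t => by
          rw [abs_of_nonneg (Real.sqrt_nonneg _)]
          exact Real.sqrt_le_sqrt (av_bd hW me he t).2)) intervalIntegrable_const,
      intervalIntegral.integral_const, smul_eq_mul, tau]
    congr 1
    field_simp
    ring
  have one : ∀ i, ∀ l ∈ LL 5, ∑ γ ∈ d.cells,
      d.sq2 l i (tot (d.ch γ) (d.c.cf γ (d.Fv d.S s Ψm) i)) / d.wl l ^ 2 ≤
      P * qp d.c.N (1 / 100) ^ 2 * (d.c.GG ^ 2 / qp d.c.N (9 / 10)) := fun i l hl => by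
    have T := fun γ => ct g hb (Hb d.c γ)
    have cn := fun γ => (ch g hd γ).sm.continuous
    have M := main d.cells HK (by linarith) (wd i) τp (ch g hd) T (ov g _) (k0 0).cx (k0 0).cl
      (k0 0).dZ (k0 0).bZ hBU hW hBW me he H5 hρ (LL_len hl) (LL_lat hl)
      fun γ w => (rep (k1 i) (T γ) (cn γ) (LL_lat hl)).1
    have pi := g.hs_pos i
    have hwl : 1 / d.wl l ^ 2 ≤ (if l = [] then tau d.c else 1) ^ 2 := by
      unfold MD.wl
      split_ifs
      · rw [← _root_.one_div_pow]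
        exact pow_le_pow_left₀ (one_div_pos.2 g.big.pA_pos).le
          ((div_le_iff₀ g.big.pA_pos).2 (tau_pA g)) 2
      · simp
    rw [eL] at M
    refine (Finset.sum_le_sum (g := fun γ => (∫ w : ℝ × ℝ, ((if l = [] then tau d.c else 1) *
      (hp d.c.hs l * ∫ x, d.ρ x * (Ψm x i * kap (d.ch γ) (d.c.bc γ) l (d.S x - s.C x)
        (d.Z x + s.U x) ![w.1, w.2, 0]))) ^ 2) / (d.c.hs i ^ 2 * (d.c.l1 * d.c.lam)))
      fun γ _ => ?_).trans ?_
    · have e : ∀ w, pds l (tot (d.ch γ) (d.c.cf γ (d.Fv d.S s Ψm) i)) w = -∫ x, d.ρ x *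
          (Ψm x i * kap (d.ch γ) (d.c.bc γ) l (d.S x - s.C x) (d.Z x + s.U x) w) := fun w => by
        rw [d.cf_eq, ← integral_neg]
        exact (rep (k0 i) (T γ) (cn γ) (LL_lat hl)).2.trans
          (integral_congr_ae (Eventually.of_forall fun x => by simp only [MD.aw]; ring))
      simp only [MD.sq2, e, mul_neg, neg_sq, mul_pow (if l = [] then tau d.c else 1),
        integral_const_mul]
      rw [div_eq_mul_one_div, mul_comm, mul_div_assoc]
      exact mul_le_mul_of_nonneg_right hwl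
        (div_nonneg (integral_nonneg fun w => sq_nonneg _) (by positivity))
    rw [← Finset.sum_div]
    refine (div_le_div_of_nonneg_right M (by positivity)).trans (le_trans (le_of_eq ?_)
      (mul_le_mul_of_nonneg_left (hw.bA hA).2 (by positivity)))
    rw [hP]
    field_simp
  have c5 : ((LL 5).card : ℝ) ≤ 64 := (card_LL_le 5).trans (by norm_num)
  have q9 := g.big.qp_pos (9 / 10)
  have q8 := g.big.qp_pos (4 / 5)
  have R0 : 0 ≤ P * qp d.c.N (1 / 100) ^ 2 * (d.c.GG ^ 2 / qp d.c.N (9 / 10)) := by positivity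
  have fin : 128 * (P * qp d.c.N (1 / 100) ^ 2 * (d.c.GG ^ 2 / qp d.c.N (9 / 10))) ≤ d.U2 / 4 := by
    have e : qp d.c.N (9 / 10) = qp d.c.N (8 / 100) * (qp d.c.N (1 / 100) ^ 2 * qp d.c.N (4 / 5)) := by
      rw [sq, ← g.big.qp_add, ← g.big.qp_add, ← g.big.qp_add]; norm_num
    have h3 := mul_le_mul_of_nonneg_right e3
      (by positivity : 0 ≤ qp d.c.N (1 / 100) ^ 2 * qp d.c.N (4 / 5))
    have h4 := mul_le_mul_of_nonneg_right h3 (sq_nonneg d.c.GG)
    rw [← e] at h4
    rw [MD.U2, div_div, ← mul_div_assoc, ← mul_div_assoc, div_le_div_iff₀ q9 (by positivity)]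
    linarith
  rw [MD.Hn, if_pos hc, add_zero, Finset.sum_comm]
  refine le_trans (Finset.sum_le_card_nsmul _ _ (64 * (P * qp d.c.N (1 / 100) ^ 2 *
    (d.c.GG ^ 2 / qp d.c.N (9 / 10)))) fun i _ => ?_) (le_trans (le_of_eq ?_) fin)
  · rw [Finset.sum_comm]
    refine (Finset.sum_le_card_nsmul _ _ _ (one i)).trans ?_
    rw [nsmul_eq_mul]
    exact mul_le_mul_of_nonneg_right c5 R0
  · rw [Finset.card_pair (by decide), nsmul_eq_mul]
    push_cast
    ring

end
end Pool.Agent.MP_20bec2_an.T3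

end MrgPart5

-- marker of a merged file
example : 731051 + 602946 = 731051 + 602946 := rfl

end MrgPart1

-- marker of a merged file
example : 731051 + 602946 = 731051 + 602946 := rfl
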