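import Mathlib.Combinatorics.Matroid.Basic
import Pool.Agent.MP_20bec2_an.T3.Runm
import Pool.Agent.MP_20bec2_an.T3.Par3
import Pool.Agent.MP_20bec2_an.T3.Zt
import Pool.Agent.MP_20bec2_an.T3.Final
import Pool.Agent.MP_20bec2_an.T3.K4
import Pool.Agent.MP_20bec2_an.T3.CrA
import Pool.Agent.MP_20bec2_an.T3.Par4
import Pool.Agent.MP_20bec2_an.T3.Calc1b
import Pool.Agent.MP_20bec2_an.T3.Calc2C
import Pool.Agent.MP_20bec2_an.T3.Kvar

-- ======== part 0: formerly Pool.Agent.MP_20bec2_an.T3.Finn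
section MrgPart0

/-! Row FINN: the envelope of the column integrals near the sites. -/

set_option autoImplicit false
open MeasureTheory Set Filter Matrix Topology

namespace Pool.Agent.MP_20bec2_an.T3
noncomputable section
open Classical

namespace FinnP

/-- a good state is close to itself -/
lemma gw_of_gs {d : MD} (h : Gd d.c) {s : Sa} (H : d.Gs s) : d.Gw s := by
  have h1 := (h.big.np_pos (-270)).le
  have h2 := h.lam_pos.le
  refine ⟨s, H, H.sm, fun x => ⟨(H.sup x).1, (H.sup x).2.2.1⟩, fun x => ⟨?_, fun i j => ?_,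
    fun i j => ?_, ?_⟩⟩
  · rw [sub_self, norm_zero]; positivity
  · rw [sub_self]; simpa [cm] using h1
  · rw [sub_self]; simpa [cm] using mul_nonneg h1 (sq_nonneg d.c.lam)
  · rw [sub_self, abs_zero]; exact h1

/-- the kernels of the stages of a path -/
def Stage (d : MD) (u : ℕ → V → V) : Prop := ∀ m ∈ Finset.range (nT d.c.N), ∀ i, ∃ A,
  KL d.c.hs (d.R (99 / 100)) (fun x => d.ρ x * u m x i) A (fun x => d.Z x + Up u m x)
    (fun x => d.S x - Cv u m x) ∧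
  KL (d.c.hy d.yL) (d.R (99 / 100)) (fun x => d.ρ x * u m x i) A (fun x => d.Z x + Up u m x)
    (fun x => d.SL x - Cv u m x)

lemma stage (hK : KlsStmt) : EvD fun d => ∀ u ω, d.Path u ω → Stage d u := by
  filter_upwards [hK, ev_gd] with N h1 h2 d hN hk hI u ω hP m hm i
  have hg := h2 d.c hN hI.ok
  have hc := hP.cr m
  have H := (h1 d hN hk hI (d.sa u ω m) (gw_of_gs hg (hP.gs m (Finset.mem_range.1 hm).le))).2
    (fun x => d.ρ x * u m x i) (2 * (d.ep * d.c.q * d.c.hs i))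
    (hI.rho.1.mul (hc.sm.1.coord i).continuous.measurable) (fun x => by
      have e := abs_le.1 (hI.rho.2 x)
      have e0 : eps0 ≤ 1 := by unfold eps0; norm_num
      rw [abs_mul]
      exact mul_le_mul (abs_le.2 ⟨by linarith, by linarith⟩) (hc.sz x i) (abs_nonneg _) zero_le_two)
    (fun x hx => by rw [((hc.sup x).1 hx).1]; simp)
  exact ⟨_, H.1, H.2.2⟩

lemma sm_dens {h : V} {U : Set V} {a : V → ℝ} {A : ℝ} {Z : V → V} {S : V → Mx}
    (H : KL h U a A Z S) : Sm (dens a Z S) := by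
  obtain ⟨_, -, -, hC⟩ := kb_ k1 0
  exact (k1 a Z S (hC h U a A Z S H).1).1

lemma fmain_eq (d : MD) (S : V → Mx) (u : ℕ → V → V) (ω : ℕ → V → ℝ) (T : ℕ) (z : V) (i : Fin 3) :
    fmain d.ρ d.Z S u T z i = ∑ m ∈ Finset.range T, d.Fv S (d.sa u ω m) (u m) z i := by
  simp only [fmain, MD.Fv, MD.sa, Finset.sum_neg_distrib]

lemma pre_sum {ι : Type*} (s : Finset ι) {f : ι → V → ℝ} (H : ∀ i ∈ s, ColD (f i)) {n : ℝ → V}
    (hn : Continuous n) : pre n (fun z => ∑ i ∈ s, f i z) = fun w => ∑ i ∈ s, pre n (f i) w :=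
  funext fun w => congrFun (colI_sum s H hn (Iic (w 2))) w

lemma tot_sum {ι : Type*} (s : Finset ι) {f : ι → V → ℝ} (H : ∀ i ∈ s, ColD (f i)) {n : ℝ → V}
    (hn : Continuous n) : tot n (fun z => ∑ i ∈ s, f i z) = fun w => ∑ i ∈ s, tot n (f i) w := by
  simp only [tot_eq_colI]
  exact colI_sum s H hn univ

/-- a derivative of a sum of stages is the running value of the functional -/
lemma sum_eq {s : Finset ℕ} {f : ℕ → V → ℝ} (H : ∀ m ∈ s, Sm (f m)) (a : ℝ) {b : ℝ} (hb : b ≠ 0)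
    (l : List (Fin 3)) (w : V) : a * pds l (fun z => ∑ m ∈ s, f m z) w =
      (∑ m ∈ s, a * pds l (f m) w / b) * b := by
  rw [pds_sum s H, ← Finset.sum_div, div_mul_cancel₀ _ hb, Finset.mul_sum]

/-- moving the point -/
lemma move {G : V → ℝ} (hG : Sm G) {B Bv δ : ℝ} (hl : ∀ j, j ≠ 2 → ∀ w, |pd j G w| ≤ B)
    (hv : ∀ w, |pd 2 G w| ≤ Bv) {w w' : V} (hw : ∀ j, |w j - w' j| ≤ δ) :
    |G w| ≤ |G w'| + (2 * B + Bv) * δ := by
  have hB : 0 ≤ B := (abs_nonneg _).trans (hl 0 (by decide) w)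
  have hBv : 0 ≤ Bv := (abs_nonneg _).trans (hv w)
  have := mvt_pd convex_univ (fun y _ => hG.dif y) (b := ![B, B, Bv]) (fun i y _ => by
    fin_cases i
    exacts [hl 0 (by decide) y, hl 1 (by decide) y, hv y]) (mem_univ w) (mem_univ w')
  rw [Fin.sum_univ_three] at this
  have h0 := mul_le_mul_of_nonneg_left (hw 0) hB
  have h1 := mul_le_mul_of_nonneg_left (hw 1) hB
  have h2 := mul_le_mul_of_nonneg_left (hw 2) hBv
  have h3 := abs_sub_abs_le_abs_sub (G w) (G w')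
  simp only [Matrix.cons_val_zero, Matrix.cons_val_one, Matrix.cons_val] at this
  linarith

/-- the crude size of the running values -/
def cr (N : ℕ) : ℝ := 2 * qp N (1 / 10) * Real.sqrt (pJ N)

lemma ev_cr (C : ℝ) : ∀ᶠ N : ℕ in atTop, C * cr N * np N (-15) ≤ 1 := by
  filter_upwards [ev_CqJ_np (2 * C) (1 / 10) (1 / 2) (c := 15) (by norm_num), ev_big] with N h1 h2
  have e : np N 15 * np N (-15) = 1 := by rw [← h2.np_add]; norm_num [np_zero]
  rw [← e]
  refine mul_le_mul_of_nonneg_right (le_trans (le_of_eq ?_) h1) (h2.np_pos _).le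
  rw [cr, Real.sqrt_eq_rpow, Jp]; ring

lemma q_lam_le {c : Pm} (h : Gd c) : c.q * c.lam ≤ c.GG := by
  refine le_of_log (mul_pos h.q_pos h.lam_pos) h.GG_pos ?_
  rw [Real.log_mul h.q_pos.ne' h.lam_pos.ne', h.log_q]
  linarith [h.log_GG_bd.1, h.big.L_ge, h.big.J_ge]

lemma lam_le_GG {c : Pm} (h : Gd c) : c.lam ≤ c.GG :=
  le_trans (le_mul_of_one_le_left h.lam_pos.le (by linarith [h.big.q_ge, show c.q = pq c.N from rfl]))
    (q_lam_le h)

lemma lam_le_hs {c : Pm} (h : Gd c) {j : Fin 3} (hj : j ≠ 2) : c.lam ≤ c.hs j := by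
  fin_cases j
  · exact le_mul_of_one_le_left h.lam_pos.le h.one_le_ro
  · exact le_rfl
  · exact absurd rfl hj

lemma hs_le_cw {c : Pm} (h : Gd c) (j : Fin 3) : c.hs j ≤ c.cw j := by
  have hA : 1 ≤ pA c.N := one_le_pow₀ (by linarith [h.big.J_ge, h.big.L_ge])
  fin_cases j
  · exact le_mul_of_one_le_left h.l1_pos.le hA
  · exact le_mul_of_one_le_left h.lam_pos.le hA
  · refine le_of_log h.y_pos h.L_pos ?_
    show Real.log c.y ≤ Real.log c.L
    rw [h.log_y, h.log_L]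
    linarith [h.big.J_ge, h.big.L_ge]

lemma lam_le_cw {c : Pm} (h : Gd c) (j : Fin 3) : c.lam ≤ c.cw j := by
  refine le_trans ?_ (hs_le_cw h j)
  by_cases hj : j = 2
  · subst hj
    refine le_mul_of_one_le_left h.lam_pos.le ?_
    rw [← np_zero c.N]; exact h.big.np_le (by norm_num)
  · exact lam_le_hs h hj

/-- the value at the site and the error of the move give the envelope -/
lemma fin_le {X x a E v : ℝ} (hx : 0 ≤ x) (hX : X ^ 2 ≤ x) (ha : 0 ≤ a) (hE : E ≤ a / 2)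
    (hv : v ≤ |X * (a / 2)| + E) : v ≤ a * Real.sqrt (1 + x) := by
  have h1 : |X| ≤ Real.sqrt (1 + x) := Real.abs_le_sqrt (by linarith)
  have h2 : 1 ≤ Real.sqrt (1 + x) := Real.le_sqrt_of_sq_le (by linarith)
  rw [abs_mul, abs_of_nonneg (by linarith : 0 ≤ a / 2)] at hv
  nlinarith

/-- lateral bounds of order one more -/
lemma lat_le {c : Pm} (h : Gd c) {P : V → ℝ} {l : List (Fin 3)} {j : Fin 3} (hj : j ≠ 2) {w : V}
    {B : ℝ} (H : |hp c.hs (j :: l) * pds (j :: l) P w| ≤ B) :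
    |pd j (fun w => hp c.hs l * pds l P w) w| ≤ B / c.lam := by
  rw [pd_const_mul, le_div_iff₀ h.lam_pos]
  refine le_trans (mul_le_mul_of_nonneg_left (lam_le_hs h hj) (abs_nonneg _)) (le_trans (le_of_eq ?_) H)
  rw [hp_cons, pds, mul_assoc, abs_mul (c.hs j), abs_of_pos (h.hs_pos j), mul_comm]

/-- the cells that are near a point of a small ball around `p` -/
def cel (c : Pm) (p : V) : Finset Cu :=
  Fintype.piFinset fun i => Finset.Icc (⌊p i / c.cw i⌋ - 1) (⌊p i / c.cw i⌋ + 2)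

lemma card_cel (c : Pm) (p : V) : (cel c p).card = 64 := by
  have : ∀ a : ℤ, (Finset.Icc (a - 1) (a + 2)).card = 4 := fun a => by
    rw [Int.card_Icc, show a + 2 + 1 - (a - 1) = 4 by ring]; rfl
  simp only [cel, Fintype.card_piFinset, this]
  simp

lemma mem_cel {c : Pm} (h : Gd c) {g : Cu} {z p : V} (hg : c.Near g z)
    (hz : ∀ i, |z i - p i| ≤ c.lam / 2) : g ∈ cel c p := by
  refine Fintype.mem_piFinset.2 fun i => ?_
  have h1 := abs_le.1 (hg i)
  have h2 : |z i / c.cw i - p i / c.cw i| ≤ 1 / 2 := by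
    rw [← sub_div, abs_div, abs_of_pos (h.cw_pos i), div_le_iff₀ (h.cw_pos i)]
    linarith [hz i, lam_le_cw h i]
  have h3 := abs_le.1 h2
  have h4 := Int.floor_le (p i / c.cw i)
  have h5 := Int.lt_floor_add_one (p i / c.cw i)
  rw [Finset.mem_Icc]
  constructor
  · have : ((⌊p i / c.cw i⌋ - 2 : ℤ) : ℝ) < g i := by push_cast; linarith
    have := Int.cast_lt.1 this
    omega
  · have : (g i : ℝ) < ((⌊p i / c.cw i⌋ + 3 : ℤ) : ℝ) := by push_cast; linarith
    have := Int.cast_lt.1 this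
    omega

def idx (c : Pm) (p : V) : Finset (Cu × Fin 3 × List (Fin 3)) := cel c p ×ˢ ({0, 1} : Finset (Fin 3)) ×ˢ LL 2

lemma card_idx (c : Pm) (p : V) : (idx c p).card ≤ 1000 := by
  have := card_LL_lt 2
  rw [idx, Finset.card_product, Finset.card_product, card_cel, Finset.card_pair (by decide)]
  omega

lemma mem_idx {c : Pm} {p : V} {t : Cu × Fin 3 × List (Fin 3)} :
    t ∈ idx c p ↔ t.1 ∈ cel c p ∧ t.2.1 ≠ 2 ∧ t.2.2 ∈ LL 2 := by
  have : ∀ i : Fin 3, i ∈ ({0, 1} : Finset (Fin 3)) ↔ i ≠ 2 := by decide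
  rw [idx, Finset.mem_product, Finset.mem_product, this]

lemma kP_mem (d : MD) (g : Cu) (w : V) {l : List (Fin 3)} (hl : l ∈ LL 3) {i : Fin 3} (hi : i ≠ 2) :
    d.kP g w l i ∈ d.FamC :=
  Or.inr ⟨w 1, Or.inr ⟨w 2, w, rfl, Or.inl ⟨g, l, hl, i, hi, Or.inl ⟨rfl, rfl⟩⟩⟩⟩

lemma kT_mem (d : MD) (g : Cu) (w : V) {l : List (Fin 3)} (hl : l ∈ LL 3) {i : Fin 3} (hi : i ≠ 2) :
    d.kT g w l i ∈ d.FamC :=
  Or.inr ⟨w 1, Or.inr ⟨10 * d.c.D, w, rfl, Or.inl ⟨g, l, hl, i, hi, Or.inr ⟨rfl, rfl⟩⟩⟩⟩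

lemma kB_mem (d : MD) (z : V) {l : List (Fin 3)} (hl : l.length ≤ 3) {i : Fin 3} (hi : i ≠ 2) :
    d.kB z l i ∈ d.FamC :=
  Or.inr ⟨z 1, Or.inl ⟨z, i, rfl, hi, Or.inl ⟨l, hl, rfl⟩⟩⟩

/-- the functionals of one site -/
def Ms (d : MD) (s : Cu) : Finset Fn :=
  (idx d.c (d.pz s)).image (fun t => d.kP t.1 (cin (d.ch t.1) (d.pz s)) t.2.2 t.2.1) ∪
  (idx d.c (d.pz s)).image (fun t => d.kT t.1 (cin (d.ch t.1) (d.pz s)) t.2.2 t.2.1)

lemma Ms_ok (d : MD) (s : Cu) : ↑(Ms d s) ⊆ d.Fam ∧ (Ms d s).card ≤ 2000 := by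
  refine ⟨fun Λ hΛ => Or.inl ?_, (Finset.card_union_le _ _).trans ?_⟩
  · rcases Finset.mem_union.1 (Finset.mem_coe.1 hΛ) with h | h
    · obtain ⟨t, ht, rfl⟩ := Finset.mem_image.1 h
      exact kP_mem d _ _ (LL_mono (by norm_num) (mem_idx.1 ht).2.2) (mem_idx.1 ht).2.1
    · obtain ⟨t, ht, rfl⟩ := Finset.mem_image.1 h
      exact kT_mem d _ _ (LL_mono (by norm_num) (mem_idx.1 ht).2.2) (mem_idx.1 ht).2.1
  · have := card_idx d.c (d.pz s)
    exact (add_le_add Finset.card_image_le Finset.card_image_le).trans (by omega)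

/-- chart coordinates of close points are close -/
lemma cin_close {c : Pm} (h : Gd c) {ch : Cu → ℝ → V} (H : c.ChB ch) (g : Cu) {z p : V} {δ : ℝ}
    (hz : ∀ i, |z i - p i| ≤ δ) (j : Fin 3) : |cin (ch g) z j - cin (ch g) p j| ≤ 2 * δ := by
  have hδ : 0 ≤ δ := (abs_nonneg _).trans (hz 0)
  have key : ∀ i, i ≠ 2 → |z i - ch g (z 2) i - (p i - ch g (p 2) i)| ≤ 2 * δ := fun i hi => by
    have h1 := Convex.norm_image_sub_le_of_norm_deriv_le (f := fun r => ch g r i) (C := 1)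
      (fun x _ => ((H.2 g).1.coord i).dif x) (fun x _ => by
        refine ((H.2 g).2 i hi x).2.1.trans ?_
        rw [← np_zero c.N]; exact h.big.np_le (by norm_num)) convex_univ (mem_univ (p 2))
      (mem_univ (z 2))
    simp only [Real.norm_eq_abs, one_mul] at h1
    have h2 := abs_sub (z i - p i) (ch g (z 2) i - ch g (p 2) i)
    rw [show z i - ch g (z 2) i - (p i - ch g (p 2) i) =
      z i - p i - (ch g (z 2) i - ch g (p 2) i) by ring]
    linarith [hz i, hz 2]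
  fin_cases j
  · exact key 0 (by decide)
  · exact key 1 (by decide)
  · exact (hz 2).trans (by linarith)

end FinnP
open FinnP

theorem finn (hK : KlsStmt) : FinnStmt := by
  obtain ⟨C, hC1, hC⟩ := Prof.cb_bc 2
  filter_upwards [stage hK, ev_gd, ev_cr (100 * C)] with N h1 h2 h3 d hN hk hI
  refine ⟨Ms d, Ms_ok d, fun u ω hP xs hx0 hx s hs z hz g hg i hi => ?_⟩
  have hd := h2 d.c hN hI.ok
  have hS := h1 d hN hk hI u ω hP
  subst hN
  have hh := hd.hs_pos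
  have hn : Sm (d.ch g) := (hI.chb.2 g).1
  have hG := hd.GG_pos
  have hl0 := hd.lam_pos
  have hcr : ∀ Λ ∈ d.FamC, |d.X Λ u ω (nT d.c.N)| ≤ cr d.c.N := hP.cru _ le_rfl
  have hcr0 : 0 ≤ cr d.c.N := (abs_nonneg _).trans (hcr _ (kB_mem d z (l := []) (by simp) hi))
  have hsm : ∀ m ∈ Finset.range (nT d.c.N), Sm fun z => d.Fv d.S (d.sa u ω m) (u m) z i :=
    fun m hm => by obtain ⟨A, H, -⟩ := hS m hm i; exact ContDiff.neg (sm_dens H)
  have hco : ∀ m ∈ Finset.range (nT d.c.N), ColD (d.c.cf g (d.Fv d.S (d.sa u ω m) (u m)) i) :=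
    fun m hm => ColD.of_compact ((Prof.bc_sm d.c g).mul (hsm m hm))
      (Prof.bc_hcs hd.cw_pos g).mul_right
  set F := fmain d.ρ d.Z d.S u (nT d.c.N) with hF
  have eF : (fun z => F z i) = fun z => ∑ m ∈ Finset.range (nT d.c.N),
      d.Fv d.S (d.sa u ω m) (u m) z i := funext fun z => fmain_eq d d.S u ω _ z i
  have eC : d.c.cf g F i = fun z => ∑ m ∈ Finset.range (nT d.c.N),
      d.c.cf g (d.Fv d.S (d.sa u ω m) (u m)) i z := funext fun z => by
    simp only [Pm.cf, ← Finset.mul_sum]; rw [congrFun eF z]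
  have hcF : ColD (d.c.cf g F i) := by rw [eC]; exact ColD.sum _ hco
  have hw : ∀ l : List (Fin 3), l ≠ [] → d.c.hs i * (d.c.GG / 2) * d.wl l = d.c.hs i * d.c.GG / 2 :=
    fun l hl => by rw [MD.wl, if_neg hl]; ring
  have ha : 0 < d.c.hs i * d.c.GG := mul_pos (hh i) hG
  have eP : ∀ l : List (Fin 3), l ≠ [] → ∀ w, hp d.c.hs l * pds l (pre (d.ch g) (d.c.cf g F i)) w =
      d.X (d.kP g w l i) u ω (nT d.c.N) * (d.c.hs i * d.c.GG / 2) := fun l hl w => by
    rw [eC, pre_sum _ hco hn.continuous, sum_eq (fun m hm => (hco m hm).sm_pre hn) _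
      (half_pos ha).ne']
    simp only [MD.X, MD.kP, hw l hl]
  have eT : ∀ l : List (Fin 3), l ≠ [] → ∀ w, hp d.c.hs l * pds l (tot (d.ch g) (d.c.cf g F i)) w =
      d.X (d.kT g w l i) u ω (nT d.c.N) * (d.c.hs i * d.c.GG / 2) := fun l hl w => by
    rw [eC, tot_sum _ hco hn.continuous, sum_eq (fun m hm => (hco m hm).sm_tot hn.continuous) _
      (half_pos ha).ne']
    simp only [MD.X, MD.kT, hw l hl]
  have hFs : Sm fun z => F z i := by rw [eF]; exact ContDiff.sum hsm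
  have hFb : CB 2 d.c.hs univ (fun z => F z i) (cr d.c.N * d.c.hs i) := fun l hl w _ => by
    have p := hd.big.np_pos (-285 / 1000)
    have p1 : np d.c.N (-285 / 1000) ≤ 1 := by
      rw [← np_zero d.c.N]; exact hd.big.np_le (by norm_num)
    have e := sum_eq hsm (hp d.c.hs l) (mul_pos p (hh i)).ne' l w
    have b := hcr _ (kB_mem d w (l := l) (le_trans hl (by norm_num)) hi)
    rw [← abs_of_pos (hp_pos hh l), ← abs_mul, eF, e, abs_mul, abs_of_pos (mul_pos p (hh i))]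
    exact mul_le_mul b (mul_le_of_le_one_left (hh i).le p1) (mul_pos p (hh i)).le hcr0
  have hCb : CB 2 d.c.hs univ (d.c.cf g F i) (2 ^ 2 * C * (cr d.c.N * d.c.hs i)) :=
    CB.mul (fun j => (hh j).le) (Prof.bc_sm d.c g) hFs
      (CBl.monoh (hC d.c g) (fun j => (hh j).le) (hs_le_cw hd)) hFb
  have hz' : ∀ j, |z j - d.pz s j| ≤ np d.c.N (-15) * d.c.lam := fun j =>
    ((norm_le_pi_norm (z - d.pz s) j).trans hz).trans
      (mul_le_mul_of_nonneg_right (hd.big.np_le (by norm_num)) hl0.le)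
  have p15 := hd.big.np_pos (-15)
  have hcl := cin_close hd hI.chb g hz'
  have hgc : g ∈ cel d.c (d.pz s) := mem_cel hd hg fun j => (hz' j).trans (by
    have : np d.c.N (-15) ≤ 1 / 2 := by
      refine le_of_log p15 (by norm_num) ?_
      rw [hd.big.log_np, one_div, Real.log_inv]
      linarith [log2_bd.2, hd.big.J_ge, hd.big.L_ge]
    nlinarith)
  have hE : (2 * (cr d.c.N * (d.c.hs i * d.c.GG / 2) / d.c.lam) + 2 ^ 2 * C * (cr d.c.N * d.c.hs i)) *
      (2 * (np d.c.N (-15) * d.c.lam)) ≤ d.c.hs i * d.c.GG / 2 := by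
    have e : (2 * (cr d.c.N * (d.c.hs i * d.c.GG / 2) / d.c.lam) +
        2 ^ 2 * C * (cr d.c.N * d.c.hs i)) * (2 * (np d.c.N (-15) * d.c.lam)) =
        d.c.hs i * (cr d.c.N * np d.c.N (-15)) * (2 * d.c.GG + 8 * C * d.c.lam) := by
      field_simp; ring
    have b0 : 0 ≤ cr d.c.N * np d.c.N (-15) := mul_nonneg hcr0 p15.le
    have b1 : 2 * d.c.GG + 8 * C * d.c.lam ≤ 10 * C * d.c.GG := by
      nlinarith [lam_le_GG hd]
    have b2 := mul_le_mul_of_nonneg_left b1 (mul_nonneg (hh i).le b0)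
    have b3 := mul_le_mul_of_nonneg_left h3 ha.le
    rw [e]; nlinarith
  have hX := (hx s hs).2
  constructor
  · rintro l hl w rfl
    obtain ⟨hl2, hl0'⟩ := latL_iff.1 hl
    have hm : (g, i, l) ∈ idx d.c (d.pz s) := mem_idx.2 ⟨hgc, hi, hl2⟩
    have key := move (((hcF.sm_pre hn).pds l).cmul (hp d.c.hs l))
      (B := cr d.c.N * (d.c.hs i * d.c.GG / 2) / d.c.lam) (Bv := 2 ^ 2 * C * (cr d.c.N * d.c.hs i))
      (fun j hj w => lat_le hd hj (by
        rw [eP _ (List.cons_ne_nil _ _), abs_mul, abs_of_pos (half_pos ha)]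
        exact mul_le_mul_of_nonneg_right (hcr _ (kP_mem d g w (cons_mem_LL.2 ⟨hj, hl2⟩) hi))
          (half_pos ha).le))
      (fun w => by
        rw [pd_const_mul, hcF.pds_pre hn.continuous hl.2.2, (hcF.pds l).pd_two_pre hn.continuous,
          abs_mul, abs_of_pos (hp_pos hh l)]
        exact hCb l hl.2.1 _ (mem_univ _)) hcl
    rw [← abs_of_pos (hp_pos hh l), ← abs_mul]
    rw [eP l hl0' (cin (d.ch g) (d.pz s))] at key
    exact fin_le (hx0 s) (hX _ (Finset.mem_union_left _ (Finset.mem_image_of_mem _ hm))) ha.le hE key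
  · rintro l hl w rfl
    obtain ⟨hl2, hl0'⟩ := latL_iff.1 hl
    have hm : (g, i, l) ∈ idx d.c (d.pz s) := mem_idx.2 ⟨hgc, hi, hl2⟩
    have key := move (((hcF.sm_tot hn.continuous).pds l).cmul (hp d.c.hs l))
      (B := cr d.c.N * (d.c.hs i * d.c.GG / 2) / d.c.lam) (Bv := 2 ^ 2 * C * (cr d.c.N * d.c.hs i))
      (fun j hj w => lat_le hd hj (by
        rw [eT _ (List.cons_ne_nil _ _), abs_mul, abs_of_pos (half_pos ha)]
        exact mul_le_mul_of_nonneg_right (hcr _ (kT_mem d g w (cons_mem_LL.2 ⟨hj, hl2⟩) hi))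
          (half_pos ha).le))
      (fun w => by
        have e := congrFun (hcF.pds_colI' hn.continuous univ (2 :: l)) w
        rw [if_pos List.mem_cons_self, ← tot_eq_colI, pds] at e
        rw [pd_const_mul, e, mul_zero, abs_zero]
        exact hCb.nonneg (mem_univ w)) hcl
    rw [← abs_of_pos (hp_pos hh l), ← abs_mul]
    rw [eT l hl0' (cin (d.ch g) (d.pz s))] at key
    exact fin_le (hx0 s) (hX _ (Finset.mem_union_right _ (Finset.mem_image_of_mem _ hm))) ha.le hE key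

end
end Pool.Agent.MP_20bec2_an.T3

end MrgPart0

-- ======== part 1: formerly Pool.Agent.MP_20bec2_an.T3.Finl
section MrgPart1

/-! Row FINL: long vertical integrals between two sites. -/

set_option autoImplicit false
open MeasureTheory Set Filter Matrix Topology

namespace Pool.Agent.MP_20bec2_an.T3
noncomputable section
open Classical

namespace FinlP
open FinnP

/-- a density is dominated along columns -/
lemma cold_dens (hC : ColkStmt) {h : V} {U : Set V} {a : V → ℝ} {A : ℝ} {Z : V → V} {S : V → Mx}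
    (H : KL h U a A Z S) : ColD (dens a Z S) := by
  obtain ⟨_, -, hC⟩ := hC
  have := (((hC h (fun _ => 0) 0 H.hh (sm_const 0) (fun i _ => ⟨fun r => by simp, by
    have := H.hh i; rw [zero_mul]; positivity⟩) (by norm_num)).1 (fun _ => 1) 1 univ (sm_const 1)
    (BdD.const 1) (cb_const (by simp)) MeasurableSet.univ).1 U a A Z S H).1
  simpa only [one_mul] using this

lemma cpt_zero (w : V) : cpt 0 w (w 2) = w := by
  funext j; fin_cases j <;> simp [cpt]

lemma kL_mem {d : MD} (hc : ¬ d.c.comp) (w : V) {l : List (Fin 3)} (hl : l ∈ LL 2) (h0 : l ≠ []) :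
    d.kL w l ∈ d.FamC :=
  Or.inr ⟨w 1, Or.inr ⟨w 2, w, rfl, Or.inr ⟨hc, rfl, l, hl, h0, rfl⟩⟩⟩

lemma kV_mem {d : MD} (hc : ¬ d.c.comp) (z : V) {i : Fin 3} (hi : i ≠ 2) : d.kV z i ∈ d.FamC :=
  Or.inr ⟨z 1, Or.inl ⟨z, i, rfl, hi, Or.inr (Or.inr ⟨hc, rfl⟩)⟩⟩

lemma one_mem {i : Fin 3} (hi : i ≠ 2) (n : ℕ) : [i] ∈ LL (n + 1) :=
  cons_mem_LL.2 ⟨hi, nil_mem_LL n⟩

/-- the functionals of one site -/
def Ml (d : MD) (s : Cu) : Finset Fn :=
  if d.c.comp then ∅ else {d.kL (d.pl s) [0], d.kL (d.pl s) [1]}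

lemma Ml_ok (d : MD) (s : Cu) : ↑(Ml d s) ⊆ d.Fam ∧ (Ml d s).card ≤ 2000 := by
  unfold Ml
  split_ifs with hc
  · simp
  · refine ⟨fun Λ hΛ => Or.inl ?_, Finset.card_le_two.trans (by norm_num)⟩
    rcases Finset.mem_insert.1 (Finset.mem_coe.1 hΛ) with rfl | h
    · exact kL_mem hc _ (one_mem (by decide) 1) (List.cons_ne_nil _ _)
    · rw [Finset.mem_singleton.1 h]
      exact kL_mem hc _ (one_mem (by decide) 1) (List.cons_ne_nil _ _)

lemma mem_Ml {d : MD} (hc : ¬ d.c.comp) (s : Cu) {i : Fin 3} (hi : i ≠ 2) :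
    d.kL (d.pl s) [i] ∈ Ml d s := by
  rw [Ml, if_neg hc]
  fin_cases i
  · exact Finset.mem_insert_self _ _
  · exact Finset.mem_insert_of_mem (Finset.mem_singleton_self _)
  · exact absurd rfl hi

/-- the integral along a vertical segment is the increment of the primitive -/
lemma seg_eq {g : V → ℝ} (H : ColD g) (z : V) (τ : ℝ) :
    ∫ r in (0 : ℝ)..τ, g (z + r • e3) = pre 0 g (z + τ • e3) - pre 0 g z := by
  have hs := H.sm_pre (n := 0) (sm_const 0)
  have := intervalIntegral.integral_eq_sub_of_hasDerivAt (f := fun r : ℝ => pre 0 g (z + r • e3))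
    (f' := fun r => g (z + r • e3)) (a := 0) (b := τ) (fun r _ => by
      have := hasDerivAt_line (x := z) (v := e3) (t := r) (hs.dif _)
      rw [Fin.sum_univ_three, H.pd_two_pre (n := 0) continuous_zero, cpt_zero] at this
      simpa [e3] using this)
    ((H.1.continuous.comp (continuous_const.add (continuous_id.smul continuous_const))).intervalIntegrable
      _ _)
  simpa using this

end FinlP
open FinnP FinlP

theorem finl (hK : KlsStmt) (hC : ColkStmt) : FinlStmt := by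
  filter_upwards [stage hK, ev_gd, ev_cr 4] with N h1 h2 h3 d hN hk hI
  refine ⟨Ml d, Ml_ok d, fun u ω hP xs hx0 hx hc s hs s' hs' z τ hz hz' i hi => ?_⟩
  have hd := h2 d.c hN hI.ok
  have hS := h1 d hN hk hI u ω hP
  subst hN
  have hh := hd.hs_pos
  have hG := hd.GG_pos
  have hl0 := hd.lam_pos
  have hq := hd.q_pos
  have hn : Sm (0 : ℝ → V) := sm_const 0
  have hcr : ∀ Λ ∈ d.FamC, |d.X Λ u ω (nT d.c.N)| ≤ cr d.c.N := hP.cru _ le_rfl
  have hcr0 : 0 ≤ cr d.c.N := (abs_nonneg _).trans (hcr _ (kV_mem hc z hi))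
  have hco : ∀ m ∈ Finset.range (nT d.c.N), ∀ j, ColD fun z => d.Fv d.SL (d.sa u ω m) (u m) z j :=
    fun m hm j => by obtain ⟨A, -, H⟩ := hS m hm j; exact (cold_dens hC H).neg
  have hcd : ∀ m ∈ Finset.range (nT d.c.N), ColD (dv (d.Fv d.SL (d.sa u ω m) (u m))) :=
    fun m hm => ColD.dv (hco m hm)
  set F := fmain d.ρ d.Z d.SL u (nT d.c.N) with hF
  have eF : F = fun z => ∑ m ∈ Finset.range (nT d.c.N), d.Fv d.SL (d.sa u ω m) (u m) z :=
    funext fun z => funext fun j => by rw [Finset.sum_apply]; exact fmain_eq d d.SL u ω _ z j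
  have eD : dv F = fun z => ∑ m ∈ Finset.range (nT d.c.N), dv (d.Fv d.SL (d.sa u ω m) (u m)) z :=
    funext fun z => by rw [eF]; exact dv_sum _ (fun m hm => sm_pi fun j => (hco m hm j).1) z
  have hcF : ColD (dv F) := by rw [eD]; exact ColD.sum _ hcd
  have eL : ∀ (l : List (Fin 3)) w, hp d.c.hs l * pds l (pre 0 (dv F)) w =
      d.X (d.kL w l) u ω (nT d.c.N) * (d.c.GG / 2) := fun l w => by
    rw [eD, pre_sum _ hcd hn.continuous, sum_eq (fun m hm => (hcd m hm).sm_pre hn) _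
      (half_pos hG).ne']
    rfl
  have eV : ∀ w, d.c.hs i * pd i (dv F) w = d.X (d.kV w i) u ω (nT d.c.N) * d.c.q := fun w => by
    rw [eD]
    exact sum_eq (fun m hm => (hcd m hm).1) _ hq.ne' [i] w
  have hi' : ∀ j ∈ [i], j ≠ 2 := fun j hj => by rwa [List.mem_singleton.1 hj]
  have eI : pds [i] (pre 0 (dv F)) = pre 0 (pd i (dv F)) := hcF.pds_pre hn.continuous hi'
  have e1 : hp d.c.hs [i] = d.c.hs i := by simp
  have p15 := hd.big.np_pos (-15)
  have hE : (2 * (cr d.c.N * (d.c.GG / 2) / d.c.lam) + cr d.c.N * d.c.q) * d.c.hL ≤ d.c.GG / 2 := by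
    have e : (2 * (cr d.c.N * (d.c.GG / 2) / d.c.lam) + cr d.c.N * d.c.q) * d.c.hL =
        cr d.c.N * np d.c.N (-15) * (d.c.GG + d.c.q * d.c.lam) := by
      rw [Pm.hL]; field_simp
    have b0 : 0 ≤ cr d.c.N * np d.c.N (-15) := mul_nonneg hcr0 p15.le
    have b2 := mul_le_mul_of_nonneg_left (q_lam_le hd) b0
    have b3 := mul_le_mul_of_nonneg_left h3 hG.le
    rw [e]; nlinarith
  have main : ∀ t ∈ d.T, ∀ w : V, ‖w - d.pl t‖ ≤ d.c.hL →
      |d.c.hs i * pre 0 (pd i (dv F)) w| ≤ d.c.GG * Real.sqrt (1 + xs t) := fun t ht w hw => by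
    have key := move (((hcF.sm_pre hn).pds [i]).cmul (hp d.c.hs [i]))
      (B := cr d.c.N * (d.c.GG / 2) / d.c.lam) (Bv := cr d.c.N * d.c.q)
      (fun j hj w => lat_le hd hj (by
        rw [eL, abs_mul, abs_of_pos (half_pos hG)]
        exact mul_le_mul_of_nonneg_right (hcr _ (kL_mem hc w (cons_mem_LL.2 ⟨hj, one_mem hi 0⟩)
          (List.cons_ne_nil _ _))) (half_pos hG).le))
      (fun w => by
        rw [pd_const_mul, eI, (hcF.pd i).pd_two_pre hn.continuous, cpt_zero, e1, eV, abs_mul,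
          abs_of_pos hq]
        exact mul_le_mul_of_nonneg_right (hcr _ (kV_mem hc w hi)) hq.le)
      (fun j => (norm_le_pi_norm (w - d.pl t) j).trans hw)
    rw [eL [i] (d.pl t), eI, e1] at key
    exact fin_le (hx0 t) ((hx t ht).2 _ (mem_Ml hc t hi)) hG.le hE key
  rw [seg_eq (hcF.pd i), ← abs_of_pos (hh i), ← abs_mul, mul_sub, mul_add]
  have := abs_sub (d.c.hs i * pre 0 (pd i (dv F)) (z + τ • e3)) (d.c.hs i * pre 0 (pd i (dv F)) z)
  linarith [main s hs z hz, main s' hs' _ hz']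

end
end Pool.Agent.MP_20bec2_an.T3

end MrgPart1

-- ======== part 2: formerly Pool.Agent.MP_20bec2_an.T3.MvA
section MrgPart2

/-! The state after one colour, seen near one point. -/

set_option autoImplicit false
open Set Filter Matrix Topology

namespace Pool.Agent.MP_20bec2_an.T3
noncomputable section
open Classical Prof Glue

namespace MvA

section one
variable {E : Type*} [AddCommMonoid E] {D r : ℝ} {j : ℕ} {φ : Cu → V → E}

theorem sup (hD : 0 < D) (H : ∀ g, col g = j → ∀ x, x ∉ box D g r → φ g x = 0) :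
    Sup (cv D) r fun g x => if col g = j then φ g x else 0 :=
  sup_box hD fun g x hx => by split_ifs with h; exacts [H g h x hx, rfl]

theorem one (hD : 0 < D) (hr : r < 1) (H : ∀ g, col g = j → ∀ x, x ∉ box D g r → φ g x = 0)
    {g : Cu} (hg : col g = j) {x : V} (hx : x ∈ box D g 1) :
    (∑ᶠ g', if col g' = j then φ g' x else 0) = φ g x :=
  ((sup hD H).one_eq (col_ite j φ) hg (r' := 1) (by linarith) (by rwa [cell_cv hD])).trans
    (if_pos hg)

theorem non (H : ∀ g, col g = j → ∀ x, x ∉ box D g r → φ g x = 0) {x : V}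
    (hx : ∀ g, col g = j → x ∉ box D g r) : (∑ᶠ g', if col g' = j then φ g' x else 0) = 0 :=
  finsum_eq_zero_of_forall_eq_zero fun g => by split_ifs with h; exacts [H g h x (hx g h), rfl]

theorem non_ev (hD : 0 < D) (hr : r < 1) {x : V} (hx : ∀ g, col g = j → x ∉ box D g r) :
    ∀ᶠ y in 𝓝 x, ∀ g, col g = j → y ∉ box D g r := by
  simpa only [cell_cv hD] using
    ev_out (cv D) hr (fun g => col g = j) (x := x) (by simpa only [cell_cv hD] using hx)
end one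

theorem hm_add (F : Fr) (A C : Mx) : F.hm (A + C) = F.hm A + F.hm C := by
  simp only [Fr.hm, Matrix.mul_add, Matrix.add_mul]
theorem hm_smul (F : Fr) (a : ℝ) (A : Mx) : F.hm (a • A) = a • F.hm A := by
  simp only [Fr.hm, Matrix.mul_smul, Matrix.smul_mul]
theorem unm_smul (F : Fr) (a : ℝ) (A : Mx) : F.unm (a • A) = a • F.unm A := by
  simp only [Fr.unm, Matrix.mul_smul, Matrix.smul_mul]
theorem unm_sub (F : Fr) (A C : Mx) : F.unm (A - C) = F.unm A - F.unm C := by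
  simp only [Fr.unm, Matrix.mul_sub, Matrix.sub_mul]
theorem unm_add (F : Fr) (A C : Mx) : F.unm (A + C) = F.unm A + F.unm C := by
  simp only [Fr.unm, Matrix.mul_add, Matrix.add_mul]

theorem jm_unv (F : Fr) {γ : V → V} (h : Sm γ) (x : V) :
    jm (F.unv γ) x = F.unm (jm γ (F.xc x)) := by
  have e : F.xc = fun y => -(F.Oᵀ *ᵥ F.x0) + F.Oᵀ *ᵥ y := by
    funext y; rw [Fr.xc, Matrix.mulVec_sub]; abel
  have := jm_mulVec_comp F.Q (Z := fun y => γ (F.xc y)) (Sm.dif (h.comp (xc_sm F)) x)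
  refine this.trans ?_
  rw [Fr.unm, Matrix.mul_assoc, e, jm_comp_affine _ _ (h.dif _)]

theorem up_sm {u : ℕ → V → V} (h : ∀ i, Sm (u i)) (T : ℕ) : Sm (Up u T) :=
  ContDiff.sum fun i _ => h i

theorem mem_sites {B : Bk} (hs : 0 < B.hsp) {g i : Cu} {r : ℝ} :
    i ∈ B.sites g r ↔ cen B.hsp i ∈ B.bx g r := by
  rw [Bk.sites, Fintype.mem_piFinset, Bk.bx, mem_box]
  refine forall_congr' fun j => ?_
  rw [Finset.mem_Icc, Int.ceil_le, Int.le_floor, div_le_iff₀ hs, le_div_iff₀ hs, abs_le]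
  simp only [cen]
  constructor <;> rintro ⟨a, b⟩ <;> constructor <;> linarith

/-- coefficient of the equaliser term -/
def cq (d : MD) (a y : V → ℝ) (x : V) : ℝ :=
  1 / 4 * pd 0 d.Pq x * ((d.th x + a x) ^ 2 - d.th x ^ 2 - y x)

theorem dN_eq (d : MD) (a y : V → ℝ) (x : V) : d.dN a y x = a x • E02 + cq d a y x • E00 := rfl

theorem cq_zero (d : MD) {a y : V → ℝ} {x : V} (h : a x = 0) (h' : y x = 0) : cq d a y x = 0 := by
  simp [cq, h, h']

theorem small {c : Pm} (h : Gd c) : c.p ≤ 1 / 10 ^ 4 ∧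
    qp c.N (2 / 5) * √(c.J * c.p) ≤ 1 / 10 ^ 4 ∧ 1 / √c.J ≤ 1 / 10 ^ 4 ∧ c.zT ≤ 1 / 10 ^ 4 := by
  have b := h.big
  have l4 : Real.log (1 / 10 ^ 4) = -(4 * Real.log 10) := by
    rw [one_div, Real.log_inv, Real.log_pow]; norm_num
  have lp : Real.log c.p ≤ Real.log (pcap c.N) :=
    Real.log_le_log h.p_pos (h.p_le_pf.trans h.pf_le)
  rw [b.log_pcap] at lp
  have Jp := mul_pos h.J_pos h.p_pos
  have a3 : 1 / √c.J ≤ 1 / 10 ^ 4 := le_of_log (one_div_pos.2 b.sqrtJ_pos) (by norm_num) (by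
    rw [l4, one_div, Real.log_inv, Real.log_sqrt h.J_pos.le, h.log_J]
    linarith [log10_bd.2, b.L_ge])
  refine ⟨le_of_log h.p_pos (by norm_num) (by linarith [log10_bd.2, b.L_ge, log2_bd.1]),
    le_of_log (mul_pos (b.qp_pos _) (Real.sqrt_pos.2 Jp)) (by norm_num) ?_, a3, ?_⟩
  · rw [Real.log_mul (b.qp_pos _).ne' (Real.sqrt_pos.2 Jp).ne', b.log_qp, Real.log_sqrt Jp.le,
      Real.log_mul h.J_pos.ne' h.p_pos.ne', h.log_J]
    linarith [log10_bd.2, b.L_ge, log2_bd.1]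
  · unfold Pm.zT
    split_ifs
    · refine le_of_log (mul_pos two_pos b.nu_pos) (by norm_num) ?_
      rw [Real.log_mul two_ne_zero b.nu_pos.ne', b.log_nu]
      linarith [log10_bd.2, b.L_ge, log2_bd.2, b.J_ge]
    · exact a3

theorem c_np {N : ℕ} (h : Big N) {a b : ℝ} (hab : a + 1 ≤ b) : 1000 * np N a ≤ np N b := by
  refine le_trans ?_ (h.np_le hab)
  rw [h.np_add, np_one, mul_comm]
  exact mul_le_mul_of_nonneg_left (by linarith [h.N_ge, h.J_ge, h.L_ge]) (h.np_pos a).le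

theorem nzn_mid (N r : ℕ) : nzn N (mid N) r = r - 1 := by simp [nzn]
theorem nzn_ne {N k : ℕ} (h : k ≠ mid N) (r r' : ℕ) : nzn N k r = nzn N k r' := by simp [nzn, h]

variable {B : Bk} {ρ : V → ℝ} {k r : ℕ} {s : St} {ch : Cu → Cu → ℝ → V} {o : Bk.MO}

theorem fo (H : B.MH ρ k r s ch o) : FrOk B.N B.lb B.fr := H.ok.geo.toFrOk

theorem N1 (hb : Big B.N) : 1 ≤ B.N := Nat.cast_pos.1 hb.N_pos

theorem Dp (H : B.MH ρ k r s ch o) (hb : Big B.N) : 0 < B.D := GeoP.D_pos (fo H) (N1 hb)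

/-- the increments of cube `g` -/
def dT (B : Bk) (o : Bk.MO) (g : Cu) (x : V) : ℝ := o.dth g ((B.fr g).xc x)
def dYv (B : Bk) (o : Bk.MO) (g : Cu) (x : V) : ℝ := o.dY g ((B.fr g).xc x)
def dQ (B : Bk) (ρ : V → ℝ) (k r : ℕ) (s : St) (ch : Cu → Cu → ℝ → V) (o : Bk.MO) (g : Cu)
    (x : V) : ℝ := cq (B.md ρ k r s ch g) (o.dth g) (o.dY g) ((B.fr g).xc x)

theorem off (H : B.MH ρ k r s ch o) {g : Cu} (hg : col g = r - 1) {x : V}
    (hx : x ∉ B.bx g (93 / 100)) : dT B o g x = 0 ∧ dYv B o g x = 0 ∧ dQ B ρ k r s ch o g x = 0 ∧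
      ∀ m, (B.fr g).unv (o.u g m) x = 0 := by
  have e : (B.fr g).xc x ∉ (B.md ρ k r s ch g).R (93 / 100) := fun e =>
    hx ((GeoP.xc_mem (fo H)).1 e)
  obtain ⟨a, b⟩ := (H.mo g hg).ns.2.2.1 _ e
  exact ⟨a, b, cq_zero _ a b, fun m => by rw [Fr.unv, (H.mo g hg).supp m _ e, mulVec_zero]⟩

theorem quiet (H : B.MH ρ k r s ch o) {g : Cu} (hg : col g = r - 1) (hn : ¬(B.c g k).noise)
    (x : V) : dT B o g x = 0 ∧ dYv B o g x = 0 ∧ dQ B ρ k r s ch o g x = 0 := by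
  obtain ⟨a, b⟩ := (H.mo g hg).ns.2.2.2.1 hn
  exact ⟨congrFun a _, congrFun b _, cq_zero _ (congrFun a _) (congrFun b _)⟩

theorem nth_eq (f' : V → V) (x : V) : (B.stp ρ k r s ch o f').Nth x = s.Nth x +
    ∑ᶠ g, if col g = r - 1 then dT B o g x • (B.fr g).unm E02 else 0 := by
  simp only [Bk.stp, unm_smul, dT]

theorem neq_eq (f' : V → V) (x : V) : (B.stp ρ k r s ch o f').Neq x = s.Neq x +
    ∑ᶠ g, if col g = r - 1 then dQ B ρ k r s ch o g x • (B.fr g).unm E00 else 0 := by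
  simp only [Bk.stp, dN_eq, add_sub_cancel_left, unm_smul, dQ]

theorem act (H : B.MH ρ k r s ch o) (hb : Big B.N) (f' : V → V) {g : Cu} (hg : col g = r - 1)
    {x : V} (hx : x ∈ B.bx g 1) :
    (B.stp ρ k r s ch o f').Zs x = s.Zs x + (B.fr g).unv (Up (o.u g) (nT B.N)) x ∧
    (B.stp ρ k r s ch o f').Nth x = s.Nth x + dT B o g x • (B.fr g).unm E02 ∧
    (B.stp ρ k r s ch o f').Neq x = s.Neq x + dQ B ρ k r s ch o g x • (B.fr g).unm E00 ∧
    (B.stp ρ k r s ch o f').Yv x = s.Yv x + dYv B o g x := by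
  have n : (93 / 100 : ℝ) < 1 := by norm_num
  refine ⟨congrArg (s.Zs x + ·) ?_, ?_, ?_, congrArg (s.Yv x + ·)
    (one (φ := dYv B o) (Dp H hb) n (fun g h x e => (off H h e).2.1) hg hx)⟩
  · rw [Fr.unv, Up, Up, Matrix.mulVec_sum]
    exact Finset.sum_congr rfl fun m _ => one (φ := fun g => (B.fr g).unv (o.u g m)) (Dp H hb) n
      (fun g h x e => (off H h e).2.2.2 m) hg hx
  · rw [nth_eq, one (φ := fun g x => dT B o g x • (B.fr g).unm E02) (Dp H hb) n
      (fun g h x e => by rw [(off H h e).1, zero_smul]) hg hx]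
  · rw [neq_eq, one (φ := fun g x => dQ B ρ k r s ch o g x • (B.fr g).unm E00) (Dp H hb) n
      (fun g h x e => by rw [(off H h e).2.2.1, zero_smul]) hg hx]

theorem idle (H : B.MH ρ k r s ch o) (f' : V → V) {x : V}
    (hx : ∀ g, col g = r - 1 → x ∉ B.bx g (93 / 100)) :
    (B.stp ρ k r s ch o f').Zs x = s.Zs x ∧ (B.stp ρ k r s ch o f').Nth x = s.Nth x ∧
    (B.stp ρ k r s ch o f').Neq x = s.Neq x ∧ (B.stp ρ k r s ch o f').Yv x = s.Yv x := by
  refine ⟨add_eq_left.2 ?_, ?_, ?_,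
    add_eq_left.2 (non (φ := dYv B o) (fun g h x e => (off H h e).2.1) hx)⟩
  · exact Finset.sum_eq_zero fun m _ => non (φ := fun g => (B.fr g).unv (o.u g m))
      (fun g h x e => (off H h e).2.2.2 m) hx
  · rw [nth_eq, non (φ := fun g x => dT B o g x • (B.fr g).unm E02)
      (fun g h x e => by rw [(off H h e).1, zero_smul]) hx, add_zero]
  · rw [neq_eq, non (φ := fun g x => dQ B ρ k r s ch o g x • (B.fr g).unm E00)
      (fun g h x e => by rw [(off H h e).2.2.1, zero_smul]) hx, add_zero]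

/-- sizes at a noisy acting cube -/
theorem sizes (H : B.MH ρ k r s ch o) (hb : Big B.N) {g : Cu} (hg : col g = r - 1)
    (hn : (B.c g k).noise) {x : V} (hx : x ∈ B.bx g (99 / 100)) :
    |dT B o g x| ≤ 1 / 10 ^ 4 ∧ |dYv B o g x| ≤ 1 / 10 ^ 4 ∧
    |(B.fr g).hm (s.Nth x) 0 2| ≤ 1 / 10 ^ 4 ∧ |pd 0 (B.Pq s.Pv g) ((B.fr g).xc x)| ≤ 10 ∧
    dQ B ρ k r s ch o g x = 1 / 4 * pd 0 (B.Pq s.Pv g) ((B.fr g).xc x) *
      (((B.fr g).hm (s.Nth x) 0 2 + dT B o g x) ^ 2 - (B.fr g).hm (s.Nth x) 0 2 ^ 2 -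
        dYv B o g x) := by
  have gd := Bk.gd (fo H) hb g H.hk.le
  obtain ⟨p1, p2, -, -⟩ := small gd
  have e := (GeoP.xc_mem (fo H)).2 hx
  obtain ⟨a1, a2⟩ := (H.mo g hg).ns.2.2.2.2 hn
  obtain ⟨b1, b2⟩ := (H.mi g hg).ns.2.2 hn
  have eP : (B.md ρ k r s ch g).Pq = B.Pq s.Pv g := if_pos hn
  have eT : (B.md ρ k r s ch g).th ((B.fr g).xc x) = (B.fr g).hm (s.Nth x) 0 2 := by
    rw [show (B.md ρ k r s ch g).th = _ from if_pos hn]
    beta_reduce
    rw [xp_xc (GeoP.orth (fo H) g)]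
  have c1 := b1.2.1 _ e
  have c2 := b2.val e
  rw [eP] at c1
  rw [eT] at c2
  refine ⟨(a1.val (mem_univ _)).trans (le_trans (mul_le_mul_of_nonneg_right
    (hb.qp_le (by norm_num)) (Real.sqrt_nonneg _)) p2), ?_, c2.trans p2,
    abs_le.2 ⟨by linarith [c1.2.1], c1.2.2.1⟩, by rw [dQ, cq, eP, eT]; rfl⟩
  obtain ⟨y1, y2⟩ := a2 ((B.fr g).xc x)
  have s1 := alh_sq_le (B.fr g).O B.D ((B.fr g).xc x)
  have s0 := sq_nonneg (alh (B.fr g).O B.D ((B.fr g).xc x))
  have n5 := c_np hb (a := -5) (b := 0) (by norm_num)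
  rw [np_zero] at n5
  have pp := gd.p_pos
  change (8 / 100 * alh (B.fr g).O B.D _ ^ 2 - np B.N (-5)) * (B.c g k).p ≤ dYv B o g x at y1
  change dYv B o g x ≤ (11 / 100 * alh (B.fr g).O B.D _ ^ 2 + np B.N (-5)) * (B.c g k).p at y2
  refine abs_le.2 ⟨le_trans ?_ y1, y2.trans ?_⟩
  · exact (neg_le_neg p1).trans ((neg_one_mul _).symm.le.trans
      (mul_le_mul_of_nonneg_right (by linarith) pp.le))
  · exact (mul_le_of_le_one_left pp.le (by linarith)).trans p1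

end MvA
end
end Pool.Agent.MP_20bec2_an.T3

end MrgPart2

-- ======== part 3: formerly Pool.Agent.MP_20bec2_an.T3.Mp
section MrgPart3

/-! The noise record after one colour. -/

set_option autoImplicit false
open Set Filter Matrix Topology

namespace Pool.Agent.MP_20bec2_an.T3
noncomputable section
open Classical Prof Glue MvA

namespace MpA

theorem aml {x y a b : ℝ} (hx : |x| ≤ a) (hy : |y| ≤ b) : |x * y| ≤ a * b := by
  rw [abs_mul]; exact mul_le_mul hx hy (abs_nonneg _) ((abs_nonneg _).trans hx)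

/-- `T` is close to the rotation `W`, which is close to a diagonal matrix -/
structure Al (δ : ℝ) (T W : Mx) : Prop where
  ort : Orth W
  tw : EB (T - W) (cm δ)
  off : ∀ a b, a ≠ b → |W a b| ≤ δ
  d1 : δ ≤ 1

namespace Al
variable {δ : ℝ} {T W : Mx} (h : Al δ T W)
include h

theorem d0 : 0 ≤ δ := GeoP.eb_nonneg h.tw
theorem T_add (a b : Fin 3) : |T a b| ≤ |W a b| + δ := by
  have : |T a b - W a b| ≤ δ := h.tw a b
  linarith [abs_sub_abs_le_abs_sub (T a b) (W a b)]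
theorem T_le (a b : Fin 3) : |T a b| ≤ 2 := by linarith [h.T_add a b, orth_abs_le h.ort a b, h.d1]
theorem prod {i a j b : Fin 3} (e : i ≠ a ∨ j ≠ b) : |T i a * W j b| ≤ 2 * δ := by
  rcases e with e | e
  · exact (aml (a := 2 * δ) (by linarith [h.T_add i a, h.off i a e])
      (orth_abs_le h.ort j b)).trans_eq (mul_one _)
  · exact aml (h.T_le i a) (h.off j b e)
theorem sq (a : Fin 3) : |W a a ^ 2 - 1| ≤ 2 * δ := by
  have e : ∀ a b, a ≠ b → W a b ^ 2 ≤ δ := fun a b n => by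
    rw [← sq_abs, _root_.sq]
    exact (mul_le_mul (h.off a b n) ((h.off a b n).trans h.d1) (abs_nonneg _) h.d0).trans_eq
      (mul_one _)
  have r := orth_row h.ort a
  rw [Fin.sum_univ_three] at r
  have n0 := sq_nonneg (W a 0)
  have n1 := sq_nonneg (W a 1)
  have n2 := sq_nonneg (W a 2)
  have := h.d0
  rw [abs_le]
  fin_cases a
  · have := e 0 1 (by decide); have := e 0 2 (by decide)
    simp only [Fin.zero_eta] at *; constructor <;> linarith
  · have := e 1 0 (by decide); have := e 1 2 (by decide)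
    simp only [Fin.mk_one] at *; constructor <;> linarith
  · have := e 2 0 (by decide); have := e 2 1 (by decide)
    simp only [Fin.reduceFinMk] at *; constructor <;> linarith
theorem nu : |T 0 0 * W 0 0 - 1| ≤ 3 * δ := by
  have a := abs_le.1 (aml (show |T 0 0 - W 0 0| ≤ δ from h.tw 0 0) (orth_abs_le h.ort 0 0))
  have b := abs_le.1 (h.sq 0)
  rw [abs_le]; constructor <;> linarith [a.1, a.2, b.1, b.2]
theorem mu : |(T 0 0 * W 2 2) ^ 2 - 1| ≤ 13 * δ := by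
  have a := abs_le.1 (aml (show |T 0 0 - W 0 0| ≤ δ from h.tw 0 0) ((abs_add_le (T 0 0) (W 0 0)).trans
    (add_le_add (h.T_le 0 0) (orth_abs_le h.ort 0 0))))
  have b := abs_le.1 (h.sq 0)
  have c := abs_le.1 (aml (aml (h.T_le 0 0) (h.T_le 0 0)) (h.sq 2))
  rw [abs_le]; constructor <;> linarith [a.1, a.2, b.1, b.2, c.1, c.2]
theorem sand {A : Mx} {m : ℝ} (hA : EB A (cm m)) (i j : Fin 3) :
    |(T * A * Wᵀ) i j - T i i * W j j * A i j| ≤ 18 * (δ * m) := by
  have e : (T * A * Wᵀ) i j - T i i * W j j * A i j =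
      ∑ b, ∑ a, if a = i ∧ b = j then 0 else T i a * W j b * A a b := by
    fin_cases i <;> fin_cases j <;> simp [Matrix.mul_apply, Fin.sum_univ_three] <;> ring
  have b : ∀ b a, |if a = i ∧ b = j then 0 else T i a * W j b * A a b| ≤ 2 * δ * m := fun b a => by
    split_ifs with e
    · rw [abs_zero]; exact mul_nonneg (by linarith [h.d0]) (GeoP.eb_nonneg hA)
    · exact aml (h.prod ((not_and_or.1 e).imp Ne.symm Ne.symm)) (hA a b)
  rw [e]
  refine (Finset.abs_sum_le_sum_abs _ _).trans ((Finset.sum_le_sum fun x _ =>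
    (Finset.abs_sum_le_sum_abs _ _).trans (Finset.sum_le_sum fun y _ => b x y)).trans_eq ?_)
  simp only [Fin.sum_univ_three]; ring
theorem tr : Al δ Wᵀ Wᵀ :=
  ⟨orth_t h.ort, fun i j => by simpa [cm] using h.d0, fun a b e => h.off b a e.symm, h.d1⟩
end Al

theorem e02 (T W : Mx) (i j : Fin 3) : (T * E02 * Wᵀ) i j = T i 0 * W j 2 := by
  simp [Matrix.mul_apply, Fin.sum_univ_three, E02]
theorem e00 (T W : Mx) (i j : Fin 3) : (T * E00 * Wᵀ) i j = T i 0 * W j 0 := by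
  simp [Matrix.mul_apply, Fin.sum_univ_three, E00, dg3]
theorem E02_eq (i j : Fin 3) : E02 i j = if i = 0 ∧ j = 2 then 1 else 0 := by
  fin_cases i <;> fin_cases j <;> simp [E02]
theorem E00_eq (i j : Fin 3) : E00 i j = if i = 0 ∧ j = 0 then 1 else 0 := by
  fin_cases i <;> fin_cases j <;> simp [E00, dg3]

theorem core {δ e μ ν θ ϑ a y P P' : ℝ} (h1 : |μ ^ 2 - 1| ≤ 13 * δ) (h2 : |μ| ≤ 2)
    (h3 : |ν - 1| ≤ 3 * δ) (h4 : |θ - μ * ϑ| ≤ 18 * δ) (h5 : |ϑ| ≤ 1) (h6 : |a| ≤ 1) (h7 : |y| ≤ 1)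
    (h8 : |P| ≤ 10) (h9 : |P'| ≤ 10) (h0 : |P' - P| ≤ e) :
    |1 / 4 * P' * ((ϑ + a) ^ 2 - ϑ ^ 2 - y)| ≤ 10 ∧
    |1 / 4 * P' * ((ϑ + a) ^ 2 - ϑ ^ 2 - y) * ν - 1 / 4 * P * ((θ + a * μ) ^ 2 - θ ^ 2 - y)| ≤
      e + 400 * δ := by
  have u : |(ϑ + a) ^ 2 - ϑ ^ 2 - y| ≤ 4 := by
    have a1 := abs_le.1 (aml h5 h6)
    have a2 := abs_le.1 (aml h6 h6)
    have a3 := abs_le.1 h7
    rw [abs_le]; constructor <;> linarith [a1.1, a1.2, a2.1, a2.2, a3.1, a3.2]
  have v : |((θ + a * μ) ^ 2 - θ ^ 2 - y) - ((ϑ + a) ^ 2 - ϑ ^ 2 - y)| ≤ 111 * δ := by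
    have a1 := abs_le.1 (aml h6 (aml h4 h2))
    have a2 := abs_le.1 (aml h6 (aml h5 h1))
    have a3 := abs_le.1 (aml (aml h6 h6) h1)
    rw [abs_le]; constructor <;> linarith [a1.1, a1.2, a2.1, a2.2, a3.1, a3.2]
  have d := (abs_nonneg _).trans h3
  generalize (ϑ + a) ^ 2 - ϑ ^ 2 - y = u' at *
  generalize (θ + a * μ) ^ 2 - θ ^ 2 - y = w at *
  have a0 := abs_le.1 (aml h9 u)
  have a1 := abs_le.1 (aml (aml h9 u) h3)
  have a2 := abs_le.1 (aml h0 u)
  have a3 := abs_le.1 (aml h8 v)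
  rw [abs_le, abs_le]
  refine ⟨⟨?_, ?_⟩, ?_, ?_⟩ <;> linarith [a0.1, a0.2, a1.1, a1.2, a2.1, a2.2, a3.1, a3.2]

theorem scale {d : ℝ} {c c' : Pm} (h : Cp d c c') (hA : ¬c.isA) (hA' : ¬c'.isA) (hb : ¬c.boost)
    (hb' : ¬c'.boost) (hl : c'.lam = c.lam) (hN : c'.N = c.N) {W : Mx} (ho : Orth W)
    (off : ∀ a b, a ≠ b → |W a b| ≤ dc c.N) (i j : Fin 3) : |W i j| * c.thS j ≤ 2 * c'.thS i := by
  have b := h.g.big
  by_cases e : i = j
  · subst e
    have r := h.cl_len (iff_of_false hA hA') (iff_of_false hb hb')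
    simp only [hl, sub_self, sub_zero] at r
    have l : |Real.log (c'.thS i) - Real.log (c.thS i)| ≤ 10 * cpe d c c' := by
      fin_cases i
      exacts [r Pm.W10 (by simp), r Pm.W20 (by simp), r Pm.Hp (by simp)]
    exact (mul_le_of_le_one_left (h.g.thS_pos i).le (orth_abs_le ho i i)).trans
      (h.ratio (h.g.thS_pos i) (h.g'.thS_pos i) (l.trans (by linarith [h.cpe_nonneg]))).2.2.2.2
  · have m : ∀ (c : Pm) (i : Fin 3), c.thS i ∈ [c.W10, c.W20, c.H0, c.Hp, c.W11, c.W21, c.H1] :=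
      fun c i => by fin_cases i <;> simp [Pm.thS]
    have a1 := (h.g.win _ (m c j)).2.1
    have a2 := (h.g'.win _ (m c' i)).1
    rw [hl, hN] at a2
    have a3 := mul_le_mul (off i j e) a1 (h.g.thS_pos j).le b.dc_pos.le
    have a4 := mul_le_mul_of_nonneg_right (b.np_le (a := -25 + 1001 / 1000) (b := 499 / 1000)
      (by norm_num)) h.g.lam_pos.le
    rw [b.np_add, mul_assoc] at a4
    exact a3.trans (a4.trans (by linarith [h.g'.thS_pos i]))

theorem th_le {N : ℕ} (h : Big N) {p p' : ℝ} (hp : p' ≤ 2 * p) (h0 : 0 ≤ p') :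
    2 * ((3 * 2) ^ 4 * (qp N (3 / 10) * √(pJ N * p'))) ≤ 1 / 8 * (qp N (2 / 5) * √(pJ N * p)) := by
  have a : √(pJ N * p') ≤ 2 * √(pJ N * p) := by
    rw [← Real.sqrt_sq two_pos.le, ← Real.sqrt_mul (sq_nonneg _)]
    exact Real.sqrt_le_sqrt (by nlinarith [h.J_pos])
  have b : 100000 ≤ qp N (1 / 10) := by
    rw [h.qp_eq]; linarith [Real.add_one_le_exp (1 / 10 * (pL N / 1000)), h.L_ge]
  have c := mul_le_mul_of_nonneg_left a (h.qp_pos (3 / 10)).le
  have d := mul_le_mul_of_nonneg_right b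
    (mul_nonneg (h.qp_pos (3 / 10)).le (Real.sqrt_nonneg (pJ N * p)))
  have e := mul_nonneg (h.qp_pos (3 / 10)).le (Real.sqrt_nonneg (pJ N * p))
  rw [show (2 / 5 : ℝ) = 1 / 10 + 3 / 10 by norm_num, h.qp_add, mul_assoc (qp N (1 / 10))]
  linarith

theorem yv_le {p p' q a n m y : ℝ} (hq : q ≤ 1 / 10000000) (h1 : p' ≤ (1 + q) * p)
    (h2 : p ≤ (1 + q) * p') (h3 : p' ≤ 2 * p) (hp : 0 < p) (hp' : 0 < p') (ha : 0 ≤ a)
    (hn : 0 ≤ n) (hm : 1000 * n ≤ m) (y1 : (8 / 100 * a - n) * p' ≤ y)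
    (y2 : y ≤ (11 / 100 * a + n) * p') :
    p * (79 / 1000 * a - m) ≤ y ∧ y ≤ p * (111 / 1000 * a + m) := by
  have a1 := mul_le_mul_of_nonneg_left
    (h1.trans (mul_le_mul_of_nonneg_right (add_le_add_right hq 1) hp.le)) ha
  have a2 := mul_le_mul_of_nonneg_left
    (h2.trans (mul_le_mul_of_nonneg_right (add_le_add_right hq 1) hp'.le)) ha
  have a3 := mul_le_mul_of_nonneg_left h3 hn
  have a4 := mul_le_mul_of_nonneg_right hm hp.le
  have a5 := mul_nonneg ha hp.le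
  have a6 := mul_nonneg ha hp'.le
  have a7 := mul_nonneg hn hp.le
  constructor <;> linarith

theorem pq_eq (B : Bk) {Pv : V → V} (h : Sm Pv) {g : Cu} (ho : Orth (B.fr g).O) (x : V) :
    jm (fun y => Pv ((B.fr g).xp y)) ((B.fr g).xc x) = jm Pv x * (B.fr g).O ∧
    pd 0 (B.Pq Pv g) ((B.fr g).xc x) = ((B.fr g).Oᵀ * (jm Pv x * (B.fr g).O)) 0 0 := by
  have e : jm (fun y => Pv ((B.fr g).xp y)) ((B.fr g).xc x) = jm Pv x * (B.fr g).O := by
    have := jm_comp_affine (Y := Pv) (B.fr g).x0 (B.fr g).O (x := (B.fr g).xc x) (h.dif _)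
    rwa [show (B.fr g).x0 + (B.fr g).O *ᵥ (B.fr g).xc x = x from xp_xc ho x] at this
  refine ⟨e, ?_⟩
  rw [← e, ← jm_mulVec_comp _ (Z := fun y => Pv ((B.fr g).xp y)) (Sm.dif (h.comp (xp_sm _)) _)]
  rfl

variable {B : Bk} {ρ : V → ℝ} {k r : ℕ} {s : St} {ch : Cu → Cu → ℝ → V} {o : Bk.MO}

theorem al_of (G : FrOk B.N B.lb B.fr) (hb : Big B.N) {g g' : Cu} (hd : B.deep g)
    (n : Nbr 3 g g') :
    Al (dc B.N) ((B.fr g).Q⁻¹ * (B.fr g').Q) ((B.fr g).Oᵀ * (B.fr g').O) := by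
  have c := G.cp g g' n
  refine ⟨GeoP.P_orth (GeoP.orth G g) (GeoP.orth G g'), c.tq, ?_,
    (hb.np_le (by norm_num)).trans_eq (np_zero _)⟩
  obtain ⟨a1, a2⟩ := c.al.resolve_right fun e => by
    have e1 := (Bk.cpk G hb n (Nat.zero_le _) (Nat.zero_le _)).η_eq_one e.2
    have e2 := (Bk.gd0 G hb g').log_notA (Bk.deep_flags G hb hd n (Nat.zero_le _)).2.2.2.1
    rw [e1, Real.log_one] at e2
    linarith [(Bk.gd0 G hb g').big.L_ge]
  obtain ⟨b1, b2⟩ := c.o3 0 (by decide)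
  obtain ⟨b3, b4⟩ := c.o3 1 (by decide)
  intro a b e
  fin_cases a <;> fin_cases b <;> first | exact absurd rfl e | assumption

theorem smooth (H : B.MH ρ k r s ch o) (hb : Big B.N) (f' : V → V) :
    SmM (B.stp ρ k r s ch o f').Nth ∧ SmM (B.stp ρ k r s ch o f').Neq := by
  have n : (93 / 100 : ℝ) < 1 := by norm_num
  rw [funext (nth_eq f'), funext (neq_eq f')]
  refine ⟨H.inv.ip.sm.1.add ((sup (φ := fun g x => dT B o g x • (B.fr g).unm E02) (Dp H hb)
      fun g h x e => by rw [(off H h e).1, zero_smul]).smM n fun g => ?_),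
    H.inv.ip.sm.2.add ((sup (φ := fun g x => dQ B ρ k r s ch o g x • (B.fr g).unm E00) (Dp H hb)
      fun g h x e => by rw [(off H h e).2.2.1, zero_smul]).smM n fun g => ?_)⟩ <;>
  by_cases h : col g = r - 1 <;> simp only [h, if_true, if_false]
  · exact SmM.smul ((H.mo g h).ns.1.comp (xc_sm _)) (smM_const _)
  · exact smM_const _
  · obtain ⟨a1, a2, -⟩ := (H.mo g h).ns
    obtain ⟨b1, b2, -⟩ := (H.mi g h).ns
    exact SmM.smul (ContDiff.comp (g := cq _ _ _) ((contDiff_const.mul (b2.pd 0)).mul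
      ((((b1.add a1).pow 2).sub (b1.pow 2)).sub a2)) (xc_sm _)) (smM_const _)
  · exact smM_const _

theorem still (H : B.MH ρ k r s ch o) (f' : V → V) (hk : k ≠ mid B.N) :
    (B.stp ρ k r s ch o f').Nth = s.Nth ∧ (B.stp ρ k r s ch o f').Neq = s.Neq ∧
      (B.stp ρ k r s ch o f').Yv = s.Yv := by
  have q := fun g (h : col g = r - 1) => quiet H h fun e => hk e.2
  refine ⟨funext fun x => (nth_eq f' x).trans ?_, funext fun x => (neq_eq f' x).trans ?_,
    funext fun x => ?_⟩ <;>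
  refine add_eq_left.2 (finsum_eq_zero_of_forall_eq_zero fun g => ?_) <;> split_ifs with h
  exacts [by rw [(q g h x).1, zero_smul], rfl, by rw [(q g h x).2.2, zero_smul], rfl,
    (q g h x).2.1, rfl]

/-- weight of the pushing cube of colour `j` -/
def wt (B : Bk) (j : ℕ) (x : V) : ℝ :=
  ∑ᶠ g, if col g = j then (if (B.c g 0).push then al B.D g x ^ 2 else 0) else 0

theorem wt_off (hD : 0 < B.D) (g : Cu) (x : V) (h : x ∉ box B.D g (93 / 100)) :
    (if (B.c g 0).push then al B.D g x ^ 2 else 0) = 0 := by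
  rw [al_zero hD fun e => h (box_mono hD.le (by norm_num) g e)]; simp

theorem wt_add (hD : 0 < B.D) (j : ℕ) (x : V) :
    (∑ᶠ g, if col g < j + 1 ∧ (B.c g 0).push then al B.D g x ^ 2 else 0) =
      (∑ᶠ g, if col g < j ∧ (B.c g 0).push then al B.D g x ^ 2 else 0) + wt B j x := by
  rw [wt, ← Sup.finsum_add ((sup_al_sq hD).ite _) (((sup_al_sq hD).ite _).ite _) (by norm_num)]
  refine finsum_congr fun g => ?_
  by_cases h : (B.c g 0).push
  · rcases lt_trichotomy (col g) j with e | e | e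
    · simp [h, e, e.ne, e.le]
    · simp [h, e]
    · simp [h, e.ne', e.not_gt, e.not_ge]
  · simp [h]

theorem cs (H : B.MH ρ (mid B.N) r s ch o) (hb : Big B.N) (f' : V → V) (x : V) :
    ((∀ᶠ y in 𝓝 x, (B.stp ρ (mid B.N) r s ch o f').Nth y = s.Nth y ∧
      (B.stp ρ (mid B.N) r s ch o f').Neq y = s.Neq y ∧
      (B.stp ρ (mid B.N) r s ch o f').Yv y = s.Yv y) ∧ wt B (r - 1) x = 0) ∨
    ∃ g, col g = r - 1 ∧ x ∈ B.bx g (93 / 100) ∧ (B.c g (mid B.N)).noise := by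
  have hD := Dp H hb
  have n : (93 / 100 : ℝ) < 1 := by norm_num
  by_cases hc : ∀ g, col g = r - 1 → x ∉ B.bx g (93 / 100)
  · exact .inl ⟨(non_ev hD n hc).mono fun y hy => (idle H f' hy).2,
      non (fun g _ => wt_off hD g) hc⟩
  push Not at hc
  obtain ⟨g, hg, hx⟩ := hc
  by_cases hn : (B.c g (mid B.N)).noise
  · exact .inr ⟨g, hg, hx, hn⟩
  refine .inl ⟨Filter.mem_of_superset (box_nhds hD n hx) fun y hy => ?_,
    (one hD n (fun g _ => wt_off hD g) hg (box_mono hD.le n.le g hx)).trans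
      (if_neg fun e => hn ⟨e, rfl⟩)⟩
  obtain ⟨-, a1, a2, a3⟩ := act H hb f' hg hy
  obtain ⟨b1, b2, b3⟩ := quiet H hg hn y
  rw [b1, zero_smul, add_zero] at a1
  rw [b3, zero_smul, add_zero] at a2
  rw [b2, add_zero] at a3
  exact ⟨a1, a2, a3⟩

theorem th (H : B.MH ρ (mid B.N) r s ch o) (hb : Big B.N) (f' : V → V) {g : Cu} (hd : B.deep g)
    (i j : Fin 3) : CB 4 (B.c g (mid B.N)).thS (B.R g 1)
      (fun x => (B.fr g).hm ((B.stp ρ (mid B.N) r s ch o f').Nth ((B.fr g).xp x)) i j)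
      (((r - 1 : ℕ) + 1) / 8 * (qp B.N (2 / 5) * √(pJ B.N * (B.c g 0).p))) := by
  have G := fo H
  have hD := Dp H hb
  have n : (93 / 100 : ℝ) < 1 := by norm_num
  have I := H.inv.ip.th g hd i j
  rw [nzn_mid] at I
  have gk := Bk.gd G hb g H.hk.le
  have ct : ∀ x, Tendsto (B.fr g).xp (𝓝 x) (𝓝 ((B.fr g).xp x)) := fun x =>
    (xp_sm _).continuous.tendsto x
  rw [add_div, add_mul]
  refine cbl_of_local fun x hx => ?_
  have I' := CBl.monoU I (singleton_subset_iff.2 hx)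
  rcases cs H hb f' ((B.fr g).xp x) with ⟨e, -⟩ | ⟨g', hg, hx', hn⟩
  · refine (CBl.congr I' ?_).monoB (le_add_of_nonneg_right (mul_nonneg (by norm_num)
      (mul_nonneg (hb.qp_pos _).le (Real.sqrt_nonneg _))))
    rintro _ rfl
    exact ((ct _).eventually e).mono fun y hy => by beta_reduce; rw [hy.1]
  have nb : Nbr 3 g g' := box_nbr hD (by norm_num) ((GeoP.xp_mem G).2 hx) hx'
  have A := al_of G hb hd nb
  have cp := Bk.cpk G hb nb H.hk.le H.hk.le
  have sT := (H.mo g' hg).ns.1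
  have c1 := CB.affine (U := {x}) (b := (B.fr g').Oᵀ *ᵥ ((B.fr g).x0 - (B.fr g').x0)) (κ := 2)
    (fun i => (cp.g'.thS_pos i).le) (fun i => (gk.thS_pos i).le) (by norm_num)
    (scale cp (Bk.deep_flags G hb hd (nbr_refl (by norm_num) g) H.hk.le).2.2.2.1
      (Bk.deep_flags G hb hd nb H.hk.le).2.2.2.1 (fun e => e.2.2.1.not_gt hb.mid_lt.1)
      (cp.g'.notboost_of_noise hn) rfl rfl A.tr.ort A.tr.off) (SmN.of_sm sT univ)
    (fun _ _ => mem_univ _) ((H.mo g' hg).ns.2.2.2.2 hn).1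
  have c2 := CBl.smul_le (fun i => (gk.thS_pos i).le) c1
    (c := (B.fr g).hm ((B.fr g').unm E02) i j) (C := 2) (by
      rw [GeoP.hm_unm', ← GeoP.P_t, e02]
      exact (aml (A.T_le _ _) (orth_abs_le A.ort _ _)).trans_eq (mul_one _))
  refine ((CBl.add (fun i => (gk.thS_pos i).le) ?_ ?_ I' c2).congr ?_).monoB (add_le_add_right
    (th_le hb ((Bk.cpk G hb nb (Nat.zero_le _) (Nat.zero_le _)).ratios Pm.p (by simp)).2.2.2.1
      cp.g'.p_pos.le) _)
  · exact ((smM_const _).mul (H.inv.ip.sm.1.comp (xp_sm _))).mul (smM_const _) i j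
  · exact contDiff_const.mul (sT.comp (T3.sm_affine _ _))
  rintro _ rfl
  refine ((ct _).eventually (box_nhds hD n hx')).mono fun y hy => ?_
  beta_reduce
  rw [(act H hb f' hg hy).2.1, hm_add, hm_smul, Matrix.add_apply, Matrix.smul_apply, smul_eq_mul,
    mul_comm, dT, Fr.xc, Fr.xp, GeoP.P_t, ← Matrix.mulVec_mulVec, ← Matrix.mulVec_add,
    add_sub_right_comm]

theorem nq (H : B.MH ρ (mid B.N) r s ch o) (hb : Big B.N) (f' : V → V) {g : Cu} (hd : B.deep g)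
    {x : V} (hx : x ∈ B.bx g (98 / 100)) :
    EB ((B.fr g).hm ((B.stp ρ (mid B.N) r s ch o f').Nth x) -
      (B.fr g).hm ((B.stp ρ (mid B.N) r s ch o f').Nth x) 0 2 • E02)
      (cm (((r - 1 : ℕ) + 1) * np B.N (-15))) ∧
    EB ((B.fr g).hm ((B.stp ρ (mid B.N) r s ch o f').Neq x) -
      (1 / 4 * pd 0 (B.Pq s.Pv g) ((B.fr g).xc x) *
        ((B.fr g).hm ((B.stp ρ (mid B.N) r s ch o f').Nth x) 0 2 ^ 2 -
          (B.stp ρ (mid B.N) r s ch o f').Yv x)) • E00) (cm (((r - 1 : ℕ) + 1) * np B.N (-15))) := by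
  have G := fo H
  have hD := Dp H hb
  obtain ⟨I1, I2⟩ := H.inv.ip.nq g hd x hx
  rw [nzn_mid] at I1 I2
  rw [add_mul, one_mul]
  rcases cs H hb f' x with ⟨e, -⟩ | ⟨g', hg, hx', hn⟩
  · obtain ⟨e1, e2, e3⟩ := e.self_of_nhds
    rw [e1, e2, e3]
    exact ⟨GeoP.eb_mono I1 (le_add_of_nonneg_right (hb.np_pos _).le),
      GeoP.eb_mono I2 (le_add_of_nonneg_right (hb.np_pos _).le)⟩
  have nb : Nbr 3 g g' := box_nbr hD (by norm_num) hx hx'
  have A := al_of G hb hd nb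
  have x1 : x ∈ B.bx g' 1 := box_mono hD.le (by norm_num) g' hx'
  obtain ⟨-, e1, e2, e3⟩ := act H hb f' hg x1
  obtain ⟨a1, a2, a3, a4, a5⟩ := sizes H hb hg hn (box_mono hD.le (by norm_num) g' hx')
  have PD := H.inv.ip.psh (.inr ⟨rfl, H.hr.1⟩)
  obtain ⟨p1, p2⟩ := PD.pqs g hd
  have x9 := (GeoP.xc_mem G).2 (box_mono hD.le (show (98 / 100 : ℝ) ≤ 99 / 100 by norm_num) g hx)
  have N0 : (1 : ℝ) ≤ B.N := Nat.one_le_cast.2 (N1 hb)
  have d0 := A.d0
  have d1 : 1000 * (dc B.N * B.N) ≤ np B.N (-15) := by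
    have := c_np hb (a := -25 + 1) (b := -15) (by norm_num)
    rwa [hb.np_add, np_one] at this
  have d2 := le_mul_of_one_le_right d0 N0
  have b1 : |dT B o g' x| ≤ 1 := a1.trans (by norm_num)
  have hP : |pd 0 (B.Pq s.Pv g') ((B.fr g').xc x) - pd 0 (B.Pq s.Pv g) ((B.fr g).xc x)| ≤
      35 * (dc B.N * B.N) := by
    obtain ⟨q1, q2⟩ := pq_eq B PD.sm (GeoP.orth G g) x
    have k1 : EB (jm s.Pv x * (B.fr g).O) (cm B.N) := fun i j => by
      rw [← q1]; simpa [cv, cm] using p2 i [j] rfl _ x9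
    have k2 := GeoP.eb_orth_mul (orth_t (GeoP.orth G g)) k1
    have k3 := abs_le.1 (A.tr.sand k2 0 0)
    have k4 := abs_le.1 (aml (A.sq 0) (show |_| ≤ 7 / 4 * (B.N : ℝ) from k2 0 0))
    rw [q2, (pq_eq B PD.sm (GeoP.orth G g') x).2]
    rw [GeoP.P_t, Matrix.transpose_mul, Matrix.transpose_transpose] at k3
    simp only [Matrix.mul_assoc] at k3
    rw [← Matrix.mul_assoc (B.fr g).O, ← Matrix.mul_assoc (B.fr g).O, (GeoP.orth G g).1,
      Matrix.one_mul, Matrix.one_mul, ← GeoP.P_t, Matrix.transpose_apply] at k3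
    rw [abs_le]; constructor <;> linarith [k3.1, k3.2, k4.1, k4.2]
  have hθ : |(B.fr g).hm (s.Nth x) 0 2 - ((B.fr g).Q⁻¹ * (B.fr g').Q) 0 0 *
      ((B.fr g).Oᵀ * (B.fr g').O) 2 2 * (B.fr g').hm (s.Nth x) 0 2| ≤ 18 * dc B.N := by
    rw [GeoP.hm_chg (F := B.fr g) (GeoP.orth G g') (GeoP.det_ne G g'), ← GeoP.P_t]
    refine (A.sand (m := 1) (fun i j => ?_) 0 2).trans_eq (by rw [mul_one])
    have t := (H.inv.ip.th g' (Bk.noise_deep G hb (nbr_refl (by norm_num) g') hn) i j).val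
      ((GeoP.xc_mem G).2 x1)
    rw [xp_xc (GeoP.orth G g'), nzn_mid] at t
    have t1 : ((r - 1 : ℕ) : ℝ) ≤ 8 := by exact_mod_cast (Nat.sub_le r 1).trans H.hr.2
    exact t.trans (mul_le_one₀ (by linarith) (mul_nonneg (hb.qp_pos _).le (Real.sqrt_nonneg _))
      ((small (Bk.gd0 G hb g')).2.1.trans (by norm_num)))
  obtain ⟨c1, c2⟩ := core A.mu ((aml (A.T_le 0 0) (orth_abs_le A.ort 2 2)).trans_eq (mul_one _))
    A.nu hθ (a3.trans (by norm_num)) b1 (a2.trans (by norm_num))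
    (abs_le.2 ⟨by linarith [(p1.2.1 _ x9).2.1], (p1.2.1 _ x9).2.2.1⟩) a4 hP
  rw [← a5] at c1 c2
  rw [e1, e2, e3, hm_add, hm_add, hm_smul, hm_smul, GeoP.hm_unm', GeoP.hm_unm', ← GeoP.P_t]
  generalize (B.fr g).Q⁻¹ * (B.fr g').Q = T, (B.fr g).Oᵀ * (B.fr g').O = W,
    (B.fr g).hm (s.Nth x) = M, (B.fr g).hm (s.Neq x) = M', dT B o g' x = a,
    dQ B ρ (mid B.N) r s ch o g' x = c, dYv B o g' x = y,
    pd 0 (B.Pq s.Pv g) ((B.fr g).xc x) = P at *
  refine ⟨fun i j => ?_, fun i j => ?_⟩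
  · have t := abs_le.1 (I1 i j)
    simp only [Matrix.sub_apply, Matrix.add_apply, Matrix.smul_apply, smul_eq_mul, e02, E02_eq, cm,
      Matrix.of_apply] at t ⊢
    split_ifs at t ⊢ with e
    · rw [e.1, e.2] at t ⊢
      rw [abs_le]; constructor <;> linarith [t.1, t.2]
    · have u := abs_le.1 (aml b1 (A.prod (not_and_or.1 e)))
      rw [abs_le]; constructor <;> linarith [t.1, t.2, u.1, u.2]
  · have t := abs_le.1 (I2 i j)
    simp only [Matrix.sub_apply, Matrix.add_apply, Matrix.smul_apply, smul_eq_mul, e02, e00, E00_eq,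
      cm, Matrix.of_apply] at t ⊢
    split_ifs at t ⊢ with e
    · rw [e.1, e.2] at t ⊢
      have u := abs_le.1 c2
      rw [abs_le]; constructor <;> linarith [t.1, t.2, u.1, u.2]
    · have u := abs_le.1 (aml c1 (A.prod (not_and_or.1 e)))
      rw [abs_le]; constructor <;> linarith [t.1, t.2, u.1, u.2]

end MpA
open MpA

theorem mp : MpStmt := by
  filter_upwards [ev_big] with N hb B hN ρ k r s ch o f' H
  subst hN
  have I := H.inv.ip
  have G := fo H
  have hD := Dp H hb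
  have ps : aft (mid B.N) k (r + 1) → B.PushD (s.zt (mid B.N)) s.Af s.ab s.Pv := fun h =>
    I.psh (h.imp_right fun e => ⟨e.1, H.hr.1⟩)
  by_cases hk : k = mid B.N
  swap
  · obtain ⟨e1, e2, e3⟩ := still H f' hk
    have en := nzn_ne hk (r + 1) r
    refine ⟨smooth H hb f', ?_, ps, ?_, ?_, ?_, ?_⟩ <;> simp only [e1, e2, e3, en]
    exacts [I.z0, I.off, I.th, I.nq, I.yv]
  subst hk
  have en : nzn B.N (mid B.N) (r + 1) = r - 1 + 1 := by
    rw [nzn_mid, Nat.add_sub_cancel, Nat.sub_add_cancel H.hr.1]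
  refine ⟨smooth H hb f', fun e => absurd (en ▸ e) (Nat.succ_ne_zero _), ps, fun g hp x hx => ?_,
    fun g hd i j => ?_, fun g hd x hx => ?_, fun g hd x hx => ?_⟩
  · rcases cs H hb f' x with ⟨e, -⟩ | ⟨g', -, hx', hn⟩
    · obtain ⟨e1, e2, e3⟩ := e.self_of_nhds
      rw [e1, e2, e3]
      exact I.off g hp x hx
    · exact absurd ⟨g', box_nbr hD (by norm_num) hx hx', hn.1⟩ hp
  · rw [en, Nat.cast_succ]
    exact th H hb f' hd i j
  · rw [en, Nat.cast_succ]
    exact nq H hb f' hd hx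
  obtain ⟨I1, I2⟩ := I.yv g hd x hx
  rw [nzn_mid] at I1 I2
  rw [en, wt_add hD, Nat.cast_succ]
  have g0 := Bk.gd0 G hb g
  suffices (B.c g 0).p * (79 / 1000 * wt B (r - 1) x - np B.N (-4)) ≤
      (B.stp ρ (mid B.N) r s ch o f').Yv x - s.Yv x ∧
      (B.stp ρ (mid B.N) r s ch o f').Yv x - s.Yv x ≤
        (B.c g 0).p * (111 / 1000 * wt B (r - 1) x + np B.N (-4)) by
    constructor <;> linarith [this.1, this.2]
  rcases cs H hb f' x with ⟨e, e'⟩ | ⟨g', hg, hx', hn⟩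
  · rw [e.self_of_nhds.2.2, e']
    constructor <;> linarith [mul_pos g0.p_pos (hb.np_pos (-4))]
  have x1 : x ∈ B.bx g' 1 := box_mono hD.le (by norm_num) g' hx'
  have cp := Bk.cpk G hb (box_nbr hD (by norm_num) hx hx' : Nbr 3 g g') (Nat.zero_le _)
    (Nat.zero_le _)
  obtain ⟨-, r1, r2, r3, -⟩ := cp.ratios Pm.p (by simp)
  obtain ⟨y1, y2⟩ := ((H.mo g' hg).ns.2.2.2.2 hn).2 ((B.fr g').xc x)
  rw [(act H hb f' hg x1).2.2.2, add_sub_cancel_left, wt,
    one hD (by norm_num) (fun g _ => wt_off hD g) hg x1, if_pos (show (B.c g' 0).push from hn.1),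
    al_eq_xc (D := B.D) (GeoP.orth G g') (GeoP.x0_eq G g')]
  exact yv_le cp.q_inv.2 r1 r2 r3 g0.p_pos cp.g'.p_pos (sq_nonneg _) (hb.np_pos _).le
    (c_np hb (a := -5) (by norm_num)) y1 y2

end
end Pool.Agent.MP_20bec2_an.T3

end MrgPart3

-- ======== part 4: formerly Pool.Agent.MP_20bec2_an.T3.NethA
section MrgPart4

/-! Column integrals of functions that decay away from a ball: approximation on a net. -/

set_option autoImplicit false
open MeasureTheory Set Filter Matrix Topology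

namespace Pool.Agent.MP_20bec2_an.T3
noncomputable section
open Classical

namespace Neth

/-- the majorant along the vertical -/
def ph (D r : ℝ) : ℝ := (1 + (r / D) ^ 2)⁻¹

lemma ph_pos (D r : ℝ) : 0 < ph D r := by unfold ph; positivity

lemma ph_le (D r : ℝ) : ph D r ≤ 1 :=
  inv_le_one_of_one_le₀ (le_add_of_nonneg_right (sq_nonneg _))

lemma ph_int {D : ℝ} (hD : 0 < D) : Integrable (ph D) :=
  integrable_inv_one_add_sq.comp_div hD.ne'

lemma ph_val {D : ℝ} (hD : 0 < D) : ∫ r, ph D r ≤ 4 * D := by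
  have h := Measure.integral_comp_div (fun x : ℝ => (1 + x ^ 2)⁻¹) D
  rw [integral_univ_inv_one_add_sq, abs_of_pos hD, smul_eq_mul] at h
  have h' : ∫ r, ph D r = D * Real.pi := h
  rw [h']
  nlinarith [Real.pi_lt_four]

/-- the weight: small outside the ball of radius `3 D` -/
def wt (D θ : ℝ) (z : V) : ℝ := (if 3 * D ≤ ‖z‖ then θ else 1) * ph D (z 2)

lemma wt_le {D θ : ℝ} (h1 : θ ≤ 1) (z : V) : wt D θ z ≤ ph D (z 2) := by
  unfold wt
  split_ifs
  · exact mul_le_of_le_one_left (ph_pos _ _).le h1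
  · rw [one_mul]

lemma wt_far {D θ : ℝ} {z : V} (hz : 3 * D ≤ ‖z‖) : wt D θ z = θ * ph D (z 2) := by
  rw [wt, if_pos hz]

lemma wt_nonneg {D θ : ℝ} (h0 : 0 ≤ θ) (z : V) : 0 ≤ wt D θ z := by
  unfold wt
  have := ph_pos D (z 2)
  split_ifs <;> positivity

lemma abs_int_le {D B : ℝ} (hD : 0 < D) (hB : 0 ≤ B) {I : Set ℝ} (hI : MeasurableSet I)
    {f : ℝ → ℝ} (h : ∀ r ∈ I, |f r| ≤ B * ph D r) : |∫ r in I, f r| ≤ B * (4 * D) := by
  have i := (ph_int hD).const_mul B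
  refine (norm_integral_le_of_norm_le (f := f) i.integrableOn
    ((ae_restrict_iff' hI).2 (Eventually.of_forall h))).trans ?_
  refine (setIntegral_le_integral i (Eventually.of_forall fun r =>
    mul_nonneg hB (ph_pos D r).le)).trans ?_
  rw [integral_const_mul]
  exact mul_le_mul_of_nonneg_left (ph_val hD) hB

/-- an integrand with decay; the chart is bounded where the integrand lives -/
structure Pk (D θ lam K : ℝ) (n : ℝ → V) (G : V → ℝ) : Prop where
  cn : Continuous n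
  sm : Sm G
  b0 : ∀ z, |G z| ≤ K * ph D (z 2)
  bf : ∀ z, 3 * D ≤ ‖z‖ → |G z| ≤ θ * K * ph D (z 2)
  b1 : ∀ j, j ≠ 2 → ∀ z, lam * |pd j G z| ≤ K * ph D (z 2)
  loc : ∀ w r, G (cpt n w r) ≠ 0 → ∀ i, i ≠ 2 → |n r i| ≤ D

variable {D θ lam K : ℝ} {n : ℝ → V} {G : V → ℝ}

lemma Pk.K0 (P : Pk D θ lam K n G) : 0 ≤ K :=
  nonneg_of_mul_nonneg_left ((abs_nonneg _).trans (P.b0 0)) (ph_pos _ _)

lemma Pk.int (P : Pk D θ lam K n G) (hD : 0 < D) (w : V) : Integrable fun r => G (cpt n w r) := by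
  have c : Continuous fun r => cpt n w r :=
    (continuous_cpt P.cn).comp (continuous_id.prodMk continuous_const)
  exact ((ph_int hD).const_mul K).mono' (P.sm.continuous.comp c).aestronglyMeasurable
    (Eventually.of_forall fun r => P.b0 (cpt n w r))

lemma Pk.small (P : Pk D θ lam K n G) (hD : 0 < D) (h0 : 0 ≤ θ) {I : Set ℝ} (hI : MeasurableSet I)
    {w : V} (h : ∀ r ∈ I, G (cpt n w r) ≠ 0 → 3 * D ≤ ‖cpt n w r‖) :
    |colI n I G w| ≤ θ * K * (4 * D) := by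
  have := P.K0
  refine abs_int_le hD (by positivity) hI fun r hr => ?_
  by_cases e : G (cpt n w r) = 0
  · have := ph_pos D r
    rw [e, abs_zero]; positivity
  · exact P.bf _ (h r hr e)

lemma Pk.lat (P : Pk D θ lam K n G) (hD : 0 < D) (hl : 0 < lam) {I : Set ℝ} (hI : MeasurableSet I)
    {w w' : V} {δ : ℝ} (h : ‖w - w'‖ ≤ δ) :
    |colI n I G w - colI n I G w'| ≤ K * (2 * δ / lam) * (4 * D) := by
  have := P.K0
  have hδ : 0 ≤ δ := (norm_nonneg _).trans h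
  have hi : ∀ i, |w i - w' i| ≤ δ := fun i => (norm_le_pi_norm (w - w') i).trans h
  unfold colI
  rw [← integral_sub (P.int hD w).integrableOn (P.int hD w').integrableOn]
  refine abs_int_le hD (by positivity) hI fun r _ => ?_
  have hU : Convex ℝ {z : V | z 2 = r} := fun x hx y hy a b _ _ hab => by
    simp only [mem_ofPred_eq, Pi.add_apply, Pi.smul_apply, smul_eq_mul] at hx hy ⊢
    rw [hx, hy, ← add_mul, hab, one_mul]
  have H : CBl (LatL 1) (cv lam) {z : V | z 2 = r} G (K * ph D r) := fun l hl z hz => by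
    obtain ⟨j, rfl⟩ := List.length_eq_one_iff.1 (le_antisymm hl.2.1 hl.1)
    have := P.b1 j (hl.2.2 j (List.mem_singleton_self j)) z
    rw [show z 2 = r from hz] at this
    simpa [hp, cv, pds] using this
  have k := lat_mvt (fun _ => hl) hU P.sm H le_rfl (x := cpt n w r) (x' := cpt n w' r) rfl rfl rfl
  have e0 : cpt n w r 0 - cpt n w' r 0 = w 0 - w' 0 := by simp [cpt]
  have e1 : cpt n w r 1 - cpt n w' r 1 = w 1 - w' 1 := by simp [cpt]
  rw [e0, e1] at k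
  refine k.trans ?_
  have p := ph_pos D r
  have a0 := div_le_div_of_nonneg_right (hi 0) hl.le
  have a1 := div_le_div_of_nonneg_right (hi 1) hl.le
  calc _ ≤ K * ph D r * (δ / lam + δ / lam) := by
        refine mul_le_mul_of_nonneg_left (add_le_add a0 a1) (by positivity)
    _ = _ := by ring

lemma Pk.vert (P : Pk D θ lam K n G) (hD : 0 < D) (a b : ℝ) (w : V) :
    |colI n (Iic a) G w - colI n (Iic b) G w| ≤ K * |a - b| := by
  unfold colI
  rw [intervalIntegral.integral_Iic_sub_Iic (P.int hD w).integrableOn (P.int hD w).integrableOn]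
  exact intervalIntegral.norm_integral_le_of_norm_le_const (f := fun r => G (cpt n w r))
    fun r _ => (P.b0 (cpt n w r)).trans (mul_le_of_le_one_right P.K0 (ph_le _ _))

lemma norm_cpt (n : ℝ → V) (w : V) (r : ℝ) : |r| ≤ ‖cpt n w r‖ := norm_le_pi_norm (cpt n w r) 2

lemma Pk.top (P : Pk D θ lam K n G) (hD : 0 < D) (h0 : 0 ≤ θ) {I : Set ℝ} (hI : MeasurableSet I)
    (h : Iic (4 * D) ⊆ I) (w : V) :
    |colI n I G w - colI n (Iic (4 * D)) G w| ≤ θ * K * (4 * D) := by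
  have e : colI n I G w - colI n (Iic (4 * D)) G w = colI n (I \ Iic (4 * D)) G w :=
    (setIntegral_sdiff measurableSet_Iic (P.int hD w).integrableOn h).symm
  rw [e]
  refine P.small hD h0 (hI.diff measurableSet_Iic) fun r hr _ => ?_
  have : 4 * D < r := not_le.1 hr.2
  linarith [norm_cpt n w r, le_abs_self r]

/-- every column integral is small or close to one with its end on the net -/
lemma approx (hD : 0 < D) (h0 : 0 ≤ θ) (hl : 0 < lam) {δ : ℝ} {Nt : Finset V}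
    (hN : ∀ x : V, ‖x‖ ≤ 4 * D → ∃ y ∈ Nt, ‖x - y‖ ≤ δ) (w : V) {I : Set ℝ}
    (hI : I = univ ∨ ∃ a, I = Iic a) :
    (∃ y ∈ Nt, ∀ n G, Pk D θ lam K n G → |colI n I G w - pre n G y| ≤
      θ * K * (4 * D) + K * (2 * δ / lam) * (4 * D) + K * δ) ∨
    ∀ n G, Pk D θ lam K n G → |colI n I G w| ≤ θ * K * (4 * D) := by
  have mI : MeasurableSet I := by
    rcases hI with rfl | ⟨a, rfl⟩
    exacts [MeasurableSet.univ, measurableSet_Iic]
  by_cases hw : ∀ i, i ≠ 2 → |w i| ≤ 4 * D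
  swap
  · push Not at hw
    obtain ⟨i, hi, hw⟩ := hw
    refine Or.inr fun n G P => P.small hD h0 mI fun r _ e => ?_
    have h1 := P.loc w r e i hi
    have h2 : cpt n w r i = w i + n r i := by
      fin_cases i
      · rfl
      · rfl
      · exact absurd rfl hi
    have h3 : |w i + n r i| ≤ ‖cpt n w r‖ := h2 ▸ norm_le_pi_norm (cpt n w r) i
    have h4 := abs_sub (w i + n r i) (n r i)
    rw [add_sub_cancel_right] at h4
    linarith
  have key : (∃ t, |t| ≤ 4 * D ∧ ∀ n G, Pk D θ lam K n G →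
      |colI n I G w - colI n (Iic t) G w| ≤ θ * K * (4 * D)) ∨
      ∀ n G, Pk D θ lam K n G → |colI n I G w| ≤ θ * K * (4 * D) := by
    have top : Iic (4 * D) ⊆ I → ∃ t, |t| ≤ 4 * D ∧ ∀ n G, Pk D θ lam K n G →
        |colI n I G w - colI n (Iic t) G w| ≤ θ * K * (4 * D) := fun h =>
      ⟨4 * D, (abs_of_pos (by linarith)).le, fun n G P => P.top hD h0 mI h w⟩
    rcases hI with rfl | ⟨a, rfl⟩
    · exact Or.inl (top (subset_univ _))
    rcases le_total (4 * D) a with ha | ha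
    · exact Or.inl (top (Iic_subset_Iic.2 ha))
    rcases le_total a (-(4 * D)) with hb | hb
    · refine Or.inr fun n G P => P.small hD h0 mI fun r hr _ => ?_
      have : r ≤ a := hr
      linarith [norm_cpt n w r, neg_abs_le r]
    · refine Or.inl ⟨a, abs_le.2 ⟨hb, ha⟩, fun n G P => ?_⟩
      have := P.K0
      rw [sub_self, abs_zero]; positivity
  refine key.imp_left fun ⟨t, ht, H⟩ => ?_
  obtain ⟨y, hy, hd⟩ := hN ![w 0, w 1, t] ((pi_norm_le_iff_of_nonneg (by linarith)).2 fun i => by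
    fin_cases i
    exacts [hw 0 (by decide), hw 1 (by decide), ht])
  refine ⟨y, hy, fun n G P => ?_⟩
  have e : colI n (Iic t) G w = colI n (Iic t) G ![w 0, w 1, t] := rfl
  have h1 := H n G P
  have h2 := P.lat hD hl (I := Iic t) measurableSet_Iic hd
  have h3 := P.vert hD t (y 2) y
  have h4 : |t - y 2| ≤ δ := (norm_le_pi_norm (![w 0, w 1, t] - y) 2).trans hd
  have h5 := mul_le_mul_of_nonneg_left h4 P.K0
  rw [← e] at h2
  rw [pre_eq_colI]
  rw [abs_le] at h1 h2 h3 ⊢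
  constructor <;> linarith [h1.1, h1.2, h2.1, h2.2, h3.1, h3.2]

/-- the package from pointwise bounds -/
lemma pk {m : ℕ} {h : V} {f : V → ℝ} {K0 M : ℝ} {l : List (Fin 3)} (hh : ∀ i, 0 < h i)
    (h0 : 0 ≤ θ) (h1 : θ ≤ 1) (hn : Continuous n) (hf : Sm f)
    (H : ∀ z, CB (m + 1) h {z} f (K0 * wt D θ z)) (hl : l.length ≤ m) (hM : 0 < M) (hK : 0 ≤ K)
    (hKM : K0 ≤ K * M) (hlam : ∀ j, j ≠ 2 → lam ≤ h j)
    (loc : ∀ w r, pds l f (cpt n w r) ≠ 0 → ∀ i, i ≠ 2 → |n r i| ≤ D) :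
    Pk D θ lam K n fun z => hp h l / M * pds l f z := by
  have p := hp_pos hh l
  have b : ∀ l' : List (Fin 3), l'.length ≤ m + 1 → ∀ z,
      hp h l' * |pds l' f z| / M ≤ K * wt D θ z := fun l' hl' z => by
    rw [div_le_iff₀ hM]
    refine (H z l' hl' z rfl).trans ?_
    have := mul_le_mul_of_nonneg_right hKM (wt_nonneg (D := D) h0 z)
    linarith
  have a : ∀ z, |hp h l / M * pds l f z| ≤ K * wt D θ z := fun z => by
    rw [abs_mul, abs_of_pos (div_pos p hM), div_mul_eq_mul_div]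
    exact b l (by omega) z
  refine ⟨hn, (hf.pds l).cmul _, fun z => (a z).trans (mul_le_mul_of_nonneg_left (wt_le h1 z) hK),
    fun z hz => (a z).trans_eq (by rw [wt_far hz]; ring), fun j hj z => ?_,
    fun w r e => loc w r (right_ne_zero_of_mul e)⟩
  have k := b (j :: l) (by simpa using hl) z
  rw [pd_const_mul, abs_mul, abs_of_pos (div_pos p hM)]
  refine le_trans ?_ (k.trans (mul_le_mul_of_nonneg_left (wt_le h1 z) hK))
  have e : hp h (j :: l) * |pds (j :: l) f z| / M = h j * (hp h l / M * |pd j (pds l f) z|) := by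
    simp only [hp, pds, List.map_cons, List.prod_cons]; ring
  rw [e]
  exact mul_le_mul_of_nonneg_right (hlam j hj) (by positivity)

/-- decay of a density whose sources lie in the ball of radius `2 D` -/
lemma dec (m : ℕ) : ∃ C : ℝ, 1 ≤ C ∧ ∀ (h : V) (U : Set V) (a : V → ℝ) (A : ℝ) (Z : V → V)
    (S : V → Mx) (D T : ℝ), KL h U a A Z S → 0 < D → 0 ≤ T → (∀ x, a x ≠ 0 → ‖Z x‖ ≤ 2 * D) →
    (∀ i, 540 * (T + 1) * h i ^ 2 ≤ D ^ 2) →
    Sm (dens a Z S) ∧ ∀ z, CB m h {z} (dens a Z S) (C * A * wt D (Real.exp (-T)) z) := by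
  obtain ⟨C, c1, -, H⟩ := kb_ k1 m
  refine ⟨10 * C, by linarith, fun h U a A Z S D T K hD hT hZ hh => ?_⟩
  obtain ⟨g, b0, bf⟩ := H h U a A Z S K
  have A0 : 0 ≤ A := (abs_nonneg _).trans (K.ba 0)
  have CA : 0 ≤ C * A := by positivity
  refine ⟨(k1 a Z S g).1, fun z => ?_⟩
  have z2 : (z 2 / D) ^ 2 ≤ (‖z‖ / D) ^ 2 := by
    rw [← sq_abs, abs_div, abs_of_pos hD]
    exact pow_le_pow_left₀ (by positivity)
      (div_le_div_of_nonneg_right (norm_le_pi_norm z 2) hD.le) 2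
  by_cases hz : 3 * D ≤ ‖z‖
  · refine CBl.monoB (bf z (60 * (T + (z 2 / D) ^ 2)) fun x _ hx => ?_) ?_
    · obtain ⟨i, hi⟩ : ∃ i, ‖z‖ / 3 ≤ |(Z x - z) i| := by
        by_contra k
        push Not at k
        have k1 : ‖Z x - z‖ < ‖z‖ / 3 := (pi_norm_lt_iff (by linarith)).2 k
        have k2 := norm_sub_norm_le z (Z x)
        rw [norm_sub_rev] at k2
        linarith [hZ x hx]
      refine le_trans ?_ (Finset.single_le_sum (f := fun j => ((Z x - z) j / h j) ^ 2)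
        (fun j _ => sq_nonneg _) (Finset.mem_univ i))
      have p := K.hh i
      have k1 : (‖z‖ / 3) ^ 2 ≤ (Z x - z) i ^ 2 := by
        rw [← sq_abs ((Z x - z) i)]
        exact pow_le_pow_left₀ (by positivity) hi 2
      have k2 : 1 ≤ (‖z‖ / D) ^ 2 := one_le_pow₀ ((one_le_div hD).2 (by linarith))
      have k3 : 60 * (T + (z 2 / D) ^ 2) ≤ 60 * (T + 1) * (‖z‖ / D) ^ 2 := by nlinarith
      refine k3.trans ?_
      rw [div_pow ((Z x - z) i), le_div_iff₀ (by positivity)]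
      refine le_trans ?_ k1
      have k4 := mul_le_mul_of_nonneg_right (hh i) (sq_nonneg (‖z‖ / D))
      have k5 : D ^ 2 * (‖z‖ / D) ^ 2 = ‖z‖ ^ 2 := by field_simp
      nlinarith
    · rw [wt_far hz]
      have k1 : Real.exp (-(z 2 / D) ^ 2) ≤ ph D (z 2) := by
        rw [Real.exp_neg]
        exact inv_anti₀ (by positivity) (by linarith [Real.add_one_le_exp ((z 2 / D) ^ 2)])
      have k2 : Real.exp (-(60 * (T + (z 2 / D) ^ 2)) / 60) =
          Real.exp (-T) * Real.exp (-(z 2 / D) ^ 2) := by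
        rw [← Real.exp_add]; congr 1; ring
      have k3 := mul_le_mul_of_nonneg_left k1 (Real.exp_pos (-T)).le
      have k4 : 0 ≤ Real.exp (-T) * ph D (z 2) := mul_nonneg (Real.exp_pos _).le (ph_pos _ _).le
      rw [k2]
      nlinarith
  · refine CBl.monoB (CBl.monoU b0 (subset_univ _)) ?_
    rw [wt, if_neg hz, one_mul]
    have k1 : (‖z‖ / D) ^ 2 ≤ 3 ^ 2 :=
      pow_le_pow_left₀ (by positivity) ((div_le_iff₀ hD).2 (not_le.1 hz).le) 2
    have k2 : 1 / 10 ≤ ph D (z 2) := by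
      rw [one_div]
      exact inv_anti₀ (by positivity) (by linarith)
    nlinarith

lemma cold {h : V} {U : Set V} {a : V → ℝ} {A : ℝ} {Z : V → V} {S : V → Mx} {D T : ℝ}
    (K : KL h U a A Z S) (hD : 0 < D) (hT : 0 ≤ T) (hZ : ∀ x, a x ≠ 0 → ‖Z x‖ ≤ 2 * D)
    (hh : ∀ i, 540 * (T + 1) * h i ^ 2 ≤ D ^ 2) : ColD (dens a Z S) := by
  refine ⟨((dec 0).choose_spec.2 h U a A Z S D T K hD hT hZ hh).1, fun l => ?_⟩
  obtain ⟨C, c1, H⟩ := dec l.length
  have A0 : 0 ≤ A := (abs_nonneg _).trans (K.ba 0)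
  have p := hp_pos K.hh l
  refine ⟨fun r => C * A / hp h l * ph D r, (ph_int hD).const_mul _, fun z => ?_⟩
  have k := (H h U a A Z S D T K hD hT hZ hh).2 z l le_rfl z rfl
  have k1 := wt_le (D := D) (Real.exp_le_one_iff.2 (neg_nonpos.2 hT)) z
  have k2 := mul_le_mul_of_nonneg_left k1 (show 0 ≤ C * A by positivity)
  beta_reduce
  rw [div_mul_eq_mul_div, le_div_iff₀' p]
  linarith

end Neth

end
end Pool.Agent.MP_20bec2_an.T3

end MrgPart4

-- ======== part 5: formerly Pool.Agent.MP_20bec2_an.T3.Neth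
section MrgPart5

/-! Row NETH: a finite net for the column functionals. -/

set_option autoImplicit false
open MeasureTheory Set Filter Matrix Topology

namespace Pool.Agent.MP_20bec2_an.T3
noncomputable section
open Classical

attribute [local irreducible] LL

namespace Neth

lemma par {c : Pm} (h : Gd c) : (∀ i, c.lam ≤ c.hs i) ∧ (∀ i, c.hs i ≤ c.y) ∧
    (∀ i, c.hs i ≤ c.cw i) ∧ (∀ i, c.cw i ≤ c.D) ∧ c.lam ≤ c.GG ∧
    c.D ≤ (c.N : ℝ) ^ 97 * c.lam ∧ 540 * (2000 * c.J + 1) * c.y ^ 2 ≤ c.D ^ 2 ∧ 1 ≤ pA c.N := by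
  have hL := h.big.L_ge
  have hJ := h.big.J_ge
  have hN := h.big.N_ge
  have l0 := h.lam_pos
  have lb : Real.log c.lam ≤ Real.log c.lb := Real.log_le_log l0 h.lam_le_lb
  have a1 : 1 ≤ pA c.N := one_le_pow₀ (by linarith)
  have y1 : c.lam ≤ c.y := le_of_log l0 h.y_pos (by rw [h.log_y]; linarith)
  have y2 : c.l1 ≤ c.y :=
    le_of_log h.l1_pos h.y_pos (by rw [h.log_y, h.log_l1]; linarith [h.log_ro_bd.2])
  have y3 : c.y ≤ c.L := le_of_log h.y_pos h.L_pos (by rw [h.log_y, h.log_L]; linarith)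
  have d0 : pA c.N * c.l1 ≤ c.D := le_of_log (mul_pos h.big.pA_pos h.l1_pos) h.D_pos (by
    rw [Real.log_mul h.big.pA_pos.ne' h.l1_pos.ne', h.big.log_pA, h.log_l1, h.log_D]
    linarith [h.log_ro_bd.2])
  have d1 : pA c.N * c.lam ≤ c.D :=
    (mul_le_mul_of_nonneg_left h.lam_le_l1 h.big.pA_pos.le).trans d0
  have d2 : c.L ≤ c.D := le_of_log h.L_pos h.D_pos (by rw [h.log_D, h.log_L]; linarith)
  refine ⟨fun i => ?_, fun i => ?_, fun i => ?_, fun i => ?_, ?_, ?_, ?_, a1⟩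
  · fin_cases i
    exacts [h.lam_le_l1, le_rfl, y1]
  · fin_cases i
    exacts [y2, y1, le_rfl]
  · fin_cases i
    exacts [le_mul_of_one_le_left h.l1_pos.le a1, le_mul_of_one_le_left l0.le a1, y3]
  · fin_cases i
    exacts [d0, d1, d2]
  · exact le_of_log l0 h.GG_pos (by linarith [h.log_GG_bd.1])
  · have h1 := h.lb_le
    rw [show (93 : ℝ) = (93 : ℕ) by norm_num, np_nat] at h1
    have h2 := mul_le_mul_of_nonneg_left h1 (pow_pos h.N_pos 4).le
    calc c.D ≤ (c.N : ℝ) ^ 4 * ((c.N : ℝ) ^ 93 * c.lam) := h2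
      _ = _ := by ring
  · have h1 : 540 * (2000 * c.J + 1) ≤ c.N := by
      show 540 * (2000 * pJ c.N + 1) ≤ c.N
      linarith
    refine (mul_le_mul_of_nonneg_right h1 (sq_nonneg _)).trans ?_
    have := h.N_pos
    have := h.y_pos
    have := h.D_pos
    refine le_of_log (by positivity) (by positivity) ?_
    rw [Real.log_mul (by positivity) (by positivity), Real.log_pow, Real.log_pow, h.log_y, h.log_D,
      h.big.log_N]
    push_cast
    linarith

/-- the small factor -/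
def th (d : MD) : ℝ := Real.exp (-(2000 * d.c.J))

lemma th_eq {d : MD} (h : Gd d.c) : th d = 1 / (d.c.N : ℝ) ^ 2000 := by
  rw [th, Real.exp_neg, one_div, ← h.big.exp_J, ← Real.exp_nat_mul]
  rfl

/-- bounds for the components of the linear flux -/
lemma fv (m : ℕ) : ∃ C : ℝ, 1 ≤ C ∧ ∀ (d : MD) (s : Sa) (v : V → V) (ω : V → ℝ) (h : V)
    (S : V → Mx), Gd d.c → d.In → d.Cr d.ep v ω →
    (∀ x ∈ d.R (99 / 100), ‖d.O *ᵥ (d.Z x + s.U x - x)‖ ≤ d.c.D / 900) →
    (∀ (a : V → ℝ) (A : ℝ), Measurable a → (∀ x, |a x| ≤ A) →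
      (∀ x, x ∉ d.R (93 / 100) → a x = 0) →
      KL h (d.R (99 / 100)) a A (fun x => d.Z x + s.U x) (fun x => S x - s.C x)) →
    (∀ i, i ≠ 2 → h i = d.c.hs i) → (∀ i, h i ≤ d.c.y) → ∀ i,
    ColD (fun z => d.Fv S s v z i) ∧
      ∀ z, CB m h {z} (fun z => d.Fv S s v z i) (C * (2 * d.c.q * h i) * wt d.c.D (th d) z) := by
  obtain ⟨C, c1, H⟩ := dec m
  refine ⟨C, c1, fun d s v ω h S g hI hc hz hk e hy i => ?_⟩
  have hp := (hk 0 0 measurable_zero (by simp) (by simp)).hh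
  have q0 := g.q_pos
  have D0 := g.D_pos
  have J0 := g.J_pos
  have su : ∀ x, x ∉ d.R (93 / 100) → d.ρ x * v x i = 0 := fun x hx => by
    rw [((hc.sup x).1 hx).1]; simp
  have K := hk (fun x => d.ρ x * v x i) (2 * d.c.q * h i)
    (hI.rho.1.mul (hc.sm.1.coord i).continuous.measurable) (fun x => by
      have p := hp i
      by_cases hi : i = 2
      · rw [hi, (hc.sup x).2, mul_zero, abs_zero]
        have := hp 2
        positivity
      have r1 : |d.ρ x| ≤ 2 := by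
        have r := abs_le.1 (hI.rho.2 x)
        have : eps0 ≤ 1 := by unfold eps0; norm_num
        rw [abs_le]; constructor <;> linarith [r.1, r.2]
      have e1 : d.ep ≤ 1 := (g.big.np_le (by norm_num)).trans_eq (np_zero _)
      have r2 : |v x i| ≤ d.c.q * h i := by
        refine (hc.sz x i).trans ?_
        rw [← e i hi, mul_assoc]
        exact mul_le_of_le_one_left (by positivity) e1
      rw [abs_mul, mul_assoc]
      exact mul_le_mul r1 r2 (abs_nonneg _) (by norm_num)) su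
  have hZ : ∀ x, d.ρ x * v x i ≠ 0 → ‖d.Z x + s.U x‖ ≤ 2 * d.c.D := fun x hx => by
    have x1 : x ∈ d.R (93 / 100) := by_contra fun k => hx (su x k)
    have x2 := Prof.RX_norm hI.ort x1
    have x3 := hz x (Prof.RX_mono _ D0.le (by norm_num) x1)
    have x4 := Prof.orth_norm_ge hI.ort (d.Z x + s.U x - x)
    have x5 := norm_sub_norm_le (d.Z x + s.U x) x
    linarith
  have hh : ∀ j, 540 * (2000 * d.c.J + 1) * h j ^ 2 ≤ d.c.D ^ 2 := fun j =>
    (mul_le_mul_of_nonneg_left (pow_le_pow_left₀ (hp j).le (hy j) 2) (by positivity)).trans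
      (par g).2.2.2.2.2.2.1
  exact ⟨(cold K D0 (by positivity) hZ hh).neg,
    fun z => CBl.neg ((H _ _ _ _ _ _ _ _ K D0 (by positivity) hZ hh).2 z)⟩

lemma near_closed (c : Pm) (g : Cu) : IsClosed {z : V | c.Near g z} := by
  simp only [Pm.Near, ofPred_forall]
  exact isClosed_iInter fun i => isClosed_le (by fun_prop) continuous_const

lemma near_of_ne {c : Pm} {g : Cu} {F : V → V} {i : Fin 3} {l : List (Fin 3)} {z : V}
    (h : pds l (c.cf g F i) z ≠ 0) : c.Near g z := by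
  by_contra k
  refine h (pds_zero_off (near_closed c g) (fun x hx => ?_) l z k)
  have : c.bc g x = 0 := by_contra fun e => hx (Prof.bc_near e)
  rw [Pm.cf, this, zero_mul]

lemma far_cell {d : MD} (h : Gd d.c) {g : Cu} (hg : g ∉ d.cells) {z : V} (hz : d.c.Near g z) :
    3 * d.c.D ≤ ‖z‖ := by
  rw [MD.cells, Fintype.mem_piFinset] at hg
  push Not at hg
  obtain ⟨i, hi⟩ := hg
  have p := h.cw_pos i
  have D0 := h.D_pos
  have h1 : ⌈4 * d.c.D / d.c.cw i⌉ + 1 ≤ |g i| := by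
    rw [Finset.mem_Icc, ← abs_le, not_le] at hi
    exact hi
  have h2 : (⌈4 * d.c.D / d.c.cw i⌉ : ℝ) + 1 ≤ |(g i : ℝ)| := by exact_mod_cast h1
  have h3 := Int.le_ceil (4 * d.c.D / d.c.cw i)
  have h4 := abs_sub_abs_le_abs_sub (g i : ℝ) (z i / d.c.cw i)
  rw [abs_sub_comm] at h4
  have h5 : 4 * d.c.D / d.c.cw i ≤ |z i / d.c.cw i| := by linarith [hz i]
  rw [abs_div, abs_of_pos p, div_le_div_iff_of_pos_right p] at h5
  have h6 : |z i| ≤ ‖z‖ := norm_le_pi_norm z i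
  linarith

lemma card_cells {d : MD} (h : Gd d.c) : (d.cells.card : ℝ) ≤ ((d.c.N : ℝ) ^ 98) ^ 3 := by
  obtain ⟨p1, -, p3, -, -, p6, -, -⟩ := par h
  have hN : (11 : ℝ) ≤ d.c.N := by linarith [h.big.N_ge, h.big.J_ge, h.big.L_ge]
  have D0 := h.D_pos
  rw [MD.cells, Fintype.card_piFinset, Nat.cast_prod, ← Fin.prod_const]
  refine Finset.prod_le_prod (fun _ _ => Nat.cast_nonneg _) fun i _ => ?_
  have p := h.cw_pos i
  have h0 : 0 ≤ ⌈4 * d.c.D / d.c.cw i⌉ := Int.ceil_nonneg (by positivity)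
  have h1 : (((Finset.Icc (-⌈4 * d.c.D / d.c.cw i⌉) ⌈4 * d.c.D / d.c.cw i⌉).card : ℤ) : ℝ) =
      (⌈4 * d.c.D / d.c.cw i⌉ + 1 - -⌈4 * d.c.D / d.c.cw i⌉ : ℤ) := by
    rw [Int.card_Icc_of_le _ _ (by omega)]
  push_cast at h1
  have h2 := Int.ceil_lt_add_one (4 * d.c.D / d.c.cw i)
  have n1 : (1 : ℝ) ≤ (d.c.N : ℝ) ^ 97 := one_le_pow₀ (by linarith)
  have h3 : 4 * d.c.D / d.c.cw i ≤ 4 * (d.c.N : ℝ) ^ 97 := by
    rw [div_le_iff₀ p]
    have := mul_le_mul_of_nonneg_left ((p1 i).trans (p3 i)) (zero_le_one.trans n1)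
    linarith
  rw [h1, pow_succ]
  nlinarith

lemma hp_lat {h h' : V} (e : ∀ i, i ≠ 2 → h i = h' i) {l : List (Fin 3)} (hl : ∀ i ∈ l, i ≠ 2) :
    hp h l = hp h' l := by
  unfold hp
  rw [List.map_congr_left fun i hi => e i (hl i hi)]

/-- the package with the constants of the cube -/
def Pd (d : MD) : (ℝ → V) → (V → ℝ) → Prop := Pk d.c.D (th d) d.c.lam (d.c.N / d.c.lam)

/-- the column functionals as integrals of packages -/
lemma rep (h1 : KlsStmt) : EvD fun d => Gd d.c ∧ ∀ s v ω, d.Gw s → d.Cr d.ep v ω →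
    (∀ g, ∀ l ∈ LL 3, ∀ i, i ≠ 2 → ∃ G, Pd d (d.ch g) G ∧ (∀ z, G z ≠ 0 → d.c.Near g z) ∧
      ∀ w, d.kP g w l i s v ω = pre (d.ch g) G w ∧ d.kT g w l i s v ω = tot (d.ch g) G w) ∧
    ∀ l ∈ LL 2, ∃ G, Pd d 0 G ∧ ∀ w, d.kL w l s v ω = pre 0 G w := by
  obtain ⟨C, c1, H⟩ := fv 4
  obtain ⟨B, b1, HB⟩ := Prof.cb_bc 4
  filter_upwards [h1, ev_gd, ev_CqJ_np (64 * B * C) 1 0 one_pos] with N k1 k2 k3 d hN hk hI
  have g := k2 d.c hN hI.ok
  rw [qp_one, Jp_zero, np_one, mul_one, ← hN] at k3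
  replace k3 : 64 * B * C * d.c.q ≤ d.c.N := k3
  obtain ⟨p1, p2, p3, p4, p5, -, -, p8⟩ := par g
  have l0 := g.lam_pos
  have q0 := g.q_pos
  have N0 := g.N_pos
  have G0 := g.GG_pos
  have D0 := g.D_pos
  have t0 : 0 ≤ th d := (Real.exp_pos _).le
  have t1 : th d ≤ 1 := Real.exp_le_one_iff.2 (by linarith [g.J_pos])
  have kG : (d.c.N : ℝ) / 2 ≤ d.c.N / d.c.lam * (d.c.GG / 2) := by
    have : 1 ≤ d.c.GG / d.c.lam := (one_le_div l0).2 p5
    have e : d.c.N / d.c.lam * (d.c.GG / 2) = d.c.N / 2 * (d.c.GG / d.c.lam) := by ring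
    rw [e]
    exact le_mul_of_one_le_right (by positivity) this
  refine ⟨g, fun s v ω hs hc => ?_⟩
  obtain ⟨a1, a2⟩ := k1 d hN hk hI s hs
  refine ⟨fun c l hl i hi => ?_, fun l hl => ?_⟩
  · obtain ⟨f1, f2⟩ := H d s v ω d.c.hs d.S g hI hc (fun x hx => (a1 x hx).2.1)
      (fun a A m b z => (a2 a A m b z).1) (fun _ _ => rfl) p2 i
    have hn := (hI.chb.2 c).1.continuous
    have cd : ColD (d.c.cf c (d.Fv d.S s v) i) :=
      f1.bmul (Prof.bc_sm _ c) (BdD.of_compact (Prof.bc_sm _ c) (Prof.bc_hcs g.cw_pos c))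
    have w1 : 1 ≤ d.wl l := by
      unfold MD.wl
      split_ifs
      exacts [p8, le_rfl]
    have hi0 := g.hs_pos i
    have M0 : 0 < d.c.hs i * (d.c.GG / 2) * d.wl l := by positivity
    refine ⟨fun z => hp d.c.hs l / (d.c.hs i * (d.c.GG / 2) * d.wl l) *
      pds l (d.c.cf c (d.Fv d.S s v) i) z, pk (m := 3) (K0 := 2 ^ 4 * B * (C * (2 * d.c.q * d.c.hs i)))
      g.hs_pos t0 t1 hn cd.1 (fun z => ?_) (LL_len hl) M0 (by positivity) ?_ (fun j _ => p1 j)
      fun w r e j hj => ?_, fun z e => near_of_ne (right_ne_zero_of_mul e), fun w => ⟨?_, ?_⟩⟩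
    · refine CBl.monoB (CB.mul (fun j => (g.hs_pos j).le) (Prof.bc_sm _ c) f1.1
        (CBl.mono (HB d.c c) (fun _ k => k) (fun j => (g.hs_pos j).le) p3 (subset_univ _) le_rfl)
        (f2 z)) (le_of_eq (by ring))
    · calc _ = d.c.hs i * (64 * B * C * d.c.q / 2) * 1 := by ring
        _ ≤ d.c.hs i * (d.c.N / d.c.lam * (d.c.GG / 2)) * d.wl l := by
          refine mul_le_mul (mul_le_mul_of_nonneg_left (by linarith) hi0.le) w1 zero_le_one
            (by positivity)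
        _ = _ := by ring
    · have k := (((hI.chb.2 c).2 j hj r).1 (near_of_ne e 2)).trans
        (div_le_self (g.cw_pos j).le (by norm_num))
      exact k.trans (p4 j)
    · rw [pre_const_mul, ← cd.pds_pre hn (LL_lat hl)]
      simp only [MD.kP]
      ring
    · rw [tot_const_mul, ← cd.pds_tot hn (LL_lat hl)]
      simp only [MD.kT]
      ring
  · have e : ∀ i, i ≠ 2 → d.c.hy d.yL i = d.c.hs i := fun i hi => by
      fin_cases i
      exacts [rfl, rfl, absurd rfl hi]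
    have f := H d s v ω (d.c.hy d.yL) d.SL g hI hc (fun x hx => (a1 x hx).2.1)
      (fun a A m b z => (a2 a A m b z).2.2) e fun i => by
        fin_cases i
        exacts [p2 0, p2 1, hI.yl.2]
    have hh := (a2 0 0 measurable_zero (by simp) (by simp)).2.2.hh
    have hn : Continuous (0 : ℝ → V) := continuous_zero
    have cd : ColD (dv (d.Fv d.SL s v)) := ColD.dv fun i => (f i).1
    refine ⟨fun z => hp (d.c.hy d.yL) l / (d.c.GG / 2) * pds l (dv (d.Fv d.SL s v)) z,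
      pk (m := 2) (K0 := 6 * C * d.c.q) hh t0 t1 hn cd.1 (fun z => ?_) (LL_len hl) (by positivity)
      (by positivity) ?_ (fun j hj => (p1 j).trans_eq (e j hj).symm)
      fun w r _ j _ => ?_, fun w => ?_⟩
    · refine CBl.monoB (cb_dv hh (sm_pi fun i => (f i).1.1) fun i => CB.toCV ((f i).2 z))
        (le_of_eq ?_)
      have e1 : ∀ i, C * (2 * d.c.q * d.c.hy d.yL i) * wt d.c.D (th d) z / d.c.hy d.yL i =
          2 * C * d.c.q * wt d.c.D (th d) z := fun i => by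
        have := hh i
        field_simp
      rw [Fin.sum_univ_three, e1, e1, e1]
      ring
    · have : 0 ≤ C * d.c.q := by positivity
      nlinarith
    · simpa using D0.le
    · rw [pre_const_mul, ← cd.pds_pre hn (LL_lat hl), hp_lat e (LL_lat hl)]
      simp only [MD.kL]
      ring

lemma num {N lam D : ℝ} (hN : 13 ≤ N) (hl : 0 < lam) (hD : 0 < D) (h : D ≤ N ^ 97 * lam) :
    N ^ 1800 * (1 / N ^ 2000 * (N / lam) * (4 * D) +
      N / lam * (2 * (lam / N ^ 2000) / lam) * (4 * D) + N / lam * (lam / N ^ 2000)) ≤ 1 ∧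
    2 * (4 * D) / (lam / N ^ 2000) + 3 ≤ N ^ 2098 := by
  have N0 : 0 < N := by linarith
  have N1 : 1 ≤ N := by linarith
  have h1 : D / lam ≤ N ^ 97 := (div_le_iff₀ hl).2 h
  have n1 : 1 ≤ N ^ 97 := one_le_pow₀ N1
  constructor
  · have e : N ^ 1800 * (1 / N ^ 2000 * (N / lam) * (4 * D) +
        N / lam * (2 * (lam / N ^ 2000) / lam) * (4 * D) + N / lam * (lam / N ^ 2000)) =
        (12 * (D / lam) + 1) / N ^ 199 := by
      rw [show N ^ 2000 = N ^ 1800 * (N ^ 199 * N) by ring]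
      generalize hA : N ^ 1800 = A
      have : 0 < A := hA ▸ pow_pos N0 _
      generalize hB : N ^ 199 = B
      have : 0 < B := hB ▸ pow_pos N0 _
      field_simp
      ring
    rw [e, div_le_one (pow_pos N0 _)]
    calc _ ≤ N ^ 97 * N := by nlinarith
      _ = N ^ 98 := by ring
      _ ≤ _ := pow_le_pow_right₀ N1 (by norm_num)
  · have e : 2 * (4 * D) / (lam / N ^ 2000) = 8 * (D / lam) * N ^ 2000 := by
      generalize N ^ 2000 = A
      field_simp
      ring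
    have n2 : 1 ≤ N ^ 2000 := one_le_pow₀ N1
    have n3 := mul_le_mul_of_nonneg_right h1 (zero_le_one.trans n2)
    have n4 : 1 ≤ N ^ 97 * N ^ 2000 := one_le_mul_of_one_le_of_one_le n1 n2
    rw [e, show N ^ 2098 = N ^ 97 * N ^ 2000 * N by ring]
    generalize N ^ 97 * N ^ 2000 = A at n3 n4
    nlinarith

lemma num2 {N a b : ℝ} (hN : 64 ≤ N) (b0 : 0 ≤ b) (ha : a ≤ (N ^ 98) ^ 3)
    (hb : b ≤ (N ^ 2098) ^ 3) : a * (b * (2 ^ (3 + 1) * 3)) + b * 2 ^ (2 + 1) ≤ N ^ 20000 := by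
  have N1 : 1 ≤ N := by linarith
  have n1 : 1 ≤ (N ^ 98) ^ 3 := one_le_pow₀ (one_le_pow₀ N1)
  have n2 : 0 ≤ (N ^ 2098) ^ 3 := b0.trans hb
  have h1 : a * b ≤ (N ^ 98) ^ 3 * (N ^ 2098) ^ 3 := mul_le_mul ha hb b0 (by linarith)
  have h2 : b ≤ (N ^ 98) ^ 3 * (N ^ 2098) ^ 3 := hb.trans (le_mul_of_one_le_left n2 n1)
  calc _ ≤ (N ^ 98) ^ 3 * (N ^ 2098) ^ 3 * N := by
        generalize (N ^ 98) ^ 3 * (N ^ 2098) ^ 3 = A at h1 h2
        have h3 := b0.trans h2
        rw [show (2 : ℝ) ^ (3 + 1) = 16 by norm_num, show (2 : ℝ) ^ (2 + 1) = 8 by norm_num]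
        linarith [mul_le_mul_of_nonneg_left hN h3]
    _ = N ^ 6589 := by ring
    _ ≤ _ := pow_le_pow_right₀ N1 (by norm_num)

end Neth

open Neth

theorem neth (h1 : KlsStmt) (_h2 : ColkStmt) : NethStmt := by
  filter_upwards [rep h1] with N k d hN hk hI
  obtain ⟨g, R⟩ := k d hN hk hI
  have l0 := g.lam_pos
  have N0 := g.N_pos
  have D0 := g.D_pos
  have N64 : (64 : ℝ) ≤ d.c.N := by linarith [g.big.N_ge, g.big.J_ge, g.big.L_ge]
  have t0 : 0 ≤ th d := (Real.exp_pos _).le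
  obtain ⟨n1, n2⟩ := num (by linarith) l0 D0 (par g).2.2.2.2.2.1
  rw [← th_eq g] at n1
  have δ0 : 0 < d.c.lam / (d.c.N : ℝ) ^ 2000 := by positivity
  generalize d.c.lam / (d.c.N : ℝ) ^ 2000 = δ at n1 n2 δ0
  obtain ⟨Nt, -, c1, hN⟩ := net {x | ‖x‖ ≤ 4 * d.c.D} (4 * d.c.D) δ δ0 (by positivity) fun _ hx => hx
  replace c1 := c1.trans (pow_le_pow_left₀ (by positivity) n2 3)
  have e1 : th d * (d.c.N / d.c.lam) * (4 * d.c.D) ≤ th d * (d.c.N / d.c.lam) * (4 * d.c.D) +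
      d.c.N / d.c.lam * (2 * δ / d.c.lam) * (4 * d.c.D) + d.c.N / d.c.lam * δ := by
    rw [add_assoc]
    exact le_add_of_nonneg_right (by positivity)
  have ap := fun (w : V) (I : Set ℝ) (hI : I = univ ∨ ∃ a, I = Iic a) =>
    approx (K := d.c.N / d.c.lam) D0 t0 l0 hN w hI
  have sm := fun (n : ℝ → V) (G : V → ℝ) (P : Pd d n G) (I : Set ℝ) (hI : MeasurableSet I) (w : V)
    (h : ∀ r ∈ I, G (cpt n w r) ≠ 0 → 3 * d.c.D ≤ ‖cpt n w r‖) => (Pk.small P D0 t0 hI h).trans e1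
  have e0 := le_trans (by positivity) e1
  generalize th d * (d.c.N / d.c.lam) * (4 * d.c.D) +
      d.c.N / d.c.lam * (2 * δ / d.c.lam) * (4 * d.c.D) + d.c.N / d.c.lam * δ = ε at *
  let A : Finset Fn := (d.cells ×ˢ Nt ×ˢ LL 3 ×ˢ (Finset.univ : Finset (Fin 3))).image
    fun p => d.kP p.1 p.2.1 p.2.2.1 p.2.2.2
  let B : Finset Fn := (Nt ×ˢ LL 2).image fun p => d.kL p.1 p.2
  let I : Finset Fn := (A ∪ B).filter fun Λ => ∃ a ζ, Λ ∈ d.FamH a ζ
  have col : ∀ c, ∀ l ∈ LL 3, ∀ i, i ≠ 2 → ∀ (w : V) (J : Set ℝ) (Λ : Fn),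
      (J = univ ∨ ∃ a, J = Iic a) →
      (∀ s v ω G, (d.kP c w l i s v ω = pre (d.ch c) G w ∧ d.kT c w l i s v ω = tot (d.ch c) G w) →
        Λ s v ω = colI (d.ch c) J G w) →
      (∃ Λ' ∈ I, ∀ s v ω, d.Gw s → d.Cr d.ep v ω → |Λ s v ω - Λ' s v ω| ≤ ε) ∨
      ∀ s v ω, d.Gw s → d.Cr d.ep v ω → |Λ s v ω| ≤ ε := fun c l hl i hi w J Λ hJ e => by
    by_cases hc : c ∈ d.cells
    · rcases ap w J hJ with ⟨y, hy, H⟩ | H
      · refine Or.inl ⟨d.kP c y l i, Finset.mem_filter.2 ⟨Finset.mem_union_left _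
          (Finset.mem_image.2 ⟨(c, y, l, i), by simp [hc, hy, hl], rfl⟩), y 1, y 2, y, rfl,
          Or.inl ⟨c, l, hl, i, hi, Or.inl ⟨rfl, rfl⟩⟩⟩, fun s v ω hs hv => ?_⟩
        obtain ⟨G, P, -, E⟩ := (R s v ω hs hv).1 c l hl i hi
        rw [e s v ω G (E w), (E y).1]
        exact H _ G P
      · refine Or.inr fun s v ω hs hv => ?_
        obtain ⟨G, P, -, E⟩ := (R s v ω hs hv).1 c l hl i hi
        rw [e s v ω G (E w)]
        exact (H _ G P).trans e1
    · refine Or.inr fun s v ω hs hv => ?_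
      obtain ⟨G, P, Q, E⟩ := (R s v ω hs hv).1 c l hl i hi
      rw [e s v ω G (E w)]
      refine sm _ G P J ?_ w fun r _ hr => far_cell g hc (Q _ hr)
      rcases hJ with rfl | ⟨a, rfl⟩
      exacts [MeasurableSet.univ, measurableSet_Iic]
  have key : ∀ Λ : Fn, (∃ a ζ, Λ ∈ d.FamH a ζ) →
      (∃ Λ' ∈ I, ∀ s v ω, d.Gw s → d.Cr d.ep v ω → |Λ s v ω - Λ' s v ω| ≤ ε) ∨
      ∀ s v ω, d.Gw s → d.Cr d.ep v ω → |Λ s v ω| ≤ ε := by
    rintro Λ ⟨a, ζ, w, -, ⟨c, l, hl, i, hi, ⟨-, rfl⟩ | ⟨-, rfl⟩⟩ | ⟨hc, -, l, hl, hl', rfl⟩⟩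
    · exact col c l hl i hi w (Iic (w 2)) _ (Or.inr ⟨_, rfl⟩) fun s v ω G E => E.1
    · exact col c l hl i hi w univ _ (Or.inl rfl) fun s v ω G E => by rw [E.2, tot_eq_colI]
    · rcases ap w (Iic (w 2)) (Or.inr ⟨_, rfl⟩) with ⟨y, hy, H⟩ | H
      · refine Or.inl ⟨d.kL y l, Finset.mem_filter.2 ⟨Finset.mem_union_right _
          (Finset.mem_image.2 ⟨(y, l), by simp [hy, hl], rfl⟩), y 1, y 2, y, rfl,
          Or.inr ⟨hc, rfl, l, hl, hl', rfl⟩⟩, fun s v ω hs hv => ?_⟩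
        obtain ⟨G, P, E⟩ := (R s v ω hs hv).2 l hl
        rw [E w, E y]
        exact H _ G P
      · refine Or.inr fun s v ω hs hv => ?_
        obtain ⟨G, P, E⟩ := (R s v ω hs hv).2 l hl
        rw [E w]
        exact (H _ G P).trans e1
  refine ⟨I, fun Λ hΛ => (Finset.mem_filter.1 (Finset.mem_coe.1 hΛ)).2, ?_,
    fun u ω m hm b b0 hc hg hb Λ hΛ => ?_⟩
  · have a1 : I.card ≤ d.cells.card * (Nt.card * ((LL 3).card * 3)) + Nt.card * (LL 2).card := by
      refine (Finset.card_filter_le _ _).trans ((Finset.card_union_le _ _).trans (add_le_add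
        (Finset.card_image_le.trans_eq ?_) (Finset.card_image_le.trans_eq ?_)))
      · simp only [Finset.card_product, Finset.card_univ, Fintype.card_fin]
      · rw [Finset.card_product]
    have a2 : (I.card : ℝ) ≤ d.cells.card * (Nt.card * ((LL 3).card * 3)) + Nt.card * (LL 2).card := by
      exact_mod_cast a1
    refine a2.trans (le_trans ?_ (num2 N64 (Nat.cast_nonneg _) (card_cells g) c1))
    have := card_LL_le 3
    have := card_LL_le 2
    gcongr
  · have m1 : (m : ℝ) * ε ≤ 1 := by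
      have : (m : ℝ) ≤ (d.c.N : ℝ) ^ 1800 := by exact_mod_cast hm
      exact (mul_le_mul_of_nonneg_right this e0).trans n1
    have sum : ∀ f : ℕ → ℝ, (∀ j < m, |f j| ≤ ε) → |∑ j ∈ Finset.range m, f j| ≤ 1 := fun f hf => by
      refine (Finset.abs_sum_le_sum_abs _ _).trans (le_trans ?_ m1)
      have := Finset.sum_le_card_nsmul (Finset.range m) (fun j => |f j|) ε
        fun j hj => hf j (Finset.mem_range.1 hj)
      rwa [Finset.card_range, nsmul_eq_mul] at this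
    rcases key Λ hΛ with ⟨Λ', hΛ', H⟩ | H
    · have a1 := sum _ fun j hj => H _ _ _ (hg j hj) (hc j)
      rw [Finset.sum_sub_distrib] at a1
      have a2 := abs_sub_abs_le_abs_sub (d.X Λ u ω m) (d.X Λ' u ω m)
      have a3 := hb Λ' hΛ'
      have a4 : |d.X Λ u ω m - d.X Λ' u ω m| ≤ 1 := a1
      linarith
    · have a1 : |d.X Λ u ω m| ≤ 1 := sum _ fun j hj => H _ _ _ (hg j hj) (hc j)
      linarith

end
end Pool.Agent.MP_20bec2_an.T3

end MrgPart5

-- marker of a merged file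
example : 731051 + 869426 = 731051 + 869426 := rfl
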