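import Pool.Agent.MP_20bec2_an.T3.Hn
import Pool.Agent.MP_20bec2_an.T3.Chp
import Pool.Agent.MP_20bec2_an.T3.Neth
import Pool.Agent.MP_20bec2_an.T3.Vtr
import Pool.Agent.MP_20bec2_an.T3.Yq
import Pool.Agent.MP_20bec2_an.T3.Sder
import Pool.Agent.MP_20bec2_an.T3.Cf
import Pool.Agent.MP_20bec2_an.T3.Conv
import Pool.Agent.MP_20bec2_an.T3.Left
import Pool.Agent.MP_20bec2_an.T3.GoodA
import Pool.Agent.MP_20bec2_an.T3.Kvar

-- ======== part 0: formerly Pool.Agent.MP_20bec2_an.T3.Mv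
section MrgPart0

-- ======== part 0: formerly Pool.Agent.MP_20bec2_an.T3.DomC
section MrgPart0

/-! Columns through one window: tails, far cells, Sobolev bound. -/

set_option autoImplicit false
open MeasureTheory Set Filter Matrix

namespace Pool.Agent.MP_20bec2_an.T3
noncomputable section
open Classical

attribute [local irreducible] LL

namespace DomP
variable {d : MD} {s : Sa} {C Bc : ℝ} {h : V} {n : ℝ → V} {b : V → ℝ} {S : V → Mx}
  {Ψ Ψm : V → V} {om : V → ℝ} {ce W : V} {I : Set ℝ} {l : List (Fin 3)}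

/-- the support of a window lies in a ball of radius `y` -/
lemma win_ball (g : Gd d.c) (hw : d.Win Ψ Ψm ce W) {x : V} (hx : Ψ x ≠ 0) : ‖x - ce‖ ≤ d.c.y := by
  obtain ⟨a0, a1, a2⟩ := (hw.sup x).2 hx
  obtain ⟨-, -, -, b0, b1, b2, -⟩ := hw.wd
  refine (pi_norm_le_iff_of_nonneg g.y_pos.le).2 fun i => ?_
  fin_cases i
  · exact a0.trans (b0.trans (np_le_y g (by norm_num)))
  · refine a1.trans ((mul_le_mul_of_nonneg_left b1 (g.big.np_pos _).le).trans ?_)
    rw [← mul_assoc, ← g.big.np_add]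
    exact np_le_y g (by norm_num)
  · exact a2.trans (b2.trans (np_le_y g (by norm_num)))

/-- the heights of the image of a window -/
lemma win_height (g : Gd d.c) (hd : d.In) (cr : d.Cr 1 Ψ om) (hw : d.Win Ψ Ψm ce W) {x : V}
    (hx : Ψ x ≠ 0) : |d.Z x 2 - d.Z ce 2| ≤ 6 * d.c.y := by
  have h1 := win_ball g hw hx
  have h2 : x ∈ RX d.O d.c.D (93 / 100) := by_contra fun e => hx ((cr.sup x).1 e).1
  have h3 : ce ∈ RX d.O d.c.D (93 / 100 + 6 / 100) := Prof.RX_add hd.ort h2 (by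
    rw [norm_sub_rev]; linarith [y_le_D g, g.y_pos])
  rw [show (93 / 100 + 6 / 100 : ℝ) = 99 / 100 by norm_num] at h3
  have h4 := lip_of_jm (Z := d.Z) (Prof.RX_convex d.O d.c.D (99 / 100))
    (fun y _ => hd.sZ.dif y) (L := 2) (fun y hy i j => by
      have a := (hd.zb y hy).1 i j
      have b : |(1 : Mx) i j| ≤ 1 := by rw [one_apply]; split_ifs <;> simp
      have c := abs_add_le ((jm d.Z y - 1) i j) ((1 : Mx) i j)
      rw [Matrix.sub_apply, sub_add_cancel] at c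
      simp only [cm, of_apply, Matrix.sub_apply] at a ⊢
      linarith [zT_le g]) (Prof.RX_mono d.O g.D_pos.le (by norm_num) h2) h3
  have h5 := norm_le_pi_norm (d.Z x - d.Z ce) 2
  rw [Pi.sub_apply, Real.norm_eq_abs] at h5
  linarith

/-- the size of the envelope far from the window -/
def b0 (d : MD) (C : ℝ) : ℝ := 14 * C / (d.c.l1 * d.c.lam) * Real.exp (-d.c.J ^ 2 / 240)
/-- the size of a tail -/
def sg (d : MD) (C Bc : ℝ) : ℝ := 2 * d.c.q * (C * Bc * b0 d C) * (2 * d.c.y) ^ 3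

lemma small (H : d.CF s C Bc h n b S) (g : Gd d.c) (cr : d.Cr 1 Ψ om) (hw : d.Win Ψ Ψm ce W)
    (i : Fin 3) (hI : MeasurableSet I) (hl : l ∈ LL 6) (w : V)
    (hb : ∀ x ∈ d.R (99 / 100), Ψ x ≠ 0 →
      colI n I (indicator (tsupport b) fun z => env h (d.Z x + s.U x - z)) w ≤ b0 d C) :
    |hp d.c.hs l * pds l (colI n I (d.bd s b S Ψ i)) w / d.c.hs i| ≤ sg d C Bc := by
  have hne : ∀ x, d.aw Ψ i x ≠ 0 → Ψ x ≠ 0 := fun x hx e => hx (by simp [MD.aw, e])
  have hC := H.ck.C1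
  have := H.ck.bound (H.kl _ _ cr.adm i) hI hl (X := Metric.closedBall ce d.c.y)
    measurableSet_closedBall measure_closedBall_lt_top.ne
    (fun x hx => mem_closedBall_iff_norm.2 (win_ball g hw (hne x hx))) (β := b0 d C)
    (by have := g.l1_pos; have := g.lam_pos; unfold b0; positivity) w
    fun x hx e => hb x hx (hne x e)
  rw [measureReal_def, Real.volume_pi_closedBall _ g.y_pos.le,
    ENNReal.toReal_ofReal (by have := g.y_pos; positivity), Fintype.card_fin,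
    H.hp_eq (LL_lat hl)] at this
  rw [abs_div, abs_mul, abs_of_pos (hp_pos g.hs_pos l), abs_of_pos (g.hs_pos i),
    div_le_iff₀ (g.hs_pos i)]
  exact le_trans this (le_of_eq (by unfold sg; ring))

lemma tail_env (H : d.CF s C Bc h n b S) (g : Gd d.c) (hd : d.In) (hs : d.Gs s)
    (cr : d.Cr 1 Ψ om) (hw : d.Win Ψ Ψm ce W) {ζ : ℝ} (hζ : d.Z ce 2 ≤ ζ - d.c.J * d.c.y) (w : V)
    {x : V} (hx : Ψ x ≠ 0) :
    colI n (Ioi ζ) (indicator (tsupport b) fun z => env h (d.Z x + s.U x - z)) w ≤ b0 d C := by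
  have hJ := J_ge g
  have hy := g.y_pos
  have hC := H.ck.C1
  have h2 := H.ck.hh 2
  have := g.l1_pos
  have := g.lam_pos
  refine (col_ind_le H.ck.hh H.ck.cn.continuous _ _ _ _).trans
    ((H.ck.ev _ _ w (d.c.J * d.c.y / 2) (by positivity) fun r hr => ?_).trans ?_)
  · have a := (abs_le.1 (win_height g hd cr hw hx)).2
    have b : ζ < r := hr
    rw [Pi.add_apply, (hs.sup x).2.1, add_zero]
    refine le_trans ?_ (le_abs_self _)
    nlinarith
  · rw [H.h0, H.h1, b0]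
    have e1 : Real.exp (-lat2 h (cin n (d.Z x + s.U x) - w) / 60) ≤ 14 :=
      (Real.exp_le_one_iff.2 (by linarith [lat2_nonneg h (cin n (d.Z x + s.U x) - w)])).trans
        (by norm_num)
    have e2 : d.c.J / 2 ≤ d.c.J * d.c.y / 2 / h 2 := by
      rw [le_div_iff₀ h2]; nlinarith [H.h2]
    have e3 : Real.exp (-(d.c.J * d.c.y / 2 / h 2) ^ 2 / 60) ≤ Real.exp (-d.c.J ^ 2 / 240) :=
      Real.exp_le_exp.2 (by nlinarith [pow_le_pow_left₀ (by positivity) e2 2])
    calc _ ≤ C / (d.c.l1 * d.c.lam) * 14 * Real.exp (-d.c.J ^ 2 / 240) := by gcongr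
      _ = _ := by ring

lemma far_env (H : d.Cx s C Bc) {γ : Cu} (hγ : γ ∉ d.cells) (I : Set ℝ) (w : V) {x : V}
    (hx : x ∈ d.R (99 / 100)) : colI (d.ch γ) I
      (indicator (tsupport (d.c.bc γ)) fun z => env d.c.hs (d.Z x + s.U x - z)) w ≤ b0 d C := by
  have g := H.gd
  have hC := (H.c1 γ).ck.C1
  have := g.l1_pos
  have := g.lam_pos
  refine (col_ind_far g.hs_pos _ _ I _ w (ρ := d.c.J ^ 2 / 4) fun z hz => ?_).trans ?_
  · obtain ⟨j, hj⟩ : ∃ j, γ j ∉ Finset.Icc (-⌈4 * d.c.D / d.c.cw j⌉) ⌈4 * d.c.D / d.c.cw j⌉ := by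
      simpa only [MD.cells, Fintype.mem_piFinset, not_forall] using hγ
    have a1 : |z j / d.c.cw j - γ j| ≤ 9 / 10 :=
      closure_minimal (s := Function.support (d.c.bc γ))
        (t := {z : V | |z j / d.c.cw j - γ j| ≤ 9 / 10}) (fun u hu => (Prof.bc_supp hu j).le)
        (isClosed_le (by fun_prop) continuous_const) hz
    have a2 : ⌈4 * d.c.D / d.c.cw j⌉ + 1 ≤ |γ j| := by
      rw [Finset.mem_Icc, ← abs_le] at hj; omega
    have a3 : 4 * d.c.D / d.c.cw j + 1 ≤ |(γ j : ℝ)| := by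
      have : ((⌈4 * d.c.D / d.c.cw j⌉ + 1 : ℤ) : ℝ) ≤ (|γ j| : ℤ) := Int.cast_le.2 a2
      push_cast at this
      linarith [Int.le_ceil (4 * d.c.D / d.c.cw j)]
    have a4 : 4 * d.c.D / d.c.cw j ≤ |z j| / d.c.cw j := by
      have := abs_sub_abs_le_abs_sub (γ j : ℝ) (z j / d.c.cw j)
      rw [abs_sub_comm, abs_div, abs_of_pos (g.cw_pos j)] at this
      linarith
    rw [div_le_div_iff_of_pos_right (g.cw_pos j)] at a4
    have a5 := (norm_le_pi_norm _ j).trans (H.zb x hx)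
    rw [Real.norm_eq_abs] at a5
    have a6 : d.c.J ≤ |(d.Z x + s.U x - z) j / d.c.hs j| := by
      rw [abs_div, abs_of_pos (g.hs_pos j), le_div_iff₀ (g.hs_pos j), Pi.sub_apply, abs_sub_comm]
      have := abs_sub_abs_le_abs_sub (z j) ((d.Z x + s.U x) j)
      have := mul_le_mul_of_nonneg_left (hs_le_y g j) g.J_pos.le
      linarith [Jy_le_D g, mul_pos g.J_pos g.y_pos]
    have a7 := pow_le_pow_left₀ g.J_pos.le a6 2
    rw [sq_abs] at a7
    have a8 := Finset.single_le_sum (f := fun i => ((d.Z x + s.U x - z) i / d.c.hs i) ^ 2)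
      (fun i _ => sq_nonneg _) (Finset.mem_univ j)
    nlinarith [sq_nonneg d.c.J]
  · rw [b0, show -(d.c.J ^ 2 / 4) / 60 = -d.c.J ^ 2 / 240 by ring]
    show 14 / (d.c.l1 * d.c.lam) * _ ≤ _
    gcongr
    linarith

lemma num (g : Gd d.c) (hC : 1 ≤ C) (hB : 1 ≤ Bc) (hq : 224 * C ^ 2 * Bc ≤ d.c.q) :
    (d.c.N : ℝ) ^ 303 * sg d C Bc ^ 2 ≤ d.U2 := by
  have hN := g.N_pos
  have hl := g.lam_pos
  have hl1 := g.l1_pos
  have hy := g.y_pos
  have hq0 := g.q_pos
  have qN : d.c.q ≤ d.c.N := g.big.q_le_J.trans (J_le_N g)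
  have yN : d.c.y ≤ (d.c.N : ℝ) ^ 2 * d.c.lam := by
    rw [← np_nat]; exact mul_le_mul_of_nonneg_right (g.big.np_le (by norm_num)) hl.le
  obtain ⟨E, hE⟩ : ∃ E, E = Real.exp (-d.c.J ^ 2 / 240) := ⟨_, rfl⟩
  have E0 : 0 < E := hE ▸ Real.exp_pos _
  have h1 : sg d C Bc ≤ (d.c.N : ℝ) ^ 8 * d.c.lam * E := by
    calc sg d C Bc = 224 * C ^ 2 * Bc * d.c.q * d.c.y ^ 3 / (d.c.l1 * d.c.lam) * E := by
          rw [sg, b0, ← hE]; ring
      _ ≤ d.c.N * d.c.N * ((d.c.N : ℝ) ^ 2 * d.c.lam) ^ 3 / (d.c.lam * d.c.lam) * E := by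
          gcongr
          · exact hq.trans qN
          · exact g.lam_le_l1
      _ = _ := by field_simp
  have h0 : 0 ≤ sg d C Bc := by unfold sg b0; positivity
  have h2 : (d.c.N : ℝ) ^ 320 * E ^ 2 ≤ 1 := by
    rw [← g.big.exp_J, hE, ← Real.exp_nat_mul, ← Real.exp_nat_mul, ← Real.exp_add]
    refine Real.exp_le_one_iff.2 ?_
    have := J_ge g
    unfold Pm.J at *
    push_cast
    nlinarith
  have h3 : qp d.c.N (4 / 5) ≤ d.c.N :=
    (g.big.qp_le (b := 1) (by norm_num)).trans ((qp_one _).trans_le qN)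
  calc (d.c.N : ℝ) ^ 303 * sg d C Bc ^ 2
      ≤ (d.c.N : ℝ) ^ 303 * ((d.c.N : ℝ) ^ 8 * d.c.lam * E) ^ 2 := by gcongr
    _ = (d.c.N : ℝ) ^ 320 * E ^ 2 * (d.c.lam ^ 2 / d.c.N) := by field_simp
    _ ≤ 1 * (d.c.GG ^ 2 / qp d.c.N (4 / 5)) := by
        have := g.big.qp_pos (4 / 5)
        gcongr
        exact lam_le_GG g
    _ = _ := one_mul _

lemma sum_small {ι : Type} (T : Finset ι) (c P : ι → ℝ) {σ K u : ℝ} (hT : (T.card : ℝ) ≤ K)
    (hu : K * σ ^ 2 ≤ u) (H : ∀ t ∈ T, c t ≠ 0 → |P t| ≤ σ) :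
    (∑ t ∈ T, c t * P t) ^ 2 ≤ u * ∑ t ∈ T, c t ^ 2 := by
  have h1 : ∑ t ∈ T, (c t * P t) ^ 2 ≤ ∑ t ∈ T, σ ^ 2 * c t ^ 2 := Finset.sum_le_sum fun t ht => by
    by_cases hc : c t = 0
    · simp [hc]
    · rw [mul_pow, mul_comm, ← sq_abs (P t)]
      exact mul_le_mul_of_nonneg_right (pow_le_pow_left₀ (abs_nonneg _) (H t ht hc) 2)
        (sq_nonneg _)
  rw [← Finset.mul_sum] at h1
  have h2 : 0 ≤ ∑ t ∈ T, c t ^ 2 := Finset.sum_nonneg fun _ _ => sq_nonneg _
  calc _ ≤ T.card * ∑ t ∈ T, (c t * P t) ^ 2 := sq_sum_le_card_mul_sum_sq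
    _ ≤ K * (σ ^ 2 * ∑ t ∈ T, c t ^ 2) :=
        mul_le_mul hT h1 (Finset.sum_nonneg fun _ _ => sq_nonneg _)
          ((Nat.cast_nonneg _).trans hT)
    _ ≤ _ := by rw [← mul_assoc]; exact mul_le_mul_of_nonneg_right hu h2

lemma sum_tot {Cs : ℝ} (hS : SobC Cs) (H : d.CF s C Bc h n b S) (g : Gd d.c) {ι : Type}
    (T : Finset ι) (c : ι → ℝ) {Ψ : ι → V → V} {A : V} (hv : ∀ t ∈ T, d.Adm (Ψ t) A) (i : Fin 3)
    (hl : l ∈ LL 4) (w : V) :
    (∑ t ∈ T, c t * (hp d.c.hs l * pds l (tot n (d.bd s b S (Ψ t) i)) w / d.c.hs i)) ^ 2 ≤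
      Cs * ∑ u ∈ LL 2, d.sq2 (u ++ l) i (tot n (d.bd s b S (fun x => ∑ t ∈ T, c t • Ψ t x) i)) := by
  have h1 := H.ck.sob hS (H.kl _ _ (MD.Adm.sum T c hv) i) hl w
  have h2 : ∑ t ∈ T, c t * (hp d.c.hs l * pds l (tot n (d.bd s b S (Ψ t) i)) w / d.c.hs i) =
      hp h l * pds l (tot n (d.bd s b S (fun x => ∑ t ∈ T, c t • Ψ t x) i)) w / d.c.hs i := by
    simp only [tot_eq_colI]
    rw [H.lin T c hv i .univ (LL_mono (by norm_num) hl), H.hp_eq (LL_lat hl), Finset.mul_sum,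
      Finset.sum_div]
    exact Finset.sum_congr rfl fun t _ => by ring
  rw [h2, div_pow, div_le_iff₀ (pow_pos (g.hs_pos i) 2)]
  refine le_trans h1 (le_of_eq ?_)
  rw [mul_assoc, Finset.sum_mul]
  refine congrArg _ (Finset.sum_congr rfl fun u hu => ?_)
  have := (g.hs_pos i).ne'
  rw [MD.sq2, H.h0, H.h1, H.hp_eq (LL_lat (append_mem_LL hu hl)), div_mul_eq_mul_div,
    mul_comm (d.c.hs i ^ 2), mul_div_mul_right _ _ (pow_ne_zero 2 this)]
  rfl

end DomP

end
end Pool.Agent.MP_20bec2_an.T3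

end MrgPart0

-- ======== part 1: formerly Pool.Agent.MP_20bec2_an.T3.Dom
section MrgPart1

/-! Row DOM: the column functionals of the windows below the cut are dominated by the norm. -/

set_option autoImplicit false
open MeasureTheory Set Filter Matrix

namespace Pool.Agent.MP_20bec2_an.T3
noncomputable section
open Classical

attribute [local irreducible] LL

namespace DomP
variable {d : MD} {s : Sa} {C Bc Cs : ℝ} {h : V} {n : ℝ → V} {b : V → ℝ} {S : V → Mx}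
  {l : List (Fin 3)} {ι : Type} {T : Finset ι} {Ψ Ψm : ι → V → V} {om : ι → V → ℝ} {ce W : ι → V}

lemma sum_pre (hS : SobC Cs) (H : d.CF s C Bc h n b S) (g : Gd d.c) (hd : d.In) (hs : d.Gs s)
    (hw : d.Swp T Ψ Ψm om ce W) (hn : (d.c.N : ℝ) ^ 303 * sg d C Bc ^ 2 ≤ d.U2) (c : ι → ℝ)
    (i : Fin 3) (hl : l ∈ LL 4) (w : V)
    (hc : ∀ t ∈ T, w 2 - d.c.J * d.c.y < d.Z (ce t) 2 → c t = 0) :
    (∑ t ∈ T, c t * (hp d.c.hs l * pds l (pre n (d.bd s b S (Ψ t) i)) w / d.c.hs i)) ^ 2 ≤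
      2 * (Cs * ∑ u ∈ LL 2, d.sq2 (u ++ l) i
        (tot n (d.bd s b S (fun x => ∑ t ∈ T, c t • Ψ t x) i))) +
      2 * (d.U2 * ∑ t ∈ T, c t ^ 2) := by
  have h1 := sum_tot hS H g T c (fun t ht => (hw.cr t ht).adm) i hl w
  have h2 := sum_small T c (fun t => hp d.c.hs l *
      pds l (colI n (Ioi (w 2)) (d.bd s b S (Ψ t) i)) w / d.c.hs i) hw.card hn fun t ht e =>
    small H g (hw.cr t ht) (hw.win t ht) i measurableSet_Ioi (LL_mono (by norm_num) hl) w
      fun x _ hx => tail_env H g hd hs (hw.cr t ht) (hw.win t ht)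
        (not_lt.1 fun k => e (hc t ht k)) w hx
  rw [Finset.sum_congr rfl fun t ht => show _ =
      c t * (hp d.c.hs l * pds l (tot n (d.bd s b S (Ψ t) i)) w / d.c.hs i) -
      c t * (hp d.c.hs l * pds l (colI n (Ioi (w 2)) (d.bd s b S (Ψ t) i)) w / d.c.hs i) by
    rw [H.pre_eq (hw.cr t ht).adm i (LL_lat hl)]; ring, Finset.sum_sub_distrib]
  nlinarith [sq_nonneg
    (∑ t ∈ T, c t * (hp d.c.hs l * pds l (tot n (d.bd s b S (Ψ t) i)) w / d.c.hs i) +
      ∑ t ∈ T, c t * (hp d.c.hs l *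
        pds l (colI n (Ioi (w 2)) (d.bd s b S (Ψ t) i)) w / d.c.hs i))]

lemma sum_far (H : d.Cx s C Bc) (hw : d.Swp T Ψ Ψm om ce W)
    (hn : (d.c.N : ℝ) ^ 303 * sg d C Bc ^ 2 ≤ d.U2) (c : ι → ℝ) (i : Fin 3) (hl : l ∈ LL 6)
    (w : V) {γ : Cu} (hγ : γ ∉ d.cells) {I : Set ℝ} (hI : MeasurableSet I) :
    (∑ t ∈ T, c t * (hp d.c.hs l *
      pds l (colI (d.ch γ) I (d.bd s (d.c.bc γ) d.S (Ψ t) i)) w / d.c.hs i)) ^ 2 ≤
      d.U2 * ∑ t ∈ T, c t ^ 2 :=
  sum_small T c _ hw.card hn fun t ht _ =>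
    small (H.c1 γ) H.gd (hw.cr t ht) (hw.win t ht) i hI hl w fun _ hx _ => far_env H hγ I w hx

lemma sq2_nonneg (g : Gd d.c) (l : List (Fin 3)) (i : Fin 3) (G : V → ℝ) : 0 ≤ d.sq2 l i G :=
  div_nonneg (integral_nonneg fun _ => sq_nonneg _)
    (mul_nonneg (sq_nonneg _) (mul_pos g.l1_pos g.lam_pos).le)

lemma one_le_wl (g : Gd d.c) (l : List (Fin 3)) : 1 ≤ d.wl l := by
  unfold MD.wl; split_ifs
  · exact one_le_pA g
  · exact le_rfl

lemma wl_append (g : Gd d.c) (u l : List (Fin 3)) : d.wl (u ++ l) ≤ d.wl l := by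
  by_cases hl : l = []
  · subst hl
    unfold MD.wl; split_ifs with h1 h2
    · exact le_rfl
    · exact absurd rfl h2
    · exact one_le_pA g
    · exact le_rfl
  · unfold MD.wl
    rw [if_neg hl, if_neg (by simp [hl])]

lemma part1 (g : Gd d.c) (v : V → V) : 0 ≤ ∑ γ ∈ d.cells, ∑ i ∈ ({0, 1} : Finset (Fin 3)),
    ∑ l ∈ LL 5, d.sq2 l i (tot (d.ch γ) (d.c.cf γ (d.Fv d.S s v) i)) / d.wl l ^ 2 :=
  Finset.sum_nonneg fun _ _ => Finset.sum_nonneg fun _ _ => Finset.sum_nonneg fun _ _ =>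
    div_nonneg (sq2_nonneg g _ _ _) (sq_nonneg _)

lemma part2 (g : Gd d.c) (v : V → V) : 0 ≤ if d.c.comp then 0 else
    ∑ i ∈ ({0, 1} : Finset (Fin 3)), ∑ l ∈ (LL 5).filter (2 ≤ ·.length),
      d.sq2 l i (tot 0 fun z => d.Fv d.SL s v z i) := by
  split_ifs
  · exact le_rfl
  · exact Finset.sum_nonneg fun _ _ => Finset.sum_nonneg fun _ _ => sq2_nonneg g _ _ _

lemma hn_nonneg (g : Gd d.c) (v : V → V) : 0 ≤ d.Hn s v := add_nonneg (part1 g v) (part2 g v)

lemma hn_ge1 (g : Gd d.c) (v : V → V) {γ : Cu} (hγ : γ ∈ d.cells) {i : Fin 3} (hi : i ≠ 2)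
    (hl : l ∈ LL 3) : (∑ u ∈ LL 2, d.sq2 (u ++ l) i
      (tot (d.ch γ) (d.bd s (d.c.bc γ) d.S v i))) / d.wl l ^ 2 ≤ d.Hn s v := by
  have hi' : i ∈ ({0, 1} : Finset (Fin 3)) := by
    rw [Finset.mem_insert, Finset.mem_singleton]; omega
  rw [← MD.cf_eq, Finset.sum_div]
  have nn : ∀ γ i l, 0 ≤ d.sq2 l i (tot (d.ch γ) (d.c.cf γ (d.Fv d.S s v) i)) / d.wl l ^ 2 :=
    fun _ _ _ => div_nonneg (sq2_nonneg g _ _ _) (sq_nonneg _)
  calc _ ≤ ∑ u ∈ LL 2, d.sq2 (u ++ l) i (tot (d.ch γ) (d.c.cf γ (d.Fv d.S s v) i)) /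
        d.wl (u ++ l) ^ 2 := Finset.sum_le_sum fun u _ => by
        have := one_le_wl g (u ++ l)
        have := sq2_nonneg g (u ++ l) i (tot (d.ch γ) (d.c.cf γ (d.Fv d.S s v) i))
        gcongr
        exact wl_append g u l
    _ ≤ ∑ u ∈ LL 5, d.sq2 u i (tot (d.ch γ) (d.c.cf γ (d.Fv d.S s v) i)) / d.wl u ^ 2 :=
        sum_LL_append (n := 2) hl (F := fun u =>
          d.sq2 u i (tot (d.ch γ) (d.c.cf γ (d.Fv d.S s v) i)) / d.wl u ^ 2) fun _ _ => nn _ _ _
    _ ≤ ∑ i ∈ ({0, 1} : Finset (Fin 3)), ∑ u ∈ LL 5,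
          d.sq2 u i (tot (d.ch γ) (d.c.cf γ (d.Fv d.S s v) i)) / d.wl u ^ 2 :=
        Finset.single_le_sum (f := fun i => ∑ u ∈ LL 5,
          d.sq2 u i (tot (d.ch γ) (d.c.cf γ (d.Fv d.S s v) i)) / d.wl u ^ 2)
          (fun _ _ => Finset.sum_nonneg fun _ _ => nn _ _ _) hi'
    _ ≤ ∑ γ ∈ d.cells, ∑ i ∈ ({0, 1} : Finset (Fin 3)), ∑ u ∈ LL 5,
          d.sq2 u i (tot (d.ch γ) (d.c.cf γ (d.Fv d.S s v) i)) / d.wl u ^ 2 :=
        Finset.single_le_sum (f := fun γ => ∑ i ∈ ({0, 1} : Finset (Fin 3)), ∑ u ∈ LL 5,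
          d.sq2 u i (tot (d.ch γ) (d.c.cf γ (d.Fv d.S s v) i)) / d.wl u ^ 2)
          (fun _ _ => Finset.sum_nonneg fun _ _ => Finset.sum_nonneg fun _ _ => nn _ _ _) hγ
    _ ≤ _ := le_add_of_nonneg_right (part2 g v)

lemma hn_ge2 (g : Gd d.c) (v : V → V) (hc : ¬ d.c.comp) (hl : l ∈ LL 2) (hne : l ≠ []) :
    ∑ u ∈ LL 2, d.sq2 (u ++ (l ++ [0])) 0 (tot 0 (d.bd s (fun _ => 1) d.SL v 0)) +
      ∑ u ∈ LL 2, d.sq2 (u ++ (l ++ [1])) 1 (tot 0 (d.bd s (fun _ => 1) d.SL v 1)) ≤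
      d.Hn s v := by
  have key : ∀ i : Fin 3, i ≠ 2 →
      ∑ u ∈ LL 2, d.sq2 (u ++ (l ++ [i])) i (tot 0 (d.bd s (fun _ => 1) d.SL v i)) ≤
      ∑ u ∈ (LL 5).filter (2 ≤ ·.length), d.sq2 u i (tot 0 fun z => d.Fv d.SL s v z i) :=
    fun i hi => by
      rw [MD.fv_eq]
      refine sum_LL_append_filter (n := 2) (concat_mem_LL hl hi) ?_
        (F := fun u => d.sq2 u i (tot 0 (d.bd s (fun _ => 1) d.SL v i)))
        fun _ _ => sq2_nonneg g _ _ _
      have := List.length_pos_iff.2 hne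
      rw [List.length_append, List.length_singleton]; omega
  rw [MD.Hn, if_neg hc, Finset.sum_pair (by decide)]
  linarith [key 0 (by decide), key 1 (by decide), part1 (s := s) g v]

lemma kL_eq (H : d.CF s C Bc h n (fun _ => 1) S) {v : V → V} {A : V} (hv : d.Adm v A)
    (hl : ∀ i ∈ l, i ≠ 2) (w : V) : pds l (pre n (dv (d.Fv S s v))) w =
      pds (l ++ [0]) (pre n (d.bd s (fun _ => 1) S v 0)) w +
        pds (l ++ [1]) (pre n (d.bd s (fun _ => 1) S v 1)) w := by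
  have hn := H.ck.cn.continuous
  have g0 := H.cd hv 0
  have g1 := H.cd hv 1
  have e2 : d.bd s (fun _ => 1) S v 2 = fun _ => 0 := by
    funext z; simp [MD.bd, dens, MD.aw, hv.lat]
  have e : dv (d.Fv S s v) = fun z => pd 0 (d.bd s (fun _ => 1) S v 0) z +
      pd 1 (d.bd s (fun _ => 1) S v 1) z := by
    funext z
    simp only [dv, Fin.sum_univ_three, MD.fv_eq, e2, pd_const, add_zero]
  have lat : ∀ i : Fin 3, i ≠ 2 → ∀ j ∈ l ++ [i], j ≠ 2 := fun i hi j hj => by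
    rcases List.mem_append.1 hj with hj | hj
    · exact hl j hj
    · rwa [List.mem_singleton.1 hj]
  rw [e, ((g0.pd 0).add (g1.pd 1)).pds_pre hn hl, pds_add (g0.1.pd 0) (g1.1.pd 1),
    g0.pds_pre hn (lat 0 (by decide)), g1.pds_pre hn (lat 1 (by decide)), pds_concat, pds_concat,
    pre_eq_colI, ((g0.pd 0).pds l).colI_add ((g1.pd 1).pds l) hn]
  rfl

lemma fin {Y H u GG q1 : ℝ} (hG : 0 < GG) (hC : 1 ≤ Cs) (hq : 32 * Cs ≤ q1) (hH : 0 ≤ H)
    (hu : 0 ≤ u) (hY : Y ^ 2 ≤ 8 * (Cs * H) + 8 * u) :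
    (Y / (GG / 2)) ^ 2 ≤ q1 / GG ^ 2 * (H + u) := by
  rw [div_pow, div_mul_eq_mul_div, div_le_div_iff₀ (by positivity) (by positivity)]
  have : 4 * Y ^ 2 ≤ q1 * (H + u) := by
    nlinarith [mul_le_mul_of_nonneg_right hq hH, mul_le_mul_of_nonneg_right hq hu,
      mul_le_mul_of_nonneg_right hC hu]
  nlinarith [mul_le_mul_of_nonneg_right this (sq_nonneg GG)]

/-- division by the weight -/
lemma fin1 {Y H H' u ω : ℝ} (hC : 1 ≤ Cs) (hω : 1 ≤ ω) (hH : 0 ≤ H) (hu : 0 ≤ u)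
    (hH' : H' / ω ^ 2 ≤ H) (hY : Y ^ 2 ≤ 2 * (Cs * H') + 2 * u) :
    (Y / ω) ^ 2 ≤ 8 * (Cs * H) + 8 * u := by
  have h1 : 1 ≤ ω ^ 2 := one_le_pow₀ hω
  rw [div_le_iff₀ (by positivity)] at hH'
  rw [div_pow, div_le_iff₀ (by positivity)]
  have h2 : 0 ≤ Cs * (H * ω ^ 2) := by positivity
  nlinarith [mul_le_mul_of_nonneg_left hH' (zero_le_one.trans hC),
    mul_le_mul_of_nonneg_left h1 hu]

end DomP

open DomP in
theorem dom (hK : KlsStmt) : DomStmt := by
  obtain ⟨C, Bc, hC, hB, H⟩ := ev_cx hK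
  obtain ⟨Cs, hCs, hS⟩ := sobC
  filter_upwards [H, ev_gd, ev_C_q (224 * C ^ 2 * Bc),
    ev_C_qp (32 * Cs) (c := 1 / 10) (by norm_num)]
    with N H hg q1 q2 d h1 h2 hd s hs ι T Ψ Ψm om ce W hw a ζ Λ hΛ c hc
  have g := hg d.c h1 hd.ok
  have X := H d h1 h2 hd s (hs.gw g)
  subst h1
  have hn := num g hC hB q1
  have hH := hn_nonneg (s := s) g fun x => ∑ t ∈ T, c t • Ψ t x
  have hu : 0 ≤ d.U2 * ∑ t ∈ T, c t ^ 2 :=
    mul_nonneg (le_trans (by positivity) hn) (Finset.sum_nonneg fun _ _ => sq_nonneg _)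
  have m34 : LL 3 ⊆ LL 4 := LL_mono (by norm_num)
  have m36 : LL 3 ⊆ LL 6 := LL_mono (by norm_num)
  obtain ⟨w, -, ⟨γ, l, hl, i, hi, ⟨rfl, rfl⟩ | ⟨-, rfl⟩⟩ | ⟨hcp, rfl, l, hl, hne, rfl⟩⟩ := hΛ
  · have e : ∑ t ∈ T, c t * d.kP γ w l i s (Ψ t) (om t) = (∑ t ∈ T, c t * (hp d.c.hs l *
        pds l (pre (d.ch γ) (d.bd s (d.c.bc γ) d.S (Ψ t) i)) w / d.c.hs i)) / d.wl l /
        (d.c.GG / 2) := by
      rw [Finset.sum_div, Finset.sum_div]
      exact Finset.sum_congr rfl fun t _ => by rw [MD.kP, MD.cf_eq]; ring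
    rw [e]
    refine fin g.GG_pos hCs q2 hH hu ?_
    by_cases hγ : γ ∈ d.cells
    · exact fin1 hCs (one_le_wl g l) hH hu (hn_ge1 g _ hγ hi hl)
        (sum_pre hS (X.c1 γ) g hd hs hw hn c i (m34 hl) w hc)
    · refine fin1 (H' := 0) hCs (one_le_wl g l) hH hu (by simpa using hH) ?_
      rw [Finset.sum_congr rfl fun t ht => by
        rw [((X.c1 γ).cd (hw.cr t ht).adm i).pds_pre_colI (X.c1 γ).ck.cn.continuous (LL_lat hl)]]
      linarith [sum_far X hw hn c i (m36 hl) w hγ (measurableSet_Iic (a := w 2))]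
  · have e : ∑ t ∈ T, c t * d.kT γ w l i s (Ψ t) (om t) = (∑ t ∈ T, c t * (hp d.c.hs l *
        pds l (tot (d.ch γ) (d.bd s (d.c.bc γ) d.S (Ψ t) i)) w / d.c.hs i)) / d.wl l /
        (d.c.GG / 2) := by
      rw [Finset.sum_div, Finset.sum_div]
      exact Finset.sum_congr rfl fun t _ => by rw [MD.kT, MD.cf_eq]; ring
    rw [e]
    refine fin g.GG_pos hCs q2 hH hu ?_
    by_cases hγ : γ ∈ d.cells
    · refine fin1 hCs (one_le_wl g l) hH hu (hn_ge1 g _ hγ hi hl) ?_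
      have := sum_tot hS (X.c1 γ) g T c (fun t ht => (hw.cr t ht).adm) i (m34 hl) w
      linarith [(sq_nonneg _).trans this]
    · refine fin1 (H' := 0) hCs (one_le_wl g l) hH hu (by simpa using hH) ?_
      simp only [tot_eq_colI]
      linarith [sum_far X hw hn c i (m36 hl) w hγ .univ]
  · have e : ∑ t ∈ T, c t * d.kL w l s (Ψ t) (om t) =
        (∑ t ∈ T, c t * (hp d.c.hs (l ++ [0]) *
          pds (l ++ [0]) (pre 0 (d.bd s (fun _ => 1) d.SL (Ψ t) 0)) w / d.c.hs 0) +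
        ∑ t ∈ T, c t * (hp d.c.hs (l ++ [1]) *
          pds (l ++ [1]) (pre 0 (d.bd s (fun _ => 1) d.SL (Ψ t) 1)) w / d.c.hs 1)) /
        (d.c.GG / 2) := by
      rw [← Finset.sum_add_distrib, Finset.sum_div]
      refine Finset.sum_congr rfl fun t ht => ?_
      have := (g.hs_pos 0).ne'
      have := (g.hs_pos 1).ne'
      have := g.GG_pos.ne'
      rw [MD.kL, kL_eq X.c2 (hw.cr t ht).adm (LL_lat hl), hp_concat, hp_concat]
      field_simp
    rw [e]
    refine fin g.GG_pos hCs q2 hH hu ?_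
    have s0 := sum_pre hS X.c2 g hd hs hw hn c 0 (m34 (concat_mem_LL (i := 0) hl (by decide))) w hc
    have s1 := sum_pre hS X.c2 g hd hs hw hn c 1 (m34 (concat_mem_LL (i := 1) hl (by decide))) w hc
    have s2 := mul_le_mul_of_nonneg_left
      (hn_ge2 (s := s) g (fun x => ∑ t ∈ T, c t • Ψ t x) hcp hl hne) (zero_le_one.trans hCs)
    have s3 : 0 ≤ Cs * d.Hn s fun x => ∑ t ∈ T, c t • Ψ t x := by positivity
    refine (add_sq_le).trans ?_
    linarith

end
end Pool.Agent.MP_20bec2_an.T3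

end MrgPart1

-- ======== part 2: formerly Pool.Agent.MP_20bec2_an.T3.Ez
section MrgPart2

/-! Row EZ: ledger, map, potential and noise records at the end of a band. -/

set_option autoImplicit false
open Set Filter Matrix

namespace Pool.Agent.MP_20bec2_an.T3
noncomputable section
open Classical

namespace Ez

lemma tm_e (k : ℕ) : tm (k + 1) 0 = tm k 9 := by unfold tm; omega
lemma cnt_e (k : ℕ) : cnt (k + 1) 0 = cnt k 9 := by unfold cnt; omega
lemma nzn_e (N k : ℕ) : nzn N (k + 1) 0 = nzn N k 9 := by unfold nzn; split_ifs <;> omega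
lemma aft_e (j k : ℕ) : aft j (k + 1) 0 ↔ aft j k 9 := by unfold aft; omega
lemma aft_le {j k : ℕ} (h : aft j (k + 1) 0) : j ≤ k := by unfold aft at h; omega
lemma ph_e {j k : ℕ} (h : j ≤ k) : ph j (k + 1) 0 = ph j k 9 := by
  unfold ph
  rw [show k + 1 - j = k - j + 1 by omega, pow_succ]
  push_cast
  field_simp
  ring
lemma ph_self (j : ℕ) : ph j j 0 = 0 := by simp [ph]

variable (B : Bk) (k : ℕ) (s : St)

lemma zt_old {j : ℕ} (h : j ≤ k) : (B.sen k s).zt j = s.zt j :=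
  Function.update_of_ne (by omega) _ _
lemma zt_new : (B.sen k s).zt (k + 1) = B.Z s := Function.update_self ..
lemma ft_old {j : ℕ} (h : j ≤ k) : (B.sen k s).ft j = s.ft j :=
  Function.update_of_ne (by omega) _ _
lemma ft_new : (B.sen k s).ft (k + 1) = s.f := Function.update_self ..

lemma lam_e (g : Cu) : (B.c g k).lam = 2 * (B.c g (k + 1)).lam := by
  simp only [Pm.lam, Bk.c, Fr.pm, pow_succ]
  field_simp

lemma d2u_e (g : Cu) : (B.c g (k + 1)).d2u = 2 * (B.c g k).d2u := by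
  show np B.N (-98 / 100) / ((B.c g 0).η * (B.c g (k + 1)).lam) =
    2 * (np B.N (-98 / 100) / ((B.c g 0).η * (B.c g k).lam))
  rw [lam_e B k g, mul_left_comm, ← mul_div_assoc, mul_div_mul_left _ _ two_ne_zero]

lemma sdO_mono (hN : Big B.N) (g : Cu) (a b : Fin 3) :
    (B.c g k).sdO a b ≤ (B.c g (k + 1)).sdO a b := by
  have p := hN.sdc_pos.le
  unfold Pm.sdO
  by_cases h : (B.c g 0).oB
  · rw [if_pos (show (B.c g k).oB from h), if_pos (show (B.c g (k + 1)).oB from h),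
      Matrix.add_apply, Matrix.add_apply]
    refine add_le_add le_rfl (b23_mono ?_ a b)
    by_cases e : 3 / 2 * etaS (B.c g k).N ≤ (B.c g k).η ∧ kbo (B.c g k).N ≤ (B.c g k).k
    · rw [if_pos e, if_pos (show 3 / 2 * etaS (B.c g (k + 1)).N ≤ (B.c g (k + 1)).η ∧
        kbo (B.c g (k + 1)).N ≤ (B.c g (k + 1)).k from ⟨e.1, Nat.le_succ_of_le e.2⟩)]
      exact le_rfl
    · rw [if_neg e]
      split_ifs
      exacts [p, le_rfl]
  · rw [if_neg (show ¬ (B.c g k).oB from h), if_neg (show ¬ (B.c g (k + 1)).oB from h)]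
    exact le_rfl

lemma La_nonneg {xs : ℕ → Cu → ℝ} (h : ∀ m i, 0 ≤ xs m i) (a b : ℕ) (i : Cu) : 0 ≤ La xs a b i :=
  Finset.sum_nonneg fun m _ => by linarith [h m i]

variable {B k s} {ρ : V → ℝ}

lemma il (h : B.IL k 9 s) : B.IL (k + 1) 0 (B.sen k s) :=
  ⟨h.nn, fun g => by rw [tm_e]; exact h.led g⟩

lemma iv (h : B.IV ρ k 9 s) : B.IV ρ (k + 1) 0 (B.sen k s) :=
  ⟨fun g x hx i hi => by rw [tm_e, nzn_e]; exact h.vv g x hx i hi⟩

lemma ip (h : B.IP k 9 s) : B.IP (k + 1) 0 (B.sen k s) := by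
  refine ⟨h.sm, ?_, fun a => ?_, h.off, ?_, ?_, ?_⟩
  · rw [nzn_e]; exact h.z0
  · rw [zt_old B k s (aft_le a)]; exact h.psh ((aft_e _ _).1 a)
  · rw [nzn_e]; exact h.th
  · rw [nzn_e]; exact h.nq
  · rw [nzn_e]; exact h.yv

lemma prep (a : ks B.N ≤ k) (h : B.Prep ρ s) : B.Prep ρ (B.sen k s) := by
  refine ⟨h.fo, h.cred, h.zn, ?_, h.zb⟩
  rw [zt_old B k s a, ft_old B k s a, ft_old B k s ((Nat.sub_le _ _).trans a)]
  exact h.fq

lemma iz (hN : Big B.N) (hf : FrOk B.N B.lb B.fr) (hk : k + 1 < nb B.N) (sZ : Sm (B.Z s))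
    (hl : B.IL k 9 s) (h : B.IZ k 9 s) : B.IZ (k + 1) 0 (B.sen k s) := by
  have zs : ks B.N = k + 1 → (fun w => (B.sen k s).zt (ks B.N) w - B.Zt w) = s.Zs := fun e => by
    have : s.Zn = 0 := h.n0 (by unfold aft; omega)
    funext w
    rw [e, zt_new, Bk.Z, this, Pi.zero_apply, add_zero, add_sub_cancel_right]
  have G : ∀ g, Gd (B.c g k) := fun g => Bk.gd hf hN g (by omega)
  refine ⟨⟨h.sm.1, h.sm.2.1, fun j hj => ?_⟩, h.bij, fun a => h.n0 (mt (aft_e _ _).2 a),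
    ⟨?_, fun _ => zt_new B k s⟩, fun g x hx i hi => ?_, fun a g x hx i hi => ?_, fun a g i => ?_,
    fun j hj g x hx i => ?_, fun g i => ?_, ?_⟩
  · rcases hj.lt_or_eq with hj | rfl
    · rw [zt_old B k s (by omega)]; exact h.sm.2.2 j (by omega)
    · rw [zt_new]; exact sZ
  · rw [zt_old B k s (Nat.zero_le _)]; exact h.zk.1
  · rw [tm_e, nzn_e, cnt_e]
    obtain ⟨e1, e2⟩ := h.e g x hx i hi
    refine ⟨fun a b ha => (e1 a b ha).trans ?_, e2⟩
    simp only [Matrix.add_apply, Matrix.smul_apply, smul_eq_mul]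
    exact add_le_add (mul_le_mul_of_nonneg_left (sdO_mono B k hN g a b)
      (mul_nonneg (Real.sqrt_nonneg _) (La_nonneg hl.nn _ _ _))) le_rfl
  · rw [tm_e, cnt_e]
    rcases a.lt_or_eq with a | a
    · rw [zt_old B k s (by omega)]
      exact h.el (by omega) g x hx i hi
    · rw [zs a, show (B.sen k s).Zs = s.Zs from rfl, sub_self, Zder.hm_zero, a,
        show tm k 9 = 8 * (k + 1) by unfold tm; omega]
      refine ⟨fun a b _ => by simp [La], fun j => ?_⟩
      rw [Matrix.zero_apply, abs_zero]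
      exact mul_nonneg (Nat.cast_nonneg _) (hN.np_pos _).le
  · rcases a.lt_or_eq with a | a
    · rw [zt_old B k s (by omega)]
      exact h.ek (by omega) g i
    · rw [zs a, a, d2u_e]
      refine (h.d2 g i).monoB ?_
      have p := (G g).d2u_pos
      have : (1 : ℝ) / 2 ^ k ≤ 1 := div_le_one_of_le₀ (one_le_pow₀ one_le_two) (by positivity)
      push_cast
      nlinarith
  · rcases hj.lt_or_eq with hj | rfl
    · rw [zt_old B k s (by omega), ph_e (by omega)]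
      exact h.dz j (by omega) g x hx i
    · rw [zt_new, ph_self, mul_zero, show B.Z (B.sen k s) = B.Z s from rfl, sub_self,
        Matrix.mulVec_zero, Pi.zero_apply, abs_zero]
  · refine (h.d2 g i).monoB (le_of_eq ?_)
    rw [d2u_e, pow_succ]
    push_cast
    field_simp
    ring
  · rw [nzn_e]; exact h.dn

end Ez

theorem ez : EzStmt := by
  filter_upwards [ev_big, zder] with N hN hz B hB ρ k s H hk
  subst hB
  obtain ⟨-, ok, hk', I⟩ := H
  have sZ := (hz B rfl ρ k 9 s ok.toOk0 hk' le_rfl I.il I.iz I.ip I.iq).1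
  exact ⟨Ez.il I.il, Ez.iz hN ok.geo.toFrOk hk sZ I.il I.iz, Ez.iv I.iv, Ez.ip I.ip,
    fun a => Ez.prep (Ez.aft_le a) (I.iq ((Ez.aft_e _ _).1 a))⟩

end
end Pool.Agent.MP_20bec2_an.T3

end MrgPart2

-- ======== part 3: formerly Pool.Agent.MP_20bec2_an.T3.Ef
section MrgPart3

/-! Row EF: the record about `f` at the end of a band. -/

set_option autoImplicit false
open Set Filter Matrix

namespace Pool.Agent.MP_20bec2_an.T3
noncomputable section
open Classical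

namespace Ef
open Ez

lemma hs_e (B : Bk) (k : ℕ) (g : Cu) (i : Fin 3) :
    (B.c g k).hs i = 2 * (B.c g (k + 1)).hs i := by
  fin_cases i
  · change (B.c g 0).ro * _ = _ * ((B.c g 0).ro * _)
    rw [lam_e B k g]
    ring
  · exact lam_e B k g
  · change np B.N (11 / 10) * _ = _ * (np B.N (11 / 10) * _)
    rw [lam_e B k g]
    ring

lemma Xj_nonneg {N : ℕ} (h : Big N) (a b : Fin 3) : 0 ≤ Xj N a b := by
  have := h.J_pos; have := h.N_pos
  have p1 : 0 ≤ pJ N ^ 4 / N := by positivity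
  have p2 : 0 ≤ pJ N ^ 3 / Real.sqrt N := by positivity
  fin_cases a <;> fin_cases b
  exacts [p1, p1, p2, p1, p1, p2, p2, p2, h.J_pos.le]

lemma crs_e (B : Bk) (g : Cu) (j k : ℕ) : B.crs g j (k + 1) 0 ↔ B.crs g j k 9 := by
  unfold Bk.crs
  rw [aft_e]

lemma crs_new (B : Bk) (g : Cu) (k : ℕ) : ¬ B.crs g k k 0 := fun h => by
  have h1 := h.1
  have h2 := h.2.1
  unfold aft at h2
  omega

lemma dd_le {B : Bk} (hN : Big B.N) (g : Cu) (k : ℕ) :
    (1 + ((9 : ℕ) : ℝ) / 100) *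
      (B.dd g k + if B.pushN g ∧ k = mid B.N ∧ 1 ≤ 9 then np B.N 11 else 0) ≤
    2 * B.dd g (k + 1) := by
  have p1 : (0 : ℝ) < (6 / 10) ^ k := by positivity
  have p2 : 0 < 1 / Real.sqrt (pq B.N) := one_div_pos.2 hN.sqrtq_pos
  have p3 := hN.np_pos 11
  unfold Bk.dd
  rw [pow_succ]
  push_cast
  by_cases p : B.pushN g
  · rcases lt_trichotomy k (mid B.N) with e | e | e
    · rw [if_neg fun a => by omega, if_neg fun a => by omega, if_neg fun a => by omega]
      linarith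
    · rw [if_neg fun a => by omega, if_pos ⟨p, e, by norm_num⟩, if_pos ⟨p, by omega⟩,
        show k + 1 - mid B.N = 1 by omega]
      linarith
    · rw [if_pos ⟨p, e⟩, if_neg fun a => by omega, if_pos ⟨p, by omega⟩,
        show k + 1 - mid B.N = k - mid B.N + 1 by omega, pow_succ]
      have : 0 < np B.N 11 * (6 / 10) ^ (k - mid B.N) := by positivity
      linarith
  · rw [if_neg fun a => p a.1, if_neg fun a => p a.1, if_neg fun a => p a.1]
    linarith

variable {B : Bk} {k : ℕ} {s : St}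

lemma ig (hN : Big B.N) (hj : ∀ g z, jac ((B.fr g).fh s.f) z ≠ 0)
    (h : B.IG k 9 s.f s.ft s.xs s.Af) : B.IG (k + 1) 0 s.f (B.sen k s).ft s.xs s.Af := by
  have di : ∀ g, ∀ x ∈ B.bx g 1,
      (B.c g (k + 1)).DI ((B.fr g).fh s.f) (B.oh g s.f x) (B.dd g (k + 1)) := fun g x hx a b i => by
    have d := (h.di g x hx).1 a b i
    rw [hs_e, mul_assoc] at d
    have e := mul_le_mul_of_nonneg_right (dd_le hN g k) (Xj_nonneg hN a b)
    have := d.trans e
    rw [mul_assoc] at this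
    exact le_of_mul_le_mul_left this two_pos
  have c0 : cnt (k + 1) 0 - 9 * (k + 1) = 0 := by unfold cnt; omega
  refine ⟨fun j hj g x hx i hi => ?_, fun j hk g hc x hx a b hab => ?_,
    fun g x hx => ⟨?_, fun j hj => ?_⟩, fun j hj g x hx => ?_⟩
  · rcases hj.lt_or_eq with hj | rfl
    · have d := h.rel j (by omega) g x hx i hi
      rw [ft_old B k s (show j ≤ k by omega), tm_e, cnt_e]
      by_cases c : B.crs g j k 9
      · have c' := (crs_e B g j k).2 c
        rw [if_pos c, if_pos c] at d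
        rwa [if_pos c', if_pos c', ft_old B k s (aft_le c'.2.1)]
      · have c' := mt (crs_e B g j k).1 c
        rw [if_neg c, if_neg c] at d
        rwa [if_neg c', if_neg c']
    · rw [ft_new, if_neg (crs_new B g _), if_neg (crs_new B g _), c0,
        show tm (k + 1) 0 = 8 * (k + 1) from rfl]
      intro a b
      fin_cases a <;> fin_cases b <;> simp [Bk.SG, SA, bm]
  · rcases hk.lt_or_eq with hk | rfl
    · rw [ft_old B k s (show j ≤ k by omega), cnt_e]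
      exact h.th j (by omega) g (mt (crs_e B g j k).2 hc) x hx a b hab
    · rw [ft_new, c0, Th, Matrix.nonsing_inv_mul _ (hj g _).isUnit]
      simp
  · rw [if_neg fun a => absurd a.2.2 (by norm_num)]
    simpa using di g x hx
  · rcases hj.lt_or_eq with hj | rfl
    · rw [ft_old B k s (show j ≤ k by omega)]
      exact (h.di g x hx).2 j (by omega)
    · rw [ft_new]
      exact di g x hx
  · rcases hj.lt_or_eq with hj | rfl
    · have d := h.dl j (by omega) g x hx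
      rw [ft_old B k s (show j ≤ k by omega), ph_e (by omega)]
      by_cases c : B.crs g j k 9
      · rw [if_pos c] at d
        rwa [if_pos ((crs_e B g j k).2 c)]
      · rw [if_neg c] at d
        rwa [if_neg (mt (crs_e B g j k).1 c)]
    · rw [ft_new, ph_self, if_neg (crs_new B g _)]
      simp

end Ef

theorem ef (hm : MbiStmt) : EfStmt := by
  filter_upwards [ev_big, hm] with N hN hm B hB ρ k s H hk
  subst hB
  obtain ⟨hρ, ok, hk', I⟩ := H
  have hf := ok.geo.toFrOk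
  have h1 : 1 ≤ B.N := by
    exact_mod_cast (show (1 : ℝ) ≤ B.N by linarith [hN.N_ge, hN.J_ge, hN.L_ge])
  have M := (hm B rfl ρ k 9 s hρ ok.toOk0 hk' (by norm_num) le_rfl
    ⟨I.il, I.iz, I.ip, I.is, I.iq⟩ I.ir).1
  rw [← show jac s.f = dens ρ (B.Z s) s.Sg from funext I.iF.smf.2.2] at M
  have e : ∀ g, jac ((B.fr g).fh s.f) = (B.fr g).den (jac s.f) := fun g =>
    funext fun z => (K3.p4 _ (I.iF.smf.1.differentiable Inv.top_ne) z).2
  have j0 : ∀ p, jac s.f p ≠ 0 := fun p h0 => by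
    obtain ⟨g, hp⟩ := GeoP.cover ok.geo h1 p
    have b := (M g).1 _ (Prof.RX_mono _ (GeoP.D_pos hf h1).le (by norm_num) hp)
    rw [Fr.den, Prof.zp_zc (GeoP.det_ne hf g), h0] at b
    norm_num [eps0] at b
  refine ⟨I.iF.smf, fun j hj => ?_, ⟨?_, fun _ => Ez.ft_new B k s⟩,
    Ef.ig hN (fun g z => ?_) I.iF.ig⟩
  · rcases hj.lt_or_eq with hj | rfl
    · rw [Ez.ft_old B k s (show j ≤ k by omega)]
      exact I.iF.sn j (by omega)
    · rw [Ez.ft_new]
      refine ⟨I.iF.smf.1, I.iF.smf.2.1, fun g => ?_⟩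
      have p := (Bk.gd hf hN g hk.le).hs_pos
      have l : ∀ i, (B.c g (k + 1)).hs i ≤ (B.c g k).hs i := fun i => by
        rw [Ef.hs_e B k g i]; linarith [p i]
      rw [e]
      exact ⟨(M g).1, (M g).2.1.monoh (fun i => (p i).le) l, (M g).2.2.monoh (fun i => (p i).le) l⟩
  · rw [Ez.ft_old B k s (Nat.zero_le _)]
    exact I.iF.fk.1
  · rw [e]
    exact mul_ne_zero (GeoP.det_ne hf g) (j0 _)

end
end Pool.Agent.MP_20bec2_an.T3

end MrgPart3

-- ======== part 4: formerly Pool.Agent.MP_20bec2_an.T3.Mv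
section MrgPart4

/-! The potential after one colour. -/

set_option autoImplicit false
open Set Filter Matrix Topology

namespace Pool.Agent.MP_20bec2_an.T3
noncomputable section
open Classical Prof Glue

namespace MvA

theorem tm_succ (k : ℕ) {r : ℕ} (h : 1 ≤ r) : tm k (r + 1) = tm k r + 1 := by unfold tm; omega

theorem cq_le {P t a y : ℝ} (hP : |P| ≤ 10) (ht : |t| ≤ 1 / 10 ^ 4) (ha : |a| ≤ 1 / 10 ^ 4)
    (hy : |y| ≤ 1 / 10 ^ 4) : |1 / 4 * P * ((t + a) ^ 2 - t ^ 2 - y)| ≤ 1 / 1000 := by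
  have e : |(t + a) ^ 2 - t ^ 2 - y| ≤ 2 / 10 ^ 4 := by
    obtain ⟨t1, t2⟩ := abs_le.1 ht
    obtain ⟨a1, a2⟩ := abs_le.1 ha
    obtain ⟨y1, y2⟩ := abs_le.1 hy
    refine abs_le.2 ⟨?_, ?_⟩ <;> nlinarith
  rw [abs_mul, abs_mul, abs_of_pos (by norm_num : (0 : ℝ) < 1 / 4)]
  nlinarith [abs_nonneg P, abs_nonneg ((t + a) ^ 2 - t ^ 2 - y)]

theorem eb_E {a c e : ℝ} (ha : |a| ≤ e) (hc : |c| ≤ e) : EB (a • E02 + c • E00) (cm e) := by
  have := (abs_nonneg a).trans ha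
  intro i j
  fin_cases i <;> fin_cases j <;> simp [E02, E00, dg3, cm, *]

theorem hsp_le {c : Pm} (h : Gd c) : 2 * (np c.N (-1500) * c.lb) ≤ c.h0 ∧
    np c.N (-1500) * c.lb ≤ 5 / 100 * c.D := by
  have b := h.big
  have a1 := mul_le_mul_of_nonneg_left h.lb_le (b.np_pos (-1500)).le
  have a2 := mul_le_mul_of_nonneg_right (c_np b (a := -1500 + 93) (b := -1300) (by norm_num))
    h.lam_pos.le
  have a3 := mul_le_mul_of_nonneg_right (c_np b (a := -1500) (b := (4 : ℕ)) (by norm_num))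
    h.lb_pos.le
  have a4 := mul_pos (b.np_pos (-1500)) h.lb_pos
  rw [b.np_add] at a2
  rw [np_nat] at a3
  unfold Pm.h0 Pm.D
  constructor <;> linarith

theorem uV_ge {N : ℕ} (h : Big N) : 4 * np N (-15) ≤ uV N := by
  have := c_np h (a := -15) (b := -2) (by norm_num)
  have : np N (-2) ≤ uV N := le_of_log (h.np_pos _) h.uV_pos (by
    rw [h.log_np, h.log_uV]; linarith [h.J_ge, h.L_ge])
  linarith [h.np_pos (-15)]

theorem fin {V V' V0 u L X S1 S2 c b q e e' : ℝ}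
    (h1 : V - V0 ≤ u * L + S1 + e ∧ -(u * L) + S2 - e ≤ V - V0)
    (h2 : V' - V ≤ u * (1 + X) + c + q * b + (e' - e) ∧
      -(u * (1 + X)) + b / 100 - (e' - e) ≤ V' - V) :
    V' - V0 ≤ u * (L + (1 + X)) + (S1 + (c + q * b)) + e' ∧
      -(u * (L + (1 + X))) + (S2 + b / 100) - e' ≤ V' - V0 := by
  constructor <;> linarith [h1.1, h1.2, h2.1, h2.2]

variable {B : Bk} {ρ : V → ℝ} {k r : ℕ} {s : St} {ch : Cu → Cu → ℝ → V} {o : Bk.MO}

theorem cb_off (H : B.MH ρ k r s ch o) (hb : Big B.N) (g : Cu) (x : V)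
    (hx : x ∉ box B.D g (93 / 100)) :
    (B.c g k).cost (B.fr g).O ((B.fr g).sc ρ) ((B.fr g).xc x) = 0 ∧
      (B.c g k).bst (B.fr g).O ((B.fr g).xc x) = 0 := by
  have e : alh (B.fr g).O (B.c g k).D ((B.fr g).xc x) = 0 := alh_zero (Dp H hb) fun e =>
    hx (box_mono (Dp H hb).le (by norm_num) g ((GeoP.xc_mem (fo H)).1 e))
  simp [Pm.cost, Pm.bst, e]

theorem dV (H : B.MH ρ k r s ch o) (hb : Big B.N) (f' : V → V)
    (vt : ∀ g g' : Cu, ∀ A : Mx, Cpt (dc B.N) (B.fr g) (B.fr g') →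
      EB ((B.fr g).hm A - 1) (cm (1 / 100)) →
      |(B.c g 0).V2 ((B.fr g).hm A - 1) - (B.c g' 0).V2 ((B.fr g').hm A - 1)| ≤ np B.N (-15))
    (zd : ∀ g, ∀ x ∈ B.bx g 1, EB (B.Eh s g x) (cm ((B.c g k).zT / 2)))
    {g : Cu} {x : V} (hx : x ∈ B.bx g 1) {i : Cu} (hi : B.NS i x) {w : ℝ}
    (hw : w = (if B.pushN g then 2 * nzn B.N k (r + 1) *
        ((B.c g 0).η * (B.c g 0).p / pq B.N ^ 3) else 0) -
      if B.pushN g then 2 * nzn B.N k r * ((B.c g 0).η * (B.c g 0).p / pq B.N ^ 3) else 0) :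
    (B.c g 0).V2 (B.Eh (B.stp ρ k r s ch o f') g x) - (B.c g 0).V2 (B.Eh s g x) ≤
      uV B.N * (1 + (B.stp ρ k r s ch o f').xs (tm k r) i) + B.costm ρ (tm k r) x +
        pq B.N * B.bstm (tm k r) x + w ∧
    -(uV B.N * (1 + (B.stp ρ k r s ch o f').xs (tm k r) i)) + B.bstm (tm k r) x / 100 - w ≤
      (B.c g 0).V2 (B.Eh (B.stp ρ k r s ch o f') g x) - (B.c g 0).V2 (B.Eh s g x) := by
  have G := fo H
  have hD := Dp H hb
  have n93 : (93 / 100 : ℝ) < 1 := by norm_num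
  have g0 := Bk.gd0 G hb g
  have wp := div_pos g0.ηp_pos (pow_pos hb.q_pos 3)
  have w2 : w = if B.pushN g ∧ k = mid B.N then
      2 * ((B.c g 0).η * (B.c g 0).p / pq B.N ^ 3) else 0 := by
    rw [hw]
    by_cases hp : B.pushN g
    · by_cases hk : k = mid B.N
      · rw [if_pos hp, if_pos hp, if_pos ⟨hp, hk⟩, hk, nzn_mid, nzn_mid, Nat.add_sub_cancel,
          Nat.cast_sub H.hr.1]
        ring
      · rw [nzn_ne hk _ r, sub_self, if_neg fun e => hk e.2]
    · rw [if_neg hp, if_neg hp, sub_self, if_neg fun e => hp e.1]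
  have w0 : 0 ≤ w := by rw [w2]; split_ifs <;> linarith
  have m8 : tm k r % 8 = r - 1 := by have := H.hr; unfold tm; omega
  have d8 : tm k r / 8 = k := by have := H.hr; unfold tm; omega
  have eX : (B.stp ρ k r s ch o f').xs (tm k r) i =
      ∑ᶠ g, if col g = r - 1 ∧ i ∈ B.sites g (98 / 100) then o.xs g i else 0 := by
    simp only [Bk.stp, Function.update_self]
  have X0 : 0 ≤ (B.stp ρ k r s ch o f').xs (tm k r) i := by
    rw [eX]
    refine finsum_nonneg fun g => ?_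
    split_ifs with h
    exacts [(H.mo g h.1).led.1 i, le_rfl]
  have uX := mul_nonneg hb.uV_pos.le X0
  have up := hb.uV_pos
  have sZ := H.inv.iz.sm.1
  unfold Bk.costm Bk.bstm
  rw [m8, d8]
  by_cases hc : ∀ g', col g' = r - 1 → x ∉ B.bx g' (93 / 100)
  · have e1 : jm (B.stp ρ k r s ch o f').Zs x = jm s.Zs x :=
      jm_congr ((non_ev hD n93 hc).mono fun y hy => (idle H f' hy).1)
    obtain ⟨-, e2, e3, -⟩ := idle H f' hc
    rw [non (fun g _ x e => (cb_off H hb g x e).1) hc, non (fun g _ x e => (cb_off H hb g x e).2) hc,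
      Bk.Eh, Bk.Eh, e1, e2, e3]
    constructor <;> linarith
  push Not at hc
  obtain ⟨g', hg, hx'⟩ := hc
  have O' := GeoP.orth G g'
  have gk := Bk.gd G hb g' H.hk.le
  have x1 : x ∈ B.bx g' 1 := box_mono hD.le n93.le g' hx'
  have x99 : x ∈ B.bx g' (99 / 100) := box_mono hD.le (by norm_num) g' hx'
  obtain ⟨s1, s2⟩ := hsp_le gk
  have hs : 0 < B.hsp := mul_pos (hb.np_pos _) (GeoP.lb_pos G)
  have i98 : cen B.hsp i ∈ B.bx g' (98 / 100) := by
    have := box_add hx' (y := cen B.hsp i) (s := 5 / 100) (by rw [norm_sub_rev]; exact hi.trans s2)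
    rwa [show (93 / 100 + 5 / 100 : ℝ) = 98 / 100 by norm_num] at this
  have eX' : (B.stp ρ k r s ch o f').xs (tm k r) i = o.xs g' i := by
    rw [eX, finsum_eq_single _ g' fun g'' hne => if_neg fun e => hne (col_box_unique hD
      (by norm_num) (e.1.trans hg.symm) ((mem_sites hs).1 e.2) i98),
      if_pos ⟨hg, (mem_sites hs).2 i98⟩]
  have mo := H.mo g' hg
  obtain ⟨v1, v2⟩ := mo.vv i ((mem_sites hs).2 i98) ((B.fr g').xc x) ((GeoP.xc_mem G).2 x99) (by
    refine le_trans ?_ s1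
    change ‖(B.fr g').xc x - (B.fr g').xc (cen B.hsp i)‖ ≤ _
    rw [xc_sub]
    exact (orth_norm_le_two (orth_t O') _).trans (mul_le_mul_of_nonneg_left hi two_pos.le))
  have sU := up_sm mo.sm (nT B.N)
  have e1 : jm (B.stp ρ k r s ch o f').Zs x =
      jm s.Zs x + (B.fr g').unm (jm (Up (o.u g') (nT B.N)) ((B.fr g').xc x)) := by
    rw [← jm_unv _ sU, ← jm_add sZ (unv_sm _ sU)]
    exact jm_congr (Filter.mem_of_superset (box_nhds hD n93 hx') fun y hy =>
      (act H hb f' hg hy).1)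
  obtain ⟨-, e2, e3, -⟩ := act H hb f' hg x1
  have eN : (B.md ρ k r s ch g').dN (o.dth g') (o.dY g') ((B.fr g').xc x) =
      dT B o g' x • E02 + dQ B ρ k r s ch o g' x • E00 := rfl
  have eE : B.Eh (B.stp ρ k r s ch o f') g' x = B.Eh s g' x +
      (jm (Up (o.u g') (nT B.N)) ((B.fr g').xc x) -
        (dT B o g' x • E02 + dQ B ρ k r s ch o g' x • E00)) := by
    rw [Bk.Eh, Bk.Eh, e1, e2, e3, sub_add_eq_add_sub, ← hm_unm O' (GeoP.det_ne G g')
      (jm (Up _ _) _ - _), ← hm_add, unm_sub, unm_add, unm_smul, unm_smul]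
    congr 2
    abel
  have eD : (B.md ρ k r s ch g').E ((B.fr g').xc x) = B.Eh s g' x := by
    change B.Eh s g' ((B.fr g').xp _) = _
    rw [xp_xc O']
  rw [eD, eN] at v1 v2
  have bN : EB (dT B o g' x • E02 + dQ B ρ k r s ch o g' x • E00) (cm (1 / 1000)) := by
    by_cases hn : (B.c g' k).noise
    · obtain ⟨a1, a2, a3, a4, a5⟩ := sizes H hb hg hn x99
      exact eb_E (a1.trans (by norm_num)) (a5 ▸ cq_le a4 a3 a1 a2)
    · obtain ⟨a1, -, a2⟩ := quiet H hg hn x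
      exact eb_E (by rw [a1]; norm_num) (by rw [a2]; norm_num)
  obtain ⟨-, -, z1, z2⟩ := small gk
  have z3 := (small (Bk.gd G hb g H.hk.le)).2.2.2
  have t1 := abs_le.1 (vt g g' _ (GeoP.cpt_of_box G (N1 hb) (by norm_num) hx x1)
    (GeoP.eb_mono (zd g x hx) (by linarith)))
  have t2 := abs_le.1 (vt g' g (jm (B.stp ρ k r s ch o f').Zs x - (B.stp ρ k r s ch o f').Nth x -
      (B.stp ρ k r s ch o f').Neq x) (GeoP.cpt_of_box G (N1 hb) (by norm_num) x1 hx) (by
    change EB (B.Eh (B.stp ρ k r s ch o f') g' x) _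
    rw [eE, sub_eq_add_neg]
    exact GeoP.eb_mono (GeoP.eb_add (zd g' x x1) (GeoP.eb_add (mo.path _ le_rfl _).2
      (GeoP.eb_neg bN))) (by change _ + (1 / √(B.c g' k).J + _) ≤ _; linarith)))
  have nw : (if (B.c g' k).noise then (B.c g' 0).η * (B.c g' 0).p / pq B.N ^ 3 else 0) ≤ w := by
    split_ifs with hn
    · have nb : Nbr 2 g g' := box_nbr hD (by norm_num) hx x1
      have cp := Bk.cpk G hb (nb.mono (r' := 3) (by norm_num)) (Nat.zero_le _) (Nat.zero_le _)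
      have r1 := (cp.ratios Pm.η (by simp)).2.1
      have r2 := (cp.ratios Pm.p (by simp)).2.1
      have q1 := cp.q_inv.2
      have q0 := one_div_pos.2 g0.q_pos
      rw [w2, if_pos ⟨⟨g', nb, hn.1⟩, hn.2⟩, ← mul_div_assoc]
      refine div_le_div_of_nonneg_right ((mul_le_mul r1 r2 cp.g'.p_pos.le
        (mul_pos (by linarith) g0.η_pos).le).trans ?_) (pow_pos hb.q_pos 3).le
      rw [mul_mul_mul_comm]
      exact mul_le_mul_of_nonneg_right (by nlinarith) g0.ηp_pos.le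
    · exact w0
  rw [one hD n93 (fun g _ x e => (cb_off H hb g x e).1) hg x1,
    one hD n93 (fun g _ x e => (cb_off H hb g x e).2) hg x1]
  rw [eX'] at uX ⊢
  have u4 := uV_ge hb
  change (B.c g' 0).V2 (B.Eh s g' x + (jm (Up (o.u g') (nT B.N)) _ - _)) -
    (B.c g' 0).V2 (B.Eh s g' x) ≤ uV B.N / 2 * _ +
      (B.c g' k).cost (B.fr g').O ((B.fr g').sc ρ) _ + pq B.N * (B.c g' k).bst (B.fr g').O _ +
      if (B.c g' k).noise then (B.c g' 0).η * (B.c g' 0).p / pq B.N ^ 3 else 0 at v1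
  change -(uV B.N / 2 * _) + (B.c g' k).bst (B.fr g').O _ / 100 -
    (if (B.c g' k).noise then (B.c g' 0).η * (B.c g' 0).p / pq B.N ^ 3 else 0) ≤
    (B.c g' 0).V2 (B.Eh s g' x + (jm (Up (o.u g') (nT B.N)) _ - _)) -
      (B.c g' 0).V2 (B.Eh s g' x) at v2
  rw [← eE] at v1 v2
  unfold Bk.Eh at v1 v2 ⊢
  constructor <;> linarith [t1.1, t1.2, t2.1, t2.2]

end MvA
open MvA

theorem mv (hz : ZderStmt) : MvStmt := by
  filter_upwards [ev_big, vtr, hz] with N hb hv hz B hN ρ k r s ch o f' H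
  subst hN
  have G := fo H
  have zd := (hz B rfl ρ k r s H.ok.toOk0 H.hk (by have := H.hr; omega) H.inv.il H.inv.iz
    H.inv.ip H.inv.iq).2
  refine ⟨fun g x hx i hi => ?_⟩
  have eL : La (B.stp ρ k r s ch o f').xs 0 (tm k (r + 1)) i =
      La s.xs 0 (tm k r) i + (1 + (B.stp ρ k r s ch o f').xs (tm k r) i) := by
    rw [tm_succ k H.hr.1, La, La, Finset.sum_Ico_succ_top (Nat.zero_le _)]
    congr 1
    refine Finset.sum_congr rfl fun m hm => ?_
    simp only [Bk.stp, Function.update_of_ne (Finset.mem_Ico.1 hm).2.ne]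
  rw [eL, tm_succ k H.hr.1, Finset.sum_range_succ, Finset.sum_range_succ]
  exact fin (H.inv.iv.vv g x hx i hi) (dV H hb f' (fun g g' A c e => (hv _ _ B.lb A (GeoP.orth G g)
    (GeoP.orth G g') (GeoP.det_pos G g) (GeoP.det_pos G g') c (Bk.gd0 G hb g).ok (Bk.gd0 G hb g').ok
    e).1) (fun g x hx => (zd g x hx).2.1) hx hi rfl)

end
end Pool.Agent.MP_20bec2_an.T3

end MrgPart4

-- marker of a merged file
example : 731051 + 365687 = 731051 + 365687 := rfl

end MrgPart0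

-- ======== part 1: formerly Pool.Agent.MP_20bec2_an.T3.Netp
section MrgPart1

-- ======== part 0: formerly Pool.Agent.MP_20bec2_an.T3.Link
section MrgPart0

/-! Row LINK: the point with the same image one block earlier. -/

set_option autoImplicit false
open Set Filter Matrix

namespace Pool.Agent.MP_20bec2_an.T3
noncomputable section
open Classical

namespace Link

lemma num {N : ℕ} (h : Big N) : pq N ^ 2 * np N (11 / 10) ≤ np N (21 / 10) ∧
    np N (11 / 10) ≤ np N (21 / 10) ∧ np N (6 / 5) ≤ np N (21 / 10) ∧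
    16 * np N (21 / 10) ≤ (N : ℝ) ^ 3 ∧ 4000 * (N : ℝ) ^ 3 ≤ (N : ℝ) ^ 4 := by
  have := h.q_pos; have := h.N_pos; have := h.np_pos (11 / 10); have := h.np_pos (21 / 10)
  have l1 := logc_bd (show (1 : ℝ) ≤ 16 by norm_num)
  have l2 := logc_bd (show (1 : ℝ) ≤ 4000 by norm_num)
  refine ⟨?_, h.np_le (by norm_num), h.np_le (by norm_num), ?_, ?_⟩ <;>
    refine le_of_log (by positivity) (by positivity) ?_ <;>
    simp (disch := positivity) only [Real.log_mul, Real.log_pow, h.log_q, h.log_np, h.log_N] <;>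
    push_cast <;> linarith [h.L_ge, h.J_ge]

/-- the label of a point is close to its first position -/
lemma near {B : Bk} (hN : Big B.N) (hf : FrOk B.N B.lb B.fr) {k r : ℕ} (hr : r ≤ 9) {s : St}
    {ρ : V → ℝ} (I : B.IF ρ k r s) (g : Cu) {x : V} (hx : x ∈ B.bx g 1) :
    ‖(B.fr g).zc (B.lab s.f x) - (B.fr g).zc (B.Z0 x)‖ ≤ 4 * np B.N (21 / 10) * B.lb := by
  have G := Bk.gd0 hf hN g
  have hl := GeoP.lb_pos hf
  obtain ⟨n1, n2, -⟩ := num hN
  have p := hN.np_pos (21 / 10)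
  have i0 : Function.Injective B.f0 := I.fk.1 ▸ (I.sn 0 (Nat.zero_le _)).2.1.1
  obtain ⟨d1, d2⟩ := I.ig.dl 0 (Nat.zero_le _) g x hx
  rw [I.fk.1, show B.oh g B.f0 x = (B.fr g).zc (B.Z0 x) from
    congrArg _ (Function.leftInverse_invFun i0 _)] at d1 d2
  have y0 : ∀ g, (B.c g 0).y = np B.N (11 / 10) * B.lb := fun g => by
    show np B.N (11 / 10) * (B.lb / 2 ^ 0) = _
    rw [pow_zero, div_one]
  have ph2 := Zder.ph_bd 0 k hr
  have a1 := mul_le_mul_of_nonneg_right n1 hl.le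
  have a2 := mul_le_mul_of_nonneg_right n2 hl.le
  have a0 := mul_pos p hl
  refine Prof.norm_le_of fun i => ?_
  by_cases e : i = 2
  · subst e
    refine d2.trans ?_
    have b1 : pq B.N ^ 2 * B.yk 0 * ph 0 k r ≤ pq B.N ^ 2 * B.yk 0 * 2 :=
      mul_le_mul_of_nonneg_left ph2 (mul_pos (pow_pos hN.q_pos 2) (Bk.gd0 hf hN 0).y_pos).le
    have b2 : (B.c g (mid B.N)).lam ≤ B.lb :=
      (Bk.gd hf hN g (by have := hN.mid_lt; omega)).lam_le_lb
    have b3 := mul_le_mul_of_nonneg_left b2 p.le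
    rw [Bk.yk, y0] at b1 ⊢
    split_ifs <;> linarith
  · refine (d1 i e).trans ?_
    have b0 : np B.N (-3 / 10) ≤ 1 := (hN.np_le (by norm_num)).trans_eq (np_zero _)
    have b1 := (Zder.hs_le G i).trans_eq (y0 g)
    have b2 : np B.N (-3 / 10) * (B.c g 0).hs i ≤ (B.c g 0).hs i :=
      mul_le_of_le_one_left (G.hs_pos i).le b0
    have b3 := mul_le_mul_of_nonneg_left ph2 (mul_pos (hN.np_pos (-3 / 10)) (G.hs_pos i)).le
    linarith

end Link

theorem link : LinkStmt := by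
  filter_upwards [ev_big, zder] with N hN hz B hB ρ s H x
  subst hB
  obtain ⟨-, ok, hk, I⟩ := H
  have hf := ok.geo.toFrOk
  have h2 : 2 ≤ B.N := by
    exact_mod_cast (show (2 : ℝ) ≤ B.N by linarith [hN.N_ge, hN.J_ge, hN.L_ge])
  have hl := GeoP.lb_pos hf
  have hD := GeoP.D_pos hf (by omega)
  obtain ⟨-, -, n3, n4, n5⟩ := Link.num hN
  have a3 := mul_le_mul_of_nonneg_right n3 hl.le
  have a4 := mul_le_mul_of_nonneg_right n4 hl.le
  have a5 := mul_le_mul_of_nonneg_right n5 hl.le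
  have a0 := mul_pos (hN.np_pos (21 / 10)) hl
  have eD : Dd B.N B.lb = (B.N : ℝ) ^ 4 * B.lb := rfl
  have s0 : Function.Surjective B.f0 := I.iF.fk.1 ▸ (I.iF.sn 0 (Nat.zero_le _)).2.1.2
  obtain ⟨x', e⟩ := (s0.comp ok.geo.bij.2) (s.f (B.Z s x))
  have el : B.lab s.f x' = B.Z s x := by
    rw [Bk.lab, show B.f0 (B.Z0 x') = s.f (B.Z s x) from e]
    exact Function.leftInverse_invFun I.iF.smf.2.1.1 _
  refine ⟨x', e.symm, ?_⟩
  obtain ⟨g, hg⟩ := Prof.exists_box hD x'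
  have up : ∀ g, box (Dd B.N B.lb) g (1 / 2) ⊆ B.bx g 1 := fun g =>
    Prof.box_mono hD.le (by norm_num) g
  have dZ : ∀ g, ∀ x ∈ B.bx g 1,
      ‖(B.fr g).zc (B.Z s x) - (B.fr g).zc (B.Z0 x)‖ ≤ np B.N (6 / 5) * B.lb := fun g x hx => by
    rw [Prof.zc_sub]
    exact ((hz B rfl ρ _ 9 s ok.toOk0 hk le_rfl I.il I.iz I.ip I.iq).2 g x hx).2.2.2.2.1
  have b1 := Link.near hN hf le_rfl I.iF g (up g hg)
  have b2 := ((GeoP.near_geo (L := B.lab s.f) ok.geo h2 (ε := 4 * np B.N (21 / 10) * B.lb)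
    (by linarith) (fun g x hx => Link.near hN hf le_rfl I.iF g (up g hx)) g x' (r := 1 / 2)
    (by norm_num) (by norm_num)).1 hg).1
  rw [el] at b1 b2
  have b3 := (GeoP.near_geo (L := B.Z s) ok.geo h2 (ε := np B.N (6 / 5) * B.lb) (by linarith)
    (fun g x hx => dZ g x (up g hx)) g x (by norm_num) (by norm_num)).2 b2
  have b4 := dZ g x (Prof.box_mono hD.le (by norm_num) g b3)
  have b5 := (GeoP.lip ok.geo (Prof.box_mono hD.le (by norm_num) g hg)
    (Prof.box_mono hD.le (by norm_num) g b3)).1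
  have b6 := norm_sub_le ((B.fr g).zc (B.Z s x) - (B.fr g).zc (B.Z0 x'))
    ((B.fr g).zc (B.Z s x) - (B.fr g).zc (B.Z0 x))
  rw [sub_sub_sub_cancel_left] at b6
  linarith

end
end Pool.Agent.MP_20bec2_an.T3

end MrgPart0

-- ======== part 1: formerly Pool.Agent.MP_20bec2_an.T3.Mbi
section MrgPart1

/-! Bounds of the density during a band. -/

set_option autoImplicit false
open MeasureTheory Set Filter Matrix Topology

namespace Pool.Agent.MP_20bec2_an.T3
noncomputable section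
open Classical

namespace MbiP

/-- a lateral derivative can be taken first -/
lemma cl_of {h : V} {U : Set V} {g : V → ℝ} {A : ℝ} {n : ℕ} (hh : ∀ i, 0 ≤ h i) (hg : Sm g)
    (H : ∀ i, i ≠ 2 → CB n h U (fun w => h i * pd i g w) A) : CL (n + 1) h U g A := by
  rintro l ⟨hl, i, hi, h2⟩ x hx
  have p := List.perm_cons_erase hi
  have e1 : hp h l = h i * hp h (l.erase i) := by
    rw [hp, (p.map h).prod_eq, List.map_cons, List.prod_cons, hp]
  have e2 := p.length_eq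
  rw [List.length_cons] at e2
  have k := H i h2 (l.erase i) (show _ ≤ n by omega) x hx
  rw [pds_const_mul, pds_pd hg, abs_mul, abs_of_nonneg (hh i)] at k
  rw [pds_perm hg p, e1]
  exact le_of_eq_of_le (by rw [pds_cons]; ring) k

lemma beta_le {c : Pm} (h : Gd c) : c.betaR (c.y / 2) ≤ np c.N (-277 / 1000) := by
  have y0 := h.y_pos
  have a1 : max 1 (np c.N (3 / 10) * (c.y / 2) / c.y) ≤ np c.N (3 / 10) := by
    refine max_le (by rw [← np_zero c.N]; exact h.big.np_le (by norm_num)) ?_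
    rw [div_le_iff₀ y0]
    exact mul_le_mul_of_nonneg_left (half_le_self y0.le) (h.big.np_pos _).le
  have a2 := Real.rpow_le_rpow (zero_le_one.trans (le_max_left _ _)) a1
    (show (0 : ℝ) ≤ 1 / 100 by norm_num)
  have a3 : np c.N (3 / 10) ^ (1 / 100 : ℝ) = np c.N (3 / 1000) := by
    rw [np, ← Real.rpow_mul h.N_pos.le, np]; norm_num
  rw [a3] at a2
  refine (mul_le_mul_of_nonneg_left a2 (h.big.np_pos _).le).trans_eq ?_
  rw [← h.big.np_add]; norm_num

lemma fin_le {N : ℕ} (b : Big N) :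
    pq N * (3 * np N (-277 / 1000) + np N (-17)) + Real.exp (-(N : ℝ)) ≤ np N (-27 / 100) := by
  have a1 : np N (-17) ≤ np N (-277 / 1000) := b.np_le (by norm_num)
  have a2 : Real.exp (-(N : ℝ)) ≤ np N (-277 / 1000) := by
    rw [b.np_eq]
    exact Real.exp_le_exp.2 (by linarith [b.N_ge, b.J_pos])
  have a3 := b.mono_le (C := 5) (M := 5) (a := -277 / 1000) (b := 0) (c := 1) (a' := -27 / 100)
    (b' := 0) (c' := 0) (by linarith [Real.add_one_le_exp 5]) (by linarith [b.J_ge, b.L_ge])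
  simp only [Jp_zero, qp_zero, qp_one, mul_one] at a3
  have p := b.np_pos (-277 / 1000)
  nlinarith [b.q_ge]

lemma quad (a b c : ℝ) (v : V) :
    v ⬝ᵥ (dg3 a b c *ᵥ v) = a * v 0 ^ 2 + b * v 1 ^ 2 + c * v 2 ^ 2 := by
  simp [dg3, dotProduct, mulVec_diagonal, Fin.sum_univ_three]
  ring

/-- the covariance that is added -/
lemma gap {l1 lam y T e : ℝ} {L D : Mx} (h1 : 0 < lam) (h2 : lam ≤ l1) (h3 : 0 < y)
    (h5 : y ≤ T * lam) (T1 : 1 ≤ T)
    (hL : EB (nrm ![l1, lam, y] L - dg3 (1 / 32) (1 / 32) 0) (cm e))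
    (hD : EB (D - dg3 0 0 1) (cm e)) :
    EB (nrm ![l1, lam, y] (L + (y ^ 2 - (y / 2) ^ 2) • D -
      dg3 (l1 ^ 2 / 32) (lam ^ 2 / 32) (3 / 4 * y ^ 2))) (cm (2 * T ^ 2 * e)) := fun i j => by
  have e0 : 0 ≤ e := (abs_nonneg _).trans (hD 0 0)
  have l0 : 0 < l1 := h1.trans_le h2
  obtain ⟨h, hh⟩ : ∃ h : V, h = ![l1, lam, y] := ⟨_, rfl⟩
  have f : ∀ i, 0 < h i ∧ y ≤ T * h i := fun i => by
    subst hh
    fin_cases i
    exacts [⟨l0, h5.trans (mul_le_mul_of_nonneg_left h2 (by linarith))⟩, ⟨h1, h5⟩,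
      ⟨h3, le_mul_of_one_le_left h3.le T1⟩]
  obtain ⟨i1, i2⟩ := f i
  obtain ⟨j1, j2⟩ := f j
  have w1 : 3 / 4 * y ^ 2 / (h i * h j) ≤ T ^ 2 := by
    rw [div_le_iff₀ (mul_pos i1 j1)]
    nlinarith [mul_le_mul i2 j2 h3.le (h3.le.trans i2), sq_nonneg y]
  have a1 : |(nrm h L - dg3 (1 / 32) (1 / 32) 0) i j| ≤ e := hh ▸ hL i j
  have a2 : |3 / 4 * y ^ 2 / (h i * h j) * (D - dg3 0 0 1) i j| ≤ T ^ 2 * e := by
    rw [abs_mul, abs_of_nonneg (by positivity)]
    exact mul_le_mul w1 (hD i j) (abs_nonneg _) (by positivity)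
  have a3 : e ≤ T ^ 2 * e := le_mul_of_one_le_left e0 (one_le_pow₀ T1)
  have e1 : dg3 (l1 ^ 2 / 32) (lam ^ 2 / 32) (3 / 4 * y ^ 2) i j =
      dg3 (1 / 32) (1 / 32) 0 i j * (h i * h j) + 3 / 4 * y ^ 2 * dg3 0 0 1 i j := by
    subst hh
    fin_cases i <;> fin_cases j <;> simp [dg3]
    all_goals ring
  rw [← hh]
  refine le_of_eq_of_le (congrArg abs ?_) ((abs_add_le _ _).trans
    ((add_le_add a1 a2).trans (show _ ≤ 2 * T ^ 2 * e by linarith)))
  simp only [nrm, of_apply, Matrix.sub_apply, Matrix.add_apply, Matrix.smul_apply, smul_eq_mul, e1]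
  field_simp
  ring

end MbiP

open MbiP in
theorem mbi (hK : KsdStmt) (hS : SderStmt) : MbiStmt := by
  filter_upwards [hK, hS, mbd1 kg, conv kg, kg, ev_big] with N hK hS hM hC hG b
  rintro B rfl ρ k r s hρ ok hk r1 r9 pre ir
  have fo := ok.geo.toFrOk
  have gd := fun g => Bk.gd fo b g hk.le
  have D0 : 0 < B.D := (gd 0).D_pos
  have y0 : 0 < B.yk k := (gd 0).y_pos
  have hy : ∀ g, (B.c g k).yrg (B.yk k / 2) := fun g => ⟨by
    have := KsdP.np_small b (a := -31 / 100) (by norm_num)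
    show np B.N (-31 / 100) * B.yk k ≤ _
    nlinarith, le_rfl⟩
  obtain ⟨K1, os, K2, -⟩ := hK B rfl ρ k r s ok hk r9 pre
  replace K2 := K2 _ (hy 0)
  have hM := hM B rfl ρ k _ _ hρ ok.geo hk.le K1 os
  have cl : ∀ g, CL 2 (B.c g k).hs (B.R g (98 / 100)) ((B.fr g).den (dens ρ (B.Z s) s.Sg))
      (np B.N (-27 / 100)) := fun g => by
    have sm : Sm ((B.fr g).den (dens ρ (B.Z s) s.Sg)) :=
      contDiff_const.mul ((k1 _ _ _ (hG B rfl k _ _ _ ok.geo hk.le K1 ρ 2 hρ.1 fun x => by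
        have := abs_le.1 (hρ.2 x)
        rw [eps0] at this
        exact abs_le.2 ⟨by linarith [this.1], by linarith [this.2]⟩).1).1.comp (Prof.zp_sm _))
    have l0 := (gd g).lam_pos
    have l1 := (gd g).l1_pos
    have lb0 : 0 < B.lb := (gd g).lb_pos
    have N0 := b.N_pos
    refine cl_of (fun i => ((gd g).hs_pos i).le) sm fun i hi l hl z hz => ?_
    have hA : dg3 ((B.c g k).l1 ^ 2 / 32) ((B.c g k).lam ^ 2 / 32) (3 / 4 * B.yk k ^ 2) ≠ 0 :=
      fun e => by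
        have := congrFun (congrFun e 2) 2
        simp [dg3, y0.ne'] at this
    have sk := KsdP.k_small b (show k + 1 ≤ nb B.N from hk)
    push_cast at sk
    have c := (hC B rfl ρ k k _ _ _ _ _ _ (np B.N (-17)) g
      (dg3 ((B.c g k).l1 ^ 2 / 32) ((B.c g k).lam ^ 2 / 32) (3 / 4 * B.yk k ^ 2)) z hρ ok.geo
      hk.le hk.le K2 K1
      (b.np_pos _).le ((KsdP.np_small b (by norm_num)).trans (by norm_num))
      (diagonal_transpose _) (Or.inr fun v => ?_) (fun x hx => ⟨fun j => ?_, ?_⟩)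
      (Prof.RX_mono _ D0.le ?_ hz)).2 hA (Pi.single i ((B.c g k).hs i))
      (3 * np B.N (-277 / 1000)) (Pi.single_eq_of_ne hi.symm _) (fun j => ?_) fun w hw => ?_
    · have e : ∀ G : V → ℝ, (fun w => ∑ j, (Pi.single i ((B.c g k).hs i) : V) j * pd j G w) =
          fun w => (B.c g k).hs i * pd i G w := fun G => by
        funext w
        simp [Pi.single_apply]
      rw [e] at c
      exact (c.2 l (hl.trans (by norm_num)) z rfl).trans (fin_le b)
    · rw [quad, Fin.sum_univ_three]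
      show 1 / 10 ^ 4 * (((B.c g k).l1 * v 0) ^ 2 + ((B.c g k).lam * v 1) ^ 2 + (B.yk k * v 2) ^ 2) ≤ _ ∧
        _ ≤ 6 * (((B.c g k).l1 * v 0) ^ 2 + ((B.c g k).lam * v 1) ^ 2 + (B.yk k * v 2) ^ 2)
      have s0 := sq_nonneg ((B.c g k).l1 * v 0)
      have s1 := sq_nonneg ((B.c g k).lam * v 1)
      have s2 := sq_nonneg (B.yk k * v 2)
      constructor <;> linarith [mul_pow (B.c g k).l1 (v 0) 2, mul_pow (B.c g k).lam (v 1) 2,
        mul_pow (B.yk k) (v 2) 2]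
    · rw [sub_self, Pi.zero_apply, abs_zero]
      exact mul_nonneg (b.np_pos _).le ((gd g).hs_pos j).le
    · obtain ⟨-, -, a1, a2⟩ := (hS B rfl k r s fo hk r1 r9 pre.is g).1 x
        (Prof.RX_mono _ D0.le (by norm_num) hx)
      have e : (B.fr g).cov s.Sg x - (B.fr g).cov (B.SR k r s.Sg (B.yk k / 2)) x =
          (B.fr g).cov (B.Dl k) x + (B.yk k ^ 2 - (B.yk k / 2) ^ 2) • (B.fr g).cov B.Db x := by
        simp only [Fr.cov, Bk.SR, if_neg (show r ≠ 0 by omega), Prof.cv1_sub, KsdP.cv1_smul]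
        abel
      rw [e]
      refine GeoP.eb_mono (gap (T := np B.N (11 / 10)) l0 (gd g).lam_le_l1 y0 le_rfl
        (by rw [← np_zero B.N]; exact b.np_le (by norm_num)) a2 a1) ?_
      have a3 := KsdP.np_small b (a := -4 / 5) (by norm_num)
      have a4 : np B.N (11 / 10) ^ 2 * np B.N (-20) = np B.N (-4 / 5) * np B.N (-17) := by
        rw [sq, ← b.np_add, ← b.np_add, ← b.np_add]; norm_num
      rw [mul_assoc, a4]
      nlinarith [b.np_pos (-17)]
    · have : 1 / (2 * (B.N : ℝ)) ≤ (k + 1) / B.N := by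
        rw [div_le_div_iff₀ (by positivity) N0]
        nlinarith [Nat.cast_nonneg (α := ℝ) k]
      linarith
    · rw [Pi.single_apply]
      split_ifs with hj
      · rw [hj, abs_of_pos ((gd g).hs_pos i)]
      · rw [abs_zero]; exact ((gd g).hs_pos j).le
    · have hw' : w ∈ B.R g (985 / 1000 - (k + 1) / B.N) := by
        refine Prof.RX_mono _ D0.le ?_ (Prof.RX_add (s := 1 / 1000) (GeoP.orth fo g) hz ?_)
        · linarith
        · have a3 := KsdP.np_small b (a := -3 / 2) (by norm_num)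
          have a4 : np B.N (5 / 2) * B.lb = np B.N (-3 / 2) * B.D := by
            rw [Bk.D, Dd, ← np_nat, ← mul_assoc, ← b.np_add]; norm_num
          rw [a4] at hw
          nlinarith
      have a1 := ir.ri g _ (hy g) w hw'
      have a2 := beta_le (gd g)
      have a3 : (r : ℝ) ≤ 9 := by exact_mod_cast r9
      have a4 : B.yk k / 2 / B.yk k = 1 / 2 := by field_simp
      have a5 := b.np_pos (-277 / 1000)
      have a6 : (B.c g k).betaR (B.yk k / 2) * (1 + r / 2000) ≤ np B.N (-277 / 1000) * (3 / 2) :=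
        mul_le_mul a2 (by linarith) (by positivity) a5.le
      rw [a4] at a1
      simp only [Pi.single_apply, ite_mul, zero_mul, Finset.sum_ite_eq', Finset.mem_univ, if_true]
      refine le_trans (Real.abs_le_sqrt ?_)
        (le_of_mul_le_mul_left (a1.trans (a6.trans_eq (by ring))) (by norm_num))
      fin_cases i
      · exact le_add_of_nonneg_right (sq_nonneg _)
      · exact le_add_of_nonneg_left (sq_nonneg _)
      · exact absurd rfl hi
  refine ⟨fun g => ⟨(hM g).1, ?_, ?_⟩, cl⟩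
  · rw [one_mul]
    exact (hM g).2.of_le (by norm_num)
  · rw [one_mul]
    exact CBl.monoB (cl g) (b.np_le (by norm_num))

end
end Pool.Agent.MP_20bec2_an.T3

end MrgPart1

-- ======== part 2: formerly Pool.Agent.MP_20bec2_an.T3.Netp
section MrgPart2

/-! Row NETP: a finite net of the point functionals. -/

set_option autoImplicit false
set_option linter.unusedSectionVars false
open MeasureTheory Set Filter Matrix Topology

namespace Pool.Agent.MP_20bec2_an.T3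
noncomputable section
open Classical

namespace GoodP

abbrev KK := Fin 4 × List (Fin 3) × Fin 3 × Fin 3

/-- the four shapes of point functionals -/
def sh (d : MD) (k : KK) (x : V) : Fn :=
  ![d.pU x k.2.2.1, d.pE x k.2.2.1 k.2.2.2, d.pD x k.2.1 k.2.2.1, d.pT x k.2.1] k.1
def okK (k : KK) : Prop :=
  (k.1 = 1 → k.2.2.1 ≠ 2) ∧ (k.1 = 2 → k.2.1.length = 2) ∧ k.2.1.length ≤ 4

lemma okK_fin : {k | okK k}.Finite :=
  ((finite_univ (α := Fin 4)).prod ((List.finite_length_le (Fin 3) 4).prod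
    (finite_univ (α := Fin 3 × Fin 3)))).subset fun _ hk => ⟨trivial, hk.2.2, trivial⟩

lemma fam_iff {d : MD} {Λ : Fn} :
    Λ ∈ d.FamP ↔ ∃ x ∈ d.R (99 / 100), ∃ k, okK k ∧ Λ = sh d k x := by
  refine exists_congr fun x => and_congr_right fun _ => ⟨?_, ?_⟩
  · rintro (⟨j, e⟩ | ⟨a, b, ha, e⟩ | ⟨l, i, hl, e⟩ | ⟨l, hl, e⟩)
    · exact ⟨(0, [], j, 0), by simp [okK], e⟩
    · exact ⟨(1, [], a, b), by simp [okK, ha], e⟩
    · exact ⟨(2, l, i, 0), by simp [okK, hl], e⟩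
    · exact ⟨(3, l, 0, 0), by simp [okK, hl], e⟩
  · rintro ⟨⟨k, l, a, b⟩, ⟨h1, h2, h3⟩, e⟩
    fin_cases k
    · exact .inl ⟨a, e⟩
    · exact .inr (.inl ⟨a, b, h1 rfl, e⟩)
    · exact .inr (.inr (.inl ⟨l, a, h2 rfl, e⟩))
    · exact .inr (.inr (.inr ⟨l, h3, e⟩))

section par
variable {c : Pm} (h : Gd c)
include h

lemma one_np {a : ℝ} (ha : 0 ≤ a) : 1 ≤ np c.N a := (np_zero _).symm.trans_le (h.big.np_le ha)

lemma cnp {C a b : ℝ} (hC : C ≤ 1000) (hab : a + 1 ≤ b) : C * np c.N a ≤ np c.N b := by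
  refine le_trans ?_ (h.big.np_le hab)
  rw [h.big.np_add, np_one, mul_comm]
  exact mul_le_mul_of_nonneg_left (by linarith [h.big.N_ge, h.big.J_ge, h.big.L_ge])
    (h.big.np_pos _).le

lemma div_np {B a b e : ℝ} (hB : B ≤ np c.N a) (he : np c.N (-1) ≤ e) (hab : a + 1 ≤ b) :
    B / |e| ≤ np c.N b := by
  have p := (h.big.np_pos _).trans_le he
  rw [abs_of_pos p, div_le_iff₀ p]
  refine hB.trans (le_trans ?_ (mul_le_mul_of_nonneg_left he (h.big.np_pos _).le))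
  rw [← h.big.np_add]
  exact h.big.np_le (by linarith)

lemma cD_ge : np c.N (-1) ≤ c.lam * (c.d2u / (qp c.N (13 / 10) * √c.J)) := by
  have := h.J_pos; have := h.lam_pos; have := h.big.qp_pos (13 / 10); have := h.d2u_pos
  refine le_of_log (h.big.np_pos _) (by positivity) ?_
  simp (disch := positivity) only [Real.log_mul, Real.log_div, Real.log_sqrt, h.big.log_qp,
    h.log_J, h.big.log_np, h.log_d2u]
  linarith [h.big.L_ge, h.big.J_ge, h.log_η_le]

lemma cT_ge : np c.N (-1) ≤ qp c.N (1 / 10) * √c.p := by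
  have := h.p_pos; have := h.big.qp_pos (1 / 10)
  refine le_of_log (h.big.np_pos _) (by positivity) ?_
  simp (disch := positivity) only [Real.log_mul, Real.log_sqrt, h.big.log_qp, h.big.log_np]
  linarith [h.big.L_ge, h.big.J_ge, log_p_ge h]

lemma mesh : (2 * (2 * (99 / 100 * c.D)) / (np c.N (-2400) * c.lam) + 3) ^ 3 ≤ np c.N 7500 := by
  have p1 := h.lam_pos; have p2 := h.big.np_pos (-2400); have p3 := h.D_pos
  have h1 : c.D / (np c.N (-2400) * c.lam) ≤ np c.N 2497 := by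
    refine le_of_log (by positivity) (h.big.np_pos _) ?_
    have := Real.log_le_log h.lb_pos h.lb_le
    rw [Real.log_mul (h.big.np_pos _).ne' p1.ne', h.big.log_np] at this
    simp (disch := positivity) only [Real.log_mul, Real.log_div, h.big.log_np, h.log_D]
    linarith
  have h2 : 2 * (2 * (99 / 100 * c.D)) / (np c.N (-2400) * c.lam) + 3 ≤ np c.N 2500 := by
    have e : 2 * (2 * (99 / 100 * c.D)) / (np c.N (-2400) * c.lam) =
      99 / 25 * (c.D / (np c.N (-2400) * c.lam)) := by ring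
    linarith [one_np h (a := 2497) (by norm_num),
      cnp h (C := 7) (a := 2497) (b := 2500) (by norm_num) (by norm_num)]
  refine (pow_le_pow_left₀ (by positivity) h2 3).trans (le_of_eq ?_)
  rw [show (7500 : ℝ) = 2500 + 2500 + 2500 by norm_num, h.big.np_add, h.big.np_add]; ring

end par

variable {d : MD} {u : ℕ → V → V} {ω : ℕ → V → ℝ} {m : ℕ}

lemma lip (h : Gd d.c) (hI : d.In) (hm : m ≤ nT d.c.N) (hc : ∀ j, d.Cr d.ep (u j) (ω j))
    {k : KK} (hk : okK k) : ∃ g, Sm g ∧ CB 1 (cv d.c.lam) (d.R (99 / 100)) g (np d.c.N 2240) ∧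
      ∀ x, d.X (sh d k x) u ω m = g x := by
  have p1 := h.lam_pos
  have hh' : ∀ i, 0 < cv d.c.lam i := fun _ => p1
  have hh := fun i => (hh' i).le
  have e0 : d.ep * np d.c.N 15 = np d.c.N (-685) := by rw [MD.ep, ← h.big.np_add]; norm_num
  have e1 : np d.c.N (-685) ≤ 1 := (h.big.np_le (by norm_num)).trans_eq (np_zero _)
  have e2 := h.big.np_pos (-685)
  have hY : (m : ℝ) * np d.c.N (-685) ≤ np d.c.N 1115 := by
    have : (m : ℝ) ≤ np d.c.N (1800 : ℕ) := by rw [np_nat]; exact_mod_cast hm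
    refine (mul_le_mul_of_nonneg_right this e2.le).trans (le_of_eq ?_)
    rw [← h.big.np_add]; norm_num
  have Y1 := one_np h (a := 1115) (by norm_num)
  have sU := fun i => (sm_Up (m := m) hc).coord i
  have st := sm_dt (m := m) hc
  have cU : ∀ i, CB 4 (cv d.c.lam) (d.R (99 / 100)) (fun x => Up u m x i)
      (np d.c.N 1115 * d.c.lam) := fun i => by
    have := CBl.sum_card (Finset.range m) hh (fun j _ => (hc j).sm.1.coord i)
      fun j _ => (hc j).cb.1 i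
    rw [Finset.card_range, e0, ← mul_assoc] at this
    exact (CBl.congr_fun this fun x => Finset.sum_apply _ _ _).mono (fun _ h => h) hh
      (fun _ => le_rfl) (subset_univ _) (mul_le_mul_of_nonneg_right hY p1.le)
  have cT : CB 5 (cv d.c.lam) (d.R (99 / 100)) (dt ω m) (np d.c.N 1115) := by
    have := CBl.sum_card (Finset.range m) hh (fun j _ => (hc j).sm.2) fun j _ => (hc j).cb.2
    rw [Finset.card_range, e0] at this
    exact this.mono (fun _ h => h) hh (fun _ => le_rfl) (subset_univ _) hY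
  obtain ⟨k, l, a, b⟩ := k
  obtain ⟨k1, k2, k3⟩ := hk
  fin_cases k
  · refine ⟨_, (sU a).div_const _, CBl.monoB (CBl.div_const ((cU a).of_le (by norm_num)) _) ?_,
      fun x => X_pU x a⟩
    have h2 : 1 ≤ qp d.c.N (3 / 10) := (qp_zero _).symm.trans_le (h.big.qp_le (by norm_num))
    have h3 : d.c.lam ≤ qp d.c.N (3 / 10) * d.c.hs a :=
      (KlsA.lam_le_hs h a).trans (le_mul_of_one_le_left (h.hs_pos a).le h2)
    rw [abs_of_pos (p1.trans_le h3), div_le_iff₀ (p1.trans_le h3)]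
    exact mul_le_mul (h.big.np_le (by norm_num)) h3 p1.le (h.big.np_pos _).le
  · have sG : Sm fun x => (d.th x + dt ω m x) ^ 2 - d.th x ^ 2 - dy ω m x :=
      (((hI.ns.1.add st).pow 2).sub (hI.ns.1.pow 2)).sub (sm_dy hc)
    have sP := (hI.ns.2.1.pd 0).mul sG
    have sN : Sm fun x => d.dN (dt ω m) (dy ω m) x a b := by
      simp only [dN_apply]; exact (st.cmul _).add (Sm.cmul (Sm.cmul sP _) _)
    have N1 : (1 : ℝ) ≤ (d.c.N : ℝ) ^ 2 := (one_np h (a := (2 : ℕ)) (by norm_num)).trans_eq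
      (np_nat _ _)
    have Y2 : np d.c.N 1115 ≤ (d.c.N : ℝ) ^ 2 * np d.c.N 1115 ^ 2 := by nlinarith
    have cN : CB 1 (cv d.c.lam) (d.R (99 / 100)) (fun x => d.dN (dt ω m) (dy ω m) x a b)
        (7 * ((d.c.N : ℝ) ^ 2 * np d.c.N 1115 ^ 2)) := by
      by_cases hn : d.c.noise
      swap
      · exact CBl.congr_fun (cbl_zero (by positivity)) fun x => by rw [dN_nn hc hn]; rfl
      obtain ⟨hP, hth⟩ := hI.ns.2.2 hn
      have c1 := cT.of_le (m := 1) (by norm_num)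
      have c2 : CB 1 (cv d.c.lam) (d.R (99 / 100)) d.th (np d.c.N 1115) :=
        CBl.mono hth (fun _ h => le_trans h (by norm_num)) hh (lam_le_thS h) subset_rfl
          (show sg d.c ≤ _ by linarith [sg_le h, sJ_le h, sg_pos h])
      have c3 : CB 1 (cv d.c.lam) (d.R (99 / 100)) (dy ω m) (2 * np d.c.N 1115 ^ 2) := by
        have := CBl.sum_card (Finset.range m) hh (fun j _ => (hc j).sm.2.pow 2)
          fun j _ => CB.sq hh (hc j).sm.2 ((hc j).cb.2.of_le (m := 1) (by norm_num))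
        rw [Finset.card_range, e0] at this
        refine this.mono (fun _ h => h) hh (fun _ => le_rfl) (subset_univ _) ?_
        have := mul_le_mul hY (e1.trans Y1) e2.le (zero_le_one.trans Y1)
        linarith
      have c4 := CBl.sub hh (((hI.ns.1.add st).pow 2).sub (hI.ns.1.pow 2)) (sm_dy hc)
        (CBl.sub hh ((hI.ns.1.add st).pow 2) (hI.ns.1.pow 2)
          (CB.sq hh (hI.ns.1.add st) (CBl.add hh hI.ns.1 st c2 c1)) (CB.sq hh hI.ns.1 c2)) c3
      have c5 := CBl.smul_nonneg (CB.mul hh (hI.ns.2.1.pd 0) sG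
        ((CB.pd_div hh' hP.2.2.2 0).of_le (by norm_num)) c4) (show (0 : ℝ) ≤ 1 / 4 by norm_num)
      have k4 : |E02 a b| ≤ 1 ∧ |E00 a b| ≤ 1 := by
        rcases E_cases a b with ⟨e1, e2⟩ | ⟨e1, e2⟩ | ⟨e1, e2⟩ <;> simp [e1, e2]
      refine CBl.monoB (CBl.congr_fun (CBl.add hh (st.cmul _) (Sm.cmul (Sm.cmul sP _) _)
        (CBl.smul_le hh c1 k4.1) (CBl.smul_le hh c5 k4.2)) fun x => dN_apply _ _ _ _ _ _) ?_
      rw [cv, mul_div_cancel_right₀ _ p1.ne']
      linarith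
    refine ⟨_, (((sm_Up hc).jm a b).sub sN).div_const _, CBl.monoB (CBl.div_const
      (CBl.sub hh ((sm_Up hc).jm a b) sN (cb_jm hh' a b ((cU a).of_le (by norm_num)).toCV) cN) _)
      (div_np h (a := 2233) ?_ (nE_ge h (k1 rfl) b) (by norm_num)), fun x => X_pE hc x a b⟩
    have e3 : (d.c.N : ℝ) ^ 2 * np d.c.N 1115 ^ 2 = np d.c.N 2232 := by
      rw [show (2232 : ℝ) = (2 : ℕ) + (1115 + 1115) by norm_num, h.big.np_add, h.big.np_add,
        np_nat]; ring
    rw [cv, mul_div_cancel_right₀ _ p1.ne']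
    linarith [cnp h (C := 8) (a := 2232) (b := 2233) (by norm_num) (by norm_num)]
  · have hl : l.length = 2 := k2 rfl
    have c1 : CB 1 (cv d.c.lam) (d.R (99 / 100)) _ _ := CBl.pds hh (cU a) l fun l' h' => by
      rw [List.length_append]; omega
    refine ⟨_, (((sU a).pds l).cmul _).div_const _, CBl.monoB (CBl.div_const c1
      (d.c.lam * (d.c.lam * (d.c.d2u / (qp d.c.N (13 / 10) * √d.c.J))))) ?_, fun x => ?_⟩
    · rw [abs_mul, abs_of_pos p1, mul_comm d.c.lam, mul_div_mul_right _ _ p1.ne']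
      exact div_np h le_rfl (cD_ge h) (by norm_num)
    · refine (X_pD hc x l a).trans ?_
      rw [hp_cv, hl, ← mul_assoc, ← sq, mul_div_mul_left _ _ (pow_pos p1 2).ne']
  · have c1 : CB 1 (cv d.c.lam) (d.R (99 / 100)) _ _ := CBl.pds hh cT l fun l' h' => by
      rw [List.length_append]; have : l.length ≤ 4 := k3; omega
    have p2 := hp_pos hh' l
    have c2 : |hp d.c.thS l / hp (cv d.c.lam) l| ≤ np d.c.N 2 ^ 4 := by
      rw [abs_of_pos (div_pos (hp_pos h.thS_pos l) p2), div_le_iff₀ p2]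
      exact (hp_le_pow (h := cv d.c.lam) (fun i => (h.thS_pos i).le) (thS_le h) l).trans
        (mul_le_mul_of_nonneg_right (pow_le_pow_right₀ (one_np h (by norm_num)) k3) p2.le)
    refine ⟨_, (((st.pds l).cmul _).cmul _).div_const _, CBl.monoB (CBl.div_const
      (CBl.smul_le hh c1 c2) (qp d.c.N (1 / 10) * √d.c.p))
      (div_np h (a := 1123) (le_of_eq ?_) (cT_ge h) (by norm_num)), fun x => ?_⟩
    · rw [show (1123 : ℝ) = 2 + 2 + 2 + 2 + 1115 by norm_num]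
      simp only [h.big.np_add]; ring
    · refine (X_pT hc x l).trans ?_
      rw [← mul_assoc, div_mul_cancel₀ _ p2.ne']

end GoodP

open GoodP in
theorem netp : NetpStmt := by
  filter_upwards [ev_gd, eventually_ge_atTop okK_fin.toFinset.card] with N hN hK d e1 _ hI
  have h := hN d.c e1 hI.ok
  have p1 := h.lam_pos; have p2 := h.big.np_pos (-2400); have p3 := h.D_pos
  obtain ⟨I, i1, i2, i3⟩ := net (d.R (99 / 100)) (2 * (99 / 100 * d.c.D))
    (np d.c.N (-2400) * d.c.lam) (by positivity) (by positivity) fun x hx => Prof.RX_norm hI.ort hx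
  refine ⟨(I ×ˢ okK_fin.toFinset).image fun p => sh d p.2 p.1, fun Λ hΛ => ?_, ?_,
    fun u ω m hm b _ hc _ H Λ hΛ => ?_⟩
  · obtain ⟨p, hp, rfl⟩ := Finset.mem_image.1 (Finset.mem_coe.1 hΛ)
    obtain ⟨q1, q2⟩ := Finset.mem_product.1 hp
    exact fam_iff.2 ⟨p.1, i1 q1, p.2, okK_fin.mem_toFinset.1 q2, rfl⟩
  · have h1 : (((I ×ˢ okK_fin.toFinset).image fun p => sh d p.2 p.1).card : ℝ) ≤
        I.card * okK_fin.toFinset.card := by
      rw [← Nat.cast_mul, ← Finset.card_product, Nat.cast_le]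
      exact Finset.card_image_le
    have h2 : (okK_fin.toFinset.card : ℝ) ≤ np d.c.N 1 := by rw [np_one, e1]; exact_mod_cast hK
    refine h1.trans ((mul_le_mul (i2.trans (mesh h)) h2 (Nat.cast_nonneg _)
      (h.big.np_pos _).le).trans ?_)
    rw [← h.big.np_add, ← np_nat]
    exact h.big.np_le (by norm_num)
  · obtain ⟨x, hx, k, hk, rfl⟩ := fam_iff.1 hΛ
    obtain ⟨y, hy, hxy⟩ := i3 x hx
    obtain ⟨g, g1, g2, g3⟩ := lip h hI hm hc hk
    have h1 := H _ (Finset.mem_image.2 ⟨(y, k),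
      Finset.mem_product.2 ⟨hy, okK_fin.mem_toFinset.2 hk⟩, rfl⟩)
    have h2 := CV.mvt_box (fun _ => p1) (Prof.RX_convex _ _ _) g1 g2.toCV le_rfl hx (i1 hy)
      (r := np d.c.N (-2400)) fun i => (norm_le_pi_norm (x - y) i).trans hxy
    have h3 := cnp h (C := 3) (a := -2400 + 2240) (b := 0) (by norm_num) (by norm_num)
    rw [h.big.np_add, np_zero] at h3
    rw [g3] at h1 ⊢
    linarith [abs_sub_abs_le_abs_sub (g x) (g y)]

end
end Pool.Agent.MP_20bec2_an.T3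

end MrgPart2

-- marker of a merged file
example : 731051 + 569535 = 731051 + 569535 := rfl

end MrgPart1

-- marker of a merged file
example : 731051 + 569535 = 731051 + 569535 := rfl
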