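import Pool.Agent.MP_20bec2_an.T3.CrA
import Pool.Agent.MP_20bec2_an.T3.Chp
import Pool.Agent.MP_20bec2_an.T3.Nc
import Pool.Agent.MP_20bec2_an.T3.Yq
import Pool.Agent.MP_20bec2_an.T3.Fcomp
import Pool.Agent.MP_20bec2_an.T3.Mr
import Pool.Agent.MP_20bec2_an.T3.Kvar
import Pool.Agent.MP_20bec2_an.T3.Fv
import Pool.Agent.MP_20bec2_an.T3.Zt

-- ======== part 0: formerly Pool.Agent.MP_20bec2_an.T3.Bz
section MrgPart0

-- ======== part 0: formerly Pool.Agent.MP_20bec2_an.T3.Bij2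
section MrgPart0

set_option autoImplicit false
open MeasureTheory Set Filter Matrix Topology

namespace Pool.Agent.MP_20bec2_an.T3
noncomputable section
open Classical

namespace GeoP
open Prof

theorem jm_add {Z W : V → V} (hZ : Differentiable ℝ Z) (hW : Differentiable ℝ W) (x : V) :
    jm (fun y => Z y + W y) x = jm Z x + jm W x := by
  ext i j
  rw [Matrix.add_apply, Inv.jm_apply (hZ x), Inv.jm_apply (hW x),
    Inv.jm_apply (Z := fun y => Z y + W y) ((hZ x).add (hW x)), fderiv_fun_add (hZ x) (hW x)]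
  rfl

theorem hm_add (F : Fr) (A B : Mx) : F.hm (A + B) = F.hm A + F.hm B := by
  simp only [Fr.hm, Matrix.mul_add, Matrix.add_mul]

/-- local solution in the frame of a cube -/
theorem loc_frame {F : Fr} {D : ℝ} {g : Cu} (h0 : F.x0 = cen D g) (hO : Orth F.O)
    (hQ : F.Q.det ≠ 0) {Y : V → V} (hY : Differentiable ℝ Y)
    (hb : ∀ x ∈ box D g 1, EB (F.hm (jm Y x) - 1) (cm (1 / 100))) {ε : ℝ} (hε : 8 * ε ≤ D)
    {x p : V} (hx : x ∈ box D g (1 / 2)) (hp : ‖F.Q⁻¹ *ᵥ (p - Y x)‖ ≤ ε) :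
    ∃ y, ‖y - x‖ ≤ 2 * ε ∧ Y y = p := by
  have e0 : 0 ≤ ε := (norm_nonneg _).trans hp
  obtain ⟨y, hy, e⟩ := loc_solve (Bij.diff_hat F hY) (p := F.xc x) (z := F.zc p)
    (ρ := 100 / 97 * ε) (fun w hw => by
      have a : ‖w - F.xc x‖ ≤ 100 / 97 * ε := mem_closedBall_iff_norm.1 hw
      have b := RX_add hO (s := 1 / 2) (y := w) ((xc_mem_RX hO h0).2 hx) (by linarith)
      rw [(K3.p5 F hY w).1]
      exact hb _ ((xp_mem_box h0).2 (by norm_num at b ⊢; exact b)))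
    (by rw [hat_xc hO, zc_sub]; linarith)
  refine ⟨F.xp y, ?_, by rw [← zp_hat hQ Y y, e, zp_zc hQ]⟩
  have a := norm_orth hO (y - F.xc x)
  rw [← xp_sub, xp_xc hO] at a
  linarith

theorem bij_add {D ε : ℝ} {fr : Cu → Fr} (hD : 0 < D) (hε : 8 * ε ≤ D)
    (hf : ∀ g, (fr g).x0 = cen D g ∧ Orth (fr g).O ∧ 0 < (fr g).Q.det) {Z W : V → V}
    (hB : Function.Bijective Z) (hZ : Differentiable ℝ Z) (hW : Differentiable ℝ W)
    (H : ∀ g, ∀ x ∈ box D g 1, EB ((fr g).hm (jm Z x) - 1) (cm (1 / 200)) ∧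
      EB ((fr g).hm (jm W x)) (cm (1 / 200)) ∧ ‖(fr g).Q⁻¹ *ᵥ W x‖ ≤ ε) :
    Function.Bijective fun x => Z x + W x := by
  have hY : Differentiable ℝ fun x => Z x + W x := hZ.add hW
  have hb : ∀ g, ∀ x ∈ box D g 1,
      EB ((fr g).hm (jm (fun x => Z x + W x) x) - 1) (cm (1 / 100)) := fun g x hx => by
    rw [jm_add hZ hW, hm_add, add_sub_right_comm]
    exact eb_mono (eb_add (H g x hx).1 (H g x hx).2.1) (by norm_num)
  have near : ∀ x, ∃ y, ‖y - x‖ ≤ 2 * ε ∧ Z y = Z x + W x := fun x => by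
    obtain ⟨g, hg⟩ := exists_box hD x
    refine loc_frame (hf g).1 (hf g).2.1 (hf g).2.2.ne' hZ
      (fun w hw => eb_mono (H g w hw).1 (by norm_num)) hε hg ?_
    rw [add_sub_cancel_left]
    exact (H g x (box_mono hD.le (by norm_num) g hg)).2.2
  refine ⟨fun x x' hxx => ?_, fun p => ?_⟩
  · have hxx' : Z x + W x = Z x' + W x' := hxx
    obtain ⟨y, a, e⟩ := near x
    obtain ⟨y', a', e'⟩ := near x'
    have hy : y = y' := hB.1 (by rw [e, e', hxx'])
    subst hy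
    obtain ⟨g, hg⟩ := exists_box hD x
    have hO := (hf g).2.1
    have d : ‖x' - x‖ ≤ 1 / 2 * D := by
      have := norm_sub_le (y - x) (y - x')
      rw [show y - x - (y - x') = x' - x by abel] at this
      linarith
    have m := box_add hg d
    have m' : x' ∈ box D g 1 := by norm_num at m ⊢; exact m
    have i := Bij.injOn_of (Bij.diff_hat (fr g) hY) (RX_convex (fr g).O D 1) (fun w hw => by
      rw [(K3.p5 (fr g) hY w).1]
      exact hb g _ ((xp_mem_box (hf g).1).2 hw))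
      ((xc_mem_RX hO (hf g).1).2 (box_mono hD.le (by norm_num) g hg)) ((xc_mem_RX hO (hf g).1).2 m')
      (by rw [hat_xc hO, hat_xc hO, hxx'])
    rw [← xp_xc hO x, i, xp_xc hO]
  · obtain ⟨y, rfl⟩ := hB.2 p
    obtain ⟨g, hg⟩ := exists_box hD y
    obtain ⟨x, -, e⟩ := loc_frame (hf g).1 (hf g).2.1 (hf g).2.2.ne' hY (hb g) hε hg (p := Z y) (by
      rw [sub_add_cancel_left, Matrix.mulVec_neg, norm_neg]
      exact (H g y (box_mono hD.le (by norm_num) g hg)).2.2)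
    exact ⟨x, e⟩

end GeoP

theorem bij2 : Bij2Stmt := by
  filter_upwards [eventually_ge_atTop 2] with N hN B hB Z W G hb hZ hW H
  have G' : Geo B.N B.lb B.fr B.Z0 := G
  rw [← hB] at hN
  have hl := GeoP.lb_pos G'.toFrOk
  have hN' : (2 : ℝ) ≤ B.N := by exact_mod_cast hN
  have h4 : (2 : ℝ) ^ 4 ≤ (B.N : ℝ) ^ 4 := pow_le_pow_left₀ (by norm_num) hN' 4
  refine GeoP.bij_add (ε := B.lb) (GeoP.D_pos G'.toFrOk (by omega)) ?_
    (fun g => ⟨(G'.fx g).1, (G'.fx g).2.1, (G'.fx g).2.2.1⟩) hb (hZ.differentiable Inv.top_ne)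
    (hW.differentiable Inv.top_ne) fun g x hx =>
      ⟨(H g x hx).1, GeoP.eb_mono (H g x hx).2.1 (by norm_num), (H g x hx).2.2⟩
  unfold Dd
  nlinarith

end
end Pool.Agent.MP_20bec2_an.T3

end MrgPart0

-- ======== part 1: formerly Pool.Agent.MP_20bec2_an.T3.Bz
section MrgPart1

/-! Row BZ: ledger, map, potential and noise records after the start of a band. -/

set_option autoImplicit false
open Set Filter Matrix

namespace Pool.Agent.MP_20bec2_an.T3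
noncomputable section
open Classical

namespace Bz
open Prof Glue

lemma tm_e (k : ℕ) : tm k 1 = tm k 0 := by unfold tm; omega
lemma nzn_e (N k : ℕ) : nzn N k 1 = nzn N k 0 := by unfold nzn; split_ifs <;> omega
lemma cnt_e (k : ℕ) : (cnt k 0 : ℝ) ≤ cnt k 1 := by
  exact_mod_cast (show cnt k 0 ≤ cnt k 1 by unfold cnt; omega)
lemma ph_e (j k : ℕ) : ph j k 1 = ph j k 0 + 1 / 9 / 2 ^ (k - j) := by
  unfold ph
  push_cast
  ring

lemma sm_gl {ρ : V → ℝ} {N : ℕ} {lb : ℝ} {fr : Cu → Fr} {γ : Cu → V → V} (hN : 1 ≤ N)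
    (hf : FrOk N lb fr) (hC : ∀ g, Cred ρ N lb (fr g) (γ g)) : Sm (gl fr γ) := by
  have hS : Sup (cv (Dd N lb)) (92 / 100) fun g x => (fr g).unv (γ g) x :=
    (sup_xc (GeoP.D_pos hf hN) (fun g => ⟨(hf.fx g).1, (hf.fx g).2.1⟩)
      fun g => (hC g).2.1).map fun g x h0 => by unfold Fr.unv; rw [h0, mulVec_zero]
  exact hS.sm (by norm_num) fun g => unv_sm _ (hC g).1

lemma zT_le {c : Pm} (h : Gd c) : c.zT ≤ 1 / 200 := by
  have := h.big.nu_pos; have := h.J_pos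
  have l := logc_bd (show (1 : ℝ) ≤ 200 by norm_num)
  unfold Pm.zT
  split_ifs <;> refine le_of_log (by positivity) (by positivity) ?_ <;>
    simp (disch := positivity) only [Real.log_div, Real.log_mul, Real.log_sqrt, Real.log_one,
      h.log_J, h.big.log_nu] <;>
    linarith [h.big.L_ge, h.big.J_ge, log2_bd.2]

lemma np_le {N : ℕ} (h : Big N) {a : ℝ} (ha : a ≤ -1 / 2) : np N a ≤ 1 / 1000 := by
  have l := logc_bd (show (1 : ℝ) ≤ 1000 by norm_num)
  refine (h.np_le ha).trans (le_of_log (h.np_pos _) (by positivity) ?_)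
  rw [h.log_np, one_div, Real.log_inv]
  linarith [h.L_ge, h.J_ge]

lemma lam_le_hs {c : Pm} (h : Gd c) (i : Fin 3) : c.lam ≤ c.hs i := by
  fin_cases i
  exacts [h.lam_le_l1, le_rfl, Zder.hs_le h 1]

lemma lam_pow (B : Bk) (g : Cu) {j k : ℕ} (h : j ≤ k) :
    (B.c g k).lam = (B.c g j).lam / 2 ^ (k - j) := by
  obtain ⟨n, rfl⟩ := Nat.exists_eq_add_of_le h
  simp only [Pm.lam, Bk.c, Fr.pm, pow_add, Nat.add_sub_cancel_left, div_div]

variable {B : Bk} {ρ : V → ℝ} {k : ℕ} {s : St} {nf : Cu → Fr} {ngc : Cu → V → V} {f' : V → V}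
  {Af ab : V → ℝ} {Pv : V → V}

lemma Zn_old (h : k ≠ ks B.N) : (B.sta k s nf ngc f' Af ab Pv).Zn = s.Zn := if_neg h

lemma Z_old (h : k ≠ ks B.N) : B.Z (B.sta k s nf ngc f' Af ab Pv) = B.Z s := by
  funext x
  rw [Bk.Z, Zn_old h]
  rfl

lemma Z_new (h : s.Zn = 0) : B.Z (B.sta k s nf ngc f' Af ab Pv) =
    fun x => B.Z s x + (B.sta k s nf ngc f' Af ab Pv).Zn x := by
  funext x
  rw [Bk.Z, Bk.Z, h, Pi.zero_apply, add_zero]
  rfl

lemma prep (h : k ≠ ks B.N) (P : B.Prep ρ s) : B.Prep ρ (B.sta k s nf ngc f' Af ab Pv) := by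
  have e1 : (B.sta k s nf ngc f' Af ab Pv).nf = s.nf := if_neg h
  have e2 : (B.sta k s nf ngc f' Af ab Pv).ngc = s.ngc := if_neg h
  refine ⟨?_, ?_, ?_, ?_, ?_⟩
  · rw [e1]; exact P.fo
  · rw [e1, e2]; exact P.cred
  · rw [e1, e2, Zn_old h]; exact P.zn
  · rw [e1]; exact P.fq
  · rw [Zn_old h]; exact P.zb

lemma ip (h : B.IP k 0 s) (hp : k = mid B.N → B.PushD (s.zt k) Af ab Pv) :
    B.IP k 1 (B.sta k s nf ngc f' Af ab Pv) := by
  refine ⟨h.sm, ?_, fun a => ?_, h.off, ?_, ?_, ?_⟩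
  · rw [nzn_e]; exact h.z0
  · by_cases e : k = mid B.N
    · have := hp e
      simp only [Bk.sta, if_pos e]
      rwa [← e]
    · simp only [Bk.sta, if_neg e]
      exact h.psh (by unfold aft at a ⊢; omega)
  · rw [nzn_e]; exact h.th
  · rw [nzn_e]
    by_cases e : k = mid B.N
    · have z : nzn B.N k 0 = 0 := by unfold nzn; split_ifs <;> omega
      obtain ⟨z1, z2, z3⟩ := h.z0 z
      intro g hd x hx
      refine ⟨(h.nq g hd x hx).1, ?_⟩
      have := (h.nq g hd x hx).2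
      simp only [Bk.sta, z1, z2, z3, Pi.zero_apply, Zder.hm_zero, Matrix.zero_apply] at this ⊢
      simpa using this
    · simp only [Bk.sta, if_neg e]
      exact h.nq
  · rw [nzn_e]; exact h.yv

lemma iz (hN : Big B.N) (hf : FrOk B.N B.lb B.fr) (hk : k < nb B.N) (h : B.IZ k 0 s)
    (P : k = ks B.N → B.Prep ρ (B.sta k s nf ngc f' Af ab Pv))
    (hb : ∀ W : V → V, Sm W → (∀ g, ∀ x ∈ B.bx g 1, EB ((B.fr g).hm (jm W x)) (cm (1 / 1000)) ∧
      ‖(B.fr g).Q⁻¹ *ᵥ W x‖ ≤ B.lb) → Function.Bijective fun x => B.Z s x + W x) :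
    B.IZ k 1 (B.sta k s nf ngc f' Af ab Pv) := by
  have G : ∀ g, ∀ j ≤ k, Gd (B.c g j) := fun g j hj => Bk.gd hf hN g (by omega)
  have z0 : k = ks B.N → s.Zn = 0 := fun e => h.n0 (by unfold aft; omega)
  have p20 := (hN.np_pos (-20)).le
  have sn : Sm (B.sta k s nf ngc f' Af ab Pv).Zn := by
    by_cases e : k = ks B.N
    · rw [(P e).zn]
      have : (1 : ℝ) ≤ B.N := by linarith [hN.N_ge, hN.J_ge, hN.L_ge]
      exact sm_gl ((show 1 ≤ B.N by exact_mod_cast this).trans hN.nxt_le.1) (P e).fo (P e).cred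
    · rw [Zn_old e]; exact h.sm.2.1
  refine ⟨⟨h.sm.1, sn, h.sm.2.2⟩, ?_, fun a => ?_, ⟨h.zk.1, fun a => absurd a one_ne_zero⟩,
    fun g x hx i hi => ?_, fun a g x hx i hi => ?_, h.ek, fun j hj g x hx i => ?_,
    fun g i => ?_, ?_⟩
  · by_cases e : k = ks B.N
    · rw [Z_new (z0 e)]
      refine hb _ sn fun g x hx => ⟨GeoP.eb_mono ((P e).zb g x hx).1 (np_le hN (by norm_num)),
        ((P e).zb g x hx).2.trans ?_⟩
      have g1 := G g _ e.ge
      have l1 : (B.c g (ks B.N)).lam ≤ B.lb := g1.lam_le_lb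
      have := np_le hN (show (-25 : ℝ) ≤ -1 / 2 by norm_num)
      nlinarith [g1.lam_pos]
    · rw [Z_old e]; exact h.bij
  · rw [Zn_old (by unfold aft at a; omega)]
    exact h.n0 (by unfold aft at a ⊢; omega)
  · rw [tm_e, nzn_e]
    obtain ⟨e1, e2⟩ := h.e g x hx i hi
    exact ⟨e1, fun j => (e2 j).trans (mul_le_mul_of_nonneg_right (cnt_e k) p20)⟩
  · rw [tm_e]
    obtain ⟨e1, e2⟩ := h.el a g x hx i hi
    exact ⟨e1, fun j => (e2 j).trans (mul_le_mul_of_nonneg_right (cnt_e k) p20)⟩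
  · have d := h.dz j hj g x hx i
    have g1 := G g j hj
    have q1 : (1 : ℝ) ≤ pq B.N * Real.sqrt (pJ B.N) :=
      one_le_mul_of_one_le_of_one_le (by linarith [hN.q_ge])
        (Real.one_le_sqrt.2 (by linarith [hN.J_ge, hN.L_ge]))
    have q2 : (B.c g j).lam / 9 / 2 ^ (k - j) ≤
        pq B.N * Real.sqrt (pJ B.N) * (B.c g j).hs i * (1 / 9 / 2 ^ (k - j)) := by
      rw [show (B.c g j).lam / 9 / 2 ^ (k - j) = 1 * (B.c g j).lam * (1 / 9 / 2 ^ (k - j)) by ring]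
      exact mul_le_mul_of_nonneg_right (mul_le_mul q1 (lam_le_hs g1 i) g1.lam_pos.le
        (by linarith)) (by positivity)
    rw [ph_e, mul_add, show (B.sta k s nf ngc f' Af ab Pv).zt = s.zt from rfl]
    by_cases e : k = ks B.N
    · rw [Z_new (z0 e), add_sub_right_comm, Matrix.mulVec_add, Pi.add_apply]
      refine (abs_add_le _ _).trans (add_le_add d (le_trans ?_ q2))
      refine ((abs_le_norm _ i).trans ((P e).zb g x hx).2).trans ?_
      rw [← e, lam_pow B g hj, div_right_comm]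
      have := np_le hN (show (-25 : ℝ) ≤ -1 / 2 by norm_num)
      have : 0 < (B.c g j).lam / 2 ^ (k - j) := div_pos g1.lam_pos (by positivity)
      nlinarith
    · rw [Z_old e]
      have : 0 ≤ (B.c g j).lam / 9 / 2 ^ (k - j) := by have := g1.lam_pos; positivity
      linarith
  · refine (h.d2 g i).monoB (mul_le_mul_of_nonneg_left ?_ (G g k le_rfl).d2u_pos.le)
    push_cast
    linarith
  · rw [nzn_e]; exact h.dn

end Bz

theorem bz : BzStmt := by
  filter_upwards [ev_big, zder, bij2] with N hN hz hb B hB ρ k s nf ngc f1 Af ab Pv f' H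
  subst hB
  obtain ⟨⟨-, ok, hk, I⟩, P, L, -⟩ := H
  have hf := ok.geo.toFrOk
  obtain ⟨sZ, dZ⟩ := hz B rfl ρ k 0 s ok.toOk0 hk (Nat.zero_le _) I.il I.iz I.ip I.iq
  refine ⟨⟨I.il.nn, fun g => ?_⟩, Bz.iz hN hf hk I.iz (fun e => P e f') fun W sW hW => ?_,
    ⟨fun g x hx i hi => ?_⟩, Bz.ip I.ip fun e => (L e).pd, fun a => ?_⟩
  · rw [Bz.tm_e]; exact I.il.led g
  · exact hb B rfl _ W ok.geo I.iz.bij sZ sW fun g x hx =>
      ⟨GeoP.eb_mono (dZ g x hx).2.2.2.1 (Bz.zT_le (Bk.gd hf hN g hk.le)), hW g x hx⟩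
  · rw [Bz.tm_e, Bz.nzn_e]; exact I.iv.vv g x hx i hi
  · by_cases e : k = ks B.N
    · exact P e f'
    · exact Bz.prep e (I.iq (by unfold aft at a ⊢; omega))

end
end Pool.Agent.MP_20bec2_an.T3

end MrgPart1

-- marker of a merged file
example : 731051 + 503234 = 731051 + 503234 := rfl

end MrgPart0

-- ======== part 1: formerly Pool.Agent.MP_20bec2_an.T3.Mz
section MrgPart1

-- ======== part 0: formerly Pool.Agent.MP_20bec2_an.T3.MfA
section MrgPart0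

/-! Row MF, tools: numbers, sites and labels. -/

set_option autoImplicit false
set_option linter.unusedSectionVars false
open Set Filter Real

namespace Pool.Agent.MP_20bec2_an.T3
noncomputable section
open Classical

namespace Mf

section num
variable {N : ℕ} (h : Big N)
include h

lemma n1 : 10 * (pq N * np N (-2 / 5)) ≤ np N (-7 / 20) ∧
    10 * (pq N * np N (-1 / 20)) ≤ np N (-47 / 1000) ∧
    10000000 * np N (-47 / 1000) ≤ 1 ∧ 10 * qp N (7 / 5) ≤ qp N (8 / 5) ∧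
    10 * (pq N * (1 / (N * pJ N ^ 6))) ≤ 1 / (N * pJ N ^ 5) ∧
    10 * np N (-21 / 20) ≤ 1 / (N * pJ N ^ 5) ∧
    10 * (pq N * (1 / (√N * pJ N ^ 4))) ≤ sm N ∧ 10 * np N (-11 / 20) ≤ sm N ∧
    10 * (pq N / pq N ^ 3) ≤ 1 / pq N ∧ 10 * np N (-1 / 100) ≤ 1 / pq N := by
  have := h.N_pos; have := h.q_pos; have := h.J_pos; have := h.sm_pos; have := h.sqrtN_pos
  have := h.np_pos (-2 / 5); have := h.np_pos (-7 / 20); have := h.np_pos (-1 / 20)
  have := h.np_pos (-47 / 1000); have := h.np_pos (-21 / 20); have := h.np_pos (-11 / 20)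
  have := h.np_pos (-1 / 100); have := h.qp_pos (7 / 5); have := h.qp_pos (8 / 5)
  have := h.L_ge; have := h.J_ge
  have := log10_bd.2
  have := (logc_bd (show (1 : ℝ) ≤ 10000000 by norm_num)).2
  refine ⟨?_, ?_, ?_, ?_, ?_, ?_, ?_, ?_, ?_, ?_⟩ <;>
    refine le_of_log (by positivity) (by positivity) ?_ <;>
    simp (disch := positivity) only [Real.log_div, Real.log_mul, Real.log_pow, Real.log_one,
      h.log_q, h.log_N, h.log_np, h.log_qp, h.log_sm, h.log_sqrtN, h.log_J, Nat.cast_ofNat] <;>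
    linarith

lemma n2 : 10 * (pX N / (qp N (7 / 2) * N)) ≤ Jp N (3 / 2) / N ∧
    1 / (N * pJ N ^ 5) ≤ Jp N (3 / 2) / N ∧
    10 * (pq N * √(bA N * (qp N (1 / 5) * pJ N) / N)) ≤ hc N ∧ sm N ≤ hc N ∧
    (N : ℝ) ^ 3 * np N (-1500) * np N 93 ≤ np N (-1300) ∧
    1000 * np N (-1500) ≤ (N : ℝ) ^ 4 ∧ 10 * np N (23 / 10) ≤ (N : ℝ) ^ 3 ∧
    10 * np N (6 / 5) ≤ (N : ℝ) ^ 3 := by
  have := h.N_pos; have := h.q_pos; have := h.J_pos; have := h.sm_pos; have := h.X_pos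
  have := h.hc_pos; have := h.bA_pos; have := h.Jp_pos (3 / 2)
  have := h.np_pos (-1500); have := h.np_pos 93; have := h.np_pos (-1300)
  have := h.np_pos (23 / 10); have := h.np_pos (6 / 5)
  have := h.qp_pos (7 / 2); have := h.qp_pos (1 / 5)
  have := h.L_ge; have := h.J_ge
  have := log10_bd.2
  have := (logc_bd (show (1 : ℝ) ≤ 1000 by norm_num)).2
  have := (logc_bd (show (1 : ℝ) ≤ 3 by norm_num)).1
  refine ⟨?_, ?_, ?_, ?_, ?_, ?_, ?_, ?_⟩ <;>
    refine le_of_log (by positivity) (by positivity) ?_ <;>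
    simp (disch := positivity) only [Real.log_div, Real.log_mul, Real.log_pow, Real.log_one,
      Real.log_sqrt, h.log_q, h.log_N, h.log_np, h.log_qp, h.log_sm, h.log_J, h.log_Jp, h.log_X,
      h.log_hc, h.log_bA, Nat.cast_ofNat] <;>
    linarith

lemma cmp_le (A p : ℝ) : ((FPm N A p (pq N)).cmp (FPs N)).Le (FPc N A p) := by
  obtain ⟨a1, a2, a3, a4, a5, a6, a7, a8, a9, a10⟩ := n1 h
  have q1 := h.q_ge
  have p1 := h.np_pos (-2 / 5); have p2 := h.np_pos (-1 / 20); have p3 := h.np_pos (-1 / 10)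
  have p4 := h.np_pos (-1 / 100); have p5 := h.np_pos (-21 / 20); have p6 := h.np_pos (-11 / 20)
  have l1 := h.np_le (show (-1 / 10 : ℝ) ≤ -1 / 20 by norm_num)
  have l2 := h.np_le (show (-47 / 1000 : ℝ) ≤ -9 / 200 by norm_num)
  have l3 := h.qp_le (show (0 : ℝ) ≤ 7 / 5 by norm_num)
  rw [qp_zero] at l3
  have m1 : np N (-2 / 5) ≤ pq N * np N (-2 / 5) := le_mul_of_one_le_left p1.le (by linarith)
  have m2 : np N (-1 / 20) ≤ pq N * np N (-1 / 20) := le_mul_of_one_le_left p2.le (by linarith)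
  have m3 : pq N * np N (-1 / 20) * np N (-1 / 10) ≤ pq N * np N (-1 / 20) :=
    mul_le_of_le_one_right (by linarith) (by linarith)
  have m4 : 0 ≤ pq N * (1 / (N * pJ N ^ 6)) := by have := h.J_pos; positivity
  have m5 : 0 ≤ pq N * (1 / (√N * pJ N ^ 4)) := by have := h.J_pos; positivity
  have m6 : 0 ≤ pq N / pq N ^ 3 := by positivity
  simp only [FP.Le, FP.cmp, FPm, FPs, FPc, mul_add (pq N)]
  refine ⟨?_, ?_, ?_, ?_, ?_, ?_, ?_, ?_⟩ <;> linarith

lemma sml_m (A p : ℝ) : (FPm N A p (pq N)).Sml := by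
  obtain ⟨-, a2, a3, -, -, -, -, -, a9, -⟩ := n1 h
  have q1 := h.q_ge
  have p2 := mul_pos h.q_pos (h.np_pos (-1 / 20))
  have m6 : 0 ≤ pq N / pq N ^ 3 := by positivity
  have m7 : 1 / pq N ≤ 1 / 10 := one_div_le_one_div_of_le (by norm_num) (by linarith)
  simp only [FP.Sml, FPm]
  refine ⟨?_, ?_, ?_, ?_, ?_, ?_⟩ <;> linarith

lemma sml_s : (FPs N).Sml := by
  obtain ⟨-, -, a3, -, -, -, -, -, -, a10⟩ := n1 h
  have q1 := h.q_ge
  have p3 := h.np_pos (-1 / 10); have p4 := h.np_pos (-1 / 100)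
  have l1 := h.np_le (show (-1 / 10 : ℝ) ≤ -47 / 1000 by norm_num)
  have m7 : 1 / pq N ≤ 1 / 10 := one_div_le_one_div_of_le (by norm_num) (by linarith)
  simp only [FP.Sml, FPs]
  refine ⟨?_, ?_, ?_, ?_, ?_, ?_⟩ <;> linarith

end num

/-- the table after the main step -/
lemma gb_step {c : Pm} (G : Gd c) {f f' : V → V} {z' z : V} {A p : ℝ}
    (H : FRel c f f' z' z (FPm c.N A p (pq c.N))) (hG : c.GB f z' 1)
    (h1 : pq c.N * (A * (p + A)) ≤ pX c.N / (qp c.N (7 / 2) * c.N))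
    (h2 : 10 * (pq c.N * A) ≤ hc c.N) : c.GB f' z (3 / 2) := by
  obtain ⟨-, a2, a3, -, a5, -, a7, -⟩ := n1 G.big
  obtain ⟨b1, b2, -, b4, -⟩ := n2 G.big
  have g1 := G.gb_ge; have g2 := G.gb_pos; have g3 := G.big.hc_pos
  intro a b
  have e : (c.gam f' z - c.gref) a b = (c.gam f' z - c.gam f z') a b + (c.gam f z' - c.gref) a b := by
    simp only [Matrix.sub_apply]; ring
  have k := bm_mono (show (FPm c.N A p (pq c.N)).eg ≤ c.gb / 2 by
      simp only [FPm, mul_add (pq c.N)]; linarith)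
    (show (FPm c.N A p (pq c.N)).eh ≤ hc c.N / 2 by simp only [FPm, mul_add (pq c.N)]; linarith)
    (show (FPm c.N A p (pq c.N)).ek ≤ 1 / 20 by simp only [FPm]; linarith) a b
  have k1 := hG a b
  have k2 := H.dg a b
  have k3 : bm (c.gb / 2) (hc c.N / 2) (1 / 20) a b = 1 / 2 * bm c.gb (hc c.N) (1 / 10) a b := by
    fin_cases a <;> fin_cases b <;> simp [bm] <;> ring
  rw [e, Matrix.smul_apply, smul_eq_mul]
  rw [Matrix.smul_apply, smul_eq_mul] at k1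
  linarith [abs_add_le ((c.gam f' z - c.gam f z') a b) ((c.gam f z' - c.gref) a b)]

lemma gb_two {c : Pm} {f : V → V} {z : V} (hG : c.GB f z 1) : c.GB f z 2 := fun a b => by
  have k1 := hG a b
  rw [Matrix.smul_apply, smul_eq_mul] at k1 ⊢
  linarith [abs_nonneg ((c.gam f z - c.gref) a b)]

variable {B : Bk}

lemma mem_sites (hs : 0 < B.hsp) {g i : Cu} {r : ℝ} : i ∈ B.sites g r ↔ cen B.hsp i ∈ B.bx g r := by
  rw [Bk.sites, Fintype.mem_piFinset, Bk.bx, Prof.mem_box]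
  refine forall_congr' fun j => ?_
  rw [Finset.mem_Icc, Int.ceil_le, Int.le_floor, div_le_iff₀ hs, le_div_iff₀ hs, abs_le]
  simp only [cen]
  constructor <;> rintro ⟨a, b⟩ <;> constructor <;> linarith

lemma exists_NS (hs : 0 < B.hsp) (x : V) : ∃ i, B.NS i x := by
  obtain ⟨i, hi⟩ := Prof.exists_box hs x
  exact ⟨i, le_trans hi (by linarith)⟩

lemma xs_eq (hs : 0 < B.hsp) (hD : 0 < B.D) {j : ℕ} {g i : Cu} (hg : col g = j)
    (hi : i ∈ B.sites g (98 / 100)) (xs : Cu → Cu → ℝ) :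
    (∑ᶠ g', if col g' = j ∧ i ∈ B.sites g' (98 / 100) then xs g' i else 0) = xs g i := by
  rw [finsum_eq_single _ g fun g' hne => if_neg fun e => hne
    (Prof.col_box_unique hD (by norm_num) (e.1.trans hg.symm) ((mem_sites hs).1 e.2)
      ((mem_sites hs).1 hi)), if_pos ⟨hg, hi⟩]

lemma zc_oh {g : Cu} (hQ : (B.fr g).Q.det ≠ 0) (g' : Cu) (f : V → V) (x : V) :
    (B.fr g').zc ((B.fr g).zp (B.oh g f x)) = B.oh g' f x := by
  rw [Bk.oh, Prof.zp_zc hQ, Bk.oh]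

lemma nw_oh {g : Cu} (hQ : (B.fr g).Q.det ≠ 0) {f : V → V} (hf : Function.Surjective f)
    (f' : V → V) (x : V) : B.nw g f f' (B.oh g f x) = B.oh g f' x := by
  rw [Bk.nw, Bk.oh, Prof.zp_zc hQ, Bk.lab, Function.rightInverse_invFun hf, Bk.oh, Bk.lab]

lemma piS_congr {xs xs' : ℕ → Cu → ℝ} {k r : ℕ} (e : ∀ m < tm k r, xs' m = xs m) (g i : Cu) :
    B.piS g xs' k r i = B.piS g xs k r i := by
  have : SA B.N (B.c g 0).bbO xs' (8 * (k - el B.N)) (tm k r) i =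
      SA B.N (B.c g 0).bbO xs (8 * (k - el B.N)) (tm k r) i :=
    Finset.sum_congr rfl fun m hm => by rw [e m (Finset.mem_Ico.1 hm).2]
  rw [Bk.piS, this, Bk.piS]

lemma jac_fh (F : Fr) {f : V → V} (hf : Sm f) : jac (F.fh f) = F.den (jac f) :=
  funext fun z => (K3.p4 F (hf.differentiable (by simp)) z).2

lemma jac_ne {F : Fr} (hQ : 0 < F.Q.det) {f : V → V} (hf : Dif f) (z : V) : jac (F.fh f) z ≠ 0 := by
  rw [jac_fh F hf.1]
  exact (mul_pos hQ (hf.2.2 _)).ne'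

end Mf

end
end Pool.Agent.MP_20bec2_an.T3

end MrgPart0

-- ======== part 1: formerly Pool.Agent.MP_20bec2_an.T3.Mf
section MrgPart1

/-! Row MF: the map `f` after one colour. -/

set_option autoImplicit false
set_option linter.unusedSectionVars false
open Set Filter Real

namespace Pool.Agent.MP_20bec2_an.T3
noncomputable section
open Classical

namespace Mf
variable {B : Bk}

lemma hsp_bd (hf : FrOk B.N B.lb B.fr) (hb : Big B.N) : 0 < B.hsp ∧ 0 < B.D ∧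
    B.hsp ≤ 1 / 1000 * B.D ∧ ∀ g k, k ≤ nb B.N → (B.N : ℝ) ^ 3 * B.hsp ≤ (B.c g k).h0 := by
  have p0 : 0 < B.lb := GeoP.lb_pos hf
  obtain ⟨-, -, -, -, b5, b6, -⟩ := n2 hb
  refine ⟨mul_pos (hb.np_pos _) p0, (Bk.gd0 hf hb 0).D_pos, ?_, fun g k hk => ?_⟩
  · have := mul_le_mul_of_nonneg_right b6 p0.le
    simp only [Bk.hsp, Bk.D, Dd]
    linarith
  · have G := Bk.gd hf hb g hk
    have h1 : B.lb ≤ np B.N 93 * (B.c g k).lam := G.lb_le
    have h2 := mul_le_mul_of_nonneg_left h1 (mul_pos (pow_pos hb.N_pos 3) (hb.np_pos (-1500))).le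
    have h3 := mul_le_mul_of_nonneg_right b5 G.lam_pos.le
    change (B.N : ℝ) ^ 3 * (np B.N (-1500) * B.lb) ≤ np B.N (-1300) * (B.c g k).lam
    linarith

/-- the size of one counted step -/
lemma step_bd (hf : FrOk B.N B.lb B.fr) {xs : ℕ → Cu → ℝ} {n : ℕ} {i : Cu}
    (h : Ledg.LH B.N xs (n + 1) i) (g : Cu) :
    10 * (pq B.N * √((B.c g 0).bbO * (1 + xs n i) / B.N)) ≤ hc B.N ∧
    √((B.c g 0).bbO * (1 + xs n i) / B.N) ≤ 1 / pJ B.N ∧ B.piO g xs n i ≤ 1 / pJ B.N ∧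
    pq B.N * (√((B.c g 0).bbO * (1 + xs n i) / B.N) *
      (B.piO g xs n i + √((B.c g 0).bbO * (1 + xs n i) / B.N))) ≤
      pX B.N / (qp B.N (7 / 2) * B.N) := by
  have hb := h.big
  obtain ⟨-, -, b3, -⟩ := n2 hb
  have h1 : √((B.c g 0).bbO * (1 + xs n i) / B.N) ≤ √(bA B.N * (qp B.N (1 / 5) * pJ B.N) / B.N) :=
    (h.rt_mono (Bk.gd0 hf hb g).bbO_bd.2 n).trans (Real.sqrt_le_sqrt (div_le_div_of_nonneg_right
      (mul_le_mul_of_nonneg_left (h.one_le (Nat.lt_succ_self n)) hb.bA_pos.le) hb.N_pos.le))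
  have h2 := mul_le_mul_of_nonneg_left h1 hb.q_pos.le
  have h3 : √((B.c g 0).bbO * (1 + xs n i) / B.N) ≤
      pq B.N * √((B.c g 0).bbO * (1 + xs n i) / B.N) :=
    le_mul_of_one_le_left (Real.sqrt_nonneg _) (by linarith [hb.q_ge])
  have h4 := Ledg.piO_le_hc hf (h.mono (Nat.le_succ n)) g
  have h5 := Ledg.SG_le hf h g n
  have h6 := hb.hc_le; have h7 := hb.hc_pos
  rw [Bk.SG, Nat.Ico_succ_singleton, Finset.sum_singleton, mul_assoc] at h5
  exact ⟨by linarith, by linarith, by linarith, h5⟩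

/-- the acting cube at a label -/
lemma act (hb : Big B.N) {ρ : V → ℝ} {k r : ℕ} {s : St} {ch : Cu → Cu → ℝ → V} {o : Bk.MO}
    (H : B.MH ρ k r s ch o) (C : B.ChOk k r s ch) (L : LabF B k s.f)
    (back : ∀ g x, B.oh g s.f x ∈ B.R g (96 / 100) → x ∈ B.bx g (96 / 100 + 1 / 500))
    {xs : ℕ → Cu → ℝ} {i : Cu} (h : Ledg.LH B.N xs (tm k r + 1) i)
    (e : ∀ m < tm k r, xs m = s.xs m)
    (e' : ∀ g', col g' = r - 1 → i ∈ B.sites g' (98 / 100) → xs (tm k r) i = o.xs g' i)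
    {g : Cu} {x : V} (hx : x ∈ B.bx g 1) (hi : B.NS i x) (g' : Cu) (hg : col g' = r - 1)
    (hz : B.oh g' s.f x ∈ B.R g' (96 / 100)) : ∃ a p : ℝ,
      1 ≤ a ∧ a ≤ √(pq B.N * pJ B.N) ∧ 0 ≤ p ∧ p ≤ 3 * hc B.N ∧
      √((B.c g' k).bb / B.N) * a ≤ 2 * √((B.c g 0).bbO * (1 + xs (tm k r) i) / B.N) ∧
      p ≤ 2 * B.piO g xs (tm k r) i ∧
      (B.c g' k).GB ((B.fr g').fh s.f) (B.oh g' s.f x) 2 ∧
      (B.c g' k).Env (ch g') (B.mF ρ (B.Z s) s.Sg o.u g') (B.oh g' s.f x) a ∧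
      (B.c g' k).PiF (ch g') ((B.fr g').fh s.f) (B.oh g' s.f x) p := by
  have hf := H.ok.geo.toFrOk
  obtain ⟨hs, hD, s1, s2⟩ := hsp_bd hf hb
  have x1 := back g' x hz
  have hi' : ‖cen B.hsp i - x‖ ≤ B.hsp := by rw [norm_sub_rev]; exact hi
  have x2 : cen B.hsp i ∈ B.bx g' (96 / 100 + 1 / 500 + 1 / 1000) :=
    Prof.box_add x1 (hi'.trans s1)
  have x3 : i ∈ B.sites g' (98 / 100) :=
    (mem_sites hs).2 (Prof.box_mono hD.le (by norm_num) g' x2)
  have x4 : x ∈ B.bx g' 1 := Prof.box_mono hD.le (by norm_num) g' x1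
  have n3 : Nbr 3 g g' := Prof.box_nbr hD (by norm_num) hx x4
  have h' := h.mono (Nat.le_succ _)
  have x0 := h.nn (tm k r)
  have pa := Ledg.pi_act hf H.hr.2 h' n3
  have pb := Ledg.piO_le_hc hf h' g
  obtain ⟨-, gb, -, -, -, -, -, lip⟩ := L.2 g' x x4
  refine ⟨√(1 + xs (tm k r) i), if (B.c g' 0).steer then B.piS g' xs k r i else (B.c g' 0).pi1,
    Real.le_sqrt_of_sq_le (by linarith), Real.sqrt_le_sqrt ((h.one_le (Nat.lt_succ_self _)).trans
      (mul_le_mul_of_nonneg_right ((hb.qp_le (by norm_num)).trans_eq (qp_one _)) hb.J_pos.le)),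
    ?_, by linarith [hb.hc_pos], ?_, pa, gb_two gb, ?_, ?_⟩
  · split_ifs
    · exact (Ledg.piS_le hf (by linarith [H.hr.2]) h' g').1
    · exact (Bk.gd0 hf hb g').pi1_pos.le
  · have b1 := Bk.bb_le hf hb n3 k
    have b0 := (Bk.gd hf hb g' H.hk.le).bb_pos
    rw [← Real.sqrt_mul (div_pos b0 hb.N_pos).le, div_mul_eq_mul_div]
    linarith [h.rt_mono b1 (tm k r), Real.sqrt_nonneg ((B.c g 0).bbO * (1 + xs (tm k r) i) / B.N)]
  · rw [e' g' hg x3]
    refine (H.mo g' hg).env i x3 _ ((lip _ (Prof.box_mono hD.le (by norm_num) g' x2)).trans ?_)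
    exact (mul_le_mul_of_nonneg_left hi (pow_pos hb.N_pos 3).le).trans (s2 g' k H.hk.le)
  · rw [piS_congr e]
    exact (C g').2 x (Prof.box_mono hD.le (by norm_num) g' x1) i hi hz

end Mf

open Mf in
theorem mf (Mbi : MbiStmt) (Ml : MlStmt) (Mz : MzStmt) (Mp : MpStmt) (Ms : MsStmt) (Mr : MrStmt)
    (Left : LeftStmt) (Fmg : FmgStmt) (Gabs : GabsStmt) (Fup : FupStmt) (Lab : LabStmt) :
    MfStmt := by
  filter_upwards [ev_big, Mbi, Ml, Mz, Mp, Ms, Mr, Left, Fmg, Gabs, Fup, Lab, surj] with N hb mbi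
    ml mz mp ms mr left fmg gabs fup lab srj B hB ρ k r s ch o H C
  replace mbi := mbi B hB ρ k
  replace ml := ml B hB ρ k r s ch o s.f H
  replace mz := mz B hB ρ k r s ch o s.f H
  replace mp := mp B hB ρ k r s ch o s.f H
  replace ms := ms B hB ρ k r s ch o s.f H
  replace mr := mr B hB ρ k r s ch o s.f H
  replace left := left B hB ρ k r s ch o s.f H
  replace fmg := fmg B hB k (r - 1) s.f ch (B.mF ρ (B.Z s) s.Sg o.u)
  replace gabs := gabs B hB k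
  replace fup := fup B hB k r s.f
  replace lab := lab B hB ρ k r s
  replace srj := srj B hB
  subst hB
  have G : B.G := H.ok.geo
  have hf := H.ok.geo.toFrOk
  have I := H.inv
  obtain ⟨r1, r8⟩ := H.hr
  obtain ⟨hs, hD, -, -⟩ := hsp_bd hf hb
  have hQ := GeoP.det_pos hf
  have p0 : 0 < B.lb := GeoP.lb_pos hf
  obtain ⟨-, -, -, -, -, -, b7, b8⟩ := n2 hb
  -- the old density
  have ej : jac s.f = dens ρ (B.Z s) s.Sg := funext I.iF.smf.2.2
  have M0 : B.MBs k (2 * eps0) 1 (jac s.f) := by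
    rw [ej]
    exact (mbi r s H.rho H.ok.toOk0 H.hk r1 (by omega) ⟨I.il, I.iz, I.ip, I.is, I.iq⟩ I.ir).1
  obtain ⟨L, Lj⟩ := lab H.ok.toOk0 H.hk (by omega) I.il I.ip.psh I.iF M0
  have b0 : Function.Bijective B.f0 := I.iF.fk.1 ▸ (I.iF.sn 0 (Nat.zero_le _)).2.1
  have S0 := srj s.f G b0 L.1.2.1 fun g x hx => (L.2 g x hx).1.trans
    (mul_le_mul_of_nonneg_right (by linarith [hb.np_pos (23 / 10)]) p0.le)
  -- the new density
  have aft' : aft (ks B.N) k (r + 1) → aft (ks B.N) k r := fun a =>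
    a.imp_right fun a => ⟨a.1, r1⟩
  have M2 := (mbi (r + 1) _ H.rho H.ok.toOk0 H.hk (by omega) (by omega)
    ⟨ml, mz, mp, ms, fun a => ⟨(I.iq (aft' a)).fo, (I.iq (aft' a)).cred, (I.iq (aft' a)).zn,
      (I.iq (aft' a)).fq, (I.iq (aft' a)).zb⟩⟩ mr).1
  obtain ⟨xs, hxs⟩ : ∃ xs, xs = (B.stp ρ k r s ch o s.f).xs := ⟨_, rfl⟩
  have et : tm k (r + 1) = tm k r + 1 := by unfold tm; omega
  have lh : ∀ i, Ledg.LH B.N xs (tm k r + 1) i := fun i => by
    rw [hxs, ← et]; exact Ledg.lh hb hf H.hk (by omega) ml i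
  have e : ∀ m < tm k r, xs m = s.xs m := fun m hm => by
    rw [hxs]; exact Function.update_of_ne hm.ne _ _
  have e' : ∀ i g', col g' = r - 1 → i ∈ B.sites g' (98 / 100) → xs (tm k r) i = o.xs g' i :=
    fun i g' hg hi => by
      rw [hxs, ← xs_eq hs hD hg hi o.xs]
      simp only [Bk.stp, Function.update_self]
  -- the main step
  obtain ⟨f1, D1, -, j1, M1, R1⟩ := fmg G H.hk.le L.1 M0 fun g hg => ⟨(C g).1, (H.mo g hg).fb⟩
  have o1 : ∀ g, ∀ x ∈ B.bx g 1, B.oh g s.f x ∈ B.R g (105 / 100) := fun g x hx =>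
    Prof.RX_mono _ hD.le (by norm_num) (((S0 g).2 x 1 (by norm_num) (by norm_num)).1 hx).1
  have F1 : ∀ g, ∀ x ∈ B.bx g 1, ∀ i, B.NS i x →
      FRel (B.c g k) ((B.fr g).fh s.f) ((B.fr g).fh f1) (B.oh g s.f x) (B.oh g f1 x)
        (FPm B.N √((B.c g 0).bbO * (1 + xs (tm k r) i) / B.N) (B.piO g xs (tm k r) i)
          (pq B.N)) := fun g x hx i hi => by
    obtain ⟨-, t2, t3, -⟩ := step_bd hf (lh i) g
    rw [← nw_oh (hQ g).ne' L.1.2.1.2 f1 x]
    refine (R1 g _ (o1 g x hx)).2 _ _ (Real.sqrt_nonneg _) t2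
      (Ledg.piO_nonneg hf hb g xs _ i) t3 fun g' hg => ?_
    rw [zc_oh (hQ g).ne']
    exact act hb H C L (fun g x => ((S0 g).2 x _ (by norm_num) (by norm_num)).2) (lh i) e (e' i)
      hx hi g' hg
  have S1 := srj f1 G b0 D1.2.1 fun g x hx => by
    have t1 := (R1 g _ (o1 g x hx)).1
    rw [nw_oh (hQ g).ne' L.1.2.1.2] at t1
    have t2 := (L.2 g x hx).1
    have t3 : (B.c g k).lam ≤ B.lb := (Bk.gd hf hb g H.hk.le).lam_le_lb
    have t4 := mul_le_mul_of_nonneg_left t3 (hb.np_pos (6 / 5)).le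
    have t5 := mul_le_mul_of_nonneg_right b7 p0.le
    have t6 := mul_le_mul_of_nonneg_right b8 p0.le
    have t7 := mul_pos (pow_pos hb.N_pos 3) p0
    linarith [norm_sub_le_norm_sub_add_norm_sub (B.oh g f1 x) (B.oh g s.f x) ((B.fr g).zc (B.Z0 x))]
  -- the small step
  obtain ⟨R, sR, dR, bR⟩ := left
  have en : ∀ z, jac f1 z + dv R z =
      dens ρ (B.Z (B.stp ρ k r s ch o s.f)) (B.stp ρ k r s ch o s.f).Sg z := fun z => by
    rw [dR, j1, ej]
  obtain ⟨f', D', j', R2⟩ := gabs f1 R G H.hk.le D1 sR M1 (fun g z hz => by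
    refine ⟨?_, ?_⟩
    · rw [funext en]
      refine ((M2 g).1 z hz).trans ?_
      unfold eps0; norm_num
    · obtain ⟨x, rfl⟩ := (S1 g).1.2 z
      have hx : x ∈ B.bx g 1 := Prof.box_mono hD.le (by norm_num) g
        (((S1 g).2 x _ (by norm_num) (by norm_num)).2 hz)
      obtain ⟨i, hi⟩ := exists_NS hs x
      obtain ⟨t1, -, -, t4⟩ := step_bd hf (lh i) g
      exact gb_step (Bk.gd hf hb g H.hk.le) (F1 g x hx i hi) (L.2 g x hx).2.1 t4 t1) bR
  refine ⟨f', ⟨D'.1, D'.2.1, fun z => (j' z).trans (en z)⟩, I.iF.sn,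
    ⟨I.iF.fk.1, fun a => absurd a (Nat.succ_ne_zero r)⟩, ?_⟩
  change B.IG k (r + 1) f' s.ft (B.stp ρ k r s ch o s.f).xs s.Af
  rw [← hxs]
  refine fup f' s.ft s.xs xs s.Af s.Af G H.hk r8 (fun m i => (lh i).nn m) e (fun _ => rfl)
    (fun g x hx => ⟨(L.2 g x hx).2.2.2.2.2.2.1.trans (by norm_num), fun j hj =>
      ((Lj j hj).2.2 g x hx).2.1.trans (by norm_num)⟩) I.iF.ig fun g x hx i hi => ?_
  have r0 : r ≠ 0 := by omega
  rw [if_neg fun a => r0 a.2.1, if_neg r0]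
  have g1 := Bk.gd hf hb g H.hk.le
  have t1 := R2 g _ (Prof.RX_mono _ hD.le (show (1 : ℝ) + 1 / 500 ≤ 105 / 100 by norm_num)
    (((S1 g).2 x 1 (by norm_num) (by norm_num)).1 hx).1)
  rw [nw_oh (hQ g).ne' D1.2.1.2] at t1
  exact ((F1 g x hx i hi).comp g1.hs_pos (jac_ne (hQ g) D1 _) (sml_m hb _ _) (sml_s hb) t1).mono'
    g1 (cmp_le hb _ _)

end
end Pool.Agent.MP_20bec2_an.T3

end MrgPart1

-- ======== part 2: formerly Pool.Agent.MP_20bec2_an.T3.UgB
section MrgPart2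

/-! Transport of the increments from the frame of the acting cube to the frame of an observer. -/

set_option autoImplicit false
set_option linter.unusedSectionVars false
open MeasureTheory Set Filter Matrix Topology

namespace Pool.Agent.MP_20bec2_an.T3
noncomputable section
open Classical Prof Glue

namespace Ug

theorem sum_diag {f : Fin 3 → ℝ} {e : ℝ} (i : Fin 3) (h : ∀ a, a ≠ i → |f a| ≤ e) :
    |∑ a, f a| ≤ |f i| + 2 * e := by
  rw [← Finset.add_sum_erase _ _ (Finset.mem_univ i)]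
  refine (abs_add_le _ _).trans (add_le_add le_rfl ((Finset.abs_sum_le_sum_abs _ _).trans ?_))
  have := Finset.sum_le_card_nsmul (Finset.univ.erase i) (fun a => |f a|) e fun a ha =>
    h a (Finset.ne_of_mem_erase ha)
  rw [Finset.card_erase_of_mem (Finset.mem_univ i)] at this
  simpa using this

section frames
variable {F F' : Fr} {δ m : ℝ}

/-- the lateral axes of the two frames agree -/
def Al (δ : ℝ) (F F' : Fr) : Prop := |(F.Oᵀ * F'.O) 0 1| ≤ δ ∧ |(F.Oᵀ * F'.O) 1 0| ≤ δ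

theorem P_off (c : Cpt δ F F') (al : Al δ F F') {i a : Fin 3} (h : a ≠ i) :
    |(F.Oᵀ * F'.O) i a| ≤ δ := by
  have a0 := c.o3 0 (by decide)
  have a1 := c.o3 1 (by decide)
  fin_cases i <;> fin_cases a
  exacts [absurd rfl h, al.1, a0.1, al.2, absurd rfl h, a1.1, a0.2, a1.2, absurd rfl h]

theorem T_off (c : Cpt δ F F') (al : Al δ F F') {i a : Fin 3} (h : a ≠ i) :
    |(F.Q⁻¹ * F'.Q) i a| ≤ 2 * δ := by
  have h1 : |(F.Q⁻¹ * F'.Q) i a - (F.Oᵀ * F'.O) i a| ≤ δ := c.tq i a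
  linarith [P_off c al h, abs_sub_abs_le_abs_sub ((F.Q⁻¹ * F'.Q) i a) ((F.Oᵀ * F'.O) i a)]

theorem vec_al (h : Orth F.O) (h' : Orth F'.O) (c : Cpt δ F F') (al : Al δ F F') {v : V}
    (hv : ∀ a, |v a| ≤ m) (i : Fin 3) :
    |((F.Q⁻¹ * F'.Q) *ᵥ v) i| ≤ (1 + δ) * |v i| + 4 * δ * m := by
  have := sum_diag (f := fun a => (F.Q⁻¹ * F'.Q) i a * v a) i fun a ha =>
    ZtA.abs_mul_le (T_off c al ha) (hv a)
  have h2 := ZtA.abs_mul_le (GeoP.T_eb h h' c i i) (le_of_eq (abs_abs (v i)))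
  rw [abs_mul, abs_abs, ← abs_mul] at h2
  refine le_trans this ?_
  simp only [cm, of_apply] at h2
  linarith

theorem vec_two (c : Cpt δ F F') {v : V} (hv : ∀ a, |v a| ≤ m) (h2 : v 2 = 0) :
    |((F.Q⁻¹ * F'.Q) *ᵥ v) 2| ≤ 4 * δ * m := by
  have := sum_diag (f := fun a => (F.Q⁻¹ * F'.Q) 2 a * v a) 2 fun a ha =>
    ZtA.abs_mul_le (GeoP.T_e3 c ha).2 (hv a)
  simp only [h2, mul_zero, abs_zero] at this
  refine le_trans this ?_
  linarith

theorem hm_al (h : Orth F.O) (h' : Orth F'.O) (c : Cpt δ F F') (al : Al δ F F') (hδ : δ ≤ 1 / 5)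
    {A : Mx} (hA : EB A (cm m)) (i j : Fin 3) :
    |F.hm (F'.unm A) i j| ≤ (1 + δ) * |A i j| + 8 * δ * m := by
  have d0 := GeoP.cpt_nonneg c
  have m0 := GeoP.eb_nonneg hA
  have x1 : ∀ b, |(F.Q⁻¹ * F'.Q * A) i b| ≤ (1 + δ) * |A i b| + 4 * δ * m := fun b =>
    vec_al h h' c al (v := fun a => A a b) (fun a => hA a b) i
  have x2 : ∀ b, |(F.Q⁻¹ * F'.Q * A) i b| ≤ 2 * m := fun b => by
    have h1 : |A i b| ≤ m := hA i b
    have h2 := mul_le_mul_of_nonneg_left h1 (show 0 ≤ 1 + δ by linarith)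
    nlinarith [x1 b]
  have := sum_diag (f := fun b => (F.Q⁻¹ * F'.Q * A) i b * (F.Oᵀ * F'.O) j b) j fun b hb =>
    ZtA.abs_mul_le (x2 b) (P_off c al hb)
  have h2 := ZtA.abs_mul_le (x1 j) (orth_abs_le (GeoP.P_orth h h') j j)
  rw [GeoP.hm_unm', ← GeoP.P_t]
  refine le_trans this ?_
  linarith

theorem hm_all (h : Orth F.O) (h' : Orth F'.O) (hQ' : F'.Q.det ≠ 0) (c : Cpt δ F F')
    (hδ : δ ≤ 1 / 12) {A : Mx} (hA : EB A (cm m)) : EB (F.hm (F'.unm A)) (cm (7 / 2 * m)) :=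
  GeoP.hm_le h h' hQ' c hδ (by rwa [hm_unm h' hQ'])

theorem hm_two (h : Orth F.O) (h' : Orth F'.O) (c : Cpt δ F F') {A : Mx} (hA : EB A (cm m))
    (h2 : ∀ j, A 2 j = 0) (j : Fin 3) : |F.hm (F'.unm A) 2 j| ≤ 7 * δ * m := by
  have := vec_two c (m := 7 / 4 * m) (v := fun a => (A * (F'.Oᵀ * F.O)) a j)
    (fun a => GeoP.eb_mul_orth (GeoP.P_orth h' h) hA a j) (by simp [mul_apply, h2])
  rw [GeoP.hm_unm', Matrix.mul_assoc]
  refine le_trans this (le_of_eq ?_)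
  ring

theorem cbl_row {P : List (Fin 3) → Prop} {h : V} {U : Set V} {Z : V → V} {A : Mx} {β t : ℝ}
    (hh : ∀ i, 0 ≤ h i) (hZ : Sm Z) (hβ : 0 ≤ β) (H : ∀ i, CBl P h U (fun x => Z x i) β)
    {i : Fin 3} (hA : ∑ a, |A i a| ≤ t) : CBl P h U (fun x => (A *ᵥ Z x) i) (t * β) :=
  (cbl_const_mulVec A (b := fun _ => β) hh hZ H i).monoB (by
    rw [← Finset.sum_mul]; exact mul_le_mul_of_nonneg_right hA hβ)

theorem cbl_sand {P : List (Fin 3) → Prop} {h : V} {U : Set V} {S : V → Mx} {T W : Mx} {β t w : ℝ}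
    (hh : ∀ i, 0 ≤ h i) (hS : SmM S) (hβ : 0 ≤ β) (H : ∀ i j, CBl P h U (fun x => S x i j) β)
    {i j : Fin 3} (hT : ∑ a, |T i a| ≤ t) (hW : ∑ b, |W b j| ≤ w) :
    CBl P h U (fun x => (T * S x * W) i j) (t * (w * β)) := by
  have w0 : 0 ≤ w := (Finset.sum_nonneg fun _ _ => abs_nonneg _).trans hW
  refine (cbl_row (A := T) (Z := fun x a => (S x * W) a j) hh
    (sm_pi fun a => hS.mul (smM_const W) a j) (mul_nonneg w0 hβ) (fun a => ?_) hT).congr_fun
    fun x => by rw [Matrix.mul_assoc]; rfl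
  exact (cbl_row (A := Wᵀ) (Z := fun x b => S x a b) hh (sm_pi fun b => hS a b) hβ (H a)
    (i := j) hW).congr_fun fun x => by
      simp only [mul_apply, mulVec, dotProduct, transpose_apply, mul_comm]

/-- a function given in the hat coordinates of `F'`, read in the hat coordinates of `F` -/
theorem co_chg (h : Orth F.O) (h' : Orth F'.O) {n : ℕ} {U : Set V} {φ : V → ℝ} (hφ : Sm φ) {β : ℝ}
    (H : CO n (cv 1) univ φ β) : CO n (cv 1) U (fun y => φ (F'.xc (F.xp y))) (3 ^ n * β) := by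
  have h1 : ∀ j : Fin 3, (0 : ℝ) ≤ cv 1 j := fun _ => zero_le_one
  have := CO.affine (U := U) (b := F'.Oᵀ *ᵥ (F.x0 - F'.x0)) (Q := (F.Oᵀ * F'.O)ᵀ) h1 h1 zero_le_one
    (fun a b => by simpa [cv] using orth_abs_le (GeoP.P_orth h h') b a) (SmN.of_sm hφ univ)
    (fun _ _ => mem_univ _) H
  rw [mul_one] at this
  exact CBl.congr_fun this fun y => by rw [ZtA.xc_xp']
end frames

section par
variable {c : Pm} (h : Gd c)
include h

theorem sdL_ge {i : Fin 3} (hi : i ≠ 2) (j : Fin 3) : np c.N (-1) ≤ c.sdL i j := by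
  have b := h.big
  have p := b.np_pos (-1)
  have l := b.log_np (-1)
  have := h.log_e4_le; have := b.L_ge; have := b.J_ge; have := log2_bd.2
  have e1 : np c.N (-1) ≤ c.dB := le_of_log p h.dB_pos (by linarith [h.log_dB])
  have e4 : np c.N (-1) ≤ uB c.N := le_of_log p b.uB_pos (by linarith [b.log_uB])
  have e2 : np c.N (-1) ≤ c.m * uB c.N :=
    e4.trans (le_mul_of_one_le_left b.uB_pos.le h.one_le_m)
  have e3 : np c.N (-1) ≤ c.t1B := le_of_log p h.t1B_pos (by linarith [h.log_t1B])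
  have e5 : np c.N (-1) ≤ c.η * c.dB + np c.N (-9 / 10) :=
    (b.np_le (by norm_num)).trans (le_add_of_nonneg_left (mul_pos h.η_pos h.dB_pos).le)
  unfold Pm.sdL
  split_ifs
  · fin_cases i <;> fin_cases j
    exacts [e1, e2, e3, e4, e5, e4, absurd rfl hi, absurd rfl hi, absurd rfl hi]
  · exact b.np_le (by norm_num)

theorem Jq_le : c.q ^ 3 * c.J * (Jp c.N (-5 / 2) * qp c.N (-15)) ≤ 1 / 3 ∧
    Jp c.N (-5 / 2) * qp c.N (-15) ≤ 1 / 3 := by
  have := h.big.Jp_pos (-5 / 2); have := h.big.qp_pos (-15); have := h.q_pos; have := h.J_pos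
  have l3 := (logc_bd (show (1 : ℝ) ≤ 3 by norm_num)).2
  constructor <;>
  · refine le_of_log (by positivity) (by positivity) ?_
    simp (disch := positivity) only [Real.log_mul, Real.log_div, Real.log_one, Real.log_pow,
      h.big.log_Jp, h.big.log_qp, h.log_q, h.log_J]
    push_cast; linarith [h.big.L_ge]

theorem sd_le_one (i j : Fin 3) : c.sd i j ≤ 1 := by linarith [(h.sd_bd i j).2.1, (Jq_le h).2]

theorem nz_le_one (i j : Fin 3) : c.nz i j ≤ 1 := by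
  have h1 := mul_le_mul_of_nonneg_left (h.sdB_bd i j).2.1
    (mul_pos (pow_pos h.q_pos 3) h.J_pos).le
  linarith [(Zder.nz_le h i j).2, (Jq_le h).1]

theorem lam_le_hs (i : Fin 3) : c.lam ≤ c.hs i := by
  have e : c.lam ≤ c.y := le_mul_of_one_le_left h.lam_pos.le
    ((np_zero c.N).symm.le.trans (h.big.np_le (by norm_num)))
  fin_cases i
  exacts [h.lam_le_l1, le_rfl, e]

/-- a cube whose singular values are comparable -/
theorem rot (e : c.s2 ≤ 4 * c.s1) : c.isA ∧ ¬c.oB ∧ ¬c.push ∧ c.l1 = c.lam := by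
  have e1 := ZtA.eta_one h e
  have b := h.big
  have a1 : etaA c.N ≤ 1 := le_of_log b.etaA_pos one_pos (by
    rw [b.log_etaA, Real.log_one]; linarith [b.L_ge])
  have hA : c.isA := by rw [Pm.isA, e1]; exact a1
  refine ⟨hA, fun hB => h.notA_of_oB hB hA, fun hp => ?_, ?_⟩
  · linarith [h.push_ζ hp, h.isA_iff.1 hA]
  · have hK : c.K ≤ 4 := (div_le_iff₀ h.s1_pos).2 e
    have e2 : c.m = 1 := max_eq_left (by linarith)
    have e3 : c.e4 = 1 := le_antisymm h.e4_le_one (e1 ▸ h.η_le_e4)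
    rw [Pm.l1, Pm.ro, e2, e3, Real.one_rpow, Real.sqrt_one, div_one, one_mul]
end par

theorem dc_small {N : ℕ} (b : Big N) : dc N ≤ 1 / 10 ^ 7 :=
  GeoP.dc_le (by exact_mod_cast (show (2 : ℝ) ≤ N by linarith [b.N_ge, b.J_ge, b.L_ge]))

theorem dc_mul {N : ℕ} (b : Big N) {a a' : ℝ} (h : a - 24 ≤ a') : 100 * dc N * np N a ≤ np N a' := by
  have := b.np_pos a; have := b.dc_pos
  refine le_of_log (by positivity) (b.np_pos _) ?_
  simp (disch := positivity) only [Real.log_mul, b.log_dc, b.log_np]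
  linarith [mul_le_mul_of_nonneg_right h b.J_pos.le, b.log100_bd.2, b.J_ge, b.L_ge]

section block
variable {B : Bk} (hf : FrOk B.N B.lb B.fr) (hb : Big B.N) {g0 g : Cu} (n : Nbr 3 g0 g) {k : ℕ}
  (hk : k ≤ nb B.N)
include hf hb n hk

theorem hs_two (i : Fin 3) : (B.c g k).hs i ≤ 2 * (B.c g0 k).hs i := by
  have G := Bk.gd hf hb g0 hk
  have h1 := ((Bk.cpk hf hb n hk hk).ratios Pm.ro (by simp)).2.2.2.1
  have e0 : (B.c g k).ro * (B.c g0 k).lam ≤ 2 * ((B.c g0 k).ro * (B.c g0 k).lam) := by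
    nlinarith [G.lam_pos]
  have e1 : (B.c g0 k).lam ≤ 2 * (B.c g0 k).lam := by linarith [G.lam_pos]
  have e2 : (B.c g0 k).y ≤ 2 * (B.c g0 k).y := by linarith [G.y_pos]
  fin_cases i
  exacts [e0, e1, e2]

theorem d2u_two : (B.c g k).d2u ≤ 2 * (B.c g0 k).d2u := by
  have G := Bk.gd hf hb g0 hk
  have G' := Bk.gd hf hb g hk
  have h1 := ((Bk.cpk hf hb n hk hk).ratios Pm.η (by simp)).2.2.2.2
  have p := mul_pos (hb.np_pos (-98 / 100)) G.lam_pos
  show np B.N _ / ((B.c g k).η * (B.c g0 k).lam) ≤ 2 * (np B.N _ / ((B.c g0 k).η * (B.c g0 k).lam))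
  rw [← mul_div_assoc, div_le_div_iff₀ (mul_pos G'.η_pos G.lam_pos) (mul_pos G.η_pos G.lam_pos)]
  nlinarith

/-- a lateral vector of the size of the kernel scales -/
theorem vec_hs {v : V} {a : ℝ} (h2 : v 2 = 0) (hv : ∀ i, |v i| ≤ a * (B.c g k).hs i) (i : Fin 3) :
    |((B.fr g0).Q⁻¹ *ᵥ ((B.fr g).Q *ᵥ v)) i| ≤ 3 * a * (B.c g0 k).hs i := by
  have G := Bk.gd hf hb g0 hk
  have G' := Bk.gd hf hb g hk
  have c := hf.cp g0 g n
  have hO := GeoP.orth hf g0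
  have hO' := GeoP.orth hf g
  have a0 : 0 ≤ a := nonneg_of_mul_nonneg_left ((abs_nonneg _).trans (hv 0)) (G'.hs_pos 0)
  have d1 := dc_small hb
  have p := mul_nonneg a0 (G.hs_pos i).le
  have p1 := mul_le_mul_of_nonneg_left (lam_le_hs G i) a0
  rw [mulVec_mulVec]
  rcases c.al with al | ⟨-, e⟩
  · have h1 := vec_al hO hO' c al (m := a * (B.c g0 k).y) (fun j => (hv j).trans
      (mul_le_mul_of_nonneg_left (Zder.hs_le G' j) a0)) i
    have h3 := (hv i).trans (mul_le_mul_of_nonneg_left (hs_two hf hb n hk i) a0)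
    have h4 := mul_le_mul_of_nonneg_left h3 (show 0 ≤ 1 + dc B.N by linarith [hb.dc_pos])
    have h5 := mul_le_mul_of_nonneg_right (dc_mul hb (a := 11 / 10) (a' := 0) (by norm_num))
      (mul_nonneg a0 G.lam_pos.le)
    rw [np_zero] at h5
    have e : (B.c g0 k).y = np B.N (11 / 10) * (B.c g0 k).lam := rfl
    rw [e] at h1
    nlinarith [mul_le_mul_of_nonneg_right d1 p]
  · have e1 : (B.c g k).l1 = (B.c g0 k).lam := (rot G' e).2.2.2
    have h1 : ‖v‖ ≤ a * (B.c g0 k).lam := norm_le_of fun j => by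
      fin_cases j
      · exact (hv 0).trans (le_of_eq (congrArg (a * ·) e1))
      · exact hv 1
      · exact (congrArg abs h2).le.trans (abs_zero.le.trans (mul_nonneg a0 G.lam_pos.le))
    have h3 := GeoP.T_norm hO hO' c (by linarith) v
    linarith [abs_le_norm (((B.fr g0).Q⁻¹ * (B.fr g).Q) *ᵥ v) i]

/-- a step of the acting cube `g` seen from the cube `g0` -/
theorem tab {A M : Mx} {a : ℝ} (a1 : 1 ≤ a) (a2 : a ≤ B.N) (h2 : ∀ j, A 2 j = 0)
    (hA : EB2 A (a • (B.c g k).sd + if (B.c g k).noise then (B.c g k).nz else 0))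
    (m1 : ∀ i j, (B.c g k).sd i j ≤ 101 / 100 * M i j) (m2 : ∀ i j, (B.c g0 k).sdL i j ≤ M i j) :
    EB2 ((B.fr g0).hm ((B.fr g).unm A))
      ((4 * a) • M + if (B.c g k).noise then (2 : ℝ) • (B.c g0 0).nz else 0) ∧
    ∀ j, |(B.fr g0).hm ((B.fr g).unm A) 2 j| ≤ np B.N (-20) := by
  have G := Bk.gd hf hb g0 hk
  have G' := Bk.gd hf hb g hk
  have c := hf.cp g0 g n
  have hO := GeoP.orth hf g0
  have hO' := GeoP.orth hf g
  have d0 := hb.dc_pos
  have d1 := dc_small hb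
  have hA' : ∀ i j, i ≠ 2 → |A i j| ≤ a * (B.c g k).sd i j +
      if (B.c g k).noise then (B.c g k).nz i j else 0 := fun i j hi => by
    have := hA i j hi
    rw [Matrix.add_apply] at this
    split_ifs at this ⊢ <;> exact this
  have hm : EB A (cm (2 * a)) := fun i j => by
    show _ ≤ 2 * a
    by_cases hi : i = 2
    · rw [hi, h2, abs_zero]; linarith
    · have h1 := hA' i j hi
      have h3 := mul_le_mul_of_nonneg_left (sd_le_one G' i j) (show 0 ≤ a by linarith)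
      split_ifs at h1 <;> linarith [nz_le_one G' i j]
  refine ⟨fun i j hi => ?_, fun j => ?_⟩
  · have s1 := m2 i j
    have s2 : np B.N (-1) ≤ _ := sdL_ge G hi j
    have s3 := hb.np_pos (-1)
    have z := (Bk.cpk hf hb n (Nat.zero_le _) hk).nz_le rfl i j
    suffices h : |(B.fr g0).hm ((B.fr g).unm A) i j| ≤ 4 * a * M i j +
        if (B.c g k).noise then 2 * (B.c g0 0).nz i j else 0 by
      rw [Matrix.add_apply]
      split_ifs at h ⊢ <;> exact h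
    have p : 0 ≤ a * M i j := mul_nonneg (by linarith) (by linarith)
    rcases c.al with al | ⟨e, e'⟩
    · have h1 := hm_al hO hO' c al (by linarith) hm i j
      have h3 := mul_le_mul_of_nonneg_left (hA' i j hi) (show 0 ≤ 1 + dc B.N by linarith)
      have h4 := mul_le_mul_of_nonneg_left (m1 i j) (show 0 ≤ a by linarith)
      have h5 := dc_mul hb (a := 0) (a' := -1) (by norm_num)
      rw [np_zero] at h5
      have h6 := mul_le_mul_of_nonneg_left (show 16 * dc B.N ≤ M i j by linarith)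
        (show 0 ≤ a by linarith)
      have h7 := mul_le_mul_of_nonneg_left h4 (show 0 ≤ 1 + dc B.N by linarith)
      have h8 := mul_le_mul_of_nonneg_right d1 p
      split_ifs at h3 ⊢
      · nlinarith [mul_le_mul_of_nonneg_right d1 z.1]
      · nlinarith
    · obtain ⟨r1, -, r3, -⟩ := rot G' e'
      have r4 : ¬(B.c g k).noise := fun e => r3 e.1
      have r5 : (B.c g0 k).sdL i j = sdc B.N := by rw [Pm.sdL, if_neg (rot G e).2.1]; rfl
      have h1 := hm_all (m := a * sdc B.N) hO hO' (GeoP.det_ne hf g) c (by linarith)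
        (A := A) (fun i' j' => by
          have p' := mul_le_mul_of_nonneg_left G'.sdc_div_le (show 0 ≤ a by linarith)
          show _ ≤ a * sdc B.N
          by_cases hi' : i' = 2
          · rw [hi', h2, abs_zero]; exact mul_nonneg (by linarith) hb.sdc_pos.le
          · have h3 := hA' i' j' hi'
            rw [if_neg r4, Pm.sd, if_pos r1, add_zero] at h3
            exact h3.trans p') i j
      have h4 := mul_le_mul_of_nonneg_left (r5 ▸ s1) (show 0 ≤ a by linarith)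
      rw [if_neg r4]
      simp only [cm, of_apply] at h1
      linarith
  · have h1 := hm_two hO hO' c hm h2 j
    have h3 := dc_mul hb (a := 1) (a' := -20) (by norm_num)
    rw [np_one] at h3
    nlinarith
end block

namespace Hy
variable {B : Bk} {ρ : V → ℝ} {k r : ℕ} {s : St} {ch : Cu → Cu → ℝ → V} {o : Bk.MO}
  (H : Hy B ρ k r s ch o) {g0 : Cu} {x : V}
include H

theorem ug_vec (hx : x ∈ B.bx g0 3) (m : ℕ) (i : Fin 3) :
    |((B.fr g0).Q⁻¹ *ᵥ B.ug (r - 1) o.u m x) i| ≤ 3 * np B.N (-690) * (B.c g0 k).hs i := by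
  rcases cases B (r - 1) x with ⟨g, hg, hx'⟩ | hx'
  · rw [H.ug_in hg (bx_mono H.D0 (by norm_num) hx')]
    exact vec_hs H.fo H.big (H.nbr3 (by norm_num) hx hx') H.hk.le ((H.mo g hg).lat m _)
      ((H.mo g hg).sz m _) i
  · rw [H.ug_out hx', mulVec_zero, Pi.zero_apply, abs_zero]
    have := H.big.np_pos (-690); have := (H.gd g0).hs_pos i
    positivity

theorem Up_vec (hx : x ∈ B.bx g0 3) {m : ℕ} (hm : m ≤ nT B.N) (i : Fin 3) :
    |((B.fr g0).Q⁻¹ *ᵥ Up (B.ug (r - 1) o.u) m x) i| ≤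
      3 * √(pq B.N * pJ B.N) * (B.c g0 k).hs i := by
  rcases cases B (r - 1) x with ⟨g, hg, hx'⟩ | hx'
  · rw [H.Up_in hg (bx_mono H.D0 (by norm_num) hx')]
    exact vec_hs H.fo H.big (H.nbr3 (by norm_num) hx hx') H.hk.le (Up_lat (H.mo g hg).lat m _)
      ((H.mo g hg).path m hm _).1 i
  · rw [H.Up_out hx', mulVec_zero, Pi.zero_apply, abs_zero]
    have := (H.gd g0).hs_pos i
    positivity

theorem jm_Up_le (hx : x ∈ B.bx g0 3) {m : ℕ} (hm : m ≤ nT B.N) :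
    EB ((B.fr g0).hm (jm (Up (B.ug (r - 1) o.u) m) x)) (cm (7 / 2 * (1 / √(pJ B.N)))) := by
  rcases cases B (r - 1) x with ⟨g, hg, hx'⟩ | hx'
  · rw [H.jm_Up_in hg (bx_mono H.D0 (by norm_num) hx')]
    exact hm_all (H.hO g0) (H.hO g) (H.hQ g) (H.fo.cp g0 g (H.nbr3 (by norm_num) hx hx'))
      ((dc_small H.big).trans (by norm_num)) ((H.mo g hg).path m hm _).2
  · rw [H.jm_Up_out hx', hm_zero]
    exact Zder.eb_zero (by positivity)

theorem T_two {g : Cu} (n : Nbr 3 g0 g) (i : Fin 3) :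
    ∑ a, |((B.fr g0).Q⁻¹ * (B.fr g).Q) i a| ≤ 2 :=
  (GeoP.T_row (H.hO g0) (H.hO g) (H.fo.cp g0 g n) i).trans (by linarith [dc_small H.big])

theorem d2u_q {g : Cu} (n : Nbr 3 g0 g) :
    0 ≤ (B.c g k).d2u / (B.c g k).q ∧ (B.c g k).d2u / (B.c g k).q ≤ (B.c g0 k).d2u / 10 ^ 6 := by
  have G := H.gd g
  have h1 := d2u_two H.fo H.big n H.hk.le
  have h2 : 10000000 ≤ (B.c g k).q := H.big.q_ge
  refine ⟨(div_pos G.d2u_pos G.q_pos).le, ?_⟩
  rw [div_le_iff₀ G.q_pos]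
  nlinarith [(H.gd g0).d2u_pos]

/-- second derivatives of the increment of `Zs` -/
theorem dZ_co (g0 : Cu) (i : Fin 3) : CO 2 (cv 1) (B.R g0 3)
    (fun y => (B.fr g0).hatv (dZ B r o) y i) ((B.c g0 k).d2u / 9000) := by
  refine cbl_of_local fun y hy => ?_
  have p := (H.gd g0).d2u_pos
  have ct := (xp_sm (B.fr g0)).continuous.continuousAt (x := y)
  rcases cases B (r - 1) ((B.fr g0).xp y) with ⟨g, hg, hx⟩ | hx
  · have n := H.nbr3 (by norm_num) (H.xp_mem.2 hy) hx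
    have su := Up_sm (H.mo g hg).sm (nT B.N)
    obtain ⟨q0, q1⟩ := H.d2u_q n
    refine ((cbl_row (Z := fun y => Up (o.u g) (nT B.N) ((B.fr g).xc ((B.fr g0).xp y)))
      (fun _ => zero_le_one) (su.comp ((xc_sm _).comp (xp_sm _))) (by positivity)
      (fun a => co_chg (H.hO g0) (H.hO g) (su.coord a) ((H.mo g hg).d2.1 a))
      (H.T_two n i)).monoB ?_).congr fun z hz => ?_
    · show 2 * (3 ^ 2 * ((B.c g k).d2u / (B.c g k).q)) ≤ _
      linarith
    · rw [hz]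
      filter_upwards [ct.eventually (ev_bx H.D0 (bx_mono H.D0 (by norm_num) hx))] with z hz
      rw [Fr.hatv, dZ, H.Up_in hg hz, Fr.unv, mulVec_mulVec]
  · refine (cbl_zero (by positivity)).congr fun z hz => ?_
    rw [hz]
    filter_upwards [ct.eventually (hx.ev H.D0)] with z hz
    rw [Fr.hatv, dZ, H.Up_out hz, mulVec_zero, Pi.zero_apply]

/-- first derivatives of the increment of `Nth + Neq` -/
theorem dN_co (g0 : Cu) (i j : Fin 3) : CO 1 (cv 1) (B.R g0 3) (fun y => (B.fr g0).hm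
    (dTh B r o ((B.fr g0).xp y) + dEq B ρ k r s ch o ((B.fr g0).xp y)) i j)
    ((B.c g0 k).d2u / 100) := by
  refine cbl_of_local fun y hy => ?_
  have p := (H.gd g0).d2u_pos
  have ct := (xp_sm (B.fr g0)).continuous.continuousAt (x := y)
  rcases cases B (r - 1) ((B.fr g0).xp y) with ⟨g, hg, hx⟩ | hx
  · have n := H.nbr3 (by norm_num) (H.xp_mem.2 hy) hx
    have su := H.dN_smM hg
    obtain ⟨q0, q1⟩ := H.d2u_q n
    refine ((cbl_sand (S := fun y => dN B ρ k r s ch o g ((B.fr g).xc ((B.fr g0).xp y)))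
      (W := (B.fr g).Oᵀ * (B.fr g0).O) (j := j)
      (fun _ => zero_le_one) (su.comp ((xc_sm _).comp (xp_sm _))) (by positivity)
      (fun a b => co_chg (H.hO g0) (H.hO g) (su a b) ((H.mo g hg).d2.2 a b))
      (H.T_two n i) (GeoP.row_abs (orth_t (GeoP.P_orth (H.hO g) (H.hO g0))) j)).monoB ?_).congr
      fun z hz => ?_
    · show 2 * (7 / 4 * (3 ^ 1 * ((B.c g k).d2u / (B.c g k).q))) ≤ _
      linarith
    · rw [hz]
      filter_upwards [ct.eventually (ev_bx H.D0 (bx_mono H.D0 (by norm_num) hx))] with z hz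
      rw [H.dN_in hg hz, GeoP.hm_unm']
  · refine (cbl_zero (by positivity)).congr fun z hz => ?_
    rw [hz]
    filter_upwards [ct.eventually (hx.ev H.D0)] with z hz
    rw [H.dTh_out hz, H.dEq_out hz, add_zero, hm_zero, Matrix.zero_apply]

/-- the increment of `E` made by the acting cube `g`, seen from `g0` -/
theorem dA_tab {g : Cu} (hx0 : x ∈ B.bx g0 3) (hg : col g = r - 1) (hx : x ∈ B.bx g (93 / 100))
    {i : Cu} (hi : B.NS i x) {M : Mx} (m1 : ∀ i j, (B.c g k).sd i j ≤ 101 / 100 * M i j)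
    (m2 : ∀ i j, (B.c g0 k).sdL i j ≤ M i j) :
    EB2 ((B.fr g0).hm ((B.fr g).unm (dA B ρ k r s ch o g ((B.fr g).xc x))))
      ((4 * (qp B.N (3 / 10) * (1 + nx B r o i))) • M +
        if (B.c g k).noise then (2 : ℝ) • (B.c g0 0).nz else 0) ∧
    ∀ j, |(B.fr g0).hm ((B.fr g).unm (dA B ρ k r s ch o g ((B.fr g).xc x))) 2 j| ≤
      np B.N (-20) := by
  obtain ⟨s1, s2⟩ := H.site (bx_mono H.D0 (by norm_num) hx) hi
  have b := H.big
  have q1 : 1 ≤ qp B.N (3 / 10) := (qp_zero B.N).symm.le.trans (b.qp_le (by norm_num))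
  have x0 := (H.mo g hg).led.1 i
  rw [H.nx_in hg s1]
  refine tab H.fo b (H.nbr3 (by norm_num) hx0 hx) H.hk.le (by nlinarith) ?_ (H.dA_row hg _)
    ((H.mo g hg).dE i s1 _ (H.xc_mem.2 (bx_mono H.D0 (by norm_num) hx)) s2) m1 m2
  refine (mul_le_mul_of_nonneg_left (H.xs_le hg s1) (b.qp_pos _).le).trans ?_
  have := b.qp_pos (3 / 10); have := b.qp_pos (1 / 10); have := b.J_pos
  refine le_of_log (by positivity) b.N_pos ?_
  simp (disch := positivity) only [Real.log_mul, b.log_qp, b.log_J, b.log_N]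
  linarith [(logc_bd (show (1 : ℝ) ≤ 7 by norm_num)).2, b.J_ge, b.L_ge]
end Hy

end Ug

end
end Pool.Agent.MP_20bec2_an.T3

end MrgPart2

-- ======== part 3: formerly Pool.Agent.MP_20bec2_an.T3.Mz
section MrgPart3

/-! Row MZ: the record of `Z` after one colour. -/

set_option autoImplicit false
set_option linter.unusedSectionVars false
open MeasureTheory Set Filter Matrix Topology

namespace Pool.Agent.MP_20bec2_an.T3
noncomputable section
open Classical Prof Glue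

namespace Ug

theorem q_four {N : ℕ} (b : Big N) : 4 * qp N (3 / 10) ≤ √(pq N) := by
  have := b.qp_pos (3 / 10)
  refine le_of_log (by positivity) b.sqrtq_pos ?_
  rw [Real.log_mul (by norm_num) this.ne', b.log_qp, b.log_sqrtq, log4_eq]
  linarith [b.L_ge, log2_bd.2]

theorem q_path {N : ℕ} (b : Big N) : 27 * √(pq N * pJ N) ≤ pq N * √(pJ N) := by
  have := b.q_pos; have := b.J_pos
  refine le_of_log (by positivity) (by positivity) ?_
  simp (disch := positivity) only [Real.log_mul, Real.log_sqrt, b.log_q, b.log_J]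
  linarith [b.L_ge, (logc_bd (show (1 : ℝ) ≤ 27 by norm_num)).2]

theorem inv_sqrtJ {N : ℕ} (b : Big N) : 1 / √(pJ N) ≤ 1 / 1000 :=
  one_div_le_one_div_of_le (by norm_num)
    (Real.le_sqrt_of_sq_le (by linarith [b.J_ge, b.L_ge]))

theorem zT_le {c : Pm} (h : Gd c) : c.zT ≤ 1 / 200 := by
  unfold Pm.zT
  split_ifs
  · have := ZtA.c_le h.big (-49 / 100)
    have h2 := ZtA.np_le_one h.big (show (-49 / 100 + 1 / 100 : ℝ) ≤ 0 by norm_num)
    unfold nu
    linarith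
  · exact (inv_sqrtJ h.big).trans (by norm_num)

theorem path_D {c : Pm} (h : Gd c) (i : Fin 3) :
    3 * √(pq c.N * pJ c.N) * c.hs i ≤ c.D / 8 := by
  have b := h.big
  have := b.q_pos; have := b.J_pos; have := h.y_pos; have := h.D_pos
  refine (mul_le_mul_of_nonneg_left (Zder.hs_le h i) (by positivity)).trans
    (le_of_log (by positivity) (by positivity) ?_)
  simp (disch := positivity) only [Real.log_mul, Real.log_div, Real.log_sqrt, b.log_q, b.log_J,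
    h.log_y, h.log_D]
  linarith [b.L_ge, b.J_ge, (logc_bd (show (1 : ℝ) ≤ 3 by norm_num)).2,
    (logc_bd (show (1 : ℝ) ≤ 8 by norm_num)).2, Real.log_le_log h.lam_pos h.lam_le_lb]

theorem hs_scale (B : Bk) (g : Cu) {j k : ℕ} (h : j ≤ k) (i : Fin 3) :
    (B.c g k).hs i = (B.c g j).hs i / 2 ^ (k - j) := by
  have e : (B.c g k).lam = (B.c g j).lam / 2 ^ (k - j) := by
    show B.lb / 2 ^ k = B.lb / 2 ^ j / 2 ^ (k - j)
    rw [div_div, ← pow_add, Nat.add_sub_cancel' h]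
  fin_cases i
  · show (B.c g j).ro * (B.c g k).lam = (B.c g j).ro * (B.c g j).lam / _
    rw [e, mul_div_assoc]
  · exact e
  · show np B.N _ * (B.c g k).lam = np B.N _ * (B.c g j).lam / _
    rw [e, mul_div_assoc]

theorem eb2_add {A A' M M' M'' : Mx} (h : EB2 A M) (h' : EB2 A' M')
    (e : ∀ i j, M i j + M' i j ≤ M'' i j) : EB2 (A + A') M'' := fun i j hi =>
  (abs_add_le _ _).trans ((add_le_add (h i j hi) (h' i j hi)).trans (e i j))

namespace Hy
variable {B : Bk} {ρ : V → ℝ} {k r : ℕ} {s : St} {ch : Cu → Cu → ℝ → V} {o : Bk.MO}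
  (H : Hy B ρ k r s ch o) {g0 : Cu} {x : V}
include H

/-- the increment of `E` at one point -/
theorem inc (hx0 : x ∈ B.bx g0 1) {i : Cu} (hi : B.NS i x) {M : Mx}
    (m1 : ∀ g, Nbr 3 g0 g → ∀ i j, (B.c g k).sd i j ≤ 101 / 100 * M i j)
    (m2 : ∀ i j, (B.c g0 k).sdL i j ≤ M i j) :
    EB2 ((B.fr g0).hm (jm (dZ B r o) x - (dTh B r o x + dEq B ρ k r s ch o x)))
      ((√(pq B.N) * (1 + nx B r o i)) • M +
        if k = mid B.N ∧ B.deep g0 then (2 : ℝ) • (B.c g0 0).nz else 0) ∧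
    ∀ j, |(B.fr g0).hm (jm (dZ B r o) x - (dTh B r o x + dEq B ρ k r s ch o x)) 2 j| ≤
      np B.N (-20) := by
  have x0 := H.nx_nn i
  have M0 : ∀ a b, 0 ≤ M a b := fun a b => ((H.gd g0).sdO_bd a b).2.2.2.2.trans (m2 a b)
  have z0 : ∀ a b, 0 ≤ (if k = mid B.N ∧ B.deep g0 then (2 : ℝ) • (B.c g0 0).nz else 0) a b :=
    fun a b => by
      split_ifs
      exacts [mul_nonneg zero_le_two (Zder.nz_le (H.gd0 g0) a b).1, le_rfl]
  rcases cases B (r - 1) x with ⟨g, hg, hx⟩ | hx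
  · have n := H.nbr3 (by norm_num) hx0 hx
    obtain ⟨t1, t2⟩ := H.dA_tab (bx_mono H.D0 (by norm_num) hx0) hg hx hi (m1 g n) m2
    rw [H.dN_in hg (bx_mono H.D0 (by norm_num) hx), dZ,
      H.jm_Up_in hg (bx_mono H.D0 (by norm_num) hx), ← unm_sub]
    refine ⟨fun a b ha => (t1 a b ha).trans (add_le_add ?_ ?_), t2⟩
    · refine mul_le_mul_of_nonneg_right ?_ (M0 a b)
      rw [← mul_assoc]
      exact mul_le_mul_of_nonneg_right (q_four H.big) (by linarith)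
    · split_ifs with h1 h2
      · exact le_rfl
      · exact absurd ⟨h1.2, Bk.noise_deep H.fo H.big n h1⟩ h2
      · exact mul_nonneg zero_le_two (Zder.nz_le (H.gd0 g0) a b).1
      · exact le_rfl
  · rw [H.dTh_out hx, H.dEq_out hx, dZ, H.jm_Up_out hx, add_zero, sub_zero, hm_zero]
    refine ⟨fun a b _ => ?_, fun j => ?_⟩
    · rw [Matrix.zero_apply, abs_zero]
      exact add_nonneg (mul_nonneg (by positivity) (M0 a b)) (z0 a b)
    · rw [Matrix.zero_apply, abs_zero]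
      exact (H.big.np_pos _).le

theorem iz (hz : Sm (B.Z s) ∧ ∀ g, ∀ x ∈ B.bx g 1,
    EB ((B.fr g).hm (jm (B.Z s) x) - 1) (cm (B.c g k).zT)) (f' : V → V) :
    B.IZ k (r + 1) (B.stp ρ k r s ch o f') := by
  have I := H.inv.iz
  have b := H.big
  have r1 := H.hr.1
  have row : ∀ {u v : ℝ}, |u| ≤ cnt k r * np B.N (-20) → |v| ≤ np B.N (-20) →
      |u + v| ≤ cnt k (r + 1) * np B.N (-20) := fun hu hv => by
    rw [cnt_succ]
    push_cast
    linarith [abs_add_le _ _ |>.trans (add_le_add hu hv)]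
  refine ⟨⟨I.sm.1.add H.dZ_sm, I.sm.2.1, I.sm.2.2⟩, ?_, fun h => I.n0 (mt (aft_succ r1).2 h),
    ⟨I.zk.1, fun h => absurd h r.succ_ne_zero⟩, fun g x hx i hi => ?_, fun hk g x hx i hi => ?_,
    I.ek, fun j hj g x hx i => ?_, fun g i => ?_, fun g i j => ?_⟩
  · rw [stp_Z]
    refine GeoP.bij_add (ε := B.D / 8) H.D0 (by linarith)
      (fun g => ⟨H.x0 g, H.hO g, (H.fo.fx g).2.2.1⟩) I.bij hz.1.dif H.dZ_sm.dif fun g x hx => ?_
    have hx' : x ∈ B.bx g 3 := bx_mono H.D0 (by norm_num) hx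
    exact ⟨GeoP.eb_mono (hz.2 g x hx) (zT_le (H.gd g)),
      GeoP.eb_mono (H.jm_Up_le hx' le_rfl) (by linarith [inv_sqrtJ b]),
      norm_le_of fun i => (H.Up_vec hx' le_rfl i).trans (path_D (H.gd g) i)⟩
  · obtain ⟨t1, t2⟩ := H.inc hx hi (M := (B.c g k).sdO)
      (fun g' n a c => (Bk.sd_le H.fo b n H.hk.le a c).1) fun a c => ((H.gd g).sdO_bd a c).2.2.2.1
    obtain ⟨e1, e2⟩ := I.e g x hx i hi
    rw [H.Eh_eq, add_sub_right_comm, La_succ _ _ _ _ _ _ _ _ r1 (Nat.zero_le _)]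
    refine ⟨eb2_add e1 t1 fun a c => ?_, fun j => row (e2 j) (t2 j)⟩
    have z := (Zder.nz_le (H.gd0 g) a c).1
    have z1 : (nzn B.N k r : ℝ) ≤ nzn B.N k (r + 1) := Nat.cast_le.2 (nzn_le _ _ _)
    simp only [Matrix.add_apply, Matrix.smul_apply, smul_eq_mul]
    by_cases hd : B.deep g
    · by_cases hm : k = mid B.N
      · have z2 : (nzn B.N k (r + 1) : ℝ) = nzn B.N k r + 1 := by
          rw [hm, nzn_mid _ r1]; push_cast; rfl
        simp only [if_pos hd, if_pos (And.intro hm hd), z2, Matrix.smul_apply, smul_eq_mul]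
        exact le_of_eq (by ring)
      · simp only [if_pos hd, if_neg (mt And.left hm), Matrix.smul_apply, smul_eq_mul,
          Matrix.zero_apply]
        nlinarith
    · simp only [if_neg hd, if_neg (mt And.right hd), Matrix.zero_apply]
      exact le_of_eq (by ring)
  · have hm : k ≠ mid B.N := by have := b.mid_lt; omega
    obtain ⟨t1, t2⟩ := H.inc hx hi (M := (B.c g k).sdL)
      (fun g' n a c => (Bk.sd_le H.fo b n H.hk.le a c).2 hk) fun _ _ => le_rfl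
    obtain ⟨e1, e2⟩ := I.el hk g x hx i hi
    obtain ⟨n1, n2, -⟩ := H.no_noise hm x
    rw [n1, n2, add_zero, sub_zero] at t1 t2
    rw [if_neg (mt And.left hm), add_zero] at t1
    rw [stp_Zs, jm_add I.sm.1 H.dZ_sm, add_sub_right_comm, hm_add,
      La_succ _ _ _ _ _ _ _ _ r1 (by unfold tm; omega)]
    refine ⟨eb2_add e1 t1 fun a c => ?_, fun j => row (e2 j) (t2 j)⟩
    simp only [Matrix.smul_apply, smul_eq_mul]
    exact le_of_eq (by ring)
  · have h1 := I.dz j hj g x hx i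
    have h2 := H.Up_vec (bx_mono H.D0 (by norm_num) hx) (g0 := g) le_rfl i
    have h3 : 0 ≤ (B.c g k).hs i := ((H.gd g).hs_pos i).le
    have h4 := mul_le_mul_of_nonneg_right (q_path b) h3
    rw [hs_scale B g hj] at h2 h4
    rw [stp_Z, ph_succ]
    show |((B.fr g).Q⁻¹ *ᵥ (B.Z s x + dZ B r o x - s.zt j x)) i| ≤ _
    rw [add_sub_right_comm, mulVec_add, Pi.add_apply]
    refine (abs_add_le _ _).trans ((add_le_add h1 h2).trans ?_)
    have e : pq B.N * √(pJ B.N) * (B.c g j).hs i * (ph j k r + 1 / 9 / 2 ^ (k - j)) =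
        pq B.N * √(pJ B.N) * (B.c g j).hs i * ph j k r +
          pq B.N * √(pJ B.N) * ((B.c g j).hs i / 2 ^ (k - j)) / 9 := by ring
    linarith
  · refine ((CBl.add (fun _ => zero_le_one) ((hat_sm _ I.sm.1).coord i)
      ((hatv_sm _ H.dZ_sm).coord i) (I.d2 g i)
      ((H.dZ_co g i).monoU (RX_mono _ H.D0.le (by norm_num)))).monoB (le_of_eq ?_)).congr_fun
      fun y => ?_
    · push_cast; ring
    · rw [stp_Zs, hat_add, Pi.add_apply]
  · have e : ∀ y, (B.fr g).hm ((B.stp ρ k r s ch o f').Nth ((B.fr g).xp y) +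
        (B.stp ρ k r s ch o f').Neq ((B.fr g).xp y)) i j =
        (B.fr g).hm (s.Nth ((B.fr g).xp y) + s.Neq ((B.fr g).xp y)) i j + (B.fr g).hm
          (dTh B r o ((B.fr g).xp y) + dEq B ρ k r s ch o ((B.fr g).xp y)) i j := fun y => by
      simp only [stp_Nth, stp_Neq]
      rw [← Matrix.add_apply, ← hm_add, add_add_add_comm]
    by_cases hm : k = mid B.N
    · have P := H.inv.ip.sm
      refine ((CBl.add (fun _ => zero_le_one) (smM_hm _ ((P.1.add P.2).comp (xp_sm _)) i j)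
        (smM_hm _ ((H.dTh_sm.add H.dEq_sm).comp (xp_sm _)) i j) (I.dn g i j)
        ((H.dN_co g i j).monoU (RX_mono _ H.D0.le (by norm_num)))).monoB (le_of_eq ?_)).congr_fun e
      rw [hm, nzn_mid _ r1]
      push_cast; ring
    · rw [nzn_ne hm (r + 1) r]
      refine CBl.congr_fun (I.dn g i j) fun y => ?_
      rw [e, (H.no_noise hm _).1, (H.no_noise hm _).2.1, add_zero, hm_zero, Matrix.zero_apply,
        add_zero]
end Hy
end Ug

theorem mz (h : ZderStmt) : MzStmt := by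
  filter_upwards [h, ev_big] with N hz hN B hB ρ k r s ch o f' H
  subst hB
  have Z := hz B rfl ρ k r s H.ok.toOk0 H.hk (by have := H.hr.2; omega) H.inv.il H.inv.iz H.inv.ip
    H.inv.iq
  exact Ug.Hy.iz ⟨H, hN⟩ ⟨Z.1, fun g x hx => (Z.2 g x hx).2.2.2.1⟩ f'

end
end Pool.Agent.MP_20bec2_an.T3

end MrgPart3

-- marker of a merged file
example : 731051 + 151134 = 731051 + 151134 := rfl

end MrgPart1

-- ======== part 2: formerly Pool.Agent.MP_20bec2_an.T3.TfbC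
section MrgPart2

-- ======== part 0: formerly Pool.Agent.MP_20bec2_an.T3.TfbB
section MrgPart0

set_option autoImplicit false
open MeasureTheory Set Filter Matrix

namespace Pool.Agent.MP_20bec2_an.T3
noncomputable section
open Classical

namespace TfbP

lemma conj_eq {O : Mx} (hO : Orth O) (N : ℕ) (G : Mx) :
    Vf N (O * G * Oᵀ) = Vf N G ∧ tt N (O * G * Oᵀ) = tt N G := by
  obtain ⟨h1, h2⟩ := FvP.cyc G Oᵀ
  rw [transpose_transpose, Prof.orth_t_mul hO, Matrix.mul_one] at h1 h2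
  have h3 : tt N (O * G * Oᵀ) = tt N G := by simp only [tt, Lam, aa, h1, h2]
  exact ⟨by simp only [Vf, aa, h2, h3], h3⟩

lemma bm_mono {a b c a' b' c' : ℝ} (ha : a ≤ a') (hb : b ≤ b') (hc : c ≤ c') (i j : Fin 3) :
    bm a b c i j ≤ bm a' b' c' i j := by
  fin_cases i <;> fin_cases j <;> first | exact ha | exact hb | exact hc

lemma e01 {E : Mx} {e : ℝ} (h : EB E (cm e)) (he : e ≤ 1) :
    |((1 + E) * (1 + E)ᵀ : Mx) 0 1| ≤ 5 * e := by
  have b : ∀ i j, |E i j| ≤ e := h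
  have e0 : 0 ≤ e := (abs_nonneg _).trans (b 0 0)
  have m : ∀ i j k l, |E i j * E k l| ≤ e := fun i j k l => by
    rw [abs_mul]
    exact (mul_le_mul (b i j) ((b k l).trans he) (abs_nonneg _) e0).trans (mul_one e).le
  have e1 : ((1 + E) * (1 + E)ᵀ : Mx) 0 1 =
      E 1 0 + E 0 1 + E 0 0 * E 1 0 + E 0 1 * E 1 1 + E 0 2 * E 1 2 := by
    simp [Matrix.mul_apply, Fin.sum_univ_three, Matrix.one_apply]; ring
  rw [e1, abs_le]
  have := abs_le.1 (b 1 0); have := abs_le.1 (b 0 1); have := abs_le.1 (m 0 0 1 0)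
  have := abs_le.1 (m 0 1 1 1); have := abs_le.1 (m 0 2 1 2)
  constructor <;> linarith

/-- the potential of the frame against the potential of the true Gram matrix -/
lemma cr_ev : ∀ᶠ N : ℕ in atTop, ∀ c : Pm, c.N = N → c.Ok → ∀ E Df : Mx, EB2 E c.e0 →
    EB E (cm (c.zT / 4)) → |Df.det - 1| ≤ 1 / 10 →
    EB ((Df * dg3 c.c1 c.c2 (c.n12 / Df.det))ᵀ * (Df * dg3 c.c1 c.c2 (c.n12 / Df.det)) - c.gref)
      (bm (cg0 N) c.B1 (1 / pJ N)) →
    |c.VG - Vf N ((1 + E)ᵀ * (Dfᵀ * Df) * (1 + E))| ≤ 1 / c.q ∧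
      |c.t - tt N ((1 + E)ᵀ * (Dfᵀ * Df) * (1 + E))| ≤ 1 / (c.q * pR N) := by
  filter_upwards [nc psi, fv psi, ev_big] with N hn hf hb c hc ok E Df e1 e2 hd hg
  subst hc
  have h : Gd c := ⟨hb, ok⟩
  obtain ⟨n1, n2⟩ := hn c rfl ok
  obtain ⟨a1, a2, a3, -, a5, a6, a7⟩ := small_le hb
  have eq : pq c.N = c.q := rfl
  rw [eq] at a1 a2 a3 a5 a6 a7
  have hq := h.q_pos
  have hR := hb.R_pos
  have hη := h.η_pos
  have u0 : 0 < 1 / (c.q ^ 2 * pR c.N) := by positivity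
  have z1 := zT_le h
  have z2 := zT_le' h
  have z3 := h.zT_pos
  have k : |c.V2 E - c.VG| ≤ 1 / c.q ^ 2 ∧ |c.t2f E - c.t| ≤ 1 / (c.q ^ 2 * pR c.N) ∧
      |((1 + E) * (1 + E)ᵀ : Mx) 0 1| ≤ √c.η * c.K / c.q ^ 2 := by
    by_cases hS : etaS c.N / 2 ≤ c.η
    · have e : c.zT = 2 * nu c.N := if_pos hS
      have hν := hb.nu_pos
      obtain ⟨k1, k2⟩ := n2 hS E fun i j _ => (e2 i j).trans (show c.zT / 4 ≤ 4 * nu c.N by linarith)
      have l1 := hb.np_le (show (-2 / 5 : ℝ) ≤ -1 / 5 by norm_num)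
      have l2 := hb.np_le (show (-21 / 100 : ℝ) ≤ -1 / 5 by norm_num)
      have l3 := hb.np_pos (-1 / 5)
      exact ⟨by linarith, by linarith,
        (e01 e2 (by linarith)).trans (by linarith [nu_η h hS])⟩
    · have p := h.p_pos
      obtain ⟨-, -, k1, k2, k3⟩ := n1 (deep_of h (not_le.1 hS)) E 0 0 0
        (fun i j hi => (e1 i j hi).trans (by linarith [(h.e0_bd i j).1, (h.e0_bd i j).2]))
        (fun i j _ => by
          have := (hb.np_pos (-10)).le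
          fin_cases i <;> fin_cases j <;> simpa [cm] using this)
        (by simpa using p.le) (by have := h.J_pos; simp only [ne_eq, OfNat.ofNat_ne_zero,
          not_false_eq_true, zero_pow]; positivity)
      rw [add_zero] at k1 k2 k3
      exact ⟨k1, k2, k3⟩
  obtain ⟨k1, k2, k3⟩ := k
  have hJ : 1 / pJ c.N ≤ 1 / 5 :=
    one_div_le_one_div_of_le (by norm_num) (by linarith [BarrP.J_big hb])
  have hs : 0 < 1 / √c.J := by have := h.J_pos; positivity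
  obtain ⟨f1, f2, f3⟩ := hf c rfl ok E Df
    (GeoP.eb_mono e2 (by rw [show 2 / √c.J = 2 * (1 / √c.J) by ring]; linarith)) k2 k3 hd _ rfl
    (fun i j => (hg i j).trans
      (bm_mono (cg0_gb h) (by linarith [h.B1_le_hc, h.B1_pos]) hJ i j))
  have g00 : _ ≤ cg0 c.N := hg 0 0
  have g01 : _ ≤ cg0 c.N := hg 0 1
  have g11 : _ ≤ cg0 c.N := hg 1 1
  generalize (Df * dg3 c.c1 c.c2 (c.n12 / Df.det))ᵀ * (Df * dg3 c.c1 c.c2 (c.n12 / Df.det)) -
    c.gref = g at f1 f2 f3 g00 g01 g11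
  have c0 := hb.cg0_pos
  have q1 : 1 ≤ c.q := by have : 10000000 ≤ c.q := hb.q_ge; linarith
  have l1 := hb.np_le (show (-13 / 10 : ℝ) ≤ -1 / 5 by norm_num)
  have l2 := hb.np_le (show (-21 / 100 : ℝ) ≤ -1 / 5 by norm_num)
  have s1 : (|g 0 0| + |g 0 1|) / c.q ≤ 2 * cg0 c.N :=
    (div_le_self (by positivity) q1).trans (by linarith)
  have q2 : 0 < 1 / c.q ^ 2 := by positivity
  have ga := abs_le.1 g00
  rw [abs_le] at f1 k1 k2
  refine ⟨abs_le.2 ⟨by linarith [f1.2], by linarith [f1.1]⟩, ?_⟩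
  by_cases hS : c.η < etaS c.N
  · have f4 := abs_le.1 (f2 hS)
    have s2 : (|g 0 0| + |g 0 1|) / (c.q * c.η) ≤ 2 * (cg0 c.N / c.η) := by
      rw [← div_div, ← mul_div_assoc]; gcongr
    have s3 : |g 0 0 / (2 * c.η)| ≤ cg0 c.N / c.η := by
      rw [abs_div, abs_of_pos (show 0 < 2 * c.η by positivity)]
      exact div_le_div₀ c0.le g00 hη (by linarith)
    have s4 := abs_le.1 s3
    have s5 := cg0_η h
    exact abs_le.2 ⟨by linarith [f4.2], by linarith [f4.1]⟩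
  · have f4 := abs_le.1 (f3 (by linarith [hb.etaS_pos]))
    exact abs_le.2 ⟨by linarith [f4.2], by linarith [f4.1]⟩

lemma gm_eq {F : Fr} (hO : Orth F.O) (hQ : F.Q.det ≠ 0) (M A : Mx) :
    Mᵀ * (Aᵀ * A) * M = F.O * ((1 + (F.hm M - 1))ᵀ * ((A * F.Q)ᵀ * (A * F.Q)) *
      (1 + (F.hm M - 1))) * F.Oᵀ := by
  have u : IsUnit F.Q.det := hQ.isUnit
  have e : A * F.Q * (1 + (F.hm M - 1)) = A * M * F.O := by
    rw [add_sub_cancel, Fr.hm, Matrix.mul_assoc A, ← Matrix.mul_assoc F.Q, ← Matrix.mul_assoc F.Q,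
      Matrix.mul_nonsing_inv _ u, Matrix.one_mul, Matrix.mul_assoc]
  have e2 : (1 + (F.hm M - 1))ᵀ * ((A * F.Q)ᵀ * (A * F.Q)) * (1 + (F.hm M - 1)) =
      (A * M * F.O)ᵀ * (A * M * F.O) := by
    rw [← e, transpose_mul (A * F.Q)]
    simp only [Matrix.mul_assoc]
  rw [e2]
  simp only [transpose_mul, Matrix.mul_assoc, hO.1, Matrix.mul_one]
  rw [← Matrix.mul_assoc F.O, hO.1, Matrix.one_mul]

/-- the frame parameters describe the Gram matrix at the start of the block -/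
lemma cr_blk : EvB fun B => ∀ ρ : V → ℝ, B.Ok0 ρ → Sm B.f0 → Function.Injective B.f0 → ∀ g,
    ∀ x ∈ B.bx g 1, |jac ((B.fr g).fh B.f0) ((B.fr g).zc (B.Z0 x)) - 1| ≤ 1 / 10 →
    |(B.c g 0).VG - Vf B.N (Gm B.Zs0 B.Z0 B.f0 x)| ≤ 1 / pq B.N ∧
      |(B.c g 0).t - tt B.N (Gm B.Zs0 B.Z0 B.f0 x)| ≤ 1 / (pq B.N * pR B.N) := by
  filter_upwards [cr_ev] with N hc B hB ρ ok sm inj g x hx hj
  subst hB
  have G := ok.geo.toFrOk
  have hO := GeoP.orth G g
  have hQ := GeoP.det_ne G g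
  have e1 : B.oh g B.f0 x = (B.fr g).zc (B.Z0 x) := by
    rw [Bk.oh, Bk.lab, Function.leftInverse_invFun inj]
  have e2 : jm ((B.fr g).fh B.f0) ((B.fr g).zc (B.Z0 x)) = jm B.f0 (B.Z0 x) * (B.fr g).Q := by
    rw [(K3.p4 _ (sm.differentiable (by simp)) _).1, Prof.zp_zc hQ]
  have g0 := ok.g0 g x hx
  rw [Bk.ga, e1] at g0
  have k := hc (B.c g 0) rfl (G.fx g).2.2.2.2.2 (B.E0 g x)
    (jm ((B.fr g).fh B.f0) ((B.fr g).zc (B.Z0 x))) (ok.e0 g x hx).1 (ok.e0 g x hx).2 hj g0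
  have e3 : Gm B.Zs0 B.Z0 B.f0 x = _ := gm_eq hO hQ (jm B.Zs0 x) (jm B.f0 (B.Z0 x))
  rw [e3, (conj_eq hO _ _).1, (conj_eq hO _ _).2, ← e2]
  exact k

end TfbP

end
end Pool.Agent.MP_20bec2_an.T3

end MrgPart0

-- ======== part 1: formerly Pool.Agent.MP_20bec2_an.T3.TfbC
section MrgPart1

set_option autoImplicit false
open MeasureTheory Set Filter Matrix

namespace Pool.Agent.MP_20bec2_an.T3
noncomputable section
open Classical

namespace TfbP

lemma hm_sub (F : Fr) (A C : Mx) : F.hm (A - C) = F.hm A - F.hm C := by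
  simp only [Fr.hm, Matrix.mul_sub, Matrix.sub_mul]

lemma nth_eq (n θ : ℝ) : (!![n, 0, θ; 0, 0, 0; 0, 0, 0] : Mx) = θ • E02 + n • E00 := by
  ext i j
  fin_cases i <;> fin_cases j <;> simp [E02, E00, dg3]

variable {B : Bk} {ρ : V → ℝ} {k r : ℕ} {s : St}

lemma site (hb : Big B.N) (G : FrOk B.N B.lb B.fr) (x : V) : ∃ i, B.NS i x := by
  have h : 0 < B.hsp := mul_pos (hb.np_pos _) (GeoP.lb_pos G)
  obtain ⟨i, hi⟩ := Prof.exists_box h x
  exact ⟨i, le_trans hi (by linarith)⟩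

/-- the matrix of the lateral map at the start of the band `ks` -/
def Ek (B : Bk) (s : St) (g : Cu) (x : V) : Mx :=
  (B.fr g).hm (jm (fun w => s.zt (ks B.N) w - B.Zt w) x) - 1

lemma one_le_N (hb : Big B.N) : 1 ≤ B.N := by
  have := hb.N_pos
  exact_mod_cast this

lemma tab1 (hb : Big B.N) (G : FrOk B.N B.lb B.fr) (hk : k < nb B.N) (hr : r ≤ 9)
    (hks : ks B.N ≤ k) (iz : B.IZ k r s)
    (hL : ∀ i a, La s.xs a (tm k r) i ≤ qp B.N (1 / 5) * pJ B.N) {g : Cu} {x : V}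
    (hx : x ∈ B.bx g 1)
    (hz : EB ((B.fr g).hm (jm s.Zs x) - 1) (cm (9 / 10 * (B.c g k).zT))) :
    EB (Ek B s g x) (cm (B.c g 0).zT) := fun i j => by
  obtain ⟨a, ha⟩ := site hb G x
  obtain ⟨e1, e2⟩ := iz.el hks g x hx a ha
  have h := Bk.gd G hb g hk.le
  have e : Ek B s g x = ((B.fr g).hm (jm s.Zs x) - 1) -
      (B.fr g).hm (jm s.Zs x - jm (fun w => s.zt (ks B.N) w - B.Zt w) x) := by
    rw [hm_sub, Ek]; abel
  have d : |(B.fr g).hm (jm s.Zs x - jm (fun w => s.zt (ks B.N) w - B.Zt w) x) i j| ≤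
      (B.c g k).zT / 10 := by
    by_cases hi : i = 2
    · subst hi
      exact (e2 j).trans (row_le h (hb.cnt_le hk hr))
    · exact (e1 i j hi).trans (dE_le h (hL a _) i j)
  have z : _ ≤ 9 / 10 * (B.c g k).zT := hz i j
  rw [e, Matrix.sub_apply]
  refine (abs_sub _ _).trans ?_
  show _ ≤ (B.c g k).zT
  linarith

lemma tab2 (hb : Big B.N) (ok : B.Ok0 ρ) (hk : k < nb B.N) (hks : ks B.N ≤ k) (iz : B.IZ k r s)
    (ip : B.IP k r s) (hL : ∀ i a, La s.xs a (tm k r) i ≤ qp B.N (1 / 5) * pJ B.N) {g : Cu} {x : V}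
    (hx : x ∈ B.bx g (98 / 100)) (hη : (B.c g 0).η < etaS B.N / 2) :
    ∃ (Et : Mx) (n θ : ℝ), EB2 Et (B.c g 0).eT ∧
      EB2 (Ek B s g x - Et - !![n, 0, θ; 0, 0, 0; 0, 0, 0]) (cm (np B.N (-10))) ∧
      |n| ≤ 3 * (θ ^ 2 + (B.c g 0).p) ∧ θ ^ 2 ≤ (B.c g 0).q * (B.c g 0).J * (B.c g 0).p := by
  have G := ok.geo.toFrOk
  have hD : 0 < B.D := GeoP.D_pos G (one_le_N hb)
  have hx1 : x ∈ B.bx g 1 := Prof.box_mono hD.le (by norm_num) g hx
  have h := Bk.gd G hb g hk.le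
  have h0 := Bk.gd0 G hb g
  have dp : B.deep g := deep_of h0 hη
  have mk : mid B.N < k := (j0_lt hb).2.2.trans_le hks
  have nz : nzn B.N k r = 8 := by rw [nzn, if_neg (by omega), if_neg (by omega)]
  obtain ⟨a, ha⟩ := site hb G x
  obtain ⟨e1, -⟩ := iz.el hks g x hx1 a ha
  obtain ⟨e2, -⟩ := iz.e g x hx1 a ha
  obtain ⟨e3, -⟩ := ok.e0 g x hx1
  obtain ⟨q1, q2⟩ := ip.nq g dp x hx
  obtain ⟨y1, y2⟩ := ip.yv g dp x hx1
  have hp := h0.p_pos
  refine ⟨B.Eh s g x - (B.fr g).hm (jm s.Zs x - jm (fun w => s.zt (ks B.N) w - B.Zt w) x),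
    1 / 4 * pd 0 (B.Pq s.Pv g) ((B.fr g).xc x) * ((B.fr g).hm (s.Nth x) 0 2 ^ 2 - s.Yv x),
    (B.fr g).hm (s.Nth x) 0 2, fun i j hi => ?_, fun i j _ => ?_, ?_, ?_⟩
  · obtain ⟨fS, fB, -⟩ := h0.deep_flags dp
    have b1 := e1 i j hi
    have b2 := e2 i j hi
    have b3 := e3 i j hi
    have c1 : (B.c g k).sdL = (B.c g 0).sdB := if_pos fB
    have c2 : (B.c g k).sdO = (B.c g 0).sdB := sdO_eq h hη
    rw [c1] at b1
    rw [c2, if_pos dp, nz] at b2
    rw [Pm.e0, if_pos fS] at b3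
    rw [Pm.eT, if_pos fS, sdO_eq h0 hη]
    simp only [Matrix.smul_apply, Matrix.add_apply, Matrix.sub_apply, smul_eq_mul] at b1 b2 b3 ⊢
    have n1 := nz_le h0 i j
    have n2 := (h0.sdB_bd i j).1
    have n3 : ∀ b, √(pq B.N) * La s.xs b (tm k r) a * (B.c g 0).sdB i j ≤
        (B.c g 0).q ^ 3 * (B.c g 0).J * (B.c g 0).sdB i j / 4 := fun b => by
      have m1 := mul_le_mul_of_nonneg_left (hL a b) hb.sqrtq_pos.le
      have m2 : 4 * (√(pq B.N) * (qp B.N (1 / 5) * pJ B.N)) ≤ (B.c g 0).q ^ 3 * (B.c g 0).J :=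
        qJ7 hb
      have m3 := mul_le_mul_of_nonneg_right (show √(pq B.N) * La s.xs b (tm k r) a ≤
        (B.c g 0).q ^ 3 * (B.c g 0).J / 4 by linarith) n2
      linarith
    have n4 := n3 0
    have n5 := n3 (8 * ks B.N)
    have n6 : 0 ≤ (B.c g 0).q ^ 3 * (B.c g 0).J * (B.c g 0).sdB i j := by
      have := h0.q_pos; have := h0.J_pos; positivity
    rw [abs_le] at b1 b2 b3 ⊢
    push_cast at b2
    constructor <;> linarith [b1.1, b1.2, b2.1, b2.2, b3.1, b3.2]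
  · have e : Ek B s g x - (B.Eh s g x -
        (B.fr g).hm (jm s.Zs x - jm (fun w => s.zt (ks B.N) w - B.Zt w) x)) -
        !![1 / 4 * pd 0 (B.Pq s.Pv g) ((B.fr g).xc x) * ((B.fr g).hm (s.Nth x) 0 2 ^ 2 - s.Yv x), 0,
          (B.fr g).hm (s.Nth x) 0 2; 0, 0, 0; 0, 0, 0] =
        ((B.fr g).hm (s.Nth x) - (B.fr g).hm (s.Nth x) 0 2 • E02) +
        ((B.fr g).hm (s.Neq x) - (1 / 4 * pd 0 (B.Pq s.Pv g) ((B.fr g).xc x) *
          ((B.fr g).hm (s.Nth x) 0 2 ^ 2 - s.Yv x)) • E00) := by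
      rw [nth_eq, Ek, Bk.Eh, hm_sub, hm_sub, hm_sub]; abel
    rw [e]
    refine (GeoP.eb_add q1 q2 i j).trans ?_
    show _ + _ ≤ np B.N (-10)
    rw [nz]
    push_cast
    linarith [n15 hb]
  · have xm : (B.fr g).xc x ∈ RX (B.fr g).O (Dd B.N B.lb) (99 / 100) :=
      (GeoP.xc_mem G).2 (Prof.box_mono hD.le (by norm_num) g hx)
    obtain ⟨-, p1, p2, -⟩ := ((ip.psh (Or.inl mk)).pqs g dp).1.2.1 _ xm
    have hS : |∑ᶠ g', if col g' < nzn B.N k r ∧ (B.c g' 0).push then al B.D g' x ^ 2 else 0| ≤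
        8 * 1 := ((Glue.sup_al_sq hD).map
      (ψ := fun g' w => if col g' < nzn B.N k r ∧ (B.c g' 0).push then al B.D g' w ^ 2 else 0)
      fun g' w h0 => by simp only [h0, ite_self]).abs_le (by norm_num) zero_le_one fun g' _ => by
        split_ifs
        · rw [abs_of_nonneg (sq_nonneg _)]
          exact pow_le_one₀ (Prof.al_nonneg _ _ _) (Prof.al_le_one _ _ _)
        · simp
    generalize (∑ᶠ g', if col g' < nzn B.N k r ∧ (B.c g' 0).push then al B.D g' x ^ 2 else 0) = S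
      at hS y1 y2
    rw [nz] at y1 y2
    push_cast at y1 y2
    rw [abs_le] at hS
    have m := n4 hb
    have y3 : -(B.c g 0).p ≤ s.Yv x := le_trans (by nlinarith) y1
    have y4 : s.Yv x ≤ (B.c g 0).p := y2.trans (by nlinarith)
    have y5 : |(B.fr g).hm (s.Nth x) 0 2 ^ 2 - s.Yv x| ≤
        (B.fr g).hm (s.Nth x) 0 2 ^ 2 + (B.c g 0).p :=
      abs_le.2 ⟨by nlinarith [sq_nonneg ((B.fr g).hm (s.Nth x) 0 2)], by linarith⟩
    have y6 : |1 / 4 * pd 0 (B.Pq s.Pv g) ((B.fr g).xc x)| ≤ 3 := abs_le.2 ⟨by linarith, by linarith⟩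
    rw [abs_mul]
    exact mul_le_mul y6 y5 (abs_nonneg _) (by norm_num)
  · have t := ip.th g dp 0 2 [] (by simp) _ ((GeoP.xc_mem G).2 hx1)
    simp only [pds, T3.hp, List.map_nil, List.prod_nil, one_mul,
      Prof.xp_xc (GeoP.orth G g), nz] at t
    rw [← sq_abs]
    refine le_trans (pow_le_pow_left₀ (abs_nonneg _) (t.trans (le_of_eq ?_)) 2) (th_sq hb hp.le)
    push_cast; ring

/-- the entries `(i, 2)` shortly before the band `ks` -/
lemma late (hb : Big B.N) (ok : B.Ok0 ρ) (hk : k < nb B.N) (hr : r ≤ 9) (hks : ks B.N ≤ k)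
    (iF : B.IF ρ k r s)
    (hS : ∀ i a, SA B.N (bB B.N) s.xs a (tm k r) i ≤
      √(bB B.N * (tm k r - a : ℕ) * (qp B.N (1 / 5) * pJ B.N) / B.N))
    {g : Cu} {x : V} (hx : x ∈ B.bx g 1) (hB : (B.c g 0).oB) {i : Fin 3} (hi : i ≠ 2) :
    |B.ga g (s.ft (ks B.N - el B.N)) x i 2| ≤
      2 * (B.c g 0).B1 + 9 * √((B.c g 0).η * (B.c g 0).p) := by
  have G := ok.geo.toFrOk
  have h0 := Bk.gd0 G hb g
  obtain ⟨a, ha⟩ := site hb G x
  have eb : ∀ u v w : ℝ, bm u v w i 2 = v := fun u v w => by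
    fin_cases i
    exacts [rfl, rfl, absurd rfl hi]
  have key : ∀ j, pq B.N * SA B.N (B.c g 0).bbO s.xs (8 * j) (tm k r) a +
      (cnt k r - 9 * j : ℕ) * sm B.N ≤ (B.c g 0).B1 / 2 := fun j => by
    have u1 : ((tm k r - 8 * j : ℕ) : ℝ) ≤ 1072 * pJ B.N :=
      le_trans (by exact_mod_cast Nat.sub_le _ _) (hb.tm_le hk hr)
    have u2 : ((cnt k r - 9 * j : ℕ) : ℝ) ≤ 1206 * pJ B.N :=
      le_trans (by exact_mod_cast Nat.sub_le _ _) (hb.cnt_le hk hr)
    have := hb.bB_pos; have := hb.qp_pos (1 / 5); have := hb.J_pos; have := hb.N_pos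
    have u3 : SA B.N (bB B.N) s.xs (8 * j) (tm k r) a ≤
        √(bB B.N * (1072 * pJ B.N) * (qp B.N (1 / 5) * pJ B.N) / B.N) :=
      (hS a _).trans (by gcongr)
    have u4 := mul_le_mul_of_nonneg_left u3 hb.q_pos.le
    have u5 := mul_le_mul_of_nonneg_right u2 hb.sm_pos.le
    have u6 : fr0 B.N ≤ (B.c g 0).B1 := h0.B1_ge.1
    rw [show (B.c g 0).bbO = bB B.N from if_pos hB]
    linarith [sa_le hb, sm_le hb]
  have E0 : ∀ (P : Prop) [Decidable P] (u : ℝ), (if P then u • E00 else 0 : Mx) i 2 = 0 :=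
    fun P _ u => by
      split_ifs
      · simp [E00, dg3, Matrix.diagonal_apply_ne _ hi]
      · rfl
  have r0 := iF.ig.rel 0 (Nat.zero_le _) g x hx a ha i 2
  have r1 := iF.ig.rel (ks B.N - el B.N) ((j0_lt hb).2.1.trans hks) g x hx a ha i 2
  have g0 := ok.g0 g x hx i 2
  have nc : ¬B.crs g (ks B.N - el B.N) k r := fun e => absurd e.1 (not_le.2 (j0_lt hb).1)
  have la : (if B.crs g 0 k r then (B.c g 0).LA else 0 : Mx) i 2 ≤
      9 * √((B.c g 0).η * (B.c g 0).p) := by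
    split_ifs
    · fin_cases i
      exacts [le_rfl, le_rfl, absurd rfl hi]
    · show (0 : ℝ) ≤ _
      positivity
  have gr : (B.c g 0).gref i 2 = 0 := Matrix.diagonal_apply_ne _ hi
  simp only [Matrix.sub_apply, Matrix.add_apply, E0, eb, gr, sub_zero] at r0 r1 g0
  rw [if_neg nc, Matrix.zero_apply] at r1
  rw [iF.fk.1] at r0
  have k0 := key 0
  have k1 := key (ks B.N - el B.N)
  rw [abs_le] at r0 r1 g0 ⊢
  constructor <;> linarith [r0.1, r0.2, r1.1, r1.2, g0.1, g0.2]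

/-- the label of the centre of a new frame -/
lemma pos (hb : Big B.N) (G : B.G) (hk : k < nb B.N) (hr : r ≤ 9) (hks : ks B.N ≤ k)
    (iz : B.IZ k r s) {g : Cu} (hbij : Function.Bijective (B.oh g (s.ft (ks B.N))))
    (hback : ∀ x, B.oh g (s.ft (ks B.N)) x ∈ B.R g (94 / 100) → x ∈ B.bx g (94 / 100 + 1 / 500))
    (hl : ∀ x ∈ B.bx g 1,
      ‖B.oh g (s.ft (ks B.N)) x - (B.fr g).zc (B.Z0 x)‖ ≤ np B.N (23 / 10) * B.lb)
    {x : V} (hx : x ∈ B.bx g (9 / 10))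
    (z1 : ‖(B.fr g).Q⁻¹ *ᵥ (B.Z s x - B.Z0 x)‖ ≤ np B.N (6 / 5) * B.lb) :
    ∃ x' ∈ B.bx g (95 / 100), B.lab (s.ft (ks B.N)) x' = s.zt (ks B.N) x ∧
      ‖x' - x‖ ≤ (B.N : ℝ) ^ 3 * B.lb := by
  have G' : Geo B.N B.lb B.fr B.Z0 := G
  have F := G'.toFrOk
  have hl0 := GeoP.lb_pos F
  have hD : 0 < B.D := GeoP.D_pos F (one_le_N hb)
  have h := Bk.gd F hb g (hks.trans hk.le)
  obtain ⟨d1, d2, d3, d4⟩ := dz_le hb
  have np0 := hb.np_pos (23 / 10)
  have z2 : ‖(B.fr g).Q⁻¹ *ᵥ (B.Z s x - s.zt (ks B.N) x)‖ ≤ np B.N (23 / 10) * B.lb := by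
    refine (pi_norm_le_iff_of_nonneg (by positivity)).2 fun i => ?_
    refine (iz.dz _ hks g x (Prof.box_mono hD.le (by norm_num) g hx) i).trans ?_
    have p1 : ph (ks B.N) k r ≤ 2 := by
      have r9 : (r : ℝ) ≤ 9 := by exact_mod_cast hr
      have : (r : ℝ) / 9 / 2 ^ (k - ks B.N) ≤ 2 / 2 ^ (k - ks B.N) := by gcongr; linarith
      unfold ph; linarith
    have y1 : (B.c g (ks B.N)).lam ≤ B.lb := h.lam_le_lb
    have y2 : (B.c g (ks B.N)).y ≤ np B.N (11 / 10) * B.lb :=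
      mul_le_mul_of_nonneg_left y1 (hb.np_pos _).le
    have y3 : (B.c g (ks B.N)).l1 ≤ (B.c g (ks B.N)).y := by
      refine mul_le_mul_of_nonneg_right (h.ro_le.trans ?_) h.lam_pos.le
      refine le_of_log hb.sqrtN_pos (hb.np_pos _) ?_
      show Real.log √(B.N : ℝ) ≤ Real.log (np B.N (11 / 10))
      rw [hb.log_sqrtN, hb.log_np]
      linarith [hb.J_pos]
    have p2 : (B.c g (ks B.N)).hs i ≤ np B.N (11 / 10) * B.lb := by
      fin_cases i
      exacts [y3.trans y2, (h.lam_le_l1.trans y3).trans y2, y2]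
    have := hb.q_pos; have := hb.sqrtJ_pos; have := h.hs_pos i
    calc _ ≤ pq B.N * √(pJ B.N) * (B.c g (ks B.N)).hs i * 2 := by gcongr
      _ ≤ pq B.N * √(pJ B.N) * (np B.N (11 / 10) * B.lb) * 2 := by gcongr
      _ = 2 * (pq B.N * √(pJ B.N) * np B.N (11 / 10)) * B.lb := by ring
      _ ≤ _ := by gcongr
  have z3 : ‖(B.fr g).zc (s.zt (ks B.N) x) - (B.fr g).zc (B.Z0 x)‖ ≤
      2 * (np B.N (23 / 10) * B.lb) := by
    have e : (B.fr g).zc (s.zt (ks B.N) x) - (B.fr g).zc (B.Z0 x) =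
        (B.fr g).Q⁻¹ *ᵥ (B.Z s x - B.Z0 x) - (B.fr g).Q⁻¹ *ᵥ (B.Z s x - s.zt (ks B.N) x) := by
      rw [Prof.zc_sub, ← Matrix.mulVec_sub]; congr 1; abel
    rw [e]
    have := mul_le_mul_of_nonneg_right d2 hl0.le
    linarith [norm_sub_le ((B.fr g).Q⁻¹ *ᵥ (B.Z s x - B.Z0 x))
      ((B.fr g).Q⁻¹ *ᵥ (B.Z s x - s.zt (ks B.N) x))]
  have eD : B.D = (B.N : ℝ) ^ 4 * B.lb := rfl
  have d5 := mul_le_mul_of_nonneg_right d4 hl0.le
  have d6 := mul_le_mul_of_nonneg_right d3 hl0.le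
  have m1 : (B.fr g).zc (s.zt (ks B.N) x) ∈ B.R g (94 / 100) :=
    Prof.RX_mono _ hD.le (by norm_num) (Prof.RX_add (GeoP.orth F g) (s := 1 / 100)
      (GeoP.fwd G' (one_le_N hb) (by norm_num) hx) (by
        show _ ≤ 1 / 100 * B.D
        rw [eD]; nlinarith))
  obtain ⟨x', hx'⟩ := hbij.2 ((B.fr g).zc (s.zt (ks B.N) x))
  have m2 := hback x' (by rw [hx']; exact m1)
  refine ⟨x', Prof.box_mono hD.le (by norm_num) g m2, (GeoP.zc_bij F g).1 hx', ?_⟩
  have l1 := (GeoP.lip G' (Prof.box_mono hD.le (by norm_num) g hx)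
    (Prof.box_mono hD.le (by norm_num) g m2)).1
  have l2 := hl x' (Prof.box_mono hD.le (by norm_num) g m2)
  rw [hx', norm_sub_rev] at l2
  have l3 := norm_sub_le_norm_sub_add_norm_sub ((B.fr g).zc (B.Z0 x'))
    ((B.fr g).zc (s.zt (ks B.N) x)) ((B.fr g).zc (B.Z0 x))
  linarith

end TfbP

end
end Pool.Agent.MP_20bec2_an.T3

end MrgPart1

-- marker of a merged file
example : 731051 + 579917 = 731051 + 579917 := rfl

end MrgPart2

-- ======== part 3: formerly Pool.Agent.MP_20bec2_an.T3.Tfb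
section MrgPart3

set_option autoImplicit false
open MeasureTheory Set Filter Matrix

namespace Pool.Agent.MP_20bec2_an.T3
noncomputable section
open Classical

namespace TfbP

lemma T_eq {F : Fr} (hO : Orth F.O) (M O : Mx) :
    (1 + (F.hm M - 1)) * (F.Oᵀ * O) = F.Q⁻¹ * (M * O) := by
  rw [add_sub_cancel]
  simp only [Fr.hm, Matrix.mul_assoc]
  rw [← Matrix.mul_assoc F.O, hO.1, Matrix.one_mul]

lemma gram_eq {Q : Mx} (hQ : Q.det ≠ 0) (A P : Mx) :
    (Q⁻¹ * P)ᵀ * ((A * Q)ᵀ * (A * Q)) * (Q⁻¹ * P) = Pᵀ * (Aᵀ * A) * P := by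
  have e : A * Q * (Q⁻¹ * P) = A * P := by
    rw [Matrix.mul_assoc, ← Matrix.mul_assoc Q, Matrix.mul_nonsing_inv _ hQ.isUnit, Matrix.one_mul]
  calc _ = (A * Q * (Q⁻¹ * P))ᵀ * (A * Q * (Q⁻¹ * P)) := by
        rw [transpose_mul (A * Q)]; simp only [Matrix.mul_assoc]
    _ = _ := by rw [e, transpose_mul]; simp only [Matrix.mul_assoc]

lemma gsym (A : Mx) (i j : Fin 3) : (Aᵀ * A) i j = (Aᵀ * A) j i := by
  simp only [Matrix.mul_apply, Matrix.transpose_apply, mul_comm]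

lemma gpos {A : Mx} (hA : A.det ≠ 0) (v : V) (hv : v ≠ 0) : 0 < v ⬝ᵥ ((Aᵀ * A) *ᵥ v) := by
  rw [← Matrix.mulVec_mulVec, Matrix.dotProduct_mulVec, Matrix.vecMul_transpose]
  have h1 : A *ᵥ v ≠ 0 := fun e => hv (Matrix.eq_zero_of_mulVec_eq_zero hA e)
  exact (pow_pos (norm_pos_iff.2 h1) 2).trans_le (K3.sq_le_dot _)

lemma eb_tab {c : Pm} {A : Mx} {h : ℝ} (hs : ∀ i j, A i j = A j i)
    (h1 : EB (A - c.gref) ((1 : ℝ) • bm c.gb (hc c.N) (1 / 10))) (h2 : ∀ i, i ≠ 2 → |A i 2| ≤ h) :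
    EB (A - c.gref) (bm c.gb h (1 / 10)) := fun i j => by
  rw [one_smul] at h1
  have a0 := h2 0 (by decide)
  have a1 := h2 1 (by decide)
  have b := h1 i j
  fin_cases i <;> fin_cases j <;> first
    | exact b
    | simpa [Pm.gref, dg3, bm] using a0
    | simpa [Pm.gref, dg3, bm] using a1
    | simpa [Pm.gref, dg3, bm, hs 2] using a0
    | simpa [Pm.gref, dg3, bm, hs 2] using a1

lemma core (hT : TfStmt) (hZ : ZderStmt) (hL : LabStmt) (hM : MbiStmt) : EvB fun B =>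
    ∀ (ρ : V → ℝ) (k r : ℕ) (s : St), B.H0 ρ k r s → ks B.N ≤ k → (r = 0 ∨ r = 9) → ∀ g,
    ∀ x ∈ B.bx g (9 / 10), (jm (fun w => s.zt (ks B.N) w - B.Zt w) x).det ≠ 0 ∧
    (∀ y, jac (s.ft (ks B.N - el B.N)) y ≠ 0) ∧
    (|(B.c g 0).VG - Vf B.N (Gm B.Zs0 B.Z0 B.f0 x)| ≤ 1 / pq B.N ∧
      |(B.c g 0).t - tt B.N (Gm B.Zs0 B.Z0 B.f0 x)| ≤ 1 / (pq B.N * pR B.N)) ∧
    (∃ x' ∈ B.bx g (95 / 100), B.lab (s.ft (ks B.N)) x' = s.zt (ks B.N) x ∧
      ‖x' - x‖ ≤ (B.N : ℝ) ^ 3 * B.lb ∧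
      ∀ i, i ≠ 2 → |B.ga g (s.ft (ks B.N - el B.N)) x' i 2| ≤ (B.c g 0).hL2) ∧
    ∀ (O : Mx) (s1 s2 σ : ℝ), Orth O → 0 ≤ σ → σ ≤ s1 → s1 ≤ s2 →
      (jm (fun w => s.zt (ks B.N) w - B.Zt w) x * O)ᵀ * gram (s.ft (ks B.N - el B.N))
        (Function.invFun (s.ft (ks B.N - el B.N)) (s.ft (ks B.N) (s.zt (ks B.N) x))) *
        (jm (fun w => s.zt (ks B.N) w - B.Zt w) x * O) = dg3 (s1 ^ 2) (s2 ^ 2) (σ ^ 2) →
      TF (B.c g 0) s1 s2 ((B.fr g).Q⁻¹ * (jm (fun w => s.zt (ks B.N) w - B.Zt w) x * O))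
        ((B.fr g).Oᵀ * O) (B.c g 0).hL2 ∧ 0 < s1 ∧ σ ^ 2 ≤ s1 ^ 2 / 4 := by
  filter_upwards [hT, hZ, hL, hM, ledg, surj, cr_blk, ev_big] with N t z l m ld sj cr hb B hB ρ k r
    s H hks hr g x hx
  subst hB
  obtain ⟨rho, ok, hk, inv⟩ := H
  have ok0 := ok.toOk0
  have G := ok0.geo.toFrOk
  have hr9 : r ≤ 9 := by omega
  have hD : 0 < B.D := GeoP.D_pos G (one_le_N hb)
  have hO := GeoP.orth G g
  have hQ := GeoP.det_ne G g
  have h0 := Bk.gd0 G hb g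
  obtain ⟨j1, j2, j3⟩ := j0_lt hb
  have mb : B.MBs k (2 * eps0) 1 (jac s.f) := by
    rcases hr with rfl | rfl
    · intro g'
      have e1 := (inv.iF.sn k le_rfl).2.2 g'
      rw [inv.iF.fk.2 rfl] at e1
      have e : (B.fr g').den (jac s.f) = jac ((B.fr g').fh s.f) :=
        funext fun w => (K3.p4 _ (inv.iF.smf.1.differentiable (by simp)) w).2.symm
      rw [e]; exact e1
    · rw [show jac s.f = dens ρ (B.Z s) s.Sg from funext inv.iF.smf.2.2]
      exact (m B rfl ρ k 9 s rho ok0 hk (by norm_num) le_rfl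
        ⟨inv.il, inv.iz, inv.ip, inv.is, inv.iq⟩ inv.ir).1
  obtain ⟨-, lab⟩ := l B rfl ρ k r s ok0 hk hr9 inv.il inv.ip.psh inv.iF mb
  have led := ld B rfl k r s G hk hr9 inv.il
  obtain ⟨-, zd⟩ := z B rfl ρ k r s ok0 hk hr9 inv.il inv.iz inv.ip inv.iq
  have hx1 : x ∈ B.bx g 1 := Prof.box_mono hD.le (by norm_num) g hx
  obtain ⟨-, -, z1, -, z2, -⟩ := zd g x hx1
  have hLa : ∀ i a, La s.xs a (tm k r) i ≤ qp B.N (1 / 5) * pJ B.N := fun i a =>
    (led i a _ le_rfl).1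
  have t1 := tab1 hb G hk hr9 hks inv.iz hLa hx1 z1
  have t2 := tab2 hb ok0 hk hks inv.iz inv.ip hLa
    (show x ∈ B.bx g (98 / 100) from Prof.box_mono hD.le (by norm_num) g hx)
  obtain ⟨s0, b0, -⟩ := inv.iF.sn 0 (Nat.zero_le _)
  obtain ⟨-, -, l0⟩ := lab 0 (Nat.zero_le _)
  rw [inv.iF.fk.1] at s0 b0 l0
  obtain ⟨-, dk, lk⟩ := lab _ hks
  obtain ⟨d1, l1⟩ := (lab _ (j2.trans hks)).1 j1
  obtain ⟨sb, sr⟩ := sj B rfl (s.ft (ks B.N)) ok0.geo b0 dk.2.1 (fun g' w hw =>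
    (lk g' w hw).1.trans (mul_le_mul_of_nonneg_right
      (by linarith [(dz_le hb).2.2.1, hb.np_pos (23 / 10)]) (GeoP.lb_pos G).le)) g
  obtain ⟨x', m1, m2, m3⟩ := pos hb ok0.geo hk hr9 hks inv.iz sb
    (fun w => (sr w _ (by norm_num) (by norm_num)).2) (fun w hw => (lk g w hw).1) hx z2
  have m4 : x' ∈ B.bx g 1 := Prof.box_mono hD.le (by norm_num) g m1
  obtain ⟨-, a1, a2, a3, a4, a5, a6, -⟩ := l1 g x' m4
  have a7 : ∀ i, i ≠ 2 → |B.ga g (s.ft (ks B.N - el B.N)) x' i 2| ≤ (B.c g 0).hL2 := fun i hi => by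
    unfold Pm.hL2
    split_ifs with hB
    · exact late hb ok0 hk hr9 hks inv.iF (fun i a => (led i a _ le_rfl).2.1 _ hb.bB_pos.le) m4 hB hi
    · exact (a2 i hi).1
  refine ⟨fun e => ?_, fun y => (d1.2.2 y).ne', cr B rfl ρ ok0 s0 b0.1 g x hx1 ?_,
    ⟨x', m1, m2, m3, a7⟩, fun O s1 s2 σ hO' h1 h2 h3 he => ?_⟩
  · have := GeoP.det_near t1 ((zT_le' h0).trans (by norm_num))
    rw [Ek, add_sub_cancel, Fr.hm, Matrix.det_mul, Matrix.det_mul, e, mul_zero, zero_mul,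
      abs_le] at this
    linarith [this.1, zT_le' h0]
  · have := (l0 g x hx1).2.1
    rw [Bk.oh, Bk.lab, Function.leftInverse_invFun b0.1] at this
    linarith
  · have e1 : s.ft (ks B.N) (s.zt (ks B.N) x) = B.f0 (B.Z0 x') := by
      rw [← m2]; exact Function.rightInverse_invFun dk.2.1.2 _
    have e2 : jm ((B.fr g).fh (s.ft (ks B.N - el B.N))) (B.oh g (s.ft (ks B.N - el B.N)) x') =
        jm (s.ft (ks B.N - el B.N)) (B.lab (s.ft (ks B.N - el B.N)) x') * (B.fr g).Q := by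
      rw [(K3.p4 _ (d1.1.differentiable (by simp)) _).1, Bk.oh, Prof.zp_zc hQ]
    have gr : ∀ i j, i ≠ j → (B.c g 0).gref i j = 0 := fun i j e => Matrix.diagonal_apply_ne _ e
    have k := t (B.c g 0) rfl h0.ok (Ek B s g x)
      (jm ((B.fr g).fh (s.ft (ks B.N - el B.N))) (B.oh g (s.ft (ks B.N - el B.N)) x'))
      ((B.fr g).Oᵀ * O) (B.ga g (s.ft (ks B.N - el B.N)) x' - (B.c g 0).gref) s1 s2 σ (B.c g 0).hL2
      (Prof.orth_mul (Prof.orth_t hO) hO') h1 h2 h3 t1 t2 a6 rfl a3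
      (by rw [Matrix.sub_apply, gr 0 1 (by decide), sub_zero]; exact a4) a5
      (eb_tab (gsym _) a1 a7) (hL2_bd h0).1 (hL2_bd h0).2
      (by rw [Ek, T_eq hO, e2, gram_eq hQ, ← he, e1]; rfl)
    rwa [Ek, T_eq hO] at k

end TfbP

open TfbP in
theorem tfb (hS : SvdStmt) (hT : TfStmt) (hZ : ZderStmt) (hL : LabStmt) (hM : MbiStmt) :
    TfbStmt := by
  filter_upwards [core hT hZ hL hM, ev_big] with N hc hb B hB ρ k r s H hks hr g
  have c := hc B hB ρ k r s H hks hr g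
  subst hB
  obtain ⟨-, ok, -, -⟩ := H
  have G := ok.geo.toFrOk
  have h0 := Bk.gd0 G hb g
  refine ⟨fun x hx => ?_, fun F hF hx => ?_⟩
  · obtain ⟨c1, c2, -, -, c5⟩ := c x hx
    generalize hy : Function.invFun (s.ft (ks B.N - el B.N)) (s.ft (ks B.N) (s.zt (ks B.N) x)) = y
      at c5
    generalize hM : jm (fun w => s.zt (ks B.N) w - B.Zt w) x = M at c1 c5
    obtain ⟨O, a, b, σ, o1, o2, o3, o4, o5⟩ := hS ((jm (s.ft (ks B.N - el B.N)) y * M)ᵀ *
      (jm (s.ft (ks B.N - el B.N)) y * M)) (by rw [transpose_mul, transpose_transpose])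
      (gpos (by rw [Matrix.det_mul]; exact mul_ne_zero (c2 y) c1))
    have e : (M * O)ᵀ * gram (s.ft (ks B.N - el B.N)) y * (M * O) = dg3 (a ^ 2) (b ^ 2) (σ ^ 2) := by
      rw [← o5, gram]; simp only [transpose_mul, Matrix.mul_assoc]
    obtain ⟨-, p1, p2⟩ := c5 O a b σ o1 o2.le o3 o4 e
    exact ⟨⟨x, 0, O, M * O, a, b⟩, rfl, o1, p1, o4, by rw [← hM], σ, p2, by rw [← e, ← hy]⟩
  · obtain ⟨-, -, ⟨c3, c3'⟩, c4, c5⟩ := c F.x0 hx
    obtain ⟨o1, o2, o3, o4, σ, o5, o6⟩ := hF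
    obtain ⟨p, -⟩ := c5 F.O F.s1 F.s2 |σ| o1 (abs_nonneg _)
      (abs_le_of_sq_le_sq (by nlinarith [sq_nonneg F.s1]) o2.le) o3 (by rw [sq_abs, ← o4, o6])
    rw [← o4] at p
    refine ⟨ok_new h0 (ok.bar F.x0) c3 c3' (div_pos (GeoP.lb_pos G) (by positivity)) o2 o3 p.ls.1
      p.ls.2, ?_, p, c4⟩
    have d := (abs_le.1 p.det.1).1
    have e : 100 * (1 / √(B.c g 0).J) ≤ 1 := sJ_le hb
    rw [GeoP.T_det_eq, ← mul_one_div 5] at d
    exact (div_pos_iff_of_pos_right (GeoP.det_pos G g)).1 (by linarith)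

end
end Pool.Agent.MP_20bec2_an.T3

end MrgPart3

-- marker of a merged file
example : 731051 + 367731 = 731051 + 367731 := rfl
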