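import Pool.Agent.MP_20bec2_an.T3.InitB
import Pool.Agent.MP_20bec2_an.T3.Fcomp
import Pool.Agent.MP_20bec2_an.T3.Nc
import Pool.Agent.MP_20bec2_an.T3.Bi
import Pool.Agent.MP_20bec2_an.T3.Block
import Pool.Agent.MP_20bec2_an.T3.Br
import Pool.Agent.MP_20bec2_an.T3.Sder
import Pool.Agent.MP_20bec2_an.T3.Tfb
import Pool.Agent.MP_20bec2_an.T3.Cg0
import Pool.Agent.MP_20bec2_an.T3.Cf
import Pool.Agent.MP_20bec2_an.T3.Cz
import Pool.Agent.MP_20bec2_an.T3.Yq
import Pool.Agent.MP_20bec2_an.T3.Chp
import Pool.Agent.MP_20bec2_an.T3.Oph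
import Pool.Agent.MP_20bec2_an.T3.Cov
import Pool.Agent.MP_20bec2_an.T3.Ptl
import Pool.Agent.MP_20bec2_an.T3.Hn
import Pool.Agent.MP_20bec2_an.T3.Ga
import Pool.Agent.MP_20bec2_an.T3.Cs
import Pool.Agent.MP_20bec2_an.T3.Cr
import Pool.Agent.MP_20bec2_an.T3.Dera
import Pool.Agent.MP_20bec2_an.T3.Derb
import Pool.Agent.MP_20bec2_an.T3.Netp
import Pool.Agent.MP_20bec2_an.T3.Pv
import Pool.Agent.MP_20bec2_an.T3.Er
import Pool.Agent.MP_20bec2_an.T3.Mr
import Pool.Agent.MP_20bec2_an.T3.FAll2
import Pool.Agent.MP_20bec2_an.T3.Final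
import Pool.Agent.MP_20bec2_an.T3.Finv
import Pool.Agent.MP_20bec2_an.T3.Neth
import Pool.Agent.MP_20bec2_an.T3.Init
import Pool.Agent.MP_20bec2_an.T3.Gb
import Pool.Agent.MP_20bec2_an.T3.K4
import Pool.Agent.MP_20bec2_an.T3.Rem
import Pool.Agent.MP_20bec2_an.T3.Left
import Pool.Agent.MP_20bec2_an.T3.Kvar
import Pool.Agent.MP_20bec2_an.T3.Lab
import Pool.Agent.MP_20bec2_an.T3.Runm
import Pool.Agent.MP_20bec2_an.T3.Fl3
import Pool.Agent.MP_20bec2_an.T3.WinA
import Pool.Agent.MP_20bec2_an.T3.Stab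
import Pool.Agent.MP_20bec2_an.T3.Tf

set_option autoImplicit false

namespace Pool.Agent.MP_20bec2_an.T3

theorem main_all  : MainStmt := by
  have hK1 : K1Stmt := k1
  have hK4 : K4Stmt := k4 hK1
  have hKB : KBStmt := kb_ hK1
  have hKC : KCStmt := kc hK1 hK4
  have hEner : EnerStmt := ener hK1 hK4 hKC
  have hInit : InitStmt := init hK1 hK4 hKB hEner
  have hAmp : AmpStmt := amp
  have hClk : ClkStmt := clk
  have hPtl : PtlStmt := ptl
  have hDera : DeraStmt := dera
  have hDerb : DerbStmt := derb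
  have hCmp : CmpStmt := cmp
  have hWin : WinStmt := win
  have hCls : ClsStmt := cls
  have hCov : CovStmt := cov
  have hYq : YqStmt := yq hCls
  have hPv : PvStmt := pv hCls
  have hKls : KlsStmt := kls
  have hHn : HnStmt := hn hKls
  have hColk : ColkStmt := colk
  have hGb : GbStmt := gb hKls hColk
  have hGa : GaStmt := ga
  have hDom : DomStmt := dom hKls
  have hOpo : OpoStmt := opo hKls hColk
  have hOph : OphStmt := oph hKls hColk
  have hKvar : KvarStmt := kvar hHn hGb hGa hDom hOpo hOph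
  have hLin : LinStmt := lin' hKls
  have hMix : MixStmt := mix hKvar hLin
  have hRc : RcStmt := rc hAmp hClk hPtl hDera hDerb hCmp hWin hCls hCov hYq hPv hMix
  have hStab : StabStmt := stab hKls hColk
  have hNetp : NetpStmt := netp
  have hNeto : NetoStmt := neto hKls
  have hNeth : NethStmt := neth hKls hColk
  have hGood : GoodStmt := good
  have hRunm : RunmStmt := runm hRc hStab hLin hNetp hNeto hNeth hGood
  have hFin0 : Fin0Stmt := fin0
  have hFinf : FinfStmt := finf hKls hColk
  have hFine : FineStmt := fine hFin0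
  have hFinv : FinvStmt := finv hFin0
  have hFinn : FinnStmt := finn hKls
  have hFinl : FinlStmt := finl hKls hColk
  have hMini : MiniStmt := mini hRunm hFin0 hFinf hFine hFinv hFinn hFinl
  have hZder : ZderStmt := zder
  have hSder : SderStmt := sder
  have hMin : MinStmt := min_ hZder hSder
  have hLab : LabStmt := lab
  have hBs0 : Bs0Stmt := bs0
  have hKsd : KsdStmt := ksd hZder hSder hBs0
  have hMbi : MbiStmt := mbi hKsd hSder
  have hPred : PredStmt := pred hLab hMbi
  have hMl : MlStmt := ml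
  have hMz : MzStmt := mz hZder
  have hMv : MvStmt := mv hZder
  have hMp : MpStmt := mp
  have hMs : MsStmt := ms
  have hPks : PksStmt := pks hMl hMz hMp hMs hKsd hZder
  have hKg : KgStmt := kg
  have hStg : StgStmt := stg hKg
  have hMr : MrStmt := mr hPks hStg
  have hLeft : LeftStmt := left hPks hStg
  have hFmg : FmgStmt := fmg_all
  have hGabs : GabsStmt := gabs_all
  have hFup : FupStmt := fup
  have hMf : MfStmt := mf hMbi hMl hMz hMp hMs hMr hLeft hFmg hGabs hFup hLab
  have hMstep : MstepStmt := mstep hMini hMin hPred hMl hMz hMv hMp hMs hMr hMf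
  have hSvd : SvdStmt := svd
  have hTf : TfStmt := tf
  have hTfb : TfbStmt := tfb hSvd hTf hZder hLab hMbi
  have hCpt : CptStmt := cpt_ hTfb hLab hZder
  have hPrep : PrepStmt := prep hTfb hCpt
  have hFlong : FlongStmt := flong_all
  have hBl : BlStmt := bl hFlong hLab hZder
  have hBz : BzStmt := bz
  have hBs : BsStmt := bs
  have hBi : BiStmt := bi hBz hBs hKsd
  have hBr : BrStmt := br hBz hBs hKsd hSder
  have hBf : BfStmt := bf hBz hBs hBi hBr hMbi hGabs hFup hLab
  have hBstart : BstartStmt := bstart hPrep hBl hBz hBs hBi hBf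
  have hEs : EsStmt := es
  have hEz : EzStmt := ez
  have hEr : ErStmt := er hEz hEs hKsd hSder
  have hEf : EfStmt := ef hMbi
  have hRun : RunStmt := run hMstep hBstart hEs hEz hEr hEf
  have hCgeo : CgeoStmt := cgeo hTfb
  have hLink : LinkStmt := link
  have hCg0 : Cg0Stmt := cg0_ hTfb hLab hMbi hLink hZder
  have hCdi : CdiStmt := cdi hTfb hLab hMbi hLink
  have hChp : ChpStmt := chp hTfb hLab hMbi
  have hCz : CzStmt := cz hTfb
  have hCs : CsStmt := cs hTfb hEs
  have hCr : CrStmt := cr hTfb hKsd hEs hSder hBs0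
  have hCf : CfStmt := cf_ hTfb hKsd hEs hMbi hCdi
  have hChange : ChangeStmt := change hCgeo hCg0 hCdi hChp hCz hCs hCr hCf
  have hBarr : BarrStmt := barr
  have hBlock : BlockStmt := block hLink hLab hZder hMbi
  have hCycle : CycleStmt := cycle hRun hChange hBarr hLink hBlock
  have hLip : LipStmt := lip
  have hPush : PushStmt := push hKg hKsd hLip
  have hCore : CoreStmt := core hInit hCycle hLip hPush
  have hMain : MainStmt := main_of hCore
  exact hMain

end Pool.Agent.MP_20bec2_an.T3
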