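import Pool.Agent.MP_20bec2_an.T3.Stab
import Pool.Agent.MP_20bec2_an.T3.Tfb
import Pool.Agent.MP_20bec2_an.T3.Conv
import Pool.Agent.MP_20bec2_an.T3.Left

/-! Row BR, general lemmas: bounds of a flux along a path of admissible states. -/

set_option autoImplicit false
open MeasureTheory Set Filter Matrix Topology

namespace Pool.Agent.MP_20bec2_an.T3
noncomputable section
open Classical Prof GeoP

namespace Br

/-- near part and far part -/
lemma split : ∃ C : ℝ, 1 ≤ C ∧ ∀ (h : V) (U W : Set V) (b : V → ℝ) (A A0 ε : ℝ) (Z : V → V)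
    (S : V → Mx), GK b Z S → KL h U (indicator U b) A Z S → 0 ≤ A0 → (∀ x ∈ U, |b x| ≤ A0) →
    CB 6 h W (dens (indicator Uᶜ b) Z S) ε → CB 4 h W (dens b Z S) (C * A0 + ε) := by
  obtain ⟨C, c1, -, hB⟩ := kb_ k1 4
  refine ⟨C, c1, fun h U W b A A0 ε Z S G K a0 hb far => ?_⟩
  have mU : MeasurableSet U := K.cl.isClosed.measurableSet
  have K' : KL h U (indicator U b) A0 Z S := { K with
    ba := fun x => by
      by_cases hx : x ∈ U
      · rw [indicator_of_mem hx]; exact hb x hx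
      · rwa [indicator_of_notMem hx, abs_zero] }
  rw [ConvP.split G mU]
  exact CBl.add (fun i => (K.hh i).le) (k1 _ _ _ (ConvP.gk_ind G mU)).1
    (k1 _ _ _ (ConvP.gk_ind G mU.compl)).1 (CBl.monoU (hB _ _ _ _ _ _ K').2.1 (subset_univ W))
    (far.of_le (by norm_num))

variable {a : V → ℝ} {Z u : V → V} {S D : V → Mx}

/-- bound of the flux from bounds along the path -/
lemma flux_cbl {P : List (Fin 3) → Prop} {h : V} {U : Set V} {A1 : ℝ} {A2 : V} (hh : ∀ i, 0 < h i)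
    (H : GKp a Z S u D) (i : Fin 3)
    (h1 : ∀ t ∈ Icc (0 : ℝ) 1, CBl P h U (dens (fun x => a x * u x i) (fun x => Z x + t • u x)
      fun x => S x + t • (D x + (D x)ᵀ)) A1)
    (h2 : ∀ t ∈ Icc (0 : ℝ) 1, ∀ j, CBl P h U (pd j (dens (fun x => a x * D x i j)
      (fun x => Z x + t • u x) fun x => S x + t • (D x + (D x)ᵀ))) (A2 j)) :
    CBl P h U (fun z => flux a Z S u D z i) (A1 + (A2 0 + A2 1 + A2 2)) := by
  intro l hl z hz
  have hp0 := hp_pos hh l
  rw [(k2 k1 a Z S u D H).2.2 l z i, ← le_div_iff₀' hp0, ← Fin.sum_univ_three A2]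
  have := intervalIntegral.norm_integral_le_of_norm_le_const (a := 0) (b := 1)
    (C := (A1 + ∑ j, A2 j) / hp h l)
    (f := fun t => -pds l (dens (fun x => a x * u x i) (fun x => Z x + t • u x)
        (fun x => S x + t • (D x + (D x)ᵀ))) z +
      ∑ j, pds l (pd j (dens (fun x => a x * D x i j) (fun x => Z x + t • u x)
        (fun x => S x + t • (D x + (D x)ᵀ)))) z) fun t ht => by
    rw [uIoc_of_le zero_le_one] at ht
    have ht' : t ∈ Icc (0 : ℝ) 1 := Ioc_subset_Icc_self ht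
    rw [Real.norm_eq_abs, add_div, Finset.sum_div]
    refine (abs_add_le _ _).trans (add_le_add ?_ ((Finset.abs_sum_le_sum_abs _ _).trans
      (Finset.sum_le_sum fun j _ => ?_)))
    · rw [abs_neg]
      exact CBl.le_div hh (h1 t ht') hl hz
    · exact CBl.le_div hh (h2 t ht' j) hl hz
  simpa using this

lemma cl_of_pd {n : ℕ} {h : V} {U : Set V} {g : V → ℝ} {M : ℝ} (hh : ∀ i, 0 ≤ h i) (hg : Sm g)
    (H : ∀ j, j ≠ 2 → CB n h U (fun x => h j * pd j g x) M) : CL (n + 1) h U g M := by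
  rintro l ⟨hl, j, hj, h2⟩ x hx
  have p : l.Perm (l.erase j ++ [j]) :=
    (List.perm_cons_erase hj).trans (List.perm_append_singleton j _).symm
  have := H j h2 (l.erase j) (show _ ≤ n by rw [List.length_erase_of_mem hj]; omega) x hx
  rw [pds_const_mul] at this
  rw [pds_perm hg p, hp_perm h p, pds_concat, hp_concat, mul_assoc]
  simpa only [abs_mul, abs_of_nonneg (hh j)] using this

lemma cvx {p q c t : ℝ} (ht : t ∈ Icc (0 : ℝ) 1) (hp : p ≤ c) (hq : q ≤ c) :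
    (1 - t) * p + t * q ≤ c := by nlinarith [ht.1, ht.2]

lemma hat_path (F : Fr) (t : ℝ) :
    F.hat (fun x => Z x + t • u x) = fun x => F.hat Z x + t • F.hatv u x := by
  funext x
  rw [hat_add]
  simp only [Fr.hatv, mulVec_smul]

lemma cov_path (F : Fr) (t : ℝ) : F.cov (fun x => S x + t • (D x + (D x)ᵀ)) =
    fun x => F.cov S x + t • (F.cov D x + (F.cov D x)ᵀ) := by
  funext x
  simp only [Fr.cov, Fr.cv1, Matrix.mul_add, Matrix.add_mul, Matrix.mul_smul, Matrix.smul_mul,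
    transpose_mul, transpose_transpose, Matrix.mul_assoc]

lemma jm_path (hZ : Sm Z) (hu : Sm u) (t : ℝ) (x : V) :
    jm (fun x => Z x + t • u x) x = jm Z x + t • jm u x := by
  ext i j
  simp only [jm, of_apply, Pi.add_apply, Pi.smul_apply, smul_eq_mul, Matrix.add_apply,
    Matrix.smul_apply]
  rw [pd_add (hZ.coord i) ((hu.coord i).cmul t)]
  exact congrArg _ (pd_const_mul ..)

/-- the kernel conditions along a segment -/
lemma ks_path {B : Bk} {k : ℕ} {hv t : ℝ} (K : B.KS k Z S hv)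
    (K' : B.KS k (fun x => Z x + (1 : ℝ) • u x) (fun x => S x + (1 : ℝ) • (D x + (D x)ᵀ)) hv)
    (hu : Sm u) (hD : ∀ i j, Continuous fun x => D x i j) (ht : t ∈ Icc (0 : ℝ) 1)
    (hb : Function.Bijective fun x => Z x + t • u x) :
    B.KS k (fun x => Z x + t • u x) (fun x => S x + t • (D x + (D x)ᵀ)) hv := by
  refine ⟨K.sm.add (hu.const_smul t), hb,
    fun i j => (K.cS i j).add (((hD i j).add (hD j i)).const_smul t), K.hvb, fun g x hx => ?_⟩
  obtain ⟨a1, a2, a3, a4⟩ := K.bd g x hx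
  obtain ⟨b1, b2, b3, b4⟩ := K'.bd g x hx
  have t0 := ht.1
  have t1 := sub_nonneg.2 ht.2
  rw [hat_path, cov_path] at *
  rw [jm_path (hat_sm _ K.sm) (hatv_sm _ hu)] at b1 ⊢
  refine ⟨fun i j => ?_, ?_, ?_, fun v => ?_⟩
  · have e : (jm ((B.fr g).hat Z) x + t • jm ((B.fr g).hatv u) x - 1) i j =
        (1 - t) * (jm ((B.fr g).hat Z) x - 1) i j +
          t * (jm ((B.fr g).hat Z) x + (1 : ℝ) • jm ((B.fr g).hatv u) x - 1) i j := by
      simp only [Matrix.sub_apply, Matrix.add_apply, Matrix.smul_apply, smul_eq_mul]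
      ring
    rw [e]
    refine (abs_add_le _ _).trans ?_
    rw [abs_mul, abs_mul, abs_of_nonneg t0, abs_of_nonneg t1]
    exact cvx ht (a1 i j) (b1 i j)
  · have e : (B.fr g).O *ᵥ ((B.fr g).hat Z x + t • (B.fr g).hatv u x - x) =
        (1 - t) • ((B.fr g).O *ᵥ ((B.fr g).hat Z x - x)) +
          t • ((B.fr g).O *ᵥ ((B.fr g).hat Z x + (1 : ℝ) • (B.fr g).hatv u x - x)) := by
      rw [← mulVec_smul, ← mulVec_smul, ← mulVec_add]
      congr 1
      module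
    rw [e]
    refine (norm_add_le _ _).trans ?_
    rw [norm_smul, norm_smul, Real.norm_of_nonneg t0, Real.norm_of_nonneg t1]
    exact cvx ht a2 b2
  · simp only [transpose_add, transpose_smul, transpose_transpose, a3,
      add_comm ((B.fr g).cov D x)ᵀ]
  · obtain ⟨c1, c2⟩ := a4 v
    obtain ⟨c3, c4⟩ := b4 v
    simp only [add_mulVec _ (_ • _), smul_mulVec, dotProduct_add, dotProduct_smul, smul_eq_mul,
      one_mul] at c3 c4 ⊢
    exact ⟨by linarith [cvx ht (neg_le_neg c1) (neg_le_neg c3)], by linarith [cvx ht c2 c4]⟩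

/-- the constant part of the difference of the covariances -/
def Ac (h : V) (w : ℝ) : Mx := dg3 (h 0 ^ 2 / 32) (h 1 ^ 2 / 32) (w * h 2 ^ 2)

lemma Ac_form {h : V} {w : ℝ} (w0 : 3 / 4 ≤ w) (w1 : w ≤ 5) (v : V) :
    1 / 10 ^ 4 * ∑ i, (h i * v i) ^ 2 ≤ v ⬝ᵥ (Ac h w *ᵥ v) ∧
      v ⬝ᵥ (Ac h w *ᵥ v) ≤ 6 * ∑ i, (h i * v i) ^ 2 := by
  have e : v ⬝ᵥ (Ac h w *ᵥ v) =
      (h 0 * v 0) ^ 2 / 32 + (h 1 * v 1) ^ 2 / 32 + w * (h 2 * v 2) ^ 2 := by
    simp [Ac, dg3, dotProduct, mulVec_diagonal, Fin.sum_univ_three]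
    ring
  rw [e, Fin.sum_univ_three]
  constructor <;>
    nlinarith [sq_nonneg (h 0 * v 0), sq_nonneg (h 1 * v 1), sq_nonneg (h 2 * v 2)]

lemma Ac_ne {h : V} {w : ℝ} (h0 : 0 < h 0) : Ac h w ≠ 0 := fun e => by
  have : h 0 ^ 2 / 32 = 0 := congrFun (congrFun e 0) 0
  nlinarith [pow_pos h0 2]

lemma diff_bd {h : V} {P Dl Db : Mx} {β e t : ℝ} (hh : ∀ i, 0 < h i) (ht : t ∈ Icc (0 : ℝ) 1)
    (hP : ∀ i j, |P i j - 2 * β * h 2 ^ 2 * dg3 0 0 1 i j| ≤ 30 * e * (h i * h j))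
    (hl : EB (nrm h Dl - dg3 (1 / 32) (1 / 32) 0) (cm e))
    (hb : ∀ i j, h 2 ^ 2 * |(Db - dg3 0 0 1) i j| ≤ e * (h i * h j)) :
    EB (nrm h (-(1 - t) • P + Dl + (3 / 4 * h 2 ^ 2) • Db - Ac h (3 / 4 - 2 * β * (1 - t))))
      (cm (32 * e)) := fun i j => by
  have p := mul_pos (hh i) (hh j)
  have e0 : 0 ≤ e := (abs_nonneg _).trans (hl 0 0)
  have e1 : Ac h (3 / 4 - 2 * β * (1 - t)) i j = dg3 (1 / 32) (1 / 32) 0 i j * (h i * h j) +
      (3 / 4 - 2 * β * (1 - t)) * h 2 ^ 2 * dg3 0 0 1 i j := by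
    fin_cases i <;> fin_cases j <;> simp [Ac, dg3] <;> ring
  have a2 : |Dl i j - dg3 (1 / 32) (1 / 32) 0 i j * (h i * h j)| ≤ e * (h i * h j) := by
    have : |Dl i j / (h i * h j) - dg3 (1 / 32) (1 / 32) 0 i j| ≤ e := hl i j
    rwa [div_sub' p.ne', abs_div, abs_of_pos p, div_le_iff₀ p, mul_comm (h i * h j)] at this
  have a1 : |(1 - t) * (P i j - 2 * β * h 2 ^ 2 * dg3 0 0 1 i j)| ≤ 1 * (30 * e * (h i * h j)) :=
    Ftr.abs_mul_le (abs_le.2 ⟨by linarith [ht.2], by linarith [ht.1]⟩) (hP i j)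
  have a3 := hb i j
  rw [← abs_of_nonneg (sq_nonneg (h 2)), ← abs_mul, Matrix.sub_apply] at a3
  show |_ / (h i * h j)| ≤ 32 * e
  rw [abs_div, abs_of_pos p, div_le_iff₀ p]
  simp only [Matrix.sub_apply, Matrix.add_apply, Matrix.smul_apply, smul_eq_mul, e1]
  have := mul_nonneg e0 p.le
  exact abs_le.2 ⟨by linarith [abs_le.1 a1, abs_le.1 a2, abs_le.1 a3],
    by linarith [abs_le.1 a1, abs_le.1 a2, abs_le.1 a3]⟩

end Br

end
end Pool.Agent.MP_20bec2_an.T3
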