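import Pool.Agent.MP_20bec2_an.T3.BrB
import Pool.Agent.MP_20bec2_an.T3.Bi

/-! Row BR: the densities along the path. -/

set_option autoImplicit false
set_option linter.unusedSectionVars false
open MeasureTheory Set Filter Matrix Topology

namespace Pool.Agent.MP_20bec2_an.T3
noncomputable section
open Classical Prof GeoP

namespace Br

lemma far_le {N : ℕ} (b : Big N) :
    2000 * Real.exp ((N : ℝ) ^ 2) ^ 4 * Real.exp (-(N : ℝ) ^ 3) ≤ np N (-30) := by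
  have h1 : (10 : ℝ) ^ 9 ≤ N := by linarith [b.N_ge, b.J_ge, b.L_ge]
  have h2 : (10 : ℝ) ^ 9 * N ≤ (N : ℝ) ^ 2 := by nlinarith
  have h3 : (10 : ℝ) ^ 9 * (N : ℝ) ^ 2 ≤ (N : ℝ) ^ 3 := by nlinarith
  have h4 : (2000 : ℝ) ≤ Real.exp 2000 := by linarith [Real.add_one_le_exp (2000 : ℝ)]
  refine (mul_le_mul_of_nonneg_right (mul_le_mul_of_nonneg_right h4 (by positivity))
    (Real.exp_pos _).le).trans ?_
  rw [b.np_eq, ← Real.exp_nat_mul, ← Real.exp_add, ← Real.exp_add, Real.exp_le_exp]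
  push_cast
  linarith [b.N_ge, b.J_pos]

/-- a bounded weight -/
lemma wt : EvB fun B => ∀ (ρ : V → ℝ) (k : ℕ) (Z : V → V) (S : V → Mx) (g : Cu) (w : V → ℝ)
    (w0 m : ℝ), Rho ρ → B.G → k ≤ nb B.N → B.KS k Z S (B.yk k) → Continuous w → 0 ≤ w0 →
    (∀ x ∈ B.R g (99 / 100), |w x| ≤ w0) →
    (∀ x, |w x| ≤ 1000 * Real.exp ((B.N : ℝ) ^ 2) ^ 4 * m) →
    GK (fun x => (B.fr g).sc ρ x * w x) ((B.fr g).hat Z) ((B.fr g).cov S) ∧
    CB 4 (B.c g k).hs (B.R g (98 / 100))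
      (dens (fun x => (B.fr g).sc ρ x * w x) ((B.fr g).hat Z) ((B.fr g).cov S))
      (pq B.N / 100 * w0 + np B.N (-30) * m) := by
  obtain ⟨C, c1, hC⟩ := split
  filter_upwards [kg, ev_C_q (200 * C), ev_big] with N hK hq b B hN
  subst hN
  intro ρ k Z S g w w0 m hρ G hk K hw h0 h1 h2
  obtain ⟨mb, bb⟩ := BiP.rho_hat hρ (B.fr g)
  obtain ⟨gk, kl, far, -⟩ := (hK B rfl k Z S _ G hk K _ _ (mb.mul hw.measurable)
    fun x => Ftr.abs_mul_le (bb x) (h2 x)).2 g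
  have hD : 0 < B.D := (Bk.gd G.toFrOk b g hk).D_pos
  rw [show (B.c g k).hs = (B.c g k).hy (B.yk k) from rfl]
  refine ⟨gk, CBl.monoU (CBl.monoB (hC _ _ _ _ _ (2 * w0) _ _ _ gk kl (by positivity)
    (fun x hx => Ftr.abs_mul_le (bb x) (h1 x hx)) far) ?_) (RX_mono _ hD.le (by norm_num))⟩
  have m0 : 0 ≤ m := nonneg_of_mul_nonneg_right ((abs_nonneg _).trans (h2 0)) (by positivity)
  linarith [mul_le_mul_of_nonneg_right (far_le b) m0, mul_le_mul_of_nonneg_right hq h0]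

/-- the data along the path -/
structure HP (B : Bk) (ρ : V → ℝ) (k : ℕ) (Z u : V → V) (S : V → Mx) : Prop extends HS B k S where
  su : Sm u
  ub : ∀ g, ∀ x ∈ B.bx g 1, ‖(B.fr g).Q⁻¹ *ᵥ u x‖ ≤ np B.N (-25) * (B.c 0 k).lam
  wt : ∀ t ∈ Icc (0 : ℝ) 1, ∀ (g : Cu) (w : V → ℝ) (w0 m : ℝ), Continuous w → 0 ≤ w0 →
    (∀ x ∈ B.R g (99 / 100), |w x| ≤ w0) →
    (∀ x, |w x| ≤ 1000 * Real.exp ((B.N : ℝ) ^ 2) ^ 4 * m) →
    GK (fun x => (B.fr g).sc ρ x * w x) (fun x => (B.fr g).hat Z x + t • (B.fr g).hatv u x)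
      (fun x => (B.fr g).cov S x + t • ((B.fr g).cov (B.Bm k S) x + ((B.fr g).cov (B.Bm k S) x)ᵀ)) ∧
    CB 4 (B.c g k).hs (B.R g (98 / 100)) (dens (fun x => (B.fr g).sc ρ x * w x)
      (fun x => (B.fr g).hat Z x + t • (B.fr g).hatv u x)
      fun x => (B.fr g).cov S x + t • ((B.fr g).cov (B.Bm k S) x + ((B.fr g).cov (B.Bm k S) x)ᵀ))
      (pq B.N / 100 * w0 + np B.N (-30) * m)

variable {B : Bk} {ρ : V → ℝ} {k : ℕ} {Z u : V → V} {S : V → Mx}

namespace HS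
variable (H : HS B k S)
include H

lemma y0 : 0 < B.yk k := (H.gd 0).y_pos
lemma E1 : 1 ≤ Real.exp ((B.N : ℝ) ^ 2) := Real.one_le_exp (by positivity)
lemma bx_of {g : Cu} {x : V} (hx : x ∈ B.R g (99 / 100)) : (B.fr g).xp x ∈ B.bx g 1 :=
  box_mono H.D0.le (by norm_num) g ((xp_mem H.fo).2 hx)
lemma cB (i j : Fin 3) : Continuous fun x => B.Bm k S x i j :=
  cont_Bm H.D0 (fun i j => (H.sb.sm.1 i j).continuous) i j
lemma qy (g : Cu) : pq B.N * (np B.N (-25) * B.yk k) ≤ np B.N (-20) * (B.c g k).lam := by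
  have h1 := BiP.q_np H.big (a := -25) (a' := -24) (by norm_num)
  have h2 := H.np_y g (a := -24) (b := -20) (by norm_num)
  have h3 := mul_pos (mul_pos H.big.q_pos (H.big.np_pos (-25))) H.y0
  linarith [mul_le_mul_of_nonneg_right h1 H.y0.le]
lemma yy (g : Cu) (j : Fin 3) :
    np B.N (-30) * B.yk k ^ 2 ≤ np B.N (-20) * (B.c g k).lam * (B.c g k).hs j := by
  have h1 := (H.np_y g (a := -30) (b := -28) (by norm_num)).trans
    (mul_le_mul_of_nonneg_left (H.hs_bd g j).1 (H.big.np_pos _).le)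
  have h2 := H.np_y g (a := -28) (b := -20) (by norm_num)
  linarith [mul_le_mul_of_nonneg_right h1 H.y0.le,
    mul_le_mul_of_nonneg_right h2 ((H.gd g).hs_pos j).le]
lemma gB (g : Cu) (x : V) (i j : Fin 3) : |(B.fr g).cov (B.Bm k S) x i j| ≤
    810 * Real.exp ((B.N : ℝ) ^ 2) ^ 4 * B.yk k ^ 2 := H.glob (H.fo.fx g).2.2.2.2.1 _ i j

end HS

namespace HP
variable (H : HP B ρ k Z u S) {t : ℝ} (ht : t ∈ Icc (0 : ℝ) 1) (g : Cu)
include H

lemma gu (x : V) : ‖(B.fr g).hatv u x‖ ≤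
    9 * Real.exp ((B.N : ℝ) ^ 2) ^ 2 * (np B.N (-25) * (B.c 0 k).lam) :=
  H.toHS.globv (H.fo.fx g).2.2.2.2.1 H.ub _

include ht

lemma a1 (i : Fin 3) : CB 4 (B.c g k).hs (B.R g (98 / 100))
    (dens (fun x => (B.fr g).sc ρ x * (B.fr g).hatv u x i)
      (fun x => (B.fr g).hat Z x + t • (B.fr g).hatv u x)
      fun x => (B.fr g).cov S x + t • ((B.fr g).cov (B.Bm k S) x + ((B.fr g).cov (B.Bm k S) x)ᵀ))
    (2 * (np B.N (-20) * (B.c g k).lam)) := by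
  have l0 := (H.toHS.gd 0).lam_pos
  have p := mul_pos (H.big.np_pos (-25)) l0
  have E := H.toHS.E1
  refine CBl.monoB (H.wt t ht g _ _ (np B.N (-25) * (B.c 0 k).lam)
    ((hatv_sm _ H.su).coord i).continuous p.le
    (fun x hx => (abs_le_norm _ i).trans (H.ub g _ (H.toHS.bx_of hx)))
    fun x => (abs_le_norm _ i).trans ((H.gu g x).trans (mul_le_mul_of_nonneg_right ?_ p.le))).2 ?_
  · linarith [pow_le_pow_right₀ E (show 2 ≤ 4 by norm_num), pow_pos (zero_lt_one.trans_le E) 4]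
  · have h1 := H.toHS.qy 0
    have h2 := mul_le_mul_of_nonneg_left ((H.toHS.hs_bd 0 1).2) (H.big.np_pos (-25)).le
    have h3 := mul_le_mul_of_nonneg_left h2 H.big.q_pos.le
    have h4 := mul_le_mul_of_nonneg_right (H.toHS.np_sm (a := -30) (by norm_num)) p.le
    have h5 := mul_le_mul_of_nonneg_right (H.big.np_le (show (-25 : ℝ) ≤ -20 by norm_num)) l0.le
    rw [show (B.c 0 k).hs 1 = (B.c 0 k).lam from rfl] at h3
    rw [show (B.c g k).lam = (B.c 0 k).lam from rfl]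
    linarith [mul_pos H.big.q_pos p]

lemma a2 {w : V → ℝ} {c : ℝ} (j : Fin 3) (hw : Continuous w) (c0 : 0 ≤ c)
    (h1 : ∀ x ∈ B.R g (99 / 100), |w x| ≤ c * (B.yk k * (B.c g k).hs j))
    (h2 : ∀ x, |w x| ≤ 1000 * Real.exp ((B.N : ℝ) ^ 2) ^ 4 * B.yk k ^ 2) :
    CB 3 (B.c g k).hs (B.R g (98 / 100)) (pd j (dens (fun x => (B.fr g).sc ρ x * w x)
      (fun x => (B.fr g).hat Z x + t • (B.fr g).hatv u x)
      fun x => (B.fr g).cov S x + t • ((B.fr g).cov (B.Bm k S) x + ((B.fr g).cov (B.Bm k S) x)ᵀ)))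
      (pq B.N / 100 * (c * B.yk k) + np B.N (-20) * (B.c g k).lam) := by
  have hh := (H.toHS.gd g).hs_pos
  refine CBl.monoB ((H.wt t ht g w _ _ hw (mul_nonneg c0 (mul_pos H.toHS.y0 (hh j)).le)
    h1 h2).2.pd_div hh j) ?_
  rw [div_le_iff₀ (hh j)]
  linarith [H.toHS.yy g j]

lemma a2B (i j : Fin 3) : CB 3 (B.c g k).hs (B.R g (98 / 100))
    (pd j (dens (fun x => (B.fr g).sc ρ x * (B.fr g).cov (B.Bm k S) x i j)
      (fun x => (B.fr g).hat Z x + t • (B.fr g).hatv u x)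
      fun x => (B.fr g).cov S x + t • ((B.fr g).cov (B.Bm k S) x + ((B.fr g).cov (B.Bm k S) x)ᵀ)))
      (pq B.N / 100 * ((if i = 2 then (if j = 2 then 10 else 20 * np B.N (-38 / 100))
        else 10 * dc B.N) * B.yk k) + np B.N (-20) * (B.c g k).lam) := by
  have p1 := H.big.np_pos (-38 / 100)
  have p2 : 0 < dc B.N := H.big.np_pos _
  refine H.a2 ht g j (K3.cont_cov _ H.toHS.cB i j) (by split_ifs <;> positivity)
    (fun x hx => H.toHS.loc (H.toHS.bx_of hx) i j) fun x => (H.toHS.gB g x i j).trans ?_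
  gcongr
  norm_num

/-- the vertical entry -/
lemma a3 {β b : ℝ} (hβ : |β| ≤ 2)
    (h1 : ∀ x ∈ B.R g (99 / 100), |(B.fr g).cov (B.Bm k S) x 2 2 - β * B.yk k ^ 2| ≤
      np B.N (-38 / 100) * (B.yk k * B.yk k))
    (h2 : CL 4 (B.c g k).hs (B.R g (98 / 100)) (dens ((B.fr g).sc ρ)
      (fun x => (B.fr g).hat Z x + t • (B.fr g).hatv u x)
      fun x => (B.fr g).cov S x + t • ((B.fr g).cov (B.Bm k S) x + ((B.fr g).cov (B.Bm k S) x)ᵀ)) b) :
    CL 3 (B.c g k).hs (B.R g (98 / 100))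
      (pd 2 (dens (fun x => (B.fr g).sc ρ x * (B.fr g).cov (B.Bm k S) x 2 2)
      (fun x => (B.fr g).hat Z x + t • (B.fr g).hatv u x)
      fun x => (B.fr g).cov S x + t • ((B.fr g).cov (B.Bm k S) x + ((B.fr g).cov (B.Bm k S) x)ᵀ)))
      (2 * b * B.yk k +
        (pq B.N / 100 * (np B.N (-38 / 100) * B.yk k) + np B.N (-20) * (B.c g k).lam)) := by
  have hh := (H.toHS.gd g).hs_pos
  have y0 := H.toHS.y0
  have E4 := mul_le_mul_of_nonneg_right (one_le_pow₀ (n := 4) H.toHS.E1) (sq_nonneg (B.yk k))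
  have b1 : |β * B.yk k ^ 2| ≤ 2 * B.yk k ^ 2 := Ftr.abs_mul_le hβ (abs_of_nonneg (sq_nonneg _)).le
  have cw : Continuous fun x => (B.fr g).cov (B.Bm k S) x 2 2 - β * B.yk k ^ 2 :=
    (K3.cont_cov (B.fr g) H.toHS.cB 2 2).sub continuous_const
  have gw : ∀ x, |(B.fr g).cov (B.Bm k S) x 2 2 - β * B.yk k ^ 2| ≤
      1000 * Real.exp ((B.N : ℝ) ^ 2) ^ 4 * B.yk k ^ 2 := fun x =>
    (abs_sub _ _).trans (by linarith [H.toHS.gB g x 2 2, sq_nonneg (B.yk k)])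
  have r := H.a2 ht g 2 cw (H.big.np_pos _).le h1 gw
  have g1 := (H.wt t ht g _ _ _ cw (mul_pos (H.big.np_pos _) (mul_pos y0 y0)).le h1 gw).1
  have g2 := (H.wt t ht g (fun _ => β * B.yk k ^ 2) _ (B.yk k ^ 2) continuous_const (abs_nonneg _)
    (fun _ _ => le_rfl) fun _ => by linarith [sq_nonneg (B.yk k)]).1
  generalize (fun x => (B.fr g).hat Z x + t • (B.fr g).hatv u x) = Z' at *
  generalize (fun x => (B.fr g).cov S x +
    t • ((B.fr g).cov (B.Bm k S) x + ((B.fr g).cov (B.Bm k S) x)ᵀ)) = S' at *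
  have e1 : dens (fun x => (B.fr g).sc ρ x * (β * B.yk k ^ 2)) Z' S' =
      fun z => β * B.yk k ^ 2 * dens ((B.fr g).sc ρ) Z' S' z := by
    funext z
    simp only [dens, ← integral_const_mul]
    exact integral_congr_ae (Eventually.of_forall fun x => by ring)
  have e2 : (fun x => (B.fr g).sc ρ x * (B.fr g).cov (B.Bm k S) x 2 2) =
      fun x => (B.fr g).sc ρ x * (β * B.yk k ^ 2) +
        (B.fr g).sc ρ x * ((B.fr g).cov (B.Bm k S) x 2 2 - β * B.yk k ^ 2) :=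
    funext fun x => by ring
  have s1 := (k1 _ _ _ g1).1
  have s2 := (k1 _ _ _ g2).1
  rw [e2, Stg.dens_add g2 g1, pd_add s2 s1]
  refine CBl.add (fun i => (hh i).le) (s2.pd 2) (s1.pd 2) ?_ r.toCL
  rw [e1]
  refine CBl.monoB ((CBl.smul_le (fun i => (hh i).le) (h2.pd_div hh 2) b1).congr_fun
    (pd_const_mul _ _ _)) (le_of_eq ?_)
  rw [show (B.c g k).hs 2 = B.yk k from rfl]
  field_simp

omit ht

lemma gkp : GKp ((B.fr g).sc ρ) ((B.fr g).hat Z) ((B.fr g).cov S) ((B.fr g).hatv u)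
    ((B.fr g).cov (B.Bm k S)) := by
  have E4 := one_le_pow₀ (n := 4) H.toHS.E1
  have a := fun t ht => (H.wt t ht g (fun _ => 1) 1 1 continuous_const zero_le_one
    (fun _ _ => abs_one.le) fun _ => by rw [abs_one]; linarith).1
  have a0 := a 0 (left_mem_Icc.2 zero_le_one)
  have a1 := a 1 (right_mem_Icc.2 zero_le_one)
  simp only [mul_one, zero_smul, add_zero, one_smul] at a0 a1
  exact ⟨a0, a1, (hatv_sm _ H.su).continuous, K3.cont_cov _ H.toHS.cB, _, fun x _ =>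
    ⟨(H.gu g x).trans (le_max_left _ _), fun i j => (H.toHS.gB g x i j).trans (le_max_right _ _)⟩⟩

lemma rb {β : ℝ} (hβ : |β| ≤ 2)
    (h1 : ∀ x ∈ B.R g (99 / 100), |(B.fr g).cov (B.Bm k S) x 2 2 - β * B.yk k ^ 2| ≤
      np B.N (-38 / 100) * (B.yk k * B.yk k))
    (h2 : ∀ t ∈ Icc (0 : ℝ) 1, CL 4 (B.c g k).hs (B.R g (98 / 100)) (dens ((B.fr g).sc ρ)
      (fun x => (B.fr g).hat Z x + t • (B.fr g).hatv u x)
      fun x => (B.fr g).cov S x + t • ((B.fr g).cov (B.Bm k S) x + ((B.fr g).cov (B.Bm k S) x)ᵀ))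
      (35 * (pq B.N * np B.N (-277 / 1000)))) :
    (B.c g k).RB (flux ((B.fr g).sc ρ) ((B.fr g).hat Z) ((B.fr g).cov S) ((B.fr g).hatv u)
      ((B.fr g).cov (B.Bm k S))) (B.R g (98 / 100)) := by
  have hh := (H.toHS.gd g).hs_pos
  have b := H.big
  have y0 := H.toHS.y0
  have l0 := (H.toHS.gd g).lam_pos
  have ly : (B.c g k).lam ≤ B.yk k := (H.toHS.hs_bd g 1).2
  have q0 := b.q_pos
  have q1 := b.q_ge
  have c1 : pq B.N * (dc B.N * B.yk k) ≤ np B.N (-20) * (B.c g k).lam := H.toHS.qy g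
  have c2 := mul_le_mul_of_nonneg_right (BiP.np_small b (a := -20) (a' := -10) (by norm_num)) l0.le
  have c3 := mul_pos (b.np_pos (-20)) l0
  have c4 := mul_le_mul (H.toHS.np_sm (a := -20) (by norm_num)) ly l0.le (by norm_num)
  have c5 := mul_le_mul_of_nonneg_right q1 y0.le
  have c6 := mul_le_mul_of_nonneg_left (mul_le_mul_of_nonneg_right
    (H.toHS.np_sm (a := -38 / 100) (by norm_num)) y0.le) q0.le
  have c7 := mul_le_mul_of_nonneg_left (mul_le_mul_of_nonneg_right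
    (b.np_le (show (-38 / 100 : ℝ) ≤ -277 / 1000 by norm_num)) y0.le) q0.le
  have c8 := mul_le_mul (b.np_le (show (-20 : ℝ) ≤ -277 / 1000 by norm_num)) ly l0.le (b.np_pos _).le
  have c9 := mul_le_mul_of_nonneg_right q1 (mul_pos (b.np_pos (-277 / 1000)) y0).le
  have c10 := mul_le_mul_of_nonneg_right
    (BiP.q_np b (a := -277 / 1000) (a' := -1 / 4) (by norm_num)) y0.le
  have c11 := mul_pos (b.np_pos (-277 / 1000)) y0
  have n02 : (0 : Fin 3) ≠ 2 := by decide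
  have n12 : (1 : Fin 3) ≠ 2 := by decide
  refine ⟨fun i hi => CBl.monoB (flux_cbl hh (H.gkp g) i
      (fun t ht => (H.a1 ht g i).of_le (by norm_num)) fun t ht j => H.a2B ht g i j) ?_,
    CBl.monoB (flux_cbl hh (H.gkp g) 2
      (fun t ht => (H.a1 ht g 2).of_le (by norm_num)) fun t ht j => H.a2B ht g 2 j) ?_,
    CBl.monoB (flux_cbl (A2 := ![_, _, _]) hh (H.gkp g) 2
      (fun t ht => ((H.a1 ht g 2).of_le (show 3 ≤ 4 by norm_num)).toCL) fun t ht j => by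
        fin_cases j
        exacts [(H.a2B ht g 2 0).toCL, (H.a2B ht g 2 1).toCL, H.a3 ht g hβ h1 (h2 t ht)]) ?_⟩
  · show _ ≤ np B.N (-10) * (B.c g k).lam
    simp only [if_neg hi]
    linarith
  · show _ ≤ pq B.N * B.yk k
    simp only [if_true, if_neg n02, if_neg n12]
    linarith
  · show _ ≤ np B.N (-1 / 4) * B.yk k
    simp only [if_true, if_neg n02, if_neg n12, Matrix.cons_val]
    linarith

end HP

end Br

end
end Pool.Agent.MP_20bec2_an.T3
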