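import Pool.Agent.MP_20bec2_an.T3.Final
import Pool.Agent.MP_20bec2_an.Pl.All
import Pool.Agent.MP_20bec2_an.b2.Final

/-! The answer in every dimension, from the three-dimensional case. -/

set_option autoImplicit false
open MeasureTheory Set

namespace Pool.Agent.MP_20bec2_an.T3
namespace Comb

theorem le_om {t : ℝ} (h0 : 0 ≤ t) (h1 : t ≤ Real.exp (-1)) : t ≤ t * Real.log (1 / t) := by
  rcases h0.eq_or_lt with rfl | h
  · simp
  · have : 1 ≤ Real.log (1 / t) := by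
      rw [one_div, Real.log_inv]
      linarith [(Real.log_le_iff_le_exp h).2 h1]
    nlinarith

theorem norm_one (x y : EuclideanSpace ℝ (Fin 1)) : ‖x - y‖ = |x 0 - y 0| := by
  rw [EuclideanSpace.norm_eq, Fin.sum_univ_one, Real.norm_eq_abs, sq_abs, Real.sqrt_sq_eq_abs]
  rfl

/-- the primitive solves the problem in dimension one -/
theorem one (Q : Set (EuclideanSpace ℝ (Fin 1))) (hQ : Q = {x | ∀ i, x i ∈ Icc (0 : ℝ) 1})
    (ρ : EuclideanSpace ℝ (Fin 1) → ℝ) (hρ : ContinuousOn ρ Q) (hpos : ∀ x ∈ Q, 0 < ρ x) :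
    ∃ f : EuclideanSpace ℝ (Fin 1) → EuclideanSpace ℝ (Fin 1), InjOn f Q ∧
      (∃ C t₀ : ℝ, 0 < C ∧ 0 < t₀ ∧ t₀ < 1 ∧ ∀ x ∈ Q, ∀ y ∈ Q,
        (‖x - y‖ ≤ t₀ → ‖f x - f y‖ ≤ C * (‖x - y‖ * Real.log (1 / ‖x - y‖))) ∧
        (‖f x - f y‖ ≤ t₀ → ‖x - y‖ ≤ C * (‖f x - f y‖ * Real.log (1 / ‖f x - f y‖)))) ∧
      ∀ B, MeasurableSet B → ∫⁻ x in Q ∩ f ⁻¹' B, ENNReal.ofReal (ρ x) = volume (B ∩ f '' Q) := by
  let e : EuclideanSpace ℝ (Fin 1) := EuclideanSpace.single 0 1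
  have e0 : ∀ x : EuclideanSpace ℝ (Fin 1), x 0 • e = x := fun x => by
    ext i
    rw [Subsingleton.elim i 0]
    simp [e]
  have hm : ∀ t : Icc (0 : ℝ) 1, t.1 • e ∈ Q := fun t => by
    rw [hQ]
    intro i
    rw [Subsingleton.elim i 0]
    simp [e]
  have c0 : Continuous fun t : Icc (0 : ℝ) 1 => ρ (t.1 • e) :=
    hρ.comp_continuous (by fun_prop) hm
  obtain ⟨a, -, ha⟩ := isCompact_univ.exists_isMinOn univ_nonempty c0.continuousOn
  obtain ⟨b, -, hb⟩ := isCompact_univ.exists_isMaxOn univ_nonempty c0.continuousOn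
  let g : ℝ → ℝ := fun t => ρ ((projIcc 0 1 zero_le_one t).1 • e)
  have gc : Continuous g := c0.comp continuous_projIcc
  have m0 : 0 < ρ (a.1 • e) := hpos _ (hm a)
  have g1 : ∀ t, ρ (a.1 • e) ≤ g t := fun t => ha (mem_univ _)
  have g2 : ∀ t, g t ≤ ρ (b.1 • e) := fun t => hb (mem_univ _)
  have g3 : ∀ x ∈ Q, g (x 0) = ρ x := fun x hx => by
    rw [hQ] at hx
    simp only [g, projIcc_of_mem _ (hx 0), e0]
  generalize ρ (a.1 • e) = m at *
  generalize ρ (b.1 • e) = M at *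
  let F : ℝ → ℝ := fun s => ∫ t in (0 : ℝ)..s, g t
  have hF : ∀ s, HasDerivAt F (g s) s := fun s => (gc.integral_hasStrictDerivAt 0 s).hasDerivAt
  have hd : Differentiable ℝ F := fun s => (hF s).differentiableAt
  have k : ∀ s t, m * |s - t| ≤ |F s - F t| ∧ |F s - F t| ≤ M * |s - t| := by
    have k : ∀ s t, t ≤ s → m * |s - t| ≤ |F s - F t| ∧ |F s - F t| ≤ M * |s - t| := by
      intro s t h
      have a1 := mul_sub_le_image_sub_of_le_deriv hd (fun x => (hF x).deriv ▸ g1 x) h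
      have a2 := image_sub_le_mul_sub_of_deriv_le hd (fun x => (hF x).deriv ▸ g2 x) h
      rw [abs_of_nonneg (sub_nonneg.2 h), abs_of_nonneg (le_trans (mul_nonneg m0.le (sub_nonneg.2 h)) a1)]
      exact ⟨a1, a2⟩
    intro s t
    rcases le_total t s with h | h
    · exact k s t h
    · rw [abs_sub_comm s, abs_sub_comm (F s)]
      exact k t s h
  have M0 : 0 < M := m0.trans_le ((g1 0).trans (g2 0))
  let f : EuclideanSpace ℝ (Fin 1) → EuclideanSpace ℝ (Fin 1) := fun x => F (x 0) • e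
  have k' : ∀ x y, m * ‖x - y‖ ≤ ‖f x - f y‖ ∧ ‖f x - f y‖ ≤ M * ‖x - y‖ := fun x y => by
    rw [norm_one, norm_one]
    simpa [f, e] using k (x 0) (y 0)
  have hi : Function.Injective f := fun x y h => by
    have := (k' x y).1
    rw [h, sub_self, norm_zero] at this
    exact sub_eq_zero.1 (norm_le_zero_iff.1 (le_of_mul_le_mul_left (by simpa using this) m0))
  have hf : ∀ x, HasFDerivAt f (g (x 0) • ContinuousLinearMap.id ℝ _) x := fun x => by
    refine (((hF (x 0)).comp_hasFDerivAt x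
      (EuclideanSpace.proj (𝕜 := ℝ) (0 : Fin 1)).hasFDerivAt).smul_const e).congr_fderiv ?_
    refine ContinuousLinearMap.ext fun v => ?_
    simp [mul_smul, e0]
  refine ⟨f, hi.injOn, ⟨M + 1 / m, Real.exp (-1), by positivity, Real.exp_pos _,
    Real.exp_lt_one_iff.2 (by norm_num), fun x _ y _ => ⟨fun h => ?_, fun h => ?_⟩⟩, fun B hB => ?_⟩
  · have a1 := le_om (norm_nonneg _) h
    refine (k' x y).2.trans (mul_le_mul (le_add_of_nonneg_right (by positivity)) a1 (norm_nonneg _)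
      (by positivity))
  · have a1 := le_om (norm_nonneg _) h
    have a2 : ‖x - y‖ ≤ 1 / m * ‖f x - f y‖ := by
      rw [one_div_mul_eq_div, le_div_iff₀' m0]
      exact (k' x y).1
    exact a2.trans (mul_le_mul (le_add_of_nonneg_left M0.le) a1 (norm_nonneg _) (by positivity))
  · have hQm : MeasurableSet Q := by
      rw [hQ, ofPred_forall]
      exact MeasurableSet.iInter fun i => measurableSet_Icc.preimage (by fun_prop)
    have hs : MeasurableSet (Q ∩ f ⁻¹' B) :=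
      hQm.inter (hB.preimage (continuous_iff_continuousAt.2 fun x => (hf x).continuousAt).measurable)
    rw [inter_comm B, ← image_inter_preimage, ← lintegral_abs_det_fderiv_eq_addHaar_image volume hs
      (fun x _ => (hf x).hasFDerivWithinAt) hi.injOn]
    refine setLIntegral_congr_fun hs fun x hx => ?_
    have : (g (x 0) • ContinuousLinearMap.id ℝ (EuclideanSpace ℝ (Fin 1))).det = g (x 0) := by
      simp [ContinuousLinearMap.det]
    dsimp only
    rw [this, g3 x hx.1, abs_of_pos (hpos x hx.1)]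

/-- the unit cube in Euclidean space -/
def cube (d : ℕ) : Set (EuclideanSpace ℝ (Fin d)) := {x | ∀ i, x i ∈ Icc (0 : ℝ) 1}

/-- `g` is omega-continuous on `A` for omega(t) = t log(1/t) -/
def OmCont {d : ℕ} (A : Set (EuclideanSpace ℝ (Fin d)))
    (g : EuclideanSpace ℝ (Fin d) → EuclideanSpace ℝ (Fin d)) : Prop :=
  ∃ C t₀ : ℝ, 0 < C ∧ 0 < t₀ ∧ ∀ x ∈ A, ∀ y ∈ A, ‖x - y‖ ≤ t₀ →
    ‖g x - g y‖ ≤ C * (‖x - y‖ * Real.log (1 / ‖x - y‖))

theorem conv {d : ℕ} {Q : Set (EuclideanSpace ℝ (Fin d))}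
    {f : EuclideanSpace ℝ (Fin d) → EuclideanSpace ℝ (Fin d)} (hi : InjOn f Q)
    (h : ∃ C t₀ : ℝ, 0 < C ∧ 0 < t₀ ∧ t₀ < 1 ∧ ∀ x ∈ Q, ∀ y ∈ Q,
      (‖x - y‖ ≤ t₀ → ‖f x - f y‖ ≤ C * (‖x - y‖ * Real.log (1 / ‖x - y‖))) ∧
      (‖f x - f y‖ ≤ t₀ → ‖x - y‖ ≤ C * (‖f x - f y‖ * Real.log (1 / ‖f x - f y‖)))) :
    OmCont Q f ∧ OmCont (f '' Q) (Function.invFunOn f Q) := by
  obtain ⟨C, t, h1, h2, -, h3⟩ := h
  refine ⟨⟨C, t, h1, h2, fun x hx y hy => (h3 x hx y hy).1⟩, C, t, h1, h2, ?_⟩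
  rintro _ ⟨x, hx, rfl⟩ _ ⟨y, hy, rfl⟩
  rw [hi.leftInvOn_invFunOn hx, hi.leftInvOn_invFunOn hy]
  exact (h3 x hx y hy).2

end Comb

open Comb in
theorem comb (h : MainStmt) (d : ℕ) (hd : 1 ≤ d) :
    (∃ ρ : EuclideanSpace ℝ (Fin d) → ℝ, ContinuousOn ρ (cube d) ∧ (∀ x ∈ cube d, 0 < ρ x) ∧
      ¬ ∃ f : EuclideanSpace ℝ (Fin d) → EuclideanSpace ℝ (Fin d), InjOn f (cube d) ∧
        OmCont (cube d) f ∧ OmCont (f '' cube d) (Function.invFunOn f (cube d)) ∧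
        ∀ B, MeasurableSet B →
          ∫⁻ x in cube d ∩ f ⁻¹' B, ENNReal.ofReal (ρ x) = volume (B ∩ f '' cube d)) ↔ 4 ≤ d := by
  constructor
  · rintro ⟨ρ, h1, h2, h3⟩
    by_contra hc
    apply h3
    obtain rfl | rfl | rfl : d = 1 ∨ d = 2 ∨ d = 3 := by omega
    · obtain ⟨f, a1, a2, a3⟩ := one _ rfl ρ h1 h2
      exact ⟨f, a1, (conv a1 a2).1, (conv a1 a2).2, a3⟩
    · obtain ⟨f, a1, a2, a3⟩ := Pl.main_all 1 (by norm_num) _ rfl ρ h1 h2
      simp only [Real.rpow_one] at a2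
      exact ⟨f, a1, (conv a1 a2).1, (conv a1 a2).2, a3⟩
    · obtain ⟨f, a1, a2, a3⟩ := h _ rfl ρ h1 h2
      exact ⟨f, a1, (conv a1 a2).1, (conv a1 a2).2, a3⟩
  · intro h4
    have : (4 : ℝ) ≤ d := by exact_mod_cast h4
    have k := b2.final2 d (by omega) 1 (by
      rw [lt_div_iff₀ (by linarith)]
      linarith)
    simp only [Real.rpow_one] at k
    exact k

end Pool.Agent.MP_20bec2_an.T3
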