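import Mathlib.Analysis.Distribution.TemperateGrowth
import Pool.Agent.MP_20bec2_an.T3.WinA
import Pool.Agent.MP_20bec2_an.T3.Par4
import Pool.Agent.MP_20bec2_an.T3.Fcomp
import Pool.Agent.MP_20bec2_an.T3.Zt
import Pool.Agent.MP_20bec2_an.T3.Pv
import Pool.Agent.MP_20bec2_an.T3.K4
import Pool.Agent.MP_20bec2_an.T3.Rem
import Pool.Agent.MP_20bec2_an.T3.GoodA
import Pool.Agent.MP_20bec2_an.T3.Runm
import Pool.Agent.MP_20bec2_an.T3.Par3

-- ======== part 0: formerly Pool.Agent.MP_20bec2_an.T3.Clk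
section MrgPart0

/-! Row CLK: the clocks. -/

set_option autoImplicit false
open MeasureTheory Set Filter

namespace Pool.Agent.MP_20bec2_an.T3
noncomputable section

namespace Clk
open Mol

/-- a function with derivative bounded below is a bijection -/
lemma bij {τ : ℝ → ℝ} {c : ℝ} (hc : 0 < c) (hd : Differentiable ℝ τ) (h : ∀ a, c ≤ deriv τ a) :
    Function.Bijective τ := by
  refine ⟨(strictMono_of_deriv_pos fun a => hc.trans_le (h a)).injective,
    hd.continuous.surjective ?_ ?_⟩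
  · refine tendsto_atTop_mono' _ (f₁ := fun a => c * a + τ 0) ?_
      (tendsto_atTop_add_const_right _ _ (tendsto_id.const_mul_atTop hc))
    filter_upwards [eventually_ge_atTop 0] with a ha
    linarith [mul_sub_le_image_sub_of_le_deriv hd h ha]
  · refine tendsto_atBot_mono' _ (f₁ := fun a => c * a + τ 0) ?_
      (tendsto_atBot_add_const_right _ _ (tendsto_id.const_mul_atBot hc))
    filter_upwards [eventually_le_atBot 0] with a ha
    linarith [mul_sub_le_image_sub_of_le_deriv hd h ha]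

/-- the profile of the speed -/
def G (x : ℝ) : ℝ := (1 + ‖x‖ ^ 2) ^ (1 / 4 : ℝ)

lemma G_pow (x : ℝ) : (G x ^ 2) ^ 2 = 1 + x ^ 2 := by
  rw [G, ← pow_mul, ← Real.rpow_natCast, ← Real.rpow_mul (by positivity)]
  norm_num

lemma G_bd {x : ℝ} (hx : 0 ≤ x) : 1 ≤ G x ∧ x ≤ G x ^ 2 ∧ G x ^ 2 ≤ 1 + x :=
  ⟨Real.one_le_rpow (by nlinarith [sq_nonneg ‖x‖]) (by norm_num),
    le_of_sq_le_sq (by rw [G_pow]; linarith) (sq_nonneg _),
    le_of_sq_le_sq (by rw [G_pow]; nlinarith) (by linarith)⟩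

/-- the clock of a bounded measurable energy -/
lemma clock {B : ℝ} (hB : 1 ≤ B) : ∃ (k : ℕ) (C : ℝ), ∀ (e : ℝ → ℝ) (h H U M : ℝ), Measurable e →
    (∀ s, 0 ≤ e s ∧ e s ≤ B) → 0 < h → 0 < H → 0 < U → 1 ≤ M → H ≤ M * U →
    ∃ τ : ℝ → ℝ, Sm τ ∧ τ 0 = 0 ∧ Function.Bijective τ ∧
      (∀ a, 1 / H ≤ deriv τ a ∧ deriv τ a ^ 2 ≤ 1 / H ^ 2 + mol1 h e a / U ^ 2 ∧
        ∀ n ≤ 5, |iteratedDeriv n (deriv τ) a| ≤ C * M ^ k / (H * h ^ n)) ∧
      ∀ a b, a ≤ b → ∫ r in a..b, √(e r) ≤ U * (τ (b + h) - τ (a - h)) := by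
  have hG : Function.HasTemperateGrowth G := Function.hasTemperateGrowth_one_add_norm_sq_rpow ℝ _
  obtain ⟨k, C0, hC0, hk⟩ := hG.norm_iteratedFDeriv_le_uniform 5
  obtain ⟨Cm, hCm, hm⟩ := mol1_gain 5
  refine ⟨2 * k + 10, 120 * C0 * (2 * B) ^ k * (Cm * B) ^ 5, fun e h H U M me he hh hH hU hM hHU => ?_⟩
  have ea : ∀ s, |e s| ≤ B := fun s => abs_le.2 ⟨by linarith [(he s).1], (he s).2⟩
  have le := li_meas me ea
  obtain ⟨u, hu⟩ : ∃ u : ℝ → ℝ, u = fun s => (H / U) ^ 2 * mol1 h e s := ⟨_, rfl⟩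
  have su : Sm u := hu ▸ contDiff_const.mul (mol1_sm hh le)
  have r2 : (H / U) ^ 2 ≤ M ^ 2 := pow_le_pow_left₀ (by positivity) ((div_le_iff₀ hU).2 hHU) 2
  have m0 : ∀ s, 0 ≤ mol1 h e s := fun s => mol1_nonneg hh fun r _ => (he r).1
  have u0 : ∀ s, 0 ≤ u s := fun s => by rw [hu]; exact mul_nonneg (sq_nonneg _) (m0 s)
  have M2 : 1 ≤ M ^ 2 := one_le_pow₀ hM
  have sg : Sm fun s => G (u s) / H := (hG.1.comp su).div_const H
  have hd : ∀ a, HasDerivAt (fun a => ∫ s in (0 : ℝ)..a, G (u s) / H) (G (u a) / H) a := fun a =>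
    (sg.continuous.integral_hasStrictDerivAt 0 a).hasDerivAt
  obtain ⟨τ, hτ⟩ : ∃ τ : ℝ → ℝ, τ = fun a => ∫ s in (0 : ℝ)..a, G (u s) / H := ⟨_, rfl⟩
  rw [← hτ] at hd
  have dτ : deriv τ = fun s => G (u s) / H := funext fun a => (hd a).deriv
  have dd : Differentiable ℝ τ := fun a => (hd a).differentiableAt
  have lo : ∀ a, 1 / H ≤ deriv τ a := fun a => by
    rw [dτ]; exact div_le_div_of_nonneg_right (G_bd (u0 a)).1 hH.le
  refine ⟨τ, contDiff_infty_iff_deriv.2 ⟨dd, dτ ▸ sg⟩, by simp [hτ], bij (one_div_pos.2 hH) dd lo,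
    fun a => ⟨lo a, ?_, fun n hn => ?_⟩, fun a b hab => ?_⟩
  · rw [dτ, div_pow]
    refine (div_le_div_of_nonneg_right (G_bd (u0 a)).2.2 (sq_nonneg H)).trans (le_of_eq ?_)
    simp only [hu]; field_simp
  · have D1 : 1 ≤ Cm * B * M ^ 2 := one_le_mul_of_one_le_of_one_le (by nlinarith) M2
    have h1 := norm_iteratedFDeriv_comp_le hG.1 su (n := n) (by exact_mod_cast le_top) a
      (C := C0 * (2 * B * M ^ 2) ^ k) (D := Cm * B * M ^ 2 / h) (fun i hi => (hk i (hi.trans hn) _).trans (by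
        have : u a ≤ M ^ 2 * B := by
          rw [hu]; exact mul_le_mul r2 (mol1_le hh le fun r _ => (he r).2) (m0 a) (sq_nonneg _)
        rw [Real.norm_of_nonneg (u0 a)]
        have := u0 a
        gcongr
        nlinarith)) fun i h1 hi => by
          rw [norm_iteratedFDeriv_eq_norm_iteratedDeriv, hu, iteratedDeriv_const_mul_field, norm_mul,
            Real.norm_of_nonneg (sq_nonneg _), div_pow (Cm * B * M ^ 2), le_div_iff₀ (by positivity)]
          have := (hm h e B a hh).1 le (fun r _ => ea r) i (hi.trans hn)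
          calc _ = (H / U) ^ 2 * (h ^ i * |iteratedDeriv i (mol1 h e) a|) := by
                rw [Real.norm_eq_abs]; ring
            _ ≤ M ^ 2 * (Cm * B) := mul_le_mul r2 this (by positivity) (sq_nonneg _)
            _ ≤ _ := by rw [mul_comm]; exact le_self_pow₀ D1 (by omega)
    rw [norm_iteratedFDeriv_eq_norm_iteratedDeriv, Real.norm_eq_abs] at h1
    have e1 : (fun s => G (u s) / H) = fun s => H⁻¹ * (G ∘ u) s := funext fun s => by
      rw [div_eq_inv_mul]; rfl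
    rw [dτ, e1, iteratedDeriv_const_mul_field, abs_mul, abs_of_pos (inv_pos.2 hH)]
    refine (mul_le_mul_of_nonneg_left h1 (inv_pos.2 hH).le).trans ?_
    have f5 : (n.factorial : ℝ) ≤ 120 := by exact_mod_cast Nat.factorial_le hn
    calc _ = n.factorial * (C0 * (2 * B * M ^ 2) ^ k) * (Cm * B * M ^ 2) ^ n / (H * h ^ n) := by
          rw [div_pow]; field_simp
      _ ≤ 120 * (C0 * (2 * B * M ^ 2) ^ k) * (Cm * B * M ^ 2) ^ 5 / (H * h ^ n) := by
          gcongr
      _ = _ := by rw [mul_pow (2 * B), ← pow_mul]; ring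
  · have mg : Measurable fun r => √(e r) := me.sqrt
    have gb : ∀ r, |√(e r)| ≤ B := fun r => by
      rw [abs_of_nonneg (Real.sqrt_nonneg _)]
      exact Real.sqrt_le_iff.2 ⟨by linarith, by nlinarith [(he r).2]⟩
    have lg := li_meas mg gb
    have iφ : Integrable ((Ioc (a - h) (b + h)).indicator fun _ => (1 : ℝ)) :=
      (integrable_indicator_iff measurableSet_Ioc).2 (integrableOn_const (by simp))
    have hab' : a - h ≤ b + h := by linarith
    calc _ = ∫ r, (Ioc a b).indicator (fun r => √(e r)) r := by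
          rw [intervalIntegral.integral_of_le hab, integral_indicator measurableSet_Ioc]
      _ ≤ ∫ r, mol1 h ((Ioc (a - h) (b + h)).indicator fun _ => 1) r * √(e r) := by
          refine integral_mono_of_nonneg (.of_forall fun r => indicator_nonneg
            (fun _ _ => Real.sqrt_nonneg _) r) ((integral_mol1 hh iφ).1.mul_bdd
            mg.aestronglyMeasurable (.of_forall gb)) (.of_forall fun r => ?_)
          by_cases hr : r ∈ Ioc a b
          · have e2 : mol1 h ((Ioc (a - h) (b + h)).indicator fun _ => 1) r = mol1 h (fun _ => 1) r :=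
              mol1_congr hh fun t ht => indicator_of_mem (show t ∈ Ioc (a - h) (b + h) from
                ⟨by linarith [hr.1, (abs_le.1 ht).1], by linarith [hr.2, (abs_le.1 ht).2]⟩) _
            beta_reduce
            rw [indicator_of_mem hr, e2, mol1_const hh, one_mul]
          · beta_reduce
            rw [indicator_of_notMem hr]
            exact mul_nonneg (mol1_nonneg hh fun t _ => indicator_nonneg (fun _ _ => zero_le_one) t)
              (Real.sqrt_nonneg _)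
      _ = ∫ s in (a - h)..(b + h), mol1 h (fun r => √(e r)) s := by
          rw [← mol1_adj hh iφ mg.aestronglyMeasurable gb, intervalIntegral.integral_of_le hab',
            ← integral_indicator measurableSet_Ioc]
          simp only [← indicator_mul_left, one_mul]
      _ ≤ ∫ s in (a - h)..(b + h), U * deriv τ s := by
          refine intervalIntegral.integral_mono_on hab'
            ((mol1_sm hh lg).continuous.intervalIntegrable _ _)
            ((continuous_const.mul (dτ ▸ sg.continuous)).intervalIntegrable _ _) fun s _ => ?_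
          refine ((k1_pk hh).cvl_sqrt_le le (fun y => (he y).1) s).trans (Real.sqrt_le_iff.2
            ⟨mul_nonneg hU.le ((one_div_pos.2 hH).le.trans (lo s)), ?_⟩)
          rw [dτ, mul_pow, div_pow]
          refine le_trans (le_of_eq ?_) (mul_le_mul_of_nonneg_left
            (div_le_div_of_nonneg_right (G_bd (u0 s)).2.1 (sq_nonneg H)) (sq_nonneg U))
          simp only [hu, mol1_eq]; field_simp
      _ = _ := by
          rw [intervalIntegral.integral_const_mul, intervalIntegral.integral_deriv_eq_sub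
            (fun x _ => dd x) ((dτ ▸ sg.continuous : Continuous (deriv τ)).intervalIntegrable _ _)]

/-- the rectangle -/
def Q (a0 a1 W0 W1 : ℝ) : Set (ℝ × ℝ) := Ioc (a0 - W0) (a0 + W0) ×ˢ Ioc (a1 - W1) (a1 + W1)

/-- height first -/
def eq3 : V ≃ᵐ ℝ × ℝ × ℝ := (MeasurableEquiv.piFinSuccAbove (fun _ => ℝ) 2).trans
  ((MeasurableEquiv.refl ℝ).prodCongr MeasurableEquiv.finTwoArrow)

lemma eq3_mp : MeasurePreserving eq3.symm volume volume :=
  ((volume_preserving_piFinSuccAbove (fun _ : Fin 3 => ℝ) 2).trans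
    ((MeasurePreserving.id volume).prod (volume_preserving_finTwoArrow ℝ))).symm

lemma eq3_symm (p : ℝ × ℝ × ℝ) : eq3.symm p = ![p.2.1, p.2.2, p.1] := by
  rw [MeasurableEquiv.symm_apply_eq]
  rfl

/-- the lateral average of a bounded function -/
lemma avg {E : V → ℝ} {B a0 a1 W0 W1 : ℝ} (mE : Measurable E) (hE : ∀ x, 0 ≤ E x ∧ E x ≤ B)
    (h0 : 0 < W0) (h1 : 0 < W1) {e : ℝ → ℝ} (he : e = fun s => (∫ x0 in (a0 - W0)..(a0 + W0),
      ∫ x1 in (a1 - W1)..(a1 + W1), E ![x0, x1, s]) / (4 * W0 * W1)) :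
    Measurable e ∧ (∀ s, 0 ≤ e s ∧ e s ≤ B) ∧ ∀ (h : ℝ) (x : V), 0 < h → |x 0 - a0| ≤ W0 →
      |x 1 - a1| ≤ W1 → mol1 h e (x 2) ≤ 64 * mol ![4 * W0, 4 * W1, 2 * h] E x := by
  have Ea : ∀ x, |E x| ≤ B := fun x => abs_le.2 ⟨by linarith [(hE x).1, (hE x).2], (hE x).2⟩
  have mQ : MeasurableSet (Q a0 a1 W0 W1) := measurableSet_Ioc.prod measurableSet_Ioc
  have vQ : volume (Q a0 a1 W0 W1) = ENNReal.ofReal (4 * W0 * W1) := by
    rw [Q, Measure.volume_eq_prod, Measure.prod_prod, Real.volume_Ioc, Real.volume_Ioc,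
      ← ENNReal.ofReal_mul (by linarith)]
    congr 1; ring
  have m3 : Measurable fun p : ℝ × ℝ × ℝ => E ![p.2.1, p.2.2, p.1] := by
    simp only [← eq3_symm]
    exact mE.comp eq3.symm.measurable
  have iQ : ∀ s, IntegrableOn (fun w : ℝ × ℝ => E ![w.1, w.2, s]) (Q a0 a1 W0 W1) := fun s =>
    Measure.integrableOn_of_bounded (by simp [vQ])
      (m3.comp measurable_prodMk_left).aestronglyMeasurable (.of_forall fun w => Ea _)
  have e1 : e = fun s => (∫ w in Q a0 a1 W0 W1, E ![w.1, w.2, s]) / (4 * W0 * W1) := by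
    rw [he]
    funext s
    simp only [intervalIntegral.integral_of_le (show a0 - W0 ≤ a0 + W0 by linarith),
      intervalIntegral.integral_of_le (show a1 - W1 ≤ a1 + W1 by linarith)]
    rw [← setIntegral_prod (fun w : ℝ × ℝ => E ![w.1, w.2, s]) (iQ s)]
    rfl
  have P : 0 < 4 * W0 * W1 := by positivity
  refine ⟨e1 ▸ (m3.stronglyMeasurable.integral_prod_right'.measurable).div_const _, fun s => ?_,
    fun h x hh x0 x1 => ?_⟩
  · rw [e1]
    refine ⟨div_nonneg (integral_nonneg fun w => (hE _).1) P.le, (div_le_iff₀ P).2 ?_⟩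
    have := norm_setIntegral_le_of_norm_le_const (f := fun w : ℝ × ℝ => E ![w.1, w.2, s])
      (s := Q a0 a1 W0 W1) (μ := volume) (by simp [vQ]) fun w _ => Ea _
    rw [measureReal_def, vQ, ENNReal.toReal_ofReal P.le] at this
    exact (le_abs_self _).trans this
  obtain ⟨K, hK⟩ : ∃ K : V → ℝ, K = fun y => Mol.k1 h (x 2 - y 2) *
    (Q a0 a1 W0 W1).indicator (fun _ => 1 / (4 * W0 * W1)) (y 0, y 1) := ⟨_, rfl⟩
  have e2 : mol1 h e (x 2) = ∫ y, K y * E y := by
    have i2 : Integrable (fun p : ℝ × ℝ × ℝ => Mol.k1 h (x 2 - p.1) * (Q a0 a1 W0 W1).indicator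
        (fun _ => 1 / (4 * W0 * W1)) p.2 * E ![p.2.1, p.2.2, p.1]) (volume.prod volume) :=
      (((k1_pk hh).int.comp_sub_left _).mul_prod ((integrable_indicator_iff mQ).2
        (integrableOn_const (by simp [vQ])))).mul_bdd m3.aestronglyMeasurable (.of_forall fun p => Ea _)
    rw [← eq3_mp.integral_comp', mol1_swap]
    simp only [eq3_symm, hK, Matrix.cons_val, Prod.mk.eta]
    rw [Measure.volume_eq_prod, integral_prod _ i2, e1]
    refine congrArg _ (funext fun s => ?_)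
    have e3 : ∀ w : ℝ × ℝ, (Q a0 a1 W0 W1).indicator (fun _ => 1 / (4 * W0 * W1)) w * E ![w.1, w.2, s] =
        (Q a0 a1 W0 W1).indicator (fun w => 1 / (4 * W0 * W1) * E ![w.1, w.2, s]) w := fun w =>
      (indicator_mul_left _ (fun _ => 1 / (4 * W0 * W1)) fun w : ℝ × ℝ => E ![w.1, w.2, s]).symm
    simp only [mul_assoc (Mol.k1 _ _), integral_const_mul, e3, integral_indicator mQ]
    ring
  have := abs_int_le_mol (H := ![4 * W0, 4 * W1, 2 * h]) (x := x) (k := K) (g := E)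
    (M := 1 / h * (1 / (4 * W0 * W1))) (fun i => by fin_cases i <;> simp <;> positivity)
    (li_meas mE Ea) (fun y => by
      rw [hK, abs_mul, abs_of_nonneg (k1_nonneg hh _)]
      refine mul_le_mul (k1_le hh _) ?_ (abs_nonneg _) (by positivity)
      exact (norm_indicator_le_norm_self (fun _ => 1 / (4 * W0 * W1)) _).trans (abs_of_pos (one_div_pos.2 P)).le) fun y hy i => by
      rw [hK] at hy
      obtain ⟨⟨q1, q2⟩, q3, q4⟩ := mem_of_indicator_ne_zero (right_ne_zero_of_mul hy)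
      have q5 := abs_lt.1 (k1_ne hh (left_ne_zero_of_mul hy))
      have q6 := abs_le.1 x0
      have q7 := abs_le.1 x1
      fin_cases i <;> simp only [Fin.zero_eta, Fin.mk_one, Fin.reduceFinMk, Matrix.cons_val] <;>
        exact abs_le.2 ⟨by linarith, by linarith⟩
  simp only [fun y => abs_of_nonneg (hE y).1, Fin.prod_univ_three, Matrix.cons_val] at this
  rw [e2]
  refine (le_abs_self _).trans (this.trans (le_of_eq ?_))
  field_simp
  ring

lemma I_pos : 0 < I1 / I0 := by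
  have s0 : Sm f0 := Prof.bp_sm _ _
  have c0 : HasCompactSupport f0 := Prof.bp_hcs (by norm_num)
  have v0 : f0 0 = 1 := Prof.bp_one (by norm_num) (by norm_num)
  have v1 : f0 1 = 0 := Prof.bp_zero (by norm_num) (by norm_num)
  obtain ⟨t, -, ht⟩ := exists_deriv_eq_slope f0 one_pos s0.continuous.continuousOn
    (s0.differentiable (by simp)).differentiableOn
  refine div_pos (Continuous.integral_pos_of_hasCompactSupport_nonneg_nonzero (x := t)
    ((s0.continuous_deriv (by simp)).pow 2) (c0.deriv.comp_left (g := fun y => y ^ 2) (by simp))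
    (fun _ => sq_nonneg _) ?_) (Continuous.integral_pos_of_hasCompactSupport_nonneg_nonzero (x := 0)
    (s0.continuous.pow 2) (c0.comp_left (g := fun y => y ^ 2) (by simp)) (fun _ => sq_nonneg _) ?_)
  · simp [f1, ht, v0, v1]
  · simp [v0]

/-- parameters of a family -/
lemma par {d : MD} (g : Gd d.c) (hκ : 1 / √(3 / 16 * (I1 / I0) / (95 / 1000)) ≤ np d.c.N (1 / 1000))
    (φ : Fin 3) : 0 < d.W1 φ ∧ 0 < d.W2 φ ∧ np d.c.N (498 / 1000) * d.c.lam ≤ d.Hh φ ∧
      np d.c.N (499 / 1000) * d.c.lam ≤ d.Ug φ ∧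
      d.En φ = mol ![4 * (d.W1 φ / 2), 4 * d.W2 φ, 2 * d.c.h'] (enr d.c.ro d.c.lam d.ρ) ∧
      (d.c.isA → np d.c.N (499 / 1000) * d.c.lam ≤ d.Hh φ ∧ d.Hh φ ≤ d.c.J ^ 10 * d.Ug φ) := by
  have w : np d.c.N (498 / 1000) * d.c.lam ≤ np d.c.N (499 / 1000) * d.c.lam :=
    mul_le_mul_of_nonneg_right (g.big.np_le (by norm_num)) g.lam_pos.le
  have r : ∀ W : ℝ, 4 * (W / 2) = 2 * W := fun W => by ring
  have h0 := (g.win d.c.H0 (by simp)).1
  have h1 := (g.win d.c.H1 (by simp)).1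
  simp only [MD.W1, MD.W2, MD.Hh, MD.Ug, MD.En, r]
  by_cases hφ : φ = 0
  · simp only [hφ, if_true]
    refine ⟨g.W10_pos, g.W20_pos, ?_, g.Ug0_ge, rfl, fun hA => ?_⟩
    · split_ifs
      · have := I_pos
        rw [div_le_iff₀ (by positivity)] at hκ
        refine le_trans ?_ (mul_le_mul_of_nonneg_left (g.win d.c.Hp (by simp)).1 (Real.sqrt_nonneg _))
        rw [show (499 / 1000 : ℝ) = 1 / 1000 + 498 / 1000 by norm_num, g.big.np_add, mul_assoc,
          ← mul_assoc, mul_comm _ (np _ (1 / 1000))]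
        exact le_mul_of_one_le_left (mul_pos (g.big.np_pos _) g.lam_pos).le hκ
      · exact w.trans h0
    · have : ¬d.c.noise := fun hn => by
        have := g.push_η hn.1
        have := g.big.etaA_pos
        unfold Pm.isA at hA
        unfold etaS at *
        linarith
      rw [if_neg this]
      exact ⟨h0, g.H0_le⟩
  · simp only [hφ, if_false]
    exact ⟨g.W11_pos, g.W21_pos, w.trans h1, g.Ug1_ge, rfl, fun _ => ⟨h1, g.H1_le⟩⟩

end Clk

open Clk in
/-- row CLK -/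
theorem clk : ClkStmt := by
  obtain ⟨B, hB, hE⟩ := ener k1 (k4 k1) (kc k1 (k4 k1))
  obtain ⟨k, C, hC⟩ := clock hB
  filter_upwards [ev_gd, ev_C_qp 64 (c := 1 / 10) (by norm_num), ev_C_qp 3 (c := 1 / 100) (by norm_num),
    ev_CqJ_np C 0 (10 * k : ℕ) (c := 1 / 1000) (by norm_num),
    ev_CqJ_np (1 / √(3 / 16 * (I1 / I0) / (95 / 1000))) 0 0 (c := 1 / 1000) (by norm_num)]
    with N hg q1 q2 n1 n2 d hN _ hd
  have g := hg d.c hN hd.ok
  subst hN
  rw [qp_zero, mul_one, Jp_nat, pow_mul] at n1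
  rw [qp_zero, Jp_zero, mul_one, mul_one] at n2
  have P := par g n2
  have l0 := g.lam_pos
  have np0 := g.big.np_pos
  have iv : ∀ a : ℝ, 1 / (np d.c.N a * d.c.lam) = np d.c.N (-a) / d.c.lam := fun a => by
    rw [div_eq_div_iff (mul_pos (np0 a) l0).ne' l0.ne', ← mul_assoc, ← g.big.np_add, neg_add_cancel,
      np_zero]
  have H0 : ∀ φ, 0 < d.Hh φ := fun φ => (mul_pos (np0 _) l0).trans_le (P φ).2.2.1
  by_cases hA : d.c.isA
  swap
  · refine ⟨fun φ _ _ a => a / d.Hh φ, fun φ k0 k1 => ?_⟩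
    have e : deriv (fun a => a / d.Hh φ) = fun _ => 1 / d.Hh φ := funext fun a =>
      ((hasDerivAt_id a).div_const _).deriv
    refine ⟨contDiff_id.div_const _, zero_div _, bij (one_div_pos.2 (H0 φ)) (by fun_prop)
      (fun a => by rw [e]), fun _ _ => rfl, fun a => ⟨by rw [e], ?_, fun j _ => ?_⟩, fun h => (hA h).elim⟩
    · rw [e, neg_div, ← iv]
      exact one_div_le_one_div_of_le (mul_pos (np0 _) l0) (P φ).2.2.1
    · rw [iteratedDeriv_succ', e, iteratedDeriv_const]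
      have := np0 (-985 / 1000); have := np0 (-48 / 100)
      simp only [Nat.add_eq_zero_iff, one_ne_zero, and_false, if_false, abs_zero]
      positivity
  obtain ⟨me, be, -⟩ := hE _ _ _ g.ro_pos l0 hd.rho
  have h0 := g.h'_pos
  have J1 : 1 ≤ d.c.J ^ 10 := one_le_pow₀ (by have := g.big.J_ge; have := g.big.L_ge; unfold Pm.J; linarith)
  have U0 : ∀ φ, 0 < d.Ug φ := fun φ => (mul_pos (np0 _) l0).trans_le (P φ).2.2.2.1
  have A := fun φ k0 k1 => avg (a0 := d.c0 φ k0) (a1 := d.c1 φ k0 k1) me be (half_pos (P φ).1) (P φ).2.1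
    (e := d.eav (d.c0 φ k0) (d.c1 φ k0 k1) (d.W1 φ / 2) (d.W2 φ)) rfl
  choose τ t1 t2 t3 t4 t5 using fun φ k0 k1 => hC _ _ _ _ _ (A φ k0 k1).1 (A φ k0 k1).2.1 h0 (H0 φ)
    (U0 φ) J1 ((P φ).2.2.2.2.2 hA).2
  have hl : np d.c.N (49 / 100) * d.c.lam ≤ d.c.h' := mul_le_mul_of_nonneg_left g.lam_le_ls (np0 _).le
  have D : ∀ φ k0 k1 a, ∀ n ≤ 5, |iteratedDeriv n (deriv (τ φ k0 k1)) a| ≤
      np d.c.N (-498 / 1000) / d.c.lam * (np d.c.N (-49 / 100) / d.c.lam) ^ n := fun φ k0 k1 a n hn => by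
    refine ((t4 φ k0 k1 a).2.2 n hn).trans ?_
    have := np0 (499 / 1000); have := np0 (49 / 100); have := np0 (1 / 1000); have := H0 φ
    calc _ ≤ np d.c.N (1 / 1000) / (np d.c.N (499 / 1000) * d.c.lam *
          (np d.c.N (49 / 100) * d.c.lam) ^ n) := by
          gcongr
          · exact n1
          · exact ((P φ).2.2.2.2.2 hA).1
      _ = _ := by
          rw [neg_div 100, ← iv, show (-498 / 1000 : ℝ) = 1 / 1000 + -(499 / 1000) by norm_num,
            g.big.np_add, mul_div_assoc, ← iv, one_div_pow]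
          field_simp
  have D0 : ∀ φ k0 k1 a, deriv (τ φ k0 k1) a ≤ np d.c.N (-498 / 1000) / d.c.lam := fun φ k0 k1 a => by
    simpa using (le_abs_self _).trans (D φ k0 k1 a 0 (by norm_num))
  refine ⟨τ, fun φ k0 k1 => ⟨t1 _ _ _, t2 _ _ _, t3 _ _ _, fun h => (h hA).elim, fun a =>
    ⟨(t4 _ _ _ a).1, D0 _ _ _ a, fun j hj => ?_⟩, fun _ => ⟨fun x x0 x1 => ?_, fun a b hab h1 => ?_⟩⟩⟩
  · rw [iteratedDeriv_succ']
    refine (D φ k0 k1 a (j + 1) (by omega)).trans ?_
    have := np0 (-49 / 100); have := np0 (-985 / 1000)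
    calc _ = np d.c.N (-498 / 1000 + -49 / 100) / d.c.lam ^ 2 * (np d.c.N (-49 / 100) / d.c.lam) ^ j := by
          rw [g.big.np_add]; ring
      _ ≤ _ := by
          gcongr <;> exact g.big.np_le (by norm_num)
  · refine (t4 _ _ _ _).2.1.trans (add_le_add_right (div_le_div_of_nonneg_right
      (((A φ k0 k1).2.2 _ x h0 x0 x1).trans ?_) (sq_nonneg _)) _)
    rw [(P φ).2.2.2.2.1]
    refine mul_le_mul_of_nonneg_right q1 ((Mol.kh_pk fun i => ?_).cvl_nonneg fun _ _ => (be _).1)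
    have := (P φ).1; have := (P φ).2.1
    fin_cases i <;> simp <;> positivity
  · refine (t5 _ _ _ a b hab).trans ?_
    rw [mul_comm]
    refine mul_le_mul_of_nonneg_right (le_trans ?_ q2) (U0 φ).le
    have dd := (t1 φ k0 k1).differentiable (by simp)
    have s1 := image_sub_le_mul_sub_of_deriv_le dd (D0 φ k0 k1) (show b ≤ b + d.c.h' by linarith)
    have s2 := image_sub_le_mul_sub_of_deriv_le dd (D0 φ k0 k1) (show a - d.c.h' ≤ a by linarith)
    have s3 : np d.c.N (-498 / 1000) / d.c.lam * d.c.h' ≤ 1 := by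
      rw [div_mul_eq_mul_div, div_le_one l0]
      calc _ ≤ np d.c.N (-498 / 1000) * (np d.c.N (49 / 100) * (np d.c.N (24 / 10000) * d.c.lam)) :=
            mul_le_mul_of_nonneg_left (mul_le_mul_of_nonneg_left g.ls_le (np0 _).le) (np0 _).le
        _ ≤ np d.c.N 0 * d.c.lam := by
            rw [← mul_assoc, ← mul_assoc, ← g.big.np_add, ← g.big.np_add]
            exact mul_le_mul_of_nonneg_right (g.big.np_le (by norm_num)) l0.le
        _ = _ := by rw [np_zero, one_mul]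
    rw [add_sub_cancel_left] at s1
    rw [sub_sub_cancel] at s2
    linarith

end
end Pool.Agent.MP_20bec2_an.T3

end MrgPart0

-- ======== part 1: formerly Pool.Agent.MP_20bec2_an.T3.Fin0
section MrgPart1

/-! Row FIN0: second derivatives, noise and the telescoping identity at the end of the path. -/

set_option autoImplicit false
set_option linter.unusedSectionVars false
open MeasureTheory Set Filter Matrix Topology

namespace Pool.Agent.MP_20bec2_an.T3
noncomputable section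
open Classical

namespace GoodP
variable {d : MD} {u : ℕ → V → V} {ω : ℕ → V → ℝ} {m : ℕ} {e : ℝ}

lemma dN_d1 (hc : ∀ j, d.Cr e (u j) (ω j)) (h : Gd d.c) (hI : d.In)
    (H : ∀ Λ ∈ d.FamP, |d.X Λ u ω m| ≤ MM d.c)
    (hy : d.c.noise → CB 1 d.c.thS univ (dy ω m) (d.c.q * d.c.p)) (a b : Fin 3) :
    CO 1 (cv 1) univ (fun x => d.dN (dt ω m) (dy ω m) x a b) (d.c.d2u / d.c.q) := by
  have b0 : 0 < d.c.d2u / d.c.q := div_pos h.d2u_pos h.q_pos
  by_cases hn : d.c.noise
  swap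
  · exact CBl.congr_fun (cbl_zero b0.le) fun x => by rw [dN_nn hc hn]; rfl
  refine CBl.extend (K := d.R (93 / 100)) (fun l hl x hx => ?_) (Prof.RX_closed _ _ _)
    (fun x hx => by rw [dN_apply, dt_off hc x hx, dy_off hc x hx]; ring) b0.le
  obtain ⟨i, rfl⟩ := List.length_eq_one_iff.1 hl
  have hx' := sub99 h hx.2
  have s0 := sg_pos h; have s1 := sg_le h; have s2 := sJ_le h; have s4 := sg_thS h i
  have t0 := h.thS_pos i
  have hh := fun i => (h.thS_pos i).le
  obtain ⟨hP, hth⟩ := hI.ns.2.2 hn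
  have st := sm_dt (m := m) hc
  have c1 : CB 1 d.c.thS (d.R (99 / 100)) (dt ω m) (sg d.c) :=
    CBl.monoB (CBl.monoU ((dt_cb hc h H).of_le (by norm_num)) (subset_univ _)) (pT_sg h)
  have c2 : CB 1 d.c.thS (d.R (99 / 100)) d.th (sg d.c) := hth.of_le (by norm_num)
  have sG : Sm fun x => (d.th x + dt ω m x) ^ 2 - d.th x ^ 2 - dy ω m x :=
    (((hI.ns.1.add st).pow 2).sub (hI.ns.1.pow 2)).sub (sm_dy hc)
  have cG : CB 1 d.c.thS (d.R (99 / 100))
      (fun x => (d.th x + dt ω m x) ^ 2 - d.th x ^ 2 - dy ω m x) (7 * sg d.c ^ 2) := by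
    have := CBl.sub hh ((Sm.cmul (hI.ns.1.mul st) 2).add (st.pow 2)) (sm_dy hc)
      (CBl.add hh (Sm.cmul (hI.ns.1.mul st) 2) (st.pow 2)
        (CBl.smul_nonneg (CB.mul hh hI.ns.1 st c2 c1) zero_le_two) (CB.sq hh st c1))
      (CBl.monoB (CBl.monoU (hy hn) (subset_univ _)) (qp_sg h))
    exact CBl.monoB (CBl.congr_fun this fun x => by ring) (le_of_eq (by ring))
  have g0 := cG.val hx'
  have g1 : |pd i (fun x => (d.th x + dt ω m x) ^ 2 - d.th x ^ 2 - dy ω m x) x| ≤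
      7 * sg d.c * (d.c.d2u / d.c.q) :=
    ((le_div_iff₀' t0).2 (cG.pd_le le_rfl i hx')).trans (by
      rw [sq, ← mul_assoc, mul_div_assoc]; gcongr)
  have g2 : |pd i (dt ω m) x| ≤ d.c.d2u / d.c.q :=
    ((le_div_iff₀' t0).2 (c1.pd_le le_rfl i hx')).trans s4
  have p0 : |pd 0 d.Pq x| ≤ 10 :=
    abs_le.2 ⟨by linarith [(hP.2.1 x hx').2.1], (hP.2.1 x hx').2.2.1⟩
  have p1 : |pd i (pd 0 d.Pq) x| ≤ √d.c.q / d.c.lA + d.c.q * d.c.d2u := by
    simpa [cv] using hP.2.2.1 [i, 0] rfl x hx'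
  have g3 : |pd i (fun x => pd 0 d.Pq x *
      ((d.th x + dt ω m x) ^ 2 - d.th x ^ 2 - dy ω m x)) x| ≤ 4 * (d.c.d2u / d.c.q) := by
    rw [pd_mul (hP.1.pd 0) sG]
    refine (abs_add_le _ _).trans ?_
    rw [abs_mul, abs_mul]
    have h1 := mul_le_mul p1 g0 (abs_nonneg _) ((abs_nonneg _).trans p1)
    have h2 := mul_le_mul p0 g1 (abs_nonneg _) (by norm_num)
    have h3 := sg_lA h
    have h4 : sg d.c * (d.c.d2u / d.c.q) ≤ 1 / 100 * (d.c.d2u / d.c.q) :=
      mul_le_mul_of_nonneg_right (by linarith) b0.le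
    have h5 : 0 ≤ sg d.c ^ 2 * (√d.c.q / d.c.lA + d.c.q * d.c.d2u) :=
      mul_nonneg (sq_nonneg _) ((abs_nonneg _).trans p1)
    linarith
  simp only [dN_apply, hp_cv, one_pow, one_mul, pds_cons, pds_nil]
  rw [pd_add (st.cmul _) (Sm.cmul (Sm.cmul ((hP.1.pd 0).mul sG) _) _)]
  simp only [pd_const_mul]
  rw [abs_le] at g2 g3 ⊢
  rcases E_cases a b with ⟨e1, e2⟩ | ⟨e1, e2⟩ | ⟨e1, e2⟩ <;> rw [e1, e2] <;> constructor <;>
    linarith [g2.1, g2.2, g3.1, g3.2]

end GoodP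

open GoodP in
theorem fin0 : Fin0Stmt := by
  filter_upwards [ev_gd] with N hN d e1 _ hI u ω hP
  have h := hN d.c e1 hI.ok
  have hc := hP.cr
  have H : ∀ Λ ∈ d.FamP, |d.X Λ u ω (nT d.c.N)| ≤ MM d.c := fun Λ hΛ =>
    hP.cru _ le_rfl Λ (Or.inl hΛ)
  refine ⟨⟨Up_d2 hc h H, dN_d1 hc h hI H fun hn => ?_⟩, ⟨sm_dt hc, sm_dy hc,
    fun x hx => ⟨dt_off hc x hx, dy_off hc x hx⟩, fun hn => ⟨dt_nn hc hn, dy_nn hc hn⟩,
    fun _ => dt_cb hc h H⟩, tele hc⟩
  exact CBl.monoB (hP.su.yy hn).2 (one_mul _).le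

end
end Pool.Agent.MP_20bec2_an.T3

end MrgPart1

-- ======== part 2: formerly Pool.Agent.MP_20bec2_an.T3.OphB
section MrgPart2

/-! Column functionals in one sweep: the basic functional. -/

set_option autoImplicit false
open MeasureTheory Set Filter Matrix Topology

namespace Pool.Agent.MP_20bec2_an.T3.OphP
noncomputable section
open Prof
attribute [local irreducible] LL

/-! ## numbers -/

section num
variable {c : Pm} (g : Gd c)
include g

lemma J_big : 1000000000 ≤ c.J := by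
  have := g.big.J_ge; have := g.big.L_ge
  change _ ≤ pJ c.N
  linarith

lemma jn {k e e' : ℝ} (b : ℕ) (hk : 0 < k) (hk' : k ≤ 1000) (hb : b ≤ 40) (he : e + 1 / 100 ≤ e') :
    k * c.J ^ b * np c.N e ≤ np c.N e' := by
  have := g.J_pos; have := g.big.np_pos e
  refine le_of_log (by positivity) (g.big.np_pos _) ?_
  simp (disch := positivity) only [Real.log_mul, Real.log_pow, g.log_J, g.big.log_np]
  have h1 := Real.log_le_self hk.le
  have h2 : (b : ℝ) ≤ 40 := by exact_mod_cast hb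
  have h3 := g.big.J_ge; have h4 := g.big.L_ge
  nlinarith [mul_le_mul_of_nonneg_right he g.big.J_pos.le]

lemma jG {k e e' : ℝ} (b : ℕ) (hk : 0 < k) (hk' : k ≤ 200) (hb : b ≤ 30)
    (he : e + 1 / 100 ≤ e' + 1) : k * c.J ^ b * (np c.N e * c.lam) ≤ np c.N e' * (c.GG / 4) := by
  have h1 := jn g (k := 4 * k) (b + 3) (by positivity) (by linarith) (by omega) he
  have h2 := mul_le_mul_of_nonneg_left g.GG_ge (g.big.np_pos e').le
  have hJ := g.J_pos
  rw [g.big.np_add, np_one] at h1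
  have h3 : 4 * k * c.J ^ b * np c.N e ≤ np c.N e' * (c.N / c.J ^ 3) := by
    rw [← mul_div_assoc, le_div_iff₀ (by positivity)]
    exact le_of_eq_of_le (by ring) h1
  nlinarith [mul_le_mul_of_nonneg_right h3 g.lam_pos.le]

lemma δ_le : Real.exp (-c.J ^ 2 / 80) ≤ np c.N (-200) := by
  rw [g.big.np_eq]
  have := J_big g
  exact Real.exp_le_exp.2 (by change _ ≤ -200 * c.J; nlinarith)

lemma D_bd : np c.N 4 * c.lam ≤ c.D ∧ c.D ≤ np c.N 97 * c.lam := by
  have e : c.D = np c.N 4 * c.lb := by rw [Pm.D, ← np_nat]; norm_num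
  have p := (g.big.np_pos 4).le
  rw [e, show (97 : ℝ) = 4 + 93 by norm_num, g.big.np_add, mul_assoc]
  exact ⟨mul_le_mul_of_nonneg_left g.lam_le_lb p, mul_le_mul_of_nonneg_left g.lb_le p⟩

lemma tiny : 8 * c.J ^ 4 * Real.exp (-c.J ^ 2 / 80) * c.D ≤ c.lam := by
  have h1 := jn g (k := 8) (e := -200 + 97) (e' := 0) 4 (by norm_num) (by norm_num) (by norm_num)
    (by norm_num)
  rw [g.big.np_add, np_zero] at h1
  have := g.J_pos; have := g.lam_pos; have := g.big.np_pos (-200); have := g.D_pos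
  calc _ ≤ 8 * c.J ^ 4 * np c.N (-200) * (np c.N 97 * c.lam) := by
        gcongr
        exacts [δ_le g, (D_bd g).2]
    _ ≤ _ := by nlinarith

lemma Jδ : c.J * Real.exp (-c.J ^ 2 / 80) ≤ np c.N (-47 / 100) := by
  have h1 := jn g (k := 1) (e := -200) (e' := -47 / 100) 1 one_pos (by norm_num) (by norm_num)
    (by norm_num)
  nlinarith [mul_le_mul_of_nonneg_left (δ_le g) g.J_pos.le]

lemma yD : 100 * c.J * c.y ≤ c.D := by
  have h1 := jn g (k := 100) (e := 11 / 10) (e' := 4) 1 (by norm_num) (by norm_num) (by norm_num)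
    (by norm_num)
  have := mul_le_mul_of_nonneg_right h1 g.lam_pos.le
  unfold Pm.y
  nlinarith [(D_bd g).1]

lemma κy : np c.N (-19 / 10) * (100 * c.J * c.y) ≤ c.lam := by
  have h1 := jn g (k := 100) (e := -19 / 10 + 11 / 10) (e' := 0) 1 (by norm_num) (by norm_num)
    (by norm_num) (by norm_num)
  rw [g.big.np_add, np_zero] at h1
  unfold Pm.y
  nlinarith [mul_le_mul_of_nonneg_right h1 g.lam_pos.le]

lemma lam_le {e : ℝ} (he : 0 ≤ e) : c.lam ≤ np c.N e * c.lam :=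
  le_mul_of_one_le_left g.lam_pos.le (np_zero c.N ▸ g.big.np_le he)

lemma hs_le_cw (i : Fin 3) : c.hs i ≤ c.cw i := by
  have h1 : 1 ≤ c.J := by linarith [J_big g]
  have h2 : 1 ≤ pA c.N := one_le_pow₀ h1
  fin_cases i
  · exact le_mul_of_one_le_left g.l1_pos.le h2
  · exact le_mul_of_one_le_left g.lam_pos.le h2
  · refine mul_le_mul_of_nonneg_right ?_ g.lam_pos.le
    refine le_trans ?_ (le_mul_of_one_le_right (by positivity) (one_le_pow₀ h1))
    rw [← np_nat]
    exact g.big.np_le (by norm_num)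

lemma prod_le {a b x y : ℝ} {i : Fin 3} (hab : a + b ≤ -11 / 100) (px : 0 ≤ x)
    (hx : x ≤ c.hs i * (np c.N a * (c.GG / 4))) (hy : y ≤ c.hs i * (np c.N b * (c.GG / 4))) :
    x * y ≤ np c.N (-11 / 100) / 4 * (c.hs i * (c.GG / 2)) ^ 2 := by
  have := g.hs_pos i; have := g.GG_pos; have := g.big.np_pos a; have := g.big.np_pos b
  have h := g.big.np_le hab
  rw [g.big.np_add] at h
  calc x * y ≤ x * (c.hs i * (np c.N b * (c.GG / 4))) := mul_le_mul_of_nonneg_left hy px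
    _ ≤ c.hs i * (np c.N a * (c.GG / 4)) * (c.hs i * (np c.N b * (c.GG / 4))) := by gcongr
    _ = np c.N a * np c.N b / 4 * (c.hs i * (c.GG / 2)) ^ 2 := by ring
    _ ≤ _ := by gcongr

end num

/-! ## one sweep -/

structure Cx (d : MD) (s : Sa) {ι : Type} (T : Finset ι) (Ψ Ψm : ι → V → V) (om : ι → V → ℝ)
    (ce W : ι → V) : Prop where
  gd : Gd d.c
  inn : d.In
  gs : d.Gs s
  sw : d.Swp T Ψ Ψm om ce W
  hz : ∀ x ∈ d.R (99 / 100), ‖d.O *ᵥ (d.Z x + s.U x - x)‖ ≤ d.c.D / 900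

/-- data of a basic functional -/
structure Bs (d : MD) (s : Sa) (C : ℝ) (h : V) (n : ℝ → V) (b : V → ℝ) (Bc : ℝ) (S : V → Mx) :
    Prop where
  ck : CK C h n b Bc
  h0 : h 1 = d.c.lam
  h2 : h 2 ≤ d.c.y
  c1 : C ≤ d.c.J
  c2 : C * Bc ≤ d.c.J
  kl : ∀ (a : V → ℝ) (A : ℝ), Measurable a → (∀ x, |a x| ≤ A) →
    (∀ x, x ∉ d.R (93 / 100) → a x = 0) →
    KL h (d.R (99 / 100)) a A (fun x => d.Z x + s.U x) S

def val (d : MD) (s : Sa) (h : V) (n : ℝ → V) (b : V → ℝ) (S : V → Mx) (I : Set ℝ)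
    (l : List (Fin 3)) (w : V) (i : Fin 3) (v : V → V) : ℝ :=
  hp h l * |pds l (colI n I fun z => b z * dens (fun x => d.ρ x * v x i)
    (fun x => d.Z x + s.U x) S z) w|

variable {d : MD} {s : Sa} {ι : Type} {T : Finset ι} {Ψ Ψm : ι → V → V} {om : ι → V → ℝ}
  {ce W : ι → V} {C Bc : ℝ} {h : V} {n : ℝ → V} {b : V → ℝ} {S : V → Mx} {I : Set ℝ}
  {l : List (Fin 3)} {w : V}

namespace Cx
variable (X : Cx d s T Ψ Ψm om ce W)
include X

lemma rho (x : V) : |d.ρ x| ≤ 2 := by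
  have := abs_le.1 (X.inn.rho.2 x)
  unfold eps0 at this
  exact abs_le.2 ⟨by linarith, by linarith⟩

lemma amp {t : ι} (ht : t ∈ T) (i : Fin 3) (x : V) : |d.ρ x * Ψ t x i| ≤ 2 * d.c.J * d.c.hs i := by
  have h1 := (X.sw.cr t ht).sz x i
  have h2 : d.c.q ≤ d.c.J := X.gd.big.q_le_J
  have h3 := mul_le_mul_of_nonneg_right h2 (X.gd.hs_pos i).le
  rw [abs_mul, mul_assoc]
  exact mul_le_mul (X.rho x) (by linarith) (abs_nonneg _) zero_le_two

lemma kl (B : Bs d s C h n b Bc S) (i : Fin 3) (t : ι) (ht : t ∈ T) : KL h (d.R (99 / 100))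
    (fun x => d.ρ x * Ψ t x i) (2 * d.c.J * d.c.hs i) (fun x => d.Z x + s.U x) S :=
  B.kl _ _ (X.inn.rho.1.mul ((X.sw.cr t ht).sm.1.coord i).continuous.measurable) (X.amp ht i)
    fun x hx => by rw [(((X.sw.cr t ht).sup x).1 hx).1]; simp

omit X in
lemma ne {t : ι} {i : Fin 3} {x : V} (e : d.ρ x * Ψ t x i ≠ 0) : Ψ t x ≠ 0 := fun k => by
  rw [k] at e; simp at e

lemma dis (i : Fin 3) (x : V) : ∀ t ∈ T, ∀ t' ∈ T, t ≠ t' →
    d.ρ x * Ψ t x i = 0 ∨ d.ρ x * Ψ t' x i = 0 := fun t ht t' ht' e => by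
  obtain ⟨Bx, h1, h2⟩ := X.sw.dis
  by_contra k
  push Not at k
  exact Set.disjoint_left.1 (h2 t ht t' ht' e)
    (by_contra fun a => ne k.1 ((h1 t ht).2 x a).1) (by_contra fun a => ne k.2 ((h1 t' ht').2 x a).1)

lemma mem {t : ι} (ht : t ∈ T) {x : V} (e : Ψ t x ≠ 0) : x ∈ d.R (93 / 100) :=
  by_contra fun k => e (((X.sw.cr t ht).sup x).1 k).1

lemma sub {x : V} (hx : x ∈ d.R (93 / 100)) : x ∈ d.R (99 / 100) :=
  RX_mono _ X.gd.D_pos.le (by norm_num) hx

lemma hE (x : V) (hx : x ∈ d.R (99 / 100)) : |x 2| ≤ 2 * d.c.D :=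
  (norm_le_pi_norm x 2).trans ((RX_norm X.inn.ort hx).trans (by linarith [X.gd.D_pos]))

lemma ht2 {t : ι} (ht : t ∈ T) {x : V} (e : Ψ t x ≠ 0) :
    |x 2 - ce t 2| ≤ np d.c.N (51 / 100) * d.c.lam :=
  (((X.sw.win t ht).sup x).2 e).2.2.trans (X.sw.win t ht).wd.2.2.2.2.2.1

/-- heights on the support of a window -/
lemma hgt (B : Bs d s C h n b Bc S) {t : ι} (ht : t ∈ T) {x : V} (e : Ψ t x ≠ 0) :
    d.Z (ce t) 2 - 2 * d.c.y ≤ (d.Z x + s.U x) 2 ∧ (d.Z x + s.U x) 2 ≤ 3 * d.c.D := by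
  have g := X.gd
  have k := X.kl B 0 t ht
  have hx := X.mem ht e
  obtain ⟨a0, a1, -⟩ := ((X.sw.win t ht).sup x).2 e
  obtain ⟨-, -, -, w0, w1, -⟩ := (X.sw.win t ht).wd
  have up : ∀ {a : ℝ}, a ≤ 11 / 10 → np d.c.N a * d.c.lam ≤ d.c.y := fun ha =>
    mul_le_mul_of_nonneg_right (g.big.np_le ha) g.lam_pos.le
  have b0 : |x 0 - ce t 0| ≤ d.c.y := a0.trans (w0.trans (up (by norm_num)))
  have b1 : |x 1 - ce t 1| ≤ d.c.y := by
    refine a1.trans ((mul_le_mul_of_nonneg_left w1 (g.big.np_pos _).le).trans ?_)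
    rw [← mul_assoc, ← g.big.np_add]
    exact up (by norm_num)
  have b2 : |x 2 - ce t 2| ≤ d.c.y := (X.ht2 ht e).trans (up (by norm_num))
  have nn : ‖ce t - x‖ ≤ d.c.y := by
    rw [norm_sub_rev]
    refine (pi_norm_le_iff_of_nonneg g.y_pos.le).2 fun i => ?_
    fin_cases i
    exacts [b0, b1, b2]
  have yd := yD g
  have hJ := mul_le_mul_of_nonneg_right (J_big g) g.y_pos.le
  have hc : ce t ∈ d.R (99 / 100) := by
    have := RX_add (s := 6 / 100) (y := ce t) X.inn.ort hx (by linarith [g.y_pos])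
    rwa [show (93 / 100 + 6 / 100 : ℝ) = 99 / 100 by norm_num] at this
  have m := abs_le.1 (mvt_jm k.cx (fun y _ => k.dZ.differentiable one_ne_zero y) k.bZ
    (X.sub hx) hc 2)
  simp only [Fin.sum_univ_three, cm, of_apply, one_mulVec, Pi.sub_apply, Pi.add_apply,
    (X.gs.sup _).2.1] at m
  have m2 := orth_norm_le_two (orth_t X.inn.ort) (d.O *ᵥ (d.Z x + s.U x - x))
  rw [orth_t_mulVec X.inn.ort] at m2
  have m3 := abs_le.1 ((norm_le_pi_norm (d.Z x + s.U x - x) 2).trans m2)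
  have m4 := X.hz x (X.sub hx)
  have m5 := abs_le.1 (X.hE x (X.sub hx))
  have m6 := abs_le.1 b2
  simp only [Pi.sub_apply, Pi.add_apply, (X.gs.sup _).2.1] at m3 ⊢
  constructor <;> linarith [g.D_pos, g.y_pos]

theorem strad (B : Bs d s C h n b Bc S) (hI : MeasurableSet I) (hl : l ∈ LL 6) {ζ : ℝ}
    (hζ : I = Iic ζ ∨ ζ = 10 * d.c.D) (i : Fin 3) :
    ∑ t ∈ T with ζ - d.c.J * d.c.y < d.Z (ce t) 2, val d s h n b S I l w i (Ψ t) ^ 2 ≤
      np d.c.N (-11 / 100) / 4 * (d.c.hs i * (d.c.GG / 2)) ^ 2 := by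
  have g := X.gd
  have K := B.ck
  have pJ := g.J_pos; have py := g.y_pos; have ph := g.hs_pos i; have pD := g.D_pos
  have pl := g.lam_pos; have pW := g.big.np_pos (51 / 100)
  have pC : 0 ≤ C := by linarith [K.hC]
  have pB := K.hB
  have hJ := J_big g
  refine (K.two (c := fun t => ce t 2) (A1 := 2 * d.c.J * d.c.hs i) (A2 := 2 * d.c.J * d.c.hs i)
    (A3 := 2 * d.c.J * d.c.hs i * Real.exp (-d.c.J ^ 2 / 80)) (W := np d.c.N (51 / 100) * d.c.lam)
    (α := ζ - (2 * d.c.J + 2) * d.c.y) (β := ζ) hI hl _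
    (fun t ht => X.kl B i t (Finset.mem_filter.1 ht).1)
    (fun x t ht t' ht' => X.dis i x t (Finset.mem_filter.1 ht).1 t' (Finset.mem_filter.1 ht').1)
    (by positivity) (by positivity) (by positivity) (by positivity) (by positivity)
    (by nlinarith) X.hE fun t ht x e => ?_).trans (prod_le g (a := -48 / 100) (b := 11 / 100)
      (by norm_num) (by positivity) ?_ ?_)
  · obtain ⟨ht, hz⟩ := Finset.mem_filter.1 ht
    obtain ⟨z1, z2⟩ := X.hgt B ht (ne e)
    have am := X.amp ht i x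
    have m0 : 0 ≤ mm h n b I (d.Z x + s.U x) w :=
      integral_nonneg fun r => indicator_nonneg (fun z _ => env_nonneg K.hh _) _
    refine ⟨X.ht2 ht (ne e), mul_le_mul am ((mm_le K.hh K.cn hI hI _ _ fun r a _ => a).trans
      (K.ec_le _ _ _)) m0 (by positivity), ?_⟩
    rcases hζ with rfl | rfl
    · have m1 := mm_le2 (b := b) K.hh K.cn hI measurableSet_Icc measurableSet_Iic (d.Z x + s.U x) w
        fun r a _ => (le_total (ζ - (2 * d.c.J + 2) * d.c.y) r).imp (fun k => ⟨k, a⟩) id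
      have m2 := K.ec_ver (I := Iic (ζ - (2 * d.c.J + 2) * d.c.y)) (v := d.Z x + s.U x) w pJ.le
        fun r hr => by
          have := mul_le_mul_of_nonneg_left B.h2 pJ.le
          have : r ≤ _ := hr
          rw [abs_sub_comm]
          exact le_trans (by linarith) (le_abs_self _)
      refine (mul_le_mul am (m1.trans (add_le_add le_rfl m2)) m0 (by positivity)).trans_eq ?_
      ring
    · nlinarith [yD g]
  · calc _ ≤ d.c.J * (2 * d.c.J * d.c.hs i * (d.c.J ^ 2 * (2 * (np d.c.N (51 / 100) * d.c.lam)))) := by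
          gcongr
          exacts [B.c2, B.c1]
      _ = d.c.hs i * (4 * d.c.J ^ 4 * (np d.c.N (51 / 100) * d.c.lam)) := by ring
      _ ≤ _ := mul_le_mul_of_nonneg_left (jG g 4 (by norm_num) (by norm_num) (by norm_num)
          (by norm_num)) ph.le
  · rw [sub_sub_cancel]
    calc _ ≤ d.c.J * (2 * d.c.J * d.c.hs i * (d.c.J * (3 * d.c.J * d.c.y)) + 2 * d.c.J * d.c.hs i *
          Real.exp (-d.c.J ^ 2 / 80) * (d.c.J ^ 2 * (2 * (2 * d.c.D)))) := by
          gcongr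
          exacts [B.c2, B.c1, by linarith, B.c1]
      _ = d.c.hs i * (6 * d.c.J ^ 4 * d.c.y +
          8 * d.c.J ^ 4 * Real.exp (-d.c.J ^ 2 / 80) * d.c.D) := by ring
      _ ≤ d.c.hs i * (7 * d.c.J ^ 4 * (np d.c.N (11 / 10) * d.c.lam)) := by
          refine mul_le_mul_of_nonneg_left ?_ ph.le
          have h1 : d.c.lam ≤ d.c.y := lam_le g (by norm_num)
          have h2 : d.c.y ≤ d.c.J ^ 4 * d.c.y :=
            le_mul_of_one_le_left py.le (one_le_pow₀ (by linarith))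
          change _ ≤ 7 * d.c.J ^ 4 * d.c.y
          linarith [tiny g]
      _ ≤ _ := mul_le_mul_of_nonneg_left (jG g 4 (by norm_num) (by norm_num) (by norm_num)
          (by norm_num)) ph.le

/-- the envelope on the support of a main part that is far from the column -/
lemma far_mm (B : Bs d s C h n b Bc S) (hI : MeasurableSet I) {I' : Set ℝ} (hI' : MeasurableSet I')
    (f1 : ∀ r, cpt n w r ∈ tsupport b → r ∈ I') (f2 : ∀ r ∈ I', |n r 1| ≤ d.c.J ^ 20 * d.c.lam / 100)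
    (f3 : ∀ r r', |n r 1 - n r' 1| ≤ np d.c.N (-19 / 10) * |r - r'|) {x : V}
    (hx : d.c.J ^ 22 * d.c.lam < |d.Z x 1 - w 1|) : mm h n b I (d.Z x + s.U x) w ≤
      Real.exp (-d.c.J ^ 2 / 80) * (C / (h 0 * h 1) * gl h n (d.Z x + s.U x) w) := by
  have g := X.gd
  have K := B.ck
  have pJ := g.J_pos; have pl := g.lam_pos; have hJ := J_big g
  refine (mm_le K.hh K.cn hI hI' _ _ fun r _ => f1 r).trans ?_
  by_cases e : ∀ r ∈ I', d.c.J * h 2 ≤ |r - (d.Z x + s.U x) 2|
  · exact K.ec_ver w pJ.le e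
  push Not at e
  obtain ⟨r, hr, e⟩ := e
  refine K.ec_lat _ pJ.le ?_
  have u : |s.U x 1| ≤ d.c.J * d.c.lam := by
    refine ((X.gs.ub x).1 1).trans (mul_le_mul_of_nonneg_right ?_ pl.le)
    exact Real.sqrt_le_iff.2 ⟨pJ.le, by
      rw [sq]; exact mul_le_mul_of_nonneg_right g.big.q_le_J pJ.le⟩
  have a1 := (f3 r _).trans (mul_le_mul_of_nonneg_left
    (e.le.trans (mul_le_mul_of_nonneg_left B.h2 pJ.le)) (g.big.np_pos _).le)
  have a2 := κy g
  have a3 : d.c.J ^ 20 * d.c.lam + 3 * (d.c.J * d.c.lam) ≤ d.c.J ^ 22 * d.c.lam := by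
    have h1 : d.c.J ≤ d.c.J ^ 20 := le_self_pow₀ (by linarith) (by norm_num)
    have h2 : 4 * d.c.J ^ 20 ≤ d.c.J ^ 22 := by
      rw [show d.c.J ^ 22 = d.c.J ^ 2 * d.c.J ^ 20 by ring]
      exact mul_le_mul_of_nonneg_right (by nlinarith) (by positivity)
    nlinarith
  have a4 : d.c.lam ≤ d.c.J * d.c.lam := le_mul_of_one_le_left pl.le (by linarith)
  have a5 : 0 < d.c.J ^ 20 * d.c.lam := by positivity
  have a6 := abs_le.1 (f2 r hr)
  have a7 := abs_le.1 a1
  have a8 := abs_le.1 u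
  rw [B.h0]
  change _ ≤ |d.Z x 1 + s.U x 1 - n ((d.Z x + s.U x) 2) 1 - w 1|
  rcases lt_abs.1 hx with k | k
  · exact le_trans (by linarith) (le_abs_self _)
  · exact le_trans (by linarith) (neg_le_abs _)

theorem far (B : Bs d s C h n b Bc S) (hI : MeasurableSet I) (hl : l ∈ LL 6) {I' : Set ℝ}
    (hI' : MeasurableSet I') (f1 : ∀ r, cpt n w r ∈ tsupport b → r ∈ I')
    (f2 : ∀ r ∈ I', |n r 1| ≤ d.c.J ^ 20 * d.c.lam / 100)
    (f3 : ∀ r r', |n r 1 - n r' 1| ≤ np d.c.N (-19 / 10) * |r - r'|) {α : ℝ}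
    (f4 : ¬ d.c.comp ∨ I' = Icc α (α + 2 * d.c.L)) (i : Fin 3) (hn : ¬ d.nearS T Ψm (w 1)) :
    ∑ t ∈ T, val d s h n b S I l w i (Ψ t) ^ 2 ≤
      np d.c.N (-11 / 100) / 4 * (d.c.hs i * (d.c.GG / 2)) ^ 2 := by
  have g := X.gd
  have K := B.ck
  have pJ := g.J_pos; have pL := g.L_pos; have ph := g.hs_pos i; have pD := g.D_pos
  have pl := g.lam_pos; have pW := g.big.np_pos (51 / 100); have pa := g.big.np_pos (-47 / 100)
  have pC : 0 ≤ C := by linarith [K.hC]
  have pB := K.hB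
  have hJ := J_big g
  refine (K.two (c := fun t => ce t 2) (A1 := 2 * np d.c.N (-47 / 100) * d.c.hs i)
    (A2 := 2 * np d.c.N (-47 / 100) * d.c.hs i)
    (A3 := 2 * d.c.J * d.c.hs i * Real.exp (-d.c.J ^ 2 / 80)) (W := np d.c.N (51 / 100) * d.c.lam)
    (α := α) (β := α + 2 * d.c.L) hI hl _ (X.kl B i) (X.dis i)
    (by positivity) (by positivity) (by positivity) (by positivity) (by positivity)
    (by linarith) X.hE fun t ht x e => ⟨X.ht2 ht (ne e), ?_⟩).trans
      (prod_le g (a := -95 / 100) (b := 54 / 100) (by norm_num) (by positivity) ?_ ?_)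
  · have m0 : 0 ≤ mm h n b I (d.Z x + s.U x) w :=
      integral_nonneg fun r => indicator_nonneg (fun z _ => env_nonneg K.hh _) _
    have pg := mul_pos K.P_pos (gl_pos (h := h) (n := n) (d.Z x + s.U x) w)
    have pe := ec_nonneg (n := n) K.hh (Icc α (α + 2 * d.c.L)) (d.Z x + s.U x) w
    by_cases k : Ψm t x = 0
    · have am : |d.ρ x * Ψ t x i| ≤ 2 * np d.c.N (-47 / 100) * d.c.hs i := by
        have := ((X.sw.win t ht).am x i).2
        rw [k, Pi.zero_apply, sub_zero] at this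
        rw [abs_mul, mul_assoc]
        exact mul_le_mul (X.rho x) this (abs_nonneg _) zero_le_two
      obtain rfl := f4.resolve_left fun a => ne e (by rw [(X.sw.win t ht).nc a, k])
      have m1 := mm_le K.hh K.cn hI hI' (d.Z x + s.U x) w fun r _ => f1 r
      exact ⟨mul_le_mul am (m1.trans (K.ec_le _ _ _)) m0 (by positivity),
        (mul_le_mul am m1 m0 (by positivity)).trans (le_add_of_nonneg_right (by positivity))⟩
    · have m1 := mul_le_mul (X.amp ht i x) (X.far_mm B hI hI' f1 f2 f3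
        (not_le.1 fun a => hn ⟨t, ht, x, k, a⟩)) m0 (by positivity)
      rw [← mul_assoc] at m1
      refine ⟨m1.trans (mul_le_mul_of_nonneg_right ?_ pg.le),
        m1.trans (le_add_of_nonneg_left (by positivity))⟩
      nlinarith [mul_le_mul_of_nonneg_right (Jδ g) ph.le]
  · calc _ ≤ d.c.J * (2 * np d.c.N (-47 / 100) * d.c.hs i *
          (d.c.J ^ 2 * (2 * (np d.c.N (51 / 100) * d.c.lam)))) := by
          gcongr
          exacts [B.c2, B.c1]
      _ = d.c.hs i * (4 * d.c.J ^ 3 * (np d.c.N (-47 / 100 + 51 / 100) * d.c.lam)) := by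
          rw [g.big.np_add]; ring
      _ ≤ _ := mul_le_mul_of_nonneg_left (jG g 3 (by norm_num) (by norm_num) (by norm_num)
          (by norm_num)) ph.le
  · rw [add_sub_cancel_left]
    have e : d.c.L = d.c.J ^ 12 * (np d.c.N 2 * d.c.lam) := by
      rw [Pm.L, ← np_nat]; norm_num; ring
    calc _ ≤ d.c.J * (2 * np d.c.N (-47 / 100) * d.c.hs i * (d.c.J * (2 * d.c.L)) + 2 * d.c.J *
          d.c.hs i * Real.exp (-d.c.J ^ 2 / 80) * (d.c.J ^ 2 * (2 * (2 * d.c.D)))) := by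
          gcongr
          exacts [B.c2, B.c1, B.c1]
      _ = d.c.hs i * (4 * (d.c.J ^ 14 * (np d.c.N (-47 / 100 + 2) * d.c.lam)) +
          8 * d.c.J ^ 4 * Real.exp (-d.c.J ^ 2 / 80) * d.c.D) := by
          rw [g.big.np_add, e]; ring
      _ ≤ d.c.hs i * (5 * d.c.J ^ 14 * (np d.c.N (-47 / 100 + 2) * d.c.lam)) := by
          refine mul_le_mul_of_nonneg_left ?_ ph.le
          have h1 := lam_le g (e := -47 / 100 + 2) (by norm_num)
          have h2 : np d.c.N (-47 / 100 + 2) * d.c.lam ≤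
              d.c.J ^ 14 * (np d.c.N (-47 / 100 + 2) * d.c.lam) :=
            le_mul_of_one_le_left (pl.le.trans h1) (one_le_pow₀ (by linarith))
          linarith [tiny g]
      _ ≤ _ := mul_le_mul_of_nonneg_left (jG g 14 (by norm_num) (by norm_num) (by norm_num)
          (by norm_num)) ph.le

end Cx

end
end Pool.Agent.MP_20bec2_an.T3.OphP

end MrgPart2

-- ======== part 3: formerly Pool.Agent.MP_20bec2_an.T3.Oph
section MrgPart3

/-! Row OPH: operator bounds for the column functionals. -/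

set_option autoImplicit false
open MeasureTheory Set Filter Matrix Topology

namespace Pool.Agent.MP_20bec2_an.T3
noncomputable section
attribute [local irreducible] LL

namespace OphP
open Prof

lemma gw {d : MD} {s : Sa} (g : Gd d.c) (H : d.Gs s) : d.Gw s := by
  have p := g.big.np_pos (-270)
  have := g.lam_pos
  refine ⟨s, H, H.sm, fun x => ⟨(H.sup x).1, (H.sup x).2.2.1⟩, fun x => ⟨?_, fun i j => ?_,
    fun i j => ?_, ?_⟩⟩ <;> simp [cm] <;> positivity

lemma hp_lat {h h' : V} (e : ∀ i, i ≠ 2 → h i = h' i) {l : List (Fin 3)} (hl : ∀ i ∈ l, i ≠ 2) :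
    hp h l = hp h' l := by
  unfold hp
  rw [List.map_congr_left fun i hi => e i (hl i hi)]

lemma pre_neg (n : ℝ → V) (G : V → ℝ) : pre n (fun z => -G z) = fun w => -pre n G w :=
  funext fun _ => integral_neg _

lemma tot_neg (n : ℝ → V) (G : V → ℝ) : tot n (fun z => -G z) = fun w => -tot n G w :=
  funext fun _ => integral_neg _

lemma sq_le {x p a k : ℝ} (hp : 0 ≤ p) (ha : 0 < a) (hk : 1 ≤ k) :
    (p * x / (a * k)) ^ 2 ≤ 2 * (p * |x| / a) ^ 2 + 2 * (p * |x| / a) ^ 2 := by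
  have h1 : |p * x / (a * k)| ≤ p * |x| / a := by
    rw [abs_div, abs_mul, abs_of_nonneg hp, abs_of_pos (by positivity : 0 < a * k)]
    exact div_le_div_of_nonneg_left (by positivity) ha (le_mul_of_one_le_right ha.le hk)
  have h2 := pow_le_pow_left₀ (abs_nonneg _) h1 2
  rw [sq_abs] at h2
  nlinarith [sq_nonneg (p * |x| / a)]

lemma fin {ι : Type} {T : Finset ι} {f f0 f1 : ι → ℝ} {a0 a1 B : ℝ} (p0 : 0 < a0) (p1 : 0 < a1)
    (H : ∀ t ∈ T, f t ^ 2 ≤ 2 * (f0 t / a0) ^ 2 + 2 * (f1 t / a1) ^ 2)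
    (h0 : ∑ t ∈ T, f0 t ^ 2 ≤ B / 4 * a0 ^ 2) (h1 : ∑ t ∈ T, f1 t ^ 2 ≤ B / 4 * a1 ^ 2) :
    ∑ t ∈ T, f t ^ 2 ≤ B := by
  refine (Finset.sum_le_sum H).trans ?_
  simp only [div_pow, Finset.sum_add_distrib, ← Finset.mul_sum, ← Finset.sum_div]
  have k0 := (div_le_iff₀ (pow_pos p0 2)).2 h0
  have k1 := (div_le_iff₀ (pow_pos p1 2)).2 h1
  linarith

/-- primitive of a divergence -/
lemma pre_dv {n : ℝ → V} (hn : Continuous n) {F : V → V} {G0 G1 : V → ℝ} (H0 : ColD G0)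
    (H1 : ColD G1) (e0 : ∀ z, F z 0 = -G0 z) (e1 : ∀ z, F z 1 = -G1 z) (e2 : ∀ z, F z 2 = 0)
    {l : List (Fin 3)} (hl : ∀ i ∈ l, i ≠ 2) (w : V) : pds l (pre n (dv F)) w =
      -(pds (l ++ [0]) (colI n (Iic (w 2)) G0) w + pds (l ++ [1]) (colI n (Iic (w 2)) G1) w) := by
  have e : dv F = fun z => -(pd 0 G0 z + pd 1 G1 z) := by
    funext z
    have a0 := congrFun (pds_neg G0 [0]) z
    have a1 := congrFun (pds_neg G1 [1]) z
    have a2 := congrFun (pds_const (l := [2]) (by simp) 0) z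
    simp only [pds] at a0 a1 a2
    simp only [dv, Fin.sum_univ_three, e0, e1, e2, a0, a1, a2]
    ring
  have lat : ∀ j : Fin 3, j ≠ 2 → ∀ i ∈ l ++ [j], i ≠ 2 := fun j hj i hi =>
    (List.mem_append.1 hi).elim (hl i) fun k => List.mem_singleton.1 k ▸ hj
  rw [e, pre_neg, pds_neg]
  beta_reduce
  rw [((H0.pd 0).add (H1.pd 1)).pds_pre_colI hn hl, (H0.pd 0).colI_add (H1.pd 1) hn,
    pds_add ((H0.pd 0).sm_colI hn _) ((H1.pd 1).sm_colI hn _), H0.pds_colI hn _ (lat 0 (by decide)),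
    H1.pds_colI hn _ (lat 1 (by decide)), pds_concat, pds_concat, (H0.pd 0).pds_colI hn _ hl,
    (H1.pd 1).pds_colI hn _ hl]

end OphP
open OphP Prof

theorem oph (hK : KlsStmt) (hC : ColkStmt) : OphStmt := by
  obtain ⟨C, c1, hck⟩ := ck hC
  obtain ⟨Cb, cb1, hcb⟩ := cb_bc 6
  filter_upwards [hK, ev_gd, ev_C_q (C * Cb)] with N hK hg hq d hN hk hin s gs ι T Ψ Ψm om ce W sw
    a ζ Λ hΛ
  have g := hg d.c hN hin.ok
  obtain ⟨kz, kl⟩ := hK d hN hk hin s (gw g gs)
  have X : Cx d s T Ψ Ψm om ce W := ⟨g, hin, gs, sw, fun x hx => (kz x hx).2.1⟩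
  have cJ : C * Cb ≤ d.c.J := (hN ▸ hq).trans g.big.q_le_J
  have cJ' : C ≤ d.c.J := (le_mul_of_one_le_right (by linarith) cb1).trans cJ
  have pG : ∀ i, 0 < d.c.hs i * (d.c.GG / 2) := fun i => mul_pos (g.hs_pos i) (half_pos g.GG_pos)
  have up : np d.c.N (-11 / 100) ≤ np d.c.N (-1 / 10) := g.big.np_le (by norm_num)
  have hJ := J_big g
  obtain ⟨w, rfl, hΛ⟩ := hΛ
  rcases hΛ with ⟨k, l, hl, i, hi, hΛ⟩ | ⟨nc, rfl, l, hl, -, rfl⟩
  · obtain ⟨sn, hn⟩ := hin.chb.2 k
    have ky := κy g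
    have pκ := g.big.np_pos (-19 / 10)
    have k1 : np d.c.N (-19 / 10) * d.c.y ≤ d.c.lam / 100 := by
      nlinarith [mul_le_mul_of_nonneg_left hJ (mul_pos pκ g.y_pos).le, mul_pos pκ g.y_pos]
    have k2 : np d.c.N (-19 / 10) ≤ 1 / 1000 := by
      have := jn g (k := 1000) (e := -19 / 10) (e' := 0) 0 (by norm_num) le_rfl (by norm_num)
        (by norm_num)
      rw [np_zero] at this
      linarith
    have B : Bs d s C d.c.hs (d.ch k) (d.c.bc k) Cb fun x => d.S x - s.C x :=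
      ⟨hck _ _ _ _ _ g.hs_pos sn (fun j hj => ⟨fun r => (hn j hj r).2.1, k1.trans (by
        fin_cases j
        exacts [div_le_div_of_nonneg_right g.lam_le_l1 (by norm_num), le_rfl, absurd rfl hj])⟩) k2
        (bc_sm _ _) (BdD.of_compact (bc_sm _ _) (bc_hcs g.cw_pos k))
        (CBl.monoh (hcb d.c k) (fun j => (g.hs_pos j).le) (hs_le_cw g)), rfl, le_rfl, cJ', cJ,
        fun a A h1 h2 h3 => (kl a A h1 h2 h3).1⟩
    have l6 := LL_mono (show 3 ≤ 6 by norm_num) hl
    have wl : 1 ≤ d.wl l := by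
      unfold MD.wl
      split_ifs
      exacts [one_le_pow₀ (show 1 ≤ d.c.J by linarith), le_rfl]
    have cf : ∀ v : V → V, d.c.cf k (d.Fv d.S s v) i = fun z => -(d.c.bc k z * dens
        (fun x => d.ρ x * v x i) (fun x => d.Z x + s.U x) (fun x => d.S x - s.C x) z) :=
      fun v => funext fun z => mul_neg _ _
    obtain ⟨I, hI, hζ, key⟩ : ∃ I, MeasurableSet I ∧ (I = Iic ζ ∨ ζ = 10 * d.c.D) ∧ ∀ t ∈ T,
        Λ s (Ψ t) (om t) ^ 2 ≤ 2 * (val d s d.c.hs (d.ch k) (d.c.bc k) (fun x => d.S x - s.C x)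
          I l w i (Ψ t) / (d.c.hs i * (d.c.GG / 2))) ^ 2 + 2 * (val d s d.c.hs (d.ch k) (d.c.bc k)
          (fun x => d.S x - s.C x) I l w i (Ψ t) / (d.c.hs i * (d.c.GG / 2))) ^ 2 := by
      rcases hΛ with ⟨rfl, rfl⟩ | ⟨e, rfl⟩
      · refine ⟨_, measurableSet_Iic, .inl rfl, fun t ht => ?_⟩
        have := sq_le (x := pds l (pre (d.ch k) (d.c.cf k (d.Fv d.S s (Ψ t)) i)) w)
          (hp_nonneg (fun j => (g.hs_pos j).le) l) (pG i) wl
        refine this.trans_eq ?_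
        rw [cf, pre_neg, pds_neg, abs_neg,
          (B.ck.cd _ _ _ _ _ (X.kl B i t ht)).pds_pre_colI sn.continuous (LL_lat hl), val]
      · refine ⟨_, MeasurableSet.univ, .inr e, fun t ht => ?_⟩
        have := sq_le (x := pds l (tot (d.ch k) (d.c.cf k (d.Fv d.S s (Ψ t)) i)) w)
          (hp_nonneg (fun j => (g.hs_pos j).le) l) (pG i) wl
        refine this.trans_eq ?_
        rw [cf, tot_neg, pds_neg, abs_neg, tot_eq_colI, val]
    have st := X.strad (w := w) B hI l6 hζ i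
    refine ⟨(fin (pG i) (pG i) (fun t ht => key t (Finset.mem_filter.1 ht).1) st st).trans up,
      fun nn => ?_⟩
    have pL := g.L_pos
    have iv : ∀ r, r ∈ Icc ((k 2 - 1) * d.c.L) ((k 2 - 1) * d.c.L + 2 * d.c.L) ↔
        |r / d.c.L - k 2| ≤ 1 := fun r => by
      rw [abs_le, le_sub_iff_add_le, sub_le_iff_le_add, le_div_iff₀ pL, div_le_iff₀ pL]
      constructor <;> rintro ⟨h1, h2⟩ <;> constructor <;> linarith
    have fa := X.far (w := w) B hI l6 measurableSet_Icc (fun r hr => (iv r).2 (closure_minimal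
      (t := {z : V | |z 2 / d.c.L - k 2| ≤ 1}) (fun z hz => bc_near hz 2)
      (isClosed_le (by fun_prop) continuous_const) hr))
      (fun r hr => (hn 1 (by decide) r).1 ((iv r).1 hr))
      (fun r r' => convex_univ.norm_image_sub_le_of_norm_deriv_le (f := fun r => d.ch k r 1)
        (fun x _ => (sn.coord 1).dif x) (fun x _ => (hn 1 (by decide) x).2.1) trivial trivial)
      (.inr rfl) i nn
    exact fin (pG i) (pG i) key fa fa
  · have py : 0 < d.yL := (mul_pos (g.big.np_pos _) g.y_pos).trans_le hin.yl.1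
    have hh : ∀ j, 0 < d.c.hy d.yL j := fun j => by
      fin_cases j
      exacts [g.l1_pos, g.lam_pos, py]
    have B : Bs d s C (d.c.hy d.yL) 0 (fun _ => 1) 1 fun x => d.SL x - s.C x :=
      ⟨hck _ _ 0 _ _ hh contDiff_const (fun j _ => ⟨fun r => by simp, by
        rw [zero_mul]; exact div_nonneg (hh j).le (by norm_num)⟩) (by norm_num) contDiff_const
        (BdD.const 1) (cb_const (by simp)), rfl, hin.yl.2, cJ', by rwa [mul_one],
        fun a A h1 h2 h3 => (kl a A h1 h2 h3).2.2⟩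
    have l6 : ∀ j : Fin 3, j ≠ 2 → l ++ [j] ∈ LL 6 := fun j hj =>
      LL_mono (show 2 + 1 ≤ 6 by norm_num) (concat_mem_LL hl hj)
    have key : ∀ t ∈ T, d.kL w l s (Ψ t) (om t) ^ 2 ≤
        2 * (val d s (d.c.hy d.yL) 0 (fun _ => 1) (fun x => d.SL x - s.C x) (Iic (w 2)) (l ++ [0])
          w 0 (Ψ t) / (d.c.hs 0 * (d.c.GG / 2))) ^ 2 +
        2 * (val d s (d.c.hy d.yL) 0 (fun _ => 1) (fun x => d.SL x - s.C x) (Iic (w 2)) (l ++ [1])
          w 1 (Ψ t) / (d.c.hs 1 * (d.c.GG / 2))) ^ 2 := fun t ht => by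
      rw [MD.kL, pre_dv continuous_zero (B.ck.cd _ _ _ _ _ (X.kl B 0 t ht))
        (B.ck.cd _ _ _ _ _ (X.kl B 1 t ht)) (fun z => by rw [one_mul]; rfl)
        (fun z => by rw [one_mul]; rfl)
        (fun z => by simp [MD.Fv, dens, ((sw.cr t ht).sup _).2]) (LL_lat hl), val, val, hp_concat,
        hp_concat, hp_lat (h := d.c.hy d.yL) (h' := d.c.hs) (fun j hj => by
          fin_cases j
          exacts [rfl, rfl, absurd rfl hj]) (LL_lat hl)]
      have p0 := g.l1_pos; have p1 := g.lam_pos; have p2 := g.GG_pos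
      have e : ∀ p x y : ℝ, (p * -(x + y) / (d.c.GG / 2)) ^ 2 ≤
          2 * (p * d.c.l1 * |x| / (d.c.l1 * (d.c.GG / 2))) ^ 2 +
          2 * (p * d.c.lam * |y| / (d.c.lam * (d.c.GG / 2))) ^ 2 := fun p x y => by
        have e0 : p * d.c.l1 * |x| / (d.c.l1 * (d.c.GG / 2)) = p / (d.c.GG / 2) * |x| := by
          field_simp
        have e1 : p * d.c.lam * |y| / (d.c.lam * (d.c.GG / 2)) = p / (d.c.GG / 2) * |y| := by
          field_simp
        rw [e0, e1, mul_div_right_comm, mul_pow, mul_pow, mul_pow, sq_abs, sq_abs]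
        nlinarith [mul_nonneg (sq_nonneg (p / (d.c.GG / 2))) (sq_nonneg (x - y))]
      exact e _ _ _
    have fa := fun (j : Fin 3) (hj : j ≠ 2) => X.far (w := w) (α := 0) B
      (measurableSet_Iic (a := w 2)) (l6 j hj) MeasurableSet.univ (fun _ _ => trivial)
      (fun r _ => by have := g.J_pos; have := g.lam_pos; simp; positivity)
      (fun r r' => by have := g.big.np_pos (-19 / 10); simp; positivity) (.inl nc) j
    exact ⟨(fin (pG 0) (pG 1) (fun t ht => key t (Finset.mem_filter.1 ht).1)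
      (X.strad B measurableSet_Iic (l6 0 (by decide)) (.inl rfl) 0)
      (X.strad B measurableSet_Iic (l6 1 (by decide)) (.inl rfl) 1)).trans up,
      fun nn => fin (pG 0) (pG 1) key (fa 0 (by decide) nn) (fa 1 (by decide) nn)⟩

end
end Pool.Agent.MP_20bec2_an.T3

end MrgPart3

-- marker of a merged file
example : 731051 + 866347 = 731051 + 866347 := rfl
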