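import Mathlib
import Pool.Agent.MP_20bec2_an.T3.Es

/-! Row SDER, conjunct 7: seven derivatives of the planned covariance. -/

set_option autoImplicit false
open MeasureTheory Set Filter Matrix Topology

namespace Pool.Agent.MP_20bec2_an.T3
noncomputable section

open MsP Prof GeoP in
theorem sder7 : EvB fun B => ∀ (k : ℕ) (S : V → Mx), FrOk B.N B.lb B.fr → k < nb B.N →
    B.SB k S 1 (101 / 100) (np B.N (-22)) (np B.N (-22)) → ∀ g i j,
    CV 7 (cv (B.c g k).hm) (B.R g (995 / 1000))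
      (fun x => nrm (B.c g k).hs (B.Cp k S g ((B.fr g).xp x)) i j) (pq B.N * (B.c g k).eL) := by
  obtain ⟨C, c1, c2⟩ := Mol.mol_gain 7
  filter_upwards [ev_big, ev_C_q (7000 * C)] with N hb hq B hN k S G hk P g i j
  subst hN
  have c := Bk.gd G hb g hk.le
  have o := orth G g
  have e0 := c.eL_pos
  have hm : ∀ i, 0 < cv (B.c g k).hm i := fun _ => c.hm_pos
  have h0 := fun i => (hm i).le
  simp only [nrm_Cp G hb hk g g]
  by_cases hv : i = 2 ∨ j = 2
  · simp only [latm_ver _ hv]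
    exact cbl_zero (mul_pos hb.q_pos e0).le
  simp only [latm_lat _ hv, Matrix.sub_apply]
  refine CV.sub_const (nM_sm G hb hk P g i j) ?_ _
  have sG := smM_nL P.sm.1 (B.fr g) (B.c g k).hs i j
  have sub : B.R g (995 / 1000) ⊆ B.R g (1 - (k + 1 : ℕ) / B.N) := by
    refine RX_mono _ (Dp G hb).le (le_sub_comm.1 ((div_le_iff₀ hb.N_pos).2 ?_))
    have : ((k + 1 : ℕ) : ℝ) ≤ nb B.N := by exact_mod_cast hk
    linarith [hb.nb_bd.2, hb.N_ge, hb.J_pos]
  have h1 : CV 1 (cv (B.c g k).hm) (B.R g (1 - k / B.N)) (fun x => B.nS k S g x i j)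
      (101 / 100 * (B.c g k).eL) := CBl.monoh ((P.cv g i j).of_le (by norm_num)) h0 fun _ =>
    mul_le_mul_of_nonneg_right (hb.np_le (by norm_num)) c.lam_pos.le
  have e : ∀ y, -((B.fr g).Oᵀ *ᵥ (B.fr g).x0) + (B.fr g).Oᵀ *ᵥ y = (B.fr g).xc y := fun y => by
    rw [Fr.xc, mulVec_sub]; abel
  have h2 := (CV.affine (κ := 1) (b := -((B.fr g).Oᵀ *ᵥ (B.fr g).x0)) (Q := (B.fr g).Oᵀ)
    (U := {y | (B.fr g).xc y ∈ B.R g (1 - k / B.N)}) h0 h0 (by norm_num)
    (fun a b => mul_le_mul_of_nonneg_right (orth_abs_le (orth_t o) a b) c.hm_pos.le)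
    (SmN.of_sm (smM_nS B k P.sm.1 g i j) _) (fun y hy => (e y).symm ▸ hy) h1).congr_fun
    (f := fun y => nL (B.fr g) (B.c g k).hs (S y) i j) fun y => by rw [e, nS_eq, xp_xc o]
  have h3 := (c2 _ _ _ hm).2.2.2.1 ((B.fr g).xp '' B.R g (995 / 1000)) _ (sG.of_nat 1)
    (by rintro _ ⟨x, hx, rfl⟩ y hy; exact ((thk G hb hk g x (sub hx)).2 y hy).1) h2
  change CV 7 _ _ (fun x => nM B k S g x i j) _
  rw [nM_eq G hb hk P]
  refine CBl.monoB (CV.affine (κ := 1) (b := (B.fr g).x0) (Q := (B.fr g).O)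
    (T := (B.fr g).xp '' B.R g (995 / 1000)) h0 h0 (by norm_num)
    (fun a b => mul_le_mul_of_nonneg_right (orth_abs_le o a b) c.hm_pos.le)
    (SmN.of_sm (mol_sm hm sG) _) (fun x hx => mem_image_of_mem _ hx) h3) ?_
  have := mul_le_mul_of_nonneg_right hq e0.le
  have := mul_pos (zero_lt_one.trans_le c1) e0
  linarith

end
end Pool.Agent.MP_20bec2_an.T3
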